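import Pool.Agent.P.MP_d483fb_an.Z.Br.Final

section

/-!
Definitions used in the statement: connected semisimple groups all of whose simple factors have
real rank at least two, and the conditions `m < v(G)` and `m < d(G)`.
-/

open scoped Matrix TensorProduct

attribute [local instance 100] LieRing.ofAssociativeRing

namespace Pool.Agent.P.MP_d483fb_an.Z

/-- Real square matrices. -/
abbrev Mat (n : ℕ) : Type := Matrix (Fin n) (Fin n) ℝ

/-- Generators of the one parameter groups contained in `S`. -/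
def lieSet {n : ℕ} (S : Set (Mat n)) : Set (Mat n) := {X | ∀ t : ℝ, NormedSpace.exp (t • X) ∈ S}

/-- The Lie algebra of a group of matrices. -/
noncomputable def lieAlg {n : ℕ} (S : Set (Mat n)) : LieSubalgebra ℝ (Mat n) :=
  LieSubalgebra.lieSpan ℝ (Mat n) (lieSet S)

/-- A homomorphism which is a covering map from `G` onto a closed group of matrices that is stable
under transposition, has a semisimple Lie algebra, and all of whose simple ideals have real rank at
least two. -/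
structure HigherRank (G : Type) [Group G] [TopologicalSpace G] (n : ℕ) where
  ρ : G →* Mat n
  closed : IsClosed (Set.range ρ)
  cov : IsCoveringMap (Set.rangeFactorization ρ)
  tr : ∀ g, ∃ g', ρ g' = (ρ g)ᵀ
  ss : LieAlgebra.IsSemisimple ℝ (lieAlg (Set.range ρ))
  rank : ∀ I : LieIdeal ℝ (lieAlg (Set.range ρ)), IsAtom I → ∃ X ∈ I, ∃ Y ∈ I,
    X.1.IsSymm ∧ Y.1.IsSymm ∧ ⁅X, Y⁆ = 0 ∧ LinearIndependent ℝ ![X, Y]

variable {G : Type} [Group G] [TopologicalSpace G] {n : ℕ}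

/-- The dimension of a closed subgroup. -/
noncomputable def HigherRank.dim (D : HigherRank G n) (H : Subgroup G) : ℕ :=
  Module.finrank ℝ (lieAlg (D.ρ '' H))

/-- `m < v(G)`: every proper closed subgroup has codimension greater than `m`. -/
def HigherRank.ltV (D : HigherRank G n) (m : ℕ) : Prop :=
  ∀ H : Subgroup G, IsClosed (H : Set G) → H ≠ ⊤ → m < D.dim ⊤ - D.dim H

/-- `m < d(G)`: for every compact connected group `K` of orthogonal matrices whose complexified Lie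
algebra is isomorphic to a simple ideal of the complexified Lie algebra of `G`, every proper closed
subgroup `C` of `K` has codimension greater than `m`. -/
def HigherRank.ltD (D : HigherRank G n) (m : ℕ) : Prop :=
  ∀ (N : ℕ) (K C : Submonoid (Mat N)), IsCompact (K : Set (Mat N)) → IsConnected (K : Set (Mat N)) →
    (∀ k ∈ K, k * kᵀ = 1) → IsClosed (C : Set (Mat N)) → C < K →
    (∃ I : LieIdeal ℂ (ℂ ⊗[ℝ] lieAlg (Set.range D.ρ)), IsAtom I ∧
      Nonempty ((ℂ ⊗[ℝ] lieAlg (K : Set (Mat N))) ≃ₗ⁅ℂ⁆ I)) →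
    m < Module.finrank ℝ (lieAlg (K : Set (Mat N))) - Module.finrank ℝ (lieAlg (C : Set (Mat N)))

end Pool.Agent.P.MP_d483fb_an.Z


end

section

/-!
Working definitions for the structure theory: a group with an exponential chart (`ExpData`) and a
semisimple group in standard form, with a diagonal Cartan subspace (`Std`).
-/

open scoped Matrix Matrix.Norms.Operator InnerProductSpace RealInnerProductSpace Topology
open NormedSpace Filter Set

noncomputable section

namespace Pool.Agent.P.MP_d483fb_an.Z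

/-- The Cartan subspace and its dual. -/
abbrev Euc (k : ℕ) : Type := EuclideanSpace ℝ (Fin k)

/-- The trace form `tr (X Yᵀ)`. -/
def ip {n : ℕ} (X Y : Mat n) : ℝ := ∑ i, ∑ j, X i j * Y i j

/-- A local inverse of the exponential near `1` in a Banach algebra. -/
def mlog {A : Type} [NormedRing A] [NormedAlgebra ℝ A] [CompleteSpace A] : A → A :=
  (hasStrictFDerivAt_exp_zero (𝕂 := ℝ) (𝔸 := A)).localInverse (f := exp)
    (f' := ContinuousLinearEquiv.refl ℝ A) (a := 0)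

/-- A group that is locally a closed matrix group, with its exponential map. -/
structure ExpData (G : Type) [Group G] [TopologicalSpace G] (n : ℕ) where
  ρ : G →* Mat n
  g : Submodule ℝ (Mat n)
  ex : Mat n → G
  cont : Continuous ρ
  ρ_ex : ∀ X ∈ g, ρ (ex X) = exp X
  ex_cont : ContinuousOn ex g
  ex_zero : ex 0 = 1
  ex_nhds : Filter.map ex (𝓝[g] 0) = 𝓝 1
  disc : ∀ᶠ x in 𝓝 (1 : G), ρ x = 1 → x = 1
  Ad_mem' : ∀ x, ∀ X ∈ g, ρ x * X * ρ x⁻¹ ∈ g

namespace ExpData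

variable {G : Type} [Group G] [TopologicalSpace G] {n : ℕ} (D : ExpData G n)

/-- The adjoint action. -/
def Ad (x : G) : Mat n →ₗ[ℝ] Mat n := LinearMap.mulLeftRight ℝ (D.ρ x, D.ρ x⁻¹)

theorem Ad_apply (x : G) (X : Mat n) : D.Ad x X = D.ρ x * X * D.ρ x⁻¹ := by
  simp [Ad]

theorem Ad_mem (x : G) {X : Mat n} (hX : X ∈ D.g) : D.Ad x X ∈ D.g := by
  rw [Ad_apply]
  exact D.Ad_mem' x X hX

/-- The logarithm near the identity. -/
def lg (x : G) : Mat n := mlog (D.ρ x)

/-- The Lie algebra of a closed subgroup. -/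
def lie (H : Subgroup G) : Submodule ℝ (Mat n) :=
  Submodule.span ℝ {X | X ∈ D.g ∧ ∀ t : ℝ, D.ex (t • X) ∈ H}

/-- The subgroup generated by the exponentials of a subspace. -/
def grp (v : Submodule ℝ (Mat n)) : Subgroup G := Subgroup.closure (D.ex '' v)

/-- `m < v(G)`. -/
def ltV (m : ℕ) : Prop :=
  ∀ H : Subgroup G, IsClosed (H : Set G) → H ≠ ⊤ →
    m < Module.finrank ℝ D.g - Module.finrank ℝ (D.lie H)

end ExpData

/-- A subspace closed under brackets. -/
def IsSub {n : ℕ} (v : Submodule ℝ (Mat n)) : Prop := ∀ X ∈ v, ∀ Y ∈ v, ⁅X, Y⁆ ∈ v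

/-- `I` is an ideal of `g`. -/
def IsIdl {n : ℕ} (g I : Submodule ℝ (Mat n)) : Prop := I ≤ g ∧ ∀ X ∈ g, ∀ Y ∈ I, ⁅X, Y⁆ ∈ I

/-- A semisimple group in standard form: the Cartan subspace is diagonal with weights `lam i`. -/
structure Std (G : Type) [Group G] [TopologicalSpace G] (n k : ℕ) extends ExpData G n where
  lam : Fin n → Euc k
  closed : IsClosed (Set.range ρ)
  opn : Filter.map ρ (𝓝 1) = 𝓝[Set.range ρ] 1
  tr : ∀ x, ∃ x', ρ x' = (ρ x)ᵀ
  cent : ∀ X ∈ g, (∀ Y ∈ g, ⁅X, Y⁆ = 0) → X = 0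
  dg_mem' : ∀ s, Matrix.diagonal (fun i => ⟪lam i, s⟫) ∈ g
  frame : ∀ s t, ∑ i, ⟪lam i, s⟫ * ⟪lam i, t⟫ = ⟪s, t⟫
  max' : ∀ X ∈ g, X.IsSymm → (∀ i j, X i j ≠ 0 → lam i = lam j) →
    ∃ s, X = Matrix.diagonal fun i => ⟪lam i, s⟫
  rank : ∀ I : Submodule ℝ (Mat n), IsIdl g I → I ≠ ⊥ →
    ∃ X ∈ I, ∃ Y ∈ I, X.IsSymm ∧ Y.IsSymm ∧ ⁅X, Y⁆ = 0 ∧ LinearIndependent ℝ ![X, Y]

namespace Std

variable {G : Type} [Group G] [TopologicalSpace G] {n k : ℕ} (D : Std G n k)

/-- The Cartan subspace. -/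
def dg : Euc k →ₗ[ℝ] Mat n where
  toFun s := Matrix.diagonal fun i => ⟪D.lam i, s⟫
  map_add' s t := by simp [inner_add_right, Matrix.diagonal_add]
  map_smul' c s := by
    simp only [inner_smul_right, RingHom.id_apply, ← Matrix.diagonal_smul]
    rfl

theorem dg_apply (s : Euc k) : D.dg s = Matrix.diagonal fun i => ⟪D.lam i, s⟫ := rfl

theorem dg_mem (s : Euc k) : D.dg s ∈ D.g := D.dg_mem' s

/-- The Cartan subgroup. -/
def a (s : Euc k) : G := D.ex (D.dg s)

/-- The preimage of the orthogonal group. -/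
def K : Subgroup G where
  carrier := {x | D.ρ x * (D.ρ x)ᵀ = 1}
  one_mem' := by simp
  mul_mem' := by
    intro x y hx hy
    simp only [mem_ofPred_eq, map_mul, Matrix.transpose_mul] at hx hy ⊢
    rw [mul_assoc, ← mul_assoc (D.ρ y), hy, one_mul, hx]
  inv_mem' := by
    intro x hx
    simp only [mem_ofPred_eq] at hx ⊢
    have h1 : D.ρ x⁻¹ * D.ρ x = 1 := by rw [← map_mul, inv_mul_cancel, map_one]
    have h2 : D.ρ x⁻¹ = (D.ρ x)ᵀ := by
      rw [← mul_one (D.ρ x⁻¹), ← hx, ← mul_assoc, h1, one_mul]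
    rw [h2, Matrix.transpose_transpose, ← h2, h1]

theorem mem_K {x : G} : x ∈ D.K ↔ D.ρ x * (D.ρ x)ᵀ = 1 := Iff.rfl

/-- Matrices all of whose weights lie in `S`. -/
def wtS (S : Set (Euc k)) : Submodule ℝ (Mat n) where
  carrier := {X | ∀ i j, X i j ≠ 0 → D.lam i - D.lam j ∈ S}
  zero_mem' := by intro i j h; exact absurd rfl h
  add_mem' := by
    intro X Y hX hY i j h
    by_cases h1 : X i j = 0
    · refine hY i j fun h2 => h ?_
      rw [Matrix.add_apply, h1, h2, add_zero]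
    · exact hX i j h1
  smul_mem' := by
    intro c X hX i j h
    refine hX i j fun h1 => h ?_
    rw [Matrix.smul_apply, h1, smul_zero]

theorem mem_wtS {S : Set (Euc k)} {X : Mat n} :
    X ∈ D.wtS S ↔ ∀ i j, X i j ≠ 0 → D.lam i - D.lam j ∈ S := Iff.rfl

theorem wtS_mul {S T R : Set (Euc k)} {X Y : Mat n} (hX : X ∈ D.wtS S) (hY : Y ∈ D.wtS T)
    (h : ∀ β ∈ S, ∀ γ ∈ T, β + γ ∈ R) : X * Y ∈ D.wtS R := by
  intro i j hij
  rw [Matrix.mul_apply] at hij
  obtain ⟨l, -, hl⟩ := Finset.exists_ne_zero_of_sum_ne_zero hij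
  have := h _ (hX i l (left_ne_zero_of_mul hl)) _ (hY l j (right_ne_zero_of_mul hl))
  rwa [sub_add_sub_cancel] at this

theorem one_mem_wtS {S : Set (Euc k)} (h : (0 : Euc k) ∈ S) : (1 : Mat n) ∈ D.wtS S := by
  intro i j hij
  obtain rfl : i = j := by
    by_contra hne
    exact hij (Matrix.one_apply_ne hne)
  rwa [sub_self]

/-- Group elements all of whose weights lie in the additive monoid `S`. -/
def stab (S : AddSubmonoid (Euc k)) : Subgroup G where
  carrier := {x | D.ρ x ∈ D.wtS S ∧ D.ρ x⁻¹ ∈ D.wtS S}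
  one_mem' := by
    simp only [mem_ofPred_eq, inv_one, map_one, and_self]
    exact D.one_mem_wtS S.zero_mem
  mul_mem' := by
    rintro x y ⟨hx, hx'⟩ ⟨hy, hy'⟩
    refine ⟨?_, ?_⟩
    · rw [map_mul]
      exact D.wtS_mul hx hy fun β hβ γ hγ => S.add_mem hβ hγ
    · rw [mul_inv_rev, map_mul]
      exact D.wtS_mul hy' hx' fun β hβ γ hγ => S.add_mem hβ hγ
  inv_mem' := by
    rintro x ⟨hx, hx'⟩
    exact ⟨hx', by rwa [inv_inv]⟩

theorem mem_stab {S : AddSubmonoid (Euc k)} {x : G} :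
    x ∈ D.stab S ↔ D.ρ x ∈ D.wtS S ∧ D.ρ x⁻¹ ∈ D.wtS S := Iff.rfl

/-- The closed half space of `s`. -/
def half (s : Euc k) : AddSubmonoid (Euc k) where
  carrier := {γ | 0 ≤ ⟪γ, s⟫}
  zero_mem' := by simp
  add_mem' := by
    intro x y hx hy
    simp only [mem_ofPred_eq, inner_add_left] at hx hy ⊢
    exact add_nonneg hx hy

/-- The hyperplane orthogonal to `s`. -/
def wall (s : Euc k) : AddSubmonoid (Euc k) where
  carrier := {γ | ⟪γ, s⟫ = 0}
  zero_mem' := by simp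
  add_mem' := by
    intro x y hx hy
    simp only [mem_ofPred_eq, inner_add_left] at hx hy ⊢
    rw [hx, hy, add_zero]

/-- The parabolic subgroup of `s`. -/
def Par (s : Euc k) : Subgroup G := D.stab (half s)

/-- The Levi subgroup of `s`: the stabiliser of `dg s`. -/
def Zc (s : Euc k) : Subgroup G := D.stab (wall s)

/-- The centraliser of the Cartan subspace in `K`. -/
def M : Subgroup G := D.K ⊓ D.stab ⊥

/-- The sum of the weight spaces of the Lie algebra with weights in `S`. -/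
def grS (S : Set (Euc k)) : Submodule ℝ (Mat n) := D.g ⊓ D.wtS S

/-- The weight space of the weight `β`. -/
def gr (β : Euc k) : Submodule ℝ (Mat n) := D.grS {β}

open Classical in
/-- The projection on the weights in `S`. -/
def prS (S : Set (Euc k)) : Mat n →ₗ[ℝ] Mat n where
  toFun X := Matrix.of fun i j => if D.lam i - D.lam j ∈ S then X i j else 0
  map_add' X Y := by
    ext i j
    simp only [Matrix.of_apply, Matrix.add_apply]
    split_ifs <;> simp
  map_smul' c X := by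
    ext i j
    simp only [Matrix.of_apply, Matrix.smul_apply, RingHom.id_apply]
    split_ifs <;> simp

open Classical in
theorem prS_apply (S : Set (Euc k)) (X : Mat n) (i j : Fin n) :
    D.prS S X i j = if D.lam i - D.lam j ∈ S then X i j else 0 := rfl

/-- The projection on the weight `β`. -/
def pr (β : Euc k) : Mat n →ₗ[ℝ] Mat n := D.prS {β}

open Classical in
/-- All differences of weights. -/
def wts : Finset (Euc k) := Finset.univ.image fun p : Fin n × Fin n => D.lam p.1 - D.lam p.2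

open Classical in
/-- The restricted roots. -/
def roots : Finset (Euc k) := D.wts.filter fun β => β ≠ 0 ∧ D.gr β ≠ ⊥

/-- The reflection in the hyperplane orthogonal to `β`. -/
def refl (β s : Euc k) : Euc k := s - (2 * ⟪β, s⟫ / ⟪β, β⟫) • β

/-- The class of positive multiples of `β`. -/
def cls (β : Euc k) : Set (Euc k) := {γ | ∃ c : ℝ, 0 < c ∧ γ = c • β}

/-- The Lie algebra of the coarse root group of `β`. -/
def u (β : Euc k) : Submodule ℝ (Mat n) := D.grS (cls β)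

/-- The coarse root group of `β`. -/
def U (β : Euc k) : Subgroup G := D.grp (D.u β)

/-- The Lie algebra of the horospherical group expanded by `s`. -/
def np (s : Euc k) : Submodule ℝ (Mat n) := D.grS {γ | 0 < ⟪γ, s⟫}

/-- The horospherical group expanded by `s`. -/
def N (s : Euc k) : Subgroup G := D.grp (D.np s)

/-- Two roots belong to the same simple factor. -/
def Conn (β γ : Euc k) : Prop :=
  Relation.ReflTransGen (fun x y => x ∈ D.roots ∧ y ∈ D.roots ∧ ⟪x, y⟫ ≠ 0) β γ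

/-- `s` has a nonzero component in every simple factor. -/
def Full (s : Euc k) : Prop := ∀ γ ∈ D.roots, ∃ β ∈ D.roots, D.Conn γ β ∧ ⟪β, s⟫ ≠ 0

end Std

end Pool.Agent.P.MP_d483fb_an.Z

end

end

section

/-! The exponential and the logarithm near the identity of a Banach algebra. -/

open scoped Matrix Matrix.Norms.Operator InnerProductSpace RealInnerProductSpace Topology
open NormedSpace Filter Set

noncomputable section

namespace Pool.Agent.P.MP_d483fb_an.Z

variable {A : Type} [NormedRing A] [NormedAlgebra ℝ A] [CompleteSpace A]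

theorem exp_strict_refl :
    HasStrictFDerivAt (exp : A → A)
      ((ContinuousLinearEquiv.refl ℝ A : A ≃L[ℝ] A) : A →L[ℝ] A) 0 :=
  hasStrictFDerivAt_exp_zero (𝕂 := ℝ) (𝔸 := A)

theorem mlog_def : (mlog : A → A) =
    (exp_strict_refl (A := A)).localInverse exp (ContinuousLinearEquiv.refl ℝ A) 0 := rfl

theorem mlog_one : mlog (1 : A) = 0 := by
  have h := (exp_strict_refl (A := A)).localInverse_apply_image
  rwa [exp_zero] at h

theorem mlog_exp : ∀ᶠ X in 𝓝 (0 : A), mlog (exp X) = X :=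
  (exp_strict_refl (A := A)).eventually_left_inverse

theorem exp_mlog : ∀ᶠ y in 𝓝 (1 : A), exp (mlog y) = y := by
  have h := (exp_strict_refl (A := A)).eventually_right_inverse
  rwa [exp_zero] at h

theorem mlog_strict :
    HasStrictFDerivAt (mlog : A → A) (ContinuousLinearMap.id ℝ A) 1 := by
  have h := (exp_strict_refl (A := A)).to_localInverse
  rw [exp_zero] at h
  exact h

theorem mlog_contDiffAt : ContDiffAt ℝ ⊤ (mlog : A → A) 1 := by
  have h1 : ContDiffAt ℝ ⊤ (exp : A → A) 0 := (exp_analytic (𝕂 := ℝ) (0 : A)).contDiffAt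
  have h := h1.to_localInverse (exp_strict_refl (A := A)).hasFDerivAt (by simp)
  rw [exp_zero] at h
  exact h

theorem mlog_cont : ∀ᶠ y in 𝓝 (1 : A), ContinuousAt mlog y := by
  have h := ((mlog_contDiffAt (A := A)).of_le (m := 1) le_top).eventually (by simp)
  exact h.mono fun y hy => hy.continuousAt

theorem map_exp_nhds : Filter.map exp (𝓝 (0 : A)) = 𝓝 1 := by
  have h := (exp_strict_refl (A := A)).map_nhds_eq_of_equiv
  rwa [exp_zero] at h

theorem exp_add_comm {X Y : A} (h : Commute X Y) : exp (X + Y) = exp X * exp Y :=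
  exp_add_of_commute_of_mem_ball (𝕂 := ℝ) h
    ((expSeries_radius_eq_top ℝ A).symm ▸ edist_lt_top _ _)
    ((expSeries_radius_eq_top ℝ A).symm ▸ edist_lt_top _ _)

theorem exp_mul_neg (X : A) : exp X * exp (-X) = 1 := by
  rw [← exp_add_comm (Commute.refl X).neg_right, add_neg_cancel, exp_zero]

theorem exp_neg_mul (X : A) : exp (-X) * exp X = 1 := by
  rw [← exp_add_comm (Commute.refl X).neg_left, neg_add_cancel, exp_zero]

theorem exp_add_smul (X : A) (s t : ℝ) :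
    exp ((s + t) • X) = exp (s • X) * exp (t • X) := by
  rw [add_smul, exp_add_comm (((Commute.refl X).smul_left s).smul_right t)]

theorem exp_nat_smul (X : A) (m : ℕ) : exp ((m : ℝ) • X) = exp X ^ m := by
  induction m with
  | zero => simp
  | succ m ih => rw [Nat.cast_succ, exp_add_smul, ih, one_smul, pow_succ]

theorem exp_cont : Continuous (exp : A → A) :=
  continuous_iff_continuousAt.2 fun x => (exp_analytic (𝕂 := ℝ) x).continuousAt

theorem hasDerivAt_exp_mul_exp (X Y : A) :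
    HasDerivAt (fun t : ℝ => exp (t • X) * exp (t • Y)) (X + Y) 0 := by
  have h := (hasDerivAt_exp_smul_const (𝕂 := ℝ) X 0).fun_mul
    (hasDerivAt_exp_smul_const (𝕂 := ℝ) Y 0)
  simpa using h

theorem trotter_log (X Y : A) :
    Tendsto (fun m : ℕ => (m : ℝ) • mlog (exp ((m : ℝ)⁻¹ • X) * exp ((m : ℝ)⁻¹ • Y))) atTop
      (𝓝 (X + Y)) := by
  have h1 : HasFDerivAt (mlog : A → A) (ContinuousLinearMap.id ℝ A)
      (exp ((0 : ℝ) • X) * exp ((0 : ℝ) • Y)) := by
    simpa using (mlog_strict (A := A)).hasFDerivAt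
  have h2 := h1.comp_hasDerivAt (0 : ℝ) (hasDerivAt_exp_mul_exp X Y)
  have h3 := (h2.hasFDerivAt.lim_real (1 : ℝ)).comp tendsto_natCast_atTop_atTop
  simpa [Function.comp_def, mlog_one] using h3

theorem trotter (X Y : A) :
    Tendsto (fun m : ℕ => (exp ((m : ℝ)⁻¹ • X) * exp ((m : ℝ)⁻¹ • Y)) ^ m) atTop
      (𝓝 (exp (X + Y))) := by
  have h1 := (exp_cont.tendsto (X + Y)).comp (trotter_log X Y)
  have h2 : Tendsto (fun m : ℕ => exp ((m : ℝ)⁻¹ • X) * exp ((m : ℝ)⁻¹ • Y)) atTop (𝓝 1) := by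
    have h := (hasDerivAt_exp_mul_exp X Y).continuousAt.tendsto.comp
      (tendsto_inv_atTop_nhds_zero_nat (𝕜 := ℝ))
    simpa [Function.comp_def] using h
  refine h1.congr' ?_
  filter_upwards [h2.eventually exp_mlog] with m hm
  simp only [Function.comp_apply]
  rw [exp_nat_smul, hm]

theorem eq_of_exp_smul_eq {X Y : A} (h : ∀ᶠ t in 𝓝 (0 : ℝ), exp (t • X) = exp (t • Y)) :
    X = Y := by
  have h1 := hasDerivAt_exp_smul_const (𝕂 := ℝ) X 0
  have h2 := (hasDerivAt_exp_smul_const (𝕂 := ℝ) Y 0).congr_of_eventuallyEq h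
  simpa using h1.unique h2

/-- A continuous one parameter group is an exponential. -/
theorem exists_gen (φ : ℝ → A) (hc : Continuous φ) (h0 : φ 0 = 1)
    (hadd : ∀ s t, φ (s + t) = φ s * φ t) : ∃ X : A, ∀ t, φ t = exp (t • X) := by
  set F : ℝ → A := fun u => ∫ x in (0 : ℝ)..u, φ x with hF
  have hd : ∀ u, HasDerivAt F (φ u) u := fun u =>
    intervalIntegral.integral_hasDerivAt_right (hc.intervalIntegrable _ _)
      (hc.stronglyMeasurableAtFilter _ _) hc.continuousAt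
  have hF0 : F 0 = 0 := by simp [hF]
  have hs := (hd 0).tendsto_slope_zero
  rw [h0] at hs
  have hu := hs.eventually (Units.isOpen.mem_nhds (isUnit_one (M := A)))
  obtain ⟨r, hr, hr0⟩ := (hu.and self_mem_nhdsWithin).exists
  have hr0' : r ≠ 0 := hr0
  simp only [zero_add, hF0, sub_zero] at hr
  obtain ⟨v, hv⟩ := hr.exists_right_inv
  have hv' : F r * (r⁻¹ • v) = 1 := by
    rw [mul_smul_comm, ← smul_mul_assoc, hv]
  set w : A := r⁻¹ • v
  have hmul : ∀ t, φ t * F r = F (t + r) - F t := by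
    intro t
    have e1 : φ t * F r = ∫ x in (0 : ℝ)..r, φ (t + x) := by
      simp only [hadd, hF]
      exact ((ContinuousLinearMap.mul ℝ A (φ t)).intervalIntegral_comp_comm
        (hc.intervalIntegrable _ _)).symm
    rw [e1, intervalIntegral.integral_comp_add_left, add_zero]
    exact (intervalIntegral.integral_interval_sub_left (hc.intervalIntegrable _ _)
      (hc.intervalIntegrable _ _)).symm
  have hφ : φ = fun t => (F (t + r) - F t) * w := by
    funext t
    rw [← hmul, mul_assoc, hv', mul_one]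
  set X : A := (φ r - 1) * w with hX
  have hder : ∀ t, HasDerivAt φ (φ t * X) t := by
    intro t
    have h1 : HasDerivAt (fun t => F (t + r)) (φ (t + r)) t := by
      simpa using (hd (t + r)).comp_add_const t r
    have h2 := (h1.sub (hd t)).mul_const w
    have e : (φ (t + r) - φ t) * w = φ t * X := by
      rw [hX, hadd, ← mul_assoc, mul_sub, mul_one]
    rw [e] at h2
    exact h2.congr_of_eventuallyEq (Eventually.of_forall fun s => congrFun hφ s)
  have hψ : ∀ t, HasDerivAt (fun t => φ t * exp (t • (-X))) 0 t := by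
    intro t
    have h := (hder t).mul (hasDerivAt_exp_smul_const' (𝕂 := ℝ) (-X) t)
    have e : φ t * X * exp (t • -X) + φ t * (-X * exp (t • -X)) = 0 := by
      rw [neg_mul, mul_neg, mul_assoc, add_neg_cancel]
    rw [e] at h
    exact h
  refine ⟨X, fun t => ?_⟩
  have hconst := is_const_of_deriv_eq_zero (fun t => (hψ t).differentiableAt)
    (fun t => (hψ t).deriv) t 0
  simp only [zero_smul, exp_zero, h0, mul_one] at hconst
  calc φ t = φ t * (exp (-(t • X)) * exp (t • X)) := by rw [exp_neg_mul, mul_one]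
    _ = exp (t • X) := by rw [← mul_assoc, ← smul_neg, hconst, one_mul]

end Pool.Agent.P.MP_d483fb_an.Z

end

end

section

/-! Conjugation by exponentials in a Banach algebra. -/

open scoped Matrix Matrix.Norms.Operator InnerProductSpace RealInnerProductSpace Topology
open NormedSpace Filter Set

noncomputable section

namespace Pool.Agent.P.MP_d483fb_an.Z

variable {A : Type} [NormedRing A] [NormedAlgebra ℝ A] [CompleteSpace A]

theorem Mx1_der {a : ℝ → ℝ} {a' s : ℝ} (ha : HasDerivAt a a' s) (X : A) :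
    HasDerivAt (fun s => exp (a s • X)) (a' • (X * exp (a s • X))) s :=
  (hasDerivAt_exp_smul_const' X (a s)).scomp s ha

omit [CompleteSpace A] in
theorem Mx1_comm (X : A) (a : ℝ) : X * exp (a • X) = exp (a • X) * X :=
  ((Commute.refl X).smul_right a).exp_right.eq

theorem Mx1_der_neg (X : A) (s : ℝ) :
    HasDerivAt (fun s : ℝ => exp (-(s • X))) (-(exp (-(s • X)) * X)) s := by
  have h := Mx1_der (hasDerivAt_neg s) X
  simp only [neg_smul, one_smul] at h
  rw [← neg_smul, ← Mx1_comm, neg_smul]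
  exact h

omit [CompleteSpace A] in
theorem Mx1_const {F : ℝ → A} {U : Set ℝ} (hU : Convex ℝ U) (h : ∀ x ∈ U, HasDerivAt F 0 x)
    {x y : ℝ} (hx : x ∈ U) (hy : y ∈ U) : F y = F x := by
  have := hU.norm_image_sub_le_of_norm_hasDerivWithin_le (f' := fun _ => (0 : A)) (C := 0)
    (fun z hz => (h z hz).hasDerivWithinAt) (fun _ _ => norm_zero.le) hx hy
  rwa [zero_mul, norm_le_zero_iff, sub_eq_zero] at this

theorem Mx1_ode_left {P : ℝ → A} {X : A} {U : Set ℝ} (hU : Convex ℝ U) (h0 : (0 : ℝ) ∈ U)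
    (h : ∀ s ∈ U, HasDerivAt P (X * P s) s) {s : ℝ} (hs : s ∈ U) : P s = exp (s • X) * P 0 := by
  have h1 := Mx1_const (F := fun s => exp (-(s • X)) * P s) hU (fun x hx => by
    have := (Mx1_der_neg X x).mul (h x hx)
    rwa [neg_mul, mul_assoc, neg_add_cancel] at this) h0 hs
  simp only [zero_smul, neg_zero, exp_zero, one_mul] at h1
  rw [← h1, ← mul_assoc, exp_mul_neg, one_mul]

theorem Mx1_ode {f : ℝ → A} {X : A} (h : ∀ s, HasDerivAt f ⁅X, f s⁆ s) :
    exp X * f 0 * exp (-X) = f 1 := by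
  have h1 := Mx1_ode_left (P := fun s => f s * exp (s • X)) (X := X) convex_univ (mem_univ _)
    (fun s _ => by
      have := (h s).mul (hasDerivAt_exp_smul_const' X s)
      refine this.congr_deriv ?_
      rw [Ring.lie_def]
      noncomm_ring) (mem_univ 1)
  simp only [zero_smul, one_smul, exp_zero, mul_one] at h1
  rw [← h1, mul_assoc, exp_mul_neg, mul_one]

theorem hasDerivAt_conj (X Y : A) (t : ℝ) :
    HasDerivAt (fun t : ℝ => exp (t • X) * Y * exp (-(t • X)))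
      (exp (t • X) * ⁅X, Y⁆ * exp (-(t • X))) t := by
  have h := ((hasDerivAt_exp_smul_const X t).mul_const Y).mul (Mx1_der_neg X t)
  refine h.congr_deriv ?_
  have e : exp (-(t • X)) * X = X * exp (-(t • X)) := by
    rw [← neg_smul, Mx1_comm]
  rw [Ring.lie_def, e]
  noncomm_ring

theorem exp_conj {u v : A} (h : u * v = 1) (h' : v * u = 1) (X : A) :
    u * exp X * v = exp (u * X * v) := by
  let _ : NormedAlgebra ℚ A := .restrictScalars ℚ ℝ A
  exact (exp_units_conj ⟨u, v, h, h'⟩ X).symm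

theorem Mx1_mem {v : Submodule ℝ A} (hv : IsClosed (v : Set A)) {T : A →L[ℝ] A}
    (h : ∀ Y ∈ v, T Y ∈ v) {Y : A} (hY : Y ∈ v) : exp T Y ∈ v := by
  have hs := (exp_series_hasSum_exp' (𝕂 := ℝ) T).mapL (ContinuousLinearMap.apply ℝ A Y)
  have hp : ∀ n : ℕ, (T ^ n) Y ∈ v := by
    intro n
    induction n with
    | zero => simpa using hY
    | succ n ih =>
      rw [pow_succ']
      exact h _ ih
  refine hv.mem_of_tendsto hs.tendsto_sum_nat (Eventually.of_forall fun N => ?_)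
  exact v.sum_mem fun n _ => v.smul_mem _ (hp n)

theorem conj_mem {v : Submodule ℝ A} (hv : IsClosed (v : Set A)) {X : A}
    (h : ∀ Y ∈ v, ⁅X, Y⁆ ∈ v) {Y : A} (hY : Y ∈ v) : exp X * Y * exp (-X) ∈ v := by
  let T : A →L[ℝ] A := ContinuousLinearMap.mul ℝ A X - (ContinuousLinearMap.mul ℝ A).flip X
  have hT : ∀ Y, T Y = ⁅X, Y⁆ := fun Y => by simp [T, Ring.lie_def]
  have h1 := Mx1_ode (f := fun s : ℝ => exp (s • T) Y) (X := X) fun s => by
    have := (ContinuousLinearMap.apply ℝ A Y).hasFDerivAt.comp_hasDerivAt s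
      (hasDerivAt_exp_smul_const' T s)
    rw [← hT]
    exact this
  rw [zero_smul ℝ T, one_smul, exp_zero, one_apply_eq_self] at h1
  rw [h1]
  exact Mx1_mem hv (fun Y hY => hT Y ▸ h Y hY) hY

theorem br_mem_of_conj {v : Submodule ℝ A} (hv : IsClosed (v : Set A)) {X Y : A}
    (h : ∀ᶠ t in 𝓝 (0 : ℝ), exp (t • X) * Y * exp (-(t • X)) ∈ v) : ⁅X, Y⁆ ∈ v := by
  have h1 := hasDerivAt_iff_tendsto_slope.1 (hasDerivAt_conj X Y 0)
  simp only [zero_smul, neg_zero, exp_zero, one_mul, mul_one] at h1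
  refine hv.mem_of_tendsto h1 ?_
  filter_upwards [h.filter_mono nhdsWithin_le_nhds] with t ht
  rw [slope_def_module]
  exact v.smul_mem _ (v.sub_mem ht h.self_of_nhds)

theorem exp_mem_of_mul {v : Submodule ℝ A} (hv : IsClosed (v : Set A)) {X Y : A}
    (h : ∀ Z ∈ v, X * Z ∈ v) (hY : Y ∈ v) : exp X * Y ∈ v := by
  have hs := (exp_series_hasSum_exp' (𝕂 := ℝ) X).mul_right Y
  have hp : ∀ n : ℕ, X ^ n * Y ∈ v := by
    intro n
    induction n with
    | zero => simpa using hY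
    | succ n ih =>
      rw [pow_succ', mul_assoc]
      exact h _ ih
  refine hv.mem_of_tendsto hs.tendsto_sum_nat (Eventually.of_forall fun N => ?_)
  refine v.sum_mem fun n _ => ?_
  rw [smul_mul_assoc]
  exact v.smul_mem _ (hp n)

omit [CompleteSpace A] in
theorem Mx1_lie_smul (X Y : A) (c : ℝ) : ⁅X, c • Y⁆ = c • ⁅X, Y⁆ := by
  simp [Ring.lie_def, smul_sub]

omit [CompleteSpace A] in
theorem Mx1_smul_lie (X Y : A) (c : ℝ) : ⁅c • X, Y⁆ = c • ⁅X, Y⁆ := by
  simp [Ring.lie_def, smul_sub]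

omit [NormedAlgebra ℝ A] [CompleteSpace A] in
theorem Mx1_lie_add (X Y Z : A) : ⁅X, Y + Z⁆ = ⁅X, Y⁆ + ⁅X, Z⁆ := by
  simp only [Ring.lie_def]
  noncomm_ring

theorem conj_eigen {X Y : A} {c : ℝ} (h : ⁅X, Y⁆ = c • Y) :
    exp X * Y * exp (-X) = Real.exp c • Y := by
  have h1 := Mx1_ode (f := fun s : ℝ => Real.exp (s * c) • Y) (X := X) fun s => by
    refine (((hasDerivAt_mul_const c).exp).smul_const Y).congr_deriv ?_
    rw [Mx1_lie_smul, h, smul_smul]
  simpa using h1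

theorem conj_nil3 {X Y : A} (h : ⁅X, ⁅X, ⁅X, Y⁆⁆⁆ = 0) :
    exp X * Y * exp (-X) = Y + ⁅X, Y⁆ + (1 / 2 : ℝ) • ⁅X, ⁅X, Y⁆⁆ := by
  have h1 := Mx1_ode (f := fun s : ℝ => Y + s • ⁅X, Y⁆ + (s * s / 2) • ⁅X, ⁅X, Y⁆⁆) (X := X)
    fun s => by
      refine ((((hasDerivAt_id s).smul_const ⁅X, Y⁆).const_add Y).add
        ((((hasDerivAt_id s).mul (hasDerivAt_id s)).div_const 2).smul_const _)).congr_deriv ?_
      rw [Mx1_lie_add, Mx1_lie_add, Mx1_lie_smul, Mx1_lie_smul, h]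
      simp
  simpa using h1

theorem conj_rot {X Y Z : A} {c : ℝ} (h1 : ⁅X, Y⁆ = c • Z) (h2 : ⁅X, Z⁆ = -(c • Y)) :
    exp X * Y * exp (-X) = Real.cos c • Y + Real.sin c • Z := by
  have h3 := Mx1_ode (f := fun s : ℝ => Real.cos (s * c) • Y + Real.sin (s * c) • Z) (X := X)
    fun s => by
      refine ((((hasDerivAt_mul_const c).cos).smul_const Y).add
        (((hasDerivAt_mul_const c).sin).smul_const Z)).congr_deriv ?_
      rw [Mx1_lie_add, Mx1_lie_smul, Mx1_lie_smul, h1, h2]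
      module
  simpa using h3

theorem Mx1_swap {X Y Z : A} (h : exp X * Y * exp (-X) = Z) : exp X * Y = Z * exp X := by
  rw [← h, mul_assoc, exp_neg_mul, mul_one]

theorem exp_heis {X Y : A} (h1 : ⁅X, ⁅X, Y⁆⁆ = 0) (h2 : ⁅Y, ⁅X, Y⁆⁆ = 0) :
    exp X * exp Y = exp (X + Y + (1 / 2 : ℝ) • ⁅X, Y⁆) := by
  let _ : NormedAlgebra ℚ A := .restrictScalars ℚ ℝ A
  obtain ⟨Z, hZ⟩ : ∃ Z, Z = ⁅X, Y⁆ := ⟨_, rfl⟩
  rw [← hZ] at h1 h2 ⊢
  have c1 : Commute X Z := sub_eq_zero.1 h1
  have c2 : Commute Y Z := sub_eq_zero.1 h2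
  have h3 := Mx1_ode_left (P := fun s : ℝ => exp (s • X) * exp (s • Y) * exp ((-(s * s / 2)) • Z))
    (X := X + Y) convex_univ (mem_univ _) (fun s _ => by
      refine (((hasDerivAt_exp_smul_const' X s).mul (hasDerivAt_exp_smul_const' Y s)).mul
        (Mx1_der (((hasDerivAt_id s).mul (hasDerivAt_id s)).div_const 2).neg Z)).congr_deriv ?_
      have e1 : exp (s • X) * Y = (Y + s • Z) * exp (s • X) := by
        refine Mx1_swap ?_
        have e2 : ⁅s • X, ⁅s • X, Y⁆⁆ = 0 := by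
          rw [Mx1_smul_lie, Mx1_smul_lie, Mx1_lie_smul, ← hZ, h1, smul_zero, smul_zero]
        rw [conj_nil3 (by rw [e2, Ring.lie_def, mul_zero, zero_mul, sub_zero]), e2,
          Mx1_smul_lie, ← hZ, smul_zero, add_zero]
      have e3 : exp (s • X) * exp (s • Y) * Z = Z * (exp (s • X) * exp (s • Y)) :=
        (((c1.smul_left s).exp_left).mul_left ((c2.smul_left s).exp_left)).eq
      simp only [Pi.mul_apply, Pi.neg_apply, id, mul_smul_comm]
      rw [← mul_assoc (exp (s • X)) Y, e1, ← mul_assoc _ Z, e3]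
      simp only [add_mul, smul_mul_assoc, mul_assoc]
      module) (mem_univ 1)
  simp only [zero_smul, one_smul, exp_zero, mul_one, mul_zero, zero_div, neg_zero, neg_smul] at h3
  rw [exp_add_of_commute ((c1.add_left c2).smul_right _), ← h3, mul_assoc, exp_neg_mul, mul_one]

theorem exp_sl2 {e f h : A} (he : ⁅h, e⁆ = (2 : ℝ) • e) (hf : ⁅h, f⁆ = -((2 : ℝ) • f))
    (hef : ⁅e, f⁆ = h) {s t : ℝ} (hc : 0 < 1 + s * t) :
    exp (s • e) * exp (t • f) =
      exp ((t / (1 + s * t)) • f) * exp (Real.log (1 + s * t) • h) *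
        exp ((s / (1 + s * t)) • e) := by
  have hU : Convex ℝ {x : ℝ | 0 < 1 + x * t} := by
    intro x hx y hy a b ha hb hab
    simp only [mem_ofPred_eq, smul_eq_mul] at hx hy ⊢
    have e1 : 1 + (a * x + b * y) * t = a * (1 + x * t) + b * (1 + y * t) := by
      linear_combination -hab
    rw [e1]
    rcases ha.eq_or_lt with rfl | ha'
    · rw [zero_add] at hab
      subst hab
      simpa using hy
    · exact add_pos_of_pos_of_nonneg (mul_pos ha' hx) (mul_nonneg hb hy.le)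
  have fh : ⁅f, h⁆ = (2 : ℝ) • f := by
    rw [← neg_neg ((2 : ℝ) • f), ← hf, Ring.lie_def, Ring.lie_def, neg_sub]
  have fe : ⁅f, e⁆ = (-1 : ℝ) • h := by
    rw [← hef, Ring.lie_def, Ring.lie_def, neg_smul, one_smul, neg_sub]
  have ff : ⁅f, f⁆ = 0 := sub_self _
  have h3 := Mx1_ode_left (P := fun x : ℝ => exp ((t / (1 + x * t)) • f) *
      exp (Real.log (1 + x * t) • h) * exp ((x / (1 + x * t)) • e)) (X := e) hU (by simp)
    (fun x hx => by
      have hx' : 0 < 1 + x * t := hx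
      have du : HasDerivAt (fun x : ℝ => 1 + x * t) t x := (hasDerivAt_mul_const t).const_add 1
      have da : HasDerivAt (fun x : ℝ => t / (1 + x * t)) (-(t / (1 + x * t)) ^ 2) x := by
        refine ((hasDerivAt_const x t).div du hx'.ne').congr_deriv ?_
        field_simp
        ring
      have db : HasDerivAt (fun x : ℝ => Real.log (1 + x * t)) (t / (1 + x * t)) x :=
        du.log hx'.ne'
      have dc : HasDerivAt (fun x : ℝ => x / (1 + x * t)) (((1 + x * t) ^ 2)⁻¹) x := by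
        refine ((hasDerivAt_id x).div du hx'.ne').congr_deriv ?_
        simp only [id]
        field_simp
        ring
      refine (((Mx1_der da f).mul (Mx1_der db h)).mul (Mx1_der dc e)).congr_deriv ?_
      obtain ⟨a, ha⟩ : ∃ a, a = t / (1 + x * t) := ⟨_, rfl⟩
      have e1 : exp (Real.log (1 + x * t) • h) * e =
          ((1 + x * t) ^ 2 • e) * exp (Real.log (1 + x * t) • h) := by
        refine Mx1_swap ?_
        rw [conj_eigen (c := Real.log (1 + x * t) * 2) (by rw [Mx1_smul_lie, he, smul_smul]),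
          mul_two, Real.exp_add, Real.exp_log hx', sq]
      have b1 : ⁅a • f, a • h + e⁆ = (2 * a ^ 2) • f + (-a) • h := by
        rw [Mx1_smul_lie, Mx1_lie_add, Mx1_lie_smul, fh, fe]
        module
      have b2 : ⁅a • f, (2 * a ^ 2) • f + (-a) • h⁆ = (-2 * a ^ 2) • f := by
        rw [Mx1_smul_lie, Mx1_lie_add, Mx1_lie_smul, Mx1_lie_smul, fh, ff]
        module
      have e2 : exp (a • f) * (a • h + e) = (e + a ^ 2 • f) * exp (a • f) := by
        refine Mx1_swap ?_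
        rw [conj_nil3 (by rw [b1, b2, Mx1_smul_lie, Mx1_lie_smul, ff, smul_zero, smul_zero]),
          b1, b2]
        module
      have e3 : exp (a • f) * e = (e + a ^ 2 • f) * exp (a • f) - a • (exp (a • f) * h) := by
        rw [← e2, mul_add, mul_smul_comm, add_sub_cancel_left]
      have e4 : ∀ W : A, ((1 + x * t) ^ 2)⁻¹ •
          (exp (a • f) * exp (Real.log (1 + x * t) • h) * (e * W)) =
          exp (a • f) * e * exp (Real.log (1 + x * t) • h) * W := by
        intro W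
        rw [← mul_assoc _ e, mul_assoc _ _ e, e1, smul_mul_assoc, mul_smul_comm, smul_mul_assoc,
          smul_smul, inv_mul_cancel₀ (by positivity), one_smul, ← mul_assoc _ e]
      simp only [Pi.mul_apply, ← ha, mul_smul_comm]
      rw [e4, e3]
      simp only [add_mul, sub_mul, smul_mul_assoc, mul_assoc]
      module) hc
  rw [h3]
  simp

end Pool.Agent.P.MP_d483fb_an.Z

end

end

section

/-! The exponential map of a group with an exponential chart. -/

open scoped Matrix Matrix.Norms.Operator InnerProductSpace RealInnerProductSpace Topology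
open NormedSpace Filter Set

noncomputable section

namespace Pool.Agent.P.MP_d483fb_an.Z

theorem Ex1_norm_mlog {A : Type} [NormedRing A] [NormedAlgebra ℝ A] [CompleteSpace A] :
    ∀ᶠ y in 𝓝 (1 : A), ‖mlog y‖ ≤ 2 * ‖y - 1‖ ∧ ‖y - 1‖ ≤ 2 * ‖mlog y‖ := by
  have h := (mlog_strict (A := A)).hasFDerivAt.isLittleO.def (c := 1 / 2) (by norm_num)
  filter_upwards [h] with y hy
  rw [mlog_one, sub_zero, ContinuousLinearMap.id_apply] at hy
  have h1 := norm_sub_norm_le (mlog y) (y - 1)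
  have h2 := norm_sub_norm_le (y - 1) (mlog y)
  rw [norm_sub_rev (y - 1) (mlog y)] at h2
  have h3 := norm_nonneg (y - 1)
  constructor <;> linarith

theorem Ex1_br_smul {n : ℕ} (s t : ℝ) (X Y : Mat n) : ⁅s • X, t • Y⁆ = (s * t) • ⁅X, Y⁆ := by
  simp only [Ring.lie_def, smul_mul_smul_comm, smul_sub, mul_comm t s]

namespace ExpData

variable {G : Type} [Group G] [TopologicalSpace G] {n : ℕ} (D : ExpData G n)

theorem ρ_mul_inv (x : G) : D.ρ x * D.ρ x⁻¹ = 1 := by
  rw [← map_mul, mul_inv_cancel, map_one]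

theorem ρ_inv_mul (x : G) : D.ρ x⁻¹ * D.ρ x = 1 := by
  rw [← map_mul, inv_mul_cancel, map_one]

theorem Ad_one (X : Mat n) : D.Ad 1 X = X := by
  simp [Ad_apply]

theorem Ad_mul (x y : G) (X : Mat n) : D.Ad (x * y) X = D.Ad x (D.Ad y X) := by
  simp only [Ad_apply, mul_inv_rev, map_mul, mul_assoc]

theorem Ad_inv_Ad (x : G) (X : Mat n) : D.Ad x⁻¹ (D.Ad x X) = X := by
  rw [← Ad_mul, inv_mul_cancel, Ad_one]

theorem Ad_Ad_inv (x : G) (X : Mat n) : D.Ad x (D.Ad x⁻¹ X) = X := by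
  rw [← Ad_mul, mul_inv_cancel, Ad_one]

theorem Ad_mul_mat (x : G) (X Y : Mat n) : D.Ad x (X * Y) = D.Ad x X * D.Ad x Y := by
  simp only [Ad_apply, mul_assoc]
  rw [← mul_assoc (D.ρ x⁻¹), ρ_inv_mul, one_mul]

theorem Ad_br (x : G) (X Y : Mat n) : D.Ad x ⁅X, Y⁆ = ⁅D.Ad x X, D.Ad x Y⁆ := by
  simp only [Ring.lie_def, map_sub, Ad_mul_mat]

theorem Ad_exp (x : G) (X : Mat n) : D.Ad x (exp X) = exp (D.Ad x X) := by
  rw [Ad_apply, Ad_apply]
  exact exp_conj (D.ρ_mul_inv x) (D.ρ_inv_mul x) X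

theorem norm_Ad_le (x : G) (X : Mat n) : ‖D.Ad x X‖ ≤ ‖D.ρ x‖ * ‖D.ρ x⁻¹‖ * ‖X‖ := by
  rw [Ad_apply, mul_right_comm]
  exact (norm_mul_le _ _).trans (mul_le_mul_of_nonneg_right (norm_mul_le _ _) (norm_nonneg _))

theorem Ex1_tendsto_ρ : Tendsto D.ρ (𝓝 1) (𝓝 1) := by
  have h := D.cont.tendsto 1
  rwa [map_one] at h

theorem lg_one : D.lg 1 = 0 := by
  rw [lg, map_one]
  exact mlog_one

theorem ex_smul_cont {X : Mat n} (hX : X ∈ D.g) : Continuous fun t : ℝ => D.ex (t • X) :=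
  D.ex_cont.comp_continuous (continuous_id.smul continuous_const) fun t => D.g.smul_mem t hX

theorem lg_ex : ∀ᶠ X in 𝓝[D.g] (0 : Mat n), D.lg (D.ex X) = X := by
  have h : ∀ᶠ X in 𝓝 (0 : Mat n), mlog (exp X) = X := mlog_exp
  filter_upwards [self_mem_nhdsWithin, nhdsWithin_le_nhds h] with X hX h
  rw [lg, D.ρ_ex X hX]
  exact h

theorem ex_lg : ∀ᶠ x in 𝓝 (1 : G), D.lg x ∈ D.g ∧ D.ex (D.lg x) = x := by
  rw [← D.ex_nhds, eventually_map]
  filter_upwards [self_mem_nhdsWithin, D.lg_ex] with X hX h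
  rw [h]
  exact ⟨hX, rfl⟩

theorem lg_cont : ∀ᶠ x in 𝓝 (1 : G), ContinuousAt D.lg x := by
  have h : ∀ᶠ y in 𝓝 (1 : Mat n), ContinuousAt mlog y := mlog_cont
  filter_upwards [D.Ex1_tendsto_ρ.eventually h] with x hx
  exact ContinuousAt.comp (g := mlog) (f := D.ρ) hx D.cont.continuousAt

theorem tendsto_lg : Tendsto D.lg (𝓝 1) (𝓝[D.g] 0) := by
  refine tendsto_nhdsWithin_iff.2 ⟨?_, D.ex_lg.mono fun x hx => hx.1⟩
  have h : Tendsto D.lg (𝓝 1) (𝓝 (D.lg 1)) := D.lg_cont.self_of_nhds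
  rwa [lg_one] at h

/-- The exponential chart. -/
theorem chart : ∃ r > 0, ∃ U : Set G, IsOpen U ∧ ContinuousOn D.lg U ∧
    (∀ x ∈ U, D.lg x ∈ D.g ∧ ‖D.lg x‖ < r ∧ D.ex (D.lg x) = x) ∧
    ∀ X ∈ D.g, ‖X‖ < r → D.ex X ∈ U ∧ D.lg (D.ex X) = X := by
  obtain ⟨V, hV, hVo, hV1⟩ := eventually_nhds_iff.1 (D.ex_lg.and D.lg_cont)
  have h1 : ∀ᶠ X in 𝓝[D.g] (0 : Mat n), D.ex X ∈ V := by
    have h : V ∈ Filter.map D.ex (𝓝[D.g] 0) := by
      rw [D.ex_nhds]
      exact hVo.mem_nhds hV1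
    exact h
  obtain ⟨r, hr, h2⟩ := Metric.mem_nhdsWithin_iff.1 (h1.and D.lg_ex)
  have hc : ContinuousOn D.lg V := fun x hx => (hV x hx).2.continuousWithinAt
  refine ⟨r, hr, V ∩ D.lg ⁻¹' Metric.ball 0 r, hc.isOpen_inter_preimage hVo Metric.isOpen_ball,
    hc.mono inter_subset_left, fun x hx => ⟨(hV x hx.1).1.1, mem_ball_zero_iff.1 hx.2,
      (hV x hx.1).1.2⟩, fun X hX hr' => ?_⟩
  obtain ⟨h3, h4⟩ := h2 ⟨mem_ball_zero_iff.2 hr', hX⟩
  refine ⟨⟨h3, ?_⟩, h4⟩
  rw [mem_preimage, h4]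
  exact mem_ball_zero_iff.2 hr'

theorem norm_lg_le : ∀ᶠ x in 𝓝 (1 : G),
    ‖D.lg x‖ ≤ 2 * ‖D.ρ x - 1‖ ∧ ‖D.ρ x - 1‖ ≤ 2 * ‖D.lg x‖ := by
  have h : ∀ᶠ y in 𝓝 (1 : Mat n), ‖mlog y‖ ≤ 2 * ‖y - 1‖ ∧ ‖y - 1‖ ≤ 2 * ‖mlog y‖ := Ex1_norm_mlog
  exact D.Ex1_tendsto_ρ.eventually h

variable [IsTopologicalGroup G]

theorem Ad_cont : Continuous fun p : G × Mat n => D.Ad p.1 p.2 := by
  simp only [Ad_apply]
  exact ((D.cont.comp continuous_fst).mul continuous_snd).mul (D.cont.comp continuous_fst.inv)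

/-- Uniqueness of lifts. -/
theorem lift_eq {T : Type} [TopologicalSpace T] {S : Set T} (hS : IsPreconnected S)
    {f₁ f₂ : T → G} (h₁ : ContinuousOn f₁ S) (h₂ : ContinuousOn f₂ S)
    (h : ∀ t ∈ S, D.ρ (f₁ t) = D.ρ (f₂ t)) {t₀ : T} (ht₀ : t₀ ∈ S) (h0 : f₁ t₀ = f₂ t₀) :
    ∀ t ∈ S, f₁ t = f₂ t := by
  let q : T → G := fun t => f₁ t * (f₂ t)⁻¹
  have hq : ContinuousOn q S := h₁.mul h₂.inv
  have hρ : ∀ t ∈ S, D.ρ (q t) = 1 := fun t ht => by
    rw [map_mul, h t ht, ρ_mul_inv]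
  have hloc : ∀ t ∈ S, ∀ᶠ t' in 𝓝[S] t, q t = q t' ∧ q t' = q t := by
    intro t ht
    have h1 : Tendsto (fun t' => q t' * (q t)⁻¹) (𝓝[S] t) (𝓝 1) := by
      rw [← mul_inv_cancel (q t)]
      exact (hq t ht).tendsto.mul_const _
    filter_upwards [h1.eventually D.disc, self_mem_nhdsWithin] with t' h2 ht'
    have h3 : D.ρ (q t)⁻¹ = 1 := by rw [← D.ρ_inv_mul (q t), hρ t ht, mul_one]
    have h4 := mul_inv_eq_one.1 (h2 (by rw [map_mul, hρ t' ht', h3, mul_one]))
    exact ⟨h4.symm, h4⟩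
  intro t ht
  have h5 : q t = q t₀ :=
    hS.induction₂' (fun x y => q x = q y) hloc (fun _ _ _ _ _ _ => Eq.trans) ht ht₀
  have h6 : q t₀ = 1 := mul_inv_eq_one.2 h0
  exact mul_inv_eq_one.1 (h5.trans h6)

theorem ex_add_of_commute {X Y : Mat n} (hX : X ∈ D.g) (hY : Y ∈ D.g) (h : ⁅X, Y⁆ = 0) :
    D.ex (X + Y) = D.ex X * D.ex Y := by
  have key := D.lift_eq (S := univ) isPreconnected_univ
    (D.ex_smul_cont (D.g.add_mem hX hY)).continuousOn
    ((D.ex_smul_cont hX).mul (D.ex_smul_cont hY)).continuousOn (fun t _ => ?_) (mem_univ 0)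
    (by simp [D.ex_zero]) 1 (mem_univ _)
  · simpa using key
  · have hc : Commute X Y := sub_eq_zero.1 h
    rw [Pi.mul_apply, map_mul, D.ρ_ex _ (D.g.smul_mem t hX), D.ρ_ex _ (D.g.smul_mem t hY),
      D.ρ_ex _ (D.g.smul_mem t (D.g.add_mem hX hY)), smul_add]
    exact Matrix.exp_add_of_commute _ _ ((hc.smul_left t).smul_right t)

theorem ex_add_smul {X : Mat n} (hX : X ∈ D.g) (s t : ℝ) :
    D.ex ((s + t) • X) = D.ex (s • X) * D.ex (t • X) := by
  rw [add_smul]
  refine D.ex_add_of_commute (D.g.smul_mem s hX) (D.g.smul_mem t hX) ?_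
  rw [Ex1_br_smul, Ring.lie_def, sub_self, smul_zero]

theorem ex_neg {X : Mat n} (hX : X ∈ D.g) : D.ex (-X) = (D.ex X)⁻¹ := by
  have h := D.ex_add_smul hX 1 (-1)
  rw [add_neg_cancel, zero_smul, D.ex_zero, one_smul, neg_one_smul] at h
  exact eq_inv_of_mul_eq_one_right h.symm

theorem ex_nsmul {X : Mat n} (hX : X ∈ D.g) (m : ℕ) : D.ex ((m : ℝ) • X) = D.ex X ^ m := by
  induction m with
  | zero => simp [D.ex_zero]
  | succ m ih => rw [Nat.cast_succ, D.ex_add_smul hX, ih, one_smul, pow_succ]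

theorem ex_zsmul {X : Mat n} (hX : X ∈ D.g) (m : ℤ) : D.ex ((m : ℝ) • X) = D.ex X ^ m := by
  obtain ⟨m, rfl | rfl⟩ := Int.eq_nat_or_neg m
  · rw [Int.cast_natCast, zpow_natCast, D.ex_nsmul hX]
  · rw [Int.cast_neg, Int.cast_natCast, zpow_neg, zpow_natCast, neg_smul,
      D.ex_neg (D.g.smul_mem _ hX), D.ex_nsmul hX]

theorem ρ_ex_inv {X : Mat n} (hX : X ∈ D.g) : D.ρ (D.ex X)⁻¹ = exp (-X) := by
  rw [← D.ex_neg hX, D.ρ_ex _ (D.g.neg_mem hX)]

theorem Ad_ex {X : Mat n} (hX : X ∈ D.g) (Y : Mat n) :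
    D.Ad (D.ex X) Y = exp X * Y * exp (-X) := by
  rw [Ad_apply, D.ρ_ex_inv hX, D.ρ_ex _ hX]

theorem conj_ex (x : G) {X : Mat n} (hX : X ∈ D.g) :
    x * D.ex X * x⁻¹ = D.ex (D.Ad x X) := by
  have key := D.lift_eq (S := univ) isPreconnected_univ
    (f₁ := fun t : ℝ => x * D.ex (t • X) * x⁻¹)
    ((continuous_const.mul (D.ex_smul_cont hX)).mul continuous_const).continuousOn
    (D.ex_smul_cont (D.Ad_mem x hX)).continuousOn (fun t _ => ?_) (mem_univ 0)
    (by simp [D.ex_zero]) 1 (mem_univ _)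
  · simpa using key
  · rw [map_mul, map_mul, D.ρ_ex _ (D.g.smul_mem t hX), D.ρ_ex _ (D.g.smul_mem t (D.Ad_mem x hX)),
      ← map_smul, ← Ad_exp, Ad_apply]

theorem br_mem {X Y : Mat n} (hX : X ∈ D.g) (hY : Y ∈ D.g) : ⁅X, Y⁆ ∈ D.g := by
  refine br_mem_of_conj (A := Mat n) (Submodule.closed_of_finiteDimensional D.g)
    (Eventually.of_forall fun t => ?_)
  have h := D.Ad_mem (D.ex (t • X)) hY
  rw [D.Ad_ex (D.g.smul_mem t hX)] at h
  exact h

theorem Ad_ex_mem {v : Submodule ℝ (Mat n)} {X Y : Mat n} (hX : X ∈ D.g)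
    (h : ∀ Z ∈ v, ⁅X, Z⁆ ∈ v) (hY : Y ∈ v) : D.Ad (D.ex X) Y ∈ v := by
  rw [D.Ad_ex hX]
  exact conj_mem (A := Mat n) (Submodule.closed_of_finiteDimensional v) h hY

theorem inj_nhds : ∃ U ∈ 𝓝 (1 : G), InjOn D.ρ U := by
  obtain ⟨V, hV, h⟩ := exists_nhds_split_inv D.disc
  refine ⟨V, hV, fun v hv w hw he => div_eq_one.1 (h v hv w hw ?_)⟩
  rw [div_eq_mul_inv, map_mul, he, ρ_mul_inv]

theorem ex_heis {X Y : Mat n} (hX : X ∈ D.g) (hY : Y ∈ D.g) (h1 : ⁅X, ⁅X, Y⁆⁆ = 0)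
    (h2 : ⁅Y, ⁅X, Y⁆⁆ = 0) :
    D.ex X * D.ex Y = D.ex (X + Y + (1 / 2 : ℝ) • ⁅X, Y⁆) := by
  have hm : ∀ t : ℝ, t • X + t • Y + (1 / 2 : ℝ) • (t * t) • ⁅X, Y⁆ ∈ D.g := fun t =>
    D.g.add_mem (D.g.add_mem (D.g.smul_mem t hX) (D.g.smul_mem t hY))
      (D.g.smul_mem _ (D.g.smul_mem _ (D.br_mem hX hY)))
  have key := D.lift_eq (S := univ) isPreconnected_univ
    (f₂ := fun t : ℝ => D.ex (t • X + t • Y + (1 / 2 : ℝ) • (t * t) • ⁅X, Y⁆))
    ((D.ex_smul_cont hX).mul (D.ex_smul_cont hY)).continuousOn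
    (D.ex_cont.comp_continuous (by fun_prop) hm).continuousOn (fun t _ => ?_) (mem_univ 0)
    (by simp [D.ex_zero]) 1 (mem_univ _)
  · simpa using key
  · rw [Pi.mul_apply, map_mul, D.ρ_ex _ (D.g.smul_mem t hX), D.ρ_ex _ (D.g.smul_mem t hY),
      D.ρ_ex _ (hm t), ← Ex1_br_smul]
    refine exp_heis (A := Mat n) ?_ ?_
    · rw [Ex1_br_smul, Ex1_br_smul, h1, smul_zero]
    · rw [Ex1_br_smul, Ex1_br_smul, h2, smul_zero]

theorem ex_sl2 {e f h : Mat n} (hE : e ∈ D.g) (hF : f ∈ D.g) (he : ⁅h, e⁆ = (2 : ℝ) • e)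
    (hf : ⁅h, f⁆ = -((2 : ℝ) • f)) (hef : ⁅e, f⁆ = h) {s t : ℝ} (hc : 0 < 1 + s * t) :
    D.ex (s • e) * D.ex (t • f) =
      D.ex ((t / (1 + s * t)) • f) * D.ex (Real.log (1 + s * t) • h) *
        D.ex ((s / (1 + s * t)) • e) := by
  have hH : h ∈ D.g := hef ▸ D.br_mem hE hF
  have hp : ∀ u ∈ Icc (0 : ℝ) 1, 0 < 1 + u * s * t := by
    intro u hu
    nlinarith [hu.1, hu.2, mul_nonneg hu.1 hc.le]
  have c0 : ContinuousOn (fun u : ℝ => 1 + u * s * t) (Icc 0 1) := by fun_prop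
  have key := D.lift_eq (S := Icc (0 : ℝ) 1) isPreconnected_Icc
    (f₁ := fun u : ℝ => D.ex ((u * s) • e) * D.ex (t • f))
    (f₂ := fun u : ℝ => D.ex ((t / (1 + u * s * t)) • f) * D.ex (Real.log (1 + u * s * t) • h) *
      D.ex ((u * s / (1 + u * s * t)) • e))
    (((D.ex_smul_cont hE).comp (by fun_prop)).mul continuous_const).continuousOn
    ((((D.ex_smul_cont hF).comp_continuousOn
        (continuousOn_const.div c0 fun u hu => (hp u hu).ne')).mul
      ((D.ex_smul_cont hH).comp_continuousOn (c0.log fun u hu => (hp u hu).ne'))).mul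
      ((D.ex_smul_cont hE).comp_continuousOn
        (ContinuousOn.div (by fun_prop) c0 fun u hu => (hp u hu).ne')))
    (fun u hu => ?_) (left_mem_Icc.2 zero_le_one) (by simp [D.ex_zero]) 1
    (right_mem_Icc.2 zero_le_one)
  · simpa using key
  · simp only [map_mul]
    rw [D.ρ_ex _ (D.g.smul_mem _ hE), D.ρ_ex _ (D.g.smul_mem _ hF), D.ρ_ex _ (D.g.smul_mem _ hF),
      D.ρ_ex _ (D.g.smul_mem _ hH), D.ρ_ex _ (D.g.smul_mem _ hE)]
    exact exp_sl2 (A := Mat n) he hf hef (hp u hu)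

end ExpData

end Pool.Agent.P.MP_d483fb_an.Z

end

end

section

/-! Topology of the group, generation, products of exponentials. -/

open scoped Matrix Matrix.Norms.Operator InnerProductSpace RealInnerProductSpace Topology
open NormedSpace Filter Set

noncomputable section

namespace Pool.Agent.P.MP_d483fb_an.Z

namespace ExpData

variable {G : Type} [Group G] [TopologicalSpace G] [IsTopologicalGroup G] {n : ℕ}
  (D : ExpData G n)

include D in
theorem t2Space : T2Space G := by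
  rw [IsTopologicalGroup.t2Space_iff_one_closed]
  refine isClosed_of_closure_subset fun x hx => ?_
  have h1 : (1 : G) ⤳ x := specializes_iff_mem_closure.2 hx
  have h2 : D.ρ x = 1 := by
    have := (h1.map D.cont).eq
    rw [← this, map_one]
  have h3 : pure x ≤ 𝓝 (1 : G) := specializes_iff_pure.1 h1.symm
  exact (D.disc.filter_mono h3) h2

theorem ex_ball_nhds {r : ℝ} (hr : 0 < r) :
    D.ex '' {X | X ∈ D.g ∧ ‖X‖ < r} ∈ 𝓝 (1 : G) := by
  rw [← D.ex_nhds]
  refine image_mem_map ?_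
  have h : {X : Mat n | ‖X‖ < r} ∈ 𝓝 (0 : Mat n) :=
    (isOpen_lt continuous_norm continuous_const).mem_nhds (by simpa using hr)
  exact inter_mem_nhdsWithin (D.g : Set (Mat n)) h

theorem ex_ball_compact (r : ℝ) : IsCompact (D.ex '' {X | X ∈ D.g ∧ ‖X‖ ≤ r}) := by
  have : ProperSpace (Mat n) := FiniteDimensional.proper_real (Mat n)
  have h1 : IsClosed (D.g : Set (Mat n)) := D.g.closed_of_finiteDimensional
  have h2 : IsCompact ((D.g : Set (Mat n)) ∩ Metric.closedBall 0 r) :=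
    (isCompact_closedBall (0 : Mat n) r).inter_left h1
  have h3 : {X : Mat n | X ∈ D.g ∧ ‖X‖ ≤ r} = (D.g : Set (Mat n)) ∩ Metric.closedBall 0 r := by
    ext X
    simp
  rw [h3]
  exact h2.image_of_continuousOn (D.ex_cont.mono inter_subset_left)

include D in
theorem locallyCompactSpace : LocallyCompactSpace G := by
  refine (D.ex_ball_compact 1).locallyCompactSpace_of_mem_nhds_of_group (x := 1) ?_
  exact mem_of_superset (D.ex_ball_nhds one_pos) (image_mono fun X hX => ⟨hX.1, hX.2.le⟩)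

omit D in
theorem closure_nhds [PreconnectedSpace G] {S : Set G} (hS : S ∈ 𝓝 (1 : G)) :
    Subgroup.closure S = ⊤ := by
  have ho : IsOpen (Subgroup.closure S : Set G) :=
    Subgroup.isOpen_of_mem_nhds _ (mem_of_superset hS Subgroup.subset_closure)
  have hc : IsClopen (Subgroup.closure S : Set G) := ⟨Subgroup.isClosed_of_isOpen _ ho, ho⟩
  rw [← Subgroup.coe_eq_univ]
  exact hc.eq_univ ⟨1, one_mem _⟩

theorem ex_induction [PreconnectedSpace G] {p : G → Prop} {r : ℝ} (hr : 0 < r) (h1 : p 1)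
    (hm : ∀ X ∈ D.g, ‖X‖ < r → ∀ x, p x → p (D.ex X * x)) (x : G) : p x := by
  have hx : x ∈ Subgroup.closure (D.ex '' {X | X ∈ D.g ∧ ‖X‖ < r}) := by
    rw [closure_nhds (D.ex_ball_nhds hr)]
    exact Subgroup.mem_top x
  induction hx using Subgroup.closure_induction_left with
  | one => exact h1
  | mul_left y hy z _ ih =>
    obtain ⟨X, hX, rfl⟩ := hy
    exact hm X hX.1 hX.2 z ih
  | inv_mul_cancel y hy z _ ih =>
    obtain ⟨X, hX, rfl⟩ := hy
    rw [← D.ex_neg hX.1]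
    exact hm (-X) (D.g.neg_mem hX.1) (by rw [norm_neg]; exact hX.2) z ih

open TopologicalSpace Pointwise in
include D in
theorem secondCountable [PreconnectedSpace G] : SecondCountableTopology G := by
  have : SecondCountableTopology (Mat n) :=
    inferInstanceAs (SecondCountableTopology (Fin n → Fin n → ℝ))
  have : (𝓝 (1 : G)).IsCountablyGenerated := by
    rw [← D.ex_nhds]
    infer_instance
  have hS : IsSeparable (D.ex '' D.g) := by
    rw [image_eq_range]
    exact isSeparable_range D.ex_cont.domRestrict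
  have hp : ∀ m : ℕ, IsSeparable ((D.ex '' D.g) ^ m) := by
    intro m
    induction m with
    | zero => exact (finite_singleton (1 : G)).isSeparable
    | succ m ih =>
      rw [pow_succ', ← image_mul_prod]
      exact (hS.prod ih).image continuous_mul
  have hu : IsSeparable (univ : Set G) := by
    refine (IsSeparable.iUnion hp).mono fun x _ => ?_
    refine D.ex_induction (p := fun x => x ∈ ⋃ m : ℕ, (D.ex '' D.g) ^ m) one_pos ?_ ?_ x
    · exact mem_iUnion.2 ⟨0, rfl⟩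
    · intro X hX _ y hy
      obtain ⟨m, hm⟩ := mem_iUnion.1 hy
      refine mem_iUnion.2 ⟨m + 1, ?_⟩
      rw [pow_succ']
      exact mul_mem_mul ⟨X, hX, rfl⟩ hm
  have : SeparableSpace G := isSeparable_univ_iff.1 hu
  let : UniformSpace G := IsTopologicalGroup.rightUniformSpace G
  have : (uniformity G).IsCountablyGenerated := by
    rw [uniformity_eq_comap_nhds_one' G]
    infer_instance
  exact UniformSpace.secondCountable_of_separable G

theorem ker_countable [PreconnectedSpace G] : {x | D.ρ x = 1}.Countable := by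
  have := D.secondCountable
  have h : ∀ x ∈ {x | D.ρ x = 1}, ({x} : Set G) ∈ 𝓝[{x | D.ρ x = 1}] x := by
    intro x hx
    have h1 : Tendsto (fun y : G => x⁻¹ * y) (𝓝 x) (𝓝 1) := by
      have : Continuous fun y : G => x⁻¹ * y := continuous_const.mul continuous_id
      simpa using this.tendsto x
    have h2 := (h1.eventually D.disc).filter_mono (nhdsWithin_le_nhds (s := {x | D.ρ x = 1}))
    filter_upwards [h2, self_mem_nhdsWithin] with y hy hy'
    have h3 : D.ρ (x⁻¹ * y) = 1 := by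
      have h4 := D.ρ_inv_mul x
      rw [show D.ρ x = 1 from hx, mul_one] at h4
      rw [map_mul, h4, show D.ρ y = 1 from hy', mul_one]
    exact (inv_mul_eq_one.1 (hy h3)).symm
  obtain ⟨t, -, ht, hst⟩ := TopologicalSpace.countable_cover_nhdsWithin h
  refine ht.mono ?_
  simpa using hst

theorem grp_top [PreconnectedSpace G] : D.grp D.g = ⊤ :=
  closure_nhds (mem_of_superset (D.ex_ball_nhds one_pos) (image_mono fun _ hX => hX.1))

theorem Ad_mem_of_br [PreconnectedSpace G] {v : Submodule ℝ (Mat n)}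
    (h : ∀ X ∈ D.g, ∀ Y ∈ v, ⁅X, Y⁆ ∈ v) (x : G) {Y : Mat n} (hY : Y ∈ v) : D.Ad x Y ∈ v := by
  refine D.ex_induction (p := fun x => D.Ad x Y ∈ v) one_pos ?_ ?_ x
  · rwa [D.Ad_one]
  · intro X hX _ y hy
    rw [D.Ad_mul]
    exact D.Ad_ex_mem hX (h X hX) hy

theorem comm_of_br [PreconnectedSpace G] {Z : Mat n} (h : ∀ X ∈ D.g, ⁅X, Z⁆ = 0) (x : G) :
    D.ρ x * Z = Z * D.ρ x := by
  refine D.ex_induction (p := fun x => D.ρ x * Z = Z * D.ρ x) one_pos ?_ ?_ x
  · rw [map_one, one_mul, mul_one]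
  · intro X hX _ y hy
    have h1 : Commute X Z := by
      have := h X hX
      rwa [Ring.lie_def, sub_eq_zero] at this
    have h2 : exp X * Z = Z * exp X := h1.exp_left
    rw [map_mul, D.ρ_ex X hX, mul_assoc, hy, ← mul_assoc, h2, mul_assoc]

theorem ker_central [PreconnectedSpace G] {z : G} (hz : D.ρ z = 1) (x : G) :
    z * x = x * z := by
  refine D.lift_eq (S := univ) isPreconnected_univ (f₁ := fun x => z * x) (f₂ := fun x => x * z)
    (continuous_const.mul continuous_id).continuousOn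
    (continuous_id.mul continuous_const).continuousOn ?_ (mem_univ 1) ?_ x (mem_univ x)
  · intro t _
    rw [map_mul, map_mul, hz, one_mul, mul_one]
  · rw [mul_one, one_mul]

theorem grp_normal {v : Submodule ℝ (Mat n)} (hv : v ≤ D.g) {x : G}
    (h : ∀ X ∈ v, D.Ad x X ∈ v) {y : G} (hy : y ∈ D.grp v) : x * y * x⁻¹ ∈ D.grp v := by
  induction hy using Subgroup.closure_induction with
  | mem y hy =>
    obtain ⟨X, hX, rfl⟩ := hy
    rw [D.conj_ex x (hv hX)]
    exact Subgroup.subset_closure ⟨_, h X hX, rfl⟩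
  | one => simp
  | mul y z _ _ hy hz =>
    have : x * (y * z) * x⁻¹ = x * y * x⁻¹ * (x * z * x⁻¹) := by group
    rw [this]
    exact mul_mem hy hz
  | inv y _ hy =>
    have : x * y⁻¹ * x⁻¹ = (x * y * x⁻¹)⁻¹ := by group
    rw [this]
    exact inv_mem hy

end ExpData

end Pool.Agent.P.MP_d483fb_an.Z

end

end

section

/-! Limits and products of exponentials. -/

open scoped Matrix Matrix.Norms.Operator InnerProductSpace RealInnerProductSpace Topology
open NormedSpace Filter Set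

noncomputable section

namespace Pool.Agent.P.MP_d483fb_an.Z

theorem strict_list_prod {A E ι : Type} [NormedRing A] [NormedAlgebra ℝ A] [NormedAddCommGroup E]
    [NormedSpace ℝ E] {f : ι → E → A} {f' : ι → E →L[ℝ] A} {x : E}
    (h : ∀ i, HasStrictFDerivAt (f i) (f' i) x) (h1 : ∀ i, f i x = 1) (l : List ι) :
    HasStrictFDerivAt (fun e => (l.map fun i => f i e).prod) (l.map f').sum x ∧
      (l.map fun i => f i x).prod = 1 := by
  induction l with
  | nil => exact ⟨by simpa using hasStrictFDerivAt_const (1 : A) x, rfl⟩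
  | cons a l ih =>
    refine ⟨?_, by rw [List.map_cons, List.prod_cons, h1, ih.2, one_mul]⟩
    simp only [List.map_cons, List.prod_cons, List.sum_cons]
    refine ((h a).mul' ih.1).congr_fderiv ?_
    rw [h1, ih.2, add_comm]
    ext e
    simp

theorem strict_exp {A E : Type} [NormedRing A] [NormedAlgebra ℝ A] [CompleteSpace A]
    [NormedAddCommGroup E] [NormedSpace ℝ E] (L : E →L[ℝ] A) :
    HasStrictFDerivAt (fun e => exp (L e)) L 0 := by
  have h : HasStrictFDerivAt (exp : A → A) (1 : A →L[ℝ] A) (L 0) := by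
    rw [map_zero]
    exact hasStrictFDerivAt_exp_zero
  exact h.comp 0 L.hasStrictFDerivAt

section Gen

variable {A : Type} [NormedRing A] [NormedAlgebra ℝ A] [CompleteSpace A] [FiniteDimensional ℝ A]

omit [CompleteSpace A] in
theorem exists_clm_proj (g : Submodule ℝ A) :
    ∃ π : A →L[ℝ] g, ∀ X (hX : X ∈ g), π X = ⟨X, hX⟩ := by
  obtain ⟨q, hq⟩ := g.exists_isCompl
  exact ⟨LinearMap.toContinuousLinearMap (g.projectionOnto q hq), fun X hX =>
    Submodule.projectionOnto_apply_left hq ⟨X, hX⟩⟩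

omit [FiniteDimensional ℝ A] in
theorem strict_mlog {E F : Type} [NormedAddCommGroup E] [NormedSpace ℝ E] [NormedAddCommGroup F]
    [NormedSpace ℝ F] {φ : E → A} {L : E →L[ℝ] A} (h0 : φ 0 = 1) (hd : HasStrictFDerivAt φ L 0)
    (π : A →L[ℝ] F) : HasStrictFDerivAt (fun e => π (mlog (φ e))) (π.comp L) 0 := by
  have h : HasStrictFDerivAt (mlog : A → A) (ContinuousLinearMap.id ℝ A) (φ 0) := by
    rw [h0]
    exact mlog_strict
  exact π.hasStrictFDerivAt.comp 0 (h.comp 0 hd)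

theorem gen_prod {s : ℕ} {g : Submodule ℝ A} (V : Fin s → Submodule ℝ A) (hs : g ≤ ⨆ i, V i)
    {p : (Fin s → A) → Prop} (hp : ∀ᶠ X in 𝓝 0, (∀ i, X i ∈ V i) →
      p X ∧ mlog (List.ofFn fun i => exp (X i)).prod ∈ g) :
    ∀ᶠ Y in 𝓝[g] (0 : A), ∃ X : Fin s → A, (∀ i, X i ∈ V i) ∧ p X ∧
      mlog (List.ofFn fun i => exp (X i)).prod = Y := by
  obtain ⟨π, hπ⟩ := exists_clm_proj g
  let L : Fin s → (∀ i, V i) →L[ℝ] A := fun i => (V i).subtypeL.comp (ContinuousLinearMap.proj i)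
  obtain ⟨hd, h0⟩ := strict_list_prod (f := fun i e => exp (L i e)) (f' := L) (x := 0)
    (fun i => by exact strict_exp (E := ∀ i, V i) (L i)) (fun i => by rw [map_zero, exp_zero])
    (List.finRange s)
  have : CompleteSpace (∀ i, V i) := FiniteDimensional.complete ℝ _
  have : CompleteSpace g := FiniteDimensional.complete ℝ _
  have hm := (strict_mlog h0 hd π).map_nhds_eq_of_surj (by
    refine LinearMap.range_eq_top.mpr fun Y => ?_
    obtain ⟨f, hf, hY⟩ := (Submodule.mem_iSup_iff_exists_finsupp _ _).mp (hs Y.2)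
    refine ⟨fun i => ⟨f i, hf i⟩, ?_⟩
    rw [Finsupp.sum_fintype _ _ fun _ => rfl] at hY
    have : ((List.finRange s).map L).sum (fun i => ⟨f i, hf i⟩) = Y := by
      rw [← Fin.sum_univ_def, sum_apply, ← hY]
      rfl
    change π (((List.finRange s).map L).sum fun i => ⟨f i, hf i⟩) = Y
    rw [this, hπ _ Y.2])
  rw [h0, mlog_one, map_zero] at hm
  have ht : Tendsto (fun (e : ∀ i, V i) i => (e i : A)) (𝓝 0) (𝓝 0) :=
    Continuous.tendsto' (by fun_prop) _ _ rfl
  rw [nhdsWithin_eq_map_subtype_coe g.zero_mem, eventually_map]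
  change ∀ᶠ Y : g in 𝓝 0, _
  rw [← hm]
  refine mem_of_superset (image_mem_map (ht.eventually hp)) ?_
  rintro _ ⟨e, he, rfl⟩
  obtain ⟨h1, h2⟩ := he fun i => (e i).2
  refine ⟨fun i => e i, fun i => (e i).2, h1, ?_⟩
  rw [List.ofFn_eq_map] at h2 ⊢
  exact (congrArg Subtype.val (hπ _ h2)).symm

theorem gen_fac {g v w : Submodule ℝ A} (hv : v ≤ g) (hw : w ≤ g) (hs : g ≤ v ⊔ w)
    (hd : Disjoint v w)
    (hg : ∀ᶠ Z in 𝓝 (0 : A × A), Z.1 ∈ v → Z.2 ∈ w → mlog (exp Z.1 * exp Z.2) ∈ g) :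
    ∃ p q : A → A, (∀ Y, p Y ∈ v ∧ q Y ∈ w) ∧
      (∀ᶠ Y in 𝓝 0, ContinuousAt p Y ∧ ContinuousAt q Y ∧
        (Y ∈ g → mlog (exp (p Y) * exp (q Y)) = Y)) ∧
      (∀ᶠ Z in 𝓝 (0 : A × A), Z.1 ∈ v → Z.2 ∈ w →
        p (mlog (exp Z.1 * exp Z.2)) = Z.1 ∧ q (mlog (exp Z.1 * exp Z.2)) = Z.2) ∧
      Tendsto (fun Y => (p Y, q Y)) (𝓝 0) (𝓝 0) ∧
      ∃ C : ℝ, 0 ≤ C ∧ ∀ᶠ Y in 𝓝 0, ‖p Y‖ + ‖q Y‖ ≤ C * ‖Y‖ := by
  obtain ⟨π, hπ⟩ := exists_clm_proj g
  let L1 : v × w →L[ℝ] A := v.subtypeL.comp (ContinuousLinearMap.fst ℝ v w)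
  let L2 : v × w →L[ℝ] A := w.subtypeL.comp (ContinuousLinearMap.snd ℝ v w)
  let φ : v × w → A := fun e => exp (e.1 : A) * exp (e.2 : A)
  have h0 : φ 0 = 1 := by simp [φ]
  have hρ : HasStrictFDerivAt φ (L1 + L2) 0 := by
    refine ((strict_exp L1).mul' (strict_exp L2)).congr_fderiv ?_
    rw [map_zero, map_zero, exp_zero, one_smul, MulOpposite.op_one, one_smul, add_comm]
  have hL : ∀ e : v × w, π.comp (L1 + L2) e = ⟨e.1 + e.2, g.add_mem (hv e.1.2) (hw e.2.2)⟩ :=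
    fun e => hπ _ _
  have hb : Function.Bijective (π.comp (L1 + L2)).toLinearMap := by
    refine ⟨(injective_iff_map_eq_zero _).mpr fun e he => ?_, fun Y => ?_⟩
    · have h1 : (e.1 : A) + e.2 = 0 := congrArg Subtype.val ((hL e).symm.trans he)
      have h2 : (e.1 : A) = 0 := (Submodule.disjoint_def.mp hd) _ e.1.2 (by
        rw [eq_neg_of_add_eq_zero_left h1]
        exact w.neg_mem e.2.2)
      rw [h2, zero_add] at h1
      exact Prod.ext (Subtype.ext h2) (Subtype.ext h1)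
    · obtain ⟨a, ha, b, hb, hab⟩ := Submodule.mem_sup.mp (hs Y.2)
      exact ⟨(⟨a, ha⟩, ⟨b, hb⟩), (hL _).trans (Subtype.ext hab)⟩
  have : CompleteSpace (v × w) := FiniteDimensional.complete ℝ _
  have hΦ : HasStrictFDerivAt (fun e => π (mlog (φ e)))
      ((LinearEquiv.ofBijective _ hb).toContinuousLinearEquiv : v × w →L[ℝ] g) 0 :=
    strict_mlog h0 hρ π
  have z : π (mlog (φ 0)) = 0 := by rw [h0, mlog_one, map_zero]
  obtain ⟨ψ, hr, hl, hc, hB⟩ : ∃ ψ : g → v × w, (∀ᶠ y in 𝓝 0, π (mlog (φ (ψ y))) = y) ∧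
      (∀ᶠ e in 𝓝 0, ψ (π (mlog (φ e))) = e) ∧ (∀ᶠ y in 𝓝 0, ContinuousAt ψ y) ∧
      ψ =O[𝓝 0] fun y => y := by
    refine ⟨hΦ.localInverse _ _ _, z ▸ hΦ.eventually_right_inverse, hΦ.eventually_left_inverse,
      ?_, ?_⟩
    · filter_upwards [(hΦ.toOpenPartialHomeomorph _).open_target.mem_nhds
        (z ▸ hΦ.image_mem_toOpenPartialHomeomorph_target)] with y hy
      exact (hΦ.toOpenPartialHomeomorph _).continuousAt_symm hy
    · have h1 := hΦ.to_localInverse.hasFDerivAt.isBigO_sub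
      rw [hΦ.localInverse_apply_image, z] at h1
      simpa only [sub_zero] using h1
  have ty : Tendsto π (𝓝 0) (𝓝 0) := π.continuous.tendsto' _ _ (map_zero π)
  have tv : Tendsto (fun e : v × w => ((e.1 : A), (e.2 : A))) (𝓝 0) (𝓝 0) :=
    Continuous.tendsto' (by fun_prop) _ _ rfl
  have tψ := tv.comp ((hB.trans_tendsto tendsto_id).comp ty)
  refine ⟨fun x => (ψ (π x)).1, fun x => (ψ (π x)).2, fun Y => ⟨(ψ _).1.2, (ψ _).2.2⟩, ?_, ?_,
    tψ, ?_⟩
  · filter_upwards [ty.eventually hr, ty.eventually hc, tψ.eventually hg] with x h1 h2 h3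
    have c : ContinuousAt (fun x => ψ (π x)) x := h2.comp π.continuous.continuousAt
    refine ⟨continuous_subtype_val.continuousAt.comp c.fst,
      continuous_subtype_val.continuousAt.comp c.snd, fun hx => ?_⟩
    exact congrArg Subtype.val ((hπ _ (h3 (ψ _).1.2 (ψ _).2.2)).symm.trans (h1.trans (hπ _ hx)))
  · obtain ⟨ε, hε, h1⟩ := Metric.eventually_nhds_iff_ball.mp hl
    filter_upwards [Metric.ball_mem_nhds (0 : A × A) hε] with Z hZ a b
    have := h1 (⟨Z.1, a⟩, ⟨Z.2, b⟩) (mem_ball_zero_iff.mpr (mem_ball_zero_iff.mp hZ))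
    exact ⟨congrArg (fun e : v × w => (e.1 : A)) this, congrArg (fun e : v × w => (e.2 : A)) this⟩
  · obtain ⟨C, hC, hB⟩ := hB.exists_nonneg
    refine ⟨2 * C * ‖π‖, by positivity, ?_⟩
    filter_upwards [ty.eventually hB.bound] with x h1
    have a : ‖((ψ (π x)).1 : A)‖ ≤ ‖ψ (π x)‖ := norm_fst_le (ψ (π x))
    have b : ‖((ψ (π x)).2 : A)‖ ≤ ‖ψ (π x)‖ := norm_snd_le (ψ (π x))
    nlinarith [mul_le_mul_of_nonneg_left (π.le_opNorm x) hC]

end Gen

namespace ExpData

variable {G : Type} [Group G] [TopologicalSpace G] [IsTopologicalGroup G] {n : ℕ}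
  (D : ExpData G n)

theorem tendsto_zpow {x : ℕ → G} {c : ℕ → ℝ} {X : Mat n} (hx : Tendsto x atTop (𝓝 1))
    (h : Tendsto (fun m => c m • D.lg (x m)) atTop (𝓝 X)) :
    X ∈ D.g ∧ Tendsto (fun m => x m ^ ⌊c m⌋) atTop (𝓝 (D.ex X)) := by
  have e := hx.eventually D.ex_lg
  have hX : X ∈ D.g := D.g.closed_of_finiteDimensional.mem_of_tendsto h
    (e.mono fun m hm => D.g.smul_mem _ hm.1)
  refine ⟨hX, ?_⟩
  have l0 : Tendsto (fun m => D.lg (x m)) atTop (𝓝 0) :=
    (D.tendsto_lg.mono_right nhdsWithin_le_nhds).comp hx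
  have d0 : Tendsto (fun m => ((⌊c m⌋ : ℝ) - c m) • D.lg (x m)) atTop (𝓝 0) := by
    refine squeeze_zero_norm (fun m => ?_) (tendsto_zero_iff_norm_tendsto_zero.mp l0)
    rw [norm_smul]
    refine mul_le_of_le_one_left (norm_nonneg _) ?_
    rw [Real.norm_eq_abs, abs_le]
    constructor
    · linarith [Int.lt_floor_add_one (c m)]
    · linarith [Int.floor_le (c m)]
  have t : Tendsto (fun m => (⌊c m⌋ : ℝ) • D.lg (x m)) atTop (𝓝[D.g] X) := by
    refine tendsto_nhdsWithin_iff.mpr ⟨?_, e.mono fun m hm => D.g.smul_mem _ hm.1⟩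
    simpa [sub_smul] using d0.add h
  refine ((D.ex_cont X hX).tendsto.comp t).congr' (e.mono fun m hm => ?_)
  rw [Function.comp, D.ex_zsmul hm.1, hm.2]

theorem trotter {X Y : Mat n} (hX : X ∈ D.g) (hY : Y ∈ D.g) :
    Tendsto (fun m : ℕ => (D.ex ((m : ℝ)⁻¹ • X) * D.ex ((m : ℝ)⁻¹ • Y)) ^ m) atTop
      (𝓝 (D.ex (X + Y))) := by
  have t : ∀ Z ∈ D.g, Tendsto (fun m : ℕ => D.ex ((m : ℝ)⁻¹ • Z)) atTop (𝓝 1) := fun Z hZ => by
    have := ((D.ex_smul_cont hZ).tendsto 0).comp (tendsto_inv_atTop_nhds_zero_nat (𝕜 := ℝ))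
    rwa [zero_smul, D.ex_zero] at this
  have := (D.tendsto_zpow (c := fun m => (m : ℝ)) (X := X + Y)
    (by simpa using (t X hX).mul (t Y hY)) ((trotter_log X Y).congr fun m => by
      rw [lg, map_mul, D.ρ_ex _ (D.g.smul_mem _ hX), D.ρ_ex _ (D.g.smul_mem _ hY)]
      rfl)).2
  simpa using this

omit [IsTopologicalGroup G] in
theorem tendsto_ex_of {α : Type} {l : Filter α} {f : α → Mat n} (h : Tendsto f l (𝓝 0))
    (hf : ∀ᶠ a in l, f a ∈ D.g) : Tendsto (fun a => D.ex (f a)) l (𝓝 1) := by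
  rw [← D.ex_nhds]
  exact tendsto_map.comp (tendsto_nhdsWithin_iff.mpr ⟨h, hf⟩)

/-- Products of small exponentials of spanning subspaces fill a neighbourhood of `1`. -/
theorem prod_nhds {s : ℕ} (V : Fin s → Submodule ℝ (Mat n)) (hV : ∀ i, V i ≤ D.g)
    (hs : D.g ≤ ⨆ i, V i) {r : ℝ} (hr : 0 < r) :
    {x | ∃ X : Fin s → Mat n, (∀ i, X i ∈ V i ∧ ‖X i‖ < r) ∧
      x = (List.ofFn fun i => D.ex (X i)).prod} ∈ 𝓝 (1 : G) := by
  let φ : (Fin s → Mat n) → G := fun X => (List.ofFn fun i => D.ex (X i)).prod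
  have hρ : ∀ X : Fin s → Mat n, (∀ i, X i ∈ V i) →
      D.lg (φ X) = mlog (List.ofFn fun i => exp (X i)).prod := fun X hX => by
    simp only [lg, φ, map_list_prod, List.map_ofFn]
    congr 3
    exact funext fun i => D.ρ_ex _ (hV i (hX i))
  have ht : Tendsto φ (𝓝[{X | ∀ i, X i ∈ V i}] 0) (𝓝 1) := by
    have := tendsto_list_prod (List.finRange s) (f := fun i (X : Fin s → Mat n) => D.ex (X i))
      (x := 𝓝[{X | ∀ i, X i ∈ V i}] 0) (a := fun _ => 1) fun i _ =>
        D.tendsto_ex_of (((continuous_apply i).tendsto 0).mono_left nhdsWithin_le_nhds)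
          (eventually_mem_nhdsWithin.mono fun X hX => hV i (hX i))
    simpa [φ, List.ofFn_eq_map] using this
  have hb : ∀ᶠ X : Fin s → Mat n in 𝓝 0, ∀ i, ‖X i‖ < r := eventually_all.mpr fun i =>
    ((continuous_apply i).tendsto (0 : Fin s → Mat n)).eventually
      (p := fun Y : Mat n => ‖Y‖ < r) (by
        filter_upwards [Metric.ball_mem_nhds (0 : Mat n) hr] with Y hY using
          mem_ball_zero_iff.mp hY)
  have key := gen_prod (g := D.g) V hs (p := fun X => (∀ i, ‖X i‖ < r) ∧ D.ex (D.lg (φ X)) = φ X)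
    (by
      filter_upwards [hb, eventually_nhdsWithin_iff.mp (ht.eventually D.ex_lg)] with X h1 h2 h3
      exact ⟨⟨h1, (h2 h3).2⟩, hρ X h3 ▸ (h2 h3).1⟩)
  rw [← D.ex_nhds, Filter.mem_map]
  refine Eventually.mono key ?_
  rintro Y ⟨X, h1, ⟨h2, h3⟩, h4⟩
  exact ⟨X, fun i => ⟨h1 i, h2 i⟩, (congrArg D.ex ((hρ X h1).trans h4)).symm.trans h3⟩

/-- Local factorisation along a direct sum decomposition of the Lie algebra. -/
theorem factor2 {v w : Submodule ℝ (Mat n)} (hv : v ≤ D.g) (hw : w ≤ D.g) (hs : D.g ≤ v ⊔ w)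
    (hd : Disjoint v w) : ∃ p q : G → Mat n,
      (∀ᶠ x in 𝓝 (1 : G), p x ∈ v ∧ q x ∈ w ∧ D.ex (p x) * D.ex (q x) = x ∧
        ContinuousAt p x ∧ ContinuousAt q x) ∧
      (∀ᶠ Z in 𝓝 (0 : Mat n × Mat n), Z.1 ∈ v → Z.2 ∈ w →
        p (D.ex Z.1 * D.ex Z.2) = Z.1 ∧ q (D.ex Z.1 * D.ex Z.2) = Z.2) ∧
      ∃ C : ℝ, ∀ᶠ x in 𝓝 (1 : G), ‖p x‖ + ‖q x‖ ≤ C * ‖D.ρ x - 1‖ := by
  have hρ : ∀ X ∈ v, ∀ Y ∈ w, D.lg (D.ex X * D.ex Y) = mlog (exp X * exp Y) := fun X hX Y hY => by
    rw [lg, map_mul, D.ρ_ex _ (hv hX), D.ρ_ex _ (hw hY)]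
  have ht : Tendsto (fun Z : Mat n × Mat n => D.ex Z.1 * D.ex Z.2)
      (𝓝[{Z | Z.1 ∈ v ∧ Z.2 ∈ w}] 0) (𝓝 1) := by
    simpa using (D.tendsto_ex_of ((continuous_fst.tendsto (0 : Mat n × Mat n)).mono_left
      nhdsWithin_le_nhds) (eventually_mem_nhdsWithin.mono fun Z hZ => hv hZ.1)).mul
      (D.tendsto_ex_of ((continuous_snd.tendsto (0 : Mat n × Mat n)).mono_left
        nhdsWithin_le_nhds) (eventually_mem_nhdsWithin.mono fun Z hZ => hw hZ.2))
  have he := eventually_nhdsWithin_iff.mp (ht.eventually D.ex_lg)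
  obtain ⟨p, q, h0, h1, h2, h3, C, hC, h4⟩ := gen_fac hv hw hs hd
    (he.mono fun Z hZ a b => hρ _ a _ b ▸ (hZ ⟨a, b⟩).1)
  have ty : Tendsto D.lg (𝓝 1) (𝓝 0) := D.tendsto_lg.mono_right nhdsWithin_le_nhds
  refine ⟨fun x => p (D.lg x), fun x => q (D.lg x), ?_, ?_, 2 * C, ?_⟩
  · filter_upwards [ty.eventually h1, D.ex_lg, D.lg_cont, (Tendsto.comp h3 ty).eventually he]
      with x a b c d
    refine ⟨(h0 _).1, (h0 _).2, ?_, ContinuousAt.comp a.1 c, ContinuousAt.comp a.2.1 c⟩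
    exact (d (h0 _)).2.symm.trans
      ((congrArg D.ex ((hρ _ (h0 _).1 _ (h0 _).2).trans (a.2.2 b.1))).trans b.2)
  · refine Eventually.mono h2 fun Z hZ a b => ?_
    simp only [hρ _ a _ b]
    exact hZ a b
  · filter_upwards [ty.eventually h4, D.norm_lg_le] with x a b
    exact a.trans ((mul_le_mul_of_nonneg_left b.1 hC).trans_eq (by ring))

end ExpData

end Pool.Agent.P.MP_d483fb_an.Z

end

end

section

/-! The trace form, Hadamard masks and generic vectors. -/

open scoped Matrix Matrix.Norms.Operator InnerProductSpace RealInnerProductSpace Topology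
open NormedSpace Filter Set

noncomputable section

namespace Pool.Agent.P.MP_d483fb_an.Z

variable {n : ℕ}

theorem ip_eq_trace (X Y : Mat n) : ip X Y = Matrix.trace (X * Yᵀ) := by
  simp [ip, Matrix.trace, Matrix.mul_apply]

theorem ip_comm (X Y : Mat n) : ip X Y = ip Y X := by
  simp only [ip, mul_comm]

theorem ip_add_left (X Y Z : Mat n) : ip (X + Y) Z = ip X Z + ip Y Z := by
  simp only [ip, Matrix.add_apply, add_mul, Finset.sum_add_distrib]

theorem ip_add_right (X Y Z : Mat n) : ip X (Y + Z) = ip X Y + ip X Z := by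
  simp only [ip, Matrix.add_apply, mul_add, Finset.sum_add_distrib]

theorem ip_smul_left (c : ℝ) (X Y : Mat n) : ip (c • X) Y = c * ip X Y := by
  simp only [ip, Matrix.smul_apply, smul_eq_mul, Finset.mul_sum, mul_assoc]

theorem ip_smul_right (c : ℝ) (X Y : Mat n) : ip X (c • Y) = c * ip X Y := by
  rw [ip_comm, ip_smul_left, ip_comm]

theorem ip_neg_left (X Y : Mat n) : ip (-X) Y = -ip X Y := by
  simp only [ip, Matrix.neg_apply, neg_mul, Finset.sum_neg_distrib]

theorem ip_neg_right (X Y : Mat n) : ip X (-Y) = -ip X Y := by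
  rw [ip_comm, ip_neg_left, ip_comm]

theorem ip_sub_left (X Y Z : Mat n) : ip (X - Y) Z = ip X Z - ip Y Z := by
  rw [sub_eq_add_neg, ip_add_left, ip_neg_left, sub_eq_add_neg]

theorem ip_sub_right (X Y Z : Mat n) : ip X (Y - Z) = ip X Y - ip X Z := by
  rw [sub_eq_add_neg, ip_add_right, ip_neg_right, sub_eq_add_neg]

theorem ip_zero_left (X : Mat n) : ip 0 X = 0 := by
  simp [ip]

theorem ip_zero_right (X : Mat n) : ip X 0 = 0 := by
  simp [ip]

theorem ip_self_nonneg (X : Mat n) : 0 ≤ ip X X := Finset.sum_nonneg fun _ _ =>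
  Finset.sum_nonneg fun _ _ => mul_self_nonneg _

theorem ip_self_eq_zero {X : Mat n} : ip X X = 0 ↔ X = 0 := by
  refine ⟨fun h => ?_, fun h => by rw [h, ip_zero_left]⟩
  ext i j
  have h1 := (Finset.sum_eq_zero_iff_of_nonneg fun i _ =>
    Finset.sum_nonneg fun j _ => mul_self_nonneg (X i j)).1 h i (Finset.mem_univ i)
  have h2 := (Finset.sum_eq_zero_iff_of_nonneg fun j _ => mul_self_nonneg (X i j)).1 h1 j
    (Finset.mem_univ j)
  exact mul_self_eq_zero.1 h2

theorem ip_self_pos {X : Mat n} (h : X ≠ 0) : 0 < ip X X :=   (ip_self_nonneg X).lt_of_ne fun e => h (ip_self_eq_zero.1 e.symm)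

theorem ip_tr (X Y : Mat n) : ip Xᵀ Yᵀ = ip X Y := by
  simp only [ip, Matrix.transpose_apply]
  exact Finset.sum_comm

theorem ip_mul_left (X Y Z : Mat n) : ip (X * Y) Z = ip Y (Xᵀ * Z) := by
  rw [ip_eq_trace, ip_eq_trace, Matrix.transpose_mul, Matrix.transpose_transpose,
    Matrix.mul_assoc, Matrix.trace_mul_comm, Matrix.mul_assoc]

theorem ip_mul_right (X Y Z : Mat n) : ip (Y * X) Z = ip Y (Z * Xᵀ) := by
  rw [ip_eq_trace, ip_eq_trace, Matrix.transpose_mul, Matrix.transpose_transpose,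
    Matrix.mul_assoc]

theorem ip_br (X Y Z : Mat n) : ip ⁅X, Y⁆ Z = ip Y ⁅Xᵀ, Z⁆ := by
  rw [Ring.lie_def, Ring.lie_def, ip_sub_left, ip_sub_right, ip_mul_left, ip_mul_right]

theorem tr_br (X Y : Mat n) : ⁅X, Y⁆ᵀ = ⁅Yᵀ, Xᵀ⁆ := by
  rw [Ring.lie_def, Ring.lie_def, Matrix.transpose_sub, Matrix.transpose_mul,
    Matrix.transpose_mul]

theorem ip_cont : Continuous fun p : Mat n × Mat n => ip p.1 p.2 := by
  unfold ip
  refine continuous_finsetSum _ fun i _ => continuous_finsetSum _ fun j _ => ?_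
  exact (continuous_fst.matrix_elem i j).mul (continuous_snd.matrix_elem i j)

/-- Matrices as Euclidean vectors. -/
def Mx2_vec : Mat n →ₗ[ℝ] EuclideanSpace ℝ (Fin n × Fin n) where
  toFun X := WithLp.toLp 2 fun p => X p.1 p.2
  map_add' _ _ := rfl
  map_smul' _ _ := rfl

theorem Mx2_inner (X Y : Mat n) : ⟪Mx2_vec X, Mx2_vec Y⟫ = ip X Y := by
  simp only [ip, PiLp.inner_apply, Fintype.sum_prod_type, RCLike.inner_apply, conj_trivial,
    mul_comm]
  rfl

theorem exists_proj (v : Submodule ℝ (Mat n)) (X : Mat n) :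
    ∃ Y ∈ v, ∀ Z ∈ v, ip (X - Y) Z = 0 := by
  obtain ⟨_, ⟨Y, hY, rfl⟩, z, hz, e⟩ :=
    (v.map Mx2_vec).exists_add_mem_mem_orthogonal (Mx2_vec X)
  refine ⟨Y, hY, fun Z hZ => ?_⟩
  rw [← Mx2_inner, map_sub, e, add_sub_cancel_left]
  exact Submodule.inner_left_of_mem_orthogonal (Submodule.mem_map_of_mem hZ) hz

theorem le_of_orth {v w : Submodule ℝ (Mat n)} (hvw : v ≤ w)
    (h : ∀ X ∈ w, (∀ Y ∈ v, ip X Y = 0) → X = 0) : w ≤ v := by
  intro X hX
  obtain ⟨Y, hY, h1⟩ := exists_proj v X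
  have h2 := h (X - Y) (w.sub_mem hX (hvw hY)) h1
  rwa [sub_eq_zero.1 h2]

/-- The Hadamard multipliers of a subspace. -/
def Mx2_mult (v : Submodule ℝ (Mat n)) : Subalgebra ℝ (Fin n × Fin n → ℝ) where
  carrier := {m | ∀ X ∈ v, (Matrix.of fun i j => m (i, j) * X i j) ∈ v}
  mul_mem' := by
    intro a b ha hb X hX
    have := ha _ (hb X hX)
    simpa only [Matrix.of_apply, Pi.mul_apply, mul_assoc] using this
  add_mem' := by
    intro a b ha hb X hX
    have := v.add_mem (ha X hX) (hb X hX)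
    convert this using 1
    ext i j
    simp [add_mul]
  algebraMap_mem' := by
    intro r X hX
    exact v.smul_mem r hX

open Classical in
/-- A subspace invariant under a family of Hadamard multiplications is invariant under every mask
which is constant on the level sets of the family. -/
theorem mask_mem {ι : Type} (v : Submodule ℝ (Mat n)) (c : ι → Fin n → Fin n → ℝ)
    (h : ∀ a, ∀ X ∈ v, (Matrix.of fun i j => c a i j * X i j) ∈ v) (S : Set (Fin n × Fin n))
    (hS : ∀ p ∈ S, ∀ q : Fin n × Fin n, (∀ a, c a p.1 p.2 = c a q.1 q.2) → q ∈ S)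
    {X : Mat n} (hX : X ∈ v) : (Matrix.of fun i j => if (i, j) ∈ S then X i j else 0) ∈ v := by
  have h1 : ∀ p ∈ S, ∀ q ∉ S, ∃ f ∈ Mx2_mult v, f p = 1 ∧ f q = 0 := by
    intro p hp q hq
    obtain ⟨a, ha⟩ : ∃ a, c a p.1 p.2 ≠ c a q.1 q.2 := by
      by_contra hc
      exact hq (hS p hp q fun a => by_contra fun e => hc ⟨a, e⟩)
    have hm : (fun r : Fin n × Fin n => c a r.1 r.2) ∈ Mx2_mult v := h a
    refine ⟨(c a p.1 p.2 - c a q.1 q.2)⁻¹ • ((fun r : Fin n × Fin n => c a r.1 r.2) -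
      algebraMap ℝ _ (c a q.1 q.2)), Subalgebra.smul_mem _ (Subalgebra.sub_mem _ hm
        (Subalgebra.algebraMap_mem _ _)) _, ?_, ?_⟩
    · simpa using inv_mul_cancel₀ (sub_ne_zero.2 ha)
    · simp
  have h2 : ∀ p ∈ S, ∃ g ∈ Mx2_mult v, g p = 1 ∧ ∀ q ∉ S, g q = 0 := by
    intro p hp
    choose! f hf hf1 hf0 using h1 p hp
    refine ⟨∏ q ∈ Finset.univ.filter (· ∉ S), f q,
      Subalgebra.prod_mem _ fun q hq => hf q (Finset.mem_filter.1 hq).2, ?_, fun q hq => ?_⟩
    · rw [Finset.prod_apply]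
      exact Finset.prod_eq_one fun q hq => hf1 q (Finset.mem_filter.1 hq).2
    · rw [Finset.prod_apply]
      exact Finset.prod_eq_zero (Finset.mem_filter.2 ⟨Finset.mem_univ q, hq⟩) (hf0 q hq)
  choose! g hg hg1 hg0 using h2
  have h3 : 1 - ∏ p ∈ Finset.univ.filter (· ∈ S), (1 - g p) ∈ Mx2_mult v :=
    Subalgebra.sub_mem _ (Subalgebra.one_mem _) (Subalgebra.prod_mem _ fun p hp =>
      Subalgebra.sub_mem _ (Subalgebra.one_mem _) (hg p (Finset.mem_filter.1 hp).2))
  convert h3 X hX using 4 with i j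
  rw [Pi.sub_apply, Finset.prod_apply, Pi.one_apply]
  split_ifs with hij
  · rw [Finset.prod_eq_zero (Finset.mem_filter.2 ⟨Finset.mem_univ (i, j), hij⟩)
      (by rw [Pi.sub_apply, hg1 _ hij, Pi.one_apply, sub_self]), sub_zero, one_mul]
  · rw [Finset.prod_eq_one fun p hp => by
      rw [Pi.sub_apply, hg0 p (Finset.mem_filter.1 hp).2 _ hij, Pi.one_apply, sub_zero],
      sub_self, zero_mul]

/-- A vector of a subspace, close to a given one, off finitely many hyperplanes. -/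
theorem exists_generic {k : ℕ} (W : Submodule ℝ (Euc k)) (F : Finset (Euc k))
    (hF : ∀ β ∈ F, ∃ s ∈ W, ⟪β, s⟫ ≠ 0) {s₀ : Euc k} (h₀ : s₀ ∈ W) {O : Set (Euc k)}
    (hO : O ∈ 𝓝 s₀) : ∃ s ∈ W, s ∈ O ∧ ∀ β ∈ F, ⟪β, s⟫ ≠ 0 := by
  classical
  induction F using Finset.induction_on generalizing s₀ O with
  | empty => exact ⟨s₀, h₀, mem_of_mem_nhds hO, by simp⟩
  | insert β F _ ih =>
    obtain ⟨s₁, hs₁, hO₁, h₁⟩ := ih (fun γ hγ => hF γ (Finset.mem_insert_of_mem hγ)) h₀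
      (interior_mem_nhds.2 hO)
    by_cases hb : ⟪β, s₁⟫ = 0
    · obtain ⟨w, hw, hβ⟩ := hF β (Finset.mem_insert_self _ _)
      have e1 : ∀ᶠ s in 𝓝 s₁, s ∈ O := mem_interior_iff_mem_nhds.1 hO₁
      have e2 : ∀ᶠ s in 𝓝 s₁, ∀ γ ∈ F, ⟪γ, s⟫ ≠ 0 :=
        (Finset.eventually_all F).2 fun γ hγ =>
          (continuous_const.inner continuous_id).continuousAt.eventually_ne (h₁ γ hγ)
      have ht : Tendsto (fun t : ℝ => s₁ + t • w) (𝓝[≠] 0) (𝓝 s₁) := by
        have : Continuous fun t : ℝ => s₁ + t • w := by fun_prop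
        simpa using (this.tendsto 0).mono_left nhdsWithin_le_nhds
      obtain ⟨t, ⟨a1, a2⟩, a3⟩ := ((ht.eventually (e1.and e2)).and self_mem_nhdsWithin).exists
      refine ⟨s₁ + t • w, W.add_mem hs₁ (W.smul_mem t hw), a1, fun γ hγ => ?_⟩
      rcases Finset.mem_insert.1 hγ with rfl | hγ
      · rw [inner_add_right, hb, zero_add, real_inner_smul_right]
        exact mul_ne_zero a3 hβ
      · exact a2 γ hγ
    · refine ⟨s₁, hs₁, interior_subset hO₁, fun γ hγ => ?_⟩
      rcases Finset.mem_insert.1 hγ with rfl | hγ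
      · exact hb
      · exact h₁ γ hγ

/-- A vector orthogonal to `θ` and to no vector of `F` that is off the line of `θ`. -/
theorem exists_generic_wall {k : ℕ} (θ : Euc k) (F : Finset (Euc k)) :
    ∃ s : Euc k, ⟪θ, s⟫ = 0 ∧ ∀ β ∈ F, (∀ c : ℝ, β ≠ c • θ) → ⟪β, s⟫ ≠ 0 := by
  classical
  obtain ⟨s, hs, -, h⟩ := exists_generic (ℝ ∙ θ)ᗮ (F.filter fun β => ∀ c : ℝ, β ≠ c • θ)
    (fun β hβ => by
      by_contra hc
      have h1 : β ∈ (ℝ ∙ θ)ᗮᗮ := (Submodule.mem_orthogonal' _ _).2 fun s hs =>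
        by_contra fun e => hc ⟨s, hs, e⟩
      rw [Submodule.orthogonal_orthogonal, Submodule.mem_span_singleton] at h1
      obtain ⟨c, hc'⟩ := h1
      exact (Finset.mem_filter.1 hβ).2 c hc'.symm)
    (Submodule.zero_mem _) univ_mem
  exact ⟨s, Submodule.mem_orthogonal_singleton_iff_inner_right.1 hs,
    fun β hβ hc => h β (Finset.mem_filter.2 ⟨hβ, hc⟩)⟩

end Pool.Agent.P.MP_d483fb_an.Z

end

end

section




end

section

/-! The derivative of a continuous homomorphism into a Banach algebra. -/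

open scoped Matrix Matrix.Norms.Operator InnerProductSpace RealInnerProductSpace Topology
open NormedSpace Filter Set

noncomputable section

namespace Pool.Agent.P.MP_d483fb_an.Z

namespace ExpData

variable {G : Type} [Group G] [TopologicalSpace G] [IsTopologicalGroup G] {n : ℕ}
  (D : ExpData G n)

theorem Hom_gen {A : Type} [NormedRing A] [NormedAlgebra ℝ A] [CompleteSpace A]
    (φ : G →* A) (hφ : Continuous φ) (X : D.g) :
    ∃ Z : A, ∀ t : ℝ, φ (D.ex (t • (X : Mat n))) = exp (t • Z) :=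
  exists_gen (fun t : ℝ => φ (D.ex (t • (X : Mat n)))) (hφ.comp (D.ex_smul_cont X.2))
    (by simp only [zero_smul, D.ex_zero, map_one])
    (fun s t => by simp only [D.ex_add_smul X.2, map_mul])

theorem Hom_lin {A : Type} [NormedRing A] [NormedAlgebra ℝ A] [CompleteSpace A]
    (φ : G →* A) (hφ : Continuous φ) : ∃ d : Mat n →ₗ[ℝ] A,
      ∀ X ∈ D.g, ∀ t : ℝ, φ (D.ex (t • X)) = exp (t • d X) := by
  choose d0 hd using D.Hom_gen φ hφ
  have hs : ∀ (c : ℝ) (X : D.g), d0 (c • X) = c • d0 X := by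
    intro c X
    refine eq_of_exp_smul_eq (Eventually.of_forall fun t => ?_)
    rw [← hd, smul_smul, ← hd, Submodule.coe_smul, smul_smul]
  have ha : ∀ X Y : D.g, d0 (X + Y) = d0 X + d0 Y := by
    intro X Y
    refine eq_of_exp_smul_eq (Eventually.of_forall fun t => ?_)
    rw [← hd, Submodule.coe_add, smul_add, smul_add]
    have h1 := (hφ.tendsto _).comp (D.trotter (D.g.smul_mem t X.2) (D.g.smul_mem t Y.2))
    have h2 := Z.trotter (t • d0 X) (t • d0 Y)
    refine tendsto_nhds_unique h1 (h2.congr fun m => ?_)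
    simp only [Function.comp, map_pow, map_mul, smul_smul, hd]
  let d1 : D.g →ₗ[ℝ] A := ⟨⟨d0, ha⟩, hs⟩
  obtain ⟨d, hd'⟩ := LinearMap.exists_extend d1
  refine ⟨d, fun X hX t => ?_⟩
  have : d X = d0 ⟨X, hX⟩ := LinearMap.congr_fun hd' ⟨X, hX⟩
  rw [this]
  exact hd ⟨X, hX⟩ t

theorem exists_deriv {A : Type} [NormedRing A] [NormedAlgebra ℝ A] [CompleteSpace A]
    (φ : G →* A) (hφ : Continuous φ) : ∃ d : Mat n →ₗ[ℝ] A,
      (∀ X ∈ D.g, φ (D.ex X) = exp (d X)) ∧
      (∀ x, ∀ X ∈ D.g, d (D.Ad x X) = φ x * d X * φ x⁻¹) ∧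
      ∀ X ∈ D.g, ∀ Y ∈ D.g, d ⁅X, Y⁆ = ⁅d X, d Y⁆ := by
  obtain ⟨d, hd⟩ := D.Hom_lin φ hφ
  have hAd : ∀ x, ∀ X ∈ D.g, d (D.Ad x X) = φ x * d X * φ x⁻¹ := by
    intro x X hX
    refine eq_of_exp_smul_eq (Eventually.of_forall fun t => ?_)
    have h1 : φ x * φ x⁻¹ = 1 := by rw [← map_mul, mul_inv_cancel, map_one]
    have h2 : φ x⁻¹ * φ x = 1 := by rw [← map_mul, inv_mul_cancel, map_one]
    rw [← hd _ (D.Ad_mem x hX), ← map_smul, ← D.conj_ex x (D.g.smul_mem t hX), map_mul, map_mul,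
      hd X hX, exp_conj h1 h2, mul_smul_comm, smul_mul_assoc]
  refine ⟨d, fun X hX => by simpa using hd X hX 1, hAd, fun X hX Y hY => ?_⟩
  have h1 : HasDerivAt (fun t : ℝ => d (exp (t • X) * Y * exp (-(t • X))))
      (d (exp ((0 : ℝ) • X) * ⁅X, Y⁆ * exp (-((0 : ℝ) • X)))) 0 :=
    (LinearMap.toContinuousLinearMap d).hasFDerivAt.comp_hasDerivAt (0 : ℝ)
      (hasDerivAt_conj X Y 0)
  have h2 := hasDerivAt_conj (d X) (d Y) 0
  have e : (fun t : ℝ => d (exp (t • X) * Y * exp (-(t • X)))) =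
      fun t : ℝ => exp (t • d X) * d Y * exp (-(t • d X)) := by
    funext t
    have hX' := D.g.smul_mem t hX
    rw [← D.Ad_ex hX', hAd _ Y hY, ← D.ex_neg hX', ← neg_smul, hd X hX, hd X hX, neg_smul]
  rw [e] at h1
  simpa using h1.unique h2

end ExpData

end Pool.Agent.P.MP_d483fb_an.Z

end

end

section

/-! Almost homomorphisms near the identity of a topological group. -/

open scoped Topology
open Filter Set

namespace Pool.Agent.P.MP_d483fb_an.Z.TZ

/-- For every `η` there is a bounded `η`-almost homomorphism near `1` with zero set `K₀`. -/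
def AlmHom {K : Type} [Group K] [TopologicalSpace K] (E : Type) [NormedAddCommGroup E]
    (K₀ : Subgroup K) : Prop :=
  ∀ η : ℝ, 0 < η → ∃ U ∈ 𝓝 (1 : K), ∃ u : K → E, (∀ h ∈ U, ‖u h‖ ≤ 1) ∧
    (∀ h ∈ U, u h = 0 ↔ h ∈ K₀) ∧
    ∀ h ∈ U, ∀ h' ∈ U, h * h' ∈ U → ‖u (h * h') - u h - u h'‖ ≤ η * (‖u h‖ + ‖u h'‖)

end Pool.Agent.P.MP_d483fb_an.Z.TZ


end
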