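import Pool.Agent.P.MP_eeb913_an.U.Ergodic

section

/-!
Higher rank multiplicative ergodic theorem for bounded cocycles over a normed field: definitions.
-/

open MeasureTheory Filter Topology Set

set_option linter.unusedSectionVars false
set_option linter.unusedVariables false
set_option linter.deprecated false

noncomputable section

namespace Pool.Agent.P.MP_d483fb_an.Os

/-- an ergodic measure preserving action of an abelian group -/
structure Sys (Γ X : Type) [AddCommGroup Γ] [MeasurableSpace X] (μ : Measure X) where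
  act : Γ → X → X
  zero : ∀ x, act 0 x = x
  add : ∀ s t x, act (s + t) x = act s (act t x)
  mp : ∀ s, MeasurePreserving (act s) μ μ
  erg : ∀ S : Set X, MeasurableSet S → (∀ s, ∀ x ∈ S, act s x ∈ S) → μ S = 0 ∨ μ Sᶜ = 0

variable {k Γ X V : Type} [NontriviallyNormedField k] [AddCommGroup Γ] [MeasurableSpace X]
  {μ : Measure X} [NormedAddCommGroup V] [NormedSpace k V]

/-- distance to a subspace -/
def qn (N : Submodule k V) (v : V) : ℝ := ‖N.mkQ v‖

/-- a measurable field of subspaces -/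
def MSub (D : X → Submodule k V) : Prop := ∀ w, Measurable fun x => qn (D x) w

/-- a bounded linear cocycle on a measurable field of subspaces -/
structure Coc (S : Sys Γ X μ) (k V : Type) [NontriviallyNormedField k] [NormedAddCommGroup V]
    [NormedSpace k V] where
  A : Γ → X → V →L[k] V
  E : X → Submodule k V
  K : Γ → ℝ
  measA : ∀ s, StronglyMeasurable (A s)
  measE : MSub E
  map : ∀ s x, ∀ v ∈ E x, A s x v ∈ E (S.act s x)
  zero : ∀ x, ∀ v ∈ E x, A 0 x v = v
  add : ∀ s t x, ∀ v ∈ E x, A (s + t) x v = A s (S.act t x) (A t x v)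
  bound : ∀ s x, ∀ v ∈ E x, ‖A s x v‖ ≤ Real.exp (K s) * ‖v‖
  K_nonneg : ∀ s, 0 ≤ K s

/-- the subspaces `D i` form a direct sum decomposition of `W` -/
structure Dec {ι : Type} [Fintype ι] (D : ι → Submodule k V) (W : Submodule k V) : Prop where
  le : ∀ i, D i ≤ W
  span : ∀ w ∈ W, ∃ v : ι → V, (∀ i, v i ∈ D i) ∧ ∑ i, v i = w
  ind : ∀ v : ι → V, (∀ i, v i ∈ D i) → ∑ i, v i = 0 → ∀ i, v i = 0

/-- the zero field -/
def O (k V : Type) [NontriviallyNormedField k] [NormedAddCommGroup V] [NormedSpace k V]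
    (X : Type) : X → Submodule k V := fun _ => ⊥

variable {S : Sys Γ X μ}

namespace Coc

/-- an invariant measurable subfield -/
structure Sub (c : Coc S k V) (D : X → Submodule k V) : Prop where
  meas : MSub D
  le : ∀ x, D x ≤ c.E x
  inv : ∀ s x, ∀ v ∈ D x, c.A s x v ∈ D (S.act s x)

/-- restriction to an invariant subfield -/
def restrict (c : Coc S k V) (D : X → Submodule k V) (h : c.Sub D) : Coc S k V where
  A := c.A
  E := D
  K := c.K
  measA := c.measA
  measE := h.meas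
  map := h.inv
  zero x v hv := c.zero x v (h.le x hv)
  add s t x v hv := c.add s t x v (h.le x hv)
  bound s x v hv := c.bound s x v (h.le x hv)
  K_nonneg := c.K_nonneg

/-- modulo `N` the vector `v` grows at most like `exp (r n)` along the multiples of `a` -/
def Gr (c : Coc S k V) (N : X → Submodule k V) (a : Γ) (r : ℝ) (x : X) (v : V) : Prop :=
  ∃ M : ℝ, ∀ n : ℕ, qn (N (S.act (n • a) x)) (c.A (n • a) x v) ≤ M * Real.exp (r * n)

/-- the vectors that grow at most like `exp (r n)` modulo `N` -/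
def Fw (c : Coc S k V) (N : X → Submodule k V) (a : Γ) (r : ℝ) (x : X) : Submodule k V where
  carrier := {v | v ∈ c.E x ∧ c.Gr N a r x v}
  add_mem' := by
    rintro v w ⟨hv, M, hM⟩ ⟨hw, M', hM'⟩
    refine ⟨add_mem hv hw, M + M', fun n => ?_⟩
    unfold qn at hM hM' ⊢
    rw [map_add, map_add, add_mul]
    exact (norm_add_le _ _).trans (add_le_add (hM n) (hM' n))
  zero_mem' := ⟨zero_mem _, 0, fun n => by simp [qn]⟩
  smul_mem' := by
    rintro t v ⟨hv, M, hM⟩
    refine ⟨Submodule.smul_mem _ t hv, ‖t‖ * M, fun n => ?_⟩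
    unfold qn at hM ⊢
    rw [map_smul, map_smul, norm_smul, mul_assoc]
    exact mul_le_mul_of_nonneg_left (hM n) (norm_nonneg t)

theorem mem_Fw {c : Coc S k V} {N : X → Submodule k V} {a : Γ} {r : ℝ} {x : X} {v : V} :
    v ∈ c.Fw N a r x ↔ v ∈ c.E x ∧ c.Gr N a r x v := Iff.rfl

/-- the vectors with upper exponent at most `r` modulo `N` -/
def Le (c : Coc S k V) (N : X → Submodule k V) (a : Γ) (r : ℝ) (x : X) : Submodule k V :=
  ⨅ j : ℕ, c.Fw N a (r + 1 / ((j : ℝ) + 1)) x

/-- forward upper exponent at most `l`, backward upper exponent at most `-l` -/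
def Exact (c : Coc S k V) (D : X → Submodule k V) (a : Γ) (l : ℝ) : Prop :=
  ∀ᵐ x ∂μ, ∀ v ∈ D x, ∀ ε : ℝ, 0 < ε →
    c.Gr (O k V X) a (l + ε) x v ∧ c.Gr (O k V X) (-a) (-l + ε) x v

/-- norm of the cocycle modulo `N` -/
def nq (c : Coc S k V) (N : X → Submodule k V) (s : Γ) (x : X) : ℝ :=
  sInf {t | 0 ≤ t ∧ ∀ v ∈ c.E x, qn (N (S.act s x)) (c.A s x v) ≤ t * qn (N x) v}

end Coc

end Pool.Agent.P.MP_d483fb_an.Os

end

end

section

open MeasureTheory Filter Topology Set

set_option linter.unusedSectionVars false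
set_option linter.unusedVariables false
set_option linter.deprecated false

noncomputable section

namespace Pool.Agent.P.MP_d483fb_an.Os

variable {k Γ X V : Type} [NontriviallyNormedField k] [CompleteSpace k] [AddCommGroup Γ]
  [MeasurableSpace X] {μ : Measure X} [NormedAddCommGroup V] [NormedSpace k V]
  [FiniteDimensional k V] [ProperSpace V]

theorem qn_nonneg (N : Submodule k V) (v : V) : 0 ≤ qn N v := norm_nonneg _

theorem qn_eq (N : Submodule k V) (v : V) : qn N v = Metric.infDist v N :=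
  QuotientAddGroup.norm_mk (S := N.toAddSubgroup) v

theorem qn_add_le (N : Submodule k V) (v w : V) : qn N (v + w) ≤ qn N v + qn N w := by
  unfold qn
  rw [map_add]
  exact norm_add_le _ _

theorem qn_smul (N : Submodule k V) (t : k) (v : V) : qn N (t • v) = ‖t‖ * qn N v := by
  unfold qn
  rw [map_smul, norm_smul]

theorem qn_le {N : Submodule k V} {u : V} (hu : u ∈ N) (v : V) : qn N v ≤ ‖v - u‖ := by
  rw [qn_eq, ← dist_eq_norm]
  exact Metric.infDist_le_dist_of_mem hu

theorem qn_le_norm (N : Submodule k V) (v : V) : qn N v ≤ ‖v‖ := by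
  simpa using qn_le N.zero_mem v

theorem qn_exists (N : Submodule k V) (v : V) : ∃ u ∈ N, ‖v - u‖ = qn N v := by
  obtain ⟨u, hu, e⟩ := N.closed_of_finiteDimensional.exists_infDist_eq_dist ⟨0, N.zero_mem⟩ v
  exact ⟨u, hu, by rw [qn_eq, e, dist_eq_norm]⟩

theorem qn_eq_zero {N : Submodule k V} {v : V} : qn N v = 0 ↔ v ∈ N := by
  constructor
  · intro h
    obtain ⟨u, hu, e⟩ := qn_exists N v
    rw [h, norm_eq_zero, sub_eq_zero] at e
    exact e ▸ hu
  · intro h
    exact le_antisymm (by simpa using qn_le h v) (qn_nonneg _ _)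

theorem qn_pos {N : Submodule k V} {v : V} (h : v ∉ N) : 0 < qn N v :=
  lt_of_le_of_ne (qn_nonneg _ _) fun e => h (qn_eq_zero.1 e.symm)

theorem qn_sub_mem {N : Submodule k V} {u : V} (hu : u ∈ N) (v : V) : qn N (v - u) = qn N v := by
  unfold qn
  rw [map_sub, Submodule.mkQ_apply N u, (Submodule.Quotient.mk_eq_zero N).2 hu, sub_zero]

theorem qn_bot (v : V) : qn (⊥ : Submodule k V) v = ‖v‖ := by
  obtain ⟨u, hu, e⟩ := qn_exists (⊥ : Submodule k V) v
  rw [← e, (Submodule.mem_bot k).1 hu, sub_zero]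

theorem qn_O (x : X) (v : V) : qn (O k V X x) v = ‖v‖ := qn_bot v

theorem qn_cont (N : Submodule k V) : Continuous (qn N) := by
  have : qn N = fun v => Metric.infDist v N := funext (qn_eq N)
  rw [this]
  exact Metric.continuous_infDist_pt _

theorem qn_anti {N N' : Submodule k V} (h : N ≤ N') (v : V) : qn N' v ≤ qn N v := by
  obtain ⟨u, hu, e⟩ := qn_exists N v
  exact e ▸ qn_le (h hu) v

theorem sm_apply {f : X → V →L[k] V} (hf : StronglyMeasurable f) (v : V) :
    StronglyMeasurable fun x => f x v :=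
  (ContinuousLinearMap.apply k V v).continuous.comp_stronglyMeasurable hf

theorem sm_of_apply {f : X → V →L[k] V} (h : ∀ v, StronglyMeasurable fun x => f x v) :
    StronglyMeasurable f := by
  let b := Module.finBasis k V
  have e : f = fun x => ∑ i, ContinuousLinearMap.smulRightL k V V
      (LinearMap.toContinuousLinearMap (b.coord i)) (f x (b i)) := by
    funext x
    ext v
    conv_lhs => rw [← b.sum_repr v, map_sum]
    simp only [ContinuousLinearMap.sum_apply, ContinuousLinearMap.smulRightL_apply_apply,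
      ContinuousLinearMap.smulRight_apply, LinearMap.coe_toContinuousLinearMap',
      Module.Basis.coord_apply, map_smul]
  rw [e]
  exact Finset.stronglyMeasurable_fun_sum _ fun i _ =>
    (ContinuousLinearMap.continuous _).comp_stronglyMeasurable (h _)

theorem meas_cara {g : V → X → ℝ} (hc : ∀ x, Continuous fun w => g w x)
    (hm : ∀ w, Measurable (g w)) {f : X → V} (hf : StronglyMeasurable f) :
    Measurable fun x => g (f x) x := by
  borelize V
  have h1 : Measurable (Function.uncurry g) := measurable_uncurry_of_continuous_of_measurable hc hm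
  have h2 : Measurable fun x => (f x, x) := hf.measurable.prodMk measurable_id
  exact h1.comp h2

theorem MSub.qn_comp {D : X → Submodule k V} (h : MSub D) {f : X → V}
    (hf : StronglyMeasurable f) : Measurable fun x => qn (D x) (f x) :=
  meas_cara (g := fun w x => qn (D x) w) (fun x => qn_cont (D x)) h hf

/-- a field of subspaces cut out by the boundedness of a sequence of Caratheodory functions -/
theorem msub_of_bdd {φ : ℕ → X → V → ℝ} (hm : ∀ n v, Measurable fun x => φ n x v)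
    (hc : ∀ n x, Continuous (φ n x)) {D : X → Submodule k V}
    (hD : ∀ x v, v ∈ D x ↔ ∃ M : ℝ, ∀ n, φ n x v ≤ M) : MSub D := by
  refine fun w => measurable_of_Iio fun r => ?_
  let u := TopologicalSpace.denseSeq V
  have hu : DenseRange u := TopologicalSpace.denseRange_denseSeq V
  have e : (fun x => qn (D x) w) ⁻¹' Iio r =
      ⋃ (M : ℕ) (q : ℚ) (_ : (q : ℝ) < r), ⋂ N : ℕ, ⋃ i : ℕ, ⋃ (_ : ‖w - u i‖ < q),
        ⋂ n : ℕ, ⋂ (_ : n ≤ N), {x | φ n x (u i) < M} := by
    ext x
    simp only [mem_preimage, mem_Iio, mem_iUnion, mem_iInter, mem_setOf_eq, exists_prop]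
    constructor
    · intro hx
      obtain ⟨q, hq1, hq2⟩ := exists_rat_btwn hx
      obtain ⟨z, hz, ez⟩ := qn_exists (D x) w
      obtain ⟨M0, hM0⟩ := (hD x _).1 hz
      obtain ⟨M, hM⟩ := exists_nat_gt M0
      refine ⟨M, q, hq2, fun N => ?_⟩
      have ho : IsOpen ({v : V | ‖w - v‖ < q} ∩ ⋂ n ∈ Finset.range (N + 1), {v | φ n x v < M}) :=
        (isOpen_lt (continuous_const.sub continuous_id).norm continuous_const).inter
          (isOpen_biInter_finset fun n _ => isOpen_lt (hc n x) continuous_const)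
      obtain ⟨i, hi⟩ := hu.exists_mem_open ho ⟨z, ez.trans_lt hq1,
        mem_iInter₂.2 fun n _ => (hM0 n).trans_lt hM⟩
      exact ⟨i, hi.1, fun n hn => mem_iInter₂.1 hi.2 n (Finset.mem_range.2 (by omega))⟩
    · rintro ⟨M, q, hq, h⟩
      choose i hi1 hi2 using h
      have hb : ∀ N, u (i N) ∈ Metric.closedBall w q := fun N => by
        rw [mem_closedBall_iff_norm']; exact (hi1 N).le
      obtain ⟨v, hv, j, hj, hl⟩ := (isCompact_closedBall w (q : ℝ)).tendsto_subseq hb
      have hvD : v ∈ D x := (hD x v).2 ⟨M, fun n => by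
        refine le_of_tendsto (((hc n x).tendsto v).comp hl) ?_
        filter_upwards [eventually_ge_atTop n] with N hN
        exact (hi2 (j N) n (hN.trans (hj.id_le N))).le⟩
      rw [mem_closedBall_iff_norm'] at hv
      exact (qn_le hvD w).trans_lt (hv.trans_lt hq)
  rw [e]
  refine MeasurableSet.iUnion fun M => MeasurableSet.iUnion fun q => MeasurableSet.iUnion fun _ =>
    MeasurableSet.iInter fun N => MeasurableSet.iUnion fun i => MeasurableSet.iUnion fun _ =>
    MeasurableSet.iInter fun n => MeasurableSet.iInter fun _ =>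
    measurableSet_lt (hm n _) measurable_const

theorem mem_of_mul_le {D : Submodule k V} {v : V} {M : ℝ}
    (h : ∀ n : ℕ, (n : ℝ) * qn D v ≤ M) : v ∈ D := by
  by_contra hv
  have h0 := qn_pos hv
  obtain ⟨n, hn⟩ := exists_nat_gt (M / qn D v)
  rw [div_lt_iff₀ h0] at hn
  exact absurd (h n) (not_le.2 hn)

theorem MSub.iInf {D : ℕ → X → Submodule k V} (h : ∀ j, MSub (D j)) :
    MSub fun x => ⨅ j, D j x := by
  refine msub_of_bdd
    (φ := fun n x v => ((Nat.unpair n).1 : ℝ) * qn (D (Nat.unpair n).2 x) v)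
    (fun n v => measurable_const.mul (h _ v))
    (fun n x => continuous_const.mul (qn_cont _)) fun x v => ?_
  rw [Submodule.mem_iInf]
  constructor
  · intro hv
    exact ⟨0, fun n => by rw [qn_eq_zero.2 (hv _), mul_zero]⟩
  · rintro ⟨M, hM⟩ j
    refine mem_of_mul_le (M := M) fun n => ?_
    simpa only [Nat.unpair_pair] using hM (Nat.pair n j)

theorem msub_const (W : Submodule k V) : MSub fun _ : X => W := fun _ => measurable_const

theorem MSub.comp {D : X → Submodule k V} (h : MSub D) {T : X → X} (hT : Measurable T) :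
    MSub fun x => D (T x) := fun w => (h w).comp hT

/-- a closed condition on vectors is checked on a dense sequence -/
theorem meas_forall {f g : X → V → ℝ} (hf : ∀ v, Measurable fun x => f x v)
    (hg : ∀ v, Measurable fun x => g x v) (cf : ∀ x, Continuous (f x))
    (cg : ∀ x, Continuous (g x)) : MeasurableSet {x | ∀ v, f x v ≤ g x v} := by
  have hu := TopologicalSpace.denseRange_denseSeq V
  have e : {x | ∀ v, f x v ≤ g x v} =
      ⋂ i, {x | f x (TopologicalSpace.denseSeq V i) ≤ g x (TopologicalSpace.denseSeq V i)} := by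
    ext x
    simp only [mem_setOf_eq, mem_iInter]
    exact ⟨fun h i => h _, fun h v => hu.induction_on v (isClosed_le (cf x) (cg x)) h⟩
  rw [e]
  exact MeasurableSet.iInter fun i => measurableSet_le (hf _) (hg _)

theorem MSub.le_set {D D' : X → Submodule k V} (h : MSub D) (h' : MSub D') :
    MeasurableSet {x | D x ≤ D' x} := by
  have := meas_forall h' h (fun x => qn_cont _) (fun x => qn_cont _)
  convert this using 1
  ext x
  refine ⟨fun hx v => qn_anti hx v, fun hx v hv => qn_eq_zero.1 (le_antisymm ?_ (qn_nonneg _ _))⟩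
  exact (hx v).trans_eq (qn_eq_zero.2 hv)

theorem MSub.sup {D D' : X → Submodule k V} (h : MSub D) (h' : MSub D') :
    MSub fun x => D x ⊔ D' x := by
  refine fun w => measurable_of_Iio fun r => ?_
  let u := TopologicalSpace.denseSeq V
  have hu : DenseRange u := TopologicalSpace.denseRange_denseSeq V
  have e : (fun x => qn (D x ⊔ D' x) w) ⁻¹' Iio r =
      ⋃ i : ℕ, {x | qn (D x) (u i) + qn (D' x) (w - u i) < r} := by
    ext x
    simp only [mem_preimage, mem_Iio, mem_iUnion, mem_setOf_eq]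
    constructor
    · intro hx
      obtain ⟨z, hz, ez⟩ := qn_exists (D x ⊔ D' x) w
      obtain ⟨a, ha, b, hb, rfl⟩ := Submodule.mem_sup.1 hz
      have ho : IsOpen {v : V | qn (D x) v + qn (D' x) (w - v) < r} :=
        isOpen_lt ((qn_cont _).add ((qn_cont _).comp (continuous_const.sub continuous_id)))
          continuous_const
      refine hu.exists_mem_open ho ⟨a, ?_⟩
      have := qn_le hb (w - a)
      rw [sub_sub, ez] at this
      rw [mem_setOf_eq, qn_eq_zero.2 ha, zero_add]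
      exact this.trans_lt hx
    · rintro ⟨i, hi⟩
      have h1 := qn_add_le (D x ⊔ D' x) (u i) (w - u i)
      rw [add_sub_cancel] at h1
      linarith [qn_anti (le_sup_left : D x ≤ D x ⊔ D' x) (u i),
        qn_anti (le_sup_right : D' x ≤ D x ⊔ D' x) (w - u i)]
  rw [e]
  exact MeasurableSet.iUnion fun i => measurableSet_lt ((h _).add (h' _)) measurable_const

end Pool.Agent.P.MP_d483fb_an.Os

end

end

section

open MeasureTheory Filter Topology Set

set_option linter.unusedSectionVars false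
set_option linter.unusedVariables false
set_option linter.deprecated false

noncomputable section

namespace Pool.Agent.P.MP_d483fb_an.Os

variable {k Γ X V : Type} [NontriviallyNormedField k] [CompleteSpace k] [AddCommGroup Γ]
  [MeasurableSpace X] {μ : Measure X} [NormedAddCommGroup V] [NormedSpace k V]
  [FiniteDimensional k V] [ProperSpace V]

namespace Sys

variable (S : Sys Γ X μ)

theorem meas (s : Γ) : Measurable (S.act s) := (S.mp s).measurable

theorem neg_act (s : Γ) (x : X) : S.act (-s) (S.act s x) = x := by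
  rw [← S.add, neg_add_cancel, S.zero]

theorem act_neg (s : Γ) (x : X) : S.act s (S.act (-s) x) = x := by
  rw [← S.add, add_neg_cancel, S.zero]

theorem comm (s t : Γ) (x : X) : S.act s (S.act t x) = S.act t (S.act s x) := by
  rw [← S.add, add_comm, S.add]

theorem iter (a : Γ) (n : ℕ) (x : X) : (S.act a)^[n] x = S.act (n • a) x := by
  induction n with
  | zero => rw [zero_smul, S.zero]; rfl
  | succ n ih => rw [Function.iterate_succ_apply', ih, ← S.add, succ_nsmul']

theorem ae_act {p : X → Prop} (h : ∀ᵐ x ∂μ, p x) (s : Γ) : ∀ᵐ x ∂μ, p (S.act s x) :=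
  (S.mp s).quasiMeasurePreserving.ae h

theorem ae_or {p : X → Prop} (hm : MeasurableSet {x | p x}) (hi : ∀ s x, p x → p (S.act s x)) :
    (∀ᵐ x ∂μ, ¬ p x) ∨ ∀ᵐ x ∂μ, p x := by
  rcases S.erg _ hm (fun s x hx => hi s x hx) with h | h
  · left
    rw [ae_iff]
    simpa using h
  · right
    exact h

/-- bounded increments along the action -/
def Lip (B : Γ → ℝ) (q : X → ℝ) : Prop := ∀ s x, q (S.act s x) ≤ q x + B s

end Sys

theorem iSup_lip {ι : Type} [Nonempty ι] {f g : ι → ℝ} {B B' : ℝ} (h1 : ∀ i, f i ≤ g i + B)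
    (h2 : ∀ i, g i ≤ f i + B') (hB : 0 ≤ B) : ⨆ i, f i ≤ (⨆ i, g i) + B := by
  by_cases hg : BddAbove (range g)
  · exact ciSup_le fun i => (h1 i).trans (add_le_add (le_ciSup hg i) le_rfl)
  · have hf : ¬ BddAbove (range f) := by
      rintro ⟨M, hM⟩
      exact hg ⟨M + B', by
        rintro _ ⟨i, rfl⟩
        exact (h2 i).trans (add_le_add (hM ⟨i, rfl⟩) le_rfl)⟩
    rw [Real.iSup_of_not_bddAbove hf, Real.iSup_of_not_bddAbove hg, zero_add]
    exact hB

theorem Sys.sup_lip (S : Sys Γ X μ) {ι : Type} [Nonempty ι] {B : Γ → ℝ} (hB : ∀ s, 0 ≤ B s)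
    {f : ι → X → ℝ} (h : ∀ i, S.Lip B (f i)) : S.Lip B fun x => ⨆ i, f i x := fun s x =>
  iSup_lip (fun i => h i s x) (B' := B (-s)) (fun i => by
    have := h i (-s) (S.act s x)
    rwa [S.neg_act] at this) (hB s)

theorem Sys.temper1 [IsFiniteMeasure μ] (S : Sys Γ X μ) {B : Γ → ℝ} (hB : ∀ s, 0 ≤ B s)
    {q : X → ℝ} (hq : Measurable q) (h : S.Lip B q) (a : Γ) {ε : ℝ} (hε : 0 < ε) :
    ∃ q' : X → ℝ, Measurable q' ∧ S.Lip B q' ∧
      ∀ᵐ x ∂μ, ∀ n : ℤ, q (S.act (n • a) x) ≤ q' x + ε * |(n : ℝ)| := by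
  have key : ∀ b : Γ, ∀ᵐ x ∂μ, ∃ M : ℝ, ∀ n : ℕ, q (S.act (n • b) x) ≤ M + ε * n := by
    intro b
    have := Pool.Agent.P.MP_eeb913_an.U.tempered (S.mp b) hq (B := B b + B (-b))
      (ae_of_all _ fun y => by
        have h1 := h b y
        have h2 := h (-b) (S.act b y)
        rw [S.neg_act] at h2
        rw [abs_le]
        constructor <;> linarith [hB b, hB (-b)]) hε
    simpa only [S.iter] using this
  refine ⟨fun x => ⨆ n : ℤ, (q (S.act (n • a) x) - ε * |(n : ℝ)|),
    Measurable.iSup fun n => (hq.comp (S.meas _)).sub_const _, S.sup_lip hB fun n s x => ?_, ?_⟩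
  · have := h s (S.act (n • a) x)
    rw [S.comm] at this
    linarith
  · filter_upwards [key a, key (-a)] with x ⟨M, hM⟩ ⟨M', hM'⟩ n
    have hb : BddAbove (range fun n : ℤ => q (S.act (n • a) x) - ε * |(n : ℝ)|) := by
      refine ⟨max M M', ?_⟩
      rintro _ ⟨n, rfl⟩
      obtain ⟨m, rfl | rfl⟩ := n.eq_nat_or_neg
      · have := hM m
        simp only [natCast_zsmul, Int.cast_natCast, Nat.abs_cast]
        linarith [le_max_left M M']
      · have := hM' m
        rw [neg_nsmul] at this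
        simp only [neg_smul, natCast_zsmul, Int.cast_neg, Int.cast_natCast, abs_neg, Nat.abs_cast]
        linarith [le_max_right M M']
    linarith [le_ciSup hb n]

theorem Sys.temper [IsFiniteMeasure μ] (S : Sys Γ X μ) {B : Γ → ℝ} (hB : ∀ s, 0 ≤ B s)
    {ι : Type} (a : ι → Γ) {ε : ℝ} (hε : 0 < ε) (T : Finset ι) {q : X → ℝ} (hq : Measurable q)
    (h : S.Lip B q) : ∃ q' : X → ℝ, Measurable q' ∧ S.Lip B q' ∧
      ∀ᵐ x ∂μ, ∀ n : ι → ℤ, q (S.act (∑ j ∈ T, n j • a j) x) ≤ q' x + ε * ∑ j ∈ T, |(n j : ℝ)| := by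
  classical
  induction T using Finset.induction_on with
  | empty => exact ⟨q, hq, h, ae_of_all _ fun x n => by simp [S.zero]⟩
  | insert j T hj ih =>
    obtain ⟨q1, m1, l1, h1⟩ := ih
    obtain ⟨q2, m2, l2, h2⟩ := S.temper1 hB m1 l1 (a j) hε
    refine ⟨q2, m2, l2, ?_⟩
    filter_upwards [h2, ae_all_iff.2 fun m : ℤ => S.ae_act h1 (m • a j)] with x hx2 hx1 n
    rw [Finset.sum_insert hj, Finset.sum_insert hj, add_comm (n j • a j), S.add]
    linarith [hx1 (n j) n, hx2 (n j)]

/-- good times of Karlsson and Margulis -/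
theorem good_times [IsFiniteMeasure μ] {T : X → X} (hT : MeasurePreserving T μ μ)
    {u : ℕ → X → ℝ} (hm : ∀ n, Measurable (u n)) (hi : ∀ n, Integrable (u n) μ) {B δ : ℝ}
    (hB : 0 ≤ B) (hδ : 0 < δ) (h0 : ∀ x, u 0 x ≤ 0) (hs : ∀ n x, u (n + 1) x ≤ u n (T x) + B)
    (hint : ∀ n : ℕ, δ * n ≤ ∫ x, u n x ∂μ) :
    ¬ ∀ᵐ x ∂μ, ¬ ∃ᶠ n in atTop, ∀ j ≤ n, u (n - j) (T^[j] x) ≤ u n x := by
  intro hae
  let G : ℕ → Set X := fun n => {x | ∀ j ≤ n, u (n - j) (T^[j] x) ≤ u n x}
  have hG : ∀ n, MeasurableSet (G n) := fun n => by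
    simp only [G, setOf_forall]
    exact MeasurableSet.iInter fun j => MeasurableSet.iInter fun _ =>
      measurableSet_le ((hm _).comp (hT.measurable.iterate j)) (hm n)
  let g : ℕ → X → ℝ := fun n => (G n).indicator fun _ => 1
  have g0 : ∀ n x, 0 ≤ g n x := fun n x => indicator_nonneg (fun _ _ => zero_le_one) x
  have gm : ∀ n, Measurable (g n) := fun n => measurable_const.indicator (hG n)
  have gi : ∀ n, Integrable (g n) μ := fun n => (integrable_const 1).indicator (hG n)
  have key : ∀ n x, u n x ≤ B * ∑ i ∈ Finset.range n, g (i + 1) (T^[n - (i + 1)] x) := by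
    intro n
    induction n using Nat.strong_induction_on with
    | _ n ih =>
      intro x
      by_cases hx : x ∈ G n
      · cases n with
        | zero => simpa using h0 x
        | succ n =>
          have h1 := ih n n.lt_succ_self (T x)
          have h2 : g (n + 1) x = 1 := indicator_of_mem hx _
          rw [Finset.sum_range_succ, Nat.sub_self, Function.iterate_zero, id, h2, mul_add, mul_one]
          refine (hs n x).trans (add_le_add (h1.trans_eq ?_) le_rfl)
          congr 1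
          refine Finset.sum_congr rfl fun i hi => ?_
          rw [← Function.iterate_succ_apply]
          congr 2
          have := Finset.mem_range.1 hi
          omega
      · simp only [G, mem_setOf_eq, not_forall, not_le] at hx
        obtain ⟨j, hj, hlt⟩ := hx
        have hj0 : j ≠ 0 := by
          rintro rfl
          exact lt_irrefl _ hlt
        refine hlt.le.trans ((ih (n - j) (by omega) _).trans (mul_le_mul_of_nonneg_left ?_ hB))
        refine le_trans (le_of_eq (Finset.sum_congr rfl fun i hi => ?_))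
          (Finset.sum_le_sum_of_subset_of_nonneg (Finset.range_mono (Nat.sub_le n j))
            fun i _ _ => g0 _ _)
        rw [← Function.iterate_add_apply]
        congr 2
        have := Finset.mem_range.1 hi
        omega
  have lim : Tendsto (fun n => ∫ x, g n x ∂μ) atTop (𝓝 0) := by
    have := tendsto_integral_of_dominated_convergence (μ := μ) (F := g) (f := fun _ => 0)
      (fun _ => 1) (fun n => (gm n).aestronglyMeasurable) (integrable_const 1)
      (fun n => ae_of_all _ fun x => by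
        simpa using norm_indicator_le_norm_self (fun _ : X => (1 : ℝ)) (s := G n) x) (by
        filter_upwards [hae] with x hx
        refine tendsto_const_nhds.congr' ?_
        filter_upwards [not_frequently.1 hx] with n hn
        exact (indicator_of_notMem (s := G n) hn _).symm)
    simpa using this
  have ces := ((lim.comp (tendsto_add_atTop_nat 1)).cesaro.const_mul B)
  rw [mul_zero] at ces
  obtain ⟨n, hn, hn1⟩ := ((ces.eventually (gt_mem_nhds hδ)).and (eventually_ge_atTop 1)).exists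
  have hi2 : ∀ i, Integrable (fun x => g (i + 1) (T^[n - (i + 1)] x)) μ := fun i =>
    (hT.iterate _).integrable_comp_of_integrable (gi _)
  have h1 := (hint n).trans (integral_mono (hi n)
    ((integrable_finset_sum _ fun i _ => hi2 i).const_mul B) (key n))
  rw [integral_const_mul, integral_finset_sum _ fun i _ => hi2 i] at h1
  simp only [Pool.Agent.P.MP_eeb913_an.U.erg_comp (hT.iterate _) (gm _)] at h1
  have hn0 : (0 : ℝ) < n := by exact_mod_cast hn1
  simp only [Function.comp_def] at hn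
  rw [← mul_assoc, mul_comm B, mul_assoc, inv_mul_lt_iff₀ hn0] at hn
  linarith

end Pool.Agent.P.MP_d483fb_an.Os

end

end

section

open MeasureTheory Filter Topology Set

set_option linter.unusedSectionVars false
set_option linter.unusedVariables false
set_option linter.deprecated false

noncomputable section

namespace Pool.Agent.P.MP_d483fb_an.Os

variable {k Γ X V : Type} [NontriviallyNormedField k] [CompleteSpace k] [AddCommGroup Γ]
  [MeasurableSpace X] {μ : Measure X} [NormedAddCommGroup V] [NormedSpace k V]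
  [FiniteDimensional k V] [ProperSpace V]

theorem unif_bound {W : Submodule k V} {p : ℕ → V → ℝ} (h0 : ∀ n, p n 0 ≤ 0)
    (ha : ∀ n v w, p n (v + w) ≤ p n v + p n w) (hs : ∀ n (t : k) v, p n (t • v) = ‖t‖ * p n v)
    (h : ∀ v ∈ W, ∃ M, ∀ n, p n v ≤ M) : ∃ C, 0 ≤ C ∧ ∀ n, ∀ v ∈ W, p n v ≤ C * ‖v‖ := by
  let b := Module.finBasis k W
  choose M hM using fun i => h (b i) (b i).2
  let l := fun i => LinearMap.toContinuousLinearMap (b.coord i)
  refine ⟨∑ i, ‖l i‖ * |M i|, Finset.sum_nonneg fun i _ => by positivity, fun n v hv => ?_⟩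
  have e : v = ∑ i, b.repr ⟨v, hv⟩ i • (b i : V) := by
    have := congrArg W.subtype (b.sum_repr ⟨v, hv⟩)
    rw [map_sum] at this
    exact this.symm
  have h1 : p n (∑ i, b.repr ⟨v, hv⟩ i • (b i : V)) ≤ ∑ i, p n (b.repr ⟨v, hv⟩ i • (b i : V)) := by
    induction (Finset.univ : Finset (Fin (Module.finrank k W))) using Finset.cons_induction with
    | empty => simpa using h0 n
    | cons i T hi ih =>
      rw [Finset.sum_cons, Finset.sum_cons]
      exact (ha _ _ _).trans (add_le_add le_rfl ih)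
  rw [← e] at h1
  rw [Finset.sum_mul]
  refine h1.trans (Finset.sum_le_sum fun i _ => ?_)
  rw [hs, mul_right_comm]
  exact mul_le_mul ((l i).le_opNorm ⟨v, hv⟩) ((hM i n).trans (le_abs_self _)) (by
    have := ha n (b i) ((-1 : k) • (b i : V))
    have h2 := hs n (0 : k) (0 : V)
    rw [hs, neg_one_smul, add_neg_cancel, norm_neg, norm_one, one_mul] at this
    rw [zero_smul, norm_zero, zero_mul] at h2
    linarith) (by positivity)

variable {S : Sys Γ X μ}

namespace Coc

variable (c : Coc S k V) {N D D' : X → Submodule k V}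

theorem sub_O : c.Sub (O k V X) :=
  ⟨msub_const ⊥, fun _ => bot_le, fun s x v hv => by
    rw [(Submodule.mem_bot k).1 hv, map_zero]; exact zero_mem _⟩

theorem sub_E : c.Sub c.E := ⟨c.measE, fun _ => le_rfl, c.map⟩

theorem neg_apply (s : Γ) {x : X} {v : V} (hv : v ∈ c.E x) :
    c.A (-s) (S.act s x) (c.A s x v) = v := by
  rw [← c.add _ _ _ _ hv, neg_add_cancel, c.zero _ _ hv]

theorem apply_neg (s : Γ) {x : X} {w : V} (hw : w ∈ c.E (S.act s x)) :
    c.A s x (c.A (-s) (S.act s x) w) = w := by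
  have := c.add s (-s) _ _ hw
  rw [S.neg_act, add_neg_cancel, c.zero _ _ hw] at this
  exact this.symm

variable {c}

theorem Sub.inv_neg (h : c.Sub D) (s : Γ) {x : X} {w : V} (hw : w ∈ D (S.act s x)) :
    c.A (-s) (S.act s x) w ∈ D x := by
  have := h.inv (-s) _ _ hw
  rwa [S.neg_act] at this

theorem Sub.le_act (h : c.Sub D) (h' : c.Sub D') (s : Γ) {x : X} (hx : D x ≤ D' x) :
    D (S.act s x) ≤ D' (S.act s x) := fun w hw => by
  rw [← c.apply_neg s (h.le _ hw)]
  exact h'.inv s x _ (hx (h.inv_neg s hw))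

theorem Sub.not_le_act (h : c.Sub D) (h' : c.Sub D') (s : Γ) {x : X} (hx : ¬ D x ≤ D' x) :
    ¬ D (S.act s x) ≤ D' (S.act s x) := fun hl => by
  have := h.le_act h' (-s) hl
  rw [S.neg_act] at this
  exact hx this

theorem Sub.ae_or (h : c.Sub D) (h' : c.Sub D') :
    (∀ᵐ x ∂μ, ¬ D x ≤ D' x) ∨ ∀ᵐ x ∂μ, D x ≤ D' x :=
  S.ae_or (h.meas.le_set h'.meas) fun s x hx => h.le_act h' s hx

theorem Sub.of_restrict {h : c.Sub D} (h' : (c.restrict D h).Sub D') : c.Sub D' :=
  ⟨h'.meas, fun x => (h'.le x).trans (h.le x), h'.inv⟩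

theorem Sub.to_restrict (h : c.Sub D) (h' : c.Sub D') (hl : ∀ x, D' x ≤ D x) :
    (c.restrict D h).Sub D' := ⟨h'.meas, hl, h'.inv⟩

/-- replacing a vector by a shortest representative -/
theorem Sub.rep (hN : c.Sub N) (s : Γ) {x : X} {v : V} (hv : v ∈ c.E x) :
    ∃ w ∈ c.E x, ‖w‖ = qn (N x) v ∧
      qn (N (S.act s x)) (c.A s x w) = qn (N (S.act s x)) (c.A s x v) := by
  obtain ⟨u, hu, e⟩ := qn_exists (N x) v
  exact ⟨v - u, sub_mem hv (hN.le x hu), e, by rw [map_sub, qn_sub_mem (hN.inv s x u hu)]⟩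

theorem Sub.qbound (hN : c.Sub N) (s : Γ) {x : X} {v : V} (hv : v ∈ c.E x) :
    qn (N (S.act s x)) (c.A s x v) ≤ Real.exp (c.K s) * qn (N x) v := by
  obtain ⟨w, hw, e1, e2⟩ := hN.rep s hv
  rw [← e1, ← e2]
  exact (qn_le_norm _ _).trans (c.bound s x w hw)

theorem Sub.qbound_add (hN : c.Sub N) (s t : Γ) {x : X} {v : V} (hv : v ∈ c.E x) :
    qn (N (S.act (s + t) x)) (c.A (s + t) x v) ≤
      Real.exp (c.K s) * qn (N (S.act t x)) (c.A t x v) := by
  rw [c.add s t x v hv, S.add]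
  exact hN.qbound s (c.map t x v hv)

theorem Sub.qbound_pow (hN : c.Sub N) (a : Γ) (n : ℕ) (t : Γ) {x : X} {v : V} (hv : v ∈ c.E x) :
    qn (N (S.act (n • a + t) x)) (c.A (n • a + t) x v) ≤
      Real.exp (c.K a * n) * qn (N (S.act t x)) (c.A t x v) := by
  induction n with
  | zero => simp
  | succ n ih =>
    rw [succ_nsmul', add_assoc]
    refine (hN.qbound_add a _ hv).trans ?_
    rw [Nat.cast_succ, mul_add, mul_one, add_comm (c.K a * n), Real.exp_add, mul_assoc]
    exact mul_le_mul_of_nonneg_left ih (Real.exp_pos _).le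

theorem Gr.mono {a : Γ} {r r' : ℝ} {x : X} {v : V} (h : c.Gr N a r x v) (hr : r ≤ r') :
    c.Gr N a r' x v := by
  obtain ⟨M, hM⟩ := h
  refine ⟨|M|, fun n => (hM n).trans ?_⟩
  exact mul_le_mul (le_abs_self M)
    (Real.exp_le_exp.2 (mul_le_mul_of_nonneg_right hr n.cast_nonneg)) (Real.exp_pos _).le
    (abs_nonneg M)

theorem Gr.pos {a : Γ} {r : ℝ} {x : X} {v : V} (h : c.Gr N a r x v) : ∃ M : ℝ, 0 < M ∧
    ∀ n : ℕ, qn (N (S.act (n • a) x)) (c.A (n • a) x v) ≤ M * Real.exp (r * n) := by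
  obtain ⟨M, hM⟩ := h
  exact ⟨|M| + 1, by positivity, fun n => (hM n).trans (mul_le_mul_of_nonneg_right
    ((le_abs_self M).trans (le_add_of_nonneg_right zero_le_one)) (Real.exp_pos _).le)⟩

theorem Fw_mono (a : Γ) {r r' : ℝ} (hr : r ≤ r') (x : X) : c.Fw N a r x ≤ c.Fw N a r' x :=
  fun _ hv => ⟨hv.1, hv.2.mono hr⟩

theorem Sub.Fw (hN : c.Sub N) (a : Γ) (r : ℝ) : c.Sub (c.Fw N a r) := by
  refine ⟨?_, fun x v hv => hv.1, fun s x v hv => ⟨c.map s x v hv.1, ?_⟩⟩
  · refine msub_of_bdd (φ := fun n x v => max (n * qn (c.E x) v)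
      (qn (N (S.act (n • a) x)) (c.A (n • a) x v) * Real.exp (-(r * n))))
      (fun n v => (measurable_const.mul (c.measE v)).max
        (((hN.meas.comp (S.meas _)).qn_comp (sm_apply (c.measA _) v)).mul_const _))
      (fun n x => (continuous_const.mul (qn_cont _)).max
        (((qn_cont _).comp (c.A _ x).continuous).mul continuous_const)) fun x v => ?_
    simp only [mem_Fw, Gr, max_le_iff, Real.exp_neg, mul_inv_le_iff₀ (Real.exp_pos _)]
    constructor
    · rintro ⟨hv, hM⟩
      obtain ⟨M, h0, hM⟩ := Gr.pos hM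
      exact ⟨M, fun n => ⟨by rw [qn_eq_zero.2 hv, mul_zero]; exact h0.le, hM n⟩⟩
    · rintro ⟨M, hM⟩
      exact ⟨mem_of_mul_le fun n => (hM n).1, M, fun n => (hM n).2⟩
  · obtain ⟨M, hM⟩ := hv.2
    refine ⟨Real.exp (c.K s) * M, fun n => ?_⟩
    rw [← c.add _ _ _ _ hv.1, ← S.add, add_comm, mul_assoc]
    exact (hN.qbound_add s _ hv.1).trans (mul_le_mul_of_nonneg_left (hM n) (Real.exp_pos _).le)

theorem mem_Le {a : Γ} {r : ℝ} {x : X} {v : V} :
    v ∈ c.Le N a r x ↔ v ∈ c.E x ∧ ∀ ε, 0 < ε → c.Gr N a (r + ε) x v := by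
  rw [Le, Submodule.mem_iInf]
  constructor
  · intro h
    refine ⟨(h 0).1, fun ε hε => ?_⟩
    obtain ⟨j, hj⟩ := exists_nat_one_div_lt hε
    exact (h j).2.mono (by linarith)
  · exact fun h j => ⟨h.1, h.2 _ Nat.one_div_pos_of_nat⟩

theorem Sub.Le (hN : c.Sub N) (a : Γ) (r : ℝ) : c.Sub (c.Le N a r) :=
  ⟨MSub.iInf fun j => (hN.Fw a _).meas, fun x v hv => (mem_Le.1 hv).1, fun s x v hv =>
    (Submodule.mem_iInf _).2 fun j => (hN.Fw a _).inv s x v ((Submodule.mem_iInf _).1 hv j)⟩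

theorem Sub.nq_bdd (s : Γ) (x : X) : BddBelow
    {t : ℝ | 0 ≤ t ∧ ∀ v ∈ c.E x, qn (N (S.act s x)) (c.A s x v) ≤ t * qn (N x) v} :=
  ⟨0, fun _ h => h.1⟩

theorem nq_min {s : Γ} {x : X} {t : ℝ} (h0 : 0 ≤ t)
    (h : ∀ v ∈ c.E x, qn (N (S.act s x)) (c.A s x v) ≤ t * qn (N x) v) : c.nq N s x ≤ t :=
  csInf_le (Sub.nq_bdd s x) ⟨h0, h⟩

theorem nq_nonneg (s : Γ) (x : X) : 0 ≤ c.nq N s x := Real.sInf_nonneg fun _ h => h.1

theorem Sub.nq_le (hN : c.Sub N) (s : Γ) {x : X} {v : V} (hv : v ∈ c.E x) :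
    qn (N (S.act s x)) (c.A s x v) ≤ c.nq N s x * qn (N x) v := by
  rcases (qn_nonneg (N x) v).eq_or_lt with h | h
  · have := hN.qbound s hv
    rwa [← h, mul_zero] at this ⊢
  · rw [← div_le_iff₀ h]
    exact le_csInf ⟨_, (Real.exp_pos _).le, fun v hv => hN.qbound s hv⟩ fun t ht =>
      (div_le_iff₀ h).2 (ht.2 v hv)

theorem Sub.nq_le_exp (hN : c.Sub N) (s : Γ) (x : X) : c.nq N s x ≤ Real.exp (c.K s) :=
  nq_min (Real.exp_pos _).le fun v hv => hN.qbound s hv

theorem Sub.nq_add (hN : c.Sub N) (s t : Γ) (x : X) :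
    c.nq N (s + t) x ≤ c.nq N s (S.act t x) * c.nq N t x := by
  refine nq_min (mul_nonneg (nq_nonneg _ _) (nq_nonneg _ _)) fun v hv => ?_
  rw [c.add s t x v hv, S.add, mul_assoc]
  exact (hN.nq_le s (c.map t x v hv)).trans
    (mul_le_mul_of_nonneg_left (hN.nq_le t hv) (nq_nonneg _ _))

theorem Sub.nq_zero (hN : c.Sub N) (s : Γ) {x : X} (h : c.E x ≤ N x) : c.nq N s x = 0 :=
  le_antisymm (nq_min le_rfl fun v hv => by
    rw [qn_eq_zero.2 (hN.inv s x v (h hv)), zero_mul]) (nq_nonneg _ _)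

theorem Sub.exp_le_nq (hN : c.Sub N) (s : Γ) {x : X} (h : ¬ c.E x ≤ N x) :
    Real.exp (-c.K (-s)) ≤ c.nq N s x := by
  obtain ⟨v, hv, hn⟩ := SetLike.not_le_iff_exists.1 h
  have h1 := hN.qbound (-s) (c.map s x v hv)
  rw [S.neg_act, c.neg_apply s hv] at h1
  have h2 := h1.trans (mul_le_mul_of_nonneg_left (hN.nq_le s hv) (Real.exp_pos _).le)
  rw [← mul_assoc, le_mul_iff_one_le_left (qn_pos hn)] at h2
  rwa [Real.exp_neg, inv_le_iff_one_le_mul₀' (Real.exp_pos _)]

theorem Sub.nq_meas (hN : c.Sub N) (s : Γ) : Measurable (c.nq N s) := by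
  refine measurable_of_Iic fun t => ?_
  rcases lt_or_ge t 0 with ht | ht
  · convert MeasurableSet.empty
    exact eq_empty_of_forall_notMem fun x hx => absurd ((nq_nonneg s x).trans hx) (not_le.2 ht)
  have := meas_forall (f := fun x w => qn (N (S.act s x)) (c.A s x w))
    (g := fun x w => t * qn (N x) w + (t + ‖c.A s x‖) * qn (c.E x) w)
    (fun w => (hN.meas.comp (S.meas _)).qn_comp (sm_apply (c.measA _) w))
    (fun w => ((hN.meas w).const_mul t).add
      (((c.measA s).norm.measurable.const_add t).mul (c.measE w)))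
    (fun x => (qn_cont _).comp (c.A s x).continuous)
    (fun x => (continuous_const.mul (qn_cont _)).add (continuous_const.mul (qn_cont _)))
  convert this using 1
  ext x
  constructor
  · intro hx w
    obtain ⟨u, hu, e⟩ := qn_exists (c.E x) w
    have h1 := qn_add_le (N (S.act s x)) (c.A s x u) (c.A s x (w - u))
    rw [← map_add, add_sub_cancel] at h1
    have h2 := (hN.nq_le s hu).trans (mul_le_mul_of_nonneg_right hx (qn_nonneg _ _))
    have h3 := (qn_le_norm (N (S.act s x)) _).trans ((c.A s x).le_opNorm (w - u))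
    have h4 := qn_add_le (N x) w (u - w)
    rw [add_sub_cancel] at h4
    have h5 := qn_le_norm (N x) (u - w)
    rw [norm_sub_rev, e] at h5
    rw [e] at h3
    have h6 := mul_le_mul_of_nonneg_left (h4.trans (add_le_add le_rfl h5)) ht
    show _ ≤ t * qn (N x) w + (t + ‖c.A s x‖) * qn (c.E x) w
    linarith
  · intro hx
    refine nq_min ht fun v hv => ?_
    simpa only [qn_eq_zero.2 hv, mul_zero, add_zero] using hx v

/-- two sided comparison of the norms at two points of an orbit -/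
theorem Sub.nq_act (hN : c.Sub N) (t s : Γ) (x : X) :
    c.nq N t (S.act s x) ≤ Real.exp (c.K s + c.K (-s)) * c.nq N t x := by
  have h1 := hN.nq_add (s + t) (-s) (S.act s x)
  rw [S.neg_act, add_comm s t, add_neg_cancel_right, add_comm t s] at h1
  have h2 := (hN.nq_add s t x).trans
    (mul_le_mul_of_nonneg_right (hN.nq_le_exp s _) (nq_nonneg _ _))
  refine h1.trans ((mul_le_mul h2 (hN.nq_le_exp _ _) (nq_nonneg _ _)
    (mul_nonneg (Real.exp_pos _).le (nq_nonneg _ _))).trans_eq ?_)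
  rw [Real.exp_add]; ring

end Coc

end Pool.Agent.P.MP_d483fb_an.Os

end

end

section

open MeasureTheory Filter Topology Set

set_option linter.unusedSectionVars false
set_option linter.unusedVariables false
set_option linter.deprecated false

noncomputable section

namespace Pool.Agent.P.MP_d483fb_an.Os

variable {k Γ X V : Type} [NontriviallyNormedField k] [CompleteSpace k] [AddCommGroup Γ]
  [MeasurableSpace X] {μ : Measure X} [NormedAddCommGroup V] [NormedSpace k V]
  [FiniteDimensional k V] [ProperSpace V]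

variable {S : Sys Γ X μ}

namespace Coc

variable {c : Coc S k V} {N D D' : X → Submodule k V}

/-- the constant of comparison along the action -/
def B (c : Coc S k V) (s : Γ) : ℝ := c.K s + c.K (-s)

theorem B_nonneg (c : Coc S k V) (s : Γ) : 0 ≤ c.B s := add_nonneg (c.K_nonneg _) (c.K_nonneg _)

theorem log_max_le {y z B : ℝ} (hB : 0 ≤ B) (h : y ≤ Real.exp B * z) :
    Real.log (max 1 y) ≤ Real.log (max 1 z) + B := by
  have h1 : (0 : ℝ) < max 1 z := lt_max_of_lt_left one_pos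
  rw [Real.log_le_iff_le_exp (lt_max_of_lt_left one_pos), Real.exp_add, Real.exp_log h1, mul_comm]
  exact max_le (one_le_mul_of_one_le_of_one_le (Real.one_le_exp hB) (le_max_left _ _))
    (h.trans (mul_le_mul_of_nonneg_left (le_max_right _ _) (Real.exp_pos _).le))

theorem Sub.unif (hN : c.Sub N) {a : Γ} {r : ℝ} {x : X} (h : c.E x ≤ c.Fw N a r x) :
    ∃ C, ∀ n : ℕ, c.nq N (n • a) x * Real.exp (-(r * n)) ≤ C := by
  obtain ⟨C, hC0, hC⟩ := unif_bound (k := k) (W := c.E x)
    (p := fun n v => qn (N (S.act (n • a) x)) (c.A (n • a) x v) * Real.exp (-(r * n)))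
    (fun n => by rw [map_zero, qn_eq_zero.2 (zero_mem _), zero_mul])
    (fun n v w => by
      rw [map_add, ← add_mul]
      exact mul_le_mul_of_nonneg_right (qn_add_le _ _ _) (Real.exp_pos _).le)
    (fun n t v => by rw [map_smul, qn_smul, mul_assoc])
    (fun v hv => by
      obtain ⟨M, hM⟩ := (h hv).2
      exact ⟨M, fun n => by
        rw [Real.exp_neg, mul_inv_le_iff₀ (Real.exp_pos _)]; exact hM n⟩)
  refine ⟨C, fun n => ?_⟩
  rw [Real.exp_neg, mul_inv_le_iff₀ (Real.exp_pos _)]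
  refine nq_min (by positivity) fun v hv => ?_
  obtain ⟨w, hw, e1, e2⟩ := hN.rep (n • a) hv
  have := hC n w hw
  rw [e1, e2, Real.exp_neg, mul_inv_le_iff₀ (Real.exp_pos _)] at this
  exact this.trans_eq (by ring)

theorem Sub.lip_bound (hN : c.Sub N) {a : Γ} {r : ℝ} (h : ∀ᵐ x ∂μ, c.E x ≤ c.Fw N a r x) :
    ∃ q : X → ℝ, Measurable q ∧ (∀ x, 0 ≤ q x) ∧ S.Lip c.B q ∧
      ∀ᵐ x ∂μ, ∀ n : ℕ, c.nq N (n • a) x ≤ Real.exp (q x + r * n) := by
  refine ⟨fun x => ⨆ n : ℕ, Real.log (max 1 (c.nq N (n • a) x * Real.exp (-(r * n)))),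
    Measurable.iSup fun n => (measurable_const.max ((hN.nq_meas _).mul_const _)).log,
    fun x => Real.iSup_nonneg fun n => Real.log_nonneg (le_max_left _ _),
    S.sup_lip c.B_nonneg fun n s x => log_max_le (c.B_nonneg s) ?_, ?_⟩
  · rw [← mul_assoc]
    exact mul_le_mul_of_nonneg_right (hN.nq_act _ s x) (Real.exp_pos _).le
  · filter_upwards [h] with x hx n
    obtain ⟨C, hC⟩ := hN.unif hx
    have hb : BddAbove (range fun n : ℕ =>
        Real.log (max 1 (c.nq N (n • a) x * Real.exp (-(r * n))))) := by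
      refine ⟨Real.log (max 1 C), ?_⟩
      rintro _ ⟨n, rfl⟩
      exact Real.log_le_log (lt_max_of_lt_left one_pos) (max_le_max le_rfl (hC n))
    have h1 := le_ciSup hb n
    rw [Real.log_le_iff_le_exp (lt_max_of_lt_left one_pos), max_le_iff, Real.exp_neg,
      mul_inv_le_iff₀ (Real.exp_pos _), ← Real.exp_add] at h1
    simpa only [Real.exp_neg] using h1.2

theorem Sub.orbit_bound [IsFiniteMeasure μ] (hN : c.Sub N) {a : Γ} {r : ℝ}
    (h : ∀ᵐ x ∂μ, c.E x ≤ c.Fw N a r x) (b : Γ) {ε : ℝ} (hε : 0 < ε) :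
    ∀ᵐ x ∂μ, ∃ M : ℝ, 0 < M ∧ ∀ i n : ℕ,
      c.nq N (n • a) (S.act (i • b) x) ≤ M * Real.exp (r * n + ε * i) := by
  obtain ⟨q, hq, -, hl, h1⟩ := hN.lip_bound h
  obtain ⟨q', -, -, h2⟩ := S.temper1 c.B_nonneg hq hl b hε
  filter_upwards [h2, ae_all_iff.2 fun i : ℕ => S.ae_act h1 (i • b)] with x hx2 hx1
  refine ⟨Real.exp (q' x), Real.exp_pos _, fun i n => (hx1 i n).trans ?_⟩
  have := hx2 i
  rw [natCast_zsmul, Int.cast_natCast, Nat.abs_cast] at this
  rw [← Real.exp_add, Real.exp_le_exp]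
  linarith

/-- logarithm of the norm -/
def lg (c : Coc S k V) (N : X → Submodule k V) (s : Γ) (x : X) : ℝ := Real.log (c.nq N s x)

theorem Sub.lg_abs (hN : c.Sub N) (s : Γ) (x : X) : |c.lg N s x| ≤ c.B s := by
  unfold lg B
  by_cases h : c.E x ≤ N x
  · rw [hN.nq_zero s h, Real.log_zero, abs_zero]
    exact c.B_nonneg s
  · have h1 := hN.exp_le_nq s h
    have h2 := (Real.exp_pos _).trans_le h1
    rw [← Real.le_log_iff_exp_le h2] at h1
    have h3 := (Real.log_le_iff_le_exp h2).2 (hN.nq_le_exp s x)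
    rw [abs_le]
    constructor <;> linarith [c.K_nonneg s, c.K_nonneg (-s)]

theorem Sub.lg_add (hN : c.Sub N) (s t : Γ) (x : X) : c.lg N (s + t) x ≤ c.lg N t x + c.K s := by
  unfold lg
  by_cases h : c.E x ≤ N x
  · rw [hN.nq_zero _ h, hN.nq_zero _ h, Real.log_zero, zero_add]
    exact c.K_nonneg s
  · rw [Real.log_le_iff_le_exp ((Real.exp_pos _).trans_le (hN.exp_le_nq _ h)), Real.exp_add,
      Real.exp_log ((Real.exp_pos _).trans_le (hN.exp_le_nq _ h)), mul_comm]
    exact (hN.nq_add s t x).trans (mul_le_mul_of_nonneg_right (hN.nq_le_exp s _) (nq_nonneg _ _))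

theorem Sub.lg_meas (hN : c.Sub N) (s : Γ) : Measurable (c.lg N s) := (hN.nq_meas s).log

theorem Sub.lg_int [IsFiniteMeasure μ] (hN : c.Sub N) (s : Γ) : Integrable (c.lg N s) μ :=
  Integrable.of_bound (hN.lg_meas s).aestronglyMeasurable _ (ae_of_all _ (hN.lg_abs s))

theorem Sub.nq_zero_le (hN : c.Sub N) (x : X) : c.nq N 0 x ≤ 1 :=
  nq_min zero_le_one fun v hv => by rw [S.zero, c.zero x v hv, one_mul]

/-- mean growth of the norms below the top exponent -/
theorem Sub.int_lg [IsProbabilityMeasure μ] (hN : c.Sub N) {a : Γ} {r : ℝ}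
    (h : ∀ᵐ x ∂μ, ¬ c.E x ≤ c.Fw N a r x) {m : ℕ} (hm : 0 < m) :
    r * m ≤ ∫ x, c.lg N (m • a) x ∂μ := by
  have key := Pool.Agent.P.MP_eeb913_an.U.erg_max (S.mp (m • a))
    ((hN.lg_meas (m • a)).sub_const (r * m)) ((hN.lg_int _).sub (integrable_const _)) ?_
  · rwa [integral_sub (hN.lg_int _) (integrable_const _), integral_const, probReal_univ, one_smul,
      sub_nonneg] at key
  filter_upwards [h] with x hx
  by_contra hn
  push Not at hn
  refine hx fun v hv => ⟨hv, Real.exp ((c.K a + |r|) * m) * qn (N x) v, fun n => ?_⟩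
  have h1 : ∀ j : ℕ, c.nq N (j • m • a) x ≤
      Real.exp (birkhoffSum (S.act (m • a)) (c.lg N (m • a)) j x) := by
    intro j
    induction j with
    | zero => simpa using hN.nq_zero_le x
    | succ j ih =>
      rw [succ_nsmul', birkhoffSum_succ, Real.exp_add, mul_comm, S.iter]
      exact (hN.nq_add _ _ x).trans
        (mul_le_mul (Real.le_exp_log _) ih (nq_nonneg _ _) (Real.exp_pos _).le)
  have h2 := hn (n / m)
  simp only [birkhoffSum, Finset.sum_sub_distrib, Finset.sum_const, Finset.card_range,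
    nsmul_eq_mul, sub_nonpos] at h2
  have h3 := (h1 (n / m)).trans (Real.exp_le_exp.2 h2)
  have e : n • a = (n % m) • a + (n / m) • m • a := by
    rw [smul_smul, ← add_smul, Nat.mod_add_div']
  have e2 : (n : ℝ) = (n % m : ℕ) + (n / m : ℕ) * m := by
    exact_mod_cast (Nat.mod_add_div' n m).symm
  have h4 : ((n % m : ℕ) : ℝ) ≤ m := by exact_mod_cast (Nat.mod_lt n hm).le
  have h5 : (0 : ℝ) ≤ (n % m : ℕ) := Nat.cast_nonneg _
  rw [e]
  refine (hN.qbound_pow a _ _ hv).trans ((mul_le_mul_of_nonneg_left ((hN.nq_le _ hv).trans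
    (mul_le_mul_of_nonneg_right h3 (qn_nonneg _ _))) (Real.exp_pos _).le).trans ?_)
  rw [← mul_assoc, ← Real.exp_add, mul_right_comm, ← Real.exp_add]
  refine mul_le_mul_of_nonneg_right (Real.exp_le_exp.2 ?_) (qn_nonneg _ _)
  rw [e2]
  nlinarith [mul_le_mul_of_nonneg_left h4 (c.K_nonneg a), mul_le_mul_of_nonneg_left h4 (abs_nonneg r),
    mul_le_mul_of_nonneg_right (neg_abs_le r) h5]

/-- good times give a backward contracting vector -/
theorem Sub.back_vec (hN : c.Sub N) {a : Γ} {r : ℝ} {x : X} (hx : ¬ c.E x ≤ N x)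
    (h : ∃ᶠ n : ℕ in atTop, ∀ j ≤ n,
      c.lg N ((n - j) • a) (S.act (n • (-a)) x) - r * (n - j : ℕ) ≤
        c.lg N (n • a) (S.act (n • (-a)) x) - r * n) : ¬ c.Fw N (-a) (-r) x ≤ N x := by
  obtain ⟨t, ht⟩ := NormedField.exists_one_lt_norm k
  have key : ∀ n : ℕ, (∀ j ≤ n, c.lg N ((n - j) • a) (S.act (n • (-a)) x) - r * (n - j : ℕ) ≤
      c.lg N (n • a) (S.act (n • (-a)) x) - r * n) → ∃ w ∈ c.E x, ‖w‖ ≤ 1 ∧ 1 / ‖t‖ ≤ qn (N x) w ∧
      ∀ j ≤ n, qn (N (S.act (j • (-a)) x)) (c.A (j • (-a)) x w) ≤ 2 * Real.exp (-r * j) := by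
    intro n hn
    set y := S.act (n • (-a)) x with hy
    have hyx : S.act (n • a) y = x := by rw [hy, neg_nsmul, S.act_neg]
    have hyE : ¬ c.E y ≤ N y := c.sub_E.not_le_act hN _ hx
    have hp : ∀ s, 0 < c.nq N s y := fun s => (Real.exp_pos _).trans_le (hN.exp_le_nq s hyE)
    obtain ⟨v, hv, hlt⟩ : ∃ v ∈ c.E y, c.nq N (n • a) y / 2 * qn (N y) v <
        qn (N (S.act (n • a) y)) (c.A (n • a) y v) := by
      by_contra hc
      push Not at hc
      linarith [nq_min (half_pos (hp (n • a))).le hc, hp (n • a)]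
    have hw0 : c.A (n • a) y v ∈ c.E x := hyx ▸ c.map _ _ _ hv
    rw [hyx] at hlt
    obtain ⟨u, hu, eu⟩ := qn_exists (N x) (c.A (n • a) y v)
    have hpos : 0 < qn (N x) (c.A (n • a) y v) :=
      (mul_nonneg (half_pos (hp _)).le (qn_nonneg _ _)).trans_lt hlt
    obtain ⟨d, -, d1, d2, -⟩ := rescale_to_shell ht one_pos
      (x := c.A (n • a) y v - u) (norm_pos_iff.1 (eu ▸ hpos))
    have e1 : qn (N x) (d • (c.A (n • a) y v - u)) = ‖d • (c.A (n • a) y v - u)‖ := by
      rw [qn_smul, qn_sub_mem hu, norm_smul, eu]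
    refine ⟨_, Submodule.smul_mem _ d (sub_mem hw0 (hN.le x hu)), d1.le, e1 ▸ d2, fun j hj => ?_⟩
    have e2 : (n - j) • a = j • (-a) + n • a := by
      rw [neg_nsmul, neg_add_eq_sub, eq_sub_iff_add_eq, ← add_smul, Nat.sub_add_cancel hj]
    have h1 := hN.nq_le ((n - j) • a) hv
    have h2 := hn j hj
    unfold lg at h2
    rw [Nat.cast_sub hj] at h2
    have h3 : c.nq N ((n - j) • a) y ≤ c.nq N (n • a) y * Real.exp (-r * j) := by
      rw [← Real.exp_log (hp _), ← Real.exp_log (hp (n • a)), ← Real.exp_add, Real.exp_le_exp]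
      linarith
    rw [e2] at h1 h3
    rw [c.add _ _ _ _ hv, S.add, hyx] at h1
    rw [norm_smul, eu] at d1
    rw [map_smul, qn_smul, map_sub, qn_sub_mem (hN.inv _ x u hu)]
    have h4 := h1.trans (mul_le_mul_of_nonneg_right h3 (qn_nonneg _ _))
    have h5 : c.nq N (n • a) y * Real.exp (-r * j) * qn (N y) v ≤
        qn (N x) (c.A (n • a) y v) * (2 * Real.exp (-r * j)) := by
      nlinarith [Real.exp_pos (-r * j)]
    refine (mul_le_mul_of_nonneg_left (h4.trans h5) (norm_nonneg d)).trans ?_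
    rw [← mul_assoc]
    exact mul_le_of_le_one_left (by positivity) d1.le
  obtain ⟨φ, hφ, h1⟩ := extraction_of_frequently_atTop h
  choose w w1 w2 w3 w4 using fun i => key (φ i) (h1 i)
  obtain ⟨v, -, ψ, hψ, hl⟩ := (isCompact_closedBall (0 : V) 1).tendsto_subseq
    (x := w) fun i => mem_closedBall_zero_iff.2 (w2 i)
  intro hle
  have hv : v ∈ c.Fw N (-a) (-r) x := by
    refine ⟨(c.E x).closed_of_finiteDimensional.mem_of_tendsto hl
      (Eventually.of_forall fun i => w1 _), 2, fun j => ?_⟩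
    refine le_of_tendsto ((((qn_cont _).comp (c.A _ x).continuous).tendsto v).comp hl) ?_
    filter_upwards [eventually_ge_atTop j] with i hi
    exact w4 _ j (hi.trans ((hψ.id_le i).trans (hφ.id_le _)))
  have h2 : 1 / ‖t‖ ≤ qn (N x) v :=
    ge_of_tendsto' (((qn_cont _).tendsto v).comp hl) fun i => w3 _
  rw [qn_eq_zero.2 (hle hv)] at h2
  exact absurd h2 (not_le.2 (by positivity))

theorem Sub.back_ae [IsProbabilityMeasure μ] (hN : c.Sub N) {a : Γ} {r r' : ℝ} (hr : r < r')
    (hne : ∀ᵐ x ∂μ, ¬ c.E x ≤ N x) (h : ∀ᵐ x ∂μ, ¬ c.E x ≤ c.Fw N a r' x) :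
    ∀ᵐ x ∂μ, ¬ c.Fw N (-a) (-r) x ≤ N x := by
  refine ((hN.Fw (-a) (-r)).ae_or hN).resolve_right fun hc => ?_
  refine good_times (S.mp (-a)) (u := fun n x => c.lg N (n • a) (S.act (n • (-a)) x) - r * n)
    (fun n => ((hN.lg_meas _).comp (S.meas _)).sub_const _)
    (fun n => ((S.mp _).integrable_comp_of_integrable (hN.lg_int _)).sub (integrable_const _))
    (B := c.K a + |r|) (add_nonneg (c.K_nonneg a) (abs_nonneg r)) (sub_pos.2 hr)
    (fun x => ?_) (fun n x => ?_) (fun n => ?_) ?_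
  · simpa [lg] using Real.log_nonpos (nq_nonneg _ _) (hN.nq_zero_le _)
  · have := hN.lg_add a (n • a) (S.act ((n + 1) • (-a)) x)
    rw [← succ_nsmul'] at this
    simp only [← S.add, ← succ_nsmul, Nat.cast_succ]
    linarith [neg_abs_le r]
  · have hi : Integrable (fun x => c.lg N (n • a) (S.act (n • (-a)) x)) μ :=
      (S.mp _).integrable_comp_of_integrable (hN.lg_int _)
    rw [integral_sub hi (integrable_const _), integral_const, probReal_univ, one_smul,
      Pool.Agent.P.MP_eeb913_an.U.erg_comp (S.mp _) (hN.lg_meas _)]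
    rcases n.eq_zero_or_pos with rfl | hn
    · have : ∀ᵐ x ∂μ, 0 ≤ c.lg N (0 • a) x := by
        filter_upwards [hne] with x hx
        obtain ⟨v, hv, hn⟩ := SetLike.not_le_iff_exists.1 hx
        have := hN.nq_le (0 • a) hv
        rw [zero_smul, S.zero, c.zero x v hv, le_mul_iff_one_le_left (qn_pos hn)] at this
        rw [zero_smul]
        exact Real.log_nonneg this
      simpa using integral_nonneg_of_ae this
    · linarith [hN.int_lg h hn]
  · filter_upwards [hc, hne] with x hx1 hx2 hf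
    refine hN.back_vec hx2 (hf.mono fun n hn j hj => ?_) hx1
    have := hn j hj
    rwa [S.iter, ← S.add, ← add_smul, Nat.sub_add_cancel hj] at this

/-- the top exponent modulo `N` -/
theorem Sub.top [IsProbabilityMeasure μ] (hN : c.Sub N) (a : Γ) (hne : ∀ᵐ x ∂μ, ¬ c.E x ≤ N x) :
    ∃ l : ℝ, (∀ r, l < r → ∀ᵐ x ∂μ, c.E x ≤ c.Fw N a r x) ∧
      ∀ᵐ x ∂μ, ¬ c.Le N (-a) (-l) x ≤ N x := by
  let R : Set ℝ := {r | ∀ᵐ x ∂μ, c.E x ≤ c.Fw N a r x}
  have hR : R.Nonempty := ⟨c.K a, ae_of_all _ fun x v hv => ⟨hv, qn (N x) v, fun n => by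
    have := hN.qbound_pow a n 0 hv
    rwa [add_zero, S.zero, c.zero x v hv, mul_comm] at this⟩⟩
  have hb : BddBelow R := by
    refine ⟨-c.K (-a), fun r hr => not_lt.1 fun hlt => ?_⟩
    obtain ⟨x, hx1, hx2⟩ := (hne.and hr).exists
    obtain ⟨v, hv, hn⟩ := SetLike.not_le_iff_exists.1 hx1
    obtain ⟨M, hM⟩ := (hx2 hv).2
    have h1 : ∀ n : ℕ, qn (N x) v ≤ M * Real.exp (r + c.K (-a)) ^ n := fun n => by
      have := hN.qbound_pow (-a) n (n • a) hv
      rw [neg_nsmul, neg_add_cancel, S.zero, c.zero x v hv] at this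
      refine this.trans ((mul_le_mul_of_nonneg_left (hM n) (Real.exp_pos _).le).trans_eq ?_)
      rw [← Real.exp_nat_mul, mul_left_comm, ← Real.exp_add]
      congr 2; ring
    have h2 := (tendsto_pow_atTop_nhds_zero_of_lt_one (Real.exp_pos (r + c.K (-a))).le
      (Real.exp_lt_one_iff.2 (by linarith))).const_mul M
    rw [mul_zero] at h2
    exact absurd (ge_of_tendsto' h2 h1) (not_le.2 (qn_pos hn))
  refine ⟨sInf R, fun r hr => ?_, ?_⟩
  · obtain ⟨r', h1, h2⟩ := exists_lt_of_csInf_lt hR hr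
    have h3 : ∀ᵐ x ∂μ, c.E x ≤ c.Fw N a r' x := h1
    exact h3.mono fun x hx => hx.trans (Fw_mono a h2.le x)
  · have key : ∀ j : ℕ, ∀ᵐ x ∂μ, ¬ c.Fw N (-a) (-sInf R + 1 / ((j : ℝ) + 1)) x ≤ N x := by
      intro j
      have h0 : (0 : ℝ) < 1 / ((j : ℝ) + 1) := Nat.one_div_pos_of_nat
      have := hN.back_ae (a := a) (r := sInf R - 1 / ((j : ℝ) + 1))
        (r' := sInf R - 1 / ((j : ℝ) + 1) / 2) (by linarith) hne
        ((c.sub_E.ae_or (hN.Fw a _)).resolve_right fun hc => by
          have := csInf_le hb hc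
          linarith)
      rwa [neg_sub, sub_eq_neg_add] at this
    filter_upwards [ae_all_iff.2 key] with x hx hle
    let f : ℕ →o (Submodule k V)ᵒᵈ := ⟨fun j => OrderDual.toDual
      (c.Fw N (-a) (-sInf R + 1 / ((j : ℝ) + 1)) x), fun i j hij => Fw_mono _
        (add_le_add le_rfl (Nat.one_div_le_one_div hij)) x⟩
    obtain ⟨n, hn⟩ := IsArtinian.monotone_stabilizes f
    refine hx n (le_trans (le_iInf fun j => ?_) hle)
    rcases le_total n j with h | h
    · exact (congrArg OrderDual.ofDual (hn j h)).le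
    · exact f.monotone h

end Coc

end Pool.Agent.P.MP_d483fb_an.Os

end

end

section

open MeasureTheory Filter Topology Set

set_option linter.unusedSectionVars false
set_option linter.unusedVariables false
set_option linter.deprecated false

noncomputable section

namespace Pool.Agent.P.MP_d483fb_an.Os

variable {k Γ X V : Type} [NontriviallyNormedField k] [CompleteSpace k] [SeminormedAddCommGroup Γ]
  [MeasurableSpace X] {μ : Measure X} [NormedAddCommGroup V] [NormedSpace k V]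
  [FiniteDimensional k V] [ProperSpace V]

/-- coordinates on the acting group: a lattice of bounded covolume (covers `ℤ`, `ℤ^m`, `ℝ^m`) -/
structure Gen (Γ : Type) [SeminormedAddCommGroup Γ] where
  m : ℕ
  a : Fin m → Γ
  l : Γ →+ (Fin m → ℝ)
  R : ℝ
  l_a : ∀ j, l (a j) = Pi.single j 1
  l_le : ∀ s j, |l s j| ≤ R * ‖s‖
  rem_le : ∀ s, ‖s - ∑ j, ⌊l s j⌋ • a j‖ ≤ R

/-- the data given by the multiplicative ergodic theorem -/
structure Ose {S : Sys Γ X μ} (c : Coc S k V) (ι : Type) [Fintype ι] where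
  D : ι → X → Submodule k V
  P : ι → X → V →L[k] V
  lam : ι → Γ →+ ℝ
  X0 : Set X
  B : ℝ
  d : ι → ℕ
  lam_inj : Function.Injective lam
  lam_le : ∀ i s, |lam i s| ≤ B * ‖s‖
  B_nonneg : 0 ≤ B
  sub : ∀ i, c.Sub (D i)
  measP : ∀ i, StronglyMeasurable (P i)
  meas0 : MeasurableSet X0
  ae0 : ∀ᵐ x ∂μ, x ∈ X0
  inv0 : ∀ s, ∀ x ∈ X0, S.act s x ∈ X0
  dec : ∀ x ∈ X0, Dec (fun i => D i x) ⊤
  d_pos : ∀ i, 0 < d i
  rank : ∀ x ∈ X0, ∀ i, Module.finrank k (D i x) = d i
  P_mem : ∀ x ∈ X0, ∀ i v, P i x v ∈ D i x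
  P_sum : ∀ x ∈ X0, ∀ v, ∑ i, P i x v = v
  P_self : ∀ x ∈ X0, ∀ i, ∀ v ∈ D i x, P i x v = v
  P_other : ∀ x ∈ X0, ∀ i j, i ≠ j → ∀ v ∈ D j x, P i x v = 0
  P_inv : ∀ x ∈ X0, ∀ i s v, P i (S.act s x) (c.A s x v) = c.A s x (P i x v)
  est : ∀ ε : ℝ, 0 < ε → ∃ q : X → ℝ, Measurable q ∧ (∀ x, 0 ≤ q x) ∧
    (∀ s, ∀ x ∈ X0, q (S.act s x) ≤ q x + ε * ‖s‖ + B) ∧
    ∀ x ∈ X0, ∀ i, ‖P i x‖ ≤ Real.exp (q x) ∧ ∀ s, ∀ v ∈ D i x,
      ‖c.A s x v‖ ≤ Real.exp (q x + lam i s + ε * ‖s‖) * ‖v‖ ∧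
      ‖v‖ ≤ Real.exp (q x - lam i s + ε * ‖s‖) * ‖c.A s x v‖

/-- coordinates on the integers -/
def genInt : Gen ℤ where
  m := 1
  a _ := 1
  l := (Pi.constAddMonoidHom (Fin 1) ℝ).comp (Int.castAddHom ℝ)
  R := 1
  l_a j := by
    funext i
    rw [Subsingleton.elim i j]
    simp
  l_le s j := by simp [Int.norm_eq_abs]
  rem_le s := by simp

theorem exists_gen (W : Type) [NormedAddCommGroup W] [NormedSpace ℝ W] [FiniteDimensional ℝ W] :
    Nonempty (Gen W) := by
  let b := Module.finBasis ℝ W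
  let l := LinearMap.toContinuousLinearMap b.equivFun.toLinearMap
  refine ⟨⟨_, b, b.equivFun.toLinearMap.toAddMonoidHom, ‖l‖ + ∑ j, ‖b j‖, fun j => ?_,
    fun s j => ?_, fun s => ?_⟩⟩
  · funext i
    simp [Pi.single_apply, eq_comm]
  · refine ((norm_le_pi_norm (l s) j).trans (l.le_opNorm s)).trans
      (mul_le_mul_of_nonneg_right (le_add_of_nonneg_right ?_) (norm_nonneg s))
    exact Finset.sum_nonneg fun j _ => norm_nonneg _
  · have e : s - ∑ j, ⌊b.equivFun s j⌋ • b j = ∑ j, Int.fract (b.equivFun s j) • b j := by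
      conv_lhs => rw [← b.sum_equivFun s]
      rw [b.sum_equivFun, sub_eq_iff_eq_add, ← Finset.sum_add_distrib]
      conv_lhs => rw [← b.sum_equivFun s]
      refine Finset.sum_congr rfl fun j _ => ?_
      rw [← Int.cast_smul_eq_zsmul ℝ, ← add_smul, Int.fract_add_floor]
    refine le_trans (le_of_eq (congrArg norm e)) ((norm_sum_le _ _).trans
      (le_add_of_nonneg_of_le (norm_nonneg _) (Finset.sum_le_sum fun j _ => ?_)))
    rw [norm_smul, Real.norm_eq_abs, abs_of_nonneg (Int.fract_nonneg _)]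
    exact mul_le_of_le_one_left (norm_nonneg _) (Int.fract_lt_one _).le

/-- on a real vector space the exponents are continuous linear forms -/
def Ose.lamL {W : Type} [NormedAddCommGroup W] [NormedSpace ℝ W] {S : Sys W X μ} {c : Coc S k V}
    {ι : Type} [Fintype ι] (o : Ose c ι) (i : ι) : W →L[ℝ] ℝ :=
  (o.lam i).toRealLinearMap (AddMonoidHomClass.continuous_of_bound (o.lam i) o.B (o.lam_le i))

theorem Ose.lamL_apply {W : Type} [NormedAddCommGroup W] [NormedSpace ℝ W] {S : Sys W X μ}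
    {c : Coc S k V} {ι : Type} [Fintype ι] (o : Ose c ι) (i : ι) (s : W) :
    o.lamL i s = o.lam i s := rfl

end Pool.Agent.P.MP_d483fb_an.Os

end

end

section

open MeasureTheory Filter Topology Set

set_option linter.unusedSectionVars false
set_option linter.unusedVariables false
set_option linter.deprecated false

noncomputable section

namespace Pool.Agent.P.MP_d483fb_an.Os

variable {k Γ X V : Type} [NontriviallyNormedField k] [CompleteSpace k] [SeminormedAddCommGroup Γ]
  [MeasurableSpace X] {μ : Measure X} [NormedAddCommGroup V] [NormedSpace k V]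
  [FiniteDimensional k V] [ProperSpace V]

/-- the data given by the multiplicative ergodic theorem for a cocycle `A` on the trivial bundle -/
structure OseA (S : Sys Γ X μ) (A : Γ → X → V →L[k] V) (ι : Type) [Fintype ι] where
  D : ι → X → Submodule k V
  P : ι → X → V →L[k] V
  lam : ι → Γ →+ ℝ
  X0 : Set X
  B : ℝ
  d : ι → ℕ
  lam_inj : Function.Injective lam
  lam_le : ∀ i s, |lam i s| ≤ B * ‖s‖
  B_nonneg : 0 ≤ B
  measD : ∀ i, MSub (D i)
  invD : ∀ i s x, ∀ v ∈ D i x, A s x v ∈ D i (S.act s x)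
  measP : ∀ i, StronglyMeasurable (P i)
  meas0 : MeasurableSet X0
  ae0 : ∀ᵐ x ∂μ, x ∈ X0
  inv0 : ∀ s, ∀ x ∈ X0, S.act s x ∈ X0
  dec : ∀ x ∈ X0, Dec (fun i => D i x) ⊤
  d_pos : ∀ i, 0 < d i
  rank : ∀ x ∈ X0, ∀ i, Module.finrank k (D i x) = d i
  P_mem : ∀ x ∈ X0, ∀ i v, P i x v ∈ D i x
  P_sum : ∀ x ∈ X0, ∀ v, ∑ i, P i x v = v
  P_self : ∀ x ∈ X0, ∀ i, ∀ v ∈ D i x, P i x v = v
  P_other : ∀ x ∈ X0, ∀ i j, i ≠ j → ∀ v ∈ D j x, P i x v = 0
  P_inv : ∀ x ∈ X0, ∀ i s v, P i (S.act s x) (A s x v) = A s x (P i x v)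
  est : ∀ ε : ℝ, 0 < ε → ∃ q : X → ℝ, Measurable q ∧ (∀ x, 0 ≤ q x) ∧
    (∀ s, ∀ x ∈ X0, q (S.act s x) ≤ q x + ε * ‖s‖ + B) ∧
    ∀ x ∈ X0, ∀ i, ‖P i x‖ ≤ Real.exp (q x) ∧ ∀ s, ∀ v ∈ D i x,
      ‖A s x v‖ ≤ Real.exp (q x + lam i s + ε * ‖s‖) * ‖v‖ ∧
      ‖v‖ ≤ Real.exp (q x - lam i s + ε * ‖s‖) * ‖A s x v‖

/-- a cocycle whose norm is controlled by a height function with bounded increments -/
structure TCoc (S : Sys Γ X μ) (A : Γ → X → V →L[k] V) (h : X → ℝ) (L : ℝ) : Prop where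
  zero : ∀ x v, A 0 x v = v
  add : ∀ s t x v, A (s + t) x v = A s (S.act t x) (A t x v)
  bound : ∀ s x v, ‖A s x v‖ ≤ Real.exp (L * (‖s‖ + 1) + h x) * ‖v‖
  L_nonneg : 0 ≤ L
  measH : Measurable h
  h_nonneg : ∀ x, 0 ≤ h x
  h_lip : ∀ s x, h (S.act s x) ≤ h x + L * (‖s‖ + 1)

/-- on a real vector space the exponents are continuous linear forms -/
def OseA.lamL {W : Type} [NormedAddCommGroup W] [NormedSpace ℝ W] {S : Sys W X μ}
    {A : W → X → V →L[k] V} {ι : Type} [Fintype ι] (o : OseA S A ι) (i : ι) : W →L[ℝ] ℝ :=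
  (o.lam i).toRealLinearMap (AddMonoidHomClass.continuous_of_bound (o.lam i) o.B (o.lam_le i))

theorem OseA.lamL_apply {W : Type} [NormedAddCommGroup W] [NormedSpace ℝ W] {S : Sys W X μ}
    {A : W → X → V →L[k] V} {ι : Type} [Fintype ι] (o : OseA S A ι) (i : ι) (s : W) :
    o.lamL i s = o.lam i s := rfl

end Pool.Agent.P.MP_d483fb_an.Os

end

end
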