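import Mathlib

section

/-!
Quotients of proper metric spaces by properly acting groups of isometries, and proper norms on
topological groups.
-/

open scoped Topology
open Filter Set Metric

noncomputable section

namespace Pool.Agent.P.MP_d483fb_an.Z

/-- A surjection whose fibres are closed and mutually parallel. -/
structure Par {Z Q : Type} [MetricSpace Z] (q : Z → Q) : Prop where
  surj : Function.Surjective q
  closed : ∀ y, IsClosed (q ⁻¹' {y})
  par : ∀ z z' w, q z = q z' → ∃ w', q w' = q w ∧ dist z' w' = dist z w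

namespace Par

variable {Z Q : Type} [MetricSpace Z] [ProperSpace Z] {q : Z → Q}

/-- The quotient distance. -/
def qd (h : Par q) (x y : Q) : ℝ := infDist (h.surj x).choose (q ⁻¹' {y})

theorem lift (h : Par q) (z : Z) (y : Q) : ∃ w, q w = y ∧ dist z w = h.qd (q z) y := by
  obtain ⟨w, hw, e⟩ := (h.closed y).exists_infDist_eq_dist (h.surj y) (h.surj (q z)).choose
  obtain ⟨w', h1, h2⟩ := h.par _ z w (h.surj (q z)).choose_spec
  exact ⟨w', h1.trans hw, h2.trans e.symm⟩

omit [ProperSpace Z] in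
theorem le (h : Par q) (z w : Z) : h.qd (q z) (q w) ≤ dist z w := by
  obtain ⟨w', h1, h2⟩ := h.par z _ w (h.surj (q z)).choose_spec.symm
  exact (infDist_le_dist_of_mem (show w' ∈ q ⁻¹' {q w} from h1)).trans h2.le

/-- The quotient metric. -/
abbrev metric (h : Par q) : MetricSpace Q where
  dist := h.qd
  dist_self x := by
    obtain ⟨z, rfl⟩ := h.surj x
    exact le_antisymm ((h.le z z).trans (dist_self z).le) infDist_nonneg
  dist_comm x y := by
    have key : ∀ x y, h.qd x y ≤ h.qd y x := fun x y => by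
      obtain ⟨z, rfl⟩ := h.surj y
      obtain ⟨w, rfl, e⟩ := h.lift z x
      rw [← e, dist_comm]
      exact h.le w z
    exact le_antisymm (key x y) (key y x)
  dist_triangle x y u := by
    obtain ⟨z, rfl⟩ := h.surj x
    obtain ⟨w, rfl, e⟩ := h.lift z y
    obtain ⟨v, rfl, e'⟩ := h.lift w u
    rw [← e, ← e']
    exact (h.le z v).trans (dist_triangle _ _ _)
  eq_of_dist_eq_zero {x y} hxy := by
    obtain ⟨z, rfl⟩ := h.surj x
    obtain ⟨w, rfl, e⟩ := h.lift z y
    rw [eq_of_dist_eq_zero (e.trans hxy)]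

end Par

section sub
variable {Z Q : Type} [MetricSpace Z] [MetricSpace Q] {q : Z → Q}

/-- A submetry. -/
structure Subm (q : Z → Q) : Prop where
  surj : Function.Surjective q
  le : ∀ z w, dist (q z) (q w) ≤ dist z w
  lift : ∀ z y, ∃ w, q w = y ∧ dist z w = dist (q z) y

theorem Subm.continuous (h : Subm q) : Continuous q :=
  (LipschitzWith.of_dist_le_mul (K := 1) fun z w => by simpa using h.le z w).continuous

theorem Subm.image_ball (h : Subm q) (z : Z) (r : ℝ) : q '' ball z r = ball (q z) r := by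
  ext y
  constructor
  · rintro ⟨w, hw, rfl⟩
    exact (h.le w z).trans_lt hw
  · intro hy
    obtain ⟨w, rfl, e⟩ := h.lift z y
    exact ⟨w, by rwa [mem_ball, dist_comm, e, dist_comm], rfl⟩

theorem Subm.image_closedBall (h : Subm q) (z : Z) (r : ℝ) :
    q '' closedBall z r = closedBall (q z) r := by
  ext y
  constructor
  · rintro ⟨w, hw, rfl⟩
    exact (h.le w z).trans hw
  · intro hy
    obtain ⟨w, rfl, e⟩ := h.lift z y
    exact ⟨w, by rwa [mem_closedBall, dist_comm, e, dist_comm], rfl⟩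

theorem Subm.isOpenMap (h : Subm q) : IsOpenMap q := by
  refine IsOpenMap.of_nhds_le fun z => ?_
  intro s hs
  obtain ⟨r, hr, h1⟩ := Metric.mem_nhds_iff.mp (show q ⁻¹' s ∈ 𝓝 z from hs)
  refine mem_of_superset (ball_mem_nhds _ hr) ?_
  rw [← h.image_ball]
  exact image_subset_iff.mpr h1

theorem Subm.isOpenQuotientMap (h : Subm q) : IsOpenQuotientMap q :=
  ⟨h.surj, h.continuous, h.isOpenMap⟩

theorem Subm.properSpace [ProperSpace Z] (h : Subm q) : ProperSpace Q :=
  ⟨fun x r => by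
    obtain ⟨z, rfl⟩ := h.surj x
    rw [← h.image_closedBall]
    exact (isCompact_closedBall z r).image h.continuous⟩

end sub

theorem Par.subm {Z Q : Type} [MetricSpace Z] [ProperSpace Z] {q : Z → Q} (h : Par q) :
    @Subm Z Q _ h.metric q :=
  @Subm.mk Z Q _ h.metric q h.surj h.le h.lift

/-- A proper geodesic norm on a topological group with exponential distortion under
conjugation and polynomial covering numbers at small scales. -/
structure Nm (G : Type) [Group G] [TopologicalSpace G] where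
  len : G → ℝ
  one : len 1 = 0
  inv : ∀ g, len g⁻¹ = len g
  mul : ∀ g h, len (g * h) ≤ len g + len h
  eq_one : ∀ g, len g = 0 → g = 1
  cont : Continuous len
  cpt : ∀ R, IsCompact {g | len g ≤ R}
  conj : ∀ g h, len (g * h * g⁻¹) ≤ Real.exp (2 * len g) * len h
  split : ∀ g s t, 0 ≤ s → 0 ≤ t → len g ≤ s + t → ∃ u v, len u ≤ s ∧ len v ≤ t ∧ g = u * v
  cover : ∃ (C : ℝ) (d : ℕ), ∀ δ : ℝ, 0 < δ → δ ≤ 1 → ∃ F : Finset G, (F.card : ℝ) ≤ C / δ ^ d ∧
    ∀ g, len g ≤ 1 → ∃ f ∈ F, len (g * f⁻¹) ≤ δ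

namespace Nm

variable {G : Type} [Group G] [TopologicalSpace G] (N : Nm G)

theorem nonneg (g : G) : 0 ≤ N.len g := by
  have := N.mul g g⁻¹
  rw [mul_inv_cancel, N.one, N.inv] at this
  linarith

theorem swap (g h : G) : N.len (g * h⁻¹) = N.len (h * g⁻¹) := by
  rw [← N.inv, mul_inv_rev, inv_inv]

theorem mul3 (g h k : G) : N.len (g * h * k) ≤ N.len g + N.len h + N.len k :=
  (N.mul _ _).trans (add_le_add (N.mul g h) le_rfl)

theorem abs_sub (g h : G) : |N.len g - N.len h| ≤ N.len (g * h⁻¹) := by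
  have h1 := N.mul (g * h⁻¹) h
  have h2 := N.mul (h * g⁻¹) g
  rw [inv_mul_cancel_right] at h1 h2
  rw [N.swap h g] at h2
  exact abs_sub_le_iff.mpr ⟨by linarith, by linarith⟩

theorem ball_subset [T2Space G] {U : Set G} (hU : U ∈ 𝓝 (1 : G)) :
    ∃ r : ℝ, 0 < r ∧ ∀ g, N.len g < r → g ∈ U := by
  obtain ⟨V, hV, hVo, h1⟩ := mem_nhds_iff.mp hU
  have hK : IsCompact ({g | N.len g ≤ 1} \ V) := (N.cpt 1).diff hVo
  rcases ({g | N.len g ≤ 1} \ V).eq_empty_or_nonempty with he | hne
  · refine ⟨1, one_pos, fun g hg => hV ?_⟩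
    by_contra hg'
    exact (he ▸ (⟨hg.le, hg'⟩ : g ∈ {g | N.len g ≤ 1} \ V) : g ∈ (∅ : Set G))
  · obtain ⟨g₀, hg₀, hmin⟩ := hK.exists_isMinOn hne N.cont.continuousOn
    have hp : 0 < N.len g₀ := (N.nonneg g₀).lt_of_ne fun e =>
      hg₀.2 (by rw [N.eq_one g₀ e.symm]; exact h1)
    refine ⟨N.len g₀, hp, fun g hg => hV ?_⟩
    by_contra hg'
    exact absurd (hmin ⟨hg.le.trans hg₀.1, hg'⟩) (not_le.mpr hg)

/-- The group with the right invariant metric of the norm. -/
def Gm (_N : Nm G) : Type := G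

variable [IsTopologicalGroup G] [T2Space G]

instance : MetricSpace N.Gm :=
  MetricSpace.ofDistTopology (α := G) (fun g h => N.len (g * h⁻¹))
    (fun g => by rw [mul_inv_cancel, N.one]) N.swap
    (fun g h k => by
      have := N.mul (g * h⁻¹) (h * k⁻¹)
      rwa [mul_assoc, inv_mul_cancel_left] at this)
    (fun s => by
      constructor
      · intro hs g hg
        have h1 : (fun u => u⁻¹ * g) ⁻¹' s ∈ 𝓝 (1 : G) :=
          (hs.preimage (by fun_prop)).mem_nhds (by simpa using hg)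
        obtain ⟨r, hr, h2⟩ := N.ball_subset h1
        exact ⟨r, hr, fun h hh => by simpa using h2 _ hh⟩
      · intro hs
        refine isOpen_iff_mem_nhds.mpr fun g hg => ?_
        obtain ⟨r, hr, h2⟩ := hs g hg
        have h1 : IsOpen {h : G | N.len (g * h⁻¹) < r} :=
          isOpen_lt (N.cont.comp (by fun_prop)) continuous_const
        exact mem_of_superset (h1.mem_nhds (by simpa [N.one] using hr)) h2)
    (fun g h e => mul_inv_eq_one.mp (N.eq_one _ e))

theorem dist_Gm (g h : G) : @dist N.Gm _ g h = N.len (g * h⁻¹) := rfl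

instance : ProperSpace N.Gm :=
  ⟨fun g r => by
    have h : IsCompact ((fun u : G => u * (show G from g)) '' {u | N.len u ≤ r}) :=
      (N.cpt r).image (by fun_prop)
    have e : (fun u : G => u * (show G from g)) '' {u | N.len u ≤ r} =
        {u : G | N.len (u * (show G from g)⁻¹) ≤ r} := by
      ext u
      constructor
      · rintro ⟨v, hv, rfl⟩
        show N.len (v * (show G from g) * (show G from g)⁻¹) ≤ r
        rwa [mul_inv_cancel_right]
      · intro hu
        exact ⟨u * (show G from g)⁻¹, hu, inv_mul_cancel_right _ _⟩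
    rw [e] at h
    exact h⟩

include N in
theorem polish : PolishSpace G := inferInstanceAs (PolishSpace N.Gm)

include N in
theorem locallyCompact : LocallyCompactSpace G := inferInstanceAs (LocallyCompactSpace N.Gm)

end Nm

end Pool.Agent.P.MP_d483fb_an.Z

end

end

section

/-!
The quotient of a normed group by a discrete subgroup: metric, height, Borel section, cocycle.
-/

open scoped Topology
open Filter Set Metric MeasureTheory

set_option linter.unusedSectionVars false

noncomputable section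

namespace Pool.Agent.P.MP_d483fb_an.Z

/-- A normed group with a discrete subgroup. -/
structure Lat (G : Type) [Group G] [TopologicalSpace G] extends Nm G where
  Γ : Subgroup G
  disc : DiscreteTopology Γ

namespace Lat

variable {G : Type} [Group G] [TopologicalSpace G] [IsTopologicalGroup G] [T2Space G] (L : Lat G)

instance : DiscreteTopology L.Γ := L.disc

theorem closed : IsClosed (L.Γ : Set G) := Subgroup.isClosed_of_discrete

theorem fin (R : ℝ) : {γ : L.Γ | L.len γ ≤ R}.Finite :=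
  (show IsCompact {γ : L.Γ | L.len γ ≤ R} from
    L.closed.isClosedEmbedding_subtypeVal.isCompact_preimage (L.cpt R)).finite_of_discrete

theorem len_le (g h : G) (γ : G) : L.len γ ≤ L.len g + L.len (g * γ * h) + L.len h := by
  have := L.mul3 g⁻¹ (g * γ * h) h⁻¹
  rwa [L.inv, L.inv, show g⁻¹ * (g * γ * h) * h⁻¹ = γ by group] at this

theorem fin' (g h : G) (R : ℝ) : {γ : L.Γ | L.len (g * γ * h) ≤ R}.Finite :=
  (L.fin (L.len g + R + L.len h)).subset fun γ hγ =>
    (L.len_le g h γ).trans (by have : L.len (g * γ * h) ≤ R := hγ; linarith)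

instance : Countable L.Γ := by
  have h : (univ : Set L.Γ) = ⋃ n : ℕ, {γ : L.Γ | L.len γ ≤ n} := by
    ext γ
    simpa using exists_nat_ge (L.len γ)
  rw [← countable_univ_iff, h]
  exact countable_iUnion fun n => (L.fin n).countable

/-- Nontrivial elements of the lattice are not short. -/
theorem exists_sys : ∃ r : ℝ, 0 < r ∧ ∀ γ ∈ L.Γ, L.len γ < r → γ = 1 := by
  have h : {(1 : L.Γ)} ∈ 𝓝 (1 : L.Γ) := (isOpen_discrete _).mem_nhds rfl
  rw [nhds_subtype, mem_comap] at h
  obtain ⟨U, hU, h1⟩ := h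
  obtain ⟨r, hr, h2⟩ := L.ball_subset hU
  exact ⟨r, hr, fun γ hγ hl => congrArg Subtype.val (h1 (show (⟨γ, hγ⟩ : L.Γ) ∈ _ from h2 γ hl))⟩

/-- The base `G ⧸ Γ`. -/
def B : Type := G ⧸ L.Γ

/-- The quotient map. -/
def pj (g : G) : L.B := (QuotientGroup.mk g : G ⧸ L.Γ)

theorem pj_eq {g h : G} : L.pj g = L.pj h ↔ g⁻¹ * h ∈ L.Γ := QuotientGroup.eq

theorem pj_surj : Function.Surjective L.pj := QuotientGroup.mk_surjective

theorem pj_mul (g : G) (γ : L.Γ) : L.pj (g * γ) = L.pj g :=
  (L.pj_eq.mpr (by simp)).symm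

theorem par : Par (Z := L.Gm) L.pj where
  surj := L.pj_surj
  closed y := by
    obtain ⟨g, rfl⟩ := L.pj_surj y
    have : (L.pj ⁻¹' {L.pj g} : Set G) = (fun u => u⁻¹ * g) ⁻¹' (L.Γ : Set G) := by
      ext u
      exact L.pj_eq
    exact this ▸ (L.closed.preimage (by fun_prop) : IsClosed ((fun u : G => u⁻¹ * g) ⁻¹' _))
  par z z' w h := by
    refine ⟨(show G from w) * ((show G from z)⁻¹ * (show G from z')),
      L.pj_mul w ⟨_, L.pj_eq.mp h⟩, ?_⟩
    rw [L.dist_Gm, L.dist_Gm]
    congr 1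
    group

instance : MetricSpace L.B :=
  L.par.metric.replaceTopology (U := inferInstanceAs (TopologicalSpace (G ⧸ L.Γ))) (by
    let _ := L.par.metric
    have h1 := L.par.subm.isOpenQuotientMap.isQuotientMap.eq_coinduced
    exact (QuotientGroup.isQuotientMap_mk L.Γ).eq_coinduced.trans h1.symm)

theorem subm : Subm (Z := L.Gm) L.pj := ⟨L.par.surj, L.par.le, L.par.lift⟩

instance : ProperSpace L.B := L.subm.properSpace

instance : MeasurableSpace L.B := borel _

instance : BorelSpace L.B := ⟨rfl⟩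

instance : MulAction G L.B := inferInstanceAs (MulAction G (G ⧸ L.Γ))

instance : ContinuousSMul G L.B := inferInstanceAs (ContinuousSMul G (G ⧸ L.Γ))

theorem smul_pj (g h : G) : g • L.pj h = L.pj (g * h) := rfl

theorem continuous_pj : Continuous L.pj := QuotientGroup.continuous_mk

theorem isOpenMap_pj : IsOpenMap L.pj := QuotientGroup.isOpenMap_coe

theorem dist_pj_le (g h : G) : dist (L.pj g) (L.pj h) ≤ L.len (g * h⁻¹) := L.subm.le g h

theorem exists_lift (g : G) (b : L.B) : ∃ h, L.pj h = b ∧ L.len (g * h⁻¹) = dist (L.pj g) b :=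
  L.subm.lift g b

/-- Two points differ by an element whose norm is their distance. -/
theorem exists_smul (b b' : L.B) : ∃ g : G, g • b = b' ∧ L.len g = dist b b' := by
  obtain ⟨u, rfl⟩ := L.pj_surj b
  obtain ⟨h, rfl, e⟩ := L.exists_lift u b'
  exact ⟨h * u⁻¹, by rw [smul_pj, inv_mul_cancel_right], by rw [L.swap, e]⟩

theorem dist_smul_self (g : G) (b : L.B) : dist (g • b) b ≤ L.len g := by
  obtain ⟨u, rfl⟩ := L.pj_surj b
  simpa [smul_pj] using L.dist_pj_le (g * u) u

theorem dist_smul (g : G) (b b' : L.B) :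
    dist (g • b) (g • b') ≤ Real.exp (2 * L.len g) * dist b b' := by
  obtain ⟨u, rfl, e⟩ := L.exists_smul b b'
  have h := L.dist_smul_self (g * u * g⁻¹) (g • b)
  rw [smul_smul, inv_mul_cancel_right, mul_smul, dist_comm] at h
  rw [← e]
  exact h.trans (L.conj g u)

/-- The base point. -/
def o : L.B := L.pj 1

instance : Nonempty L.B := ⟨L.o⟩

theorem smul_o (g : G) : g • L.o = L.pj g := by rw [o, smul_pj, mul_one]

theorem smul_o_eq {g : G} : g • L.o = L.o ↔ g ∈ L.Γ := by
  rw [smul_o, o, eq_comm, pj_eq, inv_one, one_mul]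

/-- The height. -/
def ht (b : L.B) : ℝ := dist b L.o

theorem ht_nonneg (b : L.B) : 0 ≤ L.ht b := dist_nonneg

theorem ht_o : L.ht L.o = 0 := dist_self _

theorem continuous_ht : Continuous L.ht := continuous_id.dist continuous_const

theorem measurable_ht : Measurable L.ht := L.continuous_ht.measurable

theorem ht_pj_le (g : G) : L.ht (L.pj g) ≤ L.len g := by simpa [ht, o] using L.dist_pj_le g 1

theorem ht_le (b b' : L.B) : L.ht b ≤ L.ht b' + dist b b' :=
  (dist_triangle b b' L.o).trans_eq (add_comm _ _)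

theorem ht_smul (g : G) (b : L.B) : L.ht (g • b) ≤ L.ht b + L.len g :=
  (L.ht_le _ b).trans (add_le_add le_rfl (L.dist_smul_self g b))

theorem isCompact_ht (R : ℝ) : IsCompact {b | L.ht b ≤ R} := isCompact_closedBall L.o R

/-- The injectivity radius decays at most exponentially in the height. -/
theorem inj : ∃ r : ℝ, 0 < r ∧ ∀ (g : G) (b : L.B), g • b = b →
    L.len g < r * Real.exp (-2 * L.ht b) → g = 1 := by
  obtain ⟨r, hr, h⟩ := L.exists_sys
  refine ⟨r, hr, fun g b hb hl => ?_⟩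
  obtain ⟨u, rfl, e⟩ := L.exists_smul L.o b
  rw [dist_comm] at e
  have h1 : u⁻¹ * g * u ∈ L.Γ := by
    rw [← smul_o_eq, mul_smul, mul_smul, hb, inv_smul_smul]
  have h2 := L.conj u⁻¹ g
  rw [inv_inv, L.inv, e] at h2
  have h3 : Real.exp (2 * L.ht (u • L.o)) * L.len g < r := by
    have := mul_lt_mul_of_pos_left hl (Real.exp_pos (2 * L.ht (u • L.o)))
    rwa [mul_left_comm, ← Real.exp_add, neg_mul, add_neg_cancel, Real.exp_zero, mul_one] at this
  have h4 := h _ h1 (h2.trans_lt h3)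
  calc g = u * (u⁻¹ * g * u) * u⁻¹ := by group
    _ = 1 := by rw [h4]; group

variable [MeasurableSpace G] [BorelSpace G]

theorem measurable_pj : Measurable L.pj := L.continuous_pj.measurable

theorem exists_sec : ∃ s : L.B → G, Measurable s ∧ (∀ b, L.pj (s b) = b) ∧
    ∀ b, L.len (s b) = L.ht b := by
  have := L.polish
  obtain ⟨e, he⟩ := MeasureTheory.exists_measurableEmbedding_real G
  let Ω : Set G := {g | L.len g = L.ht (L.pj g)}
  have hΩ : MeasurableSet Ω :=
    (isClosed_eq L.cont (L.continuous_ht.comp L.continuous_pj)).measurableSet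
  let F : Set G := Ω ∩ ⋂ γ : L.Γ, {g | g * γ ∈ Ω → e g ≤ e (g * γ)}
  have hF : MeasurableSet F := by
    refine hΩ.inter (MeasurableSet.iInter fun γ => ?_)
    have hm : Measurable fun g : G => g * γ := (continuous_mul_const _).measurable
    exact MeasurableSet.imp (hm hΩ) (measurableSet_le he.measurable (he.measurable.comp hm))
  have hex : ∀ b, ∃ g ∈ F, L.pj g = b := by
    intro b
    obtain ⟨u, rfl, hu⟩ := L.exists_smul L.o b
    rw [dist_comm, smul_o] at hu
    have hfin : {γ : L.Γ | u * γ ∈ Ω}.Finite := (L.fin' u 1 (L.len u)).subset fun γ hγ => by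
      have h1 : L.len (u * γ) = L.ht (L.pj (u * γ)) := hγ
      rw [pj_mul] at h1
      show L.len (u * γ * 1) ≤ L.len u
      rw [mul_one, h1]
      exact L.ht_pj_le u
    obtain ⟨γ, hγ, hmin⟩ := exists_min_image _ (fun γ : L.Γ => e (u * γ)) hfin
      ⟨1, by simpa [Ω, ht] using hu⟩
    refine ⟨u * γ, ⟨hγ, mem_iInter.mpr fun δ hδ => ?_⟩, by rw [pj_mul, smul_o]⟩
    have := hmin (γ * δ) (by simpa [mul_assoc] using hδ)
    simpa [mul_assoc] using this
  have hinj : InjOn L.pj F := by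
    intro g hg h hh hgh
    have h1 := mem_iInter.mp hg.2 ⟨_, L.pj_eq.mp hgh⟩ (by simpa using hh.1)
    have h2 := mem_iInter.mp hh.2 ⟨_, L.pj_eq.mp hgh.symm⟩ (by simpa using hg.1)
    simp only [mul_inv_cancel_left] at h1 h2
    exact he.injective (le_antisymm h1 h2)
  choose s hs hs' using hex
  refine ⟨s, fun A hA => ?_, hs', fun b => by rw [(hs b).1, hs']⟩
  have : s ⁻¹' A = L.pj '' (A ∩ F) := by
    ext b
    constructor
    · exact fun hb => ⟨s b, ⟨hb, hs b⟩, hs' b⟩
    · rintro ⟨g, ⟨h1, h2⟩, rfl⟩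
      show s (L.pj g) ∈ A
      rwa [hinj (hs _) h2 (hs' _)]
  rw [this]
  exact (hA.inter hF).image_of_continuousOn_injOn L.continuous_pj.continuousOn
    (hinj.mono inter_subset_right)

/-- A Borel section by elements of least norm. -/
def sec : L.B → G := L.exists_sec.choose

theorem measurable_sec : Measurable L.sec := L.exists_sec.choose_spec.1

theorem pj_sec (b : L.B) : L.pj (L.sec b) = b := L.exists_sec.choose_spec.2.1 b

theorem len_sec (b : L.B) : L.len (L.sec b) = L.ht b := L.exists_sec.choose_spec.2.2 b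

theorem sec_o : L.sec L.o = 1 := L.eq_one _ (by rw [len_sec, ht_o])

theorem sec_smul_o (b : L.B) : L.sec b • L.o = b := by rw [smul_o, pj_sec]

/-- The lattice part of an element of the group. -/
def fr (g : G) : L.Γ := ⟨(L.sec (L.pj g))⁻¹ * g, L.pj_eq.mp (L.pj_sec _)⟩

theorem sec_mul_fr (g : G) : L.sec (L.pj g) * L.fr g = g := mul_inv_cancel_left _ _

theorem fr_mul (g : G) (γ : L.Γ) : L.fr (g * γ) = L.fr g * γ :=
  Subtype.ext (by simp [fr, pj_mul, mul_assoc])

theorem fr_sec (b : L.B) : L.fr (L.sec b) = 1 := Subtype.ext (by simp [fr, pj_sec])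

theorem fr_coe (γ : L.Γ) : L.fr γ = γ := by
  have := L.fr_mul (L.sec L.o) γ
  rwa [fr_sec, sec_o, one_mul, one_mul] at this

theorem len_fr (g : G) : L.len (L.fr g) ≤ L.ht (L.pj g) + L.len g := by
  have := L.mul (L.sec (L.pj g))⁻¹ g
  rwa [L.inv, len_sec] at this

theorem measurable_fr : Measurable L.fr := by
  have := L.polish
  exact ((L.measurable_sec.comp L.measurable_pj).inv.mul measurable_id).subtype_mk

/-- The return cocycle. -/
def c (g : G) (b : L.B) : L.Γ := L.fr (g * L.sec b)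

theorem pj_mul_sec (g : G) (b : L.B) : L.pj (g * L.sec b) = g • b := by rw [← smul_pj, pj_sec]

theorem sec_mul_c (g : G) (b : L.B) : L.sec (g • b) * L.c g b = g * L.sec b := by
  rw [← pj_mul_sec, c, sec_mul_fr]

theorem coe_c (g : G) (b : L.B) : (L.c g b : G) = (L.sec (g • b))⁻¹ * g * L.sec b := by
  rw [mul_assoc, ← sec_mul_c, inv_mul_cancel_left]

theorem c_one (b : L.B) : L.c 1 b = 1 := by rw [c, one_mul, fr_sec]

theorem c_mul (g h : G) (b : L.B) : L.c (g * h) b = L.c g (h • b) * L.c h b :=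
  Subtype.ext (by simp [coe_c, mul_smul, mul_assoc])

theorem c_inv (g : G) (b : L.B) : L.c g⁻¹ (g • b) = (L.c g b)⁻¹ := by
  rw [eq_inv_iff_mul_eq_one, ← c_mul, inv_mul_cancel, c_one]

theorem c_coe (γ : L.Γ) : L.c γ L.o = γ := by rw [c, sec_o, mul_one, fr_coe]

theorem fr_smul (g h : G) : L.fr (g * h) = L.c g (L.pj h) * L.fr h := by
  rw [c, ← fr_mul, mul_assoc, sec_mul_fr]

theorem len_c (g : G) (b : L.B) : L.len (L.c g b) ≤ L.ht (g • b) + L.len g + L.ht b := by
  have := L.mul3 (L.sec (g • b))⁻¹ g (L.sec b)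
  rwa [L.inv, len_sec, len_sec, ← coe_c] at this

theorem len_c' (g : G) (b : L.B) : L.len (L.c g b) ≤ 2 * (L.len g + L.ht b) := by
  linarith [L.len_c g b, L.ht_smul g b]

theorem measurable_c : Measurable fun z : G × L.B => L.c z.1 z.2 := by
  have := L.polish
  exact L.measurable_fr.comp (measurable_fst.mul (L.measurable_sec.comp measurable_snd))

instance : DiscreteMeasurableSpace L.Γ := ⟨fun s => (isOpen_discrete s).measurableSet⟩

end Lat

end Pool.Agent.P.MP_d483fb_an.Z

end

end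

section

/-! Covering numbers, lattice point counts and measurable cells. -/

open scoped Topology ENNReal Pointwise
open Filter Set Metric MeasureTheory

set_option linter.unusedSectionVars false

noncomputable section

namespace Pool.Agent.P.MP_d483fb_an.Z

/-- Balls around `o` have covering numbers that are exponential in the radius and polynomial in
the scale. -/
def Cov {Z : Type} [PseudoMetricSpace Z] (o : Z) : Prop :=
  ∃ (C : ℝ) (d : ℕ), 0 ≤ C ∧ ∀ R δ : ℝ, 0 ≤ R → 0 < δ → δ ≤ 1 → ∃ F : Finset Z,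
    (F.card : ℝ) ≤ Real.exp (C * (1 + R)) / δ ^ d ∧ ∀ z, dist z o ≤ R → ∃ f ∈ F, dist z f ≤ δ

/-- Polynomial covering numbers. -/
def PCov (M : Type) [PseudoMetricSpace M] : Prop :=
  ∃ (C : ℝ) (d : ℕ), ∀ δ : ℝ, 0 < δ → δ ≤ 1 → ∃ F : Finset M,
    (F.card : ℝ) ≤ C / δ ^ d ∧ ∀ p, ∃ f ∈ F, dist p f ≤ δ

theorem PCov.of_embedding {M E : Type} [PseudoMetricSpace M] [CompactSpace M]
    [NormedAddCommGroup E] [NormedSpace ℝ E] [FiniteDimensional ℝ E] {ι : M → E}
    (hc : Continuous ι) {K : ℝ} (h : ∀ p q, dist p q ≤ K * ‖ι p - ι q‖) : PCov M := by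
  classical
  rcases isEmpty_or_nonempty M with hM | hM
  · exact ⟨0, 0, fun δ _ _ => ⟨∅, by simp, fun p => isEmptyElim p⟩⟩
  let d := Module.finrank ℝ E
  let e : E ≃L[ℝ] (Fin d → ℝ) := (Module.finBasis ℝ E).equivFun.toContinuousLinearEquiv
  obtain ⟨B, hB⟩ := (isCompact_range (e.continuous.comp hc)).isBounded.exists_norm_le
  have hB' : ∀ p i, |e (ι p) i| ≤ B := fun p i =>
    (norm_le_pi_norm (e (ι p)) i).trans (hB _ ⟨p, rfl⟩)
  have hB0 : 0 ≤ B := (norm_nonneg _).trans (hB _ ⟨Classical.arbitrary M, rfl⟩)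
  set K' : ℝ := |K| * ‖(e.symm : (Fin d → ℝ) →L[ℝ] E)‖ + 1 with hK'
  have hK0 : 0 < K' := by positivity
  have hd : ∀ p q, dist p q ≤ K' * ‖e (ι p) - e (ι q)‖ := by
    intro p q
    have h1 := (e.symm : (Fin d → ℝ) →L[ℝ] E).le_opNorm (e (ι p) - e (ι q))
    rw [← map_sub] at h1 ⊢
    simp only [ContinuousLinearEquiv.coe_coe, ContinuousLinearEquiv.symm_apply_apply] at h1
    have h2 : K * ‖ι p - ι q‖ ≤ |K| * ‖ι p - ι q‖ :=
      mul_le_mul_of_nonneg_right (le_abs_self K) (norm_nonneg _)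
    have h3 := mul_le_mul_of_nonneg_left h1 (abs_nonneg K)
    nlinarith [h p q, norm_nonneg (e (ι p - ι q))]
  refine ⟨(2 * (B * K') + 5) ^ d, d, fun δ hδ hδ1 => ?_⟩
  let lab : M → Fin d → ℤ := fun p i => ⌊e (ι p) i * (K' / δ)⌋
  let N : ℕ := ⌈B * (K' / δ)⌉₊ + 1
  let T : Finset (Fin d → ℤ) := Fintype.piFinset fun _ => Finset.Icc (-(N : ℤ)) N
  have hq : 0 < K' / δ := by positivity
  have hN1 : B * (K' / δ) + 1 ≤ N := by
    have := Nat.le_ceil (B * (K' / δ))
    simp only [N]
    push_cast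
    linarith
  have hN2 : (N : ℝ) ≤ B * (K' / δ) + 2 := by
    have := Nat.ceil_lt_add_one (show 0 ≤ B * (K' / δ) by positivity)
    simp only [N]
    push_cast
    linarith
  have hT : ∀ p, lab p ∈ T := by
    intro p
    refine Fintype.mem_piFinset.mpr fun i => Finset.mem_Icc.mpr ?_
    obtain ⟨h1, h2⟩ := abs_le.mp (hB' p i)
    have h3 := mul_le_mul_of_nonneg_right h1 hq.le
    have h4 := mul_le_mul_of_nonneg_right h2 hq.le
    constructor
    · refine Int.le_floor.mpr ?_
      push_cast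
      linarith
    · have := Int.floor_le (e (ι p) i * (K' / δ))
      have h5 : ((lab p i : ℤ) : ℝ) ≤ ((N : ℤ) : ℝ) := by
        push_cast
        simp only [lab]
        linarith
      exact_mod_cast h5
  refine ⟨T.image (Function.invFun lab), ?_, fun p => ⟨Function.invFun lab (lab p),
    Finset.mem_image_of_mem _ (hT p), ?_⟩⟩
  · have h1 : ((T.image (Function.invFun lab)).card : ℝ) ≤ T.card := by
      exact_mod_cast Finset.card_image_le
    have h2 : T.card = (2 * N + 1) ^ d := by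
      simp only [T, Fintype.card_piFinset, Int.card_Icc, Finset.prod_const, Finset.card_univ,
        Fintype.card_fin]
      congr 1
      omega
    refine h1.trans ?_
    rw [h2, ← div_pow]
    push_cast
    refine pow_le_pow_left₀ (by positivity) ?_ d
    rw [le_div_iff₀ hδ]
    have h3 : B * (K' / δ) * δ = B * K' := by field_simp
    nlinarith
  · have h1 : lab (Function.invFun lab (lab p)) = lab p := Function.invFun_eq ⟨p, rfl⟩
    generalize Function.invFun lab (lab p) = q at h1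
    refine (hd p q).trans ?_
    have h2 : ‖e (ι p) - e (ι q)‖ ≤ δ / K' := by
      refine (pi_norm_le_iff_of_nonneg (by positivity)).mpr fun i => ?_
      have h3 := Int.abs_sub_lt_one_of_floor_eq_floor (congrFun h1 i).symm
      rw [← sub_mul, abs_mul, abs_of_pos hq, ← lt_div_iff₀ hq, one_div_div] at h3
      exact h3.le
    rwa [le_div_iff₀' hK0] at h2

theorem Cover_lab {Z : Type} [PseudoMetricSpace Z] [MeasurableSpace Z] [OpensMeasurableSpace Z]
    (F : Finset Z) (hF : F.Nonempty) (δ : ℝ) : ∃ cell : Z → ℕ, Measurable cell ∧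
      (∀ z, cell z + 1 ≤ F.card) ∧ ∀ z z', (∃ f ∈ F, dist z f ≤ δ) → (∃ f ∈ F, dist z' f ≤ δ) →
        cell z = cell z' → dist z z' ≤ 2 * δ := by
  classical
  have hc : 0 < F.card := hF.card_pos
  let f : ℕ → Z := fun i => if h : i < F.card then (F.equivFin.symm ⟨i, h⟩ : Z) else hF.choose
  have hex : ∀ z, ∃ i, dist z (f i) ≤ δ ∨ F.card ≤ i + 1 := fun z => ⟨F.card, Or.inr (by omega)⟩
  have hle : ∀ z, Nat.find (hex z) + 1 ≤ F.card := fun z => by
    have := Nat.find_min' (hex z) (m := F.card - 1) (Or.inr (by omega))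
    omega
  have key : ∀ z, (∃ u ∈ F, dist z u ≤ δ) → dist z (f (Nat.find (hex z))) ≤ δ := by
    rintro z ⟨u, hu, h1⟩
    have hi := (F.equivFin ⟨u, hu⟩).2
    have h2 : f (F.equivFin ⟨u, hu⟩) = u := by simp [f]
    have h3 := Nat.find_min' (hex z) (m := F.equivFin ⟨u, hu⟩) (Or.inl (by rwa [h2]))
    rcases Nat.find_spec (hex z) with h4 | h4
    · exact h4
    · rwa [show Nat.find (hex z) = F.equivFin ⟨u, hu⟩ by omega, h2]
  refine ⟨fun z => Nat.find (hex z), measurable_find hex fun k => ?_, hle,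
    fun z z' h1 h2 e => ?_⟩
  · exact (isClosed_le (continuous_id.dist continuous_const) continuous_const).measurableSet.union
      (MeasurableSet.const _)
  · have h3 := key z h1
    have h4 := key z' h2
    simp only at e
    rw [e] at h3
    linarith [dist_triangle_right z z' (f (Nat.find (hex z')))]

theorem Cover_le_exp {x R : ℝ} (hx : 0 ≤ x) (hR : 0 ≤ R) : x ≤ Real.exp (x * (1 + R)) := by
  have := Real.add_one_le_exp (x * (1 + R))
  nlinarith [mul_nonneg hx hR]

/-- A finite measurable partition of a ball into small pieces. -/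
theorem Cov.exists_part {Z : Type} [PseudoMetricSpace Z] [MeasurableSpace Z]
    [OpensMeasurableSpace Z] {o : Z} (h : Cov o) : ∃ (C : ℝ) (d : ℕ), 0 ≤ C ∧
    ∀ R δ : ℝ, 0 ≤ R → 0 < δ → δ ≤ 1 → ∃ (cell : Z → ℕ), Measurable cell ∧
      (∀ z, (cell z : ℝ) + 1 ≤ Real.exp (C * (1 + R)) / δ ^ d) ∧
      ∀ z z', dist z o ≤ R → dist z' o ≤ R → cell z = cell z' → dist z z' ≤ δ := by
  obtain ⟨C, d, hC, h⟩ := h
  refine ⟨C + 2 ^ d, d, by positivity, fun R δ hR hδ hδ1 => ?_⟩
  obtain ⟨F, h1, h2⟩ := h R (δ / 2) hR (by positivity) (by linarith)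
  have hF : F.Nonempty := by
    obtain ⟨f, hf, -⟩ := h2 o (by simpa using hR)
    exact ⟨f, hf⟩
  obtain ⟨cell, m, b, s⟩ := Cover_lab F hF (δ / 2)
  refine ⟨cell, m, fun z => ?_, fun z z' hz hz' e => ?_⟩
  · have h3 : (cell z : ℝ) + 1 ≤ F.card := by exact_mod_cast b z
    refine (h3.trans h1).trans ?_
    rw [div_pow, div_div_eq_mul_div, add_mul, Real.exp_add]
    exact div_le_div_of_nonneg_right (mul_le_mul_of_nonneg_left
      (Cover_le_exp (by positivity) hR) (Real.exp_pos _).le) (by positivity)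
  · linarith [s z z' (h2 z hz) (h2 z' hz') e]

/-- A countable measurable partition into cells whose size decays exponentially with the
distance to `o`. -/
theorem Cov.exists_cell {Z : Type} [PseudoMetricSpace Z] [MeasurableSpace Z]
    [OpensMeasurableSpace Z] {o : Z} (h : Cov o) {r A : ℝ} (hr : 0 < r) (hA : 0 ≤ A) :
    ∃ (cell : Z → ℕ) (C : ℝ), Measurable cell ∧ 0 ≤ C ∧
      (∀ z, (cell z : ℝ) + 1 ≤ Real.exp (C * (1 + dist z o))) ∧
      ∀ z z', cell z = cell z' → dist z z' ≤ r * Real.exp (-A * dist z o) := by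
  obtain ⟨C, d, hC, h⟩ := h.exists_part
  have hρ : 0 < min r 1 := lt_min hr one_pos
  have hδ : ∀ k : ℕ, min r 1 * Real.exp (-A * (1 + k)) ≤ 1 := fun k =>
    mul_le_one₀ (min_le_right _ _) (Real.exp_pos _).le
      (Real.exp_le_one_iff.mpr (by nlinarith [mul_nonneg hA (Nat.cast_nonneg (α := ℝ) k)]))
  choose c cm cb cs using fun k : ℕ => h (1 + k) (min r 1 * Real.exp (-A * (1 + k)))
    (by positivity) (by positivity) (hδ k)
  have hk : Measurable fun z => ⌊dist z o⌋₊ :=
    Measurable.nat_floor (continuous_id.dist continuous_const).measurable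
  have hc : Measurable fun z => c ⌊dist z o⌋₊ z :=
    (measurable_from_prod_countable_left (f := fun p : Z × ℕ => c p.2 p.1) cm).comp
      (measurable_id.prodMk hk)
  set b : ℝ := ((min r 1) ^ d)⁻¹ with hb
  have hb0 : 0 ≤ b := by positivity
  refine ⟨fun z => Nat.pair ⌊dist z o⌋₊ (c ⌊dist z o⌋₊ z), 2 * (2 * C + d * A + b + 1),
    (measurable_of_countable (fun x : ℕ × ℕ => Nat.pair x.1 x.2)).comp (hk.prodMk hc),
    by positivity, fun z => ?_, fun z z' e => ?_⟩
  · have h1 : (⌊dist z o⌋₊ : ℝ) ≤ dist z o := Nat.floor_le dist_nonneg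
    beta_reduce
    generalize ⌊dist z o⌋₊ = k at h1 ⊢
    have hk0 : (0 : ℝ) ≤ k := Nat.cast_nonneg k
    have h2 : ((Nat.pair k (c k z) : ℕ) : ℝ) + 1 ≤ (((max k (c k z) : ℕ) : ℝ) + 1) ^ 2 := by
      exact_mod_cast Nat.pair_lt_max_add_one_sq k (c k z)
    have h3 : ((max k (c k z) : ℕ) : ℝ) + 1 ≤ Real.exp ((2 * C + d * A + b + 1) * (1 + k)) := by
      have hdA : 0 ≤ (d : ℝ) * A := by positivity
      rcases le_total k (c k z) with h4 | h4
      · rw [max_eq_right h4]
        refine (cb k z).trans ?_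
        rw [mul_pow, ← Real.exp_nat_mul, div_eq_mul_inv, mul_inv, ← hb, ← Real.exp_neg]
        refine (mul_le_mul_of_nonneg_left (mul_le_mul_of_nonneg_right (Cover_le_exp hb0 hk0)
          (Real.exp_pos _).le) (Real.exp_pos _).le).trans ?_
        rw [← Real.exp_add, ← Real.exp_add]
        refine Real.exp_le_exp.mpr ?_
        nlinarith [mul_nonneg hC hk0]
      · rw [max_eq_left h4]
        refine (Real.add_one_le_exp _).trans (Real.exp_le_exp.mpr ?_)
        nlinarith [mul_nonneg hC hk0, mul_nonneg hdA hk0, mul_nonneg hb0 hk0]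
    refine h2.trans ((pow_le_pow_left₀ (by positivity) h3 2).trans ?_)
    rw [← Real.exp_nat_mul]
    refine Real.exp_le_exp.mpr ?_
    have h5 : 0 ≤ 2 * C + d * A + b + 1 := by positivity
    push_cast
    nlinarith
  · obtain ⟨e1, e2⟩ := Nat.pair_eq_pair.mp e
    have h1 := Nat.lt_floor_add_one (dist z o)
    have h2 := Nat.lt_floor_add_one (dist z' o)
    rw [← e1] at h2 e2
    refine (cs _ z z' (by linarith) (by linarith) e2).trans ?_
    refine mul_le_mul (min_le_left _ _) (Real.exp_le_exp.mpr ?_) (Real.exp_pos _).le hr.le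
    nlinarith

variable {G : Type} [Group G] [TopologicalSpace G] [IsTopologicalGroup G] [T2Space G]

theorem Nm.Cover_unit (N : Nm G) : ∃ M : ℕ, ∀ n : ℕ, ∃ F : Finset G, F.card ≤ M ^ n ∧
    ∀ g, N.len g ≤ n → ∃ f ∈ F, N.len (g * f⁻¹) ≤ 1 := by
  classical
  obtain ⟨t, -, ht, hc⟩ := finite_cover_balls_of_compact
    (isCompact_closedBall (show N.Gm from (1 : G)) 2) one_pos
  obtain ⟨T, hT⟩ : ∃ T : Finset G, ∀ g, N.len g ≤ 2 → ∃ f ∈ T, N.len (g * f⁻¹) ≤ 1 := by
    refine ⟨ht.toFinset, fun g hg => ?_⟩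
    have h1 : (show N.Gm from g) ∈ closedBall (show N.Gm from (1 : G)) 2 := by
      change N.len (g * 1⁻¹) ≤ 2
      simpa using hg
    obtain ⟨f, hf, h2⟩ := mem_iUnion₂.mp (hc h1)
    exact ⟨f, ht.mem_toFinset.mpr hf, le_of_lt h2⟩
  refine ⟨T.card, fun n => ?_⟩
  induction n with
  | zero => exact ⟨{1}, by simp, fun g hg => ⟨1, by simp, by simpa using hg.trans (by simp)⟩⟩
  | succ n ih =>
    obtain ⟨F, h1, h2⟩ := ih
    refine ⟨T * F, Finset.card_mul_le.trans ?_, fun g hg => ?_⟩
    · rw [pow_succ']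
      exact Nat.mul_le_mul_left _ h1
    · obtain ⟨u, v, hu, hv, rfl⟩ := N.split g 1 n zero_le_one (Nat.cast_nonneg n)
        (by push_cast at hg; linarith)
      obtain ⟨f, hf, h3⟩ := h2 v hv
      obtain ⟨e, he, h4⟩ := hT (u * (v * f⁻¹)) (by linarith [N.mul u (v * f⁻¹)])
      refine ⟨e * f, Finset.mul_mem_mul he hf, ?_⟩
      rwa [show u * v * (e * f)⁻¹ = u * (v * f⁻¹) * e⁻¹ by group]

theorem Nm.Cover_cov (N : Nm G) : ∃ (C : ℝ) (d : ℕ), 0 ≤ C ∧ ∀ R δ : ℝ, 0 ≤ R → 0 < δ → δ ≤ 1 →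
    ∃ F : Finset G, (F.card : ℝ) ≤ Real.exp (C * (1 + R)) / δ ^ d ∧
      ∀ g, N.len g ≤ R → ∃ f ∈ F, N.len (g * f⁻¹) ≤ δ := by
  classical
  obtain ⟨M, hM⟩ := N.Cover_unit
  obtain ⟨C, d, hC⟩ := N.cover
  refine ⟨|C| + M, d, by positivity, fun R δ hR hδ hδ1 => ?_⟩
  obtain ⟨F, h1, h2⟩ := hM ⌈R⌉₊
  obtain ⟨T, h3, h4⟩ := hC δ hδ hδ1
  refine ⟨T * F, ?_, fun g hg => ?_⟩
  · have h5 : ((T * F).card : ℝ) ≤ T.card * F.card := by exact_mod_cast Finset.card_mul_le
    have h6 : (F.card : ℝ) ≤ Real.exp (M * (1 + R)) := by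
      have h7 : (F.card : ℝ) ≤ (M : ℝ) ^ ⌈R⌉₊ := by exact_mod_cast h1
      have h8 : (M : ℝ) ≤ Real.exp M := by linarith [Real.add_one_le_exp (M : ℝ)]
      refine h7.trans ((pow_le_pow_left₀ (Nat.cast_nonneg M) h8 _).trans ?_)
      rw [← Real.exp_nat_mul]
      refine Real.exp_le_exp.mpr ?_
      have := Nat.ceil_lt_add_one hR
      nlinarith [Nat.cast_nonneg (α := ℝ) M]
    have h9 : (T.card : ℝ) ≤ Real.exp (|C| * (1 + R)) / δ ^ d :=
      h3.trans (div_le_div_of_nonneg_right ((le_abs_self C).trans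
        (Cover_le_exp (abs_nonneg C) hR)) (by positivity))
    refine h5.trans ((mul_le_mul h9 h6 (Nat.cast_nonneg _) (by positivity)).trans_eq ?_)
    rw [add_mul, Real.exp_add]
    ring
  · obtain ⟨f, hf, h5⟩ := h2 g (hg.trans (Nat.le_ceil R))
    obtain ⟨e, he, h6⟩ := h4 _ h5
    refine ⟨e * f, Finset.mul_mem_mul he hf, ?_⟩
    rwa [show g * (e * f)⁻¹ = g * f⁻¹ * e⁻¹ by group]

theorem Nm.cov (N : Nm G) : Cov (Z := N.Gm) (1 : G) := by
  obtain ⟨C, d, hC, h⟩ := N.Cover_cov
  refine ⟨C, d, hC, fun R δ hR hδ hδ1 => ?_⟩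
  obtain ⟨F, h1, h2⟩ := h R δ hR hδ hδ1
  refine ⟨F, h1, fun z hz => h2 z ?_⟩
  rw [N.dist_Gm, inv_one, mul_one] at hz
  exact hz

theorem Lat.cov (L : Lat G) : Cov L.o := by
  classical
  obtain ⟨C, d, hC, h⟩ := L.toNm.Cover_cov
  refine ⟨C, d, hC, fun R δ hR hδ hδ1 => ?_⟩
  obtain ⟨F, h1, h2⟩ := h R δ hR hδ hδ1
  refine ⟨F.image L.pj, le_trans (by exact_mod_cast Finset.card_image_le) h1, fun b hb => ?_⟩
  obtain ⟨g, rfl, e⟩ := L.exists_smul L.o b
  obtain ⟨f, hf, h3⟩ := h2 g (by rwa [e, dist_comm])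
  refine ⟨L.pj f, Finset.mem_image_of_mem _ hf, ?_⟩
  rw [L.smul_o]
  exact (L.dist_pj_le g f).trans h3

theorem Lat.card_le (L : Lat G) : ∃ C : ℝ, 0 ≤ C ∧ ∀ R : ℝ, 0 ≤ R →
    ({γ : L.Γ | L.len γ ≤ R}.ncard : ℝ) ≤ Real.exp (C * (1 + R)) := by
  obtain ⟨C, d, hC, h⟩ := L.toNm.Cover_cov
  obtain ⟨r, hr, hs⟩ := L.exists_sys
  have hδ : 0 < min (r / 3) 1 := lt_min (by positivity) one_pos
  refine ⟨C + ((min (r / 3) 1) ^ d)⁻¹, by positivity, fun R hR => ?_⟩
  obtain ⟨F, h1, h2⟩ := h R _ hR hδ (min_le_right _ _)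
  choose! f hf hf' using h2
  have h3 : {γ : L.Γ | L.len γ ≤ R}.ncard ≤ (F : Set G).ncard := by
    refine ncard_le_ncard_of_injOn (fun γ => f γ) (fun γ hγ => hf _ hγ) ?_ F.finite_toSet
    intro γ hγ γ' hγ' e
    have h4 := hf' _ hγ
    have h5 := hf' _ hγ'
    simp only at e
    rw [← e, L.swap] at h5
    have h6 := L.mul ((γ : G) * (f γ)⁻¹) (f γ * (γ' : G)⁻¹)
    rw [mul_assoc, inv_mul_cancel_left] at h6
    have h7 := hs _ (L.Γ.mul_mem γ.2 (L.Γ.inv_mem γ'.2))
      (by linarith [min_le_left (r / 3) 1])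
    exact Subtype.ext (mul_inv_eq_one.mp h7)
  rw [ncard_coe_finset] at h3
  refine le_trans (by exact_mod_cast h3) (h1.trans ?_)
  rw [add_mul, Real.exp_add, div_eq_mul_inv]
  exact mul_le_mul_of_nonneg_left (Cover_le_exp (by positivity) hR) (Real.exp_pos _).le

theorem Lat.summable (L : Lat G) : ∃ S₀ : ℝ, 0 < S₀ ∧ ∀ S, S₀ ≤ S → ∀ g : G,
    Summable fun γ : L.Γ => Real.exp (-S * L.len (g * γ)) := by
  classical
  obtain ⟨C, hC, h⟩ := L.card_le
  refine ⟨C + 1, by positivity, fun S hS g => ?_⟩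
  have hS0 : 0 ≤ S := by linarith
  have hg : Summable fun k : ℕ => Real.exp (2 * C) * Real.exp (-1) ^ k :=
    (summable_geometric_of_lt_one (Real.exp_pos _).le (by simp)).mul_left _
  have h0 : Summable fun γ : L.Γ => Real.exp (-S * L.len γ) := by
    refine summable_of_sum_le (fun _ => (Real.exp_pos _).le)
      (c := ∑' k : ℕ, Real.exp (2 * C) * Real.exp (-1) ^ k) fun s => ?_
    rw [← Finset.sum_fiberwise_of_maps_to (t := s.image fun γ : L.Γ => ⌊L.len γ⌋₊)
      (g := fun γ : L.Γ => ⌊L.len γ⌋₊) (fun γ hγ => Finset.mem_image_of_mem _ hγ)]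
    refine le_trans (Finset.sum_le_sum fun k _ => ?_)
      (hg.sum_le_tsum _ fun _ _ => by positivity)
    have hk0 : (0 : ℝ) ≤ k := Nat.cast_nonneg k
    have h1 : ((s.filter fun γ : L.Γ => ⌊L.len γ⌋₊ = k).card : ℝ) ≤
        Real.exp (C * (1 + (k + 1))) := by
      refine le_trans ?_ (h (k + 1) (by positivity))
      rw [← ncard_coe_finset]
      refine Nat.cast_le.mpr (ncard_le_ncard (fun γ hγ => ?_) (L.fin _))
      have h2 := (Finset.mem_filter.mp hγ).2
      have h3 := Nat.lt_floor_add_one (L.len γ)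
      rw [h2] at h3
      exact h3.le
    have h2 : ∑ γ ∈ s.filter fun γ : L.Γ => ⌊L.len γ⌋₊ = k, Real.exp (-S * L.len γ) ≤
        (s.filter fun γ : L.Γ => ⌊L.len γ⌋₊ = k).card • Real.exp (-S * k) := by
      refine Finset.sum_le_card_nsmul _ _ _ fun γ hγ => Real.exp_le_exp.mpr ?_
      have h3 := Nat.floor_le (L.nonneg γ)
      rw [(Finset.mem_filter.mp hγ).2] at h3
      nlinarith
    rw [nsmul_eq_mul] at h2
    refine h2.trans ((mul_le_mul_of_nonneg_right h1 (Real.exp_pos _).le).trans ?_)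
    rw [← Real.exp_nat_mul, ← Real.exp_add, ← Real.exp_add]
    refine Real.exp_le_exp.mpr ?_
    nlinarith
  refine Summable.of_nonneg_of_le (fun _ => (Real.exp_pos _).le) (fun γ => ?_)
    (h0.mul_left (Real.exp (S * L.len g)))
  rw [← Real.exp_add]
  refine Real.exp_le_exp.mpr ?_
  have h1 := L.mul g⁻¹ (g * γ)
  rw [inv_mul_cancel_left, L.inv] at h1
  nlinarith

end Pool.Agent.P.MP_d483fb_an.Z

end

end

section

/-! The suspension of an action of the lattice, as a measurable skew product over the base. -/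

open scoped Topology
open Filter Set Metric MeasureTheory

set_option linter.unusedSectionVars false

noncomputable section

namespace Pool.Agent.P.MP_d483fb_an.Z

namespace Lat

variable {G : Type} [Group G] [TopologicalSpace G] [IsTopologicalGroup G] [T2Space G]
  [MeasurableSpace G] [BorelSpace G]

/-- The suspension space. -/
def Sk (L : Lat G) (Y : Type) : Type := L.B × Y

variable {L : Lat G} {Y Y' : Type}

/-- The projection to the base. -/
def Sk.π (x : L.Sk Y) : L.B := x.1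

/-- The fibre coordinate. -/
def Sk.pt (x : L.Sk Y) : Y := x.2

/-- The point with given coordinates. -/
def j (L : Lat G) (b : L.B) (p : Y) : L.Sk Y := (b, p)

@[simp] theorem π_j (b : L.B) (p : Y) : (L.j b p).π = b := rfl

@[simp] theorem pt_j (b : L.B) (p : Y) : (L.j b p).pt = p := rfl

@[simp] theorem j_eta (x : L.Sk Y) : L.j x.π x.pt = x := rfl

theorem Sk.ext {x y : L.Sk Y} (h : x.π = y.π) (h' : x.pt = y.pt) : x = y := Prod.ext h h'

/-- The map of suspensions induced by a map of fibres. -/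
def Sk.map (f : Y → Y') (x : L.Sk Y) : L.Sk Y' := L.j x.π (f x.pt)

@[simp] theorem π_map (f : Y → Y') (x : L.Sk Y) : (x.map f).π = x.π := rfl

@[simp] theorem pt_map (f : Y → Y') (x : L.Sk Y) : (x.map f).pt = f x.pt := rfl

instance [Nonempty Y] : Nonempty (L.Sk Y) := inferInstanceAs (Nonempty (L.B × Y))

section act
variable [MulAction L.Γ Y] [MulAction L.Γ Y']

instance : MulAction G (L.Sk Y) where
  smul g x := L.j (g • x.π) (L.c g x.π • x.pt)
  one_smul x := Sk.ext (one_smul G x.π) (by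
    show L.c 1 x.π • x.pt = x.pt
    rw [c_one, one_smul])
  mul_smul g h x := Sk.ext (mul_smul g h x.π) (by
    show L.c (g * h) x.π • x.pt = L.c g (h • x.π) • L.c h x.π • x.pt
    rw [c_mul, mul_smul])

@[simp] theorem π_smul (g : G) (x : L.Sk Y) : (g • x).π = g • x.π := rfl

@[simp] theorem pt_smul (g : G) (x : L.Sk Y) : (g • x).pt = L.c g x.π • x.pt := rfl

theorem smul_j (g : G) (b : L.B) (p : Y) : g • L.j b p = L.j (g • b) (L.c g b • p) := rfl

theorem map_smul_Sk {f : Y → Y'} (hf : ∀ (γ : L.Γ) p, f (γ • p) = γ • f p) (g : G) (x : L.Sk Y) :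
    (g • x).map f = g • x.map f := Sk.ext rfl (hf _ _)

/-- The quotient map from the product of the group and the fibre. -/
def q (L : Lat G) [MulAction L.Γ Y] (g : G) (p : Y) : L.Sk Y := L.j (L.pj g) (L.fr g • p)

@[simp] theorem π_q (g : G) (p : Y) : (L.q g p).π = L.pj g := rfl

@[simp] theorem pt_q (g : G) (p : Y) : (L.q g p).pt = L.fr g • p := rfl

theorem smul_q (g h : G) (p : Y) : g • L.q h p = L.q (g * h) p :=
  Sk.ext rfl (by rw [pt_smul, pt_q, pt_q, π_q, fr_smul, mul_smul])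

theorem q_sec (b : L.B) (p : Y) : L.q (L.sec b) p = L.j b p :=
  Sk.ext (L.pj_sec b) (by rw [pt_q, fr_sec, one_smul, pt_j])

theorem q_eta (x : L.Sk Y) : L.q (L.sec x.π) x.pt = x := q_sec _ _

theorem q_mul (g : G) (γ : L.Γ) (p : Y) : L.q (g * γ) p = L.q g (γ • p) :=
  Sk.ext (L.pj_mul g γ) (by rw [pt_q, pt_q, fr_mul, mul_smul])

theorem q_one (p : Y) : L.q 1 p = L.j L.o p := by rw [← q_sec, sec_o]

theorem smul_j_o (g : G) (p : Y) : g • L.j L.o p = L.q g p := by rw [← q_one, smul_q, mul_one]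

theorem q_eq {g h : G} {p p' : Y} :
    L.q g p = L.q h p' ↔ ∃ γ : L.Γ, h = g * γ ∧ p = γ • p' := by
  constructor
  · intro e
    let γ : L.Γ := ⟨_, L.pj_eq.mp (congrArg Sk.π e)⟩
    have h1 : h = g * γ := (mul_inv_cancel_left g h).symm
    refine ⟨γ, h1, ?_⟩
    rw [h1, q_mul] at e
    exact smul_left_cancel _ (congrArg Sk.pt e)
  · rintro ⟨γ, rfl, rfl⟩
    exact (q_mul g γ p').symm

end act

section meas
variable [MeasurableSpace Y] [MeasurableSpace Y']

instance : MeasurableSpace (L.Sk Y) := inferInstanceAs (MeasurableSpace (L.B × Y))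

instance [StandardBorelSpace Y] : StandardBorelSpace (L.Sk Y) :=
  inferInstanceAs (StandardBorelSpace (L.B × Y))

theorem measurable_π : Measurable (Sk.π : L.Sk Y → L.B) := measurable_fst

theorem measurable_pt : Measurable (Sk.pt : L.Sk Y → Y) := measurable_snd

theorem measurable_j {Z : Type*} [MeasurableSpace Z] {b : Z → L.B} {p : Z → Y} (hb : Measurable b)
    (hp : Measurable p) : Measurable fun z => L.j (b z) (p z) := hb.prodMk hp

theorem measurable_map_Sk {f : Y → Y'} (hf : Measurable f) :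
    Measurable (Sk.map f : L.Sk Y → L.Sk Y') := measurable_j measurable_π (hf.comp measurable_pt)

/-- Functions of a lattice element and a point are jointly measurable. -/
theorem measurable_lat {Z W : Type*} [MeasurableSpace Z] [MeasurableSpace W] {f : L.Γ → Z → W}
    (hf : ∀ γ, Measurable (f γ)) {V : Type*} [MeasurableSpace V] {γ : V → L.Γ} {z : V → Z}
    (hγ : Measurable γ) (hz : Measurable z) : Measurable fun v => f (γ v) (z v) :=
  (measurable_from_prod_countable_right (f := fun u : L.Γ × Z => f u.1 u.2) hf).comp (hγ.prodMk hz)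

theorem measurable_c' {Z : Type*} [MeasurableSpace Z] {g : Z → G} {b : Z → L.B} (hg : Measurable g)
    (hb : Measurable b) : Measurable fun z => L.c (g z) (b z) := L.measurable_c.comp (hg.prodMk hb)

instance : MeasurableSMul₂ G L.B := by
  have := L.polish
  exact ⟨(continuous_smul (M := G) (X := L.B)).measurable⟩

variable [MulAction L.Γ Y] [MeasurableConstSMul L.Γ Y]

instance : MeasurableSMul₂ L.Γ Y :=
  ⟨measurable_lat (f := fun (γ : L.Γ) (p : Y) => γ • p) (fun γ => measurable_const_smul γ)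
    measurable_fst measurable_snd⟩

instance : MeasurableSMul₂ G (L.Sk Y) :=
  ⟨measurable_j (measurable_fst.smul (measurable_π.comp measurable_snd))
    ((measurable_c' measurable_fst (measurable_π.comp measurable_snd)).smul
      (measurable_pt.comp measurable_snd))⟩

theorem measurable_q {Z : Type*} [MeasurableSpace Z] {g : Z → G} {p : Z → Y} (hg : Measurable g)
    (hp : Measurable p) : Measurable fun z => L.q (g z) (p z) :=
  measurable_j (L.measurable_pj.comp hg) ((L.measurable_fr.comp hg).smul hp)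

end meas

end Lat

end Pool.Agent.P.MP_d483fb_an.Z

end

end

section

/-! A proper metric on the suspension of a Lipschitz action on a compact space. -/

open scoped Topology BoundedContinuousFunction
open Filter Set Metric MeasureTheory

set_option linter.unusedSectionVars false

noncomputable section

namespace Pool.Agent.P.MP_d483fb_an.Z

variable {G : Type} [Group G] [TopologicalSpace G] [IsTopologicalGroup G] [T2Space G]
  [MeasurableSpace G] [BorelSpace G]

/-- The Lipschitz constants of the action grow at most exponentially in the norm. -/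
class Fib (L : Lat G) (M : Type) [MetricSpace M] [MulAction L.Γ M] where
  S : ℝ
  S_nonneg : 0 ≤ S
  lip : ∀ (γ : L.Γ) (p p' : M), dist (γ • p) (γ • p') ≤ Real.exp (S * (1 + L.len γ)) * dist p p'

namespace Lat

variable {L : Lat G} {M : Type} [MetricSpace M] [CompactSpace M] [MulAction L.Γ M] [φ : Fib L M]

instance : ContinuousConstSMul L.Γ M :=
  ⟨fun γ => (LipschitzWith.of_dist_le_mul (K := ⟨_, (Real.exp_pos _).le⟩) (φ.lip γ)).continuous⟩

/-- The weight. -/
def wt (L : Lat G) (M : Type) [MetricSpace M] [MulAction L.Γ M] [φ : Fib L M] (g : G) : ℝ :=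
  Real.exp (-φ.S * L.len g)

theorem wt_pos (g : G) : 0 < L.wt M g := Real.exp_pos _

theorem wt_le_one (g : G) : L.wt M g ≤ 1 :=
  Real.exp_le_one_iff.mpr (by nlinarith [φ.S_nonneg, L.nonneg g])

theorem wt_mul (g h : G) : L.wt M (g * h) ≤ Real.exp (φ.S * L.len g) * L.wt M h := by
  rw [wt, wt, ← Real.exp_add]
  have := L.mul g⁻¹ (g * h)
  rw [inv_mul_cancel_left, L.inv] at this
  exact Real.exp_le_exp.mpr (by nlinarith [φ.S_nonneg])

theorem wt_sub (g h : G) : |L.wt M g - L.wt M h| ≤ φ.S * L.len (g * h⁻¹) := by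
  have key : ∀ g h : G, L.wt M g - L.wt M h ≤ φ.S * L.len (g * h⁻¹) := fun g h => by
    have h1 : L.len h - L.len g ≤ L.len (g * h⁻¹) := (abs_sub_le_iff.mp (L.abs_sub g h)).2
    have h2 := Real.add_one_le_exp (-φ.S * L.len h - -φ.S * L.len g)
    have h3 : L.wt M h = L.wt M g * Real.exp (-φ.S * L.len h - -φ.S * L.len g) := by
      rw [wt, wt, ← Real.exp_add, add_sub_cancel]
    have h4 := mul_le_mul_of_nonneg_left h1 φ.S_nonneg
    have h5 := mul_nonneg φ.S_nonneg (L.nonneg (g * h⁻¹))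
    have h6 := wt_pos (L := L) (M := M) g
    have h7 := wt_le_one (L := L) (M := M) g
    nlinarith [mul_le_mul_of_nonneg_left h2 h6.le, mul_le_mul_of_nonneg_left h4 h6.le,
      mul_le_mul_of_nonneg_right h7 h5]
  exact abs_sub_le_iff.mpr ⟨key g h, by rw [L.swap]; exact key h g⟩

theorem dist_le_diam (p p' : M) : dist p p' ≤ diam (univ : Set M) :=
  dist_le_diam_of_mem isCompact_univ.isBounded (mem_univ _) (mem_univ _)

/-- The product of the group and the fibre with an invariant metric. -/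
def Tot (_L : Lat G) (M : Type) : Type := G × M

/-- Weighted distance functions along the orbit. -/
def emb (L : Lat G) [MulAction L.Γ M] [Fib L M] (g : G) (p : M) : L.Γ × M →ᵇ ℝ :=
  BoundedContinuousFunction.ofNormedAddCommGroup
    (fun u => L.wt M (g * u.1) * dist (u.1⁻¹ • p) u.2)
    (continuous_prod_of_discrete_left.mpr fun γ =>
      show Continuous fun y => L.wt M (g * γ) * dist (γ⁻¹ • p) y by fun_prop) (diam (univ : Set M)) fun u => by
      rw [Real.norm_of_nonneg (mul_nonneg (wt_pos _).le dist_nonneg)]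
      exact (mul_le_of_le_one_left dist_nonneg (wt_le_one _)).trans (dist_le_diam _ _)

theorem emb_apply (g : G) (p : M) (γ : L.Γ) (y : M) :
    L.emb g p (γ, y) = L.wt M (g * γ) * dist (γ⁻¹ • p) y := rfl

instance : MetricSpace (L.Tot M) :=
  MetricSpace.induced (β := L.Gm × (L.Γ × M →ᵇ ℝ)) (fun z => (z.1, L.emb z.1 z.2))
    (by
      rintro ⟨g, p⟩ ⟨g', p'⟩ h
      obtain rfl : g = g' := congrArg Prod.fst h
      have h2 : L.emb g p (1, p) = L.emb g p' (1, p) := congrArg (fun z => z.2 (1, p)) h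
      rw [emb_apply, emb_apply, inv_one, one_smul, one_smul, dist_self, mul_zero] at h2
      rw [dist_eq_zero.mp ((mul_eq_zero.mp h2.symm).resolve_left (wt_pos _).ne')])
    inferInstance

/-- A point of the product. -/
def tot (L : Lat G) (g : G) (p : M) : L.Tot M := (g, p)

theorem dist_tot (g h : G) (p p' : M) : dist (L.tot g p) (L.tot h p') =
    max (L.len (g * h⁻¹)) (dist (L.emb g p) (L.emb h p')) := rfl

/-- The constant of the metric. -/
def K (L : Lat G) (M : Type) [MetricSpace M] [MulAction L.Γ M] [φ : Fib L M] : ℝ :=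
  1 + φ.S * diam (univ : Set M)

theorem one_le_K : 1 ≤ L.K M := le_add_of_nonneg_right (mul_nonneg φ.S_nonneg diam_nonneg)

theorem len_le_tot (g h : G) (p p' : M) : L.len (g * h⁻¹) ≤ dist (L.tot g p) (L.tot h p') :=
  le_max_left _ _

theorem wt_le_tot (g h : G) (p p' : M) (γ : L.Γ) :
    L.wt M (g * γ) * dist (γ⁻¹ • p) (γ⁻¹ • p') ≤ dist (L.tot g p) (L.tot h p') := by
  have := (BoundedContinuousFunction.dist_coe_le_dist (f := L.emb g p) (g := L.emb h p')
    (γ, γ⁻¹ • p')).trans (le_max_right (L.len (g * h⁻¹)) _)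
  rw [emb_apply, emb_apply, dist_self, mul_zero, Real.dist_eq, sub_zero] at this
  exact (le_abs_self _).trans this

theorem tot_le {g : G} {p p' : M} {r : ℝ} (h : G)
    (hr : ∀ γ : L.Γ, L.wt M (g * γ) * dist (γ⁻¹ • p) (γ⁻¹ • p') ≤ r) :
    dist (L.tot g p) (L.tot h p') ≤ r + L.K M * L.len (g * h⁻¹) := by
  have h0 : 0 ≤ r := (mul_nonneg (wt_pos _).le dist_nonneg).trans (hr 1)
  have h1 := L.nonneg (g * h⁻¹)
  have h2 := mul_nonneg (mul_nonneg φ.S_nonneg (diam_nonneg (s := (univ : Set M)))) h1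
  rw [dist_tot, K]
  refine max_le (by linarith) ((BoundedContinuousFunction.dist_le (by linarith)).mpr ?_)
  rintro ⟨γ, y⟩
  have h3 := wt_sub (L := L) (M := M) (g * γ) (h * γ)
  rw [show g * γ * (h * γ)⁻¹ = g * h⁻¹ by group] at h3
  have h4 := mul_le_mul_of_nonneg_left (abs_dist_sub_le (γ⁻¹ • p) (γ⁻¹ • p') y)
    (wt_pos (L := L) (M := M) (g * γ)).le
  have h5 := mul_le_mul h3 (dist_le_diam (γ⁻¹ • p') y) dist_nonneg (mul_nonneg φ.S_nonneg h1)
  rw [emb_apply, emb_apply, Real.dist_eq, show ∀ a b c d : ℝ, a * b - c * d =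
    a * (b - d) + (a - c) * d from fun _ _ _ _ => by ring]
  refine (abs_add_le _ _).trans ?_
  rw [abs_mul, abs_mul, abs_of_pos (wt_pos _), abs_of_nonneg dist_nonneg]
  linarith [hr γ]

theorem wt_lip (g : G) (p p' : M) (γ : L.Γ) : L.wt M (g * γ) * dist (γ⁻¹ • p) (γ⁻¹ • p') ≤
    Real.exp (φ.S * (1 + L.len g)) * dist p p' := by
  refine (mul_le_mul_of_nonneg_left (φ.lip _ _ _) (wt_pos _).le).trans ?_
  rw [← mul_assoc, wt, ← Real.exp_add, Subgroup.coe_inv, L.inv]
  refine mul_le_mul_of_nonneg_right (Real.exp_le_exp.mpr ?_) dist_nonneg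
  have := L.mul g⁻¹ (g * γ)
  rw [inv_mul_cancel_left, L.inv] at this
  nlinarith [φ.S_nonneg]

theorem tot_le' (g h : G) (p p' : M) : dist (L.tot g p) (L.tot h p') ≤
    Real.exp (φ.S * (1 + L.len g)) * dist p p' + L.K M * L.len (g * h⁻¹) :=
  tot_le h (wt_lip g p p')

theorem continuous_tot : Continuous fun z : G × M => L.tot z.1 z.2 := by
  refine continuous_iff_continuousAt.mpr fun z => tendsto_iff_dist_tendsto_zero.mpr ?_
  have h : Continuous fun u : G × M => Real.exp (φ.S * (1 + L.len u.1)) * dist u.2 z.2 +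
      L.K M * L.len (u.1 * z.1⁻¹) := by
    have := L.cont
    fun_prop
  refine squeeze_zero (fun _ => dist_nonneg) (fun u => tot_le' u.1 z.1 u.2 z.2) ?_
  simpa [L.one] using h.tendsto z

instance : ProperSpace (L.Tot M) :=
  ⟨fun z r => by
    have h0 : IsCompact {g : G | L.len (g * z.1⁻¹) ≤ r} := isCompact_closedBall (α := L.Gm) z.1 r
    have h := h0.prod (isCompact_univ (X := M))
    refine (h.image continuous_tot).of_isClosed_subset isClosed_closedBall fun u hu => ?_
    exact ⟨u, ⟨(len_le_tot u.1 z.1 u.2 z.2).trans hu, mem_univ _⟩, rfl⟩⟩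

theorem tot_right_le (g h : G) (p p' : M) (δ : L.Γ) :
    dist (L.tot (g * δ) (δ⁻¹ • p)) (L.tot (h * δ) (δ⁻¹ • p')) ≤ dist (L.tot g p) (L.tot h p') := by
  rw [dist_tot, dist_tot, show g * δ * (h * δ)⁻¹ = g * h⁻¹ by group]
  refine max_le_max le_rfl ((BoundedContinuousFunction.dist_le dist_nonneg).mpr ?_)
  rintro ⟨γ, y⟩
  have := BoundedContinuousFunction.dist_coe_le_dist (f := L.emb g p) (g := L.emb h p') (δ * γ, y)
  simpa only [emb_apply, mul_inv_rev, mul_smul, Subgroup.coe_mul, mul_assoc] using this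

theorem tot_right (g h : G) (p p' : M) (δ : L.Γ) :
    dist (L.tot (g * δ) (δ⁻¹ • p)) (L.tot (h * δ) (δ⁻¹ • p')) = dist (L.tot g p) (L.tot h p') := by
  refine le_antisymm (tot_right_le g h p p' δ) ?_
  simpa using tot_right_le (g * δ) (h * δ) (δ⁻¹ • p) (δ⁻¹ • p') δ⁻¹

theorem tot_left (u g h : G) (p p' : M) : dist (L.tot (u * g) p) (L.tot (u * h) p') ≤
    2 * L.K M * Real.exp ((φ.S + 2) * L.len u) * dist (L.tot g p) (L.tot h p') := by
  have h1 : ∀ γ : L.Γ, L.wt M (u * g * γ) * dist (γ⁻¹ • p) (γ⁻¹ • p') ≤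
      Real.exp (φ.S * L.len u) * dist (L.tot g p) (L.tot h p') := fun γ => by
    rw [mul_assoc u]
    refine (mul_le_mul_of_nonneg_right (wt_mul _ _) dist_nonneg).trans ?_
    rw [mul_assoc]
    exact mul_le_mul_of_nonneg_left (wt_le_tot g h p p' γ) (Real.exp_pos _).le
  refine (tot_le _ h1).trans ?_
  have h2 := (L.conj u (g * h⁻¹)).trans
    (mul_le_mul_of_nonneg_left (len_le_tot g h p p') (Real.exp_pos _).le)
  rw [show u * g * (u * h)⁻¹ = u * (g * h⁻¹) * u⁻¹ by group]
  have h3 := L.nonneg u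
  have h4 : Real.exp (φ.S * L.len u) ≤ Real.exp ((φ.S + 2) * L.len u) :=
    Real.exp_le_exp.mpr (by nlinarith)
  have h5 : Real.exp (2 * L.len u) ≤ Real.exp ((φ.S + 2) * L.len u) :=
    Real.exp_le_exp.mpr (by nlinarith [φ.S_nonneg])
  have h6 := one_le_K (L := L) (M := M)
  have h7 := mul_le_mul_of_nonneg_right h4 (dist_nonneg (x := L.tot g p) (y := L.tot h p'))
  have h8 := h2.trans (mul_le_mul_of_nonneg_right h5 dist_nonneg)
  have h9 := mul_nonneg (Real.exp_pos ((φ.S + 2) * L.len u)).le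
    (dist_nonneg (x := L.tot g p) (y := L.tot h p'))
  nlinarith [mul_le_mul_of_nonneg_left h8 (zero_le_one.trans h6), mul_le_mul_of_nonneg_right h6 h9]

theorem parX : Par (fun z : L.Tot M => L.q z.1 z.2) where
  surj x := ⟨L.tot _ _, q_eta x⟩
  closed x := by
    obtain ⟨r, hr, h⟩ := L.inj
    refine isClosed_of_pairwise_le_dist (ε := r * Real.exp (-2 * L.ht x.π)) (by positivity) ?_
    rintro ⟨g, p⟩ hz ⟨g', p'⟩ hz' hne
    refine le_trans (not_lt.mp fun hl => hne ?_) (len_le_tot g g' p p')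
    have e : L.q g p = x := hz
    have e' : L.q g' p' = x := hz'
    have h1 := h (g * g'⁻¹) x.π (by
      conv_lhs => rw [← e', π_q, smul_pj, inv_mul_cancel_right]
      exact congrArg Sk.π e) hl
    obtain rfl := mul_inv_eq_one.mp h1
    obtain rfl : p = p' := smul_left_cancel _ (congrArg Sk.pt (e.trans e'.symm))
    rfl
  par := by
    rintro ⟨g, p⟩ ⟨g', p'⟩ ⟨h, u⟩ e
    obtain ⟨γ, rfl, rfl⟩ : ∃ γ : L.Γ, g' = g * γ ∧ p = γ • p' := q_eq.mp e
    refine ⟨L.tot (h * γ) (γ⁻¹ • u), (q_mul h γ _).trans (congrArg (L.q h) (smul_inv_smul γ u)), ?_⟩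
    have := tot_right g h (γ • p') u γ
    rwa [inv_smul_smul] at this

instance : MetricSpace (L.Sk M) := parX.metric

theorem submX : Subm (fun z : L.Tot M => L.q z.1 z.2) := parX.subm

instance : ProperSpace (L.Sk M) := submX.properSpace

theorem continuous_q : Continuous fun z : G × M => L.q z.1 z.2 :=
  submX.continuous.comp continuous_tot

theorem dist_q_le (g h : G) (p p' : M) : dist (L.q g p) (L.q h p') ≤
    Real.exp (φ.S * (1 + L.len g)) * dist p p' + L.K M * L.len (g * h⁻¹) :=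
  (submX.le (L.tot g p) (L.tot h p')).trans (tot_le' g h p p')

theorem exists_liftX (g : G) (p : M) (y : L.Sk M) :
    ∃ h p', L.q h p' = y ∧ dist (L.tot g p) (L.tot h p') = dist (L.q g p) y := by
  obtain ⟨⟨h, p'⟩, h1, h2⟩ := submX.lift (L.tot g p) y
  exact ⟨h, p', h1, h2⟩

/-- Distances inside one fibre, upper bound. -/
theorem dist_j_le (b : L.B) (p p' : M) :
    dist (L.j b p) (L.j b p') ≤ Real.exp (φ.S * (1 + L.ht b)) * dist p p' := by
  have := dist_q_le (L := L) (L.sec b) (L.sec b) p p'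
  rwa [q_sec, q_sec, len_sec, mul_inv_cancel, L.one, mul_zero, add_zero] at this

theorem dist_smul_selfX (g : G) (x : L.Sk M) : dist (g • x) x ≤ L.K M * L.len g := by
  have := dist_q_le (L := L) (g * L.sec x.π) (L.sec x.π) x.pt x.pt
  rwa [← smul_q, q_eta, dist_self, mul_zero, zero_add, mul_inv_cancel_right] at this

/-- Upper bound for the distance by a displacement and a distance in the fibre. -/
theorem dist_smul_j_le (x : L.Sk M) (g : G) (p : M) : dist x (g • L.j x.π p) ≤
    Real.exp (φ.S * (1 + L.ht x.π)) * dist x.pt p + L.K M * L.len g :=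
  (dist_triangle x (L.j x.π p) _).trans (add_le_add (dist_j_le x.π x.pt p)
    (by rw [dist_comm]; exact dist_smul_selfX _ _))

/-- Every element acts by a Lipschitz map. -/
theorem dist_smulX (g : G) (x y : L.Sk M) :
    dist (g • x) (g • y) ≤ 2 * L.K M * Real.exp ((φ.S + 2) * L.len g) * dist x y := by
  obtain ⟨h, p, rfl, e⟩ := exists_liftX (L.sec x.π) x.pt y
  rw [q_eta] at e
  rw [← e, smul_q]
  conv_lhs => rw [← q_eta x, smul_q]
  exact (submX.le (L.tot _ _) (L.tot _ _)).trans (tot_left _ _ _ _ _)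

/-- Two points differ by a displacement and a change in the fibre. -/
theorem exists_smulX (x y : L.Sk M) : ∃ (g : G) (p : M), y = g • L.j x.π p ∧
    L.len g ≤ dist x y ∧ dist x.pt p ≤ Real.exp (φ.S * L.ht x.π) * dist x y := by
  obtain ⟨h, p, rfl, e⟩ := exists_liftX (L.sec x.π) x.pt y
  rw [q_eta] at e
  refine ⟨h * (L.sec x.π)⁻¹, p, by rw [← q_sec, smul_q, inv_mul_cancel_right], ?_, ?_⟩
  · rw [L.swap, ← e]
    exact len_le_tot _ _ _ _
  · have := mul_le_mul_of_nonneg_left (wt_le_tot (L := L) (L.sec x.π) h x.pt p 1)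
      (Real.exp_pos (φ.S * L.ht x.π)).le
    rwa [e, ← mul_assoc, wt, ← Real.exp_add, OneMemClass.coe_one, mul_one, len_sec, neg_mul,
      add_neg_cancel, Real.exp_zero, one_mul, inv_one, one_smul, one_smul] at this

theorem dist_π_le (x y : L.Sk M) : dist x.π y.π ≤ dist x y := by
  obtain ⟨g, p, e, h, -⟩ := exists_smulX x y
  rw [congrArg Sk.π e, dist_comm]
  exact (L.dist_smul_self g _).trans h

theorem continuous_π : Continuous (Sk.π : L.Sk M → L.B) :=
  (LipschitzWith.of_dist_le_mul (K := 1) fun x y => by simpa using dist_π_le x y).continuous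

theorem continuous_j (b : L.B) : Continuous (L.j b : M → L.Sk M) :=
  (LipschitzWith.of_dist_le_mul (K := ⟨_, (Real.exp_pos _).le⟩) (dist_j_le b)).continuous

theorem isCompact_htX (R : ℝ) : IsCompact {x : L.Sk M | L.ht x.π ≤ R} :=
  ((((L.cpt R).prod isCompact_univ).image continuous_q).of_isClosed_subset
    (isClosed_le (L.continuous_ht.comp continuous_π) continuous_const)
    fun x hx => ⟨(L.sec x.π, x.pt), ⟨(L.len_sec _).trans_le hx, mem_univ _⟩, q_eta x⟩)

theorem isCompact_preimage_π {C : Set L.B} (hC : IsCompact C) :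
    IsCompact (Sk.π ⁻¹' C : Set (L.Sk M)) := by
  obtain ⟨R, hR⟩ := hC.isBounded.subset_closedBall L.o
  exact (isCompact_htX R).of_isClosed_subset (hC.isClosed.preimage continuous_π)
    fun x hx => hR hx

theorem isProperMap_π : IsProperMap (Sk.π : L.Sk M → L.B) :=
  isProperMap_iff_isCompact_preimage.mpr ⟨continuous_π, fun _ => isCompact_preimage_π⟩

instance : ContinuousSMul G (L.Sk M) :=
  ⟨continuous_iff_continuousAt.mpr fun z => tendsto_iff_dist_tendsto_zero.mpr (by
    have h : Continuous fun u : G × L.Sk M => L.K M * L.len (u.1 * z.1⁻¹) +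
        2 * L.K M * Real.exp ((φ.S + 2) * L.len z.1) * dist u.2 z.2 := by
      have := L.cont
      fun_prop
    refine squeeze_zero (fun _ => dist_nonneg) (fun u => (dist_triangle _ (z.1 • u.2) _).trans
      (add_le_add ?_ (dist_smulX _ _ _))) (by simpa [L.one] using h.tendsto z)
    simpa [smul_smul] using dist_smul_selfX (u.1 * z.1⁻¹) (z.1 • u.2))⟩

variable [MeasurableSpace M] [BorelSpace M]

instance : BorelSpace (L.Sk M) := by
  have := L.polish
  have h0 : ∀ m : MeasurableSpace (L.Sk M), m = borel _ →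
      @MeasurableEmbedding (L.B × M) (L.Sk M) _ m id := fun m hm => by
    have : BorelSpace (L.Sk M) := ⟨hm⟩
    have h2 : Measurable fun z : L.B × M => L.q (L.sec z.1) z.2 :=
      continuous_q.measurable.comp ((L.measurable_sec.comp measurable_fst).prodMk measurable_snd)
    simp only [q_sec] at h2
    exact Measurable.measurableEmbedding (γ := L.B × M) h2 Function.injective_id
  have h1 := h0 _ rfl
  exact ⟨le_antisymm (fun s hs => (image_id s).subst
    (motive := @MeasurableSet (L.Sk M) (borel (L.Sk M))) (@MeasurableEmbedding.measurableSet_image'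
      (L.B × M) (L.Sk M) _ (borel _) _ h1 s hs))
    fun s hs => @MeasurableEmbedding.measurable (L.B × M) (L.Sk M) _ (borel _) _ h1 s hs⟩

end Lat

end Pool.Agent.P.MP_d483fb_an.Z

end

end

section

/-! Covering numbers of the suspension, Lipschitz constants of powers, conjugated cocycles. -/

open scoped Topology
open Filter Set Metric MeasureTheory

set_option linter.unusedSectionVars false

noncomputable section

namespace Pool.Agent.P.MP_d483fb_an.Z

/-- Compact sets have polynomial covering numbers. -/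
theorem Cov.cover {Z : Type} [PseudoMetricSpace Z] {o : Z} (h : Cov o) (K : Set Z)
    (hK : IsCompact K) : ∃ C : ℝ, ∀ r : ℝ, 0 < r → r ≤ 1 →
      ∃ F : Finset Z, (F.card : ℝ) ≤ C * r⁻¹ ^ C ∧ K ⊆ ⋃ z ∈ F, ball z r := by
  obtain ⟨C, d, hC, h⟩ := h
  obtain ⟨R, hR, hK'⟩ := hK.isBounded.subset_closedBall_lt 0 o
  refine ⟨max (Real.exp (C * (1 + R)) * 2 ^ d) d, fun r hr hr1 => ?_⟩
  obtain ⟨F, h1, h2⟩ := h R (r / 2) hR.le (by positivity) (by linarith)
  refine ⟨F, h1.trans ?_, fun z hz => ?_⟩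
  · have h3 : r⁻¹ ^ d ≤ r⁻¹ ^ (max (Real.exp (C * (1 + R)) * 2 ^ d) d : ℝ) := by
      rw [← Real.rpow_natCast]
      exact Real.rpow_le_rpow_of_exponent_le ((one_le_inv₀ hr).mpr hr1) (le_max_right _ _)
    calc _ = Real.exp (C * (1 + R)) * 2 ^ d * r⁻¹ ^ d := by
          rw [div_pow, inv_pow]
          field_simp
      _ ≤ _ := mul_le_mul (le_max_left _ _) h3 (by positivity)
        (le_trans (by positivity) (le_max_left _ _))
  · obtain ⟨f, hf, h4⟩ := h2 z (hK' hz)
    exact mem_iUnion₂.mpr ⟨f, hf, h4.trans_lt (by linarith)⟩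

variable {G : Type} [Group G] [TopologicalSpace G] [IsTopologicalGroup G] [T2Space G]

theorem Nm.len_pow (N : Nm G) (g : G) (i : ℕ) : N.len (g ^ i) ≤ i * N.len g := by
  induction i with
  | zero => simp [N.one]
  | succ i ih =>
    rw [pow_succ]
    push_cast
    linarith [N.mul (g ^ i) g]

theorem Nm.len_zpow (N : Nm G) (g : G) (i : ℤ) : N.len (g ^ i) ≤ |(i : ℝ)| * N.len g := by
  obtain ⟨k, rfl | rfl⟩ := i.eq_nat_or_neg
  · simpa using N.len_pow g k
  · simpa [N.inv] using N.len_pow g k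

namespace Lat

/-- Uniform local freeness over compact sets. -/
theorem inj_compact (L : Lat G) (K : Set L.B) (hK : IsCompact K) :
    ∃ W ∈ 𝓝 (1 : G), ∀ b ∈ K, ∀ g ∈ W, g • b = b → g = 1 := by
  obtain ⟨r, hr, h⟩ := L.inj
  obtain ⟨R, hR⟩ := hK.isBounded.subset_closedBall L.o
  refine ⟨{g | L.len g < r * Real.exp (-2 * R)}, (isOpen_lt L.cont continuous_const).mem_nhds
    (by rw [mem_ofPred_eq, L.one]; positivity), fun b hb g hg e => h g b e (lt_of_lt_of_le hg ?_)⟩
  have : L.ht b ≤ R := hR hb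
  exact mul_le_mul_of_nonneg_left (Real.exp_le_exp.mpr (by linarith)) hr.le

theorem ht_le_smul (L : Lat G) (g : G) (b : L.B) : L.ht b ≤ L.ht (g • b) + L.len g := by
  have := L.ht_smul g⁻¹ (g • b)
  rwa [inv_smul_smul, L.inv] at this

variable [MeasurableSpace G] [BorelSpace G] {L : Lat G}

theorem c_conj (g u : G) (b : L.B) :
    L.c g (u • b) * L.c u b * (L.c g b)⁻¹ = L.c (g * u * g⁻¹) (g • b) := by
  rw [c_mul, inv_smul_smul, c_mul, c_inv]

theorem len_c_conj (g u : G) (b : L.B) : L.len (L.c g (u • b) * L.c u b * (L.c g b)⁻¹ : L.Γ) ≤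
    L.len (g * u * g⁻¹) + (L.ht (g • u • b) + L.ht (g • b)) := by
  have := L.len_c (g * u * g⁻¹) (g • b)
  rw [smul_smul, inv_mul_cancel_right, mul_smul] at this
  rw [c_conj]
  linarith

theorem smul_j_inj {Y : Type} [MulAction L.Γ Y] {g : G} {b : L.B} {p p' : Y}
    (h : g • L.j b p = g • L.j b p') : p = p' := congrArg Sk.pt (smul_left_cancel g h)

variable {M : Type} [MetricSpace M] [CompactSpace M] [MulAction L.Γ M] [φ : Fib L M]

theorem lip_zpow (g : G) : ∃ Lp : ℝ, 0 ≤ Lp ∧ ∀ (i : ℤ) (x y : L.Sk M),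
    dist (g ^ i • x) (g ^ i • y) ≤ Real.exp (Lp * |(i : ℝ)|) * dist x y := by
  have h1 := one_le_K (L := L) (M := M)
  have h2 := mul_nonneg (add_nonneg φ.S_nonneg zero_le_two) (L.nonneg g)
  refine ⟨2 * L.K M + (φ.S + 2) * L.len g, by linarith, fun i x y => ?_⟩
  rcases eq_or_ne i 0 with rfl | hi
  · rw [zpow_zero, one_smul, one_smul, Int.cast_zero, abs_zero, mul_zero, Real.exp_zero, one_mul]
  have h3 : (1 : ℝ) ≤ |(i : ℝ)| := by exact_mod_cast Int.one_le_abs hi
  refine (dist_smulX _ _ _).trans (mul_le_mul_of_nonneg_right ?_ dist_nonneg)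
  rw [add_mul (2 * L.K M), Real.exp_add]
  refine mul_le_mul ?_ (Real.exp_le_exp.mpr ?_) (Real.exp_pos _).le (Real.exp_pos _).le
  · nlinarith [Real.add_one_le_exp (2 * L.K M * |(i : ℝ)|)]
  · have := mul_le_mul_of_nonneg_left (L.len_zpow g i) (add_nonneg φ.S_nonneg zero_le_two)
    linarith

theorem covX (hM : PCov M) (x₀ : L.Sk M) : Cov x₀ := by
  classical
  obtain ⟨C, d, hC, h⟩ := L.toNm.cov
  obtain ⟨C', d', h'⟩ := hM
  have hK := one_le_K (L := L) (M := M)
  have hS := φ.S_nonneg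
  have hh := L.ht_nonneg x₀.π
  set A : ℝ := (2 * L.K M) ^ d * (|C'| * 2 ^ d') with hA
  have hA0 : 0 ≤ A := by positivity
  refine ⟨A + (C + d' * φ.S) * (1 + L.ht x₀.π), d + d', by positivity, fun R δ hR hδ hδ1 => ?_⟩
  set T := R + L.ht x₀.π with hT
  have hT0 : 0 ≤ T := by positivity
  have hE : 1 ≤ Real.exp (φ.S * (1 + T)) := Real.one_le_exp (by positivity)
  obtain ⟨F, h1, h2⟩ := h T (δ / (2 * L.K M)) hT0 (by positivity)
    ((div_le_one (by positivity)).mpr (by linarith))
  obtain ⟨F', h1', h2'⟩ := h' (δ / (2 * Real.exp (φ.S * (1 + T)))) (by positivity)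
    ((div_le_one (by positivity)).mpr (by linarith))
  refine ⟨(F ×ˢ F').image fun z => L.q (show G from z.1) z.2, ?_, fun x hx => ?_⟩
  · have h3 : (((F ×ˢ F').image fun z => L.q (show G from z.1) z.2).card : ℝ) ≤ F.card * F'.card := by
      rw [← Nat.cast_mul, ← Finset.card_product]
      exact Nat.cast_le.mpr Finset.card_image_le
    have h4 := h1'.trans (div_le_div_of_nonneg_right (le_abs_self C') (by positivity))
    refine (h3.trans (mul_le_mul h1 h4 (by positivity) (by positivity))).trans ?_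
    have h5 : A * Real.exp ((C + d' * φ.S) * (1 + T)) ≤
        Real.exp ((A + (C + d' * φ.S) * (1 + L.ht x₀.π)) * (1 + R)) := by
      rw [add_mul A, Real.exp_add]
      refine mul_le_mul ?_ (Real.exp_le_exp.mpr ?_) (Real.exp_pos _).le (Real.exp_pos _).le
      · nlinarith [Real.add_one_le_exp (A * (1 + R)), mul_nonneg hA0 hR]
      · rw [mul_assoc]
        exact mul_le_mul_of_nonneg_left (by nlinarith [mul_nonneg hh hR]) (by positivity)
    refine le_trans (le_of_eq ?_) (div_le_div_of_nonneg_right h5 (by positivity))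
    rw [add_mul C, Real.exp_add, mul_assoc (d' : ℝ), Real.exp_nat_mul, hA]
    simp only [div_pow, mul_pow, pow_add]
    field_simp
  · have h3 : L.len (L.sec x.π) ≤ T := by
      rw [len_sec]
      linarith [L.ht_le x.π x₀.π, dist_π_le x x₀]
    obtain ⟨f, hf, h4⟩ := h2 (L.sec x.π) (by rw [L.dist_Gm, inv_one, mul_one]; exact h3)
    obtain ⟨p, hp, h5⟩ := h2' x.pt
    refine ⟨L.q (show G from f) p, Finset.mem_image.mpr ⟨(f, p), Finset.mk_mem_product hf hp, rfl⟩, ?_⟩
    have h6 := dist_q_le (L := L) (L.sec x.π) f x.pt p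
    rw [q_eta] at h6
    have h7 : L.len (L.sec x.π * (show G from f)⁻¹) ≤ δ / (2 * L.K M) := h4
    have h8 : Real.exp (φ.S * (1 + L.len (L.sec x.π))) ≤ Real.exp (φ.S * (1 + T)) :=
      Real.exp_le_exp.mpr (mul_le_mul_of_nonneg_left (by linarith) hS)
    have h9 := mul_le_mul h8 h5 dist_nonneg (Real.exp_pos _).le
    have h10 := mul_le_mul_of_nonneg_left h7 (zero_le_one.trans hK)
    rw [show Real.exp (φ.S * (1 + T)) * (δ / (2 * Real.exp (φ.S * (1 + T)))) = δ / 2 by
      field_simp] at h9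
    rw [show L.K M * (δ / (2 * L.K M)) = δ / 2 by field_simp] at h10
    linarith

/-- Compact subsets of the suspension have polynomial covering numbers. -/
theorem coverX (hM : PCov M) (K : Set (L.Sk M)) (hK : IsCompact K) : ∃ C : ℝ, ∀ r : ℝ, 0 < r →
    r ≤ 1 → ∃ F : Finset (L.Sk M), (F.card : ℝ) ≤ C * r⁻¹ ^ C ∧ K ⊆ ⋃ z ∈ F, ball z r := by
  rcases K.eq_empty_or_nonempty with rfl | ⟨x, -⟩
  · exact ⟨0, fun r _ _ => ⟨∅, by simp, empty_subset _⟩⟩
  · exact (covX hM x).cover K hK

end Lat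

end Pool.Agent.P.MP_d483fb_an.Z

end

end
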