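import Mathlib

section

/-! Averages along one-parameter groups in a strongly continuous representation of a vector
group, and a Bessel inequality in the unitary case. -/

namespace Pool.Agent.P.MP_d483fb_an.Z.ST

open MeasureTheory Set

/-- A strongly continuous representation of the additive group `V` on `H`. -/
structure Rep (V H : Type*) [NormedAddCommGroup V] [NormedAddCommGroup H] [NormedSpace ℝ H] where
  τ : V → H →L[ℝ] H
  add : ∀ u v, τ (u + v) = τ u * τ v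
  zero : τ 0 = 1
  cont : ∀ ξ, Continuous fun v => τ v ξ

namespace Rep

section Banach
variable {V H : Type*} [NormedAddCommGroup V] [NormedSpace ℝ V] [NormedAddCommGroup H]
  [NormedSpace ℝ H] [CompleteSpace H] (T : Rep V H)

omit [CompleteSpace H] in
lemma cont_line (v : V) (ξ : H) : Continuous fun t : ℝ => T.τ (t • v) ξ :=
  (T.cont ξ).comp (continuous_id.smul continuous_const)

omit [NormedSpace ℝ V] in
lemma exists_bound {K : Set V} (hK : IsCompact K) : ∃ C, ∀ v ∈ K, ‖T.τ v‖ ≤ C := by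
  have h : ∀ ξ, ∃ C, ∀ v : K, ‖T.τ v ξ‖ ≤ C := fun ξ => by
    obtain ⟨C, hC⟩ := hK.exists_bound_of_continuousOn (T.cont ξ).continuousOn
    exact ⟨C, fun v => hC v v.2⟩
  obtain ⟨C, hC⟩ := banach_steinhaus h
  exact ⟨C, fun v hv => hC ⟨v, hv⟩⟩

omit [CompleteSpace H] in
lemma norm_int_le (v : V) (a b om : ℝ) (h : ∀ t ∈ uIcc a b, ‖T.τ (t • v)‖ ≤ om) (ξ : H) :
    ‖∫ t in a..b, T.τ (t • v) ξ‖ ≤ om * ‖ξ‖ * |b - a| :=
  intervalIntegral.norm_integral_le_of_norm_le_const fun t ht =>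
    (T.τ (t • v)).le_of_opNorm_le (h t (uIoc_subset_uIcc ht)) ξ

/-- The average of `τ (t • v)` over `0 ≤ t ≤ p`. -/
noncomputable def av (v : V) (p : ℝ) : H →L[ℝ] H :=
  LinearMap.mkContinuousOfExistsBound
    { toFun := fun ξ => p⁻¹ • ∫ t in (0 : ℝ)..p, T.τ (t • v) ξ
      map_add' := fun a b => by
        simp only [map_add]
        rw [intervalIntegral.integral_add ((T.cont_line v a).intervalIntegrable _ _)
          ((T.cont_line v b).intervalIntegrable _ _), smul_add]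
      map_smul' := fun c a => by
        simp only [map_smul, intervalIntegral.integral_smul, RingHom.id_apply]
        rw [smul_comm] }
    (by
      obtain ⟨C, hC⟩ := T.exists_bound
        ((isCompact_uIcc (a := (0 : ℝ)) (b := p)).image (f := fun t : ℝ => t • v)
          (continuous_id.smul continuous_const))
      refine ⟨‖p⁻¹‖ * (C * |p - 0|), fun ξ => ?_⟩
      have := T.norm_int_le v 0 p C (fun t ht => hC _ ⟨t, ht, rfl⟩) ξ
      simp only [LinearMap.coe_mk, AddHom.coe_mk, norm_smul]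
      calc _ ≤ ‖p⁻¹‖ * (C * ‖ξ‖ * |p - 0|) := by gcongr
        _ = _ := by ring)

lemma av_apply (v : V) (p : ℝ) (ξ : H) :
    T.av v p ξ = p⁻¹ • ∫ t in (0 : ℝ)..p, T.τ (t • v) ξ := rfl

lemma norm_av_le {v : V} {p om : ℝ} (hp : 0 < p) (h : ∀ t ∈ Icc 0 p, ‖T.τ (t • v)‖ ≤ om) :
    ‖T.av v p‖ ≤ om := by
  have h0 : 0 ≤ om := (norm_nonneg _).trans (h 0 ⟨le_rfl, hp.le⟩)
  refine ContinuousLinearMap.opNorm_le_bound _ h0 fun ξ => ?_
  have := T.norm_int_le v 0 p om (fun t ht => h t (by rwa [uIcc_of_le hp.le] at ht)) ξ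
  rw [av_apply, norm_smul, Real.norm_eq_abs, abs_of_pos (inv_pos.mpr hp)]
  rw [sub_zero, abs_of_pos hp] at this
  calc _ ≤ p⁻¹ * (om * ‖ξ‖ * p) := by gcongr
    _ = _ := by field_simp

/-- If all translates of `ξ` are close to `η` then so is the average. -/
lemma norm_av_sub_le {v : V} {p c : ℝ} (hp : 0 < p) {ξ η : H}
    (h : ∀ t ∈ Icc 0 p, ‖T.τ (t • v) ξ - η‖ ≤ c) : ‖T.av v p ξ - η‖ ≤ c := by
  have e : T.av v p ξ - η = p⁻¹ • ∫ t in (0 : ℝ)..p, (T.τ (t • v) ξ - η) := by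
    rw [intervalIntegral.integral_sub ((T.cont_line v ξ).intervalIntegrable _ _)
      (continuous_const.intervalIntegrable _ _), av_apply, smul_sub]
    simp [smul_smul, hp.ne']
  have := intervalIntegral.norm_integral_le_of_norm_le_const (a := 0) (b := p) (C := c)
    (f := fun t => T.τ (t • v) ξ - η) fun t ht => h t (by
      rw [uIoc_of_le hp.le] at ht; exact Ioc_subset_Icc_self ht)
  rw [e, norm_smul, Real.norm_eq_abs, abs_of_pos (inv_pos.mpr hp)]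
  rw [sub_zero, abs_of_pos hp] at this
  calc _ ≤ p⁻¹ * (c * p) := by gcongr
    _ = _ := by field_simp

lemma map_av {H' : Type*} [NormedAddCommGroup H'] [NormedSpace ℝ H'] [CompleteSpace H']
    (S : H →L[ℝ] H') (v : V) (p : ℝ) (ξ : H) :
    S (T.av v p ξ) = p⁻¹ • ∫ t in (0 : ℝ)..p, S (T.τ (t • v) ξ) := by
  rw [av_apply, map_smul, S.intervalIntegral_comp_comm ((T.cont_line v ξ).intervalIntegrable _ _)]

/-- Intertwining of averages. -/
lemma av_conj {V' : Type*} [NormedAddCommGroup V'] [NormedSpace ℝ V'] (T' : Rep V' H)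
    {S S' : H →L[ℝ] H} {v : V} {v' : V'} (h : ∀ t : ℝ, S * T.τ (t • v) = T'.τ (t • v') * S')
    (p : ℝ) : S * T.av v p = T'.av v' p * S' := by
  ext ξ
  rw [mul_apply_eq_comp, map_av, mul_apply_eq_comp, av_apply]
  congr 2
  ext t
  exact congrArg (· ξ) (h t)

omit [NormedSpace ℝ V] [CompleteSpace H] in
lemma commute_τ (u v : V) : Commute (T.τ u) (T.τ v) := by
  rw [Commute, SemiconjBy, ← T.add, ← T.add, add_comm]

lemma commute_av {S : H →L[ℝ] H} (h : ∀ u, Commute S (T.τ u)) (v : V) (p : ℝ) :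
    Commute S (T.av v p) := T.av_conj T (fun _ => h _) p

lemma commute_τ_av (u v : V) (p : ℝ) : Commute (T.τ u) (T.av v p) :=
  T.commute_av (T.commute_τ u) v p

lemma commute_av_av (u v : V) (p q : ℝ) : Commute (T.av u p) (T.av v q) :=
  T.commute_av (fun w => (T.commute_τ_av w u p).symm) v q

lemma norm_av_shift {v : V} {p c om : ℝ} (hp : 0 < p)
    (h : ∀ t : ℝ, |t| ≤ p + |c| → ‖T.τ (t • v)‖ ≤ om) :
    ‖T.av v p * (T.τ (c • v) - 1)‖ ≤ 2 * om * |c| / p := by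
  have h0 : 0 ≤ om := (norm_nonneg _).trans (h 0 (by rw [abs_zero]; positivity))
  refine ContinuousLinearMap.opNorm_le_bound _ (by positivity) fun ξ => ?_
  have hi : ∀ a b, IntervalIntegrable (fun t : ℝ => T.τ (t • v) ξ) volume a b :=
    fun a b => (T.cont_line v ξ).intervalIntegrable a b
  have e1 : ∫ t in (0 : ℝ)..p, T.τ (t • v) (T.τ (c • v) ξ) = ∫ t in c..p + c, T.τ (t • v) ξ := by
    have := intervalIntegral.integral_comp_add_right (a := 0) (b := p)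
      (fun t : ℝ => T.τ (t • v) ξ) c
    rw [zero_add] at this
    rw [← this]
    congr 1
    ext t
    rw [add_smul, T.add, mul_apply_eq_comp]
  have e : (T.av v p * (T.τ (c • v) - 1)) ξ =
      p⁻¹ • ((∫ t in p..p + c, T.τ (t • v) ξ) - ∫ t in (0 : ℝ)..c, T.τ (t • v) ξ) := by
    rw [mul_apply_eq_comp, sub_apply, map_sub, av_apply, e1,
      one_apply_eq_self, av_apply, ← smul_sub,
      intervalIntegral.integral_interval_sub_interval_comm' (hi _ _) (hi _ _) (hi _ _)]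
  have b1 := T.norm_int_le v p (p + c) om (fun t ht => h t (by
    have := abs_sub_left_of_mem_uIcc ht
    rw [add_sub_cancel_left] at this
    have h2 := abs_sub_abs_le_abs_sub t p
    rw [abs_of_pos hp] at h2
    linarith)) ξ
  have b2 := T.norm_int_le v 0 c om (fun t ht => h t (by
    have := abs_sub_left_of_mem_uIcc ht
    rw [sub_zero, sub_zero] at this
    linarith)) ξ
  rw [add_sub_cancel_left] at b1
  rw [sub_zero] at b2
  rw [e, norm_smul, Real.norm_eq_abs, abs_of_pos (inv_pos.mpr hp)]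
  calc _ ≤ p⁻¹ * (om * ‖ξ‖ * |c| + om * ‖ξ‖ * |c|) := by
        gcongr; exact (norm_sub_le _ _).trans (add_le_add b1 b2)
    _ = _ := by field_simp; ring

lemma av_mem {v : V} {p : ℝ} (hp : 0 < p) {ξ : H} {K : Set H} (hK : Convex ℝ K) (hc : IsClosed K)
    (h : ∀ t ∈ Icc 0 p, T.τ (t • v) ξ ∈ K) : T.av v p ξ ∈ K := by
  have hm : volume.real (Ioc (0 : ℝ) p) = p := by simp [hp.le]
  have := hK.set_average_mem hc (μ := volume) (t := Ioc 0 p) (f := fun t : ℝ => T.τ (t • v) ξ)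
    (by simp [hp]) (by simp)
    (ae_restrict_of_forall_mem measurableSet_Ioc fun t ht => h t (Ioc_subset_Icc_self ht))
    ((T.cont_line v ξ).intervalIntegrable 0 p).1
  rwa [setAverage_eq, hm, ← intervalIntegral.integral_of_le hp.le] at this

end Banach

end Rep

end Pool.Agent.P.MP_d483fb_an.Z.ST


end

section

/-! Interface of the averaging theorem for representations of subexponential growth. -/

namespace Pool.Agent.P.MP_d483fb_an.Z.ST

open Filter Topology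

/-- The vector group `ℝ³`. -/
abbrev V3 : Type := Fin 3 → ℝ

/-- The action of the small opposite root group on `span (z, x, x₂)`. -/
noncomputable def sh (s : ℝ) (v : V3) : V3 := ![v 0, v 1 + s * v 0, v 2 + s * v 1 + s ^ 2 / 2 * v 0]

variable {G : Type*} [Group G] [TopologicalSpace G]

/-- `sz` is a multiplicative size, `dd` a distance to the identity. -/
structure Size (sz dd : G → ℝ) : Prop where
  one_le : ∀ g, 1 ≤ sz g
  mul : ∀ g h, sz (g * h) ≤ sz g * sz h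
  inv : ∀ g, sz g⁻¹ = sz g
  dd_nonneg : ∀ g, 0 ≤ dd g
  conj : ∀ g h, dd (h⁻¹ * g * h) ≤ sz h ^ 2 * dd g
  loc : ∃ C, ∀ g, dd g ≤ 1 → sz g ≤ C

/-- A continuous homomorphism from a vector group, of polynomial size. -/
structure Unip (sz : G → ℝ) {V : Type*} [NormedAddCommGroup V] (e : V → G) : Prop where
  add : ∀ u v, e (u + v) = e u * e v
  cont : Continuous e
  poly : ∃ (C : ℝ) (D : ℕ), ∀ v, sz (e v) ≤ C * (1 + ‖v‖) ^ D

/-- A map which is Lipschitz at the origin. -/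
def LipAt (dd : G → ℝ) (w : ℝ → G) : Prop := ∃ C, ∀ s, |s| ≤ 1 → dd (w s) ≤ C * |s|

/-- The data attached to a longest root `b = a + c`.  With root vectors `z = [x, y]`,
`e1 v = exp (v 0 z + v 1 x + v 2 x₂)`, `e2 v = exp (v 0 z + v 1 y + v 2 y₂)`,
`w1 s`, `w2 s`, `lo s` are exponentials of root vectors of `-c`, `-a`, `-b`, and
`a = exp (log 2 • h)` for the `sl₂` triple of `z`. -/
structure Data (sz dd : G → ℝ) where
  e1 : V3 → G
  e2 : V3 → G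
  w1 : ℝ → G
  w2 : ℝ → G
  lo : ℝ → G
  a : G
  u1 : Unip sz e1
  u2 : Unip sz e2
  l1 : LipAt dd w1
  l2 : LipAt dd w2
  l3 : LipAt dd lo
  same : ∀ t : ℝ, e1 ![t, 0, 0] = e2 ![t, 0, 0]
  c1 : ∀ s v, w1 s * e1 v = e1 (sh s v) * w1 s
  c2 : ∀ s v, w2 s * e2 v = e2 (sh s v) * w2 s
  heis : ∀ s t r : ℝ, e2 ![t, r, 0] * e1 ![0, s, 0] = e1 ![0, s, 0] * e2 ![t - s * r, r, 0]
  sl : ∀ d : ℝ, 0 < d → e1 ![d⁻¹, 0, 0] * lo d * e1 ![-(2 * d)⁻¹, 0, 0] = a * lo (2 * d)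

/-- `g` is exponentially contracted by conjugation with the powers of `a`. -/
def Contr (dd : G → ℝ) (a g : G) : Prop :=
  ∃ C β : ℝ, 0 ≤ β ∧ β < 1 ∧ ∀ n : ℕ, dd (a ^ n * g * (a ^ n)⁻¹) ≤ C * β ^ n

variable {H : Type*} [NormedAddCommGroup H] [NormedSpace ℝ H]

/-- A strongly continuous representation of subexponential growth. -/
structure Grow (sz : G → ℝ) (π : G →* (H →L[ℝ] H)) : Prop where
  cont : ∀ ξ, Continuous fun g => π g ξ
  grow : ∀ ε : ℝ, 0 < ε → ∃ C, ∀ g, ‖π g‖ ≤ C * sz g ^ ε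

/-- Decay like a negative power. -/
def Sm (F : ℝ → ℝ) : Prop := ∃ κ : ℝ, 0 < κ ∧ ∃ C, ∀ᶠ q in atTop, F q ≤ C * q ^ (-κ)

/-- Growth slower than every positive power. -/
def Sb (F : ℝ → ℝ) : Prop := ∀ ε : ℝ, 0 < ε → ∃ C, ∀ᶠ q in atTop, F q ≤ C * q ^ ε

/-- A bounded set of uniformly Hölder vectors. -/
structure Hol (dd : G → ℝ) (π : G →* (H →L[ℝ] H)) (S : Set H) : Prop where
  bdd : ∃ B, ∀ ξ ∈ S, ‖ξ‖ ≤ B
  hol : ∃ F, Sm F ∧ ∀ᶠ q in atTop, ∀ ξ ∈ S, ∀ g, dd g ≤ q⁻¹ → ‖π g ξ - ξ‖ ≤ F q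

/-- `ζ` is approximated at a polynomial rate by convex combinations of translates of `ξ`. -/
def App (sz : G → ℝ) (π : G →* (H →L[ℝ] H)) (ξ ζ : H) : Prop :=
  ∃ F, Sm F ∧ ∀ᶠ R in atTop, ∃ η ∈ convexHull ℝ {x | ∃ g, sz g ≤ R ∧ x = π g ξ}, ‖ζ - η‖ ≤ F R

/-- The representation of a vector group induced by a homomorphism. -/
def Grow.rep {sz : G → ℝ} {π : G →* (H →L[ℝ] H)} (hπ : Grow sz π) {V : Type*}
    [NormedAddCommGroup V] {e : V → G} (he : Unip sz e) : Rep V H where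
  τ v := π (e v)
  add u v := by rw [he.add, map_mul]
  zero := by
    have h := he.add 0 0
    rw [add_zero, left_eq_mul] at h
    rw [h, map_one]
  cont ξ := (hπ.cont ξ).comp he.cont

/-- The average over the longest root group. -/
noncomputable def Data.avz [CompleteSpace H] {sz dd : G → ℝ} (D : Data sz dd)
    {π : G →* (H →L[ℝ] H)} (hπ : Grow sz π) (p : ℝ) : H →L[ℝ] H :=
  (hπ.rep D.u1).av ![1, 0, 0] p

end Pool.Agent.P.MP_d483fb_an.Z.ST


end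

section

/-! Calculus of power decay and subpolynomial growth. -/

namespace Pool.Agent.P.MP_d483fb_an.Z.ST

open Filter Topology

variable {F G : ℝ → ℝ}

lemma Sm.out (h : Sm F) : ∃ κ : ℝ, 0 < κ ∧ ∃ C, 0 ≤ C ∧ ∀ᶠ q in atTop, F q ≤ C * q ^ (-κ) := by
  obtain ⟨κ, hκ, C, h⟩ := h
  refine ⟨κ, hκ, max C 0, le_max_right _ _, ?_⟩
  filter_upwards [h, eventually_gt_atTop 0] with q h1 h2
  exact h1.trans (by gcongr; exact le_max_left _ _)

lemma Sb.out (h : Sb F) {ε : ℝ} (hε : 0 < ε) : ∃ C, 0 ≤ C ∧ ∀ᶠ q in atTop, F q ≤ C * q ^ ε := by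
  obtain ⟨C, h⟩ := h ε hε
  refine ⟨max C 0, le_max_right _ _, ?_⟩
  filter_upwards [h, eventually_gt_atTop 0] with q h1 h2
  exact h1.trans (by gcongr; exact le_max_left _ _)

lemma Sm.mono (h : Sm G) (hle : ∀ᶠ q in atTop, F q ≤ G q) : Sm F := by
  obtain ⟨κ, hκ, C, h⟩ := h
  exact ⟨κ, hκ, C, by filter_upwards [h, hle] with q h1 h2 using h2.trans h1⟩

lemma Sm.add (hF : Sm F) (hG : Sm G) : Sm fun q => F q + G q := by
  obtain ⟨κ, hκ, C, hC, h⟩ := hF.out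
  obtain ⟨κ', hκ', C', hC', h'⟩ := hG.out
  refine ⟨min κ κ', lt_min hκ hκ', C + C', ?_⟩
  filter_upwards [h, h', eventually_ge_atTop 1] with q h1 h2 h3
  have e1 : q ^ (-κ) ≤ q ^ (-min κ κ') :=
    Real.rpow_le_rpow_of_exponent_le h3 (neg_le_neg (min_le_left _ _))
  have e2 : q ^ (-κ') ≤ q ^ (-min κ κ') :=
    Real.rpow_le_rpow_of_exponent_le h3 (neg_le_neg (min_le_right _ _))
  calc _ ≤ C * q ^ (-min κ κ') + C' * q ^ (-min κ κ') :=
        add_le_add (h1.trans (by gcongr)) (h2.trans (by gcongr))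
    _ = _ := by ring

lemma Sb.mul_sm (hF : Sb F) (h0 : ∀ q, 0 ≤ F q) (hG : Sm G) : Sm fun q => F q * G q := by
  obtain ⟨κ, hκ, C, hC, h⟩ := hG.out
  obtain ⟨C', hC', h'⟩ := hF.out (half_pos hκ)
  refine ⟨κ / 2, half_pos hκ, C' * C, ?_⟩
  filter_upwards [h, h', eventually_gt_atTop 0] with q h1 h2 h3
  calc _ ≤ F q * (C * q ^ (-κ)) := mul_le_mul_of_nonneg_left h1 (h0 q)
    _ ≤ C' * q ^ (κ / 2) * (C * q ^ (-κ)) := by gcongr
    _ = C' * C * (q ^ (κ / 2) * q ^ (-κ)) := by ring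
    _ = _ := by rw [← Real.rpow_add h3]; congr 2; ring

lemma Sb.mul (hF : Sb F) (h0 : ∀ q, 0 ≤ F q) (hG : Sb G) : Sb fun q => F q * G q := by
  intro ε hε
  obtain ⟨C, hC, h⟩ := hG.out (half_pos hε)
  obtain ⟨C', hC', h'⟩ := hF.out (half_pos hε)
  refine ⟨C' * C, ?_⟩
  filter_upwards [h, h', eventually_gt_atTop 0] with q h1 h2 h3
  calc _ ≤ F q * (C * q ^ (ε / 2)) := mul_le_mul_of_nonneg_left h1 (h0 q)
    _ ≤ C' * q ^ (ε / 2) * (C * q ^ (ε / 2)) := by gcongr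
    _ = C' * C * (q ^ (ε / 2) * q ^ (ε / 2)) := by ring
    _ = _ := by rw [← Real.rpow_add h3, add_halves]

lemma Sb.add (hF : Sb F) (hG : Sb G) : Sb fun q => F q + G q := by
  intro ε hε
  obtain ⟨C, h⟩ := hF ε hε
  obtain ⟨C', h'⟩ := hG ε hε
  exact ⟨C + C', by filter_upwards [h, h'] with q h1 h2 using by linarith⟩

lemma sb_const (c : ℝ) : Sb fun _ => c := by
  intro ε hε
  refine ⟨|c|, ?_⟩
  filter_upwards [eventually_ge_atTop 1] with q h
  have := Real.one_le_rpow h hε.le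
  nlinarith [le_abs_self c, abs_nonneg c]

lemma Sm.const_mul (hF : Sm F) {c : ℝ} (hc : 0 ≤ c) : Sm fun q => c * F q :=
  (sb_const c).mul_sm (fun _ => hc) hF

lemma sm_rpow {κ : ℝ} (hκ : 0 < κ) : Sm fun q => q ^ (-κ) :=
  ⟨κ, hκ, 1, Eventually.of_forall fun q => by rw [one_mul]⟩

lemma Sm.comp_rpow (hF : Sm F) {r : ℝ} (hr : 0 < r) : Sm fun q => F (q ^ r) := by
  obtain ⟨κ, hκ, C, h⟩ := hF
  refine ⟨r * κ, mul_pos hr hκ, C, ?_⟩
  filter_upwards [(tendsto_rpow_atTop hr).eventually h, eventually_gt_atTop 0] with q h1 h2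
  rwa [← Real.rpow_mul h2.le, mul_neg] at h1

lemma Sm.root (hF : Sm F) {m : ℕ} (hm : m ≠ 0) {P : ℝ → ℝ → Prop}
    (h : ∀ᶠ q in atTop, P (q ^ m) (F q)) : ∃ F', Sm F' ∧ ∀ᶠ R in atTop, P R (F' R) := by
  have hr : (0 : ℝ) < (m : ℝ)⁻¹ := inv_pos.mpr (by exact_mod_cast Nat.pos_of_ne_zero hm)
  refine ⟨_, hF.comp_rpow hr, ?_⟩
  filter_upwards [(tendsto_rpow_atTop hr).eventually h, eventually_gt_atTop 0] with q h1 h2
  rwa [Real.rpow_inv_natCast_pow h2.le hm] at h1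

lemma Sm.le_zero (hF : Sm F) {x : ℝ} (h : ∀ᶠ q in atTop, x ≤ F q) : x ≤ 0 := by
  obtain ⟨κ, hκ, C, h'⟩ := hF
  have t := (tendsto_rpow_neg_atTop hκ).const_mul C
  rw [mul_zero] at t
  exact ge_of_tendsto t (by filter_upwards [h, h'] with q h1 h2 using h1.trans h2)

lemma one_add_pow_le {q : ℝ} (hq : 2 ≤ q) (m : ℕ) : 1 + q ^ m ≤ q ^ (m + 1) := by
  have : 1 ≤ q ^ m := one_le_pow₀ (by linarith)
  rw [pow_succ]
  nlinarith

lemma tame_bound {V : Type*} [NormedAddCommGroup V] {f : V → ℝ}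
    (h : ∀ ε : ℝ, 0 < ε → ∃ C, ∀ v, f v ≤ C * (1 + ‖v‖) ^ ε) (m : ℕ) :
    ∃ Ω, Sb Ω ∧ (∀ q, 0 ≤ Ω q) ∧ ∀ q v, ‖v‖ ≤ q ^ m → f v ≤ Ω q := by
  have hb : ∀ ε : ℝ, 0 < ε → ∃ C, 0 ≤ C ∧ ∀ (q : ℝ) v, ‖v‖ ≤ q ^ m →
      f v ≤ C * (1 + q ^ m) ^ ε := by
    intro ε hε
    obtain ⟨C, hC⟩ := h ε hε
    refine ⟨max C 0, le_max_right _ _, fun q v hv => (hC v).trans ?_⟩
    gcongr
    exact le_max_left _ _
  refine ⟨fun q => max 0 (sSup (f '' {v | ‖v‖ ≤ q ^ m})), fun ε hε => ?_,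
    fun q => le_max_left _ _, fun q v hv => ?_⟩
  · have hm : (0 : ℝ) < (m + 1 : ℕ) := by positivity
    obtain ⟨C, hC0, hC⟩ := hb (ε / (m + 1 : ℕ)) (by positivity)
    refine ⟨C, ?_⟩
    filter_upwards [eventually_ge_atTop 2] with q hq
    have hq0 : 0 ≤ q := by linarith
    refine max_le (by positivity) (Real.sSup_le ?_ (by positivity))
    rintro _ ⟨v, hv, rfl⟩
    refine (hC q v hv).trans ?_
    calc _ ≤ C * (q ^ (m + 1)) ^ (ε / (m + 1 : ℕ)) := by gcongr; exact one_add_pow_le hq m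
      _ = _ := by
        rw [← Real.rpow_natCast, ← Real.rpow_mul hq0, mul_div_cancel₀ _ hm.ne']
  · obtain ⟨C, -, hC⟩ := hb 1 one_pos
    exact le_max_of_le_right (le_csSup ⟨_, by rintro _ ⟨w, hw, rfl⟩; exact hC q w hw⟩ ⟨v, hv, rfl⟩)

lemma poly_bound {V : Type*} [NormedAddCommGroup V] {f : V → ℝ}
    (h : ∃ (C : ℝ) (D : ℕ), ∀ v, f v ≤ C * (1 + ‖v‖) ^ D) (m : ℕ) :
    ∃ k : ℕ, ∀ᶠ q : ℝ in atTop, ∀ v, ‖v‖ ≤ q ^ m → f v ≤ q ^ k := by
  obtain ⟨C, D, h⟩ := h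
  refine ⟨1 + (m + 1) * D, ?_⟩
  filter_upwards [eventually_ge_atTop 2, eventually_ge_atTop C] with q hq hC v hv
  have := one_add_pow_le hq m
  refine (h v).trans ?_
  rw [pow_add, pow_one, pow_mul]
  gcongr
  linarith

lemma exists_lim {ι H : Type*} [NormedAddCommGroup H] [CompleteSpace H] (x : ι → ℝ → H)
    (S : Set ι) (hF : Sm F)
    (h : ∀ᶠ q in atTop, ∀ i ∈ S, ∀ q', q ≤ q' → q' ≤ 2 * q → ‖x i q - x i q'‖ ≤ F q + F q') :
    ∃ (l : ι → H) (F' : ℝ → ℝ), Sm F' ∧ ∀ᶠ q in atTop, ∀ i ∈ S, ‖x i q - l i‖ ≤ F' q := by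
  obtain ⟨κ, hκ, C, hC, h'⟩ := hF.out
  obtain ⟨q0, hq0⟩ := eventually_atTop.mp (h.and (h'.and (eventually_ge_atTop 1)))
  have h1 : 1 ≤ q0 := (hq0 q0 le_rfl).2.2
  have hb : ∀ q, q0 ≤ q → ∀ i ∈ S, ∀ q', q ≤ q' → q' ≤ 2 * q →
      ‖x i q - x i q'‖ ≤ 2 * C * q ^ (-κ) := by
    intro q hq i hi q' a b
    have e : q' ^ (-κ) ≤ q ^ (-κ) :=
      Real.rpow_le_rpow_of_nonpos (by linarith) a (by linarith)
    have := (hq0 q hq).1 i hi q' a b
    have := (hq0 q hq).2.1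
    have := (hq0 q' (hq.trans a)).2.1
    nlinarith
  set r : ℝ := 2 ^ (-κ) with hr
  have r0 : 0 < r := by positivity
  have r1 : r < 1 := Real.rpow_lt_one_of_one_lt_of_neg one_lt_two (by linarith)
  have hp : ∀ n : ℕ, (2 ^ n * q0) ^ (-κ) = q0 ^ (-κ) * r ^ n := fun n => by
    rw [Real.mul_rpow (by positivity) (by linarith), mul_comm, hr, ← Real.rpow_natCast,
      ← Real.rpow_natCast, ← Real.rpow_mul zero_le_two, ← Real.rpow_mul zero_le_two, mul_comm (n : ℝ)]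
  have hn : ∀ n : ℕ, q0 ≤ 2 ^ n * q0 := fun n =>
    le_mul_of_one_le_left (by linarith) (one_le_pow₀ one_le_two)
  have hd : ∀ i ∈ S, ∀ n : ℕ, dist (x i (2 ^ n * q0)) (x i (2 ^ (n + 1) * q0)) ≤
      2 * C * q0 ^ (-κ) * r ^ n := fun i hi n => by
    rw [dist_eq_norm, mul_assoc, ← hp]
    refine hb _ (hn n) i hi _ ?_ (le_of_eq (by ring))
    rw [pow_succ]; nlinarith [hn n]
  refine ⟨fun i => limUnder atTop fun n : ℕ => x i (2 ^ n * q0),
    fun q => 2 * C * r⁻¹ * (1 + (1 - r)⁻¹) * q ^ (-κ), (sm_rpow hκ).const_mul (by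
      have : 0 < 1 - r := by linarith
      positivity), ?_⟩
  filter_upwards [eventually_ge_atTop q0] with q hq i hi
  have hc := cauchySeq_of_le_geometric r _ r1 (hd i hi)
  obtain ⟨n, n1, n2⟩ := exists_nat_pow_near ((one_le_div (by linarith)).mpr hq) one_lt_two
  rw [le_div_iff₀ (by linarith)] at n1
  rw [div_lt_iff₀ (by linarith)] at n2
  have d1 := dist_le_of_le_geometric_of_tendsto r _ r1 (hd i hi) hc.tendsto_limUnder n
  have d2 := hb _ (hn n) i hi q n1 (by rw [pow_succ] at n2; linarith)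
  have d3 : q0 ^ (-κ) * r ^ (n + 1) ≤ q ^ (-κ) := by
    rw [← hp]
    exact Real.rpow_le_rpow_of_nonpos (by linarith) n2.le (by linarith)
  have d4 : q0 ^ (-κ) * r ^ n ≤ r⁻¹ * q ^ (-κ) := by
    rw [le_inv_mul_iff₀ r0]
    calc _ = q0 ^ (-κ) * r ^ (n + 1) := by ring
      _ ≤ _ := d3
  rw [hp, norm_sub_rev] at d2
  rw [dist_eq_norm] at d1
  have r2 : 0 < 1 - r := by linarith
  calc _ ≤ _ := norm_sub_le_norm_sub_add_norm_sub _ (x i (2 ^ n * q0)) _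
    _ ≤ 2 * C * (q0 ^ (-κ) * r ^ n) + 2 * C * q0 ^ (-κ) * r ^ n / (1 - r) := add_le_add d2 d1
    _ = 2 * C * (q0 ^ (-κ) * r ^ n) * (1 + (1 - r)⁻¹) := by rw [div_eq_mul_inv]; ring
    _ ≤ 2 * C * (r⁻¹ * q ^ (-κ)) * (1 + (1 - r)⁻¹) := by gcongr
    _ = _ := by ring

end Pool.Agent.P.MP_d483fb_an.Z.ST


end

section

/-! A Bessel inequality for averages in different directions: the unitary case, then
transference to representations which are bounded on a box. -/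

namespace Pool.Agent.P.MP_d483fb_an.Z.ST

open MeasureTheory Set
open scoped RealInnerProductSpace

namespace Rep

section Unitary
variable {V K : Type*} [NormedAddCommGroup V] [NormedSpace ℝ V] [NormedAddCommGroup K]
  [InnerProductSpace ℝ K] [CompleteSpace K] (T : Rep V K)

/-- The operator `Av (v, p) (τ u - 1)`. -/
noncomputable def M {H : Type*} [NormedAddCommGroup H] [NormedSpace ℝ H] [CompleteSpace H]
    (T : Rep V H) (v u : V) (p : ℝ) : H →L[ℝ] H := T.av v p * (T.τ u - 1)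

omit [NormedSpace ℝ V] in
lemma star_τ (hU : ∀ v ζ, ‖T.τ v ζ‖ = ‖ζ‖) (u : V) : star (T.τ u) = T.τ (-u) := by
  rw [ContinuousLinearMap.star_eq_adjoint, eq_comm, ContinuousLinearMap.eq_adjoint_iff]
  intro a b
  have h := LinearIsometry.inner_map_map (𝕜 := ℝ) ⟨(T.τ u : K →ₗ[ℝ] K), hU u⟩ (T.τ (-u) a) b
  have e : T.τ u (T.τ (-u) a) = a := by
    rw [← mul_apply_eq_comp, ← T.add, add_neg_cancel, T.zero, one_apply_eq_self]
  change ⟪T.τ u (T.τ (-u) a), T.τ u b⟫ = _ at h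
  rw [← h, e]

omit [NormedSpace ℝ V] [CompleteSpace K] in
lemma norm_τ_le (hU : ∀ v ζ, ‖T.τ v ζ‖ = ‖ζ‖) (u : V) : ‖T.τ u‖ ≤ 1 :=
  ContinuousLinearMap.opNorm_le_bound _ zero_le_one fun ζ => by rw [hU, one_mul]

omit [NormedSpace ℝ V] [CompleteSpace K] in
lemma norm_τ_sub_le (hU : ∀ v ζ, ‖T.τ v ζ‖ = ‖ζ‖) (u : V) : ‖T.τ u - 1‖ ≤ 2 := by
  have h1 : ‖(1 : K →L[ℝ] K)‖ ≤ 1 := ContinuousLinearMap.norm_id_le
  have := norm_sub_le (T.τ u) 1
  linarith [T.norm_τ_le hU u]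

lemma norm_mul_le_of {R : Type*} [NormedRing R] {a b : R} {x y : ℝ} (ha : ‖a‖ ≤ x)
    (hb : ‖b‖ ≤ y) : ‖a * b‖ ≤ x * y :=
  (norm_mul_le a b).trans (mul_le_mul ha hb (norm_nonneg _) ((norm_nonneg _).trans ha))

lemma norm_M_le (hU : ∀ v ζ, ‖T.τ v ζ‖ = ‖ζ‖) (v u : V) {p : ℝ} (hp : 0 < p) :
    ‖T.M v u p‖ ≤ 2 := by
  have := norm_mul_le_of (T.norm_av_le (v := v) hp fun t _ => T.norm_τ_le hU _)
    (T.norm_τ_sub_le hU u)
  rwa [one_mul] at this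

omit [NormedSpace ℝ V] in
lemma norm_star_op (S : K →L[ℝ] K) : ‖star S‖ = ‖S‖ :=
  LinearIsometryEquiv.norm_map ContinuousLinearMap.adjoint S

omit [NormedSpace ℝ V] in
lemma norm_sq_op {S : K →L[ℝ] K} (h : star S = S) : ‖S * S‖ = ‖S‖ * ‖S‖ := by
  have := ContinuousLinearMap.norm_adjoint_comp_self S
  rwa [← ContinuousLinearMap.star_eq_adjoint, h] at this

lemma commute_M {H : Type*} [NormedAddCommGroup H] [NormedSpace ℝ H] [CompleteSpace H]
    (T : Rep V H) {S : H →L[ℝ] H} (h : ∀ u, Commute S (T.τ u)) (v u : V) (p : ℝ) :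
    Commute S (T.M v u p) :=
  (T.commute_av h v p).mul_right ((h u).sub_right (Commute.one_right S))

lemma commute_star_M (hU : ∀ v ζ, ‖T.τ v ζ‖ = ‖ζ‖) (v u v' u' : V) (p : ℝ) :
    Commute (star (T.M v u p)) (T.M v' u' p) := by
  refine T.commute_M (fun w => ?_) v' u' p
  have := (T.commute_M (T.commute_τ (-w)) v u p).star_star
  rw [T.star_τ hU, neg_neg] at this
  exact this.symm

lemma norm_three (hU : ∀ v ζ, ‖T.τ v ζ‖ = ‖ζ‖) {p ρ : ℝ} (hp : 0 < p) (v1 v2 v3 : V)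
    {c1 c2 c3 : ℝ} (h1 : |c1| ≤ ρ) (h2 : |c2| ≤ ρ) (h3 : |c3| ≤ ρ) :
    ‖T.av v1 p * T.av v2 p * T.av v3 p * (T.τ (c1 • v1 + c2 • v2 + c3 • v3) - 1)‖ ≤
      6 * (ρ / p) := by
  have hs : ∀ (v : V) (c : ℝ), |c| ≤ ρ → ‖T.av v p * (T.τ (c • v) - 1)‖ ≤ 2 * (ρ / p) := by
    intro v c hc
    refine (T.norm_av_shift (om := 1) hp fun t _ => T.norm_τ_le hU _).trans ?_
    rw [mul_one, mul_div_assoc]
    gcongr
  have ha : ∀ v : V, ‖T.av v p‖ ≤ 1 := fun v => T.norm_av_le hp fun t _ => T.norm_τ_le hU _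
  have k12 := T.commute_av_av v1 v2 p p
  have k13 := T.commute_av_av v1 v3 p p
  have k23 := T.commute_av_av v2 v3 p p
  have e1 : T.av v1 p * T.av v2 p * T.av v3 p = T.av v2 p * T.av v3 p * T.av v1 p :=
    by rw [mul_assoc]; exact (k12.mul_right k13).eq
  have e2 : T.av v1 p * T.av v2 p * T.av v3 p = T.av v1 p * T.av v3 p * T.av v2 p :=
    by rw [mul_assoc, k23.eq, mul_assoc]
  have b1 : ‖T.av v1 p * T.av v2 p * T.av v3 p * (T.τ (c1 • v1) - 1)‖ ≤ 1 * 1 * (2 * (ρ / p)) := by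
    rw [e1, mul_assoc]; exact norm_mul_le_of (norm_mul_le_of (ha _) (ha _)) (hs _ _ h1)
  have b2 : ‖T.av v1 p * T.av v2 p * T.av v3 p * (T.τ (c2 • v2) - 1)‖ ≤ 1 * 1 * (2 * (ρ / p)) := by
    rw [e2, mul_assoc]; exact norm_mul_le_of (norm_mul_le_of (ha _) (ha _)) (hs _ _ h2)
  have b3 : ‖T.av v1 p * T.av v2 p * T.av v3 p * (T.τ (c3 • v3) - 1)‖ ≤ 1 * 1 * (2 * (ρ / p)) := by
    rw [mul_assoc]; exact norm_mul_le_of (norm_mul_le_of (ha _) (ha _)) (hs _ _ h3)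
  rw [T.add, T.add]
  generalize T.av v1 p * T.av v2 p * T.av v3 p = Y at b1 b2 b3 ⊢
  have e : Y * (T.τ (c1 • v1) * T.τ (c2 • v2) * T.τ (c3 • v3) - 1) =
      Y * (T.τ (c1 • v1) - 1) * T.τ (c2 • v2) * T.τ (c3 • v3) +
        Y * (T.τ (c2 • v2) - 1) * T.τ (c3 • v3) + Y * (T.τ (c3 • v3) - 1) := by noncomm_ring
  rw [e]
  have d1 := norm_mul_le_of (norm_mul_le_of b1 (T.norm_τ_le hU (c2 • v2)))
    (T.norm_τ_le hU (c3 • v3))
  have d2 := norm_mul_le_of b2 (T.norm_τ_le hU (c3 • v3))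
  have := norm_add₃_le (a := Y * (T.τ (c1 • v1) - 1) * T.τ (c2 • v2) * T.τ (c3 • v3))
    (b := Y * (T.τ (c2 • v2) - 1) * T.τ (c3 • v3)) (c := Y * (T.τ (c3 • v3) - 1))
  linarith

lemma norm_AAA (hU : ∀ v ζ, ‖T.τ v ζ‖ = ‖ζ‖) {p ρ : ℝ} (hp : 0 < p) (v1 v2 v3 u1 u2 u3 : V)
    {c1 c2 c3 : ℝ} (h1 : |c1| ≤ ρ) (h2 : |c2| ≤ ρ) (h3 : |c3| ≤ ρ)
    (hu : u1 = c1 • v1 + c2 • v2 + c3 • v3) :
    ‖star (T.M v1 u1 p) * T.M v1 u1 p * (star (T.M v2 u2 p) * T.M v2 u2 p) *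
      (star (T.M v3 u3 p) * T.M v3 u3 p)‖ ≤ 192 * (ρ / p) := by
  have hn : ∀ (u v : V), Commute (T.τ u - 1) (T.av v p) :=
    fun u v => (T.commute_τ_av u v p).sub_left (Commute.one_left _)
  have e1 : T.M v1 u1 p * T.M v2 u2 p * T.M v3 u3 p =
      T.av v1 p * T.av v2 p * T.av v3 p * (T.τ u1 - 1) * (T.τ u2 - 1) * (T.τ u3 - 1) := by
    simp only [M, mul_assoc]
    rw [(hn u2 v3).left_comm, (hn u1 v2).left_comm, (hn u1 v3).left_comm]
  have b1 : ‖T.M v1 u1 p * T.M v2 u2 p * T.M v3 u3 p‖ ≤ 6 * (ρ / p) * 2 * 2 := by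
    rw [e1]
    refine norm_mul_le_of (norm_mul_le_of ?_ (T.norm_τ_sub_le hU _)) (T.norm_τ_sub_le hU _)
    rw [hu]
    exact T.norm_three hU hp v1 v2 v3 h1 h2 h3
  have e2 : star (T.M v1 u1 p) * T.M v1 u1 p * (star (T.M v2 u2 p) * T.M v2 u2 p) *
      (star (T.M v3 u3 p) * T.M v3 u3 p) =
      star (T.M v1 u1 p) * star (T.M v2 u2 p) * star (T.M v3 u3 p) *
        (T.M v1 u1 p * T.M v2 u2 p * T.M v3 u3 p) := by
    simp only [mul_assoc]
    rw [(T.commute_star_M hU v3 u3 v2 u2 p).symm.left_comm,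
      (T.commute_star_M hU v2 u2 v1 u1 p).symm.left_comm,
      (T.commute_star_M hU v3 u3 v1 u1 p).symm.left_comm]
  have hs : ∀ v u : V, ‖star (T.M v u p)‖ ≤ 2 := fun v u => by
    rw [norm_star_op]; exact T.norm_M_le hU v u hp
  rw [e2]
  refine (norm_mul_le_of (norm_mul_le_of (norm_mul_le_of (hs _ _) (hs _ _)) (hs _ _)) b1).trans
    (le_of_eq (by ring))

theorem bessel_unitary (hU : ∀ v ζ, ‖T.τ v ζ‖ = ‖ζ‖) {N : ℕ} (hN : 0 < N) (v u : Fin N → V)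
    {p ρ κ : ℝ} (hp : 0 < p) (hρ : 0 ≤ ρ) (hκ0 : 0 ≤ κ)
    (hrel : ∀ i j k, i ≠ j → j ≠ k → i ≠ k → ∃ c1 c2 c3 : ℝ, |c1| ≤ ρ ∧ |c2| ≤ ρ ∧ |c3| ≤ ρ ∧
      u i = c1 • v i + c2 • v j + c3 • v k)
    (hκ : 192 * (ρ / p + 1 / N) ≤ κ ^ 3) (ζ : K) :
    ∃ i, ‖T.M (v i) (u i) p ζ‖ ^ 2 ≤ κ * ‖ζ‖ ^ 2 := by
  classical
  set A : Fin N → K →L[ℝ] K := fun i => star (T.M (v i) (u i) p) * T.M (v i) (u i) p with hA
  have hA4 : ∀ i, ‖A i‖ ≤ 2 * 2 := fun i =>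
    norm_mul_le_of (by rw [norm_star_op]; exact T.norm_M_le hU _ _ hp) (T.norm_M_le hU _ _ hp)
  have hN' : (0 : ℝ) < N := by exact_mod_cast hN
  have hb : ∀ i j k, ‖A i * A j * A k‖ ≤ 192 * (ρ / p) + 64 * ((if i = j then 1 else 0) +
      (if j = k then 1 else 0) + (if i = k then 1 else 0)) := by
    intro i j k
    have h64 := norm_mul_le_of (norm_mul_le_of (hA4 i) (hA4 j)) (hA4 k)
    have h0 : 0 ≤ ρ / p := by positivity
    by_cases hij : i = j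
    · rw [if_pos hij]; split_ifs <;> linarith
    by_cases hjk : j = k
    · rw [if_pos hjk]; split_ifs <;> linarith
    by_cases hik : i = k
    · rw [if_pos hik, if_neg hij, if_neg hjk]; linarith
    obtain ⟨c1, c2, c3, h1, h2, h3, hu⟩ := hrel i j k hij hjk hik
    rw [if_neg hij, if_neg hjk, if_neg hik]
    have := T.norm_AAA hU hp (v i) (v j) (v k) (u i) (u j) (u k) h1 h2 h3 hu
    linarith
  set S := ∑ i, A i with hS
  have hS3 : ‖S * S * S‖ ≤ (N * κ) ^ 3 := by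
    have e : S * S * S = ∑ i, ∑ j, ∑ k, A i * A j * A k := by
      rw [hS, Finset.sum_mul_sum, Finset.sum_mul]
      refine Finset.sum_congr rfl fun _ _ => ?_
      rw [Finset.sum_mul_sum]
    rw [e]
    refine (norm_sum_le_of_le _ fun i _ => norm_sum_le_of_le _ fun j _ =>
      norm_sum_le_of_le _ fun k _ => hb i j k).trans ?_
    simp only [mul_add, Finset.sum_add_distrib, ← Finset.mul_sum, Finset.sum_ite_eq,
      Finset.mem_univ, if_true, Finset.sum_const, Finset.card_univ,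
      Fintype.card_fin, nsmul_eq_mul, mul_one]
    have : (N : ℝ) ^ 3 * (192 * (ρ / p + 1 / N)) ≤ (N : ℝ) ^ 3 * κ ^ 3 := by gcongr
    refine le_trans (le_of_eq ?_) (this.trans (le_of_eq (by ring)))
    field_simp
    ring
  have hsa : IsSelfAdjoint S := isSelfAdjoint_sum _ fun i _ => IsSelfAdjoint.star_mul_self _
  have hSn : ‖S‖ ≤ N * κ := by
    rcases (norm_nonneg S).eq_or_lt with h0 | h0
    · rw [← h0]; positivity
    have h4 : ‖S * S * (S * S)‖ = ‖S‖ * ‖S‖ * (‖S‖ * ‖S‖) := by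
      rw [norm_sq_op (by rw [star_mul, hsa.star_eq]), norm_sq_op hsa.star_eq]
    have e : S * S * (S * S) = S * (S * S * S) := by noncomm_ring
    have h5 := norm_mul_le_of (le_refl ‖S‖) hS3
    rw [← e, h4] at h5
    have h6 : ‖S‖ ^ 3 ≤ (N * κ) ^ 3 := by
      refine le_of_mul_le_mul_left ?_ h0
      calc _ = ‖S‖ * ‖S‖ * (‖S‖ * ‖S‖) := by ring
        _ ≤ _ := h5
    exact le_of_pow_le_pow_left₀ (by norm_num) (by positivity) h6
  have hsum : ∑ i, ‖T.M (v i) (u i) p ζ‖ ^ 2 ≤ ∑ _i : Fin N, κ * ‖ζ‖ ^ 2 := by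
    have e : ∑ i, ‖T.M (v i) (u i) p ζ‖ ^ 2 = ⟪S ζ, ζ⟫ := by
      rw [hS, sum_apply, sum_inner]
      refine Finset.sum_congr rfl fun i _ => ?_
      rw [hA]
      simp only [mul_apply_eq_comp, ContinuousLinearMap.star_eq_adjoint,
        ContinuousLinearMap.adjoint_inner_left, real_inner_self_eq_norm_sq]
    rw [e, Finset.sum_const, Finset.card_univ, Fintype.card_fin, nsmul_eq_mul]
    calc _ ≤ ‖S ζ‖ * ‖ζ‖ := real_inner_le_norm _ _
      _ ≤ N * κ * ‖ζ‖ * ‖ζ‖ := by gcongr; exact S.le_of_opNorm_le hSn ζ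
      _ = _ := by ring
  obtain ⟨i, -, hi⟩ := Finset.exists_le_of_sum_le ⟨⟨0, hN⟩, Finset.mem_univ _⟩ hsum
  exact ⟨i, hi⟩

end Unitary

section Transfer
variable {H : Type*} [NormedAddCommGroup H] [InnerProductSpace ℝ H] [CompleteSpace H]

omit [InnerProductSpace ℝ H] [CompleteSpace H] in
lemma cmp_congr {f g : V3 → V3} (hf : MeasurePreserving f volume volume)
    (hg : MeasurePreserving g volume volume) (h : f = g) (a : Lp H 2 (volume : Measure V3)) :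
    Lp.compMeasurePreserving f hf a = Lp.compMeasurePreserving g hg a := by
  subst h; rfl

/-- Translations on `L²`. -/
noncomputable def tr (H : Type*) [NormedAddCommGroup H] [InnerProductSpace ℝ H] :
    Rep V3 (Lp H 2 (volume : Measure V3)) where
  τ u := (Lp.compMeasurePreservingₗᵢ ℝ (fun x => x + u)
    (measurePreserving_add_right volume u)).toContinuousLinearMap
  add u v := by
    refine ContinuousLinearMap.ext fun a => ?_
    exact (cmp_congr _ ((measurePreserving_add_right volume v).comp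
      (measurePreserving_add_right volume u)) (funext fun x => (add_assoc x u v).symm) a).trans
      (Lp.compMeasurePreserving_comp_apply a _ _)
  zero := by
    refine ContinuousLinearMap.ext fun a => ?_
    exact (cmp_congr _ (MeasurePreserving.id _) (funext fun x => add_zero x) a).trans
      (Lp.compMeasurePreserving_id_apply a)
  cont a := by
    let g : V3 → C(V3, V3) := fun u => ⟨fun x => x + u, by fun_prop⟩
    have hg : Continuous g := ContinuousMap.continuous_of_continuous_uncurry g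
      (continuous_snd.add continuous_fst)
    exact Continuous.compMeasurePreservingLp (f := fun _ => a) (g := g) continuous_const hg
      (fun u => measurePreserving_add_right volume u) (by simp)

omit [CompleteSpace H] in
lemma tr_norm (u : V3) (a : Lp H 2 (volume : Measure V3)) : ‖(tr H).τ u a‖ = ‖a‖ :=
  Lp.norm_compMeasurePreserving a (measurePreserving_add_right volume u)

omit [CompleteSpace H] in
lemma tr_coe (u : V3) (a : Lp H 2 (volume : Measure V3)) :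
    (tr H).τ u a =ᵐ[volume] fun x => a (x + u) :=
  Lp.coeFn_compMeasurePreserving a (measurePreserving_add_right volume u)

variable (T : Rep V3 H)

omit [CompleteSpace H] in
lemma memLp_orb (r : ℝ) (ξ : H) :
    MemLp ((Metric.closedBall (0 : V3) r).indicator fun x => T.τ x ξ) 2 volume := by
  obtain ⟨C, hC⟩ := (isCompact_closedBall (0 : V3) r).exists_bound_of_continuousOn
    (T.cont ξ).continuousOn
  rw [memLp_indicator_iff_restrict measurableSet_closedBall]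
  have : IsFiniteMeasure (volume.restrict (Metric.closedBall (0 : V3) r)) :=
    isFiniteMeasure_restrict.mpr measure_closedBall_lt_top.ne
  exact MemLp.of_bound (T.cont ξ).aestronglyMeasurable C
    (ae_restrict_of_forall_mem measurableSet_closedBall hC)

omit [CompleteSpace H] in
lemma norm_orb_sq (r : ℝ) (ξ : H) : ‖(T.memLp_orb r ξ).toLp _‖ ^ 2 =
    ∫ x in Metric.closedBall (0 : V3) r, ‖T.τ x ξ‖ ^ 2 := by
  rw [← real_inner_self_eq_norm_sq, L2.inner_def, ← integral_indicator measurableSet_closedBall]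
  refine integral_congr_ae ?_
  filter_upwards [(T.memLp_orb r ξ).coeFn_toLp] with x hx
  rw [hx, real_inner_self_eq_norm_sq]
  by_cases h : x ∈ Metric.closedBall (0 : V3) r <;> simp [h]

lemma vol_ball {r : ℝ} (hr : 0 ≤ r) : volume.real (Metric.closedBall (0 : V3) r) = (2 * r) ^ 3 := by
  rw [Measure.real, Real.volume_pi_closedBall _ hr, ENNReal.toReal_ofReal (by positivity)]
  simp

omit [CompleteSpace H] in
lemma intOn_orb (r : ℝ) (ξ : H) :
    IntegrableOn (fun x => ‖T.τ x ξ‖ ^ 2) (Metric.closedBall (0 : V3) r) volume :=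
  ((T.cont ξ).norm.pow 2).continuousOn.integrableOn_compact (isCompact_closedBall _ _)

omit [CompleteSpace H] in
lemma norm_orb_le {r om : ℝ} (hr : 0 ≤ r) (h : ∀ x, ‖x‖ ≤ r → ‖T.τ x‖ ≤ om) (ξ : H) :
    ‖(T.memLp_orb r ξ).toLp _‖ ^ 2 ≤ (2 * r) ^ 3 * (om * ‖ξ‖) ^ 2 := by
  rw [norm_orb_sq, ← vol_ball hr, ← smul_eq_mul, ← setIntegral_const]
  refine setIntegral_mono_on (T.intOn_orb r ξ)
    (integrableOn_const measure_closedBall_lt_top.ne) measurableSet_closedBall fun x hx => ?_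
  gcongr
  exact (T.τ x).le_of_opNorm_le (h x (mem_closedBall_zero_iff.mp hx)) ξ

omit [CompleteSpace H] in
lemma le_norm_orb {r om : ℝ} (hr : 0 ≤ r) (h : ∀ x, ‖x‖ ≤ r → ‖T.τ x‖ ≤ om) (ξ : H) :
    (2 * r) ^ 3 * ‖ξ‖ ^ 2 ≤ om ^ 2 * ‖(T.memLp_orb r ξ).toLp _‖ ^ 2 := by
  rw [norm_orb_sq, ← vol_ball hr, ← smul_eq_mul, ← setIntegral_const, ← integral_const_mul]
  refine setIntegral_mono_on (integrableOn_const measure_closedBall_lt_top.ne)
    ((T.intOn_orb r ξ).const_mul _) measurableSet_closedBall fun x hx => ?_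
  have e : T.τ (-x) (T.τ x ξ) = ξ := by
    rw [← mul_apply_eq_comp, ← T.add, neg_add_cancel, T.zero, one_apply_eq_self]
  have := (T.τ (-x)).le_of_opNorm_le (h (-x) (by
    rw [norm_neg]; exact mem_closedBall_zero_iff.mp hx)) (T.τ x ξ)
  rw [e] at this
  rw [← mul_pow]
  gcongr

/-- The orbit map, cut off to a ball. -/
noncomputable def J (r : ℝ) : H →L[ℝ] Lp H 2 (volume : Measure V3) :=
  LinearMap.mkContinuousOfExistsBound
    { toFun := fun ξ => (T.memLp_orb r ξ).toLp _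
      map_add' := fun a b => by
        rw [← MemLp.toLp_add]
        refine MemLp.toLp_congr _ _ (Filter.Eventually.of_forall fun x => ?_)
        by_cases h : x ∈ Metric.closedBall (0 : V3) r <;> simp [h]
      map_smul' := fun c a => by
        rw [RingHom.id_apply, ← MemLp.toLp_const_smul]
        refine MemLp.toLp_congr _ _ (Filter.Eventually.of_forall fun x => ?_)
        by_cases h : x ∈ Metric.closedBall (0 : V3) r <;> simp [h] }
    (by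
      obtain ⟨C, hC⟩ := T.exists_bound (isCompact_closedBall (0 : V3) r)
      refine ⟨√(volume.real (Metric.closedBall (0 : V3) r)) * |C|, fun ξ => ?_⟩
      refine le_of_pow_le_pow_left₀ two_ne_zero (by positivity) ?_
      change ‖(T.memLp_orb r ξ).toLp _‖ ^ 2 ≤ _
      rw [norm_orb_sq, mul_assoc, mul_pow, Real.sq_sqrt measureReal_nonneg, ← smul_eq_mul,
        ← setIntegral_const]
      refine setIntegral_mono_on (T.intOn_orb r ξ)
        (integrableOn_const measure_closedBall_lt_top.ne) measurableSet_closedBall fun x hx => ?_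
      gcongr
      exact (T.τ x).le_of_opNorm_le ((hC x hx).trans (le_abs_self C)) ξ)

lemma J_apply (r : ℝ) (ξ : H) : T.J r ξ = (T.memLp_orb r ξ).toLp _ := rfl

lemma inner_tr_J {r : ℝ} {w : V3} (hw : ‖w‖ ≤ r) (ξ η : H) :
    ⟪T.J r η, (tr H).τ w (T.J (2 * r) ξ)⟫ = ⟪T.J r η, T.J r (T.τ w ξ)⟫ := by
  rw [L2.inner_def, L2.inner_def]
  refine integral_congr_ae ?_
  have h1 := (measurePreserving_add_right volume w).quasiMeasurePreserving.ae_eq_comp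
    (T.memLp_orb (2 * r) ξ).coeFn_toLp
  filter_upwards [(T.memLp_orb r η).coeFn_toLp, (T.memLp_orb r (T.τ w ξ)).coeFn_toLp,
    tr_coe w (T.J (2 * r) ξ), h1] with x e1 e2 e3 e4
  rw [e3, J_apply, J_apply, J_apply, e1, e2]
  rw [Function.comp_apply, Function.comp_apply] at e4
  rw [e4]
  by_cases h : x ∈ Metric.closedBall (0 : V3) r
  · have h2 : x + w ∈ Metric.closedBall (0 : V3) (2 * r) := by
      rw [mem_closedBall_zero_iff] at h ⊢
      linarith [norm_add_le x w]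
    rw [indicator_of_mem h, indicator_of_mem h, indicator_of_mem h2, T.add, mul_apply_eq_comp]
  · rw [indicator_of_notMem h, inner_zero_left, inner_zero_left]

lemma inner_M_J {r p : ℝ} (hp : 0 < p) {v u : V3} (h : p * ‖v‖ + ‖u‖ ≤ r) (ξ η : H) :
    ⟪T.J r η, (tr H).M v u p (T.J (2 * r) ξ)⟫ = ⟪T.J r η, T.J r (T.M v u p ξ)⟫ := by
  have e1 := (tr H).map_av (innerSL ℝ (T.J r η)) v p (((tr H).τ u - 1) (T.J (2 * r) ξ))
  have e2 := T.map_av ((innerSL ℝ (T.J r η)).comp (T.J r)) v p ((T.τ u - 1) ξ)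
  refine e1.trans (Eq.trans ?_ e2.symm)
  congr 1
  refine intervalIntegral.integral_congr fun t ht => ?_
  rw [uIcc_of_le hp.le] at ht
  have ht1 : ‖t • v‖ ≤ p * ‖v‖ := by
    rw [norm_smul, Real.norm_eq_abs, abs_of_nonneg ht.1]; gcongr; exact ht.2
  simp only [sub_apply, one_apply_eq_self, map_sub, innerSL_apply_apply,
    ContinuousLinearMap.comp_apply]
  rw [← mul_apply_eq_comp, ← (tr H).add, ← mul_apply_eq_comp (T.τ _), ← T.add,
    T.inner_tr_J ((norm_add_le _ _).trans (by linarith)),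
    T.inner_tr_J (by linarith [norm_nonneg u])]

theorem bessel {N : ℕ} (hN : 0 < N) (v u : Fin N → V3) {p ρ κ r om : ℝ} (hp : 0 < p) (hρ : 0 ≤ ρ)
    (hκ0 : 0 ≤ κ) (hr : 0 < r) (hom : ∀ x, ‖x‖ ≤ 2 * r → ‖T.τ x‖ ≤ om)
    (hv : ∀ i, p * ‖v i‖ + ‖u i‖ ≤ r)
    (hrel : ∀ i j k, i ≠ j → j ≠ k → i ≠ k → ∃ c1 c2 c3 : ℝ, |c1| ≤ ρ ∧ |c2| ≤ ρ ∧ |c3| ≤ ρ ∧
      u i = c1 • v i + c2 • v j + c3 • v k)
    (hκ : 192 * (ρ / p + 1 / N) ≤ κ ^ 6) (ξ : H) :
    ∃ i, ‖T.M (v i) (u i) p ξ‖ ≤ 3 * om ^ 2 * κ * ‖ξ‖ := by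
  obtain ⟨i, hi⟩ := (tr H).bessel_unitary tr_norm hN v u hp hρ (sq_nonneg κ) hrel
    (by rwa [← pow_mul]) (T.J (2 * r) ξ)
  refine ⟨i, ?_⟩
  set η := T.M (v i) (u i) p ξ
  have h0 : 0 ≤ om := (norm_nonneg _).trans (hom 0 (by rw [norm_zero]; positivity))
  have h1 : ‖T.J r η‖ ≤ ‖(tr H).M (v i) (u i) p (T.J (2 * r) ξ)‖ := by
    have := real_inner_le_norm (T.J r η) ((tr H).M (v i) (u i) p (T.J (2 * r) ξ))
    rw [T.inner_M_J hp (hv i), real_inner_self_eq_norm_mul_norm] at this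
    rcases (norm_nonneg (T.J r η)).eq_or_lt with h | h
    · rw [← h]; exact norm_nonneg _
    · exact le_of_mul_le_mul_left this h
  have h2 := T.le_norm_orb hr.le (fun x hx => hom x (by linarith)) η
  have h3 := T.norm_orb_le (r := 2 * r) (by positivity) hom ξ
  rw [← J_apply] at h2 h3
  refine le_of_pow_le_pow_left₀ two_ne_zero (by positivity) ?_
  refine le_of_mul_le_mul_left ?_ (show 0 < (2 * r) ^ 3 by positivity)
  calc _ ≤ om ^ 2 * ‖T.J r η‖ ^ 2 := h2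
    _ ≤ om ^ 2 * ‖(tr H).M (v i) (u i) p (T.J (2 * r) ξ)‖ ^ 2 := by gcongr
    _ ≤ om ^ 2 * (κ ^ 2 * ((2 * (2 * r)) ^ 3 * (om * ‖ξ‖) ^ 2)) := by
        gcongr; exact hi.trans (by gcongr)
    _ = (2 * r) ^ 3 * (8 * (om ^ 2 * κ * ‖ξ‖) ^ 2) := by ring
    _ ≤ (2 * r) ^ 3 * (9 * (om ^ 2 * κ * ‖ξ‖) ^ 2) := by gcongr; norm_num
    _ = _ := by ring

end Transfer

end Rep

end Pool.Agent.P.MP_d483fb_an.Z.ST


end

section

/-! The two moves and their combination, with explicit constants. -/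

namespace Pool.Agent.P.MP_d483fb_an.Z.ST

open Set

variable {H : Type*} [NormedAddCommGroup H] [InnerProductSpace ℝ H] [CompleteSpace H]

lemma gap {N : ℕ} {i j : Fin N} (h : i ≠ j) :
    1 ≤ |((i : ℕ) : ℝ) - (j : ℕ)| ∧ |((i : ℕ) : ℝ) - (j : ℕ)| ≤ N := by
  have hi : ((i : ℕ) : ℝ) ≤ N := by exact_mod_cast i.2.le
  have hj : ((j : ℕ) : ℝ) ≤ N := by exact_mod_cast j.2.le
  have hi0 : (0 : ℝ) ≤ (i : ℕ) := Nat.cast_nonneg _
  have hj0 : (0 : ℝ) ≤ (j : ℕ) := Nat.cast_nonneg _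
  refine ⟨?_, abs_le.mpr ⟨by linarith, by linarith⟩⟩
  rcases lt_or_gt_of_ne (Fin.val_ne_of_ne h) with h | h
  · have : ((i : ℕ) : ℝ) + 1 ≤ (j : ℕ) := by exact_mod_cast h
    rw [le_abs]; right; linarith
  · have : ((j : ℕ) : ℝ) + 1 ≤ (i : ℕ) := by exact_mod_cast h
    rw [le_abs]; left; linarith

lemma norm_vec_le {a b c r : ℝ} (ha : |a| ≤ r) (hb : |b| ≤ r) (hc : |c| ≤ r) :
    ‖(![a, b, c] : V3)‖ ≤ r := by
  refine (pi_norm_le_iff_of_nonneg ((abs_nonneg a).trans ha)).mpr fun i => ?_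
  fin_cases i <;> assumption

lemma smul_vec (t a b c : ℝ) : t • (![a, b, c] : V3) = ![t * a, t * b, t * c] := by
  ext i; fin_cases i <;> rfl

lemma sh_smul (s t : ℝ) (v : V3) : sh s (t • v) = t • sh s v := by
  ext i; fin_cases i <;> simp [sh] <;> ring

lemma ceil_bounds {q : ℝ} (hq : 2 ≤ q) : 0 < ⌈q⌉₊ ∧ q ≤ (⌈q⌉₊ : ℝ) ∧ (⌈q⌉₊ : ℝ) ≤ 2 * q :=
  ⟨Nat.ceil_pos.mpr (by linarith), Nat.le_ceil q,
    by linarith [Nat.ceil_lt_add_one (show 0 ≤ q by linarith)]⟩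

lemma lagrange {a x y z B n : ℝ} (ha : |a| ≤ B) (hn : 2 ≤ n) (hxy : 1 ≤ |x - y|)
    (hyz : 1 ≤ |y - z|) (hxz : 1 ≤ |x - z|) (hxy' : |x - y| ≤ n) (hxz' : |x - z| ≤ n) :
    ∃ c1 c2 c3 : ℝ, |c1| ≤ B * n ∧ |c2| ≤ B * n ∧ |c3| ≤ B * n ∧ c1 + c2 + c3 = 0 ∧
      c1 * x + c2 * y + c3 * z = a ∧ c1 * x ^ 2 + c2 * y ^ 2 + c3 * z ^ 2 = 2 * a * x := by
  have h0 : 0 ≤ B := (abs_nonneg a).trans ha
  have n1 : x - y ≠ 0 := fun h => by rw [h, abs_zero] at hxy; linarith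
  have n2 : y - z ≠ 0 := fun h => by rw [h, abs_zero] at hyz; linarith
  have n3 : x - z ≠ 0 := fun h => by rw [h, abs_zero] at hxz; linarith
  have i1 : |(x - y)⁻¹| ≤ 1 := by rw [abs_inv]; exact inv_le_one_of_one_le₀ hxy
  have i2 : |(y - z)⁻¹| ≤ 1 := by rw [abs_inv]; exact inv_le_one_of_one_le₀ hyz
  have i3 : |(x - z)⁻¹| ≤ 1 := by rw [abs_inv]; exact inv_le_one_of_one_le₀ hxz
  refine ⟨a * ((x - y)⁻¹ + (x - z)⁻¹), -(a * ((x - z) * ((x - y)⁻¹ * (y - z)⁻¹))),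
    a * ((x - y) * ((x - z)⁻¹ * (y - z)⁻¹)), ?_, ?_, ?_, ?_, ?_, ?_⟩
  · rw [abs_mul]
    have := abs_add_le (x - y)⁻¹ (x - z)⁻¹
    gcongr
    linarith
  · rw [abs_neg, abs_mul, abs_mul, abs_mul]
    calc _ ≤ B * (n * (1 * 1)) := by gcongr
      _ = _ := by ring
  · rw [abs_mul, abs_mul, abs_mul]
    calc _ ≤ B * (n * (1 * 1)) := by gcongr
      _ = _ := by ring
  · field_simp; ring
  · field_simp; ring
  · field_simp; ring

theorem move1 (T : Rep V3 H) (W W' : ℝ → H →L[ℝ] H) (hWW : ∀ s, W' s * W s = 1)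
    (hc : ∀ s v, W s * T.τ v = T.τ (sh s v) * W s) {q a om B δ κ : ℝ} (hq : 2 ≤ q)
    (ha : |a| ≤ q ^ 12) (hom : ∀ x, ‖x‖ ≤ q ^ 26 → ‖T.τ x‖ ≤ om)
    (hB : ∀ s, |s| ≤ 2 / q → ‖W' s‖ ≤ B) (hκ0 : 0 ≤ κ) (hκ : 576 / q ≤ κ ^ 6) {ξ : H}
    (hδ : ∀ s, |s| ≤ 2 / q → ‖W s ξ - ξ‖ ≤ δ) :
    ‖T.M ![1, 0, 0] ![0, a, 0] (q ^ 16) ξ‖ ≤ B * (3 * om ^ 2 * κ * ‖ξ‖ + om * (om + 1) * δ) := by
  obtain ⟨hN, hN1, hN2⟩ := ceil_bounds hq
  set N := ⌈q⌉₊
  have hq0 : 0 < q := by linarith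
  have hq1 : 1 ≤ q := by linarith
  set s : Fin N → ℝ := fun i => ((i : ℕ) : ℝ) / q ^ 2 with hs
  have hs1 : ∀ i, |s i| ≤ 2 / q := fun i => by
    have hi : ((i : ℕ) : ℝ) ≤ N := by exact_mod_cast i.2.le
    rw [hs, abs_of_nonneg (by positivity), div_le_div_iff₀ (by positivity) hq0]
    nlinarith
  have hs2 : ∀ i, |s i| ≤ 1 := fun i => (hs1 i).trans (by rw [div_le_one hq0]; exact hq)
  have hv : ∀ i, ‖(![1, s i, s i ^ 2 / 2] : V3)‖ ≤ 1 := fun i =>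
    norm_vec_le (by simp) (hs2 i) (by
      rw [abs_of_nonneg (by positivity), ← sq_abs]; nlinarith [hs2 i, abs_nonneg (s i)])
  have hu : ∀ i, ‖(![0, a, s i * a] : V3)‖ ≤ q ^ 12 := fun i =>
    norm_vec_le (by simp; positivity) ha (by
      rw [abs_mul]; nlinarith [hs2 i, abs_nonneg (s i), abs_nonneg a])
  have p1 : q ^ 12 ≤ q ^ 16 := pow_le_pow_right₀ hq1 (by norm_num)
  have p2 : 4 * q ^ 16 ≤ q ^ 26 := by
    have : 2 ^ 10 ≤ q ^ 10 := by gcongr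
    calc _ ≤ q ^ 10 * q ^ 16 := by gcongr; linarith
      _ = _ := by ring
  have p0 : 0 < q ^ 16 := by positivity
  obtain ⟨i, hi⟩ := T.bessel hN (fun i => ![1, s i, s i ^ 2 / 2]) (fun i => ![0, a, s i * a])
    (p := q ^ 16) (ρ := q ^ 14 * N) (κ := κ) (r := 2 * q ^ 16) (om := om) p0 (by positivity) hκ0
    (by positivity) (fun x hx => hom x (by linarith))
    (fun i => by nlinarith [hv i, hu i]) (fun i j k hij hjk hik => by
      obtain ⟨c1, c2, c3, b1, b2, b3, e1, e2, e3⟩ := lagrange (a := a * q ^ 2) (B := q ^ 14)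
        (by rw [abs_mul, abs_of_pos (show 0 < q ^ 2 by positivity)]
            calc _ ≤ q ^ 12 * q ^ 2 := by gcongr
              _ = _ := by ring)
        (hq.trans hN1) (gap hij).1 (gap hjk).1 (gap hik).1 (gap hij).2 (gap hik).2
      refine ⟨c1, c2, c3, b1, b2, b3, ?_⟩
      ext l
      fin_cases l
      · simp; linarith
      · simp [hs]; field_simp; linarith
      · simp [hs]; field_simp; linarith)
    (le_trans (by
      have h1 : q ^ 14 * N / q ^ 16 ≤ 2 / q := by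
        rw [div_le_div_iff₀ p0 hq0]
        calc _ ≤ q ^ 14 * (2 * q) * q := by gcongr
          _ = _ := by ring
      have h2 : 1 / (N : ℝ) ≤ 1 / q := by gcongr
      calc _ ≤ 192 * (2 / q + 1 / q) := by gcongr
        _ = _ := by ring) hκ) ξ
  have e0 : sh (s i) ![1, 0, 0] = ![1, s i, s i ^ 2 / 2] := by simp [sh]
  have e1 : sh (s i) ![0, a, 0] = ![0, a, s i * a] := by simp [sh]
  have c1 : W (s i) * T.av ![1, 0, 0] (q ^ 16) = T.av ![1, s i, s i ^ 2 / 2] (q ^ 16) * W (s i) :=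
    T.av_conj T (fun t => by rw [hc, sh_smul, e0]) _
  have c2 : W (s i) * T.M ![1, 0, 0] ![0, a, 0] (q ^ 16) =
      T.M ![1, s i, s i ^ 2 / 2] ![0, a, s i * a] (q ^ 16) * W (s i) := by
    rw [Rep.M, Rep.M, ← mul_assoc, c1, mul_assoc, mul_assoc, mul_sub, sub_mul, hc, e1, mul_one,
      one_mul]
  have hM : ‖T.M ![1, s i, s i ^ 2 / 2] ![0, a, s i * a] (q ^ 16)‖ ≤ om * (om + 1) := by
    refine Rep.norm_mul_le_of (T.norm_av_le p0 fun t ht => hom _ ?_) ?_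
    · rw [norm_smul, Real.norm_eq_abs, abs_of_nonneg ht.1]
      nlinarith [hv i, ht.1, ht.2, norm_nonneg (![1, s i, s i ^ 2 / 2] : V3)]
    · exact (norm_sub_le _ _).trans (add_le_add (hom _ (by linarith [hu i]))
        ContinuousLinearMap.norm_id_le)
  set M' := T.M ![1, s i, s i ^ 2 / 2] ![0, a, s i * a] (q ^ 16)
  have e : T.M ![1, 0, 0] ![0, a, 0] (q ^ 16) ξ = W' (s i) (M' ξ + M' (W (s i) ξ - ξ)) := by
    rw [← map_add, add_sub_cancel, ← mul_apply_eq_comp M', ← c2, ← mul_apply_eq_comp,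
      ← mul_assoc, hWW, one_mul]
  rw [e]
  refine ((W' (s i)).le_of_opNorm_le (hB _ (hs1 i)) _).trans ?_
  have hB0 : 0 ≤ B := (norm_nonneg _).trans (hB _ (hs1 i))
  have h0 : 0 ≤ om * (om + 1) := (norm_nonneg _).trans hM
  gcongr
  refine (norm_add_le _ _).trans (add_le_add hi ((M'.le_of_opNorm_le hM _).trans ?_))
  gcongr
  exact hδ _ (hs1 i)

theorem move2 (T : Rep V3 H) (X : ℝ → H →L[ℝ] H)
    (hX : ∀ s t r : ℝ, T.τ ![t, r, 0] * X s = X s * T.τ ![t - s * r, r, 0])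
    {q c om κ : ℝ} (hq : 2 ≤ q) (hc : |c| ≤ q ^ 17) (hom : ∀ x, ‖x‖ ≤ q ^ 26 → ‖T.τ x‖ ≤ om)
    (hκ0 : 0 ≤ κ) (hκ : 576 / q ≤ κ ^ 6) (ξ : H) :
    ∃ s, |s| ≤ q ^ 12 ∧ ‖T.M ![0, 1, 0] ![c, 0, 0] (q ^ 12) (X s ξ)‖ ≤
      ‖X s‖ * (3 * om ^ 2 * κ * ‖ξ‖) := by
  obtain ⟨hN, hN1, hN2⟩ := ceil_bounds hq
  set N := ⌈q⌉₊
  have hq0 : 0 < q := by linarith
  have hq1 : 1 ≤ q := by linarith
  set s : Fin N → ℝ := fun i => ((i : ℕ) : ℝ) * q ^ 10 with hs
  have hs1 : ∀ i, |s i| ≤ q ^ 12 := fun i => by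
    have hi : ((i : ℕ) : ℝ) ≤ N := by exact_mod_cast i.2.le
    rw [hs, abs_of_nonneg (by positivity)]
    calc ((i : ℕ) : ℝ) * q ^ 10 ≤ q * q * q ^ 10 := by gcongr; nlinarith
      _ = _ := by ring
  have p0 : 0 < q ^ 12 := by positivity
  have p1 : 1 ≤ q ^ 12 := one_le_pow₀ hq1
  have hv : ∀ i, ‖(![-s i, 1, 0] : V3)‖ ≤ q ^ 12 := fun i =>
    norm_vec_le (by rw [abs_neg]; exact hs1 i) (by simpa using p1) (by simpa using p0.le)
  have hu : ‖(![c, 0, 0] : V3)‖ ≤ q ^ 17 :=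
    norm_vec_le hc (by simp; positivity) (by simp; positivity)
  have p2 : q ^ 17 ≤ q ^ 24 := pow_le_pow_right₀ hq1 (by norm_num)
  have p3 : 4 * q ^ 24 ≤ q ^ 26 := by
    calc _ ≤ q * q * q ^ 24 := by gcongr; nlinarith
      _ = _ := by ring
  obtain ⟨i, hi⟩ := T.bessel hN (fun i => ![-s i, 1, 0]) (fun _ => ![c, 0, 0])
    (p := q ^ 12) (ρ := q ^ 7) (κ := κ) (r := 2 * q ^ 24) (om := om) p0 (by positivity) hκ0
    (by positivity) (fun x hx => hom x (by linarith))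
    (fun i => by
      have : q ^ 12 * ‖(![-s i, 1, 0] : V3)‖ ≤ q ^ 12 * q ^ 12 := by gcongr; exact hv i
      have e : q ^ 12 * q ^ 12 = q ^ 24 := by ring
      linarith) (fun i j k hij _ _ => by
      have g := (gap hij).1
      have n1 : ((i : ℕ) : ℝ) - (j : ℕ) ≠ 0 := fun h => by rw [h, abs_zero] at g; linarith
      have b : |c / ((((i : ℕ) : ℝ) - (j : ℕ)) * q ^ 10)| ≤ q ^ 7 := by
        rw [abs_div, abs_mul, abs_of_pos (show 0 < q ^ 10 by positivity),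
          div_le_iff₀ (by positivity)]
        calc _ ≤ q ^ 17 := hc
          _ = q ^ 7 * (1 * q ^ 10) := by ring
          _ ≤ _ := by gcongr
      refine ⟨-(c / ((((i : ℕ) : ℝ) - (j : ℕ)) * q ^ 10)), c / ((((i : ℕ) : ℝ) - (j : ℕ)) * q ^ 10),
        0, by rwa [abs_neg], b, by simp; positivity, ?_⟩
      ext l
      fin_cases l
      · simp [hs]; field_simp; ring
      · simp
      · simp)
    (le_trans (by
      have h1 : q ^ 7 / q ^ 12 ≤ 2 / q := by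
        rw [div_le_div_iff₀ p0 hq0]
        have : q ^ 8 ≤ q ^ 12 := pow_le_pow_right₀ hq1 (by norm_num)
        calc _ = q ^ 8 := by ring
          _ ≤ _ := by linarith
      have h2 : 1 / (N : ℝ) ≤ 1 / q := by gcongr
      calc _ ≤ 192 * (2 / q + 1 / q) := by gcongr
        _ = _ := by ring) hκ) ξ
  refine ⟨s i, hs1 i, ?_⟩
  have c1 : X (s i) * T.av ![-s i, 1, 0] (q ^ 12) = T.av ![0, 1, 0] (q ^ 12) * X (s i) :=
    T.av_conj T (fun t => by
      rw [smul_vec, smul_vec, mul_zero, mul_one, hX]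
      congr 3
      ring) _
  have c2 : T.M ![0, 1, 0] ![c, 0, 0] (q ^ 12) * X (s i) =
      X (s i) * T.M ![-s i, 1, 0] ![c, 0, 0] (q ^ 12) := by
    rw [Rep.M, Rep.M, ← mul_assoc, c1, mul_assoc, mul_assoc, mul_sub, sub_mul, hX, mul_zero,
      sub_zero, mul_one, one_mul]
  rw [← mul_apply_eq_comp, c2, mul_apply_eq_comp]
  exact ((X (s i)).le_opNorm _).trans (by gcongr)

theorem moves (T1 T2 : Rep V3 H) (same : ∀ t : ℝ, T1.τ ![t, 0, 0] = T2.τ ![t, 0, 0])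
    (hX : ∀ s t r : ℝ, T2.τ ![t, r, 0] * T1.τ ![0, s, 0] =
      T1.τ ![0, s, 0] * T2.τ ![t - s * r, r, 0])
    {q c om κ δ : ℝ} (hq : 2 ≤ q) (hc : |c| ≤ q ^ 17)
    (hom1 : ∀ x, ‖x‖ ≤ q ^ 26 → ‖T1.τ x‖ ≤ om) (hom2 : ∀ x, ‖x‖ ≤ q ^ 26 → ‖T2.τ x‖ ≤ om)
    (hκ0 : 0 ≤ κ) (hκ : 576 / q ≤ κ ^ 6) {ξ : H}
    (h1 : ∀ a, |a| ≤ q ^ 12 → ‖T1.M ![1, 0, 0] ![0, a, 0] (q ^ 16) ξ‖ ≤ δ)
    (h2 : ∀ a, |a| ≤ q ^ 12 → ‖T2.M ![1, 0, 0] ![0, a, 0] (q ^ 16) ξ‖ ≤ δ) :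
    ‖T1.τ ![c, 0, 0] (T1.av ![1, 0, 0] (q ^ 16) ξ) - T1.av ![1, 0, 0] (q ^ 16) ξ‖ ≤
      (om + 1) * ((om + 1) * δ) + om * (om * (3 * om ^ 2 * κ * ‖ξ‖)) := by
  have hq0 : 0 < q := by linarith
  have hq1 : 1 ≤ q := by linarith
  obtain ⟨s, hs, hs'⟩ := move2 T2 (fun s => T1.τ ![0, s, 0]) hX hq hc hom2 hκ0 hκ ξ
  have eA : T1.av ![1, 0, 0] (q ^ 16) = T2.av ![1, 0, 0] (q ^ 16) := by
    have := T1.av_conj T2 (S := 1) (S' := 1) (v := ![1, 0, 0]) (v' := ![1, 0, 0])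
      (fun t => by rw [smul_vec, mul_zero, mul_one, mul_one, one_mul, same]) (q ^ 16)
    rwa [one_mul, mul_one] at this
  have p12 : q ^ 12 ≤ q ^ 26 := pow_le_pow_right₀ hq1 (by norm_num)
  have p16 : q ^ 16 ≤ q ^ 26 := pow_le_pow_right₀ hq1 (by norm_num)
  have p17 : q ^ 17 ≤ q ^ 26 := pow_le_pow_right₀ hq1 (by norm_num)
  have z26 : |(0 : ℝ)| ≤ q ^ 26 := by simp; positivity
  have om0 : 0 ≤ om := (norm_nonneg _).trans (hom1 0 (by simpa using z26))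
  simp only [Rep.M, eA] at h1 h2
  rw [eA, same]
  have kY : ∀ u, Commute (T2.τ u) (T2.av ![1, 0, 0] (q ^ 16)) := fun u => T2.commute_τ_av u _ _
  have kYA := T2.commute_av_av ![0, 1, 0] ![1, 0, 0] (q ^ 12) (q ^ 16)
  have kn := T2.commute_τ_av ![c, 0, 0] ![0, 1, 0] (q ^ 12)
  have hA : ‖T2.av ![1, 0, 0] (q ^ 16)‖ ≤ om := T2.norm_av_le (by positivity) fun t ht => hom2 _ (by
    rw [smul_vec, mul_zero, mul_one]
    exact norm_vec_le (by rw [abs_of_nonneg ht.1]; linarith [ht.2]) z26 z26)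
  have hY : ‖T2.av ![0, 1, 0] (q ^ 12)‖ ≤ om := T2.norm_av_le (by positivity) fun t ht => hom2 _ (by
    rw [smul_vec, mul_zero, mul_one]
    exact norm_vec_le z26 (by rw [abs_of_nonneg ht.1]; linarith [ht.2]) z26)
  have hXs : ‖T1.τ ![0, s, 0]‖ ≤ om := hom1 _ (norm_vec_le z26 (hs.trans p12) z26)
  have hn : ‖T2.τ ![c, 0, 0] - 1‖ ≤ om + 1 := (norm_sub_le _ _).trans
    (add_le_add (hom2 _ (norm_vec_le (hc.trans p17) z26 z26)) ContinuousLinearMap.norm_id_le)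
  have b1 : ‖T2.av ![0, 1, 0] (q ^ 12) (T2.av ![1, 0, 0] (q ^ 16) ξ) -
      T2.av ![1, 0, 0] (q ^ 16) ξ‖ ≤ δ := by
    refine T2.norm_av_sub_le (by positivity) fun t ht => ?_
    have := h2 t (by rw [abs_of_nonneg ht.1]; exact ht.2)
    rw [mul_sub, ← (kY _).eq, mul_one, sub_apply, mul_apply_eq_comp] at this
    rwa [smul_vec, mul_zero, mul_one]
  have b2 := h1 s hs
  have δ0 : 0 ≤ δ := (norm_nonneg _).trans b2
  rw [Rep.M] at hs'
  have kn' : Commute (T2.τ ![c, 0, 0] - 1) (T2.av ![0, 1, 0] (q ^ 12)) :=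
    kn.sub_left (Commute.one_left _)
  have kn'' : Commute (T2.τ ![c, 0, 0] - 1) (T2.av ![1, 0, 0] (q ^ 16)) :=
    (kY _).sub_left (Commute.one_left _)
  have e0 : T2.τ ![c, 0, 0] (T2.av ![1, 0, 0] (q ^ 16) ξ) - T2.av ![1, 0, 0] (q ^ 16) ξ =
      (T2.τ ![c, 0, 0] - 1) (T2.av ![1, 0, 0] (q ^ 16) ξ) := rfl
  rw [e0]
  generalize T2.τ ![c, 0, 0] - 1 = n at *
  generalize T2.av ![1, 0, 0] (q ^ 16) = A at *
  generalize T2.av ![0, 1, 0] (q ^ 12) = Y at *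
  generalize T1.τ ![0, s, 0] = X at *
  have e1 : A * (Y * n) = n * (Y * A) := by
    rw [← kn'.eq, ← mul_assoc, ← kn''.eq, mul_assoc, kYA.eq]
  have e : n (A ξ) = A ((Y * n) (X ξ)) - n ((Y (A ξ) - A ξ) + Y ((A * (X - 1)) ξ)) := by
    rw [← mul_apply_eq_comp A, e1]
    simp only [mul_apply_eq_comp, sub_apply, one_apply_eq_self, map_sub, map_add]
    abel
  rw [e, add_comm ((om + 1) * ((om + 1) * δ))]
  refine (norm_sub_le _ _).trans (add_le_add ?_ ?_)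
  · refine (A.le_of_opNorm_le hA _).trans ?_
    gcongr
    exact hs'.trans (by gcongr)
  · refine (n.le_of_opNorm_le hn _).trans ?_
    gcongr
    refine (norm_add_le _ _).trans ?_
    have := (Y.le_of_opNorm_le hY ((A * (X - 1)) ξ)).trans (mul_le_mul_of_nonneg_left b2 om0)
    linarith

end Pool.Agent.P.MP_d483fb_an.Z.ST


end

section

/-! Convergence of the averages along the longest root group, and invariance of the limit. -/

namespace Pool.Agent.P.MP_d483fb_an.Z.ST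

open Filter Topology Set

variable {G : Type*} [Group G] [TopologicalSpace G] {sz dd : G → ℝ}

section
variable {H : Type*} [NormedAddCommGroup H] [NormedSpace ℝ H]

/-- Subexponential growth on the subgroups which occur in the data only. -/
structure Tame (π : G →* (H →L[ℝ] H)) (D : Data sz dd) : Prop where
  cont : ∀ ξ, Continuous fun g => π g ξ
  t1 : ∀ ε : ℝ, 0 < ε → ∃ C, ∀ v, ‖π (D.e1 v)‖ ≤ C * (1 + ‖v‖) ^ ε
  t2 : ∀ ε : ℝ, 0 < ε → ∃ C, ∀ v, ‖π (D.e2 v)‖ ≤ C * (1 + ‖v‖) ^ ε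
  ta : ∀ ε : ℝ, 0 < ε → ∃ C, ∀ n : ℕ, ‖π (D.a ^ n)‖ ≤ C * Real.exp (ε * n) ∧
    ‖π (D.a ^ n)⁻¹‖ ≤ C * Real.exp (ε * n)
  loc : ∃ C, ∀ g, dd g ≤ 1 → ‖π g‖ ≤ C ∧ ‖π g⁻¹‖ ≤ C

variable {π : G →* (H →L[ℝ] H)}

/-- The representation of a vector group induced by a homomorphism. -/
def repOf (hc : ∀ ξ, Continuous fun g => π g ξ) {V : Type*} [NormedAddCommGroup V] {e : V → G}
    (he : Unip sz e) : Rep V H where
  τ v := π (e v)
  add u v := by rw [he.add, map_mul]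
  zero := by
    have h := he.add 0 0
    rw [add_zero, left_eq_mul] at h
    rw [h, map_one]
  cont ξ := (hc ξ).comp he.cont

/-- The average over the longest root group. -/
noncomputable def Tame.av [CompleteSpace H] {D : Data sz dd} (hT : Tame π D) (p : ℝ) :
    H →L[ℝ] H := (repOf hT.cont D.u1).av ![1, 0, 0] p

omit [TopologicalSpace G] in
lemma lip_hol {w : ℝ → G} (hw : LipAt dd w) {S : Set H} (hS : Hol dd π S) :
    ∃ F, Sm F ∧ ∀ᶠ q in atTop, ∀ s, |s| ≤ 2 / q → dd (w s) ≤ 1 ∧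
      ∀ ξ ∈ S, ‖π (w s) ξ - ξ‖ ≤ F q := by
  obtain ⟨C, hC⟩ := hw
  obtain ⟨F, hF, h⟩ := hS.hol
  refine hF.root (m := 2) two_ne_zero (P := fun q y => ∀ s, |s| ≤ 2 / q → dd (w s) ≤ 1 ∧
    ∀ ξ ∈ S, ‖π (w s) ξ - ξ‖ ≤ y) ?_
  filter_upwards [h, eventually_ge_atTop 2, eventually_ge_atTop (2 * |C|)] with q h1 h2 h3 s hs
  have q0 : 0 < q := by linarith
  have hs1 : |s| ≤ 1 := hs.trans (by rw [div_le_one (by positivity)]; nlinarith)
  have : dd (w s) ≤ q⁻¹ := by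
    calc _ ≤ C * |s| := hC s hs1
      _ ≤ |C| * (2 / q ^ 2) := by gcongr; exact le_abs_self C
      _ = 2 * |C| / q ^ 2 := by ring
      _ ≤ q / q ^ 2 := by gcongr
      _ = _ := by field_simp
  exact ⟨this.trans (inv_le_one_of_one_le₀ (by linarith)), fun ξ hξ => h1 ξ hξ _ this⟩

lemma Rep.norm_map_av_le [CompleteSpace H] {V : Type*} [NormedAddCommGroup V] [NormedSpace ℝ V]
    (T : Rep V H) (S : H →L[ℝ] H) {v : V} {p c : ℝ} (hp : 0 < p) {ξ : H}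
    (h : ∀ t ∈ Icc 0 p, ‖S (T.τ (t • v) ξ)‖ ≤ c) : ‖S (T.av v p ξ)‖ ≤ c := by
  have := intervalIntegral.norm_integral_le_of_norm_le_const (a := 0) (b := p) (C := c)
    (f := fun t => S (T.τ (t • v) ξ)) fun t ht => h t (by
      rw [uIoc_of_le hp.le] at ht; exact Ioc_subset_Icc_self ht)
  rw [T.map_av, norm_smul, Real.norm_eq_abs, abs_of_pos (inv_pos.mpr hp)]
  rw [sub_zero, abs_of_pos hp] at this
  calc _ ≤ p⁻¹ * (c * p) := by gcongr
    _ = _ := by field_simp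

omit [TopologicalSpace G] in
/-- Mautner phenomenon for Hölder vectors. -/
lemma mautner {b g : G} {ζ : H} (hζ : Hol dd π {ζ}) (hb : π b ζ = ζ)
    (hn : ∀ ε : ℝ, 0 < ε → ∃ C, ∀ n : ℕ, ‖π (b ^ n)⁻¹‖ ≤ C * Real.exp (ε * n))
    (hg : Contr dd b g) : π g ζ = ζ := by
  obtain ⟨C, β, β0, β1, hg⟩ := hg
  obtain ⟨F, hF, h⟩ := hζ.hol
  obtain ⟨κ, hκ, C1, hC1, h1⟩ := hF.out
  set γ := (1 + β) / 2 with hγ
  have γ0 : 0 < γ := by positivity
  have γ1 : γ < 1 := by linarith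
  have hl : 0 < -Real.log γ := neg_pos.mpr (Real.log_neg γ0 γ1)
  obtain ⟨C2, h2⟩ := hn (κ * -Real.log γ / 2) (by positivity)
  have hbn : ∀ n : ℕ, π (b ^ n) ζ = ζ := fun n => by
    induction n with
    | zero => simp
    | succ n ih => rw [pow_succ, map_mul, mul_apply_eq_comp, hb, ih]
  have hbn' : ∀ n : ℕ, π (b ^ n)⁻¹ ζ = ζ := fun n => by
    conv_lhs => rw [← hbn n, ← mul_apply_eq_comp, ← map_mul, inv_mul_cancel, map_one]
    rfl
  have t1 : Tendsto (fun n : ℕ => (γ⁻¹) ^ n) atTop atTop :=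
    tendsto_pow_atTop_atTop_of_one_lt (one_lt_inv₀ γ0 |>.mpr γ1)
  have t2 : Tendsto (fun n : ℕ => C * (β / γ) ^ n) atTop (𝓝 (C * 0)) :=
    (tendsto_pow_atTop_nhds_zero_of_lt_one (by positivity)
      (by rw [div_lt_one γ0]; linarith)).const_mul C
  have t3 : Tendsto (fun n : ℕ => C2 * C1 * Real.exp (κ * Real.log γ / 2) ^ n) atTop
      (𝓝 (C2 * C1 * 0)) :=
    (tendsto_pow_atTop_nhds_zero_of_lt_one (by positivity)
      (Real.exp_lt_one_iff.mpr (by nlinarith))).const_mul _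
  rw [mul_zero] at t2 t3
  rw [← sub_eq_zero, ← norm_le_zero_iff]
  refine ge_of_tendsto t3 ?_
  filter_upwards [t1.eventually h, t1.eventually h1, t2.eventually (ge_mem_nhds one_pos)]
    with n e1 e2 e3
  have d : dd (b ^ n * g * (b ^ n)⁻¹) ≤ (γ⁻¹ ^ n)⁻¹ := by
    rw [inv_pow, inv_inv]
    refine (hg n).trans ?_
    calc _ = C * (β / γ) ^ n * γ ^ n := by rw [div_pow]; field_simp
      _ ≤ 1 * γ ^ n := by gcongr
      _ = _ := one_mul _
  have e4 := (e1 ζ rfl _ d).trans e2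
  have e : π g ζ - ζ = π (b ^ n)⁻¹ (π (b ^ n * g * (b ^ n)⁻¹) ζ - ζ) := by
    rw [map_sub, hbn', ← mul_apply_eq_comp, ← map_mul, ← mul_assoc, ← mul_assoc, inv_mul_cancel,
      one_mul, map_mul, mul_apply_eq_comp, hbn']
  have c2 : 0 ≤ C2 * Real.exp (κ * -Real.log γ / 2 * n) := (norm_nonneg _).trans (h2 n)
  rw [e]
  refine ((π (b ^ n)⁻¹).le_of_opNorm_le (h2 n) _).trans
    ((mul_le_mul_of_nonneg_left e4 c2).trans (le_of_eq ?_))
  rw [Real.rpow_def_of_pos (by positivity), Real.log_pow, Real.log_inv, ← Real.exp_nat_mul]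
  calc _ = C2 * C1 * (Real.exp (κ * -Real.log γ / 2 * n) *
        Real.exp (n * -Real.log γ * -κ)) := by ring
    _ = _ := by rw [← Real.exp_add]; congr 2; ring

lemma Tame.sl2 {D : Data sz dd} (hT : Tame π D) {ζ : H} (hζ : Hol dd π {ζ})
    (hz : ∀ c : ℝ, π (D.e1 ![c, 0, 0]) ζ = ζ) : π D.a ζ = ζ := by
  obtain ⟨F, hF, h⟩ := lip_hol D.l3 hζ
  obtain ⟨Ω, hΩ, Ω0, hb⟩ := tame_bound hT.t1 1
  rw [← sub_eq_zero, ← norm_le_zero_iff]
  refine ((hΩ.mul_sm Ω0 hF).add (hF.const_mul (norm_nonneg (π D.a)))).le_zero ?_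
  filter_upwards [h, eventually_gt_atTop 0] with q h1 q0
  have d0 : 0 < q⁻¹ := inv_pos.mpr q0
  have b1 := (h1 q⁻¹ (by rw [abs_of_pos d0, div_eq_mul_inv]; linarith)).2 ζ rfl
  have b2 := (h1 (2 * q⁻¹) (by rw [abs_of_pos (by positivity), div_eq_mul_inv])).2 ζ rfl
  have e := congrArg (fun g => π g ζ) (D.sl q⁻¹ d0)
  simp only [map_mul, mul_apply_eq_comp, hz, inv_inv] at e
  have e2 : π D.a ζ - ζ = π (D.e1 ![q, 0, 0]) (π (D.lo q⁻¹) ζ - ζ) -
      π D.a (π (D.lo (2 * q⁻¹)) ζ - ζ) := by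
    rw [map_sub, map_sub, e, hz]; abel
  rw [e2]
  refine (norm_sub_le _ _).trans (add_le_add ?_ (((π D.a).le_opNorm _).trans (by gcongr)))
  refine ((π _).le_of_opNorm_le (hb q _ ?_) _).trans (mul_le_mul_of_nonneg_left b1 (Ω0 q))
  rw [pow_one]
  exact norm_vec_le (abs_of_pos q0).le (by simpa using q0.le) (by simpa using q0.le)

end

variable {H : Type*} [NormedAddCommGroup H] [InnerProductSpace ℝ H] [CompleteSpace H]
  {π : G →* (H →L[ℝ] H)} {D : Data sz dd}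

lemma kappa {q : ℝ} (hq : 0 < q) : 576 / q ≤ (3 * q ^ (-(1 / 6 : ℝ))) ^ 6 := by
  rw [mul_pow, ← Real.rpow_natCast (q ^ _), ← Real.rpow_mul hq.le]
  norm_num
  rw [Real.rpow_neg_one, div_eq_mul_inv]
  gcongr
  norm_num

lemma step1 (hc : ∀ ξ, Continuous fun g => π g ξ) {e : V3 → G} (he : Unip sz e) {w : ℝ → G}
    (hw : LipAt dd w) (hcw : ∀ s v, w s * e v = e (sh s v) * w s)
    (ht : ∀ ε : ℝ, 0 < ε → ∃ C, ∀ v, ‖π (e v)‖ ≤ C * (1 + ‖v‖) ^ ε)
    (hl : ∃ C, ∀ g, dd g ≤ 1 → ‖π g‖ ≤ C ∧ ‖π g⁻¹‖ ≤ C) {S : Set H} (hS : Hol dd π S) :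
    ∃ F, Sm F ∧ ∀ᶠ q in atTop, ∀ ξ ∈ S, ∀ a, |a| ≤ q ^ 12 →
      ‖(repOf hc he).M ![1, 0, 0] ![0, a, 0] (q ^ 16) ξ‖ ≤ F q := by
  obtain ⟨F, hF, h⟩ := lip_hol hw hS
  obtain ⟨Ω, hΩ, Ω0, hb⟩ := tame_bound ht 26
  obtain ⟨B, hB⟩ := hl
  obtain ⟨L, hL⟩ := hS.bdd
  have s1 : Sm fun q => |B| * (Ω q * (Ω q * (3 * |L| * (3 * q ^ (-(1 / 6 : ℝ))))) +
      Ω q * ((Ω q + 1) * F q)) :=
    ((hΩ.mul_sm Ω0 (hΩ.mul_sm Ω0 (((sm_rpow (by norm_num)).const_mul (by norm_num)).const_mul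
      (by positivity)))).add (hΩ.mul_sm Ω0 ((hΩ.add (sb_const 1)).mul_sm
        (fun q => by linarith [Ω0 q]) hF))).const_mul (abs_nonneg B)
  refine ⟨_, s1, ?_⟩
  filter_upwards [h, eventually_ge_atTop 2] with q h1 hq ξ hξ a ha
  have q0 : 0 < q := by linarith
  refine (move1 (repOf hc he) (fun s => π (w s)) (fun s => π (w s)⁻¹)
    (fun s => by rw [← map_mul, inv_mul_cancel, map_one])
    (fun s v => by
      change π (w s) * π (e v) = π (e (sh s v)) * π (w s)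
      rw [← map_mul, hcw, map_mul]) hq ha (hb q)
    (fun s hs => (hB _ (h1 s hs).1).2.trans (le_abs_self B)) (by positivity) (kappa q0)
    (fun s hs => (h1 s hs).2 ξ hξ)).trans ?_
  calc _ ≤ |B| * (3 * Ω q ^ 2 * (3 * q ^ (-(1 / 6 : ℝ))) * |L| + Ω q * (Ω q + 1) * F q) := by
        gcongr; exact (hL ξ hξ).trans (le_abs_self L)
    _ = _ := by ring

lemma Tame.step (hT : Tame π D) {S : Set H} (hS : Hol dd π S) :
    ∃ F, Sm F ∧ ∀ᶠ q in atTop, ∀ ξ ∈ S, ∀ c, |c| ≤ q ^ 17 →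
      ‖π (D.e1 ![c, 0, 0]) (hT.av (q ^ 16) ξ) - hT.av (q ^ 16) ξ‖ ≤ F q := by
  obtain ⟨F1, hF1, h1⟩ := step1 hT.cont D.u1 D.l1 D.c1 hT.t1 hT.loc hS
  obtain ⟨F2, hF2, h2⟩ := step1 hT.cont D.u2 D.l2 D.c2 hT.t2 hT.loc hS
  obtain ⟨Ω1, hΩ1, Ω10, hb1⟩ := tame_bound hT.t1 26
  obtain ⟨Ω2, hΩ2, Ω20, hb2⟩ := tame_bound hT.t2 26
  obtain ⟨L, hL⟩ := hS.bdd
  have hΩ := hΩ1.add hΩ2
  have Ω0 : ∀ q, 0 ≤ Ω1 q + Ω2 q := fun q => add_nonneg (Ω10 q) (Ω20 q)
  have hΩ' := hΩ.add (sb_const 1)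
  have Ω0' : ∀ q, 0 ≤ Ω1 q + Ω2 q + 1 := fun q => by linarith [Ω0 q]
  refine ⟨_, (hΩ'.mul_sm Ω0' (hΩ'.mul_sm Ω0' (hF1.add hF2))).add (hΩ.mul_sm Ω0 (hΩ.mul_sm Ω0
    (hΩ.mul_sm Ω0 (hΩ.mul_sm Ω0 (((sm_rpow (κ := 1 / 6) (by norm_num)).const_mul
      (c := 3) (by norm_num)).const_mul (c := 3 * |L|) (by positivity)))))), ?_⟩
  filter_upwards [h1, h2, eventually_ge_atTop 2] with q e1 e2 hq ξ hξ c hc
  have q0 : 0 < q := by linarith
  have z : |(0 : ℝ)| ≤ q ^ 12 := by simp; positivity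
  have f1 := (norm_nonneg _).trans (e1 ξ hξ 0 z)
  have f2 := (norm_nonneg _).trans (e2 ξ hξ 0 z)
  refine (moves (repOf hT.cont D.u1) (repOf hT.cont D.u2) (fun t => congrArg π (D.same t))
    (fun s t r => by
      change π _ * π _ = π _ * π _
      rw [← map_mul, D.heis, map_mul]) (om := Ω1 q + Ω2 q) (δ := F1 q + F2 q) hq hc
    (fun x hx => (hb1 q x hx).trans (by linarith [Ω20 q]))
    (fun x hx => (hb2 q x hx).trans (by linarith [Ω10 q])) (by positivity) (kappa q0)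
    (fun a ha => (e1 ξ hξ a ha).trans (by linarith))
    (fun a ha => (e2 ξ hξ a ha).trans (by linarith))).trans ?_
  have := Ω0 q
  calc _ ≤ (Ω1 q + Ω2 q + 1) * ((Ω1 q + Ω2 q + 1) * (F1 q + F2 q)) + (Ω1 q + Ω2 q) *
      ((Ω1 q + Ω2 q) * (3 * (Ω1 q + Ω2 q) ^ 2 * (3 * q ^ (-(1 / 6 : ℝ))) * |L|)) := by
        gcongr; exact (hL ξ hξ).trans (le_abs_self L)
    _ = _ := by ring

lemma Tame.conv (hT : Tame π D) {S : Set H} (hS : Hol dd π S) :
    ∃ (P : H → H) (F : ℝ → ℝ), Sm F ∧ (∀ᶠ q in atTop, ∀ ξ ∈ S, ‖hT.av (q ^ 16) ξ - P ξ‖ ≤ F q) ∧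
      ∀ ξ ∈ S, ∀ c : ℝ, π (D.e1 ![c, 0, 0]) (P ξ) = P ξ := by
  obtain ⟨F, hF, h⟩ := hT.step hS
  obtain ⟨q0, hq0⟩ := eventually_atTop.mp h
  obtain ⟨P, F', hF', h'⟩ := exists_lim (fun ξ q => hT.av (q ^ 16) ξ) S hF (by
    filter_upwards [eventually_ge_atTop q0, eventually_ge_atTop (2 ^ 16)] with q h1 h2 ξ hξ q' a b
    have q1 : 1 ≤ q := by linarith
    have p1 : q' ^ 16 ≤ q ^ 17 := by
      calc _ ≤ (2 * q) ^ 16 := by gcongr; linarith
        _ = 2 ^ 16 * q ^ 16 := by ring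
        _ ≤ q * q ^ 16 := by gcongr
        _ = _ := by ring
    have p2 : q ^ 16 ≤ q' ^ 17 := by
      calc _ ≤ q ^ 17 := pow_le_pow_right₀ q1 (by norm_num)
        _ ≤ _ := by gcongr
    have b1 : ‖hT.av (q' ^ 16) (hT.av (q ^ 16) ξ) - hT.av (q ^ 16) ξ‖ ≤ F q :=
      (repOf hT.cont D.u1).norm_av_sub_le (by have : 0 < q' := by linarith
                                              positivity) fun t ht => by
        rw [smul_vec, mul_zero, mul_one]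
        exact hq0 q h1 ξ hξ t (by rw [abs_of_nonneg ht.1]; linarith [ht.2])
    have b2 : ‖hT.av (q ^ 16) (hT.av (q' ^ 16) ξ) - hT.av (q' ^ 16) ξ‖ ≤ F q' :=
      (repOf hT.cont D.u1).norm_av_sub_le (by positivity) fun t ht => by
        rw [smul_vec, mul_zero, mul_one]
        exact hq0 q' (h1.trans a) ξ hξ t (by rw [abs_of_nonneg ht.1]; linarith [ht.2])
    have e : hT.av (q' ^ 16) (hT.av (q ^ 16) ξ) = hT.av (q ^ 16) (hT.av (q' ^ 16) ξ) :=
      congrArg (· ξ) ((repOf hT.cont D.u1).commute_av_av _ _ _ _).eq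
    rw [e, norm_sub_rev] at b1
    exact (norm_sub_le_norm_sub_add_norm_sub _ _ _).trans (add_le_add b1 b2))
  refine ⟨P, F', hF', h', fun ξ hξ c => ?_⟩
  rw [← sub_eq_zero, ← norm_le_zero_iff]
  refine ((hF.add hF').add (hF'.const_mul (norm_nonneg (π (D.e1 ![c, 0, 0]))))).le_zero ?_
  filter_upwards [h, h', eventually_ge_atTop 1, eventually_ge_atTop |c|] with q e1 e2 q1 q2
  have b1 := e1 ξ hξ c (q2.trans (le_self_pow₀ q1 (by norm_num)))
  have b2 := e2 ξ hξ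
  have e : π (D.e1 ![c, 0, 0]) (P ξ) - P ξ = (π (D.e1 ![c, 0, 0]) (hT.av (q ^ 16) ξ) -
      hT.av (q ^ 16) ξ) + (hT.av (q ^ 16) ξ - P ξ) -
      π (D.e1 ![c, 0, 0]) (hT.av (q ^ 16) ξ - P ξ) := by rw [map_sub]; abel
  rw [e]
  exact (norm_sub_le _ _).trans (add_le_add ((norm_add_le _ _).trans (add_le_add b1 b2))
    (((π _).le_opNorm _).trans (by gcongr)))

lemma Tame.hol_lim (hs : Size sz dd) (hT : Tame π D) {S : Set H} (hS : Hol dd π S) {P : H → H}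
    {F : ℝ → ℝ} (hF : Sm F) (h : ∀ᶠ q in atTop, ∀ ξ ∈ S, ‖hT.av (q ^ 16) ξ - P ξ‖ ≤ F q) :
    Hol dd π (P '' S) := by
  obtain ⟨L, hL⟩ := hS.bdd
  constructor
  · obtain ⟨q, hq⟩ := h.exists
    refine ⟨‖hT.av (q ^ 16)‖ * L + F q, ?_⟩
    rintro _ ⟨ξ, hξ, rfl⟩
    have h1 := norm_sub_norm_le (P ξ) (hT.av (q ^ 16) ξ)
    have h2 := ((hT.av (q ^ 16)).le_opNorm ξ).trans
      (mul_le_mul_of_nonneg_left (hL ξ hξ) (norm_nonneg _))
    rw [norm_sub_rev] at h1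
    linarith [hq ξ hξ]
  obtain ⟨F0, hF0, h0⟩ := hS.hol
  obtain ⟨Ω, hΩ, Ω0, hb⟩ := tame_bound hT.t1 16
  obtain ⟨k, hk⟩ := poly_bound D.u1.poly 16
  obtain ⟨B, hB⟩ := hT.loc
  refine ((hΩ.mul_sm Ω0 hF0).add (hF.add (hF.const_mul (abs_nonneg B)))).root (m := 2 * k + 1)
    (by omega) (P := fun q y => ∀ ξ ∈ P '' S, ∀ g, dd g ≤ q⁻¹ → ‖π g ξ - ξ‖ ≤ y) ?_
  filter_upwards [h, h0, hk, eventually_ge_atTop 1] with q e1 e2 e3 q1
  rintro _ ⟨ξ, hξ, rfl⟩ g hg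
  have q0 : 0 < q := by linarith
  have b1 : ‖(π g - 1) (hT.av (q ^ 16) ξ)‖ ≤ Ω q * F0 q := by
    refine (repOf hT.cont D.u1).norm_map_av_le _ (by positivity) fun t ht => ?_
    have hv : ‖t • (![1, 0, 0] : V3)‖ ≤ q ^ 16 := by
      rw [smul_vec, mul_zero, mul_one]
      exact norm_vec_le (by rw [abs_of_nonneg ht.1]; exact ht.2) (by simp; positivity)
        (by simp; positivity)
    generalize t • (![1, 0, 0] : V3) = v at hv
    change ‖π g (π (D.e1 v) ξ) - π (D.e1 v) ξ‖ ≤ _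
    have d : dd ((D.e1 v)⁻¹ * g * D.e1 v) ≤ q⁻¹ := by
      refine (hs.conj g _).trans ?_
      have := hs.one_le (D.e1 v)
      calc _ ≤ (q ^ k) ^ 2 * (q ^ (2 * k + 1))⁻¹ := by
            gcongr
            · exact hs.dd_nonneg g
            · exact e3 v hv
        _ = _ := by field_simp; ring
    have e : π g (π (D.e1 v) ξ) - π (D.e1 v) ξ =
        π (D.e1 v) (π ((D.e1 v)⁻¹ * g * D.e1 v) ξ - ξ) := by
      rw [map_sub, ← mul_apply_eq_comp (π (D.e1 v)), ← map_mul, ← mul_assoc, ← mul_assoc,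
        mul_inv_cancel, one_mul, map_mul, mul_apply_eq_comp]
    rw [e]
    exact ((π _).le_of_opNorm_le (hb q v hv) _).trans
      (mul_le_mul_of_nonneg_left (e2 ξ hξ _ d) (Ω0 q))
  have b2 := e1 ξ hξ
  have b3 : ‖π g‖ ≤ |B| := (hB g (hg.trans (inv_le_one_of_one_le₀ (one_le_pow₀ q1)))).1.trans
    (le_abs_self B)
  have e : π g (P ξ) - P ξ = (π g - 1) (hT.av (q ^ 16) ξ) + ((hT.av (q ^ 16) ξ - P ξ) -
      π g (hT.av (q ^ 16) ξ - P ξ)) := by
    rw [map_sub, sub_apply, one_apply_eq_self]; abel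
  rw [e]
  exact (norm_add_le _ _).trans (add_le_add b1 ((norm_sub_le _ _).trans (add_le_add b2
    (((π g).le_of_opNorm_le b3 _).trans (by gcongr)))))

omit [TopologicalSpace G] [CompleteSpace H] in
lemma Hol.mono {S S' : Set H} (hS : Hol dd π S) (h : S' ⊆ S) : Hol dd π S' := by
  obtain ⟨⟨B, hB⟩, F, hF, h'⟩ := hS
  exact ⟨⟨B, fun ξ hξ => hB ξ (h hξ)⟩, F, hF, h'.mono fun q hq ξ hξ => hq ξ (h hξ)⟩

/-- One factor, under growth conditions on the data only. -/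
theorem Tame.one_factor (hs : Size sz dd) (hT : Tame π D) {S : Set H} (hS : Hol dd π S) :
    ∃ P : H → H, (∃ F, Sm F ∧ ∀ᶠ p in atTop, ∀ ξ ∈ S, ‖hT.av p ξ - P ξ‖ ≤ F p) ∧
      Hol dd π (P '' S) ∧
      ∀ ξ ∈ S, ∀ g, Contr dd D.a g ∨ Contr dd D.a⁻¹ g → π g (P ξ) = P ξ := by
  obtain ⟨P, F, hF, h, hz⟩ := hT.conv hS
  have hP := hT.hol_lim hs hS hF h
  refine ⟨P, hF.root (m := 16) (by norm_num)
    (P := fun p y => ∀ ξ ∈ S, ‖hT.av p ξ - P ξ‖ ≤ y) h, hP, fun ξ hξ g hg => ?_⟩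
  have h1 : Hol dd π {P ξ} := hP.mono (singleton_subset_iff.mpr ⟨ξ, hξ, rfl⟩)
  have h2 := hT.sl2 h1 (hz ξ hξ)
  rcases hg with hg | hg
  · exact mautner h1 h2 (fun ε hε => (hT.ta ε hε).imp fun C hC n => (hC n).2) hg
  · refine mautner h1 ?_ (fun ε hε => (hT.ta ε hε).imp fun C hC n => ?_) hg
    · conv_lhs => rw [← h2, ← mul_apply_eq_comp, ← map_mul, inv_mul_cancel, map_one]
      rfl
    · rw [inv_pow, inv_inv]; exact (hC n).1

omit [CompleteSpace H] in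
lemma Grow.tame (hs : Size sz dd) (hπ : Grow sz π) (D : Data sz dd) : Tame π D := by
  have hb : ∀ ε : ℝ, 0 < ε → ∃ C, 0 ≤ C ∧ ∀ g R, sz g ≤ R → ‖π g‖ ≤ C * R ^ ε := by
    intro ε hε
    obtain ⟨C, hC⟩ := hπ.grow ε hε
    refine ⟨max C 0, le_max_right _ _, fun g R hR => (hC g).trans ?_⟩
    have := hs.one_le g
    gcongr
    exact le_max_left _ _
  have hu : ∀ {e : V3 → G}, Unip sz e →
      ∀ ε : ℝ, 0 < ε → ∃ C, ∀ v, ‖π (e v)‖ ≤ C * (1 + ‖v‖) ^ ε := by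
    intro e he ε hε
    obtain ⟨C, m, hC⟩ := he.poly
    have hm : (0 : ℝ) < (m + 1 : ℕ) := by positivity
    obtain ⟨C', C0, hC'⟩ := hb (ε / (m + 1 : ℕ)) (by positivity)
    refine ⟨C' * |C| ^ (ε / (m + 1 : ℕ)), fun v => ?_⟩
    have h1 : 1 ≤ 1 + ‖v‖ := by linarith [norm_nonneg v]
    have h2 : sz (e v) ≤ |C| * (1 + ‖v‖) ^ (m + 1) := (hC v).trans (by
      gcongr
      · exact le_abs_self C
      · omega)
    refine (hC' _ _ h2).trans (le_of_eq ?_)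
    rw [Real.mul_rpow (abs_nonneg C) (by positivity), ← Real.rpow_natCast,
      ← Real.rpow_mul (by positivity), mul_div_cancel₀ _ hm.ne', mul_assoc]
  refine ⟨hπ.cont, hu D.u1, hu D.u2, fun ε hε => ?_, ?_⟩
  · have h1 := hs.one_le D.a
    have hp : ∀ n : ℕ, sz (D.a ^ n) ≤ sz 1 * Real.exp (sz D.a * n) := fun n => by
      induction n with
      | zero => simp
      | succ n ih =>
        rw [pow_succ]
        refine (hs.mul _ _).trans ?_
        have := Real.add_one_le_exp (sz D.a)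
        have h0 := hs.one_le 1
        calc _ ≤ sz 1 * Real.exp (sz D.a * n) * Real.exp (sz D.a) := by gcongr; linarith
          _ = _ := by rw [mul_assoc, ← Real.exp_add]; push_cast; ring_nf
    obtain ⟨C, C0, hC⟩ := hb (ε / sz D.a) (by positivity)
    have e : ∀ n : ℕ, C * (sz 1 * Real.exp (sz D.a * n)) ^ (ε / sz D.a) =
        C * sz 1 ^ (ε / sz D.a) * Real.exp (ε * n) := fun n => by
      rw [Real.mul_rpow (by linarith [hs.one_le 1]) (by positivity), ← Real.exp_mul, ← mul_assoc]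
      congr 2
      field_simp
    exact ⟨_, fun n => ⟨(hC _ _ (hp n)).trans (e n).le,
      (hC _ _ (by rw [hs.inv]; exact hp n)).trans (e n).le⟩⟩
  · obtain ⟨B, hB⟩ := hs.loc
    obtain ⟨C, -, hC⟩ := hb 1 one_pos
    exact ⟨_, fun g hg => ⟨hC _ _ (hB g hg), hC _ _ (by rw [hs.inv]; exact hB g hg)⟩⟩

/-- One factor, uniformly over a bounded set of Hölder vectors. -/
theorem one_factor (hs : Size sz dd) (hπ : Grow sz π) (D : Data sz dd) {S : Set H}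
    (hS : Hol dd π S) :
    ∃ P : H → H, (∃ F, Sm F ∧ ∀ᶠ p in atTop, ∀ ξ ∈ S, ‖D.avz hπ p ξ - P ξ‖ ≤ F p) ∧
      Hol dd π (P '' S) ∧
      ∀ ξ ∈ S, ∀ g, Contr dd D.a g ∨ Contr dd D.a⁻¹ g → π g (P ξ) = P ξ :=
  (hπ.tame hs D).one_factor hs hS

end Pool.Agent.P.MP_d483fb_an.Z.ST


end

section

/-! Invariant vectors with a polynomial rate of approximation. -/

namespace Pool.Agent.P.MP_d483fb_an.Z.ST

open Filter Topology Set MeasureTheory

variable {G : Type*} [Group G] [TopologicalSpace G] {sz dd : G → ℝ}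
  {H : Type*} [NormedAddCommGroup H] [InnerProductSpace ℝ H] [CompleteSpace H]
  {π : G →* (H →L[ℝ] H)}

/-- `ζ` is approximated at a polynomial rate by convex combinations of translates of `ξ` by
elements of `W R`. -/
def AppW (W : ℝ → Set G) (π : G →* (H →L[ℝ] H)) (ξ ζ : H) : Prop :=
  ∃ F, Sm F ∧ ∀ᶠ R in atTop, ∃ η ∈ convexHull ℝ {x | ∃ g ∈ W R, x = π g ξ}, ‖ζ - η‖ ≤ F R

/-- The stabiliser of a vector. -/
def stab (π : G →* (H →L[ℝ] H)) (ζ : H) : Subgroup G where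
  carrier := {g | π g ζ = ζ}
  mul_mem' {a b} ha hb := by
    change π (a * b) ζ = ζ
    rw [map_mul, mul_apply_eq_comp, hb, ha]
  one_mem' := by
    change π 1 ζ = ζ
    rw [map_one, one_apply_eq_self]
  inv_mem' {a} ha := by
    change π a⁻¹ ζ = ζ
    conv_lhs => rw [← (ha : π a ζ = ζ), ← mul_apply_eq_comp, ← map_mul, inv_mul_cancel, map_one]
    rfl

lemma sm_inv : Sm fun q => q⁻¹ :=
  (sm_rpow one_pos).mono (Eventually.of_forall fun q => (Real.rpow_neg_one q).ge)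

lemma Tame.appW {D : Data sz dd} (hT : Tame π D) {W : ℝ → Set G}
    (hW : ∃ k : ℕ, k ≠ 0 ∧ ∀ᶠ R : ℝ in atTop, ∀ t g, |t| ≤ R → g ∈ W R →
      D.e1 ![t, 0, 0] * g ∈ W (R ^ k))
    {ξ0 ξ ζ : H} (h0 : AppW W π ξ0 ξ) {F : ℝ → ℝ} (hF : Sm F)
    (h : ∀ᶠ p in atTop, ‖hT.av p ξ - ζ‖ ≤ F p) : AppW W π ξ0 ζ := by
  obtain ⟨k, hk, hW⟩ := hW
  obtain ⟨F0, hF0, h0⟩ := h0
  obtain ⟨Ω, hΩ, Ω0, hb⟩ := tame_bound hT.t1 1
  refine (hF.add ((hΩ.mul_sm Ω0 hF0).add sm_inv)).root hk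
    (P := fun R y => ∃ η ∈ convexHull ℝ {x | ∃ g ∈ W R, x = π g ξ0}, ‖ζ - η‖ ≤ y) ?_
  filter_upwards [h, h0, hW, eventually_gt_atTop 0] with R e1 e2 e3 R0
  obtain ⟨η, hη, e2⟩ := e2
  have hm : hT.av R η ∈ closure (convexHull ℝ {x | ∃ g ∈ W (R ^ k), x = π g ξ0}) := by
    refine (repOf hT.cont D.u1).av_mem R0 (convex_convexHull _ _).closure isClosed_closure
      fun t ht => subset_closure ?_
    rw [smul_vec, mul_zero, mul_one]
    refine convexHull_min (t := (π (D.e1 ![t, 0, 0])) ⁻¹'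
      convexHull ℝ {x | ∃ g ∈ W (R ^ k), x = π g ξ0}) ?_
      ((convex_convexHull _ _).linear_preimage (π (D.e1 ![t, 0, 0]) : H →ₗ[ℝ] H)) hη
    rintro _ ⟨g, hg, rfl⟩
    exact subset_convexHull _ _ ⟨_, e3 t g (by rw [abs_of_nonneg ht.1]; exact ht.2) hg, by
      rw [map_mul, mul_apply_eq_comp]⟩
  obtain ⟨η', hη', e4⟩ := Metric.mem_closure_iff.mp hm R⁻¹ (inv_pos.mpr R0)
  refine ⟨η', hη', ?_⟩
  have hn : ‖hT.av R‖ ≤ Ω R := (repOf hT.cont D.u1).norm_av_le R0 fun t ht => hb R _ (by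
    rw [smul_vec, mul_zero, mul_one, pow_one]
    exact norm_vec_le (by rw [abs_of_nonneg ht.1]; exact ht.2) (by simpa using R0.le)
      (by simpa using R0.le))
  have e : ζ - η' = -(hT.av R ξ - ζ) + (hT.av R (ξ - η) + (hT.av R η - η')) := by
    rw [map_sub]; abel
  rw [dist_eq_norm] at e4
  rw [e]
  refine (norm_add_le _ _).trans (add_le_add (by rwa [norm_neg]) ((norm_add_le _ _).trans
    (add_le_add ?_ e4.le)))
  exact ((hT.av R).le_of_opNorm_le hn _).trans (mul_le_mul_of_nonneg_left e2 (Ω0 R))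

lemma Tame.keep {D : Data sz dd} (hT : Tame π D) {N : Subgroup G} (hn : N.Normal) {ξ ζ : H}
    (hξ : N ≤ stab π ξ) {F : ℝ → ℝ} (hF : Sm F) (h : ∀ᶠ p in atTop, ‖hT.av p ξ - ζ‖ ≤ F p) :
    N ≤ stab π ζ := by
  intro g hg
  change π g ζ = ζ
  rw [← sub_eq_zero, ← norm_le_zero_iff]
  refine (hF.add (hF.const_mul (norm_nonneg (π g)))).le_zero ?_
  filter_upwards [h, eventually_gt_atTop 0] with p e1 p0
  have b1 : ‖(π g - 1) (hT.av p ξ)‖ ≤ 0 := by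
    refine (repOf hT.cont D.u1).norm_map_av_le _ p0 fun t _ => ?_
    generalize t • (![1, 0, 0] : V3) = v
    change ‖π g (π (D.e1 v) ξ) - π (D.e1 v) ξ‖ ≤ _
    have e : π ((D.e1 v)⁻¹ * g * D.e1 v) ξ = ξ := hξ (hn.conj_mem' g hg _)
    conv_lhs => rw [← mul_apply_eq_comp, ← map_mul, ← mul_inv_cancel_left (D.e1 v) (g * D.e1 v),
      map_mul, mul_apply_eq_comp, ← mul_assoc, e]
    simp
  rw [norm_le_zero_iff] at b1
  have e : π g ζ - ζ = (π g - 1) (hT.av p ξ) + ((hT.av p ξ - ζ) - π g (hT.av p ξ - ζ)) := by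
    rw [map_sub, sub_apply, one_apply_eq_self]; abel
  rw [e, b1, zero_add]
  exact (norm_sub_le _ _).trans (add_le_add e1 (((π g).le_opNorm _).trans (by gcongr)))

/-- All factors, under growth conditions on the data only. -/
theorem all_factorsW (hs : Size sz dd) (hc : ∀ ξ, Continuous fun g => π g ξ) {ι : Type*}
    [Finite ι] (D : ι → Data sz dd) (hT : ∀ i, Tame π (D i)) (W : ℝ → Set G)
    (hW : ∀ i, ∃ k : ℕ, k ≠ 0 ∧ ∀ᶠ R : ℝ in atTop, ∀ t g, |t| ≤ R → g ∈ W R →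
      (D i).e1 ![t, 0, 0] * g ∈ W (R ^ k))
    (N : ι → Subgroup G) (hn : ∀ i, (N i).Normal)
    (hN : ∀ i (S : Subgroup G), IsClosed (S : Set G) →
      (∀ g, Contr dd (D i).a g ∨ Contr dd (D i).a⁻¹ g → g ∈ S) → N i ≤ S)
    (htop : ∀ S : Subgroup G, IsClosed (S : Set G) → (∀ i, N i ≤ S) → S = ⊤)
    {ξ0 ξ : H} (hξ : Hol dd π {ξ}) (h0 : AppW W π ξ0 ξ) :
    ∃ ζ, (∀ g, π g ζ = ζ) ∧ AppW W π ξ0 ζ := by
  classical
  have hcl : ∀ ζ, IsClosed (stab π ζ : Set G) := fun ζ => isClosed_eq (hc ζ) continuous_const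
  have key : ∀ s : Finset ι, ∃ ζ, Hol dd π {ζ} ∧ AppW W π ξ0 ζ ∧ ∀ i ∈ s, N i ≤ stab π ζ := by
    intro s
    induction s using Finset.induction_on with
    | empty => exact ⟨ξ, hξ, h0, by simp⟩
    | insert j s _ ih =>
      obtain ⟨ζ, h1, h2, h3⟩ := ih
      obtain ⟨P, ⟨F, hF, h4⟩, h5, h6⟩ := (hT j).one_factor hs h1
      have h7 : ∀ᶠ p in atTop, ‖(hT j).av p ζ - P ζ‖ ≤ F p := h4.mono fun p hp => hp ζ rfl
      refine ⟨P ζ, by rwa [image_singleton] at h5, (hT j).appW (hW j) h2 hF h7, fun i hi => ?_⟩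
      rcases Finset.mem_insert.mp hi with rfl | hi
      · exact hN i _ (hcl _) (h6 ζ rfl)
      · exact (hT j).keep (hn i) (h3 i hi) hF h7
  have := Fintype.ofFinite ι
  obtain ⟨ζ, -, h2, h3⟩ := key Finset.univ
  refine ⟨ζ, fun g => ?_, h2⟩
  have := htop _ (hcl ζ) fun i => h3 i (Finset.mem_univ i)
  exact (this ▸ Subgroup.mem_top g : g ∈ stab π ζ)

lemma Size.words (hs : Size sz dd) (D : Data sz dd) :
    ∃ k : ℕ, k ≠ 0 ∧ ∀ᶠ R : ℝ in atTop, ∀ t g, |t| ≤ R → g ∈ {g | sz g ≤ R} →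
      D.e1 ![t, 0, 0] * g ∈ {g | sz g ≤ R ^ k} := by
  obtain ⟨k, hk⟩ := poly_bound D.u1.poly 1
  refine ⟨k + 1, by omega, ?_⟩
  filter_upwards [hk, eventually_gt_atTop 0] with R h R0 t g ht hg
  refine (hs.mul _ _).trans ?_
  rw [pow_succ]
  exact mul_le_mul (h _ (by
    rw [pow_one]; exact norm_vec_le ht (by simpa using R0.le) (by simpa using R0.le))) hg
    (by linarith [hs.one_le g]) (by positivity)

theorem all_factors (hs : Size sz dd) (hπ : Grow sz π) {ι : Type*} [Finite ι]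
    (D : ι → Data sz dd) (N : ι → Subgroup G) (hn : ∀ i, (N i).Normal)
    (hN : ∀ i (S : Subgroup G), IsClosed (S : Set G) →
      (∀ g, Contr dd (D i).a g ∨ Contr dd (D i).a⁻¹ g → g ∈ S) → N i ≤ S)
    (htop : ∀ S : Subgroup G, IsClosed (S : Set G) → (∀ i, N i ≤ S) → S = ⊤)
    {ξ : H} (hξ : Hol dd π {ξ}) : ∃ ζ, (∀ g, π g ζ = ζ) ∧ App sz π ξ ζ := by
  refine all_factorsW hs hπ.cont D (fun i => hπ.tame hs _) (fun R => {g | sz g ≤ R})
    (fun i => hs.words _) N hn hN htop hξ ⟨_, sm_inv, ?_⟩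
  filter_upwards [eventually_ge_atTop (sz 1), eventually_gt_atTop 0] with R h R0
  exact ⟨ξ, subset_convexHull _ _ ⟨1, h, by simp⟩, by simpa using R0.le⟩

variable [IsTopologicalGroup G] [LocallyCompactSpace G]

/-- Smoothing with a Lipschitz bump function. -/
theorem smooth (hc : ∀ ξ, Continuous fun g => π g ξ) (hd : ∀ g, 0 ≤ dd g)
    (hloc : ∃ C, ∀ g, dd g ≤ 1 → ‖π g‖ ≤ C) {φ : G → ℝ} (hφ : Continuous φ)
    (hcs : HasCompactSupport φ) (h0 : ∀ g, 0 ≤ φ g) (h1 : 0 < φ 1)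
    (hl : ∃ C, ∀ g h, dd g ≤ 1 → |φ (g⁻¹ * h) - φ h| ≤ C * dd g) (ξ0 : H) :
    ∃ ξ, Hol dd π {ξ} ∧ ξ ∈ closure (convexHull ℝ {x | ∃ g ∈ tsupport φ, x = π g ξ0}) := by
  borelize G
  set μ : Measure G := Measure.haar
  obtain ⟨C, hC⟩ := hloc
  obtain ⟨L, hL⟩ := hl
  obtain ⟨M, hM⟩ := hcs.isCompact.exists_bound_of_continuousOn (hc ξ0).continuousOn
  have hi : Integrable φ μ := hφ.integrable_of_hasCompactSupport hcs
  have hc0 : 0 < ∫ h, φ h ∂μ := hφ.integral_pos_of_hasCompactSupport_nonneg_nonzero hcs h0 h1.ne'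
  have hi1 : Integrable (fun h => φ h • π h ξ0) μ :=
    (hφ.smul (hc ξ0)).integrable_of_hasCompactSupport hcs.smul_right
  refine ⟨(∫ h, φ h ∂μ)⁻¹ • ∫ h, φ h • π h ξ0 ∂μ, ⟨⟨_, fun ξ hξ => le_of_eq (congrArg _ hξ)⟩,
    _, sm_inv.const_mul (c := (∫ h, φ h ∂μ)⁻¹ * (|L| * ((|C| + 1) * |M|) *
      (μ.real (tsupport φ) + μ.real (tsupport φ)))) (by positivity), ?_⟩, ?_⟩
  · filter_upwards [eventually_ge_atTop 1] with q q1
    rintro _ rfl g hg
    have g1 : dd g ≤ 1 := hg.trans (inv_le_one_of_one_le₀ q1)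
    have e1 : π g (∫ h, φ h • π h ξ0 ∂μ) = ∫ h, φ (g⁻¹ * h) • π h ξ0 ∂μ := by
      rw [← (π g).integral_comp_comm hi1,
        ← integral_mul_left_eq_self (fun h => φ (g⁻¹ * h) • π h ξ0) g]
      congr 1
      ext h
      rw [map_smul, inv_mul_cancel_left, map_mul, mul_apply_eq_comp]
    have hi2 : Integrable (fun h => φ (g⁻¹ * h) • π h ξ0) μ := by
      have := ((π g).integrable_comp hi1).comp_mul_left g⁻¹
      refine this.congr (Eventually.of_forall fun h => ?_)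
      simp only [map_smul]
      rw [← mul_apply_eq_comp, ← map_mul, mul_inv_cancel_left]
    set K := tsupport φ
    have mK : MeasurableSet K := (isClosed_tsupport φ).measurableSet
    have fK : μ K ≠ ⊤ := hcs.isCompact.measure_lt_top.ne
    have mK' : MeasurableSet ((g⁻¹ * ·) ⁻¹' K) := measurable_const_mul _ mK
    have eK : μ ((g⁻¹ * ·) ⁻¹' K) = μ K := measure_preimage_mul μ g⁻¹ K
    set c := |L| * ((|C| + 1) * |M|) * q⁻¹ with hcq
    have c0 : 0 ≤ c := by positivity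
    have i1 : Integrable (K.indicator fun _ => c) μ :=
      (integrable_indicator_iff mK).mpr (integrableOn_const fK)
    have i2 : Integrable (((g⁻¹ * ·) ⁻¹' K).indicator fun _ => c) μ :=
      (integrable_indicator_iff mK').mpr (integrableOn_const (eK ▸ fK))
    have hb : ∀ h, ‖π h ξ0‖ ≤ (|C| + 1) * |M| → ‖φ (g⁻¹ * h) • π h ξ0 - φ h • π h ξ0‖ ≤ c := by
      intro h hh
      rw [← sub_smul, norm_smul, Real.norm_eq_abs]
      have := hd g
      calc _ ≤ |L| * q⁻¹ * ((|C| + 1) * |M|) := by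
            gcongr
            exact (hL g h g1).trans (by gcongr; exact le_abs_self L)
        _ = _ := by ring
    have key := norm_integral_le_of_norm_le (μ := μ)
      (f := fun h => φ (g⁻¹ * h) • π h ξ0 - φ h • π h ξ0) (i1.add i2)
      (Eventually.of_forall fun h => by
        have n1 : 0 ≤ K.indicator (fun _ => c) h := indicator_nonneg (fun _ _ => c0) h
        have n2 : 0 ≤ ((g⁻¹ * ·) ⁻¹' K).indicator (fun _ => c) h :=
          indicator_nonneg (fun _ _ => c0) h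
        rw [Pi.add_apply]
        by_cases a : h ∈ K
        · rw [indicator_of_mem a]
          refine (hb h ((hM h a).trans ((le_abs_self M).trans ?_))).trans (by linarith)
          nlinarith [abs_nonneg C, abs_nonneg M]
        by_cases b : g⁻¹ * h ∈ K
        · rw [indicator_of_mem (s := (g⁻¹ * ·) ⁻¹' K) b]
          refine (hb h ?_).trans (by linarith)
          rw [← mul_inv_cancel_left g h, map_mul, mul_apply_eq_comp]
          refine ((π g).le_of_opNorm_le ((hC g g1).trans (le_abs_self C)) _).trans ?_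
          gcongr
          · linarith
          · exact (hM _ b).trans (le_abs_self M)
        · rw [image_eq_zero_of_notMem_tsupport a, image_eq_zero_of_notMem_tsupport b]
          simpa using add_nonneg n1 n2)
    rw [integral_add' i1 i2, integral_indicator mK, integral_indicator mK', setIntegral_const,
      setIntegral_const, Measure.real, Measure.real, eK, ← Measure.real, integral_sub hi2 hi1] at key
    rw [map_smul, ← smul_sub, e1, norm_smul, Real.norm_eq_abs, abs_of_pos (inv_pos.mpr hc0),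
      mul_assoc]
    gcongr
    refine key.trans (le_of_eq ?_)
    simp only [smul_eq_mul, hcq]
    ring
  · by_contra hx
    obtain ⟨f, u, hf, hu⟩ := geometric_hahn_banach_closed_point
      (convex_convexHull ℝ _).closure isClosed_closure hx
    rw [map_smul, ← f.integral_comp_comm hi1, smul_eq_mul, lt_inv_mul_iff₀ hc0,
      ← integral_mul_const] at hu
    refine hu.not_ge (integral_mono (f.integrable_comp hi1) (hi.mul_const u) fun h => ?_)
    simp only [map_smul, smul_eq_mul]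
    by_cases a : h ∈ tsupport φ
    · exact mul_le_mul_of_nonneg_left
        (hf _ (subset_closure (subset_convexHull _ _ ⟨h, a, rfl⟩))).le (h0 h)
    · rw [image_eq_zero_of_notMem_tsupport a, zero_mul, zero_mul]

/-- The main theorem, under growth conditions on the data only. -/
theorem strongTW (hs : Size sz dd) (hc : ∀ ξ, Continuous fun g => π g ξ)
    (hloc : ∃ C, ∀ g, dd g ≤ 1 → ‖π g‖ ≤ C) {ι : Type*}
    [Finite ι] (D : ι → Data sz dd) (hT : ∀ i, Tame π (D i)) (W : ℝ → Set G)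
    (hW : ∀ i, ∃ k : ℕ, k ≠ 0 ∧ ∀ᶠ R : ℝ in atTop, ∀ t g, |t| ≤ R → g ∈ W R →
      (D i).e1 ![t, 0, 0] * g ∈ W (R ^ k))
    (N : ι → Subgroup G) (hn : ∀ i, (N i).Normal)
    (hN : ∀ i (S : Subgroup G), IsClosed (S : Set G) →
      (∀ g, Contr dd (D i).a g ∨ Contr dd (D i).a⁻¹ g → g ∈ S) → N i ≤ S)
    (htop : ∀ S : Subgroup G, IsClosed (S : Set G) → (∀ i, N i ≤ S) → S = ⊤)
    (φ : G → ℝ) (hφ : Continuous φ) (hcs : HasCompactSupport φ) (h0 : ∀ g, 0 ≤ φ g) (h1 : 0 < φ 1)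
    (hl : ∃ C, ∀ g h, dd g ≤ 1 → |φ (g⁻¹ * h) - φ h| ≤ C * dd g)
    (hb : ∀ᶠ R in atTop, tsupport φ ⊆ W R) (ξ : H) :
    ∃ ζ, (∀ g, π g ζ = ζ) ∧ AppW W π ξ ζ := by
  obtain ⟨ξ1, h2, h3⟩ := smooth hc hs.dd_nonneg hloc hφ hcs h0 h1 hl ξ
  refine all_factorsW hs hc D hT W hW N hn hN htop h2 ⟨_, sm_inv, ?_⟩
  filter_upwards [hb, eventually_gt_atTop 0] with R h R0
  obtain ⟨η, hη, e⟩ := Metric.mem_closure_iff.mp h3 R⁻¹ (inv_pos.mpr R0)
  rw [dist_eq_norm] at e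
  refine ⟨η, convexHull_mono ?_ hη, e.le⟩
  rintro x ⟨g, hg, hx⟩
  exact ⟨g, h hg, hx⟩

/-- The main theorem: every vector has an invariant vector in the closed convex hull of its
orbit, with a polynomial rate of approximation. -/
theorem strongT (hs : Size sz dd) (hπ : Grow sz π) {ι : Type*} [Finite ι]
    (D : ι → Data sz dd) (N : ι → Subgroup G) (hn : ∀ i, (N i).Normal)
    (hN : ∀ i (S : Subgroup G), IsClosed (S : Set G) →
      (∀ g, Contr dd (D i).a g ∨ Contr dd (D i).a⁻¹ g → g ∈ S) → N i ≤ S)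
    (htop : ∀ S : Subgroup G, IsClosed (S : Set G) → (∀ i, N i ≤ S) → S = ⊤)
    (φ : G → ℝ) (hφ : Continuous φ) (hc : HasCompactSupport φ) (h0 : ∀ g, 0 ≤ φ g) (h1 : 0 < φ 1)
    (hl : ∃ C, ∀ g h, dd g ≤ 1 → |φ (g⁻¹ * h) - φ h| ≤ C * dd g)
    (hb : ∃ C, ∀ g ∈ tsupport φ, sz g ≤ C) (ξ : H) :
    ∃ ζ, (∀ g, π g ζ = ζ) ∧ App sz π ξ ζ := by
  obtain ⟨B, hB⟩ := hs.loc
  obtain ⟨C, hC⟩ := hπ.grow 1 one_pos
  obtain ⟨A, hA⟩ := hb
  refine strongTW hs hπ.cont ⟨|C| * B, fun g hg => (hC g).trans ?_⟩ D (fun i => hπ.tame hs _)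
    (fun R => {g | sz g ≤ R}) (fun i => hs.words _) N hn hN htop φ hφ hc h0 h1 hl ?_ ξ
  · rw [Real.rpow_one]
    exact mul_le_mul (le_abs_self C) (hB g hg) (by linarith [hs.one_le g]) (abs_nonneg C)
  · filter_upwards [eventually_ge_atTop A] with R h g hg using (hA g hg).trans h

end Pool.Agent.P.MP_d483fb_an.Z.ST


end
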