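import Pool.Agent.P.MP_d483fb_an.M.A01
import Pool.Agent.P.MP_d483fb_an.M.A03
import Pool.Agent.P.MP_d483fb_an.M.A04

section

/-!
Random paths in a group acting on the quotient by a lattice: definitions.
-/

open scoped Topology Pointwise InnerProductSpace RealInnerProductSpace ENNReal
open MeasureTheory Filter Set

noncomputable section

namespace Pool.Agent.P.MP_d483fb_an.Z

/-- A word length with respect to a compact symmetric neighbourhood of the identity. -/
structure Len (G : Type) [Group G] [TopologicalSpace G] where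
  len : G → ℕ
  len_one : len 1 = 0
  len_inv : ∀ g, len g⁻¹ = len g
  len_mul : ∀ g h, len (g * h) ≤ len g + len h
  step : ∀ g n, len g ≤ n + 1 → ∃ u g', len u ≤ 1 ∧ len g' ≤ n ∧ g = u * g'
  cpt : ∀ n, IsCompact {g | len g ≤ n}
  nhds : {g | len g ≤ 1} ∈ 𝓝 (1 : G)

/-- `y'` is reached from `y` by at most `m` pieces `y, s y, …, s ^ N y` that satisfy `P`. -/
inductive Chain {G : Type} [Group G] (P : G → ℕ → G → Prop) : ℕ → G → G → Prop
  | nil (m : ℕ) (y : G) : Chain P m y y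
  | cons {m N : ℕ} {s y y' : G} : P s N y → Chain P m (s ^ N * y) y' → Chain P (m + 1) y y'

theorem Chain.mono {G : Type} [Group G] {P : G → ℕ → G → Prop} {m m' : ℕ} {y y' : G}
    (h : Chain P m y y') (hm : m ≤ m') : Chain P m' y y' := by
  induction h generalizing m' with
  | nil m y => exact .nil _ _
  | cons hP _ ih =>
    obtain ⟨k, rfl⟩ : ∃ k, m' = k + 1 := ⟨m' - 1, by omega⟩
    exact .cons hP (ih (by omega))

theorem Chain.trans {G : Type} [Group G] {P : G → ℕ → G → Prop} {m m' : ℕ} {y y' y'' : G}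
    (h : Chain P m y y') (h' : Chain P m' y' y'') : Chain P (m + m') y y'' := by
  induction h with
  | nil m y => exact h'.mono (by omega)
  | cons hP _ ih => exact (Chain.cons hP (ih h')).mono (by omega)

theorem Chain.single {G : Type} [Group G] {P : G → ℕ → G → Prop} {N : ℕ} {s y : G}
    (h : P s N y) : Chain P 1 y (s ^ N * y) := .cons h (.nil _ _)

theorem Chain.imp {G : Type} [Group G] {P Q : G → ℕ → G → Prop} {m : ℕ} {y y' : G}
    (h : Chain P m y y') (hPQ : ∀ s N y, P s N y → Q s N y) : Chain Q m y y' := by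
  induction h with
  | nil m y => exact .nil _ _
  | cons hP _ ih => exact .cons (hPQ _ _ _ hP) ih

variable {G : Type} [Group G] [TopologicalSpace G]

/-- A piece of a path at scale `T`: a bounded jump or a part of an orbit of an element of `S`,
far from the identity. -/
def Piece (l : Len G) (Far : G → ℝ → Prop) (S : Set G) (C T : ℕ) (s : G) (N : ℕ) (y : G) : Prop :=
  l.len s ≤ C ∧ (s ∈ S ∨ N ≤ 1) ∧ N ≤ C * T ∧ ∀ j ≤ N, Far (s ^ j * y) (T / C)

/-- Linear divergence: two points far out in the direction `b` are joined by boundedly many pieces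
that stay far from the identity. -/
structure Geo (l : Len G) (Far : G → ℝ → Prop) (S : Set G) where
  b : G
  C : ℕ
  m : ℕ
  C_pos : 0 < C
  b_mem : b ∈ S
  b_inv_mem : b⁻¹ ∈ S
  far : ∀ T : ℕ, C ≤ T → Far (b ^ T) (T / C)
  chain : ∀ (n T : ℕ) (u u' : G), C * (n + 1) ≤ T → l.len u ≤ n → l.len u' ≤ n →
    Chain (Piece l Far S C T) m (b ^ T * u) (b ^ T * u')

/-- A homogeneous space with a discrete stabiliser. -/
structure Base (l : Len G) (X : Type) [TopologicalSpace X] [MulAction G X] where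
  o : X
  trans : ∀ x, ∃ g : G, g • o = x
  opn : IsOpenMap fun g : G => g • o
  fin : ∀ n, {γ : G | γ • o = o ∧ l.len γ ≤ n}.Finite

open Classical in
/-- The height of a point. -/
def Base.ht {l : Len G} {X : Type} [TopologicalSpace X] [MulAction G X] (B : Base l X) (x : X) :
    ℕ :=
  Nat.find (p := fun n => ∃ g : G, l.len g ≤ n ∧ g • B.o = x)
    (by obtain ⟨g, hg⟩ := B.trans x; exact ⟨_, g, le_rfl, hg⟩)

/-- Effective equidistribution of far translates of exponentially small random perturbations of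
the base point. -/
structure Equi [MeasurableSpace G] (l : Len G) (Far : G → ℝ → Prop) {X : Type} [MulAction G X]
    [MeasurableSpace X] (o : X) (μ : Measure X) where
  σ : ℕ → Measure G
  C : ℝ
  κ : ℝ
  κ_pos : 0 < κ
  prob : ∀ n, IsProbabilityMeasure (σ n)
  small : ∀ n, ∀ᵐ δ ∂σ n, ∀ γ, l.len γ ≤ n → l.len (γ * δ * γ⁻¹) ≤ 1
  eq : ∀ W : Set G, IsOpen W → 1 ∈ W → ∃ E : ℝ, ∀ (n : ℕ) (g : G) (t : ℝ), Far g t →
    ∀ U : Set X, MeasurableSet U →
      σ n {δ | (g * δ) • o ∈ U} ≤ μ (W • U) + ENNReal.ofReal (E * Real.exp (C * n - κ * t))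

/-- `g` is at least `t` far from the identity in every simple factor. -/
def Std.Far {n k : ℕ} (D : Std G n k) (g : G) (t : ℝ) : Prop :=
  ∃ k₁ ∈ D.K, ∃ k₂ ∈ D.K, ∃ s, g = k₁ * D.a s * k₂ ∧
    ∀ γ ∈ D.roots, ∃ β ∈ D.roots, D.Conn γ β ∧ t ≤ |⟪β, s⟫|

/-- The group generated by the Cartan subgroup and the kernel. -/
def Std.AZ {n k : ℕ} (D : Std G n k) : Subgroup G :=
  Subgroup.closure (range D.a) ⊔ D.ρ.ker

end Pool.Agent.P.MP_d483fb_an.Z

end

end

section

/-!
Orthogonal projections onto the vectors fixed by normal subgroups in an isometric representation,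
and the telescoping estimate over finitely many normal subgroups generating the group.
-/

open scoped RealInnerProductSpace

namespace Pool.Agent.P.MP_d483fb_an.Z.EM

variable {G : Type*} [Group G] {H : Type*} [NormedAddCommGroup H] [InnerProductSpace ℝ H]

/-- Vectors fixed by a subgroup. -/
def fixS (π : G →* (H →L[ℝ] H)) (N : Subgroup G) : Submodule ℝ H where
  carrier := {v | ∀ s ∈ N, π s v = v}
  add_mem' := by
    intro a b ha hb s hs
    simp only [map_add, ha s hs, hb s hs]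
  zero_mem' := by
    intro s _
    simp
  smul_mem' := by
    intro c a ha s hs
    simp only [map_smul, ha s hs]

lemma mem_fixS {π : G →* (H →L[ℝ] H)} {N : Subgroup G} {v : H} :
    v ∈ fixS π N ↔ ∀ s ∈ N, π s v = v := Iff.rfl

lemma isClosed_fixS (π : G →* (H →L[ℝ] H)) (N : Subgroup G) :
    IsClosed (fixS π N : Set H) := by
  have : (fixS π N : Set H) = ⋂ s ∈ N, {v | π s v = v} := by
    ext v
    simp [mem_fixS]
  rw [this]
  exact isClosed_biInter fun s _ => isClosed_eq (π s).continuous continuous_id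

lemma pi_mul (π : G →* (H →L[ℝ] H)) (g h : G) (v : H) : π (g * h) v = π g (π h v) := by
  rw [map_mul]; rfl

lemma pi_inv_apply (π : G →* (H →L[ℝ] H)) (g : G) (v : H) : π g⁻¹ (π g v) = v := by
  rw [← pi_mul, inv_mul_cancel, map_one]; rfl

lemma pi_apply_inv (π : G →* (H →L[ℝ] H)) (g : G) (v : H) : π g (π g⁻¹ v) = v := by
  rw [← pi_mul, mul_inv_cancel, map_one]; rfl

lemma inner_pi_pi {π : G →* (H →L[ℝ] H)} (hπ : ∀ g v, ‖π g v‖ = ‖v‖) (g : G) (v w : H) :
    ⟪π g v, π g w⟫ = ⟪v, w⟫ := by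
  rw [real_inner_eq_norm_add_mul_self_sub_norm_mul_self_sub_norm_mul_self_div_two,
    real_inner_eq_norm_add_mul_self_sub_norm_mul_self_sub_norm_mul_self_div_two, ← map_add, hπ, hπ,
    hπ]

lemma inner_pi_left {π : G →* (H →L[ℝ] H)} (hπ : ∀ g v, ‖π g v‖ = ‖v‖) (g : G) (v w : H) :
    ⟪π g v, w⟫ = ⟪v, π g⁻¹ w⟫ := by
  rw [← inner_pi_pi hπ g v (π g⁻¹ w), pi_apply_inv]

variable [CompleteSpace H]

instance (π : G →* (H →L[ℝ] H)) (N : Subgroup G) : (fixS π N).HasOrthogonalProjection := by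
  have : CompleteSpace (fixS π N) := (isClosed_fixS π N).completeSpace_coe
  infer_instance

/-- The orthogonal projection onto the vectors fixed by `N`. -/
noncomputable def prj (π : G →* (H →L[ℝ] H)) (N : Subgroup G) : H →L[ℝ] H :=
  (fixS π N).starProjection

lemma prj_mem (π : G →* (H →L[ℝ] H)) (N : Subgroup G) (v : H) : prj π N v ∈ fixS π N :=
  (fixS π N).starProjection_apply_mem v

lemma prj_fix (π : G →* (H →L[ℝ] H)) (N : Subgroup G) (v : H) {s : G} (hs : s ∈ N) :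
    π s (prj π N v) = prj π N v := prj_mem π N v s hs

lemma inner_sub_prj (π : G →* (H →L[ℝ] H)) (N : Subgroup G) (v : H) {w : H}
    (hw : w ∈ fixS π N) : ⟪v - prj π N v, w⟫ = 0 :=
  Submodule.starProjection_inner_eq_zero v w hw

lemma norm_prj_le (π : G →* (H →L[ℝ] H)) (N : Subgroup G) (v : H) : ‖prj π N v‖ ≤ ‖v‖ := by
  have h := (prj π N).le_opNorm v
  have h1 : ‖prj π N‖ ≤ 1 := (fixS π N).starProjection_norm_le
  nlinarith [norm_nonneg v]

lemma prj_eq_of {π : G →* (H →L[ℝ] H)} {N : Subgroup G} {v z : H} (hz : z ∈ fixS π N)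
    (ho : ∀ w ∈ fixS π N, ⟪v - z, w⟫ = 0) : prj π N v = z :=
  Submodule.eq_starProjection_of_mem_of_inner_eq_zero hz ho

lemma prj_of_mem {π : G →* (H →L[ℝ] H)} {N : Subgroup G} {z : H} (hz : z ∈ fixS π N) :
    prj π N z = z := prj_eq_of hz (by intro w _; simp)

lemma prj_pi_of_mem {π : G →* (H →L[ℝ] H)} (hπ : ∀ g v, ‖π g v‖ = ‖v‖) {N : Subgroup G} {s : G}
    (hs : s ∈ N) (v : H) : prj π N (π s v) = prj π N v := by
  refine prj_eq_of (prj_mem π N v) fun w hw => ?_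
  have h1 := inner_sub_prj π N v hw
  rw [inner_sub_left] at h1 ⊢
  rw [inner_pi_left hπ, hw _ (N.inv_mem hs)]
  exact h1

omit [CompleteSpace H] in
lemma pi_mem_fixS {π : G →* (H →L[ℝ] H)} {N : Subgroup G} (hN : N.Normal) (g : G) {w : H}
    (hw : w ∈ fixS π N) : π g w ∈ fixS π N := by
  intro s hs
  have h : g⁻¹ * s * g ∈ N := by simpa using hN.conj_mem s hs g⁻¹
  have h2 := hw _ h
  have h3 : s * g = g * (g⁻¹ * s * g) := by group
  rw [← pi_mul, h3, pi_mul, h2]

lemma prj_comm {π : G →* (H →L[ℝ] H)} (hπ : ∀ g v, ‖π g v‖ = ‖v‖) {N : Subgroup G}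
    (hN : N.Normal) (g : G) (v : H) : prj π N (π g v) = π g (prj π N v) := by
  refine prj_eq_of (pi_mem_fixS hN g (prj_mem π N v)) fun w hw => ?_
  rw [← map_sub, inner_pi_left hπ]
  exact inner_sub_prj π N v (pi_mem_fixS hN g⁻¹ hw)

lemma norm_pi_prj_sub {π : G →* (H →L[ℝ] H)} (hπ : ∀ g v, ‖π g v‖ = ‖v‖) {N : Subgroup G}
    (hN : N.Normal) (g : G) (v : H) : ‖π g (prj π N v) - prj π N v‖ ≤ ‖π g v - v‖ := by
  rw [← prj_comm hπ hN, ← map_sub]
  exact norm_prj_le π N _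

/-- Telescoping over finitely many normal subgroups. -/
lemma telescope {π : G →* (H →L[ℝ] H)} (hπ : ∀ g v, ‖π g v‖ = ‖v‖) {ι : Type*}
    (N : ι → Subgroup G) (hN : ∀ i, (N i).Normal) (Q : H → Prop)
    (hQ : ∀ i v, Q v → Q (prj π (N i) v)) (x : H) (B : ℝ) (s : Finset ι)
    (hB : ∀ i ∈ s, ∀ v, Q v → |⟪x, v - prj π (N i) v⟫| ≤ B) (v : H) (hv : Q v) :
    ∃ z : H, Q z ∧ (∀ i ∈ s, z ∈ fixS π (N i)) ∧ (∀ w ∈ fixS π ⊤, ⟪v - z, w⟫ = 0) ∧
      |⟪x, v - z⟫| ≤ s.card * B := by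
  classical
  induction s using Finset.induction_on with
  | empty => exact ⟨v, hv, by simp, by simp, by simp⟩
  | insert j s hj ih =>
    obtain ⟨z, hz, hf, ho, hb⟩ := ih fun i hi => hB i (Finset.mem_insert_of_mem hi)
    refine ⟨prj π (N j) z, hQ j z hz, ?_, ?_, ?_⟩
    · intro i hi
      rcases Finset.mem_insert.1 hi with rfl | hi
      · exact prj_mem π _ z
      · intro g hg
        rw [← prj_comm hπ (hN j), hf i hi g hg]
    · intro w hw
      have h1 : ⟪z - prj π (N j) z, w⟫ = 0 :=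
        inner_sub_prj π _ z fun g _ => hw g (Subgroup.mem_top g)
      have h2 := ho w hw
      rw [inner_sub_left] at h1 h2 ⊢
      linarith
    · rw [Finset.card_insert_of_notMem hj]
      have h1 := hB j (Finset.mem_insert_self j s) z hz
      have h2 : ⟪x, v - prj π (N j) z⟫ = ⟪x, z - prj π (N j) z⟫ + ⟪x, v - z⟫ := by
        simp only [inner_sub_right]; ring
      rw [h2]
      push_cast
      have := (abs_add_le _ _).trans (add_le_add h1 hb)
      linarith

/-- The stabiliser of a vector. -/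
def stabV (π : G →* (H →L[ℝ] H)) (z : H) : Subgroup G where
  carrier := {g | π g z = z}
  mul_mem' := by
    intro a b ha hb
    simp only [Set.mem_ofPred_eq] at ha hb ⊢
    rw [pi_mul, hb, ha]
  one_mem' := by simp
  inv_mem' := by
    intro a ha
    simp only [Set.mem_ofPred_eq] at ha ⊢
    conv_lhs => rw [← ha]
    exact pi_inv_apply π a z

omit [CompleteSpace H] in
lemma mem_stabV {π : G →* (H →L[ℝ] H)} {z : H} {g : G} : g ∈ stabV π z ↔ π g z = z := Iff.rfl

omit [CompleteSpace H] in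
lemma isClosed_stabV [TopologicalSpace G] {π : G →* (H →L[ℝ] H)}
    (hc : ∀ v, Continuous fun g => π g v) (z : H) : IsClosed (stabV π z : Set G) :=
  isClosed_eq (hc z) continuous_const

lemma telescope_top [TopologicalSpace G] {π : G →* (H →L[ℝ] H)} (hπ : ∀ g v, ‖π g v‖ = ‖v‖)
    (hc : ∀ v, Continuous fun g => π g v) {ι : Type*}
    (N : ι → Subgroup G) (hN : ∀ i, (N i).Normal) (s : Finset ι)
    (hgen : ∀ S : Subgroup G, IsClosed (S : Set G) → (∀ i ∈ s, N i ≤ S) → S = ⊤) (Q : H → Prop)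
    (hQ : ∀ i v, Q v → Q (prj π (N i) v)) (x : H) (B : ℝ)
    (hB : ∀ i ∈ s, ∀ v, Q v → |⟪x, v - prj π (N i) v⟫| ≤ B) (v : H) (hv : Q v) :
    |⟪x, v - prj π ⊤ v⟫| ≤ s.card * B := by
  obtain ⟨z, -, hf, ho, hb⟩ := telescope hπ N hN Q hQ x B s hB v hv
  have hz : z ∈ fixS π ⊤ := by
    have hS := hgen (stabV π z) (isClosed_stabV hc z) fun i hi g hg => hf i hi g hg
    intro g hg
    rw [← hS] at hg
    exact hg
  rw [prj_eq_of hz ho]
  exact hb

lemma inner_pi_prj_top {π : G →* (H →L[ℝ] H)} (hπ : ∀ g v, ‖π g v‖ = ‖v‖) (g : G) (v w : H) :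
    ⟪π g v, prj π ⊤ w⟫ = ⟪prj π ⊤ v, prj π ⊤ w⟫ := by
  have h := inner_sub_prj π ⊤ v (prj_mem π ⊤ w)
  rw [inner_sub_left] at h
  rw [inner_pi_left hπ, prj_fix π ⊤ w (Subgroup.mem_top _)]
  linarith

end Pool.Agent.P.MP_d483fb_an.Z.EM


end

section

/-!
Definitions for exponential mixing: the gauge at the identity, Lipschitz vectors, functions and
measures, and the Koopman representation.
-/

open scoped Matrix Matrix.Norms.Operator RealInnerProductSpace Topology
open MeasureTheory Filter Set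

noncomputable section

namespace Pool.Agent.P.MP_d483fb_an.Z.EM

/-- A continuous subadditive gauge at the identity, comparable with the matrix distance. -/
structure Gauge {G : Type} [Group G] [TopologicalSpace G] {n : ℕ} (D : ExpData G n) where
  dd : G → ℝ
  c : ℝ
  c_nonneg : 0 ≤ c
  nonneg : ∀ g, 0 ≤ dd g
  one : dd 1 = 0
  mul : ∀ g h, dd (g * h) ≤ dd g + dd h
  inv : ∀ g, dd g⁻¹ = dd g
  ex_le : ∀ X ∈ D.g, dd (D.ex X) ≤ c * ‖X‖
  conj : ∀ g h, dd (h⁻¹ * g * h) ≤ ‖D.ρ h⁻¹‖ * ‖D.ρ h‖ * dd g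
  cont : Continuous dd
  cpt : IsCompact {g | dd g ≤ 2}
  basis : ∀ W ∈ 𝓝 (1 : G), ∃ r, 0 < r ∧ {g | dd g ≤ r} ⊆ W
  le_rho : ∀ᶠ g in 𝓝 (1 : G), dd g ≤ c * ‖D.ρ g - 1‖

/-- An admissible size function. -/
structure SzOK {G : Type} [Group G] [TopologicalSpace G] {n : ℕ} (D : ExpData G n) (sz : G → ℝ) :
    Prop where
  one_le : ∀ g, 1 ≤ sz g
  mul : ∀ g h, sz (g * h) ≤ sz g * sz h
  inv : ∀ g, sz g⁻¹ = sz g
  bdd : ∀ K : Set G, IsCompact K → ∃ C, ∀ g ∈ K, sz g ≤ C
  rho : ∀ g, ‖D.ρ g‖ ≤ sz g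

section Hilbert

variable {G : Type*} [Group G] {H : Type*} [NormedAddCommGroup H] [InnerProductSpace ℝ H]

/-- A bounded vector that is Lipschitz for the gauge `dd`. -/
def GLip (dd : G → ℝ) (π : G →* (H →L[ℝ] H)) (M : ℝ) (v : H) : Prop :=
  ‖v‖ ≤ M ∧ ∀ g, ‖π g v - v‖ ≤ M * dd g

/-- Exponential decay of the matrix coefficients of Lipschitz vectors. -/
def MixH [CompleteSpace H] (dd : G → ℝ) (Far : G → ℝ → Prop) (π : G →* (H →L[ℝ] H)) : Prop :=
  ∃ κ : ℝ, 0 < κ ∧ ∃ C : ℝ, 0 ≤ C ∧ ∀ g t, Far g t → ∀ (M M' : ℝ) (x v : H),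
    GLip dd π M x → GLip dd π M' v →
      |⟪π g x, v⟫ - ⟪prj π ⊤ x, prj π ⊤ v⟫| ≤ C * M * M' * Real.exp (-(κ * t))

end Hilbert

section Meas

variable {G : Type*} [Group G] {X : Type*} [MulAction G X] [MeasurableSpace X]

/-- A bounded measurable function that is Lipschitz along the action. -/
def FLip (dd : G → ℝ) (M : ℝ) (f : X → ℝ) : Prop :=
  Measurable f ∧ (∀ x, |f x| ≤ M) ∧ ∀ (g : G) x, |f (g⁻¹ • x) - f x| ≤ M * dd g

/-- Exponential mixing for Lipschitz functions. -/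
def Mix (dd : G → ℝ) (Far : G → ℝ → Prop) (μ : Measure X) : Prop :=
  ∃ κ : ℝ, 0 < κ ∧ ∃ C : ℝ, 0 ≤ C ∧ ∀ g t, Far g t → ∀ (M M' : ℝ) (f h : X → ℝ),
    FLip dd M f → FLip dd M' h →
      |∫ x, f (g⁻¹ • x) * h x ∂μ - (∫ x, f x ∂μ) * ∫ x, h x ∂μ| ≤
        C * M * M' * Real.exp (-(κ * t))

/-- A measure on the group that is Lipschitz in total variation under left translations. -/
def LipM [MeasurableSpace G] (dd : G → ℝ) (M : ℝ) (ν : Measure G) : Prop :=
  ∀ (g : G) (f : G → ℝ), Measurable f → (∀ u, |f u| ≤ 1) →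
    |∫ u, f (g * u) ∂ν - ∫ u, f u ∂ν| ≤ M * dd g

/-- The Koopman representation on `L²`. -/
def koop (G : Type*) [Group G] [MulAction G X] (μ : Measure X) [MeasurableConstSMul G X]
    [SMulInvariantMeasure G X μ] : G →* (Lp ℝ 2 μ →L[ℝ] Lp ℝ 2 μ) where
  toFun g := (Lp.compMeasurePreservingₗᵢ ℝ (fun x => g⁻¹ • x)
    (measurePreserving_smul g⁻¹ μ)).toContinuousLinearMap
  map_one' := by
    ext f
    refine (Lp.coeFn_compMeasurePreserving f (measurePreserving_smul (1 : G)⁻¹ μ)).trans ?_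
    refine Eventually.of_forall fun x => ?_
    simp
  map_mul' g h := by
    ext f
    refine (Lp.coeFn_compMeasurePreserving f (measurePreserving_smul (g * h)⁻¹ μ)).trans ?_
    have h1 := Lp.coeFn_compMeasurePreserving
      (Lp.compMeasurePreserving (fun x => h⁻¹ • x) (measurePreserving_smul h⁻¹ μ) f)
      (measurePreserving_smul g⁻¹ μ)
    have h2 := (measurePreserving_smul g⁻¹ μ).quasiMeasurePreserving.ae_eq_comp
      (Lp.coeFn_compMeasurePreserving f (measurePreserving_smul h⁻¹ μ))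
    refine EventuallyEq.symm ((h1.trans h2).trans (Eventually.of_forall fun x => ?_))
    simp [mul_smul]

theorem koop_ae (μ : Measure X) [MeasurableConstSMul G X] [SMulInvariantMeasure G X μ] (g : G)
    (f : Lp ℝ 2 μ) : koop G μ g f =ᵐ[μ] fun x => f (g⁻¹ • x) :=
  Lp.coeFn_compMeasurePreserving f (measurePreserving_smul g⁻¹ μ)

theorem koop_norm (μ : Measure X) [MeasurableConstSMul G X] [SMulInvariantMeasure G X μ] (g : G)
    (f : Lp ℝ 2 μ) : ‖koop G μ g f‖ = ‖f‖ :=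
  Lp.norm_compMeasurePreserving f (measurePreserving_smul g⁻¹ μ)

end Meas

end Pool.Agent.P.MP_d483fb_an.Z.EM

end

end

section

/-!
Smoothing of bounded functions by a probability measure on the group, and the comparison of the
Haar measure with the invariant measure of a homogeneous space.
-/

open scoped Matrix Matrix.Norms.Operator RealInnerProductSpace Topology Pointwise ENNReal
open MeasureTheory Filter Set

noncomputable section

set_option linter.unusedSectionVars false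

namespace Pool.Agent.P.MP_d483fb_an.Z.EM

variable {G : Type} [Group G] [TopologicalSpace G] [IsTopologicalGroup G] [T2Space G]
  [LocallyCompactSpace G] [SecondCountableTopology G] [MeasurableSpace G] [BorelSpace G]
  {X : Type} [TopologicalSpace X] [T2Space X] [SecondCountableTopology X] [MeasurableSpace X]
  [BorelSpace X] [MulAction G X] [ContinuousSMul G X]
  {μ : Measure X} [IsProbabilityMeasure μ] [SMulInvariantMeasure G X μ]

/-- The average of the translates of `f`. -/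
def sm (ν : Measure G) (f : X → ℝ) (x : X) : ℝ := ∫ u, f (u⁻¹ • x) ∂ν

theorem Smooth_meas {f : X → ℝ} (hf : Measurable f) :
    Measurable fun p : X × G => f (p.2⁻¹ • p.1) :=
  hf.comp (by fun_prop : Continuous fun p : X × G => p.2⁻¹ • p.1).measurable

theorem Smooth_bd (ν : Measure G) [IsProbabilityMeasure ν] {F : G → ℝ} (h : ∀ u, |F u| ≤ 1) :
    |∫ u, F u ∂ν| ≤ 1 := by
  have := norm_integral_le_of_norm_le_const (μ := ν) (f := F) (C := 1)
    (Eventually.of_forall h)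
  simpa using this

theorem Smooth_int (ν : Measure G) [IsProbabilityMeasure ν] {F : X × G → ℝ} (hF : Measurable F)
    (h : ∀ p, |F p| ≤ 1) : Integrable F (μ.prod ν) :=
  Integrable.of_bound hF.aestronglyMeasurable 1 (Eventually.of_forall h)

theorem fLip_sm {dd : G → ℝ} {M : ℝ} {ν : Measure G} [IsProbabilityMeasure ν] (h0 : ∀ g, 0 ≤ dd g)
    (hM : 0 ≤ M) (hν : LipM dd M ν) {f : X → ℝ} (hf : Measurable f) (h1 : ∀ x, |f x| ≤ 1) :
    FLip dd (M + 1) (sm ν f) := by
  refine ⟨(Smooth_meas (G := G) hf).stronglyMeasurable.integral_prod_right'.measurable,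
    fun x => (Smooth_bd ν fun u => h1 _).trans (by linarith), fun g x => ?_⟩
  have h2 := hν g (fun u => f (u⁻¹ • x))
    (hf.comp (by fun_prop : Continuous fun u : G => u⁻¹ • x).measurable) fun u => h1 _
  simp only [mul_inv_rev, mul_smul] at h2
  exact h2.trans (mul_le_mul_of_nonneg_right (by linarith) (h0 g))

theorem integral_sm (ν : Measure G) [IsProbabilityMeasure ν] {f : X → ℝ} (hf : Measurable f)
    (h1 : ∀ x, |f x| ≤ 1) : ∫ x, sm ν f x ∂μ = ∫ x, f x ∂μ := by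
  unfold sm
  rw [integral_integral_swap (f := fun x (u : G) => f (u⁻¹ • x))
    (Smooth_int (μ := μ) ν (Smooth_meas hf) fun p => h1 _)]
  simp only [integral_smul_eq_self]
  simp

theorem integral_mul_sm (ν : Measure G) [IsProbabilityMeasure ν] {f h : X → ℝ} (hf : Measurable f)
    (h1 : ∀ x, |f x| ≤ 1) (hh : Measurable h) (h2 : ∀ x, |h x| ≤ 1) :
    ∫ y, h y * sm ν f y ∂μ = ∫ x, (∫ u, h (u • x) ∂ν) * f x ∂μ := by
  have b : ∀ a c : ℝ, |a| ≤ 1 → |c| ≤ 1 → |a * c| ≤ 1 := fun a c ha hc => by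
    rw [abs_mul]
    exact mul_le_one₀ ha (abs_nonneg _) hc
  have i1 := Smooth_int (μ := μ) ν (F := fun p => h p.1 * f (p.2⁻¹ • p.1))
    ((hh.comp measurable_fst).mul (Smooth_meas hf)) fun p => b _ _ (h2 _) (h1 _)
  have i2 := Smooth_int (μ := μ) ν (F := fun p => h (p.2 • p.1) * f p.1)
    ((hh.comp (by fun_prop : Continuous fun p : X × G => p.2 • p.1).measurable).mul
      (hf.comp measurable_fst)) fun p => b _ _ (h2 _) (h1 _)
  unfold sm
  simp only [← integral_const_mul, ← integral_mul_const]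
  rw [integral_integral_swap (f := fun x (u : G) => h x * f (u⁻¹ • x)) i1,
    integral_integral_swap (f := fun x (u : G) => h (u • x) * f x) i2]
  refine integral_congr_ae (Eventually.of_forall fun u => ?_)
  have := integral_smul_eq_self (μ := μ) (fun x => h x * f (u⁻¹ • x)) (g := u)
  simp only [inv_smul_smul] at this
  exact this.symm

theorem haar_orbit_le {l : Len G} (B : Base l X) {Q : Set G} (hQ : IsCompact Q) :
    ∃ A : ℝ≥0∞, A ≠ ∞ ∧ ∀ U : Set X, MeasurableSet U →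
      Measure.haar {u | u ∈ Q ∧ u⁻¹ • B.o ∈ U} ≤ A * μ U := by
  obtain ⟨V, hV⟩ : ∃ V : Set G, V = {g | l.len g ≤ 1} := ⟨_, rfl⟩
  have hc : IsCompact V := hV ▸ l.cpt 1
  have hn : V ∈ 𝓝 (1 : G) := hV ▸ l.nhds
  obtain ⟨O, hO⟩ : ∃ O : Set X, O = (fun g : G => g • B.o) '' interior V := ⟨_, rfl⟩
  have ho : IsOpen O := hO ▸ B.opn _ isOpen_interior
  have hpos : μ O ≠ 0 := by
    intro h0
    obtain ⟨T, hT, e⟩ := TopologicalSpace.isOpen_iUnion_countable (fun g : G => g • O)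
      fun g => ho.smul g
    have e2 : ⋃ g : G, g • O = univ := by
      refine eq_univ_of_forall fun x => ?_
      obtain ⟨g, rfl⟩ := B.trans x
      refine mem_iUnion.mpr ⟨g, smul_mem_smul_set ?_⟩
      exact hO ▸ ⟨1, mem_interior_iff_mem_nhds.mpr hn, one_smul _ _⟩
    have e3 : μ (⋃ g ∈ T, g • O) = 0 :=
      (measure_biUnion_null_iff hT).mpr fun g _ => by rw [measure_smul, h0]
    rw [e, e2, measure_univ] at e3
    exact one_ne_zero e3
  have hW : IsCompact (V * Q) := hc.mul hQ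
  refine ⟨Measure.haar (V * Q) / μ O, ENNReal.div_ne_top hW.measure_lt_top.ne hpos,
    fun U hU => ?_⟩
  have hS : MeasurableSet {p : X × G | p.2 ∈ V * Q ∧ p.2⁻¹ • p.1 ∈ U} :=
    (measurable_snd hW.measurableSet).inter
      ((by fun_prop : Continuous fun p : X × G => p.2⁻¹ • p.1).measurable hU)
  have e1 : μ.prod Measure.haar {p : X × G | p.2 ∈ V * Q ∧ p.2⁻¹ • p.1 ∈ U} =
      Measure.haar (V * Q) * μ U := by
    rw [Measure.prod_apply_symm hS, mul_comm, ← setLIntegral_const,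
      ← lintegral_indicator hW.measurableSet]
    refine lintegral_congr fun u => ?_
    by_cases hu : u ∈ V * Q
    · rw [indicator_of_mem hu, ← measure_preimage_smul μ u⁻¹ U]
      congr 1
      ext x
      simp [hu]
    · rw [indicator_of_notMem hu]
      simp [hu]
  have e2 : Measure.haar {u | u ∈ Q ∧ u⁻¹ • B.o ∈ U} * μ O ≤ Measure.haar (V * Q) * μ U := by
    rw [← e1, Measure.prod_apply hS, ← setLIntegral_const]
    refine (setLIntegral_mono' ho.measurableSet fun x hx => ?_).trans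
      (setLIntegral_le_lintegral _ _)
    rw [hO] at hx
    obtain ⟨q, hq, rfl⟩ := hx
    rw [← measure_smul Measure.haar q]
    refine measure_mono ?_
    rintro _ ⟨u, ⟨h1, h2⟩, rfl⟩
    refine ⟨mul_mem_mul (interior_subset hq) h1, ?_⟩
    simpa [mul_smul] using h2
  rw [ENNReal.div_eq_inv_mul, mul_assoc, ← ENNReal.div_eq_inv_mul,
    ENNReal.le_div_iff_mul_le (Or.inl hpos) (Or.inl (measure_ne_top _ _))]
  exact e2

end Pool.Agent.P.MP_d483fb_an.Z.EM

end

end

section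

/-!
Volumes of small balls of the gauge and Lipschitz probability measures carried by them.
-/

open scoped Matrix Matrix.Norms.Operator RealInnerProductSpace Topology Pointwise ENNReal
open MeasureTheory Filter Set

noncomputable section

namespace Pool.Agent.P.MP_d483fb_an.Z.EM

theorem vol_entry_le {n : ℕ} (A : Mat n) (i j : Fin n) : |A i j| ≤ ‖A‖ := by
  rw [Matrix.linfty_opNorm_def]
  have h1 : ‖A i j‖₊ ≤ ∑ j, ‖A i j‖₊ :=
    Finset.single_le_sum (f := fun j => ‖A i j‖₊) (fun _ _ => bot_le) (Finset.mem_univ j)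
  have h2 : (∑ j, ‖A i j‖₊) ≤ Finset.univ.sup fun i => ∑ j, ‖A i j‖₊ :=
    Finset.le_sup (f := fun i => ∑ j, ‖A i j‖₊) (Finset.mem_univ i)
  exact_mod_cast h1.trans h2

theorem vol_norm_le {n : ℕ} (A : Mat n) {ε : ℝ} (hε : 0 ≤ ε) (h : ∀ i j, |A i j| ≤ ε) :
    ‖A‖ ≤ n * ε := by
  rw [Matrix.linfty_opNorm_def]
  lift ε to NNReal using hε
  have : (Finset.univ.sup fun i => ∑ j, ‖A i j‖₊) ≤ (n : NNReal) * ε := by
    refine Finset.sup_le fun i _ => ?_
    calc ∑ j, ‖A i j‖₊ ≤ ∑ _j : Fin n, ε := Finset.sum_le_sum fun j _ => h i j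
      _ = _ := by simp
  exact_mod_cast this

variable {G : Type} [Group G] [TopologicalSpace G] [IsTopologicalGroup G] [T2Space G]
  [LocallyCompactSpace G] [SecondCountableTopology G] [MeasurableSpace G] [BorelSpace G]
  {n : ℕ} {D : ExpData G n}

omit [T2Space G] [LocallyCompactSpace G] [SecondCountableTopology G] [MeasurableSpace G]
  [BorelSpace G] in
theorem Gauge.vol_nhds (Γ : Gauge D) : ∃ V ∈ 𝓝 (1 : G), ∃ R : ℝ, 0 ≤ R ∧
    (∀ g ∈ V, ‖D.ρ g‖ ≤ R) ∧ ∀ g ∈ V, ∀ h ∈ V, Γ.dd (g⁻¹ * h) ≤ Γ.c * R * ‖D.ρ h - D.ρ g‖ := by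
  have hc : Tendsto (fun p : G × G => p.1⁻¹ * p.2) (𝓝 (1, 1)) (𝓝 1) := by
    have : Continuous fun p : G × G => p.1⁻¹ * p.2 := by fun_prop
    simpa using this.tendsto (1, 1)
  have h1 := hc.eventually Γ.le_rho
  rw [nhds_prod_eq] at h1
  obtain ⟨p, hp, q, hq, hpq⟩ := eventually_prod_iff.1 h1
  have hρ := D.cont
  have h2 : ∀ᶠ g in 𝓝 (1 : G), ‖D.ρ g‖ < ‖D.ρ 1‖ + 1 :=
    (hρ.norm.tendsto 1).eventually (gt_mem_nhds (lt_add_one _))
  have h3 : ∀ᶠ g in 𝓝 (1 : G), ‖D.ρ g⁻¹‖ < ‖D.ρ 1‖ + 1 := by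
    have : Continuous fun g : G => ‖D.ρ g⁻¹‖ := (hρ.comp continuous_inv).norm
    exact (this.tendsto 1).eventually (gt_mem_nhds (by simp))
  refine ⟨_, (hp.and (hq.and (h2.and h3))), ‖D.ρ 1‖ + 1, by positivity, fun g hg => hg.2.2.1.le,
    fun g hg h hh => ?_⟩
  refine (hpq hg.1 hh.2.1).trans ?_
  have e : D.ρ (g⁻¹ * h) - 1 = D.ρ g⁻¹ * (D.ρ h - D.ρ g) := by
    rw [mul_sub, ← map_mul, ← map_mul, inv_mul_cancel, map_one]
  rw [e, mul_assoc]
  exact mul_le_mul_of_nonneg_left ((norm_mul_le _ _).trans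
    (mul_le_mul_of_nonneg_right hg.2.2.2.le (norm_nonneg _))) Γ.c_nonneg

omit [T2Space G] [SecondCountableTopology G] in
theorem Gauge.vol (Γ : Gauge D) : ∃ c : ℝ, 0 < c ∧ ∃ L : ℕ, ∀ r : ℝ, 0 < r → r ≤ 1 →
    ENNReal.ofReal (c * r ^ L) ≤ Measure.haar {g | Γ.dd g < r} := by
  obtain ⟨V, hV, R, hR, hb, hd⟩ := Γ.vol_nhds
  have hc := Γ.c_nonneg
  have hVp : 0 < min 1 (Measure.haar V) :=
    lt_min one_pos (Measure.measure_pos_of_mem_nhds _ hV)
  have hVt : min 1 (Measure.haar V) ≠ ∞ := ne_top_of_le_ne_top ENNReal.one_ne_top (min_le_left _ _)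
  set m := (min 1 (Measure.haar V)).toReal with hm
  have hm0 : 0 < m := ENNReal.toReal_pos hVp.ne' hVt
  have hmV : ENNReal.ofReal m ≤ Measure.haar V := by
    rw [hm, ENNReal.ofReal_toReal hVt]
    exact min_le_right _ _
  set Q : ℝ := Γ.c * R * n + 1 with hQ
  have hQ0 : 0 < Q := by positivity
  set K : ℝ := 2 * (R * Q) + 5 with hK
  have hK0 : 0 < K := by positivity
  refine ⟨m / K ^ (n * n), by positivity, n * n, fun r hr hr1 => ?_⟩
  set ε : ℝ := r / Q with hε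
  have hε0 : 0 < ε := by positivity
  set M : ℕ := ⌈R * Q / r⌉₊ + 1 with hM
  set S : Finset (Fin n × Fin n → ℤ) :=
    Fintype.piFinset fun _ => Finset.Icc (-(M : ℤ)) M with hS
  set cell : (Fin n × Fin n → ℤ) → Set G :=
    fun k => {g | g ∈ V ∧ ∀ p : Fin n × Fin n, ⌊D.ρ g p.1 p.2 / ε⌋ = k p} with hcell
  have hcov : V ⊆ ⋃ k ∈ S, cell k := by
    intro g hg
    simp only [mem_iUnion]
    refine ⟨fun p => ⌊D.ρ g p.1 p.2 / ε⌋, ?_, hg, fun _ => rfl⟩
    rw [hS, Fintype.mem_piFinset]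
    intro p
    have h1 : |D.ρ g p.1 p.2 / ε| ≤ R * Q / r := by
      rw [abs_div, abs_of_pos hε0, div_le_iff₀ hε0, hε]
      have : R * Q / r * (r / Q) = R := by field_simp
      rw [this]
      exact (vol_entry_le _ _ _).trans (hb g hg)
    have h2 : R * Q / r + 1 ≤ M := by
      rw [hM]
      push_cast
      linarith [Nat.le_ceil (R * Q / r)]
    rw [abs_le] at h1
    rw [Finset.mem_Icc]
    constructor
    · rw [Int.le_floor]
      push_cast
      linarith [h1.1]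
    · have := Int.floor_le (D.ρ g p.1 p.2 / ε)
      have h3 : ((⌊D.ρ g p.1 p.2 / ε⌋ : ℤ) : ℝ) ≤ ((M : ℤ) : ℝ) := by
        push_cast
        linarith [h1.2]
      exact_mod_cast h3
  have hcl : ∀ k, Measure.haar (cell k) ≤ Measure.haar {g | Γ.dd g < r} := by
    intro k
    rcases (cell k).eq_empty_or_nonempty with h | ⟨g, hg⟩
    · simp [h]
    rw [← measure_preimage_mul Measure.haar g⁻¹ {g | Γ.dd g < r}]
    refine measure_mono fun h hh => ?_
    have h1 : ‖D.ρ h - D.ρ g‖ ≤ n * ε := by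
      refine vol_norm_le _ hε0.le fun i j => ?_
      have h2 := Int.abs_sub_lt_one_of_floor_eq_floor ((hh.2 (i, j)).trans (hg.2 (i, j)).symm)
      rw [← sub_div, abs_div, abs_of_pos hε0, div_lt_one hε0] at h2
      exact h2.le
    have h2 := hd g hg.1 h hh.1
    have h3 : Γ.c * R * ‖D.ρ h - D.ρ g‖ ≤ Γ.c * R * (n * ε) :=
      mul_le_mul_of_nonneg_left h1 (by positivity)
    have h4 : Γ.c * R * (n * ε) + ε = r := by
      rw [hε, hQ]
      field_simp
    show Γ.dd (g⁻¹ * h) < r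
    linarith
  have hcard : (S.card : ℝ) ≤ (K / r) ^ (n * n) := by
    have e : S.card = (2 * M + 1) ^ (n * n) := by
      rw [hS, Fintype.card_piFinset]
      simp only [Int.card_Icc, Finset.prod_const, Finset.card_univ, Fintype.card_prod,
        Fintype.card_fin]
      congr 1
      omega
    rw [e]
    push_cast
    refine pow_le_pow_left₀ (by positivity) ?_ _
    have h1 : (M : ℝ) ≤ R * Q / r + 2 := by
      rw [hM]
      push_cast
      linarith [Nat.ceil_lt_add_one (show 0 ≤ R * Q / r by positivity)]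
    have h2 : (5 : ℝ) ≤ 5 / r := by
      rw [le_div_iff₀ hr]
      linarith
    have h3 : K / r = 2 * (R * Q / r) + 5 / r := by
      rw [hK]
      ring
    linarith
  have hsum : ENNReal.ofReal m ≤
      ENNReal.ofReal ((K / r) ^ (n * n)) * Measure.haar {g | Γ.dd g < r} := by
    refine hmV.trans ((measure_mono hcov).trans ((measure_biUnion_finset_le _ _).trans ?_))
    refine (Finset.sum_le_sum fun k _ => hcl k).trans ?_
    rw [Finset.sum_const, nsmul_eq_mul]
    refine mul_le_mul_left ?_ _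
    rw [← ENNReal.ofReal_natCast]
    exact ENNReal.ofReal_le_ofReal hcard
  have e : m / K ^ (n * n) * r ^ (n * n) = (r / K) ^ (n * n) * m := by
    rw [div_pow]
    ring
  rw [e, ENNReal.ofReal_mul (by positivity)]
  refine (mul_le_mul_right hsum _).trans ?_
  rw [← mul_assoc, ← ENNReal.ofReal_mul (by positivity), ← mul_pow]
  have : r / K * (K / r) = 1 := by field_simp
  simp [this]

omit [T2Space G] [SecondCountableTopology G] in
theorem Gauge.exists_lipM (Γ : Gauge D) : ∃ (A : ℝ) (L : ℕ), 0 ≤ A ∧ ∀ r : ℝ, 0 < r → r ≤ 1 →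
    ∃ ν : Measure G, IsProbabilityMeasure ν ∧ (∀ᵐ u ∂ν, Γ.dd u ≤ r) ∧ LipM Γ.dd (A / r ^ L) ν ∧
      ν ≤ ENNReal.ofReal (A / r ^ L) • (Measure.haar : Measure G).restrict {g | Γ.dd g ≤ 1} := by
  obtain ⟨c, hc, L, hL⟩ := Γ.vol
  have hcont := Γ.cont
  set B : Set G := {g | Γ.dd g ≤ 1} with hB
  have hBm : MeasurableSet B := (isClosed_le hcont continuous_const).measurableSet
  have hBf : Measure.haar B ≠ ∞ :=
    ne_top_of_le_ne_top Γ.cpt.measure_lt_top.ne
      (measure_mono fun g (hg : Γ.dd g ≤ 1) => show Γ.dd g ≤ 2 by linarith)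
  set b : G → ℝ := B.indicator fun _ => 1 with hb
  have hbi : Integrable b Measure.haar :=
    (integrable_indicator_iff hBm).2 (integrableOn_const hBf)
  have hb0 : ∀ u, 0 ≤ b u := fun u => indicator_nonneg (fun _ _ => zero_le_one) u
  have hb1 : ∀ u, Γ.dd u ≤ 1 → b u = 1 := fun u hu => indicator_of_mem (s := B) hu _
  set V : ℝ := ∫ u, b u ∂Measure.haar with hV
  have hV0 : 0 ≤ V := integral_nonneg hb0
  refine ⟨(2 * V + 1) * 2 ^ (L + 1) / c, L + 1, by positivity, fun r hr hr1 => ?_⟩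
  set ψ : G → ℝ := fun u => max 0 (r - Γ.dd u) with hψ
  have hψc : Continuous ψ := continuous_const.max (continuous_const.sub hcont)
  have hψ0 : ∀ u, 0 ≤ ψ u := fun u => le_max_left _ _
  have hψz : ∀ u, ¬ Γ.dd u ≤ r → ψ u = 0 := fun u hu => max_eq_left (by linarith [not_le.1 hu])
  have hψb : ∀ u, ψ u ≤ b u := by
    intro u
    by_cases hu : Γ.dd u ≤ r
    · rw [hb1 u (hu.trans hr1)]
      exact max_le zero_le_one (by linarith [Γ.nonneg u])
    · rw [hψz u hu]
      exact hb0 u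
  have hψi : Integrable ψ Measure.haar :=
    hbi.mono' hψc.aestronglyMeasurable (Eventually.of_forall fun u => by
      rw [Real.norm_of_nonneg (hψ0 u)]
      exact hψb u)
  set I : ℝ := ∫ u, ψ u ∂Measure.haar with hI
  have hIl : c * (r / 2) ^ (L + 1) ≤ I := by
    have hm : MeasurableSet {g | Γ.dd g < r / 2} :=
      (isOpen_lt hcont continuous_const).measurableSet
    have h1 : ENNReal.ofReal (r / 2) * Measure.haar {g | Γ.dd g < r / 2} ≤ ENNReal.ofReal I := by
      rw [hI, ofReal_integral_eq_lintegral_ofReal hψi (Eventually.of_forall hψ0),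
        ← setLIntegral_const]
      refine le_trans (setLIntegral_mono' hm fun u (hu : Γ.dd u < r / 2) => ?_)
        (setLIntegral_le_lintegral _ _)
      exact ENNReal.ofReal_le_ofReal (le_max_of_le_right (by linarith))
    have h2 := (mul_le_mul_right (hL (r / 2) (by positivity) (by linarith)) _).trans h1
    rw [← ENNReal.ofReal_mul (by positivity),
      ENNReal.ofReal_le_ofReal_iff (integral_nonneg hψ0)] at h2
    calc c * (r / 2) ^ (L + 1) = r / 2 * (c * (r / 2) ^ L) := by ring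
      _ ≤ I := h2
  have hI0 : 0 < I := lt_of_lt_of_le (by positivity) hIl
  set A : ℝ := (2 * V + 1) * 2 ^ (L + 1) / c / r ^ (L + 1) with hA
  have hAI : (2 * V + 1) / I ≤ A := by
    have e : A = (2 * V + 1) / (c * (r / 2) ^ (L + 1)) := by
      rw [hA, div_pow]
      field_simp
    rw [e]
    exact div_le_div_of_nonneg_left (by positivity) (by positivity) hIl
  have hφm : Measurable fun u => ENNReal.ofReal (ψ u / I) :=
    (hψc.measurable.div_const I).ennreal_ofReal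
  have hint : ∀ f : G → ℝ, ∫ u, f u ∂(Measure.haar.withDensity fun u => ENNReal.ofReal (ψ u / I)) =
      ∫ u, ψ u / I * f u ∂Measure.haar := by
    intro f
    rw [integral_withDensity_eq_integral_toReal_smul hφm
      (Eventually.of_forall fun _ => ENNReal.ofReal_lt_top)]
    refine integral_congr_ae (Eventually.of_forall fun u => ?_)
    simp only [smul_eq_mul]
    rw [ENNReal.toReal_ofReal (div_nonneg (hψ0 u) hI0.le)]
  refine ⟨Measure.haar.withDensity fun u => ENNReal.ofReal (ψ u / I), ⟨?_⟩, ?_, ?_, ?_⟩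
  · rw [withDensity_apply _ MeasurableSet.univ, Measure.restrict_univ,
      ← ofReal_integral_eq_lintegral_ofReal (hψi.div_const I)
        (Eventually.of_forall fun u => div_nonneg (hψ0 u) hI0.le), integral_div, ← hI,
      div_self hI0.ne', ENNReal.ofReal_one]
  · rw [ae_withDensity_iff hφm]
    refine Eventually.of_forall fun u hu => ?_
    by_contra h
    simp [hψz u h] at hu
  · intro g f hf hf1
    rw [hint, hint]
    have e1 : ∫ u, ψ u / I * f (g * u) ∂Measure.haar =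
        ∫ u, ψ (g⁻¹ * u) / I * f u ∂Measure.haar := by
      rw [← integral_mul_left_eq_self (fun u => ψ (g⁻¹ * u) / I * f u) g]
      simp
    have hm : ∀ φ : G → ℝ, Integrable φ Measure.haar →
        Integrable (fun u => φ u / I * f u) Measure.haar := fun φ hφ =>
      (hφ.div_const I).mul_bdd hf.aestronglyMeasurable (Eventually.of_forall hf1)
    rw [e1, ← integral_sub (hm _ (hψi.comp_mul_left g⁻¹)) (hm _ hψi)]
    have hg0 := Γ.nonneg g
    have hle : ∀ u, ‖ψ (g⁻¹ * u) / I * f u - ψ u / I * f u‖ ≤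
        Γ.dd g / I * (b (g⁻¹ * u) + b u) := by
      intro u
      have h1 : |ψ (g⁻¹ * u) - ψ u| ≤ Γ.dd g := by
        have a1 := Γ.mul g⁻¹ u
        have a2 := Γ.mul g (g⁻¹ * u)
        rw [Γ.inv] at a1
        rw [mul_inv_cancel_left] at a2
        refine le_trans ?_ (abs_le.2 ⟨by linarith, by linarith⟩ :
          |(r - Γ.dd (g⁻¹ * u)) - (r - Γ.dd u)| ≤ Γ.dd g)
        simp only [hψ]
        rw [max_comm 0, max_comm 0]
        exact abs_max_sub_max_le_abs _ _ _
      have h2 : |ψ (g⁻¹ * u) - ψ u| ≤ Γ.dd g * (b (g⁻¹ * u) + b u) := by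
        by_cases h3 : Γ.dd u ≤ r
        · rw [hb1 u (h3.trans hr1)]
          nlinarith [hb0 (g⁻¹ * u)]
        by_cases h4 : Γ.dd (g⁻¹ * u) ≤ r
        · rw [hb1 _ (h4.trans hr1)]
          nlinarith [hb0 u]
        rw [hψz _ h3, hψz _ h4, sub_zero, abs_zero]
        exact mul_nonneg hg0 (add_nonneg (hb0 _) (hb0 _))
      rw [← sub_mul, ← sub_div, Real.norm_eq_abs, abs_mul, abs_div, abs_of_pos hI0,
        div_mul_eq_mul_div (Γ.dd g)]
      exact (mul_le_of_le_one_right (by positivity) (hf1 u)).trans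
        (div_le_div_of_nonneg_right h2 hI0.le)
    refine (norm_integral_le_of_norm_le (((hbi.comp_mul_left g⁻¹).add hbi).const_mul (Γ.dd g / I))
      (Eventually.of_forall hle)).trans ?_
    simp only [Pi.add_apply]
    rw [integral_const_mul, integral_add (hbi.comp_mul_left g⁻¹) hbi,
      integral_mul_left_eq_self b g⁻¹, ← hV]
    calc Γ.dd g / I * (V + V) ≤ (2 * V + 1) / I * Γ.dd g := by
          rw [div_mul_eq_mul_div, div_mul_eq_mul_div]
          exact div_le_div_of_nonneg_right (by nlinarith) hI0.le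
      _ ≤ A * Γ.dd g := mul_le_mul_of_nonneg_right hAI hg0
  · rw [← withDensity_const, ← withDensity_indicator hBm]
    refine withDensity_mono (Eventually.of_forall fun u => ?_)
    by_cases hu : Γ.dd u ≤ 1
    · rw [indicator_of_mem (s := B) hu]
      refine ENNReal.ofReal_le_ofReal (le_trans ?_ hAI)
      refine div_le_div_of_nonneg_right ?_ hI0.le
      linarith [hψb u, hb1 u hu]
    · simp [hψz u fun h => hu (h.trans hr1)]

end Pool.Agent.P.MP_d483fb_an.Z.EM

end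

end

section

/-!
Effective equidistribution from exponential mixing.
-/

open scoped Matrix Matrix.Norms.Operator RealInnerProductSpace Topology Pointwise ENNReal
open MeasureTheory Filter Set

noncomputable section

namespace Pool.Agent.P.MP_d483fb_an.Z.EM

theorem Equi0_rho {G : Type} [Group G] [TopologicalSpace G] {n : ℕ} (D : ExpData G n)
    (l : Len G) : ∃ B : ℝ, 1 ≤ B ∧ ∀ (m : ℕ) (g : G), l.len g ≤ m → ‖D.ρ g‖ ≤ B ^ (m + 1) := by
  obtain ⟨B, hB⟩ := (l.cpt 1).exists_bound_of_continuousOn (f := fun g => D.ρ g)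
    D.cont.continuousOn
  have h1 : ∀ g, l.len g ≤ 1 → ‖D.ρ g‖ ≤ max B 1 := fun g hg => (hB g hg).trans (le_max_left _ _)
  refine ⟨max B 1, le_max_right _ _, fun m => ?_⟩
  induction m with
  | zero => exact fun g hg => by simpa using h1 g (by omega)
  | succ m ih =>
    intro g hg
    obtain ⟨u, g', hu, hg', rfl⟩ := l.step g m hg
    rw [map_mul, pow_succ']
    exact (norm_mul_le _ _).trans (mul_le_mul (h1 u hu) (ih g' hg') (norm_nonneg _)
      (zero_le_one.trans (le_max_right _ _)))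

theorem Equi0_int {Y : Type} [MeasurableSpace Y] (ν : Measure Y) [IsFiniteMeasure ν] {f : Y → ℝ}
    (hf : Measurable f) {c : ℝ} (h : ∀ y, |f y| ≤ c) : Integrable f ν :=
  Integrable.of_bound hf.aestronglyMeasurable c (Eventually.of_forall h)

theorem Equi0_abs {Y : Type} [MeasurableSpace Y] (ν : Measure Y) [IsProbabilityMeasure ν]
    {f : Y → ℝ} (h : ∀ y, |f y| ≤ 1) : |∫ y, f y ∂ν| ≤ 1 := by
  simpa using norm_integral_le_of_norm_le_const (μ := ν) (f := f) (C := 1) (Eventually.of_forall h)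

variable {G : Type} [Group G] [TopologicalSpace G] [IsTopologicalGroup G] [T2Space G]
  [LocallyCompactSpace G] [SecondCountableTopology G] [MeasurableSpace G] [BorelSpace G]
  {X : Type} [TopologicalSpace X] [T2Space X] [SecondCountableTopology X] [MeasurableSpace X]
  [BorelSpace X] [MulAction G X] [ContinuousSMul G X]
  {μ : Measure X} [IsProbabilityMeasure μ] [SMulInvariantMeasure G X μ]

omit [T2Space G] [LocallyCompactSpace G] [SecondCountableTopology G] [MeasurableSpace G]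
  [BorelSpace G] [T2Space X] [SecondCountableTopology X] [MeasurableSpace X] [BorelSpace X]
  [ContinuousSMul G X] in
theorem Equi0_open {l : Len G} (B : Base l X) {W : Set G} (hW : IsOpen W) (U : Set X) :
    IsOpen (W • U) := by
  have e : W • U = (fun g : G => g • B.o) '' (W * {h | h • B.o ∈ U}) := by
    ext x
    constructor
    · rintro ⟨w, hw, y, hy, rfl⟩
      obtain ⟨h, rfl⟩ := B.trans y
      exact ⟨w * h, ⟨w, hw, h, hy, rfl⟩, mul_smul _ _ _⟩
    · rintro ⟨_, ⟨w, hw, h, hh, rfl⟩, rfl⟩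
      exact ⟨w, hw, h • B.o, hh, (mul_smul _ _ _).symm⟩
  rw [e]
  exact B.opn _ hW.mul_right

omit [IsTopologicalGroup G] [T2Space G] [LocallyCompactSpace G] [T2Space X] in
theorem Equi0_meas (ν : Measure G) [IsProbabilityMeasure ν] {ψ : X → ℝ} (hψ : Measurable ψ)
    (g : G) : Measurable fun x : X => ∫ u, ψ (g • u • x) ∂ν := by
  have h : Measurable fun p : G × X => ψ (g • p.1 • p.2) :=
    hψ.comp ((measurable_fst.smul measurable_snd).const_smul g)
  exact (h.stronglyMeasurable.integral_prod_left' (μ := ν)).measurable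

/-- The mean deviation of the averages over small translates. -/
theorem Equi0_dev {dd : G → ℝ} {M b : ℝ} {ν : Measure G} [IsProbabilityMeasure ν]
    (h0 : ∀ g, 0 ≤ dd g) (hM : 0 ≤ M) (hν : LipM dd M ν) {ψ : X → ℝ} (hψ : Measurable ψ)
    (h1 : ∀ x, |ψ x| ≤ 1) (g : G)
    (h : ∀ η, FLip dd (M + 1) η →
      |∫ x, η (g⁻¹ • x) * ψ x ∂μ - (∫ x, η x ∂μ) * ∫ x, ψ x ∂μ| ≤ b) :
    ∫ x, |∫ u, ψ (g • u • x) ∂ν - ∫ y, ψ y ∂μ| ∂μ ≤ b := by
  have hF := Equi0_meas ν hψ g
  obtain ⟨s, hs⟩ : ∃ s : X → ℝ, s = fun x =>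
      if ∫ y, ψ y ∂μ ≤ ∫ u, ψ (g • u • x) ∂ν then 1 else -1 := ⟨_, rfl⟩
  have hsm : Measurable s := by
    rw [hs]
    exact Measurable.ite (measurableSet_le measurable_const hF) measurable_const measurable_const
  have hs1 : ∀ x, |s x| ≤ 1 := fun x => by
    rw [hs]
    dsimp only
    split_ifs <;> simp
  have e1 : ∀ x, |∫ u, ψ (g • u • x) ∂ν - ∫ y, ψ y ∂μ| =
      (∫ u, ψ (g • u • x) ∂ν) * s x - s x * ∫ y, ψ y ∂μ := fun x => by
    rw [hs]
    dsimp only
    split_ifs with hx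
    · rw [abs_of_nonneg (sub_nonneg.2 hx)]
      ring
    · rw [abs_of_neg (sub_neg.2 (not_le.1 hx))]
      ring
  have e2 := integral_mul_sm (μ := μ) ν hsm hs1 (h := fun y => ψ (g • y))
    (hψ.comp (measurable_const_smul g)) fun x => h1 _
  have e3 := integral_smul_eq_self (μ := μ) (fun y => ψ (g • y) * sm ν s y) (g := g⁻¹)
  have hi : Integrable (fun x => (∫ u, ψ (g • u • x) ∂ν) * s x) μ :=
    Equi0_int μ (hF.mul hsm) (c := 1) fun x => by
      rw [abs_mul]
      exact mul_le_one₀ (Equi0_abs ν fun u => h1 _) (abs_nonneg _) (hs1 x)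
  simp only [e1]
  rw [integral_sub hi ((Equi0_int μ hsm hs1).mul_const _), integral_mul_const, ← e2, ← e3,
    ← integral_sm (μ := μ) ν hsm hs1]
  simp only [smul_inv_smul, mul_comm (ψ _)]
  exact (le_abs_self _).trans (h _ (fLip_sm h0 hM hν hsm hs1))

omit [T2Space G] [LocallyCompactSpace G] [T2Space X] [SMulInvariantMeasure G X μ] in
/-- The mass of a set under the random perturbation. -/
theorem Equi0_mass {c : ℝ} (hc : 0 ≤ c) {ν : Measure G} [IsProbabilityMeasure ν] (o : X)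
    (hle : ν.map (fun u => u⁻¹ • o) ≤ ENNReal.ofReal c • μ) {ψ : X → ℝ} (hψ : Measurable ψ)
    (h0 : ∀ x, 0 ≤ ψ x) (h1 : ∀ x, |ψ x| ≤ 1) (g : G) {U : Set X} (hU : MeasurableSet U)
    (hUψ : ∀ x ∈ U, ψ x = 1) :
    ((ν.prod ν).map fun p => p.1 * p.2⁻¹).real {δ | (g * δ) • o ∈ U} ≤
      ∫ y, ψ y ∂μ + c * ∫ x, |∫ u, ψ (g • u • x) ∂ν - ∫ y, ψ y ∂μ| ∂μ := by
  have hm : Measurable fun p : G × G => p.1 * p.2⁻¹ := measurable_fst.mul measurable_snd.inv
  have ho : Measurable fun δ : G => (g * δ) • o := (measurable_const_mul g).smul_const o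
  have hv : Measurable fun u : G => u⁻¹ • o := measurable_inv.smul_const o
  have hF := Equi0_meas ν hψ g
  have hS : MeasurableSet {δ : G | (g * δ) • o ∈ U} := ho hU
  have hD : Measurable fun x => |∫ u, ψ (g • u • x) ∂ν - ∫ y, ψ y ∂μ| :=
    (hF.sub measurable_const).abs
  have hD2 : ∀ x, |(|∫ u, ψ (g • u • x) ∂ν - ∫ y, ψ y ∂μ|)| ≤ 2 := fun x => by
    rw [abs_abs]
    linarith [abs_sub (∫ u, ψ (g • u • x) ∂ν) (∫ y, ψ y ∂μ), Equi0_abs μ h1,
      Equi0_abs ν (f := fun u => ψ (g • u • x)) fun u => h1 _]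
  have := Measure.isProbabilityMeasure_map (μ := ν.prod ν) hm.aemeasurable
  calc ((ν.prod ν).map fun p => p.1 * p.2⁻¹).real {δ | (g * δ) • o ∈ U}
      ≤ ∫ δ, ψ ((g * δ) • o) ∂((ν.prod ν).map fun p => p.1 * p.2⁻¹) := by
        rw [← integral_indicator_one hS]
        refine integral_mono ((integrable_const _).indicator hS)
          (Equi0_int _ (hψ.comp ho) fun _ => h1 _) fun δ => ?_
        by_cases hδ : δ ∈ {δ : G | (g * δ) • o ∈ U}
        · rw [indicator_of_mem hδ]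
          exact (hUψ _ hδ).ge
        · rw [indicator_of_notMem hδ]
          exact h0 _
    _ = ∫ v, ∫ u, ψ (g • u • v⁻¹ • o) ∂ν ∂ν := by
        have k1 : Measurable fun δ : G => ψ ((g * δ) • o) := hψ.comp ho
        have k2 : Measurable fun p : G × G => ψ ((g * (p.1 * p.2⁻¹)) • o) := k1.comp hm
        rw [integral_map hm.aemeasurable k1.aestronglyMeasurable,
          integral_prod_symm _ (Equi0_int _ k2 fun _ => h1 _)]
        simp only [mul_smul]
    _ ≤ ∫ v, (∫ y, ψ y ∂μ + |∫ u, ψ (g • u • v⁻¹ • o) ∂ν - ∫ y, ψ y ∂μ|) ∂ν :=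
        integral_mono (Equi0_int _ (hF.comp hv) fun v => Equi0_abs ν fun u => h1 _)
          ((integrable_const _).add (Equi0_int _ (hD.comp hv) fun v => hD2 _)) fun v => by
            linarith [le_abs_self (∫ u, ψ (g • u • v⁻¹ • o) ∂ν - ∫ y, ψ y ∂μ)]
    _ = ∫ y, ψ y ∂μ + ∫ x, |∫ u, ψ (g • u • x) ∂ν - ∫ y, ψ y ∂μ| ∂(ν.map fun u => u⁻¹ • o) := by
        have k1 : Measurable fun v : G => |∫ u, ψ (g • u • v⁻¹ • o) ∂ν - ∫ y, ψ y ∂μ| :=
          hD.comp hv
        rw [integral_add (integrable_const _) (Equi0_int _ k1 fun v => hD2 _),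
          integral_map hv.aemeasurable hD.aestronglyMeasurable]
        simp
    _ ≤ _ := by
        refine add_le_add le_rfl ((integral_mono_measure hle
          (Eventually.of_forall fun _ => abs_nonneg _)
          ((Equi0_int μ hD hD2).smul_measure ENNReal.ofReal_ne_top)).trans_eq ?_)
        rw [integral_smul_measure, ENNReal.toReal_ofReal hc, smul_eq_mul]

theorem Equi0_le {l : Len G} (B : Base l X) {Q : Set G} (hQ : IsCompact Q) :
    ∃ a : ℝ, 0 ≤ a ∧ ∀ (M : ℝ) (ν : Measure G), 0 ≤ M →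
      ν ≤ ENNReal.ofReal M • (Measure.haar : Measure G).restrict Q →
      ν.map (fun u => u⁻¹ • B.o) ≤ ENNReal.ofReal (M * a) • μ := by
  obtain ⟨A, hA, h⟩ := haar_orbit_le (μ := μ) B hQ
  refine ⟨A.toReal, ENNReal.toReal_nonneg, fun M ν hM hν => Measure.le_iff.2 fun U hU => ?_⟩
  have hv : Measurable fun u : G => u⁻¹ • B.o := measurable_inv.smul_const B.o
  rw [Measure.map_apply hv hU, Measure.smul_apply, smul_eq_mul, ENNReal.ofReal_mul hM,
    ENNReal.ofReal_toReal hA, mul_assoc]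
  refine (hν _).trans ?_
  rw [Measure.smul_apply, smul_eq_mul, Measure.restrict_apply (hv hU), inter_comm]
  exact mul_le_mul_right (h U hU) _

theorem equi_of_mix {n : ℕ} {D : ExpData G n} (Γ : Gauge D) {l : Len G} (B : Base l X)
    {Far : G → ℝ → Prop} (h : Mix Γ.dd Far μ) : Nonempty (Equi l Far B.o μ) := by
  obtain ⟨κ, hκ, C, hC, hmix⟩ := h
  obtain ⟨A, L, hA, hlip⟩ := Γ.exists_lipM
  obtain ⟨b, hb, hrho⟩ := Equi0_rho D l
  have hsm : ∀ W ∈ 𝓝 (1 : G), ∃ r, 0 < r ∧ r ≤ 1 ∧ ∀ g, Γ.dd g ≤ r → g ∈ W := fun W hW => by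
    obtain ⟨r, hr, h⟩ := Γ.basis W hW
    exact ⟨min r 1, lt_min hr one_pos, min_le_right _ _,
      fun g hg => h (hg.trans (min_le_left _ _))⟩
  obtain ⟨r₀, hr₀, hr₁, hlen⟩ := hsm _ l.nhds
  obtain ⟨a, ha, hmap⟩ := Equi0_le (μ := μ) B (Q := {g | Γ.dd g ≤ 1})
    (Γ.cpt.of_isClosed_subset (isClosed_le Γ.cont continuous_const)
      fun g (hg : Γ.dd g ≤ 1) => hg.trans one_le_two)
  have hb0 : 0 < b := one_pos.trans_le hb
  obtain ⟨r, hr⟩ : ∃ r : ℕ → ℝ, ∀ m, r m = r₀ / (2 * (b ^ (m + 1) * b ^ (m + 1))) :=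
    ⟨_, fun _ => rfl⟩
  have hrpos : ∀ m, 0 < r m := fun m => by rw [hr]; positivity
  have hrle : ∀ m, r m ≤ 1 := fun m => by
    have h1 : 1 ≤ b ^ (m + 1) := one_le_pow₀ hb
    rw [hr, div_le_one (by positivity)]
    nlinarith
  choose ν hν hνr hνl hνh using fun m => hlip (r m) (hrpos m) (hrle m)
  have hm : Measurable fun p : G × G => p.1 * p.2⁻¹ := measurable_fst.mul measurable_snd.inv
  obtain ⟨M₀, hM₀, hM⟩ : ∃ M₀ : ℝ, 0 ≤ M₀ ∧ ∀ m, A / r m ^ L = M₀ * ((b * b) ^ L) ^ m := by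
    refine ⟨A * (2 * (b * b) / r₀) ^ L, by positivity, fun m => ?_⟩
    rw [hr, ← pow_mul, mul_comm L m, pow_mul, mul_assoc A, ← mul_pow, div_eq_mul_inv A, ← inv_pow]
    congr 2
    field_simp
    ring
  have hK : 1 ≤ (b * b) ^ L := one_le_pow₀ (by nlinarith)
  generalize (b * b) ^ L = K at hM hK
  have hK0 : 0 < K := one_pos.trans_le hK
  refine ⟨{ σ := fun m => ((ν m).prod (ν m)).map fun p => p.1 * p.2⁻¹
            C := Real.log (K * K), κ := κ, κ_pos := hκ
            prob := fun m => Measure.isProbabilityMeasure_map hm.aemeasurable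
            small := fun m => ?_, eq := fun W hW h1 => ?_ }⟩
  · have h2 : ∀ᵐ δ ∂((ν m).prod (ν m)).map fun p => p.1 * p.2⁻¹, Γ.dd δ ≤ 2 * r m := by
      rw [ae_map_iff hm.aemeasurable (isClosed_le Γ.cont continuous_const).measurableSet]
      filter_upwards [measurePreserving_fst.quasiMeasurePreserving.ae (hνr m),
        measurePreserving_snd.quasiMeasurePreserving.ae (hνr m)] with p h1 h2
      linarith [Γ.mul p.1 p.2⁻¹, Γ.inv p.2]
    filter_upwards [h2] with δ hδ γ hγ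
    refine hlen _ ?_
    have h3 := Γ.conj δ γ⁻¹
    rw [inv_inv] at h3
    refine h3.trans ((mul_le_mul (mul_le_mul (hrho m γ hγ) (hrho m γ⁻¹ (by rwa [l.len_inv]))
      (norm_nonneg _) (by positivity)) hδ (Γ.nonneg δ) (by positivity)).trans_eq ?_)
    rw [hr]
    field_simp
  · obtain ⟨rW, hW0, hW1, hWs⟩ := hsm W (hW.mem_nhds h1)
    obtain ⟨νW, _, hWr, hWl, -⟩ := hlip rW hW0 hW1
    have hMW : 0 ≤ A / rW ^ L := by positivity
    refine ⟨M₀ * a * (C * (M₀ + 1) * (A / rW ^ L + 1)), fun m g t hg U hU => ?_⟩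
    have hO := (Equi0_open B hW U).measurableSet
    have hi : Measurable ((W • U).indicator (1 : X → ℝ)) := measurable_one.indicator hO
    have hi0 : ∀ x, 0 ≤ (W • U).indicator (1 : X → ℝ) x := fun x =>
      indicator_nonneg (fun _ _ => zero_le_one) x
    have hi1 : ∀ x, |(W • U).indicator (1 : X → ℝ) x| ≤ 1 := fun x => by
      rw [abs_of_nonneg (hi0 x)]
      exact indicator_le_self' (fun _ _ => zero_le_one) x
    have hψ := fLip_sm Γ.nonneg hMW hWl hi hi1
    have hψ1 : ∀ x, |sm νW ((W • U).indicator 1) x| ≤ 1 := fun x => Equi0_abs νW fun _ => hi1 _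
    have hMm : 0 ≤ A / r m ^ L := div_nonneg hA (pow_nonneg (hrpos m).le _)
    have h2 := Equi0_mass (mul_nonneg hMm ha) B.o (hmap _ (ν m) hMm (hνh m)) hψ.1
      (fun x => integral_nonneg fun _ => hi0 _) hψ1 g hU (fun x hx => by
        rw [sm, integral_congr_ae (g := fun _ => (1 : ℝ))]
        · simp
        · filter_upwards [hWr] with u hu
          exact indicator_of_mem (smul_mem_smul (hWs _ (by rwa [Γ.inv])) hx) _)
    have h3 := Equi0_dev (μ := μ) Γ.nonneg hMm (hνl m) hψ.1 hψ1 g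
      fun η hη => hmix g t hg _ _ η _ hη hψ
    have h4 := h2.trans (add_le_add le_rfl (mul_le_mul_of_nonneg_left h3 (mul_nonneg hMm ha)))
    rw [integral_sm νW hi hi1, integral_indicator_one hO, hM] at h4
    have h5 : Real.exp (Real.log (K * K) * m - κ * t) = K ^ m * K ^ m * Real.exp (-(κ * t)) := by
      rw [sub_eq_add_neg, Real.exp_add, mul_comm _ (m : ℝ), Real.exp_nat_mul,
        Real.exp_log (by positivity), mul_pow]
    have h6 : M₀ * K ^ m * a * (C * (M₀ * K ^ m + 1) * (A / rW ^ L + 1) * Real.exp (-(κ * t))) ≤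
        M₀ * a * (C * (M₀ + 1) * (A / rW ^ L + 1)) * Real.exp (Real.log (K * K) * m - κ * t) := by
      have h7 : M₀ * K ^ m + 1 ≤ (M₀ + 1) * K ^ m := by nlinarith [one_le_pow₀ (n := m) hK]
      rw [h5]
      calc _ ≤ M₀ * K ^ m * a * (C * ((M₀ + 1) * K ^ m) * (A / rW ^ L + 1) *
            Real.exp (-(κ * t))) := by gcongr
        _ = _ := by ring
    have := Measure.isProbabilityMeasure_map (μ := (ν m).prod (ν m)) hm.aemeasurable
    rw [← ofReal_measureReal (μ := μ), ← ENNReal.ofReal_add measureReal_nonneg (by positivity),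
      ← ofReal_measureReal]
    exact ENNReal.ofReal_le_ofReal (h4.trans (add_le_add le_rfl h6))

end Pool.Agent.P.MP_d483fb_an.Z.EM

end

end

section

/-!
From bracket relations in the Lie algebra to the group relations used by the averaging theorem.
-/

open scoped Matrix Matrix.Norms.Operator Topology
open Filter Set NormedSpace

attribute [local instance 100] LieRing.ofAssociativeRing

noncomputable section

namespace Pool.Agent.P.MP_d483fb_an.Z.EM

open _root_.Pool.Agent.P.MP_d483fb_an.Z.ST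

variable {G : Type} [Group G] [TopologicalSpace G] {n : ℕ} {D : ExpData G n} {sz : G → ℝ}

theorem size_of (Γ : Gauge D) (hs : SzOK D sz) : Size sz Γ.dd := by
  refine ⟨hs.one_le, hs.mul, hs.inv, Γ.nonneg, fun g h => (Γ.conj g h).trans ?_, ?_⟩
  · have h1 := hs.rho h
    have h2 := hs.rho h⁻¹
    rw [hs.inv] at h2
    rw [sq]
    exact mul_le_mul_of_nonneg_right
      (mul_le_mul h2 h1 (norm_nonneg _) (zero_le_one.trans (hs.one_le h))) (Γ.nonneg g)
  · obtain ⟨C, hC⟩ := hs.bdd _ Γ.cpt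
    exact ⟨C, fun g hg => hC g (hg.trans one_le_two)⟩

theorem szOK_rho (D : ExpData G n) [IsTopologicalGroup G] :
    SzOK D fun g => (1 + ‖D.ρ g‖) * (1 + ‖D.ρ g⁻¹‖) := by
  have hm : ∀ g h, 1 + ‖D.ρ (g * h)‖ ≤ (1 + ‖D.ρ g‖) * (1 + ‖D.ρ h‖) := fun g h => by
    rw [map_mul]
    nlinarith [norm_mul_le (D.ρ g) (D.ρ h), norm_nonneg (D.ρ g), norm_nonneg (D.ρ h)]
  refine ⟨fun g => ?_, fun g h => ?_, fun g => ?_, fun K hK => ?_, fun g => ?_⟩
  · nlinarith [norm_nonneg (D.ρ g), norm_nonneg (D.ρ g⁻¹)]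
  · rw [mul_inv_rev]
    calc _ ≤ ((1 + ‖D.ρ g‖) * (1 + ‖D.ρ h‖)) * ((1 + ‖D.ρ h⁻¹‖) * (1 + ‖D.ρ g⁻¹‖)) :=
          mul_le_mul (hm _ _) (hm _ _) (by positivity) (by positivity)
      _ = _ := by ring
  · rw [inv_inv, mul_comm]
  · have hc : Continuous fun g => (1 + ‖D.ρ g‖) * (1 + ‖D.ρ g⁻¹‖) := by
      have := D.cont
      fun_prop
    obtain ⟨C, hC⟩ := hK.bddAbove_image hc.continuousOn
    exact ⟨C, fun g hg => hC ⟨g, hg, rfl⟩⟩
  · nlinarith [norm_nonneg (D.ρ g), norm_nonneg (D.ρ g⁻¹)]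

theorem lipAt_ex (Γ : Gauge D) {X : Mat n} (hX : X ∈ D.g) :
    LipAt Γ.dd fun s : ℝ => D.ex (s • X) := by
  refine ⟨Γ.c * ‖X‖, fun s _ => (Γ.ex_le _ (D.g.smul_mem s hX)).trans_eq ?_⟩
  rw [norm_smul, Real.norm_eq_abs]
  ring

theorem SzOK.pow (hs : SzOK D sz) (g : G) (m : ℕ) : sz (g ^ m) ≤ sz 1 * sz g ^ m := by
  induction m with
  | zero => simp
  | succ m ih =>
    rw [pow_succ, pow_succ, ← mul_assoc]
    exact (hs.mul _ _).trans (mul_le_mul_of_nonneg_right ih (zero_le_one.trans (hs.one_le g)))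

variable [IsTopologicalGroup G]

theorem Ad_ex_eigen {X Y : Mat n} (hX : X ∈ D.g) {c : ℝ} (h : ⁅X, Y⁆ = c • Y) :
    D.Ad (D.ex X) Y = Real.exp c • Y := (D.Ad_ex hX Y).trans (conj_eigen (A := Mat n) h)

theorem Ad_ex_nil3 {X Y : Mat n} (hX : X ∈ D.g) (h : ⁅X, ⁅X, ⁅X, Y⁆⁆⁆ = 0) :
    D.Ad (D.ex X) Y = Y + ⁅X, Y⁆ + (1 / 2 : ℝ) • ⁅X, ⁅X, Y⁆⁆ :=
  (D.Ad_ex hX Y).trans (conj_nil3 (A := Mat n) h)

theorem conj_ex_eigen {h X : Mat n} (hh : h ∈ D.g) (hX : X ∈ D.g) {c : ℝ} (hc : ⁅h, X⁆ = c • X)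
    (τ t : ℝ) : D.ex (τ • h) * D.ex (t • X) * (D.ex (τ • h))⁻¹ =
      D.ex ((Real.exp (τ * c) * t) • X) := by
  rw [D.conj_ex _ (D.g.smul_mem t hX), 
    Ad_ex_eigen (D.g.smul_mem τ hh) (c := τ * c) (by rw [smul_lie, lie_smul, hc, smul_smul, smul_smul, smul_smul,
      mul_right_comm]), smul_smul]

/-- `X` is an eigenvector of an inner derivation with a nonzero eigenvalue. -/
def Eig (D : ExpData G n) (X : Mat n) : Prop :=
  X ∈ D.g ∧ ∃ h ∈ D.g, ∃ c : ℝ, c ≠ 0 ∧ ⁅h, X⁆ = c • X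

theorem poly_ex (hs : SzOK D sz) {X : Mat n} (hX : Eig D X) :
    ∃ (C : ℝ) (d : ℕ), 0 ≤ C ∧ ∀ t : ℝ, sz (D.ex (t • X)) ≤ C * (1 + |t|) ^ d := by
  obtain ⟨hX, h, hh, c, hc0, hc⟩ := hX
  set b := D.ex ((Real.log 2 / c) • h) with hb
  obtain ⟨C, hC⟩ := hs.bdd _ ((isCompact_Icc (a := (-1 : ℝ)) (b := 1)).image (D.ex_smul_cont hX))
  have hC0 : 0 ≤ C := (zero_le_one.trans (hs.one_le _)).trans
    (hC _ ⟨0, ⟨by norm_num, by norm_num⟩, rfl⟩)
  obtain ⟨d, hd⟩ := pow_unbounded_of_one_lt (sz b ^ 2) (one_lt_two (α := ℝ))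
  have h1 := zero_le_one.trans (hs.one_le 1)
  have hb0 := zero_le_one.trans (hs.one_le b)
  refine ⟨sz 1 ^ 2 * C * 2 ^ d, d, by positivity, fun t => ?_⟩
  obtain ⟨m, hm1, hm2⟩ := exists_nat_pow_near (x := 1 + |t|) (y := 2)
    (le_add_of_nonneg_right (abs_nonneg t)) one_lt_two
  have e1 : D.ex ((((m + 1 : ℕ) : ℝ) * (Real.log 2 / c)) • h) = b ^ (m + 1) := by
    rw [mul_smul, D.ex_nsmul (D.g.smul_mem _ hh)]
  have e2 := conj_ex_eigen hh hX hc (((m + 1 : ℕ) : ℝ) * (Real.log 2 / c)) (t / 2 ^ (m + 1))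
  rw [e1, mul_assoc _ _ c, div_mul_cancel₀ _ hc0, Real.exp_nat_mul, Real.exp_log two_pos,
    mul_div_cancel₀ _ (by positivity)] at e2
  have hu : sz (D.ex ((t / 2 ^ (m + 1)) • X)) ≤ C := by
    refine hC _ ⟨_, ?_, rfl⟩
    rw [mem_Icc, ← abs_le, abs_div, abs_of_pos (by positivity : (0 : ℝ) < 2 ^ (m + 1)),
      div_le_one (by positivity)]
    linarith
  have hp := hs.pow b (m + 1)
  have hp0 := zero_le_one.trans (hs.one_le (b ^ (m + 1)))
  have h2 : (sz b ^ 2) ^ (m + 1) ≤ 2 ^ d * (1 + |t|) ^ d := by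
    calc _ ≤ ((2 : ℝ) ^ d) ^ (m + 1) := pow_le_pow_left₀ (by positivity) hd.le _
      _ = (2 * 2 ^ m) ^ d := by rw [← pow_mul, ← pow_succ', ← pow_mul, mul_comm]
      _ ≤ (2 * (1 + |t|)) ^ d := by gcongr
      _ = _ := mul_pow _ _ _
  rw [← e2]
  calc _ ≤ sz (b ^ (m + 1)) * sz (D.ex ((t / 2 ^ (m + 1)) • X)) * sz (b ^ (m + 1)) := by
        refine (hs.mul _ _).trans ?_
        rw [hs.inv]
        exact mul_le_mul_of_nonneg_right (hs.mul _ _) hp0
    _ ≤ (sz 1 * sz b ^ (m + 1)) * C * (sz 1 * sz b ^ (m + 1)) := by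
        have := zero_le_one.trans (hs.one_le (D.ex ((t / 2 ^ (m + 1)) • X)))
        gcongr
    _ = sz 1 ^ 2 * C * (sz b ^ 2) ^ (m + 1) := by ring
    _ ≤ sz 1 ^ 2 * C * (2 ^ d * (1 + |t|) ^ d) := by gcongr
    _ = _ := by ring

/-- The exponential of a combination of three vectors. -/
def ex3 (D : ExpData G n) (X Y Z : Mat n) (v : V3) : G := D.ex (v 0 • X + v 1 • Y + v 2 • Z)

omit [IsTopologicalGroup G] in
theorem mem3 {X Y Z : Mat n} (hX : X ∈ D.g) (hY : Y ∈ D.g) (hZ : Z ∈ D.g) (a b c : ℝ) :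
    a • X + b • Y + c • Z ∈ D.g :=
  D.g.add_mem (D.g.add_mem (D.g.smul_mem _ hX) (D.g.smul_mem _ hY)) (D.g.smul_mem _ hZ)

theorem unip_ex3 (hs : SzOK D sz) {X Y Z : Mat n} (hX : Eig D X) (hY : Eig D Y) (hZ : Eig D Z)
    (h1 : ⁅X, Y⁆ = 0) (h2 : ⁅X, Z⁆ = 0) (h3 : ⁅Y, Z⁆ = 0) : Unip sz (ex3 D X Y Z) := by
  have h1' : ⁅Y, X⁆ = 0 := by rw [← lie_skew, h1, neg_zero]
  have h2' : ⁅Z, X⁆ = 0 := by rw [← lie_skew, h2, neg_zero]
  have h3' : ⁅Z, Y⁆ = 0 := by rw [← lie_skew, h3, neg_zero]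
  refine ⟨fun u v => ?_, ?_, ?_⟩
  · rw [ex3, ex3, ex3, ← D.ex_add_of_commute (mem3 hX.1 hY.1 hZ.1 _ _ _)
      (mem3 hX.1 hY.1 hZ.1 _ _ _) (by simp [h1, h2, h3, h1', h2', h3'])]
    congr 1
    simp only [Pi.add_apply, add_smul]
    abel
  · exact D.ex_cont.comp_continuous (by fun_prop) fun v => mem3 hX.1 hY.1 hZ.1 _ _ _
  · obtain ⟨C1, d1, c1, p1⟩ := poly_ex hs hX
    obtain ⟨C2, d2, c2, p2⟩ := poly_ex hs hY
    obtain ⟨C3, d3, c3, p3⟩ := poly_ex hs hZ
    refine ⟨C1 * C2 * C3, d1 + d2 + d3, fun v => ?_⟩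
    have hv : ∀ i, |v i| ≤ ‖v‖ := fun i => norm_le_pi_norm v i
    rw [ex3, D.ex_add_of_commute (D.g.add_mem (D.g.smul_mem _ hX.1) (D.g.smul_mem _ hY.1))
      (D.g.smul_mem _ hZ.1) (by simp [h2, h3]),
      D.ex_add_of_commute (D.g.smul_mem _ hX.1) (D.g.smul_mem _ hY.1) (by simp [h1])]
    have q1 := (p1 (v 0)).trans (show _ ≤ C1 * (1 + ‖v‖) ^ d1 by gcongr; exact hv 0)
    have q2 := (p2 (v 1)).trans (show _ ≤ C2 * (1 + ‖v‖) ^ d2 by gcongr; exact hv 1)
    have q3 := (p3 (v 2)).trans (show _ ≤ C3 * (1 + ‖v‖) ^ d3 by gcongr; exact hv 2)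
    have z2 := zero_le_one.trans (hs.one_le (D.ex (v 1 • Y)))
    have z3 := zero_le_one.trans (hs.one_le (D.ex (v 2 • Z)))
    calc _ ≤ sz (D.ex (v 0 • X)) * sz (D.ex (v 1 • Y)) * sz (D.ex (v 2 • Z)) :=
          (hs.mul _ _).trans (mul_le_mul_of_nonneg_right (hs.mul _ _) z3)
      _ ≤ (C1 * (1 + ‖v‖) ^ d1) * (C2 * (1 + ‖v‖) ^ d2) * (C3 * (1 + ‖v‖) ^ d3) := by gcongr
      _ = _ := by ring

theorem shear_ex3 {w z x x2 : Mat n} (hw : w ∈ D.g) (hz : z ∈ D.g) (hx : x ∈ D.g) (hx2 : x2 ∈ D.g)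
    (h1 : ⁅w, z⁆ = x) (h2 : ⁅w, x⁆ = x2) (h3 : ⁅w, x2⁆ = 0) (s : ℝ) (v : V3) :
    D.ex (s • w) * ex3 D z x x2 v = ex3 D z x x2 (sh s v) * D.ex (s • w) := by
  rw [← mul_inv_eq_iff_eq_mul, ex3, ex3, D.conj_ex _ (mem3 hz hx hx2 _ _ _),
    Ad_ex_nil3 (D.g.smul_mem s hw) (by simp [h1, h2, h3])]
  congr 1
  simp only [smul_lie, lie_add, lie_smul, h1, h2, h3, sh, Matrix.cons_val_zero,
    Matrix.cons_val_one, Matrix.cons_val, smul_zero, lie_zero]
  module

/-- Bracket relations at a longest root. -/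
structure LieData (D : ExpData G n) where
  z : Mat n
  x : Mat n
  y : Mat n
  x2 : Mat n
  y2 : Mat n
  w1 : Mat n
  w2 : Mat n
  f : Mat n
  h : Mat n
  mz : z ∈ D.g
  ex : Eig D x
  ey : Eig D y
  ex2 : Eig D x2
  ey2 : Eig D y2
  mw1 : w1 ∈ D.g
  mw2 : w2 ∈ D.g
  mf : f ∈ D.g
  mh : h ∈ D.g
  a1 : ⁅w1, z⁆ = x
  a2 : ⁅w1, x⁆ = x2
  a3 : ⁅w1, x2⁆ = 0
  a4 : ⁅z, x⁆ = 0
  a5 : ⁅z, x2⁆ = 0
  a6 : ⁅x, x2⁆ = 0
  b1 : ⁅w2, z⁆ = y
  b2 : ⁅w2, y⁆ = y2
  b3 : ⁅w2, y2⁆ = 0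
  b4 : ⁅z, y⁆ = 0
  b5 : ⁅z, y2⁆ = 0
  b6 : ⁅y, y2⁆ = 0
  xy : ⁅x, y⁆ = z
  hz : ⁅h, z⁆ = (2 : ℝ) • z
  hf : ⁅h, f⁆ = -((2 : ℝ) • f)
  zf : ⁅z, f⁆ = h

/-- The group relations at a longest root. -/
def LieData.data (L : LieData D) (Γ : Gauge D) (hs : SzOK D sz) : Data sz Γ.dd where
  e1 := ex3 D L.z L.x L.x2
  e2 := ex3 D L.z L.y L.y2
  w1 s := D.ex (s • L.w1)
  w2 s := D.ex (s • L.w2)
  lo s := D.ex (s • L.f)
  a := D.ex (Real.log 2 • L.h)
  u1 := unip_ex3 hs ⟨L.mz, L.h, L.mh, 2, two_ne_zero, L.hz⟩ L.ex L.ex2 L.a4 L.a5 L.a6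
  u2 := unip_ex3 hs ⟨L.mz, L.h, L.mh, 2, two_ne_zero, L.hz⟩ L.ey L.ey2 L.b4 L.b5 L.b6
  l1 := lipAt_ex Γ L.mw1
  l2 := lipAt_ex Γ L.mw2
  l3 := lipAt_ex Γ L.mf
  same t := by simp [ex3]
  c1 := shear_ex3 L.mw1 L.mz L.ex.1 L.ex2.1 L.a1 L.a2 L.a3
  c2 := shear_ex3 L.mw2 L.mz L.ey.1 L.ey2.1 L.b1 L.b2 L.b3
  heis s t r := by
    have hxz : ⁅L.x, L.z⁆ = 0 := by rw [← lie_skew, L.a4, neg_zero]
    have e : ex3 D L.z L.x L.x2 ![0, s, 0] = D.ex (s • L.x) := by simp [ex3]
    have hm := D.g.smul_mem s L.ex.1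
    rw [e, ← inv_mul_eq_iff_eq_mul, ← mul_assoc, ← inv_inv (D.ex (s • L.x)), inv_inv (_)⁻¹, ex3,
      ex3, D.conj_ex _ (mem3 L.mz L.ey.1 L.ey2.1 _ _ _), ← D.ex_neg hm,
      Ad_ex_nil3 (D.g.neg_mem hm) (by simp [L.xy, hxz])]
    congr 1
    simp [L.xy, hxz]
    module
  sl d hd := by
    have e : ∀ t : ℝ, ex3 D L.z L.x L.x2 ![t, 0, 0] = D.ex (t • L.z) := fun t => by simp [ex3]
    have h1 : 1 + d⁻¹ * d = 2 := by rw [inv_mul_cancel₀ hd.ne']; norm_num
    have h2 := D.ex_sl2 L.mz L.mf L.hz L.hf L.zf (s := d⁻¹) (t := d) (by rw [h1]; norm_num)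
    have h3 := conj_ex_eigen L.mh L.mf (c := -2) (by rw [L.hf, neg_smul]) (Real.log 2) (2 * d)
    have h4 : Real.exp (Real.log 2 * -2) * (2 * d) = d / 2 := by
      rw [mul_neg, Real.exp_neg, mul_comm (Real.log 2), show (2 : ℝ) * Real.log 2 =
        (2 : ℕ) * Real.log 2 by norm_num, Real.exp_nat_mul, Real.exp_log two_pos]
      ring
    rw [e, e, h2, h1, mul_assoc, ← D.ex_add_smul L.mz,
      show d⁻¹ / 2 + -(2 * d)⁻¹ = 0 by field_simp; ring, zero_smul, D.ex_zero, mul_one, ← h4, ← h3,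
      inv_mul_cancel_right]

theorem LieData.data_e1 (L : LieData D) (Γ : Gauge D) (hs : SzOK D sz) (t : ℝ) :
    (L.data Γ hs).e1 ![t, 0, 0] = D.ex (t • L.z) := by simp [LieData.data, ex3]

theorem LieData.data_a (L : LieData D) (Γ : Gauge D) (hs : SzOK D sz) :
    (L.data Γ hs).a = D.ex (Real.log 2 • L.h) := rfl

end Pool.Agent.P.MP_d483fb_an.Z.EM

end

end

section

/-!
Word length and height: basic properties.
-/

open scoped Topology Pointwise ENNReal
open MeasureTheory Filter Set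

set_option linter.unusedSectionVars false

namespace Pool.Agent.P.MP_d483fb_an.Z

variable {G : Type} [Group G] [TopologicalSpace G]

theorem exists_len [IsTopologicalGroup G] [LocallyCompactSpace G] [ConnectedSpace G] :
    Nonempty (Len G) := by
  classical
  obtain ⟨K, hK, hK1⟩ := exists_compact_mem_nhds (1 : G)
  set Q : Set G := K ∪ K⁻¹ with hQ
  have hQc : IsCompact Q := hK.union hK.inv
  have hQn : Q ∈ 𝓝 (1 : G) := mem_of_superset hK1 subset_union_left
  have hQ1 : (1 : G) ∈ Q := mem_of_mem_nhds hQn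
  have hQi : Q⁻¹ = Q := by rw [hQ, union_inv, inv_inv, union_comm]
  have hpi : ∀ n : ℕ, ∀ g ∈ Q ^ n, g⁻¹ ∈ Q ^ n := by
    intro n g hg
    have : g⁻¹ ∈ (Q ^ n)⁻¹ := Set.inv_mem_inv.2 hg
    rwa [← inv_pow, hQi] at this
  have hmono : ∀ m n : ℕ, m ≤ n → Q ^ m ⊆ Q ^ n := fun m n h => Set.pow_subset_pow_right hQ1 h
  let H : Subgroup G :=
    { carrier := {g | ∃ n : ℕ, g ∈ Q ^ n}
      one_mem' := ⟨0, by simp⟩
      mul_mem' := by
        rintro a b ⟨m, ha⟩ ⟨n, hb⟩
        exact ⟨m + n, by rw [pow_add]; exact Set.mul_mem_mul ha hb⟩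
      inv_mem' := by
        rintro a ⟨m, ha⟩
        exact ⟨m, hpi m a ha⟩ }
  have hHo : IsOpen (H : Set G) :=
    H.isOpen_of_mem_nhds (g := 1) (mem_of_superset hQn fun g hg => ⟨1, by simpa using hg⟩)
  have hH : ∀ g : G, ∃ n : ℕ, g ∈ Q ^ n := by
    have : (H : Set G) = univ :=
      IsClopen.eq_univ ⟨H.isClosed_of_isOpen hHo, hHo⟩ ⟨1, H.one_mem⟩
    intro g
    have hg : g ∈ (H : Set G) := this ▸ mem_univ g
    exact hg
  have hle : ∀ g n, Nat.find (hH g) ≤ n ↔ g ∈ Q ^ n := fun g n =>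
    ⟨fun h => hmono _ _ h (Nat.find_spec (hH g)), fun h => Nat.find_min' _ h⟩
  have hcp : ∀ n : ℕ, IsCompact (Q ^ n) := by
    intro n
    induction n with
    | zero => rw [pow_zero]; exact isCompact_singleton
    | succ n ih => rw [pow_succ]; exact ih.mul hQc
  refine ⟨⟨fun g => Nat.find (hH g), ?_, ?_, ?_, ?_, ?_, ?_⟩⟩
  · exact Nat.le_zero.1 ((hle 1 0).2 (by simp))
  · intro g
    refine le_antisymm ((hle _ _).2 (hpi _ _ (Nat.find_spec (hH g)))) ((hle _ _).2 ?_)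
    simpa using hpi _ _ (Nat.find_spec (hH g⁻¹))
  · intro g h
    refine (hle _ _).2 ?_
    rw [pow_add]
    exact Set.mul_mem_mul (Nat.find_spec (hH g)) (Nat.find_spec (hH h))
  · intro g n hg
    rw [hle, pow_succ'] at hg
    obtain ⟨u, hu, g', hg', rfl⟩ := hg
    exact ⟨u, g', (hle _ _).2 (by simpa using hu), (hle _ _).2 hg', rfl⟩
  · intro n
    have : {g | Nat.find (hH g) ≤ n} = Q ^ n := Set.ext fun g => hle g n
    rw [this]
    exact hcp n
  · have : {g | Nat.find (hH g) ≤ 1} = Q := Set.ext fun g => by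
      rw [mem_ofPred_eq, hle, pow_one]
    rw [this]
    exact hQn

namespace Len

variable (l : Len G)

theorem le_linear (f : G → ℝ) (hf : ∀ g h, f (g * h) ≤ f g + f h) {C : ℝ}
    (h1 : ∀ u, l.len u ≤ 1 → f u ≤ C) (_hC : 0 ≤ C) (g : G) : f g ≤ C * (l.len g + 1) := by
  have : ∀ n : ℕ, ∀ g, l.len g ≤ n → f g ≤ C * (n + 1) := by
    intro n
    induction n with
    | zero => intro g hg; simpa using h1 g (by omega)
    | succ n ih =>
      intro g hg
      obtain ⟨u, g', hu, hg', rfl⟩ := l.step g n hg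
      have := hf u g'
      have := h1 u hu
      have := ih g' hg'
      push_cast
      linarith
  exact this _ g le_rfl

theorem len_pow (g : G) (n : ℕ) : l.len (g ^ n) ≤ n * l.len g := by
  induction n with
  | zero => simp [l.len_one]
  | succ n ih =>
    rw [pow_succ]
    have := l.len_mul (g ^ n) g
    nlinarith

theorem len_mul3 (a b c : G) : l.len (a * b * c) ≤ l.len a + l.len b + l.len c := by
  have := l.len_mul (a * b) c
  have := l.len_mul a b
  omega

theorem isClosed_le [T2Space G] (n : ℕ) : IsClosed {g | l.len g ≤ n} := (l.cpt n).isClosed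

theorem measurable_len [T2Space G] [MeasurableSpace G] [OpensMeasurableSpace G] :
    Measurable l.len := by
  refine measurable_of_Iic fun n => ?_
  exact (l.isClosed_le n).measurableSet

/-- The length is bounded on compact sets. -/
theorem bdd [IsTopologicalGroup G] {K : Set G} (hK : IsCompact K) :
    ∃ n, ∀ g ∈ K, l.len g ≤ n := by
  refine hK.induction_on (p := fun K => ∃ n, ∀ g ∈ K, l.len g ≤ n) ⟨0, by simp⟩ ?_ ?_ ?_
  · rintro s t hst ⟨n, hn⟩
    exact ⟨n, fun g hg => hn g (hst hg)⟩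
  · rintro s t ⟨n, hn⟩ ⟨m, hm⟩
    refine ⟨max n m, ?_⟩
    rintro g (hg | hg)
    · exact (hn g hg).trans (le_max_left _ _)
    · exact (hm g hg).trans (le_max_right _ _)
  · intro x _
    have hc : ContinuousAt (fun g : G => g * x⁻¹) x := by fun_prop
    have : {g : G | l.len (g * x⁻¹) ≤ 1} ∈ 𝓝 x := by
      have h := hc.preimage_mem_nhds (t := {g | l.len g ≤ 1}) (by simpa using l.nhds)
      exact h
    refine ⟨_, mem_nhdsWithin_of_mem_nhds this, 1 + l.len x, fun g hg => ?_⟩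
    have h := l.len_mul (g * x⁻¹) x
    rw [inv_mul_cancel_right] at h
    have : l.len (g * x⁻¹) ≤ 1 := hg
    omega

end Len

theorem exists_base [IsTopologicalGroup G] [T2Space G] (l : Len G) (Γ : Subgroup G)
    [DiscreteTopology Γ] : ∃ B : Base l (G ⧸ Γ), B.o = ((1 : G) : G ⧸ Γ) := by
  have h1 : ∀ g : G, g • ((1 : G) : G ⧸ Γ) = (g : G ⧸ Γ) := fun g => by
    rw [MulAction.Quotient.smul_mk, smul_eq_mul, mul_one]
  refine ⟨⟨((1 : G) : G ⧸ Γ), ?_, ?_, ?_⟩, rfl⟩
  · intro x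
    obtain ⟨g, rfl⟩ := QuotientGroup.mk_surjective x
    exact ⟨g, h1 g⟩
  · simp only [h1]
    exact QuotientGroup.isOpenMap_coe
  · intro n
    have hcl : IsClosed (Γ : Set G) := Subgroup.isClosed_of_discrete
    have hd : IsDiscrete (Γ : Set G) := isDiscrete_iff_discreteTopology.2 inferInstance
    have hf : ({g | l.len g ≤ n} ∩ (Γ : Set G)).Finite :=
      ((l.cpt n).inter_right hcl).finite (hd.mono inter_subset_right)
    refine hf.subset ?_
    rintro γ ⟨h, hl⟩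
    refine ⟨hl, ?_⟩
    rw [h1, QuotientGroup.eq] at h
    simpa using h

namespace Base

variable {l : Len G} {X : Type} [TopologicalSpace X] [MulAction G X] (B : Base l X)

theorem ht_le_iff {x : X} {n : ℕ} : B.ht x ≤ n ↔ ∃ g : G, l.len g ≤ n ∧ g • B.o = x := by
  classical
  unfold ht
  constructor
  · intro h
    obtain ⟨g, hg, hx⟩ := Nat.find_spec (p := fun n => ∃ g : G, l.len g ≤ n ∧ g • B.o = x)
      (by obtain ⟨g, hg⟩ := B.trans x; exact ⟨_, g, le_rfl, hg⟩)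
    exact ⟨g, hg.trans h, hx⟩
  · intro h
    exact Nat.find_min' _ h

theorem ht_smul_o (g : G) : B.ht (g • B.o) ≤ l.len g := B.ht_le_iff.2 ⟨g, le_rfl, rfl⟩

theorem ht_o : B.ht B.o = 0 := by
  have := B.ht_smul_o 1
  rw [one_smul, l.len_one] at this
  omega

theorem ht_smul (g : G) (x : X) : B.ht (g • x) ≤ l.len g + B.ht x := by
  obtain ⟨h, hl, rfl⟩ := B.ht_le_iff.1 (le_refl (B.ht x))
  rw [← mul_smul]
  have := B.ht_smul_o (g * h)
  have := l.len_mul g h
  omega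

theorem ht_le_smul (g : G) (x : X) : B.ht x ≤ l.len g + B.ht (g • x) := by
  have := B.ht_smul g⁻¹ (g • x)
  rwa [inv_smul_smul, l.len_inv] at this

theorem isCompact_le [ContinuousSMul G X] (n : ℕ) : IsCompact {x | B.ht x ≤ n} := by
  have : {x | B.ht x ≤ n} = (fun g : G => g • B.o) '' {g | l.len g ≤ n} := by
    ext x
    simp only [mem_ofPred_eq, B.ht_le_iff, mem_image]
  rw [this]
  exact (l.cpt n).image (by fun_prop)

theorem measurable_ht [ContinuousSMul G X] [T2Space X] [MeasurableSpace X]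
    [OpensMeasurableSpace X] : Measurable B.ht := by
  refine measurable_of_Iic fun n => ?_
  exact (B.isCompact_le n).isClosed.measurableSet

/-- A nearest element of the stabiliser. -/
theorem exists_near (g : G) : ∃ γ : G, γ • B.o = B.o ∧ l.len (g * γ⁻¹) ≤ B.ht (g • B.o) := by
  obtain ⟨h, hl, hh⟩ := B.ht_le_iff.1 (le_refl (B.ht (g • B.o)))
  refine ⟨h⁻¹ * g, ?_, ?_⟩
  · rw [mul_smul, ← hh, inv_smul_smul]
  · simpa using hl

end Base

end Pool.Agent.P.MP_d483fb_an.Z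


end

section

/-! The word length and the base of the random path argument attached to a normed group. -/

open scoped Topology ENNReal Pointwise
open Filter Set Metric MeasureTheory

set_option linter.unusedSectionVars false

noncomputable section

namespace Pool.Agent.P.MP_d483fb_an.Z

variable {G : Type} [Group G] [TopologicalSpace G] [IsTopologicalGroup G] [T2Space G]

/-- The integral length. -/
def Nm.toLen (N : Nm G) : Len G where
  len g := ⌈N.len g⌉₊
  len_one := by rw [N.one, Nat.ceil_zero]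
  len_inv g := by rw [N.inv]
  len_mul g h := (Nat.ceil_mono (N.mul g h)).trans (Nat.ceil_add_le _ _)
  step g n h := by
    obtain ⟨u, v, h1, h2, h3⟩ := N.split g 1 n zero_le_one n.cast_nonneg (by
      have := Nat.ceil_le.mp h
      push_cast at this
      linarith)
    exact ⟨u, v, Nat.ceil_le.mpr (by simpa using h1), Nat.ceil_le.mpr h2, h3⟩
  cpt n := by simpa only [Nat.ceil_le] using N.cpt n
  nhds := by
    have h : {g | N.len g < 1} ∈ 𝓝 (1 : G) :=
      (isOpen_lt N.cont continuous_const).mem_nhds (by simp [N.one])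
    exact mem_of_superset h fun g hg => Nat.ceil_le.mpr (by simpa using (show N.len g < 1 from hg).le)

theorem Nm.toLen_len (N : Nm G) (g : G) : N.toLen.len g = ⌈N.len g⌉₊ := rfl

theorem Nm.le_toLen (N : Nm G) (g : G) : N.len g ≤ N.toLen.len g := Nat.le_ceil _

theorem Nm.toLen_le (N : Nm G) (g : G) : (N.toLen.len g : ℝ) ≤ N.len g + 1 :=
  (Nat.ceil_lt_add_one (N.nonneg g)).le

/-- The base of the random path argument. -/
def Lat.base (L : Lat G) : Base L.toLen L.B where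
  o := L.o
  trans b := by
    obtain ⟨g, rfl⟩ := L.pj_surj b
    exact ⟨g, L.smul_o g⟩
  opn := by simpa only [L.smul_o] using L.isOpenMap_pj
  fin n := ((L.fin n).image Subtype.val).subset fun γ hγ =>
    ⟨⟨γ, L.smul_o_eq.mp hγ.1⟩, Nat.ceil_le.mp hγ.2, rfl⟩

theorem Lat.base_o (L : Lat G) : L.base.o = L.o := rfl

theorem Lat.base_ht (L : Lat G) (b : L.B) : L.base.ht b = ⌈L.ht b⌉₊ := by
  classical
  refine le_antisymm (Nat.find_min' _ ?_) ?_
  · obtain ⟨g, h1, h2⟩ := L.exists_smul L.o b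
    exact ⟨g, Nat.ceil_mono (by rw [h2, dist_comm]; exact le_rfl), h1⟩
  · obtain ⟨g, h1, h2⟩ := Nat.find_spec (p := fun n => ∃ g : G, L.toLen.len g ≤ n ∧ g • L.base.o = b)
      (by obtain ⟨g, hg⟩ := L.base.trans b; exact ⟨_, g, le_rfl, hg⟩)
    refine le_trans (Nat.ceil_mono ?_) h1
    rw [← h2, L.base_o, L.smul_o]
    exact L.ht_pj_le g

end Pool.Agent.P.MP_d483fb_an.Z

end

end
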