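import Pool.Agent.P.MP_d483fb_an.M.A02
import Pool.Agent.P.MP_d483fb_an.M.A05

section

/-!
Superrigidity: the homogeneous space of a lattice with a Borel section, the return cocycle, and the
properties of the ambient group that are used.
-/

open scoped Topology InnerProductSpace RealInnerProductSpace TensorProduct
open MeasureTheory Filter Set

set_option linter.unusedSectionVars false

noncomputable section

namespace Pool.Agent.P.MP_d483fb_an.Z.SR

/-- A homogeneous space with stabiliser `Γ`, an invariant probability measure and a Borel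
section. -/
structure Sec {G : Type} [Group G] [TopologicalSpace G] [MeasurableSpace G] (Γ : Subgroup G)
    (X : Type) [MeasurableSpace X] [MulAction G X] where
  o : X
  μ : Measure X
  s : X → G
  stab : ∀ g : G, g • o = o ↔ g ∈ Γ
  prob : IsProbabilityMeasure μ
  inv : ∀ g : G, MeasurePreserving (fun x : X => g • x) μ μ
  meas : Measurable s
  s_o : ∀ x, s x • o = x

section Amb

variable {G : Type} [Group G] [TopologicalSpace G] {A : Type} [NormedAddCommGroup A]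

/-- `u` is contracted by conjugation with the powers of `h`. -/
def Contr (h u : G) : Prop := Tendsto (fun n : ℕ => h ^ n * u * (h ^ n)⁻¹) atTop (𝓝 1)

/-- The elements that are contracted by some element generate a dense subgroup. -/
def Gen (G : Type) [Group G] [TopologicalSpace G] : Prop :=
  ∀ S : Subgroup G, IsClosed (S : Set G) → (∀ h u : G, Contr h u → u ∈ S) → S = ⊤

/-- A letter of size `r`. -/
def Letter (a : A → G) (Z K : Set G) (r : ℝ) (g : G) : Prop :=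
  g ∈ K ∨ g ∈ Z ∨ ∃ t, ‖t‖ ≤ r ∧ g = a t

/-- Exponential decay of coefficients of unitary representations along some bounded words. -/
def Dec (a : A → G) (Z : Set G) : Prop :=
  ∀ (H : Type) [NormedAddCommGroup H] [InnerProductSpace ℝ H] [CompleteSpace H]
    (U : G →* (H →L[ℝ] H)), (∀ g ξ, ‖U g ξ‖ = ‖ξ‖) → (∀ ξ, Continuous fun g => U g ξ) →
    (∀ ξ, (∀ g, U g ξ = ξ) → ξ = 0) → ∀ ξ : H,
      ∃ (q : ℕ) (K : Set G) (κ C : ℝ), IsCompact K ∧ 0 < κ ∧ ∀ᶠ r : ℝ in atTop, ∃ l : List G,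
        l.length ≤ q ∧ (∀ g ∈ l, Letter a Z K r g) ∧ ⟪U l.prod ξ, ξ⟫ ≤ C * Real.exp (-(κ * r))

/-- Continuous homomorphisms into finite dimensional algebras have a derivative on `𝔤`. -/
def Der (G : Type) [Group G] [TopologicalSpace G] (𝔤 : Type) [LieRing 𝔤] [LieAlgebra ℝ 𝔤] : Prop :=
  ∀ (𝔸 : Type) [NormedRing 𝔸] [NormedAlgebra ℝ 𝔸] [FiniteDimensional ℝ 𝔸] (τ : G →* 𝔸),
    Continuous τ → ∃ d : 𝔤 →ₗ[ℝ] 𝔸, (∀ X Y, d ⁅X, Y⁆ = d X * d Y - d Y * d X) ∧
      (∀ (X : 𝔤) (t : ℝ), NormedSpace.exp (t • d X) ∈ range τ) ∧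
      (∀ (g : G) (X : 𝔤), ∃ Y, τ g * d X = d Y * τ g) ∧ ((∀ X, d X = 0) → ∀ g, τ g = 1)

end Amb

/-- Margulis' lemma: a section invariant under `a` lies in a finite dimensional invariant space of
sections on which the group acts continuously. -/
def MS {G A X : Type} [Group G] [TopologicalSpace G] [MeasurableSpace G] [MeasurableSpace X]
    [MulAction G X] (μ : Measure X) (a : A → G) : Prop :=
  ∀ (k V : Type) [NontriviallyNormedField k] [ProperSpace k] [NormedAddCommGroup V]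
    [NormedSpace k V] [FiniteDimensional k V] (c : G → X → V →L[k] V),
    StronglyMeasurable (fun p : G × X => c p.1 p.2) → (∀ x, c 1 x = 1) →
    (∀ g h x, c (g * h) x = c g (h • x) * c h x) → ∀ f : X → V, StronglyMeasurable f →
    (∀ t, ∀ᵐ x ∂μ, c (a t) x (f x) = f (a t • x)) →
    ∃ (n : ℕ) (w : Fin n → X → V) (τ : G →* Matrix (Fin n) (Fin n) k) (b : Fin n → k),
      Continuous τ ∧ (∀ j, StronglyMeasurable (w j)) ∧
      (∀ g j, ∀ᵐ x ∂μ, c g x (w j x) = ∑ i, τ g i j • w i (g • x)) ∧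
      (∀ v : Fin n → k, (∀ᵐ x ∂μ, ∑ j, v j • w j x = 0) → v = 0) ∧
      ∀ᵐ x ∂μ, f x = ∑ j, b j • w j x

/-- The conclusion of superrigidity for a group `Λ`: an infinite irreducible unitary action by
automorphisms of a simple complex Lie algebra makes it a quotient of the complexification of `𝔤`. -/
def Rigid (Λ : Type) [Group Λ] (𝔤 : Type) [LieRing 𝔤] [LieAlgebra ℝ 𝔤] : Prop :=
  ∀ (L : Type) [LieRing L] [LieAlgebra ℂ L] [LieAlgebra.IsSimple ℂ L] (d : ℕ)
    (b : Module.Basis (Fin d) ℂ L) (π : Λ →* Module.End ℂ L),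
    (∀ γ x y, π γ ⁅x, y⁆ = ⁅π γ x, π γ y⁆) →
    (∀ γ, LinearMap.toMatrix b b (π γ) ∈ Matrix.unitaryGroup (Fin d) ℂ) →
    (∀ W : Submodule ℂ L, (∀ γ, ∀ v ∈ W, π γ v ∈ W) → W = ⊥ ∨ W = ⊤) → (range π).Infinite →
    ∃ φ : ℂ ⊗[ℝ] 𝔤 →ₗ⁅ℂ⁆ L, Function.Surjective φ

/-- There is no nonzero homomorphism to the reals. -/
def NoChar (Λ : Type) [Group Λ] : Prop :=
  ∀ χ : Λ → ℝ, (∀ γ δ, χ (γ * δ) = χ γ + χ δ) → ∀ γ, χ γ = 0

namespace Sec

variable {G : Type} [Group G] [TopologicalSpace G] [MeasurableSpace G] {Γ : Subgroup G}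
  {X : Type} [MeasurableSpace X] [MulAction G X] (S : Sec Γ X)

instance : IsProbabilityMeasure S.μ := S.prob

/-- The return cocycle. -/
def β (g : G) (x : X) : Γ :=
  ⟨(S.s (g • x))⁻¹ * g * S.s x, (S.stab _).1 (by
    rw [mul_smul, mul_smul, S.s_o, inv_smul_eq_iff, S.s_o])⟩

theorem coe_β (g : G) (x : X) : (S.β g x : G) = (S.s (g • x))⁻¹ * g * S.s x := rfl

theorem β_one (x : X) : S.β 1 x = 1 := Subtype.ext (by simp [coe_β])

theorem β_mul (g h : G) (x : X) : S.β (g * h) x = S.β g (h • x) * S.β h x :=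
  Subtype.ext (by simp [coe_β, mul_smul, mul_assoc])

theorem conj_smul (γ : Γ) (x : X) : (S.s x * γ * (S.s x)⁻¹) • x = x := by
  have h : (S.s x)⁻¹ • x = S.o := by rw [inv_smul_eq_iff, S.s_o]
  rw [mul_smul, mul_smul, h, (S.stab _).2 γ.2, S.s_o]

theorem β_conj (γ : Γ) (x : X) : S.β (S.s x * γ * (S.s x)⁻¹) x = γ :=
  Subtype.ext (by rw [coe_β, S.conj_smul]; group)

include S in
theorem central_smul (γ : Γ) (hγ : (γ : G) ∈ Subgroup.center G) (x : X) : (γ : G) • x = x := by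
  have h := S.conj_smul γ x
  rwa [Subgroup.mem_center_iff.1 hγ, mul_inv_cancel_right] at h

theorem β_central (γ : Γ) (hγ : (γ : G) ∈ Subgroup.center G) (x : X) : S.β γ x = γ := by
  have h := S.β_conj γ x
  rwa [Subgroup.mem_center_iff.1 hγ, mul_inv_cancel_right] at h

theorem measurable_coe_β [MeasurableMul₂ G] [MeasurableInv G] [MeasurableSMul₂ G X] :
    Measurable fun p : G × X => (S.β p.1 p.2 : G) :=
  ((S.meas.comp (measurable_fst.smul measurable_snd)).inv.mul measurable_fst).mul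
    (S.meas.comp measurable_snd)

theorem measurableSet_β [MeasurableMul₂ G] [MeasurableInv G] [MeasurableSMul₂ G X]
    [MeasurableSingletonClass G] (γ : Γ) : MeasurableSet {p : G × X | S.β p.1 p.2 = γ} := by
  have : {p : G × X | S.β p.1 p.2 = γ} = (fun p : G × X => (S.β p.1 p.2 : G)) ⁻¹' {(γ : G)} := by
    ext p
    exact Subtype.ext_iff
  rw [this]
  exact S.measurable_coe_β (measurableSet_singleton _)

theorem stronglyMeasurable_comp_β [MeasurableMul₂ G] [MeasurableInv G] [MeasurableSMul₂ G X]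
    [MeasurableSingletonClass G] [Countable Γ] {Y : Type*} [TopologicalSpace Y]
    [TopologicalSpace.PseudoMetrizableSpace Y] (F : Γ → Y) :
    StronglyMeasurable fun p : G × X => F (S.β p.1 p.2) := by
  let : MeasurableSpace Γ := ⊤
  have h1 : Measurable fun p : G × X => S.β p.1 p.2 :=
    measurable_to_countable' fun γ => S.measurableSet_β γ
  borelize Y
  have h2 : StronglyMeasurable F := stronglyMeasurable_iff_measurable_separable.2
    ⟨measurable_from_top, (countable_range F).isSeparable⟩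
  exact h2.comp_measurable h1

end Sec

/-- All that superrigidity uses about the lattice `Γ` and the ambient group. -/
structure Good {G : Type} [Group G] [TopologicalSpace G] [MeasurableSpace G] {Γ : Subgroup G}
    {X : Type} [MeasurableSpace X] [MulAction G X] (S : Sec Γ X)
    {A : Type} [NormedAddCommGroup A] (a : A → G) where
  sys : Os.Sys A X S.μ
  act : ∀ t x, sys.act t x = a t • x
  add : ∀ t t', a (t + t') = a t * a t'
  fin : ∀ C : Set G, IsCompact C → {γ : Γ | (γ : G) ∈ C}.Finite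
  gen : Gen G
  dec : Dec a (Γ ∩ Subgroup.center G)
  ms : MS S.μ a
  met : ∀ (k V : Type) [NontriviallyNormedField k] [ProperSpace k] [NormedAddCommGroup V]
    [NormedSpace k V] [FiniteDimensional k V] (π : Γ →* (V →L[k] V)),
    ∃ (ι : Type) (_ : Fintype ι), Nonempty (Os.OseA sys (fun t x => π (S.β (a t) x)) ι)
  nc : NoChar Γ

end Pool.Agent.P.MP_d483fb_an.Z.SR

end

end

section

open scoped Topology ENNReal
open MeasureTheory Filter Set

set_option linter.unusedSectionVars false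

noncomputable section

namespace Pool.Agent.P.MP_d483fb_an.Z.SR

variable {A X V : Type} [NormedAddCommGroup A] [MeasurableSpace X] {μ : Measure X}
  [NormedAddCommGroup V] [NormedSpace ℂ V] [FiniteDimensional ℂ V] {sys : Os.Sys A X μ}
  {c : A → X → V →L[ℂ] V} {ι : Type} [Fintype ι]

theorem grade_est (o : Os.OseA sys c ι) (B : V →L[ℂ] V →L[ℂ] V)
    (hB : ∀ t x u v, c t x (B u v) = B (c t x u) (c t x v)) {x : X} (hx : x ∈ o.X0) {i j : ι}
    (l : ι) {u v : V} (hu : u ∈ o.D i x) (hv : v ∈ o.D j x) {ε : ℝ} (hε : 0 < ε) :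
    ∃ K : ℝ, 0 ≤ K ∧ ∀ s, ‖o.P l x (B u v)‖ ≤
      K * Real.exp (o.lam i s + o.lam j s - o.lam l s + 4 * ε * ‖s‖) := by
  obtain ⟨q, -, -, hq1, hq2⟩ := o.est ε hε
  refine ⟨Real.exp (4 * q x + o.B) * (‖B‖ * ‖u‖ * ‖v‖), by positivity, fun s => ?_⟩
  have h1 := (((hq2 x hx l).2 s) _ (o.P_mem x hx l (B u v))).2
  rw [← o.P_inv x hx, hB] at h1
  have h3 : ‖o.P l (sys.act s x)‖ ≤ Real.exp (q x + ε * ‖s‖ + o.B) :=
    (hq2 _ (o.inv0 s x hx) l).1.trans (Real.exp_le_exp.2 (hq1 s x hx))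
  have h5 := (((hq2 x hx i).2 s) u hu).1
  have h6 := (((hq2 x hx j).2 s) v hv).1
  calc ‖o.P l x (B u v)‖ ≤ Real.exp (q x - o.lam l s + ε * ‖s‖) *
        (‖o.P l (sys.act s x)‖ * (‖B‖ * ‖c s x u‖ * ‖c s x v‖)) := by
        refine h1.trans (mul_le_mul_of_nonneg_left (((o.P l _).le_opNorm _).trans ?_)
          (Real.exp_pos _).le)
        exact mul_le_mul_of_nonneg_left (B.le_opNorm₂ _ _) (norm_nonneg _)
    _ ≤ Real.exp (q x - o.lam l s + ε * ‖s‖) * (Real.exp (q x + ε * ‖s‖ + o.B) *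
        (‖B‖ * (Real.exp (q x + o.lam i s + ε * ‖s‖) * ‖u‖) *
          (Real.exp (q x + o.lam j s + ε * ‖s‖) * ‖v‖))) := by gcongr
    _ = Real.exp ((q x - o.lam l s + ε * ‖s‖) + (q x + ε * ‖s‖ + o.B) +
          (q x + o.lam i s + ε * ‖s‖) + (q x + o.lam j s + ε * ‖s‖)) * (‖B‖ * ‖u‖ * ‖v‖) := by
        simp only [Real.exp_add]
        ring
    _ = _ := by
        rw [mul_right_comm (Real.exp _), ← Real.exp_add]
        congr 2
        ring

theorem grade_le (o : Os.OseA sys c ι) (B : V →L[ℂ] V →L[ℂ] V)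
    (hB : ∀ t x u v, c t x (B u v) = B (c t x u) (c t x v)) {x : X} (hx : x ∈ o.X0) {i j l : ι}
    {u v : V} (hu : u ∈ o.D i x) (hv : v ∈ o.D j x) (h : o.P l x (B u v) ≠ 0) (s : A) :
    o.lam l s ≤ o.lam i s + o.lam j s := by
  by_contra hlt
  obtain ⟨δ, hδ, e⟩ : ∃ δ : ℝ, 0 < δ ∧ o.lam l s = o.lam i s + o.lam j s + δ :=
    ⟨_, sub_pos.2 (not_le.1 hlt), by ring⟩
  have hs : 0 < ‖s‖ + 1 := by positivity
  obtain ⟨K, hK, hb⟩ := grade_est o B hB hx l hu hv (ε := δ / (8 * (‖s‖ + 1))) (by positivity)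
  have h1 : 4 * (δ / (8 * (‖s‖ + 1))) * ‖s‖ ≤ δ / 2 := by
    rw [show 4 * (δ / (8 * (‖s‖ + 1))) * ‖s‖ = δ / 2 * (‖s‖ / (‖s‖ + 1)) by field_simp; ring]
    exact mul_le_of_le_one_right (by positivity) ((div_le_one hs).2 (by linarith))
  have h2 : ∀ n : ℕ, ‖o.P l x (B u v)‖ ≤ K * Real.exp (-(δ / 2)) ^ n := fun n => by
    refine (hb (n • s)).trans (mul_le_mul_of_nonneg_left ?_ hK)
    rw [← Real.exp_nat_mul, Real.exp_le_exp]
    simp only [map_nsmul, nsmul_eq_mul, e]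
    have h3 : 4 * (δ / (8 * (‖s‖ + 1))) * ‖n • s‖ ≤ 4 * (δ / (8 * (‖s‖ + 1))) * (n * ‖s‖) :=
      mul_le_mul_of_nonneg_left norm_nsmul_le (by positivity)
    have h4 := mul_le_mul_of_nonneg_left h1 (Nat.cast_nonneg (α := ℝ) n)
    nlinarith
  have h3 : Tendsto (fun n : ℕ => K * Real.exp (-(δ / 2)) ^ n) atTop (𝓝 (K * 0)) :=
    (tendsto_pow_atTop_nhds_zero_of_lt_one (Real.exp_pos _).le
      (Real.exp_lt_one_iff.2 (by linarith))).const_mul K
  rw [mul_zero] at h3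
  exact h (norm_le_zero_iff.1 (ge_of_tendsto' h3 h2))

theorem grade (o : Os.OseA sys c ι) (B : V →L[ℂ] V →L[ℂ] V)
    (hB : ∀ t x u v, c t x (B u v) = B (c t x u) (c t x v)) {x : X} (hx : x ∈ o.X0) {i j l : ι}
    {u v : V} (hu : u ∈ o.D i x) (hv : v ∈ o.D j x) (h : o.P l x (B u v) ≠ 0) (t : A) :
    o.lam l t = o.lam i t + o.lam j t := by
  have h1 := grade_le o B hB hx hu hv h t
  have h2 := grade_le o B hB hx hu hv h (-t)
  simp only [map_neg] at h2
  linarith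

theorem grade_eig (o : Os.OseA sys c ι) {x : X} (hx : x ∈ o.X0) (t : A) {i : ι} {u : V}
    (hu : u ∈ o.D i x) : (∑ l, (o.lam l t : ℂ) • o.P l x) u = (o.lam i t : ℂ) • u := by
  rw [_root_.sum_apply, Finset.sum_eq_single i]
  · rw [_root_.smul_apply, o.P_self x hx i u hu]
  · intro l _ hl
    rw [_root_.smul_apply, o.P_other x hx l i hl u hu, smul_zero]
  · simp

theorem grade_pure (o : Os.OseA sys c ι) (B : V →L[ℂ] V →L[ℂ] V)
    (hB : ∀ t x u v, c t x (B u v) = B (c t x u) (c t x v)) {x : X} (hx : x ∈ o.X0) (t : A)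
    {i j : ι} {u v : V} (hu : u ∈ o.D i x) (hv : v ∈ o.D j x) :
    (∑ i, (o.lam i t : ℂ) • o.P i x) (B u v) =
      B ((∑ i, (o.lam i t : ℂ) • o.P i x) u) v + B u ((∑ i, (o.lam i t : ℂ) • o.P i x) v) := by
  rw [grade_eig o hx t hu, grade_eig o hx t hv, map_smul, map_smul, _root_.smul_apply,
    ← add_smul, _root_.sum_apply]
  conv_rhs => rw [← o.P_sum x hx (B u v), Finset.smul_sum]
  refine Finset.sum_congr rfl fun l _ => ?_
  rw [_root_.smul_apply]
  by_cases h : o.P l x (B u v) = 0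
  · rw [h, smul_zero, smul_zero]
  · rw [grade o B hB hx hu hv h t, Complex.ofReal_add]

theorem grade_deriv (o : Os.OseA sys c ι) (B : V →L[ℂ] V →L[ℂ] V)
    (hB : ∀ t x u v, c t x (B u v) = B (c t x u) (c t x v)) {x : X} (hx : x ∈ o.X0) (t : A)
    (u v : V) : (∑ i, (o.lam i t : ℂ) • o.P i x) (B u v) =
      B ((∑ i, (o.lam i t : ℂ) • o.P i x) u) v + B u ((∑ i, (o.lam i t : ℂ) • o.P i x) v) := by
  have h := fun i j => grade_pure o B hB hx t (o.P_mem x hx i u) (o.P_mem x hx j v)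
  generalize (∑ i, (o.lam i t : ℂ) • o.P i x) = T at h ⊢
  rw [← o.P_sum x hx u, ← o.P_sum x hx v]
  simp only [map_sum, _root_.sum_apply, h, Finset.sum_add_distrib]

end Pool.Agent.P.MP_d483fb_an.Z.SR

end

end

section

open scoped Topology ENNReal Pointwise
open MeasureTheory Filter Set

set_option linter.unusedSectionVars false

noncomputable section

namespace Pool.Agent.P.MP_d483fb_an.Z.SR

variable {G : Type} [Group G] [TopologicalSpace G] [IsTopologicalGroup G] [LocallyCompactSpace G]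
  [T2Space G] [SecondCountableTopology G] [MeasurableSpace G] [BorelSpace G]

theorem steinhaus_cover (S : ℕ → Set G) (hS : ∀ j, MeasurableSet (S j)) (hc : ⋃ j, S j = univ) :
    ∃ j, {g | ∃ s ∈ S j, ∃ t ∈ S j, g = s⁻¹ * t} ∈ 𝓝 (1 : G) := by
  let μ : Measure G := Measure.haar
  have hpos : ∃ j, 0 < μ (S j)⁻¹ := by
    by_contra h
    simp only [not_exists, not_lt, nonpos_iff_eq_zero] at h
    have h1 : μ (⋃ j, (S j)⁻¹) = 0 := measure_iUnion_null h
    have h2 : ⋃ j, (S j)⁻¹ = univ := by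
      rw [eq_univ_iff_forall]
      intro g
      have : g⁻¹ ∈ ⋃ j, S j := hc ▸ mem_univ _
      obtain ⟨j, hj⟩ := mem_iUnion.1 this
      exact mem_iUnion.2 ⟨j, hj⟩
    rw [h2] at h1
    exact (isOpen_univ.measure_pos μ univ_nonempty).ne' h1
  obtain ⟨j, hj⟩ := hpos
  refine ⟨j, mem_of_superset (Measure.div_mem_nhds_one_of_haar_pos μ _ (hS j).inv hj) ?_⟩
  rintro _ ⟨a, ha, b, hb, rfl⟩
  exact ⟨a⁻¹, ha, b⁻¹, hb, by simp [div_eq_mul_inv]⟩

theorem measurable_koopman_dist {Ω : Type} [MeasurableSpace Ω] (ν : Measure Ω) [SigmaFinite ν]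
    (T : G → Ω → Ω) (hm : Measurable fun p : G × Ω => T p.1 p.2)
    (hp : ∀ g, MeasurePreserving (T g) ν ν) (U : G → Lp ℝ 2 ν → Lp ℝ 2 ν)
    (hU : ∀ g ξ, U g ξ =ᵐ[ν] fun ω => ξ (T g⁻¹ ω)) (ξ η : Lp ℝ 2 ν) :
    Measurable fun g => ‖U g ξ - η‖ := by
  have hξ : Measurable ξ := (Lp.stronglyMeasurable ξ).measurable
  have hη : Measurable η := (Lp.stronglyMeasurable η).measurable
  have h1 : Measurable fun p : G × Ω => T p.1⁻¹ p.2 :=
    hm.comp (measurable_fst.inv.prodMk measurable_snd)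
  have h2 : Measurable fun p : G × Ω => ‖ξ (T p.1⁻¹ p.2) - η p.2‖ₑ ^ (2 : ℝ≥0∞).toReal :=
    ((hξ.comp h1).sub (hη.comp measurable_snd)).enorm.pow_const _
  have h3 : (fun g => ‖U g ξ - η‖) = fun g =>
      ((∫⁻ ω, ‖ξ (T g⁻¹ ω) - η ω‖ₑ ^ (2 : ℝ≥0∞).toReal ∂ν) ^ (1 / (2 : ℝ≥0∞).toReal)).toReal := by
    funext g
    rw [Lp.norm_def, ← eLpNorm_eq_lintegral_rpow_enorm_toReal two_ne_zero ENNReal.ofNat_ne_top]
    congr 1
    refine eLpNorm_congr_ae ?_
    filter_upwards [Lp.coeFn_sub (U g ξ) η, hU g ξ] with ω e1 e2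
    rw [e1, Pi.sub_apply, e2]
  rw [h3]
  exact (h2.lintegral_prod_right'.pow_const _).ennreal_toReal

theorem koopman {Ω : Type} [MeasurableSpace Ω] [MeasurableSpace.CountablyGenerated Ω]
    (ν : Measure Ω) [SigmaFinite ν] (T : G → Ω → Ω) (hm : Measurable fun p : G × Ω => T p.1 p.2)
    (h1 : ∀ ω, T 1 ω = ω) (hmul : ∀ g h ω, T (g * h) ω = T g (T h ω))
    (hp : ∀ g, MeasurePreserving (T g) ν ν) :
    ∃ U : G →* (Lp ℝ 2 ν →L[ℝ] Lp ℝ 2 ν), (∀ g ξ, ‖U g ξ‖ = ‖ξ‖) ∧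
      (∀ ξ, Continuous fun g => U g ξ) ∧ ∀ g ξ, U g ξ =ᵐ[ν] fun ω => ξ (T g⁻¹ ω) := by
  let V : G → Lp ℝ 2 ν →L[ℝ] Lp ℝ 2 ν := fun g =>
    (Lp.compMeasurePreservingₗᵢ ℝ (T g⁻¹) (hp g⁻¹)).toContinuousLinearMap
  have hV : ∀ g ξ, V g ξ =ᵐ[ν] fun ω => ξ (T g⁻¹ ω) := fun g ξ =>
    Lp.coeFn_compMeasurePreserving ξ (hp g⁻¹)
  have hn : ∀ g ξ, ‖V g ξ‖ = ‖ξ‖ := fun g ξ => LinearIsometry.norm_map _ ξ
  have hone : V 1 = 1 := by
    ext1 ξ
    refine Lp.ext ((hV 1 ξ).trans (Eventually.of_forall fun ω => ?_))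
    simp [h1]
  have hm2 : ∀ g h, V (g * h) = V g * V h := by
    intro g h
    ext1 ξ
    refine Lp.ext ?_
    filter_upwards [hV (g * h) ξ, hV g (V h ξ), (hp g⁻¹).quasiMeasurePreserving.ae (hV h ξ)]
      with ω e1 e2 e3
    rw [e1, ContinuousLinearMap.mul_apply, e2, e3, mul_inv_rev, hmul]
  let U : G →* (Lp ℝ 2 ν →L[ℝ] Lp ℝ 2 ν) := ⟨⟨V, hone⟩, hm2⟩
  have hU : ∀ g, U g = V g := fun g => rfl
  refine ⟨U, hn, fun ξ => ?_, hV⟩
  have : Fact ((2 : ℝ≥0∞) ≠ ∞) := ⟨ENNReal.ofNat_ne_top⟩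
  obtain ⟨η, hη⟩ := TopologicalSpace.exists_dense_seq (Lp ℝ 2 ν)
  have hone' : ∀ ε > 0, ∀ᶠ g in 𝓝 (1 : G), ‖U g ξ - ξ‖ < ε := by
    intro ε hε
    obtain ⟨j, hj⟩ := steinhaus_cover (fun j => {g : G | ‖V g ξ - η j‖ < ε / 2})
      (fun j => measurableSet_lt (measurable_koopman_dist ν T hm hp (fun g ξ => V g ξ) hV ξ (η j))
        measurable_const) (by
        rw [eq_univ_iff_forall]
        intro g
        obtain ⟨j, hj⟩ := hη.exists_dist_lt (V g ξ) (half_pos hε)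
        exact mem_iUnion.2 ⟨j, by rwa [dist_eq_norm] at hj⟩)
    filter_upwards [hj]
    rintro _ ⟨s, hs, t, ht, rfl⟩
    have e1 : U s (U (s⁻¹ * t) ξ - ξ) = (V t ξ - η j) - (V s ξ - η j) := by
      rw [map_sub, ← ContinuousLinearMap.mul_apply, ← map_mul, mul_inv_cancel_left, hU, hU]
      abel
    rw [← hn s, ← hU, e1]
    refine (norm_sub_le _ _).trans_lt ?_
    have hs' : ‖V s ξ - η j‖ < ε / 2 := hs
    have ht' : ‖V t ξ - η j‖ < ε / 2 := ht
    linarith
  rw [continuous_iff_continuousAt]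
  intro g₀
  rw [ContinuousAt, Metric.tendsto_nhds]
  intro ε hε
  have ht : Tendsto (fun g => g₀⁻¹ * g) (𝓝 g₀) (𝓝 1) := by
    have := (continuous_const_mul g₀⁻¹).tendsto g₀
    rwa [inv_mul_cancel] at this
  filter_upwards [ht.eventually (hone' ε hε)] with g hg
  have e1 : U g₀ (U (g₀⁻¹ * g) ξ - ξ) = U g ξ - U g₀ ξ := by
    rw [map_sub, ← ContinuousLinearMap.mul_apply, ← map_mul, mul_inv_cancel_left]
  rw [dist_eq_norm, ← e1, hU g₀, hn]
  exact hg

end Pool.Agent.P.MP_d483fb_an.Z.SR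

end

end

section

open scoped Topology ENNReal
open MeasureTheory Filter Set

set_option linter.unusedSectionVars false

noncomputable section

namespace Pool.Agent.P.MP_d483fb_an.Z.SR

variable {k V : Type} [NontriviallyNormedField k] [ProperSpace k] [NormedAddCommGroup V] [NormedSpace k V]
  [FiniteDimensional k V]
  [ProperSpace V] [MeasurableSpace V] [BorelSpace V] (ν : Measure V) [ν.IsAddHaarMeasure]

/-- An operator of large norm expands some vector of the unit ball. -/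
theorem exists_long (C' : ℝ) (hC : 0 ≤ C') : ∃ C : ℝ, ∀ T : V →L[k] V, C ≤ ‖T‖ →
    ∃ v : V, ‖v‖ ≤ 1 ∧ C' ≤ ‖T v‖ := by
  obtain ⟨c, hc⟩ := NormedField.exists_one_lt_norm k
  have hc0 : 0 < ‖c‖ := one_pos.trans hc
  refine ⟨C' * ‖c‖ + 1, fun T hT => ?_⟩
  by_contra h
  push Not at h
  have : ‖T‖ ≤ C' * ‖c‖ := by
    refine ContinuousLinearMap.opNorm_le_of_shell one_pos (by positivity) hc fun x h1 h2 => ?_
    have h3 := (h x h2.le).le
    rw [div_le_iff₀ hc0] at h1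
    nlinarith
  linarith

theorem vol_thin (R : ℝ) {δ : ℝ≥0∞} (hδ : δ ≠ 0) : ∃ C : ℝ, ∀ T : V →L[k] V, C ≤ ‖T‖ →
    ν (Metric.closedBall 0 R ∩ T ⁻¹' Metric.closedBall 0 R) < δ := by
  obtain ⟨q, hq0, hq1⟩ := NormedField.exists_norm_lt_one k
  have hfin : ν (Metric.closedBall 0 (R + 1)) ≠ ∞ :=
    (isCompact_closedBall (0 : V) (R + 1)).measure_lt_top.ne
  obtain ⟨N, hN⟩ := ENNReal.exists_nat_mul_gt hδ hfin
  have hev : ∀ᶠ C : ℝ in atTop, ∀ i j : Fin N, i ≠ j →
      2 * R < ‖q ^ (i : ℕ) - q ^ (j : ℕ)‖ * C := by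
    refine eventually_all.2 fun i => eventually_all.2 fun j => ?_
    by_cases hij : i = j
    · exact Eventually.of_forall fun _ h => absurd hij h
    · have hpos : 0 < ‖q ^ (i : ℕ) - q ^ (j : ℕ)‖ := by
        rw [norm_pos_iff, sub_ne_zero]
        intro e
        have e2 := congrArg norm e
        rw [norm_pow, norm_pow] at e2
        exact hij (Fin.ext (pow_right_injective₀ hq0 hq1.ne e2))
      exact ((tendsto_id.const_mul_atTop hpos).eventually_gt_atTop (2 * R)).mono fun _ h _ => h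
  obtain ⟨C', hC', hC0⟩ := (hev.and (eventually_ge_atTop 0)).exists
  obtain ⟨C, hC⟩ := exists_long (k := k) (V := V) C' hC0
  refine ⟨C, fun T hT => ?_⟩
  obtain ⟨v, hv1, hv2⟩ := hC T hT
  set S : Set V := Metric.closedBall 0 R ∩ T ⁻¹' Metric.closedBall 0 R with hS
  have hSm : MeasurableSet S :=
    measurableSet_closedBall.inter (T.continuous.measurable measurableSet_closedBall)
  let A : Fin N → Set V := fun j => (fun x => x + q ^ (j : ℕ) • v) ⁻¹' S
  have hAm : ∀ j, MeasurableSet (A j) := fun j => (measurable_add_const _) hSm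
  have hAd : Pairwise (Function.onFun Disjoint A) := by
    intro i j hij
    refine Set.disjoint_left.2 fun x hi hj => ?_
    have h1 : ‖T (x + q ^ (i : ℕ) • v)‖ ≤ R := by simpa using hi.2
    have h2 : ‖T (x + q ^ (j : ℕ) • v)‖ ≤ R := by simpa using hj.2
    have h3 : (q ^ (i : ℕ) - q ^ (j : ℕ)) • T v =
        T (x + q ^ (i : ℕ) • v) - T (x + q ^ (j : ℕ) • v) := by
      simp [sub_smul]
    have h4 := norm_sub_le (T (x + q ^ (i : ℕ) • v)) (T (x + q ^ (j : ℕ) • v))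
    rw [← h3, norm_smul] at h4
    have h5 := hC' i j hij
    have h6 := mul_le_mul_of_nonneg_left hv2 (norm_nonneg (q ^ (i : ℕ) - q ^ (j : ℕ)))
    linarith
  have hAs : ⋃ j, A j ⊆ Metric.closedBall 0 (R + 1) := by
    refine iUnion_subset fun j x hx => ?_
    have h1 : ‖x + q ^ (j : ℕ) • v‖ ≤ R := by simpa using hx.1
    have h2 : ‖q ^ (j : ℕ) • v‖ ≤ 1 := by
      rw [norm_smul, norm_pow]
      exact mul_le_one₀ (pow_le_one₀ hq0.le hq1.le) (norm_nonneg _) hv1
    have h3 := norm_sub_le (x + q ^ (j : ℕ) • v) (q ^ (j : ℕ) • v)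
    rw [add_sub_cancel_right] at h3
    rw [mem_closedBall_zero_iff]
    linarith
  have hm := measure_mono (μ := ν) hAs
  rw [measure_iUnion hAd hAm, tsum_fintype] at hm
  have hA : ∀ j, ν (A j) = ν S := fun j => measure_preimage_add_right ν _ S
  simp only [hA, Finset.sum_const, Finset.card_univ, Fintype.card_fin, nsmul_eq_mul] at hm
  by_contra h
  exact absurd (hN.trans_le ((mul_le_mul_right (not_lt.1 h) _).trans hm)) (lt_irrefl _)

include k in
theorem vol_ball : ∃ c D : ℝ, 0 < c ∧ 0 ≤ D ∧ ∀ t : ℝ, 0 ≤ t →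
    ENNReal.ofReal (c * Real.exp (-(D * t))) ≤ ν (Metric.closedBall 0 (Real.exp (-t))) := by
  obtain ⟨p, hp⟩ := NormedField.exists_one_lt_norm k
  have hp0 : 0 < ‖p‖ := one_pos.trans hp
  have hpn : p ≠ 0 := norm_pos_iff.1 hp0
  let φ : V ≃ₜ+ V :=
    (ContinuousLinearEquiv.smulLeft (R₁ := k) (M₁ := V) (Units.mk0 p hpn)).toContinuousAddEquiv
  have hφ : ∀ x, φ x = p • x := fun x => rfl
  set L := Real.log ‖p‖ with hL
  have hL0 : 0 < L := Real.log_pos hp
  set E : ℝ := ((addEquivAddHaarChar φ : NNReal) : ℝ) with hE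
  have hE0 : 0 ≤ E := NNReal.coe_nonneg _
  have hfin : ∀ r : ℝ, ν (Metric.closedBall 0 r) ≠ ∞ := fun r =>
    (isCompact_closedBall (0 : V) r).measure_lt_top.ne
  let m : ℕ → ℝ := fun j => ν.real (Metric.closedBall 0 (Real.exp (-(j * L))))
  have hm0 : 0 < m 0 := by
    refine ENNReal.toReal_pos (Metric.measure_closedBall_pos ν _ (Real.exp_pos _)).ne' (hfin _)
  have hstep : ∀ j, m j = E * m (j + 1) := by
    intro j
    have h1 := addEquivAddHaarChar_smul_preimage ν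
      (X := Metric.closedBall (0 : V) (Real.exp (-(j * L)))) φ
    have h2 : φ ⁻¹' Metric.closedBall (0 : V) (Real.exp (-(j * L))) =
        Metric.closedBall (0 : V) (Real.exp (-(((j + 1 : ℕ) : ℝ) * L))) := by
      ext x
      have e : Real.exp (-(j * L)) = ‖p‖ * Real.exp (-(((j + 1 : ℕ) : ℝ) * L)) := by
        conv_rhs => rw [← Real.exp_log hp0, ← Real.exp_add]
        congr 1
        push_cast
        ring
      rw [mem_preimage, hφ, mem_closedBall_zero_iff, mem_closedBall_zero_iff, norm_smul, e,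
        mul_le_mul_iff_right₀ hp0]
    rw [h2] at h1
    have h3 := congrArg ENNReal.toReal h1
    rw [ENNReal.toReal_smul] at h3
    exact h3.symm
  have hlow : ∀ j : ℕ, m 0 * Real.exp (-(E * j)) ≤ m j := by
    intro j
    induction j with
    | zero => simp
    | succ j ih =>
      have h1 : E ≤ Real.exp E := by linarith [Real.add_one_le_exp E]
      have h2 : 0 ≤ m (j + 1) := measureReal_nonneg
      have h3 : m j ≤ Real.exp E * m (j + 1) := by
        rw [hstep j]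
        exact mul_le_mul_of_nonneg_right h1 h2
      have h4 : Real.exp (-(E * j)) = Real.exp E * Real.exp (-(E * ((j + 1 : ℕ) : ℝ))) := by
        rw [← Real.exp_add]
        congr 1
        push_cast
        ring
      rw [h4, mul_left_comm] at ih
      exact le_of_mul_le_mul_left (ih.trans h3) (Real.exp_pos E)
  refine ⟨m 0 * Real.exp (-E), E / L, by positivity, by positivity, fun t ht => ?_⟩
  have h1 : t / L ≤ (⌈t / L⌉₊ : ℝ) := Nat.le_ceil _
  have h2 : (⌈t / L⌉₊ : ℝ) ≤ t / L + 1 := (Nat.ceil_lt_add_one (by positivity)).le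
  have h3 : Real.exp (-(⌈t / L⌉₊ * L)) ≤ Real.exp (-t) := by
    rw [div_le_iff₀ hL0] at h1
    exact Real.exp_le_exp.2 (neg_le_neg h1)
  refine le_trans ?_ (measure_mono (Metric.closedBall_subset_closedBall h3))
  refine ENNReal.ofReal_le_of_le_toReal (le_trans ?_ (hlow ⌈t / L⌉₊))
  rw [mul_assoc, ← Real.exp_add]
  refine mul_le_mul_of_nonneg_left (Real.exp_le_exp.2 ?_) hm0.le
  have h4 := mul_le_mul_of_nonneg_left h2 hE0
  have h5 : E / L * t = E * (t / L) := by ring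
  linarith

theorem norm_ge_of_mp [Nontrivial V] :
    ∃ r : ℝ, 0 < r ∧ ∀ T : V →L[k] V, MeasurePreserving T ν ν → r ≤ ‖T‖ := by
  obtain ⟨C, hC⟩ := vol_thin (k := k) ν 1 (Metric.measure_closedBall_pos ν (0 : V) one_pos).ne'
  obtain ⟨c, hc⟩ := NormedField.exists_lt_norm k (max C 1)
  have hc1 : 1 < ‖c‖ := (le_max_right _ _).trans_lt hc
  have hc0 : 0 < ‖c‖ := one_pos.trans hc1
  have h1 := hC (c • ContinuousLinearMap.id k V) (by
    rw [norm_smul, ContinuousLinearMap.norm_id, mul_one]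
    exact ((le_max_left _ _).trans_lt hc).le)
  refine ⟨‖c‖⁻¹, by positivity, fun T hT => ?_⟩
  by_contra h
  have h2 : Metric.closedBall (0 : V) 1 ⊆ T ⁻¹' Metric.closedBall 0 ‖c‖⁻¹ := by
    intro x hx
    rw [mem_closedBall_zero_iff] at hx
    rw [mem_preimage, mem_closedBall_zero_iff]
    exact (T.le_of_opNorm_le_of_le (not_le.1 h).le hx).trans_eq (mul_one _)
  have h3 : Metric.closedBall (0 : V) ‖c‖⁻¹ ⊆ Metric.closedBall 0 1 ∩
      (c • ContinuousLinearMap.id k V) ⁻¹' Metric.closedBall 0 1 := by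
    intro x hx
    rw [mem_closedBall_zero_iff] at hx
    refine ⟨mem_closedBall_zero_iff.2 (hx.trans (inv_le_one_of_one_le₀ hc1.le)), ?_⟩
    rw [mem_preimage, mem_closedBall_zero_iff]
    change ‖c • x‖ ≤ 1
    rw [norm_smul]
    exact (mul_le_mul_of_nonneg_left hx hc0.le).trans_eq (mul_inv_cancel₀ hc0.ne')
  have h4 := measure_mono (μ := ν) h2
  rw [hT.measure_preimage measurableSet_closedBall.nullMeasurableSet] at h4
  exact absurd ((h4.trans (measure_mono h3)).trans_lt h1) (lt_irrefl _)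

theorem mp_of_noChar {Λ : Type} [Group Λ] (h : NoChar Λ) (π : Λ →* (V →L[k] V)) (γ : Λ) :
    MeasurePreserving (π γ) ν ν := by
  have hinv : ∀ (g : Λ) (x : V), π g⁻¹ (π g x) = x := fun g x => by
    rw [← mul_apply_eq_comp, ← map_mul, inv_mul_cancel, map_one, one_apply_eq_self]
  let φ : Λ → V ≃ₜ+ V := fun g =>
    (ContinuousLinearEquiv.equivOfInverse (π g) (π g⁻¹) (hinv g)
      (fun x => by simpa using hinv g⁻¹ x)).toContinuousAddEquiv
  have hφ : ∀ g x, φ g x = π g x := fun g x => rfl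
  have hmul : ∀ g d, φ (g * d) = (φ d).trans (φ g) := by
    intro g d
    ext x
    rw [hφ, map_mul]
    rfl
  have hpos : ∀ g, (0 : ℝ) < addEquivAddHaarChar (φ g) := fun g =>
    NNReal.coe_pos.2 (addEquivAddHaarChar_pos _)
  have h0 := h (fun g => Real.log (addEquivAddHaarChar (φ g))) (fun g d => by
    rw [hmul, addEquivAddHaarChar_trans, NNReal.coe_mul, Real.log_mul (hpos d).ne' (hpos g).ne',
      add_comm]) γ
  have h1 : addEquivAddHaarChar (φ γ) = 1 :=
    NNReal.coe_eq_one.1 (Real.eq_one_of_pos_of_log_eq_zero (hpos γ) h0)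
  have h2 := addEquivAddHaarChar_smul_map ν (φ γ)
  rw [h1, one_smul] at h2
  exact ⟨(π γ).continuous.measurable, h2⟩

end Pool.Agent.P.MP_d483fb_an.Z.SR

end

end

section

open scoped Topology ENNReal
open MeasureTheory Filter Set

set_option linter.unusedSectionVars false

noncomputable section

namespace Pool.Agent.P.MP_d483fb_an.Z.SR

variable {G : Type} [Group G] [TopologicalSpace G] [IsTopologicalGroup G] [LocallyCompactSpace G]
  [T2Space G] [SecondCountableTopology G] [MeasurableSpace G] [BorelSpace G]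
  {Γ : Subgroup G} [Countable Γ] {X : Type} [MeasurableSpace X] [MulAction G X]
  [MeasurableSMul₂ G X]
  {k V : Type} [NontriviallyNormedField k] [ProperSpace k] [NormedAddCommGroup V] [NormedSpace k V]
  [FiniteDimensional k V]
  {S : Sec Γ X} {A : Type} [NormedAddCommGroup A] {a : A → G}

theorem exists_meas_le {Y : Type} [MeasurableSpace Y] (μ : Measure Y) [IsFiniteMeasure μ]
    (E : ℕ → Set Y) (hm : ∀ n, MeasurableSet (E n)) (ha : Antitone E) (he : ⋂ n, E n = ∅)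
    {δ : ℝ≥0∞} (hδ : δ ≠ 0) : ∃ n, μ (E n) ≤ δ := by
  have h := tendsto_measure_iInter_atTop (μ := μ) (fun n => (hm n).nullMeasurableSet) ha
    ⟨0, measure_ne_top _ _⟩
  rw [he, measure_empty] at h
  exact (h.eventually (ge_mem_nhds (pos_iff_ne_zero.2 hδ))).exists

theorem Sec.meas_pre_le (S : Sec Γ X) (g : G) (E : Set X) :
    S.μ ((fun x : X => g • x) ⁻¹' E) ≤ S.μ E := by
  have h := Measure.le_map_apply (μ := S.μ) (S.inv g).measurable.aemeasurable E
  rwa [(S.inv g).map_eq] at h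

theorem Good.cpt_bound (hG : Good S a) (π : Γ →* (V →L[k] V)) {K : Set G} (hK : IsCompact K)
    {δ : ℝ≥0∞} (hδ : δ ≠ 0) :
    ∃ Q : ℝ, ∀ g ∈ K, S.μ {x | Real.exp Q < ‖π (S.β g x)‖} ≤ δ := by
  obtain ⟨n, hn⟩ := exists_meas_le S.μ (fun n => S.s ⁻¹' (compactCovering G n)ᶜ)
    (fun n => S.meas (isCompact_compactCovering G n).isClosed.measurableSet.compl)
    (fun m n hmn => preimage_mono (compl_subset_compl.2 (compactCovering_subset G hmn)))
    (by rw [← preimage_iInter, ← compl_iUnion, iUnion_compactCovering, compl_univ, preimage_empty])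
    (ENNReal.half_pos hδ).ne'
  have hO := isCompact_compactCovering G n
  have hc : IsCompact ((fun p : G × G × G => p.1⁻¹ * p.2.1 * p.2.2) ''
      (compactCovering G n ×ˢ K ×ˢ compactCovering G n)) :=
    (hO.prod (hK.prod hO)).image (by fun_prop)
  obtain ⟨C, hC⟩ := ((hG.fin _ hc).image fun γ => ‖π γ‖).bddAbove
  refine ⟨C, fun g hg => ?_⟩
  have hsub : {x | Real.exp C < ‖π (S.β g x)‖} ⊆
      (fun x : X => g • x) ⁻¹' (S.s ⁻¹' (compactCovering G n)ᶜ) ∪
        S.s ⁻¹' (compactCovering G n)ᶜ := by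
    intro x hx
    by_contra hno
    simp only [mem_union, mem_preimage, mem_compl_iff, not_or, not_not] at hno
    have h1 : ‖π (S.β g x)‖ ≤ C :=
      hC ⟨S.β g x, ⟨(S.s (g • x), g, S.s x), ⟨hno.1, hg, hno.2⟩, rfl⟩, rfl⟩
    have h2 := Real.add_one_le_exp C
    have h3 : Real.exp C < ‖π (S.β g x)‖ := hx
    linarith
  calc S.μ {x | Real.exp C < ‖π (S.β g x)‖} ≤ _ := measure_mono hsub
    _ ≤ _ := measure_union_le _ _
    _ ≤ δ / 2 + δ / 2 := add_le_add ((S.meas_pre_le g _).trans hn) hn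
    _ = δ := ENNReal.add_halves δ

theorem Sec.word_bound (S : Sec Γ X) (π : Γ →* (V →L[k] V)) {Q : ℝ} (hQ : 0 ≤ Q) {δ : ℝ≥0∞}
    (l : List G) (h : ∀ g ∈ l, S.μ {x | Real.exp Q < ‖π (S.β g x)‖} ≤ δ) :
    S.μ {x | Real.exp (l.length * Q) < ‖π (S.β l.prod x)‖} ≤ l.length * δ := by
  induction l with
  | nil =>
    have he : {x | Real.exp ((([] : List G).length : ℝ) * Q) < ‖π (S.β ([] : List G).prod x)‖}
        = ∅ := by
      refine eq_empty_of_forall_notMem fun x hx => ?_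
      have h1 : Real.exp ((([] : List G).length : ℝ) * Q) < ‖π (S.β ([] : List G).prod x)‖ := hx
      rw [List.prod_nil, S.β_one, map_one, List.length_nil, Nat.cast_zero, zero_mul,
        Real.exp_zero] at h1
      exact absurd h1 (not_lt.2 ContinuousLinearMap.norm_id_le)
    rw [he, measure_empty]
    exact zero_le
  | cons g l ih =>
    have hsub : {x | Real.exp (((g :: l).length : ℝ) * Q) < ‖π (S.β (g :: l).prod x)‖} ⊆
        {x | Real.exp (l.length * Q) < ‖π (S.β l.prod x)‖} ∪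
          (fun x : X => l.prod • x) ⁻¹' {x | Real.exp Q < ‖π (S.β g x)‖} := by
      intro x hx
      by_contra hno
      simp only [mem_union, mem_preimage, mem_ofPred_eq, not_or, not_lt] at hno
      have h1 : Real.exp (((g :: l).length : ℝ) * Q) < ‖π (S.β (g :: l).prod x)‖ := hx
      rw [List.prod_cons, S.β_mul, map_mul, List.length_cons, Nat.cast_succ, add_mul, one_mul,
        Real.exp_add, mul_comm] at h1
      exact absurd h1 (not_lt.2 ((ContinuousLinearMap.opNorm_comp_le _ _).trans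
        (mul_le_mul hno.2 hno.1 (norm_nonneg _) (Real.exp_pos _).le)))
    calc _ ≤ _ := measure_mono hsub
      _ ≤ _ := measure_union_le _ _
      _ ≤ l.length * δ + δ := add_le_add (ih fun g' hg' => h g' (List.mem_cons_of_mem _ hg'))
          ((S.meas_pre_le _ _).trans (h g List.mem_cons_self))
      _ = _ := by rw [List.length_cons, Nat.cast_succ, add_mul, one_mul]

theorem Good.subexp_of_lam (hG : Good S a) (π : Γ →* (V →L[k] V)) {ι : Type} [Fintype ι]
    (o : Os.OseA hG.sys (fun t x => π (S.β (a t) x)) ι) (h : ∀ i t, o.lam i t = 0) {ε : ℝ}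
    (hε : 0 < ε) {δ : ℝ≥0∞} (hδ : δ ≠ 0) :
    ∃ Q : ℝ, ∀ t, S.μ {x | Real.exp (Q + ε * ‖t‖) < ‖π (S.β (a t) x)‖} ≤ δ := by
  obtain ⟨q, hqm, -, -, hq⟩ := o.est ε hε
  obtain ⟨n, hn⟩ := exists_meas_le S.μ (fun n : ℕ => {x | (n : ℝ) < q x})
    (fun n => measurableSet_lt measurable_const hqm)
    (fun m n hmn x hx => lt_of_le_of_lt (Nat.cast_le.2 hmn : (m : ℝ) ≤ n) hx)
    (eq_empty_of_forall_notMem fun x hx => by
      obtain ⟨m, hm⟩ := exists_nat_ge (q x)
      exact absurd (mem_iInter.1 hx m) (not_lt.2 hm)) hδ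
  refine ⟨Fintype.card ι + 2 * n, fun t => le_trans (measure_mono_ae ?_) hn⟩
  filter_upwards [o.ae0] with x hx0 hx
  by_contra hno
  have hqx : q x ≤ n := not_lt.1 hno
  have h3 : Real.exp (Fintype.card ι + 2 * n + ε * ‖t‖) < ‖π (S.β (a t) x)‖ := hx
  refine absurd h3 (not_lt.2 (ContinuousLinearMap.opNorm_le_bound _ (Real.exp_pos _).le
    fun v => ?_))
  have hi : ∀ i, ‖π (S.β (a t) x) (o.P i x v)‖ ≤ Real.exp (2 * n + ε * ‖t‖) * ‖v‖ := by
    intro i
    obtain ⟨hP, hA⟩ := hq x hx0 i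
    have h1 := (hA t _ (o.P_mem x hx0 i v)).1
    rw [h i t, add_zero] at h1
    have h2 : ‖o.P i x v‖ ≤ Real.exp (q x) * ‖v‖ :=
      ((o.P i x).le_opNorm v).trans (mul_le_mul_of_nonneg_right hP (norm_nonneg _))
    refine h1.trans ((mul_le_mul_of_nonneg_left h2 (Real.exp_pos _).le).trans ?_)
    rw [← mul_assoc, ← Real.exp_add]
    exact mul_le_mul_of_nonneg_right (Real.exp_le_exp.2 (by linarith)) (norm_nonneg _)
  calc ‖π (S.β (a t) x) v‖ = ‖∑ i, π (S.β (a t) x) (o.P i x v)‖ := by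
        rw [← map_sum, o.P_sum x hx0]
    _ ≤ ∑ _i : ι, Real.exp (2 * n + ε * ‖t‖) * ‖v‖ :=
        (norm_sum_le _ _).trans (Finset.sum_le_sum fun i _ => hi i)
    _ = Fintype.card ι * (Real.exp (2 * n + ε * ‖t‖) * ‖v‖) := by
        rw [Finset.sum_const, Finset.card_univ, nsmul_eq_mul]
    _ ≤ Real.exp (Fintype.card ι) * (Real.exp (2 * n + ε * ‖t‖) * ‖v‖) :=
        mul_le_mul_of_nonneg_right (by linarith [Real.add_one_le_exp (Fintype.card ι : ℝ)])
          (by positivity)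
    _ = _ := by rw [← mul_assoc, ← Real.exp_add, add_assoc]

end Pool.Agent.P.MP_d483fb_an.Z.SR

end

end

section

open scoped Topology ENNReal Matrix
open MeasureTheory Filter Set

set_option linter.unusedSectionVars false

noncomputable section

namespace Pool.Agent.P.MP_d483fb_an.Z.SR

variable {G : Type} [Group G] [TopologicalSpace G] [IsTopologicalGroup G] [LocallyCompactSpace G]
  [T2Space G] [SecondCountableTopology G] [MeasurableSpace G] [BorelSpace G]
  {Γ : Subgroup G} [Countable Γ] {X : Type} [MeasurableSpace X] [MulAction G X]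
  [MeasurableSMul₂ G X]
  {k V : Type} [NontriviallyNormedField k] [ProperSpace k] [NormedAddCommGroup V] [NormedSpace k V]
  [FiniteDimensional k V]
  {S : Sec Γ X} {A : Type} [NormedAddCommGroup A] {a : A → G}

/-- Evaluation of a combination of sections at a point. -/
def Phi_ev {n : ℕ} (w : Fin n → X → V) (y : X) : (Fin n → k) →ₗ[k] V :=
  Fintype.linearCombination k fun j => w j y

theorem Phi_ev_apply {n : ℕ} (w : Fin n → X → V) (y : X) (v : Fin n → k) :
    Phi_ev w y v = ∑ j, v j • w j y := Fintype.linearCombination_apply _ _ _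

theorem Phi_good {n : ℕ} {w : Fin n → X → V} {x y : X} {c : V →L[k] V}
    {M : Matrix (Fin n) (Fin n) k} (h : ∀ j, c (w j x) = ∑ i, M i j • w i y) (v : Fin n → k) :
    c (Phi_ev w x v) = Phi_ev w y (M *ᵥ v) := by
  simp only [Phi_ev_apply, map_sum, map_smul, h, Finset.smul_sum, Matrix.mulVec, dotProduct,
    Finset.sum_smul, smul_smul]
  rw [Finset.sum_comm]
  simp only [mul_comm]

theorem Good.extend (hG : Good S a) (π : Γ →* (V →L[k] V)) (f : X → V)
    (hf : StronglyMeasurable f) (hinv : ∀ t, ∀ᵐ x ∂S.μ, π (S.β (a t) x) (f x) = f (a t • x))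
    (T : Set V) (hT : ∀ᵐ x ∂S.μ, f x ∈ T) :
    ∃ (n : ℕ) (τ : G →* Matrix (Fin n) (Fin n) k) (Φ : (Fin n → k) →ₗ[k] V), Continuous τ ∧
      (∀ (γ : Γ) (v : Fin n → k), Φ (τ γ *ᵥ v) = π γ (Φ v)) ∧ ∃ v, Φ v ∈ T := by
  obtain ⟨n, w, τ, b, hτ, hw, hc, -, hb⟩ := hG.ms k V (fun g x => π (S.β g x))
    (S.stronglyMeasurable_comp_β π) (fun x => by rw [S.β_one, map_one])
    (fun g h x => by rw [S.β_mul, map_mul]) f hf hinv
  let m : Measure G := Measure.haar
  have hm : MeasurableSet {p : G × X |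
      ∀ j, π (S.β p.1 p.2) (w j p.2) = ∑ i, τ p.1 i j • w i (p.1 • p.2)} := by
    rw [ofPred_forall]
    refine MeasurableSet.iInter fun j => StronglyMeasurable.measurableSet_eq_fun ?_ ?_
    · exact (continuous_fst.clm_apply continuous_snd).comp_stronglyMeasurable
        ((S.stronglyMeasurable_comp_β π).prodMk ((hw j).comp_measurable measurable_snd))
    · refine Finset.stronglyMeasurable_fun_sum _ fun i _ => StronglyMeasurable.smul ?_ ?_
      · exact (hτ.matrix_elem i j).stronglyMeasurable.comp_measurable measurable_fst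
      · exact (hw i).comp_measurable (measurable_fst.smul measurable_snd)
  have h1 : ∀ᵐ x ∂S.μ, ∀ᵐ g ∂m, ∀ j, π (S.β g x) (w j x) = ∑ i, τ g i j • w i (g • x) :=
    (Measure.ae_ae_comm (μ := m) (ν := S.μ)
      (p := fun g x => ∀ j, π (S.β g x) (w j x) = ∑ i, τ g i j • w i (g • x)) hm).1
      (Eventually.of_forall fun g => ae_all_iff.2 (hc g))
  obtain ⟨x, hx, hxb, hxT⟩ := (h1.and (hb.and hT)).exists
  have key : ∀ (γ : Γ) (v : Fin n → k),
      π γ (Phi_ev w x v) = Phi_ev w x (τ (S.s x * γ * (S.s x)⁻¹) *ᵥ v) := by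
    intro γ v
    have h2 := (quasiMeasurePreserving_mul_right m (S.s x * γ * (S.s x)⁻¹)).ae hx
    have : (ae m).NeBot := ae_neBot.2 (NeZero.ne m)
    obtain ⟨g, g1, g2⟩ := (hx.and h2).exists
    have e1 := Phi_good g1 (τ (S.s x * γ * (S.s x)⁻¹) *ᵥ v)
    have e2 := Phi_good g2 v
    rw [S.β_mul, mul_smul g, S.conj_smul, S.β_conj, map_mul, map_mul τ g,
      ← Matrix.mulVec_mulVec, ← e1, mul_apply_eq_comp] at e2
    have e3 := congrArg (π (S.β g x)⁻¹) e2
    simpa only [← mul_apply_eq_comp, ← mul_assoc, ← map_mul, inv_mul_cancel, map_one,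
      one_mul, one_apply_eq_self] using e3
  refine ⟨n, τ, (Phi_ev w x).comp (Matrix.mulVecLin (τ (S.s x))), hτ, fun γ v => ?_,
    τ (S.s x)⁻¹ *ᵥ b, ?_⟩
  · simp only [LinearMap.comp_apply, Matrix.mulVecLin_apply]
    rw [key, Matrix.mulVec_mulVec, Matrix.mulVec_mulVec, ← map_mul, ← map_mul,
      inv_mul_cancel_right]
  · simp only [LinearMap.comp_apply, Matrix.mulVecLin_apply]
    rw [Matrix.mulVec_mulVec, ← map_mul, mul_inv_cancel, map_one, Matrix.one_mulVec,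
      Phi_ev_apply, ← hxb]
    exact hxT

end Pool.Agent.P.MP_d483fb_an.Z.SR

end

end

section

open scoped Topology TensorProduct
open Filter Set

set_option linter.unusedSectionVars false

noncomputable section

namespace Pool.Agent.P.MP_d483fb_an.Z.SR

variable {G : Type} [Group G] [TopologicalSpace G] {𝔤 : Type} [LieRing 𝔤] [LieAlgebra ℝ 𝔤]
  {V : Type} [NormedAddCommGroup V] [NormedSpace ℂ V] [FiniteDimensional ℂ V]

/-- The generator of a one-parameter group of automorphisms of a bilinear map is a derivation. -/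
theorem deriv_of_exp_aut (B : V →L[ℂ] V →L[ℂ] V) (D : V →L[ℂ] V)
    (h : ∀ (t : ℝ) x y, NormedSpace.exp (t • D) (B x y) =
      B (NormedSpace.exp (t • D) x) (NormedSpace.exp (t • D) y)) (x y : V) :
    D (B x y) = B (D x) y + B x (D y) := by
  have : CompleteSpace V := FiniteDimensional.complete ℂ V
  have h0 : HasDerivAt (fun t : ℝ => NormedSpace.exp (t • D)) D 0 := by
    simpa using hasDerivAt_exp_smul_const (𝕂 := ℝ) D (0 : ℝ)
  have h1 : ∀ v : V, HasDerivAt (fun t : ℝ => NormedSpace.exp (t • D) v) (D v) 0 := fun v =>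
    (((ContinuousLinearMap.apply ℂ V v).restrictScalars ℝ).hasFDerivAt.comp_hasDerivAt 0 h0)
  have h2 := (B.bilinearRestrictScalars ℝ).hasDerivAt_of_bilinear (fun _ => h1 x) (fun _ => h1 y)
  have h3 := h1 (B x y)
  simp only [h] at h3
  have h4 := h3.unique h2
  simpa [add_comm] using h4

theorem lie_surj (hd : Der G 𝔤) (B : V →L[ℂ] V →L[ℂ] V)
    (jac : ∀ u v, B (B u v) = B u * B v - B v * B u)
    (inner : ∀ D : V →L[ℂ] V, (∀ x y, D (B x y) = B (D x) y + B x (D y)) → ∃ h, D = B h)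
    (inj : Function.Injective B) (τ : G →* (V →L[ℂ] V)) (hτ : Continuous τ)
    (aut : ∀ g x y, τ g (B x y) = B (τ g x) (τ g y))
    (irr : ∀ W : Submodule ℂ V, (∀ g, ∀ v ∈ W, τ g v ∈ W) → W = ⊥ ∨ W = ⊤)
    (hne : ∃ g, τ g ≠ 1) :
    ∃ ψ : 𝔤 →ₗ[ℝ] V, (∀ X Y, ψ ⁅X, Y⁆ = B (ψ X) (ψ Y)) ∧ Submodule.span ℂ (range ψ) = ⊤ := by
  have : FiniteDimensional ℝ (V →L[ℂ] V) := Module.Finite.trans ℂ _
  obtain ⟨d, hbr, hexp, hconj, hzero⟩ := hd (V →L[ℂ] V) τ hτ
  have hder : ∀ X, ∃ h, d X = B h := fun X => by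
    refine inner _ (deriv_of_exp_aut B _ fun t x y => ?_)
    obtain ⟨g, hg⟩ := hexp X t
    rw [← hg]
    exact aut g x y
  choose ψ hψ using hder
  let ψl : 𝔤 →ₗ[ℝ] V :=
    { toFun := ψ
      map_add' := fun X Y => inj (by rw [← hψ, map_add, map_add, hψ, hψ])
      map_smul' := fun t X => inj (by
        rw [← hψ, map_smul, hψ, RingHom.id_apply, ContinuousLinearMap.map_smul_of_tower]) }
  have hψl : ∀ X, d X = B (ψl X) := hψ
  refine ⟨ψl, fun X Y => inj (by rw [← hψl, hbr, jac, ← hψl, ← hψl]), ?_⟩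
  have hinv : ∀ g X, ∃ Y, τ g (ψl X) = ψl Y := fun g X => by
    obtain ⟨Y, hY⟩ := hconj g X
    refine ⟨Y, inj ?_⟩
    ext w
    have hw : τ g (τ g⁻¹ w) = w := by
      rw [← mul_apply_eq_comp, ← map_mul, mul_inv_cancel, map_one,
        one_apply_eq_self]
    have h1 := congrArg (fun T : V →L[ℂ] V => T (τ g⁻¹ w)) hY
    simp only [mul_apply_eq_comp, hψl, aut, hw] at h1
    exact h1
  rcases irr (Submodule.span ℂ (range ψl)) (fun g v hv => by
    induction hv using Submodule.span_induction with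
    | mem x hx =>
      obtain ⟨X, rfl⟩ := hx
      obtain ⟨Y, hY⟩ := hinv g X
      rw [hY]
      exact Submodule.subset_span ⟨Y, rfl⟩
    | zero => simp
    | add x y _ _ hx hy => rw [map_add]; exact Submodule.add_mem _ hx hy
    | smul c x _ hx => rw [map_smul]; exact Submodule.smul_mem _ _ hx) with hb | ht
  · exfalso
    obtain ⟨g, hg⟩ := hne
    refine hg (hzero (fun X => ?_) g)
    have : ψl X ∈ Submodule.span ℂ (range ψl) := Submodule.subset_span ⟨X, rfl⟩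
    rw [hb, Submodule.mem_bot] at this
    rw [hψl, this, map_zero]
  · exact ht

theorem exists_lieHom {L : Type} [LieRing L] [LieAlgebra ℂ L] (ψ : 𝔤 →+ L)
    (h1 : ∀ (t : ℝ) (X : 𝔤), ψ (t • X) = (t : ℂ) • ψ X) (h2 : ∀ X Y, ψ ⁅X, Y⁆ = ⁅ψ X, ψ Y⁆)
    (h3 : Submodule.span ℂ (range ψ) = ⊤) :
    ∃ φ : ℂ ⊗[ℝ] 𝔤 →ₗ⁅ℂ⁆ L, Function.Surjective φ := by
  let ψl : 𝔤 →ₗ[ℝ] L :=
    { toFun := ψ
      map_add' := ψ.map_add
      map_smul' := fun t X => by rw [h1, RingHom.id_apply, Complex.coe_smul] }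
  let φ0 : ℂ ⊗[ℝ] 𝔤 →ₗ[ℂ] L := ψl.liftBaseChange ℂ
  have hφ0 : ∀ (c : ℂ) (X : 𝔤), φ0 (c ⊗ₜ X) = c • ψ X := fun c X =>
    LinearMap.liftBaseChange_tmul ℂ ψl c X
  have hbr : ∀ x y, φ0 ⁅x, y⁆ = ⁅φ0 x, φ0 y⁆ := by
    intro x y
    induction x using TensorProduct.induction_on with
    | zero => simp
    | add x x' hx hx' => rw [add_lie, map_add, map_add, add_lie, hx, hx']
    | tmul c X =>
      induction y using TensorProduct.induction_on with
      | zero =>
        rw [show ⁅c ⊗ₜ[ℝ] X, (0 : ℂ ⊗[ℝ] 𝔤)⁆ = 0 from lie_zero (L := ℂ ⊗[ℝ] 𝔤) (M := ℂ ⊗[ℝ] 𝔤) _, map_zero, lie_zero]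
      | add y y' hy hy' =>
        rw [show ⁅c ⊗ₜ[ℝ] X, y + y'⁆ = ⁅c ⊗ₜ[ℝ] X, y⁆ + ⁅c ⊗ₜ[ℝ] X, y'⁆ from
          LieRing.lie_add _ _ _, map_add, map_add, lie_add, hy, hy']
      | tmul c' Y =>
        rw [LieAlgebra.ExtendScalars.bracket_tmul, hφ0, hφ0, hφ0, h2, smul_lie, lie_smul,
          mul_smul]
  refine ⟨{ φ0 with map_lie' := fun {x y} => hbr x y }, ?_⟩
  change Function.Surjective φ0
  rw [← LinearMap.range_eq_top, eq_top_iff, ← h3, Submodule.span_le]
  rintro _ ⟨X, rfl⟩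
  exact ⟨1 ⊗ₜ X, by rw [hφ0, one_smul]⟩

end Pool.Agent.P.MP_d483fb_an.Z.SR

end

end

section

/-! Decay of coefficients along bounded words from exponential mixing. -/

open scoped Topology InnerProductSpace RealInnerProductSpace
open MeasureTheory Filter Set

set_option linter.unusedSectionVars false

noncomputable section

namespace Pool.Agent.P.MP_d483fb_an.Z.SR

variable {G : Type} [Group G] [TopologicalSpace G] [IsTopologicalGroup G] [LocallyCompactSpace G]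
  [SecondCountableTopology G] [MeasurableSpace G] [BorelSpace G]
  {H : Type} [NormedAddCommGroup H] [InnerProductSpace ℝ H] [CompleteSpace H]
  {U : G →* (H →L[ℝ] H)}

theorem integrable_orbit (ν : Measure G) [IsFiniteMeasure ν] (h1 : ∀ g ξ, ‖U g ξ‖ = ‖ξ‖)
    (h2 : ∀ ξ, Continuous fun g => U g ξ) (ξ : H) : Integrable (fun u => U u ξ) ν :=
  (integrable_const ‖ξ‖).mono' (h2 ξ).aestronglyMeasurable
    (Eventually.of_forall fun u => (h1 u ξ).le)

theorem inner_smooth (ν : Measure G) [IsFiniteMeasure ν] (h1 : ∀ g ξ, ‖U g ξ‖ = ‖ξ‖)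
    (h2 : ∀ ξ, Continuous fun g => U g ξ) (ξ w : H) (g : G) :
    ⟪w, U g (∫ u, U u ξ ∂ν)⟫ = ∫ u, ⟪w, U (g * u) ξ⟫ ∂ν := by
  have hi := integrable_orbit ν h1 h2 ξ
  rw [← (U g).integral_comp_comm hi, ← integral_inner ((U g).integrable_comp hi)]
  simp only [EM.pi_mul]

theorem gLip_smooth {dd : G → ℝ} {M : ℝ} {ν : Measure G} [IsProbabilityMeasure ν]
    (h0 : ∀ g, 0 ≤ dd g) (hM : 0 ≤ M) (hν : EM.LipM dd M ν) (h1 : ∀ g ξ, ‖U g ξ‖ = ‖ξ‖)
    (h2 : ∀ ξ, Continuous fun g => U g ξ) (ξ : H) :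
    EM.GLip dd U ((M + 1) * (‖ξ‖ + 1)) (∫ u, U u ξ ∂ν) := by
  have hξ := norm_nonneg ξ
  refine ⟨?_, fun g => ?_⟩
  · have h := norm_integral_le_of_norm_le_const (μ := ν) (f := fun u => U u ξ) (C := ‖ξ‖)
      (Eventually.of_forall fun u => (h1 u ξ).le)
    rw [probReal_univ, mul_one] at h
    nlinarith
  · set w := U g (∫ u, U u ξ ∂ν) - ∫ u, U u ξ ∂ν with hw
    have hw0 := norm_nonneg w
    have hd := h0 g
    rcases hw0.eq_or_lt with h | h
    · rw [← h]
      positivity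
    have hp : 0 < ‖w‖ * (‖ξ‖ + 1) := by positivity
    have key := hν g (fun u => ⟪w, U u ξ⟫ / (‖w‖ * (‖ξ‖ + 1)))
      ((continuous_const.inner (h2 ξ)).div_const _).measurable fun u => by
        rw [abs_div, abs_of_pos hp, div_le_one hp]
        refine (abs_real_inner_le_norm _ _).trans ?_
        rw [h1]
        nlinarith
    have e1 := inner_smooth ν h1 h2 ξ w g
    have e2 := inner_smooth ν h1 h2 ξ w 1
    simp only [map_one, one_apply_eq_self, one_mul] at e2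
    rw [integral_div, integral_div, ← e1, ← e2, ← sub_div, ← inner_sub_right, ← hw,
      real_inner_self_eq_norm_mul_norm, abs_of_nonneg (by positivity), div_le_iff₀ hp] at key
    have h3 : ‖w‖ ≤ M * dd g * (‖ξ‖ + 1) := le_of_mul_le_mul_left (by linarith) h
    nlinarith [mul_nonneg hd (add_nonneg hξ zero_le_one)]

theorem exists_word {ν : Measure G} [IsProbabilityMeasure ν] {K : Set G} (hK : ∀ᵐ u ∂ν, u ∈ K)
    (h1 : ∀ g ξ, ‖U g ξ‖ = ‖ξ‖) (h2 : ∀ ξ, Continuous fun g => U g ξ) (ξ : H) (g : G) :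
    ∃ u ∈ K, ∃ u' ∈ K, ⟪U (u'⁻¹ * g * u) ξ, ξ⟫ ≤ ⟪U g (∫ u, U u ξ ∂ν), ∫ u, U u ξ ∂ν⟫ := by
  have hi : ∀ (w : H) (g : G), Integrable (fun u => ⟪w, U (g * u) ξ⟫) ν := fun w g => by
    simp only [EM.pi_mul]
    exact ((U g).integrable_comp (integrable_orbit ν h1 h2 ξ)).const_inner w
  obtain ⟨u, hu, h3⟩ := exists_notMem_null_le_integral (hi (∫ u, U u ξ ∂ν) g) (ae_iff.1 hK)
  obtain ⟨u', hu', h4⟩ := exists_notMem_null_le_integral (hi (U (g * u) ξ) 1) (ae_iff.1 hK)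
  refine ⟨u, not_not.1 hu, u', not_not.1 hu', ?_⟩
  rw [← inner_smooth ν h1 h2] at h3 h4
  rw [map_one, one_apply_eq_self, real_inner_comm (∫ u, U u ξ ∂ν)] at h4
  rw [real_inner_comm _ (U g _), mul_assoc, EM.pi_mul, EM.inner_pi_left h1, inv_inv]
  rw [one_mul] at h4
  exact h4.trans h3

theorem dec_of_mix {n : ℕ} {D : ExpData G n} (Γ : EM.Gauge D) {Far : G → ℝ → Prop} {A : Type}
    [NormedAddCommGroup A] {a : A → G} {c : ℝ} (hc : 0 < c)
    (hfar : ∀ r : ℝ, 0 ≤ r → ∃ t, ‖t‖ ≤ r ∧ Far (a t) (c * r))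
    (hmix : ∀ (H : Type) [NormedAddCommGroup H] [InnerProductSpace ℝ H] [CompleteSpace H]
      (U : G →* (H →L[ℝ] H)), (∀ g ξ, ‖U g ξ‖ = ‖ξ‖) → (∀ ξ, Continuous fun g => U g ξ) →
      EM.MixH Γ.dd Far U) (Z : Set G) : Dec a Z := by
  intro H _ _ _ U h1 h2 h3 ξ
  obtain ⟨κ, hκ, C, -, h⟩ := hmix H U h1 h2
  obtain ⟨M, L, hM, hν⟩ := Γ.exists_lipM
  obtain ⟨ν, _, hs, hl, -⟩ := hν 1 one_pos le_rfl
  rw [one_pow, div_one] at hl
  have hx := gLip_smooth Γ.nonneg hM hl h1 h2 ξ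
  have hp : EM.prj U ⊤ (∫ u, U u ξ ∂ν) = 0 :=
    h3 _ fun g => EM.prj_fix U ⊤ _ (Subgroup.mem_top g)
  refine ⟨3, {g | Γ.dd g ≤ 2}, κ * c, C * ((M + 1) * (‖ξ‖ + 1)) * ((M + 1) * (‖ξ‖ + 1)), Γ.cpt,
    by positivity, (eventually_ge_atTop 0).mono fun r hr => ?_⟩
  obtain ⟨t, ht, hf⟩ := hfar r hr
  obtain ⟨u, hu, u', hu', h4⟩ := exists_word (K := {g | Γ.dd g ≤ 2})
    (hs.mono fun u hu => show Γ.dd u ≤ 2 by linarith) h1 h2 ξ (a t)
  have h5 := h _ _ hf _ _ _ _ hx hx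
  rw [hp, inner_zero_left, sub_zero] at h5
  refine ⟨[u'⁻¹, a t, u], le_rfl, fun g hg => ?_, ?_⟩
  · simp only [List.mem_cons, List.not_mem_nil, or_false] at hg
    rcases hg with rfl | rfl | rfl
    · exact Or.inl (show Γ.dd u'⁻¹ ≤ 2 by rwa [Γ.inv])
    · exact Or.inr (Or.inr ⟨t, ht, rfl⟩)
    · exact Or.inl hu
  · simp only [List.prod_cons, List.prod_nil, mul_one]
    rw [← mul_assoc, mul_assoc κ]
    exact h4.trans ((le_abs_self _).trans h5)

end Pool.Agent.P.MP_d483fb_an.Z.SR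

end

end
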