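import Mathlib

section

/-!
Taylor polynomials in several variables.
-/

open Set Metric MvPolynomial
open scoped Topology ContDiff Nat

noncomputable section

namespace Pool.Agent.P.MP_d483fb_an.Z.Jet

variable {D : ℕ}

/-- the exponent of the monomial attached to a word -/
def wexp {k : ℕ} (σ : Fin k → Fin D) : Fin D →₀ ℕ := ∑ i, Finsupp.single (σ i) 1

/-- the coefficient attached to a word -/
def wco (g : (Fin D → ℝ) → ℝ) (x : Fin D → ℝ) {k : ℕ} (σ : Fin k → Fin D) : ℝ :=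
  (k ! : ℝ)⁻¹ * iteratedFDeriv ℝ k g x fun i => Pi.single (σ i) 1

/-- the Taylor polynomial of degree `< r` of `g` at `x` -/
def tay (r : ℕ) (g : (Fin D → ℝ) → ℝ) (x : Fin D → ℝ) : MvPolynomial (Fin D) ℝ :=
  ∑ k ∈ Finset.range r, ∑ σ : Fin k → Fin D, monomial (wexp σ) (wco g x σ)

theorem degree_wexp {k : ℕ} (σ : Fin k → Fin D) : (wexp σ).degree = k := by
  simp [wexp, map_sum]

theorem prod_wexp {k : ℕ} (σ : Fin k → Fin D) (v : Fin D → ℝ) :
    ((wexp σ).prod fun i e => v i ^ e) = ∏ i, v (σ i) := by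
  unfold wexp
  rw [← Finsupp.prod_finsetSum_index (by simp) (fun a b c => pow_add _ _ _)]
  refine Finset.prod_congr rfl fun i _ => ?_
  simp

theorem iter_eq_sum (g : (Fin D → ℝ) → ℝ) (x v : Fin D → ℝ) (k : ℕ) :
    iteratedFDeriv ℝ k g x (fun _ => v) =
      ∑ σ : Fin k → Fin D, (∏ i, v (σ i)) * iteratedFDeriv ℝ k g x fun i => Pi.single (σ i) 1 := by
  have e : (fun _ : Fin k => v) = fun _ => ∑ j, v j • (Pi.single j (1 : ℝ) : Fin D → ℝ) := by
    funext _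
    exact pi_eq_sum_univ' v
  rw [e, ContinuousMultilinearMap.map_sum]
  refine Finset.sum_congr rfl fun σ _ => ?_
  rw [ContinuousMultilinearMap.map_smul_univ, smul_eq_mul]

theorem eval_tay (r : ℕ) (g : (Fin D → ℝ) → ℝ) (x v : Fin D → ℝ) :
    eval v (tay r g x) =
      ∑ k ∈ Finset.range r, (k ! : ℝ)⁻¹ * iteratedFDeriv ℝ k g x fun _ => v := by
  unfold tay
  rw [map_sum]
  refine Finset.sum_congr rfl fun k _ => ?_
  rw [map_sum, iter_eq_sum, Finset.mul_sum]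
  refine Finset.sum_congr rfl fun σ _ => ?_
  rw [eval_monomial, prod_wexp, wco]
  ring

theorem coeff_tay (r : ℕ) (g : (Fin D → ℝ) → ℝ) (x : Fin D → ℝ) (m : Fin D →₀ ℕ) :
    coeff m (tay r g x) =
      ∑ k ∈ Finset.range r, ∑ σ : Fin k → Fin D, if wexp σ = m then wco g x σ else 0 := by
  classical
  unfold tay
  simp only [coeff_sum, coeff_monomial]

theorem coeff_tay_of_le {r : ℕ} (g : (Fin D → ℝ) → ℝ) (x : Fin D → ℝ) {m : Fin D →₀ ℕ}
    (hm : r ≤ m.degree) : coeff m (tay r g x) = 0 := by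
  rw [coeff_tay]
  refine Finset.sum_eq_zero fun k hk => Finset.sum_eq_zero fun σ _ => if_neg fun e => ?_
  have := degree_wexp σ
  rw [e] at this
  have := Finset.mem_range.1 hk
  omega

theorem coeff_zero_tay {r : ℕ} (hr : 0 < r) (g : (Fin D → ℝ) → ℝ) (x : Fin D → ℝ) :
    coeff 0 (tay r g x) = g x := by
  have h1 : eval (0 : Fin D → ℝ) (tay r g x) = coeff 0 (tay r g x) := by
    rw [eval_zero]
    rfl
  rw [← h1, eval_tay]
  obtain ⟨r, rfl⟩ : ∃ s, r = s + 1 := ⟨r - 1, by omega⟩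
  rw [Finset.sum_range_succ', Finset.sum_eq_zero]
  · simp
  · intro k _
    rw [ContinuousMultilinearMap.map_coord_zero _ (0 : Fin (k + 1)) rfl, mul_zero]

theorem abs_wco_le {g : (Fin D → ℝ) → ℝ} {x : Fin D → ℝ} {k : ℕ} (σ : Fin k → Fin D) :
    |wco g x σ| ≤ ‖iteratedFDeriv ℝ k g x‖ := by
  rw [wco, abs_mul, abs_of_nonneg (by positivity)]
  have h1 : (k ! : ℝ)⁻¹ ≤ 1 := inv_le_one_of_one_le₀ (by exact_mod_cast Nat.factorial_pos k)
  refine (mul_le_of_le_one_left (abs_nonneg _) h1).trans ?_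
  refine ((iteratedFDeriv ℝ k g x).le_opNorm _).trans (le_of_eq ?_)
  simp [Pi.norm_single]

theorem abs_coeff_tay_le {r : ℕ} {g : (Fin D → ℝ) → ℝ} {x : Fin D → ℝ} {C : ℝ}
    (h : ∀ k < r, ‖iteratedFDeriv ℝ k g x‖ ≤ C) (hC : 0 ≤ C) (m : Fin D →₀ ℕ) :
    |coeff m (tay r g x)| ≤ r * (D + 1) ^ r * C := by
  rw [coeff_tay]
  refine (Finset.abs_sum_le_sum_abs _ _).trans ?_
  have : ∀ k ∈ Finset.range r,
      |∑ σ : Fin k → Fin D, if wexp σ = m then wco g x σ else 0| ≤ (D + 1) ^ r * C := by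
    intro k hk
    have hk' := Finset.mem_range.1 hk
    refine (Finset.abs_sum_le_sum_abs _ _).trans ?_
    refine (Finset.sum_le_card_nsmul _ _ C fun σ _ => ?_).trans ?_
    · split_ifs
      · exact (abs_wco_le σ).trans (h k hk')
      · simpa using hC
    · rw [Finset.card_univ, Fintype.card_fun, Fintype.card_fin, Fintype.card_fin, nsmul_eq_mul]
      refine mul_le_mul_of_nonneg_right ?_ hC
      push_cast
      exact (pow_le_pow_left₀ (by positivity) (by linarith) k).trans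
        (pow_le_pow_right₀ (by linarith [(Nat.cast_nonneg D : (0 : ℝ) ≤ D)]) hk'.le)
  refine (Finset.sum_le_card_nsmul _ _ _ this).trans (le_of_eq ?_)
  rw [Finset.card_range, nsmul_eq_mul, mul_assoc]

/-- Taylor's estimate -/
theorem abs_sub_tay_le {r : ℕ} {g : (Fin D → ℝ) → ℝ} {x v : Fin D → ℝ} {C : ℝ}
    (hg : ∀ t ∈ Icc (0 : ℝ) 1, ContDiffAt ℝ ∞ g (x + t • v))
    (h : ∀ t ∈ Icc (0 : ℝ) 1, ‖iteratedFDeriv ℝ r g (x + t • v)‖ ≤ C) :
    |g (x + v) - eval v (tay r g x)| ≤ C * ‖v‖ ^ r := by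
  cases r with
  | zero =>
    have := h 1 ⟨zero_le_one, le_rfl⟩
    simpa [tay] using this
  | succ n =>
    have h1 := map_add_eq_sum_add_integral_iteratedFDeriv (n := n) (f := g) (x := x) (y := v)
      fun t ht => (hg t ht).of_le (by exact_mod_cast le_top)
    rw [eval_tay, h1]
    simp only [smul_eq_mul, add_sub_cancel_left]
    have hC : 0 ≤ C := (norm_nonneg _).trans (h 0 ⟨le_rfl, zero_le_one⟩)
    have h2 := intervalIntegral.norm_integral_le_of_norm_le_const (a := 0) (b := 1)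
      (C := C * ‖v‖ ^ (n + 1))
      (f := fun t : ℝ => (1 - t) ^ n * iteratedFDeriv ℝ (n + 1) g (x + t • v) fun _ => v) (by
        intro t ht
        rw [uIoc_of_le zero_le_one] at ht
        rw [norm_mul, norm_pow, Real.norm_of_nonneg (sub_nonneg.2 ht.2)]
        refine (mul_le_of_le_one_left (norm_nonneg _)
          (pow_le_one₀ (sub_nonneg.2 ht.2) (by linarith [ht.1]))).trans ?_
        refine ((iteratedFDeriv ℝ (n + 1) g (x + t • v)).le_opNorm _).trans ?_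
        rw [Finset.prod_const, Finset.card_univ, Fintype.card_fin]
        exact mul_le_mul_of_nonneg_right (h t ⟨ht.1.le, ht.2⟩) (by positivity))
    rw [abs_mul, abs_of_nonneg (by positivity)]
    have h3 : (n ! : ℝ)⁻¹ ≤ 1 := inv_le_one_of_one_le₀ (by exact_mod_cast Nat.factorial_pos n)
    refine (mul_le_of_le_one_left (abs_nonneg _) h3).trans ?_
    simpa using h2

theorem continuousOn_coeff_tay (r : ℕ) {g : (Fin D → ℝ) → ℝ} {U : Set (Fin D → ℝ)} (hU : IsOpen U)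
    (hg : ContDiffOn ℝ ∞ g U) (m : Fin D →₀ ℕ) :
    ContinuousOn (fun x => coeff m (tay r g x)) U := by
  simp only [coeff_tay]
  refine continuousOn_finsetSum _ fun k _ => continuousOn_finsetSum _ fun σ _ => ?_
  split_ifs
  · unfold wco
    refine continuousOn_const.mul ?_
    have h1 : ContinuousOn (iteratedFDeriv ℝ k g) U :=
      (hg.continuousOn_iteratedFDerivWithin (by exact_mod_cast le_top) hU.uniqueDiffOn).congr
        fun x hx => (iteratedFDerivWithin_of_isOpen k hU hx).symm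
    exact (ContinuousMultilinearMap.apply ℝ (fun _ : Fin k => Fin D → ℝ) ℝ
      (fun i => Pi.single (σ i) 1)).continuous.comp_continuousOn h1
  · exact continuousOn_const

end Pool.Agent.P.MP_d483fb_an.Z.Jet

end

end

section

/-!
A finite atlas of uniformly bi-Lipschitz charts on a compact manifold.
-/

open Set Metric MvPolynomial Filter
open scoped Topology ContDiff Nat Manifold

noncomputable section

namespace Pool.Agent.P.MP_d483fb_an.Z.Jet

variable {D : ℕ} {M : Type} [MetricSpace M]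

/-- `f` is bi-Lipschitz with constant `K` on `Q` -/
def BiL (f : M → Fin D → ℝ) (K : ℝ) (Q : Set M) : Prop :=
  ∀ z ∈ Q, ∀ z' ∈ Q, ‖f z - f z'‖ ≤ K * dist z z' ∧ dist z z' ≤ K * ‖f z - f z'‖

theorem BiL.mono {f : M → Fin D → ℝ} {K K' : ℝ} {Q Q' : Set M} (h : BiL f K Q) (hK : K ≤ K')
    (hQ : Q' ⊆ Q) : BiL f K' Q' := fun z hz z' hz' =>
  ⟨(h z (hQ hz) z' (hQ hz')).1.trans (mul_le_mul_of_nonneg_right hK dist_nonneg),
    (h z (hQ hz) z' (hQ hz')).2.trans (mul_le_mul_of_nonneg_right hK (norm_nonneg _))⟩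

/-- finitely many charts of a family `ψ`, with a uniform scale -/
structure Atl [MeasurableSpace M] (ψ : M → OpenPartialHomeomorph M (Fin D → ℝ)) where
  j : M → M
  Q : M → Set M
  δ : ℝ
  K : ℝ
  δ_pos : 0 < δ
  one_le : 1 ≤ K
  fin : (range j).Finite
  meas : ∀ i, MeasurableSet (j ⁻¹' {i})
  cpt : ∀ p, IsCompact (Q (j p))
  sub : ∀ p, Q (j p) ⊆ (ψ (j p)).source
  ball_sub : ∀ p, ball p δ ⊆ Q (j p)
  lip : ∀ p, BiL (ψ (j p)) K (Q (j p))
  onto : ∀ p v, ‖v‖ < δ → ∃ z ∈ Q (j p), ψ (j p) z = ψ (j p) p + v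

theorem exists_atl [CompactSpace M] [MeasurableSpace M] [BorelSpace M]
    (ψ : M → OpenPartialHomeomorph M (Fin D → ℝ)) (hs : ∀ q, q ∈ (ψ q).source)
    (hl : ∀ q, ∃ K, ∃ s ∈ 𝓝 q, BiL (ψ q) K s) : Nonempty (Atl ψ) := by
  classical
  have h1 : ∀ q, ∃ r K d : ℝ, 0 < r ∧ 0 < d ∧ closedBall q (2 * r) ⊆ (ψ q).source ∧
      BiL (ψ q) K (closedBall q (2 * r)) ∧
      ∀ p ∈ ball q r, ∀ v, ‖v‖ < d → ∃ z ∈ closedBall q (2 * r), ψ q z = ψ q p + v := by
    intro q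
    obtain ⟨K, s, hs', hK⟩ := hl q
    obtain ⟨ρ, hρ, hb⟩ := nhds_basis_closedBall.mem_iff.1
      (inter_mem hs' ((ψ q).open_source.mem_nhds (hs q)))
    have e : 2 * (ρ / 2) = ρ := by ring
    have hsub : ball q ρ ⊆ (ψ q).source := fun z hz => (hb (ball_subset_closedBall hz)).2
    have ho : IsOpen (ψ q '' ball q ρ) := (ψ q).isOpen_image_of_subset_source isOpen_ball hsub
    have hsub' : closedBall q (ρ / 2) ⊆ ball q ρ := closedBall_subset_ball (by linarith)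
    have hc : IsCompact (ψ q '' closedBall q (ρ / 2)) :=
      isClosed_closedBall.isCompact.image_of_continuousOn
        ((ψ q).continuousOn.mono (hsub'.trans hsub))
    obtain ⟨d, hd, hth⟩ := hc.exists_thickening_subset_open ho (image_mono hsub')
    refine ⟨ρ / 2, K, d, by linarith, hd, ?_, ?_, fun p hp v hv => ?_⟩
    · rw [e]; exact fun z hz => (hb hz).2
    · rw [e]; exact hK.mono le_rfl fun z hz => (hb hz).1
    · obtain ⟨z, hz, hz'⟩ := hth (mem_thickening_iff.2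
        ⟨ψ q p, mem_image_of_mem _ (ball_subset_closedBall hp), show dist (ψ q p + v) _ < d by
          simpa using hv⟩)
      exact ⟨z, by rw [e]; exact ball_subset_closedBall hz, hz'⟩
  choose r K d hr hd hsrc hK hon using h1
  obtain ⟨t, ht⟩ := isCompact_univ.elim_finite_subcover (fun q => ball q (r q))
    (fun _ => isOpen_ball) fun q _ => mem_iUnion.2 ⟨q, mem_ball_self (hr q)⟩
  obtain ⟨n, ⟨e⟩⟩ := Finite.exists_equiv_fin t
  have hex : ∀ p, ∃ k : ℕ, ∃ h : k < n, p ∈ ball (e.symm ⟨k, h⟩).1 (r (e.symm ⟨k, h⟩).1) := by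
    intro p
    obtain ⟨q, hq, hp⟩ := mem_iUnion₂.1 (ht (mem_univ p))
    exact ⟨e ⟨q, hq⟩, (e ⟨q, hq⟩).2, by simpa using hp⟩
  let j : M → M := fun p => (e.symm ⟨Nat.find (hex p), (Nat.find_spec (hex p)).1⟩).1
  have hj : ∀ p, p ∈ ball (j p) (r (j p)) := fun p => (Nat.find_spec (hex p)).2
  have hjt : ∀ p, j p ∈ t := fun p => (e.symm _).2
  have hm : Measurable fun p => Nat.find (hex p) := by
    refine measurable_find hex fun k => ?_
    by_cases hk : k < n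
    · have : MeasurableSet (ball (e.symm ⟨k, hk⟩).1 (r (e.symm ⟨k, hk⟩).1)) := measurableSet_ball
      convert this using 1
      ext p
      exact ⟨fun ⟨_, h⟩ => h, fun h => ⟨hk, h⟩⟩
    · simp [hk]
  obtain ⟨δ, hδ, hδ'⟩ : ∃ δ : ℝ, 0 < δ ∧ ∀ q ∈ t, δ ≤ min (r q) (d q) := by
    rcases t.eq_empty_or_nonempty with h0 | h0
    · exact ⟨1, one_pos, by simp [h0]⟩
    · obtain ⟨q, -, hq⟩ := t.exists_min_image (fun q => min (r q) (d q)) h0
      exact ⟨_, lt_min (hr q) (hd q), hq⟩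
  obtain ⟨K0, hK0⟩ := (t.finite_toSet.image K).bddAbove
  refine ⟨⟨j, fun q => closedBall q (2 * r q), δ, max 1 K0, hδ, le_max_left _ _,
    t.finite_toSet.subset ?_, fun i => ?_, fun p => isClosed_closedBall.isCompact,
    fun p => hsrc _, fun p z hz => ?_, fun p => (hK _).mono ?_ subset_rfl, fun p v hv => ?_⟩⟩
  · rintro _ ⟨p, rfl⟩
    exact hjt p
  · have : j ⁻¹' {i} = (fun p => Nat.find (hex p)) ⁻¹'
        {k | ∃ h : k < n, (e.symm ⟨k, h⟩).1 = i} := by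
      ext p
      exact ⟨fun h => ⟨_, h⟩, fun ⟨_, h⟩ => h⟩
    rw [this]
    exact hm (MeasurableSet.of_discrete)
  · have h1 := mem_ball.1 (hj p)
    have h2 := mem_ball.1 hz
    have h3 := (hδ' _ (hjt p)).trans (min_le_left _ _)
    exact mem_closedBall.2 (by linarith [dist_triangle z p (j p)])
  · exact (hK0 (mem_image_of_mem _ (hjt p))).trans (le_max_right _ _)
  · exact hon _ p (hj p) v (hv.trans_le ((hδ' _ (hjt p)).trans (min_le_right _ _)))

section mfd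
variable [ChartedSpace (EuclideanSpace ℝ (Fin D)) M]

/-- the standard charts with values in `Fin D → ℝ` -/
def stdc (q : M) : OpenPartialHomeomorph M (Fin D → ℝ) :=
  (chartAt (EuclideanSpace ℝ (Fin D)) q).transHomeomorph (EuclideanSpace.equiv (Fin D) ℝ).toHomeomorph

theorem stdc_mem (q : M) : q ∈ (stdc (D := D) q).source := mem_chart_source _ q

theorem stdc_biL [IsManifold (𝓡 D) ∞ M] {N : ℕ} {ι : M → EuclideanSpace ℝ (Fin N)}
    (hι : ContMDiff (𝓡 D) (𝓡 N) ∞ ι) (hd : ∀ p q, dist p q = ‖ι p - ι q‖)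
    (himm : ∀ p, Function.Injective (mfderiv (𝓡 D) (𝓡 N) ι p)) (q : M) :
    ∃ K, ∃ s ∈ 𝓝 q, BiL (stdc (D := D) q) K s := by
  set c := chartAt (EuclideanSpace ℝ (Fin D)) q with hc
  have h1 : ContDiffAt ℝ ∞ (ι ∘ c.symm) (c q) := by
    have := (contMDiffAt_iff.1 (hι q)).2
    simpa [contDiffWithinAt_univ] using this
  have h2 : mfderiv (𝓡 D) (𝓡 N) ι q = fderiv ℝ (ι ∘ c.symm) (c q) := by
    rw [((hι q).mdifferentiableAt (by simp)).mfderiv]
    simp [writtenInExtChartAt, hc]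
  have h3 := h1.hasStrictFDerivAt (by simp)
  set F' := fderiv ℝ (ι ∘ c.symm) (c q) with hF'
  have hinj : Function.Injective F' := by
    have := himm q
    rw [h2] at this
    exact this
  obtain ⟨κ, hκ, hanti⟩ := (F' : EuclideanSpace ℝ (Fin D) →ₗ[ℝ] EuclideanSpace ℝ (Fin N)).exists_antilipschitzWith
    (LinearMap.ker_eq_bot.2 hinj)
  obtain ⟨s, hs, happ⟩ := h3.approximates_deriv_on_nhds (c := (2 * κ)⁻¹) (Or.inr (by positivity))
  set e := EuclideanSpace.equiv (Fin D) ℝ with he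
  have hκ' : (0 : ℝ) < κ := hκ
  refine ⟨‖e.toContinuousLinearMap‖ * (2 * κ) + (‖F'‖ + (2 * κ : ℝ)⁻¹) * ‖e.symm.toContinuousLinearMap‖,
    c.source ∩ c ⁻¹' s, inter_mem (chart_source_mem_nhds _ q)
      ((c.continuousAt (mem_chart_source _ q)).preimage_mem_nhds hs), fun z hz z' hz' => ?_⟩
  have a1 := happ _ hz.2 _ hz'.2
  simp only [Function.comp_apply, c.left_inv hz.1, c.left_inv hz'.1] at a1
  have a2 : ‖c z - c z'‖ ≤ κ * ‖F' (c z - c z')‖ := by
    simpa [dist_eq_norm] using hanti.le_mul_dist (c z) (c z')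
  have a3 := F'.le_opNorm (c z - c z')
  have a4 : stdc (D := D) q z - stdc (D := D) q z' = e (c z - c z') := by
    rw [map_sub]; rfl
  have a5 := e.toContinuousLinearMap.le_opNorm (c z - c z')
  have a6 := e.symm.toContinuousLinearMap.le_opNorm (e (c z - c z'))
  simp only [ContinuousLinearEquiv.coe_coe, ContinuousLinearEquiv.symm_apply_apply] at a5 a6
  have a7 := norm_sub_norm_le (F' (c z - c z')) (ι z - ι z')
  have a8 := norm_sub_norm_le (ι z - ι z') (F' (c z - c z'))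
  rw [norm_sub_rev (F' _)] at a7
  rw [a4, hd]
  push_cast at a1
  have a9 : κ * ((2 * κ : ℝ)⁻¹ * ‖c z - c z'‖) = ‖c z - c z'‖ / 2 := by field_simp
  have b1 : ‖c z - c z'‖ ≤ 2 * κ * ‖ι z - ι z'‖ := by
    have := mul_le_mul_of_nonneg_left (a7.trans a1) hκ'.le
    rw [a9, mul_sub] at this
    linarith
  have b2 : ‖ι z - ι z'‖ ≤ (‖F'‖ + (2 * κ : ℝ)⁻¹) * ‖c z - c z'‖ := by linarith
  have p1 : 0 ≤ (‖F'‖ + (2 * κ : ℝ)⁻¹) := by positivity
  constructor
  · refine a5.trans ((mul_le_mul_of_nonneg_left b1 (norm_nonneg _)).trans ?_)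
    rw [add_mul, mul_assoc _ (2 * κ : ℝ)]
    exact le_add_of_nonneg_right (by positivity)
  · refine b2.trans ((mul_le_mul_of_nonneg_left a6 p1).trans ?_)
    rw [add_mul _ _ ‖e (c z - c z')‖, mul_assoc (‖F'‖ + (2 * κ : ℝ)⁻¹)]
    exact le_add_of_nonneg_left (by positivity)

end mfd

/-- smooth in the charts `ψ` -/
def Smo (ψ : M → OpenPartialHomeomorph M (Fin D → ℝ)) (f : M → M) : Prop :=
  Continuous f ∧ ∀ x y, ContDiffOn ℝ ∞ (ψ y ∘ f ∘ (ψ x).symm)
    ((ψ x).target ∩ (ψ x).symm ⁻¹' (f ⁻¹' (ψ y).source))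

theorem smo_stdc [ChartedSpace (EuclideanSpace ℝ (Fin D)) M] [IsManifold (𝓡 D) ∞ M] {f : M → M}
    (hf : ContMDiff (𝓡 D) (𝓡 D) ∞ f) : Smo (stdc (D := D)) f := by
  refine ⟨hf.continuous, fun x y => ?_⟩
  have h := (contMDiff_iff.1 hf).2 x y
  set e := EuclideanSpace.equiv (Fin D) ℝ
  refine (e.contDiff.comp_contDiffOn (h.comp e.symm.contDiff.contDiffOn ?_)).congr fun _ _ => rfl
  intro u hu
  have : e.symm u ∈ (chartAt (EuclideanSpace ℝ (Fin D)) x).target ∧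
      f ((chartAt (EuclideanSpace ℝ (Fin D)) x).symm (e.symm u)) ∈
        (chartAt (EuclideanSpace ℝ (Fin D)) y).source := hu
  simpa using this

end Pool.Agent.P.MP_d483fb_an.Z.Jet

end

end

section

/-!
Jets of one smooth map in a finite atlas.
-/

open Set Metric MvPolynomial Filter
open scoped Topology ContDiff Nat Manifold

noncomputable section

namespace Pool.Agent.P.MP_d483fb_an.Z.Jet

variable {D : ℕ} {M : Type} [MetricSpace M]

theorem measurable_of_cover {X Y ι : Type} [TopologicalSpace X] [MeasurableSpace X]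
    [OpensMeasurableSpace X] [TopologicalSpace Y] [MeasurableSpace Y] [BorelSpace Y] [Countable ι]
    {F : X → Y} (s : ι → Set X) (hs : ∀ i, MeasurableSet (s i)) (hc : ∀ x, ∃ i, x ∈ s i)
    (hF : ∀ i, ContinuousOn F (s i)) : Measurable F := by
  refine measurable_of_isOpen fun U hU => ?_
  have : F ⁻¹' U = ⋃ i, F ⁻¹' U ∩ s i := by
    ext x
    simp only [mem_iUnion, mem_inter_iff]
    exact ⟨fun h => (hc x).imp fun _ hi => ⟨h, hi⟩, fun ⟨_, h, _⟩ => h⟩
  rw [this]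
  refine MeasurableSet.iUnion fun i => ?_
  obtain ⟨V, hV, e⟩ := continuousOn_iff'.1 (hF i) U hU
  rw [e]
  exact hV.measurableSet.inter (hs i)

/-- a coordinate of `f` in two charts -/
def loc (ψ : M → OpenPartialHomeomorph M (Fin D → ℝ)) (f : M → M) (x y : M) (l : Fin D)
    (u : Fin D → ℝ) : ℝ := ψ y (f ((ψ x).symm u)) l

/-- the domain of `loc` -/
def dom (ψ : M → OpenPartialHomeomorph M (Fin D → ℝ)) (f : M → M) (x y : M) : Set (Fin D → ℝ) :=
  (ψ x).target ∩ (ψ x).symm ⁻¹' (f ⁻¹' (ψ y).source)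

variable {ψ : M → OpenPartialHomeomorph M (Fin D → ℝ)} {f : M → M}

theorem Smo.isOpen_dom (hf : Smo ψ f) (x y : M) : IsOpen (dom ψ f x y) :=
  (ψ x).symm.isOpen_inter_preimage ((ψ y).open_source.preimage hf.1)

theorem Smo.loc (hf : Smo ψ f) (x y : M) (l : Fin D) :
    ContDiffOn ℝ ∞ (loc ψ f x y l) (dom ψ f x y) :=
  contDiffOn_pi.1 (hf.2 x y) l

theorem mem_dom {x y z : M} (hz : z ∈ (ψ x).source) (hz' : f z ∈ (ψ y).source) :
    ψ x z ∈ dom ψ f x y :=
  ⟨(ψ x).map_source hz, by simpa [(ψ x).left_inv hz] using hz'⟩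

theorem Smo.bound (hf : Smo ψ f) {x y : M} {Q Q' : Set M} (hQ : IsCompact Q) (hQ' : IsCompact Q')
    (h1 : Q ⊆ (ψ x).source) (h2 : Q' ⊆ (ψ y).source) (k : ℕ) (l : Fin D) :
    ∃ C, ∀ z ∈ Q, f z ∈ Q' → ‖iteratedFDeriv ℝ k (Jet.loc ψ f x y l) (ψ x z)‖ ≤ C := by
  have hU := hf.isOpen_dom x y
  have h3 : ContinuousOn (iteratedFDeriv ℝ k (Jet.loc ψ f x y l)) (dom ψ f x y) :=
    ((hf.loc x y l).continuousOn_iteratedFDerivWithin (by exact_mod_cast le_top)
      hU.uniqueDiffOn).congr fun x hx => (iteratedFDerivWithin_of_isOpen k hU hx).symm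
  have h4 : IsCompact (Q ∩ f ⁻¹' Q') := hQ.inter_right (hQ'.isClosed.preimage hf.1)
  obtain ⟨C, hC⟩ := h4.exists_bound_of_continuousOn
    (h3.comp ((ψ x).continuousOn.mono fun z hz => h1 hz.1) fun z hz => mem_dom (h1 hz.1) (h2 hz.2))
  exact ⟨C, fun z hz hz' => hC z ⟨hz, hz'⟩⟩

variable [MeasurableSpace M] (A : Atl ψ)

namespace Atl

theorem mem_Q (p : M) : p ∈ A.Q (A.j p) := A.ball_sub p (mem_ball_self A.δ_pos)

theorem K_pos : 0 < A.K := one_pos.trans_le A.one_le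

theorem bound (hf : Smo ψ f) (r : ℕ) : ∃ C, 0 ≤ C ∧ ∀ p q, ∀ k ≤ r, ∀ l, ∀ z ∈ A.Q (A.j p),
    f z ∈ A.Q (A.j q) → ‖iteratedFDeriv ℝ k (loc ψ f (A.j p) (A.j q) l) (ψ (A.j p) z)‖ ≤ C := by
  have := A.fin.to_subtype
  have h : ∀ a : range A.j × range A.j × Fin (r + 1) × Fin D, ∃ C, ∀ z ∈ A.Q a.1, f z ∈ A.Q a.2.1 →
      ‖iteratedFDeriv ℝ a.2.2.1 (loc ψ f a.1 a.2.1 a.2.2.2) (ψ a.1 z)‖ ≤ C := by
    rintro ⟨⟨_, p, rfl⟩, ⟨_, q, rfl⟩, k, l⟩
    exact hf.bound (A.cpt p) (A.cpt q) (A.sub p) (A.sub q) k l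
  choose C hC using h
  obtain ⟨B, hB⟩ := (finite_range C).bddAbove
  refine ⟨max B 0, le_max_right _ _, fun p q k hk l z hz hz' => ?_⟩
  exact (hC (⟨_, p, rfl⟩, ⟨_, q, rfl⟩, ⟨k, by omega⟩, l) z hz hz').trans
    ((hB (mem_range_self _)).trans (le_max_left _ _))

/-- the raw centred chart -/
def c0 (p z : M) : Fin D → ℝ := ψ (A.j p) z - ψ (A.j p) p

theorem c0_self (p : M) : A.c0 p p = 0 := sub_self _

theorem c0_sub (p z z' : M) : A.c0 p z - A.c0 p z' = ψ (A.j p) z - ψ (A.j p) z' := by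
  simp [c0]

theorem norm_c0_le {p z : M} (h : dist z p < A.δ) : ‖A.c0 p z‖ ≤ A.K * dist z p :=
  (A.lip p z (A.ball_sub p h) p (A.mem_Q p)).1

/-- the raw jet of `f` at `p` in the chart centred at `q` -/
def T0 (r : ℕ) (f : M → M) (p q : M) (l : Fin D) : MvPolynomial (Fin D) ℝ :=
  tay r (loc ψ f (A.j p) (A.j q) l) (ψ (A.j p) p) - C (ψ (A.j q) q l)

theorem coeff_T0_of_le {r : ℕ} (hr : 0 < r) (f : M → M) (p q : M) (l : Fin D) {m : Fin D →₀ ℕ}
    (hm : r ≤ m.degree) : coeff m (A.T0 r f p q l) = 0 := by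
  classical
  rw [T0, coeff_sub, coeff_tay_of_le _ _ hm, coeff_C, if_neg, sub_zero]
  rintro rfl
  simp at hm
  omega

theorem coeff_zero_T0 {r : ℕ} (hr : 0 < r) (f : M → M) (p q : M) (l : Fin D) :
    coeff 0 (A.T0 r f p q l) = A.c0 q (f p) l := by
  rw [T0, coeff_sub, coeff_zero_tay hr, coeff_zero_C, loc, (ψ _).left_inv (A.sub p (A.mem_Q p))]
  rfl

theorem coeff_T0_of_ne (r : ℕ) (f : M → M) (p q : M) (l : Fin D) {m : Fin D →₀ ℕ} (hm : m ≠ 0) :
    coeff m (A.T0 r f p q l) = coeff m (tay r (loc ψ f (A.j p) (A.j q) l) (ψ (A.j p) p)) := by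
  classical
  rw [T0, coeff_sub, coeff_C, if_neg hm.symm, sub_zero]

/-- uniform Taylor estimate -/
theorem jet_core [CompactSpace M] (hf : Smo ψ f) (r : ℕ) : ∃ C η : ℝ, 0 ≤ C ∧ 0 < η ∧ η ≤ A.δ ∧
    ∀ p q, dist (f p) q < A.δ / 2 → ∀ l,
      (∀ m, m ≠ 0 → |coeff m (A.T0 r f p q l)| ≤ C) ∧
      ∀ z, dist z p < η → dist (f z) q < A.δ ∧
        |A.c0 q (f z) l - eval (A.c0 p z) (A.T0 r f p q l)| ≤ C * ‖A.c0 p z‖ ^ r := by
  obtain ⟨C, hC, hb⟩ := A.bound hf r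
  obtain ⟨ρ, hρ, hu⟩ := Metric.uniformContinuous_iff.1
    (CompactSpace.uniformContinuous_of_continuous hf.1) (A.δ / 2) (half_pos A.δ_pos)
  have hK := A.K_pos
  have hK1 := A.one_le
  have hδ := A.δ_pos
  set η := min ρ A.δ / (A.K * A.K) with hη
  have hKK : 1 ≤ A.K * A.K := one_le_mul_of_one_le_of_one_le hK1 hK1
  have hη0 : 0 < η := div_pos (lt_min hρ hδ) (by positivity)
  have hη1 : A.K * A.K * η = min ρ A.δ := by rw [hη]; field_simp
  have hη2 : η ≤ min ρ A.δ := hη1 ▸ le_mul_of_one_le_left hη0.le hKK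
  have hCC : C ≤ (r * (D + 1) ^ r + 1) * C :=
    le_mul_of_one_le_left hC (le_add_of_nonneg_left (by positivity))
  refine ⟨(r * (D + 1) ^ r + 1) * C, η, by positivity, hη0, hη2.trans (min_le_right _ _),
    fun p q hpq l => ⟨fun m hm => ?_, fun z hz => ?_⟩⟩
  · rw [A.coeff_T0_of_ne r f p q l hm]
    refine (abs_coeff_tay_le (fun k hk => hb p q k hk.le l p (A.mem_Q p)
      (A.ball_sub q (hpq.trans (half_lt_self hδ)))) hC m).trans ?_
    rw [add_mul, one_mul]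
    exact le_add_of_nonneg_right hC
  have near : ∀ w, dist w p < ρ → dist (f w) q < A.δ := fun w hw => by
    linarith [dist_triangle (f w) (f p) q, hu hw]
  have hzδ : dist z p < A.δ := hz.trans_le (hη2.trans (min_le_right _ _))
  have hv : ‖A.c0 p z‖ < A.K * η := (A.norm_c0_le hzδ).trans_lt (mul_lt_mul_of_pos_left hz hK)
  have seg : ∀ t ∈ Icc (0 : ℝ) 1, ∃ w ∈ A.Q (A.j p), f w ∈ A.Q (A.j q) ∧
      ψ (A.j p) w = ψ (A.j p) p + t • A.c0 p z := by
    intro t ht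
    have h1 : ‖t • A.c0 p z‖ < A.K * η := by
      rw [norm_smul, Real.norm_of_nonneg ht.1]
      exact (mul_le_of_le_one_left (norm_nonneg _) ht.2).trans_lt hv
    have h2 : A.K * η ≤ A.K * A.K * η := by
      rw [mul_assoc]; exact le_mul_of_one_le_left (by positivity) hK1
    obtain ⟨w, hw, e⟩ := A.onto p _ (h1.trans_le (h2.trans (hη1.le.trans (min_le_right _ _))))
    refine ⟨w, hw, A.ball_sub q (near w ?_), e⟩
    have h3 := (A.lip p w hw p (A.mem_Q p)).2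
    rw [e, add_sub_cancel_left] at h3
    refine h3.trans_lt ((mul_lt_mul_of_pos_left h1 hK).trans_le ?_)
    rw [← mul_assoc, hη1]
    exact min_le_left _ _
  refine ⟨near z (hz.trans_le (hη2.trans (min_le_left _ _))), ?_⟩
  have key := abs_sub_tay_le (r := r) (g := loc ψ f (A.j p) (A.j q) l) (x := ψ (A.j p) p)
    (v := A.c0 p z) (C := C) (fun t ht => by
      obtain ⟨w, hw, hw', e⟩ := seg t ht
      rw [← e]
      exact (hf.loc _ _ l).contDiffAt
        ((hf.isOpen_dom _ _).mem_nhds (mem_dom (A.sub p hw) (A.sub q hw')))) (fun t ht => by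
      obtain ⟨w, hw, hw', e⟩ := seg t ht
      rw [← e]
      exact hb p q r le_rfl l w hw hw')
  have e1 : ψ (A.j p) p + A.c0 p z = ψ (A.j p) z := by simp [c0]
  rw [e1, loc, (ψ _).left_inv (A.sub p (A.ball_sub p hzδ))] at key
  refine le_trans (le_of_eq ?_) (key.trans (mul_le_mul_of_nonneg_right hCC (by positivity)))
  congr 1
  simp only [T0, map_sub, eval_C, c0, Pi.sub_apply]
  ring

include A in
/-- smooth maps are Lipschitz -/
theorem lipschitz [CompactSpace M] (hf : Smo ψ f) :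
    ∃ L : ℝ, 1 ≤ L ∧ ∀ z p, dist (f z) (f p) ≤ L * dist z p := by
  obtain ⟨C, η, hC, hη, hηδ, h⟩ := A.jet_core hf 1
  obtain ⟨R, hR⟩ := Metric.isBounded_iff.1 (isCompact_univ (X := M)).isBounded
  have hK := A.K_pos
  refine ⟨1 + A.K * C * A.K + |R| / η, le_add_of_le_of_nonneg (le_add_of_nonneg_right
    (by positivity)) (by positivity), fun z p => ?_⟩
  have hd : 0 ≤ dist z p := dist_nonneg
  rw [add_mul, add_mul]
  by_cases hz : dist z p < η
  · have h0 : dist (f p) (f p) < A.δ / 2 := by simpa using A.δ_pos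
    have h1 : ‖A.c0 (f p) (f z)‖ ≤ C * ‖A.c0 p z‖ := by
      refine (pi_norm_le_iff_of_nonneg (by positivity)).2 fun l => ?_
      have h2 := ((h p (f p) h0 l).2 z hz).2
      have h3 : A.T0 1 f p (f p) l = 0 := by
        ext m
        by_cases hm : m = 0
        · rw [hm, A.coeff_zero_T0 one_pos, A.c0_self]; simp
        · exact A.coeff_T0_of_le one_pos _ _ _ _
            (Nat.one_le_iff_ne_zero.2 fun e => hm ((Finsupp.degree_eq_zero_iff m).1 e))
      simpa [h3] using h2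
    by_cases hD : D = 0
    · subst hD
      have h5 := (A.lip p z (A.ball_sub p (hz.trans_le hηδ)) p (A.mem_Q p)).2
      rw [Subsingleton.elim (ψ (A.j p) z - ψ (A.j p) p) 0, norm_zero, mul_zero] at h5
      rw [dist_le_zero.1 h5]
      simp
    have h4 := ((h p (f p) h0 ⟨0, by omega⟩).2 z hz).1
    have h5 := (A.lip (f p) (f z) (A.ball_sub _ h4) (f p) (A.mem_Q _)).2
    have h6 := A.norm_c0_le (hz.trans_le hηδ)
    have h7 : dist (f z) (f p) ≤ A.K * C * A.K * dist z p :=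
      calc _ ≤ A.K * (C * (A.K * dist z p)) := h5.trans (mul_le_mul_of_nonneg_left
            (h1.trans (mul_le_mul_of_nonneg_left h6 hC)) hK.le)
        _ = _ := by ring
    have : 0 ≤ |R| / η * dist z p := by positivity
    linarith
  · have h1 : dist (f z) (f p) ≤ |R| / η * dist z p := by
      refine (hR (mem_univ _) (mem_univ _)).trans ((le_abs_self R).trans ?_)
      rw [div_mul_eq_mul_div, le_div_iff₀ hη]
      exact mul_le_mul_of_nonneg_left (not_lt.1 hz) (abs_nonneg R)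
    have : 0 ≤ A.K * C * A.K * dist z p := by positivity
    linarith

end Atl

end Pool.Agent.P.MP_d483fb_an.Z.Jet

end

end

section

/-!
Derivative bounds for compositions and explicit constants for jets of words.
-/

open Set Metric MvPolynomial Filter
open scoped Topology ContDiff Nat Manifold

noncomputable section

namespace Pool.Agent.P.MP_d483fb_an.Z.Jet

variable {D : ℕ} {M : Type} [MetricSpace M]

theorem abs_coeff_tay_le' {r : ℕ} {g : (Fin D → ℝ) → ℝ} {x : Fin D → ℝ} {C : ℝ}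
    (h : ∀ k, 1 ≤ k → k < r → ‖iteratedFDeriv ℝ k g x‖ ≤ C) (hC : 0 ≤ C) {m : Fin D →₀ ℕ}
    (hm : m ≠ 0) : |coeff m (tay r g x)| ≤ r * (D + 1) ^ r * C := by
  rw [coeff_tay]
  refine (Finset.abs_sum_le_sum_abs _ _).trans ?_
  have : ∀ k ∈ Finset.range r,
      |∑ σ : Fin k → Fin D, if wexp σ = m then wco g x σ else 0| ≤ (D + 1) ^ r * C := by
    intro k hk
    have hk' := Finset.mem_range.1 hk
    refine (Finset.abs_sum_le_sum_abs _ _).trans ?_
    refine (Finset.sum_le_card_nsmul _ _ C fun σ _ => ?_).trans ?_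
    · split_ifs with e
      · refine (abs_wco_le σ).trans (h k ?_ hk')
        have h1 := degree_wexp σ
        rw [e] at h1
        exact Nat.one_le_iff_ne_zero.2 fun e' => hm ((Finsupp.degree_eq_zero_iff m).1 (h1.trans e'))
      · simpa using hC
    · rw [Finset.card_univ, Fintype.card_fun, Fintype.card_fin, Fintype.card_fin, nsmul_eq_mul]
      refine mul_le_mul_of_nonneg_right ?_ hC
      push_cast
      exact (pow_le_pow_left₀ (by positivity) (by linarith) k).trans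
        (pow_le_pow_right₀ (by linarith [(Nat.cast_nonneg D : (0 : ℝ) ≤ D)]) hk'.le)
  refine (Finset.sum_le_card_nsmul _ _ _ this).trans (le_of_eq ?_)
  rw [Finset.card_range, nsmul_eq_mul, mul_assoc]

/-- `f` in two charts -/
def locv (ψ : M → OpenPartialHomeomorph M (Fin D → ℝ)) (f : M → M) (x y : M) :
    (Fin D → ℝ) → Fin D → ℝ := ψ y ∘ f ∘ (ψ x).symm

variable {ψ : M → OpenPartialHomeomorph M (Fin D → ℝ)} {f g : M → M}

theorem Smo.locv (hf : Smo ψ f) (x y : M) : ContDiffOn ℝ ∞ (locv ψ f x y) (dom ψ f x y) := hf.2 x y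

theorem Smo.norm_loc_le (hf : Smo ψ f) {x y : M} {u : Fin D → ℝ} (hu : u ∈ dom ψ f x y) (k : ℕ)
    (l : Fin D) :
    ‖iteratedFDeriv ℝ k (Jet.loc ψ f x y l) u‖ ≤ ‖iteratedFDeriv ℝ k (Jet.locv ψ f x y) u‖ := by
  have h := ContinuousLinearMap.norm_iteratedFDeriv_comp_left
    (ContinuousLinearMap.proj l : (Fin D → ℝ) →L[ℝ] ℝ)
    ((hf.locv x y).contDiffAt ((hf.isOpen_dom x y).mem_nhds hu)) (n := k) (by exact_mod_cast le_top)
  refine le_trans h (mul_le_of_le_one_left (norm_nonneg _) ?_)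
  exact ContinuousLinearMap.opNorm_le_bound _ zero_le_one fun v => by
    simpa using norm_le_pi_norm v l

theorem Smo.boundv (hf : Smo ψ f) {x y : M} {Q Q' : Set M} (hQ : IsCompact Q) (hQ' : IsCompact Q')
    (h1 : Q ⊆ (ψ x).source) (h2 : Q' ⊆ (ψ y).source) (k : ℕ) :
    ∃ C, ∀ z ∈ Q, f z ∈ Q' → ‖iteratedFDeriv ℝ k (Jet.locv ψ f x y) (ψ x z)‖ ≤ C := by
  have hU := hf.isOpen_dom x y
  have h3 : ContinuousOn (iteratedFDeriv ℝ k (Jet.locv ψ f x y)) (dom ψ f x y) :=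
    ((hf.locv x y).continuousOn_iteratedFDerivWithin (by exact_mod_cast le_top)
      hU.uniqueDiffOn).congr fun x hx => (iteratedFDerivWithin_of_isOpen k hU hx).symm
  have h4 : IsCompact (Q ∩ f ⁻¹' Q') := hQ.inter_right (hQ'.isClosed.preimage hf.1)
  obtain ⟨C, hC⟩ := h4.exists_bound_of_continuousOn
    (h3.comp ((ψ x).continuousOn.mono fun z hz => h1 hz.1) fun z hz => mem_dom (h1 hz.1) (h2 hz.2))
  exact ⟨C, fun z hz hz' => hC z ⟨hz, hz'⟩⟩

theorem Smo.comp_bound (hf : Smo ψ f) (hg : Smo ψ g) {x y z w : M} (hx : w ∈ (ψ x).source)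
    (hy : f w ∈ (ψ y).source) (hz : g (f w) ∈ (ψ z).source) {n : ℕ} {C Λ : ℝ}
    (hC : ∀ i ≤ n, ‖iteratedFDeriv ℝ i (Jet.locv ψ g y z) (ψ y (f w))‖ ≤ C)
    (hΛ : ∀ i, 1 ≤ i → i ≤ n → ‖iteratedFDeriv ℝ i (Jet.locv ψ f x y) (ψ x w)‖ ≤ Λ ^ i) :
    ‖iteratedFDeriv ℝ n (Jet.locv ψ (g ∘ f) x z) (ψ x w)‖ ≤ n ! * C * Λ ^ n := by
  have o1 := hf.isOpen_dom x y
  have o2 := hg.isOpen_dom y z
  set s := dom ψ f x y ∩ Jet.locv ψ f x y ⁻¹' dom ψ g y z with hs
  have o3 : IsOpen s := (hf.locv x y).continuousOn.isOpen_inter_preimage o1 o2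
  have e0 : Jet.locv ψ f x y (ψ x w) = ψ y (f w) := by simp [Jet.locv, (ψ x).left_inv hx]
  have m2 : ψ y (f w) ∈ dom ψ g y z := mem_dom hy hz
  have m3 : ψ x w ∈ s := ⟨mem_dom hx hy, by rw [mem_preimage, e0]; exact m2⟩
  have h := norm_iteratedFDerivWithin_comp_le (n := n) (hg.locv y z)
    ((hf.locv x y).mono (inter_subset_left : s ⊆ _)) (by exact_mod_cast le_top) o2.uniqueDiffOn
    o3.uniqueDiffOn (fun _ hu => hu.2) m3 (C := C) (D := Λ)
    (fun i hi => by rw [e0, iteratedFDerivWithin_of_isOpen i o2 m2]; exact hC i hi)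
    (fun i h1 hi => by rw [iteratedFDerivWithin_of_isOpen i o3 m3]; exact hΛ i h1 hi)
  rw [iteratedFDerivWithin_of_isOpen n o3 m3] at h
  have e : Jet.locv ψ (g ∘ f) x z =ᶠ[𝓝 (ψ x w)] Jet.locv ψ g y z ∘ Jet.locv ψ f x y := by
    filter_upwards [o3.mem_nhds m3] with u hu
    have : f ((ψ x).symm u) ∈ (ψ y).source := hu.1.2
    simp [Jet.locv, (ψ y).left_inv this]
  rw [(e.iteratedFDeriv ℝ n).eq_of_nhds]
  exact h

variable [MeasurableSpace M] (A : Atl ψ)

namespace Atl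

/-- the derivatives of order `1 ≤ i ≤ r` of `f` in the atlas are bounded by `Λ ^ i` -/
def Bd (r : ℕ) (f : M → M) (Λ : ℝ) : Prop :=
  ∀ p q, ∀ w ∈ A.Q (A.j p), f w ∈ A.Q (A.j q) → ∀ i, 1 ≤ i → i ≤ r →
    ‖iteratedFDeriv ℝ i (locv ψ f (A.j p) (A.j q)) (ψ (A.j p) w)‖ ≤ Λ ^ i

variable {A} in
theorem Bd.mono {r : ℕ} {Λ Λ' : ℝ} (h : A.Bd r f Λ) (h0 : 0 ≤ Λ) (hΛ : Λ ≤ Λ') : A.Bd r f Λ' :=
  fun p q w h1 h2 i h3 h4 => (h p q w h1 h2 i h3 h4).trans (pow_le_pow_left₀ h0 hΛ i)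

theorem boundv (hf : Smo ψ f) (r : ℕ) : ∃ C, 1 ≤ C ∧ ∀ p q, ∀ k ≤ r, ∀ z ∈ A.Q (A.j p),
    f z ∈ A.Q (A.j q) → ‖iteratedFDeriv ℝ k (locv ψ f (A.j p) (A.j q)) (ψ (A.j p) z)‖ ≤ C := by
  have := A.fin.to_subtype
  have h : ∀ a : range A.j × range A.j × Fin (r + 1), ∃ C, ∀ z ∈ A.Q a.1, f z ∈ A.Q a.2.1 →
      ‖iteratedFDeriv ℝ a.2.2 (locv ψ f a.1 a.2.1) (ψ a.1 z)‖ ≤ C := by
    rintro ⟨⟨_, p, rfl⟩, ⟨_, q, rfl⟩, k⟩
    exact hf.boundv (A.cpt p) (A.cpt q) (A.sub p) (A.sub q) k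
  choose C hC using h
  obtain ⟨B, hB⟩ := (finite_range C).bddAbove
  refine ⟨max B 1, le_max_right _ _, fun p q k hk z hz hz' => ?_⟩
  exact (hC (⟨_, p, rfl⟩, ⟨_, q, rfl⟩, ⟨k, by omega⟩) z hz hz').trans
    ((hB (mem_range_self _)).trans (le_max_left _ _))

theorem exists_bd (hf : Smo ψ f) (r : ℕ) : ∃ Λ, 1 ≤ Λ ∧ A.Bd r f Λ := by
  obtain ⟨C, h1, h⟩ := A.boundv hf r
  exact ⟨C, h1, fun p q w hw hw' i hi hi' =>
    (h p q i hi' w hw hw').trans (le_self_pow₀ h1 (by omega))⟩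

theorem bd_comp (hg : Smo ψ g) (r : ℕ) : ∃ E, 1 ≤ E ∧ ∀ (f : M → M) (Λ : ℝ), Smo ψ f → 0 ≤ Λ →
    A.Bd r f Λ → A.Bd r (g ∘ f) (E * Λ) := by
  obtain ⟨C, h1, h⟩ := A.boundv hg r
  have hE : (1 : ℝ) ≤ r ! * C :=
    one_le_mul_of_one_le_of_one_le (by exact_mod_cast Nat.factorial_pos r) h1
  refine ⟨r ! * C, hE, fun f Λ hf h0 hb p q w hw hw' i hi hi' => ?_⟩
  refine (hf.comp_bound hg (A.sub p hw) (A.sub (f w) (A.mem_Q _)) (A.sub q hw') (C := C) (Λ := Λ)
    (fun k hk => h (f w) q k (hk.trans hi') _ (A.mem_Q _) hw')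
    (fun k h2 hk => hb p (f w) w hw (A.mem_Q _) k h2 (hk.trans hi'))).trans ?_
  rw [mul_pow]
  refine mul_le_mul_of_nonneg_right (le_trans ?_ (le_self_pow₀ hE (by omega))) (by positivity)
  exact mul_le_mul_of_nonneg_right (by exact_mod_cast Nat.factorial_le hi') (by linarith)

/-- Taylor estimate with explicit constants -/
theorem jet_expl (hf : Smo ψ f) {r : ℕ} (hr : 0 < r) {Λ L : ℝ} (hΛ : 1 ≤ Λ) (hb : A.Bd r f Λ)
    (hL : 1 ≤ L) (hl : ∀ z p, dist (f z) (f p) ≤ L * dist z p) {p q : M}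
    (hpq : dist (f p) q < A.δ / 2) (l : Fin D) :
      (∀ m, m ≠ 0 → |coeff m (A.T0 r f p q l)| ≤ r * (D + 1) ^ r * Λ ^ r) ∧
      ∀ z, dist z p < A.δ / (2 * A.K ^ 2 * L) →
        |A.c0 q (f z) l - eval (A.c0 p z) (A.T0 r f p q l)| ≤ Λ ^ r * ‖A.c0 p z‖ ^ r := by
  have hK := A.K_pos
  have hK1 := A.one_le
  have hδ := A.δ_pos
  have hb' : ∀ w ∈ A.Q (A.j p), f w ∈ A.Q (A.j q) → ∀ i, 1 ≤ i → i ≤ r →
      ‖iteratedFDeriv ℝ i (loc ψ f (A.j p) (A.j q) l) (ψ (A.j p) w)‖ ≤ Λ ^ r :=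
    fun w hw hw' i h1 h2 => ((hf.norm_loc_le (mem_dom (A.sub p hw) (A.sub q hw')) i l).trans
      (hb p q w hw hw' i h1 h2)).trans (pow_le_pow_right₀ hΛ h2)
  refine ⟨fun m hm => ?_, fun z hz => ?_⟩
  · rw [A.coeff_T0_of_ne r f p q l hm]
    exact abs_coeff_tay_le' (fun k h1 hk => hb' p (A.mem_Q p)
      (A.ball_sub q (hpq.trans (half_lt_self hδ))) k h1 hk.le) (by positivity) hm
  set η := A.δ / (2 * A.K ^ 2 * L) with hη
  have hη0 : 0 < η := by positivity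
  have hη1 : L * (A.K * (A.K * η)) = A.δ / 2 := by rw [hη]; field_simp
  have a1 : η ≤ A.K * η := le_mul_of_one_le_left hη0.le hK1
  have a2 : A.K * η ≤ A.K * (A.K * η) := le_mul_of_one_le_left (by positivity) hK1
  have a3 : A.K * (A.K * η) ≤ L * (A.K * (A.K * η)) := le_mul_of_one_le_left (by positivity) hL
  have hzδ : dist z p < A.δ := by linarith
  have hv : ‖A.c0 p z‖ < A.K * η := (A.norm_c0_le hzδ).trans_lt (mul_lt_mul_of_pos_left hz hK)
  have seg : ∀ t ∈ Icc (0 : ℝ) 1, ∃ w ∈ A.Q (A.j p), f w ∈ A.Q (A.j q) ∧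
      ψ (A.j p) w = ψ (A.j p) p + t • A.c0 p z := by
    intro t ht
    have h1 : ‖t • A.c0 p z‖ < A.K * η := by
      rw [norm_smul, Real.norm_of_nonneg ht.1]
      exact (mul_le_of_le_one_left (norm_nonneg _) ht.2).trans_lt hv
    obtain ⟨w, hw, e⟩ := A.onto p (t • A.c0 p z) (by linarith)
    refine ⟨w, hw, A.ball_sub q ?_, e⟩
    have h3 := (A.lip p w hw p (A.mem_Q p)).2
    rw [e, add_sub_cancel_left] at h3
    have h4 := h3.trans (mul_le_mul_of_nonneg_left h1.le hK.le)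
    have h5 := (hl w p).trans (mul_le_mul_of_nonneg_left h4 (by linarith))
    exact mem_ball.2 (by linarith [dist_triangle (f w) (f p) q])
  have key := abs_sub_tay_le (r := r) (g := loc ψ f (A.j p) (A.j q) l) (x := ψ (A.j p) p)
    (v := A.c0 p z) (C := Λ ^ r) (fun t ht => by
      obtain ⟨w, hw, hw', e⟩ := seg t ht
      rw [← e]
      exact (hf.loc _ _ l).contDiffAt
        ((hf.isOpen_dom _ _).mem_nhds (mem_dom (A.sub p hw) (A.sub q hw')))) (fun t ht => by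
      obtain ⟨w, hw, hw', e⟩ := seg t ht
      rw [← e]
      exact hb' w hw hw' r hr le_rfl)
  have e1 : ψ (A.j p) p + A.c0 p z = ψ (A.j p) z := by simp [c0]
  rw [e1, loc, (ψ _).left_inv (A.sub p (A.ball_sub p hzδ))] at key
  refine le_trans (le_of_eq ?_) key
  congr 1
  simp only [T0, map_sub, eval_C, c0, Pi.sub_apply]
  ring

end Atl

/-- exponential growth along words -/
theorem word_exp {Γ : Type} [Group Γ] (len : Γ → ℕ) (S : Set Γ) (hS : S.Finite)
    (h0 : ∀ γ, len γ = 0 → γ = 1)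
    (hstep : ∀ γ n, len γ ≤ n + 1 → ∃ s ∈ S, ∃ γ', len γ' ≤ n ∧ γ = s * γ')
    (P : Γ → ℝ → Prop) (hmono : ∀ γ a b, 0 ≤ a → a ≤ b → P γ a → P γ b)
    (h1 : ∃ a, 1 ≤ a ∧ P 1 a)
    (hs : ∀ s, ∃ E, 1 ≤ E ∧ ∀ γ a, 0 ≤ a → P γ a → P (s * γ) (E * a)) :
    ∃ L : ℝ, 0 ≤ L ∧ ∀ γ, P γ (Real.exp (L * (1 + len γ))) := by
  choose E hE hE' using hs
  obtain ⟨a, ha, hP⟩ := h1
  obtain ⟨B, hB⟩ := (hS.image E).bddAbove
  set F := max a B with hF
  have hF1 : 1 ≤ F := ha.trans (le_max_left _ _)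
  have key : ∀ n γ, len γ ≤ n → P γ (F ^ (n + 1)) := by
    intro n
    induction n with
    | zero =>
      intro γ hγ
      rw [h0 γ (by omega)]
      exact hmono _ _ _ (by linarith) (by simp [hF]) hP
    | succ n ih =>
      intro γ hγ
      obtain ⟨s, hs, γ', h2, rfl⟩ := hstep γ n hγ
      refine hmono _ _ _ (mul_nonneg (by linarith [hE s]) (by positivity)) ?_
        (hE' s γ' _ (by positivity) (ih γ' h2))
      rw [pow_succ' F (n + 1)]
      exact mul_le_mul_of_nonneg_right ((hB (mem_image_of_mem _ hs)).trans (le_max_right _ _))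
        (by positivity)
  refine ⟨Real.log F, Real.log_nonneg hF1, fun γ => ?_⟩
  have : Real.exp (Real.log F * (1 + len γ)) = F ^ (len γ + 1) := by
    rw [mul_comm, show (1 : ℝ) + len γ = ((len γ + 1 : ℕ) : ℝ) by push_cast; ring,
      Real.exp_nat_mul, Real.exp_log (by linarith)]
  rw [this]
  exact key _ γ le_rfl

section words
variable [CompactSpace M] {Γ : Type} [Group Γ] {α : Γ → M → M} (hα : ∀ γ, Smo ψ (α γ))
  (hmul : ∀ γ γ' p, α (γ * γ') p = α γ (α γ' p)) {len : Γ → ℕ} {S : Set Γ} (hS : S.Finite)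
  (h0 : ∀ γ, len γ = 0 → γ = 1)
  (hstep : ∀ γ n, len γ ≤ n + 1 → ∃ s ∈ S, ∃ γ', len γ' ≤ n ∧ γ = s * γ')
include A hα hmul hS h0 hstep

theorem Atl.lip_words : ∃ L : ℝ, 0 ≤ L ∧ ∀ γ z p,
    dist (α γ z) (α γ p) ≤ Real.exp (L * (1 + len γ)) * dist z p := by
  refine word_exp len S hS h0 hstep (fun γ a => ∀ z p, dist (α γ z) (α γ p) ≤ a * dist z p)
    (fun γ a b _ hab h z p => (h z p).trans (mul_le_mul_of_nonneg_right hab dist_nonneg))
    (A.lipschitz (hα 1)) fun s => ?_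
  obtain ⟨E, hE, h⟩ := A.lipschitz (hα s)
  refine ⟨E, hE, fun γ a _ h' z p => ?_⟩
  rw [hmul, hmul, mul_assoc]
  exact (h _ _).trans (mul_le_mul_of_nonneg_left (h' z p) (by linarith))

omit [CompactSpace M] in
theorem Atl.bd_words (r : ℕ) : ∃ L : ℝ, 0 ≤ L ∧ ∀ γ,
    A.Bd r (α γ) (Real.exp (L * (1 + len γ))) := by
  refine word_exp len S hS h0 hstep (fun γ a => A.Bd r (α γ) a)
    (fun γ a b h0 hab h => h.mono h0 hab) (A.exists_bd (hα 1) r) fun s => ?_
  obtain ⟨E, hE, h⟩ := A.bd_comp (hα s) r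
  refine ⟨E, hE, fun γ a ha h' => ?_⟩
  have e : α (s * γ) = α s ∘ α γ := funext (hmul s γ)
  rw [e]
  exact h _ a (hα γ) ha h'

end words

end Pool.Agent.P.MP_d483fb_an.Z.Jet

end

end

section

/-!
Coefficients of a polynomial are controlled by its values on a ball; measurability of charts and
jets.
-/

open Set Metric MvPolynomial Filter
open scoped Topology ContDiff Nat Manifold

noncomputable section

namespace Pool.Agent.P.MP_d483fb_an.Z.Jet

variable {D : ℕ}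

/-- all monomials have degree `< r` -/
def Low (r : ℕ) (P : MvPolynomial (Fin D) ℝ) : Prop := ∀ m, r ≤ m.degree → coeff m P = 0

/-- the exponents of degree `< r` -/
def mons (D r : ℕ) : Finset (Fin D →₀ ℕ) := (Finsupp.finite_of_degree_lt r).toFinset

theorem mem_mons {r : ℕ} {m : Fin D →₀ ℕ} : m ∈ mons D r ↔ m.degree < r := by simp [mons]

theorem Low.eval_eq {r : ℕ} {P : MvPolynomial (Fin D) ℝ} (h : Low r P) (v : Fin D → ℝ) :
    eval v P = ∑ m ∈ mons D r, coeff m P * ∏ i, v i ^ m i := by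
  rw [eval_eq']
  refine Finset.sum_subset (fun m hm => mem_mons.2 ?_) fun m _ hm => ?_
  · by_contra hn
    exact mem_support_iff.1 hm (h m (not_lt.1 hn))
  · rw [notMem_support_iff.1 hm, zero_mul]

theorem Low.sub {r : ℕ} {P Q : MvPolynomial (Fin D) ℝ} (h : Low r P) (h' : Low r Q) :
    Low r (P - Q) := fun m hm => by rw [coeff_sub, h m hm, h' m hm, sub_zero]

theorem abs_mon_le (v : Fin D → ℝ) (m : Fin D →₀ ℕ) : |∏ i, v i ^ m i| ≤ ‖v‖ ^ m.degree := by
  rw [Finset.abs_prod, Finsupp.degree_eq_sum, ← Finset.prod_pow_eq_pow_sum]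
  refine Finset.prod_le_prod (fun _ _ => abs_nonneg _) fun i _ => ?_
  rw [abs_pow]
  exact pow_le_pow_left₀ (abs_nonneg _) (norm_le_pi_norm v i) _

theorem mon_smul (ρ : ℝ) (v : Fin D → ℝ) (m : Fin D →₀ ℕ) :
    ∏ i, (ρ • v) i ^ m i = ρ ^ m.degree * ∏ i, v i ^ m i := by
  rw [Finsupp.degree_eq_sum, ← Finset.prod_pow_eq_pow_sum, ← Finset.prod_mul_distrib]
  exact Finset.prod_congr rfl fun i _ => by simp [mul_pow]

theorem exists_coef_bound (D r : ℕ) : ∃ C : ℝ, 0 < C ∧ ∀ (a : (Fin D →₀ ℕ) → ℝ) (B : ℝ),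
    (∀ v : Fin D → ℝ, ‖v‖ ≤ 1 → |∑ m ∈ mons D r, a m * ∏ i, v i ^ m i| ≤ B) →
      ∀ m ∈ mons D r, |a m| ≤ C * B := by
  classical
  let b : mons D r → C(closedBall (0 : Fin D → ℝ) 1, ℝ) := fun m =>
    ⟨fun v => ∏ i, v.1 i ^ m.1 i, continuous_finsetProd _ fun i _ =>
      ((continuous_apply i).comp continuous_subtype_val).pow _⟩
  let Φ := Fintype.linearCombination ℝ b
  have hΦ : ∀ (a : (Fin D →₀ ℕ) → ℝ) v,
      Φ (fun m => a m) v = ∑ m ∈ mons D r, a m * ∏ i, v.1 i ^ m i := by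
    intro a v
    rw [← Finset.sum_coe_sort (mons D r)]
    simp [Φ, Fintype.linearCombination_apply, b]
  have hker : LinearMap.ker Φ = ⊥ := by
    refine LinearMap.ker_eq_bot'.2 fun a ha => ?_
    let a' : (Fin D →₀ ℕ) → ℝ := fun m => if h : m ∈ mons D r then a ⟨m, h⟩ else 0
    have e : a = fun m : mons D r => a' m := funext fun m => by simp [a', m.2]
    have h1 : (∑ m ∈ mons D r, monomial m (a' m) : MvPolynomial (Fin D) ℝ) = 0 := by
      refine funext_set (fun _ => Icc (-1) 1) (fun _ => Icc_infinite (by norm_num)) fun x hx => ?_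
      have hx' : x ∈ closedBall (0 : Fin D → ℝ) 1 := by
        rw [mem_closedBall_zero_iff, pi_norm_le_iff_of_nonneg zero_le_one]
        exact fun i => abs_le.2 (hx i trivial)
      have h2 := hΦ a' ⟨x, hx'⟩
      rw [← e, ha] at h2
      rw [map_sum, map_zero]
      refine Eq.trans (Finset.sum_congr rfl fun m _ => ?_) h2.symm
      rw [eval_monomial, Finsupp.prod_fintype _ _ (by simp)]
    funext m
    have h3 := congrArg (coeff m.1) h1
    simp only [coeff_sum, coeff_monomial, Finset.sum_ite_eq', m.2, if_true, coeff_zero] at h3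
    rw [e]
    exact h3
  obtain ⟨κ, hκ, hanti⟩ := Φ.exists_antilipschitzWith hker
  refine ⟨κ, hκ, fun a B h m hm => ?_⟩
  have hB : 0 ≤ B := (abs_nonneg _).trans (h 0 (by simp))
  have h1 : ‖Φ fun m => a m‖ ≤ B := (ContinuousMap.norm_le _ hB).2 fun v => by
    rw [hΦ]; exact h v.1 (mem_closedBall_zero_iff.1 v.2)
  have h2 := hanti.le_mul_dist (fun m => a m) 0
  rw [map_zero, dist_zero_right, dist_zero_right] at h2
  exact ((norm_le_pi_norm (fun m : mons D r => a m) ⟨m, hm⟩).trans h2).trans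
    (mul_le_mul_of_nonneg_left h1 κ.2)

/-- the coefficients are bounded by the values on a ball -/
theorem exists_coeff_le (D r : ℕ) : ∃ C : ℝ, 0 < C ∧ ∀ P : MvPolynomial (Fin D) ℝ, Low r P →
    ∀ ρ B : ℝ, 0 < ρ → (∀ v, ‖v‖ ≤ ρ → |eval v P| ≤ B) →
      ∀ m, |coeff m P| * ρ ^ m.degree ≤ C * B := by
  obtain ⟨C, hC, h⟩ := exists_coef_bound D r
  refine ⟨C, hC, fun P hP ρ B hρ hB m => ?_⟩
  have hB0 : 0 ≤ B := (abs_nonneg _).trans (hB 0 (by simpa using hρ.le))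
  by_cases hm : m.degree < r
  · have := h (fun m => coeff m P * ρ ^ m.degree) B (fun v hv => by
      have h1 := hB (ρ • v) (by
        rw [norm_smul, Real.norm_of_nonneg hρ.le]
        exact mul_le_of_le_one_right hρ.le hv)
      rw [hP.eval_eq] at h1
      simpa only [mon_smul, mul_assoc] using h1) m (mem_mons.2 hm)
    rwa [abs_mul, abs_of_pos (pow_pos hρ _)] at this
  · rw [hP m (not_lt.1 hm), abs_zero, zero_mul]
    positivity

/-- uniqueness of jets -/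
theorem Low.eq_zero {r : ℕ} {P : MvPolynomial (Fin D) ℝ} (hP : Low r P) {E ρ : ℝ} (hρ : 0 < ρ)
    (h : ∀ v, ‖v‖ < ρ → |eval v P| ≤ E * ‖v‖ ^ r) : P = 0 := by
  obtain ⟨C, hC, hb⟩ := exists_coeff_le D r
  ext m
  rw [coeff_zero]
  by_cases hm : m.degree < r
  swap
  · exact hP m (not_lt.1 hm)
  have key : ∀ t : ℝ, 0 < t → t < min ρ 1 → |coeff m P| ≤ C * |E| * t := by
    intro t ht ht'
    have h1 := hb P hP t (|E| * t ^ r) ht (fun v hv => (h v (hv.trans_lt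
      (ht'.trans_le (min_le_left _ _)))).trans ((mul_le_mul_of_nonneg_right (le_abs_self E)
        (by positivity)).trans (by gcongr))) m
    have h2 : t ^ r ≤ t * t ^ m.degree := by
      rw [← pow_succ']
      exact pow_le_pow_of_le_one ht.le (ht'.trans_le (min_le_right _ _)).le hm
    refine le_of_mul_le_mul_right (h1.trans ?_) (pow_pos ht m.degree)
    rw [mul_assoc, mul_assoc]
    gcongr
  have h3 : Tendsto (fun t : ℝ => C * |E| * t) (𝓝[>] 0) (𝓝 0) := by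
    have : Tendsto (fun t : ℝ => C * |E| * t) (𝓝 0) (𝓝 (C * |E| * 0)) :=
      (continuous_const.mul continuous_id).tendsto 0
    rw [mul_zero] at this
    exact this.mono_left nhdsWithin_le_nhds
  refine abs_nonpos_iff.1 (ge_of_tendsto h3 ?_)
  filter_upwards [Ioo_mem_nhdsGT (lt_min hρ one_pos)] with t ht using key t ht.1 ht.2

/-- values are bounded by the coefficients -/
theorem Low.abs_eval_le {r : ℕ} {P : MvPolynomial (Fin D) ℝ} (hP : Low r P) {B : ℝ} {k : ℕ}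
    (hB : ∀ m, |coeff m P| ≤ B) (hk : ∀ m, m.degree < k → coeff m P = 0) {v : Fin D → ℝ} {R : ℝ}
    (hR : 1 ≤ R) (hv : ‖v‖ ≤ R) : |eval v P| ≤ (mons D r).card * B * R ^ r * ‖v‖ ^ k := by
  have hB0 : 0 ≤ B := (abs_nonneg _).trans (hB 0)
  rw [hP.eval_eq, mul_assoc, mul_assoc, ← nsmul_eq_mul]
  refine (Finset.abs_sum_le_sum_abs _ _).trans (Finset.sum_le_card_nsmul _ _ _ fun m hm => ?_)
  by_cases h : m.degree < k
  · rw [hk m h, zero_mul, abs_zero]
    positivity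
  rw [abs_mul]
  refine mul_le_mul (hB m) ((abs_mon_le v m).trans ?_) (abs_nonneg _) hB0
  obtain ⟨j, hj⟩ := Nat.exists_eq_add_of_le' (not_lt.1 h)
  rw [hj, pow_add]
  refine mul_le_mul_of_nonneg_right ((pow_le_pow_left₀ (norm_nonneg _) hv j).trans
    (pow_le_pow_right₀ hR ?_)) (by positivity)
  have := mem_mons.1 hm
  omega

variable {M : Type} [MetricSpace M] [MeasurableSpace M]
  {ψ : M → OpenPartialHomeomorph M (Fin D → ℝ)} (A : Atl ψ) {f : M → M}

namespace Atl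

theorem low_T0 {r : ℕ} (hr : 0 < r) (f : M → M) (p q : M) (l : Fin D) : Low r (A.T0 r f p q l) :=
  fun _ hm => A.coeff_T0_of_le hr f p q l hm

open Classical in
/-- the centred chart, extended by zero -/
def c (p z : M) : Fin D → ℝ := if dist z p < A.δ then A.c0 p z else 0

theorem c_eq {p z : M} (h : dist z p < A.δ) : A.c p z = A.c0 p z := if_pos h

theorem c_self (p : M) : A.c p p = 0 := by rw [A.c_eq (by simpa using A.δ_pos), c0_self]

theorem norm_c_le (p z : M) : ‖A.c p z‖ ≤ A.K * dist z p := by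
  unfold c
  split_ifs with h
  · exact A.norm_c0_le h
  · rw [norm_zero]; exact mul_nonneg A.K_pos.le dist_nonneg

theorem norm_c_le' (p z : M) : ‖A.c p z‖ ≤ A.K * A.δ := by
  unfold c
  split_ifs with h
  · exact (A.norm_c0_le h).trans (mul_le_mul_of_nonneg_left h.le A.K_pos.le)
  · rw [norm_zero]; exact mul_nonneg A.K_pos.le A.δ_pos.le

theorem c_biL (p : M) : BiL (A.c p) A.K (ball p A.δ) := fun z hz z' hz' => by
  rw [A.c_eq hz, A.c_eq hz', c0_sub]
  exact A.lip p z (A.ball_sub p hz) z' (A.ball_sub p hz')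

theorem c_onto (p : M) {v : Fin D → ℝ} (hv : ‖v‖ < A.δ / A.K) :
    ∃ z, dist z p ≤ A.K * ‖v‖ ∧ dist z p < A.δ ∧ A.c p z = v := by
  have hK := A.K_pos
  obtain ⟨z, hz, e⟩ := A.onto p v (hv.trans_le (div_le_self A.δ_pos.le A.one_le))
  have h1 := (A.lip p z hz p (A.mem_Q p)).2
  rw [e, add_sub_cancel_left] at h1
  have h2 : dist z p < A.δ := h1.trans_lt (by rwa [lt_div_iff₀' hK] at hv)
  exact ⟨z, h1, h2, by rw [A.c_eq h2, c0, e, add_sub_cancel_left]⟩

open Classical in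
/-- the jet of `f` at `p` in the chart centred at `q`, extended by zero -/
def T (r : ℕ) (f : M → M) (p q : M) (l : Fin D) : MvPolynomial (Fin D) ℝ :=
  if dist (f p) q < A.δ / 2 then A.T0 r f p q l else 0

theorem T_eq (r : ℕ) {p q : M} (h : dist (f p) q < A.δ / 2) (l : Fin D) :
    A.T r f p q l = A.T0 r f p q l := if_pos h

variable [BorelSpace M] [SecondCountableTopology M]

theorem measurable_c : Measurable fun x : M × M => A.c x.1 x.2 := by
  have := A.fin.to_subtype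
  have ho : MeasurableSet {x : M × M | dist x.2 x.1 < A.δ} :=
    (isOpen_lt (by fun_prop) continuous_const).measurableSet
  refine measurable_of_cover (fun i : Option (range A.j) => match i with
    | none => {x : M × M | dist x.2 x.1 < A.δ}ᶜ
    | some i => {x : M × M | dist x.2 x.1 < A.δ} ∩ Prod.fst ⁻¹' (A.j ⁻¹' {i.1})) ?_ ?_ ?_
  · rintro (_ | i)
    · exact ho.compl
    · exact ho.inter (measurable_fst (A.meas _))
  · intro x
    by_cases h : dist x.2 x.1 < A.δ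
    · exact ⟨some ⟨_, x.1, rfl⟩, h, rfl⟩
    · exact ⟨none, h⟩
  · rintro (_ | ⟨i, hi⟩)
    · exact continuousOn_const.congr fun x hx => if_neg hx
    · refine ContinuousOn.congr (f := fun x => ψ i x.2 - ψ i x.1) ?_ ?_
      · refine ((ψ i).continuousOn.comp continuousOn_snd ?_).sub
          ((ψ i).continuousOn.comp continuousOn_fst ?_)
        · rintro x ⟨h1, rfl⟩
          exact A.sub _ (A.ball_sub _ h1)
        · rintro x ⟨_, rfl⟩
          exact A.sub _ (A.mem_Q _)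
      · rintro x ⟨h1, rfl⟩
        exact A.c_eq h1

theorem measurable_T (hf : Smo ψ f) (r : ℕ) (l : Fin D) (m : Fin D →₀ ℕ) :
    Measurable fun x : M × M => coeff m (A.T r f x.1 x.2 l) := by
  classical
  have := A.fin.to_subtype
  have hc := hf.1
  have ho : MeasurableSet {x : M × M | dist (f x.1) x.2 < A.δ / 2} :=
    (isOpen_lt (by fun_prop) continuous_const).measurableSet
  refine measurable_of_cover (fun i : Option (range A.j × range A.j) => match i with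
    | none => {x : M × M | dist (f x.1) x.2 < A.δ / 2}ᶜ
    | some i => {x : M × M | dist (f x.1) x.2 < A.δ / 2} ∩
        (Prod.fst ⁻¹' (A.j ⁻¹' {i.1.1}) ∩ Prod.snd ⁻¹' (A.j ⁻¹' {i.2.1}))) ?_ ?_ ?_
  · rintro (_ | i)
    · exact ho.compl
    · exact ho.inter ((measurable_fst (A.meas _)).inter (measurable_snd (A.meas _)))
  · intro x
    by_cases h : dist (f x.1) x.2 < A.δ / 2
    · exact ⟨some (⟨_, x.1, rfl⟩, ⟨_, x.2, rfl⟩), h, rfl, rfl⟩
    · exact ⟨none, h⟩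
  · rintro (_ | ⟨⟨i, hi⟩, ⟨i', hi'⟩⟩)
    · refine (continuousOn_const (c := 0)).congr fun x hx => ?_
      simp only [T]
      rw [if_neg (show ¬dist (f x.1) x.2 < A.δ / 2 from hx), coeff_zero]
    · refine ContinuousOn.congr (f := fun x => coeff m (tay r (loc ψ f i i' l) (ψ i x.1)) -
        if 0 = m then ψ i' x.2 l else 0) (ContinuousOn.sub ?_ ?_) ?_
      · refine (continuousOn_coeff_tay r (hf.isOpen_dom i i') (hf.loc i i' l) m).comp
          ((ψ i).continuousOn.comp continuousOn_fst ?_) ?_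
        · rintro x ⟨_, rfl, _⟩
          exact A.sub _ (A.mem_Q _)
        · rintro x ⟨h1, rfl, rfl⟩
          exact mem_dom (A.sub _ (A.mem_Q _))
            (A.sub _ (A.ball_sub _ (lt_trans h1 (half_lt_self A.δ_pos))))
      · split_ifs
        · refine (continuous_apply l).comp_continuousOn
            ((ψ i').continuousOn.comp continuousOn_snd ?_)
          rintro x ⟨_, _, rfl⟩
          exact A.sub _ (A.mem_Q _)
        · exact continuousOn_const
      · rintro x ⟨h1, rfl, rfl⟩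
        simp only
        rw [A.T_eq r h1, T0, coeff_sub, coeff_C]

end Atl

end Pool.Agent.P.MP_d483fb_an.Z.Jet

end

end

section

/-!
An abstract frame bundle of an embedded compact manifold with an action by `C¹` maps.
-/

namespace Pool.Agent.P.MP_d483fb_an.Z.TZ

/-- A point `w` of `Ω` is a base point `x w` in `F` with a frame `φ w` of the tangent space and a
left inverse `ψ w` of the frame. The estimates express uniform differentiability. -/
structure Frm (Γ Ω E F : Type) [Group Γ] [MulAction Γ Ω] [MeasurableSpace Ω]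
    [NormedAddCommGroup E] [NormedSpace ℝ E] [NormedAddCommGroup F] [NormedSpace ℝ F]
    [MeasurableSpace F] where
  x : Ω → F
  φ : Ω → E →L[ℝ] F
  ψ : Ω → F →L[ℝ] E
  mx : Measurable x
  mφ : Measurable φ
  mψ : Measurable ψ
  inv : ∀ w v, ψ w (φ w v) = v
  tan : ∀ θ : ℝ, 0 < θ → ∃ r : ℝ, 0 < r ∧ ∀ w w', ‖x w' - x w‖ ≤ r →
    ‖x w' - x w - φ w (ψ w (x w' - x w))‖ ≤ θ * ‖x w' - x w‖ ∧
      ‖φ w' - φ w ∘L ψ w ∘L φ w'‖ ≤ θ * ‖φ w'‖
  lip : ∀ g : Γ, ∃ C r : ℝ, 0 < r ∧ ∀ w w', ‖x w' - x w‖ ≤ r →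
    ‖x (g • w') - x (g • w)‖ ≤ C * ‖x w' - x w‖
  lin : ∀ (g : Γ) (θ : ℝ), 0 < θ → ∃ r : ℝ, 0 < r ∧ ∀ w w', ‖x w' - x w‖ ≤ r →
    ‖ψ (g • w) (x (g • w') - x (g • w)) - ψ w (x w' - x w)‖ ≤
        θ * ‖ψ (g • w)‖ * ‖x w' - x w‖ ∧
      ‖ψ (g • w) ∘L φ (g • w') - ψ w ∘L φ w'‖ ≤ θ * ‖ψ (g • w)‖ * ‖φ w'‖

end Pool.Agent.P.MP_d483fb_an.Z.TZ


end

section

/-!
Row-normalised kernels `exp (-m D)`: averaged tail bound and almost invariance.
-/

open MeasureTheory Filter Topology Set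
open scoped ENNReal

noncomputable section

namespace Pool.Agent.P.MP_d483fb_an.Z.TZ

variable {Ω : Type} [MeasurableSpace Ω] {ν : Measure Ω} [IsProbabilityMeasure ν] {m : ℝ}
  {D : Ω × Ω → ℝ}

/-- The normalising factor of a row. -/
def kz (ν : Measure Ω) (m : ℝ) (D : Ω × Ω → ℝ) (w : Ω) : ℝ :=
  √(∫ w', Real.exp (-(2 * m * D (w, w'))) ∂ν)

/-- The row-normalised kernel. -/
def kf (ν : Measure Ω) (m : ℝ) (D : Ω × Ω → ℝ) (p : Ω × Ω) : ℝ :=
  Real.exp (-(m * D p)) / kz ν m D p.1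

theorem kz_int (hD : Measurable D) (h0 : ∀ p, 0 ≤ D p) (hm : 0 ≤ m) (w : Ω) :
    Integrable (fun w' => Real.exp (-(2 * m * D (w, w')))) ν := by
  refine Integrable.of_bound (Measurable.aestronglyMeasurable (by fun_prop)) 1
    (Eventually.of_forall fun w' => ?_)
  rw [Real.norm_of_nonneg (Real.exp_pos _).le, Real.exp_le_one_iff]
  have := h0 (w, w')
  have : 0 ≤ 2 * m * D (w, w') := by positivity
  linarith

theorem kz_pos (hD : Measurable D) (h0 : ∀ p, 0 ≤ D p) (hm : 0 ≤ m) (w : Ω) : 0 < kz ν m D w :=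
  Real.sqrt_pos.mpr (integral_exp_pos (kz_int hD h0 hm w))

omit [IsProbabilityMeasure ν] in
theorem kz_sq (w : Ω) : kz ν m D w ^ 2 = ∫ w', Real.exp (-(2 * m * D (w, w'))) ∂ν :=
  Real.sq_sqrt (integral_nonneg fun _ => (Real.exp_pos _).le)

theorem measurable_kz (hD : Measurable D) : Measurable (kz ν m D) := by
  have h : Measurable fun p : Ω × Ω => Real.exp (-(2 * m * D p)) := by fun_prop
  exact h.stronglyMeasurable.integral_prod_right'.measurable.sqrt

theorem measurable_kf (hD : Measurable D) : Measurable (kf ν m D) :=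
  Measurable.div (by fun_prop) ((measurable_kz hD).comp measurable_fst)

omit [IsProbabilityMeasure ν] in
theorem kf_nonneg (p : Ω × Ω) : 0 ≤ kf ν m D p := div_nonneg (Real.exp_pos _).le (Real.sqrt_nonneg _)

omit [IsProbabilityMeasure ν] in
theorem kf_sq (p : Ω × Ω) : kf ν m D p ^ 2 = Real.exp (-(2 * m * D p)) / kz ν m D p.1 ^ 2 := by
  rw [kf, div_pow, ← Real.exp_nat_mul]
  congr 2
  push_cast
  ring

theorem kf_row (hD : Measurable D) (h0 : ∀ p, 0 ≤ D p) (hm : 0 ≤ m) (w : Ω) :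
    ∫⁻ w', ENNReal.ofReal (kf ν m D (w, w') ^ 2) ∂ν = 1 := by
  simp only [kf_sq]
  rw [← ofReal_integral_eq_lintegral_ofReal ((kz_int hD h0 hm w).div_const _)
    (Eventually.of_forall fun w' => by positivity), integral_div, ← kz_sq,
    div_self (pow_pos (kz_pos hD h0 hm w) 2).ne', ENNReal.ofReal_one]

theorem kz_ge (hD : Measurable D) (h0 : ∀ p, 0 ≤ D p) (hm : 0 ≤ m) {w : Ω} {Q : Set Ω}
    (hQ : MeasurableSet Q) (h : ∀ w' ∈ Q, D (w, w') ≤ 1) :
    ENNReal.ofReal (Real.exp (-(2 * m))) * ν Q ≤ ENNReal.ofReal (kz ν m D w ^ 2) := by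
  rw [kz_sq, ofReal_integral_eq_lintegral_ofReal (kz_int hD h0 hm w)
    (Eventually.of_forall fun w' => (Real.exp_pos _).le), ← setLIntegral_const]
  refine (setLIntegral_mono' hQ fun w' hw => ?_).trans (setLIntegral_le_lintegral _ _)
  refine ENNReal.ofReal_le_ofReal (Real.exp_le_exp.mpr ?_)
  nlinarith [h w' hw]

theorem kf_fst (hD : Measurable D) (h0 : ∀ p, 0 ≤ D p) (hm : 0 ≤ m) {B : Set Ω}
    (hB : MeasurableSet B) :
    ∫⁻ p in {p | p.1 ∈ B}, ENNReal.ofReal (kf ν m D p ^ 2) ∂ν.prod ν = ν B := by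
  have hS : MeasurableSet {p : Ω × Ω | p.1 ∈ B} := measurable_fst hB
  have hf : Measurable fun p => ENNReal.ofReal (kf ν m D p ^ 2) :=
    ((measurable_kf hD).pow_const 2).ennreal_ofReal
  rw [← lintegral_indicator hS, lintegral_prod _ (hf.indicator hS).aemeasurable,
    ← lintegral_indicator_one hB]
  refine lintegral_congr fun w => ?_
  by_cases hw : w ∈ B
  · rw [indicator_of_mem hw, Pi.one_apply, ← kf_row (ν := ν) hD h0 hm w]
    exact lintegral_congr fun w' => indicator_of_mem (show (w, w') ∈ {p : Ω × Ω | p.1 ∈ B} from hw) _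
  · rw [indicator_of_notMem hw]
    exact (lintegral_congr fun w' =>
      indicator_of_notMem (show (w, w') ∉ {p : Ω × Ω | p.1 ∈ B} from hw) _).trans lintegral_zero

/-- The averaged tail bound, valid for every measure. -/
theorem kf_tail (hD : Measurable D) (h0 : ∀ p, 0 ≤ D p) {ι : Type} {G : Set Ω} {cell : Ω → ι}
    (hG : MeasurableSet G) (hc : ∀ i, MeasurableSet (G ∩ cell ⁻¹' {i}))
    (h1 : ∀ w ∈ G, ∀ w' ∈ G, cell w' = cell w → D (w, w') ≤ 1) {C q : ℝ} (hC : 0 ≤ C)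
    (hq : 0 ≤ q) (h2 : ∀ (w' : Ω) (j : ℕ), ∃ F : Finset ι, (F.card : ℝ) ≤ C * Real.exp (q * j) ∧
      ∀ w ∈ G, D (w, w') ≤ j → cell w ∈ F) (hm : q + 1 ≤ m) :
    ∫⁻ p in {p | p.1 ∈ G ∧ 2 < D p}, ENNReal.ofReal (kf ν m D p ^ 2) ∂ν.prod ν ≤
      ENNReal.ofReal (2 * C * Real.exp (3 * q - 2 * m)) := by
  have hm0 : 0 ≤ m := by linarith
  have hS : MeasurableSet {p : Ω × Ω | p.1 ∈ G ∧ 2 < D p} :=
    (measurable_fst hG).inter (measurableSet_lt measurable_const hD)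
  have hf : Measurable fun p => ENNReal.ofReal (kf ν m D p ^ 2) :=
    ((measurable_kf hD).pow_const 2).ennreal_ofReal
  rw [← lintegral_indicator hS, lintegral_prod_symm _ (hf.indicator hS).aemeasurable]
  refine (lintegral_mono fun w' => ?_).trans (by rw [lintegral_const, measure_univ, mul_one])
  choose F hF1 hF2 using h2 w'
  let u : ℕ → Ω → ℝ≥0∞ := fun j w => ∑ i ∈ F (j + 3),
    (G ∩ cell ⁻¹' {i}).indicator (fun _ => (ν (G ∩ cell ⁻¹' {i}))⁻¹) w
  have hu : ∀ j, Measurable (u j) := fun j =>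
    Finset.measurable_sum _ fun i _ => measurable_const.indicator (hc i)
  have iu : ∀ j, ∫⁻ w, u j w ∂ν ≤ ENNReal.ofReal (C * Real.exp (q * (j + 3 : ℕ))) := by
    intro j
    rw [lintegral_finsetSum _ fun i _ => measurable_const.indicator (hc i)]
    refine le_trans (Finset.sum_le_card_nsmul _ _ 1 fun i _ => ?_) ?_
    · rw [lintegral_indicator (hc i), setLIntegral_const]
      exact ENNReal.inv_mul_le_one _
    · rw [nsmul_eq_mul, mul_one, ← ENNReal.ofReal_natCast]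
      exact ENNReal.ofReal_le_ofReal (hF1 _)
  have pt : ∀ w, {p : Ω × Ω | p.1 ∈ G ∧ 2 < D p}.indicator
      (fun p => ENNReal.ofReal (kf ν m D p ^ 2)) (w, w') ≤
      ∑' j : ℕ, ENNReal.ofReal (Real.exp (-(2 * m * (j + 1)))) * u j w := by
    intro w
    by_cases hw : (w, w') ∈ {p : Ω × Ω | p.1 ∈ G ∧ 2 < D p}
    swap
    · rw [indicator_of_notMem hw]
      exact zero_le
    rw [indicator_of_mem hw]
    obtain ⟨hw1, hw2⟩ := hw
    simp only at hw1 hw2
    obtain ⟨j, hj1, hj2⟩ : ∃ j : ℕ, (j : ℝ) + 2 ≤ D (w, w') ∧ D (w, w') ≤ (j + 3 : ℕ) := by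
      refine ⟨⌊D (w, w') - 2⌋₊, ?_, ?_⟩
      · linarith [Nat.floor_le (show 0 ≤ D (w, w') - 2 by linarith)]
      · push_cast
        linarith [Nat.lt_floor_add_one (D (w, w') - 2)]
    refine le_trans ?_ (ENNReal.le_tsum j)
    have e1 : (ν (G ∩ cell ⁻¹' {cell w}))⁻¹ ≤ u j w := by
      refine le_trans (le_of_eq ?_) (Finset.single_le_sum (f := fun i =>
        (G ∩ cell ⁻¹' {i}).indicator (fun _ => (ν (G ∩ cell ⁻¹' {i}))⁻¹) w)
        (fun _ _ => zero_le) (hF2 _ w hw1 hj2))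
      rw [indicator_of_mem (show w ∈ G ∩ cell ⁻¹' {cell w} from ⟨hw1, rfl⟩)]
    refine le_trans ?_ (mul_le_mul_right e1 _)
    have e2 := kz_ge (ν := ν) hD h0 hm0 (w := w) (hc (cell w)) fun v hv => h1 w hw1 v hv.1 hv.2
    have e3 := pow_pos (kz_pos (ν := ν) hD h0 hm0 w) 2
    rw [kf_sq, ← div_eq_mul_inv, ENNReal.le_div_iff_mul_le (Or.inr (by simp [Real.exp_pos]))
      (Or.inl (measure_ne_top _ _))]
    have e4 : ν (G ∩ cell ⁻¹' {cell w}) ≤
        ENNReal.ofReal (Real.exp (2 * m) * kz ν m D w ^ 2) := by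
      rw [ENNReal.ofReal_mul (Real.exp_pos _).le]
      refine le_trans (le_of_eq ?_) (mul_le_mul_right e2 _)
      rw [← mul_assoc, ← ENNReal.ofReal_mul (Real.exp_pos _).le, ← Real.exp_add]
      simp
    refine (mul_le_mul_right e4 _).trans ?_
    rw [← ENNReal.ofReal_mul (by positivity)]
    refine ENNReal.ofReal_le_ofReal ?_
    rw [div_mul_eq_mul_div, ← mul_assoc, mul_div_assoc, div_self e3.ne', mul_one, ← Real.exp_add]
    exact Real.exp_le_exp.mpr (by nlinarith)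
  refine (lintegral_mono pt).trans ?_
  rw [lintegral_tsum fun j => ((hu j).const_mul _).aemeasurable]
  have tm : ∀ j : ℕ, ∫⁻ w, ENNReal.ofReal (Real.exp (-(2 * m * (j + 1)))) * u j w ∂ν ≤
      ENNReal.ofReal (C * Real.exp (3 * q - 2 * m) * (1 / 2) ^ j) := by
    intro j
    rw [lintegral_const_mul _ (hu j)]
    refine (mul_le_mul_right (iu j) _).trans ?_
    rw [← ENNReal.ofReal_mul (Real.exp_pos _).le]
    refine ENNReal.ofReal_le_ofReal ?_
    have a1 : Real.exp (-1) ≤ 1 / 2 := by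
      rw [Real.exp_neg, one_div]
      exact inv_anti₀ (by norm_num) (by linarith [Real.add_one_le_exp (1 : ℝ)])
    have a2 : Real.exp (-(j : ℝ)) ≤ (1 / 2) ^ j := by
      rw [show -(j : ℝ) = j * -1 by ring, Real.exp_nat_mul]
      exact pow_le_pow_left₀ (Real.exp_pos _).le a1 j
    rw [mul_left_comm, mul_assoc C]
    refine mul_le_mul_of_nonneg_left (le_trans ?_ (mul_le_mul_of_nonneg_left a2
      (Real.exp_pos _).le)) hC
    rw [← Real.exp_add, ← Real.exp_add]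
    refine Real.exp_le_exp.mpr ?_
    push_cast
    nlinarith [(Nat.cast_nonneg j : (0 : ℝ) ≤ j)]
  refine (ENNReal.tsum_le_tsum tm).trans (le_of_eq ?_)
  rw [← ENNReal.ofReal_tsum_of_nonneg (fun j => by positivity)
    (summable_geometric_two.mul_left _), tsum_mul_left, tsum_geometric_two]
  congr 1
  ring

omit [IsProbabilityMeasure ν] in
/-- Two unit vectors, one of which nearly dominates the other on a large set, are close. -/
theorem sq_sub_le {a b : Ω → ℝ} (ha : Measurable a) (hb : Measurable b) (a0 : ∀ w, 0 ≤ a w)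
    (b0 : ∀ w, 0 ≤ b w) (a1 : ∫⁻ w, ENNReal.ofReal (a w ^ 2) ∂ν = 1)
    (b1 : ∫⁻ w, ENNReal.ofReal (b w ^ 2) ∂ν = 1) {B : Set Ω} (hB : MeasurableSet B) {κ : ℝ}
    (k0 : 0 ≤ κ) (k1 : κ ≤ 1) (h : ∀ w ∉ B, κ * a w ≤ b w) :
    ∫⁻ w, ENNReal.ofReal ((a w - b w) ^ 2) ∂ν ≤
      ENNReal.ofReal (2 - 2 * κ) + 2 * ∫⁻ w in B, ENNReal.ofReal (a w ^ 2) ∂ν := by
  have ma : Measurable fun w => ENNReal.ofReal (a w ^ 2) := (ha.pow_const 2).ennreal_ofReal
  have mb : Measurable fun w => ENNReal.ofReal (b w ^ 2) := (hb.pow_const 2).ennreal_ofReal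
  have pt : ∀ w, ENNReal.ofReal ((a w - b w) ^ 2) + ENNReal.ofReal (2 * κ) * ENNReal.ofReal (a w ^ 2)
      ≤ ENNReal.ofReal (a w ^ 2) + ENNReal.ofReal (b w ^ 2) +
        2 * B.indicator (fun w => ENNReal.ofReal (a w ^ 2)) w := by
    intro w
    have := a0 w
    have := b0 w
    rw [← ENNReal.ofReal_mul (by positivity), ← ENNReal.ofReal_add (by positivity) (by positivity),
      ← ENNReal.ofReal_add (by positivity) (by positivity)]
    by_cases hw : w ∈ B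
    · rw [indicator_of_mem hw, ← ENNReal.ofReal_ofNat, ← ENNReal.ofReal_mul (by norm_num),
        ← ENNReal.ofReal_add (by positivity) (by positivity)]
      refine ENNReal.ofReal_le_ofReal ?_
      nlinarith [mul_nonneg (a0 w) (b0 w), sq_nonneg (a w)]
    · rw [indicator_of_notMem hw, mul_zero, add_zero]
      refine ENNReal.ofReal_le_ofReal ?_
      nlinarith [mul_le_mul_of_nonneg_left (h w hw) (a0 w)]
  have it := lintegral_mono (μ := ν) pt
  rw [lintegral_add_right _ (ma.const_mul _), lintegral_const_mul _ ma,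
    lintegral_add_right _ ((ma.indicator hB).const_mul _), lintegral_add_right _ mb,
    lintegral_const_mul _ (ma.indicator hB), lintegral_indicator hB, a1, b1, mul_one] at it
  have e : (1 + 1 : ℝ≥0∞) = ENNReal.ofReal (2 - 2 * κ) + ENNReal.ofReal (2 * κ) := by
    rw [← ENNReal.ofReal_add (by linarith) (by positivity), sub_add_cancel, one_add_one_eq_two,
      ENNReal.ofReal_ofNat]
  rw [e, add_right_comm] at it
  exact (ENNReal.add_le_add_iff_right ENNReal.ofReal_ne_top).mp it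

/-- Almost invariance of the kernel under a measure preserving map. -/
theorem kf_inv (hD : Measurable D) (h0 : ∀ p, 0 ≤ D p) (hm : 0 ≤ m) {s : Ω → Ω}
    (hs : MeasurePreserving s ν ν) {G : Set Ω} (hG : MeasurableSet G) {θ : ℝ} (hθ : 0 ≤ θ)
    (h : ∀ w ∈ G, s w ∈ G → ∀ w', (D (w, w') ≤ 2 → D (s w, s w') ≤ D (w, w') + θ) ∧
      (D (s w, s w') ≤ 2 → D (w, w') ≤ D (s w, s w') + θ)) :
    ∫⁻ p, ENNReal.ofReal ((kf ν m D (s p.1, s p.2) - kf ν m D p) ^ 2) ∂ν.prod ν ≤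
      ENNReal.ofReal (2 * (m * θ)) +
        4 * ∫⁻ p in {p | p.1 ∉ G ∨ 2 < D p}, ENNReal.ofReal (kf ν m D p ^ 2) ∂ν.prod ν := by
  have hS : MeasurableSet {p : Ω × Ω | p.1 ∉ G ∨ 2 < D p} :=
    (measurable_fst hG.compl).union (measurableSet_lt measurable_const hD)
  have hk := measurable_kf (ν := ν) (m := m) hD
  have hf : Measurable fun p => ENNReal.ofReal (kf ν m D p ^ 2) := (hk.pow_const 2).ennreal_ofReal
  have hss : Measurable fun p : Ω × Ω => (s p.1, s p.2) :=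
    (hs.measurable.comp measurable_fst).prodMk (hs.measurable.comp measurable_snd)
  obtain ⟨T, hT⟩ : ∃ T : Ω → ℝ≥0∞, T = fun w => ∫⁻ w', {p : Ω × Ω | p.1 ∉ G ∨ 2 < D p}.indicator
    (fun p => ENNReal.ofReal (kf ν m D p ^ 2)) (w, w') ∂ν := ⟨_, rfl⟩
  have mT : Measurable T := hT ▸ (hf.indicator hS).lintegral_prod_right'
  have iT : ∫⁻ p in {p | p.1 ∉ G ∨ 2 < D p}, ENNReal.ofReal (kf ν m D p ^ 2) ∂ν.prod ν =
      ∫⁻ w, T w ∂ν := by
    rw [← lintegral_indicator hS, lintegral_prod _ (hf.indicator hS).aemeasurable, hT]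
  have row : ∀ w, Measurable fun w' => kf ν m D (w, w') := fun w => hk.comp measurable_prodMk_left
  have mB : ∀ w, MeasurableSet {w' | w ∉ G ∨ 2 < D (w, w')} := fun w =>
    measurable_prodMk_left (x := w) hS
  have eT : ∀ w, T w = ∫⁻ w' in {w' | w ∉ G ∨ 2 < D (w, w')},
      ENNReal.ofReal (kf ν m D (w, w') ^ 2) ∂ν := fun w => by
    rw [hT, ← lintegral_indicator (mB w)]
    rfl
  have k0 : 0 ≤ Real.exp (-(m * θ)) := (Real.exp_pos _).le
  have k1 : Real.exp (-(m * θ)) ≤ 1 := Real.exp_le_one_iff.mpr (neg_nonpos.mpr (by positivity))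
  have k2 : ENNReal.ofReal (2 - 2 * Real.exp (-(m * θ))) ≤ ENNReal.ofReal (2 * (m * θ)) :=
    ENNReal.ofReal_le_ofReal (by linarith [Real.add_one_le_exp (-(m * θ))])
  have cmp : ∀ u u' v v', kz ν m D v ≤ kz ν m D u → D (v, v') ≤ D (u, u') + θ →
      Real.exp (-(m * θ)) * kf ν m D (u, u') ≤ kf ν m D (v, v') := by
    intro u u' v v' e1 e2
    rw [kf, kf, ← mul_div_assoc, ← Real.exp_add]
    exact div_le_div₀ (Real.exp_pos _).le (Real.exp_le_exp.mpr (by nlinarith))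
      (kz_pos hD h0 hm v) e1
  have pt : ∀ w, ∫⁻ w', ENNReal.ofReal ((kf ν m D (s w, s w') - kf ν m D (w, w')) ^ 2) ∂ν ≤
      ENNReal.ofReal (2 * (m * θ)) + 2 * (T w + T (s w)) := by
    intro w
    have b1 : ∫⁻ w', ENNReal.ofReal (kf ν m D (s w, s w') ^ 2) ∂ν = 1 := by
      rw [hs.lintegral_comp (f := fun v => ENNReal.ofReal (kf ν m D (s w, v) ^ 2))
        ((row _).pow_const 2).ennreal_ofReal, kf_row hD h0 hm]
    have mb : Measurable fun w' => kf ν m D (s w, s w') := (row _).comp hs.measurable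
    have key : (∀ w' ∉ {w' | w ∉ G ∨ 2 < D (w, w')},
        Real.exp (-(m * θ)) * kf ν m D (w, w') ≤ kf ν m D (s w, s w')) ∨
        ∀ w' ∉ s ⁻¹' {w' | s w ∉ G ∨ 2 < D (s w, w')},
          Real.exp (-(m * θ)) * kf ν m D (s w, s w') ≤ kf ν m D (w, w') := by
      by_cases g1 : w ∈ G
      swap
      · exact Or.inl fun w' hw => (hw (Or.inl g1)).elim
      by_cases g2 : s w ∈ G
      swap
      · exact Or.inr fun w' hw => (hw (Or.inl g2)).elim
      rcases le_total (kz ν m D (s w)) (kz ν m D w) with e | e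
      · exact Or.inl fun w' hw => cmp _ _ _ _ e
          ((h w g1 g2 w').1 (not_lt.mp fun t => hw (Or.inr t)))
      · exact Or.inr fun w' hw => cmp _ _ _ _ e
          ((h w g1 g2 w').2 (not_lt.mp fun t => hw (Or.inr t)))
    rcases key with e | e
    · have := sq_sub_le (row w) mb (fun _ => kf_nonneg _) (fun _ => kf_nonneg _)
        (kf_row hD h0 hm w) b1 (mB w) k0 k1 e
      simp only [sub_sq_comm (kf ν m D (w, _))] at this
      rw [← eT] at this
      exact this.trans (add_le_add k2 (mul_le_mul_right le_self_add _))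
    · have := sq_sub_le mb (row w) (fun _ => kf_nonneg _) (fun _ => kf_nonneg _) b1
        (kf_row hD h0 hm w) (hs.measurable (mB (s w))) k0 k1 e
      rw [hs.setLIntegral_comp_preimage (mB (s w))
        (f := fun v => ENNReal.ofReal (kf ν m D (s w, v) ^ 2))
        ((row _).pow_const 2).ennreal_ofReal, ← eT] at this
      exact this.trans (add_le_add k2 (mul_le_mul_right le_add_self _))
  have mm : Measurable fun p : Ω × Ω =>
      ENNReal.ofReal ((kf ν m D (s p.1, s p.2) - kf ν m D p) ^ 2) :=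
    (((hk.comp hss).sub hk).pow_const 2).ennreal_ofReal
  rw [lintegral_prod _ mm.aemeasurable, iT]
  refine (lintegral_mono pt).trans (le_of_eq ?_)
  rw [lintegral_add_left measurable_const, lintegral_const, measure_univ, mul_one,
    lintegral_const_mul (f := fun w => T w + T (s w)) _ (mT.add (mT.comp hs.measurable)),
    lintegral_add_left mT,
    hs.lintegral_comp mT]
  congr 1
  ring

end Pool.Agent.P.MP_d483fb_an.Z.TZ

end

end

section

/-!
Almost invariant row-normalised kernels near the diagonal of a frame bundle.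
-/

open MeasureTheory Filter Topology Set
open scoped ENNReal

noncomputable section

namespace Pool.Agent.P.MP_d483fb_an.Z.TZ

/-- A measurable grid of mesh at most one with polynomial counting. -/
theorem exists_grid (V : Type) [NormedAddCommGroup V] [NormedSpace ℝ V] [FiniteDimensional ℝ V]
    [MeasurableSpace V] [BorelSpace V] :
    ∃ (n : ℕ) (K : ℝ) (cell : V → Fin n → ℤ), 0 ≤ K ∧ Measurable cell ∧
      (∀ u v, cell u = cell v → ‖u - v‖ ≤ 1) ∧ ∀ (v₀ : V) (R : ℝ), 0 ≤ R →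
        ∃ F : Finset (Fin n → ℤ), (F.card : ℝ) ≤ (K * (R + 1)) ^ n ∧
          ∀ v, ‖v - v₀‖ ≤ R → cell v ∈ F := by
  let e : V ≃L[ℝ] (Fin (Module.finrank ℝ V) → ℝ) := (Module.finBasis ℝ V).equivFunL
  obtain ⟨a, ha⟩ : ∃ a : ℝ, a = ‖e.symm.toContinuousLinearMap‖ + 1 := ⟨_, rfl⟩
  have a0 : 0 < a := by rw [ha]; positivity
  obtain ⟨b, hb⟩ : ∃ b : ℝ, b = ‖e.toContinuousLinearMap‖ := ⟨_, rfl⟩
  have b0 : 0 ≤ b := by rw [hb]; positivity
  refine ⟨_, 2 * a * b + 2, fun v i => ⌊a * e v i⌋, by positivity, ?_, fun u v h => ?_,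
    fun v₀ R hR => ?_⟩
  · exact measurable_pi_lambda _ fun i =>
      (Continuous.measurable (by fun_prop : Continuous fun v => a * e v i)).floor
  · have h1 : ‖e (u - v)‖ ≤ 1 / a := by
      refine (pi_norm_le_iff_of_nonneg (by positivity)).mpr fun i => ?_
      have h2 := Int.abs_sub_lt_one_of_floor_eq_floor (congrFun h i)
      rw [← mul_sub, abs_mul, abs_of_pos a0] at h2
      rw [map_sub, Pi.sub_apply, Real.norm_eq_abs, le_div_iff₀' a0]
      exact h2.le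
    have h2 := e.symm.toContinuousLinearMap.le_opNorm (e (u - v))
    rw [ContinuousLinearEquiv.coe_coe, e.symm_apply_apply] at h2
    refine h2.trans ((mul_le_mul_of_nonneg_left h1 (norm_nonneg _)).trans ?_)
    rw [mul_one_div, div_le_one a0]
    linarith
  · refine ⟨Fintype.piFinset fun i => Finset.Icc ⌊a * e v₀ i - a * b * R⌋ ⌊a * e v₀ i + a * b * R⌋,
      ?_, fun v hv => ?_⟩
    · rw [Fintype.card_piFinset, Nat.cast_prod]
      refine (Finset.prod_le_prod (g := fun _ => (2 * a * b + 2) * (R + 1))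
        (fun _ _ => Nat.cast_nonneg _) fun i _ => ?_).trans (by simp)
      have h1 : 0 ≤ a * b * R := by positivity
      have h2 : ⌊a * e v₀ i - a * b * R⌋ ≤ ⌊a * e v₀ i + a * b * R⌋ + 1 :=
        (Int.floor_le_floor (by linarith)).trans (Int.le_add_one le_rfl)
      have h3 := Int.card_Icc_of_le _ _ h2
      have h4 : ((Finset.Icc ⌊a * e v₀ i - a * b * R⌋ ⌊a * e v₀ i + a * b * R⌋).card : ℝ) =
          ⌊a * e v₀ i + a * b * R⌋ + 1 - ⌊a * e v₀ i - a * b * R⌋ := by exact_mod_cast h3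
      rw [h4]
      nlinarith [Int.floor_le (a * e v₀ i + a * b * R), Int.lt_floor_add_one (a * e v₀ i - a * b * R),
        mul_nonneg a0.le b0]
    · refine Fintype.mem_piFinset.mpr fun i => ?_
      have h1 : |e v i - e v₀ i| ≤ b * R := by
        have h2 := e.toContinuousLinearMap.le_opNorm (v - v₀)
        rw [ContinuousLinearEquiv.coe_coe, map_sub, ← hb] at h2
        exact (norm_le_pi_norm (e v - e v₀) i).trans (h2.trans (mul_le_mul_of_nonneg_left hv b0))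
      obtain ⟨h2, h3⟩ := abs_le.mp h1
      exact Finset.mem_Icc.mpr ⟨Int.floor_le_floor (by nlinarith), Int.floor_le_floor (by nlinarith)⟩

variable {Γ Ω E F : Type} [Group Γ] [MulAction Γ Ω] [MeasurableSpace Ω]
  [NormedAddCommGroup E] [NormedSpace ℝ E] [NormedAddCommGroup F] [NormedSpace ℝ F]
  [MeasurableSpace F] (P : Frm Γ Ω E F)

/-- The rescaled distance. -/
def Frm.D (δ ρ : ℝ) (p : Ω × Ω) : ℝ :=
  ‖P.ψ p.1 (P.x p.2 - P.x p.1)‖ / ρ ^ 2 + ‖P.ψ p.1 ∘L P.φ p.2 - 1‖ / δ + ‖P.x p.2 - P.x p.1‖ / ρ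

/-- Frames of bounded distortion. -/
def Frm.G (L : ℝ) : Set Ω := {w | ‖P.φ w‖ ≤ L ∧ ‖P.ψ w‖ ≤ L}

theorem Frm.D_nonneg {δ ρ : ℝ} (hδ : 0 < δ) (hρ : 0 < ρ) (p : Ω × Ω) : 0 ≤ P.D δ ρ p := by
  unfold Frm.D
  positivity

theorem Frm.of_D_le {δ ρ t : ℝ} (hδ : 0 < δ) (hρ : 0 < ρ) {w w' : Ω} (h : P.D δ ρ (w, w') ≤ t) :
    ‖P.ψ w (P.x w' - P.x w)‖ ≤ t * ρ ^ 2 ∧ ‖P.ψ w ∘L P.φ w' - 1‖ ≤ t * δ ∧
      ‖P.x w' - P.x w‖ ≤ t * ρ := by
  have a1 : 0 ≤ ‖P.ψ w (P.x w' - P.x w)‖ / ρ ^ 2 := by positivity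
  have a2 : 0 ≤ ‖P.ψ w ∘L P.φ w' - 1‖ / δ := by positivity
  have a3 : 0 ≤ ‖P.x w' - P.x w‖ / ρ := by positivity
  unfold Frm.D at h
  simp only at h
  exact ⟨(div_le_iff₀ (by positivity)).mp (by linarith), (div_le_iff₀ hδ).mp (by linarith),
    (div_le_iff₀ hρ).mp (by linarith)⟩

theorem Frm.near : ∃ r : ℝ, 0 < r ∧ ∀ w w', ‖P.x w' - P.x w‖ ≤ r →
    ‖P.x w' - P.x w‖ ≤ 2 * (‖P.φ w‖ * ‖P.ψ w (P.x w' - P.x w)‖) ∧
      ‖P.φ w'‖ ≤ 2 * (‖P.φ w‖ * ‖P.ψ w ∘L P.φ w'‖) := by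
  obtain ⟨r, hr, h⟩ := P.tan (1 / 2) (by norm_num)
  refine ⟨r, hr, fun w w' hw => ?_⟩
  obtain ⟨h1, h2⟩ := h w w' hw
  have a1 := norm_le_insert' (P.x w' - P.x w) (P.φ w (P.ψ w (P.x w' - P.x w)))
  have a2 := (P.φ w).le_opNorm (P.ψ w (P.x w' - P.x w))
  have a3 := norm_le_insert' (P.φ w') (P.φ w ∘L P.ψ w ∘L P.φ w')
  have a4 := (P.φ w).opNorm_comp_le (P.ψ w ∘L P.φ w')
  exact ⟨by linarith, by linarith⟩

theorem Frm.small {L δ : ℝ} (hδ : 0 < δ) (hδ' : δ ≤ 1 / 2) : ∀ᶠ ρ in 𝓝[>] (0 : ℝ), ∀ w ∈ P.G L,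
    ∀ w', P.D δ ρ (w, w') ≤ 2 → ‖P.x w' - P.x w‖ ≤ 4 * L * ρ ^ 2 ∧ ‖P.φ w'‖ ≤ 4 * L := by
  obtain ⟨r, hr, h⟩ := P.near
  filter_upwards [Ioc_mem_nhdsGT (show 0 < r / 2 by positivity)] with ρ hρ w hw w' hD
  obtain ⟨a1, a2, a3⟩ := P.of_D_le hδ hρ.1 hD
  obtain ⟨b1, b2⟩ := h w w' (by linarith [hρ.2])
  have hL : 0 ≤ L := (norm_nonneg _).trans hw.1
  have c1 := mul_le_mul hw.1 a1 (norm_nonneg _) hL
  have c2 : ‖P.ψ w ∘L P.φ w'‖ ≤ 2 := by
    have := norm_le_insert' (P.ψ w ∘L P.φ w') 1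
    have : ‖(1 : E →L[ℝ] E)‖ ≤ 1 := ContinuousLinearMap.norm_id_le
    linarith
  have c3 := mul_le_mul hw.1 c2 (norm_nonneg _) hL
  exact ⟨by linarith, by linarith⟩

theorem Frm.cmp {L δ θ : ℝ} (hL : 0 < L) (hδ : 0 < δ) (hδ' : δ ≤ 1 / 2) (hθ : 0 < θ) (g : Γ) :
    ∀ᶠ ρ in 𝓝[>] (0 : ℝ), ∀ w ∈ P.G L, g • w ∈ P.G L → ∀ w', P.D δ ρ (w, w') ≤ 2 →
      P.D δ ρ (g • w, g • w') ≤ P.D δ ρ (w, w') + θ := by
  obtain ⟨C, r₁, hr₁, h₁⟩ := P.lip g
  obtain ⟨η, hη⟩ : ∃ η : ℝ, η = θ * δ / (12 * L ^ 2) := ⟨_, rfl⟩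
  have η0 : 0 < η := by rw [hη]; positivity
  have η1 : η * L * (4 * L) = θ / 3 * δ := by rw [hη]; field_simp; ring
  obtain ⟨r₂, hr₂, h₂⟩ := P.lin g η η0
  filter_upwards [P.small (L := L) hδ hδ', Ioc_mem_nhdsGT (show 0 < r₁ / 2 by positivity),
    Ioc_mem_nhdsGT (show 0 < r₂ / 2 by positivity),
    Ioc_mem_nhdsGT (show 0 < θ / 3 / ((|C| + 1) * (4 * L)) by positivity)]
    with ρ hs e1 e2 e3 w hw hg w' hD
  have hρ := e1.1
  obtain ⟨-, -, a3⟩ := P.of_D_le hδ hρ hD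
  obtain ⟨s1, s2⟩ := hs w hw w' hD
  have l1 := h₁ w w' (by linarith [e1.2])
  obtain ⟨l2, l3⟩ := h₂ w w' (by linarith [e2.2])
  have m0 : η * ‖P.ψ (g • w)‖ ≤ η * L := mul_le_mul_of_nonneg_left hg.2 η0.le
  have m1 := l2.trans (mul_le_mul m0 s1 (norm_nonneg _) (by positivity))
  have m2 := l3.trans (mul_le_mul m0 s2 (norm_nonneg _) (by positivity))
  have t1 : ‖P.ψ (g • w) (P.x (g • w') - P.x (g • w))‖ / ρ ^ 2 ≤
      ‖P.ψ w (P.x w' - P.x w)‖ / ρ ^ 2 + θ / 3 := by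
    rw [div_add' _ _ _ (by positivity), div_le_div_iff_of_pos_right (by positivity)]
    have := norm_le_insert' (P.ψ (g • w) (P.x (g • w') - P.x (g • w))) (P.ψ w (P.x w' - P.x w))
    have e : η * L * (4 * L * ρ ^ 2) = θ / 3 * δ * ρ ^ 2 := by rw [← η1]; ring
    have : θ / 3 * δ * ρ ^ 2 ≤ θ / 3 * ρ ^ 2 :=
      mul_le_mul_of_nonneg_right (by nlinarith) (by positivity)
    linarith
  have t2 : ‖P.ψ (g • w) ∘L P.φ (g • w') - 1‖ / δ ≤ ‖P.ψ w ∘L P.φ w' - 1‖ / δ + θ / 3 := by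
    rw [div_add' _ _ _ hδ.ne', div_le_div_iff_of_pos_right hδ]
    have := norm_sub_le_norm_sub_add_norm_sub (P.ψ (g • w) ∘L P.φ (g • w')) (P.ψ w ∘L P.φ w') 1
    linarith
  have t3 : ‖P.x (g • w') - P.x (g • w)‖ / ρ ≤ θ / 3 := by
    rw [div_le_iff₀ hρ]
    have u1 := e3.2
    rw [le_div_iff₀ (by positivity)] at u1
    have u2 : C * ‖P.x w' - P.x w‖ ≤ (|C| + 1) * (4 * L * ρ ^ 2) :=
      mul_le_mul (by linarith [le_abs_self C]) s1 (norm_nonneg _) (by positivity)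
    nlinarith [mul_le_mul_of_nonneg_right u1 hρ.le]
  have t4 : 0 ≤ ‖P.x w' - P.x w‖ / ρ := by positivity
  unfold Frm.D
  simp only
  linarith

theorem Frm.close {L δ ε : ℝ} (hL : 0 < L) (hδ : 0 < δ) (hδ' : δ ≤ 1 / 2) (hε : 0 < ε)
    (h : δ * (6 * L) ≤ ε) : ∀ᶠ ρ in 𝓝[>] (0 : ℝ), ∀ w ∈ P.G L, ∀ w', P.D δ ρ (w, w') ≤ 2 →
      ‖P.x w' - P.x w‖ + ‖P.φ w' - P.φ w‖ ≤ ε := by
  obtain ⟨r, hr, ht⟩ := P.tan (ε / (12 * L)) (by positivity)
  filter_upwards [P.small (L := L) hδ hδ', Ioc_mem_nhdsGT (show 0 < r / 2 by positivity),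
    Ioc_mem_nhdsGT (show 0 < ε / 6 by positivity)] with ρ hs e1 e2 w hw w' hD
  obtain ⟨-, a2, a3⟩ := P.of_D_le hδ e1.1 hD
  have t1 := (ht w w' (by linarith [e1.2])).2.trans
    (mul_le_mul_of_nonneg_left (hs w hw w' hD).2 (by positivity))
  have e : ε / (12 * L) * (4 * L) = ε / 3 := by field_simp; ring
  have e' : P.φ w ∘L P.ψ w ∘L P.φ w' - P.φ w = P.φ w ∘L (P.ψ w ∘L P.φ w' - 1) := by
    ext v
    simp
  have t2 := norm_sub_le_norm_sub_add_norm_sub (P.φ w') (P.φ w ∘L P.ψ w ∘L P.φ w') (P.φ w)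
  have t3 := ((P.φ w).opNorm_comp_le (P.ψ w ∘L P.φ w' - 1)).trans
    (mul_le_mul hw.1 a2 (norm_nonneg _) hL.le)
  rw [e'] at t2
  linarith [e2.2]

variable [FiniteDimensional ℝ E] [FiniteDimensional ℝ F] [BorelSpace F]

theorem Frm.measurable_D (δ ρ : ℝ) : Measurable (P.D δ ρ) := by
  have h0 : Measurable fun p : Ω × Ω => P.x p.2 - P.x p.1 :=
    (P.mx.comp measurable_snd).sub (P.mx.comp measurable_fst)
  have c1 : Measurable fun q : (F →L[ℝ] E) × F => ‖q.1 q.2‖ :=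
    Continuous.measurable (continuous_fst.clm_apply continuous_snd).norm
  have c2 : Measurable fun q : (F →L[ℝ] E) × (E →L[ℝ] F) => ‖q.1 ∘L q.2 - 1‖ :=
    Continuous.measurable ((continuous_fst.clm_comp continuous_snd).sub continuous_const).norm
  have p1 : Measurable fun p : Ω × Ω => (P.ψ p.1, P.x p.2 - P.x p.1) :=
    (P.mψ.comp measurable_fst).prodMk h0
  have p2 : Measurable fun p : Ω × Ω => (P.ψ p.1, P.φ p.2) :=
    (P.mψ.comp measurable_fst).prodMk (P.mφ.comp measurable_snd)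
  have h1 := (c1.comp p1).div_const (ρ ^ 2)
  have h2 := (c2.comp p2).div_const δ
  have h3 := h0.norm.div_const ρ
  simp only [Function.comp_apply] at h1 h2
  unfold Frm.D
  exact (h1.add h2).add h3

omit [FiniteDimensional ℝ E] [FiniteDimensional ℝ F] [BorelSpace F] in
theorem Frm.measurableSet_G (L : ℝ) : MeasurableSet (P.G L) :=
  (measurableSet_le P.mφ.norm measurable_const).inter (measurableSet_le P.mψ.norm measurable_const)

omit [FiniteDimensional ℝ E] [FiniteDimensional ℝ F] [BorelSpace F] in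
theorem Frm.exists_G (ν : Measure Ω) [IsProbabilityMeasure ν] {ε : ℝ} (hε : 0 < ε) :
    ∃ L : ℝ, 1 ≤ L ∧ ν (P.G L)ᶜ ≤ ENNReal.ofReal ε := by
  have h := tendsto_measure_iInter_atTop (μ := ν) (s := fun n : ℕ => (P.G (n + 1))ᶜ)
    (fun n => (P.measurableSet_G _).compl.nullMeasurableSet)
    (fun a b hab => compl_subset_compl.mpr fun w hw => by
      have : (a : ℝ) ≤ b := Nat.cast_le.mpr hab
      exact ⟨by linarith [hw.1], by linarith [hw.2]⟩) ⟨0, measure_ne_top _ _⟩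
  have e : ⋂ n : ℕ, (P.G (n + 1))ᶜ = ∅ := by
    refine eq_empty_of_forall_notMem fun w hw => ?_
    obtain ⟨n, hn⟩ := exists_nat_ge (‖P.φ w‖ + ‖P.ψ w‖)
    exact mem_iInter.mp hw n ⟨by linarith [norm_nonneg (P.ψ w)], by linarith [norm_nonneg (P.φ w)]⟩
  rw [e, measure_empty] at h
  obtain ⟨n, hn⟩ := (h.eventually_le_const (ENNReal.ofReal_pos.mpr hε)).exists
  exact ⟨n + 1, by linarith [(Nat.cast_nonneg n : (0 : ℝ) ≤ n)], hn⟩

theorem Frm.tail (ν : Measure Ω) [IsProbabilityMeasure ν] {L δ ε : ℝ} (hL : 1 ≤ L) (hδ : 0 < δ)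
    (hε : 0 < ε) : ∃ m : ℝ, 0 < m ∧ ∀ ρ : ℝ, 0 < ρ → ρ ≤ 1 →
      ∫⁻ p in {p | p.1 ∈ P.G L ∧ 2 < P.D δ ρ p}, ENNReal.ofReal (kf ν m (P.D δ ρ) p ^ 2)
        ∂ν.prod ν ≤ ENNReal.ofReal ε := by
  obtain ⟨n, K, cell, hK, mc, c1, c2⟩ := exists_grid (F × (E →L[ℝ] F))
  obtain ⟨r, hr, hn⟩ := P.near
  obtain ⟨A, hA⟩ : ∃ A : ℝ, A = 6 * L ^ 2 + 3 * L / r + 3 * L / δ * L + 1 := ⟨_, rfl⟩
  have A0 : 0 ≤ A := by rw [hA]; positivity
  obtain ⟨C, hC⟩ : ∃ C : ℝ, C = (K * A) ^ n := ⟨_, rfl⟩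
  have C0 : 0 ≤ C := by rw [hC]; positivity
  obtain ⟨m, m1, m2⟩ : ∃ m : ℝ, 2 * n + 1 ≤ m ∧ 2 * C * Real.exp (3 * (2 * n) - 2 * m) ≤ ε := by
    refine ⟨max (2 * n + 1) ((3 * (2 * n) - Real.log (ε / (2 * C + 1))) / 2), le_max_left _ _, ?_⟩
    have h1 : Real.exp (3 * (2 * n) - 2 * max (2 * n + 1 : ℝ)
        ((3 * (2 * n) - Real.log (ε / (2 * C + 1))) / 2)) ≤ ε / (2 * C + 1) := by
      rw [← Real.le_log_iff_exp_le (by positivity)]
      linarith [le_max_right (2 * n + 1 : ℝ) ((3 * (2 * n) - Real.log (ε / (2 * C + 1))) / 2)]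
    refine (mul_le_mul_of_nonneg_left h1 (by positivity)).trans ?_
    rw [← mul_div_assoc, div_le_iff₀ (by positivity)]
    nlinarith
  refine ⟨m, lt_of_lt_of_le (by positivity) m1, fun ρ hρ hρ1 => ?_⟩
  have L0 : 0 < L := by linarith
  have my : Measurable fun w => ((3 * L / ρ ^ 2) • P.x w, (3 * L / δ) • P.φ w) :=
    (P.mx.const_smul (3 * L / ρ ^ 2)).prodMk (P.mφ.const_smul (3 * L / δ))
  refine (kf_tail (P.measurable_D δ ρ) (P.D_nonneg hδ hρ)
    (cell := fun w => cell ((3 * L / ρ ^ 2) • P.x w, (3 * L / δ) • P.φ w)) (P.measurableSet_G L)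
    (fun i => (P.measurableSet_G L).inter ((mc.comp my) (measurableSet_singleton i)))
    (fun w hw w' _ e => ?_) C0 (by positivity) (fun w' j => ?_) m1).trans
    (ENNReal.ofReal_le_ofReal m2)
  · have h1 := c1 _ _ e
    rw [Prod.mk_sub_mk, ← smul_sub, ← smul_sub, norm_prod_le_iff, norm_smul, norm_smul,
      Real.norm_of_nonneg (by positivity), Real.norm_of_nonneg (by positivity),
      div_mul_eq_mul_div, div_mul_eq_mul_div, div_le_one (by positivity), div_le_one hδ] at h1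
    obtain ⟨h1, h2⟩ := h1
    have e' : P.ψ w ∘L P.φ w' - 1 = P.ψ w ∘L (P.φ w' - P.φ w) := by
      ext v
      simp [P.inv]
    have t1 : ‖P.ψ w (P.x w' - P.x w)‖ / ρ ^ 2 ≤ 1 / 3 := by
      rw [div_le_iff₀ (by positivity)]
      linarith [((P.ψ w).le_opNorm (P.x w' - P.x w)).trans
        (mul_le_mul_of_nonneg_right hw.2 (norm_nonneg _))]
    have t2 : ‖P.ψ w ∘L P.φ w' - 1‖ / δ ≤ 1 / 3 := by
      rw [div_le_iff₀ hδ, e']
      linarith [((P.ψ w).opNorm_comp_le (P.φ w' - P.φ w)).trans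
        (mul_le_mul_of_nonneg_right hw.2 (norm_nonneg _))]
    have t3 : ‖P.x w' - P.x w‖ / ρ ≤ 1 / 3 := by
      rw [div_le_iff₀ hρ]
      nlinarith [norm_nonneg (P.x w' - P.x w)]
    unfold Frm.D
    simp only
    linarith
  · have j0 : (0 : ℝ) ≤ j := Nat.cast_nonneg j
    obtain ⟨T, T1, T2⟩ := c2 ((3 * L / ρ ^ 2) • P.x w', 0)
      (6 * L ^ 2 * j + 3 * L / r * j ^ 2 + 3 * L / δ * L) (by positivity)
    refine ⟨T, T1.trans ?_, fun w hw hD => T2 _ ?_⟩
    · rw [hC, show 2 * (n : ℝ) * j = n * (2 * j) by ring, Real.exp_nat_mul, ← mul_pow, mul_assoc K]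
      refine pow_le_pow_left₀ (by positivity) (mul_le_mul_of_nonneg_left ?_ hK) n
      have u1 : (j : ℝ) ≤ Real.exp j := by linarith [Real.add_one_le_exp (j : ℝ)]
      have u2 : 1 ≤ Real.exp j := Real.one_le_exp j0
      have u3 : Real.exp (2 * j) = Real.exp j * Real.exp j := by rw [two_mul, Real.exp_add]
      have u4 : (j : ℝ) ≤ Real.exp (2 * j) := by nlinarith
      have u5 : (j : ℝ) ^ 2 ≤ Real.exp (2 * j) := by nlinarith
      have u6 : 1 ≤ Real.exp (2 * j) := by nlinarith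
      have v1 := mul_le_mul_of_nonneg_left u4 (show 0 ≤ 6 * L ^ 2 by positivity)
      have v2 := mul_le_mul_of_nonneg_left u5 (show 0 ≤ 3 * L / r by positivity)
      have v3 := mul_le_mul_of_nonneg_left u6 (show 0 ≤ 3 * L / δ * L by positivity)
      rw [hA]
      linarith
    · obtain ⟨a1, -, a3⟩ := P.of_D_le hδ hρ hD
      have b : ‖P.x w' - P.x w‖ ≤ (2 * L * j + j ^ 2 / r) * ρ ^ 2 := by
        have b1 : 0 ≤ 2 * L * j * ρ ^ 2 := by positivity
        have b2 : 0 ≤ (j : ℝ) ^ 2 / r * ρ ^ 2 := by positivity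
        rcases le_total ‖P.x w' - P.x w‖ r with t | t
        · linarith [(hn w w' t).1, mul_le_mul hw.1 a1 (norm_nonneg _) L0.le]
        · have b3 : ‖P.x w' - P.x w‖ ≤ (j : ℝ) ^ 2 / r * ρ ^ 2 := by
            rw [div_mul_eq_mul_div, le_div_iff₀ hr, ← mul_pow]
            nlinarith [norm_nonneg (P.x w' - P.x w)]
          linarith
      rw [Prod.mk_sub_mk, ← smul_sub, sub_zero, norm_prod_le_iff, norm_smul, norm_smul,
        Real.norm_of_nonneg (by positivity), Real.norm_of_nonneg (by positivity), norm_sub_rev]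
      have d1 : 0 ≤ 6 * L ^ 2 * j + 3 * L / r * j ^ 2 := by positivity
      have d2 : 0 ≤ 3 * L / δ * L := by positivity
      have d3 := mul_le_mul_of_nonneg_left b (show 0 ≤ 3 * L / ρ ^ 2 by positivity)
      have d4 : 3 * L / ρ ^ 2 * ((2 * L * j + j ^ 2 / r) * ρ ^ 2) =
          6 * L ^ 2 * j + 3 * L / r * j ^ 2 := by field_simp; ring
      have d5 := mul_le_mul_of_nonneg_left hw.1 (show 0 ≤ 3 * L / δ by positivity)
      exact ⟨by linarith, by linarith⟩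

/-- Almost invariant row-normalised kernels concentrated near the diagonal. -/
theorem Frm.exists_ker {ν : Measure Ω} [IsProbabilityMeasure ν]
    (hν : ∀ g : Γ, MeasurePreserving (fun w : Ω => g • w) ν ν) (S : Finset Γ) {ε : ℝ}
    (hε : 0 < ε) : ∃ f : Ω × Ω → ℝ, Measurable f ∧
      (∀ w, ∫⁻ w', ENNReal.ofReal (f (w, w') ^ 2) ∂ν = 1) ∧
      (∀ s ∈ S, ∫⁻ p, ENNReal.ofReal ((f (s • p.1, s • p.2) - f p) ^ 2) ∂ν.prod ν ≤
        ENNReal.ofReal ε) ∧
      ∫⁻ p in {p | ε < ‖P.x p.2 - P.x p.1‖ + ‖P.φ p.2 - P.φ p.1‖}, ENNReal.ofReal (f p ^ 2)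
        ∂ν.prod ν ≤ ENNReal.ofReal ε := by
  obtain ⟨L, hL, hG⟩ := P.exists_G ν (ε := ε / 10) (by positivity)
  have L0 : 0 < L := by linarith
  obtain ⟨δ, hδ, δ1, δ2⟩ : ∃ δ : ℝ, 0 < δ ∧ δ ≤ 1 / 2 ∧ δ * (6 * L) ≤ ε :=
    ⟨min (1 / 2) (ε / (6 * L)), by positivity, min_le_left _ _,
      (le_div_iff₀ (by positivity)).mp (min_le_right _ _)⟩
  obtain ⟨m, hm, ht⟩ := P.tail ν (ε := ε / 10) hL hδ (by positivity)
  have hθ : 0 < ε / (10 * m) := by positivity
  obtain ⟨ρ, ⟨⟨e1, e2⟩, e3⟩, e4⟩ := (((((eventually_all_finset S).mpr fun s _ =>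
    P.cmp L0 hδ δ1 hθ s).and ((eventually_all_finset S).mpr fun s _ =>
    P.cmp L0 hδ δ1 hθ s⁻¹)).and (P.close L0 hδ δ1 hε δ2)).and
    (Ioc_mem_nhdsGT (show (0 : ℝ) < 1 by norm_num))).exists
  have mD := P.measurable_D δ ρ
  have D0 := P.D_nonneg hδ e4.1
  have bad : ∫⁻ p in {p | p.1 ∉ P.G L ∨ 2 < P.D δ ρ p},
      ENNReal.ofReal (kf ν m (P.D δ ρ) p ^ 2) ∂ν.prod ν ≤ ENNReal.ofReal (ε / 5) := by
    have sub : {p : Ω × Ω | p.1 ∉ P.G L ∨ 2 < P.D δ ρ p} ⊆
        {p | p.1 ∈ (P.G L)ᶜ} ∪ {p | p.1 ∈ P.G L ∧ 2 < P.D δ ρ p} := fun p hp => by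
      by_cases h : p.1 ∈ P.G L
      · exact Or.inr ⟨h, hp.resolve_left (not_not.mpr h)⟩
      · exact Or.inl h
    refine (lintegral_mono_set sub).trans ((lintegral_union_le _ _ _).trans ?_)
    rw [kf_fst mD D0 hm.le (P.measurableSet_G L).compl]
    refine (add_le_add hG (ht ρ e4.1 e4.2)).trans (le_of_eq ?_)
    rw [← ENNReal.ofReal_add (by positivity) (by positivity)]
    congr 1
    ring
  refine ⟨kf ν m (P.D δ ρ), measurable_kf mD, kf_row mD D0 hm.le, fun s hs => ?_, ?_⟩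
  · refine (kf_inv mD D0 hm.le (hν s) (P.measurableSet_G L) hθ.le fun w g1 g2 w' =>
      ⟨e1 s hs w g1 g2 w', fun hD => ?_⟩).trans ?_
    · have := e2 s hs (s • w) g2 (by rwa [inv_smul_smul]) (s • w') hD
      rwa [inv_smul_smul, inv_smul_smul] at this
    · refine (add_le_add_right (mul_le_mul_right bad 4) _).trans (le_of_eq ?_)
      rw [← ENNReal.ofReal_ofNat, ← ENNReal.ofReal_mul (by norm_num),
        ← ENNReal.ofReal_add (by positivity) (by positivity)]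
      congr 1
      field_simp
      ring
  · refine (lintegral_mono_set fun p hp => ?_).trans
      (bad.trans (ENNReal.ofReal_le_ofReal (by linarith)))
    by_contra h
    rw [mem_ofPred_eq, not_or, not_not, not_lt] at h
    exact absurd (e3 p.1 h.1 p.2 h.2) (not_le.mpr hp)

end Pool.Agent.P.MP_d483fb_an.Z.TZ

end

end
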