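import Pool.Agent.P.MP_d483fb_an.M.A02
import Pool.Agent.P.MP_d483fb_an.M.A07

section

/-!
Normal forms: truncated polynomial maps of `ℝ^D` without constant term (jets of order `< r`).
-/

open MvPolynomial

noncomputable section

namespace Pool.Agent.P.MP_d483fb_an.Z.NF

/-- The model space with the sup norm. -/
abbrev E (D : ℕ) : Type := Fin D → ℝ

/-- Exponents of the monomials of degree between `1` and `r - 1`. -/
def Idx (D r : ℕ) : Type := {α : Fin D →₀ ℕ // 0 < α.degree ∧ α.degree < r}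

instance (D r : ℕ) : Finite (Idx D r) :=
  ((Finsupp.finite_of_degree_lt (σ := Fin D) r).subset
    (t := {α : Fin D →₀ ℕ | 0 < α.degree ∧ α.degree < r}) fun _ h => h.2).to_subtype

instance (D r : ℕ) : Fintype (Idx D r) := Fintype.ofFinite _

instance (D r : ℕ) : DecidableEq (Idx D r) := Classical.decEq _

/-- Jets of real functions vanishing at `0`, as coefficient vectors with the sup norm. -/
abbrev V (D r : ℕ) : Type := Idx D r → ℝ

/-- Jets of maps fixing `0`. -/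
abbrev Jt (D r : ℕ) : Type := Fin D → V D r

variable {D r : ℕ}

/-- A monomial function. -/
def mono (α : Fin D →₀ ℕ) (w : E D) : ℝ := ∏ j, w j ^ α j

/-- The polynomial function of a jet. -/
def ev (t : V D r) (w : E D) : ℝ := ∑ α, t α * mono α.1 w

/-- The polynomial map of a jet. -/
def evv (T : Jt D r) (w : E D) : E D := fun i => ev (T i) w

/-- The polynomial of a jet. -/
def toPoly (t : V D r) : MvPolynomial (Fin D) ℝ := ∑ α, monomial α.1 (t α)

/-- The jet of a polynomial. -/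
def ofPoly (p : MvPolynomial (Fin D) ℝ) : V D r := fun α => coeff α.1 p

/-- Truncated composition `t ∘ T`. -/
def comp (t : V D r) (T : Jt D r) : V D r := ofPoly (bind₁ (fun j => toPoly (T j)) (toPoly t))

/-- Truncated composition `S ∘ T`. -/
def compv (S T : Jt D r) : Jt D r := fun i => comp (S i) T

/-- The jet of the identity. -/
def idv (D r : ℕ) : Jt D r := fun i => ofPoly (X i)

theorem toPoly_add (t t' : V D r) : toPoly (t + t') = toPoly t + toPoly t' := by
  simp [toPoly, Finset.sum_add_distrib]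

theorem toPoly_smul (c : ℝ) (t : V D r) : toPoly (c • t) = c • toPoly t := by
  simp [toPoly, Finset.smul_sum, smul_monomial]

/-- Composition with `T` as a linear map. -/
def compL (T : Jt D r) : V D r →L[ℝ] V D r :=
  LinearMap.toContinuousLinearMap
    { toFun := fun t => comp t T
      map_add' := fun t t' => by
        funext α
        simp [comp, ofPoly, toPoly_add]
      map_smul' := fun c t => by
        funext α
        simp [comp, ofPoly, toPoly_smul] }

theorem compL_apply (T : Jt D r) (t : V D r) : compL T t = comp t T := rfl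

/-- The linear part of a jet. -/
def lin (t : V D r) : E D →L[ℝ] ℝ :=
  ∑ j, coeff (Finsupp.single j 1) (toPoly t) • ContinuousLinearMap.proj j

/-- The linear part of a jet. -/
def linv (T : Jt D r) : E D →L[ℝ] E D := ContinuousLinearMap.pi fun i => lin (T i)

theorem linv_apply (T : Jt D r) (w : E D) (i : Fin D) : linv T w i = lin (T i) w := rfl

/-- The jet of the linear form with coefficients `g`. -/
def ofLin (r : ℕ) (g : E D) : V D r := ofPoly (∑ j, C (g j) * X j)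

/-- The weight of a monomial. -/
def wt {Λ : Type} [AddCommMonoid Λ] (lam : Fin D → Λ) (α : Fin D →₀ ℕ) : Λ := ∑ j, α j • lam j

/-- All monomials of `t` have weight `c`. -/
def Res1 {Λ : Type} [AddCommMonoid Λ] (lam : Fin D → Λ) (c : Λ) (t : V D r) : Prop :=
  ∀ α, t α ≠ 0 → wt lam α.1 = c

/-- A resonant jet. -/
def Res {Λ : Type} [AddCommMonoid Λ] (lam : Fin D → Λ) (T : Jt D r) : Prop :=
  ∀ i, Res1 lam (lam i) (T i)

/-- The diagonal dilation with exponents `c`. -/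
def dil (c : Fin D → ℝ) (w : E D) : E D := fun j => Real.exp (c j) * w j

/-- The subspace of the coordinates of positive weight. -/
def U (c : Fin D → ℝ) : Set (E D) := {v | ∀ j, c j ≤ 0 → v j = 0}

/-- On `U c` the function `f` is a polynomial in the coordinates of positive weight all of whose
monomials have weight at most `c0`. -/
def SubRes1 (c : Fin D → ℝ) (c0 : ℝ) (f : E D → ℝ) : Prop :=
  ∃ P : MvPolynomial (Fin D) ℝ, (∀ α ∈ P.support, (∀ j, α j ≠ 0 → 0 < c j) ∧ wt c α ≤ c0) ∧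
    ∀ v ∈ U c, f v = eval v P

/-- A subresonant polynomial map on `U c`. -/
def SubRes (c : Fin D → ℝ) (S : E D → E D) : Prop := ∀ i, SubRes1 c (c i) fun v => S v i

/-- A polynomial function of degree at most `m`. -/
def IsPoly (m : ℕ) (f : E D → ℝ) : Prop :=
  ∃ P : MvPolynomial (Fin D) ℝ, P.totalDegree ≤ m ∧ ∀ v, f v = eval v P

/-- The elementary estimates for jets hold with the constant `exp A`. -/
structure PC (D r : ℕ) (A : ℝ) : Prop where
  nonneg : 0 ≤ A
  ev_le : ∀ (t : V D r) (w : E D) (R : ℝ), 0 ≤ R → ‖w‖ ≤ Real.exp R →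
    |ev t w| ≤ Real.exp (A + r * R) * ‖t‖ * ‖w‖
  ev_lip : ∀ (t : V D r) (w w' : E D) (R : ℝ), 0 ≤ R → ‖w‖ ≤ Real.exp R → ‖w'‖ ≤ Real.exp R →
    |ev t w - ev t w'| ≤ Real.exp (A + r * R) * ‖t‖ * ‖w - w'‖
  ev_lin : ∀ (t : V D r) (w : E D), ‖w‖ ≤ 1 → |ev t w - lin t w| ≤ Real.exp A * ‖t‖ * ‖w‖ ^ 2
  lin_le : ∀ t : V D r, ‖lin t‖ ≤ Real.exp A * ‖t‖
  comp_le : ∀ (t : V D r) (T : Jt D r) (R : ℝ), 0 ≤ R → ‖T‖ ≤ Real.exp R →
    ‖comp t T‖ ≤ Real.exp (A + r * R) * ‖t‖
  comp_err : ∀ (t : V D r) (T : Jt D r) (w : E D) (R : ℝ), 0 ≤ R → ‖T‖ ≤ Real.exp R → ‖w‖ ≤ 1 →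
    |ev (comp t T) w - ev t (evv T w)| ≤ Real.exp (A + r * R) * ‖t‖ * ‖w‖ ^ r

namespace PC

variable {A : ℝ} (h : PC D r A)
include h

theorem evv_le (T : Jt D r) (w : E D) {R : ℝ} (hR : 0 ≤ R) (hw : ‖w‖ ≤ Real.exp R) :
    ‖evv T w‖ ≤ Real.exp (A + r * R) * ‖T‖ * ‖w‖ :=
  (pi_norm_le_iff_of_nonneg (by positivity)).2 fun i => (h.ev_le (T i) w R hR hw).trans (by
    gcongr
    exact norm_le_pi_norm T i)

theorem evv_lip (T : Jt D r) (w w' : E D) {R : ℝ} (hR : 0 ≤ R) (hw : ‖w‖ ≤ Real.exp R)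
    (hw' : ‖w'‖ ≤ Real.exp R) :
    ‖evv T w - evv T w'‖ ≤ Real.exp (A + r * R) * ‖T‖ * ‖w - w'‖ :=
  (pi_norm_le_iff_of_nonneg (by positivity)).2 fun i => (h.ev_lip (T i) w w' R hR hw hw').trans (by
    gcongr
    exact norm_le_pi_norm T i)

theorem evv_lin (T : Jt D r) (w : E D) (hw : ‖w‖ ≤ 1) :
    ‖evv T w - linv T w‖ ≤ Real.exp A * ‖T‖ * ‖w‖ ^ 2 :=
  (pi_norm_le_iff_of_nonneg (by positivity)).2 fun i => (h.ev_lin (T i) w hw).trans (by
    gcongr
    exact norm_le_pi_norm T i)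

theorem linv_le (T : Jt D r) : ‖linv T‖ ≤ Real.exp A * ‖T‖ :=
  ContinuousLinearMap.opNorm_le_bound _ (by positivity) fun w =>
    (pi_norm_le_iff_of_nonneg (by positivity)).2 fun i => ((lin (T i)).le_opNorm w).trans (by
      gcongr
      exact (h.lin_le (T i)).trans (by gcongr; exact norm_le_pi_norm T i))

theorem compv_le (S T : Jt D r) {R : ℝ} (hR : 0 ≤ R) (hT : ‖T‖ ≤ Real.exp R) :
    ‖compv S T‖ ≤ Real.exp (A + r * R) * ‖S‖ :=
  (pi_norm_le_iff_of_nonneg (by positivity)).2 fun i => (h.comp_le (S i) T R hR hT).trans (by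
    gcongr
    exact norm_le_pi_norm S i)

theorem compv_err (S T : Jt D r) (w : E D) {R : ℝ} (hR : 0 ≤ R) (hT : ‖T‖ ≤ Real.exp R)
    (hw : ‖w‖ ≤ 1) :
    ‖evv (compv S T) w - evv S (evv T w)‖ ≤ Real.exp (A + r * R) * ‖S‖ * ‖w‖ ^ r :=
  (pi_norm_le_iff_of_nonneg (by positivity)).2 fun i => (h.comp_err (S i) T w R hR hT hw).trans (by
    gcongr
    exact norm_le_pi_norm S i)

end PC

end Pool.Agent.P.MP_d483fb_an.Z.NF

end

end

section

/-!
Normal forms: charts and jets of a group action (`Jets`), skew products over an action of a vector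
group (`Skew`), and the normal form coordinates on unstable leaves of the fibres (`Leaf`).
-/

open MeasureTheory Filter Topology Set Real

noncomputable section

namespace Pool.Agent.P.MP_d483fb_an.Z.NF

open Os

/-- Uniform charts of `M` and the Taylor polynomials of the action `α` in these charts. -/
structure Jets {Γ M : Type} [Group Γ] [MetricSpace M] [MeasurableSpace M]
    (α : Γ →* Equiv.Perm M) (len : Γ → ℝ) (D : ℕ) where
  c : M → M → E D
  T : (r : ℕ) → Γ → M → Jt D r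
  L0 : ℝ
  Lr : ℕ → ℝ
  L0_nonneg : 0 ≤ L0
  Lr_nonneg : ∀ r, 0 ≤ Lr r
  len_nonneg : ∀ γ, 0 ≤ len γ
  measC : Measurable fun p : M × M => c p.1 p.2
  measT : ∀ r γ, Measurable (T r γ)
  c_self : ∀ p, c p p = 0
  c_lip : ∀ p z z', dist z p ≤ exp (-L0) → dist z' p ≤ exp (-L0) →
    ‖c p z - c p z'‖ ≤ exp L0 * dist z z'
  c_lip' : ∀ p z z', dist z p ≤ exp (-L0) → dist z' p ≤ exp (-L0) →
    dist z z' ≤ exp L0 * ‖c p z - c p z'‖
  c_onto : ∀ p u, ‖u‖ ≤ exp (-(2 * L0)) → ∃ z, dist z p ≤ exp L0 * ‖u‖ ∧ c p z = u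
  lip : ∀ γ z z', dist (α γ z) (α γ z') ≤ exp (L0 * (1 + len γ)) * dist z z'
  T_le : ∀ r γ p, ‖T r γ p‖ ≤ exp (Lr r * (1 + len γ))
  jet : ∀ r γ p z, dist z p ≤ exp (-(Lr r * (1 + len γ))) →
    ‖c (α γ p) (α γ z) - evv (T r γ p) (c p z)‖ ≤ exp (Lr r * (1 + len γ)) * dist z p ^ r
  tr : ∀ r p p', dist p' p ≤ exp (-Lr r) → ∃ S : Jt D r, ‖S‖ ≤ exp (Lr r) ∧
    ∀ z, dist z p' ≤ exp (-Lr r) → ‖c p z - c p p' - evv S (c p' z)‖ ≤ exp (Lr r) * dist z p' ^ r

variable {W X Γ M : Type} [NormedAddCommGroup W] [NormedSpace ℝ W] [MeasurableSpace W]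
  [MeasurableSpace X] {μ : Measure X} [Group Γ] [MeasurableSpace Γ] [MetricSpace M]
  [MeasurableSpace M] {α : Γ →* Equiv.Perm M} {len : Γ → ℝ} {D : ℕ}

/-- The derivative of `α γ` at `p` in the charts. -/
def Jets.Dl (J : Jets α len D) (γ : Γ) (p : M) : E D →L[ℝ] E D := linv (J.T 2 γ p)

/-- The system `S` moves the fibre coordinate `pt` by a tempered cocycle `β`. -/
structure Skew (S : Sys W X μ) (J : Jets α len D) where
  pt : X → M
  β : W → X → Γ
  h : X → ℝ
  L : ℝ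
  L_nonneg : 0 ≤ L
  measPt : Measurable pt
  measβ : Measurable fun p : W × X => β p.1 p.2
  measAct : Measurable fun p : W × X => S.act p.1 p.2
  measH : Measurable h
  β_zero : ∀ x, β 0 x = 1
  β_add : ∀ s t x, β (s + t) x = β s (S.act t x) * β t x
  pt_act : ∀ s x, pt (S.act s x) = α (β s x) (pt x)
  h_nonneg : ∀ x, 0 ≤ h x
  h_lip : ∀ s x, h (S.act s x) ≤ h x + L * (‖s‖ + 1)
  len_β : ∀ s x, len (β s x) ≤ L * (1 + ‖s‖ + h x)

variable {S : Sys W X μ} {J : Jets α len D}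

namespace Skew

variable (K : Skew S J)

/-- The fibre derivative cocycle. -/
def Dl (s : W) (x : X) : E D →L[ℝ] E D := J.Dl (K.β s x) (K.pt x)

/-- The jet cocycle. -/
def T (r : ℕ) (s : W) (x : X) : Jt D r := J.T r (K.β s x) (K.pt x)

/-- The motion of a point `z` of the fibre through `x`. -/
def mv (s : W) (x : X) (z : M) : M := α (K.β s x) z

/-- The backward orbit of `z` approaches that of `x` like `C exp (-s n)`. -/
def Sh (a : W) (s C : ℝ) (x : X) (z : M) : Prop :=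
  ∀ n : ℕ, dist (K.mv (-(n • a)) x z) (K.pt (S.act (-(n • a)) x)) ≤ C * exp (-(s * n))

/-- The unstable leaf of `x` in its fibre. -/
def Wu (a : W) (s : ℝ) (x : X) : Set M := {z | ∃ C, K.Sh a s C x z}

/-- The holonomy `γ` from the fibre of `x'` to the fibre of `x` at time `-n`. -/
def hol (a : W) (n : ℕ) (x x' : X) (γ : Γ) : Γ :=
  K.β (-(n • a)) x * γ * (K.β (-(n • a)) x')⁻¹

/-- The holonomy `γ` stays tempered along the backward orbits. -/
def Hol (a : W) (C0 : ℝ) (x x' : X) (γ : Γ) : Prop :=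
  ∀ n : ℕ, len (K.hol a n x x' γ) ≤
    C0 + K.L * (K.h (S.act (-(n • a)) x) + K.h (S.act (-(n • a)) x'))

end Skew

/-- The function `q` is a tempered bound for the height on the invariant set `X0`. -/
structure Slow (K : Skew S J) (X0 : Set X) (B : ℝ) (a : W) (ε : ℝ) (q : X → ℝ) : Prop where
  pos : 0 < ε
  meas : Measurable q
  one_le : ∀ x, 1 ≤ q x
  big : ∀ x, exp (-q x) ≤ ε
  h_le : ∀ x ∈ X0, K.h x ≤ q x
  slowA : ∀ s, ∀ x ∈ X0, q (S.act s x) ≤ q x + ε * ‖s‖ + B
  slow_f : ∀ n : ℕ, ∀ x ∈ X0, q (S.act (n • a) x) ≤ q x + ε * n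
  slow_b : ∀ n : ℕ, ∀ x ∈ X0, q (S.act (-(n • a)) x) ≤ q x + ε * n

/-- Normal form coordinates on the unstable leaves of `a`: data and qualitative properties. -/
structure Leaf0 (K : Skew S J) (lam : Fin D → W →L[ℝ] ℝ) (a : W) (s1 : ℝ) where
  r : ℕ
  C : ℕ
  B : ℝ
  X0 : Set X
  H : X → M → E D
  Hinv : X → E D → M
  N : W → X → Jt D r
  meas0 : MeasurableSet X0
  ae0 : ∀ᵐ x ∂μ, x ∈ X0
  inv0 : ∀ s, ∀ x ∈ X0, S.act s x ∈ X0
  measH : Measurable fun p : X × M => H p.1 p.2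
  measHinv : Measurable fun p : X × E D => Hinv p.1 p.2
  measN : ∀ s, Measurable (N s)
  H_mem : ∀ x ∈ X0, ∀ z ∈ K.Wu a s1 x, H x z ∈ U fun i => lam i a
  H_pt : ∀ x ∈ X0, H x (K.pt x) = 0
  H_inj : ∀ x ∈ X0, InjOn (H x) (K.Wu a s1 x)
  Hinv_mem : ∀ x ∈ X0, ∀ v ∈ U fun i => lam i a, Hinv x v ∈ K.Wu a s1 x
  H_Hinv : ∀ x ∈ X0, ∀ v ∈ U fun i => lam i a, H x (Hinv x v) = v
  mv_mem : ∀ s, ∀ x ∈ X0, ∀ z ∈ K.Wu a s1 x, K.mv s x z ∈ K.Wu a s1 (S.act s x)
  H_mv : ∀ s, ∀ x ∈ X0, ∀ z ∈ K.Wu a s1 x, H (S.act s x) (K.mv s x z) = evv (N s x) (H x z)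
  N_res : ∀ s, ∀ x ∈ X0, Res lam (N s x)
  hol_mem : ∀ x ∈ X0, ∀ x' ∈ X0, ∀ γ C0, K.Hol a C0 x x' γ → α γ (K.pt x') ∈ K.Wu a s1 x →
    ∀ z ∈ K.Wu a s1 x', α γ z ∈ K.Wu a s1 x
  hol_symm : ∀ x ∈ X0, ∀ x' ∈ X0, ∀ γ C0, K.Hol a C0 x' x γ⁻¹ → α γ (K.pt x') ∈ K.Wu a s1 x →
    α γ⁻¹ (K.pt x) ∈ K.Wu a s1 x'
  hol_poly : ∀ x ∈ X0, ∀ x' ∈ X0, ∀ γ C0, K.Hol a C0 x x' γ → α γ (K.pt x') ∈ K.Wu a s1 x →
    SubRes (fun i => lam i a) fun v => H x (α γ (Hinv x' v))

variable {K : Skew S J} {lam : Fin D → W →L[ℝ] ℝ} {a : W} {s1 : ℝ}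

/-- The estimates for the normal form coordinates in terms of a tempered function `q`. -/
structure Leaf0.Est (F : Leaf0 K lam a s1) (s2 ε : ℝ) (q : X → ℝ) : Prop
    extends Slow K F.X0 F.B a ε q where
  N_le : ∀ s, ∀ x ∈ F.X0, ∀ i, ‖F.N s x i‖ ≤ exp (q x + lam i s + ε * ‖s‖)
  N_f : ∀ n : ℕ, ∀ x ∈ F.X0, ∀ i, ‖F.N (n • a) x i‖ ≤ exp (q x + lam i a * n + ε * n)
  N_b : ∀ n : ℕ, ∀ x ∈ F.X0, ∀ i, ‖F.N (-(n • a)) x i‖ ≤ exp (q x - lam i a * n + ε * n)
  H_le : ∀ x ∈ F.X0, ∀ z R, 0 ≤ R → K.Sh a s1 (exp R) x z → ‖F.H x z‖ ≤ exp (F.C * (q x + R))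
  Hinv_sh : ∀ x ∈ F.X0, ∀ v ∈ U fun i => lam i a, ∀ R, 0 ≤ R → ‖v‖ ≤ exp R →
    K.Sh a s2 (exp (F.C * (q x + R)) * ‖v‖) x (F.Hinv x v)
  hol_lip : ∀ x ∈ F.X0, ∀ x' ∈ F.X0, ∀ γ C0, 0 ≤ C0 → K.Hol a C0 x x' γ → ∀ (n : ℕ) z z',
    dist (α (K.hol a n x x' γ) z) (α (K.hol a n x x' γ) z') ≤
      exp (F.C * (q x + q x' + C0) + (s2 - s1) * n) * dist z z'
  track : ∀ x ∈ F.X0, ∀ (t : ℕ) z,
    (∀ i ≤ t, dist (K.mv (i • a) x z) (K.pt (S.act (i • a) x)) ≤
      exp (-(F.C * q (S.act (i • a) x)))) →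
    ∀ i ≤ t, dist (K.mv (i • a) x z) (K.pt (S.act (i • a) x)) ≤
      exp (F.C * q (S.act (t • a) x) - s2 * (t - i)) + exp (F.C * q x + ε * t) * dist z (K.pt x)

/-- Normal form coordinates on the unstable leaves of `a`. -/
structure Leaf (K : Skew S J) (lam : Fin D → W →L[ℝ] ℝ) (a : W) (s1 s2 : ℝ)
    extends Leaf0 K lam a s1 where
  est : ∀ ε, 0 < ε → ∃ q, toLeaf0.Est s2 ε q

end Pool.Agent.P.MP_d483fb_an.Z.NF

end

end

section

/-!
Normal forms: frames, formal normal forms, and the elementary algebra of skew products.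
-/

open MeasureTheory Filter Topology Set Real

set_option linter.unusedSectionVars false

noncomputable section

namespace Pool.Agent.P.MP_d483fb_an.Z.NF

open Os

variable {W X Γ M : Type} [NormedAddCommGroup W] [NormedSpace ℝ W] [MeasurableSpace W]
  [MeasurableSpace X] {μ : Measure X} [Group Γ] [MeasurableSpace Γ] [MetricSpace M]
  [MeasurableSpace M] {α : Γ →* Equiv.Perm M} {len : Γ → ℝ} {D : ℕ}

/-- A measurable tempered frame `f` with dual frame `g`, where `f i` has exponent `lam i`. -/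
structure Frame (S : Sys W X μ) (A : W → X → E D →L[ℝ] E D) (lam : Fin D → W →L[ℝ] ℝ) where
  f : X → Fin D → E D
  g : X → Fin D → E D
  X0 : Set X
  B : ℝ
  B_nonneg : 0 ≤ B
  meas0 : MeasurableSet X0
  ae0 : ∀ᵐ x ∂μ, x ∈ X0
  inv0 : ∀ s, ∀ x ∈ X0, S.act s x ∈ X0
  measF : Measurable f
  measG : Measurable g
  dual : ∀ x ∈ X0, ∀ i j, ∑ l, g x i l * f x j l = if i = j then 1 else 0
  est : ∀ ε, 0 < ε → ∃ q : X → ℝ, Measurable q ∧ (∀ x, 0 ≤ q x) ∧
    (∀ s, ∀ x ∈ X0, q (S.act s x) ≤ q x + ε * ‖s‖ + B) ∧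
    ∀ x ∈ X0, ‖f x‖ ≤ exp (q x) ∧ ‖g x‖ ≤ exp (q x) ∧
      ∀ s i, ‖A s x (f x i)‖ ≤ exp (q x + lam i s + ε * ‖s‖)

variable {S : Sys W X μ} {J : Jets α len D}

/-- Formal normal forms of order `r`: `Ψ` conjugates the jet cocycle to the resonant cocycle `N`. -/
structure Formal (K : Skew S J) (lam : Fin D → W →L[ℝ] ℝ) (r : ℕ) where
  X0 : Set X
  B : ℝ
  A : ℝ
  Ψ : X → Jt D r
  Q : X → Jt D r
  N : W → X → Jt D r
  pc : PC D r A
  B_nonneg : 0 ≤ B
  meas0 : MeasurableSet X0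
  ae0 : ∀ᵐ x ∂μ, x ∈ X0
  inv0 : ∀ s, ∀ x ∈ X0, S.act s x ∈ X0
  measΨ : Measurable Ψ
  measN : ∀ s, Measurable (N s)
  ΨQ : ∀ x ∈ X0, compv (Ψ x) (Q x) = idv D r
  QΨ : ∀ x ∈ X0, compv (Q x) (Ψ x) = idv D r
  conj : ∀ s, ∀ x ∈ X0, compv (Ψ (S.act s x)) (K.T r s x) = compv (N s x) (Ψ x)
  res : ∀ s, ∀ x ∈ X0, Res lam (N s x)
  est : ∀ ε, 0 < ε → ∃ q : X → ℝ, Measurable q ∧ (∀ x, 0 ≤ q x) ∧ (∀ x ∈ X0, K.h x ≤ q x) ∧
    (∀ s, ∀ x ∈ X0, q (S.act s x) ≤ q x + ε * ‖s‖ + B) ∧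
    ∀ x ∈ X0, ‖Ψ x‖ ≤ exp (q x) ∧ ‖Q x‖ ≤ exp (q x) ∧
      ∀ s i, ‖N s x i‖ ≤ exp (q x + lam i s + ε * ‖s‖)

/-- The choice of the rates and of the order. -/
structure Par (K : Skew S J) (lam : Fin D → W →L[ℝ] ℝ) (r : ℕ) (a : W) (s1 s2 : ℝ) : Prop where
  two_le : 2 ≤ r
  s1_pos : 0 < s1
  lt : s1 < s2
  gap : ∀ i, 0 < lam i a → s2 < lam i a
  res : ∀ i, lam i a < r * s1
  lip : J.L0 * K.L * ‖a‖ < r * s1

variable {K : Skew S J} {lam : Fin D → W →L[ℝ] ℝ} {r : ℕ}

namespace Formal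

variable (F : Formal K lam r) (a : W)

/-- The jet of `Ψ x ∘ a^n` at the point `a^(-n) x`. -/
def Jn (n : ℕ) (x : X) : Jt D r := compv (F.Ψ x) (K.T r (n • a) (S.act (-(n • a)) x))

/-- The approximations of the normal form coordinates. -/
def Hn (n : ℕ) (x : X) (z : M) : E D :=
  evv (F.Jn a n x) (J.c (K.pt (S.act (-(n • a)) x)) (K.mv (-(n • a)) x z))

/-- The normal form coordinates. -/
def H (x : X) (z : M) : E D := limUnder atTop fun n => F.Hn a n x z

/-- All tempered bounds hold with `q` and `ε`. -/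
structure Temp (ε : ℝ) (q : X → ℝ) : Prop extends Slow K F.X0 ((r + 1) * F.B) a ε q where
  Ψ_le : ∀ x ∈ F.X0, ‖F.Ψ x‖ ≤ exp (q x)
  Q_le : ∀ x ∈ F.X0, ‖F.Q x‖ ≤ exp (q x)
  N_le : ∀ s, ∀ x ∈ F.X0, ∀ i, ‖F.N s x i‖ ≤ exp (q x + lam i s + ε * ‖s‖)
  N_f : ∀ n : ℕ, ∀ x ∈ F.X0, ∀ i, ‖F.N (n • a) x i‖ ≤ exp (q x + lam i a * n + ε * n)
  N_b : ∀ n : ℕ, ∀ x ∈ F.X0, ∀ i, ‖F.N (-(n • a)) x i‖ ≤ exp (q x - lam i a * n + ε * n)
  J_le : ∀ n : ℕ, ∀ x ∈ F.X0, ∀ i, ‖F.Jn a n x i‖ ≤ exp (q x + lam i a * n + ε * n)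

/-- A property holds with a constant that does not depend on the small number `ε`. -/
def Unif (P : ℕ → ℝ → (X → ℝ) → Prop) : Prop :=
  ∃ (C : ℕ) (ε0 : ℝ), 1 ≤ C ∧ 0 < ε0 ∧ ∀ ε q, ε ≤ ε0 → F.Temp a ε q → P C ε q

end Formal

namespace Skew

variable (K)

theorem mv_zero (x : X) (z : M) : K.mv 0 x z = z := by simp [mv, K.β_zero]

theorem mv_add (s t : W) (x : X) (z : M) :
    K.mv (s + t) x z = K.mv s (S.act t x) (K.mv t x z) := by
  simp [mv, K.β_add]

theorem mv_pt (s : W) (x : X) : K.mv s x (K.pt x) = K.pt (S.act s x) := (K.pt_act s x).symm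

theorem neg_mv (s : W) (x : X) (z : M) : K.mv (-s) (S.act s x) (K.mv s x z) = z := by
  rw [← mv_add, neg_add_cancel, mv_zero]

theorem mv_neg (s : W) (x : X) (z : M) : K.mv s (S.act (-s) x) (K.mv (-s) x z) = z := by
  rw [← mv_add, add_neg_cancel, mv_zero]

theorem act_act (s t : W) (x : X) : S.act s (S.act t x) = S.act (s + t) x := (S.add s t x).symm

theorem mv_mv (s t : W) (x : X) (z : M) :
    K.mv s (S.act t x) (K.mv t x z) = K.mv (s + t) x z := (K.mv_add s t x z).symm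

theorem β_neg (s : W) (x : X) : K.β (-s) (S.act s x) = (K.β s x)⁻¹ := by
  rw [eq_inv_iff_mul_eq_one, ← K.β_add, neg_add_cancel, K.β_zero]

theorem mv_lip (s : W) (x : X) (z z' : M) : dist (K.mv s x z) (K.mv s x z') ≤
    exp (J.L0 * (1 + K.L * (1 + ‖s‖ + K.h x))) * dist z z' :=
  (J.lip _ z z').trans (by
    gcongr
    · exact J.L0_nonneg
    · exact K.len_β s x)

theorem T_le (r : ℕ) (s : W) (x : X) :
    ‖K.T r s x‖ ≤ exp (J.Lr r * (1 + K.L * (1 + ‖s‖ + K.h x))) :=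
  (J.T_le r _ _).trans (by
    gcongr
    · exact J.Lr_nonneg r
    · exact K.len_β s x)

theorem jet (r : ℕ) (s : W) (x : X) (z : M)
    (hz : dist z (K.pt x) ≤ exp (-(J.Lr r * (1 + K.L * (1 + ‖s‖ + K.h x))))) :
    ‖J.c (K.pt (S.act s x)) (K.mv s x z) - evv (K.T r s x) (J.c (K.pt x) z)‖ ≤
      exp (J.Lr r * (1 + K.L * (1 + ‖s‖ + K.h x))) * dist z (K.pt x) ^ r := by
  have h1 : J.Lr r * (1 + len (K.β s x)) ≤ J.Lr r * (1 + K.L * (1 + ‖s‖ + K.h x)) := by
    gcongr
    · exact J.Lr_nonneg r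
    · exact K.len_β s x
  rw [K.pt_act]
  exact (J.jet r _ _ z (hz.trans (exp_le_exp.2 (neg_le_neg h1)))).trans (by gcongr)

theorem hol_mv (a : W) (n : ℕ) (x x' : X) (γ : Γ) (z : M) :
    α (K.hol a n x x' γ) (K.mv (-(n • a)) x' z) = K.mv (-(n • a)) x (α γ z) := by
  simp [hol, mv]

variable {K}

theorem Sh.mono {a : W} {s s' C C' : ℝ} {x : X} {z : M} (h : K.Sh a s C x z) (hs : s' ≤ s)
    (hC : C ≤ C') : K.Sh a s' C' x z := fun n => by
  have h0 : 0 ≤ C := by simpa using dist_nonneg.trans (h 0)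
  refine (h n).trans (mul_le_mul hC (exp_le_exp.2 (neg_le_neg ?_)) (exp_pos _).le (h0.trans hC))
  exact mul_le_mul_of_nonneg_right hs n.cast_nonneg

theorem Sh.nonneg {a : W} {s C : ℝ} {x : X} {z : M} (h : K.Sh a s C x z) : 0 ≤ C := by
  simpa using dist_nonneg.trans (h 0)

theorem Sh.zero {a : W} {s C : ℝ} {x : X} {z : M} (h : K.Sh a s C x z) : dist z (K.pt x) ≤ C := by
  simpa [K.mv_zero, S.zero] using h 0

theorem Sh.back {a : W} {s C : ℝ} {x : X} {z : M} (h : K.Sh a s C x z) (m : ℕ) :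
    K.Sh a s (C * exp (-(s * m))) (S.act (-(m • a)) x) (K.mv (-(m • a)) x z) := fun n => by
  have := h (n + m)
  rw [K.mv_mv, ← S.add, ← neg_add, ← add_nsmul, mul_assoc, ← exp_add]
  refine this.trans (le_of_eq ?_)
  push_cast
  ring_nf

theorem sh_pt (a : W) (s : ℝ) (x : X) : K.Sh a s 0 x (K.pt x) := fun n => by simp [K.mv_pt]

theorem pt_mem (a : W) (s : ℝ) (x : X) : K.pt x ∈ K.Wu a s x := ⟨0, sh_pt a s x⟩

theorem Wu_exp {a : W} {s : ℝ} {x : X} {z : M} (h : z ∈ K.Wu a s x) :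
    ∃ R, 0 ≤ R ∧ K.Sh a s (exp R) x z := by
  obtain ⟨C, hC⟩ := h
  exact ⟨C, hC.nonneg, hC.mono le_rfl (by linarith [add_one_le_exp C])⟩

end Skew

theorem Jets.c_le (J : Jets α len D) {p z : M} (h : dist z p ≤ exp (-J.L0)) :
    ‖J.c p z‖ ≤ exp J.L0 * dist z p := by
  simpa [J.c_self] using J.c_lip p z p h (by simpa using (exp_pos _).le)

theorem Jets.c_ge (J : Jets α len D) {p z : M} (h : dist z p ≤ exp (-J.L0)) :
    dist z p ≤ exp J.L0 * ‖J.c p z‖ := by
  simpa [J.c_self] using J.c_lip' p z p h (by simpa using (exp_pos _).le)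

theorem Slow.slow_b' {X0 : Set X} {B ε : ℝ} {a : W} {q : X → ℝ} (h : Slow K X0 B a ε q)
    (hi : ∀ s, ∀ x ∈ X0, S.act s x ∈ X0) (n : ℕ) {x : X} (hx : x ∈ X0) :
    q x ≤ q (S.act (-(n • a)) x) + ε * n := by
  have := h.slow_f n _ (hi (-(n • a)) x hx)
  rwa [S.act_neg] at this

theorem Slow.slow_f' {X0 : Set X} {B ε : ℝ} {a : W} {q : X → ℝ} (h : Slow K X0 B a ε q)
    (hi : ∀ s, ∀ x ∈ X0, S.act s x ∈ X0) (n : ℕ) {x : X} (hx : x ∈ X0) :
    q x ≤ q (S.act (n • a) x) + ε * n := by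
  have := h.slow_b n _ (hi (n • a) x hx)
  rwa [S.neg_act] at this

end Pool.Agent.P.MP_d483fb_an.Z.NF

end

end

section

/-!
Normal forms: estimates for the evaluation of jets.
-/

open MvPolynomial Filter Topology Real

noncomputable section

namespace Pool.Agent.P.MP_d483fb_an.Z.NF

variable {D r : ℕ}

theorem PEv_mono_le (α : Fin D →₀ ℕ) (w : E D) : |mono α w| ≤ ‖w‖ ^ α.degree := by
  unfold mono
  rw [Finset.abs_prod, Finsupp.degree_eq_sum, ← Finset.prod_pow_eq_pow_sum]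
  refine Finset.prod_le_prod (fun _ _ => abs_nonneg _) fun j _ => ?_
  rw [abs_pow]
  exact pow_le_pow_left₀ (abs_nonneg _) (norm_le_pi_norm w j) _

theorem ev_eq_eval (t : V D r) (w : E D) : ev t w = eval w (toPoly t) := by
  unfold ev toPoly mono
  rw [map_sum]
  refine Finset.sum_congr rfl fun α _ => ?_
  rw [eval_monomial, Finsupp.prod_fintype _ _ fun i => pow_zero _]

theorem coeff_toPoly (t : V D r) (α : Idx D r) : coeff α.1 (toPoly t) = t α := by
  classical
  unfold toPoly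
  rw [coeff_sum, Finset.sum_eq_single α, coeff_monomial, if_pos rfl]
  · intro β _ hβ
    rw [coeff_monomial, if_neg fun h => hβ (Subtype.ext h)]
  · intro h
    exact absurd (Finset.mem_univ α) h

theorem coeff_toPoly_of_not (t : V D r) {α : Fin D →₀ ℕ} (h : ¬ (0 < α.degree ∧ α.degree < r)) :
    coeff α (toPoly t) = 0 := by
  classical
  unfold toPoly
  rw [coeff_sum]
  refine Finset.sum_eq_zero fun β _ => ?_
  rw [coeff_monomial, if_neg]
  rintro rfl
  exact h β.2

theorem ofPoly_toPoly (t : V D r) : ofPoly (toPoly t) = t := by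
  funext α
  exact coeff_toPoly t α

theorem ev_add (t t' : V D r) (w : E D) : ev (t + t') w = ev t w + ev t' w := by
  simp only [ev, Pi.add_apply, add_mul, Finset.sum_add_distrib]

theorem ev_sub (t t' : V D r) (w : E D) : ev (t - t') w = ev t w - ev t' w := by
  simp only [ev, Pi.sub_apply, sub_mul, Finset.sum_sub_distrib]

theorem ev_smul (c : ℝ) (t : V D r) (w : E D) : ev (c • t) w = c * ev t w := by
  simp only [ev, Pi.smul_apply, smul_eq_mul, Finset.mul_sum, mul_assoc]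

theorem ev_zero (t : V D r) : ev t 0 = 0 := by
  refine Finset.sum_eq_zero fun α _ => ?_
  have h := PEv_mono_le α.1 (0 : E D)
  rw [norm_zero, zero_pow α.2.1.ne'] at h
  rw [abs_nonpos_iff.1 h, mul_zero]

theorem evv_zero (T : Jt D r) : evv T 0 = 0 := by
  funext i
  exact ev_zero (T i)

theorem lin_add (t t' : V D r) : lin (t + t') = lin t + lin t' := by
  simp only [lin, toPoly_add, coeff_add, add_smul, Finset.sum_add_distrib]

theorem lin_smul (c : ℝ) (t : V D r) : lin (c • t) = c • lin t := by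
  simp only [lin, toPoly_smul, coeff_smul, Finset.smul_sum, smul_assoc]

theorem lin_sum {ι : Type} (s : Finset ι) (t : ι → V D r) :
    lin (∑ i ∈ s, t i) = ∑ i ∈ s, lin (t i) := by
  classical
  induction s using Finset.induction_on with
  | empty =>
    have h := lin_smul 0 (0 : V D r)
    rw [zero_smul, zero_smul] at h
    rw [Finset.sum_empty, Finset.sum_empty, h]
  | insert a s ha ih => rw [Finset.sum_insert ha, Finset.sum_insert ha, lin_add, ih]

/-- Two values of a product of `n` factors. -/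
def PEv_P (M δ : ℝ) (n : ℕ) (a b : ℝ) : Prop :=
  |a| ≤ M ^ n ∧ |b| ≤ M ^ n ∧ |a - b| ≤ n * M ^ n * δ

theorem PEv_P_one (M δ : ℝ) : PEv_P M δ 0 1 1 := by
  simp [PEv_P]

theorem PEv_P_mul {M δ : ℝ} {n m : ℕ} {a b c d : ℝ} (h : PEv_P M δ n a b) (h' : PEv_P M δ m c d) :
    PEv_P M δ (n + m) (a * c) (b * d) := by
  obtain ⟨h1, h2, h3⟩ := h
  obtain ⟨k1, k2, k3⟩ := h'
  have p1 : 0 ≤ M ^ n := (abs_nonneg _).trans h1
  refine ⟨?_, ?_, ?_⟩
  · rw [abs_mul, pow_add]
    exact mul_le_mul h1 k1 (abs_nonneg _) p1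
  · rw [abs_mul, pow_add]
    exact mul_le_mul h2 k2 (abs_nonneg _) p1
  · have e : a * c - b * d = a * (c - d) + (a - b) * d := by ring
    have q1 := mul_le_mul h1 k3 (abs_nonneg _) p1
    have q2 := mul_le_mul h3 k2 (abs_nonneg _) ((abs_nonneg _).trans h3)
    rw [e]
    refine (abs_add_le _ _).trans ?_
    rw [abs_mul, abs_mul]
    refine (add_le_add q1 q2).trans (le_of_eq ?_)
    rw [pow_add, Nat.cast_add]
    ring

theorem PEv_P_pow {M δ a b : ℝ} (h : PEv_P M δ 1 a b) (n : ℕ) : PEv_P M δ n (a ^ n) (b ^ n) := by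
  induction n with
  | zero => rw [pow_zero, pow_zero]; exact PEv_P_one M δ
  | succ n ih => rw [pow_succ, pow_succ]; exact PEv_P_mul ih h

theorem PEv_mono_lip (α : Fin D →₀ ℕ) {w w' : E D} {M : ℝ} (hM : 1 ≤ M) (hw : ‖w‖ ≤ M)
    (hw' : ‖w'‖ ≤ M) : |mono α w - mono α w'| ≤ α.degree * M ^ α.degree * ‖w - w'‖ := by
  have h1 : ∀ j, PEv_P M ‖w - w'‖ 1 (w j) (w' j) := fun j => by
    refine ⟨?_, ?_, ?_⟩
    · rw [pow_one]
      exact (norm_le_pi_norm w j).trans hw
    · rw [pow_one]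
      exact (norm_le_pi_norm w' j).trans hw'
    · rw [pow_one, Nat.cast_one, one_mul]
      exact (norm_le_pi_norm (w - w') j).trans (le_mul_of_one_le_left (norm_nonneg _) hM)
  have key : ∀ s : Finset (Fin D), PEv_P M ‖w - w'‖ (∑ j ∈ s, α j) (∏ j ∈ s, w j ^ α j)
      (∏ j ∈ s, w' j ^ α j) := by
    intro s
    induction s using Finset.induction_on with
    | empty => exact PEv_P_one _ _
    | insert a s ha ih =>
      rw [Finset.sum_insert ha, Finset.prod_insert ha, Finset.prod_insert ha]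
      exact PEv_P_mul (PEv_P_pow (h1 a) _) ih
  rw [Finsupp.degree_eq_sum]
  exact (key Finset.univ).2.2

theorem PEv_sum_le (t : V D r) (f : Idx D r → ℝ) {B : ℝ} (h : ∀ α, |f α| ≤ B) :
    |∑ α, t α * f α| ≤ Fintype.card (Idx D r) * (‖t‖ * B) := by
  refine (Finset.abs_sum_le_sum_abs _ _).trans ?_
  rw [← nsmul_eq_mul, ← Finset.card_univ]
  refine Finset.sum_le_card_nsmul _ _ _ fun α _ => ?_
  rw [abs_mul]
  exact mul_le_mul (norm_le_pi_norm t α) (h α) (abs_nonneg _) (norm_nonneg _)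

theorem PEv_lin_apply (t : V D r) (w : E D) :
    lin t w = ∑ j, coeff (Finsupp.single j 1) (toPoly t) * w j := by
  simp [lin]

open Classical in
theorem PEv_lin_eq (t : V D r) (w : E D) :
    lin t w = ∑ α, t α * ∑ j, if α.1 = Finsupp.single j 1 then w j else 0 := by
  rw [PEv_lin_apply]
  simp only [toPoly, coeff_sum, coeff_monomial, Finset.sum_mul, Finset.mul_sum]
  rw [Finset.sum_comm]
  refine Finset.sum_congr rfl fun α _ => Finset.sum_congr rfl fun j _ => ?_
  split_ifs <;> simp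

open Classical in
theorem PEv_mono_lin (α : Fin D →₀ ℕ) (hα : 0 < α.degree) {w : E D} (hw : ‖w‖ ≤ 1) :
    |mono α w - ∑ j, if α = Finsupp.single j 1 then w j else 0| ≤ ‖w‖ ^ 2 := by
  by_cases h : ∃ j, α = Finsupp.single j 1
  · obtain ⟨j, rfl⟩ := h
    have e1 : mono (Finsupp.single j 1) w = w j := by
      unfold mono
      rw [Finset.prod_eq_single j, Finsupp.single_eq_same, pow_one]
      · intro i _ hi
        rw [Finsupp.single_eq_of_ne hi, pow_zero]
      · intro h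
        exact absurd (Finset.mem_univ j) h
    rw [e1, Finset.sum_eq_single j, if_pos rfl, sub_self, abs_zero]
    · positivity
    · intro i _ hi
      rw [if_neg fun h => hi (Finsupp.single_left_injective one_ne_zero h).symm]
    · intro h
      exact absurd (Finset.mem_univ j) h
  · rw [Finset.sum_eq_zero fun j _ => if_neg fun hj => h ⟨j, hj⟩, sub_zero]
    refine (PEv_mono_le α w).trans (pow_le_pow_of_le_one (norm_nonneg _) hw ?_)
    by_contra h2
    have h1 : α ∈ {d : Fin D →₀ ℕ | d.degree = 1} := by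
      show α.degree = 1
      omega
    rw [← Finsupp.range_single_one] at h1
    obtain ⟨j, hj⟩ := h1
    exact h ⟨j, hj.symm⟩

theorem PEv_coeff_le (t : V D r) (α : Fin D →₀ ℕ) : |coeff α (toPoly t)| ≤ ‖t‖ := by
  by_cases h : 0 < α.degree ∧ α.degree < r
  · rw [coeff_toPoly t ⟨α, h⟩]
    exact norm_le_pi_norm t _
  · rw [coeff_toPoly_of_not t h, abs_zero]
    exact norm_nonneg _

theorem exists_pc_ev (D r : ℕ) : ∃ A : ℝ, 0 ≤ A ∧
    (∀ (t : V D r) (w : E D) (R : ℝ), 0 ≤ R → ‖w‖ ≤ exp R →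
      |ev t w| ≤ exp (A + r * R) * ‖t‖ * ‖w‖) ∧
    (∀ (t : V D r) (w w' : E D) (R : ℝ), 0 ≤ R → ‖w‖ ≤ exp R → ‖w'‖ ≤ exp R →
      |ev t w - ev t w'| ≤ exp (A + r * R) * ‖t‖ * ‖w - w'‖) ∧
    (∀ (t : V D r) (w : E D), ‖w‖ ≤ 1 → |ev t w - lin t w| ≤ exp A * ‖t‖ * ‖w‖ ^ 2) ∧
    ∀ t : V D r, ‖lin t‖ ≤ exp A * ‖t‖ := by
  obtain ⟨A, hA, h1, h2, h3⟩ : ∃ A : ℝ, 0 ≤ A ∧ (Fintype.card (Idx D r) : ℝ) * r ≤ exp A ∧
      (Fintype.card (Idx D r) : ℝ) ≤ exp A ∧ (D : ℝ) ≤ exp A := by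
    have p1 : (0 : ℝ) ≤ (Fintype.card (Idx D r) : ℝ) * r := by positivity
    have p2 : (0 : ℝ) ≤ (Fintype.card (Idx D r) : ℝ) := by positivity
    have p3 : (0 : ℝ) ≤ (D : ℝ) := by positivity
    have := Real.add_one_le_exp ((Fintype.card (Idx D r) : ℝ) * r + Fintype.card (Idx D r) + D)
    exact ⟨(Fintype.card (Idx D r) : ℝ) * r + Fintype.card (Idx D r) + D, by positivity,
      by linarith, by linarith, by linarith⟩
  have hlip : ∀ (t : V D r) (w w' : E D) (R : ℝ), 0 ≤ R → ‖w‖ ≤ exp R → ‖w'‖ ≤ exp R →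
      |ev t w - ev t w'| ≤ exp (A + r * R) * ‖t‖ * ‖w - w'‖ := by
    intro t w w' R hR hw hw'
    have hM := Real.one_le_exp hR
    have e : ev t w - ev t w' = ∑ α, t α * (mono α.1 w - mono α.1 w') := by
      simp only [ev, mul_sub, Finset.sum_sub_distrib]
    have hb : ∀ α : Idx D r, |mono α.1 w - mono α.1 w'| ≤ r * exp R ^ r * ‖w - w'‖ := fun α =>
      (PEv_mono_lip α.1 hM hw hw').trans (mul_le_mul_of_nonneg_right
        (mul_le_mul (Nat.cast_le.2 α.2.2.le) (pow_le_pow_right₀ hM α.2.2.le) (by positivity)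
          (by positivity)) (norm_nonneg _))
    rw [e]
    refine (PEv_sum_le t _ hb).trans ?_
    rw [Real.exp_add, Real.exp_nat_mul]
    calc (Fintype.card (Idx D r) : ℝ) * (‖t‖ * (r * exp R ^ r * ‖w - w'‖))
        = (Fintype.card (Idx D r) : ℝ) * r * (exp R ^ r * ‖t‖ * ‖w - w'‖) := by ring
      _ ≤ exp A * (exp R ^ r * ‖t‖ * ‖w - w'‖) := mul_le_mul_of_nonneg_right h1 (by positivity)
      _ = _ := by ring
  refine ⟨A, hA, fun t w R hR hw => ?_, hlip, fun t w hw => ?_, fun t => ?_⟩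
  · have h := hlip t w 0 R hR hw (by rw [norm_zero]; exact (Real.exp_pos R).le)
    rwa [ev_zero, sub_zero, sub_zero] at h
  · rw [PEv_lin_eq, ev, ← Finset.sum_sub_distrib]
    simp only [← mul_sub]
    refine (PEv_sum_le t _ fun α => PEv_mono_lin α.1 α.2.1 hw).trans ?_
    rw [mul_assoc]
    exact mul_le_mul_of_nonneg_right h2 (by positivity)
  · refine ContinuousLinearMap.opNorm_le_bound _ (by positivity) fun w => ?_
    rw [PEv_lin_apply, Real.norm_eq_abs]
    refine (Finset.abs_sum_le_sum_abs _ _).trans ?_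
    refine (Finset.sum_le_card_nsmul _ _ (‖t‖ * ‖w‖) fun j _ => ?_).trans ?_
    · rw [abs_mul]
      exact mul_le_mul (PEv_coeff_le t _) (norm_le_pi_norm w j) (abs_nonneg _) (norm_nonneg _)
    · rw [Finset.card_univ, Fintype.card_fin, nsmul_eq_mul, mul_assoc]
      exact mul_le_mul_of_nonneg_right h3 (by positivity)

end Pool.Agent.P.MP_d483fb_an.Z.NF

end

end

section

/-!
Normal forms: estimates for the composition of jets.
-/

open MvPolynomial Filter Topology Real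

noncomputable section

namespace Pool.Agent.P.MP_d483fb_an.Z.NF

variable {D r : ℕ}

/-- The sum of the absolute values of the coefficients. -/
def n1 (p : MvPolynomial (Fin D) ℝ) : ℝ := ∑ α ∈ p.support, |coeff α p|

theorem n1_nonneg (p : MvPolynomial (Fin D) ℝ) : 0 ≤ n1 p :=
  Finset.sum_nonneg fun _ _ => abs_nonneg _

theorem sum_le_n1 (p : MvPolynomial (Fin D) ℝ) (s : Finset (Fin D →₀ ℕ)) :
    ∑ α ∈ s, |coeff α p| ≤ n1 p := by
  classical
  rw [← Finset.sum_filter_ne_zero]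
  refine Finset.sum_le_sum_of_subset_of_nonneg (fun α hα => ?_) fun _ _ _ => abs_nonneg _
  exact mem_support_iff.2 (abs_ne_zero.1 (Finset.mem_filter.1 hα).2)

theorem coeff_le_n1 (p : MvPolynomial (Fin D) ℝ) (α : Fin D →₀ ℕ) : |coeff α p| ≤ n1 p := by
  simpa using sum_le_n1 p {α}

theorem n1_sum {ι : Type} (s : Finset ι) (f : ι → MvPolynomial (Fin D) ℝ) :
    n1 (∑ i ∈ s, f i) ≤ ∑ i ∈ s, n1 (f i) := by
  calc n1 (∑ i ∈ s, f i) ≤ ∑ α ∈ (∑ i ∈ s, f i).support, ∑ i ∈ s, |coeff α (f i)| :=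
        Finset.sum_le_sum fun α _ => by
          rw [coeff_sum]
          exact Finset.abs_sum_le_sum_abs _ _
    _ ≤ ∑ i ∈ s, n1 (f i) := by
        rw [Finset.sum_comm]
        exact Finset.sum_le_sum fun i _ => sum_le_n1 _ _

theorem n1_monomial (α : Fin D →₀ ℕ) (c : ℝ) : n1 (monomial α c) ≤ |c| := by
  classical
  refine (Finset.sum_le_sum_of_subset_of_nonneg support_monomial_subset
    fun _ _ _ => abs_nonneg _).trans_eq ?_
  simp

theorem n1_mul (p q : MvPolynomial (Fin D) ℝ) : n1 (p * q) ≤ n1 p * n1 q := by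
  conv_lhs => rw [p.as_sum, q.as_sum, Finset.sum_mul_sum]
  conv_rhs => rw [n1, n1, Finset.sum_mul_sum]
  refine (n1_sum _ _).trans (Finset.sum_le_sum fun α _ =>
    (n1_sum _ _).trans (Finset.sum_le_sum fun β _ => ?_))
  rw [monomial_mul, ← abs_mul]
  exact n1_monomial _ _

theorem n1_one : n1 (1 : MvPolynomial (Fin D) ℝ) ≤ 1 := by
  simpa using n1_monomial (D := D) 0 1

theorem n1_pow {p : MvPolynomial (Fin D) ℝ} {K : ℝ} (h : n1 p ≤ K) (n : ℕ) :
    n1 (p ^ n) ≤ K ^ n := by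
  induction n with
  | zero => simpa using n1_one
  | succ n ih =>
    rw [pow_succ, pow_succ]
    exact (n1_mul _ _).trans (mul_le_mul ih h (n1_nonneg _) ((n1_nonneg _).trans ih))

theorem n1_prod {ι : Type} (s : Finset ι) {f : ι → MvPolynomial (Fin D) ℝ} {K : ι → ℝ}
    (h : ∀ i, n1 (f i) ≤ K i) : n1 (∏ i ∈ s, f i) ≤ ∏ i ∈ s, K i := by
  classical
  induction s using Finset.induction_on with
  | empty => simpa using n1_one
  | insert a s ha ih =>
    rw [Finset.prod_insert ha, Finset.prod_insert ha]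
    exact (n1_mul _ _).trans (mul_le_mul (h a) ih (n1_nonneg _) ((n1_nonneg _).trans (h a)))

theorem n1_toPoly (t : V D r) : n1 (toPoly t) ≤ Fintype.card (Idx D r) * ‖t‖ := by
  refine (n1_sum _ _).trans ((Finset.sum_le_card_nsmul _ _ ‖t‖ fun α _ =>
    (n1_monomial _ _).trans (norm_le_pi_norm t α)).trans_eq ?_)
  rw [nsmul_eq_mul, Finset.card_univ]

theorem n1_bind (t : V D r) {f : Fin D → MvPolynomial (Fin D) ℝ} {K : ℝ} (hK : 1 ≤ K)
    (h : ∀ j, n1 (f j) ≤ K) :
    n1 (bind₁ f (toPoly t)) ≤ Fintype.card (Idx D r) * (‖t‖ * K ^ r) := by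
  rw [toPoly, map_sum]
  refine (n1_sum _ _).trans ((Finset.sum_le_card_nsmul _ _ (‖t‖ * K ^ r)
    fun α _ => ?_).trans_eq ?_)
  · rw [bind₁_monomial]
    refine (n1_mul _ _).trans (mul_le_mul ((n1_monomial 0 _).trans (norm_le_pi_norm t α))
      ((n1_prod _ fun j => n1_pow (h j) _).trans ?_) (n1_nonneg _) (norm_nonneg _))
    rw [Finset.prod_pow_eq_pow_sum]
    exact pow_le_pow_right₀ hK α.2.2.le
  · rw [nsmul_eq_mul, Finset.card_univ]

theorem n1_comp (t : V D r) (T : Jt D r) {R : ℝ} (hR : 0 ≤ R) (hT : ‖T‖ ≤ exp R) :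
    n1 (bind₁ (fun j => toPoly (T j)) (toPoly t)) ≤
      exp ((r + 1) * Fintype.card (Idx D r) + r * R) * ‖t‖ := by
  set κ : ℝ := (Fintype.card (Idx D r) : ℝ)
  have hκ : 0 ≤ κ := Nat.cast_nonneg _
  have h1 : κ ≤ exp κ := by linarith [add_one_le_exp κ]
  have h2 := n1_bind t (f := fun j => toPoly (T j)) (K := exp (κ + R))
    (one_le_exp (by linarith)) fun j => (n1_toPoly _).trans (by
      rw [exp_add]
      exact mul_le_mul h1 ((norm_le_pi_norm T j).trans hT) (norm_nonneg _) (exp_pos _).le)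
  refine h2.trans ((mul_le_mul_of_nonneg_right h1 (by positivity)).trans_eq ?_)
  rw [← exp_nat_mul, show (r + 1) * κ + r * R = κ + r * (κ + R) by ring, exp_add]
  ring

theorem eval_comp (t : V D r) (T : Jt D r) (w : E D) :
    eval w (bind₁ (fun j => toPoly (T j)) (toPoly t)) = ev t (evv T w) := by
  rw [ev_eq_eval, show evv T w = fun j => eval w (toPoly (T j)) from
    funext fun j => ev_eq_eval _ _]
  exact aeval_bind₁ w _ _

theorem trunc_err {p : MvPolynomial (Fin D) ℝ} (h0 : coeff 0 p = 0) {w : E D} (hw : ‖w‖ ≤ 1) :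
    |ev (ofPoly p : V D r) w - eval w p| ≤ n1 p * ‖w‖ ^ r := by
  rw [ev_eq_eval, ← map_sub, eval_eq']
  refine (Finset.abs_sum_le_sum_abs _ _).trans (le_trans (Finset.sum_le_sum fun α hα => ?_)
    ((Finset.sum_mul _ _ _).ge.trans (mul_le_mul_of_nonneg_right (sum_le_n1 p _) (by positivity))))
  have h1 := mem_support_iff.1 hα
  rw [coeff_sub] at h1 ⊢
  by_cases h2 : 0 < α.degree ∧ α.degree < r
  · exact absurd (sub_eq_zero.2 (coeff_toPoly (ofPoly p : V D r) ⟨α, h2⟩)) h1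
  · rw [coeff_toPoly_of_not _ h2, zero_sub] at h1 ⊢
    have h3 : 0 < α.degree := Nat.pos_of_ne_zero fun e => h1 (by
      rw [(Finsupp.degree_eq_zero_iff α).1 e, h0, neg_zero])
    have h4 : r ≤ α.degree := not_lt.1 fun e => h2 ⟨h3, e⟩
    rw [abs_mul, abs_neg, Finset.abs_prod]
    refine mul_le_mul_of_nonneg_left ((Finset.prod_le_prod (g := fun j => ‖w‖ ^ α j)
      (fun _ _ => abs_nonneg _) fun j _ => ?_).trans ?_) (abs_nonneg _)
    · rw [abs_pow]
      exact pow_le_pow_left₀ (abs_nonneg _) (norm_le_pi_norm w j) _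
    · rw [Finset.prod_pow_eq_pow_sum, ← Finsupp.degree_eq_sum]
      exact pow_le_pow_of_le_one (norm_nonneg _) hw h4

theorem exists_pc (D r : ℕ) : ∃ A : ℝ, PC D r A := by
  obtain ⟨A, h0, h1, h2, h3, h4⟩ := exists_pc_ev D r
  set B : ℝ := (r + 1) * Fintype.card (Idx D r)
  have hB : 0 ≤ B := by positivity
  have e2 : exp A ≤ exp (A + B) := exp_le_exp.2 (by linarith)
  have e3 : ∀ (t : V D r) (T : Jt D r) (R : ℝ), 0 ≤ R → ‖T‖ ≤ exp R →
      n1 (bind₁ (fun j => toPoly (T j)) (toPoly t)) ≤ exp (A + B + r * R) * ‖t‖ :=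
    fun t T R hR hT => (n1_comp t T hR hT).trans
      (mul_le_mul_of_nonneg_right (exp_le_exp.2 (by linarith)) (norm_nonneg _))
  refine ⟨A + B, by linarith, fun t w R hR hw => (h1 t w R hR hw).trans ?_,
    fun t w w' R hR hw hw' => (h2 t w w' R hR hw hw').trans ?_, fun t w hw => (h3 t w hw).trans ?_,
    fun t => (h4 t).trans ?_, fun t T R hR hT => ?_, fun t T w R hR hT hw => ?_⟩
  · gcongr
    linarith
  · gcongr
    linarith
  · gcongr
  · gcongr
  · exact (pi_norm_le_iff_of_nonneg (by positivity)).2 fun α =>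
      (coeff_le_n1 _ _).trans (e3 t T R hR hT)
  · rw [← eval_comp]
    refine (trunc_err ?_ hw).trans (mul_le_mul_of_nonneg_right (e3 t T R hR hT) (by positivity))
    have h5 := eval_comp t T 0
    rwa [evv_zero, ev_zero, eval_zero] at h5

end Pool.Agent.P.MP_d483fb_an.Z.NF

end

end

section

/-!
Normal forms: uniqueness of jets and the monoid of jets.
-/

open MvPolynomial Filter Topology Real Asymptotics

noncomputable section

namespace Pool.Agent.P.MP_d483fb_an.Z.NF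

variable {D r : ℕ}

theorem uniq {t t' : V D r} {C δ : ℝ} (hδ : 0 < δ)
    (h : ∀ w : E D, ‖w‖ ≤ δ → |ev t w - ev t' w| ≤ C * ‖w‖ ^ r) : t = t' := by
  have hl : Jet.Low r (toPoly (t - t')) := fun m hm =>
    coeff_toPoly_of_not _ fun h => absurd h.2 (not_lt.2 hm)
  have h0 := hl.eq_zero (E := C) hδ fun v hv => by
    rw [← ev_eq_eval, ev_sub]
    exact h v hv.le
  rw [← sub_eq_zero, ← ofPoly_toPoly (t - t'), h0]
  rfl

theorem uniqv {T T' : Jt D r} {C δ : ℝ} (hδ : 0 < δ)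
    (h : ∀ w : E D, ‖w‖ ≤ δ → ‖evv T w - evv T' w‖ ≤ C * ‖w‖ ^ r) : T = T' := by
  funext i
  exact uniq hδ fun w hw => (norm_le_pi_norm (evv T w - evv T' w) i).trans (h w hw)

theorem uniq_O {t t' : V D r}
    (h : (fun w => ev t w - ev t' w) =O[𝓝 0] fun w : E D => ‖w‖ ^ r) : t = t' := by
  obtain ⟨C, hC⟩ := h.bound
  obtain ⟨δ, hδ, h2⟩ := Metric.eventually_nhds_iff.1 hC
  refine uniq (C := C) (half_pos hδ) fun w hw => ?_
  have := h2 (y := w) (by rw [dist_zero_right]; linarith)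
  rwa [Real.norm_eq_abs, norm_pow, norm_norm] at this

theorem ev_norm_le_one : ∀ᶠ w in 𝓝 (0 : E D), ‖w‖ ≤ 1 := by
  filter_upwards [Metric.closedBall_mem_nhds (0 : E D) one_pos] with w hw
  exact mem_closedBall_zero_iff.1 hw

theorem norm_le_exp_norm {F : Type*} [SeminormedAddGroup F] (x : F) : ‖x‖ ≤ exp ‖x‖ :=
  le_trans (le_add_of_nonneg_right zero_le_one) (add_one_le_exp _)

theorem comp_err_O (t : V D r) (T : Jt D r) :
    (fun w => ev (comp t T) w - ev t (evv T w)) =O[𝓝 0] fun w : E D => ‖w‖ ^ r := by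
  obtain ⟨A, h⟩ := exists_pc D r
  refine IsBigO.of_bound (exp (A + r * ‖T‖) * ‖t‖) ?_
  filter_upwards [ev_norm_le_one] with w hw
  rw [norm_pow, norm_norm]
  exact h.comp_err t T w _ (norm_nonneg _) (norm_le_exp_norm T) hw

theorem compv_err_O (S T : Jt D r) :
    (fun w => evv (compv S T) w - evv S (evv T w)) =O[𝓝 0] fun w : E D => ‖w‖ ^ r :=
  isBigO_pi.2 fun i => comp_err_O (S i) T

theorem evv_O (T : Jt D r) : evv T =O[𝓝 0] fun w : E D => w := by
  obtain ⟨A, h⟩ := exists_pc D r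
  refine IsBigO.of_bound (exp (A + r * 0) * ‖T‖) ?_
  filter_upwards [ev_norm_le_one] with w hw
  exact h.evv_le T w le_rfl (by rwa [exp_zero])

theorem tendsto_evv (T : Jt D r) : Tendsto (evv T) (𝓝 0) (𝓝 0) :=
  (evv_O T).trans_tendsto tendsto_id

theorem pow_evv_O (T : Jt D r) (k : ℕ) :
    (fun w => ‖evv T w‖ ^ k) =O[𝓝 0] fun w : E D => ‖w‖ ^ k :=
  (evv_O T).norm_norm.pow k

theorem ev_lip_O (t : V D r) {f g : E D → E D} (hf : Tendsto f (𝓝 0) (𝓝 0))
    (hg : Tendsto g (𝓝 0) (𝓝 0)) :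
    (fun w => ev t (f w) - ev t (g w)) =O[𝓝 0] fun w => f w - g w := by
  obtain ⟨A, h⟩ := exists_pc D r
  refine IsBigO.of_bound (exp (A + r * 0) * ‖t‖) ?_
  filter_upwards [hf.eventually ev_norm_le_one, hg.eventually ev_norm_le_one] with w h1 h2
  exact h.ev_lip t _ _ 0 le_rfl (by rwa [exp_zero]) (by rwa [exp_zero])

theorem ev_lin_O (t : V D r) :
    (fun w => ev t w - lin t w) =O[𝓝 0] fun w : E D => ‖w‖ ^ 2 := by
  obtain ⟨A, h⟩ := exists_pc D r
  refine IsBigO.of_bound (exp A * ‖t‖) ?_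
  filter_upwards [ev_norm_le_one] with w hw
  rw [norm_pow, norm_norm]
  exact h.ev_lin t w hw

theorem evv_lin_O (T : Jt D r) :
    (fun w => evv T w - linv T w) =O[𝓝 0] fun w : E D => ‖w‖ ^ 2 :=
  isBigO_pi.2 fun i => ev_lin_O (T i)

theorem clm_eq_of_O {F : Type*} [NormedAddCommGroup F] [NormedSpace ℝ F] {L L' : E D →L[ℝ] F}
    (h : (fun w => L w - L' w) =O[𝓝 0] fun w : E D => ‖w‖ ^ 2) : L = L' := by
  have h1 : HasFDerivAt L L' 0 := by
    rw [hasFDerivAt_iff_isLittleO_nhds_zero]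
    simpa only [zero_add, map_zero, sub_zero] using
      h.trans_isLittleO (isLittleO_norm_pow_id one_lt_two)
  exact L.hasFDerivAt.unique h1

theorem pow_O_sq (hr : 2 ≤ r) : (fun w : E D => ‖w‖ ^ r) =O[𝓝 0] fun w => ‖w‖ ^ 2 := by
  refine IsBigO.of_bound 1 ?_
  filter_upwards [ev_norm_le_one] with w hw
  rw [one_mul, norm_pow, norm_pow, norm_norm]
  exact pow_le_pow_of_le_one (norm_nonneg _) hw hr

theorem linv_eq {r' : ℕ} {T : Jt D r} {T' : Jt D r'} {C δ : ℝ} (hδ : 0 < δ)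
    (h : ∀ w : E D, ‖w‖ ≤ δ → ‖evv T w - evv T' w‖ ≤ C * ‖w‖ ^ 2) : linv T = linv T' := by
  have h1 : (fun w => evv T w - evv T' w) =O[𝓝 0] fun w : E D => ‖w‖ ^ 2 := by
    refine IsBigO.of_bound C ?_
    filter_upwards [Metric.closedBall_mem_nhds (0 : E D) hδ] with w hw
    rw [norm_pow, norm_norm]
    exact h w (mem_closedBall_zero_iff.1 hw)
  refine clm_eq_of_O (((h1.sub (evv_lin_O T)).add (evv_lin_O T')).congr_left fun w => ?_)
  abel

theorem comp_assoc (t : V D r) (S T : Jt D r) : comp (comp t S) T = comp t (compv S T) := by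
  have h1 := comp_err_O (comp t S) T
  have h2 := ((comp_err_O t S).comp_tendsto (tendsto_evv T)).trans (pow_evv_O T r)
  have h3 := comp_err_O t (compv S T)
  have h4 := (ev_lip_O t (tendsto_evv (compv S T))
    ((tendsto_evv S).comp (tendsto_evv T))).trans (compv_err_O S T)
  refine uniq_O ((((h1.add h2).sub h3).sub h4).congr_left fun w => ?_)
  simp only [Function.comp_apply]
  ring

theorem compv_assoc (R S T : Jt D r) : compv (compv R S) T = compv R (compv S T) := by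
  funext i
  exact comp_assoc (R i) S T

theorem toPoly_ofPoly {p : MvPolynomial (Fin D) ℝ}
    (h : ∀ α, coeff α p ≠ 0 → 0 < α.degree ∧ α.degree < r) : toPoly (ofPoly p : V D r) = p := by
  ext α
  by_cases hα : 0 < α.degree ∧ α.degree < r
  · exact coeff_toPoly (ofPoly p) ⟨α, hα⟩
  · rw [coeff_toPoly_of_not _ hα]
    by_contra hc
    exact hα (h α (Ne.symm hc))

theorem toPoly_ofPoly_X (hr : 2 ≤ r) (i : Fin D) : toPoly (ofPoly (X i) : V D r) = X i := by
  refine toPoly_ofPoly fun α hα => ?_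
  rw [coeff_X] at hα
  have : Finsupp.single i 1 = α := by
    by_contra hc
    exact hα (if_neg hc)
  rw [← this, Finsupp.degree_single]
  exact ⟨one_pos, hr⟩

theorem evv_idv (hr : 2 ≤ r) (w : E D) : evv (idv D r) w = w := by
  funext i
  rw [evv, idv, ev_eq_eval, toPoly_ofPoly_X hr, eval_X]

theorem comp_idv (hr : 2 ≤ r) (t : V D r) : comp t (idv D r) = t := by
  refine uniq_O ((comp_err_O t (idv D r)).congr_left fun w => ?_)
  rw [evv_idv hr]

theorem compv_idv (hr : 2 ≤ r) (T : Jt D r) : compv T (idv D r) = T := by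
  funext i
  exact comp_idv hr (T i)

theorem idv_compv (hr : 2 ≤ r) (T : Jt D r) : compv (idv D r) T = T := by
  funext i
  rw [compv, comp, idv, toPoly_ofPoly_X hr, bind₁_X_right, ofPoly_toPoly]

theorem norm_idv_le : ‖idv D r‖ ≤ 1 := by
  refine (pi_norm_le_iff_of_nonneg zero_le_one).2 fun i =>
    (pi_norm_le_iff_of_nonneg zero_le_one).2 fun α => ?_
  rw [idv, ofPoly, coeff_X]
  split_ifs <;> simp

theorem lin_comp (t : V D r) (T : Jt D r) : lin (comp t T) = (lin t).comp (linv T) := by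
  rcases le_or_gt 2 r with hr | hr
  · have h1 := ev_lin_O (comp t T)
    have h2 := (comp_err_O t T).trans (pow_O_sq hr)
    have h3 := ((ev_lin_O t).comp_tendsto (tendsto_evv T)).trans (pow_evv_O T 2)
    have h4 := ((lin t).isBigO_comp _ (𝓝 0)).trans (evv_lin_O T)
    refine clm_eq_of_O ((((h2.sub h1).add h3).add h4).congr_left fun w => ?_)
    simp only [Function.comp_apply, map_sub, ContinuousLinearMap.comp_apply]
    ring
  · haveI : IsEmpty (Idx D r) := ⟨fun α => by have := α.2; omega⟩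
    have h0 : ∀ s : V D r, lin s = 0 := fun s => by
      rw [Subsingleton.elim s ((0 : ℝ) • s), lin_smul, zero_smul]
    rw [h0, h0, ContinuousLinearMap.zero_comp]

theorem linv_compv (S T : Jt D r) : linv (compv S T) = (linv S).comp (linv T) := by
  ext w i
  rw [linv_apply, compv, lin_comp]
  rfl

theorem linv_idv (hr : 2 ≤ r) : linv (idv D r) = ContinuousLinearMap.id ℝ (E D) := by
  refine clm_eq_of_O ((evv_lin_O (idv D r)).neg_left.congr_left fun w => ?_)
  rw [evv_idv hr, neg_sub, ContinuousLinearMap.id_apply]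

theorem coeff_linPoly (g : E D) (α : Fin D →₀ ℕ) :
    coeff α (∑ j, C (g j) * X j : MvPolynomial (Fin D) ℝ) =
      ∑ j, if Finsupp.single j 1 = α then g j else 0 := by
  simp only [coeff_sum, coeff_C_mul, coeff_X, mul_ite, mul_one, mul_zero]

theorem coeff_single_linPoly (g : E D) (i : Fin D) :
    coeff (Finsupp.single i 1) (∑ j, C (g j) * X j : MvPolynomial (Fin D) ℝ) = g i := by
  simp only [coeff_linPoly, (Finsupp.single_left_injective one_ne_zero).eq_iff, Finset.sum_ite_eq',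
    Finset.mem_univ, if_true]

theorem exists_single_of_coeff {g : E D} {α : Fin D →₀ ℕ}
    (h : coeff α (∑ j, C (g j) * X j : MvPolynomial (Fin D) ℝ) ≠ 0) :
    ∃ j, Finsupp.single j 1 = α := by
  rw [coeff_linPoly] at h
  obtain ⟨j, -, hj⟩ := Finset.exists_ne_zero_of_sum_ne_zero h
  by_contra hc
  exact hj (if_neg fun e => hc ⟨j, e⟩)

theorem toPoly_ofLin (hr : 2 ≤ r) (g : E D) : toPoly (ofLin r g) = ∑ j, C (g j) * X j := by
  refine toPoly_ofPoly fun α hα => ?_
  obtain ⟨j, rfl⟩ := exists_single_of_coeff hα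
  rw [Finsupp.degree_single]
  exact ⟨one_pos, hr⟩

theorem lin_ofLin (hr : 2 ≤ r) (g w : E D) : lin (ofLin r g) w = ∑ j, g j * w j := by
  simp only [lin, toPoly_ofLin hr, coeff_single_linPoly, sum_apply,
    smul_apply, ContinuousLinearMap.proj_apply, smul_eq_mul]

theorem ev_ofLin (hr : 2 ≤ r) (g w : E D) : ev (ofLin r g) w = ∑ j, g j * w j := by
  simp only [ev_eq_eval, toPoly_ofLin hr, map_sum, map_mul, eval_C, eval_X]

theorem norm_ofLin_le (g : E D) : ‖ofLin r g‖ ≤ ‖g‖ := by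
  refine (pi_norm_le_iff_of_nonneg (norm_nonneg _)).2 fun α => ?_
  rw [ofLin, ofPoly]
  by_cases h : coeff α.1 (∑ j, C (g j) * X j : MvPolynomial (Fin D) ℝ) = 0
  · rw [h, norm_zero]
    exact norm_nonneg _
  · obtain ⟨j, hj⟩ := exists_single_of_coeff h
    rw [← hj, coeff_single_linPoly]
    exact norm_le_pi_norm g j

end Pool.Agent.P.MP_d483fb_an.Z.NF

end

end

section

/-!
Normal forms: the chain rule for the jets of an action.
-/

open MeasureTheory Filter Topology Set Real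

set_option linter.unusedSectionVars false

noncomputable section

namespace Pool.Agent.P.MP_d483fb_an.Z.NF

open Os

variable {W X Γ M : Type} [NormedAddCommGroup W] [NormedSpace ℝ W] [MeasurableSpace W]
  [MeasurableSpace X] {μ : Measure X} [Group Γ] [MeasurableSpace Γ] [MetricSpace M]
  [MeasurableSpace M] {α : Γ →* Equiv.Perm M} {len : Γ → ℝ} {D : ℕ}
  {S : Sys W X μ} {J : Jets α len D} {K : Skew S J} {lam : Fin D → W →L[ℝ] ℝ} {r : ℕ}
  {a : W} {s1 s2 : ℝ}

/-- Small vectors are the coordinates of points close to the base point. -/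
theorem Jets.exists_pt (J : Jets α len D) (p : M) {η : ℝ} (hη : 0 < η) :
    ∃ δ, 0 < δ ∧ ∀ w : E D, ‖w‖ ≤ δ →
      ‖w‖ ≤ 1 ∧ ∃ z, dist z p ≤ exp J.L0 * ‖w‖ ∧ dist z p ≤ η ∧ J.c p z = w := by
  refine ⟨min (exp (-(2 * J.L0))) (exp (-J.L0) * η), by positivity, fun w hw => ?_⟩
  have h1 : ‖w‖ ≤ exp (-(2 * J.L0)) := hw.trans (min_le_left _ _)
  have h2 : ‖w‖ ≤ exp (-J.L0) * η := hw.trans (min_le_right _ _)
  refine ⟨h1.trans (exp_le_one_iff.2 (by linarith [J.L0_nonneg])), ?_⟩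
  obtain ⟨z, hz, hc⟩ := J.c_onto p w h1
  refine ⟨z, hz, hz.trans ?_, hc⟩
  calc exp J.L0 * ‖w‖ ≤ exp J.L0 * (exp (-J.L0) * η) := by gcongr
    _ = η := by rw [← mul_assoc, ← exp_add, add_neg_cancel, exp_zero, one_mul]

theorem Jets.T_mul (J : Jets α len D) (r : ℕ) (γ γ' : Γ) (p : M) :
    J.T r (γ * γ') p = compv (J.T r γ (α γ' p)) (J.T r γ' p) := by
  obtain ⟨A, hA⟩ := exists_pc D r
  obtain ⟨R1, hR1⟩ : ∃ R1, R1 = J.Lr r * (1 + len (γ * γ')) := ⟨_, rfl⟩
  obtain ⟨R2, hR2⟩ : ∃ R2, R2 = J.Lr r * (1 + len γ') := ⟨_, rfl⟩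
  obtain ⟨R3, hR3⟩ : ∃ R3, R3 = J.Lr r * (1 + len γ) := ⟨_, rfl⟩
  obtain ⟨Lp, hLp⟩ : ∃ Lp, Lp = J.L0 * (1 + len γ') := ⟨_, rfl⟩
  have hR20 : 0 ≤ R2 := by
    rw [hR2]
    exact mul_nonneg (J.Lr_nonneg r) (by linarith [J.len_nonneg γ'])
  have hA0 := hA.nonneg
  obtain ⟨δ, hδ, hpt⟩ := J.exists_pt p (η := min (min (exp (-R1)) (exp (-R2)))
    (exp (-Lp) * min (exp (-R3)) (exp (-J.L0)))) (by positivity)
  refine uniqv (C := exp R1 * exp J.L0 ^ r + exp R3 * (exp Lp * exp J.L0) ^ r +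
    exp (A + r * (A + R2)) * ‖J.T r γ (α γ' p)‖ * (exp R2 * exp J.L0 ^ r) +
    exp (A + r * R2) * ‖J.T r γ (α γ' p)‖) hδ fun w hw => ?_
  obtain ⟨hw1, z, hz, hη, hc⟩ := hpt w hw
  have hz1 : dist z p ≤ exp (-R1) := hη.trans ((min_le_left _ _).trans (min_le_left _ _))
  have hz2 : dist z p ≤ exp (-R2) := hη.trans ((min_le_left _ _).trans (min_le_right _ _))
  have hl : dist (α γ' z) (α γ' p) ≤ exp Lp * dist z p := hLp ▸ J.lip γ' z p
  have hz3 : dist (α γ' z) (α γ' p) ≤ min (exp (-R3)) (exp (-J.L0)) := by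
    calc dist (α γ' z) (α γ' p) ≤ exp Lp * (exp (-Lp) * min (exp (-R3)) (exp (-J.L0))) :=
          hl.trans (mul_le_mul_of_nonneg_left (hη.trans (min_le_right _ _)) (exp_pos _).le)
      _ = _ := by rw [← mul_assoc, ← exp_add, add_neg_cancel, exp_zero, one_mul]
  have hd : dist z p ^ r ≤ exp J.L0 ^ r * ‖w‖ ^ r := by
    rw [← mul_pow]
    exact pow_le_pow_left₀ dist_nonneg hz r
  have hd' : dist (α γ' z) (α γ' p) ^ r ≤ (exp Lp * exp J.L0) ^ r * ‖w‖ ^ r := by
    rw [← mul_pow, mul_assoc]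
    exact pow_le_pow_left₀ dist_nonneg
      (hl.trans (mul_le_mul_of_nonneg_left hz (exp_pos _).le)) r
  have e1 := J.jet r (γ * γ') p z (hR1 ▸ hz1)
  have e2 := J.jet r γ' p z (hR2 ▸ hz2)
  have e3 := J.jet r γ (α γ' p) (α γ' z) (hR3 ▸ hz3.trans (min_le_left _ _))
  rw [← hR1, hc, map_mul, Equiv.Perm.mul_apply, Equiv.Perm.mul_apply] at e1
  rw [← hR2, hc] at e2
  rw [← hR3] at e3
  have hT' : ‖J.T r γ' p‖ ≤ exp R2 := hR2 ▸ J.T_le r γ' p
  have hu : ‖J.c (α γ' p) (α γ' z)‖ ≤ exp (A + R2) := by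
    have h := J.c_lip (α γ' p) (α γ' z) (α γ' p) (hz3.trans (min_le_right _ _))
      (by rw [dist_self]; positivity)
    rw [J.c_self, sub_zero] at h
    calc _ ≤ exp J.L0 * exp (-J.L0) :=
          h.trans (mul_le_mul_of_nonneg_left (hz3.trans (min_le_right _ _)) (exp_pos _).le)
      _ = exp 0 := by rw [← exp_add, add_neg_cancel]
      _ ≤ _ := exp_le_exp.2 (by linarith)
  have hv : ‖evv (J.T r γ' p) w‖ ≤ exp (A + R2) := by
    have h := hA.evv_le (J.T r γ' p) w le_rfl (by rwa [exp_zero])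
    rw [mul_zero, add_zero] at h
    calc _ ≤ exp A * exp R2 * 1 := h.trans (by gcongr)
      _ = _ := by rw [mul_one, exp_add]
  have e4 := hA.evv_lip (J.T r γ (α γ' p)) _ _ (by linarith) hu hv
  have e5 := hA.compv_err (J.T r γ (α γ' p)) (J.T r γ' p) w hR20 hT' hw1
  have f1 := e1.trans (mul_le_mul_of_nonneg_left hd (exp_pos _).le)
  have f2 := e2.trans (mul_le_mul_of_nonneg_left hd (exp_pos _).le)
  have f3 := e3.trans (mul_le_mul_of_nonneg_left hd' (exp_pos _).le)
  have f4 := e4.trans (mul_le_mul_of_nonneg_left f2 (by positivity))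
  have key : ∀ x0 x1 x2 x3 x4 : E D,
      ‖x1 - x4‖ ≤ ‖x0 - x1‖ + ‖x0 - x2‖ + ‖x2 - x3‖ + ‖x4 - x3‖ := fun x0 x1 x2 x3 x4 => by
    have h : x1 - x4 = -(x0 - x1) + (x0 - x2) + (x2 - x3) - (x4 - x3) := by abel
    rw [h]
    refine (norm_sub_le _ _).trans ?_
    gcongr
    refine (norm_add_le _ _).trans ?_
    gcongr
    refine (norm_add_le _ _).trans ?_
    rw [norm_neg]
  refine (key _ _ _ _ _).trans ((add_le_add (add_le_add (add_le_add f1 f3) f4) e5).trans ?_)
  exact le_of_eq (by ring)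

theorem Jets.T_one (J : Jets α len D) (hr : 2 ≤ r) (p : M) : J.T r 1 p = idv D r := by
  obtain ⟨δ, hδ, hpt⟩ := J.exists_pt p (exp_pos (-(J.Lr r * (1 + len 1))))
  refine uniqv (C := exp (J.Lr r * (1 + len 1)) * exp J.L0 ^ r) hδ fun w hw => ?_
  obtain ⟨-, z, hz, hη, hc⟩ := hpt w hw
  have e1 := J.jet r 1 p z hη
  rw [map_one, Equiv.Perm.one_apply, Equiv.Perm.one_apply, hc] at e1
  rw [evv_idv hr, norm_sub_rev, mul_assoc, ← mul_pow]
  exact e1.trans (mul_le_mul_of_nonneg_left (pow_le_pow_left₀ dist_nonneg hz r) (exp_pos _).le)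

theorem Jets.linv_T (J : Jets α len D) (hr : 2 ≤ r) (γ : Γ) (p : M) :
    linv (J.T r γ p) = J.Dl γ p := by
  obtain ⟨δ, hδ, hpt⟩ := J.exists_pt p (η := min (exp (-(J.Lr r * (1 + len γ))))
    (exp (-(J.Lr 2 * (1 + len γ))))) (by positivity)
  refine linv_eq (C := (exp (J.Lr r * (1 + len γ)) + exp (J.Lr 2 * (1 + len γ))) * exp J.L0 ^ 2)
    hδ fun w hw => ?_
  obtain ⟨-, z, hz, hη, hc⟩ := hpt w hw
  have hz1 := hη.trans (min_le_left _ _)
  have e1 := J.jet r γ p z hz1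
  have e2 := J.jet 2 γ p z (hη.trans (min_le_right _ _))
  rw [hc] at e1 e2
  have h1 : dist z p ≤ 1 := hz1.trans (exp_le_one_iff.2 (neg_nonpos.2
    (mul_nonneg (J.Lr_nonneg r) (by linarith [J.len_nonneg γ]))))
  have hd : dist z p ^ 2 ≤ exp J.L0 ^ 2 * ‖w‖ ^ 2 := by
    rw [← mul_pow]
    exact pow_le_pow_left₀ dist_nonneg hz 2
  have hd' : dist z p ^ r ≤ exp J.L0 ^ 2 * ‖w‖ ^ 2 :=
    (pow_le_pow_of_le_one dist_nonneg h1 hr).trans hd
  have f1 := e1.trans (mul_le_mul_of_nonneg_left hd' (exp_pos _).le)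
  have f2 := e2.trans (mul_le_mul_of_nonneg_left hd (exp_pos _).le)
  refine (norm_sub_le_norm_sub_add_norm_sub _ (J.c (α γ p) (α γ z)) _).trans ?_
  rw [norm_sub_rev]
  exact (add_le_add f1 f2).trans (le_of_eq (by ring))

theorem Jets.Dl_mul (J : Jets α len D) (γ γ' : Γ) (p : M) :
    J.Dl (γ * γ') p = (J.Dl γ (α γ' p)).comp (J.Dl γ' p) := by
  rw [Jets.Dl, J.T_mul, linv_compv]
  rfl

theorem Jets.Dl_one (J : Jets α len D) (p : M) : J.Dl 1 p = ContinuousLinearMap.id ℝ (E D) := by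
  rw [Jets.Dl, J.T_one le_rfl, linv_idv le_rfl]

theorem Skew.T_add (K : Skew S J) (r : ℕ) (s t : W) (x : X) :
    K.T r (s + t) x = compv (K.T r s (S.act t x)) (K.T r t x) := by
  simp only [Skew.T, K.β_add, J.T_mul, K.pt_act]

theorem Skew.T_zero (K : Skew S J) (hr : 2 ≤ r) (x : X) : K.T r 0 x = idv D r := by
  simp only [Skew.T, K.β_zero, J.T_one hr]

theorem Skew.linv_T (K : Skew S J) (hr : 2 ≤ r) (s : W) (x : X) : linv (K.T r s x) = K.Dl s x :=
  J.linv_T hr _ _

theorem Skew.Dl_add (K : Skew S J) (s t : W) (x : X) (v : E D) :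
    K.Dl (s + t) x v = K.Dl s (S.act t x) (K.Dl t x v) := by
  simp only [Skew.Dl, K.β_add, J.Dl_mul, K.pt_act]
  rfl

theorem Skew.Dl_zero (K : Skew S J) (x : X) (v : E D) : K.Dl 0 x v = v := by
  simp only [Skew.Dl, K.β_zero, J.Dl_one]
  rfl

end Pool.Agent.P.MP_d483fb_an.Z.NF

end

end

section

/-!
Normal forms: continuity of the operations on jets.
-/

open MvPolynomial Filter Topology Real

noncomputable section

namespace Pool.Agent.P.MP_d483fb_an.Z.NF

variable {D r : ℕ}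

/-- All coefficients of the family `p` depend continuously on the parameter. -/
def CC {Y : Type} [TopologicalSpace Y] (p : Y → MvPolynomial (Fin D) ℝ) : Prop :=
  ∀ m, Continuous fun y => coeff m (p y)

section CC

variable {Y : Type} [TopologicalSpace Y]

theorem CC.const (q : MvPolynomial (Fin D) ℝ) : CC fun _ : Y => q := fun _ => continuous_const

theorem CC.mul {p q : Y → MvPolynomial (Fin D) ℝ} (hp : CC p) (hq : CC q) :
    CC fun y => p y * q y := by
  classical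
  intro m
  simp only [coeff_mul]
  exact continuous_finsetSum _ fun x _ => (hp _).mul (hq _)

theorem CC.sum {ι : Type} (s : Finset ι) {p : ι → Y → MvPolynomial (Fin D) ℝ}
    (hp : ∀ i, CC (p i)) : CC fun y => ∑ i ∈ s, p i y := by
  intro m
  simp only [coeff_sum]
  exact continuous_finsetSum _ fun i _ => hp i m

theorem CC.prod {ι : Type} (s : Finset ι) {p : ι → Y → MvPolynomial (Fin D) ℝ}
    (hp : ∀ i, CC (p i)) : CC fun y => ∏ i ∈ s, p i y := by
  classical
  induction s using Finset.induction_on with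
  | empty => simpa using CC.const 1
  | insert j s hj ih => simpa only [Finset.prod_insert hj] using (hp j).mul ih

theorem CC.pow {p : Y → MvPolynomial (Fin D) ℝ} (hp : CC p) (n : ℕ) : CC fun y => p y ^ n := by
  induction n with
  | zero => simpa using CC.const 1
  | succ n ih => simpa only [pow_succ] using ih.mul hp

theorem CC.C {c : Y → ℝ} (hc : Continuous c) :
    CC fun y => (MvPolynomial.C (c y) : MvPolynomial (Fin D) ℝ) := by
  classical
  intro m
  simp only [coeff_C]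
  split_ifs
  · exact hc
  · exact continuous_const

theorem CC.toPoly {t : Y → V D r} (ht : Continuous t) : CC fun y => toPoly (t y) := by
  classical
  refine CC.sum _ fun α m => ?_
  simp only [coeff_monomial]
  split_ifs
  · exact (continuous_apply α).comp ht
  · exact continuous_const

theorem CC.ofPoly {p : Y → MvPolynomial (Fin D) ℝ} (hp : CC p) :
    Continuous fun y => (ofPoly (p y) : V D r) :=
  continuous_pi fun α => hp α.1

end CC

theorem cont_ev {Y : Type} [TopologicalSpace Y] {t : Y → V D r} {w : Y → E D}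
    (ht : Continuous t) (hw : Continuous w) : Continuous fun y => ev (t y) (w y) := by
  unfold ev mono
  exact continuous_finsetSum _ fun α _ => ((continuous_apply α).comp ht).mul
    (continuous_finsetProd _ fun j _ => ((continuous_apply j).comp hw).pow _)

theorem cont_comp {Y : Type} [TopologicalSpace Y] {t : Y → V D r} {T : Y → Jt D r}
    (ht : Continuous t) (hT : Continuous T) : Continuous fun y => comp (t y) (T y) := by
  have e : ∀ y, bind₁ (fun j => toPoly (T y j)) (toPoly (t y)) =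
      ∑ α : Idx D r, C (t y α) * ∏ j ∈ α.1.support, toPoly (T y j) ^ α.1 j := by
    intro y
    have : toPoly (t y) = ∑ α : Idx D r, monomial α.1 (t y α) := rfl
    rw [this, map_sum]
    exact Finset.sum_congr rfl fun α _ => bind₁_monomial _ _ _
  unfold comp
  simp only [e]
  refine CC.ofPoly (CC.sum _ fun α => CC.mul (CC.C ((continuous_apply α).comp ht)) ?_)
  exact CC.prod _ fun j => CC.pow (CC.toPoly ((continuous_apply j).comp hT)) _

theorem continuous_ev : Continuous fun p : V D r × E D => ev p.1 p.2 :=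
  cont_ev continuous_fst continuous_snd

theorem continuous_evv : Continuous fun p : Jt D r × E D => evv p.1 p.2 :=
  continuous_pi fun i => cont_ev (t := fun p : Jt D r × E D => p.1 i)
    ((continuous_apply i).comp continuous_fst) continuous_snd

theorem continuous_comp : Continuous fun p : V D r × Jt D r => comp p.1 p.2 :=
  cont_comp continuous_fst continuous_snd

theorem continuous_compv : Continuous fun p : Jt D r × Jt D r => compv p.1 p.2 :=
  continuous_pi fun i => cont_comp (t := fun p : Jt D r × Jt D r => p.1 i)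
    ((continuous_apply i).comp continuous_fst) continuous_snd

theorem continuous_compL : Continuous (compL : Jt D r → V D r →L[ℝ] V D r) := by
  refine continuous_clm_apply.2 fun t => ?_
  simp only [compL_apply]
  exact cont_comp continuous_const continuous_id

theorem continuous_linv : Continuous (linv : Jt D r → E D →L[ℝ] E D) := by
  refine continuous_clm_apply.2 fun w => continuous_pi fun i => ?_
  simp only [linv_apply, lin, ContinuousLinearMap.sum_apply, ContinuousLinearMap.smul_apply,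
    smul_eq_mul]
  exact continuous_finsetSum _ fun j _ =>
    (CC.toPoly (t := fun T : Jt D r => T i) (continuous_apply i) _).mul continuous_const

theorem continuous_ofLin : Continuous (ofLin r : E D → V D r) := by
  unfold ofLin
  exact CC.ofPoly (CC.sum _ fun j => CC.mul (CC.C (continuous_apply j)) (CC.const _))

theorem measurable_evv {Y : Type} [MeasurableSpace Y] {T : Y → Jt D r} {w : Y → E D}
    (hT : Measurable T) (hw : Measurable w) : Measurable fun y => evv (T y) (w y) :=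
  Measurable.comp (g := fun p : Jt D r × E D => evv p.1 p.2) (f := fun y => (T y, w y))
    continuous_evv.measurable (hT.prodMk hw)

theorem measurable_compv {Y : Type} [MeasurableSpace Y] {S T : Y → Jt D r}
    (hS : Measurable S) (hT : Measurable T) : Measurable fun y => compv (S y) (T y) :=
  Measurable.comp (g := fun p : Jt D r × Jt D r => compv p.1 p.2) (f := fun y => (S y, T y))
    continuous_compv.measurable (hS.prodMk hT)

end Pool.Agent.P.MP_d483fb_an.Z.NF

end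

end

section

/-!
Normal forms: the derivative cocycle and the push forward of jets are tempered cocycles.
-/

open MeasureTheory Filter Topology Set Real

set_option linter.unusedSectionVars false

noncomputable section

namespace Pool.Agent.P.MP_d483fb_an.Z.NF

open Os

variable {W X Γ M : Type} [NormedAddCommGroup W] [NormedSpace ℝ W] [MeasurableSpace W]
  [MeasurableSpace X] {μ : Measure X} [Group Γ] [MeasurableSpace Γ] [MetricSpace M]
  [MeasurableSpace M] {α : Γ →* Equiv.Perm M} {len : Γ → ℝ} {D : ℕ}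
  {S : Sys W X μ} {J : Jets α len D} {K : Skew S J} {lam : Fin D → W →L[ℝ] ℝ} {r : ℕ}
  {a : W} {s1 s2 : ℝ}

/-- The push forward of jets of functions. -/
def Skew.push (K : Skew S J) (r : ℕ) (s : W) (x : X) : V D r →L[ℝ] V D r :=
  compL (K.T r (-s) (S.act s x))

theorem Skew.push_apply (K : Skew S J) (r : ℕ) (s : W) (x : X) (t : V D r) :
    K.push r s x t = comp t (K.T r (-s) (S.act s x)) := rfl

theorem Skew.tcoc_Dl (K : Skew S J) : ∃ c L : ℝ, 0 ≤ c ∧ TCoc S K.Dl (fun x => c * K.h x) L := by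
  obtain ⟨A, hA⟩ := exists_pc D 2
  have h0 := hA.nonneg
  have h1 := J.Lr_nonneg 2
  have h2 := K.L_nonneg
  refine ⟨J.Lr 2 * K.L, A + J.Lr 2 + J.Lr 2 * K.L + J.Lr 2 * K.L * K.L, by positivity,
    K.Dl_zero, K.Dl_add, fun s x v => ?_, by positivity, K.measH.const_mul _,
    fun x => mul_nonneg (by positivity) (K.h_nonneg x), fun s x => ?_⟩
  · refine ((K.Dl s x).le_opNorm v).trans ?_
    gcongr
    refine (hA.linv_le (K.T 2 s x)).trans ?_
    refine (mul_le_mul_of_nonneg_left (K.T_le 2 s x) (exp_pos A).le).trans ?_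
    rw [← exp_add, exp_le_exp]
    have h3 : 0 ≤ (A + J.Lr 2) * ‖s‖ + J.Lr 2 * K.L * K.L * (‖s‖ + 1) := by positivity
    linarith
  · have h3 := mul_le_mul_of_nonneg_left (K.h_lip s x) (mul_nonneg h1 h2)
    have h4 : 0 ≤ (A + J.Lr 2 + J.Lr 2 * K.L) * (‖s‖ + 1) := by positivity
    linarith

theorem Skew.tcoc_push (K : Skew S J) (hr : 2 ≤ r) :
    ∃ c L : ℝ, 0 ≤ c ∧ TCoc S (K.push r) (fun x => c * K.h x) L := by
  obtain ⟨A, hA⟩ := exists_pc D r
  have h0 := hA.nonneg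
  have h1 := J.Lr_nonneg r
  have h2 := K.L_nonneg
  refine ⟨r * J.Lr r * K.L, A + r * J.Lr r + r * J.Lr r * K.L + r * J.Lr r * K.L * K.L,
    by positivity, fun x v => ?_, fun s t x v => ?_, fun s x v => ?_, by positivity,
    K.measH.const_mul _, fun x => mul_nonneg (by positivity) (K.h_nonneg x), fun s x => ?_⟩
  · rw [K.push_apply, neg_zero, K.T_zero hr, comp_idv hr]
  · have e : S.act (-s) (S.act (s + t) x) = S.act t x := by
      rw [← S.add, neg_add_cancel_left]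
    rw [K.push_apply, K.push_apply, K.push_apply, comp_assoc, neg_add_rev, K.T_add, e, S.add]
  · have h5 := K.h_nonneg (S.act s x)
    refine (hA.comp_le v _ _ (by positivity) (K.T_le r (-s) (S.act s x))).trans ?_
    refine mul_le_mul_of_nonneg_right (exp_le_exp.2 ?_) (norm_nonneg v)
    have h3 := mul_le_mul_of_nonneg_left (K.h_lip s x)
      (by positivity : 0 ≤ (r : ℝ) * J.Lr r * K.L)
    have h4 : 0 ≤ (A + r * J.Lr r) * ‖s‖ := by positivity
    rw [norm_neg]
    linarith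
  · have h3 := mul_le_mul_of_nonneg_left (K.h_lip s x)
      (by positivity : 0 ≤ (r : ℝ) * J.Lr r * K.L)
    have h4 : 0 ≤ (A + r * J.Lr r + r * J.Lr r * K.L) * (‖s‖ + 1) := by positivity
    linarith

variable [Countable Γ] [DiscreteMeasurableSpace Γ]

theorem Skew.measurable_T (K : Skew S J) (r : ℕ) : Measurable fun p : W × X => K.T r p.1 p.2 := by
  have h : Measurable fun p : M × Γ => J.T r p.2 p.1 :=
    measurable_from_prod_countable_left fun γ => J.measT r γ
  exact h.comp ((K.measPt.comp measurable_snd).prodMk K.measβ)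

theorem Skew.sm_Dl (K : Skew S J) : StronglyMeasurable fun p : W × X => K.Dl p.1 p.2 :=
  continuous_linv.comp_stronglyMeasurable (K.measurable_T 2).stronglyMeasurable

theorem Skew.sm_push [BorelSpace W] (K : Skew S J) (r : ℕ) :
    StronglyMeasurable fun p : W × X => K.push r p.1 p.2 :=
  continuous_compL.comp_stronglyMeasurable
    ((K.measurable_T r).comp (measurable_fst.neg.prodMk K.measAct)).stronglyMeasurable

end Pool.Agent.P.MP_d483fb_an.Z.NF

end

end

section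

/-!
Normal forms: measurability of the leaves and of the coordinates.
-/

open MeasureTheory Filter Topology Set Real

set_option linter.unusedSectionVars false

noncomputable section

namespace Pool.Agent.P.MP_d483fb_an.Z.NF

open Os

variable {W X Γ M : Type} [NormedAddCommGroup W] [NormedSpace ℝ W] [MeasurableSpace W]
  [MeasurableSpace X] {μ : Measure X} [Group Γ] [MeasurableSpace Γ] [MetricSpace M]
  [MeasurableSpace M] {α : Γ →* Equiv.Perm M} {len : Γ → ℝ} {D : ℕ}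
  {S : Sys W X μ} {J : Jets α len D} {K : Skew S J} {lam : Fin D → W →L[ℝ] ℝ} {r : ℕ}
  {a : W} {s1 s2 : ℝ}

variable [Countable Γ] [DiscreteMeasurableSpace Γ] [BorelSpace M] [SecondCountableTopology M]

theorem Skew.measurable_α (K : Skew S J) : Measurable fun p : Γ × M => α p.1 p.2 := by
  exact measurable_from_prod_countable_right fun γ =>
    (LipschitzWith.of_dist_le' (J.lip γ)).continuous.measurable

theorem Skew.measurable_mv (K : Skew S J) (s : W) :
    Measurable fun p : X × M => K.mv s p.1 p.2 := by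
  exact K.measurable_α.comp
    ((K.measβ.comp (measurable_const.prodMk measurable_fst)).prodMk measurable_snd)

theorem Skew.measurableSet_Sh (K : Skew S J) (a : W) (s C : ℝ) :
    MeasurableSet {p : X × M | K.Sh a s C p.1 p.2} := by
  simp only [Skew.Sh, ofPred_forall]
  exact MeasurableSet.iInter fun n => measurableSet_le ((K.measurable_mv _).dist
    (K.measPt.comp ((S.mp _).measurable.comp measurable_fst))) measurable_const

theorem Skew.measurableSet_Wu (K : Skew S J) (a : W) (s : ℝ) :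
    MeasurableSet {p : X × M | p.2 ∈ K.Wu a s p.1} := by
  have : {p : X × M | p.2 ∈ K.Wu a s p.1} = ⋃ n : ℕ, {p : X × M | K.Sh a s n p.1 p.2} := by
    ext p
    simp only [mem_ofPred_eq, mem_iUnion, Skew.Wu]
    refine ⟨fun ⟨C, hC⟩ => ?_, fun ⟨n, hn⟩ => ⟨n, hn⟩⟩
    obtain ⟨n, hn⟩ := exists_nat_ge C
    exact ⟨n, hC.mono le_rfl hn⟩
  rw [this]
  exact MeasurableSet.iUnion fun n => K.measurableSet_Sh a s n

theorem Formal.measurable_H (F : Formal K lam r) (a : W) :
    Measurable fun p : X × M => F.H a p.1 p.2 := by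
  have h : ∀ n : ℕ, Measurable fun p : X × M => F.Hn a n p.1 p.2 := fun n => by
    have ha : Measurable fun p : X × M => S.act (-(n • a)) p.1 :=
      (S.mp _).measurable.comp measurable_fst
    exact measurable_evv (measurable_compv (F.measΨ.comp measurable_fst)
      ((K.measurable_T r).comp (measurable_const.prodMk ha)))
      (J.measC.comp ((K.measPt.comp ha).prodMk (K.measurable_mv _)))
  exact (StronglyMeasurable.limUnder fun n => (h n).stronglyMeasurable).measurable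

/-- A measurable family of maps that are injective on the sections of a measurable set has a
measurable family of inverses. -/
theorem exists_meas_inv {X M Y : Type} [MeasurableSpace X] [StandardBorelSpace X]
    [MeasurableSpace M] [StandardBorelSpace M] [MeasurableSpace Y] [StandardBorelSpace Y]
    {G : Set (X × M)} (hG : MeasurableSet G) {H : X → M → Y}
    (hH : Measurable fun p : X × M => H p.1 p.2)
    (hi : ∀ x z z', (x, z) ∈ G → (x, z') ∈ G → H x z = H x z' → z = z') {d : X → M}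
    (hd : Measurable d) : ∃ I : X → Y → M, (Measurable fun p : X × Y => I p.1 p.2) ∧
      ∀ x z, (x, z) ∈ G → I x (H x z) = z := by
  have := hG.standardBorel
  have hm : Measurable fun p : G => (p.1.1, H p.1.1 p.1.2) :=
    (measurable_fst.prodMk hH).comp measurable_subtype_coe
  have hj : Function.Injective fun p : G => (p.1.1, H p.1.1 p.1.2) := by
    rintro ⟨⟨x, z⟩, h⟩ ⟨⟨x', z'⟩, h'⟩ e
    obtain ⟨rfl, e2⟩ := Prod.ext_iff.1 e
    obtain rfl := hi x z z' h h' e2
    rfl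
  refine ⟨fun x y => Function.extend (fun p : G => (p.1.1, H p.1.1 p.1.2)) (fun p => p.1.2)
    (fun q => d q.1) (x, y), (hm.measurableEmbedding hj).measurable_extend
      (measurable_snd.comp measurable_subtype_coe) (hd.comp measurable_fst), fun x z h => ?_⟩
  exact hj.extend_apply _ _ ⟨(x, z), h⟩

end Pool.Agent.P.MP_d483fb_an.Z.NF

end

end

section

/-!
Normal forms: resonant jets and dilations.
-/

open MvPolynomial Filter Topology Real

noncomputable section

namespace Pool.Agent.P.MP_d483fb_an.Z.NF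

variable {D r : ℕ}

theorem wt_apply {W : Type} [NormedAddCommGroup W] [NormedSpace ℝ W] (lam : Fin D → W →L[ℝ] ℝ)
    (α : Fin D →₀ ℕ) (a : W) : wt lam α a = wt (fun j => lam j a) α := by
  simp [wt]

theorem Res1.apply {W : Type} [NormedAddCommGroup W] [NormedSpace ℝ W] {lam : Fin D → W →L[ℝ] ℝ}
    {l : W →L[ℝ] ℝ} {t : V D r} (h : Res1 lam l t) (a : W) : Res1 (fun j => lam j a) (l a) t := by
  intro α hα
  rw [← wt_apply, h α hα]

theorem Res.apply {W : Type} [NormedAddCommGroup W] [NormedSpace ℝ W] {lam : Fin D → W →L[ℝ] ℝ}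
    {T : Jt D r} (h : Res lam T) (a : W) : Res (fun j => lam j a) T :=
  fun i => (h i).apply a

theorem wt_mul (c : Fin D → ℝ) (u : ℝ) (α : Fin D →₀ ℕ) :
    wt (fun j => c j * u) α = wt c α * u := by
  simp [wt, Finset.sum_mul, mul_assoc]

theorem Res1.mul {c : Fin D → ℝ} {c0 : ℝ} {t : V D r} (h : Res1 c c0 t) (u : ℝ) :
    Res1 (fun j => c j * u) (c0 * u) t := by
  intro α hα
  rw [wt_mul, h α hα]

theorem res1_single {Λ : Type} [AddCommMonoid Λ] (lam : Fin D → Λ) (α : Idx D r) :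
    Res1 lam (wt lam α.1) (Pi.single α 1 : V D r) := by
  intro β hβ
  by_cases h : β = α
  · rw [h]
  · exact absurd (Pi.single_eq_of_ne h 1) hβ

theorem comp_eq_sum (t : V D r) (T : Jt D r) :
    comp t T = ∑ α, t α • comp (Pi.single α 1 : V D r) T := by
  have h : t = ∑ α, t α • (Pi.single α 1 : V D r) := by
    funext β
    simp [Finset.sum_apply, Pi.single_apply]
  conv_lhs => rw [h]
  simp only [← compL_apply, map_sum, map_smul]

theorem exp_wt (c : Fin D → ℝ) (α : Fin D →₀ ℕ) : exp (wt c α) = ∏ j, exp (c j) ^ α j := by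
  rw [wt, Real.exp_sum]
  exact Finset.prod_congr rfl fun j _ => by rw [nsmul_eq_mul, Real.exp_nat_mul]

theorem mono_dil (c : Fin D → ℝ) (α : Fin D →₀ ℕ) (w : E D) :
    mono α (dil c w) = exp (wt c α) * mono α w := by
  rw [exp_wt, mono, mono, ← Finset.prod_mul_distrib]
  exact Finset.prod_congr rfl fun j _ => by rw [dil, mul_pow]

theorem Res1.ev_dil {c : Fin D → ℝ} {c0 : ℝ} {t : V D r} (h : Res1 c c0 t) (w : E D) :
    ev t (dil c w) = exp c0 * ev t w := by
  rw [ev, ev, Finset.mul_sum]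
  refine Finset.sum_congr rfl fun α _ => ?_
  by_cases hα : t α = 0
  · simp [hα]
  · rw [mono_dil, h α hα]
    ring

theorem bind₁_toPoly (f : Fin D → MvPolynomial (Fin D) ℝ) (t : V D r) :
    bind₁ f (toPoly t) = ∑ α, t α • ∏ j, f j ^ α.1 j := by
  rw [toPoly, map_sum]
  refine Finset.sum_congr rfl fun α _ => ?_
  rw [bind₁_monomial, smul_eq_C_mul]
  congr 1
  refine Finset.prod_subset (Finset.subset_univ _) fun j _ hj => ?_
  rw [Finsupp.notMem_support_iff.1 hj, pow_zero]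

theorem Res1.comp_dil {c : Fin D → ℝ} {c0 : ℝ} {t : V D r} (h : Res1 c c0 t) (T : Jt D r) :
    comp t (fun j => exp (c j) • T j) = exp c0 • comp t T := by
  have key : bind₁ (fun j => toPoly (exp (c j) • T j)) (toPoly t) =
      exp c0 • bind₁ (fun j => toPoly (T j)) (toPoly t) := by
    rw [bind₁_toPoly, bind₁_toPoly, Finset.smul_sum]
    refine Finset.sum_congr rfl fun α _ => ?_
    by_cases hα : t α = 0
    · simp [hα]
    · rw [← h α hα, exp_wt, smul_comm]
      congr 1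
      simp only [toPoly_smul, smul_pow]
      exact Finset.prod_smul _ _ _
  funext β
  simp only [comp, ofPoly, key, Pi.smul_apply, coeff_smul]

theorem exists_undil {c : Fin D → ℝ} {T : Jt D r} {R : ℝ} (hT : ∀ j, ‖T j‖ ≤ exp (R + c j)) :
    ∃ T' : Jt D r, ‖T'‖ ≤ exp R ∧ T = fun j => exp (c j) • T' j := by
  refine ⟨fun j => exp (-c j) • T j, ?_, ?_⟩
  · refine (pi_norm_le_iff_of_nonneg (exp_pos R).le).2 fun j => ?_
    rw [norm_smul, Real.norm_of_nonneg (exp_pos _).le]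
    calc exp (-c j) * ‖T j‖ ≤ exp (-c j) * exp (R + c j) := by gcongr; exact hT j
      _ = exp R := by rw [← Real.exp_add]; congr 1; ring
  · funext j
    rw [smul_smul, ← Real.exp_add, add_neg_cancel, Real.exp_zero, one_smul]

/-- Weighted form of the bound for the composition. -/
theorem PC.comp_le_res {A : ℝ} (h : PC D r A) {c : Fin D → ℝ} {c0 : ℝ} {t : V D r}
    (ht : Res1 c c0 t) {T : Jt D r} {R : ℝ} (hR : 0 ≤ R) (hT : ∀ j, ‖T j‖ ≤ exp (R + c j)) :
    ‖comp t T‖ ≤ exp (A + r * R + c0) * ‖t‖ := by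
  obtain ⟨T', hT', rfl⟩ := exists_undil hT
  rw [ht.comp_dil, norm_smul, Real.norm_of_nonneg (exp_pos _).le, Real.exp_add]
  calc exp c0 * ‖comp t T'‖ ≤ exp c0 * (exp (A + r * R) * ‖t‖) := by
        gcongr; exact h.comp_le t T' R hR hT'
    _ = exp (A + r * R) * exp c0 * ‖t‖ := by ring

theorem evv_dil_smul (c : Fin D → ℝ) (T : Jt D r) (w : E D) :
    evv (fun j => exp (c j) • T j) w = dil c (evv T w) := by
  funext j
  simp only [evv, dil, ev_smul]

/-- Weighted form of the truncation error. -/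
theorem PC.comp_err_res {A : ℝ} (h : PC D r A) {c : Fin D → ℝ} {c0 : ℝ} {t : V D r}
    (ht : Res1 c c0 t) {T : Jt D r} {R : ℝ} (hR : 0 ≤ R) (hT : ∀ j, ‖T j‖ ≤ exp (R + c j))
    {w : E D} (hw : ‖w‖ ≤ 1) :
    |ev (comp t T) w - ev t (evv T w)| ≤ exp (A + r * R + c0) * ‖t‖ * ‖w‖ ^ r := by
  obtain ⟨T', hT', rfl⟩ := exists_undil hT
  rw [ht.comp_dil, evv_dil_smul, ht.ev_dil, ev_smul, ← mul_sub, abs_mul, abs_of_pos (exp_pos _),
    Real.exp_add]
  calc exp c0 * |ev (comp t T') w - ev t (evv T' w)|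
      ≤ exp c0 * (exp (A + r * R) * ‖t‖ * ‖w‖ ^ r) := by
        gcongr; exact h.comp_err t T' w R hR hT' hw
    _ = exp (A + r * R) * exp c0 * ‖t‖ * ‖w‖ ^ r := by ring

theorem zero_mem_U (c : Fin D → ℝ) : (0 : E D) ∈ U c := fun _ _ => rfl

theorem dil_mem_U {c : Fin D → ℝ} {v : E D} (hv : v ∈ U c) (c' : Fin D → ℝ) : dil c' v ∈ U c := by
  intro j hj
  rw [dil, hv j hj, mul_zero]

theorem isClosed_U (c : Fin D → ℝ) : IsClosed (U c) := by
  have h : U c = ⋂ j, ⋂ _ : c j ≤ 0, {v : E D | v j = 0} := by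
    ext v
    simp [U]
  rw [h]
  exact isClosed_iInter fun j => isClosed_iInter fun _ =>
    isClosed_eq (continuous_apply j) continuous_const

theorem mono_eq_zero {c : Fin D → ℝ} {α : Fin D →₀ ℕ} (hα : ¬ ∀ j, α j ≠ 0 → 0 < c j) {v : E D}
    (hv : v ∈ U c) : mono α v = 0 := by
  push Not at hα
  obtain ⟨j, hj, hc⟩ := hα
  exact Finset.prod_eq_zero (Finset.mem_univ j) (by rw [hv j hc, zero_pow hj])

theorem wt_pos {c : Fin D → ℝ} (α : Idx D r) (hα : ∀ j, α.1 j ≠ 0 → 0 < c j) : 0 < wt c α.1 := by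
  have h0 : α.1 ≠ 0 := fun h => by
    have := α.2.1
    rw [h] at this
    simp at this
  obtain ⟨j, hj⟩ : ∃ j, α.1 j ≠ 0 := by
    by_contra hn
    push Not at hn
    exact h0 (Finsupp.ext hn)
  refine Finset.sum_pos' (fun i _ => ?_) ⟨j, Finset.mem_univ j, ?_⟩
  · by_cases hi : α.1 i = 0
    · simp [hi]
    · exact nsmul_nonneg (hα i hi).le _
  · rw [nsmul_eq_mul]
    exact mul_pos (Nat.cast_pos.2 (Nat.pos_of_ne_zero hj)) (hα j hj)

theorem Res1.ev_U {c : Fin D → ℝ} {c0 : ℝ} {t : V D r} (h : Res1 c c0 t) (h0 : c0 ≤ 0) {v : E D}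
    (hv : v ∈ U c) : ev t v = 0 := by
  refine Finset.sum_eq_zero fun α _ => ?_
  by_cases hα : t α = 0
  · rw [hα, zero_mul]
  · by_cases hp : ∀ j, α.1 j ≠ 0 → 0 < c j
    · have := wt_pos α hp
      rw [h α hα] at this
      exact absurd h0 (not_le.2 this)
    · rw [mono_eq_zero hp hv, mul_zero]

theorem Res.evv_mem {c : Fin D → ℝ} {T : Jt D r} (h : Res c T) {v : E D} (hv : v ∈ U c) :
    evv T v ∈ U c :=
  fun j hj => (h j).ev_U hj hv

theorem norm_dil_neg_le {c : Fin D → ℝ} {s τ : ℝ} (hc : ∀ j, 0 < c j → s ≤ c j) (hτ : 0 ≤ τ)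
    {v : E D} (hv : v ∈ U c) : ‖dil (fun j => c j * -τ) v‖ ≤ exp (-(s * τ)) * ‖v‖ := by
  refine (pi_norm_le_iff_of_nonneg (by positivity)).2 fun j => ?_
  rcases le_or_gt (c j) 0 with hj | hj
  · rw [dil, hv j hj, mul_zero, norm_zero]
    positivity
  · rw [dil, norm_mul, Real.norm_of_nonneg (exp_pos _).le]
    have h1 : c j * -τ ≤ -(s * τ) := by nlinarith [hc j hj]
    gcongr
    exact norm_le_pi_norm v j

/-- On `U c` the truncated composition of resonant jets is the composition. -/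
theorem ev_comp_U {c : Fin D → ℝ} {c0 s : ℝ} {t : V D r} {T : Jt D r} (hs : 0 < s)
    (hc : ∀ j, 0 < c j → s ≤ c j) (hr : c0 < r * s) (ht : Res1 c c0 t) (hT : Res c T)
    (htT : Res1 c c0 (comp t T)) {v : E D} (hv : v ∈ U c) :
    ev (comp t T) v = ev t (evv T v) := by
  obtain ⟨A, hA⟩ := exists_pc D r
  have hTR : ‖T‖ ≤ exp ‖T‖ := by linarith [Real.add_one_le_exp ‖T‖]
  set K : ℝ := exp (A + r * ‖T‖) * ‖t‖ * ‖v‖ ^ r with hK
  have hlim : Tendsto (fun τ : ℝ => K * exp (-((r * s - c0) * τ))) atTop (𝓝 (K * 0)) :=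
    (Real.tendsto_exp_neg_atTop_nhds_zero.comp
      (tendsto_id.const_mul_atTop (sub_pos.2 hr))).const_mul K
  have hsm : Tendsto (fun τ : ℝ => exp (-(s * τ)) * ‖v‖) atTop (𝓝 (0 * ‖v‖)) :=
    (Real.tendsto_exp_neg_atTop_nhds_zero.comp (tendsto_id.const_mul_atTop hs)).mul_const _
  rw [mul_zero] at hlim
  rw [zero_mul] at hsm
  rw [← sub_eq_zero, ← abs_nonpos_iff]
  refine ge_of_tendsto hlim ?_
  filter_upwards [eventually_ge_atTop (0 : ℝ), hsm.eventually (ge_mem_nhds one_pos)] with τ hτ h1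
  have hw := norm_dil_neg_le hc hτ hv
  have he := hA.comp_err t T _ ‖T‖ (norm_nonneg _) hTR (hw.trans h1)
  have h2 : evv T (dil (fun j => c j * -τ) v) = dil (fun j => c j * -τ) (evv T v) := by
    funext j
    exact ((hT j).mul (-τ)).ev_dil v
  rw [h2, (htT.mul (-τ)).ev_dil, (ht.mul (-τ)).ev_dil, ← mul_sub, abs_mul,
    abs_of_pos (exp_pos _)] at he
  have h3 : exp (c0 * -τ) * |ev (comp t T) v - ev t (evv T v)| ≤
      exp (c0 * -τ) * (K * exp (-((r * s - c0) * τ))) := by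
    refine he.trans ?_
    calc exp (A + r * ‖T‖) * ‖t‖ * ‖dil (fun j => c j * -τ) v‖ ^ r
        ≤ exp (A + r * ‖T‖) * ‖t‖ * (exp (-(s * τ)) * ‖v‖) ^ r := by gcongr
      _ = K * exp (r * -(s * τ)) := by rw [mul_pow, Real.exp_nat_mul, hK]; ring
      _ = K * (exp (c0 * -τ) * exp (-((r * s - c0) * τ))) := by
        rw [← Real.exp_add]; congr 2; ring
      _ = _ := by ring
  exact le_of_mul_le_mul_left h3 (exp_pos _)

theorem eval_monomial_eq (α : Fin D →₀ ℕ) (a : ℝ) (v : E D) :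
    eval v (monomial α a) = a * mono α v := by
  rw [eval_monomial, Finsupp.prod_fintype _ _ fun j => pow_zero _, mono]

theorem Res.subRes {c : Fin D → ℝ} {T : Jt D r} (h : Res c T) : SubRes c (evv T) := by
  classical
  intro i
  refine ⟨∑ α ∈ Finset.univ.filter (fun α : Idx D r => ∀ j, α.1 j ≠ 0 → 0 < c j),
    monomial α.1 (T i α), fun β hβ => ?_, fun v hv => ?_⟩
  · obtain ⟨α, hα, hβα⟩ := Finset.mem_biUnion.1 (support_sum hβ)
    have h1 : β = α.1 := Finset.mem_singleton.1 (support_monomial_subset hβα)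
    have h2 : T i α ≠ 0 := fun h0 => by simp [h0] at hβα
    rw [h1]
    exact ⟨(Finset.mem_filter.1 hα).2, (h i α h2).le⟩
  · rw [map_sum, Finset.sum_filter]
    refine Finset.sum_congr rfl fun α _ => ?_
    split_ifs with hp
    · rw [eval_monomial_eq]
    · rw [mono_eq_zero hp hv, mul_zero]

end Pool.Agent.P.MP_d483fb_an.Z.NF

end

end

section

/-!
Normal forms: a measurable tempered frame adapted to an Oseledets splitting.
-/

open MeasureTheory Filter Topology Set Real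

set_option linter.unusedSectionVars false

noncomputable section

namespace Pool.Agent.P.MP_d483fb_an.Z.NF

open Os

variable {W X Γ M : Type} [NormedAddCommGroup W] [NormedSpace ℝ W] [MeasurableSpace W]
  [MeasurableSpace X] {μ : Measure X} [Group Γ] [MeasurableSpace Γ] [MetricSpace M]
  [MeasurableSpace M] {α : Γ →* Equiv.Perm M} {len : Γ → ℝ} {D : ℕ}
  {S : Sys W X μ} {J : Jets α len D} {K : Skew S J} {lam : Fin D → W →L[ℝ] ℝ} {r : ℕ}
  {a : W} {s1 s2 : ℝ}

/-- The matrix whose rows are projections of vectors of the standard basis. -/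
def frM {ι : Type} (P : ι → E D →L[ℝ] E D) (σ : Fin D → ι) (ϖ : Fin D → Fin D) :
    Matrix (Fin D) (Fin D) ℝ := Matrix.of fun i => P (σ i) (Pi.single (ϖ i) 1)

theorem frM_ne {ι : Type} (P : ι → E D →L[ℝ] E D) (σ : Fin D → ι)
    (b : Module.Basis (Fin D) ℝ (E D)) (hb : ∀ i, P (σ i) (b i) = b i) :
    ∃ ϖ, (frM P σ ϖ).det ≠ 0 := by
  by_contra h
  push Not at h
  have h0 : (Matrix.of fun i => b i).det ≠ 0 :=
    ((Matrix.isUnit_iff_isUnit_det _).1
      (Matrix.linearIndependent_rows_iff_isUnit.1 b.linearIndependent)).ne_zero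
  have e : (fun i => b i) = fun i => ∑ l, b i l • P (σ i) (Pi.single l 1) := by
    funext i
    simp only [← map_smul, ← map_sum]
    rw [← hb i]
    congr 1
    rw [hb i]
    funext m
    simp [Pi.single_apply]
  apply h0
  rw [e]
  refine ((Matrix.detRowAlternating (R := ℝ) (n := Fin D)).toMultilinearMap.map_sum
    fun i l => b i l • P (σ i) (Pi.single l 1)).trans (Finset.sum_eq_zero fun ϖ _ => ?_)
  refine ((Matrix.detRowAlternating (R := ℝ) (n := Fin D)).toMultilinearMap.map_smul_univ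
    (fun i => b i (ϖ i)) fun i => P (σ i) (Pi.single (ϖ i) 1)).trans ?_
  exact smul_eq_zero_of_right _ (h ϖ)

theorem frM_le {ι : Type} [Fintype ι] (P : ι → E D →L[ℝ] E D) (σ : Fin D → ι)
    (hs : ∀ v, ∑ j, P j v = v) (h1 : ∀ j v, P j (P j v) = P j v)
    (h2 : ∀ i j, i ≠ j → ∀ v, P i (P j v) = 0) {ϖ : Fin D → Fin D}
    (hm : ∀ ϖ', |(frM P σ ϖ').det| ≤ |(frM P σ ϖ).det|) (h0 : (frM P σ ϖ).det ≠ 0) (i l : Fin D) :
    |(frM P σ ϖ).adjugate l i / (frM P σ ϖ).det| ≤ 1 := by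
  set F := frM P σ ϖ with hF
  have hz : ∀ j, j ≠ σ i → ∀ v, F.transpose.cramer (P j v) i = 0 := by
    intro j hj v
    have e : v = ∑ k, (Matrix.vecMul v F⁻¹) k • F k := by
      rw [← Matrix.vecMul_eq_sum, Matrix.vecMul_vecMul, Matrix.nonsing_inv_mul _ h0.isUnit,
        Matrix.vecMul_one]
    rw [e, map_sum, map_sum, Finset.sum_apply]
    refine Finset.sum_eq_zero fun k _ => ?_
    rw [map_smul, map_smul, Pi.smul_apply]
    refine smul_eq_zero_of_right _ ?_
    have ek : F k = P (σ k) (Pi.single (ϖ k) 1) := rfl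
    by_cases hk : j = σ k
    · rw [ek, hk, h1, ← ek, Matrix.cramer_transpose_row_self, Pi.single_eq_of_ne]
      rintro rfl
      exact hj hk
    · rw [ek, h2 _ _ hk, map_zero]
      rfl
  have e : F.adjugate l i = (frM P σ (Function.update ϖ i l)).det := by
    rw [Matrix.adjugate_apply, ← Matrix.cramer_transpose_apply, ← hs (Pi.single l 1), map_sum,
      Finset.sum_apply, Finset.sum_eq_single (σ i) (fun j _ hj => hz j hj _) (by simp),
      Matrix.cramer_transpose_apply]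
    congr 1
    ext k m
    by_cases hk : k = i
    · subst hk
      simp [frM]
    · simp [hF, frM, Matrix.updateRow_ne hk, Function.update_of_ne hk]
  rw [abs_div, e]
  exact div_le_one_of_le₀ (hm _) (abs_nonneg _)

theorem frM_basis {A : W → X → E D →L[ℝ] E D} {ι : Type} [Fintype ι] [DecidableEq ι]
    (o : OseA S A ι) {x : X} (hx : x ∈ o.X0) :
    ∃ b : Module.Basis (Σ j, Fin (o.d j)) ℝ (E D), ∀ i, b i ∈ o.D i.1 x := by
  have hI : DirectSum.IsInternal fun j => o.D j x := by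
    refine DirectSum.isInternal_submodule_of_iSupIndep_of_iSup_eq_top (fun i => ?_) ?_
    · rw [Submodule.disjoint_def]
      intro v hv hv'
      have hk : (⨆ j, ⨆ (_ : j ≠ i), o.D j x) ≤ LinearMap.ker (o.P i x).toLinearMap :=
        iSup₂_le fun j hj w hw => o.P_other x hx i j hj.symm w hw
      exact (o.P_self x hx i v hv).symm.trans (hk hv')
    · refine top_le_iff.1 fun v _ => ?_
      rw [← o.P_sum x hx v]
      exact Submodule.sum_mem _ fun j _ => Submodule.mem_iSup_of_mem j (o.P_mem x hx j v)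
  exact ⟨hI.collectedBasis fun j => Module.finBasisOfFinrankEq ℝ _ (o.rank x hx j),
    fun i => hI.collectedBasis_mem _ i⟩

theorem exists_frame {A : W → X → E D →L[ℝ] E D} {ι : Type} [Fintype ι] [DecidableEq ι]
    (o : OseA S A ι) (hne : o.X0.Nonempty) :
    ∃ σ : Fin D → ι, (∀ j, (Finset.univ.filter fun i => σ i = j).card = o.d j) ∧
      Nonempty (Frame S A fun i => o.lamL (σ i)) := by
  classical
  obtain ⟨x0, hx0⟩ := hne
  obtain ⟨b0, -⟩ := frM_basis o hx0
  have hc : Fintype.card (Σ j, Fin (o.d j)) = D := by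
    rw [← Module.finrank_eq_card_basis b0]
    simp
  let e : Fin D ≃ Σ j, Fin (o.d j) := (Fintype.equivFinOfCardEq hc).symm
  let σ : Fin D → ι := fun i => (e i).1
  refine ⟨σ, fun j => ?_, ?_⟩
  · rw [← Fintype.card_subtype, Fintype.card_congr ((e.subtypeEquiv (q := fun s => s.1 = j)
      fun _ => Iff.rfl).trans (Equiv.sigmaSubtype j)), Fintype.card_fin]
  have : Nonempty (Fin D → Fin D) := ⟨id⟩
  obtain ⟨t, ht⟩ := exists_surjective_nat (Fin D → Fin D)
  have mM : ∀ ϖ, Measurable fun x => (fun i l => frM (fun j => o.P j x) σ ϖ i l) := fun ϖ =>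
    measurable_pi_lambda _ fun i => (sm_apply (o.measP (σ i)) (Pi.single (ϖ i) 1)).measurable
  have cd : Continuous fun F : Fin D → Fin D → ℝ => (Matrix.of F).det :=
    Continuous.matrix_det continuous_id
  have ca : ∀ i l, Continuous fun F : Fin D → Fin D → ℝ => (Matrix.of F).adjugate l i :=
    fun i l => (Continuous.matrix_adjugate continuous_id).matrix_elem l i
  have md : ∀ ϖ, Measurable fun x => |(frM (fun j => o.P j x) σ ϖ).det| := fun ϖ =>
    (cd.measurable.comp (mM ϖ)).abs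
  have hex : ∀ x, ∃ n, ∀ ϖ', |(frM (fun j => o.P j x) σ ϖ').det| ≤
      |(frM (fun j => o.P j x) σ (t n)).det| := fun x => by
    obtain ⟨ϖ, hϖ⟩ := Finite.exists_max fun ϖ => |(frM (fun j => o.P j x) σ ϖ).det|
    obtain ⟨n, rfl⟩ := ht ϖ
    exact ⟨n, hϖ⟩
  obtain ⟨ϖ, hϖ⟩ : ∃ ϖ : X → Fin D → Fin D, ∀ x, ϖ x = t (Nat.find (hex x)) := ⟨_, fun _ => rfl⟩
  have hm : ∀ x ϖ', |(frM (fun j => o.P j x) σ ϖ').det| ≤ |(frM (fun j => o.P j x) σ (ϖ x)).det| :=
    fun x => by rw [hϖ]; exact Nat.find_spec (hex x)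
  have mF : Measurable fun x => (fun i l => frM (fun j => o.P j x) σ (ϖ x) i l) := by
    simp only [hϖ]
    refine Measurable.find (f := fun n x => (fun i l => frM (fun j => o.P j x) σ (t n) i l))
      (fun n => mM _) (fun n => ?_) hex
    simp only [Set.ofPred_forall]
    exact MeasurableSet.iInter fun ϖ' => measurableSet_le (md _) (md _)
  have h0 : ∀ x ∈ o.X0, (frM (fun j => o.P j x) σ (ϖ x)).det ≠ 0 := by
    intro x hx h
    obtain ⟨b, hb⟩ := frM_basis o hx
    obtain ⟨ϖ', h'⟩ := frM_ne (fun j => o.P j x) σ (b.reindex e.symm) fun i => by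
      rw [Module.Basis.reindex_apply]
      exact o.P_self x hx _ _ (hb _)
    have := hm x ϖ'
    rw [h, abs_zero] at this
    exact h' (abs_nonpos_iff.1 this)
  refine ⟨⟨fun x i l => frM (fun j => o.P j x) σ (ϖ x) i l,
    fun x i l => (frM (fun j => o.P j x) σ (ϖ x)).adjugate l i /
      (frM (fun j => o.P j x) σ (ϖ x)).det, o.X0, 2 * o.B, by linarith [o.B_nonneg], o.meas0, o.ae0,
    o.inv0, mF, ?_, fun x hx i j => ?_, fun ε hε => ?_⟩⟩
  · exact measurable_pi_lambda _ fun i => measurable_pi_lambda _ fun l =>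
      ((ca i l).measurable.comp mF).div (cd.measurable.comp mF)
  · have h := congrFun (congrFun (Matrix.mul_adjugate (frM (fun j => o.P j x) σ (ϖ x))) j) i
    rw [Matrix.mul_apply, Matrix.smul_apply, Matrix.one_apply] at h
    simp only [div_mul_eq_mul_div, ← Finset.sum_div, mul_comm (Matrix.adjugate _ _ _), h]
    rw [div_eq_iff (h0 x hx)]
    simp [eq_comm]
  · obtain ⟨q, hq, q0, qs, hq2⟩ := o.est (ε / 2) (by linarith)
    refine ⟨fun x => 2 * q x, hq.const_mul 2, fun x => by linarith [q0 x],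
      fun s x hx => by linarith [qs s x hx], fun x hx => ?_⟩
    have hf : ∀ i, ‖o.P (σ i) x (Pi.single (ϖ x i) 1)‖ ≤ exp (q x) := fun i => by
      refine ((o.P (σ i) x).le_opNorm _).trans ?_
      rw [Pi.norm_single, norm_one, mul_one]
      exact (hq2 x hx _).1
    refine ⟨(pi_norm_le_iff_of_nonneg (exp_nonneg _)).2 fun i =>
      (hf i).trans (exp_le_exp.2 (by linarith [q0 x])),
      (pi_norm_le_iff_of_nonneg (exp_nonneg _)).2 fun i =>
        (pi_norm_le_iff_of_nonneg (exp_nonneg _)).2 fun l => ?_, fun s i => ?_⟩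
    · refine (frM_le (fun j => o.P j x) σ (o.P_sum x hx)
        (fun j v => o.P_self x hx j _ (o.P_mem x hx j v))
        (fun i j hij v => o.P_other x hx i j hij _ (o.P_mem x hx j v)) (hm x) (h0 x hx) i l).trans ?_
      exact one_le_exp (by linarith [q0 x])
    · refine (((hq2 x hx (σ i)).2 s _ (o.P_mem x hx _ (Pi.single (ϖ x i) 1))).1.trans
        (mul_le_mul_of_nonneg_left (hf i) (exp_nonneg _))).trans ?_
      rw [← exp_add, exp_le_exp, OseA.lamL_apply]
      nlinarith [norm_nonneg s]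

end Pool.Agent.P.MP_d483fb_an.Z.NF

end

end
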