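import Pool.Agent.P.MP_d483fb_an.M.A08

section

/-!
Existence of uniform charts and jets for a smooth action on a compact manifold.
-/

open Set Metric MvPolynomial Filter Real
open scoped Topology ContDiff Nat Manifold

noncomputable section

namespace Pool.Agent.P.MP_d483fb_an.Z.NF

open Jet

variable {D : ℕ}

theorem ev_ofPoly {r : ℕ} (hr : 0 < r) {P : MvPolynomial (Fin D) ℝ} (hP : Low r P) (w : E D) :
    ev (ofPoly P : V D r) w = eval w P - coeff 0 P := by
  classical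
  have h0 : (0 : Fin D →₀ ℕ) ∈ mons D r := mem_mons.2 (by simpa using hr)
  rw [hP.eval_eq, ← Finset.add_sum_erase _ _ h0]
  have h := Finset.sum_subtype (F := (inferInstance : Fintype (Idx D r))) ((mons D r).erase 0)
    (p := fun α : Fin D →₀ ℕ => 0 < α.degree ∧ α.degree < r) (fun m => by
      rw [Finset.mem_erase, mem_mons, pos_iff_ne_zero, Ne, Ne, Finsupp.degree_eq_zero_iff])
    (fun m => coeff m P * ∏ i, w i ^ m i)
  rw [h]
  simp only [Finsupp.coe_zero, Pi.zero_apply, pow_zero, Finset.prod_const_one, mul_one,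
    add_sub_cancel_left]
  rfl

theorem JX_small {x : ℝ} (hx : 0 < x) : ∃ L, 0 ≤ L ∧ exp (-L) < x :=
  ⟨|log x| + 1, by positivity, by
    rw [← lt_log_iff_exp_lt hx]
    linarith [neg_abs_le (log x)]⟩

theorem JX_big (x : ℝ) : ∃ L, 0 ≤ L ∧ x ≤ exp L :=
  ⟨|x|, abs_nonneg x, by linarith [le_abs_self x, add_one_le_exp |x|]⟩

theorem JX_sub {Γ : Type} [Group Γ] {len : Γ → ℝ} (h0 : ∀ γ, 0 ≤ len γ)
    (hlmr : ∀ L : Γ → ℝ, (∀ γ γ', L (γ * γ') ≤ L γ + L γ') → ∃ C, ∀ γ, L γ ≤ C * (1 + len γ))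
    (P : Γ → ℝ → Prop) (hmono : ∀ γ a b, 0 ≤ a → a ≤ b → P γ a → P γ b)
    (h1 : ∀ γ, ∃ a, 1 ≤ a ∧ P γ a) {B : ℝ} (hB : 1 ≤ B)
    (hs : ∀ γ γ' a b, 1 ≤ a → 1 ≤ b → P γ a → P γ' b → P (γ * γ') (B * a * b)) :
    ∃ L : ℝ, 0 ≤ L ∧ ∀ γ, P γ (exp (L * (1 + len γ))) := by
  let s : Γ → Set ℝ := fun γ => {t | 0 ≤ t ∧ P γ (exp t)}
  have hne : ∀ γ, (s γ).Nonempty := fun γ => by
    obtain ⟨a, ha, h⟩ := h1 γ
    exact ⟨log a, log_nonneg ha, by rwa [exp_log (by linarith)]⟩
  have hbd : ∀ γ, BddBelow (s γ) := fun γ => ⟨0, fun _ h => h.1⟩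
  obtain ⟨C, hC⟩ := hlmr (fun γ => sInf (s γ) + log B) fun γ γ' => by
    refine le_of_forall_pos_le_add fun ε hε => ?_
    obtain ⟨t, ht, h2⟩ := exists_lt_of_csInf_lt (hne γ) (lt_add_of_pos_right _ (half_pos hε))
    obtain ⟨t', ht', h3⟩ := exists_lt_of_csInf_lt (hne γ') (lt_add_of_pos_right _ (half_pos hε))
    have h4 : log B + t + t' ∈ s (γ * γ') :=
      ⟨by linarith [log_nonneg hB, ht.1, ht'.1], by
        rw [exp_add, exp_add, exp_log (by linarith)]
        exact hs _ _ _ _ (one_le_exp ht.1) (one_le_exp ht'.1) ht.2 ht'.2⟩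
    linarith [csInf_le (hbd _) h4]
  refine ⟨|C| + 1, by positivity, fun γ => ?_⟩
  obtain ⟨t, ht, h2⟩ := exists_lt_of_csInf_lt (hne γ) (lt_add_one _)
  refine hmono _ _ _ (exp_pos _).le (exp_le_exp.2 ?_) ht.2
  have h3 := hC γ
  have h4 := mul_le_mul_of_nonneg_right (le_abs_self C) (by linarith [h0 γ] : 0 ≤ 1 + len γ)
  nlinarith [log_nonneg hB, h0 γ]

variable {M : Type} [MetricSpace M] [MeasurableSpace M]
  {ψ : M → OpenPartialHomeomorph M (Fin D → ℝ)} (A : Atl ψ) {f g : M → M}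

theorem JX_comp (hid : Smo ψ id) (r : ℕ) : ∃ B, 1 ≤ B ∧ ∀ (f g : M → M) (a b : ℝ), Smo ψ f →
    Smo ψ g → 1 ≤ a → 1 ≤ b → A.Bd r g a → A.Bd r f b → A.Bd r (g ∘ f) (B * a * b) := by
  obtain ⟨C, h1, h⟩ := A.boundv hid 0
  have hE : (1 : ℝ) ≤ r ! * C :=
    one_le_mul_of_one_le_of_one_le (by exact_mod_cast Nat.factorial_pos r) h1
  refine ⟨r ! * C, hE, fun f g a b hf hg ha hb hga hfb p q w hw hw' i hi hi' => ?_⟩
  have hai : 1 ≤ a ^ i := one_le_pow₀ ha
  refine (hf.comp_bound hg (A.sub p hw) (A.sub (f w) (A.mem_Q _)) (A.sub q hw') (C := C * a ^ i)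
    (Λ := b) (fun k hk => ?_)
    (fun k h2 hk => hfb p (f w) w hw (A.mem_Q _) k h2 (hk.trans hi'))).trans ?_
  · rcases Nat.eq_zero_or_pos k with rfl | hk0
    · have h2 := h q q 0 le_rfl _ hw' hw'
      rw [norm_iteratedFDeriv_zero] at h2 ⊢
      have e1 : (ψ (A.j q)).symm (ψ (A.j q) (g (f w))) = g (f w) := (ψ _).left_inv (A.sub q hw')
      simp only [locv, Function.comp_apply, id, e1,
        (ψ _).left_inv (A.sub (f w) (A.mem_Q _))] at h2 ⊢
      exact h2.trans (le_mul_of_one_le_right (by linarith) hai)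
    · exact (hga (f w) q _ (A.mem_Q _) hw' k hk0 (hk.trans hi')).trans
        ((pow_le_pow_right₀ ha hk).trans (le_mul_of_one_le_left (by linarith) h1))
  · rw [mul_pow, mul_pow, ← mul_assoc]
    refine mul_le_mul_of_nonneg_right (mul_le_mul_of_nonneg_right
      (le_trans ?_ (le_self_pow₀ hE (by omega))) (by positivity)) (by positivity)
    exact mul_le_mul_of_nonneg_right (by exact_mod_cast Nat.factorial_le hi') (by linarith)

theorem JX_key (hf : Smo ψ f) (r : ℕ) {Λ L : ℝ} (hΛ : 1 ≤ Λ) (hb : A.Bd r f Λ)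
    (hL : 1 ≤ L) (hl : ∀ z p, dist (f z) (f p) ≤ L * dist z p) {p q : M}
    (hpq : dist (f p) q < A.δ / 2) :
    ‖(fun l => ofPoly (A.T r f p q l) : Jt D r)‖ ≤ r * (D + 1) ^ r * Λ ^ r ∧
      ∀ z, dist z p < A.δ / (2 * A.K ^ 2 * L) →
        ‖A.c q (f z) - A.c q (f p) - evv (fun l => ofPoly (A.T r f p q l) : Jt D r) (A.c p z)‖ ≤
          (1 + 2 * A.K * A.δ) * A.K ^ r * Λ ^ r * dist z p ^ r := by
  have hK := A.K_pos
  have hK1 := A.one_le
  have hδ := A.δ_pos
  rcases Nat.eq_zero_or_pos r with rfl | hr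
  · have : IsEmpty (Idx D 0) := ⟨fun α => absurd α.2.2 (Nat.not_lt_zero _)⟩
    refine ⟨by rw [Subsingleton.elim (fun l => ofPoly (A.T 0 f p q l) : Jt D 0) 0]; simp,
      fun z _ => ?_⟩
    have e : evv (fun l => ofPoly (A.T 0 f p q l) : Jt D 0) (A.c p z) = 0 := by
      funext l
      simp [evv, ev]
    rw [e, sub_zero]
    refine (norm_sub_le _ _).trans ?_
    simp only [pow_zero, mul_one]
    linarith [A.norm_c_le' q (f z), A.norm_c_le' q (f p)]
  have h := A.jet_expl hf hr hΛ hb hL hl hpq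
  refine ⟨(pi_norm_le_iff_of_nonneg (by positivity)).2 fun l =>
    (pi_norm_le_iff_of_nonneg (by positivity)).2 fun m => ?_, fun z hz => ?_⟩
  · rw [A.T_eq r hpq]
    exact (h l).1 m.1 fun e => by simpa [e] using m.2.1
  have a1 : L * dist z p < A.δ / 2 := by
    rw [lt_div_iff₀ (by positivity)] at hz
    have : 1 ≤ A.K ^ 2 := one_le_pow₀ hK1
    have h3 : 0 ≤ L * dist z p := by positivity
    nlinarith
  have a2 : dist z p < A.δ := by nlinarith [dist_nonneg (x := z) (y := p)]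
  have a3 : dist (f z) q < A.δ := by linarith [dist_triangle (f z) (f p) q, hl z p]
  refine (pi_norm_le_iff_of_nonneg (by positivity)).2 fun l => ?_
  have h2 := (h l).2 z hz
  simp only [Pi.sub_apply, evv, Real.norm_eq_abs]
  rw [A.T_eq r hpq, ev_ofPoly hr (A.low_T0 hr f p q l), A.coeff_zero_T0 hr, A.c_eq a3, A.c_eq a2,
    A.c_eq (hpq.trans (half_lt_self hδ)), sub_sub, add_sub_cancel]
  refine h2.trans ?_
  calc Λ ^ r * ‖A.c0 p z‖ ^ r ≤ Λ ^ r * (A.K * dist z p) ^ r := by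
        gcongr
        exact A.norm_c0_le a2
    _ = 1 * A.K ^ r * Λ ^ r * dist z p ^ r := by ring
    _ ≤ _ := by
        gcongr
        exact le_add_of_nonneg_right (by positivity)

variable [CompactSpace M] [BorelSpace M] {Γ : Type} [Group Γ]

include A in
theorem exists_jets_of_atl (α : Γ →* Equiv.Perm M) (hα : ∀ γ, Smo ψ (α γ)) {len : Γ → ℝ}
    (h0 : ∀ γ, 0 ≤ len γ)
    (hlmr : ∀ L : Γ → ℝ, (∀ γ γ', L (γ * γ') ≤ L γ + L γ') → ∃ C, ∀ γ, L γ ≤ C * (1 + len γ)) :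
    ∃ J : Jets α len D, J.c = A.c := by
  have hK := A.K_pos
  have hK1 := A.one_le
  have hδ := A.δ_pos
  have hid : Smo ψ id := by simpa using hα 1
  obtain ⟨L1, hL1, hlip⟩ := JX_sub h0 hlmr
    (fun γ a => ∀ z p, dist (α γ z) (α γ p) ≤ a * dist z p)
    (fun γ a b _ hab h z p => (h z p).trans (mul_le_mul_of_nonneg_right hab dist_nonneg))
    (fun γ => A.lipschitz (hα γ)) le_rfl fun γ γ' a b ha _ h h' z p => by
      rw [map_mul, one_mul, mul_assoc]
      exact (h _ _).trans (mul_le_mul_of_nonneg_left (h' z p) (by linarith))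
  have hbd : ∀ r, ∃ L : ℝ, 0 ≤ L ∧ ∀ γ, A.Bd r (α γ) (exp (L * (1 + len γ))) := fun r => by
    obtain ⟨B, hB, h⟩ := JX_comp A hid r
    exact JX_sub h0 hlmr (fun γ a => A.Bd r (α γ) a) (fun γ a b h0 hab h => h.mono h0 hab)
      (fun γ => A.exists_bd (hα γ) r) hB fun γ γ' a b ha hb h1 h2 => by
        rw [map_mul]
        exact h (α γ') (α γ) a b (hα γ') (hα γ) ha hb h1 h2
  choose Lb hLb hbd using hbd
  obtain ⟨a, ha, ha'⟩ := JX_small (show 0 < A.δ / (2 * A.K ^ 2) by positivity)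
  obtain ⟨b, hb, hb'⟩ := JX_big A.K
  have hc : ∀ r : ℕ, ∃ c, 0 ≤ c ∧ r * (D + 1 : ℝ) ^ r + (1 + 2 * A.K * A.δ) * A.K ^ r ≤ exp c :=
    fun r => JX_big _
  choose c hc hc' using hc
  have hKK : A.δ / (2 * A.K ^ 2) ≤ A.δ / 2 / A.K := by
    rw [div_div]
    gcongr
    exact le_self_pow₀ hK1 two_ne_zero
  have hKK' : A.δ / 2 / A.K ≤ A.δ / 2 := div_le_self (by positivity) hK1
  have s0 : exp (-(a + b + L1)) < A.δ / 2 / A.K :=
    ((exp_le_exp.2 (by linarith)).trans_lt ha').trans_le hKK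
  have s1 : ∀ {z p : M}, dist z p ≤ exp (-(a + b + L1)) → z ∈ ball p A.δ := fun h =>
    mem_ball.2 (by linarith)
  have s2 : A.K ≤ exp (a + b + L1) := hb'.trans (exp_le_exp.2 (by linarith))
  have key : ∀ (r : ℕ) (γ : Γ) (p q : M), dist (α γ p) q < A.δ / 2 →
      ‖(fun l => ofPoly (A.T r (α γ) p q l) : Jt D r)‖ ≤
        exp ((a + L1 + c r + r * Lb r) * (1 + len γ)) ∧
      ∀ z, dist z p ≤ exp (-((a + L1 + c r + r * Lb r) * (1 + len γ))) →
        ‖A.c q (α γ z) - A.c q (α γ p) -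
          evv (fun l => ofPoly (A.T r (α γ) p q l) : Jt D r) (A.c p z)‖ ≤
          exp ((a + L1 + c r + r * Lb r) * (1 + len γ)) * dist z p ^ r := by
    intro r γ p q hpq
    have hl : 1 ≤ 1 + len γ := by linarith [h0 γ]
    have h := JX_key A (hα γ) r (one_le_exp (mul_nonneg (hLb r) (by linarith))) (hbd r γ)
      (one_le_exp (mul_nonneg hL1 (by linarith))) (hlip γ) hpq
    have p1 : 0 ≤ r * (D + 1 : ℝ) ^ r := by positivity
    have p2 : 0 ≤ (1 + 2 * A.K * A.δ) * A.K ^ r := by positivity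
    have p3 : 0 ≤ r * Lb r := mul_nonneg r.cast_nonneg (hLb r)
    have e : exp (c r) * exp (Lb r * (1 + len γ)) ^ r ≤
        exp ((a + L1 + c r + r * Lb r) * (1 + len γ)) := by
      rw [← exp_nat_mul, ← exp_add]
      refine exp_le_exp.2 ?_
      nlinarith [hc r, mul_nonneg (add_nonneg ha hL1) (zero_le_one.trans hl)]
    refine ⟨h.1.trans (le_trans ?_ e), fun z hz => (h.2 z (hz.trans_lt ?_)).trans ?_⟩
    · exact mul_le_mul_of_nonneg_right (by linarith [hc' r]) (by positivity)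
    · rw [← div_div, lt_div_iff₀ (exp_pos _), ← exp_add]
      refine lt_of_le_of_lt (exp_le_exp.2 ?_) ha'
      nlinarith [mul_nonneg (add_nonneg (hc r) p3) (zero_le_one.trans hl)]
    · refine mul_le_mul_of_nonneg_right (le_trans ?_ e) (by positivity)
      exact mul_le_mul_of_nonneg_right (by linarith [hc' r]) (by positivity)
  have hL : ∀ r : ℕ, 0 ≤ a + L1 + c r + r * Lb r := fun r =>
    add_nonneg (add_nonneg (add_nonneg ha hL1) (hc r)) (mul_nonneg r.cast_nonneg (hLb r))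
  have hself : ∀ p : M, dist p p < A.δ / 2 := fun p => by simpa using hδ
  have hmul : ∀ (r : ℕ) (γ : Γ), (a + L1 + c r + r * Lb r) * (1 + len γ) ≤
      (a + L1 + c r + r * Lb r) * (1 + len 1) * (1 + len γ) := fun r γ =>
    mul_le_mul_of_nonneg_right (le_mul_of_one_le_right (hL r) (by linarith [h0 1]))
      (by linarith [h0 γ])
  refine ⟨{
    c := A.c
    T := fun r γ p l => ofPoly (A.T r (α γ) p (α γ p) l)
    L0 := a + b + L1
    Lr := fun r => (a + L1 + c r + r * Lb r) * (1 + len 1)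
    L0_nonneg := by positivity
    Lr_nonneg := fun r => mul_nonneg (hL r) (by linarith [h0 1])
    len_nonneg := h0
    measC := A.measurable_c
    measT := fun r γ => measurable_pi_iff.2 fun l => measurable_pi_iff.2 fun m =>
      (A.measurable_T (hα γ) r l m.1).comp (measurable_id.prodMk (hα γ).1.measurable)
    c_self := A.c_self
    c_lip := fun p z z' hz hz' => (A.c_biL p z (s1 hz) z' (s1 hz')).1.trans
      (mul_le_mul_of_nonneg_right s2 dist_nonneg)
    c_lip' := fun p z z' hz hz' => (A.c_biL p z (s1 hz) z' (s1 hz')).2.trans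
      (mul_le_mul_of_nonneg_right s2 (norm_nonneg _))
    c_onto := fun p u hu => ?_
    lip := fun γ z z' => (hlip γ z z').trans (mul_le_mul_of_nonneg_right
      (exp_le_exp.2 (mul_le_mul_of_nonneg_right (by linarith) (by linarith [h0 γ]))) dist_nonneg)
    T_le := fun r γ p => (key r γ p _ (hself _)).1.trans (exp_le_exp.2 (hmul r γ))
    jet := fun r γ p z hz => ?_
    tr := fun r p p' hp => ?_ }, rfl⟩
  · obtain ⟨z, h1, -, h2⟩ := A.c_onto p (v := u) (by
      refine (hu.trans (exp_le_exp.2 (by linarith))).trans_lt (s0.trans_le ?_)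
      gcongr
      linarith)
    exact ⟨z, h1.trans (mul_le_mul_of_nonneg_right s2 (norm_nonneg _)), h2⟩
  · have h := (key r γ p _ (hself _)).2 z (hz.trans (exp_le_exp.2 (neg_le_neg (hmul r γ))))
    rw [A.c_self, sub_zero] at h
    exact h.trans (mul_le_mul_of_nonneg_right (exp_le_exp.2 (hmul r γ)) (by positivity))
  · have h1 : dist (α 1 p') p < A.δ / 2 := by
      rw [map_one, Equiv.Perm.one_apply]
      refine hp.trans_lt (lt_of_le_of_lt (exp_le_exp.2 (neg_le_neg ?_))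
        (ha'.trans_le (hKK.trans hKK')))
      nlinarith [h0 1, hL r, hc r, mul_nonneg (r.cast_nonneg : (0 : ℝ) ≤ r) (hLb r)]
    have h := key r 1 p' p h1
    refine ⟨_, h.1, fun z hz => ?_⟩
    simpa using h.2 z hz

/-- uniform charts and jets exist -/
theorem exists_jets [ChartedSpace (EuclideanSpace ℝ (Fin D)) M] [IsManifold (𝓡 D) ∞ M] {N : ℕ}
    {ι : M → EuclideanSpace ℝ (Fin N)} (hι : ContMDiff (𝓡 D) (𝓡 N) ∞ ι)
    (hd : ∀ p q, dist p q = ‖ι p - ι q‖)
    (himm : ∀ p, Function.Injective (mfderiv (𝓡 D) (𝓡 N) ι p))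
    (α : Γ →* Equiv.Perm M) (hα : ∀ γ, ContMDiff (𝓡 D) (𝓡 D) ∞ (α γ)) {len : Γ → ℝ}
    (h0 : ∀ γ, 0 ≤ len γ)
    (hlmr : ∀ L : Γ → ℝ, (∀ γ γ', L (γ * γ') ≤ L γ + L γ') → ∃ C, ∀ γ, L γ ≤ C * (1 + len γ)) :
    ∃ (A : Atl (stdc (D := D) (M := M))) (J : Jets α len D), J.c = A.c := by
  obtain ⟨A⟩ := exists_atl (stdc (D := D) (M := M)) stdc_mem (stdc_biL hι hd himm)
  exact ⟨A, exists_jets_of_atl A α (fun γ => smo_stdc (hα γ)) h0 hlmr⟩

end Pool.Agent.P.MP_d483fb_an.Z.NF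

end

end

section

/-!
The general linear group of the model space, and the derivative of an embedding in the charts.
-/

open MeasureTheory Filter Topology Set Real

noncomputable section

namespace Pool.Agent.P.MP_d483fb_an.Z.TZ

open NF

/-- The general linear group of the model space. -/
abbrev GLu (D : ℕ) : Type := (E D →L[ℝ] E D)ˣ

instance (D : ℕ) : BorelSpace (GLu D) :=
  ⟨by
    have h := borel_comap (f := (Units.val : GLu D → (E D →L[ℝ] E D)))
      (t := inferInstance)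
    have h2 := (Units.isOpenEmbedding_val (R := E D →L[ℝ] E D)).isInducing.eq_induced
    have h3 := BorelSpace.measurable_eq (α := E D →L[ℝ] E D)
    change MeasurableSpace.comap Units.val _ = _
    rw [h3]
    exact h.symm.trans (congrArg (@borel (GLu D)) h2.symm)⟩

instance (D : ℕ) : LocallyCompactSpace (GLu D) := Units.isOpenEmbedding_val.locallyCompactSpace

instance (D : ℕ) : SecondCountableTopology (GLu D) :=
  Units.isOpenEmbedding_val.isInducing.secondCountableTopology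

instance (D : ℕ) : PolishSpace (GLu D) := by
  have h := (Units.isOpenEmbedding_val (R := E D →L[ℝ] E D)).isOpen_range.polishSpace
  exact Units.isOpenEmbedding_val.isEmbedding.toHomeomorph.isClosedEmbedding.polishSpace

/-- The size of an invertible linear map. -/
def lg {D : ℕ} (g : GLu D) : ℝ :=
  log (max 1 (max ‖(g : E D →L[ℝ] E D)‖ ‖((g⁻¹ : GLu D) : E D →L[ℝ] E D)‖))

variable {Γ M : Type} [Group Γ] [MetricSpace M] [MeasurableSpace M] {α : Γ →* Equiv.Perm M}
  {len : Γ → ℝ} {D : ℕ}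

/-- The derivative of an isometric embedding `ι` in the charts of `J`. -/
structure JEmb (J : Jets α len D) {N : ℕ} (ι : M → EuclideanSpace ℝ (Fin N)) where
  B : M → E D →L[ℝ] EuclideanSpace ℝ (Fin N)
  K : ℝ
  measB : Measurable B
  tay : ∀ p z, dist z p ≤ exp (-K) → ‖ι z - ι p - B p (J.c p z)‖ ≤ exp K * dist z p ^ 2
  isom : ∀ p q, dist p q = ‖ι p - ι q‖

end Pool.Agent.P.MP_d483fb_an.Z.TZ

end

end

section

/-!
Charts and jets together with the derivative of the embedding.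
-/

open Set Metric Filter Real
open scoped Topology ContDiff Nat Manifold

noncomputable section

namespace Pool.Agent.P.MP_d483fb_an.Z.NF

open Jet TZ

variable {D : ℕ}

theorem Wd_taylor {Y : Type} [NormedAddCommGroup Y] [NormedSpace ℝ Y] [CompleteSpace Y]
    {g : E D → Y} {x v : E D} {C : ℝ} (hg : ∀ t ∈ Icc (0 : ℝ) 1, ContDiffAt ℝ ∞ g (x + t • v))
    (h : ∀ t ∈ Icc (0 : ℝ) 1, ‖iteratedFDeriv ℝ 2 g (x + t • v)‖ ≤ C) :
    ‖g (x + v) - g x - fderiv ℝ g x v‖ ≤ C * ‖v‖ ^ 2 := by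
  have h1 := map_add_eq_sum_add_integral_iteratedFDeriv (n := 1) (f := g) (x := x) (y := v)
    fun t ht => (hg t ht).of_le (WithTop.coe_le_coe.2 (le_top : ((1 : ℕ) + 1 : ℕ∞) ≤ ⊤))
  have h2 := intervalIntegral.norm_integral_le_of_norm_le_const (a := 0) (b := 1)
    (C := C * ‖v‖ ^ 2)
    (f := fun t : ℝ => (1 - t) ^ 1 • iteratedFDeriv ℝ (1 + 1) g (x + t • v) fun _ => v) (by
      intro t ht
      rw [uIoc_of_le zero_le_one] at ht
      rw [norm_smul, pow_one, Real.norm_of_nonneg (sub_nonneg.2 ht.2)]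
      refine (mul_le_of_le_one_left (norm_nonneg _) (by linarith [ht.1])).trans ?_
      refine ((iteratedFDeriv ℝ (1 + 1) g (x + t • v)).le_opNorm _).trans ?_
      rw [Finset.prod_const, Finset.card_univ, Fintype.card_fin]
      exact mul_le_mul_of_nonneg_right (h t ⟨ht.1.le, ht.2⟩) (by positivity))
  rw [h1]
  simp only [Finset.sum_range_succ, Finset.range_zero, Finset.sum_empty, zero_add,
    Nat.factorial_zero, Nat.factorial_one, Nat.cast_one, inv_one, one_smul,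
    iteratedFDeriv_zero_apply, iteratedFDeriv_one_apply]
  refine le_trans (le_of_eq ?_) (h2.trans (le_of_eq (by simp)))
  congr 1
  abel

variable {M : Type} [MetricSpace M] [MeasurableSpace M] [BorelSpace M]
  {ψ : M → OpenPartialHomeomorph M (Fin D → ℝ)} (A : Atl ψ) {Γ : Type} [Group Γ]

theorem jemb_of_atl {α : Γ →* Equiv.Perm M} {len : Γ → ℝ} (J : Jets α len D) (hJ : J.c = A.c)
    {N : ℕ} {ι : M → EuclideanSpace ℝ (Fin N)} (hd : ∀ p q, dist p q = ‖ι p - ι q‖)
    (hι : ∀ x, ContDiffOn ℝ ∞ (ι ∘ (ψ x).symm) (ψ x).target) : Nonempty (JEmb J ι) := by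
  have hK := A.K_pos
  have hδ := A.δ_pos
  have := A.fin.to_subtype
  have hc : ∀ x k, ContinuousOn (iteratedFDeriv ℝ k (ι ∘ (ψ x).symm)) (ψ x).target := fun x k =>
    ((hι x).continuousOn_iteratedFDerivWithin (by exact_mod_cast le_top)
      (ψ x).open_target.uniqueDiffOn).congr fun _ hx =>
        (iteratedFDerivWithin_of_isOpen k (ψ x).open_target hx).symm
  have h : ∀ a : range A.j, ∃ C, ∀ z ∈ A.Q a, ‖iteratedFDeriv ℝ 2 (ι ∘ (ψ a).symm) (ψ a z)‖ ≤ C := by
    rintro ⟨_, p, rfl⟩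
    exact (A.cpt p).exists_bound_of_continuousOn ((hc _ 2).comp
      ((ψ _).continuousOn.mono (A.sub p)) fun z hz => (ψ _).map_source (A.sub p hz))
  choose C hC using h
  obtain ⟨B, hB⟩ := (finite_range C).bddAbove
  obtain ⟨a, ha, ha'⟩ := JX_small (show 0 < A.δ / A.K by positivity)
  obtain ⟨b, hb, hb'⟩ := JX_big (|B| * A.K ^ 2)
  refine ⟨⟨fun p => fderiv ℝ (ι ∘ (ψ (A.j p)).symm) (ψ (A.j p) p), a + b, ?_, fun p z hz => ?_,
    hd⟩⟩
  · refine measurable_of_cover (fun i : range A.j => A.j ⁻¹' {i.1}) (fun i => A.meas _)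
      (fun p => ⟨⟨_, p, rfl⟩, rfl⟩) fun i => ?_
    refine ContinuousOn.congr (f := fun p => fderiv ℝ (ι ∘ (ψ i).symm) (ψ i p)) ?_ ?_
    · refine ((hι i).continuousOn_fderiv_of_isOpen (ψ i).open_target (by simp)).comp
        ((ψ i).continuousOn.mono ?_) ?_
      · intro p hp
        rw [← show A.j p = i from hp]
        exact A.sub p (A.mem_Q p)
      · intro p hp
        rw [← show A.j p = i from hp]
        exact (ψ _).map_source (A.sub p (A.mem_Q p))
    · intro p hp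
      simp only
      rw [show A.j p = i from hp]
  have a1 : dist z p < A.δ / A.K := (hz.trans (exp_le_exp.2 (by linarith))).trans_lt ha'
  have a2 : dist z p < A.δ := a1.trans_le (div_le_self hδ.le A.one_le)
  have a3 := A.norm_c0_le a2
  have a4 : ‖A.c0 p z‖ < A.δ := a3.trans_lt (by rwa [lt_div_iff₀' hK] at a1)
  have seg : ∀ t ∈ Icc (0 : ℝ) 1, ∃ w ∈ A.Q (A.j p),
      ψ (A.j p) w = ψ (A.j p) p + t • A.c0 p z := fun t ht => A.onto p _ (by
    rw [norm_smul, Real.norm_of_nonneg ht.1]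
    exact (mul_le_of_le_one_left (norm_nonneg _) ht.2).trans_lt a4)
  have key := Wd_taylor (g := ι ∘ (ψ (A.j p)).symm) (x := ψ (A.j p) p) (v := A.c0 p z) (C := |B|)
    (fun t ht => by
      obtain ⟨w, hw, e⟩ := seg t ht
      rw [← e]
      exact (hι _).contDiffAt ((ψ _).open_target.mem_nhds ((ψ _).map_source (A.sub p hw))))
    (fun t ht => by
      obtain ⟨w, hw, e⟩ := seg t ht
      rw [← e]
      exact (hC ⟨_, p, rfl⟩ w hw).trans ((hB (mem_range_self _)).trans (le_abs_self B)))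
  have e1 : ψ (A.j p) p + A.c0 p z = ψ (A.j p) z := by simp [Atl.c0]
  rw [e1, Function.comp_apply, Function.comp_apply, (ψ _).left_inv (A.sub p (A.ball_sub p a2)),
    (ψ _).left_inv (A.sub p (A.mem_Q p))] at key
  rw [hJ, A.c_eq a2]
  refine key.trans ?_
  calc |B| * ‖A.c0 p z‖ ^ 2 ≤ |B| * (A.K * dist z p) ^ 2 := by gcongr
    _ = |B| * A.K ^ 2 * dist z p ^ 2 := by ring
    _ ≤ _ := mul_le_mul_of_nonneg_right (hb'.trans (exp_le_exp.2 (by linarith))) (by positivity)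

/-- uniform charts and jets exist, together with the derivative of the embedding -/
theorem exists_jets_emb [CompactSpace M] [ChartedSpace (EuclideanSpace ℝ (Fin D)) M]
    [IsManifold (𝓡 D) ∞ M] {N : ℕ} {ι : M → EuclideanSpace ℝ (Fin N)}
    (hι : ContMDiff (𝓡 D) (𝓡 N) ∞ ι) (hd : ∀ p q, dist p q = ‖ι p - ι q‖)
    (himm : ∀ p, Function.Injective (mfderiv (𝓡 D) (𝓡 N) ι p))
    (α : Γ →* Equiv.Perm M) (hα : ∀ γ, ContMDiff (𝓡 D) (𝓡 D) ∞ (α γ)) {len : Γ → ℝ}
    (h0 : ∀ γ, 0 ≤ len γ)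
    (hlmr : ∀ L : Γ → ℝ, (∀ γ γ', L (γ * γ') ≤ L γ + L γ') → ∃ C, ∀ γ, L γ ≤ C * (1 + len γ)) :
    ∃ J : Jets α len D, Nonempty (JEmb J ι) := by
  obtain ⟨A, J, hJ⟩ := exists_jets hι hd himm α hα h0 hlmr
  refine ⟨J, jemb_of_atl A J hJ hd fun x => ?_⟩
  have h := ((contMDiff_iff.1 hι).2 x 0).comp
    (EuclideanSpace.equiv (Fin D) ℝ).symm.contDiff.contDiffOn (s := (stdc (D := D) x).target)
    fun u hu => by
      have : (EuclideanSpace.equiv (Fin D) ℝ).symm u ∈
        (chartAt (EuclideanSpace ℝ (Fin D)) x).target := hu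
      simpa using this
  exact h.congr fun _ _ => rfl

end Pool.Agent.P.MP_d483fb_an.Z.NF

end

end

section

/-!
The derivative cocycle in the charts, with values in the general linear group.
-/

open MeasureTheory Filter Topology Set Real

noncomputable section

namespace Pool.Agent.P.MP_d483fb_an.Z.TZ

open NF

variable {D : ℕ}

theorem evv_two (T : Jt D 2) (w : E D) : evv T w = linv T w := by
  classical
  funext i
  rw [linv_apply]
  simp only [evv, ev, lin, toPoly, MvPolynomial.coeff_sum, MvPolynomial.coeff_monomial,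
    sum_apply, smul_apply, ContinuousLinearMap.proj_apply,
    smul_eq_mul, Finset.sum_mul]
  rw [Finset.sum_comm]
  refine Finset.sum_congr rfl fun a _ => ?_
  have h1 : a.1.degree = 1 := by
    have := a.2
    omega
  obtain ⟨j, hj⟩ : a.1 ∈ Set.range (fun j : Fin D => Finsupp.single j 1) := by
    rw [Finsupp.range_single_one]
    exact h1
  have h2 : mono a.1 w = w j := by
    rw [← hj, mono, Finset.prod_eq_single j]
    · simp
    · intro b _ hb
      simp [Finsupp.single_eq_of_ne hb]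
    · simp
  rw [h2, Finset.sum_eq_single j]
  · simp [hj]
  · intro b _ hb
    rw [if_neg, zero_mul]
    rw [← hj]
    exact fun h => hb (Finsupp.single_left_injective one_ne_zero h).symm
  · simp

/-- The linear part as a continuous linear map. -/
def linvL (D : ℕ) : Jt D 2 →L[ℝ] (E D →L[ℝ] E D) :=
  LinearMap.toContinuousLinearMap
    { toFun := linv
      map_add' := fun S T => by
        ext w i
        simp [← evv_two, evv, ev, add_mul, Finset.sum_add_distrib]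
      map_smul' := fun c T => by
        ext w i
        simp [← evv_two, evv, ev, Finset.mul_sum, mul_assoc] }

theorem opNorm_le_of_small {A B : Type} [NormedAddCommGroup A] [NormedSpace ℝ A]
    [NormedAddCommGroup B] [NormedSpace ℝ B] (T : A →L[ℝ] B) {s K : ℝ} (hs : 0 < s) (hK : 0 ≤ K)
    (h : ∀ u, ‖u‖ ≤ s → ‖T u‖ ≤ K * s) : ‖T‖ ≤ K := by
  refine T.opNorm_le_of_unit_norm hK fun x hx => ?_
  have := h (s • x) (by rw [norm_smul, hx, mul_one, Real.norm_of_nonneg hs.le])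
  rw [map_smul, norm_smul, Real.norm_of_nonneg hs.le, mul_comm] at this
  exact le_of_mul_le_mul_right this hs

variable {Γ M : Type} [Group Γ] [MetricSpace M] [MeasurableSpace M] {α : Γ →* Equiv.Perm M}
  {len : Γ → ℝ} (J : Jets α len D)

theorem measurable_Dl (γ : Γ) : Measurable (J.Dl γ) :=
  (linvL D).continuous.measurable.comp (J.measT 2 γ)

theorem norm_Dl_le (γ : Γ) (p : M) : ‖J.Dl γ p‖ ≤ ‖linvL D‖ * exp (J.Lr 2 * (1 + len γ)) :=
  ((linvL D).le_opNorm _).trans (mul_le_mul_of_nonneg_left (J.T_le 2 γ p) (norm_nonneg _))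

/-- Uniform estimates for one group element. -/
theorem jets_loc (γ : Γ) : ∃ C ρ : ℝ, 1 ≤ C ∧ 0 < ρ ∧ (∀ p, ‖J.Dl γ p‖ ≤ C) ∧
    (∀ z z', dist (α γ z) (α γ z') ≤ C * dist z z') ∧
    ∀ p z, dist z p ≤ ρ → ‖J.c (α γ p) (α γ z) - J.Dl γ p (J.c p z)‖ ≤ C * dist z p ^ 2 := by
  have h1 := exp_pos (J.Lr 2 * (1 + len γ))
  have h2 := exp_pos (J.L0 * (1 + len γ))
  have h3 : 0 ≤ ‖linvL D‖ * exp (J.Lr 2 * (1 + len γ)) := by positivity
  refine ⟨1 + ‖linvL D‖ * exp (J.Lr 2 * (1 + len γ)) + exp (J.Lr 2 * (1 + len γ)) +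
    exp (J.L0 * (1 + len γ)), _, by linarith, exp_pos (-(J.Lr 2 * (1 + len γ))),
    fun p => (norm_Dl_le J γ p).trans (by linarith),
    fun z z' => (J.lip γ z z').trans (mul_le_mul_of_nonneg_right (by linarith) dist_nonneg),
    fun p z hz => ?_⟩
  have := J.jet 2 γ p z hz
  rw [evv_two] at this
  exact this.trans (mul_le_mul_of_nonneg_right (by linarith) (by positivity))

/-- Uniform estimates for the charts. -/
theorem jets_onto : ∃ C ρ : ℝ, 1 ≤ C ∧ 0 < ρ ∧
    (∀ p u, ‖u‖ ≤ ρ → ∃ z, dist z p ≤ C * ‖u‖ ∧ J.c p z = u) ∧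
    ∀ p z, dist z p ≤ ρ → ‖J.c p z‖ ≤ C * dist z p := by
  refine ⟨exp J.L0, exp (-(2 * J.L0)), one_le_exp J.L0_nonneg, exp_pos _, J.c_onto,
    fun p z hz => ?_⟩
  have := J.c_lip p z p (hz.trans (exp_le_exp.2 (by linarith [J.L0_nonneg])))
    (by simpa using (exp_pos _).le)
  simpa [J.c_self] using this

theorem lin_unique {F : Type} [NormedAddCommGroup F] [NormedSpace ℝ F] (p : M)
    (T : E D →L[ℝ] F) {C ρ : ℝ} (hC : 0 ≤ C) (hρ : 0 < ρ)
    (h : ∀ z, dist z p ≤ ρ → ‖T (J.c p z)‖ ≤ C * dist z p ^ 2) : T = 0 := by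
  obtain ⟨A, σ, hA, hσ, hon, -⟩ := jets_onto J
  have hA0 : 0 < A := by linarith
  refine norm_le_zero_iff.1 (le_of_forall_pos_le_add fun ε hε => ?_)
  set s := min (min σ (ρ / A)) (ε / (C * A ^ 2 + 1)) with hs
  have hs0 : 0 < s := by positivity
  rw [zero_add]
  refine opNorm_le_of_small T hs0 hε.le fun u hu => ?_
  obtain ⟨z, hz, rfl⟩ := hon p u (hu.trans ((min_le_left _ _).trans (min_le_left _ _)))
  have h1 : dist z p ≤ A * s := hz.trans (mul_le_mul_of_nonneg_left hu hA0.le)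
  have h2 : s * A ≤ ρ := (le_div_iff₀ hA0).1 ((min_le_left _ _).trans (min_le_right _ _))
  have h3 : s * (C * A ^ 2 + 1) ≤ ε := (le_div_iff₀ (by positivity)).1 (min_le_right _ _)
  calc _ ≤ C * dist z p ^ 2 := h z (by linarith)
    _ ≤ C * (A * s) ^ 2 := by gcongr
    _ = s * (C * A ^ 2) * s := by ring
    _ ≤ ε * s := mul_le_mul_of_nonneg_right (by nlinarith) hs0.le

theorem dl_one (p : M) : J.Dl 1 p = 1 := by
  obtain ⟨C, ρ, hC, hρ, -, -, h⟩ := jets_loc J 1
  refine (sub_eq_zero.1 (lin_unique J p (1 - J.Dl 1 p) (by linarith : 0 ≤ C) hρ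
    fun z hz => ?_)).symm
  simpa using h p z hz

theorem dl_mul (γ γ' : Γ) (p : M) : J.Dl (γ * γ') p = J.Dl γ (α γ' p) * J.Dl γ' p := by
  obtain ⟨C1, ρ1, hC1, hρ1, -, -, h1⟩ := jets_loc J (γ * γ')
  obtain ⟨C2, ρ2, hC2, hρ2, hb, -, h2⟩ := jets_loc J γ
  obtain ⟨C3, ρ3, hC3, hρ3, -, hl, h3⟩ := jets_loc J γ'
  have hC3' : 0 < C3 := by linarith
  refine sub_eq_zero.1 (lin_unique J p _ (C := C1 + C2 * C3 ^ 2 + C2 * C3)
    (ρ := min (min ρ1 ρ3) (ρ2 / C3)) (by positivity) (by positivity) fun z hz => ?_)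
  have a1 := h1 p z (hz.trans ((min_le_left _ _).trans (min_le_left _ _)))
  have a3 := h3 p z (hz.trans ((min_le_left _ _).trans (min_le_right _ _)))
  have a4 := (le_div_iff₀ hC3').1 (hz.trans (min_le_right _ _))
  have a2 := h2 (α γ' p) (α γ' z) ((hl z p).trans (by linarith))
  have a5 : C2 * dist (α γ' z) (α γ' p) ^ 2 ≤ C2 * (C3 * dist z p) ^ 2 := by
    have := hl z p
    gcongr
  have a6 := ((J.Dl γ (α γ' p)).le_opNorm _).trans (mul_le_mul (hb _) a3 (norm_nonneg _)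
    (by linarith))
  rw [map_mul, Equiv.Perm.mul_apply, Equiv.Perm.mul_apply] at a1
  have e : (J.Dl (γ * γ') p - J.Dl γ (α γ' p) * J.Dl γ' p) (J.c p z) =
      -(J.c (α γ (α γ' p)) (α γ (α γ' z)) - J.Dl (γ * γ') p (J.c p z)) +
      (J.c (α γ (α γ' p)) (α γ (α γ' z)) - J.Dl γ (α γ' p) (J.c (α γ' p) (α γ' z))) +
      J.Dl γ (α γ' p) (J.c (α γ' p) (α γ' z) - J.Dl γ' p (J.c p z)) := by
    simp only [sub_apply, mul_apply_eq_comp, map_sub]
    abel
  rw [e]
  refine (norm_add₃_le).trans ?_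
  rw [norm_neg]
  nlinarith

/-- The derivative cocycle with values in the general linear group. -/
def Dlu (γ : Γ) (p : M) : GLu D where
  val := J.Dl γ p
  inv := J.Dl γ⁻¹ (α γ p)
  val_inv := by
    have := dl_mul J γ γ⁻¹ (α γ p)
    rw [mul_inv_cancel, dl_one, map_inv] at this
    simpa using this.symm
  inv_val := by rw [← dl_mul, inv_mul_cancel, dl_one]

theorem Dlu_val (γ : Γ) (p : M) : (Dlu J γ p : E D →L[ℝ] E D) = J.Dl γ p := rfl

theorem Dlu_inv (γ : Γ) (p : M) :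
    (((Dlu J γ p)⁻¹ : GLu D) : E D →L[ℝ] E D) = J.Dl γ⁻¹ (α γ p) := rfl

theorem Dlu_one (p : M) : Dlu J 1 p = 1 := Units.ext (dl_one J p)

theorem Dlu_mul (γ γ' : Γ) (p : M) : Dlu J (γ * γ') p = Dlu J γ (α γ' p) * Dlu J γ' p :=
  Units.ext (dl_mul J γ γ' p)

theorem measurable_Dlu (γ : Γ) : Measurable (Dlu J γ) :=
  measurable_comap_iff.2 (measurable_Dl J γ)

theorem lg_Dlu_le : ∃ C : ℝ, 0 ≤ C ∧ ∀ γ p, lg (Dlu J γ p) ≤ C * (1 + len γ + len γ⁻¹) := by
  have h3 : 0 ≤ ‖linvL D‖ := (linvL D).opNorm_nonneg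
  refine ⟨‖linvL D‖ + J.Lr 2, add_nonneg h3 (J.Lr_nonneg 2), fun γ p => ?_⟩
  have h0 := J.len_nonneg γ
  have h1 := J.len_nonneg γ⁻¹
  have h2 := J.Lr_nonneg 2
  have h4 : ∀ g q, len g ≤ len γ + len γ⁻¹ →
      ‖J.Dl g q‖ ≤ exp ((‖linvL D‖ + J.Lr 2) * (1 + len γ + len γ⁻¹)) := fun g q hg => by
    refine (norm_Dl_le J g q).trans ?_
    rw [add_mul, exp_add]
    refine mul_le_mul ?_ (exp_le_exp.2 (by nlinarith)) (exp_pos _).le (exp_pos _).le
    nlinarith [add_one_le_exp (‖linvL D‖ * (1 + len γ + len γ⁻¹))]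
  rw [lg, log_le_iff_le_exp (lt_of_lt_of_le one_pos (le_max_left _ _))]
  exact max_le (one_le_exp (by positivity))
    (max_le (h4 γ p (by linarith)) (h4 γ⁻¹ _ (by linarith)))

end Pool.Agent.P.MP_d483fb_an.Z.TZ

end

end

section

/-!
A measurable left inverse of the derivative of the embedding, and a calculus of second order
errors.
-/

open MeasureTheory Filter Topology Set Real
open scoped RealInnerProductSpace

noncomputable section

namespace Pool.Agent.P.MP_d483fb_an.Z.TZ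

open NF

theorem measurable_ringInv {R : Type} [NormedRing R] [CompleteSpace R] [MeasurableSpace R]
    [BorelSpace R] : Measurable (Ring.inverse : R → R) := by
  classical
  have h1 : ContinuousOn Ring.inverse {x : R | IsUnit x} := fun x ⟨u, hu⟩ =>
    hu ▸ (NormedRing.inverse_continuousAt u).continuousWithinAt
  have h2 := ContinuousOn.measurable_piecewise h1 (continuousOn_const (c := (0 : R)))
    Units.isOpen.measurableSet
  convert h2 using 1
  funext x
  by_cases h : IsUnit x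
  · rw [piecewise_eq_of_mem _ _ _ (show x ∈ {x : R | IsUnit x} from h)]
  · rw [piecewise_eq_of_notMem _ _ _ (show x ∉ {x : R | IsUnit x} from h),
      Ring.inverse_non_unit _ h]

theorem measurable_clm_comp {X A B C : Type} [MeasurableSpace X] [NormedAddCommGroup A]
    [NormedSpace ℝ A] [FiniteDimensional ℝ A] [NormedAddCommGroup B] [NormedSpace ℝ B]
    [FiniteDimensional ℝ B] [NormedAddCommGroup C] [NormedSpace ℝ C] {S : X → B →L[ℝ] C}
    {T : X → A →L[ℝ] B} (hS : Measurable S) (hT : Measurable T) :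
    Measurable fun x => S x ∘L T x := by
  have : ProperSpace B := FiniteDimensional.proper_real B
  have h : Continuous fun q : (B →L[ℝ] C) × (A →L[ℝ] B) => q.1 ∘L q.2 :=
    continuous_fst.clm_comp continuous_snd
  exact h.measurable.comp (hS.prodMk hT)

theorem exists_linv {A F : Type} [NormedAddCommGroup A] [InnerProductSpace ℝ A]
    [FiniteDimensional ℝ A] [NormedAddCommGroup F] [InnerProductSpace ℝ F]
    [FiniteDimensional ℝ F] :
    ∃ R : (A →L[ℝ] F) → (F →L[ℝ] A), Measurable R ∧ ∀ (B : A →L[ℝ] F) (C : ℝ), 0 ≤ C →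
      (∀ u, ‖u‖ ≤ C * ‖B u‖) → (∀ u, R B (B u) = u) ∧ ‖R B‖ ≤ C := by
  have := FiniteDimensional.complete ℝ A
  have := FiniteDimensional.complete ℝ F
  have ha : Continuous fun B : A →L[ℝ] F => ContinuousLinearMap.adjoint B :=
    ContinuousLinearMap.adjoint.continuous
  refine ⟨fun B => Ring.inverse (ContinuousLinearMap.adjoint B ∘L B) ∘L
    ContinuousLinearMap.adjoint B, measurable_clm_comp
      (measurable_ringInv.comp (ha.clm_comp continuous_id).measurable) ha.measurable,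
    fun B C hC h => ?_⟩
  set S := ContinuousLinearMap.adjoint B ∘L B with hS
  have h1 : ∀ u, ⟪S u, u⟫ = ‖B u‖ ^ 2 := fun u => by
    rw [hS, ContinuousLinearMap.comp_apply, ContinuousLinearMap.adjoint_inner_left,
      real_inner_self_eq_norm_sq]
  have h2 : Function.Injective S := (injective_iff_map_eq_zero S).2 fun u hu => by
    have h3 := h1 u
    rw [hu, inner_zero_left] at h3
    have h4 := h u
    rw [pow_eq_zero_iff (two_ne_zero) |>.1 h3.symm, mul_zero] at h4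
    exact norm_le_zero_iff.1 h4
  have h3 : IsUnit S := ContinuousLinearMap.isUnit_iff_bijective.2
    ⟨h2, (LinearMap.injective_iff_surjective (f := (S : A →ₗ[ℝ] A))).1 h2⟩
  refine ⟨fun u => ?_, ContinuousLinearMap.opNorm_le_bound _ hC fun v => ?_⟩
  · exact DFunLike.congr_fun (Ring.inverse_mul_cancel S h3) u
  · set u := (Ring.inverse S ∘L ContinuousLinearMap.adjoint B) v with hu
    have h4 : S u = ContinuousLinearMap.adjoint B v :=
      DFunLike.congr_fun (Ring.mul_inverse_cancel S h3) _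
    have h5 := h1 u
    rw [h4, ContinuousLinearMap.adjoint_inner_left] at h5
    have h6 : ‖B u‖ ≤ ‖v‖ := by
      have h7 := real_inner_le_norm v (B u)
      by_contra h8
      nlinarith [norm_nonneg v]
    exact (h u).trans (mul_le_mul_of_nonneg_left h6 hC)

variable {D : ℕ} {Γ M : Type} [Group Γ] [MetricSpace M] [MeasurableSpace M]
  {α : Γ →* Equiv.Perm M} {len : Γ → ℝ} {J : Jets α len D} {N : ℕ}
  {ι : M → EuclideanSpace ℝ (Fin N)}

theorem JEmb.bounds (B : JEmb J ι) : ∃ C : ℝ, 0 ≤ C ∧ (∀ p, ‖B.B p‖ ≤ C) ∧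
    ∀ p u, ‖u‖ ≤ C * ‖B.B p u‖ := by
  obtain ⟨A, σ, hA, hσ, hon, hc⟩ := jets_onto J
  have hA0 : 0 < A := by linarith
  have hK := exp_pos B.K
  have hK' := exp_pos (-B.K)
  have hKK : exp B.K * exp (-B.K) = 1 := by rw [← exp_add, add_neg_cancel, exp_zero]
  set s := min σ (min σ (exp (-B.K) / 2) / A) with hs
  have hs0 : 0 < s := by positivity
  have key : ∀ p u, ‖u‖ ≤ s → ‖B.B p u‖ ≤ 2 * A * ‖u‖ ∧ ‖u‖ ≤ 2 * A * ‖B.B p u‖ := by
    intro p u hu
    obtain ⟨z, hz, rfl⟩ := hon p u (hu.trans (min_le_left _ _))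
    have h1 := (le_div_iff₀ hA0).1 (hu.trans (min_le_right _ _))
    have h2 : dist z p ≤ σ := by linarith [min_le_left σ (exp (-B.K) / 2)]
    have h3 : dist z p ≤ exp (-B.K) / 2 := by linarith [min_le_right σ (exp (-B.K) / 2)]
    have h4 := B.tay p z (by linarith)
    have h5 : exp B.K * dist z p ^ 2 ≤ dist z p / 2 := by
      have := mul_le_mul_of_nonneg_left h3 (mul_nonneg hK.le (dist_nonneg (x := z) (y := p)))
      nlinarith
    have h6 := B.isom z p
    have h7 := norm_sub_norm_le (ι z - ι p) (B.B p (J.c p z))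
    have h8 := norm_sub_norm_le (B.B p (J.c p z)) (ι z - ι p)
    rw [norm_sub_rev (B.B p _)] at h8
    have h9 := hc p z h2
    have h10 := dist_nonneg (x := z) (y := p)
    constructor <;> nlinarith
  refine ⟨2 * A, by positivity, fun p => opNorm_le_of_small _ hs0 (by positivity) fun u hu =>
    (key p u hu).1.trans (by gcongr), fun p u => ?_⟩
  have ht : 0 < s / (‖u‖ + 1) := by positivity
  have h1 := (key p ((s / (‖u‖ + 1)) • u) (by
    rw [norm_smul, Real.norm_of_nonneg ht.le, div_mul_eq_mul_div, div_le_iff₀ (by positivity)]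
    nlinarith)).2
  rw [map_smul, norm_smul, norm_smul, Real.norm_of_nonneg ht.le, mul_left_comm] at h1
  exact le_of_mul_le_mul_left h1 ht

theorem JEmb.exists_R (B : JEmb J ι) : ∃ (R : M → EuclideanSpace ℝ (Fin N) →L[ℝ] E D) (C : ℝ),
    Measurable R ∧ (∀ p, ‖B.B p‖ ≤ C) ∧ (∀ p, ‖R p‖ ≤ C) ∧ ∀ p u, R p (B.B p u) = u := by
  obtain ⟨C, hC, h1, h2⟩ := B.bounds
  obtain ⟨R, hR, h3⟩ := exists_linv (A := EuclideanSpace ℝ (Fin D)) (F := EuclideanSpace ℝ (Fin N))
  set e := EuclideanSpace.equiv (Fin D) ℝ with he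
  set a := ‖e.symm.toContinuousLinearMap‖ with ha
  have h4 : ∀ p v, ‖v‖ ≤ a * C * ‖(B.B p ∘L e.toContinuousLinearMap) v‖ := fun p v => by
    have h5 := e.symm.toContinuousLinearMap.le_opNorm (e v)
    rw [ContinuousLinearEquiv.coe_coe, e.symm_apply_apply] at h5
    rw [mul_assoc]
    exact h5.trans (mul_le_mul_of_nonneg_left (h2 p _) (norm_nonneg _))
  have h5 := fun p => h3 _ _ (by positivity) (h4 p)
  refine ⟨fun p => e.toContinuousLinearMap ∘L R (B.B p ∘L e.toContinuousLinearMap),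
    C + ‖e.toContinuousLinearMap‖ * (a * C), measurable_clm_comp measurable_const
      (hR.comp (measurable_clm_comp B.measB measurable_const)),
    fun p => (h1 p).trans (le_add_of_nonneg_right (by positivity)), fun p => ?_, fun p u => ?_⟩
  · refine (ContinuousLinearMap.opNorm_comp_le _ _).trans (le_add_of_nonneg_of_le hC ?_)
    exact mul_le_mul_of_nonneg_left (h5 p).2 (norm_nonneg _)
  · have := congrArg e ((h5 p).1 (e.symm u))
    simpa using this

section Q3

variable {X Y : Type} [NormedAddCommGroup X] [NormedAddCommGroup Y]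

/-- A function of three points which is of second order in their distances. -/
def Q3 (f : M → M → M → X) : Prop :=
  ∃ K ρ : ℝ, 0 ≤ K ∧ 0 < ρ ∧ ∀ p q z s, dist q p ≤ s → dist z p ≤ s → dist z q ≤ s → s ≤ ρ →
    ‖f p q z‖ ≤ K * s ^ 2

omit [MeasurableSpace M]

theorem Q3.add {f g : M → M → M → X} (hf : Q3 f) (hg : Q3 g) :
    Q3 fun p q z => f p q z + g p q z := by
  obtain ⟨K, ρ, hK, hρ, h⟩ := hf
  obtain ⟨K', ρ', hK', hρ', h'⟩ := hg
  refine ⟨K + K', min ρ ρ', by positivity, by positivity, fun p q z s a b c d => ?_⟩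
  rw [add_mul]
  exact norm_add_le_of_le (h p q z s a b c (d.trans (min_le_left _ _)))
    (h' p q z s a b c (d.trans (min_le_right _ _)))

theorem Q3.neg {f : M → M → M → X} (hf : Q3 f) : Q3 fun p q z => -f p q z := by
  simpa only [Q3, norm_neg] using hf

theorem Q3.sub {f g : M → M → M → X} (hf : Q3 f) (hg : Q3 g) :
    Q3 fun p q z => f p q z - g p q z := by
  simpa only [sub_eq_add_neg] using hf.add hg.neg

theorem Q3.clm [NormedSpace ℝ X] [NormedSpace ℝ Y] {f : M → M → M → X} (hf : Q3 f)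
    (L : M → M → X →L[ℝ] Y) {C : ℝ} (hL : ∀ p q, ‖L p q‖ ≤ C) :
    Q3 fun p q z => L p q (f p q z) := by
  obtain ⟨K, ρ, hK, hρ, h⟩ := hf
  refine ⟨|C| * K, ρ, by positivity, hρ, fun p q z s a b c d => ?_⟩
  rw [mul_assoc]
  exact ((L p q).le_opNorm _).trans (mul_le_mul ((hL p q).trans (le_abs_self C))
    (h p q z s a b c d) (norm_nonneg _) (abs_nonneg C))

theorem Q3.comp {f : M → M → M → X} (hf : Q3 f) {g : M → M} {C : ℝ} (hC : 0 < C)
    (hg : ∀ z z', dist (g z) (g z') ≤ C * dist z z') : Q3 fun p q z => f (g p) (g q) (g z) := by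
  obtain ⟨K, ρ, hK, hρ, h⟩ := hf
  refine ⟨K * C ^ 2, ρ / C, by positivity, by positivity, fun p q z s a b c d => ?_⟩
  rw [mul_assoc, ← mul_pow]
  exact h _ _ _ _ ((hg _ _).trans (by gcongr)) ((hg _ _).trans (by gcongr))
    ((hg _ _).trans (by gcongr)) (by rw [mul_comm]; exact (le_div_iff₀ hC).1 d)

theorem Q3.of_two {f : M → M → X} {C ρ : ℝ} (hC : 0 ≤ C) (hρ : 0 < ρ)
    (h : ∀ p z, dist z p ≤ ρ → ‖f p z‖ ≤ C * dist z p ^ 2) : Q3 fun p _ z => f p z :=
  ⟨C, ρ, hC, hρ, fun p _ z s _ b _ d => (h p z (b.trans d)).trans (by gcongr)⟩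

theorem Q3.pq {f : M → M → X} (hf : Q3 fun p _ z => f p z) : Q3 fun p q _ => f p q := by
  obtain ⟨K, ρ, hK, hρ, h⟩ := hf
  exact ⟨K, ρ, hK, hρ, fun p q _ s a _ _ d =>
    h p q q s a a (by simpa using dist_nonneg.trans a) d⟩

theorem Q3.qz {f : M → M → X} (hf : Q3 fun p _ z => f p z) : Q3 fun _ q z => f q z := by
  obtain ⟨K, ρ, hK, hρ, h⟩ := hf
  exact ⟨K, ρ, hK, hρ, fun _ q z s _ _ c d =>
    h q q z s (by simpa using dist_nonneg.trans c) c c d⟩

theorem Q3.small {f : M → M → X} (hf : Q3 fun p _ z => f p z) {θ : ℝ} (hθ : 0 < θ) :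
    ∃ r : ℝ, 0 < r ∧ ∀ p q, dist q p ≤ r → ‖f p q‖ ≤ θ * dist q p := by
  obtain ⟨K, ρ, hK, hρ, h⟩ := hf
  refine ⟨min ρ (θ / (K + 1)), by positivity, fun p q hq => ?_⟩
  have h1 := h p q q _ le_rfl le_rfl (by simp) (hq.trans (min_le_left _ _))
  have h2 := (le_div_iff₀ (by positivity)).1 (hq.trans (min_le_right _ _))
  have h3 := dist_nonneg (x := q) (y := p)
  nlinarith

end Q3

theorem Q3.small_op {Y : Type} [NormedAddCommGroup Y] [NormedSpace ℝ Y]
    {T : M → M → E D →L[ℝ] Y} (hf : Q3 fun p q z => T p q (J.c q z)) {θ : ℝ} (hθ : 0 < θ) :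
    ∃ r : ℝ, 0 < r ∧ ∀ p q, dist q p ≤ r → ‖T p q‖ ≤ θ := by
  obtain ⟨K, ρ, hK, hρ, h⟩ := hf
  obtain ⟨A, σ, hA, hσ, hon, -⟩ := jets_onto J
  set r := min (min σ (ρ / (A + 1))) (θ / (K * (A + 1) ^ 2 + 1)) with hr
  have hr0 : 0 < r := by positivity
  refine ⟨r, hr0, fun p q hq => opNorm_le_of_small _ hr0 hθ.le fun u hu => ?_⟩
  obtain ⟨z, hz, rfl⟩ := hon q u (hu.trans ((min_le_left _ _).trans (min_le_left _ _)))
  have h1 : dist z q ≤ A * r := hz.trans (by gcongr)
  have h2 : r * (A + 1) ≤ ρ :=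
    (le_div_iff₀ (by positivity)).1 ((min_le_left _ _).trans (min_le_right _ _))
  have h3 : r * (K * (A + 1) ^ 2 + 1) ≤ θ := (le_div_iff₀ (by positivity)).1 (min_le_right _ _)
  have h4 := h p q z (r * (A + 1)) (by nlinarith) (by nlinarith [dist_triangle z q p])
    (by nlinarith) h2
  calc _ ≤ K * (r * (A + 1)) ^ 2 := h4
    _ = r * (K * (A + 1) ^ 2) * r := by ring
    _ ≤ θ * r := mul_le_mul_of_nonneg_right (by nlinarith) hr0.le

end Pool.Agent.P.MP_d483fb_an.Z.TZ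

end

end

section

/-!
The frame bundle of a compact manifold in the charts is an abstract frame bundle.
-/

open MeasureTheory Filter Topology Set Real

noncomputable section

namespace Pool.Agent.P.MP_d483fb_an.Z.TZ

open NF

variable {D : ℕ} {Γ M : Type} [Group Γ] [MetricSpace M] [MeasurableSpace M]
  {α : Γ →* Equiv.Perm M} {len : Γ → ℝ} {J : Jets α len D} {N : ℕ}
  {ι : M → EuclideanSpace ℝ (Fin N)}

/-- The frame bundle. -/
def Fr (_J : Jets α len D) : Type := M × GLu D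

instance : MeasurableSpace (Fr J) := inferInstanceAs (MeasurableSpace (M × GLu D))

instance : MulAction Γ (Fr J) where
  smul γ w := (α γ w.1, Dlu J γ w.1 * w.2)
  one_smul w := by
    change (α 1 w.1, Dlu J 1 w.1 * w.2) = w
    rw [map_one, Dlu_one, one_mul]
    rfl
  mul_smul γ γ' w := by
    change (α (γ * γ') w.1, Dlu J (γ * γ') w.1 * w.2) =
      (α γ (α γ' w.1), Dlu J γ (α γ' w.1) * (Dlu J γ' w.1 * w.2))
    rw [map_mul, Dlu_mul, mul_assoc]
    rfl

section Est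

variable (B : JEmb J ι) {R : M → EuclideanSpace ℝ (Fin N) →L[ℝ] E D} {C : ℝ}
  (hB : ∀ p, ‖B.B p‖ ≤ C) (hR : ∀ p, ‖R p‖ ≤ C) (hRB : ∀ p u, R p (B.B p u) = u)

theorem JEmb.q_tay : Q3 fun p _ z => ι z - ι p - B.B p (J.c p z) :=
  Q3.of_two (f := fun p z => ι z - ι p - B.B p (J.c p z)) (exp_pos _).le (exp_pos _) B.tay

include hR hRB in
theorem JEmb.q_R : Q3 fun p _ z => R p (ι z - ι p) - J.c p z := by
  simpa only [map_sub (R _) (ι _ - ι _), hRB] using B.q_tay.clm (fun p _ => R p) fun p _ => hR p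

include hB hR hRB in
theorem JEmb.q_tan : Q3 fun p _ z => ι z - ι p - B.B p (R p (ι z - ι p)) := by
  convert B.q_tay.sub ((B.q_R hR hRB).clm (fun p _ => B.B p) fun p _ => hB p) using 4
  rw [map_sub (B.B _)]
  abel

include hB hR hRB in
theorem JEmb.q_tan2 : Q3 fun p q z => (B.B q - B.B p ∘L R p ∘L B.B q) (J.c q z) := by
  have h1 := B.q_tan hB hR hRB
  have h2 := B.q_tay.qz
  convert (h1.sub h1.pq).sub (h2.sub ((h2.clm (fun p _ => R p) fun p _ => hR p).clm
    (fun p _ => B.B p) fun p _ => hB p)) using 4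
  simp only [sub_apply, ContinuousLinearMap.comp_apply, map_sub]
  abel

theorem q_jet (γ : Γ) : Q3 fun p _ z => J.c (α γ p) (α γ z) - J.Dl γ p (J.c p z) := by
  obtain ⟨A, ρ, hA, hρ, -, -, h⟩ := jets_loc J γ
  exact Q3.of_two (f := fun p z => J.c (α γ p) (α γ z) - J.Dl γ p (J.c p z)) (by linarith) hρ h

include hR hRB in
theorem JEmb.q_lin (γ : Γ) : Q3 fun p _ z =>
    R (α γ p) (ι (α γ z) - ι (α γ p)) - J.Dl γ p (R p (ι z - ι p)) := by
  obtain ⟨A, ρ, hA, -, h1, h2, -⟩ := jets_loc J γ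
  have h3 := B.q_R hR hRB
  convert ((h3.comp (by linarith) h2).add (q_jet (J := J) γ)).sub
    (h3.clm (fun p _ => J.Dl γ p) fun p _ => h1 p) using 4
  rw [map_sub (J.Dl γ _) (R _ _)]
  abel

include hB hR hRB in
theorem JEmb.q_lin2 (γ : Γ) : Q3 fun p q z =>
    (R (α γ p) ∘L B.B (α γ q) ∘L J.Dl γ q - J.Dl γ p ∘L R p ∘L B.B q) (J.c q z) := by
  obtain ⟨A, ρ, hA, -, h1, h2, -⟩ := jets_loc J γ
  have h3 := B.q_lin hR hRB γ
  have h4 := B.q_tay.qz
  have h5 := ((h4.comp (by linarith) h2).add ((q_jet (J := J) γ).qz.clm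
    (fun _ q => B.B (α γ q)) fun _ q => hB _)).clm (fun p _ => R (α γ p)) fun p _ => hR _
  have h6 := (h4.clm (fun p _ => R p) fun p _ => hR p).clm (fun p _ => J.Dl γ p) fun p _ => h1 p
  convert ((h3.sub h3.pq).sub h5).add h6 using 4
  simp only [sub_apply, ContinuousLinearMap.comp_apply, map_sub, map_add]
  abel

end Est

theorem exists_frm [BorelSpace M] [CompactSpace M] (B : JEmb J ι) :
    ∃ P : Frm Γ (Fr J) (EuclideanSpace ℝ (Fin D)) (EuclideanSpace ℝ (Fin N)),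
      (∀ w, P.x w = ι w.1) ∧ MeasurableEmbedding fun w => (P.x w, P.φ w) := by
  obtain ⟨R, C, hRm, hB, hR, hRB⟩ := B.exists_R
  set e := EuclideanSpace.equiv (Fin D) ℝ with he
  have hι : Isometry ι := Isometry.of_dist_eq fun p q => by rw [B.isom, dist_eq_norm]
  let φ : Fr J → EuclideanSpace ℝ (Fin D) →L[ℝ] EuclideanSpace ℝ (Fin N) := fun w =>
    B.B w.1 ∘L (w.2 : E D →L[ℝ] E D) ∘L e.toContinuousLinearMap
  let χ : GLu D → E D →L[ℝ] EuclideanSpace ℝ (Fin D) := fun g =>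
    e.symm.toContinuousLinearMap ∘L ((g⁻¹ : GLu D) : E D →L[ℝ] E D)
  let ψ : Fr J → EuclideanSpace ℝ (Fin N) →L[ℝ] EuclideanSpace ℝ (Fin D) := fun w => χ w.2 ∘L R w.1
  have hg1 : ∀ (g : GLu D) u, ((g⁻¹ : GLu D) : E D →L[ℝ] E D) ((g : E D →L[ℝ] E D) u) = u :=
    fun g u => DFunLike.congr_fun g.inv_mul u
  have hg2 : ∀ (g : GLu D) u, (g : E D →L[ℝ] E D) (((g⁻¹ : GLu D) : E D →L[ℝ] E D) u) = u :=
    fun g u => DFunLike.congr_fun g.mul_inv u
  have hC : ∀ _ : M, 0 ≤ C := fun p => (norm_nonneg _).trans (hB p)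
  have hx : Measurable fun w : Fr J => ι w.1 := hι.continuous.measurable.comp measurable_fst
  have hφ : Measurable φ := measurable_clm_comp (B.measB.comp measurable_fst)
    (measurable_clm_comp (Units.continuous_val.measurable.comp measurable_snd) measurable_const)
  have hψ : Measurable ψ := measurable_clm_comp (measurable_clm_comp measurable_const
    (Units.continuous_coe_inv.measurable.comp measurable_snd)) (hRm.comp measurable_fst)
  have hχ : ∀ w : Fr J, ‖χ w.2‖ ≤ ‖ψ w‖ * C := fun w => by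
    have : χ w.2 = ψ w ∘L B.B w.1 := by
      ext1 u
      simp only [ψ, ContinuousLinearMap.comp_apply, hRB]
    rw [this]
    exact (ContinuousLinearMap.opNorm_comp_le _ _).trans (by gcongr; exact hB _)
  have hge : ∀ w : Fr J, ‖(w.2 : E D →L[ℝ] E D) ∘L e.toContinuousLinearMap‖ ≤ C * ‖φ w‖ :=
    fun w => by
      have : (w.2 : E D →L[ℝ] E D) ∘L e.toContinuousLinearMap = R w.1 ∘L φ w := by
        ext1 u
        simp only [φ, ContinuousLinearMap.comp_apply, hRB]
      rw [this]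
      exact (ContinuousLinearMap.opNorm_comp_le _ _).trans (by gcongr; exact hR _)
  have hφψ : ∀ w v, φ w (ψ w v) = B.B w.1 (R w.1 v) := fun w v => by
    simp [φ, ψ, χ, hg2]
  have hχm : ∀ γ (w : Fr J) u, χ (γ • w).2 (J.Dl γ w.1 u) = χ w.2 u := fun γ w u => by
    change e.symm (((Dlu J γ w.1 * w.2)⁻¹ : GLu D).val ((Dlu J γ w.1).val u)) = e.symm _
    rw [mul_inv_rev, Units.val_mul, mul_apply_eq_comp, hg1]
    rfl
  refine ⟨⟨fun w => ι w.1, φ, ψ, hx, hφ, hψ, fun w v => by simp [φ, ψ, χ, hRB, hg1],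
    fun θ hθ => ?_, fun γ => ?_, fun γ θ hθ => ?_⟩, fun _ => rfl, ?_⟩
  · have h0 : 0 < θ / (|C| + 1) := by positivity
    obtain ⟨r1, hr1, h1⟩ := (B.q_tan hB hR hRB).small hθ
    obtain ⟨r2, hr2, h2⟩ := (B.q_tan2 hB hR hRB).small_op h0
    refine ⟨min r1 r2, by positivity, fun w w' hw => ?_⟩
    rw [← B.isom] at hw ⊢
    refine ⟨by rw [hφψ]; exact h1 _ _ (hw.trans (min_le_left _ _)), ?_⟩
    have e1 : φ w' - φ w ∘L ψ w ∘L φ w' = (B.B w'.1 - B.B w.1 ∘L R w.1 ∘L B.B w'.1) ∘L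
        (w'.2 : E D →L[ℝ] E D) ∘L e.toContinuousLinearMap := by
      ext1 u
      simp only [sub_apply, ContinuousLinearMap.comp_apply, hφψ]
      rfl
    rw [e1]
    refine (ContinuousLinearMap.opNorm_comp_le _ _).trans ((mul_le_mul
      (h2 _ _ (hw.trans (min_le_right _ _))) (hge w') (norm_nonneg _) h0.le).trans ?_)
    rw [← mul_assoc]
    gcongr
    rw [div_mul_eq_mul_div, div_le_iff₀ (by positivity)]
    nlinarith [le_abs_self C]
  · obtain ⟨A, ρ, -, -, -, h2, -⟩ := jets_loc J γ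
    refine ⟨A, 1, one_pos, fun w w' _ => ?_⟩
    rw [← B.isom, ← B.isom]
    exact h2 _ _
  · have h0 : 0 < θ / (|C| + 1) := by positivity
    have h0' : 0 < θ / (C ^ 2 + 1) := by positivity
    obtain ⟨r1, hr1, h1⟩ := (B.q_lin hR hRB γ).small h0
    obtain ⟨r2, hr2, h2⟩ := (B.q_lin2 hB hR hRB γ).small_op h0'
    refine ⟨min r1 r2, by positivity, fun w w' hw => ?_⟩
    have hC0 := hC w.1
    rw [← B.isom] at hw ⊢
    constructor
    · have e1 : ψ (γ • w) (ι (γ • w').1 - ι (γ • w).1) - ψ w (ι w'.1 - ι w.1) =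
          χ (γ • w).2 (R (α γ w.1) (ι (α γ w'.1) - ι (α γ w.1)) -
            J.Dl γ w.1 (R w.1 (ι w'.1 - ι w.1))) := by
        rw [map_sub (χ _), hχm]
        rfl
      rw [e1]
      refine ((χ _).le_opNorm _).trans ((mul_le_mul (hχ _)
        (h1 _ _ (hw.trans (min_le_left _ _))) (norm_nonneg _) (by positivity)).trans ?_)
      have h3 : C * (θ / (|C| + 1)) ≤ θ := by
        rw [← mul_div_assoc, div_le_iff₀ (by positivity)]
        nlinarith [le_abs_self C]
      calc _ = C * (θ / (|C| + 1)) * (‖ψ (γ • w)‖ * dist w'.1 w.1) := by ring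
        _ ≤ θ * (‖ψ (γ • w)‖ * dist w'.1 w.1) := by gcongr
        _ = _ := by ring
    · have e1 : ψ (γ • w) ∘L φ (γ • w') - ψ w ∘L φ w' = χ (γ • w).2 ∘L
          (R (α γ w.1) ∘L B.B (α γ w'.1) ∘L J.Dl γ w'.1 - J.Dl γ w.1 ∘L R w.1 ∘L B.B w'.1) ∘L
          (w'.2 : E D →L[ℝ] E D) ∘L e.toContinuousLinearMap := by
        ext1 u
        simp only [sub_apply, ContinuousLinearMap.comp_apply, map_sub, hχm]
        rfl
      rw [e1]
      have h3 := (ContinuousLinearMap.opNorm_comp_le _ _).trans (mul_le_mul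
        (h2 _ _ (hw.trans (min_le_right _ _))) (hge w') (norm_nonneg _) h0'.le)
      refine (ContinuousLinearMap.opNorm_comp_le _ _).trans ((mul_le_mul (hχ _) h3
        (norm_nonneg _) (by positivity)).trans ?_)
      have h4 : C ^ 2 * (θ / (C ^ 2 + 1)) ≤ θ := by
        rw [← mul_div_assoc, div_le_iff₀ (by positivity)]
        nlinarith
      calc _ = C ^ 2 * (θ / (C ^ 2 + 1)) * (‖ψ (γ • w)‖ * ‖φ w'‖) := by ring
        _ ≤ θ * (‖ψ (γ • w)‖ * ‖φ w'‖) := by gcongr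
        _ = _ := by ring
  · have : StandardBorelSpace (Fr J) := inferInstanceAs (StandardBorelSpace (M × GLu D))
    refine (hx.prodMk hφ).measurableEmbedding ?_
    rintro ⟨p, g⟩ ⟨p', g'⟩ h
    obtain rfl : p = p' := hι.injective (congrArg Prod.fst h)
    refine Prod.ext rfl (Units.ext (ContinuousLinearMap.ext fun u => ?_))
    have := congrArg (R p) (DFunLike.congr_fun (congrArg Prod.snd h) (e.symm u))
    simpa [φ, hRB] using this

end Pool.Agent.P.MP_d483fb_an.Z.TZ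

end

end
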