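import Pool.Agent.P.MP_d483fb_an.M.A05

section

/-!
Property (T): definitions, and the restriction of a representation to the orthogonal complement of
the invariant vectors.
-/

open scoped RealInnerProductSpace

namespace Pool.Agent.P.MP_d483fb_an.Z.TZ

/-- Property (T) for a discrete group, with a finite Kazhdan set and a linear constant. -/
def HasT (Γ : Type) [Group Γ] : Prop :=
  ∃ (S : Finset Γ) (C : ℝ), 0 ≤ C ∧ ∀ (H : Type) [NormedAddCommGroup H] [InnerProductSpace ℝ H]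
    [CompleteSpace H] (π : Γ →* (H →L[ℝ] H)), (∀ g v, ‖π g v‖ = ‖v‖) →
    ∀ v : H, ∃ w : H, (∀ g, π g w = w) ∧ ‖v - w‖ ≤ C * ∑ s ∈ S, ‖π s v - v‖

/-- Property (T) for a topological group, with a compact Kazhdan set. -/
def KazG (G : Type) [Group G] [TopologicalSpace G] : Prop :=
  ∃ Q : Set G, IsCompact Q ∧ ∃ ε : ℝ, 0 < ε ∧ ∀ (H : Type) [NormedAddCommGroup H]
    [InnerProductSpace ℝ H] [CompleteSpace H] (π : G →* (H →L[ℝ] H)), (∀ g v, ‖π g v‖ = ‖v‖) →
    (∀ v, Continuous fun g => π g v) → (∀ w, (∀ g, π g w = w) → w = 0) →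
    ∀ v : H, (∀ g ∈ Q, ‖π g v - v‖ ≤ ε * ‖v‖) → v = 0

variable {G : Type*} [Group G] {H : Type*} [NormedAddCommGroup H] [InnerProductSpace ℝ H]

theorem perp_inv {π : G →* (H →L[ℝ] H)} (hπ : ∀ g v, ‖π g v‖ = ‖v‖) (g : G) {v : H}
    (hv : v ∈ (EM.fixS π ⊤)ᗮ) : π g v ∈ (EM.fixS π ⊤)ᗮ := by
  rw [Submodule.mem_orthogonal'] at hv ⊢
  intro w hw
  rw [EM.inner_pi_left hπ, hw g⁻¹ trivial]
  exact hv w hw

/-- The restriction to the orthogonal complement of the invariant vectors. -/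
noncomputable def perp (π : G →* (H →L[ℝ] H)) (hπ : ∀ g v, ‖π g v‖ = ‖v‖) :
    G →* ((EM.fixS π ⊤)ᗮ →L[ℝ] (EM.fixS π ⊤)ᗮ) where
  toFun g := ((π g).comp (EM.fixS π ⊤)ᗮ.subtypeL).codRestrict _ fun v => perp_inv hπ g v.2
  map_one' := by
    ext v
    simp
  map_mul' g h := by
    ext v
    exact EM.pi_mul π g h v

theorem perp_coe {π : G →* (H →L[ℝ] H)} (hπ : ∀ g v, ‖π g v‖ = ‖v‖) (g : G)
    (v : (EM.fixS π ⊤)ᗮ) : (perp π hπ g v : H) = π g v := rfl

theorem perp_norm {π : G →* (H →L[ℝ] H)} (hπ : ∀ g v, ‖π g v‖ = ‖v‖) (g : G)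
    (v : (EM.fixS π ⊤)ᗮ) : ‖perp π hπ g v‖ = ‖v‖ := hπ g v

theorem perp_noinv {π : G →* (H →L[ℝ] H)} (hπ : ∀ g v, ‖π g v‖ = ‖v‖)
    (w : (EM.fixS π ⊤)ᗮ) (hw : ∀ g, perp π hπ g w = w) : w = 0 := by
  have h1 : (w : H) ∈ EM.fixS π ⊤ := fun g _ => congrArg Subtype.val (hw g)
  have h2 := (Submodule.mem_orthogonal' _ _).mp w.2 w h1
  exact Subtype.ext (inner_self_eq_zero.mp h2)

theorem sub_prj_mem [CompleteSpace H] (π : G →* (H →L[ℝ] H)) (v : H) :
    v - EM.prj π ⊤ v ∈ (EM.fixS π ⊤)ᗮ :=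
  (Submodule.mem_orthogonal' _ _).mpr fun _ hw => EM.inner_sub_prj π ⊤ v hw

/-- The criterion: no almost invariant vectors in representations without invariant vectors. -/
theorem hasT_of_gap {Γ : Type} [Group Γ] (S : Finset Γ) {ε : ℝ} (hε : 0 < ε)
    (h : ∀ (H : Type) [NormedAddCommGroup H] [InnerProductSpace ℝ H] [CompleteSpace H]
      (π : Γ →* (H →L[ℝ] H)), (∀ g v, ‖π g v‖ = ‖v‖) → (∀ w, (∀ g, π g w = w) → w = 0) →
      ∀ v : H, (∀ s ∈ S, ‖π s v - v‖ ≤ ε * ‖v‖) → v = 0) : HasT Γ := by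
  refine ⟨S, ε⁻¹, by positivity, fun H _ _ _ π hπ v => ⟨EM.prj π ⊤ v,
    fun g => EM.prj_fix π ⊤ v trivial, ?_⟩⟩
  set u : (EM.fixS π ⊤)ᗮ := ⟨_, sub_prj_mem π v⟩ with hu
  have e : ∀ s, ‖perp π hπ s u - u‖ = ‖π s v - v‖ := by
    intro s
    have : ((perp π hπ s u - u : (EM.fixS π ⊤)ᗮ) : H) = π s v - v := by
      rw [Submodule.coe_sub, perp_coe, hu]
      simp only [map_sub, EM.prj_fix π ⊤ v (Subgroup.mem_top s)]
      abel
    rw [← this]
    rfl
  have hn : ‖v - EM.prj π ⊤ v‖ = ‖u‖ := rfl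
  have hs : 0 ≤ ∑ s ∈ S, ‖π s v - v‖ := Finset.sum_nonneg fun _ _ => norm_nonneg _
  rw [hn]
  by_contra hc
  push Not at hc
  have h0 : u = 0 := by
    refine h _ (perp π hπ) (perp_norm hπ) (perp_noinv hπ) u fun s hs' => ?_
    rw [e]
    have h1 : ‖π s v - v‖ ≤ ∑ s ∈ S, ‖π s v - v‖ :=
      Finset.single_le_sum (f := fun s => ‖π s v - v‖) (fun _ _ => norm_nonneg _) hs'
    have h2 := mul_lt_mul_of_pos_left hc hε
    rw [← mul_assoc, mul_inv_cancel₀ hε.ne', one_mul] at h2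
    linarith
  rw [h0, norm_zero] at hc
  have := mul_nonneg (inv_nonneg.mpr hε.le) hs
  linarith

/-- The converse: the gap form of property (T). -/
theorem HasT.gap {Γ : Type} [Group Γ] (hT : HasT Γ) : ∃ (S : Finset Γ) (ε : ℝ), 0 < ε ∧
    ∀ (H : Type) [NormedAddCommGroup H] [InnerProductSpace ℝ H] [CompleteSpace H]
      (π : Γ →* (H →L[ℝ] H)), (∀ g v, ‖π g v‖ = ‖v‖) →
      ∀ v : H, v ≠ 0 → (∀ s ∈ S, ‖π s v - v‖ ≤ ε * ‖v‖) →
        ∃ w : H, (∀ g, π g w = w) ∧ ‖v - w‖ ≤ ‖v‖ / 2 ∧ w ≠ 0 := by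
  obtain ⟨S, C, hC, h⟩ := hT
  have hp : 0 < 2 * (C * S.card + 1) := by positivity
  refine ⟨S, (2 * (C * S.card + 1))⁻¹, by positivity, fun H _ _ _ π hπ v hv hs => ?_⟩
  obtain ⟨w, hw, hle⟩ := h H π hπ v
  have h1 : ∑ s ∈ S, ‖π s v - v‖ ≤ S.card * ((2 * (C * S.card + 1))⁻¹ * ‖v‖) := by
    simpa using Finset.sum_le_card_nsmul S _ _ hs
  have h2 : ‖v - w‖ ≤ ‖v‖ / 2 := by
    refine hle.trans ((mul_le_mul_of_nonneg_left h1 hC).trans ?_)
    rw [← mul_assoc, ← mul_assoc, le_div_iff₀ two_pos]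
    have h3 : C * S.card * (2 * (C * S.card + 1))⁻¹ * 2 ≤ 1 := by
      rw [mul_assoc, mul_comm _ (2 : ℝ), ← mul_assoc, ← div_eq_mul_inv, div_le_one hp]
      linarith
    nlinarith [norm_nonneg v]
  refine ⟨w, hw, h2, fun h0 => ?_⟩
  rw [h0, sub_zero] at h2
  have := norm_pos_iff.mpr hv
  linarith

end Pool.Agent.P.MP_d483fb_an.Z.TZ


end

section

/-!
Hilbert sums of isometric representations; property (T) from the averaging theorem.
-/

open scoped RealInnerProductSpace Topology ENNReal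
open Filter

namespace Pool.Agent.P.MP_d483fb_an.Z.TZ

section Sum

variable {G : Type*} [Group G] {ι : Type*} {H : ι → Type*} [∀ i, NormedAddCommGroup (H i)]
  [∀ i, InnerProductSpace ℝ (H i)]

theorem mem_sum (π : ∀ i, G →* (H i →L[ℝ] H i)) (hπ : ∀ i g v, ‖π i g v‖ = ‖v‖) (g : G)
    (x : lp H 2) : Memℓp (fun i => π i g (x i)) 2 := by
  have h := (memℓp_gen_iff (p := 2) (by norm_num)).mp (lp.memℓp x)
  exact memℓp_gen (by simpa only [hπ] using h)

/-- The componentwise action as a linear map. -/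
noncomputable def sumL (π : ∀ i, G →* (H i →L[ℝ] H i)) (hπ : ∀ i g v, ‖π i g v‖ = ‖v‖) (g : G) :
    lp H 2 →ₗ[ℝ] lp H 2 where
  toFun x := ⟨fun i => π i g (x i), mem_sum π hπ g x⟩
  map_add' x y := by
    ext i
    show π i g ((x + y) i) = π i g (x i) + π i g (y i)
    rw [lp.coeFn_add, Pi.add_apply, map_add]
  map_smul' c x := by
    ext i
    show π i g ((c • x) i) = c • π i g (x i)
    rw [lp.coeFn_smul, Pi.smul_apply, map_smul]

theorem norm_sumL (π : ∀ i, G →* (H i →L[ℝ] H i)) (hπ : ∀ i g v, ‖π i g v‖ = ‖v‖) (g : G)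
    (x : lp H 2) : ‖sumL π hπ g x‖ = ‖x‖ := by
  rw [lp.norm_eq_tsum_rpow (by norm_num), lp.norm_eq_tsum_rpow (by norm_num)]
  congr 1
  refine tsum_congr fun i => ?_
  rw [← hπ i g (x i)]
  rfl

/-- The Hilbert sum of a family of isometric representations. -/
noncomputable def sumRep (π : ∀ i, G →* (H i →L[ℝ] H i)) (hπ : ∀ i g v, ‖π i g v‖ = ‖v‖) :
    G →* (lp H 2 →L[ℝ] lp H 2) where
  toFun g := (sumL π hπ g).mkContinuous 1 fun x => by rw [norm_sumL, one_mul]
  map_one' := by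
    ext x i
    show π i 1 (x i) = x i
    rw [map_one]
    rfl
  map_mul' g h := by
    ext x i
    exact EM.pi_mul (π i) g h (x i)

theorem sumRep_apply (π : ∀ i, G →* (H i →L[ℝ] H i)) (hπ : ∀ i g v, ‖π i g v‖ = ‖v‖) (g : G)
    (x : lp H 2) (i : ι) : sumRep π hπ g x i = π i g (x i) := rfl

theorem norm_sumRep (π : ∀ i, G →* (H i →L[ℝ] H i)) (hπ : ∀ i g v, ‖π i g v‖ = ‖v‖) (g : G)
    (x : lp H 2) : ‖sumRep π hπ g x‖ = ‖x‖ := norm_sumL π hπ g x

/-- The vectors with a continuous orbit form a closed set. -/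
theorem isClosed_cont [TopologicalSpace G] {E : Type*} [NormedAddCommGroup E] [NormedSpace ℝ E]
    (π : G →* (E →L[ℝ] E)) (hπ : ∀ g v, ‖π g v‖ = ‖v‖) :
    IsClosed {v : E | Continuous fun g => π g v} := by
  refine isClosed_of_closure_subset fun v hv => ?_
  refine continuous_of_uniform_approx_of_continuous fun U hU => ?_
  obtain ⟨ε, hε, h⟩ := Metric.mem_uniformity_dist.mp hU
  obtain ⟨w, hw, hd⟩ := Metric.mem_closure_iff.mp hv ε hε
  refine ⟨fun g => π g w, hw, fun g => h ?_⟩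
  rwa [dist_eq_norm, ← map_sub, hπ, ← dist_eq_norm]

theorem continuous_sumRep [TopologicalSpace G] (π : ∀ i, G →* (H i →L[ℝ] H i))
    (hπ : ∀ i g v, ‖π i g v‖ = ‖v‖) (hc : ∀ i v, Continuous fun g => π i g v) (x : lp H 2) :
    Continuous fun g => sumRep π hπ g x := by
  classical
  refine (isClosed_cont _ (norm_sumRep π hπ)).mem_of_tendsto
    (lp.hasSum_single (p := 2) (by norm_num) x) (Eventually.of_forall fun s => ?_)
  show Continuous fun g => sumRep π hπ g (∑ i ∈ s, lp.single 2 i (x i))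
  simp only [map_sum]
  refine continuous_finsetSum _ fun i _ => ?_
  have : ∀ g, sumRep π hπ g (lp.single 2 i (x i)) = lp.single 2 i (π i g (x i)) := by
    intro g
    ext j
    rw [sumRep_apply]
    by_cases hj : j = i
    · subst hj
      simp
    · rw [lp.single_apply_ne _ _ _ hj, lp.single_apply_ne _ _ _ hj, map_zero]
  simp only [this]
  exact (lp.isometry_single (E := H) (p := 2) i).continuous.comp (hc i _)

end Sum

/-- The conclusion of the averaging theorem, for all representations. -/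
def AppT {G : Type} [Group G] [TopologicalSpace G] (sz : G → ℝ) : Prop :=
  ∀ (H : Type) [NormedAddCommGroup H] [InnerProductSpace ℝ H] [CompleteSpace H]
    (π : G →* (H →L[ℝ] H)), ST.Grow sz π → ∀ ξ : H, ∃ ζ, (∀ g, π g ζ = ζ) ∧ ST.App sz π ξ ζ

theorem grow_of_norm {G : Type*} [Group G] [TopologicalSpace G] {E : Type*}
    [NormedAddCommGroup E] [NormedSpace ℝ E] {sz : G → ℝ} (h1 : ∀ g, 1 ≤ sz g)
    {π : G →* (E →L[ℝ] E)} (hπ : ∀ g v, ‖π g v‖ = ‖v‖) (hc : ∀ v, Continuous fun g => π g v) :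
    ST.Grow sz π :=
  ⟨hc, fun ε hε => ⟨1, fun g => by
    rw [one_mul]
    refine (ContinuousLinearMap.opNorm_le_bound _ zero_le_one fun v => by
      rw [hπ, one_mul]).trans (Real.one_le_rpow (h1 g) hε.le)⟩⟩

theorem kazG_of_appT {G : Type} [Group G] [TopologicalSpace G] {sz : G → ℝ} (h1 : ∀ g, 1 ≤ sz g)
    (hcpt : ∀ R : ℝ, ∃ Q : Set G, IsCompact Q ∧ ∀ g, sz g ≤ R → g ∈ Q) (hA : AppT sz) :
    KazG G := by
  by_contra hK
  unfold KazG at hK
  push Not at hK
  choose Q hQ hQ' using hcpt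
  have hK' := fun n : ℕ => hK (Q (Real.exp n)) (hQ _) (1 / 2) (by norm_num)
  choose H i1 i2 i3 π hπ hc h0 v hv hv0 using hK'
  have hpos : ∀ n, 0 < ‖v n‖ := fun n => norm_pos_iff.mpr (hv0 n)
  let u : ∀ n, H n := fun n => (((n : ℝ) + 1)⁻¹ * ‖v n‖⁻¹) • v n
  have hu : ∀ n, ‖u n‖ = ((n : ℝ) + 1)⁻¹ := by
    intro n
    have := hpos n
    simp only [u]
    rw [norm_smul, Real.norm_of_nonneg (by positivity), mul_assoc, inv_mul_cancel₀ this.ne',
      mul_one]
  have hm : Memℓp u 2 := by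
    refine memℓp_gen ?_
    simp only [hu]
    have := (summable_nat_add_iff 1).mpr (Real.summable_nat_pow_inv.mpr (by norm_num : 1 < 2))
    refine this.congr fun n => ?_
    simp
  let ξ : lp H 2 := ⟨u, hm⟩
  obtain ⟨ζ, hζ, F, ⟨κ, hκ, C, hF⟩, hR⟩ := hA (lp H 2) (sumRep π hπ)
    (grow_of_norm h1 (norm_sumRep π hπ) (continuous_sumRep π hπ hc)) ξ
  have hz : ζ = 0 := by
    ext n
    exact h0 n _ fun g => congrFun (congrArg Subtype.val (hζ g)) n
  have ht : Tendsto (fun n : ℕ => Real.exp n) atTop atTop :=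
    Real.tendsto_exp_atTop.comp tendsto_natCast_atTop_atTop
  have hlim : Tendsto (fun n : ℕ => 2 * C * (((n : ℝ) + 1) * Real.exp (-κ * n))) atTop (𝓝 0) := by
    have a1 := (tendsto_rpow_mul_exp_neg_mul_atTop_nhds_zero 1 κ hκ).comp
      (tendsto_natCast_atTop_atTop (R := ℝ))
    have a2 := (tendsto_rpow_mul_exp_neg_mul_atTop_nhds_zero 0 κ hκ).comp
      (tendsto_natCast_atTop_atTop (R := ℝ))
    have a3 := (a1.add a2).const_mul (2 * C)
    simp only [add_zero, mul_zero] at a3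
    refine a3.congr fun n => ?_
    simp only [Function.comp, Real.rpow_one, Real.rpow_zero]
    ring
  obtain ⟨n, hn1, ⟨η, hη, hn2⟩, hn3⟩ := ((ht.eventually hF).and ((ht.eventually hR).and
    (hlim.eventually (gt_mem_nhds one_pos)))).exists
  have hconv : Convex ℝ {x : lp H 2 | ‖x n - u n‖ ≤ ‖u n‖ / 2} := by
    have := (convex_closedBall (u n) (‖u n‖ / 2)).linear_preimage
      (lp.evalCLM ℝ H 2 n).toLinearMap
    have e : {x : lp H 2 | ‖x n - u n‖ ≤ ‖u n‖ / 2} = (lp.evalCLM ℝ H 2 n).toLinearMap ⁻¹'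
        Metric.closedBall (u n) (‖u n‖ / 2) := by
      ext x
      simp only [Set.mem_preimage, mem_closedBall_iff_norm, Set.mem_ofPred_eq]
      rfl
    rw [e]
    exact this
  have hsub : η ∈ {x : lp H 2 | ‖x n - u n‖ ≤ ‖u n‖ / 2} := by
    refine convexHull_min ?_ hconv hη
    rintro x ⟨g, hg, rfl⟩
    show ‖π n g (u n) - u n‖ ≤ ‖u n‖ / 2
    have := hv n g (hQ' _ g hg)
    simp only [u]
    rw [map_smul, ← smul_sub, norm_smul, norm_smul]
    nlinarith [norm_nonneg (((n : ℝ) + 1)⁻¹ * ‖v n‖⁻¹)]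
  have b1 : ‖u n‖ / 2 ≤ ‖η n‖ := by
    have : ‖u n‖ ≤ ‖η n‖ + ‖η n - u n‖ := by
      simpa using norm_sub_le (η n) (η n - u n)
    have h2 : ‖η n - u n‖ ≤ ‖u n‖ / 2 := hsub
    linarith
  have b2 : ‖η n‖ ≤ C * Real.exp (-κ * n) := by
    refine (lp.norm_apply_le_norm (by norm_num) η n).trans ?_
    rw [hz, zero_sub, norm_neg] at hn2
    refine hn2.trans (hn1.trans_eq ?_)
    rw [← Real.exp_mul, mul_comm (n : ℝ)]
  rw [hu] at b1
  have hn : (0 : ℝ) < (n : ℝ) + 1 := by positivity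
  have b3 := mul_le_mul_of_nonneg_left (b1.trans b2) hn.le
  rw [← mul_div_assoc, mul_inv_cancel₀ hn.ne'] at b3
  nlinarith

end Pool.Agent.P.MP_d483fb_an.Z.TZ


end

section

/-!
Induction of an isometric representation along a measurable cocycle, and property (T) for the
target group.
-/

open scoped RealInnerProductSpace Topology ENNReal
open Filter MeasureTheory Set

set_option linter.unusedSectionVars false

noncomputable section

namespace Pool.Agent.P.MP_d483fb_an.Z.TZ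

section Res

variable {G : Type*} [Group G] {E : Type*} [NormedAddCommGroup E] [NormedSpace ℝ E]

/-- The restriction of a representation to an invariant subspace. -/
def res (π : G →* (E →L[ℝ] E)) (W : Submodule ℝ E) (hW : ∀ g, ∀ v ∈ W, π g v ∈ W) :
    G →* (W →L[ℝ] W) where
  toFun g := ((π g).comp W.subtypeL).codRestrict _ fun v => hW g v v.2
  map_one' := by
    ext v
    show π 1 v = v
    rw [map_one]
    rfl
  map_mul' g h := by
    ext v
    show π (g * h) v = π g (π h v)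
    rw [map_mul]
    rfl

/-- The vectors with a continuous orbit. -/
def cts [TopologicalSpace G] (π : G →* (E →L[ℝ] E)) : Submodule ℝ E where
  carrier := {v | Continuous fun g => π g v}
  add_mem' ha hb := by
    simp only [mem_ofPred_eq, map_add]
    exact ha.add hb
  zero_mem' := by
    simp only [mem_ofPred_eq, map_zero]
    exact continuous_const
  smul_mem' c v hv := by
    simp only [mem_ofPred_eq, map_smul]
    exact hv.const_smul c

theorem cts_inv [TopologicalSpace G] [IsTopologicalGroup G] (π : G →* (E →L[ℝ] E)) (g : G)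
    (v : E) (hv : v ∈ cts π) : π g v ∈ cts π := by
  have h : Continuous fun h => π (h * g) v := Continuous.comp hv (continuous_mul_const g)
  refine h.congr fun h => ?_
  rw [map_mul]
  rfl

theorem mem_cts [TopologicalSpace G] [IsTopologicalGroup G] {π : G →* (E →L[ℝ] E)}
    (hπ : ∀ g v, ‖π g v‖ = ‖v‖) {v : E}
    (hv : Tendsto (fun g => ‖π g v - v‖) (𝓝 1) (𝓝 0)) : v ∈ cts π := by
  refine continuous_iff_continuousAt.mpr fun g₀ => ?_
  rw [ContinuousAt, tendsto_iff_norm_sub_tendsto_zero]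
  have h : Tendsto (fun g => g₀⁻¹ * g) (𝓝 g₀) (𝓝 1) := by
    simpa using (continuous_const_mul g₀⁻¹).tendsto g₀
  refine (hv.comp h).congr fun g => ?_
  show ‖π (g₀⁻¹ * g) v - v‖ = _
  rw [← hπ g₀, map_sub, ← mul_apply_eq_comp, ← map_mul, mul_inv_cancel_left]

end Res

/-- Property (T) applies to the continuous vectors of any isometric representation. -/
theorem KazG.cts {G : Type} [Group G] [TopologicalSpace G] [IsTopologicalGroup G] (hK : KazG G) :
    ∃ Q : Set G, IsCompact Q ∧ ∃ ε : ℝ, 0 < ε ∧ ∀ (H : Type) [NormedAddCommGroup H]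
      [InnerProductSpace ℝ H] [CompleteSpace H] (π : G →* (H →L[ℝ] H)),
      (∀ g v, ‖π g v‖ = ‖v‖) → (∀ w, (∀ g, π g w = w) → w = 0) →
      ∀ v : H, Tendsto (fun g => ‖π g v - v‖) (𝓝 1) (𝓝 0) →
        (∀ g ∈ Q, ‖π g v - v‖ ≤ ε * ‖v‖) → v = 0 := by
  obtain ⟨Q, hQ, ε, hε, h⟩ := hK
  refine ⟨Q, hQ, ε, hε, fun H _ _ _ π hπ h0 v hv hs => ?_⟩
  have : CompleteSpace (TZ.cts π) := (isClosed_cont π hπ).completeSpace_coe
  have := h (TZ.cts π) (res π _ (cts_inv π)) (fun g v => hπ g v)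
    (fun v => continuous_induced_rng.mpr v.2)
    (fun w hw => Subtype.ext (h0 w fun g => congrArg Subtype.val (hw g))) ⟨v, mem_cts hπ hv⟩ hs
  exact congrArg Subtype.val this

variable {G Γ B : Type} [Group G] [Group Γ] [MulAction G B] [MeasurableSpace B]
  [MeasurableSpace G] [MeasurableSpace Γ] [DiscreteMeasurableSpace Γ] [Countable Γ]
  {H : Type} [NormedAddCommGroup H] [InnerProductSpace ℝ H]

theorem sm_twist {X : Type*} [MeasurableSpace X] (π : Γ →* (H →L[ℝ] H)) {κ : X → Γ}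
    (hκ : Measurable κ) {φ : X → H} (hφ : StronglyMeasurable φ) :
    StronglyMeasurable fun x => π (κ x) (φ x) := by
  let _ : TopologicalSpace Γ := ⊥
  have : DiscreteTopology Γ := ⟨rfl⟩
  have : OpensMeasurableSpace Γ := ⟨fun _ _ => MeasurableSet.of_discrete⟩
  have hc : Continuous fun p : Γ × H => π p.1 p.2 :=
    continuous_prod_of_discrete_left.mpr fun a => (π a).continuous
  exact hc.comp_stronglyMeasurable (hκ.stronglyMeasurable.prodMk hφ)

/-- A measurable cocycle with values in a countable group. -/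
structure Cc (G Γ B : Type) [Group G] [Group Γ] [MulAction G B] [MeasurableSpace B]
    [MeasurableSpace G] [MeasurableSpace Γ] where
  c : G → B → Γ
  mul : ∀ g h b, c (g * h) b = c g (h • b) * c h b
  meas : Measurable fun p : G × B => c p.1 p.2

namespace Cc

variable (C : Cc G Γ B) (μ : Measure B) [MeasurableSMul₂ G B] [SMulInvariantMeasure G B μ]
  (π : Γ →* (H →L[ℝ] H)) (hπ : ∀ g v, ‖π g v‖ = ‖v‖)

theorem one (b : B) : C.c 1 b = 1 := by
  have := C.mul 1 1 b
  rwa [one_mul, one_smul, left_eq_mul] at this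

theorem meas1 (g : G) : Measurable (C.c g) := C.meas.comp measurable_prodMk_left

/-- The twisted translate of a function. -/
def tw (g : G) (φ : B → H) : B → H := fun b => π (C.c g (g⁻¹ • b)) (φ (g⁻¹ • b))

theorem tw_congr (g : G) {φ ψ : B → H} (h : φ =ᵐ[μ] ψ) : C.tw π g φ =ᵐ[μ] C.tw π g ψ := by
  filter_upwards [(measurePreserving_smul g⁻¹ μ).quasiMeasurePreserving.ae_eq_comp h] with b hb
  exact congrArg _ hb

include hπ in
theorem eLpNorm_tw (g : G) {φ : B → H} (hφ : AEStronglyMeasurable φ μ) :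
    eLpNorm (C.tw π g φ) 2 μ = eLpNorm φ 2 μ := by
  rw [← eLpNorm_comp_measurePreserving hφ (measurePreserving_smul g⁻¹ μ)]
  exact eLpNorm_congr_norm_ae (Eventually.of_forall fun b => hπ _ _)

theorem aesm_tw (g : G) {φ : B → H} (hφ : AEStronglyMeasurable φ μ) :
    AEStronglyMeasurable (C.tw π g φ) μ :=
  (sm_twist π ((C.meas1 g).comp (measurable_const_smul g⁻¹))
    (hφ.stronglyMeasurable_mk.comp_measurable (measurable_const_smul g⁻¹))).aestronglyMeasurable.congr
    (C.tw_congr μ π g hφ.ae_eq_mk).symm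

include hπ in
theorem memLp_tw (g : G) (φ : Lp H 2 μ) : MemLp (C.tw π g φ) 2 μ :=
  ⟨C.aesm_tw μ π g (Lp.aestronglyMeasurable φ), by
    rw [C.eLpNorm_tw μ π hπ g (Lp.aestronglyMeasurable φ)]
    exact (Lp.memLp φ).2⟩

/-- The induced action as a linear map. -/
def indL (g : G) : Lp H 2 μ →ₗ[ℝ] Lp H 2 μ where
  toFun φ := (C.memLp_tw μ π hπ g φ).toLp _
  map_add' φ ψ := by
    rw [← MemLp.toLp_add]
    refine MemLp.toLp_congr _ _ ((C.tw_congr μ π g (Lp.coeFn_add φ ψ)).trans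
      (Eventually.of_forall fun b => ?_))
    simp [tw]
  map_smul' a φ := by
    rw [← MemLp.toLp_const_smul]
    refine MemLp.toLp_congr _ _ ((C.tw_congr μ π g (Lp.coeFn_smul a φ)).trans
      (Eventually.of_forall fun b => ?_))
    simp [tw]

theorem indL_ae (g : G) (φ : Lp H 2 μ) : C.indL μ π hπ g φ =ᵐ[μ] C.tw π g φ :=
  (C.memLp_tw μ π hπ g φ).coeFn_toLp

theorem norm_indL (g : G) (φ : Lp H 2 μ) : ‖C.indL μ π hπ g φ‖ = ‖φ‖ := by
  rw [Lp.norm_def, Lp.norm_def, eLpNorm_congr_ae (C.indL_ae μ π hπ g φ),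
    C.eLpNorm_tw μ π hπ g (Lp.aestronglyMeasurable φ)]

/-- The induced representation. -/
def ind : G →* (Lp H 2 μ →L[ℝ] Lp H 2 μ) where
  toFun g := (C.indL μ π hπ g).mkContinuous 1 fun φ => by rw [norm_indL, one_mul]
  map_one' := by
    ext φ
    refine (C.indL_ae μ π hπ 1 φ).trans (Eventually.of_forall fun b => ?_)
    simp [tw, C.one]
  map_mul' g h := by
    ext φ
    refine (C.indL_ae μ π hπ (g * h) φ).trans (EventuallyEq.symm ?_)
    refine (C.indL_ae μ π hπ g _).trans ((C.tw_congr μ π g (C.indL_ae μ π hπ h φ)).trans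
      (Eventually.of_forall fun b => ?_))
    simp [tw, C.mul, mul_smul]

theorem ind_ae (g : G) (φ : Lp H 2 μ) : C.ind μ π hπ g φ =ᵐ[μ] C.tw π g φ := C.indL_ae μ π hπ g φ

theorem norm_ind (g : G) (φ : Lp H 2 μ) : ‖C.ind μ π hπ g φ‖ = ‖φ‖ := C.norm_indL μ π hπ g φ

/-- Invariant vectors of the induced representation take invariant values. -/
theorem ind_inv [SFinite μ] [MeasurableMul G] (ν : Measure G) [SFinite ν]
    [ν.IsMulRightInvariant] (hν : ν ≠ 0) (hst : ∀ b δ, ∃ k : G, k • b = b ∧ C.c k b = δ)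
    (ζ : Lp H 2 μ) (hζ : ∀ g, C.ind μ π hπ g ζ = ζ) : ∀ᵐ b ∂μ, ∀ δ, π δ (ζ b) = ζ b := by
  have h1 : ∀ g : G, ∀ᵐ b ∂μ, π (C.c g b) (ζ b) = ζ (g • b) := by
    intro g
    have h := (C.ind_ae μ π hπ g ζ).symm
    rw [hζ g] at h
    filter_upwards [(measurePreserving_smul g μ).quasiMeasurePreserving.ae_eq_comp h] with b hb
    simpa [tw] using hb
  have hm : MeasurableSet {p : G × B | π (C.c p.1 p.2) (ζ p.2) = ζ (p.1 • p.2)} :=
    (sm_twist π C.meas ((Lp.stronglyMeasurable ζ).comp_measurable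
      measurable_snd)).measurableSet_eq_fun
      ((Lp.stronglyMeasurable ζ).comp_measurable (measurable_fst.smul measurable_snd))
  have h2 := (Measure.ae_ae_comm (μ := ν) (ν := μ)
    (p := fun g b => π (C.c g b) (ζ b) = ζ (g • b)) hm).mp (Eventually.of_forall h1)
  filter_upwards [h2] with b hb δ
  obtain ⟨k, hk, rfl⟩ := hst b δ
  have : (ae ν).NeBot := ae_neBot.mpr hν
  obtain ⟨g, e1, e2⟩ := (hb.and
    ((measurePreserving_mul_right ν k).quasiMeasurePreserving.ae hb)).exists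
  rw [C.mul, mul_smul, hk, EM.pi_mul, ← e1, ← sub_eq_zero, ← map_sub, ← norm_eq_zero, hπ,
    norm_eq_zero, sub_eq_zero] at e2
  exact e2

/-- The displacement of a constant function. -/
theorem norm_ind_const [IsProbabilityMeasure μ] (g : G) (v : H) (S : Set Γ) {δ : ℝ} (hδ : 0 ≤ δ)
    (hS : ∀ s ∈ S, ‖π s v - v‖ ≤ δ) :
    ‖C.ind μ π hπ g (Lp.const 2 μ v) - Lp.const 2 μ v‖ ≤
      δ + 2 * ‖v‖ * √(μ.real {b | C.c g b ∉ S}) := by
  set U : Set B := (fun b => g⁻¹ • b) ⁻¹' {b | C.c g b ∉ S} with hU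
  have hm : MeasurableSet {b | C.c g b ∉ S} := C.meas1 g (MeasurableSet.of_discrete (s := Sᶜ))
  have hUm : MeasurableSet U := measurable_const_smul g⁻¹ hm
  have hμU : μ.real U = μ.real {b | C.c g b ∉ S} :=
    (measurePreserving_smul g⁻¹ μ).measureReal_preimage hm.nullMeasurableSet
  let F : Lp ℝ 2 μ := Lp.const 2 μ δ + indicatorConstLp 2 hUm (measure_ne_top μ U) (2 * ‖v‖)
  have hle : ‖C.ind μ π hπ g (Lp.const 2 μ v) - Lp.const 2 μ v‖ ≤ ‖F‖ := by
    refine Lp.norm_le_norm_of_ae_le ?_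
    filter_upwards [Lp.coeFn_sub (C.ind μ π hπ g (Lp.const 2 μ v)) (Lp.const 2 μ v),
      C.ind_ae μ π hπ g (Lp.const 2 μ v), C.tw_congr μ π g (Lp.coeFn_const 2 μ v),
      Lp.coeFn_const 2 μ v, Lp.coeFn_const 2 μ δ,
      Lp.coeFn_add (Lp.const 2 μ δ) (indicatorConstLp 2 hUm (measure_ne_top μ U) (2 * ‖v‖)),
      indicatorConstLp_coeFn (p := 2) (hs := hUm) (hμs := measure_ne_top μ U) (c := 2 * ‖v‖)]
      with b e1 e2 e3 e4 e5 e6 e7
    rw [e1, Pi.sub_apply, e2, e3, e4, e6, Pi.add_apply, e5, e7]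
    refine le_trans ?_ (le_abs_self _)
    show ‖π (C.c g (g⁻¹ • b)) v - v‖ ≤ δ + _
    by_cases hb : b ∈ U
    · rw [indicator_of_mem hb]
      have := norm_sub_le (π (C.c g (g⁻¹ • b)) v) v
      rw [hπ] at this
      linarith
    · rw [indicator_of_notMem hb, add_zero]
      exact hS _ (not_not.mp hb)
  refine hle.trans ((norm_add_le _ _).trans (add_le_add ?_ ?_))
  · rw [Lp.norm_const' _ _ _ (by norm_num) (by norm_num)]
    simp [abs_of_nonneg hδ]
  · rw [norm_indicatorConstLp (by norm_num) (by norm_num), hμU, Real.sqrt_eq_rpow,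
      Real.norm_of_nonneg (by positivity)]
    simp

end Cc

/-- Property (T) passes from `G` to the target of a tight cocycle. -/
theorem Cc.hasT [TopologicalSpace G] [IsTopologicalGroup G] [MeasurableMul G] (hK : KazG G)
    (C : Cc G Γ B) (μ : Measure B) [MeasurableSMul₂ G B] [SMulInvariantMeasure G B μ]
    [IsProbabilityMeasure μ] (ν : Measure G) [SFinite ν] [ν.IsMulRightInvariant] (hν : ν ≠ 0)
    (hst : ∀ b δ, ∃ k : G, k • b = b ∧ C.c k b = δ)
    (h1 : Tendsto (fun g => μ.real {b | C.c g b ≠ 1}) (𝓝 1) (𝓝 0))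
    (ht : ∀ Q : Set G, IsCompact Q → ∀ η : ℝ, 0 < η →
      ∃ S : Finset Γ, ∀ g ∈ Q, μ.real {b | C.c g b ∉ S} ≤ η) : HasT Γ := by
  obtain ⟨Q, hQ, ε, hε, h⟩ := hK.cts
  obtain ⟨S, hS⟩ := ht Q hQ ((ε / 4) ^ 2) (by positivity)
  refine hasT_of_gap S (half_pos hε) fun H _ _ _ π hπ h0 v hv => ?_
  have hn : ‖Lp.const 2 μ v‖ = ‖v‖ := by
    rw [Lp.norm_const' _ _ _ (by norm_num) (by norm_num)]
    simp
  have := h (Lp H 2 μ) (C.ind μ π hπ) (C.norm_ind μ π hπ) (fun ζ hζ => ?_) (Lp.const 2 μ v) ?_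
    fun g hg => ?_
  · rwa [← norm_eq_zero, hn, norm_eq_zero] at this
  · refine Lp.eq_zero_iff_ae_eq_zero.mpr ?_
    filter_upwards [C.ind_inv μ π hπ ν hν hst ζ hζ] with b hb
    exact h0 _ hb
  · have h2 := (Real.continuous_sqrt.tendsto 0).comp h1
    have h3 := h2.const_mul (2 * ‖v‖)
    rw [Real.sqrt_zero, mul_zero] at h3
    refine squeeze_zero (fun _ => norm_nonneg _) (fun g => ?_) h3
    simpa using C.norm_ind_const μ π hπ g v {1} le_rfl (by simp)
  · refine (C.norm_ind_const μ π hπ g v S (δ := ε / 2 * ‖v‖) (by positivity) hv).trans ?_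
    have h2 : √(μ.real {b | C.c g b ∉ (S : Set Γ)}) ≤ ε / 4 :=
      Real.sqrt_le_iff.mpr ⟨by positivity, hS g hg⟩
    rw [hn]
    nlinarith [norm_nonneg v]

end Pool.Agent.P.MP_d483fb_an.Z.TZ

end

end

section

/-!
Property (T) passes to lattices.
-/

open scoped Topology ENNReal Pointwise
open Filter MeasureTheory Set

set_option linter.unusedSectionVars false

noncomputable section

namespace Pool.Agent.P.MP_d483fb_an.Z.TZ

variable {G : Type} [Group G] [TopologicalSpace G] [IsTopologicalGroup G]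
  [SecondCountableTopology G] (Γ : Subgroup G) [DiscreteTopology Γ]

theorem exists_cover : ∃ O : ℕ → Set G, (∀ i, IsOpen (O i)) ∧
    (∀ i, InjOn (QuotientGroup.mk : G → G ⧸ Γ) (O i)) ∧ ∀ g, ∃ i, g ∈ O i := by
  have h : {(1 : Γ)} ∈ 𝓝 (1 : Γ) := (isOpen_discrete _).mem_nhds rfl
  rw [nhds_subtype, mem_comap] at h
  obtain ⟨W, hW, h1⟩ := h
  have hx : ∀ x : G, ∃ P : Set G, IsOpen P ∧ x ∈ P ∧ ∀ p ∈ P, ∀ q ∈ P, p⁻¹ * q ∈ W := by
    intro x
    have hc : Tendsto (fun p : G × G => p.1⁻¹ * p.2) (𝓝 (x, x)) (𝓝 1) := by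
      have : Continuous fun p : G × G => p.1⁻¹ * p.2 := by fun_prop
      simpa using this.tendsto (x, x)
    obtain ⟨U, hU, V, hV, h⟩ := mem_nhds_prod_iff.mp (hc hW)
    obtain ⟨P, hP, ho, hxP⟩ := mem_nhds_iff.mp (inter_mem hU hV)
    exact ⟨P, ho, hxP, fun p hp q hq => h (mk_mem_prod (hP hp).1 (hP hq).2)⟩
  choose P hP hxP hPW using hx
  obtain ⟨s, hs, hcov⟩ := TopologicalSpace.countable_cover_nhds fun x => (hP x).mem_nhds (hxP x)
  have hne : s.Nonempty := by
    obtain ⟨x, hx, -⟩ := mem_iUnion₂.mp (hcov ▸ mem_univ (1 : G))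
    exact ⟨x, hx⟩
  obtain ⟨f, rfl⟩ := hs.exists_eq_range hne
  refine ⟨fun i => P (f i), fun i => hP _, fun i p hp q hq hpq => ?_, fun g => ?_⟩
  · have := h1 (show (⟨p⁻¹ * q, QuotientGroup.eq.mp hpq⟩ : Γ) ∈ _ from hPW _ p hp q hq)
    exact inv_mul_eq_one.mp (congrArg Subtype.val this)
  · obtain ⟨_, ⟨i, rfl⟩, hg⟩ := mem_iUnion₂.mp (hcov ▸ mem_univ g)
    exact ⟨i, hg⟩

variable [MeasurableSpace G] [BorelSpace G] [MeasurableSpace (G ⧸ Γ)] [BorelSpace (G ⧸ Γ)]

/-- A Borel section that is continuous in measure under translations. -/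
theorem exists_section (μ : Measure (G ⧸ Γ)) [IsFiniteMeasure μ]
    [SMulInvariantMeasure G (G ⧸ Γ) μ] : ∃ σ : G ⧸ Γ → G, Measurable σ ∧
      (∀ b, (σ b : G ⧸ Γ) = b) ∧
      Tendsto (fun g : G => μ.real {b | σ (g • b) ≠ g * σ b}) (𝓝 1) (𝓝 0) := by
  classical
  obtain ⟨O, hO, hinj, hcov⟩ := exists_cover Γ
  have hb : ∀ b : G ⧸ Γ, ∃ i, b ∈ QuotientGroup.mk '' O i := by
    intro b
    obtain ⟨g, rfl⟩ := QuotientGroup.mk_surjective b
    obtain ⟨i, hi⟩ := hcov g
    exact ⟨i, g, hi, rfl⟩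
  let idx : G ⧸ Γ → ℕ := fun b => Nat.find (hb b)
  have hidx : Measurable idx :=
    measurable_find hb fun k => (QuotientGroup.isOpenMap_coe _ (hO k)).measurableSet
  choose σ h1 h2 using fun b => Nat.find_spec (hb b)
  have hσ : Measurable σ := by
    refine measurable_of_isOpen fun U hU => ?_
    have : σ ⁻¹' U = ⋃ i, idx ⁻¹' {i} ∩ QuotientGroup.mk '' (U ∩ O i) := by
      ext b
      simp only [mem_preimage, mem_iUnion, mem_inter_iff, mem_singleton_iff]
      constructor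
      · exact fun h => ⟨idx b, rfl, σ b, ⟨h, h1 b⟩, h2 b⟩
      · rintro ⟨_, rfl, g, ⟨hg, hg'⟩, e⟩
        rwa [hinj _ (h1 b) hg' ((h2 b).trans e.symm)]
    rw [this]
    exact MeasurableSet.iUnion fun i => (hidx (measurableSet_singleton i)).inter
      (QuotientGroup.isOpenMap_coe _ (hU.inter (hO i))).measurableSet
  refine ⟨σ, hσ, h2, ?_⟩
  let Bad : G → Set (G ⧸ Γ) := fun g => {b | g * σ b ∉ O (idx b)}
  have hm : MeasurableSet {p : G × ℕ | p.1 ∈ O p.2} := by
    have : {p : G × ℕ | p.1 ∈ O p.2} = ⋃ i, O i ×ˢ {i} := by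
      ext p
      simp
    rw [this]
    exact MeasurableSet.iUnion fun i => (hO i).measurableSet.prod (measurableSet_singleton i)
  have hBad : ∀ g, MeasurableSet (Bad g) := fun g => ((hσ.const_mul g).prodMk hidx hm).compl
  have hlim : Tendsto (fun g => μ.real (Bad g)) (𝓝 1) (𝓝 0) := by
    have := tendsto_measure_of_ae_tendsto_indicator_of_isFiniteMeasure (𝓝 (1 : G)) (μ := μ)
      MeasurableSet.empty hBad (Eventually.of_forall fun b => ?_)
    · rw [measure_empty] at this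
      exact (ENNReal.tendsto_toReal ENNReal.zero_ne_top).comp this
    · have hc : Tendsto (fun g : G => g * σ b) (𝓝 1) (𝓝 (σ b)) := by
        simpa using (continuous_mul_const (σ b)).tendsto 1
      filter_upwards [hc.eventually ((hO _).mem_nhds (h1 b))] with g hg
      exact iff_of_false (fun h => h hg) (notMem_empty b)
  have hinv : Tendsto (fun g : G => g⁻¹) (𝓝 1) (𝓝 1) := by simpa using continuous_inv.tendsto (1 : G)
  have hmk : ∀ (g : G) b, ((g * σ b : G) : G ⧸ Γ) = g • b := by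
    intro g b
    conv_rhs => rw [← h2 b]
    rfl
  refine squeeze_zero (fun _ => measureReal_nonneg) (fun g => ?_)
    (by simpa using hlim.add (hlim.comp hinv))
  rw [← (measurePreserving_smul g μ).measureReal_preimage (hBad g⁻¹).nullMeasurableSet]
  refine le_trans (measureReal_mono fun b hb' => ?_) (measureReal_union_le _ _)
  by_contra hc
  have a1 : g * σ b ∈ O (idx b) := not_not.mp fun h => hc (Or.inl h)
  have a2 : g⁻¹ * σ (g • b) ∈ O (idx (g • b)) := not_not.mp fun h => hc (Or.inr h)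
  have e : idx (g • b) = idx b := le_antisymm (Nat.find_min' _ ⟨_, a1, hmk g b⟩)
    (Nat.find_min' _ ⟨_, a2, by rw [hmk, inv_smul_smul]⟩)
  refine hb' (hinj (idx b) ?_ a1 ((h2 _).trans (hmk g b).symm))
  rw [← e]
  exact h1 _

omit [MeasurableSpace G] [BorelSpace G] [MeasurableSpace (G ⧸ Γ)] [BorelSpace (G ⧸ Γ)]
  [DiscreteTopology Γ] in
/-- Property (T) passes to lattices. -/
theorem hasT_of_lattice [LocallyCompactSpace G] [T2Space G] (hK : KazG G) (hΓ : IsLattice Γ) :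
    HasT Γ := by
  obtain ⟨hd, μ, hμ, hinv⟩ := hΓ
  borelize G
  let _ : MeasurableSpace (G ⧸ Γ) := borel _
  have : BorelSpace (G ⧸ Γ) := ⟨rfl⟩
  have : Countable Γ := TopologicalSpace.separableSpace_iff_countable.mp inferInstance
  obtain ⟨σ, hσ, h2, hlim⟩ := exists_section Γ μ
  have hmk : ∀ (g : G) b, ((g * σ b : G) : G ⧸ Γ) = g • b := by
    intro g b
    conv_rhs => rw [← h2 b]
    rfl
  let C : Cc G Γ (G ⧸ Γ) :=
    { c := fun g b => ⟨(σ (g • b))⁻¹ * (g * σ b), QuotientGroup.eq.mp ((h2 _).trans (hmk g b).symm)⟩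
      mul := fun g h b => Subtype.ext (by simp [mul_smul, mul_assoc])
      meas := Measurable.subtype_mk ((hσ.comp (measurable_fst.smul measurable_snd)).inv.mul
        (measurable_fst.mul (hσ.comp measurable_snd))) }
  refine C.hasT hK μ (Measure.haar : Measure G).inv ?_ (fun b δ => ?_) ?_ fun Q hQ η hη => ?_
  · exact (Measure.map_eq_zero_iff measurable_inv.aemeasurable).not.mpr (NeZero.ne _)
  · have e : (σ b * δ * (σ b)⁻¹) • b = b := by
      rw [← hmk, inv_mul_cancel_right, QuotientGroup.mk_mul_of_mem _ δ.2, h2]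
    exact ⟨_, e, Subtype.ext (by simp [C, e])⟩
  · refine hlim.congr fun g => ?_
    congr 1
    ext b
    simp [C, Subtype.ext_iff, inv_mul_eq_one]
  · let K := CompactExhaustion.choice G
    have hm : ∀ n, MeasurableSet {b | σ b ∉ K n} := fun n =>
      (hσ (K.isCompact n).measurableSet).compl
    have ht := tendsto_measure_of_ae_tendsto_indicator_of_isFiniteMeasure atTop (μ := μ)
      MeasurableSet.empty hm (Eventually.of_forall fun b => by
        obtain ⟨n, hn⟩ := K.exists_mem (σ b)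
        filter_upwards [eventually_ge_atTop n] with m hm
        simpa using K.subset hm hn)
    rw [measure_empty] at ht
    obtain ⟨n, hn⟩ := (((ENNReal.tendsto_toReal ENNReal.zero_ne_top).comp ht).eventually
      (gt_mem_nhds (half_pos hη))).exists
    have hfin : ((↑) ⁻¹' ((K n)⁻¹ * (Q * K n)) : Set Γ).Finite :=
      ((Subgroup.isClosed_of_discrete (H := Γ)).isClosedEmbedding_subtypeVal.isCompact_preimage
        ((K.isCompact n).inv.mul (hQ.mul (K.isCompact n)))).finite_of_discrete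
    refine ⟨hfin.toFinset, fun g hg => ?_⟩
    have hn' : μ.real {b | σ b ∉ K n} < η / 2 := hn
    have e := (measurePreserving_smul g μ).measureReal_preimage (hm n).nullMeasurableSet
    refine le_trans (measureReal_mono (s₂ := {b | σ b ∉ K n} ∪ (g • ·) ⁻¹' {b | σ b ∉ K n})
      fun b hb => ?_) ((measureReal_union_le _ _).trans (by linarith))
    by_contra hc
    have a1 : σ b ∈ K n := not_not.mp fun h => hc (Or.inl h)
    have a2 : σ (g • b) ∈ K n := not_not.mp fun h => hc (Or.inr h)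
    exact hb (hfin.mem_toFinset.mpr (mul_mem_mul (inv_mem_inv.mpr a2) (mul_mem_mul hg a1)))

end Pool.Agent.P.MP_d483fb_an.Z.TZ

end

end

section

/-!
Consequences of property (T): measure preserving actions, finite generation, no additive
characters, quotients, subgroups of finite index.
-/

open scoped Topology ENNReal Pointwise RealInnerProductSpace
open Filter MeasureTheory Set

noncomputable section

namespace Pool.Agent.P.MP_d483fb_an.Z.TZ

variable {Γ : Type} [Group Γ]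

/-- Property (T) passes to quotients. -/
theorem HasT.of_surjective {Λ : Type} [Group Λ] (hT : HasT Γ) (f : Γ →* Λ)
    (hf : Function.Surjective f) : HasT Λ := by
  obtain ⟨S, ε, hε, h⟩ := hT.gap
  classical
  refine hasT_of_gap (S.image f) hε fun H _ _ _ π hπ h0 v hv => ?_
  by_contra hv0
  obtain ⟨w, hw, -, hw0⟩ := h H (π.comp f) (fun g v => hπ _ v) v hv0
    fun s hs => hv _ (Finset.mem_image_of_mem f hs)
  refine hw0 (h0 w fun g => ?_)
  obtain ⟨g, rfl⟩ := hf g
  exact hw g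

theorem HasT.of_mulEquiv {Λ : Type} [Group Λ] (hT : HasT Γ) (e : Γ ≃* Λ) : HasT Λ :=
  hT.of_surjective e.toMonoidHom e.surjective

section Koop

variable (G : Type*) [Group G] {X : Type*} [MulAction G X] [MeasurableSpace X] (μ : Measure X)
  [MeasurableConstSMul G X] [SMulInvariantMeasure G X μ] (E : Type*) [NormedAddCommGroup E]
  [NormedSpace ℝ E]

/-- The Koopman representation on vector valued `L²` functions. -/
def kp : G →* (Lp E 2 μ →L[ℝ] Lp E 2 μ) where
  toFun g := (Lp.compMeasurePreservingₗᵢ ℝ (fun x => g⁻¹ • x)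
    (measurePreserving_smul g⁻¹ μ)).toContinuousLinearMap
  map_one' := by
    ext f
    refine (Lp.coeFn_compMeasurePreserving f (measurePreserving_smul (1 : G)⁻¹ μ)).trans ?_
    refine Eventually.of_forall fun x => ?_
    simp
  map_mul' g h := by
    ext f
    refine (Lp.coeFn_compMeasurePreserving f (measurePreserving_smul (g * h)⁻¹ μ)).trans ?_
    have h1 := Lp.coeFn_compMeasurePreserving
      (Lp.compMeasurePreserving (fun x => h⁻¹ • x) (measurePreserving_smul h⁻¹ μ) f)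
      (measurePreserving_smul g⁻¹ μ)
    have h2 := (measurePreserving_smul g⁻¹ μ).quasiMeasurePreserving.ae_eq_comp
      (Lp.coeFn_compMeasurePreserving f (measurePreserving_smul h⁻¹ μ))
    refine EventuallyEq.symm ((h1.trans h2).trans (Eventually.of_forall fun x => ?_))
    simp [mul_smul]

variable {G E}

theorem kp_ae (g : G) (f : Lp E 2 μ) : kp G μ E g f =ᵐ[μ] fun x => f (g⁻¹ • x) :=
  Lp.coeFn_compMeasurePreserving f (measurePreserving_smul g⁻¹ μ)

theorem kp_norm (g : G) (f : Lp E 2 μ) : ‖kp G μ E g f‖ = ‖f‖ :=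
  Lp.norm_compMeasurePreserving f (measurePreserving_smul g⁻¹ μ)

end Koop

/-- Property (T) for measure preserving actions: an almost invariant function is close to an
invariant function. -/
theorem HasT.l2 (hT : HasT Γ) : ∃ (S : Finset Γ) (C : ℝ), 0 ≤ C ∧
    ∀ (X : Type) [MeasurableSpace X] [MulAction Γ X] [MeasurableConstSMul Γ X] (μ : Measure X)
      [SMulInvariantMeasure Γ X μ] (E : Type) [NormedAddCommGroup E] [InnerProductSpace ℝ E]
      [CompleteSpace E] (f : X → E), MemLp f 2 μ → ∃ w : X → E, StronglyMeasurable w ∧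
        MemLp w 2 μ ∧ (∀ g : Γ, (fun x => w (g • x)) =ᵐ[μ] w) ∧
        eLpNorm (fun x => f x - w x) 2 μ ≤
          ENNReal.ofReal C * ∑ s ∈ S, eLpNorm (fun x => f (s • x) - f x) 2 μ := by
  obtain ⟨S, C, hC, h⟩ := hT
  refine ⟨S, C, hC, fun X _ _ _ μ _ E _ _ _ f hf => ?_⟩
  obtain ⟨w, hw, hle⟩ := h (Lp E 2 μ) (kp Γ μ E) (kp_norm μ) (hf.toLp f)
  refine ⟨w, Lp.stronglyMeasurable w, Lp.memLp w, fun g => ?_, ?_⟩
  · have := kp_ae μ g⁻¹ w
    rw [hw, inv_inv] at this
    exact this.symm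
  · have e1 : eLpNorm (fun x => f x - w x) 2 μ = ENNReal.ofReal ‖hf.toLp f - w‖ := by
      rw [Lp.norm_def, ENNReal.ofReal_toReal (Lp.eLpNorm_ne_top _)]
      refine eLpNorm_congr_ae ?_
      filter_upwards [Lp.coeFn_sub (hf.toLp f) w, hf.coeFn_toLp] with x a1 a2
      rw [a1, Pi.sub_apply, a2]
    have e2 : ∀ s : Γ, eLpNorm (fun x => f (s • x) - f x) 2 μ =
        ENNReal.ofReal ‖kp Γ μ E s (hf.toLp f) - hf.toLp f‖ := by
      intro s
      rw [← kp_norm μ s⁻¹, map_sub, EM.pi_inv_apply, norm_sub_rev, Lp.norm_def,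
        ENNReal.ofReal_toReal (Lp.eLpNorm_ne_top _)]
      refine eLpNorm_congr_ae ?_
      filter_upwards [Lp.coeFn_sub (kp Γ μ E s⁻¹ (hf.toLp f)) (hf.toLp f), hf.coeFn_toLp,
        kp_ae μ s⁻¹ (hf.toLp f),
        (measurePreserving_smul s μ).quasiMeasurePreserving.ae_eq_comp hf.coeFn_toLp]
        with x a1 a2 a3 a4
      rw [a1, Pi.sub_apply, a2, a3, inv_inv]
      exact congrArg (· - f x) a4.symm
    simp only [e1, e2]
    rw [← ENNReal.ofReal_sum_of_nonneg fun _ _ => norm_nonneg _, ← ENNReal.ofReal_mul hC]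
    exact ENNReal.ofReal_le_ofReal hle

theorem smulInv_count {G X : Type*} [Group G] [MulAction G X] [MeasurableSpace X]
    [DiscreteMeasurableSpace X] : SMulInvariantMeasure G X Measure.count :=
  ⟨fun g s hs => by
    rw [Measure.count_apply hs, Measure.count_apply MeasurableSet.of_discrete,
      encard_preimage_of_bijective (MulAction.bijective g)]⟩

/-- A group with property (T) is finitely generated. -/
theorem HasT.fg (hT : HasT Γ) : Group.FG Γ := by
  classical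
  obtain ⟨S, C, hC, h⟩ := hT.l2
  let Λ := Subgroup.closure (S : Set Γ)
  let _ : MeasurableSpace (Γ ⧸ Λ) := ⊤
  have : DiscreteMeasurableSpace (Γ ⧸ Λ) := ⟨fun _ => trivial⟩
  have : MeasurableConstSMul Γ (Γ ⧸ Λ) := ⟨fun _ => Measurable.of_discrete⟩
  have : SMulInvariantMeasure Γ (Γ ⧸ Λ) Measure.count := smulInv_count
  let o : Γ ⧸ Λ := (1 : Γ)
  have ho : ∀ g : Γ, g • o = o ↔ g ∈ Λ := fun g => by
    rw [eq_comm]
    exact QuotientGroup.eq.trans (by simp)
  obtain ⟨w, -, -, hw, hle⟩ := h (Γ ⧸ Λ) Measure.count ℝ (indicator {o} fun _ => 1)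
    (memLp_indicator_const 2 MeasurableSet.of_discrete 1 (Or.inr (by simp)))
  have hz : ∀ s ∈ S, eLpNorm (fun x => indicator {o} (fun _ => (1 : ℝ)) (s • x) -
      indicator {o} (fun _ => (1 : ℝ)) x) 2 Measure.count = 0 := by
    intro s hs
    have hs' : s • o = o := (ho s).mpr (Subgroup.subset_closure hs)
    have : ∀ x : Γ ⧸ Λ, s • x = o ↔ x = o := fun x => by
      rw [← smul_left_cancel_iff s (x := x), hs']
    simp [indicator, this]
  rw [Finset.sum_eq_zero hz, mul_zero, nonpos_iff_eq_zero,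
    eLpNorm_eq_zero_iff Measurable.of_discrete.aestronglyMeasurable two_ne_zero] at hle
  have h1 := Measure.ae_count_iff.mp hle
  refine ⟨⟨S, top_le_iff.mp fun g _ => (ho g).mp ?_⟩⟩
  have a1 := sub_eq_zero.mp (h1 o)
  have a2 := sub_eq_zero.mp (h1 (g • o))
  have a3 : w (g • o) = w o := Measure.ae_count_iff.mp (hw g) o
  rw [a3, ← a1] at a2
  by_contra hc
  simp [indicator, hc] at a2

theorem HasT.countable (hT : HasT Γ) : Countable Γ := by
  obtain ⟨α, _, φ, hφ⟩ := Group.fg_iff_exists_freeGroup_hom_surjective_finite.mp hT.fg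
  exact hφ.countable

/-- A group with property (T) has no additive character. -/
theorem HasT.hom_eq_zero (hT : HasT Γ) (χ : Γ → ℝ) (hχ : ∀ g h, χ (g * h) = χ g + χ h) (g : Γ) :
    χ g = 0 := by
  obtain ⟨S, ε, hε, h⟩ := hT.gap
  have h1 : χ 1 = 0 := by
    have := hχ 1 1
    rw [one_mul] at this
    linarith
  have hc : ∀ s, Tendsto (fun t : ℝ => ‖Complex.exp (Complex.I * (t * χ s : ℝ)) - 1‖) (𝓝[>] 0)
      (𝓝 0) := by
    intro s
    have : Continuous fun t : ℝ => ‖Complex.exp (Complex.I * (t * χ s : ℝ)) - 1‖ := by fun_prop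
    simpa using (this.tendsto 0).mono_left nhdsWithin_le_nhds
  have ht : Tendsto (fun t : ℝ => |t * χ g|) (𝓝[>] 0) (𝓝 0) := by
    have : Continuous fun t : ℝ => |t * χ g| := by fun_prop
    simpa using (this.tendsto 0).mono_left nhdsWithin_le_nhds
  obtain ⟨t, ⟨a1, a2⟩, a3⟩ := ((((eventually_all_finset S).mpr fun s _ =>
    (hc s).eventually (ge_mem_nhds hε)).and (ht.eventually (gt_mem_nhds Real.two_pi_pos))).and
    self_mem_nhdsWithin).exists
  let π : Γ →* (ℂ →L[ℝ] ℂ) :=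
    { toFun := fun s => ContinuousLinearMap.mul ℝ ℂ (Complex.exp (Complex.I * (t * χ s : ℝ)))
      map_one' := by
        ext1 z
        simp [h1]
      map_mul' := fun a b => by
        ext1 z
        simp [hχ, mul_add, Complex.exp_add, mul_assoc] }
  have hπ : ∀ s z, π s z = Complex.exp (Complex.I * (t * χ s : ℝ)) * z := fun _ _ => rfl
  obtain ⟨w, hw, -, hw0⟩ := h ℂ π (fun s z => by
    rw [hπ, norm_mul, Complex.norm_exp_I_mul_ofReal, one_mul]) 1 one_ne_zero
    fun s hs => by simpa [hπ] using a1 s hs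
  have e := hw g
  rw [hπ, mul_left_eq_self₀, or_iff_left hw0, Complex.exp_eq_one_iff] at e
  obtain ⟨n, hn⟩ := e
  have e2 : t * χ g = n * (2 * Real.pi) := by simpa using congrArg Complex.im hn
  have hn0 : n = 0 := by
    rw [e2, abs_mul, abs_of_pos Real.two_pi_pos, mul_lt_iff_lt_one_left Real.two_pi_pos] at a2
    exact Int.abs_lt_one_iff.mp (by exact_mod_cast a2)
  rw [hn0, Int.cast_zero, zero_mul] at e2
  exact (mul_eq_zero.mp e2).resolve_left (ne_of_gt a3)

theorem HasT.kazG [TopologicalSpace Γ] (hT : HasT Γ) : KazG Γ := by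
  obtain ⟨S, ε, hε, h⟩ := hT.gap
  refine ⟨S, S.finite_toSet.isCompact, ε, hε, fun H _ _ _ π hπ _ h0 v hv => ?_⟩
  by_contra hv0
  obtain ⟨w, hw, -, hw0⟩ := h H π hπ v hv0 hv
  exact hw0 (h0 w hw)

/-- Property (T) passes to subgroups of finite index. -/
theorem HasT.of_finiteIndex (hT : HasT Γ) (Λ : Subgroup Γ) [Λ.FiniteIndex] : HasT Λ := by
  let _ : TopologicalSpace Γ := ⊥
  have : DiscreteTopology Γ := ⟨rfl⟩
  have := hT.countable
  refine hasT_of_lattice Λ hT.kazG ⟨inferInstance, ?_⟩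
  let _ : MeasurableSpace (Γ ⧸ Λ) := borel _
  have : BorelSpace (Γ ⧸ Λ) := ⟨rfl⟩
  have : DiscreteTopology (Γ ⧸ Λ) := QuotientGroup.discreteTopology (isOpen_discrete _)
  have : Finite (Γ ⧸ Λ) := Subgroup.finite_quotient_of_finiteIndex
  have : SMulInvariantMeasure Γ (Γ ⧸ Λ) Measure.count := smulInv_count
  refine ⟨(Measure.count (univ : Set (Γ ⧸ Λ)))⁻¹ • Measure.count, ⟨?_⟩, inferInstance⟩
  rw [Measure.smul_apply, smul_eq_mul]
  exact ENNReal.inv_mul_cancel (Measure.count_ne_zero_iff.mpr univ_nonempty) (measure_ne_top _ _)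

/-- The form used in the last step. -/
theorem HasT.fg_and_hom (hT : HasT Γ) (L : Subgroup Γ) (hL : L.FiniteIndex) : Group.FG L ∧
    ∀ f : L → ℝ, (∀ g h, f (g * h) = f g + f h) → ∀ g, f g = 0 :=
  ⟨(hT.of_finiteIndex L).fg, (hT.of_finiteIndex L).hom_eq_zero⟩

end Pool.Agent.P.MP_d483fb_an.Z.TZ

end

end

section

/-!
Thurston stability: a finitely generated group without nonzero homomorphism to the reals that fixes
a point of a connected manifold with identity derivatives acts trivially.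
-/

open scoped Manifold ContDiff Topology
open Filter Set

namespace Pool.Agent.P.MP_d483fb_an.Z.TZ

section Local

variable {Γ : Type*} [Group Γ] {E : Type*} [NormedAddCommGroup E] [NormedSpace ℝ E]
  [FiniteDimensional ℝ E]

/-- An almost additive family of functions that is bounded on generators converges along an
ultrafilter to an additive map. -/
theorem ultra_additive {X : Type*} (U : Ultrafilter X) (d : Γ → X → E) (S : Set Γ)
    (hS : Subgroup.closure S = ⊤) (h1 : ∀ x, d 1 x = 0)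
    (hb : ∀ s ∈ S, ∀ᶠ x in (U : Filter X), ‖d s x‖ ≤ 1)
    (hadd : ∀ g h, ∀ ε : ℝ, 0 < ε →
      ∀ᶠ x in (U : Filter X), ‖d (g * h) x - d g x - d h x‖ ≤ ε * ‖d h x‖) :
    ∃ b : Γ → E, (∀ g h, b (g * h) = b g + b h) ∧ ∀ g, Tendsto (d g) U (𝓝 (b g)) := by
  have hbd : ∀ g, ∃ C : ℝ, ∀ᶠ x in (U : Filter X), ‖d g x‖ ≤ C := by
    intro g
    have hg : g ∈ Subgroup.closure S := hS ▸ Subgroup.mem_top g
    induction hg using Subgroup.closure_induction with
    | mem s hs => exact ⟨1, hb s hs⟩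
    | one => exact ⟨0, Eventually.of_forall fun x => by simp [h1]⟩
    | mul g h _ _ ihg ihh =>
      obtain ⟨C, hC⟩ := ihg
      obtain ⟨C', hC'⟩ := ihh
      refine ⟨C + 2 * C', ?_⟩
      filter_upwards [hC, hC', hadd g h 1 one_pos] with x a1 a2 a3
      have e : d (g * h) x = (d (g * h) x - d g x - d h x) + d g x + d h x := by abel
      rw [e]
      have := norm_add₃_le (a := d (g * h) x - d g x - d h x) (b := d g x) (c := d h x)
      linarith
    | inv g _ ihg =>
      obtain ⟨C, hC⟩ := ihg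
      refine ⟨2 * C, ?_⟩
      filter_upwards [hC, hadd g g⁻¹ (1 / 2) (by norm_num)] with x a1 a2
      rw [mul_inv_cancel, h1] at a2
      have e : d g⁻¹ x = -(0 - d g x - d g⁻¹ x) - d g x := by abel
      have := norm_sub_le (-(0 - d g x - d g⁻¹ x)) (d g x)
      rw [← e, norm_neg] at this
      linarith
  have hlim : ∀ g, ∃ v, Tendsto (d g) U (𝓝 v) := by
    intro g
    obtain ⟨C, hC⟩ := hbd g
    obtain ⟨v, -, hv⟩ := (isCompact_closedBall (0 : E) C).ultrafilter_le_nhds (U.map (d g))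
      (by
        rw [le_principal_iff, Ultrafilter.mem_coe, Ultrafilter.mem_map]
        filter_upwards [hC] with x hx
        simpa using hx)
    exact ⟨v, hv⟩
  choose b hbl using hlim
  refine ⟨b, fun g h => ?_, hbl⟩
  have h2 : ∀ ε : ℝ, 0 < ε → ‖b (g * h) - b g - b h‖ ≤ ε * ‖b h‖ := fun ε hε =>
    le_of_tendsto_of_tendsto (((hbl (g * h)).sub (hbl g)).sub (hbl h)).norm
      ((hbl h).norm.const_mul ε) (hadd g h ε hε)
  have h3 : ‖b (g * h) - b g - b h‖ ≤ 0 := by
    have h4 : Tendsto (fun ε : ℝ => ε * ‖b h‖) (𝓝[>] 0) (𝓝 (0 * ‖b h‖)) :=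
      (tendsto_nhdsWithin_of_tendsto_nhds tendsto_id).mul_const _
    rw [zero_mul] at h4
    exact ge_of_tendsto h4 (eventually_nhdsWithin_of_forall fun ε hε => h2 ε hε)
  have h5 := norm_le_zero_iff.1 h3
  rw [sub_sub, sub_eq_zero] at h5
  exact h5

/-- The local form of Thurston stability. -/
theorem thurston_local [Group.FG Γ]
    (hH : ∀ f : Γ → ℝ, (∀ g h, f (g * h) = f g + f h) → ∀ g, f g = 0)
    {X : Type*} [TopologicalSpace X] (al : Γ →* Equiv.Perm X) (p : X)
    (hc : ∀ g, Tendsto (al g) (𝓝 p) (𝓝 p)) (φ : X → E) {W : Set X} (hW : W ∈ 𝓝 p)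
    (hφ : InjOn φ W)
    (hD : ∀ g, ∀ ε : ℝ, 0 < ε → ∀ᶠ q : X × X in 𝓝 p ×ˢ 𝓝 p,
      ‖φ (al g q.1) - φ (al g q.2) - (φ q.1 - φ q.2)‖ ≤ ε * ‖φ q.1 - φ q.2‖) :
    ∀ᶠ x in 𝓝 p, ∀ g, al g x = x := by
  classical
  obtain ⟨S, hS⟩ := (Group.fg_def.1 ‹Group.FG Γ›)
  by_contra hne
  have hfix : ∀ x, (∀ s ∈ S, al s x = x) → ∀ g, al g x = x := by
    intro x hx g
    have hg : g ∈ Subgroup.closure (S : Set Γ) := hS ▸ Subgroup.mem_top g
    induction hg using Subgroup.closure_induction with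
    | mem s hs => exact hx s hs
    | one => simp
    | mul g h _ _ ihg ihh => rw [map_mul, Equiv.Perm.mul_apply, ihh, ihg]
    | inv g _ ihg => rw [map_inv, Equiv.Perm.inv_eq_iff_eq, ihg]
  set e : X → ℝ := fun x => ∑ s ∈ S, ‖φ (al s x) - φ x‖ with he
  have hfr : ∃ᶠ x in 𝓝 p, 0 < e x := by
    have h1 : ∀ᶠ x in 𝓝 p, ∀ s ∈ S, al s x ∈ W :=
      (eventually_all_finset S).2 fun s _ => (hc s).eventually hW
    refine ((not_eventually.1 hne).and_eventually (h1.and hW)).mono fun x ⟨a1, a2, a3⟩ => ?_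
    by_contra h0
    refine a1 (hfix x fun s hs => hφ (a2 s hs) a3 ?_)
    have h2 : ‖φ (al s x) - φ x‖ ≤ e x :=
      Finset.single_le_sum (f := fun s => ‖φ (al s x) - φ x‖) (fun _ _ => norm_nonneg _) hs
    exact sub_eq_zero.1 (norm_le_zero_iff.1 (h2.trans (not_lt.1 h0)))
  have hnb : (𝓝 p ⊓ 𝓟 {x | 0 < e x}).NeBot := frequently_iff_neBot.1 hfr
  set U := Ultrafilter.of (𝓝 p ⊓ 𝓟 {x | 0 < e x}) with hU
  have hU1 : (U : Filter X) ≤ 𝓝 p := (Ultrafilter.of_le _).trans inf_le_left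
  have hU2 : ∀ᶠ x in (U : Filter X), 0 < e x :=
    le_principal_iff.1 ((Ultrafilter.of_le _).trans inf_le_right)
  obtain ⟨b, hb1, hb2⟩ := ultra_additive U (fun g x => (e x)⁻¹ • (φ (al g x) - φ x)) S hS
    (fun x => by simp) (fun s hs => by
      filter_upwards [hU2] with x hx
      rw [norm_smul, norm_inv, Real.norm_of_nonneg hx.le, inv_mul_le_iff₀ hx, mul_one]
      exact Finset.single_le_sum (f := fun s => ‖φ (al s x) - φ x‖) (fun _ _ => norm_nonneg _) hs)
    (fun g h ε hε => by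
      have h1 : Tendsto (fun x => (al h x, x)) U (𝓝 p ×ˢ 𝓝 p) :=
        ((hc h).mono_left hU1).prodMk hU1
      filter_upwards [h1.eventually (hD g ε hε), hU2] with x a1 hx
      rw [← smul_sub, ← smul_sub, norm_smul, norm_smul, mul_left_comm]
      refine mul_le_mul_of_nonneg_left (le_trans (le_of_eq ?_) a1) (norm_nonneg _)
      rw [map_mul, Equiv.Perm.mul_apply]
      congr 1
      abel)
  have hb0 : ∀ g, b g = 0 := fun g => by
    refine (SeparatingDual.eq_zero_iff_forall_dual_eq_zero (R := ℝ) _).2 fun l => ?_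
    exact hH (fun g => l (b g)) (fun g h => by rw [hb1, map_add]) g
  have h1 : Tendsto (fun x => ∑ s ∈ S, ‖(e x)⁻¹ • (φ (al s x) - φ x)‖) U (𝓝 (∑ s ∈ S, ‖b s‖)) :=
    tendsto_finsetSum _ fun s _ => (hb2 s).norm
  have h2 : ∀ᶠ x in (U : Filter X), (1 : ℝ) ≤ ∑ s ∈ S, ‖(e x)⁻¹ • (φ (al s x) - φ x)‖ := by
    filter_upwards [hU2] with x hx
    simp only [norm_smul, norm_inv, Real.norm_of_nonneg hx.le, ← Finset.mul_sum]
    exact (inv_mul_cancel₀ hx.ne').ge
  have h3 := ge_of_tendsto h1 h2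
  simp only [hb0, norm_zero, Finset.sum_const_zero] at h3
  exact absurd h3 (by norm_num)

end Local

variable {Γ : Type*} [Group Γ] {E : Type*} [NormedAddCommGroup E] [NormedSpace ℝ E]
  [FiniteDimensional ℝ E] {M : Type*} [TopologicalSpace M] [ChartedSpace E M]

omit [FiniteDimensional ℝ E] in
theorem chart_contDiffAt {f : M → M} (hf : ContMDiff 𝓘(ℝ, E) 𝓘(ℝ, E) 1 f) {p : M} (hp : f p = p) :
    ContDiffAt ℝ 1 (extChartAt 𝓘(ℝ, E) p ∘ f ∘ (extChartAt 𝓘(ℝ, E) p).symm)
      (extChartAt 𝓘(ℝ, E) p p) := by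
  have h := (contMDiffAt_iff.1 (hf p)).2
  rwa [ModelWithCorners.range_eq_univ, contDiffWithinAt_univ, hp] at h

/-- Thurston stability near a fixed point, with the derivative read in the chart. -/
theorem thurston_chart [Group.FG Γ]
    (hH : ∀ f : Γ → ℝ, (∀ g h, f (g * h) = f g + f h) → ∀ g, f g = 0)
    (al : Γ →* Equiv.Perm M) (hal : ∀ g, ContMDiff 𝓘(ℝ, E) 𝓘(ℝ, E) 1 (al g)) (p : M)
    (hp : ∀ g, al g p = p)
    (hD : ∀ g v, fderiv ℝ (extChartAt 𝓘(ℝ, E) p ∘ al g ∘ (extChartAt 𝓘(ℝ, E) p).symm)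
      (extChartAt 𝓘(ℝ, E) p p) v = v) :
    ∀ᶠ x in 𝓝 p, ∀ g, al g x = x := by
  have hc : ∀ g, Tendsto (al g) (𝓝 p) (𝓝 p) := fun g => by
    have := (hal g).continuous.continuousAt (x := p)
    rwa [ContinuousAt, hp] at this
  have h5 := extChartAt_source_mem_nhds (I := 𝓘(ℝ, E)) p
  refine thurston_local hH al p hc (extChartAt 𝓘(ℝ, E) p) h5 (extChartAt 𝓘(ℝ, E) p).injOn
    fun g ε hε => ?_
  have h1 := ((chart_contDiffAt (hal g) (hp g)).hasStrictFDerivAt one_ne_zero).isLittleO.def hε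
  have h2 := (continuousAt_extChartAt (I := 𝓘(ℝ, E)) p).tendsto
  have h3 : Tendsto (fun q : M × M => (extChartAt 𝓘(ℝ, E) p q.1, extChartAt 𝓘(ℝ, E) p q.2))
      (𝓝 p ×ˢ 𝓝 p) (𝓝 (extChartAt 𝓘(ℝ, E) p p, extChartAt 𝓘(ℝ, E) p p)) :=
    (h2.comp tendsto_fst).prodMk_nhds (h2.comp tendsto_snd)
  filter_upwards [h3.eventually h1, tendsto_fst.eventually h5, tendsto_snd.eventually h5]
    with q a1 a2 a3
  simp only [Function.comp_apply] at a1
  rwa [hD, (extChartAt 𝓘(ℝ, E) p).left_inv a2, (extChartAt 𝓘(ℝ, E) p).left_inv a3] at a1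

/-- Thurston stability. -/
theorem thurston [Group.FG Γ] [T2Space M] [PreconnectedSpace M]
    (hH : ∀ f : Γ → ℝ, (∀ g h, f (g * h) = f g + f h) → ∀ g, f g = 0)
    (al : Γ →* Equiv.Perm M) (hal : ∀ g, ContMDiff 𝓘(ℝ, E) 𝓘(ℝ, E) 1 (al g)) (p : M)
    (hp : ∀ g, al g p = p) (hD : ∀ g (v : E), mfderiv 𝓘(ℝ, E) 𝓘(ℝ, E) (al g) p v = v) :
    ∀ g x, al g x = x := by
  have hcl : IsClosed {y | ∀ᶠ z in 𝓝 y, ∀ g, al g z = z} := by
    refine isClosed_iff_frequently.2 fun y hy => ?_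
    have hy0 : ∀ g, al g y = y := fun g =>
      tendsto_nhds_unique_of_frequently_eq ((hal g).continuous.tendsto y)
        (continuous_id.tendsto y) (hy.mono fun z hz => hz.self_of_nhds g)
    refine thurston_chart hH al hal y hy0 fun g v => ?_
    have h1 := chart_contDiffAt (hal g) (hy0 g)
    have hc := continuousAt_extChartAt (I := 𝓘(ℝ, E)) y
    have h2 := (((ContinuousLinearMap.apply ℝ E v).continuous.tendsto _).comp
      (h1.continuousAt_fderiv one_ne_zero)).comp hc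
    refine tendsto_nhds_unique_of_frequently_eq h2 tendsto_const_nhds ?_
    refine (hy.and_eventually (extChartAt_source_mem_nhds (I := 𝓘(ℝ, E)) y)).mono
      fun z ⟨hz, hz2⟩ => ?_
    have h4 : Tendsto (extChartAt 𝓘(ℝ, E) y).symm (𝓝 (extChartAt 𝓘(ℝ, E) y z)) (𝓝 z) := by
      have := continuousAt_extChartAt_symm' hz2
      rwa [ContinuousAt, (extChartAt 𝓘(ℝ, E) y).left_inv hz2] at this
    have h5 : (extChartAt 𝓘(ℝ, E) y ∘ al g ∘ (extChartAt 𝓘(ℝ, E) y).symm)
        =ᶠ[𝓝 (extChartAt 𝓘(ℝ, E) y z)] id := by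
      filter_upwards [h4.eventually hz, extChartAt_target_mem_nhds'
        ((extChartAt 𝓘(ℝ, E) y).map_source hz2)] with u hu hu2
      simp only [Function.comp_apply, id]
      rw [hu g, (extChartAt 𝓘(ℝ, E) y).right_inv hu2]
    have h6 := h5.fderiv_eq (𝕜 := ℝ)
    simp only [Function.comp_apply, ContinuousLinearMap.apply_apply]
    rw [h6, fderiv_id]
    rfl
  have h3 : ∀ᶠ z in 𝓝 p, ∀ g, al g z = z := by
    refine thurston_chart hH al hal p hp fun g v => ?_
    have h1 := hD g v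
    rw [((hal g).mdifferentiableAt (x := p) one_ne_zero).mfderiv, ModelWithCorners.range_eq_univ,
      fderivWithin_univ, writtenInExtChartAt, hp] at h1
    exact h1
  have h4 : IsClopen {y | ∀ᶠ z in 𝓝 y, ∀ g, al g z = z} :=
    ⟨hcl, isOpen_setOfPred_eventually_nhds⟩
  have h5 := h4.eq_univ ⟨p, h3⟩
  intro g y
  have : y ∈ {y | ∀ᶠ z in 𝓝 y, ∀ g, al g z = z} := h5 ▸ Set.mem_univ y
  exact Filter.Eventually.self_of_nhds (p := fun z => ∀ g, al g z = z) (x := y) this g

end Pool.Agent.P.MP_d483fb_an.Z.TZ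


end

section

/-!
The end of the proof: a finite index subgroup that fixes a point with bounded derivatives acts
through a finite group.
-/

open scoped Manifold ContDiff Topology Matrix RealInnerProductSpace
open Filter Set MeasureTheory

namespace Pool.Agent.P.MP_d483fb_an.Z.TZ

section Orth

variable {Λ : Type*} [Group Λ] {E : Type*} [NormedAddCommGroup E] [InnerProductSpace ℝ E]
  [FiniteDimensional ℝ E]

/-- A bounded group of linear maps preserves an inner product. -/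
theorem exists_invariant_form (σ : Λ →* (E →L[ℝ] E)) {C : ℝ} (hC : ∀ g, ‖σ g‖ ≤ C) :
    ∃ B : LinearMap.BilinForm ℝ E, B.IsSymm ∧ (∀ v, v ≠ 0 → 0 < B v v) ∧
      ∀ g u v, B (σ g u) (σ g v) = B u v := by
  let S : Submonoid (E →L[ℝ] E) := (MonoidHom.mrange σ).topologicalClosure
  have hS : IsCompact (S : Set (E →L[ℝ] E)) := by
    refine (isCompact_closedBall (0 : E →L[ℝ] E) C).of_isClosed_subset isClosed_closure
      (closure_minimal ?_ Metric.isClosed_closedBall)
    rintro _ ⟨g, rfl⟩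
    simpa using hC g
  have : CompactSpace S.units := isCompact_iff_compactSpace.1 (Submonoid.units_isCompact hS)
  borelize ↥S.units
  let μ : Measure S.units := Measure.haar
  let T : S.units → E →L[ℝ] E := fun k => ((k⁻¹ : S.units) : (E →L[ℝ] E)ˣ)
  have hT : Continuous T := Units.continuous_val.comp (continuous_subtype_val.comp continuous_inv)
  have hc : ∀ u v, Continuous fun k => ⟪T k u, T k v⟫ := fun u v =>
    (hT.clm_apply continuous_const).inner (hT.clm_apply continuous_const)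
  have hi : ∀ u v, Integrable (fun k => ⟪T k u, T k v⟫) μ := fun u v =>
    (hc u v).integrable_of_hasCompactSupport (HasCompactSupport.of_compactSpace _)
  let B : LinearMap.BilinForm ℝ E := LinearMap.mk₂ ℝ (fun u v => ∫ k, ⟪T k u, T k v⟫ ∂μ)
    (fun u u' v => by
      simp only [map_add, inner_add_left]
      exact integral_add (hi u v) (hi u' v))
    (fun c u v => by
      simp only [map_smul, real_inner_smul_left, smul_eq_mul]
      exact integral_const_mul _ _)
    (fun u v v' => by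
      simp only [map_add, inner_add_right]
      exact integral_add (hi u v) (hi u v'))
    (fun c u v => by
      simp only [map_smul, real_inner_smul_right, smul_eq_mul]
      exact integral_const_mul _ _)
  have hB : ∀ u v, B u v = ∫ k, ⟪T k u, T k v⟫ ∂μ := fun _ _ => rfl
  refine ⟨B, ⟨fun u v => ?_⟩, fun v hv => ?_, fun g u v => ?_⟩
  · simp only [hB, real_inner_comm]
  · refine (hc v v).integral_pos_of_hasCompactSupport_nonneg_nonzero (x := 1)
      (HasCompactSupport.of_compactSpace _) (fun k => real_inner_self_nonneg) ?_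
    simpa [T] using hv
  · have hm : ∀ g, σ g ∈ S := fun g => Submonoid.le_topologicalClosure _ ⟨g, rfl⟩
    let k0 : S.units := ⟨σ.toHomUnits g, (Submonoid.mem_units_iff _ _).2 ⟨hm g, by
      rw [← map_inv]
      exact hm g⁻¹⟩⟩
    rw [hB, hB, ← integral_mul_left_eq_self _ k0]
    have e : ∀ k w, T (k0 * k) (σ g w) = T k w := by
      intro k w
      have h1 : T (k0 * k) * σ g = T k := by
        have h2 : σ g = ((k0 : (E →L[ℝ] E)ˣ) : E →L[ℝ] E) := rfl
        simp only [T, h2, mul_inv_rev, Subgroup.coe_mul, Subgroup.coe_inv, Units.val_mul, mul_assoc,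
          Units.inv_mul, mul_one]
      rw [← h1]
      rfl
    simp only [e]

/-- A bounded linear representation has the same kernel as an orthogonal one. -/
theorem exists_orth {m : ℕ} (hm : Module.finrank ℝ E = m) (σ : Λ →* (E →L[ℝ] E)) {C : ℝ}
    (hC : ∀ g, ‖σ g‖ ≤ C) :
    ∃ ρ : Λ →* Mat m, (∀ g, ρ g * (ρ g)ᵀ = 1) ∧ ∀ g, ρ g = 1 → ∀ v, σ g v = v := by
  classical
  subst hm
  obtain ⟨B, hs, hp, hi⟩ := exists_invariant_form σ hC
  obtain ⟨b, hb⟩ := LinearMap.BilinForm.exists_orthogonal_basis (B := B) ⟨hs.eq⟩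
  have hb0 : ∀ i, 0 < B (b i) (b i) := fun i => hp _ (b.ne_zero i)
  let c := b.unitsSMul fun i => Units.mk0 (√(B (b i) (b i)))⁻¹
    (inv_ne_zero (Real.sqrt_pos.2 (hb0 i)).ne')
  have hc : ∀ i j, B (c i) (c j) = if i = j then 1 else 0 := by
    intro i j
    simp only [c, Module.Basis.unitsSMul_apply, Units.smul_def, Units.val_mk0, map_smul,
      LinearMap.smul_apply, smul_eq_mul]
    split_ifs with h
    · subst h
      have := Real.mul_self_sqrt (hb0 i).le
      have h0 := (Real.sqrt_pos.2 (hb0 i)).ne'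
      field_simp
      rw [sq, this]
    · rw [hb h, mul_zero, mul_zero]
  let σ' : Λ →* Module.End ℝ E :=
    { toFun := fun g => (σ g : E →ₗ[ℝ] E)
      map_one' := by rw [map_one]; rfl
      map_mul' := fun g h => by rw [map_mul]; rfl }
  refine ⟨(LinearMap.toMatrixAlgEquiv c).toAlgHom.toMonoidHom.comp σ', fun g => ?_,
    fun g hg v => ?_⟩
  · rw [mul_eq_one_comm]
    ext i j
    have e : ∀ i, σ g (c i) = ∑ k, LinearMap.toMatrix c c (σ' g) k i • c k := fun i => by
      simp only [LinearMap.toMatrix_apply]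
      exact (c.sum_repr _).symm
    have h1 := hi g (c i) (c j)
    rw [hc, e i, e j] at h1
    simp only [map_sum, map_smul, LinearMap.sum_apply, LinearMap.smul_apply, hc, smul_eq_mul,
      mul_ite, mul_one, mul_zero, Finset.sum_ite_eq', Finset.mem_univ, if_true] at h1
    rw [Matrix.mul_apply, Matrix.one_apply, ← h1]
    exact Finset.sum_congr rfl fun k _ => mul_comm _ _
  · have h1 : σ' g = 1 := (LinearMap.toMatrixAlgEquiv c).injective (by rw [map_one]; exact hg)
    exact LinearMap.congr_fun h1 v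

end Orth

variable {Γ : Type*} [Group Γ] {m : ℕ} {M : Type*} [TopologicalSpace M]
  [ChartedSpace (EuclideanSpace ℝ (Fin m)) M]

/-- A pointwise Lipschitz bound in an immersion bounds the derivative. -/
theorem norm_mfderiv_le {W : Type*} [NormedAddCommGroup W] [NormedSpace ℝ W] {F : M → W} {p : M}
    (hF : MDifferentiableAt (𝓡 m) 𝓘(ℝ, W) F p) {f : M → M}
    (hf : MDifferentiableAt (𝓡 m) (𝓡 m) f p) (hp : f p = p) {C : ℝ}
    (hL : ∀ᶠ y in 𝓝 p, ‖F (f y) - F p‖ ≤ C * ‖F y - F p‖) (v : EuclideanSpace ℝ (Fin m)) :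
    @norm W _ (mfderiv (𝓡 m) 𝓘(ℝ, W) F p (mfderiv (𝓡 m) (𝓡 m) f p v)) ≤
      C * @norm W _ (mfderiv (𝓡 m) 𝓘(ℝ, W) F p v) := by
  have key : ∀ {Φ : M → W}, MDifferentiableAt (𝓡 m) 𝓘(ℝ, W) Φ p →
      Tendsto (fun t : ℝ => ‖t⁻¹ • (Φ ((extChartAt (𝓡 m) p).symm (extChartAt (𝓡 m) p p + t • v)) -
        Φ p)‖) (𝓝[≠] 0) (𝓝 (@norm W _ (mfderiv (𝓡 m) 𝓘(ℝ, W) Φ p v))) := by
    intro Φ hΦ
    have h1 := hΦ.hasMFDerivAt.2
    rw [ModelWithCorners.range_eq_univ, hasFDerivWithinAt_univ] at h1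
    have h2 : HasDerivAt (fun t : ℝ => extChartAt (𝓡 m) p p + t • v) v 0 := by
      simpa using ((hasDerivAt_id (0 : ℝ)).smul_const v).const_add (extChartAt (𝓡 m) p p)
    have h3 := HasFDerivAt.comp_hasDerivAt_of_eq (0 : ℝ) h1 h2 (by simp)
    have h4 := (hasDerivAt_iff_tendsto_slope_zero.1 h3).norm
    refine h4.congr fun t => ?_
    simp [writtenInExtChartAt]
  have hFf : MDifferentiableAt (𝓡 m) 𝓘(ℝ, W) (F ∘ f) p := (hp.symm ▸ hF :
    MDifferentiableAt (𝓡 m) 𝓘(ℝ, W) F (f p)).comp p hf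
  have h1 := key hFf
  rw [mfderiv_comp_apply_of_eq p hF hf hp v] at h1
  refine le_of_tendsto_of_tendsto h1 ((key hF).const_mul C) ?_
  have h2 : Tendsto (fun t : ℝ => (extChartAt (𝓡 m) p).symm (extChartAt (𝓡 m) p p + t • v))
      (𝓝[≠] 0) (𝓝 p) := by
    have h3 : Tendsto (fun t : ℝ => extChartAt (𝓡 m) p p + t • v) (𝓝 0)
        (𝓝 (extChartAt (𝓡 m) p p)) :=
      Continuous.tendsto' (by fun_prop) _ _ (by simp)
    have h4 := (continuousAt_extChartAt_symm (I := 𝓡 m) p).tendsto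
    rw [extChartAt_to_inv] at h4
    exact (h4.comp h3).mono_left nhdsWithin_le_nhds
  filter_upwards [h2.eventually hL] with t ht
  simp only [Function.comp_apply, norm_smul, hp]
  rw [mul_left_comm]
  exact mul_le_mul_of_nonneg_left ht (norm_nonneg _)

/-- A group that fixes a point with bounded derivatives acts through a finite group. -/
theorem finite_of_fixed [T2Space M] [PreconnectedSpace M] (α : Γ →* Equiv.Perm M)
    (hα : ∀ g, ContMDiff (𝓡 m) (𝓡 m) 1 (α g))
    (hT : ∀ L : Subgroup Γ, L.FiniteIndex → Group.FG L ∧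
      ∀ f : L → ℝ, (∀ g h, f (g * h) = f g + f h) → ∀ g, f g = 0)
    (hO : ∀ ρ : Γ →* Mat m, (∀ g, ρ g * (ρ g)ᵀ = 1) → (range ρ).Finite)
    {p : M} (hp : ∀ g, α g p = p) {C : ℝ}
    (hC : ∀ g (v : EuclideanSpace ℝ (Fin m)),
      @norm (EuclideanSpace ℝ (Fin m)) _ (mfderiv (𝓡 m) (𝓡 m) (α g) p v) ≤ C * ‖v‖)
    (hC0 : 0 ≤ C) :
    ∃ L : Subgroup Γ, L.FiniteIndex ∧ ∀ g ∈ L, α g = 1 := by
  let D : Γ → (EuclideanSpace ℝ (Fin m) →L[ℝ] EuclideanSpace ℝ (Fin m)) :=
    fun g => mfderiv (𝓡 m) (𝓡 m) (α g) p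
  have hd : ∀ g y, MDifferentiableAt (𝓡 m) (𝓡 m) (α g) y := fun g y =>
    (hα g).mdifferentiableAt one_ne_zero
  have hD1 : D 1 = 1 := by
    have : ((α 1 : Equiv.Perm M) : M → M) = id := by rw [map_one]; rfl
    simp only [D]
    rw [this, mfderiv_id]
    rfl
  have hDm : ∀ g h, D (g * h) = D g * D h := fun g h => by
    have : ((α (g * h) : Equiv.Perm M) : M → M) = α g ∘ α h := by rw [map_mul]; rfl
    ext1 v
    simp only [D]
    rw [this]
    exact mfderiv_comp_apply_of_eq p (hd g p) (hd h p) (hp h) v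
  obtain ⟨ρ, hρ, hk⟩ := exists_orth (m := m) (by simp) ⟨⟨D, hD1⟩, hDm⟩ (C := C)
    fun g => ContinuousLinearMap.opNorm_le_bound _ hC0 (hC g)
  have hfin : Finite ρ.toHomUnits.range := by
    refine Set.Finite.of_finite_image (f := Units.val) ((hO ρ hρ).subset ?_)
      Units.val_injective.injOn
    rintro _ ⟨_, ⟨g, rfl⟩, rfl⟩
    exact ⟨g, rfl⟩
  have hfi : ρ.toHomUnits.ker.FiniteIndex := Subgroup.finiteIndex_ker _
  obtain ⟨h1, h2⟩ := hT _ hfi
  refine ⟨_, hfi, fun g hg => Equiv.ext fun x => ?_⟩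
  exact thurston h2 (α.comp ρ.toHomUnits.ker.subtype) (fun g => hα g) p (fun g => hp g)
    (fun g v => hk g (congrArg Units.val g.2) v) ⟨g, hg⟩ x

theorem finite_range_of_trivial {P : Type*} [Group P] (α : Γ →* P) (L : Subgroup Γ)
    [L.FiniteIndex] (h : ∀ g ∈ L, α g = 1) : (range α).Finite := by
  have : α.ker.FiniteIndex := Subgroup.finiteIndex_of_le (H := L) h
  have h1 : Finite α.range := Finite.of_equiv _ (QuotientGroup.quotientKerEquivRange α).toEquiv
  exact Set.toFinite (α.range : Set P)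

theorem finiteIndex_map_subtype (L : Subgroup Γ) [L.FiniteIndex] (L' : Subgroup L)
    [L'.FiniteIndex] : (L'.map L.subtype).FiniteIndex := by
  refine ⟨?_⟩
  rw [Subgroup.index_map_of_injective _ L.subtype_injective, Subgroup.range_subtype]
  exact mul_ne_zero Subgroup.FiniteIndex.index_ne_zero Subgroup.FiniteIndex.index_ne_zero

/-- The last step of the proof. -/
theorem end_finite [T2Space M] [PreconnectedSpace M] (α : Γ →* Equiv.Perm M)
    (hα : ∀ g, ContMDiff (𝓡 m) (𝓡 m) 1 (α g))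
    (hT : ∀ L : Subgroup Γ, L.FiniteIndex → Group.FG L ∧
      ∀ f : L → ℝ, (∀ g h, f (g * h) = f g + f h) → ∀ g, f g = 0)
    (hO : ∀ L : Subgroup Γ, L.FiniteIndex →
      ∀ ρ : L →* Mat m, (∀ g, ρ g * (ρ g)ᵀ = 1) → (range ρ).Finite)
    {W : Type*} [NormedAddCommGroup W] [NormedSpace ℝ W] {F : M → W} {p : M}
    (hF : MDifferentiableAt (𝓡 m) 𝓘(ℝ, W) F p)
    (hFi : Function.Injective (mfderiv (𝓡 m) 𝓘(ℝ, W) F p))
    (Γ₁ : Subgroup Γ) [Γ₁.FiniteIndex] (hp : ∀ g ∈ Γ₁, α g p = p) {C : ℝ}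
    (hL : ∀ g ∈ Γ₁, ∀ᶠ y in 𝓝 p, ‖F (α g y) - F p‖ ≤ C * ‖F y - F p‖) :
    (range α).Finite := by
  let L : EuclideanSpace ℝ (Fin m) →L[ℝ] W := mfderiv (𝓡 m) 𝓘(ℝ, W) F p
  obtain ⟨K, -, hK⟩ := LinearMap.exists_antilipschitzWith (L : EuclideanSpace ℝ (Fin m) →ₗ[ℝ] W)
    (LinearMap.ker_eq_bot.2 hFi)
  have hK1 : ∀ v, ‖v‖ ≤ K * ‖L v‖ := fun v => by simpa using hK.le_mul_dist v 0
  obtain ⟨L₂, hL₂, h⟩ := finite_of_fixed (α.comp Γ₁.subtype) (fun g => hα g)
    (fun L' hL' => by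
      obtain ⟨h1, h2⟩ := hT _ (finiteIndex_map_subtype Γ₁ L')
      let e := L'.equivMapOfInjective _ Γ₁.subtype_injective
      exact ⟨Group.fg_of_surjective (f := e.symm.toMonoidHom) e.symm.surjective, fun f hf g => by
        simpa using h2 (fun x => f (e.symm x)) (fun x y => by rw [map_mul, hf]) (e g)⟩)
    (hO Γ₁ ‹_›) (fun g => hp g g.2) (C := K * (|C| * ‖L‖))
    (fun g v => by
      refine (hK1 _).trans ?_
      rw [mul_assoc]
      refine mul_le_mul_of_nonneg_left ((norm_mfderiv_le hF ((hα g).mdifferentiableAt one_ne_zero)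
        (hp g g.2) (hL g g.2) v).trans ?_) K.coe_nonneg
      rw [mul_assoc]
      exact mul_le_mul (le_abs_self C) (L.le_opNorm v) (norm_nonneg _) (abs_nonneg C))
    (by positivity)
  have := finiteIndex_map_subtype Γ₁ L₂
  refine finite_range_of_trivial α (L₂.map Γ₁.subtype) ?_
  rintro _ ⟨g, hg, rfl⟩
  exact h g hg

end Pool.Agent.P.MP_d483fb_an.Z.TZ


end

section

/-!
Finite index subgroups of lattices are lattices; reduction to connected manifolds.
-/

open scoped Manifold ContDiff Topology ENNReal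
open Filter Set MeasureTheory

namespace Pool.Agent.P.MP_d483fb_an.Z.TZ

variable {G : Type} [Group G] [TopologicalSpace G] [IsTopologicalGroup G]
  [SecondCountableTopology G]

/-- A subgroup of finite index in a lattice is a lattice. -/
theorem isLattice_map {Γ : Subgroup G} (hΓ : IsLattice Γ) (L : Subgroup Γ) [L.FiniteIndex] :
    IsLattice (L.map Γ.subtype) := by
  classical
  obtain ⟨hd, μ, hμ, hinv⟩ := hΓ
  refine ⟨DiscreteTopology.of_subset hd (Subgroup.map_subtype_le L), ?_⟩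
  borelize G
  let _ : MeasurableSpace (G ⧸ Γ) := borel _
  have : BorelSpace (G ⧸ Γ) := ⟨rfl⟩
  let _ : MeasurableSpace (G ⧸ L.map Γ.subtype) := borel _
  have : BorelSpace (G ⧸ L.map Γ.subtype) := ⟨rfl⟩
  obtain ⟨σ, hσ, h2, -⟩ := exists_section Γ μ
  have : Fintype (Γ ⧸ L) := Fintype.ofFinite _
  let Φ : G → Γ ⧸ L → G ⧸ L.map Γ.subtype := fun h q => QuotientGroup.mk (h * (q.out : Γ))
  have hΦ : ∀ (h : G) (γ : Γ) q, Φ (h * γ) q = Φ h (γ • q) := by
    intro h γ q
    have h1 : (γ * q.out)⁻¹ * (γ • q).out ∈ L := by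
      rw [← QuotientGroup.eq, QuotientGroup.out_eq', ← smul_eq_mul, MulAction.Quotient.mk_smul_out]
    refine QuotientGroup.eq.2 ⟨_, h1, ?_⟩
    simp [mul_assoc]
  have hm : ∀ q, Measurable fun b => Φ (σ b) q := fun q =>
    QuotientGroup.continuous_mk.measurable.comp (hσ.mul_const _)
  let ν : Measure (G ⧸ L.map Γ.subtype) := ∑ q, μ.map fun b => Φ (σ b) q
  have hν : ∀ S, MeasurableSet S → ν S = ∫⁻ b, ∑ q, S.indicator 1 (Φ (σ b) q) ∂μ := by
    intro S hS
    rw [lintegral_finsetSum (f := fun q b => S.indicator 1 (Φ (σ b) q)) _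
      fun q _ => (measurable_one.indicator hS).comp (hm q), Measure.finsetSum_apply]
    refine Finset.sum_congr rfl fun q _ => ?_
    rw [Measure.map_apply (hm q) hS, ← lintegral_indicator_one (hm q hS)]
    rfl
  have hc : (Fintype.card (Γ ⧸ L) : ℝ≥0∞) ≠ 0 := by simp
  refine ⟨(Fintype.card (Γ ⧸ L) : ℝ≥0∞)⁻¹ • ν, ⟨?_⟩, ⟨fun g S hS => ?_⟩⟩
  · rw [Measure.smul_apply, hν _ MeasurableSet.univ]
    simp [ENNReal.inv_mul_cancel hc]
  · rw [Measure.smul_apply, Measure.smul_apply, hν _ hS, hν _ (measurable_const_smul g hS)]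
    congr 1
    rw [← (measurePreserving_smul g μ).lintegral_comp (f := fun b =>
      ∑ q, S.indicator 1 (Φ (σ b) q))
      (Finset.measurable_sum _ fun q _ => (measurable_one.indicator hS).comp (hm q))]
    refine lintegral_congr fun b => ?_
    have h3 : ((g * σ b : G) : G ⧸ Γ) = g • b := by
      conv_rhs => rw [← h2 b]
      rfl
    let γ : Γ := ⟨(σ (g • b))⁻¹ * (g * σ b), QuotientGroup.eq.mp ((h2 _).trans h3.symm)⟩
    have h4 : g * σ b = σ (g • b) * γ := by simp [γ]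
    refine Fintype.sum_equiv (MulAction.toPerm γ) _ _ fun q => ?_
    rw [MulAction.toPerm_apply, ← hΦ, ← h4]
    have h5 : Φ (g * σ b) q = g • Φ (σ b) q := by
      simp only [Φ, mul_assoc]
      rfl
    rw [h5]
    rfl

/-- Reduction to connected manifolds. -/
theorem finite_of_connected {m : ℕ}
    (main : ∀ (Γ : Subgroup G), IsLattice Γ → ∀ (M : Type) [TopologicalSpace M] [T2Space M]
      [CompactSpace M] [ConnectedSpace M] [ChartedSpace (EuclideanSpace ℝ (Fin m)) M]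
      [IsManifold (𝓡 m) ∞ M] (α : Γ →* Equiv.Perm M),
      (∀ γ, ContMDiff (𝓡 m) (𝓡 m) ∞ (α γ)) → (range α).Finite)
    (Γ : Subgroup G) (hΓ : IsLattice Γ) (M : Type) [TopologicalSpace M] [T2Space M]
    [CompactSpace M] [ChartedSpace (EuclideanSpace ℝ (Fin m)) M] [IsManifold (𝓡 m) ∞ M]
    (α : Γ →* Equiv.Perm M) (hα : ∀ γ, ContMDiff (𝓡 m) (𝓡 m) ∞ (α γ)) : (range α).Finite := by
  have : LocallyConnectedSpace M := ChartedSpace.locallyConnectedSpace (EuclideanSpace ℝ (Fin m)) M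
  let : MulAction Γ (ConnectedComponents M) :=
    { smul := fun γ => (hα γ).continuous.connectedComponentsMap
      one_smul := fun c => by
        obtain ⟨x, rfl⟩ := ConnectedComponents.surjective_coe c
        change ((α 1 x : M) : ConnectedComponents M) = x
        rw [map_one]
        rfl
      mul_smul := fun g h c => by
        obtain ⟨x, rfl⟩ := ConnectedComponents.surjective_coe c
        change ((α (g * h) x : M) : ConnectedComponents M) = (α g (α h x) : M)
        rw [map_mul]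
        rfl }
  let L := (MulAction.toPermHom Γ (ConnectedComponents M)).ker
  have hL : ∀ γ ∈ L, ∀ x : M, ((α γ x : M) : ConnectedComponents M) = x := fun γ hγ x =>
    Equiv.congr_fun (MonoidHom.mem_ker.1 hγ) (x : ConnectedComponents M)
  have key : ∀ c : ConnectedComponents M, ∃ N : Subgroup Γ, N.FiniteIndex ∧
      ∀ γ ∈ N, ∀ y : M, (y : ConnectedComponents M) = c → α γ y = y := by
    intro c
    obtain ⟨x, rfl⟩ := ConnectedComponents.surjective_coe c
    let U : TopologicalSpace.Opens M := ⟨connectedComponent x, isOpen_connectedComponent⟩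
    have : CompactSpace U := isCompact_iff_compactSpace.1 isClosed_connectedComponent.isCompact
    have : ConnectedSpace U := isConnected_iff_connectedSpace.1 isConnected_connectedComponent
    have hU : ∀ γ ∈ L, ∀ y, α γ y ∈ U ↔ y ∈ U := fun γ hγ y => by
      change α γ y ∈ connectedComponent x ↔ y ∈ connectedComponent x
      rw [← ConnectedComponents.coe_eq_coe', ← ConnectedComponents.coe_eq_coe', hL γ hγ]
    let e := L.equivMapOfInjective _ Γ.subtype_injective
    let β₀ : L →* Equiv.Perm U :=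
      { toFun := fun γ => (α γ).subtypePerm (hU γ γ.2)
        map_one' := by ext y; simp
        map_mul' := fun g h => by ext y; simp }
    have hβ : ∀ γ, ContMDiff (𝓡 m) (𝓡 m) ∞ (β₀ γ) := fun γ =>
      (ContMDiff.subtypeVal_comp_iff U _).1 ((hα γ).comp contMDiff_subtype_val)
    have hfin := main _ (isLattice_map hΓ L) U (β₀.comp e.symm.toMonoidHom) fun γ => hβ _
    have : Finite β₀.range := by
      refine hfin.subset ?_
      rintro _ ⟨γ, rfl⟩
      exact ⟨e γ, by simp⟩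
    refine ⟨β₀.ker.map L.subtype, finiteIndex_map_subtype _ _, ?_⟩
    rintro _ ⟨γ, hγ, rfl⟩ y hy
    exact congrArg Subtype.val
      (Equiv.congr_fun (MonoidHom.mem_ker.1 hγ) ⟨y, ConnectedComponents.coe_eq_coe'.1 hy⟩)
  choose N hN hfix using key
  have := Subgroup.finiteIndex_iInf hN
  exact finite_range_of_trivial α (⨅ c, N c) fun γ hγ =>
    Equiv.ext fun y => hfix _ γ (Subgroup.mem_iInf.1 hγ _) y rfl

end Pool.Agent.P.MP_d483fb_an.Z.TZ


end
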