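import Mathlib

section

/-!
# Labels: factorisation through a finer label and measurable selection

* `exists_sat` : a measurable set that is saturated for a label inside a measurable set `S` is, on
  `S`, the preimage of a measurable set (Lusin separation);
* `exists_factor` : if on `S` the atoms of `f` are finer than those of `g`, then `g = φ ∘ f` on `S`
  with `φ` measurable;
* `exists_sel` : measurable choice of a point in almost every atom inside a given conull set.
-/

open MeasureTheory ProbabilityTheory Set Filter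

namespace Pool.Agent.P.MP_d483fb_an.Z

variable {Ω Y Z : Type*} [MeasurableSpace Ω] [StandardBorelSpace Ω]
  [MeasurableSpace Y] [StandardBorelSpace Y] [MeasurableSpace Z] [StandardBorelSpace Z]

/-- Lusin separation for labels: two measurable sets with no common label value are separated by
the preimage of a measurable set. -/
theorem exists_sep {f : Ω → Y} (hf : Measurable f) {A B : Set Ω} (hA : MeasurableSet A)
    (hB : MeasurableSet B) (h : ∀ x ∈ A, ∀ y ∈ B, f x ≠ f y) :
    ∃ C : Set Y, MeasurableSet C ∧ (∀ x ∈ A, f x ∈ C) ∧ ∀ y ∈ B, f y ∉ C := by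
  let _ := upgradeStandardBorel Y
  have h1 : AnalyticSet (f '' A) := hA.analyticSet_image hf
  have h2 : AnalyticSet (f '' B) := hB.analyticSet_image hf
  have hd : Disjoint (f '' A) (f '' B) := by
    rw [Set.disjoint_left]
    rintro _ ⟨x, hx, rfl⟩ ⟨y, hy, hxy⟩
    exact h x hx y hy hxy.symm
  obtain ⟨C, hC1, hC2, hC3⟩ := h1.measurablySeparable h2 hd
  exact ⟨C, hC3, fun x hx => hC1 ⟨x, hx, rfl⟩,
    fun y hy hc => Set.disjoint_left.1 hC2 ⟨y, hy, rfl⟩ hc⟩

/-- A measurable set saturated for the label `f` inside the measurable set `S` is on `S` the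
preimage of a measurable set. -/
theorem exists_sat {f : Ω → Y} (hf : Measurable f) {S B : Set Ω} (hS : MeasurableSet S)
    (hB : MeasurableSet B) (h : ∀ x ∈ S, ∀ y ∈ S, f x = f y → x ∈ B → y ∈ B) :
    ∃ C : Set Y, MeasurableSet C ∧ ∀ x ∈ S, (x ∈ B ↔ f x ∈ C) := by
  obtain ⟨C, hC, h1, h2⟩ := exists_sep hf (hS.inter hB) (hS.diff hB)
    (fun x hx y hy hxy => hy.2 (h x hx.1 y hy.1 hxy hx.2))
  refine ⟨C, hC, fun x hx => ⟨fun hb => h1 x ⟨hx, hb⟩, fun hc => ?_⟩⟩
  by_contra hb
  exact h2 x ⟨hx, hb⟩ hc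

/-- If on the measurable set `S` the atoms of `f` are finer than those of `g`, then `g` is on `S`
a measurable function of `f`. -/
theorem exists_factor [Nonempty Z] {f : Ω → Y} {g : Ω → Z} (hf : Measurable f)
    (hg : Measurable g) {S : Set Ω} (hS : MeasurableSet S)
    (h : ∀ x ∈ S, ∀ y ∈ S, f x = f y → g x = g y) :
    ∃ φ : Y → Z, Measurable φ ∧ ∀ x ∈ S, g x = φ (f x) := by
  have hm : Measurable[MeasurableSpace.comap (fun x : S => f x) inferInstance]
      (fun x : S => g x) := by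
    intro B hB
    obtain ⟨C, hC, hC'⟩ := exists_sat hf hS (hg hB)
      (fun x hx y hy hxy hxB => by
        simp only [mem_preimage] at hxB ⊢
        rwa [← h x hx y hy hxy])
    refine ⟨C, hC, ?_⟩
    ext x
    simpa using (hC' x x.2).symm
  obtain ⟨φ, hφ, hφ'⟩ := hm.exists_eq_measurable_comp
  exact ⟨φ, hφ, fun x hx => congrFun hφ' ⟨x, hx⟩⟩

/-- Almost everywhere version of `exists_factor`: the atoms are compared on a conull set. -/
theorem exists_factor_ae [Nonempty Z] {μ : Measure Ω} {f : Ω → Y} {g : Ω → Z}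
    (hf : Measurable f) (hg : Measurable g) {S : Set Ω} (hS : ∀ᵐ x ∂μ, x ∈ S)
    (h : ∀ x ∈ S, ∀ y ∈ S, f x = f y → g x = g y) :
    ∃ φ : Y → Z, Measurable φ ∧ ∀ᵐ x ∂μ, g x = φ (f x) := by
  obtain ⟨t, ht, htm, ht0⟩ := exists_measurable_superset_of_null (mem_ae_iff.1 hS)
  have hsub : ∀ x ∈ tᶜ, x ∈ S := fun x hx => by
    by_contra hxS
    exact hx (ht hxS)
  obtain ⟨φ, hφ, hφ'⟩ := exists_factor hf hg htm.compl
    (fun x hx y hy => h x (hsub x hx) y (hsub y hy))
  refine ⟨φ, hφ, ?_⟩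
  have : ∀ᵐ x ∂μ, x ∈ tᶜ := by
    rw [ae_iff]
    simpa using ht0
  exact this.mono hφ'

/-- The conditional law of the point given its label is carried by the atom and by every conull
measurable set. -/
theorem ae_condDistrib_atom [Nonempty Ω] (ν : Measure Ω) [IsFiniteMeasure ν] {lab : Ω → Y}
    (hl : Measurable lab) {S : Set Ω} (hS : MeasurableSet S) (hSν : ∀ᵐ x ∂ν, x ∈ S) :
    ∀ᵐ y ∂ν, ∀ᵐ w ∂(condDistrib id lab ν (lab y)), lab w = lab y ∧ w ∈ S := by
  let _ := upgradeStandardBorel Y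
  have hm : MeasurableSet {p : Y × Ω | lab p.2 = p.1 ∧ p.2 ∈ S} :=
    (measurableSet_eq_fun (hl.comp measurable_snd) measurable_fst).inter (measurable_snd hS)
  have h1 : ∀ᵐ p ∂((ν.map lab) ⊗ₘ condDistrib id lab ν), lab p.2 = p.1 ∧ p.2 ∈ S := by
    rw [compProd_map_condDistrib aemeasurable_id,
      ae_map_iff (hl.prodMk measurable_id).aemeasurable hm]
    exact hSν.mono fun x hx => ⟨rfl, hx⟩
  have h2 := Measure.ae_ae_of_ae_compProd h1
  exact ae_of_ae_map hl.aemeasurable h2

/-- Measurable selection: in almost every atom of `lab` one can choose measurably (as a function of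
the label) a point of a given conull measurable set. -/
theorem exists_sel0 [Nonempty Ω] (ν : Measure Ω) [IsFiniteMeasure ν] {lab : Ω → Y}
    (hl : Measurable lab) {S : Set Ω} (hS : MeasurableSet S) (hSν : ∀ᵐ x ∂ν, x ∈ S) :
    ∃ w : Y → Ω, Measurable w ∧ ∀ᵐ y ∂ν, lab (w (lab y)) = lab y ∧ w (lab y) ∈ S := by
  let _ := upgradeStandardBorel Y
  obtain ⟨F, hF, hFκ⟩ := Kernel.exists_measurable_map_eq_unitInterval (condDistrib id lab ν)
  have hmF : Measurable fun p : Ω × unitInterval => F (lab p.1) p.2 :=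
    hF.comp ((hl.comp measurable_fst).prodMk measurable_snd)
  have hm : MeasurableSet {p : Ω × unitInterval |
      lab (F (lab p.1) p.2) = lab p.1 ∧ F (lab p.1) p.2 ∈ S} :=
    (measurableSet_eq_fun (hl.comp hmF) (hl.comp measurable_fst)).inter (hmF hS)
  have h1 : ∀ᵐ y ∂ν, ∀ᵐ t : unitInterval,
      lab (F (lab y) t) = lab y ∧ F (lab y) t ∈ S := by
    filter_upwards [ae_condDistrib_atom ν hl hS hSν] with y hy
    rw [← hFκ] at hy
    exact ae_of_ae_map (hF.of_uncurry_left).aemeasurable hy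
  have h2 := (Measure.ae_ae_comm (μ := ν) (ν := (volume : Measure unitInterval))
    (p := fun y t => lab (F (lab y) t) = lab y ∧ F (lab y) t ∈ S) hm).1 h1
  obtain ⟨t, ht⟩ := h2.exists
  exact ⟨fun a => F a t, hF.of_uncurry_right, ht⟩

/-- SEL: `K` measurable, `X'` conull.  There is a measurable `w` such that for almost every `y ∈ K`
the point `w (lab y)` has the label of `y` and lies in `K ∩ X'`. -/
theorem exists_sel [Nonempty Ω] (μ : Measure Ω) [IsFiniteMeasure μ] {lab : Ω → Y}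
    (hl : Measurable lab) {K X' : Set Ω} (hK : MeasurableSet K) (hX : ∀ᵐ x ∂μ, x ∈ X') :
    ∃ w : Y → Ω, Measurable w ∧
      ∀ᵐ y ∂μ, y ∈ K → lab (w (lab y)) = lab y ∧ w (lab y) ∈ K ∧ w (lab y) ∈ X' := by
  obtain ⟨t, ht, htm, ht0⟩ := exists_measurable_superset_of_null (mem_ae_iff.1 hX)
  have h0 : ∀ᵐ x ∂μ, x ∈ tᶜ := by
    rw [ae_iff]
    simpa using ht0
  have h1 : ∀ᵐ x ∂(μ.restrict K), x ∈ K ∩ tᶜ :=
    (ae_restrict_mem hK).and (ae_restrict_of_ae h0)
  obtain ⟨w, hw, hw'⟩ := exists_sel0 (μ.restrict K) hl (hK.inter htm.compl) h1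
  refine ⟨w, hw, ?_⟩
  rw [ae_restrict_iff' hK] at hw'
  filter_upwards [hw'] with y hy hyK
  obtain ⟨h2, h3, h4⟩ := hy hyK
  refine ⟨h2, h3, ?_⟩
  by_contra hx
  exact h4 (ht hx)

end Pool.Agent.P.MP_d483fb_an.Z


end

section

/-!
# Counting and Gibbs inequalities for the conditional law `condDistrib id lab μ`
-/

open MeasureTheory ProbabilityTheory Set Filter
open scoped ENNReal

namespace Pool.Agent.P.MP_d483fb_an.Z

variable {Ω Y D : Type*} [MeasurableSpace Ω] [StandardBorelSpace Ω] [Nonempty Ω]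
  [MeasurableSpace Y] [MeasurableSpace D] [Countable D] [MeasurableSingletonClass D]
  {μ : Measure Ω} [IsFiniteMeasure μ] {lab : Ω → Y} {f : Ω → D}

/-- Disintegration along a label. -/
theorem cd_lintegral (hl : Measurable lab) {Φ : Y × Ω → ℝ≥0∞} (hΦ : Measurable Φ) :
    ∫⁻ x, Φ (lab x, x) ∂μ = ∫⁻ x, ∫⁻ w, Φ (lab x, w) ∂(condDistrib id lab μ (lab x)) ∂μ := by
  have h1 : ∫⁻ x, Φ (lab x, x) ∂μ = ∫⁻ p, Φ p ∂(μ.map fun x => (lab x, id x)) :=
    (lintegral_map hΦ (hl.prodMk measurable_id)).symm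
  rw [h1, ← compProd_map_condDistrib aemeasurable_id, Measure.lintegral_compProd hΦ,
    lintegral_map hΦ.lintegral_kernel_prod_right' hl]

omit [StandardBorelSpace Ω] [Nonempty Ω] in
/-- The mass of the atom of a digit is a measurable function of the pair (label, point). -/
theorem cd_measurable (κ : Kernel Y Ω) (hf : Measurable f) :
    Measurable fun p : Y × Ω => κ p.1 (f ⁻¹' {f p.2}) := by
  have h : Measurable fun p : Y × D => κ p.1 (f ⁻¹' {p.2}) :=
    measurable_from_prod_countable_left fun i => κ.measurable_coe (hf (measurableSet_singleton i))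
  exact h.comp (measurable_fst.prodMk (hf.comp measurable_snd))

omit [StandardBorelSpace Ω] [Nonempty Ω] in
/-- Integral of a function of a digit. -/
theorem lintegral_digit (ν : Measure Ω) (hf : Measurable f) (g : D → ℝ≥0∞) :
    ∫⁻ w, g (f w) ∂ν = ∑' i, g i * ν (f ⁻¹' {i}) := by
  rw [← lintegral_map (measurable_of_countable g) hf, lintegral_countable']
  exact tsum_congr fun i => by rw [Measure.map_apply hf (measurableSet_singleton i)]

/-- E5, first form: `∫_B q(lab x, f x) / P(f | lab)(x) ≤ μ B` for a subprobability weight `q` and a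
saturated set `B = lab ⁻¹' C`. -/
theorem cd_gibbs (hl : Measurable lab) (hf : Measurable f) {q : Y → D → ℝ≥0∞}
    (hq : ∀ i, Measurable fun a => q a i) (hq1 : ∀ a, ∑' i, q a i ≤ 1) {C : Set Y}
    (hC : MeasurableSet C) :
    ∫⁻ x in lab ⁻¹' C, q (lab x) (f x) / condDistrib id lab μ (lab x) (f ⁻¹' {f x}) ∂μ
      ≤ μ (lab ⁻¹' C) := by
  classical
  set κ := condDistrib id lab μ with hκ
  have hq' : Measurable fun p : Y × Ω => q p.1 (f p.2) :=
    (measurable_from_prod_countable_left (f := fun p : Y × D => q p.1 p.2) hq).comp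
      (measurable_fst.prodMk (hf.comp measurable_snd))
  have hΦ : Measurable fun p : Y × Ω =>
      (Prod.fst ⁻¹' C).indicator (fun p : Y × Ω => q p.1 (f p.2) / κ p.1 (f ⁻¹' {f p.2})) p :=
    (hq'.div (cd_measurable κ hf)).indicator (measurable_fst hC)
  have h1 := cd_lintegral (μ := μ) hl hΦ
  rw [← lintegral_indicator (hl hC)]
  have h2 : ∀ x, (lab ⁻¹' C).indicator
      (fun x => q (lab x) (f x) / κ (lab x) (f ⁻¹' {f x})) x =
      (Prod.fst ⁻¹' C).indicator
        (fun p : Y × Ω => q p.1 (f p.2) / κ p.1 (f ⁻¹' {f p.2})) (lab x, x) := by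
    intro x
    by_cases hx : lab x ∈ C <;> simp [indicator, hx]
  simp_rw [h2]
  rw [h1, ← lintegral_indicator_one (hl hC)]
  refine lintegral_mono fun x => ?_
  by_cases hx : lab x ∈ C
  · have : ∀ w, (Prod.fst ⁻¹' C).indicator
        (fun p : Y × Ω => q p.1 (f p.2) / κ p.1 (f ⁻¹' {f p.2})) (lab x, w) =
        q (lab x) (f w) / κ (lab x) (f ⁻¹' {f w}) := fun w => by simp [indicator, hx]
    simp_rw [this]
    rw [lintegral_digit _ hf (fun i => q (lab x) i / κ (lab x) (f ⁻¹' {i}))]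
    simp only [indicator, mem_preimage, hx, if_true, Pi.one_apply]
    refine (ENNReal.tsum_le_tsum fun i => ?_).trans (hq1 (lab x))
    rw [mul_comm]
    exact ENNReal.mul_div_le
  · simp [indicator, hx]

/-- E14 (COUNT): if every atom of `lab` contains points of `G` with at most `Q` values of the digit
`f`, then `μ (G ∩ {P(f | lab) < c}) ≤ Q c μ(Ω)`. -/
theorem cd_count [StandardBorelSpace Y] (hl : Measurable lab) (hf : Measurable f) {G : Set Ω}
    (hG : MeasurableSet G) {Q : ℕ}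
    (hQ : ∀ a : Y, ∃ s : Finset D, s.card ≤ Q ∧ ∀ w ∈ G, lab w = a → f w ∈ s) (c : ℝ≥0∞) :
    μ {x | x ∈ G ∧ condDistrib id lab μ (lab x) (f ⁻¹' {f x}) ≤ c} ≤ Q * c * μ univ := by
  classical
  set κ := condDistrib id lab μ with hκ
  have hS : MeasurableSet {p : Y × Ω | p.2 ∈ G ∧ κ p.1 (f ⁻¹' {f p.2}) ≤ c} :=
    (measurable_snd hG).inter (measurableSet_le (cd_measurable κ hf) measurable_const)
  have h1 := cd_lintegral (μ := μ) hl (measurable_one.indicator hS)
  have hS' : MeasurableSet {x | x ∈ G ∧ κ (lab x) (f ⁻¹' {f x}) ≤ c} :=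
    (hl.prodMk measurable_id) hS
  rw [← lintegral_indicator_one hS']
  have h2 : ∀ x, {x | x ∈ G ∧ κ (lab x) (f ⁻¹' {f x}) ≤ c}.indicator (1 : Ω → ℝ≥0∞) x =
      {p : Y × Ω | p.2 ∈ G ∧ κ p.1 (f ⁻¹' {f p.2}) ≤ c}.indicator 1 (lab x, x) := by
    intro x
    simp [indicator]
  simp_rw [h2]
  rw [h1, ← lintegral_const]
  refine lintegral_mono_ae ?_
  filter_upwards [ae_condDistrib_atom μ hl MeasurableSet.univ (ae_of_all _ fun _ => trivial)]
    with x hx
  obtain ⟨s, hs, hs'⟩ := hQ (lab x)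
  have hT : MeasurableSet {w | w ∈ G ∧ κ (lab x) (f ⁻¹' {f w}) ≤ c} :=
    measurable_prodMk_left hS
  have h3 : ∀ w, {p : Y × Ω | p.2 ∈ G ∧ κ p.1 (f ⁻¹' {f p.2}) ≤ c}.indicator
      (1 : Y × Ω → ℝ≥0∞) (lab x, w) =
      {w | w ∈ G ∧ κ (lab x) (f ⁻¹' {f w}) ≤ c}.indicator 1 w := by
    intro w
    simp [indicator]
  simp_rw [h3]
  rw [lintegral_indicator_one hT]
  calc κ (lab x) {w | w ∈ G ∧ κ (lab x) (f ⁻¹' {f w}) ≤ c}
      ≤ κ (lab x) (⋃ i ∈ s.filter (fun i => κ (lab x) (f ⁻¹' {i}) ≤ c), f ⁻¹' {i}) := by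
        refine measure_mono_ae (hx.mono fun w hw hw' => ?_)
        exact mem_iUnion₂.2 ⟨f w, Finset.mem_filter.2 ⟨hs' w hw'.1 hw.1, hw'.2⟩, rfl⟩
    _ ≤ ∑ i ∈ s.filter (fun i => κ (lab x) (f ⁻¹' {i}) ≤ c), κ (lab x) (f ⁻¹' {i}) :=
        measure_biUnion_finset_le _ _
    _ ≤ ∑ _i ∈ s.filter (fun i => κ (lab x) (f ⁻¹' {i}) ≤ c), c :=
        Finset.sum_le_sum fun i hi => (Finset.mem_filter.1 hi).2
    _ ≤ Q * c := by
        rw [Finset.sum_const, nsmul_eq_mul]
        gcongr
        exact (Finset.card_filter_le _ _).trans hs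

end Pool.Agent.P.MP_d483fb_an.Z


end

section

/-!
# The Lusin half of the Fano–Lusin lemma (E8)

A measurable map `L` to a finite type is, off a set of small measure, constant on `Rel δ`-pairs;
hence it can be guessed from a label whose atoms only contain `Rel δ`-pairs.
-/

open MeasureTheory Set Filter
open scoped ENNReal

namespace Pool.Agent.P.MP_d483fb_an.Z

/-- `Rel` separates disjoint compact sets: it is monotone in `δ` and any two disjoint compact sets
contain no `Rel δ`-pair for some `δ > 0`. -/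
structure LusinRel {Z : Type*} [TopologicalSpace Z] (Rel : ℝ → Z → Z → Prop) : Prop where
  mono : ∀ ⦃δ δ' : ℝ⦄, 0 < δ → δ ≤ δ' → ∀ ⦃z z' : Z⦄, Rel δ z z' → Rel δ' z z'
  sep : ∀ Q Q' : Set Z, IsCompact Q → IsCompact Q' → Disjoint Q Q' →
    ∃ δ > 0, ∀ z ∈ Q, ∀ z' ∈ Q', ¬ Rel δ z z'

/-- Off a set of small measure a finitely valued measurable map is constant on `Rel δ`-pairs. -/
theorem LusinRel.exists_compact {Z : Type*} [TopologicalSpace Z] [PolishSpace Z]
    [MeasurableSpace Z] [BorelSpace Z] {Rel : ℝ → Z → Z → Prop} (hR : LusinRel Rel)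
    (ν : Measure Z) [IsFiniteMeasure ν] {ι : Type*} [Finite ι] [MeasurableSpace ι]
    [MeasurableSingletonClass ι] {L : Z → ι} (hL : Measurable L) {η : ℝ≥0∞} (hη : η ≠ 0) :
    ∃ δ > 0, ∃ Q : Set Z, IsCompact Q ∧ ν Qᶜ ≤ η ∧
      ∀ z ∈ Q, ∀ z' ∈ Q, Rel δ z z' → L z = L z' := by
  classical
  obtain ⟨e, he0, he⟩ := ENNReal.exists_pos_sum_of_countable hη ι
  have h1 : ∀ i : ι, ∃ K ⊆ L ⁻¹' {i}, IsCompact K ∧ ν (L ⁻¹' {i} \ K) < e i := fun i =>
    (hL (measurableSet_singleton i)).exists_isCompact_sdiff_lt (measure_ne_top _ _)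
      (by exact_mod_cast (he0 i).ne')
  choose K hKs hKc hKν using h1
  have h2 : ∀ p : ι × ι, ∃ δ > 0, p.1 ≠ p.2 → ∀ z ∈ K p.1, ∀ z' ∈ K p.2, ¬ Rel δ z z' := by
    intro p
    by_cases hp : p.1 = p.2
    · exact ⟨1, one_pos, fun h => (h hp).elim⟩
    · obtain ⟨δ, hδ, h⟩ := hR.sep (K p.1) (K p.2) (hKc _) (hKc _) (by
        rw [Set.disjoint_left]
        intro z h1 h2
        exact hp ((hKs _ h1).symm.trans (hKs _ h2)))
      exact ⟨δ, hδ, fun _ => h⟩
  choose δ hδ0 hδ using h2
  obtain ⟨δ0, hδ00, hδ0le⟩ : ∃ δ0 > 0, ∀ p, δ0 ≤ δ p := by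
    rcases isEmpty_or_nonempty (ι × ι) with h | h
    · exact ⟨1, one_pos, fun p => h.elim p⟩
    · obtain ⟨p0, hp0⟩ := Finite.exists_min δ
      exact ⟨δ p0, hδ0 p0, hp0⟩
  refine ⟨δ0, hδ00, ⋃ i, K i, isCompact_iUnion hKc, ?_, ?_⟩
  · have hsub : (⋃ i, K i)ᶜ ⊆ ⋃ i, (L ⁻¹' {i} \ K i) := by
      intro z hz
      simp only [mem_compl_iff, mem_iUnion, not_exists] at hz
      exact mem_iUnion.2 ⟨L z, rfl, hz _⟩
    calc ν (⋃ i, K i)ᶜ ≤ ∑' i, ν (L ⁻¹' {i} \ K i) :=
          (measure_mono hsub).trans (measure_iUnion_le _)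
      _ ≤ ∑' i, (e i : ℝ≥0∞) := ENNReal.tsum_le_tsum fun i => (hKν i).le
      _ ≤ η := he.le
  · intro z hz z' hz' hrel
    obtain ⟨i, hi⟩ := mem_iUnion.1 hz
    obtain ⟨j, hj⟩ := mem_iUnion.1 hz'
    by_cases hij : i = j
    · exact (hKs _ hi).trans (hij.trans (hKs _ hj).symm)
    · exact (hδ (i, j) hij z hi z' hj (hR.mono hδ00 (hδ0le _) hrel)).elim

/-- The guess.  For `η > 0` there is `δ > 0` (depending only on the law `ν`, `L` and `Rel`) such
that whenever `Lam` has law `ν` and the atoms of the label `g` inside the measurable set `S` only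
contain `Rel δ`-pairs, `L ∘ Lam` is a measurable function of `g` on `S` off a set of measure `η`. -/
theorem LusinRel.exists_guess {Z : Type*} [TopologicalSpace Z] [PolishSpace Z]
    [MeasurableSpace Z] [BorelSpace Z] {Rel : ℝ → Z → Z → Prop} (hR : LusinRel Rel)
    (ν : Measure Z) [IsFiniteMeasure ν] {ι : Type*} [Finite ι] [Nonempty ι] [MeasurableSpace ι]
    [MeasurableSingletonClass ι] {L : Z → ι} (hL : Measurable L) {η : ℝ≥0∞} (hη : η ≠ 0) :
    ∃ δ > 0, ∀ {Ω Y : Type*} [MeasurableSpace Ω] [StandardBorelSpace Ω] [MeasurableSpace Y]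
      [StandardBorelSpace Y] (μ : Measure Ω) (Lam : Ω → Z) (g : Ω → Y) (S : Set Ω),
      Measurable Lam → μ.map Lam = ν → Measurable g → MeasurableSet S →
      (∀ y ∈ S, ∀ y' ∈ S, g y = g y' → Rel δ (Lam y) (Lam y')) →
      ∃ φ : Y → ι, Measurable φ ∧ μ {y | y ∈ S ∧ L (Lam y) ≠ φ (g y)} ≤ η := by
  obtain ⟨δ, hδ, Q, hQ, hQν, hQR⟩ := hR.exists_compact ν hL hη
  refine ⟨δ, hδ, ?_⟩
  intro Ω Y _ _ _ _ μ Lam g S hLam hmap hg hS hrel
  have hQm : MeasurableSet Q := hQ.isClosed.measurableSet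
  obtain ⟨φ, hφ, hφ'⟩ := exists_factor hg (hL.comp hLam) (hS.inter (hLam hQm))
    (fun x hx y hy hxy => hQR _ hx.2 _ hy.2 (hrel x hx.1 y hy.1 hxy))
  refine ⟨φ, hφ, ?_⟩
  calc μ {y | y ∈ S ∧ L (Lam y) ≠ φ (g y)} ≤ μ (Lam ⁻¹' Qᶜ) := by
        refine measure_mono fun y hy hyQ => hy.2 ?_
        exact hφ' y ⟨hy.1, hyQ⟩
    _ = ν Qᶜ := by rw [← hmap, Measure.map_apply hLam hQm.compl]
    _ ≤ η := hQν

end Pool.Agent.P.MP_d483fb_an.Z


end

section

/-!
Conditional information given a label: definitions.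
A label is a measurable map to a standard Borel space, a digit a measurable map to a countable type.
-/

namespace Pool.Agent.P.MP_d483fb_an.Z.Ent

open MeasureTheory ProbabilityTheory Set Filter

section det
variable {Ω Y Z : Type*} [MeasurableSpace Ω]

/-- On a conull set the value of `g` determines the value of `f`. -/
def Det (μ : Measure Ω) (g : Ω → Y) (f : Ω → Z) : Prop :=
  ∃ S : Set Ω, (∀ᵐ x ∂μ, x ∈ S) ∧ ∀ x ∈ S, ∀ y ∈ S, g x = g y → f x = f y

/-- The set `B` is a union of atoms of `g`, inside a conull set. -/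
def Sat (μ : Measure Ω) (g : Ω → Y) (B : Set Ω) : Prop := Det μ g fun x => x ∈ B

/-- The pair of two labels. -/
abbrev pr2 (f : Ω → Y) (g : Ω → Z) : Ω → Y × Z := fun x => (f x, g x)

/-- An increasing label: the atoms of `F ∘ T` are those of `(F, d)`. -/
def Incr (μ : Measure Ω) (T : Ω → Ω) (F : Ω → Y) (d : Ω → Z) : Prop :=
  Det μ (F ∘ T) (pr2 F d) ∧ Det μ (pr2 F d) (F ∘ T)

/-- The first `n` digits along the orbit. -/
def names (T : Ω → Ω) (d : Ω → Z) (n : ℕ) (x : Ω) : Fin n → Z := fun i => d (T^[i] x)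

/-- Unconditional information of a digit. -/
noncomputable def I0 (μ : Measure Ω) (d : Ω → Z) (x : Ω) : ℝ :=
  -Real.log (μ.real {y | d y = d x})

/-- The digit has finite entropy. -/
def FinEnt (μ : Measure Ω) (d : Ω → Z) : Prop := Integrable (I0 μ d) μ

/-- Unconditional entropy of a digit. -/
noncomputable def H0 (μ : Measure Ω) (d : Ω → Z) : ℝ := ∫ x, I0 μ d x ∂μ

/-- The rectangle property of the digit `e` on the atoms of `F` for the coordinates `s`, `al`. -/
def Rect {D S A : Type*} (μ : Measure Ω) (F : Ω → Z) (e : Ω → D) (s : Ω → S) (al : Ω → A) : Prop :=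
  ∃ W : Set Ω, (∀ᵐ x ∂μ, x ∈ W) ∧ ∀ y₁ ∈ W, ∀ y₂ ∈ W, ∀ y₁' ∈ W, ∀ y₂' ∈ W,
    F y₁ = F y₂ → F y₁ = F y₁' → F y₁ = F y₂' → e y₁ = e y₂ → e y₁' = e y₂' →
    s y₁ = s y₁' → al y₂ = al y₂' → e y₁ = e y₁'

/-- The `al`-diameters of the atoms of `(F, e n)` tend to zero off small sets. -/
def Shrink {D : ℕ → Type*} {A : Type*} [PseudoMetricSpace A] (μ : Measure Ω) (F : Ω → Z)
    (e : ∀ n, Ω → D n) (al : Ω → A) : Prop :=
  ∀ δ : ℝ, 0 < δ → ∀ η : ℝ, 0 < η → ∀ᶠ n in atTop, ∃ G : Set Ω, MeasurableSet G ∧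
    μ.real Gᶜ ≤ η ∧ ∀ x ∈ G, ∀ y ∈ G, F x = F y → e n x = e n y → dist (al x) (al y) ≤ δ

/-- The label `g n` and the first `k` digits determine `Lam ∘ T^[k]` up to `Rel δ`, on `B n` off a
small set, for all `k` in `[k₀, n)`. -/
def Near {D : Type*} {Y : ℕ → Type*} (μ : Measure Ω) (T : Ω → Ω) (d : Ω → D) (Lam : Ω → Z)
    (Rel : ℝ → Z → Z → Prop) (g : ∀ n, Ω → Y n) (B : ℕ → Set Ω) : Prop :=
  ∀ δ : ℝ, 0 < δ → ∀ η : ℝ, 0 < η → ∃ k₀ : ℕ, ∀ᶠ n in atTop, ∀ k, k₀ ≤ k → k < n →
    ∃ G : Set Ω, MeasurableSet G ∧ μ.real (B n \ G) ≤ η ∧ ∀ y ∈ G ∩ B n, ∀ y' ∈ G ∩ B n,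
      g n y = g n y' → (∀ i < k, d (T^[i] y) = d (T^[i] y')) →
      Rel δ (Lam (T^[k] y)) (Lam (T^[k] y'))

end det

variable {Ω Z D : Type*} [MeasurableSpace Ω] [StandardBorelSpace Ω] [Nonempty Ω]
  [MeasurableSpace Z]

/-- The conditional measure of `μ` on the atom of `x` for the label `g`. -/
noncomputable def cp (μ : Measure Ω) [IsFiniteMeasure μ] (g : Ω → Z) (x : Ω) : Measure Ω :=
  condDistrib id g μ (g x)

instance (μ : Measure Ω) [IsFiniteMeasure μ] (g : Ω → Z) (x : Ω) :
    IsProbabilityMeasure (cp μ g x) := by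
  unfold cp
  infer_instance

/-- The conditional measures as a kernel. -/
noncomputable def cpK (μ : Measure Ω) [IsFiniteMeasure μ] {g : Ω → Z} (hg : Measurable g) :
    Kernel Ω Ω :=
  (condDistrib id g μ).comap g hg

instance (μ : Measure Ω) [IsFiniteMeasure μ] {g : Ω → Z} (hg : Measurable g) :
    IsMarkovKernel (cpK μ hg) := by
  unfold cpK
  infer_instance

@[simp] theorem cpK_apply (μ : Measure Ω) [IsFiniteMeasure μ] {g : Ω → Z} (hg : Measurable g)
    (x : Ω) : cpK μ hg x = cp μ g x := rfl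

/-- Conditional probability of the value of the digit `f` at `x` given the label `g`. -/
noncomputable def Pc (μ : Measure Ω) [IsFiniteMeasure μ] (f : Ω → D) (g : Ω → Z) (x : Ω) : ℝ :=
  (cp μ g x).real {y | f y = f x}

/-- Conditional information. -/
noncomputable def Ic (μ : Measure Ω) [IsFiniteMeasure μ] (f : Ω → D) (g : Ω → Z) (x : Ω) : ℝ :=
  -Real.log (Pc μ f g x)

/-- Conditional entropy. -/
noncomputable def Hc (μ : Measure Ω) [IsFiniteMeasure μ] (f : Ω → D) (g : Ω → Z) : ℝ :=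
  ∫ x, Ic μ f g x ∂μ

end Pool.Agent.P.MP_d483fb_an.Z.Ent


end

section

/-!
The calculus of `Det` and the basic properties of conditional measures (E1, uniqueness).
-/

namespace Pool.Agent.P.MP_d483fb_an.Z.Ent

open MeasureTheory ProbabilityTheory Set Filter
open scoped ENNReal

section det
variable {Ω Ω' X Y Z : Type*} [MeasurableSpace Ω] [MeasurableSpace Ω'] {μ : Measure Ω}

theorem Det.of_forall {g : Ω → Y} {f : Ω → Z} (h : ∀ x y, g x = g y → f x = f y) : Det μ g f :=
  ⟨univ, ae_of_all _ fun _ => mem_univ _, fun x _ y _ => h x y⟩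

theorem Det.refl (g : Ω → Y) : Det μ g g := Det.of_forall fun _ _ h => h

theorem Det.trans {f : Ω → X} {g : Ω → Y} {h : Ω → Z} (h1 : Det μ f g) (h2 : Det μ g h) :
    Det μ f h := by
  obtain ⟨S, hS, h1⟩ := h1
  obtain ⟨S', hS', h2⟩ := h2
  exact ⟨S ∩ S', hS.and hS', fun x hx y hy e => h2 x hx.2 y hy.2 (h1 x hx.1 y hy.1 e)⟩

theorem Det.pair {f : Ω → X} {g : Ω → Y} {h : Ω → Z} (h1 : Det μ f g) (h2 : Det μ f h) :
    Det μ f (pr2 g h) := by
  obtain ⟨S, hS, h1⟩ := h1
  obtain ⟨S', hS', h2⟩ := h2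
  exact ⟨S ∩ S', hS.and hS', fun x hx y hy e =>
    Prod.ext (h1 x hx.1 y hy.1 e) (h2 x hx.2 y hy.2 e)⟩

theorem Det.fst (f : Ω → X) (g : Ω → Y) : Det μ (pr2 f g) f :=
  Det.of_forall fun _ _ h => congrArg Prod.fst h

theorem Det.snd (f : Ω → X) (g : Ω → Y) : Det μ (pr2 f g) g :=
  Det.of_forall fun _ _ h => congrArg Prod.snd h

theorem Det.of_ae_eq {g : Ω → Y} {f : Ω → Z} (φ : Y → Z) (h : ∀ᵐ x ∂μ, f x = φ (g x)) :
    Det μ g f :=
  ⟨{x | f x = φ (g x)}, h, fun x hx y hy e => by
    rw [show f x = φ (g x) from hx, show f y = φ (g y) from hy, e]⟩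

theorem Det.pi {ι : Type*} [Countable ι] {W : ι → Type*} {g : Ω → Y} {f : ∀ i, Ω → W i}
    (h : ∀ i, Det μ g (f i)) : Det μ g fun x i => f i x := by
  choose S hS h using h
  refine ⟨⋂ i, S i, ?_, fun x hx y hy e => funext fun i =>
    h i x (mem_iInter.1 hx i) y (mem_iInter.1 hy i) e⟩
  filter_upwards [ae_all_iff.2 hS] with x hx using mem_iInter.2 hx

theorem Det.mono_ac {ν : Measure Ω} (hν : ν ≪ μ) {g : Ω → Y} {f : Ω → Z} (h : Det μ g f) :
    Det ν g f := by
  obtain ⟨S, hS, h⟩ := h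
  exact ⟨S, hν.ae_le hS, h⟩

theorem Det.restrict {g : Ω → Y} {f : Ω → Z} (h : Det μ g f) (B : Set Ω) :
    Det (μ.restrict B) g f :=
  h.mono_ac Measure.absolutelyContinuous_restrict

theorem Det.comp {ν : Measure Ω'} {T : Ω → Ω'} (hT : Measure.QuasiMeasurePreserving T μ ν)
    {g : Ω' → Y} {f : Ω' → Z} (h : Det ν g f) : Det μ (g ∘ T) (f ∘ T) := by
  obtain ⟨S, hS, h⟩ := h
  exact ⟨T ⁻¹' S, hT.ae hS, fun x hx y hy e => h _ hx _ hy e⟩

theorem Det.exists_measurableSet {g : Ω → Y} {f : Ω → Z} (h : Det μ g f) :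
    ∃ S : Set Ω, MeasurableSet S ∧ (∀ᵐ x ∂μ, x ∈ S) ∧
      ∀ x ∈ S, ∀ y ∈ S, g x = g y → f x = f y := by
  obtain ⟨S, hS, h⟩ := h
  obtain ⟨t, ht, htm, ht0⟩ := exists_measurable_superset_of_null (mem_ae_iff.1 hS)
  have hsub : ∀ x ∈ tᶜ, x ∈ S := fun x hx => by
    by_contra hxS
    exact hx (ht hxS)
  refine ⟨tᶜ, htm.compl, ?_, fun x hx y hy => h x (hsub x hx) y (hsub y hy)⟩
  rw [ae_iff]
  simpa using ht0

theorem Sat.univ (g : Ω → Y) : Sat μ g univ := Det.of_forall fun _ _ _ => rfl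

theorem Sat.compl {g : Ω → Y} {B : Set Ω} (h : Sat μ g B) : Sat μ g Bᶜ :=
  Det.trans h (Det.of_forall fun _ _ e => congrArg Not e)

theorem Sat.inter {g : Ω → Y} {B C : Set Ω} (h : Sat μ g B) (h' : Sat μ g C) :
    Sat μ g (B ∩ C) :=
  Det.trans (Det.pair h h') (Det.of_forall fun _ _ e =>
    congrArg (fun p : Prop × Prop => p.1 ∧ p.2) e)

theorem Sat.of_det {f : Ω → X} {g : Ω → Y} {B : Set Ω} (h : Det μ f g) (hB : Sat μ g B) :
    Sat μ f B := Det.trans h hB

theorem Sat.preimage {f : Ω → X} {g : Ω → Y} (h : Det μ f g) (C : Set Y) :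
    Sat μ f (g ⁻¹' C) :=
  Det.trans h (Det.of_forall fun _ _ e => congrArg (fun z => z ∈ C) e)

theorem measurable_names [MeasurableSpace Z] {T : Ω → Ω} (hT : Measurable T) {d : Ω → Z}
    (hd : Measurable d) (n : ℕ) : Measurable (names T d n) :=
  measurable_pi_lambda _ fun i => hd.comp (hT.iterate i)

omit [MeasurableSpace Ω] in
theorem names_eq_iff {T : Ω → Ω} {d : Ω → Z} {n : ℕ} {x y : Ω} :
    names T d n x = names T d n y ↔ ∀ i < n, d (T^[i] x) = d (T^[i] y) :=
  ⟨fun h i hi => congrFun h ⟨i, hi⟩, fun h => funext fun i => h i i.2⟩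

/-- Iterating an increasing label. -/
theorem Incr.iter {T : Ω → Ω} (hT : Measure.QuasiMeasurePreserving T μ μ) {F : Ω → Y} {d : Ω → Z}
    (h : Incr μ T F d) (n : ℕ) :
    Det μ (F ∘ T^[n]) (pr2 F (names T d n)) ∧ Det μ (pr2 F (names T d n)) (F ∘ T^[n]) := by
  induction n with
  | zero =>
    exact ⟨Det.of_forall fun x y e => Prod.ext e (names_eq_iff.2 fun i hi => absurd hi (by omega)),
      Det.fst _ _⟩
  | succ n ih =>
    have h1 := h.1.comp (hT.iterate n)
    have h2 := h.2.comp (hT.iterate n)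
    rw [Function.iterate_succ']
    constructor
    · have a : Det μ (F ∘ T ∘ T^[n]) (F ∘ T^[n]) :=
        h1.trans (Det.of_forall fun _ _ e => congrArg Prod.fst e)
      have b : Det μ (F ∘ T ∘ T^[n]) (d ∘ T^[n]) :=
        h1.trans (Det.of_forall fun _ _ e => congrArg Prod.snd e)
      refine ((a.trans ih.1).pair b).trans (Det.of_forall fun x y e => ?_)
      have e1 : F x = F y := congrArg (fun p => p.1.1) e
      have e2 : names T d n x = names T d n y := congrArg (fun p => p.1.2) e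
      have e3 : d (T^[n] x) = d (T^[n] y) := congrArg Prod.snd e
      refine Prod.ext e1 (names_eq_iff.2 fun i hi => ?_)
      rcases Nat.lt_succ_iff_lt_or_eq.1 hi with hi | rfl
      · exact names_eq_iff.1 e2 i hi
      · exact e3
    · have a : Det μ (pr2 F (names T d (n + 1))) (pr2 F (names T d n)) :=
        Det.of_forall fun x y e => Prod.ext (Prod.ext_iff.1 e).1 (names_eq_iff.2 fun i hi =>
          names_eq_iff.1 (Prod.ext_iff.1 e).2 i (by omega))
      have b : Det μ (pr2 F (names T d (n + 1))) (d ∘ T^[n]) :=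
        Det.of_forall fun x y e => names_eq_iff.1 (congrArg Prod.snd e) n (by omega)
      exact ((a.trans ih.2).pair b).trans h2

end det

variable {Ω Y Z : Type*} [MeasurableSpace Ω] [StandardBorelSpace Ω]
  [MeasurableSpace Y] [StandardBorelSpace Y] [MeasurableSpace Z] [StandardBorelSpace Z]
  {μ : Measure Ω}

/-- E2, factorisation. -/
theorem Det.exists_factor [Nonempty Ω] {g : Ω → Y} {f : Ω → Z} (hg : Measurable g)
    (hf : Measurable f) (h : Det μ g f) : ∃ φ : Y → Z, Measurable φ ∧ ∀ᵐ x ∂μ, f x = φ (g x) := by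
  have : Nonempty Z := ⟨f (Classical.arbitrary Ω)⟩
  obtain ⟨S, hS, h⟩ := h
  exact exists_factor_ae hg hf hS h

theorem Sat.exists_set {g : Ω → Y} (hg : Measurable g) {B : Set Ω} (hB : MeasurableSet B)
    (h : Sat μ g B) : ∃ C : Set Y, MeasurableSet C ∧ ∀ᵐ x ∂μ, (x ∈ B ↔ g x ∈ C) := by
  obtain ⟨S, hS, hS', h⟩ := Det.exists_measurableSet h
  obtain ⟨C, hC, hC'⟩ := exists_sat hg hS hB fun x hx y hy e hb => (h x hx y hy e).mp hb
  exact ⟨C, hC, hS'.mono hC'⟩

variable [Nonempty Ω] [IsFiniteMeasure μ] {g : Ω → Z}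

omit [StandardBorelSpace Z] in
theorem cp_eq_of_eq {x y : Ω} (h : g x = g y) : cp μ g x = cp μ g y := by
  unfold cp
  rw [h]

omit [StandardBorelSpace Z] in
theorem measurable_cp (hg : Measurable g) : Measurable (cp μ g) := (cpK μ hg).measurable

omit [StandardBorelSpace Z] in
/-- Disintegration. -/
theorem lintegral_cp (hg : Measurable g) {F : Z → Ω → ℝ≥0∞} (hF : Measurable (Function.uncurry F)) :
    ∫⁻ x, ∫⁻ y, F (g x) y ∂(cp μ g x) ∂μ = ∫⁻ y, F (g y) y ∂μ := by
  have h1 := Measure.lintegral_compProd (μ := μ.map g) (κ := condDistrib id g μ) hF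
  rw [compProd_map_condDistrib aemeasurable_id, lintegral_map hF (hg.prodMk measurable_id),
    lintegral_map hF.lintegral_kernel_prod_right' hg] at h1
  exact h1.symm

omit [StandardBorelSpace Z] in
theorem bind_cp (hg : Measurable g) : μ.bind (cp μ g) = μ := by
  ext A hA
  rw [Measure.bind_apply hA (measurable_cp hg).aemeasurable]
  simpa [cp] using setLIntegral_preimage_condDistrib (μ := μ) (Y := id) hg aemeasurable_id hA
    MeasurableSet.univ

omit [StandardBorelSpace Z] in
theorem setLIntegral_cp (hg : Measurable g) {C : Set Z} (hC : MeasurableSet C) {A : Set Ω}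
    (hA : MeasurableSet A) : ∫⁻ x in g ⁻¹' C, cp μ g x A ∂μ = μ (g ⁻¹' C ∩ A) :=
  setLIntegral_preimage_condDistrib (μ := μ) (Y := id) hg aemeasurable_id hA hC

omit [StandardBorelSpace Z] in
theorem ae_cp (hg : Measurable g) {p : Ω → Prop} (h : ∀ᵐ x ∂μ, p x) :
    ∀ᵐ x ∂μ, ∀ᵐ y ∂(cp μ g x), p y := by
  rw [← bind_cp (μ := μ) hg] at h
  exact Measure.ae_ae_of_ae_bind (measurable_cp hg).aemeasurable h

omit [StandardBorelSpace Z] in
theorem ae_of_ae_cp (hg : Measurable g) {p : Ω → Prop} (hp : MeasurableSet {x | p x})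
    (h : ∀ᵐ x ∂μ, ∀ᵐ y ∂(cp μ g x), p y) : ∀ᵐ x ∂μ, p x := by
  have hp' : MeasurableSet {x | ¬ p x} := hp.compl
  rw [ae_iff, ← bind_cp (μ := μ) hg, Measure.bind_apply hp' (measurable_cp hg).aemeasurable]
  rw [lintegral_congr_ae (g := fun _ => 0) (h.mono fun x hx => ae_iff.1 hx), lintegral_zero]

/-- The conditional measure is carried by the atom. -/
theorem cp_atom (hg : Measurable g) : ∀ᵐ x ∂μ, ∀ᵐ y ∂(cp μ g x), g y = g x :=
  (ae_condDistrib_atom μ hg MeasurableSet.univ (ae_of_all _ fun _ => mem_univ _)).mono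
    fun _ h => h.mono fun _ h => h.1

/-- Whatever the label determines is constant under the conditional measure. -/
theorem Det.ae_cp {W : Type*} (hg : Measurable g) {f : Ω → W} (h : Det μ g f) :
    ∀ᵐ x ∂μ, ∀ᵐ y ∂(cp μ g x), f y = f x := by
  obtain ⟨S, hS, h⟩ := h
  filter_upwards [hS, Ent.ae_cp hg hS, cp_atom (μ := μ) hg] with x hx h1 h2
  filter_upwards [h1, h2] with y hy e using h y hy x hx e

/-- Exchangeability of the pair law. -/
theorem lintegral_cp_swap (hg : Measurable g) {F : Ω → Ω → ℝ≥0∞}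
    (hF : Measurable (Function.uncurry F)) :
    ∫⁻ x, ∫⁻ y, F x y ∂(cp μ g x) ∂μ = ∫⁻ x, ∫⁻ y, F y x ∂(cp μ g x) ∂μ := by
  have key : ∀ {F : Ω → Ω → ℝ≥0∞}, Measurable (Function.uncurry F) →
      ∫⁻ x, ∫⁻ y, F x y ∂(cp μ g x) ∂μ =
        ∫⁻ x, ∫⁻ x', ∫⁻ y, F x' y ∂(cp μ g x) ∂(cp μ g x) ∂μ := by
    intro F hF
    have hm : Measurable (Function.uncurry fun (z : Z) (x' : Ω) =>
        ∫⁻ y, F x' y ∂(condDistrib id g μ z)) :=
      Measurable.lintegral_kernel_prod_right'
        (κ := (condDistrib id g μ).comap (Prod.fst : Z × Ω → Z) measurable_fst)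
        (f := fun p : (Z × Ω) × Ω => F p.1.2 p.2)
        (hF.comp ((measurable_snd.comp measurable_fst).prodMk measurable_snd))
    exact (lintegral_cp hg hm).symm
  have hF' : Measurable (Function.uncurry fun x y => F y x) := hF.comp measurable_swap
  rw [key hF, key hF']
  exact lintegral_congr fun x => lintegral_lintegral_swap hF.aemeasurable

theorem compProd_cpK_swap (hg : Measurable g) :
    (μ ⊗ₘ cpK μ hg).map Prod.swap = μ ⊗ₘ cpK μ hg := by
  ext s hs
  rw [Measure.map_apply measurable_swap hs, ← lintegral_indicator_one hs,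
    ← lintegral_indicator_one (measurable_swap hs),
    Measure.lintegral_compProd (measurable_one.indicator hs),
    Measure.lintegral_compProd (measurable_one.indicator (measurable_swap hs))]
  exact (lintegral_cp_swap hg (F := fun x y => s.indicator 1 (x, y))
    (measurable_one.indicator hs)).symm

theorem setLIntegral_cp_sat (hg : Measurable g) {B A : Set Ω} (hB : MeasurableSet B)
    (hs : Sat μ g B) (hA : MeasurableSet A) : ∫⁻ x in B, cp μ g x A ∂μ = μ (B ∩ A) := by
  obtain ⟨C, hC, h⟩ := hs.exists_set hg hB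
  have e : B =ᵐ[μ] g ⁻¹' C := h.mono fun x hx => propext hx
  rw [setLIntegral_congr e, setLIntegral_cp hg hC hA]
  exact (measure_congr (e.inter (ae_eq_refl A))).symm

/-- Uniqueness of conditional measures. -/
theorem cp_unique (hg : Measurable g) {κ : Ω → Measure Ω} (hκ : Measurable κ) (hd : Det μ g κ)
    (h : ∀ C : Set Z, MeasurableSet C → ∀ A : Set Ω, MeasurableSet A →
      ∫⁻ x in g ⁻¹' C, κ x A ∂μ = μ (g ⁻¹' C ∩ A)) : ∀ᵐ x ∂μ, κ x = cp μ g x := by
  have key : ∀ A : Set Ω, MeasurableSet A → ∀ᵐ x ∂μ, κ x A = cp μ g x A := by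
    intro A hA
    have hm : Measurable fun x => κ x A := (Measure.measurable_coe hA).comp hκ
    obtain ⟨φ, hφ, e⟩ := Det.exists_factor hg hm
      (hd.trans (Det.of_forall fun _ _ e => congrArg (fun m : Measure Ω => m A) e))
    have h2 : φ =ᵐ[μ.map g] fun z => condDistrib id g μ z A := by
      refine ae_eq_of_forall_setLIntegral_eq_of_sigmaFinite hφ (Kernel.measurable_coe _ hA)
        fun C hC _ => ?_
      rw [setLIntegral_map hC hφ hg, setLIntegral_map hC (Kernel.measurable_coe _ hA) hg]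
      refine Eq.trans ?_ ((h C hC A hA).trans (setLIntegral_cp hg hC hA).symm)
      exact lintegral_congr_ae (ae_restrict_of_ae (e.mono fun x hx => hx.symm))
    filter_upwards [e, ae_of_ae_map hg.aemeasurable h2] with x h1 h2 using h1.trans h2
  let 𝒜 := generateSetAlgebra (MeasurableSpace.countableGeneratingSet Ω)
  have hc : 𝒜.Countable :=
    countable_generateSetAlgebra MeasurableSpace.countable_countableGeneratingSet
  have hgen : ‹MeasurableSpace Ω› = MeasurableSpace.generateFrom 𝒜 := by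
    rw [generateFrom_generateSetAlgebra_eq, MeasurableSpace.generateFrom_countableGeneratingSet]
  have hme : ∀ A ∈ 𝒜, MeasurableSet A := fun A hA =>
    hgen ▸ MeasurableSpace.measurableSet_generateFrom hA
  filter_upwards [(ae_ball_iff hc).2 fun A hA => key A (hme A hA), key univ MeasurableSet.univ]
    with x h1 h2
  exact (ext_of_generate_finite 𝒜 hgen
    isSetAlgebra_generateSetAlgebra.isSetRing.isSetSemiring.isPiSystem (fun A hA => (h1 A hA).symm) h2.symm).symm

theorem cp_unique' (hg : Measurable g) {κ : Ω → Measure Ω} (hκ : Measurable κ) (hd : Det μ g κ)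
    (ha : ∀ᵐ x ∂μ, ∀ᵐ y ∂(κ x), g y = g x)
    (h : ∀ A : Set Ω, MeasurableSet A → ∫⁻ x, κ x A ∂μ = μ A) : ∀ᵐ x ∂μ, κ x = cp μ g x := by
  refine cp_unique hg hκ hd fun C hC A hA => ?_
  rw [← h _ ((hg hC).inter hA), ← lintegral_indicator (hg hC)]
  refine lintegral_congr_ae (ha.mono fun x hx => ?_)
  by_cases hx' : g x ∈ C
  · rw [indicator_of_mem (show x ∈ g ⁻¹' C from hx')]
    refine measure_congr (hx.mono fun y hy => propext ⟨fun h => ⟨?_, h⟩, fun h => h.2⟩)
    show g y ∈ C
    rwa [hy]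
  · rw [indicator_of_notMem (show x ∉ g ⁻¹' C from hx')]
    refine (measure_mono_null (fun y hy => ?_) (ae_iff.1 hx)).symm
    intro e
    exact hx' (e ▸ hy.1)

end Pool.Agent.P.MP_d483fb_an.Z.Ent


end

section

/-!
Conditional measures: change of label, of measure, of space (E2, E3, E3', E4).
-/

namespace Pool.Agent.P.MP_d483fb_an.Z.Ent

open MeasureTheory ProbabilityTheory Set Filter
open scoped ENNReal

variable {Ω Y Z D : Type*} [MeasurableSpace Ω] [StandardBorelSpace Ω] [Nonempty Ω]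
  [MeasurableSpace Y] [StandardBorelSpace Y] [MeasurableSpace Z] [StandardBorelSpace Z]
  [MeasurableSpace D] [Countable D] [MeasurableSingletonClass D]
  {μ : Measure Ω} [IsFiniteMeasure μ] {g : Ω → Z} {g' : Ω → Y} {f : Ω → D}

omit [StandardBorelSpace Z] in
theorem E2_lintegral (hg : Measurable g) {A : Set Ω} (hA : MeasurableSet A) :
    ∫⁻ x, cp μ g x A ∂μ = μ A := by
  simpa using setLIntegral_cp (μ := μ) hg MeasurableSet.univ hA

omit [StandardBorelSpace Z] in
theorem E2_det {ν : Measure Ω} : Det ν g (cp μ g) :=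
  Det.of_forall fun _ _ e => cp_eq_of_eq e

omit [StandardBorelSpace Z] in
theorem E2_meas (hg : Measurable g) {A : Set Ω} (hA : MeasurableSet A) :
    Measurable fun x => cp μ g x A :=
  (Measure.measurable_coe hA).comp (measurable_cp hg)

/-- E2. -/
theorem cp_congr (hg : Measurable g) (hg' : Measurable g') (h : Det μ g g') (h' : Det μ g' g) :
    ∀ᵐ x ∂μ, cp μ g x = cp μ g' x := by
  have := cp_unique' (μ := μ) hg (κ := cp μ g') (measurable_cp hg') (h.trans E2_det)
    (Det.ae_cp hg' h') fun A hA => E2_lintegral hg' hA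
  exact this.mono fun x hx => hx.symm

/-- Tower property, `g'` finer than `g`. -/
theorem cp_tower (hg : Measurable g) (hg' : Measurable g') (h : Det μ g' g) :
    ∀ᵐ x ∂μ, (cp μ g x).bind (cp μ g') = cp μ g x := by
  refine cp_unique' (μ := μ) hg (κ := fun x => (cp μ g x).bind (cp μ g'))
    ((Measure.measurable_bind' (measurable_cp hg')).comp (measurable_cp hg))
    (Det.of_forall fun x y e => by rw [cp_eq_of_eq e]) ?_ ?_
  · filter_upwards [cp_atom (μ := μ) hg, ae_cp hg (Det.ae_cp hg' h)] with x h1 h2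
    have hm : MeasurableSet {y | ¬ g y = g x} := (hg (measurableSet_singleton (g x))).compl
    rw [ae_iff, Measure.bind_apply hm (measurable_cp hg').aemeasurable]
    refine (lintegral_congr_ae (g := fun _ => 0) ?_).trans lintegral_zero
    filter_upwards [h1, h2] with z hz1 hz2
    rw [← hz1]
    exact ae_iff.1 hz2
  · intro A hA
    simp only [Measure.bind_apply hA (measurable_cp (μ := μ) hg').aemeasurable]
    rw [lintegral_cp (μ := μ) hg (F := fun _ y => cp μ g' y A)
      ((E2_meas hg' hA).comp measurable_snd), E2_lintegral hg' hA]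

/-- Conditioning inside an atom. -/
theorem cp_cp (hg : Measurable g) (hg' : Measurable g') :
    ∀ᵐ x ∂μ, ∀ᵐ y ∂(cp μ g x), cp (cp μ g x) g' y = cp μ (pr2 g g') y := by
  have hp : Measurable (pr2 g g') := hg.prodMk hg'
  filter_upwards [cp_atom (μ := μ) hg, ae_cp hg (cp_atom (μ := μ) hp),
    cp_tower (μ := μ) hg hp (Det.fst g g')] with x h1 h2 h3
  have := cp_unique' (μ := cp μ g x) hg' (κ := cp μ (pr2 g g')) (measurable_cp hp)
    ⟨{y | g y = g x}, h1, fun y hy z hz e => cp_eq_of_eq (Prod.ext (hy.trans hz.symm) e)⟩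
    (h2.mono fun y hy => hy.mono fun z hz => congrArg Prod.snd hz) fun A hA => by
      rw [← Measure.bind_apply hA (measurable_cp (μ := μ) hp).aemeasurable, h3]
  exact this.mono fun y hy => hy.symm

theorem cp_smul (hg : Measurable g) {c : ℝ≥0∞} (h0 : c ≠ 0) {ν : Measure Ω} [IsFiniteMeasure ν]
    (h : ν = c • μ) : ∀ᵐ x ∂μ, cp ν g x = cp μ g x := by
  by_cases hc : c = ∞
  · have h1 : ν univ ≠ ∞ := measure_ne_top _ _
    rw [h, hc, Measure.smul_apply, smul_eq_mul] at h1
    have h2 : μ univ = 0 := by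
      by_contra h2
      exact h1 (ENNReal.top_mul h2)
    rw [ae_iff]
    exact measure_mono_null (subset_univ _) h2
  have hac : μ ≪ ν := h ▸ Measure.absolutelyContinuous_smul h0
  refine cp_unique' (μ := μ) hg (κ := cp ν g) (measurable_cp hg) E2_det
    (hac.ae_le (cp_atom hg)) fun A hA => ?_
  have h1 := E2_lintegral (μ := ν) hg hA
  have h2 : ∫⁻ x, cp ν g x A ∂ν = c * ∫⁻ x, cp ν g x A ∂μ := by
    generalize (fun x => cp ν g x A) = F
    rw [h, lintegral_smul_measure, smul_eq_mul]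
  have h3 : ν A = c * μ A := by rw [h, Measure.smul_apply, smul_eq_mul]
  rw [h2, h3] at h1
  exact (ENNReal.mul_right_inj h0 hc).1 h1

/-- E3', general form. -/
theorem cp_restrict (hg : Measurable g) {B : Set Ω} (hB : MeasurableSet B) :
    ∀ᵐ x ∂(μ.restrict B), cp μ g x B ≠ 0 ∧ cp (μ.restrict B) g x = (cp μ g x)[|B] := by
  have hN : MeasurableSet {x | cp μ g x B = 0} := E2_meas hg hB (measurableSet_singleton 0)
  have hs : Sat μ g {x | cp μ g x B = 0} :=
    Det.of_forall fun x y e => by simp only [mem_ofPred_eq, cp_eq_of_eq e]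
  have h1 : μ ({x | cp μ g x B = 0} ∩ B) = 0 := by
    rw [← setLIntegral_cp_sat hg hN hs hB,
      setLIntegral_congr_fun hN (g := fun _ => 0) fun x hx => hx, lintegral_zero]
  have hpos : ∀ᵐ x ∂(μ.restrict B), cp μ g x B ≠ 0 := by
    rw [ae_iff]
    simp only [not_not]
    rwa [Measure.restrict_apply hN]
  have hκ : Measurable fun x => (cp μ g x)[|B] := by
    refine Measure.measurable_of_measurable_coe _ fun A hA => ?_
    simp only [cond_apply hB]
    exact (E2_meas hg hB).inv.mul (E2_meas hg (hB.inter hA))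
  have h2 := cp_unique' (μ := μ.restrict B) hg (κ := fun x => (cp μ g x)[|B]) hκ
    (Det.of_forall fun x y e => by rw [cp_eq_of_eq e])
    ((ae_restrict_of_ae (cp_atom (μ := μ) hg)).mono fun x hx =>
      cond_absolutelyContinuous.ae_le hx) fun A hA => by
      have hφ : Measurable fun z => (condDistrib id g μ z)[A|B] := by
        simp only [cond_apply hB]
        exact (Kernel.measurable_coe _ hB).inv.mul (Kernel.measurable_coe _ (hB.inter hA))
      have e := lintegral_cp (μ := μ) hg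
        (F := fun z y => (condDistrib id g μ z)[A|B] * B.indicator 1 y)
        ((hφ.comp measurable_fst).mul ((measurable_one.indicator hB).comp measurable_snd))
      have e1 : ∀ x, ∫⁻ y, (condDistrib id g μ (g x))[A|B] * B.indicator 1 y ∂(cp μ g x) =
          cp μ g x (B ∩ A) := by
        intro x
        rw [lintegral_const_mul _ (measurable_one.indicator hB), lintegral_indicator_one hB]
        exact cond_mul_eq_inter hB A (cp μ g x)
      have e2 : ∀ y, (condDistrib id g μ (g y))[A|B] * B.indicator 1 y =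
          B.indicator (fun y => (cp μ g y)[A|B]) y := by
        intro y
        by_cases hy : y ∈ B
        · simp only [indicator_of_mem hy, Pi.one_apply, mul_one]
          rfl
        · simp only [indicator_of_notMem hy, mul_zero]
      simp only [e1, e2] at e
      rw [lintegral_indicator hB, E2_lintegral hg (hB.inter hA)] at e
      rw [← e, Measure.restrict_apply hA, inter_comm]
  filter_upwards [hpos, h2] with x h3 h4
  exact ⟨h3, h4.symm⟩

omit [StandardBorelSpace Ω] [Nonempty Ω] [IsFiniteMeasure μ] in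
theorem E2_cond_ac (B : Set Ω) : μ[|B] ≪ μ.restrict B :=
  Measure.smul_absolutelyContinuous

theorem E2_cond (hg : Measurable g) (B : Set Ω) :
    ∀ᵐ x ∂(μ.restrict B), cp (μ[|B]) g x = cp (μ.restrict B) g x :=
  cp_smul (μ := μ.restrict B) hg (c := (μ B)⁻¹) (ENNReal.inv_ne_zero.2 (measure_ne_top _ _)) rfl

theorem cp_cond (hg : Measurable g) {B : Set Ω} (hB : MeasurableSet B) :
    ∀ᵐ x ∂(μ[|B]), cp μ g x B ≠ 0 ∧ cp (μ[|B]) g x = (cp μ g x)[|B] := by
  refine (E2_cond_ac B).ae_le ?_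
  filter_upwards [cp_restrict (μ := μ) hg hB, E2_cond (μ := μ) hg B] with x h1 h2
  exact ⟨h1.1, h2.trans h1.2⟩

/-- E3' for a saturated set. -/
theorem cp_restrict_sat (hg : Measurable g) {B : Set Ω} (hB : MeasurableSet B) (hs : Sat μ g B) :
    ∀ᵐ x ∂(μ.restrict B), cp (μ.restrict B) g x = cp μ g x := by
  filter_upwards [cp_restrict (μ := μ) hg hB, ae_restrict_of_ae (Det.ae_cp hg hs),
    ae_restrict_mem hB] with x h1 h2 hx
  have h3 : ∀ᵐ y ∂(cp μ g x), y ∈ B := h2.mono fun y hy => hy.symm ▸ hx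
  have h4 : (cp μ g x).restrict B = cp μ g x := Measure.restrict_eq_self_of_ae_mem h3
  have h5 : cp μ g x B = 1 := by
    rw [← Measure.restrict_apply_univ, h4, measure_univ]
  rw [h1.2, ProbabilityTheory.cond, h4, h5, inv_one, one_smul]

theorem cp_cond_sat (hg : Measurable g) {B : Set Ω} (hB : MeasurableSet B) (hs : Sat μ g B) :
    ∀ᵐ x ∂(μ[|B]), cp (μ[|B]) g x = cp μ g x := by
  refine (E2_cond_ac B).ae_le ?_
  filter_upwards [cp_restrict_sat (μ := μ) hg hB hs, E2_cond (μ := μ) hg B] with x h1 h2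
  exact h2.trans h1

/-- E2 on a set saturated for both labels. -/
theorem cp_congr_on (hg : Measurable g) (hg' : Measurable g') {B : Set Ω} (hB : MeasurableSet B)
    (hs : Sat μ g B) (hs' : Sat μ g' B) (h : Det (μ.restrict B) g g')
    (h' : Det (μ.restrict B) g' g) : ∀ᵐ x ∂(μ.restrict B), cp μ g x = cp μ g' x := by
  filter_upwards [cp_restrict_sat (μ := μ) hg hB hs, cp_restrict_sat (μ := μ) hg' hB hs',
    cp_congr hg hg' h h'] with x h1 h2 h3
  rw [← h1, ← h2, h3]

/-- E3. -/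
theorem cp_pair (hg : Measurable g) (hf : Measurable f) :
    ∀ᵐ x ∂μ, cp μ g x {y | f y = f x} ≠ 0 ∧
      cp μ (pr2 g f) x = (cp μ g x)[|{y | f y = f x}] := by
  have hp : Measurable (pr2 g f) := hg.prodMk hf
  have key : ∀ i : D, ∀ᵐ x ∂μ, x ∈ f ⁻¹' {i} → cp μ g x (f ⁻¹' {i}) ≠ 0 ∧
      cp μ (pr2 g f) x = (cp μ g x)[|f ⁻¹' {i}] := by
    intro i
    have hB : MeasurableSet (f ⁻¹' {i}) := hf (measurableSet_singleton i)
    rw [← ae_restrict_iff' hB]
    have hd : Det (μ.restrict (f ⁻¹' {i})) g (pr2 g f) :=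
      ⟨f ⁻¹' {i}, ae_restrict_mem hB, fun x hx y hy e =>
        Prod.ext e ((mem_singleton_iff.1 hx).trans (mem_singleton_iff.1 hy).symm)⟩
    filter_upwards [cp_restrict (μ := μ) hg hB,
      cp_restrict_sat (μ := μ) hp hB (Sat.preimage (Det.snd g f) {i}),
      cp_congr hg hp hd (Det.fst g f)] with x h1 h2 h3
    exact ⟨h1.1, by rw [← h2, ← h3, h1.2]⟩
  filter_upwards [ae_all_iff.2 key] with x hx
  exact hx (f x) rfl

omit [StandardBorelSpace Z] in
/-- E4; no inverse of `T` is needed. -/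
theorem cp_map {Ω' : Type*} [MeasurableSpace Ω'] [StandardBorelSpace Ω'] [Nonempty Ω']
    {ν : Measure Ω'} [IsFiniteMeasure ν] {T : Ω' → Ω} (hT : MeasurePreserving T ν μ)
    (hg : Measurable g) : ∀ᵐ x ∂ν, cp μ g (T x) = (cp ν (g ∘ T) x).map T := by
  have hm := hT.measurable
  obtain rfl : ν.map T = μ := hT.map_eq
  have h1 := condDistrib_map (X := g) (Y := (id : Ω → Ω)) (ν := ν) (f := T)
    hg.aemeasurable aemeasurable_id hm.aemeasurable
  have h2 := condDistrib_comp (μ := ν) (Y := (id : Ω' → Ω')) (mβ := inferInstance) (g ∘ T)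
    aemeasurable_id hm
  filter_upwards [ae_of_ae_map (hg.comp hm).aemeasurable h1,
    ae_of_ae_map (hg.comp hm).aemeasurable h2] with x e1 e2
  rw [Kernel.map_apply _ hm] at e2
  exact e1.trans e2

theorem cp_unit {μ : Measure Ω} [IsProbabilityMeasure μ] :
    ∀ᵐ x ∂μ, cp μ (fun _ => ()) x = μ := by
  have := cp_unique' (μ := μ) (g := fun _ => ()) measurable_const (κ := fun _ => μ)
    measurable_const (Det.of_forall fun _ _ _ => rfl)
    (Eventually.of_forall fun _ => Eventually.of_forall fun _ => rfl) fun A _ => by simp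
  exact this.mono fun x hx => hx.symm

end Pool.Agent.P.MP_d483fb_an.Z.Ent


end

section

/-!
Pointwise properties of conditional information.
-/

namespace Pool.Agent.P.MP_d483fb_an.Z.Ent

open MeasureTheory ProbabilityTheory Set Filter
open scoped ENNReal

variable {Ω Y Z D D' : Type*} [MeasurableSpace Ω] [StandardBorelSpace Ω] [Nonempty Ω]
  [MeasurableSpace Y] [StandardBorelSpace Y] [MeasurableSpace Z] [StandardBorelSpace Z]
  [MeasurableSpace D] [Countable D] [MeasurableSingletonClass D]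
  [MeasurableSpace D'] [Countable D'] [MeasurableSingletonClass D']
  {μ : Measure Ω} [IsFiniteMeasure μ] {g : Ω → Z} {g' : Ω → Y} {f : Ω → D} {e : Ω → D'}

section
omit [StandardBorelSpace Z] [MeasurableSpace D] [Countable D] [MeasurableSingletonClass D]

theorem Pc_nonneg (x : Ω) : 0 ≤ Pc μ f g x :=
  measureReal_nonneg

theorem Pc_le_one (x : Ω) : Pc μ f g x ≤ 1 :=
  measureReal_le_one

theorem Ic_nonneg (x : Ω) : 0 ≤ Ic μ f g x :=
  neg_nonneg.2 (Real.log_nonpos (Pc_nonneg x) (Pc_le_one x))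

theorem Hc_nonneg : 0 ≤ Hc μ f g :=
  integral_nonneg fun x => Ic_nonneg x

end

omit [StandardBorelSpace Z] in
theorem measurable_Pc (hf : Measurable f) (hg : Measurable g) : Measurable (Pc μ f g) := by
  have h : Measurable fun p : Ω × D => (cp μ g p.1).real {y | f y = p.2} :=
    measurable_from_prod_countable_left fun i =>
      ((Measure.measurable_coe (hf (measurableSet_singleton i))).comp
        (measurable_cp hg)).ennreal_toReal
  exact h.comp (measurable_id.prodMk hf)

omit [StandardBorelSpace Z] in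
theorem measurable_Ic (hf : Measurable f) (hg : Measurable g) : Measurable (Ic μ f g) :=
  (measurable_Pc hf hg).log.neg

theorem Pc_pos (hf : Measurable f) (hg : Measurable g) : ∀ᵐ x ∂μ, 0 < Pc μ f g x := by
  filter_upwards [cp_pair (μ := μ) hg hf] with x hx
  exact ENNReal.toReal_pos hx.1 (measure_ne_top _ _)

theorem exp_neg_Ic (hf : Measurable f) (hg : Measurable g) :
    ∀ᵐ x ∂μ, Real.exp (-Ic μ f g x) = Pc μ f g x := by
  filter_upwards [Pc_pos (μ := μ) hf hg] with x hx
  rw [Ic, neg_neg, Real.exp_log hx]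

/-- Chain rule. -/
theorem Pc_pair (hf : Measurable f) (he : Measurable e) (hg : Measurable g) :
    ∀ᵐ x ∂μ, Pc μ (pr2 f e) g x = Pc μ f g x * Pc μ e (pr2 g f) x := by
  filter_upwards [cp_pair (μ := μ) hg hf] with x hx
  have hA : MeasurableSet {y | f y = f x} := hf (measurableSet_singleton (f x))
  have hs : {y | pr2 f e y = pr2 f e x} = {y | f y = f x} ∩ {y | e y = e x} := by
    ext y
    exact Prod.ext_iff
  unfold Pc
  rw [hx.2, hs, measureReal_def, measureReal_def, measureReal_def, cond_apply hA,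
    ← ENNReal.toReal_mul, ← mul_assoc, ENNReal.mul_inv_cancel hx.1 (measure_ne_top _ _), one_mul]

theorem Ic_pair (hf : Measurable f) (he : Measurable e) (hg : Measurable g) :
    ∀ᵐ x ∂μ, Ic μ (pr2 f e) g x = Ic μ f g x + Ic μ e (pr2 g f) x := by
  filter_upwards [Pc_pair (μ := μ) hf he hg, Pc_pos (μ := μ) hf hg,
    Pc_pos (μ := μ) he (hg.prodMk hf)] with x h1 h2 h3
  unfold Ic
  rw [h1, Real.log_mul h2.ne' h3.ne', neg_add]

/-- A digit determined by another one (given the label) carries less information. -/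
theorem Pc_mono (hg : Measurable g) {W W' : Type*} {f : Ω → W} {e : Ω → W'}
    (h : Det μ (pr2 g f) e) : ∀ᵐ x ∂μ, Pc μ f g x ≤ Pc μ e g x := by
  obtain ⟨S, hS, h⟩ := h
  filter_upwards [hS, ae_cp hg hS, cp_atom (μ := μ) hg] with x hx h1 h2
  refine ENNReal.toReal_mono (measure_ne_top _ _) (measure_mono_ae ?_)
  filter_upwards [h1, h2] with y hy hgy hfy
  exact h y hy x hx (Prod.ext hgy hfy)

theorem Ic_mono (hf : Measurable f) (hg : Measurable g) {W' : Type*} {e : Ω → W'}
    (h : Det μ (pr2 g f) e) : ∀ᵐ x ∂μ, Ic μ e g x ≤ Ic μ f g x := by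
  filter_upwards [Pc_mono hg h, Pc_pos (μ := μ) hf hg] with x h1 h2
  exact neg_le_neg (Real.log_le_log h2 h1)

theorem Pc_congr (hg : Measurable g) (hg' : Measurable g') (h : Det μ g g') (h' : Det μ g' g)
    {W W' : Type*} {f : Ω → W} {e : Ω → W'} (h1 : Det μ (pr2 g f) e) (h2 : Det μ (pr2 g e) f) :
    ∀ᵐ x ∂μ, Pc μ f g x = Pc μ e g' x := by
  filter_upwards [Pc_mono hg h1, Pc_mono hg h2, cp_congr hg hg' h h'] with x k1 k2 k3
  rw [le_antisymm k1 k2]
  unfold Pc
  rw [k3]

theorem Ic_congr (hg : Measurable g) (hg' : Measurable g') (h : Det μ g g') (h' : Det μ g' g)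
    {W W' : Type*} {f : Ω → W} {e : Ω → W'} (h1 : Det μ (pr2 g f) e) (h2 : Det μ (pr2 g e) f) :
    ∀ᵐ x ∂μ, Ic μ f g x = Ic μ e g' x := by
  filter_upwards [Pc_congr hg hg' h h' h1 h2] with x hx
  unfold Ic
  rw [hx]

theorem Ic_eq_zero (hg : Measurable g) {W : Type*} {f : Ω → W} (h : Det μ g f) :
    ∀ᵐ x ∂μ, Ic μ f g x = 0 := by
  filter_upwards [h.ae_cp hg] with x hx
  have e : cp μ g x {y | f y = f x} = cp μ g x univ := measure_congr (eventuallyEq_univ.2 hx)
  unfold Ic Pc
  rw [measureReal_def, e, measure_univ, ENNReal.toReal_one, Real.log_one, neg_zero]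

/-- Localisation to a saturated set. -/
theorem Ic_restrict (hg : Measurable g) {B : Set Ω} (hB : MeasurableSet B) (hs : Sat μ g B)
    {W : Type*} (f : Ω → W) : ∀ᵐ x ∂(μ.restrict B), Ic (μ.restrict B) f g x = Ic μ f g x := by
  filter_upwards [cp_restrict_sat hg hB hs] with x hx
  unfold Ic Pc
  rw [hx]

theorem Ic_cond (hg : Measurable g) {B : Set Ω} (hB : MeasurableSet B) (hs : Sat μ g B)
    {W : Type*} (f : Ω → W) : ∀ᵐ x ∂(μ[|B]), Ic (μ[|B]) f g x = Ic μ f g x := by
  filter_upwards [cp_cond_sat hg hB hs] with x hx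
  unfold Ic Pc
  rw [hx]

theorem Ic_eq_zero_on (hg : Measurable g) {B : Set Ω} (hB : MeasurableSet B) (hs : Sat μ g B)
    {W : Type*} {f : Ω → W} (h : Det (μ.restrict B) g f) :
    ∀ᵐ x ∂(μ.restrict B), Ic μ f g x = 0 := by
  filter_upwards [Ic_eq_zero hg h, Ic_restrict hg hB hs f] with x h1 h2
  rw [← h2, h1]

section comp
variable {Ω' : Type*} [MeasurableSpace Ω'] [StandardBorelSpace Ω'] [Nonempty Ω']
  {ν : Measure Ω'} [IsFiniteMeasure ν] {T : Ω' → Ω}
omit [StandardBorelSpace Z]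

/-- E4. -/
theorem Pc_comp (hT : MeasurePreserving T ν μ) (hf : Measurable f) (hg : Measurable g) :
    ∀ᵐ x ∂ν, Pc ν (f ∘ T) (g ∘ T) x = Pc μ f g (T x) := by
  filter_upwards [cp_map hT hg] with x hx
  have hA : MeasurableSet {y | f y = f (T x)} := hf (measurableSet_singleton (f (T x)))
  unfold Pc
  rw [hx, measureReal_def, measureReal_def, Measure.map_apply hT.measurable hA]
  rfl

theorem Ic_comp (hT : MeasurePreserving T ν μ) (hf : Measurable f) (hg : Measurable g) :
    ∀ᵐ x ∂ν, Ic ν (f ∘ T) (g ∘ T) x = Ic μ f g (T x) := by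
  filter_upwards [Pc_comp hT hf hg] with x hx
  unfold Ic
  rw [hx]

theorem Hc_comp (hT : MeasurePreserving T ν μ) (hf : Measurable f) (hg : Measurable g) :
    Hc ν (f ∘ T) (g ∘ T) = Hc μ f g := by
  unfold Hc
  have h := integral_map (μ := ν) hT.aemeasurable
    (measurable_Ic (μ := μ) hf hg).aestronglyMeasurable
  rw [hT.map_eq] at h
  rw [integral_congr_ae (Ic_comp hT hf hg), h]

end comp

/-- Chain rule along the orbit. -/
theorem Ic_names {T : Ω → Ω} (hT : Measurable T) (hf : Measurable f) (hg : Measurable g) (n : ℕ) :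
    ∀ᵐ x ∂μ, Ic μ (names T f n) g x =
      ∑ k ∈ Finset.range n, Ic μ (f ∘ T^[k]) (pr2 g (names T f k)) x := by
  induction n with
  | zero =>
    filter_upwards [Ic_eq_zero (μ := μ) hg (f := names T f 0)
      (Det.of_forall fun x y _ => funext fun i => i.elim0)] with x hx
    rw [hx, Finset.sum_range_zero]
  | succ n ih =>
    have h1 : Det μ (pr2 g (names T f (n + 1))) (pr2 (names T f n) (f ∘ T^[n])) :=
      Det.of_forall fun x y h => by
        have h' := names_eq_iff.1 (Prod.ext_iff.1 h).2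
        exact Prod.ext (names_eq_iff.2 fun i hi => h' i (Nat.lt_succ_of_lt hi))
          (h' n (Nat.lt_succ_self n))
    have h2 : Det μ (pr2 g (pr2 (names T f n) (f ∘ T^[n]))) (names T f (n + 1)) :=
      Det.of_forall fun x y h => by
        have h' := Prod.ext_iff.1 (Prod.ext_iff.1 h).2
        refine names_eq_iff.2 fun i hi => ?_
        rcases Nat.lt_succ_iff_lt_or_eq.1 hi with hi | rfl
        · exact names_eq_iff.1 h'.1 i hi
        · exact h'.2
    filter_upwards [ih, Ic_congr hg hg (Det.refl g) (Det.refl g) h1 h2,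
      Ic_pair (μ := μ) (measurable_names hT hf n) (hf.comp (hT.iterate n)) hg] with x k1 k2 k3
    rw [k2, k3, k1, Finset.sum_range_succ]

/-- The information of the names given an increasing label is a Birkhoff sum. -/
theorem Incr.Ic_names {T : Ω → Ω} (hT : MeasurePreserving T μ μ) (hf : Measurable f)
    (hg : Measurable g) (h : Incr μ T g f) (n : ℕ) :
    ∀ᵐ x ∂μ, Ic μ (names T f n) g x = birkhoffSum T (Ic μ f g) n x := by
  have key : ∀ k : ℕ, ∀ᵐ x ∂μ,
      Ic μ (f ∘ T^[k]) (pr2 g (names T f k)) x = Ic μ f g (T^[k] x) := fun k => by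
    have hi := h.iter hT.quasiMeasurePreserving k
    filter_upwards [Ic_congr (hg.prodMk (measurable_names hT.measurable hf k))
      (hg.comp (hT.measurable.iterate k)) hi.2 hi.1 (Det.snd _ (f ∘ T^[k])) (Det.snd _ (f ∘ T^[k])),
      Ic_comp (hT.iterate k) hf hg] with x k1 k2
    exact k1.trans k2
  filter_upwards [Ent.Ic_names (μ := μ) hT.measurable hf hg n, ae_all_iff.2 key] with x k1 k2
  rw [k1, birkhoffSum]
  exact Finset.sum_congr rfl fun k _ => k2 k

section prob
variable {μ : Measure Ω} [IsProbabilityMeasure μ]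

theorem Ic_unit {W : Type*} (f : Ω → W) : ∀ᵐ x ∂μ, Ic μ f (fun _ => ()) x = I0 μ f x := by
  filter_upwards [cp_unit (μ := μ)] with x hx
  unfold Ic Pc I0
  rw [hx]

theorem I0_pair (hf : Measurable f) (he : Measurable e) :
    ∀ᵐ x ∂μ, I0 μ (pr2 f e) x = I0 μ f x + Ic μ e f x := by
  have hu : Measurable fun _ : Ω => () := measurable_const
  filter_upwards [Ic_unit (μ := μ) (pr2 f e), Ic_unit (μ := μ) f, Ic_pair (μ := μ) hf he hu,
    Ic_congr (μ := μ) (hu.prodMk hf) hf (Det.snd _ f)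
      (Det.of_forall fun x y h => Prod.ext rfl h) (Det.snd _ e) (Det.snd _ e)] with x k1 k2 k3 k4
  rw [← k1, ← k2, k3]
  exact congrArg _ k4

end prob

end Pool.Agent.P.MP_d483fb_an.Z.Ent


end

section

/-!
Gibbs inequality and its consequences (E5, E6, COUNT, LOW).
-/

namespace Pool.Agent.P.MP_d483fb_an.Z.Ent

open MeasureTheory ProbabilityTheory Set Filter
open scoped ENNReal

variable {Ω Y Z D D' : Type*} [MeasurableSpace Ω] [StandardBorelSpace Ω] [Nonempty Ω]
  [MeasurableSpace Y] [StandardBorelSpace Y] [MeasurableSpace Z] [StandardBorelSpace Z]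
  [MeasurableSpace D] [Countable D] [MeasurableSingletonClass D]
  [MeasurableSpace D'] [Countable D'] [MeasurableSingletonClass D']
  {μ : Measure Ω} [IsFiniteMeasure μ] {g : Ω → Z} {g' : Ω → Y} {f : Ω → D} {e : Ω → D'}

/-- Sub-probability weights on the digits that depend only on the label. -/
structure Wts (μ : Measure Ω) (g : Ω → Z) (q : Ω → D → ℝ) : Prop where
  meas : ∀ i, Measurable fun x => q x i
  nonneg : ∀ x i, 0 ≤ q x i
  det : Det μ g q
  sum : ∀ᵐ x ∂μ, ∀ s : Finset D, ∑ i ∈ s, q x i ≤ 1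

omit [StandardBorelSpace Ω] [Nonempty Ω] in
theorem E5_meas (hf : Measurable f) {q : Ω → D → ℝ} (hq : ∀ i, Measurable fun x => q x i) :
    Measurable fun x => q x (f x) :=
  (measurable_from_prod_countable_left (f := fun p : Ω × D => q p.1 p.2) hq).comp
    (measurable_id.prodMk hf)

theorem E5_dis (hg : Measurable g) {Φ : Ω → ℝ≥0∞} (hΦ : Measurable Φ) :
    ∫⁻ x, Φ x ∂μ = ∫⁻ x, ∫⁻ y, Φ y ∂(cp μ g x) ∂μ :=
  (lintegral_cp hg (F := fun _ y => Φ y) (hΦ.comp measurable_snd)).symm

omit [StandardBorelSpace Ω] [Nonempty Ω] in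
theorem E5_inner (ν : Measure Ω) [IsFiniteMeasure ν] (hf : Measurable f) {w : D → ℝ}
    (h0 : ∀ i, 0 ≤ w i) (h1 : ∀ s : Finset D, ∑ i ∈ s, w i ≤ 1) :
    ∫⁻ y, ENNReal.ofReal (w (f y) / ν.real {y' | f y' = f y}) ∂ν ≤ 1 := by
  have e := lintegral_map (μ := ν)
    (f := fun i => ENNReal.ofReal (w i / ν.real {y' | f y' = i})) (measurable_of_countable _) hf
  rw [← e, lintegral_countable']
  calc ∑' i, ENNReal.ofReal (w i / ν.real {y' | f y' = i}) * (ν.map f) {i}
      ≤ ∑' i, ENNReal.ofReal (w i) := by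
        refine ENNReal.tsum_le_tsum fun i => ?_
        rw [Measure.map_apply hf (measurableSet_singleton i)]
        have e2 : ν (f ⁻¹' {i}) = ENNReal.ofReal (ν.real {y' | f y' = i}) :=
          (ofReal_measureReal (measure_ne_top _ _)).symm
        rw [e2, ← ENNReal.ofReal_mul (div_nonneg (h0 i) measureReal_nonneg)]
        refine ENNReal.ofReal_le_ofReal ?_
        rcases eq_or_ne (ν.real {y' | f y' = i}) 0 with h | h
        · rw [h, mul_zero]
          exact h0 i
        · rw [div_mul_cancel₀ _ h]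
    _ ≤ 1 := by
        rw [ENNReal.tsum_eq_iSup_sum]
        refine iSup_le fun s => ?_
        rw [← ENNReal.ofReal_sum_of_nonneg fun i _ => h0 i]
        exact ENNReal.ofReal_le_one.mpr (h1 s)

omit [StandardBorelSpace Ω] [Nonempty Ω] in
theorem E5_mono {A B : Set Ω} (h : ∀ᵐ x ∂μ, x ∈ A → x ∈ B) : μ.real A ≤ μ.real B :=
  ENNReal.toReal_mono (measure_ne_top _ _) (measure_mono_ae h)

/-- The conditional law given a coarser label is a family of weights. -/
theorem wts_cp (hf : Measurable f) (hg' : Measurable g') (h : Det μ g g') :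
    Wts μ g fun x i => (cp μ g' x).real {y | f y = i} where
  meas i := ((Measure.measurable_coe (hf (measurableSet_singleton i))).comp
    (measurable_cp hg')).ennreal_toReal
  nonneg _ _ := measureReal_nonneg
  det := h.trans (Det.of_forall fun x y hxy => by rw [cp_eq_of_eq hxy])
  sum := ae_of_all _ fun x s =>
    (sum_measureReal_preimage_singleton (μ := cp μ g' x) s
      (fun i _ => hf (measurableSet_singleton i))).trans_le measureReal_le_one

/-- E5, first form. -/
theorem lintegral_ratio (hf : Measurable f) (hg : Measurable g) {q : Ω → D → ℝ} (hq : Wts μ g q)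
    {B : Set Ω} (hB : MeasurableSet B) (hs : Sat μ g B) :
    ∫⁻ x in B, ENNReal.ofReal (q x (f x) / Pc μ f g x) ∂μ ≤ μ B := by
  have hΦ : Measurable fun x => ENNReal.ofReal (q x (f x) / Pc μ f g x) :=
    ((E5_meas hf hq.meas).div (measurable_Pc hf hg)).ennreal_ofReal
  rw [← lintegral_indicator hB, E5_dis hg (hΦ.indicator hB), ← lintegral_indicator_one hB]
  refine lintegral_mono_ae ?_
  filter_upwards [Det.ae_cp hg hs, hq.det.ae_cp hg, cp_atom (μ := μ) hg, hq.sum] with x h1 h2 h3 h4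
  by_cases hx : x ∈ B
  · rw [indicator_of_mem hx]
    refine le_trans (lintegral_mono_ae ?_) (E5_inner (cp μ g x) hf (hq.nonneg x) h4)
    filter_upwards [h2, h3] with y a2 a3
    refine (indicator_le_self _ _ y).trans (le_of_eq ?_)
    rw [a2, Pc, cp_eq_of_eq a3]
  · rw [indicator_of_notMem hx]
    refine le_of_eq ((lintegral_congr_ae ?_).trans lintegral_zero)
    filter_upwards [h1] with y a1
    exact indicator_of_notMem (fun hy => hx (a1 ▸ hy)) _

/-- E5, Gibbs inequality on a saturated set. -/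
theorem gibbs (hf : Measurable f) (hg : Measurable g) {q : Ω → D → ℝ} (hq : Wts μ g q)
    {B : Set Ω} (hB : MeasurableSet B) (hs : Sat μ g B) (h0 : ∀ᵐ x ∂(μ.restrict B), 0 < q x (f x))
    (hi : IntegrableOn (fun x => -Real.log (q x (f x))) B μ) :
    IntegrableOn (Ic μ f g) B μ ∧
      ∫ x in B, Ic μ f g x ∂μ ≤ ∫ x in B, -Real.log (q x (f x)) ∂μ := by
  have hr : Measurable fun x => q x (f x) / Pc μ f g x :=
    (E5_meas hf hq.meas).div (measurable_Pc hf hg)
  have hn : ∀ x, 0 ≤ q x (f x) / Pc μ f g x := fun x => div_nonneg (hq.nonneg _ _) (Pc_nonneg x)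
  have hl := lintegral_ratio hf hg hq hB hs
  have i1 : IntegrableOn (fun x => q x (f x) / Pc μ f g x) B μ :=
    ⟨hr.aestronglyMeasurable, (hasFiniteIntegral_iff_ofReal (ae_of_all _ hn)).mpr
      (hl.trans_lt (measure_lt_top _ _))⟩
  have i2 : ∫ x in B, q x (f x) / Pc μ f g x ∂μ ≤ μ.real B := by
    rw [integral_eq_lintegral_of_nonneg_ae (ae_of_all _ hn) hr.aestronglyMeasurable]
    exact ENNReal.toReal_mono (measure_ne_top _ _) hl
  have hb : ∀ᵐ x ∂(μ.restrict B),
      Ic μ f g x ≤ -Real.log (q x (f x)) + q x (f x) / Pc μ f g x - 1 := by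
    filter_upwards [h0, ae_restrict_of_ae (Pc_pos (μ := μ) hf hg)] with x a1 a2
    have a3 := Real.log_le_sub_one_of_pos (div_pos a1 a2)
    rw [Real.log_div a1.ne' a2.ne'] at a3
    rw [Ic]
    linarith
  have i3 : IntegrableOn (fun x => -Real.log (q x (f x)) + q x (f x) / Pc μ f g x) B μ :=
    Integrable.add hi i1
  have i4 : IntegrableOn (fun x => -Real.log (q x (f x)) + q x (f x) / Pc μ f g x - 1) B μ :=
    Integrable.sub i3 (integrable_const 1)
  have i5 : IntegrableOn (Ic μ f g) B μ :=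
    Integrable.mono' i4 (measurable_Ic hf hg).aestronglyMeasurable
      (hb.mono fun x hx => by rwa [Real.norm_of_nonneg (Ic_nonneg x)])
  refine ⟨i5, (integral_mono_ae i5 i4 hb).trans ?_⟩
  rw [integral_sub i3 (integrable_const 1), integral_add hi i1, integral_const,
    measureReal_restrict_apply_univ, smul_eq_mul, mul_one]
  linarith

/-- E5, tail form. -/
theorem meas_ratio (hf : Measurable f) (hg : Measurable g) {q : Ω → D → ℝ} (hq : Wts μ g q)
    (t : ℝ) : μ.real {x | Real.exp t * Pc μ f g x < q x (f x)} ≤ Real.exp (-t) * μ.real univ := by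
  have hΦ : Measurable fun x => ENNReal.ofReal (q x (f x) / Pc μ f g x) :=
    ((E5_meas hf hq.meas).div (measurable_Pc hf hg)).ennreal_ofReal
  have h1 := lintegral_ratio hf hg hq MeasurableSet.univ (Sat.univ g)
  rw [Measure.restrict_univ] at h1
  have h2 := (mul_meas_ge_le_lintegral hΦ (μ := μ) (ENNReal.ofReal (Real.exp t))).trans h1
  have h3 := ENNReal.toReal_mono (measure_ne_top _ _) h2
  rw [ENNReal.toReal_mul, ENNReal.toReal_ofReal (Real.exp_pos t).le] at h3
  have h4 : μ.real {x | Real.exp t * Pc μ f g x < q x (f x)} ≤ μ.real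
      {x | ENNReal.ofReal (Real.exp t) ≤ ENNReal.ofReal (q x (f x) / Pc μ f g x)} := by
    refine E5_mono ?_
    filter_upwards [Pc_pos (μ := μ) hf hg] with x a1 a2
    exact ENNReal.ofReal_le_ofReal ((le_div_iff₀ a1).mpr (le_of_lt a2))
  refine h4.trans ?_
  rw [Real.exp_neg, ← div_eq_inv_mul, le_div_iff₀ (Real.exp_pos t), mul_comm]
  exact h3

theorem meas_Ic_gt (hf : Measurable f) (hg : Measurable g) {q : Ω → D → ℝ} (hq : Wts μ g q)
    (t : ℝ) : μ.real {x | 0 < q x (f x) ∧ -Real.log (q x (f x)) + t < Ic μ f g x} ≤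
      Real.exp (-t) * μ.real univ := by
  refine le_trans (E5_mono ?_) (meas_ratio hf hg hq t)
  filter_upwards [Pc_pos (μ := μ) hf hg] with x a1 ⟨a2, a3⟩
  show Real.exp t * Pc μ f g x < q x (f x)
  rw [← Real.exp_log a1, ← Real.exp_log a2, ← Real.exp_add, Real.exp_lt_exp]
  rw [Ic] at a3
  linarith

/-- A finer label `g` does not increase the information, up to `t`. -/
theorem meas_Ic_finer (hf : Measurable f) (hg : Measurable g) (hg' : Measurable g')
    (h : Det μ g g') (t : ℝ) :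
    μ.real {x | Ic μ f g' x + t < Ic μ f g x} ≤ Real.exp (-t) * μ.real univ := by
  refine le_trans (E5_mono ?_) (meas_Ic_gt hf hg (wts_cp hf hg' h) t)
  filter_upwards [Pc_pos (μ := μ) hf hg'] with x a1 a2
  exact ⟨a1, a2⟩

/-- E6. -/
theorem setIntegral_Ic_finer (hf : Measurable f) (hg : Measurable g) (hg' : Measurable g')
    (h : Det μ g g') {B : Set Ω} (hB : MeasurableSet B) (hs : Sat μ g B)
    (hi : IntegrableOn (Ic μ f g') B μ) :
    IntegrableOn (Ic μ f g) B μ ∧ ∫ x in B, Ic μ f g x ∂μ ≤ ∫ x in B, Ic μ f g' x ∂μ :=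
  gibbs hf hg (wts_cp hf hg' h) hB hs (ae_restrict_of_ae (Pc_pos (μ := μ) hf hg')) hi

theorem Hc_finer (hf : Measurable f) (hg : Measurable g) (hg' : Measurable g') (h : Det μ g g')
    (hi : Integrable (Ic μ f g') μ) : Integrable (Ic μ f g) μ ∧ Hc μ f g ≤ Hc μ f g' := by
  have h1 := setIntegral_Ic_finer hf hg hg' h MeasurableSet.univ (Sat.univ g) hi.integrableOn
  rw [integrableOn_univ, Measure.restrict_univ] at h1
  exact h1

/-- A digit with finitely many values. -/
theorem setIntegral_Ic_card [Fintype D] (hf : Measurable f) (hg : Measurable g) {B : Set Ω}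
    (hB : MeasurableSet B) (hs : Sat μ g B) : IntegrableOn (Ic μ f g) B μ ∧
      ∫ x in B, Ic μ f g x ∂μ ≤ μ.real B * Real.log (Fintype.card D) := by
  have : Nonempty D := ⟨f (Classical.arbitrary Ω)⟩
  have hc : (0 : ℝ) < Fintype.card D := by exact_mod_cast Fintype.card_pos
  have hq : Wts μ g fun (_ : Ω) (_ : D) => ((Fintype.card D : ℝ))⁻¹ :=
    ⟨fun _ => measurable_const, fun _ _ => (inv_pos.mpr hc).le, Det.of_forall fun _ _ _ => rfl,
      ae_of_all _ fun _ s => by
        rw [Finset.sum_const, nsmul_eq_mul, ← div_eq_mul_inv, div_le_one hc]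
        exact_mod_cast s.card_le_univ⟩
  have h1 := gibbs hf hg hq hB hs (ae_of_all _ fun _ => inv_pos.mpr hc) (integrable_const _)
  rw [integral_const, measureReal_restrict_apply_univ, smul_eq_mul, Real.log_inv, neg_neg] at h1
  exact h1

/-- E14, COUNT. -/
theorem meas_count (hf : Measurable f) (hg : Measurable g) {G : Set Ω} (hG : MeasurableSet G)
    {Q : ℝ} (hQ : 0 < Q)
    (h : ∀ z : Z, ∃ s : Finset D, (s.card : ℝ) ≤ Q ∧ ∀ y ∈ G, g y = z → f y ∈ s) (t : ℝ) :
    μ.real (G ∩ {x | Real.log Q + t < Ic μ f g x}) ≤ Real.exp (-t) * μ.real univ := by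
  classical
  have hS : MeasurableSet (G ∩ {x | Real.log Q + t < Ic μ f g x}) :=
    hG.inter (measurableSet_lt measurable_const (measurable_Ic hf hg))
  have h1 : μ (G ∩ {x | Real.log Q + t < Ic μ f g x}) ≤
      ENNReal.ofReal (Real.exp (-t)) * μ univ := by
    rw [← lintegral_indicator_one hS, E5_dis hg (measurable_one.indicator hS), ← lintegral_const]
    refine lintegral_mono_ae ?_
    filter_upwards [cp_atom (μ := μ) hg] with x hx
    obtain ⟨s, hs, hs'⟩ := h (g x)
    rw [lintegral_indicator_one hS, ← ofReal_measureReal (measure_ne_top _ _)]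
    refine ENNReal.ofReal_le_ofReal ?_
    set s' := s.filter fun i => Real.log Q + t < -Real.log ((cp μ g x).real {y | f y = i})
    have a1 : (cp μ g x).real (G ∩ {x | Real.log Q + t < Ic μ f g x}) ≤
        (cp μ g x).real (f ⁻¹' (s' : Set D)) := by
      refine E5_mono ?_
      filter_upwards [hx] with y b1 ⟨b2, b3⟩
      refine Finset.mem_coe.mpr (Finset.mem_filter.mpr ⟨hs' y b2 b1, ?_⟩)
      rw [← cp_eq_of_eq b1]
      exact b3
    rw [← sum_measureReal_preimage_singleton s' fun i _ => hf (measurableSet_singleton i)] at a1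
    have a2 : ∀ i ∈ s', (cp μ g x).real (f ⁻¹' {i}) ≤ Real.exp (-t) / Q := fun i hi => by
      have b1 := (Finset.mem_filter.mp hi).2
      rcases (measureReal_nonneg (μ := cp μ g x) (s := {y | f y = i})).eq_or_lt with b2 | b2
      · exact b2.symm.trans_le (by positivity)
      · show (cp μ g x).real {y | f y = i} ≤ _
        rw [← Real.exp_log b2, ← Real.exp_log hQ, ← Real.exp_sub, Real.exp_le_exp]
        linarith
    have a3 := Finset.sum_le_card_nsmul _ _ _ a2
    have a4 : (s'.card : ℝ) ≤ Q := le_trans (by exact_mod_cast s.card_filter_le _) hs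
    rw [nsmul_eq_mul] at a3
    refine a1.trans (a3.trans ((mul_le_mul_of_nonneg_right a4 (by positivity)).trans_eq ?_))
    exact mul_div_cancel₀ _ hQ.ne'
  have h2 := ENNReal.toReal_mono
    (ENNReal.mul_ne_top ENNReal.ofReal_ne_top (measure_ne_top _ _)) h1
  rwa [ENNReal.toReal_mul, ENNReal.toReal_ofReal (Real.exp_pos _).le] at h2

/-- LOW. -/
theorem meas_low {f : Ω → ℕ} (hf : Measurable f) (hg : Measurable g) (t : ℝ) :
    μ.real {x | (f x + 1) * Real.log 2 + t < Ic μ f g x} ≤ Real.exp (-t) * μ.real univ := by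
  have hq : Wts μ g fun (_ : Ω) (i : ℕ) => (1 : ℝ) / 2 / 2 ^ i :=
    ⟨fun _ => measurable_const, fun _ _ => by positivity, Det.of_forall fun _ _ _ => rfl,
      ae_of_all _ fun _ s => sum_le_hasSum s (fun _ _ => by positivity) (hasSum_geometric_two' 1)⟩
  refine le_trans (E5_mono (ae_of_all _ fun x hx => ?_)) (meas_Ic_gt hf hg hq t)
  refine ⟨by positivity, lt_of_eq_of_lt ?_ hx⟩
  rw [div_div, one_div, Real.log_inv, neg_neg, Real.log_mul (by norm_num) (by positivity),
    Real.log_pow]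
  ring

end Pool.Agent.P.MP_d483fb_an.Z.Ent


end

section

/-!
Digits of finite entropy.
-/

namespace Pool.Agent.P.MP_d483fb_an.Z.Ent

open MeasureTheory ProbabilityTheory Set Filter
open scoped ENNReal

set_option linter.unusedSectionVars false

variable {Ω Z D D' : Type*} [MeasurableSpace Ω] [StandardBorelSpace Ω] [Nonempty Ω]
  [MeasurableSpace Z] [StandardBorelSpace Z]
  [MeasurableSpace D] [Countable D] [MeasurableSingletonClass D]
  [MeasurableSpace D'] [Countable D'] [MeasurableSingletonClass D']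
  {μ : Measure Ω} [IsProbabilityMeasure μ] {g : Ω → Z} {f : Ω → D} {e : Ω → D'}

omit [StandardBorelSpace Ω] [Nonempty Ω] in
theorem E6_unit : Measurable fun _ : Ω => () := measurable_const

theorem E6_finer (h : FinEnt μ f) (hf : Measurable f) (hg : Measurable g) :
    Integrable (Ic μ f g) μ ∧ Hc μ f g ≤ H0 μ f := by
  have h1 := Hc_finer (μ := μ) hf hg E6_unit (Det.of_forall fun _ _ _ => rfl)
    (Integrable.congr h (EventuallyEq.symm (Ic_unit f)))
  exact ⟨h1.1, h1.2.trans_eq (integral_congr_ae (Ic_unit f))⟩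

theorem E6_int {Ω Ω' : Type*} [MeasurableSpace Ω] [MeasurableSpace Ω'] {μ : Measure Ω}
    {ν : Measure Ω'} {T : Ω' → Ω} (hT : MeasurePreserving T ν μ) {u : Ω → ℝ}
    (hu : Integrable u μ) : ∫ x, u (T x) ∂ν = ∫ x, u x ∂μ := by
  rw [← hT.map_eq] at hu ⊢
  exact (integral_map hT.measurable.aemeasurable hu.aestronglyMeasurable).symm

theorem FinEnt.integrable (h : FinEnt μ f) (hf : Measurable f) (hg : Measurable g) :
    Integrable (Ic μ f g) μ := (E6_finer h hf hg).1

theorem FinEnt.Hc_le (h : FinEnt μ f) (hf : Measurable f) (hg : Measurable g) :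
    Hc μ f g ≤ H0 μ f := (E6_finer h hf hg).2

theorem finEnt_of_weights (hf : Measurable f) {q : D → ℝ} (h0 : ∀ i, 0 ≤ q i)
    (h1 : ∀ s : Finset D, ∑ i ∈ s, q i ≤ 1) (hp : ∀ᵐ x ∂μ, 0 < q (f x))
    (hi : Integrable (fun x => -Real.log (q (f x))) μ) :
    FinEnt μ f ∧ H0 μ f ≤ ∫ x, -Real.log (q (f x)) ∂μ := by
  have h2 := gibbs (μ := μ) hf E6_unit (q := fun _ => q)
    ⟨fun _ => measurable_const, fun _ => h0, Det.of_forall fun _ _ _ => rfl,
      Eventually.of_forall fun _ => h1⟩ MeasurableSet.univ (Sat.univ _)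
    (by rwa [Measure.restrict_univ]) hi.integrableOn
  rw [integrableOn_univ, Measure.restrict_univ] at h2
  exact ⟨h2.1.congr (Ic_unit f), (integral_congr_ae (Ic_unit f)).symm.trans_le h2.2⟩

theorem E6_geom (N : ℕ) : ∑ k ∈ Finset.range N, (1 / 2 : ℝ) ^ (k + 1) = 1 - (1 / 2) ^ N := by
  induction N with
  | zero => simp
  | succ N ih =>
    rw [Finset.sum_range_succ, ih]
    ring

/-- A digit that lies in a set of size exponential in an integrable function. -/
theorem finEnt_of_count (hf : Measurable f) {τ : Ω → ℕ} (hi : Integrable (fun x => (τ x : ℝ)) μ)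
    (S : ℕ → Finset D) {C : ℝ} (hS : ∀ k, ((S k).card : ℝ) ≤ Real.exp (C * (k + 1)))
    (h : ∀ᵐ x ∂μ, f x ∈ S (τ x)) : FinEnt μ f := by
  classical
  obtain ⟨a, ha⟩ : ∃ a : ℝ, a = Real.log 2 + max C 0 := ⟨_, rfl⟩
  have ha0 : 0 ≤ a := ha ▸ add_nonneg (Real.log_nonneg one_le_two) (le_max_right _ _)
  let κ : D → ℕ := fun i => sInf {k | i ∈ S k}
  let q : D → ℝ := fun i => if i ∈ S (κ i) then Real.exp (-(a * (κ i + 1))) else 0
  have hκ : ∀ i k, i ∈ S k → i ∈ S (κ i) ∧ κ i ≤ k := fun i k hk =>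
    ⟨Nat.sInf_mem (s := {k | i ∈ S k}) ⟨k, hk⟩, Nat.sInf_le hk⟩
  have hc : ∀ k : ℕ, ((S k).card : ℝ) * Real.exp (-(a * (k + 1))) ≤ (1 / 2) ^ (k + 1) := by
    intro k
    have e : (1 / 2 : ℝ) ^ (k + 1) = Real.exp (-(Real.log 2 * (k + 1))) := by
      rw [Real.exp_neg, mul_comm, ← Nat.cast_succ, Real.exp_nat_mul, Real.exp_log two_pos,
        one_div, inv_pow]
    refine (mul_le_mul_of_nonneg_right (hS k) (Real.exp_pos _).le).trans ?_
    rw [e, ← Real.exp_add, Real.exp_le_exp, ha]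
    have : C * (k + 1) ≤ max C 0 * (k + 1) :=
      mul_le_mul_of_nonneg_right (le_max_left _ _) (by positivity)
    linarith
  refine (finEnt_of_weights hf (q := q) (fun i => ?_) (fun s => ?_) ?_ ?_).1
  · simp only [q]
    split_ifs
    · exact (Real.exp_pos _).le
    · exact le_rfl
  · obtain ⟨N, hN⟩ : ∃ N, ∀ i ∈ s, κ i < N :=
      ⟨s.sup κ + 1, fun i hi => Nat.lt_succ_of_le (Finset.le_sup hi)⟩
    calc ∑ i ∈ s, q i ≤ ∑ i ∈ s, ∑ k ∈ Finset.range N,
          if i ∈ S k then Real.exp (-(a * (k + 1))) else 0 := by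
          refine Finset.sum_le_sum fun i hi => ?_
          refine Finset.single_le_sum (f := fun k : ℕ =>
            if i ∈ S k then Real.exp (-(a * (k + 1))) else 0) (fun k _ => ?_)
            (Finset.mem_range.2 (hN i hi))
          split_ifs
          · exact (Real.exp_pos _).le
          · exact le_rfl
      _ ≤ ∑ k ∈ Finset.range N, (1 / 2 : ℝ) ^ (k + 1) := by
          rw [Finset.sum_comm]
          refine Finset.sum_le_sum fun k _ => le_trans ?_ (hc k)
          rw [← Finset.sum_filter, Finset.sum_const, nsmul_eq_mul]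
          refine mul_le_mul_of_nonneg_right ?_ (Real.exp_pos _).le
          exact_mod_cast Finset.card_le_card fun i hi => (Finset.mem_filter.1 hi).2
      _ ≤ 1 := by
          rw [E6_geom]
          exact sub_le_self _ (by positivity)
  · filter_upwards [h] with x hx
    simp only [q, if_pos (hκ _ _ hx).1]
    exact Real.exp_pos _
  · refine Integrable.mono' ((hi.add (integrable_const 1)).const_mul a)
      ((measurable_of_countable fun i => -Real.log (q i)).comp hf).aestronglyMeasurable ?_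
    filter_upwards [h] with x hx
    simp only [q, if_pos (hκ _ _ hx).1, Real.log_exp, neg_neg, Pi.add_apply]
    rw [Real.norm_of_nonneg (by positivity)]
    have : (κ (f x) : ℝ) ≤ τ x := by exact_mod_cast (hκ _ _ hx).2
    exact mul_le_mul_of_nonneg_left (by linarith) ha0

theorem finEnt_nat {τ : Ω → ℕ} (hτ : Measurable τ) (hi : Integrable (fun x => (τ x : ℝ)) μ) :
    FinEnt μ τ :=
  finEnt_of_count hτ hi (fun k => {k}) (C := 0) (fun k => by simp)
    (Eventually.of_forall fun x => Finset.mem_singleton_self _)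

theorem E6_finset (hf : Measurable f) (s : Finset D) (h : ∀ᵐ x ∂μ, f x ∈ s) :
    FinEnt μ f ∧ H0 μ f ≤ Real.log s.card := by
  classical
  obtain ⟨x₀, hx₀⟩ := h.exists
  have hs : (0 : ℝ) < s.card := by exact_mod_cast Finset.card_pos.2 ⟨_, hx₀⟩
  have e : (fun x => -Real.log (if f x ∈ s then (s.card : ℝ)⁻¹ else 0)) =ᵐ[μ]
      fun _ => Real.log s.card := by
    filter_upwards [h] with x hx
    rw [if_pos hx, Real.log_inv, neg_neg]
  have h1 := finEnt_of_weights (μ := μ) hf (q := fun i => if i ∈ s then (s.card : ℝ)⁻¹ else 0)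
    (fun i => by split_ifs <;> positivity) (fun t => by
      rw [← Finset.sum_filter, Finset.sum_const, nsmul_eq_mul, ← div_eq_mul_inv, div_le_one hs]
      exact_mod_cast Finset.card_le_card fun i hi => (Finset.mem_filter.1 hi).2)
    (by
      filter_upwards [h] with x hx
      rw [if_pos hx]
      positivity) ((integrable_const _).congr e.symm)
  refine ⟨h1.1, h1.2.trans_eq ?_⟩
  rw [integral_congr_ae e]
  simp

theorem finEnt_fintype [Fintype D] (hf : Measurable f) :
    FinEnt μ f ∧ H0 μ f ≤ Real.log (Fintype.card D) :=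
  E6_finset hf Finset.univ (Eventually.of_forall fun _ => Finset.mem_univ _)

theorem finEnt_of_finset (hf : Measurable f) (s : Finset D) (h : ∀ᵐ x ∂μ, f x ∈ s) :
    FinEnt μ f ∧ H0 μ f ≤ Real.log s.card := E6_finset hf s h

theorem FinEnt.pair (h : FinEnt μ f) (h' : FinEnt μ e) (hf : Measurable f) (he : Measurable e) :
    FinEnt μ (pr2 f e) ∧ H0 μ (pr2 f e) = H0 μ f + Hc μ e f := by
  have h1 := h'.integrable he hf
  refine ⟨(Integrable.add h h1).congr (EventuallyEq.symm (I0_pair hf he)), ?_⟩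
  rw [H0, integral_congr_ae (I0_pair hf he), integral_add h h1]
  rfl

theorem FinEnt.of_det (h : FinEnt μ f) (hf : Measurable f) (he : Measurable e) (hd : Det μ f e) :
    FinEnt μ e ∧ H0 μ e ≤ H0 μ f := by
  have h1 : ∀ᵐ x ∂μ, 0 ≤ I0 μ e x ∧ I0 μ e x ≤ I0 μ f x := by
    filter_upwards [Ic_mono (μ := μ) hf E6_unit ((Det.snd _ f).trans hd), Ic_unit (μ := μ) f,
      Ic_unit (μ := μ) e] with x h2 h3 h4
    rw [← h3, ← h4]
    exact ⟨Ic_nonneg x, h2⟩
  have h2 : FinEnt μ e := by
    refine Integrable.mono' h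
      ((measurable_Ic he E6_unit).aestronglyMeasurable.congr (Ic_unit e)) ?_
    filter_upwards [h1] with x hx
    rw [Real.norm_of_nonneg hx.1]
    exact hx.2
  exact ⟨h2, integral_mono_ae h2 h (h1.mono fun x hx => hx.2)⟩

theorem FinEnt.comp {Ω' : Type*} [MeasurableSpace Ω'] {ν : Measure Ω'} {T : Ω' → Ω}
    (hT : MeasurePreserving T ν μ) (h : FinEnt μ f) (hf : Measurable f) :
    FinEnt ν (f ∘ T) ∧ H0 ν (f ∘ T) = H0 μ f := by
  have e : I0 ν (f ∘ T) = fun x => I0 μ f (T x) := by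
    funext x
    have := hT.measureReal_preimage (s := {y | f y = f (T x)})
      (hf (measurableSet_singleton (f (T x)))).nullMeasurableSet
    rw [I0, I0, ← this]
    rfl
  rw [FinEnt, H0, e]
  exact ⟨hT.integrable_comp_of_integrable h, E6_int hT h⟩

theorem FinEnt.names {T : Ω → Ω} (hT : MeasurePreserving T μ μ) (h : FinEnt μ f)
    (hf : Measurable f) (n : ℕ) :
    FinEnt μ (names T f n) ∧ H0 μ (names T f n) ≤ n * H0 μ f := by
  induction n with
  | zero =>
    have h1 := finEnt_of_finset (μ := μ) (measurable_names hT.measurable hf 0) {Fin.elim0}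
      (Eventually.of_forall fun x => Finset.mem_singleton.2 (Subsingleton.elim _ _))
    simpa using h1
  | succ n ih =>
    have hm := measurable_names hT.measurable hf n
    have hm' := hf.comp (hT.iterate n).measurable
    have h1 := h.comp (hT.iterate n) hf
    have h2 := ih.1.pair h1.1 hm hm'
    have h3 := h2.1.of_det (hm.prodMk hm') (measurable_names hT.measurable hf (n + 1))
      (Det.of_forall fun x y hxy => names_eq_iff.2 fun i hi => by
        rcases Nat.lt_succ_iff_lt_or_eq.1 hi with hi | rfl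
        · exact names_eq_iff.1 (congrArg Prod.fst hxy) i hi
        · exact congrArg Prod.snd hxy)
    refine ⟨h3.1, h3.2.trans ?_⟩
    have h4 := h1.1.Hc_le hm' hm
    rw [h2.2, Nat.cast_succ, add_mul, one_mul]
    exact add_le_add ih.2 (h4.trans_eq h1.2)

theorem Hc_pair (h : FinEnt μ f) (h' : FinEnt μ e) (hf : Measurable f) (he : Measurable e)
    (hg : Measurable g) : Hc μ (pr2 f e) g = Hc μ f g + Hc μ e (pr2 g f) := by
  rw [Hc, integral_congr_ae (Ic_pair hf he hg),
    integral_add (h.integrable hf hg) (h'.integrable he (hg.prodMk hf))]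
  rfl

theorem Incr.Hc_names {T : Ω → Ω} (hT : MeasurePreserving T μ μ) (h : FinEnt μ f)
    (hf : Measurable f) (hg : Measurable g) (hi : Incr μ T g f) (n : ℕ) :
    Hc μ (names T f n) g = n * Hc μ f g := by
  have h1 := h.integrable hf hg
  rw [Hc, integral_congr_ae (hi.Ic_names hT hf hg n)]
  simp only [birkhoffSum]
  rw [integral_finsetSum (f := fun k x => Ic μ f g (T^[k] x)) _
      fun k _ => (hT.iterate k).integrable_comp_of_integrable h1,
    Finset.sum_congr rfl fun k _ => E6_int (hT.iterate k) h1, Finset.sum_const, Finset.card_range,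
    nsmul_eq_mul]
  rfl

end Pool.Agent.P.MP_d483fb_an.Z.Ent


end

section

/-!
E7: approximation of a label by finitely valued functions of it.
-/

namespace Pool.Agent.P.MP_d483fb_an.Z.Ent

open MeasureTheory ProbabilityTheory Set Filter
open scoped ENNReal

variable {Ω Z D : Type*} [MeasurableSpace Ω] [StandardBorelSpace Ω] [Nonempty Ω]
  [MeasurableSpace Z] [StandardBorelSpace Z]
  [MeasurableSpace D] [Countable D] [MeasurableSingletonClass D]
  {μ : Measure Ω} [IsProbabilityMeasure μ] {g : Ω → Z} {f : Ω → D}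

open Classical in
/-- The first `n` bits of a point for a generating sequence. -/
noncomputable def E7_bits (Z : Type*) [MeasurableSpace Z] [StandardBorelSpace Z] (n : ℕ) (z : Z) :
    Fin n → Bool := fun j => decide (z ∈ MeasurableSpace.natGeneratingSequence Z j)

theorem E7_meas (n : ℕ) : Measurable (E7_bits Z n) := by
  classical
  refine measurable_pi_lambda _ fun j => ?_
  refine measurable_to_bool ?_
  have : (fun z => E7_bits Z n z j) ⁻¹' {true} = MeasurableSpace.natGeneratingSequence Z j := by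
    ext z
    simp [E7_bits]
  rw [this]
  exact MeasurableSpace.measurableSet_natGeneratingSequence _

/-- The filtration of the first bits of the label. -/
noncomputable def E7_filt (hg : Measurable g) : Filtration ℕ ‹MeasurableSpace Ω› where
  seq n := MeasurableSpace.comap (E7_bits Z n ∘ g) inferInstance
  mono' := by
    intro m n hmn
    have e : E7_bits Z m ∘ g =
        (fun (b : Fin n → Bool) (j : Fin m) => b (Fin.castLE hmn j)) ∘ (E7_bits Z n ∘ g) := by
      funext x j
      simp [E7_bits]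
    change MeasurableSpace.comap (E7_bits Z m ∘ g) _ ≤ MeasurableSpace.comap (E7_bits Z n ∘ g) _
    rw [e, ← MeasurableSpace.comap_comp]
    exact MeasurableSpace.comap_mono (measurable_of_countable _).comap_le
  le' n := ((E7_meas n).comp hg).comap_le

omit [StandardBorelSpace Ω] [Nonempty Ω] in
theorem E7_sup (hg : Measurable g) :
    ⨆ n, E7_filt hg n = MeasurableSpace.comap g ‹MeasurableSpace Z› := by
  apply le_antisymm
  · refine iSup_le fun n => ?_
    change MeasurableSpace.comap (E7_bits Z n ∘ g) _ ≤ _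
    rw [← MeasurableSpace.comap_comp]
    exact MeasurableSpace.comap_mono (E7_meas n).comap_le
  · conv_lhs => rw [← MeasurableSpace.generateFrom_natGeneratingSequence Z]
    rw [MeasurableSpace.comap_generateFrom]
    refine MeasurableSpace.generateFrom_le ?_
    rintro _ ⟨_, ⟨j, rfl⟩, rfl⟩
    refine (le_iSup (fun n => E7_filt hg n) (j + 1)) _ ?_
    refine ⟨{b : Fin (j + 1) → Bool | b (Fin.last j) = true}, (Set.to_countable _).measurableSet, ?_⟩
    ext x
    simp [E7_bits]

theorem E7_tendsto (hf : Measurable f) (hg : Measurable g) :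
    ∀ᵐ x ∂μ, Tendsto (fun n => Pc μ f (E7_bits Z n ∘ g) x) atTop (nhds (Pc μ f g x)) := by
  have key : ∀ i : D, ∀ᵐ x ∂μ, Tendsto (fun n => (cp μ (E7_bits Z n ∘ g) x).real {y | f y = i})
      atTop (nhds ((cp μ g x).real {y | f y = i})) := by
    intro i
    have hs : MeasurableSet {y | f y = i} := hf (measurableSet_singleton i)
    have h1 := tendsto_ae_condExp (μ := μ) (ℱ := E7_filt hg)
      ((id ⁻¹' {y | f y = i}).indicator fun _ => (1 : ℝ))
    rw [E7_sup hg] at h1
    have h2 := condDistrib_ae_eq_condExp (μ := μ) hg measurable_id hs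
    have h3 : ∀ᵐ x ∂μ, ∀ n, _ := ae_all_iff.2 fun n =>
      condDistrib_ae_eq_condExp (μ := μ) ((E7_meas n).comp hg) measurable_id hs
    filter_upwards [h1, h2, h3] with x a b c
    unfold cp
    rw [b]
    refine a.congr fun n => ?_
    exact (c n).symm
  filter_upwards [ae_all_iff.2 key] with x hx
  exact hx (f x)

theorem exists_finite_label (h : FinEnt μ f) (hf : Measurable f) (hg : Measurable g) {ε : ℝ}
    (hε : 0 < ε) : ∃ (p : ℕ) (L : Z → Fin (p + 1)), Measurable L ∧
      Hc μ f (L ∘ g) ≤ Hc μ f g + ε := by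
  classical
  set a : ℝ := Real.exp (-(ε / 2)) with ha
  have ha0 : 0 < a := Real.exp_pos _
  have ha1 : a < 1 := by
    rw [ha]
    exact Real.exp_lt_one_iff.2 (by linarith)
  set P0 : D → ℝ := fun i => μ.real {y | f y = i} with hP0
  have hP0m : Measurable fun x => P0 (f x) := (measurable_of_countable P0).comp hf
  have hP0pos : ∀ᵐ x ∂μ, 0 < P0 (f x) := by
    have h1 := Pc_pos (μ := μ) (g := fun _ : Ω => ()) hf measurable_const
    filter_upwards [h1, cp_unit (μ := μ)] with x hx hy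
    unfold Pc at hx
    rw [hy] at hx
    exact hx
  have hP0le : ∀ i, P0 i ≤ 1 := fun i => measureReal_le_one
  have hP0nn : ∀ i, 0 ≤ P0 i := fun i => measureReal_nonneg
  set F : ℕ → Ω → ℝ := fun n x =>
    -Real.log (a * Pc μ f (E7_bits Z n ∘ g) x + (1 - a) * P0 (f x)) with hF
  set G : Ω → ℝ := fun x => -Real.log (a * Pc μ f g x + (1 - a) * P0 (f x)) with hG
  have hFm : ∀ n, Measurable (F n) := fun n =>
    ((((measurable_Pc hf ((E7_meas n).comp hg)).const_mul a).add (hP0m.const_mul _)).log).neg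
  have hGm : Measurable G :=
    ((((measurable_Pc hf hg).const_mul a).add (hP0m.const_mul _)).log).neg
  have hb : ∀ t p : ℝ, 0 ≤ t → t ≤ 1 → 0 < p → p ≤ 1 →
      ‖-Real.log (a * t + (1 - a) * p)‖ ≤ -Real.log (1 - a) + -Real.log p := by
    intro t p h0 h1 h2 h3
    have e1 : 0 < (1 - a) * p := mul_pos (by linarith) h2
    have e2 : (1 - a) * p ≤ a * t + (1 - a) * p := by nlinarith
    have e3 : a * t + (1 - a) * p ≤ 1 := by nlinarith
    have e4 := Real.log_le_log e1 e2
    have e5 := Real.log_nonpos (by linarith) e3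
    rw [Real.log_mul (by linarith) h2.ne'] at e4
    rw [Real.norm_eq_abs, abs_of_nonneg (by linarith)]
    linarith
  have hdom : Integrable (fun x => -Real.log (1 - a) + I0 μ f x) μ :=
    (integrable_const _).add h
  have hFb : ∀ n, ∀ᵐ x ∂μ, ‖F n x‖ ≤ -Real.log (1 - a) + I0 μ f x := fun n => by
    filter_upwards [hP0pos] with x hx
    exact hb _ _ (Pc_nonneg x) (Pc_le_one x) hx (hP0le _)
  have hlim : ∀ᵐ x ∂μ, Tendsto (fun n => F n x) atTop (nhds (G x)) := by
    filter_upwards [hP0pos, E7_tendsto (μ := μ) hf hg] with x hx hy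
    have e1 : 0 < (1 - a) * P0 (f x) := mul_pos (by linarith) hx
    have e2 : 0 ≤ a * Pc μ f g x := mul_nonneg ha0.le (Pc_nonneg x)
    exact (((hy.const_mul a).add_const _).log (by linarith)).neg
  have hconv := tendsto_integral_of_dominated_convergence _
    (fun n => (hFm n).aestronglyMeasurable) hdom hFb hlim
  have hGi : Integrable G μ := by
    refine hdom.mono' hGm.aestronglyMeasurable ?_
    filter_upwards [hP0pos] with x hx
    exact hb _ _ (Pc_nonneg x) (Pc_le_one x) hx (hP0le _)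
  have hGle : ∫ x, G x ∂μ ≤ Hc μ f g + ε / 2 := by
    have hi := h.integrable hf hg
    have : ∫ x, G x ∂μ ≤ ∫ x, (Ic μ f g x + ε / 2) ∂μ := by
      refine integral_mono_ae hGi (hi.add (integrable_const _)) ?_
      filter_upwards [hP0pos, Pc_pos (μ := μ) hf hg] with x hx hy
      have e1 : 0 < (1 - a) * P0 (f x) := mul_pos (by linarith) hx
      have e2 : 0 < a * Pc μ f g x := mul_pos ha0 hy
      have e4 := Real.log_le_log e2 (show a * Pc μ f g x ≤
        a * Pc μ f g x + (1 - a) * P0 (f x) by linarith)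
      rw [Real.log_mul ha0.ne' hy.ne', ha, Real.log_exp] at e4
      simp only [hG, Ic]
      linarith
    rw [integral_add hi (integrable_const _)] at this
    simpa [Hc] using this
  obtain ⟨n, hn⟩ := (hconv.eventually (gt_mem_nhds
    (show ∫ x, G x ∂μ < ∫ x, G x ∂μ + ε / 2 by linarith))).exists
  obtain ⟨p, hp⟩ : ∃ p, Fintype.card (Fin n → Bool) = p + 1 :=
    Nat.exists_eq_succ_of_ne_zero Fintype.card_ne_zero
  let e : (Fin n → Bool) ≃ Fin (p + 1) := Fintype.equivFinOfCardEq hp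
  have hL : Measurable (e ∘ E7_bits Z n) := (measurable_of_countable e).comp (E7_meas n)
  refine ⟨p, e ∘ E7_bits Z n, hL, ?_⟩
  have hdet : Det μ ((e ∘ E7_bits Z n) ∘ g) (E7_bits Z n ∘ g) :=
    Det.of_forall fun x y hxy => e.injective hxy
  have hw := wts_cp (μ := μ) hf ((E7_meas n).comp hg) hdet
  have hq : Wts μ ((e ∘ E7_bits Z n) ∘ g) fun x i =>
      a * (cp μ (E7_bits Z n ∘ g) x).real {y | f y = i} + (1 - a) * P0 i := by
    refine ⟨fun i => ((hw.meas i).const_mul a).add measurable_const, fun x i => ?_, ?_, ?_⟩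
    · exact add_nonneg (mul_nonneg ha0.le (hw.nonneg x i)) (mul_nonneg (by linarith) (hP0nn i))
    · refine hw.det.trans (Det.of_forall fun x y hxy => ?_)
      funext i
      rw [congrFun hxy i]
    · filter_upwards [hw.sum] with x hx s
      have h1 := hx s
      have h2 : ∑ i ∈ s, P0 i ≤ 1 := by
        have := sum_measureReal_preimage_singleton (μ := μ) s (f := f)
          (fun i _ => hf (measurableSet_singleton i))
        have e2 : ∑ i ∈ s, P0 i = μ.real (f ⁻¹' s) := this
        rw [e2]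
        exact measureReal_le_one
      rw [Finset.sum_add_distrib, ← Finset.mul_sum, ← Finset.mul_sum]
      nlinarith
  have hFi : Integrable (F n) μ := hdom.mono' (hFm n).aestronglyMeasurable (hFb n)
  have hgb := gibbs (μ := μ) hf (hL.comp hg) hq MeasurableSet.univ (Sat.univ _) (by
    rw [Measure.restrict_univ]
    filter_upwards [hP0pos] with x hx
    have e1 : 0 < (1 - a) * P0 (f x) := mul_pos (by linarith) hx
    have e2 := mul_nonneg ha0.le (hw.nonneg x (f x))
    linarith) hFi.integrableOn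
  have h3 := hgb.2
  rw [Measure.restrict_univ] at h3
  have h4 : Hc μ f ((e ∘ E7_bits Z n) ∘ g) ≤ ∫ x, F n x ∂μ := h3
  linarith

end Pool.Agent.P.MP_d483fb_an.Z.Ent


end

section

/-!
# The Gibbs inequality in real form
-/

open MeasureTheory ProbabilityTheory Set Filter
open scoped ENNReal

namespace Pool.Agent.P.MP_d483fb_an.Z.Ent

variable {Ω Y D : Type*} [MeasurableSpace Ω] [StandardBorelSpace Ω] [Nonempty Ω]
  [MeasurableSpace Y] [MeasurableSpace D] [Countable D] [MeasurableSingletonClass D]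
  {μ : Measure Ω} [IsFiniteMeasure μ] {g : Ω → Y} {f : Ω → D}

omit [Nonempty Ω] [IsFiniteMeasure μ] in
/-- A saturated measurable set is almost everywhere the preimage of a measurable set. -/
theorem gb_sat [StandardBorelSpace Y] (hg : Measurable g) {B : Set Ω} (hB : MeasurableSet B)
    (hS : Sat μ g B) : ∃ C : Set Y, MeasurableSet C ∧ B =ᵐ[μ] g ⁻¹' C := by
  obtain ⟨S, hS1, hS2⟩ := hS
  obtain ⟨t, ht, htm, ht0⟩ := exists_measurable_superset_of_null (mem_ae_iff.1 hS1)
  have hsub : ∀ x ∈ tᶜ, x ∈ S := fun x hx => by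
    by_contra hxS
    exact hx (ht hxS)
  obtain ⟨C, hC, hC'⟩ := exists_sat hg htm.compl hB
    (fun x hx y hy hxy hxB => by
      have := hS2 x (hsub x hx) y (hsub y hy) hxy
      simp only [eq_iff_iff] at this
      exact this.1 hxB)
  refine ⟨C, hC, ?_⟩
  have h0 : ∀ᵐ x ∂μ, x ∈ tᶜ := by
    rw [ae_iff]
    simpa using ht0
  filter_upwards [h0] with x hx
  exact propext (hC' x hx)

theorem gb_ne_zero (hg : Measurable g) (hf : Measurable f) :
    ∀ᵐ x ∂μ, condDistrib id g μ (g x) (f ⁻¹' {f x}) ≠ 0 := by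
  classical
  set κ := condDistrib id g μ with hκ
  have hS : MeasurableSet {p : Y × Ω | κ p.1 (f ⁻¹' {f p.2}) = 0} :=
    cd_measurable κ hf (measurableSet_singleton 0)
  have h1 := cd_lintegral (μ := μ) hg (measurable_one.indicator hS)
  have hS' : MeasurableSet {x | κ (g x) (f ⁻¹' {f x}) = 0} := (hg.prodMk measurable_id) hS
  have h2 : ∀ x, {x | κ (g x) (f ⁻¹' {f x}) = 0}.indicator (1 : Ω → ℝ≥0∞) x =
      {p : Y × Ω | κ p.1 (f ⁻¹' {f p.2}) = 0}.indicator 1 (g x, x) := by
    intro x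
    simp [indicator]
  rw [ae_iff]
  simp only [not_not]
  rw [← lintegral_indicator_one hS']
  simp_rw [h2]
  rw [h1]
  refine lintegral_eq_zero_of_ae_eq_zero (ae_of_all _ fun x => ?_)
  have h3 : ∀ w, {p : Y × Ω | κ p.1 (f ⁻¹' {f p.2}) = 0}.indicator (1 : Y × Ω → ℝ≥0∞) (g x, w) =
      (fun i => if κ (g x) (f ⁻¹' {i}) = 0 then (1 : ℝ≥0∞) else 0) (f w) := by
    intro w
    simp [indicator]
  simp only [h3]
  rw [lintegral_digit _ hf (fun i => if κ (g x) (f ⁻¹' {i}) = 0 then (1 : ℝ≥0∞) else 0)]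
  simp only [Pi.zero_apply, ENNReal.tsum_eq_zero]
  intro i
  by_cases hi : κ (g x) (f ⁻¹' {i}) = 0
  · rw [← hκ, hi, mul_zero]
  · simp [hi]

omit [MeasurableSpace D] [Countable D] [MeasurableSingletonClass D] in
theorem gb_Pc (x : Ω) : Pc μ f g x = (condDistrib id g μ (g x) (f ⁻¹' {f x})).toReal := rfl

omit [MeasurableSpace D] [Countable D] [MeasurableSingletonClass D] in
theorem gb_Ic_nonneg (x : Ω) : 0 ≤ Ic μ f g x := by
  unfold Ic Pc
  exact neg_nonneg.2 (Real.log_nonpos measureReal_nonneg measureReal_le_one)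

theorem gb_measurable_Ic (hg : Measurable g) (hf : Measurable f) : Measurable (Ic μ f g) :=
  (((cd_measurable (condDistrib id g μ) hf).comp
    (hg.prodMk measurable_id)).ennreal_toReal.log).neg

/-- Gibbs inequality: if `q` is a subprobability weight depending on the label and
`exp (-u x) ≤ q (g x) (f x)` on the saturated set `B`, then `∫_B I(f | g) ≤ ∫_B u`. -/
theorem gb_le [StandardBorelSpace Y] (hg : Measurable g) (hf : Measurable f)
    {q : Y → D → ℝ≥0∞} (hq : ∀ i, Measurable fun a => q a i) (hq1 : ∀ a, ∑' i, q a i ≤ 1)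
    {B : Set Ω} (hB : MeasurableSet B) (hS : Sat μ g B) {u : Ω → ℝ} (hu : IntegrableOn u B μ)
    (hqu : ∀ᵐ x ∂μ, x ∈ B → ENNReal.ofReal (Real.exp (-u x)) ≤ q (g x) (f x)) :
    IntegrableOn (Ic μ f g) B μ ∧ ∫ x in B, Ic μ f g x ∂μ ≤ ∫ x in B, u x ∂μ := by
  obtain ⟨C, hC, hBC⟩ := gb_sat hg hB hS
  set κ := condDistrib id g μ with hκ
  set r : Ω → ℝ≥0∞ := fun x => q (g x) (f x) / κ (g x) (f ⁻¹' {f x}) with hr
  have hrm : Measurable r :=
    ((measurable_from_prod_countable_left (f := fun p : Y × D => q p.1 p.2) hq).comp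
      (hg.prodMk hf)).div ((cd_measurable κ hf).comp (hg.prodMk measurable_id))
  have h1 : ∫⁻ x in B, r x ∂μ ≤ μ B := by
    rw [Measure.restrict_congr_set hBC, measure_congr hBC]
    exact cd_gibbs hg hf hq hq1 hC
  have hfin : ∫⁻ x in B, r x ∂μ ≠ ∞ := ne_top_of_le_ne_top (measure_ne_top _ _) h1
  have hri : IntegrableOn (fun x => (r x).toReal) B μ :=
    integrable_toReal_of_lintegral_ne_top hrm.aemeasurable hfin
  have hrI : ∫ x in B, (r x).toReal ∂μ ≤ μ.real B := by
    rw [integral_toReal hrm.aemeasurable (ae_lt_top hrm hfin)]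
    exact ENNReal.toReal_mono (measure_ne_top _ _) h1
  have hpt : ∀ᵐ x ∂(μ.restrict B), Ic μ f g x ≤ u x + (r x).toReal - 1 := by
    filter_upwards [ae_restrict_of_ae (gb_ne_zero (μ := μ) hg hf), ae_restrict_mem hB,
      ae_restrict_of_ae hqu, ae_lt_top hrm hfin] with x h0 hxB hx hrx
    have hP : 0 < Pc μ f g x := ENNReal.toReal_pos h0 (measure_ne_top _ _)
    have h2 : Real.exp (-u x) / Pc μ f g x ≤ (r x).toReal := by
      have h3 : ENNReal.ofReal (Real.exp (-u x)) / κ (g x) (f ⁻¹' {f x}) ≤ r x :=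
        ENNReal.div_le_div_right (hx hxB) _
      have h4 := ENNReal.toReal_mono hrx.ne h3
      rwa [ENNReal.toReal_div, ENNReal.toReal_ofReal (Real.exp_pos _).le] at h4
    have h5 := Real.log_le_sub_one_of_pos (div_pos (Real.exp_pos (-u x)) hP)
    rw [Real.log_div (Real.exp_pos _).ne' hP.ne', Real.log_exp] at h5
    unfold Ic
    linarith
  have hint : IntegrableOn (fun x => u x + (r x).toReal - 1) B μ :=
    (hu.add hri).sub (integrable_const 1)
  have hI : IntegrableOn (Ic μ f g) B μ := by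
    refine hint.mono' (gb_measurable_Ic hg hf).aestronglyMeasurable ?_
    filter_upwards [hpt] with x hx
    rwa [Real.norm_eq_abs, abs_of_nonneg (gb_Ic_nonneg x)]
  refine ⟨hI, (integral_mono_ae hI hint hpt).trans ?_⟩
  rw [integral_sub (f := fun x => u x + (r x).toReal) (hu.add hri) (integrable_const 1),
    integral_add hu hri]
  simp only [integral_const, MeasurableSet.univ, measureReal_restrict_apply, univ_inter,
    smul_eq_mul, mul_one]
  linarith

/-- Gibbs inequality, tail form: `μ {q (g x) (f x) > c P(f | g)} ≤ μ(Ω) / c`. -/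
theorem gb_tail (hg : Measurable g) (hf : Measurable f)
    {q : Y → D → ℝ≥0∞} (hq : ∀ i, Measurable fun a => q a i) (hq1 : ∀ a, ∑' i, q a i ≤ 1)
    (t : ℝ) :
    μ.real {x | Real.exp t * Pc μ f g x < (q (g x) (f x)).toReal}
      ≤ Real.exp (-t) * μ.real univ := by
  set κ := condDistrib id g μ with hκ
  set r : Ω → ℝ≥0∞ := fun x => q (g x) (f x) / κ (g x) (f ⁻¹' {f x}) with hr
  have hrm : Measurable r :=
    ((measurable_from_prod_countable_left (f := fun p : Y × D => q p.1 p.2) hq).comp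
      (hg.prodMk hf)).div ((cd_measurable κ hf).comp (hg.prodMk measurable_id))
  have h1 : ∫⁻ x, r x ∂μ ≤ μ univ := by
    simpa using cd_gibbs (μ := μ) hg hf hq hq1 MeasurableSet.univ
  have h2 : μ {x | Real.exp t * Pc μ f g x < (q (g x) (f x)).toReal}
      ≤ μ {x | ENNReal.ofReal (Real.exp t) ≤ r x} := by
    refine measure_mono_ae ?_
    filter_upwards [gb_ne_zero (μ := μ) hg hf] with x h0 hx
    have hx' : Real.exp t * Pc μ f g x < (q (g x) (f x)).toReal := hx
    change ENNReal.ofReal (Real.exp t) ≤ q (g x) (f x) / κ (g x) (f ⁻¹' {f x})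
    rw [ENNReal.le_div_iff_mul_le (Or.inl h0) (Or.inl (measure_ne_top _ _)),
      ← ENNReal.ofReal_toReal (measure_ne_top (κ (g x)) (f ⁻¹' {f x})),
      ← ENNReal.ofReal_mul (Real.exp_pos t).le]
    exact (ENNReal.ofReal_le_ofReal hx'.le).trans ENNReal.ofReal_toReal_le
  have h3 := meas_ge_le_lintegral_div (μ := μ) hrm.aemeasurable
    (ε := ENNReal.ofReal (Real.exp t)) (by simp [Real.exp_pos]) ENNReal.ofReal_ne_top
  have h4 : μ {x | Real.exp t * Pc μ f g x < (q (g x) (f x)).toReal}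
      ≤ μ univ / ENNReal.ofReal (Real.exp t) :=
    h2.trans (h3.trans (ENNReal.div_le_div_right h1 _))
  have h5 := ENNReal.toReal_mono
    (ENNReal.div_ne_top (measure_ne_top μ univ) (by simp [Real.exp_pos])) h4
  rw [ENNReal.toReal_div, ENNReal.toReal_ofReal (Real.exp_pos t).le] at h5
  rw [Real.exp_neg, mul_comm, ← div_eq_mul_inv]
  exact h5

end Pool.Agent.P.MP_d483fb_an.Z.Ent


end

section

/-!
# Fano's inequality with side information
-/

open MeasureTheory ProbabilityTheory Set Filter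
open scoped ENNReal

namespace Pool.Agent.P.MP_d483fb_an.Z.Ent

section step

variable {Ω Y D ι : Type*} [MeasurableSpace Ω] [StandardBorelSpace Ω] [Nonempty Ω]
  [MeasurableSpace Y] [StandardBorelSpace Y]
  [MeasurableSpace D] [Countable D] [MeasurableSingletonClass D]
  [Fintype ι] [MeasurableSpace ι] [MeasurableSingletonClass ι]
  {μ : Measure Ω} [IsProbabilityMeasure μ] {g : Ω → Y} {f : Ω → D}

/-- Fano's inequality with side information.  The finite digit `Λ` is guessed from the label `g` by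
`φ`; given `Λ` the digit `f` is coded with the weights `p`. -/
theorem fano_step (hg : Measurable g) (hf : Measurable f) {Λ : Ω → ι} (hΛ : Measurable Λ)
    {φ : Y → ι} (hφ : Measurable φ) {p : ι → D → ℝ≥0∞} (hp : ∀ l, ∑' i, p l i ≤ 1)
    {B : Set Ω} (hB : MeasurableSet B) (hS : Sat μ g B) {J : Ω → ℝ} (hJ : IntegrableOn J B μ)
    (hJp : ∀ᵐ x ∂μ, ENNReal.ofReal (Real.exp (-J x)) ≤ p (Λ x) (f x))
    {e : ℝ} (he0 : 0 < e) (he1 : e < 1) :
    IntegrableOn (Ic μ f g) B μ ∧ ∫ x in B, Ic μ f g x ∂μ ≤ -Real.log (1 - e) +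
      Real.log (Fintype.card ι / e) * μ.real {x | x ∈ B ∧ Λ x ≠ φ (g x)} + ∫ x in B, J x ∂μ := by
  classical
  have hne : Nonempty ι := ⟨Λ (Classical.arbitrary Ω)⟩
  have hc : (1 : ℝ) ≤ Fintype.card ι := by exact_mod_cast Fintype.card_pos
  set c : ℝ := (Fintype.card ι : ℝ) with hcdef
  set w : ι → ι → ℝ := fun j l => (if l = j then 1 - e else 0) + e / c with hw
  have hw0 : ∀ j l, 0 ≤ w j l := fun j l => by
    simp only [hw]
    split_ifs <;> [positivity; positivity]
  have hw1 : ∀ j, ∑ l, w j l = 1 := fun j => by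
    simp only [hw, Finset.sum_add_distrib, Finset.sum_ite_eq', Finset.mem_univ, if_true,
      Finset.sum_const, Finset.card_univ, nsmul_eq_mul, ← hcdef]
    field_simp
    ring
  set q : Y → D → ℝ≥0∞ := fun a i => ∑ l, ENNReal.ofReal (w (φ a) l) * p l i with hq
  have hqm : ∀ i, Measurable fun a => q a i := fun i =>
    (measurable_of_countable (fun j => ∑ l, ENNReal.ofReal (w j l) * p l i)).comp hφ
  have hq1 : ∀ a, ∑' i, q a i ≤ 1 := fun a => by
    simp only [hq]
    rw [Summable.tsum_finsetSum fun _ _ => ENNReal.summable]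
    calc ∑ l, ∑' i, ENNReal.ofReal (w (φ a) l) * p l i
        ≤ ∑ l, ENNReal.ofReal (w (φ a) l) := Finset.sum_le_sum fun l _ => by
          rw [ENNReal.tsum_mul_left]
          exact mul_le_of_le_one_right' (hp l)
      _ = 1 := by
          rw [← ENNReal.ofReal_sum_of_nonneg fun l _ => hw0 _ l, hw1, ENNReal.ofReal_one]
  set E : Set Ω := {x | Λ x ≠ φ (g x)} with hE
  have hEm : MeasurableSet E := (measurableSet_eq_fun hΛ (hφ.comp hg)).compl
  have hl0 : 0 ≤ -Real.log (1 - e) :=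
    neg_nonneg.2 (Real.log_nonpos (by linarith) (by linarith))
  set u : Ω → ℝ := fun x => (-Real.log (1 - e) + E.indicator (fun _ => Real.log (c / e)) x) + J x
    with hu
  have hi1 : IntegrableOn (fun x => E.indicator (fun _ => Real.log (c / e)) x) B μ :=
    (integrable_const _).indicator hEm
  have hi2 : IntegrableOn
      (fun x => -Real.log (1 - e) + E.indicator (fun _ => Real.log (c / e)) x) B μ :=
    (integrable_const _).add hi1
  have hui : IntegrableOn u B μ := hi2.add hJ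
  have hqu : ∀ᵐ x ∂μ, x ∈ B → ENNReal.ofReal (Real.exp (-u x)) ≤ q (g x) (f x) := by
    filter_upwards [hJp] with x hx _
    have h1 : Real.exp (-(-Real.log (1 - e) + E.indicator (fun _ => Real.log (c / e)) x))
        ≤ w (φ (g x)) (Λ x) := by
      by_cases hxE : x ∈ E
      · have hne' : Λ x ≠ φ (g x) := hxE
        simp only [hw, indicator_of_mem hxE, if_neg hne', zero_add]
        calc Real.exp (-(-Real.log (1 - e) + Real.log (c / e)))
            ≤ Real.exp (-Real.log (c / e)) := Real.exp_le_exp.2 (by linarith)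
          _ = e / c := by rw [Real.exp_neg, Real.exp_log (by positivity), inv_div]
      · have heq : Λ x = φ (g x) := not_not.1 hxE
        simp only [hw, indicator_of_notMem hxE, if_pos heq, add_zero, neg_neg]
        rw [Real.exp_log (by linarith)]
        exact le_add_of_nonneg_right (by positivity)
    calc ENNReal.ofReal (Real.exp (-u x))
        = ENNReal.ofReal (Real.exp (-(-Real.log (1 - e) +
            E.indicator (fun _ => Real.log (c / e)) x))) * ENNReal.ofReal (Real.exp (-J x)) := by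
          rw [← ENNReal.ofReal_mul (Real.exp_pos _).le, ← Real.exp_add, hu, neg_add]
      _ ≤ ENNReal.ofReal (w (φ (g x)) (Λ x)) * p (Λ x) (f x) :=
          mul_le_mul' (ENNReal.ofReal_le_ofReal h1) hx
      _ ≤ q (g x) (f x) :=
          Finset.single_le_sum (f := fun l => ENNReal.ofReal (w (φ (g x)) l) * p l (f x))
            (fun _ _ => zero_le) (Finset.mem_univ (Λ x))
  obtain ⟨hI, hle⟩ := gb_le hg hf hqm hq1 hB hS hui hqu
  refine ⟨hI, hle.trans ?_⟩
  rw [hu, integral_add hi2 hJ, integral_add (integrable_const _) hi1,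
    integral_indicator_const _ hEm]
  have h2 : (μ.restrict B).real E = μ.real {x | x ∈ B ∧ Λ x ≠ φ (g x)} := by
    rw [measureReal_restrict_apply hEm, inter_comm]
    rfl
  have h3 : μ.real B ≤ 1 := measureReal_le_one
  simp only [integral_const, MeasurableSet.univ, measureReal_restrict_apply, univ_inter,
    smul_eq_mul, h2]
  nlinarith [mul_le_mul_of_nonneg_right h3 hl0]

end step

/-- A number `e` with `-log (1 - e) ≤ ε`. -/
theorem exists_fano_e {ε : ℝ} (hε : 0 < ε) : ∃ e : ℝ, 0 < e ∧ e < 1 ∧ -Real.log (1 - e) ≤ ε := by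
  refine ⟨1 - Real.exp (-ε), ?_, ?_, ?_⟩
  · have := Real.exp_lt_one_iff.2 (neg_neg_of_pos hε)
    linarith
  · linarith [Real.exp_pos (-ε)]
  · simp

/-- Fano–Lusin with side information: for `ε > 0` there are `δ, η > 0`, depending only on the law
`ν`, on `L` and on `Rel`, such that `∫_B I(f | g) ≤ ε + ∫_B J` whenever the label `g` determines
`Lam` up to `Rel δ` on `B` off a set of measure `η` and `J` codes `f` given `L ∘ Lam`. -/
theorem fano_side {Z : Type*} [TopologicalSpace Z] [PolishSpace Z] [MeasurableSpace Z]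
    [BorelSpace Z] {Rel : ℝ → Z → Z → Prop} (hR : LusinRel Rel) (ν : Measure Z)
    [IsFiniteMeasure ν] {ι : Type*} [Fintype ι] [Nonempty ι] [MeasurableSpace ι]
    [MeasurableSingletonClass ι] {L : Z → ι} (hL : Measurable L) {ε : ℝ} (hε : 0 < ε) :
    ∃ δ > 0, ∃ η > 0, ∀ {Ω Y D : Type*} [MeasurableSpace Ω] [StandardBorelSpace Ω] [Nonempty Ω]
      [MeasurableSpace Y] [StandardBorelSpace Y] [MeasurableSpace D] [Countable D]
      [MeasurableSingletonClass D] (μ : Measure Ω) [IsProbabilityMeasure μ] (Lam : Ω → Z)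
      (g : Ω → Y) (f : Ω → D) (G B : Set Ω) (p : ι → D → ℝ≥0∞) (J : Ω → ℝ),
      Measurable Lam → μ.map Lam = ν → Measurable g → Measurable f → MeasurableSet G →
      MeasurableSet B → Sat μ g B → μ.real (B \ G) ≤ η →
      (∀ y ∈ G ∩ B, ∀ y' ∈ G ∩ B, g y = g y' → Rel δ (Lam y) (Lam y')) →
      (∀ l, ∑' i, p l i ≤ 1) → IntegrableOn J B μ →
      (∀ᵐ x ∂μ, ENNReal.ofReal (Real.exp (-J x)) ≤ p (L (Lam x)) (f x)) →
      ∫ x in B, Ic μ f g x ∂μ ≤ ε + ∫ x in B, J x ∂μ := by
  obtain ⟨e, he0, he1, he⟩ := exists_fano_e (half_pos hε)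
  have hc : (1 : ℝ) ≤ Fintype.card ι := by exact_mod_cast Fintype.card_pos
  set K : ℝ := Real.log (Fintype.card ι / e) with hK
  have hK0 : 0 ≤ K := Real.log_nonneg (by rw [le_div_iff₀ he0]; linarith)
  set η : ℝ := ε / (4 * (K + 1)) with hη
  have hη0 : 0 < η := by positivity
  obtain ⟨δ, hδ, hguess⟩ := hR.exists_guess ν hL (η := ENNReal.ofReal η) (by simpa using hη0)
  refine ⟨δ, hδ, η, hη0, ?_⟩
  intro Ω Y D _ _ _ _ _ _ _ _ μ _ Lam g f G B p J hLam hmap hg hf hG hB hS hBG hrel hp hJ hJp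
  obtain ⟨φ, hφ, hφ'⟩ := hguess μ Lam g (G ∩ B) hLam hmap hg (hG.inter hB) hrel
  have h1 := (fano_step hg hf (Λ := fun x => L (Lam x)) (hL.comp hLam) hφ hp hB hS hJ hJp
    he0 he1).2
  have h2 : μ.real {x | x ∈ B ∧ L (Lam x) ≠ φ (g x)} ≤ η + η := by
    calc μ.real {x | x ∈ B ∧ L (Lam x) ≠ φ (g x)}
        ≤ μ.real ((B \ G) ∪ {y | y ∈ G ∩ B ∧ L (Lam y) ≠ φ (g y)}) := by
          refine measureReal_mono fun x hx => ?_
          by_cases hxG : x ∈ G
          · exact Or.inr ⟨⟨hxG, hx.1⟩, hx.2⟩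
          · exact Or.inl ⟨hx.1, hxG⟩
      _ ≤ μ.real (B \ G) + μ.real {y | y ∈ G ∩ B ∧ L (Lam y) ≠ φ (g y)} :=
          measureReal_union_le _ _
      _ ≤ η + η := add_le_add hBG (ENNReal.toReal_le_of_le_ofReal hη0.le hφ')
  have h3 : K * (η + η) ≤ ε / 2 := by
    rw [hη, ← two_mul, mul_div_assoc', mul_div_assoc', div_le_div_iff₀ (by positivity) two_pos]
    nlinarith
  have h4 := mul_le_mul_of_nonneg_left h2 hK0
  linarith

end Pool.Agent.P.MP_d483fb_an.Z.Ent


end

section

/-!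
E8: the Fano-Lusin estimate.
-/

namespace Pool.Agent.P.MP_d483fb_an.Z.Ent

open MeasureTheory ProbabilityTheory Set Filter
open scoped ENNReal

universe w

variable {Ω Z : Type*} [MeasurableSpace Ω] [StandardBorelSpace Ω] [Nonempty Ω]
  [TopologicalSpace Z] [PolishSpace Z] [MeasurableSpace Z] [BorelSpace Z]

theorem fano_lusin (μ : Measure Ω) [IsProbabilityMeasure μ] (ν : Measure Z) [IsFiniteMeasure ν]
    {Rel : ℝ → Z → Z → Prop} (hR : LusinRel Rel) {p : ℕ} {L : Z → Fin (p + 1)} (hL : Measurable L)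
    {ε : ℝ} (hε : 0 < ε) : ∃ δ : ℝ, 0 < δ ∧ ∃ η : ℝ, 0 < η ∧
      ∀ (Y : Type w) [MeasurableSpace Y] [StandardBorelSpace Y] (Lam : Ω → Z) (g : Ω → Y)
        (G B : Set Ω), Measurable Lam → μ.map Lam = ν → Measurable g → MeasurableSet G →
        MeasurableSet B → Sat μ g B → μ.real (B \ G) ≤ η →
        (∀ y ∈ G ∩ B, ∀ y' ∈ G ∩ B, g y = g y' → Rel δ (Lam y) (Lam y')) →
        ∫ x in B, Ic μ (L ∘ Lam) g x ∂μ ≤ ε := by
  classical
  obtain ⟨δ, hδ, η, hη, h⟩ := fano_side.{_, _, _, w, 0} hR ν hL hε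
  refine ⟨δ, hδ, η, hη, ?_⟩
  intro Y _ _ Lam g G B hLam hmap hg hG hB hS hBG hrel
  have := h μ Lam g (L ∘ Lam) G B (fun l i => if i = l then 1 else 0) (fun _ => 0) hLam hmap hg
    (hL.comp hLam) hG hB hS hBG hrel (fun l => by simp) (integrable_const 0)
    (ae_of_all _ fun x => by simp)
  simpa using this

end Pool.Agent.P.MP_d483fb_an.Z.Ent


end

section

/-!
Conditional independence from an entropy inequality and a rectangle property (core of E12).
-/

namespace Pool.Agent.P.MP_d483fb_an.Z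

open MeasureTheory ProbabilityTheory Set Filter Topology
open scoped ENNReal NNReal BoundedContinuousFunction

/-- `κ` disintegrates `μ` over the label `lab`. -/
structure IsDis {Ω Y : Type*} [MeasurableSpace Ω] [MeasurableSpace Y] (μ : Measure Ω)
    (lab : Ω → Y) (κ : Kernel Y Ω) : Prop where
  meas : Measurable lab
  eq : μ.map lab ⊗ₘ κ = μ.map (fun x => (lab x, x))

theorem isDis_condDistrib {Ω Y : Type*} [MeasurableSpace Ω] [StandardBorelSpace Ω] [Nonempty Ω]
    [MeasurableSpace Y] (μ : Measure Ω) [IsFiniteMeasure μ] {lab : Ω → Y} (h : Measurable lab) :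
    IsDis μ lab (condDistrib id lab μ) :=
  ⟨h, compProd_map_condDistrib aemeasurable_id⟩

section basic
variable {Ω Y ι : Type*} [MeasurableSpace Ω] [MeasurableSpace Y] {μ : Measure Ω}
  [IsProbabilityMeasure μ] {lab : Ω → Y} {κ : Kernel Y Ω} [IsMarkovKernel κ]

theorem IsDis.lint' (h : IsDis μ lab κ) {g : Y × Ω → ℝ≥0∞} (hg : Measurable g) :
    ∫⁻ f, ∫⁻ y, g (f, y) ∂κ f ∂(μ.map lab) = ∫⁻ x, g (lab x, x) ∂μ := by
  rw [← Measure.lintegral_compProd hg, h.eq, lintegral_map hg (h.meas.prodMk measurable_id')]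

theorem IsDis.lint (h : IsDis μ lab κ) {g : Y × Ω → ℝ≥0∞} (hg : Measurable g) :
    ∫⁻ x, ∫⁻ y, g (lab x, y) ∂κ (lab x) ∂μ = ∫⁻ x, g (lab x, x) ∂μ := by
  rw [← h.lint' hg, lintegral_map hg.lintegral_kernel_prod_right' h.meas]

theorem IsDis.ae (h : IsDis μ lab κ) {p : Y × Ω → Prop} (hp : MeasurableSet {z | p z})
    (hx : ∀ᵐ x ∂μ, p (lab x, x)) : ∀ᵐ x ∂μ, ∀ᵐ y ∂κ (lab x), p (lab x, y) := by
  have h1 : ∀ᵐ z ∂(μ.map lab ⊗ₘ κ), p z := by
    rw [h.eq]
    exact (ae_map_iff (h.meas.prodMk measurable_id').aemeasurable hp).mpr hx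
  exact ae_of_ae_map h.meas.aemeasurable (Measure.ae_ae_of_ae_compProd h1)

theorem IsDis.ae_atom [StandardBorelSpace Y] (h : IsDis μ lab κ) {Z : Set Ω} (hZ : MeasurableSet Z)
    (hZ' : ∀ᵐ x ∂μ, x ∈ Z) : ∀ᵐ x ∂μ, ∀ᵐ y ∂κ (lab x), lab y = lab x ∧ y ∈ Z := by
  refine h.ae (p := fun z => lab z.2 = z.1 ∧ z.2 ∈ Z) ?_ (hZ'.mono fun x hx => ⟨rfl, hx⟩)
  let _ := upgradeStandardBorel Y
  exact (measurableSet_eq_fun (h.meas.comp measurable_snd) measurable_fst).inter
    (measurable_snd hZ)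

variable [MeasurableSpace ι] [Countable ι] [MeasurableSingletonClass ι] {e : Ω → ι}

/-- The conditional probability of the value `i`. -/
noncomputable def cpr (κ : Kernel Y Ω) (e : Ω → ι) (f : Y) (i : ι) : ℝ≥0∞ := κ f (e ⁻¹' {i})

omit [IsMarkovKernel κ] [Countable ι] in
theorem measurable_cpr (he : Measurable e) (i : ι) : Measurable fun f => cpr κ e f i :=
  κ.measurable_coe (he (measurableSet_singleton i))

omit [IsMarkovKernel κ] in
theorem measurable_cpr' {W : Type*} [MeasurableSpace W] (he : Measurable e) {f : W → Y}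
    {i : W → ι} (hf : Measurable f) (hi : Measurable i) :
    Measurable fun w => cpr κ e (f w) (i w) :=
  (measurable_from_prod_countable_left (f := fun z : Y × ι => cpr κ e z.1 z.2)
    fun i => measurable_cpr he i).comp (hf.prodMk hi)

omit [MeasurableSpace ι] [Countable ι] [MeasurableSingletonClass ι] in
theorem cpr_le_one (f : Y) (i : ι) : cpr κ e f i ≤ 1 := prob_le_one

omit [Countable ι] in
theorem IsDis.rep (h : IsDis μ lab κ) (he : Measurable e) (i : ι) {G : Y → ℝ≥0∞}
    (hG : Measurable G) : ∫⁻ x, (e ⁻¹' {i}).indicator 1 x * G (lab x) ∂μ =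
      ∫⁻ x, cpr κ e (lab x) i * G (lab x) ∂μ := by
  have hm : MeasurableSet (e ⁻¹' {i}) := he (measurableSet_singleton i)
  have h1 : Measurable ((e ⁻¹' {i}).indicator 1 : Ω → ℝ≥0∞) := measurable_one.indicator hm
  rw [← h.lint (g := fun z => (e ⁻¹' {i}).indicator 1 z.2 * G z.1)
    ((h1.comp measurable_snd).mul (hG.comp measurable_fst))]
  refine lintegral_congr fun x => ?_
  show ∫⁻ y, (e ⁻¹' {i}).indicator 1 y * G (lab x) ∂κ (lab x) = _
  rw [lintegral_mul_const _ h1, lintegral_indicator_one hm]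
  rfl

theorem IsDis.pos (h : IsDis μ lab κ) (he : Measurable e) :
    ∀ᵐ x ∂μ, cpr κ e (lab x) (e x) ≠ 0 := by
  have key : ∀ i, ∀ᵐ x ∂μ, e x = i → cpr κ e (lab x) i ≠ 0 := by
    intro i
    have hm : MeasurableSet (e ⁻¹' {i}) := he (measurableSet_singleton i)
    have hN : MeasurableSet {f | cpr κ e f i = 0} :=
      measurable_cpr he i (measurableSet_singleton 0)
    have hG : Measurable ({f | cpr κ e f i = 0}.indicator 1 : Y → ℝ≥0∞) :=
      measurable_one.indicator hN
    have h1 := h.rep he i hG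
    have h2 : ∫⁻ x, cpr κ e (lab x) i * {f | cpr κ e f i = 0}.indicator 1 (lab x) ∂μ = 0 := by
      refine (lintegral_congr fun x => ?_).trans lintegral_zero
      by_cases hx : cpr κ e (lab x) i = 0 <;> simp [hx]
    have h3 : Measurable ((e ⁻¹' {i}).indicator 1 : Ω → ℝ≥0∞) := measurable_one.indicator hm
    have h4 := h.meas
    rw [h2, lintegral_eq_zero_iff (by fun_prop)] at h1
    filter_upwards [h1] with x hx hi h0
    simp [hi, h0] at hx
  filter_upwards [ae_all_iff.mpr key] with x hx using hx _ rfl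

end basic

section pair
variable {Ω Y S A ι : Type*} [MeasurableSpace Ω] [MeasurableSpace Y] [MeasurableSpace S]
  [MeasurableSpace A] {μ : Measure Ω} [IsProbabilityMeasure μ] {F : Ω → Y} {s : Ω → S}
  {al : Ω → A} {κ : Kernel Y Ω} [IsMarkovKernel κ] {κS : Kernel (Y × S) Ω} [IsMarkovKernel κS]
  {κA : Kernel (Y × A) Ω} [IsMarkovKernel κA]

/-- The relatively independent pair over the label. -/
noncomputable def pairM (μ : Measure Ω) (F : Ω → Y) (κ : Kernel Y Ω) : Measure (Y × Ω × Ω) :=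
  μ.map F ⊗ₘ (κ ×ₖ κ)

theorem IsDis.prob_pair (h : IsDis μ F κ) : IsProbabilityMeasure (pairM μ F κ) := by
  have := Measure.isProbabilityMeasure_map (μ := μ) h.meas.aemeasurable
  unfold pairM
  infer_instance

theorem lint_pair {g : Y × Ω × Ω → ℝ≥0∞} (hg : Measurable g) :
    ∫⁻ w, g w ∂pairM μ F κ = ∫⁻ f, ∫⁻ x, ∫⁻ y, g (f, x, y) ∂κ f ∂κ f ∂(μ.map F) := by
  rw [pairM, Measure.lintegral_compProd hg]
  refine lintegral_congr fun f => ?_
  rw [Kernel.prod_apply, lintegral_prod _ (Measurable.aemeasurable (by fun_prop))]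

theorem lint_swap {g : Y × Ω × Ω → ℝ≥0∞} (hg : Measurable g) :
    ∫⁻ w, g w ∂pairM μ F κ = ∫⁻ w, g (w.1, w.2.2, w.2.1) ∂pairM μ F κ := by
  rw [lint_pair hg, lint_pair (by fun_prop)]
  refine lintegral_congr fun f => ?_
  exact lintegral_lintegral_swap (f := fun x y => g (f, x, y))
    (hg.comp measurable_prodMk_left).aemeasurable

theorem measurable_inner {W : Type*} [MeasurableSpace W] {G : Y × W × Ω → ℝ≥0∞}
    (hG : Measurable G) : Measurable fun z : Y × W => ∫⁻ y, G (z.1, z.2, y) ∂κ z.1 := by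
  have h := Measurable.lintegral_kernel_prod_right' (κ := κ.prodMkRight W)
    (f := fun z : (Y × W) × Ω => G (z.1.1, z.1.2, z.2)) (hG.comp (by fun_prop))
  simpa using h

theorem IsDis.lint_fst (h : IsDis μ F κ) {g : Y × Ω × Ω → ℝ≥0∞} (hg : Measurable g) :
    ∫⁻ w, g w ∂pairM μ F κ = ∫⁻ x, ∫⁻ y, g (F x, x, y) ∂κ (F x) ∂μ := by
  rw [lint_pair hg]
  exact h.lint' (measurable_inner hg)

theorem IsDis.ae_fst [StandardBorelSpace Y] (h : IsDis μ F κ) {p : Ω → Prop}
    (hp : ∀ᵐ x ∂μ, p x) : ∀ᵐ w ∂pairM μ F κ, F w.2.1 = w.1 ∧ p w.2.1 := by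
  obtain ⟨Z, hZ1, hZ2, hZ3⟩ := exists_measurable_superset_of_null hp
  have hm : MeasurableSet {w : Y × Ω × Ω | F w.2.1 = w.1 ∧ w.2.1 ∉ Z} := by
    let _ := upgradeStandardBorel Y
    exact (measurableSet_eq_fun (h.meas.comp (by fun_prop)) measurable_fst).inter
      ((by fun_prop : Measurable fun w : Y × Ω × Ω => w.2.1) hZ2.compl)
  have h1 : ∀ᵐ w ∂pairM μ F κ, F w.2.1 = w.1 ∧ w.2.1 ∉ Z := by
    rw [ae_iff]
    refine (lintegral_indicator_one hm.compl).symm.trans ?_
    rw [h.lint_fst (measurable_one.indicator hm.compl)]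
    refine (lintegral_congr_ae ?_).trans lintegral_zero
    filter_upwards [measure_eq_zero_iff_ae_notMem.mp hZ3] with x hx
    simp [hx]
  filter_upwards [h1] with w hw
  exact ⟨hw.1, by_contra fun hn => hw.2 (hZ1 hn)⟩

theorem IsDis.ae_snd [StandardBorelSpace Y] (h : IsDis μ F κ) {p : Ω → Prop}
    (hp : ∀ᵐ x ∂μ, p x) : ∀ᵐ w ∂pairM μ F κ, F w.2.2 = w.1 ∧ p w.2.2 := by
  have hs : Measurable fun w : Y × Ω × Ω => (w.1, w.2.2, w.2.1) := by fun_prop
  have e : (pairM μ F κ).map (fun w => (w.1, w.2.2, w.2.1)) = pairM μ F κ := by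
    ext t ht
    rw [← lintegral_indicator_one ht, ← lintegral_indicator_one ht,
      lintegral_map (measurable_one.indicator ht) hs, ← lint_swap (measurable_one.indicator ht)]
  have h1 := h.ae_fst hp
  rw [← e] at h1
  exact ae_of_ae_map hs.aemeasurable h1

variable [MeasurableSpace ι] [Countable ι] [MeasurableSingletonClass ι] {e : Ω → ι}

omit [Countable ι] in
theorem IsDis.rep_pair (h : IsDis μ F κ) (hs : Measurable s) (hS : IsDis μ (fun x => (F x, s x)) κS)
    (he : Measurable e) (i : ι) {G : Y × S × Ω → ℝ≥0∞} (hG : Measurable G) :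
    ∫⁻ w, (e ⁻¹' {i}).indicator 1 w.2.1 * G (w.1, s w.2.1, w.2.2) ∂pairM μ F κ =
      ∫⁻ w, cpr κS e (w.1, s w.2.1) i * G (w.1, s w.2.1, w.2.2) ∂pairM μ F κ := by
  have h1 : Measurable ((e ⁻¹' {i}).indicator 1 : Ω → ℝ≥0∞) :=
    measurable_one.indicator (he (measurableSet_singleton i))
  have h2 := measurable_cpr (κ := κS) he i
  rw [h.lint_fst (by fun_prop), h.lint_fst (by fun_prop)]
  have h4 : ∀ x, Measurable fun y => G (F x, s x, y) := fun x => hG.comp (by fun_prop)
  simp only [lintegral_const_mul _ (h4 _)]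
  exact hS.rep he i (measurable_inner (κ := κ) hG)

/-- The density of the pair conditioned on equal digits. -/
noncomputable def rhoE (κ : Kernel Y Ω) (e : Ω → ι) (w : Y × Ω × Ω) : ℝ≥0∞ :=
  (e ⁻¹' {e w.2.1}).indicator 1 w.2.2 * (cpr κ e w.1 (e w.2.1))⁻¹

/-- The same density seen on the labels. -/
noncomputable def phiE (κ : Kernel Y Ω) (κS : Kernel (Y × S) Ω) (κA : Kernel (Y × A) Ω)
    (e : Ω → ι) (z : Y × S × A) : ℝ≥0∞ :=
  ∑' i, cpr κS e (z.1, z.2.1) i * (cpr κA e (z.1, z.2.2) i * (cpr κ e z.1 i)⁻¹)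

omit [IsMarkovKernel κ] [MeasurableSpace ι] [Countable ι] [MeasurableSingletonClass ι] in
theorem rhoE_eq (w : Y × Ω × Ω) : rhoE κ e w = ∑' i, (e ⁻¹' {i}).indicator 1 w.2.1 *
    ((e ⁻¹' {i}).indicator 1 w.2.2 * (cpr κ e w.1 i)⁻¹) := by
  rw [tsum_eq_single (e w.2.1) fun i hi => by simp [hi.symm]]
  simp [rhoE]

omit [IsMarkovKernel κ] in
theorem measurable_rhoE (he : Measurable e) : Measurable (rhoE κ e) := by
  rw [show rhoE κ e = _ from funext rhoE_eq]
  refine Measurable.tsum fun i => ?_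
  have h1 : Measurable ((e ⁻¹' {i}).indicator 1 : Ω → ℝ≥0∞) :=
    measurable_one.indicator (he (measurableSet_singleton i))
  exact (h1.comp (by fun_prop)).mul ((h1.comp (by fun_prop)).mul
    ((measurable_cpr he i).comp measurable_fst).inv)

omit [IsMarkovKernel κ] [IsMarkovKernel κS] [IsMarkovKernel κA] in
theorem measurable_phiE (he : Measurable e) : Measurable (phiE κ κS κA e) :=
  Measurable.tsum fun i => ((measurable_cpr he i).comp (by fun_prop)).mul
    (((measurable_cpr he i).comp (by fun_prop)).mul ((measurable_cpr he i).comp measurable_fst).inv)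

omit [IsMarkovKernel κ] [MeasurableSpace ι] [Countable ι] [MeasurableSingletonClass ι] in
theorem rhoE_swap (w : Y × Ω × Ω) : rhoE κ e (w.1, w.2.2, w.2.1) = rhoE κ e w := by
  rw [rhoE_eq, rhoE_eq]
  exact tsum_congr fun i => mul_left_comm _ _ _

theorem IsDis.rho_phi (h : IsDis μ F κ) (hs : Measurable s) (hal : Measurable al)
    (hS : IsDis μ (fun x => (F x, s x)) κS) (hA : IsDis μ (fun x => (F x, al x)) κA)
    (he : Measurable e) {g : Y × S × A → ℝ≥0∞} (hg : Measurable g) :
    ∫⁻ w, rhoE κ e w * g (w.1, s w.2.1, al w.2.2) ∂pairM μ F κ =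
      ∫⁻ w, phiE κ κS κA e (w.1, s w.2.1, al w.2.2) * g (w.1, s w.2.1, al w.2.2) ∂pairM μ F κ := by
  have h1 : ∀ i, Measurable ((e ⁻¹' {i}).indicator 1 : Ω → ℝ≥0∞) := fun i =>
    measurable_one.indicator (he (measurableSet_singleton i))
  have h2 := measurable_cpr (κ := κ) he
  have h3 := measurable_cpr (κ := κS) he
  have h4 := measurable_cpr (κ := κA) he
  simp only [rhoE_eq, phiE, ← ENNReal.tsum_mul_right]
  rw [lintegral_tsum fun i => Measurable.aemeasurable (by have := h1 i; have := h2 i; fun_prop),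
    lintegral_tsum fun i => Measurable.aemeasurable
      (by have := h2 i; have := h3 i; have := h4 i; fun_prop)]
  refine tsum_congr fun i => ?_
  have a1 := h1 i
  have a2 := h2 i
  have a3 := h3 i
  have a4 := h4 i
  have e1 := h.rep_pair hs hS he i (G := fun z => (e ⁻¹' {i}).indicator 1 z.2.2 *
    (cpr κ e z.1 i)⁻¹ * g (z.1, z.2.1, al z.2.2)) (by fun_prop)
  have e2 := h.rep_pair hal hA he i (G := fun z => cpr κS e (z.1, s z.2.2) i *
    (cpr κ e z.1 i)⁻¹ * g (z.1, s z.2.2, z.2.1)) (by fun_prop)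
  simp only [mul_assoc] at e1 e2 ⊢
  rw [e1, lint_swap (by fun_prop)]
  conv_rhs => rw [lint_swap (by fun_prop)]
  refine (lintegral_congr fun w => mul_left_comm _ _ _).trans (e2.trans ?_)
  exact lintegral_congr fun w => mul_left_comm _ _ _

theorem IsDis.rho_fst (h : IsDis μ F κ) (he : Measurable e) {g : Y × Ω → ℝ≥0∞}
    (hg : Measurable g) :
    ∫⁻ w, rhoE κ e w * g (w.1, w.2.1) ∂pairM μ F κ = ∫⁻ x, g (F x, x) ∂μ := by
  have hr := measurable_rhoE (κ := κ) he
  rw [h.lint_fst (by fun_prop)]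
  refine lintegral_congr_ae ?_
  filter_upwards [h.pos he] with x hx
  have hm : MeasurableSet (e ⁻¹' {e x}) := he (measurableSet_singleton _)
  show ∫⁻ y, (e ⁻¹' {e x}).indicator 1 y * (cpr κ e (F x) (e x))⁻¹ * g (F x, x) ∂κ (F x) = _
  simp only [mul_assoc]
  rw [lintegral_mul_const _ (measurable_one.indicator hm), lintegral_indicator_one hm, ← mul_assoc]
  show cpr κ e (F x) (e x) * _ * _ = _
  rw [ENNReal.mul_inv_cancel hx (measure_ne_top _ _), one_mul]

theorem IsDis.rho_snd (h : IsDis μ F κ) (he : Measurable e) {g : Y × Ω → ℝ≥0∞}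
    (hg : Measurable g) :
    ∫⁻ w, rhoE κ e w * g (w.1, w.2.2) ∂pairM μ F κ = ∫⁻ x, g (F x, x) ∂μ := by
  have hr := measurable_rhoE (κ := κ) he
  rw [lint_swap (by fun_prop), ← h.rho_fst he hg]
  exact lintegral_congr fun w => by rw [← rhoE_swap]

/-- The information of the value `i`. -/
noncomputable def infE (κ : Kernel Y Ω) (e : Ω → ι) (f : Y) (i : ι) : ℝ≥0∞ :=
  ENNReal.ofReal (-Real.log (cpr κ e f i).toReal)

omit [IsMarkovKernel κ] in
theorem measurable_infE {W : Type*} [MeasurableSpace W] (he : Measurable e) {f : W → Y}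
    {i : W → ι} (hf : Measurable f) (hi : Measurable i) :
    Measurable fun w => infE κ e (f w) (i w) :=
  (measurable_cpr' he hf hi).ennreal_toReal.log.neg.ennreal_ofReal

theorem krv_pt {a b c : ℝ≥0∞} (a0 : a ≠ 0) (b0 : b ≠ 0) (c0 : c ≠ 0) (a1 : a ≤ 1) (b1 : b ≤ 1)
    (c1 : c ≤ 1) : ENNReal.ofReal (((a * (b * c⁻¹))⁻¹).toReal - 1 -
      Real.log ((a * (b * c⁻¹))⁻¹).toReal) + (1 + (ENNReal.ofReal (-Real.log a.toReal) +
        ENNReal.ofReal (-Real.log b.toReal))) =
      (a * (b * c⁻¹))⁻¹ + ENNReal.ofReal (-Real.log c.toReal) := by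
  have at' : a ≠ ∞ := ne_top_of_le_ne_top ENNReal.one_ne_top a1
  have bt : b ≠ ∞ := ne_top_of_le_ne_top ENNReal.one_ne_top b1
  have ct : c ≠ ∞ := ne_top_of_le_ne_top ENNReal.one_ne_top c1
  have ha := ENNReal.toReal_pos a0 at'
  have hb := ENNReal.toReal_pos b0 bt
  have hc := ENNReal.toReal_pos c0 ct
  have l : ∀ {x : ℝ≥0∞}, x ≤ 1 → 0 ≤ -Real.log x.toReal := fun hx =>
    neg_nonneg.mpr (Real.log_nonpos ENNReal.toReal_nonneg
      (ENNReal.toReal_le_of_le_ofReal zero_le_one (by simpa using hx)))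
  have ht : (a * (b * c⁻¹))⁻¹ ≠ ∞ :=
    ENNReal.inv_ne_top.mpr (mul_ne_zero a0 (mul_ne_zero b0 (ENNReal.inv_ne_zero.mpr ct)))
  have e : ((a * (b * c⁻¹))⁻¹).toReal = (a.toReal * (b.toReal * c.toReal⁻¹))⁻¹ := by
    simp only [ENNReal.toReal_inv, ENNReal.toReal_mul]
  have hp : 0 < ((a * (b * c⁻¹))⁻¹).toReal := by
    rw [e]
    positivity
  have el : Real.log ((a * (b * c⁻¹))⁻¹).toReal =
      -(Real.log a.toReal + (Real.log b.toReal + -Real.log c.toReal)) := by
    rw [e, Real.log_inv, Real.log_mul ha.ne' (by positivity), Real.log_mul hb.ne' (by positivity),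
      Real.log_inv]
  have hw := Real.log_le_sub_one_of_pos hp
  conv_rhs => rw [← ENNReal.ofReal_toReal ht]
  rw [← ENNReal.ofReal_one, ← ENNReal.ofReal_add (l a1) (l b1),
    ← ENNReal.ofReal_add zero_le_one (add_nonneg (l a1) (l b1)),
    ← ENNReal.ofReal_add (by linarith) (add_nonneg zero_le_one (add_nonneg (l a1) (l b1))),
    ← ENNReal.ofReal_add hp.le (l c1), el]
  congr 1
  ring

theorem krv_one {t : ℝ≥0∞} (h0 : t ≠ 0) (ht : t ≠ ∞)
    (h : ENNReal.ofReal (t⁻¹.toReal - 1 - Real.log t⁻¹.toReal) = 0) : t = 1 := by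
  have hp : 0 < t⁻¹.toReal := ENNReal.toReal_pos (ENNReal.inv_ne_zero.mpr ht)
    (ENNReal.inv_ne_top.mpr h0)
  rw [ENNReal.ofReal_eq_zero] at h
  by_contra hne
  have h1 : t⁻¹.toReal ≠ 1 := fun e => hne (by
    rw [ENNReal.toReal_eq_one_iff, ENNReal.inv_eq_one] at e
    exact e)
  linarith [Real.log_lt_sub_one_of_pos hp h1]

/-- One digit: the pair conditioned on equal digits has the same law on the labels. -/
theorem krv_digit [StandardBorelSpace Y] [StandardBorelSpace S] [StandardBorelSpace A]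
    (h : IsDis μ F κ) (hs : Measurable s) (hal : Measurable al)
    (hS : IsDis μ (fun x => (F x, s x)) κS) (hA : IsDis μ (fun x => (F x, al x)) κA)
    (he : Measurable e) {Z : Set Ω} (hZ : MeasurableSet Z) (hZ' : ∀ᵐ x ∂μ, x ∈ Z)
    (rect : ∀ y₁ ∈ Z, ∀ y₂ ∈ Z, ∀ y₁' ∈ Z, ∀ y₂' ∈ Z, F y₂ = F y₁ → F y₁' = F y₁ → F y₂' = F y₁ →
      e y₁ = e y₂ → e y₁' = e y₂' → s y₁ = s y₁' → al y₂ = al y₂' → e y₁ = e y₁')
    (fS : ∫⁻ x, infE κS e (F x, s x) (e x) ∂μ ≠ ∞) (fA : ∫⁻ x, infE κA e (F x, al x) (e x) ∂μ ≠ ∞)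
    (ineq : ∫⁻ x, infE κ e (F x) (e x) ∂μ ≤
      ∫⁻ x, infE κS e (F x, s x) (e x) ∂μ + ∫⁻ x, infE κA e (F x, al x) (e x) ∂μ)
    {g : Y × S × A → ℝ≥0∞} (hg : Measurable g) :
    ∫⁻ w, rhoE κ e w * g (w.1, s w.2.1, al w.2.2) ∂pairM μ F κ =
      ∫⁻ w, g (w.1, s w.2.1, al w.2.2) ∂pairM μ F κ := by
  have hP := h.prob_pair
  have hr := measurable_rhoE (κ := κ) he
  obtain ⟨φ, hφd⟩ : ∃ φ, φ = phiE κ κS κA e := ⟨_, rfl⟩
  have hφ : Measurable φ := hφd ▸ measurable_phiE (κ := κ) (κS := κS) (κA := κA) he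
  obtain ⟨W, hWd⟩ : ∃ W : Y × S × A → ℝ≥0∞, W = fun z =>
    ENNReal.ofReal ((φ z)⁻¹.toReal - 1 - Real.log (φ z)⁻¹.toReal) := ⟨_, rfl⟩
  have hW : Measurable W := by
    rw [hWd]
    fun_prop
  have iF : Measurable fun z : Y × Ω => infE κ e z.1 (e z.2) :=
    measurable_infE he (by fun_prop) (by fun_prop)
  have iS : Measurable fun z : Y × Ω => infE κS e (z.1, s z.2) (e z.2) :=
    measurable_infE he (by fun_prop) (by fun_prop)
  have iA : Measurable fun z : Y × Ω => infE κA e (z.1, al z.2) (e z.2) :=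
    measurable_infE he (by fun_prop) (by fun_prop)
  have key : ∀ᵐ w ∂pairM μ F κ, e w.2.2 = e w.2.1 →
      (φ (w.1, s w.2.1, al w.2.2) ≠ 0 ∧ φ (w.1, s w.2.1, al w.2.2) ≠ ∞) ∧
      W (w.1, s w.2.1, al w.2.2) + (1 + (infE κS e (w.1, s w.2.1) (e w.2.1) +
        infE κA e (w.1, al w.2.2) (e w.2.2))) =
      (φ (w.1, s w.2.1, al w.2.2))⁻¹ + infE κ e w.1 (e w.2.1) := by
    filter_upwards [h.ae_fst (hZ'.and ((h.pos he).and ((hS.pos he).and (hS.ae_atom hZ hZ')))),
      h.ae_snd (hZ'.and ((hA.pos he).and (hA.ae_atom hZ hZ')))] with ⟨f, x, y⟩ h1 h2 hxy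
    dsimp only at h1 h2 hxy ⊢
    obtain ⟨rfl, x0, x1, x2, x3⟩ := h1
    obtain ⟨y0, y1, y2, y3⟩ := h2
    rw [y0] at y2 y3
    have e1 : φ (F x, s x, al y) = cpr κS e (F x, s x) (e x) *
        (cpr κA e (F x, al y) (e x) * (cpr κ e (F x) (e x))⁻¹) := by
      rw [hφd]
      refine tsum_eq_single (e x) fun j hj => ?_
      by_contra hne
      obtain ⟨u, hu, u1, u2⟩ := Measure.exists_mem_of_measure_ne_zero_of_ae
        (left_ne_zero_of_mul hne) (ae_restrict_of_ae x3)
      obtain ⟨v, hv, v1, v2⟩ := Measure.exists_mem_of_measure_ne_zero_of_ae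
        (left_ne_zero_of_mul (right_ne_zero_of_mul hne)) (ae_restrict_of_ae y3)
      have hu' : e u = j := hu
      have hv' : e v = j := hv
      exact hj (hu'.symm.trans (rect x x0 y y1 u u2 v v2 y0 (Prod.mk.inj u1).1 (Prod.mk.inj v1).1
        hxy.symm (hu'.trans hv'.symm) (Prod.mk.inj u1).2.symm (Prod.mk.inj v1).2.symm).symm)
    rw [hxy] at y2 ⊢
    have t : ∀ {x : ℝ≥0∞}, x ≤ 1 → x ≠ ∞ := fun hx => ne_top_of_le_ne_top ENNReal.one_ne_top hx
    refine ⟨?_, ?_⟩
    · rw [e1]
      exact ⟨mul_ne_zero x2 (mul_ne_zero y2 (ENNReal.inv_ne_zero.mpr (t (cpr_le_one _ _)))),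
        ENNReal.mul_ne_top (t (cpr_le_one _ _))
          (ENNReal.mul_ne_top (t (cpr_le_one _ _)) (ENNReal.inv_ne_top.mpr x1))⟩
    · simp only [hWd, e1]
      exact krv_pt x2 y2 x1 (cpr_le_one _ _) (cpr_le_one _ _) (cpr_le_one _ _)
  have r0 : ∀ w : Y × Ω × Ω, e w.2.2 ≠ e w.2.1 → rhoE κ e w = 0 := fun w hw => by
    simp [rhoE, hw]
  have m1 : ∫⁻ w, rhoE κ e w ∂pairM μ F κ = 1 := by
    simpa using h.rho_fst he (g := fun _ => 1) measurable_const
  have s1 : ∫⁻ w, rhoE κ e w * W (w.1, s w.2.1, al w.2.2) ∂pairM μ F κ +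
      (1 + (∫⁻ x, infE κS e (F x, s x) (e x) ∂μ + ∫⁻ x, infE κA e (F x, al x) (e x) ∂μ)) =
      ∫⁻ w, rhoE κ e w * (φ (w.1, s w.2.1, al w.2.2))⁻¹ ∂pairM μ F κ +
        ∫⁻ x, infE κ e (F x) (e x) ∂μ := by
    have b2 : Measurable fun w : Y × Ω × Ω => infE κS e (w.1, s w.2.1) (e w.2.1) :=
      measurable_infE he (by fun_prop) (by fun_prop)
    have c1 : ∫⁻ w, rhoE κ e w * infE κ e w.1 (e w.2.1) ∂pairM μ F κ =
      ∫⁻ x, infE κ e (F x) (e x) ∂μ := h.rho_fst he (g := fun z => infE κ e z.1 (e z.2)) iF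
    have c2 : ∫⁻ w, rhoE κ e w * infE κS e (w.1, s w.2.1) (e w.2.1) ∂pairM μ F κ =
      ∫⁻ x, infE κS e (F x, s x) (e x) ∂μ :=
        h.rho_fst he (g := fun z => infE κS e (z.1, s z.2) (e z.2)) iS
    have c3 : ∫⁻ w, rhoE κ e w * infE κA e (w.1, al w.2.2) (e w.2.2) ∂pairM μ F κ =
      ∫⁻ x, infE κA e (F x, al x) (e x) ∂μ :=
        h.rho_snd he (g := fun z => infE κA e (z.1, al z.2) (e z.2)) iA
    have b3 : Measurable fun w : Y × Ω × Ω => rhoE κ e w * infE κS e (w.1, s w.2.1) (e w.2.1) :=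
      hr.mul b2
    have b4 : Measurable fun w : Y × Ω × Ω => rhoE κ e w * W (w.1, s w.2.1, al w.2.2) := by
      fun_prop
    have b5 : Measurable fun w : Y × Ω × Ω => rhoE κ e w * (φ (w.1, s w.2.1, al w.2.2))⁻¹ := by
      fun_prop
    rw [← c1, ← c2, ← c3, ← m1, ← lintegral_add_left b3, ← lintegral_add_left hr,
      ← lintegral_add_left b4, ← lintegral_add_left b5]
    refine lintegral_congr_ae ?_
    filter_upwards [key] with w hw
    by_cases hxy : e w.2.2 = e w.2.1
    · rw [← mul_add, ← mul_add, ← (hw hxy).2]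
      ring
    · simp [r0 w hxy]
  have s2 : ∫⁻ w, rhoE κ e w * (φ (w.1, s w.2.1, al w.2.2))⁻¹ ∂pairM μ F κ ≤ 1 := by
    rw [h.rho_phi hs hal hS hA he (g := fun z => (φ z)⁻¹) hφ.inv, ← hφd]
    refine (lintegral_mono fun w => ENNReal.mul_inv_le_one _).trans (by simp)
  have s3 : ∫⁻ w, rhoE κ e w * W (w.1, s w.2.1, al w.2.2) ∂pairM μ F κ = 0 := by
    have b := s1.le.trans (add_le_add s2 ineq)
    conv_rhs at b => rw [← zero_add (1 + _)]
    exact le_zero_iff.mp (ENNReal.le_of_add_le_add_right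
      (ENNReal.add_ne_top.mpr ⟨ENNReal.one_ne_top, ENNReal.add_ne_top.mpr ⟨fS, fA⟩⟩) b)
  rw [lintegral_eq_zero_iff (by fun_prop)] at s3
  have hN : MeasurableSet {z | φ z = 1} := hφ (measurableSet_singleton 1)
  have hI : Measurable ({z | φ z = 1}.indicator 1 : Y × S × A → ℝ≥0∞) :=
    measurable_one.indicator hN
  have s4 : ∫⁻ w, {z | φ z = 1}.indicator 1 (w.1, s w.2.1, al w.2.2) ∂pairM μ F κ = 1 := by
    have b := h.rho_phi hs hal hS hA he hI
    rw [← hφd] at b
    refine (Eq.trans (lintegral_congr fun w => ?_) (b.symm.trans (lintegral_congr_ae ?_))).trans m1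
    · by_cases hw : φ (w.1, s w.2.1, al w.2.2) = 1 <;> simp [hw]
    · filter_upwards [key, s3] with w hw h0
      by_cases hr0 : rhoE κ e w = 0
      · simp [hr0]
      · have hxy : e w.2.2 = e w.2.1 := by_contra fun hn => hr0 (r0 w hn)
        have b0 : W (w.1, s w.2.1, al w.2.2) = 0 := (mul_eq_zero.mp h0).resolve_left hr0
        rw [hWd] at b0
        have b1 := krv_one (hw hxy).1.1 (hw hxy).1.2 b0
        simp [b1]
  have s5 : ∀ᵐ w ∂pairM μ F κ, φ (w.1, s w.2.1, al w.2.2) = 1 := by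
    have hm : MeasurableSet {w : Y × Ω × Ω | φ (w.1, s w.2.1, al w.2.2) = 1} :=
      (by fun_prop : Measurable fun w : Y × Ω × Ω => (w.1, s w.2.1, al w.2.2)) hN
    refine (mem_ae_iff_prob_eq_one hm).mpr ?_
    exact (lintegral_indicator_one hm).symm.trans s4
  rw [h.rho_phi hs hal hS hA he hg]
  refine lintegral_congr_ae ?_
  filter_upwards [s5] with w hw
  rw [← hφd, hw, one_mul]

omit [MeasurableSpace ι] [Countable ι] [MeasurableSingletonClass ι] in
/-- E12, core: conditional independence of `s` and `al` given `F`. -/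
theorem krv_core [StandardBorelSpace Y] [StandardBorelSpace S] [StandardBorelSpace A]
    [PseudoMetricSpace A] [BorelSpace A] (h : IsDis μ F κ) (hs : Measurable s) (hal : Measurable al)
    (hS : IsDis μ (fun x => (F x, s x)) κS) (hA : IsDis μ (fun x => (F x, al x)) κA)
    {D : ℕ → Type*} [∀ n, MeasurableSpace (D n)] [∀ n, Countable (D n)]
    [∀ n, MeasurableSingletonClass (D n)] {e : ∀ n, Ω → D n} (he : ∀ n, Measurable (e n))
    {Z : Set Ω} (hZ : MeasurableSet Z) (hZ' : ∀ᵐ x ∂μ, x ∈ Z)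
    (rect : ∀ n, ∀ y₁ ∈ Z, ∀ y₂ ∈ Z, ∀ y₁' ∈ Z, ∀ y₂' ∈ Z, F y₂ = F y₁ → F y₁' = F y₁ →
      F y₂' = F y₁ → e n y₁ = e n y₂ → e n y₁' = e n y₂' → s y₁ = s y₁' → al y₂ = al y₂' →
      e n y₁ = e n y₁')
    (fS : ∀ n, ∫⁻ x, infE κS (e n) (F x, s x) (e n x) ∂μ ≠ ∞)
    (fA : ∀ n, ∫⁻ x, infE κA (e n) (F x, al x) (e n x) ∂μ ≠ ∞)
    (ineq : ∀ n, ∫⁻ x, infE κ (e n) (F x) (e n x) ∂μ ≤
      ∫⁻ x, infE κS (e n) (F x, s x) (e n x) ∂μ + ∫⁻ x, infE κA (e n) (F x, al x) (e n x) ∂μ)
    (diam : ∀ᵐ x ∂μ, ∀ ε : ℝ, 0 < ε → ∃ N, ∀ n, N ≤ n → ∀ y ∈ Z, F y = F x → e n y = e n x →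
      dist (al y) (al x) ≤ ε) :
    ∀ᵐ x ∂μ, (κ (F x)).map (fun y => (s y, al y)) = ((κ (F x)).map s).prod ((κ (F x)).map al) := by
  have hP := h.prob_pair
  have hF := h.meas
  have hν := Measure.isProbabilityMeasure_map (μ := μ) hF.aemeasurable
  have m1 : Measurable fun w : Y × Ω × Ω => (w.1, s w.2.1, al w.2.2) := by fun_prop
  have m2 : Measurable fun x : Ω => (F x, s x, al x) := by fun_prop
  have test : ∀ {U : Set Y} {B : Set S}, MeasurableSet U → MeasurableSet B → ∀ c : A →ᵇ ℝ≥0,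
      ∫⁻ w, (U.indicator 1 w.1 * B.indicator 1 (s w.2.1)) * (c (al w.2.2) : ℝ≥0∞) ∂pairM μ F κ =
        ∫⁻ x, (U.indicator 1 (F x) * B.indicator 1 (s x)) * (c (al x) : ℝ≥0∞) ∂μ := by
    intro U B hU hB c
    have hu : Measurable (U.indicator 1 : Y → ℝ≥0∞) := measurable_one.indicator hU
    have hb : Measurable (B.indicator 1 : S → ℝ≥0∞) := measurable_one.indicator hB
    have hc : Measurable fun a => (c a : ℝ≥0∞) := c.continuous.measurable.coe_nnreal_ennreal
    have hr := fun n => measurable_rhoE (κ := κ) (he n)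
    obtain ⟨C, hC⟩ : ∃ C : ℝ≥0, ∀ a, c a ≤ C := ⟨nndist c 0, fun a => BoundedContinuousFunction.NNReal.upper_bound c a⟩
    let q : ℕ → Ω → ℝ≥0∞ := fun n x => ∫⁻ y, rhoE κ (e n) (F x, x, y) * c (al y) ∂κ (F x)
    have hq : ∀ n, Measurable (q n) := fun n =>
      (measurable_inner (κ := κ) (G := fun w : Y × Ω × Ω => rhoE κ (e n) w * c (al w.2.2))
        (by have := hr n; fun_prop)).comp (hF.prodMk measurable_id')
    have hy : ∀ n x, Measurable fun y => rhoE κ (e n) (F x, x, y) := fun n x =>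
      (hr n).comp (by fun_prop)
    have e1 : ∀ n, ∫⁻ x, (U.indicator 1 (F x) * B.indicator 1 (s x)) * q n x ∂μ =
        ∫⁻ w, (U.indicator 1 w.1 * B.indicator 1 (s w.2.1)) * (c (al w.2.2) : ℝ≥0∞)
          ∂pairM μ F κ := by
      intro n
      have := hr n
      rw [← krv_digit h hs hal hS hA (he n) hZ hZ' (rect n) (fS n) (fA n) (ineq n)
        (g := fun z => (U.indicator 1 z.1 * B.indicator 1 z.2.1) * (c z.2.2 : ℝ≥0∞)) (by fun_prop),
        h.lint_fst (by fun_prop)]
      refine lintegral_congr fun x => ?_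
      have := hy n x
      rw [← lintegral_const_mul _ (by fun_prop)]
      exact lintegral_congr fun y => mul_left_comm _ _ _
    have one : ∀ᵐ x ∂μ, ∀ n, ∫⁻ y, rhoE κ (e n) (F x, x, y) ∂κ (F x) = 1 := by
      refine ae_all_iff.mpr fun n => ?_
      filter_upwards [h.pos (he n)] with x hx
      have hm : MeasurableSet (e n ⁻¹' {e n x}) := he n (measurableSet_singleton _)
      show ∫⁻ y, (e n ⁻¹' {e n x}).indicator 1 y * (cpr κ (e n) (F x) (e n x))⁻¹ ∂κ (F x) = 1
      rw [lintegral_mul_const _ (measurable_one.indicator hm), lintegral_indicator_one hm]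
      exact ENNReal.mul_inv_cancel hx (measure_ne_top _ _)
    have lim : Tendsto (fun n => ∫⁻ x, (U.indicator 1 (F x) * B.indicator 1 (s x)) * q n x ∂μ) atTop
        (𝓝 (∫⁻ x, (U.indicator 1 (F x) * B.indicator 1 (s x)) * (c (al x) : ℝ≥0∞) ∂μ)) := by
      have le1 : ∀ x, (U.indicator 1 (F x) * B.indicator 1 (s x) : ℝ≥0∞) ≤ 1 := fun x =>
        mul_le_one' (indicator_le_self' (fun _ _ => zero_le_one) _)
          (indicator_le_self' (fun _ _ => zero_le_one) _)
      refine tendsto_lintegral_of_dominated_convergence (fun _ => (C : ℝ≥0∞))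
        (fun n => by have := hq n; fun_prop) (fun n => ?_) (by simp) ?_
      · filter_upwards [one] with x hx
        refine (mul_le_of_le_one_left' (le1 x)).trans ?_
        refine (lintegral_mono fun y => mul_le_mul_right (ENNReal.coe_le_coe.mpr (hC _)) _).trans ?_
        rw [lintegral_mul_const _ (hy n x), hx n, one_mul]
      · filter_upwards [one, diam, h.ae_atom hZ hZ'] with x hx hd ha
        refine ENNReal.Tendsto.const_mul ?_ (Or.inr (ne_top_of_le_ne_top ENNReal.one_ne_top (le1 x)))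
        rw [ENNReal.tendsto_atTop ENNReal.coe_ne_top]
        intro ε hε
        have hcc : ContinuousAt (fun a => (c a : ℝ≥0∞)) (al x) :=
          (ENNReal.continuous_coe.comp c.continuous).continuousAt
        obtain ⟨δ, hδ, h1⟩ := Metric.eventually_nhds_iff.mp
          ((ENNReal.tendsto_nhds ENNReal.coe_ne_top).mp hcc ε hε)
        obtain ⟨N, hN⟩ := hd (δ / 2) (half_pos hδ)
        refine ⟨N, fun n hn => ?_⟩
        have h2 : ∀ᵐ y ∂κ (F x), rhoE κ (e n) (F x, x, y) * (c (al x) - ε) ≤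
            rhoE κ (e n) (F x, x, y) * c (al y) ∧ rhoE κ (e n) (F x, x, y) * c (al y) ≤
              rhoE κ (e n) (F x, x, y) * (c (al x) + ε) := by
          filter_upwards [ha] with y hy'
          by_cases hxy : e n y = e n x
          · have h3 := h1 ((hN n hn y hy'.2 hy'.1 hxy).trans_lt (half_lt_self hδ))
            exact ⟨mul_le_mul_right h3.1 _, mul_le_mul_right h3.2 _⟩
          · simp [rhoE, hxy]
        constructor
        · refine le_trans (le_of_eq ?_) (lintegral_mono_ae (h2.mono fun _ h => h.1))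
          rw [lintegral_mul_const _ (hy n x), hx n, one_mul]
        · refine (lintegral_mono_ae (h2.mono fun _ h => h.2)).trans (le_of_eq ?_)
          rw [lintegral_mul_const _ (hy n x), hx n, one_mul]
    simp only [e1] at lim
    exact tendsto_nhds_unique tendsto_const_nhds lim
  have law : (pairM μ F κ).map (fun w => (w.1, s w.2.1, al w.2.2)) =
      μ.map fun x => (F x, s x, al x) := by
    refine Measure.ext_prod₃ fun {U B T} hU hB hT => ?_
    have hu : Measurable (U.indicator 1 : Y → ℝ≥0∞) := measurable_one.indicator hU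
    have hb : Measurable (B.indicator 1 : S → ℝ≥0∞) := measurable_one.indicator hB
    have a1 : MeasurableSet {w : Y × Ω × Ω | w.1 ∈ U ∧ s w.2.1 ∈ B} :=
      (measurable_fst hU).inter ((by fun_prop : Measurable fun w : Y × Ω × Ω => s w.2.1) hB)
    have a2 : MeasurableSet {x : Ω | F x ∈ U ∧ s x ∈ B} := (hF hU).inter (hs hB)
    have a3 : Measurable fun w : Y × Ω × Ω => al w.2.2 := by fun_prop
    have e2 : ((pairM μ F κ).restrict {w | w.1 ∈ U ∧ s w.2.1 ∈ B}).map (fun w => al w.2.2) =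
        (μ.restrict {x | F x ∈ U ∧ s x ∈ B}).map al := by
      refine ext_of_forall_lintegral_eq_of_IsFiniteMeasure fun c => ?_
      have hc : Measurable fun a => (c a : ℝ≥0∞) := c.continuous.measurable.coe_nnreal_ennreal
      rw [lintegral_map hc a3, lintegral_map hc hal, ← lintegral_indicator a1,
        ← lintegral_indicator a2]
      refine Eq.trans (lintegral_congr fun w => ?_) ((test hU hB c).trans
        (lintegral_congr fun x => ?_))
      · by_cases h1 : w.1 ∈ U <;> by_cases h2 : s w.2.1 ∈ B <;> simp [h1, h2]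
      · by_cases h1 : F x ∈ U <;> by_cases h2 : s x ∈ B <;> simp [h1, h2]
    have e3 := congrArg (fun m : Measure A => m T) e2
    simp only [Measure.map_apply a3 hT, Measure.map_apply hal hT, Measure.restrict_apply (a3 hT),
      Measure.restrict_apply (hal hT)] at e3
    rw [Measure.map_apply m1 (hU.prod (hB.prod hT)), Measure.map_apply m2 (hU.prod (hB.prod hT))]
    convert e3 using 2 <;> ext <;> simp <;> tauto
  have m3 : Measurable fun y => (s y, al y) := by fun_prop
  have k1 := Kernel.IsMarkovKernel.map κ m3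
  have k2 := Kernel.IsMarkovKernel.map κ hs
  have k3 := Kernel.IsMarkovKernel.map κ hal
  have eq : μ.map F ⊗ₘ κ.map (fun y => (s y, al y)) = μ.map F ⊗ₘ (κ.map s ×ₖ κ.map al) := by
    rw [Measure.compProd_map m3, h.eq, Kernel.map_prod_map _ _ hs hal,
      Measure.compProd_map (hs.prodMap hal),
      Measure.map_map (measurable_id.prodMap m3) (hF.prodMk measurable_id')]
    exact law.symm
  filter_upwards [ae_of_ae_map hF.aemeasurable (Kernel.ae_eq_of_compProd_eq eq)] with x hx
  rw [← Kernel.map_apply _ m3, hx, Kernel.prod_apply, Kernel.map_apply _ hs,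
    Kernel.map_apply _ hal]

end pair

end Pool.Agent.P.MP_d483fb_an.Z


end

section

/-!
Conditional independence from the entropy inequality, in the language of `Ent.Defs`.
-/

namespace Pool.Agent.P.MP_d483fb_an.Z.Ent

open MeasureTheory ProbabilityTheory Set Filter Topology
open scoped ENNReal NNReal

theorem KRV1_closed {A : Type*} [MeasurableSpace A] [PseudoMetricSpace A] [BorelSpace A]
    {m m' : Measure A} [IsFiniteMeasure m'] {T : Set A} (hT : IsClosed T)
    (h : ∀ δ : ℝ, 0 < δ → ∀ η : ℝ, 0 < η →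
      m T ≤ m' (Metric.cthickening δ T) + (ENNReal.ofReal η + ENNReal.ofReal η)) :
    m T ≤ m' T := by
  have h1 : Tendsto (fun δ => m' (Metric.cthickening δ T)) (𝓝 0) (𝓝 (m' T)) :=
    tendsto_measure_cthickening_of_isClosed ⟨1, one_pos, measure_ne_top _ _⟩ hT
  have h2 : Tendsto (fun δ : ℝ => ENNReal.ofReal δ) (𝓝 0) (𝓝 0) := by
    simpa using ENNReal.continuous_ofReal.tendsto 0
  have h3 := (h1.add (h2.add h2)).mono_left (nhdsWithin_le_nhds (s := Ioi 0))
  simp only [add_zero] at h3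
  exact ge_of_tendsto h3 (eventually_nhdsWithin_of_forall fun δ hδ => h δ hδ δ hδ)

variable {Ω Y S A : Type*} [MeasurableSpace Ω] [MeasurableSpace Y] [MeasurableSpace S]
  [MeasurableSpace A] {μ : Measure Ω} [IsProbabilityMeasure μ] {F : Ω → Y} {s : Ω → S}
  {al : Ω → A}

/-- If the pair laws agree for all digits and the atoms shrink, the coordinates are independent. -/
theorem krv_limit [StandardBorelSpace Y] [StandardBorelSpace S] [StandardBorelSpace A]
    [PseudoMetricSpace A] [BorelSpace A] {κ : Kernel Y Ω} [IsMarkovKernel κ] (h : IsDis μ F κ)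
    (hs : Measurable s) (hal : Measurable al)
    {D : ℕ → Type*} [∀ n, MeasurableSpace (D n)] [∀ n, Countable (D n)]
    [∀ n, MeasurableSingletonClass (D n)] {e : ∀ n, Ω → D n} (he : ∀ n, Measurable (e n))
    (pair : ∀ n (g : Y × S × A → ℝ≥0∞), Measurable g →
      ∫⁻ w, rhoE κ (e n) w * g (w.1, s w.2.1, al w.2.2) ∂pairM μ F κ =
        ∫⁻ w, g (w.1, s w.2.1, al w.2.2) ∂pairM μ F κ)
    (shr : Shrink μ F e al) :
    ∀ᵐ x ∂μ, (κ (F x)).map (fun y => (s y, al y)) = ((κ (F x)).map s).prod ((κ (F x)).map al) := by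
  have hP := h.prob_pair
  have hF := h.meas
  have hν := Measure.isProbabilityMeasure_map (μ := μ) hF.aemeasurable
  have m1 : Measurable fun w : Y × Ω × Ω => (w.1, s w.2.1, al w.2.2) := by fun_prop
  have m2 : Measurable fun x : Ω => (F x, s x, al x) := by fun_prop
  have a3 : Measurable fun w : Y × Ω × Ω => al w.2.2 := by fun_prop
  have law : (pairM μ F κ).map (fun w => (w.1, s w.2.1, al w.2.2)) =
      μ.map fun x => (F x, s x, al x) := by
    refine Measure.ext_prod₃ fun {U B T} hU hB hT => ?_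
    have a1 : MeasurableSet {w : Y × Ω × Ω | w.1 ∈ U ∧ s w.2.1 ∈ B} :=
      (measurable_fst hU).inter ((by fun_prop : Measurable fun w : Y × Ω × Ω => s w.2.1) hB)
    have a2 : MeasurableSet {x : Ω | F x ∈ U ∧ s x ∈ B} := (hF hU).inter (hs hB)
    obtain ⟨m, hm⟩ : ∃ m, m = ((pairM μ F κ).restrict {w | w.1 ∈ U ∧ s w.2.1 ∈ B}).map
      (fun w => al w.2.2) := ⟨_, rfl⟩
    obtain ⟨m', hm'⟩ : ∃ m', m' = (μ.restrict {x | F x ∈ U ∧ s x ∈ B}).map al := ⟨_, rfl⟩
    have f1 : IsFiniteMeasure m := hm ▸ inferInstance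
    have f2 : IsFiniteMeasure m' := hm' ▸ inferInstance
    have hI : ∀ {T : Set A}, MeasurableSet T →
        Measurable ((U ×ˢ B ×ˢ T).indicator 1 : Y × S × A → ℝ≥0∞) := fun hT =>
      measurable_one.indicator (hU.prod (hB.prod hT))
    have e1 : ∀ n {T : Set A}, MeasurableSet T → m T = ∫⁻ w, rhoE κ (e n) w *
        (U ×ˢ B ×ˢ T).indicator 1 (w.1, s w.2.1, al w.2.2) ∂pairM μ F κ := by
      intro n T hT
      rw [pair n _ (hI hT), hm, Measure.map_apply a3 hT, Measure.restrict_apply (a3 hT),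
        ← lintegral_indicator_one ((a3 hT).inter a1)]
      refine lintegral_congr fun w => ?_
      by_cases h1 : w.1 ∈ U <;> by_cases h2 : s w.2.1 ∈ B <;> by_cases h3 : al w.2.2 ∈ T <;>
        simp [h1, h2, h3]
    have e2 : ∀ n {T : Set A}, MeasurableSet T → m' T = ∫⁻ w, rhoE κ (e n) w *
        (U ×ˢ B ×ˢ T).indicator 1 (w.1, s w.2.1, al w.2.1) ∂pairM μ F κ := by
      intro n T hT
      have := hI hT
      rw [h.rho_fst (he n) (g := fun z => (U ×ˢ B ×ˢ T).indicator 1 (z.1, s z.2, al z.2))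
        (by fun_prop), hm', Measure.map_apply hal hT, Measure.restrict_apply (hal hT),
        ← lintegral_indicator_one ((hal hT).inter a2)]
      refine lintegral_congr fun x => ?_
      by_cases h1 : F x ∈ U <;> by_cases h2 : s x ∈ B <;> by_cases h3 : al x ∈ T <;>
        simp [h1, h2, h3]
    have key : ∀ δ : ℝ, 0 < δ → ∀ η : ℝ, 0 < η → ∃ n, ∀ (u v : Y × Ω × Ω → ℝ≥0∞), Measurable v →
        (∀ w, u w ≤ 1) → (∀ w, dist (al w.2.1) (al w.2.2) ≤ δ → u w ≤ v w) →
        ∫⁻ w, rhoE κ (e n) w * u w ∂pairM μ F κ ≤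
          ∫⁻ w, rhoE κ (e n) w * v w ∂pairM μ F κ + (ENNReal.ofReal η + ENNReal.ofReal η) := by
      intro δ hδ η hη
      obtain ⟨n, G, hG, hGη, hd⟩ := (shr δ hδ η hη).exists
      refine ⟨n, fun u v hv hu huv => ?_⟩
      have hr := measurable_rhoE (κ := κ) (he n)
      have hc : Measurable (Gᶜ.indicator 1 : Ω → ℝ≥0∞) := measurable_one.indicator hG.compl
      have b0 : ∫⁻ x, Gᶜ.indicator 1 x ∂μ ≤ ENNReal.ofReal η := by
        rw [lintegral_indicator_one hG.compl]
        exact (ENNReal.le_ofReal_iff_toReal_le (measure_ne_top _ _) hη.le).mpr hGη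
      have b1 : ∫⁻ w, rhoE κ (e n) w * Gᶜ.indicator 1 w.2.1 ∂pairM μ F κ ≤ ENNReal.ofReal η :=
        (h.rho_fst (he n) (g := fun z => Gᶜ.indicator 1 z.2) (by fun_prop)).trans_le b0
      have b2 : ∫⁻ w, rhoE κ (e n) w * Gᶜ.indicator 1 w.2.2 ∂pairM μ F κ ≤ ENNReal.ofReal η :=
        (h.rho_snd (he n) (g := fun z => Gᶜ.indicator 1 z.2) (by fun_prop)).trans_le b0
      refine le_trans ?_ (add_le_add le_rfl (add_le_add b1 b2))
      rw [← lintegral_add_left (by fun_prop), ← lintegral_add_left (by fun_prop)]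
      refine lintegral_mono_ae ?_
      filter_upwards [h.ae_fst (p := fun _ => True) (by simp),
        h.ae_snd (p := fun _ => True) (by simp)] with w h1 h2
      rw [← mul_add, ← mul_add]
      by_cases hxy : e n w.2.2 = e n w.2.1
      · refine mul_le_mul_right ?_ _
        by_cases hx : w.2.1 ∈ G
        · by_cases hy : w.2.2 ∈ G
          · exact (huv w (hd _ hx _ hy (h1.1.trans h2.1.symm) hxy.symm)).trans le_self_add
          · refine (hu w).trans (le_add_left (le_add_left ?_))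
            simp [hy]
        · refine (hu w).trans (le_add_left (le_add_right ?_))
          simp [hx]
      · simp [rhoE, hxy]
    have ind : ∀ {T : Set A} {δ : ℝ} (f : Y) (σ : S) {a a' : A}, dist a' a ≤ δ →
        ((U ×ˢ B ×ˢ T).indicator 1 (f, σ, a) : ℝ≥0∞) ≤
          (U ×ˢ B ×ˢ Metric.cthickening δ T).indicator 1 (f, σ, a') := by
      intro T δ f σ a a' hd
      by_cases hz : (f, σ, a) ∈ U ×ˢ B ×ˢ T
      · rw [indicator_of_mem hz, indicator_of_mem
          (show (f, σ, a') ∈ U ×ˢ B ×ˢ Metric.cthickening δ T from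
            ⟨hz.1, hz.2.1, Metric.mem_cthickening_of_dist_le a' a δ T hz.2.2 hd⟩)]
        exact le_rfl
      · rw [indicator_of_notMem hz]
        exact zero_le
    have le1 : ∀ {T : Set A} (z : Y × S × A), ((U ×ˢ B ×ˢ T).indicator 1 z : ℝ≥0∞) ≤ 1 :=
      fun z => indicator_le_self' (fun _ _ => zero_le_one) z
    have cl : ∀ T : Set A, IsClosed T → m T = m' T := by
      intro T hT
      refine le_antisymm (KRV1_closed hT fun δ hδ η hη => ?_) (KRV1_closed hT fun δ hδ η hη => ?_)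
      · obtain ⟨n, hn⟩ := key δ hδ η hη
        have hc : MeasurableSet (Metric.cthickening δ T) := Metric.isClosed_cthickening.measurableSet
        have := hI hc
        rw [e1 n hT.measurableSet, e2 n hc]
        exact hn _ _ (by fun_prop) (fun w => le1 _) fun w hw => ind _ _ hw
      · obtain ⟨n, hn⟩ := key δ hδ η hη
        have hc : MeasurableSet (Metric.cthickening δ T) := Metric.isClosed_cthickening.measurableSet
        have := hI hc
        rw [e2 n hT.measurableSet, e1 n hc]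
        exact hn _ _ (by fun_prop) (fun w => le1 _) fun w hw => ind _ _ ((dist_comm _ _).trans_le hw)
    have e3 : m = m' := by
      refine ext_of_generate_finite _ ?_ isPiSystem_isClosed cl (cl _ isClosed_univ)
      rw [BorelSpace.measurable_eq (α := A), borel_eq_generateFrom_isClosed]
    have e4 := congrArg (fun m : Measure A => m T) (hm.symm.trans (e3.trans hm'))
    simp only [Measure.map_apply a3 hT, Measure.map_apply hal hT, Measure.restrict_apply (a3 hT),
      Measure.restrict_apply (hal hT)] at e4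
    rw [Measure.map_apply m1 (hU.prod (hB.prod hT)), Measure.map_apply m2 (hU.prod (hB.prod hT))]
    convert e4 using 2 <;> ext <;> simp <;> tauto
  have m3 : Measurable fun y => (s y, al y) := by fun_prop
  have k1 := Kernel.IsMarkovKernel.map κ m3
  have k2 := Kernel.IsMarkovKernel.map κ hs
  have k3 := Kernel.IsMarkovKernel.map κ hal
  have eq : μ.map F ⊗ₘ κ.map (fun y => (s y, al y)) = μ.map F ⊗ₘ (κ.map s ×ₖ κ.map al) := by
    rw [Measure.compProd_map m3, h.eq, Kernel.map_prod_map _ _ hs hal,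
      Measure.compProd_map (hs.prodMap hal),
      Measure.map_map (measurable_id.prodMap m3) (hF.prodMk measurable_id')]
    exact law.symm
  filter_upwards [ae_of_ae_map hF.aemeasurable (Kernel.ae_eq_of_compProd_eq eq)] with x hx
  rw [← Kernel.map_apply _ m3, hx, Kernel.prod_apply, Kernel.map_apply _ hs,
    Kernel.map_apply _ hal]

variable [StandardBorelSpace Ω] [Nonempty Ω]

theorem KRV1_lint {D : Type*} {e : Ω → D} (hi : Integrable (Ic μ e F) μ) :
    ∫⁻ x, infE (condDistrib id F μ) e (F x) (e x) ∂μ = ENNReal.ofReal (Hc μ e F) :=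
  (ofReal_integral_eq_lintegral_ofReal hi (Eventually.of_forall fun _ => neg_nonneg.mpr
    (Real.log_nonpos measureReal_nonneg measureReal_le_one))).symm

/-- E12 for a sequence of digits. -/
theorem krv_digits [StandardBorelSpace Y] [StandardBorelSpace S] [StandardBorelSpace A]
    [PseudoMetricSpace A] [BorelSpace A] (hF : Measurable F) (hs : Measurable s)
    (hal : Measurable al) {D : ℕ → Type*} [∀ n, MeasurableSpace (D n)] [∀ n, Countable (D n)]
    [∀ n, MeasurableSingletonClass (D n)] {e : ∀ n, Ω → D n} (he : ∀ n, Measurable (e n))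
    (rect : ∀ n, Rect μ F (e n) s al) (iF : ∀ n, Integrable (Ic μ (e n) F) μ)
    (iS : ∀ n, Integrable (Ic μ (e n) (pr2 F s)) μ) (iA : ∀ n, Integrable (Ic μ (e n) (pr2 F al)) μ)
    (ineq : ∀ n, Hc μ (e n) F ≤ Hc μ (e n) (pr2 F s) + Hc μ (e n) (pr2 F al))
    (shr : Shrink μ F e al) :
    ∀ᵐ x ∂μ, (cp μ F x).map (pr2 s al) = ((cp μ F x).map s).prod ((cp μ F x).map al) := by
  have h := isDis_condDistrib μ hF
  refine krv_limit h hs hal he (fun n g hg => ?_) shr
  obtain ⟨W, hW, hR⟩ := rect n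
  obtain ⟨Z, hZ1, hZ2, hZ3⟩ := exists_measurable_superset_of_null hW
  have sub : ∀ x ∈ Zᶜ, x ∈ W := fun x hx => by_contra fun hn => hx (hZ1 hn)
  have e1 := KRV1_lint (iF n)
  have e2 := KRV1_lint (iS n)
  have e3 := KRV1_lint (iA n)
  refine krv_digit h hs hal (isDis_condDistrib μ (hF.prodMk hs))
    (isDis_condDistrib μ (hF.prodMk hal)) (he n) hZ2.compl (measure_eq_zero_iff_ae_notMem.mp hZ3)
    (fun a ha b hb c hc d hd h1 h2 h3 =>
      hR a (sub a ha) b (sub b hb) c (sub c hc) d (sub d hd) h1.symm h2.symm h3.symm)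
    (e2.trans_ne ENNReal.ofReal_ne_top) (e3.trans_ne ENNReal.ofReal_ne_top) ?_ hg
  exact e1.le.trans ((ENNReal.ofReal_le_ofReal (ineq n)).trans
    (ENNReal.ofReal_add_le.trans (add_le_add e2.ge e3.ge)))

end Pool.Agent.P.MP_d483fb_an.Z.Ent


end

section

/-!
Product forms of conditional independence: the marginals given the finer labels.
-/

namespace Pool.Agent.P.MP_d483fb_an.Z.Ent

open MeasureTheory ProbabilityTheory Set Filter Topology
open scoped ENNReal NNReal

variable {Ω Y S A : Type*} [MeasurableSpace Ω] [MeasurableSpace Y] [MeasurableSpace S]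
  [MeasurableSpace A] {μ : Measure Ω} [IsProbabilityMeasure μ] {F : Ω → Y} {s : Ω → S}
  {al : Ω → A} [StandardBorelSpace Ω] [Nonempty Ω]

/-- Under conditional independence the law of `al` given `(F, s)` is its law given `F`. -/
theorem krv_marg_snd [StandardBorelSpace A] (hF : Measurable F) (hs : Measurable s)
    (hal : Measurable al)
    (hp : ∀ᵐ x ∂μ, (cp μ F x).map (pr2 s al) = ((cp μ F x).map s).prod ((cp μ F x).map al)) :
    ∀ᵐ x ∂μ, (cp μ (pr2 F s) x).map al = (cp μ F x).map al := by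
  have h := isDis_condDistrib μ hF
  have hFs : Measurable (pr2 F s) := hF.prodMk hs
  have h' := isDis_condDistrib μ hFs
  have hν := Measure.isProbabilityMeasure_map (μ := μ) hFs.aemeasurable
  have k1 := Kernel.IsMarkovKernel.map (condDistrib id (pr2 F s) μ) hal
  have k2 := Kernel.IsMarkovKernel.map (condDistrib id F μ) hal
  have eq : μ.map (pr2 F s) ⊗ₘ (condDistrib id (pr2 F s) μ).map al =
      μ.map (pr2 F s) ⊗ₘ ((condDistrib id F μ).map al).comap Prod.fst measurable_fst := by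
    refine Measure.ext_of_lintegral _ fun g hg => ?_
    have hG : Measurable fun z : Y × S =>
        ∫⁻ a, g (z, a) ∂((condDistrib id F μ).map al).comap Prod.fst measurable_fst z :=
      hg.lintegral_kernel_prod_right'
    rw [Measure.lintegral_compProd hg, Measure.lintegral_compProd hg,
      lintegral_map hg.lintegral_kernel_prod_right' hFs, lintegral_map hG hFs]
    have e1 : ∀ x, ∫⁻ a, g (pr2 F s x, a) ∂((condDistrib id (pr2 F s) μ).map al) (pr2 F s x) =
        ∫⁻ y, g (pr2 F s x, al y) ∂(condDistrib id (pr2 F s) μ) (pr2 F s x) := fun x => by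
      rw [Kernel.map_apply _ hal, lintegral_map (by fun_prop) hal]
    rw [lintegral_congr e1, h'.lint (g := fun z => g (z.1, al z.2)) (by fun_prop),
      ← h.lint (g := fun z => g ((z.1, s z.2), al z.2)) (by fun_prop),
      ← h.lint (g := fun z => ∫⁻ a, g ((z.1, s z.2), a)
        ∂((condDistrib id F μ).map al).comap Prod.fst measurable_fst (z.1, s z.2))
        (hG.comp (by fun_prop : Measurable fun z : Y × Ω => (z.1, s z.2)))]
    refine lintegral_congr_ae ?_
    filter_upwards [hp] with x hx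
    have m : Measurable fun p : S × A => g ((F x, p.1), p.2) := by fun_prop
    have e2 := congrArg (fun m : Measure (S × A) => ∫⁻ p, g ((F x, p.1), p.2) ∂m) hx
    rw [lintegral_map m (hs.prodMk hal), lintegral_prod _ m.aemeasurable,
      lintegral_map m.lintegral_prod_right' hs] at e2
    simp only [Kernel.comap_apply, Kernel.map_apply _ hal]
    exact e2
  filter_upwards [ae_of_ae_map hFs.aemeasurable (Kernel.ae_eq_of_compProd_eq eq)] with x hx
  rw [Kernel.map_apply _ hal, Kernel.comap_apply, Kernel.map_apply _ hal] at hx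
  exact hx

/-- Under conditional independence the law of `s` given `(F, al)` is its law given `F`. -/
theorem krv_marg_fst [StandardBorelSpace S] (hF : Measurable F) (hs : Measurable s)
    (hal : Measurable al)
    (hp : ∀ᵐ x ∂μ, (cp μ F x).map (pr2 s al) = ((cp μ F x).map s).prod ((cp μ F x).map al)) :
    ∀ᵐ x ∂μ, (cp μ (pr2 F al) x).map s = (cp μ F x).map s := by
  refine krv_marg_snd hF hal hs ?_
  filter_upwards [hp] with x hx
  rw [← Measure.prod_swap, ← hx, Measure.map_map measurable_swap (hs.prodMk hal)]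
  rfl

/-- The product form with the conditional measures of the finer labels. -/
theorem krv_fine [StandardBorelSpace S] [StandardBorelSpace A] (hF : Measurable F)
    (hs : Measurable s) (hal : Measurable al)
    (hp : ∀ᵐ x ∂μ, (cp μ F x).map (pr2 s al) = ((cp μ F x).map s).prod ((cp μ F x).map al)) :
    ∀ᵐ x ∂μ, (cp μ F x).map (pr2 s al) =
      ((cp μ (pr2 F al) x).map s).prod ((cp μ (pr2 F s) x).map al) := by
  filter_upwards [hp, krv_marg_fst hF hs hal hp, krv_marg_snd hF hs hal hp] with x h1 h2 h3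
  rw [h1, h2, h3]

end Pool.Agent.P.MP_d483fb_an.Z.Ent


end

section

/-!
E12: exact product structure of conditional measures.
-/

namespace Pool.Agent.P.MP_d483fb_an.Z.Ent

open MeasureTheory ProbabilityTheory Set Filter
open scoped ENNReal

variable {Ω Z S A : Type*} [MeasurableSpace Ω] [StandardBorelSpace Ω] [Nonempty Ω]
  [MeasurableSpace Z] [StandardBorelSpace Z] [MeasurableSpace S] [StandardBorelSpace S]
  [MetricSpace A] [PolishSpace A] [MeasurableSpace A] [BorelSpace A]
  {μ : Measure Ω} [IsProbabilityMeasure μ] {F : Ω → Z} {s : Ω → S} {al : Ω → A}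

theorem krv_core (hF : Measurable F) (hs : Measurable s) (ha : Measurable al) {D : ℕ → Type*}
    [∀ n, MeasurableSpace (D n)] [∀ n, Countable (D n)] [∀ n, MeasurableSingletonClass (D n)]
    {e : ∀ n, Ω → D n} (he : ∀ n, Measurable (e n)) (hi : ∀ n, Integrable (Ic μ (e n) F) μ)
    (hR : ∀ n, Rect μ F (e n) s al)
    (hH : ∀ n, Hc μ (e n) F ≤ Hc μ (e n) (pr2 F s) + Hc μ (e n) (pr2 F al))
    (hS : Shrink μ F e al) :
    ∀ᵐ x ∂μ, (cp μ F x).map (pr2 s al) = ((cp μ F x).map s).prod ((cp μ F x).map al) :=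
  krv_digits hF hs ha he hR hi
    (fun n => (Hc_finer (he n) (hF.prodMk hs) hF (Det.fst F s) (hi n)).1)
    (fun n => (Hc_finer (he n) (hF.prodMk ha) hF (Det.fst F al) (hi n)).1) hH hS

omit [StandardBorelSpace Z] in
/-- For a product the marginals are the conditional laws. -/
theorem prod_cond {A : Type*} [MeasurableSpace A] [StandardBorelSpace A] {al : Ω → A}
    (hF : Measurable F) (hs : Measurable s) (ha : Measurable al)
    (h : ∀ᵐ x ∂μ, (cp μ F x).map (pr2 s al) = ((cp μ F x).map s).prod ((cp μ F x).map al)) :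
    ∀ᵐ x ∂μ, (cp μ (pr2 F al) x).map s = (cp μ F x).map s ∧
      (cp μ (pr2 F s) x).map al = (cp μ F x).map al :=
  (krv_marg_fst hF hs ha h).and (krv_marg_snd hF hs ha h)

/-- E12. -/
theorem krv {D : Type*} [MeasurableSpace D] [Countable D] [MeasurableSingletonClass D]
    {T : Ω → Ω} {d : Ω → D} (hT : MeasurePreserving T μ μ) (hd : Measurable d) (hH : FinEnt μ d)
    (hF : Measurable F) (hs : Measurable s) (ha : Measurable al) (iF : Incr μ T F d)
    (iS : Incr μ T (pr2 F s) d) (iA : Incr μ T (pr2 F al) d)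
    (hR : ∀ n, Rect μ F (names T d n) s al) (hS : Shrink μ F (names T d) al)
    (hle : Hc μ d F ≤ Hc μ d (pr2 F s) + Hc μ d (pr2 F al)) :
    ∀ᵐ x ∂μ, (cp μ F x).map (pr2 s al) =
      ((cp μ (pr2 F al) x).map s).prod ((cp μ (pr2 F s) x).map al) := by
  have he := measurable_names hT.measurable hd
  refine krv_fine hF hs ha (krv_core hF hs ha he
    (fun n => (hH.names hT hd n).1.integrable (he n) hF) hR (fun n => ?_) hS)
  rw [iF.Hc_names hT hH hd hF, iS.Hc_names hT hH hd (hF.prodMk hs),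
    iA.Hc_names hT hH hd (hF.prodMk ha), ← mul_add]
  exact mul_le_mul_of_nonneg_left hle (Nat.cast_nonneg n)

end Pool.Agent.P.MP_d483fb_an.Z.Ent


end
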