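import Pool.Agent.P.MP_d483fb_an.M.A01
import Pool.Agent.P.MP_d483fb_an.M.A03
import Pool.Agent.P.MP_d483fb_an.M.A11

section

/-!
Graded matrix groups attached to a pair of weights: block triangular matrices, the block diagonal
part, the unipotent groups with prescribed slopes, the homogeneous gauge and the dilations.
-/

open scoped Matrix Matrix.Norms.Operator
open Set

noncomputable section

namespace Pool.Agent.P.MP_d483fb_an.Z

instance instMeasMatrix {ι κ : Type} : MeasurableSpace (Matrix ι κ ℝ) :=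
  inferInstanceAs (MeasurableSpace (ι → κ → ℝ))

instance instBorelMatrix {ι κ : Type} [Finite ι] [Finite κ] : BorelSpace (Matrix ι κ ℝ) :=
  inferInstanceAs (BorelSpace (ι → κ → ℝ))

instance instPolishMatrix {ι κ : Type} [Finite ι] [Finite κ] : PolishSpace (Matrix ι κ ℝ) :=
  inferInstanceAs (PolishSpace (ι → κ → ℝ))

/-- Two weights on an index set; the second one is a function of the first one. -/
structure Wt (ι : Type) where
  wa : ι → ℝ
  wb : ι → ℝ
  hab : ∀ i j, wa i = wa j → wb i = wb j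

namespace Wt

variable {ι : Type} [Fintype ι] [DecidableEq ι] (w : Wt ι)

/-- The slope of the entry `(i, j)`. -/
def slope (i j : ι) : ℝ := (w.wb i - w.wb j) / (w.wa i - w.wa j)

/-- Block triangular matrices. -/
def Tri (T : Matrix ι ι ℝ) : Prop := ∀ i j, T i j ≠ 0 → w.wa j ≤ w.wa i

/-- Block diagonal matrices. -/
def Lev (T : Matrix ι ι ℝ) : Prop := ∀ i j, T i j ≠ 0 → w.wa i = w.wa j

/-- Strictly block triangular matrices whose nonzero entries have slope in `J`. -/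
def Str (J : Set ℝ) (m : Matrix ι ι ℝ) : Prop :=
  ∀ i j, m i j ≠ 0 → w.wa j < w.wa i ∧ w.slope i j ∈ J

/-- Unipotent matrices whose off diagonal entries have slope in `J`. -/
def Nil (J : Set ℝ) (n : Matrix ι ι ℝ) : Prop := w.Str J (n - 1)

/-- The block diagonal part. -/
def lev (T : Matrix ι ι ℝ) : Matrix ι ι ℝ :=
  Matrix.of fun i j => if w.wa i = w.wa j then T i j else 0

/-- The unipotent part: `T = nil T * lev T`. -/
def nil (T : Matrix ι ι ℝ) : Matrix ι ι ℝ := T * (w.lev T)⁻¹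

/-- The homogeneous gauge. -/
def N (n : Matrix ι ι ℝ) : ℝ :=
  ⨆ p : ι × ι, if w.wa p.2 < w.wa p.1 then |n p.1 p.2| ^ (w.wa p.1 - w.wa p.2)⁻¹ else 0

/-- The dilations. -/
def dil (s t : ℝ) : Matrix ι ι ℝ := Matrix.diagonal fun i => Real.exp (s * w.wa i + t * w.wb i)

/-- Keep the entries of slope `χ` (and the entries which are not strictly below the blocks). -/
def pr (χ : ℝ) (n : Matrix ι ι ℝ) : Matrix ι ι ℝ :=
  Matrix.of fun i j => if w.wa j < w.wa i ∧ w.slope i j ≠ χ then 0 else n i j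

/-- The complementary factor: `n = al χ n * pr χ n`. -/
def al (χ : ℝ) (n : Matrix ι ι ℝ) : Matrix ι ι ℝ := n * (w.pr χ n)⁻¹

/-- `χ` is an extreme point of `J`. -/
def Extreme (J : Set ℝ) (χ : ℝ) : Prop := (∀ σ ∈ J, χ ≤ σ) ∨ (∀ σ ∈ J, σ ≤ χ)

/-- Entrywise homogeneous bound at scale `r` with constant `A`, for block triangular matrices. -/
def Bd (r A : ℝ) (T : Matrix ι ι ℝ) : Prop :=
  w.Tri T ∧ ∀ i j, w.wa j ≤ w.wa i → |T i j| ≤ A * r ^ (w.wa i - w.wa j)

end Wt

end Pool.Agent.P.MP_d483fb_an.Z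

end

end

section

/-!
Algebra of the graded groups: closure properties, the decomposition `T = nil T * lev T`.
-/

open scoped Matrix Matrix.Norms.Operator
open Set

noncomputable section

namespace Pool.Agent.P.MP_d483fb_an.Z

namespace Wt

variable {ι : Type} [Fintype ι] [DecidableEq ι] {w : Wt ι} {J J' : Set ℝ}
  {T T' l l' m m' n n' : Matrix ι ι ℝ}

omit [DecidableEq ι] in
theorem exists_of_mul_ne {i j : ι} (h : (T * T') i j ≠ 0) : ∃ k, T i k ≠ 0 ∧ T' k j ≠ 0 := by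
  rw [Matrix.mul_apply] at h
  obtain ⟨k, -, hk⟩ := Finset.exists_ne_zero_of_sum_ne_zero h
  exact ⟨k, left_ne_zero_of_mul hk, right_ne_zero_of_mul hk⟩

omit [Fintype ι] in
theorem eq_of_one_ne {i j : ι} (h : (1 : Matrix ι ι ℝ) i j ≠ 0) : i = j := by
  by_contra hij
  exact h (Matrix.one_apply_ne hij)

section Tri

omit [Fintype ι] [DecidableEq ι] in
theorem Lev.tri (h : w.Lev l) : w.Tri l := fun i j hij => (h i j hij).ge

omit [Fintype ι] [DecidableEq ι] in
theorem Str.tri (h : w.Str J m) : w.Tri m := fun i j hij => (h i j hij).1.le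

omit [Fintype ι] in
theorem Lev.one : w.Lev (1 : Matrix ι ι ℝ) := fun i j h => by rw [eq_of_one_ne h]

omit [Fintype ι] in
theorem Tri.one : w.Tri (1 : Matrix ι ι ℝ) := Lev.one.tri

omit [Fintype ι] [DecidableEq ι] in
theorem Tri.eq_zero (h : w.Tri T) {i j : ι} (hij : w.wa i < w.wa j) : T i j = 0 := by
  by_contra h0
  exact absurd (h i j h0) (not_le.2 hij)

omit [Fintype ι] [DecidableEq ι] in
theorem Tri.add (h : w.Tri T) (h' : w.Tri T') : w.Tri (T + T') := by
  intro i j hij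
  by_contra hlt
  apply hij
  rw [Matrix.add_apply, h.eq_zero (not_le.1 hlt), h'.eq_zero (not_le.1 hlt), add_zero]

omit [DecidableEq ι] in
theorem Tri.mul (h : w.Tri T) (h' : w.Tri T') : w.Tri (T * T') := by
  intro i j hij
  obtain ⟨k, h1, h2⟩ := exists_of_mul_ne hij
  exact (h' k j h2).trans (h i k h1)

omit [DecidableEq ι] in
theorem Lev.mul (h : w.Lev l) (h' : w.Lev l') : w.Lev (l * l') := by
  intro i j hij
  obtain ⟨k, h1, h2⟩ := exists_of_mul_ne hij
  exact (h i k h1).trans (h' k j h2)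

theorem Tri.inv (h : w.Tri T) : w.Tri T⁻¹ := by
  by_cases hu : IsUnit T.det
  · have hb : Matrix.BlockTriangular T fun i => -w.wa i := by
      intro i j hij
      exact h.eq_zero (by simpa using hij)
    let _ := Matrix.invertibleOfIsUnitDet T hu
    have := Matrix.blockTriangular_inv_of_blockTriangular hb
    intro i j hij
    by_contra hlt
    exact hij (this (by simpa using not_le.1 hlt))
  · rw [Matrix.nonsing_inv_apply_not_isUnit _ hu]
    intro i j hij
    exact absurd rfl hij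

omit [Fintype ι] [DecidableEq ι] in
theorem Lev.transpose (h : w.Lev l) : w.Lev lᵀ := fun i j hij => (h j i hij).symm

theorem Lev.inv (h : w.Lev l) : w.Lev l⁻¹ := by
  intro i j hij
  have h1 := h.tri.inv i j hij
  have h2 := h.transpose.tri.inv j i (by rw [← Matrix.transpose_nonsing_inv]; exact hij)
  exact le_antisymm h2 h1

omit [Fintype ι] in
theorem Lev.diagonal (d : ι → ℝ) : w.Lev (Matrix.diagonal d) := by
  intro i j hij
  by_contra hne
  exact hij (Matrix.diagonal_apply_ne d fun h => hne (by rw [h]))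

end Tri

section Str

omit [Fintype ι] [DecidableEq ι] in
theorem Str.zero : w.Str J (0 : Matrix ι ι ℝ) := fun _ _ h => absurd rfl h

omit [Fintype ι] [DecidableEq ι] in
theorem Str.mono (h : w.Str J m) (hJ : J ⊆ J') : w.Str J' m :=
  fun i j hij => ⟨(h i j hij).1, hJ (h i j hij).2⟩

omit [Fintype ι] [DecidableEq ι] in
theorem Str.add (h : w.Str J m) (h' : w.Str J m') : w.Str J (m + m') := by
  intro i j hij
  by_cases h0 : m i j = 0
  · exact h' i j (by simpa [h0] using hij)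
  · exact h i j h0

omit [Fintype ι] [DecidableEq ι] in
theorem Str.smul (h : w.Str J m) (c : ℝ) : w.Str J (c • m) :=
  fun i j hij => h i j (right_ne_zero_of_mul hij)

omit [Fintype ι] [DecidableEq ι] in
theorem Str.neg (h : w.Str J m) : w.Str J (-m) :=
  fun i j hij => h i j (neg_ne_zero.1 hij)

omit [Fintype ι] [DecidableEq ι] in
theorem Str.sub (h : w.Str J m) (h' : w.Str J m') : w.Str J (m - m') := by
  rw [sub_eq_add_neg]
  exact h.add h'.neg

omit [Fintype ι] [DecidableEq ι] in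
theorem Str.sum {α : Type*} {s : Finset α} {f : α → Matrix ι ι ℝ} (h : ∀ a ∈ s, w.Str J (f a)) :
    w.Str J (∑ a ∈ s, f a) :=
  Finset.sum_induction f (w.Str J) (fun _ _ => Str.add) Str.zero h

omit [Fintype ι] [DecidableEq ι] in
theorem Str.eq_zero (h : w.Str J m) {i j : ι} (hij : w.wa i ≤ w.wa j) : m i j = 0 := by
  by_contra h0
  exact absurd (h i j h0).1 (not_lt.2 hij)

omit [Fintype ι] [DecidableEq ι] in
theorem slope_mul {i j : ι} (h : w.wa j < w.wa i) :
    w.slope i j * (w.wa i - w.wa j) = w.wb i - w.wb j :=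
  div_mul_cancel₀ _ (sub_pos.2 h).ne'

omit [Fintype ι] [DecidableEq ι] in
/-- The mediant property. -/
theorem slope_mem_uIcc {i k j : ι} (h1 : w.wa k < w.wa i) (h2 : w.wa j < w.wa k) :
    w.slope i j ∈ uIcc (w.slope i k) (w.slope k j) := by
  have e1 := slope_mul h1
  have e2 := slope_mul h2
  have e3 := slope_mul (h2.trans h1)
  have p1 := sub_pos.2 h1
  have p2 := sub_pos.2 h2
  rcases le_total (w.slope i k) (w.slope k j) with h | h
  · rw [uIcc_of_le h]
    constructor <;> by_contra hc <;> push Not at hc <;> nlinarith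
  · rw [uIcc_of_ge h]
    constructor <;> by_contra hc <;> push Not at hc <;> nlinarith

omit [Fintype ι] [DecidableEq ι] in
theorem slope_congr {i j i' j' : ι} (hi : w.wa i = w.wa i') (hj : w.wa j = w.wa j') :
    w.slope i j = w.slope i' j' := by
  unfold slope
  rw [hi, hj, w.hab _ _ hi, w.hab _ _ hj]

omit [DecidableEq ι] in
theorem Str.mul (hJ : J.OrdConnected) (h : w.Str J m) (h' : w.Str J m') : w.Str J (m * m') := by
  intro i j hij
  obtain ⟨k, h1, h2⟩ := exists_of_mul_ne hij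
  obtain ⟨a1, b1⟩ := h i k h1
  obtain ⟨a2, b2⟩ := h' k j h2
  exact ⟨a2.trans a1, hJ.uIcc_subset b1 b2 (slope_mem_uIcc a1 a2)⟩

omit [DecidableEq ι] in
theorem Str.lev_mul (h : w.Str J m) (hl : w.Lev l) : w.Str J (l * m) := by
  intro i j hij
  obtain ⟨k, h1, h2⟩ := exists_of_mul_ne hij
  obtain ⟨a2, b2⟩ := h k j h2
  have e := hl i k h1
  exact ⟨e ▸ a2, by rwa [slope_congr e rfl]⟩

omit [DecidableEq ι] in
theorem Str.mul_lev (h : w.Str J m) (hl : w.Lev l) : w.Str J (m * l) := by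
  intro i j hij
  obtain ⟨k, h1, h2⟩ := exists_of_mul_ne hij
  obtain ⟨a2, b2⟩ := h i k h1
  have e := hl k j h2
  exact ⟨e ▸ a2, by rwa [slope_congr rfl e.symm]⟩

theorem Str.pow_succ (hJ : J.OrdConnected) (h : w.Str J m) (k : ℕ) : w.Str J (m ^ (k + 1)) := by
  induction k with
  | zero => simpa using h
  | succ k ih => rw [_root_.pow_succ]; exact ih.mul hJ h

omit [DecidableEq ι] in
/-- The number of indices of smaller weight. -/
def rk (w : Wt ι) (i : ι) : ℕ := (Finset.univ.filter fun k => w.wa k < w.wa i).card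

omit [DecidableEq ι] in
theorem rk_lt_rk {i j : ι} (h : w.wa j < w.wa i) : w.rk j < w.rk i := by
  apply Finset.card_lt_card
  rw [Finset.ssubset_iff_of_subset]
  · exact ⟨j, by simpa using h, by simp⟩
  · intro k hk
    simp only [Finset.mem_filter, Finset.mem_univ, true_and] at hk ⊢
    exact hk.trans h

omit [DecidableEq ι] in
theorem rk_lt_card (i : ι) : w.rk i < Fintype.card ι := by
  apply Finset.card_lt_card
  rw [Finset.ssubset_iff_of_subset (Finset.subset_univ _)]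
  exact ⟨i, by simp, by simp⟩

theorem Str.rk_pow (h : w.Str J m) (k : ℕ) : ∀ i j, (m ^ k) i j ≠ 0 → w.rk j + k ≤ w.rk i := by
  induction k with
  | zero =>
    intro i j hij
    rw [pow_zero] at hij
    rw [eq_of_one_ne hij]
    simp
  | succ k ih =>
    intro i j hij
    rw [_root_.pow_succ] at hij
    obtain ⟨p, h1, h2⟩ := exists_of_mul_ne hij
    have := ih i p h1
    have := rk_lt_rk (h p j h2).1
    omega

theorem Str.pow_card (h : w.Str J m) : m ^ Fintype.card ι = 0 := by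
  ext i j
  by_contra hij
  have := h.rk_pow _ i j hij
  have := rk_lt_card (w := w) i
  omega

theorem Str.isNilpotent (h : w.Str J m) : IsNilpotent m := ⟨_, h.pow_card⟩

end Str

section Nil

omit [Fintype ι] in
theorem Nil.one : w.Nil J (1 : Matrix ι ι ℝ) := by
  unfold Nil
  rw [sub_self]
  exact Str.zero

omit [Fintype ι] in
theorem Nil.mono (h : w.Nil J n) (hJ : J ⊆ J') : w.Nil J' n := Str.mono h hJ

omit [Fintype ι] in
theorem Nil.univ (h : w.Nil J n) : w.Nil univ n := h.mono (subset_univ _)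

omit [Fintype ι] in
theorem Str.nil (h : w.Str J m) : w.Nil J (1 + m) := by
  unfold Nil
  rwa [add_sub_cancel_left]

omit [Fintype ι] in
theorem Nil.tri (h : w.Nil J n) : w.Tri n := by
  have := Tri.one.add (Str.tri h)
  rwa [add_sub_cancel] at this

omit [Fintype ι] in
theorem Nil.apply_of_le (h : w.Nil J n) {i j : ι} (hij : w.wa i ≤ w.wa j) :
    n i j = (1 : Matrix ι ι ℝ) i j := by
  have := Str.eq_zero h hij
  rwa [Matrix.sub_apply, sub_eq_zero] at this

omit [Fintype ι] in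
theorem one_apply_of_lt {i j : ι} (hij : w.wa j < w.wa i) : (1 : Matrix ι ι ℝ) i j = 0 :=
  Matrix.one_apply_ne fun h => hij.ne' (by rw [h])

omit [Fintype ι] in
theorem Nil.slope_mem (h : w.Nil J n) {i j : ι} (hij : w.wa j < w.wa i) (h0 : n i j ≠ 0) :
    w.slope i j ∈ J :=
  (h i j (by rwa [Matrix.sub_apply, one_apply_of_lt hij, sub_zero])).2

omit [Fintype ι] in
theorem nil_iff : w.Nil J n ↔ (∀ i j, w.wa i ≤ w.wa j → n i j = (1 : Matrix ι ι ℝ) i j) ∧
    ∀ i j, w.wa j < w.wa i → n i j ≠ 0 → w.slope i j ∈ J := by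
  refine ⟨fun h => ⟨fun i j => h.apply_of_le, fun i j => h.slope_mem⟩, fun h i j hij => ?_⟩
  have hlt : w.wa j < w.wa i := by
    by_contra hc
    exact hij (by rw [Matrix.sub_apply, h.1 i j (not_lt.1 hc), sub_self])
  exact ⟨hlt, h.2 i j hlt (by rwa [Matrix.sub_apply, one_apply_of_lt hlt, sub_zero] at hij)⟩

omit [Fintype ι] in
theorem Nil.inter (h : w.Nil J n) (h' : w.Nil J' n) : w.Nil (J ∩ J') n :=
  fun i j hij => ⟨(h i j hij).1, (h i j hij).2, (h' i j hij).2⟩

omit [Fintype ι] in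
theorem Nil.eq_one_of_empty (h : w.Nil ∅ n) : n = 1 := by
  ext i j
  by_contra hij
  exact (h i j (by rwa [Matrix.sub_apply, sub_ne_zero])).2

theorem Nil.mul (hJ : J.OrdConnected) (h : w.Nil J n) (h' : w.Nil J n') : w.Nil J (n * n') := by
  have e : n * n' - 1 = (n - 1) + (n' - 1) + (n - 1) * (n' - 1) := by noncomm_ring
  unfold Nil
  rw [e]
  exact (Str.add h h').add (Str.mul hJ h h')

theorem Nil.mul_geom (h : w.Nil J n) :
    n * ∑ k ∈ Finset.range (Fintype.card ι), (1 - n) ^ k = 1 := by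
  have h0 : (1 - n) ^ Fintype.card ι = 0 := by
    have := (Str.neg h).pow_card
    rwa [neg_sub] at this
  have := mul_neg_geom_sum (1 - n) (Fintype.card ι)
  rwa [h0, sub_zero, sub_sub_cancel] at this

theorem Nil.inv_eq (h : w.Nil J n) : n⁻¹ = ∑ k ∈ Finset.range (Fintype.card ι), (1 - n) ^ k :=
  Matrix.inv_eq_right_inv h.mul_geom

theorem Nil.isUnit_det (h : w.Nil J n) : IsUnit n.det :=
  Matrix.isUnit_det_of_right_inverse h.mul_geom

theorem Nil.mul_inv (h : w.Nil J n) : n * n⁻¹ = 1 := Matrix.mul_nonsing_inv _ h.isUnit_det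

theorem Nil.inv_mul (h : w.Nil J n) : n⁻¹ * n = 1 := Matrix.nonsing_inv_mul _ h.isUnit_det

theorem Nil.inv_inv (h : w.Nil J n) : n⁻¹⁻¹ = n := Matrix.nonsing_inv_nonsing_inv _ h.isUnit_det

theorem Nil.inv (hJ : J.OrdConnected) (h : w.Nil J n) : w.Nil J n⁻¹ := by
  have hs : w.Str J (1 - n) := by
    have := Str.neg h
    rwa [neg_sub] at this
  have e : n⁻¹ - 1 = ∑ k ∈ Finset.range (Fintype.card ι), (1 - n) ^ (k + 1) := by
    have h0 : (1 - n) ^ Fintype.card ι = 0 := hs.pow_card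
    have := Finset.sum_range_succ' (fun k => (1 - n) ^ k) (Fintype.card ι)
    rw [Finset.sum_range_succ, h0, add_zero, pow_zero] at this
    rw [h.inv_eq, this, add_sub_cancel_right]
  unfold Nil
  rw [e]
  exact Str.sum fun k _ => hs.pow_succ hJ k

theorem Nil.pow (hJ : J.OrdConnected) (h : w.Nil J n) (k : ℕ) : w.Nil J (n ^ k) := by
  induction k with
  | zero => simpa using Nil.one
  | succ k ih => rw [_root_.pow_succ]; exact ih.mul hJ h

theorem Nil.conj (h : w.Nil J n) (hl : w.Lev l) (hl' : w.Lev l') (e : l * l' = 1) :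
    w.Nil J (l * n * l') := by
  have e1 : l * n * l' - 1 = l * (n - 1) * l' := by
    rw [mul_sub, sub_mul, mul_one, e]
  unfold Nil
  rw [e1]
  exact (Str.lev_mul h hl).mul_lev hl'

theorem Nil.conj_inv (h : w.Nil J n) (hl : w.Lev l) (hu : IsUnit l.det) : w.Nil J (l * n * l⁻¹) :=
  h.conj hl hl.inv (Matrix.mul_nonsing_inv _ hu)

theorem Nil.inv_conj (h : w.Nil J n) (hl : w.Lev l) (hu : IsUnit l.det) : w.Nil J (l⁻¹ * n * l) :=
  h.conj hl.inv hl (Matrix.nonsing_inv_mul _ hu)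

theorem nil_conj_iff (hl : w.Lev l) (hu : IsUnit l.det) : w.Nil J (l * n * l⁻¹) ↔ w.Nil J n := by
  refine ⟨fun h => ?_, fun h => h.conj_inv hl hu⟩
  have := h.inv_conj hl hu
  rwa [← mul_assoc, ← mul_assoc, Matrix.nonsing_inv_mul _ hu, one_mul, mul_assoc,
    Matrix.nonsing_inv_mul _ hu, mul_one] at this

end Nil

section Dec

omit [Fintype ι] [DecidableEq ι] in
theorem lev_apply (T : Matrix ι ι ℝ) (i j : ι) :
    w.lev T i j = if w.wa i = w.wa j then T i j else 0 := rfl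

omit [Fintype ι] [DecidableEq ι] in
theorem lev_lev (T : Matrix ι ι ℝ) : w.Lev (w.lev T) := by
  intro i j hij
  by_contra hne
  exact hij (by rw [lev_apply, if_neg hne])

omit [Fintype ι] [DecidableEq ι] in
theorem Lev.lev_eq (h : w.Lev l) : w.lev l = l := by
  ext i j
  rw [lev_apply]
  split_ifs with hij
  · rfl
  · by_contra h0
    exact hij (h i j (Ne.symm h0))

omit [Fintype ι] in
theorem Nil.lev_eq (h : w.Nil J n) : w.lev n = 1 := by
  ext i j
  rw [lev_apply]
  split_ifs with hij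
  · exact h.apply_of_le hij.le
  · exact (Matrix.one_apply_ne fun e => hij (by rw [e])).symm

omit [DecidableEq ι] in
theorem Tri.lev_mul (h : w.Tri T) (h' : w.Tri T') : w.lev (T * T') = w.lev T * w.lev T' := by
  ext i j
  rw [lev_apply, Matrix.mul_apply, Matrix.mul_apply]
  split_ifs with hij
  · refine Finset.sum_congr rfl fun k _ => ?_
    rw [lev_apply, lev_apply]
    by_cases hk : w.wa i = w.wa k
    · rw [if_pos hk, if_pos (hk.symm.trans hij)]
    · rw [if_neg hk, zero_mul]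
      rcases lt_or_gt_of_ne hk with hlt | hlt
      · rw [h.eq_zero hlt, zero_mul]
      · rw [h'.eq_zero (hij ▸ hlt), mul_zero]
  · symm
    refine Finset.sum_eq_zero fun k _ => ?_
    rw [lev_apply, lev_apply]
    by_cases hk : w.wa i = w.wa k
    · rw [if_neg (fun e : w.wa k = w.wa j => hij (hk.trans e)), mul_zero]
    · rw [if_neg hk, zero_mul]

omit [Fintype ι] in
theorem nil_univ_iff : w.Nil univ n ↔ w.Tri n ∧ w.lev n = 1 := by
  refine ⟨fun h => ⟨h.tri, h.lev_eq⟩, fun h => nil_iff.2 ⟨fun i j hij => ?_, fun _ _ _ _ => trivial⟩⟩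
  rcases hij.lt_or_eq with hlt | he
  · rw [h.1.eq_zero hlt, one_apply_of_lt' hlt]
  · rw [← h.2, lev_apply, if_pos he]
where
  one_apply_of_lt' {i j : ι} (hij : w.wa i < w.wa j) : (1 : Matrix ι ι ℝ) i j = 0 :=
    Matrix.one_apply_ne fun h => hij.ne (by rw [h])

theorem Tri.lev_mul_lev_inv (h : w.Tri T) (hu : IsUnit T.det) : w.lev T * w.lev T⁻¹ = 1 := by
  rw [← h.lev_mul h.inv, Matrix.mul_nonsing_inv _ hu, Lev.one.lev_eq]

theorem Tri.isUnit_lev (h : w.Tri T) (hu : IsUnit T.det) : IsUnit (w.lev T).det :=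
  Matrix.isUnit_det_of_right_inverse (h.lev_mul_lev_inv hu)

theorem Tri.lev_inv (h : w.Tri T) (hu : IsUnit T.det) : w.lev T⁻¹ = (w.lev T)⁻¹ :=
  (Matrix.inv_eq_right_inv (h.lev_mul_lev_inv hu)).symm

theorem Tri.nil_mul_lev (h : w.Tri T) (hu : IsUnit T.det) : w.nil T * w.lev T = T := by
  rw [nil, mul_assoc, Matrix.nonsing_inv_mul _ (h.isUnit_lev hu), mul_one]

theorem Tri.nil_nil (h : w.Tri T) (hu : IsUnit T.det) : w.Nil univ (w.nil T) := by
  have hl := (lev_lev (w := w) T).inv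
  refine nil_univ_iff.2 ⟨h.mul hl.tri, ?_⟩
  rw [nil, h.lev_mul hl.tri, hl.lev_eq, Matrix.mul_nonsing_inv _ (h.isUnit_lev hu)]

theorem Nil.nil_eq (h : w.Nil J n) : w.nil n = n := by
  rw [nil, h.lev_eq, inv_one, mul_one]

theorem Lev.nil_eq (h : w.Lev l) (hu : IsUnit l.det) : w.nil l = 1 := by
  rw [nil, h.lev_eq, Matrix.mul_nonsing_inv _ hu]

theorem Nil.lev_mul_lev (h : w.Nil J n) (hl : w.Lev l) : w.lev (n * l) = l := by
  rw [h.tri.lev_mul hl.tri, h.lev_eq, one_mul, hl.lev_eq]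

theorem Nil.nil_mul_lev (h : w.Nil J n) (hl : w.Lev l) (hu : IsUnit l.det) : w.nil (n * l) = n := by
  rw [nil, h.lev_mul_lev hl, mul_assoc, Matrix.mul_nonsing_inv _ hu, mul_one]

theorem Tri.lev_of_nil_eq_one (h : w.Tri T) (hu : IsUnit T.det) (e : w.nil T = 1) : w.Lev T := by
  have := h.nil_mul_lev hu
  rw [e, one_mul] at this
  rw [← this]
  exact lev_lev T

/-- The cocycle formula for the unipotent parts. -/
theorem Tri.nil_mul (h : w.Tri T) (h' : w.Tri T') (hu : IsUnit T.det) :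
    w.nil (T * T') = w.nil T * (w.lev T * w.nil T' * (w.lev T)⁻¹) := by
  have hl := h.isUnit_lev hu
  rw [nil, nil, nil, h.lev_mul h', Matrix.mul_inv_rev]
  simp only [mul_assoc]
  rw [← mul_assoc (w.lev T)⁻¹, Matrix.nonsing_inv_mul _ hl, one_mul]

theorem Tri.nil_inv (h : w.Tri T) (hu : IsUnit T.det) :
    w.nil T⁻¹ = (w.lev T)⁻¹ * (w.nil T)⁻¹ * w.lev T := by
  have hl := h.isUnit_lev hu
  rw [nil, nil, h.lev_inv hu, Matrix.mul_inv_rev, Matrix.nonsing_inv_nonsing_inv _ hl,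
    ← mul_assoc, Matrix.nonsing_inv_mul _ hl, one_mul]

omit [DecidableEq ι] in
theorem Tri.lev_conj (h : w.Tri T) (hl : w.Lev l) (hl' : w.Lev l') :
    w.lev (l * T * l') = l * w.lev T * l' := by
  rw [(hl.tri.mul h).lev_mul hl'.tri, hl.tri.lev_mul h, hl.lev_eq, hl'.lev_eq]

theorem Tri.nil_conj (h : w.Tri T) (hl : w.Lev l) (hl' : w.Lev l') (hu : IsUnit l'.det) :
    w.nil (l * T * l') = l * w.nil T * l⁻¹ := by
  rw [nil, nil, h.lev_conj hl hl', Matrix.mul_inv_rev, Matrix.mul_inv_rev]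
  simp only [mul_assoc]
  rw [← mul_assoc l', Matrix.mul_nonsing_inv _ hu, one_mul]

end Dec

section Dil

variable (w) in
omit [Fintype ι] in
theorem dil_lev (s t : ℝ) : w.Lev (w.dil s t) := Lev.diagonal _

variable (w) in
omit [Fintype ι] in
theorem dil_zero : w.dil 0 0 = 1 := by simp [dil]

variable (w) in
theorem dil_mul (s t s' t' : ℝ) : w.dil s t * w.dil s' t' = w.dil (s + s') (t + t') := by
  simp only [dil, Matrix.diagonal_mul_diagonal, ← Real.exp_add]
  congr 1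
  funext i
  congr 1
  ring

variable (w) in
theorem dil_mul_neg (s t : ℝ) : w.dil s t * w.dil (-s) (-t) = 1 := by
  rw [dil_mul, add_neg_cancel, add_neg_cancel, dil_zero]

variable (w) in
theorem dil_neg_mul (s t : ℝ) : w.dil (-s) (-t) * w.dil s t = 1 := by
  rw [dil_mul, neg_add_cancel, neg_add_cancel, dil_zero]

variable (w) in
theorem dil_inv (s t : ℝ) : (w.dil s t)⁻¹ = w.dil (-s) (-t) :=
  Matrix.inv_eq_right_inv (w.dil_mul_neg s t)

variable (w) in
theorem isUnit_dil (s t : ℝ) : IsUnit (w.dil s t).det :=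
  Matrix.isUnit_det_of_right_inverse (w.dil_mul_neg s t)

variable (w) in
theorem dil_conj_apply (s t : ℝ) (T : Matrix ι ι ℝ) (i j : ι) :
    (w.dil s t * T * w.dil (-s) (-t)) i j =
      Real.exp (s * (w.wa i - w.wa j) + t * (w.wb i - w.wb j)) * T i j := by
  simp only [dil, Matrix.mul_diagonal, Matrix.diagonal_mul]
  rw [mul_right_comm, ← Real.exp_add]
  congr 2
  ring

theorem Lev.dil_comm (h : w.Lev l) (s t : ℝ) : w.dil s t * l = l * w.dil s t := by
  ext i j
  simp only [dil, Matrix.mul_diagonal, Matrix.diagonal_mul]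
  by_cases h0 : l i j = 0
  · simp [h0]
  · rw [h i j h0, w.hab _ _ (h i j h0), mul_comm]

theorem Nil.dil_conj (h : w.Nil J n) (s t : ℝ) : w.Nil J (w.dil s t * n * w.dil (-s) (-t)) :=
  h.conj (w.dil_lev _ _) (w.dil_lev _ _) (w.dil_mul_neg s t)

end Dil

end Wt

end Pool.Agent.P.MP_d483fb_an.Z

end

end

section

/-!
The homogeneous gauge: quasi-triangle inequality, conjugation, dilations, Hoelder continuity,
compactness of balls and measurability.
-/

open scoped Matrix Matrix.Norms.Operator Topology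
open Set

noncomputable section

namespace Pool.Agent.P.MP_d483fb_an.Z

section Norm

variable {ι κ : Type} [Fintype ι] [Fintype κ]

theorem abs_entry_le (A : Matrix ι κ ℝ) (i : ι) (j : κ) : |A i j| ≤ ‖A‖ := by
  have h1 : ‖A i j‖₊ ≤ ∑ j, ‖A i j‖₊ :=
    Finset.single_le_sum (f := fun j => ‖A i j‖₊) (fun _ _ => zero_le) (Finset.mem_univ j)
  have h2 : ∑ j, ‖A i j‖₊ ≤ ‖A‖₊ := by
    rw [Matrix.linfty_opNNNorm_def]
    exact Finset.le_sup (f := fun i => ∑ j, ‖A i j‖₊) (Finset.mem_univ i)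
  exact_mod_cast h1.trans h2

theorem norm_le_of_entry {A : Matrix ι κ ℝ} {c : ℝ} (hc : 0 ≤ c) (h : ∀ i j, |A i j| ≤ c) :
    ‖A‖ ≤ Fintype.card κ * c := by
  lift c to NNReal using hc
  have : ‖A‖₊ ≤ Fintype.card κ * c := by
    rw [Matrix.linfty_opNNNorm_def]
    refine Finset.sup_le fun i _ => ?_
    have := Finset.sum_le_card_nsmul Finset.univ (fun j => ‖A i j‖₊) c
      fun j _ => by exact_mod_cast h i j
    simpa using this
  exact_mod_cast this

theorem rpow_le_mul_rpow {x M a b p : ℝ} (hx : 0 ≤ x) (hxM : x ≤ M) (hM : 1 ≤ M) (ha : 0 ≤ a)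
    (hap : a ≤ p) (hb : p - a ≤ b) : x ^ p ≤ M ^ b * x ^ a := by
  have e : x ^ p = x ^ (p - a) * x ^ a := by
    rw [← Real.rpow_add_of_nonneg hx (sub_nonneg.2 hap) ha, sub_add_cancel]
  rw [e]
  refine mul_le_mul_of_nonneg_right ?_ (Real.rpow_nonneg hx _)
  exact (Real.rpow_le_rpow hx hxM (sub_nonneg.2 hap)).trans
    (Real.rpow_le_rpow_of_exponent_le hM hb)

theorem rpow_holder {x y M a g p : ℝ} (hx : 0 ≤ x) (hxM : x ≤ M) (hy : 0 ≤ y) (hyM : y ≤ M)
    (hM : 1 ≤ M) (ha : 0 ≤ a) (ha1 : a ≤ 1) (hap : a ≤ p) (hg : 1 ≤ g) (hpg : p ≤ g) :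
    x ^ p ≤ y ^ p + g * M ^ (g + 1) * |x - y| ^ a := by
  have hd : |x - y| ≤ M := abs_le.2 ⟨by linarith, by linarith⟩
  have hd0 := abs_nonneg (x - y)
  have hM0 : 0 ≤ M := by linarith
  have hda := Real.rpow_nonneg hd0 a
  rcases le_total p 1 with hp | hp
  · have h1 : x ^ p ≤ (y + |x - y|) ^ p :=
      Real.rpow_le_rpow hx (by linarith [le_abs_self (x - y)]) (ha.trans hap)
    have h2 := Real.rpow_add_le_add_rpow hy hd0 (ha.trans hap) hp
    have h3 := rpow_le_mul_rpow (b := g + 1) hd0 hd hM ha hap (by linarith)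
    have h4 : 0 ≤ M ^ (g + 1) * |x - y| ^ a := mul_nonneg (Real.rpow_nonneg hM0 _) hda
    nlinarith
  · have h1 := (convex_Icc 0 M).norm_image_sub_le_of_norm_hasDerivWithin_le
      (f := fun x : ℝ => x ^ p) (f' := fun x => p * x ^ (p - 1)) (C := g * M ^ g)
      (fun z _ => (Real.hasDerivAt_rpow_const (Or.inr hp)).hasDerivWithinAt)
      (fun z hz => by
        rw [Real.norm_eq_abs, abs_of_nonneg (mul_nonneg (by linarith) (Real.rpow_nonneg hz.1 _))]
        refine mul_le_mul hpg ?_ (Real.rpow_nonneg hz.1 _) (by linarith)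
        exact (Real.rpow_le_rpow hz.1 hz.2 (by linarith)).trans
          (Real.rpow_le_rpow_of_exponent_le hM (by linarith)))
      ⟨hy, hyM⟩ ⟨hx, hxM⟩
    simp only [Real.norm_eq_abs] at h1
    have h3 := rpow_le_mul_rpow (b := 1) (p := 1) hd0 hd hM ha ha1 (by linarith)
    rw [Real.rpow_one, Real.rpow_one] at h3
    have h5 : M ^ (g + 1) = M ^ g * M := Real.rpow_add_one (by linarith) g
    have h6 : 0 ≤ g * M ^ g := mul_nonneg (by linarith) (Real.rpow_nonneg hM0 _)
    have h7 := mul_le_mul_of_nonneg_left h3 h6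
    have h8 := le_abs_self (x ^ p - y ^ p)
    rw [h5]
    nlinarith

end Norm

namespace Wt

variable {ι : Type} [Fintype ι] [DecidableEq ι] {w : Wt ι} {J J' : Set ℝ}
  {T T' l l' m m' n n' : Matrix ι ι ℝ} {r A B R : ℝ}

section Const

omit [DecidableEq ι]

/-- An upper bound for the inverses of the gaps. -/
def gi (w : Wt ι) : ℝ := 1 + ∑ p : ι × ι, |(w.wa p.1 - w.wa p.2)⁻¹|

/-- An upper bound for the gaps. -/
def tp (w : Wt ι) : ℝ := 1 + ∑ p : ι × ι, |w.wa p.1 - w.wa p.2|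

/-- The Hoelder exponent of the gauge. -/
def th (w : Wt ι) : ℝ := w.gi⁻¹ * w.tp⁻¹

/-- The combinatorial constant. -/
def K0 (ι : Type) [Fintype ι] : ℝ := ((Fintype.card ι : ℝ) + 1) ^ (Fintype.card ι + 2)

/-- The constant of the quasi-triangle inequality. -/
def C (w : Wt ι) : ℝ := K0 ι ^ w.gi + K0 ι + 2 * w.gi + w.tp

variable (w)

theorem one_le_gi : 1 ≤ w.gi := le_add_of_nonneg_right (Finset.sum_nonneg fun _ _ => abs_nonneg _)

theorem one_le_tp : 1 ≤ w.tp := le_add_of_nonneg_right (Finset.sum_nonneg fun _ _ => abs_nonneg _)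

theorem inv_le_gi (i j : ι) : (w.wa i - w.wa j)⁻¹ ≤ w.gi := by
  have := Finset.single_le_sum (f := fun p : ι × ι => |(w.wa p.1 - w.wa p.2)⁻¹|)
    (fun _ _ => abs_nonneg _) (Finset.mem_univ (i, j))
  have h2 := le_abs_self (w.wa i - w.wa j)⁻¹
  unfold gi
  linarith

theorem sub_le_tp (i j : ι) : w.wa i - w.wa j ≤ w.tp := by
  have := Finset.single_le_sum (f := fun p : ι × ι => |w.wa p.1 - w.wa p.2|)
    (fun _ _ => abs_nonneg _) (Finset.mem_univ (i, j))
  have h2 := le_abs_self (w.wa i - w.wa j)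
  unfold tp
  linarith

theorem gi_pos : 0 < w.gi := one_pos.trans_le w.one_le_gi

theorem tp_pos : 0 < w.tp := one_pos.trans_le w.one_le_tp

theorem th_pos : 0 < w.th := mul_pos (inv_pos.2 w.gi_pos) (inv_pos.2 w.tp_pos)

theorem th_le_one : w.th ≤ 1 :=
  mul_le_one₀ (inv_le_one_of_one_le₀ w.one_le_gi) (inv_pos.2 w.tp_pos).le
    (inv_le_one_of_one_le₀ w.one_le_tp)

variable {w} in
theorem gi_inv_le {i j : ι} (h : w.wa j < w.wa i) : w.gi⁻¹ ≤ w.wa i - w.wa j :=
  inv_le_of_inv_le₀ (sub_pos.2 h) (w.inv_le_gi i j)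

variable {w} in
theorem tp_inv_le {i j : ι} (h : w.wa j < w.wa i) : w.tp⁻¹ ≤ (w.wa i - w.wa j)⁻¹ :=
  inv_anti₀ (sub_pos.2 h) (w.sub_le_tp i j)

theorem one_le_K0 (ι : Type) [Fintype ι] : 1 ≤ K0 ι :=
  one_le_pow₀ (le_add_of_nonneg_left (Nat.cast_nonneg _))

theorem pow_le_K0 (ι : Type) [Fintype ι] {k : ℕ} (hk : k ≤ Fintype.card ι + 2) :
    (Fintype.card ι : ℝ) ^ k ≤ K0 ι :=
  (pow_le_pow_left₀ (Nat.cast_nonneg _) (le_add_of_nonneg_right zero_le_one) k).trans
    (pow_le_pow_right₀ (le_add_of_nonneg_left (Nat.cast_nonneg _)) hk)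

theorem card_le_K0 (ι : Type) [Fintype ι] : (Fintype.card ι : ℝ) ≤ K0 ι := by
  simpa using pow_le_K0 ι (k := 1) (by omega)

theorem K0_rpow_le_C : K0 ι ^ w.gi ≤ w.C := by
  have := w.gi_pos
  have := w.tp_pos
  have := one_le_K0 ι
  unfold C
  linarith

theorem K0_rpow_nonneg : 0 ≤ K0 ι ^ w.gi := Real.rpow_nonneg (zero_le_one.trans (one_le_K0 ι)) _

theorem card_le_C : (Fintype.card ι : ℝ) ≤ w.C := by
  have := w.gi_pos
  have := w.tp_pos
  have := card_le_K0 ι
  have := w.K0_rpow_nonneg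
  unfold C
  linarith

theorem two_gi_le_C : 2 * w.gi ≤ w.C := by
  have := w.tp_pos
  have := one_le_K0 ι
  have := w.K0_rpow_nonneg
  unfold C
  linarith

theorem tp_le_C : w.tp ≤ w.C := by
  have := w.gi_pos
  have := one_le_K0 ι
  have := w.K0_rpow_nonneg
  unfold C
  linarith

theorem one_le_C : 1 ≤ w.C := w.one_le_tp.trans w.tp_le_C

theorem C_pos : 0 < w.C := one_pos.trans_le w.one_le_C

end Const

section Gauge

omit [DecidableEq ι] in
theorem term_le_N (n : Matrix ι ι ℝ) {i j : ι} (h : w.wa j < w.wa i) :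
    |n i j| ^ (w.wa i - w.wa j)⁻¹ ≤ w.N n := by
  have := le_ciSup (Finite.bddAbove_range fun p : ι × ι =>
    if w.wa p.2 < w.wa p.1 then |n p.1 p.2| ^ (w.wa p.1 - w.wa p.2)⁻¹ else 0) (i, j)
  rw [if_pos h] at this
  exact this

variable (w) in
omit [Fintype ι] [DecidableEq ι] in
theorem N_nonneg (n : Matrix ι ι ℝ) : 0 ≤ w.N n := by
  refine Real.iSup_nonneg fun p => ?_
  split_ifs
  · exact Real.rpow_nonneg (abs_nonneg _) _
  · exact le_rfl

omit [Fintype ι] [DecidableEq ι] in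
theorem N_le_of_term (hr : 0 ≤ r)
    (h : ∀ i j, w.wa j < w.wa i → |n i j| ^ (w.wa i - w.wa j)⁻¹ ≤ r) : w.N n ≤ r := by
  refine Real.iSup_le (fun p => ?_) hr
  split_ifs with hp
  · exact h _ _ hp
  · exact hr

omit [DecidableEq ι] in
theorem N_le_iff (hr : 0 ≤ r) :
    w.N n ≤ r ↔ ∀ i j, w.wa j < w.wa i → |n i j| ≤ r ^ (w.wa i - w.wa j) := by
  constructor
  · intro h i j hij
    exact (Real.rpow_inv_le_iff_of_pos (abs_nonneg _) hr (sub_pos.2 hij)).1
      ((term_le_N n hij).trans h)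
  · intro h
    exact N_le_of_term hr fun i j hij =>
      (Real.rpow_inv_le_iff_of_pos (abs_nonneg _) hr (sub_pos.2 hij)).2 (h i j hij)

omit [DecidableEq ι] in
theorem abs_le_N (n : Matrix ι ι ℝ) {i j : ι} (h : w.wa j < w.wa i) :
    |n i j| ≤ w.N n ^ (w.wa i - w.wa j) :=
  (N_le_iff (w.N_nonneg n)).1 le_rfl i j h

omit [DecidableEq ι] in
theorem N_lt_iff (hr : 0 < r) :
    w.N n < r ↔ ∀ i j, w.wa j < w.wa i → |n i j| < r ^ (w.wa i - w.wa j) := by
  constructor
  · intro h i j hij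
    exact (Real.rpow_inv_lt_iff_of_pos (abs_nonneg _) hr.le (sub_pos.2 hij)).1
      ((term_le_N n hij).trans_lt h)
  · intro h
    rcases isEmpty_or_nonempty (ι × ι) with he | he
    · rwa [N, Real.iSup_of_isEmpty]
    · obtain ⟨p, hp⟩ := exists_eq_ciSup_of_finite (f := fun p : ι × ι =>
        if w.wa p.2 < w.wa p.1 then |n p.1 p.2| ^ (w.wa p.1 - w.wa p.2)⁻¹ else 0)
      rw [N, ← hp]
      split_ifs with hq
      · exact (Real.rpow_inv_lt_iff_of_pos (abs_nonneg _) hr.le (sub_pos.2 hq)).2 (h _ _ hq)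
      · exact hr

omit [DecidableEq ι] in
theorem N_le_N (h : ∀ i j, w.wa j < w.wa i → |n i j| ≤ |n' i j|) : w.N n ≤ w.N n' :=
  (N_le_iff (w.N_nonneg n')).2 fun i j hij => (h i j hij).trans (abs_le_N n' hij)

variable (w) in
theorem N_one : w.N (1 : Matrix ι ι ℝ) = 0 := by
  refine le_antisymm ((N_le_iff le_rfl).2 fun i j hij => ?_) (w.N_nonneg _)
  rw [one_apply_of_lt hij, abs_zero]
  exact Real.rpow_nonneg le_rfl _

theorem Nil.eq_one_of_N (h : w.Nil J n) (h0 : w.N n = 0) : n = 1 := by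
  ext i j
  rcases lt_or_ge (w.wa j) (w.wa i) with hij | hij
  · have := abs_le_N n hij
    rw [h0, Real.zero_rpow (sub_pos.2 hij).ne'] at this
    rw [one_apply_of_lt hij]
    exact abs_nonpos_iff.1 this
  · exact h.apply_of_le hij

theorem Nil.N_eq_zero_iff (h : w.Nil J n) : w.N n = 0 ↔ n = 1 :=
  ⟨h.eq_one_of_N, fun e => by rw [e, N_one]⟩

end Gauge

section Bd

omit [Fintype ι] [DecidableEq ι] in
theorem Bd.mono (h : w.Bd r A T) (hr : 0 ≤ r) (hA : A ≤ B) : w.Bd r B T :=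
  ⟨h.1, fun i j hij => (h.2 i j hij).trans
    (mul_le_mul_of_nonneg_right hA (Real.rpow_nonneg hr _))⟩

omit [Fintype ι] in
theorem abs_one_apply_le (i j : ι) : |(1 : Matrix ι ι ℝ) i j| ≤ 1 := by
  rw [Matrix.one_apply]
  split_ifs <;> simp

theorem Nil.bd (h : w.Nil J n) (hr : w.N n ≤ r) : w.Bd r 1 n := by
  refine ⟨h.tri, fun i j hij => ?_⟩
  rw [one_mul]
  rcases hij.lt_or_eq with hlt | he
  · exact (N_le_iff ((w.N_nonneg n).trans hr)).1 hr i j hlt
  · rw [h.apply_of_le he.ge, he, sub_self, Real.rpow_zero]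
    exact abs_one_apply_le i j

theorem Nil.bd_one_sub (h : w.Nil J n) (hr : w.N n ≤ r) : w.Bd r 1 (1 - n) := by
  have hs : w.Str J (1 - n) := by
    have := Str.neg h
    rwa [neg_sub] at this
  refine ⟨hs.tri, fun i j hij => ?_⟩
  rw [one_mul]
  rcases hij.lt_or_eq with hlt | he
  · rw [Matrix.sub_apply, one_apply_of_lt hlt, zero_sub, abs_neg]
    exact (N_le_iff ((w.N_nonneg n).trans hr)).1 hr i j hlt
  · rw [hs.eq_zero he.ge, abs_zero]
    exact Real.rpow_nonneg ((w.N_nonneg n).trans hr) _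

theorem Lev.bd (h : w.Lev l) (hr : 0 ≤ r) (hB : ‖l‖ ≤ B) : w.Bd r B l := by
  refine ⟨h.tri, fun i j _ => ?_⟩
  by_cases h0 : l i j = 0
  · rw [h0, abs_zero]
    exact mul_nonneg ((norm_nonneg _).trans hB) (Real.rpow_nonneg hr _)
  · rw [h i j h0, sub_self, Real.rpow_zero, mul_one]
    exact (abs_entry_le l i j).trans hB

omit [DecidableEq ι] in
theorem Bd.mul (h : w.Bd r A T) (h' : w.Bd r B T') (hr : 0 ≤ r) (hA : 0 ≤ A) (hB : 0 ≤ B) :
    w.Bd r (Fintype.card ι * A * B) (T * T') := by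
  refine ⟨h.1.mul h'.1, fun i j hij => ?_⟩
  rw [Matrix.mul_apply]
  refine (Finset.abs_sum_le_sum_abs _ _).trans ?_
  have := Finset.sum_le_card_nsmul Finset.univ (fun k => |T i k * T' k j|)
    (A * B * r ^ (w.wa i - w.wa j)) fun k _ => by
      have h0 : 0 ≤ A * B * r ^ (w.wa i - w.wa j) :=
        mul_nonneg (mul_nonneg hA hB) (Real.rpow_nonneg hr _)
      by_cases h1 : T i k = 0
      · simpa [h1] using h0
      by_cases h2 : T' k j = 0
      · simpa [h2] using h0
      have a1 := h.1 i k h1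
      have a2 := h'.1 k j h2
      have e : r ^ (w.wa i - w.wa j) = r ^ (w.wa i - w.wa k) * r ^ (w.wa k - w.wa j) := by
        rw [← Real.rpow_add_of_nonneg hr (sub_nonneg.2 a1) (sub_nonneg.2 a2), sub_add_sub_cancel]
      rw [abs_mul, e, mul_mul_mul_comm]
      exact mul_le_mul (h.2 i k a1) (h'.2 k j a2) (abs_nonneg _)
        (mul_nonneg hA (Real.rpow_nonneg hr _))
  simpa [mul_assoc] using this

omit [Fintype ι] [DecidableEq ι] in
theorem Bd.add (h : w.Bd r A T) (h' : w.Bd r B T') : w.Bd r (A + B) (T + T') := by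
  refine ⟨h.1.add h'.1, fun i j hij => ?_⟩
  rw [Matrix.add_apply, add_mul]
  exact (abs_add_le _ _).trans (add_le_add (h.2 i j hij) (h'.2 i j hij))

theorem Bd.pow (h : w.Bd r 1 T) (hr : 0 ≤ r) (k : ℕ) :
    w.Bd r ((Fintype.card ι : ℝ) ^ k) (T ^ k) := by
  induction k with
  | zero =>
    rw [pow_zero, pow_zero]
    exact (Nil.one (J := univ)).bd (by rwa [N_one])
  | succ k ih =>
    have := ih.mul h hr (by positivity) zero_le_one
    rwa [mul_one, ← pow_succ', ← pow_succ] at this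

omit [DecidableEq ι] in
theorem Bd.N_le (h : w.Bd r A n) (hr : 0 ≤ r) (hA : 1 ≤ A) : w.N n ≤ A ^ w.gi * r := by
  have hA0 : 0 ≤ A := zero_le_one.trans hA
  refine N_le_of_term (mul_nonneg (Real.rpow_nonneg hA0 _) hr) fun i j hij => ?_
  have hd := sub_pos.2 hij
  refine (Real.rpow_le_rpow (abs_nonneg _) (h.2 i j hij.le) (inv_pos.2 hd).le).trans ?_
  rw [Real.mul_rpow hA0 (Real.rpow_nonneg hr _), Real.rpow_rpow_inv hr hd.ne']
  exact mul_le_mul_of_nonneg_right (Real.rpow_le_rpow_of_exponent_le hA (w.inv_le_gi i j)) hr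

theorem Bd.norm_le (h : w.Bd r A T) (hr : 0 ≤ r) (hA : 0 ≤ A) :
    ‖T‖ ≤ Fintype.card ι * (A * (1 + r) ^ w.tp) := by
  have h0 : 0 ≤ A * (1 + r) ^ w.tp := mul_nonneg hA (Real.rpow_nonneg (by linarith) _)
  refine norm_le_of_entry h0 fun i j => ?_
  by_cases h1 : T i j = 0
  · simpa [h1] using h0
  have a1 := h.1 i j h1
  refine (h.2 i j a1).trans (mul_le_mul_of_nonneg_left ?_ hA)
  exact (Real.rpow_le_rpow hr (by linarith) (sub_nonneg.2 a1)).trans
    (Real.rpow_le_rpow_of_exponent_le (by linarith) (w.sub_le_tp i j))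

omit [DecidableEq ι] in
theorem Bd.N_le_C (h : w.Bd r A n) (hr : 0 ≤ r) (hA : A ≤ K0 ι) : w.N n ≤ w.C * r :=
  ((h.mono hr hA).N_le hr (one_le_K0 ι)).trans (mul_le_mul_of_nonneg_right w.K0_rpow_le_C hr)

end Bd

section Ineq

/-- N1. -/
theorem Nil.N_mul_le (h : w.Nil J n) (h' : w.Nil J' n') (hr : w.N n ≤ r) (hr' : w.N n' ≤ r) :
    w.N (n * n') ≤ w.C * r := by
  have h0 := (w.N_nonneg n).trans hr
  refine ((h.bd hr).mul (h'.bd hr') h0 zero_le_one zero_le_one).N_le_C h0 ?_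
  simpa using card_le_K0 ι

theorem Nil.N_mul_le_add (h : w.Nil J n) (h' : w.Nil J' n') :
    w.N (n * n') ≤ w.C * (w.N n + w.N n') :=
  h.N_mul_le h' (le_add_of_nonneg_right (w.N_nonneg _)) (le_add_of_nonneg_left (w.N_nonneg _))

theorem Nil.bd_inv (h : w.Nil J n) (hr : w.N n ≤ r) : w.Bd r (K0 ι) n⁻¹ := by
  have h0 := (w.N_nonneg n).trans hr
  have h1 : ∀ K : ℕ, w.Bd r (∑ k ∈ Finset.range K, (Fintype.card ι : ℝ) ^ k)
      (∑ k ∈ Finset.range K, (1 - n) ^ k) := by
    intro K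
    induction K with
    | zero => exact ⟨fun _ _ h => absurd rfl h, fun i j _ => by simp⟩
    | succ K ih =>
      rw [Finset.sum_range_succ, Finset.sum_range_succ]
      exact ih.add ((h.bd_one_sub hr).pow h0 K)
  rw [h.inv_eq]
  refine (h1 _).mono h0 ?_
  set c : ℝ := (Fintype.card ι : ℝ) with hc
  have c0 : 0 ≤ c := Nat.cast_nonneg _
  have := Finset.sum_le_card_nsmul (Finset.range (Fintype.card ι)) (fun k => c ^ k)
    ((c + 1) ^ Fintype.card ι) fun k hk =>
      (pow_le_pow_left₀ c0 (le_add_of_nonneg_right zero_le_one) k).trans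
        (pow_le_pow_right₀ (le_add_of_nonneg_left c0) (Finset.mem_range.1 hk).le)
  refine this.trans ?_
  rw [Finset.card_range, nsmul_eq_mul, K0, ← hc, pow_add, mul_comm]
  exact mul_le_mul_of_nonneg_left (by nlinarith) (by positivity)

/-- N2. -/
theorem Nil.N_inv_le (h : w.Nil J n) : w.N n⁻¹ ≤ w.C * w.N n :=
  (h.bd_inv le_rfl).N_le_C (w.N_nonneg n) le_rfl

/-- N3. -/
theorem Nil.N_conj_le (h : w.Nil J n) (hl : w.Lev l) (hl' : w.Lev l') (hB : 1 ≤ B) (h1 : ‖l‖ ≤ B)
    (h2 : ‖l'‖ ≤ B) : w.N (l * n * l') ≤ w.C * B ^ w.C * w.N n := by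
  have h0 := w.N_nonneg n
  have B0 : 0 ≤ B := zero_le_one.trans hB
  have hb := ((hl.bd h0 h1).mul (h.bd le_rfl) h0 B0 zero_le_one).mul (hl'.bd h0 h2) h0
    (by positivity) B0
  have hK := one_le_K0 ι
  have hle : (Fintype.card ι : ℝ) * (Fintype.card ι * B * 1) * B ≤ K0 ι * B ^ (2 : ℝ) := by
    have := pow_le_K0 ι (k := 2) (by omega)
    rw [Real.rpow_two]
    nlinarith [sq_nonneg B]
  have h1B : 1 ≤ B ^ (2 : ℝ) := Real.one_le_rpow hB (by norm_num)
  refine ((hb.mono h0 hle).N_le h0 (one_le_mul_of_one_le_of_one_le hK h1B)).trans (mul_le_mul_of_nonneg_right ?_ h0)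
  rw [Real.mul_rpow (by linarith) (by linarith), ← Real.rpow_mul B0]
  exact mul_le_mul w.K0_rpow_le_C (Real.rpow_le_rpow_of_exponent_le hB w.two_gi_le_C)
    (Real.rpow_nonneg B0 _) w.C_pos.le

theorem Nil.norm_le (h : w.Nil J n) (hr : w.N n ≤ r) : ‖n‖ ≤ w.C * (1 + r) ^ w.C := by
  have h0 := (w.N_nonneg n).trans hr
  refine ((h.bd hr).norm_le h0 zero_le_one).trans ?_
  rw [one_mul]
  exact mul_le_mul w.card_le_C (Real.rpow_le_rpow_of_exponent_le (by linarith) w.tp_le_C)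
    (Real.rpow_nonneg (by linarith) _) w.C_pos.le

theorem Nil.norm_sub_one_le (h : w.Nil J n) (hR : 1 ≤ R) (hr : w.N n ≤ R) :
    ‖n - 1‖ ≤ Fintype.card ι * (R ^ w.tp * w.N n ^ w.gi⁻¹) := by
  have h0 := w.N_nonneg n
  have hc : 0 ≤ R ^ w.tp * w.N n ^ w.gi⁻¹ :=
    mul_nonneg (Real.rpow_nonneg (by linarith) _) (Real.rpow_nonneg h0 _)
  refine norm_le_of_entry hc fun i j => ?_
  rcases lt_or_ge (w.wa j) (w.wa i) with hij | hij
  · rw [Matrix.sub_apply, one_apply_of_lt hij, sub_zero]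
    refine (abs_le_N n hij).trans (rpow_le_mul_rpow h0 hr hR (inv_pos.2 w.gi_pos).le
      (gi_inv_le hij) ?_)
    linarith [w.sub_le_tp i j, inv_pos.2 w.gi_pos]
  · rwa [Str.eq_zero h hij, abs_zero]

theorem N_le_of_norm (hB : 1 ≤ B) (h : ‖n‖ ≤ B) : w.N n ≤ B ^ w.gi :=
  N_le_of_term (Real.rpow_nonneg (by linarith) _) fun i j hij =>
    (Real.rpow_le_rpow (abs_nonneg _) ((abs_entry_le n i j).trans h)
      (inv_pos.2 (sub_pos.2 hij)).le).trans (Real.rpow_le_rpow_of_exponent_le hB (w.inv_le_gi i j))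

theorem N_le_of_norm_sub_one (h : ‖n - 1‖ ≤ 1) : w.N n ≤ ‖n - 1‖ ^ w.tp⁻¹ := by
  refine N_le_of_term (Real.rpow_nonneg (norm_nonneg _) _) fun i j hij => ?_
  have := abs_entry_le (n - 1) i j
  rw [Matrix.sub_apply, one_apply_of_lt hij, sub_zero] at this
  refine (Real.rpow_le_rpow (abs_nonneg _) this (inv_pos.2 (sub_pos.2 hij)).le).trans ?_
  exact Real.rpow_le_rpow_of_exponent_ge' (norm_nonneg _) h (inv_pos.2 w.tp_pos).le (tp_inv_le hij)

/-- N4, general form. -/
theorem Nil.N_dil_le (h : w.Nil J n) {s t c : ℝ} (hc : ∀ σ ∈ J, s + t * σ ≤ c) :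
    w.N (w.dil s t * n * w.dil (-s) (-t)) ≤ Real.exp c * w.N n := by
  have h0 := w.N_nonneg n
  refine (N_le_iff (by positivity)).2 fun i j hij => ?_
  by_cases hn : n i j = 0
  · rw [dil_conj_apply, hn, mul_zero, abs_zero]
    positivity
  have hs := hc _ (h.slope_mem hij hn)
  rw [dil_conj_apply, abs_mul, abs_of_pos (Real.exp_pos _), Real.mul_rpow (Real.exp_pos _).le h0,
    ← Real.exp_mul, ← slope_mul hij]
  refine mul_le_mul (Real.exp_le_exp.2 ?_) (abs_le_N n hij) (abs_nonneg _) (Real.exp_pos _).le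
  nlinarith [sub_pos.2 hij]

/-- N4. -/
theorem N_dil (s : ℝ) (n : Matrix ι ι ℝ) :
    w.N (w.dil s 0 * n * w.dil (-s) 0) = Real.exp s * w.N n := by
  have key : ∀ (s : ℝ) (n : Matrix ι ι ℝ),
      w.N (w.dil s 0 * n * w.dil (-s) 0) ≤ Real.exp s * w.N n := by
    intro s n
    have h0 := w.N_nonneg n
    refine (N_le_iff (by positivity)).2 fun i j hij => ?_
    have := w.dil_conj_apply s 0 n i j
    rw [neg_zero] at this
    rw [this, abs_mul, abs_of_pos (Real.exp_pos _), Real.mul_rpow (Real.exp_pos _).le h0,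
      ← Real.exp_mul, zero_mul, add_zero]
    exact mul_le_mul_of_nonneg_left (abs_le_N n hij) (Real.exp_pos _).le
  refine le_antisymm (key s n) ?_
  have h1 := key (-s) (w.dil s 0 * n * w.dil (-s) 0)
  have e : w.dil (-s) 0 * w.dil s 0 = 1 := by simpa using w.dil_neg_mul s 0
  rw [neg_neg, ← mul_assoc, ← mul_assoc, e, one_mul, mul_assoc, e, mul_one] at h1
  have := mul_le_mul_of_nonneg_left h1 (Real.exp_pos s).le
  rwa [← mul_assoc, ← Real.exp_add, add_neg_cancel, Real.exp_zero, one_mul] at this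

theorem N_holder {M : ℝ} (hM : 1 ≤ M) (h : ‖n‖ ≤ M) (h' : ‖n'‖ ≤ M) :
    |w.N n - w.N n'| ≤ w.gi * M ^ (w.gi + 1) * ‖n - n'‖ ^ w.tp⁻¹ := by
  have hc : 0 ≤ w.gi * M ^ (w.gi + 1) := mul_nonneg w.gi_pos.le (Real.rpow_nonneg (by linarith) _)
  have key : ∀ n n' : Matrix ι ι ℝ, ‖n‖ ≤ M → ‖n'‖ ≤ M →
      w.N n ≤ w.N n' + w.gi * M ^ (w.gi + 1) * ‖n - n'‖ ^ w.tp⁻¹ := by
    intro n n' h h'
    refine N_le_of_term (add_nonneg (w.N_nonneg _) (by positivity)) fun i j hij => ?_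
    refine (rpow_holder (abs_nonneg (n i j)) ((abs_entry_le n i j).trans h) (abs_nonneg (n' i j))
      ((abs_entry_le n' i j).trans h') hM (inv_pos.2 w.tp_pos).le
      (inv_le_one_of_one_le₀ w.one_le_tp) (tp_inv_le hij) w.one_le_gi (w.inv_le_gi i j)).trans ?_
    refine add_le_add (term_le_N n' hij) (mul_le_mul_of_nonneg_left ?_ hc)
    exact Real.rpow_le_rpow (abs_nonneg _)
      ((abs_abs_sub_abs_le_abs_sub _ _).trans (abs_entry_le (n - n') i j)) (inv_pos.2 w.tp_pos).le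
  have h1 := key n n' h h'
  have h2 := key n' n h' h
  rw [norm_sub_rev] at h2
  exact abs_le.2 ⟨by linarith, by linarith⟩

variable (w) in
/-- N5. -/
theorem exists_N_holder (R : ℝ) : ∃ K, 0 ≤ K ∧ ∀ n n' : Matrix ι ι ℝ, w.Nil univ n →
    w.Nil univ n' → w.N n ≤ R → w.N n' ≤ R →
      |w.N (n * n') - w.N n| ≤ K * w.N n' ^ w.th ∧ |w.N (n' * n) - w.N n| ≤ K * w.N n' ^ w.th := by
  obtain ⟨R', hR1, hR⟩ : ∃ R', 1 ≤ R' ∧ R ≤ R' := ⟨max 1 R, le_max_left _ _, le_max_right _ _⟩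
  set M0 := w.C * (1 + R') ^ w.C with hM0
  have M1 : 1 ≤ M0 :=
    one_le_mul_of_one_le_of_one_le w.one_le_C (Real.one_le_rpow (by linarith) w.C_pos.le)
  have M2 : 1 ≤ M0 * M0 := one_le_mul_of_one_le_of_one_le M1 M1
  have hc : 0 ≤ w.gi * (M0 * M0) ^ (w.gi + 1) :=
    mul_nonneg w.gi_pos.le (Real.rpow_nonneg (by linarith) _)
  have hq : 0 ≤ M0 * (Fintype.card ι * R' ^ w.tp) := by positivity
  refine ⟨w.gi * (M0 * M0) ^ (w.gi + 1) * (M0 * (Fintype.card ι * R' ^ w.tp)) ^ w.tp⁻¹,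
    mul_nonneg hc (Real.rpow_nonneg hq _), fun n n' h h' hn hn' => ?_⟩
  have b1 : ‖n‖ ≤ M0 := h.norm_le (hn.trans hR)
  have b2 : ‖n'‖ ≤ M0 := h'.norm_le (hn'.trans hR)
  have b3 := h'.norm_sub_one_le hR1 (hn'.trans hR)
  have b4 : ‖n‖ ≤ M0 * M0 := b1.trans (le_mul_of_one_le_right (by linarith) M1)
  have h0 := w.N_nonneg n'
  have key : ∀ p : Matrix ι ι ℝ, ‖p‖ ≤ M0 * M0 → ‖p - n‖ ≤ ‖n‖ * ‖n' - 1‖ → |w.N p - w.N n| ≤
      w.gi * (M0 * M0) ^ (w.gi + 1) * (M0 * (Fintype.card ι * R' ^ w.tp)) ^ w.tp⁻¹ *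
        w.N n' ^ w.th := by
    intro p hp hd
    refine (N_holder M2 hp b4).trans ?_
    rw [mul_assoc (w.gi * (M0 * M0) ^ (w.gi + 1))]
    refine mul_le_mul_of_nonneg_left ?_ hc
    rw [th, Real.rpow_mul h0, ← Real.mul_rpow hq (Real.rpow_nonneg h0 _)]
    refine Real.rpow_le_rpow (norm_nonneg _) (hd.trans ?_) (inv_pos.2 w.tp_pos).le
    rw [mul_assoc M0, mul_assoc (Fintype.card ι : ℝ)]
    exact mul_le_mul b1 b3 (norm_nonneg _) (by linarith)
  constructor
  · refine key _ ((norm_mul_le _ _).trans (mul_le_mul b1 b2 (norm_nonneg _) (by linarith))) ?_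
    rw [show n * n' - n = n * (n' - 1) by noncomm_ring]
    exact norm_mul_le _ _
  · refine key _ ((norm_mul_le _ _).trans (mul_le_mul b2 b1 (norm_nonneg _) (by linarith))) ?_
    rw [show n' * n - n = (n' - 1) * n by noncomm_ring, mul_comm ‖n‖]
    exact norm_mul_le _ _

end Ineq

section Top

variable (w)

omit [DecidableEq ι] in
/-- N6. -/
theorem continuous_N : Continuous w.N := by
  rcases isEmpty_or_nonempty (ι × ι) with he | he
  · have : w.N = fun _ => 0 := funext fun n => Real.iSup_of_isEmpty _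
    rw [this]
    exact continuous_const
  · have : w.N = fun n => Finset.univ.sup' Finset.univ_nonempty fun p : ι × ι =>
        if w.wa p.2 < w.wa p.1 then |n p.1 p.2| ^ (w.wa p.1 - w.wa p.2)⁻¹ else 0 :=
      funext fun n => (Finset.sup'_univ_eq_ciSup _).symm
    rw [this]
    refine Continuous.finset_sup'_apply _ fun p _ => ?_
    split_ifs with hp
    · exact (continuous_id.matrix_elem p.1 p.2).abs.rpow_const
        fun _ => Or.inr (inv_pos.2 (sub_pos.2 hp)).le
    · exact continuous_const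

omit [DecidableEq ι] in
theorem measurable_N : Measurable w.N := w.continuous_N.measurable

omit [Fintype ι] [DecidableEq ι] in
theorem isClosed_supp (P : ι → ι → Prop) :
    IsClosed {T : Matrix ι ι ℝ | ∀ i j, T i j ≠ 0 → P i j} := by
  have e0 : {T : Matrix ι ι ℝ | ∀ i j, T i j ≠ 0 → P i j} =
      ⋂ i, ⋂ j, {T : Matrix ι ι ℝ | T i j ≠ 0 → P i j} := by
    ext T
    simp only [mem_ofPred_eq, mem_iInter]
  rw [e0]
  refine isClosed_iInter fun i => isClosed_iInter fun j => ?_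
  by_cases hP : P i j
  · simp [hP]
  · have e : {T : Matrix ι ι ℝ | T i j ≠ 0 → P i j} = {T | T i j = 0} := by
      ext T
      simp [hP]
    rw [e]
    exact isClosed_eq (continuous_id.matrix_elem i j) continuous_const

omit [Fintype ι] [DecidableEq ι] in
theorem isClosed_Tri : IsClosed {T | w.Tri T} := isClosed_supp _

omit [Fintype ι] [DecidableEq ι] in
theorem isClosed_Lev : IsClosed {T | w.Lev T} := isClosed_supp _

omit [Fintype ι] [DecidableEq ι] in
theorem isClosed_Str (J : Set ℝ) : IsClosed {T | w.Str J T} := isClosed_supp _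

omit [Fintype ι] in
theorem isClosed_Nil (J : Set ℝ) : IsClosed {n | w.Nil J n} :=
  (w.isClosed_Str J).preimage (continuous_id.sub continuous_const)

theorem measurableSet_Nil (J : Set ℝ) : MeasurableSet {n | w.Nil J n} :=
  (w.isClosed_Nil J).measurableSet

/-- N6: balls are compact. -/
theorem isCompact_ball (J : Set ℝ) (R : ℝ) : IsCompact {n | w.Nil J n ∧ w.N n ≤ R} := by
  refine Metric.isCompact_of_isClosed_isBounded
    ((w.isClosed_Nil J).inter (isClosed_le w.continuous_N continuous_const)) ?_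
  exact isBounded_iff_forall_norm_le.2 ⟨_, fun n hn => hn.1.norm_le hn.2⟩

omit [Fintype ι] [DecidableEq ι] in
theorem continuous_lev : Continuous w.lev := by
  refine continuous_matrix fun i j => ?_
  simp only [lev_apply]
  split_ifs
  · exact continuous_id.matrix_elem i j
  · exact continuous_const

theorem norm_lev_le (T : Matrix ι ι ℝ) : ‖w.lev T‖ ≤ ‖T‖ := by
  have : ‖w.lev T‖₊ ≤ ‖T‖₊ := by
    rw [Matrix.linfty_opNNNorm_def, Matrix.linfty_opNNNorm_def]
    refine Finset.sup_mono_fun fun i _ => Finset.sum_le_sum fun j _ => ?_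
    rw [lev_apply]
    split_ifs <;> simp
  exact_mod_cast this

theorem continuousOn_inv_Nil : ContinuousOn (fun n : Matrix ι ι ℝ => n⁻¹) {n | w.Nil univ n} := by
  refine ContinuousOn.congr (f := fun n => ∑ k ∈ Finset.range (Fintype.card ι), (1 - n) ^ k)
    (Continuous.continuousOn (by fun_prop)) fun n hn => hn.inv_eq

end Top

end Wt

section Meas

variable {ι : Type} [Fintype ι] [DecidableEq ι] {α : Type*} [MeasurableSpace α]

theorem measurable_matrix_inv : Measurable fun T : Matrix ι ι ℝ => T⁻¹ := by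
  have e : (fun T : Matrix ι ι ℝ => T⁻¹) = fun T => T.det⁻¹ • T.adjugate := by
    funext T
    rw [Matrix.inv_def, Ring.inverse_eq_inv']
  rw [e]
  exact (continuous_id.matrix_det.measurable.inv).smul continuous_id.matrix_adjugate.measurable

theorem Measurable.minv {f : α → Matrix ι ι ℝ} (hf : Measurable f) : Measurable fun x => (f x)⁻¹ :=
  measurable_matrix_inv.comp hf

omit [DecidableEq ι] in
theorem Measurable.mmul {f g : α → Matrix ι ι ℝ} (hf : Measurable f) (hg : Measurable g) :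
    Measurable fun x => f x * g x :=
  (continuous_fst.matrix_mul continuous_snd).measurable.comp (hf.prodMk hg)

omit [DecidableEq ι] in
theorem Wt.measurable_lev (w : Wt ι) : Measurable w.lev := w.continuous_lev.measurable

theorem Wt.measurable_nil (w : Wt ι) : Measurable w.nil :=
  Measurable.mmul measurable_id (Measurable.minv w.measurable_lev)

end Meas

end Pool.Agent.P.MP_d483fb_an.Z

end

end

section

/-!
Leafwise measures: the abstract definition.
-/

namespace Pool.Agent.P.MP_d483fb_an.Z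

open MeasureTheory ProbabilityTheory Set
open scoped ENNReal

variable {X : Type*} [MeasurableSpace X]

/-- `om` is a family of leafwise measures of `μ` for the relation `R` with the gauge `N`; all
the pointwise properties hold on the conull `a`-invariant set `X1`. -/
structure IsLeafwise (μ : Measure X) (a : X ≃ᵐ X) (R : X → X → Prop) (N : X → X → ℝ)
    (om : Kernel X X) (X1 : Set X) : Prop where
  sfin : IsSFiniteKernel om
  meas : MeasurableSet X1
  conull : ∀ᵐ x ∂μ, x ∈ X1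
  inv : ∀ x, a x ∈ X1 ↔ x ∈ X1
  carried : ∀ x ∈ X1, ∀ᵐ y ∂om x, y ∈ X1 ∧ R x y
  fin : ∀ x ∈ X1, ∀ r : ℝ, om x {y | N x y < r} ≠ ∞
  pos : ∀ x ∈ X1, ∀ r : ℝ, 0 < r → om x {y | N x y < r} ≠ 0
  norm : ∀ x ∈ X1, om x {y | N x y < 1} = 1
  prop : ∀ x ∈ X1, ∀ y ∈ X1, R x y →
    om x {w | N y w < 1} ≠ 0 ∧ om x {w | N y w < 1} ≠ ∞ ∧ om x = om x {w | N y w < 1} • om y
  equiv : ∀ x ∈ X1, ∃ c : ℝ≥0∞, c ≠ 0 ∧ c ≠ ∞ ∧ om (a x) = c • (om x).map a
  mtp : ∀ Ψ : X → X → ℝ≥0∞, Measurable (Function.uncurry Ψ) →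
    ∫⁻ x, ∫⁻ y, Ψ x y ∂om x ∂μ = ∫⁻ y, ∫⁻ x, Ψ x y * om x {w | N y w < 1} ∂om y ∂μ

/-- The input for the construction of leafwise measures: a label `eta` on the whole space whose
atoms grow under `a⁻¹`, split countably, lie in the classes of `R`, exhaust them and shrink to
points, all this on the conull `a`-invariant set `Y`. -/
structure Nest {Z : Type*} [MeasurableSpace Z] (μ : Measure X) (a : X ≃ᵐ X) (R : X → X → Prop)
    (N : X → X → ℝ) (eta : X → Z) (e : X → ℕ) (Y : Set X) : Prop where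
  pres : MeasurePreserving a μ μ
  measN : Measurable (Function.uncurry N)
  measEta : Measurable eta
  measE : Measurable e
  meas : MeasurableSet Y
  conull : ∀ᵐ x ∂μ, x ∈ Y
  inv : ∀ x, a x ∈ Y ↔ x ∈ Y
  relInv : ∀ x ∈ Y, ∀ y ∈ Y, R x y → R (a x) (a y)
  rel : ∀ x ∈ Y, ∀ y ∈ Y, eta x = eta y → R x y
  nest : ∀ x ∈ Y, ∀ y ∈ Y, eta (a x) = eta (a y) → eta x = eta y
  cnt : ∀ x ∈ Y, ∀ y ∈ Y, eta x = eta y → e x = e y → eta (a x) = eta (a y)
  exh : ∀ x ∈ Y, ∀ r : ℝ, ∃ s : ℕ, ∀ y ∈ Y, R x y → N x y < r →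
    eta (a.symm^[s] y) = eta (a.symm^[s] x)
  shr : ∀ x ∈ Y, ∀ r : ℝ, 0 < r → ∃ s : ℕ, ∀ y ∈ Y, eta (a^[s] y) = eta (a^[s] x) → N x y < r

end Pool.Agent.P.MP_d483fb_an.Z


end

section

/-!
Leaf structures: a measurable equivalence relation whose classes carry charts with values in a
graded matrix group, normalised by a flow (`Pre`, `LS`), leafwise measures (`Leafwise`), and the
leaf structure of an extension of a homogeneous space (`GeoLS`).
-/

open scoped Matrix Matrix.Norms.Operator InnerProductSpace RealInnerProductSpace Topology ENNReal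
open MeasureTheory ProbabilityTheory NormedSpace Filter Set

noncomputable section

namespace Pool.Agent.P.MP_d483fb_an.Z

/-- The algebraic part of a leaf structure. `T x y` is the change from the chart at `y` to the
chart at `x`, and `L s x` is the action of the flow in the charts. -/
structure Pre (X : Type) [MeasurableSpace X] (μ : Measure X) (ι : Type) [Fintype ι]
    [DecidableEq ι] where
  w : Wt ι
  f : ℝ × ℝ → X → X
  f_zero : ∀ x, f 0 x = x
  f_add : ∀ s t x, f (s + t) x = f s (f t x)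
  mp : ∀ s, MeasurePreserving (f s) μ μ
  erg : Ergodic (f (1, 0)) μ
  X0 : Set X
  meas0 : MeasurableSet X0
  ae0 : ∀ᵐ x ∂μ, x ∈ X0
  inv0 : ∀ s, ∀ x ∈ X0, f s x ∈ X0
  R : X → X → Prop
  measR : MeasurableSet {p : X × X | R p.1 p.2}
  R_mem : ∀ x y, R x y → x ∈ X0
  R_refl : ∀ x ∈ X0, R x x
  R_symm : ∀ x y, R x y → R y x
  R_trans : ∀ x y z, R x y → R y z → R x z
  R_f : ∀ s x y, R x y → R (f s x) (f s y)
  T : X → X → Matrix ι ι ℝ
  measT : Measurable fun p : X × X => T p.1 p.2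
  T_self : ∀ x ∈ X0, T x x = 1
  T_mul : ∀ x y z, R x y → R y z → T x y * T y z = T x z
  T_tri : ∀ x y, R x y → w.Tri (T x y)
  T_inj : ∀ x y, R x y → w.Lev (T x y) → x = y
  L : ℝ × ℝ → X → Matrix ι ι ℝ
  measL : ∀ s, Measurable (L s)
  L_zero : ∀ x ∈ X0, L 0 x = 1
  L_add : ∀ s t, ∀ x ∈ X0, L (s + t) x = L s (f t x) * L t x
  L_lev : ∀ s, ∀ x ∈ X0, w.Lev (L s x)
  T_f : ∀ s x y, R x y → T (f s x) (f s y) = L s x * T x y * (L s y)⁻¹

namespace Pre

variable {X : Type} [MeasurableSpace X] {μ : Measure X} {ι : Type} [Fintype ι] [DecidableEq ι]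
  (S : Pre X μ ι)

/-- The powers of the expanding transformation. -/
def a (i : ℤ) : X → X := S.f ((i : ℝ), 0)

/-- The expanding transformation as a measurable equivalence. -/
def aE : X ≃ᵐ X where
  toFun := S.f (1, 0)
  invFun := S.f (-1, 0)
  left_inv x := by
    rw [← S.f_add]
    convert S.f_zero x using 2
    simp
  right_inv x := by
    rw [← S.f_add]
    convert S.f_zero x using 2
    simp
  measurable_toFun := (S.mp _).measurable
  measurable_invFun := (S.mp _).measurable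

/-- The powers of the expanding transformation in the charts. -/
def La (i : ℤ) : X → Matrix ι ι ℝ := S.L ((i : ℝ), 0)

/-- The position of `y` in the chart at `x`. -/
def n (x y : X) : Matrix ι ι ℝ := S.w.nil (S.T x y)

/-- The block diagonal part of the change of charts. -/
def l (x y : X) : Matrix ι ι ℝ := S.w.lev (S.T x y)

/-- The gauge of the position of `y` in the chart at `x`. -/
def N (x y : X) : ℝ := S.w.N (S.n x y)

/-- The subrelation with slopes in `J`. -/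
def RJ (J : Set ℝ) (x y : X) : Prop := S.R x y ∧ S.w.Nil J (S.n x y)

/-- `q` is a slowly varying bound for the difference between the flow and the dilations. -/
structure Temp (ε : ℝ) (q : X → ℝ) : Prop where
  meas : Measurable q
  one_le : ∀ x, 1 ≤ q x
  slow : ∀ x ∈ S.X0, ∀ i : ℤ, q (S.a i x) ≤ q x * Real.exp (ε * |(i : ℝ)|)
  slowC : ∃ C, ∀ x ∈ S.X0, ∀ s, q (S.f s x) ≤ C * q x * Real.exp (ε * ‖s‖)
  grow : ∀ x ∈ S.X0, ∀ s, ‖S.L s x * S.w.dil (-s.1) (-s.2)‖ ≤ q x * Real.exp (ε * ‖s‖) ∧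
    ‖S.w.dil s.1 s.2 * (S.L s x)⁻¹‖ ≤ q x * Real.exp (ε * ‖s‖)

/-- `q` bounds the changes of charts between close points of a leaf. -/
def Bd (q : X → ℝ) : Prop :=
  ∀ x y, S.R x y → S.N x y ≤ 1 → ‖S.T x y‖ ≤ q x * q y ∧ ‖S.T y x‖ ≤ q x * q y

/-- Flow boxes: on a set of positive measure the plaques are the fibres of a measurable label. -/
def Box (q : X → ℝ) : Prop :=
  ∀ q0 : ℝ, μ {x | q x ≤ q0} ≠ 0 → ∀ r1 : ℝ, 0 < r1 → ∀ r2 : ℝ,
    ∃ (K0 : Set X) (lab : X → ℕ → ℝ), MeasurableSet K0 ∧ μ K0 ≠ 0 ∧ Measurable lab ∧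
      (∀ y ∈ K0, y ∈ S.X0 ∧ q y ≤ q0) ∧ ∀ y ∈ K0, ∀ y' ∈ K0,
        (lab y = lab y' → S.R y y' ∧ S.N y y' ≤ r1) ∧
        (S.R y y' → S.N y y' ≤ r2 → lab y = lab y')

/-- Leafwise measures along the subrelation with slopes in `J`. -/
structure Leafwise (J : Set ℝ) where
  om : Kernel X X
  X1 : Set X
  lw : IsLeafwise μ S.aE (S.RJ J) S.N om X1
  sub1 : X1 ⊆ S.X0

/-- The leafwise measure read in the chart at `x`. -/
def Leafwise.nu {S : Pre X μ ι} {J : Set ℝ} (o : S.Leafwise J) (x : X) :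
    Measure (Matrix ι ι ℝ) := (o.om x).map (S.n x)

/-- `J` is cut in a lower part `J1` and an upper part `J2`. -/
structure Cut (J J1 J2 : Set ℝ) : Prop where
  oc : J.OrdConnected
  oc1 : J1.OrdConnected
  oc2 : J2.OrdConnected
  union : J = J1 ∪ J2
  lt : ∀ s ∈ J1, ∀ t ∈ J2, s < t

end Pre

/-- A leaf structure with tempered bounds and flow boxes. -/
structure LS (X : Type) [MeasurableSpace X] (μ : Measure X) (ι : Type) [Fintype ι]
    [DecidableEq ι] extends Pre X μ ι where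
  temp : ∀ ε : ℝ, 0 < ε → ∃ q, toPre.Temp ε q ∧ toPre.Bd q ∧ toPre.Box q

/-- The unstable leaf structure of an extension `π : X → B` of a homogeneous space: algebraic
part. The index set is the union of the indices of the group and of the fibre monomials `κ`. -/
structure GeoPre {G : Type} [Group G] [TopologicalSpace G] {n k : ℕ} (D : Std G n k) (B : Type)
    [TopologicalSpace B] [MeasurableSpace B] [MulAction G B] (X : Type) [MetricSpace X]
    [MeasurableSpace X] [MulAction G X] (μ : Measure X) (κ : Type) [Fintype κ] [DecidableEq κ]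
    extends Pre X μ (Fin n ⊕ κ) where
  Ha : Euc k
  Ph : Euc k
  om : Fin n ⊕ κ → Euc k
  om_inl : ∀ i, om (.inl i) = D.lam i
  wa_eq : ∀ i, w.wa i = ⟪om i, Ha⟫
  wb_eq : ∀ i, w.wb i = ⟪om i, Ph⟫
  g1 : ∀ i j, w.wa i = w.wa j → om i = om j
  g2 : ∀ i j i' j', w.wa j < w.wa i → w.wa j' < w.wa i' → w.slope i j = w.slope i' j' →
    om i - om j ∈ Std.cls (om i' - om j')
  g3 : ∀ i j i' j', w.wa i - w.wa j = w.wa i' - w.wa j' → om i - om j = om i' - om j'
  e0 : κ
  k1 : Finset κ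
  om_e0 : om (.inr e0) = 0
  wa_pos : ∀ m, m ≠ e0 → 0 < w.wa (.inr m)
  π : X → B
  π_cont : Continuous π
  π_smul : ∀ (g : G) x, π (g • x) = g • π x
  base : ∀ g : G, MeasurePreserving (fun b : B => g • b) (μ.map π) (μ.map π)
  f_eq : ∀ s x, f s x = D.a (s.1 • Ha + s.2 • Ph) • x
  Gen : Submonoid (Matrix (Fin n ⊕ κ) (Fin n ⊕ κ) ℝ)
  Gen_unit : ∀ T ∈ Gen, IsUnit T.det
  Gen_inv : ∀ T ∈ Gen, T⁻¹ ∈ Gen
  Gen_cl : ∀ T, IsUnit T.det → T ∈ closure (Gen : Set (Matrix (Fin n ⊕ κ) (Fin n ⊕ κ) ℝ)) → T ∈ Gen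
  Gen_blk : ∀ T ∈ Gen, T.toBlocks₁₂ = 0 ∧ T.toBlocks₂₁ = 0 ∧ T.toBlocks₁₁ ∈ range D.ρ
  Gen_e0 : ∀ T ∈ Gen, T (.inr e0) (.inr e0) = 1
  Gen_lie : ∀ V : Matrix (Fin n ⊕ κ) (Fin n ⊕ κ) ℝ,
    (∀ t : ℝ, exp (t • V) ∈ Gen ∧ w.Nil univ (exp (t • V))) → ∀ m ∉ k1, V (.inr m) (.inr e0) = 0
  dil_mem : ∀ s t, w.dil s t ∈ Gen
  T_mem : ∀ x y, R x y → T x y ∈ Gen
  L_mem : ∀ s, ∀ x ∈ X0, L s x ∈ Gen
  L_blk : ∀ s, ∀ x ∈ X0, (L s x).toBlocks₁₁ = D.ρ (D.a (s.1 • Ha + s.2 • Ph))
  P0 : ∀ x y, R x y → ∃ Y ∈ D.np Ha, (T x y).toBlocks₁₁ = exp (-Y) ∧ π y = D.ex Y • π x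
  P1 : ∀ x y y', R x y → R x y' → (∀ m, T x y (.inr m) (.inr e0) = T x y' (.inr m) (.inr e0)) →
    ∀ Y ∈ D.np Ha, (T x y').toBlocks₁₁ = (T x y).toBlocks₁₁ * exp Y → y' = D.ex (-Y) • y
  free : ∀ x ∈ X0, ∀ Y ∈ D.np Ha, D.ex Y • π x = π x → Y = 0
  inj : ∀ K : Set B, IsCompact K → ∃ W ∈ 𝓝 (1 : G), ∀ b ∈ K, ∀ g ∈ W, g • b = b → g = 1
  kap : ℝ
  kap' : ℝ
  Lp : ℝ
  kap_pos : 0 < kap
  kap_lt : kap < kap'
  G2a : ∀ x ∈ X0, ∀ y ∈ X0, ∀ K : ℝ,
    (∀ i : ℕ, dist (toPre.a (-i) x) (toPre.a (-i) y) ≤ K * Real.exp (-kap * i)) → R x y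
  lip : ∀ (i : ℤ) x y, dist (toPre.a i x) (toPre.a i y) ≤ Real.exp (Lp * |(i : ℝ)|) * dist x y
  cover : ∀ K : Set X, IsCompact K → ∃ C : ℝ, ∀ r : ℝ, 0 < r → r ≤ 1 →
    ∃ F : Finset X, (F.card : ℝ) ≤ C * r⁻¹ ^ C ∧ K ⊆ ⋃ z ∈ F, Metric.ball z r

section

variable {G : Type} [Group G] [TopologicalSpace G] {n k : ℕ} {D : Std G n k} {B : Type}
  [TopologicalSpace B] [MeasurableSpace B] [MulAction G B] {X : Type} [MetricSpace X]
  [MeasurableSpace X] [MulAction G X] {μ : Measure X} {κ : Type} [Fintype κ] [DecidableEq κ]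

/-- The metric estimates along orbits, with the tempered function `q`. -/
structure GeoPre.Est (S : GeoPre D B X μ κ) (ε : ℝ) (q : X → ℝ) : Prop where
  G1 : ∀ r : ℝ, ∃ K : ℝ, ∀ x y, S.R x y → S.toPre.N x y ≤ r → ∀ i : ℕ,
    dist (S.toPre.a (-i) x) (S.toPre.a (-i) y) ≤ K * q x * Real.exp (-S.kap' * i)
  G2c : ∀ x ∈ S.X0, ∀ y ∈ S.X0,
    (∀ i : ℕ, dist (S.toPre.a (-i) x) (S.toPre.a (-i) y) ≤ Real.exp (-S.kap * i) / q x) →
    ‖S.T x y‖ ≤ q x * q y ∧ ‖S.T y x‖ ≤ q x * q y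
  G3 : ∀ x ∈ S.X0, ∀ y, ∀ t : ℕ,
    (∀ i ≤ t, dist (S.toPre.a i x) (S.toPre.a i y) ≤ 1 / q (S.toPre.a i x)) → ∀ i ≤ t,
      dist (S.toPre.a i x) (S.toPre.a i y) ≤
        q (S.toPre.a t x) * Real.exp (-S.kap' * (t - i)) + q x * Real.exp (ε * t) * dist x y
  G7 : ∃ C : ℝ, ∀ x ∈ S.X0, ∀ y, ∀ t : ℕ,
    (∀ i ≤ t, dist (S.toPre.a i x) (S.toPre.a i y) ≤ 1 / q (S.toPre.a i x)) →
    ∃ Y ∈ D.g, S.π y = D.ex Y • S.π x ∧
      ∀ i ≤ t, ‖D.Ad (D.a S.Ha ^ i) Y‖ ≤ C * dist (S.toPre.a i x) (S.toPre.a i y)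

end

/-- The unstable leaf structure of an extension of a homogeneous space. -/
structure GeoLS {G : Type} [Group G] [TopologicalSpace G] {n k : ℕ} (D : Std G n k) (B : Type)
    [TopologicalSpace B] [MeasurableSpace B] [MulAction G B] (X : Type) [MetricSpace X]
    [MeasurableSpace X] [MulAction G X] (μ : Measure X) (κ : Type) [Fintype κ] [DecidableEq κ]
    extends GeoPre D B X μ κ where
  geo : ∀ ε : ℝ, 0 < ε → ∃ q, toPre.Temp ε q ∧ toGeoPre.Est ε q

end Pool.Agent.P.MP_d483fb_an.Z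

end

end

section

/-!
The leaf structure of an extension of a homogeneous space is a leaf structure: bounds for the
changes of charts and flow boxes follow from the metric estimates along orbits.
-/

open scoped Matrix Matrix.Norms.Operator Topology ENNReal
open MeasureTheory Filter Set

set_option linter.unusedSectionVars false
set_option linter.unusedVariables false

noncomputable section

namespace Pool.Agent.P.MP_d483fb_an.Z

namespace Geo

section Alg

variable {X : Type} [MeasurableSpace X] {μ : Measure X} {ι : Type} [Fintype ι] [DecidableEq ι]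
  (S : Pre X μ ι) {x y : X} {ε : ℝ} {q : X → ℝ}

theorem a_add (i j : ℤ) (x : X) : S.a (i + j) x = S.a i (S.a j x) := by
  unfold Pre.a
  rw [← S.f_add]
  simp

theorem a_zero (x : X) : S.a 0 x = x := by
  have e : ((((0 : ℤ) : ℝ), (0 : ℝ)) : ℝ × ℝ) = 0 := by simp
  unfold Pre.a
  rw [e, S.f_zero]

theorem a_comp {i j l : ℤ} (h : i + j = l) (x : X) : S.a i (S.a j x) = S.a l x := by
  rw [← a_add, h]

theorem a_mem (hx : x ∈ S.X0) (i : ℤ) : S.a i x ∈ S.X0 := S.inv0 _ _ hx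

theorem R_a (h : S.R x y) (i : ℤ) : S.R (S.a i x) (S.a i y) := S.R_f _ _ _ h

theorem R_mem' (h : S.R x y) : y ∈ S.X0 := S.R_mem _ _ (S.R_symm _ _ h)

theorem T_mul_T (h : S.R x y) : S.T x y * S.T y x = 1 := by
  rw [S.T_mul x y x h (S.R_symm _ _ h), S.T_self x (S.R_mem _ _ h)]

theorem T_unit (h : S.R x y) : IsUnit (S.T x y).det :=
  Matrix.isUnit_det_of_right_inverse (T_mul_T S h)

theorem T_inv (h : S.R x y) : (S.T x y)⁻¹ = S.T y x := Matrix.inv_eq_right_inv (T_mul_T S h)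

theorem L_unit (hx : x ∈ S.X0) (s : ℝ × ℝ) : IsUnit (S.L s x).det := by
  refine Matrix.isUnit_det_of_left_inverse (B := S.L (-s) (S.f s x)) ?_
  rw [← S.L_add _ _ _ hx, neg_add_cancel, S.L_zero _ hx]

theorem n_nil (h : S.R x y) : S.w.Nil univ (S.n x y) := (S.T_tri _ _ h).nil_nil (T_unit S h)

theorem T_a (h : S.R x y) (i : ℤ) :
    S.T (S.a i x) (S.a i y) = S.La i x * S.T x y * (S.La i y)⁻¹ := S.T_f _ _ _ h

theorem n_a (h : S.R x y) (i : ℤ) :
    S.n (S.a i x) (S.a i y) = S.La i x * S.n x y * (S.La i x)⁻¹ := by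
  unfold Pre.n
  rw [T_a S h]
  refine (S.T_tri _ _ h).nil_conj (S.L_lev _ _ (S.R_mem _ _ h)) (S.L_lev _ _ (R_mem' S h)).inv ?_
  exact Matrix.isUnit_nonsing_inv_det _ (L_unit S (R_mem' S h) _)

/-- A bound for all first weights. -/
def wt (w : Wt ι) : ℝ := ∑ i, |w.wa i|

theorem wt_nonneg (w : Wt ι) : 0 ≤ wt w := Finset.sum_nonneg fun _ _ => abs_nonneg _

theorem norm_dil (w : Wt ι) (s : ℝ) : ‖w.dil s 0‖ ≤ Real.exp (wt w * |s|) := by
  unfold Wt.dil
  rw [Matrix.linfty_opNorm_diagonal]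
  refine (pi_norm_le_iff_of_nonneg (Real.exp_pos _).le).2 fun i => ?_
  rw [Real.norm_eq_abs, abs_of_pos (Real.exp_pos _)]
  refine Real.exp_le_exp.2 ?_
  have h1 : |w.wa i| ≤ wt w :=
    Finset.single_le_sum (f := fun i => |w.wa i|) (fun _ _ => abs_nonneg _) (Finset.mem_univ i)
  have h2 : s * w.wa i ≤ |s| * |w.wa i| := (le_abs_self _).trans_eq (abs_mul _ _)
  have h3 := mul_le_mul_of_nonneg_left h1 (abs_nonneg s)
  nlinarith

theorem norm_pair (s : ℝ) : ‖((s, 0) : ℝ × ℝ)‖ = |s| := by simp [Prod.norm_def]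

variable {S}

theorem grow_a (hq : S.Temp ε q) (hx : x ∈ S.X0) (i : ℤ) :
    ‖S.La i x * S.w.dil (-(i : ℝ)) 0‖ ≤ q x * Real.exp (ε * |(i : ℝ)|) ∧
      ‖S.w.dil i 0 * (S.La i x)⁻¹‖ ≤ q x * Real.exp (ε * |(i : ℝ)|) := by
  have h := hq.grow x hx ((i : ℝ), 0)
  rw [norm_pair] at h
  simpa [Pre.La] using h

theorem norm_La (hq : S.Temp ε q) (hx : x ∈ S.X0) (i : ℤ) :
    ‖S.La i x‖ ≤ q x * Real.exp ((ε + wt S.w) * |(i : ℝ)|) ∧
      ‖(S.La i x)⁻¹‖ ≤ q x * Real.exp ((ε + wt S.w) * |(i : ℝ)|) := by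
  obtain ⟨h1, h2⟩ := grow_a hq hx i
  have e : S.w.dil (-(i : ℝ)) 0 * S.w.dil i 0 = 1 := by simpa using S.w.dil_neg_mul i 0
  have hq0 : 0 ≤ q x * Real.exp (ε * |(i : ℝ)|) := (norm_nonneg _).trans h1
  have e2 : q x * Real.exp ((ε + wt S.w) * |(i : ℝ)|) =
      q x * Real.exp (ε * |(i : ℝ)|) * Real.exp (wt S.w * |(i : ℝ)|) := by
    rw [add_mul, Real.exp_add, mul_assoc]
  rw [e2]
  constructor
  · have : S.La i x = S.La i x * S.w.dil (-(i : ℝ)) 0 * S.w.dil i 0 := by
      rw [mul_assoc, e, mul_one]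
    rw [this]
    exact (norm_mul_le _ _).trans (mul_le_mul h1 (norm_dil _ _) (norm_nonneg _) hq0)
  · have : (S.La i x)⁻¹ = S.w.dil (-(i : ℝ)) 0 * (S.w.dil i 0 * (S.La i x)⁻¹) := by
      rw [← mul_assoc, e, one_mul]
    rw [this, mul_comm (q x * _)]
    have h3 := norm_dil S.w (-(i : ℝ))
    rw [abs_neg] at h3
    exact (norm_mul_le _ _).trans (mul_le_mul h3 h2 (norm_nonneg _) (Real.exp_pos _).le)

theorem N_le_of_T (h : S.R x y) {B : ℝ} (hB : 1 ≤ B) (h1 : ‖S.T x y‖ ≤ B) (h2 : ‖S.T y x‖ ≤ B) :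
    S.N x y ≤ (B * B) ^ S.w.gi := by
  refine Wt.N_le_of_norm (one_le_mul_of_one_le_of_one_le hB hB) ?_
  unfold Pre.n Wt.nil
  rw [← (S.T_tri _ _ h).lev_inv (T_unit S h), T_inv S h]
  exact (norm_mul_le _ _).trans
    (mul_le_mul h1 ((S.w.norm_lev_le _).trans h2) (norm_nonneg _) (by linarith))

/-- The gauge after `i` steps. -/
theorem N_a (hq : S.Temp ε q) (hε : 0 ≤ ε) (h : S.R x y) (i : ℤ) :
    S.N (S.a i x) (S.a i y) ≤
      S.w.C * (q x * Real.exp (ε * |(i : ℝ)|)) ^ S.w.C * (Real.exp i * S.N x y) := by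
  have hx := S.R_mem _ _ h
  obtain ⟨h1, h2⟩ := grow_a hq hx i
  have e : S.w.dil (-(i : ℝ)) 0 * S.w.dil i 0 = 1 := by simpa using S.w.dil_neg_mul i 0
  have e1 : S.n (S.a i x) (S.a i y) = (S.La i x * S.w.dil (-(i : ℝ)) 0) *
      (S.w.dil i 0 * S.n x y * S.w.dil (-(i : ℝ)) 0) * (S.w.dil i 0 * (S.La i x)⁻¹) := by
    rw [n_a S h]
    simp only [mul_assoc]
    rw [← mul_assoc (S.w.dil (-(i : ℝ)) 0) (S.w.dil i 0) (S.n x y * _), e, one_mul,
      ← mul_assoc (S.w.dil (-(i : ℝ)) 0) (S.w.dil i 0), e, one_mul]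
  have hn : S.w.Nil univ (S.w.dil i 0 * S.n x y * S.w.dil (-(i : ℝ)) 0) := by
    simpa using (n_nil S h).dil_conj (i : ℝ) 0
  have hl : S.w.Lev (S.La i x) := S.L_lev _ _ hx
  have hB : 1 ≤ q x * Real.exp (ε * |(i : ℝ)|) :=
    one_le_mul_of_one_le_of_one_le (hq.one_le x) (Real.one_le_exp (by positivity))
  unfold Pre.N
  rw [e1, ← Wt.N_dil]
  exact hn.N_conj_le (hl.mul (S.w.dil_lev _ _)) ((S.w.dil_lev _ _).mul hl.inv) hB h1 h2

theorem temp_pow (hq : S.Temp ε q) (hε : 0 ≤ ε) {C ε' : ℝ} {p : ℕ} (hC : 1 ≤ C) (hp : 1 ≤ p)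
    (h : p * ε ≤ ε') : S.Temp ε' fun x => C * q x ^ p := by
  have hp' : (1 : ℝ) ≤ p := by exact_mod_cast hp
  have hεε : ε ≤ ε' := le_trans (le_mul_of_one_le_left hε hp') h
  have q0 : ∀ x, 0 ≤ q x := fun x => zero_le_one.trans (hq.one_le x)
  have hle : ∀ x, q x ≤ C * q x ^ p := fun x =>
    (le_self_pow₀ (hq.one_le x) (by omega)).trans
      (le_mul_of_one_le_left (pow_nonneg (q0 x) _) hC)
  have key : ∀ (u v c t : ℝ), 0 ≤ u → 0 ≤ v → 0 ≤ c → 0 ≤ t → u ≤ c * v * Real.exp (ε * t) →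
      C * u ^ p ≤ c ^ p * (C * v ^ p) * Real.exp (ε' * t) := by
    intro u v c t hu hv hc ht huv
    have h1 := pow_le_pow_left₀ hu huv p
    rw [mul_pow, mul_pow, ← Real.exp_nat_mul] at h1
    have h2 : Real.exp (p * (ε * t)) ≤ Real.exp (ε' * t) :=
      Real.exp_le_exp.2 (by rw [← mul_assoc]; exact mul_le_mul_of_nonneg_right h ht)
    have h3 := h1.trans (mul_le_mul_of_nonneg_left h2 (by positivity))
    calc C * u ^ p ≤ C * (c ^ p * v ^ p * Real.exp (ε' * t)) :=
          mul_le_mul_of_nonneg_left h3 (by linarith)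
      _ = _ := by ring
  refine ⟨(hq.meas.pow_const p).const_mul C, fun x => (hq.one_le x).trans (hle x),
    fun x hx i => ?_, ?_, fun x hx s => ?_⟩
  · have := key _ _ 1 _ (q0 _) (q0 x) zero_le_one (abs_nonneg (i : ℝ))
      (by rw [one_mul]; exact hq.slow x hx i)
    simpa using this
  · obtain ⟨c, hc⟩ := hq.slowC
    refine ⟨|c| ^ p, fun x hx s => key _ _ _ _ (q0 _) (q0 x) (abs_nonneg c) (norm_nonneg s) ?_⟩
    exact (hc x hx s).trans (mul_le_mul_of_nonneg_right
      (mul_le_mul_of_nonneg_right (le_abs_self c) (q0 x)) (Real.exp_pos _).le)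
  · have h2 : q x * Real.exp (ε * ‖s‖) ≤ C * q x ^ p * Real.exp (ε' * ‖s‖) :=
      mul_le_mul (hle x) (Real.exp_le_exp.2 (mul_le_mul_of_nonneg_right hεε (norm_nonneg s)))
        (Real.exp_pos _).le ((q0 x).trans (hle x))
    exact ⟨(hq.grow x hx s).1.trans h2, (hq.grow x hx s).2.trans h2⟩

theorem temp_mono (hq : S.Temp ε q) (hε : 0 ≤ ε) {ε' : ℝ} (h : ε ≤ ε') : S.Temp ε' q := by
  simpa using temp_pow hq hε (C := 1) (p := 1) (ε' := ε') le_rfl le_rfl (by simpa using h)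

end Alg

section Met

variable {G : Type} [Group G] [TopologicalSpace G] {n k : ℕ} {D : Std G n k} {B : Type}
  [TopologicalSpace B] [MeasurableSpace B] [MulAction G B] {X : Type} [MetricSpace X]
  [MeasurableSpace X] [MulAction G X] {μ : Measure X} {κ : Type} [Fintype κ] [DecidableEq κ]
  {S : GeoPre D B X μ κ} {x y : X} {ε : ℝ} {q : X → ℝ}

/-- The backward orbits approach each other at the rate `c` with the constant `K`. -/
def Sh (S : GeoPre D B X μ κ) (c K : ℝ) (x y : X) : Prop :=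
  ∀ i : ℕ, dist (S.toPre.a (-i) x) (S.toPre.a (-i) y) ≤ K * Real.exp (-c * i)

theorem est_mono (h : S.Est ε q) (h1 : ∀ x, 1 ≤ q x) {ε' : ℝ} {q' : X → ℝ} (hε : ε ≤ ε')
    (hq : ∀ x, q x ≤ q' x) : S.Est ε' q' := by
  have q0 : ∀ x, 0 < q x := fun x => one_pos.trans_le (h1 x)
  have hi : ∀ x, 1 / q' x ≤ 1 / q x := fun x => one_div_le_one_div_of_le (q0 x) (hq x)
  refine ⟨fun r => ?_, fun x hx y hy hs => ?_, fun x hx y t ht i hit => ?_, ?_⟩
  · obtain ⟨K, hK⟩ := h.G1 r
    refine ⟨|K|, fun x y hR hN i => (hK x y hR hN i).trans ?_⟩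
    exact mul_le_mul_of_nonneg_right (mul_le_mul (le_abs_self K) (hq x) (q0 x).le (abs_nonneg K))
      (Real.exp_pos _).le
  · have h2 := h.G2c x hx y hy fun i => (hs i).trans
      (div_le_div_of_nonneg_left (Real.exp_pos _).le (q0 x) (hq x))
    have h3 : q x * q y ≤ q' x * q' y := mul_le_mul (hq x) (hq y) (q0 y).le ((q0 x).le.trans (hq x))
    exact ⟨h2.1.trans h3, h2.2.trans h3⟩
  · refine (h.G3 x hx y t (fun i hi' => (ht i hi').trans (hi _)) i hit).trans (add_le_add ?_ ?_)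
    · exact mul_le_mul_of_nonneg_right (hq _) (Real.exp_pos _).le
    · refine mul_le_mul_of_nonneg_right (mul_le_mul (hq x) (Real.exp_le_exp.2 ?_)
        (Real.exp_pos _).le ((q0 x).le.trans (hq x))) dist_nonneg
      exact mul_le_mul_of_nonneg_right hε (Nat.cast_nonneg t)
  · obtain ⟨C, hC⟩ := h.G7
    exact ⟨C, fun x hx y t ht => hC x hx y t fun i hi' => (ht i hi').trans (hi _)⟩

theorem slow_nat (hq : S.toPre.Temp ε q) (hx : x ∈ S.X0) (m : ℕ) :
    q (S.toPre.a m x) ≤ q x * Real.exp (ε * m) ∧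
      q (S.toPre.a (-m) x) ≤ q x * Real.exp (ε * m) := by
  have h1 := hq.slow x hx m
  have h2 := hq.slow x hx (-m)
  simp only [Int.cast_neg, Int.cast_natCast, abs_neg, Nat.abs_cast] at h1 h2
  exact ⟨h1, h2⟩

theorem exp_lim {c : ℝ} (hc : 0 < c) (K : ℝ) :
    Tendsto (fun m : ℕ => K * Real.exp (-c * m)) atTop (𝓝 0) := by
  have h : Tendsto (fun m : ℕ => -c * (m : ℝ)) atTop atBot :=
    tendsto_natCast_atTop_atTop.const_mul_atTop_of_neg (by linarith)
  simpa using (Real.tendsto_exp_atBot.comp h).const_mul K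

theorem exists_nat_exp {c : ℝ} (hc : 0 < c) (K : ℝ) {r : ℝ} (hr : 0 < r) :
    ∃ m0 : ℕ, ∀ m ≥ m0, K * Real.exp (-c * m) ≤ r :=
  eventually_atTop.1 ((exp_lim hc K).eventually (ge_mem_nhds hr))

/-- Close backward orbits approach each other at the better rate. -/
theorem upgrade (hq : S.toPre.Temp ε q) (hE : S.Est ε q) (hε : 2 * ε < S.kap) (hx : x ∈ S.X0)
    {K : ℝ} (hs : Sh S S.kap K x y)
    (hc : ∀ j : ℕ, dist (S.toPre.a (-j) x) (S.toPre.a (-j) y) ≤ 1 / q (S.toPre.a (-j) x)) :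
    Sh S S.kap' (q x) x y := by
  intro j
  have hl := (exp_lim (c := S.kap - 2 * ε) (by linarith) (q x * K)).const_add
    (q x * Real.exp (-S.kap' * j))
  rw [add_zero] at hl
  refine ge_of_tendsto hl (eventually_atTop.2 ⟨j, fun m hm => ?_⟩)
  have e : ∀ i ≤ m, ∀ z, S.toPre.a (i : ℕ) (S.toPre.a (-m) z) = S.toPre.a (-((m - i : ℕ) : ℤ)) z :=
    fun i hi z => a_comp _ (by omega) z
  have h3 := hE.G3 _ (a_mem _ hx (-m)) (S.toPre.a (-m) y) m (fun i hi => by
    rw [e i hi, e i hi]; exact hc _) (m - j) (Nat.sub_le _ _)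
  rw [e _ (Nat.sub_le _ _), e _ (Nat.sub_le _ _), e m le_rfl, Nat.sub_sub_self hm, Nat.sub_self,
    Nat.cast_sub hm] at h3
  simp only [Nat.cast_zero, neg_zero, a_zero, sub_sub_cancel] at h3
  refine h3.trans (add_le_add le_rfl ?_)
  have h4 := (slow_nat hq hx m).2
  have h5 := hs m
  have q0 : 0 ≤ q x := zero_le_one.trans (hq.one_le x)
  calc q (S.toPre.a (-m) x) * Real.exp (ε * m) * dist (S.toPre.a (-m) x) (S.toPre.a (-m) y)
      ≤ q x * Real.exp (ε * m) * Real.exp (ε * m) * (K * Real.exp (-S.kap * m)) :=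
        mul_le_mul (mul_le_mul_of_nonneg_right h4 (Real.exp_pos _).le) h5 dist_nonneg
          (by positivity)
    _ = q x * K * Real.exp (-(S.kap - 2 * ε) * m) := by
        rw [show -(S.kap - 2 * ε) * (m : ℝ) = ε * m + ε * m + -S.kap * m by ring, Real.exp_add,
          Real.exp_add]
        ring

theorem lip' (S : GeoPre D B X μ κ) (i : ℤ) {m : ℕ} (h : |(i : ℝ)| ≤ m) (x y : X) :
    dist (S.toPre.a i x) (S.toPre.a i y) ≤ Real.exp (|S.Lp| * m) * dist x y := by
  refine (S.lip i x y).trans (mul_le_mul_of_nonneg_right (Real.exp_le_exp.2 ?_) dist_nonneg)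
  exact mul_le_mul (le_abs_self _) h (abs_nonneg _) (abs_nonneg _)

theorem exists_upgrade (hq : S.toPre.Temp ε q) (hE : S.Est ε q) (hε0 : 0 ≤ ε)
    (hε : 2 * ε < S.kap) (q0 K : ℝ) : ∃ η, 0 < η ∧ ∀ x ∈ S.X0, ∀ y, q x ≤ q0 → Sh S S.kap K x y →
      dist x y ≤ η → Sh S S.kap' q0 x y := by
  obtain ⟨m0, hm0⟩ := exists_nat_exp (c := S.kap - ε) (by linarith) (K * q0) one_pos
  refine ⟨Real.exp (-(|S.Lp| + ε) * m0) / max q0 1, by positivity, fun x hx y h0 hs hd j => ?_⟩
  have q1 : 1 ≤ q0 := (hq.one_le x).trans h0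
  rw [max_eq_left q1] at hd
  refine (upgrade hq hE hε hx hs (fun i => ?_) j).trans
    (mul_le_mul_of_nonneg_right h0 (Real.exp_pos _).le)
  have h4 : q (S.toPre.a (-i) x) ≤ q0 * Real.exp (ε * i) :=
    (slow_nat hq hx i).2.trans (mul_le_mul_of_nonneg_right h0 (Real.exp_pos _).le)
  refine le_trans ?_ (one_div_le_one_div_of_le (one_pos.trans_le (hq.one_le _)) h4)
  rw [le_div_iff₀ (by positivity)]
  rcases le_total m0 i with hi | hi
  · refine le_trans (mul_le_mul_of_nonneg_right (hs i) (by positivity)) (le_trans (le_of_eq ?_)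
      (hm0 i hi))
    rw [show -(S.kap - ε) * (i : ℝ) = -S.kap * i + ε * i by ring, Real.exp_add]
    ring
  · have hi' : (i : ℝ) ≤ m0 := by exact_mod_cast hi
    have h5 := (lip' S (-i) (m := m0) (by simpa using hi') x y).trans
      (mul_le_mul_of_nonneg_left hd (Real.exp_pos _).le)
    refine (mul_le_mul_of_nonneg_right h5 (by positivity)).trans ?_
    have e : Real.exp (|S.Lp| * m0) * (Real.exp (-(|S.Lp| + ε) * m0) / q0) *
        (q0 * Real.exp (ε * i)) = Real.exp (ε * i - ε * m0) := by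
      rw [show ε * (i : ℝ) - ε * m0 = |S.Lp| * m0 + -(|S.Lp| + ε) * m0 + ε * i by ring,
        Real.exp_add, Real.exp_add]
      field_simp
    rw [e]
    exact Real.exp_le_one_iff.2 (by nlinarith)

/-- Close points of a leaf whose backward orbits stay close have a small gauge. -/
theorem exists_N_le (hq : S.toPre.Temp ε q) (hE : S.Est ε q) (hε0 : 0 ≤ ε)
    (hε : ε * (2 * S.w.C + 4 * S.w.gi) < 1) (q0 : ℝ) {r : ℝ} (hr : 0 < r) :
    ∃ η, 0 < η ∧ ∀ x ∈ S.X0, ∀ y ∈ S.X0, q x ≤ q0 → q y ≤ q0 → S.R x y → Sh S S.kap' q0 x y →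
      dist x y ≤ η → S.toPre.N x y ≤ r := by
  obtain ⟨t, ht⟩ := exists_nat_exp (c := 1 - ε * (2 * S.w.C + 4 * S.w.gi)) (by linarith)
    (S.w.C * q0 ^ S.w.C * (q0 ^ 4) ^ S.w.gi) hr
  obtain ⟨m0, hm0⟩ := exists_nat_exp (c := S.kap' - S.kap) (by linarith [S.kap_lt])
    (q0 * q0 * Real.exp ((ε + S.kap') * t)) one_pos
  refine ⟨Real.exp (-(|S.Lp| * (t + (m0 + t) : ℕ)) - S.kap * (m0 + t) - ε * t) / max q0 1,
    by positivity, fun x hx y hy h0 h0' hR hs hd => ?_⟩
  have q1 : 1 ≤ q0 := (hq.one_le x).trans h0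
  rw [max_eq_left q1] at hd
  have hQ : ∀ z ∈ S.X0, q z ≤ q0 → q (S.toPre.a t z) ≤ q0 * Real.exp (ε * t) := fun z hz h =>
    (slow_nat hq hz t).1.trans (mul_le_mul_of_nonneg_right h (Real.exp_pos _).le)
  have hQ1 : 1 ≤ q0 * Real.exp (ε * t) := (hq.one_le _).trans (hQ x hx h0)
  have h2 := hE.G2c _ (a_mem _ hx t) _ (a_mem _ hy t) fun i => by
    refine le_trans ?_ (div_le_div_of_nonneg_left (Real.exp_pos _).le
      (one_pos.trans_le (hq.one_le _)) (hQ x hx h0))
    rw [le_div_iff₀ (by positivity)]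
    rcases le_total (m0 + t) i with hi | hi
    · have e : ∀ z, S.toPre.a (-i) (S.toPre.a t z) = S.toPre.a (-((i - t : ℕ) : ℤ)) z :=
        fun z => a_comp _ (by omega) z
      rw [e, e]
      refine (mul_le_mul_of_nonneg_right (hs (i - t)) (by positivity)).trans ?_
      have h3 := mul_le_mul_of_nonneg_right (hm0 i (by omega)) (Real.exp_pos (-S.kap * i)).le
      rw [one_mul] at h3
      refine le_trans (le_of_eq ?_) h3
      rw [Nat.cast_sub (by omega), mul_assoc (q0 * q0 * _), mul_assoc (q0 * q0), ← Real.exp_add,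
        ← Real.exp_add, show (ε + S.kap') * (t : ℝ) + (-(S.kap' - S.kap) * i + -S.kap * i) =
          -S.kap' * (i - t) + ε * t by ring, Real.exp_add]
      ring
    · have hi' : (i : ℝ) ≤ m0 + t := by exact_mod_cast hi
      rw [a_comp _ rfl, a_comp _ rfl]
      have h5 := (lip' S (-i + t) (m := t + (m0 + t)) (by
        push_cast
        have : (0 : ℝ) ≤ i := Nat.cast_nonneg i
        have : (0 : ℝ) ≤ t := Nat.cast_nonneg t
        have : (0 : ℝ) ≤ m0 := Nat.cast_nonneg m0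
        exact abs_le.2 ⟨by linarith, by linarith⟩) x y).trans
        (mul_le_mul_of_nonneg_left hd (Real.exp_pos _).le)
      refine (mul_le_mul_of_nonneg_right h5 (by positivity)).trans ?_
      have e : Real.exp (|S.Lp| * (t + (m0 + t) : ℕ)) * (Real.exp (-(|S.Lp| * (t + (m0 + t) : ℕ)) -
          S.kap * (m0 + t) - ε * t) / q0) * (q0 * Real.exp (ε * t)) =
          Real.exp (-S.kap * (m0 + t)) := by
        rw [show -S.kap * ((m0 : ℝ) + t) = |S.Lp| * (t + (m0 + t) : ℕ) + (-(|S.Lp| *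
          (t + (m0 + t) : ℕ)) - S.kap * (m0 + t) - ε * t) + ε * t by ring, Real.exp_add,
          Real.exp_add]
        field_simp
      rw [e]
      exact Real.exp_le_exp.2 (by nlinarith [S.kap_pos])
  have hQQ : q (S.toPre.a t x) * q (S.toPre.a t y) ≤ q0 * Real.exp (ε * t) * (q0 * Real.exp (ε * t)) :=
    mul_le_mul (hQ x hx h0) (hQ y hy h0') (zero_le_one.trans (hq.one_le _)) (by positivity)
  have h3 := N_le_of_T (R_a S.toPre hR t) (one_le_mul_of_one_le_of_one_le hQ1 hQ1)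
    (h2.1.trans hQQ) (h2.2.trans hQQ)
  have h4 := N_a hq hε0 (R_a S.toPre hR t) (-t)
  rw [a_comp _ (neg_add_cancel _), a_comp _ (neg_add_cancel _), a_zero, a_zero] at h4
  simp only [Int.cast_neg, Int.cast_natCast, abs_neg, Nat.abs_cast] at h4
  refine h4.trans (le_trans ?_ (ht t le_rfl))
  have h5 : (q (S.toPre.a t x) * Real.exp (ε * t)) ^ S.w.C ≤
      q0 ^ S.w.C * Real.exp (2 * ε * t * S.w.C) := by
    rw [Real.exp_mul (2 * ε * t), ← Real.mul_rpow (by positivity) (by positivity)]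
    refine Real.rpow_le_rpow (mul_nonneg (zero_le_one.trans (hq.one_le _)) (by positivity)) ?_
      S.w.C_pos.le
    refine (mul_le_mul_of_nonneg_right (hQ x hx h0) (by positivity)).trans (le_of_eq ?_)
    rw [mul_assoc, ← Real.exp_add]
    congr 2
    ring
  have h6 : (q0 * Real.exp (ε * t) * (q0 * Real.exp (ε * t)) *
      (q0 * Real.exp (ε * t) * (q0 * Real.exp (ε * t)))) ^ S.w.gi =
      (q0 ^ 4) ^ S.w.gi * Real.exp (4 * ε * t * S.w.gi) := by
    rw [Real.exp_mul (4 * ε * t), ← Real.mul_rpow (by positivity) (by positivity)]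
    congr 1
    rw [show 4 * ε * (t : ℝ) = ε * t + ε * t + ε * t + ε * t by ring, Real.exp_add, Real.exp_add,
      Real.exp_add]
    ring
  rw [h6] at h3
  have hC := S.w.C_pos
  calc S.w.C * (q (S.toPre.a t x) * Real.exp (ε * t)) ^ S.w.C *
        (Real.exp (-(t : ℝ)) * S.toPre.N (S.toPre.a t x) (S.toPre.a t y))
      ≤ S.w.C * (q0 ^ S.w.C * Real.exp (2 * ε * t * S.w.C)) *
        (Real.exp (-(t : ℝ)) * ((q0 ^ 4) ^ S.w.gi * Real.exp (4 * ε * t * S.w.gi))) :=
        mul_le_mul (mul_le_mul_of_nonneg_left h5 hC.le)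
          (mul_le_mul_of_nonneg_left h3 (Real.exp_pos _).le)
          (mul_nonneg (Real.exp_pos _).le (S.w.N_nonneg _)) (by positivity)
    _ = _ := by
        rw [show -(1 - ε * (2 * S.w.C + 4 * S.w.gi)) * (t : ℝ) =
          2 * ε * t * S.w.C + -(t : ℝ) + 4 * ε * t * S.w.gi by ring, Real.exp_add, Real.exp_add]
        ring

theorem exists_bd (S : GeoPre D B X μ κ) : ∃ p : ℕ, 1 ≤ p ∧ ∀ (ε : ℝ) (q : X → ℝ), 0 ≤ ε →
    ε ≤ 1 → 2 * ε ≤ S.kap' → S.toPre.Temp ε q → S.Est ε q →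
    ∃ C, 1 ≤ C ∧ S.toPre.Bd fun x => C * q x ^ p := by
  have hk : 0 < S.kap' := S.kap_pos.trans S.kap_lt
  have hW := wt_nonneg S.w
  obtain ⟨p, hp⟩ := exists_nat_ge (2 * (6 + 2 * wt S.w) / S.kap')
  refine ⟨2 + 2 * p, by omega, fun ε q hε0 hε1 hε hq hE => ?_⟩
  obtain ⟨K0, hK0⟩ := hE.G1 1
  obtain ⟨K, hK1, hK⟩ : ∃ K, 1 ≤ K ∧ K0 ≤ K := ⟨max 1 K0, le_max_left _ _, le_max_right _ _⟩
  have hC : 1 ≤ Real.exp (6 + 2 * wt S.w) * K ^ p :=
    one_le_mul_of_one_le_of_one_le (Real.one_le_exp (by positivity)) (one_le_pow₀ hK1)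
  refine ⟨_, hC, fun x y hR hN => ?_⟩
  have hx := S.R_mem _ _ hR
  have hy := R_mem' _ hR
  have q1 := hq.one_le
  have q0 : ∀ x, 0 < q x := fun x => one_pos.trans_le (q1 x)
  have hu1 : 1 ≤ K * q x ^ 2 := one_le_mul_of_one_le_of_one_le hK1 (one_le_pow₀ (q1 x))
  have hl0 : 0 ≤ Real.log (K * q x ^ 2) := Real.log_nonneg hu1
  obtain ⟨m, hm1, hm2⟩ : ∃ m : ℕ, 2 * Real.log (K * q x ^ 2) / S.kap' ≤ m ∧
      (m : ℝ) ≤ 2 * Real.log (K * q x ^ 2) / S.kap' + 1 :=
    ⟨_, Nat.le_ceil _, (Nat.ceil_lt_add_one (by positivity)).le⟩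
  have hm0 : (0 : ℝ) ≤ m := Nat.cast_nonneg m
  have hm3 : K * q x ^ 2 ≤ Real.exp ((S.kap' - ε) * m) := by
    rw [← Real.log_le_iff_le_exp (by positivity)]
    rw [div_le_iff₀ hk] at hm1
    nlinarith
  have hm4 : Real.exp ((6 + 2 * wt S.w) * m) ≤
      Real.exp (6 + 2 * wt S.w) * K ^ p * q x ^ (2 * p) := by
    rw [mul_assoc, pow_mul, ← mul_pow, ← Real.exp_log (x := K * q x ^ 2) (by positivity),
      ← Real.exp_nat_mul, ← Real.exp_add]
    refine Real.exp_le_exp.2 ?_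
    have h1 := mul_le_mul_of_nonneg_left hm2 (show 0 ≤ 6 + 2 * wt S.w by positivity)
    have h2 := mul_le_mul_of_nonneg_right hp hl0
    have e : (6 + 2 * wt S.w) * (2 * Real.log (K * q x ^ 2) / S.kap' + 1) =
        2 * (6 + 2 * wt S.w) / S.kap' * Real.log (K * q x ^ 2) + (6 + 2 * wt S.w) := by ring
    linarith
  have hx' := (slow_nat hq hx m).2
  have hy' := (slow_nat hq hy m).2
  have h2 := hE.G2c _ (a_mem _ hx (-m)) _ (a_mem _ hy (-m)) fun i => by
    have e : ∀ z, S.toPre.a (-i) (S.toPre.a (-m) z) = S.toPre.a (-((i + m : ℕ) : ℤ)) z :=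
      fun z => a_comp _ (by push_cast; ring) z
    rw [e, e]
    refine (hK0 x y hR hN (i + m)).trans (le_trans ?_
      (div_le_div_of_nonneg_left (Real.exp_pos _).le (q0 _) hx'))
    rw [le_div_iff₀ (mul_pos (q0 x) (Real.exp_pos _))]
    have h3 : Real.exp (-S.kap' * (i + m : ℕ)) * Real.exp (ε * m) * Real.exp ((S.kap' - ε) * m) ≤
        Real.exp (-S.kap * i) := by
      rw [← Real.exp_add, ← Real.exp_add]
      refine Real.exp_le_exp.2 ?_
      push_cast
      have := mul_le_mul_of_nonneg_right S.kap_lt.le (Nat.cast_nonneg (α := ℝ) i)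
      nlinarith
    have h4 := mul_le_mul_of_nonneg_left hm3
      (show 0 ≤ Real.exp (-S.kap' * (i + m : ℕ)) * Real.exp (ε * m) by positivity)
    have h5 : K0 * (q x * Real.exp (-S.kap' * (i + m : ℕ)) * (q x * Real.exp (ε * m))) ≤
        K * (q x * Real.exp (-S.kap' * (i + m : ℕ)) * (q x * Real.exp (ε * m))) :=
      mul_le_mul_of_nonneg_right hK (by have := q0 x; positivity)
    calc K0 * q x * Real.exp (-S.kap' * (i + m : ℕ)) * (q x * Real.exp (ε * m))
        = K0 * (q x * Real.exp (-S.kap' * (i + m : ℕ)) * (q x * Real.exp (ε * m))) := by ring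
      _ ≤ _ := h5
      _ = Real.exp (-S.kap' * (i + m : ℕ)) * Real.exp (ε * m) * (K * q x ^ 2) := by ring
      _ ≤ _ := h4.trans h3
  have key : ∀ u v, S.R u v → q (S.toPre.a (-m) u) * q (S.toPre.a (-m) v) =
      q (S.toPre.a (-m) x) * q (S.toPre.a (-m) y) →
      ‖S.T (S.toPre.a (-m) u) (S.toPre.a (-m) v)‖ ≤ q (S.toPre.a (-m) x) * q (S.toPre.a (-m) y) →
      ‖S.T u v‖ ≤ Real.exp (6 + 2 * wt S.w) * K ^ p * q x ^ (2 + 2 * p) *
        (Real.exp (6 + 2 * wt S.w) * K ^ p * q y ^ (2 + 2 * p)) := by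
    intro u v huv e1 h3
    have h4 := T_a S.toPre (R_a S.toPre huv (-m)) m
    rw [a_comp _ (add_neg_cancel _), a_comp _ (add_neg_cancel _), a_zero, a_zero] at h4
    have h5 := (norm_La hq (a_mem _ (S.R_mem _ _ huv) (-m)) m).1
    have h6 := (norm_La hq (a_mem _ (R_mem' _ huv) (-m)) m).2
    simp only [Int.cast_natCast, Nat.abs_cast] at h5 h6
    have h7 : q (S.toPre.a (-m) x) * q (S.toPre.a (-m) y) ≤
        q x * Real.exp (ε * m) * (q y * Real.exp (ε * m)) :=
      mul_le_mul hx' hy' (q0 _).le ((q0 _).le.trans hx')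
    have h8 : Real.exp ((ε + wt S.w) * m) ^ 2 * Real.exp (ε * m) ^ 4 ≤
        Real.exp ((6 + 2 * wt S.w) * m) := by
      rw [← Real.exp_nat_mul, ← Real.exp_nat_mul, ← Real.exp_add]
      refine Real.exp_le_exp.2 ?_
      push_cast
      nlinarith
    have h9 : q y ^ 2 ≤ Real.exp (6 + 2 * wt S.w) * K ^ p * q y ^ (2 + 2 * p) :=
      (pow_le_pow_right₀ (q1 y) (by omega)).trans
        (le_mul_of_one_le_left (pow_nonneg (q0 y).le _) hC)
    have hqu := q0 (S.toPre.a (-m) u)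
    have hqx := q0 (S.toPre.a (-m) x)
    have hqy := q0 (S.toPre.a (-m) y)
    have hqx0 := q0 x
    have hqy0 := q0 y
    rw [h4]
    calc _ ≤ q (S.toPre.a (-m) u) * Real.exp ((ε + wt S.w) * m) *
          (q (S.toPre.a (-m) x) * q (S.toPre.a (-m) y)) *
          (q (S.toPre.a (-m) v) * Real.exp ((ε + wt S.w) * m)) :=
          (norm_mul_le _ _).trans (mul_le_mul ((norm_mul_le _ _).trans
            (mul_le_mul h5 h3 (norm_nonneg _) (by positivity))) h6 (norm_nonneg _) (by positivity))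
      _ = (q (S.toPre.a (-m) u) * q (S.toPre.a (-m) v)) *
          (q (S.toPre.a (-m) x) * q (S.toPre.a (-m) y)) * Real.exp ((ε + wt S.w) * m) ^ 2 := by ring
      _ ≤ (q x * Real.exp (ε * m) * (q y * Real.exp (ε * m))) *
          (q x * Real.exp (ε * m) * (q y * Real.exp (ε * m))) *
          Real.exp ((ε + wt S.w) * m) ^ 2 := by
          rw [e1]
          exact mul_le_mul_of_nonneg_right (mul_le_mul h7 h7 (by positivity) (by positivity))
            (by positivity)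
      _ = q x ^ 2 * (Real.exp ((ε + wt S.w) * m) ^ 2 * Real.exp (ε * m) ^ 4) * q y ^ 2 := by ring
      _ ≤ q x ^ 2 * (Real.exp (6 + 2 * wt S.w) * K ^ p * q x ^ (2 * p)) *
          (Real.exp (6 + 2 * wt S.w) * K ^ p * q y ^ (2 + 2 * p)) :=
          mul_le_mul (mul_le_mul_of_nonneg_left (h8.trans hm4) (by positivity)) h9 (by positivity)
            (by positivity)
      _ = _ := by ring
  exact ⟨key x y hR rfl h2.1, key y x (S.R_symm _ _ hR) (mul_comm _ _) h2.2⟩

/-- Compact flow boxes whose plaques are described by the backward orbits. -/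
def BoxG (S : GeoPre D B X μ κ) (q : X → ℝ) : Prop :=
  ∀ (q0 : ℝ) (A : Set X), MeasurableSet A → A ⊆ {x | q x ≤ q0} → μ A ≠ 0 →
    ∀ r1 : ℝ, 0 < r1 → ∀ r2 K1 η : ℝ, 0 < η →
    ∃ (K : ℝ) (K0 : Set X) (lab : X → ℕ → ℝ), K1 ≤ K ∧ IsCompact K0 ∧ K0 ⊆ A ∧ μ K0 ≠ 0 ∧
      Measurable lab ∧ (∀ y ∈ K0, y ∈ S.X0 ∧ q y ≤ q0) ∧ ∀ y ∈ K0, ∀ y' ∈ K0, dist y y' ≤ η ∧
        (lab y = lab y' ↔ Sh S S.kap K y y') ∧
        (lab y = lab y' → S.R y y' ∧ S.toPre.N y y' ≤ r1 ∧ Sh S S.kap' q0 y y') ∧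
        (S.R y y' → S.toPre.N y y' ≤ r2 → lab y = lab y')

theorem continuous_a (S : GeoPre D B X μ κ) (i : ℤ) : Continuous (S.toPre.a i) :=
  (LipschitzWith.of_dist_le' (S.lip i)).continuous

theorem Sh.mono {c c' K K' : ℝ} (h : Sh S c K x y) (hc : c' ≤ c) (hK : K ≤ K') (hK0 : 0 ≤ K') :
    Sh S c' K' x y := fun i => (h i).trans (mul_le_mul hK
      (Real.exp_le_exp.2 (mul_le_mul_of_nonneg_right (by linarith) (Nat.cast_nonneg i)))
      (Real.exp_pos _).le hK0)

/-- A measurable label for a closed equivalence relation on a compact set. -/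
theorem exists_lab {Y : Type} [MetricSpace Y] [SecondCountableTopology Y] [MeasurableSpace Y]
    [BorelSpace Y] {K0 : Set Y} (hK : IsCompact K0) {E : Y → Y → Prop}
    (hc : IsClosed {p : Y × Y | E p.1 p.2}) (hr : ∀ y ∈ K0, E y y)
    (hs : ∀ y ∈ K0, ∀ y' ∈ K0, E y y' → E y' y)
    (ht : ∀ y ∈ K0, ∀ y' ∈ K0, ∀ y'' ∈ K0, E y y' → E y' y'' → E y y'') :
    ∃ lab : Y → ℕ → ℝ, Measurable lab ∧ ∀ y ∈ K0, ∀ y' ∈ K0, (lab y = lab y' ↔ E y y') := by
  classical
  rcases isEmpty_or_nonempty Y with he | he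
  · exact ⟨fun _ _ => 0, measurable_const, fun y => isEmptyElim y⟩
  have hcl : ∀ y, IsCompact (K0 ∩ {z | E y z}) := fun y =>
    hK.inter_right (hc.preimage (Continuous.prodMk_right y))
  refine ⟨fun y j => if y ∈ K0 then
    Metric.infDist (TopologicalSpace.denseSeq Y j) (K0 ∩ {z | E y z}) else 0,
    measurable_pi_lambda _ fun j => measurable_of_Iic fun c => ?_, fun y hy y' hy' => ⟨?_, ?_⟩⟩
  · have h1 : IsCompact (Prod.fst '' ((K0 ×ˢ K0) ∩ ({p : Y × Y | E p.1 p.2} ∩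
        {p | dist (TopologicalSpace.denseSeq Y j) p.2 ≤ c}))) :=
      ((hK.prod hK).inter_right (hc.inter (isClosed_le (by fun_prop) continuous_const))).image
        continuous_fst
    have h2 : MeasurableSet (K0ᶜ ∩ {_y : Y | (0 : ℝ) ≤ c}) :=
      hK.measurableSet.compl.inter (MeasurableSet.const _)
    refine (congrArg MeasurableSet ?_).mpr (h1.measurableSet.union h2)
    ext y
    by_cases hy : y ∈ K0
    · simp only [mem_preimage, if_pos hy, mem_Iic, mem_union, mem_inter_iff, mem_compl_iff, hy,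
        not_true, false_and, or_false]
      constructor
      · intro h
        obtain ⟨z, hz, e⟩ := (hcl y).exists_infDist_eq_dist ⟨y, hy, hr y hy⟩
          (TopologicalSpace.denseSeq Y j)
        exact ⟨(y, z), ⟨⟨hy, hz.1⟩, hz.2, e.symm.le.trans h⟩, rfl⟩
      · rintro ⟨⟨y1, z⟩, ⟨⟨-, hz⟩, hE, hd⟩, rfl⟩
        exact (Metric.infDist_le_dist_of_mem (s := K0 ∩ {z | E y1 z}) ⟨hz, hE⟩).trans hd
    · simp only [mem_preimage, if_neg hy, mem_Iic, mem_union, mem_inter_iff, mem_compl_iff, hy,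
        not_false_iff, true_and, mem_setOf_eq]
      refine ⟨Or.inr, fun h => h.resolve_left ?_⟩
      rintro ⟨p, ⟨⟨hp, -⟩, -⟩, rfl⟩
      exact hy hp
  · intro h
    have h1 : (fun u => Metric.infDist u (K0 ∩ {z | E y z})) =
        fun u => Metric.infDist u (K0 ∩ {z | E y' z}) :=
      (TopologicalSpace.denseRange_denseSeq Y).equalizer (Metric.continuous_infDist_pt _)
        (Metric.continuous_infDist_pt _) (funext fun j => by
          simpa only [if_pos hy, if_pos hy', Function.comp_apply] using congrFun h j)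
    have h2 := congrFun h1 y'
    rw [Metric.infDist_zero_of_mem (s := K0 ∩ {z | E y' z}) ⟨hy', hr y' hy'⟩] at h2
    exact (((hcl y).isClosed.mem_iff_infDist_zero ⟨y, hy, hr y hy⟩).2 h2).2
  · intro h
    have e : K0 ∩ {z | E y z} = K0 ∩ {z | E y' z} := by
      ext z
      exact and_congr_right fun hz =>
        ⟨ht y' hy' y hy z hz (hs y hy y' hy' h), ht y hy y' hy' z hz h⟩
    funext j
    simp only [if_pos hy, if_pos hy', e]

variable [ProperSpace X] [BorelSpace X] [IsFiniteMeasure μ]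

theorem boxG (hq : S.toPre.Temp ε q) (hE : S.Est ε q) (hε0 : 0 ≤ ε) (hε : 2 * ε < S.kap)
    (hε' : ε * (2 * S.w.C + 4 * S.w.gi) < 1) : BoxG S q := by
  intro q0 A hAm hAq hq0 r1 hr1 r2 K1 η hη
  obtain ⟨K2, hK2⟩ := hE.G1 r2
  obtain ⟨K, hK1, hK3, hK4, hK0⟩ : ∃ K, K1 ≤ K ∧ q0 ≤ K ∧ |K2| * q0 ≤ K ∧ 0 ≤ K :=
    ⟨max (max K1 q0) (max (|K2| * q0) 0), (le_max_left _ _).trans (le_max_left _ _),
      (le_max_right _ _).trans (le_max_left _ _), (le_max_left _ _).trans (le_max_right _ _),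
      (le_max_right _ _).trans (le_max_right _ _)⟩
  obtain ⟨η1, h1, H1⟩ := exists_upgrade hq hE hε0 hε q0 (2 * K)
  obtain ⟨η2, h2, H2⟩ := exists_N_le hq hE hε0 hε' q0 hr1
  obtain ⟨δ, hδ, d0, d1, d2⟩ : ∃ δ, 0 < δ ∧ δ ≤ η ∧ δ ≤ η1 ∧ δ ≤ η2 :=
    ⟨min η (min η1 η2), by positivity, min_le_left _ _, (min_le_right _ _).trans (min_le_left _ _),
      (min_le_right _ _).trans (min_le_right _ _)⟩
  have hA : MeasurableSet (S.X0 ∩ A) := S.meas0.inter hAm
  have hA0 : μ (S.X0 ∩ A) ≠ 0 := by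
    rwa [Measure.measure_inter_eq_of_ae S.ae0]
  obtain ⟨z, hz⟩ : ∃ z, μ (S.X0 ∩ A ∩ Metric.ball z (δ / 2)) ≠ 0 := by
    by_contra hc
    simp only [not_exists, not_not] at hc
    exact hA0 (measure_null_of_locally_null _ fun z _ =>
      ⟨_, inter_mem_nhdsWithin _ (Metric.ball_mem_nhds z (half_pos hδ)), hc z⟩)
  obtain ⟨K0, hsub', hK0c, hpos⟩ :=
    (hA.inter Metric.isOpen_ball.measurableSet).exists_lt_isCompact_of_ne_top
    (measure_ne_top μ _) (pos_iff_ne_zero.2 hz)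
  have hsub : ∀ {y}, y ∈ K0 → (y ∈ S.X0 ∧ q y ≤ q0) ∧ y ∈ Metric.ball z (δ / 2) := fun hy =>
    ⟨⟨(hsub' hy).1.1, hAq (hsub' hy).1.2⟩, (hsub' hy).2⟩
  have hd : ∀ y ∈ K0, ∀ y' ∈ K0, dist y y' ≤ δ := fun y hy y' hy' =>
    (Metric.dist_lt_add_of_nonempty_ball_inter_ball (ε₁ := 0 + δ / 2) (ε₂ := δ / 2)
      ⟨z, by simpa [dist_comm] using (hsub hy).2, by simpa [dist_comm] using (hsub hy').2⟩).le.trans_eq
      (by ring)
  have hup : ∀ y ∈ K0, ∀ y' ∈ K0, Sh S S.kap (2 * K) y y' → Sh S S.kap' q0 y y' :=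
    fun y hy y' hy' h => H1 y (hsub hy).1.1 y' (hsub hy).1.2 h ((hd y hy y' hy').trans d1)
  obtain ⟨lab, hlab, hE'⟩ := exists_lab hK0c (E := Sh S S.kap K) (by
      simp only [Sh, setOf_forall]
      exact isClosed_iInter fun i => isClosed_le
        (((continuous_a S _).comp continuous_fst).dist ((continuous_a S _).comp continuous_snd))
        continuous_const)
    (fun y _ i => by rw [dist_self]; positivity)
    (fun y _ y' _ h i => by rw [dist_comm]; exact h i)
    (fun y hy y' _ y'' hy'' h h' => (hup y hy y'' hy'' fun i => by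
      linarith [dist_triangle (S.toPre.a (-i) y) (S.toPre.a (-i) y') (S.toPre.a (-i) y''), h i,
        h' i]).mono S.kap_lt.le hK3 hK0)
  refine ⟨K, K0, lab, hK1, hK0c, fun y hy => (hsub' hy).1.2, hpos.ne', hlab, fun y hy => (hsub hy).1, fun y hy y' hy' =>
    ⟨(hd y hy y' hy').trans d0, hE' y hy y' hy', fun h => ?_, fun hR hN => ?_⟩⟩
  · have h3 := (hE' y hy y' hy').1 h
    have h4 := S.G2a y (hsub hy).1.1 y' (hsub hy').1.1 K h3
    have h5 := hup y hy y' hy' (h3.mono le_rfl (by linarith) (by linarith))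
    exact ⟨h4, H2 y (hsub hy).1.1 y' (hsub hy').1.1 (hsub hy).1.2 (hsub hy').1.2 h4 h5
      ((hd y hy y' hy').trans d2), h5⟩
  · refine (hE' y hy y' hy').2 (Sh.mono (hK2 y y' hR hN) S.kap_lt.le (le_trans ?_ hK4) hK0)
    exact mul_le_mul (le_abs_self _) (hsub hy).1.2 (zero_le_one.trans (hq.one_le y)) (abs_nonneg _)

theorem BoxG.box (h : BoxG S q) (hq : Measurable q) : S.toPre.Box q := by
  intro q0 hq0 r1 hr1 r2
  obtain ⟨K, K0, lab, -, h1, -, h2, h3, h4, h5⟩ := h q0 _ (measurableSet_le hq measurable_const)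
    subset_rfl hq0 r1 hr1 r2 0 1 one_pos
  exact ⟨K0, lab, h1.measurableSet, h2, h3, h4, fun y hy y' hy' =>
    ⟨fun e => ⟨((h5 y hy y' hy').2.2.1 e).1, ((h5 y hy y' hy').2.2.1 e).2.1⟩,
      (h5 y hy y' hy').2.2.2⟩⟩

end Met

end Geo

section Main

variable {G : Type} [Group G] [TopologicalSpace G] {n k : ℕ} {D : Std G n k} {B : Type}
  [TopologicalSpace B] [MeasurableSpace B] [MulAction G B] {X : Type} [MetricSpace X]
  [MeasurableSpace X] [MulAction G X] {μ : Measure X} {κ : Type} [Fintype κ] [DecidableEq κ]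
  [ProperSpace X] [BorelSpace X] [IsFiniteMeasure μ]

/-- One tempered function for all the estimates. -/
theorem GeoLS.good (S : GeoLS D B X μ κ) {ε : ℝ} (hε : 0 < ε) :
    ∃ q, S.toPre.Temp ε q ∧ S.toGeoPre.Est ε q ∧ S.toPre.Bd q ∧ S.toPre.Box q ∧
      Geo.BoxG S.toGeoPre q := by
  obtain ⟨p, hp, H⟩ := Geo.exists_bd S.toGeoPre
  have hp' : (1 : ℝ) ≤ p := by exact_mod_cast hp
  have hC := S.w.C_pos
  have hg := S.w.gi_pos
  have hk := S.kap_pos
  obtain ⟨δ, hδ, d0, d1, d2, d3⟩ : ∃ δ, 0 < δ ∧ δ ≤ ε ∧ δ ≤ 1 ∧ δ ≤ S.kap / 3 ∧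
      δ ≤ 1 / (2 * (2 * S.w.C + 4 * S.w.gi)) :=
    ⟨min (min ε 1) (min (S.kap / 3) (1 / (2 * (2 * S.w.C + 4 * S.w.gi)))), by positivity,
      (min_le_left _ _).trans (min_le_left _ _), (min_le_left _ _).trans (min_le_right _ _),
      (min_le_right _ _).trans (min_le_left _ _), (min_le_right _ _).trans (min_le_right _ _)⟩
  have hle : δ / p ≤ δ := div_le_self hδ.le hp'
  obtain ⟨q, hq, hE⟩ := S.geo (δ / p) (by positivity)
  obtain ⟨C, hC1, hB⟩ := H (δ / p) q (by positivity) (hle.trans d1)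
    (by linarith [S.kap_lt]) hq hE
  have hq' := Geo.temp_pow hq (by positivity) (ε' := δ) hC1 hp
    (le_of_eq (mul_div_cancel₀ _ (by positivity)))
  have hE' : S.toGeoPre.Est δ fun x => C * q x ^ p := Geo.est_mono hE hq.one_le hle fun x =>
    (le_self_pow₀ (hq.one_le x) (by omega)).trans
      (le_mul_of_one_le_left (pow_nonneg (zero_le_one.trans (hq.one_le x)) _) hC1)
  have hG := Geo.boxG hq' hE' hδ.le (by linarith) (by
    rw [le_div_iff₀ (by positivity)] at d3
    linarith)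
  exact ⟨_, Geo.temp_mono hq' hδ.le d0, Geo.est_mono hE' hq'.one_le d0 fun _ => le_rfl, hB,
    hG.box hq'.meas, hG⟩

/-- The underlying leaf structure. -/
def GeoLS.toLS (S : GeoLS D B X μ κ) : LS X μ (Fin n ⊕ κ) where
  toPre := S.toPre
  temp ε hε := (S.good hε).imp fun _ h => ⟨h.1, h.2.2.1, h.2.2.2.1⟩

theorem GeoLS.toLS_toPre (S : GeoLS D B X μ κ) : S.toLS.toPre = S.toPre := rfl

end Main

end Pool.Agent.P.MP_d483fb_an.Z

end

end

section

/-!
The objects that are passed between the parts of the proof.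
-/

open scoped Manifold ContDiff InnerProductSpace RealInnerProductSpace Topology
open MeasureTheory Filter Set

noncomputable section

namespace Pool.Agent.P.MP_d483fb_an.Z

/-- A smooth embedding in a Euclidean space which induces the metric. -/
structure Emb (m : ℕ) (M : Type) [MetricSpace M] [ChartedSpace (EuclideanSpace ℝ (Fin m)) M] where
  N : ℕ
  ι : M → EuclideanSpace ℝ (Fin N)
  smooth : ContMDiff (𝓡 m) (𝓡 N) ∞ ι
  dist_eq : ∀ p q, dist p q = ‖ι p - ι q‖
  imm : ∀ p, Function.Injective (mfderiv (𝓡 m) (𝓡 N) ι p)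

/-- `X` is the suspension of the action `α`, seen as a measurable skew product. -/
structure Skw {G : Type} [Group G] [TopologicalSpace G] [IsTopologicalGroup G] [T2Space G]
    [MeasurableSpace G] [BorelSpace G] (L : Lat G) {M : Type} [MeasurableSpace M]
    (α : L.Γ →* Equiv.Perm M) (X : Type) [MeasurableSpace X] [MulAction G X] where
  e : X ≃ᵐ L.B × M
  smul : ∀ (g : G) x, e (g • x) = (g • (e x).1, α (L.c g (e x).1) (e x).2)

/-- The projection of the suspension on the base. -/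
def Skw.π {G : Type} [Group G] [TopologicalSpace G] [IsTopologicalGroup G] [T2Space G]
    [MeasurableSpace G] [BorelSpace G] {L : Lat G} {M : Type} [MeasurableSpace M]
    {α : L.Γ →* Equiv.Perm M} {X : Type} [MeasurableSpace X] [MulAction G X] (E : Skw L α X)
    (x : X) : L.B := (E.e x).1

namespace Std

variable {G : Type} [Group G] [TopologicalSpace G] {n k : ℕ} (D : Std G n k)

/-- `ν` is invariant under the Cartan subgroup. -/
def InvA {X : Type} [MeasurableSpace X] [MulAction G X] (ν : Measure X) : Prop :=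
  ∀ s, MeasurePreserving (fun x : X => D.a s • x) ν ν

/-- `ν` is ergodic for the Cartan subgroup. -/
def ErgA {X : Type} [MeasurableSpace X] [MulAction G X] (ν : Measure X) : Prop :=
  ∀ U : Set X, MeasurableSet U → (∀ s, (fun x : X => D.a s • x) ⁻¹' U =ᵐ[ν] U) →
    ν U = 0 ∨ ν Uᶜ = 0

/-- Every `A`-invariant ergodic measure over `m0` has `m` exponents and, for a dense set of
directions, an unstable leaf structure whose linear fibre weights are among the exponents. -/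
def HasGeo (m : ℕ) {B X : Type} [TopologicalSpace B] [MeasurableSpace B] [MulAction G B]
    [MetricSpace X] [MeasurableSpace X] [MulAction G X] (π : X → B) (m0 : Measure B) : Prop :=
  ∀ ν : Measure X, IsProbabilityMeasure ν → ν.map π = m0 → D.InvA ν → D.ErgA ν →
    ∃ w : Fin m → Euc k, ∀ O : Set (Euc k), IsOpen O → O.Nonempty →
      ∃ (κ : Type) (_ : Fintype κ) (_ : DecidableEq κ) (S : GeoLS D B X ν κ), S.Ha ∈ O ∧
        ∀ β, Nat.card {j : κ // j ∈ S.k1 ∧ S.om (.inr j) = β} ≤ Nat.card {i // w i = β}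

/-- Invariance under a one parameter group in every coarse root group whose dimension exceeds the
number of exponents that are positive multiples of the root. -/
def ThmD (m : ℕ) {B X : Type} [MeasurableSpace B] [MeasurableSpace X] [MulAction G X]
    (π : X → B) (m0 : Measure B) : Prop :=
  ∀ ν : Measure X, IsProbabilityMeasure ν → ν.map π = m0 → D.InvA ν → D.ErgA ν →
    ∃ w : Fin m → Euc k, ∀ β ∈ D.roots, Nat.card {i // w i ∈ cls β} < Module.finrank ℝ (D.u β) →
      ∃ c : ℝ, 0 < c ∧ ∃ Y ∈ D.gr (c • β), Y ≠ 0 ∧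
        ∀ t : ℝ, MeasurePreserving (fun x : X => D.ex (t • Y) • x) ν ν

end Std

end Pool.Agent.P.MP_d483fb_an.Z

end

end

section

/-!
Kernels with a mass transport identity: null sets, closed conull sets and conditional measures.
-/

namespace Pool.Agent.P.MP_d483fb_an.Z

open MeasureTheory ProbabilityTheory Set Filter
open scoped ENNReal

variable {X Z : Type*} [MeasurableSpace X] [MeasurableSpace Z]

/-- The mass transport identity with the weight `w`. -/
def Mtp (μ : Measure X) (om : Kernel X X) (w : X → X → ℝ≥0∞) : Prop :=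
  ∀ Ψ : X → X → ℝ≥0∞, Measurable (Function.uncurry Ψ) →
    ∫⁻ x, ∫⁻ y, Ψ x y ∂om x ∂μ = ∫⁻ y, ∫⁻ x, Ψ x y * w x y ∂om y ∂μ

/-- Two families of measures that agree almost everywhere on every set agree almost
everywhere. -/
theorem ae_measure_eq {W : Type*} [MeasurableSpace W] [MeasurableSpace.CountablyGenerated W]
    {ν : Measure X} {k k' : X → Measure W} (hf : ∀ᵐ x ∂ν, IsFiniteMeasure (k x))
    (h : ∀ A, MeasurableSet A → ∀ᵐ x ∂ν, k x A = k' x A) : ∀ᵐ x ∂ν, k x = k' x := by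
  set C := generateSetAlgebra (MeasurableSpace.countableGeneratingSet W) with hC
  have hc : C.Countable :=
    countable_generateSetAlgebra MeasurableSpace.countable_countableGeneratingSet
  have hg : (inferInstance : MeasurableSpace W) = MeasurableSpace.generateFrom C := by
    rw [hC, generateFrom_generateSetAlgebra_eq, MeasurableSpace.generateFrom_countableGeneratingSet]
  have hp : IsPiSystem C := isSetAlgebra_generateSetAlgebra.isSetRing.isSetSemiring.isPiSystem
  have h1 : ∀ᵐ x ∂ν, ∀ A ∈ C, k x A = k' x A :=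
    (ae_ball_iff hc).2 fun A hA => h A (hg.ge A (MeasurableSpace.measurableSet_generateFrom hA))
  filter_upwards [hf, h1, h univ .univ] with x h2 h3 h4
  exact ext_of_generate_finite C hg hp h3 h4

theorem measurable_kernel_rel (om : Kernel X X) [IsSFiniteKernel om] {P : X → X → Prop}
    (hP : MeasurableSet {p : X × X | P p.1 p.2}) : Measurable fun x => om x {y | P x y} :=
  Kernel.measurable_kernel_prodMk_left hP

/-- W4: null sets are null for almost all the measures of the family. -/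
theorem Mtp.ae_null {μ : Measure X} {om : Kernel X X} {w : X → X → ℝ≥0∞} (h : Mtp μ om w)
    {B : Set X} (hB : μ B = 0) : ∀ᵐ x ∂μ, om x B = 0 := by
  obtain ⟨t, ht, htm, ht0⟩ := exists_measurable_superset_of_null hB
  have h1 := h (fun _ y => t.indicator 1 y)
    ((measurable_one.indicator htm).comp measurable_snd)
  have h2 : ∫⁻ y, ∫⁻ x, t.indicator 1 y * w x y ∂om y ∂μ = 0 := by
    refine (lintegral_congr_ae (g := fun _ => 0) ?_).trans lintegral_zero
    filter_upwards [measure_eq_zero_iff_ae_notMem.1 ht0] with y hy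
    simp [indicator_of_notMem hy]
  rw [h2] at h1
  simp only [lintegral_indicator_one htm] at h1
  filter_upwards [(lintegral_eq_zero_iff (om.measurable_coe htm)).1 h1] with x hx
  exact measure_mono_null ht hx

theorem Mtp.ae_ae {μ : Measure X} {om : Kernel X X} {w : X → X → ℝ≥0∞} (h : Mtp μ om w)
    {p : X → Prop} (hp : ∀ᵐ x ∂μ, p x) : ∀ᵐ x ∂μ, ∀ᵐ y ∂om x, p y :=
  h.ae_null (ae_iff.1 hp)

theorem exists_measurable_conull {μ : Measure X} {G : Set X} (hG : ∀ᵐ x ∂μ, x ∈ G) :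
    ∃ S, MeasurableSet S ∧ S ⊆ G ∧ ∀ᵐ x ∂μ, x ∈ S := by
  obtain ⟨t, ht, htm, ht0⟩ := exists_measurable_superset_of_null (mem_ae_iff.1 hG)
  exact ⟨tᶜ, htm.compl, fun x hx => by_contra fun h => hx (ht h),
    measure_eq_zero_iff_ae_notMem.1 ht0⟩

/-- An invariant measurable conull set inside a conull set. -/
theorem exists_inv_conull {μ : Measure X} {a : X ≃ᵐ X} (ha : MeasurePreserving a μ μ)
    {G : Set X} (hG : ∀ᵐ x ∂μ, x ∈ G) :
    ∃ S, MeasurableSet S ∧ S ⊆ G ∧ (∀ᵐ x ∂μ, x ∈ S) ∧ ∀ x, a x ∈ S ↔ x ∈ S := by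
  obtain ⟨S, hS, hSG, hSc⟩ := exists_measurable_conull hG
  refine ⟨⋂ n : ℕ, (a^[n] ⁻¹' S ∩ a.symm^[n] ⁻¹' S), .iInter fun n =>
    (a.measurable.iterate n hS).inter (a.symm.measurable.iterate n hS),
    fun x hx => hSG (mem_iInter.1 hx 0).1, ?_, fun x => ?_⟩
  · simp only [mem_iInter]
    refine ae_all_iff.2 fun n => ?_
    exact ((ha.iterate n).quasiMeasurePreserving.ae hSc).and
      (((ha.symm a).iterate n).quasiMeasurePreserving.ae hSc)
  · simp only [mem_iInter, mem_inter_iff, mem_preimage]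
    refine ⟨fun h n => ⟨?_, ?_⟩, fun h n => ⟨(h (n + 1)).1, ?_⟩⟩
    · cases n with
      | zero => simpa using (h 1).2
      | succ n => exact (h n).1
    · simpa using (h (n + 1)).2
    · cases n with
      | zero => exact (h 1).1
      | succ n => simpa using (h n).2

/-- An invariant measurable conull set inside a conull set that carries the measures of the family
at all of its points. -/
theorem exists_closed_conull {μ : Measure X} {a : X ≃ᵐ X} (ha : MeasurePreserving a μ μ)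
    {k : X → Measure X} (hk : ∀ B, μ B = 0 → ∀ᵐ x ∂μ, k x B = 0)
    {G : Set X} (hG : ∀ᵐ x ∂μ, x ∈ G) :
    ∃ S, MeasurableSet S ∧ S ⊆ G ∧ (∀ᵐ x ∂μ, x ∈ S) ∧ (∀ x, a x ∈ S ↔ x ∈ S) ∧
      ∀ x ∈ S, ∀ᵐ y ∂k x, y ∈ S := by
  have h1 : ∀ S : {S : Set X // ∀ᵐ x ∂μ, x ∈ S}, ∃ S' : {S : Set X // ∀ᵐ x ∂μ, x ∈ S},
      MeasurableSet S'.1 ∧ S'.1 ⊆ S.1 ∧ (∀ x, a x ∈ S'.1 ↔ x ∈ S'.1) ∧
        ∀ x ∈ S'.1, ∀ᵐ y ∂k x, y ∈ S.1 := fun S => by
    obtain ⟨S', h2, h3, h4, h5⟩ := exists_inv_conull ha (G := S.1 ∩ {x | ∀ᵐ y ∂k x, y ∈ S.1})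
      (S.2.and (hk _ (ae_iff.1 S.2)))
    exact ⟨⟨S', h4⟩, h2, fun x hx => (h3 hx).1, h5, fun x hx => (h3 hx).2⟩
  choose F hF using h1
  refine ⟨⋂ n : ℕ, (F (F^[n] ⟨G, hG⟩)).1, .iInter fun n => (hF _).1,
    fun x hx => (hF ⟨G, hG⟩).2.1 (mem_iInter.1 hx 0), ?_, fun x => ?_, fun x hx => ?_⟩
  · simp only [mem_iInter]
    exact ae_all_iff.2 fun n => (F _).2
  · simp only [mem_iInter, (hF _).2.2.1]
  · simp only [mem_iInter] at hx ⊢
    refine ae_all_iff.2 fun n => ?_
    have := (hF _).2.2.2 x (hx (n + 1))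
    rwa [Function.iterate_succ_apply'] at this

section Cond

variable [StandardBorelSpace X] [Nonempty X]

theorem lintegral_condDistrib_id (ν : Measure X) [IsFiniteMeasure ν] {lab : X → Z}
    (hl : Measurable lab) {g : Z → X → ℝ≥0∞} (hg : Measurable (Function.uncurry g)) :
    ∫⁻ x, g (lab x) x ∂ν = ∫⁻ z, ∫⁻ x, g z x ∂condDistrib id lab ν z ∂ν.map lab := by
  have h := Measure.lintegral_compProd (μ := ν.map lab) (κ := condDistrib id lab ν) hg
  rw [compProd_map_condDistrib aemeasurable_id, lintegral_map hg (hl.prodMk measurable_id)] at h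
  exact h

/-- Exchangeability of a point and a conditionally independent copy. -/
theorem mtp_condDistrib (ν : Measure X) [IsFiniteMeasure ν] {lab : X → Z} (hl : Measurable lab) :
    Mtp ν ((condDistrib id lab ν).comap lab hl) fun _ _ => 1 := by
  intro Ψ hΨ
  simp only [mul_one, Kernel.comap_apply]
  have hΨ' : Measurable (Function.uncurry fun y x => Ψ x y) := hΨ.comp measurable_swap
  have hm : ∀ Φ : X → X → ℝ≥0∞, Measurable (Function.uncurry Φ) → Measurable
      (Function.uncurry fun z x => ∫⁻ y, Φ x y ∂condDistrib id lab ν z) := fun Φ hΦ =>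
    Measurable.lintegral_kernel_prod_right' (κ := Kernel.prodMkRight X (condDistrib id lab ν))
      (f := fun p : (Z × X) × X => Φ p.1.2 p.2) (hΦ.comp (measurable_fst.snd.prodMk measurable_snd))
  rw [lintegral_condDistrib_id ν hl (hm Ψ hΨ), lintegral_condDistrib_id ν hl (hm _ hΨ')]
  refine lintegral_congr fun z => ?_
  exact lintegral_lintegral_swap hΨ.aemeasurable

variable [StandardBorelSpace Z]

/-- W3, core form. -/
theorem Mtp.condDistrib_eq {μ : Measure X} {om : Kernel X X} [IsSFiniteKernel om]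
    {w : X → X → ℝ≥0∞} (h : Mtp μ om w) {K : Set X} (hK : MeasurableSet K) {lab : X → Z}
    (hl : Measurable lab) {S : Set X} (hS : ∀ᵐ x ∂μ, x ∈ S)
    (h1 : ∀ x ∈ S, x ∈ K → om x {y | y ∈ K ∧ lab y = lab x} ≠ 0 ∧
      om x {y | y ∈ K ∧ lab y = lab x} ≠ ∞)
    (h2 : ∀ x ∈ S, ∀ y ∈ S, x ∈ K → y ∈ K → lab x = lab y → om x = w x y • om y)
    (ν : Measure X) [IsFiniteMeasure ν] {c : ℝ≥0∞} (hν : ν = c • μ.restrict K) :
    ∀ᵐ x ∂ν, condDistrib id lab ν (lab x) = (om x)[|{y | y ∈ K ∧ lab y = lab x}] := by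
  let _ := upgradeStandardBorel Z
  obtain ⟨S', hSm, hSS, hS'⟩ := exists_measurable_conull hS
  have hcl : MeasurableSet {p : X × X | p.2 ∈ K ∧ lab p.2 = lab p.1} :=
    (measurable_snd hK).inter
      (measurableSet_eq_fun (hl.comp measurable_snd) (hl.comp measurable_fst))
  have hcl' : ∀ x, MeasurableSet {y | y ∈ K ∧ lab y = lab x} := fun x =>
    measurable_prodMk_left hcl
  have hq := measurable_kernel_rel om (P := fun x y => y ∈ K ∧ lab y = lab x) hcl
  have hνS : ∀ᵐ x ∂ν, x ∈ S' ∩ K := by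
    rw [hν]
    exact Measure.ae_smul_measure ((ae_restrict_of_ae hS').and (ae_restrict_mem hK)) c
  refine ae_measure_eq (Eventually.of_forall fun x => inferInstance) fun A hA => ?_
  have hclA : MeasurableSet {p : X × X | (p.2 ∈ K ∧ lab p.2 = lab p.1) ∧ p.2 ∈ A} :=
    hcl.inter (measurable_snd hA)
  have hf : Measurable fun x => (om x)[|{y | y ∈ K ∧ lab y = lab x}] A := by
    simp only [cond_apply (hcl' _)]
    exact hq.inv.mul
      (measurable_kernel_rel om (P := fun x y => (y ∈ K ∧ lab y = lab x) ∧ y ∈ A) hclA)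
  have hw : ∀ x ∈ S', ∀ y ∈ S', x ∈ K → y ∈ K → lab x = lab y → w x y ≠ 0 ∧ w x y ≠ ∞ ∧
      om x {z | z ∈ K ∧ lab z = lab x} = w x y * om y {z | z ∈ K ∧ lab z = lab y} :=
      fun x hx y hy hxK hyK e => by
    have e1 : om x {z | z ∈ K ∧ lab z = lab x} = w x y * om y {z | z ∈ K ∧ lab z = lab y} := by
      rw [h2 x (hSS hx) y (hSS hy) hxK hyK e, e]
      rfl
    have a1 := h1 x (hSS hx) hxK
    have a2 := h1 y (hSS hy) hyK
    refine ⟨fun h0 => a1.1 (by rw [e1, h0, zero_mul]), fun h0 => a1.2 ?_, e1⟩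
    rw [e1, h0, ENNReal.top_mul a2.1]
  obtain ⟨φ, hφ, hφ'⟩ := exists_factor hl hf (hSm.inter hK) fun x hx y hy e => by
    obtain ⟨b1, b2, b3⟩ := hw x hx.1 y hy.1 hx.2 hy.2 e
    rw [cond_apply (hcl' _), cond_apply (hcl' _), b3, h2 x (hSS hx.1) y (hSS hy.1) hx.2 hy.2 e, e,
      Measure.smul_apply, smul_eq_mul, ENNReal.mul_inv (Or.inl b1) (Or.inl b2), mul_mul_mul_comm,
      ENNReal.inv_mul_cancel b1 b2, one_mul]
  have key : (fun z => condDistrib id lab ν z A) =ᵐ[ν.map lab] φ := by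
    refine ae_eq_of_forall_setLIntegral_eq_of_sigmaFinite (Kernel.measurable_coe _ hA) hφ
      fun C hC _ => ?_
    rw [setLIntegral_map hC (Kernel.measurable_coe _ hA) hl, setLIntegral_map hC hφ hl,
      setLIntegral_preimage_condDistrib hl aemeasurable_id hA hC]
    have e1 : ∫⁻ x in lab ⁻¹' C, φ (lab x) ∂ν =
        ∫⁻ x in lab ⁻¹' C, (om x)[|{y | y ∈ K ∧ lab y = lab x}] A ∂ν :=
      lintegral_congr_ae ((ae_restrict_of_ae hνS).mono fun x hx => (hφ' x hx).symm)
    have hP : MeasurableSet {p : X × X | (p.1 ∈ lab ⁻¹' C ∩ K) ∧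
        (p.2 ∈ K ∧ lab p.2 = lab p.1) ∧ p.2 ∈ A} := (measurable_fst ((hl hC).inter hK)).inter hclA
    have e2 := h (fun x y => {p : X × X | (p.1 ∈ lab ⁻¹' C ∩ K) ∧
        (p.2 ∈ K ∧ lab p.2 = lab p.1) ∧ p.2 ∈ A}.indicator
          (fun p => (om p.1 {y | y ∈ K ∧ lab y = lab p.1})⁻¹) (x, y))
      ((hq.inv.comp measurable_fst).indicator hP)
    have e3 : ∀ x, ∫⁻ y, {p : X × X | (p.1 ∈ lab ⁻¹' C ∩ K) ∧
        (p.2 ∈ K ∧ lab p.2 = lab p.1) ∧ p.2 ∈ A}.indicator
          (fun p => (om p.1 {y | y ∈ K ∧ lab y = lab p.1})⁻¹) (x, y) ∂om x =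
        (lab ⁻¹' C ∩ K).indicator (fun x => (om x)[|{y | y ∈ K ∧ lab y = lab x}] A) x := fun x => by
      by_cases hx : x ∈ lab ⁻¹' C ∩ K
      · rw [indicator_of_mem hx, cond_apply (hcl' _), ← setLIntegral_const,
          ← lintegral_indicator ((hcl' x).inter hA)]
        refine lintegral_congr fun y => ?_
        by_cases hy : y ∈ {y | y ∈ K ∧ lab y = lab x} ∩ A
        · rw [indicator_of_mem hy, indicator_of_mem (by exact ⟨hx, hy⟩)]
        · rw [indicator_of_notMem hy, indicator_of_notMem (fun h => hy h.2)]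
      · rw [indicator_of_notMem hx]
        refine (lintegral_congr fun y => ?_).trans lintegral_zero
        exact indicator_of_notMem (fun h => hx h.1) _
    have e4 : ∀ᵐ y ∂μ, ∫⁻ x, {p : X × X | (p.1 ∈ lab ⁻¹' C ∩ K) ∧
        (p.2 ∈ K ∧ lab p.2 = lab p.1) ∧ p.2 ∈ A}.indicator
          (fun p => (om p.1 {y | y ∈ K ∧ lab y = lab p.1})⁻¹) (x, y) * w x y ∂om y =
        ((lab ⁻¹' C ∩ A) ∩ K).indicator 1 y := by
      filter_upwards [hS', h.ae_ae hS'] with y hy hy'
      by_cases hyC : y ∈ (lab ⁻¹' C ∩ A) ∩ K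
      · have a2 := h1 y (hSS hy) hyC.2
        rw [indicator_of_mem hyC, Pi.one_apply, ← ENNReal.inv_mul_cancel a2.1 a2.2,
          ← setLIntegral_const, ← lintegral_indicator (hcl' y)]
        refine lintegral_congr_ae (hy'.mono fun x hx => ?_)
        by_cases hx' : x ∈ {z | z ∈ K ∧ lab z = lab y}
        · obtain ⟨b1, b2, b3⟩ := hw x hx y hy hx'.1 hyC.2 hx'.2
          have hm : (x, y) ∈ {p : X × X | (p.1 ∈ lab ⁻¹' C ∩ K) ∧
              (p.2 ∈ K ∧ lab p.2 = lab p.1) ∧ p.2 ∈ A} :=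
            ⟨⟨show lab x ∈ C from hx'.2 ▸ hyC.1.1, hx'.1⟩, ⟨hyC.2, hx'.2.symm⟩, hyC.1.2⟩
          simp only [indicator_of_mem hm, indicator_of_mem hx']
          rw [b3, ENNReal.mul_inv (Or.inl b1) (Or.inl b2), mul_right_comm,
            ENNReal.inv_mul_cancel b1 b2, one_mul]
        · simp only [indicator_of_notMem hx']
          rw [indicator_of_notMem (fun h => hx' ⟨h.1.2, h.2.1.2.symm⟩), zero_mul]
      · rw [indicator_of_notMem hyC]
        refine (lintegral_congr fun x => ?_).trans lintegral_zero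
        rw [indicator_of_notMem, zero_mul]
        exact fun h => hyC ⟨⟨show lab y ∈ C from h.2.1.2 ▸ h.1.1, h.2.2⟩, h.2.1.1⟩
    rw [lintegral_congr e3, lintegral_congr_ae e4,
      lintegral_indicator_one (((hl hC).inter hA).inter hK),
      lintegral_indicator ((hl hC).inter hK)] at e2
    rw [e1, hν, Measure.restrict_smul, lintegral_smul_measure, Measure.restrict_restrict (hl hC),
      e2, Measure.smul_apply, preimage_id, Measure.restrict_apply ((hl hC).inter hA)]
  filter_upwards [ae_of_ae_map hl.aemeasurable key, hνS] with x hx hx'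
  rw [hx, hφ' x hx']

omit [StandardBorelSpace Z] in
/-- The conditional probability of the value of a countable digit is positive. -/
theorem ae_condDistrib_digit_pos (ν : Measure X) [IsFiniteMeasure ν] {lab : X → Z}
    (hl : Measurable lab) {e : X → ℕ} (he : Measurable e) :
    ∀ᵐ x ∂ν, condDistrib id lab ν (lab x) {y | e y = e x} ≠ 0 := by
  have h1 : ∀ i, ∀ᵐ x ∂ν, e x = i → condDistrib id lab ν (lab x) (e ⁻¹' {i}) ≠ 0 := fun i => by
    have hA : MeasurableSet (e ⁻¹' {i}) := he (measurableSet_singleton i)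
    have hC : MeasurableSet {z | condDistrib id lab ν z (e ⁻¹' {i}) = 0} :=
      Kernel.measurable_coe _ hA (measurableSet_singleton 0)
    have h2 := setLIntegral_preimage_condDistrib (μ := ν) hl aemeasurable_id hA hC
    rw [setLIntegral_congr_fun (hl hC) (g := fun _ => 0) (fun x hx => hx), lintegral_zero] at h2
    filter_upwards [measure_eq_zero_iff_ae_notMem.1 h2.symm] with x hx h3 h4
    exact hx ⟨h4, h3⟩
  filter_upwards [ae_all_iff.2 h1] with x hx
  exact hx _ rfl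

end Cond

end Pool.Agent.P.MP_d483fb_an.Z


end

section

/-!
Gluing a compatible sequence of probability measures into one measure.
-/

namespace Pool.Agent.P.MP_d483fb_an.Z

open MeasureTheory ProbabilityTheory Set Filter
open scoped ENNReal

variable {X : Type*} [MeasurableSpace X]

/-- `ν` is carried by the sets `C t` and is on `C t` a multiple of `M t`. -/
def IsGlue (ν : Measure X) (M : ℕ → Measure X) (C : ℕ → Set X) : Prop :=
  (∀ᵐ y ∂ν, ∀ᶠ t in atTop, y ∈ C t) ∧ ∀ t, ∃ c : ℝ≥0∞, c ≠ 0 ∧ c ≠ ∞ ∧ ν.restrict (C t) = c • M t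

variable {ν ν' : Measure X} {M : ℕ → Measure X} {C : ℕ → Set X}

theorem IsGlue.shift (h : IsGlue ν M C) (s : ℕ) :
    IsGlue ν (fun t => M (t + s)) fun t => C (t + s) :=
  ⟨h.1.mono fun _ hy => (tendsto_add_atTop_nat s).eventually hy, fun t => h.2 (t + s)⟩

theorem IsGlue.smul (h : IsGlue ν M C) {c : ℝ≥0∞} (h0 : c ≠ 0) (h1 : c ≠ ∞) :
    IsGlue (c • ν) M C := by
  refine ⟨Measure.ae_smul_measure h.1 c, fun t => ?_⟩
  obtain ⟨d, h2, h3, h4⟩ := h.2 t
  exact ⟨c * d, mul_ne_zero h0 h2, ENNReal.mul_ne_top h1 h3, by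
    rw [Measure.restrict_smul, h4, smul_smul]⟩

theorem IsGlue.map (h : IsGlue ν M C) (a : X ≃ᵐ X) :
    IsGlue (ν.map a) (fun t => (M t).map a) fun t => a.symm ⁻¹' C t := by
  refine ⟨a.measurableEmbedding.ae_map_iff.2 (h.1.mono fun y hy => by simpa using hy), fun t => ?_⟩
  obtain ⟨d, h2, h3, h4⟩ := h.2 t
  refine ⟨d, h2, h3, ?_⟩
  rw [a.restrict_map, ← Measure.map_smul, ← h4, ← preimage_comp, a.symm_comp_self, preimage_id]

theorem IsGlue.restrict_iUnion (h : IsGlue ν M C) : ν.restrict (⋃ t, C t) = ν :=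
  Measure.restrict_eq_self_of_ae_mem (h.1.mono fun _ hy => mem_iUnion.2 hy.exists)

theorem IsGlue.ae (h : IsGlue ν M C) {p : X → Prop} (hp : ∀ t, ∀ᵐ y ∂M t, p y) :
    ∀ᵐ y ∂ν, p y := by
  rw [← h.restrict_iUnion, ae_restrict_iUnion_iff]
  intro t
  obtain ⟨d, -, -, h4⟩ := h.2 t
  rw [h4]
  exact Measure.ae_smul_measure (hp t) d

theorem IsGlue.restrict_eq (h : IsGlue ν M C) {t : ℕ} (hM : M t univ = 1) :
    ν (C t) ≠ 0 ∧ ν (C t) ≠ ∞ ∧ ν.restrict (C t) = ν (C t) • M t := by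
  obtain ⟨d, h2, h3, h4⟩ := h.2 t
  have : ν (C t) = d := by
    rw [← Measure.restrict_apply_univ, h4, Measure.smul_apply, hM, smul_eq_mul, mul_one]
  rw [this]
  exact ⟨h2, h3, h4⟩

/-- The glued measure is unique up to a factor. -/
theorem IsGlue.unique (h : IsGlue ν M C) (h' : IsGlue ν' M C) (hC : ∀ t, MeasurableSet (C t))
    (h0 : ∀ t, M t (C 0) ≠ 0) (h1 : ∀ t, M t (C 0) ≠ ∞) :
    ∃ c : ℝ≥0∞, c ≠ 0 ∧ c ≠ ∞ ∧ ν = c • ν' := by
  have h2 : ∀ t, ∃ d : ℝ≥0∞, d ≠ 0 ∧ d ≠ ∞ ∧ ν.restrict (C t) = d • ν'.restrict (C t) ∧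
      ν' (C 0 ∩ C t) ≠ 0 ∧ ν' (C 0 ∩ C t) ≠ ∞ := fun t => by
    obtain ⟨c, a1, a2, a3⟩ := h.2 t
    obtain ⟨c', b1, b2, b3⟩ := h'.2 t
    refine ⟨c * c'⁻¹, mul_ne_zero a1 (ENNReal.inv_ne_zero.2 b2),
      ENNReal.mul_ne_top a2 (ENNReal.inv_ne_top.2 b1), ?_, ?_⟩
    · rw [a3, b3, smul_smul, mul_assoc, ENNReal.inv_mul_cancel b1 b2, mul_one]
    · rw [← Measure.restrict_apply (hC 0), b3, Measure.smul_apply, smul_eq_mul]
      exact ⟨mul_ne_zero b1 (h0 t), ENNReal.mul_ne_top b2 (h1 t)⟩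
  choose d d1 d2 d3 d4 d5 using h2
  have h3 : ∀ t, d t = d 0 := fun t => by
    have e1 : ν (C 0 ∩ C t) = d t * ν' (C 0 ∩ C t) := by
      rw [← Measure.restrict_apply (hC 0), d3, Measure.smul_apply, Measure.restrict_apply (hC 0),
        smul_eq_mul]
    have e2 : ν (C 0 ∩ C t) = d 0 * ν' (C 0 ∩ C t) := by
      rw [inter_comm, ← Measure.restrict_apply (hC t), d3, Measure.smul_apply,
        Measure.restrict_apply (hC t), smul_eq_mul]
    exact (ENNReal.mul_left_inj (d4 t) (d5 t)).1 (e1.symm.trans e2)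
  refine ⟨d 0, d1 0, d2 0, ?_⟩
  rw [← h.restrict_iUnion, ← (h'.smul (d1 0) (d2 0)).restrict_iUnion,
    Measure.restrict_iUnion_congr]
  intro t
  rw [d3, h3, Measure.restrict_smul]

theorem IsGlue.lintegral_eq (h : IsGlue ν M C) (hC : ∀ t, MeasurableSet (C t))
    (hM : ∀ t, M t univ = 1) {Φ : X → ℝ≥0∞} (hΦ : Measurable Φ) :
    ∫⁻ y, Φ y ∂ν = ∑' t, ∫⁻ y, (disjointed C t).indicator Φ y * ν (C t) ∂M t := by
  have hD := MeasurableSet.disjointed hC
  conv_lhs => rw [← h.restrict_iUnion, ← iUnion_disjointed,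
    lintegral_iUnion hD (disjoint_disjointed C)]
  refine tsum_congr fun t => ?_
  rw [lintegral_mul_const _ (hΦ.indicator (hD t)), mul_comm, ← smul_eq_mul,
    ← lintegral_smul_measure, ← (h.restrict_eq (hM t)).2.2, lintegral_indicator (hD t),
    Measure.restrict_restrict (hD t), inter_eq_left.2 (disjointed_subset C t)]

/-- Existence of the glued measure. -/
theorem isGlue_sum (hC : ∀ t, MeasurableSet (C t)) {S : Set X} (hM : ∀ t, M t univ = 1)
    (hS : ∀ t, ∀ᵐ y ∂M t, y ∈ S ∧ y ∈ C t) (hn : ∀ t, ∀ y ∈ S, y ∈ C t → y ∈ C (t + 1))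
    (h0 : ∀ t, M (t + 1) (C t) ≠ 0) (hc : ∀ t, M t = (M (t + 1))[|C t]) :
    (∀ t, M t (C 0) ≠ 0) ∧
      IsGlue (Measure.sum fun t => (M t (C 0))⁻¹ • (M t).restrict (disjointed C t)) M C := by
  have hD := MeasurableSet.disjointed hC
  have hf : ∀ t A, M t A ≠ ∞ := fun t A =>
    ne_top_of_le_ne_top (by rw [hM t]; exact ENNReal.one_ne_top) (measure_mono (subset_univ A))
  have hn' : ∀ s t, s ≤ t → ∀ y ∈ S, y ∈ C s → y ∈ C t := fun s t hst y hy h1 => by
    induction hst with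
    | refl => exact h1
    | step _ ih => exact hn _ y hy ih
  have hr : ∀ t, (M (t + 1)).restrict (C t) = M (t + 1) (C t) • M t := fun t => by
    conv_rhs => rw [hc t, ProbabilityTheory.cond, smul_smul,
      ENNReal.mul_inv_cancel (h0 t) (hf _ _), one_smul]
  have hi : ∀ s t, s ≤ t → (M (t + 1)).restrict (C s) = M (t + 1) (C t) • (M t).restrict (C s) :=
      fun s t hst => by
    rw [← Measure.restrict_smul, ← hr, Measure.restrict_restrict (hC s)]
    refine Measure.restrict_congr_set ?_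
    filter_upwards [hS (t + 1)] with y hy
    exact propext ⟨fun h1 => ⟨h1, hn' s t hst y hy.1 h1⟩, fun h1 => h1.1⟩
  have hq : ∀ t, M (t + 1) (C 0) = M (t + 1) (C t) * M t (C 0) := fun t => by
    rw [← Measure.restrict_apply_univ, hi 0 t t.zero_le, Measure.smul_apply,
      Measure.restrict_apply_univ, smul_eq_mul]
  have hself : ∀ t, (M t).restrict (C t) = M t := fun t =>
    Measure.restrict_eq_self_of_ae_mem ((hS t).mono fun y hy => hy.2)
  have hq0 : ∀ t, M t (C 0) ≠ 0 := fun t => by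
    induction t with
    | zero => rw [← Measure.restrict_apply_univ, hself, hM]; exact one_ne_zero
    | succ t ih => rw [hq]; exact mul_ne_zero (h0 t) ih
  have hk : ∀ s t, s ≤ t → (M t (C 0))⁻¹ • (M t).restrict (C s) = (M s (C 0))⁻¹ • M s :=
      fun s t hst => by
    induction hst with
    | refl => rw [hself]
    | @step t hst ih =>
      rw [hi s t hst, hq, smul_smul, ENNReal.mul_inv (Or.inl (h0 t)) (Or.inl (hf _ _)),
        mul_right_comm, ENNReal.inv_mul_cancel (h0 t) (hf _ _), one_mul, ih]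
  refine ⟨hq0, ?_, fun t => ⟨(M t (C 0))⁻¹, ENNReal.inv_ne_zero.2 (hf _ _),
    ENNReal.inv_ne_top.2 (hq0 t), ?_⟩⟩
  · refine Measure.ae_sum_iff.2 fun t => Measure.ae_smul_measure (ae_restrict_of_ae ?_) _
    filter_upwards [hS t] with y hy
    exact eventually_atTop.2 ⟨t, fun t' h1 => hn' t t' h1 y hy.1 hy.2⟩
  · have e : ∀ s, ((M s (C 0))⁻¹ • (M s).restrict (disjointed C s)).restrict (C t) =
        ((M t (C 0))⁻¹ • M t).restrict (disjointed C s) := fun s => by
      rcases le_or_gt s t with hst | hst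
      · rw [← Measure.restrict_smul, ← hk s t hst, Measure.restrict_smul, Measure.restrict_smul,
          Measure.restrict_smul, Measure.restrict_restrict (hD s),
          inter_eq_left.2 (disjointed_subset C s), Measure.restrict_comm (hC t), hself]
      · have hd : C t ∩ disjointed C s = ∅ := eq_empty_of_forall_notMem fun y hy => by
          have h2 := hy.2
          rw [disjointed_eq_inter_compl] at h2
          exact mem_iInter₂.1 h2.2 t hst hy.1
        rw [Measure.restrict_smul, Measure.restrict_smul, Measure.restrict_restrict (hC t), hd,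
          Measure.restrict_empty, smul_zero]
        conv_rhs => rw [← hself t]
        rw [Measure.restrict_restrict (hD s), inter_comm, hd, Measure.restrict_empty, smul_zero]
    rw [Measure.restrict_sum _ (hC t), funext e,
      ← Measure.restrict_iUnion (disjoint_disjointed C) hD, iUnion_disjointed]
    exact Measure.restrict_eq_self_of_ae_mem (Measure.ae_smul_measure
      ((hS t).mono fun y hy => mem_iUnion.2 ⟨t, hy.2⟩) _)

theorem exists_kernel_inv_smul (k : Kernel X X) [IsSFiniteKernel k] {f : X → ℝ≥0∞}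
    (hf : Measurable f) {D : X → Set X} (hD : MeasurableSet {p : X × X | p.2 ∈ D p.1}) :
    ∃ k' : Kernel X X, IsSFiniteKernel k' ∧ ∀ x, f x ≠ 0 → k' x = (f x)⁻¹ • (k x).restrict (D x) := by
  classical
  have hm : Measurable (Function.uncurry fun x y => {p : X × X | p.2 ∈ D p.1}.indicator
      (fun p => if f p.1 = 0 then 0 else (f p.1)⁻¹) (x, y)) :=
    ((Measurable.ite (hf (measurableSet_singleton 0)) measurable_const hf.inv).comp
      measurable_fst).indicator hD
  refine ⟨k.withDensity _, Kernel.IsSFiniteKernel.withDensity k (f := fun x y =>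
    {p : X × X | p.2 ∈ D p.1}.indicator (fun p => if f p.1 = 0 then 0 else (f p.1)⁻¹) (x, y))
    fun x y => ?_, fun x hx => ?_⟩
  · by_cases h : (x, y) ∈ {p : X × X | p.2 ∈ D p.1}
    · rw [indicator_of_mem h]
      split_ifs with h1
      · exact ENNReal.zero_ne_top
      · exact ENNReal.inv_ne_top.2 h1
    · rw [indicator_of_notMem h]
      exact ENNReal.zero_ne_top
  · rw [Kernel.withDensity_apply _ hm, ← withDensity_const,
      ← withDensity_indicator (s := D x) (measurable_prodMk_left hD)]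
    congr 1
    funext y
    by_cases h : y ∈ D x
    · rw [indicator_of_mem (by exact h), indicator_of_mem (by exact h), if_neg hx]
    · rw [indicator_of_notMem (by exact h), indicator_of_notMem (by exact h)]

end Pool.Agent.P.MP_d483fb_an.Z


end

section

/-!
Existence of leafwise measures from an increasing label.
-/

namespace Pool.Agent.P.MP_d483fb_an.Z

open MeasureTheory ProbabilityTheory Set Filter
open scoped ENNReal

variable {X Z : Type*} [MeasurableSpace X] [MeasurableSpace Z]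

theorem iterate_symm_apply (a : X ≃ᵐ X) (s : ℕ) (x : X) : a.symm^[s] (a^[s] x) = x :=
  (Function.LeftInverse.iterate a.symm_apply_apply s) x

theorem iterate_apply_symm (a : X ≃ᵐ X) (s : ℕ) (x : X) : a^[s] (a.symm^[s] x) = x :=
  (Function.LeftInverse.iterate a.apply_symm_apply s) x

theorem inv_iterate {a : X ≃ᵐ X} {S : Set X} (h : ∀ x, a x ∈ S ↔ x ∈ S) (n : ℕ) (x : X) :
    a^[n] x ∈ S ↔ x ∈ S := by
  induction n with
  | zero => rfl
  | succ n ih => rw [Function.iterate_succ_apply', h, ih]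

theorem inv_iterate_symm {a : X ≃ᵐ X} {S : Set X} (h : ∀ x, a x ∈ S ↔ x ∈ S) (n : ℕ) (x : X) :
    a.symm^[n] x ∈ S ↔ x ∈ S := by
  rw [← inv_iterate h n, iterate_apply_symm]

/-- The kernel `k` transported by the `s`-th power of `a`. -/
noncomputable def pushK (a : X ≃ᵐ X) (k : Kernel X X) (s : ℕ) : Kernel X X :=
  (k.comap a.symm^[s] (a.symm.measurable.iterate s)).map a^[s]

theorem pushK_apply (a : X ≃ᵐ X) (k : Kernel X X) (s : ℕ) (x : X) :
    pushK a k s x = (k (a.symm^[s] x)).map a^[s] := by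
  rw [pushK, Kernel.map_apply _ (a.measurable.iterate s), Kernel.comap_apply]

instance (a : X ≃ᵐ X) (k : Kernel X X) [IsMarkovKernel k] (s : ℕ) :
    IsMarkovKernel (pushK a k s) :=
  Kernel.IsMarkovKernel.map _ (a.measurable.iterate s)

theorem pushK_succ (a : X ≃ᵐ X) (k : Kernel X X) (s : ℕ) (x : X) :
    pushK a k (s + 1) x = (pushK a k 1 (a.symm^[s] x)).map a^[s] := by
  rw [pushK_apply, pushK_apply, Measure.map_map (a.measurable.iterate s) (a.measurable.iterate 1),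
    Function.iterate_succ_apply']
  rfl

theorem pushK_succ' (a : X ≃ᵐ X) (k : Kernel X X) (s : ℕ) (x : X) :
    pushK a k (s + 1) (a x) = (pushK a k s x).map a := by
  rw [pushK_apply, pushK_apply, Measure.map_map a.measurable (a.measurable.iterate s),
    Function.iterate_succ_apply, a.symm_apply_apply, Function.iterate_succ']

theorem Mtp.pushK {μ : Measure X} {a : X ≃ᵐ X} (ha : MeasurePreserving a μ μ) {k : Kernel X X}
    [IsMarkovKernel k] (h : Mtp μ k fun _ _ => 1) (s : ℕ) : Mtp μ (pushK a k s) fun _ _ => 1 := by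
  have hs := a.measurable.iterate s
  have key : ∀ Φ : X → X → ℝ≥0∞, Measurable (Function.uncurry Φ) →
      ∫⁻ x, ∫⁻ y, Φ x y ∂Z.pushK a k s x ∂μ = ∫⁻ x, ∫⁻ y, Φ (a^[s] x) (a^[s] y) ∂k x ∂μ := by
    intro Φ hΦ
    rw [← (ha.iterate s).lintegral_comp hΦ.lintegral_kernel_prod_right]
    refine lintegral_congr fun x => ?_
    rw [pushK_apply, iterate_symm_apply, lintegral_map hΦ.of_uncurry_left hs]
  intro Ψ hΨ
  have h1 := h (fun x y => Ψ (a^[s] x) (a^[s] y)) (hΨ.comp (hs.prodMap hs))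
  simp only [mul_one] at h1 ⊢
  rw [key Ψ hΨ, key (fun y x => Ψ x y) (hΨ.comp measurable_swap), h1]

theorem measurableEmbedding_iterate (a : X ≃ᵐ X) (s : ℕ) : MeasurableEmbedding a^[s] := by
  induction s with
  | zero => exact MeasurableEmbedding.id
  | succ s ih => exact ih.comp a.measurableEmbedding

variable [StandardBorelSpace X] [Nonempty X] [StandardBorelSpace Z] {μ : Measure X}
  [IsFiniteMeasure μ] {a : X ≃ᵐ X} {R : X → X → Prop} {N : X → X → ℝ} {eta : X → Z} {e : X → ℕ}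
  {Y : Set X}

/-- The conditional measures of the label and of its translate are compatible. -/
theorem Nest.ae_step (h : Nest μ a R N eta e Y) : ∀ᵐ x ∂μ,
    pushK a ((condDistrib id eta μ).comap eta h.measEta) 1 x {y | eta y = eta x} ≠ 0 ∧
      condDistrib id eta μ (eta x) =
        (pushK a ((condDistrib id eta μ).comap eta h.measEta) 1 x)[|{y | eta y = eta x}] := by
  let _ := upgradeStandardBorel Z
  set k := (condDistrib id eta μ).comap eta h.measEta with hk
  have h1 : ∀ᵐ x ∂μ, pushK a k 1 x {y | eta y = eta x} ≠ 0 := by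
    have h2 := (ae_condDistrib_digit_pos μ h.measEta h.measE).and
      ((ae_condDistrib_atom μ h.measEta h.meas h.conull).and h.conull)
    filter_upwards [(h.pres.symm a).quasiMeasurePreserving.ae h2] with x ⟨b1, b2, b3⟩ h0
    rw [pushK_apply, Measure.map_apply (a.measurable.iterate 1)
      (measurableSet_eq_fun h.measEta measurable_const)] at h0
    refine b1 (le_antisymm ((measure_mono_ae ?_).trans h0.le) zero_le)
    filter_upwards [b2] with y hy h3
    have := h.cnt y hy.2 _ b3 hy.1 h3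
    rwa [a.apply_symm_apply] at this
  have h2 := ((mtp_condDistrib μ h.measEta).pushK h.pres 1).condDistrib_eq MeasurableSet.univ
    h.measEta (S := Y ∩ {x | pushK a k 1 x {y | eta y = eta x} ≠ 0}) (h.conull.and h1)
    (fun x hx _ => ⟨by simpa using hx.2, measure_ne_top _ _⟩)
    (fun x hx y hy _ _ e => by
      have hx' := (inv_iterate_symm h.inv 1 x).2 hx.1
      have hy' := (inv_iterate_symm h.inv 1 y).2 hy.1
      rw [one_smul, pushK_apply, pushK_apply, Kernel.comap_apply, Kernel.comap_apply,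
        h.nest _ hx' _ hy' (by simpa using e)])
    μ (c := 1) (by simp)
  filter_upwards [h1, h2] with x b1 b2
  exact ⟨b1, by simpa using b2⟩

/-- Existence of leafwise measures. -/
theorem Nest.exists_leafwise (h : Nest μ a R N eta e Y) :
    ∃ (om : Kernel X X) (X1 : Set X), X1 ⊆ Y ∧ IsLeafwise μ a R N om X1 := by
  let _ := upgradeStandardBorel Z
  set k := (condDistrib id eta μ).comap eta h.measEta with hk
  have hmtp := mtp_condDistrib μ h.measEta
  obtain ⟨X1, hm, hsub, hae, hinv, hcl⟩ := exists_closed_conull h.pres (k := k)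
    (fun B => hmtp.ae_null) (G := {x | x ∈ Y ∧ (∀ᵐ y ∂k x, eta y = eta x) ∧
      pushK a k 1 x {y | eta y = eta x} ≠ 0 ∧ k x = (pushK a k 1 x)[|{y | eta y = eta x}]})
    (h.conull.and (((ae_condDistrib_atom μ h.measEta h.meas h.conull).mono
      fun x hx => hx.mono fun y hy => hy.1).and h.ae_step))
  have hY : ∀ x ∈ X1, x ∈ Y := fun x hx => (hsub hx).1
  have hb : ∀ s, ∀ x ∈ X1, a.symm^[s] x ∈ X1 := fun s x hx => (inv_iterate_symm hinv s x).2 hx
  let cl : X → ℕ → Set X := fun x s => {y | eta (a.symm^[s] y) = eta (a.symm^[s] x)}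
  have hes : ∀ s, Measurable fun y => eta (a.symm^[s] y) := fun s =>
    h.measEta.comp (a.symm.measurable.iterate s)
  have hclm : ∀ s, MeasurableSet {p : X × X | p.2 ∈ cl p.1 s} := fun s =>
    measurableSet_eq_fun ((hes s).comp measurable_snd) ((hes s).comp measurable_fst)
  have hclm' : ∀ x s, MeasurableSet (cl x s) := fun x s => measurable_prodMk_left (hclm s)
  have hpre : ∀ x s, a^[s] ⁻¹' cl x s = {y | eta y = eta (a.symm^[s] x)} := fun x s => by
    ext y
    simp only [cl, mem_preimage, mem_ofPred_eq, iterate_symm_apply]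
  have hDm : ∀ s, MeasurableSet {p : X × X | p.2 ∈ disjointed (cl p.1) s} := fun s => by
    have : {p : X × X | p.2 ∈ disjointed (cl p.1) s} =
        disjointed (fun s => {p : X × X | p.2 ∈ cl p.1 s}) s := by
      ext p
      simp only [disjointed_eq_inter_compl, mem_ofPred_eq, mem_inter_iff, mem_iInter, mem_compl_iff]
    rw [this]
    exact MeasurableSet.disjointed hclm s
  have hDs : ∀ x y s, y ∈ disjointed (cl x) s ↔ x ∈ disjointed (cl y) s := fun x y s => by
    simp only [disjointed_eq_inter_compl, cl, mem_ofPred_eq, mem_inter_iff, mem_iInter,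
      mem_compl_iff, eq_comm]
  have hcar : ∀ x ∈ X1, ∀ s, ∀ᵐ y ∂pushK a k s x, y ∈ X1 ∧ y ∈ cl x s := fun x hx s => by
    rw [pushK_apply, (measurableEmbedding_iterate a s).ae_map_iff]
    filter_upwards [hcl _ (hb s x hx), (hsub (hb s x hx)).2.1] with y h1 h2
    refine ⟨(inv_iterate hinv s y).2 h1, ?_⟩
    rw [← mem_preimage, hpre]
    exact h2
  have hnest : ∀ x ∈ X1, ∀ t, ∀ y ∈ X1, y ∈ cl x t → y ∈ cl x (t + 1) := fun x hx t y hy h1 => by
    refine h.nest _ (hY _ (hb _ y hy)) _ (hY _ (hb _ x hx)) ?_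
    rw [Function.iterate_succ_apply', Function.iterate_succ_apply', a.apply_symm_apply,
      a.apply_symm_apply]
    exact h1
  have hnest' : ∀ x ∈ X1, ∀ y ∈ X1, ∀ s, y ∈ cl x s → ∀ t, y ∈ cl x (t + s) :=
      fun x hx y hy s h1 t => by
    induction t with
    | zero => rwa [zero_add]
    | succ t ih => exact Nat.add_right_comm t 1 s ▸ hnest x hx _ y hy ih
  have hgl := fun x (hx : x ∈ X1) => isGlue_sum (M := fun s => pushK a k s x) (hclm' x)
    (fun s => measure_univ) (hcar x hx) (hnest x hx)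
    (fun t => by
      rw [pushK_succ, Measure.map_apply (a.measurable.iterate t) (hclm' x t), hpre]
      exact (hsub (hb t x hx)).2.2.1)
    (fun t => by
      rw [pushK_succ, pushK_apply, (hsub (hb t x hx)).2.2.2, ProbabilityTheory.cond,
        ProbabilityTheory.cond, Measure.map_apply (a.measurable.iterate t) (hclm' x t),
        Measure.restrict_map (a.measurable.iterate t) (hclm' x t), hpre, Measure.map_smul])
  -- the sequences at two related points have the same tails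
  have htail : ∀ x ∈ X1, ∀ y ∈ X1, ∀ s, y ∈ cl x s → ∀ t,
      pushK a k (t + s) y = pushK a k (t + s) x ∧ cl y (t + s) = cl x (t + s) :=
      fun x hx y hy s h1 t => by
    have h2 : eta (a.symm^[t + s] y) = eta (a.symm^[t + s] x) := hnest' x hx y hy s h1 t
    exact ⟨by rw [pushK_apply, pushK_apply, hk, Kernel.comap_apply, Kernel.comap_apply, h2],
      by simp only [cl, h2]⟩
  have hq : ∀ x ∈ X1, ∀ s t, pushK a k (t + s) x (cl x (0 + s)) ≠ 0 := fun x hx s t h0 =>
    (hgl x hx).1 (t + s) (le_antisymm ((measure_mono_ae ((hcar x hx _).mono fun y hy h1 =>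
      (add_comm s 0 ▸ hnest' x hx y hy.1 0 h1 s :))).trans h0.le) zero_le)
  have hrel : ∀ x ∈ X1, ∀ y ∈ X1, ∀ s, y ∈ cl x s → R x y := fun x hx y hy s h1 => by
    have h2 : ∀ t, ∀ x ∈ X1, ∀ y ∈ X1, R x y → R (a^[t] x) (a^[t] y) := fun t x hx y hy r => by
      induction t with
      | zero => exact r
      | succ t ih =>
        rw [Function.iterate_succ_apply', Function.iterate_succ_apply']
        exact h.relInv _ (hY _ ((inv_iterate hinv t x).2 hx)) _
          (hY _ ((inv_iterate hinv t y).2 hy)) ih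
    have := h2 s _ (hb s x hx) _ (hb s y hy)
      (h.rel _ (hY _ (hb s x hx)) _ (hY _ (hb s y hy)) (Eq.symm h1))
    rwa [iterate_apply_symm, iterate_apply_symm] at this
  -- properties of every glued family
  have gen : ∀ om : X → Measure X, (∀ x ∈ X1, IsGlue (om x) (fun s => pushK a k s x) (cl x)) →
      (∀ x ∈ X1, ∀ᵐ y ∂om x, y ∈ X1 ∧ R x y) ∧ (∀ x ∈ X1, ∀ r : ℝ, om x {y | N x y < r} ≠ ∞) ∧
      (∀ x ∈ X1, ∀ r : ℝ, 0 < r → om x {y | N x y < r} ≠ 0) ∧
      (∀ x ∈ X1, ∀ y ∈ X1, ∀ s, y ∈ cl x s → ∃ c : ℝ≥0∞, c ≠ 0 ∧ c ≠ ∞ ∧ om x = c • om y) ∧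
      ∀ x ∈ X1, ∃ c : ℝ≥0∞, c ≠ 0 ∧ c ≠ ∞ ∧ om (a x) = c • (om x).map a := by
    intro om ho
    have c1 : ∀ x ∈ X1, ∀ᵐ y ∂om x, y ∈ X1 ∧ R x y := fun x hx =>
      (ho x hx).ae fun s => (hcar x hx s).mono fun y hy => ⟨hy.1, hrel x hx y hy.1 s hy.2⟩
    have c5 : ∀ x ∈ X1, ∃ c : ℝ≥0∞, c ≠ 0 ∧ c ≠ ∞ ∧ om (a x) = c • (om x).map a := fun x hx => by
      have g1 := (ho _ ((hinv x).2 hx)).shift 1
      have g2 := (ho x hx).map a
      have e1 : (fun t => a.symm ⁻¹' cl x t) = fun t => cl (a x) (t + 1) := by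
        funext t
        ext y
        simp only [cl, mem_preimage, mem_ofPred_eq, Function.iterate_succ_apply, a.symm_apply_apply]
      simp only [← pushK_succ'] at g2
      rw [e1] at g2
      exact g1.unique g2 (fun t => hclm' _ _) (hq _ ((hinv x).2 hx) 1) fun t => measure_ne_top _ _
    refine ⟨c1, fun x hx r => ?_, fun x hx r hr => ?_, fun x hx y hy s h1 => ?_, c5⟩
    · obtain ⟨s, hs⟩ := h.exh x (hY x hx) r
      refine ne_top_of_le_ne_top ((ho x hx).restrict_eq (t := s) measure_univ).2.1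
        (measure_mono_ae ?_)
      filter_upwards [c1 x hx] with y hy h1
      exact hs y (hY y hy.1) hy.2 h1
    · obtain ⟨s, hs⟩ := h.shr x (hY x hx) r hr
      have c6 : ∀ n, ∃ c : ℝ≥0∞, om (a^[n] x) = c • (om x).map a^[n] := fun n => by
        induction n with
        | zero => exact ⟨1, by simp⟩
        | succ n ih =>
          obtain ⟨c, h3⟩ := ih
          obtain ⟨c', -, -, h6⟩ := c5 _ ((inv_iterate hinv n x).2 hx)
          refine ⟨c' * c, ?_⟩
          rw [Function.iterate_succ', Function.comp_apply, h6, h3, Measure.map_smul, smul_smul,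
            Measure.map_map a.measurable (a.measurable.iterate n)]
      obtain ⟨c, hc⟩ := c6 s
      have h2 := ((ho _ ((inv_iterate hinv s x).2 hx)).restrict_eq (t := 0) measure_univ).1
      rw [hc, Measure.smul_apply, Measure.map_apply (a.measurable.iterate s) (hclm' _ _),
        smul_eq_mul] at h2
      refine fun h0 => right_ne_zero_of_mul h2
        (le_antisymm ((measure_mono_ae ?_).trans h0.le) zero_le)
      filter_upwards [c1 x hx] with y hy h1
      exact hs y (hY y hy.1) h1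
    · have g1 := (ho x hx).shift s
      have g2 := (ho y hy).shift s
      simp only [(htail x hx y hy s h1 _).1, (htail x hx y hy s h1 _).2] at g2
      exact g1.unique g2 (fun t => hclm' _ _) (hq x hx s) fun t => measure_ne_top _ _
  -- the kernel
  choose k' hk' hk'' using fun s => exists_kernel_inv_smul (pushK a k s)
    (measurable_kernel_rel (pushK a k s) (P := fun x y => y ∈ cl x 0) (hclm 0))
    (D := fun x => disjointed (cl x) s) (hDm s)
  have ho' : ∀ x ∈ X1, IsGlue (Kernel.sum k' x) (fun s => pushK a k s x) (cl x) := fun x hx => by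
    rw [Kernel.sum_apply, funext fun s => hk'' s x ((hgl x hx).1 s)]
    exact (hgl x hx).2
  obtain ⟨-, d2, d3, -⟩ := gen _ ho'
  have hB : MeasurableSet {p : X × X | N p.1 p.2 < 1} := measurableSet_lt h.measN measurable_const
  obtain ⟨om, hs, hom⟩ := exists_kernel_inv_smul (Kernel.sum k')
    (measurable_kernel_rel (Kernel.sum k') (P := fun x y => N x y < 1) hB)
    (D := fun _ => univ) (by simp)
  simp only [Measure.restrict_univ] at hom
  have ho : ∀ x ∈ X1, IsGlue (om x) (fun s => pushK a k s x) (cl x) := fun x hx => by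
    rw [hom x (d3 x hx 1 one_pos)]
    exact (ho' x hx).smul (ENNReal.inv_ne_zero.2 (d2 x hx 1))
      (ENNReal.inv_ne_top.2 (d3 x hx 1 one_pos))
  obtain ⟨c1, c2, c3, c4, c5⟩ := gen _ ho
  have hn : ∀ x ∈ X1, om x {y | N x y < 1} = 1 := fun x hx => by
    rw [hom x (d3 x hx 1 one_pos), Measure.smul_apply, smul_eq_mul,
      ENNReal.inv_mul_cancel (d3 x hx 1 one_pos) (d2 x hx 1)]
  have hp : ∀ x ∈ X1, ∀ y ∈ X1, ∀ s, y ∈ cl x s → om x {w | N y w < 1} ≠ 0 ∧
      om x {w | N y w < 1} ≠ ∞ ∧ om x = om x {w | N y w < 1} • om y := fun x hx y hy s h1 => by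
    obtain ⟨c, b1, b2, b3⟩ := c4 x hx y hy s h1
    have : om x {w | N y w < 1} = c := by
      rw [b3, Measure.smul_apply, hn y hy, smul_eq_mul, mul_one]
    rw [this]
    exact ⟨b1, b2, b3⟩
  refine ⟨om, X1, hY, hs, hm, hae, hinv, c1, c2, c3, hn, fun x hx y hy r => ?_, c5, fun Ψ hΨ => ?_⟩
  · obtain ⟨s, hs⟩ := h.exh x (hY x hx) (N x y + 1)
    exact hp x hx y hy s (hs y (hY y hy) r (lt_add_one _))
  have hc : ∀ s, Measurable fun x => om x (cl x s) := fun s =>
    measurable_kernel_rel om (P := fun x y => y ∈ cl x s) (hclm s)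
  have hw : Measurable fun p : X × X => om p.1 {w | N p.2 w < 1} :=
    Kernel.measurable_kernel_prodMk_left (κ := Kernel.prodMkRight X om)
      (t := {q : (X × X) × X | N q.1.2 q.2 < 1})
      (measurableSet_lt (h.measN.comp (measurable_fst.snd.prodMk measurable_snd)) measurable_const)
  let Φ : ℕ → X → X → ℝ≥0∞ := fun s x y => (disjointed (cl x) s).indicator (Ψ x) y * om x (cl x s)
  have hΦ : ∀ s, Measurable (Function.uncurry (Φ s)) := fun s =>
    (hΨ.indicator (hDm s)).mul ((hc s).comp measurable_fst)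
  have e1 : ∀ᵐ x ∂μ, ∫⁻ y, Ψ x y ∂om x = ∑' s, ∫⁻ y, Φ s x y ∂pushK a k s x :=
    hae.mono fun x hx => (ho x hx).lintegral_eq (hclm' x) (fun s => measure_univ)
      hΨ.of_uncurry_left
  have e2 : ∀ᵐ y ∂μ, ∫⁻ x, Ψ x y * om x {w | N y w < 1} ∂om y =
      ∑' s, ∫⁻ x, Φ s x y * 1 ∂pushK a k s y := hae.mono fun y hy => by
    rw [(ho y hy).lintegral_eq (hclm' y) (fun s => measure_univ)
      (Φ := fun x => Ψ x y * om x {w | N y w < 1})
      ((hΨ.mul hw).comp (measurable_prodMk_right (y := y)))]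
    refine tsum_congr fun s => lintegral_congr_ae ((hcar y hy s).mono fun x hx => ?_)
    have h1 : y ∈ cl x s := Eq.symm hx.2
    have h2 : om x (cl x s) = om x {w | N y w < 1} * om y (cl y s) := by
      have h3 := (htail x hx.1 y hy s h1 0).2
      rw [zero_add] at h3
      conv_lhs => rw [(hp x hx.1 y hy s h1).2.2, ← h3]
      rfl
    by_cases h3 : y ∈ disjointed (cl x) s
    · simp only [Φ, indicator_of_mem h3, indicator_of_mem ((hDs x y s).1 h3), h2, mul_one,
        mul_assoc]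
    · simp only [Φ, indicator_of_notMem h3, indicator_of_notMem (mt (hDs x y s).2 h3), zero_mul]
  rw [lintegral_congr_ae e1, lintegral_congr_ae e2,
    lintegral_tsum fun s => (hΦ s).lintegral_kernel_prod_right.aemeasurable,
    lintegral_tsum fun s => (((hΦ s).mul_const 1).lintegral_kernel_prod_left
      (f := fun x y => Φ s x y * 1)).aemeasurable]
  exact tsum_congr fun s => hmtp.pushK h.pres s _ (hΦ s)

end Pool.Agent.P.MP_d483fb_an.Z


end

section

/-!
Consequences of the mass transport identity for leafwise measures.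
-/

namespace Pool.Agent.P.MP_d483fb_an.Z

open MeasureTheory ProbabilityTheory Set Filter
open scoped ENNReal

variable {X Z : Type*} [MeasurableSpace X] [MeasurableSpace Z] {μ : Measure X} {a : X ≃ᵐ X}
  {R : X → X → Prop} {N : X → X → ℝ} {om : Kernel X X} {X1 : Set X}

namespace IsLeafwise

theorem toMtp (h : IsLeafwise μ a R N om X1) : Mtp μ om fun x y => om x {w | N y w < 1} := h.mtp

theorem ne_zero (h : IsLeafwise μ a R N om X1) {x : X} (hx : x ∈ X1) : om x ≠ 0 := fun h0 => by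
  simpa [h0] using h.norm x hx

/-- Proportionality, with the relation in the other direction. -/
theorem prop_symm (h : IsLeafwise μ a R N om X1) {x y : X} (hx : x ∈ X1) (hy : y ∈ X1)
    (r : R y x) : om x {w | N y w < 1} ≠ 0 ∧ om x {w | N y w < 1} ≠ ∞ ∧
      om x = om x {w | N y w < 1} • om y := by
  obtain ⟨h1, h2, h3⟩ := h.prop y hy x hx r
  generalize om y {w | N x w < 1} = c at h1 h2 h3
  have h4 : om x = c⁻¹ • om y := by
    rw [h3, smul_smul, ENNReal.inv_mul_cancel h1 h2, one_smul]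
  have h5 : om x {w | N y w < 1} = c⁻¹ := by
    rw [h4, Measure.smul_apply, h.norm y hy, smul_eq_mul, mul_one]
  rw [h5]
  exact ⟨ENNReal.inv_ne_zero.2 h2, ENNReal.inv_ne_top.2 h1, h4⟩

/-- W4. -/
theorem ae_null (h : IsLeafwise μ a R N om X1) {B : Set X} (hB : μ B = 0) :
    ∀ᵐ x ∂μ, om x B = 0 := h.toMtp.ae_null hB

/-- W4. -/
theorem ae_ae (h : IsLeafwise μ a R N om X1) {p : X → Prop} (hp : ∀ᵐ x ∂μ, p x) :
    ∀ᵐ x ∂μ, ∀ᵐ y ∂om x, p y := h.toMtp.ae_ae hp

theorem measurable_ball (h : IsLeafwise μ a R N om X1) (hN : Measurable (Function.uncurry N))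
    (r : ℝ) : Measurable fun p : X × X => om p.1 {w | N p.2 w < r} := by
  have := h.sfin
  exact Kernel.measurable_kernel_prodMk_left (κ := Kernel.prodMkRight X om)
    (t := {q : (X × X) × X | N q.1.2 q.2 < r})
    (measurableSet_lt (hN.comp (measurable_fst.snd.prodMk measurable_snd)) measurable_const)

/-- The two orders of choosing a point and a point of its leaf have the same null sets. -/
theorem ae_swap (h : IsLeafwise μ a R N om X1) (hN : Measurable (Function.uncurry N))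
    {P : X → X → Prop} (hP : MeasurableSet {p : X × X | P p.1 p.2})
    (hp : ∀ᵐ x ∂μ, ∀ᵐ y ∂om x, P x y) : ∀ᵐ y ∂μ, ∀ᵐ x ∂om y, P x y := by
  have := h.sfin
  have hm : Measurable (Function.uncurry fun x y =>
      {p : X × X | P p.1 p.2}ᶜ.indicator (1 : X × X → ℝ≥0∞) (x, y)) :=
    measurable_one.indicator hP.compl
  have h1 := h.mtp _ hm
  have h2 : ∫⁻ x, ∫⁻ y, {p : X × X | P p.1 p.2}ᶜ.indicator (1 : X × X → ℝ≥0∞) (x, y) ∂om x ∂μ
      = 0 := by
    refine (lintegral_congr_ae (g := fun _ => 0) (hp.mono fun x hx => ?_)).trans lintegral_zero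
    refine (lintegral_congr_ae (g := fun _ => 0) (hx.mono fun y hy => ?_)).trans lintegral_zero
    exact indicator_of_notMem (s := {p : X × X | P p.1 p.2}ᶜ) (fun h => h hy) _
  have hm2 : Measurable fun q : X × X =>
      {p : X × X | P p.1 p.2}ᶜ.indicator (1 : X × X → ℝ≥0∞) (q.2, q.1) * om q.2 {w | N q.1 w < 1} :=
    (hm.mul (h.measurable_ball hN 1)).comp measurable_swap
  rw [h2, eq_comm, lintegral_eq_zero_iff (Measurable.lintegral_kernel_prod_right' hm2)] at h1
  filter_upwards [h1, h.conull] with y hy hy1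
  filter_upwards [(lintegral_eq_zero_iff (hm2.comp (measurable_prodMk_left (x := y)))).1 hy,
    h.carried y hy1] with x hx hx1
  by_contra hc
  have h3 : (x, y) ∈ {p : X × X | P p.1 p.2}ᶜ := hc
  simp only [Function.comp, indicator_of_mem h3, Pi.one_apply, one_mul, Pi.zero_apply] at hx
  exact (h.prop_symm hx1.1 hy1 hx1.2).1 hx

/-- W5. -/
theorem ae_of_ae_ae (h : IsLeafwise μ a R N om X1) (hN : Measurable (Function.uncurry N))
    {p : X → Prop} (hm : MeasurableSet {y | p y}) (hp : ∀ᵐ x ∂μ, ∀ᵐ y ∂om x, p y) :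
    ∀ᵐ y ∂μ, p y := by
  filter_upwards [h.ae_swap hN (P := fun _ y => p y) (measurable_snd hm) hp, h.conull]
    with y hy hy1
  have : (ae (om y)).NeBot := ae_neBot.2 (h.ne_zero hy1)
  exact hy.exists.choose_spec

/-- The good set can be chosen inside any conull set. -/
theorem shrink (h : IsLeafwise μ a R N om X1) (ha : MeasurePreserving a μ μ) {G : Set X}
    (hG : ∀ᵐ x ∂μ, x ∈ G) : ∃ X2, X2 ⊆ X1 ∧ X2 ⊆ G ∧ IsLeafwise μ a R N om X2 := by
  obtain ⟨S, h1, h2, h3, h4, h5⟩ := exists_closed_conull ha (k := om) (fun B => h.ae_null)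
    (G := X1 ∩ G) (h.conull.and hG)
  have h6 : ∀ x ∈ S, x ∈ X1 := fun x hx => (h2 hx).1
  exact ⟨S, h6, fun x hx => (h2 hx).2, h.sfin, h1, h3, h4,
    fun x hx => (h5 x hx).and ((h.carried x (h6 x hx)).mono fun y hy => hy.2),
    fun x hx => h.fin x (h6 x hx), fun x hx => h.pos x (h6 x hx), fun x hx => h.norm x (h6 x hx),
    fun x hx y hy => h.prop x (h6 x hx) y (h6 y hy), fun x hx => h.equiv x (h6 x hx), h.mtp⟩

/-- Leafwise measures for `a` are leafwise measures for `a⁻¹`. -/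
theorem symm (h : IsLeafwise μ a R N om X1) : IsLeafwise μ a.symm R N om X1 := by
  have hi : ∀ x, a.symm x ∈ X1 ↔ x ∈ X1 := fun x => by
    rw [← h.inv (a.symm x), a.apply_symm_apply]
  refine ⟨h.sfin, h.meas, h.conull, hi, h.carried, h.fin, h.pos, h.norm, h.prop, fun x hx => ?_,
    h.mtp⟩
  obtain ⟨c, h1, h2, h3⟩ := h.equiv _ ((hi x).2 hx)
  rw [a.apply_symm_apply] at h3
  refine ⟨c⁻¹, ENNReal.inv_ne_zero.2 h2, ENNReal.inv_ne_top.2 h1, ?_⟩
  rw [h3, Measure.map_smul, MeasurableEquiv.map_symm_map, smul_smul, ENNReal.inv_mul_cancel h1 h2,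
    one_smul]

theorem iterate_mem (h : IsLeafwise μ a R N om X1) (n : ℕ) (x : X) : a^[n] x ∈ X1 ↔ x ∈ X1 := by
  induction n with
  | zero => rfl
  | succ n ih => rw [Function.iterate_succ_apply', h.inv, ih]

/-- Equivariance under the iterates (use `h.symm` for the negative ones). -/
theorem equiv_iterate (h : IsLeafwise μ a R N om X1) (n : ℕ) {x : X} (hx : x ∈ X1) :
    ∃ c : ℝ≥0∞, c ≠ 0 ∧ c ≠ ∞ ∧ om (a^[n] x) = c • (om x).map a^[n] := by
  induction n with
  | zero => exact ⟨1, one_ne_zero, ENNReal.one_ne_top, by simp⟩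
  | succ n ih =>
    obtain ⟨c, h1, h2, h3⟩ := ih
    obtain ⟨c', h4, h5, h6⟩ := h.equiv _ ((h.iterate_mem n x).2 hx)
    refine ⟨c' * c, mul_ne_zero h4 h1, ENNReal.mul_ne_top h5 h2, ?_⟩
    rw [Function.iterate_succ', Function.comp_apply, h6, h3, Measure.map_smul, smul_smul,
      Measure.map_map a.measurable (a.measurable.iterate n)]

/-- W6: a map that preserves almost all leafwise measures preserves the measure. -/
theorem map_eq (h : IsLeafwise μ a R N om X1) (hN : Measurable (Function.uncurry N)) {u : X → X}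
    (hu : Measurable u) (hinv : ∀ᵐ x ∂μ, (om x).map u = om x) : μ.map u = μ := by
  have := h.sfin
  have hb := h.measurable_ball hN 1
  have hfin : ∀ᵐ y ∂μ, om y {w | N (u y) w < 1} ≠ 0 ∧ om y {w | N (u y) w < 1} ≠ ∞ := by
    have hm : Measurable fun y => om y {w | N (u y) w < 1} := hb.comp (measurable_id.prodMk hu)
    refine h.ae_of_ae_ae hN ((hm (measurableSet_singleton 0)).compl.inter
      (hm (measurableSet_singleton ∞)).compl) ?_
    filter_upwards [hinv, h.conull] with x hx hx1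
    have h1 := h.carried x hx1
    have h2 := h1
    rw [← hx] at h2
    filter_upwards [h1, ae_of_ae_map hu.aemeasurable h2] with y hy hy'
    obtain ⟨b1, b2, b3⟩ := h.prop x hx1 y hy.1 hy.2
    obtain ⟨c1, c2, -⟩ := h.prop x hx1 _ hy'.1 hy'.2
    rw [b3, Measure.smul_apply, smul_eq_mul] at c1 c2
    exact ⟨right_ne_zero_of_mul c1, fun h0 => c2 (by rw [h0, ENNReal.mul_top b1])⟩
  have key : ∀ v : X → X, Measurable v →
      (∀ᵐ y ∂μ, om y {w | N (v y) w < 1} ≠ 0 ∧ om y {w | N (v y) w < 1} ≠ ∞) →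
      ∀ B, MeasurableSet B → ∫⁻ x, ∫⁻ y, {p : X × X | p.2 ∈ B ∧ N p.2 p.1 < 1}.indicator
        (fun p => (om p.1 {w | N p.2 w < 1})⁻¹) (x, v y) ∂om x ∂μ = μ (v ⁻¹' B) := by
    intro v hv hvf B hB
    have hP : MeasurableSet {p : X × X | p.2 ∈ B ∧ N p.2 p.1 < 1} :=
      (measurable_snd hB).inter (measurableSet_lt (hN.comp measurable_swap) measurable_const)
    rw [h.mtp (fun x y => {p : X × X | p.2 ∈ B ∧ N p.2 p.1 < 1}.indicator
        (fun p => (om p.1 {w | N p.2 w < 1})⁻¹) (x, v y))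
      ((hb.inv.indicator hP).comp (measurable_fst.prodMk (hv.comp measurable_snd))),
      ← lintegral_indicator_one (hv hB)]
    refine lintegral_congr_ae ?_
    filter_upwards [hvf, h.conull] with y hy hy1
    by_cases hyB : y ∈ v ⁻¹' B
    · have hS : MeasurableSet {w | N (v y) w < 1} :=
        measurableSet_lt hN.of_uncurry_left measurable_const
      rw [indicator_of_mem hyB, Pi.one_apply, ← ENNReal.inv_mul_cancel hy.1 hy.2,
        ← setLIntegral_const, ← lintegral_indicator hS]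
      refine lintegral_congr_ae ((h.carried y hy1).mono fun x hx => ?_)
      obtain ⟨b1, b2, b3⟩ := h.prop_symm hx.1 hy1 hx.2
      by_cases hx' : x ∈ {w | N (v y) w < 1}
      · have hm : (x, v y) ∈ {p : X × X | p.2 ∈ B ∧ N p.2 p.1 < 1} := ⟨hyB, hx'⟩
        simp only [indicator_of_mem hm, indicator_of_mem hx']
        have e : om x {w | N (v y) w < 1} = om x {w | N y w < 1} * om y {w | N (v y) w < 1} := by
          conv_lhs => rw [b3]
          rfl
        rw [e, ENNReal.mul_inv (Or.inl b1) (Or.inl b2), mul_right_comm,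
          ENNReal.inv_mul_cancel b1 b2, one_mul]
      · simp only [indicator_of_notMem hx']
        rw [indicator_of_notMem (fun h => hx' h.2), zero_mul]
    · rw [indicator_of_notMem hyB]
      refine (lintegral_congr fun x => ?_).trans lintegral_zero
      rw [indicator_of_notMem (fun h => hyB h.1), zero_mul]
  refine Measure.ext fun B hB => ?_
  have hP : MeasurableSet {p : X × X | p.2 ∈ B ∧ N p.2 p.1 < 1} :=
    (measurable_snd hB).inter (measurableSet_lt (hN.comp measurable_swap) measurable_const)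
  have e1 := key id measurable_id (h.conull.mono fun y hy => by simp [h.norm y hy]) B hB
  rw [Measure.map_apply hu hB, ← key u hu hfin B hB, ← preimage_id (s := B), ← e1]
  refine lintegral_congr_ae (hinv.mono fun x hx => ?_)
  have e2 := lintegral_map (μ := om x) ((hb.inv.indicator hP).comp (measurable_prodMk_left (x := x))) hu
  rw [hx] at e2
  exact e2.symm

variable [StandardBorelSpace X] [Nonempty X] [StandardBorelSpace Z]

/-- W3. -/
theorem condDistrib_eq (h : IsLeafwise μ a R N om X1) {K : Set X} (hK : MeasurableSet K)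
    {lab : X → Z} (hl : Measurable lab) {S : Set X} (hS : ∀ᵐ x ∂μ, x ∈ S)
    (h1 : ∀ x ∈ S, x ∈ K → om x {y | y ∈ K ∧ lab y = lab x} ≠ 0 ∧
      om x {y | y ∈ K ∧ lab y = lab x} ≠ ∞)
    (h2 : ∀ x ∈ S, ∀ y ∈ S, x ∈ K → y ∈ K → lab x = lab y → R x y)
    (ν : Measure X) [IsFiniteMeasure ν] {c : ℝ≥0∞} (hν : ν = c • μ.restrict K) :
    ∀ᵐ x ∂ν, condDistrib id lab ν (lab x) = (om x)[|{y | y ∈ K ∧ lab y = lab x}] := by
  have := h.sfin
  exact h.toMtp.condDistrib_eq hK hl (S := S ∩ X1) (hS.and h.conull) (fun x hx => h1 x hx.1)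
    (fun x hx y hy b1 b2 e => (h.prop x hx.2 y hy.2 (h2 x hx.1 y hy.1 b1 b2 e)).2.2) ν hν

omit [StandardBorelSpace X] [Nonempty X] [StandardBorelSpace Z] [MeasurableSpace Z] in
/-- Bounded classes that contain a ball have positive finite leafwise measure. -/
theorem ae_class_pos (h : IsLeafwise μ a R N om X1) {K : Set X} {lab : X → Z} {S : Set X}
    (hS : ∀ᵐ x ∂μ, x ∈ S)
    (hbd : ∀ x ∈ S, x ∈ K → ∃ r, ∀ y ∈ S, y ∈ K → lab y = lab x → N x y < r)
    (hin : ∀ x ∈ S, x ∈ K → ∃ r, 0 < r ∧ ∀ y ∈ S, R x y → N x y < r → y ∈ K ∧ lab y = lab x) :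
    ∀ᵐ x ∂μ, x ∈ K → om x {y | y ∈ K ∧ lab y = lab x} ≠ 0 ∧
      om x {y | y ∈ K ∧ lab y = lab x} ≠ ∞ := by
  filter_upwards [hS, h.conull, h.ae_ae hS] with x hx hx1 hx2 hxK
  obtain ⟨r, hr⟩ := hbd x hx hxK
  obtain ⟨r', h0, hr'⟩ := hin x hx hxK
  refine ⟨fun h3 => h.pos x hx1 r' h0 (le_antisymm ((measure_mono_ae ?_).trans h3.le) zero_le),
    ne_top_of_le_ne_top (h.fin x hx1 r) (measure_mono_ae ?_)⟩
  · filter_upwards [hx2, h.carried x hx1] with y hy hy' h4
    exact hr' y hy hy'.2 h4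
  · filter_upwards [hx2] with y hy h4
    exact hr y hy h4.1 h4.2

/-- W3 for bounded classes that contain a ball. -/
theorem condDistrib_eq' (h : IsLeafwise μ a R N om X1) {K : Set X} (hK : MeasurableSet K)
    {lab : X → Z} (hl : Measurable lab) {S : Set X} (hS : ∀ᵐ x ∂μ, x ∈ S)
    (hrel : ∀ x ∈ S, ∀ y ∈ S, x ∈ K → y ∈ K → lab x = lab y → R x y)
    (hbd : ∀ x ∈ S, x ∈ K → ∃ r, ∀ y ∈ S, y ∈ K → lab y = lab x → N x y < r)
    (hin : ∀ x ∈ S, x ∈ K → ∃ r, 0 < r ∧ ∀ y ∈ S, R x y → N x y < r → y ∈ K ∧ lab y = lab x)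
    (ν : Measure X) [IsFiniteMeasure ν] {c : ℝ≥0∞} (hν : ν = c • μ.restrict K) :
    ∀ᵐ x ∂ν, condDistrib id lab ν (lab x) = (om x)[|{y | y ∈ K ∧ lab y = lab x}] :=
  h.condDistrib_eq hK hl (S := S ∩ {x | x ∈ K → om x {y | y ∈ K ∧ lab y = lab x} ≠ 0 ∧
      om x {y | y ∈ K ∧ lab y = lab x} ≠ ∞}) (hS.and (h.ae_class_pos hS hbd hin))
    (fun _ hx => hx.2) (fun x hx y hy => hrel x hx.1 y hy.1) ν hν

end IsLeafwise

end Pool.Agent.P.MP_d483fb_an.Z


end
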