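import Pool.Agent.P.MP_d483fb_an.M.A01

section

/-! The trace of a commutator `[A, A*]` on a subspace invariant under `A` is nonnegative. -/

open scoped InnerProductSpace RealInnerProductSpace

noncomputable section

namespace Pool.Agent.P.MP_d483fb_an.Z.Avg

theorem trace_nonneg_inner {V : Type} [NormedAddCommGroup V] [InnerProductSpace ℝ V]
    [FiniteDimensional ℝ V] (q : Submodule ℝ V) (A B C : V →ₗ[ℝ] V)
    (hAB : ∀ x y, ⟪A x, y⟫ = ⟪x, B y⟫) (hA : ∀ x ∈ q, A x ∈ q)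
    (hC : ∀ x, C x = A (B x) - B (A x)) (hq : ∀ x ∈ q, C x ∈ q) :
    0 ≤ LinearMap.trace ℝ q (C.restrict hq) := by
  classical
  set b := stdOrthonormalBasis ℝ q
  rw [LinearMap.trace_eq_sum_inner _ b]
  have h1 : ∀ i, ⟪b i, (C.restrict hq) (b i)⟫ = ‖B (b i)‖ ^ 2 - ‖A (b i)‖ ^ 2 := by
    intro i
    rw [Submodule.coe_inner, LinearMap.coe_restrict_apply, hC, inner_sub_right, ← hAB,
      real_inner_comm, hAB, real_inner_self_eq_norm_sq, real_inner_self_eq_norm_sq]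
  have h2 : ∀ i, ‖A (b i)‖ ^ 2 = ∑ j, ⟪(b i : V), B (b j)⟫ ^ 2 := by
    intro i
    have := b.sum_sq_inner_right (⟨A (b i), hA _ (b i).2⟩ : q)
    rw [Submodule.coe_norm] at this
    rw [← this]
    refine Finset.sum_congr rfl fun j _ => ?_
    rw [Submodule.coe_inner, real_inner_comm, hAB]
  have h3 : ∀ j, ∑ i, ⟪(b i : V), B (b j)⟫ ^ 2 ≤ ‖B (b j)‖ ^ 2 := by
    intro j
    have ho : Orthonormal ℝ fun i => (b i : V) :=
      b.orthonormal.comp_linearIsometry q.subtypeₗᵢ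
    have := ho.sum_inner_products_le (s := Finset.univ) (B (b j))
    simpa only [Real.norm_eq_abs, sq_abs] using this
  simp only [h1, h2, Finset.sum_sub_distrib, sub_nonneg]
  rw [Finset.sum_comm]
  exact Finset.sum_le_sum fun j _ => h3 j

theorem trace_nonneg_form {V : Type} [AddCommGroup V] [Module ℝ V] [FiniteDimensional ℝ V]
    (f : V → V → ℝ) (hs : ∀ x y, f x y = f y x) (ha : ∀ x y z, f (x + y) z = f x z + f y z)
    (hm : ∀ (c : ℝ) x y, f (c • x) y = c * f x y) (h0 : ∀ x, 0 ≤ f x x)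
    (h1 : ∀ x, f x x = 0 → x = 0) (q : Submodule ℝ V) (A B C : V →ₗ[ℝ] V)
    (hAB : ∀ x y, f (A x) y = f x (B y)) (hA : ∀ x ∈ q, A x ∈ q)
    (hC : ∀ x, C x = A (B x) - B (A x)) (hq : ∀ x ∈ q, C x ∈ q) :
    0 ≤ LinearMap.trace ℝ q (C.restrict hq) := by
  let c : InnerProductSpace.Core ℝ V :=
    { inner := f
      conj_inner_symm := fun x y => by simpa using hs y x
      re_inner_nonneg := fun x => by simpa using h0 x
      add_left := ha
      smul_left := fun x y r => by simpa using hm r x y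
      definite := h1 }
  let : NormedAddCommGroup V := c.toNormedAddCommGroup
  let : InnerProductSpace ℝ V := InnerProductSpace.ofCore c.toCore
  exact trace_nonneg_inner q A B C hAB hA hC hq

/-- The trace of a combination of commuting projections preserving a subspace. -/
theorem trace_restrict_proj {V : Type} [AddCommGroup V] [Module ℝ V] [FiniteDimensional ℝ V]
    (q w : Submodule ℝ V) (P : V →ₗ[ℝ] V) (hq : ∀ x ∈ q, P x ∈ q) (hw : ∀ x ∈ q, P x ∈ w)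
    (hid : ∀ x ∈ w, P x = x) :
    LinearMap.trace ℝ q (P.restrict hq) = (Module.finrank ℝ ↥(w ⊓ q) : ℝ) := by
  have hp : LinearMap.IsProj (w.comap q.subtype) (P.restrict hq) :=
    { map_mem := fun x => hw _ x.2
      map_id := fun x hx => Subtype.ext (hid _ hx) }
  rw [hp.trace]
  congr 1
  rw [← Submodule.finrank_map_subtype_eq, Submodule.map_comap_subtype, inf_comm]

end Pool.Agent.P.MP_d483fb_an.Z.Avg

end

end

section

/-! The weight sum of a subalgebra containing the Cartan subspace. -/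

open scoped Matrix InnerProductSpace RealInnerProductSpace
open Set Module

noncomputable section

namespace Pool.Agent.P.MP_d483fb_an.Z.Avg

variable {G : Type} [Group G] [TopologicalSpace G] {n k : ℕ} (D : Std G n k)

/-- The adjoint action of a matrix. -/
def adL (E : Mat n) : Mat n →ₗ[ℝ] Mat n := LinearMap.mulLeft ℝ E - LinearMap.mulRight ℝ E

theorem adL_apply (E X : Mat n) : adL E X = ⁅E, X⁆ := by
  simp [adL, Ring.lie_def]

theorem br_neg (X Y : Mat n) : ⁅X, Y⁆ = -⁅Y, X⁆ := by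
  simp [Ring.lie_def]

theorem jac (X Y Z : Mat n) : ⁅⁅X, Y⁆, Z⁆ = ⁅X, ⁅Y, Z⁆⁆ - ⁅Y, ⁅X, Z⁆⁆ := by
  simp only [Ring.lie_def]
  noncomm_ring

theorem br_add_left (X Y Z : Mat n) : ⁅X + Y, Z⁆ = ⁅X, Z⁆ + ⁅Y, Z⁆ := by
  simp only [Ring.lie_def]
  noncomm_ring

theorem br_smul_left (c : ℝ) (X Y : Mat n) : ⁅c • X, Y⁆ = c • ⁅X, Y⁆ := by
  simp only [Ring.lie_def, smul_mul_assoc, mul_smul_comm, smul_sub]

theorem br_dg_apply (s : Euc k) (X : Mat n) (i j : Fin n) :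
    ⁅D.dg s, X⁆ i j = ⟪D.lam i - D.lam j, s⟫ * X i j := by
  rw [Ring.lie_def, D.dg_apply, Matrix.sub_apply, Matrix.diagonal_mul, Matrix.mul_diagonal,
    inner_sub_left]
  ring

theorem prS_mem {q : Submodule ℝ (Mat n)} (hq : ∀ s, ∀ X ∈ q, ⁅D.dg s, X⁆ ∈ q)
    (S : Set (Euc k)) {X : Mat n} (hX : X ∈ q) : D.prS S X ∈ q := by
  classical
  have := mask_mem q (fun s i j => ⟪D.lam i - D.lam j, s⟫) (fun s Y hY => by
      have := hq s Y hY
      convert this using 1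
      ext i j
      rw [br_dg_apply, Matrix.of_apply]) {p | D.lam p.1 - D.lam p.2 ∈ S}
    (fun p hp p' h => by
      have : D.lam p.1 - D.lam p.2 = D.lam p'.1 - D.lam p'.2 := ext_inner_right ℝ h
      rwa [mem_ofPred_eq, ← this]) hX
  convert this using 1
  ext i j
  rw [D.prS_apply, Matrix.of_apply]
  simp only [mem_ofPred_eq]

theorem prS_wt (S : Set (Euc k)) (X : Mat n) : D.prS S X ∈ D.wtS S := by
  intro i j h
  rw [D.prS_apply] at h
  by_contra h'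
  exact h (if_neg h')

theorem prS_of_mem {S : Set (Euc k)} {X : Mat n} (h : X ∈ D.wtS S) : D.prS S X = X := by
  ext i j
  rw [D.prS_apply]
  split_ifs with h'
  · rfl
  · by_contra h2
    exact h' (h i j (Ne.symm h2))

theorem prS_add_compl (S : Set (Euc k)) (X : Mat n) : D.prS S X + D.prS Sᶜ X = X := by
  ext i j
  rw [Matrix.add_apply, D.prS_apply, D.prS_apply]
  by_cases h : D.lam i - D.lam j ∈ S <;> simp [h]

theorem pr_eq_zero {S : Set (Euc k)} {X : Mat n} (h : X ∈ D.wtS S) {γ : Euc k} (hγ : γ ∉ S) :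
    D.pr γ X = 0 := by
  ext i j
  rw [Std.pr, D.prS_apply]
  split_ifs with h'
  · by_contra h2
    exact hγ (h' ▸ h i j h2)
  · rfl

theorem mem_wts (i j : Fin n) : D.lam i - D.lam j ∈ D.wts := by
  classical
  exact Finset.mem_image.2 ⟨(i, j), Finset.mem_univ _, rfl⟩

theorem neg_mem_wts {γ : Euc k} (h : γ ∈ D.wts) : -γ ∈ D.wts := by
  classical
  obtain ⟨p, -, rfl⟩ := Finset.mem_image.1 h
  rw [neg_sub]
  exact mem_wts D _ _

theorem sum_smul_pr (f : Euc k → ℝ) (X : Mat n) (i j : Fin n) :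
    (∑ γ ∈ D.wts, f γ • D.pr γ X) i j = f (D.lam i - D.lam j) * X i j := by
  rw [Matrix.sum_apply, Finset.sum_eq_single (D.lam i - D.lam j)]
  · rw [Matrix.smul_apply, Std.pr, D.prS_apply, if_pos (mem_singleton _), smul_eq_mul]
  · intro γ _ hγ
    rw [Matrix.smul_apply, Std.pr, D.prS_apply, if_neg (fun h => hγ h.symm), smul_zero]
  · exact fun h => absurd (mem_wts D i j) h

theorem sum_pr (X : Mat n) : ∑ γ ∈ D.wts, D.pr γ X = X := by
  ext i j
  simpa using sum_smul_pr D (fun _ => 1) X i j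

theorem br_dg (s : Euc k) (X : Mat n) : ⁅D.dg s, X⁆ = ∑ γ ∈ D.wts, ⟪γ, s⟫ • D.pr γ X := by
  ext i j
  rw [br_dg_apply, sum_smul_pr D (fun γ => ⟪γ, s⟫)]

theorem br_dg_of_mem {γ : Euc k} {X : Mat n} (h : X ∈ D.wtS {γ}) (s : Euc k) :
    ⁅D.dg s, X⁆ = ⟪γ, s⟫ • X := by
  ext i j
  rw [br_dg_apply, Matrix.smul_apply, smul_eq_mul]
  by_cases h0 : X i j = 0
  · rw [h0, mul_zero, mul_zero]
  · rw [show D.lam i - D.lam j = γ from h i j h0]

theorem tr_wt {S T : Set (Euc k)} {X : Mat n} (h : X ∈ D.wtS S) (hS : ∀ β ∈ S, -β ∈ T) :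
    Xᵀ ∈ D.wtS T := by
  intro i j hij
  have := hS _ (h j i hij)
  rwa [neg_sub] at this

theorem br_wt {S T R : Set (Euc k)} {X Y : Mat n} (hX : X ∈ D.wtS S) (hY : Y ∈ D.wtS T)
    (h : ∀ β ∈ S, ∀ γ ∈ T, β + γ ∈ R) : ⁅X, Y⁆ ∈ D.wtS R := by
  rw [Ring.lie_def]
  exact sub_mem (D.wtS_mul hX hY h)
    (D.wtS_mul hY hX fun β hβ γ hγ => add_comm γ β ▸ h γ hγ β hβ)

theorem ip_dg (s t : Euc k) : ip (D.dg s) (D.dg t) = ⟪s, t⟫ := by
  rw [← D.frame, ip]
  refine Finset.sum_congr rfl fun i _ => ?_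
  rw [Finset.sum_eq_single i]
  · simp [D.dg_apply]
  · intro j _ hj
    rw [D.dg_apply, Matrix.diagonal_apply_ne _ hj.symm, zero_mul]
  · simp

theorem ip_prS (S : Set (Euc k)) (X : Mat n) :
    ip X (D.prS S X) = ip (D.prS S X) (D.prS S X) := by
  refine Finset.sum_congr rfl fun i _ => Finset.sum_congr rfl fun j _ => ?_
  rw [D.prS_apply]
  split_ifs <;> simp

theorem mem_roots {β : Euc k} : β ∈ D.roots ↔ β ≠ 0 ∧ D.gr β ≠ ⊥ := by
  classical
  refine ⟨fun h => (Finset.mem_filter.1 h).2, fun h => Finset.mem_filter.2 ⟨?_, h⟩⟩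
  obtain ⟨X, hX, h0⟩ := (Submodule.ne_bot_iff _).1 h.2
  obtain ⟨i, j, hij⟩ : ∃ i j, X i j ≠ 0 := by
    by_contra hc
    push Not at hc
    exact h0 (Matrix.ext hc)
  rw [← show D.lam i - D.lam j = β from hX.2 i j hij]
  exact mem_wts D i j

/-- A subspace invariant under the Cartan subspace lies in `q` if its root components do. -/
theorem grS_le (hg : IsSub D.g) {S : Set (Euc k)} {q : Submodule ℝ (Mat n)}
    (h : ∀ γ ∈ S, D.gr γ ≤ q) : D.grS S ≤ q := by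
  intro X hX
  rw [← sum_pr D X]
  refine Submodule.sum_mem _ fun γ _ => ?_
  by_cases hγ : γ ∈ S
  · exact h γ hγ ⟨prS_mem D (fun s Y hY => hg _ (D.dg_mem s) _ hY) _ hX.1, prS_wt D _ _⟩
  · rw [pr_eq_zero D hX.2 hγ]
    exact q.zero_mem

theorem gr_le_grS {S : Set (Euc k)} {γ : Euc k} (h : γ ∈ S) : D.gr γ ≤ D.grS S :=
  fun _ hX => ⟨hX.1, fun i j hij => (show D.lam i - D.lam j = γ from hX.2 i j hij) ▸ h⟩

section

variable (hg : IsSub D.g) (hT : ∀ X ∈ D.g, Xᵀ ∈ D.g)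
include hT

theorem tr_gr {γ : Euc k} {X : Mat n} (h : X ∈ D.gr γ) : Xᵀ ∈ D.gr (-γ) :=
  ⟨hT _ h.1, tr_wt D h.2 fun β hβ => by rw [show β = γ from hβ]; rfl⟩

theorem finrank_gr_le (γ : Euc k) : finrank ℝ (D.gr γ) ≤ finrank ℝ (D.gr (-γ)) := by
  let f : D.gr γ →ₗ[ℝ] D.gr (-γ) :=
    { toFun := fun X => ⟨X.1ᵀ, tr_gr D hT X.2⟩
      map_add' := fun X Y => Subtype.ext (Matrix.transpose_add _ _)
      map_smul' := fun c X => Subtype.ext (Matrix.transpose_smul _ _) }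
  refine LinearMap.finrank_le_finrank_of_injective (f := f) fun X Y h => Subtype.ext ?_
  exact Matrix.transpose_injective (congrArg Subtype.val h)

theorem finrank_gr_neg (γ : Euc k) : finrank ℝ (D.gr (-γ)) = finrank ℝ (D.gr γ) := by
  refine le_antisymm ?_ (finrank_gr_le D hT γ)
  have := finrank_gr_le D hT (-γ)
  rwa [neg_neg] at this

theorem neg_mem_roots {β : Euc k} (h : β ∈ D.roots) : -β ∈ D.roots := by
  rw [mem_roots] at h ⊢
  refine ⟨neg_ne_zero.2 h.1, fun h0 => h.2 ?_⟩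
  have := finrank_gr_neg D hT β
  rw [h0, finrank_bot] at this
  exact Submodule.finrank_eq_zero.1 this.symm

include hg

theorem br_tr {l : Euc k} {E : Mat n} (hE : E ∈ D.gr l) : ⁅E, Eᵀ⁆ = ip E E • D.dg l := by
  have hE' := tr_gr D hT hE
  have h0 : ⁅E, Eᵀ⁆ ∈ D.wtS {0} := br_wt D hE.2 hE'.2 fun β hβ γ hγ => by
    rw [show β = l from hβ, show γ = -l from hγ, add_neg_cancel]
    rfl
  obtain ⟨s, hs⟩ := D.max' _ (hg _ hE.1 _ hE'.1)
    (by rw [Matrix.IsSymm, tr_br, Matrix.transpose_transpose])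
    fun i j hij => sub_eq_zero.1 (h0 i j hij)
  rw [← D.dg_apply] at hs
  rw [hs, ← map_smul]
  congr 1
  refine ext_inner_right ℝ fun t => ?_
  rw [← ip_dg D, ← hs, ip_br, br_neg, br_dg_of_mem D hE'.2, ip_neg_right, ip_smul_right, ip_tr,
    real_inner_smul_left, inner_neg_left]
  ring

end

/-- The sum of the weights of `q`, with multiplicity. -/
def wsum (q : Submodule ℝ (Mat n)) : Euc k :=
  ∑ γ ∈ D.wts, (finrank ℝ ↥(D.gr γ ⊓ q) : ℝ) • γ

theorem inner_wsum (q : Submodule ℝ (Mat n)) (s : Euc k) :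
    ⟪wsum D q, s⟫ = ∑ γ ∈ D.wts, (finrank ℝ ↥(D.gr γ ⊓ q) : ℝ) * ⟪γ, s⟫ := by
  simp only [wsum, sum_inner, real_inner_smul_left]

theorem trace_dg {q : Submodule ℝ (Mat n)} (hqg : q ≤ D.g)
    (hq : ∀ s, ∀ X ∈ q, ⁅D.dg s, X⁆ ∈ q) (s : Euc k) (h : ∀ X ∈ q, adL (D.dg s) X ∈ q) :
    LinearMap.trace ℝ q ((adL (D.dg s)).restrict h) = ⟪wsum D q, s⟫ := by
  have hp : ∀ γ, ∀ X ∈ q, D.pr γ X ∈ q := fun γ X hX => prS_mem D hq _ hX
  have : (adL (D.dg s)).restrict h = ∑ γ ∈ D.wts, ⟪γ, s⟫ • (D.pr γ).restrict (hp γ) := by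
    ext X : 2
    rw [LinearMap.coe_restrict_apply, adL_apply, br_dg, LinearMap.sum_apply,
      Submodule.coe_sum]
    rfl
  rw [this, map_sum, inner_wsum]
  refine Finset.sum_congr rfl fun γ _ => ?_
  rw [map_smul, trace_restrict_proj q (D.gr γ) (D.pr γ) (hp γ)
    (fun X hX => ⟨hqg (hp γ X hX), prS_wt D _ _⟩) fun X hX => prS_of_mem D hX.2,
    smul_eq_mul, mul_comm]

variable (hg : IsSub D.g) (hT : ∀ X ∈ D.g, Xᵀ ∈ D.g) {q : Submodule ℝ (Mat n)}
include hg hT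

/-- The trace inequality: a weight of `q` pairs nonnegatively with the weight sum of `q`. -/
theorem wsum_nonneg (hqg : q ≤ D.g) (hq : IsSub q) (ha : ∀ s, D.dg s ∈ q) {β : Euc k}
    (hβ : D.gr β ⊓ q ≠ ⊥) : 0 ≤ ⟪β, wsum D q⟫ := by
  obtain ⟨E, hE, h0⟩ := (Submodule.ne_bot_iff _).1 hβ
  have hs : ∀ X ∈ q, adL (D.dg (ip E E • β)) X ∈ q := fun X hX => by
    rw [adL_apply]
    exact hq _ (ha _) _ hX
  have := trace_nonneg_form ip ip_comm ip_add_left ip_smul_left ip_self_nonneg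
    (fun _ => ip_self_eq_zero.1) q (adL E) (adL Eᵀ) (adL (D.dg (ip E E • β)))
    (fun X Y => by rw [adL_apply, adL_apply, ip_br])
    (fun X hX => by rw [adL_apply]; exact hq _ hE.2 _ hX)
    (fun X => by simp only [adL_apply]; rw [map_smul, ← br_tr D hg hT hE.1, jac]) hs
  rw [trace_dg D hqg (fun s X hX => hq _ (ha s) _ hX), real_inner_smul_right,
    real_inner_comm] at this
  exact nonneg_of_mul_nonneg_right this (ip_self_pos h0)

/-- If the weight sum does not see `H`, then `q` contains both horospherical algebras. -/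
theorem np_neg_le {H : Euc k} (hH : D.np H ≤ q) (h0 : ⟪wsum D q, H⟫ ≤ 0) : D.np (-H) ≤ q := by
  set d : Euc k → ℝ := fun γ => (finrank ℝ ↥(D.gr γ ⊓ q) : ℝ) with hd
  have hfull : ∀ γ, 0 < ⟪γ, H⟫ → d γ = finrank ℝ (D.gr γ) := fun γ hγ => by
    simp only [hd]
    rw [inf_eq_left.2 ((gr_le_grS D (S := {γ | 0 < ⟪γ, H⟫}) hγ).trans hH)]
  have hle : ∀ γ, d (-γ) ≤ finrank ℝ (D.gr γ) := fun γ => by
    simp only [hd]
    rw [← finrank_gr_neg D hT γ]
    exact_mod_cast Submodule.finrank_mono inf_le_left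
  have h1 : ∑ γ ∈ D.wts, d (-γ) * ⟪γ, H⟫ = -⟪wsum D q, H⟫ := by
    rw [inner_wsum, ← Finset.sum_neg_distrib]
    refine Finset.sum_nbij' (fun γ => -γ) (fun γ => -γ) (fun γ => neg_mem_wts D)
      (fun γ => neg_mem_wts D) (fun γ _ => neg_neg γ) (fun γ _ => neg_neg γ) fun γ _ => ?_
    rw [inner_neg_left, mul_neg, neg_neg]
  have hpos : ∀ γ ∈ D.wts, 0 ≤ (d γ - d (-γ)) * ⟪γ, H⟫ := fun γ _ => by
    rcases lt_trichotomy 0 ⟪γ, H⟫ with h | h | h
    · exact mul_nonneg (by rw [hfull γ h]; linarith [hle γ]) h.le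
    · rw [← h, mul_zero]
    · have h' : 0 < ⟪-γ, H⟫ := by rw [inner_neg_left]; linarith
      have := hle (-γ)
      rw [neg_neg, ← hfull _ h'] at this
      exact mul_nonneg_of_nonpos_of_nonpos (by linarith) h.le
  have hsum : ∑ γ ∈ D.wts, (d γ - d (-γ)) * ⟪γ, H⟫ = 0 := by
    refine le_antisymm ?_ (Finset.sum_nonneg hpos)
    simp only [sub_mul, Finset.sum_sub_distrib]
    rw [h1, ← inner_wsum]
    linarith
  rw [Finset.sum_eq_zero_iff_of_nonneg hpos] at hsum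
  refine grS_le D hg fun γ hγ => ?_
  by_cases hb : D.gr γ = ⊥
  · rw [hb]
    exact bot_le
  have hγ' : ⟪γ, H⟫ < 0 := by
    rw [mem_ofPred_eq, inner_neg_right] at hγ
    linarith
  have hr : γ ∈ D.wts := by
    classical
    refine (Finset.mem_filter.1 ((mem_roots D).2 ⟨?_, hb⟩)).1
    rintro rfl
    simp at hγ'
  have h2 := (mul_eq_zero.1 (hsum γ hr)).resolve_right hγ'.ne
  rw [hfull (-γ) (by rw [inner_neg_left]; linarith), finrank_gr_neg D hT, sub_eq_zero] at h2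
  have h3 : D.gr γ ⊓ q = D.gr γ :=
    Submodule.eq_of_le_of_finrank_eq inf_le_left (Nat.cast_injective (R := ℝ) h2)
  exact inf_eq_left.1 h3

omit hg in
/-- The weight sum vanishes if no root pairs negatively with it. -/
theorem wsum_eq_zero (h : ∀ β ∈ D.roots, 0 ≤ ⟪β, wsum D q⟫) : wsum D q = 0 := by
  have h0 : ∀ β ∈ D.roots, ⟪β, wsum D q⟫ = 0 := fun β hβ => by
    have := h _ (neg_mem_roots D hT hβ)
    rw [inner_neg_left] at this
    linarith [h β hβ]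
  rw [← inner_self_eq_zero (𝕜 := ℝ), inner_wsum]
  refine Finset.sum_eq_zero fun γ _ => ?_
  by_cases hγ : γ ∈ D.roots
  · rw [h0 γ hγ, mul_zero]
  · rw [mem_roots, not_and_or, not_not, not_not] at hγ
    rcases hγ with rfl | hγ
    · simp
    · rw [hγ, bot_inf_eq, finrank_bot]
      simp

end Pool.Agent.P.MP_d483fb_an.Z.Avg

end

end

section

/-! Further definitions: closed groups of units, simple factors. -/

open scoped Matrix Matrix.Norms.Operator InnerProductSpace RealInnerProductSpace Topology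
open NormedSpace Filter Set

noncomputable section

namespace Pool.Agent.P.MP_d483fb_an.Z

/-- A group of units which is closed in the group of all units. -/
structure MatGrp {A : Type} [Monoid A] [TopologicalSpace A] (S : Set A) : Prop where
  one : 1 ∈ S
  mul : ∀ x ∈ S, ∀ y ∈ S, x * y ∈ S
  inv : ∀ x ∈ S, ∃ y ∈ S, x * y = 1 ∧ y * x = 1
  closed : ∀ x ∈ closure S, IsUnit x → x ∈ S

/-- The Lie algebra of a group of units. -/
def lieOf {A : Type} [Ring A] [Algebra ℝ A] [TopologicalSpace A] [IsTopologicalRing A]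
    (S : Set A) : Submodule ℝ A :=
  Submodule.span ℝ {X | ∀ t : ℝ, exp (t • X) ∈ S}

namespace Std

variable {G : Type} [Group G] [TopologicalSpace G] {n k : ℕ} (D : Std G n k)

/-- The roots of the simple factor of `β`. -/
def facR (β : Euc k) : Set (Euc k) := {γ | γ ∈ D.roots ∧ D.Conn β γ}

/-- The simple ideal that contains the root space of `β`. -/
def fac (β : Euc k) : Submodule ℝ (Mat n) :=
  D.grS (D.facR β) ⊔ Submodule.span ℝ
    {Z | ∃ γ ∈ D.facR β, ∃ E ∈ D.gr γ, ∃ F ∈ D.gr (-γ), Z = ⁅E, F⁆}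

/-- `s` is regular. -/
def Reg (s : Euc k) : Prop := ∀ β ∈ D.roots, ⟪β, s⟫ ≠ 0

/-- `P` is closed under addition and positive on `H`. -/
structure Pos (P : Set (Euc k)) (H : Euc k) : Prop where
  add : ∀ β ∈ P, ∀ γ ∈ P, β + γ ∈ P
  pos : ∀ β ∈ P, 0 < ⟪β, H⟫

end Std

end Pool.Agent.P.MP_d483fb_an.Z

end

end

section

/-! Weight spaces of a group in standard form. -/

open scoped Matrix Matrix.Norms.Operator InnerProductSpace RealInnerProductSpace Topology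
open NormedSpace Filter Set

noncomputable section

namespace Pool.Agent.P.MP_d483fb_an.Z

namespace Std

variable {G : Type} [Group G] [TopologicalSpace G] [IsTopologicalGroup G] {n k : ℕ}
  (D : Std G n k)

set_option linter.unusedSectionVars false

theorem mem_g_iff {X : Mat n} : X ∈ D.g ↔ ∀ t : ℝ, exp (t • X) ∈ range D.ρ := by
  refine ⟨fun hX t => ⟨D.ex (t • X), D.ρ_ex _ (D.g.smul_mem t hX)⟩, fun h => ?_⟩
  have h0 : Tendsto (fun t : ℝ => t • X) (𝓝 0) (𝓝 0) := by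
    have : Continuous fun t : ℝ => t • X := continuous_id.smul continuous_const
    simpa using this.tendsto 0
  have h1 : Tendsto (fun t : ℝ => exp (t • X)) (𝓝 0) (𝓝[range D.ρ] 1) := by
    refine tendsto_nhdsWithin_iff.2 ⟨?_, Eventually.of_forall h⟩
    have hc : Continuous (exp : Mat n → Mat n) := exp_cont
    have := (hc.tendsto 0).comp h0
    rwa [exp_zero] at this
  rw [← D.opn] at h1
  have h2 : ∀ᶠ y in Filter.map D.ρ (𝓝 (1 : G)), mlog y ∈ D.g := by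
    rw [Filter.eventually_map]
    filter_upwards [D.ex_lg] with x hx using hx.1
  have h3 : ∀ᶠ Y in 𝓝 (0 : Mat n), mlog (exp Y) = Y := mlog_exp
  have h4 : ∀ᶠ t : ℝ in 𝓝 0, t • X ∈ D.g := by
    filter_upwards [h1.eventually h2, h0.eventually h3] with t ht ht'
    rwa [ht'] at ht
  obtain ⟨t, ht, ht0⟩ := ((h4.filter_mono nhdsWithin_le_nhds).and
    (self_mem_nhdsWithin (a := (0 : ℝ)) (s := {0}ᶜ))).exists
  have := D.g.smul_mem t⁻¹ ht
  rwa [smul_smul, inv_mul_cancel₀ ht0, one_smul] at this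

theorem lieOf_range : lieOf (range D.ρ) = D.g := by
  have : {X : Mat n | ∀ t : ℝ, exp (t • X) ∈ range D.ρ} = D.g := by
    ext X
    exact D.mem_g_iff.symm
  rw [lieOf, this, Submodule.span_eq]

theorem tr_mem {X : Mat n} (hX : X ∈ D.g) : Xᵀ ∈ D.g := by
  refine D.mem_g_iff.2 fun t => ?_
  obtain ⟨x, hx⟩ := D.mem_g_iff.1 hX t
  obtain ⟨x', hx'⟩ := D.tr x
  refine ⟨x', ?_⟩
  rw [hx', hx, ← Matrix.transpose_smul, Matrix.exp_transpose]

theorem g_isSub : IsSub D.g := fun _ hX _ hY => D.br_mem hX hY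

theorem dg_symm (s : Euc k) : (D.dg s)ᵀ = D.dg s := by
  rw [dg_apply, Matrix.diagonal_transpose]

theorem br_dg_apply (s : Euc k) (X : Mat n) (i j : Fin n) :
    ⁅D.dg s, X⁆ i j = ⟪D.lam i - D.lam j, s⟫ * X i j := by
  rw [Ring.lie_def, Matrix.sub_apply, dg_apply, Matrix.diagonal_mul, Matrix.mul_diagonal,
    inner_sub_left]
  ring

theorem dg_br (s t : Euc k) : ⁅D.dg s, D.dg t⁆ = 0 := by
  ext i j
  rw [br_dg_apply, Matrix.zero_apply]
  by_cases h : i = j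
  · rw [h, sub_self, inner_zero_left, zero_mul]
  · rw [dg_apply, Matrix.diagonal_apply_ne _ h, mul_zero]

theorem ip_dg (s t : Euc k) : ip (D.dg s) (D.dg t) = ⟪s, t⟫ := by
  rw [← D.frame, ip]
  refine Finset.sum_congr rfl fun i _ => ?_
  rw [Finset.sum_eq_single i]
  · rw [dg_apply, dg_apply, Matrix.diagonal_apply_eq, Matrix.diagonal_apply_eq]
  · intro j _ hj
    rw [dg_apply, Matrix.diagonal_apply_ne _ hj.symm, zero_mul]
  · intro h
    exact absurd (Finset.mem_univ i) h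

theorem dg_inj : Function.Injective D.dg := by
  refine (injective_iff_map_eq_zero _).2 fun s hs => ?_
  have := D.ip_dg s s
  rw [hs, ip_zero_left] at this
  exact inner_self_eq_zero.1 this.symm

theorem wtS_mono {S T : Set (Euc k)} (h : S ⊆ T) : D.wtS S ≤ D.wtS T :=
  fun _ hX i j hij => h (hX i j hij)

theorem grS_mono {S T : Set (Euc k)} (h : S ⊆ T) : D.grS S ≤ D.grS T :=
  inf_le_inf_left _ (D.wtS_mono h)

theorem grS_le (S : Set (Euc k)) : D.grS S ≤ D.g := inf_le_left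

theorem grS_univ : D.grS univ = D.g :=
  le_antisymm (D.grS_le _) (le_inf le_rfl fun _ _ _ _ _ => mem_univ _)

theorem gr_le (β : Euc k) : D.gr β ≤ D.g := D.grS_le _

theorem gr_le_grS {S : Set (Euc k)} {β : Euc k} (h : β ∈ S) : D.gr β ≤ D.grS S :=
  D.grS_mono (singleton_subset_iff.2 h)

theorem mem_wtS_singleton {β : Euc k} {X : Mat n} :
    X ∈ D.wtS {β} ↔ ∀ s, ⁅D.dg s, X⁆ = ⟪β, s⟫ • X := by
  rw [mem_wtS]
  constructor
  · intro h s
    ext i j
    rw [br_dg_apply, Matrix.smul_apply, smul_eq_mul]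
    by_cases h0 : X i j = 0
    · rw [h0, mul_zero, mul_zero]
    · rw [mem_singleton_iff.1 (h i j h0)]
  · intro h i j h0
    refine mem_singleton_iff.2 (ext_inner_right ℝ fun s => ?_)
    have := congrFun (congrFun (h s) i) j
    rw [br_dg_apply, Matrix.smul_apply, smul_eq_mul] at this
    exact mul_right_cancel₀ h0 this

theorem mem_gr {β : Euc k} {X : Mat n} :
    X ∈ D.gr β ↔ X ∈ D.g ∧ ∀ s, ⁅D.dg s, X⁆ = ⟪β, s⟫ • X := by
  rw [← mem_wtS_singleton]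
  exact Submodule.mem_inf

theorem br_dg {β : Euc k} {X : Mat n} (hX : X ∈ D.gr β) (s : Euc k) :
    ⁅D.dg s, X⁆ = ⟪β, s⟫ • X := (D.mem_gr.1 hX).2 s

theorem mem_wall {s : Euc k} {X : Mat n} : X ∈ D.wtS (wall s) ↔ ⁅D.dg s, X⁆ = 0 := by
  rw [mem_wtS]
  constructor
  · intro h
    ext i j
    rw [br_dg_apply, Matrix.zero_apply]
    by_cases h0 : X i j = 0
    · rw [h0, mul_zero]
    · have : ⟪D.lam i - D.lam j, s⟫ = 0 := h i j h0
      rw [this, zero_mul]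
  · intro h i j h0
    have := congrFun (congrFun h i) j
    rw [br_dg_apply, Matrix.zero_apply] at this
    exact (mul_eq_zero.1 this).resolve_right h0

theorem dg_mem_gr (s : Euc k) : D.dg s ∈ D.gr 0 :=
  D.mem_gr.2 ⟨D.dg_mem s, fun t => by rw [dg_br, inner_zero_left, zero_smul]⟩

theorem exists_dg {X : Mat n} (hX : X ∈ D.gr 0) (hs : X.IsSymm) : ∃ s, X = D.dg s :=
  D.max' X hX.1 hs fun i j h => sub_eq_zero.1 (mem_singleton_iff.1 (hX.2 i j h))

end Std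

end Pool.Agent.P.MP_d483fb_an.Z

end

end

section

/-! Projections on weight spaces and roots. -/

open scoped Matrix Matrix.Norms.Operator InnerProductSpace RealInnerProductSpace Topology
open NormedSpace Filter Set

set_option linter.unusedSectionVars false

noncomputable section

namespace Pool.Agent.P.MP_d483fb_an.Z

namespace Std

variable {G : Type} [Group G] [TopologicalSpace G] [IsTopologicalGroup G] {n k : ℕ}
  (D : Std G n k)

theorem prS_mem_wtS (S : Set (Euc k)) (X : Mat n) : D.prS S X ∈ D.wtS S := Avg.prS_wt D S X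

theorem prS_eq_self {S : Set (Euc k)} {X : Mat n} : D.prS S X = X ↔ X ∈ D.wtS S :=
  ⟨fun h => h ▸ D.prS_mem_wtS S X, Avg.prS_of_mem D⟩

theorem prS_eq_zero {S T : Set (Euc k)} {X : Mat n} (hX : X ∈ D.wtS T) (h : Disjoint S T) :
    D.prS S X = 0 := by
  ext i j
  rw [D.prS_apply]
  split_ifs with h'
  · by_contra h2
    exact Set.disjoint_left.1 h h' (hX i j h2)
  · rfl

theorem prS_add_compl (S : Set (Euc k)) (X : Mat n) : D.prS S X + D.prS Sᶜ X = X :=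
  Avg.prS_add_compl D S X

theorem norm_prS_le (S : Set (Euc k)) (X : Mat n) : ‖D.prS S X‖ ≤ ‖X‖ := by
  rw [Matrix.linfty_opNorm_def, Matrix.linfty_opNorm_def, NNReal.coe_le_coe]
  refine Finset.sup_mono_fun fun i _ => Finset.sum_le_sum fun j _ => ?_
  rw [D.prS_apply]
  split_ifs <;> simp

theorem prS_mem_of_inv {v : Submodule ℝ (Mat n)} (hv : ∀ s, ∀ X ∈ v, ⁅D.dg s, X⁆ ∈ v)
    (S : Set (Euc k)) {X : Mat n} (hX : X ∈ v) : D.prS S X ∈ v := Avg.prS_mem D hv S hX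

theorem prS_mem (S : Set (Euc k)) {X : Mat n} (hX : X ∈ D.g) : D.prS S X ∈ D.grS S :=
  ⟨D.prS_mem_of_inv (fun s _ hY => D.g_isSub _ (D.dg_mem s) _ hY) S hX, D.prS_mem_wtS S X⟩

theorem pr_mem (β : Euc k) {X : Mat n} (hX : X ∈ D.g) : D.pr β X ∈ D.gr β := D.prS_mem _ hX

theorem sum_pr (X : Mat n) : ∑ β ∈ D.wts, D.pr β X = X := Avg.sum_pr D X

theorem mem_roots {β : Euc k} : β ∈ D.roots ↔ β ≠ 0 ∧ D.gr β ≠ ⊥ := Avg.mem_roots D

theorem exists_ne_zero {β : Euc k} (h : β ∈ D.roots) : ∃ E ∈ D.gr β, E ≠ 0 :=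
  (Submodule.ne_bot_iff _).1 (D.mem_roots.1 h).2

theorem root_ne_zero {β : Euc k} (h : β ∈ D.roots) : β ≠ 0 := (D.mem_roots.1 h).1

theorem gr_eq_bot {β : Euc k} (h0 : β ≠ 0) (h : β ∉ D.roots) : D.gr β = ⊥ := by
  by_contra hb
  exact h (D.mem_roots.2 ⟨h0, hb⟩)

theorem decomp {X : Mat n} (hX : X ∈ D.g) : D.pr 0 X + ∑ β ∈ D.roots, D.pr β X = X := by
  ext i j
  have key : ∀ β, D.pr β X i j = if D.lam i - D.lam j = β then X i j else 0 := fun β => by
    rw [pr, D.prS_apply]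
    simp only [mem_singleton_iff]
  rw [Matrix.add_apply, Matrix.sum_apply]
  by_cases h0 : D.lam i - D.lam j = 0
  · rw [key, if_pos h0, Finset.sum_eq_zero, add_zero]
    intro β hβ
    rw [key, if_neg]
    rw [h0]
    exact (D.root_ne_zero hβ).symm
  rw [key, if_neg h0, zero_add, Finset.sum_eq_single (D.lam i - D.lam j), key, if_pos rfl]
  · intro β _ hβ
    rw [key, if_neg hβ.symm]
  · intro h
    have := D.pr_mem (D.lam i - D.lam j) hX
    rw [D.gr_eq_bot h0 h, Submodule.mem_bot] at this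
    rw [this]
    rfl

theorem grS_le_of {S : Set (Euc k)} {v : Submodule ℝ (Mat n)}
    (h : ∀ β ∈ S, β = 0 ∨ β ∈ D.roots → D.gr β ≤ v) : D.grS S ≤ v := by
  refine Avg.grS_le D D.g_isSub fun β hβ => ?_
  by_cases h1 : β = 0 ∨ β ∈ D.roots
  · exact h β hβ h1
  · rw [not_or] at h1
    rw [D.gr_eq_bot h1.1 h1.2]
    exact bot_le

theorem grS_congr {S T : Set (Euc k)} (h : ∀ β, β = 0 ∨ β ∈ D.roots → (β ∈ S ↔ β ∈ T)) :
    D.grS S = D.grS T :=
  le_antisymm (D.grS_le_of fun β hβ h1 => D.gr_le_grS ((h β h1).1 hβ))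
    (D.grS_le_of fun β hβ h1 => D.gr_le_grS ((h β h1).2 hβ))

theorem br_grS {S T R : Set (Euc k)} {X Y : Mat n} (hX : X ∈ D.grS S) (hY : Y ∈ D.grS T)
    (h : ∀ β ∈ S, ∀ γ ∈ T, β + γ ∈ R) : ⁅X, Y⁆ ∈ D.grS R :=
  ⟨D.g_isSub _ hX.1 _ hY.1, Avg.br_wt D hX.2 hY.2 h⟩

theorem br_gr {β γ : Euc k} {X Y : Mat n} (hX : X ∈ D.gr β) (hY : Y ∈ D.gr γ) :
    ⁅X, Y⁆ ∈ D.gr (β + γ) :=
  D.br_grS hX hY fun a ha b hb => by
    rw [show a = β from ha, show b = γ from hb]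
    rfl

theorem br_eq_zero {β γ : Euc k} {X Y : Mat n} (hX : X ∈ D.gr β) (hY : Y ∈ D.gr γ)
    (h0 : β + γ ≠ 0) (h : β + γ ∉ D.roots) : ⁅X, Y⁆ = 0 := by
  have := D.br_gr hX hY
  rwa [D.gr_eq_bot h0 h, Submodule.mem_bot] at this

theorem grS_isSub {S : Set (Euc k)} (h : ∀ β ∈ S, ∀ γ ∈ S, β + γ ∈ S) : IsSub (D.grS S) :=
  fun _ hX _ hY => D.br_grS hX hY h

theorem tr_wtS {S : Set (Euc k)} {X : Mat n} (hX : X ∈ D.wtS S) : Xᵀ ∈ D.wtS (-S) :=
  Avg.tr_wt D hX fun _ hβ => Set.neg_mem_neg.2 hβ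

theorem tr_grS {S : Set (Euc k)} {X : Mat n} (hX : X ∈ D.grS S) : Xᵀ ∈ D.grS (-S) :=
  ⟨D.tr_mem hX.1, D.tr_wtS hX.2⟩

theorem tr_gr {β : Euc k} {X : Mat n} (hX : X ∈ D.gr β) : Xᵀ ∈ D.gr (-β) :=
  Avg.tr_gr D (fun _ => D.tr_mem) hX

theorem neg_mem_roots {β : Euc k} (h : β ∈ D.roots) : -β ∈ D.roots :=
  Avg.neg_mem_roots D (fun _ => D.tr_mem) h

theorem ip_wtS {S T : Set (Euc k)} {X Y : Mat n} (hX : X ∈ D.wtS S) (hY : Y ∈ D.wtS T)
    (h : Disjoint S T) : ip X Y = 0 := by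
  refine Finset.sum_eq_zero fun i _ => Finset.sum_eq_zero fun j _ => ?_
  by_contra hne
  exact Set.disjoint_left.1 h (hX i j (left_ne_zero_of_mul hne)) (hY i j (right_ne_zero_of_mul hne))

theorem finrank_grS_le_neg (S : Set (Euc k)) :
    Module.finrank ℝ (D.grS S) ≤ Module.finrank ℝ (D.grS (-S)) := by
  let f : D.grS S →ₗ[ℝ] D.grS (-S) :=
    { toFun := fun X => ⟨X.1ᵀ, D.tr_grS X.2⟩
      map_add' := fun X Y => Subtype.ext (Matrix.transpose_add _ _)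
      map_smul' := fun c X => Subtype.ext (Matrix.transpose_smul _ _) }
  refine LinearMap.finrank_le_finrank_of_injective (f := f) fun X Y h => Subtype.ext ?_
  exact Matrix.transpose_injective (congrArg Subtype.val h)

theorem finrank_grS_neg (S : Set (Euc k)) :
    Module.finrank ℝ (D.grS (-S)) = Module.finrank ℝ (D.grS S) := by
  refine le_antisymm ?_ (D.finrank_grS_le_neg S)
  have := D.finrank_grS_le_neg (-S)
  rwa [neg_neg] at this

theorem grS_union (S T : Set (Euc k)) : D.grS (S ∪ T) = D.grS S ⊔ D.grS T :=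
  le_antisymm
    (D.grS_le_of fun _ hβ _ => hβ.elim (fun h => (D.gr_le_grS h).trans le_sup_left)
      fun h => (D.gr_le_grS h).trans le_sup_right)
    (sup_le (D.grS_mono subset_union_left) (D.grS_mono subset_union_right))

theorem finrank_grS_union {S T : Set (Euc k)} (h : Disjoint S T) :
    Module.finrank ℝ (D.grS (S ∪ T)) =
      Module.finrank ℝ (D.grS S) + Module.finrank ℝ (D.grS T) := by
  have h0 : D.grS S ⊓ D.grS T = ⊥ :=
    eq_bot_iff.2 fun X hX => ip_self_eq_zero.1 (D.ip_wtS hX.1.2 hX.2.2 h)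
  rw [D.grS_union, ← Submodule.finrank_sup_add_finrank_inf_eq, h0, finrank_bot, add_zero]

theorem exists_reg : ∃ s, D.Reg s := by
  obtain ⟨s, -, -, hs⟩ := exists_generic ⊤ D.roots
    (fun β hβ => ⟨β, trivial, inner_self_ne_zero.2 (D.root_ne_zero hβ)⟩) (s₀ := 0) trivial
    Filter.univ_mem
  exact ⟨s, hs⟩

theorem pos_half (s : Euc k) : Pos {γ : Euc k | 0 < ⟪γ, s⟫} s := by
  refine ⟨fun β hβ γ hγ => ?_, fun _ h => h⟩
  rw [mem_ofPred_eq, inner_add_left]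
  exact add_pos hβ hγ

theorem pos_cls {β : Euc k} (h : β ≠ 0) : Pos (cls β) β := by
  constructor
  · rintro _ ⟨c, hc, rfl⟩ _ ⟨d, hd, rfl⟩
    exact ⟨c + d, add_pos hc hd, (add_smul c d β).symm⟩
  · rintro _ ⟨c, hc, rfl⟩
    rw [real_inner_smul_left]
    exact mul_pos hc (real_inner_self_pos.2 h)

end Std

end Pool.Agent.P.MP_d483fb_an.Z

end

end

section

/-! The Cartan subgroup. -/

open scoped Matrix Matrix.Norms.Operator InnerProductSpace RealInnerProductSpace Topology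
open NormedSpace Filter Set

noncomputable section

namespace Pool.Agent.P.MP_d483fb_an.Z

theorem Std1_exp_diag {n : ℕ} (d : Fin n → ℝ) :
    exp (Matrix.diagonal d : Mat n) = Matrix.diagonal fun i => Real.exp (d i) := by
  rw [Matrix.exp_diagonal]
  congr 1
  funext i
  rw [Pi.exp_def, Real.exp_eq_exp_ℝ]

theorem Std1_norm_le {n : ℕ} {X Y : Mat n} {c : ℝ} (hc : 0 ≤ c)
    (h : ∀ i j, ‖Y i j‖ ≤ c * ‖X i j‖) : ‖Y‖ ≤ c * ‖X‖ := by
  lift c to NNReal using hc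
  have key : ‖Y‖₊ ≤ c * ‖X‖₊ := by
    rw [Matrix.linfty_opNNNorm_def, Matrix.linfty_opNNNorm_def]
    refine Finset.sup_le fun i _ => ?_
    calc ∑ j, ‖Y i j‖₊ ≤ ∑ j, c * ‖X i j‖₊ := Finset.sum_le_sum fun j _ => h i j
      _ = c * ∑ j, ‖X i j‖₊ := (Finset.mul_sum _ _ _).symm
      _ ≤ _ := mul_le_mul_of_nonneg_left
          (Finset.le_sup (f := fun i => ∑ j, ‖X i j‖₊) (Finset.mem_univ i)) zero_le
  exact_mod_cast key

namespace Std

variable {G : Type} [Group G] [TopologicalSpace G] [IsTopologicalGroup G] {n k : ℕ}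
  (D : Std G n k)

omit [IsTopologicalGroup G] in
theorem Std1_ρ_a (s : Euc k) :
    D.ρ (D.a s) = Matrix.diagonal fun i => Real.exp ⟪D.lam i, s⟫ := by
  rw [a, D.ρ_ex _ (D.dg_mem s), dg_apply, Std1_exp_diag]

theorem ρ_a (s : Euc k) :
    D.ρ (D.a s) = Matrix.diagonal fun i => Real.exp ⟪D.lam i, s⟫ := D.Std1_ρ_a s

theorem a_zero : D.a 0 = 1 := by
  rw [a, map_zero, D.ex_zero]

theorem a_add (s t : Euc k) : D.a (s + t) = D.a s * D.a t := by
  rw [a, map_add]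
  exact D.ex_add_of_commute (D.dg_mem s) (D.dg_mem t) (D.dg_br s t)

theorem a_neg (s : Euc k) : D.a (-s) = (D.a s)⁻¹ := by
  rw [a, map_neg]
  exact D.ex_neg (D.dg_mem s)

theorem a_comm (s t : Euc k) : D.a s * D.a t = D.a t * D.a s := by
  rw [← a_add, ← a_add, add_comm]

theorem a_nsmul (s : Euc k) (m : ℕ) : D.a ((m : ℝ) • s) = D.a s ^ m := by
  rw [a, map_smul]
  exact D.ex_nsmul (D.dg_mem s) m

theorem a_zsmul (s : Euc k) (m : ℤ) : D.a ((m : ℝ) • s) = D.a s ^ m := by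
  rw [a, map_smul]
  exact D.ex_zsmul (D.dg_mem s) m

theorem a_cont : Continuous D.a :=
  D.ex_cont.comp_continuous D.dg.continuous_of_finiteDimensional D.dg_mem

omit [IsTopologicalGroup G] in
theorem Std1_sum (s : Euc k) : ∑ i, ⟪D.lam i, s⟫ • D.lam i = s := by
  refine ext_inner_right ℝ fun t => ?_
  rw [sum_inner, ← D.frame s t]
  exact Finset.sum_congr rfl fun i _ => real_inner_smul_left _ _ _

omit [IsTopologicalGroup G] in
theorem Std1_sq (s : Euc k) : ∑ i, ⟪D.lam i, s⟫ ^ 2 = ‖s‖ ^ 2 := by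
  rw [← real_inner_self_eq_norm_sq, ← D.frame s s]
  exact Finset.sum_congr rfl fun i _ => sq _

omit [IsTopologicalGroup G] in
theorem Std1_abs_le (s : Euc k) (i : Fin n) : |⟪D.lam i, s⟫| ≤ ‖s‖ := by
  refine abs_le_of_sq_le_sq' ?_ (norm_nonneg _) |> abs_le.2
  rw [← D.Std1_sq s]
  exact Finset.single_le_sum (f := fun i => ⟪D.lam i, s⟫ ^ 2) (fun _ _ => sq_nonneg _)
    (Finset.mem_univ i)

omit [IsTopologicalGroup G] in
theorem Std1_log (s : Euc k) : ∑ i, Real.log (D.ρ (D.a s) i i) • D.lam i = s := by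
  simp only [D.Std1_ρ_a, Matrix.diagonal_apply_eq, Real.log_exp]
  exact D.Std1_sum s

theorem Std1_cont_at {x : G} (hx : ∀ i, D.ρ x i i ≠ 0) :
    ContinuousAt (fun y => ∑ i, Real.log (D.ρ y i i) • D.lam i) x := by
  refine tendsto_finsetSum _ fun i _ => ?_
  exact (((D.cont.matrix_elem i i).continuousAt.log (hx i)).smul continuousAt_const)

theorem Std1_diag_ne {x : G} (hx : x ∈ closure (range D.a)) (i : Fin n) : D.ρ x i i ≠ 0 := by
  have hc : IsClosed {y : G | D.ρ y i i * D.ρ y⁻¹ i i = 1} :=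
    isClosed_eq ((D.cont.matrix_elem i i).mul ((D.cont.comp continuous_inv).matrix_elem i i))
      continuous_const
  have h : x ∈ {y : G | D.ρ y i i * D.ρ y⁻¹ i i = 1} := by
    refine closure_minimal ?_ hc hx
    rintro _ ⟨s, rfl⟩
    rw [mem_ofPred_eq, ← D.a_neg, D.ρ_a, D.ρ_a, Matrix.diagonal_apply_eq, Matrix.diagonal_apply_eq,
      ← Real.exp_add, inner_neg_right, add_neg_cancel, Real.exp_zero]
  exact left_ne_zero_of_mul_eq_one h

theorem a_closedEmbedding : Topology.IsClosedEmbedding D.a := by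
  have := D.t2Space
  let L : G → Euc k := fun y => ∑ i, Real.log (D.ρ y i i) • D.lam i
  have hL : ∀ s, L (D.a s) = s := D.Std1_log
  have hc : ∀ x ∈ closure (range D.a), ContinuousAt L x := fun x hx =>
    D.Std1_cont_at (D.Std1_diag_ne hx)
  refine ⟨⟨Topology.isInducing_iff_nhds.2 fun s => le_antisymm ?_ ?_,
    Function.LeftInverse.injective hL⟩, isClosed_of_closure_subset fun x hx => ⟨L x, ?_⟩⟩
  · exact tendsto_iff_comap.1 (D.a_cont.tendsto s)
  · have h1 : Tendsto (fun t => L (D.a t)) (comap D.a (𝓝 (D.a s))) (𝓝 (L (D.a s))) :=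
      (hc _ (subset_closure (mem_range_self s))).tendsto.comp tendsto_comap
    simp only [hL] at h1
    exact h1
  · have hn : (𝓝[range D.a] x).NeBot := mem_closure_iff_nhdsWithin_neBot.1 hx
    have h1 : Tendsto (fun y => D.a (L y)) (𝓝[range D.a] x) (𝓝 (D.a (L x))) :=
      ((D.a_cont.tendsto _).comp (hc x hx).tendsto).mono_left nhdsWithin_le_nhds
    have h2 : Tendsto (fun y => D.a (L y)) (𝓝[range D.a] x) (𝓝 x) := by
      refine (tendsto_id.mono_left nhdsWithin_le_nhds).congr' ?_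
      filter_upwards [self_mem_nhdsWithin] with y hy
      obtain ⟨s, rfl⟩ := hy
      rw [hL, id]
    exact tendsto_nhds_unique h1 h2

theorem norm_ρ_a_le (s : Euc k) : ‖D.ρ (D.a s)‖ ≤ Real.exp ‖s‖ := by
  rw [D.ρ_a, Matrix.linfty_opNorm_diagonal]
  refine (pi_norm_le_iff_of_nonneg (Real.exp_pos _).le).2 fun i => ?_
  rw [Real.norm_eq_abs, abs_of_pos (Real.exp_pos _)]
  exact Real.exp_le_exp.2 ((le_abs_self _).trans (D.Std1_abs_le s i))

theorem Std1_le {s : Euc k} {R : ℝ} (h : ‖D.ρ (D.a s)‖ ≤ Real.exp R) (i : Fin n) :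
    ⟪D.lam i, s⟫ ≤ R := by
  rw [D.ρ_a, Matrix.linfty_opNorm_diagonal] at h
  have h1 := (norm_le_pi_norm (fun i => Real.exp ⟪D.lam i, s⟫) i).trans h
  rw [Real.norm_eq_abs, abs_of_pos (Real.exp_pos _)] at h1
  exact Real.exp_le_exp.1 h1

theorem norm_le_of_ρ_a {s : Euc k} {R : ℝ} (h : ‖D.ρ (D.a s)‖ ≤ Real.exp R)
    (h' : ‖D.ρ (D.a s)⁻¹‖ ≤ Real.exp R) : ‖s‖ ≤ n * R := by
  rw [← D.a_neg] at h'
  have h1 : ∀ i, |⟪D.lam i, s⟫| ≤ R := fun i => by
    have h2 := D.Std1_le h' i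
    rw [inner_neg_right] at h2
    exact abs_le.2 ⟨by linarith, D.Std1_le h i⟩
  have h3 : ‖s‖ * ‖s‖ ≤ n * R * ‖s‖ := by
    calc ‖s‖ * ‖s‖ = ∑ i, ⟪D.lam i, s⟫ ^ 2 := by rw [D.Std1_sq, sq]
      _ ≤ ∑ _i : Fin n, R * ‖s‖ := Finset.sum_le_sum fun i _ => by
          rw [← sq_abs, sq]
          exact mul_le_mul (h1 i) (D.Std1_abs_le s i) (abs_nonneg _)
            ((abs_nonneg _).trans (h1 i))
      _ = n * R * ‖s‖ := by
          rw [Finset.sum_const, Finset.card_univ, Fintype.card_fin, nsmul_eq_mul, mul_assoc]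
  rcases (norm_nonneg s).eq_or_lt with h0 | h0
  · rw [← h0]
    rcases Nat.eq_zero_or_pos n with hn | hn
    · rw [hn, Nat.cast_zero, zero_mul]
    · exact mul_nonneg n.cast_nonneg ((abs_nonneg _).trans (h1 ⟨0, hn⟩))
  · exact le_of_mul_le_mul_right h3 h0

theorem Ad_a_apply (s : Euc k) (X : Mat n) (i j : Fin n) :
    D.Ad (D.a s) X i j = Real.exp ⟪D.lam i - D.lam j, s⟫ * X i j := by
  rw [ExpData.Ad_apply, ← D.a_neg, D.ρ_a, D.ρ_a, Matrix.mul_diagonal, Matrix.diagonal_mul,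
    inner_sub_left, inner_neg_right, sub_eq_add_neg, Real.exp_add]
  ring

theorem Std1_Ad_wt (s : Euc k) {β : Euc k} {X : Mat n} (hX : X ∈ D.wtS {β}) :
    D.Ad (D.a s) X = Real.exp ⟪β, s⟫ • X := by
  ext i j
  rw [D.Ad_a_apply, Matrix.smul_apply, smul_eq_mul]
  by_cases h : X i j = 0
  · rw [h, mul_zero, mul_zero]
  · rw [mem_singleton_iff.1 (hX i j h)]

theorem Ad_a_dg (s t : Euc k) : D.Ad (D.a s) (D.dg t) = D.dg t := by
  rw [D.Std1_Ad_wt s (D.dg_mem_gr t).2, inner_zero_left, Real.exp_zero, one_smul]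

theorem Ad_a_gr (s : Euc k) {β : Euc k} {X : Mat n} (hX : X ∈ D.gr β) :
    D.Ad (D.a s) X = Real.exp ⟪β, s⟫ • X := D.Std1_Ad_wt s hX.2

theorem a_conj_ex (s : Euc k) {β : Euc k} {X : Mat n} (hX : X ∈ D.gr β) :
    D.a s * D.ex X * (D.a s)⁻¹ = D.ex (Real.exp ⟪β, s⟫ • X) := by
  rw [D.conj_ex _ hX.1, D.Ad_a_gr s hX]

theorem Ad_a_wtS (s : Euc k) {S : Set (Euc k)} {X : Mat n} (hX : X ∈ D.wtS S) :
    D.Ad (D.a s) X ∈ D.wtS S := by
  intro i j h
  rw [D.Ad_a_apply] at h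
  exact hX i j (right_ne_zero_of_mul h)

theorem Ad_a_grS (s : Euc k) {S : Set (Euc k)} {X : Mat n} (hX : X ∈ D.grS S) :
    D.Ad (D.a s) X ∈ D.grS S := ⟨D.Ad_mem _ hX.1, D.Ad_a_wtS s hX.2⟩

theorem Std1_norm_Ad (s : Euc k) {X : Mat n} {c : ℝ}
    (h : ∀ i j, X i j ≠ 0 → ⟪D.lam i - D.lam j, s⟫ ≤ c) :
    ‖D.Ad (D.a s) X‖ ≤ Real.exp c * ‖X‖ := by
  refine Std1_norm_le (Real.exp_pos c).le fun i j => ?_
  rw [D.Ad_a_apply, norm_mul, Real.norm_eq_abs, abs_of_pos (Real.exp_pos _)]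
  by_cases h0 : X i j = 0
  · rw [h0, norm_zero, mul_zero, mul_zero]
  · exact mul_le_mul_of_nonneg_right (Real.exp_le_exp.2 (h i j h0)) (norm_nonneg _)

omit [IsTopologicalGroup G] in
theorem Std1_mem_wts (i j : Fin n) : D.lam i - D.lam j ∈ D.wts := by
  classical
  unfold wts
  convert Finset.mem_image_of_mem (fun p : Fin n × Fin n => D.lam p.1 - D.lam p.2)
    (Finset.mem_univ (i, j))

theorem norm_Ad_a_le (s : Euc k) {S : Set (Euc k)} {X : Mat n} (hX : X ∈ D.wtS S) {c : ℝ}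
    (h : ∀ β ∈ S, β ∈ D.wts → ⟪β, s⟫ ≤ c) : ‖D.Ad (D.a s) X‖ ≤ Real.exp c * ‖X‖ :=
  D.Std1_norm_Ad s fun i j h0 => h _ (hX i j h0) (D.Std1_mem_wts i j)

theorem norm_Ad_a_le' (s : Euc k) {S : Set (Euc k)} {X : Mat n} (hX : X ∈ D.grS S) {c : ℝ}
    (h : ∀ β ∈ S, β = 0 ∨ β ∈ D.roots → ⟪β, s⟫ ≤ c) :
    ‖D.Ad (D.a s) X‖ ≤ Real.exp c * ‖X‖ := by
  refine D.Std1_norm_Ad s fun i j h0 => h _ (hX.2 i j h0) ?_
  by_cases hb : D.lam i - D.lam j = 0
  · exact Or.inl hb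
  · refine Or.inr (D.mem_roots.2 ⟨hb, fun hbot => h0 ?_⟩)
    have h1 := D.pr_mem (D.lam i - D.lam j) hX.1
    rw [hbot, Submodule.mem_bot] at h1
    have h2 := congrFun (congrFun h1 i) j
    rwa [pr, prS_apply, if_pos (mem_singleton _)] at h2

theorem exists_gap (s : Euc k) : ∃ c > 0, ∀ β ∈ D.wts, 0 < ⟪β, s⟫ → c ≤ ⟪β, s⟫ := by
  have h : ∀ᶠ c in 𝓝[>] (0 : ℝ), ∀ β ∈ D.wts, 0 < ⟪β, s⟫ → c ≤ ⟪β, s⟫ := by
    refine (Finset.eventually_all _).2 fun β _ => ?_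
    by_cases hb : 0 < ⟪β, s⟫
    · filter_upwards [nhdsWithin_le_nhds (Iic_mem_nhds hb)] with c hc _ using hc
    · exact Eventually.of_forall fun c hc => absurd hc hb
  obtain ⟨c, h1, h2⟩ := (h.and self_mem_nhdsWithin).exists
  exact ⟨c, h2, h1⟩

theorem tendsto_Ad_a {s : Euc k} {X : Mat n} (hX : X ∈ D.wtS {γ | 0 < ⟪γ, s⟫}) :
    Tendsto (fun t : ℝ => D.Ad (D.a (-(t • s))) X) atTop (𝓝 0) := by
  obtain ⟨c, hc, h⟩ := D.exists_gap s
  have h1 : Tendsto (fun t : ℝ => Real.exp (-(t * c)) * ‖X‖) atTop (𝓝 (0 * ‖X‖)) :=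
    (Real.tendsto_exp_neg_atTop_nhds_zero.comp (tendsto_id.atTop_mul_const hc)).mul_const _
  rw [zero_mul] at h1
  refine squeeze_zero_norm' ?_ h1
  filter_upwards [eventually_ge_atTop 0] with t ht
  refine D.norm_Ad_a_le _ hX fun β hβ hw => ?_
  rw [inner_neg_right, real_inner_smul_right]
  exact neg_le_neg (mul_le_mul_of_nonneg_left (h β hw hβ) ht)

theorem tendsto_conj_ex {s : Euc k} {X : Mat n} (hX : X ∈ D.np s) :
    Tendsto (fun t : ℝ => D.a (-(t • s)) * D.ex X * D.a (t • s)) atTop (𝓝 1) := by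
  have h1 : Tendsto (fun t : ℝ => D.Ad (D.a (-(t • s))) X) atTop (𝓝[D.g] 0) :=
    tendsto_nhdsWithin_iff.2 ⟨D.tendsto_Ad_a hX.2, Eventually.of_forall fun t => D.Ad_mem _ hX.1⟩
  have h2 : Tendsto D.ex (𝓝[D.g] 0) (𝓝 1) := D.ex_nhds.le
  refine (h2.comp h1).congr fun t => ?_
  rw [Function.comp_apply, ← D.conj_ex _ hX.1, D.a_neg, inv_inv]

end Std

end Pool.Agent.P.MP_d483fb_an.Z

end

end

section

/-! Covering numbers and volumes in finite dimensional normed spaces. -/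

open scoped Topology
open Filter Set Module Metric MeasureTheory

namespace Pool.Agent.P.MP_d483fb_an.Z.TZ

/-- A shrinking chain of sets, each covered by `M` translates of the next one. -/
theorem vol_cover {W : Type} [NormedAddCommGroup W] [NormedSpace ℝ W] [FiniteDimensional ℝ W]
    (N : ℕ → Set W) (M : ℕ) (h0 : N 0 ∈ 𝓝 (0 : W))
    (hc : ∀ j, ∃ T : Finset W, T.card ≤ M ∧ ∀ x ∈ N j, ∃ t ∈ T, x - t ∈ N (j + 1))
    {ρ θ : ℝ} (hθ : 0 < θ) (hb : ∀ j, N j ⊆ closedBall 0 (θ ^ j * ρ)) :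
    1 ≤ M * θ ^ finrank ℝ W := by
  borelize W
  let μ : Measure W := Measure.addHaar
  have hfin : ∀ j, μ (N j) ≠ ⊤ := fun j =>
    ne_top_of_le_ne_top (measure_closedBall_lt_top (μ := μ)).ne (measure_mono (hb j))
  have h1 : ∀ j, μ.real (N j) ≤ M * μ.real (N (j + 1)) := by
    intro j
    obtain ⟨T, hT, h⟩ := hc j
    have e : ∀ t : W, μ ((fun x => -t + x) ⁻¹' N (j + 1)) = μ (N (j + 1)) := fun t =>
      measure_preimage_add μ _ _
    have h2 : μ (N j) ≤ M * μ (N (j + 1)) := by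
      calc μ (N j) ≤ μ (⋃ t ∈ T, (fun x => -t + x) ⁻¹' N (j + 1)) := by
            refine measure_mono fun x hx => ?_
            obtain ⟨t, ht, h'⟩ := h x hx
            exact mem_biUnion ht (by rwa [mem_preimage, neg_add_eq_sub])
        _ ≤ ∑ t ∈ T, μ ((fun x => -t + x) ⁻¹' N (j + 1)) := measure_biUnion_finset_le _ _
        _ = T.card * μ (N (j + 1)) := by simp only [e, Finset.sum_const, nsmul_eq_mul]
        _ ≤ M * μ (N (j + 1)) := by gcongr
    have h3 := ENNReal.toReal_mono (ENNReal.mul_ne_top (by simp) (hfin _)) h2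
    rwa [ENNReal.toReal_mul, ENNReal.toReal_natCast] at h3
  have h2 : ∀ j, μ.real (N 0) ≤ M ^ j * μ.real (N j) := by
    intro j
    induction j with
    | zero => simp
    | succ j ih =>
      refine ih.trans ?_
      rw [pow_succ, mul_assoc]
      gcongr
      exact h1 j
  have h3 : ∀ j, μ.real (N 0) ≤ (M * θ ^ finrank ℝ W) ^ j * μ.real (closedBall 0 ρ) := by
    intro j
    refine (h2 j).trans ?_
    rw [mul_pow, mul_assoc]
    gcongr
    refine (measureReal_mono (hb j) (measure_closedBall_lt_top (μ := μ)).ne).trans_eq ?_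
    rw [measureReal_def, Measure.addHaar_closedBall_mul_of_pos μ _ (pow_pos hθ j),
      ENNReal.toReal_mul, ENNReal.toReal_ofReal (by positivity), ← pow_mul, ← pow_mul, mul_comm j]
    rfl
  by_contra hlt
  have h4 := (tendsto_pow_atTop_nhds_zero_of_lt_one (by positivity) (not_le.1 hlt)).mul_const
    (μ.real (closedBall 0 ρ))
  rw [zero_mul] at h4
  have h5 : 0 < μ.real (N 0) :=
    ENNReal.toReal_pos (Measure.measure_pos_of_mem_nhds μ h0).ne' (hfin 0)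
  exact h5.not_ge (ge_of_tendsto' h4 h3)

/-- Polynomial covering numbers of balls. -/
theorem cells (E : Type) [NormedAddCommGroup E] [NormedSpace ℝ E] [FiniteDimensional ℝ E] :
    ∃ C : ℕ, ∀ (P : ℕ) (r : ℝ), 0 < P → 0 < r → ∀ {X : Type} (S : Set X) (f : X → E),
      (∀ x ∈ S, ‖f x‖ ≤ r) → ∃ T : Finset X, (T : Set X) ⊆ S ∧ T.card ≤ (C * P) ^ finrank ℝ E ∧
        ∀ x ∈ S, ∃ t ∈ T, ‖f x - f t‖ ≤ r / P := by
  classical
  let e : E ≃L[ℝ] (Fin (finrank ℝ E) → ℝ) := ContinuousLinearEquiv.ofFinrankEq (by simp)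
  obtain ⟨a, ha, h1⟩ := (e : E →L[ℝ] (Fin (finrank ℝ E) → ℝ)).bound
  obtain ⟨b, hb, h2⟩ := (e.symm : (Fin (finrank ℝ E) → ℝ) →L[ℝ] E).bound
  obtain ⟨Q, hQ⟩ := exists_nat_ge (a * b)
  refine ⟨2 * Q + 1, fun P r hP hr X S f hf => ?_⟩
  have hP' : (0 : ℝ) < P := by exact_mod_cast hP
  set κ : ℝ := b * P / r with hκ
  have hκ0 : 0 < κ := by positivity
  let g : X → Fin (finrank ℝ E) → ℤ := fun x i => ⌊κ * e (f x) i⌋
  let B : Finset (Fin (finrank ℝ E) → ℤ) :=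
    Fintype.piFinset fun _ => Finset.Icc (-(Q * P : ℤ)) (Q * P)
  have hB : ∀ x ∈ S, g x ∈ B := by
    intro x hx
    refine Fintype.mem_piFinset.2 fun i => ?_
    have h3 : |κ * e (f x) i| ≤ Q * P := by
      rw [abs_mul, abs_of_pos hκ0]
      have h4 : |e (f x) i| ≤ a * r :=
        ((norm_le_pi_norm (e (f x)) i).trans (h1 (f x))).trans (by gcongr; exact hf x hx)
      calc κ * |e (f x) i| ≤ κ * (a * r) := by gcongr
        _ = a * b * P := by rw [hκ]; field_simp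
        _ ≤ Q * P := by gcongr
    rw [abs_le] at h3
    refine Finset.mem_Icc.2 ⟨Int.le_floor.2 ?_, Int.floor_le_iff.2 ?_⟩
    · push_cast
      exact h3.1
    · push_cast
      linarith [h3.2]
  let I : Finset (Fin (finrank ℝ E) → ℤ) := B.filter fun v => ∃ x ∈ S, g x = v
  have hI : ∀ v : I, ∃ x ∈ S, g x = v := fun v => (Finset.mem_filter.1 v.2).2
  choose σ hσ hσ' using hI
  refine ⟨Finset.univ.image σ, ?_, ?_, fun x hx => ?_⟩
  · intro t ht
    obtain ⟨v, -, rfl⟩ := Finset.mem_image.1 ht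
    exact hσ v
  · refine Finset.card_image_le.trans ?_
    rw [Finset.card_univ, Fintype.card_coe]
    refine (Finset.card_filter_le _ _).trans ?_
    rw [Fintype.card_piFinset_const, Int.card_Icc]
    refine Nat.pow_le_pow_left ?_ _
    have : (Q * P + 1 - -(Q * P) : ℤ) = (2 * (Q * P) + 1 : ℕ) := by push_cast; ring
    rw [this, Int.toNat_natCast]
    nlinarith
  · let v : I := ⟨g x, Finset.mem_filter.2 ⟨hB x hx, x, hx, rfl⟩⟩
    refine ⟨σ v, Finset.mem_image_of_mem σ (Finset.mem_univ v), ?_⟩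
    have h3 : ‖e (f x - f (σ v))‖ ≤ κ⁻¹ := by
      refine (pi_norm_le_iff_of_nonneg (by positivity)).2 fun i => ?_
      have h4 : ⌊κ * e (f x) i⌋ = ⌊κ * e (f (σ v)) i⌋ := (congrFun (hσ' v) i).symm
      have h5 := Int.abs_sub_lt_one_of_floor_eq_floor h4
      rw [← mul_sub, abs_mul, abs_of_pos hκ0] at h5
      rw [map_sub, Pi.sub_apply, Real.norm_eq_abs, ← one_div, le_div_iff₀ hκ0, mul_comm]
      exact h5.le
    have h4 := h2 (e (f x - f (σ v)))
    simp only [ContinuousLinearEquiv.coe_coe, ContinuousLinearEquiv.symm_apply_apply] at h4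
    calc ‖f x - f (σ v)‖ ≤ b * κ⁻¹ := h4.trans (by gcongr)
      _ = r / P := by rw [hκ]; field_simp

/-- The dimension count. -/
theorem count {W E : Type} [NormedAddCommGroup W] [NormedSpace ℝ W] [FiniteDimensional ℝ W]
    [NormedAddCommGroup E] [NormedSpace ℝ E] [FiniteDimensional ℝ E]
    (H : ∀ η : ℝ, 0 < η → η ≤ 1 / 10 → ∃ (f : W → E) (ρ c : ℝ), 0 < ρ ∧ 0 < c ∧
      (∀ ε > 0, ∀ᶠ X in 𝓝 (0 : W), ‖f X‖ ≤ ε) ∧
      (∀ (k : ℕ) (X : W), ‖X‖ ≤ ρ → ‖f X‖ ≤ c / (2 * (1 + η)) ^ k → ‖X‖ ≤ ρ / 2 ^ k) ∧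
      ∀ (k : ℕ) (X Y : W), ‖X‖ ≤ ρ / 2 ^ k → ‖Y‖ ≤ ρ / 2 ^ k →
        ‖f (X - Y)‖ ≤ 2 * ‖f X - f Y‖ + 3 / 3 ^ k + 2 * η * (‖f X‖ + ‖f Y‖)) :
    finrank ℝ W ≤ finrank ℝ E := by
  by_contra hlt
  rw [not_le] at hlt
  obtain ⟨C, hC⟩ := cells E
  obtain ⟨s, hs⟩ : ∃ s : ℕ, (C * 12) ^ finrank ℝ E < 2 ^ s := ⟨_, Nat.lt_two_pow_self⟩
  obtain ⟨η, ⟨⟨hη1, hη2⟩, hη3⟩, hη0⟩ : ∃ η : ℝ, ((η ≤ 1 / 10 ∧ η ≤ 1 / (24 * 2 ^ s)) ∧
      (1 + η) ^ s ≤ 2) ∧ 0 < η := by
    have h1 : ∀ᶠ η in 𝓝 (0 : ℝ), η ≤ 1 / 10 := eventually_le_nhds (by norm_num)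
    have h2 : ∀ᶠ η in 𝓝 (0 : ℝ), η ≤ 1 / (24 * 2 ^ s) := eventually_le_nhds (by positivity)
    have h3 : ∀ᶠ η in 𝓝 (0 : ℝ), (1 + η) ^ s ≤ 2 := by
      have h4 : ContinuousAt (fun η : ℝ => (1 + η) ^ s) 0 := by fun_prop
      exact h4.eventually (eventually_le_nhds (by norm_num))
    exact ((((h1.and h2).and h3).filter_mono nhdsWithin_le_nhds).and
      (self_mem_nhdsWithin (s := Ioi (0 : ℝ)))).exists
  obtain ⟨f, ρ, c, hρ, hc, h0, hl, ha⟩ := H η hη0 hη1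
  set b : ℝ := 2 * (1 + η) with hb
  have hb0 : 0 < b := by positivity
  have hbs : b ^ s ≤ 2 * 2 ^ s := by
    rw [hb, mul_pow, mul_comm]
    gcongr
  obtain ⟨k₀, hk₀⟩ : ∃ k₀ : ℕ, ∀ k ≥ k₀, 1 ≤ k ∧ (b / 3) ^ k ≤ c / (18 * 2 ^ s) := by
    have h1 := (tendsto_pow_atTop_nhds_zero_of_lt_one (r := b / 3) (by positivity)
      (by rw [hb]; linarith)).eventually (eventually_le_nhds (b := c / (18 * 2 ^ s))
        (by positivity))
    exact eventually_atTop.1 ((eventually_ge_atTop 1).and h1)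
  have key := vol_cover (fun j => {X : W | ‖X‖ ≤ ρ ∧ ‖f X‖ ≤ c / b ^ (k₀ + j * s)})
    ((C * (12 * 2 ^ s)) ^ finrank ℝ E) ?_ ?_ (ρ := ρ) (θ := (2 ^ s)⁻¹) (by positivity) ?_
  · have h1 : ((2 : ℝ) ^ s) ^ (finrank ℝ E + 1) ≤ (2 ^ s) ^ finrank ℝ W :=
      pow_le_pow_right₀ (one_le_pow₀ one_le_two) hlt
    rw [inv_pow, ← div_eq_mul_inv, one_le_div (by positivity)] at key
    have h2 := h1.trans key
    push_cast at h2
    rw [← mul_assoc, mul_pow, pow_succ, mul_comm] at h2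
    have h3 := le_of_mul_le_mul_right h2 (by positivity)
    have h4 : (((C * 12) ^ finrank ℝ E : ℕ) : ℝ) < ((2 ^ s : ℕ) : ℝ) := by exact_mod_cast hs
    push_cast at h4
    exact h4.not_ge h3
  · filter_upwards [closedBall_mem_nhds (0 : W) hρ, h0 (c / b ^ (k₀ + 0 * s)) (by positivity)]
      with X h1 h2
    exact ⟨mem_closedBall_zero_iff.1 h1, h2⟩
  · intro j
    obtain ⟨hk1, hk2⟩ := hk₀ (k₀ + j * s) (Nat.le_add_right _ _)
    have e : k₀ + (j + 1) * s = k₀ + j * s + s := by ring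
    simp only [e]
    generalize k₀ + j * s = k at hk1 hk2 ⊢
    set r : ℝ := c / b ^ k with hr
    have hr0 : 0 < r := by positivity
    obtain ⟨T, hT, hcard, hT'⟩ := hC (12 * 2 ^ s) r (by positivity) hr0
      {X : W | ‖X‖ ≤ ρ ∧ ‖f X‖ ≤ r} f fun x hx => hx.2
    refine ⟨T, hcard, fun x hx => ?_⟩
    obtain ⟨t, ht, h1⟩ := hT' x hx
    have ht' := hT ht
    have hx1 := hl k x hx.1 hx.2
    have ht1 := hl k t ht'.1 ht'.2
    refine ⟨t, ht, ?_, ?_⟩
    · have h2 : ρ / 2 ^ k ≤ ρ / 2 ^ 1 := by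
        gcongr
        exact one_le_two
      have h3 := norm_sub_le x t
      rw [pow_one] at h2
      linarith
    · have h2 := ha k x t hx1 ht1
      set q : ℝ := 2 ^ s with hq
      have hq0 : 0 < q := by positivity
      have h3 : (3 : ℝ) / 3 ^ k ≤ r / (6 * q) := by
        rw [div_pow, div_le_div_iff₀ (by positivity) (by positivity)] at hk2
        rw [hr, div_div, div_le_div_iff₀ (by positivity) (by positivity)]
        linarith
      have h4 : 2 * η * (‖f x‖ + ‖f t‖) ≤ r / (6 * q) := by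
        calc 2 * η * (‖f x‖ + ‖f t‖) ≤ 2 * (1 / (24 * q)) * (r + r) := by
              gcongr
              exacts [hx.2, ht'.2]
          _ = r / (6 * q) := by field_simp; ring
      have h5 : 2 * ‖f x - f t‖ ≤ r / (6 * q) := by
        push_cast at h1
        calc 2 * ‖f x - f t‖ ≤ 2 * (r / (12 * q)) := by gcongr
          _ = r / (6 * q) := by field_simp; ring
      calc ‖f (x - t)‖ ≤ r / (6 * q) + r / (6 * q) + r / (6 * q) := by linarith
        _ = r / (2 * q) := by field_simp; ring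
        _ ≤ r / b ^ s := by gcongr
        _ = c / b ^ (k + s) := by rw [hr, div_div, pow_add]
  · intro j X hX
    refine mem_closedBall_zero_iff.2 ((hl _ X hX.1 hX.2).trans ?_)
    rw [inv_pow, ← pow_mul, mul_comm _ ρ, ← div_eq_mul_inv]
    gcongr
    · exact one_le_two
    · rw [mul_comm]
      exact Nat.le_add_left _ _

end Pool.Agent.P.MP_d483fb_an.Z.TZ


end

section

/-! The dimension count for almost homomorphisms on a group of units of a Banach algebra. -/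

open scoped Topology Nat
open NormedSpace Filter Set Module Metric

noncomputable section

namespace Pool.Agent.P.MP_d483fb_an.Z.TZ

variable {A : Type} [NormedRing A]

/-- A subadditive size function. -/
def sz (y : A) : ℝ := Real.log (1 + ‖y - 1‖)

theorem sz_nonneg (y : A) : 0 ≤ sz y := Real.log_nonneg (by simp)

theorem sz_le (y : A) : sz y ≤ ‖y - 1‖ := by
  have h := Real.log_le_sub_one_of_pos (x := 1 + ‖y - 1‖) (by positivity)
  rwa [add_sub_cancel_left] at h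

theorem sz_mul (x y : A) : sz (x * y) ≤ sz x + sz y := by
  unfold sz
  rw [← Real.log_mul (by positivity) (by positivity)]
  refine Real.log_le_log (by positivity) ?_
  have e : x * y - 1 = (x - 1) + (y - 1) + (x - 1) * (y - 1) := by noncomm_ring
  have h := norm_add₃_le (a := x - 1) (b := y - 1) (c := (x - 1) * (y - 1))
  have h2 := norm_mul_le (x - 1) (y - 1)
  rw [e]
  linarith

theorem sz_nhds {O : Set A} (hO : O ∈ 𝓝 (1 : A)) : ∃ δ > 0, ∀ y, sz y ≤ δ → y ∈ O := by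
  obtain ⟨ε, hε, h⟩ := nhds_basis_closedBall.mem_iff.1 hO
  refine ⟨Real.log (1 + ε), Real.log_pos (by linarith), fun y hy => h ?_⟩
  have := (Real.log_le_log_iff (by positivity) (by positivity)).1 hy
  rw [mem_closedBall, dist_eq_norm]
  linarith

theorem sz_cont : Continuous (sz : A → ℝ) :=
  Continuous.log (by fun_prop) fun y => by positivity

theorem sz_one : sz (1 : A) = 0 := by simp [sz]

theorem norm_mul_sub (x y X Y : A) :
    ‖x * y - 1 - (X + Y)‖ ≤ ‖x - 1 - X‖ + ‖y - 1 - Y‖ + ‖x - 1‖ * ‖y - 1‖ := by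
  have e : x * y - 1 - (X + Y) = (x - 1 - X) + (y - 1 - Y) + (x - 1) * (y - 1) := by noncomm_ring
  rw [e]
  exact norm_add₃_le.trans (by gcongr; exact norm_mul_le _ _)

/-- A bounded almost homomorphism near the identity of `L` whose zeros lie in `L₀`. -/
structure AH {E : Type} [NormedAddCommGroup E] (L L₀ : Set A) (η δ : ℝ) (u : A → E) : Prop where
  mul : ∀ x ∈ L, ∀ y ∈ L, x * y ∈ L
  bdd : ∀ y ∈ L, sz y ≤ δ → ‖u y‖ ≤ 1
  zero : ∀ y ∈ L, sz y ≤ δ → u y = 0 → y ∈ L₀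
  add : ∀ x ∈ L, ∀ y ∈ L, sz x + sz y ≤ δ → ‖u (x * y) - u x - u y‖ ≤ η * (‖u x‖ + ‖u y‖)

section AH

variable {E : Type} [NormedAddCommGroup E] [NormedSpace ℝ E] {L L₀ : Set A} {η δ : ℝ} {u : A → E}

theorem sq_bounds {a v : E} (h : ‖a - v - v‖ ≤ η * (‖v‖ + ‖v‖)) :
    2 * (1 - η) * ‖v‖ ≤ ‖a‖ ∧ ‖a‖ ≤ 2 * (1 + η) * ‖v‖ := by
  have e : ‖v + v‖ = 2 * ‖v‖ := by
    rw [← two_smul ℝ v, norm_smul, Real.norm_two]
  rw [sub_sub] at h
  have h1 := abs_norm_sub_norm_le a (v + v)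
  rw [e, abs_le] at h1
  constructor <;> linarith [h1.1, h1.2]

theorem AH.upper (H : AH L L₀ η δ u) (hδ : 0 ≤ δ) (hη : η ≤ 1 / 10) (j : ℕ) :
    ∀ y ∈ L, sz y ≤ δ / 2 ^ j → (9 / 5) ^ j * ‖u y‖ ≤ 1 := by
  induction j with
  | zero => intro y hy h; simpa using H.bdd y hy (by simpa using h)
  | succ j ih =>
    intro y hy h
    have h1 : sz y + sz y ≤ δ / 2 ^ j := by
      rw [pow_succ, ← div_div] at h
      linarith
    have h2 : δ / 2 ^ j ≤ δ := div_le_self hδ (one_le_pow₀ one_le_two)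
    have h3 := ih (y * y) (H.mul y hy y hy) ((sz_mul y y).trans h1)
    have h4 := (sq_bounds (H.add y hy y hy (h1.trans h2))).1
    refine le_trans ?_ h3
    rw [pow_succ, mul_assoc]
    gcongr
    refine le_trans ?_ h4
    gcongr
    linarith

theorem AH.small (H : AH L L₀ η δ u) (hδ : 0 < δ) (hη : η ≤ 1 / 10) {ε : ℝ} (hε : 0 < ε) :
    ∀ᶠ y in 𝓝 (1 : A), y ∈ L → ‖u y‖ ≤ ε := by
  obtain ⟨j, hj⟩ := pow_unbounded_of_one_lt ε⁻¹ (show (1 : ℝ) < 9 / 5 by norm_num)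
  have h1 : ∀ᶠ y in 𝓝 (1 : A), sz y ≤ δ / 2 ^ j :=
    sz_cont.continuousAt.eventually (eventually_le_nhds (by rw [sz_one]; positivity))
  filter_upwards [h1] with y hy hL
  have h2 := H.upper hδ.le hη j y hL hy
  have h3 : ε⁻¹ * ‖u y‖ ≤ 1 := le_trans (by gcongr) h2
  rwa [inv_mul_le_iff₀ hε, mul_one] at h3

end AH

variable [NormedAlgebra ℝ A] [CompleteSpace A]

theorem norm_exp_sub_le (X : A) : ‖exp X - 1 - X‖ ≤ Real.exp ‖X‖ - 1 - ‖X‖ := by
  have h1 := (hasSum_nat_add_iff' 2).2 (exp_series_hasSum_exp' (𝕂 := ℝ) X)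
  have h2 := (hasSum_nat_add_iff' 2).2 (exp_series_hasSum_exp' (𝕂 := ℝ) ‖X‖)
  simp only [Finset.sum_range_succ, Finset.sum_range_zero, Nat.factorial_zero, Nat.factorial_one,
    Nat.cast_one, inv_one, pow_zero, pow_one, one_smul, zero_add, ← sub_sub] at h1 h2
  rw [← h1.tsum_eq, Real.exp_eq_exp_ℝ]
  refine tsum_of_norm_bounded h2 fun n => ?_
  rw [norm_smul, Real.norm_of_nonneg (by positivity), smul_eq_mul]
  gcongr
  exact norm_pow_le' X (by omega)

theorem norm_exp_sub_one_le (X : A) : ‖exp X - 1‖ ≤ Real.exp ‖X‖ - 1 := by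
  have h := norm_add_le (exp X - 1 - X) X
  rw [sub_add_cancel] at h
  linarith [norm_exp_sub_le X]

theorem sz_exp (X : A) : sz (exp X) ≤ ‖X‖ := by
  rw [sz, Real.log_le_iff_le_exp (by positivity)]
  linarith [norm_exp_sub_one_le X]

theorem exp_bounds {X : A} {t : ℝ} (h : ‖X‖ ≤ t) (ht : t ≤ 1) :
    ‖exp X - 1 - X‖ ≤ t ^ 2 ∧ ‖exp X - 1‖ ≤ 2 * t := by
  have h1 := Real.abs_exp_sub_one_sub_id_le (x := ‖X‖) (by rw [abs_norm]; linarith)
  have h2 : ‖exp X - 1 - X‖ ≤ t ^ 2 :=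
    ((norm_exp_sub_le X).trans ((le_abs_self _).trans h1)).trans (by gcongr)
  have h3 := norm_add_le (exp X - 1 - X) X
  rw [sub_add_cancel] at h3
  refine ⟨h2, ?_⟩
  nlinarith [norm_nonneg X]

theorem norm_triple {X Y : A} {t : ℝ} (hX : ‖X‖ ≤ t) (hY : ‖Y‖ ≤ t) (ht : t ≤ 1 / 4) :
    ‖exp (-X) * exp (X - Y) * exp Y - 1‖ ≤ 24 * t ^ 2 := by
  have h0 : 0 ≤ t := (norm_nonneg X).trans hX
  obtain ⟨a1, b1⟩ := exp_bounds (X := -X) (t := t) (by rwa [norm_neg]) (by linarith)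
  obtain ⟨a2, b2⟩ := exp_bounds (X := X - Y) (t := 2 * t) (by linarith [norm_sub_le X Y])
    (by linarith)
  obtain ⟨a3, b3⟩ := exp_bounds hY (by linarith)
  have h1 := norm_mul_sub (exp (-X)) (exp (X - Y)) (-X) (X - Y)
  have h2 := norm_mul_sub (exp (-X) * exp (X - Y)) (exp Y) (-X + (X - Y)) Y
  have e1 : -X + (X - Y) = -Y := by abel
  rw [e1] at h1 h2
  rw [neg_add_cancel, sub_zero] at h2
  have h3 : ‖exp (-X) - 1‖ * ‖exp (X - Y) - 1‖ ≤ 2 * t * (2 * (2 * t)) := by gcongr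
  have h4 := norm_add_le (exp (-X) * exp (X - Y) - 1 - -Y) (-Y)
  rw [sub_add_cancel, norm_neg] at h4
  have h5 : ‖exp (-X) * exp (X - Y) - 1‖ ≤ 5 * t := by nlinarith
  have h6 : ‖exp (-X) * exp (X - Y) - 1‖ * ‖exp Y - 1‖ ≤ 5 * t * (2 * t) := by gcongr
  nlinarith

/-- A closed group of units. -/
structure Grp (L : Set A) : Prop where
  one : 1 ∈ L
  mul : ∀ x ∈ L, ∀ y ∈ L, x * y ∈ L
  inv : ∀ x ∈ L, ∀ y, x * y = 1 → y ∈ L
  closed : IsClosed L

theorem Grp.exp_mem {L : Set A} (h : Grp L) {X : A}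
    (hX : ∀ ε : ℝ, 0 < ε → ∃ t ∈ Ioo 0 ε, exp (t • X) ∈ L) (t : ℝ) : exp (t • X) ∈ L := by
  let S : AddSubgroup ℝ :=
    { carrier := {t | exp (t • X) ∈ L}
      zero_mem' := by simpa using h.one
      add_mem' := fun {a b} ha hb => by
        show exp ((a + b) • X) ∈ L
        rw [exp_add_smul]
        exact h.mul _ ha _ hb
      neg_mem' := fun {a} ha => by
        show exp ((-a) • X) ∈ L
        rw [neg_smul]
        exact h.inv _ ha _ (exp_mul_neg _) }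
  have h1 : Dense (S : Set ℝ) := S.dense_of_not_isolated_zero fun ε hε => by
    obtain ⟨t, ht, h'⟩ := hX ε hε
    exact ⟨t, h', ht⟩
  have h2 : IsClosed (S : Set ℝ) :=
    h.closed.preimage (exp_cont.comp (continuous_id.smul continuous_const))
  have h3 : t ∈ closure (S : Set ℝ) := h1 t
  rwa [h2.closure_eq] at h3

theorem exp_two (X : A) : exp ((2 : ℝ) • X) = exp X * exp X := by
  rw [two_smul, exp_add_comm (Commute.refl X)]

variable {E : Type} [NormedAddCommGroup E] [NormedSpace ℝ E] {L L₀ : Set A} {η δ : ℝ} {u : A → E}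
  {W : Submodule ℝ A}

theorem AH.dbl (H : AH L L₀ η δ u) (hW : ∀ X ∈ W, exp X ∈ L) {X : A} (hX : X ∈ W)
    (h : 2 * ‖X‖ ≤ δ) : 2 * (1 - η) * ‖u (exp X)‖ ≤ ‖u (exp ((2 : ℝ) • X))‖ ∧
      ‖u (exp ((2 : ℝ) • X))‖ ≤ 2 * (1 + η) * ‖u (exp X)‖ := by
  rw [exp_two]
  exact sq_bounds (H.add _ (hW X hX) _ (hW X hX) (by linarith [sz_exp X]))

theorem AH.ne_zero (H : AH L L₀ η δ u) (hη : η ≤ 1 / 10) (h₀ : Grp L₀) (hW : ∀ X ∈ W, exp X ∈ L)
    (hW₀ : ∀ X ∈ W, (∀ t : ℝ, exp (t • X) ∈ L₀) → X = 0) {X : A} (hX : X ∈ W) (h : ‖X‖ ≤ δ)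
    (hu : u (exp X) = 0) : X = 0 := by
  have hn : ∀ k : ℕ, ‖((1 / 2 : ℝ) ^ k) • X‖ ≤ ‖X‖ := fun k => by
    rw [norm_smul, Real.norm_of_nonneg (by positivity)]
    exact mul_le_of_le_one_left (norm_nonneg X) (pow_le_one₀ (by norm_num) (by norm_num))
  have h1 : ∀ k : ℕ, u (exp (((1 / 2 : ℝ) ^ k) • X)) = 0 := by
    intro k
    induction k with
    | zero => simpa using hu
    | succ k ih =>
      have e : (2 : ℝ) • ((1 / 2 : ℝ) ^ (k + 1)) • X = ((1 / 2 : ℝ) ^ k) • X := by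
        rw [smul_smul]
        congr 1
        ring
      have h2 : 2 * ‖((1 / 2 : ℝ) ^ (k + 1)) • X‖ ≤ δ := by
        have h3 := hn k
        rw [← e, norm_smul, Real.norm_two] at h3
        linarith
      have h3 := (H.dbl hW (W.smul_mem _ hX) h2).1
      rw [e, ih, norm_zero] at h3
      refine norm_le_zero_iff.1 ?_
      nlinarith [norm_nonneg (u (exp (((1 / 2 : ℝ) ^ (k + 1)) • X)))]
  refine hW₀ X hX (h₀.exp_mem fun ε hε => ?_)
  obtain ⟨k, hk⟩ := exists_pow_lt_of_lt_one hε (show (1 / 2 : ℝ) < 1 by norm_num)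
  exact ⟨_, ⟨by positivity, hk⟩, H.zero _ (hW _ (W.smul_mem _ hX))
    ((sz_exp _).trans ((hn k).trans h)) (h1 k)⟩

theorem AH.lsc (H : AH L L₀ η δ u) (hδ : 0 < δ) (hη : η ≤ 1 / 10) (hW : ∀ X ∈ W, exp X ∈ L)
    (X₀ : W) (h : ‖X₀‖ < δ / 2) {ε : ℝ} (hε : 0 < ε) :
    ∀ᶠ X : W in 𝓝 X₀, ‖u (exp X₀.1)‖ ≤ 2 * ‖u (exp X.1)‖ + 2 * ε := by
  have h1 : Tendsto (fun X : W => exp (-X.1) * exp X₀.1) (𝓝 X₀) (𝓝 1) := by
    rw [← exp_neg_mul X₀.1]
    exact ((exp_cont.comp continuous_subtype_val.neg).mul continuous_const).tendsto X₀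
  have h2 : ∀ᶠ y in 𝓝 (1 : A), sz y ≤ δ / 2 :=
    sz_cont.continuousAt.eventually (eventually_le_nhds (by rw [sz_one]; positivity))
  have h3 : ∀ᶠ X : W in 𝓝 X₀, ‖X‖ ≤ δ / 2 :=
    continuous_norm.continuousAt.eventually (eventually_le_nhds h)
  filter_upwards [h1.eventually (H.small hδ hη hε), h1.eventually h2, h3] with X a1 a2 a3
  have m : exp (-X.1) * exp X₀.1 ∈ L := H.mul _ (hW _ (W.neg_mem X.2)) _ (hW _ X₀.2)
  have h4 := H.add _ (hW _ X.2) _ m (by linarith [sz_exp X.1, show ‖X.1‖ = ‖X‖ from rfl])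
  rw [← mul_assoc, exp_mul_neg, one_mul, sub_sub] at h4
  have h5 := norm_sub_norm_le (u (exp X₀.1)) (u (exp X.1) + u (exp (-X.1) * exp X₀.1))
  have h6 := norm_add_le (u (exp X.1)) (u (exp (-X.1) * exp X₀.1))
  have h7 := a1 m
  nlinarith [norm_nonneg (u (exp X.1)), norm_nonneg (u (exp (-X.1) * exp X₀.1))]

theorem AH.sub_le (H : AH L L₀ η δ u) (hη₀ : 0 ≤ η) (hη : η ≤ 1 / 10) (hW : ∀ X ∈ W, exp X ∈ L)
    {ρ : ℝ} (h1 : ρ ≤ 1 / 24) (h2 : 3 * ρ ≤ δ) (k : ℕ) {X Y : A} (hX : X ∈ W) (hY : Y ∈ W)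
    (nX : ‖X‖ ≤ ρ / 2 ^ k) (nY : ‖Y‖ ≤ ρ / 2 ^ k) :
    ‖u (exp (X - Y))‖ ≤ 2 * ‖u (exp X) - u (exp Y)‖ + 3 / 3 ^ k +
      2 * η * (‖u (exp X)‖ + ‖u (exp Y)‖) := by
  have h0 : 0 ≤ ρ := by
    have h3 := (norm_nonneg X).trans nX
    rwa [le_div_iff₀ (by positivity), zero_mul] at h3
  have h3 : ρ / 2 ^ k ≤ ρ := div_le_self h0 (one_le_pow₀ one_le_two)
  set z := exp (-X) * exp (X - Y) * exp Y with hz
  have m : z ∈ L := H.mul _ (H.mul _ (hW _ (W.neg_mem hX)) _ (hW _ (W.sub_mem hX hY))) _ (hW _ hY)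
  have h4 : sz z ≤ ρ / 2 ^ (2 * k) := by
    refine ((sz_le z).trans (norm_triple nX nY (by linarith))).trans ?_
    rw [div_pow, ← pow_mul, mul_comm k 2, ← mul_div_assoc]
    gcongr
    nlinarith
  have h5 : ρ / 2 ^ (2 * k) ≤ ρ := div_le_self h0 (one_le_pow₀ one_le_two)
  have h6 : ‖u z‖ ≤ 1 / 3 ^ k := by
    have h7 := H.upper (by linarith) hη (2 * k) z m (h4.trans (by gcongr; linarith))
    rw [le_div_iff₀ (by positivity), mul_comm]
    refine le_trans ?_ h7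
    rw [pow_mul]
    gcongr
    norm_num
  have h7 := H.add _ (hW _ (W.sub_mem hX hY)) _ (hW _ hY)
    (by linarith [sz_exp (X - Y), sz_exp Y, norm_sub_le X Y])
  have h8 := H.add _ (hW _ hX) _ m (by linarith [sz_exp X])
  have e : exp X * z = exp (X - Y) * exp Y := by
    rw [hz, ← mul_assoc, ← mul_assoc, exp_mul_neg, one_mul]
  rw [e] at h8
  generalize u (exp (X - Y) * exp Y) = p at h7 h8
  generalize u (exp (X - Y)) = a at h7 ⊢
  generalize u (exp Y) = b at h7 ⊢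
  generalize u (exp X) = c at h8 ⊢
  generalize u z = d at h6 h8
  have e2 : a = (c - b) + d + ((p - c - d) - (p - a - b)) := by abel
  have h9 : ‖a‖ ≤ ‖c - b‖ + ‖d‖ + (‖p - c - d‖ + ‖p - a - b‖) := by
    conv_lhs => rw [e2]
    exact norm_add₃_le.trans (by gcongr; exact norm_sub_le _ _)
  have e3 : (3 : ℝ) / 3 ^ k = 3 * (1 / 3 ^ k) := by ring
  rw [e3]
  nlinarith [norm_nonneg a, norm_nonneg b, norm_nonneg c, norm_nonneg d, norm_nonneg (c - b),
    mul_nonneg hη₀ (norm_nonneg b), mul_nonneg hη₀ (norm_nonneg c)]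

theorem dim_core [FiniteDimensional ℝ E] [FiniteDimensional ℝ W] (h₀ : Grp L₀)
    (hW : ∀ X ∈ W, exp X ∈ L) (hW₀ : ∀ X ∈ W, (∀ t : ℝ, exp (t • X) ∈ L₀) → X = 0)
    (H : ∀ η : ℝ, 0 < η → ∃ δ > 0, ∃ u : A → E, AH L L₀ η δ u) :
    finrank ℝ W ≤ finrank ℝ E := by
  refine count fun η hη₀ hη => ?_
  obtain ⟨δ, hδ, u, H⟩ := H η hη₀
  obtain ⟨ρ, hρ, h1, h2⟩ : ∃ ρ > 0, ρ ≤ 1 / 24 ∧ 3 * ρ ≤ δ :=
    ⟨min (1 / 24) (δ / 3), by positivity, min_le_left _ _, by linarith [min_le_right (1 / 24) (δ / 3)]⟩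
  obtain ⟨c, hc', hc⟩ : ∃ c : ℝ, (∀ X ∈ closedBall (0 : W) ρ \ ball 0 (ρ / 2),
      c < ‖u (exp X.1)‖) ∧ 0 < c := by
    have h3 : IsCompact (closedBall (0 : W) ρ \ ball 0 (ρ / 2)) :=
      (isCompact_closedBall _ _).diff isOpen_ball
    have h4 := h3.eventually_forall_of_forall_eventually (x₀ := (0 : ℝ))
      (P := fun c X => c < ‖u (exp X.1)‖) fun X₀ hX₀ => by
        have n1 : ‖X₀‖ ≤ ρ := mem_closedBall_zero_iff.1 hX₀.1
        have n2 : 0 < ‖u (exp X₀.1)‖ := norm_pos_iff.2 fun h => hX₀.2 (by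
          rw [show X₀ = 0 from Subtype.ext (H.ne_zero hη h₀ hW hW₀ X₀.2
            (show ‖X₀‖ ≤ δ by linarith) h)]
          exact mem_ball_self (by positivity))
        have h5 := H.lsc hδ hη hW X₀ (by linarith) (ε := ‖u (exp X₀.1)‖ / 4) (by positivity)
        have h6 : ∀ᶠ c in 𝓝 (0 : ℝ), c < ‖u (exp X₀.1)‖ / 4 := eventually_lt_nhds (by positivity)
        filter_upwards [h6.prod_nhds h5] with z hz
        linarith [hz.1, hz.2]
    exact ((h4.filter_mono nhdsWithin_le_nhds).and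
      (self_mem_nhdsWithin (s := Ioi (0 : ℝ)))).exists
  refine ⟨fun X => u (exp X.1), ρ, c, hρ, hc, fun ε hε => ?_, fun k => ?_,
    fun k X Y nX nY => H.sub_le hη₀.le hη hW h1 h2 k X.2 Y.2 nX nY⟩
  · have h3 : Tendsto (fun X : W => exp X.1) (𝓝 0) (𝓝 1) := by
      rw [← exp_zero]
      exact (exp_cont.comp continuous_subtype_val).tendsto 0
    filter_upwards [h3.eventually (H.small hδ hη hε)] with X hX
    exact hX (hW _ X.2)
  · induction k with
    | zero => intro X h _; simpa using h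
    | succ k ih =>
      intro X h h'
      have hb : 1 ≤ 2 * (1 + η) := by linarith
      have h3 : ‖X‖ < ρ / 2 := by
        by_contra h4
        have h5 := hc' X ⟨mem_closedBall_zero_iff.2 h, fun h5 => h4 (mem_ball_zero_iff.1 h5)⟩
        exact h5.not_ge (h'.trans (div_le_self hc.le (one_le_pow₀ hb)))
      have e : ‖(2 : ℝ) • X‖ = 2 * ‖X‖ := by rw [norm_smul, Real.norm_two]
      have h4 := ih ((2 : ℝ) • X) (by linarith) (by
        refine (H.dbl hW X.2 (show 2 * ‖X‖ ≤ δ by linarith)).2.trans ?_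
        rw [pow_succ, ← div_div, le_div_iff₀ (by positivity)] at h'
        rwa [mul_comm])
      rw [pow_succ, ← div_div]
      linarith

end Pool.Agent.P.MP_d483fb_an.Z.TZ

end

end
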