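import Pool.Agent.P.MP_d483fb_an.M.A13

section

/-! The Lie algebra of a subgroup and the closed subgroup theorem. -/

open scoped Matrix Matrix.Norms.Operator InnerProductSpace RealInnerProductSpace Topology
open NormedSpace Filter Set

noncomputable section

namespace Pool.Agent.P.MP_d483fb_an.Z

theorem Closed_sub {n : ℕ} (v : Submodule ℝ (Mat n)) : IsClosed (v : Set (Mat n)) :=
  v.closed_of_finiteDimensional

theorem Closed_smul_br {n : ℕ} (t : ℝ) (X Y : Mat n) : ⁅t • X, Y⁆ = t • ⁅X, Y⁆ := by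
  simp only [Ring.lie_def, smul_mul_assoc, mul_smul_comm, smul_sub]

theorem Closed_add_br {n : ℕ} (X X' Y : Mat n) : ⁅X + X', Y⁆ = ⁅X, Y⁆ + ⁅X', Y⁆ := by
  simp only [Ring.lie_def, add_mul, mul_add]
  abel

theorem Closed_subseq {n : ℕ} {u : ℕ → Mat n} (hu : ∀ m, ‖u m‖ = 1) :
    ∃ Z : Mat n, Z ≠ 0 ∧ ∃ φ : ℕ → ℕ, StrictMono φ ∧ Tendsto (u ∘ φ) atTop (𝓝 Z) := by
  have : ProperSpace (Mat n) := FiniteDimensional.proper ℝ (Mat n)
  obtain ⟨Z, hZ, φ, hφ, h⟩ := (isCompact_sphere (0 : Mat n) 1).tendsto_subseq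
    (x := u) fun m => mem_sphere_zero_iff_norm.2 (hu m)
  refine ⟨Z, ?_, φ, hφ, h⟩
  rintro rfl
  simp at hZ

namespace ExpData

variable {G : Type} [Group G] [TopologicalSpace G] [IsTopologicalGroup G] {n : ℕ}
  (D : ExpData G n)

set_option linter.unusedSectionVars false

theorem lie_le (H : Subgroup G) : D.lie H ≤ D.g := Submodule.span_le.2 fun _ hX => hX.1

theorem mem_lie_of {H : Subgroup G} {X : Mat n} (hX : X ∈ D.g) (h : ∀ t : ℝ, D.ex (t • X) ∈ H) :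
    X ∈ D.lie H := Submodule.subset_span ⟨hX, h⟩

theorem le_lie {H : Subgroup G} {v : Submodule ℝ (Mat n)} (hv : v ≤ D.g)
    (h : ∀ X ∈ v, D.ex X ∈ H) : v ≤ D.lie H :=
  fun _ hX => D.mem_lie_of (hv hX) fun t => h _ (v.smul_mem t hX)

theorem lie_mono {H H' : Subgroup G} (h : H ≤ H') : D.lie H ≤ D.lie H' :=
  Submodule.span_mono fun _ hX => ⟨hX.1, fun t => h (hX.2 t)⟩

theorem lie_top : D.lie ⊤ = D.g :=
  le_antisymm (D.lie_le ⊤) (D.le_lie le_rfl fun _ _ => Subgroup.mem_top _)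

theorem Ad_mem_lie {H : Subgroup G} {x : G} (hx : x ∈ H) {X : Mat n} (hX : X ∈ D.lie H) :
    D.Ad x X ∈ D.lie H := by
  have h : D.lie H ≤ (D.lie H).comap (D.Ad x) := by
    refine Submodule.span_le.2 fun Y hY => D.mem_lie_of (D.Ad_mem x hY.1) fun t => ?_
    rw [← map_smul, ← D.conj_ex x (D.g.smul_mem t hY.1)]
    exact H.mul_mem (H.mul_mem hx (hY.2 t)) (H.inv_mem hx)
  exact h hX

theorem Closed_br {v : Submodule ℝ (Mat n)} {X Y : Mat n} (hX : X ∈ D.g)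
    (h : ∀ t : ℝ, D.Ad (D.ex (t • X)) Y ∈ v) : ⁅X, Y⁆ ∈ v := by
  refine br_mem_of_conj (A := Mat n) (Closed_sub v) (Eventually.of_forall fun t => ?_)
  have h1 := h t
  rw [D.Ad_ex (D.g.smul_mem t hX)] at h1
  exact h1

/-- No closedness is needed here. -/
theorem lie_isSub (H : Subgroup G) : IsSub (D.lie H) := by
  intro X hX Y hY
  induction hX using Submodule.span_induction with
  | mem X hX => exact D.Closed_br hX.1 fun t => D.Ad_mem_lie (hX.2 t) hY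
  | zero =>
    have : ⁅(0 : Mat n), Y⁆ = 0 := by simp [Ring.lie_def]
    rw [this]
    exact zero_mem _
  | add X X' _ _ h h' =>
    rw [Closed_add_br]
    exact add_mem h h'
  | smul t X _ h =>
    rw [Closed_smul_br]
    exact Submodule.smul_mem _ t h

/-- No closedness is needed here. -/
theorem eq_top_of_le_lie [PreconnectedSpace G] {H : Subgroup G} (h : D.g ≤ D.lie H) :
    H = ⊤ := by
  obtain ⟨s, hs, he⟩ := (Submodule.fg_span_iff_fg_span_finset_subset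
    {X | X ∈ D.g ∧ ∀ t : ℝ, D.ex (t • X) ∈ H}).1 (IsNoetherian.noetherian (D.lie H))
  obtain ⟨Y, hY⟩ : ∃ Y : Fin s.card → Mat n, range Y = s :=
    ⟨fun i => (s.equivFin.symm i).1, by
      ext X
      constructor
      · rintro ⟨i, rfl⟩
        exact (s.equivFin.symm i).2
      · intro hX
        exact ⟨s.equivFin ⟨X, hX⟩, by simp⟩⟩
  have hYs : ∀ i, Y i ∈ D.g ∧ ∀ t : ℝ, D.ex (t • Y i) ∈ H := fun i =>
    hs (hY ▸ mem_range_self i)
  have h1 := D.prod_nhds (fun i => Submodule.span ℝ {Y i})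
    (fun i => (Submodule.span_singleton_le_iff_mem _ _).2 (hYs i).1)
    (by rw [← Submodule.span_range_eq_iSup, hY, ← he]; exact h) one_pos
  have h2 : (H : Set G) ∈ 𝓝 (1 : G) := by
    refine mem_of_superset h1 ?_
    rintro x ⟨X, hX, rfl⟩
    refine H.list_prod_mem fun y hy => ?_
    obtain ⟨i, rfl⟩ := List.mem_ofFn.1 hy
    obtain ⟨t, ht⟩ := Submodule.mem_span_singleton.1 (hX i).1
    rw [← ht]
    exact (hYs i).2 t
  rw [← H.closure_eq]
  exact closure_nhds h2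

theorem mem_lie {H : Subgroup G} (hH : IsClosed (H : Set G)) {X : Mat n} :
    X ∈ D.lie H ↔ X ∈ D.g ∧ ∀ t : ℝ, D.ex (t • X) ∈ H := by
  refine ⟨fun hX => ?_, fun h => D.mem_lie_of h.1 h.2⟩
  induction hX using Submodule.span_induction with
  | mem X hX => exact hX
  | zero =>
    refine ⟨zero_mem _, fun t => ?_⟩
    rw [smul_zero, D.ex_zero]
    exact H.one_mem
  | add X X' _ _ h h' =>
    refine ⟨add_mem h.1 h'.1, fun t => ?_⟩
    rw [smul_add]
    refine hH.mem_of_tendsto (D.trotter (D.g.smul_mem t h.1) (D.g.smul_mem t h'.1))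
      (Eventually.of_forall fun m => ?_)
    rw [smul_smul, smul_smul]
    exact H.pow_mem (H.mul_mem (h.2 _) (h'.2 _)) m
  | smul c X _ h =>
    refine ⟨D.g.smul_mem c h.1, fun t => ?_⟩
    rw [smul_smul]
    exact h.2 _

theorem ex_mem_of_lie {H : Subgroup G} (hH : IsClosed (H : Set G)) {X : Mat n}
    (hX : X ∈ D.lie H) : D.ex X ∈ H := by
  have h := ((D.mem_lie hH).1 hX).2 1
  rwa [one_smul] at h

theorem grp_le {H : Subgroup G} (hH : IsClosed (H : Set G)) {v : Submodule ℝ (Mat n)}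
    (h : v ≤ D.lie H) : D.grp v ≤ H := by
  refine (Subgroup.closure_le H).2 ?_
  rintro _ ⟨X, hX, rfl⟩
  exact D.ex_mem_of_lie hH (h hX)

theorem mem_lie_of_tendsto {H : Subgroup G} (hH : IsClosed (H : Set G)) {x : ℕ → G}
    (hx : ∀ m, x m ∈ H) (h1 : Tendsto x atTop (𝓝 1)) {c : ℕ → ℝ} {X : Mat n}
    (h : Tendsto (fun m => c m • D.lg (x m)) atTop (𝓝 X)) : X ∈ D.lie H := by
  refine D.mem_lie_of (D.tendsto_zpow h1 h).1 fun t => ?_
  have h2 : Tendsto (fun m => (t * c m) • D.lg (x m)) atTop (𝓝 (t • X)) := by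
    simpa only [smul_smul] using h.const_smul t
  exact hH.mem_of_tendsto (D.tendsto_zpow h1 h2).2
    (Eventually.of_forall fun m => H.zpow_mem (hx m) _)

theorem Closed_ex : Tendsto D.ex (𝓝[D.g] 0) (𝓝 1) := D.ex_nhds.le

theorem Closed_small {p : G → Mat n} {C : ℝ} (hg : ∀ᶠ x in 𝓝 (1 : G), p x ∈ D.g)
    (h : ∀ᶠ x in 𝓝 (1 : G), ‖p x‖ ≤ C * ‖D.ρ x - 1‖) : Tendsto p (𝓝 1) (𝓝[D.g] 0) := by
  refine tendsto_nhdsWithin_iff.2 ⟨?_, hg⟩
  have hc : Continuous fun x : G => C * ‖D.ρ x - 1‖ :=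
    continuous_const.mul (D.cont.sub continuous_const).norm
  have h1 := hc.tendsto 1
  simp only [map_one, sub_self, norm_zero, mul_zero] at h1
  exact squeeze_zero_norm' h h1

theorem lg_mem_lie {H : Subgroup G} (hH : IsClosed (H : Set G)) :
    ∀ᶠ x in 𝓝 (1 : G), x ∈ H → D.lg x ∈ D.lie H := by
  obtain ⟨w₀, hw₀⟩ := Submodule.exists_isCompl (D.lie H)
  have hs : D.g ≤ D.lie H ⊔ (w₀ ⊓ D.g) := by
    rw [← sup_inf_assoc_of_le w₀ (D.lie_le H), hw₀.sup_eq_top, top_inf_eq]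
  have hd : Disjoint (D.lie H) (w₀ ⊓ D.g) := hw₀.disjoint.mono_right inf_le_left
  obtain ⟨p, q, h1, -, C, h2⟩ := D.factor2 (D.lie_le H) inf_le_right hs hd
  have hp : Tendsto p (𝓝 1) (𝓝[D.g] 0) :=
    D.Closed_small (C := C) (h1.mono fun x hx => D.lie_le H hx.1)
      (h2.mono fun x hx => le_trans (le_add_of_nonneg_right (norm_nonneg _)) hx)
  have hq : Tendsto q (𝓝 1) (𝓝[D.g] 0) :=
    D.Closed_small (C := C) (h1.mono fun x hx => hx.2.1.2)
      (h2.mono fun x hx => le_trans (le_add_of_nonneg_left (norm_nonneg _)) hx)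
  by_contra hc
  have : (𝓝 (1 : G)).IsCountablyGenerated := by
    have : FirstCountableTopology (Mat n) :=
      inferInstanceAs (FirstCountableTopology (Fin n → Fin n → ℝ))
    rw [← D.ex_nhds]
    infer_instance
  obtain ⟨x, hx, hk⟩ := exists_seq_forall_of_frequently ((not_eventually.1 hc).and_eventually
    (h1.and ((hp.eventually D.lg_ex).and (hq.eventually D.lg_ex))))
  have hxH : ∀ m, x m ∈ H := fun m => by
    by_contra h
    exact (hk m).1 fun h' => absurd h' h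
  have hq0 : ∀ m, q (x m) ≠ 0 := fun m h => by
    obtain ⟨k0, ⟨k1, -, k2, -⟩, k3, -⟩ := hk m
    rw [h, D.ex_zero, mul_one] at k2
    rw [k2] at k3
    exact k0 fun _ => k3 ▸ k1
  have hyH : ∀ m, D.ex (q (x m)) ∈ H := fun m => by
    obtain ⟨-, ⟨k1, -, k2, -⟩, -⟩ := hk m
    rw [eq_inv_mul_of_mul_eq k2]
    exact H.mul_mem (H.inv_mem (D.ex_mem_of_lie hH k1)) (hxH m)
  obtain ⟨Z, hZ, φ, hφ, hl⟩ := Closed_subseq (u := fun m => ‖q (x m)‖⁻¹ • q (x m))
    fun m => norm_smul_inv_norm (hq0 m)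
  have hy : Tendsto (fun m => D.ex (q (x (φ m)))) atTop (𝓝 1) :=
    D.Closed_ex.comp (hq.comp (hx.comp hφ.tendsto_atTop))
  have z1 : Z ∈ D.lie H := by
    refine D.mem_lie_of_tendsto hH (fun m => hyH (φ m)) hy (c := fun m => ‖q (x (φ m))‖⁻¹)
      (hl.congr fun m => ?_)
    rw [(hk (φ m)).2.2.2]
    rfl
  have z2 : Z ∈ w₀ ⊓ D.g :=
    (Closed_sub (w₀ ⊓ D.g)).mem_of_tendsto hl
      (Eventually.of_forall fun m => Submodule.smul_mem _ _ (hk (φ m)).2.1.2.1)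
  exact hZ (Submodule.disjoint_def.1 hd Z z1 z2)

theorem lie_nhds {H : Subgroup G} (hH : IsClosed (H : Set G)) :
    Filter.map D.ex (𝓝[D.lie H] 0) = 𝓝[H] 1 := by
  refine le_antisymm (tendsto_nhdsWithin_iff.2 ⟨?_, ?_⟩)
    (le_map_of_right_inverse (mba := D.lg) ?_ ?_)
  · exact D.Closed_ex.mono_left (nhdsWithin_mono _ (D.lie_le H))
  · exact eventually_nhdsWithin_of_forall fun X hX => D.ex_mem_of_lie hH hX
  · exact (D.ex_lg.mono fun x hx => hx.2).filter_mono nhdsWithin_le_nhds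
  · refine tendsto_nhdsWithin_iff.2 ⟨?_, eventually_nhdsWithin_iff.2 (D.lg_mem_lie hH)⟩
    exact (D.tendsto_lg.mono_right nhdsWithin_le_nhds).mono_left nhdsWithin_le_nhds

theorem exists_restrict {H : Subgroup G} (hH : IsClosed (H : Set G)) :
    ∃ E : ExpData H n, E.g = D.lie H ∧ (∀ x : H, E.ρ x = D.ρ x) ∧
      ∀ X ∈ D.lie H, (E.ex X : G) = D.ex X := by
  classical
  obtain ⟨e, he⟩ : ∃ e : Mat n → H, ∀ X ∈ D.lie H, (e X : G) = D.ex X :=
    ⟨fun X => if h : D.ex X ∈ H then ⟨D.ex X, h⟩ else 1, fun X hX => by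
      simp only [dif_pos (D.ex_mem_of_lie hH hX)]⟩
  refine ⟨{ ρ := D.ρ.comp H.subtype
            g := D.lie H
            ex := e
            cont := D.cont.comp continuous_subtype_val
            ρ_ex := fun X hX => ?_
            ex_cont := ?_
            ex_zero := Subtype.ext ((he 0 (zero_mem _)).trans D.ex_zero)
            ex_nhds := ?_
            disc := ?_
            Ad_mem' := fun x X hX => ?_ }, rfl, fun _ => rfl, he⟩
  · show D.ρ (e X) = exp X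
    rw [he X hX, D.ρ_ex X (D.lie_le H hX)]
  · refine Topology.IsInducing.subtypeVal.continuousOn_iff.2 ?_
    exact (D.ex_cont.mono (D.lie_le H)).congr fun X hX => he X hX
  · refine map_injective Subtype.val_injective ?_
    have h1 : Filter.map (Subtype.val : H → G) (𝓝 1) = 𝓝[H] 1 :=
      map_nhds_subtype_val (s := (H : Set G)) (1 : H)
    rw [h1, map_map, ← D.lie_nhds hH]
    exact map_congr (eventually_nhdsWithin_of_forall fun X hX => he X hX)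
  · have h1 : Tendsto (Subtype.val : H → G) (𝓝 1) (𝓝 1) := continuous_subtype_val.tendsto (1 : H)
    exact (h1.eventually D.disc).mono fun x hx h => Subtype.ext (hx h)
  · have h1 := D.Ad_mem_lie x.2 hX
    rw [D.Ad_apply] at h1
    exact h1

/-- The stabiliser of a subspace is closed and its Lie algebra is the normaliser. -/
theorem exists_normaliser (v : Submodule ℝ (Mat n)) :
    ∃ H : Subgroup G, IsClosed (H : Set G) ∧ (∀ x, x ∈ H ↔ ∀ Y ∈ v, D.Ad x Y ∈ v) ∧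
      ∀ X, X ∈ D.lie H ↔ X ∈ D.g ∧ ∀ Y ∈ v, ⁅X, Y⁆ ∈ v := by
  let H : Subgroup G :=
    { carrier := {x | ∀ Y ∈ v, D.Ad x Y ∈ v}
      one_mem' := fun Y hY => by rwa [D.Ad_one]
      mul_mem' := fun {x y} hx hy Y hY => by
        rw [D.Ad_mul]
        exact hx _ (hy Y hY)
      inv_mem' := fun {x} hx Y hY => by
        have hi : Function.Injective ((D.Ad x).restrict hx) := fun a b hab => by
          have h := congrArg (D.Ad x⁻¹) (congrArg Subtype.val hab)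
          simp only [LinearMap.coe_restrict_apply, D.Ad_inv_Ad] at h
          exact Subtype.ext h
        obtain ⟨Y', hY'⟩ := LinearMap.injective_iff_surjective.1 hi ⟨Y, hY⟩
        have h : D.Ad x Y' = Y := congrArg Subtype.val hY'
        rw [← h, D.Ad_inv_Ad]
        exact Y'.2 }
  have hH : IsClosed (H : Set G) := by
    have e : (H : Set G) = ⋂ Y ∈ v, (fun x => D.Ad x Y) ⁻¹' v := by
      ext x
      simp only [mem_iInter]
      rfl
    rw [e]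
    exact isClosed_biInter fun Y _ =>
      (Closed_sub v).preimage (D.Ad_cont.comp (continuous_id.prodMk continuous_const))
  refine ⟨H, hH, fun _ => Iff.rfl, fun X => ?_⟩
  rw [D.mem_lie hH]
  refine and_congr_right fun hX => ⟨fun h Y hY => D.Closed_br hX fun t => h t Y hY,
    fun h t Y hY => D.Ad_ex_mem (D.g.smul_mem t hX) (fun Z hZ => ?_) hY⟩
  rw [Closed_smul_br]
  exact v.smul_mem t (h Z hZ)

end ExpData

end Pool.Agent.P.MP_d483fb_an.Z

end

end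

section

/-! Brackets of root vectors, integrality, proportional roots. -/

open scoped Matrix Matrix.Norms.Operator InnerProductSpace RealInnerProductSpace Topology
open NormedSpace Filter Set

noncomputable section

namespace Pool.Agent.P.MP_d483fb_an.Z

section Sl2

attribute [local instance 100] LieRing.ofAssociativeRing

theorem sl2_nat {n : ℕ} {h e f m : Mat n} {μ : ℝ} (h0 : h ≠ 0) (hef : e * f - f * e = h)
    (he : h * e - e * h = (2 : ℝ) • e) (hf : h * f - f * h = -((2 : ℝ) • f)) (hm0 : m ≠ 0)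
    (hm : h * m - m * h = μ • m) (hem : e * m - m * e = 0) : ∃ j : ℕ, μ = j := by
  have t : IsSl2Triple h e f :=
    { h_ne_zero := h0
      lie_e_f := hef
      lie_h_e_nsmul := by rw [two_nsmul, ← two_smul ℝ e]; exact he
      lie_h_f_nsmul := by rw [two_nsmul, ← two_smul ℝ f]; exact hf }
  have P : t.HasPrimitiveVectorWith m μ := { ne_zero := hm0, lie_h := hm, lie_e := hem }
  exact P.exists_nat

end Sl2

namespace Std

variable {G : Type} [Group G] [TopologicalSpace G] [IsTopologicalGroup G] {n k : ℕ}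
  (D : Std G n k)

theorem br_tr {β : Euc k} {E : Mat n} (hE : E ∈ D.gr β) : ⁅E, Eᵀ⁆ = ip E E • D.dg β := by
  have h0 : ⁅E, Eᵀ⁆ ∈ D.gr 0 := by
    have := D.br_gr hE (D.tr_gr hE)
    rwa [add_neg_cancel] at this
  have hs : Matrix.IsSymm ⁅E, Eᵀ⁆ := by
    rw [Matrix.IsSymm, tr_br, Matrix.transpose_transpose]
  obtain ⟨s₀, hs₀⟩ := D.exists_dg h0 hs
  have key : ∀ s, ⟪s₀, s⟫ = ⟪ip E E • β, s⟫ := by
    intro s
    have h1 : ⁅Eᵀ, D.dg s⁆ = ⟪β, s⟫ • Eᵀ := by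
      have := D.br_dg (D.tr_gr hE) s
      rw [inner_neg_left, Ring.lie_def] at this
      rw [Ring.lie_def, ← neg_sub, this, neg_smul, neg_neg]
    rw [← D.ip_dg, ← hs₀, ip_br, h1, ip_smul_right, ip_tr, real_inner_smul_left, mul_comm]
  have : s₀ = ip E E • β := ext_inner_right ℝ key
  rw [hs₀, this, map_smul]

theorem ip_br_key {α β : Euc k} {E Z : Mat n} (hE : E ∈ D.gr α) (hZ : Z ∈ D.gr β) :
    ip ⁅Eᵀ, Z⁆ ⁅Eᵀ, Z⁆ = ip ⁅E, Z⁆ ⁅E, Z⁆ + ip E E * ⟪α, β⟫ * ip Z Z := by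
  have h1 : ⁅E, ⁅Eᵀ, Z⁆⁆ = ⁅Eᵀ, ⁅E, Z⁆⁆ + ⁅⁅E, Eᵀ⁆, Z⁆ := by
    simp only [Ring.lie_def]
    noncomm_ring
  have h2 : ⁅⁅E, Eᵀ⁆, Z⁆ = (ip E E * ⟪α, β⟫) • Z := by
    have := D.br_dg hZ α
    rw [D.br_tr hE, Ring.lie_def, smul_mul_assoc, mul_smul_comm, ← smul_sub, ← Ring.lie_def, this,
      smul_smul, real_inner_comm]
  rw [ip_br Eᵀ, Matrix.transpose_transpose, h1, ip_add_right, h2, ip_smul_right, ip_br E]

theorem br_ne_zero {α β : Euc k} {E Z : Mat n} (hE : E ∈ D.gr α) (hE0 : E ≠ 0) (hZ : Z ∈ D.gr β)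
    (hZ0 : Z ≠ 0) (h : ⟪α, β⟫ < 0) : ⁅E, Z⁆ ≠ 0 := by
  intro h0
  have h1 := D.ip_br_key hE hZ
  rw [h0, ip_zero_left, zero_add] at h1
  have h2 := ip_self_nonneg ⁅Eᵀ, Z⁆
  have h3 : ip E E * ⟪α, β⟫ * ip Z Z < 0 :=
    mul_neg_of_neg_of_pos (mul_neg_of_pos_of_neg (ip_self_pos hE0) h) (ip_self_pos hZ0)
  linarith

theorem br_onto {α β : Euc k} {E Z : Mat n} (hE : E ∈ D.gr α) (hE0 : E ≠ 0) (h : 0 < ⟪α, β⟫)
    (hZ : Z ∈ D.gr β) : ∃ W ∈ D.gr (β - α), ⁅E, W⁆ = Z := by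
  let L : Mat n →ₗ[ℝ] Mat n := LinearMap.mulLeft ℝ E - LinearMap.mulRight ℝ E
  have hL : ∀ W, L W = ⁅E, W⁆ := fun W => by simp [L, Ring.lie_def]
  have hle : (D.gr (β - α)).map L ≤ D.gr β := by
    rintro _ ⟨W, hW, rfl⟩
    have := D.br_gr hE hW
    rwa [add_sub_cancel, ← hL] at this
  have hge : D.gr β ≤ (D.gr (β - α)).map L := by
    refine le_of_orth hle fun X hX hor => ?_
    have hW : ⁅Eᵀ, X⁆ ∈ D.gr (β - α) := by
      have := D.br_gr (D.tr_gr hE) hX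
      rwa [neg_add_eq_sub] at this
    have h1 := hor _ ⟨_, hW, rfl⟩
    rw [hL, ip_comm, ip_br] at h1
    have h2 := D.ip_br_key hE hX
    have h3 := ip_self_nonneg ⁅E, X⁆
    by_contra hX0
    have h4 : 0 < ip E E * ⟪α, β⟫ * ip X X :=
      mul_pos (mul_pos (ip_self_pos hE0) h) (ip_self_pos hX0)
    linarith
  obtain ⟨W, hW, hWZ⟩ := hge hZ
  exact ⟨W, hW, by rw [← hL, hWZ]⟩

theorem mem_roots_of {β : Euc k} {E : Mat n} (hβ : β ≠ 0) (hE : E ∈ D.gr β) (hE0 : E ≠ 0) :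
    β ∈ D.roots :=
  D.mem_roots.2 ⟨hβ, fun h => hE0 (by rwa [h, Submodule.mem_bot] at hE)⟩

theorem add_mem_roots {α β : Euc k} (hα : α ∈ D.roots) (hβ : β ∈ D.roots) (h : ⟪α, β⟫ < 0)
    (hne : α + β ≠ 0) : α + β ∈ D.roots := by
  obtain ⟨E, hE, hE0⟩ := D.exists_ne_zero hα
  obtain ⟨Z, hZ, hZ0⟩ := D.exists_ne_zero hβ
  exact D.mem_roots_of hne (D.br_gr hE hZ) (D.br_ne_zero hE hE0 hZ hZ0 h)

theorem sub_mem_roots {α β : Euc k} (hα : α ∈ D.roots) (hβ : β ∈ D.roots) (h : 0 < ⟪α, β⟫)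
    (hne : β ≠ α) : β - α ∈ D.roots := by
  have := D.add_mem_roots (D.neg_mem_roots hα) hβ (by rw [inner_neg_left]; linarith)
    (by rw [neg_add_eq_sub]; exact sub_ne_zero.2 hne)
  rwa [neg_add_eq_sub] at this

theorem exists_sl2 {β : Euc k} {E : Mat n} (hβ : β ≠ 0) (hE : E ∈ D.gr β) (hE0 : E ≠ 0) :
    ∃ F ∈ D.gr (-β), ⁅E, F⁆ = D.dg ((2 / ⟪β, β⟫) • β) := by
  have hp := (ip_self_pos hE0).ne'
  refine ⟨(2 / ⟪β, β⟫ / ip E E) • Eᵀ, Submodule.smul_mem _ _ (D.tr_gr hE), ?_⟩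
  have _h := hβ
  rw [Ring.lie_def, smul_mul_assoc, mul_smul_comm, ← smul_sub, ← Ring.lie_def, D.br_tr hE,
    smul_smul, div_mul_cancel₀ _ hp, map_smul]

theorem integral {α β : Euc k} (hα : α ∈ D.roots) (hβ : β ∈ D.roots) :
    ∃ m : ℤ, 2 * ⟪α, β⟫ = m * ⟪α, α⟫ := by
  have hα0 := D.root_ne_zero hα
  have hαα : ⟪α, α⟫ ≠ 0 := fun h => hα0 (inner_self_eq_zero.1 h)
  obtain ⟨E, hE, hE0⟩ := D.exists_ne_zero hα
  obtain ⟨Z, hZ, hZ0⟩ := D.exists_ne_zero hβ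
  obtain ⟨F, hF, hEF⟩ := D.exists_sl2 hα0 hE hE0
  let v : ℕ → Mat n := fun j => (fun X => ⁅E, X⁆)^[j] Z
  have hv0 : v 0 = Z := rfl
  have hvs : ∀ j, v (j + 1) = ⁅E, v j⁆ := fun j => Function.iterate_succ_apply' _ _ _
  have hv : ∀ j : ℕ, v j ∈ D.gr (β + (j : ℝ) • α) := by
    intro j
    induction j with
    | zero => simpa [hv0] using hZ
    | succ j ih =>
      have := D.br_gr hE ih
      rw [hvs]
      convert this using 2
      rw [Nat.cast_succ, add_smul, one_smul]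
      abel
  have hex : ∃ j, v j = 0 := by
    by_contra hno
    push Not at hno
    have hinj : Function.Injective fun j : ℕ => β + (j : ℝ) • α := by
      intro i j hij
      have := smul_left_injective ℝ hα0 (add_left_cancel hij)
      exact_mod_cast this
    have hfin : (range fun j : ℕ => β + (j : ℝ) • α).Finite := by
      refine ((D.roots.finite_toSet).insert 0).subset ?_
      rintro _ ⟨j, rfl⟩
      by_cases h0 : β + (j : ℝ) • α = 0
      · exact Or.inl h0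
      · exact Or.inr (D.mem_roots_of h0 (hv j) (hno j))
    exact infinite_range_of_injective hinj hfin
  obtain ⟨j, hj, hj'⟩ := Nat.exists_not_and_succ_of_not_zero_of_exists (p := fun j => v j = 0)
    (by rw [hv0]; exact hZ0) hex
  have hH : D.dg ((2 / ⟪α, α⟫) • α) ≠ 0 := by
    intro h
    have := D.dg_inj (h.trans (map_zero D.dg).symm)
    rcases smul_eq_zero.1 this with h1 | h1
    · exact div_ne_zero two_ne_zero hαα h1
    · exact hα0 h1
  have h2 : ⟪α, (2 / ⟪α, α⟫) • α⟫ = 2 := by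
    rw [real_inner_smul_right, div_mul_cancel₀ _ hαα]
  have he := D.br_dg hE ((2 / ⟪α, α⟫) • α)
  have hf := D.br_dg hF ((2 / ⟪α, α⟫) • α)
  have hm := D.br_dg (hv j) ((2 / ⟪α, α⟫) • α)
  rw [h2] at he
  rw [inner_neg_left, h2, neg_smul] at hf
  rw [hvs] at hj'
  obtain ⟨i, hi⟩ := sl2_nat hH hEF he hf hj hm hj'
  rw [inner_add_left, real_inner_smul_left, h2, real_inner_smul_right, real_inner_comm α β] at hi
  refine ⟨(i : ℤ) - 2 * j, ?_⟩
  push_cast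
  rw [← hi]
  field_simp
  ring

theorem prop_roots {β : Euc k} {c : ℝ} (hβ : β ∈ D.roots) (hc : c • β ∈ D.roots) (h : 0 < c) :
    c = 1 / 2 ∨ c = 1 ∨ c = 2 := by
  have hββ : ⟪β, β⟫ ≠ 0 := fun h => D.root_ne_zero hβ (inner_self_eq_zero.1 h)
  obtain ⟨m, hm⟩ := D.integral hβ hc
  obtain ⟨m', hm'⟩ := D.integral hc hβ
  simp only [real_inner_smul_left, real_inner_smul_right] at hm hm'
  have h1 : 2 * c = m := by
    apply mul_right_cancel₀ hββ
    linarith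
  have h2 : 2 = m' * c := by
    apply mul_right_cancel₀ (mul_ne_zero h.ne' hββ)
    linarith
  have h3 : m * m' = 4 := by
    have : (m : ℝ) * m' = 4 := by
      rw [← h1]
      linarith
    exact_mod_cast this
  have h4 : 0 < m := by
    have : (0 : ℝ) < m := by linarith
    exact_mod_cast this
  have h5 : m ≤ 4 := Int.le_of_dvd (by norm_num) ⟨m', h3.symm⟩
  interval_cases m
  · left
    push_cast at h1
    linarith
  · right; left
    push_cast at h1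
    linarith
  · omega
  · right; right
    push_cast at h1
    linarith

omit [IsTopologicalGroup G] in
theorem self_mem_cls (β : Euc k) : β ∈ cls β := ⟨1, one_pos, (one_smul _ _).symm⟩

omit [IsTopologicalGroup G] in
theorem cls_eq {β γ : Euc k} (h : γ ∈ cls β) : cls γ = cls β := by
  obtain ⟨c, hc, rfl⟩ := h
  ext δ
  constructor
  · rintro ⟨a, ha, rfl⟩
    exact ⟨a * c, mul_pos ha hc, smul_smul _ _ _⟩
  · rintro ⟨a, ha, rfl⟩
    exact ⟨a / c, div_pos ha hc, by rw [smul_smul, div_mul_cancel₀ _ hc.ne']⟩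

omit [IsTopologicalGroup G] in
theorem cls_neg (β : Euc k) : cls (-β) = -cls β := by
  ext δ
  rw [Set.mem_neg]
  constructor
  · rintro ⟨a, ha, rfl⟩
    exact ⟨a, ha, by rw [smul_neg, neg_neg]⟩
  · rintro ⟨a, ha, h⟩
    exact ⟨a, ha, by rw [smul_neg, ← h, neg_neg]⟩

theorem u_eq_sup {b : Euc k} (hb : b ≠ 0)
    (hu : ∀ γ ∈ D.roots, γ ∈ cls b → γ = b ∨ γ = (2 : ℝ) • b) :
    D.u b = D.gr b ⊔ D.gr ((2 : ℝ) • b) := by
  rw [gr, gr, ← D.grS_union, u]
  refine D.grS_congr fun γ hγ => ⟨fun h => ?_, ?_⟩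
  · rcases hγ with rfl | hγ
    · obtain ⟨c, hc, h⟩ := h
      exact absurd h.symm (smul_ne_zero hc.ne' hb)
    · exact hu γ hγ h
  · rintro (rfl | rfl)
    · exact self_mem_cls _
    · exact ⟨2, two_pos, rfl⟩

theorem exists_base {β : Euc k} (hβ : β ∈ D.roots) : ∃ b ∈ D.roots, b ∈ cls β ∧
    (∀ γ ∈ D.roots, γ ∈ cls β → γ = b ∨ γ = (2 : ℝ) • b) ∧
    D.u β = D.gr b ⊔ D.gr ((2 : ℝ) • b) := by
  have key : ∀ b ∈ D.roots, (1 / 2 : ℝ) • b ∉ D.roots →
      ∀ γ ∈ D.roots, γ ∈ cls b → γ = b ∨ γ = (2 : ℝ) • b := by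
    rintro b hb hn _ hγ ⟨c, hc, rfl⟩
    rcases D.prop_roots hb hγ hc with rfl | rfl | rfl
    · exact absurd hγ hn
    · exact Or.inl (one_smul _ _)
    · exact Or.inr rfl
  obtain ⟨b, hb, hc, hn⟩ : ∃ b ∈ D.roots, b ∈ cls β ∧ (1 / 2 : ℝ) • b ∉ D.roots := by
    by_cases h : (1 / 2 : ℝ) • β ∈ D.roots
    · refine ⟨_, h, ⟨1 / 2, by norm_num, rfl⟩, fun h' => ?_⟩
      rw [smul_smul] at h'
      have := D.prop_roots hβ h' (by norm_num)
      norm_num at this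
    · exact ⟨β, hβ, self_mem_cls β, h⟩
  have hu := key b hb hn
  refine ⟨b, hb, hc, by rwa [← cls_eq hc], ?_⟩
  rw [← D.u_eq_sup (D.root_ne_zero hb) hu, u, u, cls_eq hc]

theorem br_onto_two {b : Euc k} {E Z : Mat n} (hb : b ≠ 0) (hE : E ∈ D.gr b) (hE0 : E ≠ 0)
    (hZ : Z ∈ D.gr ((2 : ℝ) • b)) : ∃ W ∈ D.gr b, ⁅E, W⁆ = Z := by
  have h : 0 < ⟪b, (2 : ℝ) • b⟫ := by
    rw [real_inner_smul_right]
    exact mul_pos two_pos (real_inner_self_pos.2 hb)
  have := D.br_onto hE hE0 h hZ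
  rwa [two_smul, add_sub_cancel_right] at this

/-- A subalgebra of the coarse root algebra that projects onto the base root space is everything. -/
theorem eq_u_of_onto {b : Euc k} (hb : b ∈ D.roots)
    (hu : ∀ γ ∈ D.roots, γ ∈ cls b → γ = b ∨ γ = (2 : ℝ) • b) {q : Submodule ℝ (Mat n)}
    (hq : IsSub q) (hle : q ≤ D.u b) (h : ∀ E ∈ D.gr b, ∃ X ∈ q, D.pr b X = E) :
    q = D.u b := by
  have hb0 := D.root_ne_zero hb
  have hsup := D.u_eq_sup hb0 hu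
  have hinj := smul_left_injective ℝ hb0
  have lift : ∀ E ∈ D.gr b, ∃ B ∈ D.gr ((2 : ℝ) • b), E + B ∈ q := by
    intro E hE
    obtain ⟨X, hX, hXE⟩ := h E hE
    have hX' := hle hX
    rw [hsup, Submodule.mem_sup] at hX'
    obtain ⟨A, hA, B, hB, rfl⟩ := hX'
    have h1 : D.pr b A = A := D.prS_eq_self.2 hA.2
    have h2 : D.pr b B = 0 := by
      refine D.prS_eq_zero hB.2 (disjoint_singleton.2 fun h' => ?_)
      have := hinj ((one_smul ℝ b).trans h')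
      norm_num at this
    rw [map_add, h1, h2, add_zero] at hXE
    exact ⟨B, hB, hXE ▸ hX⟩
  have van : ∀ (c d : ℝ) (X Y : Mat n), X ∈ D.gr (c • b) → Y ∈ D.gr (d • b) → 2 < c + d →
      ⁅X, Y⁆ = 0 := by
    intro c d X Y hX hY hcd
    have hpos : 0 < c + d := by linarith
    refine D.br_eq_zero hX hY ?_ fun hr => ?_
    · rw [← add_smul]
      exact smul_ne_zero hpos.ne' hb0
    · rw [← add_smul] at hr
      rcases hu _ hr ⟨_, hpos, rfl⟩ with h' | h'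
      · have := hinj (h'.trans (one_smul ℝ b).symm)
        linarith
      · have := hinj h'
        linarith
  have two : D.gr ((2 : ℝ) • b) ≤ q := by
    intro Z hZ
    obtain ⟨E, hE, hE0⟩ := D.exists_ne_zero hb
    obtain ⟨W, hW, hEW⟩ := D.br_onto_two hb0 hE hE0 hZ
    obtain ⟨B, hB, hEB⟩ := lift E hE
    obtain ⟨C, hC, hWC⟩ := lift W hW
    have h0 := hq _ hEB _ hWC
    have h1 := van 1 2 E C (by rwa [one_smul]) hC (by norm_num)
    have h2 := van 2 1 B W hB (by rwa [one_smul]) (by norm_num)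
    have h3 := van 2 2 B C hB hC (by norm_num)
    have h4 : ⁅E + B, W + C⁆ = ⁅E, W⁆ + ⁅E, C⁆ + ⁅B, W⁆ + ⁅B, C⁆ := by
      simp only [Ring.lie_def]
      noncomm_ring
    rwa [h4, h1, h2, h3, add_zero, add_zero, add_zero, hEW] at h0
  refine le_antisymm hle ?_
  rw [hsup]
  refine sup_le (fun E hE => ?_) two
  obtain ⟨B, hB, hEB⟩ := lift E hE
  have := q.sub_mem hEB (two hB)
  rwa [add_sub_cancel_right] at this

theorem finrank_u_neg (β : Euc k) :
    Module.finrank ℝ (D.u (-β)) = Module.finrank ℝ (D.u β) := by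
  rw [u, u, cls_neg, D.finrank_grS_neg]

end Std

end Pool.Agent.P.MP_d483fb_an.Z

end

end

section

/-! Spectral facts about symmetric matrices. -/

open scoped Matrix Matrix.Norms.Operator InnerProductSpace RealInnerProductSpace Topology
open NormedSpace Filter Set

noncomputable section

namespace Pool.Agent.P.MP_d483fb_an.Z

variable {n : ℕ}

theorem Mx3_eigenbasis (v : Submodule ℝ (Mat n)) (hs : ∀ X ∈ v, X.IsSymm)
    (hc : ∀ X ∈ v, ∀ Y ∈ v, ⁅X, Y⁆ = 0) :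
    ∃ b : OrthonormalBasis (Fin n) ℝ (Euc n), ∀ X ∈ v, ∀ a, ∃ c : ℝ,
      Matrix.toLpLin 2 2 X (b a) = c • b a := by
  classical
  let T : v → Module.End ℝ (Euc n) := fun X => Matrix.toLpLin 2 2 (X : Mat n)
  have hT : ∀ X, (T X).IsSymmetric := fun X =>
    Matrix.isSymmetric_toEuclideanLin_iff.mpr (Matrix.isHermitian_iff_isSymm.mpr (hs X X.2))
  have hC : Pairwise (Function.onFun Commute T) := fun X Y _ => by
    have h := hc X X.2 Y Y.2
    rw [Ring.lie_def, sub_eq_zero] at h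
    show T X ∘ₗ T Y = T Y ∘ₗ T X
    simp only [T]
    rw [← Matrix.toLpLin_mul_same, ← Matrix.toLpLin_mul_same, h]
  have hI := LinearMap.IsSymmetric.directSum_isInternal_of_pairwise_commute hT hC
  have hO := LinearMap.IsSymmetric.orthogonalFamily_iInf_eigenspaces hT
  have hF := Submodule.finite_ne_bot_of_iSupIndep hI.submodule_iSupIndep
  let _ : Fintype {χ : v → ℝ // (⨅ j, Module.End.eigenspace (T j) (χ j)) ≠ ⊥} := hF.fintype
  have hI' := DirectSum.isInternal_ne_bot_iff.mpr hI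
  have hO' := hO.comp (f := fun χ : {χ : v → ℝ //
    (⨅ j, Module.End.eigenspace (T j) (χ j)) ≠ ⊥} => χ.1) Subtype.val_injective
  have hn : Module.finrank ℝ (Euc n) = n := by simp
  refine ⟨hI'.subordinateOrthonormalBasis hn hO', fun X hX a => ?_⟩
  have h1 := hI'.subordinateOrthonormalBasis_subordinate hn a hO'
  exact ⟨_, Module.End.mem_eigenspace_iff.mp ((Submodule.mem_iInf _).mp h1 ⟨X, hX⟩)⟩

theorem simul_diag (v : Submodule ℝ (Mat n)) (hs : ∀ X ∈ v, X.IsSymm)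
    (hc : ∀ X ∈ v, ∀ Y ∈ v, ⁅X, Y⁆ = 0) :
    ∃ U : Mat n, U * Uᵀ = 1 ∧ ∀ X ∈ v, (U * X * Uᵀ).IsDiag := by
  obtain ⟨b, hb⟩ := Mx3_eigenbasis v hs hc
  have h1 : ∀ a c, ∑ j, b a j * b c j = if a = c then 1 else 0 := fun a c => by
    rw [← orthonormal_iff_ite.mp b.orthonormal a c, PiLp.inner_apply]
    exact Finset.sum_congr rfl fun j _ => by simp [mul_comm]
  refine ⟨Matrix.of fun a j => b a j, ?_, fun X hX a c hac => ?_⟩
  · ext a c
    rw [Matrix.mul_apply, Matrix.one_apply, ← h1]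
    rfl
  · obtain ⟨t, ht⟩ := hb X hX c
    have h2 : ∀ i, ∑ j, X i j * b c j = t * b c i := fun i =>
      congrArg (fun x : Euc n => x i) ht
    rw [Matrix.mul_assoc, Matrix.mul_apply]
    have h3 : ∀ i, (X * (Matrix.of fun a j => b a j : Mat n)ᵀ) i c = t * b c i := fun i => by
      rw [Matrix.mul_apply, ← h2]
      rfl
    have h4 := h1 a c
    rw [if_neg hac] at h4
    calc ∑ i, (Matrix.of fun a j => b a j : Mat n) a i *
          (X * (Matrix.of fun a j => b a j : Mat n)ᵀ) i c = t * ∑ i, b a i * b c i := by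
          rw [Finset.mul_sum]
          refine Finset.sum_congr rfl fun i _ => ?_
          rw [h3, Matrix.of_apply]
          ring
      _ = 0 := by rw [h4, mul_zero]

/-- The diagonal of a matrix as a Euclidean vector. -/
def Mx3_diag : Mat n →ₗ[ℝ] Euc n where
  toFun X := WithLp.toLp 2 fun i => X i i
  map_add' _ _ := rfl
  map_smul' _ _ := rfl

theorem exists_frame (v : Submodule ℝ (Mat n)) (hd : ∀ X ∈ v, X.IsDiag) :
    ∃ (k : ℕ) (lam : Fin n → Euc k), (∀ s t, ∑ i, ⟪lam i, s⟫ * ⟪lam i, t⟫ = ⟪s, t⟫) ∧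
      ∀ X, X ∈ v ↔ ∃ s, X = Matrix.diagonal fun i => ⟪lam i, s⟫ := by
  let W : Submodule ℝ (Euc n) := v.map Mx3_diag
  let b := stdOrthonormalBasis ℝ W
  let lam : Fin n → Euc (Module.finrank ℝ W) := fun i => WithLp.toLp 2 fun j => (b j : Euc n) i
  have h1 : ∀ s i, ⟪lam i, s⟫ = (b.repr.symm s : Euc n) i := fun s i => by
    rw [← b.sum_repr_symm s, PiLp.inner_apply]
    simp [lam]
  refine ⟨_, lam, fun s t => ?_, fun X => ⟨fun hX => ?_, ?_⟩⟩
  · rw [← b.repr.symm.inner_map_map s t, Submodule.coe_inner, PiLp.inner_apply]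
    refine Finset.sum_congr rfl fun i _ => ?_
    rw [h1, h1, mul_comm]
    rfl
  · refine ⟨b.repr ⟨Mx3_diag X, Submodule.mem_map_of_mem hX⟩, ?_⟩
    simp only [h1, LinearIsometryEquiv.symm_apply_apply]
    exact (hd X hX).diagonal_diag.symm
  · rintro ⟨s, rfl⟩
    obtain ⟨Y, hY, e⟩ := (b.repr.symm s).2
    simp only [h1, ← e]
    have h2 : Matrix.diagonal (fun i => Mx3_diag Y i) = Y := (hd Y hY).diagonal_diag
    rw [h2]
    exact hY

theorem exists_max_abelian (g : Submodule ℝ (Mat n)) :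
    ∃ v : Submodule ℝ (Mat n), v ≤ g ∧ (∀ X ∈ v, X.IsSymm) ∧ (∀ X ∈ v, ∀ Y ∈ v, ⁅X, Y⁆ = 0) ∧
      ∀ X ∈ g, X.IsSymm → (∀ Y ∈ v, ⁅X, Y⁆ = 0) → X ∈ v := by
  obtain ⟨v, ⟨h1, h2, h3⟩, hm⟩ := (wellFounded_gt (α := Submodule ℝ (Mat n))).has_min
    {v | v ≤ g ∧ (∀ X ∈ v, X.IsSymm) ∧ ∀ X ∈ v, ∀ Y ∈ v, ⁅X, Y⁆ = 0}
    ⟨⊥, bot_le, fun X hX => by
      rw [(Submodule.mem_bot ℝ).mp hX]
      exact Matrix.isSymm_zero, fun X hX Y _ => by
      rw [(Submodule.mem_bot ℝ).mp hX, Ring.lie_def, zero_mul, mul_zero, sub_self]⟩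
  refine ⟨v, h1, h2, h3, fun X hX hS hC => ?_⟩
  by_contra hn
  have key : ∀ Z ∈ v ⊔ ℝ ∙ X, ∃ Y ∈ v, ∃ c : ℝ, Z = Y + c • X := fun Z hZ => by
    obtain ⟨Y, hY, W, hW, rfl⟩ := Submodule.mem_sup.mp hZ
    obtain ⟨c, rfl⟩ := Submodule.mem_span_singleton.mp hW
    exact ⟨Y, hY, c, rfl⟩
  refine hm (v ⊔ ℝ ∙ X) ⟨sup_le h1 ((Submodule.span_singleton_le_iff_mem _ _).mpr hX),
    fun Z hZ => ?_, fun Z hZ Z' hZ' => ?_⟩ ?_
  · obtain ⟨Y, hY, c, rfl⟩ := key Z hZ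
    exact (h2 Y hY).add (hS.smul c)
  · obtain ⟨Y, hY, c, rfl⟩ := key Z hZ
    obtain ⟨Y', hY', c', rfl⟩ := key Z' hZ'
    have e1 := h3 Y hY Y' hY'
    have e2 := hC Y hY
    have e3 := hC Y' hY'
    rw [Ring.lie_def, sub_eq_zero] at e1 e2 e3 ⊢
    simp only [add_mul, mul_add, smul_mul_assoc, mul_smul_comm, e1, e2, e3, smul_add, smul_smul,
      mul_comm c c']
    abel
  · exact lt_of_le_of_ne le_sup_left fun e => hn
      (e ▸ Submodule.mem_sup_right (Submodule.mem_span_singleton_self X))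

theorem orth_compact : IsCompact {U : Mat n | U * Uᵀ = 1} := by
  have hK : IsCompact (Set.pi univ fun _ : Fin n => Set.pi univ fun _ : Fin n =>
      Icc (-1 : ℝ) 1) := isCompact_univ_pi fun _ => isCompact_univ_pi fun _ => isCompact_Icc
  refine IsCompact.of_isClosed_subset (X := Mat n) hK
    (isClosed_eq (continuous_id.matrix_mul continuous_id.matrix_transpose) continuous_const)
    fun (U : Mat n) hU i _ j _ => ?_
  have h1 : (U * Uᵀ) i i = 1 := by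
    rw [show U * Uᵀ = 1 from hU, Matrix.one_apply_eq]
  rw [Matrix.mul_apply] at h1
  have h2 : U i j * U i j ≤ 1 := by
    rw [← h1]
    exact Finset.single_le_sum (f := fun l => U i l * Uᵀ l i)
      (fun l _ => mul_self_nonneg (U i l)) (Finset.mem_univ j)
  exact abs_le.mp (abs_le_one_iff_mul_self_le_one.mpr h2)

end Pool.Agent.P.MP_d483fb_an.Z

end

end

section

/-! Stabilisers of weight filtrations and the maximal compact subgroup. -/

open scoped Matrix Matrix.Norms.Operator InnerProductSpace RealInnerProductSpace Topology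
open NormedSpace Filter Set

noncomputable section

namespace Pool.Agent.P.MP_d483fb_an.Z

theorem mem_of_exp_smul_mem {A : Type} [NormedRing A] [NormedAlgebra ℝ A] [CompleteSpace A]
    {v : Submodule ℝ A} (hv : IsClosed (v : Set A)) {X : A} (h : ∀ t : ℝ, exp (t • X) ∈ v) :
    X ∈ v := by
  have := (hasDerivAt_exp_smul_const (𝕂 := ℝ) X 0).tendsto_slope_zero
  rw [zero_smul, exp_zero, one_mul] at this
  refine hv.mem_of_tendsto this (Eventually.of_forall fun t => v.smul_mem _ (v.sub_mem (h _) ?_))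
  simpa using h 0

namespace Std

variable {G : Type} [Group G] [TopologicalSpace G] [IsTopologicalGroup G] {n k : ℕ}
  (D : Std G n k)

theorem stab_closed (S : AddSubmonoid (Euc k)) : IsClosed (D.stab S : Set G) :=
  ((D.wtS S).closed_of_finiteDimensional.preimage D.cont).inter
    ((D.wtS S).closed_of_finiteDimensional.preimage (D.cont.comp continuous_inv))

omit [IsTopologicalGroup G] in
theorem K_closed : IsClosed (D.K : Set G) :=
  isClosed_eq (D.cont.matrix_mul D.cont.matrix_transpose) continuous_const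

omit [IsTopologicalGroup G] in
theorem exp_mem_wtS {S : AddSubmonoid (Euc k)} {X : Mat n} (hX : X ∈ D.wtS S) :
    exp X ∈ D.wtS S := by
  have := exp_mem_of_mul (D.wtS S).closed_of_finiteDimensional
    (fun Z hZ => D.wtS_mul hX hZ fun β hβ γ hγ => S.add_mem hβ hγ) (D.one_mem_wtS S.zero_mem)
  rwa [mul_one] at this

theorem ex_mem_stab {S : AddSubmonoid (Euc k)} {X : Mat n} (hX : X ∈ D.grS S) :
    D.ex X ∈ D.stab S := by
  rw [mem_stab, D.ρ_ex_inv hX.1, D.ρ_ex _ hX.1]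
  exact ⟨D.exp_mem_wtS hX.2, D.exp_mem_wtS ((D.wtS S).neg_mem hX.2)⟩

theorem a_mem_stab (S : AddSubmonoid (Euc k)) (s : Euc k) : D.a s ∈ D.stab S :=
  D.ex_mem_stab (D.gr_le_grS S.zero_mem (D.dg_mem_gr s))

theorem lie_stab (S : AddSubmonoid (Euc k)) : D.lie (D.stab S) = D.grS S := by
  refine le_antisymm (fun X hX => ?_) (D.le_lie (D.grS_le _) fun X hX => D.ex_mem_stab hX)
  obtain ⟨h1, h2⟩ := (D.mem_lie (D.stab_closed S)).mp hX
  refine ⟨h1, mem_of_exp_smul_mem (D.wtS S).closed_of_finiteDimensional fun t => ?_⟩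
  have := (h2 t).1
  rwa [D.ρ_ex _ (D.g.smul_mem t h1)] at this

theorem mem_Zc {s : Euc k} {x : G} : x ∈ D.Zc s ↔ D.Ad x (D.dg s) = D.dg s := by
  have key : ∀ y : G, ⁅D.dg s, D.ρ y⁆ = 0 ↔ D.Ad y (D.dg s) = D.dg s := fun y => by
    rw [Ring.lie_def, sub_eq_zero, D.Ad_apply]
    refine ⟨fun h => ?_, fun h => ?_⟩
    · rw [← h, mul_assoc, D.ρ_mul_inv, mul_one]
    · rw [← h, mul_assoc, D.ρ_inv_mul, mul_one, h]
  rw [Zc, mem_stab, D.mem_wall, D.mem_wall, key, key]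
  refine ⟨fun h => h.1, fun h => ⟨h, ?_⟩⟩
  rw [← h, D.Ad_inv_Ad, h]

theorem comm_of_mem_Zc {s : Euc k} {x : G} (hx : x ∈ D.Zc s) (t : ℝ) :
    x * D.a (t • s) = D.a (t • s) * x := by
  rw [← mul_inv_eq_iff_eq_mul, a, D.conj_ex x (D.dg_mem _), map_smul, map_smul, D.mem_Zc.mp hx]

omit [IsTopologicalGroup G] in
theorem Ad_stab {S : AddSubmonoid (Euc k)} {T : Set (Euc k)} {x : G} (hx : x ∈ D.stab S)
    (h : ∀ β ∈ S, ∀ γ ∈ T, β + γ ∈ T) {X : Mat n} (hX : X ∈ D.wtS T) :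
    D.Ad x X ∈ D.wtS T := by
  rw [D.Ad_apply]
  exact D.wtS_mul (D.wtS_mul hx.1 hX h) hx.2 fun γ hγ β hβ => add_comm β γ ▸ h β hβ γ hγ

omit [IsTopologicalGroup G] in
theorem ρ_inv_K {x : G} (hx : x ∈ D.K) : D.ρ x⁻¹ = (D.ρ x)ᵀ := by
  rw [← mul_one (D.ρ x⁻¹), ← D.mem_K.mp hx, ← mul_assoc, D.ρ_inv_mul, one_mul]

omit [IsTopologicalGroup G] in
theorem ker_le_K {x : G} (hx : D.ρ x = 1) : x ∈ D.K := by
  rw [mem_K, hx, Matrix.transpose_one, one_mul]

omit [IsTopologicalGroup G] in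
theorem ex_mem_K {X : Mat n} (hX : X ∈ D.g) (h : Xᵀ = -X) : D.ex X ∈ D.K := by
  rw [mem_K, D.ρ_ex _ hX, ← Matrix.exp_transpose, h]
  exact exp_mul_neg X

theorem mem_lie_K {X : Mat n} : X ∈ D.lie D.K ↔ X ∈ D.g ∧ Xᵀ = -X := by
  rw [D.mem_lie D.K_closed]
  refine and_congr_right fun hX => ⟨fun h => ?_, fun h t => D.ex_mem_K (D.g.smul_mem t hX) ?_⟩
  · refine eq_of_exp_smul_eq (A := Mat n) (Eventually.of_forall fun t => ?_)
    have := D.ρ_inv_K (h t)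
    rw [D.ρ_ex_inv (D.g.smul_mem t hX), D.ρ_ex _ (D.g.smul_mem t hX), ← Matrix.exp_transpose,
      Matrix.transpose_smul, ← smul_neg] at this
    exact this.symm
  · rw [Matrix.transpose_smul, h, smul_neg]

omit [IsTopologicalGroup G] in
theorem Ad_K_tr {x : G} (hx : x ∈ D.K) (X : Mat n) : (D.Ad x X)ᵀ = D.Ad x Xᵀ := by
  rw [D.Ad_apply, D.Ad_apply, D.ρ_inv_K hx, Matrix.transpose_mul, Matrix.transpose_mul,
    Matrix.transpose_transpose, mul_assoc]

omit [IsTopologicalGroup G] in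
theorem ip_Ad_K {x : G} (hx : x ∈ D.K) (X Y : Mat n) : ip (D.Ad x X) (D.Ad x Y) = ip X Y := by
  rw [ip_eq_trace, ip_eq_trace, D.Ad_K_tr hx, ← D.Ad_mul_mat, D.Ad_apply, Matrix.trace_mul_cycle,
    D.ρ_inv_mul, one_mul]

omit [IsTopologicalGroup G] in
theorem norm_ρ_K {x : G} (hx : x ∈ D.K) : ‖D.ρ x‖ ≤ n := by
  have h : ∀ i j, ‖D.ρ x i j‖₊ ≤ 1 := fun i j =>
    entry_norm_bound_of_unitary (Matrix.mem_unitaryGroup_iff.mpr (D.mem_K.mp hx)) i j
  rw [Matrix.linfty_opNorm_def]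
  have : (Finset.univ.sup fun i => ∑ j, ‖D.ρ x i j‖₊) ≤ n := Finset.sup_le fun i _ =>
    (Finset.sum_le_sum fun j _ => h i j).trans (by simp)
  exact_mod_cast this

omit [IsTopologicalGroup G] in
theorem ρK_compact : IsCompact (D.ρ '' D.K) := by
  convert orth_compact.inter_right D.closed using 1
  ext y
  exact ⟨fun ⟨x, hx, e⟩ => e ▸ ⟨hx, x, rfl⟩, fun ⟨h, x, e⟩ => ⟨x, D.mem_K.mpr (e ▸ h), e⟩⟩

theorem map_ρ_nhds (x : G) : Filter.map D.ρ (𝓝 x) = 𝓝[range D.ρ] (D.ρ x) := by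
  have he : Topology.IsEmbedding fun y : Mat n => D.ρ x * y :=
    Function.LeftInverse.isEmbedding (f := fun y => D.ρ x⁻¹ * y)
      (fun y => by simp only [← mul_assoc, D.ρ_inv_mul, one_mul])
      (continuous_const.matrix_mul continuous_id) (continuous_const.matrix_mul continuous_id)
  have h1 := he.map_nhdsWithin_eq (range D.ρ) 1
  have h2 : (fun y : Mat n => D.ρ x * y) '' range D.ρ = range D.ρ := by
    ext y
    constructor
    · rintro ⟨_, ⟨z, rfl⟩, rfl⟩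
      exact ⟨x * z, map_mul _ _ _⟩
    · rintro ⟨z, rfl⟩
      exact ⟨_, ⟨x⁻¹ * z, rfl⟩, by simp only [← map_mul, mul_inv_cancel_left]⟩
  rw [h2, mul_one, ← D.opn, Filter.map_map] at h1
  rw [← h1, ← map_mul_left_nhds_one x, Filter.map_map]
  congr 1
  exact funext fun y => map_mul _ _ _

theorem exists_compact_lift {C : Set (Mat n)} (hC : IsCompact C) :
    ∃ Q : Set G, IsCompact Q ∧ D.ρ '' Q = C ∩ range D.ρ := by
  have := D.locallyCompactSpace
  obtain ⟨Q, hQ, h⟩ : ∃ Q : Set G, IsCompact Q ∧ C ∩ range D.ρ ⊆ D.ρ '' Q := by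
    refine (hC.inter_right D.closed).induction_on
      (p := fun S => ∃ Q : Set G, IsCompact Q ∧ S ⊆ D.ρ '' Q) ⟨∅, isCompact_empty, by simp⟩
      (fun s t hst ⟨Q, hQ, h⟩ => ⟨Q, hQ, hst.trans h⟩)
      (fun s t ⟨Q, hQ, h⟩ ⟨Q', hQ', h'⟩ => ⟨Q ∪ Q', hQ.union hQ', ?_⟩) ?_
    · rw [image_union]
      exact union_subset_union h h'
    · rintro _ ⟨-, x, rfl⟩
      obtain ⟨Q, hQ, hx⟩ := exists_compact_mem_nhds x
      refine ⟨D.ρ '' Q, nhdsWithin_mono _ inter_subset_right ?_, Q, hQ, Subset.rfl⟩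
      rw [← D.map_ρ_nhds]
      exact image_mem_map hx
  refine ⟨Q ∩ D.ρ ⁻¹' C, hQ.inter_right (hC.isClosed.preimage D.cont), ?_⟩
  rw [image_inter_preimage]
  exact Subset.antisymm (fun y hy => ⟨hy.2, image_subset_range _ _ hy.1⟩) fun y hy => ⟨h hy, hy.1⟩

omit [IsTopologicalGroup G] in
theorem ρ_inv_mul_eq_one {q x : G} (h : D.ρ q = D.ρ x) : D.ρ (q⁻¹ * x) = 1 := by
  rw [map_mul, ← h, D.ρ_inv_mul]

theorem compact_preimage (hf : {x | D.ρ x = 1}.Finite) {C : Set (Mat n)} (hC : IsCompact C) :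
    IsCompact (D.ρ ⁻¹' C) := by
  obtain ⟨Q, hQ, h⟩ := D.exists_compact_lift hC
  refine (hQ.mul hf.isCompact).of_isClosed_subset (hC.isClosed.preimage D.cont) fun x hx => ?_
  obtain ⟨q, hq, e⟩ := h.ge ⟨hx, x, rfl⟩
  exact ⟨q, hq, q⁻¹ * x, D.ρ_inv_mul_eq_one e, mul_inv_cancel_left q x⟩

theorem exists_compact_K : ∃ Q : Set G, IsCompact Q ∧ Q ⊆ D.K ∧
    ∀ x ∈ D.K, ∃ q ∈ Q, ∃ z, D.ρ z = 1 ∧ x = q * z := by
  obtain ⟨Q, hQ, h⟩ := D.exists_compact_lift orth_compact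
  refine ⟨Q, hQ, fun q hq => (h.le ⟨q, hq, rfl⟩).1, fun x hx => ?_⟩
  obtain ⟨q, hq, e⟩ := h.ge ⟨hx, x, rfl⟩
  exact ⟨q, hq, q⁻¹ * x, D.ρ_inv_mul_eq_one e, (mul_inv_cancel_left q x).symm⟩

end Std

end Pool.Agent.P.MP_d483fb_an.Z

end

end

section

/-! Weyl elements and the rank one lemma. -/

open scoped Matrix Matrix.Norms.Operator InnerProductSpace RealInnerProductSpace Topology
open NormedSpace Filter Set

noncomputable section

namespace Pool.Agent.P.MP_d483fb_an.Z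

namespace Std

variable {G : Type} [Group G] [TopologicalSpace G] [IsTopologicalGroup G] {n k : ℕ}
  (D : Std G n k)

omit [IsTopologicalGroup G] in
theorem inner_refl (β s t : Euc k) : ⟪refl β s, t⟫ = ⟪s, refl β t⟫ := by
  simp only [refl, inner_sub_left, inner_sub_right, real_inner_smul_left, real_inner_smul_right]
  rw [real_inner_comm β s]
  ring

omit [IsTopologicalGroup G] in
theorem refl_refl (β s : Euc k) : refl β (refl β s) = s := by
  rcases eq_or_ne β 0 with rfl | hβ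
  · simp [refl]
  have h : ⟪β, β⟫ ≠ 0 := inner_self_ne_zero.2 hβ
  have h1 : 2 * ⟪β, refl β s⟫ / ⟪β, β⟫ = -(2 * ⟪β, s⟫ / ⟪β, β⟫) := by
    simp only [refl, inner_sub_right, real_inner_smul_right]
    field_simp
    ring
  rw [refl, h1, refl, neg_smul, sub_neg_eq_add, sub_add_cancel]

omit [IsTopologicalGroup G] in
theorem refl_smul_self {β : Euc k} (c : ℝ) : refl β (c • β) = -(c • β) := by
  rcases eq_or_ne β 0 with rfl | hβ
  · simp [refl]
  have h : ⟪β, β⟫ ≠ 0 := inner_self_ne_zero.2 hβ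
  have h1 : 2 * ⟪β, c • β⟫ / ⟪β, β⟫ = 2 * c := by
    rw [real_inner_smul_right]
    field_simp
  rw [refl, h1, ← sub_smul, ← neg_smul]
  congr 1
  ring

omit [IsTopologicalGroup G] in
theorem refl_of_orth {β s : Euc k} (h : ⟪β, s⟫ = 0) : refl β s = s := by
  simp [refl, h]

omit [IsTopologicalGroup G] in
theorem norm_refl (β s : Euc k) : ‖refl β s‖ = ‖s‖ := by
  rw [norm_eq_sqrt_real_inner, inner_refl, refl_refl, ← norm_eq_sqrt_real_inner]

theorem weyl {β : Euc k} {E : Mat n} (hβ : β ≠ 0) (hE : E ∈ D.gr β) (hE0 : E ≠ 0) :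
    ∃ t : ℝ, ∀ s, D.Ad (D.ex (t • (E - Eᵀ))) (D.dg s) = D.dg (refl β s) := by
  have hb : 0 < ⟪β, β⟫ := real_inner_self_pos.2 hβ
  have he : 0 < ip E E := ip_self_pos hE0
  have hW : E - Eᵀ ∈ D.g := D.g.sub_mem (D.gr_le β hE) (D.tr_mem (D.gr_le β hE))
  have h1 : ∀ s, ⁅E - Eᵀ, D.dg s⁆ = -(⟪β, s⟫ • (E + Eᵀ)) := by
    intro s
    have h2 := D.br_dg hE s
    have h3 := D.br_dg (D.tr_gr hE) s
    rw [inner_neg_left, neg_smul] at h3
    rw [Ring.lie_def] at h2 h3 ⊢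
    rw [smul_add, ← h2, ← neg_neg (⟪β, s⟫ • Eᵀ), ← h3]
    noncomm_ring
  have h4 : ⁅E - Eᵀ, E + Eᵀ⁆ = (2 * ip E E) • D.dg β := by
    have h5 := D.br_tr hE
    rw [Ring.lie_def] at h5 ⊢
    rw [mul_smul, ← h5, two_smul]
    noncomm_ring
  obtain ⟨c, hc, hc2⟩ : ∃ c : ℝ, 0 < c ∧ c * c = 2 * ip E E * ⟪β, β⟫ :=
    ⟨√(2 * ip E E * ⟪β, β⟫), Real.sqrt_pos.2 (by positivity), Real.mul_self_sqrt (by positivity)⟩
  have hsm : ∀ (a : ℝ) (X Y : Mat n), ⁅a • X, Y⁆ = a • ⁅X, Y⁆ := fun a X Y => by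
    simp only [Ring.lie_def, smul_mul_assoc, mul_smul_comm, smul_sub]
  have hsm' : ∀ (a : ℝ) (X Y : Mat n), ⁅X, a • Y⁆ = a • ⁅X, Y⁆ := fun a X Y => by
    simp only [Ring.lie_def, smul_mul_assoc, mul_smul_comm, smul_sub]
  refine ⟨Real.pi / c, fun s => ?_⟩
  have hW' := D.g.smul_mem (Real.pi / c) hW
  have h6 : D.Ad (D.ex ((Real.pi / c) • (E - Eᵀ))) (D.dg β) = -D.dg β := by
    rw [D.Ad_ex hW']
    have h7 := conj_rot (X := (Real.pi / c) • (E - Eᵀ)) (Y := D.dg β)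
      (Z := (-(⟪β, β⟫ / c)) • (E + Eᵀ)) (c := Real.pi) (by
        rw [hsm, h1, smul_neg, smul_smul, smul_smul, ← neg_smul]
        congr 1
        ring) (by
        rw [hsm, hsm', h4, smul_smul, smul_smul, ← neg_smul]
        congr 1
        field_simp
        linear_combination hc2)
    rw [Real.cos_pi, Real.sin_pi, zero_smul, add_zero, neg_one_smul] at h7
    exact h7
  have h8 : ∀ s, ⟪β, s⟫ = 0 → D.Ad (D.ex ((Real.pi / c) • (E - Eᵀ))) (D.dg s) = D.dg s := by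
    intro s hs
    rw [D.Ad_ex hW']
    have h9 := conj_eigen (X := (Real.pi / c) • (E - Eᵀ)) (Y := D.dg s) (c := 0) (by
      rw [hsm, h1, hs, zero_smul, neg_zero, smul_zero, zero_smul])
    rw [Real.exp_zero, one_smul] at h9
    exact h9
  have h10 : ⟪β, s - (⟪β, s⟫ / ⟪β, β⟫) • β⟫ = 0 := by
    rw [inner_sub_right, real_inner_smul_right, div_mul_cancel₀ _ hb.ne', sub_self]
  have h11 := h8 _ h10
  rw [map_sub, map_smul, map_sub, map_smul, h6, sub_eq_iff_eq_add] at h11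
  rw [h11, refl, map_sub, map_smul, smul_neg, mul_div_assoc, mul_smul, two_smul]
  abel

theorem Ad_gr_of_refl {β : Euc k} {w : G} (h : ∀ s, D.Ad w (D.dg s) = D.dg (refl β s))
    {γ : Euc k} {X : Mat n} (hX : X ∈ D.gr γ) : D.Ad w X ∈ D.gr (refl β γ) := by
  refine D.mem_gr.2 ⟨D.Ad_mem w (D.gr_le γ hX), fun s => ?_⟩
  have h1 := h (refl β s)
  rw [refl_refl] at h1
  rw [← h1, ← D.Ad_br, D.br_dg hX, map_smul, inner_refl]

theorem Ad_inv_of_refl {β : Euc k} {w : G} (h : ∀ s, D.Ad w (D.dg s) = D.dg (refl β s))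
    (s : Euc k) : D.Ad w⁻¹ (D.dg s) = D.dg (refl β s) := by
  have h1 := h (refl β s)
  rw [refl_refl] at h1
  rw [← h1, D.Ad_inv_Ad]

theorem exists_weyl {β : Euc k} (hβ : β ∈ D.roots) : ∃ w ∈ D.K,
    (∀ s, D.Ad w (D.dg s) = D.dg (refl β s)) ∧ ∀ s, w * D.a s * w⁻¹ = D.a (refl β s) := by
  obtain ⟨E, hE, hE0⟩ := D.exists_ne_zero hβ
  obtain ⟨t, ht⟩ := D.weyl (D.root_ne_zero hβ) hE hE0
  have hW : t • (E - Eᵀ) ∈ D.g :=
    D.g.smul_mem t (D.g.sub_mem (D.gr_le β hE) (D.tr_mem (D.gr_le β hE)))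
  refine ⟨_, D.ex_mem_K hW ?_, ht, fun s => ?_⟩
  · rw [Matrix.transpose_smul, Matrix.transpose_sub, Matrix.transpose_transpose, ← smul_neg,
      neg_sub]
  · rw [a, D.conj_ex _ (D.dg_mem s), ht, a]

theorem refl_mem_roots {β γ : Euc k} (hβ : β ∈ D.roots) (hγ : γ ∈ D.roots) :
    refl β γ ∈ D.roots := by
  obtain ⟨w, -, hw, -⟩ := D.exists_weyl hβ
  obtain ⟨E, hE, hE0⟩ := D.exists_ne_zero hγ
  refine D.mem_roots.2 ⟨fun h => D.root_ne_zero hγ ?_, fun h => hE0 ?_⟩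
  · rw [← norm_eq_zero, ← norm_refl β γ, h, norm_zero]
  · have h1 := D.Ad_gr_of_refl hw hE
    rw [h, Submodule.mem_bot] at h1
    rw [← D.Ad_inv_Ad w E, h1, map_zero]

/-- The rank one lemma. -/
theorem rank_one {q : Submodule ℝ (Mat n)} (hq : IsSub q) {β γ : Euc k} (hβ : β ≠ 0)
    (hu : D.u β ≤ q) (hγ : γ ∈ cls (-β)) {E : Mat n} (hE : E ∈ D.gr γ) (hEq : E ∈ q)
    (hE0 : E ≠ 0) : D.u (-β) ≤ q := by
  obtain ⟨c, hc, rfl⟩ := hγ
  have hγ0 : c • -β ≠ 0 := smul_ne_zero hc.ne' (neg_ne_zero.2 hβ)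
  have hneg : ∀ c : ℝ, 0 < c → D.gr (-(c • -β)) ≤ q := fun c hc =>
    (D.gr_le_grS (S := cls β) ⟨c, hc, by rw [smul_neg, neg_neg]⟩).trans hu
  obtain ⟨t, ht⟩ := D.weyl hγ0 hE hE0
  have hW : t • (E - Eᵀ) ∈ D.g :=
    D.g.smul_mem t (D.g.sub_mem (D.gr_le _ hE) (D.tr_mem (D.gr_le _ hE)))
  have hWq : t • (E - Eᵀ) ∈ q := q.smul_mem t (q.sub_mem hEq (hneg c hc (D.tr_gr hE)))
  refine D.grS_le_of ?_
  rintro _ ⟨c', hc', rfl⟩ - X hX
  have h1 := D.Ad_gr_of_refl (D.Ad_inv_of_refl ht) hX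
  have h2 : c' • -β = (c' / c) • c • -β := by rw [smul_smul, div_mul_cancel₀ _ hc.ne']
  rw [h2, refl_smul_self, ← h2] at h1
  rw [← D.Ad_Ad_inv (D.ex (t • (E - Eᵀ))) X]
  exact D.Ad_ex_mem hW (hq _ hWq) (hneg c' hc' h1)

end Std

end Pool.Agent.P.MP_d483fb_an.Z

end

end

section

/-! Conjugation of symmetric elements into the Cartan subspace. -/

open scoped Matrix Matrix.Norms.Operator InnerProductSpace RealInnerProductSpace Topology
open NormedSpace Filter Set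

noncomputable section

namespace Pool.Agent.P.MP_d483fb_an.Z

theorem Hunt_der {n : ℕ} (W Y Z : Mat n) :
    HasDerivAt (fun t : ℝ => ip (exp (t • W) * Y * exp (-(t • W))) Z) (ip ⁅W, Y⁆ Z) 0 := by
  let L : Mat n →ₗ[ℝ] ℝ :=
    { toFun := fun X => ip X Z
      map_add' := fun X X' => ip_add_left X X' Z
      map_smul' := fun c X => ip_smul_left c X Z }
  have h := hasDerivAt_conj (A := Mat n) W Y 0
  simp only [zero_smul, neg_zero, exp_zero, one_mul, mul_one] at h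
  exact (LinearMap.toContinuousLinearMap L).hasFDerivAt.comp_hasDerivAt (0 : ℝ) h

theorem Hunt_jac {n : ℕ} {S Y H : Mat n} (h1 : ⁅S, Y⁆ = 0) (h2 : ⁅S, H⁆ = 0) :
    ⁅S, ⁅Y, H⁆⁆ = 0 := by
  have e : ⁅S, ⁅Y, H⁆⁆ = ⁅⁅S, Y⁆, H⁆ + ⁅Y, ⁅S, H⁆⁆ := by
    simp only [Ring.lie_def]
    noncomm_ring
  rw [e, h1, h2]
  simp [Ring.lie_def]

theorem Hunt_swap {n : ℕ} (X Y : Mat n) : ⁅X, Y⁆ = -⁅Y, X⁆ := by
  simp only [Ring.lie_def, neg_sub]

namespace Std

variable {G : Type} [Group G] [TopologicalSpace G] [IsTopologicalGroup G] {n k : ℕ}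
  (D : Std G n k)

theorem Hunt_symm {x : G} (hx : x ∈ D.K) {Y : Mat n} (hs : Y.IsSymm) : (D.Ad x Y).IsSymm := by
  have h := D.Ad_K_tr hx Y
  rw [hs.eq] at h
  exact h

theorem Hunt_max (s : Euc k) (Y Z : Mat n) : ∃ x ∈ D.K, x ∈ D.Zc s ∧
    ∀ y ∈ D.K, y ∈ D.Zc s → ip (D.Ad y Y) Z ≤ ip (D.Ad x Y) Z := by
  obtain ⟨Q, hQ, hQK, hdec⟩ := D.exists_compact_K
  have key : ∀ y ∈ D.K, y ∈ D.Zc s → ∃ q ∈ Q ∩ (D.Zc s : Set G), ∀ X, D.Ad y X = D.Ad q X := by
    intro y hy hyZ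
    obtain ⟨q, hq, z, hz, rfl⟩ := hdec y hy
    have hz' : D.ρ z⁻¹ = 1 := by
      have h := D.ρ_mul_inv z
      rwa [hz, one_mul] at h
    have e : ∀ X, D.Ad (q * z) X = D.Ad q X := fun X => by
      rw [D.Ad_mul, D.Ad_apply z, hz, hz', one_mul, mul_one]
    refine ⟨q, ⟨hq, ?_⟩, e⟩
    rw [SetLike.mem_coe, D.mem_Zc, ← e]
    exact D.mem_Zc.1 hyZ
  have hC : IsCompact (Q ∩ (D.Zc s : Set G)) := hQ.inter_right (D.stab_closed _)
  obtain ⟨q₀, hq₀, -⟩ := key 1 D.K.one_mem (D.Zc s).one_mem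
  have hf : Continuous fun y : G => ip (D.Ad y Y) Z :=
    ip_cont.comp ((D.Ad_cont.comp (continuous_id.prodMk continuous_const)).prodMk
      continuous_const)
  obtain ⟨x, hx, hmax⟩ := hC.exists_isMaxOn ⟨q₀, hq₀⟩ hf.continuousOn
  refine ⟨x, hQK hx.1, hx.2, fun y hy hyZ => ?_⟩
  obtain ⟨q, hq, e⟩ := key y hy hyZ
  rw [e]
  exact hmax hq

theorem Hunt_reg {H : Euc k} (hH : D.Reg H) {Y : Mat n} (hY : Y ∈ D.g)
    (h : ⁅D.dg H, Y⁆ = 0) : Y ∈ D.gr 0 := by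
  have e : D.grS (wall H) = D.gr 0 := by
    refine D.grS_congr fun β hβ => ⟨fun h1 => ?_, fun h1 => ?_⟩
    · rcases hβ with rfl | hβ
      · rfl
      · exact absurd h1 (hH β hβ)
    · rw [mem_singleton_iff.1 h1]
      exact (wall H).zero_mem
  rw [← e]
  exact ⟨hY, D.mem_wall.2 h⟩

theorem hunt {H : Euc k} (hH : D.Reg H) (s : Euc k) {Y : Mat n} (hY : Y ∈ D.g) (hs : Y.IsSymm)
    (hc : ⁅D.dg s, Y⁆ = 0) : ∃ x ∈ D.K, x ∈ D.Zc s ∧ ∃ t, D.Ad x Y = D.dg t ∧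
      ∀ y ∈ D.K, y ∈ D.Zc s → ip (D.Ad y Y) (D.dg H) ≤ ⟪t, H⟫ := by
  obtain ⟨x, hx, hxZ, hmax⟩ := D.Hunt_max s Y (D.dg H)
  have hY2 : D.Ad x Y ∈ D.g := D.Ad_mem x hY
  have hs2 : (D.Ad x Y).IsSymm := D.Hunt_symm hx hs
  have hc2 : ⁅D.dg s, D.Ad x Y⁆ = 0 := by
    rw [← D.mem_Zc.1 hxZ, ← D.Ad_br, hc, map_zero]
  obtain ⟨W, hW⟩ : ∃ W, W = ⁅D.Ad x Y, D.dg H⁆ := ⟨_, rfl⟩
  have hWg : W ∈ D.g := hW ▸ D.br_mem hY2 (D.dg_mem H)
  have hWt : Wᵀ = -W := by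
    rw [hW, tr_br, D.dg_symm, hs2.eq, Hunt_swap]
  have hWs : W ∈ D.grS (wall s) := ⟨hWg, D.mem_wall.2 (hW ▸ Hunt_jac hc2 (D.dg_br s H))⟩
  have hloc : IsLocalMax
      (fun t : ℝ => ip (exp (t • W) * D.Ad x Y * exp (-(t • W))) (D.dg H)) 0 := by
    refine Eventually.of_forall fun t => ?_
    have h1 : D.ex (t • W) ∈ D.K :=
      D.ex_mem_K (D.g.smul_mem t hWg) (by rw [Matrix.transpose_smul, hWt, smul_neg])
    have h2 : D.ex (t • W) ∈ D.Zc s := D.ex_mem_stab ((D.grS _).smul_mem t hWs)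
    have h3 := hmax _ (D.K.mul_mem h1 hx) ((D.Zc s).mul_mem h2 hxZ)
    rw [D.Ad_mul, D.Ad_ex (D.g.smul_mem t hWg)] at h3
    simpa only [zero_smul, neg_zero, exp_zero, one_mul, mul_one] using h3
  have h0 := hloc.hasDerivAt_eq_zero (Hunt_der W (D.Ad x Y) (D.dg H))
  rw [Hunt_swap, ip_neg_left, ip_br, hs2.eq, ← hW, neg_eq_zero, ip_self_eq_zero] at h0
  have h4 : ⁅D.dg H, D.Ad x Y⁆ = 0 := by rw [Hunt_swap, ← hW, h0, neg_zero]
  obtain ⟨t, ht⟩ := D.exists_dg (D.Hunt_reg hH hY2 h4) hs2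
  refine ⟨x, hx, hxZ, t, ht, fun y hy hyZ => ?_⟩
  rw [← D.ip_dg, ← ht]
  exact hmax y hy hyZ

theorem Hunt_Zc_zero (x : G) : x ∈ D.Zc 0 := by
  rw [D.mem_Zc, map_zero, map_zero]

omit [IsTopologicalGroup G] in
theorem Hunt_br_zero (Y : Mat n) : ⁅D.dg 0, Y⁆ = 0 := by
  rw [map_zero]
  simp [Ring.lie_def]

theorem conj_chamber {H : Euc k} (hH : D.Reg H) {Y : Mat n} (hY : Y ∈ D.g) (hs : Y.IsSymm) :
    ∃ x ∈ D.K, ∃ t, D.Ad x Y = D.dg t ∧ ∀ β ∈ D.roots, 0 < ⟪β, H⟫ → 0 ≤ ⟪β, t⟫ := by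
  obtain ⟨x, hx, -, t, ht, hmax⟩ := D.hunt hH 0 hY hs (D.Hunt_br_zero Y)
  refine ⟨x, hx, t, ht, fun β hβ hpos => ?_⟩
  obtain ⟨w, hw, hAd, -⟩ := D.exists_weyl hβ
  have h := hmax (w * x) (D.K.mul_mem hw hx) (D.Hunt_Zc_zero _)
  rw [D.Ad_mul, ht, hAd, D.ip_dg, refl, inner_sub_left, real_inner_smul_left] at h
  have hb : 0 < ⟪β, β⟫ := real_inner_self_pos.2 (D.root_ne_zero hβ)
  have h1 : 0 ≤ 2 * ⟪β, t⟫ / ⟪β, β⟫ := nonneg_of_mul_nonneg_left (by linarith) hpos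
  have h2 := mul_nonneg h1 hb.le
  rw [div_mul_cancel₀ _ hb.ne'] at h2
  linarith

theorem conj_pair {X Y : Mat n} (hX : X ∈ D.g) (hY : Y ∈ D.g) (hXs : X.IsSymm) (hYs : Y.IsSymm)
    (hc : ⁅X, Y⁆ = 0) : ∃ x ∈ D.K, ∃ s t, D.Ad x X = D.dg s ∧ D.Ad x Y = D.dg t := by
  obtain ⟨H, hH⟩ := D.exists_reg
  obtain ⟨x, hx, -, s, hs, -⟩ := D.hunt hH 0 hX hXs (D.Hunt_br_zero X)
  obtain ⟨y, hy, hyZ, t, ht, -⟩ := D.hunt hH s (D.Ad_mem x hY) (D.Hunt_symm hx hYs)
    (by rw [← hs, ← D.Ad_br, hc, map_zero])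
  refine ⟨y * x, D.K.mul_mem hy hx, s, t, ?_, ?_⟩
  · rw [D.Ad_mul, hs]
    exact D.mem_Zc.1 hyZ
  · rw [D.Ad_mul, ht]

end Std

end Pool.Agent.P.MP_d483fb_an.Z

end

end

section

/-! Ideals, perfectness and normalisers of the Lie algebra. -/

open scoped Matrix Matrix.Norms.Operator InnerProductSpace RealInnerProductSpace Topology
open NormedSpace Filter Set

noncomputable section

namespace Pool.Agent.P.MP_d483fb_an.Z

namespace Std

variable {G : Type} [Group G] [TopologicalSpace G] [IsTopologicalGroup G] {n k : ℕ}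
  (D : Std G n k)

theorem Semi_skew (X Y : Mat n) : ⁅X, Y⁆ = -⁅Y, X⁆ := by
  simp only [Ring.lie_def, neg_sub]

theorem Semi_sub (X Y Z : Mat n) : ⁅X - Y, Z⁆ = ⁅X, Z⁆ - ⁅Y, Z⁆ := by
  simp only [Ring.lie_def]
  noncomm_ring

theorem idl_orth {I : Submodule ℝ (Mat n)} (hI : IsIdl D.g I) :
    ∃ J : Submodule ℝ (Mat n), IsIdl D.g J ∧ (∀ X, X ∈ J ↔ X ∈ D.g ∧ ∀ Y ∈ I, ip X Y = 0) ∧
      I ⊔ J = D.g ∧ Disjoint I J ∧ ∀ X ∈ I, ∀ Y ∈ J, ⁅X, Y⁆ = 0 := by
  let J : Submodule ℝ (Mat n) :=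
    { carrier := {X | X ∈ D.g ∧ ∀ Y ∈ I, ip X Y = 0}
      zero_mem' := ⟨D.g.zero_mem, fun Y _ => ip_zero_left Y⟩
      add_mem' := fun hX hY => ⟨D.g.add_mem hX.1 hY.1, fun Z hZ => by
        rw [ip_add_left, hX.2 Z hZ, hY.2 Z hZ, add_zero]⟩
      smul_mem' := fun c X hX => ⟨D.g.smul_mem c hX.1, fun Z hZ => by
        rw [ip_smul_left, hX.2 Z hZ, mul_zero]⟩ }
  have hJ : IsIdl D.g J := ⟨fun X hX => hX.1, fun X hX Y hY => ⟨D.br_mem hX hY.1, fun Z hZ => by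
    rw [ip_br]
    exact hY.2 _ (hI.2 _ (D.tr_mem hX) _ hZ)⟩⟩
  have hd : ∀ X, X ∈ I → X ∈ J → X = 0 := fun X h1 h2 => ip_self_eq_zero.1 (h2.2 X h1)
  refine ⟨J, hJ, fun X => Iff.rfl, le_antisymm (sup_le hI.1 hJ.1) fun X hX => ?_,
    Submodule.disjoint_def.2 hd, fun X hX Y hY => hd _ ?_ (hJ.2 _ (hI.1 hX) _ hY)⟩
  · obtain ⟨Y, hY, h⟩ := exists_proj I X
    exact Submodule.mem_sup.2 ⟨Y, hY, X - Y, ⟨D.g.sub_mem hX (hI.1 hY), h⟩, add_sub_cancel _ _⟩
  · rw [Semi_skew]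
    exact I.neg_mem (hI.2 _ hY.1 _ hX)

theorem idl_tr {I : Submodule ℝ (Mat n)} (hI : IsIdl D.g I) {X : Mat n} (hX : X ∈ I) :
    Xᵀ ∈ I := by
  obtain ⟨J, hJ, hm, hs, hd, hc⟩ := D.idl_orth hI
  have hXg := D.tr_mem (hI.1 hX)
  have key : ∀ V ∈ D.g, (∀ W ∈ J, ip V W = 0) → V ∈ I := fun V hV h => by
    rw [← hs] at hV
    obtain ⟨A, hA, B, hB, rfl⟩ := Submodule.mem_sup.1 hV
    have h1 := h B hB
    rw [ip_add_left, ip_comm A, ((hm B).1 hB).2 A hA, zero_add, ip_self_eq_zero] at h1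
    rwa [h1, add_zero]
  have h2 := hXg
  rw [← hs] at h2
  obtain ⟨A, hA, B, hB, hAB⟩ := Submodule.mem_sup.1 h2
  have hB0 : B = 0 := D.cent B (hJ.1 hB) fun Z hZ => by
    refine Submodule.disjoint_def.1 hd _ ?_ ?_
    · rw [← eq_sub_iff_add_eq'] at hAB
      rw [hAB, Semi_sub]
      refine I.sub_mem (key _ (D.br_mem hXg hZ) fun W hW => ?_) ?_
      · rw [ip_br, Matrix.transpose_transpose, hc X hX W hW, ip_zero_right]
      · rw [Semi_skew]
        exact I.neg_mem (hI.2 _ hZ _ hA)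
    · rw [Semi_skew]
      exact J.neg_mem (hJ.2 _ hZ _ hB)
  rwa [← hAB, hB0, add_zero]

theorem span_br : Submodule.span ℝ {Z | ∃ X ∈ D.g, ∃ Y ∈ D.g, Z = ⁅X, Y⁆} = D.g := by
  have hle : Submodule.span ℝ {Z | ∃ X ∈ D.g, ∃ Y ∈ D.g, Z = ⁅X, Y⁆} ≤ D.g :=
    Submodule.span_le.2 (by rintro _ ⟨X, hX, Y, hY, rfl⟩; exact D.br_mem hX hY)
  refine le_antisymm hle fun X hX => ?_
  obtain ⟨Y, hY, h⟩ := exists_proj (Submodule.span ℝ {Z | ∃ X ∈ D.g, ∃ Y ∈ D.g, Z = ⁅X, Y⁆}) X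
  have hZ := D.g.sub_mem hX (hle hY)
  have h0 : X - Y = 0 := D.cent _ hZ fun W hW => by
    rw [Semi_skew, neg_eq_zero, ← ip_self_eq_zero, ip_br]
    exact h _ (Submodule.subset_span ⟨_, D.tr_mem hW, _, D.br_mem hW hZ, rfl⟩)
  rwa [sub_eq_zero.1 h0]

theorem trace_eq_zero {X : Mat n} (hX : X ∈ D.g) : X.trace = 0 := by
  rw [← D.span_br] at hX
  induction hX using Submodule.span_induction with
  | mem Z hZ =>
    obtain ⟨X, -, Y, -, rfl⟩ := hZ
    rw [Ring.lie_def, Matrix.trace_sub, Matrix.trace_mul_comm, sub_self]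
  | zero => exact Matrix.trace_zero _ _
  | add X Y _ _ hX hY => rw [Matrix.trace_add, hX, hY, add_zero]
  | smul c X _ hX => rw [Matrix.trace_smul, hX, smul_zero]

theorem normaliser {W : Mat n} (h : ∀ X ∈ D.g, ⁅W, X⁆ ∈ D.g) :
    ∃ Y ∈ D.g, (∀ X ∈ D.g, ⁅W - Y, X⁆ = 0) ∧ (W.IsSymm → Y.IsSymm) := by
  obtain ⟨Y, hY, ho⟩ := exists_proj D.g W
  refine ⟨Y, hY, fun X hX => ?_, fun hW => ?_⟩
  · have h1 : ⁅W - Y, X⁆ ∈ D.g := by
      rw [Semi_sub]
      exact D.g.sub_mem (h X hX) (D.br_mem hY hX)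
    rw [← ip_self_eq_zero]
    conv_lhs => enter [1]; rw [Semi_skew]
    rw [ip_neg_left, ip_br, ho _ (D.br_mem (D.tr_mem hX) h1), neg_zero]
  · have h1 := D.g.sub_mem (D.tr_mem hY) hY
    have h2 : Yᵀ - Y = (W - Y) - (W - Y)ᵀ := by
      rw [Matrix.transpose_sub, hW.eq]
      abel
    rw [Matrix.IsSymm, ← sub_eq_zero, ← ip_self_eq_zero]
    conv_lhs => enter [1]; rw [h2]
    rw [ip_sub_left, ho _ h1, ← ip_tr, Matrix.transpose_transpose, ho _ (D.tr_mem h1), sub_zero]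

theorem idl_gr {I : Submodule ℝ (Mat n)} (hI : IsIdl D.g I) {β : Euc k} {E : Mat n}
    (hβ : β ≠ 0) (hE : E ∈ D.gr β) (hE0 : E ≠ 0) (hEI : E ∈ I) : D.gr β ≤ I := by
  have h1 : ⁅E, Eᵀ⁆ ∈ I := by
    rw [Semi_skew]
    exact I.neg_mem (hI.2 _ (D.tr_mem (D.gr_le β hE)) _ hEI)
  rw [D.br_tr hE, I.smul_mem_iff (ip_self_pos hE0).ne'] at h1
  intro X hX
  have h2 : ⁅D.dg β, X⁆ ∈ I := by
    rw [Semi_skew]
    exact I.neg_mem (hI.2 _ (D.gr_le β hX) _ h1)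
  rwa [D.br_dg hX, I.smul_mem_iff (inner_self_ne_zero.2 hβ)] at h2

end Std

end Pool.Agent.P.MP_d483fb_an.Z

end

end

section

/-! Simple factors and the rank condition. -/

open scoped Matrix Matrix.Norms.Operator InnerProductSpace RealInnerProductSpace Topology
open NormedSpace Filter Set

attribute [local instance 100] LieRing.ofAssociativeRing

set_option linter.unusedSectionVars false

noncomputable section

namespace Pool.Agent.P.MP_d483fb_an.Z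

namespace Std

variable {G : Type} [Group G] [TopologicalSpace G] [IsTopologicalGroup G] [PreconnectedSpace G]
  {n k : ℕ} (D : Std G n k)

omit [PreconnectedSpace G] in
theorem roots_span {s : Euc k} (h : ∀ β ∈ D.roots, ⟪β, s⟫ = 0) : s = 0 := by
  refine D.dg_inj ?_
  rw [map_zero]
  refine D.cent _ (D.dg_mem s) fun Y hY => ?_
  rw [← D.decomp hY, lie_add, lie_sum, D.br_dg (D.pr_mem 0 hY), inner_zero_left, zero_smul,
    zero_add]
  exact Finset.sum_eq_zero fun β hβ => by rw [D.br_dg (D.pr_mem β hY), h β hβ, zero_smul]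

omit [PreconnectedSpace G] in
theorem span_roots : Submodule.span ℝ (D.roots : Set (Euc k)) = ⊤ := by
  rw [← Submodule.orthogonal_eq_bot_iff, eq_bot_iff]
  intro s hs
  exact D.roots_span fun β hβ => hs β (Submodule.subset_span hβ)

omit [IsTopologicalGroup G] [PreconnectedSpace G] in
theorem conn_symm {β γ : Euc k} (h : D.Conn β γ) : D.Conn γ β := by
  induction h with
  | refl => exact .refl
  | tail _ h ih => exact .head ⟨h.2.1, h.1, by rw [real_inner_comm]; exact h.2.2⟩ ih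

omit [IsTopologicalGroup G] [PreconnectedSpace G] in
theorem conn_mem {β γ : Euc k} (hβ : β ∈ D.roots) (h : D.Conn β γ) : γ ∈ D.roots := by
  induction h with
  | refl => exact hβ
  | tail _ h _ => exact h.2.1

omit [PreconnectedSpace G] in
theorem conn_neg {β : Euc k} (hβ : β ∈ D.roots) : D.Conn β (-β) := by
  refine .single ⟨hβ, D.neg_mem_roots hβ, ?_⟩
  rw [inner_neg_right, neg_ne_zero]
  exact inner_self_ne_zero.2 (D.root_ne_zero hβ)

omit [PreconnectedSpace G] in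
theorem facR_neg {β γ : Euc k} (h : γ ∈ D.facR β) : -γ ∈ D.facR β :=
  ⟨D.neg_mem_roots h.1, h.2.trans (D.conn_neg h.1)⟩

omit [IsTopologicalGroup G] [PreconnectedSpace G] in
theorem facR_of_inner {β γ δ : Euc k} (hγ : γ ∈ D.facR β) (hδ : δ ∈ D.roots) (h : ⟪γ, δ⟫ ≠ 0) :
    δ ∈ D.facR β :=
  ⟨hδ, hγ.2.tail ⟨hγ.1, hδ, h⟩⟩

omit [PreconnectedSpace G] in
theorem orth_of_not_conn {β γ δ : Euc k} (hγ : γ ∈ D.facR β) (hδ : δ ∈ D.roots)
    (h : δ ∉ D.facR β) : ⟪γ, δ⟫ = 0 ∧ γ + δ ≠ 0 ∧ γ + δ ∉ D.roots := by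
  have h0 : ⟪γ, δ⟫ = 0 := by
    by_contra h1
    exact h (D.facR_of_inner hγ hδ h1)
  have h1 : ⟪γ + δ, δ⟫ ≠ 0 := by
    rw [inner_add_left, h0, zero_add]
    exact inner_self_ne_zero.2 (D.root_ne_zero hδ)
  refine ⟨h0, fun h2 => h1 (by rw [h2, inner_zero_left]), fun h2 => h ?_⟩
  refine D.facR_of_inner (D.facR_of_inner hγ h2 ?_) hδ h1
  rw [inner_add_right, h0, add_zero]
  exact inner_self_ne_zero.2 (D.root_ne_zero hγ.1)

omit [PreconnectedSpace G] in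
theorem gr_le_fac {β γ : Euc k} (h : γ ∈ D.facR β) : D.gr γ ≤ D.fac β :=
  (D.gr_le_grS h).trans le_sup_left

omit [PreconnectedSpace G] in
theorem fac_le_of {β : Euc k} {v : Submodule ℝ (Mat n)} (h1 : ∀ γ ∈ D.facR β, D.gr γ ≤ v)
    (h2 : ∀ γ ∈ D.facR β, ∀ E ∈ D.gr γ, ∀ F ∈ D.gr (-γ), ⁅E, F⁆ ∈ v) : D.fac β ≤ v := by
  refine sup_le (D.grS_le_of fun γ hγ _ => h1 γ hγ) (Submodule.span_le.2 ?_)
  rintro _ ⟨γ, hγ, E, hE, F, hF, rfl⟩
  exact h2 γ hγ E hE F hF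

omit [PreconnectedSpace G] in
theorem br_mem_fac {β γ : Euc k} (h : γ ∈ D.facR β) {X E : Mat n} (hX : X ∈ D.g)
    (hE : E ∈ D.gr γ) : ⁅X, E⁆ ∈ D.fac β := by
  rw [← D.decomp hX, add_lie, sum_lie]
  refine add_mem (D.gr_le_fac h ?_) (Submodule.sum_mem _ fun δ hδ => ?_)
  · simpa using D.br_gr (D.pr_mem 0 hX) hE
  have hY := D.pr_mem δ hX
  by_cases h0 : δ + γ = 0
  · have hδγ : γ = -δ := eq_neg_of_add_eq_zero_right h0
    refine Submodule.mem_sup_right (Submodule.subset_span ⟨δ, ?_, _, hY, E, hδγ ▸ hE, rfl⟩)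
    simpa [hδγ] using D.facR_neg h
  by_cases h1 : δ + γ ∈ D.roots
  · refine D.gr_le_fac ?_ (D.br_gr hY hE)
    by_contra h2
    exact (D.orth_of_not_conn (D.facR_neg h) h1 h2).2.2 (by simpa using hδ)
  · rw [D.br_eq_zero hY hE h0 h1]
    exact zero_mem _

omit [PreconnectedSpace G] in
theorem fac_le_grS (β : Euc k) : D.fac β ≤ D.grS {γ | γ = 0 ∨ γ ∈ D.facR β} := by
  refine D.fac_le_of (fun γ hγ => D.gr_le_grS (Or.inr hγ)) fun γ _ E hE F hF => ?_
  refine D.gr_le_grS (β := 0) (Or.inl rfl) ?_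
  simpa using D.br_gr hE hF

omit [PreconnectedSpace G] in
theorem fac_isIdl (β : Euc k) : IsIdl D.g (D.fac β) := by
  refine ⟨(D.fac_le_grS β).trans (D.grS_le _), fun X hX => ?_⟩
  have h : D.fac β ≤ (D.fac β).comap (LieAlgebra.ad ℝ (Mat n) X) := by
    refine D.fac_le_of (fun γ hγ E hE => D.br_mem_fac hγ hX hE) fun γ hγ E hE F hF => ?_
    change ⁅X, ⁅E, F⁆⁆ ∈ D.fac β
    rw [leibniz_lie, ← lie_skew E]
    exact add_mem (D.br_mem_fac (D.facR_neg hγ) (D.br_mem hX (D.gr_le _ hE)) hF)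
      (neg_mem (D.br_mem_fac hγ (D.br_mem hX (D.gr_le _ hF)) hE))
  exact fun Y hY => h hY

omit [PreconnectedSpace G] in
theorem dg_mem_fac {β s : Euc k} :
    D.dg s ∈ D.fac β ↔ s ∈ Submodule.span ℝ (D.facR β) := by
  constructor
  · intro hs
    rw [← Submodule.orthogonal_orthogonal (Submodule.span ℝ (D.facR β))]
    intro t ht
    have ht' : ∀ γ ∈ D.facR β, ⟪γ, t⟫ = 0 := fun γ hγ => ht γ (Submodule.subset_span hγ)
    let v : Submodule ℝ (Mat n) :=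
      { carrier := {Z | ip Z (D.dg t) = 0}
        add_mem' := fun {X Y} hX hY => by
          rw [mem_ofPred_eq] at hX hY ⊢
          rw [ip_add_left, hX, hY, add_zero]
        zero_mem' := ip_zero_left _
        smul_mem' := fun c X hX => by
          rw [mem_ofPred_eq] at hX ⊢
          rw [ip_smul_left, hX, mul_zero] }
    have h : D.fac β ≤ v := by
      refine D.fac_le_of (fun γ hγ E hE => ?_) fun γ hγ E hE F hF => ?_
      · exact D.ip_wtS hE.2 (D.dg_mem_gr t).2 (disjoint_singleton.2 (D.root_ne_zero hγ.1))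
      · change ip ⁅E, F⁆ (D.dg t) = 0
        rw [ip_br, ← lie_skew, D.br_dg (D.tr_gr hE), inner_neg_left, ht' γ hγ, neg_zero, zero_smul,
          neg_zero, ip_zero_right]
    have h1 : ip (D.dg s) (D.dg t) = 0 := h hs
    rwa [D.ip_dg, real_inner_comm] at h1
  · intro hs
    have h : Submodule.span ℝ (D.facR β) ≤ (D.fac β).comap D.dg := by
      refine Submodule.span_le.2 fun γ hγ => ?_
      obtain ⟨E, hE, hE0⟩ := D.exists_ne_zero hγ.1
      have h1 : ⁅E, Eᵀ⁆ ∈ D.fac β := D.br_mem_fac (D.facR_neg hγ) (D.gr_le _ hE) (D.tr_gr hE)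
      rw [D.br_tr hE] at h1
      exact ((D.fac β).smul_mem_iff (ip_self_pos hE0).ne').1 h1
    exact h hs

omit [PreconnectedSpace G] in
theorem fac_le {q : Submodule ℝ (Mat n)} (hq : IsSub q) {β : Euc k}
    (h : ∀ γ ∈ D.facR β, D.gr γ ≤ q) : D.fac β ≤ q :=
  D.fac_le_of h fun γ hγ E hE F hF => hq E (h γ hγ hE) F (h _ (D.facR_neg hγ) hF)

theorem grp_fac_normal (β : Euc k) : (D.grp (D.fac β)).Normal :=
  ⟨fun _ hy x => D.grp_normal (D.fac_isIdl β).1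
    (fun _ hX => D.Ad_mem_of_br (D.fac_isIdl β).2 x hX) hy⟩

/-- Every root has a root that is neither orthogonal nor proportional to it. -/
theorem rank2 {β : Euc k} (hβ : β ∈ D.roots) :
    ∃ α ∈ D.roots, 0 < ⟪α, β⟫ ∧ ∀ c : ℝ, α ≠ c • β := by
  by_contra hcon
  have h1 : ∀ α ∈ D.roots, 0 < ⟪α, β⟫ → ∃ c : ℝ, α = c • β := by
    intro α hα h
    by_contra h2
    exact hcon ⟨α, hα, h, fun c hc => h2 ⟨c, hc⟩⟩
  have h2 : ∀ γ, D.Conn β γ → ∃ c : ℝ, γ = c • β := by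
    intro γ hγ
    induction hγ with
    | refl => exact ⟨1, (one_smul _ _).symm⟩
    | @tail x y _ h ih =>
      obtain ⟨c, rfl⟩ := ih
      have h3 : ⟪y, β⟫ ≠ 0 := fun h4 => h.2.2 (by
        rw [real_inner_smul_left, real_inner_comm, h4, mul_zero])
      rcases lt_or_gt_of_ne h3 with h4 | h4
      · obtain ⟨d, hd⟩ := h1 _ (D.neg_mem_roots h.2.1) (by rw [inner_neg_left]; linarith)
        exact ⟨-d, by rw [neg_smul, ← hd, neg_neg]⟩
      · exact h1 _ h.2.1 h4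
  have h3 : Submodule.span ℝ (D.facR β) ≤ Submodule.span ℝ {β} := by
    refine Submodule.span_le.2 fun γ hγ => ?_
    obtain ⟨c, rfl⟩ := h2 γ hγ.2
    exact Submodule.smul_mem _ c (Submodule.mem_span_singleton_self β)
  have hI := D.fac_isIdl β
  have hne : D.fac β ≠ ⊥ := by
    obtain ⟨E, hE, hE0⟩ := D.exists_ne_zero hβ
    exact (Submodule.ne_bot_iff _).2 ⟨E, D.gr_le_fac ⟨hβ, .refl⟩ hE, hE0⟩
  obtain ⟨X, hX, Y, hY, hXs, hYs, hc, hli⟩ := D.rank _ hI hne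
  obtain ⟨x, -, s, t, hs, ht⟩ := D.conj_pair (hI.1 hX) (hI.1 hY) hXs hYs hc
  obtain ⟨a, rfl⟩ := Submodule.mem_span_singleton.1
    (h3 (D.dg_mem_fac.1 (hs ▸ D.Ad_mem_of_br hI.2 x hX)))
  obtain ⟨b, rfl⟩ := Submodule.mem_span_singleton.1
    (h3 (D.dg_mem_fac.1 (ht ▸ D.Ad_mem_of_br hI.2 x hY)))
  have hX' : X = a • D.Ad x⁻¹ (D.dg β) := by rw [← map_smul, ← map_smul, ← hs, D.Ad_inv_Ad]
  have hY' : Y = b • D.Ad x⁻¹ (D.dg β) := by rw [← map_smul, ← map_smul, ← ht, D.Ad_inv_Ad]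
  rw [LinearIndependent.pair_iff] at hli
  have h4 := hli b (-a) (by rw [hX', hY']; module)
  have h5 := hli 1 0 (by rw [hX', neg_eq_zero.1 h4.2]; simp)
  exact one_ne_zero h5.1

/-- Every root is a sum of two roots off its line, with a surjective bracket. -/
theorem exists_sum {β : Euc k} (hβ : β ∈ D.roots) : ∃ α ∈ D.roots, ∃ γ ∈ D.roots, α + γ = β ∧
    (∀ c : ℝ, α ≠ c • β) ∧ (∀ c : ℝ, γ ≠ c • β) ∧
    ∀ E ∈ D.gr α, E ≠ 0 → ∀ Z ∈ D.gr β, ∃ W ∈ D.gr γ, ⁅E, W⁆ = Z := by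
  obtain ⟨α, hα, h1, h2⟩ := D.rank2 hβ
  refine ⟨α, hα, β - α, D.sub_mem_roots hα hβ h1 fun h => h2 1 (by rw [one_smul, h]),
    add_sub_cancel α β, h2, fun c hc => h2 (1 - c) ?_,
    fun E hE hE0 Z hZ => D.br_onto hE hE0 h1 hZ⟩
  rw [sub_smul, one_smul, ← hc, sub_sub_cancel]

theorem exists_longest {γ : Euc k} (hγ : γ ∈ D.roots) : ∃ b ∈ D.roots, D.Conn γ b ∧
    ∀ δ ∈ D.roots, ⟪δ, b⟫ ≠ 0 → ‖δ‖ ≤ ‖b‖ := by
  have hf : (D.facR γ).Finite := D.roots.finite_toSet.subset fun β hβ => hβ.1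
  obtain ⟨b, hb, h⟩ := exists_max_image (D.facR γ) (fun β => ‖β‖) hf ⟨γ, hγ, .refl⟩
  exact ⟨b, hb.1, hb.2, fun δ hδ h1 =>
    h δ (D.facR_of_inner hb hδ (by rwa [real_inner_comm]))⟩

end Std

end Pool.Agent.P.MP_d483fb_an.Z

end

end

section

/-! The Lie algebra data at a longest root. -/

open scoped Matrix Matrix.Norms.Operator InnerProductSpace RealInnerProductSpace Topology
open NormedSpace Filter Set

noncomputable section

namespace Pool.Agent.P.MP_d483fb_an.Z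

namespace Std

variable {G : Type} [Group G] [TopologicalSpace G] [IsTopologicalGroup G] [PreconnectedSpace G]
  {n k : ℕ} (D : Std G n k)

theorem exists_half_root {b : Euc k} (hb : b ∈ D.roots)
    (hl : ∀ δ ∈ D.roots, ⟪δ, b⟫ ≠ 0 → ‖δ‖ ≤ ‖b‖) :
    ∃ c ∈ D.roots, 2 * ⟪c, b⟫ = ⟪b, b⟫ ∧ ⟪b, b⟫ ≤ 2 * ⟪c, c⟫ := by
  obtain ⟨c, hc, hpos, hne⟩ := D.rank2 hb
  have hB : 0 < ⟪b, b⟫ := real_inner_self_pos.2 (D.root_ne_zero hb)
  have hC : 0 < ⟪c, c⟫ := real_inner_self_pos.2 (D.root_ne_zero hc)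
  have hle : ⟪c, c⟫ ≤ ⟪b, b⟫ := by
    rw [real_inner_self_eq_norm_sq, real_inner_self_eq_norm_sq]
    exact pow_le_pow_left₀ (norm_nonneg _) (hl c hc hpos.ne') 2
  have hq : ∀ t : ℝ, 0 < ⟪c, c⟫ - 2 * t * ⟪c, b⟫ + t ^ 2 * ⟪b, b⟫ := by
    intro t
    have h := real_inner_self_pos.2 (sub_ne_zero.2 (hne t))
    simp only [inner_sub_left, inner_sub_right, real_inner_smul_left, real_inner_smul_right,
      real_inner_comm c b] at h
    linarith
  obtain ⟨m, hm⟩ := D.integral hb hc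
  rw [real_inner_comm] at hm
  have hm1 : m = 1 := by
    have h1 : (0 : ℝ) < m := by
      by_contra h
      nlinarith [not_lt.1 h]
    have h2 : (m : ℝ) < 2 := by
      by_contra h
      nlinarith [not_lt.1 h, hq 1]
    have h1' : 0 < m := by exact_mod_cast h1
    have h2' : m < 2 := by exact_mod_cast h2
    omega
  rw [hm1, Int.cast_one, one_mul] at hm
  obtain ⟨m', hm'⟩ := D.integral hc hb
  by_cases h2 : m' ≤ 2
  · have : (m' : ℝ) ≤ 2 := by exact_mod_cast h2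
    exact ⟨c, hc, hm, by nlinarith⟩
  have h3 : m' = 3 := by
    have h4 : (m' : ℝ) < 4 := by
      by_contra h
      nlinarith [not_lt.1 h, hq (1 / 2)]
    have h4' : m' < 4 := by exact_mod_cast h4
    omega
  rw [h3] at hm'
  push_cast at hm'
  have hr : -refl c b = (3 : ℝ) • c - b := by
    rw [refl, hm', mul_div_assoc, div_self hC.ne', mul_one, neg_sub]
  refine ⟨(3 : ℝ) • c - b, hr ▸ D.neg_mem_roots (D.refl_mem_roots hc hb), ?_, ?_⟩
  · simp only [inner_sub_left, real_inner_smul_left]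
    linarith
  · simp only [inner_sub_left, inner_sub_right, real_inner_smul_left, real_inner_smul_right,
      real_inner_comm c b]
    linarith

omit [PreconnectedSpace G] in
theorem exists_half_data {a c b : Euc k} (hab : a + c = b)
    (hl : ∀ δ ∈ D.roots, ⟪δ, b⟫ ≠ 0 → ‖δ‖ ≤ ‖b‖) (hB : 0 < ⟪b, b⟫) (ha : 2 * ⟪a, b⟫ = ⟪b, b⟫)
    (hA : ⟪b, b⟫ ≤ 2 * ⟪a, a⟫) {x z : Mat n} (hx : x ∈ D.gr a)
    (hz : z ∈ D.gr b) (hz0 : z ≠ 0) :
    ⁅z, x⁆ = 0 ∧ ∃ w ∈ D.gr (-c), ⁅w, z⁆ = x ∧ ⁅w, ⁅w, x⁆⁆ = 0 ∧ ⁅z, ⁅w, x⁆⁆ = 0 ∧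
      ⁅x, ⁅w, x⁆⁆ = 0 := by
  have hnot : ∀ p q : ℝ, 2 * p + q ≠ 0 → 1 < p ^ 2 + p * q + q ^ 2 / 2 → ∀ {β γ : Euc k}
      {X Y : Mat n}, X ∈ D.gr β → Y ∈ D.gr γ → β + γ = p • b + q • a → ⁅X, Y⁆ = 0 := by
    intro p q h1 h2 β γ X Y hX hY he
    have hi : ⟪p • b + q • a, b⟫ ≠ 0 := by
      simp only [inner_add_left, real_inner_smul_left]
      have : p * ⟪b, b⟫ + q * ⟪a, b⟫ = (2 * p + q) * ⟪a, b⟫ := by rw [← ha]; ring
      rw [this]
      exact mul_ne_zero h1 (by linarith)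
    refine D.br_eq_zero hX hY ?_ ?_
    · rw [he]
      intro h0
      rw [h0, inner_zero_left] at hi
      exact hi rfl
    · rw [he]
      intro hr
      have h3 := pow_le_pow_left₀ (norm_nonneg _) (hl _ hr hi) 2
      rw [← real_inner_self_eq_norm_sq, ← real_inner_self_eq_norm_sq] at h3
      simp only [inner_add_left, inner_add_right, real_inner_smul_left, real_inner_smul_right,
        real_inner_comm a b] at h3
      have h4 : q ^ 2 * ⟪b, b⟫ ≤ q ^ 2 * (2 * ⟪a, a⟫) :=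
        mul_le_mul_of_nonneg_left hA (sq_nonneg q)
      have h5 : ⟪a, b⟫ = ⟪b, b⟫ / 2 := by linarith
      rw [h5] at h3
      nlinarith
  have hca : c = b - a := by rw [← hab]; abel
  refine ⟨hnot 1 1 (by norm_num) (by norm_num) hz hx (by simp), ?_⟩
  obtain ⟨W, hW, hWx⟩ := D.br_onto hz hz0 (by rw [real_inner_comm]; linarith) hx
  have hw : -W ∈ D.gr (-c) := by
    rw [hca, neg_sub]
    exact Submodule.neg_mem _ hW
  have hx2 := D.br_gr hw hx
  refine ⟨-W, hw, ?_, ?_, ?_, ?_⟩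
  · rw [← hWx, Ring.lie_def, Ring.lie_def]
    noncomm_ring
  · exact hnot (-2) 3 (by norm_num) (by norm_num) hw hx2 (by rw [hca]; module)
  · exact hnot 0 2 (by norm_num) (by norm_num) hz hx2 (by rw [hca]; module)
  · exact hnot (-1) 3 (by norm_num) (by norm_num) hx hx2 (by rw [hca]; module)

theorem exists_stLie {b : Euc k} (hb : b ∈ D.roots)
    (hl : ∀ δ ∈ D.roots, ⟪δ, b⟫ ≠ 0 → ‖δ‖ ≤ ‖b‖) :
    ∃ (a c : Euc k) (x y z w w' f : Mat n), a + c = b ∧ 0 < ⟪a, b⟫ ∧ 0 < ⟪c, b⟫ ∧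
      0 < ⟪a - c, a⟫ ∧ 0 < ⟪c - a, c⟫ ∧
      x ∈ D.gr a ∧ y ∈ D.gr c ∧ z ∈ D.gr b ∧ w ∈ D.gr (-c) ∧ w' ∈ D.gr (-a) ∧ f ∈ D.gr (-b) ∧
      ⁅x, y⁆ = z ∧ ⁅z, x⁆ = 0 ∧ ⁅z, y⁆ = 0 ∧
      ⁅w, z⁆ = x ∧ ⁅w, ⁅w, x⁆⁆ = 0 ∧ ⁅z, ⁅w, x⁆⁆ = 0 ∧ ⁅x, ⁅w, x⁆⁆ = 0 ∧
      ⁅w', z⁆ = y ∧ ⁅w', ⁅w', y⁆⁆ = 0 ∧ ⁅z, ⁅w', y⁆⁆ = 0 ∧ ⁅y, ⁅w', y⁆⁆ = 0 ∧
      ⁅z, f⁆ = D.dg ((2 / ⟪b, b⟫) • b) := by
  obtain ⟨c, hc, hcb, hC⟩ := D.exists_half_root hb hl
  have hB : 0 < ⟪b, b⟫ := real_inner_self_pos.2 (D.root_ne_zero hb)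
  have hne : b ≠ c := by
    rintro rfl
    linarith
  have ha : b - c ∈ D.roots := D.sub_mem_roots hc hb (by linarith) hne
  have hab : 2 * ⟪b - c, b⟫ = ⟪b, b⟫ := by
    rw [inner_sub_left]
    linarith
  have hA : ⟪b, b⟫ ≤ 2 * ⟪b - c, b - c⟫ := by
    simp only [inner_sub_left, inner_sub_right, real_inner_comm c b]
    linarith
  obtain ⟨z, hz, hz0⟩ := D.exists_ne_zero hb
  obtain ⟨x, hx, hx0⟩ := D.exists_ne_zero ha
  obtain ⟨y, hy, hxy⟩ := D.br_onto hx hx0 (by linarith) hz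
  rw [sub_sub_cancel] at hy
  obtain ⟨h1, w, hw, h2, h3, h4, h5⟩ :=
    D.exists_half_data (sub_add_cancel b c) hl hB hab hA hx hz hz0
  obtain ⟨h1', w', hw', h2', h3', h4', h5'⟩ :=
    D.exists_half_data (add_sub_cancel c b) hl hB hcb hC hy hz hz0
  obtain ⟨f, hf, hzf⟩ := D.exists_sl2 (D.root_ne_zero hb) hz hz0
  refine ⟨b - c, c, x, y, z, w, w', f, sub_add_cancel b c, by linarith, by linarith, ?_, ?_,
    hx, hy, hz, hw, hw', hf, hxy, h1, h1', h2, h3, h4, h5, h2', h3', h4', h5', hzf⟩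
  · simp only [inner_sub_left, inner_sub_right, real_inner_comm c b]
    linarith
  · simp only [inner_sub_left, real_inner_comm c b]
    linarith

end Std

end Pool.Agent.P.MP_d483fb_an.Z

end

end

section

/-!
Exponential and logarithm for matrices that are strictly triangular with respect to a weight,
dilations, and invariance of Lebesgue measure in exponential coordinates.
-/

open scoped Matrix Matrix.Norms.Operator Topology
open NormedSpace Filter Set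

set_option linter.unusedSectionVars false

noncomputable section

namespace Pool.Agent.P.MP_d483fb_an.Z.NE

variable {ι : Type} [Fintype ι] [DecidableEq ι]

/-- The number of indices of smaller weight. -/
def rk (w : ι → ℝ) (i : ι) : ℕ := (Finset.univ.filter fun l => w l < w i).card

theorem rk_lt_iff {w : ι → ℝ} {i j : ι} : rk w j < rk w i ↔ w j < w i := by
  constructor
  · intro h
    by_contra hcon
    refine absurd h (not_lt.2 (Finset.card_le_card fun l hl => ?_))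
    simp only [Finset.mem_filter, Finset.mem_univ, true_and] at hl ⊢
    exact hl.trans_le (not_lt.1 hcon)
  · intro h
    refine Finset.card_lt_card ⟨fun l hl => ?_, fun hs => ?_⟩
    · simp only [Finset.mem_filter, Finset.mem_univ, true_and] at hl ⊢
      exact hl.trans h
    · have := hs (Finset.mem_filter.2 ⟨Finset.mem_univ j, h⟩)
      simp at this

theorem rk_lt_card (w : ι → ℝ) (i : ι) : rk w i < Fintype.card ι := by
  rw [← Finset.card_univ]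
  refine Finset.card_lt_card ⟨Finset.subset_univ _, fun hs => ?_⟩
  have := hs (Finset.mem_univ i)
  simp at this

/-- The filtration by the number of levels that a matrix jumps. -/
def Fil (w : ι → ℝ) (k : ℕ) : Submodule ℝ (Matrix ι ι ℝ) where
  carrier := {X | ∀ i j, X i j ≠ 0 → rk w j + k ≤ rk w i}
  zero_mem' := by intro i j h; exact absurd rfl h
  add_mem' := by
    intro X Y hX hY i j h
    by_cases h1 : X i j = 0
    · refine hY i j fun h2 => h ?_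
      rw [Matrix.add_apply, h1, h2, add_zero]
    · exact hX i j h1
  smul_mem' := by
    intro c X hX i j h
    refine hX i j fun h1 => h ?_
    rw [Matrix.smul_apply, h1, smul_zero]

variable {w : ι → ℝ}

theorem mem_Fil {k : ℕ} {X : Matrix ι ι ℝ} :
    X ∈ Fil w k ↔ ∀ i j, X i j ≠ 0 → rk w j + k ≤ rk w i := Iff.rfl

theorem mem_Fil_one {X : Matrix ι ι ℝ} : X ∈ Fil w 1 ↔ ∀ i j, X i j ≠ 0 → w j < w i := by
  simp only [mem_Fil, Nat.succ_le_iff, rk_lt_iff]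

theorem Fil_anti {k l : ℕ} (h : k ≤ l) : Fil w l ≤ Fil w k :=
  fun _ hX i j hij => le_trans (by omega) (hX i j hij)

theorem Fil_mul {k l : ℕ} {X Y : Matrix ι ι ℝ} (hX : X ∈ Fil w k) (hY : Y ∈ Fil w l) :
    X * Y ∈ Fil w (k + l) := by
  intro i j hij
  rw [Matrix.mul_apply] at hij
  obtain ⟨m, -, hm⟩ := Finset.exists_ne_zero_of_sum_ne_zero hij
  have h1 := hX i m (left_ne_zero_of_mul hm)
  have h2 := hY m j (right_ne_zero_of_mul hm)
  omega

theorem one_mem_Fil : (1 : Matrix ι ι ℝ) ∈ Fil w 0 := by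
  intro i j hij
  obtain rfl : i = j := by
    by_contra hne
    exact hij (Matrix.one_apply_ne hne)
  simp

theorem Fil_pow {X : Matrix ι ι ℝ} (hX : X ∈ Fil w 1) (m : ℕ) : X ^ m ∈ Fil w m := by
  induction m with
  | zero => simpa using one_mem_Fil
  | succ m ih => rw [pow_succ]; exact Fil_mul ih hX

theorem Fil_card {X : Matrix ι ι ℝ} (hX : X ∈ Fil w (Fintype.card ι)) : X = 0 := by
  ext i j
  by_contra h
  have h1 := hX i j h
  have h2 := rk_lt_card w i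
  omega

theorem pow_card {X : Matrix ι ι ℝ} (hX : X ∈ Fil w 1) : X ^ Fintype.card ι = 0 :=
  Fil_card (Fil_pow hX _)

theorem exp_eq_sum {X : Matrix ι ι ℝ} (hX : X ∈ Fil w 1) :
    exp X = ∑ k ∈ Finset.range (Fintype.card ι + 1), ((k.factorial : ℝ)⁻¹) • X ^ k := by
  rw [exp_eq_tsum ℝ]
  refine tsum_eq_sum fun k hk => ?_
  have : Fintype.card ι ≤ k := by
    simp only [Finset.mem_range, not_lt] at hk
    omega
  rw [pow_eq_zero_of_le this (pow_card hX), smul_zero]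

theorem one_sub_exp_mem {X : Matrix ι ι ℝ} (hX : X ∈ Fil w 1) : 1 - exp X ∈ Fil w 1 := by
  rw [exp_eq_sum hX, Finset.sum_range_succ']
  simp only [Nat.factorial_zero, Nat.cast_one, inv_one, pow_zero, one_smul, sub_add_cancel_right]
  refine Submodule.neg_mem _ (Submodule.sum_mem _ fun k _ => Submodule.smul_mem _ _ ?_)
  exact Fil_anti (by omega) (Fil_pow hX _)

theorem one_sub_mul_mem {g h : Matrix ι ι ℝ} (hg : 1 - g ∈ Fil w 1) (hh : 1 - h ∈ Fil w 1) :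
    1 - g * h ∈ Fil w 1 := by
  have : 1 - g * h = (1 - g) + (1 - h) - (1 - g) * (1 - h) := by noncomm_ring
  rw [this]
  exact Submodule.sub_mem _ (Submodule.add_mem _ hg hh) (Fil_anti (by omega) (Fil_mul hg hh))

/-- The logarithm of a unipotent matrix. -/
def nlog (g : Matrix ι ι ℝ) : Matrix ι ι ℝ :=
  -∑ k ∈ Finset.range (Fintype.card ι), (((k : ℝ) + 1)⁻¹) • (1 - g) ^ (k + 1)

theorem nlog_one : nlog (1 : Matrix ι ι ℝ) = 0 := by simp [nlog]

theorem nlog_mem {g : Matrix ι ι ℝ} (hg : 1 - g ∈ Fil w 1) : nlog g ∈ Fil w 1 :=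
  Submodule.neg_mem _ (Submodule.sum_mem _ fun k _ => Submodule.smul_mem _ _
    (Fil_anti (by omega) (Fil_pow hg _)))

theorem contDiff_nlog {n : WithTop ℕ∞} : ContDiff ℝ n (nlog : Matrix ι ι ℝ → Matrix ι ι ℝ) := by
  unfold nlog
  refine ContDiff.neg (ContDiff.sum fun k _ => ContDiff.const_smul _ ?_)
  exact (contDiff_const.sub contDiff_id).pow _

theorem contDiff_exp {n : WithTop ℕ∞} : ContDiff ℝ n (exp : Matrix ι ι ℝ → Matrix ι ι ℝ) :=
  contDiff_iff_contDiffAt.2 fun X => (exp_analytic (𝕂 := ℝ) X).contDiffAt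

theorem hasDerivAt_pow_exp (X : Matrix ι ι ℝ) (t : ℝ) (k : ℕ) :
    HasDerivAt (fun s : ℝ => (1 - exp (s • X)) ^ (k + 1))
      (-(((k : ℝ) + 1) • ((1 - exp (t • X)) ^ k * (exp (t • X) * X)))) t := by
  have h0 : HasDerivAt (fun s : ℝ => 1 - exp (s • X)) (-(exp (t • X) * X)) t :=
    (hasDerivAt_exp_smul_const X t).const_sub 1
  have hc : Commute (exp (t • X) * X) (1 - exp (t • X)) := by
    have h1 : Commute X (exp (t • X)) := ((Commute.refl X).smul_right t).exp_right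
    exact (Commute.one_right _).sub_right ((Commute.refl _).mul_left h1)
  induction k with
  | zero => simpa using h0
  | succ k ih =>
    have := ih.mul h0
    have he : (fun s : ℝ => (1 - exp (s • X)) ^ (k + 1 + 1)) =
        (fun s : ℝ => (1 - exp (s • X)) ^ (k + 1)) * fun s : ℝ => 1 - exp (s • X) := by
      funext s
      simp only [Pi.mul_apply, pow_succ _ (k + 1)]
    rw [he]
    refine HasDerivAt.congr_deriv this ?_
    rw [neg_mul, smul_mul_assoc, mul_assoc, hc.eq, ← mul_assoc, ← pow_succ, mul_neg, ← neg_add]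
    congr 1
    push_cast
    rw [add_smul ((k : ℝ) + 1), one_smul]

theorem nlog_exp {X : Matrix ι ι ℝ} (hX : X ∈ Fil w 1) : nlog (exp X) = X := by
  have hd : ∀ t : ℝ, HasDerivAt (fun s : ℝ => nlog (exp (s • X)) - s • X) 0 t := by
    intro t
    have h1 : HasDerivAt (fun s : ℝ => nlog (exp (s • X))) X t := by
      have h2 := (HasDerivAt.fun_sum (u := Finset.range (Fintype.card ι)) fun k _ =>
        (hasDerivAt_pow_exp X t k).const_smul (((k : ℝ) + 1)⁻¹)).neg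
      have h3 : -∑ k ∈ Finset.range (Fintype.card ι), ((k : ℝ) + 1)⁻¹ •
          -(((k : ℝ) + 1) • ((1 - exp (t • X)) ^ k * (exp (t • X) * X))) = X := by
        have h4 : ∀ k ∈ Finset.range (Fintype.card ι), ((k : ℝ) + 1)⁻¹ •
            -(((k : ℝ) + 1) • ((1 - exp (t • X)) ^ k * (exp (t • X) * X))) =
            -((1 - exp (t • X)) ^ k * (exp (t • X) * X)) := by
          intro k _
          rw [smul_neg, inv_smul_smul₀ (by positivity)]
        rw [Finset.sum_congr rfl h4, Finset.sum_neg_distrib, neg_neg, ← Finset.sum_mul,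
          ← mul_assoc]
        have h5 := geom_sum_mul_neg (1 - exp (t • X)) (Fintype.card ι)
        rw [sub_sub_cancel, pow_card (one_sub_exp_mem (Submodule.smul_mem _ t hX)),
          sub_zero] at h5
        rw [h5, one_mul]
      rw [h3] at h2
      exact h2
    have h6 : HasDerivAt (fun s : ℝ => s • X) X t :=
      HasDerivAt.congr_deriv ((hasDerivAt_id t).smul_const X) (one_smul _ _)
    exact HasDerivAt.congr_deriv (h1.sub h6) (sub_self _)
  have h := is_const_of_deriv_eq_zero (fun t => (hd t).differentiableAt) (fun t => (hd t).deriv) 1 0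
  simp only [one_smul, zero_smul, exp_zero, nlog_one, sub_zero] at h
  exact sub_eq_zero.1 h

theorem pow_sub_pow_mem {k : ℕ} {N N' : Matrix ι ι ℝ} (hN : N ∈ Fil w 1) (hN' : N' ∈ Fil w 1)
    (h : N - N' ∈ Fil w k) (m : ℕ) : N ^ (m + 1) - N' ^ (m + 1) ∈ Fil w (k + m) := by
  induction m with
  | zero => simpa using h
  | succ m ih =>
    have : N ^ (m + 1 + 1) - N' ^ (m + 1 + 1) =
        N * (N ^ (m + 1) - N' ^ (m + 1)) + (N - N') * N' ^ (m + 1) := by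
      rw [pow_succ' N (m + 1), pow_succ' N' (m + 1)]
      noncomm_ring
    rw [this]
    exact Submodule.add_mem _ (Fil_anti (by omega) (Fil_mul hN ih)) (Fil_mul h (Fil_pow hN' _))

theorem nlog_inj {g h : Matrix ι ι ℝ} (hg : 1 - g ∈ Fil w 1) (hh : 1 - h ∈ Fil w 1)
    (he : nlog g = nlog h) : g = h := by
  have key : ∀ k, (1 - g) - (1 - h) ∈ Fil w (k + 1) := by
    intro k
    induction k with
    | zero => exact Submodule.sub_mem _ hg hh
    | succ k ih =>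
      rcases Nat.eq_zero_or_pos (Fintype.card ι) with h0 | h0
      · have : IsEmpty ι := Fintype.card_eq_zero_iff.1 h0
        intro i
        exact isEmptyElim i
      obtain ⟨c, hc⟩ : ∃ c, Fintype.card ι = c + 1 := ⟨_, (Nat.succ_pred_eq_of_pos h0).symm⟩
      rw [nlog, nlog, neg_inj, hc, Finset.sum_range_succ', Finset.sum_range_succ'] at he
      simp only [Nat.cast_zero, zero_add, inv_one, pow_one, one_smul] at he
      have h1 : (1 - g) - (1 - h) = -∑ m ∈ Finset.range c, (((m + 1 : ℕ) : ℝ) + 1)⁻¹ •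
          ((1 - g) ^ (m + 1 + 1) - (1 - h) ^ (m + 1 + 1)) := by
        simp only [smul_sub, Finset.sum_sub_distrib]
        rw [neg_sub, sub_eq_sub_iff_add_eq_add, add_comm (1 - g), he]
      rw [h1]
      refine Submodule.neg_mem _ (Submodule.sum_mem _ fun m _ => Submodule.smul_mem _ _ ?_)
      exact Fil_anti (by omega) (pow_sub_pow_mem hg hh ih (m + 1))
  have := Fil_card (Fil_anti (Nat.le_succ _) (key (Fintype.card ι)))
  rw [sub_sub_sub_cancel_left, sub_eq_zero] at this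
  exact this.symm

theorem exp_nlog {g : Matrix ι ι ℝ} (hg : 1 - g ∈ Fil w 1) : exp (nlog g) = g :=
  nlog_inj (one_sub_exp_mem (nlog_mem hg)) hg (nlog_exp (nlog_mem hg))

/-- Conjugation by the diagonal matrix with entries `exp (t * w i)`. -/
def dl (w : ι → ℝ) (t : ℝ) : Matrix ι ι ℝ →ₐ[ℝ] Matrix ι ι ℝ where
  toFun X := Matrix.of fun i j => Real.exp (t * (w i - w j)) * X i j
  map_one' := by
    ext i j
    by_cases h : i = j
    · subst h; simp
    · simp [Matrix.one_apply_ne h]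
  map_mul' X Y := by
    ext i j
    simp only [Matrix.of_apply, Matrix.mul_apply, Finset.mul_sum]
    refine Finset.sum_congr rfl fun l _ => ?_
    have : Real.exp (t * (w i - w j)) = Real.exp (t * (w i - w l)) * Real.exp (t * (w l - w j)) := by
      rw [← Real.exp_add]
      congr 1
      ring
    rw [this]
    ring
  map_zero' := by ext i j; simp
  map_add' X Y := by ext i j; simp [mul_add]
  commutes' c := by
    ext i j
    by_cases h : i = j
    · subst h; simp [Matrix.algebraMap_matrix_apply]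
    · simp [Matrix.algebraMap_matrix_apply, h]

theorem dl_apply (t : ℝ) (X : Matrix ι ι ℝ) (i j : ι) :
    dl w t X i j = Real.exp (t * (w i - w j)) * X i j := rfl

theorem dl_eq (t : ℝ) (X : Matrix ι ι ℝ) : dl w t X =
    Matrix.diagonal (fun i => Real.exp (t * w i)) * X *
      Matrix.diagonal (fun i => Real.exp (-(t * w i))) := by
  ext i j
  rw [dl_apply, Matrix.mul_diagonal, Matrix.diagonal_mul, mul_right_comm, ← Real.exp_add]
  congr 2
  ring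

theorem dl_zero (X : Matrix ι ι ℝ) : dl w 0 X = X := by
  ext i j
  simp [dl_apply]

theorem dl_add (s t : ℝ) (X : Matrix ι ι ℝ) : dl w (s + t) X = dl w s (dl w t X) := by
  ext i j
  simp only [dl_apply, add_mul, Real.exp_add, mul_assoc]

theorem continuous_dl : Continuous fun p : ℝ × Matrix ι ι ℝ => dl w p.1 p.2 := by
  refine continuous_pi fun i => continuous_pi fun j => ?_
  simp only [dl_apply]
  fun_prop

theorem dl_mem_Fil {k : ℕ} (t : ℝ) {X : Matrix ι ι ℝ} (hX : X ∈ Fil w k) : dl w t X ∈ Fil w k :=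
  fun i j h => hX i j (right_ne_zero_of_mul h)

theorem dl_exp (t : ℝ) (X : Matrix ι ι ℝ) : dl w t (exp X) = exp (dl w t X) :=
  map_exp (dl w t) (continuous_dl.comp (Continuous.prodMk_right t)) X

theorem dl_nlog (t : ℝ) (g : Matrix ι ι ℝ) : dl w t (nlog g) = nlog (dl w t g) := by
  simp only [nlog, map_neg, map_sum, map_smul, map_pow, map_sub, map_one]

theorem tendsto_dl {X : Matrix ι ι ℝ} (hX : X ∈ Fil w 1) :
    Tendsto (fun t => dl w t X) atBot (𝓝 0) := by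
  refine tendsto_pi_nhds.2 fun i => tendsto_pi_nhds.2 fun j => ?_
  simp only [dl_apply, Matrix.zero_apply]
  by_cases h : X i j = 0
  · simp [h]
  · have h1 := mem_Fil_one.1 hX i j h
    have h2 : Tendsto (fun t : ℝ => t * (w i - w j)) atBot atBot :=
      tendsto_id.atBot_mul_const (sub_pos.2 h1)
    simpa using (Real.tendsto_exp_atBot.comp h2).mul_const (X i j)

end Pool.Agent.P.MP_d483fb_an.Z.NE

end

end

section

/-! Unipotent subgroups. -/

open scoped Matrix Matrix.Norms.Operator InnerProductSpace RealInnerProductSpace Topology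
open NormedSpace Filter Set

set_option linter.unusedSectionVars false

noncomputable section

namespace Pool.Agent.P.MP_d483fb_an.Z

namespace Std

variable {G : Type} [Group G] [TopologicalSpace G] [IsTopologicalGroup G] {n k : ℕ}
  (D : Std G n k)

variable {P : Set (Euc k)} {H : Euc k}

theorem wtS_le_Fil (hP : Pos P H) : D.wtS P ≤ NE.Fil (fun i => ⟪D.lam i, H⟫) 1 := fun X hX => NE.mem_Fil_one.2 fun i j h => by
  have := hP.pos _ (hX i j h)
  rw [inner_sub_left] at this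
  exact sub_pos.1 this

omit [IsTopologicalGroup G] in
theorem Unip_pow (hP : Pos P H) {Y : Mat n} (hY : Y ∈ D.wtS P) (m : ℕ) :
    Y ^ (m + 1) ∈ D.wtS P := by
  induction m with
  | zero => simpa using hY
  | succ m ih => rw [pow_succ]; exact D.wtS_mul ih hY hP.add

omit [IsTopologicalGroup G] in
theorem Unip_mul (hP : Pos P H) {x y : Mat n} (hx : 1 - x ∈ D.wtS P) (hy : 1 - y ∈ D.wtS P) :
    1 - x * y ∈ D.wtS P := by
  have : 1 - x * y = (1 - x) + (1 - y) - (1 - x) * (1 - y) := by noncomm_ring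
  rw [this]
  exact Submodule.sub_mem _ (Submodule.add_mem _ hx hy) (D.wtS_mul hx hy hP.add)

theorem Unip_nlog_cont : Continuous (NE.nlog : Mat n → Mat n) :=
  (NE.contDiff_nlog (n := 0)).continuous

theorem Unip_norm_pow {A : Mat n} {B : ℝ} (hB : 1 ≤ B) (h : ‖A‖ ≤ B) {j : ℕ} (hj : j ≤ n) :
    ‖A ^ j‖ ≤ (‖(1 : Mat n)‖ + 1) * B ^ n := by
  have h1 : (1 : ℝ) ≤ B ^ n := one_le_pow₀ hB
  have h0 := norm_nonneg (1 : Mat n)
  rcases Nat.eq_zero_or_pos j with rfl | hj0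
  · rw [pow_zero]
    nlinarith
  · have h2 : ‖A ^ j‖ ≤ B ^ n := (norm_pow_le' A hj0).trans
      ((pow_le_pow_left₀ (norm_nonneg _) h j).trans (pow_le_pow_right₀ hB hj))
    nlinarith

theorem one_sub_exp_mem (hP : Pos P H) {Y : Mat n} (hY : Y ∈ D.wtS P) :
    1 - exp Y ∈ D.wtS P := by
  rw [NE.exp_eq_sum (D.wtS_le_Fil hP hY), Finset.sum_range_succ']
  simp only [Nat.factorial_zero, Nat.cast_one, inv_one, pow_zero, one_smul, sub_add_cancel_right]
  exact Submodule.neg_mem _ (Submodule.sum_mem _ fun j _ => Submodule.smul_mem _ _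
    (D.Unip_pow hP hY j))

theorem nlog_mem_wtS (hP : Pos P H) {y : Mat n} (hy : 1 - y ∈ D.wtS P) :
    NE.nlog y ∈ D.wtS P :=   Submodule.neg_mem _ (Submodule.sum_mem _ fun j _ => Submodule.smul_mem _ _ (D.Unip_pow hP hy j))

theorem unip_log (hP : Pos P H) {x : G} (hx : 1 - D.ρ x ∈ D.wtS P) :
    NE.nlog (D.ρ x) ∈ D.grS P ∧ exp (NE.nlog (D.ρ x)) = D.ρ x := by
  have he := NE.exp_nlog (D.wtS_le_Fil hP hx)
  have hw := D.nlog_mem_wtS hP hx
  refine ⟨⟨?_, hw⟩, he⟩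
  set Y := NE.nlog (D.ρ x)
  have h0 := D.tendsto_Ad_a (s := H) (D.wtS_mono (fun β hβ => hP.pos β hβ) hw)
  have h1 : ∀ᶠ y in 𝓝[range D.ρ] (1 : Mat n), mlog y ∈ D.g := by
    rw [← D.opn]
    exact D.ex_lg.mono fun x hx => hx.1
  have h2 : Tendsto (fun t : ℝ => exp (D.Ad (D.a (-(t • H))) Y)) atTop (𝓝[range D.ρ] 1) := by
    refine tendsto_nhdsWithin_iff.2 ⟨?_, .of_forall fun t => ?_⟩
    · have := ((exp_cont (A := Mat n)).tendsto 0).comp h0
      rwa [exp_zero] at this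
    · refine ⟨D.a (-(t • H)) * x * (D.a (-(t • H)))⁻¹, ?_⟩
      rw [← D.Ad_exp, he, D.Ad_apply, map_mul, map_mul]
  have h3 : ∀ᶠ X in 𝓝 (0 : Mat n), mlog (exp X) = X := mlog_exp
  obtain ⟨t, ht, ht'⟩ := ((h2.eventually h1).and (h0.eventually h3)).exists
  rw [ht'] at ht
  have := D.Ad_mem (D.a (-(t • H)))⁻¹ ht
  rwa [D.Ad_inv_Ad] at this

theorem ex_mul_ex (hP : Pos P H) {Y Z : Mat n} (hY : Y ∈ D.grS P) (hZ : Z ∈ D.grS P) :
    NE.nlog (exp Y * exp Z) ∈ D.grS P ∧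
      D.ex Y * D.ex Z = D.ex (NE.nlog (exp Y * exp Z)) := by
  have hm : ∀ t : ℝ, NE.nlog (exp (t • Y) * exp (t • Z)) ∈ D.grS P ∧
      exp (NE.nlog (exp (t • Y) * exp (t • Z))) = D.ρ (D.ex (t • Y) * D.ex (t • Z)) := by
    intro t
    have e : D.ρ (D.ex (t • Y) * D.ex (t • Z)) = exp (t • Y) * exp (t • Z) := by
      rw [map_mul, D.ρ_ex _ (D.g.smul_mem t hY.1), D.ρ_ex _ (D.g.smul_mem t hZ.1)]
    rw [← e]
    refine D.unip_log hP ?_
    rw [e]
    exact D.Unip_mul hP (D.one_sub_exp_mem hP (Submodule.smul_mem _ t hY.2))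
      (D.one_sub_exp_mem hP (Submodule.smul_mem _ t hZ.2))
  have hc : Continuous fun t : ℝ => NE.nlog (exp (t • Y) * exp (t • Z)) :=
    Unip_nlog_cont.comp (((exp_cont (A := Mat n)).comp (continuous_id.smul continuous_const)).mul
      ((exp_cont (A := Mat n)).comp (continuous_id.smul continuous_const)))
  have key := D.lift_eq (S := univ) isPreconnected_univ
    (f₁ := fun t : ℝ => D.ex (t • Y) * D.ex (t • Z))
    (f₂ := fun t : ℝ => D.ex (NE.nlog (exp (t • Y) * exp (t • Z))))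
    ((D.ex_smul_cont hY.1).mul (D.ex_smul_cont hZ.1)).continuousOn
    (D.ex_cont.comp hc.continuousOn fun t _ => (hm t).1.1)
    (fun t _ => by rw [D.ρ_ex _ (hm t).1.1, (hm t).2]) (mem_univ 0)
    (by simp [NE.nlog_one, D.ex_zero]) 1 (mem_univ _)
  have h1 := (hm 1).1
  simp only [one_smul] at key h1
  exact ⟨h1, key⟩

theorem mem_grp_grS (hP : Pos P H) {x : G} :
    x ∈ D.grp (D.grS P) ↔ ∃ Y ∈ D.grS P, x = D.ex Y := by
  refine ⟨fun h => ?_, fun ⟨Y, hY, e⟩ => Subgroup.subset_closure ⟨Y, hY, e.symm⟩⟩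
  induction h using Subgroup.closure_induction with
  | mem x hx =>
    obtain ⟨Y, hY, rfl⟩ := hx
    exact ⟨Y, hY, rfl⟩
  | one => exact ⟨0, zero_mem _, D.ex_zero.symm⟩
  | mul x y _ _ hx hy =>
    obtain ⟨Y, hY, rfl⟩ := hx
    obtain ⟨Z, hZ, rfl⟩ := hy
    exact ⟨_, (D.ex_mul_ex hP hY hZ).1, (D.ex_mul_ex hP hY hZ).2⟩
  | inv x _ hx =>
    obtain ⟨Y, hY, rfl⟩ := hx
    exact ⟨-Y, neg_mem hY, (D.ex_neg hY.1).symm⟩

theorem nlog_ρ_ex (hP : Pos P H) {Y : Mat n} (hY : Y ∈ D.grS P) :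
    NE.nlog (D.ρ (D.ex Y)) = Y := by
  rw [D.ρ_ex _ hY.1, NE.nlog_exp (D.wtS_le_Fil hP hY.2)]

theorem ex_closedEmbedding (hP : Pos P H) :
    Topology.IsClosedEmbedding fun Y : D.grS P => D.ex Y := by
  have := D.t2Space
  have hc : Continuous fun Y : D.grS P => D.ex Y :=
    D.ex_cont.comp_continuous continuous_subtype_val fun Y => Y.2.1
  have hl : Continuous fun x : G => NE.nlog (D.ρ x) := Unip_nlog_cont.comp D.cont
  refine ⟨Topology.IsEmbedding.of_comp hc hl ?_, ?_⟩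
  · have e : (fun x : G => NE.nlog (D.ρ x)) ∘ (fun Y : D.grS P => D.ex Y) = Subtype.val :=
      funext fun Y => D.nlog_ρ_ex hP Y.2
    rw [e]
    exact Topology.IsEmbedding.subtypeVal
  · have hC : IsClosed {x : G | 1 - D.ρ x ∈ D.wtS P} :=
      (D.wtS P).closed_of_finiteDimensional.preimage (continuous_const.sub D.cont)
    have h := hC.isClosed_eq (f := fun x => D.ex (NE.nlog (D.ρ x))) (g := id)
      (D.ex_cont.comp hl.continuousOn fun x hx => (D.unip_log hP hx).1.1) continuousOn_id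
    convert h using 1
    ext x
    constructor
    · rintro ⟨Y, rfl⟩
      refine ⟨?_, ?_⟩
      · show 1 - D.ρ (D.ex Y) ∈ D.wtS P
        rw [D.ρ_ex _ Y.2.1]
        exact D.one_sub_exp_mem hP Y.2.2
      · show D.ex (NE.nlog (D.ρ (D.ex Y))) = D.ex Y
        rw [D.nlog_ρ_ex hP Y.2]
    · rintro ⟨hx, e⟩
      exact ⟨⟨_, (D.unip_log hP hx).1⟩, e⟩

theorem grp_grS_closed (hP : Pos P H) : IsClosed (D.grp (D.grS P) : Set G) := by
  convert (D.ex_closedEmbedding hP).isClosed_range using 1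
  ext x
  rw [SetLike.mem_coe, D.mem_grp_grS hP]
  exact ⟨fun ⟨Y, hY, e⟩ => ⟨⟨Y, hY⟩, e.symm⟩, fun ⟨Y, e⟩ => ⟨Y, Y.2, e.symm⟩⟩

theorem lie_grp_grS (hP : Pos P H) : D.lie (D.grp (D.grS P)) = D.grS P := by
  refine le_antisymm (fun X hX => ?_)
    (D.le_lie (D.grS_le P) fun X hX => (D.mem_grp_grS hP).2 ⟨X, hX, rfl⟩)
  obtain ⟨hg, h⟩ := (D.mem_lie (D.grp_grS_closed hP)).1 hX
  refine ⟨hg, ?_⟩
  have h1 : ∀ t : ℝ, 1 - exp (t • X) ∈ D.wtS P := fun t => by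
    obtain ⟨Y, hY, e⟩ := (D.mem_grp_grS hP).1 (h t)
    rw [← D.ρ_ex _ (D.g.smul_mem t hg), e, D.ρ_ex _ hY.1]
    exact D.one_sub_exp_mem hP hY.2
  have h2 := hasDerivAt_iff_tendsto_slope.1 (hasDerivAt_exp_smul_const (𝕂 := ℝ) X 0)
  simp only [zero_smul, exp_zero, one_mul] at h2
  refine (D.wtS P).closed_of_finiteDimensional.mem_of_tendsto h2 (.of_forall fun t => ?_)
  rw [slope_def_module, zero_smul, exp_zero, ← neg_sub 1]
  exact Submodule.smul_mem _ _ (neg_mem (h1 t))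

theorem norm_exp_le (H : Euc k) : ∃ C : ℝ, ∀ Y ∈ D.wtS {γ | 0 < ⟪γ, H⟫},
    ‖exp Y‖ ≤ C * (1 + ‖Y‖) ^ n ∧ ‖Y‖ ≤ C * (1 + ‖exp Y‖) ^ n := by
  set c : ℝ := ‖(1 : Mat n)‖ + 1 with hc
  have hc1 : 1 ≤ c := le_add_of_nonneg_left (norm_nonneg _)
  refine ⟨(n + 1) * c * c ^ n, fun Y hY => ?_⟩
  have hF := D.wtS_le_Fil (pos_half H) hY
  have hcn : (1 : ℝ) ≤ c ^ n := one_le_pow₀ hc1
  constructor
  · have hB : (1 : ℝ) ≤ 1 + ‖Y‖ := le_add_of_nonneg_right (norm_nonneg _)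
    rw [NE.exp_eq_sum hF, Fintype.card_fin]
    refine (norm_sum_le _ _).trans ((Finset.sum_le_card_nsmul _ _ (c * (1 + ‖Y‖) ^ n)
      fun j hj => ?_).trans ?_)
    · rw [norm_smul, norm_inv, Real.norm_natCast]
      refine (mul_le_of_le_one_left (norm_nonneg _) (inv_le_one_of_one_le₀ ?_)).trans
        (Unip_norm_pow hB (by linarith) (Nat.lt_succ_iff.1 (Finset.mem_range.1 hj)))
      exact_mod_cast Nat.succ_le_of_lt (Nat.factorial_pos j)
    · rw [Finset.card_range, nsmul_eq_mul, Nat.cast_succ, ← mul_assoc]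
      have : (0 : ℝ) ≤ (n + 1) * c := by positivity
      exact mul_le_mul_of_nonneg_right (le_mul_of_one_le_right this hcn) (by positivity)
  · have h0 := norm_nonneg (exp Y)
    have hB : (1 : ℝ) ≤ c * (1 + ‖exp Y‖) := by nlinarith
    have hA : ‖1 - exp Y‖ ≤ c * (1 + ‖exp Y‖) := by
      have := norm_sub_le 1 (exp Y)
      nlinarith
    conv_lhs => rw [← NE.nlog_exp hF, NE.nlog, norm_neg, Fintype.card_fin]
    refine (norm_sum_le _ _).trans ((Finset.sum_le_card_nsmul _ _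
      (c * (c * (1 + ‖exp Y‖)) ^ n) fun j hj => ?_).trans ?_)
    · rw [norm_smul, norm_inv, Real.norm_of_nonneg (by positivity)]
      refine (mul_le_of_le_one_left (norm_nonneg _) (inv_le_one_of_one_le₀ ?_)).trans
        (Unip_norm_pow hB hA (Finset.mem_range.1 hj))
      exact le_add_of_nonneg_left (Nat.cast_nonneg j)
    · rw [Finset.card_range, nsmul_eq_mul, mul_pow]
      have : (0 : ℝ) ≤ c * (c ^ n * (1 + ‖exp Y‖) ^ n) := by positivity
      nlinarith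

/-- Factorisation along a splitting of the weights, the second part being closed and the first an
ideal. -/
theorem ex_split (hP : Pos P H) {Q : Set (Euc k)} (hQ : Q ⊆ P)
    (h1 : ∀ β ∈ Q, ∀ γ ∈ P, β + γ ∈ Q) (h2 : ∀ β ∈ P \ Q, ∀ γ ∈ P \ Q, β + γ ∈ P \ Q)
    {Y : Mat n} (hY : Y ∈ D.grS P) :
    ∃ Z ∈ D.grS Q, D.ex Y = D.ex Z * D.ex (D.prS (P \ Q) Y) := by
  have _ := h2
  have hQP : Pos Q H := ⟨fun β hβ γ hγ => h1 β hβ γ (hQ hγ), fun β hβ => hP.pos β (hQ hβ)⟩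
  have h1' : ∀ β ∈ P, ∀ γ ∈ Q, β + γ ∈ Q := fun β hβ γ hγ => add_comm γ β ▸ h1 γ hγ β hβ
  set Y₁ := D.prS (P \ Q) Y with hY₁
  have hm : Y₁ ∈ D.grS P := D.grS_mono sdiff_subset (D.prS_mem _ hY.1)
  have hd : Y - Y₁ ∈ D.wtS Q := by
    intro i j hij
    rw [Matrix.sub_apply, hY₁, D.prS_apply] at hij
    split_ifs at hij with h
    · exact absurd (sub_self _) hij
    · by_contra hq
      exact h ⟨hY.2 i j (by simpa using hij), hq⟩
  have hp : ∀ m : ℕ, Y ^ (m + 1) - Y₁ ^ (m + 1) ∈ D.wtS Q := by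
    intro m
    induction m with
    | zero => simpa using hd
    | succ m ih =>
      have : Y ^ (m + 1 + 1) - Y₁ ^ (m + 1 + 1) =
          Y * (Y ^ (m + 1) - Y₁ ^ (m + 1)) + (Y - Y₁) * Y₁ ^ (m + 1) := by
        rw [pow_succ' Y (m + 1), pow_succ' Y₁ (m + 1)]
        noncomm_ring
      rw [this]
      exact add_mem (D.wtS_mul hY.2 ih h1') (D.wtS_mul hd (D.Unip_pow hP hm.2 m) h1)
  have he : exp Y - exp Y₁ ∈ D.wtS Q := by
    rw [NE.exp_eq_sum (D.wtS_le_Fil hP hY.2), NE.exp_eq_sum (D.wtS_le_Fil hP hm.2),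
      ← Finset.sum_sub_distrib, Finset.sum_range_succ']
    simp only [pow_zero, sub_self, add_zero, ← smul_sub]
    exact Submodule.sum_mem _ fun j _ => Submodule.smul_mem _ _ (hp j)
  have hu : 1 - exp Y * exp (-Y₁) ∈ D.wtS Q := by
    have e0 : exp Y₁ * exp (-Y₁) = 1 := exp_mul_neg (A := Mat n) Y₁
    have e : 1 - exp Y * exp (-Y₁) =
        (exp Y - exp Y₁) * (1 - exp (-Y₁)) - (exp Y - exp Y₁) := by
      rw [mul_sub, mul_one, sub_mul, e0]
      abel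
    rw [e]
    exact sub_mem (D.wtS_mul he (D.one_sub_exp_mem hP (neg_mem hm.2)) h1) he
  obtain ⟨h3, h4⟩ := D.ex_mul_ex hP hY (neg_mem hm)
  refine ⟨_, ⟨h3.1, D.nlog_mem_wtS hQP hu⟩, ?_⟩
  rw [← h4, D.ex_neg hm.1, inv_mul_cancel_right]

/-- Logarithmic distortion. -/
theorem ex_eq_conj (H : Euc k) : ∃ C : ℝ, ∀ Y ∈ D.np H, ∃ m : ℕ, ∃ Z ∈ D.np H, ‖Z‖ ≤ 1 ∧
    (m : ℝ) ≤ C * (1 + Real.log (1 + ‖Y‖)) ∧ D.ex Y = D.a H ^ m * D.ex Z * (D.a H ^ m)⁻¹ := by
  obtain ⟨c, hc, hgap⟩ := D.exists_gap H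
  refine ⟨1 + c⁻¹, fun Y hY => ?_⟩
  have h0 := norm_nonneg Y
  have hL : 0 ≤ Real.log (1 + ‖Y‖) := Real.log_nonneg (by linarith)
  set m := ⌈Real.log (1 + ‖Y‖) / c⌉₊ with hm
  have hm1 : Real.log (1 + ‖Y‖) ≤ m * c := (div_le_iff₀ hc).1 (Nat.le_ceil _)
  have hZ : D.Ad (D.a (-((m : ℝ) • H))) Y ∈ D.np H := D.Ad_a_grS _ hY
  refine ⟨m, _, hZ, ?_, ?_, ?_⟩
  · refine (D.norm_Ad_a_le _ hY.2 (c := -Real.log (1 + ‖Y‖)) fun β hβ hw => ?_).trans ?_
    · rw [inner_neg_right, inner_smul_right]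
      have := mul_le_mul_of_nonneg_left (hgap β hw hβ) (Nat.cast_nonneg (α := ℝ) m)
      linarith
    · rw [Real.exp_neg, Real.exp_log (by linarith), inv_mul_le_iff₀ (by linarith)]
      linarith
  · have h1 := (Nat.ceil_lt_add_one (div_nonneg hL hc.le)).le
    rw [← hm, div_eq_mul_inv] at h1
    have := inv_pos.2 hc
    nlinarith
  · rw [← D.a_nsmul, D.conj_ex _ hZ.1, D.a_neg, D.Ad_Ad_inv]

end Std

end Pool.Agent.P.MP_d483fb_an.Z

end

end
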