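import Pool.Agent.P.MP_c34bf4_an.ErgMax
import Pool.Agent.P.MP_d483fb_an.M.A06
import Pool.Agent.P.MP_d483fb_an.M.A14

section

/-!
The pointwise ergodic theorem and its first consequences.
-/

namespace Pool.Agent.P.MP_d483fb_an.Z

open MeasureTheory Filter Set Topology MeasurableSpace
open Pool.Agent.P.MP_c34bf4_an (maximal_ergodic ergmax_sum_measurable)

variable {X : Type*} [mX : MeasurableSpace X] {μ : Measure X} {T : X → X}

theorem condExp_invariants_comp (μ : Measure X) (T : X → X) (f : X → ℝ) (x : X) :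
    (μ[f|invariants T]) (T x) = (μ[f|invariants T]) x :=
  congrFun (comp_eq_of_measurable_invariants
    (stronglyMeasurable_condExp (m := invariants T) (μ := μ) (f := f)).measurable) x

theorem condExp_invariants_measurable (μ : Measure X) (T : X → X) (f : X → ℝ) :
    Measurable (μ[f|invariants T]) :=
  (stronglyMeasurable_condExp (m := invariants T) (μ := μ) (f := f)).measurable.mono
    (invariants_le T) le_rfl

theorem integral_comp_mp {Y : Type*} [MeasurableSpace Y] {ν : Measure Y} {S : X → Y}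
    (hS : MeasurePreserving S μ ν) {f : Y → ℝ} (hf : AEStronglyMeasurable f ν) :
    ∫ x, f (S x) ∂μ = ∫ y, f y ∂ν := by
  rw [← hS.map_eq] at hf ⊢
  exact (integral_map hS.aemeasurable hf).symm

theorem integrable_birkhoffSum (hT : MeasurePreserving T μ μ) {f : X → ℝ} (hf : Integrable f μ)
    (n : ℕ) : Integrable (birkhoffSum T f n) μ :=
  integrable_finsetSum _ fun i _ => (hT.iterate i).integrable_comp_of_integrable hf

theorem integral_birkhoffSum (hT : MeasurePreserving T μ μ) {f : X → ℝ} (hf : Integrable f μ)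
    (n : ℕ) : ∫ x, birkhoffSum T f n x ∂μ = n * ∫ x, f x ∂μ := by
  unfold birkhoffSum
  rw [integral_finsetSum (f := fun i x => f (T^[i] x)) _
      fun i _ => (hT.iterate i).integrable_comp_of_integrable hf,
    Finset.sum_congr rfl fun i _ => integral_comp_mp (hT.iterate i) hf.aestronglyMeasurable]
  simp

variable [IsFiniteMeasure μ]

private theorem erg_upper (hT : MeasurePreserving T μ μ) {f : X → ℝ} (hm : Measurable f)
    (hf : Integrable f μ) {ε : ℝ} (hε : 0 < ε) : ∀ᵐ x ∂μ, ∃ C : ℝ, ∀ n : ℕ,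
      birkhoffSum T f n x ≤ C + ((μ[f|invariants T]) x + ε) * n := by
  set e := μ[f|invariants T] with he
  let φ : X → ℝ := fun x => f x - e x - ε
  have hφ : Measurable φ := (hm.sub (condExp_invariants_measurable μ T f)).sub_const ε
  have hφi : Integrable φ μ := (hf.sub integrable_condExp).sub (integrable_const ε)
  have hsum : ∀ n x, birkhoffSum T φ n x = birkhoffSum T f n x - (e x + ε) * n := by
    intro n x
    induction n with
    | zero => simp
    | succ n ih =>
      have : e (T^[n] x) = e x := by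
        clear ih
        induction n with
        | zero => rfl
        | succ n ih => rw [Function.iterate_succ_apply', he, condExp_invariants_comp, ← he, ih]
      rw [birkhoffSum_succ, birkhoffSum_succ, ih]
      simp only [φ, this]
      push_cast
      ring
  let D : Set X := {x | ¬ ∃ C : ℕ, ∀ n, birkhoffSum T φ n x ≤ C}
  have hDm : MeasurableSet D := by
    refine MeasurableSet.compl ?_
    show MeasurableSet {x | ∃ C : ℕ, ∀ n, birkhoffSum T φ n x ≤ C}
    rw [ofPred_exists]
    refine MeasurableSet.iUnion fun C => ?_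
    rw [ofPred_forall]
    exact MeasurableSet.iInter fun n =>
      measurableSet_le (ergmax_sum_measurable hT.measurable hφ n) measurable_const
  have hDi : T ⁻¹' D = D := by
    ext x
    refine not_congr ⟨?_, ?_⟩
    · rintro ⟨C, hC⟩
      obtain ⟨C', hC'⟩ := exists_nat_ge (|φ x| + C)
      refine ⟨C', fun n => ?_⟩
      cases n with
      | zero => simp
      | succ n =>
        rw [birkhoffSum_succ']
        linarith [hC n, le_abs_self (φ x)]
    · rintro ⟨C, hC⟩
      obtain ⟨C', hC'⟩ := exists_nat_ge (|φ x| + C)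
      refine ⟨C', fun n => ?_⟩
      have := hC (n + 1)
      rw [birkhoffSum_succ'] at this
      linarith [neg_abs_le (φ x)]
  have hD0 : μ D = 0 := by
    by_contra h0
    have hTD : MeasurePreserving T (μ.restrict D) (μ.restrict D) := by
      have := hT.restrict_preimage hDm
      rwa [hDi] at this
    have hneg : ∫ x in D, φ x ∂μ < 0 := by
      have h1 : ∫ x in D, e x ∂μ = ∫ x in D, f x ∂μ :=
        setIntegral_condExp (invariants_le T) hf (measurableSet_invariants.2 ⟨hDm, hDi⟩)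
      have h2 : 0 < μ.real D := ENNReal.toReal_pos h0 (measure_ne_top _ _)
      have h3 : Integrable e μ := integrable_condExp
      have h4 : Integrable (fun x => f x - e x) μ := hf.sub h3
      simp only [φ]
      rw [integral_sub h4.integrableOn (integrable_const ε),
        integral_sub hf.integrableOn h3.integrableOn, h1]
      simpa using mul_pos h2 hε
    refine maximal_ergodic hTD hφ hφi.integrableOn hneg ?_
    rw [Measure.restrict_apply' hDm]
    refine measure_mono_null (fun x hx => ?_) measure_empty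
    exact hx.2 ⟨0, fun n => by simpa using hx.1 n⟩
  filter_upwards [measure_eq_zero_iff_ae_notMem.1 hD0] with x hx
  obtain ⟨C, hC⟩ := not_not.1 hx
  exact ⟨C, fun n => by linarith [hC n, hsum n x]⟩

private theorem erg_ae (hT : MeasurePreserving T μ μ) {f : X → ℝ} (hm : Measurable f)
    (hf : Integrable f μ) : ∀ᵐ x ∂μ,
      Tendsto (fun n : ℕ => birkhoffSum T f n x / n) atTop (𝓝 ((μ[f|invariants T]) x)) := by
  have hp : ∀ k : ℕ, (0 : ℝ) < 1 / (k + 1) := fun k => by positivity
  filter_upwards [ae_all_iff.2 fun k => erg_upper hT hm hf (hp k),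
    ae_all_iff.2 fun k => erg_upper hT hm.neg hf.neg (hp k),
    condExp_neg (μ := μ) f (invariants T)] with x h1 h2 h3
  have key : ∀ (C ε : ℝ), 0 < ε → ∀ᶠ n : ℕ in atTop, C < ε * n := fun C ε hε =>
    (tendsto_natCast_atTop_atTop.const_mul_atTop hε).eventually_gt_atTop C
  refine tendsto_order.2 ⟨fun a ha => ?_, fun a ha => ?_⟩
  · obtain ⟨k, hk⟩ := exists_nat_one_div_lt (half_pos (sub_pos.2 ha))
    obtain ⟨C, hC⟩ := h2 k
    filter_upwards [key C _ (half_pos (sub_pos.2 ha)), eventually_gt_atTop 0] with n h4 h5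
    have h6 : (0 : ℝ) < n := by exact_mod_cast h5
    have h7 := hC n
    have h8 : birkhoffSum T (-f) n x = -birkhoffSum T f n x := birkhoffSum_neg T f n x
    have h9 : (μ[-f|invariants T]) x = -(μ[f|invariants T]) x := h3
    rw [lt_div_iff₀ h6]
    change birkhoffSum T (-f) n x ≤ C + ((μ[-f|invariants T]) x + _) * n at h7
    rw [h8, h9] at h7
    nlinarith
  · obtain ⟨k, hk⟩ := exists_nat_one_div_lt (half_pos (sub_pos.2 ha))
    obtain ⟨C, hC⟩ := h1 k
    filter_upwards [key C _ (half_pos (sub_pos.2 ha)), eventually_gt_atTop 0] with n h4 h5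
    have h6 : (0 : ℝ) < n := by exact_mod_cast h5
    have h7 := hC n
    rw [div_lt_iff₀ h6]
    nlinarith

/-- The pointwise ergodic theorem. -/
theorem birkhoff_ae (hT : MeasurePreserving T μ μ) {f : X → ℝ} (hf : Integrable f μ) :
    ∀ᵐ x ∂μ,
      Tendsto (fun n : ℕ => birkhoffSum T f n x / n) atTop (𝓝 ((μ[f|invariants T]) x)) := by
  have h1 := hf.1.ae_eq_mk
  filter_upwards [erg_ae hT hf.1.stronglyMeasurable_mk.measurable (hf.congr h1),
    ae_all_iff.2 fun n => hT.quasiMeasurePreserving.birkhoffSum_ae_eq_of_ae_eq h1 n,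
    condExp_congr_ae (m := invariants T) h1] with x h2 h3 h4
  rw [h4]
  exact h2.congr fun n => by rw [h3 n]

theorem condExp_invariants_of_ergodic [IsProbabilityMeasure μ] (hT : Ergodic T μ) (f : X → ℝ) :
    ∀ᵐ x ∂μ, (μ[f|invariants T]) x = ∫ y, f y ∂μ := by
  obtain ⟨c, hc⟩ := hT.toPreErgodic.ae_eq_const_of_ae_eq_comp
    (condExp_invariants_measurable μ T f) (funext (condExp_invariants_comp μ T f))
  have h1 : ∫ x, (μ[f|invariants T]) x ∂μ = ∫ y, f y ∂μ := integral_condExp (invariants_le T)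
  rw [integral_congr_ae hc] at h1
  filter_upwards [hc] with x hx
  rw [hx, ← h1]
  simp

/-- The pointwise ergodic theorem for an ergodic map. -/
theorem birkhoff_ergodic [IsProbabilityMeasure μ] (hT : Ergodic T μ) {f : X → ℝ}
    (hf : Integrable f μ) :
    ∀ᵐ x ∂μ, Tendsto (fun n : ℕ => birkhoffSum T f n x / n) atTop (𝓝 (∫ y, f y ∂μ)) := by
  filter_upwards [birkhoff_ae hT.toMeasurePreserving hf, condExp_invariants_of_ergodic hT f]
    with x h1 h2
  rwa [h2] at h1

private theorem erg_L1 (hT : MeasurePreserving T μ μ) {f : X → ℝ} (hf : Integrable f μ)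
    (h0 : ∀ x, 0 ≤ f x) : Tendsto (fun n : ℕ =>
      ∫ x, |birkhoffSum T f n x / n - (μ[f|invariants T]) x| ∂μ) atTop (𝓝 0) := by
  set e := μ[f|invariants T] with he
  have hei : Integrable e μ := integrable_condExp
  have he0 : ∀ᵐ x ∂μ, 0 ≤ e x := condExp_nonneg (Eventually.of_forall h0)
  have hi : ∀ n : ℕ, Integrable (fun x => e x - birkhoffSum T f n x / n) μ := fun n =>
    hei.sub ((integrable_birkhoffSum hT hf n).div_const _)
  have h1 : Tendsto (fun n : ℕ => ∫ x, max (e x - birkhoffSum T f n x / n) 0 ∂μ) atTop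
      (𝓝 (∫ _x, (0 : ℝ) ∂μ)) := by
    refine tendsto_integral_of_dominated_convergence e
      (fun n => ((hi n).sup (integrable_const 0)).aestronglyMeasurable) hei (fun n => ?_) ?_
    · filter_upwards [he0] with x hx
      have : 0 ≤ birkhoffSum T f n x / n :=
        div_nonneg (Finset.sum_nonneg fun i _ => h0 _) (Nat.cast_nonneg n)
      rw [Real.norm_eq_abs, abs_of_nonneg (le_max_right _ _)]
      exact max_le (by linarith) hx
    · filter_upwards [birkhoff_ae hT hf] with x hx
      have := ((tendsto_const_nhds (x := e x)).sub hx).max (tendsto_const_nhds (x := (0 : ℝ)))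
      rwa [← he, sub_self, max_self] at this
  rw [integral_zero] at h1
  have h2 := h1.const_mul 2
  rw [mul_zero] at h2
  refine h2.congr' ?_
  filter_upwards [eventually_gt_atTop 0] with n hn
  have h3 : (n : ℝ) ≠ 0 := by exact_mod_cast hn.ne'
  have h4 : ∫ x, (e x - birkhoffSum T f n x / n) ∂μ = 0 := by
    rw [integral_sub hei ((integrable_birkhoffSum hT hf n).div_const _), integral_div,
      integral_birkhoffSum hT hf, he, integral_condExp (invariants_le T)]
    field_simp
    ring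
  have h5 : ∀ x, |birkhoffSum T f n x / n - e x| =
      2 * max (e x - birkhoffSum T f n x / n) 0 - (e x - birkhoffSum T f n x / n) := fun x => by
    rcases le_total (e x - birkhoffSum T f n x / n) 0 with h | h
    · rw [max_eq_right h, abs_of_nonneg (by linarith)]; ring
    · rw [max_eq_left h, abs_of_nonpos (by linarith)]; ring
  simp only [h5]
  have h6 : Integrable (fun x => 2 * max (e x - birkhoffSum T f n x / n) 0) μ :=
    ((hi n).sup (integrable_const 0)).const_mul 2
  rw [integral_sub h6 (hi n), h4, sub_zero, integral_const_mul]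

/-- The ergodic theorem in `L¹`. -/
theorem birkhoff_L1 (hT : MeasurePreserving T μ μ) {f : X → ℝ} (hf : Integrable f μ) :
    Tendsto (fun n : ℕ =>
      ∫ x, |birkhoffSum T f n x / n - (μ[f|invariants T]) x| ∂μ) atTop (𝓝 0) := by
  have h1 := erg_L1 hT hf.pos_part fun x => le_max_right _ _
  have h2 := erg_L1 hT hf.neg_part fun x => le_max_right _ _
  have h3 := h1.add h2
  rw [add_zero] at h3
  have hi : ∀ {g : X → ℝ}, Integrable g μ → ∀ n : ℕ,
      Integrable (fun x => |birkhoffSum T g n x / n - (μ[g|invariants T]) x|) μ := fun hg n =>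
    (((integrable_birkhoffSum hT hg n).div_const _).sub integrable_condExp).abs
  refine squeeze_zero (fun n => integral_nonneg fun x => abs_nonneg _) (fun n => ?_) h3
  rw [← integral_add (hi hf.pos_part n) (hi hf.neg_part n)]
  refine integral_mono_ae (hi hf n) ((hi hf.pos_part n).add (hi hf.neg_part n)) ?_
  have e : f = (fun x => max (f x) 0) - fun x => max (-f x) 0 :=
    funext fun x => (max_zero_sub_max_neg_zero_eq_self (f x)).symm
  filter_upwards [condExp_sub hf.pos_part hf.neg_part (invariants T)] with x hx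
  rw [← e] at hx
  have h4 : birkhoffSum T f n x = birkhoffSum T (fun x => max (f x) 0) n x -
      birkhoffSum T (fun x => max (-f x) 0) n x := by
    rw [← birkhoffSum_sub, ← e]
  rw [hx, h4, Pi.sub_apply, sub_div, sub_sub_sub_comm]
  exact abs_sub _ _

/-- An integrable function grows sublinearly along almost every orbit. -/
theorem tendsto_iterate_div (hT : MeasurePreserving T μ μ) {f : X → ℝ} (hf : Integrable f μ) :
    ∀ᵐ x ∂μ, Tendsto (fun n : ℕ => f (T^[n] x) / n) atTop (𝓝 0) := by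
  filter_upwards [birkhoff_ae hT hf] with x hx
  have h1 : Tendsto (fun n : ℕ => ((n : ℝ) + 1) / n) atTop (𝓝 1) := by
    have := (tendsto_const_nhds (x := (1 : ℝ))).add tendsto_inv_atTop_nhds_zero_nat
    rw [add_zero] at this
    refine this.congr' ?_
    filter_upwards [eventually_gt_atTop 0] with n hn
    have h3 : (n : ℝ) ≠ 0 := by exact_mod_cast hn.ne'
    field_simp
  have h2 := (((tendsto_add_atTop_iff_nat 1).2 hx).mul h1).sub hx
  rw [mul_one, sub_self] at h2
  refine h2.congr fun n => ?_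
  have h3 : (n : ℝ) + 1 ≠ 0 := by positivity
  rw [birkhoffSum_succ]
  push_cast
  rw [div_mul_div_comm, mul_comm ((n : ℝ) + 1) (n : ℝ), mul_div_mul_right _ _ h3]
  ring

/-- A measurable function whose increments are integrable grows sublinearly along almost every
orbit. -/
theorem tendsto_iterate_div_of_sub (hT : MeasurePreserving T μ μ) {f : X → ℝ}
    (hm : AEMeasurable f μ) (hf : Integrable (fun x => f (T x) - f x) μ) :
    ∀ᵐ x ∂μ, Tendsto (fun n : ℕ => f (T^[n] x) / n) atTop (𝓝 0) := by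
  have hsum : ∀ (n : ℕ) x, birkhoffSum T (fun x => f (T x) - f x) n x = f (T^[n] x) - f x := by
    intro n x
    induction n with
    | zero => simp
    | succ n ih => rw [birkhoffSum_succ, ih, Function.iterate_succ_apply']; ring
  have hrec : ∀ k : ℕ, ∀ᵐ x ∂μ, x ∈ {x | |f x| ≤ k} → ∃ᶠ n in atTop, T^[n] x ∈ {x | |f x| ≤ k} :=
    fun k => hT.conservative.ae_mem_imp_frequently_image_mem
      (nullMeasurableSet_le (continuous_abs.measurable.comp_aemeasurable hm) aemeasurable_const)
  filter_upwards [birkhoff_ae hT hf, ae_all_iff.2 hrec] with x h1 h2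
  generalize (μ[fun x => f (T x) - f x|invariants T]) x = c at h1
  have h3 : Tendsto (fun n : ℕ => f (T^[n] x) / n) atTop (𝓝 c) := by
    have := h1.add (tendsto_const_div_atTop_nhds_zero_nat (f x))
    rw [add_zero] at this
    refine this.congr fun n => ?_
    rw [hsum]
    ring
  obtain ⟨k, hk⟩ := exists_nat_ge |f x|
  have h4 : |c| ≤ 0 := by
    refine le_of_tendsto_of_tendsto_of_frequently h3.abs
      (tendsto_const_div_atTop_nhds_zero_nat (k : ℝ)) ((h2 k hk).mono fun n hn => ?_)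
    rw [abs_div, Nat.abs_cast]
    exact div_le_div_of_nonneg_right hn (Nat.cast_nonneg n)
  rwa [abs_nonpos_iff.1 h4] at h3

end Pool.Agent.P.MP_d483fb_an.Z


end

section

/-!
Continuity of measure preserving actions, stabilisers of measures and of sets, and the
phenomenon of Mautner.
-/

namespace Pool.Agent.P.MP_d483fb_an.Z

open MeasureTheory Filter Set Topology TopologicalSpace
open scoped symmDiff

set_option linter.unusedSectionVars false

variable {X : Type*} [TopologicalSpace X] [PseudoMetrizableSpace X] [MeasurableSpace X]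
  [BorelSpace X] {μ : Measure X} [IsFiniteMeasure μ]

/-- Pointwise convergence of measure preserving maps implies convergence in `L¹`. -/
theorem tendsto_integral_comp_sub {I Y E : Type*} [MeasurableSpace Y] {ν : Measure Y}
    [IsFiniteMeasure ν] [NormedAddCommGroup E] [NormedSpace ℝ E] {l : Filter I}
    [l.IsCountablyGenerated] {g : I → Y → X} {g' : Y → X}
    (hg : ∀ᶠ i in l, MeasurePreserving (g i) ν μ) (hg' : MeasurePreserving g' ν μ)
    (h : ∀ᵐ y ∂ν, Tendsto (fun i => g i y) l (𝓝 (g' y))) {f : X → E} (hf : Integrable f μ) :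
    Tendsto (fun i => ∫ y, ‖f (g i y) - f (g' y)‖ ∂ν) l (𝓝 0) := by
  refine Metric.tendsto_nhds.2 fun ε hε => ?_
  obtain ⟨φ, h1, h2⟩ := hf.exists_boundedContinuous_integral_sub_le (ε := ε / 3) (by positivity)
  have h3 : Tendsto (fun i => ∫ y, ‖φ (g i y) - φ (g' y)‖ ∂ν) l (𝓝 (∫ _y, (0 : ℝ) ∂ν)) := by
    refine tendsto_integral_filter_of_dominated_convergence (fun _ => ‖φ‖ + ‖φ‖) ?_
      (Eventually.of_forall fun i => Eventually.of_forall fun y => ?_) (integrable_const _) ?_
    · filter_upwards [hg] with i hi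
      exact ((hi.integrable_comp_of_integrable h2).sub
        (hg'.integrable_comp_of_integrable h2)).norm.aestronglyMeasurable
    · rw [norm_norm]
      exact (norm_sub_le _ _).trans (add_le_add (φ.norm_coe_le_norm _) (φ.norm_coe_le_norm _))
    · filter_upwards [h] with y hy
      simpa using (((φ.continuous.tendsto _).comp hy).sub_const (φ (g' y))).norm
  rw [integral_zero] at h3
  filter_upwards [hg, h3.eventually_lt_const (by positivity : 0 < ε / 3)] with i hi h4
  have h5 : Integrable (fun x => ‖f x - φ x‖) μ := (hf.sub h2).norm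
  have a1 : Integrable (fun y => ‖f (g i y) - φ (g i y)‖) ν := hi.integrable_comp_of_integrable h5
  have a2 : Integrable (fun y => ‖f (g' y) - φ (g' y)‖) ν := hg'.integrable_comp_of_integrable h5
  have a3 : Integrable (fun y => ‖φ (g i y) - φ (g' y)‖) ν :=
    ((hi.integrable_comp_of_integrable h2).sub (hg'.integrable_comp_of_integrable h2)).norm
  have a4 : Integrable (fun y => ‖f (g i y) - φ (g i y)‖ + ‖φ (g i y) - φ (g' y)‖) ν := a1.add a3
  have h6 : ∫ y, ‖f (g i y) - f (g' y)‖ ∂ν ≤ ∫ y, (‖f (g i y) - φ (g i y)‖ +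
      ‖φ (g i y) - φ (g' y)‖ + ‖f (g' y) - φ (g' y)‖) ∂ν := by
    refine integral_mono ((hi.integrable_comp_of_integrable hf).sub
      (hg'.integrable_comp_of_integrable hf)).norm (a4.add a2) fun y => ?_
    have := norm_sub_le_norm_sub_add_norm_sub (f (g i y)) (φ (g i y)) (f (g' y))
    have := norm_sub_le_norm_sub_add_norm_sub (φ (g i y)) (φ (g' y)) (f (g' y))
    have := norm_sub_rev (φ (g' y)) (f (g' y))
    simp only
    linarith
  rw [integral_add a4 a2, integral_add a1 a3, integral_comp_mp hi h5.aestronglyMeasurable,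
    integral_comp_mp hg' h5.aestronglyMeasurable] at h6
  rw [Real.dist_eq, sub_zero, abs_of_nonneg (integral_nonneg fun y => norm_nonneg _)]
  linarith

variable {G : Type*} [Group G] [MulAction G X]

/-- The elements that preserve a measure. -/
def stabMeas (G : Type*) [Group G] {X : Type*} [MulAction G X] [MeasurableSpace X]
    [MeasurableConstSMul G X] (μ : Measure X) : Subgroup G where
  carrier := {g | MeasurePreserving (fun x => g • x) μ μ}
  one_mem' := by simpa using! MeasurePreserving.id μ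
  mul_mem' := fun {g h} hg hh => by simpa [Function.comp_def, mul_smul] using hg.comp hh
  inv_mem' := fun {g} hg => MeasurePreserving.symm (MeasurableEquiv.smul g) hg

theorem mem_stabMeas [MeasurableConstSMul G X] {g : G} :
    g ∈ stabMeas G μ ↔ MeasurePreserving (fun x => g • x) μ μ := Iff.rfl

/-- The elements that preserve a measure and the class of a function. -/
def stabFun (G : Type*) [Group G] {X E : Type*} [MulAction G X] [MeasurableSpace X]
    [MeasurableConstSMul G X] (μ : Measure X) (f : X → E) : Subgroup G where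
  carrier := {g | g ∈ stabMeas G μ ∧ ∀ᵐ x ∂μ, f (g • x) = f x}
  one_mem' := ⟨one_mem _, by simp⟩
  mul_mem' := fun {g h} hg hh => ⟨mul_mem hg.1 hh.1, by
    filter_upwards [hh.2, hh.1.quasiMeasurePreserving.ae hg.2] with x h1 h2
    rw [mul_smul, h2, h1]⟩
  inv_mem' := fun {g} hg => ⟨inv_mem hg.1, by
    filter_upwards [(inv_mem hg.1).quasiMeasurePreserving.ae hg.2] with x h1
    rw [← h1, smul_inv_smul]⟩

theorem mem_stabFun [MeasurableConstSMul G X] {E : Type*} {f : X → E} {g : G} :
    g ∈ stabFun G μ f ↔ MeasurePreserving (fun x => g • x) μ μ ∧ ∀ᵐ x ∂μ, f (g • x) = f x :=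
  Iff.rfl

/-- The elements that preserve a measure and the class of a set. -/
noncomputable def stabSet (G : Type*) [Group G] {X : Type*} [MulAction G X] [MeasurableSpace X]
    [MeasurableConstSMul G X] (μ : Measure X) (s : Set X) : Subgroup G :=
  stabFun G μ (s.indicator fun _ => (1 : ℝ))

theorem mem_stabSet [MeasurableConstSMul G X] {s : Set X} {g : G} :
    g ∈ stabSet G μ s ↔
      MeasurePreserving (fun x => g • x) μ μ ∧ (fun x => g • x) ⁻¹' s =ᵐ[μ] s := by
  rw [← indicator_const_eventuallyEq (one_ne_zero (α := ℝ))]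
  rfl

variable [TopologicalSpace G] [ContinuousSMul G X] [FirstCountableTopology G]

theorem isClosed_stabMeas : IsClosed (stabMeas G μ : Set G) := by
  have e : (stabMeas G μ : Set G) =
      ⋂ φ : BoundedContinuousFunction X ℝ, {g | ∫ x, φ (g • x) ∂μ = ∫ x, φ x ∂μ} := by
    refine Subset.antisymm (fun g hg => mem_iInter.2 fun φ =>
      integral_comp_mp hg φ.continuous.aestronglyMeasurable) fun g hg => ?_
    refine ⟨measurable_const_smul g, ext_of_forall_integral_eq_of_IsFiniteMeasure fun φ => ?_⟩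
    rw [integral_map (measurable_const_smul g).aemeasurable φ.continuous.aestronglyMeasurable]
    exact mem_iInter.1 hg φ
  rw [e]
  refine isClosed_iInter fun φ => isClosed_eq (continuous_of_dominated (bound := fun _ => ‖φ‖)
    (fun g => (φ.continuous.comp (continuous_const_smul g)).aestronglyMeasurable)
    (fun g => Eventually.of_forall fun x => φ.norm_coe_le_norm _) (integrable_const _)
    (Eventually.of_forall fun x => by fun_prop)) continuous_const

variable {E : Type*} [NormedAddCommGroup E] [NormedSpace ℝ E] {f : X → E}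

/-- Continuity of the action on integrable functions. -/
theorem tendsto_integral_smul_sub {I : Type*} {l : Filter I} [l.IsCountablyGenerated] {g : I → G}
    {g' : G} (hg : ∀ᶠ i in l, g i ∈ stabMeas G μ) (hg' : g' ∈ stabMeas G μ)
    (h : Tendsto g l (𝓝 g')) (hf : Integrable f μ) :
    Tendsto (fun i => ∫ x, ‖f (g i • x) - f (g' • x)‖ ∂μ) l (𝓝 0) :=
  tendsto_integral_comp_sub (g := fun i x => g i • x) hg hg'
    (Eventually.of_forall fun x => h.smul_const x) hf

private theorem mau_zero (hf : Integrable f μ) {g : G} (hg : g ∈ stabMeas G μ)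
    (h : ∫ x, ‖f x - f (g • x)‖ ∂μ = 0) : g ∈ stabFun G μ f := by
  refine ⟨hg, ?_⟩
  filter_upwards [(integral_eq_zero_iff_of_nonneg (fun x => norm_nonneg _)
    (hf.sub (hg.integrable_comp_of_integrable hf)).norm).1 h] with x hx
  exact (sub_eq_zero.1 (norm_eq_zero.1 hx)).symm

theorem isClosed_stabFun (hf : Integrable f μ) : IsClosed (stabFun G μ f : Set G) := by
  refine isClosed_of_closure_subset fun g hg => ?_
  obtain ⟨u, h1, h2⟩ := mem_closure_iff_seq_limit.1 hg
  have h3 : g ∈ stabMeas G μ :=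
    isClosed_stabMeas.mem_of_tendsto h2 (Eventually.of_forall fun n => (h1 n).1)
  refine mau_zero hf h3 (tendsto_nhds_unique tendsto_const_nhds
    ((tendsto_integral_smul_sub (Eventually.of_forall fun n => (h1 n).1) h3 h2 hf).congr
      fun n => integral_congr_ae ?_))
  filter_upwards [(h1 n).2] with x hx
  rw [hx]

theorem isClosed_stabSet {s : Set X} (hs : MeasurableSet s) : IsClosed (stabSet G μ s : Set G) :=
  isClosed_stabFun ((integrable_const _).indicator hs)

/-- The phenomenon of Mautner. -/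
theorem mautner_fun (hf : Integrable f μ) {a : ℕ → G} {u : G} (ha : ∀ n, a n ∈ stabFun G μ f)
    (hu : u ∈ stabMeas G μ) (h : Tendsto (fun n => a n * u * (a n)⁻¹) atTop (𝓝 1)) :
    u ∈ stabFun G μ f := by
  have h1 : ∀ n, a n * u * (a n)⁻¹ ∈ stabMeas G μ := fun n =>
    mul_mem (mul_mem (ha n).1 hu) (inv_mem (ha n).1)
  refine mau_zero hf hu (tendsto_nhds_unique tendsto_const_nhds
    ((tendsto_integral_smul_sub (Eventually.of_forall h1) (one_mem _) h hf).congr fun n => ?_))
  have h2 : Integrable (fun x => ‖f ((a n * u * (a n)⁻¹) • x) - f ((1 : G) • x)‖) μ :=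
    (((h1 n).integrable_comp_of_integrable hf).sub
      ((one_mem (stabMeas G μ)).integrable_comp_of_integrable hf)).norm
  rw [← integral_comp_mp (ha n).1 h2.aestronglyMeasurable]
  refine integral_congr_ae ?_
  filter_upwards [(ha n).2, hu.quasiMeasurePreserving.ae (ha n).2] with x e1 e2
  rw [one_smul, mul_smul, inv_smul_smul, mul_smul, e1, e2, norm_sub_rev]

/-- The phenomenon of Mautner for sets. -/
theorem mautner {s : Set X} (hs : MeasurableSet s) {a u : G} (ha : a ∈ stabSet G μ s)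
    (hu : u ∈ stabMeas G μ) (h : Tendsto (fun n : ℕ => a ^ n * u * (a ^ n)⁻¹) atTop (𝓝 1)) :
    u ∈ stabSet G μ s :=
  mautner_fun ((integrable_const _).indicator hs) (fun n => pow_mem ha n) hu h

end Pool.Agent.P.MP_d483fb_an.Z


end

section

/-!
Sublinear growth of a coarsely Lipschitz integrable function along the orbits of a vector group.
-/

namespace Pool.Agent.P.MP_d483fb_an.Z

open MeasureTheory Filter Set Topology

theorem act_nsmul {X A : Type*} [AddMonoid A] {φ : A → X → X} (h0 : ∀ x, φ 0 x = x)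
    (hadd : ∀ a b x, φ (a + b) x = φ a (φ b x)) (u : A) (n : ℕ) (x : X) :
    φ (n • u) x = (φ u)^[n] x := by
  induction n generalizing x with
  | zero => rw [zero_nsmul, h0]; rfl
  | succ n ih => rw [succ_nsmul, hadd, ih]; rfl

theorem exists_le_of_tendsto_div {u : ℕ → ℝ} (h : Tendsto (fun n : ℕ => u n / n) atTop (𝓝 0))
    {ε : ℝ} (hε : 0 < ε) : ∃ C : ℝ, ∀ n : ℕ, u n ≤ C + ε * n := by
  obtain ⟨N, hN⟩ := eventually_atTop.1 (h.eventually_lt_const hε)
  obtain ⟨C, hC⟩ := ((finite_le_nat N).image u).bddAbove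
  refine ⟨max C 0, fun n => ?_⟩
  have h1 : 0 ≤ ε * n := by positivity
  rcases le_or_gt n N with h2 | h2
  · linarith [hC ⟨n, h2, rfl⟩, le_max_left C 0]
  · have h3 : (0 : ℝ) < n := by exact_mod_cast (Nat.zero_le N).trans_lt h2
    have h4 := hN n h2.le
    rw [div_lt_iff₀ h3] at h4
    linarith [le_max_right C 0]

/-- Every vector is close to a natural multiple of an element of a finite set. -/
theorem exists_direction_net (A : Type*) [NormedAddCommGroup A] [NormedSpace ℝ A]
    [FiniteDimensional ℝ A] {ε : ℝ} (hε : 0 < ε) : ∃ F : Set A, F.Finite ∧ (∀ u ∈ F, ‖u‖ ≤ 1) ∧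
      ∀ s : A, ∃ u ∈ F, ∃ n : ℕ, (n : ℝ) ≤ ‖s‖ + 1 ∧ ‖s - n • u‖ ≤ ε * (‖s‖ + 1) := by
  obtain ⟨F, h1, h2, h3⟩ := finite_cover_balls_of_compact (isCompact_closedBall (0 : A) 1) hε
  refine ⟨F, h2, fun u hu => by simpa using h1 hu, fun s => ?_⟩
  have h4 : (⌊‖s‖⌋₊ : ℝ) ≤ ‖s‖ := Nat.floor_le (norm_nonneg s)
  have h5 : ‖s‖ < ⌊‖s‖⌋₊ + 1 := Nat.lt_floor_add_one _
  have h6 : (0 : ℝ) < ⌊‖s‖⌋₊ + 1 := by positivity
  have h7 : ((⌊‖s‖⌋₊ : ℝ) + 1)⁻¹ • s ∈ Metric.closedBall (0 : A) 1 := by
    rw [mem_closedBall_zero_iff, norm_smul, norm_inv, Real.norm_of_nonneg h6.le,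
      inv_mul_le_iff₀ h6]
    linarith
  obtain ⟨u, hu, h8⟩ := mem_iUnion₂.1 (h3 h7)
  refine ⟨u, hu, ⌊‖s‖⌋₊ + 1, by push_cast; linarith, ?_⟩
  have e : s - (⌊‖s‖⌋₊ + 1) • u = ((⌊‖s‖⌋₊ : ℝ) + 1) • (((⌊‖s‖⌋₊ : ℝ) + 1)⁻¹ • s - u) := by
    rw [smul_sub, smul_inv_smul₀ h6.ne', ← Nat.cast_smul_eq_nsmul ℝ]
    push_cast
    rfl
  rw [e, norm_smul, Real.norm_of_nonneg h6.le, mul_comm]
  rw [Metric.mem_ball, dist_eq_norm] at h8
  exact mul_le_mul h8.le (by linarith) h6.le hε.le

/-- An integrable function that is coarsely Lipschitz along the orbits of a vector group grows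
sublinearly along almost every orbit. -/
theorem tempered_of_lipschitz {X A : Type*} [MeasurableSpace X] {μ : Measure X}
    [IsFiniteMeasure μ] [NormedAddCommGroup A] [NormedSpace ℝ A]
    [FiniteDimensional ℝ A] {φ : A → X → X} (h0 : ∀ x, φ 0 x = x)
    (hadd : ∀ a b x, φ (a + b) x = φ a (φ b x)) (hmp : ∀ a, MeasurePreserving (φ a) μ μ)
    {h : X → ℝ} (hi : Integrable h μ) {L : ℝ} (hL0 : 0 ≤ L)
    (hL : ∀ s x, h (φ s x) ≤ h x + L * (‖s‖ + 1)) :
    ∀ᵐ x ∂μ, ∀ ε : ℝ, 0 < ε → ∃ C : ℝ, ∀ s, h (φ s x) ≤ C + ε * ‖s‖ := by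
  have hp : ∀ k : ℕ, (0 : ℝ) < 1 / (k + 1) := fun k => by positivity
  choose F hF _ hnet using fun k => exists_direction_net A (hp k)
  have h1 : ∀ k, ∀ᵐ x ∂μ, ∀ u ∈ F k,
      Tendsto (fun n : ℕ => h ((φ u)^[n] x) / n) atTop (𝓝 0) := fun k =>
    (ae_ball_iff (hF k).countable).2 fun u _ => tendsto_iterate_div (hmp u) hi
  filter_upwards [ae_all_iff.2 h1] with x hx ε hε
  obtain ⟨k, hk⟩ := exists_nat_one_div_lt (div_pos hε (by positivity : 0 < L + 1))
  have h2 : ∀ u : F k, ∃ C : ℝ, ∀ n : ℕ, h ((φ u)^[n] x) ≤ C + 1 / (k + 1) * n := fun u =>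
    exists_le_of_tendsto_div (hx k u u.2) (hp k)
  choose C hC using h2
  have := (hF k).to_subtype
  obtain ⟨D, hD⟩ := (finite_range C).bddAbove
  refine ⟨D + ε + L, fun s => ?_⟩
  obtain ⟨u, hu, n, h3, h4⟩ := hnet k s
  have h5 := hL (s - n • u) (φ (n • u) x)
  rw [← hadd, sub_add_cancel, act_nsmul h0 hadd] at h5
  have h6 := hC ⟨u, hu⟩ n
  have h7 : C ⟨u, hu⟩ ≤ D := hD ⟨_, rfl⟩
  have h8 := hp k
  generalize (1 : ℝ) / (k + 1) = δ at *
  rw [lt_div_iff₀ (by positivity)] at hk
  have h9 := mul_le_mul_of_nonneg_left h4 hL0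
  have h10 := mul_le_mul_of_nonneg_left h3 h8.le
  have h11 := mul_le_mul_of_nonneg_right hk.le (by positivity : 0 ≤ ‖s‖ + 1)
  simp only at h6
  nlinarith

end Pool.Agent.P.MP_d483fb_an.Z


end

section

/-!
Almost every element of an ergodic action of a vector group is ergodic.
-/

namespace Pool.Agent.P.MP_d483fb_an.Z

open MeasureTheory Filter Set Topology
open scoped RealInnerProductSpace

set_option linter.unusedSectionVars false

variable {A : Type*} [NormedAddCommGroup A] [NormedSpace ℝ A] [FiniteDimensional ℝ A]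
  [MeasurableSpace A] [BorelSpace A] (ν : Measure A) [ν.IsAddHaarMeasure]

section Hilbert

variable {H : Type*} [NormedAddCommGroup H] [InnerProductSpace ℝ H] [CompleteSpace H]
  {U : A → H →L[ℝ] H}

private theorem gen_rho_cont (R : ℝ) : Continuous fun a : A => max 0 (R - ‖a‖) := by fun_prop

private theorem gen_rho_int (R : ℝ) : Integrable (fun a : A => max 0 (R - ‖a‖)) ν := by
  refine (gen_rho_cont R).integrable_of_hasCompactSupport
    (HasCompactSupport.intro (isCompact_closedBall (0 : A) R) fun a ha => max_eq_left ?_)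
  rw [mem_closedBall_zero_iff] at ha
  linarith [not_le.1 ha]

private theorem gen_rho_shift (R : ℝ) {t : A} (ht : ‖t‖ ≤ 1) :
    ∫ a, |max 0 (R - ‖a - t‖) - max 0 (R - ‖a‖)| ∂ν ≤
      ‖t‖ * ν.real (Metric.closedBall (0 : A) (R + 1)) := by
  rw [mul_comm, ← smul_eq_mul, ← setIntegral_const, ← integral_indicator measurableSet_closedBall]
  refine integral_mono (((gen_rho_int ν R).comp_sub_right t).sub (gen_rho_int ν R)).abs
    ((integrable_indicator_iff measurableSet_closedBall).2
      (integrableOn_const measure_closedBall_lt_top.ne)) fun a => ?_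
  have h1 := abs_le.1 (abs_norm_sub_norm_le (a - t) a)
  rw [sub_sub_cancel_left, norm_neg] at h1
  by_cases ha : a ∈ Metric.closedBall (0 : A) (R + 1)
  · rw [indicator_of_mem ha, max_comm 0, max_comm 0]
    exact (abs_max_sub_max_le_abs _ _ _).trans (abs_le.2 ⟨by linarith, by linarith⟩)
  · rw [indicator_of_notMem ha]
    rw [mem_closedBall_zero_iff, not_le] at ha
    simp only
    rw [max_eq_left (by linarith), max_eq_left (by linarith), sub_self, abs_zero]

private theorem gen_bound (hn : ∀ a, ‖U a‖ ≤ 1) (a : A) (f g : H) : |⟪U a f, g⟫| ≤ ‖f‖ * ‖g‖ :=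
  (abs_real_inner_le_norm _ _).trans (mul_le_mul_of_nonneg_right
    (((U a).le_opNorm f).trans (mul_le_of_le_one_left (norm_nonneg _) (hn a))) (norm_nonneg _))

private theorem gen_int {w : A → ℝ} (hw : Integrable w ν) {χ : A → ℝ} (hχ : Measurable χ) {M : ℝ}
    (hM : ∀ a, |χ a| ≤ M) : Integrable (fun a => w a * χ a) ν :=
  hw.mul_bdd hχ.aestronglyMeasurable (Eventually.of_forall hM)

private theorem gen_abs {w : A → ℝ} (hw : Integrable w ν) {χ : A → ℝ} {M : ℝ}
    (hM : ∀ a, |χ a| ≤ M) : |∫ a, w a * χ a ∂ν| ≤ (∫ a, |w a| ∂ν) * M := by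
  rw [← integral_mul_const, ← Real.norm_eq_abs]
  refine norm_integral_le_of_norm_le (hw.abs.mul_const M) (Eventually.of_forall fun a => ?_)
  rw [Real.norm_eq_abs, abs_mul]
  exact mul_le_mul_of_nonneg_left (hM a) (abs_nonneg _)

private theorem gen_decay (hadd : ∀ a b f, U (a + b) f = U a (U b f)) (hn : ∀ a, ‖U a‖ ≤ 1)
    (hm : ∀ f g, Measurable fun a => ⟪U a f, g⟫) (R : ℝ) (g : H) {f : H}
    (hf : ∀ v, (∀ b, U b v = v) → ⟪v, f⟫ = 0) :
    Tendsto (fun n : ℕ => ∫ a, max 0 (R - ‖a‖) * ⟪U (n • a) f, g⟫ ∂ν) atTop (𝓝 0) := by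
  have hmn : ∀ (n : ℕ) f, Measurable fun a : A => ⟪U (n • a) f, g⟫ := fun n f =>
    (hm f g).comp (continuous_nsmul n).measurable
  have hi : ∀ (n : ℕ) f, Integrable (fun a => max 0 (R - ‖a‖) * ⟪U (n • a) f, g⟫) ν := fun n f =>
    gen_int ν (gen_rho_int ν R) (hmn n f) fun a => gen_bound hn _ f g
  let I : ℕ → H →ₗ[ℝ] ℝ := fun n =>
    { toFun := fun f => ∫ a, max 0 (R - ‖a‖) * ⟪U (n • a) f, g⟫ ∂ν
      map_add' := fun f f' => by
        rw [← integral_add (hi n f) (hi n f')]
        simp only [map_add, inner_add_left, mul_add]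
      map_smul' := fun c f => by
        simp only [map_smul, real_inner_smul_left, RingHom.id_apply, smul_eq_mul,
          ← integral_const_mul, mul_left_comm] }
  obtain ⟨C, hC0, hC⟩ : ∃ C : ℝ, 0 < C ∧ ∀ n f, |I n f| ≤ C * ‖f‖ := by
    refine ⟨(∫ a : A, |max 0 (R - ‖a‖)| ∂ν) * ‖g‖ + 1, ?_, fun n f => ?_⟩
    · have : 0 ≤ ∫ a : A, |max 0 (R - ‖a‖)| ∂ν := integral_nonneg fun a => abs_nonneg _
      positivity
    · refine (gen_abs ν (gen_rho_int ν R) fun a => gen_bound hn _ f g).trans ?_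
      nlinarith [norm_nonneg f]
  let Z : Submodule ℝ H :=
    { carrier := {f | Tendsto (fun n => I n f) atTop (𝓝 0)}
      add_mem' := fun {f f'} h1 h2 => by simpa using h1.add h2
      zero_mem' := by simp
      smul_mem' := fun c f h1 => by simpa using h1.const_mul c }
  have hZ : IsClosed (Z : Set H) := by
    refine isClosed_of_closure_subset fun f h1 => Metric.tendsto_nhds.2 fun ε hε => ?_
    obtain ⟨f', h2, h3⟩ := Metric.mem_closure_iff.1 h1 (ε / 2 / C) (by positivity)
    filter_upwards [Metric.tendsto_nhds.1 h2 (ε / 2) (by positivity)] with n h4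
    have h5 := hC n (f - f')
    rw [dist_eq_norm, lt_div_iff₀ hC0] at h3
    rw [map_sub] at h5
    rw [Real.dist_eq, sub_zero] at h4 ⊢
    linarith [abs_sub_abs_le_abs_sub (I n f) (I n f')]
  have hcob : ∀ b f, U b f - f ∈ Z := fun b f => by
    have h1 : Tendsto (fun n : ℕ => ‖(n : ℝ)⁻¹ • b‖) atTop (𝓝 0) := by
      simpa using ((tendsto_inv_atTop_nhds_zero_nat (𝕜 := ℝ)).smul_const b).norm
    have h2 := (h1.mul_const (ν.real (Metric.closedBall (0 : A) (R + 1)))).mul_const (‖f‖ * ‖g‖)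
    rw [zero_mul, zero_mul] at h2
    refine squeeze_zero_norm' ?_ h2
    filter_upwards [h1.eventually_le_const one_pos, eventually_gt_atTop 0] with n h3 h4
    have h5 : (n : ℝ) ≠ 0 := by exact_mod_cast h4.ne'
    have e1 : I n (U b f) = ∫ a, max 0 (R - ‖a - (n : ℝ)⁻¹ • b‖) * ⟪U (n • a) f, g⟫ ∂ν := by
      rw [← integral_add_right_eq_self _ ((n : ℝ)⁻¹ • b)]
      refine integral_congr_ae (Eventually.of_forall fun a => ?_)
      simp only [add_sub_cancel_right, nsmul_add, hadd]
      rw [← Nat.cast_smul_eq_nsmul ℝ n ((n : ℝ)⁻¹ • b), smul_inv_smul₀ h5]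
    have h6 := (gen_rho_int ν R).comp_sub_right ((n : ℝ)⁻¹ • b)
    have e2 : I n (U b f - f) = ∫ a, (max 0 (R - ‖a - (n : ℝ)⁻¹ • b‖) - max 0 (R - ‖a‖)) *
        ⟪U (n • a) f, g⟫ ∂ν := by
      rw [map_sub, e1]
      simp only [sub_mul]
      exact (integral_sub (gen_int ν h6 (hmn n f) fun a => gen_bound hn _ f g) (hi n f)).symm
    rw [e2, Real.norm_eq_abs]
    exact (gen_abs ν (h6.sub (gen_rho_int ν R)) fun a => gen_bound hn _ f g).trans
      (mul_le_mul_of_nonneg_right (gen_rho_shift ν R h3) (by positivity))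
  have : CompleteSpace Z := hZ.completeSpace_coe
  have h7 : f ∈ Zᗮᗮ := (Submodule.mem_orthogonal _ _).2 fun v hv => hf v fun b => by
    have h8 := (Submodule.mem_orthogonal _ _).1 hv _ (hcob b v)
    rw [inner_sub_left, sub_eq_zero, real_inner_self_eq_norm_sq] at h8
    exact eq_of_norm_le_re_inner_eq_norm_sq (𝕜 := ℝ)
      (((U b).le_opNorm v).trans (mul_le_of_le_one_left (norm_nonneg _) (hn b))) h8
  rwa [Submodule.orthogonal_orthogonal] at h7

private theorem gen_one (h0 : ∀ f, U 0 f = f) (hadd : ∀ a b f, U (a + b) f = U a (U b f))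
    (hn : ∀ a, ‖U a‖ ≤ 1) (hm : ∀ f g, Measurable fun a => ⟪U a f, g⟫) {g : H}
    (hg : ∀ v, (∀ b, U b v = v) → ⟪v, g⟫ = 0) : ∀ᵐ a ∂ν, ∀ v, U a v = v → ⟪v, g⟫ = 0 := by
  let P : A → H := fun a => ((U a).eqLocus (1 : H →L[ℝ] H)).starProjection g
  let c : ℕ → A → ℝ := fun N a => (N : ℝ)⁻¹ * ∑ n ∈ Finset.range N, ⟪U (n • a) g, g⟫
  have hc : ∀ a, Tendsto (fun N => c N a) atTop (𝓝 (‖P a‖ ^ 2)) := fun a => by
    have h1 := ((U a).tendsto_birkhoffAverage_orthogonalProjection (hn a) g).inner (𝕜 := ℝ)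
      (tendsto_const_nhds (x := g))
    have h2 : ⟪P a, g⟫ = ‖P a‖ ^ 2 := by
      have := Submodule.starProjection_inner_eq_zero (K := (U a).eqLocus (1 : H →L[ℝ] H)) g (P a)
        (Submodule.starProjection_apply_mem _ g)
      rw [inner_sub_left, sub_eq_zero, real_inner_self_eq_norm_sq, real_inner_comm] at this
      exact this
    rw [← h2]
    refine h1.congr fun N => ?_
    simp only [birkhoffAverage, birkhoffSum, real_inner_smul_left, sum_inner, id, c,
      act_nsmul (φ := fun a f => U a f) h0 hadd]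
  have hcm : ∀ N, Measurable (c N) := fun N => measurable_const.mul
    (Finset.measurable_sum _ fun n _ => (hm g g).comp (continuous_nsmul n).measurable)
  have hcb : ∀ N a, |c N a| ≤ ‖g‖ * ‖g‖ := fun N a => by
    rcases N.eq_zero_or_pos with rfl | hN
    · simp [c, mul_self_nonneg]
    · have h1 : (0 : ℝ) < N := by exact_mod_cast hN
      rw [abs_mul, abs_inv, Nat.abs_cast, inv_mul_le_iff₀ h1]
      refine (Finset.abs_sum_le_sum_abs _ _).trans ?_
      simpa using Finset.sum_le_card_nsmul (Finset.range N) _ _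
        fun n _ => gen_bound hn (n • a) g g
  have hpm : Measurable fun a => ‖P a‖ ^ 2 :=
    measurable_of_tendsto_metrizable hcm (tendsto_pi_nhds.2 hc)
  have hR : ∀ R : ℕ, ∀ᵐ a ∂ν, max 0 ((R : ℝ) - ‖a‖) * ‖P a‖ ^ 2 = 0 := fun R => by
    have h1 : Tendsto (fun N => ∫ a, max 0 ((R : ℝ) - ‖a‖) * c N a ∂ν) atTop
        (𝓝 (∫ a, max 0 ((R : ℝ) - ‖a‖) * ‖P a‖ ^ 2 ∂ν)) := by
      refine tendsto_integral_of_dominated_convergence
        (fun a => max 0 ((R : ℝ) - ‖a‖) * (‖g‖ * ‖g‖))
        (fun N => (gen_int ν (gen_rho_int ν R) (hcm N) (hcb N)).aestronglyMeasurable)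
        ((gen_rho_int ν R).mul_const _) (fun N => Eventually.of_forall fun a => ?_)
        (Eventually.of_forall fun a => (hc a).const_mul _)
      rw [Real.norm_eq_abs, abs_mul, abs_of_nonneg (le_max_left _ _)]
      exact mul_le_mul_of_nonneg_left (hcb N a) (le_max_left _ _)
    have h2 := (gen_decay ν hadd hn hm R g hg).cesaro
    have h3 : ∫ a, max 0 ((R : ℝ) - ‖a‖) * ‖P a‖ ^ 2 ∂ν = 0 := by
      refine tendsto_nhds_unique h1 (h2.congr fun N => ?_)
      rw [← integral_finsetSum (f := fun n a => max 0 ((R : ℝ) - ‖a‖) * ⟪U (n • a) g, g⟫) _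
        fun n _ => gen_int ν (gen_rho_int ν R)
        ((hm g g).comp (continuous_nsmul n).measurable) fun a => gen_bound hn _ g g,
        ← integral_const_mul]
      refine integral_congr_ae (Eventually.of_forall fun a => ?_)
      simp only [c, ← Finset.mul_sum]
      ring
    exact (integral_eq_zero_iff_of_nonneg (fun a => mul_nonneg (le_max_left _ _) (sq_nonneg _))
      (gen_int ν (gen_rho_int ν R) hpm fun a => le_of_tendsto' (hc a).abs fun N => hcb N a)).1 h3
  filter_upwards [ae_all_iff.2 hR] with a ha v hv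
  obtain ⟨R, h1⟩ := exists_nat_gt ‖a‖
  have h2 : P a = 0 := by
    have := (mul_eq_zero.1 (ha R)).resolve_left (lt_max_of_lt_right (sub_pos.2 h1)).ne'
    simpa using this
  have h3 := Submodule.starProjection_inner_eq_zero (K := (U a).eqLocus (1 : H →L[ℝ] H)) g v hv
  change ⟪g - P a, v⟫ = 0 at h3
  rwa [h2, sub_zero, real_inner_comm] at h3

/-- For almost every element of a vector group acting on a separable Hilbert space by
contractions, the fixed vectors are fixed by the whole group. -/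
theorem ae_fixed_iff [SecondCountableTopology H] (h0 : ∀ f, U 0 f = f)
    (hadd : ∀ a b f, U (a + b) f = U a (U b f)) (hn : ∀ a, ‖U a‖ ≤ 1)
    (hm : ∀ f g, Measurable fun a => ⟪U a f, g⟫) :
    ∀ᵐ a ∂ν, ∀ v, U a v = v → ∀ b, U b v = v := by
  let W : Submodule ℝ H := ⨅ b, (U b).eqLocus (1 : H →L[ℝ] H)
  have hW : ∀ v, v ∈ W ↔ ∀ b, U b v = v := fun v => Submodule.mem_iInf _
  have hc : IsClosed (W : Set H) := by
    rw [Submodule.coe_iInf]
    exact isClosed_iInter fun b => isClosed_eq (U b).continuous continuous_id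
  have : CompleteSpace W := hc.completeSpace_coe
  obtain ⟨D, h2, h1, h3⟩ :=
    (TopologicalSpace.IsSeparable.of_separableSpace (Wᗮ : Set H)).exists_countable_dense_subset
  filter_upwards [(ae_ball_iff h1).2 fun g hg => gen_one ν h0 hadd hn hm (g := g) fun v hv =>
    (Submodule.mem_orthogonal _ _).1 (h2 hg) v ((hW v).2 hv)] with a ha v hv
  rw [← hW, ← W.orthogonal_orthogonal]
  refine (Submodule.mem_orthogonal' _ _).2 fun g hg => ?_
  exact closure_minimal (t := {g | ⟪v, g⟫ = 0}) (fun g hg => ha g hg v hv)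
    (isClosed_eq (by fun_prop) continuous_const) (h3 hg)

end Hilbert

variable {X : Type*} [MeasurableSpace X] [MeasurableSpace.CountablyGenerated X] {μ : Measure X}
  [IsFiniteMeasure μ] {φ : A → X → X}

/-- The operators on `L²` of a family of measure preserving maps. -/
theorem exists_koopman {I Y : Type*} [MeasurableSpace Y] {m : Measure Y} {ψ : I → Y → Y}
    (hmp : ∀ a, MeasurePreserving (ψ a) m m) : ∃ U : I → Lp ℝ 2 m →L[ℝ] Lp ℝ 2 m,
      (∀ a f, U a f =ᵐ[m] fun x => f (ψ a x)) ∧ (∀ a, ‖U a‖ ≤ 1) ∧ ∀ a f, ‖U a f‖ = ‖f‖ := by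
  refine ⟨fun a => (Lp.compMeasurePreservingₗᵢ ℝ (ψ a) (hmp a)).toContinuousLinearMap,
    fun a f => ?_, fun a => LinearIsometry.norm_toContinuousLinearMap_le _,
    fun a f => LinearIsometry.norm_map _ f⟩
  exact Lp.coeFn_compMeasurePreserving f (hmp a)

theorem koopman_indicator {Y : Type*} [MeasurableSpace Y] {m : Measure Y} {S : Y → Y}
    (hS : MeasurePreserving S m m) {s : Set Y} {e e' : Lp ℝ 2 m}
    (h : e =ᵐ[m] s.indicator fun _ => 1) (h' : e' =ᵐ[m] fun x => e (S x)) :
    e' = e ↔ S ⁻¹' s =ᵐ[m] s := by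
  have e2 : e' =ᵐ[m] (S ⁻¹' s).indicator fun _ => (1 : ℝ) :=
    h'.trans (hS.quasiMeasurePreserving.ae h)
  rw [← indicator_const_eventuallyEq (one_ne_zero (α := ℝ))]
  exact ⟨fun h1 => e2.symm.trans (h1 ▸ h), fun h1 => Lp.ext (e2.trans (h1.trans h.symm))⟩

theorem measurable_koopman_inner {I Y : Type*} [MeasurableSpace I] [MeasurableSpace Y]
    {m : Measure Y} [SFinite m] {ψ : I → Y → Y} (hm : Measurable fun p : I × Y => ψ p.1 p.2)
    {U : I → Lp ℝ 2 m →L[ℝ] Lp ℝ 2 m} (hU : ∀ a f, U a f =ᵐ[m] fun x => f (ψ a x))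
    (f g : Lp ℝ 2 m) : Measurable fun a => ⟪U a f, g⟫ := by
  have e : (fun a => ⟪U a f, g⟫) = fun a => ∫ x, g x * f (ψ a x) ∂m := funext fun a => by
    rw [L2.inner_def]
    refine integral_congr_ae ?_
    filter_upwards [hU a f] with x hx
    rw [hx]
    rfl
  have h1 : Measurable fun p : I × Y => g p.2 * f (ψ p.1 p.2) :=
    ((Lp.stronglyMeasurable g).measurable.comp measurable_snd).mul
      ((Lp.stronglyMeasurable f).measurable.comp hm)
  rw [e]
  exact h1.stronglyMeasurable.integral_prod_right'.measurable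

/-- For almost every element of a vector group the invariant sets are invariant under the whole
group. -/
theorem ae_invariant_iff (h0 : ∀ x, φ 0 x = x) (hadd : ∀ a b x, φ (a + b) x = φ a (φ b x))
    (hmp : ∀ a, MeasurePreserving (φ a) μ μ) (hm : Measurable fun p : A × X => φ p.1 p.2) :
    ∀ᵐ a ∂ν, ∀ s, MeasurableSet s → φ a ⁻¹' s =ᵐ[μ] s → ∀ b, φ b ⁻¹' s =ᵐ[μ] s := by
  have : Fact ((2 : ENNReal) ≠ ⊤) := ⟨ENNReal.ofNat_ne_top⟩
  obtain ⟨U, hU, hn, -⟩ := exists_koopman hmp
  have h1 : ∀ f, U 0 f = f := fun f => Lp.ext ((hU 0 f).trans (by simp [h0]))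
  have h2 : ∀ a b f, U (a + b) f = U a (U b f) := fun a b f => Lp.ext (by
    filter_upwards [hU (a + b) f, hU a (U b f), (hmp a).quasiMeasurePreserving.ae (hU b f)]
      with x e1 e2 e3
    rw [e1, e2, e3, add_comm, hadd])
  filter_upwards [ae_fixed_iff ν h1 h2 hn (measurable_koopman_inner hm hU)] with a ha s hs hi b
  have e1 := indicatorConstLp_coeFn (p := 2) (hs := hs) (hμs := measure_ne_top μ s) (c := (1 : ℝ))
  exact (koopman_indicator (hmp b) e1 (hU b _)).1
    (ha _ ((koopman_indicator (hmp a) e1 (hU a _)).2 hi) b)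

/-- Almost every element of an ergodic action of a vector group is ergodic. -/
theorem ae_ergodic (h0 : ∀ x, φ 0 x = x) (hadd : ∀ a b x, φ (a + b) x = φ a (φ b x))
    (hmp : ∀ a, MeasurePreserving (φ a) μ μ) (hm : Measurable fun p : A × X => φ p.1 p.2)
    (he : ∀ s, MeasurableSet s → (∀ b, φ b ⁻¹' s =ᵐ[μ] s) → EventuallyConst s (ae μ)) :
    ∀ᵐ a ∂ν, Ergodic (φ a) μ := by
  filter_upwards [ae_invariant_iff ν h0 hadd hmp hm] with a ha
  exact ⟨hmp a, ⟨fun s hs hi => he s hs (ha s hs hi.eventuallyEq)⟩⟩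

omit ν in
/-- An ergodic element in a given open set and outside countably many proper subspaces. -/
theorem exists_ergodic_generic (h0 : ∀ x, φ 0 x = x) (hadd : ∀ a b x, φ (a + b) x = φ a (φ b x))
    (hmp : ∀ a, MeasurePreserving (φ a) μ μ) (hm : Measurable fun p : A × X => φ p.1 p.2)
    (he : ∀ s, MeasurableSet s → (∀ b, φ b ⁻¹' s =ᵐ[μ] s) → EventuallyConst s (ae μ))
    {I : Type*} [Countable I] (V : I → Submodule ℝ A) (hV : ∀ i, V i ≠ ⊤) {O : Set A}
    (hO : IsOpen O) (hne : O.Nonempty) : ∃ a ∈ O, (∀ i, a ∉ V i) ∧ Ergodic (φ a) μ := by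
  have h1 : ∀ᵐ a ∂(Measure.addHaar : Measure A), ∀ i, a ∉ V i := ae_all_iff.2 fun i =>
    measure_eq_zero_iff_ae_notMem.1 (Measure.addHaar_submodule _ (V i) (hV i))
  exact (Measure.dense_of_ae (h1.and (ae_ergodic _ h0 hadd hmp hm he))).exists_mem_open hO hne
    |>.imp fun a h => ⟨h.2, h.1⟩

/-- A point in a given open set and outside countably many proper subspaces. -/
theorem exists_mem_open_notMem {B : Type*} [NormedAddCommGroup B] [NormedSpace ℝ B]
    [FiniteDimensional ℝ B] {I : Type*} [Countable I] (V : I → Submodule ℝ B) (hV : ∀ i, V i ≠ ⊤)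
    {O : Set B} (hO : IsOpen O) (hne : O.Nonempty) : ∃ a ∈ O, ∀ i, a ∉ V i := by
  borelize B
  have h1 : ∀ᵐ a ∂(Measure.addHaar : Measure B), ∀ i, a ∉ V i := ae_all_iff.2 fun i =>
    measure_eq_zero_iff_ae_notMem.1 (Measure.addHaar_submodule _ (V i) (hV i))
  exact ((Measure.dense_of_ae h1).exists_mem_open hO hne).imp fun a h => ⟨h.2, h.1⟩

end Pool.Agent.P.MP_d483fb_an.Z


end

section

/-! The ergodicity theorem of Moore for elements of the Cartan subgroup. -/

open scoped Matrix Matrix.Norms.Operator InnerProductSpace RealInnerProductSpace Topology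
open NormedSpace Filter Set MeasureTheory TopologicalSpace

attribute [local instance 100] LieRing.ofAssociativeRing

noncomputable section

namespace Pool.Agent.P.MP_d483fb_an.Z

namespace Std

variable {G : Type} [Group G] [TopologicalSpace G] {n k : ℕ} (D : Std G n k)

theorem mo_br (s : Euc k) (X : Mat n) (i j : Fin n) :
    ⁅D.dg s, X⁆ i j = ⟪D.lam i - D.lam j, s⟫ * X i j := by
  simp only [Ring.lie_def, dg_apply, Matrix.sub_apply, Matrix.diagonal_mul, Matrix.mul_diagonal,
    inner_sub_left]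
  ring

theorem mo_eig {β : Euc k} {X : Mat n} (hX : X ∈ D.wtS {β}) (s : Euc k) :
    ⁅D.dg s, X⁆ = ⟪β, s⟫ • X := by
  ext i j
  rw [mo_br, Matrix.smul_apply, smul_eq_mul]
  by_cases h : X i j = 0
  · simp [h]
  · rw [show D.lam i - D.lam j = β from hX i j h]

theorem mo_tr {X : Mat n} (hX : X ∈ D.g) : Xᵀ ∈ D.g := by
  have h0 : Tendsto (fun t : ℝ => t • Xᵀ) (𝓝 0) (𝓝 0) := by
    simpa using! (continuous_id.smul (continuous_const (y := Xᵀ))).tendsto (0 : ℝ)
  have he : Filter.map exp (𝓝 (0 : Mat n)) = 𝓝 1 := map_exp_nhds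
  have hl : ∀ᶠ Y in 𝓝 (0 : Mat n), mlog (exp Y) = Y := mlog_exp
  have h1 : Tendsto (fun t : ℝ => exp (t • Xᵀ)) (𝓝 0) (Filter.map D.ρ (𝓝 1)) := by
    rw [D.opn]
    refine tendsto_nhdsWithin_iff.2 ⟨?_, Eventually.of_forall fun t => ?_⟩
    · rw [← he]
      exact tendsto_map.comp h0
    · obtain ⟨x, hx⟩ := D.tr (D.ex (t • X))
      exact ⟨x, by rw [hx, D.ρ_ex _ (D.g.smul_mem t hX), ← Matrix.exp_transpose,
        Matrix.transpose_smul]⟩
  have h2 : ∀ᶠ y in Filter.map D.ρ (𝓝 1), mlog y ∈ D.g := D.ex_lg.mono fun x hx => hx.1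
  obtain ⟨t, ⟨h3, h4⟩, ht⟩ := ((((h1.eventually h2).and (h0.eventually hl)).filter_mono
    (nhdsWithin_le_nhds (s := {0}ᶜ))).and self_mem_nhdsWithin).exists
  rw [h4] at h3
  exact (D.g.smul_mem_iff ht).1 h3

theorem mo_tr_gr {β : Euc k} {X : Mat n} (hX : X ∈ D.gr β) : Xᵀ ∈ D.gr (-β) :=
  ⟨D.mo_tr hX.1, fun i j h => by rw [← show D.lam j - D.lam i = β from hX.2 j i h]; simp⟩

theorem mo_sum (X : Mat n) : ∑ β ∈ D.wts, D.pr β X = X := by
  classical
  ext i j
  rw [Matrix.sum_apply, Finset.sum_eq_single (D.lam i - D.lam j)]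
  · simp [pr, prS_apply]
  · intro β _ hβ
    simp [pr, prS_apply, hβ.symm]
  · intro h
    exact absurd (Finset.mem_image.2 ⟨(i, j), Finset.mem_univ _, rfl⟩) h

theorem mo_ip (β : Euc k) (X : Mat n) : ip X (D.pr β X) = ip (D.pr β X) (D.pr β X) := by
  refine Finset.sum_congr rfl fun i _ => Finset.sum_congr rfl fun j _ => ?_
  simp only [pr, prS_apply]
  split_ifs <;> simp

theorem mo_dg {X : Mat n} (hX : X ∈ D.gr 0) (hs : X.IsSymm) : ∃ s, X = D.dg s :=
  D.max' X hX.1 hs fun i j h => sub_eq_zero.1 (hX.2 i j h)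

variable [IsTopologicalGroup G]

theorem mo_br_gr {β γ : Euc k} {X Y : Mat n} (hX : X ∈ D.gr β) (hY : Y ∈ D.gr γ) :
    ⁅X, Y⁆ ∈ D.gr (β + γ) :=
  ⟨D.br_mem hX.1 hY.1, Submodule.sub_mem _
    (D.wtS_mul hX.2 hY.2 (by rintro _ rfl _ rfl; rfl))
    (D.wtS_mul hY.2 hX.2 (by rintro _ rfl _ rfl; exact add_comm _ _))⟩

theorem mo_pr (β : Euc k) {X : Mat n} (hX : X ∈ D.g) : D.pr β X ∈ D.gr β := by
  refine ⟨?_, fun i j h => ?_⟩
  · have := mask_mem D.g (fun (s : Euc k) i j => ⟪D.lam i - D.lam j, s⟫) (fun s Y hY => by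
      convert D.br_mem (D.dg_mem s) hY using 1
      ext i j
      rw [mo_br, Matrix.of_apply]) {p | D.lam p.1 - D.lam p.2 = β} (fun p hp q h => by
        rw [mem_ofPred_eq, ← hp]
        exact ext_inner_right ℝ fun s => (h s).symm) hX
    refine (congrArg (· ∈ D.g) ?_).mp this
    ext i j
    simp [pr, prS_apply]
  · by_contra h1
    exact h (by rw [pr, prS_apply, if_neg h1])

theorem mo_ind {p : Mat n → Prop} (h0 : p 0) (hadd : ∀ X Y, p X → p Y → p (X + Y))
    (hz : ∀ X ∈ D.gr 0, p X) (hr : ∀ β ∈ D.roots, ∀ X ∈ D.gr β, p X) {X : Mat n} (hX : X ∈ D.g) :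
    p X := by
  classical
  rw [← D.mo_sum X]
  refine Finset.sum_induction _ p hadd h0 fun β hβ => ?_
  by_cases h1 : β = 0
  · exact hz _ (h1 ▸ D.mo_pr β hX)
  · by_cases h2 : D.gr β = ⊥
    · rw [(Submodule.eq_bot_iff _).1 h2 _ (D.mo_pr β hX)]
      exact h0
    · exact hr β (Finset.mem_filter.2 ⟨hβ, h1, h2⟩) _ (D.mo_pr β hX)

theorem mo_coroot {β : Euc k} {E : Mat n} (hE : E ∈ D.gr β) : ⁅E, Eᵀ⁆ = ip E E • D.dg β := by
  have h1 := D.mo_br_gr hE (D.mo_tr_gr hE)
  rw [add_neg_cancel] at h1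
  obtain ⟨s, hs⟩ := D.mo_dg h1 (by rw [Matrix.IsSymm, tr_br, Matrix.transpose_transpose])
  rw [hs, ← map_smul]
  congr 1
  refine ext_inner_right ℝ fun t => ?_
  have h2 : ip (D.dg s) (D.dg t) = ⟪s, t⟫ := by
    rw [← D.frame]
    refine Finset.sum_congr rfl fun i _ => ?_
    rw [Finset.sum_eq_single i] <;> simp +contextual [dg_apply, Matrix.diagonal_apply_ne']
  rw [← h2, ← hs, ip_br, ← lie_skew, D.mo_eig (D.mo_tr_gr hE).2, inner_neg_left, neg_smul, neg_neg,
    ip_smul_right, ip_tr, inner_smul_left]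
  simp [mul_comm]

/-- A subalgebra that contains all root spaces is everything. -/
theorem mo_gen {v : Submodule ℝ (Mat n)} (hv : v ≤ D.g) (hs : IsSub v)
    (h : ∀ β ∈ D.roots, D.gr β ≤ v) : D.g ≤ v := by
  classical
  let I : Submodule ℝ (Mat n) :=
    { carrier := {X | X ∈ D.gr 0 ∧ ∀ β ∈ D.roots, ∀ E ∈ D.gr β, ⁅E, X⁆ = 0}
      zero_mem' := ⟨zero_mem _, fun _ _ _ _ => lie_zero _⟩
      add_mem' := fun hX hY => ⟨add_mem hX.1 hY.1, fun β hβ E hE => by
        rw [lie_add, hX.2 β hβ E hE, hY.2 β hβ E hE, add_zero]⟩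
      smul_mem' := fun c X hX => ⟨Submodule.smul_mem _ c hX.1, fun β hβ E hE => by
        rw [lie_smul, hX.2 β hβ E hE, smul_zero]⟩ }
  have hI : IsIdl D.g I := by
    refine ⟨fun X hX => hX.1.1, fun X hX Y hY => ?_⟩
    refine D.mo_ind (p := fun X => ⁅X, Y⁆ ∈ I) (by rw [zero_lie]; exact zero_mem _)
      (fun X X' h h' => by rw [add_lie]; exact add_mem h h') (fun X hX => ⟨?_, fun β hβ E hE => ?_⟩)
      (fun β hβ X hX => by rw [hY.2 β hβ X hX]; exact zero_mem _) hX
    · simpa using D.mo_br_gr hX hY.1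
    · rw [leibniz_lie, hY.2 β hβ E hE, lie_zero, add_zero]
      exact hY.2 β hβ _ (by simpa using D.mo_br_gr hE hX)
  have hb : I = ⊥ := by
    by_contra hne
    obtain ⟨X, hX, Y, -, hXs, -, -, hl⟩ := D.rank I hI hne
    obtain ⟨s, rfl⟩ := D.mo_dg hX.1 hXs
    refine hl.ne_zero 0 (D.cent _ hX.1.1 fun Z hZ => ?_)
    refine D.mo_ind (p := fun Z => ⁅D.dg s, Z⁆ = 0) (lie_zero _)
      (fun Z Z' h h' => by rw [lie_add, h, h', add_zero])
      (fun Z hZ => by rw [D.mo_eig hZ.2, inner_zero_left, zero_smul])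
      (fun β hβ Z hZ => by rw [← lie_skew, hX.2 β hβ Z hZ, neg_zero]) hZ
  refine le_of_orth hv fun X hX h0 => (Submodule.eq_bot_iff _).1 hb X ?_
  have h1 : ∀ β, β ≠ 0 → D.gr β ≤ v := fun β hβ Y hY => by
    by_cases hY0 : Y = 0
    · rw [hY0]
      exact zero_mem _
    · obtain ⟨i, hi⟩ := Function.ne_iff.1 hY0
      obtain ⟨j, hj⟩ := Function.ne_iff.1 hi
      refine h β (Finset.mem_filter.2 ⟨Finset.mem_image.2 ⟨(i, j), Finset.mem_univ _,
        hY.2 i j hj⟩, hβ, fun h2 => hY0 ((Submodule.eq_bot_iff _).1 h2 _ hY)⟩) hY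
  have h2 : X ∈ D.gr 0 := by
    refine ⟨hX, fun i j hij => ?_⟩
    by_contra h3
    have h4 := h0 _ (h1 _ h3 (D.mo_pr _ hX))
    rw [mo_ip, ip_self_eq_zero] at h4
    have := congrFun (congrFun h4 i) j
    simp only [pr, prS_apply, mem_singleton_iff, if_true] at this
    exact hij this
  refine ⟨h2, fun β hβ E hE => ip_self_eq_zero.1 ?_⟩
  have h3 : β ≠ 0 := (Finset.mem_filter.1 hβ).2.1
  rw [ip_br]
  exact h0 _ (hs _ (h1 _ (neg_ne_zero.2 h3) (D.mo_tr_gr hE)) _
    (h1 β h3 (by simpa using D.mo_br_gr hE h2)))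

theorem mo_pow (s : Euc k) (m : ℕ) : D.a s ^ m = D.a ((m : ℝ) • s) := by
  rw [a, a, map_smul, D.ex_nsmul (D.dg_mem s)]

theorem mo_inv (s : Euc k) : (D.a s)⁻¹ = D.a (-s) := by
  rw [a, a, map_neg, D.ex_neg (D.dg_mem s)]

theorem mo_Ad (s : Euc k) (X : Mat n) (i j : Fin n) :
    D.Ad (D.a s) X i j = Real.exp ⟪D.lam i - D.lam j, s⟫ * X i j := by
  rw [a, D.Ad_ex (D.dg_mem s), dg_apply, Matrix.diagonal_neg, Matrix.exp_diagonal,
    Matrix.exp_diagonal, Matrix.mul_diagonal, Matrix.diagonal_mul, Pi.coe_exp, Pi.coe_exp,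
    ← Real.exp_eq_exp_ℝ, inner_sub_left, sub_eq_add_neg, Real.exp_add]
  ring

/-- The horospherical group of `s` is contracted by `a (-s)`. -/
theorem tendsto_conj_np {s : Euc k} {X : Mat n} (hX : X ∈ D.np s) :
    Tendsto (fun m : ℕ => (D.a s)⁻¹ ^ m * D.ex X * ((D.a s)⁻¹ ^ m)⁻¹) atTop (𝓝 1) := by
  simp only [D.conj_ex _ hX.1]
  simp only [mo_inv, mo_pow]
  rw [← D.ex_zero]
  refine (D.ex_cont 0 (zero_mem _)).tendsto.comp (tendsto_nhdsWithin_iff.2
    ⟨tendsto_pi_nhds.2 fun i => tendsto_pi_nhds.2 fun j => ?_,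
      Eventually.of_forall fun m => D.Ad_mem _ hX.1⟩)
  simp only [mo_Ad, inner_smul_right, inner_neg_right, Matrix.zero_apply]
  by_cases h : X i j = 0
  · simp [h]
  · rw [← zero_mul (X i j)]
    exact (Real.tendsto_exp_atBot.comp (tendsto_natCast_atTop_atTop.atTop_mul_const_of_neg
      (neg_lt_zero.2 (hX.2 i j h)))).mul_const _

/-- A closed subgroup with the property of Mautner that contains a full element is everything. -/
theorem eq_top_of_mautner [PreconnectedSpace G] {H : Subgroup G} (hH : IsClosed (H : Set G))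
    (hM : ∀ a ∈ H, ∀ u, Tendsto (fun m : ℕ => a ^ m * u * (a ^ m)⁻¹) atTop (𝓝 1) → u ∈ H)
    {s : Euc k} (hs : D.Full s) (ha : D.a s ∈ H) : H = ⊤ := by
  have h1 : ∀ s β : Euc k, D.a s ∈ H → 0 < ⟪β, s⟫ → D.gr β ≤ D.lie H := fun s β ha h =>
    D.le_lie inf_le_left fun X hX => hM _ (inv_mem ha) _ (D.tendsto_conj_np
      ⟨hX.1, fun i j hij => by rwa [show D.lam i - D.lam j = β from hX.2 i j hij]⟩)
  have h2 : ∀ s β : Euc k, D.a s ∈ H → ⟪β, s⟫ ≠ 0 → D.gr β ≤ D.lie H := fun s β ha h =>
    h.lt_or_gt.elim (fun h => h1 (-s) β (D.mo_inv s ▸ inv_mem ha) (by simpa using h)) (h1 s β ha)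
  have h3 : ∀ s : Euc k, ∀ β ∈ D.roots, D.a s ∈ H → ⟪β, s⟫ ≠ 0 → D.a β ∈ H := by
    intro s β hβ ha h
    obtain ⟨E, hE, hE0⟩ := (Submodule.ne_bot_iff _).1 (Finset.mem_filter.1 hβ).2.2
    have := D.lie_isSub H _ (h2 s β ha h hE) _ (h2 s (-β) ha (by simpa using h) (D.mo_tr_gr hE))
    rw [D.mo_coroot hE, Submodule.smul_mem_iff _ (ip_self_pos hE0).ne'] at this
    exact D.ex_mem_of_lie hH this
  refine D.eq_top_of_le_lie (D.mo_gen (D.lie_le H) (D.lie_isSub H) fun γ hγ => ?_)
  obtain ⟨β, hβ, hc, h⟩ := hs γ hγ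
  have h4 : D.a γ ∈ H := by
    clear hγ
    induction hc using Relation.ReflTransGen.head_induction_on with
    | refl => exact h3 s β hβ ha h
    | head hr _ ih => exact h3 _ _ hr.1 ih hr.2.2
  exact h2 γ γ h4 (inner_self_ne_zero.2 (Finset.mem_filter.1 hγ).2.1)

section

variable {X : Type*} [TopologicalSpace X] [PseudoMetrizableSpace X] [MeasurableSpace X]
  [BorelSpace X] {μ : Measure X} [IsFiniteMeasure μ] [MulAction G X] [ContinuousSMul G X]
  [FirstCountableTopology G]

/-- A set that is invariant under `a s` is invariant under the horospherical group of `s`. -/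
theorem N_le_stabSet {s : Euc k} {U : Set X} (hU : MeasurableSet U) (ha : D.a s ∈ stabSet G μ U)
    (hN : D.N s ≤ stabMeas G μ) : D.N s ≤ stabSet G μ U :=
  (Subgroup.closure_le _).2 <| by
    rintro _ ⟨Y, hY, rfl⟩
    exact mautner hU (inv_mem ha) (hN (Subgroup.subset_closure ⟨Y, hY, rfl⟩))
      (D.tendsto_conj_np hY)

/-- The theorem of Moore: a set that is invariant under a full element is invariant. -/
theorem moore [PreconnectedSpace G] (hμ : ∀ g : G, MeasurePreserving (fun x : X => g • x) μ μ)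
    {s : Euc k} (hs : D.Full s) {U : Set X} (hU : MeasurableSet U)
    (ha : (fun x => D.a s • x) ⁻¹' U =ᵐ[μ] U) (g : G) : (fun x => g • x) ⁻¹' U =ᵐ[μ] U := by
  have := D.eq_top_of_mautner (isClosed_stabSet (μ := μ) hU)
    (fun a ha u h => mautner hU ha (hμ u) h) hs (mem_stabSet.2 ⟨hμ _, ha⟩)
  exact (mem_stabSet.1 (this ▸ Subgroup.mem_top g)).2

end

end Std

/-- Transitive actions are ergodic. -/
theorem aeconst_of_trans {G X : Type*} [Group G] [MeasurableSpace G] [MeasurableMul G]
    (m : Measure G) [SFinite m] [m.IsMulRightInvariant] [NeZero m] [MulAction G X]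
    [MeasurableSpace X] [MeasurableSMul₂ G X] {μ : Measure X} [SFinite μ]
    (htr : ∀ x y : X, ∃ g : G, g • x = y) {U : Set X} (hU : MeasurableSet U)
    (h : ∀ g : G, (fun x => g • x) ⁻¹' U =ᵐ[μ] U) : EventuallyConst U (ae μ) := by
  have h1 : ∀ᵐ x ∂μ, ∀ᵐ g ∂m, (g • x ∈ U ↔ x ∈ U) :=
    (Measure.ae_ae_comm (μ := m) (ν := μ) (p := fun g x => (g • x ∈ U ↔ x ∈ U))
      ((measurable_fst.smul measurable_snd hU).iff (measurable_snd hU))).1
      (Eventually.of_forall fun g => eventuallyEq_set.1 (h g))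
  rcases eq_zero_or_neZero μ with rfl | hμ
  · simp
  obtain ⟨o, ho⟩ := h1.exists
  have h2 : ∀ᵐ x ∂μ, (x ∈ U ↔ o ∈ U) := h1.mono fun x hx => by
    obtain ⟨a, rfl⟩ := htr o x
    obtain ⟨g, h3, h4⟩ := (hx.and ((measurePreserving_mul_right m a).quasiMeasurePreserving.ae
      ho)).exists
    rw [← h3, ← h4, mul_smul]
  by_cases h3 : o ∈ U
  · exact eventuallyConst_set.2 (.inl (h2.mono fun x hx => hx.2 h3))
  · exact eventuallyConst_set.2 (.inr (h2.mono fun x hx h4 => h3 (hx.1 h4)))

/-- Full elements of the Cartan subgroup act ergodically on a quotient by a lattice. -/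
theorem Std.ergodic_of_full {G : Type} [Group G] [TopologicalSpace G] [IsTopologicalGroup G]
    [T2Space G] [LocallyCompactSpace G] [SecondCountableTopology G] [MeasurableSpace G]
    [BorelSpace G] {X : Type} [TopologicalSpace X] [T2Space X] [SecondCountableTopology X]
    [MeasurableSpace X] [BorelSpace X] [MulAction G X] [ContinuousSMul G X] {μ : Measure X}
    [IsProbabilityMeasure μ] [SMulInvariantMeasure G X μ] [ConnectedSpace G] {n k : ℕ}
    (D : Std G n k) (l : Len G) (B : Base l X) {s : Euc k} (hs : D.Full s) :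
    Ergodic (fun x : X => D.a s • x) μ := by
  have : LocallyCompactSpace X := IsOpenQuotientMap.locallyCompactSpace
    (f := fun g : G => g • B.o) ⟨B.trans, by fun_prop, B.opn⟩
  refine ⟨measurePreserving_smul _ μ, ⟨fun U hU h => ?_⟩⟩
  refine aeconst_of_trans (Measure.haar (G := G)).inv (fun x y => ?_) hU
    (D.moore (fun g => measurePreserving_smul g μ) hs hU h.eventuallyEq)
  obtain ⟨a, rfl⟩ := B.trans x
  obtain ⟨b, rfl⟩ := B.trans y
  exact ⟨b * a⁻¹, by rw [mul_smul, inv_smul_smul]⟩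

end Pool.Agent.P.MP_d483fb_an.Z

end

end

section

/-!
The action of a group on the classes of measurable sections of a measurable linear cocycle.
-/

open MeasureTheory Filter Set Topology

set_option linter.unusedSectionVars false

noncomputable section

namespace Pool.Agent.P.MP_d483fb_an.Z.MS

/-- An ergodic measure preserving action of `G`. -/
structure GErg (G : Type) {X : Type} [Group G] [MeasurableSpace X] [MulAction G X]
    (μ : Measure X) : Prop where
  mp : ∀ g : G, MeasurePreserving (fun x : X => g • x) μ μ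
  erg : ∀ s : Set X, MeasurableSet s → (∀ g : G, (fun x => g • x) ⁻¹' s =ᵐ[μ] s) →
    EventuallyConst s (ae μ)

/-- A measurable linear cocycle over a measure preserving action. -/
structure Co (G : Type) {X : Type} [Group G] [MeasurableSpace G] [MeasurableSpace X]
    [MulAction G X] (μ : Measure X) (k V : Type) [NontriviallyNormedField k]
    [NormedAddCommGroup V] [NormedSpace k V] where
  c : G → X → V →L[k] V
  mp : ∀ g : G, MeasurePreserving (fun x : X => g • x) μ μ
  meas : StronglyMeasurable fun p : G × X => c p.1 p.2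
  one : ∀ x, c 1 x = 1
  mul : ∀ g h x, c (g * h) x = c g (h • x) * c h x

namespace Co

variable {G X k V : Type} [Group G] [MeasurableSpace G] [MeasurableSpace X] [MulAction G X]
  {μ : Measure X} [NontriviallyNormedField k] [NormedAddCommGroup V] [NormedSpace k V]
  (C : Co G μ k V)

theorem meas_c (g : G) : StronglyMeasurable (C.c g) :=
  C.meas.comp_measurable (g := fun x : X => (g, x)) measurable_prodMk_left

include C in
theorem ae_smul {p : X → Prop} (g : G) (h : ∀ᵐ x ∂μ, p x) : ∀ᵐ x ∂μ, p (g • x) :=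
  (C.mp g).quasiMeasurePreserving.ae h

include C in
theorem ae_smul_iff {p : X → Prop} (g : G) : (∀ᵐ x ∂μ, p (g • x)) ↔ ∀ᵐ x ∂μ, p x :=
  ⟨fun h => by simpa using C.ae_smul (p := fun x => p (g • x)) g⁻¹ h, C.ae_smul g⟩

theorem inv_apply (g : G) (x : X) (v : V) : C.c g⁻¹ (g • x) (C.c g x v) = v := by
  have := congrArg (fun L : V →L[k] V => L v) (C.mul g⁻¹ g x)
  simpa [C.one] using this.symm

theorem injective (g : G) (x : X) : Function.Injective (C.c g x) :=
  Function.LeftInverse.injective (C.inv_apply g x)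

theorem aesm (g : G) {f : X → V} (hf : AEStronglyMeasurable f μ) :
    AEStronglyMeasurable (fun x => C.c g (g⁻¹ • x) (f (g⁻¹ • x))) μ := by
  have h1 : AEStronglyMeasurable (fun x => (C.c g x, f x)) μ :=
    (C.meas_c g).aestronglyMeasurable.prodMk hf
  have h2 : Continuous fun p : (V →L[k] V) × V => p.1 p.2 := by fun_prop
  exact (h2.comp_aestronglyMeasurable h1).comp_quasiMeasurePreserving
    (C.mp g⁻¹).quasiMeasurePreserving

/-- The image of a section. -/
def act (g : G) (f : X →ₘ[μ] V) : X →ₘ[μ] V :=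
  AEEqFun.mk (fun x => C.c g (g⁻¹ • x) (f (g⁻¹ • x))) (C.aesm g f.aestronglyMeasurable)

theorem act_ae (g : G) (f : X →ₘ[μ] V) : ∀ᵐ x ∂μ, C.c g x (f x) = C.act g f (g • x) := by
  filter_upwards [C.ae_smul g (AEEqFun.coeFn_mk _ (C.aesm g f.aestronglyMeasurable))] with x hx
  rw [act, hx, inv_smul_smul]

theorem act_eq_iff {g : G} {f f' : X →ₘ[μ] V} :
    C.act g f = f' ↔ ∀ᵐ x ∂μ, C.c g x (f x) = f' (g • x) := by
  refine ⟨fun h => h ▸ C.act_ae g f, fun h => AEEqFun.ext ((C.ae_smul_iff g).1 ?_)⟩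
  filter_upwards [h, C.act_ae g f] with x h1 h2
  rw [← h1, h2]

/-- The action on sections. -/
def rep : G →* Module.End k (X →ₘ[μ] V) where
  toFun g :=
    { toFun := C.act g
      map_add' := fun f f' => C.act_eq_iff.2 (by
        filter_upwards [C.act_ae g f, C.act_ae g f', AEEqFun.coeFn_add f f',
          C.ae_smul g (AEEqFun.coeFn_add (C.act g f) (C.act g f'))] with x h1 h2 h3 h4
        rw [h4, h3, Pi.add_apply, Pi.add_apply, map_add, h1, h2])
      map_smul' := fun t f => C.act_eq_iff.2 (by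
        filter_upwards [C.act_ae g f, AEEqFun.coeFn_smul t f,
          C.ae_smul g (AEEqFun.coeFn_smul t (C.act g f))] with x h1 h3 h4
        rw [RingHom.id_apply, h4, h3, Pi.smul_apply, Pi.smul_apply, map_smul, h1]) }
  map_one' := LinearMap.ext fun f => C.act_eq_iff.2 (by simp [C.one])
  map_mul' g h := LinearMap.ext fun f => C.act_eq_iff.2 (by
    filter_upwards [C.act_ae h f, C.ae_smul h (C.act_ae g (C.act h f))] with x h1 h2
    rw [C.mul, mul_apply_eq_comp, h1, h2, mul_smul]
    rfl)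

theorem rep_ae (g : G) (f : X →ₘ[μ] V) : ∀ᵐ x ∂μ, C.c g x (f x) = C.rep g f (g • x) :=
  C.act_ae g f

theorem rep_eq_iff {g : G} {f f' : X →ₘ[μ] V} :
    C.rep g f = f' ↔ ∀ᵐ x ∂μ, C.c g x (f x) = f' (g • x) := C.act_eq_iff

end Co

/-- Finite linear combinations of classes. -/
theorem coeFn_comb {X k V ι : Type} [MeasurableSpace X] {μ : Measure X} [NontriviallyNormedField k]
    [NormedAddCommGroup V] [NormedSpace k V] [Fintype ι] (v : ι → k) (w : ι → X →ₘ[μ] V) :
    ∀ᵐ x ∂μ, (∑ i, v i • w i : X →ₘ[μ] V) x = ∑ i, v i • w i x := by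
  have h : ∀ s : Finset ι, ∀ᵐ x ∂μ, (∑ i ∈ s, v i • w i : X →ₘ[μ] V) x = ∑ i ∈ s, v i • w i x := by
    intro s
    classical
    induction s using Finset.induction_on with
    | empty =>
      simp only [Finset.sum_empty]
      exact AEEqFun.coeFn_zero
    | insert i s hi ih =>
      simp only [Finset.sum_insert hi]
      filter_upwards [ih, AEEqFun.coeFn_add (v i • w i) (∑ i ∈ s, v i • w i),
        AEEqFun.coeFn_smul (v i) (w i)] with x h1 h2 h3
      rw [h2, Pi.add_apply, h1, h3, Pi.smul_apply]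
  exact h _

theorem comb_eq_iff {X k V ι : Type} [MeasurableSpace X] {μ : Measure X}
    [NontriviallyNormedField k] [NormedAddCommGroup V] [NormedSpace k V] [Fintype ι] {v : ι → k}
    {w : ι → X →ₘ[μ] V} {f : X →ₘ[μ] V} :
    f = ∑ i, v i • w i ↔ ∀ᵐ x ∂μ, f x = ∑ i, v i • w i x :=
  ⟨fun h => h ▸ coeFn_comb v w, fun h => AEEqFun.ext (by
    filter_upwards [h, coeFn_comb v w] with x h1 h2
    rw [h1, h2])⟩

end Pool.Agent.P.MP_d483fb_an.Z.MS

end

end

section

/-!
A finite dimensional invariant space of sections carries a continuous action.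
-/

open MeasureTheory Filter Set Topology
open scoped Pointwise

set_option linter.unusedSectionVars false

noncomputable section

namespace Pool.Agent.P.MP_d483fb_an.Z.MS

/-- Measurable homomorphisms are continuous. -/
theorem continuous_of_measurable {G M : Type} [Group G] [TopologicalSpace G] [IsTopologicalGroup G]
    [LocallyCompactSpace G] [SecondCountableTopology G] [MeasurableSpace G] [BorelSpace G]
    [Monoid M] [TopologicalSpace M] [ContinuousMul M] [SecondCountableTopology M]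
    [MeasurableSpace M] [BorelSpace M] (τ : G →* M) (hτ : Measurable τ) : Continuous τ := by
  have h1 : ContinuousAt τ 1 := by
    rw [ContinuousAt, map_one]
    intro U hU
    let φ : G → M × M := fun g => (τ g, τ g⁻¹)
    have hφ : Measurable φ := hτ.prodMk (hτ.comp measurable_inv)
    have h2 : ∀ g : G, ∃ N : Set (M × M), IsOpen N ∧ φ g ∈ N ∧ ∀ p ∈ N, ∀ q ∈ N, p.1 * q.2 ∈ U := by
      intro g
      have h3 : Tendsto (fun p : M × M => p.1 * p.2) (𝓝 (φ g)) (𝓝 1) := by
        have := continuous_mul.tendsto (φ g)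
        rwa [show (φ g).1 * (φ g).2 = 1 by simp [φ, ← map_mul]] at this
      obtain ⟨u, v, hu, hu', hv, hv', h⟩ := mem_nhds_prod_iff'.1 (h3 hU)
      exact ⟨u ×ˢ v, hu.prod hv, ⟨hu', hv'⟩, fun p hp q hq =>
        h (show (p.1, q.2) ∈ u ×ˢ v from ⟨hp.1, hq.2⟩)⟩
    choose N hN hN' hU' using h2
    obtain ⟨T, hT, hcov⟩ := TopologicalSpace.isOpen_iUnion_countable N hN
    obtain ⟨g, -, hg⟩ : ∃ g ∈ T, (Measure.haar : Measure G) (φ ⁻¹' N g) ≠ 0 := by
      by_contra hcon
      push Not at hcon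
      have h4 := (measure_biUnion_null_iff hT).2 hcon
      rw [← preimage_iUnion₂, hcov, eq_univ_of_forall (s := φ ⁻¹' ⋃ i, N i)
        fun x => mem_iUnion.2 ⟨x, hN' x⟩] at h4
      exact (isOpen_univ.measure_pos _ univ_nonempty).ne' h4
    refine mem_map.2 <| mem_of_superset (Measure.div_mem_nhds_one_of_haar_pos Measure.haar _
      (hφ (hN g).measurableSet) hg.bot_lt) ?_
    rintro _ ⟨x, hx, y, hy, rfl⟩
    have := hU' g _ hx _ hy
    simpa [φ, div_eq_mul_inv] using this
  refine continuous_iff_continuousAt.2 fun g => ?_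
  have h2 : τ = fun x => τ (x * g⁻¹) * τ g := funext fun x => by simp [← map_mul]
  rw [h2]
  exact (ContinuousAt.comp (by simpa using h1) (by fun_prop :
    ContinuousAt (fun x : G => x * g⁻¹) g)).mul continuousAt_const

/-- The unique zero of a Caratheodory function is measurable. -/
theorem measurable_of_zero {Ω Y : Type} [MeasurableSpace Ω] [MetricSpace Y] [ProperSpace Y]
    [MeasurableSpace Y] [BorelSpace Y] {F : Ω → Y → ℝ} (h1 : ∀ y, Measurable fun ω => F ω y)
    (h2 : ∀ ω, Continuous (F ω)) (h3 : ∀ ω y, 0 ≤ F ω y) {f : Ω → Y}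
    (h4 : ∀ ω y, F ω y = 0 ↔ y = f ω) : Measurable f := by
  have hK : ∀ K : Set Y, IsCompact K → MeasurableSet (f ⁻¹' K) := by
    intro K hK
    obtain ⟨D, hDK, hD, hd⟩ := hK.isSeparable.exists_countable_dense_subset
    have e : f ⁻¹' K = ⋂ m : ℕ, ⋃ y ∈ D, {ω | F ω y < 1 / ((m : ℝ) + 1)} := by
      ext ω
      simp only [mem_preimage, mem_iInter, mem_iUnion, mem_ofPred_eq, exists_prop]
      refine ⟨fun h m => ?_, fun h => ?_⟩
      · obtain ⟨y, hy, hy'⟩ := mem_closure_iff.1 (hd h) {y | F ω y < 1 / ((m : ℝ) + 1)}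
          (isOpen_lt (h2 ω) continuous_const)
          (show F ω (f ω) < _ from ((h4 ω _).2 rfl).symm ▸ Nat.one_div_pos_of_nat)
        exact ⟨y, hy', hy⟩
      · obtain ⟨y₀, hy₀, -⟩ := h 0
        obtain ⟨y, hy, hmin⟩ := hK.exists_isMinOn ⟨y₀, hDK hy₀⟩ (h2 ω).continuousOn
        refine (h4 ω y).1 (le_antisymm (ge_of_tendsto' tendsto_one_div_add_atTop_nhds_zero_nat
          fun m => ?_) (h3 ω y)) ▸ hy
        obtain ⟨z, hz, hz'⟩ := h m
        exact (hmin (hDK hz)).trans hz'.le
    rw [e]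
    exact MeasurableSet.iInter fun m => MeasurableSet.biUnion hD fun y _ =>
      measurableSet_lt (h1 y) measurable_const
  refine measurable_of_isClosed fun s hs => ?_
  rw [← inter_univ s, ← iUnion_compactCovering, inter_iUnion, preimage_iUnion]
  exact MeasurableSet.iUnion fun m => hK _ ((isCompact_compactCovering Y m).inter_left hs)

variable {G X k V : Type} [Group G] [TopologicalSpace G] [IsTopologicalGroup G]
  [LocallyCompactSpace G] [SecondCountableTopology G] [MeasurableSpace G] [BorelSpace G]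
  [MeasurableSpace X] [MulAction G X] [MeasurableSMul₂ G X] {μ : Measure X}
  [IsProbabilityMeasure μ] [NontriviallyNormedField k] [ProperSpace k] [NormedAddCommGroup V]
  [NormedSpace k V]

theorem Co.measurable_coef (C : Co G μ k V) [MeasurableSpace k] [BorelSpace k] {n : ℕ}
    {w : Fin n → X →ₘ[μ] V} (hw : LinearIndependent k w) (f : X →ₘ[μ] V) {u : G → Fin n → k}
    (hu : ∀ g, C.rep g f = ∑ i, u g i • w i) : Measurable u := by
  let d : (Fin n → k) → G × X → ℝ := fun v p =>
    min 1 ‖C.c p.1 p.2 (f p.2) - ∑ i, v i • w i (p.1 • p.2)‖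
  have hm : ∀ v, StronglyMeasurable (d v) := fun v => by
    have e1 : StronglyMeasurable fun p : G × X => C.c p.1 p.2 (f p.2) :=
      (by fun_prop : Continuous fun p : (V →L[k] V) × V => p.1 p.2).comp_stronglyMeasurable
        (C.meas.prodMk (f.stronglyMeasurable.comp_measurable measurable_snd))
    have e2 : StronglyMeasurable fun p : G × X => ∑ i, v i • w i (p.1 • p.2) :=
      Finset.stronglyMeasurable_fun_sum _ fun i _ => ((w i).stronglyMeasurable.comp_measurable
        (measurable_fst.smul measurable_snd)).const_smul (v i)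
    exact (measurable_const.min (e1.sub e2).norm.measurable).stronglyMeasurable
  have h0 : ∀ v p, 0 ≤ d v p := fun v p => le_min zero_le_one (norm_nonneg _)
  have hb : ∀ v p, ‖d v p‖ ≤ 1 := fun v p => by
    rw [Real.norm_of_nonneg (h0 v p)]
    exact min_le_left _ _
  have hm' : ∀ v g, AEStronglyMeasurable (fun x => d v (g, x)) μ := fun v g =>
    ((hm v).comp_measurable measurable_prodMk_left).aestronglyMeasurable
  refine measurable_of_zero (F := fun g v => ∫ x, d v (g, x) ∂μ)
    (fun v => (hm v).integral_prod_right'.measurable)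
    (fun g => continuous_of_dominated (fun v => hm' v g)
      (fun v => Eventually.of_forall fun x => hb v _) (integrable_const (1 : ℝ))
      (Eventually.of_forall fun x => by fun_prop))
    (fun g v => integral_nonneg fun x => h0 v _) fun g v => ?_
  rw [integral_eq_zero_iff_of_nonneg (fun x => h0 v _)
    ((integrable_const (1 : ℝ)).mono' (hm' v g) (Eventually.of_forall fun x => hb v _))]
  have e : (fun x => d v (g, x)) =ᵐ[μ] 0 ↔ C.rep g f = ∑ i, v i • w i := by
    rw [C.rep_eq_iff]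
    refine eventually_congr ?_
    filter_upwards [C.ae_smul g (coeFn_comb v w)] with x hx
    rw [hx]
    refine ⟨fun h => ?_, fun h => by simp [d, h]⟩
    rcases min_eq_iff.1 h with h | h
    · exact absurd h.1 one_ne_zero
    · exact sub_eq_zero.1 (norm_eq_zero.1 h.1)
  rw [e, hu]
  exact ⟨fun h => (funext (Fintype.linearIndependent_iffₛ.1 hw _ _ h)).symm, fun h => h ▸ rfl⟩

theorem Co.exists_tau (C : Co G μ k V) {n : ℕ} {w : Fin n → X →ₘ[μ] V}
    (hw : LinearIndependent k w) (hinv : ∀ g j, C.rep g (w j) ∈ Submodule.span k (range w)) :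
    ∃ τ : G →* Matrix (Fin n) (Fin n) k, Continuous τ ∧
      ∀ g j, C.rep g (w j) = ∑ i, τ g i j • w i := by
  choose u hu using fun g j => (Submodule.mem_span_range_iff_exists_fun k).1 (hinv g j)
  have inj : ∀ v v' : Fin n → k, ∑ i, v i • w i = ∑ i, v' i • w i → v = v' := fun v v' h =>
    funext (Fintype.linearIndependent_iffₛ.1 hw _ _ h)
  let τ : G →* Matrix (Fin n) (Fin n) k :=
    { toFun := fun g => Matrix.of fun i j => u g j i
      map_one' := by
        ext i j
        refine congrFun (inj (u 1 j) (fun i => (1 : Matrix (Fin n) (Fin n) k) i j) ?_) i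
        simp [hu, Matrix.one_apply]
      map_mul' := fun g h => by
        ext i j
        refine congrFun (inj (u (g * h) j) (fun i => ∑ l, u g l i * u h j l) ?_) i
        rw [hu, map_mul, Module.End.mul_apply, ← hu h j, map_sum]
        simp only [map_smul, ← hu g, Finset.smul_sum, Finset.sum_smul, smul_smul]
        rw [Finset.sum_comm]
        simp only [mul_comm] }
  borelize k
  let : MeasurableSpace (Matrix (Fin n) (Fin n) k) :=
    inferInstanceAs (MeasurableSpace (Fin n → Fin n → k))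
  have : BorelSpace (Matrix (Fin n) (Fin n) k) := inferInstanceAs (BorelSpace (Fin n → Fin n → k))
  have : SecondCountableTopology (Matrix (Fin n) (Fin n) k) :=
    inferInstanceAs (SecondCountableTopology (Fin n → Fin n → k))
  refine ⟨τ, continuous_of_measurable τ (measurable_pi_lambda _ fun i => measurable_pi_lambda _
    fun j => (measurable_pi_apply i).comp
      (C.measurable_coef hw (w j) (u := fun g => u g j) fun g => (hu g j).symm)),
    fun g j => (hu g j).symm⟩

end Pool.Agent.P.MP_d483fb_an.Z.MS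

end

end

section

/-!
Kernels that are invariant under an ergodic map are constant; invariant sections form a finite
dimensional space.
-/

open MeasureTheory Filter Set Topology Metric

set_option linter.unusedSectionVars false

noncomputable section

namespace Pool.Agent.P.MP_d483fb_an.Z.MS

variable {X k F E : Type} [MeasurableSpace X] {μ : Measure X} [NontriviallyNormedField k]
  [NormedAddCommGroup F] [NormedSpace k F] [NormedAddCommGroup E] [NormedSpace k E]

theorem isClosed_ker {K : Set F} (hK : IsCompact K) :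
    IsClosed {L : F →L[k] E | ∃ v ∈ K, L v = 0} := by
  have : CompactSpace K := isCompact_iff_compactSpace.1 hK
  have h1 : IsClosed {p : (F →L[k] E) × K | p.1 (p.2 : F) = 0} :=
    isClosed_eq (by fun_prop) continuous_const
  convert isClosedMap_fst_of_compactSpace _ h1 using 1
  ext L
  simp

theorem nullMeasurableSet_ker {K : Set F} (hK : IsCompact K) {L : X → F →L[k] E}
    (hL : AEStronglyMeasurable L μ) : NullMeasurableSet {x | ∃ v ∈ K, L x v = 0} μ := by
  borelize (F →L[k] E)
  exact hL.aemeasurable.nullMeasurableSet_preimage (isClosed_ker hK).measurableSet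

theorem ae_injective [IsFiniteMeasure μ] [ProperSpace F] {T : X → X} (hT : Ergodic T μ)
    {L : X → F →L[k] E} (hL : AEStronglyMeasurable L μ)
    (hinv : ∀ᵐ x ∂μ, ∀ v, L (T x) v = 0 → L x v = 0)
    (hind : ∀ v, (∀ᵐ x ∂μ, L x v = 0) → v = 0) : ∀ᵐ x ∂μ, Function.Injective (L x) := by
  have key : ∀ v : F, v ≠ 0 → ∃ ε > 0, ∀ᵐ x ∂μ, ∀ w ∈ closedBall v ε, L x w ≠ 0 := by
    intro v hv
    by_contra hcon
    push Not at hcon
    refine hv (hind v ?_)
    have h1 : ∀ n : ℕ, ∀ᵐ x ∂μ, ∃ w ∈ closedBall v (1 / ((n : ℝ) + 1)), L x w = 0 := by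
      intro n
      have h2 : T ⁻¹' {x | ∃ w ∈ closedBall v (1 / ((n : ℝ) + 1)), L x w = 0} ≤ᵐ[μ]
          {x | ∃ w ∈ closedBall v (1 / ((n : ℝ) + 1)), L x w = 0} := by
        filter_upwards [hinv] with x hx hx'
        obtain ⟨w, hw, hw'⟩ := hx'
        exact ⟨w, hw, hx w hw'⟩
      rcases hT.ae_empty_or_univ_of_preimage_ae_le
        (nullMeasurableSet_ker (isCompact_closedBall v _) hL) h2 with h | h
      · refine absurd (hcon _ (Nat.one_div_pos_of_nat (n := n))) (not_frequently.2 ?_)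
        filter_upwards [h.mem_iff] with x hx hx'
        exact hx.1 hx'
      · filter_upwards [h.mem_iff] with x hx
        exact hx.2 (mem_univ x)
    filter_upwards [ae_all_iff.2 h1] with x hx
    choose w hw hw' using hx
    have h3 : Tendsto w atTop (𝓝 v) := tendsto_iff_dist_tendsto_zero.2
      (squeeze_zero (fun _ => dist_nonneg) (fun n => mem_closedBall.1 (hw n))
        tendsto_one_div_add_atTop_nhds_zero_nat)
    have h4 := ((L x).continuous.tendsto v).comp h3
    rw [show (L x) ∘ w = fun _ => 0 from funext hw'] at h4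
    exact tendsto_nhds_unique h4 tendsto_const_nhds
  choose! ε hε hk using key
  obtain ⟨c, hc⟩ := NormedField.exists_one_lt_norm k
  have hK : IsCompact {v : F | 1 / ‖c‖ ≤ ‖v‖ ∧ ‖v‖ ≤ 1} :=
    (isCompact_closedBall (0 : F) 1).of_isClosed_subset
      ((isClosed_le continuous_const continuous_norm).inter
        (isClosed_le continuous_norm continuous_const)) fun v hv => by simpa using hv.2
  have hne : ∀ v ∈ {v : F | 1 / ‖c‖ ≤ ‖v‖ ∧ ‖v‖ ≤ 1}, v ≠ 0 := fun v hv =>
    norm_pos_iff.1 (lt_of_lt_of_le (by positivity) hv.1)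
  obtain ⟨s, hs, hcov⟩ := hK.elim_nhds_subcover (fun v => closedBall v (ε v))
    fun v hv => closedBall_mem_nhds v (hε v (hne v hv))
  filter_upwards [(ae_ball_iff s.countable_toSet).2 fun v hv => hk v (hne v (hs v hv))] with x hx
  refine (injective_iff_map_eq_zero _).2 fun v hv => by_contra fun h0 => ?_
  obtain ⟨d, -, h1, h2, -⟩ := rescale_to_shell hc one_pos h0
  obtain ⟨u, hu, hu'⟩ := mem_iUnion₂.1 (hcov (show d • v ∈ _ from ⟨h2, h1.le⟩))
  exact hx u hu _ hu' (by rw [map_smul, hv, smul_zero])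

variable {G V : Type} [Group G] [MeasurableSpace G] [MulAction G X] [IsProbabilityMeasure μ]
  [ProperSpace k] [NormedAddCommGroup V] [NormedSpace k V] [FiniteDimensional k V]

/-- The evaluation map of a finite family of tuples of vectors. -/
def evK {ι κ : Type} [Fintype ι] [Fintype κ] (u : ι → κ → V) : (ι → k) →L[k] (κ → V) :=
  ∑ a, (ContinuousLinearMap.proj a : (ι → k) →L[k] k).smulRight (u a)

theorem evK_apply {ι κ : Type} [Fintype ι] [Fintype κ] (u : ι → κ → V) (v : ι → k) (j : κ) :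
    evK u v j = ∑ a, v a • u a j := by
  simp [evK, Finset.sum_apply]

theorem continuous_evK {ι κ : Type} [Fintype ι] [Fintype κ] :
    Continuous (evK : (ι → κ → V) → (ι → k) →L[k] (κ → V)) :=
  continuous_finsetSum _ fun a _ =>
    (ContinuousLinearMap.smulRightL k (ι → k) (κ → V) (ContinuousLinearMap.proj a)).continuous.comp
      (continuous_apply a)

theorem aesm_evK {ι κ : Type} [Fintype ι] [Fintype κ] (Φ : ι → κ → X →ₘ[μ] V) :
    AEStronglyMeasurable (fun x => (evK fun a j => Φ a j x : (ι → k) →L[k] (κ → V))) μ := by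
  refine continuous_evK.comp_aestronglyMeasurable ?_
  have : SecondCountableTopology V := by
    have := FiniteDimensional.proper k V
    infer_instance
  borelize V
  exact (aemeasurable_pi_lambda _ fun a => aemeasurable_pi_lambda _ fun j =>
    (Φ a j).aemeasurable).aestronglyMeasurable

/-- Tuples of sections that transform under `h` by the matrix `T`. -/
def Co.eig (C : Co G μ k V) (h : G) {κ : Type} [Fintype κ] (T : κ → κ → k) :
    Submodule k (κ → X →ₘ[μ] V) where
  carrier := {Φ | ∀ j, C.rep h (Φ j) = ∑ i, T i j • Φ i}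
  zero_mem' := by simp
  add_mem' := by
    intro Φ Ψ h1 h2 j
    simp only [Pi.add_apply, map_add, h1 j, h2 j, smul_add, Finset.sum_add_distrib]
  smul_mem' := by
    intro t Φ h1 j
    simp only [Pi.smul_apply, map_smul, h1 j, Finset.smul_sum, smul_comm t]

theorem Co.finite_eig (C : Co G μ k V) {h : G} (hh : Ergodic (fun x : X => h • x) μ) {κ : Type}
    [Fintype κ] (T : κ → κ → k) : FiniteDimensional k (C.eig h T) := by
  refine Module.rank_lt_aleph0_iff.1 (lt_of_le_of_lt (rank_le (n := Module.finrank k (κ → V))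
    fun s hs => ?_) (Cardinal.natCast_lt_aleph0))
  let Φ : s → κ → X →ₘ[μ] V := fun a => a.1.1
  have h1 : ∀ᵐ x ∂μ, Function.Injective (evK fun a j => Φ a j x : (s → k) →L[k] (κ → V)) := by
    refine ae_injective hh (aesm_evK Φ) ?_ fun v hv => ?_
    · have h2 : ∀ a j, ∀ᵐ x ∂μ, C.c h x (Φ a j x) = ∑ i, T i j • Φ a i (h • x) := fun a j => by
        filter_upwards [C.rep_ae h (Φ a j), C.ae_smul h (comb_eq_iff.1 (a.1.2 j))] with x e1 e2
        rw [e1, e2]
      filter_upwards [ae_all_iff.2 fun a => ae_all_iff.2 (h2 a)] with x hx v hv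
      funext j
      refine C.injective h x ?_
      have h3 : ∀ i, ∑ a, v a • Φ a i (h • x) = 0 := fun i => by
        rw [← evK_apply (fun a j => Φ a j (h • x)), hv, Pi.zero_apply]
      rw [evK_apply, map_sum, Pi.zero_apply, map_zero]
      simp only [map_smul, hx, Finset.smul_sum]
      rw [Finset.sum_comm]
      refine Finset.sum_eq_zero fun i _ => ?_
      simp only [smul_comm _ (T i j)]
      rw [← Finset.smul_sum, h3, smul_zero]
    · refine funext (Fintype.linearIndependent_iff.1 hs v (Subtype.ext (funext fun j => ?_)))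
      have h2 : (0 : X →ₘ[μ] V) = ∑ a, v a • Φ a j := comb_eq_iff.2 (by
        filter_upwards [hv, AEEqFun.coeFn_zero (μ := μ) (β := V)] with x e1 e2
        rw [e2, ← evK_apply (fun a j => Φ a j x), e1]
        rfl)
      simpa [Finset.sum_apply] using h2.symm
  obtain ⟨x, hx⟩ := h1.exists
  simpa using LinearMap.finrank_le_finrank_of_injective
    (f := (evK fun a j => Φ a j x : (s → k) →L[k] (κ → V)).toLinearMap) hx

end Pool.Agent.P.MP_d483fb_an.Z.MS

end

end

section

/-!
A section that is invariant under a commuting family lies in a finite dimensional invariant space.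
-/

open MeasureTheory Filter Set Topology
open scoped Pointwise

set_option linter.unusedSectionVars false

noncomputable section

namespace Pool.Agent.P.MP_d483fb_an.Z.MS

/-- If the orbit of a neighbourhood of `1` spans a finite dimensional space, so does the orbit. -/
theorem exists_fin_of_nhds {G k S : Type} [Group G] [TopologicalSpace G] [IsTopologicalGroup G]
    [PreconnectedSpace G] [Field k] [AddCommGroup S] [Module k S] (ρ : G →* Module.End k S)
    (p : S) {O : Set G} (hO : O ∈ 𝓝 (1 : G)) {W₁ : Submodule k S} [FiniteDimensional k W₁]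
    (h : ∀ g ∈ O, ρ g p ∈ W₁) :
    ∃ W : Submodule k S, FiniteDimensional k W ∧ p ∈ W ∧ ∀ g, ∀ w ∈ W, ρ g w ∈ W := by
  let sp : Set G → Submodule k S := fun U => Submodule.span k ((fun g => ρ g p) '' U)
  have mono : ∀ {U U' : Set G}, U ⊆ U' → sp U ≤ sp U' := fun h =>
    Submodule.span_mono (image_mono h)
  have hfin : ∀ U ⊆ O, FiniteDimensional k (sp U) := fun U hU =>
    Submodule.finiteDimensional_of_le (S₂ := W₁) (Submodule.span_le.2 (by
      rintro _ ⟨g, hg, rfl⟩
      exact h g (hU hg)))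
  obtain ⟨⟨U, hU, hUO⟩, hmin⟩ := (wellFounded_lt (α := ℕ)).onFun
    (f := fun U : {U : Set G // U ∈ 𝓝 (1 : G) ∧ U ⊆ O} => Module.finrank k (sp U.1))
      |>.has_min univ ⟨⟨O, hO, Subset.rfl⟩, mem_univ _⟩
  obtain ⟨U₁, hU₁, h1, hsub⟩ := exists_open_nhds_one_mul_subset hU
  have hU₁U : U₁ ⊆ U := fun g hg => hsub (by simpa using Set.mul_mem_mul hg h1)
  have := hfin U hUO
  have e : sp U₁ = sp U := Submodule.eq_of_le_of_finrank_le (mono hU₁U)
    (not_lt.1 (hmin.2 ⟨U₁, hU₁.mem_nhds h1, hU₁U.trans hUO⟩ (mem_univ _)))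
  have hinv : ∀ g ∈ U₁, ∀ w ∈ sp U, ρ g w ∈ sp U := by
    intro g hg w hw
    rw [← e] at hw
    refine (Submodule.span_le (p := (sp U).comap (ρ g))).2 ?_ hw
    rintro _ ⟨g', hg', rfl⟩
    exact Submodule.subset_span ⟨g * g', hsub (Set.mul_mem_mul hg hg'), by simp⟩
  let H : Subgroup G :=
    { carrier := {g | ∀ w ∈ sp U, ρ g w ∈ sp U ∧ ρ g⁻¹ w ∈ sp U}
      one_mem' := fun w hw => by simpa using hw
      mul_mem' := fun {g g'} hg hg' w hw => by
        rw [mul_inv_rev, map_mul, map_mul]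
        exact ⟨(hg _ (hg' w hw).1).1, (hg' _ (hg w hw).2).2⟩
      inv_mem' := fun {g} hg w hw => by
        rw [inv_inv]
        exact (hg w hw).symm }
  have hH : (H : Set G) ∈ 𝓝 (1 : G) := by
    filter_upwards [hU₁.mem_nhds h1, inv_mem_nhds_one G (hU₁.mem_nhds h1)] with g e1 e2 w hw
    exact ⟨hinv g e1 w hw, hinv _ e2 w hw⟩
  have hop := H.isOpen_of_mem_nhds hH
  have huniv := (IsClopen.eq_univ ⟨H.isClosed_of_isOpen hop, hop⟩ ⟨1, H.one_mem⟩)
  refine ⟨sp U, this, Submodule.subset_span ⟨1, mem_of_mem_nhds hU, by simp⟩, fun g w hw => ?_⟩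
  exact ((show g ∈ (H : Set G) from huniv ▸ mem_univ g) w hw).1

variable {G X k V : Type} [Group G] [MeasurableSpace G] [MeasurableSpace X] [MulAction G X]
  {μ : Measure X} [IsProbabilityMeasure μ] [NontriviallyNormedField k] [ProperSpace k]
  [NormedAddCommGroup V] [NormedSpace k V] [FiniteDimensional k V] (C : Co G μ k V)

/-- The centraliser of an ergodic element `h` moves a finite dimensional `h`-invariant space
inside a finite dimensional space. -/
theorem Co.exists_cent {h : G} (hh : Ergodic (fun x : X => h • x) μ)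
    (W : Submodule k (X →ₘ[μ] V)) [FiniteDimensional k W] (hW : ∀ w ∈ W, C.rep h w ∈ W) :
    ∃ W' : Submodule k (X →ₘ[μ] V), FiniteDimensional k W' ∧
      (∀ z, Commute z h → ∀ w ∈ W, C.rep z w ∈ W') ∧
      ∀ z, Commute z h → ∀ w ∈ W', C.rep z w ∈ W' := by
  let b := Module.finBasis k W
  have hb : ∀ w : W, (w : X →ₘ[μ] V) = ∑ j, b.repr w j • (b j : X →ₘ[μ] V) := fun w => by
    conv_lhs => rw [← b.sum_repr w]
    simp only [Submodule.coe_sum, Submodule.coe_smul]
  let T : Fin (Module.finrank k W) → Fin (Module.finrank k W) → k := fun i j =>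
    b.repr ⟨C.rep h (b j), hW _ (b j).2⟩ i
  have hT : ∀ j, C.rep h (b j) = ∑ i, T i j • (b i : X →ₘ[μ] V) := fun j =>
    hb ⟨C.rep h (b j), hW _ (b j).2⟩
  have := C.finite_eig hh T
  let W₀ : Submodule k (X →ₘ[μ] V) := ⨆ j, (C.eig h T).map (LinearMap.proj j)
  have h0 : ∀ z, Commute z h → ∀ w ∈ W, C.rep z w ∈ W₀ := by
    intro z hz w hw
    have e : w = ∑ j, b.repr ⟨w, hw⟩ j • (b j : X →ₘ[μ] V) := hb ⟨w, hw⟩
    rw [e, map_sum]
    refine Submodule.sum_mem _ fun j _ => ?_
    rw [map_smul]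
    refine Submodule.smul_mem _ _ (Submodule.mem_iSup_of_mem j
      ⟨fun i => C.rep z (b i), fun i => ?_, rfl⟩)
    rw [← Module.End.mul_apply, ← map_mul, ← hz.eq, map_mul, Module.End.mul_apply, hT, map_sum]
    simp only [map_smul]
  refine ⟨Submodule.span k {v | ∃ z, Commute z h ∧ ∃ w ∈ W, v = C.rep z w},
    Submodule.finiteDimensional_of_le (S₂ := W₀) (Submodule.span_le.2 ?_),
    fun z hz w hw => Submodule.subset_span ⟨z, hz, w, hw, rfl⟩, fun z hz w hw => ?_⟩
  · rintro _ ⟨z, hz, w, hw, rfl⟩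
    exact h0 z hz w hw
  · refine Submodule.mem_comap.1 (Submodule.span_le.2 ?_ hw)
    rintro _ ⟨z', hz', w, hw, rfl⟩
    exact Submodule.subset_span ⟨z * z', hz.mul_left hz', w, hw, by simp⟩

theorem Co.exists_chain {A : Type} {a : A → G} (ha : ∀ t t', Commute (a t) (a t'))
    {f : X →ₘ[μ] V} (hf : ∀ t, C.rep (a t) f = f) (s : ℕ) (t : Fin s → A)
    (ht : ∀ i, Ergodic (fun x : X => a (t i) • x) μ) :
    ∃ W : Submodule k (X →ₘ[μ] V), FiniteDimensional k W ∧ (∀ u, ∀ w ∈ W, C.rep (a u) w ∈ W) ∧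
      ∀ z : Fin s → G, (∀ i, Commute (z i) (a (t i))) → C.rep (List.ofFn z).prod f ∈ W := by
  induction s with
  | zero =>
    refine ⟨Submodule.span k {f}, inferInstance, fun u w hw => ?_, fun z _ => ?_⟩
    · obtain ⟨c, rfl⟩ := Submodule.mem_span_singleton.1 hw
      rwa [map_smul, hf]
    · simp
  | succ s ih =>
    obtain ⟨W, h1, h2, h3⟩ := ih (fun i => t i.succ) fun i => ht i.succ
    obtain ⟨W', e1, e2, e3⟩ := C.exists_cent (ht 0) W (h2 _)
    refine ⟨W', e1, fun u => e3 _ (ha _ _), fun z hz => ?_⟩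
    rw [List.ofFn_succ, List.prod_cons, map_mul, Module.End.mul_apply]
    exact e2 _ (hz 0) _ (h3 _ fun i => hz i.succ)

theorem Co.exists_fin_abs [TopologicalSpace G] [IsTopologicalGroup G] [PreconnectedSpace G]
    {A : Type} {a : A → G} (ha : ∀ t t', Commute (a t) (a t')) {s : ℕ} {t : Fin s → A}
    (ht : ∀ i, Ergodic (fun x : X => a (t i) • x) μ)
    (hO : {g | ∃ z : Fin s → G, (∀ i, Commute (z i) (a (t i))) ∧ g = (List.ofFn z).prod} ∈
      𝓝 (1 : G)) {f : X →ₘ[μ] V} (hf : ∀ t, C.rep (a t) f = f) :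
    ∃ W : Submodule k (X →ₘ[μ] V), FiniteDimensional k W ∧ f ∈ W ∧
      ∀ g, ∀ w ∈ W, C.rep g w ∈ W := by
  obtain ⟨W, h1, -, h3⟩ := C.exists_chain ha hf s t ht
  refine exists_fin_of_nhds C.rep f hO (W₁ := W) ?_
  rintro _ ⟨z, hz, rfl⟩
  exact h3 z hz

end Pool.Agent.P.MP_d483fb_an.Z.MS

end

end

section

/-!
The lemma of Margulis on invariant sections, for a group in which every wall has a full element.
-/

open MeasureTheory Filter Set Topology
open scoped Matrix Matrix.Norms.Operator InnerProductSpace RealInnerProductSpace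

set_option linter.unusedSectionVars false

noncomputable section

namespace Pool.Agent.P.MP_d483fb_an.Z.MS

section Abs

variable {G X : Type} [Group G] [TopologicalSpace G] [IsTopologicalGroup G]
  [LocallyCompactSpace G] [SecondCountableTopology G] [MeasurableSpace G] [BorelSpace G]
  [MeasurableSpace X] [MulAction G X] [MeasurableSMul₂ G X] {μ : Measure X}
  [IsProbabilityMeasure μ]

theorem ms_of_fin (hmp : ∀ g : G, MeasurePreserving (fun x : X => g • x) μ μ) {A : Type}
    {a : A → G} (h : ∀ (k V : Type) [NontriviallyNormedField k] [ProperSpace k]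
      [NormedAddCommGroup V] [NormedSpace k V] [FiniteDimensional k V] (C : Co G μ k V)
      (f : X →ₘ[μ] V), (∀ t, C.rep (a t) f = f) → ∃ W : Submodule k (X →ₘ[μ] V),
        FiniteDimensional k W ∧ f ∈ W ∧ ∀ g, ∀ w ∈ W, C.rep g w ∈ W) : SR.MS μ a := by
  intro k V _ _ _ _ _ c hc h1 hmul f hf hinv
  let C : Co G μ k V := ⟨c, hmp, hc, h1, hmul⟩
  have e0 := AEEqFun.coeFn_mk f (hf.aestronglyMeasurable (μ := μ))
  obtain ⟨W, hW, hfW, hG⟩ := h k V C (AEEqFun.mk f hf.aestronglyMeasurable) fun t =>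
    C.rep_eq_iff.2 (by
      filter_upwards [hinv t, e0, C.ae_smul (a t) e0] with x e1 e2 e3
      rw [e2, e3]
      exact e1)
  let b := Module.finBasis k W
  have hli : LinearIndependent k fun j => (b j : X →ₘ[μ] V) :=
    b.linearIndependent.map' W.subtype W.ker_subtype
  have hsp : Submodule.span k (range fun j => (b j : X →ₘ[μ] V)) = W := by
    rw [show (fun j => (b j : X →ₘ[μ] V)) = W.subtype ∘ b from rfl, range_comp,
      ← Submodule.map_span, b.span_eq, Submodule.map_subtype_top]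
  obtain ⟨τ, hτ, hrep⟩ := C.exists_tau hli fun g j => hsp.symm ▸ hG g _ (b j).2
  obtain ⟨v, hv⟩ := (Submodule.mem_span_range_iff_exists_fun k).1 (hsp.symm ▸ hfW)
  refine ⟨_, fun j => (b j : X →ₘ[μ] V), τ, v, hτ, fun j => AEEqFun.stronglyMeasurable _,
    fun g j => ?_, fun u hu => funext (Fintype.linearIndependent_iff.1 hli u ?_), ?_⟩
  · filter_upwards [C.rep_ae g (b j), C.ae_smul g (comb_eq_iff.1 (hrep g j))] with x e1 e2
    exact e1.trans e2
  · refine (comb_eq_iff.2 ?_).symm
    filter_upwards [hu, AEEqFun.coeFn_zero (μ := μ) (β := V)] with x e1 e2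
    rw [e1, e2]
    rfl
  · filter_upwards [e0, comb_eq_iff.1 hv.symm] with x e1 e2
    rw [← e1, e2]

end Abs

variable {G X : Type} [Group G] [TopologicalSpace G] [IsTopologicalGroup G] [PreconnectedSpace G]
  [LocallyCompactSpace G] [SecondCountableTopology G] [MeasurableSpace G] [BorelSpace G]
  [TopologicalSpace X] [TopologicalSpace.PseudoMetrizableSpace X] [MeasurableSpace X]
  [BorelSpace X] [MulAction G X] [ContinuousSMul G X] {μ : Measure X} [IsProbabilityMeasure μ]
  {n r : ℕ} (D : Std G n r)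

theorem GErg.ergodic_full (h : GErg G μ) {s : Euc r} (hs : D.Full s) :
    Ergodic (fun x : X => D.a s • x) μ :=
  ⟨h.mp _, ⟨fun U hU hi => h.erg U hU (D.moore h.mp hs hU hi.eventuallyEq)⟩⟩

theorem commute_ex {Y Z : Mat n} (hY : Y ∈ D.g) (hZ : Z ∈ D.g) (h : ⁅Y, Z⁆ = 0) :
    Commute (D.ex Y) (D.ex Z) := by
  rw [Commute, SemiconjBy, ← D.ex_add_of_commute hY hZ h,
    ← D.ex_add_of_commute hZ hY (by rwa [Ring.lie_def, sub_eq_zero, eq_comm, ← sub_eq_zero]), add_comm]

theorem br_wall {θ s : Euc r} (h : ⟪θ, s⟫ = 0) {Y : Mat n} (hY : Y ∈ D.gr θ) :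
    ⁅Y, D.dg s⁆ = 0 := by
  suffices h1 : ⁅D.dg s, Y⁆ = 0 by rwa [Ring.lie_def, sub_eq_zero, eq_comm, ← sub_eq_zero]
  ext i j
  rw [D.mo_br, Matrix.zero_apply]
  by_cases h0 : Y i j = 0
  · rw [h0, mul_zero]
  · rw [show D.lam i - D.lam j = θ from hY.2 i j h0, h, zero_mul]

theorem commute_a (t t' : Euc r) : Commute (D.a t) (D.a t') :=
  commute_ex D (D.dg_mem t) (D.dg_mem t') (by
    simp [Ring.lie_def, Std.dg_apply, Matrix.diagonal_mul_diagonal, mul_comm])

theorem Co.exists_fin_of_wall (hw : ∀ θ : Euc r, ∃ s, ⟪θ, s⟫ = 0 ∧ D.Full s) {k V : Type}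
    [NontriviallyNormedField k] [ProperSpace k] [NormedAddCommGroup V] [NormedSpace k V]
    [FiniteDimensional k V] (C : Co G μ k V) (h : GErg G μ) {f : X →ₘ[μ] V}
    (hf : ∀ t, C.rep (D.a t) f = f) : ∃ W : Submodule k (X →ₘ[μ] V), FiniteDimensional k W ∧
      f ∈ W ∧ ∀ g, ∀ w ∈ W, C.rep g w ∈ W := by
  choose σ h1 h2 using hw
  let e := D.wts.equivFin.symm
  refine C.exists_fin_abs (commute_a D) (t := fun i => σ (e i))
    (fun i => h.ergodic_full D (h2 _)) (mem_of_superset (D.prod_nhds (fun i => D.gr (e i))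
      (fun i => inf_le_left) (fun Y hY => ?_) one_pos) ?_) hf
  · rw [← D.mo_sum Y]
    refine Submodule.sum_mem _ fun β hβ => Submodule.mem_iSup_of_mem (e.symm ⟨β, hβ⟩) ?_
    rw [Equiv.apply_symm_apply]
    exact D.mo_pr β hY
  · rintro _ ⟨Y, hY, rfl⟩
    exact ⟨fun i => D.ex (Y i), fun i =>
      commute_ex D (hY i).1.1 (D.dg_mem _) (br_wall D (h1 _) (hY i).1), rfl⟩

theorem section_of_wall (hw : ∀ θ : Euc r, ∃ s, ⟪θ, s⟫ = 0 ∧ D.Full s) (h : GErg G μ) :
    SR.MS μ D.a :=
  ms_of_fin h.mp fun _ _ _ _ _ _ _ C _ hf => C.exists_fin_of_wall D hw h hf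

end Pool.Agent.P.MP_d483fb_an.Z.MS

end

end

section

/-!
The lemma of Margulis on invariant sections.
-/

open MeasureTheory Filter Set Topology
open scoped Matrix Matrix.Norms.Operator InnerProductSpace RealInnerProductSpace

set_option linter.unusedSectionVars false

noncomputable section

namespace Pool.Agent.P.MP_d483fb_an.Z.MS

variable {G X : Type} [Group G] [TopologicalSpace G] [IsTopologicalGroup G] [PreconnectedSpace G]
  {n r : ℕ} (D : Std G n r)

theorem exists_full_wall (θ : Euc r) : ∃ s, ⟪θ, s⟫ = 0 ∧ D.Full s := by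
  obtain ⟨s, h1, h2⟩ := exists_generic_wall θ D.roots
  refine ⟨s, h1, fun γ hγ => ?_⟩
  by_cases h : ∀ c : ℝ, γ ≠ c • θ
  · exact ⟨γ, hγ, Relation.ReflTransGen.refl, h2 γ hγ h⟩
  push Not at h
  obtain ⟨c, hc⟩ := h
  have hc0 : c ≠ 0 := by
    rintro rfl
    exact D.root_ne_zero hγ (by rw [hc, zero_smul])
  obtain ⟨α, hα, h3, h4⟩ := D.rank2 hγ
  refine ⟨α, hα, Relation.ReflTransGen.single ⟨hγ, hα, ?_⟩, h2 α hα fun c' hc' => h4 (c' / c) ?_⟩
  · rw [real_inner_comm]
    exact h3.ne'
  · rw [hc', hc, smul_smul, div_mul_cancel₀ _ hc0]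

/-- The contracted elements generate the group. -/
theorem gen_of_std (D : Std G n r) : SR.Gen G := fun S _ h =>
  D.eq_top_of_le_lie (D.mo_gen (D.lie_le S) (D.lie_isSub S) fun β hβ =>
    D.le_lie inf_le_left fun Y hY => h _ _ (D.tendsto_conj_np (s := β) ⟨hY.1, fun i j hij => by
      rw [show D.lam i - D.lam j = β from hY.2 i j hij]
      exact real_inner_self_pos.2 (D.root_ne_zero hβ)⟩))

variable [LocallyCompactSpace G] [SecondCountableTopology G] [MeasurableSpace G] [BorelSpace G]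
  [TopologicalSpace X] [TopologicalSpace.PseudoMetrizableSpace X] [MeasurableSpace X]
  [BorelSpace X] [MulAction G X] [ContinuousSMul G X] {μ : Measure X} [IsProbabilityMeasure μ]

theorem ergodic_wall (h : GErg G μ) (θ : Euc r) :
    ∃ t : Euc r, ⟪θ, t⟫ = 0 ∧ Ergodic (fun x : X => D.a t • x) μ :=
  (exists_full_wall D θ).imp fun _ hs => ⟨hs.1, h.ergodic_full D hs.2⟩

theorem Co.exists_fin {k V : Type} [NontriviallyNormedField k] [ProperSpace k]
    [NormedAddCommGroup V] [NormedSpace k V] [FiniteDimensional k V] (C : Co G μ k V)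
    (h : GErg G μ) {f : X →ₘ[μ] V} (hf : ∀ t, C.rep (D.a t) f = f) :
    ∃ W : Submodule k (X →ₘ[μ] V), FiniteDimensional k W ∧ f ∈ W ∧
      ∀ g, ∀ w ∈ W, C.rep g w ∈ W :=
  C.exists_fin_of_wall D (exists_full_wall D) h hf

/-- The lemma of Margulis. -/
theorem section_lemma (h : GErg G μ) : SR.MS μ D.a := section_of_wall D (exists_full_wall D) h

end Pool.Agent.P.MP_d483fb_an.Z.MS

end

end
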