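import Pool.Agent.P.MP_d483fb_an.M.A08
import Pool.Agent.P.MP_d483fb_an.M.A12
import Pool.Agent.P.MP_d483fb_an.M.A15

section

/-! The Finsler norm of a group with an exponential chart. -/

open scoped Matrix Matrix.Norms.Operator Topology
open NormedSpace Filter Set

set_option linter.unusedSectionVars false

noncomputable section

namespace Pool.Agent.P.MP_d483fb_an.Z

namespace ExpData

variable {G : Type} [Group G] [TopologicalSpace G] [IsTopologicalGroup G] [ConnectedSpace G] {n : ℕ}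
  (D : ExpData G n)

/-- The infimum of the total lengths of the words in exponentials that represent `g`. -/
def len (g : G) : ℝ :=
  sInf {r | ∃ l : List (Mat n), (∀ X ∈ l, X ∈ D.g) ∧ (l.map D.ex).prod = g ∧ (l.map norm).sum = r}

theorem Len_norm_one_le : ‖(1 : Mat n)‖ ≤ 1 := by
  rw [← Matrix.diagonal_one, Matrix.linfty_opNorm_diagonal]
  exact (pi_norm_le_iff_of_nonneg zero_le_one).2 fun i => by simp

theorem Len_norm_exp_sub_one (X : Mat n) : ‖exp X - 1‖ ≤ Real.exp ‖X‖ - 1 := by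
  have h1 := (expSeries_hasSum_exp (𝕂 := ℝ) X)
  have h2 := (expSeries_hasSum_exp (𝕂 := ℝ) ‖X‖)
  rw [← hasSum_nat_add_iff' 1] at h1 h2
  simp only [Finset.range_one, Finset.sum_singleton, expSeries_apply_eq, Nat.factorial_zero,
    Nat.cast_one, inv_one, pow_zero, one_smul] at h1 h2
  rw [Real.exp_eq_exp_ℝ]
  refine h1.norm_le_of_bounded h2 fun m => ?_
  rw [norm_smul, smul_eq_mul, Real.norm_of_nonneg (by positivity)]
  gcongr
  exact norm_pow_le' _ (Nat.succ_pos m)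

theorem Len_nonempty (g : G) : {r | ∃ l : List (Mat n), (∀ X ∈ l, X ∈ D.g) ∧
    (l.map D.ex).prod = g ∧ (l.map norm).sum = r}.Nonempty := by
  have : ∃ l : List (Mat n), (∀ X ∈ l, X ∈ D.g) ∧ (l.map D.ex).prod = g := by
    refine D.ex_induction (p := fun g => ∃ l : List (Mat n), (∀ X ∈ l, X ∈ D.g) ∧
      (l.map D.ex).prod = g) one_pos ⟨[], by simp, by simp⟩ ?_ g
    rintro X hX - x ⟨l, hl, rfl⟩
    exact ⟨X :: l, by simpa using ⟨hX, hl⟩, by simp⟩
  obtain ⟨l, hl, hg⟩ := this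
  exact ⟨_, l, hl, hg, rfl⟩

theorem Len_sum_nonneg (l : List (Mat n)) : 0 ≤ (l.map norm).sum :=
  List.sum_nonneg fun x hx => by
    obtain ⟨X, -, rfl⟩ := List.mem_map.1 hx
    exact norm_nonneg X

theorem Len_le {l : List (Mat n)} (hl : ∀ X ∈ l, X ∈ D.g) :
    D.len (l.map D.ex).prod ≤ (l.map norm).sum :=
  csInf_le ⟨0, by rintro _ ⟨l, -, -, rfl⟩; exact Len_sum_nonneg l⟩ ⟨l, hl, rfl, rfl⟩

theorem Len_le_len {g : G} {c : ℝ} (h : ∀ l : List (Mat n), (∀ X ∈ l, X ∈ D.g) →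
    (l.map D.ex).prod = g → c ≤ (l.map norm).sum) : c ≤ D.len g :=
  le_csInf (D.Len_nonempty g) (by rintro _ ⟨l, hl, hg, rfl⟩; exact h l hl hg)

theorem Len_exists (g : G) {ε : ℝ} (hε : 0 < ε) : ∃ l : List (Mat n), (∀ X ∈ l, X ∈ D.g) ∧
    (l.map D.ex).prod = g ∧ (l.map norm).sum < D.len g + ε := by
  obtain ⟨_, ⟨l, hl, hg, rfl⟩, h⟩ := exists_lt_of_csInf_lt (D.Len_nonempty g)
    (lt_add_of_pos_right (D.len g) hε)
  exact ⟨l, hl, hg, h⟩

theorem Len_inv_le (g : G) : D.len g⁻¹ ≤ D.len g := by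
  refine D.Len_le_len fun l hl hg => ?_
  have h1 : ∀ l : List (Mat n), (∀ X ∈ l, X ∈ D.g) →
      (((l.map fun X => -X).reverse).map D.ex).prod = (l.map D.ex).prod⁻¹ := by
    intro l hl
    induction l with
    | nil => simp
    | cons X l ih =>
      rw [List.map_cons, List.reverse_cons, List.map_append, List.prod_append,
        ih fun Y hY => hl Y (List.mem_cons_of_mem _ hY)]
      simp [D.ex_neg (hl X List.mem_cons_self)]
  have h2 := D.Len_le (l := (l.map fun X => -X).reverse) (fun X hX => by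
    obtain ⟨Y, hY, rfl⟩ := List.mem_map.1 (List.mem_reverse.1 hX)
    exact D.g.neg_mem (hl Y hY))
  rw [h1 l hl, hg, List.map_reverse, List.sum_reverse, List.map_map] at h2
  simpa [Function.comp_def] using h2

theorem Len_norm_prod (l : List (Mat n)) (hl : ∀ X ∈ l, X ∈ D.g) :
    ‖D.ρ (l.map D.ex).prod - 1‖ ≤ Real.exp (l.map norm).sum - 1 := by
  induction l with
  | nil => simp
  | cons X l ih =>
    have h1 := ih fun Y hY => hl Y (List.mem_cons_of_mem _ hY)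
    have h2 := Len_norm_exp_sub_one X
    rw [List.map_cons, List.prod_cons, map_mul, D.ρ_ex _ (hl X List.mem_cons_self), List.map_cons,
      List.sum_cons, Real.exp_add]
    set B := D.ρ (l.map D.ex).prod
    have e : exp X * B - 1 = (exp X - 1) * (B - 1) + (exp X - 1) + (B - 1) := by noncomm_ring
    rw [e]
    refine (norm_add₃_le).trans ?_
    have h3 := (norm_mul_le (exp X - 1) (B - 1)).trans
      (mul_le_mul h2 h1 (norm_nonneg _) ((norm_nonneg _).trans h2))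
    linarith

theorem Len_split (l : List (Mat n)) (hl : ∀ X ∈ l, X ∈ D.g) {s : ℝ} (hs : 0 ≤ s) :
    ∃ l₁ l₂ : List (Mat n), (∀ X ∈ l₁, X ∈ D.g) ∧ (∀ X ∈ l₂, X ∈ D.g) ∧
      (l.map D.ex).prod = (l₁.map D.ex).prod * (l₂.map D.ex).prod ∧ (l₁.map norm).sum ≤ s ∧
      (l₂.map norm).sum ≤ max ((l.map norm).sum - s) 0 := by
  induction l generalizing s with
  | nil => exact ⟨[], [], by simp, by simp, by simp, by simpa using hs, by simp⟩
  | cons X l ih =>
    have hX := hl X List.mem_cons_self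
    have hl' : ∀ Y ∈ l, Y ∈ D.g := fun Y hY => hl Y (List.mem_cons_of_mem _ hY)
    rcases le_or_gt ‖X‖ s with h | h
    · obtain ⟨l₁, l₂, h1, h2, h3, h4, h5⟩ := ih hl' (sub_nonneg.2 h)
      refine ⟨X :: l₁, l₂, by simpa using ⟨hX, h1⟩, h2, by simp [h3, mul_assoc], ?_, ?_⟩
      · rw [List.map_cons, List.sum_cons]; linarith
      · rw [List.map_cons, List.sum_cons]
        convert h5 using 2
        ring
    · have h0 : 0 < ‖X‖ := hs.trans_lt h
      have h1 : s / ‖X‖ ≤ 1 := (div_le_one h0).2 h.le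
      refine ⟨[(s / ‖X‖) • X], (1 - s / ‖X‖) • X :: l, by simpa using D.g.smul_mem _ hX,
        by simpa using ⟨D.g.smul_mem _ hX, hl'⟩, ?_, ?_, ?_⟩
      · simp only [List.map_cons, List.prod_cons, List.map_nil, List.prod_nil, mul_one]
        rw [← mul_assoc, ← D.ex_add_smul hX, add_sub_cancel, one_smul]
      · simp only [List.map_cons, List.sum_cons, List.map_nil, List.sum_nil, add_zero]
        rw [norm_smul, Real.norm_of_nonneg (by positivity), div_mul_cancel₀ _ h0.ne']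
      · refine le_trans (le_of_eq ?_) (le_max_left _ _)
        simp only [List.map_cons, List.sum_cons]
        rw [norm_smul, Real.norm_of_nonneg (sub_nonneg.2 h1), sub_mul, div_mul_cancel₀ _ h0.ne']
        ring

theorem len_nonneg (g : G) : 0 ≤ D.len g :=
  D.Len_le_len fun l _ _ => Len_sum_nonneg l

theorem len_one : D.len 1 = 0 :=
  le_antisymm (by simpa using D.Len_le (l := []) (by simp)) (D.len_nonneg 1)

theorem len_inv (g : G) : D.len g⁻¹ = D.len g :=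
  le_antisymm (D.Len_inv_le g) (by simpa using D.Len_inv_le g⁻¹)

theorem len_mul (g h : G) : D.len (g * h) ≤ D.len g + D.len h := by
  refine le_of_forall_pos_le_add fun ε hε => ?_
  obtain ⟨l₁, h1, rfl, h2⟩ := D.Len_exists g (half_pos hε)
  obtain ⟨l₂, h3, rfl, h4⟩ := D.Len_exists h (half_pos hε)
  have := D.Len_le (l := l₁ ++ l₂) fun X hX => (List.mem_append.1 hX).elim (h1 X) (h3 X)
  rw [List.map_append, List.prod_append, List.map_append, List.sum_append] at this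
  linarith

theorem len_ex_le {X : Mat n} (hX : X ∈ D.g) : D.len (D.ex X) ≤ ‖X‖ := by
  simpa using D.Len_le (l := [X]) (by simpa using hX)

theorem norm_ρ_sub_one (g : G) : ‖D.ρ g - 1‖ ≤ Real.exp (D.len g) - 1 := by
  have h0 : 0 < ‖D.ρ g - 1‖ + 1 := by positivity
  have : Real.log (‖D.ρ g - 1‖ + 1) ≤ D.len g := D.Len_le_len fun l hl hg => by
    have := D.Len_norm_prod l hl
    rw [hg] at this
    rw [Real.log_le_iff_le_exp h0]
    linarith
  rw [Real.log_le_iff_le_exp h0] at this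
  linarith

theorem norm_ρ_le (g : G) : ‖D.ρ g‖ ≤ Real.exp (D.len g) := by
  have h1 := D.norm_ρ_sub_one g
  have h2 := norm_add_le (D.ρ g - 1) 1
  rw [sub_add_cancel] at h2
  have h3 := Len_norm_one_le (n := n)
  linarith

theorem norm_Ad_len (g : G) (X : Mat n) : ‖D.Ad g X‖ ≤ Real.exp (2 * D.len g) * ‖X‖ := by
  refine (D.norm_Ad_le g X).trans (mul_le_mul_of_nonneg_right ?_ (norm_nonneg _))
  have h := D.norm_ρ_le g⁻¹
  rw [D.len_inv] at h
  rw [two_mul, Real.exp_add]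
  exact mul_le_mul (D.norm_ρ_le g) h (norm_nonneg _) (Real.exp_pos _).le

theorem len_conj' (g h : G) : D.len (g * h * g⁻¹) ≤ ‖D.ρ g‖ * ‖D.ρ g⁻¹‖ * D.len h := by
  set c := ‖D.ρ g‖ * ‖D.ρ g⁻¹‖ with hc
  have hc0 : 0 ≤ c := by positivity
  have key : ∀ l : List (Mat n), (∀ X ∈ l, X ∈ D.g) →
      ((l.map (D.Ad g)).map D.ex).prod = g * (l.map D.ex).prod * g⁻¹ ∧
      ((l.map (D.Ad g)).map norm).sum ≤ c * (l.map norm).sum := by
    intro l hl
    induction l with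
    | nil => simp
    | cons X l ih =>
      obtain ⟨h1, h2⟩ := ih fun Y hY => hl Y (List.mem_cons_of_mem _ hY)
      simp only [List.map_cons, List.prod_cons, List.sum_cons]
      refine ⟨?_, ?_⟩
      · rw [h1, ← D.conj_ex g (hl X List.mem_cons_self)]
        group
      · have := D.norm_Ad_le g X
        rw [mul_add]
        linarith
  refine le_of_forall_pos_le_add fun ε hε => ?_
  obtain ⟨l, h1, rfl, h2⟩ := D.Len_exists h (ε := ε / (c + 1)) (by positivity)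
  have h3 := D.Len_le (l := l.map (D.Ad g)) fun X hX => by
    obtain ⟨Y, hY, rfl⟩ := List.mem_map.1 hX
    exact D.Ad_mem g (h1 Y hY)
  obtain ⟨h4, h5⟩ := key l h1
  rw [h4] at h3
  have h6 : c * (ε / (c + 1)) ≤ ε := by
    rw [← mul_div_assoc, div_le_iff₀ (by positivity)]
    nlinarith
  have h7 := mul_le_mul_of_nonneg_left h2.le hc0
  rw [mul_add] at h7
  linarith

theorem len_conj (g h : G) : D.len (g * h * g⁻¹) ≤ Real.exp (2 * D.len g) * D.len h := by
  refine (D.len_conj' g h).trans (mul_le_mul_of_nonneg_right ?_ (D.len_nonneg _))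
  have h := D.norm_ρ_le g⁻¹
  rw [D.len_inv] at h
  rw [two_mul, Real.exp_add]
  exact mul_le_mul (D.norm_ρ_le g) h (norm_nonneg _) (Real.exp_pos _).le

theorem continuous_len : Continuous D.len := by
  have h0 : Tendsto D.len (𝓝 1) (𝓝 0) := by
    have h1 : Tendsto (fun x => ‖D.lg x‖) (𝓝 1) (𝓝 0) := by
      simpa using (D.tendsto_lg.mono_right nhdsWithin_le_nhds).norm
    refine squeeze_zero' (Eventually.of_forall D.len_nonneg) ?_ h1
    filter_upwards [D.ex_lg] with x hx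
    simpa only [hx.2] using D.len_ex_le hx.1
  refine continuous_iff_continuousAt.2 fun h => ?_
  have h2 : Tendsto (fun g => D.len (g * h⁻¹)) (𝓝 h) (𝓝 0) :=
    h0.comp (by simpa using (continuous_mul_const h⁻¹).tendsto h)
  rw [ContinuousAt, tendsto_iff_norm_sub_tendsto_zero]
  refine squeeze_zero (fun _ => norm_nonneg _) (fun g => ?_) h2
  have h3 := D.len_mul (g * h⁻¹) h
  have h4 := D.len_mul (g * h⁻¹)⁻¹ g
  rw [D.len_inv] at h4
  simp only [inv_mul_cancel_right, mul_inv_rev, inv_inv] at h3 h4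
  rw [Real.norm_eq_abs, abs_le]
  constructor <;> linarith

theorem len_split' (g : G) {s t ε : ℝ} (hs : 0 ≤ s) (ht : 0 ≤ t) (hε : 0 < ε)
    (h : D.len g ≤ s + t) : ∃ u v, D.len u ≤ s ∧ D.len v ≤ t + ε ∧ g = u * v := by
  obtain ⟨l, hl, rfl, h2⟩ := D.Len_exists g hε
  obtain ⟨l₁, l₂, h3, h4, h5, h6, h7⟩ := D.Len_split l hl hs
  refine ⟨_, _, (D.Len_le h3).trans h6, (D.Len_le h4).trans (h7.trans ?_), h5⟩
  exact max_le (by linarith) (by positivity)

end ExpData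

end Pool.Agent.P.MP_d483fb_an.Z

end

end

section

/-! The Finsler norm: chart, properness, covering numbers. -/

open scoped Matrix Matrix.Norms.Operator Topology
open NormedSpace Filter Set

set_option linter.unusedSectionVars false

noncomputable section

namespace Pool.Agent.P.MP_d483fb_an.Z

theorem Len2_entry_le {n : ℕ} (A : Mat n) (i j : Fin n) : |A i j| ≤ ‖A‖ := by
  rw [Matrix.linfty_opNorm_def]
  have h1 : ‖A i j‖₊ ≤ ∑ j, ‖A i j‖₊ :=
    Finset.single_le_sum (f := fun j => ‖A i j‖₊) (fun _ _ => bot_le) (Finset.mem_univ j)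
  have h2 : (∑ j, ‖A i j‖₊) ≤ Finset.univ.sup fun i => ∑ j, ‖A i j‖₊ :=
    Finset.le_sup (f := fun i => ∑ j, ‖A i j‖₊) (Finset.mem_univ i)
  exact_mod_cast h1.trans h2

theorem Len2_norm_le {n : ℕ} (A : Mat n) {ε : ℝ} (hε : 0 ≤ ε) (h : ∀ i j, |A i j| ≤ ε) :
    ‖A‖ ≤ n * ε := by
  rw [Matrix.linfty_opNorm_def]
  lift ε to NNReal using hε
  have : (Finset.univ.sup fun i => ∑ j, ‖A i j‖₊) ≤ (n : NNReal) * ε := by
    refine Finset.sup_le fun i _ => ?_
    calc ∑ j, ‖A i j‖₊ ≤ ∑ _j : Fin n, ε := Finset.sum_le_sum fun j _ => h i j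
      _ = _ := by simp
  exact_mod_cast this

theorem Len2_exp_le {x : ℝ} (h0 : 0 ≤ x) (h : x ≤ 1 / 2) : Real.exp x - 1 ≤ 3 / 2 * x := by
  have h1 := Real.abs_exp_sub_one_sub_id_le (x := x) (by rw [abs_of_nonneg h0]; linarith)
  have h2 := (abs_le.1 h1).2
  nlinarith

theorem Len2_exp_lip {A : Type} [NormedRing A] [NormedAlgebra ℝ A] [CompleteSpace A] :
    ∃ c : ℝ, 0 < c ∧ ∀ X Y : A, ‖X‖ < c → ‖Y‖ < c →
      ‖exp X * exp (-Y) - 1‖ ≤ 3 / 2 * ‖X - Y‖ ∧ ‖X - Y‖ ≤ 2 * ‖exp X * exp (-Y) - 1‖ := by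
  have h1 := (exp_strict_refl (A := A)).isLittleO.def (c := 1 / 5) (by norm_num)
  obtain ⟨c1, hc1, h1⟩ := Metric.eventually_nhds_iff.1 h1
  have h2 : ∀ᶠ X in 𝓝 (0 : A), ‖exp X - 1‖ < 1 / 5 := by
    have h : Continuous fun X : A => ‖exp X - 1‖ := (exp_cont.sub continuous_const).norm
    exact h.continuousAt.eventually_lt continuousAt_const (by simp)
  obtain ⟨c2, hc2, h2⟩ := Metric.eventually_nhds_iff.1 h2
  refine ⟨min c1 c2, lt_min hc1 hc2, fun X Y hX hY => ?_⟩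
  have h3 : ‖exp X - exp Y - (X - Y)‖ ≤ 1 / 5 * ‖X - Y‖ := by
    have := h1 (y := (X, Y)) (by
      rw [Prod.dist_eq, dist_zero_right, dist_zero_right]
      exact max_lt (hX.trans_le (min_le_left _ _)) (hY.trans_le (min_le_left _ _)))
    simpa using this
  have h4 : ‖exp Y - 1‖ < 1 / 5 := h2 (by simpa using hY.trans_le (min_le_right _ _))
  have h5 : ‖exp (-Y) - 1‖ < 1 / 5 := h2 (by simpa using hY.trans_le (min_le_right _ _))
  have e1 : exp X * exp (-Y) - 1 = (exp X - exp Y) + (exp X - exp Y) * (exp (-Y) - 1) := by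
    rw [← exp_mul_neg Y]
    simp only [mul_sub, sub_mul, exp_mul_neg, mul_one]
    abel
  have e2 : exp X - exp Y =
      (exp X * exp (-Y) - 1) + (exp X * exp (-Y) - 1) * (exp Y - 1) := by
    simp only [mul_sub, sub_mul, mul_assoc, exp_neg_mul, mul_one, one_mul]
    abel
  have n1 := norm_sub_norm_le (exp X - exp Y) (X - Y)
  have n2 := norm_sub_norm_le (X - Y) (exp X - exp Y)
  rw [norm_sub_rev (X - Y)] at n2
  have n3 : ‖exp X * exp (-Y) - 1‖ ≤ ‖exp X - exp Y‖ + ‖exp X - exp Y‖ * (1 / 5) := by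
    rw [e1]
    exact (norm_add_le _ _).trans (add_le_add le_rfl ((norm_mul_le _ _).trans
      (mul_le_mul_of_nonneg_left h5.le (norm_nonneg _))))
  have n4 : ‖exp X - exp Y‖ ≤
      ‖exp X * exp (-Y) - 1‖ + ‖exp X * exp (-Y) - 1‖ * (1 / 5) := by
    conv_lhs => rw [e2]
    exact (norm_add_le _ _).trans (add_le_add le_rfl ((norm_mul_le _ _).trans
      (mul_le_mul_of_nonneg_left h4.le (norm_nonneg _))))
  have n5 := norm_nonneg (X - Y)
  have n6 := norm_nonneg (exp X * exp (-Y) - 1)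
  constructor <;> linarith

/-- Nets in the unit ball of the matrices. -/
theorem Len2_net {n : ℕ} (S : Set (Mat n)) (hS : ∀ X ∈ S, ‖X‖ ≤ 1) {η : ℝ} (h0 : 0 < η)
    (h1 : η ≤ 1) : ∃ F : Finset (Mat n), (∀ Y ∈ F, Y ∈ S) ∧ (F.card : ℝ) ≤ (5 / η) ^ (n * n) ∧
      ∀ X ∈ S, ∃ Y ∈ F, ‖X - Y‖ ≤ n * η := by
  classical
  let φ : Mat n → Fin n × Fin n → ℤ := fun X p => ⌊X p.1 p.2 / η⌋
  let N : ℕ := ⌈1 / η⌉₊
  let B : Finset (Fin n × Fin n → ℤ) := Fintype.piFinset fun _ => Finset.Icc (-(N : ℤ)) N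
  have hN : 1 / η ≤ N := Nat.le_ceil _
  have hN' : (N : ℝ) < 1 / η + 1 := Nat.ceil_lt_add_one (by positivity)
  have hB : ∀ X ∈ S, φ X ∈ B := by
    intro X hX
    refine Fintype.mem_piFinset.2 fun p => Finset.mem_Icc.2 ?_
    have h2 := abs_le.1 ((Len2_entry_le X p.1 p.2).trans (hS X hX))
    have h3 : X p.1 p.2 / η ≤ 1 / η := div_le_div_of_nonneg_right h2.2 h0.le
    have h4 : -1 / η ≤ X p.1 p.2 / η := div_le_div_of_nonneg_right h2.1 h0.le
    rw [neg_div] at h4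
    constructor
    · refine Int.le_floor.2 ?_
      push_cast
      linarith
    · have h5 : (⌊X p.1 p.2 / η⌋ : ℝ) ≤ N := (Int.floor_le _).trans (h3.trans hN)
      exact_mod_cast h5
  refine ⟨(B.filter fun m => m ∈ φ '' S).image (Function.invFunOn φ S), ?_, ?_, ?_⟩
  · intro Y hY
    obtain ⟨m, hm, rfl⟩ := Finset.mem_image.1 hY
    exact Function.invFunOn_mem (Finset.mem_filter.1 hm).2
  · have h2 : B.card = (2 * N + 1) ^ (n * n) := by
      have h3 : (Finset.Icc (-(N : ℤ)) N).card = 2 * N + 1 := by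
        rw [Int.card_Icc]
        omega
      simp [B, h3]
    have h3 : ((B.filter fun m => m ∈ φ '' S).image (Function.invFunOn φ S)).card ≤ B.card :=
      Finset.card_image_le.trans (Finset.card_filter_le _ _)
    have h4 : (1 : ℝ) ≤ 1 / η := by rw [le_div_iff₀ h0]; linarith
    have h5 : ((2 * N + 1 : ℕ) : ℝ) ≤ 5 / η := by
      have : 5 / η = 5 * (1 / η) := by ring
      push_cast
      linarith
    calc _ ≤ (B.card : ℝ) := by exact_mod_cast h3
      _ = ((2 * N + 1 : ℕ) : ℝ) ^ (n * n) := by rw [h2]; push_cast; rfl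
      _ ≤ _ := pow_le_pow_left₀ (by positivity) h5 _
  · intro X hX
    have hm : φ X ∈ φ '' S := mem_image_of_mem φ hX
    refine ⟨_, Finset.mem_image_of_mem _ (Finset.mem_filter.2 ⟨hB X hX, hm⟩), ?_⟩
    refine Len2_norm_le _ h0.le fun i j => ?_
    have h2 : φ (Function.invFunOn φ S (φ X)) = φ X := Function.invFunOn_eq hm
    have h3 := Int.abs_sub_lt_one_of_floor_eq_floor (congrFun h2 (i, j)).symm
    rw [← sub_div, abs_div, abs_of_pos h0, div_lt_one h0] at h3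
    exact h3.le

namespace ExpData

variable {G : Type} [Group G] [TopologicalSpace G] [IsTopologicalGroup G] [ConnectedSpace G] {n : ℕ}
  (D : ExpData G n)

theorem Len2_word (g : G) {r : ℝ} (h : D.len g < r) :
    ∃ l : List (Mat n), (∀ X ∈ l, X ∈ D.g) ∧ (l.map D.ex).prod = g ∧ (l.map norm).sum < r := by
  have hne : ∃ l : List (Mat n), (∀ X ∈ l, X ∈ D.g) ∧ (l.map D.ex).prod = g := by
    refine D.ex_induction
      (p := fun g => ∃ l : List (Mat n), (∀ X ∈ l, X ∈ D.g) ∧ (l.map D.ex).prod = g) one_pos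
      ⟨[], by simp, by simp⟩ ?_ g
    rintro X hX - x ⟨l, hl, rfl⟩
    exact ⟨X :: l, by simpa [hX] using hl, by simp⟩
  obtain ⟨l0, h1, h2⟩ := hne
  obtain ⟨_, ⟨l, h3, h4, rfl⟩, h5⟩ := exists_lt_of_csInf_lt (by exact ⟨_, l0, h1, h2, rfl⟩) h
  exact ⟨l, h3, h4, h5⟩

theorem Len2_prod_le (l : List (Mat n)) (hl : ∀ X ∈ l, X ∈ D.g) :
    D.len (l.map D.ex).prod ≤ (l.map norm).sum := by
  induction l with
  | nil => simp [D.len_one]
  | cons X l ih =>
    simp only [List.map_cons, List.prod_cons, List.sum_cons]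
    exact (D.len_mul _ _).trans (add_le_add (D.len_ex_le (hl X List.mem_cons_self))
      (ih fun Y hY => hl Y (List.mem_cons_of_mem _ hY)))

theorem Len2_chart : ∃ r : ℝ, 0 < r ∧ r ≤ 1 / 2 ∧
    ∀ g, D.len g < r → D.lg g ∈ D.g ∧ D.ex (D.lg g) = g ∧ ‖D.lg g‖ ≤ 3 * D.len g ∧
      D.len g ≤ 2 * ‖D.ρ g - 1‖ := by
  have := D.t2Space
  obtain ⟨r1, hr1, U, hU, -, hU1, hU2⟩ := D.chart
  obtain ⟨c, hc, hlog⟩ := Metric.eventually_nhds_iff.1 (Ex1_norm_mlog (A := Mat n))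
  set r := min (1 / 2) (min (c / 2) (r1 / 6)) with hr
  have r0 : 0 < r := by positivity
  have ra : r ≤ 1 / 2 := min_le_left _ _
  have rb : r ≤ c / 2 := (min_le_right _ _).trans (min_le_left _ _)
  have rc : r ≤ r1 / 6 := (min_le_right _ _).trans (min_le_right _ _)
  have hlg : ∀ g, D.len g < r → ‖D.lg g‖ ≤ 2 * ‖D.ρ g - 1‖ ∧ ‖D.lg g‖ ≤ 3 * D.len g := by
    intro g hg
    have h0 := D.len_nonneg g
    have h1 := (D.norm_ρ_sub_one g).trans (Len2_exp_le h0 (by linarith))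
    have h2 : ‖D.lg g‖ ≤ 2 * ‖D.ρ g - 1‖ :=
      (hlog (y := D.ρ g) (by rw [dist_eq_norm]; linarith)).1
    exact ⟨h2, by linarith⟩
  have hK : IsClosed (D.ex '' {X | X ∈ D.g ∧ ‖X‖ ≤ r1 / 2}) := (D.ex_ball_compact _).isClosed
  have hV : IsOpen (U ∩ {g | D.len g < r}) :=
    hU.inter (isOpen_lt D.continuous_len continuous_const)
  have hcl : closure (U ∩ {g | D.len g < r}) ⊆ U := by
    refine (closure_minimal (fun g hg => ?_) hK).trans ?_
    · have h1 : D.len g < r := hg.2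
      exact ⟨D.lg g, ⟨(hU1 g hg.1).1, by linarith [(hlg g h1).2]⟩, (hU1 g hg.1).2.2⟩
    · rintro _ ⟨X, hX, rfl⟩
      exact (hU2 X hX.1 (by linarith [hX.2])).1
  have key : ∀ l : List (Mat n), (∀ X ∈ l, X ∈ D.g) → (l.map norm).sum < r →
      (l.map D.ex).prod ∈ U := by
    intro l
    induction l with
    | nil =>
      intro _ _
      have h := (hU2 0 D.g.zero_mem (by simpa using hr1)).1
      simpa [D.ex_zero] using h
    | cons X l ih =>
      intro hl hs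
      simp only [List.map_cons, List.prod_cons, List.sum_cons] at hs ⊢
      have hX := hl X List.mem_cons_self
      have hl' : ∀ Y ∈ l, Y ∈ D.g := fun Y hY => hl Y (List.mem_cons_of_mem _ hY)
      have h1 := D.Len2_prod_le l hl'
      have h2 := ih hl' (by linarith [norm_nonneg X])
      set x := (l.map D.ex).prod
      have hf : Continuous fun t : ℝ => D.ex (t • X) * x := (D.ex_smul_cont hX).mul_const x
      have hlen : ∀ t ∈ Icc (0 : ℝ) 1, D.len (D.ex (t • X) * x) < r := by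
        intro t ht
        have h3 := D.len_mul (D.ex (t • X)) x
        have h4 := D.len_ex_le (D.g.smul_mem t hX)
        rw [norm_smul, Real.norm_eq_abs, abs_of_nonneg ht.1] at h4
        nlinarith [ht.1, ht.2, norm_nonneg X]
      have hp := (isPreconnected_Icc (a := (0 : ℝ)) (b := 1)).image _ hf.continuousOn
      have h5 := hp.subset_of_closure_inter_subset hV
        ⟨_, ⟨0, left_mem_Icc.2 zero_le_one, rfl⟩, by simpa [D.ex_zero] using h2,
          hlen 0 (left_mem_Icc.2 zero_le_one)⟩ (by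
          rintro _ ⟨hg, t, ht, rfl⟩
          exact ⟨hcl hg, hlen t ht⟩)
      simpa using (h5 ⟨1, right_mem_Icc.2 zero_le_one, rfl⟩).1
  refine ⟨r, r0, ra, fun g hg => ?_⟩
  obtain ⟨l, h1, h2, h3⟩ := D.Len2_word g hg
  have h4 := hU1 g (h2 ▸ key l h1 h3)
  refine ⟨h4.1, h4.2.2, (hlg g hg).2, ?_⟩
  have h5 := D.len_ex_le h4.1
  rw [h4.2.2] at h5
  exact h5.trans (hlg g hg).1

/-- Short elements lie in the exponential chart. -/
theorem len_chart : ∃ r : ℝ, 0 < r ∧ r ≤ 1 ∧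
    (∀ g, D.len g < r → D.lg g ∈ D.g ∧ D.ex (D.lg g) = g ∧ ‖D.lg g‖ ≤ 3 * D.len g ∧
      D.len g ≤ 2 * ‖D.ρ g - 1‖) ∧
    ∀ X ∈ D.g, ∀ Y ∈ D.g, ‖X‖ < r → ‖Y‖ < r → D.lg (D.ex X) = X ∧
      D.len (D.ex X * (D.ex Y)⁻¹) ≤ 3 * ‖X - Y‖ ∧ ‖X - Y‖ ≤ 3 * D.len (D.ex X * (D.ex Y)⁻¹) := by
  obtain ⟨r0, h0, h1, h⟩ := D.Len2_chart
  obtain ⟨r1, hr1, U, -, -, -, hU⟩ := D.chart
  obtain ⟨c, hc, hlip⟩ := Len2_exp_lip (A := Mat n)
  set r := min (r0 / 2) (min c r1) with hr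
  have ra : r ≤ r0 / 2 := min_le_left _ _
  have rb : r ≤ c := (min_le_right _ _).trans (min_le_left _ _)
  have rc : r ≤ r1 := (min_le_right _ _).trans (min_le_right _ _)
  refine ⟨r, by positivity, by linarith, fun g hg => h g (by linarith), ?_⟩
  intro X hX Y hY hX' hY'
  have h2 := D.len_mul (D.ex X) (D.ex Y)⁻¹
  rw [D.len_inv] at h2
  have h3 : D.len (D.ex X * (D.ex Y)⁻¹) < r0 := by
    linarith [D.len_ex_le hX, D.len_ex_le hY]
  have h4 := (h _ h3).2.2.2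
  have h5 := (D.norm_ρ_sub_one _).trans (Len2_exp_le (D.len_nonneg _) (h3.le.trans h1))
  have h6 : ‖D.ρ (D.ex X * (D.ex Y)⁻¹) - 1‖ ≤ 3 / 2 * ‖X - Y‖ ∧
      ‖X - Y‖ ≤ 2 * ‖D.ρ (D.ex X * (D.ex Y)⁻¹) - 1‖ := by
    rw [map_mul, D.ρ_ex X hX, D.ρ_ex_inv hY]
    exact hlip X Y (by linarith) (by linarith)
  obtain ⟨h6, h7⟩ := h6
  exact ⟨(hU X hX (by linarith)).2, by linarith, by linarith⟩

theorem len_eq_zero (g : G) (h : D.len g = 0) : g = 1 := by
  obtain ⟨r, h0, -, h1⟩ := D.Len2_chart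
  obtain ⟨-, h2, h3, -⟩ := h1 g (by rwa [h])
  rw [h, mul_zero, norm_le_zero_iff] at h3
  rw [← h2, h3, D.ex_zero]

theorem len_cpt (R : ℝ) : IsCompact {g | D.len g ≤ R} := by
  obtain ⟨r, h0, -, h1⟩ := D.Len2_chart
  have hcl : ∀ R : ℝ, IsClosed {g | D.len g ≤ R} := fun R =>
    isClosed_le D.continuous_len continuous_const
  have hs : IsCompact {g | D.len g ≤ r / 2} := by
    refine (D.ex_ball_compact (3 * r)).of_isClosed_subset (hcl _) fun g hg => ?_
    have h2 : D.len g ≤ r / 2 := hg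
    obtain ⟨h3, h4, h5, -⟩ := h1 g (by linarith)
    exact ⟨D.lg g, ⟨h3, by linarith⟩, h4⟩
  have hm : ∀ m : ℕ, IsCompact {g | D.len g ≤ m * (r / 4)} := by
    intro m
    induction m with
    | zero =>
      refine hs.of_isClosed_subset (hcl _) fun g hg => ?_
      simp only [mem_ofPred_eq, Nat.cast_zero, zero_mul] at hg ⊢
      linarith
    | succ m ih =>
      refine ((ih.prod hs).image continuous_mul).of_isClosed_subset (hcl _) fun g hg => ?_
      obtain ⟨u, v, hu, hv, rfl⟩ := D.len_split' g (s := m * (r / 4)) (t := r / 4) (ε := r / 4)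
        (by positivity) (by positivity) (by positivity) (by
          simp only [mem_ofPred_eq, Nat.cast_succ] at hg
          linarith)
      exact ⟨(u, v), ⟨hu, show D.len v ≤ r / 2 by linarith⟩, rfl⟩
  obtain ⟨m, hm'⟩ := exists_nat_ge (R / (r / 4))
  rw [div_le_iff₀ (by positivity)] at hm'
  exact (hm m).of_isClosed_subset (hcl _) fun g hg => le_trans hg hm'

theorem len_split (g : G) (s t : ℝ) (hs : 0 ≤ s) (ht : 0 ≤ t) (h : D.len g ≤ s + t) :
    ∃ u v, D.len u ≤ s ∧ D.len v ≤ t ∧ g = u * v := by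
  have hc : Continuous fun u : G => D.len (u⁻¹ * g) :=
    D.continuous_len.comp (continuous_inv.mul continuous_const)
  obtain ⟨u, hu, hmin⟩ := (D.len_cpt s).exists_isMinOn
    ⟨1, show D.len 1 ≤ s by rwa [D.len_one]⟩ hc.continuousOn
  refine ⟨u, u⁻¹ * g, hu, le_of_forall_pos_le_add fun ε hε => ?_, by simp⟩
  obtain ⟨u', v', hu', hv', rfl⟩ := D.len_split' g hs ht hε h
  have h1 : D.len (u⁻¹ * (u' * v')) ≤ D.len (u'⁻¹ * (u' * v')) := hmin hu'
  rw [inv_mul_cancel_left] at h1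
  exact h1.trans hv'

theorem len_cover : ∃ (C : ℝ) (d : ℕ), ∀ δ : ℝ, 0 < δ → δ ≤ 1 → ∃ F : Finset G,
    (F.card : ℝ) ≤ C / δ ^ d ∧ ∀ g, D.len g ≤ 1 → ∃ f ∈ F, D.len (g * f⁻¹) ≤ δ := by
  classical
  obtain ⟨r, h0, h1, h2, h3⟩ := D.len_chart
  obtain ⟨T, -, hT⟩ := (D.len_cpt 1).elim_nhds_subcover
    (fun f => {g | D.len (g * f⁻¹) < r / 3}) fun f _ => by
      refine (isOpen_lt (D.continuous_len.comp (continuous_id.mul continuous_const))
        continuous_const).mem_nhds ?_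
      change D.len (f * f⁻¹) < r / 3
      rw [mul_inv_cancel, D.len_one]
      positivity
  refine ⟨T.card * (15 * (n + 1)) ^ (n * n), n * n, fun δ hδ hδ1 => ?_⟩
  have hn : (0 : ℝ) ≤ n := Nat.cast_nonneg n
  obtain ⟨F, hF1, hF2, hF3⟩ := Len2_net {X | X ∈ D.g ∧ ‖X‖ < r} (fun X hX => by linarith [hX.2])
    (η := δ / (3 * (n + 1))) (by positivity) (by rw [div_le_one (by positivity)]; linarith)
  refine ⟨(T ×ˢ F).image fun p => D.ex p.2 * p.1, ?_, fun g hg => ?_⟩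
  · have h4 : ((T ×ˢ F).image fun p => D.ex p.2 * p.1).card ≤ T.card * F.card :=
      Finset.card_image_le.trans (Finset.card_product _ _).le
    have h5 : 5 / (δ / (3 * (n + 1))) = 15 * (n + 1) / δ := by
      field_simp
      norm_num
    rw [h5, div_pow] at hF2
    calc _ ≤ (T.card : ℝ) * F.card := by exact_mod_cast h4
      _ ≤ T.card * ((15 * (n + 1)) ^ (n * n) / δ ^ (n * n)) :=
        mul_le_mul_of_nonneg_left hF2 (Nat.cast_nonneg _)
      _ = _ := by rw [mul_div_assoc]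
  · obtain ⟨f, hf, hgf⟩ := mem_iUnion₂.1 (hT hg)
    have h4 : D.len (g * f⁻¹) < r / 3 := hgf
    obtain ⟨h5, h6, h7, -⟩ := h2 _ (h4.trans (by linarith))
    obtain ⟨Y, hY, hXY⟩ := hF3 (D.lg (g * f⁻¹)) ⟨h5, by linarith⟩
    refine ⟨_, Finset.mem_image_of_mem _ (Finset.mk_mem_product hf hY), ?_⟩
    have h8 := (h3 _ h5 Y (hF1 Y hY).1 (by linarith) (hF1 Y hY).2).2.1
    rw [h6] at h8
    have h9 : g * (D.ex Y * f)⁻¹ = g * f⁻¹ * (D.ex Y)⁻¹ := by group
    have h10 : n * (δ / (3 * (n + 1))) ≤ δ / 3 := by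
      rw [← mul_div_assoc, div_le_div_iff₀ (by positivity) (by positivity)]
      nlinarith
    change D.len (g * (D.ex Y * f)⁻¹) ≤ δ
    rw [h9]
    linarith

/-- The norm of a connected group with an exponential chart. -/
def nm : Nm G where
  len := D.len
  one := D.len_one
  inv := D.len_inv
  mul := D.len_mul
  eq_one := D.len_eq_zero
  cont := D.continuous_len
  cpt := D.len_cpt
  conj := D.len_conj
  split := D.len_split
  cover := D.len_cover

/-- The normed group with a discrete subgroup. -/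
def lat (Γ : Subgroup G) [h : DiscreteTopology Γ] : Lat G := { D.nm with Γ := Γ, disc := h }

theorem lat_len (Γ : Subgroup G) [DiscreteTopology Γ] (g : G) : (D.lat Γ).len g = D.len g := rfl

theorem lat_Γ (Γ : Subgroup G) [DiscreteTopology Γ] : (D.lat Γ).Γ = Γ := rfl

end ExpData

end Pool.Agent.P.MP_d483fb_an.Z

end

end

section

/-!
The two inputs of the construction of the unstable leaf structure: normal forms in the fibres as
matrices (`Fib`) and the geometry of the suspension (`Inp`).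
-/

open scoped Matrix Matrix.Norms.Operator InnerProductSpace RealInnerProductSpace Topology
open MeasureTheory Filter Set

noncomputable section

namespace Pool.Agent.P.MP_d483fb_an.Z.Geo

open Os NF

section Fib

variable {W X Γ M : Type} [NormedAddCommGroup W] [NormedSpace ℝ W] [MeasurableSpace W]
  [MeasurableSpace X] {μ : Measure X} [Group Γ] [MeasurableSpace Γ] [MetricSpace M]
  [MeasurableSpace M] {α : Γ →* Equiv.Perm M} {len : Γ → ℝ} {d : ℕ} {S : Sys W X μ}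
  {J : Jets α len d}

/-- `γ` is a tempered holonomy from the fibre of `y` to the fibre of `x` which carries `y` in the
unstable leaf of `x`. -/
structure Ok (K : Skew S J) (X0 : Set X) (a : W) (s1 : ℝ) (x y : X) (γ : Γ) : Prop where
  left : x ∈ X0
  right : y ∈ X0
  hol : ∃ C0, K.Hol a C0 x y γ ∧ K.Hol a C0 y x γ⁻¹
  mem : α γ (K.pt y) ∈ K.Wu a s1 x

/-- Normal forms as matrices: data and qualitative properties. -/
structure Fib0 (K : Skew S J) (lam : Fin d → W →L[ℝ] ℝ) (a : W) (s1 : ℝ) (κ : Type) [Fintype κ]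
    [DecidableEq κ] where
  C : ℝ
  B : ℝ
  X0 : Set X
  om : κ → W →L[ℝ] ℝ
  e0 : κ
  k1 : Finset κ
  Gen : Submonoid (Matrix κ κ ℝ)
  Lm : W → X → Matrix κ κ ℝ
  Tm : X → X → Γ → Matrix κ κ ℝ
  one_le : 1 ≤ C
  meas0 : MeasurableSet X0
  ae0 : ∀ᵐ x ∂μ, x ∈ X0
  inv0 : ∀ s, ∀ x ∈ X0, S.act s x ∈ X0
  om_mem : ∀ m, om m ∈ AddSubgroup.closure (range lam)
  om_e0 : om e0 = 0
  om_pos : ∀ m, m ≠ e0 → 0 < om m a
  card_le : ∀ β, Nat.card {m : κ // m ∈ k1 ∧ om m = β} ≤ Nat.card {i // lam i = β}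
  Gen_unit : ∀ T ∈ Gen, IsUnit T.det
  Gen_inv : ∀ T ∈ Gen, T⁻¹ ∈ Gen
  Gen_cl : ∀ T, IsUnit T.det → T ∈ closure (Gen : Set (Matrix κ κ ℝ)) → T ∈ Gen
  Gen_e0 : ∀ T ∈ Gen, T e0 e0 = 1
  Gen_lie : ∀ V : Matrix κ κ ℝ, (∀ t : ℝ, NormedSpace.exp (t • V) ∈ Gen) → ∀ m ∉ k1, V m e0 = 0
  dil_mem : ∀ s, (Matrix.diagonal fun m => Real.exp (om m s)) ∈ Gen
  measL : ∀ s, Measurable (Lm s)
  L_zero : ∀ x ∈ X0, Lm 0 x = 1
  L_add : ∀ s t, ∀ x ∈ X0, Lm (s + t) x = Lm s (S.act t x) * Lm t x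
  L_res : ∀ s, ∀ x ∈ X0, ∀ m m', Lm s x m m' ≠ 0 → om m = om m'
  L_mem : ∀ s, ∀ x ∈ X0, Lm s x ∈ Gen
  measT : Measurable fun p : X × X × Γ => Tm p.1 p.2.1 p.2.2
  mv_mem : ∀ s, ∀ x ∈ X0, ∀ z ∈ K.Wu a s1 x, K.mv s x z ∈ K.Wu a s1 (S.act s x)
  ok_symm : ∀ x y γ, Ok K X0 a s1 x y γ → Ok K X0 a s1 y x γ⁻¹
  ok_mem : ∀ x y γ, Ok K X0 a s1 x y γ → ∀ z ∈ K.Wu a s1 y, α γ z ∈ K.Wu a s1 x
  T_self : ∀ x ∈ X0, Tm x x 1 = 1
  T_mul : ∀ x y z γ γ', Ok K X0 a s1 x y γ → Ok K X0 a s1 y z γ' → Ok K X0 a s1 x z (γ * γ') →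
    Tm x y γ * Tm y z γ' = Tm x z (γ * γ')
  T_tri : ∀ x y γ, Ok K X0 a s1 x y γ → ∀ m m', Tm x y γ m m' ≠ 0 → om m' a ≤ om m a
  T_mem : ∀ x y γ, Ok K X0 a s1 x y γ → Tm x y γ ∈ Gen
  T_act : ∀ s x y γ, Ok K X0 a s1 x y γ →
    Ok K X0 a s1 (S.act s x) (S.act s y) (K.β s x * γ * (K.β s y)⁻¹) →
    Tm (S.act s x) (S.act s y) (K.β s x * γ * (K.β s y)⁻¹) = Lm s x * Tm x y γ * (Lm s y)⁻¹
  T_inj : ∀ x y y' γ γ', Ok K X0 a s1 x y γ → Ok K X0 a s1 x y' γ' →
    (∀ m, Tm x y γ m e0 = Tm x y' γ' m e0) → α γ (K.pt y) = α γ' (K.pt y')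

variable {K : Skew S J} {lam : Fin d → W →L[ℝ] ℝ} {a : W} {s1 : ℝ} {κ : Type} [Fintype κ]
  [DecidableEq κ]

/-- Normal forms as matrices: the estimates. -/
structure Fib0.Est (F : Fib0 K lam a s1 κ) (s2 ε : ℝ) (q : X → ℝ) : Prop
    extends Slow K F.X0 F.B a ε q where
  grow : ∀ s, ∀ x ∈ F.X0,
    ‖F.Lm s x * Matrix.diagonal fun m => Real.exp (-F.om m s)‖ ≤
      Real.exp (F.C * (q x + ε * ‖s‖)) ∧
    ‖(Matrix.diagonal fun m => Real.exp (F.om m s)) * (F.Lm s x)⁻¹‖ ≤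
      Real.exp (F.C * (q x + ε * ‖s‖))
  T_le : ∀ x ∈ F.X0, ∀ y ∈ F.X0, ∀ γ C0 R, 0 ≤ C0 → 0 ≤ R → K.Hol a C0 x y γ →
    K.Hol a C0 y x γ⁻¹ → K.Sh a s1 (Real.exp R) x (α γ (K.pt y)) →
    ‖F.Tm x y γ‖ ≤ Real.exp (F.C * (q x + q y + C0 + R)) ∧
      ‖F.Tm y x γ⁻¹‖ ≤ Real.exp (F.C * (q x + q y + C0 + R))
  sh_of : ∀ x y γ R, Ok K F.X0 a s1 x y γ → 0 ≤ R → (∀ m, |F.Tm x y γ m F.e0| ≤ Real.exp R) →
    K.Sh a s2 (Real.exp (F.C * (q x + R))) x (α γ (K.pt y))
  track : ∀ x ∈ F.X0, ∀ (t : ℕ) z,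
    (∀ i ≤ t, dist (K.mv (i • a) x z) (K.pt (S.act (i • a) x)) ≤
      Real.exp (-(F.C * q (S.act (i • a) x)))) →
    ∀ i ≤ t, dist (K.mv (i • a) x z) (K.pt (S.act (i • a) x)) ≤
      Real.exp (F.C * q (S.act (t • a) x) - s2 * (t - i)) +
        Real.exp (F.C * q x + ε * t) * dist z (K.pt x)

/-- Normal forms as matrices. -/
structure Fib (K : Skew S J) (lam : Fin d → W →L[ℝ] ℝ) (a : W) (s1 s2 : ℝ) (κ : Type) [Fintype κ]
    [DecidableEq κ] extends Fib0 K lam a s1 κ where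
  est : ∀ ε, 0 < ε → ∃ q, toFib0.Est s2 ε q

end Fib

section Inp

variable {G : Type} [Group G] [TopologicalSpace G] {n k : ℕ} {X Γ M : Type} [MetricSpace X]
  [MeasurableSpace X] [MulAction G X] {μ : Measure X} [Group Γ] [MeasurableSpace Γ]
  [MetricSpace M] [MeasurableSpace M] {α : Γ →* Equiv.Perm M} {len : Γ → ℝ} {d : ℕ}
  {S : Sys (Euc k) X μ} {J : Jets α len d}

/-- The geometry of the suspension. -/
structure Inp [MeasurableSpace G] (D : Std G n k) (B : Type) [TopologicalSpace B]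
    [MeasurableSpace B] [MulAction G B] (K : Skew S J) where
  π : X → B
  j : B → M → X
  c : G → B → Γ
  ht : B → ℝ
  r : ℝ
  act_eq : ∀ s x, S.act s x = D.a s • x
  β_eq : ∀ s x, K.β s x = c (D.a s) (π x)
  h_eq : ∀ x, K.h x = ht (π x)
  one_le : 1 ≤ K.L
  π_cont : Continuous π
  π_smul : ∀ (g : G) x, π (g • x) = g • π x
  base : ∀ g : G, MeasurePreserving (fun b : B => g • b) (μ.map π) (μ.map π)
  meas_c : Measurable fun p : G × B => c p.1 p.2
  π_j : ∀ b p, π (j b p) = b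
  pt_j : ∀ b p, K.pt (j b p) = p
  j_pt : ∀ x, j (π x) (K.pt x) = x
  c_one : ∀ b, c 1 b = 1
  c_mul : ∀ g h b, c (g * h) b = c g (h • b) * c h b
  smul_j : ∀ (g : G) b p, g • j b p = j (g • b) (α (c g b) p)
  ht_cont : Continuous ht
  r_pos : 0 < r
  inj : ∀ (g : G) b, g • b = b → D.len g < r * Real.exp (-2 * ht b) → g = 1
  len_c : ∀ g b, len (c g b) ≤ K.L * (1 + D.len g) + K.L * (ht (g • b) + ht b)
  dist_smul_self : ∀ (g : G) (x : X), dist (g • x) x ≤ K.L * D.len g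
  dist_smul : ∀ (g : G) (x y : X), dist (g • x) (g • y) ≤ Real.exp (K.L * (1 + D.len g)) * dist x y
  dist_j : ∀ b p p', dist (j b p) (j b p') ≤ Real.exp (K.L * (1 + ht b)) * dist p p'
  near : ∀ x y : X, ∃ (g : G) (p : M), y = g • j (π x) p ∧ D.len g ≤ K.L * dist x y ∧
    dist p (K.pt x) ≤ Real.exp (K.L * (1 + ht (π x))) * dist x y
  cover : ∀ Q : Set X, IsCompact Q → ∃ C : ℝ, ∀ ρ : ℝ, 0 < ρ → ρ ≤ 1 →
    ∃ F : Finset X, (F.card : ℝ) ≤ C * ρ⁻¹ ^ C ∧ Q ⊆ ⋃ z ∈ F, Metric.ball z ρ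

/-- The vector that represents a linear form. -/
def vec (l : Euc k →L[ℝ] ℝ) : Euc k := (InnerProductSpace.toDual ℝ (Euc k)).symm l

/-- The group generated by all the weights. -/
def Lam (D : Std G n k) (lam : Fin d → Euc k →L[ℝ] ℝ) : AddSubgroup (Euc k) :=
  AddSubgroup.closure (range D.lam ∪ range fun i => vec (lam i))

/-- A generic pair of directions. -/
structure Gnr (D : Std G n k) (lam : Fin d → Euc k →L[ℝ] ℝ) (Ha Ph : Euc k) : Prop where
  g1 : ∀ v ∈ Lam D lam, ⟪v, Ha⟫ = 0 → v = 0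
  g2 : ∀ v ∈ Lam D lam, ∀ v' ∈ Lam D lam, 0 < ⟪v, Ha⟫ → 0 < ⟪v', Ha⟫ →
    ⟪v, Ph⟫ / ⟪v, Ha⟫ = ⟪v', Ph⟫ / ⟪v', Ha⟫ → v ∈ Std.cls v'

end Inp

end Pool.Agent.P.MP_d483fb_an.Z.Geo

end

end

section

/-!
Generic directions, and a measurable selection lemma.
-/

open scoped InnerProductSpace RealInnerProductSpace Topology
open MeasureTheory Filter Set

set_option linter.unusedSectionVars false

noncomputable section

namespace Pool.Agent.P.MP_d483fb_an.Z.Geo

open Os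

theorem inner_vec {k : ℕ} (l : Euc k →L[ℝ] ℝ) (s : Euc k) : ⟪vec l, s⟫ = l s :=
  InnerProductSpace.toDual_symm_apply

theorem vec_inj {k : ℕ} : Function.Injective (vec (k := k)) :=
  (InnerProductSpace.toDual ℝ (Euc k)).symm.injective

theorem vec_zero {k : ℕ} : vec (0 : Euc k →L[ℝ] ℝ) = 0 := map_zero _

theorem vec_add {k : ℕ} (l l' : Euc k →L[ℝ] ℝ) : vec (l + l') = vec l + vec l' := map_add _ _ _

theorem vec_neg {k : ℕ} (l : Euc k →L[ℝ] ℝ) : vec (-l) = -vec l := map_neg _ _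

variable {G : Type} [Group G] [TopologicalSpace G] {n k d : ℕ}

theorem lam_mem (D : Std G n k) (lam : Fin d → Euc k →L[ℝ] ℝ) (i : Fin n) :
    D.lam i ∈ Lam D lam := AddSubgroup.subset_closure (Or.inl ⟨i, rfl⟩)

theorem vec_mem (D : Std G n k) {lam : Fin d → Euc k →L[ℝ] ℝ} {l : Euc k →L[ℝ] ℝ}
    (h : l ∈ AddSubgroup.closure (range lam)) : vec l ∈ Lam D lam := by
  induction h using AddSubgroup.closure_induction with
  | mem x hx =>
    obtain ⟨i, rfl⟩ := hx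
    exact AddSubgroup.subset_closure (Or.inr ⟨i, rfl⟩)
  | zero => rw [vec_zero]; exact zero_mem _
  | add x y _ _ hx hy => rw [vec_add]; exact add_mem hx hy
  | neg x _ hx => rw [vec_neg]; exact neg_mem hx

instance (D : Std G n k) (lam : Fin d → Euc k →L[ℝ] ℝ) : Countable (Lam D lam) := by
  have h : Countable (Submodule.span ℤ (range (Sum.elim D.lam fun i => vec (lam i)))) :=
    inferInstance
  rw [Sum.elim_range] at h
  have e : Lam D lam = (Submodule.span ℤ (range D.lam ∪ range fun i => vec (lam i))).toAddSubgroup :=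
    (Submodule.span_int_eq_addSubgroupClosure _).symm
  rw [e]
  exact h

theorem orth_ne_top {v : Euc k} (hv : v ≠ 0) : (ℝ ∙ v)ᗮ ≠ ⊤ := by
  rwa [Ne, Submodule.orthogonal_eq_top_iff, Submodule.span_singleton_eq_bot]

theorem exists_gnr (D : Std G n k) (lam : Fin d → Euc k →L[ℝ] ℝ) {X : Type} [MeasurableSpace X]
    [StandardBorelSpace X] {μ : Measure X} [IsProbabilityMeasure μ] (S : Sys (Euc k) X μ)
    (hm : Measurable fun p : Euc k × X => S.act p.1 p.2)
    (he : ∀ U : Set X, MeasurableSet U → (∀ s, S.act s ⁻¹' U =ᵐ[μ] U) → μ U = 0 ∨ μ Uᶜ = 0)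
    {O : Set (Euc k)} (hO : IsOpen O) (hne : O.Nonempty) :
    ∃ Ha ∈ O, ∃ Ph, Gnr D lam Ha Ph ∧ Ergodic (S.act Ha) μ := by
  obtain ⟨Ha, h1, h2, h3⟩ := exists_ergodic_generic S.zero S.add S.mp hm
    (fun U hU hi => eventuallyConst_set.2 ((he U hU hi).symm.imp (fun h => mem_ae_iff.2 h)
      fun h => measure_eq_zero_iff_ae_notMem.1 h))
    (fun v : {v : Lam D lam // (v : Euc k) ≠ 0} => (ℝ ∙ (v.1 : Euc k))ᗮ)
    (fun v => orth_ne_top v.2) hO hne
  let z : Lam D lam × Lam D lam → Euc k := fun p =>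
    ⟪(p.2 : Euc k), Ha⟫ • (p.1 : Euc k) - ⟪(p.1 : Euc k), Ha⟫ • (p.2 : Euc k)
  obtain ⟨Ph, -, h4⟩ := exists_mem_open_notMem
    (fun p : {p : Lam D lam × Lam D lam // z p ≠ 0} => (ℝ ∙ z p.1)ᗮ)
    (fun p => orth_ne_top p.2) isOpen_univ univ_nonempty
  refine ⟨Ha, h1, Ph, ⟨fun v hv h => ?_, fun v hv v' hv' hp hp' h => ?_⟩, h3⟩
  · by_contra h0
    exact h2 ⟨⟨v, hv⟩, h0⟩ (Submodule.mem_orthogonal_singleton_iff_inner_right.2 h)
  · have h0 : z (⟨v, hv⟩, ⟨v', hv'⟩) = 0 := by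
      by_contra h0
      refine h4 ⟨_, h0⟩ (Submodule.mem_orthogonal_singleton_iff_inner_right.2 ?_)
      show ⟪⟪v', Ha⟫ • v - ⟪v, Ha⟫ • v', Ph⟫ = 0
      rw [div_eq_div_iff hp.ne' hp'.ne'] at h
      rw [inner_sub_left, real_inner_smul_left, real_inner_smul_left]
      linarith
    refine ⟨⟪v, Ha⟫ / ⟪v', Ha⟫, div_pos hp hp', ?_⟩
    have h5 : ⟪v', Ha⟫ • v = ⟪v, Ha⟫ • v' := sub_eq_zero.1 h0
    rw [div_eq_inv_mul, mul_smul, ← h5, inv_smul_smul₀ hp'.ne']

theorem exists_rates (D : Std G n k) (lam : Fin d → Euc k →L[ℝ] ℝ) (a : Euc k) :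
    ∃ s2 : ℝ, 0 < s2 ∧ (∀ i, 0 < lam i a → s2 < lam i a) ∧
      ∀ β ∈ D.wts, 0 < ⟪β, a⟫ → s2 ≤ ⟪β, a⟫ := by
  have h : ∀ x : ℝ, ∀ᶠ c in 𝓝[>] (0 : ℝ), 0 < x → c < x := fun x => by
    by_cases hb : 0 < x
    · filter_upwards [nhdsWithin_le_nhds (Iio_mem_nhds hb)] with c hc _ using hc
    · exact Eventually.of_forall fun c hc => absurd hc hb
  have h1 := eventually_all.2 fun i => h (lam i a)
  have h2 := (Finset.eventually_all D.wts).2 fun β _ => h ⟪β, a⟫
  obtain ⟨c, ⟨h3, h4⟩, h5⟩ := ((h1.and h2).and self_mem_nhdsWithin).exists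
  exact ⟨c, h5, h3, fun β hβ hp => (h4 β hβ hp).le⟩

theorem exists_sel {X Y B : Type} [MeasurableSpace X] [StandardBorelSpace X] [MeasurableSpace Y]
    [StandardBorelSpace Y] [Nonempty Y] [MeasurableSpace B] [StandardBorelSpace B] {Φ : X → Y → B}
    (hΦ : Measurable fun p : X × Y => Φ p.1 p.2) {X0 : Set X} (h0 : MeasurableSet X0)
    (hi : ∀ x ∈ X0, Function.Injective (Φ x)) :
    ∃ g : X → B → Y, (Measurable fun p : X × B => g p.1 p.2) ∧ ∀ x ∈ X0, ∀ y, g x (Φ x y) = y := by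
  have := h0.standardBorel
  let F : X0 × Y → X × B := fun p => (p.1, Φ p.1 p.2)
  have h1 : Measurable fun p : X0 × Y => (p.1 : X) := measurable_subtype_coe.comp measurable_fst
  have hF : Measurable F := h1.prodMk (hΦ.comp (h1.prodMk measurable_snd))
  have hinj : Function.Injective F := by
    rintro ⟨x, y⟩ ⟨x', y'⟩ e
    obtain rfl : x = x' := Subtype.ext (congrArg Prod.fst e)
    exact congrArg (Prod.mk x) (hi x x.2 (congrArg Prod.snd e))
  obtain ⟨g, hg, e⟩ := (hF.measurableEmbedding hinj).exists_measurable_extend measurable_snd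
    fun _ => ‹_›
  exact ⟨fun x b => g (x, b), hg, fun x hx y => congrFun e (⟨x, hx⟩, y)⟩

end Pool.Agent.P.MP_d483fb_an.Z.Geo

end

end

section

/-!
Close orbits in the suspension differ by one element of the group and one point of the fibre.
-/

open scoped Matrix Matrix.Norms.Operator InnerProductSpace RealInnerProductSpace Topology
open MeasureTheory Filter Set

set_option linter.unusedSectionVars false

noncomputable section

namespace Pool.Agent.P.MP_d483fb_an.Z.Geo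

open Os NF

variable {G : Type} [Group G] [TopologicalSpace G] [IsTopologicalGroup G] [ConnectedSpace G]
  [MeasurableSpace G] {n k : ℕ} {D : Std G n k} {B : Type} [TopologicalSpace B] [MeasurableSpace B]
  [MulAction G B] {X Γ M : Type} [MetricSpace X] [MeasurableSpace X] [MulAction G X]
  {μ : Measure X} [Group Γ] [MeasurableSpace Γ] [MetricSpace M] [MeasurableSpace M]
  {α : Γ →* Equiv.Perm M} {len : Γ → ℝ} {d : ℕ} {S : Sys (Euc k) X μ} {J : Jets α len d}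
  {K : Skew S J}

theorem len_a_le (D : Std G n k) (s : Euc k) : D.len (D.a s) ≤ ‖s‖ := by
  refine (D.len_ex_le (D.dg_mem s)).trans ?_
  rw [D.dg_apply, Matrix.linfty_opNorm_diagonal]
  refine (pi_norm_le_iff_of_nonneg (norm_nonneg s)).2 fun i => ?_
  have h1 := D.frame s s
  rw [real_inner_self_eq_norm_sq] at h1
  have h2 : ⟪D.lam i, s⟫ * ⟪D.lam i, s⟫ ≤ ‖s‖ ^ 2 := by
    rw [← h1]
    exact Finset.single_le_sum (f := fun i => ⟪D.lam i, s⟫ * ⟪D.lam i, s⟫)
      (fun j _ => mul_self_nonneg _) (Finset.mem_univ i)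
  rw [Real.norm_eq_abs]
  exact abs_le_of_sq_le_sq' (by nlinarith) (norm_nonneg s) |> abs_le.2

theorem a_nsmul' (D : Std G n k) (s : Euc k) (i : ℕ) : D.a (i • s) = D.a s ^ i := by
  rw [← Nat.cast_smul_eq_nsmul ℝ, D.a_nsmul]

theorem mem_np (D : Std G n k) {a : Euc k} {Y : Mat n} (hY : Y ∈ D.g)
    (h : Tendsto (fun i : ℕ => ‖D.Ad (D.a (-(i • a))) Y‖) atTop (𝓝 0)) : Y ∈ D.np a := by
  refine ⟨hY, fun j l hjl => ?_⟩
  by_contra hc
  have hc' : ⟪D.lam j - D.lam l, a⟫ ≤ 0 := not_lt.1 hc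
  refine absurd (ge_of_tendsto' h fun i => ?_) (not_le.2 (abs_pos.2 hjl))
  refine le_trans ?_ (Len2_entry_le _ j l)
  rw [D.Ad_a_apply, abs_mul, abs_of_pos (Real.exp_pos _)]
  refine le_mul_of_one_le_left (abs_nonneg _) (Real.one_le_exp ?_)
  rw [← Nat.cast_smul_eq_nsmul ℝ, inner_neg_right, real_inner_smul_right]
  have : (0 : ℝ) ≤ i := Nat.cast_nonneg i
  nlinarith

namespace Inp

variable (I : Inp D B K)

theorem j_inj {b : B} {p p' : M} (h : I.j b p = I.j b p') : p = p' := by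
  rw [← I.pt_j b p, h, I.pt_j]

theorem c_inv (g : G) (b : B) : I.c g⁻¹ (g • b) = (I.c g b)⁻¹ := by
  refine eq_inv_of_mul_eq_one_left ?_
  rw [← I.c_mul, inv_mul_cancel, I.c_one]

theorem pt_smul (g : G) (x : X) : K.pt (g • x) = α (I.c g (I.π x)) (K.pt x) := by
  conv_lhs => rw [← I.j_pt x, I.smul_j, I.pt_j]

theorem act_j (s : Euc k) (x : X) (p : M) :
    S.act s (I.j (I.π x) p) = I.j (I.π (S.act s x)) (K.mv s x p) := by
  rw [I.act_eq, I.smul_j, I.act_eq, I.π_smul, Skew.mv, I.β_eq]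

theorem step (H : ℝ) : ∃ δ : ℝ, 0 < δ ∧ ∀ (h g g' : G) (x y : X) (p p' : M), D.len h ≤ H →
    y = g • I.j (I.π x) p → h • y = g' • I.j (I.π (h • x)) p' →
    D.len g ≤ δ * Real.exp (-2 * I.ht (I.π (h • x))) →
    D.len g' ≤ δ * Real.exp (-2 * I.ht (I.π (h • x))) →
    g' = h * g * h⁻¹ ∧ p' = α (I.c h (I.π x)) p ∧ D.lg g' = D.Ad h (D.lg g) := by
  obtain ⟨r0, hr0, -, h1, h2⟩ := D.len_chart
  have hr := I.r_pos
  set E := Real.exp (2 * H) with hE
  have hE0 : 0 < E := Real.exp_pos _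
  set ρ := min I.r r0 with hρ
  have hρ0 : 0 < ρ := lt_min hr hr0
  refine ⟨ρ / (4 * (1 + E)), by positivity, fun h g g' x y p p' hh hy hy' hg hg' => ?_⟩
  set δ := ρ / (4 * (1 + E)) with hδ
  have hδ0 : 0 < δ := by positivity
  have hδ1 : δ * (4 * (1 + E)) = ρ := div_mul_cancel₀ _ (by positivity)
  set e := Real.exp (-2 * I.ht (I.π (h • x))) with he
  have he0 : 0 < e := Real.exp_pos _
  have he1 : e ≤ 1 := by
    rw [he, ← I.h_eq, Real.exp_le_one_iff]
    linarith [K.h_nonneg (h • x)]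
  have hEh : Real.exp (2 * D.len h) ≤ E := Real.exp_le_exp.2 (by linarith)
  have e1 : (h * g * h⁻¹) • I.j (I.π (h • x)) (α (I.c h (I.π x)) p) =
      g' • I.j (I.π (h • x)) p' := by
    rw [← hy', hy, I.π_smul, ← I.smul_j, smul_smul, smul_smul, inv_mul_cancel_right]
  have e2 : ((h * g * h⁻¹)⁻¹ * g') • I.π (h • x) = I.π (h • x) := by
    have := congrArg I.π e1
    rw [I.π_smul, I.π_smul g', I.π_j, I.π_j] at this
    rw [mul_smul, ← this, inv_smul_smul]
  have l1 : D.len (h * g * h⁻¹) ≤ E * (δ * e) :=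
    (D.len_conj h g).trans (mul_le_mul hEh hg (D.len_nonneg _) hE0.le)
  have e3 : (h * g * h⁻¹)⁻¹ * g' = 1 := by
    refine I.inj _ _ e2 ?_
    have l2 := D.len_mul (h * g * h⁻¹)⁻¹ g'
    rw [D.len_inv] at l2
    have l3 : ρ * e ≤ I.r * e := mul_le_mul_of_nonneg_right (min_le_left _ _) he0.le
    have l4 : 0 < δ * e * (1 + E) := by positivity
    rw [← hδ1] at l3
    nlinarith
  have e4 : g' = h * g * h⁻¹ := (inv_mul_eq_one.1 e3).symm
  refine ⟨e4, ?_, ?_⟩
  · rw [e4] at e1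
    exact (I.j_inj (MulAction.injective _ e1)).symm
  · have l3 : ρ ≤ r0 := min_le_right _ _
    have l4 : δ * e ≤ δ := mul_le_of_le_one_right hδ0.le he1
    have l5 : 0 < δ * E := by positivity
    obtain ⟨m1, m2, m3, -⟩ := h1 g (by nlinarith)
    have l6 : ‖D.Ad h (D.lg g)‖ < r0 := by
      have := (D.norm_Ad_len h (D.lg g)).trans
        (mul_le_mul hEh (show ‖D.lg g‖ ≤ 3 * δ by linarith) (norm_nonneg _) hE0.le)
      nlinarith
    have e5 : g' = D.ex (D.Ad h (D.lg g)) := by rw [← D.conj_ex h m1, m2, e4]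
    rw [e5]
    exact (h2 _ (D.Ad_mem h m1) _ (D.Ad_mem h m1) l6 l6).1

theorem orbit (a : Euc k) : ∃ δ C : ℝ, 0 < δ ∧ 0 ≤ C ∧ ∀ x y : X,
    dist x y ≤ δ → ∃ Y ∈ D.g, ∃ p, y = D.ex Y • I.j (I.π x) p ∧ ∀ t : ℕ,
      (∀ i ≤ t, dist (S.act (i • a) x) (S.act (i • a) y) ≤
        δ * Real.exp (-2 * K.h (S.act (i • a) x))) → ∀ i ≤ t,
      ‖D.Ad (D.a (i • a)) Y‖ ≤ C * dist (S.act (i • a) x) (S.act (i • a) y) ∧
      dist (K.mv (i • a) x p) (K.pt (S.act (i • a) x)) ≤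
        Real.exp (K.L * (1 + K.h (S.act (i • a) x))) *
          dist (S.act (i • a) x) (S.act (i • a) y) := by
  obtain ⟨r0, hr0, -, h1, -⟩ := D.len_chart
  obtain ⟨δ1, hδ1, hs⟩ := I.step ‖a‖
  choose gg pp hgp hlen hpt using I.near
  have hL := I.one_le
  set E := Real.exp (2 * (K.L * (‖a‖ + 1))) with hE
  have hE1 : 1 ≤ E := Real.one_le_exp (by positivity)
  set ρ := min δ1 (r0 / 2) with hρ
  have hρ0 : 0 < ρ := lt_min hδ1 (half_pos hr0)
  set δ := ρ / (K.L * E) with hδ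
  have hδ0 : 0 < δ := by positivity
  have hδ2 : K.L * δ * E = ρ := by
    rw [hδ]
    field_simp
  have hδ3 : K.L * δ ≤ ρ := by
    rw [← hδ2]
    exact le_mul_of_one_le_right (by positivity) hE1
  have hρ1 : ρ ≤ δ1 := min_le_left _ _
  have hρ2 : ρ ≤ r0 / 2 := min_le_right _ _
  have hsm : ∀ x y : X, dist x y ≤ δ → D.len (gg x y) < r0 := fun x y h => by
    have := (hlen x y).trans (mul_le_mul_of_nonneg_left h K.L_nonneg)
    linarith
  refine ⟨δ, 3 * K.L, hδ0, by positivity, fun x y hxy => ?_⟩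
  obtain ⟨m1, m2, -, -⟩ := h1 _ (hsm x y hxy)
  refine ⟨_, m1, pp x y, by rw [m2]; exact hgp x y, fun t ht => ?_⟩
  have hact : ∀ (i : ℕ) (z : X), D.a a • S.act (i • a) z = S.act ((i + 1) • a) z := fun i z => by
    rw [succ_nsmul', S.add, I.act_eq a]
  have key : ∀ i ≤ t, D.lg (gg (S.act (i • a) x) (S.act (i • a) y)) =
      D.Ad (D.a (i • a)) (D.lg (gg x y)) ∧
      pp (S.act (i • a) x) (S.act (i • a) y) = K.mv (i • a) x (pp x y) := by
    intro i
    induction i with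
    | zero =>
      intro _
      simp [S.zero, D.a_zero, D.Ad_one, Skew.mv, K.β_zero]
    | succ i ih =>
      intro hi
      obtain ⟨i1, i2⟩ := ih (by omega)
      have he0 := Real.exp_pos (-2 * K.h (S.act ((i + 1) • a) x))
      have b1 : Real.exp (-2 * K.h (S.act (i • a) x)) ≤
          E * Real.exp (-2 * K.h (S.act ((i + 1) • a) x)) := by
        have := K.h_lip a (S.act (i • a) x)
        rw [← S.add, ← succ_nsmul'] at this
        rw [hE, ← Real.exp_add]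
        exact Real.exp_le_exp.2 (by linarith)
      obtain ⟨-, s2, s3⟩ := hs (D.a a) _ (gg (S.act ((i + 1) • a) x) (S.act ((i + 1) • a) y))
        (S.act (i • a) x) (S.act (i • a) y) _
        (pp (S.act ((i + 1) • a) x) (S.act ((i + 1) • a) y)) (len_a_le D a) (hgp _ _)
        (by rw [hact, hact]; exact hgp _ _)
        (by
          rw [hact, ← I.h_eq]
          refine (hlen _ _).trans ?_
          have b2 := mul_le_mul_of_nonneg_left ((ht i (by omega)).trans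
            (mul_le_mul_of_nonneg_left b1 hδ0.le)) K.L_nonneg
          have b3 := mul_le_mul_of_nonneg_right (hδ2.le.trans hρ1) he0.le
          linarith)
        (by
          rw [hact, ← I.h_eq]
          refine (hlen _ _).trans ?_
          have b2 := mul_le_mul_of_nonneg_left (ht (i + 1) hi) K.L_nonneg
          have b3 := mul_le_mul_of_nonneg_right (hδ3.trans hρ1) he0.le
          linarith)
      refine ⟨?_, ?_⟩
      · rw [s3, i1, ← D.Ad_mul, ← D.a_add, ← succ_nsmul']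
      · rw [s2, i2, ← I.β_eq, Skew.mv, Skew.mv, succ_nsmul', K.β_add, map_mul,
          Equiv.Perm.mul_apply]
  intro i hi
  obtain ⟨k1, k2⟩ := key i hi
  have b1 : Real.exp (-2 * K.h (S.act (i • a) x)) ≤ 1 := by
    rw [Real.exp_le_one_iff]
    linarith [K.h_nonneg (S.act (i • a) x)]
  have b2 := (h1 _ (hsm _ _ ((ht i hi).trans (mul_le_of_le_one_right hδ0.le b1)))).2.2.1
  refine ⟨?_, ?_⟩
  · rw [← k1]
    linarith [hlen (S.act (i • a) x) (S.act (i • a) y)]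
  · rw [← k2, I.h_eq]
    exact hpt _ _

theorem dist_le (s : Euc k) (x : X) {Y : Mat n} (hY : Y ∈ D.g) (p : M) :
    dist (S.act s x) (S.act s (D.ex Y • I.j (I.π x) p)) ≤ K.L * ‖D.Ad (D.a s) Y‖ +
      Real.exp (K.L * (1 + K.h (S.act s x))) * dist (K.mv s x p) (K.pt (S.act s x)) := by
  have e1 : S.act s (D.ex Y • I.j (I.π x) p) =
      D.ex (D.Ad (D.a s) Y) • I.j (I.π (S.act s x)) (K.mv s x p) := by
    rw [← I.act_j, ← D.conj_ex _ hY, I.act_eq, I.act_eq, smul_smul, smul_smul,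
      inv_mul_cancel_right]
  have h1 := I.dist_smul_self (D.ex (D.Ad (D.a s) Y)) (I.j (I.π (S.act s x)) (K.mv s x p))
  have h2 := I.dist_j (I.π (S.act s x)) (K.mv s x p) (K.pt (S.act s x))
  have h3 := mul_le_mul_of_nonneg_left (D.len_ex_le (D.Ad_mem (D.a s) hY)) K.L_nonneg
  rw [I.j_pt, ← I.h_eq] at h2
  rw [e1, dist_comm]
  linarith [dist_triangle (D.ex (D.Ad (D.a s) Y) • I.j (I.π (S.act s x)) (K.mv s x p))
    (I.j (I.π (S.act s x)) (K.mv s x p)) (S.act s x)]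

theorem free {a : Euc k} {c q0 ε : ℝ} (hc : ∀ β ∈ D.wts, 0 < ⟪β, a⟫ → c ≤ ⟪β, a⟫)
    (hε : 2 * ε < c) {x : X} (hx : ∀ i : ℕ, K.h (S.act (-(i • a)) x) ≤ q0 + ε * i) {Y : Mat n}
    (hY : Y ∈ D.np a) (h : D.ex Y • I.π x = I.π x) : Y = 0 := by
  obtain ⟨r0, hr0, -, -, h2⟩ := D.len_chart
  set ρ := min I.r r0 with hρ
  have hρ0 : 0 < ρ := lt_min I.r_pos hr0
  have ht : Tendsto (fun i : ℕ => Real.exp (-((c - 2 * ε) * i)) * ‖Y‖) atTop (𝓝 (0 * ‖Y‖)) :=
    (Real.tendsto_exp_neg_atTop_nhds_zero.comp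
      (tendsto_natCast_atTop_atTop.const_mul_atTop (by linarith))).mul_const _
  rw [zero_mul] at ht
  obtain ⟨i, hi⟩ := (ht.eventually_lt_const
    (show 0 < ρ * Real.exp (-2 * q0) by positivity)).exists
  have hZ : D.Ad (D.a (-(i • a))) Y ∈ D.g := D.Ad_mem _ hY.1
  have b1 : ‖D.Ad (D.a (-(i • a))) Y‖ ≤ Real.exp (-(c * i)) * ‖Y‖ := by
    refine D.norm_Ad_a_le _ hY.2 fun β hβ hw => ?_
    rw [← Nat.cast_smul_eq_nsmul ℝ, inner_neg_right, real_inner_smul_right, mul_comm]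
    exact neg_le_neg (mul_le_mul_of_nonneg_right (hc β hw hβ) (Nat.cast_nonneg i))
  have b2 : ‖D.Ad (D.a (-(i • a))) Y‖ < ρ * Real.exp (-2 * K.h (S.act (-(i • a)) x)) := by
    have e1 : Real.exp (-(c * i)) = Real.exp (-(2 * ε * i)) * Real.exp (-((c - 2 * ε) * i)) := by
      rw [← Real.exp_add]
      congr 1
      ring
    have e2 : Real.exp (-(2 * ε * i)) * Real.exp (-2 * q0) ≤
        Real.exp (-2 * K.h (S.act (-(i • a)) x)) := by
      rw [← Real.exp_add]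
      exact Real.exp_le_exp.2 (by linarith [hx i])
    have e3 := mul_lt_mul_of_pos_left hi (Real.exp_pos (-(2 * ε * i)))
    have e4 := mul_le_mul_of_nonneg_left e2 hρ0.le
    rw [e1] at b1
    linarith
  have b3 : Real.exp (-2 * K.h (S.act (-(i • a)) x)) ≤ 1 := by
    rw [Real.exp_le_one_iff]
    linarith [K.h_nonneg (S.act (-(i • a)) x)]
  have b4 : ‖D.Ad (D.a (-(i • a))) Y‖ < r0 :=
    b2.trans_le ((mul_le_of_le_one_right hρ0.le b3).trans (min_le_right _ _))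
  have e1 : D.ex (D.Ad (D.a (-(i • a))) Y) = 1 := by
    refine I.inj _ (I.π (S.act (-(i • a)) x)) ?_ ?_
    · rw [← D.conj_ex _ hY.1, I.act_eq, I.π_smul, smul_smul, inv_mul_cancel_right, mul_smul, h]
    · rw [← I.h_eq]
      exact (D.len_ex_le hZ).trans_lt (b2.trans_le
        (mul_le_mul_of_nonneg_right (min_le_left _ _) (Real.exp_pos _).le))
  have e2 := (h2 _ hZ _ hZ b4 b4).1
  rw [e1, D.lg_one] at e2
  rw [← D.Ad_inv_Ad (D.a (-(i • a))) Y, ← e2, map_zero]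

include I in
theorem inj_cpt (Q : Set B) (hQ : IsCompact Q) :
    ∃ W ∈ 𝓝 (1 : G), ∀ b ∈ Q, ∀ g ∈ W, g • b = b → g = 1 := by
  obtain ⟨R, hR⟩ := hQ.bddAbove_image I.ht_cont.continuousOn
  refine ⟨{g | D.len g < I.r * Real.exp (-2 * R)}, ?_, fun b hb g hg h => I.inj g b h ?_⟩
  · refine (isOpen_lt D.continuous_len continuous_const).mem_nhds ?_
    simp only [mem_ofPred_eq, D.len_one]
    exact mul_pos I.r_pos (Real.exp_pos _)
  · refine lt_of_lt_of_le hg (mul_le_mul_of_nonneg_left (Real.exp_le_exp.2 ?_) I.r_pos.le)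
    linarith [hR (mem_image_of_mem _ hb)]

include I in
theorem exists_lip (a : Euc k) : ∃ Lp : ℝ, ∀ (i : ℤ) (x y : X),
    dist (S.act ((i : ℝ) • a) x) (S.act ((i : ℝ) • a) y) ≤
      Real.exp (Lp * |(i : ℝ)|) * dist x y := by
  refine ⟨K.L * (1 + ‖a‖), fun i x y => ?_⟩
  by_cases hi : i = 0
  · simp [hi, S.zero]
  rw [I.act_eq, I.act_eq]
  refine (I.dist_smul _ x y).trans (mul_le_mul_of_nonneg_right (Real.exp_le_exp.2 ?_) dist_nonneg)
  have h1 := len_a_le D ((i : ℝ) • a)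
  rw [norm_smul, Real.norm_eq_abs] at h1
  have h2 : (1 : ℝ) ≤ |(i : ℝ)| := by exact_mod_cast Int.one_le_abs hi
  rw [mul_assoc]
  refine mul_le_mul_of_nonneg_left ?_ K.L_nonneg
  linarith

theorem hol_eq (a : Euc k) (i : ℕ) {x y : X} {u : G} (h : I.π y = u • I.π x) :
    K.hol a i x y (I.c u⁻¹ (I.π y)) =
      I.c (D.a (-(i • a)) * u⁻¹ * (D.a (-(i • a)))⁻¹) (I.π (S.act (-(i • a)) y)) := by
  have e : u⁻¹ • I.π y = I.π x := by rw [h, inv_smul_smul]
  rw [Skew.hol, I.β_eq, I.β_eq, I.act_eq, I.π_smul, I.c_mul, inv_smul_smul, I.c_inv, I.c_mul, e]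

theorem hol_np {a : Euc k} {x y : X} {Y : Mat n} (hY : Y ∈ D.np a)
    (h : I.π y = D.ex Y • I.π x) :
    K.Hol a (K.L * (1 + ‖Y‖)) x y (I.c (D.ex Y)⁻¹ (I.π y)) ∧
      K.Hol a (K.L * (1 + ‖Y‖)) y x (I.c (D.ex Y)⁻¹ (I.π y))⁻¹ := by
  have key : ∀ {x y : X} {Y : Mat n}, Y ∈ D.np a → I.π y = D.ex Y • I.π x →
      K.Hol a (K.L * (1 + ‖Y‖)) x y (I.c (D.ex Y)⁻¹ (I.π y)) := by
    intro x y Y hY h i
    rw [I.hol_eq a i h]
    refine (I.len_c _ _).trans (add_le_add ?_ (le_of_eq ?_))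
    · refine mul_le_mul_of_nonneg_left (add_le_add le_rfl ?_) K.L_nonneg
      have hn := Submodule.neg_mem _ hY
      rw [← D.ex_neg hY.1, D.conj_ex _ hn.1]
      refine (D.len_ex_le (D.Ad_mem _ hn.1)).trans ?_
      refine (D.norm_Ad_a_le _ hn.2 (c := 0) fun β hβ _ => ?_).trans (by simp)
      rw [← Nat.cast_smul_eq_nsmul ℝ, inner_neg_right, real_inner_smul_right]
      exact neg_nonpos.2 (mul_nonneg (Nat.cast_nonneg i) (le_of_lt hβ))
    · rw [I.h_eq, I.h_eq, I.act_eq, I.act_eq, I.π_smul, I.π_smul, h, smul_smul,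
        inv_mul_cancel_right, mul_smul, inv_smul_smul]
  refine ⟨key hY h, ?_⟩
  have e : I.π x = D.ex (-Y) • I.π y := by rw [D.ex_neg hY.1, h, inv_smul_smul]
  have := key (Submodule.neg_mem _ hY) e
  rwa [norm_neg, e, I.c_inv, D.ex_neg hY.1] at this

end Inp

end Pool.Agent.P.MP_d483fb_an.Z.Geo

end

end

section

/-! The base and the suspension in the exponential chart. -/

open scoped Matrix Matrix.Norms.Operator Topology
open NormedSpace Filter Set MeasureTheory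

set_option linter.unusedSectionVars false

noncomputable section

namespace Pool.Agent.P.MP_d483fb_an.Z

namespace ExpData

variable {G : Type} [Group G] [TopologicalSpace G] [IsTopologicalGroup G] [ConnectedSpace G]
  [T2Space G] {n : ℕ} (D : ExpData G n) (Γ : Subgroup G) [DiscreteTopology Γ]

theorem Ad_zero_iff {g : G} {Y : Mat n} : D.Ad g Y = 0 ↔ Y = 0 :=
  ⟨fun h => by rw [← D.Ad_inv_Ad g Y, h, map_zero], fun h => by rw [h, map_zero]⟩

theorem smul_ex {Z : Type} [MulAction G Z] (g : G) {Y : Mat n} (hY : Y ∈ D.g) (z : Z) :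
    g • D.ex Y • z = D.ex (D.Ad g Y) • g • z := by
  rw [← D.conj_ex g hY, smul_smul, smul_smul, inv_mul_cancel_right]

theorem len_conj_ex (g : G) {Y : Mat n} (hY : Y ∈ D.g) :
    D.len (g * D.ex Y * g⁻¹) ≤ ‖D.Ad g Y‖ := by
  rw [D.conj_ex g hY]
  exact D.len_ex_le (D.Ad_mem g hY)

/-- The orbit maps are injective on balls whose radius decays exponentially in the height. -/
theorem inj_lie : ∃ c : ℝ, 0 < c ∧ ∀ (b : (D.lat Γ).B), ∀ Y ∈ D.g, ∀ Y' ∈ D.g,
    ‖Y‖ ≤ c * Real.exp (-2 * (D.lat Γ).ht b) → ‖Y'‖ ≤ c * Real.exp (-2 * (D.lat Γ).ht b) →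
    D.ex Y • b = D.ex Y' • b → Y = Y' := by
  obtain ⟨r, hr, h⟩ := (D.lat Γ).inj
  obtain ⟨r', hr', -, -, h'⟩ := D.len_chart
  refine ⟨min r r' / 3, by positivity, fun b Y hY Y' hY' h1 h2 e => ?_⟩
  have hE := Real.exp_pos (-2 * (D.lat Γ).ht b)
  have hE1 : Real.exp (-2 * (D.lat Γ).ht b) ≤ 1 :=
    Real.exp_le_one_iff.mpr (by linarith [(D.lat Γ).ht_nonneg b])
  have h3 := mul_le_mul_of_nonneg_right (min_le_left r r') hE.le
  have h4 := mul_le_mul (min_le_right r r') hE1 hE.le hr'.le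
  have h5 := mul_pos hr hE
  have h6 := h ((D.ex Y')⁻¹ * D.ex Y) b (by rw [mul_smul, e, inv_smul_smul]) (by
    have h7 := D.len_mul (D.ex Y')⁻¹ (D.ex Y)
    rw [D.len_inv] at h7
    rw [lat_len]
    linarith [D.len_ex_le hY, D.len_ex_le hY'])
  rw [← (h' Y hY Y hY (by linarith) (by linarith)).1, ← inv_mul_eq_one.mp h6,
    (h' Y' hY' Y' hY' (by linarith) (by linarith)).1]

/-- Freeness along a sequence that contracts faster than the injectivity radius. -/
theorem free_of_tendsto {b : (D.lat Γ).B} {Y : Mat n} (hY : Y ∈ D.g) (hb : D.ex Y • b = b)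
    {u : ℕ → G} (h : Tendsto (fun i => ‖D.Ad (u i) Y‖ * Real.exp (2 * (D.lat Γ).ht (u i • b)))
      atTop (𝓝 0)) : Y = 0 := by
  obtain ⟨c, hc, h1⟩ := D.inj_lie Γ
  obtain ⟨i, hi⟩ := (h.eventually (ge_mem_nhds hc)).exists
  refine D.Ad_zero_iff.mp (h1 (u i • b) _ (D.Ad_mem _ hY) 0 (zero_mem _) ?_
    (by rw [norm_zero]; positivity) (by rw [← D.smul_ex _ hY, hb, D.ex_zero, one_smul]))
  rwa [neg_mul, Real.exp_neg, ← div_eq_mul_inv, le_div_iff₀ (Real.exp_pos _)]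

/-- Close points of the base differ by a small exponential. -/
theorem exists_ex_base : ∃ r : ℝ, 0 < r ∧ ∀ b b' : (D.lat Γ).B, dist b b' < r →
    ∃ Y ∈ D.g, b' = D.ex Y • b ∧ ‖Y‖ ≤ 3 * dist b b' := by
  obtain ⟨r, hr, -, h, -⟩ := D.len_chart
  refine ⟨r, hr, fun b b' hb => ?_⟩
  obtain ⟨g, h1, h2⟩ := (D.lat Γ).exists_smul b b'
  rw [lat_len] at h2
  obtain ⟨h3, h4, h5, -⟩ := h g (h2 ▸ hb)
  exact ⟨_, h3, by rw [h4, h1], h2 ▸ h5⟩

theorem dist_ex_base {Y : Mat n} (hY : Y ∈ D.g) (b : (D.lat Γ).B) : dist (D.ex Y • b) b ≤ ‖Y‖ :=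
  ((D.lat Γ).dist_smul_self _ b).trans (D.len_ex_le hY)

theorem ht_ex {Y : Mat n} (hY : Y ∈ D.g) (b : (D.lat Γ).B) :
    (D.lat Γ).ht (D.ex Y • b) ≤ (D.lat Γ).ht b + ‖Y‖ :=
  ((D.lat Γ).ht_smul _ b).trans (add_le_add le_rfl (D.len_ex_le hY))

variable [MeasurableSpace G] [BorelSpace G]

/-- The holonomy of an exponential seen after a displacement. -/
theorem len_hol (g : G) {Y : Mat n} (hY : Y ∈ D.g) (b : (D.lat Γ).B) :
    D.len ((D.lat Γ).c g (D.ex Y • b) * (D.lat Γ).c (D.ex Y) b * ((D.lat Γ).c g b)⁻¹ :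
      (D.lat Γ).Γ) ≤ ‖D.Ad g Y‖ + ((D.lat Γ).ht (g • D.ex Y • b) + (D.lat Γ).ht (g • b)) :=
  (Lat.len_c_conj g _ b).trans (add_le_add (D.len_conj_ex g hY) le_rfl)

variable {M : Type} [MetricSpace M] [CompactSpace M] [MulAction (D.lat Γ).Γ M]
  [φ : Fib (D.lat Γ) M]

theorem dist_ex_le (x : (D.lat Γ).Sk M) {Y : Mat n} (hY : Y ∈ D.g) (p : M) :
    dist x (D.ex Y • (D.lat Γ).j x.π p) ≤
      Real.exp (φ.S * (1 + (D.lat Γ).ht x.π)) * dist x.pt p + (D.lat Γ).K M * ‖Y‖ :=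
  (Lat.dist_smul_j_le x _ p).trans (add_le_add le_rfl
    (mul_le_mul_of_nonneg_left (D.len_ex_le hY) (zero_le_one.trans Lat.one_le_K)))

/-- The same bound after a displacement. -/
theorem dist_smul_ex_le (g : G) (x : (D.lat Γ).Sk M) {Y : Mat n} (hY : Y ∈ D.g) (p : M) :
    dist (g • x) (g • D.ex Y • (D.lat Γ).j x.π p) ≤
      Real.exp (φ.S * (1 + (D.lat Γ).ht (g • x).π)) * dist (g • x).pt ((D.lat Γ).c g x.π • p) +
        (D.lat Γ).K M * ‖D.Ad g Y‖ := by
  rw [D.smul_ex g hY]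
  exact D.dist_ex_le Γ (g • x) (D.Ad_mem g hY) _

/-- Close points of the suspension differ by a small exponential and a change in the fibre. -/
theorem exists_exX : ∃ r : ℝ, 0 < r ∧ ∀ x y : (D.lat Γ).Sk M, dist x y < r →
    ∃ Y ∈ D.g, ∃ p, y = D.ex Y • (D.lat Γ).j x.π p ∧ ‖Y‖ ≤ 3 * dist x y ∧
      dist x.pt p ≤ Real.exp (φ.S * (D.lat Γ).ht x.π) * dist x y := by
  obtain ⟨r, hr, -, h, -⟩ := D.len_chart
  refine ⟨r, hr, fun x y hxy => ?_⟩
  obtain ⟨g, p, h1, h2, h3⟩ := Lat.exists_smulX x y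
  rw [lat_len] at h2
  obtain ⟨h4, h5, h6, -⟩ := h g (h2.trans_lt hxy)
  exact ⟨_, h4, p, by rw [h5, h1], by linarith, h3⟩

/-- Orbits that stay close keep the same relative position. -/
theorem track (a : G) : ∃ c : ℝ, 0 < c ∧ c ≤ 1 ∧ ∀ x y : (D.lat Γ).Sk M,
    dist x y ≤ c * Real.exp (-2 * (D.lat Γ).ht x.π) →
    ∃ Y ∈ D.g, ∃ p, y = D.ex Y • (D.lat Γ).j x.π p ∧ ∀ t : ℕ,
      (∀ i ≤ t, dist (a ^ i • x) (a ^ i • y) ≤ c * Real.exp (-2 * (D.lat Γ).ht (a ^ i • x).π)) →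
      ‖D.Ad (a ^ t) Y‖ ≤ 3 * dist (a ^ t • x) (a ^ t • y) ∧
      dist (a ^ t • x).pt ((D.lat Γ).c (a ^ t) x.π • p) ≤
        Real.exp (φ.S * (D.lat Γ).ht (a ^ t • x).π) * dist (a ^ t • x) (a ^ t • y) := by
  obtain ⟨c₀, hc₀, hinj⟩ := D.inj_lie Γ
  obtain ⟨r, hr, hex⟩ := D.exists_exX Γ (M := M)
  set E := Real.exp (4 * D.len a) with hE
  have hE1 : 1 ≤ E := Real.one_le_exp (by linarith [D.len_nonneg a])
  set c := min (min (r / 2) 1) (c₀ / (3 * E)) with hc
  have hc0 : 0 < c := by positivity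
  have hc1 : c ≤ r / 2 := (min_le_left _ _).trans (min_le_left _ _)
  have hc2 : 3 * E * c ≤ c₀ := by
    rw [← le_div_iff₀' (by positivity)]
    exact min_le_right _ _
  have hlt : ∀ x y : (D.lat Γ).Sk M, dist x y ≤ c * Real.exp (-2 * (D.lat Γ).ht x.π) →
      dist x y < r := fun x y h => by
    have : Real.exp (-2 * (D.lat Γ).ht x.π) ≤ 1 :=
      Real.exp_le_one_iff.mpr (by linarith [(D.lat Γ).ht_nonneg x.π])
    nlinarith
  refine ⟨c, hc0, (min_le_left _ _).trans (min_le_right _ _), fun x y hxy => ?_⟩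
  obtain ⟨Y, hY, p, e, h1, h2⟩ := hex x y (hlt x y hxy)
  refine ⟨Y, hY, p, e, fun t => ?_⟩
  induction t with
  | zero =>
    intro _
    rw [pow_zero, one_smul, one_smul, D.Ad_one, Lat.c_one, one_smul]
    exact ⟨h1, h2⟩
  | succ t ih =>
    intro h
    obtain ⟨h3, -⟩ := ih fun i hi => h i (by omega)
    have h4 := h t (by omega)
    have h5 := h (t + 1) le_rfl
    obtain ⟨Y', hY', p', e', h6, h7⟩ := hex _ _ (hlt _ _ h5)
    have e2 : a ^ (t + 1) • y = D.ex (D.Ad (a ^ (t + 1)) Y) •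
        (D.lat Γ).j (a ^ (t + 1) • x).π ((D.lat Γ).c (a ^ (t + 1)) x.π • p) := by
      rw [e, D.smul_ex _ hY]
      rfl
    have hP := Real.exp_pos (-2 * (D.lat Γ).ht (a ^ (t + 1) • x).π)
    have h8 : ‖D.Ad (a ^ (t + 1)) Y‖ ≤ c₀ * Real.exp (-2 * (D.lat Γ).ht (a ^ (t + 1) • x).π) := by
      have h9 := (D.lat Γ).ht_smul a (a ^ t • x).π
      rw [← Lat.π_smul, smul_smul, ← pow_succ', lat_len] at h9
      have h10 : Real.exp (2 * D.len a) * Real.exp (-2 * (D.lat Γ).ht (a ^ t • x).π) ≤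
          E * Real.exp (-2 * (D.lat Γ).ht (a ^ (t + 1) • x).π) := by
        rw [hE, ← Real.exp_add, ← Real.exp_add]
        exact Real.exp_le_exp.mpr (by linarith)
      rw [pow_succ', D.Ad_mul, ← pow_succ']
      calc _ ≤ Real.exp (2 * D.len a) * (3 * (c * Real.exp (-2 * (D.lat Γ).ht (a ^ t • x).π))) :=
            (D.norm_Ad_len a _).trans (mul_le_mul_of_nonneg_left (by linarith) (Real.exp_pos _).le)
        _ = 3 * c * (Real.exp (2 * D.len a) * Real.exp (-2 * (D.lat Γ).ht (a ^ t • x).π)) := by ring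
        _ ≤ 3 * c * (E * Real.exp (-2 * (D.lat Γ).ht (a ^ (t + 1) • x).π)) :=
            mul_le_mul_of_nonneg_left h10 (by positivity)
        _ ≤ _ := by nlinarith
    have h9 : ‖Y'‖ ≤ c₀ * Real.exp (-2 * (D.lat Γ).ht (a ^ (t + 1) • x).π) := by
      have : 3 * c ≤ c₀ := by nlinarith
      nlinarith
    obtain rfl := hinj _ _ (D.Ad_mem _ hY) _ hY' h8 h9 (congrArg Lat.Sk.π (e2.symm.trans e'))
    obtain rfl := Lat.smul_j_inj (e2.symm.trans e')
    exact ⟨h6, h7⟩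

end ExpData

end Pool.Agent.P.MP_d483fb_an.Z

end

end

section

/-! The suspension of a smooth action as an input of the normal form theory. -/

open scoped Matrix Matrix.Norms.Operator Topology Manifold
open Filter Set MeasureTheory

set_option linter.unusedSectionVars false

noncomputable section

namespace Pool.Agent.P.MP_d483fb_an.Z

open Os NF

variable {G : Type} [Group G] [TopologicalSpace G] [IsTopologicalGroup G] [ConnectedSpace G]
  [T2Space G] [MeasurableSpace G] [BorelSpace G] {n k : ℕ}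

theorem Emb.pcov {m : ℕ} {M : Type} [MetricSpace M] [CompactSpace M]
    [ChartedSpace (EuclideanSpace ℝ (Fin m)) M] (e : Emb m M) : PCov M :=
  PCov.of_embedding e.smooth.continuous (K := 1) fun p q => by rw [e.dist_eq, one_mul]

/-- The suspension as a measurable skew product. -/
def Lat.skw (L : Lat G) {M : Type} [MeasurableSpace M] [MulAction L.Γ M]
    {α : L.Γ →* Equiv.Perm M} (hα : ∀ γ p, α γ p = γ • p) : Skw L α (L.Sk M) where
  e := MeasurableEquiv.refl (L.B × M)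
  smul g x := Prod.ext rfl (hα (L.c g x.π) x.pt).symm

theorem Lat.skw_π (L : Lat G) {M : Type} [MeasurableSpace M] [MulAction L.Γ M]
    {α : L.Γ →* Equiv.Perm M} (hα : ∀ γ p, α γ p = γ • p) : (L.skw hα).π = Lat.Sk.π := rfl

namespace Std

variable (D : Std G n k)

theorem continuous_a' : Continuous D.a :=
  D.ex_cont.comp_continuous D.dg.continuous_of_finiteDimensional D.dg_mem

theorem len_a : ∃ C : ℝ, 0 ≤ C ∧ ∀ s, D.len (D.a s) ≤ C * ‖s‖ := by
  obtain ⟨C, h1, h2⟩ := SemilinearMapClass.bound_of_continuous D.dg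
    D.dg.continuous_of_finiteDimensional
  exact ⟨C, h1.le, fun s => (D.len_ex_le (D.dg_mem s)).trans (h2 s)⟩

/-- The action of the Cartan subgroup as an ergodic system. -/
def sys {X : Type} [MeasurableSpace X] [MulAction G X] {ν : Measure X} (hi : D.InvA ν)
    (he : D.ErgA ν) : Sys (Euc k) X ν where
  act s x := D.a s • x
  zero x := by rw [D.a_zero, one_smul]
  add s t x := by rw [D.a_add, mul_smul]
  mp := hi
  erg U hU h := he U hU fun s => EventuallyEq.of_eq (Set.Subset.antisymm (fun x hx => by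
    have := h (-s) _ hx
    rwa [D.a_neg, inv_smul_smul] at this) fun x hx => h s x hx)

variable (Γ : Subgroup G) [DiscreteTopology Γ] {M : Type} [MetricSpace M] [CompactSpace M]
  [MeasurableSpace M] [BorelSpace M] [MulAction (D.lat Γ).Γ M] [φ : Fib (D.lat Γ) M]
  {α : (D.lat Γ).Γ →* Equiv.Perm M} {m : ℕ}

/-- A constant that dominates all the constants of the suspension. -/
def suL (M : Type) [MetricSpace M] [MulAction (D.lat Γ).Γ M] [φ : Fib (D.lat Γ) M] : ℝ :=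
  2 + 2 * D.len_a.choose + 2 * (D.lat Γ).K M + φ.S

theorem suL_spec : 2 ≤ D.suL Γ M ∧ 2 * (D.lat Γ).K M ≤ D.suL Γ M ∧ φ.S + 2 ≤ D.suL Γ M ∧
    ∀ s, 2 * D.len (D.a s) ≤ D.suL Γ M * ‖s‖ := by
  obtain ⟨h1, h2⟩ := D.len_a.choose_spec
  have h3 := Lat.one_le_K (L := D.lat Γ) (M := M)
  have h4 := φ.S_nonneg
  unfold suL
  refine ⟨by linarith, by linarith, by linarith, fun s => ?_⟩
  nlinarith [h2 s, norm_nonneg s, mul_nonneg h4 (norm_nonneg s),
    mul_nonneg (zero_le_one.trans h3) (norm_nonneg s)]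

/-- The skew product structure of the action of the Cartan subgroup. -/
def skew (hα : ∀ γ p, α γ p = γ • p) (J : Jets α (fun γ => D.len γ) m)
    {ν : Measure ((D.lat Γ).Sk M)} (hi : D.InvA ν) (he : D.ErgA ν) : Skew (D.sys hi he) J where
  pt := Lat.Sk.pt
  β s x := (D.lat Γ).c (D.a s) x.π
  h x := (D.lat Γ).ht x.π
  L := D.suL Γ M
  L_nonneg := zero_le_two.trans (D.suL_spec Γ).1
  measPt := Lat.measurable_pt
  measβ := Lat.measurable_c' (D.continuous_a'.measurable.comp measurable_fst)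
    (Lat.measurable_π.comp measurable_snd)
  measAct := (D.continuous_a'.measurable.comp measurable_fst).smul measurable_snd
  measH := (D.lat Γ).measurable_ht.comp Lat.measurable_π
  β_zero x := by rw [D.a_zero, Lat.c_one]
  β_add s t x := by
    rw [D.a_add, Lat.c_mul]
    rfl
  pt_act s x := (hα _ _).symm
  h_nonneg x := (D.lat Γ).ht_nonneg _
  h_lip s x := by
    obtain ⟨h1, -, -, h2⟩ := D.suL_spec Γ (M := M)
    have h3 := (D.lat Γ).ht_smul (D.a s) x.π
    rw [ExpData.lat_len] at h3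
    show (D.lat Γ).ht (D.a s • x.π) ≤ _
    nlinarith [h2 s, D.len_nonneg (D.a s)]
  len_β s x := by
    obtain ⟨h1, -, -, h2⟩ := D.suL_spec Γ (M := M)
    have h3 := (D.lat Γ).len_c' (D.a s) x.π
    rw [ExpData.lat_len, ExpData.lat_len] at h3
    nlinarith [h2 s, mul_le_mul_of_nonneg_right h1 ((D.lat Γ).ht_nonneg x.π)]

/-- The geometry of the suspension. -/
def inp (hα : ∀ γ p, α γ p = γ • p) (J : Jets α (fun γ => D.len γ) m) (hM : PCov M)
    {ν : Measure ((D.lat Γ).Sk M)} (hi : D.InvA ν) (he : D.ErgA ν)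
    [SMulInvariantMeasure G (D.lat Γ).B (ν.map Lat.Sk.π)] :
    Geo.Inp D (D.lat Γ).B (D.skew Γ hα J hi he) where
  π := Lat.Sk.π
  j := (D.lat Γ).j
  c := (D.lat Γ).c
  ht := (D.lat Γ).ht
  r := (D.lat Γ).inj.choose
  act_eq _ _ := rfl
  β_eq _ _ := rfl
  h_eq _ := rfl
  one_le := one_le_two.trans (D.suL_spec Γ).1
  π_cont := Lat.continuous_π
  π_smul _ _ := rfl
  base g := measurePreserving_smul g _
  meas_c := (D.lat Γ).measurable_c
  π_j _ _ := rfl
  pt_j _ _ := rfl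
  j_pt _ := rfl
  c_one := (D.lat Γ).c_one
  c_mul := (D.lat Γ).c_mul
  smul_j g b p := by rw [hα, Lat.smul_j]
  ht_cont := (D.lat Γ).continuous_ht
  r_pos := (D.lat Γ).inj.choose_spec.1
  inj := (D.lat Γ).inj.choose_spec.2
  len_c g b := by
    obtain ⟨h1, -⟩ := D.suL_spec Γ (M := M)
    have h3 := (D.lat Γ).len_c g b
    rw [ExpData.lat_len, ExpData.lat_len] at h3
    show D.len _ ≤ D.suL Γ M * _ + D.suL Γ M * _
    nlinarith [D.len_nonneg g, (D.lat Γ).ht_nonneg b, (D.lat Γ).ht_nonneg (g • b)]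
  dist_smul_self g x := by
    obtain ⟨-, h1, -⟩ := D.suL_spec Γ (M := M)
    refine (Lat.dist_smul_selfX g x).trans (mul_le_mul_of_nonneg_right ?_ (D.len_nonneg g))
    show _ ≤ D.suL Γ M
    linarith [Lat.one_le_K (L := D.lat Γ) (M := M)]
  dist_smul g x y := by
    obtain ⟨-, h1, h2, -⟩ := D.suL_spec Γ (M := M)
    refine (Lat.dist_smulX g x y).trans (mul_le_mul_of_nonneg_right ?_ dist_nonneg)
    show _ ≤ Real.exp (D.suL Γ M * _)
    rw [mul_add, Real.exp_add, mul_one]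
    exact mul_le_mul (by linarith [Real.add_one_le_exp (D.suL Γ M)])
      (Real.exp_le_exp.mpr (mul_le_mul_of_nonneg_right h2 (D.len_nonneg g))) (Real.exp_pos _).le
      (Real.exp_pos _).le
  dist_j b p p' := by
    obtain ⟨-, -, h2, -⟩ := D.suL_spec Γ (M := M)
    refine (Lat.dist_j_le b p p').trans (mul_le_mul_of_nonneg_right (Real.exp_le_exp.mpr
      (mul_le_mul_of_nonneg_right ?_ (by linarith [(D.lat Γ).ht_nonneg b]))) dist_nonneg)
    show _ ≤ D.suL Γ M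
    linarith
  near x y := by
    obtain ⟨h1, -, h2, -⟩ := D.suL_spec Γ (M := M)
    obtain ⟨g, p, e, h3, h4⟩ := Lat.exists_smulX x y
    refine ⟨g, p, e, h3.trans (le_mul_of_one_le_left dist_nonneg (one_le_two.trans h1)), ?_⟩
    rw [dist_comm]
    refine h4.trans (mul_le_mul_of_nonneg_right (Real.exp_le_exp.mpr ?_) dist_nonneg)
    show _ ≤ D.suL Γ M * _
    nlinarith [(D.lat Γ).ht_nonneg x.π]
  cover := Lat.coverX hM

end Std

/-- The action given by a homomorphism. -/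
abbrev actOf {Γ M : Type} [Group Γ] (α : Γ →* Equiv.Perm M) : MulAction Γ M :=
  MulAction.compHom M α

/-- The suspension exists; the leaf structure is reduced to a statement on abstract inputs. -/
theorem Std.susp_of_inp (D : Std G n k) (Γ : Subgroup G) [DiscreteTopology Γ] {m : ℕ} {M : Type}
    [MetricSpace M] [CompactSpace M] [MeasurableSpace M] [BorelSpace M]
    [ChartedSpace (EuclideanSpace ℝ (Fin m)) M]
    (m0 : Measure (D.lat Γ).B) [SMulInvariantMeasure G (D.lat Γ).B m0]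
    (e : Emb m M) (α : (D.lat Γ).Γ →* Equiv.Perm M) (J : NF.Jets α (fun γ => D.len γ) m) :
    ∃ (X : Type) (_ : MetricSpace X) (_ : ProperSpace X) (_ : MeasurableSpace X)
      (_ : BorelSpace X) (_ : MulAction G X) (_ : ContinuousSMul G X) (E : Skw (D.lat Γ) α X),
      Continuous E.π ∧ (∀ K, IsCompact K → IsCompact (E.π ⁻¹' K)) ∧
      ∀ ν : Measure X, ν.map E.π = m0 → D.InvA ν → D.ErgA ν →
        ∃ (S : Sys (Euc k) X ν) (K : Skew S J) (I : Geo.Inp D (D.lat Γ).B K), I.π = E.π ∧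
          I.c = (D.lat Γ).c ∧ I.ht = (D.lat Γ).ht := by
  let _ := actOf α
  let _ : Fib (D.lat Γ) M := ⟨J.L0, J.L0_nonneg, J.lip⟩
  have hα : ∀ γ p, α γ p = γ • p := fun _ _ => rfl
  refine ⟨(D.lat Γ).Sk M, inferInstance, inferInstance, inferInstance, inferInstance,
    inferInstance, inferInstance, (D.lat Γ).skw hα, Lat.continuous_π,
    fun K hK => Lat.isCompact_preimage_π hK, fun ν h0 hi he => ?_⟩
  have : SMulInvariantMeasure G (D.lat Γ).B (ν.map Lat.Sk.π) := by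
    rw [show ν.map Lat.Sk.π = m0 from h0]
    infer_instance
  exact ⟨_, _, D.inp Γ hα J e.pcov hi he, rfl, rfl, rfl⟩

end Pool.Agent.P.MP_d483fb_an.Z

end

end
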