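import Pool.Agent.P.MP_d483fb_an.M.A01

section

/-!
The identity component of the group of orthogonal automorphisms of a compact semisimple Lie
algebra, and the bound that `m < d(G)` gives for the codimension of its subalgebras.
-/

open Set Filter Topology NormedSpace Module
open scoped Matrix Matrix.Norms.Operator TensorProduct

set_option linter.unusedSectionVars false

attribute [local instance 100] LieRing.ofAssociativeRing

noncomputable section

namespace Pool.Agent.P.MP_d483fb_an.Z.SR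

theorem deriv_mem {E : Type} [NormedAddCommGroup E] [NormedSpace ℝ E] [FiniteDimensional ℝ E]
    (S : Submodule ℝ E) {f : ℝ → E} {f' : E} (h : ∀ t, f t ∈ S) (hf : HasDerivAt f f' 0) :
    f' ∈ S := by
  refine S.closed_of_finiteDimensional.mem_of_tendsto (hasDerivAt_iff_tendsto_slope.1 hf)
    (Eventually.of_forall fun t => ?_)
  exact S.smul_mem _ (S.sub_mem (h t) (h 0))

theorem exp_mul_exp_neg {N : ℕ} (A : Mat N) : exp A * exp (-A) = 1 := by
  rw [← Matrix.exp_add_of_commute _ _ (Commute.refl A).neg_right, add_neg_cancel, exp_zero]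

theorem exp_neg_mul_exp {N : ℕ} (A : Mat N) : exp (-A) * exp A = 1 := by
  rw [← Matrix.exp_add_of_commute _ _ (Commute.refl A).neg_left, neg_add_cancel, exp_zero]

theorem exp_orth {N : ℕ} {A : Mat N} (h : Aᵀ = -A) : exp A * (exp A)ᵀ = 1 := by
  rw [← Matrix.exp_transpose, h, exp_mul_exp_neg]

/-- Evaluation of a matrix at a vector. -/
def evL {N : ℕ} (v : Fin N → ℝ) : Mat N →L[ℝ] Fin N → ℝ :=
  LinearMap.toContinuousLinearMap ((Matrix.mulVecBilin ℝ ℝ).flip v)

theorem evL_apply {N : ℕ} (v : Fin N → ℝ) (A : Mat N) : evL v A = A *ᵥ v := rfl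

theorem hasDerivAt_exp_mulVec {N : ℕ} (A : Mat N) (v : Fin N → ℝ) (t : ℝ) :
    HasDerivAt (fun t : ℝ => exp (t • A) *ᵥ v) (A *ᵥ (exp (t • A) *ᵥ v)) t := by
  have := (evL v).hasFDerivAt.comp_hasDerivAt t (hasDerivAt_exp_smul_const' (𝕂 := ℝ) A t)
  rw [Matrix.mulVec_mulVec]
  exact this

theorem isCompact_orth {N : ℕ} {S : Set (Mat N)} (hS : IsClosed S) (h : ∀ A ∈ S, A * Aᵀ = 1) :
    IsCompact S := by
  refine (isCompact_univ_pi fun _ : Fin N => isCompact_univ_pi fun _ : Fin N =>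
    isCompact_Icc (a := (-1 : ℝ)) (b := 1)).of_isClosed_subset hS fun A hA i _ j _ => ?_
  have h1 := congrFun (congrFun (h A hA) i) i
  rw [Matrix.mul_apply, Matrix.one_apply_eq] at h1
  have h2 : A i j * Aᵀ j i ≤ 1 := h1 ▸ Finset.single_le_sum (f := fun j => A i j * Aᵀ j i)
    (fun j _ => mul_self_nonneg _) (Finset.mem_univ j)
  exact abs_le.1 (abs_le_one_iff_mul_self_le_one.2 h2)

/-- The identity component of a monoid of matrices. -/
def comp1 {N : ℕ} (S : Submonoid (Mat N)) : Submonoid (Mat N) where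
  carrier := connectedComponentIn (S : Set (Mat N)) 1
  one_mem' := mem_connectedComponentIn S.one_mem
  mul_mem' := by
    intro A B hA hB
    have hc := isPreconnected_connectedComponentIn (F := (S : Set (Mat N))) (x := 1)
    have h1 := mem_connectedComponentIn (F := (S : Set (Mat N))) S.one_mem
    refine ((hc.prod hc).image (fun p : Mat N × Mat N => p.1 * p.2)
      continuous_mul.continuousOn).subset_connectedComponentIn ⟨(1, 1), ⟨h1, h1⟩, mul_one 1⟩ ?_
      ⟨(A, B), ⟨hA, hB⟩, rfl⟩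
    rintro _ ⟨p, hp, rfl⟩
    exact S.mul_mem (connectedComponentIn_subset _ _ hp.1) (connectedComponentIn_subset _ _ hp.2)

theorem comp1_le {N : ℕ} (S : Submonoid (Mat N)) : comp1 S ≤ S := connectedComponentIn_subset _ _

theorem isConnected_comp1 {N : ℕ} (S : Submonoid (Mat N)) : IsConnected (comp1 S : Set (Mat N)) :=
  isConnected_connectedComponentIn_iff.2 S.one_mem

theorem isClosed_comp1 {N : ℕ} {S : Submonoid (Mat N)} (hS : IsClosed (S : Set (Mat N))) :
    IsClosed (comp1 S : Set (Mat N)) := by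
  refine closure_subset_iff_isClosed.1 ?_
  exact (isConnected_comp1 S).isPreconnected.closure.subset_connectedComponentIn
    (subset_closure (comp1 S).one_mem) (closure_minimal (comp1_le S) hS)

theorem lieSet_comp1 {N : ℕ} (S : Submonoid (Mat N)) :
    lieSet (comp1 S : Set (Mat N)) = lieSet (S : Set (Mat N)) := by
  refine Subset.antisymm (fun A hA t => comp1_le S (hA t)) fun A hA t => ?_
  have hc : Continuous fun t : ℝ => exp (t • A) :=
    continuous_iff_continuousAt.2 fun t => (hasDerivAt_exp_smul_const (𝕂 := ℝ) A t).continuousAt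
  refine (isPreconnected_range hc).subset_connectedComponentIn ⟨0, by simp⟩ ?_ ⟨t, rfl⟩
  rintro _ ⟨s, rfl⟩
  exact hA s

variable {L : Type} [LieRing L] [LieAlgebra ℝ L] {N : ℕ} (b : Basis (Fin N) ℝ L)

/-- The adjoint representation in a basis. -/
def adM : L →ₗ⁅ℝ⁆ Mat N :=
  ((LinearMap.toMatrixAlgEquiv b).toLieEquiv : Module.End ℝ L →ₗ⁅ℝ⁆ Mat N).comp (LieAlgebra.ad ℝ L)

theorem adM_apply (X : L) : adM b X = LinearMap.toMatrix b b (LieAlgebra.ad ℝ L X) := rfl

theorem adM_mulVec (X Y : L) : adM b X *ᵥ b.equivFun Y = b.equivFun ⁅X, Y⁆ := by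
  rw [adM_apply, Basis.equivFun_apply, LinearMap.toMatrix_mulVec_repr]
  rfl

/-- The adjoint representation in coordinates. -/
def co : (Fin N → ℝ) →L[ℝ] Mat N :=
  LinearMap.toContinuousLinearMap ((adM b : L →ₗ[ℝ] Mat N) ∘ₗ b.equivFun.symm.toLinearMap)

theorem co_apply (Y : L) : co b (b.equivFun Y) = adM b Y := by
  simp [co]

theorem hasDerivAt_co (A : Mat N) (v : Fin N → ℝ) (s : ℝ) :
    HasDerivAt (fun t : ℝ => co b (exp (t • A) *ᵥ v)) (co b (A *ᵥ (exp (s • A) *ᵥ v))) s :=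
  (co b).hasFDerivAt.comp_hasDerivAt s (hasDerivAt_exp_mulVec A v s)

/-- Orthogonal automorphisms. -/
def Aut : Submonoid (Mat N) where
  carrier := {A | A * Aᵀ = 1 ∧ ∀ v, A * co b v = co b (A *ᵥ v) * A}
  one_mem' := by simp
  mul_mem' := by
    rintro A B ⟨hA, hA'⟩ ⟨hB, hB'⟩
    refine ⟨?_, fun v => ?_⟩
    · rw [Matrix.transpose_mul, mul_assoc, ← mul_assoc B, hB, one_mul, hA]
    · rw [mul_assoc, hB', ← mul_assoc, hA', Matrix.mulVec_mulVec, mul_assoc]

theorem isClosed_Aut : IsClosed (Aut b : Set (Mat N)) := by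
  have : (Aut b : Set (Mat N)) =
      {A | A * Aᵀ = 1} ∩ ⋂ v, {A | A * co b v = co b (evL v A) * A} := by
    ext A
    simp only [mem_inter_iff, mem_iInter]
    rfl
  rw [this]
  exact (isClosed_eq (by fun_prop) continuous_const).inter
    (isClosed_iInter fun v => isClosed_eq (by fun_prop) (by fun_prop))

theorem adM_mem (hb : ∀ X, (adM b X)ᵀ = -adM b X) (X : L) :
    adM b X ∈ lieSet (Aut b : Set (Mat N)) := by
  intro t
  refine ⟨exp_orth (by rw [Matrix.transpose_smul, hb, smul_neg]), fun v => ?_⟩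
  set A := adM b X with hA
  have hd : ∀ w, co b (A *ᵥ w) = A * co b w - co b w * A := by
    intro w
    obtain ⟨Y, rfl⟩ := b.equivFun.surjective w
    rw [hA, adM_mulVec, co_apply, co_apply, LieHom.map_lie]
    rfl
  let f : ℝ → Mat N := fun s => exp (s • (-A)) * co b (exp (s • A) *ᵥ v) * exp (s • A)
  have hf : ∀ s, HasDerivAt f 0 s := by
    intro s
    have h1 := ((hasDerivAt_exp_smul_const (𝕂 := ℝ) (-A) s).mul
      (hasDerivAt_co b A v s)).mul (hasDerivAt_exp_smul_const' (𝕂 := ℝ) A s)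
    refine h1.congr_deriv ?_
    simp only [Pi.mul_apply, hd]
    noncomm_ring
  have h0 : f t = f 0 := is_const_of_deriv_eq_zero (fun s => (hf s).differentiableAt)
    (fun s => (hf s).deriv) t 0
  simp only [f, zero_smul, exp_zero, one_mul, mul_one, Matrix.one_mulVec] at h0
  rw [← h0, ← mul_assoc, ← mul_assoc, smul_neg, exp_mul_exp_neg, one_mul]

theorem exists_adM [LieAlgebra.IsKilling ℝ L] {A : Mat N} (hA : A ∈ lieSet (Aut b : Set (Mat N))) :
    ∃ X, adM b X = A := by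
  have : Module.Finite ℝ L := Module.Finite.of_basis b
  have hd : ∀ w, co b (A *ᵥ w) = A * co b w - co b w * A := by
    intro v
    have h1 := ((hasDerivAt_exp_smul_const (𝕂 := ℝ) A 0).mul_const (co b v)).sub
      ((hasDerivAt_co b A v 0).mul (hasDerivAt_exp_smul_const (𝕂 := ℝ) A 0))
    have h2 := deriv_mem (⊥ : Submodule ℝ (Mat N)) (fun t => sub_eq_zero.2 ((hA t).2 v)) h1
    simp only [zero_smul, exp_zero, one_mul, mul_one, Matrix.one_mulVec, Submodule.mem_bot] at h2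
    rw [sub_eq_zero.1 h2]
    exact (add_sub_cancel_right _ _).symm
  have he : ∀ Y, b.equivFun (Matrix.toLin b b A Y) = A *ᵥ b.equivFun Y := by
    intro Y
    rw [Basis.equivFun_apply, Basis.equivFun_apply, ← LinearMap.toMatrix_mulVec_repr b b,
      LinearMap.toMatrix_toLin]
  let δ : LieDerivation ℝ L L :=
    { toLinearMap := Matrix.toLin b b A
      leibniz' := fun Y Z => by
        apply b.equivFun.injective
        rw [sub_eq_add_neg, lie_skew, map_add, he, ← adM_mulVec, ← adM_mulVec, ← adM_mulVec, he,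
          ← co_apply b (Matrix.toLin b b A Y), he, hd, co_apply, Matrix.sub_mulVec,
          Matrix.mulVec_mulVec, Matrix.mulVec_mulVec]
        abel }
  obtain ⟨X, hX⟩ := LieDerivation.IsKilling.exists_eq_ad δ
  refine ⟨X, ?_⟩
  have : LieAlgebra.ad ℝ L X = Matrix.toLin b b A := by
    ext Y
    have := congrArg (fun d : LieDerivation ℝ L L => d Y) hX
    simpa [δ] using this
  rw [adM_apply, this, LinearMap.toMatrix_toLin]

theorem lieAlg_Aut [LieAlgebra.IsKilling ℝ L] (hb : ∀ X, (adM b X)ᵀ = -adM b X) :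
    lieAlg (comp1 (Aut b) : Set (Mat N)) = (adM b).range := by
  rw [lieAlg, lieSet_comp1]
  have : lieSet (Aut b : Set (Mat N)) = ((adM b).range : Set (Mat N)) := by
    refine Subset.antisymm (fun A hA => exists_adM b hA) ?_
    rintro _ ⟨X, rfl⟩
    exact adM_mem b hb X
  rw [this, LieSubalgebra.lieSpan_eq]

theorem adM_injective [LieAlgebra.IsKilling ℝ L] : Function.Injective (adM b) := by
  have : Module.Finite ℝ L := Module.Finite.of_basis b
  have : Function.Injective (LieAlgebra.ad ℝ L) := by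
    rw [← LieHom.ker_eq_bot, LieAlgebra.ad_ker_eq_self_module_ker,
      LieAlgebra.self_module_ker_eq_center, LieAlgebra.center_eq_bot]
  exact (LinearMap.toMatrix b b).injective.comp this

/-- The matrices preserving a subspace. -/
def stabS (S : Submodule ℝ (Fin N → ℝ)) : Subalgebra ℝ (Mat N) where
  carrier := {A | ∀ v ∈ S, A *ᵥ v ∈ S}
  mul_mem' hA hB v hv := by
    rw [← Matrix.mulVec_mulVec]
    exact hA _ (hB v hv)
  add_mem' hA hB v hv := by
    rw [Matrix.add_mulVec]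
    exact S.add_mem (hA v hv) (hB v hv)
  algebraMap_mem' c v hv := by
    rw [Algebra.algebraMap_eq_smul_one, Matrix.smul_mulVec, Matrix.one_mulVec]
    exact S.smul_mem c hv

theorem isClosed_stabS (S : Submodule ℝ (Fin N → ℝ)) : IsClosed (stabS S : Set (Mat N)) :=
  (Subalgebra.toSubmodule (stabS S)).closed_of_finiteDimensional

/-- Complexification of an isomorphism of Lie algebras. -/
def bcEquiv {L' : Type} [LieRing L'] [LieAlgebra ℝ L'] (e : L ≃ₗ⁅ℝ⁆ L') :
    (ℂ ⊗[ℝ] L) ≃ₗ⁅ℂ⁆ (ℂ ⊗[ℝ] L') :=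
  { e.toLinearEquiv.baseChange ℝ ℂ _ _ with
    map_lie' := by
      intro x y
      have h : ∀ z, e.toLinearEquiv.baseChange ℝ ℂ _ _ z =
          LieAlgebra.ExtendScalars.map (AlgHom.id ℝ ℂ) (e : L →ₗ⁅ℝ⁆ L') z := by
        intro z
        induction z using TensorProduct.induction_on with
        | zero => simp
        | add x x' hx hx' => simp only [map_add, hx, hx']
        | tmul s x => simp
      change e.toLinearEquiv.baseChange ℝ ℂ _ _ ⁅x, y⁆ =
        ⁅e.toLinearEquiv.baseChange ℝ ℂ _ _ x, e.toLinearEquiv.baseChange ℝ ℂ _ _ y⁆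
      rw [h, h, h]
      exact LieHom.map_lie _ x y }

variable {G : Type} [Group G] [TopologicalSpace G] {n m : ℕ}

/-- A subalgebra that is not an ideal has codimension greater than `m`. -/
theorem lt_of_ltD (D : HigherRank G n) (hD : D.ltD m) [LieAlgebra.IsKilling ℝ L]
    (hb : ∀ X, (adM b X)ᵀ = -adM b X) (I : LieIdeal ℂ (ℂ ⊗[ℝ] lieAlg (Set.range D.ρ)))
    (hI : IsAtom I) (e : (ℂ ⊗[ℝ] L) ≃ₗ⁅ℂ⁆ I) (h : Submodule ℝ L) (hh : ∀ X ∈ h, ∀ Y ∈ h, ⁅X, Y⁆ ∈ h)
    (hn : ∃ X : L, ∃ Y ∈ h, ⁅X, Y⁆ ∉ h) : m < N - finrank ℝ h := by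
  have : Module.Finite ℝ L := Module.Finite.of_basis b
  let S : Submodule ℝ (Fin N → ℝ) := h.map b.equivFun.toLinearMap
  have hK := isClosed_comp1 (isClosed_Aut b)
  have hO : ∀ A ∈ comp1 (Aut b), A * Aᵀ = 1 := fun A hA => (comp1_le _ hA).1
  have hm : ∀ X, adM b X ∈ lieSet (comp1 (Aut b) : Set (Mat N)) := fun X => by
    rw [lieSet_comp1]
    exact adM_mem b hb X
  let e1 : L ≃ₗ⁅ℝ⁆ lieAlg (comp1 (Aut b) : Set (Mat N)) :=
    (LieEquiv.ofInjective (adM b) (adM_injective b)).trans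
      (LieEquiv.ofEq _ _ (by rw [lieAlg_Aut b hb]))
  have key := hD N (comp1 (Aut b)) (comp1 (Aut b) ⊓ (stabS S).toSubmonoid)
    (isCompact_orth hK hO) (isConnected_comp1 _) hO (hK.inter (isClosed_stabS S)) ?_
    ⟨I, hI, ⟨(bcEquiv e1.symm).trans e⟩⟩
  · rw [← e1.toLinearEquiv.finrank_eq, finrank_eq_card_basis b, Fintype.card_fin] at key
    refine key.trans_le (Nat.sub_le_sub_left ?_ _)
    rw [← (Submodule.equivMapOfInjective (adM b : L →ₗ[ℝ] Mat N) (adM_injective b) h).finrank_eq.symm.symm.symm]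
    refine Submodule.finrank_mono (t := (lieAlg _).toSubmodule) ?_
    rintro _ ⟨X, hX, rfl⟩
    refine LieSubalgebra.subset_lieSpan fun t => ⟨hm X t, ?_⟩
    refine exp_mem (R := ℝ) (s := stabS S) (isClosed_stabS S) ((stabS S).smul_mem ?_ t)
    rintro _ ⟨Y, hY, rfl⟩
    exact ⟨_, hh X hX Y hY, (adM_mulVec b X Y).symm⟩
  · refine lt_of_le_of_ne inf_le_left fun he => ?_
    obtain ⟨X, Y, hY, hn⟩ := hn
    have h1 := deriv_mem S (fun t => (inf_eq_left.1 he (hm X t)) _ ⟨Y, hY, rfl⟩)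
      (hasDerivAt_exp_mulVec (adM b X) (b.equivFun Y) 0)
    rw [zero_smul, exp_zero, Matrix.one_mulVec, adM_mulVec] at h1
    obtain ⟨Z, hZ, hZ'⟩ := h1
    exact hn (b.equivFun.injective hZ' ▸ hZ)

end Pool.Agent.P.MP_d483fb_an.Z.SR

end

end

section

/-!
A simple quotient of the complexification of a compact Lie algebra is the complexification of a
simple ideal.
-/

open Set Module
open scoped TensorProduct Matrix

set_option linter.unusedSectionVars false

noncomputable section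

namespace Pool.Agent.P.MP_d483fb_an.Z.SR

variable {L I : Type} [LieRing L] [LieAlgebra ℝ L] [LieRing I] [LieAlgebra ℂ I]

theorem exists_re_im (z : ℂ ⊗[ℝ] L) :
    ∃ A B : L, z = (1 : ℂ) ⊗ₜ[ℝ] A + Complex.I • (1 : ℂ) ⊗ₜ[ℝ] B := by
  induction z using TensorProduct.induction_on with
  | zero => exact ⟨0, 0, by simp⟩
  | tmul c X =>
    refine ⟨c.re • X, c.im • X, ?_⟩
    rw [TensorProduct.smul_tmul', ← TensorProduct.smul_tmul, ← TensorProduct.smul_tmul,
      ← TensorProduct.add_tmul]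
    congr 1
    simp [Complex.re_add_im]
  | add x y hx hy =>
    obtain ⟨A, B, rfl⟩ := hx
    obtain ⟨A', B', rfl⟩ := hy
    refine ⟨A + A', B + B', ?_⟩
    simp only [TensorProduct.tmul_add, smul_add]
    abel

/-- Complexification of a homomorphism of Lie algebras. -/
def bcHom {L' : Type} [LieRing L'] [LieAlgebra ℝ L'] (e : L →ₗ⁅ℝ⁆ L') :
    (ℂ ⊗[ℝ] L) →ₗ⁅ℂ⁆ (ℂ ⊗[ℝ] L') :=
  { (e : L →ₗ[ℝ] L').baseChange ℂ with
    map_lie' := by
      intro x y
      exact (LieAlgebra.ExtendScalars.map (AlgHom.id ℝ ℂ) e).map_lie x y }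

theorem bcHom_tmul {L' : Type} [LieRing L'] [LieAlgebra ℝ L'] (e : L →ₗ⁅ℝ⁆ L') (c : ℂ) (X : L) :
    bcHom e (c ⊗ₜ[ℝ] X) = c ⊗ₜ[ℝ] e X := rfl

/-- The restriction to the real form. -/
def res (φ : (ℂ ⊗[ℝ] L) →ₗ⁅ℂ⁆ I) : L →+ I where
  toFun X := φ ((1 : ℂ) ⊗ₜ[ℝ] X)
  map_zero' := by simp
  map_add' X Y := by simp [TensorProduct.tmul_add]

variable (φ : (ℂ ⊗[ℝ] L) →ₗ⁅ℂ⁆ I)

theorem res_lie (X Y : L) : res φ ⁅X, Y⁆ = ⁅res φ X, res φ Y⁆ := by
  change φ _ = ⁅φ _, φ _⁆
  rw [← φ.map_lie, LieAlgebra.ExtendScalars.bracket_tmul, mul_one]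

theorem res_smul (c : ℝ) (X : L) : res φ (c • X) = (c : ℂ) • res φ X := by
  change φ _ = (c : ℂ) • φ _
  rw [← map_smul, TensorProduct.smul_tmul', ← TensorProduct.smul_tmul]
  simp

theorem map_re_im (A B : L) :
    φ ((1 : ℂ) ⊗ₜ[ℝ] A + Complex.I • (1 : ℂ) ⊗ₜ[ℝ] B) = res φ A + Complex.I • res φ B := by
  rw [map_add, map_smul]
  rfl

theorem exists_res {φ : (ℂ ⊗[ℝ] L) →ₗ⁅ℂ⁆ I} (hφ : Function.Surjective φ) (w : I) :
    ∃ A B, w = res φ A + Complex.I • res φ B := by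
  obtain ⟨z, rfl⟩ := hφ w
  obtain ⟨A, B, rfl⟩ := exists_re_im z
  exact ⟨A, B, map_re_im φ A B⟩

theorem I_I_smul (w : I) : Complex.I • Complex.I • w = -w := by
  rw [smul_smul, Complex.I_mul_I, neg_smul, one_smul]

theorem smul_eq_re_im (c : ℂ) (w : I) : c • w = (c.re : ℂ) • w + (c.im : ℂ) • Complex.I • w := by
  rw [smul_smul, ← add_smul, Complex.re_add_im]

/-- An invariant inner product. -/
structure Cpt (B : LinearMap.BilinForm ℝ L) : Prop where
  symm : ∀ X Y, B X Y = B Y X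
  nonneg : ∀ X, 0 ≤ B X X
  def' : ∀ X, B X X = 0 → X = 0
  inv : ∀ X Y Z : L, B ⁅X, Y⁆ Z = -B Y ⁅X, Z⁆

theorem re_im_eq_zero [LieAlgebra.IsSimple ℂ I] {B : LinearMap.BilinForm ℝ L} (hB : Cpt B)
    (hφ : Function.Surjective φ) (hi : Function.Injective (res φ)) {A A' : L}
    (h : res φ A + Complex.I • res φ A' = 0) : A = 0 ∧ A' = 0 := by
  let p : LieIdeal ℂ I :=
    { carrier := {z | (∃ X, z = res φ X) ∧ ∃ Y, z = Complex.I • res φ Y}
      zero_mem' := ⟨⟨0, by simp⟩, 0, by simp⟩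
      add_mem' := by
        rintro z w ⟨⟨X, hX⟩, Y, hY⟩ ⟨⟨X', hX'⟩, Y', hY'⟩
        exact ⟨⟨X + X', by rw [map_add, hX, hX']⟩, Y + Y', by rw [map_add, smul_add, hY, hY']⟩
      smul_mem' := by
        rintro c z ⟨⟨X, hX⟩, Y, hY⟩
        refine ⟨⟨c.re • X - c.im • Y, ?_⟩, c.re • Y + c.im • X, ?_⟩
        · rw [smul_eq_re_im, map_sub, res_smul, res_smul, ← hX]
          nth_rw 2 [hY]
          rw [I_I_smul, smul_neg, sub_eq_add_neg]
        · rw [smul_eq_re_im, map_add, res_smul, res_smul, ← hX, smul_add, smul_comm Complex.I,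
            ← hY, smul_comm Complex.I]
      lie_mem := by
        rintro w z ⟨⟨X, hX⟩, Y, hY⟩
        obtain ⟨C, D, rfl⟩ := exists_res hφ w
        refine ⟨⟨⁅C, X⁆ - ⁅D, Y⁆, ?_⟩, ⁅C, Y⁆ + ⁅D, X⁆, ?_⟩
        · rw [add_lie, map_sub, res_lie, res_lie, ← hX]
          nth_rw 2 [hY]
          rw [smul_lie, lie_smul, I_I_smul, sub_eq_add_neg]
        · rw [add_lie, map_add, res_lie, res_lie, ← hX, smul_add, smul_lie,
            ← lie_smul Complex.I (res φ C), ← hY] }
  rcases LieAlgebra.IsSimple.eq_bot_or_eq_top p with hp | hp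
  · have h1 : res φ A ∈ p :=
      ⟨⟨A, rfl⟩, -A', by rw [map_neg, smul_neg, eq_neg_iff_add_eq_zero, h]⟩
    rw [hp, LieSubmodule.mem_bot] at h1
    rw [h1, zero_add, smul_eq_zero_iff_right Complex.I_ne_zero] at h
    exact ⟨hi (by rw [h1, map_zero]), hi (by rw [h, map_zero])⟩
  · have hall : ∀ z, ∃ X, z = res φ X := fun z => (show z ∈ p from hp ▸ LieSubmodule.mem_top z).1
    refine absurd ⟨fun z w => ?_⟩ (LieAlgebra.IsSimple.non_abelian ℂ (L := I))
    obtain ⟨X, rfl⟩ := hall z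
    obtain ⟨Y, rfl⟩ := hall w
    obtain ⟨X', hX'⟩ := hall (Complex.I • res φ X)
    have e : ⁅X', ⁅X', Y⁆⁆ = -⁅X, ⁅X, Y⁆⁆ := hi (by
      rw [map_neg, res_lie, res_lie, res_lie, res_lie, ← hX', smul_lie, smul_lie, lie_smul,
        I_I_smul])
    have h1 := hB.inv X' ⁅X', Y⁆ Y
    have h2 := hB.inv X ⁅X, Y⁆ Y
    rw [e, map_neg, LinearMap.neg_apply, h2] at h1
    have h3 : ⁅X, Y⁆ = 0 :=
      hB.def' _ (le_antisymm (by linarith [hB.nonneg ⁅X', Y⁆]) (hB.nonneg _))
    rw [← res_lie, h3, map_zero]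

theorem injective_of_res [LieAlgebra.IsSimple ℂ I] {B : LinearMap.BilinForm ℝ L} (hB : Cpt B)
    (hφ : Function.Surjective φ) (hi : Function.Injective (res φ)) : Function.Injective φ := by
  refine (injective_iff_map_eq_zero φ).2 fun z hz => ?_
  obtain ⟨A, A', rfl⟩ := exists_re_im z
  rw [map_re_im] at hz
  obtain ⟨rfl, rfl⟩ := re_im_eq_zero φ hB hφ hi hz
  simp

theorem isSimple_of_res [LieAlgebra.IsSimple ℂ I] {B : LinearMap.BilinForm ℝ L} (hB : Cpt B)
    (hφ : Function.Surjective φ) (hi : Function.Injective (res φ)) : LieAlgebra.IsSimple ℝ L where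
  eq_bot_or_eq_top h := by
    let q : LieIdeal ℂ I :=
      { carrier := {z | ∃ X ∈ h, ∃ Y ∈ h, z = res φ X + Complex.I • res φ Y}
        zero_mem' := ⟨0, h.zero_mem, 0, h.zero_mem, by simp⟩
        add_mem' := by
          rintro _ _ ⟨X, hX, Y, hY, rfl⟩ ⟨X', hX', Y', hY', rfl⟩
          refine ⟨X + X', h.add_mem hX hX', Y + Y', h.add_mem hY hY', ?_⟩
          simp only [map_add, smul_add]
          abel
        smul_mem' := by
          rintro c _ ⟨X, hX, Y, hY, rfl⟩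
          refine ⟨c.re • X - c.im • Y, h.sub_mem (h.smul_mem _ hX) (h.smul_mem _ hY),
            c.re • Y + c.im • X, h.add_mem (h.smul_mem _ hY) (h.smul_mem _ hX), ?_⟩
          rw [smul_eq_re_im]
          simp only [map_add, map_sub, res_smul, smul_add, I_I_smul, smul_comm Complex.I, smul_neg]
          abel
        lie_mem := by
          rintro w _ ⟨X, hX, Y, hY, rfl⟩
          obtain ⟨C, D, rfl⟩ := exists_res hφ w
          refine ⟨⁅C, X⁆ - ⁅D, Y⁆, h.sub_mem (h.lie_mem hX) (h.lie_mem hY),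
            ⁅C, Y⁆ + ⁅D, X⁆, h.add_mem (h.lie_mem hY) (h.lie_mem hX), ?_⟩
          simp only [map_add, map_sub, res_lie, add_lie, lie_add, smul_lie, lie_smul, smul_add,
            I_I_smul]
          abel }
    rcases LieAlgebra.IsSimple.eq_bot_or_eq_top q with hq | hq
    · refine Or.inl (eq_bot_iff.2 fun X hX => ?_)
      have h1 : res φ X ∈ q := ⟨X, hX, 0, h.zero_mem, by simp⟩
      rw [hq, LieSubmodule.mem_bot] at h1
      exact hi (by rw [h1, map_zero])
    · refine Or.inr (eq_top_iff.2 fun X _ => ?_)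
      obtain ⟨A, hA, A', -, e⟩ : res φ X ∈ q := hq ▸ LieSubmodule.mem_top _
      have := (re_im_eq_zero φ hB hφ hi (A := A - X) (A' := A')
        (by rw [map_sub, e]; abel)).1
      exact sub_eq_zero.1 this ▸ hA
  non_abelian h := by
    refine LieAlgebra.IsSimple.non_abelian ℂ (L := I) ⟨fun z w => ?_⟩
    obtain ⟨A, A', rfl⟩ := exists_res hφ z
    obtain ⟨C, C', rfl⟩ := exists_res hφ w
    simp [← res_lie, trivial_lie_zero]

/-- A simple quotient of the complexification comes from a simple ideal. -/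
theorem exists_ideal [Module.Finite ℝ L] [LieAlgebra.IsSimple ℂ I] {B : LinearMap.BilinForm ℝ L}
    (hB : Cpt B) (hφ : Function.Surjective φ) :
    ∃ k : LieIdeal ℝ L, LieAlgebra.IsSimple ℝ k ∧ Nonempty ((ℂ ⊗[ℝ] k) ≃ₗ⁅ℂ⁆ I) := by
  let n : Submodule ℝ L :=
    { carrier := {X | res φ X = 0}
      zero_mem' := map_zero _
      add_mem' := fun {X Y} (hX : res φ X = 0) (hY : res φ Y = 0) => by
        change res φ _ = 0
        rw [map_add, hX, hY, add_zero]
      smul_mem' := fun c X (hX : res φ X = 0) => by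
        change res φ _ = 0
        rw [res_smul, hX, smul_zero] }
  let k : LieIdeal ℝ L :=
    { B.orthogonal n with
      lie_mem := fun {X Y} hY Z (hZ : res φ Z = 0) => by
        have h1 : B ⁅X, Z⁆ Y = 0 := hY _ (show res φ _ = 0 by rw [res_lie, hZ, lie_zero])
        rw [hB.inv, neg_eq_zero] at h1
        exact h1 }
  have hd : Disjoint n (B.orthogonal n) :=
    Submodule.disjoint_def.2 fun X h1 h2 => hB.def' X (h2 X h1)
  have hc : IsCompl n (B.orthogonal n) :=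
    (LinearMap.BilinForm.isCompl_orthogonal_iff_disjoint fun X Y h => by rw [hB.symm, h]).2 hd
  let φ1 : (ℂ ⊗[ℝ] k) →ₗ⁅ℂ⁆ I := φ.comp (bcHom k.incl)
  have hr : ∀ X : k, res φ1 X = res φ (X : L) := fun _ => rfl
  have hdec : ∀ X : L, ∃ Y : k, res φ1 Y = res φ X := by
    intro X
    obtain ⟨Z, hZ, Y, hY, rfl⟩ := Submodule.mem_sup.1 (hc.sup_eq_top ▸ Submodule.mem_top (x := X))
    exact ⟨⟨Y, hY⟩, by rw [hr, map_add, show res φ Z = 0 from hZ, zero_add]⟩
  have hs : Function.Surjective φ1 := by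
    intro w
    obtain ⟨A, A', rfl⟩ := exists_res hφ w
    obtain ⟨Y, hY⟩ := hdec A
    obtain ⟨Y', hY'⟩ := hdec A'
    exact ⟨_, (map_re_im φ1 Y Y').trans (by rw [hY, hY'])⟩
  have hi : Function.Injective (res φ1) :=
    (injective_iff_map_eq_zero _).2 fun X hX => Subtype.ext (Submodule.disjoint_def.1 hd _ hX X.2)
  have hB1 : Cpt (L := k) (B.compl₁₂ k.toSubmodule.subtype k.toSubmodule.subtype) :=
    ⟨fun X Y => hB.symm X Y, fun X => hB.nonneg X, fun X h => Subtype.ext (hB.def' X h),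
      fun X Y Z => hB.inv X Y Z⟩
  exact ⟨k, isSimple_of_res φ1 hB1 hs hi,
    ⟨LieEquiv.ofBijective φ1 ⟨injective_of_res φ1 hB1 hs hi, hs⟩⟩⟩

theorem exists_skew_basis [Module.Finite ℝ L] {B : LinearMap.BilinForm ℝ L} (hB : Cpt B) :
    ∃ b : Basis (Fin (finrank ℝ L)) ℝ L, ∀ X, (adM b X)ᵀ = -adM b X := by
  let c : InnerProductSpace.Core ℝ L :=
    { inner := fun X Y => B X Y
      conj_inner_symm := fun X Y => hB.symm Y X
      re_inner_nonneg := hB.nonneg
      add_left := fun X Y Z => by simp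
      smul_left := fun X Y r => by simp
      definite := hB.def' }
  let : NormedAddCommGroup L := c.toNormedAddCommGroup
  let : InnerProductSpace ℝ L := InnerProductSpace.ofCore c.toCore
  let b := stdOrthonormalBasis ℝ L
  refine ⟨b.toBasis, fun X => ?_⟩
  ext i j
  simp only [adM_apply, Matrix.transpose_apply, Matrix.neg_apply, LinearMap.toMatrix_apply,
    b.coe_toBasis, b.coe_toBasis_repr_apply, b.repr_apply_apply, LieAlgebra.ad_apply]
  change B (b j) ⁅X, b i⁆ = -B (b i) ⁅X, b j⁆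
  rw [hB.symm, hB.inv]

end Pool.Agent.P.MP_d483fb_an.Z.SR

end

end

section

/-!
The last step: a compact Lie algebra of matrices whose complexification maps onto a simple ideal
of the complexified Lie algebra of `G` has orbits of Hausdorff dimension at least `d(G)`.
-/

open Set Filter Topology NormedSpace Module
open scoped Matrix Matrix.Norms.Operator TensorProduct

set_option linter.unusedSectionVars false

attribute [local instance 100] LieRing.ofAssociativeRing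

noncomputable section

namespace Pool.Agent.P.MP_d483fb_an.Z.SR

theorem isKilling_baseChange (L : Type) [LieRing L] [LieAlgebra ℝ L] [Module.Finite ℝ L]
    [LieAlgebra.IsKilling ℝ L] : LieAlgebra.IsKilling ℂ (ℂ ⊗[ℝ] L) where
  killingCompl_top_eq_bot := by
    refine eq_bot_iff.2 fun z hz => ?_
    obtain ⟨A, A', rfl⟩ := exists_re_im z
    have h : ∀ Y, killingForm ℝ L Y A = 0 ∧ killingForm ℝ L Y A' = 0 := by
      intro Y
      have h1 := (LieIdeal.mem_killingCompl ℂ _ ⊤).1 hz ((1 : ℂ) ⊗ₜ[ℝ] Y) (LieSubmodule.mem_top _)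
      rw [killingForm, LieModule.traceForm_baseChange, map_add, map_smul, LinearMap.BilinForm.baseChange_tmul,
        LinearMap.BilinForm.baseChange_tmul] at h1
      simpa [Complex.ext_iff] using h1
    have h0 : ∀ X, (∀ Y, killingForm ℝ L Y X = 0) → X = 0 := fun X hX =>
      (LieAlgebra.IsKilling.killingForm_nondegenerate ℝ L).2 X hX
    rw [h0 A fun Y => (h Y).1, h0 A' fun Y => (h Y).2]
    simp

variable {G : Type} [Group G] [TopologicalSpace G] {n m N : ℕ}

theorem isKilling_cx (D : HigherRank G n) :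
    LieAlgebra.IsKilling ℂ (ℂ ⊗[ℝ] lieAlg (Set.range D.ρ)) :=
  have := D.ss
  isKilling_baseChange _

theorem isSimple_atom (D : HigherRank G n) (I : LieIdeal ℂ (ℂ ⊗[ℝ] lieAlg (Set.range D.ρ)))
    (hI : IsAtom I) : LieAlgebra.IsSimple ℂ I :=
  have := isKilling_cx D
  LieAlgebra.IsSemisimple.isSimple_of_isAtom I hI

/-- The orbit of a vector has Hausdorff dimension at least the rank of the orbit map. -/
theorem rank_le_dimH {V : Type} [AddCommGroup V] [Module ℝ V] [Module.Finite ℝ V]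
    (c : V →ₗ[ℝ] Mat N) (y : Fin N → ℝ) {Y : Set (Fin N → ℝ)} (h : ∀ X, exp (c X) *ᵥ y ∈ Y) :
    (finrank ℝ (LinearMap.range ((evL y : Mat N →ₗ[ℝ] Fin N → ℝ) ∘ₗ c)) : ENNReal) ≤ dimH Y := by
  set R := LinearMap.range ((evL y : Mat N →ₗ[ℝ] Fin N → ℝ) ∘ₗ c) with hR
  obtain ⟨P, hP⟩ := R.subtype.exists_leftInverse_of_injective R.ker_subtype
  let e := (Module.finBasis ℝ V).equivFun
  let c' : (Fin (finrank ℝ V) → ℝ) →L[ℝ] Mat N :=
    LinearMap.toContinuousLinearMap (c ∘ₗ e.symm.toLinearMap)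
  let P' : (Fin N → ℝ) →L[ℝ] R := LinearMap.toContinuousLinearMap P
  have h0 : HasStrictFDerivAt (exp : Mat N → Mat N) (1 : Mat N →L[ℝ] Mat N) (c' 0) := by
    rw [map_zero]
    exact hasStrictFDerivAt_exp_zero (𝕂 := ℝ)
  have h1 := (P'.comp (evL y)).hasStrictFDerivAt.comp 0 (h0.comp 0 c'.hasStrictFDerivAt)
  have h2 := h1.map_nhds_eq_of_surj (by
    refine eq_top_iff.2 ?_
    rintro ⟨_, X, rfl⟩ -
    refine ⟨e X, ?_⟩
    have := LinearMap.congr_fun hP ⟨_, X, rfl⟩
    simpa [c', P'] using this)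
  have h3 : P' '' Y ∈ 𝓝 ((P'.comp (evL y)) (exp (c' 0))) := by
    rw [← h2, mem_map]
    exact Eventually.of_forall fun v => ⟨_, h (e.symm v), rfl⟩
  rw [← Real.dimH_of_mem_nhds h3]
  exact P'.lipschitz.dimH_image_le Y

theorem cpt_of_skew (k : LieSubalgebra ℝ (Mat N)) (hk : ∀ X ∈ k, Xᵀ = -X) :
    ∃ B : LinearMap.BilinForm ℝ k, Cpt B := by
  let B : LinearMap.BilinForm ℝ k := LinearMap.mk₂ ℝ (fun X Y => (X.1 * Y.1ᵀ).trace)
    (fun X X' Y => by simp [add_mul]) (fun c X Y => by simp)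
    (fun X Y Y' => by simp [mul_add]) (fun c X Y => by simp)
  have hB : ∀ X Y : k, B X Y = (X.1 * Y.1ᵀ).trace := fun _ _ => rfl
  refine ⟨B, fun X Y => ?_, fun X => ?_, fun X h => ?_, fun X Y Z => ?_⟩
  · rw [hB, hB, ← Matrix.trace_transpose, Matrix.transpose_mul, Matrix.transpose_transpose]
  · rw [hB]
    refine Finset.sum_nonneg fun i _ => ?_
    rw [Matrix.diag_apply, Matrix.mul_apply]
    exact Finset.sum_nonneg fun j _ => mul_self_nonneg _
  · exact Subtype.ext (Matrix.trace_mul_conjTranspose_self_eq_zero_iff.1 h)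
  · rw [hB, hB, hk _ Z.2, hk _ (⁅X, Z⁆ : k).2]
    simp only [LieSubalgebra.coe_bracket, LieRing.of_associative_ring_bracket, mul_neg, sub_mul,
      mul_sub, Matrix.trace_neg, Matrix.trace_sub, neg_neg, mul_assoc]
    rw [Matrix.trace_mul_comm X.1 (Y.1 * Z.1), mul_assoc]
    ring

/-- The last step of the argument. -/
theorem end2 (D : HigherRank G n) (hD : D.ltD m) (k : LieSubalgebra ℝ (Mat N))
    (hk : ∀ X ∈ k, Xᵀ = -X) (I : LieIdeal ℂ (ℂ ⊗[ℝ] lieAlg (Set.range D.ρ))) (hI : IsAtom I)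
    (φ : (ℂ ⊗[ℝ] k) →ₗ⁅ℂ⁆ I) (hφ : Function.Surjective φ) {Y : Set (Fin N → ℝ)}
    (hY : ∀ X ∈ k, ∀ y ∈ Y, exp X *ᵥ y ∈ Y) (hsp : Submodule.span ℝ Y = ⊤) :
    (m : ENNReal) < dimH Y := by
  have := isSimple_atom D I hI
  obtain ⟨B, hB⟩ := cpt_of_skew k hk
  obtain ⟨k1, hs, ⟨e⟩⟩ := exists_ideal φ hB hφ
  have hB1 : Cpt (L := k1) (B.compl₁₂ k1.toSubmodule.subtype k1.toSubmodule.subtype) :=
    ⟨fun X Y => hB.symm X Y, fun X => hB.nonneg X, fun X h => Subtype.ext (hB.def' X h),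
      fun X Y Z => hB.inv X Y Z⟩
  obtain ⟨b, hb⟩ := exists_skew_basis hB1
  have key : ∀ h : Submodule ℝ k1, (∀ X ∈ h, ∀ Y ∈ h, ⁅X, Y⁆ ∈ h) → h ≠ ⊥ → h ≠ ⊤ →
      m < finrank ℝ k1 - finrank ℝ h := by
    intro h hh h0 h1
    refine lt_of_ltD b D hD hb I hI e h hh ?_
    by_contra hn
    push Not at hn
    let J : LieIdeal ℝ k1 := { h with lie_mem := fun {X Y} hY => hn X Y hY }
    rcases hs.eq_bot_or_eq_top J with hJ | hJ
    · exact h0 (congrArg LieSubmodule.toSubmodule hJ)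
    · exact h1 (congrArg LieSubmodule.toSubmodule hJ)
  obtain ⟨X0, X1, hX⟩ : ∃ X0 X1 : k1, ⁅X0, X1⁆ ≠ 0 := by
    by_contra hn
    push Not at hn
    exact hs.non_abelian ⟨hn⟩
  have hX0 : X0 ≠ 0 := fun h => hX (by rw [h, zero_lie])
  let c : k1 →ₗ[ℝ] Mat N := k.toSubmodule.subtype ∘ₗ k1.toSubmodule.subtype
  have hc : ∀ X Z : k1, c ⁅X, Z⁆ = c X * c Z - c Z * c X := fun _ _ => rfl
  obtain ⟨y, hy, hy0⟩ : ∃ y ∈ Y, c X0 *ᵥ y ≠ 0 := by
    by_contra hn
    push Not at hn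
    have h1 : Matrix.toLin' (c X0) = 0 := LinearMap.ext_on hsp hn
    exact hX0 (Subtype.ext (Subtype.ext (Matrix.toLin'.map_eq_zero_iff.1 h1)))
  let T : k1 →ₗ[ℝ] Fin N → ℝ := (evL y : Mat N →ₗ[ℝ] Fin N → ℝ) ∘ₗ c
  have hT : ∀ X, T X = c X *ᵥ y := fun _ => rfl
  have h2 : m < finrank ℝ k1 - finrank ℝ (LinearMap.ker T) := by
    by_cases h0 : LinearMap.ker T = ⊥
    · refine (key (Submodule.span ℝ {X0}) ?_ (by simpa using hX0) fun ht => hX ?_).trans_le
        (Nat.sub_le_sub_left (Submodule.finrank_mono (h0 ▸ bot_le)) _)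
      · intro X hX Z hZ
        obtain ⟨s, rfl⟩ := Submodule.mem_span_singleton.1 hX
        obtain ⟨t, rfl⟩ := Submodule.mem_span_singleton.1 hZ
        simp
      · obtain ⟨s, rfl⟩ := Submodule.mem_span_singleton.1 (ht ▸ Submodule.mem_top (x := X1))
        simp
    · refine key _ (fun X hX Z hZ => ?_) h0 fun ht => hy0 ?_
      · rw [LinearMap.mem_ker, hT] at hX hZ ⊢
        rw [hc, Matrix.sub_mulVec, ← Matrix.mulVec_mulVec, ← Matrix.mulVec_mulVec, hX, hZ]
        simp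
      · exact (show X0 ∈ LinearMap.ker T from ht ▸ Submodule.mem_top)
  have h3 := T.finrank_range_add_finrank_ker
  refine lt_of_lt_of_le ?_ (rank_le_dimH c y fun X => hY _ X.1.2 y hy)
  exact_mod_cast (show m < finrank ℝ (LinearMap.range T) by omega)

end Pool.Agent.P.MP_d483fb_an.Z.SR

end

end

section

/-! Compact Lie algebras: semisimplicity, simplicity of the complexification, codimensions. -/

open Set Module
open scoped TensorProduct Matrix

set_option linter.unusedSectionVars false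

attribute [local instance 100] LieRing.ofAssociativeRing

noncomputable section

namespace Pool.Agent.P.MP_d483fb_an.Z.SR

variable {L : Type} [LieRing L] [LieAlgebra ℝ L] {B : LinearMap.BilinForm ℝ L}

theorem Cpt.isSemisimple [Module.Finite ℝ L] (hB : Cpt B)
    (hc : ∀ Z : L, (∀ X : L, ⁅X, Z⁆ = 0) → Z = 0) : LieAlgebra.IsSemisimple ℝ L := by
  refine LieAlgebra.InvariantForm.isSemisimple_of_nondegenerate B
    ⟨fun X h => hB.def' X (h X), fun X h => hB.def' X (h X)⟩ hB.inv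
    (fun X Y h => by rw [hB.symm, h]) fun I hI hab => hI.1 (eq_bot_iff.2 fun Z hZ => ?_)
  refine hc Z fun X => ?_
  have h1 : ⁅Z, ⁅Z, X⁆⁆ = 0 :=
    congrArg Subtype.val (hab.trivial ⟨Z, hZ⟩ ⟨⁅Z, X⁆, lie_mem_left ℝ L I Z X hZ⟩)
  have h2 := hB.inv Z X ⁅Z, X⁆
  rw [h1, map_zero, neg_zero] at h2
  rw [← lie_skew, hB.def' _ h2, neg_zero]

theorem one_tmul_eq_zero {X : L} (h : (1 : ℂ) ⊗ₜ[ℝ] X = 0) : X = 0 := by
  simpa using congrArg (fun z => TensorProduct.lid ℝ L (Complex.reLm.rTensor L z)) h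

theorem Cpt.eq_bot_or_eq_top [hs : LieAlgebra.IsSimple ℝ L] (hB : Cpt B) {I : Type} [LieRing I]
    [LieAlgebra ℂ I] {φ : (ℂ ⊗[ℝ] L) →ₗ⁅ℂ⁆ I} (hφ : Function.Surjective φ) (J : LieIdeal ℂ I) :
    J = ⊥ ∨ J = ⊤ := by
  let p : LieIdeal ℝ L :=
    { carrier := {X | res φ X ∈ J}
      zero_mem' := by simp
      add_mem' := fun {X Y} (hX : res φ X ∈ J) (hY : res φ Y ∈ J) => by
        change res φ _ ∈ J
        rw [map_add]
        exact J.add_mem hX hY
      smul_mem' := fun c X (hX : res φ X ∈ J) => by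
        change res φ _ ∈ J
        rw [res_smul]
        exact J.smul_mem _ hX
      lie_mem := fun {X Y} (hY : res φ Y ∈ J) => by
        change res φ _ ∈ J
        rw [res_lie]
        exact J.lie_mem hY }
  rcases hs.eq_bot_or_eq_top p with hp | hp
  · refine Or.inl (eq_bot_iff.2 fun z hz => ?_)
    obtain ⟨A, A', rfl⟩ := exists_res hφ z
    have key : ∀ Y : L, ⁅A, Y⁆ = 0 ∧ ⁅A', Y⁆ = 0 := by
      intro Y
      have h1 := J.add_mem (lie_mem_left ℂ _ J _ (⁅res φ Y, res φ A - Complex.I • res φ A'⁆) hz)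
        (J.lie_mem (x := res φ A - Complex.I • res φ A') (J.lie_mem (x := res φ Y) hz))
      have h2 : (2 : ℝ) • (⁅A, ⁅Y, A⁆⁆ + ⁅A', ⁅Y, A'⁆⁆) ∈ p := by
        change res φ _ ∈ J.toSubmodule
        convert h1 using 1
        simp only [two_smul, map_add, res_lie, lie_add, add_lie, lie_sub, sub_lie, lie_smul,
          smul_lie, smul_add, smul_sub, I_I_smul]
        abel
      rw [hp, LieSubmodule.mem_bot, smul_eq_zero_iff_right two_ne_zero] at h2
      have h3 := congrArg (fun W => B W Y) h2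
      have h4 : ∀ X : L, B ⁅X, ⁅Y, X⁆⁆ Y = B ⁅X, Y⁆ ⁅X, Y⁆ := fun X => by
        rw [hB.inv, ← lie_skew Y X, map_neg, LinearMap.neg_apply, neg_neg]
      simp only [map_add, LinearMap.add_apply, h4, map_zero, LinearMap.zero_apply] at h3
      exact ⟨hB.def' _ (by linarith [hB.nonneg ⁅A, Y⁆, hB.nonneg ⁅A', Y⁆]),
        hB.def' _ (by linarith [hB.nonneg ⁅A, Y⁆, hB.nonneg ⁅A', Y⁆])⟩
    have hz : ∀ X : L, (∀ Y : L, ⁅X, Y⁆ = 0) → X = 0 := fun X hX => by
      have : X ∈ LieAlgebra.center ℝ L := fun Y => by rw [← lie_skew, hX, neg_zero]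
      rwa [LieAlgebra.center_eq_bot, LieSubmodule.mem_bot] at this
    rw [hz A fun Y => (key Y).1, hz A' fun Y => (key Y).2]
    simp
  · refine Or.inr (eq_top_iff.2 fun z _ => ?_)
    obtain ⟨A, A', rfl⟩ := exists_res hφ z
    have h : ∀ X, res φ X ∈ J := fun X => show X ∈ p from hp ▸ LieSubmodule.mem_top X
    exact J.add_mem (h A) (J.smul_mem _ (h A'))

theorem Cpt.isSimple_cx [hs : LieAlgebra.IsSimple ℝ L] (hB : Cpt B) :
    LieAlgebra.IsSimple ℂ (ℂ ⊗[ℝ] L) where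
  non_abelian h := hs.non_abelian ⟨fun X Y => one_tmul_eq_zero (by
    simpa using h.trivial ((1 : ℂ) ⊗ₜ[ℝ] X) ((1 : ℂ) ⊗ₜ[ℝ] Y))⟩
  eq_bot_or_eq_top J := hB.eq_bot_or_eq_top (φ := LieHom.id) Function.surjective_id J

theorem Cpt.exists_basis [Module.Finite ℝ L] (hB : Cpt B) :
    ∃ b : Basis (Fin (finrank ℝ L)) ℝ L, ∀ X i, b.repr X i = B (b i) X := by
  let c : InnerProductSpace.Core ℝ L :=
    { inner := fun X Y => B X Y
      conj_inner_symm := fun X Y => hB.symm Y X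
      re_inner_nonneg := hB.nonneg
      add_left := fun X Y Z => by simp
      smul_left := fun X Y r => by simp
      definite := hB.def' }
  let : NormedAddCommGroup L := c.toNormedAddCommGroup
  let : InnerProductSpace ℝ L := InnerProductSpace.ofCore c.toCore
  exact ⟨(stdOrthonormalBasis ℝ L).toBasis, fun X i => (stdOrthonormalBasis ℝ L).repr_apply_apply X i⟩

theorem cpt_of_hom {N : ℕ} (ι : L →ₗ⁅ℝ⁆ Mat N) (hι : Function.Injective ι)
    (hs : ∀ X, (ι X)ᵀ = -ι X) :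
    ∃ B : LinearMap.BilinForm ℝ L, Cpt B ∧ ∀ X Y, B X Y = (ι X * (ι Y)ᵀ).trace := by
  let B : LinearMap.BilinForm ℝ L := LinearMap.mk₂ ℝ (fun X Y => (ι X * (ι Y)ᵀ).trace)
    (fun X X' Y => by simp [add_mul]) (fun c X Y => by simp)
    (fun X Y Y' => by simp [mul_add]) (fun c X Y => by simp)
  have hB : ∀ X Y, B X Y = (ι X * (ι Y)ᵀ).trace := fun _ _ => rfl
  refine ⟨B, ⟨fun X Y => ?_, fun X => ?_, fun X h => ?_, fun X Y Z => ?_⟩, hB⟩
  · rw [hB, hB, ← Matrix.trace_transpose, Matrix.transpose_mul, Matrix.transpose_transpose]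
  · rw [hB]
    refine Finset.sum_nonneg fun i _ => ?_
    rw [Matrix.diag_apply, Matrix.mul_apply]
    exact Finset.sum_nonneg fun j _ => mul_self_nonneg _
  · exact hι (((Matrix.trace_mul_conjTranspose_self_eq_zero_iff (A := ι X)).1 h).trans (map_zero ι).symm)
  · rw [hB, hB, hs, hs]
    simp only [LieHom.map_lie, LieRing.of_associative_ring_bracket, mul_neg, sub_mul,
      mul_sub, Matrix.trace_neg, Matrix.trace_sub, neg_neg, mul_assoc]
    rw [Matrix.trace_mul_comm (ι X) (ι Y * ι Z), mul_assoc]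
    ring

variable {G : Type} [Group G] [TopologicalSpace G] {n m : ℕ}

theorem exists_atom_equiv (D : HigherRank G n) {L' : Type} [LieRing L'] [LieAlgebra ℂ L']
    [hs : LieAlgebra.IsSimple ℂ L'] (φ : (ℂ ⊗[ℝ] lieAlg (range D.ρ)) →ₗ⁅ℂ⁆ L')
    (hφ : Function.Surjective φ) :
    ∃ I : LieIdeal ℂ (ℂ ⊗[ℝ] lieAlg (range D.ρ)), IsAtom I ∧ Nonempty (L' ≃ₗ⁅ℂ⁆ I) := by
  have := isKilling_cx D
  obtain ⟨I, hI, hk⟩ : ∃ I : LieIdeal ℂ (ℂ ⊗[ℝ] lieAlg (range D.ρ)), IsAtom I ∧ ¬I ≤ φ.ker := by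
    by_contra hn
    push Not at hn
    have h1 : ⊤ ≤ φ.ker := by
      rw [← LieAlgebra.IsSemisimple.sSup_atoms_eq_top]
      exact sSup_le hn
    refine hs.non_abelian ⟨fun x y => ?_⟩
    obtain ⟨x, rfl⟩ := hφ x
    rw [LieHom.mem_ker.1 (h1 (LieSubmodule.mem_top x)), zero_lie]
  have hIs := isSimple_atom D I hI
  refine ⟨I, hI, ⟨(LieEquiv.ofBijective (φ.comp I.incl) ⟨?_, fun y => ?_⟩).symm⟩⟩
  · rw [← LieHom.ker_eq_bot]
    refine (hIs.eq_bot_or_eq_top _).resolve_right fun h => hk fun x hx => ?_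
    exact (show (⟨x, hx⟩ : I) ∈ (φ.comp I.incl).ker from h ▸ LieSubmodule.mem_top _)
  · have h := (hs.eq_bot_or_eq_top (I.map φ)).resolve_left fun h => hk (LieIdeal.map_eq_bot_iff.1 h)
    exact LieIdeal.mem_map_of_surjective hφ (h ▸ LieSubmodule.mem_top y)

/-- Proper subalgebras of a compact simple form have large codimension. -/
theorem codim_gt (D : HigherRank G n) (hD : D.ltD m) [Module.Finite ℝ L]
    [hs : LieAlgebra.IsSimple ℝ L] (hB : Cpt B) (I : LieIdeal ℂ (ℂ ⊗[ℝ] lieAlg (range D.ρ)))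
    (hI : IsAtom I) (e : (ℂ ⊗[ℝ] L) ≃ₗ⁅ℂ⁆ I) (h : Submodule ℝ L)
    (hh : ∀ X ∈ h, ∀ Y ∈ h, ⁅X, Y⁆ ∈ h) (h1 : h ≠ ⊤) : m < finrank ℝ L - finrank ℝ h := by
  obtain ⟨b, hb⟩ := exists_skew_basis hB
  have key : ∀ h : Submodule ℝ L, (∀ X ∈ h, ∀ Y ∈ h, ⁅X, Y⁆ ∈ h) → h ≠ ⊥ → h ≠ ⊤ →
      m < finrank ℝ L - finrank ℝ h := by
    intro h hh h0 h1
    refine lt_of_ltD b D hD hb I hI e h hh ?_
    by_contra hn
    push Not at hn
    let J : LieIdeal ℝ L := { h with lie_mem := fun {X Y} hY => hn X Y hY }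
    rcases hs.eq_bot_or_eq_top J with hJ | hJ
    · exact h0 (congrArg LieSubmodule.toSubmodule hJ)
    · exact h1 (congrArg LieSubmodule.toSubmodule hJ)
  by_cases h0 : h = ⊥
  · obtain ⟨X0, X1, hX⟩ : ∃ X0 X1 : L, ⁅X0, X1⁆ ≠ 0 := by
      by_contra hn
      push Not at hn
      exact hs.non_abelian ⟨hn⟩
    have hX0 : X0 ≠ 0 := fun h => hX (by rw [h, zero_lie])
    refine (key (Submodule.span ℝ {X0}) ?_ (by simpa using hX0) fun ht => hX ?_).trans_le
      (Nat.sub_le_sub_left (Submodule.finrank_mono (h0 ▸ bot_le)) _)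
    · intro X hX Z hZ
      obtain ⟨s, rfl⟩ := Submodule.mem_span_singleton.1 hX
      obtain ⟨t, rfl⟩ := Submodule.mem_span_singleton.1 hZ
      simp
    · obtain ⟨s, rfl⟩ := Submodule.mem_span_singleton.1 (ht ▸ Submodule.mem_top (x := X1))
      simp
  · exact key h hh h0 h1

end Pool.Agent.P.MP_d483fb_an.Z.SR

end

end
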