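import Pool.Agent.P.MP_d483fb_an.M.A06
import Pool.Agent.P.MP_d483fb_an.M.A14
import Pool.Agent.P.MP_d483fb_an.M.A17

section

/-! Conjugation of the representation by an orthogonal matrix. -/

open scoped Matrix Matrix.Norms.Operator InnerProductSpace RealInnerProductSpace Topology
open scoped TensorProduct
open NormedSpace Filter Set

noncomputable section

namespace Pool.Agent.P.MP_d483fb_an.Z

section Lie

variable {R L L' : Type} [CommRing R] [LieRing L] [LieAlgebra R L] [LieRing L'] [LieAlgebra R L']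

/-- Transport of ideals along an isomorphism. -/
def Conj_ord (e : L ≃ₗ⁅R⁆ L') : LieIdeal R L' ≃o LieIdeal R L where
  toFun I := I.comap (e : L →ₗ⁅R⁆ L')
  invFun I := I.comap (e.symm : L' →ₗ⁅R⁆ L)
  left_inv I := by ext x; simp [LieIdeal.mem_comap]
  right_inv I := by ext x; simp [LieIdeal.mem_comap]
  map_rel_iff' {I J} := by
    refine ⟨fun h x hx => ?_, fun h => LieIdeal.comap_mono h⟩
    have : e.symm x ∈ I.comap (e : L →ₗ⁅R⁆ L') := by simpa [LieIdeal.mem_comap] using hx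
    simpa [LieIdeal.mem_comap] using h this

theorem Conj_mem (e : L ≃ₗ⁅R⁆ L') {I : LieIdeal R L'} {x : L} : x ∈ Conj_ord e I ↔ e x ∈ I :=
  Iff.rfl

/-- The isomorphism between corresponding ideals. -/
def Conj_id (e : L ≃ₗ⁅R⁆ L') (I : LieIdeal R L') : Conj_ord e I ≃ₗ⁅R⁆ I where
  toFun x := ⟨e x, x.2⟩
  invFun y := ⟨e.symm y, by rw [Conj_mem, e.apply_symm_apply]; exact y.2⟩
  map_add' x y := Subtype.ext (map_add e _ _)
  map_smul' c x := Subtype.ext (map_smul e _ _)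
  map_lie' {x y} := Subtype.ext (e.map_lie _ _)
  left_inv x := Subtype.ext (e.symm_apply_apply _)
  right_inv y := Subtype.ext (e.apply_symm_apply _)

theorem Conj_ss (e : L ≃ₗ⁅R⁆ L') (h : LieAlgebra.IsSemisimple R L) :
    LieAlgebra.IsSemisimple R L' where
  sSup_atoms_eq_top := by
    apply (Conj_ord e).injective
    rw [OrderIso.map_sSup_eq_sSup_symm_preimage, OrderIso.map_top, ← h.sSup_atoms_eq_top]
    congr 1
    ext I
    exact (Conj_ord e).symm.isAtom_iff I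
  sSupIndep_isAtom := by
    intro I hI
    rw [← disjoint_map_orderIso_iff (Conj_ord e), OrderIso.map_sSup_eq_sSup_symm_preimage]
    refine (h.sSupIndep_isAtom (((Conj_ord e).isAtom_iff I).2 hI)).mono_right (sSup_le_sSup ?_)
    rintro J ⟨h1, h2⟩
    refine ⟨((Conj_ord e).symm.isAtom_iff J).1 h1, fun h3 => h2 ?_⟩
    rw [mem_singleton_iff.1 h3, OrderIso.symm_apply_apply]
    rfl
  non_abelian_of_isAtom I hI := by
    rw [← lie_abelian_iff_equiv_lie_abelian (Conj_id e I)]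
    exact h.non_abelian_of_isAtom _ (((Conj_ord e).isAtom_iff I).2 hI)

/-- Base change of an isomorphism. -/
def Conj_bc (A : Type) [CommRing A] [Algebra R A] (e : L ≃ₗ⁅R⁆ L') :
    A ⊗[R] L ≃ₗ⁅A⁆ A ⊗[R] L' :=
  { LinearEquiv.baseChange R A L L' e.toLinearEquiv with
    map_lie' := fun {x y} =>
      (LieAlgebra.ExtendScalars.map (AlgHom.id R A) (e : L →ₗ⁅R⁆ L')).map_lie x y }

theorem Conj_li (e : L ≃ₗ⁅R⁆ L') {X Y : L} (h : LinearIndependent R ![X, Y]) :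
    LinearIndependent R ![e X, e Y] := by
  have : ![e X, e Y] = e.toLinearEquiv.toLinearMap ∘ ![X, Y] := by
    ext i : 1
    fin_cases i <;> rfl
  rw [this]
  exact h.map' _ e.toLinearEquiv.ker

end Lie

attribute [local instance 100] LieRing.ofAssociativeRing

variable {G : Type} [Group G] [TopologicalSpace G] {n : ℕ}

theorem Conj_cont (φ : Mat n ≃ₐ[ℝ] Mat n) : Continuous φ :=
  φ.toLinearMap.continuous_of_finiteDimensional

theorem Conj_lieSet (φ : Mat n ≃ₐ[ℝ] Mat n) (S : Set (Mat n)) :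
    lieSet (φ '' S) = φ '' lieSet S := by
  have h : ∀ X : Mat n, φ (exp X) = exp (φ X) := fun X => map_exp φ (Conj_cont φ) X
  ext Y
  obtain ⟨X, rfl⟩ := φ.surjective Y
  rw [φ.injective.mem_set_image]
  refine forall_congr' fun t => ?_
  rw [← map_smul, ← h, φ.injective.mem_set_image]

/-- The isomorphism of the Lie algebras. -/
def Conj_alg (φ : Mat n ≃ₐ[ℝ] Mat n) (S S' : Set (Mat n)) (h : S' = φ '' S) :
    lieAlg S ≃ₗ⁅ℝ⁆ lieAlg S' :=
  LieEquiv.ofSubalgebras _ _ φ.toLieEquiv (by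
    rw [h, lieAlg, lieAlg, LieSubalgebra.map_lieSpan, Conj_lieSet]
    rfl)

/-- Conjugation by an orthogonal matrix. -/
def Conj_phi {U : Mat n} (hU : U * Uᵀ = 1) : Mat n ≃ₐ[ℝ] Mat n where
  toFun X := U * X * Uᵀ
  invFun X := Uᵀ * X * U
  left_inv X := by
    simp only [← mul_assoc, mul_eq_one_comm.1 hU, one_mul]
    rw [mul_assoc, mul_eq_one_comm.1 hU, mul_one]
  right_inv X := by
    simp only [← mul_assoc, hU, one_mul]
    rw [mul_assoc, hU, mul_one]
  map_mul' X Y := by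
    simp only [mul_assoc]
    rw [← mul_assoc Uᵀ U, mul_eq_one_comm.1 hU, one_mul]
  map_add' X Y := by rw [mul_add, add_mul]
  commutes' r := by
    simp only [Algebra.algebraMap_eq_smul_one, mul_smul_comm, smul_mul_assoc, mul_one, hU]

theorem Conj_tr {U : Mat n} (hU : U * Uᵀ = 1) (X : Mat n) :
    Conj_phi hU Xᵀ = (Conj_phi hU X)ᵀ := by
  change U * Xᵀ * Uᵀ = (U * X * Uᵀ)ᵀ
  rw [Matrix.transpose_mul, Matrix.transpose_mul, Matrix.transpose_transpose, mul_assoc]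

omit [Group G] in
theorem Conj_cov (φ : Mat n ≃ₐ[ℝ] Mat n) {f f' : G → Mat n} (h : ∀ x, f' x = φ (f x))
    (hc : IsCoveringMap (rangeFactorization f)) : IsCoveringMap (rangeFactorization f') := by
  obtain rfl : f' = φ ∘ f := funext h
  let ψ : Mat n ≃ₜ Mat n := ⟨φ.toEquiv, Conj_cont φ, Conj_cont φ.symm⟩
  exact hc.homeomorph_comp ((ψ.image _).trans (Homeomorph.setCongr (range_comp φ f).symm))

theorem Conj_closed (φ : Mat n ≃ₐ[ℝ] Mat n) {S : Set (Mat n)} (h : IsClosed S) :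
    IsClosed (φ '' S) :=
  (⟨φ.toEquiv, Conj_cont φ, Conj_cont φ.symm⟩ : Mat n ≃ₜ Mat n).isClosedMap _ h

theorem Conj_val (φ : Mat n ≃ₐ[ℝ] Mat n) (S S' : Set (Mat n)) (h : S' = φ '' S) (X : lieAlg S) :
    (Conj_alg φ S S' h X).1 = φ X.1 := rfl

theorem Conj_rank (φ : Mat n ≃ₐ[ℝ] Mat n) (hφ : ∀ X, φ Xᵀ = (φ X)ᵀ) {S S' : Set (Mat n)}
    (h : S' = φ '' S) (hS : ∀ I : LieIdeal ℝ (lieAlg S), IsAtom I → ∃ X ∈ I, ∃ Y ∈ I,
      X.1.IsSymm ∧ Y.1.IsSymm ∧ ⁅X, Y⁆ = 0 ∧ LinearIndependent ℝ ![X, Y])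
    (I : LieIdeal ℝ (lieAlg S')) (hI : IsAtom I) : ∃ X ∈ I, ∃ Y ∈ I,
      X.1.IsSymm ∧ Y.1.IsSymm ∧ ⁅X, Y⁆ = 0 ∧ LinearIndependent ℝ ![X, Y] := by
  have hv := Conj_val φ S S' h
  generalize Conj_alg φ S S' h = e at hv
  obtain ⟨X, hX, Y, hY, h1, h2, h3, h4⟩ := hS _ (((Conj_ord e).isAtom_iff I).2 hI)
  refine ⟨e X, (Conj_mem e).1 hX, e Y, (Conj_mem e).1 hY, ?_, ?_,
    by rw [← e.map_lie, h3, map_zero], Conj_li e h4⟩
  · rw [Matrix.IsSymm, hv, ← hφ, h1.eq]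
  · rw [Matrix.IsSymm, hv, ← hφ, h2.eq]

theorem Conj_atom {L L' K : Type} [LieRing L] [LieAlgebra ℂ L] [LieRing L'] [LieAlgebra ℂ L']
    [LieRing K] [LieAlgebra ℂ K] (e : L ≃ₗ⁅ℂ⁆ L')
    (h : ∃ I : LieIdeal ℂ L', IsAtom I ∧ Nonempty (K ≃ₗ⁅ℂ⁆ I)) :
    ∃ I : LieIdeal ℂ L, IsAtom I ∧ Nonempty (K ≃ₗ⁅ℂ⁆ I) := by
  obtain ⟨I, hI, ⟨f⟩⟩ := h
  exact ⟨Conj_ord e I, ((Conj_ord e).isAtom_iff I).2 hI, ⟨f.trans (Conj_id e I).symm⟩⟩

theorem Conj_main (R : HigherRank G n) (φ : Mat n ≃ₐ[ℝ] Mat n) (hφ : ∀ X, φ Xᵀ = (φ X)ᵀ) :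
    ∃ R' : HigherRank G n, (∀ x, R'.ρ x = φ (R.ρ x)) ∧
      (∀ m, R.ltV m → R'.ltV m) ∧ ∀ m, R.ltD m → R'.ltD m := by
  obtain ⟨ρ', hρ⟩ : ∃ ρ' : G →* Mat n, ∀ x, ρ' x = φ (R.ρ x) :=
    ⟨(φ : Mat n →* Mat n).comp R.ρ, fun _ => rfl⟩
  have hi : ∀ S : Set G, ρ' '' S = φ '' (R.ρ '' S) := fun S => by
    rw [image_image]; exact image_congr fun x _ => hρ x
  have hr : range ρ' = φ '' range R.ρ := by rw [← image_univ, hi, image_univ]
  have hdim : ∀ H : Subgroup G, Module.finrank ℝ (lieAlg (ρ' '' H)) =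
      Module.finrank ℝ (lieAlg (R.ρ '' H)) := fun H =>
    (Conj_alg φ (R.ρ '' H) (ρ' '' H) (hi H)).toLinearEquiv.finrank_eq.symm
  refine ⟨⟨ρ', ?_, Conj_cov φ hρ R.cov, fun g => ?_, Conj_ss (Conj_alg φ _ _ hr) R.ss,
    Conj_rank φ hφ hr R.rank⟩, hρ, fun m h H h1 h2 => ?_,
    fun m h N K C h1 h2 h3 h4 h5 h6 => ?_⟩
  · rw [hr]
    exact Conj_closed φ R.closed
  · obtain ⟨g', hg⟩ := R.tr g
    exact ⟨g', by rw [hρ, hρ, hg, hφ]⟩
  · have := h H h1 h2
    simpa only [HigherRank.dim, hdim] using this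
  · exact h N K C h1 h2 h3 h4 h5 (Conj_atom (Conj_bc ℂ (Conj_alg φ _ _ hr)) h6)

theorem HigherRank.exists_conj (R : HigherRank G n) {U : Mat n} (hU : U * Uᵀ = 1) :
    ∃ R' : HigherRank G n, (∀ x, R'.ρ x = U * R.ρ x * Uᵀ) ∧
      (∀ m, R.ltV m → R'.ltV m) ∧ ∀ m, R.ltD m → R'.ltD m :=
  Conj_main R (Conj_phi hU) (Conj_tr hU)

end Pool.Agent.P.MP_d483fb_an.Z

end

end

section

/-! The closed subgroup theorem in a finite dimensional algebra. -/

open scoped Matrix Matrix.Norms.Operator InnerProductSpace RealInnerProductSpace Topology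
open NormedSpace Filter Set

noncomputable section

namespace Pool.Agent.P.MP_d483fb_an.Z

namespace MatGrp

set_option linter.unusedSectionVars false

section Alg

variable {A : Type} [NormedRing A] [NormedAlgebra ℝ A] [CompleteSpace A] [FiniteDimensional ℝ A]
  {S : Set A}

theorem MG_lim (hS : MatGrp S) {x : ℕ → A} {X : A} (h : Tendsto x atTop (𝓝 (exp X)))
    (hx : ∀ᶠ m in atTop, x m ∈ S) : exp X ∈ S :=
  hS.closed _ (mem_closure_of_tendsto h hx) ⟨⟨exp X, exp (-X), exp_mul_neg X, exp_neg_mul X⟩, rfl⟩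

theorem MG_pow (hS : MatGrp S) {x : A} (hx : x ∈ S) (m : ℕ) : x ^ m ∈ S := by
  induction m with
  | zero => rw [pow_zero]; exact hS.one
  | succ m ih => rw [pow_succ]; exact hS.mul _ ih _ hx

theorem MG_inv (hS : MatGrp S) {x y : A} (hx : x ∈ S) (hxy : x * y = 1) : y ∈ S ∧ y * x = 1 := by
  obtain ⟨z, hz, -, h⟩ := hS.inv x hx
  have e : y = z := by rw [← one_mul y, ← h, mul_assoc, hxy, mul_one]
  rw [e]
  exact ⟨hz, h⟩

theorem MG_int (hS : MatGrp S) {L : A} (h : exp L ∈ S) (k : ℤ) : exp ((k : ℝ) • L) ∈ S := by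
  obtain ⟨m, rfl | rfl⟩ := Int.eq_nat_or_neg k
  · rw [Int.cast_natCast, exp_nat_smul]
    exact hS.MG_pow h m
  · rw [Int.cast_neg, Int.cast_natCast, neg_smul, ← smul_neg, exp_nat_smul]
    exact hS.MG_pow (hS.MG_inv h (exp_mul_neg L)).1 m

theorem mem_lieOf (hS : MatGrp S) {X : A} : X ∈ lieOf S ↔ ∀ t : ℝ, exp (t • X) ∈ S := by
  refine ⟨fun hX => ?_, fun h => Submodule.subset_span h⟩
  induction hX using Submodule.span_induction with
  | mem X hX => exact hX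
  | zero =>
    intro t
    rw [smul_zero, exp_zero]
    exact hS.one
  | add X X' _ _ h h' =>
    intro t
    rw [smul_add]
    refine hS.MG_lim (trotter (t • X) (t • X')) (Eventually.of_forall fun m => ?_)
    rw [smul_smul, smul_smul]
    exact hS.MG_pow (hS.mul _ (h _) _ (h' _)) m
  | smul c X _ h =>
    intro t
    rw [smul_smul]
    exact h _

theorem MG_exp (hS : MatGrp S) {X : A} (hX : X ∈ lieOf S) : exp X ∈ S := by
  have h := hS.mem_lieOf.1 hX 1
  rwa [one_smul] at h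

theorem conj_mem (hS : MatGrp S) {x y X : A} (hx : x ∈ S) (hxy : x * y = 1)
    (hX : X ∈ lieOf S) : x * X * y ∈ lieOf S := by
  obtain ⟨hy, hyx⟩ := hS.MG_inv hx hxy
  refine hS.mem_lieOf.2 fun t => ?_
  rw [← smul_mul_assoc, ← mul_smul_comm, ← exp_conj hxy hyx]
  exact hS.mul _ (hS.mul _ hx _ (hS.mem_lieOf.1 hX t)) _ hy

theorem br_mem (hS : MatGrp S) {X Y : A} (hX : X ∈ lieOf S) (hY : Y ∈ lieOf S) :
    ⁅X, Y⁆ ∈ lieOf S :=
  br_mem_of_conj (lieOf S).closed_of_finiteDimensional (Eventually.of_forall fun t =>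
    hS.conj_mem (hS.mem_lieOf.1 hX t) (exp_mul_neg _) hY)

theorem MG_mlog : Tendsto (mlog : A → A) (𝓝 1) (𝓝 0) := by
  have h := (mlog_strict (A := A)).continuousAt.tendsto
  rwa [mlog_one] at h

theorem mem_of_tendsto (hS : MatGrp S) {x : ℕ → A} (hx : ∀ m, x m ∈ S)
    (h1 : Tendsto x atTop (𝓝 1)) {c : ℕ → ℝ} {X : A}
    (h : Tendsto (fun m => c m • mlog (x m)) atTop (𝓝 X)) : X ∈ lieOf S := by
  refine hS.mem_lieOf.2 fun t => ?_
  have h2 : Tendsto (fun m => (t * c m) • mlog (x m)) atTop (𝓝 (t • X)) := by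
    simpa only [smul_smul] using h.const_smul t
  have h3 : Tendsto (fun m => Int.fract (t * c m) • mlog (x m)) atTop (𝓝 0) := by
    refine squeeze_zero_norm (fun m => ?_) (tendsto_zero_iff_norm_tendsto_zero.1 (MG_mlog.comp h1))
    rw [norm_smul, Real.norm_of_nonneg (Int.fract_nonneg _)]
    exact mul_le_of_le_one_left (norm_nonneg _) (Int.fract_lt_one _).le
  have h4 : Tendsto (fun m => (⌊t * c m⌋ : ℝ) • mlog (x m)) atTop (𝓝 (t • X)) := by
    have h5 := h2.sub h3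
    rw [sub_zero] at h5
    refine h5.congr fun m => ?_
    rw [← sub_smul, Int.self_sub_fract]
  refine hS.MG_lim ((exp_cont.tendsto _).comp h4) ((h1.eventually exp_mlog).mono fun m hm => ?_)
  exact hS.MG_int (hm.symm ▸ hx m) _

theorem MG_factor (P : A →L[ℝ] A) :
    Filter.map (fun Z => exp (P Z) * exp (Z - P Z)) (𝓝 0) = 𝓝 (1 : A) := by
  have e0 : HasStrictFDerivAt (exp : A → A) (ContinuousLinearMap.id ℝ A) 0 := exp_strict_refl
  have h1 : HasStrictFDerivAt (fun Z => exp (P Z)) ((ContinuousLinearMap.id ℝ A).comp P) 0 :=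
    HasStrictFDerivAt.comp 0 (by rwa [map_zero]) P.hasStrictFDerivAt
  have h2 : HasStrictFDerivAt (fun Z => exp (Z - P Z))
      ((ContinuousLinearMap.id ℝ A).comp (ContinuousLinearMap.id ℝ A - P)) 0 :=
    HasStrictFDerivAt.comp (f := fun Z => Z - P Z) 0 (by rwa [map_zero, sub_zero])
      (ContinuousLinearMap.id ℝ A - P).hasStrictFDerivAt
  have h3 : HasStrictFDerivAt (fun Z => exp (P Z) * exp (Z - P Z))
      ((ContinuousLinearEquiv.refl ℝ A : A ≃L[ℝ] A) : A →L[ℝ] A) 0 := by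
    refine (h1.fun_mul' h2).congr_fderiv ?_
    ext Z
    simp
  have h4 := h3.map_nhds_eq_of_equiv
  rwa [map_zero, sub_zero, exp_zero, mul_one] at h4

theorem mlog_mem (hS : MatGrp S) : ∀ᶠ x in 𝓝 (1 : A), x ∈ S → mlog x ∈ lieOf S := by
  obtain ⟨P, hP, hP'⟩ : ∃ P : A →L[ℝ] A, (∀ Z, P Z ∈ lieOf S) ∧ ∀ Z ∈ lieOf S, P Z = Z := by
    obtain ⟨g, hg⟩ := (lieOf S).subtype.exists_leftInverse_of_injective (lieOf S).ker_subtype
    refine ⟨LinearMap.toContinuousLinearMap ((lieOf S).subtype ∘ₗ g), fun Z => (g Z).2,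
      fun Z hZ => ?_⟩
    exact congrArg Subtype.val (LinearMap.congr_fun hg ⟨Z, hZ⟩)
  have hp : Tendsto P (𝓝 0) (𝓝 0) := P.continuous.tendsto' 0 0 (map_zero P)
  have hq : Tendsto (fun Z => Z - P Z) (𝓝 0) (𝓝 0) :=
    (continuous_id.sub P.continuous).tendsto' 0 0 (by simp)
  by_contra hc
  rw [← MG_factor P, eventually_map] at hc
  obtain ⟨z, hz, hk⟩ := exists_seq_forall_of_frequently ((not_eventually.1 hc).and_eventually
    ((hp.eventually mlog_exp).and (hq.eventually mlog_exp)))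
  have hxS : ∀ m, exp (P (z m)) * exp (z m - P (z m)) ∈ S := fun m => by
    by_contra h
    exact (hk m).1 fun h' => absurd h' h
  have hq0 : ∀ m, z m - P (z m) ≠ 0 := fun m h => by
    refine (hk m).1 fun _ => ?_
    rw [h, exp_zero, mul_one, (hk m).2.1]
    exact hP _
  have hyS : ∀ m, exp (z m - P (z m)) ∈ S := fun m => by
    have h := hS.mul _ (hS.MG_exp (neg_mem (hP (z m)))) _ (hxS m)
    rwa [← mul_assoc, exp_neg_mul, one_mul] at h
  have : ProperSpace A := FiniteDimensional.proper ℝ A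
  obtain ⟨Z, hZ, φ, hφ, hl⟩ := (isCompact_sphere (0 : A) 1).tendsto_subseq
    (x := fun m => ‖z m - P (z m)‖⁻¹ • (z m - P (z m)))
    fun m => mem_sphere_zero_iff_norm.2 (norm_smul_inv_norm (hq0 m))
  have hy : Tendsto (fun m => exp (z (φ m) - P (z (φ m)))) atTop (𝓝 1) :=
    (exp_cont.tendsto' 0 1 exp_zero).comp (hq.comp (hz.comp hφ.tendsto_atTop))
  have z1 : Z ∈ lieOf S := by
    refine hS.mem_of_tendsto (fun m => hyS (φ m)) hy (c := fun m => ‖z (φ m) - P (z (φ m))‖⁻¹)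
      (hl.congr fun m => ?_)
    rw [(hk (φ m)).2.2]
    rfl
  have z2 : P Z = 0 := by
    refine tendsto_nhds_unique ((P.continuous.tendsto Z).comp hl)
      (tendsto_const_nhds.congr fun m => ?_)
    simp only [Function.comp, map_smul, map_sub, hP' _ (hP _), sub_self, smul_zero]
  rw [hP' Z z1] at z2
  rw [z2] at hZ
  simp at hZ

theorem map_exp (hS : MatGrp S) : Filter.map exp (𝓝[lieOf S] (0 : A)) = 𝓝[S] 1 := by
  refine le_antisymm (tendsto_nhdsWithin_iff.2 ⟨?_, ?_⟩)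
    (le_map_of_right_inverse (mba := mlog) ?_ ?_)
  · exact (exp_cont.tendsto' 0 1 exp_zero).mono_left nhdsWithin_le_nhds
  · exact eventually_nhdsWithin_of_forall fun X hX => hS.MG_exp hX
  · exact exp_mlog.filter_mono nhdsWithin_le_nhds
  · exact tendsto_nhdsWithin_iff.2
      ⟨MG_mlog.mono_left nhdsWithin_le_nhds, eventually_nhdsWithin_iff.2 hS.mlog_mem⟩

end Alg

section Mat

variable {ι : Type} [Fintype ι] [DecidableEq ι] {S : Set (Matrix ι ι ℝ)}

theorem of_isClosed (hc : IsClosed S) (h1 : 1 ∈ S) (hm : ∀ x ∈ S, ∀ y ∈ S, x * y ∈ S)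
    (hi : ∀ x ∈ S, ∃ y ∈ S, x * y = 1) : MatGrp S where
  one := h1
  mul := hm
  inv x hx := by
    obtain ⟨y, hy, h⟩ := hi x hx
    exact ⟨y, hy, h, mul_eq_one_comm.1 h⟩
  closed x hx _ := hc.closure_subset hx

/-- A closed monoid of orthogonal matrices is a group. -/
theorem of_orth (C : Submonoid (Matrix ι ι ℝ)) (hc : IsClosed (C : Set (Matrix ι ι ℝ)))
    (ho : ∀ x ∈ C, x * xᵀ = 1) : MatGrp (C : Set (Matrix ι ι ℝ)) := by
  have hK : IsCompact (C : Set (Matrix ι ι ℝ)) := by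
    refine (isCompact_univ_pi fun _ : ι => isCompact_univ_pi fun _ : ι =>
      isCompact_Icc (a := (-1 : ℝ)) (b := 1)).of_isClosed_subset hc fun x hx i _ j _ => ?_
    have h := congrFun (congrFun (ho x hx) i) i
    rw [Matrix.mul_apply, Matrix.one_apply_eq] at h
    have h2 : x i j * xᵀ j i ≤ 1 := h ▸ Finset.single_le_sum (f := fun j => x i j * xᵀ j i)
      (fun j _ => mul_self_nonneg (x i j)) (Finset.mem_univ j)
    exact abs_le.1 (abs_le_one_iff_mul_self_le_one.2 h2)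
  refine of_isClosed hc C.one_mem (fun x hx y hy => C.mul_mem hx hy) fun x hx => ?_
  obtain ⟨_, ⟨c, hcC, rfl⟩, he⟩ := exists_idempotent_in_compact_subsemigroup
    (fun r => continuous_mul_const r) ((fun c => x * c) '' C) ⟨_, 1, C.one_mem, rfl⟩
    (hK.image (continuous_const_mul x)) (by
      rintro _ ⟨c, h1, rfl⟩ _ ⟨c', h2, rfl⟩
      exact ⟨c * (x * c'), C.mul_mem h1 (C.mul_mem hx h2), (mul_assoc _ _ _).symm⟩)
  refine ⟨c, hcC, ?_⟩
  have h := ho _ (C.mul_mem hx hcC)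
  calc x * c = x * c * (x * c * (x * c)ᵀ) := by rw [h, mul_one]
    _ = x * c * (x * c) * (x * c)ᵀ := by rw [mul_assoc (x * c)]
    _ = 1 := by rw [he, h]

theorem mem_lieOf_mat (hS : MatGrp S) {X : Matrix ι ι ℝ} :
    X ∈ lieOf S ↔ ∀ t : ℝ, exp (t • X) ∈ S := mem_lieOf (A := Matrix ι ι ℝ) hS

theorem map_exp_mat (hS : MatGrp S) :
    Filter.map exp (𝓝[lieOf S] (0 : Matrix ι ι ℝ)) = 𝓝[S] 1 := map_exp (A := Matrix ι ι ℝ) hS

attribute [local instance 100] LieRing.ofAssociativeRing in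
theorem MG_lieAlg {n : ℕ} {S : Set (Mat n)} (hS : MatGrp S) :
    (lieAlg S).toSubmodule = lieOf S := by
  refine le_antisymm (fun X hX => ?_) fun X hX =>
    LieSubalgebra.subset_lieSpan (hS.mem_lieOf_mat.1 hX)
  have h : lieAlg S ≤ ⟨lieOf S, fun hx hy => br_mem (A := Mat n) hS hx hy⟩ :=
    LieSubalgebra.lieSpan_le.2 fun Y hY => hS.mem_lieOf_mat.2 hY
  exact h hX

theorem mem_lieAlg {n : ℕ} {S : Set (Mat n)} (hS : MatGrp S) {X : Mat n} :
    X ∈ lieAlg S ↔ ∀ t : ℝ, exp (t • X) ∈ S := by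
  rw [← hS.mem_lieOf_mat, ← hS.MG_lieAlg]
  exact Iff.rfl

theorem finrank_lieAlg {n : ℕ} {S : Set (Mat n)} (hS : MatGrp S) :
    Module.finrank ℝ (lieAlg S) = Module.finrank ℝ (lieOf S) := by
  rw [← hS.MG_lieAlg]
  rfl

end Mat

end MatGrp

end Pool.Agent.P.MP_d483fb_an.Z

end

end

section

/-! The exponential map of a covering group. -/

open scoped Matrix Matrix.Norms.Operator InnerProductSpace RealInnerProductSpace Topology
open NormedSpace Filter Set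

noncomputable section

namespace Pool.Agent.P.MP_d483fb_an.Z

variable {G : Type} [Group G] [TopologicalSpace G] {n : ℕ}

/-- A closed matrix group as a group with an exponential chart. -/
theorem exists_expData_of_cov (ρ : G →* Mat n) (hS : MatGrp (range ρ))
    (cov : IsCoveringMap (Set.rangeFactorization ρ)) :
    ∃ D : ExpData G n, D.ρ = ρ ∧ D.g = lieOf (range ρ) := by
  classical
  have hm : ∀ X : lieOf (range ρ), exp (X : Mat n) ∈ range ρ := fun X => by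
    simpa using hS.mem_lieOf_mat.1 X.2 1
  have hc : Continuous (exp : Mat n → Mat n) := exp_continuous
  let f : C(lieOf (range ρ), range ρ) :=
    ⟨fun X => ⟨exp (X : Mat n), hm X⟩, (hc.comp continuous_subtype_val).subtype_mk _⟩
  have he : Set.rangeFactorization ρ 1 = f 0 := Subtype.ext (by simp [f])
  have : LocallyConvexSpace ℝ (lieOf (range ρ)) := NormedSpace.toLocallyConvexSpace
  obtain ⟨F, ⟨hF0, hF⟩, -⟩ := cov.existsUnique_continuousMap_lifts f 0 1 he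
  have hF' : ∀ X, ρ (F X) = exp (X : Mat n) := fun X => congrArg Subtype.val (congrFun hF X)
  obtain ⟨U, hUo, hU1, hU⟩ := cov.isLocalHomeomorph.isLocallyInjective 1
  have hU' : InjOn ρ U := fun x hx y hy h => hU hx hy (Subtype.ext h)
  have hρ : Continuous ρ := continuous_subtype_val.comp cov.continuous
  have hUn := hUo.mem_nhds hU1
  let ex : Mat n → G := fun X => if h : X ∈ lieOf (range ρ) then F ⟨X, h⟩ else 1
  have hex : ∀ X : lieOf (range ρ), ex X = F X := fun X => dif_pos X.2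
  have hFc : Tendsto F (𝓝 0) (𝓝 1) := hF0 ▸ F.continuous.tendsto 0
  refine ⟨⟨ρ, lieOf (range ρ), ex, hρ, fun X hX => ?_, ?_, ?_, ?_, ?_, fun x X hX => ?_⟩, rfl, rfl⟩
  · rw [hex ⟨X, hX⟩, hF']
  · rw [continuousOn_iff_continuous_domRestrict]
    exact F.continuous.congr fun X => (hex X).symm
  · exact (hex 0).trans hF0
  · have e0 : 𝓝[lieOf (range ρ)] (0 : Mat n) = Filter.map Subtype.val (𝓝 (0 : lieOf (range ρ))) :=
      nhdsWithin_eq_map_subtype_coe (zero_mem _)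
    have e1 : ex ∘ Subtype.val = F := funext hex
    rw [e0, Filter.map_map, e1]
    refine le_antisymm hFc fun s hs => ?_
    have h1 : (fun X : lieOf (range ρ) => exp (X : Mat n)) '' (F ⁻¹' (s ∩ U)) ∈ 𝓝[range ρ] 1 := by
      rw [← hS.map_exp_mat, e0, Filter.map_map]
      exact image_mem_map (inter_mem (s := F ⁻¹' s) hs (hFc hUn))
    have h2 : Tendsto ρ (𝓝 1) (𝓝[range ρ] 1) :=
      tendsto_nhdsWithin_iff.2 ⟨by simpa using hρ.tendsto 1, .of_forall fun x => ⟨x, rfl⟩⟩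
    filter_upwards [h2 h1, hUn] with x hx hxU
    obtain ⟨X, hX, hXx⟩ := hx
    have : F X = x := hU' hX.2 hxU ((hF' X).trans hXx)
    exact this ▸ hX.1
  · filter_upwards [hUn] with x hx h
    exact hU' hx hU1 (by rw [h, map_one])
  · exact MatGrp.conj_mem (A := Mat n) hS ⟨x, rfl⟩ (by rw [← map_mul, mul_inv_cancel, map_one]) hX

theorem HigherRank.matGrp (R : HigherRank G n) : MatGrp (range R.ρ) := by
  refine MatGrp.of_isClosed R.closed ⟨1, map_one _⟩ ?_ ?_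
  · rintro _ ⟨x, rfl⟩ _ ⟨y, rfl⟩
    exact ⟨x * y, map_mul _ _ _⟩
  · rintro _ ⟨x, rfl⟩
    exact ⟨_, ⟨x⁻¹, rfl⟩, by rw [← map_mul, mul_inv_cancel, map_one]⟩

theorem HigherRank.opn (R : HigherRank G n) : Filter.map R.ρ (𝓝 1) = 𝓝[range R.ρ] 1 := by
  have h := R.cov.isLocalHomeomorph.map_nhds_eq 1
  have e : (R.ρ : G → Mat n) = Subtype.val ∘ Set.rangeFactorization R.ρ := rfl
  rw [e, ← Filter.map_map, h, map_nhds_subtype_val]
  simp

theorem HigherRank.exists_expData (R : HigherRank G n) :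
    ∃ D : ExpData G n, D.ρ = R.ρ ∧ D.g = lieOf (range R.ρ) := exists_expData_of_cov R.ρ R.matGrp R.cov

variable [IsTopologicalGroup G] [PreconnectedSpace G]

attribute [local instance 100] LieRing.ofAssociativeRing in
theorem ExpData.mem_lieAlg_image (D : ExpData G n) (hg : lieOf (range D.ρ) ≤ D.g)
    {H : Subgroup G} (hH : IsClosed (H : Set G)) {X : Mat n} :
    X ∈ lieAlg (D.ρ '' H) ↔ X ∈ D.lie H := by
  have key : ∀ Y, Y ∈ lieSet (D.ρ '' H) ↔ Y ∈ D.lie H := by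
    intro Y
    rw [D.mem_lie hH]
    refine ⟨fun h => ?_, fun h t => ⟨_, h.2 t, D.ρ_ex _ (D.g.smul_mem t h.1)⟩⟩
    have hY : Y ∈ D.g := hg (Submodule.subset_span fun t => image_subset_range _ _ (h t))
    refine ⟨hY, ?_⟩
    have : Countable {z | D.ρ z = 1} := D.ker_countable.to_subtype
    obtain ⟨z, t₀, ht₀⟩ := nonempty_interior_of_iUnion_of_closed
      (f := fun z : {z | D.ρ z = 1} => {t : ℝ | D.ex (t • Y) * (z : G)⁻¹ ∈ H})
      (fun z => hH.preimage ((D.ex_smul_cont hY).mul continuous_const))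
      (eq_univ_of_forall fun t => by
        obtain ⟨x, hx, e⟩ := h t
        refine mem_iUnion.2 ⟨⟨x⁻¹ * D.ex (t • Y), ?_⟩, ?_⟩
        · show D.ρ _ = 1
          rw [map_mul, D.ρ_ex _ (D.g.smul_mem t hY), ← e, D.ρ_inv_mul]
        · show D.ex (t • Y) * (x⁻¹ * D.ex (t • Y))⁻¹ ∈ H
          simpa using hx)
    have h1 := mem_interior_iff_mem_nhds.1 ht₀
    have h2 : ∀ᶠ s in 𝓝 (0 : ℝ), D.ex (s • Y) ∈ H := by
      have hc : Tendsto (fun s : ℝ => s + t₀) (𝓝 0) (𝓝 t₀) := by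
        simpa using (continuous_add_const t₀).tendsto 0
      filter_upwards [hc h1] with s hs
      have h4 : D.ex (t₀ • Y) * (z : G)⁻¹ ∈ H := (mem_of_mem_nhds h1 :)
      have h3 := H.mul_mem hs (H.inv_mem h4)
      rw [D.ex_add_smul hY] at h3
      simpa using h3
    intro t
    have hc : Tendsto (fun m : ℕ => t / m) atTop (𝓝 0) := tendsto_const_div_atTop_nhds_zero_nat t
    obtain ⟨m, hm, hm0⟩ := ((hc.eventually h2).and (eventually_gt_atTop 0)).exists
    have h3 := H.pow_mem hm m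
    rw [← D.ex_nsmul (D.g.smul_mem _ hY), smul_smul,
      mul_div_cancel₀ _ (by exact_mod_cast hm0.ne')] at h3
    exact h3
  refine ⟨fun h => ?_, fun h => LieSubalgebra.subset_lieSpan ((key X).2 h)⟩
  let L : LieSubalgebra ℝ (Mat n) :=
    { toSubmodule := D.lie H, lie_mem' := fun {x y} hx hy => D.lie_isSub H x hx y hy }
  exact (LieSubalgebra.lieSpan_le (K := L)).2 (fun Y hY => (key Y).1 hY) h

attribute [local instance 100] LieRing.ofAssociativeRing in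
theorem HigherRank.ltV_iff (R : HigherRank G n) (D : ExpData G n) (h : D.ρ = R.ρ)
    (hg : D.g = lieOf (range R.ρ)) (m : ℕ) : R.ltV m ↔ D.ltV m := by
  have hd : ∀ H : Subgroup G, IsClosed (H : Set G) → R.dim H = Module.finrank ℝ (D.lie H) := by
    intro H hH
    have e : (lieAlg (R.ρ '' H)).toSubmodule = D.lie H := by
      ext X
      rw [← D.mem_lieAlg_image (by rw [hg, h]) hH, h]
      rfl
    rw [← e]
    rfl
  refine forall_congr' fun H => forall_congr' fun hH => ?_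
  rw [hd H hH, hd ⊤ isClosed_univ, D.lie_top]

end Pool.Agent.P.MP_d483fb_an.Z

end

end

section

/-! Every higher rank group has a standard form. -/

open scoped Matrix Matrix.Norms.Operator InnerProductSpace RealInnerProductSpace Topology
open NormedSpace Filter Set

attribute [local instance 100] LieRing.ofAssociativeRing

noncomputable section

namespace Pool.Agent.P.MP_d483fb_an.Z

variable {G : Type} [Group G] [TopologicalSpace G] {n : ℕ}

theorem HigherRank.mem_lieAlg_iff (R : HigherRank G n) {X : Mat n} :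
    X ∈ lieAlg (range R.ρ) ↔ X ∈ lieOf (range R.ρ) :=
  R.matGrp.mem_lieAlg.trans R.matGrp.mem_lieOf_mat.symm

theorem HigherRank.cent (R : HigherRank G n) {X : Mat n} (hX : X ∈ lieOf (range R.ρ))
    (h : ∀ Y ∈ lieOf (range R.ρ), ⁅X, Y⁆ = 0) : X = 0 := by
  have := R.ss
  let x : lieAlg (range R.ρ) := ⟨X, R.mem_lieAlg_iff.2 hX⟩
  have hx : x ∈ LieAlgebra.center ℝ (lieAlg (range R.ρ)) := by
    rw [LieAlgebra.center, LieModule.mem_maxTrivSubmodule]
    intro y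
    rw [← lie_skew, neg_eq_zero]
    exact Subtype.ext (h y.1 (R.mem_lieAlg_iff.1 y.2))
  rw [LieAlgebra.center_eq_bot, LieSubmodule.mem_bot] at hx
  exact congrArg Subtype.val hx

theorem HigherRank.rank' (R : HigherRank G n) {I : Submodule ℝ (Mat n)}
    (hI : IsIdl (lieOf (range R.ρ)) I) (h0 : I ≠ ⊥) :
    ∃ X ∈ I, ∃ Y ∈ I, X.IsSymm ∧ Y.IsSymm ∧ ⁅X, Y⁆ = 0 ∧ LinearIndependent ℝ ![X, Y] := by
  let J : LieIdeal ℝ (lieAlg (range R.ρ)) :=
    { I.comap (lieAlg (range R.ρ)).toSubmodule.subtype with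
      lie_mem := fun {x m} hm => hI.2 x.1 (R.mem_lieAlg_iff.1 x.2) m.1 hm }
  have hJ : ∀ x, x ∈ J ↔ x.1 ∈ I := fun x => Iff.rfl
  have hJ0 : J ≠ ⊥ := by
    intro hb
    refine h0 ((Submodule.eq_bot_iff I).2 fun X hX => ?_)
    have hx : (⟨X, R.mem_lieAlg_iff.2 (hI.1 hX)⟩ : lieAlg (range R.ρ)) ∈ J := (hJ _).2 hX
    rw [hb, LieSubmodule.mem_bot] at hx
    exact congrArg Subtype.val hx
  obtain ⟨A, hA, hAJ⟩ := (eq_bot_or_exists_atom_le J).resolve_left hJ0
  obtain ⟨X, hX, Y, hY, h1, h2, h3, h4⟩ := R.rank A hA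
  refine ⟨X.1, (hJ _).1 (hAJ hX), Y.1, (hJ _).1 (hAJ hY), h1, h2, congrArg Subtype.val h3, ?_⟩
  rw [LinearIndependent.pair_iff] at h4 ⊢
  intro s t hst
  exact h4 s t (Subtype.ext hst)

theorem ExStd_conj {S S' : Set (Mat n)} (hS : MatGrp S) (hS' : MatGrp S') {U V : Mat n}
    (h : U * V = 1) (h' : V * U = 1) (hm : ∀ x ∈ S, U * x * V ∈ S') {X : Mat n}
    (hX : X ∈ lieOf S) : U * X * V ∈ lieOf S' := by
  rw [hS.mem_lieOf_mat] at hX
  rw [hS'.mem_lieOf_mat]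
  intro t
  have e : exp (t • (U * X * V)) = U * exp (t • X) * V := by
    have := Matrix.exp_units_conj (⟨U, V, h, h'⟩ : (Mat n)ˣ) (t • X)
    rw [← Matrix.smul_mul, ← Matrix.mul_smul]
    exact this
  rw [e]
  exact hm _ (hX t)

theorem HigherRank.exists_std [IsTopologicalGroup G] [PreconnectedSpace G] (R : HigherRank G n) :
    ∃ (k : ℕ) (D : Std G n k) (R' : HigherRank G n), R'.ρ = D.ρ ∧ (∀ x, D.ρ x = 1 ↔ R.ρ x = 1) ∧
      (∀ m, R.ltV m → D.ltV m) ∧ ∀ m, R.ltD m → R'.ltD m := by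
  obtain ⟨v, hvg, hvs, hvc, hvm⟩ := exists_max_abelian (lieOf (range R.ρ))
  obtain ⟨U, hU, hd⟩ := simul_diag v hvs hvc
  have hU' : Uᵀ * U = 1 := mul_eq_one_comm.1 hU
  obtain ⟨R', hρ, hV, hD⟩ := R.exists_conj hU
  obtain ⟨E, hE, hg⟩ := R'.exists_expData
  let c : Mat n →ₗ[ℝ] Mat n := LinearMap.mulLeftRight ℝ (U, Uᵀ)
  have hc : ∀ X, c X = U * X * Uᵀ := fun X => by simp [c]
  have hback : ∀ X : Mat n, Uᵀ * (U * X * Uᵀ) * U = X := fun X => by
    rw [← mul_assoc, ← mul_assoc, hU', one_mul, mul_assoc, hU', mul_one]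
  have hfor : ∀ X : Mat n, U * (Uᵀ * X * U) * Uᵀ = X := fun X => by
    rw [← mul_assoc, ← mul_assoc, hU, one_mul, mul_assoc, hU, mul_one]
  have h1 : ∀ X ∈ lieOf (range R.ρ), U * X * Uᵀ ∈ lieOf (range R'.ρ) := fun X hX =>
    ExStd_conj R.matGrp R'.matGrp hU hU' (by rintro _ ⟨x, rfl⟩; exact ⟨x, hρ x⟩) hX
  have h2 : ∀ X ∈ lieOf (range R'.ρ), Uᵀ * X * U ∈ lieOf (range R.ρ) := fun X hX =>
    ExStd_conj R'.matGrp R.matGrp hU' hU
      (by rintro _ ⟨x, rfl⟩; exact ⟨x, by rw [hρ, hback]⟩) hX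
  obtain ⟨k, lam, hfr, hlam⟩ := exists_frame (v.map c) (by
    rintro _ ⟨X, hX, rfl⟩
    rw [hc]
    exact hd X hX)
  let D : Std G n k :=
    { E with
      lam := lam
      closed := by rw [hE]; exact R'.closed
      opn := by rw [hE]; exact R'.opn
      tr := by rw [hE]; exact R'.tr
      cent := by rw [hg]; exact fun X hX h => R'.cent hX h
      dg_mem' := by
        intro s
        obtain ⟨X, hX, hs⟩ := (hlam _).2 ⟨s, rfl⟩
        rw [hg, ← hs, hc]
        exact h1 X (hvg hX)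
      frame := hfr
      max' := by
        intro X hX hs hw
        rw [hg] at hX
        refine (hlam X).1 ⟨Uᵀ * X * U, hvm _ (h2 X hX) ?_ fun Y hY => ?_, by rw [hc, hfor]⟩
        · rw [Matrix.IsSymm, Matrix.transpose_mul, Matrix.transpose_mul,
            Matrix.transpose_transpose, hs.eq, mul_assoc]
        · obtain ⟨s, hs⟩ := (hlam (c Y)).1 ⟨Y, hY, rfl⟩
          have e : X * c Y = c Y * X := by
            rw [hs]
            ext i j
            rw [Matrix.mul_diagonal, Matrix.diagonal_mul]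
            by_cases h0 : X i j = 0
            · simp [h0]
            · rw [hw i j h0, mul_comm]
          rw [hc] at e
          rw [Ring.lie_def, sub_eq_zero, ← hback Y]
          calc Uᵀ * X * U * (Uᵀ * (U * Y * Uᵀ) * U)
              = Uᵀ * (X * (U * Uᵀ) * (U * Y * Uᵀ)) * U := by simp only [mul_assoc]
            _ = Uᵀ * ((U * Y * Uᵀ) * (U * Uᵀ) * X) * U := by rw [hU, mul_one, mul_one, e]
            _ = Uᵀ * (U * Y * Uᵀ) * U * (Uᵀ * X * U) := by simp only [mul_assoc]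
      rank := by rw [hg]; exact fun I hI h0 => R'.rank' hI h0 }
  refine ⟨k, D, R', hE.symm, fun x => ?_, fun m hm => (R'.ltV_iff E hE hg m).1 (hV m hm), hD⟩
  change E.ρ x = 1 ↔ _
  rw [hE, hρ]
  constructor
  · intro h
    rw [← hback (R.ρ x), h, mul_one, hU']
  · intro h
    rw [h, mul_one, hU]

end Pool.Agent.P.MP_d483fb_an.Z

end

end

section

/-! The consequence of superrigidity that is used for compact targets. -/

open scoped Matrix

attribute [local instance 100] LieRing.ofAssociativeRing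

namespace Pool.Agent.P.MP_d483fb_an.Z.SR

/-- For every orthogonal representation the Lie algebra of the closure of the image has no proper
subalgebra of codimension at most `m`. -/
def SRd (Γ : Type) [Group Γ] (m : ℕ) : Prop :=
  ∀ (N : ℕ) (ρ : Γ →* Mat N), (∀ γ, ρ γ * (ρ γ)ᵀ = 1) → ∀ l0 : LieSubalgebra ℝ (Mat N),
    l0 ≤ lieAlg (closure (Set.range ρ)) →
    Module.finrank ℝ (lieAlg (closure (Set.range ρ))) - Module.finrank ℝ l0 ≤ m →
    l0 = lieAlg (closure (Set.range ρ))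

end Pool.Agent.P.MP_d483fb_an.Z.SR


end

section

/-! The closure of the image of an orthogonal representation and its Lie algebra. -/

open Set Filter Topology NormedSpace Module
open scoped Matrix Matrix.Norms.Operator

set_option linter.unusedSectionVars false

attribute [local instance 100] LieRing.ofAssociativeRing

noncomputable section

namespace Pool.Agent.P.MP_d483fb_an.Z.SR

variable {N : ℕ}

/-- The exponential as a unit. -/
def exU (X : Mat N) : (Mat N)ˣ := ⟨exp X, exp (-X), exp_mul_exp_neg X, exp_neg_mul_exp X⟩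

theorem map_val : Filter.map Units.val (𝓝 (1 : (Mat N)ˣ)) = 𝓝 (1 : Mat N) :=
  (Units.isOpenEmbedding_val (R := Mat N)).map_nhds_eq 1

theorem continuous_exp : Continuous (exp : Mat N → Mat N) := exp_continuous

/-- The general linear group. -/
def glData (N : ℕ) : ExpData (Mat N)ˣ N where
  ρ := Units.coeHom _
  g := ⊤
  ex := exU
  cont := Units.continuous_val
  ρ_ex _ _ := rfl
  ex_cont := ((Units.continuous_iff (f := exU)).2
    ⟨continuous_exp, continuous_exp.comp continuous_neg⟩).continuousOn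
  ex_zero := Units.ext exp_zero
  ex_nhds := by
    apply Filter.map_injective Units.val_injective
    rw [Submodule.top_coe, nhdsWithin_univ, Filter.map_map, map_val]
    exact map_exp_nhds
  disc := Eventually.of_forall fun _ h => Units.ext h
  Ad_mem' _ _ _ := Submodule.mem_top

/-- A closed group of orthogonal matrices. -/
structure OGrp (S : Set (Mat N)) : Prop where
  closed : IsClosed S
  one : (1 : Mat N) ∈ S
  mul : ∀ A ∈ S, ∀ B ∈ S, A * B ∈ S
  tr : ∀ A ∈ S, Aᵀ ∈ S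
  orth : ∀ A ∈ S, A * Aᵀ = 1

namespace OGrp

variable {S : Set (Mat N)} (h : OGrp S)
include h

theorem orth' {A : Mat N} (hA : A ∈ S) : Aᵀ * A = 1 := mul_eq_one_comm.1 (h.orth A hA)

theorem compact : IsCompact S := isCompact_orth h.closed h.orth

theorem pow {A : Mat N} (hA : A ∈ S) (n : ℕ) : A ^ n ∈ S := by
  induction n with
  | zero => simpa using h.one
  | succ n ih => exact pow_succ A n ▸ h.mul _ ih _ hA

/-- The corresponding subgroup of the general linear group. -/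
def sub : Subgroup (Mat N)ˣ where
  carrier := {u | u.1 ∈ S}
  one_mem' := h.one
  mul_mem' hu hv := h.mul _ hu _ hv
  inv_mem' {u} hu := by
    have : ((u⁻¹ : (Mat N)ˣ) : Mat N) = u.1ᵀ := Units.inv_eq_of_mul_eq_one_right (h.orth _ hu)
    change ((u⁻¹ : (Mat N)ˣ) : Mat N) ∈ S
    exact this ▸ h.tr _ hu

theorem sub_closed : IsClosed (h.sub : Set (Mat N)ˣ) := h.closed.preimage Units.continuous_val

theorem mem_lie {X : Mat N} : X ∈ (glData N).lie h.sub ↔ X ∈ lieSet S :=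
  ((glData N).mem_lie h.sub_closed).trans ⟨fun a => a.2, fun a => ⟨Submodule.mem_top, a⟩⟩

theorem mem_lieAlg {X : Mat N} : X ∈ lieAlg S ↔ ∀ t : ℝ, exp (t • X) ∈ S := by
  refine ⟨fun hX => h.mem_lie.1 ?_, fun hX => LieSubalgebra.subset_lieSpan hX⟩
  let l : LieSubalgebra ℝ (Mat N) :=
    { (glData N).lie h.sub with lie_mem' := fun hX hY => (glData N).lie_isSub _ _ hX _ hY }
  exact (LieSubalgebra.lieSpan_le (K := l)).2 (fun Y hY => h.mem_lie.2 hY) hX

theorem exp_mem {X : Mat N} (hX : X ∈ lieAlg S) : exp X ∈ S := by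
  simpa using h.mem_lieAlg.1 hX 1

theorem skew {X : Mat N} (hX : X ∈ lieAlg S) : Xᵀ = -X := by
  refine eq_of_exp_smul_eq (Eventually.of_forall fun t => ?_)
  have h1 := h.orth _ (h.mem_lieAlg.1 hX t)
  have h2 : (exp (t • X))ᵀ = exp (-(t • X)) := by
    rw [← one_mul (exp (t • X))ᵀ, ← exp_neg_mul_exp (t • X), mul_assoc, h1, mul_one]
  rw [← Matrix.transpose_smul, smul_neg]
  exact (Matrix.exp_transpose _).trans h2

theorem conj_mem {A X : Mat N} (hA : A ∈ S) (hX : X ∈ lieAlg S) : A * X * Aᵀ ∈ lieAlg S := by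
  refine h.mem_lieAlg.2 fun t => ?_
  have e : A * exp (t • X) * Aᵀ = exp (A * (t • X) * Aᵀ) := exp_conj (h.orth A hA) (h.orth' hA) _
  rw [← smul_mul_assoc, ← mul_smul_comm, ← e]
  exact h.mul _ (h.mul _ hA _ (h.mem_lieAlg.1 hX t)) _ (h.tr A hA)

/-- Exponentials fill a neighbourhood of the identity. -/
theorem nhds : ∀ᶠ A in 𝓝 (1 : Mat N), A ∈ S → ∃ X ∈ lieAlg S, exp X = A := by
  have h1 := (glData N).lg_mem_lie h.sub_closed
  have h2 : ∀ᶠ u in 𝓝 (1 : (Mat N)ˣ), u.1 ∈ S → ∃ X ∈ lieAlg S, exp X = u.1 := by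
    filter_upwards [h1, (glData N).ex_lg] with u hu hu' hS
    exact ⟨_, h.mem_lieAlg.2 (h.mem_lie.1 (hu hS)), congrArg Units.val hu'.2⟩
  rw [← map_val]
  exact h2

end OGrp

variable {Γ : Type} [Group Γ] {ρ : Γ →* Mat N} (hρ : ∀ γ, ρ γ * (ρ γ)ᵀ = 1)
include hρ

theorem rho_inv (γ : Γ) : ρ γ⁻¹ = (ρ γ)ᵀ := by
  rw [← mul_one (ρ γ⁻¹), ← hρ γ, ← mul_assoc, ← map_mul, inv_mul_cancel, map_one, one_mul]

theorem oGrp_closure : OGrp (closure (range ρ)) where
  closed := isClosed_closure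
  one := subset_closure ⟨1, map_one ρ⟩
  mul A hA B hB := map_mem_closure₂ continuous_mul hA hB (by
    rintro _ ⟨γ, rfl⟩ _ ⟨δ, rfl⟩
    exact ⟨γ * δ, map_mul ρ γ δ⟩)
  tr A hA := map_mem_closure (f := fun A : Mat N => Aᵀ) (by fun_prop) hA (by
    rintro _ ⟨γ, rfl⟩
    exact ⟨γ⁻¹, rho_inv hρ γ⟩)
  orth A hA := closure_minimal (t := {A : Mat N | A * Aᵀ = 1}) (by rintro _ ⟨γ, rfl⟩; exact hρ γ)
    (isClosed_eq (by fun_prop) continuous_const) hA

theorem finiteIndex_of_nhds (Λ : Subgroup Γ) (h : ∀ᶠ A in 𝓝 (1 : Mat N), ∀ γ, ρ γ = A → γ ∈ Λ) :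
    Λ.FiniteIndex := by
  obtain ⟨U, hU, hUo, hU1⟩ := eventually_nhds_iff.1 h
  have hS := oGrp_closure hρ
  obtain ⟨F, hF⟩ := hS.compact.elim_finite_subcover (fun γ => {B : Mat N | ρ γ⁻¹ * B ∈ U})
    (fun γ => hUo.preimage (by fun_prop)) (fun A hA => by
      have h1 : {B : Mat N | Bᵀ * A ∈ U} ∈ 𝓝 A :=
        (hUo.preimage (by fun_prop)).mem_nhds (show Aᵀ * A ∈ U from hS.orth' hA ▸ hU1)
      obtain ⟨_, h2, γ, rfl⟩ := mem_closure_iff_nhds.1 hA _ h1
      exact mem_iUnion.2 ⟨γ, show ρ γ⁻¹ * A ∈ U from rho_inv hρ γ ▸ h2⟩)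
  have : Finite (Γ ⧸ Λ) := by
    refine Finite.of_surjective (fun γ : F => ((γ : Γ) : Γ ⧸ Λ)) fun q => ?_
    obtain ⟨δ, rfl⟩ := QuotientGroup.mk_surjective q
    obtain ⟨γ, hγ, h2⟩ := mem_iUnion₂.1 (hF (subset_closure ⟨δ, rfl⟩))
    exact ⟨⟨γ, hγ⟩, QuotientGroup.eq.2 (hU _ h2 _ (map_mul ρ _ _))⟩
  exact Subgroup.finiteIndex_of_finite_quotient

theorem finiteIndex_of_exp (Λ : Subgroup Γ)
    (h : ∀ γ, ∀ X ∈ lieAlg (closure (range ρ)), exp X = ρ γ → γ ∈ Λ) : Λ.FiniteIndex := by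
  refine finiteIndex_of_nhds hρ Λ ?_
  filter_upwards [(oGrp_closure hρ).nhds] with A hA γ hγ
  obtain ⟨X, hX, e⟩ := hA (subset_closure ⟨γ, hγ⟩)
  exact h γ X hX (e.trans hγ.symm)

/-- A closed set that contains the image of a subgroup of finite index contains all exponentials. -/
theorem exp_mem_of_finiteIndex (Λ : Subgroup Γ) [Λ.FiniteIndex] {P : Set (Mat N)} (hP : IsClosed P)
    (h : ∀ γ ∈ Λ, ρ γ ∈ P) {X : Mat N} (hX : X ∈ lieAlg (closure (range ρ))) (t : ℝ) :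
    exp (t • X) ∈ P := by
  have hn : Λ.normalCore.index ≠ 0 := Subgroup.FiniteIndex.index_ne_zero
  set n := Λ.normalCore.index
  have h1 : exp ((t / n) • X) ^ n ∈ closure P :=
    map_mem_closure (f := fun A : Mat N => A ^ n) (by fun_prop)
      ((oGrp_closure hρ).mem_lieAlg.1 hX (t / n)) (by
        rintro _ ⟨γ, rfl⟩
        have := h _ (Λ.normalCore_le (Λ.normalCore.pow_index_mem γ))
        rwa [map_pow] at this)
  rwa [hP.closure_eq, ← Matrix.exp_nsmul, ← Nat.cast_smul_eq_nsmul ℝ, smul_smul,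
    mul_div_cancel₀ _ (Nat.cast_ne_zero.2 hn)] at h1

theorem finite_of_lieAlg_eq_bot (h : lieAlg (closure (range ρ)) = ⊥) : (range ρ).Finite := by
  have : ρ.ker.FiniteIndex := finiteIndex_of_exp hρ _ fun γ X hX e => by
    rw [h, LieSubalgebra.mem_bot] at hX
    rw [MonoidHom.mem_ker, ← e, hX, exp_zero]
  refine (finite_range fun q : Γ ⧸ ρ.ker => ρ q.out).subset ?_
  rintro _ ⟨γ, rfl⟩
  obtain ⟨k, hk⟩ := QuotientGroup.mk_out_eq_mul ρ.ker γ
  exact ⟨(γ : Γ ⧸ ρ.ker), by simp only [hk, map_mul, MonoidHom.mem_ker.1 k.2, mul_one]⟩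

end Pool.Agent.P.MP_d483fb_an.Z.SR

end

end

section

/-! The Lie algebra of the closure of the image has trivial centre. -/

open Set Filter Topology NormedSpace Module
open scoped Matrix Matrix.Norms.Operator

set_option linter.unusedSectionVars false

attribute [local instance 100] LieRing.ofAssociativeRing

noncomputable section

namespace Pool.Agent.P.MP_d483fb_an.Z.SR

theorem NoChar.isOfFinOrder {Λ A : Type} [Group Λ] [CommGroup A] (h : NoChar Λ) (χ : Λ →* A)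
    (γ : Λ) : IsOfFinOrder (χ γ) := by
  by_contra hn
  obtain ⟨f, hf⟩ := (Module.Baer.of_divisible ℝ).extension_property_addMonoidHom
    (zmultiplesHom (Additive A) (Additive.ofMul (χ γ)))
    (fun a b hab => injective_zpow_iff_not_isOfFinOrder.2 hn hab) (Int.castAddHom ℝ)
  have h1 := h (fun δ => f (Additive.ofMul (χ δ))) (fun δ δ' => by simp) γ
  have h2 := DFunLike.congr_fun hf 1
  simp [h1] at h2

theorem NoChar.exists_exponent {Λ A : Type} [Group Λ] [Group.FG Λ] [CommGroup A] (h : NoChar Λ)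
    (χ : Λ →* A) : ∃ e : ℕ, e ≠ 0 ∧ ∀ γ, χ γ ^ e = 1 := by
  have : Finite χ.range := CommGroup.finite_of_fg_isMulTorsion _ (by
    rintro ⟨_, γ, rfl⟩
    exact (χ.range.subtype_injective.isOfFinOrder_iff).1 (h.isOfFinOrder χ γ))
  exact ⟨Nat.card χ.range, Nat.card_pos.ne', fun γ =>
    congrArg Subtype.val (pow_card_eq_one' (x := (⟨χ γ, γ, rfl⟩ : χ.range)))⟩

variable {N : ℕ}

theorem exists_frame (V : Submodule ℂ (Fin N → ℂ)) :
    ∃ (B : Matrix (Fin N) (Fin (finrank ℂ V)) ℂ) (C : Matrix (Fin (finrank ℂ V)) (Fin N) ℂ),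
      C * B = 1 ∧ (∀ v, B *ᵥ v ∈ V) ∧ ∀ v ∈ V, B *ᵥ (C *ᵥ v) = v := by
  obtain ⟨p, hp⟩ := V.subtype.exists_leftInverse_of_injective V.ker_subtype
  have hp' : ∀ v : V, p v = v := LinearMap.congr_fun hp
  let e := (Module.finBasis ℂ V).equivFun
  refine ⟨LinearMap.toMatrix' (V.subtype ∘ₗ e.symm.toLinearMap),
    LinearMap.toMatrix' (e.toLinearMap ∘ₗ p), ?_, fun v => ?_, fun v hv => ?_⟩
  · rw [← LinearMap.toMatrix'_comp, ← LinearMap.toMatrix'_id]
    congr 1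
    exact LinearMap.ext fun v => by simp [hp']
  · rw [LinearMap.toMatrix'_mulVec]
    exact (e.symm v).2
  · rw [LinearMap.toMatrix'_mulVec, LinearMap.toMatrix'_mulVec]
    simpa using congrArg Subtype.val (hp' ⟨v, hv⟩)

/-- Complexification of a matrix. -/
def cx : Mat N →ₐ[ℝ] Matrix (Fin N) (Fin N) ℂ := Complex.ofRealAm.mapMatrix

theorem cx_exp_mulVec {Z : Mat N} {μ : ℂ} {v : Fin N → ℂ} (h : cx Z *ᵥ v = μ • v) (t : ℝ) :
    cx (exp (t • Z)) *ᵥ v = Complex.exp (t * μ) • v := by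
  let T : Mat N →L[ℝ] Fin N → ℂ := LinearMap.toContinuousLinearMap
    { toFun := fun A => cx A *ᵥ v
      map_add' := fun A B => by rw [map_add, Matrix.add_mulVec]
      map_smul' := fun c A => by rw [map_smul, Matrix.smul_mulVec, RingHom.id_apply] }
  have hT : ∀ s : ℝ, HasDerivAt (fun s : ℝ => cx (exp (s • Z)) *ᵥ v)
      (μ • (cx (exp (s • Z)) *ᵥ v)) s := by
    intro s
    have h1 : HasDerivAt (fun s : ℝ => cx (exp (s • Z)) *ᵥ v) (cx (exp (s • Z) * Z) *ᵥ v) s :=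
      T.hasFDerivAt.comp_hasDerivAt s (hasDerivAt_exp_smul_const (𝕂 := ℝ) Z s)
    rwa [map_mul, ← Matrix.mulVec_mulVec, h, Matrix.mulVec_smul] at h1
  have hE : ∀ s : ℝ, HasDerivAt (fun s : ℝ => Complex.exp (-(s * μ)))
      (Complex.exp (-(s * μ)) * -μ) s := by
    intro s
    simpa using ((Complex.ofRealCLM.hasDerivAt (x := s)).mul_const μ).neg.cexp
  have hf : ∀ s : ℝ, HasDerivAt (fun s : ℝ => Complex.exp (-(s * μ)) • (cx (exp (s • Z)) *ᵥ v))
      0 s := by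
    intro s
    refine ((hE s).smul (hT s)).congr_deriv ?_
    rw [smul_smul, mul_neg, neg_smul, add_neg_cancel]
  have h0 := is_const_of_deriv_eq_zero (fun s => (hf s).differentiableAt) (fun s => (hf s).deriv) t 0
  simp only [Complex.ofReal_zero, zero_mul, neg_zero, Complex.exp_zero, zero_smul, exp_zero,
    map_one, Matrix.one_mulVec, one_smul] at h0
  conv_rhs => rw [← h0, smul_smul, ← Complex.exp_add, add_neg_cancel, Complex.exp_zero, one_smul]

theorem exists_eig {Z : Mat N} (hZ : Zᵀ = -Z) (h0 : Z ≠ 0) :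
    ∃ (μ : ℂ) (v : Fin N → ℂ), μ ≠ 0 ∧ v ≠ 0 ∧ cx Z *ᵥ v = μ • v := by
  have hH : (Complex.I • cx Z).IsHermitian := by
    ext i j
    have := congrFun (congrFun hZ i) j
    simp only [Matrix.transpose_apply, Matrix.neg_apply] at this
    simp [cx, Matrix.conjTranspose_apply, this]
  obtain ⟨v, t, ht, hv, h⟩ := hH.exists_eigenvector_of_ne_zero (by
    refine smul_ne_zero Complex.I_ne_zero fun h => h0 ?_
    ext i j
    simpa [cx] using congrFun (congrFun h i) j)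
  refine ⟨-Complex.I * t, v, mul_ne_zero (neg_ne_zero.2 Complex.I_ne_zero) (by simpa using ht), hv, ?_⟩
  rw [Matrix.smul_mulVec] at h
  rw [mul_smul, Complex.coe_smul, ← h, smul_smul]
  simp

variable {Γ : Type} [Group Γ] {ρ : Γ →* Mat N} (hρ : ∀ γ, ρ γ * (ρ γ)ᵀ = 1)
include hρ

theorem central_eq_zero [Group.FG Γ] (h : ∀ Λ : Subgroup Γ, Λ.FiniteIndex → NoChar Λ) {Z : Mat N}
    (hZ : Z ∈ lieAlg (closure (range ρ))) (hc : ∀ X ∈ lieAlg (closure (range ρ)), X * Z = Z * X) :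
    Z = 0 := by
  by_contra h0
  obtain ⟨μ, v, hμ, hv, he⟩ := exists_eig ((oGrp_closure hρ).skew hZ) h0
  let Λ : Subgroup Γ :=
    { carrier := {γ | Commute (ρ γ) Z}
      one_mem' := by simp
      mul_mem' := fun {γ δ} (h1 : Commute _ _) (h2 : Commute _ _) => by
        change Commute _ _
        rw [map_mul]
        exact h1.mul_left h2
      inv_mem' := fun {γ} (h1 : Commute _ _) => by
        have := Commute.units_inv_left (u := ρ.toHomUnits γ) h1
        rwa [← map_inv] at this }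
  have : Λ.FiniteIndex := finiteIndex_of_exp hρ Λ fun γ X hX e => by
    change Commute _ _
    rw [← e]
    exact Commute.exp_left (hc X hX)
  let V : Submodule ℂ (Fin N → ℂ) := Module.End.eigenspace (Matrix.toLin' (cx Z)) μ
  have hV : ∀ w, w ∈ V ↔ cx Z *ᵥ w = μ • w := fun w => Module.End.mem_eigenspace_iff
  obtain ⟨B, C, hCB, hB, hBC⟩ := exists_frame V
  have hr : finrank ℂ V ≠ 0 := fun h => hv (by
    have := (hV v).2 he
    rwa [Submodule.finrank_eq_zero.1 h, Submodule.mem_bot] at this)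
  let χ : Λ →* ℂ :=
    { toFun := fun γ => (C * cx (ρ γ) * B).det
      map_one' := by simp [hCB]
      map_mul' := fun γ δ => by
        have e : B * (C * (cx (ρ δ) * B)) = cx (ρ δ) * B := by
          refine Matrix.toLin'.injective (LinearMap.ext fun w => ?_)
          simp only [Matrix.toLin'_apply, ← Matrix.mulVec_mulVec]
          refine hBC _ ((hV _).2 ?_)
          rw [Matrix.mulVec_mulVec, ← map_mul, ← (show Commute _ _ from δ.2).eq, map_mul,
            ← Matrix.mulVec_mulVec, (hV _).1 (hB w), Matrix.mulVec_smul]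
        rw [← Matrix.det_mul, Subgroup.coe_mul, map_mul, map_mul]
        simp only [Matrix.mul_assoc, e] }
  obtain ⟨e, he0, hχ⟩ := (h Λ this).exists_exponent χ.toHomUnits
  have hcx : Continuous (cx : Mat N → Matrix (Fin N) (Fin N) ℂ) :=
    cx.toLinearMap.continuous_of_finiteDimensional
  have h1 : ∀ t : ℝ, Complex.exp (t * (μ * (finrank ℂ V * e))) = 1 := by
    intro t
    have h2 := exp_mem_of_finiteIndex hρ Λ (P := {A | (C * cx A * B).det ^ e = 1})
      (isClosed_eq (((continuous_const.matrix_mul hcx).matrix_mul continuous_const).matrix_det.pow e)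
        continuous_const) (fun γ hγ => congrArg Units.val (hχ ⟨γ, hγ⟩)) hZ t
    have h3 : cx (exp (t • Z)) * B = Complex.exp (t * μ) • B := by
      refine Matrix.toLin'.injective (LinearMap.ext fun w => ?_)
      simp only [Matrix.toLin'_apply, ← Matrix.mulVec_mulVec, Matrix.smul_mulVec]
      exact cx_exp_mulVec ((hV _).1 (hB w)) t
    rw [mem_ofPred_eq, Matrix.mul_assoc, h3, Matrix.mul_smul, hCB, Matrix.det_smul, Matrix.det_one,
      mul_one, Fintype.card_fin, ← pow_mul, ← Complex.exp_nat_mul] at h2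
    rw [← h2]
    congr 1
    push_cast
    ring
  have h4 := ((Complex.ofRealCLM.hasDerivAt (x := 0)).mul_const (μ * (finrank ℂ V * e))).cexp
  simp only [Complex.ofRealCLM_apply, h1] at h4
  have h5 := h4.unique (hasDerivAt_const _ _)
  simp [hμ, hr, he0] at h5

end Pool.Agent.P.MP_d483fb_an.Z.SR

end

end

section

/-! From superrigidity for simple targets to the codimension bound for compact targets. -/

open Set Filter Topology NormedSpace Module
open scoped Matrix Matrix.Norms.Operator TensorProduct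

set_option linter.unusedSectionVars false

attribute [local instance 100] LieRing.ofAssociativeRing

noncomputable section

namespace Pool.Agent.P.MP_d483fb_an.Z.SR

theorem exists_surj_of_rigid {N : ℕ} {Γ : Type} [Group Γ] {ρ : Γ →* Mat N}
    (hρ : ∀ γ, ρ γ * (ρ γ)ᵀ = 1) {𝔤 : Type} [LieRing 𝔤] [LieAlgebra ℝ 𝔤]
    (h : ∀ Λ : Subgroup Γ, Λ.FiniteIndex → Rigid Λ 𝔤) {L : Type} [LieRing L] [LieAlgebra ℝ L]
    [Module.Finite ℝ L] [hs : LieAlgebra.IsSimple ℝ L] (ι : L →ₗ⁅ℝ⁆ Mat N)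
    (hι : Function.Injective ι) (hl : ∀ X, ι X ∈ lieAlg (closure (range ρ)))
    (hn : ∀ X ∈ lieAlg (closure (range ρ)), ∀ Y, ∃ Z, ι Z = ⁅X, ι Y⁆) :
    ∃ φ : ℂ ⊗[ℝ] 𝔤 →ₗ⁅ℂ⁆ ℂ ⊗[ℝ] L, Function.Surjective φ := by
  have hS := oGrp_closure hρ
  have hρ' : ∀ γ, (ρ γ)ᵀ * ρ γ = 1 := fun γ => mul_eq_one_comm.1 (hρ γ)
  obtain ⟨B, hB, hBe⟩ := cpt_of_hom ι hι fun X => hS.skew (hl X)
  have := hB.isSimple_cx
  obtain ⟨b, hb⟩ := hB.exists_basis
  let v : Submodule ℝ (Mat N) := LinearMap.range (ι : L →ₗ[ℝ] Mat N)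
  have hexp : ∀ X ∈ lieAlg (closure (range ρ)), (exp X)ᵀ = exp (-X) := fun X hX =>
    (Matrix.exp_transpose X).symm.trans (congrArg exp (hS.skew hX))
  let Λ : Subgroup Γ :=
    { carrier := {γ | ∀ Y ∈ v, ρ γ * Y * ρ γ⁻¹ ∈ v ∧ ρ γ⁻¹ * Y * ρ γ ∈ v}
      one_mem' := fun Y hY => by simpa using hY
      mul_mem' := fun {γ δ} h1 h2 Y hY => by
        have a := (h1 _ (h2 Y hY).1).1
        have a' := (h2 _ (h1 Y hY).2).2
        simp only [mul_inv_rev, map_mul, mul_assoc] at a a' ⊢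
        exact ⟨a, a'⟩
      inv_mem' := fun {γ} h1 Y hY => by
        rw [inv_inv]
        exact (h1 Y hY).symm }
  have hΛ : Λ.FiniteIndex := finiteIndex_of_exp hρ Λ fun γ X hX e Y hY => by
    have a : ∀ X ∈ lieAlg (closure (range ρ)), exp X * Y * exp (-X) ∈ v := fun X hX =>
      conj_mem v.closed_of_finiteDimensional (by rintro _ ⟨Z, rfl⟩; exact hn X hX Z) hY
    have a' := a _ (neg_mem hX)
    rw [neg_neg] at a'
    rw [rho_inv hρ, ← e, hexp X hX]
    exact ⟨a X hX, a'⟩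
  obtain ⟨p, hp⟩ := (ι : L →ₗ[ℝ] Mat N).exists_leftInverse_of_injective
    (LinearMap.ker_eq_bot.2 hι)
  have hp' : ∀ Y ∈ v, ι (p Y) = Y := by
    rintro _ ⟨Z, rfl⟩
    exact congrArg ι (LinearMap.congr_fun hp Z)
  let T0 : Λ → Module.End ℝ L := fun γ =>
    p ∘ₗ LinearMap.mulLeftRight ℝ (ρ γ, ρ (γ : Γ)⁻¹) ∘ₗ (ι : L →ₗ[ℝ] Mat N)
  have hT0 : ∀ γ Y, ι (T0 γ Y) = ρ γ * ι Y * ρ (γ : Γ)⁻¹ := fun γ Y => hp' _ (γ.2 _ ⟨Y, rfl⟩).1
  let T : Λ →* Module.End ℝ L :=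
    { toFun := T0
      map_one' := LinearMap.ext fun Y => hι (by simp [hT0])
      map_mul' := fun γ δ => LinearMap.ext fun Y => hι (by simp [hT0, mul_assoc]) }
  have hT : ∀ γ Y, ι (T γ Y) = ρ γ * ι Y * (ρ γ)ᵀ := fun γ Y => rho_inv hρ γ ▸ hT0 γ Y
  have hTl : ∀ γ X Y, T γ ⁅X, Y⁆ = ⁅T γ X, T γ Y⁆ := fun γ X Y => hι (by
    simp only [hT, LieHom.map_lie, LieRing.of_associative_ring_bracket, mul_sub, sub_mul, mul_assoc,
      ← mul_assoc (ρ γ)ᵀ, hρ', one_mul])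
  have hTB : ∀ γ X Y, B (T γ X) Y = B X (T γ⁻¹ Y) := by
    intro γ X Y
    rw [hBe, hBe, hT, hT, Subgroup.coe_inv, rho_inv hρ]
    simp only [Matrix.transpose_mul, Matrix.transpose_transpose, mul_assoc]
    rw [Matrix.trace_mul_comm (ρ γ)]
    simp only [mul_assoc]
  let π : Λ →* Module.End ℂ (ℂ ⊗[ℝ] L) := (Module.End.baseChangeHom ℝ ℂ L).toMonoidHom.comp T
  have hπ : ∀ γ (c : ℂ) X, π γ (c ⊗ₜ[ℝ] X) = c ⊗ₜ[ℝ] T γ X := fun _ _ _ => rfl
  refine h Λ hΛ (ℂ ⊗[ℝ] L) _ (Algebra.TensorProduct.basis ℂ b) π (fun γ x y => ?_) (fun γ => ?_)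
    (fun W hW => ?_) fun hfin => ?_
  · exact (bcHom { T γ with map_lie' := hTl γ _ _ }).map_lie x y
  · have e : ∀ γ, LinearMap.toMatrix (Algebra.TensorProduct.basis ℂ b)
        (Algebra.TensorProduct.basis ℂ b) (π γ) =
          (LinearMap.toMatrix b b (T γ)).map (algebraMap ℝ ℂ) := fun γ =>
      LinearMap.toMatrix_baseChange ℂ (T γ) b b
    have e2 : star (LinearMap.toMatrix (Algebra.TensorProduct.basis ℂ b)
        (Algebra.TensorProduct.basis ℂ b) (π γ)) = LinearMap.toMatrix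
          (Algebra.TensorProduct.basis ℂ b) (Algebra.TensorProduct.basis ℂ b) (π γ⁻¹) := by
      rw [e, e]
      ext i j
      simp only [Matrix.star_apply, Matrix.map_apply, LinearMap.toMatrix_apply, hb,
        Complex.coe_algebraMap, Complex.star_def, Complex.conj_ofReal]
      rw [← hTB, hB.symm]
    rw [Matrix.mem_unitaryGroup_iff, e2, ← LinearMap.toMatrix_mul, ← map_mul, mul_inv_cancel,
      map_one, LinearMap.toMatrix_one]
  · let j : Mat N × Mat N →ₗ[ℝ] ℂ ⊗[ℝ] L :=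
      (TensorProduct.mk ℝ ℂ L 1 ∘ₗ p).coprod (TensorProduct.mk ℝ ℂ L Complex.I ∘ₗ p)
    have hj : ∀ A A' : L, j (ι A, ι A') = (1 : ℂ) ⊗ₜ[ℝ] A + Complex.I • (1 : ℂ) ⊗ₜ[ℝ] A' := by
      intro A A'
      have : ∀ A, p (ι A) = A := LinearMap.congr_fun hp
      simp [j, this, TensorProduct.smul_tmul']
    let V : Submodule ℝ (Mat N × Mat N) := (W.restrictScalars ℝ).comap j
    have key : ∀ X : L, ∀ z ∈ W, ⁅(1 : ℂ) ⊗ₜ[ℝ] X, z⁆ ∈ W := by
      intro X z hz
      obtain ⟨A, A', rfl⟩ := exists_re_im z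
      have h1 : ∀ t : ℝ, (exp (t • ι X) * ι A * exp (-(t • ι X)),
          exp (t • ι X) * ι A' * exp (-(t • ι X))) ∈ V := by
        intro t
        rw [← hexp _ ((lieAlg _).smul_mem t (hl X))]
        refine exp_mem_of_finiteIndex hρ Λ (P := {M | (M * ι A * Mᵀ, M * ι A' * Mᵀ) ∈ V})
          (V.closed_of_finiteDimensional.preimage (by fun_prop)) (fun γ hγ => ?_) (hl X) t
        change j _ ∈ W
        have := hW ⟨γ, hγ⟩ _ hz
        rwa [map_add, map_smul, hπ, hπ, ← hj, hT, hT] at this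
      have h2 := deriv_mem V h1 ((hasDerivAt_conj (ι X) (ι A) 0).prodMk
        (hasDerivAt_conj (ι X) (ι A') 0))
      simp only [zero_smul, neg_zero, exp_zero, one_mul, mul_one] at h2
      have h3 : j (ι ⁅X, A⁆, ι ⁅X, A'⁆) ∈ W := by
        rw [LieHom.map_lie, LieHom.map_lie]
        exact h2
      have e := (LieAlgebra.ad ℂ (ℂ ⊗[ℝ] L) ((1 : ℂ) ⊗ₜ[ℝ] X)).map_add ((1 : ℂ) ⊗ₜ[ℝ] A)
        (Complex.I • (1 : ℂ) ⊗ₜ[ℝ] A')
      rw [map_smul] at e
      simp only [LieAlgebra.ad_apply, LieAlgebra.ExtendScalars.bracket_tmul, mul_one] at e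
      rwa [hj, ← e] at h3
    let J : LieIdeal ℂ (ℂ ⊗[ℝ] L) :=
      { W with
        lie_mem := fun {x z} hz => by
          obtain ⟨A, A', rfl⟩ := exists_re_im x
          have e := add_lie ((1 : ℂ) ⊗ₜ[ℝ] A) (Complex.I • (1 : ℂ) ⊗ₜ[ℝ] A') z
          have e' := smul_lie Complex.I ((1 : ℂ) ⊗ₜ[ℝ] A') z
          change _ ∈ W
          rw [e, e']
          exact W.add_mem (key A z hz) (W.smul_mem _ (key A' z hz)) }
    exact (LieAlgebra.IsSimple.eq_bot_or_eq_top J).imp (congrArg LieSubmodule.toSubmodule)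
      (congrArg LieSubmodule.toSubmodule)
  · have : Finite π.toHomUnits.range := by
      have := hfin.to_subtype
      refine Finite.of_injective (β := range π) (fun u => ⟨u.1.1, by
        obtain ⟨γ, hγ⟩ := u.2
        exact ⟨γ, congrArg Units.val hγ⟩⟩) fun u u' e => ?_
      exact Subtype.ext (Units.ext (congrArg Subtype.val e))
    have : (π.toHomUnits.ker.map Λ.subtype).FiniteIndex := ⟨by
      rw [Subgroup.index_map_subtype]
      exact mul_ne_zero Subgroup.FiniteIndex.index_ne_zero Subgroup.FiniteIndex.index_ne_zero⟩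
    refine hs.non_abelian ⟨fun X Y => hι ?_⟩
    have h1 : ∀ t : ℝ, exp (t • ι X) * ι Y * exp (-(t • ι X)) - ι Y ∈ (⊥ : Submodule ℝ (Mat N)) := by
      intro t
      rw [← hexp _ ((lieAlg _).smul_mem t (hl X)), Submodule.mem_bot, sub_eq_zero]
      refine exp_mem_of_finiteIndex hρ (π.toHomUnits.ker.map Λ.subtype)
        (P := {M | M * ι Y * Mᵀ = ι Y}) (isClosed_eq (by fun_prop) continuous_const) ?_ (hl X) t
      rintro _ ⟨γ, hγ, rfl⟩
      have h2 : π γ = 1 := congrArg Units.val (MonoidHom.mem_ker.1 hγ)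
      have h3 := hπ γ 1 Y
      rw [h2, Module.End.one_apply, ← sub_eq_zero, ← TensorProduct.tmul_sub] at h3
      exact (hT γ Y).symm.trans (congrArg ι (sub_eq_zero.1 (one_tmul_eq_zero h3)).symm)
    have h2 := deriv_mem _ h1 ((hasDerivAt_conj (ι X) (ι Y) 0).sub_const (ι Y))
    simp only [zero_smul, neg_zero, exp_zero, one_mul, mul_one, Submodule.mem_bot] at h2
    rw [LieHom.map_lie, map_zero]
    exact h2

theorem srd_of_rigid {G : Type} [Group G] [TopologicalSpace G] {n m N : ℕ} (D : HigherRank G n)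
    (hd : D.ltD m) {Λ : Type} [Group Λ] [Group.FG Λ] (ρ : Λ →* Mat N)
    (ho : ∀ γ, ρ γ * (ρ γ)ᵀ = 1)
    (h : ∀ Λ₀ : Subgroup Λ, Λ₀.FiniteIndex → NoChar Λ₀ ∧ Rigid Λ₀ (lieAlg (range D.ρ)))
    (c : LieSubalgebra ℝ (Mat N)) (hc : c ≤ lieAlg (closure (range ρ)))
    (hm : Module.finrank ℝ (lieAlg (closure (range ρ))) - Module.finrank ℝ c ≤ m) :
    c = lieAlg (closure (range ρ)) := by
  set l := lieAlg (closure (range ρ)) with hl
  obtain ⟨B, hB⟩ := cpt_of_skew l fun X hX => (oGrp_closure ho).skew hX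
  have := hB.isSemisimple fun Z hZ => Subtype.ext (central_eq_zero ho (fun Λ₀ a => (h Λ₀ a).1) Z.2
    fun X hX => sub_eq_zero.1 (congrArg Subtype.val (hZ ⟨X, hX⟩)))
  refine le_antisymm hc ?_
  by_contra hn
  obtain ⟨k, hk, hkc⟩ : ∃ k : LieIdeal ℝ l, IsAtom k ∧
      ¬k.toSubmodule ≤ c.toSubmodule.comap l.toSubmodule.subtype := by
    by_contra hk
    push Not at hk
    refine hn fun X hX => ?_
    have h1 : (⟨X, hX⟩ : l) ∈ (sSup {I : LieIdeal ℝ l | IsAtom I}).toSubmodule := by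
      rw [LieAlgebra.IsSemisimple.sSup_atoms_eq_top]
      exact LieSubmodule.mem_top _
    rw [LieSubmodule.sSup_toSubmodule] at h1
    refine (sSup_le ?_ : _ ≤ c.toSubmodule.comap l.toSubmodule.subtype) h1
    rintro _ ⟨I, hI, rfl⟩
    exact hk I hI
  have := LieAlgebra.IsSemisimple.isSimple_of_isAtom k hk
  let ι : k →ₗ⁅ℝ⁆ Mat N := l.incl.comp k.incl
  have hι : Function.Injective ι := Subtype.val_injective.comp Subtype.val_injective
  obtain ⟨φ, hφ⟩ := exists_surj_of_rigid ho (fun Λ₀ a => (h Λ₀ a).2) ι hι (fun X => X.1.2)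
    fun X hX Y => ⟨⟨⁅(⟨X, hX⟩ : l), Y.1⁆, k.lie_mem Y.2⟩, rfl⟩
  obtain ⟨B1, hB1, -⟩ := cpt_of_hom ι hι fun X => (oGrp_closure ho).skew X.1.2
  have := hB1.isSimple_cx
  obtain ⟨I, hI, ⟨e⟩⟩ := exists_atom_equiv D φ hφ
  let v : Submodule ℝ (Mat N) := LinearMap.range (ι : k →ₗ[ℝ] Mat N)
  have h1 := codim_gt D hd hB1 I hI e (c.toSubmodule.comap (ι : k →ₗ[ℝ] Mat N))
    (fun X hX Y hY => c.lie_mem hX hY) fun ht => hkc fun X hX =>
      (show (⟨X, hX⟩ : k) ∈ c.toSubmodule.comap (ι : k →ₗ[ℝ] Mat N) from ht ▸ Submodule.mem_top)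
  have h2 := Submodule.finrank_sup_add_finrank_inf_eq v c.toSubmodule
  have h3 : finrank ℝ (v ⊔ c.toSubmodule : Submodule ℝ (Mat N)) ≤ finrank ℝ l.toSubmodule :=
    Submodule.finrank_mono (sup_le (by rintro _ ⟨X, rfl⟩; exact X.1.2) hc)
  have h4 : finrank ℝ v = finrank ℝ k := LinearMap.finrank_range_of_inj hι
  have h5 : finrank ℝ (v ⊓ c.toSubmodule : Submodule ℝ (Mat N)) =
      finrank ℝ (c.toSubmodule.comap (ι : k →ₗ[ℝ] Mat N)) := by
    rw [← Submodule.map_comap_eq]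
    exact (Submodule.equivMapOfInjective _ hι _).finrank_eq.symm
  have h6 : finrank ℝ l.toSubmodule - finrank ℝ c.toSubmodule ≤ m := hm
  omega

theorem srd {G : Type} [Group G] [TopologicalSpace G] {n m : ℕ} (D : HigherRank G n)
    (hd : D.ltD m) {Λ : Type} [Group Λ] [Group.FG Λ]
    (h : ∀ Λ₀ : Subgroup Λ, Λ₀.FiniteIndex → NoChar Λ₀ ∧ Rigid Λ₀ (lieAlg (range D.ρ))) :
    SRd Λ m := fun _ ρ ho c hc hm => srd_of_rigid D hd ρ ho h c hc hm

theorem SRd.finite {Λ : Type} [Group Λ] {m N : ℕ} (h : SRd Λ m) (ρ : Λ →* Mat N)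
    (ho : ∀ γ, ρ γ * (ρ γ)ᵀ = 1) (Y : Set (Fin N → ℝ)) (hY : IsClosed Y)
    (hinv : ∀ γ, ∀ y ∈ Y, ρ γ *ᵥ y ∈ Y) (hspan : Submodule.span ℝ Y = ⊤) (hdim : dimH Y ≤ m) :
    (range ρ).Finite := by
  refine finite_of_lieAlg_eq_bot ho (eq_bot_iff.2 fun X hX => ?_)
  set l := lieAlg (closure (range ρ)) with hl
  refine Matrix.toLin'.map_eq_zero_iff.1 (LinearMap.ext_on hspan fun y hy => ?_)
  let T : l →ₗ[ℝ] Fin N → ℝ := (evL y : Mat N →ₗ[ℝ] Fin N → ℝ) ∘ₗ l.toSubmodule.subtype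
  let c : LieSubalgebra ℝ (Mat N) :=
    { (LinearMap.ker T).map l.toSubmodule.subtype with
      lie_mem' := by
        rintro _ _ ⟨A, hA : A.1 *ᵥ y = 0, rfl⟩ ⟨A', hA' : A'.1 *ᵥ y = 0, rfl⟩
        refine ⟨⟨⁅A.1, A'.1⁆, l.lie_mem A.2 A'.2⟩, show (A.1 * A'.1 - A'.1 * A.1) *ᵥ y = 0 from ?_, rfl⟩
        rw [Matrix.sub_mulVec, ← Matrix.mulVec_mulVec, ← Matrix.mulVec_mulVec, hA, hA']
        simp }
  have h1 : (finrank ℝ (LinearMap.range T) : ENNReal) ≤ m := by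
    refine (rank_le_dimH l.toSubmodule.subtype y fun A => ?_).trans hdim
    exact closure_minimal (t := evL y ⁻¹' Y) (by rintro _ ⟨γ, rfl⟩; exact hinv γ y hy)
      (hY.preimage (evL y).continuous) ((oGrp_closure ho).exp_mem A.2)
  have h2 := T.finrank_range_add_finrank_ker
  have h3 : finrank ℝ c = finrank ℝ (LinearMap.ker T) :=
    (Submodule.equivMapOfInjective _ l.toSubmodule.injective_subtype _).finrank_eq.symm
  have h4 : finrank ℝ (LinearMap.range T) ≤ m := by exact_mod_cast h1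
  have h5 := h N ρ ho c (by rintro _ ⟨A, -, rfl⟩; exact A.2) (by rw [← hl]; omega)
  obtain ⟨A, hA, rfl⟩ : X ∈ c := h5 ▸ hX
  exact hA

theorem SRd.finite_of_le {Λ : Type} [Group Λ] {m N : ℕ} (h : SRd Λ m) (hN : N ≤ m)
    (ρ : Λ →* Mat N) (ho : ∀ γ, ρ γ * (ρ γ)ᵀ = 1) : (range ρ).Finite :=
  h.finite ρ ho univ isClosed_univ (fun _ _ _ => mem_univ _) Submodule.span_univ
    (by rw [Real.dimH_univ_pi_fin]; exact_mod_cast hN)

theorem finite_of_rigid {G : Type} [Group G] [TopologicalSpace G] {n m N : ℕ} (D : HigherRank G n)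
    (hd : D.ltD m) {Λ : Type} [Group Λ] [Group.FG Λ] (ρ : Λ →* Mat N)
    (ho : ∀ γ, ρ γ * (ρ γ)ᵀ = 1) (Y : Set (Fin N → ℝ)) (hY : IsClosed Y)
    (hinv : ∀ γ, ∀ y ∈ Y, ρ γ *ᵥ y ∈ Y) (hspan : Submodule.span ℝ Y = ⊤) (hdim : dimH Y ≤ m)
    (h : ∀ Λ₀ : Subgroup Λ, Λ₀.FiniteIndex → NoChar Λ₀ ∧ Rigid Λ₀ (lieAlg (range D.ρ))) :
    (range ρ).Finite :=
  (srd D hd h).finite ρ ho Y hY hinv hspan hdim

end Pool.Agent.P.MP_d483fb_an.Z.SR

end

end

section

/-! The dimension count for almost homomorphisms on a compact group. -/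

open scoped Matrix Matrix.Norms.Operator Topology
open NormedSpace Filter Set Module

noncomputable section

namespace Pool.Agent.P.MP_d483fb_an.Z.TZ

variable {K : Type} [Group K] [TopologicalSpace K] {E : Type} [NormedAddCommGroup E]
  [NormedSpace ℝ E] {K₀ : Subgroup K} {n : ℕ}

/-- Small subgroups lie in `K₀`. -/
theorem AlmHom.small (H : AlmHom E K₀) :
    ∃ U ∈ 𝓝 (1 : K), ∀ S : Subgroup K, (S : Set K) ⊆ U → S ≤ K₀ := by
  obtain ⟨U, hU, u, hb, hz, ha⟩ := H (1 / 4) (by norm_num)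
  refine ⟨U, hU, fun S hS h hh => (hz h (hS hh)).1 ?_⟩
  have h1 : ∀ j : ℕ, ∀ h ∈ S, (3 / 2) ^ j * ‖u h‖ ≤ 1 := by
    intro j
    induction j with
    | zero => intro h hh; simpa using hb h (hS hh)
    | succ j ih =>
      intro h hh
      have h2 := (sq_bounds (ha h (hS hh) h (hS hh) (hS (S.mul_mem hh hh)))).1
      refine le_trans ?_ (ih _ (S.mul_mem hh hh))
      rw [pow_succ, mul_assoc]
      gcongr
      linarith
  by_contra h0
  have h2 : 0 < ‖u h‖ := norm_pos_iff.2 h0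
  obtain ⟨j, hj⟩ := pow_unbounded_of_one_lt ‖u h‖⁻¹ (show (1 : ℝ) < 3 / 2 by norm_num)
  rw [inv_lt_iff_one_lt_mul₀ h2] at hj
  exact hj.not_ge (h1 j h hh)

theorem AlmHom.isClosed [IsTopologicalGroup K] (H : AlmHom E K₀) : IsClosed (K₀ : Set K) := by
  obtain ⟨U, hU, u, hb, hz, ha⟩ := H (1 / 4) (by norm_num)
  have hs : Tendsto (fun y : K => y * y) (𝓝 1) (𝓝 1) :=
    (continuous_id.mul continuous_id).tendsto' 1 1 (mul_one 1)
  have h1 : ∀ j : ℕ, ∀ᶠ y in 𝓝 (1 : K), (3 / 2) ^ j * ‖u y‖ ≤ 1 := by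
    intro j
    induction j with
    | zero => filter_upwards [hU] with y hy; simpa using hb y hy
    | succ j ih =>
      filter_upwards [hU, hs.eventually ih, hs.eventually hU] with y a1 a2 a3
      have h2 := (sq_bounds (ha y a1 y a1 a3)).1
      refine le_trans ?_ a2
      rw [pow_succ, mul_assoc]
      gcongr
      linarith
  have h2 : ∀ h ∈ closure (K₀ : Set K), h ∈ interior U → h ∈ K₀ := by
    intro h hc hi
    refine (hz h (interior_subset hi)).1 (by_contra fun h0 => ?_)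
    have h3 : 0 < ‖u h‖ := norm_pos_iff.2 h0
    obtain ⟨j, hj⟩ := pow_unbounded_of_one_lt (2 * ‖u h‖⁻¹) (show (1 : ℝ) < 3 / 2 by norm_num)
    have t : Tendsto (fun k : K => k⁻¹ * h) (𝓝 h) (𝓝 1) :=
      (continuous_inv.mul continuous_const).tendsto' h 1 (inv_mul_cancel h)
    obtain ⟨k, hk, ⟨a1, a2⟩, a3⟩ := ((mem_closure_iff_frequently.1 hc).and_eventually
      (((t.eventually (h1 j)).and (t.eventually hU)).and (mem_interior_iff_mem_nhds.1 hi))).exists
    have h4 := ha k a3 _ a2 (by rw [mul_inv_cancel_left]; exact interior_subset hi)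
    rw [mul_inv_cancel_left, (hz k a3).2 hk, sub_zero, norm_zero, zero_add] at h4
    have h5 := norm_sub_norm_le (u h) (u (k⁻¹ * h))
    have h6 : 2 * ‖u h‖⁻¹ * ‖u (k⁻¹ * h)‖ ≤ 1 := le_trans (by gcongr) a1
    rw [mul_assoc, mul_left_comm, inv_mul_le_iff₀ h3] at h6
    linarith
  refine isClosed_of_closure_subset fun h hc => ?_
  have t : Tendsto (fun k : K => k⁻¹ * h) (𝓝 h) (𝓝 1) :=
    (continuous_inv.mul continuous_const).tendsto' h 1 (inv_mul_cancel h)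
  obtain ⟨k, hk, a⟩ := ((mem_closure_iff_frequently.1 hc).and_eventually
    (t.eventually (interior_mem_nhds.2 hU))).exists
  have h3 : k⁻¹ * h ∈ K₀.topologicalClosure :=
    K₀.topologicalClosure.mul_mem (K₀.le_topologicalClosure (K₀.inv_mem hk)) hc
  have h4 := K₀.mul_mem hk (h2 _ h3 a)
  rwa [mul_inv_cancel_left] at h4

variable [IsTopologicalGroup K] [CompactSpace K]

theorem image_nhds (ρ : K →* Mat n) (hρ : Continuous ρ) {V : Set K} (hV : V ∈ 𝓝 (1 : K)) :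
    ∀ᶠ y in 𝓝 (1 : Mat n), y ∈ range ρ → y ∈ ρ '' V := by
  have h := hρ.isClosedMap.eventually_nhds_fiber (p := fun k => ρ k ∈ ρ '' V) 1 fun z hz => by
    have t : Tendsto (fun k : K => k * z⁻¹) (𝓝 z) (𝓝 1) :=
      (continuous_id.mul continuous_const).tendsto' z 1 (mul_inv_cancel z)
    filter_upwards [t.eventually hV] with k hk
    refine ⟨_, hk, ?_⟩
    have e : ρ z = 1 := hz
    rw [← mul_one (ρ (k * z⁻¹)), ← e, ← map_mul, inv_mul_cancel_right]
  filter_upwards [h] with y hy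
  rintro ⟨k, rfl⟩
  exact hy k rfl

omit [IsTopologicalGroup K] in
theorem grp_image (ρ : K →* Mat n) (hρ : Continuous ρ) (hc : IsClosed (K₀ : Set K)) :
    Grp (ρ '' K₀) where
  one := ⟨1, K₀.one_mem, map_one ρ⟩
  mul := by
    rintro _ ⟨a, ha, rfl⟩ _ ⟨b, hb, rfl⟩
    exact ⟨a * b, K₀.mul_mem ha hb, map_mul ρ a b⟩
  inv := by
    rintro _ ⟨a, ha, rfl⟩ y h
    refine ⟨a⁻¹, K₀.inv_mem ha, ?_⟩
    rw [← mul_one (ρ a⁻¹), ← h, ← mul_assoc, ← map_mul, inv_mul_cancel, map_one, one_mul]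
  closed := hρ.isClosedMap _ hc

omit [IsTopologicalGroup K] in
theorem matGrp_image (ρ : K →* Mat n) (hρ : Continuous ρ) (hc : IsClosed (K₀ : Set K)) :
    MatGrp (ρ '' K₀) :=
  MatGrp.of_isClosed (hρ.isClosedMap _ hc) (grp_image ρ hρ hc).one (grp_image ρ hρ hc).mul (by
    rintro _ ⟨a, ha, rfl⟩
    exact ⟨_, ⟨a⁻¹, K₀.inv_mem ha, rfl⟩, by rw [← map_mul, mul_inv_cancel, map_one]⟩)

omit [IsTopologicalGroup K] in
theorem matGrp_range (ρ : K →* Mat n) (hρ : Continuous ρ) : MatGrp (range ρ) := by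
  have h := matGrp_image (K₀ := ⊤) ρ hρ isClosed_univ
  rwa [Subgroup.coe_top, image_univ] at h

omit [NormedSpace ℝ E] in
theorem AlmHom.descend (H : AlmHom E K₀) (ρ : K →* Mat n) (hρ : Continuous ρ)
    (hk : ∀ k, ρ k = 1 → k ∈ K₀) (η : ℝ) (hη : 0 < η) :
    ∃ δ > 0, ∃ u : Mat n → E, AH (range ρ) (ρ '' K₀) η δ u := by
  classical
  obtain ⟨θ, h0, h1, h2⟩ : ∃ θ > 0, θ ≤ 1 / 2 ∧ 4 * θ ≤ η :=
    ⟨min (1 / 2) (η / 4), by positivity, min_le_left _ _, by linarith [min_le_right (1 / 2) (η / 4)]⟩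
  obtain ⟨U, hU, u, hb, hz, ha⟩ := H θ h0
  obtain ⟨V, hV, hVU⟩ : ∃ V ∈ 𝓝 (1 : K), ∀ a ∈ V, ∀ b ∈ V, ∀ c ∈ V,
      a ∈ U ∧ a * b ∈ U ∧ c⁻¹ * (a * b) ∈ U := by
    have t : Tendsto (fun p : K × K => p.1⁻¹ * p.2) (𝓝 (1, 1)) (𝓝 1) :=
      (continuous_fst.inv.mul continuous_snd).tendsto' _ 1 (by simp)
    obtain ⟨V₁, hV₁, V₂, hV₂, h⟩ := mem_nhds_prod_iff.1 (t.eventually hU)
    obtain ⟨V₃, hV₃, h'⟩ := exists_nhds_one_split (inter_mem hU hV₂)
    refine ⟨U ∩ (V₁ ∩ V₃), inter_mem hU (inter_mem hV₁ hV₃), fun a ha b hb c hc =>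
      ⟨ha.1, (h' a ha.2.2 b hb.2.2).1, ?_⟩⟩
    exact h (mk_mem_prod hc.2.1 (h' a ha.2.2 b hb.2.2).2)
  obtain ⟨δ, hδ, hO⟩ := sz_nhds (A := Mat n) (image_nhds ρ hρ hV)
  have hσ : ∀ y : Mat n, ∃ k, y ∈ range ρ → sz y ≤ δ → k ∈ V ∧ ρ k = y := fun y => by
    by_cases h : y ∈ range ρ ∧ sz y ≤ δ
    · obtain ⟨k, hk, e⟩ := hO y h.2 h.1
      exact ⟨k, fun _ _ => ⟨hk, e⟩⟩
    · exact ⟨1, fun a b => absurd ⟨a, b⟩ h⟩
  choose σ hσ using hσ
  have hm := (matGrp_range ρ hρ).mul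
  refine ⟨δ, hδ, fun y => u (σ y), hm, fun y hy h => ?_, fun y hy h h' => ?_,
    fun x hx y hy h => ?_⟩
  · have a := (hσ y hy h).1
    exact hb _ (hVU _ a _ a _ a).1
  · have a := (hσ y hy h).1
    exact ⟨σ y, (hz _ (hVU _ a _ a _ a).1).1 h', (hσ y hy h).2⟩
  · obtain ⟨a, ea⟩ := hσ x hx (by linarith [sz_nonneg y])
    obtain ⟨b, eb⟩ := hσ y hy (by linarith [sz_nonneg x])
    obtain ⟨c, ec⟩ := hσ (x * y) (hm x hx y hy) ((sz_mul x y).trans h)
    obtain ⟨m1, m2, m3⟩ := hVU _ a _ b _ c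
    have z : u ((σ (x * y))⁻¹ * (σ x * σ y)) = 0 := (hz _ m3).2 (hk _ (by
      rw [map_mul, map_mul, ea, eb, ← congrArg (ρ (σ (x * y))⁻¹ * ·) ec, ← map_mul,
        inv_mul_cancel, map_one]))
    have h3 := ha _ (hVU _ c _ c _ c).1 _ m3 (by rwa [mul_inv_cancel_left])
    rw [mul_inv_cancel_left, z, sub_zero, norm_zero, add_zero] at h3
    have h4 := ha _ m1 _ (hVU _ b _ b _ b).1 m2
    show ‖u (σ (x * y)) - u (σ x) - u (σ y)‖ ≤ η * (‖u (σ x)‖ + ‖u (σ y)‖)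
    generalize u (σ x * σ y) = p at h3 h4
    generalize u (σ (x * y)) = q at h3 ⊢
    generalize u (σ x) = v at h4 ⊢
    generalize u (σ y) = w at h4 ⊢
    have h5 : ‖q - v - w‖ ≤ ‖p - v - w‖ + ‖p - q‖ := by
      rw [show q - v - w = (p - v - w) - (p - q) by abel]
      exact norm_sub_le _ _
    have h6 : ‖q‖ ≤ ‖q - v - w‖ + ‖v‖ + ‖w‖ := by
      conv_lhs => rw [show q = (q - v - w) + v + w by abel]
      exact norm_add₃_le
    have h7 : θ * ‖q‖ ≤ θ * (‖q - v - w‖ + ‖v‖ + ‖w‖) := by gcongr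
    have h8 : θ * ‖q - v - w‖ ≤ 1 / 2 * ‖q - v - w‖ := by gcongr
    have h9 : 4 * θ * (‖v‖ + ‖w‖) ≤ η * (‖v‖ + ‖w‖) := by gcongr
    linarith

attribute [local instance 100] LieRing.ofAssociativeRing

/-- Lemma C. -/
theorem AlmHom.dim_le [FiniteDimensional ℝ E] (H : AlmHom E K₀) (ρ : K →* Mat n)
    (hρ : Continuous ρ) (hk : ∀ k, ρ k = 1 → k ∈ K₀) :
    finrank ℝ (lieAlg (range ρ)) ≤ finrank ℝ (lieAlg (ρ '' K₀)) + finrank ℝ E := by
  set l := (lieAlg (range ρ)).toSubmodule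
  set l₀ := (lieAlg (ρ '' K₀)).toSubmodule
  have hle : l₀ ≤ l := LieSubalgebra.lieSpan_mono fun X hX t => image_subset_range _ _ (hX t)
  obtain ⟨C, hC⟩ := l₀.exists_isCompl
  have h1 : finrank ℝ (C ⊓ l : Submodule ℝ (Mat n)) ≤ finrank ℝ E := by
    refine dim_core (A := Mat n) (grp_image ρ hρ H.isClosed) (fun X hX => ?_) (fun X hX h => ?_)
      (H.descend ρ hρ hk)
    · have h := (matGrp_range ρ hρ).mem_lieAlg.1 hX.2 1
      rwa [one_smul] at h
    · exact (Submodule.disjoint_def.1 hC.disjoint) X (LieSubalgebra.subset_lieSpan h) hX.1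
  have h2 : l₀ ⊔ C ⊓ l = l := by
    rw [← sup_inf_assoc_of_le C hle, hC.sup_eq_top, top_inf_eq]
  have h3 := Submodule.finrank_add_le_finrank_add_finrank l₀ (C ⊓ l)
  rw [h2] at h3
  exact h3.trans (Nat.add_le_add_left h1 _)

/-- A closed subgroup with the full Lie algebra is open. -/
theorem isOpen_of_lie (hc : IsClosed (K₀ : Set K))
    (ρ : K →* Mat n) (hρ : Continuous ρ) (hk : ∀ k, ρ k = 1 → k ∈ K₀)
    (h : lieAlg (range ρ) ≤ lieAlg (ρ '' K₀)) : IsOpen (K₀ : Set K) := by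
  refine K₀.isOpen_of_mem_nhds (g := 1) ?_
  have hL := matGrp_range ρ hρ
  have t : Tendsto ρ (𝓝 1) (𝓝 1) := hρ.tendsto' 1 1 (map_one ρ)
  filter_upwards [t.eventually (MatGrp.mlog_mem (A := Mat n) hL),
    t.eventually (exp_mlog (A := Mat n))] with k a1 a2
  have h1 := (matGrp_image ρ hρ hc).mem_lieAlg.1
    (h (hL.mem_lieAlg.2 (hL.mem_lieOf_mat.1 (a1 ⟨k, rfl⟩)))) 1
  rw [one_smul] at h1
  obtain ⟨k', hk', e⟩ := h1
  have h2 : ρ (k'⁻¹ * k) = 1 := by
    rw [map_mul, ← e.trans a2, ← map_mul, inv_mul_cancel, map_one]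
  have h3 := K₀.mul_mem hk' (hk _ h2)
  rwa [mul_inv_cancel_left] at h3

/-- Lemma C together with superrigidity: `K₀` is open. -/
theorem AlmHom.isOpen [FiniteDimensional ℝ E] (H : AlmHom E K₀) {Λ : Type} [Group Λ] (j : Λ →* K)
    (hj : DenseRange j) {m : ℕ} (hS : SR.SRd Λ m) (hm : finrank ℝ E ≤ m)
    (hA : ∀ U ∈ 𝓝 (1 : K), ∃ (n : ℕ) (ρ : K →* Mat n), Continuous ρ ∧
      (∀ k, ρ k * (ρ k)ᵀ = 1) ∧ ∀ k, ρ k = 1 → k ∈ U) : IsOpen (K₀ : Set K) := by
  obtain ⟨U, hU, hs⟩ := H.small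
  obtain ⟨n, ρ, hρ, ho, hk⟩ := hA U hU
  have hk' : ∀ k, ρ k = 1 → k ∈ K₀ := fun k h => hs ρ.ker (fun x hx => hk x hx) h
  have e : closure (range (ρ.comp j)) = range ρ := by
    refine (closure_minimal ?_ hρ.isClosedMap.isClosed_range).antisymm ?_
    · rintro _ ⟨γ, rfl⟩
      exact ⟨j γ, rfl⟩
    · rintro _ ⟨k, rfl⟩
      rw [MonoidHom.coe_comp, range_comp]
      exact image_closure_subset_closure_image hρ ⟨k, hj k, rfl⟩
  have h1 := hS n (ρ.comp j) (fun γ => ho _) (lieAlg (ρ '' K₀))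
  rw [e] at h1
  refine isOpen_of_lie H.isClosed ρ hρ hk' (h1 ?_ ?_).ge
  · exact LieSubalgebra.lieSpan_mono fun X hX t => image_subset_range _ _ (hX t)
  · have h2 := H.dim_le ρ hρ hk'
    omega

end Pool.Agent.P.MP_d483fb_an.Z.TZ

end

end
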