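import Pool.Agent.P.MP_d483fb_an.M.A12

section

/-!
The projection `pr χ` onto the entries of an extreme slope, and the complementary factor `al χ`.
-/

open scoped Matrix Matrix.Norms.Operator Topology
open Set Filter

noncomputable section

set_option linter.unusedSectionVars false

namespace Pool.Agent.P.MP_d483fb_an.Z

namespace Wt

variable {ι : Type} [Fintype ι] [DecidableEq ι] {w : Wt ι} {J : Set ℝ} {χ : ℝ}
  {n n' l l' : Matrix ι ι ℝ}

theorem Nil.entry (hn : w.Nil J n) {i j : ι} (h : n i j ≠ 0) :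
    i = j ∨ (w.wa j < w.wa i ∧ w.slope i j ∈ J) := by
  by_cases hij : i = j
  · exact Or.inl hij
  · refine Or.inr (hn i j ?_)
    simpa [Matrix.sub_apply, Matrix.one_apply_ne hij] using h

theorem Nil.diag_eq (hn : w.Nil J n) (i : ι) : n i i = 1 := by
  by_contra h
  have := (hn i i (by simpa [Matrix.sub_apply, sub_eq_zero] using h)).1
  exact lt_irrefl _ this

theorem nil_of_entry (h1 : ∀ i, n i i = 1)
    (h2 : ∀ i j, i ≠ j → n i j ≠ 0 → w.wa j < w.wa i ∧ w.slope i j ∈ J) : w.Nil J n := by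
  intro i j h
  by_cases hij : i = j
  · subst hij
    simp [Matrix.sub_apply, h1] at h
  · refine h2 i j hij ?_
    simpa [Matrix.sub_apply, Matrix.one_apply_ne hij] using h

theorem Extreme.exists_sign (h : Extreme J χ) :
    ∃ ε : ℝ, (ε = 1 ∨ ε = -1) ∧ ∀ σ ∈ J, 0 ≤ ε * (σ - χ) := by
  rcases h with h | h
  · exact ⟨1, Or.inl rfl, fun σ hσ => by linarith [h σ hσ]⟩
  · exact ⟨-1, Or.inr rfl, fun σ hσ => by linarith [h σ hσ]⟩

theorem Extreme.insert (h : Extreme J χ) : Extreme (insert χ J) χ := by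
  rcases h with h | h
  · exact Or.inl fun σ hσ => hσ.elim (fun e => e.ge) (h σ)
  · exact Or.inr fun σ hσ => hσ.elim (fun e => e.le) (h σ)

theorem Extreme.mono {J' : Set ℝ} (h : Extreme J χ) (hJ : J' ⊆ J) : Extreme J' χ :=
  h.imp (fun h σ hσ => h σ (hJ hσ)) fun h σ hσ => h σ (hJ hσ)

theorem extreme_singleton (χ : ℝ) : Extreme {χ} χ := Or.inl fun _ h => h.ge

theorem extreme_Ici (χ : ℝ) : Extreme (Ici χ) χ := Or.inl fun _ h => h

theorem extreme_Iic (χ : ℝ) : Extreme (Iic χ) χ := Or.inr fun _ h => h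

theorem Extreme.ordConnected_diff (h : Extreme J χ) (hJ : J.OrdConnected) :
    (J \ {χ}).OrdConnected := by
  refine ⟨fun x hx y hy z hz => ⟨hJ.out hx.1 hy.1 hz, fun e => ?_⟩⟩
  have e' : z = χ := e
  subst e'
  rcases h with h | h
  · exact hx.2 (le_antisymm hz.1 (h x hx.1))
  · exact hy.2 (le_antisymm (h y hy.1) hz.2)

theorem Extreme.slope_eq_iff (h : Extreme J χ) {i j k : ι} (hij : w.wa j < w.wa i)
    (hjk : w.wa k < w.wa j) (h1 : w.slope i j ∈ J) (h2 : w.slope j k ∈ J) :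
    w.slope i k = χ ↔ w.slope i j = χ ∧ w.slope j k = χ := by
  have e1 := slope_mul hij
  have e2 := slope_mul hjk
  have e3 := slope_mul (hjk.trans hij)
  have p1 := sub_pos.2 hij
  have p2 := sub_pos.2 hjk
  have p3 := sub_pos.2 (hjk.trans hij)
  have key : (w.slope i k - χ) * (w.wa i - w.wa k)
      = (w.slope i j - χ) * (w.wa i - w.wa j) + (w.slope j k - χ) * (w.wa j - w.wa k) := by
    linear_combination e3 - e1 - e2
  constructor
  · intro e
    rw [e, sub_self, zero_mul] at key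
    obtain ⟨ε, hε, hs⟩ := h.exists_sign
    have a1 := mul_nonneg (hs _ h1) p1.le
    have a2 := mul_nonneg (hs _ h2) p2.le
    have hε0 : ε ≠ 0 := by rcases hε with rfl | rfl <;> norm_num
    have b1 : ε * (w.slope i j - χ) * (w.wa i - w.wa j) = 0 := by
      have : ε * (w.slope i j - χ) * (w.wa i - w.wa j)
          + ε * (w.slope j k - χ) * (w.wa j - w.wa k) = 0 := by linear_combination (-ε) * key
      linarith
    have b2 : ε * (w.slope j k - χ) * (w.wa j - w.wa k) = 0 := by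
      have : ε * (w.slope i j - χ) * (w.wa i - w.wa j)
          + ε * (w.slope j k - χ) * (w.wa j - w.wa k) = 0 := by linear_combination (-ε) * key
      linarith
    simp only [mul_eq_zero, hε0, p1.ne', p2.ne', false_or, or_false, sub_eq_zero] at b1 b2
    exact ⟨b1, b2⟩
  · rintro ⟨a1, a2⟩
    rw [a1, a2, sub_self, zero_mul, zero_mul, add_zero, mul_eq_zero] at key
    exact sub_eq_zero.1 (key.resolve_right p3.ne')

theorem pr_apply (i j : ι) :
    w.pr χ n i j = if w.wa j < w.wa i ∧ w.slope i j ≠ χ then 0 else n i j := rfl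

theorem pr_diag (i : ι) : w.pr χ n i i = n i i := by simp [pr_apply]

theorem pr_pr : w.pr χ (w.pr χ n) = w.pr χ n := by
  ext i j
  simp only [pr_apply]
  split_ifs <;> rfl

theorem pr_one : w.pr χ (1 : Matrix ι ι ℝ) = 1 := by
  ext i j
  rw [pr_apply]
  split_ifs with h
  · rw [Matrix.one_apply_ne]
    rintro rfl
    exact lt_irrefl _ h.1
  · rfl

/-- `pr χ` as a linear map. -/
def prL (w : Wt ι) (χ : ℝ) : Matrix ι ι ℝ →ₗ[ℝ] Matrix ι ι ℝ where
  toFun := w.pr χ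
  map_add' a b := by
    ext i j
    simp only [pr_apply, Matrix.add_apply]
    split_ifs <;> simp
  map_smul' c a := by
    ext i j
    simp only [pr_apply, Matrix.smul_apply, RingHom.id_apply]
    split_ifs <;> simp

theorem continuous_pr : Continuous (w.pr χ) := by
  refine continuous_matrix fun i j => ?_
  simp only [pr_apply]
  split_ifs
  · exact continuous_const
  · exact continuous_id.matrix_elem i j

theorem measurable_pr : Measurable (w.pr χ) := continuous_pr.measurable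

theorem Nil.pr_inter (hn : w.Nil J n) : w.Nil (J ∩ {χ}) (w.pr χ n) := by
  refine nil_of_entry (fun i => by rw [pr_diag, hn.diag_eq]) fun i j hij h => ?_
  rw [pr_apply] at h
  split_ifs at h with hc
  · exact absurd rfl h
  · have h1 := (hn.entry h).resolve_left hij
    refine ⟨h1.1, h1.2, ?_⟩
    by_contra h2
    exact hc ⟨h1.1, h2⟩

theorem Nil.pr (hn : w.Nil J n) : w.Nil {χ} (w.pr χ n) := hn.pr_inter.mono inter_subset_right

theorem Nil.pr_same (hn : w.Nil J n) : w.Nil J (w.pr χ n) := hn.pr_inter.mono inter_subset_left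

theorem Nil.pr_eq_self (hn : w.Nil {χ} n) : w.pr χ n = n := by
  ext i j
  rw [pr_apply]
  split_ifs with h
  · by_contra h'
    rcases hn.entry (Ne.symm h') with rfl | h2
    · exact lt_irrefl _ h.1
    · exact h.2 h2.2
  · rfl

theorem Nil.pr_eq_one (hn : w.Nil (J \ {χ}) n) : w.pr χ n = 1 := by
  refine (hn.pr_inter (χ := χ)).mono ?_ |>.eq_one_of_empty
  rintro σ ⟨h1, h2⟩
  exact h1.2 h2

theorem Nil.pr_eq_one_iff (hn : w.Nil J n) : w.pr χ n = 1 ↔ w.Nil (J \ {χ}) n := by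
  refine ⟨fun h => nil_of_entry hn.diag_eq fun i j hij h1 => ?_, Nil.pr_eq_one⟩
  have h2 := (hn.entry h1).resolve_left hij
  refine ⟨h2.1, h2.2, fun h3 => ?_⟩
  have h4 : w.pr χ n i j = 0 := by rw [h, Matrix.one_apply_ne hij]
  rw [pr_apply, if_neg fun h5 => h5.2 h3] at h4
  exact h1 h4

/-- `pr χ` is a homomorphism on `Nil J` when `χ` is extreme. -/
theorem pr_mul (h : Extreme J χ) (hn : w.Nil J n) (hn' : w.Nil J n') :
    w.pr χ (n * n') = w.pr χ n * w.pr χ n' := by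
  ext i k
  have key : ∀ j, w.pr χ n i j * w.pr χ n' j k
      = if w.wa k < w.wa i ∧ w.slope i k ≠ χ then 0 else n i j * n' j k := by
    intro j
    by_cases h1 : n i j = 0
    · simp [pr_apply, h1]
    by_cases h2 : n' j k = 0
    · simp [pr_apply, h2]
    rcases hn.entry h1 with rfl | h3
    · rw [pr_diag, pr_apply]
      split_ifs <;> simp
    rcases hn'.entry h2 with rfl | h4
    · rw [pr_diag, pr_apply]
      split_ifs <;> simp
    have h5 := h.slope_eq_iff h3.1 h4.1 h3.2 h4.2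
    simp only [pr_apply, h3.1, h4.1, h4.1.trans h3.1, true_and, ne_eq, h5]
    by_cases a : w.slope i j = χ <;> by_cases b : w.slope j k = χ <;> simp [a, b]
  rw [Matrix.mul_apply, Finset.sum_congr rfl fun j _ => key j, pr_apply]
  split_ifs
  · simp
  · rw [Matrix.mul_apply]

theorem pr_inv (h : Extreme J χ) (hJ : J.OrdConnected) (hn : w.Nil J n) :
    w.pr χ n⁻¹ = (w.pr χ n)⁻¹ := by
  refine (Matrix.inv_eq_right_inv ?_).symm
  rw [← pr_mul h hn (hn.inv hJ), hn.mul_inv, pr_one]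

theorem pr_lev_mul (hl : w.Lev l) : w.pr χ (l * n) = l * w.pr χ n := by
  ext i k
  rw [pr_apply, Matrix.mul_apply, Matrix.mul_apply]
  have key : ∀ j, l i j * w.pr χ n j k
      = if w.wa k < w.wa i ∧ w.slope i k ≠ χ then 0 else l i j * n j k := by
    intro j
    by_cases h1 : l i j = 0
    · simp [h1]
    have h2 := hl i j h1
    rw [pr_apply, ← h2, ← slope_congr h2 rfl]
    split_ifs <;> simp
  rw [Finset.sum_congr rfl fun j _ => key j]
  split_ifs <;> simp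

theorem pr_mul_lev (hl : w.Lev l) : w.pr χ (n * l) = w.pr χ n * l := by
  ext i k
  rw [pr_apply, Matrix.mul_apply, Matrix.mul_apply]
  have key : ∀ j, w.pr χ n i j * l j k
      = if w.wa k < w.wa i ∧ w.slope i k ≠ χ then 0 else n i j * l j k := by
    intro j
    by_cases h1 : l j k = 0
    · simp [h1]
    have h2 := hl j k h1
    rw [pr_apply, h2, slope_congr rfl h2]
    split_ifs <;> simp
  rw [Finset.sum_congr rfl fun j _ => key j]
  split_ifs <;> simp

/-- `pr χ` commutes with multiplication by block diagonal matrices. -/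
theorem pr_conj (hl : w.Lev l) (hl' : w.Lev l') : w.pr χ (l * n * l') = l * w.pr χ n * l' := by
  rw [pr_mul_lev hl', pr_lev_mul hl]

theorem Nil.al_mul_pr (hn : w.Nil J n) : w.al χ n * w.pr χ n = n := by
  rw [al, mul_assoc, (hn.pr (χ := χ)).inv_mul, mul_one]

theorem Nil.al_univ (hn : w.Nil J n) : w.Nil Set.univ (w.al χ n) :=
  Nil.mul ordConnected_univ hn.univ (hn.pr.univ.inv ordConnected_univ)

theorem Nil.pr_al (h : Extreme J χ) (hJ : J.OrdConnected) (hn : w.Nil J n) :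
    w.pr χ (w.al χ n) = 1 := by
  rw [Wt.al, pr_mul h hn (hn.pr_same.inv hJ), pr_inv h hJ hn.pr_same, pr_pr,
    (hn.pr (χ := χ)).mul_inv]

theorem Nil.al_same (hJ : J.OrdConnected) (hn : w.Nil J n) : w.Nil J (w.al χ n) :=
  Nil.mul hJ hn (hn.pr_same.inv hJ)

theorem Nil.al (h : Extreme J χ) (hJ : J.OrdConnected) (hn : w.Nil J n) :
    w.Nil (J \ {χ}) (w.al χ n) :=
  (hn.al_same hJ).pr_eq_one_iff.1 (hn.pr_al h hJ)

theorem Nil.al_eq_self (hn : w.Nil (J \ {χ}) n) : w.al χ n = n := by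
  rw [Wt.al, hn.pr_eq_one, inv_one, mul_one]

theorem Nil.al_eq_one (hn : w.Nil {χ} n) : w.al χ n = 1 := by
  rw [Wt.al, hn.pr_eq_self, hn.mul_inv]

theorem Nil.al_eq_one_iff (hn : w.Nil J n) : w.al χ n = 1 ↔ w.Nil {χ} n := by
  refine ⟨fun h => ?_, Nil.al_eq_one⟩
  have h1 := hn.al_mul_pr (χ := χ)
  rw [h, one_mul] at h1
  rw [← h1]
  exact hn.pr

variable {a s : Matrix ι ι ℝ}

theorem pr_mul_right (h : Extreme J χ) (hn : w.Nil J n) (hs : w.Nil {χ} s) :
    w.pr χ (n * s) = w.pr χ n * s := by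
  rw [pr_mul h.insert (hn.mono (subset_insert _ _))
    (hs.mono (singleton_subset_iff.2 (mem_insert _ _))), hs.pr_eq_self]

theorem pr_mul_left (h : Extreme J χ) (hs : w.Nil {χ} s) (hn : w.Nil J n) :
    w.pr χ (s * n) = s * w.pr χ n := by
  rw [pr_mul h.insert (hs.mono (singleton_subset_iff.2 (mem_insert _ _)))
    (hn.mono (subset_insert _ _)), hs.pr_eq_self]

theorem pr_mul_eq (h : Extreme J χ) (ha : w.Nil (J \ {χ}) a) (hs : w.Nil {χ} s) :
    w.pr χ (a * s) = s := by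
  rw [pr_mul_right h (ha.mono sdiff_subset) hs, ha.pr_eq_one, one_mul]

theorem al_mul_eq (h : Extreme J χ) (ha : w.Nil (J \ {χ}) a) (hs : w.Nil {χ} s) :
    w.al χ (a * s) = a := by
  rw [Wt.al, pr_mul_eq h ha hs, mul_assoc, hs.mul_inv, mul_one]

theorem al_mul_right (h : Extreme J χ) (hn : w.Nil J n) (hs : w.Nil {χ} s) :
    w.al χ (n * s) = w.al χ n := by
  rw [Wt.al, Wt.al, pr_mul_right h hn hs, Matrix.mul_inv_rev, mul_assoc, ← mul_assoc s, hs.mul_inv,
    one_mul]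

theorem pr_ker_mul (h : Extreme J χ) (ha : w.Nil (J \ {χ}) a) (hn : w.Nil J n) :
    w.pr χ (a * n) = w.pr χ n := by
  rw [pr_mul h (ha.mono sdiff_subset) hn, ha.pr_eq_one, one_mul]

theorem al_ker_mul (h : Extreme J χ) (ha : w.Nil (J \ {χ}) a) (hn : w.Nil J n) :
    w.al χ (a * n) = a * w.al χ n := by
  rw [Wt.al, Wt.al, pr_ker_mul h ha hn, mul_assoc]

theorem al_mul (h : Extreme J χ) (hn : w.Nil J n) (hn' : w.Nil J n') :
    w.al χ (n * n') = n * w.al χ n' * (w.pr χ n)⁻¹ := by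
  rw [Wt.al, Wt.al, pr_mul h hn hn', Matrix.mul_inv_rev]
  simp only [mul_assoc]

/-- Two elements have the same `pr` iff they differ by an element of the kernel. -/
theorem pr_eq_iff (h : Extreme J χ) (hJ : J.OrdConnected) (hn : w.Nil J n) (hn' : w.Nil J n') :
    w.pr χ n = w.pr χ n' ↔ w.Nil (J \ {χ}) (n⁻¹ * n') := by
  rw [← (Nil.mul hJ (hn.inv hJ) hn').pr_eq_one_iff, pr_mul h (hn.inv hJ) hn', pr_inv h hJ hn]
  constructor
  · intro e
    rw [← e, (hn.pr (χ := χ)).inv_mul]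
  · intro e
    rw [← mul_one (w.pr χ n), ← e, ← mul_assoc, (hn.pr (χ := χ)).mul_inv, one_mul]

/-- Two elements have the same `al` iff they differ on the right by an element of slope `χ`. -/
theorem al_eq_iff (h : Extreme J χ) (hn : w.Nil J n) (hn' : w.Nil J n') :
    w.al χ n = w.al χ n' ↔ w.Nil {χ} (n⁻¹ * n') := by
  constructor
  · intro e
    have h1 : n⁻¹ * n' = (w.pr χ n)⁻¹ * w.pr χ n' := by
      conv_lhs => rw [← hn.al_mul_pr (χ := χ), ← hn'.al_mul_pr (χ := χ), Matrix.mul_inv_rev, ← e,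
        mul_assoc, ← mul_assoc _ (w.al χ n), (hn.al_univ (χ := χ)).inv_mul, one_mul]
    rw [h1]
    exact Nil.mul ordConnected_singleton (hn.pr.inv ordConnected_singleton) hn'.pr
  · intro e
    rw [← al_mul_right h hn e, ← mul_assoc, hn.mul_inv, one_mul]

theorem al_conj (hl : w.Lev l) (hu : IsUnit l.det) : w.al χ (l * n * l⁻¹) = l * w.al χ n * l⁻¹ := by
  rw [Wt.al, Wt.al, pr_conj hl hl.inv, Matrix.mul_inv_rev, Matrix.mul_inv_rev,
    Matrix.nonsing_inv_nonsing_inv _ hu]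
  simp only [mul_assoc]
  rw [← mul_assoc l⁻¹ l, Matrix.nonsing_inv_mul _ hu, one_mul]

theorem al_conj' (hl : w.Lev l) (e : l * l' = 1) :
    w.al χ (l * n * l') = l * w.al χ n * l' := by
  rw [← Matrix.inv_eq_right_inv e]
  exact al_conj hl (Matrix.isUnit_det_of_right_inverse e)

/-- Product form of a chart change: the `pr` part. -/
theorem pr_chart {x : Matrix ι ι ℝ} (h : Extreme J χ) (hn : w.Nil J n) (hl : w.Lev l)
    (hu : IsUnit l.det) (hx : w.Nil J x) :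
    w.pr χ (n * (l * x * l⁻¹)) = w.pr χ n * (l * w.pr χ x * l⁻¹) := by
  rw [pr_mul h hn (hx.conj_inv hl hu), pr_conj hl hl.inv]

/-- Product form of a chart change: the `al` part. -/
theorem al_chart {x : Matrix ι ι ℝ} (h : Extreme J χ) (hn : w.Nil J n) (hl : w.Lev l)
    (hu : IsUnit l.det) (hx : w.Nil J x) :
    w.al χ (n * (l * x * l⁻¹)) = n * (l * w.al χ x * l⁻¹) * (w.pr χ n)⁻¹ := by
  rw [al_mul h hn (hx.conj_inv hl hu), al_conj hl hu]

theorem dil_conj_apply_of_lt (σ τ : ℝ) {i j : ι} (hij : w.wa j < w.wa i) :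
    (w.dil σ τ * n * w.dil (-σ) (-τ)) i j
      = Real.exp ((σ + τ * w.slope i j) * (w.wa i - w.wa j)) * n i j := by
  rw [dil_conj_apply, ← slope_mul hij]
  congr 2
  ring

theorem dil_conj_apply_of_eq (σ τ : ℝ) {i j : ι} (hij : w.wa i = w.wa j) :
    (w.dil σ τ * n * w.dil (-σ) (-τ)) i j = n i j := by
  rw [dil_conj_apply, hij, w.hab _ _ hij]
  simp

/-- The dilations in the direction `(χ, -1)` commute with `Nil {χ}`. -/
theorem Nil.dil_conj_eq (hs : w.Nil {χ} s) (τ : ℝ) :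
    w.dil (τ * χ) (-τ) * s * w.dil (-(τ * χ)) (- -τ) = s := by
  ext i j
  by_cases h0 : s i j = 0
  · rw [dil_conj_apply, h0, mul_zero]
  rcases hs.entry h0 with rfl | h1
  · exact dil_conj_apply_of_eq _ _ rfl
  · have h2 : w.slope i j = χ := h1.2
    rw [dil_conj_apply_of_lt _ _ h1.1, h2]
    simp

/-- `pr χ` is a limit of conjugations by dilations. -/
theorem tendsto_dil_conj {ε : ℝ} (hε : ε ≠ 0) (h : ∀ σ ∈ J, 0 ≤ ε * (σ - χ)) (hn : w.Nil J n) :
    Tendsto (fun τ : ℝ => w.dil (τ * ε * χ) (-(τ * ε)) * n * w.dil (-(τ * ε * χ)) (- -(τ * ε)))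
      atTop (𝓝 (w.pr χ n)) := by
  refine tendsto_pi_nhds.2 fun i => tendsto_pi_nhds.2 fun j => ?_
  by_cases h0 : n i j = 0
  · simp only [dil_conj_apply, pr_apply, h0, mul_zero, ite_self]
    exact tendsto_const_nhds
  rcases hn.entry h0 with rfl | h1
  · simp only [dil_conj_apply_of_eq _ _ rfl, pr_diag]
    exact tendsto_const_nhds
  simp only [dil_conj_apply_of_lt _ _ h1.1, pr_apply]
  split_ifs with h2
  · have h3 : 0 < ε * (w.slope i j - χ) :=
      (h _ h1.2).lt_of_ne' (mul_ne_zero hε (sub_ne_zero.2 h2.2))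
    have h4 := mul_pos h3 (sub_pos.2 h1.1)
    have h5 := (Real.tendsto_exp_neg_atTop_nhds_zero.comp
      (tendsto_id.atTop_mul_const h4)).mul_const (n i j)
    rw [zero_mul] at h5
    refine h5.congr fun τ => ?_
    simp only [Function.comp_apply, id]
    congr 2
    ring
  · have h3 : w.slope i j = χ := by
      by_contra h4
      exact h2 ⟨h1.1, h4⟩
    simp [h3]

/-- Closed sets of matrices that are stable under products, inverses and dilations. -/
structure DilClosed (w : Wt ι) (S : Set (Matrix ι ι ℝ)) : Prop where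
  closed : IsClosed S
  mul : ∀ a ∈ S, ∀ b ∈ S, a * b ∈ S
  inv : ∀ a ∈ S, w.Nil Set.univ a → a⁻¹ ∈ S
  conj : ∀ σ τ, ∀ a ∈ S, w.dil σ τ * a * w.dil (-σ) (-τ) ∈ S

theorem DilClosed.pr_mem {S : Set (Matrix ι ι ℝ)} (hS : w.DilClosed S) (h : Extreme J χ)
    (hn : w.Nil J n) (hnS : n ∈ S) : w.pr χ n ∈ S := by
  obtain ⟨ε, hε, hs⟩ := h.exists_sign
  have hε0 : ε ≠ 0 := by rcases hε with rfl | rfl <;> norm_num
  exact hS.closed.mem_of_tendsto (tendsto_dil_conj hε0 hs hn)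
    (Eventually.of_forall fun τ => hS.conj _ _ _ hnS)

theorem DilClosed.al_mem {S : Set (Matrix ι ι ℝ)} (hS : w.DilClosed S) (h : Extreme J χ)
    (hn : w.Nil J n) (hnS : n ∈ S) : w.al χ n ∈ S :=
  hS.mul _ hnS _ (hS.inv _ (hS.pr_mem h hn hnS) hn.pr.univ)

variable (w) in
/-- The slopes different from `χ` stay away from `χ`. -/
theorem exists_slope_gap (χ : ℝ) :
    ∃ c : ℝ, 0 < c ∧ ∀ i j, w.slope i j ≠ χ → c ≤ |w.slope i j - χ| := by
  classical
  rcases (Finset.univ.filter fun p : ι × ι => w.slope p.1 p.2 ≠ χ).eq_empty_or_nonempty with h | h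
  · refine ⟨1, one_pos, fun i j hij => ?_⟩
    have : (i, j) ∈ Finset.univ.filter fun p : ι × ι => w.slope p.1 p.2 ≠ χ := by simpa using hij
    rw [h] at this
    simp at this
  · obtain ⟨p, hp, hmin⟩ := Finset.exists_min_image _ (fun p : ι × ι => |w.slope p.1 p.2 - χ|) h
    refine ⟨_, abs_pos.2 (sub_ne_zero.2 (Finset.mem_filter.1 hp).2), fun i j hij => ?_⟩
    exact hmin (i, j) (by simpa using hij)

end Wt

end Pool.Agent.P.MP_d483fb_an.Z

end

end

section

/-!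
Polynomial maps of matrices, and the factorisation `n = facL U n * facR U n` of a unipotent matrix
along a cut `U` of the slopes.
-/

open scoped Matrix Matrix.Norms.Operator Topology
open Set Filter

noncomputable section

set_option linter.unusedSectionVars false

namespace Pool.Agent.P.MP_d483fb_an.Z

section Poly

variable {ι κ κ' : Type} [Fintype κ] [DecidableEq κ] [Fintype κ'] [DecidableEq κ']

/-- Evaluation of a polynomial at the entries of a matrix. -/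
abbrev evM (n : Matrix ι ι ℝ) : MvPolynomial (ι × ι) ℝ →+* ℝ :=
  MvPolynomial.eval fun k => n k.1 k.2

/-- Polynomial functions of the entries of a matrix. -/
def PolyF (f : Matrix ι ι ℝ → ℝ) : Prop := ∃ P : MvPolynomial (ι × ι) ℝ, ∀ n, f n = evM n P

/-- Maps whose entries are polynomials in the entries. -/
def PolyM (F : Matrix ι ι ℝ → Matrix κ κ ℝ) : Prop :=
  ∃ P : Matrix κ κ (MvPolynomial (ι × ι) ℝ), ∀ n i j, F n i j = evM n (P i j)

variable {f g : Matrix ι ι ℝ → ℝ} {F G : Matrix ι ι ℝ → Matrix κ κ ℝ}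

theorem polyM_iff : PolyM F ↔ ∀ i j, PolyF fun n => F n i j := by
  constructor
  · rintro ⟨P, hP⟩ i j
    exact ⟨P i j, fun n => hP n i j⟩
  · intro h
    choose P hP using h
    exact ⟨Matrix.of P, fun n i j => hP i j n⟩

theorem PolyM.entry (h : PolyM F) (i j : κ) : PolyF fun n => F n i j := polyM_iff.1 h i j

theorem PolyF.const (c : ℝ) : PolyF fun _ : Matrix ι ι ℝ => c :=
  ⟨MvPolynomial.C c, fun _ => by simp⟩

theorem PolyF.coord (i j : ι) : PolyF fun n : Matrix ι ι ℝ => n i j :=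
  ⟨MvPolynomial.X (i, j), fun _ => by simp⟩

theorem PolyF.add (hf : PolyF f) (hg : PolyF g) : PolyF fun n => f n + g n := by
  obtain ⟨P, hP⟩ := hf
  obtain ⟨Q, hQ⟩ := hg
  exact ⟨P + Q, fun n => by rw [map_add, ← hP, ← hQ]⟩

theorem PolyF.mul (hf : PolyF f) (hg : PolyF g) : PolyF fun n => f n * g n := by
  obtain ⟨P, hP⟩ := hf
  obtain ⟨Q, hQ⟩ := hg
  exact ⟨P * Q, fun n => by rw [map_mul, ← hP, ← hQ]⟩

theorem PolyF.neg (hf : PolyF f) : PolyF fun n => -f n := by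
  obtain ⟨P, hP⟩ := hf
  exact ⟨-P, fun n => by rw [map_neg, ← hP]⟩

theorem PolyF.sub (hf : PolyF f) (hg : PolyF g) : PolyF fun n => f n - g n := by
  simpa only [sub_eq_add_neg] using hf.add hg.neg

theorem PolyF.sum {α : Type*} {s : Finset α} {f : α → Matrix ι ι ℝ → ℝ}
    (h : ∀ a ∈ s, PolyF (f a)) : PolyF fun n => ∑ a ∈ s, f a n := by
  classical
  induction s using Finset.induction_on with
  | empty => simpa using PolyF.const 0
  | insert a s ha ih =>
    simp only [Finset.sum_insert ha]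
    exact (h a (Finset.mem_insert_self _ _)).add
      (ih fun b hb => h b (Finset.mem_insert_of_mem hb))

theorem PolyF.comp {g : Matrix κ κ ℝ → ℝ} (hg : PolyF g) (hF : PolyM F) :
    PolyF fun n => g (F n) := by
  obtain ⟨Q, hQ⟩ := hg
  obtain ⟨P, hP⟩ := hF
  refine ⟨MvPolynomial.bind₁ (fun k => P k.1 k.2) Q, fun n => ?_⟩
  beta_reduce
  rw [hQ]
  simp only [evM, ← MvPolynomial.coe_aeval_eq_eval, RingHom.coe_coe, MvPolynomial.aeval_bind₁]
  congr 2
  funext k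
  exact hP n k.1 k.2

theorem PolyF.continuous (hf : PolyF f) : Continuous f := by
  obtain ⟨P, hP⟩ := hf
  rw [show f = fun n => evM n P from funext hP]
  exact (MvPolynomial.continuous_eval P).comp
    (continuous_pi fun k => continuous_id.matrix_elem k.1 k.2)

theorem PolyM.continuous (hF : PolyM F) : Continuous F :=
  continuous_matrix fun i j => (hF.entry i j).continuous

theorem PolyM.measurable [Finite ι] (hF : PolyM F) : Measurable F := hF.continuous.measurable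

theorem PolyM.const (c : Matrix κ κ ℝ) : PolyM fun _ : Matrix ι ι ℝ => c :=
  polyM_iff.2 fun i j => PolyF.const (c i j)

theorem PolyM.id : PolyM fun n : Matrix κ κ ℝ => n := polyM_iff.2 PolyF.coord

theorem PolyM.comp {G : Matrix κ κ ℝ → Matrix κ' κ' ℝ} (hG : PolyM G) (hF : PolyM F) :
    PolyM fun n => G (F n) :=
  polyM_iff.2 fun i j => (hG.entry i j).comp hF

theorem PolyM.add (hF : PolyM F) (hG : PolyM G) : PolyM fun n => F n + G n :=
  polyM_iff.2 fun i j => (hF.entry i j).add (hG.entry i j)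

theorem PolyM.sub (hF : PolyM F) (hG : PolyM G) : PolyM fun n => F n - G n :=
  polyM_iff.2 fun i j => (hF.entry i j).sub (hG.entry i j)

theorem PolyM.mul (hF : PolyM F) (hG : PolyM G) : PolyM fun n => F n * G n :=
  polyM_iff.2 fun i j => by
    simp only [Matrix.mul_apply]
    exact PolyF.sum fun k _ => (hF.entry i k).mul (hG.entry k j)

theorem PolyM.pow (hF : PolyM F) (m : ℕ) : PolyM fun n => F n ^ m := by
  induction m with
  | zero => simpa using PolyM.const 1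
  | succ m ih => simpa only [pow_succ] using ih.mul hF

theorem PolyM.sum {α : Type*} {s : Finset α} {F : α → Matrix ι ι ℝ → Matrix κ κ ℝ}
    (h : ∀ a ∈ s, PolyM (F a)) : PolyM fun n => ∑ a ∈ s, F a n :=
  polyM_iff.2 fun i j => by
    simp only [Matrix.sum_apply]
    exact PolyF.sum fun a ha => (h a ha).entry i j

/-- The inverse of a unipotent matrix, as a polynomial. -/
def ginv (n : Matrix κ κ ℝ) : Matrix κ κ ℝ := ∑ k ∈ Finset.range (Fintype.card κ), (1 - n) ^ k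

theorem PolyM.ginv (hF : PolyM F) : PolyM fun n => ginv (F n) :=
  PolyM.sum fun k _ => ((PolyM.const 1).sub hF).pow k

end Poly

namespace Wt

variable {ι : Type} [Fintype ι] [DecidableEq ι] {w : Wt ι} {J U : Set ℝ} {χ : ℝ}
  {n n' l l' p q : Matrix ι ι ℝ}

theorem Nil.ginv_eq (hn : w.Nil J n) : ginv n = n⁻¹ := hn.inv_eq.symm

theorem polyM_pr : PolyM (w.pr χ) :=
  polyM_iff.2 fun i j => by
    simp only [pr_apply]
    split_ifs
    · exact PolyF.const 0
    · exact PolyF.coord i j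

variable (w) in
/-- A polynomial map which agrees with `al χ` on unipotent matrices. -/
def alP (χ : ℝ) (n : Matrix ι ι ℝ) : Matrix ι ι ℝ := n * ginv (w.pr χ n)

theorem polyM_alP : PolyM (w.alP χ) := PolyM.id.mul polyM_pr.ginv

theorem Nil.alP_eq (hn : w.Nil J n) : w.alP χ n = w.al χ n := by
  rw [alP, hn.pr.ginv_eq, Wt.al]

theorem continuousOn_al : ContinuousOn (w.al χ) {n | w.Nil univ n} :=
  polyM_alP.continuous.continuousOn.congr fun _ hn => (Nil.alP_eq hn).symm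

/-- A cut of the real line. -/
def Cut (U : Set ℝ) : Prop := IsUpperSet U ∨ IsLowerSet U

theorem Cut.compl (h : Cut U) : Cut Uᶜ := h.symm.imp IsLowerSet.compl IsUpperSet.compl

theorem Cut.ordConnected (h : Cut U) : U.OrdConnected :=
  h.elim IsUpperSet.ordConnected IsLowerSet.ordConnected

theorem cut_Ici (β : ℝ) : Cut (Ici β) := Or.inl (isUpperSet_Ici β)

theorem cut_Ioi (β : ℝ) : Cut (Ioi β) := Or.inl (isUpperSet_Ioi β)

theorem cut_Iic (β : ℝ) : Cut (Iic β) := Or.inr (isLowerSet_Iic β)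

theorem cut_Iio (β : ℝ) : Cut (Iio β) := Or.inr (isLowerSet_Iio β)

variable (w) in
/-- The properties of the two factors on `Nil V`. -/
def IsFac (V U : Set ℝ) (P Q : Matrix ι ι ℝ → Matrix ι ι ℝ) : Prop :=
  PolyM P ∧ PolyM Q ∧ ∀ n, w.Nil V n → P n * Q n = n ∧
    (∀ J : Set ℝ, J.OrdConnected → w.Nil J n → w.Nil (J ∩ U) (P n) ∧ w.Nil (J \ U) (Q n)) ∧
    ∀ S, w.DilClosed S → n ∈ S → P n ∈ S ∧ Q n ∈ S

variable (w) in
theorem exists_isFac_aux {ε : ℝ} (hε : ε = 1 ∨ ε = -1) (hU : Cut U)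
    (hUε : ∀ x ∈ U, ∀ y, 0 ≤ ε * (y - x) → y ∈ U) (m : ℕ) :
    ∀ V : Set ℝ, (∀ x ∈ V, ∀ y, 0 ≤ ε * (y - x) → y ∈ V) →
      {p : ι × ι | w.slope p.1 p.2 ∈ V \ U}.ncard ≤ m → ∃ P Q, w.IsFac V U P Q := by
  have base : ∀ V : Set ℝ, {p : ι × ι | w.slope p.1 p.2 ∈ V \ U} = ∅ → ∃ P Q, w.IsFac V U P Q := by
    intro V hV
    refine ⟨fun n => n, fun _ => 1, PolyM.id, PolyM.const 1, fun n hn => ⟨mul_one n, ?_, ?_⟩⟩
    · refine fun J _ hJ => ⟨hJ.inter fun i j h => ⟨(hn i j h).1, ?_⟩, Nil.one⟩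
      by_contra h1
      have : (i, j) ∈ {p : ι × ι | w.slope p.1 p.2 ∈ V \ U} := ⟨(hn i j h).2, h1⟩
      rw [hV] at this
      exact this
    · refine fun S hS hnS => ⟨hnS, ?_⟩
      rw [← hn.mul_inv]
      exact hS.mul _ hnS _ (hS.inv _ hnS hn.univ)
  induction m with
  | zero =>
    intro V _ hc
    exact base V ((ncard_eq_zero (toFinite _)).1 (Nat.le_zero.1 hc))
  | succ m ih =>
    intro V hV hc
    rcases {p : ι × ι | w.slope p.1 p.2 ∈ V \ U}.eq_empty_or_nonempty with h0 | h0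
    · exact base V h0
    obtain ⟨p0, hp0, hmin⟩ := exists_min_image _ (fun p : ι × ι => ε * w.slope p.1 p.2)
      (toFinite _) h0
    set χ := w.slope p0.1 p0.2 with hχ
    have hε2 : ε * ε = 1 := by rcases hε with rfl | rfl <;> norm_num
    have hε0 : ε ≠ 0 := by rcases hε with rfl | rfl <;> norm_num
    set W : Set ℝ := {y | 0 ≤ ε * (y - χ)} with hW
    have hWe : Extreme W χ := by
      rcases hε with rfl | rfl
      · exact Or.inl fun σ hσ => by simp only [hW, mem_ofPred_eq] at hσ; linarith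
      · exact Or.inr fun σ hσ => by simp only [hW, mem_ofPred_eq] at hσ; linarith
    have hWo : W.OrdConnected := by
      refine ⟨fun x hx y hy z hz => ?_⟩
      simp only [hW, mem_ofPred_eq] at hx hy ⊢
      rcases hε with rfl | rfl <;> linarith [hz.1, hz.2]
    have hVW : ∀ n, w.Nil V n → w.Nil W n := by
      refine fun n hn i j h => ⟨(hn i j h).1, ?_⟩
      simp only [hW, mem_ofPred_eq]
      by_cases h1 : w.slope i j ∈ U
      · by_contra h2
        exact hp0.2 (hUε _ h1 χ (by linarith))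
      · have := hmin (i, j) ⟨(hn i j h).2, h1⟩
        simp only at this
        linarith
    obtain ⟨P, Q, hP, hQ, hPQ⟩ := ih (W \ {χ}) (by
      rintro x ⟨hx, hx'⟩ y hy
      simp only [hW, mem_ofPred_eq] at hx
      have h1 : 0 < ε * (x - χ) := hx.lt_of_ne' (mul_ne_zero hε0 (sub_ne_zero.2 hx'))
      refine ⟨by simp only [hW, mem_ofPred_eq]; linarith, fun e => ?_⟩
      have e' : y = χ := e
      rw [e'] at hy
      linarith) (by
      refine Nat.le_of_lt_succ (lt_of_lt_of_le (ncard_lt_ncard ⟨?_, fun h => ?_⟩ (toFinite _)) hc)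
      · rintro p ⟨hp, hp'⟩
        exact ⟨hV χ hp0.1 _ hp.1, hp'⟩
      · exact (h hp0).1.2 rfl)
    refine ⟨fun n => P (w.alP χ n), fun n => Q (w.alP χ n) * w.pr χ n, hP.comp polyM_alP,
      (hQ.comp polyM_alP).mul polyM_pr, fun n hn => ?_⟩
    have hn' := hVW n hn
    obtain ⟨h1, h2, h3⟩ := hPQ _ (hn'.al hWe hWo)
    simp only [hn.alP_eq]
    refine ⟨by rw [← mul_assoc, h1, hn.al_mul_pr], fun J hJ hJn => ?_, fun S hS hnS => ?_⟩
    · obtain ⟨h4, h5⟩ := h2 J hJ (hJn.al_same hJ)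
      refine ⟨h4, Nil.mul (hJ.inter hU.compl.ordConnected) h5 (hJn.pr_inter.mono ?_)⟩
      rintro σ ⟨h6, h7⟩
      have h8 : σ = χ := h7
      exact ⟨h6, h8 ▸ hp0.2⟩
    · obtain ⟨h4, h5⟩ := h3 S hS (hS.al_mem hWe hn' hnS)
      exact ⟨h4, hS.mul _ h5 _ (hS.pr_mem hWe hn' hnS)⟩

variable (w) in
theorem exists_isFac (U : Set ℝ) : ∃ PQ : (Matrix ι ι ℝ → Matrix ι ι ℝ) × (Matrix ι ι ℝ → Matrix ι ι ℝ),
    Cut U → w.IsFac univ U PQ.1 PQ.2 := by
  by_cases hU : Cut U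
  · have : ∃ P Q, w.IsFac univ U P Q := by
      rcases id hU with h | h
      · exact w.exists_isFac_aux (Or.inl rfl) hU (fun x hx y hy => h (by linarith) hx) _ _
          (fun _ _ _ _ => trivial) le_rfl
      · exact w.exists_isFac_aux (Or.inr rfl) hU (fun x hx y hy => h (by linarith) hx) _ _
          (fun _ _ _ _ => trivial) le_rfl
    obtain ⟨P, Q, h⟩ := this
    exact ⟨(P, Q), fun _ => h⟩
  · exact ⟨(id, id), fun h => absurd h hU⟩

variable (w) in
/-- The left factor, with slopes in `U`. -/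
def facL (U : Set ℝ) : Matrix ι ι ℝ → Matrix ι ι ℝ := (w.exists_isFac U).choose.1

variable (w) in
/-- The right factor, with slopes outside `U`. -/
def facR (U : Set ℝ) : Matrix ι ι ℝ → Matrix ι ι ℝ := (w.exists_isFac U).choose.2

theorem isFac (hU : Cut U) : w.IsFac univ U (w.facL U) (w.facR U) :=
  (w.exists_isFac U).choose_spec hU

theorem polyM_facL (hU : Cut U) : PolyM (w.facL U) := (isFac hU).1

theorem polyM_facR (hU : Cut U) : PolyM (w.facR U) := (isFac hU).2.1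

theorem continuous_facL (hU : Cut U) : Continuous (w.facL U) := (polyM_facL hU).continuous

theorem continuous_facR (hU : Cut U) : Continuous (w.facR U) := (polyM_facR hU).continuous

theorem measurable_facL (hU : Cut U) : Measurable (w.facL U) := (polyM_facL hU).measurable

theorem measurable_facR (hU : Cut U) : Measurable (w.facR U) := (polyM_facR hU).measurable

theorem Nil.facL_mul_facR (hU : Cut U) (hn : w.Nil J n) : w.facL U n * w.facR U n = n :=
  ((isFac hU).2.2 n hn.univ).1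

theorem Nil.facL_inter (hU : Cut U) (hJ : J.OrdConnected) (hn : w.Nil J n) :
    w.Nil (J ∩ U) (w.facL U n) :=
  (((isFac hU).2.2 n hn.univ).2.1 J hJ hn).1

theorem Nil.facR_diff (hU : Cut U) (hJ : J.OrdConnected) (hn : w.Nil J n) :
    w.Nil (J \ U) (w.facR U n) :=
  (((isFac hU).2.2 n hn.univ).2.1 J hJ hn).2

theorem Nil.facL (hU : Cut U) (hn : w.Nil J n) : w.Nil U (w.facL U n) :=
  (hn.univ.facL_inter hU ordConnected_univ).mono inter_subset_right

theorem Nil.facR (hU : Cut U) (hn : w.Nil J n) : w.Nil Uᶜ (w.facR U n) :=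
  (hn.univ.facR_diff hU ordConnected_univ).mono fun _ h => h.2

theorem DilClosed.facL_mem {S : Set (Matrix ι ι ℝ)} (hS : w.DilClosed S) (hU : Cut U)
    (hn : w.Nil J n) (hnS : n ∈ S) : w.facL U n ∈ S :=
  (((isFac hU).2.2 n hn.univ).2.2 S hS hnS).1

theorem DilClosed.facR_mem {S : Set (Matrix ι ι ℝ)} (hS : w.DilClosed S) (hU : Cut U)
    (hn : w.Nil J n) (hnS : n ∈ S) : w.facR U n ∈ S :=
  (((isFac hU).2.2 n hn.univ).2.2 S hS hnS).2

/-- Uniqueness of the factorisation. -/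
theorem fac_unique {p' q' : Matrix ι ι ℝ} (hU : Cut U) (hp : w.Nil U p) (hq : w.Nil Uᶜ q)
    (hp' : w.Nil U p') (hq' : w.Nil Uᶜ q') (e : p * q = p' * q') : p = p' ∧ q = q' := by
  have h1 : p'⁻¹ * p = q' * q⁻¹ := by
    calc p'⁻¹ * p = p'⁻¹ * (p * q) * q⁻¹ := by rw [mul_assoc, mul_assoc, hq.mul_inv, mul_one]
      _ = q' * q⁻¹ := by rw [e, ← mul_assoc, hp'.inv_mul, one_mul]
  have h2 : w.Nil U (p'⁻¹ * p) := Nil.mul hU.ordConnected (hp'.inv hU.ordConnected) hp
  have h3 : w.Nil Uᶜ (p'⁻¹ * p) :=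
    h1 ▸ Nil.mul hU.compl.ordConnected hq' (hq.inv hU.compl.ordConnected)
  have h4 : p'⁻¹ * p = 1 := ((h2.inter h3).mono (inter_compl_self U).subset).eq_one_of_empty
  have h5 : p = p' := by rw [← one_mul p, ← hp'.mul_inv, mul_assoc, h4, mul_one]
  refine ⟨h5, ?_⟩
  rw [← one_mul q, ← hp.inv_mul, mul_assoc, e, ← h5, ← mul_assoc, hp.inv_mul, one_mul]

theorem facL_mul (hU : Cut U) (hp : w.Nil U p) (hq : w.Nil Uᶜ q) : w.facL U (p * q) = p := by
  have hn := Nil.mul ordConnected_univ hp.univ hq.univ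
  exact (fac_unique hU (hn.facL hU) (hn.facR hU) hp hq (hn.facL_mul_facR hU)).1

theorem facR_mul (hU : Cut U) (hp : w.Nil U p) (hq : w.Nil Uᶜ q) : w.facR U (p * q) = q := by
  have hn := Nil.mul ordConnected_univ hp.univ hq.univ
  exact (fac_unique hU (hn.facL hU) (hn.facR hU) hp hq (hn.facL_mul_facR hU)).2

theorem Nil.facL_eq_self (hU : Cut U) (hp : w.Nil U p) : w.facL U p = p := by
  simpa using facL_mul hU hp Nil.one

theorem Nil.facR_eq_one (hU : Cut U) (hp : w.Nil U p) : w.facR U p = 1 := by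
  simpa using facR_mul hU hp Nil.one

theorem Nil.facL_eq_one (hU : Cut U) (hq : w.Nil Uᶜ q) : w.facL U q = 1 := by
  simpa using facL_mul hU Nil.one hq

theorem Nil.facR_eq_self (hU : Cut U) (hq : w.Nil Uᶜ q) : w.facR U q = q := by
  simpa using facR_mul hU Nil.one hq

theorem facL_left_mul (hU : Cut U) (hp : w.Nil U p) (hn : w.Nil J n) :
    w.facL U (p * n) = p * w.facL U n := by
  conv_lhs => rw [← hn.facL_mul_facR hU, ← mul_assoc]
  exact facL_mul hU (Nil.mul hU.ordConnected hp (hn.facL hU)) (hn.facR hU)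

theorem facR_left_mul (hU : Cut U) (hp : w.Nil U p) (hn : w.Nil J n) :
    w.facR U (p * n) = w.facR U n := by
  conv_lhs => rw [← hn.facL_mul_facR hU, ← mul_assoc]
  exact facR_mul hU (Nil.mul hU.ordConnected hp (hn.facL hU)) (hn.facR hU)

theorem facL_mul_right (hU : Cut U) (hn : w.Nil J n) (hq : w.Nil Uᶜ q) :
    w.facL U (n * q) = w.facL U n := by
  conv_lhs => rw [← hn.facL_mul_facR hU, mul_assoc]
  exact facL_mul hU (hn.facL hU) (Nil.mul hU.compl.ordConnected (hn.facR hU) hq)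

theorem facR_mul_right (hU : Cut U) (hn : w.Nil J n) (hq : w.Nil Uᶜ q) :
    w.facR U (n * q) = w.facR U n * q := by
  conv_lhs => rw [← hn.facL_mul_facR hU, mul_assoc]
  exact facR_mul hU (hn.facL hU) (Nil.mul hU.compl.ordConnected (hn.facR hU) hq)

theorem fac_conj (hU : Cut U) (hn : w.Nil J n) (hl : w.Lev l) (hl' : w.Lev l') (e : l * l' = 1) :
    w.facL U (l * n * l') = l * w.facL U n * l' ∧ w.facR U (l * n * l') = l * w.facR U n * l' := by
  have e' : l' * l = 1 := mul_eq_one_comm.1 e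
  have h1 : l * n * l' = (l * w.facL U n * l') * (l * w.facR U n * l') := by
    conv_lhs => rw [← hn.facL_mul_facR hU]
    simp only [mul_assoc]
    rw [← mul_assoc l' l, e', one_mul]
  rw [h1]
  exact ⟨facL_mul hU ((hn.facL hU).conj hl hl' e) ((hn.facR hU).conj hl hl' e),
    facR_mul hU ((hn.facL hU).conj hl hl' e) ((hn.facR hU).conj hl hl' e)⟩

theorem facL_conj (hU : Cut U) (hn : w.Nil J n) (hl : w.Lev l) (hu : IsUnit l.det) :
    w.facL U (l * n * l⁻¹) = l * w.facL U n * l⁻¹ :=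
  (fac_conj hU hn hl hl.inv (Matrix.mul_nonsing_inv _ hu)).1

theorem facR_conj (hU : Cut U) (hn : w.Nil J n) (hl : w.Lev l) (hu : IsUnit l.det) :
    w.facR U (l * n * l⁻¹) = l * w.facR U n * l⁻¹ :=
  (fac_conj hU hn hl hl.inv (Matrix.mul_nonsing_inv _ hu)).2

end Wt

end Pool.Agent.P.MP_d483fb_an.Z

end

end

section

/-!
Packing and covering numbers of bounded sets of real arrays (by rounding to a grid), and
unimodularity of groups of unipotent matrices.
-/

open scoped Matrix Matrix.Norms.Operator Topology ENNReal NNReal Pointwise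
open MeasureTheory Set Filter

noncomputable section

namespace Pool.Agent.P.MP_d483fb_an.Z

section Grid

variable {α κ : Type*} [Fintype κ] [DecidableEq κ]

/-- The grid cell of an array. -/
def gkey (η : ℝ) (v : κ → ℝ) : κ → ℤ := fun i => ⌊v i / η⌋

omit [Fintype κ] [DecidableEq κ] in
theorem gkey_close {η : ℝ} (hη : 0 < η) {v w : κ → ℝ} (h : gkey η v = gkey η w) (i : κ) :
    |v i - w i| < η := by
  have h1 : ⌊v i / η⌋ = ⌊w i / η⌋ := congrFun h i
  have h2 := Int.abs_sub_lt_one_of_floor_eq_floor h1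
  rw [← sub_div, abs_div, abs_of_pos hη, div_lt_one hη] at h2
  exact h2

/-- The grid cells that meet the cube of radius `R`. -/
def gbox (κ : Type*) [Fintype κ] [DecidableEq κ] (η R : ℝ) : Finset (κ → ℤ) :=
  Fintype.piFinset fun _ => Finset.Icc (-(⌈R / η⌉ + 1)) ⌈R / η⌉

theorem gkey_mem {η R : ℝ} (hη : 0 < η) {v : κ → ℝ} (h : ∀ i, |v i| ≤ R) :
    gkey η v ∈ gbox κ η R := by
  simp only [gbox, Fintype.mem_piFinset, Finset.mem_Icc, gkey]
  intro i
  obtain ⟨h1, h2⟩ := abs_le.1 (h i)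
  have h3 : v i / η ≤ R / η := by gcongr
  have h4 : -(R / η) ≤ v i / η := by rw [← neg_div]; gcongr
  have h5 := Int.le_ceil (R / η)
  have h6 := Int.floor_le (v i / η)
  have h7 := Int.lt_floor_add_one (v i / η)
  constructor
  · have : ((-(⌈R / η⌉ + 1) : ℤ) : ℝ) ≤ ⌊v i / η⌋ := by push_cast; linarith
    exact_mod_cast this
  · have : ((⌊v i / η⌋ : ℤ) : ℝ) ≤ ⌈R / η⌉ := by linarith
    exact_mod_cast this

theorem gbox_card {η R : ℝ} (hη : 0 < η) (hR : 0 ≤ R) :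
    ((gbox κ η R).card : ℝ) ≤ (2 * (R / η) + 4) ^ Fintype.card κ := by
  simp only [gbox, Fintype.card_piFinset, Finset.prod_const, Finset.card_univ, Int.card_Icc]
  push_cast
  have h0 : 0 ≤ R / η := by positivity
  have h1 := Int.ceil_lt_add_one (R / η)
  have h2 : 0 ≤ ⌈R / η⌉ := Int.ceil_nonneg h0
  have h3 : (((⌈R / η⌉ + 1 - -(⌈R / η⌉ + 1)).toNat : ℤ) : ℝ) = 2 * (⌈R / η⌉ : ℝ) + 2 := by
    rw [Int.toNat_of_nonneg (by omega)]
    push_cast
    ring
  have h4 : (((⌈R / η⌉ + 1 - -(⌈R / η⌉ + 1)).toNat : ℕ) : ℝ) ≤ 2 * (R / η) + 4 := by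
    rw [Int.cast_natCast] at h3
    rw [h3]
    linarith
  exact pow_le_pow_left₀ (Nat.cast_nonneg _) h4 _

/-- Packing. -/
theorem grid_pack (x : α → κ → ℝ) {η R : ℝ} (hη : 0 < η) (hR : 0 ≤ R) (s : Finset α)
    (hb : ∀ a ∈ s, ∀ i, |x a i| ≤ R)
    (hs : ∀ a ∈ s, ∀ b ∈ s, a ≠ b → ∃ i, η ≤ |x a i - x b i|) :
    (s.card : ℝ) ≤ (2 * (R / η) + 4) ^ Fintype.card κ := by
  refine le_trans ?_ (gbox_card hη hR)
  have : s.card ≤ (gbox κ η R).card := by
    refine Finset.card_le_card_of_injOn (fun a => gkey η (x a)) (fun a ha => gkey_mem hη (hb a ha))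
      ?_
    intro a ha b hb' hab
    by_contra hne
    obtain ⟨i, hi⟩ := hs a ha b hb' hne
    exact absurd (gkey_close hη hab i) (not_lt.2 hi)
  exact_mod_cast this

/-- Covering. -/
theorem grid_cover (x : α → κ → ℝ) {η R : ℝ} (hη : 0 < η) (hR : 0 ≤ R) (S : Set α)
    (hb : ∀ a ∈ S, ∀ i, |x a i| ≤ R) :
    ∃ s : Finset α, (s : Set α) ⊆ S ∧ (s.card : ℝ) ≤ (2 * (R / η) + 4) ^ Fintype.card κ ∧
      ∀ a ∈ S, ∃ b ∈ s, ∀ i, |x a i - x b i| < η := by
  classical
  rcases S.eq_empty_or_nonempty with rfl | ⟨a0, ha0⟩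
  · exact ⟨∅, by simp, by simp only [Finset.card_empty, Nat.cast_zero]; positivity, by simp⟩
  have h1 : ∀ c : κ → ℤ, ∃ b ∈ S, (∃ a ∈ S, gkey η (x a) = c) → gkey η (x b) = c := by
    intro c
    by_cases h : ∃ a ∈ S, gkey η (x a) = c
    · obtain ⟨a, ha, hc⟩ := h
      exact ⟨a, ha, fun _ => hc⟩
    · exact ⟨a0, ha0, fun h' => absurd h' h⟩
  choose rep hrS hrep using h1
  refine ⟨(gbox κ η R).image rep, ?_, ?_, ?_⟩
  · intro b hb'
    obtain ⟨c, -, rfl⟩ := Finset.mem_image.1 (Finset.mem_coe.1 hb')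
    exact hrS c
  · refine le_trans ?_ (gbox_card hη hR)
    exact_mod_cast Finset.card_image_le
  · intro a ha
    refine ⟨rep (gkey η (x a)), Finset.mem_image_of_mem _ (gkey_mem hη (hb a ha)), ?_⟩
    exact gkey_close hη (hrep _ ⟨a, ha, rfl⟩).symm

end Grid

section Uni

/-- A group in which the right translates `U k^j` of a set of finite positive measure are covered
by polynomially many left translates of `U` is unimodular. -/
theorem unimod_of_cover {H : Type*} [Group H] [TopologicalSpace H] [IsTopologicalGroup H]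
    [LocallyCompactSpace H] [MeasurableSpace H] [BorelSpace H] (μ : Measure H) [μ.IsHaarMeasure]
    [μ.InnerRegular] (U : Set H) (hU : MeasurableSet U) (h0 : μ U ≠ 0) (hf : μ U ≠ ∞)
    (hc : ∀ k : H, ∃ C : ℝ, ∃ D : ℕ, ∀ j : ℕ, ∃ s : Finset H, (s.card : ℝ) ≤ C * (1 + j) ^ D ∧
      ∀ u ∈ U, ∃ p ∈ s, p⁻¹ * (u * k ^ j) ∈ U) : μ.IsMulRightInvariant := by
  have hle : ∀ k : H, Measure.modularCharacter k⁻¹ ≤ 1 := by
    intro k
    obtain ⟨C, D, hC⟩ := hc k
    by_contra hlt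
    push Not at hlt
    set c : ℝ≥0 := Measure.modularCharacter k⁻¹ with hcdef
    have h1 : ∀ j : ℕ, (c : ℝ) ^ j ≤ C * (1 + j) ^ D := by
      intro j
      obtain ⟨s, hs, hcov⟩ := hC j
      have h2 : Measure.map (· * (k⁻¹) ^ j) μ = (c ^ j) • μ := by
        rw [Measure.map_right_mul_eq_modularCharacterFun_smul, hcdef, ← map_pow]
        rfl
      have h3 : (Measure.map (· * (k⁻¹) ^ j) μ) U ≤ s.card * μ U := by
        rw [Measure.map_apply (measurable_mul_const _) hU]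
        have h4 : (· * (k⁻¹) ^ j) ⁻¹' U ⊆ ⋃ p ∈ s, (p⁻¹ * ·) ⁻¹' U := by
          intro y hy
          obtain ⟨p, hp, hpy⟩ := hcov _ hy
          simp only [mem_iUnion, mem_preimage]
          refine ⟨p, hp, ?_⟩
          simpa [mul_assoc] using hpy
        refine (measure_mono h4).trans ((measure_biUnion_finset_le _ _).trans ?_)
        simp [measure_preimage_mul]
      rw [h2, Measure.smul_apply, ENNReal.smul_def, smul_eq_mul] at h3
      have h5 := (ENNReal.mul_le_mul_iff_left h0 hf).1 h3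
      have h6 : ((c ^ j : ℝ≥0) : ℝ) ≤ s.card := by exact_mod_cast h5
      push_cast at h6
      exact h6.trans hs
    have hc1 : (1 : ℝ) < c := by exact_mod_cast hlt
    have h7 := (tendsto_pow_const_div_const_pow_of_one_lt D hc1).comp (tendsto_add_atTop_nat 1)
    have h8 := h7.const_mul (C * c)
    rw [mul_zero] at h8
    obtain ⟨j, hj⟩ := (h8.eventually (gt_mem_nhds (zero_lt_one' ℝ))).exists
    have h9 := h1 j
    have hp : (0 : ℝ) < (c : ℝ) ^ j := by positivity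
    simp only [Function.comp_apply] at hj
    have h10 : C * c * (((j + 1 : ℕ) : ℝ) ^ D / (c : ℝ) ^ (j + 1))
        = C * (1 + j) ^ D / (c : ℝ) ^ j := by
      push_cast
      field_simp
      ring
    rw [h10, div_lt_one hp] at hj
    linarith
  refine ⟨fun k => ?_⟩
  have h1 : Measure.modularCharacter k = 1 := by
    have h2 := hle k
    have h3 := hle k⁻¹
    rw [inv_inv] at h3
    have h4 : Measure.modularCharacter k * Measure.modularCharacter k⁻¹ = 1 := by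
      rw [← map_mul, mul_inv_cancel, map_one]
    refine le_antisymm h3 ?_
    calc (1 : ℝ≥0) = Measure.modularCharacter k * Measure.modularCharacter k⁻¹ := h4.symm
      _ ≤ Measure.modularCharacter k * 1 := by gcongr
      _ = _ := mul_one _
  rw [Measure.map_right_mul_eq_modularCharacterFun_smul]
  have : Measure.modularCharacterFun k = 1 := h1
  rw [this, one_smul]

variable {ι : Type} [Fintype ι] [DecidableEq ι]

theorem abs_entry_le_norm (A : Matrix ι ι ℝ) (i j : ι) : |A i j| ≤ ‖A‖ := by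
  have h1 : ‖A i j‖₊ ≤ ‖A‖₊ := by
    rw [Matrix.linfty_opNNNorm_def]
    refine le_trans ?_ (Finset.le_sup (f := fun i => ∑ j, ‖A i j‖₊) (Finset.mem_univ i))
    exact Finset.single_le_sum (f := fun j => ‖A i j‖₊) (fun _ _ => zero_le) (Finset.mem_univ j)
  exact_mod_cast h1

theorem norm_le_card_mul (A : Matrix ι ι ℝ) {c : ℝ} (hc : 0 ≤ c) (h : ∀ i j, |A i j| ≤ c) :
    ‖A‖ ≤ Fintype.card ι * c := by
  lift c to ℝ≥0 using hc
  have h1 : ‖A‖₊ ≤ Fintype.card ι * c := by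
    rw [Matrix.linfty_opNNNorm_def]
    refine Finset.sup_le fun i _ => ?_
    calc ∑ j, ‖A i j‖₊ ≤ ∑ _j : ι, c := Finset.sum_le_sum fun j _ => by exact_mod_cast h i j
      _ = _ := by simp
  exact_mod_cast h1

/-- Powers of a unipotent element grow polynomially. -/
theorem norm_pow_le_of_unip {A : Type*} [NormedRing A] [NormedAlgebra ℝ A] {k : A}
    (hk : IsNilpotent (k - 1)) : ∃ C : ℝ, 0 ≤ C ∧ ∃ D : ℕ, ∀ j : ℕ, ‖k ^ j‖ ≤ C * (1 + j) ^ D := by
  obtain ⟨m, hm⟩ := hk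
  refine ⟨∑ i ∈ Finset.range m, ‖(k - 1) ^ i‖, by positivity, m, fun j => ?_⟩
  have h1 : k ^ j = ∑ i ∈ Finset.range (j + 1), (j.choose i : ℝ) • (k - 1) ^ i := by
    have h2 := (Commute.one_right (k - 1)).add_pow j
    rw [sub_add_cancel] at h2
    rw [h2]
    refine Finset.sum_congr rfl fun i _ => ?_
    rw [one_pow, mul_one, ← nsmul_eq_mul', Nat.cast_smul_eq_nsmul]
  have h3 : ∀ i, ‖(j.choose i : ℝ) • (k - 1) ^ i‖
      ≤ if i < m then ‖(k - 1) ^ i‖ * (1 + j) ^ m else 0 := by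
    intro i
    split_ifs with hi
    · rw [norm_smul, mul_comm]
      gcongr
      rw [Real.norm_natCast]
      calc (j.choose i : ℝ) ≤ (j : ℝ) ^ i := by exact_mod_cast Nat.choose_le_pow j i
        _ ≤ (1 + j : ℝ) ^ i := by gcongr; linarith
        _ ≤ (1 + j : ℝ) ^ m := pow_le_pow_right₀ (by linarith [Nat.cast_nonneg (α := ℝ) j]) hi.le
    · rw [pow_eq_zero_of_le (not_lt.1 hi) hm]
      simp
  rw [h1]
  refine (norm_sum_le _ _).trans ((Finset.sum_le_sum fun i _ => h3 i).trans ?_)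
  rw [← Finset.sum_filter, Finset.sum_mul]
  refine Finset.sum_le_sum_of_subset_of_nonneg ?_ fun _ _ _ => by positivity
  intro i hi
  simpa using (Finset.mem_filter.1 hi).2

/-- A locally compact group of unipotent matrices is unimodular. -/
theorem unimod_of_unip {H : Type*} [Group H] [TopologicalSpace H] [IsTopologicalGroup H]
    [LocallyCompactSpace H] [MeasurableSpace H] [BorelSpace H] (φ : H →* Matrix ι ι ℝ)
    (hφ : Topology.IsInducing φ) (hn : ∀ h, IsNilpotent (φ h - 1)) (μ : Measure H)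
    [μ.IsHaarMeasure] [μ.InnerRegular] : μ.IsMulRightInvariant := by
  obtain ⟨U0, hU0, hU1⟩ := exists_compact_mem_nhds (1 : H)
  have hU2 := hU1
  rw [hφ.nhds_eq_comap, map_one, mem_comap] at hU2
  obtain ⟨t, ht, htU⟩ := hU2
  obtain ⟨δ, hδ, hδt⟩ := Metric.mem_nhds_iff.1 ht
  set V : Set H := φ ⁻¹' Metric.ball 1 δ with hV
  have hVo : IsOpen V := Metric.isOpen_ball.preimage hφ.continuous
  have hVU : V ⊆ U0 := fun v hv => htU (hδt hv)
  obtain ⟨B1, hB1⟩ := hU0.exists_bound_of_continuousOn hφ.continuous.continuousOn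
  obtain ⟨B2, hB2⟩ := hU0.exists_bound_of_continuousOn
    (hφ.continuous.comp continuous_inv).continuousOn
  have h1U := mem_of_mem_nhds hU1
  have hB1' : 0 ≤ B1 := (norm_nonneg _).trans (hB1 1 h1U)
  have hB2' : 0 ≤ B2 := (norm_nonneg _).trans (hB2 1 h1U)
  refine unimod_of_cover μ V hVo.measurableSet
    (hVo.measure_ne_zero μ ⟨1, by simp [hV, hδ]⟩)
    ((measure_mono hVU).trans_lt hU0.measure_lt_top).ne fun k => ?_
  obtain ⟨C1, hC1, D1, h1⟩ := norm_pow_le_of_unip (hn k)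
  obtain ⟨C2, hC2, D2, h2⟩ := norm_pow_le_of_unip (hn k⁻¹)
  set c : ℝ := (Fintype.card ι : ℝ) with hc
  have hc0 : 0 ≤ c := Nat.cast_nonneg _
  set E : ℝ := (C2 * B2 + 1) * (c + 1) with hE
  have hE0 : 0 < E := by positivity
  refine ⟨(2 * (B1 * C1 * E / δ) + 4) ^ Fintype.card (ι × ι), (D1 + D2) * Fintype.card (ι × ι),
    fun j => ?_⟩
  have hj : (1 : ℝ) ≤ 1 + j := by linarith [Nat.cast_nonneg (α := ℝ) j]
  have hj1 : (1 : ℝ) ≤ (1 + j) ^ D1 := one_le_pow₀ hj
  have hj2 : (1 : ℝ) ≤ (1 + j) ^ D2 := one_le_pow₀ hj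
  have hη : 0 < δ / (E * (1 + j) ^ D2) := by positivity
  obtain ⟨s, hsS, hcard, hcov⟩ := grid_cover (fun (a : H) (p : ι × ι) => φ a p.1 p.2) hη
    (R := B1 * C1 * (1 + j) ^ D1) (by positivity) ((fun u => u * k ^ j) '' V) (by
      rintro _ ⟨u, hu, rfl⟩ p
      refine (abs_entry_le_norm _ _ _).trans ?_
      simp only [map_mul, map_pow]
      calc _ ≤ ‖φ u‖ * ‖φ k ^ j‖ := norm_mul_le _ _
        _ ≤ B1 * (C1 * (1 + j) ^ D1) := by gcongr; exacts [hB1 u (hVU hu), h1 j]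
        _ = _ := by ring)
  refine ⟨s, hcard.trans ?_, fun u hu => ?_⟩
  · rw [pow_mul, ← mul_pow]
    gcongr
    have h3 : B1 * C1 * (1 + j) ^ D1 / (δ / (E * (1 + j) ^ D2))
        = B1 * C1 * E / δ * (1 + j) ^ (D1 + D2) := by
      rw [pow_add]
      field_simp
    have h4 : (1 : ℝ) ≤ (1 + j) ^ (D1 + D2) := one_le_pow₀ hj
    rw [h3]
    nlinarith
  · obtain ⟨p, hp, hpu⟩ := hcov _ ⟨u, hu, rfl⟩
    refine ⟨p, hp, ?_⟩
    obtain ⟨v, hv, hvp⟩ := hsS hp
    have h5 : ‖φ p⁻¹‖ ≤ C2 * B2 * (1 + j) ^ D2 := by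
      rw [← hvp]
      simp only [mul_inv_rev, ← inv_pow, map_mul, map_pow]
      calc _ ≤ ‖φ k⁻¹ ^ j‖ * ‖φ v⁻¹‖ := norm_mul_le _ _
        _ ≤ (C2 * (1 + j) ^ D2) * B2 := by gcongr; exacts [h2 j, hB2 v (hVU hv)]
        _ = _ := by ring
    have h6 : ‖φ (u * k ^ j) - φ p‖ ≤ c * (δ / (E * (1 + j) ^ D2)) :=
      norm_le_card_mul _ hη.le fun i i' => (hpu (i, i')).le
    have h7 : φ (p⁻¹ * (u * k ^ j)) - 1 = φ p⁻¹ * (φ (u * k ^ j) - φ p) := by
      rw [mul_sub, ← map_mul, ← map_mul, inv_mul_cancel, map_one]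
    simp only [hV, mem_preimage, Metric.mem_ball, dist_eq_norm]
    rw [h7]
    calc _ ≤ ‖φ p⁻¹‖ * ‖φ (u * k ^ j) - φ p‖ := norm_mul_le _ _
      _ ≤ (C2 * B2 * (1 + j) ^ D2) * (c * (δ / (E * (1 + j) ^ D2))) := by gcongr
      _ = δ * (C2 * B2 * c / E) := by field_simp
      _ < δ * 1 := by
        gcongr
        rw [div_lt_one hE0, hE]
        nlinarith [mul_nonneg hC2 hB2']
      _ = δ := mul_one _

end Uni

end Pool.Agent.P.MP_d483fb_an.Z

end

end

section

/-!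
Gauge estimates for `pr` and `al`, the packing bound, and nets with measurable cells.
-/

open scoped Matrix Matrix.Norms.Operator Topology
open Set Filter

noncomputable section

set_option linter.unusedSectionVars false

namespace Pool.Agent.P.MP_d483fb_an.Z

namespace Wt

variable {ι : Type} [Fintype ι] [DecidableEq ι] {w : Wt ι} {J : Set ℝ} {χ : ℝ}
  {n n' : Matrix ι ι ℝ}

theorem N_pr_le (n : Matrix ι ι ℝ) : w.N (w.pr χ n) ≤ w.N n :=
  N_le_N fun i j _ => by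
    rw [pr_apply]
    split_ifs <;> simp

theorem Nil.N_al_le (hn : w.Nil J n) : w.N (w.al χ n) ≤ w.C ^ 2 * w.N n := by
  have h1 : w.N (w.pr χ n)⁻¹ ≤ w.C * w.N n :=
    (hn.pr (χ := χ)).N_inv_le.trans (mul_le_mul_of_nonneg_left (N_pr_le n) w.C_pos.le)
  have h2 : w.N n ≤ w.C * w.N n := le_mul_of_one_le_left (w.N_nonneg n) w.one_le_C
  refine (hn.N_mul_le ((hn.pr (χ := χ)).inv ordConnected_singleton) h2 h1).trans_eq ?_
  ring

theorem Nil.N_le_of_pr_al {r : ℝ} (hn : w.Nil J n) (h1 : w.N (w.al χ n) ≤ r)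
    (h2 : w.N (w.pr χ n) ≤ r) : w.N n ≤ w.C * r := by
  conv_lhs => rw [← hn.al_mul_pr (χ := χ)]
  exact hn.al_univ.N_mul_le hn.pr h1 h2

theorem measurable_al : Measurable (w.al χ) :=
  Measurable.mmul measurable_id (Measurable.minv measurable_pr)

variable (w) in
/-- The dilations that fix `Nil {χ}` contract `Nil (J \ {χ})` at a uniform rate. -/
theorem exists_contr (χ : ℝ) : ∃ c : ℝ, 0 < c ∧ ∀ (J : Set ℝ) (ε : ℝ), ε = 1 ∨ ε = -1 →
    (∀ σ ∈ J, 0 ≤ ε * (σ - χ)) → ∀ τ : ℝ, 0 ≤ τ → ∀ a, w.Nil (J \ {χ}) a →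
      w.N (w.dil (τ * ε * χ) (-(τ * ε)) * a * w.dil (-(τ * ε * χ)) (- -(τ * ε)))
        ≤ Real.exp (-(c * τ)) * w.N a := by
  obtain ⟨c, hc, h⟩ := w.exists_slope_gap χ
  refine ⟨c, hc, fun J ε hε hJ τ hτ a ha => ?_⟩
  have h1 : w.Nil {σ | c ≤ ε * (σ - χ)} a := by
    refine fun i j hij => ⟨(ha i j hij).1, ?_⟩
    have h2 := h i j (ha i j hij).2.2
    have h3 := hJ _ (ha i j hij).2.1
    simp only [mem_ofPred_eq]
    rcases hε with rfl | rfl
    · rw [abs_of_nonneg (by linarith)] at h2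
      linarith
    · rw [abs_of_nonpos (by linarith)] at h2
      linarith
  refine h1.N_dil_le fun σ hσ => ?_
  simp only [mem_ofPred_eq] at hσ
  nlinarith [mul_le_mul_of_nonneg_left hσ hτ]

/-- The unipotent part of a group of matrices which is closed among the invertible ones. -/
theorem DilClosed.of_submonoid (Gen : Submonoid (Matrix ι ι ℝ)) (hi : ∀ T ∈ Gen, T⁻¹ ∈ Gen)
    (hc : ∀ T, IsUnit T.det → T ∈ closure (Gen : Set (Matrix ι ι ℝ)) → T ∈ Gen)
    (hd : ∀ s t, w.dil s t ∈ Gen) : w.DilClosed {T | T ∈ Gen ∧ w.Nil univ T} where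
  closed := by
    refine isClosed_of_closure_subset fun T hT => ?_
    have h1 : w.Nil univ T :=
      (w.isClosed_Nil univ).closure_subset (closure_mono (fun _ h => h.2) hT)
    exact ⟨hc T h1.isUnit_det (closure_mono (fun _ h => h.1) hT), h1⟩
  mul a ha b hb := ⟨Gen.mul_mem ha.1 hb.1, Nil.mul ordConnected_univ ha.2 hb.2⟩
  inv a ha _ := ⟨hi a ha.1, ha.2.inv ordConnected_univ⟩
  conj σ τ a ha := ⟨Gen.mul_mem (Gen.mul_mem (hd _ _) ha.1) (hd _ _), ha.2.dil_conj σ τ⟩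

theorem cut_upperClosure (J : Set ℝ) : Cut (upperClosure J : Set ℝ) :=
  Or.inl (upperClosure J).upper

theorem cut_lowerClosure (J : Set ℝ) : Cut (lowerClosure J : Set ℝ) :=
  Or.inr (lowerClosure J).lower

theorem union_inter_upperClosure {J1 J2 : Set ℝ} (h : ∀ s ∈ J1, ∀ t ∈ J2, s < t) :
    (J1 ∪ J2) ∩ upperClosure J2 = J2 ∧ (J1 ∪ J2) \ upperClosure J2 = J1 := by
  have key : ∀ s ∈ J1, s ∉ (upperClosure J2 : Set ℝ) := by
    rintro s hs ⟨t, ht, hts⟩
    exact absurd (h s hs t ht) (not_lt.2 hts)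
  refine ⟨Subset.antisymm ?_ fun t ht => ⟨Or.inr ht, subset_upperClosure ht⟩,
    Subset.antisymm ?_ fun s hs => ⟨Or.inl hs, key s hs⟩⟩
  · rintro s ⟨hs | hs, hs'⟩
    exacts [absurd hs' (key s hs), hs]
  · rintro s ⟨hs | hs, hs'⟩
    exacts [hs, absurd (subset_upperClosure hs) hs']

theorem union_inter_lowerClosure {J1 J2 : Set ℝ} (h : ∀ s ∈ J1, ∀ t ∈ J2, s < t) :
    (J1 ∪ J2) ∩ lowerClosure J1 = J1 ∧ (J1 ∪ J2) \ lowerClosure J1 = J2 := by
  have key : ∀ t ∈ J2, t ∉ (lowerClosure J1 : Set ℝ) := by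
    rintro t ht ⟨s, hs, hts⟩
    exact absurd (h s hs t ht) (not_lt.2 hts)
  refine ⟨Subset.antisymm ?_ fun t ht => ⟨Or.inl ht, subset_lowerClosure ht⟩,
    Subset.antisymm ?_ fun s hs => ⟨Or.inr hs, key s hs⟩⟩
  · rintro s ⟨hs | hs, hs'⟩
    exacts [hs, absurd hs' (key s hs)]
  · rintro s ⟨hs | hs, hs'⟩
    exacts [absurd (subset_lowerClosure hs) hs', hs]

section Pack

variable (w) in
/-- The constant of the packing bound. -/
def pC : ℝ := (2 * ((Fintype.card ι + 1) * (w.C * w.C ^ w.C) ^ 2) + 4) ^ Fintype.card (ι × ι)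

variable (w) in
/-- The exponent of the packing bound. -/
def pD : ℕ := 2 * ⌈w.C⌉₊ * Fintype.card (ι × ι)

variable (w) in
theorem one_le_pC : 1 ≤ w.pC :=
  one_le_pow₀ (by
    have : (0 : ℝ) ≤ 2 * ((Fintype.card ι + 1) * (w.C * w.C ^ w.C) ^ 2) := by positivity
    linarith)

variable (w) in
theorem pC_pos : 0 < w.pC := one_pos.trans_le w.one_le_pC

theorem pack_one {α : Type*} (y : α → Matrix ι ι ℝ) (s : Finset α) {ρ : ℝ} (hρ : 0 ≤ ρ)
    (hy : ∀ a ∈ s, w.Nil univ (y a) ∧ w.N (y a) ≤ ρ)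
    (hs : ∀ a ∈ s, ∀ b ∈ s, a ≠ b → 1 ≤ w.N ((y a)⁻¹ * y b)) :
    (s.card : ℝ) ≤ w.pC * (1 + ρ) ^ w.pD := by
  have hC := w.one_le_C
  have hC0 := w.C_pos
  set c : ℝ := (Fintype.card ι : ℝ) with hc
  have hc0 : 0 ≤ c := Nat.cast_nonneg _
  set E : ℝ := w.C * w.C ^ w.C with hE
  have hE0 : 0 < E := by positivity
  have hu : (1 : ℝ) ≤ (1 + ρ) ^ ⌈w.C⌉₊ := one_le_pow₀ (by linarith)
  set B : ℝ := E * (1 + ρ) ^ ⌈w.C⌉₊ with hB
  have hB0 : 0 < B := by positivity
  have hb : ∀ m, w.Nil univ m → w.N m ≤ w.C * ρ → ‖m‖ ≤ B := by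
    intro m hm hN
    refine (hm.norm_le hN).trans ?_
    have h1 : (1 + w.C * ρ) ^ w.C ≤ w.C ^ w.C * (1 + ρ) ^ ⌈w.C⌉₊ := by
      calc (1 + w.C * ρ) ^ w.C ≤ (w.C * (1 + ρ)) ^ w.C :=
            Real.rpow_le_rpow (by positivity) (by linarith) hC0.le
        _ = w.C ^ w.C * (1 + ρ) ^ w.C := Real.mul_rpow hC0.le (by linarith)
        _ ≤ w.C ^ w.C * (1 + ρ) ^ ⌈w.C⌉₊ := by
            gcongr
            rw [← Real.rpow_natCast]
            exact Real.rpow_le_rpow_of_exponent_le (by linarith) (Nat.le_ceil _)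
    rw [hB, hE, mul_assoc]
    gcongr
  have hη : 0 < 1 / ((c + 1) * B) := by positivity
  have h := grid_pack (fun a (p : ι × ι) => y a p.1 p.2) hη hB0.le s (fun a ha p =>
    (abs_entry_le _ _ _).trans (hb _ (hy a ha).1
      ((hy a ha).2.trans (le_mul_of_one_le_left hρ hC)))) (by
    intro a ha b hb' hab
    by_contra hcon
    push Not at hcon
    have h1 : ‖y b - y a‖ ≤ c * (1 / ((c + 1) * B)) :=
      norm_le_of_entry hη.le fun i j => by
        rw [Matrix.sub_apply, abs_sub_comm]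
        exact (hcon (i, j)).le
    have h2 : ‖(y a)⁻¹‖ ≤ B := hb _ ((hy a ha).1.inv ordConnected_univ)
      ((hy a ha).1.N_inv_le.trans (mul_le_mul_of_nonneg_left (hy a ha).2 hC0.le))
    have h3 : (y a)⁻¹ * y b - 1 = (y a)⁻¹ * (y b - y a) := by
      rw [mul_sub, (hy a ha).1.inv_mul]
    have h4 : ‖(y a)⁻¹ * y b - 1‖ < 1 := by
      rw [h3]
      calc _ ≤ ‖(y a)⁻¹‖ * ‖y b - y a‖ := norm_mul_le _ _
        _ ≤ B * (c * (1 / ((c + 1) * B))) := by gcongr
        _ = c / (c + 1) := by field_simp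
        _ < 1 := by rw [div_lt_one (by linarith)]; linarith
    refine absurd (hs a ha b hb' hab) (not_le.2 ((N_lt_iff one_pos).2 fun i j hij => ?_))
    rw [Real.one_rpow]
    refine lt_of_le_of_lt ?_ h4
    refine le_trans (le_of_eq ?_) (abs_entry_le _ i j)
    rw [Matrix.sub_apply, one_apply_of_lt hij, sub_zero])
  refine h.trans ?_
  rw [pC, pD, pow_mul, ← mul_pow, ← hc, ← hE]
  gcongr
  have h5 : B / (1 / ((c + 1) * B)) = (c + 1) * E ^ 2 * (1 + ρ) ^ (2 * ⌈w.C⌉₊) := by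
    rw [hB, pow_mul']
    field_simp
  have h6 : (1 : ℝ) ≤ (1 + ρ) ^ (2 * ⌈w.C⌉₊) := one_le_pow₀ (by linarith)
  rw [h5]
  nlinarith

/-- The packing bound: a `δ`-separated family in a ball of radius `R`. -/
theorem pack {α : Type*} (x : α → Matrix ι ι ℝ) (s : Finset α) {δ R : ℝ} (hδ : 0 < δ) (hR : 0 ≤ R)
    {h : Matrix ι ι ℝ} (hh : w.Nil univ h)
    (hx : ∀ a ∈ s, w.Nil univ (x a) ∧ w.N (h⁻¹ * x a) ≤ R)
    (hs : ∀ a ∈ s, ∀ b ∈ s, a ≠ b → δ ≤ w.N ((x a)⁻¹ * x b)) :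
    (s.card : ℝ) ≤ w.pC * (1 + R / δ) ^ w.pD := by
  have he : Real.exp (-Real.log δ) = δ⁻¹ := by rw [Real.exp_neg, Real.exp_log hδ]
  refine pack_one (fun a => w.dil (-Real.log δ) 0 * (h⁻¹ * x a) * w.dil (- -Real.log δ) 0) s
    (by positivity) (fun a ha => ⟨?_, ?_⟩) fun a ha b hb hab => ?_
  · simpa using (Nil.mul ordConnected_univ (hh.inv ordConnected_univ) (hx a ha).1).dil_conj
      (-Real.log δ) 0
  · rw [N_dil, he, div_eq_inv_mul]
    gcongr
    exact (hx a ha).2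
  · have e1 : w.dil (- -Real.log δ) 0 * w.dil (-Real.log δ) 0 = 1 := by
      simpa using w.dil_neg_mul (-Real.log δ) 0
    have e2 : (w.dil (- -Real.log δ) 0)⁻¹ = w.dil (-Real.log δ) 0 := Matrix.inv_eq_right_inv e1
    have e3 : (w.dil (-Real.log δ) 0)⁻¹ = w.dil (- -Real.log δ) 0 := Matrix.inv_eq_left_inv e1
    have e4 : (w.dil (-Real.log δ) 0 * (h⁻¹ * x a) * w.dil (- -Real.log δ) 0)⁻¹
        * (w.dil (-Real.log δ) 0 * (h⁻¹ * x b) * w.dil (- -Real.log δ) 0)
        = w.dil (-Real.log δ) 0 * ((x a)⁻¹ * x b) * w.dil (- -Real.log δ) 0 := by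
      simp only [Matrix.mul_inv_rev, e2, e3, hh.inv_inv, mul_assoc]
      rw [← mul_assoc (w.dil (- -Real.log δ) 0), e1, one_mul, ← mul_assoc h, hh.mul_inv, one_mul]
    rw [e4, N_dil, he, ← div_eq_inv_mul, le_div_iff₀ hδ, one_mul]
    exact hs a ha b hb hab

/-- The packing bound for sets. -/
theorem pack_set {α : Type*} (x : α → Matrix ι ι ℝ) (s : Set α) {δ R : ℝ} (hδ : 0 < δ)
    (hR : 0 ≤ R) {h : Matrix ι ι ℝ} (hh : w.Nil univ h)
    (hx : ∀ a ∈ s, w.Nil univ (x a) ∧ w.N (h⁻¹ * x a) ≤ R)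
    (hs : ∀ a ∈ s, ∀ b ∈ s, a ≠ b → δ ≤ w.N ((x a)⁻¹ * x b)) :
    s.Finite ∧ (s.ncard : ℝ) ≤ w.pC * (1 + R / δ) ^ w.pD := by
  have key : ∀ t : Finset α, (t : Set α) ⊆ s → (t.card : ℝ) ≤ w.pC * (1 + R / δ) ^ w.pD :=
    fun t ht => pack x t hδ hR hh (fun a ha => hx a (ht ha)) fun a ha b hb => hs a (ht ha) b (ht hb)
  have hf : s.Finite := by
    by_contra hinf
    obtain ⟨t, ht, hc⟩ := Set.Infinite.exists_subset_card_eq hinf
      (⌈w.pC * (1 + R / δ) ^ w.pD⌉₊ + 1)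
    have h1 := key t ht
    rw [hc] at h1
    push_cast at h1
    linarith [Nat.le_ceil (w.pC * (1 + R / δ) ^ w.pD)]
  refine ⟨hf, ?_⟩
  rw [ncard_eq_toFinset_card s hf]
  exact key _ (by simp)

end Pack

/-- A net of mesh `δ` in a set `H` of unipotent matrices, with measurable cells. -/
structure Net (w : Wt ι) (H : Set (Matrix ι ι ℝ)) (δ : ℝ) where
  cell : Matrix ι ι ℝ → ℕ
  ctr : ℕ → Matrix ι ι ℝ
  pos : 0 < δ
  nil : ∀ h ∈ H, w.Nil univ h
  meas : Measurable cell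
  ctr_mem : ∀ k, ctr k ∈ H
  near : ∀ h ∈ H, w.N ((ctr (cell h))⁻¹ * h) ≤ δ / w.C ^ 2
  sep : ∀ h ∈ H, ∀ h' ∈ H, cell h ≠ cell h' →
    δ / w.C ^ 3 ≤ w.N ((ctr (cell h))⁻¹ * ctr (cell h'))

theorem nonempty_net {H : Set (Matrix ι ι ℝ)} (hH : ∀ h ∈ H, w.Nil univ h) (h0 : H.Nonempty)
    {δ : ℝ} (hδ : 0 < δ) : Nonempty (w.Net H δ) := by
  classical
  have hC := w.one_le_C
  have hC0 := w.C_pos
  have hη : 0 < δ / w.C ^ 3 := by positivity
  obtain ⟨P, hP⟩ := zorn_subset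
    {P : Set (Matrix ι ι ℝ) | P ⊆ H ∧ P.Pairwise fun p q => δ / w.C ^ 3 ≤ w.N (p⁻¹ * q)} (by
      intro c hc hch
      refine ⟨⋃₀ c, ⟨sUnion_subset fun s hs => (hc hs).1, ?_⟩, fun s hs => subset_sUnion_of_mem hs⟩
      rw [pairwise_sUnion hch.directedOn]
      exact fun s hs => (hc hs).2)
  have hPH := hP.prop.1
  have hPs := hP.prop.2
  have hcov : ∀ h ∈ H, ∃ p ∈ P, w.N (p⁻¹ * h) ≤ δ / w.C ^ 2 := by
    intro h hh
    by_contra hcon
    push Not at hcon
    have hle : δ / w.C ^ 3 ≤ δ / w.C ^ 2 := by gcongr; norm_num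
    have h1 : insert h P ⊆ P := by
      refine hP.le_of_ge ⟨insert_subset hh hPH, ?_⟩ (subset_insert _ _)
      rw [pairwise_insert]
      refine ⟨hPs, fun p hp _ => ⟨?_, hle.trans (hcon p hp).le⟩⟩
      have h2 := (Nil.mul ordConnected_univ ((hH h hh).inv ordConnected_univ)
        (hH p (hPH hp))).N_inv_le
      rw [Matrix.mul_inv_rev, (hH h hh).inv_inv] at h2
      have h3 := (hcon p hp).le.trans h2
      rw [div_le_iff₀ (by positivity)] at h3 ⊢
      refine h3.trans_eq ?_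
      ring
    have h4 := hcon h (h1 (mem_insert _ _))
    rw [(hH h hh).inv_mul, N_one] at h4
    exact absurd h4 (not_lt.2 (by positivity))
  have hPc : P.Countable := by
    have : P = ⋃ k : ℕ, {p ∈ P | w.N p ≤ k} := by
      ext p
      simp only [mem_iUnion, mem_ofPred_eq, exists_and_left, iff_self_and]
      exact fun _ => exists_nat_ge _
    rw [this]
    refine countable_iUnion fun k => Set.Finite.countable ?_
    refine (pack_set id _ hη (Nat.cast_nonneg k) Nil.one (fun a ha => ⟨hH a (hPH ha.1), ?_⟩)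
      fun a ha b hb hab => hPs ha.1 hb.1 hab).1
    simpa using ha.2
  have hPn : P.Nonempty := by
    obtain ⟨h, hh⟩ := h0
    obtain ⟨p, hp, -⟩ := hcov h hh
    exact ⟨p, hp⟩
  obtain ⟨e, he⟩ := hPc.exists_eq_range hPn
  have heP : ∀ k, e k ∈ P := fun k => he ▸ mem_range_self k
  let good : Matrix ι ι ℝ → ℕ → Prop := fun h k =>
    w.N ((e k)⁻¹ * h) ≤ δ / w.C ^ 2 ∨ ∀ j, ¬w.N ((e j)⁻¹ * h) ≤ δ / w.C ^ 2
  have hex : ∀ h, ∃ k, good h k := by
    intro h
    by_cases h1 : ∃ k, w.N ((e k)⁻¹ * h) ≤ δ / w.C ^ 2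
    · exact h1.imp fun _ h2 => Or.inl h2
    · exact ⟨0, Or.inr (not_exists.1 h1)⟩
  have hm : ∀ k, MeasurableSet {h : Matrix ι ι ℝ | w.N ((e k)⁻¹ * h) ≤ δ / w.C ^ 2} := fun k =>
    measurableSet_le (w.measurable_N.comp (Measurable.mmul measurable_const measurable_id))
      measurable_const
  have hnear : ∀ h ∈ H, w.N ((e (Nat.find (hex h)))⁻¹ * h) ≤ δ / w.C ^ 2 := by
    intro h hh
    refine (Nat.find_spec (hex h)).resolve_right fun h1 => ?_
    obtain ⟨p, hp, h2⟩ := hcov h hh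
    rw [he] at hp
    obtain ⟨j, rfl⟩ := hp
    exact h1 j h2
  refine ⟨⟨fun h => Nat.find (hex h), e, hδ, hH, measurable_find hex fun k => ?_,
    fun k => hPH (heP k), hnear, fun h hh h' hh' hne => hPs (heP _) (heP _) fun heq => ?_⟩⟩
  · refine (hm k).union ((MeasurableSet.iInter fun j => (hm j).compl).congr ?_)
    ext h
    simp only [mem_iInter]
    rfl
  · rcases lt_or_gt_of_ne hne with h1 | h1
    · exact Nat.find_min (hex h') h1 (Or.inl (heq ▸ hnear h' hh'))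
    · exact Nat.find_min (hex h) h1 (Or.inl (heq ▸ hnear h hh))

namespace Net

variable {H : Set (Matrix ι ι ℝ)} {δ : ℝ} (T : w.Net H δ) {h h' : Matrix ι ι ℝ}

theorem ctr_nil (k : ℕ) : w.Nil univ (T.ctr k) := T.nil _ (T.ctr_mem k)

theorem near' (hh : h ∈ H) : w.N (h⁻¹ * T.ctr (T.cell h)) ≤ δ / w.C := by
  have h1 := (Nil.mul ordConnected_univ ((T.ctr_nil (T.cell h)).inv ordConnected_univ)
    (T.nil h hh)).N_inv_le
  rw [Matrix.mul_inv_rev, (T.ctr_nil _).inv_inv] at h1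
  refine h1.trans ((mul_le_mul_of_nonneg_left (T.near h hh) w.C_pos.le).trans_eq ?_)
  have := w.C_pos
  field_simp

/-- Points of the same cell are `δ`-close. -/
theorem same (hh : h ∈ H) (hh' : h' ∈ H) (e : T.cell h = T.cell h') : w.N (h⁻¹ * h') ≤ δ := by
  have hC := w.one_le_C
  have hC0 := w.C_pos
  have hδ := T.pos
  have h1 : h⁻¹ * h' = (h⁻¹ * T.ctr (T.cell h)) * ((T.ctr (T.cell h'))⁻¹ * h') := by
    rw [e, mul_assoc, ← mul_assoc (T.ctr _), (T.ctr_nil _).mul_inv, one_mul]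
  have h2 : δ / w.C ^ 2 ≤ δ / w.C := by
    gcongr
    nlinarith
  rw [h1]
  refine ((Nil.mul ordConnected_univ ((T.nil h hh).inv ordConnected_univ) (T.ctr_nil _)).N_mul_le
    (Nil.mul ordConnected_univ ((T.ctr_nil _).inv ordConnected_univ) (T.nil h' hh'))
    (T.near' hh) ((T.near h' hh').trans h2)).trans_eq ?_
  field_simp

variable (w) in
/-- The constant in the number of cells that meet a ball. -/
def _root_.Pool.Agent.P.MP_d483fb_an.Z.Wt.nC : ℝ := w.pC * (2 * w.C ^ 4) ^ w.pD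

variable (w) in
theorem _root_.Pool.Agent.P.MP_d483fb_an.Z.Wt.one_le_nC : 1 ≤ w.nC :=
  one_le_mul_of_one_le_of_one_le w.one_le_pC
    (one_le_pow₀ (by nlinarith [one_le_pow₀ (n := 4) w.one_le_C]))

/-- The cells that meet a ball. -/
theorem count {R : ℝ} (hR : 0 ≤ R) (hh : w.Nil univ h) :
    ∃ s : Finset ℕ, (s.card : ℝ) ≤ w.nC * (1 + R / δ) ^ w.pD ∧
      ∀ k, k ∈ s ↔ ∃ h' ∈ H, w.N (h⁻¹ * h') ≤ R ∧ T.cell h' = k := by
  have hC := w.one_le_C
  have hC0 := w.C_pos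
  have hδ := T.pos
  obtain ⟨hf, hc⟩ := pack_set T.ctr {k | ∃ h' ∈ H, w.N (h⁻¹ * h') ≤ R ∧ T.cell h' = k}
    (δ := δ / w.C ^ 3) (R := w.C * (R + δ)) (by positivity) (by positivity) hh (by
      rintro _ ⟨h', hh', h1, rfl⟩
      refine ⟨T.ctr_nil _, ?_⟩
      have h2 : h⁻¹ * T.ctr (T.cell h') = (h⁻¹ * h') * (h'⁻¹ * T.ctr (T.cell h')) := by
        rw [mul_assoc, ← mul_assoc h', (T.nil h' hh').mul_inv, one_mul]
      rw [h2]
      refine (Nil.mul ordConnected_univ (hh.inv ordConnected_univ) (T.nil h' hh')).N_mul_le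
        (Nil.mul ordConnected_univ ((T.nil h' hh').inv ordConnected_univ) (T.ctr_nil _))
        (by linarith) ((T.near' hh').trans ?_)
      linarith [div_le_self hδ.le hC]) (by
      rintro _ ⟨a, ha, -, rfl⟩ _ ⟨b, hb, -, rfl⟩ hab
      exact T.sep a ha b hb hab)
  refine ⟨hf.toFinset, ?_, fun k => by simp⟩
  rw [← ncard_eq_toFinset_card _ hf]
  refine hc.trans ?_
  rw [nC, mul_assoc, ← mul_pow]
  have := w.pC_pos
  gcongr
  have h3 : w.C * (R + δ) / (δ / w.C ^ 3) = w.C ^ 4 * (1 + R / δ) := by field_simp; ring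
  have h4 : 1 ≤ w.C ^ 4 := one_le_pow₀ hC
  have h5 : 0 ≤ R / δ := by positivity
  rw [h3]
  nlinarith

/-- The cells within distance `R` of a given cell (in either order). -/
theorem count_nb {R : ℝ} (hR : 0 ≤ R) (j : ℕ) :
    ∃ s : Finset ℕ, (s.card : ℝ) ≤ w.nC * (1 + w.C ^ 2 * (R + δ) / δ) ^ w.pD ∧
      ∀ h ∈ H, ∀ h' ∈ H, T.cell h = j → w.N (h⁻¹ * h') ≤ R ∨ w.N (h'⁻¹ * h) ≤ R →
        T.cell h' ∈ s := by
  have hC := w.one_le_C
  have hC0 := w.C_pos
  have hδ := T.pos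
  obtain ⟨s, hs, hm⟩ := T.count (R := w.C ^ 2 * (R + δ)) (by positivity) (T.ctr_nil j)
  refine ⟨s, hs, fun h hh h' hh' hj hN => (hm _).2 ⟨h', hh', ?_, rfl⟩⟩
  have h1 : w.N (h⁻¹ * h') ≤ w.C * (R + δ) := by
    rcases hN with hN | hN
    · nlinarith
    · have h2 := (Nil.mul ordConnected_univ ((T.nil h' hh').inv ordConnected_univ)
        (T.nil h hh)).N_inv_le
      rw [Matrix.mul_inv_rev, (T.nil h' hh').inv_inv] at h2
      nlinarith
  have h2 : (T.ctr j)⁻¹ * h' = ((T.ctr (T.cell h))⁻¹ * h) * (h⁻¹ * h') := by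
    rw [hj, mul_assoc, ← mul_assoc h, (T.nil h hh).mul_inv, one_mul]
  rw [h2]
  refine ((Nil.mul ordConnected_univ ((T.ctr_nil _).inv ordConnected_univ) (T.nil h hh)).N_mul_le
    (Nil.mul ordConnected_univ ((T.nil h hh).inv ordConnected_univ) (T.nil h' hh'))
    ((T.near h hh).trans ?_) h1).trans_eq (by ring)
  have h3 : δ / w.C ^ 2 ≤ δ := div_le_self hδ.le (one_le_pow₀ hC)
  nlinarith

end Net

/-- N8: measurable cells of diameter `δ`, polynomially many of which meet a ball. -/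
theorem exists_cell {H : Set (Matrix ι ι ℝ)} (hH : ∀ h ∈ H, w.Nil univ h) {δ : ℝ} (hδ : 0 < δ) :
    ∃ cell : Matrix ι ι ℝ → ℕ, Measurable cell ∧
      (∀ h ∈ H, ∀ h' ∈ H, cell h = cell h' → w.N (h⁻¹ * h') ≤ δ) ∧
      ∀ (h : Matrix ι ι ℝ) (R : ℝ), w.Nil univ h → 0 ≤ R →
        ∃ s : Finset ℕ, (s.card : ℝ) ≤ w.nC * (1 + R / δ) ^ w.pD ∧
          ∀ h' ∈ H, w.N (h⁻¹ * h') ≤ R → cell h' ∈ s := by
  obtain ⟨T⟩ := nonempty_net (w := w) (H := {n | w.Nil univ n}) (fun _ h => h) ⟨1, Nil.one⟩ hδ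
  refine ⟨T.cell, T.meas, fun h hh h' hh' => T.same (hH h hh) (hH h' hh'), fun h R hh hR => ?_⟩
  obtain ⟨s, hs, hm⟩ := T.count hR hh
  exact ⟨s, hs, fun h' hh' hN => (hm _).2 ⟨h', hH h' hh', hN, rfl⟩⟩

end Wt

end Pool.Agent.P.MP_d483fb_an.Z

end

end

section

/-!
Elementary properties of leaf structures: cocycle formulas, equivariance, measurability, growth of
the gauge along the flow and the bound for the block diagonal parts.
-/

open scoped Matrix Matrix.Norms.Operator Topology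
open MeasureTheory Filter Set

noncomputable section

namespace Pool.Agent.P.MP_d483fb_an.Z

namespace Wt

variable {ι : Type} [Fintype ι] [DecidableEq ι] {w : Wt ι} {J : Set ℝ} {χ R : ℝ}
  {n p e : Matrix ι ι ℝ}

variable (w) in
/-- Conjugation by a bounded element is Hoelder for the gauge. -/
theorem exists_N_conj (R : ℝ) : ∃ K, 0 ≤ K ∧ ∀ p e : Matrix ι ι ℝ, w.Nil univ p → w.Nil univ e →
    w.N p ≤ R → w.N e ≤ R → w.N (p * e * p⁻¹) ≤ K * w.N e ^ w.th := by
  obtain ⟨R', hR1, hR⟩ : ∃ R', 1 ≤ R' ∧ R ≤ R' := ⟨max 1 R, le_max_left _ _, le_max_right _ _⟩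
  have hC := w.one_le_C
  obtain ⟨M0, hM0⟩ : ∃ M0, M0 = w.C * (1 + w.C * R') ^ w.C := ⟨_, rfl⟩
  have hCR : R' ≤ w.C * R' := le_mul_of_one_le_left (by linarith) hC
  have M1 : 1 ≤ M0 := hM0 ▸
    one_le_mul_of_one_le_of_one_le hC (Real.one_le_rpow (by linarith) w.C_pos.le)
  have M3 : M0 ≤ M0 * M0 * M0 := by nlinarith [mul_nonneg (sub_nonneg.2 M1) (sub_nonneg.2 M1)]
  have hc : 0 ≤ w.gi * (M0 * M0 * M0) ^ (w.gi + 1) :=
    mul_nonneg w.gi_pos.le (Real.rpow_nonneg (by linarith) _)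
  have hq : 0 ≤ M0 * M0 * (Fintype.card ι * R' ^ w.tp) := by positivity
  refine ⟨w.gi * (M0 * M0 * M0) ^ (w.gi + 1) * (M0 * M0 * (Fintype.card ι * R' ^ w.tp)) ^ w.tp⁻¹,
    mul_nonneg hc (Real.rpow_nonneg hq _), fun p e h h' hp he => ?_⟩
  have b1 : ‖p‖ ≤ M0 := hM0 ▸ h.norm_le ((hp.trans hR).trans hCR)
  have b2 : ‖e‖ ≤ M0 := hM0 ▸ h'.norm_le ((he.trans hR).trans hCR)
  have b3 : ‖p⁻¹‖ ≤ M0 := hM0 ▸ (h.inv ordConnected_univ).norm_le
    (h.N_inv_le.trans (mul_le_mul_of_nonneg_left (hp.trans hR) w.C_pos.le))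
  have b4 := h'.norm_sub_one_le hR1 (he.trans hR)
  have b5 : ‖(1 : Matrix ι ι ℝ)‖ ≤ M0 := hM0 ▸ (Nil.one (w := w) (J := univ)).norm_le
    (by rw [N_one]; linarith)
  have h0 := w.N_nonneg e
  have tri : ∀ x : Matrix ι ι ℝ, ‖p * x * p⁻¹‖ ≤ M0 * M0 * ‖x‖ := fun x => by
    refine (norm_mul_le _ _).trans ((mul_le_mul ((norm_mul_le _ _).trans
      (mul_le_mul_of_nonneg_right b1 (norm_nonneg _))) b3 (norm_nonneg _) (by positivity)).trans
      (le_of_eq (by ring)))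
  have h1 := N_holder (w := w) (M1.trans M3)
    ((tri e).trans (mul_le_mul_of_nonneg_left b2 (by positivity))) (b5.trans M3)
  rw [N_one, sub_zero] at h1
  refine (le_abs_self _).trans (h1.trans ?_)
  rw [mul_assoc (w.gi * (M0 * M0 * M0) ^ (w.gi + 1))]
  refine mul_le_mul_of_nonneg_left ?_ hc
  rw [th, Real.rpow_mul h0, ← Real.mul_rpow hq (Real.rpow_nonneg h0 _)]
  refine Real.rpow_le_rpow (norm_nonneg _) ?_ (inv_pos.2 w.tp_pos).le
  have e1 : p * e * p⁻¹ - 1 = p * (e - 1) * p⁻¹ := by rw [mul_sub, sub_mul, mul_one, h.mul_inv]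
  rw [e1, mul_assoc (M0 * M0), mul_assoc (Fintype.card ι : ℝ)]
  exact (tri _).trans (mul_le_mul_of_nonneg_left b4 (by positivity))

end Wt

namespace Pre

variable {X : Type} [MeasurableSpace X] {μ : Measure X} {ι : Type} [Fintype ι] [DecidableEq ι]
  {S : Pre X μ ι} {x y z : X} {J : Set ℝ} {s t : ℝ × ℝ}

section Flow

variable (S)

theorem f_neg_f (s : ℝ × ℝ) (x : X) : S.f (-s) (S.f s x) = x := by
  rw [← S.f_add, neg_add_cancel, S.f_zero]

theorem f_f_neg (s : ℝ × ℝ) (x : X) : S.f s (S.f (-s) x) = x := by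
  rw [← S.f_add, add_neg_cancel, S.f_zero]

theorem f_comm (s t : ℝ × ℝ) (x : X) : S.f s (S.f t x) = S.f t (S.f s x) := by
  rw [← S.f_add, ← S.f_add, add_comm]

theorem measurable_f (s : ℝ × ℝ) : Measurable (S.f s) := (S.mp s).measurable

/-- The flow as a measurable equivalence. -/
def fE (s : ℝ × ℝ) : X ≃ᵐ X where
  toFun := S.f s
  invFun := S.f (-s)
  left_inv := S.f_neg_f s
  right_inv := S.f_f_neg s
  measurable_toFun := S.measurable_f s
  measurable_invFun := S.measurable_f (-s)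

theorem fE_apply (s : ℝ × ℝ) (x : X) : S.fE s x = S.f s x := rfl

theorem fE_symm_apply (s : ℝ × ℝ) (x : X) : (S.fE s).symm x = S.f (-s) x := rfl

theorem a_zero (x : X) : S.a 0 x = x := by
  have : (((0 : ℤ) : ℝ), (0 : ℝ)) = 0 := by simp [Prod.ext_iff]
  rw [a, this, S.f_zero]

theorem a_add (i j : ℤ) (x : X) : S.a (i + j) x = S.a i (S.a j x) := by
  rw [a, a, a, ← S.f_add]
  simp

theorem a_neg_a (i : ℤ) (x : X) : S.a (-i) (S.a i x) = x := by
  rw [← a_add, neg_add_cancel, a_zero]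

theorem a_a_neg (i : ℤ) (x : X) : S.a i (S.a (-i) x) = x := by
  rw [← a_add, add_neg_cancel, a_zero]

theorem aE_apply (x : X) : S.aE x = S.a 1 x := by
  rw [a, Int.cast_one]
  rfl

theorem aE_symm_apply (x : X) : S.aE.symm x = S.a (-1) x := by
  rw [a, Int.cast_neg, Int.cast_one]
  rfl

theorem aE_iterate (k : ℕ) (x : X) : S.aE^[k] x = S.a k x := by
  induction k with
  | zero => simp [a_zero]
  | succ k ih => rw [Function.iterate_succ_apply', ih, aE_apply, ← a_add, add_comm]; simp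

theorem aE_symm_iterate (k : ℕ) (x : X) : S.aE.symm^[k] x = S.a (-k) x := by
  induction k with
  | zero => simp [a_zero]
  | succ k ih =>
    rw [Function.iterate_succ_apply', ih, aE_symm_apply, ← a_add]
    congr 1
    push_cast
    ring

theorem ergodic_aE : Ergodic S.aE μ := S.erg

theorem mp_a (i : ℤ) : MeasurePreserving (S.a i) μ μ := S.mp _

theorem measurable_a (i : ℤ) : Measurable (S.a i) := S.measurable_f _

theorem f_mem_iff (s : ℝ × ℝ) (x : X) : S.f s x ∈ S.X0 ↔ x ∈ S.X0 :=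
  ⟨fun h => by simpa [f_neg_f] using S.inv0 (-s) _ h, S.inv0 s x⟩

variable {S} in
theorem a_mem (hx : x ∈ S.X0) (i : ℤ) : S.a i x ∈ S.X0 := S.inv0 _ _ hx

end Flow

section Alg

theorem R_mem_left (h : S.R x y) : x ∈ S.X0 := S.R_mem x y h

theorem R_mem_right (h : S.R x y) : y ∈ S.X0 := S.R_mem y x (S.R_symm x y h)

theorem R_f_iff (s : ℝ × ℝ) : S.R (S.f s x) (S.f s y) ↔ S.R x y :=
  ⟨fun h => by simpa [f_neg_f] using S.R_f (-s) _ _ h, S.R_f s x y⟩

theorem R_a (h : S.R x y) (i : ℤ) : S.R (S.a i x) (S.a i y) := S.R_f _ _ _ h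

theorem T_mul_symm (h : S.R x y) : S.T x y * S.T y x = 1 := by
  rw [S.T_mul x y x h (S.R_symm x y h), S.T_self x (R_mem_left h)]

theorem isUnit_T (h : S.R x y) : IsUnit (S.T x y).det :=
  Matrix.isUnit_det_of_right_inverse (T_mul_symm h)

theorem T_inv (h : S.R x y) : (S.T x y)⁻¹ = S.T y x := Matrix.inv_eq_right_inv (T_mul_symm h)

theorem n_nil (h : S.R x y) : S.w.Nil univ (S.n x y) := (S.T_tri x y h).nil_nil (isUnit_T h)

variable (S) in
theorem l_lev (x y : X) : S.w.Lev (S.l x y) := Wt.lev_lev _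

theorem isUnit_l (h : S.R x y) : IsUnit (S.l x y).det := (S.T_tri x y h).isUnit_lev (isUnit_T h)

theorem n_mul_l (h : S.R x y) : S.n x y * S.l x y = S.T x y :=
  (S.T_tri x y h).nil_mul_lev (isUnit_T h)

theorem l_trans (h : S.R x y) (h' : S.R y z) : S.l x z = S.l x y * S.l y z := by
  rw [l, ← S.T_mul x y z h h', (S.T_tri x y h).lev_mul (S.T_tri y z h')]
  rfl

/-- The cocycle formula. -/
theorem n_trans (h : S.R x y) (h' : S.R y z) :
    S.n x z = S.n x y * (S.l x y * S.n y z * (S.l x y)⁻¹) := by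
  rw [n, ← S.T_mul x y z h h', (S.T_tri x y h).nil_mul (S.T_tri y z h') (isUnit_T h)]
  rfl

theorem n_self (hx : x ∈ S.X0) : S.n x x = 1 := by
  rw [n, S.T_self x hx, (Wt.Nil.one (J := univ)).nil_eq]

theorem l_self (hx : x ∈ S.X0) : S.l x x = 1 := by
  rw [l, S.T_self x hx, Wt.Lev.one.lev_eq]

theorem N_self (hx : x ∈ S.X0) : S.N x x = 0 := by rw [N, n_self hx, Wt.N_one]

variable (S) in
theorem N_nonneg (x y : X) : 0 ≤ S.N x y := S.w.N_nonneg _

theorem l_mul_symm (h : S.R x y) : S.l x y * S.l y x = 1 := by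
  rw [← l_trans h (S.R_symm x y h), l_self (R_mem_left h)]

theorem l_inv (h : S.R x y) : (S.l x y)⁻¹ = S.l y x := Matrix.inv_eq_right_inv (l_mul_symm h)

theorem n_trans' (h : S.R x y) (h' : S.R y z) :
    S.n x z = S.n x y * (S.l x y * S.n y z * S.l y x) := by
  rw [n_trans h h', l_inv h]

theorem n_symm (h : S.R x y) : S.n y x = S.l y x * (S.n x y)⁻¹ * S.l x y := by
  rw [n, ← T_inv h, (S.T_tri x y h).nil_inv (isUnit_T h), ← l_inv h]
  rfl

/-- The position of `z` seen from `y`, computed in the chart at `x`. -/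
theorem n_inv_mul (h : S.R x y) (h' : S.R y z) :
    (S.n x y)⁻¹ * S.n x z = S.l x y * S.n y z * S.l y x := by
  rw [n_trans' h h', ← mul_assoc, (n_nil h).inv_mul, one_mul]

theorem n_eq_conj (h : S.R x y) (h' : S.R y z) :
    S.n y z = S.l y x * ((S.n x y)⁻¹ * S.n x z) * S.l x y := by
  have e := l_mul_symm (S.R_symm x y h)
  rw [n_inv_mul h h', ← mul_assoc, ← mul_assoc, e, one_mul, mul_assoc, e, mul_one]

theorem eq_of_n_eq_one (h : S.R x y) (e : S.n x y = 1) : x = y :=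
  S.T_inj x y h ((S.T_tri x y h).lev_of_nil_eq_one (isUnit_T h) e)

theorem eq_of_N_eq_zero (h : S.R x y) (e : S.N x y = 0) : x = y :=
  eq_of_n_eq_one h ((n_nil h).eq_one_of_N e)

theorem eq_of_n_eq (h : S.R x y) (h' : S.R x z) (e : S.n x y = S.n x z) : y = z := by
  have h2 := S.R_trans y x z (S.R_symm x y h) h'
  refine eq_of_n_eq_one h2 ?_
  rw [n_eq_conj h h2, ← e, (n_nil h).inv_mul, mul_one, l_mul_symm (S.R_symm x y h)]

theorem L_mul_neg (hx : x ∈ S.X0) (s : ℝ × ℝ) : S.L (-s) (S.f s x) * S.L s x = 1 := by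
  rw [← S.L_add _ _ x hx, neg_add_cancel, S.L_zero x hx]

theorem isUnit_L (hx : x ∈ S.X0) (s : ℝ × ℝ) : IsUnit (S.L s x).det :=
  Matrix.isUnit_det_of_left_inverse (L_mul_neg hx s)

theorem L_inv (hx : x ∈ S.X0) (s : ℝ × ℝ) : (S.L s x)⁻¹ = S.L (-s) (S.f s x) :=
  Matrix.inv_eq_left_inv (L_mul_neg hx s)

theorem n_f (h : S.R x y) (s : ℝ × ℝ) :
    S.n (S.f s x) (S.f s y) = S.L s x * S.n x y * (S.L s x)⁻¹ := by
  rw [n, S.T_f s x y h, (S.T_tri x y h).nil_conj (S.L_lev s x (R_mem_left h))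
    (S.L_lev s y (R_mem_right h)).inv
    (Matrix.isUnit_nonsing_inv_det _ (isUnit_L (R_mem_right h) s))]
  rfl

theorem l_f (h : S.R x y) (s : ℝ × ℝ) :
    S.l (S.f s x) (S.f s y) = S.L s x * S.l x y * (S.L s y)⁻¹ := by
  rw [l, S.T_f s x y h, (S.T_tri x y h).lev_conj (S.L_lev s x (R_mem_left h))
    (S.L_lev s y (R_mem_right h)).inv]
  rfl

theorem n_a (h : S.R x y) (i : ℤ) :
    S.n (S.a i x) (S.a i y) = S.La i x * S.n x y * (S.La i x)⁻¹ := n_f h _

theorem l_a (h : S.R x y) (i : ℤ) :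
    S.l (S.a i x) (S.a i y) = S.La i x * S.l x y * (S.La i y)⁻¹ := l_f h _

theorem La_lev (hx : x ∈ S.X0) (i : ℤ) : S.w.Lev (S.La i x) := S.L_lev _ x hx

theorem isUnit_La (hx : x ∈ S.X0) (i : ℤ) : IsUnit (S.La i x).det := isUnit_L hx _

theorem RJ.refl (hx : x ∈ S.X0) : S.RJ J x x := ⟨S.R_refl x hx, by rw [n_self hx]; exact Wt.Nil.one⟩

theorem RJ.symm (hJ : J.OrdConnected) (h : S.RJ J x y) : S.RJ J y x := by
  refine ⟨S.R_symm x y h.1, ?_⟩
  rw [n_symm h.1]
  exact (h.2.inv hJ).conj (S.l_lev _ _) (S.l_lev _ _) (l_mul_symm (S.R_symm x y h.1))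

theorem RJ.trans (hJ : J.OrdConnected) (h : S.RJ J x y) (h' : S.RJ J y z) : S.RJ J x z := by
  refine ⟨S.R_trans x y z h.1 h'.1, ?_⟩
  rw [n_trans' h.1 h'.1]
  exact h.2.mul hJ (h'.2.conj (S.l_lev _ _) (S.l_lev _ _) (l_mul_symm h.1))

theorem RJ.mono {J' : Set ℝ} (h : S.RJ J x y) (hJ : J ⊆ J') : S.RJ J' x y := ⟨h.1, h.2.mono hJ⟩

theorem RJ.f (h : S.RJ J x y) (s : ℝ × ℝ) : S.RJ J (S.f s x) (S.f s y) := by
  refine ⟨S.R_f s x y h.1, ?_⟩
  rw [n_f h.1]
  exact h.2.conj_inv (S.L_lev s x (R_mem_left h.1)) (isUnit_L (R_mem_left h.1) s)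

theorem RJ.a (h : S.RJ J x y) (i : ℤ) : S.RJ J (S.a i x) (S.a i y) := h.f _

theorem RJ_f_iff (s : ℝ × ℝ) : S.RJ J (S.f s x) (S.f s y) ↔ S.RJ J x y :=
  ⟨fun h => by simpa [f_neg_f] using h.f (-s), fun h => h.f s⟩

theorem RJ_univ : S.RJ univ x y ↔ S.R x y := ⟨fun h => h.1, fun h => ⟨h, n_nil h⟩⟩

/-- Membership in a subrelation can be read in any chart. -/
theorem RJ_iff_chart (h : S.R x y) (h' : S.R x z) :
    S.RJ J y z ↔ S.w.Nil J ((S.n x y)⁻¹ * S.n x z) := by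
  have h2 := S.R_trans y x z (S.R_symm x y h) h'
  constructor
  · intro hr
    rw [n_inv_mul h h2]
    exact hr.2.conj (S.l_lev _ _) (S.l_lev _ _) (l_mul_symm h)
  · intro hr
    refine ⟨h2, ?_⟩
    rw [n_eq_conj h h2]
    exact hr.conj (S.l_lev _ _) (S.l_lev _ _) (l_mul_symm (S.R_symm x y h))

end Alg

section Meas

variable (S)

theorem measurable_n : Measurable fun p : X × X => S.n p.1 p.2 := S.w.measurable_nil.comp S.measT

theorem measurable_l : Measurable fun p : X × X => S.l p.1 p.2 := S.w.measurable_lev.comp S.measT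

theorem measurable_N : Measurable fun p : X × X => S.N p.1 p.2 :=
  S.w.measurable_N.comp S.measurable_n

theorem measurable_n_right (x : X) : Measurable (S.n x) :=
  S.measurable_n.comp measurable_prodMk_left

theorem measurable_N_right (x : X) : Measurable (S.N x) :=
  S.w.measurable_N.comp (S.measurable_n_right x)

theorem measurableSet_RJ (J : Set ℝ) : MeasurableSet {p : X × X | S.RJ J p.1 p.2} :=
  S.measR.inter (S.measurable_n (S.w.measurableSet_Nil J))

variable {S} {α : Type*} [MeasurableSpace α] {u v : α → X}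

theorem measurable_n_comp (hu : Measurable u) (hv : Measurable v) :
    Measurable fun a => S.n (u a) (v a) := S.measurable_n.comp (hu.prodMk hv)

theorem measurable_l_comp (hu : Measurable u) (hv : Measurable v) :
    Measurable fun a => S.l (u a) (v a) := S.measurable_l.comp (hu.prodMk hv)

theorem measurable_N_comp (hu : Measurable u) (hv : Measurable v) :
    Measurable fun a => S.N (u a) (v a) := S.w.measurable_N.comp (measurable_n_comp hu hv)

theorem measurableSet_RJ_comp (J : Set ℝ) (hu : Measurable u) (hv : Measurable v) :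
    MeasurableSet {a | S.RJ J (u a) (v a)} := (hu.prodMk hv) (S.measurableSet_RJ J)

end Meas

section Temp

variable {ε : ℝ} {q : X → ℝ}

theorem Temp.pos (hq : S.Temp ε q) (x : X) : 0 < q x := one_pos.trans_le (hq.one_le x)

theorem Temp.one_le_mul (hq : S.Temp ε q) (hε : 0 ≤ ε) (x : X) {r : ℝ} (hr : 0 ≤ r) :
    1 ≤ q x * Real.exp (ε * r) :=
  one_le_mul_of_one_le_of_one_le (hq.one_le x) (Real.one_le_exp (mul_nonneg hε hr))

/-- Conjugation by the flow matrices, compared with the dilations. -/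
theorem Temp.N_conj_le (hq : S.Temp ε q) (hε : 0 ≤ ε) (hx : x ∈ S.X0) {m : Matrix ι ι ℝ}
    (hm : S.w.Nil J m) (s : ℝ × ℝ) {c : ℝ} (hc : ∀ σ ∈ J, s.1 + s.2 * σ ≤ c) :
    S.w.N (S.L s x * m * (S.L s x)⁻¹) ≤
      S.w.C * (q x * Real.exp (ε * ‖s‖)) ^ S.w.C * (Real.exp c * S.w.N m) := by
  obtain ⟨g1, g2⟩ := hq.grow x hx s
  have hl := S.L_lev s x hx
  have e : S.L s x * m * (S.L s x)⁻¹ = S.L s x * S.w.dil (-s.1) (-s.2) *
      (S.w.dil s.1 s.2 * m * S.w.dil (-s.1) (-s.2)) * (S.w.dil s.1 s.2 * (S.L s x)⁻¹) := by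
    simp only [mul_assoc]
    rw [← mul_assoc (S.w.dil (-s.1) (-s.2)) (S.w.dil s.1 s.2) (S.L s x)⁻¹, S.w.dil_neg_mul, one_mul,
      ← mul_assoc (S.w.dil (-s.1) (-s.2)), S.w.dil_neg_mul, one_mul]
  have hB := hq.one_le_mul hε x (norm_nonneg s)
  rw [e]
  refine ((hm.dil_conj s.1 s.2).N_conj_le (hl.mul (S.w.dil_lev _ _)) ((S.w.dil_lev _ _).mul hl.inv)
    hB g1 g2).trans ?_
  exact mul_le_mul_of_nonneg_left (hm.N_dil_le hc)
    (mul_nonneg S.w.C_pos.le (Real.rpow_nonneg (by linarith) _))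

theorem Temp.N_f_le (hq : S.Temp ε q) (hε : 0 ≤ ε) (h : S.RJ J x y) (s : ℝ × ℝ) {c : ℝ}
    (hc : ∀ σ ∈ J, s.1 + s.2 * σ ≤ c) : S.N (S.f s x) (S.f s y) ≤
      S.w.C * (q x * Real.exp (ε * ‖s‖)) ^ S.w.C * (Real.exp c * S.N x y) := by
  rw [N, n_f h.1]
  exact hq.N_conj_le hε (R_mem_left h.1) h.2 s hc

theorem norm_int_prod (i : ℤ) : ‖(((i : ℝ), (0 : ℝ)) : ℝ × ℝ)‖ = |(i : ℝ)| := by
  simp [Prod.norm_def]

theorem Temp.N_conj_La_le (hq : S.Temp ε q) (hε : 0 ≤ ε) (hx : x ∈ S.X0) {m : Matrix ι ι ℝ}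
    (hm : S.w.Nil J m) (i : ℤ) : S.w.N (S.La i x * m * (S.La i x)⁻¹) ≤
      S.w.C * q x ^ S.w.C * Real.exp (i + S.w.C * ε * |(i : ℝ)|) * S.w.N m := by
  have := hq.N_conj_le hε hx hm ((i : ℝ), 0) (c := i) (by simp)
  rw [norm_int_prod, Real.mul_rpow (hq.pos x).le (Real.exp_pos _).le, ← Real.exp_mul] at this
  refine this.trans (le_of_eq ?_)
  rw [Real.exp_add, show ε * |(i : ℝ)| * S.w.C = S.w.C * ε * |(i : ℝ)| by ring]
  ring

theorem Temp.N_a_le (hq : S.Temp ε q) (hε : 0 ≤ ε) (h : S.R x y) (i : ℤ) :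
    S.N (S.a i x) (S.a i y) ≤
      S.w.C * q x ^ S.w.C * Real.exp (i + S.w.C * ε * |(i : ℝ)|) * S.N x y := by
  rw [N, n_a h]
  exact hq.N_conj_La_le hε (R_mem_left h) (n_nil h) i

/-- Contraction in the past. -/
theorem Temp.N_conj_back_le (hq : S.Temp ε q) (hε : 0 ≤ ε) (hε' : S.w.C * ε ≤ 1 / 2)
    (hx : x ∈ S.X0) {m : Matrix ι ι ℝ} (hm : S.w.Nil J m) (k : ℕ) :
    S.w.N (S.La (-k) x * m * (S.La (-k) x)⁻¹) ≤
      S.w.C * q x ^ S.w.C * Real.exp (-(k / 2)) * S.w.N m := by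
  refine (hq.N_conj_La_le hε hx hm _).trans (mul_le_mul_of_nonneg_right
    (mul_le_mul_of_nonneg_left (Real.exp_le_exp.2 ?_)
      (mul_nonneg S.w.C_pos.le (Real.rpow_nonneg (hq.pos x).le _))) (S.w.N_nonneg m))
  have hk : (0 : ℝ) ≤ k := Nat.cast_nonneg k
  rw [Int.cast_neg, Int.cast_natCast, abs_neg, abs_of_nonneg hk]
  nlinarith

theorem Temp.N_back_le (hq : S.Temp ε q) (hε : 0 ≤ ε) (hε' : S.w.C * ε ≤ 1 / 2) (h : S.R x y)
    (k : ℕ) : S.N (S.a (-k) x) (S.a (-k) y) ≤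
      S.w.C * q x ^ S.w.C * Real.exp (-(k / 2)) * S.N x y := by
  rw [N, n_a h]
  exact hq.N_conj_back_le hε hε' (R_mem_left h) (n_nil h) k

theorem Bd.norm_l_le (hb : S.Bd q) (h : S.R x y) (h1 : S.N x y ≤ 1) :
    ‖S.l x y‖ ≤ q x * q y ∧ ‖S.l y x‖ ≤ q x * q y :=
  ⟨(S.w.norm_lev_le _).trans (hb x y h h1).1, (S.w.norm_lev_le _).trans (hb x y h h1).2⟩

/-- The block diagonal parts in terms of those of the images under the flow. -/
theorem Temp.norm_l_le_flow (hq : S.Temp ε q) (h : S.R x y) (s : ℝ × ℝ) :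
    ‖S.l (S.f s x) (S.f s y)‖ ≤
      q x * Real.exp (ε * ‖s‖) * ‖S.l x y‖ * (q y * Real.exp (ε * ‖s‖)) := by
  have g1 := (hq.grow x (R_mem_left h) s).1
  have g2 := (hq.grow y (R_mem_right h) s).2
  have e : S.l (S.f s x) (S.f s y) =
      S.L s x * S.w.dil (-s.1) (-s.2) * S.l x y * (S.w.dil s.1 s.2 * (S.L s y)⁻¹) := by
    rw [l_f h, mul_assoc (S.L s x) (S.w.dil _ _), (S.l_lev x y).dil_comm]
    simp only [mul_assoc]
    rw [← mul_assoc (S.w.dil (-s.1) (-s.2)), S.w.dil_neg_mul, one_mul]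
  rw [e]
  have p1 : 0 ≤ q x * Real.exp (ε * ‖s‖) := (norm_nonneg _).trans g1
  exact (norm_mul_le _ _).trans (mul_le_mul ((norm_mul_le _ _).trans
    (mul_le_mul_of_nonneg_right g1 (norm_nonneg _))) g2 (norm_nonneg _)
    (mul_nonneg p1 (norm_nonneg _)))

/-- If the points are close `k` steps in the past, the block diagonal parts are bounded. -/
theorem Temp.norm_l_le_of_back (hq : S.Temp ε q) (hb : S.Bd q) (h : S.R x y) (k : ℕ)
    (h1 : S.N (S.a (-k) x) (S.a (-k) y) ≤ 1) :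
    ‖S.l x y‖ ≤ (q x * q y) ^ 2 * Real.exp (6 * ε * k) ∧
      ‖S.l y x‖ ≤ (q x * q y) ^ 2 * Real.exp (6 * ε * k) := by
  have hk : |(((-k : ℤ)) : ℝ)| = k := by simp
  have hx := hq.slow x (R_mem_left h) (-k)
  have hy := hq.slow y (R_mem_right h) (-k)
  rw [hk] at hx hy
  have hR := R_a h (-k)
  obtain ⟨b1, b2⟩ := hb.norm_l_le hR h1
  have c1 := hq.norm_l_le_flow hR (((k : ℤ) : ℝ), 0)
  have c2 := hq.norm_l_le_flow (S.R_symm _ _ hR) (((k : ℤ) : ℝ), 0)
  rw [norm_int_prod] at c1 c2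
  change ‖S.l (S.a k _) (S.a k _)‖ ≤ _ at c1 c2
  rw [a_a_neg, a_a_neg, Int.cast_natCast, Nat.abs_cast] at c1 c2
  set E := Real.exp (ε * k) with hE
  have E0 : 0 < E := Real.exp_pos _
  have e6 : Real.exp (6 * ε * k) = E ^ 6 := by
    rw [hE, ← Real.exp_nat_mul]
    congr 1
    push_cast
    ring
  have px := hq.pos (S.a (-k) x)
  have py := hq.pos (S.a (-k) y)
  have hxy : q (S.a (-k) x) * q (S.a (-k) y) ≤ q x * E * (q y * E) :=
    mul_le_mul hx hy py.le (px.le.trans hx)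
  have fin : (q (S.a (-k) x) * q (S.a (-k) y)) ^ 2 * E ^ 2 ≤ (q x * q y) ^ 2 * E ^ 6 :=
    (mul_le_mul_of_nonneg_right (pow_le_pow_left₀ (by positivity) hxy 2) (by positivity)).trans
      (le_of_eq (by ring))
  rw [e6]
  constructor
  · refine c1.trans (le_trans ?_ fin)
    refine (mul_le_mul_of_nonneg_right (mul_le_mul_of_nonneg_left b1 (by positivity))
      (by positivity)).trans (le_of_eq (by ring))
  · refine c2.trans (le_trans ?_ fin)
    refine (mul_le_mul_of_nonneg_right (mul_le_mul_of_nonneg_left b2 (by positivity))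
      (by positivity)).trans (le_of_eq (by ring))

/-- LB: the block diagonal parts grow like a small power of the gauge. -/
theorem Temp.norm_l_le (hq : S.Temp ε q) (hb : S.Bd q) (hε : 0 ≤ ε) (hε' : S.w.C * ε ≤ 1 / 2)
    (h : S.R x y) :
    ‖S.l x y‖ ≤ (q x * q y) ^ 2 *
        (Real.exp (6 * ε) * (S.w.C * q x ^ S.w.C * (1 + S.N x y)) ^ (12 * ε)) ∧
      ‖S.l y x‖ ≤ (q x * q y) ^ 2 *
        (Real.exp (6 * ε) * (S.w.C * q x ^ S.w.C * (1 + S.N x y)) ^ (12 * ε)) := by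
  have hN := S.N_nonneg x y
  have hA : 1 ≤ S.w.C * q x ^ S.w.C :=
    one_le_mul_of_one_le_of_one_le S.w.one_le_C (Real.one_le_rpow (hq.one_le x) S.w.C_pos.le)
  obtain ⟨A, hAe⟩ : ∃ A, A = S.w.C * q x ^ S.w.C * (1 + S.N x y) := ⟨_, rfl⟩
  have hA1 : 1 ≤ A := hAe ▸ one_le_mul_of_one_le_of_one_le hA (by linarith)
  have hlog := Real.log_nonneg hA1
  obtain ⟨k, hk1, hk2⟩ : ∃ k : ℕ, 2 * Real.log A ≤ k ∧ (k : ℝ) ≤ 2 * Real.log A + 1 :=
    ⟨⌈2 * Real.log A⌉₊, Nat.le_ceil _, (Nat.ceil_lt_add_one (by linarith)).le⟩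
  have h1 : S.N (S.a (-k) x) (S.a (-k) y) ≤ 1 := by
    refine (hq.N_back_le hε hε' h k).trans ?_
    have e1 : Real.exp (-(k / 2)) ≤ A⁻¹ := by
      rw [← Real.exp_log (by linarith : 0 < A), ← Real.exp_neg]
      exact Real.exp_le_exp.2 (by linarith)
    have e2 : S.w.C * q x ^ S.w.C * S.N x y ≤ A := by rw [hAe]; nlinarith
    calc _ = S.w.C * q x ^ S.w.C * S.N x y * Real.exp (-(k / 2)) := by ring
      _ ≤ A * A⁻¹ := mul_le_mul e2 e1 (Real.exp_pos _).le (by linarith)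
      _ = 1 := mul_inv_cancel₀ (by linarith)
  have h2 : Real.exp (6 * ε * k) ≤ Real.exp (6 * ε) * A ^ (12 * ε) := by
    rw [Real.rpow_def_of_pos (by linarith), ← Real.exp_add]
    exact Real.exp_le_exp.2 (by nlinarith)
  obtain ⟨b1, b2⟩ := hq.norm_l_le_of_back hb h k h1
  rw [← hAe]
  exact ⟨b1.trans (mul_le_mul_of_nonneg_left h2 (sq_nonneg _)),
    b2.trans (mul_le_mul_of_nonneg_left h2 (sq_nonneg _))⟩

/-- LB, qualitative form: on bounded sets the block diagonal parts are bounded. -/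
theorem Temp.exists_norm_l_le (hq : S.Temp ε q) (hb : S.Bd q) (hε : 0 ≤ ε)
    (hε' : S.w.C * ε ≤ 1 / 2) (q0 r : ℝ) : ∃ B, 1 ≤ B ∧ ∀ x y, S.R x y → q x ≤ q0 → q y ≤ q0 →
      S.N x y ≤ r → ‖S.l x y‖ ≤ B ∧ ‖S.l y x‖ ≤ B := by
  refine ⟨max 1 ((q0 * q0) ^ 2 * (Real.exp (6 * ε) * (S.w.C * q0 ^ S.w.C * (1 + r)) ^ (12 * ε))),
    le_max_left _ _, fun x y h hx hy hr => ?_⟩
  obtain ⟨b1, b2⟩ := hq.norm_l_le hb hε hε' h
  have px := hq.pos x
  have py := hq.pos y
  have hN := S.N_nonneg x y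
  have hC := S.w.C_pos
  have : (q x * q y) ^ 2 * (Real.exp (6 * ε) * (S.w.C * q x ^ S.w.C * (1 + S.N x y)) ^ (12 * ε)) ≤
      (q0 * q0) ^ 2 * (Real.exp (6 * ε) * (S.w.C * q0 ^ S.w.C * (1 + r)) ^ (12 * ε)) := by
    have p0 : 0 < q0 := px.trans_le hx
    gcongr
  exact ⟨b1.trans (this.trans (le_max_right _ _)), b2.trans (this.trans (le_max_right _ _))⟩

end Temp

end Pre

end Pool.Agent.P.MP_d483fb_an.Z

end

end
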