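import Pool.Agent.P.MP_d483fb_an.M.A11
import Pool.Agent.P.MP_d483fb_an.M.A15

section

/-!
E10: upper bound for the information of names.
-/

namespace Pool.Agent.P.MP_d483fb_an.Z.Ent

open MeasureTheory ProbabilityTheory Set Filter
open scoped ENNReal

variable {Ω Z D : Type*} [MeasurableSpace Ω] [StandardBorelSpace Ω] [Nonempty Ω]
  [TopologicalSpace Z] [PolishSpace Z] [MeasurableSpace Z] [BorelSpace Z]
  [MeasurableSpace D] [Countable D] [MeasurableSingletonClass D]
  {μ : Measure Ω} [IsProbabilityMeasure μ] {T : Ω → Ω} {d : Ω → D}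

omit [StandardBorelSpace Ω] [Nonempty Ω] in
/-- The `L¹` ergodic theorem on a sequence of sets. -/
theorem setIntegral_birkhoffSum_le (hT : Ergodic T μ) {J : Ω → ℝ} (hJ : Integrable J μ) {ε : ℝ}
    (hε : 0 < ε) : ∀ᶠ n : ℕ in atTop, ∀ B : Set Ω,
      ∫ x in B, birkhoffSum T J n x ∂μ ≤ n * (μ.real B * ∫ x, J x ∂μ + ε) := by
  have h1 := birkhoff_L1 hT.toMeasurePreserving hJ
  have h2 : ∀ n : ℕ, ∫ x, |birkhoffSum T J n x / n - (μ[J|MeasurableSpace.invariants T]) x| ∂μ =
      ∫ x, |birkhoffSum T J n x / n - ∫ y, J y ∂μ| ∂μ := fun n =>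
    integral_congr_ae ((condExp_invariants_of_ergodic hT J).mono fun x hx => by simp only [hx])
  simp only [h2] at h1
  filter_upwards [h1.eventually (ge_mem_nhds hε), eventually_gt_atTop 0] with n hn hn0 B
  have hn0' : (0 : ℝ) < n := by exact_mod_cast hn0
  have hi := integrable_birkhoffSum hT.toMeasurePreserving hJ n
  have hi2 : Integrable (fun x => birkhoffSum T J n x / n - ∫ y, J y ∂μ) μ :=
    (hi.div_const _).sub (integrable_const _)
  have h3 : ∫ x in B, (birkhoffSum T J n x / n - ∫ y, J y ∂μ) ∂μ ≤ ε :=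
    calc ∫ x in B, (birkhoffSum T J n x / n - ∫ y, J y ∂μ) ∂μ
        ≤ ∫ x in B, |birkhoffSum T J n x / n - ∫ y, J y ∂μ| ∂μ :=
          integral_mono hi2.integrableOn hi2.abs.integrableOn fun x => le_abs_self _
      _ ≤ ∫ x, |birkhoffSum T J n x / n - ∫ y, J y ∂μ| ∂μ :=
          setIntegral_le_integral hi2.abs (ae_of_all _ fun x => abs_nonneg _)
      _ ≤ ε := hn
  rw [integral_sub (hi.div_const _).integrableOn (integrable_const _), integral_div,
    setIntegral_const, smul_eq_mul, sub_le_iff_le_add, div_le_iff₀ hn0'] at h3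
  linarith

theorem names_upper (hT : Ergodic T μ) (hd : Measurable d) (hH : FinEnt μ d) {Lam : Ω → Z}
    (hL : Measurable Lam) {Rel : ℝ → Z → Z → Prop} (hR : LusinRel Rel) {Y : ℕ → Type*}
    [∀ n, MeasurableSpace (Y n)] [∀ n, StandardBorelSpace (Y n)] {g : ∀ n, Ω → Y n}
    (hg : ∀ n, Measurable (g n)) {B : ℕ → Set Ω} (hB : ∀ n, MeasurableSet (B n))
    (hs : ∀ n, Sat μ (g n) (B n)) (hN : Near μ T d Lam Rel g B) {ε : ℝ} (hε : 0 < ε) :
    ∀ᶠ n : ℕ in atTop, ∫ x in B n, Ic μ (names T d n) (g n) x ∂μ ≤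
      n * (μ.real (B n) * Hc μ d Lam + ε) := by
  classical
  have hε4 : 0 < ε / 4 := by positivity
  have hTm := hT.toMeasurePreserving
  obtain ⟨p, L, hLm, hLH⟩ := exists_finite_label hH hd hL hε4
  have hLL : Measurable (L ∘ Lam) := hLm.comp hL
  set J : Ω → ℝ := Ic μ d (L ∘ Lam) with hJdef
  have hJ : Integrable J μ := hH.integrable hd hLL
  set pw : Fin (p + 1) → D → ℝ≥0∞ := fun l i => condDistrib id (L ∘ Lam) μ l (d ⁻¹' {i}) with hpw
  have hpw1 : ∀ l, ∑' i, pw l i ≤ 1 := fun l => by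
    have := lintegral_digit (condDistrib id (L ∘ Lam) μ l) hd (fun _ => 1)
    simp only [lintegral_const, measure_univ, one_mul] at this
    exact this.ge
  have hJp : ∀ᵐ y ∂μ, ENNReal.ofReal (Real.exp (-J y)) ≤ pw (L (Lam y)) (d y) := by
    filter_upwards [exp_neg_Ic (μ := μ) hd hLL] with y hy
    rw [hJdef, hy]
    exact ENNReal.ofReal_toReal_le
  have hJk : ∀ k : ℕ, Integrable (fun x => J (T^[k] x)) μ := fun k =>
    (hTm.iterate k).integrable_comp_of_integrable hJ
  have hJpk : ∀ k : ℕ, ∀ᵐ x ∂μ, ENNReal.ofReal (Real.exp (-J (T^[k] x))) ≤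
      pw (L (Lam (T^[k] x))) (d (T^[k] x)) := fun k =>
    (hTm.iterate k).quasiMeasurePreserving.ae hJp
  have hTk : ∀ k : ℕ, Measurable (T^[k]) := fun k => hTm.measurable.iterate k
  obtain ⟨δ, hδ, η, hη, hF⟩ := fano_side hR (μ.map Lam) hLm hε4
  obtain ⟨k₀, hk₀⟩ := hN δ hδ η hη
  set K : ℝ := -Real.log (1 - 1 / 2) + Real.log (Fintype.card (Fin (p + 1)) / (1 / 2)) with hK
  have hK2 : 0 ≤ Real.log (Fintype.card (Fin (p + 1)) / (1 / 2 : ℝ)) := by
    refine Real.log_nonneg ?_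
    rw [Fintype.card_fin, le_div_iff₀ (by norm_num)]
    push_cast
    linarith [Nat.cast_nonneg (α := ℝ) p]
  have hK1 : 0 ≤ -Real.log (1 - 1 / 2 : ℝ) :=
    neg_nonneg.2 (Real.log_nonpos (by norm_num) (by norm_num))
  have hK0 : 0 ≤ K := add_nonneg hK1 hK2
  have hev : ∀ᶠ n : ℕ in atTop, k₀ * K ≤ n * (ε / 4) :=
    (tendsto_natCast_atTop_atTop.atTop_mul_const hε4).eventually_ge_atTop _
  filter_upwards [hk₀, hev, setIntegral_birkhoffSum_le hT hJ hε4] with n hn hnK hnB
  have hgk : ∀ k, Measurable (pr2 (g n) (names T d k)) := fun k =>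
    (hg n).prodMk (measurable_names hTm.measurable hd k)
  have hsk : ∀ k, Sat μ (pr2 (g n) (names T d k)) (B n) := fun k =>
    Sat.of_det (Det.fst _ _) (hs n)
  have hall : ∀ k, IntegrableOn (Ic μ (d ∘ T^[k]) (pr2 (g n) (names T d k))) (B n) μ ∧
      ∫ x in B n, Ic μ (d ∘ T^[k]) (pr2 (g n) (names T d k)) x ∂μ ≤
        K + ∫ x in B n, J (T^[k] x) ∂μ := fun k => by
    obtain ⟨h1, h2⟩ := fano_step (hgk k) (hd.comp (hTk k))
      (Λ := fun x => L (Lam (T^[k] x))) (hLL.comp (hTk k)) (φ := fun _ => 0) measurable_const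
      hpw1 (hB n) (hsk k) (hJk k).integrableOn (hJpk k) (e := 1 / 2) (by norm_num) (by norm_num)
    refine ⟨h1, h2.trans ?_⟩
    have := mul_le_of_le_one_right hK2
      (measureReal_le_one (μ := μ) (s := {x | x ∈ B n ∧ L (Lam (T^[k] x)) ≠ 0}))
    rw [hK]
    linarith
  have hgood : ∀ k, k₀ ≤ k → k < n →
      ∫ x in B n, Ic μ (d ∘ T^[k]) (pr2 (g n) (names T d k)) x ∂μ ≤
        ε / 4 + ∫ x in B n, J (T^[k] x) ∂μ := fun k h1 h2 => by
    obtain ⟨G, hG, hGη, hGr⟩ := hn k h1 h2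
    refine hF μ (fun x => Lam (T^[k] x)) _ _ G (B n) pw _ (hL.comp (hTk k)) ?_ (hgk k)
      (hd.comp (hTk k)) hG (hB n) (hsk k) hGη ?_ hpw1 (hJk k).integrableOn (hJpk k)
    · conv_rhs => rw [← (hTm.iterate k).map_eq]
      exact (Measure.map_map hL (hTk k)).symm
    · intro y hy y' hy' hyy
      exact hGr y hy y' hy' (congrArg Prod.fst hyy) (names_eq_iff.1 (congrArg Prod.snd hyy))
  rw [integral_congr_ae (ae_restrict_of_ae (Ic_names hTm.measurable hd (hg n) n)),
    integral_finsetSum _ fun k _ => (hall k).1]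
  have hsum : ∑ k ∈ Finset.range n,
      ∫ x in B n, Ic μ (d ∘ T^[k]) (pr2 (g n) (names T d k)) x ∂μ ≤
      ∑ k ∈ Finset.range n, ((if k < k₀ then K else 0) + ε / 4 +
        ∫ x in B n, J (T^[k] x) ∂μ) := by
    refine Finset.sum_le_sum fun k hk => ?_
    by_cases hkk : k < k₀
    · rw [if_pos hkk]
      linarith [(hall k).2]
    · rw [if_neg hkk, zero_add]
      exact hgood k (not_lt.1 hkk) (Finset.mem_range.1 hk)
  have h1 : ∑ k ∈ Finset.range n, (if k < k₀ then K else 0) ≤ k₀ * K := by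
    rw [← Finset.sum_filter, Finset.sum_const, nsmul_eq_mul]
    refine mul_le_mul_of_nonneg_right ?_ hK0
    have : ((Finset.range n).filter (· < k₀)).card ≤ (Finset.range k₀).card :=
      Finset.card_le_card fun k hk => Finset.mem_range.2 (Finset.mem_filter.1 hk).2
    rw [Finset.card_range] at this
    exact_mod_cast this
  have h2 : ∑ k ∈ Finset.range n, ∫ x in B n, J (T^[k] x) ∂μ =
      ∫ x in B n, birkhoffSum T J n x ∂μ :=
    (integral_finsetSum (f := fun k x => J (T^[k] x)) _ fun k _ => (hJk k).integrableOn).symm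
  rw [Finset.sum_add_distrib, Finset.sum_add_distrib, h2, Finset.sum_const, Finset.card_range,
    nsmul_eq_mul] at hsum
  have h3 := hnB (B n)
  have h4 : μ.real (B n) * ∫ x, J x ∂μ ≤ μ.real (B n) * Hc μ d Lam + ε / 4 := by
    have h5 : μ.real (B n) * ∫ x, J x ∂μ ≤ μ.real (B n) * (Hc μ d Lam + ε / 4) :=
      mul_le_mul_of_nonneg_left hLH measureReal_nonneg
    have h6 := mul_le_of_le_one_left hε4.le (measureReal_le_one (μ := μ) (s := B n))
    linarith
  have h7 := mul_le_mul_of_nonneg_left h4 (Nat.cast_nonneg (α := ℝ) n)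
  linarith

end Pool.Agent.P.MP_d483fb_an.Z.Ent


end

section

/-!
E11: lower bound for the information of a transversal digit.
-/

namespace Pool.Agent.P.MP_d483fb_an.Z.Ent

open MeasureTheory ProbabilityTheory Set Filter Topology
open scoped ENNReal

section abstract
variable {Ω : Type*} [MeasurableSpace Ω] {μ : Measure Ω} [IsProbabilityMeasure μ]

/-- Almost everywhere convergence of averages gives a small lower tail. -/
theorem E11_low {u : ℕ → Ω → ℝ} (hu : ∀ n, AEStronglyMeasurable (u n) μ) {h : ℝ}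
    (hl : ∀ᵐ x ∂μ, Tendsto (fun n : ℕ => u n x / n) atTop (𝓝 h)) {η : ℝ} (hη : 0 < η) :
    Tendsto (fun n : ℕ => μ.real {x | u n x < n * (h - η)}) atTop (𝓝 0) := by
  have h1 : TendstoInMeasure μ (fun (n : ℕ) x => u n x / n) atTop fun _ => h :=
    tendstoInMeasure_of_tendsto_ae (fun n => by
      simpa only [div_eq_mul_inv] using (hu n).mul_const ((n : ℝ)⁻¹)) hl
  have h2 := (tendstoInMeasure_iff_measureReal_dist.1 h1) η hη
  refine squeeze_zero' (Eventually.of_forall fun n => measureReal_nonneg) ?_ h2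
  filter_upwards [eventually_gt_atTop 0] with n hn
  refine measureReal_mono (fun x hx => ?_) (measure_ne_top _ _)
  have hn' : (0 : ℝ) < n := by exact_mod_cast hn
  simp only [mem_ofPred_eq] at hx ⊢
  have h3 : u n x / n < h - η := by
    rw [div_lt_iff₀ hn']
    linarith
  rw [Real.dist_eq]
  exact le_trans (by linarith) (neg_le_abs _)

/-- One step of the reversed Markov argument. -/
theorem E11_markov {W : Ω → ℝ} (hm : Measurable W) (hi : Integrable W μ) (h0 : ∀ x, 0 ≤ W x)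
    {a b c : ℝ} (hab : a ≤ b) (hc : ∫ x, W x ∂μ ≤ c) :
    (b - a) * μ.real {x | b < W x} ≤ c - a + |a| * μ.real {x | W x < a} := by
  have hU : MeasurableSet {x | b < W x} := measurableSet_lt measurable_const hm
  have hA : MeasurableSet {x | W x < a} := measurableSet_lt hm measurable_const
  have i1 : Integrable ({x | b < W x}.indicator fun _ => b - a) μ :=
    (integrable_const _).indicator hU
  have i2 : Integrable ({x | W x < a}.indicator fun _ => |a|) μ :=
    (integrable_const _).indicator hA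
  have h1 : ∫ x, (a + {x | b < W x}.indicator (fun _ => b - a) x -
      {x | W x < a}.indicator (fun _ => |a|) x) ∂μ ≤ ∫ x, W x ∂μ := by
    refine integral_mono (((integrable_const a).add i1).sub i2) hi fun x => ?_
    have := h0 x
    have h2 := le_abs_self a
    by_cases hx : b < W x
    · have hx' : ¬ W x < a := by linarith
      simp only [indicator, mem_ofPred_eq, hx, hx', if_true, if_false]
      linarith
    · by_cases hx' : W x < a
      · simp only [indicator, mem_ofPred_eq, hx, hx', if_true, if_false]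
        linarith
      · simp only [indicator, mem_ofPred_eq, hx, hx', if_false]
        linarith
  have i3 : Integrable (fun x => a + {x | b < W x}.indicator (fun _ => b - a) x) μ :=
    (integrable_const a).add i1
  rw [integral_sub i3 i2, integral_add (integrable_const a) i1,
    integral_indicator hU, integral_indicator hA] at h1
  simp only [integral_const, smul_eq_mul, probReal_univ, one_mul, measureReal_restrict_apply_univ]
    at h1
  nlinarith

/-- A nonnegative variable with mean at most its typical lower bound is concentrated. -/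
theorem E11_conc {W : ℕ → Ω → ℝ} (hm : ∀ n, Measurable (W n)) (hi : ∀ n, Integrable (W n) μ)
    (h0 : ∀ n x, 0 ≤ W n x) {h : ℝ}
    (hup : ∀ η : ℝ, 0 < η → ∀ᶠ n : ℕ in atTop, ∫ x, W n x ∂μ ≤ n * (h + η))
    (hlo : ∀ η : ℝ, 0 < η → Tendsto (fun n : ℕ => μ.real {x | W n x < n * (h - η)}) atTop (𝓝 0))
    {ε : ℝ} (hε : 0 < ε) :
    Tendsto (fun n : ℕ => μ.real {x | n * (h + ε) < W n x}) atTop (𝓝 0) := by
  rw [Metric.tendsto_nhds]
  intro δ hδ
  have hη : 0 < ε * δ / 4 := by positivity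
  set η := ε * δ / 4 with hηd
  have hk : 0 < η / (|h - η| + 1) := by positivity
  filter_upwards [hup η hη, (hlo η hη).eventually (gt_mem_nhds hk), eventually_gt_atTop 0]
    with n h1 h2 hn
  have hn' : (0 : ℝ) < n := by exact_mod_cast hn
  have h3 := E11_markov (hm n) (hi n) (h0 n) (a := n * (h - η)) (b := n * (h + ε))
    (by nlinarith) h1
  rw [abs_mul, abs_of_pos hn'] at h3
  rw [lt_div_iff₀ (by positivity)] at h2
  set u := μ.real {x | n * (h + ε) < W n x} with hu
  set v := μ.real {x | W n x < n * (h - η)} with hv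
  have hu0 : 0 ≤ u := measureReal_nonneg
  have hv0 : 0 ≤ v := measureReal_nonneg
  have h4 : (n : ℝ) * ((ε + η) * u) ≤ n * (2 * η + |h - η| * v) := by nlinarith
  have h5 := le_of_mul_le_mul_left h4 hn'
  have h6 : ε * u < ε * δ := by nlinarith
  rw [Real.dist_eq, sub_zero, abs_of_nonneg hu0]
  exact lt_of_mul_lt_mul_left h6 hε.le

theorem E11_exp {η : ℝ} (hη : 0 < η) :
    Tendsto (fun n : ℕ => Real.exp (-(n * η))) atTop (𝓝 0) :=
  Real.tendsto_exp_neg_atTop_nhds_zero.comp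
    (tendsto_natCast_atTop_atTop.atTop_mul_const hη)

/-- A union bound up to a null set. -/
theorem E11_union {A B C : Set Ω} (h : ∀ᵐ x ∂μ, x ∈ A → x ∈ B ∨ x ∈ C) :
    μ.real A ≤ μ.real B + μ.real C := by
  refine le_trans ?_ (measureReal_union_le B C)
  refine ENNReal.toReal_mono (measure_ne_top _ _) (measure_mono_ae ?_)
  filter_upwards [h] with x hx hA using hx hA

end abstract

variable {Ω Y Z D : Type*} [MeasurableSpace Ω] [StandardBorelSpace Ω] [Nonempty Ω]
  [MeasurableSpace Y] [StandardBorelSpace Y]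
  [TopologicalSpace Z] [PolishSpace Z] [MeasurableSpace Z] [BorelSpace Z]
  [MeasurableSpace D] [Countable D] [MeasurableSingletonClass D]
  {μ : Measure Ω} [IsProbabilityMeasure μ] {T : Ω → Ω} {d : Ω → D}

/-- The information of the names given an increasing label has a small lower tail. -/
theorem E11_incr (hT : Ergodic T μ) (hd : Measurable d) (hH : FinEnt μ d) {F : Ω → Y}
    (hF : Measurable F) (iF : Incr μ T F d) {η : ℝ} (hη : 0 < η) :
    Tendsto (fun n : ℕ => μ.real {x | Ic μ (names T d n) F x < n * (Hc μ d F - η)})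
      atTop (𝓝 0) := by
  have hm : Measurable T := hT.toMeasurePreserving.measurable
  refine E11_low (fun n => (measurable_Ic (measurable_names hm hd n) hF).aestronglyMeasurable)
    ?_ hη
  filter_upwards [birkhoff_ergodic hT (hH.integrable hd hF),
    ae_all_iff.2 fun n => iF.Ic_names hT.toMeasurePreserving hd hF n] with x h1 h2
  simpa only [h2, Hc] using h1

theorem digit_lower (hT : Ergodic T μ) (hd : Measurable d) (hH : FinEnt μ d) {F : Ω → Y}
    {S : Ω → Z} (hF : Measurable F) (hS : Measurable S) (iF : Incr μ T F d) (iS : Incr μ T S d)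
    (hSF : Det μ S F) {Rel : ℝ → Z → Z → Prop} (hR : LusinRel Rel) {E : ℕ → Type*}
    [∀ n, MeasurableSpace (E n)] [∀ n, Countable (E n)] [∀ n, MeasurableSingletonClass (E n)]
    {sig : ∀ n, Ω → E n} (hsig : ∀ n, Measurable (sig n)) (hdet : ∀ n, Det μ S (sig n))
    (hN : Near μ T d S Rel (fun n => pr2 F (sig n)) fun _ => univ) {ε : ℝ} (hε : 0 < ε) :
    Tendsto (fun n : ℕ => μ.real {x | Ic μ (sig n) F x < n * (Hc μ d F - Hc μ d S - ε)})
      atTop (𝓝 0) := by
  have hm : Measurable T := hT.toMeasurePreserving.measurable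
  have hnm : ∀ n, Measurable (names T d n) := measurable_names hm hd
  have hg : ∀ n, Measurable (pr2 F (sig n)) := fun n => hF.prodMk (hsig n)
  have hlo : ∀ η : ℝ, 0 < η → Tendsto (fun n : ℕ =>
      μ.real {x | Ic μ (names T d n) (pr2 F (sig n)) x < n * (Hc μ d S - η)}) atTop (𝓝 0) := by
    intro η hη
    have h1 := (E11_incr hT hd hH hS iS (half_pos hη)).add (E11_exp (half_pos hη))
    rw [add_zero] at h1
    refine squeeze_zero (fun n => measureReal_nonneg) (fun n => ?_) h1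
    have h2 := meas_Ic_finer (μ := μ) (hnm n) hS (hg n) (hSF.pair (hdet n)) (n * (η / 2))
    rw [probReal_univ, mul_one] at h2
    refine le_trans (E11_union (Eventually.of_forall fun x hx => ?_)) (add_le_add le_rfl h2)
    simp only [mem_ofPred_eq] at hx ⊢
    by_contra hc
    push Not at hc
    nlinarith [hc.1, hc.2]
  have hup : ∀ η : ℝ, 0 < η → ∀ᶠ n : ℕ in atTop,
      ∫ x, Ic μ (names T d n) (pr2 F (sig n)) x ∂μ ≤ n * (Hc μ d S + η) := by
    intro η hη
    filter_upwards [names_upper hT hd hH hS hR hg (fun _ => MeasurableSet.univ)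
      (fun n => Sat.univ _) hN hη] with n hn
    simpa only [Measure.restrict_univ, probReal_univ, one_mul] using hn
  have hW := E11_conc (fun n => measurable_Ic (hnm n) (hg n))
    (fun n => (hH.names hT.toMeasurePreserving hd n).1.integrable (hnm n) (hg n))
    (fun n x => Ic_nonneg x) hup hlo (half_pos hε)
  have h1 := (E11_incr hT hd hH hF iF (half_pos hε)).add hW
  rw [add_zero] at h1
  refine squeeze_zero (fun n => measureReal_nonneg) (fun n => E11_union ?_) h1
  filter_upwards [Ic_pair (μ := μ) (hsig n) (hnm n) hF,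
    Ic_mono (μ := μ) (f := pr2 (sig n) (names T d n)) ((hsig n).prodMk (hnm n)) hF
      (e := names T d n) ((Det.snd _ _).trans (Det.snd _ _))] with x h2 h3 hx
  by_contra hc
  push Not at hc
  nlinarith [hc.1, hc.2]

end Pool.Agent.P.MP_d483fb_an.Z.Ent


end

section

/-!
The first return map and the formula of Kac.
-/

namespace Pool.Agent.P.MP_d483fb_an.Z

open MeasureTheory Filter Set Topology
open scoped ENNReal

variable {X : Type*}

/-- The first return time to `A`; it is `0` if there is no return. -/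
noncomputable def retTime (T : X → X) (A : Set X) (x : X) : ℕ := sInf {n | 0 < n ∧ T^[n] x ∈ A}

/-- The first return map to `A`. -/
noncomputable def firstRet (T : X → X) (A : Set X) (x : X) : X := T^[retTime T A x] x

/-- The points that do not visit `A` at the times `1, …, n`. -/
def avoid (T : X → X) (A : Set X) (n : ℕ) : Set X := {x | ∀ i, 0 < i → i ≤ n → T^[i] x ∉ A}

variable {T : X → X} {A : Set X}

theorem retTime_spec {x : X} {n : ℕ} (h0 : 0 < n) (h : T^[n] x ∈ A) :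
    0 < retTime T A x ∧ retTime T A x ≤ n ∧ firstRet T A x ∈ A :=
  have h1 := Nat.sInf_mem (s := {n | 0 < n ∧ T^[n] x ∈ A}) ⟨n, h0, h⟩
  ⟨h1.1, Nat.sInf_le ⟨h0, h⟩, h1.2⟩

theorem firstRet_mem {x : X} (h : 0 < retTime T A x) : firstRet T A x ∈ A := by
  rcases (eq_empty_or_nonempty {n | 0 < n ∧ T^[n] x ∈ A}) with h1 | ⟨n, h1⟩
  · rw [retTime, h1, Nat.sInf_empty] at h
    exact absurd h (lt_irrefl _)
  · exact (retTime_spec h1.1 h1.2).2.2

theorem notMem_of_lt_retTime {x : X} {i : ℕ} (h0 : 0 < i) (h : i < retTime T A x) :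
    T^[i] x ∉ A := fun h1 => absurd (retTime_spec h0 h1).2.1 (not_le.2 h)

theorem mem_avoid_iff {x : X} (h : 0 < retTime T A x) {n : ℕ} :
    x ∈ avoid T A n ↔ n < retTime T A x :=
  ⟨fun h1 => not_le.1 fun h2 => h1 _ h h2 (firstRet_mem h),
    fun h1 _ h2 h3 => notMem_of_lt_retTime h2 (h3.trans_lt h1)⟩

theorem retTime_eq_succ {x : X} {n : ℕ} :
    retTime T A x = n + 1 ↔ x ∈ avoid T A n ∧ T^[n + 1] x ∈ A := by
  refine ⟨fun h => ?_, fun h => ?_⟩
  · have h1 : 0 < retTime T A x := by omega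
    exact ⟨(mem_avoid_iff h1).2 (by omega), h ▸ firstRet_mem h1⟩
  · obtain ⟨h1, h2, -⟩ := retTime_spec (Nat.succ_pos n) h.2
    have := (mem_avoid_iff h1).1 h.1
    omega

/-- The iterates of the first return map are iterates of the map. -/
theorem iterate_firstRet (k : ℕ) (x : X) :
    (firstRet T A)^[k] x = T^[birkhoffSum (firstRet T A) (retTime T A) k x] x := by
  induction k with
  | zero => rfl
  | succ k ih =>
    rw [Function.iterate_succ_apply', birkhoffSum_succ, add_comm, Function.iterate_add_apply, ← ih]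
    rfl

/-- Sums along the orbits of the first return map. -/
theorem birkhoffSum_firstRet {M : Type*} [AddCommMonoid M] (f : X → M) (k : ℕ) (x : X) :
    birkhoffSum (firstRet T A) (fun y => birkhoffSum T f (retTime T A y) y) k x =
      birkhoffSum T f (birkhoffSum (firstRet T A) (retTime T A) k x) x := by
  induction k with
  | zero => rfl
  | succ k ih => rw [birkhoffSum_succ, birkhoffSum_succ, birkhoffSum_add, ih, ← iterate_firstRet]

/-- Every visit to `A` is an iterate of the first return map. -/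
theorem exists_iterate_firstRet (n : ℕ) : ∀ x : X, T^[n] x ∈ A →
    ∃ k ≤ n, birkhoffSum (firstRet T A) (retTime T A) k x = n := by
  induction n using Nat.strong_induction_on with
  | _ n ih =>
    intro x hx
    rcases n.eq_zero_or_pos with rfl | h0
    · exact ⟨0, le_rfl, rfl⟩
    · obtain ⟨h1, h2, -⟩ := retTime_spec h0 hx
      obtain ⟨k, h3, h4⟩ := ih (n - retTime T A x) (by omega) (firstRet T A x) (by
        rw [firstRet, ← Function.iterate_add_apply, Nat.sub_add_cancel h2]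
        exact hx)
      exact ⟨k + 1, by omega, by rw [birkhoffSum_succ', h4]; omega⟩

variable [MeasurableSpace X] {μ : Measure X}

theorem measurableSet_avoid (hT : Measurable T) (hA : MeasurableSet A) (n : ℕ) :
    MeasurableSet (avoid T A n) := by
  have : avoid T A n = ⋂ i, ⋂ _ : 0 < i, ⋂ _ : i ≤ n, (T^[i] ⁻¹' A)ᶜ := by
    ext x
    simp [avoid]
  rw [this]
  exact .iInter fun i => .iInter fun _ => .iInter fun _ => (hT.iterate i hA).compl

theorem measurable_retTime (hT : Measurable T) (hA : MeasurableSet A) :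
    Measurable (retTime T A) := by
  have h1 : ∀ n, MeasurableSet (retTime T A ⁻¹' {n + 1}) := fun n => by
    have : retTime T A ⁻¹' {n + 1} = avoid T A n ∩ T^[n + 1] ⁻¹' A := by
      ext x
      exact retTime_eq_succ
    rw [this]
    exact (measurableSet_avoid hT hA n).inter (hT.iterate _ hA)
  refine measurable_to_countable' fun n => ?_
  cases n with
  | succ n => exact h1 n
  | zero =>
    have : retTime T A ⁻¹' {0} = (⋃ n, retTime T A ⁻¹' {n + 1})ᶜ := by
      ext x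
      simp only [mem_preimage, mem_singleton_iff, mem_compl_iff, mem_iUnion, not_exists]
      exact ⟨fun h n => by omega, fun h => by_contra fun h' => h (retTime T A x - 1) (by omega)⟩
    rw [this]
    exact (MeasurableSet.iUnion h1).compl

theorem measurable_comp_retTime {Y : Type*} [MeasurableSpace Y] (hT : Measurable T)
    (hA : MeasurableSet A) {g : ℕ → X → Y} (hg : ∀ n, Measurable (g n)) :
    Measurable fun x => g (retTime T A x) x :=
  (measurable_from_prod_countable_left (f := fun p : X × ℕ => g p.2 p.1) hg).comp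
    (measurable_id.prodMk (measurable_retTime hT hA))

theorem measurable_firstRet (hT : Measurable T) (hA : MeasurableSet A) :
    Measurable (firstRet T A) :=
  measurable_comp_retTime hT hA (g := fun n => T^[n]) hT.iterate

private theorem kac_step (hT : MeasurePreserving T μ μ) (hA : MeasurableSet A) {s : Set X}
    (hs : MeasurableSet s) (N : ℕ) : μ s = ∑ j ∈ Finset.range N,
      μ (A ∩ avoid T A j ∩ T^[j] ⁻¹' s) + μ (avoid T A N ∩ T^[N] ⁻¹' s) := by
  induction N with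
  | zero =>
    have : avoid T A 0 = univ := eq_univ_of_forall fun x i h1 h2 => by omega
    simp [this]
  | succ N ih =>
    have hm : MeasurableSet (avoid T A N ∩ T^[N] ⁻¹' s) :=
      (measurableSet_avoid hT.measurable hA N).inter (hT.measurable.iterate N hs)
    have e : avoid T A (N + 1) ∩ T^[N + 1] ⁻¹' s = T ⁻¹' ((avoid T A N ∩ T^[N] ⁻¹' s) \ A) := by
      ext x
      refine ⟨fun h => ⟨⟨fun i h1 h2 => h.1 (i + 1) (by omega) (by omega), h.2⟩,
        h.1 1 (by omega) (by omega)⟩, fun h => ⟨fun i h1 h2 => ?_, h.1.2⟩⟩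
      obtain ⟨j, rfl⟩ := Nat.exists_eq_succ_of_ne_zero h1.ne'
      rcases j.eq_zero_or_pos with rfl | h3
      · exact h.2
      · exact h.1.1 j h3 (by omega)
    rw [Finset.sum_range_succ, add_assoc, e, hT.measure_preimage (hm.diff hA).nullMeasurableSet,
      inter_assoc, inter_comm A, measure_inter_add_sdiff _ hA]
    exact ih

private theorem kac_lim (hT : MeasurePreserving T μ μ) (hA : MeasurableSet A) {s : Set X}
    (hs : MeasurableSet s)
    (h : Tendsto (fun N => μ (avoid T A N ∩ T^[N] ⁻¹' s)) atTop (𝓝 0)) :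
    ∑' j, μ (A ∩ avoid T A j ∩ T^[j] ⁻¹' s) = μ s := by
  have h1 := (ENNReal.tendsto_nat_tsum fun j => μ (A ∩ avoid T A j ∩ T^[j] ⁻¹' s)).add h
  rw [add_zero] at h1
  exact tendsto_nhds_unique h1 (tendsto_const_nhds.congr (kac_step hT hA hs))

variable [IsFiniteMeasure μ]

theorem ae_retTime_pos (hT : MeasurePreserving T μ μ) (hA : MeasurableSet A) :
    ∀ᵐ x ∂μ.restrict A, 0 < retTime T A x := by
  rw [ae_restrict_iff' hA]
  filter_upwards [hT.conservative.ae_mem_imp_frequently_image_mem hA.nullMeasurableSet]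
    with x hx h
  obtain ⟨n, h1, h2⟩ := ((hx h).and_eventually (eventually_gt_atTop 0)).exists
  exact (retTime_spec h2 h1).1

/-- The first return map preserves the restricted measure. -/
theorem measurePreserving_firstRet (hT : MeasurePreserving T μ μ) (hA : MeasurableSet A) :
    MeasurePreserving (firstRet T A) (μ.restrict A) (μ.restrict A) := by
  have hR := measurable_firstRet hT.measurable hA
  have hr := measurable_retTime hT.measurable hA
  refine ⟨hR, Measure.ext fun s hs => ?_⟩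
  have hm : ∀ N, MeasurableSet (retTime T A ⁻¹' {N + 1}) := fun N => hr (measurableSet_singleton _)
  have hd : Pairwise (Function.onFun Disjoint fun N => retTime T A ⁻¹' {N + 1}) :=
    fun i j hij => disjoint_left.2 fun x h1 h2 => hij (by
      simp only [mem_preimage, mem_singleton_iff] at h1 h2
      omega)
  have e : ∀ j, avoid T A j ∩ T^[j] ⁻¹' (T ⁻¹' (s ∩ A)) =
      retTime T A ⁻¹' {j + 1} ∩ firstRet T A ⁻¹' s := fun j => by
    ext x
    simp only [mem_inter_iff, mem_preimage, mem_singleton_iff, ← Function.iterate_succ_apply' T]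
    refine ⟨fun h => ?_, fun h => ?_⟩
    · have h1 := retTime_eq_succ.2 ⟨h.1, h.2.2⟩
      exact ⟨h1, by rw [firstRet, h1]; exact h.2.1⟩
    · have h1 := retTime_eq_succ.1 h.1
      exact ⟨h1.1, by have := h.2; rwa [firstRet, h.1] at this, h1.2⟩
  have h1 := kac_lim hT hA (hT.measurable (hs.inter hA)) (by
    simp only [e]
    refine tendsto_of_tendsto_of_tendsto_of_le_of_le tendsto_const_nhds
      (ENNReal.tendsto_atTop_zero_of_tsum_ne_top (f := fun N => μ (retTime T A ⁻¹' {N + 1})) ?_)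
      (fun _ => zero_le) fun N => measure_mono inter_subset_left
    rw [← measure_iUnion hd hm]
    exact measure_ne_top _ _)
  simp only [inter_assoc, e] at h1
  rw [Measure.map_apply hR hs, Measure.restrict_apply hs,
    ← hT.measure_preimage (hs.inter hA).nullMeasurableSet, ← h1]
  have h2 : (firstRet T A ⁻¹' s : Set X) =ᵐ[μ.restrict A]
      (⋃ j, retTime T A ⁻¹' {j + 1} ∩ firstRet T A ⁻¹' s : Set X) := by
    filter_upwards [ae_retTime_pos hT hA] with x hx
    refine propext ⟨fun h => mem_iUnion.2 ⟨retTime T A x - 1, ?_, h⟩, fun h => ?_⟩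
    · show retTime T A x = _
      omega
    · obtain ⟨j, hj⟩ := mem_iUnion.1 h
      exact hj.2
  rw [measure_congr h2, measure_iUnion (hd.mono fun i j h => h.mono inter_subset_left
    inter_subset_left) fun j => (hm j).inter (hR hs)]
  exact tsum_congr fun j => by rw [Measure.restrict_apply' hA, inter_comm]

/-- The first return map of an ergodic map is ergodic. -/
theorem ergodic_firstRet (hT : Ergodic T μ) (hA : MeasurableSet A) :
    Ergodic (firstRet T A) (μ.restrict A) := by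
  refine ⟨measurePreserving_firstRet hT.toMeasurePreserving hA, ⟨fun s hs hi => ?_⟩⟩
  have hm := hT.toMeasurePreserving.measurable
  have hU : MeasurableSet (⋃ n, T^[n] ⁻¹' (s ∩ A)) := .iUnion fun n => hm.iterate n (hs.inter hA)
  have hsub : T ⁻¹' (⋃ n, T^[n] ⁻¹' (s ∩ A)) ⊆ ⋃ n, T^[n] ⁻¹' (s ∩ A) := fun x hx => by
    obtain ⟨n, hn⟩ := mem_iUnion.1 hx
    exact mem_iUnion.2 ⟨n + 1, hn⟩
  rw [eventuallyConst_set]
  rcases hT.ae_empty_or_univ_of_preimage_ae_le hU.nullMeasurableSet hsub.eventuallyLE with h | h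
  · refine Or.inr ((ae_restrict_iff' hA).2 ?_)
    filter_upwards [h.mem_iff] with x hx h1 h2
    exact hx.1 (mem_iUnion.2 ⟨0, h2, h1⟩)
  · refine Or.inl (ae_restrict_of_ae ?_)
    filter_upwards [h.mem_iff] with x hx
    obtain ⟨n, hn⟩ := mem_iUnion.1 (hx.2 (mem_univ x))
    obtain ⟨k, -, hk⟩ := exists_iterate_firstRet n x hn.2
    have h1 : (firstRet T A)^[k] x ∈ s := by
      rw [iterate_firstRet, hk]
      exact hn.1
    have h2 : (firstRet T A)^[k] ⁻¹' s = s := Function.IsFixedPt.preimage_iterate hi k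
    rwa [← h2]

theorem ae_visit_of_ergodic (hT : Ergodic T μ) (hA : MeasurableSet A) (h0 : μ A ≠ 0) :
    ∀ᵐ x ∂μ, ∃ n, T^[n] x ∈ A := by
  have hm := hT.toMeasurePreserving.measurable
  have hsub : T ⁻¹' (⋃ n, T^[n] ⁻¹' A) ⊆ ⋃ n, T^[n] ⁻¹' A := fun x hx => by
    obtain ⟨n, hn⟩ := mem_iUnion.1 hx
    exact mem_iUnion.2 ⟨n + 1, hn⟩
  rcases hT.ae_empty_or_univ_of_preimage_ae_le
    (MeasurableSet.iUnion fun n => hm.iterate n hA).nullMeasurableSet hsub.eventuallyLE with h | h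
  · exact absurd (measure_mono_null (subset_iUnion (fun n => T^[n] ⁻¹' A) 0) (ae_eq_empty.1 h)) h0
  · filter_upwards [h.mem_iff] with x hx
    exact mem_iUnion.1 (hx.2 (mem_univ x))

/-- The tower over `A` carries the whole measure. -/
theorem tower_eq (hT : MeasurePreserving T μ μ) (hA : MeasurableSet A)
    (hsw : ∀ᵐ x ∂μ, ∃ n, T^[n] x ∈ A) :
    Measure.sum (fun j => (μ.restrict (A ∩ avoid T A j)).map T^[j]) = μ := by
  refine Measure.ext fun s hs => ?_
  have hav := measurableSet_avoid hT.measurable hA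
  have h1 : Tendsto (fun N => μ (avoid T A N)) atTop (𝓝 (μ (⋂ N, avoid T A N))) :=
    tendsto_measure_iInter_atTop (fun N => (hav N).nullMeasurableSet)
      (fun i j hij x hx k h1 h2 => hx k h1 (h2.trans hij)) ⟨0, measure_ne_top _ _⟩
  have h2 : μ (⋂ N, avoid T A N) = 0 := by
    rw [measure_eq_zero_iff_ae_notMem]
    filter_upwards [hT.quasiMeasurePreserving.ae hsw] with x ⟨n, hn⟩ hx
    exact mem_iInter.1 hx (n + 1) (n + 1) (Nat.succ_pos n) le_rfl hn
  rw [h2] at h1
  rw [Measure.sum_apply _ hs, ← kac_lim hT hA hs (tendsto_of_tendsto_of_tendsto_of_le_of_le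
    tendsto_const_nhds h1 (fun _ => zero_le) fun N => measure_mono inter_subset_left)]
  exact tsum_congr fun j => by
    rw [Measure.map_apply (hT.measurable.iterate j) hs,
      Measure.restrict_apply' (hA.inter (hav j)), inter_comm]

/-- The formula of Kac for nonnegative functions. -/
theorem lintegral_tower (hT : MeasurePreserving T μ μ) (hA : MeasurableSet A)
    (hsw : ∀ᵐ x ∂μ, ∃ n, T^[n] x ∈ A) {f : X → ℝ≥0∞} (hf : Measurable f) :
    ∫⁻ x in A, birkhoffSum T f (retTime T A x) x ∂μ = ∫⁻ x, f x ∂μ := by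
  have hav := measurableSet_avoid hT.measurable hA
  conv_rhs => rw [← tower_eq hT hA hsw, lintegral_sum_measure]
  have e : ∀ j, ∫⁻ x, f x ∂(μ.restrict (A ∩ avoid T A j)).map T^[j] =
      ∫⁻ x in A, (avoid T A j).indicator (fun x => f (T^[j] x)) x ∂μ := fun j => by
    rw [lintegral_map hf (hT.measurable.iterate j), lintegral_indicator (hav j),
      Measure.restrict_restrict (hav j), inter_comm]
  simp only [e]
  rw [← lintegral_tsum (f := fun j => (avoid T A j).indicator fun x => f (T^[j] x))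
    fun j => ((hf.comp (hT.measurable.iterate j)).indicator (hav j)).aemeasurable]
  refine lintegral_congr_ae ?_
  filter_upwards [ae_retTime_pos hT hA] with x hx
  rw [tsum_eq_sum (s := Finset.range (retTime T A x)) fun j hj => indicator_of_notMem
    (fun h => hj (Finset.mem_range.2 ((mem_avoid_iff hx).1 h))) _]
  exact Finset.sum_congr rfl fun j hj =>
    (indicator_of_mem ((mem_avoid_iff hx).2 (Finset.mem_range.1 hj)) fun x => f (T^[j] x)).symm

/-- The mean return time. -/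
theorem lintegral_retTime (hT : MeasurePreserving T μ μ) (hA : MeasurableSet A)
    (hsw : ∀ᵐ x ∂μ, ∃ n, T^[n] x ∈ A) : ∫⁻ x in A, (retTime T A x : ℝ≥0∞) ∂μ = μ univ := by
  simpa [birkhoffSum] using lintegral_tower hT hA hsw (f := fun _ => 1) measurable_const

private theorem kac_pos (hT : MeasurePreserving T μ μ) (hA : MeasurableSet A)
    (hsw : ∀ᵐ x ∂μ, ∃ n, T^[n] x ∈ A) {f : X → ℝ} (hm : Measurable f) (hf : Integrable f μ)
    (h0 : ∀ x, 0 ≤ f x) :
    IntegrableOn (fun x => birkhoffSum T f (retTime T A x) x) A μ ∧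
      ∫ x in A, birkhoffSum T f (retTime T A x) x ∂μ = ∫ x, f x ∂μ := by
  have h1 : Measurable fun x => birkhoffSum T f (retTime T A x) x :=
    measurable_comp_retTime hT.measurable hA fun n =>
      Finset.measurable_sum _ fun i _ => hm.comp (hT.measurable.iterate i)
  have h2 : ∀ x, 0 ≤ birkhoffSum T f (retTime T A x) x := fun x =>
    Finset.sum_nonneg fun i _ => h0 _
  have h3 : ∫⁻ x in A, ENNReal.ofReal (birkhoffSum T f (retTime T A x) x) ∂μ =
      ∫⁻ x, ENNReal.ofReal (f x) ∂μ := by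
    rw [← lintegral_tower hT hA hsw hm.ennreal_ofReal]
    exact lintegral_congr fun x => ENNReal.ofReal_sum_of_nonneg fun i _ => h0 _
  refine ⟨⟨h1.aestronglyMeasurable, ?_⟩, ?_⟩
  · rw [hasFiniteIntegral_iff_ofReal (Eventually.of_forall h2), h3]
    exact (hasFiniteIntegral_iff_ofReal (Eventually.of_forall h0)).1 hf.2
  · rw [integral_eq_lintegral_of_nonneg_ae (Eventually.of_forall h2) h1.aestronglyMeasurable, h3,
      integral_eq_lintegral_of_nonneg_ae (Eventually.of_forall h0) hm.aestronglyMeasurable]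

/-- The formula of Kac for integrable functions. -/
theorem integral_tower (hT : MeasurePreserving T μ μ) (hA : MeasurableSet A)
    (hsw : ∀ᵐ x ∂μ, ∃ n, T^[n] x ∈ A) {f : X → ℝ} (hm : Measurable f) (hf : Integrable f μ) :
    IntegrableOn (fun x => birkhoffSum T f (retTime T A x) x) A μ ∧
      ∫ x in A, birkhoffSum T f (retTime T A x) x ∂μ = ∫ x, f x ∂μ := by
  obtain ⟨a1, a2⟩ := kac_pos hT hA hsw (hm.max measurable_const) hf.pos_part
    fun x => le_max_right _ _
  obtain ⟨b1, b2⟩ := kac_pos hT hA hsw (f := fun x => max (-f x) 0) (hm.neg.max measurable_const)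
    hf.neg_part fun x => le_max_right _ _
  have e : ∀ n x, birkhoffSum T f n x = birkhoffSum T (fun x => max (f x) 0) n x -
      birkhoffSum T (fun x => max (-f x) 0) n x := fun n x => by
    rw [← birkhoffSum_sub]
    exact congrArg (fun g => birkhoffSum T g n x)
      (funext fun x => (max_zero_sub_max_neg_zero_eq_self (f x)).symm)
  simp only [e]
  refine ⟨a1.sub b1, ?_⟩
  rw [integral_sub a1 b1, a2, b2, ← integral_sub hf.pos_part hf.neg_part]
  exact integral_congr_ae (Eventually.of_forall fun x => max_zero_sub_max_neg_zero_eq_self (f x))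

end Pool.Agent.P.MP_d483fb_an.Z


end

section

/-!
The first return map of an invertible map, for the conditional measure.
-/

namespace Pool.Agent.P.MP_d483fb_an.Z

open MeasureTheory ProbabilityTheory Filter Set Topology
open scoped ENNReal

variable {X : Type*} {T S : X → X} {A : Set X}

/-- The return time of the inverse map at the image point. -/
theorem retTime_inv (hS : Function.LeftInverse S T) {x : X} (hx : x ∈ A)
    (h : 0 < retTime T A x) : retTime S A (firstRet T A x) = retTime T A x := by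
  have e : ∀ i ≤ retTime T A x, S^[i] (firstRet T A x) = T^[retTime T A x - i] x := fun i hi => by
    rw [firstRet]
    conv_lhs => rw [← Nat.add_sub_cancel' hi, Function.iterate_add_apply]
    exact hS.iterate i _
  obtain ⟨n, hn⟩ := Nat.exists_eq_succ_of_ne_zero h.ne'
  rw [hn]
  refine retTime_eq_succ.2 ⟨fun i h1 h2 => ?_, ?_⟩
  · rw [e i (by omega)]
    exact notMem_of_lt_retTime (by omega) (by omega)
  · rw [e _ (by omega), hn]
    simpa using hx

/-- The first return map of the inverse map is the inverse of the first return map. -/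
theorem firstRet_inv (hS : Function.LeftInverse S T) {x : X} (hx : x ∈ A)
    (h : 0 < retTime T A x) : firstRet S A (firstRet T A x) = x := by
  rw [firstRet, retTime_inv hS hx h, firstRet]
  exact hS.iterate _ _

variable [MeasurableSpace X] {μ : Measure X} [IsFiniteMeasure μ]

theorem ae_cond_retTime (hT : MeasurePreserving T μ μ) (hA : MeasurableSet A) :
    ∀ᵐ x ∂μ[|A], x ∈ A ∧ 0 < retTime T A x ∧ firstRet T A x ∈ A := by
  refine Measure.ae_smul_measure ?_ _
  filter_upwards [ae_retTime_pos hT hA, ae_restrict_mem hA] with x h1 h2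
  exact ⟨h2, h1, firstRet_mem h1⟩

theorem measurePreserving_firstRet_cond (hT : MeasurePreserving T μ μ) (hA : MeasurableSet A) :
    MeasurePreserving (firstRet T A) μ[|A] μ[|A] :=
  (measurePreserving_firstRet hT hA).smul_measure _

theorem ergodic_firstRet_cond (hT : Ergodic T μ) (hA : MeasurableSet A) :
    Ergodic (firstRet T A) μ[|A] :=
  (ergodic_firstRet hT hA).smul_measure _

theorem ae_cond_firstRet_inv (hT : MeasurePreserving T μ μ) (hA : MeasurableSet A)
    (hS : Function.LeftInverse S T) : ∀ᵐ x ∂μ[|A], firstRet S A (firstRet T A x) = x ∧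
      retTime S A (firstRet T A x) = retTime T A x := by
  filter_upwards [ae_cond_retTime hT hA] with x hx
  exact ⟨firstRet_inv hS hx.1 hx.2.1, retTime_inv hS hx.1 hx.2.1⟩

/-- The formula of Kac for the conditional measure. -/
theorem integral_tower_cond (hT : Ergodic T μ) (hA : MeasurableSet A) (h0 : μ A ≠ 0) {f : X → ℝ}
    (hm : Measurable f) (hf : Integrable f μ) :
    Integrable (fun x => birkhoffSum T f (retTime T A x) x) μ[|A] ∧
      ∫ x, birkhoffSum T f (retTime T A x) x ∂μ[|A] = (μ.real A)⁻¹ * ∫ x, f x ∂μ := by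
  obtain ⟨h1, h2⟩ := integral_tower hT.toMeasurePreserving hA (ae_visit_of_ergodic hT hA h0) hm hf
  refine ⟨h1.smul_measure (ENNReal.inv_ne_top.2 h0), ?_⟩
  rw [ProbabilityTheory.cond, integral_smul_measure, h2, ENNReal.toReal_inv]
  rfl

theorem integral_retTime_cond [IsProbabilityMeasure μ] (hT : Ergodic T μ) (hA : MeasurableSet A)
    (h0 : μ A ≠ 0) : Integrable (fun x => (retTime T A x : ℝ)) μ[|A] ∧
      ∫ x, (retTime T A x : ℝ) ∂μ[|A] = (μ.real A)⁻¹ := by
  simpa [birkhoffSum] using integral_tower_cond hT hA h0 (f := fun _ => 1) measurable_const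
    (integrable_const _)

/-- The times of the returns grow linearly. -/
theorem tendsto_retTime_sum [IsProbabilityMeasure μ] (hT : Ergodic T μ) (hA : MeasurableSet A)
    (h0 : μ A ≠ 0) : ∀ᵐ x ∂μ[|A], Tendsto (fun n : ℕ =>
      ((birkhoffSum (firstRet T A) (retTime T A) n x : ℕ) : ℝ) / n) atTop (𝓝 (μ.real A)⁻¹) := by
  have := cond_isProbabilityMeasure (μ := μ) h0
  obtain ⟨h1, h2⟩ := integral_retTime_cond hT hA h0
  filter_upwards [birkhoff_ergodic (ergodic_firstRet_cond hT hA) h1] with x hx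
  rw [h2] at hx
  simpa [birkhoffSum] using hx

/-- The frequency of the visits to a set. -/
theorem tendsto_visits [IsProbabilityMeasure μ] (hT : Ergodic T μ) (hA : MeasurableSet A)
    [DecidablePred (· ∈ A)] : ∀ᵐ x ∂μ, Tendsto (fun n : ℕ =>
      (((Finset.range n).filter fun i => T^[i] x ∈ A).card : ℝ) / n) atTop (𝓝 (μ.real A)) := by
  filter_upwards [birkhoff_ergodic hT ((integrable_const (1 : ℝ)).indicator hA)] with x hx
  rw [integral_indicator hA] at hx
  simpa [birkhoffSum, indicator_apply] using hx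

/-- Among sufficiently many sets of the same measure two have an intersection of definite
measure. -/
theorem exists_inter_ge [IsProbabilityMeasure μ] {K : ℕ → Set X} (hK : ∀ i, MeasurableSet (K i))
    {c : ℝ} {J : ℕ} (hc : ∀ i, c ≤ μ.real (K i)) (hJ : 2 < J * c) :
    ∃ i j, i < j ∧ j < J ∧ 1 / (J : ℝ) ^ 2 ≤ μ.real (K i ∩ K j) := by
  by_contra h
  push Not at h
  have key : ∀ n ≤ J, ∑ i ∈ Finset.range n, μ.real (K i) ≤
      μ.real (⋃ i ∈ Finset.range n, K i) + n ^ 2 / J ^ 2 := by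
    intro n hn
    induction n with
    | zero => simp
    | succ n ih =>
      have h1 : μ.real ((⋃ i ∈ Finset.range n, K i) ∩ K n) ≤ n * (1 / (J : ℝ) ^ 2) := by
        rw [iUnion₂_inter]
        refine (measureReal_biUnion_finset_le _ _).trans ?_
        simpa using Finset.sum_le_card_nsmul (Finset.range n) _ _
          fun i hi => (h i n (Finset.mem_range.1 hi) hn).le
      have h2 := measureReal_union_add_inter (μ := μ) (s := ⋃ i ∈ Finset.range n, K i) (hK n)
        (measure_ne_top _ _) (measure_ne_top _ _)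
      rw [Finset.sum_range_succ, Finset.range_add_one, Finset.set_biUnion_insert, union_comm]
      have h3 := ih (by omega)
      have h4 : (0 : ℝ) ≤ 1 / (J : ℝ) ^ 2 := by positivity
      have h5 : (0 : ℝ) ≤ n := Nat.cast_nonneg n
      push_cast
      rw [div_eq_mul_one_div] at h3 ⊢
      nlinarith
  have h1 := key J le_rfl
  have h2 : (J : ℝ) * c ≤ ∑ i ∈ Finset.range J, μ.real (K i) := by
    simpa using Finset.card_nsmul_le_sum (Finset.range J) _ _ fun i _ => hc i
  have h3 : μ.real (⋃ i ∈ Finset.range J, K i) ≤ 1 := measureReal_le_one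
  have h4 : (J : ℝ) ≠ 0 := by
    rintro h4
    rw [h4] at hJ
    linarith
  rw [div_self (pow_ne_zero 2 h4)] at h1
  linarith

end Pool.Agent.P.MP_d483fb_an.Z


end

section

/-!
The increasing rectangle partition (`Box`) and the abstract input of its construction (`BoxPre`).
-/

namespace Pool.Agent.P.MP_d483fb_an.Z

open MeasureTheory ProbabilityTheory Set
open scoped ENNReal

variable {X M : Type*} [MeasurableSpace X]

/-- The values of the label of the rectangle partition: a reference point and bits. -/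
abbrev BoxLab (X : Type*) : Type _ := X × (ℕ → Bool × Bool)

/-- An increasing rectangle partition of `K` for the first return map of `a` to `K`.  The label is
`zeta`, the reference point of `x` is `(zeta x).1`, the digit is `d`, the inner radius is `del`;
`s w y` and `al w y` are the two coordinates of the point `y` in the chart at `w`.  The pointwise
properties hold on the measurable set `Y`, which is almost all of `K`. -/
structure Box (μ : Measure X) (a : X ≃ᵐ X) (X0 : Set X) (R : X → X → Prop) (N : X → X → ℝ)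
    (s al : X → X → M) (K : Set X) (zeta : X → BoxLab X) (d : X → ℕ) (del : X → ℝ) (Y : Set X) :
    Prop where
  measK : MeasurableSet K
  posK : μ K ≠ 0
  measZeta : Measurable zeta
  measD : Measurable d
  measDel : Measurable del
  measY : MeasurableSet Y
  subK : Y ⊆ K
  sub0 : K ⊆ X0
  aeY : ∀ᵐ x ∂μ, x ∈ K → x ∈ Y
  fwd : ∀ x ∈ Y, 0 < retTime a K x ∧ firstRet a K x ∈ Y
  bwd : ∀ x ∈ Y, 0 < retTime a.symm K x ∧ firstRet a.symm K x ∈ Y
  ent : Ent.FinEnt (μ[|K]) d
  tau : ∀ x y, d x = d y → retTime a K x = retTime a K y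
  inc : ∀ x ∈ Y, ∀ y ∈ Y,
    zeta (firstRet a K x) = zeta (firstRet a K y) ↔ zeta x = zeta y ∧ d x = d y
  back : ∀ x ∈ K, ∀ y ∈ K, zeta x = zeta y → ∀ j : ℕ, a.symm^[j] x ∈ K →
    a.symm^[j] y ∈ K ∧ zeta (a.symm^[j] x) = zeta (a.symm^[j] y)
  ref : ∀ x ∈ K, (zeta x).1 ∈ X0 ∧ R (zeta x).1 x ∧ N (zeta x).1 x ≤ 1
  rect : ∀ n : ℕ, ∀ y₁ ∈ Y, ∀ y₂ ∈ Y, ∀ y₁' ∈ Y, ∀ y₂' ∈ Y, zeta y₁ = zeta y₂ → zeta y₁ = zeta y₁' →
    zeta y₁ = zeta y₂' →
    Ent.names (firstRet a K) d n y₁ = Ent.names (firstRet a K) d n y₂ →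
    Ent.names (firstRet a K) d n y₁' = Ent.names (firstRet a K) d n y₂' →
    s (zeta y₁).1 y₁ = s (zeta y₁').1 y₁' → al (zeta y₂).1 y₂ = al (zeta y₂').1 y₂' →
    Ent.names (firstRet a K) d n y₁ = Ent.names (firstRet a K) d n y₁'
  inner : ∀ x ∈ Y, 0 < del x ∧ ∀ y, R x y → N x y < del x → y ∈ K ∧ zeta y = zeta x

/-- The input of the construction of a `Box`.  `Z0` is the set of reference points, `F1`, `F2` are
the sizes of the two coordinates, `E1`, `E2` say that two points have the same coordinate. -/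
structure BoxPre (μ : Measure X) (a : X ≃ᵐ X) (X0 : Set X) (R : X → X → Prop) (N F1 F2 : X → X → ℝ)
    (s al : X → X → M) (E1 E2 : X → X → Prop) (Z0 : Set X) (ρ c r0 η σ : ℝ) : Prop where
  erg : Ergodic a μ
  measR : MeasurableSet {p : X × X | R p.1 p.2}
  measN : Measurable fun p : X × X => N p.1 p.2
  measF1 : Measurable fun p : X × X => F1 p.1 p.2
  measF2 : Measurable fun p : X × X => F2 p.1 p.2
  measZ : MeasurableSet Z0
  mem0 : ∀ x y, R x y → x ∈ X0 ∧ y ∈ X0
  refl : ∀ x ∈ X0, R x x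
  symm : ∀ x y, R x y → R y x
  trans : ∀ x y z, R x y → R y z → R x z
  relA : ∀ x y, R x y → R (a x) (a y)
  relB : ∀ x y, R x y → R (a.symm x) (a.symm y)
  hr0 : 0 < r0
  hc0 : 0 < c
  hc : c ≤ ρ / 4
  hρ : ρ ≤ 1
  hσ0 : 0 < σ
  hσ1 : σ < 1
  hη0 : 0 ≤ η
  hη : η ≤ ρ / 4 * (1 - σ)
  self : ∀ x ∈ X0, N x x = 0
  uniq : ∀ z ∈ Z0, ∀ z' ∈ Z0, ∀ w, R z w → R z' w → N z w < ρ → N z' w < ρ → z = z'
  ball : ∀ z w, R z w → F1 z w < 2 * r0 → F2 z w < 2 * r0 → N z w < c
  far : ∀ z ∈ Z0, ∀ z' ∈ Z0, ∀ (j : ℕ) (y₁ y₂ : X), R z (a.symm^[j] z') → R z' y₁ → R z' y₂ →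
    F1 z' y₁ < 2 * r0 → F2 z' y₁ < 2 * r0 → F1 z' y₂ < 2 * r0 → F2 z' y₂ < 2 * r0 →
    F1 z (a.symm^[j] y₁) < 2 * r0 → F2 z (a.symm^[j] y₂) < 2 * r0 → N z (a.symm^[j] z') < c
  pert : ∀ z' ∈ Z0, ∀ z ∈ Z0, ∀ (k : ℕ) (y : X), R z' (a.symm^[k] z) → N z' (a.symm^[k] z) < ρ →
    R z y → N z y < c →
    |N z' (a.symm^[k] y) - N z' (a.symm^[k] z)| ≤ η * σ ^ k ∧
    |F1 z' (a.symm^[k] y) - F1 z' (a.symm^[k] z)| ≤ η * σ ^ k ∧
    |F2 z' (a.symm^[k] y) - F2 z' (a.symm^[k] z)| ≤ η * σ ^ k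
  inn : ∃ δ : ℕ → X → ℝ, (∀ j, Measurable (δ j)) ∧ (∀ j, ∀ x ∈ X0, 0 < δ j x) ∧
    ∀ z' ∈ Z0, ∀ z ∈ Z0, ∀ (j k : ℕ) (x y : X), R z' (a.symm^[k] z) → N z' (a.symm^[k] z) < ρ →
      R z x → N z' (a.symm^[k] x) < ρ → N z x < ρ → R x y → N x y < δ j x →
      |F1 z' (a.symm^[k] y) - F1 z' (a.symm^[k] x)| ≤ σ ^ k / (j + 1) ∧
      |F2 z' (a.symm^[k] y) - F2 z' (a.symm^[k] x)| ≤ σ ^ k / (j + 1)
  e1s : ∀ z y y', R z y → R z y' → s z y = s z y' → E1 y y'
  e2s : ∀ z y y', R z y → R z y' → al z y = al z y' → E2 y y'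
  e1A : ∀ y y', E1 y y' → E1 (a y) (a y')
  e2A : ∀ y y', E2 y y' → E2 (a y) (a y')
  e1B : ∀ y y', E1 y y' → E1 (a.symm y) (a.symm y')
  e2B : ∀ y y', E2 y y' → E2 (a.symm y) (a.symm y')
  e1F : ∀ y y', E1 y y' → R y y' ∧ ∀ w, R w y → F1 w y = F1 w y'
  e2F : ∀ y y', E2 y y' → R y y' ∧ ∀ w, R w y → F2 w y = F2 w y'
  cel : ∃ (cel : ℕ → X → X → ℕ) (S : ℕ → Finset ℕ) (C : ℝ),
    (∀ t, Measurable fun p : X × X => cel t p.1 p.2) ∧
    (∀ t, ((S t).card : ℝ) ≤ Real.exp (C * (t + 1))) ∧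
    (∀ t z z', R z (a.symm^[t] z') → N z (a.symm^[t] z') < ρ → cel t z z' ∈ S t) ∧
    ∀ t, ∀ z ∈ Z0, ∀ z' ∈ Z0, ∀ z'' ∈ Z0, R z (a.symm^[t] z') → N z (a.symm^[t] z') < ρ →
      R z (a.symm^[t] z'') → N z (a.symm^[t] z'') < ρ → cel t z z' = cel t z z'' → z' = z''
  pos : μ {y | ∃ z ∈ Z0, R z y ∧ F1 z y < r0 ∧ F2 z y < r0} ≠ 0

end Pool.Agent.P.MP_d483fb_an.Z


end

section

/-!
The information theoretic part of the full entropy argument.
-/

open MeasureTheory ProbabilityTheory Set Filter Topology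
open scoped ENNReal

noncomputable section

namespace Pool.Agent.P.MP_d483fb_an.Z.HP

open Pool.Agent.P.MP_d483fb_an.Z.Ent

/-- A relation defined by a decreasing family of closed conditions with a compact set of
witnesses. -/
theorem lusinRel_seq {Z V : Type*} [TopologicalSpace Z] [TopologicalSpace V] {Q0 : Set V}
    (hQ0 : IsCompact Q0) {A : ℕ → Set ((Z × Z) × V)}
    (hA : ∀ k, IsClosed (A k ∩ univ ×ˢ Q0))
    (h : ∀ z z' : Z, ∀ v ∈ Q0, (∀ k, ((z, z'), v) ∈ A k) → z = z') :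
    LusinRel fun δ z z' => ∃ v ∈ Q0, ∀ k : ℕ, k * δ ≤ 1 → ((z, z'), v) ∈ A k := by
  refine ⟨fun δ δ' _ h1 z z' ⟨v, hv, h2⟩ => ⟨v, hv, fun k hk => h2 k ?_⟩, fun Q Q' hQ hQ' hd => ?_⟩
  · exact (mul_le_mul_of_nonneg_left h1 (Nat.cast_nonneg k)).trans hk
  have hc : IsCompact ((Q ×ˢ Q') ×ˢ Q0) := (hQ.prod hQ').prod hQ0
  obtain ⟨s, hs⟩ := hc.elim_finite_subfamily_closed _ hA (by
    rw [eq_empty_iff_forall_notMem]
    rintro ⟨⟨z, z'⟩, v⟩ ⟨⟨⟨h1, h2⟩, h3⟩, h4⟩
    have := h z z' v h3 fun k => (mem_iInter.1 h4 k).1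
    exact Set.disjoint_left.1 hd h1 (this ▸ h2))
  refine ⟨1 / ((s.sup id : ℕ) + 1), by positivity, fun z hz z' hz' ⟨v, hv, h2⟩ => ?_⟩
  refine eq_empty_iff_forall_notMem.1 hs ((z, z'), v) ⟨⟨⟨hz, hz'⟩, hv⟩, ?_⟩
  refine mem_iInter₂.2 fun k hk => ⟨h2 k ?_, trivial, hv⟩
  have h3 : (k : ℝ) ≤ (s.sup id : ℕ) := by exact_mod_cast Finset.le_sup (f := id) hk
  rw [mul_one_div, div_le_one (by positivity)]
  linarith

variable {Ω Y Z B D : Type*} [MeasurableSpace Ω] [StandardBorelSpace Ω] [Nonempty Ω]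
  [MeasurableSpace Y] [StandardBorelSpace Y] [MeasurableSpace B] [StandardBorelSpace B]
  [MeasurableSpace D] [Countable D] [MeasurableSingletonClass D]
  {μ : Measure Ω} [IsProbabilityMeasure μ]

/-- A digit that confines the base point to a small set has a large entropy. -/
theorem H0_ge {f : Ω → D} (hf : Measurable f) (hH : FinEnt μ f) {π : Ω → B} (hπ : Measurable π)
    (E : D → Set B) (hE : ∀ᵐ x ∂μ, π x ∈ E (f x)) {u : D → ℝ} (hu : ∀ i, 0 < u i)
    (hm : ∀ i, μ.map π (E i) ≤ ENNReal.ofReal (u i))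
    (hi : Integrable (fun x => Real.log (u (f x))) μ) :
    Hc μ f π - ∫ x, Real.log (u (f x)) ∂μ ≤ H0 μ f := by
  classical
  set p : D → ℝ := fun i => μ.real {y | f y = i} with hp
  have hp0 : ∀ i, 0 ≤ p i := fun i => measureReal_nonneg
  set E' : D → Set B := fun i => toMeasurable (μ.map π) (E i) with hE'
  have hE'm : ∀ i, MeasurableSet (E' i) := fun i => measurableSet_toMeasurable _ _
  set q : B → D → ℝ≥0∞ := fun b i => (E' i).indicator (fun _ => ENNReal.ofReal (p i / u i)) b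
    with hq
  have hqm : ∀ i, Measurable fun b => q b i := fun i => measurable_const.indicator (hE'm i)
  have hfm : ∀ i, MeasurableSet (f ⁻¹' {i}) := fun i => hf (measurableSet_singleton i)
  have hΦ : Measurable fun z : B × Ω => q z.1 (f z.2) / condDistrib id π μ z.1 (f ⁻¹' {f z.2}) :=
    ((measurable_from_prod_countable_left (f := fun z : B × D => q z.1 z.2) hqm).comp
      (measurable_fst.prodMk (hf.comp measurable_snd))).div (cd_measurable _ hf)
  have h1 : ∫⁻ x, q (π x) (f x) / cp μ π x {y | f y = f x} ∂μ ≤ 1 := by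
    refine (cd_lintegral (μ := μ) hπ hΦ).trans_le ?_
    have h2 : ∀ x, ∫⁻ w, q (π x) (f w) / condDistrib id π μ (π x) (f ⁻¹' {f w})
        ∂condDistrib id π μ (π x) ≤ ∑' i, q (π x) i := fun x => by
      rw [lintegral_digit _ hf fun i => q (π x) i / condDistrib id π μ (π x) (f ⁻¹' {i})]
      exact ENNReal.tsum_le_tsum fun i => by
        rw [mul_comm]
        exact ENNReal.mul_div_le
    refine (lintegral_mono h2).trans ?_
    rw [lintegral_tsum (f := fun i x => q (π x) i) fun i => ((hqm i).comp hπ).aemeasurable]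
    have h3 : ∀ i, ∫⁻ x, q (π x) i ∂μ ≤ μ (f ⁻¹' {i}) := fun i => by
      rw [← lintegral_map (hqm i) hπ, hq, lintegral_indicator_const (hE'm i), hE',
        measure_toMeasurable]
      refine (mul_le_mul_right (hm i) _).trans_eq ?_
      rw [← ENNReal.ofReal_mul (div_nonneg (hp0 i) (hu i).le), div_mul_cancel₀ _ (hu i).ne', hp]
      exact ofReal_measureReal
    refine (ENNReal.tsum_le_tsum h3).trans_eq ?_
    rw [← measure_iUnion (f := fun i => f ⁻¹' {i}) (fun i j hij => Set.disjoint_left.2 fun x h1 h2 =>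
      hij ((mem_singleton_iff.1 h1).symm.trans h2)) hfm, ← measure_univ (μ := μ)]
    congr 1
    exact eq_univ_of_forall fun x => mem_iUnion.2 ⟨f x, rfl⟩
  have hpp : ∀ᵐ x ∂μ, 0 < p (f x) := by
    filter_upwards [Pc_pos (μ := μ) hf (measurable_const (a := ())),
      cp_unit (μ := μ)] with x h2 h3
    rwa [Pc, h3] at h2
  set r : Ω → ℝ := fun x => p (f x) / u (f x) / Pc μ f π x with hr
  have hrm : Measurable r := (((measurable_of_countable p).comp hf).div
    ((measurable_of_countable u).comp hf)).div (measurable_Pc hf hπ)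
  have hr0 : ∀ x, 0 ≤ r x := fun x => div_nonneg (div_nonneg (hp0 _) (hu _).le) (Pc_nonneg x)
  have h4 : ∫⁻ x, ENNReal.ofReal (r x) ∂μ ≤ 1 := by
    refine le_trans (lintegral_congr_ae ?_).le h1
    filter_upwards [hE, Pc_pos (μ := μ) hf hπ] with x h2 h3
    rw [hr, hq]
    simp only
    rw [indicator_of_mem (subset_toMeasurable _ _ h2), ENNReal.ofReal_div_of_pos h3, Pc,
      ofReal_measureReal]
  have hri : Integrable r μ :=
    ⟨hrm.aestronglyMeasurable, by
      rw [hasFiniteIntegral_iff_ofReal (Eventually.of_forall hr0)]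
      exact h4.trans_lt ENNReal.one_lt_top⟩
  have h5 : ∫ x, r x ∂μ ≤ 1 := by
    rw [integral_eq_lintegral_of_nonneg_ae (Eventually.of_forall hr0) hrm.aestronglyMeasurable]
    exact ENNReal.toReal_le_of_le_ofReal zero_le_one (by simpa using h4)
  have hI := hH.integrable hf hπ
  have h6 : ∫ x, (Ic μ f π x - Real.log (u (f x)) - I0 μ f x) ∂μ ≤ ∫ x, (r x - 1) ∂μ := by
    refine integral_mono_ae ((hI.sub hi).sub hH) (hri.sub (integrable_const _)) ?_
    filter_upwards [hpp, Pc_pos (μ := μ) hf hπ] with x h2 h3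
    have h7 := Real.log_le_sub_one_of_pos (div_pos (div_pos h2 (hu (f x))) h3)
    rw [Real.log_div (div_pos h2 (hu _)).ne' h3.ne', Real.log_div h2.ne' (hu _).ne'] at h7
    simp only [Ic, I0]
    linarith
  rw [integral_sub (f := fun x => Ic μ f π x - Real.log (u (f x))) (hI.sub hi) hH,
    integral_sub hI hi, integral_sub hri (integrable_const _)] at h6
  simp only [integral_const, probReal_univ, smul_eq_mul, mul_one] at h6
  unfold Hc H0
  linarith

/-- The entropy gap between the plaques and the fibres. -/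
theorem gap [TopologicalSpace Z] [PolishSpace Z] [MeasurableSpace Z] [BorelSpace Z]
    {T : Ω → Ω} {d : Ω → D} (hT : Ergodic T μ) (hd : Measurable d) (hH : FinEnt μ d)
    {F : Ω → Z} (hF : Measurable F) {π : Ω → B} (hπ : Measurable π)
    (iS : Incr μ T (pr2 F π) d) {Rel : ℝ → Z → Z → Prop} (hR : LusinRel Rel)
    {Q : ℕ → Ω → ℕ} (hQ : ∀ n, Measurable (Q n)) {c1 c2 C C' : ℝ}
    (hQc : ∀ n x, (Q n x : ℝ) + 1 ≤ Real.exp (C + n * c1))
    (hN : Near μ T d F Rel Q fun _ => univ)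
    (hB : ∀ n, 0 < n → ∃ (E : (Fin n → D) → Set B) (u : (Fin n → D) → ℝ),
      (∀ᵐ x ∂μ, π x ∈ E (names T d n x)) ∧ (∀ i, 0 < u i) ∧
      (∀ i, μ.map π (E i) ≤ ENNReal.ofReal (u i)) ∧
      Integrable (fun x => Real.log (u (names T d n x))) μ ∧
      ∫ x, Real.log (u (names T d n x)) ∂μ ≤ C' - n * c2) :
    c2 - c1 ≤ Hc μ d F - Hc μ d (pr2 F π) := by
  have hmp := hT.toMeasurePreserving
  refine le_of_forall_pos_le_add fun ε hε => ?_
  have h1 := names_upper hT hd hH hF hR hQ (fun _ => MeasurableSet.univ)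
    (fun n => Sat.univ _) hN (half_pos hε)
  have h2 : ∀ᶠ n : ℕ in atTop, C + C' ≤ n * (ε / 2) :=
    (tendsto_natCast_atTop_atTop.atTop_mul_const (half_pos hε)).eventually_ge_atTop _
  obtain ⟨n, h3, h4, h5⟩ := (h1.and (h2.and (eventually_gt_atTop 0))).exists
  obtain ⟨E, u, hE, hu, hm, hi, hb⟩ := hB n h5
  have hn := measurable_names hmp.measurable hd n
  have hHn := (hH.names hmp hd n).1
  have h6 := H0_ge hn hHn hπ E hE hu hm hi
  have h7 := (Hc_finer hn (hF.prodMk hπ) hπ (Det.snd F π) (hHn.integrable hn hπ)).2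
  rw [iS.Hc_names hmp hH hd (hF.prodMk hπ)] at h7
  obtain ⟨h8, h9⟩ := finEnt_of_finset (μ := μ) (hQ n) (Finset.range ⌊Real.exp (C + n * c1)⌋₊)
    (Eventually.of_forall fun x => by
      rw [Finset.mem_range, ← Nat.succ_le_iff]
      exact Nat.le_floor (by exact_mod_cast hQc n x))
  have h10 : H0 μ (Q n) ≤ C + n * c1 := by
    refine h9.trans ?_
    rw [Finset.card_range]
    have h11 : (1 : ℝ) ≤ Real.exp (C + n * c1) :=
      le_trans (by simp) (hQc n (Classical.arbitrary Ω))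
    have h12 : (0 : ℝ) < ⌊Real.exp (C + n * c1)⌋₊ := by exact_mod_cast Nat.floor_pos.2 h11
    rw [Real.log_le_iff_le_exp h12]
    exact Nat.floor_le (Real.exp_pos _).le
  obtain ⟨h13, h14⟩ := h8.pair hHn (hQ n) hn
  have h15 := (h13.of_det ((hQ n).prodMk hn) hn (Det.snd _ _)).2
  simp only [Measure.restrict_univ, probReal_univ, one_mul] at h3
  have h16 : Hc μ (names T d n) (Q n) ≤ n * (Hc μ d F + ε / 2) := h3
  have h17 : (0 : ℝ) < n := by exact_mod_cast h5
  refine le_of_mul_le_mul_left ?_ h17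
  nlinarith

/-- Sets that meet few values of the digits `sig n` are null for the conditional measures. -/
theorem thin [MeasurableSpace Z] [StandardBorelSpace Z] {F : Ω → Y} (hF : Measurable F)
    {lab : Ω → Z} (hl : Measurable lab) (hd : Det μ F lab) {sig : ℕ → Ω → ℕ}
    (hs : ∀ n, Measurable (sig n)) {c c' : ℝ} (hc : c < c')
    (h : Tendsto (fun n : ℕ => μ.real {x | Ic μ (sig n) F x < n * c'}) atTop (𝓝 0)) :
    ∀ᵐ x ∂μ, ∀ A : Set Ω, MeasurableSet A →
      (∃ C : ℝ, ∀ n : ℕ, ∃ s : Finset ℕ, (s.card : ℝ) ≤ C * Real.exp (n * c) ∧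
        ∀ y ∈ A, lab y = lab x → sig n y ∈ s) → cp μ lab x A = 0 := by
  set G : ℕ → Set Ω := fun n => {x | Ic μ (sig n) F x < n * c'} with hG
  have hGm : ∀ n, MeasurableSet (G n) := fun n =>
    measurableSet_lt (measurable_Ic (hs n) hF) measurable_const
  have hcp : ∀ n, Measurable fun x => cp μ F x (G n) := fun n =>
    (Measure.measurable_coe (hGm n)).comp (measurable_cp hF)
  have h1 : ∀ᵐ x ∂μ, liminf (fun n => cp μ F x (G n)) atTop = 0 := by
    refine (lintegral_eq_zero_iff (Measurable.liminf hcp)).1 (le_antisymm ?_ zero_le)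
    refine (lintegral_liminf_le hcp).trans_eq (Tendsto.liminf_eq ?_)
    have h2 : ∀ n, ∫⁻ x, cp μ F x (G n) ∂μ = ENNReal.ofReal (μ.real (G n)) := fun n => by
      have := setLIntegral_cp (μ := μ) hF MeasurableSet.univ (hGm n)
      simpa [ofReal_measureReal] using this
    simp only [h2]
    simpa using ENNReal.tendsto_ofReal h
  have h3 : ∀ᵐ x ∂μ, ∀ A : Set Ω,
      (∃ C : ℝ, ∀ n : ℕ, ∃ s : Finset ℕ, (s.card : ℝ) ≤ C * Real.exp (n * c) ∧
        ∀ y ∈ A, lab y = lab x → sig n y ∈ s) → cp μ F x A = 0 := by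
    filter_upwards [h1, cp_atom (μ := μ) hF, hd.ae_cp hF,
      ae_cp hF (ae_all_iff.2 fun n => exp_neg_Ic (μ := μ) (hs n) hF)] with x h4 h5 h6 h7 A ⟨C, hC⟩
    have h8 : ∀ n : ℕ, cp μ F x A ≤
        cp μ F x (G n) + ENNReal.ofReal (C * Real.exp (n * (c - c'))) := fun n => by
      obtain ⟨s, h9, h10⟩ := hC n
      have h11 : A ≤ᵐ[cp μ F x] (G n ∪ ⋃ i ∈ s, {y | sig n y = i ∧
          (cp μ F x).real {y | sig n y = i} ≤ Real.exp (-(n * c'))} : Set Ω) := by
        filter_upwards [h5, h6, h7] with y h12 h13 h14 hy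
        by_cases h15 : y ∈ G n
        · exact Or.inl h15
        · refine Or.inr (mem_iUnion₂.2 ⟨sig n y, h10 y hy h13, rfl, ?_⟩)
          have h16 := h14 n
          rw [Pc, cp_eq_of_eq h12] at h16
          rw [← h16]
          exact Real.exp_le_exp.2 (neg_le_neg (not_lt.1 h15))
      refine (measure_mono_ae h11).trans ((measure_union_le _ _).trans (add_le_add le_rfl ?_))
      refine (measure_biUnion_finset_le _ _).trans ?_
      refine (Finset.sum_le_card_nsmul _ _ (ENNReal.ofReal (Real.exp (-(n * c'))))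
        fun i _ => ?_).trans ?_
      · by_cases h15 : (cp μ F x).real {y | sig n y = i} ≤ Real.exp (-(n * c'))
        · refine (measure_mono fun y hy => (hy.1 : y ∈ {y | sig n y = i})).trans ?_
          rw [← ofReal_measureReal]
          exact ENNReal.ofReal_le_ofReal h15
        · simp [h15]
      · rw [nsmul_eq_mul, ← ENNReal.ofReal_natCast, ← ENNReal.ofReal_mul (Nat.cast_nonneg _)]
        refine ENNReal.ofReal_le_ofReal ?_
        rw [mul_sub, sub_eq_add_neg, Real.exp_add, ← mul_assoc]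
        exact mul_le_mul_of_nonneg_right h9 (Real.exp_pos _).le
    have h9 : Tendsto (fun n : ℕ => ENNReal.ofReal (C * Real.exp (n * (c - c')))) atTop (𝓝 0) := by
      have := (Real.tendsto_exp_atBot.comp
        (tendsto_natCast_atTop_atTop.atTop_mul_const_of_neg (sub_neg.2 hc))).const_mul C
      simpa using ENNReal.tendsto_ofReal this
    refine le_antisymm (ENNReal.le_of_forall_pos_le_add fun e he _ => ?_) zero_le
    have he2 : (0 : ℝ≥0∞) < e / 2 := ENNReal.half_pos (by exact_mod_cast he.ne')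
    obtain ⟨n, h10, h11⟩ := ((frequently_lt_of_liminf_lt (h := h4.trans_lt he2)).and_eventually
      (h9.eventually (gt_mem_nhds he2))).exists
    rw [zero_add, ← ENNReal.add_halves e]
    exact (h8 n).trans (add_le_add h10.le h11.le)
  filter_upwards [cp_tower hl hF hd, ae_cp hl h3, cp_atom (μ := μ) hl] with x h4 h5 h6 A hA hC
  rw [← h4, Measure.bind_apply hA (measurable_cp hF).aemeasurable]
  refine lintegral_eq_zero_of_ae_eq_zero ?_
  filter_upwards [h5, h6] with y h7 h8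
  exact h7 A (h8 ▸ hC)

end Pool.Agent.P.MP_d483fb_an.Z.HP

end

end

section

/-!
Plaques of an expanding foliation inside a compact set: the abstract data, the digit of Mane
and the increasing label.
-/

open MeasureTheory ProbabilityTheory Set Filter Topology
open scoped ENNReal

set_option linter.unusedSectionVars false

noncomputable section

namespace Pool.Agent.P.MP_d483fb_an.Z.HP

open Pool.Agent.P.MP_d483fb_an.Z.Ent

/-- The orbits of `y` and `y'` are close up to time `t`, at a scale that decreases slowly with the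
time elapsed since a visit to `K`. -/
def Cl {X : Type} [MetricSpace X] (a : X → X) (K : Set X) (η ε : ℝ) (t : ℕ) (y y' : X) : Prop :=
  ∀ i ≤ t, ∃ s ≤ i, a^[s] y ∈ K ∧
    dist (a^[i] y) (a^[i] y') ≤ η * Real.exp (-ε * ((i : ℝ) - s))

/-- The data of a family of plaques (the fibres of `lab` in `K`) over a base with expansion
rate `hU`. -/
structure Plq (X B : Type) [MetricSpace X] [MeasurableSpace X] [MetricSpace B]
    [MeasurableSpace B] (μ : Measure X) where
  a : X → X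
  b : X → X
  K : Set X
  lab : X → ℕ → ℝ
  π : X → B
  sig : ℕ → X → ℕ
  W : Set X
  kap : ℝ
  kap' : ℝ
  Lp : ℝ
  eps : ℝ
  A : ℝ
  eta : ℝ
  hU : ℝ
  C : ℝ
  dm : ℝ
  erg : Ergodic a μ
  meas_b : Measurable b
  linv : Function.LeftInverse b a
  cpt : IsCompact K
  pos : μ K ≠ 0
  meas_lab : Measurable lab
  cont_lab : ContinuousOn lab K
  meas_π : Measurable π
  meas_sig : ∀ N, Measurable (sig N)
  kap_pos : 0 < kap
  kap_lt : kap < kap'
  Lp_nonneg : 0 ≤ Lp
  eps_pos : 0 < eps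
  eta_pos : 0 < eta
  eta_le : eta ≤ 1
  one_le_A : 1 ≤ A
  dm_nonneg : 0 ≤ dm
  lip_a : ∀ x y, dist (a x) (a y) ≤ Real.exp Lp * dist x y
  lip_b : ∀ x y, dist (b x) (b y) ≤ Real.exp Lp * dist x y
  sh1 : ∀ y ∈ K, ∀ y' ∈ K, lab y = lab y' →
    ∀ i : ℕ, dist (b^[i] y) (b^[i] y') ≤ A * Real.exp (-kap' * i)
  sh2 : ∀ y ∈ K, ∀ y' ∈ K,
    (∀ i : ℕ, dist (b^[i] y) (b^[i] y') ≤ A * Real.exp (-kap * i)) → lab y = lab y'
  g3 : ∀ y ∈ K, ∀ y' t, a^[t] y ∈ K → Cl a K eta eps t y y' → ∀ i ≤ t,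
    dist (a^[i] y) (a^[i] y') ≤
      (A - 1) * Real.exp (-kap' * ((t : ℝ) - i)) + A * Real.exp (eps * t) * dist y y'
  bow : ∀ y ∈ K, ∀ t : ℕ,
    μ.map π (π '' {y' | Cl a K eta eps t y y'}) ≤ ENNReal.ofReal (Real.exp (C - t * hU))
  cov : ∀ s : ℝ, 0 ≤ s → ∃ c : X → ℕ, Measurable c ∧ (∀ x, (c x : ℝ) + 1 ≤ Real.exp (C + dm * s)) ∧
    ∀ y ∈ K, ∀ y' ∈ K, c y = c y' → dist y y' ≤ Real.exp (-s)
  π_a : ∀ y y', π (a y) = π (a y') ↔ π y = π y'
  aeW : ∀ᵐ x ∂μ[|K], x ∈ W
  c0 : ∀ y ∈ W, ∀ y' ∈ W, lab y = lab y' → π y = π y' → ∀ N, sig N y = sig N y'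
  c1 : ∀ δ : ℝ, 0 < δ → ∃ j : ℕ, ∀ N t : ℕ, t + j ≤ N → ∀ y ∈ W, ∀ y' ∈ W, lab y = lab y' →
    sig N y = sig N y' → a^[t] y ∈ K → dist (π (a^[t] y)) (π (a^[t] y')) ≤ δ

namespace Plq

variable {X B : Type} [MetricSpace X] [MeasurableSpace X] [MetricSpace B] [MeasurableSpace B]
  {μ : Measure X} (P : Plq X B μ)

/-- The first return map. -/
def T : X → X := firstRet P.a P.K

/-- The inverse of the first return map. -/
def T' : X → X := firstRet P.b P.K

/-- The first return time. -/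
def τ : X → ℕ := retTime P.a P.K

/-- The time of the `n`-th return. -/
def tn (n : ℕ) (x : X) : ℕ := birkhoffSum P.T P.τ n x

/-- The normalised restriction of the measure. -/
def ν : Measure X := μ[|P.K]

/-- The mean return time. -/
def th : ℝ := (μ.real P.K)⁻¹

/-- The rate of decay of the size of the cells. -/
def L : ℝ := P.Lp + P.eps + P.kap + (P.Lp + P.kap) * P.kap / (P.kap' - P.kap)

theorem L_nonneg : 0 ≤ P.L := by
  have h1 := P.kap_pos
  have h2 := P.Lp_nonneg
  have h3 := P.eps_pos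
  have h4 := sub_pos.2 P.kap_lt
  unfold L
  positivity

theorem scale_nonneg (t : ℕ) : 0 ≤ P.L * t - Real.log P.eta := by
  have h1 := Real.log_nonpos P.eta_pos.le P.eta_le
  have h2 := mul_nonneg P.L_nonneg (Nat.cast_nonneg (α := ℝ) t)
  linarith

/-- The cells at the scale attached to the return time `t`. -/
def cell (t : ℕ) : X → ℕ := (P.cov _ (P.scale_nonneg t)).choose

/-- The digit. -/
def d (x : X) : ℕ × ℕ := (P.τ x, P.cell (P.τ x) x)

/-- The increasing label: the plaque and the past digits. -/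
def F (x : X) : (ℕ → ℝ) × (ℕ → ℕ × ℕ) := (P.lab x, fun j => P.d (P.T'^[j + 1] x))

/-- The points that return infinitely often. -/
def Good (y : X) : Prop := ∀ j, P.T^[j] y ∈ P.K ∧ 0 < P.τ (P.T^[j] y)

/-- The depth of the transversal digit. -/
def N1 (n : ℕ) : ℕ := ⌈(1 + P.eps) * P.th * n⌉₊

theorem T_apply (x : X) : P.T x = P.a^[P.τ x] x := rfl

theorem iterate_T (n : ℕ) (x : X) : P.T^[n] x = P.a^[P.tn n x] x := iterate_firstRet n x

theorem tn_zero (x : X) : P.tn 0 x = 0 := rfl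

theorem tn_succ (n : ℕ) (x : X) : P.tn (n + 1) x = P.tn n x + P.τ (P.T^[n] x) :=
  birkhoffSum_succ _ _ _ _

theorem tn_mono (x : X) : Monotone fun n => P.tn n x :=
  monotone_nat_of_le_succ fun n => by simp [tn_succ]

theorem τ_eq {y y' : X} (h : P.d y = P.d y') : P.τ y = P.τ y' := congrArg Prod.fst h

theorem dist_le {y y' : X} (hy : y ∈ P.K) (hy' : y' ∈ P.K) (h : P.d y = P.d y') :
    dist y y' ≤ P.eta * Real.exp (-P.L * P.τ y) := by
  have h1 : P.cell (P.τ y) y = P.cell (P.τ y') y' := congrArg Prod.snd h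
  rw [← P.τ_eq h] at h1
  refine ((P.cov _ (P.scale_nonneg (P.τ y))).choose_spec.2.2 y hy y' hy' h1).trans_eq ?_
  rw [neg_sub, sub_eq_add_neg, Real.exp_add, Real.exp_log P.eta_pos, neg_mul]

theorem Good.mem {P : Plq X B μ} {y : X} (h : P.Good y) : y ∈ P.K := (h 0).1

theorem Good.pos {P : Plq X B μ} {y : X} (h : P.Good y) : 0 < P.τ y := (h 0).2

theorem Good.T {P : Plq X B μ} {y : X} (h : P.Good y) : P.Good (P.T y) := fun j => h (j + 1)

theorem Good.iter {P : Plq X B μ} {y : X} (h : P.Good y) (n : ℕ) : P.Good (P.T^[n] y) :=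
  fun j => by
    rw [← Function.iterate_add_apply]
    exact h _

theorem Good.inv {P : Plq X B μ} {y : X} (h : P.Good y) : P.T' (P.T y) = y :=
  firstRet_inv P.linv h.mem h.pos

theorem Good.le_tn {P : Plq X B μ} {y : X} (h : P.Good y) (n : ℕ) : n ≤ P.tn n y := by
  induction n with
  | zero => exact Nat.zero_le _
  | succ n ih =>
    have := (h n).2
    rw [tn_succ]
    omega

/-- The past digits of `T^[k] y`. -/
theorem Good.inv_iter {P : Plq X B μ} {y : X} (h : P.Good y) {j k : ℕ} (hj : j ≤ k) :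
    P.T'^[j] (P.T^[k] y) = P.T^[k - j] y := by
  induction j with
  | zero => rfl
  | succ j ih =>
    rw [Function.iterate_succ_apply', ih (by omega),
      show k - j = (k - (j + 1)) + 1 by omega, Function.iterate_succ_apply', (h.iter _).inv]

theorem lip_a_iter (i : ℕ) (x y : X) :
    dist (P.a^[i] x) (P.a^[i] y) ≤ Real.exp (P.Lp * i) * dist x y := by
  induction i with
  | zero => simp
  | succ i ih =>
    rw [Function.iterate_succ_apply', Function.iterate_succ_apply']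
    refine (P.lip_a _ _).trans ((mul_le_mul_of_nonneg_left ih (Real.exp_pos _).le).trans_eq ?_)
    rw [← mul_assoc, ← Real.exp_add]
    congr 2
    push_cast
    ring

theorem lip_b_iter (i : ℕ) (x y : X) :
    dist (P.b^[i] x) (P.b^[i] y) ≤ Real.exp (P.Lp * i) * dist x y := by
  induction i with
  | zero => simp
  | succ i ih =>
    rw [Function.iterate_succ_apply', Function.iterate_succ_apply']
    refine (P.lip_b _ _).trans ((mul_le_mul_of_nonneg_left ih (Real.exp_pos _).le).trans_eq ?_)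
    rw [← mul_assoc, ← Real.exp_add]
    congr 2
    push_cast
    ring

theorem b_a_of_le {i t : ℕ} (h : i ≤ t) (x : X) : P.b^[i] (P.a^[t] x) = P.a^[t - i] x := by
  conv_lhs => rw [← Nat.add_sub_cancel' h, Function.iterate_add_apply]
  exact P.linv.iterate i _

theorem b_a_add (i t : ℕ) (x : X) : P.b^[i + t] (P.a^[t] x) = P.b^[i] x := by
  rw [Function.iterate_add_apply, P.linv.iterate t]

theorem π_a_iter (t : ℕ) (y y' : X) : P.π (P.a^[t] y) = P.π (P.a^[t] y') ↔ P.π y = P.π y' := by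
  induction t with
  | zero => rfl
  | succ t ih => rw [Function.iterate_succ_apply', Function.iterate_succ_apply', P.π_a, ih]

/-- Equal names give equal return times. -/
theorem tn_eq {y y' : X} {k : ℕ} (h : ∀ i < k, P.d (P.T^[i] y) = P.d (P.T^[i] y')) :
    P.tn k y = P.tn k y' := by
  induction k with
  | zero => rfl
  | succ k ih =>
    rw [tn_succ, tn_succ, ih fun i hi => h i (by omega), P.τ_eq (h k (by omega))]

/-- Equal names give close orbits. -/
theorem cl_of_names {y y' : X} (hy : P.Good y) (hy' : P.Good y') {k : ℕ} (hk : 0 < k)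
    (h : ∀ i < k, P.d (P.T^[i] y) = P.d (P.T^[i] y')) :
    Cl P.a P.K P.eta P.eps (P.tn k y) y y' := by
  intro i hi
  obtain ⟨j, hj, h1, h2⟩ : ∃ j < k, P.tn j y ≤ i ∧ i ≤ P.tn (j + 1) y := by
    clear h
    induction k with
    | zero => omega
    | succ k ih =>
      by_cases h3 : P.tn k y ≤ i
      · exact ⟨k, by omega, h3, hi⟩
      · have h4 : 0 < k := Nat.pos_of_ne_zero fun h0 => h3 (by simp [h0, tn_zero])
        obtain ⟨j, hj, h5⟩ := ih h4 (by omega)
        exact ⟨j, by omega, h5⟩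
  have e1 := P.iterate_T j y
  have e2 := P.iterate_T j y'
  rw [← P.tn_eq fun i hi => h i (hi.trans hj)] at e2
  refine ⟨P.tn j y, h1, e1 ▸ (hy j).1, ?_⟩
  obtain ⟨m, rfl⟩ := Nat.exists_eq_add_of_le' h1
  rw [Function.iterate_add_apply, Function.iterate_add_apply, ← e1, ← e2]
  refine (P.lip_a_iter m _ _).trans ?_
  refine (mul_le_mul_of_nonneg_left (P.dist_le (hy j).1 (hy' j).1 (h j hj))
    (Real.exp_pos _).le).trans ?_
  rw [mul_left_comm, ← Real.exp_add]
  refine mul_le_mul_of_nonneg_left (Real.exp_le_exp.2 ?_) P.eta_pos.le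
  have h3 : (m : ℝ) ≤ P.τ (P.T^[j] y) := by
    rw [tn_succ] at h2
    exact_mod_cast (by omega : m ≤ P.τ (P.T^[j] y))
  have h4 : P.Lp + P.eps ≤ P.L := by
    have := P.kap_pos
    have := P.Lp_nonneg
    have := sub_pos.2 P.kap_lt
    have : 0 ≤ (P.Lp + P.kap) * P.kap / (P.kap' - P.kap) := by positivity
    unfold L
    linarith
  have h5 := mul_le_mul h4 h3 (Nat.cast_nonneg m) P.L_nonneg
  push_cast
  linarith

section meas
variable [BorelSpace X]

theorem measK : MeasurableSet P.K := P.cpt.isClosed.measurableSet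

theorem meas_a : Measurable P.a := P.erg.toMeasurePreserving.measurable

theorem meas_T : Measurable P.T := measurable_firstRet P.meas_a P.measK

theorem meas_T' : Measurable P.T' := measurable_firstRet P.meas_b P.measK

theorem meas_τ : Measurable P.τ := measurable_retTime P.meas_a P.measK

theorem meas_tn (n : ℕ) : Measurable (P.tn n) :=
  Finset.measurable_sum (f := fun i x => P.τ (P.T^[i] x)) (Finset.range n)
    fun i _ => P.meas_τ.comp (P.meas_T.iterate i)

theorem meas_d : Measurable P.d :=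
  P.meas_τ.prodMk (measurable_comp_retTime P.meas_a P.measK (g := P.cell)
    fun t => (P.cov _ (P.scale_nonneg t)).choose_spec.1)

theorem meas_F : Measurable P.F :=
  P.meas_lab.prodMk (measurable_pi_lambda _ fun j => P.meas_d.comp (P.meas_T'.iterate (j + 1)))

theorem meas_Good : MeasurableSet {y | P.Good y} := by
  simp only [Good, ofPred_forall]
  exact MeasurableSet.iInter fun j => (P.meas_T.iterate j P.measK).inter
    (measurableSet_lt measurable_const (P.meas_τ.comp (P.meas_T.iterate j)))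

variable [IsProbabilityMeasure μ]

instance : IsProbabilityMeasure P.ν := cond_isProbabilityMeasure P.pos

theorem erg_T : Ergodic P.T P.ν := ergodic_firstRet_cond P.erg P.measK

theorem mp_T : MeasurePreserving P.T P.ν P.ν := P.erg_T.toMeasurePreserving

theorem ae_Good : ∀ᵐ y ∂P.ν, P.Good y := by
  refine ae_all_iff.2 fun j => ?_
  refine (P.mp_T.iterate j).quasiMeasurePreserving.ae
    (p := fun y => y ∈ P.K ∧ 0 < P.τ y) ?_
  filter_upwards [ae_cond_retTime P.erg.toMeasurePreserving P.measK] with y hy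
  exact ⟨hy.1, hy.2.1⟩

theorem one_le_th : 1 ≤ P.th := by
  have h0 : 0 < μ.real P.K := ENNReal.toReal_pos P.pos (measure_ne_top _ _)
  exact (one_le_inv₀ h0).2 measureReal_le_one

theorem int_τ : Integrable (fun x => (P.τ x : ℝ)) P.ν ∧ ∫ x, (P.τ x : ℝ) ∂P.ν = P.th :=
  integral_retTime_cond P.erg P.measK P.pos

theorem int_tn (n : ℕ) :
    Integrable (fun x => (P.tn n x : ℝ)) P.ν ∧ ∫ x, (P.tn n x : ℝ) ∂P.ν = n * P.th := by
  have e : (fun x => (P.tn n x : ℝ)) = birkhoffSum P.T (fun x => (P.τ x : ℝ)) n := by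
    funext x
    simp [tn, birkhoffSum]
  rw [e]
  exact ⟨integrable_birkhoffSum P.mp_T P.int_τ.1 n, by
    rw [integral_birkhoffSum P.mp_T P.int_τ.1, P.int_τ.2]⟩

/-- The return times are close to their mean off a small set. -/
theorem tendsto_tn {c : ℝ} (hc : P.th < c) :
    Tendsto (fun n : ℕ => P.ν.real {x | c * n < P.tn n x}) atTop (𝓝 0) := by
  have h1 : ∀ᵐ x ∂P.ν, Tendsto (fun n : ℕ => (P.tn n x : ℝ) / n) atTop (𝓝 P.th) :=
    tendsto_retTime_sum P.erg P.measK P.pos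
  have hm : ∀ n : ℕ, MeasurableSet {x | c * n < P.tn n x} := fun n =>
    measurableSet_lt measurable_const (measurable_from_nat.comp (P.meas_tn n))
  have h2 : Tendsto (fun n : ℕ => P.ν {x | c * n < P.tn n x}) atTop (𝓝 (P.ν ∅)) := by
    refine tendsto_measure_of_ae_tendsto_indicator_of_isFiniteMeasure atTop MeasurableSet.empty
      hm ?_
    filter_upwards [h1] with x hx
    filter_upwards [hx.eventually (gt_mem_nhds hc), eventually_gt_atTop 0] with n h3 h4
    rw [div_lt_iff₀ (by exact_mod_cast h4)] at h3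
    simpa using h3.le
  have h3 := (ENNReal.tendsto_toReal (measure_ne_top _ _)).comp h2
  rwa [measure_empty, ENNReal.toReal_zero] at h3

end meas

end Plq

end Pool.Agent.P.MP_d483fb_an.Z.HP

end

end

section

/-!
The label of the plaques is increasing; entropy of the digit; names and Bowen balls.
-/

open MeasureTheory ProbabilityTheory Set Filter Topology
open scoped ENNReal

set_option linter.unusedSectionVars false

noncomputable section

namespace Pool.Agent.P.MP_d483fb_an.Z.HP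

open Pool.Agent.P.MP_d483fb_an.Z.Ent

namespace Plq

variable {X B : Type} [MetricSpace X] [MeasurableSpace X] [MetricSpace B] [MeasurableSpace B]
  {μ : Measure X} (P : Plq X B μ)

theorem lab_of_T {y y' : X} (hy : P.Good y) (hy' : P.Good y') (hτ : P.τ y = P.τ y')
    (h : P.lab (P.T y) = P.lab (P.T y')) : P.lab y = P.lab y' := by
  refine P.sh2 y hy.mem y' hy'.mem fun i => ?_
  have h1 := P.sh1 _ hy.T.mem _ hy'.T.mem h (i + P.τ y)
  rw [T_apply, T_apply, ← hτ, b_a_add, b_a_add] at h1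
  refine h1.trans (mul_le_mul_of_nonneg_left (Real.exp_le_exp.2 ?_) (by linarith [P.one_le_A]))
  have h2 := P.kap_pos
  have h3 := P.kap_lt
  have h4 : (0 : ℝ) ≤ i := Nat.cast_nonneg _
  have h5 : (0 : ℝ) ≤ P.τ y := Nat.cast_nonneg _
  push_cast
  nlinarith

theorem lab_T {y y' : X} (hy : P.Good y) (hy' : P.Good y') (hd : P.d y = P.d y')
    (h : P.lab y = P.lab y') : P.lab (P.T y) = P.lab (P.T y') := by
  refine P.sh2 _ hy.T.mem _ hy'.T.mem fun i => ?_
  have h0 := P.dist_le hy.mem hy'.mem hd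
  rw [T_apply, T_apply, ← P.τ_eq hd]
  generalize P.τ y = t at h0
  have h1 := P.kap_pos
  have h2 := sub_pos.2 P.kap_lt
  have h3 := P.Lp_nonneg
  have h4 := P.eps_pos
  have h5 : P.eta ≤ P.A := P.eta_le.trans P.one_le_A
  have h6 : (0 : ℝ) ≤ t := Nat.cast_nonneg _
  set c := (P.Lp + P.kap) * P.kap / (P.kap' - P.kap) with hc
  have h7 : 0 ≤ c := by positivity
  have hL : P.L = P.Lp + P.eps + P.kap + c := rfl
  have key : ∀ e e' : ℝ, e + -P.L * t ≤ e' →
      Real.exp e * (P.eta * Real.exp (-P.L * t)) ≤ P.A * Real.exp e' := fun e e' he => by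
    rw [mul_left_comm, ← Real.exp_add]
    exact mul_le_mul h5 (Real.exp_le_exp.2 he) (Real.exp_pos _).le (by linarith [P.eta_pos])
  rcases le_total i t with hi | hi
  · rw [P.b_a_of_le hi, P.b_a_of_le hi]
    refine (P.lip_a_iter _ _ _).trans
      ((mul_le_mul_of_nonneg_left h0 (Real.exp_pos _).le).trans (key _ _ ?_))
    have h8 : (i : ℝ) ≤ t := by exact_mod_cast hi
    have h9 : (0 : ℝ) ≤ i := Nat.cast_nonneg _
    rw [Nat.cast_sub hi, hL]
    nlinarith [mul_nonneg h7 h6, mul_nonneg h4.le h6, mul_nonneg h3 h9]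
  · obtain ⟨j, rfl⟩ := Nat.exists_eq_add_of_le' hi
    rw [b_a_add, b_a_add]
    have h9 : (0 : ℝ) ≤ j := Nat.cast_nonneg _
    rcases le_total (P.kap * t) ((P.kap' - P.kap) * j) with hj | hj
    · refine (P.sh1 y hy.mem y' hy'.mem h j).trans
        (mul_le_mul_of_nonneg_left (Real.exp_le_exp.2 ?_) (by linarith [P.eta_pos]))
      push_cast
      nlinarith
    · refine (P.lip_b_iter _ _ _).trans
        ((mul_le_mul_of_nonneg_left h0 (Real.exp_pos _).le).trans (key _ _ ?_))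
      have h10 : (P.Lp + P.kap) * j ≤ c * t := by
        rw [hc, div_mul_eq_mul_div, le_div_iff₀ h2]
        nlinarith [mul_le_mul_of_nonneg_left hj (add_nonneg h3 h1.le)]
      rw [hL]
      push_cast
      nlinarith [mul_nonneg h4.le h6, mul_nonneg h3 h6]

theorem F_T_iff {y y' : X} (hy : P.Good y) (hy' : P.Good y') :
    P.F (P.T y) = P.F (P.T y') ↔ P.F y = P.F y' ∧ P.d y = P.d y' := by
  have e : ∀ {y : X}, P.Good y → ∀ j, (P.F (P.T y)).2 j = P.d (P.T'^[j] y) := fun hy j => by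
    simp only [F, Function.iterate_succ_apply, hy.inv]
  constructor
  · intro h
    have h1 : ∀ j, P.d (P.T'^[j] y) = P.d (P.T'^[j] y') := fun j => by rw [← e hy, ← e hy', h]
    exact ⟨Prod.ext (P.lab_of_T hy hy' (P.τ_eq (h1 0)) (congrArg Prod.fst h))
      (funext fun j => h1 (j + 1)), h1 0⟩
  · rintro ⟨h1, h2⟩
    refine Prod.ext (P.lab_T hy hy' h2 (congrArg Prod.fst h1)) (funext fun j => ?_)
    rw [e hy, e hy']
    cases j with
    | zero => exact h2
    | succ j => exact congrFun (congrArg Prod.snd h1) j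

theorem F_iter {y y' : X} (hy : P.Good y) (hy' : P.Good y') (h : P.F y = P.F y') {k : ℕ}
    (hn : ∀ i < k, P.d (P.T^[i] y) = P.d (P.T^[i] y')) : P.F (P.T^[k] y) = P.F (P.T^[k] y') := by
  induction k with
  | zero => exact h
  | succ k ih =>
    rw [Function.iterate_succ_apply', Function.iterate_succ_apply']
    exact (P.F_T_iff (hy.iter k) (hy'.iter k)).2 ⟨ih fun i hi => hn i (by omega), hn k (by omega)⟩

theorem π_T_iff {y y' : X} (h : P.d y = P.d y') : P.π (P.T y) = P.π (P.T y') ↔ P.π y = P.π y' := by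
  rw [T_apply, T_apply, ← P.τ_eq h, π_a_iter]

variable [BorelSpace X] [IsProbabilityMeasure μ]

theorem incr_F : Incr P.ν P.T P.F P.d :=
  ⟨⟨{y | P.Good y}, P.ae_Good, fun _ hy _ hy' h => Prod.ext_iff.2 ((P.F_T_iff hy hy').1 h)⟩,
    ⟨{y | P.Good y}, P.ae_Good, fun _ hy _ hy' h => (P.F_T_iff hy hy').2 (Prod.ext_iff.1 h)⟩⟩

theorem incr_S : Incr P.ν P.T (pr2 P.F P.π) P.d := by
  refine ⟨⟨{y | P.Good y}, P.ae_Good, fun y hy y' hy' h => ?_⟩,
    ⟨{y | P.Good y}, P.ae_Good, fun y hy y' hy' h => ?_⟩⟩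
  · obtain ⟨h1, h2⟩ := (P.F_T_iff hy hy').1 (congrArg Prod.fst h)
    exact Prod.ext (Prod.ext h1 ((P.π_T_iff h2).1 (congrArg Prod.snd h))) h2
  · obtain ⟨h1, h2⟩ := Prod.ext_iff.1 h
    obtain ⟨h3, h4⟩ := Prod.ext_iff.1 h1
    exact Prod.ext ((P.F_T_iff hy hy').2 ⟨h3, h2⟩) ((P.π_T_iff h2).2 h4)

theorem finEnt_d [StandardBorelSpace X] [Nonempty X] : FinEnt P.ν P.d := by
  refine finEnt_of_count P.meas_d P.int_τ.1
    (fun k => {k} ×ˢ Finset.range ⌊Real.exp (P.C + P.dm * (P.L * k - Real.log P.eta))⌋₊)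
    (C := |P.C - P.dm * Real.log P.eta| + P.dm * P.L) (fun k => ?_)
    (Eventually.of_forall fun x => ?_)
  · rw [Finset.card_product, Finset.card_singleton, Finset.card_range, one_mul]
    refine (Nat.floor_le (Real.exp_pos _).le).trans (Real.exp_le_exp.2 ?_)
    have h1 := le_abs_self (P.C - P.dm * Real.log P.eta)
    have h2 := mul_nonneg (abs_nonneg (P.C - P.dm * Real.log P.eta)) (Nat.cast_nonneg (α := ℝ) k)
    have h3 := mul_nonneg P.dm_nonneg P.L_nonneg
    nlinarith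
  · refine Finset.mem_product.2 ⟨Finset.mem_singleton_self _, ?_⟩
    rw [Finset.mem_range, ← Nat.succ_le_iff]
    refine Nat.le_floor ?_
    exact_mod_cast (P.cov _ (P.scale_nonneg (P.τ x))).choose_spec.2.1 x

/-- The name of a point confines its projection to a Bowen ball. -/
theorem bowen (n : ℕ) (hn : 0 < n) :
    ∃ (E : (Fin n → ℕ × ℕ) → Set B) (u : (Fin n → ℕ × ℕ) → ℝ),
      (∀ᵐ x ∂P.ν, P.π x ∈ E (names P.T P.d n x)) ∧ (∀ i, 0 < u i) ∧
      (∀ i, P.ν.map P.π (E i) ≤ ENNReal.ofReal (u i)) ∧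
      Integrable (fun x => Real.log (u (names P.T P.d n x))) P.ν ∧
      ∫ x, Real.log (u (names P.T P.d n x)) ∂P.ν ≤
        (P.C + Real.log P.th) - n * (P.th * P.hU) := by
  classical
  have hth : 0 < P.th := one_pos.trans_le P.one_le_th
  have e : ∀ x, ∑ j, (names P.T P.d n x j).1 = P.tn n x := fun x =>
    (Finset.sum_range fun j => P.τ (P.T^[j] x)).symm
  have e2 : ∀ x, Real.log (P.th * Real.exp (P.C - (∑ j, (names P.T P.d n x j).1 : ℕ) * P.hU)) =
      P.C + Real.log P.th - P.tn n x * P.hU := fun x => by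
    rw [Real.log_mul hth.ne' (Real.exp_pos _).ne', Real.log_exp, e]
    ring
  refine ⟨fun w => if h : ∃ y, P.Good y ∧ names P.T P.d n y = w then
      P.π '' {y' | Cl P.a P.K P.eta P.eps (P.tn n h.choose) h.choose y'} else ∅,
    fun w => P.th * Real.exp (P.C - (∑ j, (w j).1 : ℕ) * P.hU), ?_, fun w => by positivity,
    fun w => ?_, ?_, ?_⟩
  · filter_upwards [P.ae_Good] with x hx
    have h : ∃ y, P.Good y ∧ names P.T P.d n y = names P.T P.d n x := ⟨x, hx, rfl⟩
    rw [dif_pos h]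
    exact ⟨x, P.cl_of_names h.choose_spec.1 hx hn (names_eq_iff.1 h.choose_spec.2), rfl⟩
  · beta_reduce
    split_ifs with h
    · have h1 := P.bow _ h.choose_spec.1.mem (P.tn n h.choose)
      have h2 : P.ν.map P.π ≤ ENNReal.ofReal P.th • μ.map P.π := by
        rw [← Measure.map_smul]
        refine Measure.map_mono ?_ P.meas_π
        have h3 : ENNReal.ofReal P.th = (μ P.K)⁻¹ := by
          rw [th, Measure.real, ← ENNReal.toReal_inv,
            ENNReal.ofReal_toReal (ENNReal.inv_ne_top.2 P.pos)]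
        rw [h3]
        intro s
        exact mul_le_mul_right (Measure.restrict_le_self s) _
      refine (h2 _).trans ?_
      rw [Measure.smul_apply, smul_eq_mul, ENNReal.ofReal_mul hth.le]
      refine mul_le_mul_right (h1.trans_eq ?_) _
      rw [← e, h.choose_spec.2]
    · simp
  · simp only [e2]
    exact (integrable_const _).sub ((P.int_tn n).1.mul_const _)
  · simp only [e2]
    rw [integral_sub (integrable_const _) ((P.int_tn n).1.mul_const _), integral_mul_const,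
      (P.int_tn n).2]
    simp [mul_assoc]

end Plq

end Pool.Agent.P.MP_d483fb_an.Z.HP

end

end

section

/-!
Thin sets are null for the conditional measures on the plaques.
-/

open MeasureTheory ProbabilityTheory Set Filter Topology
open scoped ENNReal

set_option linter.unusedSectionVars false

noncomputable section

namespace Pool.Agent.P.MP_d483fb_an.Z.HP

open Pool.Agent.P.MP_d483fb_an.Z.Ent

namespace Plq

variable {X B : Type} [MetricSpace X] [MeasurableSpace X] [MetricSpace B] [MeasurableSpace B]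
  {μ : Measure X} (P : Plq X B μ)

/-- The closed conditions that define the relation on the labels. -/
def AF (k : ℕ) : Set ((((ℕ → ℝ) × (ℕ → ℕ × ℕ)) × ((ℕ → ℝ) × (ℕ → ℕ × ℕ))) × (X × X)) :=
  {p | P.lab p.2.1 = p.1.1.1 ∧ P.lab p.2.2 = p.1.2.1 ∧ ∀ i ≤ k,
    dist (P.b^[i] p.2.1) (P.b^[i] p.2.2) ≤ P.A * Real.exp (-P.kap * i) ∧ p.1.1.2 i = p.1.2.2 i}

theorem continuous_b (i : ℕ) : Continuous P.b^[i] :=
  (LipschitzWith.of_dist_le_mul (K := ⟨Real.exp P.Lp, (Real.exp_pos _).le⟩) P.lip_b).continuous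
    |>.iterate i

theorem isClosed_AF (k : ℕ) : IsClosed (P.AF k ∩ univ ×ˢ (P.K ×ˢ P.K)) := by
  set S : Set ((((ℕ → ℝ) × (ℕ → ℕ × ℕ)) × ((ℕ → ℝ) × (ℕ → ℕ × ℕ))) × (X × X)) :=
    univ ×ˢ (P.K ×ˢ P.K) with hS
  have hc : IsClosed S := isClosed_univ.prod (P.cpt.isClosed.prod P.cpt.isClosed)
  have h1 : IsClosed {p ∈ S | P.lab p.2.1 = p.1.1.1} :=
    hc.isClosed_eq (P.cont_lab.comp continuous_snd.fst.continuousOn fun p hp => hp.2.1)
      continuous_fst.fst.fst.continuousOn
  have h2 : IsClosed {p ∈ S | P.lab p.2.2 = p.1.2.1} :=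
    hc.isClosed_eq (P.cont_lab.comp continuous_snd.snd.continuousOn fun p hp => hp.2.2)
      continuous_fst.snd.fst.continuousOn
  have h3 : IsClosed {p : (((ℕ → ℝ) × (ℕ → ℕ × ℕ)) × ((ℕ → ℝ) × (ℕ → ℕ × ℕ))) × (X × X) |
      ∀ i ≤ k, dist (P.b^[i] p.2.1) (P.b^[i] p.2.2) ≤ P.A * Real.exp (-P.kap * i) ∧
        p.1.1.2 i = p.1.2.2 i} := by
    simp only [ofPred_forall]
    refine isClosed_iInter fun i => isClosed_iInter fun _ => IsClosed.inter ?_ ?_
    · exact isClosed_le (((P.continuous_b i).comp continuous_snd.fst).dist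
        ((P.continuous_b i).comp continuous_snd.snd)) continuous_const
    · exact isClosed_eq ((continuous_apply i).comp continuous_fst.fst.snd)
        ((continuous_apply i).comp continuous_fst.snd.snd)
  convert h1.inter (h2.inter h3) using 1
  ext p
  simp only [AF, mem_inter_iff, mem_ofPred_eq]
  tauto

theorem lusin_F : LusinRel fun δ z z' => ∃ v ∈ P.K ×ˢ P.K, ∀ k : ℕ, k * δ ≤ 1 →
    ((z, z'), v) ∈ P.AF k := by
  refine lusinRel_seq (P.cpt.prod P.cpt) P.isClosed_AF fun z z' v hv h => ?_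
  refine Prod.ext ?_ (funext fun i => ((h i).2.2 i le_rfl).2)
  rw [← (h 0).1, ← (h 0).2.1]
  exact P.sh2 _ hv.1 _ hv.2 fun i => ((h i).2.2 i le_rfl).1

theorem lusin_S {Z : Type} [TopologicalSpace Z] [T2Space Z] :
    LusinRel fun δ (z z' : Z × B) => ∃ v ∈ (univ : Set Unit), ∀ k : ℕ, k * δ ≤ 1 →
      ((z, z'), v) ∈ {p : ((Z × B) × (Z × B)) × Unit |
        p.1.1.1 = p.1.2.1 ∧ k * dist p.1.1.2 p.1.2.2 ≤ 1} := by
  refine lusinRel_seq isCompact_univ (fun k => ?_) fun z z' v _ h => ?_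
  · refine IsClosed.inter (IsClosed.inter ?_ ?_) (isClosed_univ.prod isClosed_univ)
    · exact isClosed_eq continuous_fst.fst.fst continuous_fst.snd.fst
    · exact isClosed_le (continuous_const.mul (continuous_fst.fst.snd.dist continuous_fst.snd.snd))
        continuous_const
  · refine Prod.ext (h 0).1 ?_
    by_contra hne
    obtain ⟨k, hk⟩ := exists_nat_gt (1 / dist z.2 z'.2)
    rw [div_lt_iff₀ (dist_pos.2 hne)] at hk
    exact absurd (h k).2 (not_le.2 hk)

variable [BorelSpace X] [IsProbabilityMeasure μ]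

theorem scale_Q (n : ℕ) : 0 ≤ 3 * P.eps * P.th * n := by
  have := P.eps_pos
  have := P.one_le_th
  positivity

/-- The partition of `K` at a subexponential scale. -/
def Q (n : ℕ) : X → ℕ := (P.cov _ (P.scale_Q n)).choose

theorem real_diff_le {G E : Set X} {η : ℝ} (hE : P.ν.real E ≤ η)
    (h : ∀ᵐ x ∂P.ν, x ∉ E → x ∈ G) : P.ν.real (univ \ G) ≤ η := by
  refine le_trans (ENNReal.toReal_mono (measure_ne_top _ _) (measure_mono_ae ?_)) hE
  filter_upwards [h] with x hx h1
  by_contra h2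
  exact h1.2 (hx h2)

theorem near_F : Near P.ν P.T P.d P.F (fun δ z z' => ∃ v ∈ P.K ×ˢ P.K, ∀ k : ℕ, k * δ ≤ 1 →
    ((z, z'), v) ∈ P.AF k) P.Q fun _ => univ := by
  intro δ hδ η hη
  obtain ⟨I, hI⟩ := exists_nat_ge (1 / δ)
  have hth : 0 < P.th := one_pos.trans_le P.one_le_th
  have hA : 0 < P.A := one_pos.trans_le P.one_le_A
  have h1 := (P.tendsto_tn (c := 2 * P.th) (by linarith)).eventually (gt_mem_nhds hη)
  have h2 : ∀ᶠ n : ℕ in atTop, Real.log P.A + P.kap * I ≤ n * (P.eps * P.th) :=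
    (tendsto_natCast_atTop_atTop.atTop_mul_const (mul_pos P.eps_pos hth)).eventually_ge_atTop _
  refine ⟨I + 1, ?_⟩
  filter_upwards [h1, h2] with n h3 h4 k hk hkn
  refine ⟨{y | P.Good y} ∩ {y | (P.tn n y : ℝ) ≤ 2 * P.th * n}, P.meas_Good.inter
    (measurableSet_le (measurable_from_nat.comp (P.meas_tn n)) measurable_const),
    P.real_diff_le h3.le ?_, ?_⟩
  · filter_upwards [P.ae_Good] with x hx h5
    exact ⟨hx, not_lt.1 h5⟩
  rintro y ⟨⟨hy, ht⟩, -⟩ y' ⟨⟨hy', -⟩, -⟩ hQ hn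
  have hy : P.Good y := hy
  have hy' : P.Good y' := hy'
  refine ⟨(P.T^[k] y, P.T^[k] y'), ⟨(hy k).1, (hy' k).1⟩, fun j hj => ⟨rfl, rfl, fun i hi => ?_⟩⟩
  have hiI : i ≤ I := by
    have : (j : ℝ) ≤ I := ((le_div_iff₀ hδ).2 hj).trans hI
    exact hi.trans (by exact_mod_cast this)
  refine ⟨?_, ?_⟩
  · have h5 : i ≤ P.tn k y := (by omega : i ≤ k).trans (hy.le_tn k)
    have h6 := P.g3 y hy.mem y' (P.tn k y) (P.iterate_T k y ▸ (hy k).1)
      (P.cl_of_names hy hy' (by omega) hn) (P.tn k y - i) (Nat.sub_le _ _)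
    simp only [iterate_T, ← P.tn_eq hn, P.b_a_of_le h5]
    refine h6.trans ?_
    rw [Nat.cast_sub h5, sub_sub_cancel]
    have h7 := (P.cov _ (P.scale_Q n)).choose_spec.2.2 y hy.mem y' hy'.mem hQ
    have h8 : (P.tn k y : ℝ) ≤ 2 * P.th * n :=
      le_trans (by exact_mod_cast P.tn_mono y hkn.le) ht
    have h9 : Real.exp (-P.kap' * i) ≤ Real.exp (-P.kap * i) :=
      Real.exp_le_exp.2 (mul_le_mul_of_nonneg_right (neg_le_neg P.kap_lt.le) (Nat.cast_nonneg _))
    have h10 : P.A * Real.exp (P.eps * P.tn k y) * dist y y' ≤ Real.exp (-P.kap * i) := by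
      refine (mul_le_mul_of_nonneg_left h7 (by positivity)).trans ?_
      rw [← Real.exp_log hA, ← Real.exp_add, ← Real.exp_add]
      refine Real.exp_le_exp.2 ?_
      have h11 : (i : ℝ) ≤ I := by exact_mod_cast hiI
      nlinarith [mul_le_mul_of_nonneg_left h8 P.eps_pos.le,
        mul_le_mul_of_nonneg_left h11 P.kap_pos.le]
    nlinarith [mul_le_mul_of_nonneg_left h9 (sub_nonneg.2 P.one_le_A)]
  · simp only [F]
    rw [hy.inv_iter (by omega), hy'.inv_iter (by omega)]
    exact hn _ (by omega)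

theorem near_S : Near P.ν P.T P.d (pr2 P.F P.π) (fun δ z z' => ∃ v ∈ (univ : Set Unit),
    ∀ k : ℕ, k * δ ≤ 1 → ((z, z'), v) ∈ {p : ((_ × B) × (_ × B)) × Unit |
      p.1.1.1 = p.1.2.1 ∧ k * dist p.1.1.2 p.1.2.2 ≤ 1})
    (fun n => pr2 P.F (P.sig (P.N1 n))) fun _ => univ := by
  intro δ hδ η hη
  obtain ⟨j, hj⟩ := P.c1 δ hδ
  have hth : 0 < P.th := one_pos.trans_le P.one_le_th
  have he := mul_pos (half_pos P.eps_pos) hth
  have h1 := (P.tendsto_tn (c := (1 + P.eps / 2) * P.th) (by linarith)).eventually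
    (gt_mem_nhds hη)
  have h2 : ∀ᶠ n : ℕ in atTop, (j : ℝ) ≤ n * (P.eps / 2 * P.th) :=
    (tendsto_natCast_atTop_atTop.atTop_mul_const he).eventually_ge_atTop _
  obtain ⟨t, ht, htm, ht0⟩ := exists_measurable_superset_of_null (mem_ae_iff.1 P.aeW)
  have hW : ∀ x, x ∉ t → x ∈ P.W := fun x hx => by
    by_contra h
    exact hx (ht h)
  refine ⟨0, ?_⟩
  filter_upwards [h1, h2] with n h3 h4 k _ hkn
  refine ⟨({y | P.Good y} ∩ tᶜ) ∩ {y | (P.tn n y : ℝ) ≤ (1 + P.eps / 2) * P.th * n},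
    (P.meas_Good.inter htm.compl).inter
    (measurableSet_le (measurable_from_nat.comp (P.meas_tn n)) measurable_const),
    P.real_diff_le h3.le ?_, ?_⟩
  · filter_upwards [P.ae_Good, measure_eq_zero_iff_ae_notMem.1 ht0] with x hx h6 h5
    exact ⟨⟨hx, h6⟩, not_lt.1 h5⟩
  rintro y ⟨⟨⟨hy, hw⟩, h5⟩, -⟩ y' ⟨⟨⟨hy', hw'⟩, -⟩, -⟩ hg hn
  have hy : P.Good y := hy
  have hy' : P.Good y' := hy'
  obtain ⟨h6, h7⟩ := Prod.ext_iff.1 hg
  refine ⟨(), trivial, fun i hi => ⟨P.F_iter hy hy' h6 hn, ?_⟩⟩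
  refine le_trans (mul_le_mul_of_nonneg_left ?_ (Nat.cast_nonneg _)) hi
  simp only [iterate_T, ← P.tn_eq hn]
  refine hj (P.N1 n) _ ?_ y (hW y hw) y' (hW y' hw') (congrArg Prod.fst h6) h7
    (P.iterate_T k y ▸ (hy k).1)
  have h8 : (P.tn k y : ℝ) ≤ (1 + P.eps / 2) * P.th * n :=
    le_trans (by exact_mod_cast P.tn_mono y hkn.le) h5
  have h9 : (1 + P.eps) * P.th * n ≤ P.N1 n := Nat.le_ceil _
  have h10 : (P.tn k y : ℝ) + j ≤ P.N1 n := by nlinarith
  exact_mod_cast h10

/-- Sets that meet few transversal cells are null for the conditional measures on the plaques. -/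
theorem plaque [PolishSpace X] [Nonempty X] [PolishSpace B] [BorelSpace B] {c : ℝ}
    (hc : (1 + P.eps) * c < P.hU - 3 * P.eps * P.dm) :
    ∀ᵐ x ∂P.ν, ∀ A : Set X, MeasurableSet A →
      (∃ C : ℝ, ∀ N : ℕ, ∃ s : Finset ℕ, (s.card : ℝ) ≤ C * Real.exp (N * c) ∧
        ∀ y ∈ A, P.lab y = P.lab x → P.sig N y ∈ s) → cp P.ν P.lab x A = 0 := by
  have hth : 0 < P.th := one_pos.trans_le P.one_le_th
  have h1 := gap P.erg_T P.meas_d P.finEnt_d P.meas_F P.meas_π P.incr_S P.lusin_F (Q := P.Q)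
    (fun n => (P.cov _ (P.scale_Q n)).choose_spec.1) (c1 := 3 * P.eps * P.th * P.dm) (C := P.C)
    (fun n x => ((P.cov _ (P.scale_Q n)).choose_spec.2.1 x).trans_eq (by congr 1; ring))
    P.near_F P.bowen
  have h2 : (1 + P.eps) * P.th * c < Hc P.ν P.d P.F - Hc P.ν P.d (pr2 P.F P.π) := by
    nlinarith [mul_lt_mul_of_pos_left hc hth]
  obtain ⟨c', h3, h4⟩ := exists_between h2
  have h5 := digit_lower P.erg_T P.meas_d P.finEnt_d P.meas_F (P.meas_F.prodMk P.meas_π)
    P.incr_F P.incr_S (Det.fst _ _) lusin_S (sig := fun n => P.sig (P.N1 n))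
    (fun n => P.meas_sig _) (fun n => ⟨P.W, P.aeW, fun y hy y' hy' h =>
      P.c0 y hy y' hy' (congrArg (fun z => z.1.1) h) (congrArg Prod.snd h) _⟩)
    P.near_S (sub_pos.2 h4)
  rw [sub_sub_cancel] at h5
  filter_upwards [thin P.meas_F P.meas_lab (Det.of_forall fun x y h => congrArg Prod.fst h)
    (fun n => P.meas_sig (P.N1 n)) h3 h5] with x hx A hA ⟨C, hC⟩
  refine hx A hA ⟨|C| * Real.exp |c|, fun n => ?_⟩
  obtain ⟨s, h6, h7⟩ := hC (P.N1 n)
  refine ⟨s, h6.trans ?_, h7⟩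
  rw [mul_assoc, ← Real.exp_add]
  refine mul_le_mul (le_abs_self C) (Real.exp_le_exp.2 ?_) (Real.exp_pos _).le (abs_nonneg C)
  have h8 : (1 + P.eps) * P.th * n ≤ P.N1 n := Nat.le_ceil _
  have h9 : (P.N1 n : ℝ) < (1 + P.eps) * P.th * n + 1 :=
    Nat.ceil_lt_add_one (by have := P.eps_pos; positivity)
  rcases le_total 0 c with h0 | h0
  · rw [abs_of_nonneg h0]
    nlinarith [mul_le_mul_of_nonneg_right h9.le h0]
  · rw [abs_of_nonpos h0]
    nlinarith [mul_le_mul_of_nonpos_right h8 h0]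

end Plq

end Pool.Agent.P.MP_d483fb_an.Z.HP

end

end

section

/-!
The rectangle partition: definitions and the pointwise properties of the label.
-/

namespace Pool.Agent.P.MP_d483fb_an.Z

open MeasureTheory Set
open scoped ENNReal

/-- The data from which the rectangle partition is built. -/
structure BD (X : Type*) [MeasurableSpace X] where
  a : X ≃ᵐ X
  R : X → X → Prop
  N : X → X → ℝ
  F1 : X → X → ℝ
  F2 : X → X → ℝ
  Z0 : Set X
  ρ : ℝ
  η : ℝ
  σ : ℝ
  r : ℝ
  zp : X → X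

namespace BD

variable {X M : Type*} [MeasurableSpace X] (D : BD X)

/-- The union of the rectangles around the reference points. -/
def K : Set X :=
  {w | D.zp w ∈ D.Z0 ∧ D.R (D.zp w) w ∧ D.F1 (D.zp w) w < D.r ∧ D.F2 (D.zp w) w < D.r}

/-- The radius used at time `-k`. -/
noncomputable def rad (k : ℕ) : ℝ := D.ρ / 2 - D.ρ / 4 * D.σ ^ k

/-- The reference point near the `k`-th preimage of `z`. -/
def near (k : ℕ) (z : X) : X := D.zp (D.a.symm^[k] z)

/-- The `k`-th preimage of `z` is near a reference point. -/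
def act (k : ℕ) (z : X) : Prop :=
  D.near k z ∈ D.Z0 ∧ D.R (D.near k z) (D.a.symm^[k] z) ∧
    D.N (D.near k z) (D.a.symm^[k] z) < D.rad k

open Classical in
/-- The two bits of `y` at time `-k`. -/
noncomputable def bit (k : ℕ) (z y : X) : Bool × Bool :=
  if D.act k z then (decide (D.F1 (D.near k z) (D.a.symm^[k] y) < D.r),
    decide (D.F2 (D.near k z) (D.a.symm^[k] y) < D.r)) else (false, false)

/-- The label. -/
noncomputable def zeta (y : X) : BoxLab X := (D.zp y, fun k => D.bit k (D.zp y) y)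

/-- The points `x` and `y` are on the same sides of the two boundaries at time `-k`. -/
def Same (k : ℕ) (z x y : X) : Prop :=
  (D.F1 (D.near k z) (D.a.symm^[k] x) < D.r ↔ D.F1 (D.near k z) (D.a.symm^[k] y) < D.r) ∧
  (D.F2 (D.near k z) (D.a.symm^[k] x) < D.r ↔ D.F2 (D.near k z) (D.a.symm^[k] y) < D.r)

/-- The rectangle of `z` may be cut at time `-k`. -/
def cut (k : ℕ) (z : X) : Prop :=
  D.act k z ∧ (|D.F1 (D.near k z) (D.a.symm^[k] z) - D.r| ≤ D.η * D.σ ^ k ∨
    |D.F2 (D.near k z) (D.a.symm^[k] z) - D.r| ≤ D.η * D.σ ^ k)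

/-- The point `w` is within `t` of one of the two boundaries. -/
def Bad (t : ℝ) : Set X := {w | |D.F1 (D.zp w) w - D.r| ≤ t ∨ |D.F2 (D.zp w) w - D.r| ≤ t}

theorem bit_eq_iff {k : ℕ} {z x y : X} :
    D.bit k z x = D.bit k z y ↔ (D.act k z → D.Same k z x y) := by
  unfold bit Same
  by_cases h : D.act k z
  · simp only [h, if_true, Prod.mk.injEq, decide_eq_decide, true_imp_iff]
  · simp only [h, if_false, false_imp_iff]

theorem zeta_eq_iff {x y : X} : D.zeta x = D.zeta y ↔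
    D.zp x = D.zp y ∧ ∀ k, D.act k (D.zp x) → D.Same k (D.zp x) x y := by
  unfold zeta
  rw [Prod.mk.injEq]
  refine and_congr_right fun h => ?_
  rw [← h, funext_iff]
  exact forall_congr' fun k => D.bit_eq_iff

theorem symm_iter (i j : ℕ) (y : X) : D.a.symm^[j] (D.a^[j + i] y) = D.a^[i] y := by
  rw [Function.iterate_add_apply]
  exact (Function.LeftInverse.iterate D.a.symm_apply_apply j) _

theorem symm_iter' (j : ℕ) (y : X) : D.a.symm^[j] (D.a^[j] y) = y := D.symm_iter 0 j y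

theorem same_side {u v e r : ℝ} (h1 : |u - v| ≤ e) (h2 : e < |v - r|) : u < r ↔ v < r := by
  have h3 := abs_le.1 h1
  rcases lt_abs.1 h2 with h | h <;> constructor <;> intro <;> linarith

/-- The hypotheses on the data. -/
structure Good (μ : Measure X) (X0 : Set X) (s al : X → X → M) (E1 E2 : X → X → Prop) (c r0 : ℝ) :
    Prop extends BoxPre μ D.a X0 D.R D.N D.F1 D.F2 s al E1 E2 D.Z0 D.ρ c r0 D.η D.σ where
  measZp : Measurable D.zp
  hz : ∀ w, ∀ z ∈ D.Z0, D.R z w → D.N z w < D.ρ → D.zp w = z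
  hr1 : r0 < D.r
  hr2 : D.r < 2 * r0

namespace Good

variable {D} {μ : Measure X} {X0 : Set X} {s al : X → X → M} {E1 E2 : X → X → Prop} {c r0 : ℝ}
  (h : D.Good μ X0 s al E1 E2 c r0)
include h

theorem relB' {x y : X} (hR : D.R x y) (k : ℕ) : D.R (D.a.symm^[k] x) (D.a.symm^[k] y) := by
  induction k with
  | zero => exact hR
  | succ k ih => simpa only [Function.iterate_succ_apply'] using h.relB _ _ ih

theorem e1A' {x y : X} (hR : E1 x y) (k : ℕ) : E1 (D.a^[k] x) (D.a^[k] y) := by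
  induction k with
  | zero => exact hR
  | succ k ih => simpa only [Function.iterate_succ_apply'] using h.e1A _ _ ih

theorem e2A' {x y : X} (hR : E2 x y) (k : ℕ) : E2 (D.a^[k] x) (D.a^[k] y) := by
  induction k with
  | zero => exact hR
  | succ k ih => simpa only [Function.iterate_succ_apply'] using h.e2A _ _ ih

theorem e1B' {x y : X} (hR : E1 x y) (k : ℕ) : E1 (D.a.symm^[k] x) (D.a.symm^[k] y) := by
  induction k with
  | zero => exact hR
  | succ k ih => simpa only [Function.iterate_succ_apply'] using h.e1B _ _ ih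

theorem e2B' {x y : X} (hR : E2 x y) (k : ℕ) : E2 (D.a.symm^[k] x) (D.a.symm^[k] y) := by
  induction k with
  | zero => exact hR
  | succ k ih => simpa only [Function.iterate_succ_apply'] using h.e2B _ _ ih

theorem ρ_pos : 0 < D.ρ := by linarith [h.hc0, h.hc]

theorem pow_le (k : ℕ) : D.σ ^ k ≤ 1 := pow_le_one₀ h.hσ0.le h.hσ1.le

theorem le_rad (k : ℕ) : D.ρ / 4 ≤ D.rad k := by
  have := h.pow_le k
  have := h.ρ_pos
  unfold rad
  nlinarith

theorem rad_le (k : ℕ) : D.rad k ≤ D.ρ / 2 := by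
  have := pow_pos h.hσ0 k
  have := h.ρ_pos
  unfold rad
  nlinarith

theorem rad_step (k j : ℕ) : D.rad k + D.η * D.σ ^ k ≤ D.rad (k + (j + 1)) := by
  have h1 := pow_pos h.hσ0 k
  have h2 := h.ρ_pos
  have h3 : D.σ ^ (k + (j + 1)) ≤ D.σ ^ k * D.σ := by
    rw [← pow_succ]
    exact pow_le_pow_of_le_one h.hσ0.le h.hσ1.le (by omega)
  have h4 := mul_le_mul_of_nonneg_right h.hη h1.le
  unfold rad
  nlinarith

theorem eta_le (k : ℕ) : D.η * D.σ ^ k ≤ D.ρ / 4 := by
  have h1 := mul_le_mul_of_nonneg_left (h.pow_le k) h.hη0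
  have h2 := h.hη
  have h3 := mul_pos h.ρ_pos h.hσ0
  linarith

theorem N_lt {w : X} (hw : w ∈ D.K) : D.N (D.zp w) w < c :=
  h.ball _ _ hw.2.1 (hw.2.2.1.trans h.hr2) (hw.2.2.2.trans h.hr2)

theorem memK {z w : X} (hz : z ∈ D.Z0) (hR : D.R z w) (h1 : D.F1 z w < D.r) (h2 : D.F2 z w < D.r) :
    w ∈ D.K ∧ D.zp w = z := by
  have e : D.zp w = z := h.hz w z hz hR (by
    linarith [h.ball _ _ hR (h1.trans h.hr2) (h2.trans h.hr2), h.hc, h.ρ_pos])
  refine ⟨?_, e⟩
  rw [← e] at hz hR h1 h2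
  exact ⟨hz, hR, h1, h2⟩

theorem act_of {k : ℕ} {z z' : X} (hz : z' ∈ D.Z0) (hR : D.R z' (D.a.symm^[k] z))
    (hN : D.N z' (D.a.symm^[k] z) < D.rad k) : D.act k z ∧ D.near k z = z' := by
  have e : D.near k z = z' := h.hz _ z' hz hR (by linarith [h.rad_le k, h.ρ_pos])
  refine ⟨?_, e⟩
  rw [← e] at hz hR hN
  exact ⟨hz, hR, hN⟩

theorem act_zero {w : X} (hw : w ∈ D.K) : D.act 0 (D.zp w) ∧ D.near 0 (D.zp w) = D.zp w := by
  have h0 := (h.mem0 _ _ hw.2.1).1
  refine h.act_of hw.1 (h.refl _ h0) ?_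
  rw [Function.iterate_zero_apply, h.self _ h0]
  linarith [h.le_rad 0, h.ρ_pos]

theorem vis {x₁ x₂ z : X} {j : ℕ} (h₁ : x₁ ∈ D.K) (h₂ : x₂ ∈ D.K) (e : D.zp x₁ = D.zp x₂)
    (hz : z ∈ D.Z0) (hR : D.R z (D.a.symm^[j] x₁)) (f₁ : D.F1 z (D.a.symm^[j] x₁) < D.r)
    (f₂ : D.F2 z (D.a.symm^[j] x₂) < D.r) :
    D.act j (D.zp x₁) ∧ D.near j (D.zp x₁) = z ∧ D.N z (D.a.symm^[j] (D.zp x₁)) < c := by
  have hR' := h.trans _ _ _ hR (h.symm _ _ (h.relB' h₁.2.1 j))
  have hN : D.N z (D.a.symm^[j] (D.zp x₁)) < c :=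
    h.far z hz _ h₁.1 j x₁ x₂ hR' h₁.2.1 (e ▸ h₂.2.1) (h₁.2.2.1.trans h.hr2) (h₁.2.2.2.trans h.hr2)
      (e ▸ h₂.2.2.1.trans h.hr2) (e ▸ h₂.2.2.2.trans h.hr2) (f₁.trans h.hr2) (f₂.trans h.hr2)
  have h3 := h.act_of hz hR' (by linarith [h.le_rad j, h.hc])
  exact ⟨h3.1, h3.2, hN⟩

theorem nest {x : X} {j k : ℕ} (hx : x ∈ D.K) (hj : D.a.symm^[j] x ∈ D.K)
    (hk : D.act k (D.zp (D.a.symm^[j] x))) :
    D.act (k + j) (D.zp x) ∧ D.near (k + j) (D.zp x) = D.near k (D.zp (D.a.symm^[j] x)) := by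
  cases j with
  | zero => exact ⟨hk, rfl⟩
  | succ j =>
    have h1 := (h.vis hx hx rfl hj.1 hj.2.1 hj.2.2.1 hj.2.2.2).2.2
    have hR := h.trans _ _ _ hj.2.1 (h.symm _ _ (h.relB' hx.2.1 (j + 1)))
    have h2 := (h.pert _ hk.1 _ hj.1 k _ hk.2.1
      (by linarith [hk.2.2, h.rad_le k, h.ρ_pos]) hR h1).1
    refine h.act_of hk.1 ?_ ?_
    · rw [Function.iterate_add_apply _ k]
      exact h.trans _ _ _ hk.2.1 (h.relB' hR k)
    · rw [Function.iterate_add_apply _ k]
      linarith [(abs_le.1 h2).2, hk.2.2, h.rad_step k j]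

theorem back {x y : X} (hx : x ∈ D.K) (hy : y ∈ D.K) (e : D.zeta x = D.zeta y) (j : ℕ)
    (hj : D.a.symm^[j] x ∈ D.K) :
    D.a.symm^[j] y ∈ D.K ∧ D.zeta (D.a.symm^[j] x) = D.zeta (D.a.symm^[j] y) := by
  obtain ⟨e1, e2⟩ := D.zeta_eq_iff.1 e
  obtain ⟨a1, a2, -⟩ := h.vis hx hx rfl hj.1 hj.2.1 hj.2.2.1 hj.2.2.2
  have a3 := e2 j a1
  rw [Same, a2] at a3
  have hxy : D.R x y := h.trans _ _ _ (h.symm _ _ hx.2.1) (e1 ▸ hy.2.1)
  obtain ⟨b1, b2⟩ := h.memK hj.1 (h.trans _ _ _ hj.2.1 (h.relB' hxy j)) (a3.1.1 hj.2.2.1)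
    (a3.2.1 hj.2.2.2)
  refine ⟨b1, D.zeta_eq_iff.2 ⟨b2.symm, fun k hk => ?_⟩⟩
  obtain ⟨c1, c2⟩ := h.nest hx hj hk
  have c3 := e2 _ c1
  rw [Same, c2, Function.iterate_add_apply, Function.iterate_add_apply] at c3
  exact c3

theorem tau_eq {x y : X} (hx : x ∈ D.K) (hy : y ∈ D.K) (tx : 0 < retTime D.a D.K x)
    (ty : 0 < retTime D.a D.K y) (e : D.zeta (firstRet D.a D.K x) = D.zeta (firstRet D.a D.K y)) :
    retTime D.a D.K x = retTime D.a D.K y ∧ D.zeta x = D.zeta y := by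
  have key : ∀ {x y : X}, x ∈ D.K → 0 < retTime D.a D.K x → 0 < retTime D.a D.K y →
      D.zeta (firstRet D.a D.K x) = D.zeta (firstRet D.a D.K y) →
      retTime D.a D.K y ≤ retTime D.a D.K x := fun {x y} hx tx ty e => by
    by_contra hlt
    obtain ⟨i, hi⟩ := Nat.exists_eq_add_of_lt (not_le.1 hlt)
    have h1 := (h.back (firstRet_mem tx) (firstRet_mem ty) e (retTime D.a D.K x)
      (by rw [firstRet, D.symm_iter']; exact hx)).1
    rw [firstRet, hi, add_assoc, D.symm_iter] at h1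
    exact notMem_of_lt_retTime (Nat.succ_pos i) (by omega) h1
  have e1 := le_antisymm (key hy ty tx e.symm) (key hx tx ty e)
  refine ⟨e1, ?_⟩
  have h1 := (h.back (firstRet_mem tx) (firstRet_mem ty) e (retTime D.a D.K x)
    (by rw [firstRet, D.symm_iter']; exact hx)).2
  rwa [firstRet, firstRet, ← e1, D.symm_iter', D.symm_iter'] at h1

theorem rect_time {x₁ x₂ u₁ u₂ : X} {j : ℕ} (h₁ : x₁ ∈ D.K) (h₂ : x₂ ∈ D.K)
    (e : D.zeta x₁ = D.zeta x₂) (k₁ : u₁ ∈ D.K) (k₂ : u₂ ∈ D.K) (e' : D.zp u₁ = D.zp u₂)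
    (hR : D.R u₁ (D.a.symm^[j] x₁))
    (f₁ : D.F1 (D.zp u₁) u₁ = D.F1 (D.zp u₁) (D.a.symm^[j] x₁))
    (f₂ : D.F2 (D.zp u₂) u₂ = D.F2 (D.zp u₂) (D.a.symm^[j] x₂)) :
    D.a.symm^[j] x₁ ∈ D.K ∧ D.near j (D.zp x₁) = D.zp u₁ := by
  obtain ⟨e1, e2⟩ := D.zeta_eq_iff.1 e
  have hR' := h.trans _ _ _ k₁.2.1 hR
  have g₂ : D.F2 (D.zp u₁) (D.a.symm^[j] x₂) < D.r := by
    rw [e', ← f₂]
    exact k₂.2.2.2
  obtain ⟨a1, a2, -⟩ := h.vis h₁ h₂ e1 k₁.1 hR' (f₁ ▸ k₁.2.2.1) g₂
  have a3 := e2 j a1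
  rw [Same, a2] at a3
  exact ⟨(h.memK k₁.1 hR' (f₁ ▸ k₁.2.2.1) (a3.2.2 g₂)).1, a2⟩

theorem rect_same {x₁ x₂ u₁ u₂ : X} (h₁ : x₁ ∈ D.K) (h₂ : x₂ ∈ D.K) (e : D.zeta x₁ = D.zeta x₂)
    (k₁ : u₁ ∈ D.K) (k₂ : u₂ ∈ D.K) (e' : D.zeta u₁ = D.zeta u₂) (g₁ : E1 u₁ x₁) (g₂ : E2 u₂ x₂) :
    D.zeta u₁ = D.zeta x₁ := by
  obtain ⟨e1, e2⟩ := D.zeta_eq_iff.1 e
  obtain ⟨e3, e4⟩ := D.zeta_eq_iff.1 e'
  have a1 := (h.rect_time (j := 0) h₁ h₂ e k₁ k₂ e3 (h.e1F _ _ g₁).1
    ((h.e1F _ _ g₁).2 _ k₁.2.1) ((h.e2F _ _ g₂).2 _ k₂.2.1)).2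
  rw [(h.act_zero h₁).2] at a1
  refine D.zeta_eq_iff.2 ⟨a1.symm, fun k hk => ?_⟩
  have b1 := (h.e1F _ _ (h.e1B' g₁ k)).2 _ (h.trans _ _ _ hk.2.1 (h.relB' k₁.2.1 k))
  have b2 := (h.e2F _ _ (h.e2B' g₂ k)).2 _ (h.trans _ _ _ hk.2.1 (h.relB' (e3 ▸ k₂.2.1) k))
  have b3 := (e4 k hk).2
  have b4 := (e2 k (a1 ▸ hk)).2
  rw [a1] at b4
  exact ⟨by rw [b1], b3.trans (by rw [b2, b4])⟩

theorem rect_one {y₁ y₂ u₁ u₂ : X} (h₁ : y₁ ∈ D.K) (h₂ : y₂ ∈ D.K) (k₁ : u₁ ∈ D.K) (k₂ : u₂ ∈ D.K)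
    (t₁ : 0 < retTime D.a D.K y₁) (t₂ : 0 < retTime D.a D.K y₂) (s₁ : 0 < retTime D.a D.K u₁)
    (s₂ : 0 < retTime D.a D.K u₂)
    (e : D.zeta (firstRet D.a D.K y₁) = D.zeta (firstRet D.a D.K y₂))
    (e' : D.zeta (firstRet D.a D.K u₁) = D.zeta (firstRet D.a D.K u₂))
    (g₁ : E1 y₁ u₁) (g₂ : E2 y₂ u₂) :
    D.zeta (firstRet D.a D.K y₁) = D.zeta (firstRet D.a D.K u₁) ∧
      E1 (firstRet D.a D.K y₁) (firstRet D.a D.K u₁) ∧
      E2 (firstRet D.a D.K y₂) (firstRet D.a D.K u₂) := by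
  have a1 := (h.tau_eq h₁ h₂ t₁ t₂ e).1
  have a2 := (h.tau_eq k₁ k₂ s₁ s₂ e').1
  have p₁ := firstRet_mem t₁
  have p₂ := firstRet_mem t₂
  have q₁ := firstRet_mem s₁
  have q₂ := firstRet_mem s₂
  have a3 : retTime D.a D.K y₁ = retTime D.a D.K u₁ := by
    rcases lt_trichotomy (retTime D.a D.K y₁) (retTime D.a D.K u₁) with hlt | heq | hlt
    · obtain ⟨i, hi⟩ := Nat.exists_eq_add_of_lt hlt
      have c1 : D.a.symm^[i + 1] (firstRet D.a D.K u₁) = D.a^[retTime D.a D.K y₁] u₁ := by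
        rw [firstRet, hi, add_assoc, add_comm _ (i + 1), D.symm_iter]
      have c2 : D.a.symm^[i + 1] (firstRet D.a D.K u₂) = D.a^[retTime D.a D.K y₂] u₂ := by
        rw [firstRet, ← a2, hi, a1, add_assoc, add_comm _ (i + 1), D.symm_iter]
      have d1 := h.e1F _ _ (h.e1A' g₁ (retTime D.a D.K y₁))
      have d2 := h.e2F _ _ (h.e2A' g₂ (retTime D.a D.K y₂))
      have := (h.rect_time (j := i + 1) q₁ q₂ e' p₁ p₂ (D.zeta_eq_iff.1 e).1 (c1 ▸ d1.1)
        (c1 ▸ d1.2 _ p₁.2.1) (c2 ▸ d2.2 _ p₂.2.1)).1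
      rw [c1] at this
      exact absurd this (notMem_of_lt_retTime t₁ hlt)
    · exact heq
    · obtain ⟨i, hi⟩ := Nat.exists_eq_add_of_lt hlt
      have c1 : D.a.symm^[i + 1] (firstRet D.a D.K y₁) = D.a^[retTime D.a D.K u₁] y₁ := by
        rw [firstRet, hi, add_assoc, add_comm _ (i + 1), D.symm_iter]
      have c2 : D.a.symm^[i + 1] (firstRet D.a D.K y₂) = D.a^[retTime D.a D.K u₂] y₂ := by
        rw [firstRet, ← a1, hi, a2, add_assoc, add_comm _ (i + 1), D.symm_iter]
      have d1 := h.e1F _ _ (h.e1A' g₁ (retTime D.a D.K u₁))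
      have d2 := h.e2F _ _ (h.e2A' g₂ (retTime D.a D.K u₂))
      have := (h.rect_time (j := i + 1) p₁ p₂ e q₁ q₂ (D.zeta_eq_iff.1 e').1
        (c1 ▸ h.symm _ _ d1.1)
        (c1 ▸ (d1.2 _ (h.trans _ _ _ q₁.2.1 (h.symm _ _ d1.1))).symm)
        (c2 ▸ (d2.2 _ (h.trans _ _ _ q₂.2.1 (h.symm _ _ d2.1))).symm)).1
      rw [c1] at this
      exact absurd this (notMem_of_lt_retTime s₁ hlt)
  have f₁ : E1 (firstRet D.a D.K y₁) (firstRet D.a D.K u₁) := by
    rw [firstRet, firstRet, ← a3]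
    exact h.e1A' g₁ _
  have f₂ : E2 (firstRet D.a D.K y₂) (firstRet D.a D.K u₂) := by
    rw [firstRet, firstRet, ← a2, ← a3, a1]
    exact h.e2A' g₂ _
  exact ⟨h.rect_same q₁ q₂ e' p₁ p₂ e f₁ f₂, f₁, f₂⟩

theorem near_pt {y : X} {k : ℕ} (hy : y ∈ D.K) (hk : D.act k (D.zp y)) :
    D.zp (D.a.symm^[k] y) = D.near k (D.zp y) ∧ D.N (D.near k (D.zp y)) (D.a.symm^[k] y) < D.ρ ∧
    |D.F1 (D.near k (D.zp y)) (D.a.symm^[k] y) -
      D.F1 (D.near k (D.zp y)) (D.a.symm^[k] (D.zp y))| ≤ D.η * D.σ ^ k ∧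
    |D.F2 (D.near k (D.zp y)) (D.a.symm^[k] y) -
      D.F2 (D.near k (D.zp y)) (D.a.symm^[k] (D.zp y))| ≤ D.η * D.σ ^ k := by
  obtain ⟨a1, a2, a3⟩ := h.pert _ hk.1 _ hy.1 k y hk.2.1
    (by linarith [hk.2.2, h.rad_le k, h.ρ_pos]) hy.2.1 (h.N_lt hy)
  have a4 : D.N (D.near k (D.zp y)) (D.a.symm^[k] y) < D.ρ := by
    linarith [(abs_le.1 a1).2, hk.2.2, h.rad_le k, h.eta_le k, h.ρ_pos]
  exact ⟨h.hz _ _ hk.1 (h.trans _ _ _ hk.2.1 (h.relB' hy.2.1 k)) a4, a4, a2, a3⟩

theorem same_of_not_cut {u v : X} {k : ℕ} (hu : u ∈ D.K) (hv : v ∈ D.K) (e : D.zp u = D.zp v)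
    (hc : ¬D.cut k (D.zp u)) (hk : D.act k (D.zp u)) : D.Same k (D.zp u) u v := by
  obtain ⟨-, -, a1, a2⟩ := h.near_pt hu hk
  obtain ⟨-, -, b1, b2⟩ := h.near_pt hv (e ▸ hk)
  rw [← e] at b1 b2
  have c1 := not_le.1 fun h1 => hc ⟨hk, Or.inl h1⟩
  have c2 := not_le.1 fun h1 => hc ⟨hk, Or.inr h1⟩
  exact ⟨(same_side a1 c1).trans (same_side b1 c1).symm,
    (same_side a2 c2).trans (same_side b2 c2).symm⟩

theorem cut_bad {y : X} {k : ℕ} (hy : y ∈ D.K) (hc : D.cut k (D.zp y)) :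
    D.a.symm^[k] y ∈ D.Bad ((2 * D.η + 1) * D.σ ^ k) := by
  obtain ⟨a0, -, a1, a2⟩ := h.near_pt hy hc.1
  have a3 := pow_pos h.hσ0 k
  unfold Bad
  rw [mem_ofPred_eq, a0]
  rcases hc.2 with h1 | h1
  · left
    rw [abs_le] at a1 h1 ⊢
    constructor <;> linarith [a1.1, a1.2, h1.1, h1.2]
  · right
    rw [abs_le] at a2 h1 ⊢
    constructor <;> linarith [a2.1, a2.2, h1.1, h1.2]

theorem inner_of {x y : X} {e : ℕ → ℝ} (hx : x ∈ D.K) (hR : D.R x y)
    (hP : ∀ k, D.a.symm^[k] x ∉ D.Bad (e k))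
    (hd : ∀ z' ∈ D.Z0, ∀ k : ℕ, D.R z' (D.a.symm^[k] (D.zp x)) →
      D.N z' (D.a.symm^[k] (D.zp x)) < D.ρ → D.N z' (D.a.symm^[k] x) < D.ρ →
      |D.F1 z' (D.a.symm^[k] y) - D.F1 z' (D.a.symm^[k] x)| ≤ e k ∧
      |D.F2 z' (D.a.symm^[k] y) - D.F2 z' (D.a.symm^[k] x)| ≤ e k) :
    y ∈ D.K ∧ D.zeta y = D.zeta x := by
  have key : ∀ k, D.act k (D.zp x) → D.Same k (D.zp x) x y := fun k hk => by
    obtain ⟨a0, a1, -⟩ := h.near_pt hx hk
    obtain ⟨b1, b2⟩ := hd _ hk.1 k hk.2.1 (by linarith [hk.2.2, h.rad_le k, h.ρ_pos]) a1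
    have c0 := hP k
    unfold Bad at c0
    rw [mem_ofPred_eq, a0, not_or, not_le, not_le] at c0
    exact ⟨(same_side b1 c0.1).symm, (same_side b2 c0.2).symm⟩
  have a1 := key 0 (h.act_zero hx).1
  rw [Same, (h.act_zero hx).2] at a1
  obtain ⟨b1, b2⟩ := h.memK hx.1 (h.trans _ _ _ hx.2.1 hR) (a1.1.1 hx.2.2.1) (a1.2.1 hx.2.2.2)
  exact ⟨b1, (D.zeta_eq_iff.2 ⟨b2.symm, key⟩).symm⟩

end Good

end BD

end Pool.Agent.P.MP_d483fb_an.Z


end
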