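import Pool.Agent.P.MP_d483fb_an.M.A06

section

/-!
Polygons in a flat of rank at least two that avoid a bounded set in every factor.
-/

open scoped InnerProductSpace RealInnerProductSpace
open Set

set_option linter.unusedSectionVars false
set_option linter.unusedVariables false

noncomputable section

namespace Pool.Agent.P.MP_d483fb_an.Z

variable {E : Type*} [NormedAddCommGroup E] [InnerProductSpace ℝ E]

/-- The maximum of the absolute values of finitely many linear forms. -/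
def pc (c : Finset E) : Seminorm ℝ E :=
  c.sup fun β => (normSeminorm ℝ ℝ).comp (innerₛₗ ℝ β)

theorem le_pc {c : Finset E} {β : E} (h : β ∈ c) (s : E) : |⟪β, s⟫| ≤ pc c s :=
  Seminorm.le_finset_sup_apply (p := fun β => (normSeminorm ℝ ℝ).comp (innerₛₗ ℝ β)) h

theorem exists_pc {c : Finset E} (h : c.Nonempty) (s : E) : ∃ β ∈ c, pc c s = |⟪β, s⟫| :=
  Seminorm.exists_apply_eq_finset_sup (fun β => (normSeminorm ℝ ℝ).comp (innerₛₗ ℝ β)) h s

theorem pc_le {c : Finset E} (h : c.Nonempty) {s : E} {t : ℝ} (ht : ∀ β ∈ c, |⟪β, s⟫| ≤ t) :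
    pc c s ≤ t := by
  obtain ⟨β, hβ, h1⟩ := exists_pc h s
  exact h1 ▸ ht β hβ

theorem exists_pc_pos {c : Finset E} (h : c.Nonempty) (hneg : ∀ β ∈ c, -β ∈ c) (s : E) :
    ∃ β ∈ c, pc c s = ⟪β, s⟫ := by
  obtain ⟨β, hβ, h1⟩ := exists_pc h s
  rcases abs_cases ⟪β, s⟫ with h2 | h2
  · exact ⟨β, hβ, h1.trans h2.1⟩
  · exact ⟨-β, hneg β hβ, by rw [inner_neg_left]; exact h1.trans h2.1⟩

theorem pc_le_norm (c : Finset E) (s : E) : pc c s ≤ (∑ β ∈ c, ‖β‖) * ‖s‖ := by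
  rcases c.eq_empty_or_nonempty with rfl | h
  · simp [pc]
  refine pc_le h fun β hβ => (abs_real_inner_le_norm β s).trans ?_
  gcongr
  exact Finset.single_le_sum (f := fun β => ‖β‖) (fun _ _ => norm_nonneg _) hβ

/-- a direction in the span of `c` inside two given closed half spaces -/
theorem exists_dir {c : Finset E} {γ₁ γ₂ : E} (h₁ : γ₁ ∈ c) (h₂ : γ₂ ∈ c) (h0 : γ₁ ≠ 0)
    (hne : ∀ t : ℝ, γ₂ ≠ t • γ₁) (δ₁ δ₂ : E) :
    ∃ w : E, (∀ β, (∀ γ ∈ c, ⟪β, γ⟫ = 0) → ⟪β, w⟫ = 0) ∧ 0 ≤ ⟪δ₁, w⟫ ∧ 0 ≤ ⟪δ₂, w⟫ ∧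
      pc c w = 1 := by
  have key : ∃ x y : ℝ, x • γ₁ + y • γ₂ ≠ 0 ∧ ⟪δ₁, x • γ₁ + y • γ₂⟫ = 0 := by
    by_cases h : ⟪δ₁, γ₁⟫ = 0
    · exact ⟨1, 0, by simpa using h0, by simpa using h⟩
    · refine ⟨⟪δ₁, γ₂⟫, -⟪δ₁, γ₁⟫, fun h1 => hne (⟪δ₁, γ₂⟫ / ⟪δ₁, γ₁⟫) ?_, ?_⟩
      · rw [neg_smul, add_neg_eq_zero] at h1
        rw [div_eq_inv_mul, mul_smul, h1, smul_smul, inv_mul_cancel₀ h, one_smul]
      · simp only [inner_add_right, inner_smul_right]
        ring
  obtain ⟨x, y, hw, hδ⟩ := key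
  set w := x • γ₁ + y • γ₂ with hwd
  have hp : 0 < pc c w := by
    refine (apply_nonneg _ _).lt_of_ne fun h => hw ?_
    have e1 : ⟪γ₁, w⟫ = 0 := abs_nonpos_iff.1 (h ▸ le_pc h₁ w)
    have e2 : ⟪γ₂, w⟫ = 0 := abs_nonpos_iff.1 (h ▸ le_pc h₂ w)
    have : ⟪x • γ₁ + y • γ₂, w⟫ = 0 := by
      rw [inner_add_left, real_inner_smul_left, real_inner_smul_left, e1, e2]
      simp
    exact inner_self_eq_zero.1 this
  have horth : ∀ β, (∀ γ ∈ c, ⟪β, γ⟫ = 0) → ⟪β, w⟫ = 0 := fun β hβ => by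
    rw [hwd, inner_add_right, inner_smul_right, inner_smul_right, hβ _ h₁, hβ _ h₂]
    simp
  rcases le_total 0 ⟪δ₂, w⟫ with h | h
  · refine ⟨(pc c w)⁻¹ • w, fun β hβ => ?_, ?_, ?_, ?_⟩
    · rw [inner_smul_right, horth β hβ, mul_zero]
    · rw [inner_smul_right, hδ, mul_zero]
    · rw [inner_smul_right]; positivity
    · rw [map_smul_eq_mul, Real.norm_of_nonneg (by positivity), inv_mul_cancel₀ hp.ne']
  · refine ⟨-((pc c w)⁻¹ • w), fun β hβ => ?_, ?_, ?_, ?_⟩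
    · rw [inner_neg_right, inner_smul_right, horth β hβ, mul_zero, neg_zero]
    · rw [inner_neg_right, inner_smul_right, hδ, mul_zero, neg_zero]
    · rw [inner_neg_right, inner_smul_right, Left.nonneg_neg_iff]
      exact mul_nonpos_of_nonneg_of_nonpos (by positivity) h
    · rw [map_neg_eq_map, map_smul_eq_mul, Real.norm_of_nonneg (by positivity),
        inv_mul_cancel₀ hp.ne']

/-- the polygon in one factor -/
theorem exists_poly_one {c : Finset E} (hneg : ∀ β ∈ c, -β ∈ c) {γ₁ γ₂ : E} (h₁ : γ₁ ∈ c)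
    (h₂ : γ₂ ∈ c) (h0 : γ₁ ≠ 0) (hne : ∀ t : ℝ, γ₂ ≠ t • γ₁) :
    ∃ C : ℝ, 0 ≤ C ∧ ∀ (f : E → ℝ), (∀ s s', f s ≤ f s' + pc c (s - s')) →
      (∀ s s', pc c (s - s') ≤ f s + f s') → ∀ (H : E) (R : ℝ), 0 ≤ R → 3 * R ≤ f 0 →
      3 * R ≤ f H → ∃ w : E, (∀ β, (∀ γ ∈ c, ⟪β, γ⟫ = 0) → ⟪β, w⟫ = 0) ∧
        ‖w‖ ≤ C * (R + ‖H‖) ∧ ∀ t ∈ Icc (0 : ℝ) 1,
          R ≤ f (t • w) ∧ R ≤ f (w + t • H) ∧ R ≤ f (H + t • w) := by
  classical
  have hc : c.Nonempty := ⟨_, h₁⟩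
  choose d hd using exists_dir h₁ h₂ h0 hne
  set B : ℝ := ∑ p ∈ c ×ˢ c, ‖d p.1 p.2‖ with hB
  set A : ℝ := ∑ β ∈ c, ‖β‖ with hA
  have hB0 : 0 ≤ B := Finset.sum_nonneg fun _ _ => norm_nonneg _
  have hA0 : 0 ≤ A := Finset.sum_nonneg fun _ _ => norm_nonneg _
  refine ⟨B * (4 + 2 * A), by positivity, fun f hf1 hf2 H R hR hf0 hfH => ?_⟩
  have hzero : ∀ β, (∀ γ ∈ c, ⟪β, γ⟫ = 0) → ⟪β, (0 : E)⟫ = 0 := fun β _ => inner_zero_right β
  have hH : ∀ t ∈ Icc (0 : ℝ) 1, pc c (t • H) ≤ pc c H := fun t ht => by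
    rw [map_smul_eq_mul, Real.norm_of_nonneg ht.1]
    exact mul_le_of_le_one_left (apply_nonneg _ _) ht.2
  by_cases hbad : ∀ s, R ≤ f s
  · exact ⟨0, hzero, by rw [norm_zero]; positivity, fun t _ => ⟨hbad _, hbad _, hbad _⟩⟩
  obtain ⟨x, hx⟩ := not_forall.1 hbad
  rw [not_le] at hx
  have hav : ∀ s, 2 * R ≤ pc c (s - x) → R ≤ f s := fun s hs => by linarith [hf2 s x]
  have hx0 : 2 * R ≤ pc c (0 - x) := by linarith [hf1 0 x]
  have hxH : 2 * R ≤ pc c (H - x) := by linarith [hf1 H x]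
  by_cases hbig : 2 * R + pc c H ≤ pc c x
  · refine ⟨0, hzero, by rw [norm_zero]; positivity, fun t ht => ⟨?_, ?_, ?_⟩⟩
    · rw [smul_zero]; linarith
    · refine hav _ ?_
      have h1 := map_sub_le_add (pc c) (t • H) (t • H - x)
      rw [sub_sub_cancel] at h1
      rw [zero_add]
      linarith [hH t ht]
    · rw [smul_zero, add_zero]; linarith
  rw [not_le] at hbig
  obtain ⟨δ₁, hδ₁, e₁⟩ := exists_pc_pos hc hneg (0 - x)
  obtain ⟨δ₂, hδ₂, e₂⟩ := exists_pc_pos hc hneg (H - x)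
  obtain ⟨d0, d1, d2, d3⟩ := hd δ₁ δ₂
  set r : ℝ := 4 * R + 2 * pc c H with hr
  have hr0 : 0 ≤ r := by have := apply_nonneg (pc c) H; positivity
  refine ⟨r • d δ₁ δ₂, fun β hβ => by rw [inner_smul_right, d0 β hβ, mul_zero], ?_,
    fun t ht => ⟨hav _ ?_, hav _ ?_, hav _ ?_⟩⟩
  · have h1 : ‖d δ₁ δ₂‖ ≤ B :=
      Finset.single_le_sum (f := fun p : E × E => ‖d p.1 p.2‖) (fun _ _ => norm_nonneg _)
        (Finset.mk_mem_product hδ₁ hδ₂)
    have h2 : r ≤ (4 + 2 * A) * (R + ‖H‖) := by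
      have := pc_le_norm c H
      have := norm_nonneg H
      nlinarith
    rw [norm_smul, Real.norm_of_nonneg hr0, mul_comm B, mul_right_comm]
    gcongr
  · refine le_trans ?_ ((le_abs_self _).trans (le_pc hδ₁ _))
    rw [e₁, zero_sub, inner_neg_right] at hx0
    rw [inner_sub_right, inner_smul_right, inner_smul_right]
    have := mul_nonneg ht.1 (mul_nonneg hr0 d1)
    linarith
  · have h1 : pc c (r • d δ₁ δ₂) = r := by
      rw [map_smul_eq_mul, d3, Real.norm_of_nonneg hr0, mul_one]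
    have h2 := map_sub_le_add (pc c) (r • d δ₁ δ₂ + t • H - x) (t • H - x)
    have h3 : r • d δ₁ δ₂ + t • H - x - (t • H - x) = r • d δ₁ δ₂ := by abel
    rw [h3, h1] at h2
    linarith [map_sub_le_add (pc c) (t • H) x, hH t ht]
  · refine le_trans ?_ ((le_abs_self _).trans (le_pc hδ₂ _))
    rw [e₂, inner_sub_right] at hxH
    rw [inner_sub_right, inner_add_right, inner_smul_right, inner_smul_right]
    have := mul_nonneg ht.1 (mul_nonneg hr0 d2)
    linarith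

/-- the polygon for finitely many mutually orthogonal factors -/
theorem exists_poly (𝒞 : Finset (Finset E)) (hneg : ∀ c ∈ 𝒞, ∀ β ∈ c, -β ∈ c)
    (htwo : ∀ c ∈ 𝒞, ∃ γ₁ ∈ c, ∃ γ₂ ∈ c, γ₁ ≠ 0 ∧ ∀ t : ℝ, γ₂ ≠ t • γ₁)
    (horth : ∀ c ∈ 𝒞, ∀ c' ∈ 𝒞, c ≠ c' → ∀ β ∈ c, ∀ γ ∈ c', ⟪β, γ⟫ = 0) :
    ∃ C : ℝ, 0 ≤ C ∧ ∀ (f : Finset E → E → ℝ),
      (∀ c ∈ 𝒞, ∀ s s', f c s ≤ f c s' + pc c (s - s')) →
      (∀ c ∈ 𝒞, ∀ s s', pc c (s - s') ≤ f c s + f c s') → ∀ (H : E) (R : ℝ), 0 ≤ R →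
      (∀ c ∈ 𝒞, 3 * R ≤ f c 0) → (∀ c ∈ 𝒞, 3 * R ≤ f c H) → ∃ w : E,
        ‖w‖ ≤ C * (R + ‖H‖) ∧ ∀ c ∈ 𝒞, ∀ t ∈ Icc (0 : ℝ) 1,
          R ≤ f c (t • w) ∧ R ≤ f c (w + t • H) ∧ R ≤ f c (H + t • w) := by
  classical
  choose γ₁ h₁ γ₂ h₂ h0 hne using fun c : 𝒞 => htwo c c.2
  choose C hC0 hC using fun c : 𝒞 => exists_poly_one (hneg c c.2) (h₁ c) (h₂ c) (h0 c) (hne c)
  refine ⟨∑ c, C c, Finset.sum_nonneg fun c _ => hC0 c, fun f hf1 hf2 H R hR hf0 hfH => ?_⟩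
  choose w hw0 hw1 hw2 using fun c : 𝒞 =>
    hC c (f c) (hf1 c c.2) (hf2 c c.2) H R hR (hf0 c c.2) (hfH c c.2)
  refine ⟨∑ c, w c, ?_, fun c hc t ht => ?_⟩
  · rw [Finset.sum_mul]
    exact norm_sum_le_of_le _ fun c _ => hw1 c
  have hne : c.Nonempty := ⟨_, h₁ ⟨c, hc⟩⟩
  have h2 : ∀ r : ℝ, pc c (r • (w ⟨c, hc⟩ - ∑ c, w c)) ≤ 0 := by
    intro r
    refine pc_le hne fun β hβ => ?_
    rw [inner_smul_right, inner_sub_right, inner_sum,
      Finset.sum_eq_single ⟨c, hc⟩ (fun c' _ hc' => ?_) (by simp)]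
    · simp
    · exact hw0 c' β fun γ hγ => horth c hc c' c'.2 (fun h => hc' (Subtype.ext h.symm)) β hβ γ hγ
  obtain ⟨a1, a2, a3⟩ := hw2 ⟨c, hc⟩ t ht
  refine ⟨a1.trans ?_, a2.trans ?_, a3.trans ?_⟩
  · have h3 := hf1 c hc (t • w ⟨c, hc⟩) (t • ∑ c, w c)
    rw [← smul_sub] at h3
    linarith [h2 t]
  · have h3 := hf1 c hc (w ⟨c, hc⟩ + t • H) (∑ c, w c + t • H)
    rw [add_sub_add_right_eq_sub] at h3
    have h4 := h2 1
    rw [one_smul] at h4
    linarith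
  · have h3 := hf1 c hc (H + t • w ⟨c, hc⟩) (H + t • ∑ c, w c)
    rw [add_sub_add_left_eq_sub, ← smul_sub] at h3
    linarith [h2 t]

end Pool.Agent.P.MP_d483fb_an.Z

end

end

section

/-!
Linear divergence from an abstract Cartan decomposition.
-/

open scoped InnerProductSpace RealInnerProductSpace
open Set

set_option linter.unusedSectionVars false
set_option linter.unusedVariables false

noncomputable section

namespace Pool.Agent.P.MP_d483fb_an.Z

theorem prod_eq_filter_mul {G : Type} [Group G] [DecidableEq G] {t : G} (ht : ∀ g, t * g = g * t)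
    (L : List G) : L.prod = (L.filter fun x => x ≠ t).prod * t ^ L.count t := by
  induction L with
  | nil => simp
  | cons x L ih =>
    rcases eq_or_ne x t with rfl | hx
    · rw [List.prod_cons, ih, List.filter_cons_of_neg (by simp), List.count_cons_self, pow_succ',
        ← mul_assoc, ht, mul_assoc]
    · rw [List.prod_cons, ih, List.filter_cons_of_pos (by simpa using hx),
        List.count_cons_of_ne hx, List.prod_cons, mul_assoc]

theorem chain_word {G : Type} [Group G] {P : G → ℕ → G → Prop} {Good : G → Prop} {B : ℕ}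
    (T : Finset G) (hc : ∀ t ∈ T, ∀ g, t * g = g * t) (hG : ∀ t ∈ T, ∀ y, Good y → Good (t * y))
    (hP : ∀ t ∈ T, ∀ N ≤ B, ∀ y, Good y → P t N y) (L : List G) (hL : ∀ t ∈ L, t ∈ T)
    (hB : L.length ≤ B) (y : G) (hy : Good y) : Chain P T.card y (L.prod * y) := by
  classical
  induction T using Finset.induction_on generalizing L y with
  | empty =>
    obtain rfl : L = [] := List.eq_nil_iff_forall_not_mem.2 fun t ht => by simpa using hL t ht
    simpa using Chain.nil _ y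
  | insert t T htT ih =>
    have ht : t ∈ insert t T := Finset.mem_insert_self t T
    have hpow : ∀ N : ℕ, Good (t ^ N * y) := by
      intro N
      induction N with
      | zero => simpa using hy
      | succ N ih => rw [pow_succ', mul_assoc]; exact hG t ht _ ih
    rw [Finset.card_insert_of_notMem htT, prod_eq_filter_mul (hc t ht) L, mul_assoc]
    refine Chain.cons (hP t ht (L.count t) (List.count_le_length.trans hB) y hy) ?_
    refine ih (fun s hs => hc s (Finset.mem_insert_of_mem hs))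
      (fun s hs => hG s (Finset.mem_insert_of_mem hs))
      (fun s hs => hP s (Finset.mem_insert_of_mem hs)) _ (fun s hs => ?_)
      ((List.length_filter_le _ _).trans hB) _ (hpow _)
    rw [List.mem_filter] at hs
    exact (Finset.mem_insert.1 (hL s hs.1)).resolve_left (by simpa using hs.2)

variable {G : Type} [Group G] [TopologicalSpace G] [IsTopologicalGroup G] {E : Type}
  [NormedAddCommGroup E] [InnerProductSpace ℝ E] [ProperSpace E]

theorem geo_abs (l : Len G) (Far : G → ℝ → Prop) (a : E → G)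
    (a_add : ∀ s t, a (s + t) = a s * a t) (a_cont : Continuous a) (𝒞 : Finset (Finset E))
    (hneg : ∀ c ∈ 𝒞, ∀ β ∈ c, -β ∈ c)
    (htwo : ∀ c ∈ 𝒞, ∃ γ₁ ∈ c, ∃ γ₂ ∈ c, γ₁ ≠ 0 ∧ ∀ t : ℝ, γ₂ ≠ t • γ₁)
    (horth : ∀ c ∈ 𝒞, ∀ c' ∈ 𝒞, c ≠ c' → ∀ β ∈ c, ∀ γ ∈ c', ⟪β, γ⟫ = 0)
    (ℓ : Finset E → G → ℝ) (ℓ_mul : ∀ c ∈ 𝒞, ∀ g h, ℓ c (g * h) ≤ ℓ c g + ℓ c h)
    (ℓ_inv : ∀ c ∈ 𝒞, ∀ g, ℓ c g⁻¹ = ℓ c g) (ℓ_a : ∀ c ∈ 𝒞, ∀ s, ℓ c (a s) = pc c s)
    {Cl : ℝ} (ℓ_bd : ∀ c ∈ 𝒞, ∀ g, ℓ c g ≤ Cl * (l.len g + 1))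
    (far : ∀ g t, (∀ c ∈ 𝒞, t ≤ ℓ c g) → Far g t) {s₀ : E} (hs₀ : ‖s₀‖ ≤ 1)
    (hs₁ : ∀ c ∈ 𝒞, 0 < pc c s₀) {K : Set G} (hK : IsCompact K) (T : Finset G)
    (hT : ∀ t ∈ T, ∀ g, t * g = g * t) (ℓ_K : ∀ c ∈ 𝒞, ∀ y ∈ K, ℓ c y ≤ 0)
    (ℓ_T : ∀ c ∈ 𝒞, ∀ y ∈ T, ℓ c y ≤ 0) {Cd : ℕ}
    (dec : ∀ g, ∃ y ∈ K, ∃ y' ∈ K, ∃ (H : E) (L : List G), (∀ t ∈ L, t ∈ T) ∧
      L.length ≤ Cd * (l.len g + 1) ∧ ‖H‖ ≤ Cd * (l.len g + 1) ∧ g = L.prod * (y * a H * y')) :
    Nonempty (Geo l Far (a '' Metric.closedBall 0 1 ∪ T)) := by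
  have a_zero : a 0 = 1 := by
    have h := a_add 0 0
    rwa [add_zero, left_eq_mul] at h
  have a_neg : ∀ s, a (-s) = (a s)⁻¹ := fun s =>
    eq_inv_of_mul_eq_one_left (by rw [← a_add, neg_add_cancel, a_zero])
  have a_pow : ∀ (s : E) (j : ℕ), a s ^ j = a ((j : ℝ) • s) := by
    intro s j
    induction j with
    | zero => simp [a_zero]
    | succ j ih => rw [pow_succ, ih, ← a_add, Nat.cast_succ, add_smul, one_smul]
  set S : Set G := a '' Metric.closedBall 0 1 ∪ T with hS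
  have hSc : IsCompact (S ∪ K) :=
    (((isCompact_closedBall 0 1).image a_cont).union T.finite_toSet.isCompact).union hK
  obtain ⟨B, hB⟩ := l.bdd hSc
  obtain ⟨Cp, hCp0, hCp⟩ := exists_poly 𝒞 hneg htwo horth
  obtain ⟨κ, hκ0, hκ⟩ : ∃ κ : ℝ, 0 < κ ∧ ∀ c ∈ 𝒞, κ ≤ pc c s₀ := by
    rcases 𝒞.eq_empty_or_nonempty with rfl | h
    · exact ⟨1, one_pos, by simp⟩
    · obtain ⟨c, hc, h1⟩ := 𝒞.exists_min_image (fun c => pc c s₀) h
      exact ⟨_, hs₁ c hc, h1⟩
  set h : ℕ := Cd * (2 * B + 3) with hh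
  obtain ⟨C, hC⟩ := exists_nat_ge (1 + B + h + Cp * (1 + h) + (|Cl| + 3) / κ)
  have hpos : 0 ≤ (|Cl| + 3) / κ := by positivity
  have hpos' : 0 ≤ Cp * (1 + h) := by positivity
  have hB0 : (0 : ℝ) ≤ B := B.cast_nonneg
  have hh0 : (0 : ℝ) ≤ h := h.cast_nonneg
  have hC1 : (1 : ℝ) ≤ C := by linarith
  have hC0 : 0 < C := by exact_mod_cast one_pos.trans_le hC1
  have hBC : B ≤ C := by exact_mod_cast (by linarith : (B : ℝ) ≤ C)
  have hhC : h ≤ C := by exact_mod_cast (by linarith : (h : ℝ) ≤ C)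
  have hκC : |Cl| + 3 ≤ κ * C := by
    have : (|Cl| + 3) / κ ≤ C := by linarith
    rwa [div_le_iff₀ hκ0, mul_comm] at this
  have hb : a s₀ ∈ S := Or.inl ⟨s₀, by simpa using hs₀, rfl⟩
  have hlow : ∀ c ∈ 𝒞, ∀ y g, ℓ c y ≤ 0 → ℓ c g ≤ ℓ c (y * g) := fun c hc y g hy => by
    have h1 := ℓ_mul c hc y⁻¹ (y * g)
    rw [inv_mul_cancel_left, ℓ_inv c hc] at h1
    linarith
  have hbT : ∀ c ∈ 𝒞, ∀ T : ℕ, κ * T ≤ ℓ c (a s₀ ^ T) := fun c hc T => by
    rw [a_pow, ℓ_a c hc, map_smul_eq_mul, Real.norm_natCast, mul_comm]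
    exact mul_le_mul_of_nonneg_left (hκ c hc) T.cast_nonneg
  refine ⟨⟨a s₀, C, 5 + T.card, hC0, hb, Or.inl ⟨-s₀, by simpa using hs₀, a_neg _⟩,
    fun N _ => far _ _ fun c hc => le_trans ?_ (hbT c hc N), fun n N u u' hN hu hu' => ?_⟩⟩
  · rw [div_le_iff₀ (by linarith), mul_right_comm]
    exact le_mul_of_one_le_left N.cast_nonneg (by linarith [abs_nonneg Cl])
  have hNn : n + 1 ≤ N := le_trans (Nat.le_mul_of_pos_left _ hC0) hN
  have hN1 : (1 : ℝ) ≤ N := by exact_mod_cast (by omega : 1 ≤ N)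
  set R : ℝ := N / C with hR
  have hR0 : 0 ≤ R := by positivity
  have hRN : R ≤ N := div_le_self (by linarith) hC1
  have hend : ∀ c ∈ 𝒞, ∀ u, l.len u ≤ n → 3 * R ≤ ℓ c (a s₀ ^ N * u) := by
    intro c hc u hu
    have h1 := ℓ_mul c hc (a s₀ ^ N * u) u⁻¹
    rw [mul_inv_cancel_right, ℓ_inv c hc] at h1
    have h2 : ((l.len u : ℝ) + 1) ≤ R := by
      rw [hR, le_div_iff₀ (by linarith), mul_comm]
      exact_mod_cast le_trans (Nat.mul_le_mul_left C (by omega)) hN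
    have h3 : ℓ c u ≤ |Cl| * R :=
      (ℓ_bd c hc u).trans (mul_le_mul (le_abs_self _) h2 (by positivity) (abs_nonneg _))
    have h4 : (|Cl| + 3) * R ≤ κ * N := by
      calc (|Cl| + 3) * R ≤ κ * C * R := by gcongr
        _ = κ * N := by rw [hR]; field_simp
    linarith [hbT c hc N]
  obtain ⟨y, hy, y', hy', H, L, hL, hL1, hH, hg⟩ := dec (a s₀ ^ N * u' * (a s₀ ^ N * u)⁻¹)
  have hlen : l.len (a s₀ ^ N * u' * (a s₀ ^ N * u)⁻¹) + 1 ≤ (2 * B + 3) * N := by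
    have h1 := l.len_mul (a s₀ ^ N * u') (a s₀ ^ N * u)⁻¹
    rw [l.len_inv] at h1
    have h2 := l.len_mul (a s₀ ^ N) u
    have h3 := l.len_mul (a s₀ ^ N) u'
    have h4 := (l.len_pow (a s₀) N).trans (Nat.mul_le_mul_left N (hB _ (Or.inl hb)))
    nlinarith
  have hlen' : Cd * (l.len (a s₀ ^ N * u' * (a s₀ ^ N * u)⁻¹) + 1) ≤ h * N := by
    rw [hh, mul_assoc Cd]
    exact Nat.mul_le_mul_left Cd hlen
  have hH' : ‖H‖ ≤ h * N := hH.trans (by exact_mod_cast hlen')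
  set y₀ : G := a s₀ ^ N * u with hy₀
  have hend' : a s₀ ^ N * u' = L.prod * (y * (a H * (y' * y₀))) := by
    rw [← mul_assoc (a H), ← mul_assoc y, ← mul_assoc y, ← mul_assoc, ← hg, inv_mul_cancel_right]
  let Good : G → Prop := fun g => ∀ c ∈ 𝒞, R ≤ ℓ c g
  have hLc : ∀ c ∈ 𝒞, ∀ L : List G, (∀ t ∈ L, t ∈ T) → ∀ g, ℓ c (L.prod * g) ≤ ℓ c g := by
    intro c hc L hL g
    induction L with
    | nil => simp
    | cons t L ih =>
      rw [List.prod_cons, mul_assoc]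
      have := ℓ_mul c hc t (L.prod * g)
      have := ℓ_T c hc t (hL t (by simp))
      have := ih fun s hs => hL s (by simp [hs])
      linarith
  obtain ⟨w, hw, hw'⟩ := hCp (fun c s => ℓ c (a s * (y' * y₀)))
    (fun c hc s s' => by
      have h1 := ℓ_mul c hc (a (s - s')) (a s' * (y' * y₀))
      rw [← mul_assoc, ← a_add, sub_add_cancel, ℓ_a c hc] at h1
      linarith)
    (fun c hc s s' => by
      have h1 := ℓ_mul c hc (a s * (y' * y₀)) (a s' * (y' * y₀))⁻¹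
      rwa [ℓ_inv c hc, mul_inv_rev, mul_assoc, mul_inv_cancel_left, ← a_neg, ← a_add,
        ← sub_eq_add_neg, ℓ_a c hc] at h1)
    H R hR0
    (fun c hc => by
      rw [a_zero, one_mul]
      exact (hend c hc u hu).trans (hlow c hc _ _ (ℓ_K c hc _ hy')))
    (fun c hc => by
      have h1 := hend c hc u' hu'
      rw [hend'] at h1
      have h2 := hLc c hc L hL (y * (a H * (y' * y₀)))
      have h3 := ℓ_mul c hc y (a H * (y' * y₀))
      linarith [ℓ_K c hc _ hy])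
  have hCN : (0 : ℝ) < (C * N : ℕ) := by push_cast; positivity
  have hseg : ∀ Z V : E, ‖V‖ ≤ (C * N : ℕ) →
      (∀ t ∈ Icc (0 : ℝ) 1, Good (a (Z + t • V) * (y' * y₀))) →
      Chain (Piece l Far S C N) 1 (a Z * (y' * y₀)) (a (Z + V) * (y' * y₀)) := by
    intro Z V hV hG
    have h1 : ∀ j : ℕ, a (((C * N : ℕ) : ℝ)⁻¹ • V) ^ j * (a Z * (y' * y₀)) =
        a (Z + (j / (C * N : ℕ) : ℝ) • V) * (y' * y₀) := fun j => by
      rw [a_pow, ← mul_assoc, ← a_add, smul_smul, add_comm, div_eq_mul_inv]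
    have h2 : a (((C * N : ℕ) : ℝ)⁻¹ • V) ∈ S := by
      refine Or.inl ⟨_, ?_, rfl⟩
      rw [mem_closedBall_zero_iff, norm_smul, norm_inv, Real.norm_natCast,
        inv_mul_le_iff₀ hCN, mul_one]
      exact hV
    have h3 := Chain.single (P := Piece l Far S C N) (N := C * N) (y := a Z * (y' * y₀))
      ⟨(hB _ (Or.inl h2)).trans hBC, Or.inl h2, le_rfl, fun j hj => by
        rw [h1]
        refine far _ _ (hG _ ⟨by positivity, ?_⟩)
        rw [div_le_one hCN]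
        exact_mod_cast hj⟩
    rwa [h1, div_self hCN.ne', one_smul] at h3
  have hjump : ∀ x ∈ K, ∀ g, Good g → Chain (Piece l Far S C N) 1 g (x * g) := by
    intro x hx g hG
    have h3 := Chain.single (P := Piece l Far S C N) (N := 1) (s := x) (y := g)
      ⟨(hB _ (Or.inr hx)).trans hBC, Or.inr le_rfl, by exact_mod_cast hCN, fun j hj => by
        refine far _ _ fun c hc => ?_
        interval_cases j
        · simpa using hG c hc
        · rw [pow_one]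
          exact (hG c hc).trans (hlow c hc _ _ (ℓ_K c hc _ hx))⟩
    rwa [pow_one] at h3
  have hw1 : ‖w‖ ≤ (C * N : ℕ) := by
    push_cast
    calc ‖w‖ ≤ Cp * (R + ‖H‖) := hw
      _ ≤ Cp * (N + h * N) := by gcongr
      _ = Cp * (1 + h) * N := by ring
      _ ≤ C * N := by gcongr; linarith
  have hH1 : ‖H‖ ≤ (C * N : ℕ) := by
    push_cast
    exact hH'.trans (by gcongr)
  have c1 := hjump y' hy' y₀ fun c hc => by linarith [hend c hc u hu]
  have c2 := hseg 0 w hw1 fun t ht c hc => by rw [zero_add]; exact (hw' c hc t ht).1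
  have c3 := hseg w H hH1 fun t ht c hc => (hw' c hc t ht).2.1
  have c4 := hseg (w + H) (-w) (by rwa [norm_neg]) fun t ht c hc => by
    have h1 : w + H + t • -w = H + (1 - t) • w := by module
    rw [h1]
    exact (hw' c hc (1 - t) ⟨by linarith [ht.2], by linarith [ht.1]⟩).2.2
  have hGH : Good (a H * (y' * y₀)) := fun c hc => by simpa using (hw' c hc 0 (by simp)).2.2
  have c5 := hjump y hy _ hGH
  have c6 := chain_word (P := Piece l Far S C N) (Good := Good) (B := C * N) T hT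
    (fun t ht g hG c hc => (hG c hc).trans (hlow c hc _ _ (ℓ_T c hc _ ht)))
    (fun t ht M hM g hG => ⟨(hB _ (Or.inl (Or.inr ht))).trans hBC, Or.inl (Or.inr ht), hM,
      fun j _ => far _ _ fun c hc => by
        induction j with
        | zero => simpa using hG c hc
        | succ j ih =>
          rw [pow_succ', mul_assoc]
          exact (ih (by omega)).trans (hlow c hc _ _ (ℓ_T c hc _ ht))⟩)
    L hL (hL1.trans (hlen'.trans (Nat.mul_le_mul_right N hhC))) (y * (a H * (y' * y₀)))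
    fun c hc => (hGH c hc).trans (hlow c hc _ _ (ℓ_K c hc _ hy))
  rw [a_zero, one_mul, zero_add] at c2
  rw [show w + H + -w = H by abel] at c4
  rw [hend']
  exact ((((c1.trans c2).trans c3).trans c4).trans c5).trans c6

end Pool.Agent.P.MP_d483fb_an.Z

end

end

section

open scoped Topology ENNReal
open MeasureTheory Filter Set

set_option linter.unusedSectionVars false

noncomputable section

namespace Pool.Agent.P.MP_d483fb_an.Z.SR

variable {G : Type} [Group G] [TopologicalSpace G] [IsTopologicalGroup G] [LocallyCompactSpace G]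
  [T2Space G] [SecondCountableTopology G] [MeasurableSpace G] [BorelSpace G]
  {Γ : Subgroup G} [Countable Γ] {X : Type} [MeasurableSpace X] [MulAction G X]
  [MeasurableSMul₂ G X]
  {𝕜 W : Type} [RCLike 𝕜] [NormedAddCommGroup W] [NormedSpace 𝕜 W] [FiniteDimensional 𝕜 W]

theorem unipotent_of_contr (τ : G →* (W →L[𝕜] W)) (hτ : Continuous τ) {h u : G}
    (hu : Contr h u) : IsNilpotent (τ u - 1) := by
  let ι : (W →L[𝕜] W) →+* (W →ₗ[𝕜] W) := ContinuousLinearMap.toLinearMapRingHom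
  have hι : Function.Injective ι := ContinuousLinearMap.coe_injective
  rw [← IsNilpotent.map_iff (f := ι) hι, LinearMap.isNilpotent_iff_charpoly]
  refine Polynomial.funext fun z => ?_
  let Δ : (W →L[𝕜] W) →* 𝕜 := LinearMap.det.comp ι.toMonoidHom
  have hΔ : Continuous Δ := ContinuousLinearMap.continuous_det
  have e1 : ∀ k : G, Δ (z • 1 - (τ (k * u * k⁻¹) - 1)) = Δ (z • 1 - (τ u - 1)) := fun k => by
    have a1 : τ k * τ k⁻¹ = 1 := by rw [← map_mul, mul_inv_cancel, map_one]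
    have a2 : z • 1 - (τ (k * u * k⁻¹) - 1) = τ k * (z • 1 - (τ u - 1)) * τ k⁻¹ := by
      simp only [map_mul, mul_sub, sub_mul, mul_smul_comm, smul_mul_assoc, mul_one, a1]
    rw [a2, map_mul, map_mul, mul_right_comm, ← map_mul, a1, map_one, one_mul]
  have e2 : Tendsto (fun n : ℕ => Δ (z • 1 - (τ (h ^ n * u * (h ^ n)⁻¹) - 1))) atTop
      (𝓝 (Δ (z • 1 - (τ 1 - 1)))) :=
    (hΔ.tendsto _).comp (tendsto_const_nhds.sub (((hτ.tendsto _).comp hu).sub tendsto_const_nhds))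
  simp only [e1, map_one, sub_self, sub_zero] at e2
  have e3 := tendsto_nhds_unique tendsto_const_nhds e2
  have e4 : Δ (z • 1) = z ^ Module.finrank 𝕜 W := by
    show LinearMap.det (z • (LinearMap.id : W →ₗ[𝕜] W)) = _
    rw [LinearMap.det_smul, LinearMap.det_id, mul_one]
  rw [LinearMap.eval_charpoly, Polynomial.eval_pow, Polynomial.eval_X, ← e4, ← e3,
    Algebra.algebraMap_eq_smul_one]
  rfl

theorem fixed_of_recurrent (T : W →L[𝕜] W) (hT : IsNilpotent (T - 1)) (v : W)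
    (h : ∀ ε : ℝ, 0 < ε → ∃ᶠ n : ℕ in atTop, ∃ c : 𝕜, ‖c • (T ^ n) v - v‖ < ε) : T v = v := by
  classical
  by_contra hne
  obtain ⟨N, rfl⟩ : ∃ N, T = 1 + N := ⟨T - 1, by abel⟩
  rw [add_sub_cancel_left] at hT
  have hex : ∃ k : ℕ, (N ^ k) (N v) = 0 := by
    obtain ⟨k, hk⟩ := hT
    exact ⟨k, by rw [hk, zero_apply]⟩
  have h0 : Nat.find hex ≠ 0 := fun e => by
    have h1 := Nat.find_spec hex
    rw [e, pow_zero, one_apply_eq_self] at h1
    exact hne (by rw [add_apply, h1, add_zero, one_apply_eq_self])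
  obtain ⟨j, hj⟩ := Nat.exists_eq_succ_of_ne_zero h0
  have hy : N ((N ^ j) v) ≠ 0 := by
    have h1 := Nat.find_min hex (m := j) (by omega)
    rwa [← mul_apply_eq_comp, ← pow_succ, pow_succ', mul_apply_eq_comp]
      at h1
  have hz : N (N ((N ^ j) v)) = 0 := by
    have h1 := Nat.find_spec hex
    rwa [hj, ← mul_apply_eq_comp, ← pow_succ, pow_succ', pow_succ',
      mul_apply_eq_comp, mul_apply_eq_comp] at h1
  have hc : ∀ n : ℕ, (N ^ j) (((1 + N) ^ n) v) = ((1 + N) ^ n) ((N ^ j) v) := fun n => by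
    have h1 : Commute (N ^ j) ((1 + N) ^ n) :=
      ((Commute.one_right N).add_right (Commute.refl N)).pow_pow j n
    rw [← mul_apply_eq_comp, h1.eq, mul_apply_eq_comp]
  generalize N ^ j = A at hy hz hc
  set w := A v
  have hp : ∀ n : ℕ, ((1 + N) ^ n) w = w + (n : 𝕜) • N w := fun n => by
    induction n with
    | zero => simp
    | succ n ih =>
      rw [pow_succ', mul_apply_eq_comp, ih]
      simp only [add_apply, one_apply_eq_self, map_add, map_smul,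
        hz, Nat.cast_succ, add_smul, one_smul, add_zero]
      abel
  have hy' : 0 < ‖N w‖ := norm_pos_iff.mpr hy
  have hK : 0 < ‖N‖ * ‖A‖ + 1 := by positivity
  obtain ⟨ε, hε, hε'⟩ : ∃ ε : ℝ, 0 < ε ∧ (‖N‖ * ‖A‖ + 1) * ε = ‖N w‖ / 2 :=
    ⟨‖N w‖ / 2 / (‖N‖ * ‖A‖ + 1), by positivity, mul_div_cancel₀ _ hK.ne'⟩
  have hev : ∀ᶠ n : ℕ in atTop, (2 * (‖A‖ * ε) + ‖w‖) / ‖N w‖ < (n : ℝ) :=
    tendsto_natCast_atTop_atTop.eventually_gt_atTop _
  obtain ⟨n, ⟨c, hcn⟩, hn⟩ := ((h ε hε).and_eventually hev).exists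
  rw [div_lt_iff₀ hy'] at hn
  have a1 : A (c • ((1 + N) ^ n) v - v) = (c - 1) • w + (c * n) • N w := by
    rw [map_sub, map_smul, hc, hp, smul_add, smul_smul, sub_smul, one_smul]
    abel
  have a2 : ‖(c - 1) • w + (c * n) • N w‖ ≤ ‖A‖ * ε := by
    rw [← a1]
    exact (A.le_opNorm _).trans (mul_le_mul_of_nonneg_left hcn.le (norm_nonneg _))
  have a3 : ‖c - 1‖ * ‖N w‖ ≤ ‖N‖ * (‖A‖ * ε) := by
    have b1 := (N.le_opNorm _).trans (mul_le_mul_of_nonneg_left a2 (norm_nonneg N))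
    rwa [map_add, map_smul, map_smul, hz, smul_zero, add_zero, norm_smul] at b1
  have a4 : ‖c - 1‖ ≤ 1 / 2 := le_of_mul_le_mul_right (by nlinarith) hy'
  have a5 : 1 / 2 ≤ ‖c‖ := by
    have b1 := norm_sub_norm_le (1 : 𝕜) c
    rw [norm_one, norm_sub_rev] at b1
    linarith
  have a6 := norm_sub_le ((c - 1) • w + (c * n) • N w) ((c - 1) • w)
  rw [add_sub_cancel_left, norm_smul, norm_smul, norm_mul, RCLike.norm_natCast] at a6
  have a7 : ‖c - 1‖ * ‖w‖ ≤ 1 / 2 * ‖w‖ := mul_le_mul_of_nonneg_right a4 (norm_nonneg _)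
  have a8 : 1 / 2 * (n * ‖N w‖) ≤ ‖c‖ * (n * ‖N w‖) :=
    mul_le_mul_of_nonneg_right a5 (by positivity)
  nlinarith

theorem Sec.measurableSet_orb (S : Sec Γ X) {O : Set G} (hO : MeasurableSet O) :
    MeasurableSet ((fun g : G => g • S.o) '' O) := by
  have e : (fun g : G => g • S.o) '' O = ⋃ γ : Γ, (fun x => S.s x * γ) ⁻¹' O := by
    ext x
    simp only [mem_image, mem_iUnion, mem_preimage]
    constructor
    · rintro ⟨g, hg, rfl⟩
      refine ⟨⟨(S.s (g • S.o))⁻¹ * g, (S.stab _).1 ?_⟩, by simpa using hg⟩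
      rw [mul_smul, inv_smul_eq_iff, S.s_o]
    · rintro ⟨γ, hγ⟩
      exact ⟨_, hγ, by rw [mul_smul, (S.stab _).2 γ.2, S.s_o]⟩
  rw [e]
  exact MeasurableSet.iUnion fun γ => (S.meas.mul_const _) hO

theorem Sec.orb_ne_zero (S : Sec Γ X) {O : Set G} (hO : IsOpen O) (hne : O.Nonempty) :
    S.μ ((fun g : G => g • S.o) '' O) ≠ 0 := by
  intro h0
  obtain ⟨g₀, hg₀⟩ := hne
  obtain ⟨t, ht, hU⟩ := TopologicalSpace.countable_cover_nhds
    (f := fun k : G => (fun g => g₀ * k⁻¹ * g) ⁻¹' O) fun k =>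
      (hO.preimage (continuous_const.mul continuous_id)).mem_nhds (by simpa using hg₀)
  have h1 : S.μ (⋃ k ∈ t, (fun x : X => (g₀ * k⁻¹) • x) ⁻¹' ((fun g : G => g • S.o) '' O)) = 0 :=
    (measure_biUnion_null_iff ht).2 fun k _ => by
      rw [(S.inv _).measure_preimage (S.measurableSet_orb hO.measurableSet).nullMeasurableSet, h0]
  refine one_ne_zero (α := ℝ≥0∞) (le_zero_iff.1 ?_)
  rw [← h1, ← measure_univ (μ := S.μ)]
  refine measure_mono fun x _ => ?_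
  obtain ⟨k, hk, hx⟩ := mem_iUnion₂.1 (hU.ge (mem_univ (S.s x)))
  exact mem_iUnion₂.2 ⟨k, hk, _, hx, by simp only [mul_smul, S.s_o]⟩

theorem Sec.recurrent (S : Sec Γ X) (u : G) : ∀ᵐ x ∂S.μ, ∀ g : G, g • S.o = x → ∀ O ∈ 𝓝 g,
    ∃ᶠ n : ℕ in atTop, ∃ γ : Γ, u ^ n * g * γ ∈ O := by
  have h1 : ∀ᵐ x ∂S.μ, ∀ O ∈ TopologicalSpace.countableBasis G,
      x ∈ (fun g : G => g • S.o) '' O →
        ∃ᶠ n : ℕ in atTop, (fun x : X => u • x)^[n] x ∈ (fun g : G => g • S.o) '' O :=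
    (ae_ball_iff (TopologicalSpace.countable_countableBasis G)).2 fun O hO =>
      (S.inv u).conservative.ae_mem_imp_frequently_image_mem (S.measurableSet_orb
        (TopologicalSpace.isOpen_of_mem_countableBasis hO).measurableSet).nullMeasurableSet
  filter_upwards [h1] with x hx g hg O hO
  obtain ⟨O', a1, a2, a3⟩ := (TopologicalSpace.isBasis_countableBasis G).mem_nhds_iff.1 hO
  refine (hx O' a1 ⟨g, a2, hg⟩).mono ?_
  rintro n ⟨g', b1, b2⟩
  rw [smul_iterate_apply, ← hg, ← mul_smul] at b2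
  refine ⟨⟨(u ^ n * g)⁻¹ * g', (S.stab _).1 ?_⟩, ?_⟩
  · rw [mul_smul, inv_smul_eq_iff]
    exact b2
  · show u ^ n * g * ((u ^ n * g)⁻¹ * g') ∈ O
    rw [mul_inv_cancel_left]
    exact a3 b1

theorem Sec.fixed_of_line (S : Sec Γ X) (hgen : Gen G) (τ : G →* (W →L[𝕜] W))
    (hτ : Continuous τ) (ω : W) (h : ∀ γ : Γ, ∃ c : 𝕜, τ γ ω = c • ω) (g : G) : τ g ω = ω := by
  have hc : Continuous fun g : G => τ g ω := hτ.clm_apply continuous_const
  let F : Subgroup G :=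
    { carrier := {u | τ u ω = ω}
      one_mem' := by simp
      mul_mem' := fun {a b} ha hb => by
        simp only [mem_ofPred_eq] at ha hb ⊢
        rw [map_mul, mul_apply_eq_comp, hb, ha]
      inv_mem' := fun {a} ha => by
        simp only [mem_ofPred_eq] at ha ⊢
        conv_lhs => rw [← ha]
        rw [← mul_apply_eq_comp, ← map_mul, inv_mul_cancel, map_one,
          one_apply_eq_self] }
  have hF : F = ⊤ := by
    refine hgen F (isClosed_eq hc continuous_const) fun k u hu => ?_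
    by_contra hn
    have hO : IsOpen {g : G | τ u (τ g ω) ≠ τ g ω} :=
      isOpen_ne_fun ((τ u).continuous.comp hc) hc
    obtain ⟨_, ⟨g, hg, rfl⟩, hx⟩ := Measure.exists_mem_of_measure_ne_zero_of_ae
      (S.orb_ne_zero hO ⟨1, fun e => hn (by simpa using e : τ u ω = ω)⟩) (ae_restrict_of_ae (S.recurrent u))
    refine hg (fixed_of_recurrent _ (unipotent_of_contr τ hτ hu) _ fun ε hε => ?_)
    refine (hx g rfl _ (hc.continuousAt (Metric.ball_mem_nhds _ hε))).mono ?_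
    rintro n ⟨γ, hγ⟩
    obtain ⟨c, hcγ⟩ := h γ
    refine ⟨c, ?_⟩
    rwa [mem_preimage, mem_ball_iff_norm, map_mul, map_mul, map_pow, mul_apply_eq_comp,
      mul_apply_eq_comp, hcγ, map_smul, map_smul] at hγ
  exact (hF.ge (Subgroup.mem_top g) : g ∈ F)

end Pool.Agent.P.MP_d483fb_an.Z.SR

end

end

section

open scoped Topology ENNReal Matrix
open MeasureTheory Filter Set

set_option linter.unusedSectionVars false

noncomputable section

namespace Pool.Agent.P.MP_d483fb_an.Z.SR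

variable {G : Type} [Group G] [TopologicalSpace G] [IsTopologicalGroup G] [LocallyCompactSpace G]
  [T2Space G] [SecondCountableTopology G] [MeasurableSpace G] [BorelSpace G]
  {Γ : Subgroup G} [Countable Γ] {X : Type} [MeasurableSpace X] [MulAction G X]
  [MeasurableSMul₂ G X]
  {𝕜 W : Type} [RCLike 𝕜] [NormedAddCommGroup W] [NormedSpace 𝕜 W] [FiniteDimensional 𝕜 W]

theorem borelB_mul_inv (τ : G →* (W →L[𝕜] W)) (g : G) (v : W) : τ g (τ g⁻¹ v) = v := by
  rw [← mul_apply_eq_comp, ← map_mul, mul_inv_cancel, map_one,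
    one_apply_eq_self]

theorem borelB_inv_mul (τ : G →* (W →L[𝕜] W)) (g : G) (v : W) : τ g⁻¹ (τ g v) = v := by
  rw [← mul_apply_eq_comp, ← map_mul, inv_mul_cancel, map_one,
    one_apply_eq_self]

/-- The action on multilinear forms. -/
def formRep (τ : G →* (W →L[𝕜] W)) (c : ℕ) : G →*
    (ContinuousMultilinearMap 𝕜 (fun _ : Fin c => W) 𝕜 →L[𝕜]
      ContinuousMultilinearMap 𝕜 (fun _ : Fin c => W) 𝕜) where
  toFun g := ContinuousMultilinearMap.compContinuousLinearMapContinuousMultilinear 𝕜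
    (fun _ : Fin c => W) (fun _ : Fin c => W) 𝕜 fun _ => τ g⁻¹
  map_one' := by
    ext ω m
    simp
  map_mul' g h := by
    ext ω m
    simp

theorem formRep_apply (τ : G →* (W →L[𝕜] W)) (c : ℕ) (g : G)
    (ω : ContinuousMultilinearMap 𝕜 (fun _ : Fin c => W) 𝕜) (m : Fin c → W) :
    formRep τ c g ω m = ω fun i => τ g⁻¹ (m i) := rfl

theorem continuous_formRep (τ : G →* (W →L[𝕜] W)) (hτ : Continuous τ) (c : ℕ) :
    Continuous (formRep τ c) :=
  (ContinuousMultilinearMap.compContinuousLinearMapContinuousMultilinear 𝕜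
    (fun _ : Fin c => W) (fun _ : Fin c => W) 𝕜).cont.comp
      (continuous_pi fun _ => hτ.comp continuous_inv)

/-- The action on bilinear products. -/
def bilRep (τ : G →* (W →L[𝕜] W)) :
    G →* ((W →L[𝕜] W →L[𝕜] W) →L[𝕜] (W →L[𝕜] W →L[𝕜] W)) where
  toFun g := LinearMap.toContinuousLinearMap
    { toFun := fun B => ((ContinuousLinearMap.compL 𝕜 W W W (τ g)).comp
        (((ContinuousLinearMap.compL 𝕜 W W W).flip (τ g⁻¹)).comp B)).comp (τ g⁻¹)
      map_add' := fun B B' => by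
        ext x y
        simp
      map_smul' := fun c B => by
        ext x y
        simp }
  map_one' := by
    ext B x y
    simp
  map_mul' g h := by
    ext B x y
    simp

theorem bilRep_apply (τ : G →* (W →L[𝕜] W)) (g : G) (B : W →L[𝕜] W →L[𝕜] W) (x y : W) :
    bilRep τ g B x y = τ g (B (τ g⁻¹ x) (τ g⁻¹ y)) := rfl

theorem continuous_bilRep (τ : G →* (W →L[𝕜] W)) (hτ : Continuous τ) :
    Continuous (bilRep τ) := by
  have hi : Continuous fun g : G => τ g⁻¹ := hτ.comp continuous_inv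
  have h1 : ∀ B : W →L[𝕜] W →L[𝕜] W, Continuous fun g => bilRep τ g B := fun B => by
    refine continuous_clm_apply.2 fun x => continuous_clm_apply.2 fun y => ?_
    simp only [bilRep_apply]
    exact hτ.clm_apply ((B.continuous.comp (hi.clm_apply continuous_const)).clm_apply
      (hi.clm_apply continuous_const))
  exact (continuous_clm_apply (𝕜 := 𝕜) (E := W →L[𝕜] W →L[𝕜] W)
    (F := W →L[𝕜] W →L[𝕜] W)).2 h1

theorem Sec.inv_submodule (S : Sec Γ X) (hgen : Gen G) (τ : G →* (W →L[𝕜] W))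
    (hτ : Continuous τ) (U : Submodule 𝕜 W) (h : ∀ γ : Γ, ∀ v ∈ U, τ γ v ∈ U) (g : G) :
    ∀ v ∈ U, τ g v ∈ U := by
  intro v hv
  set c := Module.finrank 𝕜 (W ⧸ U)
  let e : Module.Basis (Fin c) 𝕜 (W ⧸ U) := Module.finBasis 𝕜 (W ⧸ U)
  have : FiniteDimensional 𝕜 (ContinuousMultilinearMap 𝕜 (fun _ : Fin c => W) 𝕜) :=
    Module.Finite.of_injective (ContinuousMultilinearMap.toMultilinearMapLinear (R' := 𝕜))
      ContinuousMultilinearMap.toMultilinearMap_injective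
  let ω : ContinuousMultilinearMap 𝕜 (fun _ : Fin c => W) 𝕜 :=
    { toMultilinearMap := e.det.toMultilinearMap.compLinearMap fun _ => U.mkQ
      cont := by
        show Continuous fun m : Fin c → W => e.det fun i => U.mkQ (m i)
        simp only [Module.Basis.det_apply]
        refine Continuous.matrix_det (continuous_matrix fun i j => ?_)
        exact (LinearMap.continuous_of_finiteDimensional (e.coord i ∘ₗ U.mkQ)).comp
          (continuous_apply j) }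
  have hω : ∀ m, ω m = e.det fun i => U.mkQ (m i) := fun _ => rfl
  have hfix := S.fixed_of_line hgen (formRep τ c) (continuous_formRep τ hτ c) ω (fun γ => by
    refine ⟨LinearMap.det (U.mapQ U (τ (γ⁻¹ : Γ) : W →ₗ[𝕜] W) (h γ⁻¹)), ?_⟩
    ext m
    rw [formRep_apply, smul_apply, hω, hω, smul_eq_mul,
      ← Module.Basis.det_comp]
    rfl) g
  rw [← Submodule.Quotient.mk_eq_zero, ← e.forall_coord_eq_zero_iff]
  intro i
  choose w hw using fun j => U.mkQ_surjective (e j)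
  have h1 : ω (Function.update w i (τ g v)) = e.coord i (U.mkQ (τ g v)) := by
    have e1 : (fun j => U.mkQ (Function.update w i (τ g v) j)) =
        Function.update e i (U.mkQ (τ g v)) := by
      funext j
      by_cases hj : j = i
      · simp [hj]
      · simp only [Function.update_of_ne hj, hw]
    rw [hω, e1, Module.Basis.det_apply, e.toMatrix_update, e.toMatrix_self,
      ← Matrix.cramer_apply, Matrix.cramer_one]
    rfl
  have h2 : formRep τ c g ω (Function.update w i (τ g v)) = 0 := by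
    rw [formRep_apply, hω]
    refine e.det.map_coord_zero i ?_
    simpa [borelB_inv_mul] using hv
  rw [hfix, h1] at h2
  exact h2

theorem Sec.descend (S : Sec Γ X) (hgen : Gen G) {n : ℕ} (τ : G →* Matrix (Fin n) (Fin n) 𝕜)
    (hτ : Continuous τ) (π : Γ →* (W →L[𝕜] W)) (Φ : (Fin n → 𝕜) →ₗ[𝕜] W)
    (hΦ : ∀ (γ : Γ) (v : Fin n → 𝕜), Φ (τ γ *ᵥ v) = π γ (Φ v)) (hs : Function.Surjective Φ) :
    ∃ τ' : G →* (W →L[𝕜] W), Continuous τ' ∧ ∀ γ : Γ, τ' γ = π γ := by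
  let σ : G →* ((Fin n → 𝕜) →L[𝕜] (Fin n → 𝕜)) :=
    { toFun := fun g => LinearMap.toContinuousLinearMap (Matrix.toLin' (τ g))
      map_one' := by
        ext v i
        simp
      map_mul' := fun g h => by
        refine ContinuousLinearMap.ext fun v => ?_
        simp }
  have hσ : ∀ g v, σ g v = τ g *ᵥ v := fun _ _ => rfl
  have hσc : Continuous σ := continuous_clm_apply.2 fun v => by
    simp only [hσ]
    exact hτ.matrix_mulVec continuous_const
  have hker : ∀ g v, Φ v = 0 → Φ (τ g *ᵥ v) = 0 := fun g =>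
    S.inv_submodule hgen σ hσc (LinearMap.ker Φ) (fun γ v hv => by
      rw [LinearMap.mem_ker] at hv ⊢
      rw [hσ, hΦ, hv, map_zero]) g
  obtain ⟨R, hR⟩ := Φ.exists_rightInverse_of_surjective (LinearMap.range_eq_top.2 hs)
  have hR' : ∀ x, Φ (R x) = x := fun x => LinearMap.congr_fun hR x
  have key : ∀ g v, Φ (τ g *ᵥ R (Φ v)) = Φ (τ g *ᵥ v) := by
    intro g v
    rw [← sub_eq_zero, ← map_sub, ← Matrix.mulVec_sub]
    exact hker g _ (by rw [map_sub, hR', sub_self])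
  refine ⟨{ toFun := fun g => LinearMap.toContinuousLinearMap (Φ ∘ₗ Matrix.toLin' (τ g) ∘ₗ R)
            map_one' := by
              ext x
              simp [hR']
            map_mul' := fun g h => by
              ext x
              simp [key] }, continuous_clm_apply.2 fun x => ?_, fun γ => ?_⟩
  · exact Φ.continuous_of_finiteDimensional.comp (hτ.matrix_mulVec continuous_const)
  · ext x
    simp [hΦ, hR']

theorem Sec.aut_of_lattice (S : Sec Γ X) (hgen : Gen G) (τ : G →* (W →L[𝕜] W))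
    (hτ : Continuous τ) (B : W →L[𝕜] W →L[𝕜] W)
    (h : ∀ (γ : Γ) (x y : W), τ γ (B x y) = B (τ γ x) (τ γ y)) (g : G) (x y : W) :
    τ g (B x y) = B (τ g x) (τ g y) := by
  have hfix := S.fixed_of_line (𝕜 := 𝕜) (W := W →L[𝕜] W →L[𝕜] W) hgen (bilRep τ)
    (continuous_bilRep τ hτ) B (fun γ => ⟨1, by
    ext x y
    rw [bilRep_apply, h, borelB_mul_inv, borelB_mul_inv, one_smul]⟩) g
  rw [← congrArg (fun B' : W →L[𝕜] W →L[𝕜] W => B' (τ g x) (τ g y)) hfix, bilRep_apply,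
    borelB_inv_mul, borelB_inv_mul]

end Pool.Agent.P.MP_d483fb_an.Z.SR

end

end
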