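import Pool.Agent.P.MP_d483fb_an.M.A02

section

open MeasureTheory Filter Topology Set

set_option linter.unusedSectionVars false
set_option linter.unusedVariables false
set_option linter.deprecated false

noncomputable section

namespace Pool.Agent.P.MP_d483fb_an.Os

variable {k Γ X V : Type} [NontriviallyNormedField k] [CompleteSpace k] [AddCommGroup Γ]
  [MeasurableSpace X] {μ : Measure X} [NormedAddCommGroup V] [NormedSpace k V]
  [FiniteDimensional k V] [ProperSpace V]

variable {S : Sys Γ X μ}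

namespace Coc

variable {c : Coc S k V} {F D : X → Submodule k V}

theorem Sub.norm_le (hD : c.Sub D) (s : Γ) {x : X} {v : V} (hv : v ∈ D x) :
    ‖c.A s x v‖ ≤ (c.restrict D hD).nq (O k V X) s x * ‖v‖ := by
  have := (c.restrict D hD).sub_O.nq_le s hv
  rwa [qn_O, qn_O] at this

theorem Sub.orbit0 [IsFiniteMeasure μ] (hD : c.Sub D) {a : Γ} {r : ℝ}
    (h : ∀ᵐ x ∂μ, ∀ v ∈ D x, c.Gr (O k V X) a r x v) (b : Γ) {ε : ℝ} (hε : 0 < ε) :
    ∀ᵐ x ∂μ, ∃ M : ℝ, 0 < M ∧ ∀ i n : ℕ, ∀ v ∈ D (S.act (i • b) x),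
      ‖c.A (n • a) (S.act (i • b) x) v‖ ≤ M * Real.exp (r * n + ε * i) * ‖v‖ := by
  have := (c.restrict D hD).sub_O.orbit_bound (a := a) (r := r)
    (h.mono fun x hx v hv => ⟨hv, hx v hv⟩) b hε
  filter_upwards [this] with x ⟨M, h0, hM⟩
  exact ⟨M, h0, fun i n v hv =>
    (hD.norm_le _ hv).trans (mul_le_mul_of_nonneg_right (hM i n) (norm_nonneg v))⟩

theorem Sub.disj [IsFiniteMeasure μ] (hD : c.Sub D) {a : Γ} {l r : ℝ} (hr : r < l)
    (h : ∀ᵐ x ∂μ, ∀ v ∈ D x, ∀ ε, 0 < ε → c.Gr (O k V X) (-a) (-l + ε) x v) :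
    ∀ᵐ x ∂μ, ∀ v ∈ D x, c.Gr (O k V X) a r x v → v = 0 := by
  have hε : 0 < (l - r) / 3 := by linarith
  filter_upwards [hD.orbit0 (h.mono fun x hx v hv => hx v hv _ hε) a hε] with x ⟨M, h0, hM⟩ v hv
    ⟨M', hM'⟩
  have h1 : ∀ n : ℕ, ‖v‖ ≤ M * M' * Real.exp (-((l - r) / 3)) ^ n := fun n => by
    have h2 := hM n n _ (hD.inv (n • a) x v hv)
    have h3 := hM' n
    rw [neg_nsmul, c.neg_apply _ (hD.le x hv)] at h2
    rw [qn_O] at h3
    refine h2.trans ((mul_le_mul_of_nonneg_left h3 (by positivity)).trans_eq ?_)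
    rw [← Real.exp_nat_mul, mul_mul_mul_comm, ← Real.exp_add]
    congr 2; ring
  have h2 := (tendsto_pow_atTop_nhds_zero_of_lt_one (Real.exp_pos (-((l - r) / 3))).le
    (Real.exp_lt_one_iff.2 (by linarith))).const_mul (M * M')
  rw [mul_zero] at h2
  exact norm_le_zero_iff.1 (ge_of_tendsto' h2 h1)

theorem Sub.duhamel (hF : c.Sub F) {b : Γ} {ρ : ℝ} {x : X} {w : V} (hw : w ∈ c.E x)
    (hg : c.Gr F b ρ x w) : ∃ (h : ℕ → V) (M : ℝ), 0 < M ∧ (∀ n, h n ∈ F x) ∧
      (∀ n : ℕ, ‖c.A (n • b) x (w - h n)‖ ≤ M * Real.exp (ρ * n)) ∧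
      ∀ n : ℕ, ‖c.A ((n + 1) • b) x (h (n + 1) - h n)‖ ≤ M * Real.exp (ρ * n) := by
  obtain ⟨M, h0, hM⟩ := hg.pos
  choose f hf ef using fun n : ℕ => qn_exists (F (S.act (n • b) x)) (c.A (n • b) x w)
  have h1 : ∀ n : ℕ, c.A (-(n • b)) (S.act (n • b) x) (f n) ∈ F x := fun n => hF.inv_neg _ (hf n)
  have h2 : ∀ n : ℕ, ‖c.A (n • b) x (w - c.A (-(n • b)) (S.act (n • b) x) (f n))‖ ≤
      M * Real.exp (ρ * n) := fun n => by
    rw [map_sub, c.apply_neg _ (hF.le _ (hf n)), ef]
    exact hM n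
  have e1 := Real.one_le_exp (c.K_nonneg b)
  have e2 := Real.exp_pos ρ
  refine ⟨_, M * (Real.exp (c.K b) + Real.exp ρ), by positivity, h1, fun n => (h2 n).trans
    (mul_le_mul_of_nonneg_right (le_mul_of_one_le_right h0.le (by linarith)) (Real.exp_pos _).le),
    fun n => ?_⟩
  have h3 := h2 (n + 1)
  have hm := sub_mem hw (hF.le x (h1 n))
  have h4 := (c.bound b _ _ (c.map (n • b) x _ hm)).trans
    (mul_le_mul_of_nonneg_left (h2 n) (Real.exp_pos _).le)
  rw [← c.add _ _ _ _ hm, ← succ_nsmul'] at h4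
  rw [← sub_sub_sub_cancel_left _ _ w, map_sub]
  refine (norm_sub_le _ _).trans ((add_le_add h4 h3).trans_eq ?_)
  rw [Nat.cast_succ, mul_add ρ, mul_one, Real.exp_add]
  ring

/-- a vector that contracts modulo `F` contracts -/
theorem Sub.lift_same (hF : c.Sub F) {b : Γ} {ρ ε M : ℝ} (hε : 0 < ε) (h0 : 0 < M) {x : X}
    (hM : ∀ i n : ℕ, ∀ v ∈ F (S.act (i • b) x),
      ‖c.A (n • b) (S.act (i • b) x) v‖ ≤ M * Real.exp (ρ * n + ε * i) * ‖v‖)
    {w : V} (hw : w ∈ c.E x) (hg : c.Gr F b ρ x w) : c.Gr (O k V X) b (ρ + 2 * ε) x w := by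
  obtain ⟨h, M', h0', h1, h2, h3⟩ := hF.duhamel hw hg
  refine ⟨M' + M * ‖h 0‖ + M * M' * Real.exp (-ρ) / ε, fun n => ?_⟩
  have e : w = (w - h n) + h 0 + ∑ i ∈ Finset.range n, (h (i + 1) - h i) := by
    rw [Finset.sum_range_sub]; abel
  have hn : (0 : ℝ) ≤ ε * n := by positivity
  have b0 : Real.exp (ρ * n) ≤ Real.exp ((ρ + 2 * ε) * n) := Real.exp_le_exp.2 (by linarith)
  have b1 := hM 0 n (h 0) (by rw [zero_smul, S.zero]; exact h1 0)
  rw [zero_smul, S.zero, Nat.cast_zero, mul_zero, add_zero] at b1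
  have b2 : ∀ i ∈ Finset.range n, ‖c.A (n • b) x (h (i + 1) - h i)‖ ≤
      M * M' * Real.exp (-ρ) * Real.exp ((ρ + ε) * n) := by
    intro i hi
    obtain ⟨j, rfl⟩ := Nat.exists_eq_add_of_le (Finset.mem_range.1 hi : i + 1 ≤ n)
    have hm := sub_mem (h1 (i + 1)) (h1 i)
    rw [add_comm (i + 1) j, add_smul, c.add _ _ _ _ (hF.le x hm)]
    refine (hM (i + 1) j _ (hF.inv _ x _ hm)).trans
      ((mul_le_mul_of_nonneg_left (h3 i) (by positivity)).trans ?_)
    rw [mul_mul_mul_comm, mul_assoc (M * M'), ← Real.exp_add, ← Real.exp_add]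
    refine mul_le_mul_of_nonneg_left (Real.exp_le_exp.2 ?_) (by positivity)
    push_cast
    nlinarith [mul_nonneg hε.le (Nat.cast_nonneg (α := ℝ) j)]
  have b3 := (norm_sum_le _ _).trans (Finset.sum_le_card_nsmul _ _ _ b2)
  rw [Finset.card_range, nsmul_eq_mul] at b3
  have b4 : (n : ℝ) ≤ Real.exp (ε * n) / ε := by
    rw [le_div_iff₀ hε]
    linarith [Real.add_one_le_exp (ε * n)]
  have b5 : (n : ℝ) * (M * M' * Real.exp (-ρ) * Real.exp ((ρ + ε) * n)) ≤
      M * M' * Real.exp (-ρ) / ε * Real.exp ((ρ + 2 * ε) * n) := by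
    refine (mul_le_mul_of_nonneg_right b4 (by positivity)).trans_eq ?_
    rw [show (ρ + 2 * ε) * n = ε * n + (ρ + ε) * n by ring, Real.exp_add (ε * n)]
    ring
  rw [qn_O, e, map_add, map_add, map_sum, add_mul, add_mul]
  refine (norm_add₃_le).trans (add_le_add (add_le_add ((h2 n).trans ?_) (b1.trans ?_)) (b3.trans b5))
  · exact mul_le_mul_of_nonneg_left b0 h0'.le
  · rw [mul_right_comm]
    exact mul_le_mul_of_nonneg_left b0 (by positivity)

/-- a vector that grows slowly modulo the expanding field `F` has a slow representative -/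
theorem Sub.lift_gap (hF : c.Sub F) {a : Γ} {ρ l ε M : ℝ} (hε : 0 < ε) (hl : ρ + 2 * ε < l)
    (h0 : 0 < M) {x : X} (hM : ∀ i n : ℕ, ∀ v ∈ F (S.act (i • a) x),
      ‖c.A (n • (-a)) (S.act (i • a) x) v‖ ≤ M * Real.exp ((-l + ε) * n + ε * i) * ‖v‖)
    {w : V} (hw : w ∈ c.E x) (hg : c.Gr F a ρ x w) :
    ∃ f ∈ F x, c.Gr (O k V X) a (ρ + ε) x (w - f) := by
  obtain ⟨h, M', h0', h1, h2, h3⟩ := hF.duhamel hw hg
  have hθ : Real.exp (-l + 2 * ε + ρ) < 1 := Real.exp_lt_one_iff.2 (by linarith)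
  have key : ∀ n j : ℕ, dist (c.A (n • a) x (h (j + n))) (c.A (n • a) x (h (j + 1 + n))) ≤
      M * M' * Real.exp (-l + 2 * ε) * Real.exp ((ρ + ε) * n) * Real.exp (-l + 2 * ε + ρ) ^ j := by
    intro n j
    have hm := sub_mem (h1 (j + n + 1)) (h1 (j + n))
    have e : n • a = (j + 1) • (-a) + (j + n + 1) • a := by
      rw [neg_nsmul, eq_neg_add_iff_add_eq, ← add_smul]
      congr 1; omega
    rw [dist_comm, dist_eq_norm, ← map_sub, add_right_comm j 1 n, e, c.add _ _ _ _ (hF.le x hm)]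
    refine (hM _ (j + 1) _ (hF.inv _ x _ hm)).trans
      ((mul_le_mul_of_nonneg_left (h3 _) (by positivity)).trans_eq ?_)
    rw [mul_mul_mul_comm, mul_assoc (M * M'), mul_assoc (M * M'), ← Real.exp_nat_mul,
      ← Real.exp_add, ← Real.exp_add, ← Real.exp_add]
    congr 2
    push_cast
    ring
  have hc : CauchySeq h := cauchySeq_of_le_geometric _ _ hθ fun j => by
    have := key 0 j
    rwa [zero_smul, add_zero, add_zero, c.zero x _ (hF.le x (h1 _)),
      c.zero x _ (hF.le x (h1 _))] at this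
  obtain ⟨f, hf⟩ := cauchySeq_tendsto_of_complete hc
  refine ⟨f, (F x).closed_of_finiteDimensional.mem_of_tendsto hf (Eventually.of_forall h1),
    M' + M * M' * Real.exp (-l + 2 * ε) / (1 - Real.exp (-l + 2 * ε + ρ)), fun n => ?_⟩
  have b1 := dist_le_of_le_geometric_of_tendsto₀ _ _ hθ (key n)
    (((c.A (n • a) x).continuous.tendsto f).comp (hf.comp (tendsto_add_atTop_nat n)))
  rw [zero_add, dist_eq_norm, ← map_sub] at b1
  have b0 : Real.exp (ρ * n) ≤ Real.exp ((ρ + ε) * n) :=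
    Real.exp_le_exp.2 (by nlinarith [mul_nonneg hε.le (Nat.cast_nonneg (α := ℝ) n)])
  rw [qn_O, ← sub_add_sub_cancel w (h n) f, map_add, add_mul]
  refine (norm_add_le _ _).trans (add_le_add
    ((h2 n).trans (mul_le_mul_of_nonneg_left b0 h0'.le)) (b1.trans_eq ?_))
  ring

/-- splitting off the top exponent -/
theorem two_block [IsProbabilityMeasure μ] (c : Coc S k V) (a : Γ)
    (hne : ∀ᵐ x ∂μ, ¬ c.E x ≤ O k V X x) : ∃ (l : ℝ) (G : X → Submodule k V), c.Sub G ∧
      c.Exact (c.Le (O k V X) (-a) (-l)) a l ∧ ∀ᵐ x ∂μ, ¬ c.Le (O k V X) (-a) (-l) x ≤ ⊥ ∧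
        (∀ v ∈ c.Le (O k V X) (-a) (-l) x, v ∈ G x → v = 0) ∧
        ∀ w ∈ c.E x, ∃ f ∈ c.Le (O k V X) (-a) (-l) x, w - f ∈ G x := by
  obtain ⟨l, h1, h2⟩ := c.sub_O.top a hne
  have hF := c.sub_O.Le (-a) (-l)
  have hFb : ∀ ε, 0 < ε → ∀ᵐ x ∂μ, ∀ v ∈ c.Le (O k V X) (-a) (-l) x,
      c.Gr (O k V X) (-a) (-l + ε) x v := fun ε hε =>
    ae_of_all _ fun x v hv => (mem_Le.1 hv).2 ε hε
  obtain ⟨ρ, hρ, h3⟩ : ∃ ρ < l, ∀ᵐ x ∂μ, c.E x ≤ c.Fw (c.Le (O k V X) (-a) (-l)) a ρ x := by
    rcases c.sub_E.ae_or hF with h | h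
    · obtain ⟨l', h3, h4⟩ := hF.top a h
      rcases lt_or_ge l' l with hl | hl
      · exact ⟨(l' + l) / 2, by linarith, h3 _ (by linarith)⟩
      exfalso
      have h5 : ∀ j : ℕ, ∀ᵐ x ∂μ, c.Le (c.Le (O k V X) (-a) (-l)) (-a) (-l') x ≤
          c.Fw (O k V X) (-a) (-l + 1 / ((j : ℝ) + 1)) x := by
        intro j
        have h0 : (0 : ℝ) < 1 / ((j : ℝ) + 1) / 3 := by positivity
        filter_upwards [hF.orbit0 (hFb _ h0) (-a) h0] with x ⟨M, hM0, hM⟩ w hw
        obtain ⟨hw1, hw2⟩ := mem_Le.1 hw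
        exact ⟨hw1, (hF.lift_same h0 hM0 hM hw1 ((hw2 _ h0).mono (by linarith))).mono (by linarith)⟩
      obtain ⟨x, hx1, hx2⟩ := (h4.and (ae_all_iff.2 h5)).exists
      exact hx1 (le_iInf hx2)
    · refine ⟨l - 1, by linarith, h.mono fun x hx v hv => ⟨hv, 0, fun n => ?_⟩⟩
      rw [qn_eq_zero.2 (hF.inv _ x v (hx hv)), zero_mul]
  have hε : 0 < (l - ρ) / 3 := by linarith
  refine ⟨l, c.Fw (O k V X) a (ρ + (l - ρ) / 3), c.sub_O.Fw _ _, ?_, ?_⟩
  · filter_upwards [ae_all_iff.2 fun j : ℕ => h1 (l + 1 / ((j : ℝ) + 1))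
      (lt_add_of_pos_right l Nat.one_div_pos_of_nat)] with x hx v hv ε hε
    have h4 : v ∈ c.Le (O k V X) a l x := (Submodule.mem_iInf _).2 fun j => hx j (hF.le x hv)
    exact ⟨(mem_Le.1 h4).2 ε hε, (mem_Le.1 hv).2 ε hε⟩
  · filter_upwards [h2, h3, hF.orbit0 (hFb _ hε) a hε, hF.disj (r := ρ + (l - ρ) / 3) (l := l)
      (by linarith) (ae_of_all _ fun x v hv => (mem_Le.1 hv).2)] with x x2 x3 ⟨M, hM0, hM⟩ x5
    refine ⟨x2, fun v hv hG => x5 v hv hG.2, fun w hw => ?_⟩
    obtain ⟨f, hf, hg⟩ := hF.lift_gap hε (by linarith) hM0 hM hw (x3 hw).2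
    exact ⟨f, hf, sub_mem hw (hF.le x hf), hg⟩

end Coc

end Pool.Agent.P.MP_d483fb_an.Os

end

end

section

open MeasureTheory Filter Topology Set

set_option linter.unusedSectionVars false
set_option linter.unusedVariables false
set_option linter.deprecated false

noncomputable section

namespace Pool.Agent.P.MP_d483fb_an.Os

variable {k Γ X V : Type} [NontriviallyNormedField k] [CompleteSpace k] [AddCommGroup Γ]
  [MeasurableSpace X] {μ : Measure X} [NormedAddCommGroup V] [NormedSpace k V]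
  [FiniteDimensional k V] [ProperSpace V]

theorem Dec.empty {W : Submodule k V} (h : W ≤ ⊥) : Dec (fun _ : Empty => (⊥ : Submodule k V)) W :=
  ⟨fun i => i.elim, fun w hw => ⟨fun i => i.elim, fun i => i.elim, by
    rw [(Submodule.mem_bot k).1 (h hw)]; simp⟩, fun _ _ _ i => i.elim⟩

theorem Dec.unit (W : Submodule k V) : Dec (fun _ : Unit => W) W :=
  ⟨fun _ => le_rfl, fun w hw => ⟨fun _ => w, fun _ => hw, by simp⟩, fun v _ h i => by simpa using h⟩

theorem Dec.option {ι : Type} [Fintype ι] {D : ι → Submodule k V} {F G W : Submodule k V}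
    (h : Dec D G) (hF : F ≤ W) (hG : G ≤ W) (h1 : ∀ v ∈ F, v ∈ G → v = 0)
    (h2 : ∀ w ∈ W, ∃ f ∈ F, w - f ∈ G) : Dec (fun o : Option ι => o.elim F D) W := by
  refine ⟨fun o => ?_, fun w hw => ?_, fun v hv h0 => ?_⟩
  · cases o with
    | none => exact hF
    | some i => exact (h.le i).trans hG
  · obtain ⟨f, hf, hg⟩ := h2 w hw
    obtain ⟨v, hv, e⟩ := h.span _ hg
    refine ⟨fun o => o.elim f v, fun o => ?_, ?_⟩
    · cases o with
      | none => exact hf
      | some i => exact hv i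
    · rw [Fintype.sum_option]
      simp only [Option.elim, e, add_sub_cancel]
  · rw [Fintype.sum_option] at h0
    have h3 : ∑ i, v (some i) ∈ G := sum_mem fun i _ => h.le i (hv (some i))
    have h4 : v none = 0 := h1 _ (hv none) (eq_neg_of_add_eq_zero_left h0 ▸ neg_mem h3)
    rw [h4, zero_add] at h0
    intro o
    cases o with
    | none => exact h4
    | some i => exact h.ind (fun i => v (some i)) (fun i => hv (some i)) h0 i

theorem Dec.sigma {ι : Type} [Fintype ι] {κ : ι → Type} [∀ i, Fintype (κ i)]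
    {D : ι → Submodule k V} {W : Submodule k V} (h : Dec D W) {D' : ∀ i, κ i → Submodule k V}
    (h' : ∀ i, Dec (D' i) (D i)) : Dec (fun p : Σ i, κ i => D' p.1 p.2) W := by
  refine ⟨fun p => ((h' p.1).le p.2).trans (h.le p.1), fun w hw => ?_, fun v hv h0 p => ?_⟩
  · obtain ⟨v, hv, e⟩ := h.span w hw
    choose u hu eu using fun i => (h' i).span _ (hv i)
    refine ⟨fun p => u p.1 p.2, fun p => hu p.1 p.2, ?_⟩
    rw [Fintype.sum_sigma]
    simp only [eu, e]
  · rw [Fintype.sum_sigma] at h0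
    exact (h' p.1).ind (fun j => v ⟨p.1, j⟩) (fun j => hv ⟨p.1, j⟩) (h.ind _
      (fun i => sum_mem fun j _ => (h' i).le j (hv ⟨i, j⟩)) h0 p.1) p.2

variable {S : Sys Γ X μ}

namespace Coc

/-- invariant fields that decompose the bundle almost everywhere -/
structure Blk (c : Coc S k V) {ι : Type} [Fintype ι] (D : ι → X → Submodule k V) : Prop where
  sub : ∀ i, c.Sub (D i)
  dec : ∀ᵐ x ∂μ, Dec (fun i => D i x) (c.E x) ∧ ∀ i, ¬ D i x ≤ ⊥

theorem blk_empty {c : Coc S k V} (h : ∀ᵐ x ∂μ, c.E x ≤ ⊥) :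
    c.Blk fun _ : Empty => O k V X :=
  ⟨fun i => i.elim, h.mono fun x hx => ⟨Dec.empty hx, fun i => i.elim⟩⟩

theorem one_split [IsProbabilityMeasure μ] (a : Γ) (d : ℕ) : ∀ c : Coc S k V,
    (∀ᵐ x ∂μ, Module.finrank k (c.E x) ≤ d) →
    ∃ (ι : Type) (_ : Fintype ι) (D : ι → X → Submodule k V) (lam : ι → ℝ), c.Blk D ∧
      Function.Injective lam ∧ ∀ i, c.Exact (D i) a (lam i) := by
  induction d with
  | zero =>
    intro c h
    exact ⟨Empty, inferInstance, _, fun i => i.elim, blk_empty (h.mono fun x hx =>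
      (Submodule.finrank_eq_zero.1 (Nat.le_zero.1 hx)).le), fun i => i.elim, fun i => i.elim⟩
  | succ d ih =>
    intro c h
    rcases c.sub_E.ae_or c.sub_O with hne | hne
    swap
    · exact ⟨Empty, inferInstance, _, fun i => i.elim, blk_empty hne, fun i => i.elim,
        fun i => i.elim⟩
    obtain ⟨l, G, hG, hex, h1⟩ := c.two_block a hne
    have hF := c.sub_O.Le (-a) (-l)
    obtain ⟨ι, _, D, lam, hb, hinj, hex'⟩ := ih (c.restrict G hG) (by
      filter_upwards [h, h1] with x hx ⟨x1, x2, x3⟩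
      refine Nat.lt_succ_iff.1 (lt_of_lt_of_le (Submodule.finrank_lt_finrank_of_lt
        (lt_of_le_of_ne (hG.le x) fun e => x1 fun v hv => ?_)) hx)
      exact x2 v hv (e.ge (hF.le x hv)))
    have hne' : ∀ i, lam i ≠ l := fun i e => by
      obtain ⟨x, ⟨-, y1⟩, ⟨-, x2, -⟩, y2⟩ := (hb.dec.and (h1.and (hex' i))).exists
      refine y1 i fun v hv => x2 v ?_ ((hb.sub i).le x hv)
      exact mem_Le.2 ⟨hG.le x ((hb.sub i).le x hv), fun ε hε => e ▸ (y2 v hv ε hε).2⟩
    refine ⟨Option ι, inferInstance, fun o => o.elim (c.Le (O k V X) (-a) (-l)) D,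
      fun o => o.elim l lam, ⟨fun o => ?_, ?_⟩, fun o o' e => ?_, fun o => ?_⟩
    · cases o with
      | none => exact hF
      | some i => exact Sub.of_restrict (h := hG) (hb.sub i)
    · filter_upwards [hb.dec, h1] with x ⟨y1, y2⟩ ⟨x1, x2, x3⟩
      refine ⟨?_, fun o => ?_⟩
      · convert y1.option (hF.le x) (hG.le x) x2 x3 using 2 with o
        cases o <;> rfl
      · cases o with
        | none => exact x1
        | some i => exact y2 i
    · cases o with
      | none =>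
        cases o' with
        | none => rfl
        | some j => exact absurd e.symm (hne' j)
      | some i =>
        cases o' with
        | none => exact absurd e (hne' i)
        | some j => exact congrArg some (hinj e)
    · cases o with
      | none => exact hex
      | some i => exact hex' i

theorem multi_split [IsProbabilityMeasure μ] (c : Coc S k V) (m : ℕ) : ∀ a : Fin m → Γ,
    ∃ (ι : Type) (_ : Fintype ι) (D : ι → X → Submodule k V) (lam : ι → Fin m → ℝ), c.Blk D ∧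
      Function.Injective lam ∧ ∀ i j, c.Exact (D i) (a j) (lam i j) := by
  induction m with
  | zero =>
    intro a
    rcases c.sub_E.ae_or c.sub_O with hne | hne
    · exact ⟨Unit, inferInstance, fun _ => c.E, fun _ => 0, ⟨fun _ => c.sub_E,
        hne.mono fun x hx => ⟨Dec.unit _, fun _ => hx⟩⟩, fun _ _ _ => rfl, fun _ j => j.elim0⟩
    · exact ⟨Empty, inferInstance, _, fun i => i.elim, blk_empty hne, fun i => i.elim,
        fun i => i.elim⟩
  | succ m ih =>
    intro a
    obtain ⟨ι, _, D, lam, hb, hinj, hex⟩ := ih (Fin.tail a)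
    choose κ hκ D' lam' hb' hinj' hex' using fun i => one_split (a 0) (Module.finrank k V)
      (c.restrict (D i) (hb.sub i)) (ae_of_all _ fun x => Submodule.finrank_le _)
    refine ⟨Σ i, κ i, inferInstance, fun p => D' p.1 p.2,
      fun p => Fin.cons (lam' p.1 p.2) (lam p.1), ⟨fun p => Sub.of_restrict (h := hb.sub p.1) ((hb' p.1).sub p.2), ?_⟩,
      ?_, fun p j => ?_⟩
    · filter_upwards [hb.dec, ae_all_iff.2 fun i => (hb' i).dec] with x hx hx'
      exact ⟨hx.1.sigma (D' := fun i j => D' i j x) fun i => (hx' i).1, fun p => (hx' p.1).2 p.2⟩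
    · rintro ⟨i, j⟩ ⟨i', j'⟩ e
      obtain ⟨e1, e2⟩ := Fin.cons_inj.1 e
      obtain rfl := hinj e2
      obtain rfl := hinj' i e1
      rfl
    · refine Fin.cases (hex' p.1 p.2) (fun j => ?_) j
      exact (hex p.1 j).mono fun x hx v hv => hx v (((hb' p.1).sub p.2).le x hv)

end Coc

end Pool.Agent.P.MP_d483fb_an.Os

end

end

section

open MeasureTheory Filter Topology Set

set_option linter.unusedSectionVars false
set_option linter.unusedVariables false
set_option linter.deprecated false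

noncomputable section

namespace Pool.Agent.P.MP_d483fb_an.Os

variable {k Γ X V : Type} [NontriviallyNormedField k] [CompleteSpace k] [AddCommGroup Γ]
  [MeasurableSpace X] {μ : Measure X} [NormedAddCommGroup V] [NormedSpace k V]
  [FiniteDimensional k V] [ProperSpace V]

theorem MSub.inf {D D' : X → Submodule k V} (h : MSub D) (h' : MSub D') :
    MSub fun x => D x ⊓ D' x := by
  refine msub_of_bdd (φ := fun n x v => max (n * qn (D x) v) (n * qn (D' x) v))
    (fun n v => (measurable_const.mul (h v)).max (measurable_const.mul (h' v)))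
    (fun n x => (continuous_const.mul (qn_cont _)).max (continuous_const.mul (qn_cont _)))
    fun x v => ⟨fun hv => ⟨0, fun n => ?_⟩, fun ⟨M, hM⟩ => ⟨mem_of_mul_le fun n =>
      (le_max_left _ _).trans (hM n), mem_of_mul_le fun n => (le_max_right _ _).trans (hM n)⟩⟩
  rw [qn_eq_zero.2 hv.1, qn_eq_zero.2 hv.2, mul_zero, max_self]

theorem MSub.finsup {ι : Type} {D : ι → X → Submodule k V} (h : ∀ i, MSub (D i)) (T : Finset ι) :
    MSub fun x => ⨆ i ∈ T, D i x := by
  classical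
  induction T using Finset.induction_on with
  | empty => simpa using msub_const (X := X) (⊥ : Submodule k V)
  | insert j T hj ih =>
    simp only [Finset.iSup_insert]
    exact (h j).sup ih

theorem sum_mem_biSup {ι : Type} {D : ι → Submodule k V} {T : Finset ι} {v : ι → V}
    (hv : ∀ i, v i ∈ D i) : ∑ i ∈ T, v i ∈ ⨆ i ∈ T, D i :=
  (Submodule.mem_iSup_finset_iff_exists_sum D _).2 ⟨fun i => ⟨v i, hv i⟩, rfl⟩

theorem dec_iff {ι : Type} [Fintype ι] [DecidableEq ι] {D : ι → Submodule k V} :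
    Dec D ⊤ ↔ (⊤ ≤ ⨆ i ∈ (Finset.univ : Finset ι), D i) ∧
      ∀ i, D i ⊓ ⨆ j ∈ Finset.univ.erase i, D j ≤ ⊥ := by
  constructor
  · intro h
    refine ⟨fun w hw => ?_, fun i w ⟨h1, h2⟩ => ?_⟩
    · obtain ⟨v, hv, rfl⟩ := h.span w hw
      exact sum_mem_biSup hv
    · obtain ⟨u, hu⟩ := (Submodule.mem_iSup_finset_iff_exists_sum D _).1 h2
      have := h.ind (Function.update (fun j => (u j : V)) i (-w)) (fun j => by
        rcases eq_or_ne j i with rfl | hj
        · rw [Function.update_self]; exact neg_mem h1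
        · rw [Function.update_of_ne hj]; exact (u j).2) (by
        rw [Finset.sum_update_of_mem (Finset.mem_univ i), ← Finset.erase_eq, hu, neg_add_cancel]) i
      rw [Function.update_self, neg_eq_zero] at this
      exact this
  · rintro ⟨h1, h2⟩
    refine ⟨fun _ => le_top, fun w hw => ?_, fun v hv h0 i => h2 i ⟨hv i, ?_⟩⟩
    · obtain ⟨u, hu⟩ := (Submodule.mem_iSup_finset_iff_exists_sum D _).1 (h1 hw)
      exact ⟨fun i => u i, fun i => (u i).2, hu⟩
    · rw [← Finset.add_sum_erase _ _ (Finset.mem_univ i)] at h0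
      rw [eq_neg_of_add_eq_zero_left h0]
      exact neg_mem (sum_mem_biSup hv)

theorem Dec.unique {ι : Type} [Fintype ι] {D : ι → Submodule k V} {W : Submodule k V}
    (h : Dec D W) {v v' : ι → V} (hv : ∀ i, v i ∈ D i) (hv' : ∀ i, v' i ∈ D i)
    (e : ∑ i, v i = ∑ i, v' i) (i : ι) : v i = v' i :=
  sub_eq_zero.1 (h.ind (fun i => v i - v' i) (fun i => sub_mem (hv i) (hv' i))
    (by rw [Finset.sum_sub_distrib, e, sub_self]) i)

theorem Dec.exists_proj {ι : Type} [Fintype ι] {D : ι → Submodule k V} (h : Dec D ⊤) :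
    ∃ P : ι → V →L[k] V, (∀ i v, P i v ∈ D i) ∧ ∀ v, ∑ i, P i v = v := by
  choose f h1 h2 using fun w => h.span w Submodule.mem_top
  refine ⟨fun i => LinearMap.toContinuousLinearMap ⟨⟨fun w => f w i, fun v w => ?_⟩, fun t w => ?_⟩,
    fun i v => h1 v i, h2⟩
  · exact h.unique (h1 _) (fun i => add_mem (h1 v i) (h1 w i))
      (by rw [Finset.sum_add_distrib, h2, h2, h2]) i
  · exact h.unique (h1 _) (fun i => Submodule.smul_mem _ t (h1 w i))
      (by rw [← Finset.smul_sum, h2, h2]) i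

theorem Dec.proj_eq {ι : Type} [Fintype ι] [DecidableEq ι] {D : ι → Submodule k V} (h : Dec D ⊤)
    {P : ι → V →L[k] V} (h1 : ∀ i v, P i v ∈ D i) (h2 : ∀ v, ∑ i, P i v = v) {j : ι} {v : V}
    (hv : v ∈ D j) (i : ι) : P i v = (Pi.single j v : ι → V) i :=
  h.unique (fun i => h1 i v) (fun i => by
    rcases eq_or_ne i j with rfl | hj
    · rwa [Pi.single_eq_same]
    · rw [Pi.single_eq_of_ne hj]; exact zero_mem _) (by rw [h2, Finset.sum_pi_single']; simp) i

theorem norm_le_qn_add {D D' : Submodule k V} (h : D ⊓ D' ≤ ⊥) :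
    ∃ C : ℝ, ∀ z, ‖z‖ ≤ C * max (qn D z) (qn D' z) := by
  have : IsClosed (D : Set V) := D.closed_of_finiteDimensional
  have : IsClosed (D' : Set V) := D'.closed_of_finiteDimensional
  obtain ⟨C, -, hC⟩ := (D.mkQ.prod D'.mkQ).exists_antilipschitzWith (by
    rw [LinearMap.ker_prod, Submodule.ker_mkQ, Submodule.ker_mkQ]
    exact le_bot_iff.1 h)
  exact ⟨C, fun z => ZeroHomClass.bound_of_antilipschitz _ hC z⟩

theorem qn_neg (N : Submodule k V) (v : V) : qn N (-v) = qn N v := by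
  unfold qn
  rw [map_neg, norm_neg]

theorem sm_proj {D D' : X → Submodule k V} (h : MSub D) (h' : MSub D') {Z : Set X}
    (hZ : MeasurableSet Z) {w : V} {f : X → V} (h0 : ∀ x ∉ Z, f x = 0)
    (h1 : ∀ x ∈ Z, D x ⊓ D' x ≤ ⊥ ∧ f x ∈ D x ∧ w - f x ∈ D' x) : StronglyMeasurable f := by
  classical
  let u := TopologicalSpace.denseSeq V
  have hu : DenseRange u := TopologicalSpace.denseRange_denseSeq V
  let p : ℕ → X → ℕ → Prop := fun n x i =>
    x ∉ Z ∨ max (qn (D x) (u i)) (qn (D' x) (w - u i)) < 1 / ((n : ℝ) + 1)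
  have hp : ∀ n x, ∃ i, p n x i := by
    intro n x
    by_cases hx : x ∈ Z
    · have ho : IsOpen {v : V | max (qn (D x) v) (qn (D' x) (w - v)) < 1 / ((n : ℝ) + 1)} :=
        isOpen_lt ((qn_cont _).max ((qn_cont _).comp (continuous_const.sub continuous_id)))
          continuous_const
      obtain ⟨i, hi⟩ := hu.exists_mem_open ho ⟨f x, by
        rw [mem_setOf_eq, qn_eq_zero.2 (h1 x hx).2.1, qn_eq_zero.2 (h1 x hx).2.2, max_self]
        exact Nat.one_div_pos_of_nat⟩
      exact ⟨i, Or.inr hi⟩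
    · exact ⟨0, Or.inl hx⟩
  have hm : ∀ n, Measurable fun x => Nat.find (hp n x) := fun n => measurable_find _ fun i =>
    hZ.compl.union (measurableSet_lt ((h _).max (h' _)) measurable_const)
  refine stronglyMeasurable_of_tendsto atTop
    (f := fun n => Z.indicator fun x => u (Nat.find (hp n x)))
    (fun n => ((StronglyMeasurable.of_discrete (f := u)).comp_measurable (hm n)).indicator hZ)
    (tendsto_pi_nhds.2 fun x => ?_)
  by_cases hx : x ∈ Z
  · obtain ⟨x1, x2, x3⟩ := h1 x hx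
    obtain ⟨C, hC⟩ := norm_le_qn_add x1
    simp only [indicator_of_mem hx]
    rw [tendsto_iff_norm_sub_tendsto_zero]
    have hl := (tendsto_one_div_add_atTop_nhds_zero_nat (𝕜 := ℝ)).const_mul |C|
    rw [mul_zero] at hl
    refine squeeze_zero (fun n => norm_nonneg _) (fun n => (hC _).trans ?_) hl
    have h2 := (Nat.find_spec (hp n x)).resolve_left (not_not.2 hx)
    have e : qn (D' x) (u (Nat.find (hp n x)) - f x) = qn (D' x) (w - u (Nat.find (hp n x))) := by
      rw [← qn_sub_mem x3, ← qn_neg (D' x) (w - _)]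
      congr 1; abel
    rw [qn_sub_mem x2, e]
    exact mul_le_mul (le_abs_self C) h2.le (le_max_of_le_left (qn_nonneg _ _)) (abs_nonneg C)
  · simp only [indicator_of_notMem hx, h0 x hx, tendsto_const_nhds]

theorem Sys.ae_const [IsProbabilityMeasure μ] (S : Sys Γ X μ) {f : X → ℕ} (hf : Measurable f)
    (hi : ∀ s x, f (S.act s x) = f x) : ∃ d, ∀ᵐ x ∂μ, f x = d := by
  by_contra h
  rw [not_exists] at h
  have := ae_all_iff.2 fun d => (S.ae_or (p := fun x => f x = d) (hf (measurableSet_singleton d))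
    fun s x hx => (hi s x).trans hx).resolve_right (h d)
  obtain ⟨x, hx⟩ := this.exists
  exact hx _ rfl

variable {S : Sys Γ X μ}

namespace Coc

variable {c : Coc S k V} {ι : Type} [Fintype ι] {D : ι → X → Submodule k V}

theorem Sub.finrank_act {D : X → Submodule k V} (h : c.Sub D) (s : Γ) (x : X) :
    Module.finrank k (D (S.act s x)) = Module.finrank k (D x) := by
  have key : ∀ s x, Module.finrank k (D x) ≤ Module.finrank k (D (S.act s x)) := fun s x =>
    LinearMap.finrank_le_finrank_of_injective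
      (f := (c.A s x : V →ₗ[k] V).restrict (p := D x) (q := D (S.act s x)) (h.inv s x))
      fun v w e => Subtype.ext (by
        rw [← c.neg_apply s (h.le x v.2), ← c.neg_apply s (h.le x w.2)]
        exact congrArg (fun z : D (S.act s x) => c.A (-s) (S.act s x) z) e)
  refine le_antisymm ?_ (key s x)
  have := key (-s) (S.act s x)
  rwa [S.neg_act] at this

theorem dec_act (hE : ∀ x, c.E x = ⊤) (h : ∀ i, c.Sub (D i)) (s : Γ) {x : X}
    (hx : Dec (fun i => D i x) ⊤) : Dec (fun i => D i (S.act s x)) ⊤ := by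
  refine ⟨fun _ => le_top, fun w _ => ?_, fun v hv h0 i => ?_⟩
  · obtain ⟨v, hv, e⟩ := hx.span (c.A (-s) (S.act s x) w) Submodule.mem_top
    refine ⟨fun i => c.A s x (v i), fun i => (h i).inv s x _ (hv i), ?_⟩
    rw [← map_sum, e, c.apply_neg s (hE _ ▸ Submodule.mem_top)]
  · rw [← c.apply_neg s ((h i).le _ (hv i)), hx.ind (fun i => c.A (-s) (S.act s x) (v i))
      (fun i => (h i).inv_neg s (hv i)) (by rw [← map_sum, h0, map_zero]) i, map_zero]

theorem Blk.proj [IsProbabilityMeasure μ] (hE : ∀ x, c.E x = ⊤) (hb : c.Blk D) :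
    ∃ (Z : Set X) (P : ι → X → V →L[k] V) (d : ι → ℕ), MeasurableSet Z ∧ (∀ᵐ x ∂μ, x ∈ Z) ∧
      (∀ s, ∀ x ∈ Z, S.act s x ∈ Z) ∧ (∀ i, StronglyMeasurable (P i)) ∧ (∀ i, 0 < d i) ∧
      (∀ i, S.Lip c.B fun x => Real.log (max 1 ‖P i x‖)) ∧
      ∀ x ∈ Z, Dec (fun i => D i x) ⊤ ∧ (∀ i, Module.finrank k (D i x) = d i) ∧
        (∀ i v, P i x v ∈ D i x) ∧ (∀ v, ∑ i, P i x v = v) ∧
        ∀ i s v, P i (S.act s x) (c.A s x v) = c.A s x (P i x v) := by
  classical
  let Y : Set X := {x | Dec (fun i => D i x) ⊤}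
  have hm := fun i => (hb.sub i).meas
  have hY : MeasurableSet Y := by
    simp only [Y, dec_iff, setOf_and, setOf_forall]
    exact ((msub_const ⊤).le_set (MSub.finsup hm _)).inter (MeasurableSet.iInter fun i =>
      ((hm i).inf (MSub.finsup hm _)).le_set (msub_const ⊥))
  have hYi : ∀ s, ∀ x ∈ Y, S.act s x ∈ Y := fun s x hx => dec_act hE hb.sub s hx
  have hYn : ∀ s, ∀ x ∉ Y, S.act s x ∉ Y := fun s x hx h => hx (S.neg_act s x ▸ hYi (-s) _ h)
  have ex : ∀ x, ∃ P : ι → V →L[k] V, (x ∉ Y → P = 0) ∧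
      (x ∈ Y → (∀ i v, P i v ∈ D i x) ∧ ∀ v, ∑ i, P i v = v) := fun x => by
    by_cases hx : x ∈ Y
    · obtain ⟨P, hP⟩ := Dec.exists_proj hx
      exact ⟨P, fun h => absurd hx h, fun _ => hP⟩
    · exact ⟨0, fun _ => rfl, fun h => absurd h hx⟩
  choose P P0 P1 using ex
  have Pm : ∀ i, StronglyMeasurable fun x => P x i := fun i => sm_of_apply fun w =>
    sm_proj (hm i) (MSub.finsup hm (Finset.univ.erase i)) hY (w := w)
      (fun x hx => by rw [P0 x hx]; rfl) fun x hx => ⟨(dec_iff.1 hx).2 i, (P1 x hx).1 i w, by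
        have := (P1 x hx).2 w
        rw [← Finset.add_sum_erase _ _ (Finset.mem_univ i)] at this
        rw [← eq_sub_of_add_eq' this]
        exact sum_mem_biSup (D := fun j => D j x) fun j => (P1 x hx).1 j w⟩
  have PI : ∀ x ∈ Y, ∀ i s v, P (S.act s x) i (c.A s x v) = c.A s x (P x i v) :=
    fun x hx i s v => Dec.unique (hYi s x hx) (fun i => (P1 _ (hYi s x hx)).1 i _)
      (fun i => (hb.sub i).inv s x _ ((P1 x hx).1 i v))
      (by rw [(P1 _ (hYi s x hx)).2, ← map_sum, (P1 x hx).2]) i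
  have rk : ∀ i, ∀ x ∈ Y, (P x i : V →ₗ[k] V).rank = Module.finrank k (D i x) := fun i x hx => by
    rw [Module.finrank_eq_rank, LinearMap.rank]
    suffices h : (P x i : V →ₗ[k] V).range = D i x by rw [h]
    refine le_antisymm (by rintro _ ⟨v, rfl⟩; exact (P1 x hx).1 i v) fun v hv => ⟨v, ?_⟩
    have := Dec.proj_eq hx (P1 x hx).1 (P1 x hx).2 hv i
    rwa [Pi.single_eq_same] at this
  have rm : ∀ i, Measurable (Y.indicator fun x => Module.finrank k (D i x)) := fun i => by
    borelize (V →L[k] V)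
    refine measurable_of_Ici fun n => ?_
    convert (Pm i).measurable (isOpen_setOfPred_nat_le_rank n).measurableSet using 1
    ext x
    by_cases hx : x ∈ Y
    · simp only [mem_preimage, mem_Ici, indicator_of_mem hx, mem_setOf_eq, rk i x hx, Nat.cast_le]
    · simp [indicator_of_notMem hx, P0 x hx]
  choose d hd using fun i => S.ae_const (rm i) fun s x => by
    by_cases hx : x ∈ Y
    · rw [indicator_of_mem hx, indicator_of_mem (hYi s x hx), (hb.sub i).finrank_act]
    · rw [indicator_of_notMem hx, indicator_of_notMem (hYn s x hx)]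
  have hae : ∀ᵐ x ∂μ, x ∈ Y := hb.dec.mono fun x hx => by
    have := hx.1
    rwa [hE] at this
  refine ⟨Y ∩ ⋂ i, {x | Y.indicator (fun x => Module.finrank k (D i x)) x = d i}, fun i x => P x i,
    d, hY.inter (MeasurableSet.iInter fun i => rm i (measurableSet_singleton _)), ?_,
    fun s x hx => ⟨hYi s x hx.1, mem_iInter.2 fun i => ?_⟩, Pm, fun i => ?_, fun i s x => ?_,
    fun x hx => ⟨hx.1, fun i => ?_, (P1 x hx.1).1, (P1 x hx.1).2, PI x hx.1⟩⟩
  · filter_upwards [hae, ae_all_iff.2 hd] with x h1 h2 using ⟨h1, mem_iInter.2 h2⟩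
  · have := mem_iInter.1 hx.2 i
    rw [mem_setOf_eq, indicator_of_mem hx.1] at this
    rw [mem_setOf_eq, indicator_of_mem (hYi s x hx.1), (hb.sub i).finrank_act, this]
  · obtain ⟨x, h1, h2, h3⟩ := (hae.and ((hd i).and hb.dec)).exists
    rw [indicator_of_mem h1] at h2
    rw [← h2, pos_iff_ne_zero]
    exact fun e => h3.2 i (Submodule.finrank_eq_zero.1 e).le
  · refine log_max_le (c.B_nonneg s) (?_ : ‖P (S.act s x) i‖ ≤ _ * ‖P x i‖)
    by_cases hx : x ∈ Y
    · refine ContinuousLinearMap.opNorm_le_bound _ (by positivity) fun w => ?_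
      have h1 := c.bound (-s) (S.act s x) w (hE _ ▸ Submodule.mem_top)
      rw [← c.apply_neg s (w := w) (hE _ ▸ Submodule.mem_top), PI x hx,
        c.apply_neg s (hE _ ▸ Submodule.mem_top)]
      refine (c.bound s x _ (hE _ ▸ Submodule.mem_top)).trans ((mul_le_mul_of_nonneg_left
        (((P x i).le_opNorm _).trans (mul_le_mul_of_nonneg_left h1 (norm_nonneg _)))
        (Real.exp_pos _).le).trans_eq ?_)
      rw [B, Real.exp_add]; ring
    · rw [P0 _ (hYn s x hx), P0 x hx]; simp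
  · have := mem_iInter.1 hx.2 i
    rwa [mem_setOf_eq, indicator_of_mem hx.1] at this

end Coc

end Pool.Agent.P.MP_d483fb_an.Os

end

end

section

open MeasureTheory Filter Topology Set

set_option linter.unusedSectionVars false
set_option linter.unusedVariables false
set_option linter.deprecated false

noncomputable section

namespace Pool.Agent.P.MP_d483fb_an.Os

variable {k Γ X V : Type} [NontriviallyNormedField k] [CompleteSpace k] [AddCommGroup Γ]
  [MeasurableSpace X] {μ : Measure X} [NormedAddCommGroup V] [NormedSpace k V]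
  [FiniteDimensional k V] [ProperSpace V]

/-- lattice point -/
def pt {m : ℕ} (a : Fin m → Γ) (n : Fin m → ℤ) : Γ := ∑ j, n j • a j

/-- size of an integer vector -/
def n1 {m : ℕ} (n : Fin m → ℤ) : ℝ := ∑ j, |(n j : ℝ)|

theorem pt_add {m : ℕ} (a : Fin m → Γ) (n u : Fin m → ℤ) : pt a (n + u) = pt a n + pt a u := by
  simp only [pt, Pi.add_apply, add_smul, Finset.sum_add_distrib]

theorem pt_zero {m : ℕ} (a : Fin m → Γ) : pt a 0 = 0 := by simp [pt]

theorem n1_zero {m : ℕ} : n1 (0 : Fin m → ℤ) = 0 := by simp [n1]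

theorem n1_nonneg {m : ℕ} (n : Fin m → ℤ) : 0 ≤ n1 n := Finset.sum_nonneg fun _ _ => abs_nonneg _

theorem n1_add {m : ℕ} (n u : Fin m → ℤ) : n1 (n + u) ≤ n1 n + n1 u := by
  simp only [n1, Pi.add_apply, Int.cast_add, ← Finset.sum_add_distrib]
  exact Finset.sum_le_sum fun j _ => abs_add_le _ _

theorem Sys.slow (S : Sys Γ X μ) {m : ℕ} (a : Fin m → Γ) {B : Γ → ℝ} (hB : ∀ s, 0 ≤ B s)
    {κ : Type} [Countable κ] {f : κ → X → ℝ} (hm : ∀ i, Measurable (f i))
    (hl : ∀ i, S.Lip B (f i)) {ε : ℝ} (hε : 0 ≤ ε)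
    (hae : ∀ᵐ x ∂μ, ∃ M, ∀ i n, f i (S.act (pt a n) x) ≤ M + ε * n1 n) :
    ∃ (Z : Set X) (q : X → ℝ), MeasurableSet Z ∧ (∀ᵐ x ∂μ, x ∈ Z) ∧
      (∀ s, ∀ x ∈ Z, S.act s x ∈ Z) ∧ Measurable q ∧ (∀ x, 0 ≤ q x) ∧ S.Lip B q ∧
      ∀ x ∈ Z, (∀ i, f i x ≤ q x) ∧ ∀ n, q (S.act (pt a n) x) ≤ q x + ε * n1 n := by
  let F : Option κ × (Fin m → ℤ) → X → ℝ := fun o x =>
    o.1.elim 0 (fun i => f i (S.act (pt a o.2) x)) - ε * n1 o.2
  have Fm : ∀ o, Measurable (F o) := by
    rintro ⟨_ | i, n⟩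
    · exact measurable_const (a := 0 - ε * n1 n)
    · exact ((hm i).comp (S.meas _)).sub_const _
  have Fl : ∀ o, S.Lip B (F o) := by
    rintro ⟨_ | i, n⟩ s x
    · exact le_add_of_nonneg_right (hB s)
    · have := hl i s (S.act (pt a n) x)
      rw [S.comm] at this
      simp only [F, Option.elim]
      linarith
  refine ⟨{x | BddAbove (range fun o => F o x)}, fun x => ⨆ o, F o x,
    measurableSet_bddAbove_range Fm, hae.mono fun x ⟨M, hM⟩ => ⟨max M 0, ?_⟩,
    fun s x ⟨M, hM⟩ => ⟨M + B s, ?_⟩, Measurable.iSup Fm,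
    fun x => Real.iSup_nonneg' ⟨(none, 0), by simp [F, n1_zero]⟩, S.sup_lip hB Fl,
    fun x hx => ⟨fun i => ?_, fun u => ciSup_le fun o => ?_⟩⟩
  · rintro _ ⟨⟨_ | i, n⟩, rfl⟩
    · simp only [F, Option.elim]
      linarith [le_max_right M 0, mul_nonneg hε (n1_nonneg n)]
    · simp only [F, Option.elim]
      linarith [le_max_left M 0, hM i n]
  · rintro _ ⟨o, rfl⟩
    exact (Fl o s x).trans (add_le_add (hM ⟨o, rfl⟩) le_rfl)
  · have := le_ciSup hx (some i, 0)
    simpa only [F, Option.elim, pt_zero, n1_zero, S.zero, mul_zero, sub_zero] using this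
  · refine le_trans ?_ (add_le_add (le_ciSup hx (o.1, o.2 + u)) le_rfl)
    simp only [F, pt_add, S.add]
    linarith [mul_le_mul_of_nonneg_left (n1_add o.2 u) hε]

variable {S : Sys Γ X μ}

namespace Coc

variable {c : Coc S k V}

theorem two_sided {a : Γ} {l : ℝ} (h : c.Exact c.E a l) {ε : ℝ} (hε : 0 < ε) :
    ∃ q : X → ℝ, Measurable q ∧ (∀ x, 0 ≤ q x) ∧ S.Lip c.B q ∧ ∀ᵐ x ∂μ, ∀ n : ℤ,
      c.nq (O k V X) (n • a) x ≤ Real.exp (q x + l * n + ε * |(n : ℝ)|) := by
  obtain ⟨q1, m1, p1, l1, h1⟩ := c.sub_O.lip_bound (a := a) (r := l + ε)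
    (h.mono fun x hx v hv => ⟨hv, (hx v hv ε hε).1⟩)
  obtain ⟨q2, m2, p2, l2, h2⟩ := c.sub_O.lip_bound (a := -a) (r := -l + ε)
    (h.mono fun x hx v hv => ⟨hv, (hx v hv ε hε).2⟩)
  refine ⟨fun x => max (q1 x) (q2 x), m1.max m2, fun x => le_max_of_le_left (p1 x), fun s x => ?_, ?_⟩
  · rw [← max_add_add_right]
    exact max_le_max (l1 s x) (l2 s x)
  · filter_upwards [h1, h2] with x x1 x2 n
    obtain ⟨j, rfl | rfl⟩ := n.eq_nat_or_neg
    · simp only [natCast_zsmul, Int.cast_natCast, Nat.abs_cast]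
      exact (x1 j).trans (Real.exp_le_exp.2 (by linarith [le_max_left (q1 x) (q2 x)]))
    · have := x2 j
      rw [neg_nsmul] at this
      simp only [neg_smul, natCast_zsmul, Int.cast_neg, Int.cast_natCast, abs_neg, Nat.abs_cast]
      exact this.trans (Real.exp_le_exp.2 (by linarith [le_max_right (q1 x) (q2 x)]))

theorem lattice_bound [IsFiniteMeasure μ] {m : ℕ} {a : Fin m → Γ} {l : Fin m → ℝ}
    (h : ∀ j, c.Exact c.E (a j) (l j)) {ε : ℝ} (hε : 0 < ε) : ∀ᵐ x ∂μ, ∃ M : ℝ, ∀ n u,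
      c.nq (O k V X) (pt a n) (S.act (pt a u) x) ≤
        Real.exp (M + ∑ j, l j * n j + ε * (n1 n + n1 u)) := by
  classical
  have hm : (0 : ℝ) < m + 1 := by positivity
  have hε' : 0 < ε / (m + 1) := div_pos hε hm
  choose q qm q0 ql hq using fun j => two_sided (h j) hε'
  obtain ⟨q', -, -, h1⟩ := S.temper (B := fun s => m * c.B s)
    (fun s => mul_nonneg m.cast_nonneg (c.B_nonneg s)) a hε' Finset.univ
    (q := fun x => ∑ j, q j x) (Finset.measurable_sum _ fun j _ => qm j) (fun s x => by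
      refine (Finset.sum_le_sum fun j _ => ql j s x).trans_eq ?_
      rw [Finset.sum_add_distrib, Finset.sum_const, Finset.card_univ, Fintype.card_fin,
        nsmul_eq_mul])
  filter_upwards [h1, ae_all_iff.2 fun u : Fin m → ℤ => ae_all_iff.2 fun j =>
    S.ae_act (hq j) (pt a u)] with x x1 x2
  refine ⟨m * |q' x|, fun n u => ?_⟩
  have key : ∀ T : Finset (Fin m), c.nq (O k V X) (∑ j ∈ T, n j • a j) (S.act (pt a u) x) ≤
      Real.exp (T.card * (|q' x| + ε / (m + 1) * (n1 n + n1 u)) +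
        ∑ j ∈ T, (l j * n j + ε / (m + 1) * |(n j : ℝ)|)) := by
    intro T
    induction T using Finset.induction_on with
    | empty => simpa using c.sub_O.nq_zero_le _
    | insert j T hj ih =>
      let w : Fin m → ℤ := fun i => if i ∈ T then n i else 0
      have e : ∑ j ∈ T, n j • a j = pt a w := by
        simp only [pt, w, ite_smul, zero_smul, Finset.sum_ite_mem, Finset.univ_inter]
      have hw : n1 w ≤ n1 n := Finset.sum_le_sum fun i _ => by
        simp only [w]
        split_ifs <;> simp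
      have h2 := x2 (w + u) j (n j)
      have h3 : ∑ i, q i (S.act (pt a (w + u)) x) ≤ q' x + ε / (m + 1) * n1 (w + u) := x1 (w + u)
      have h4 := Finset.single_le_sum (f := fun i => q i (S.act (pt a (w + u)) x))
        (fun i _ => q0 i _) (Finset.mem_univ j)
      have h5 := mul_le_mul_of_nonneg_left ((n1_add w u).trans (add_le_add hw le_rfl)) hε'.le
      rw [Finset.sum_insert hj, Finset.sum_insert hj, Finset.card_insert_of_notMem hj]
      refine (c.sub_O.nq_add _ _ _).trans ?_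
      rw [e, ← S.add, ← pt_add]
      rw [e] at ih
      refine (mul_le_mul h2 ih (nq_nonneg _ _) (Real.exp_pos _).le).trans ?_
      rw [← Real.exp_add, Real.exp_le_exp]
      push_cast
      linarith [le_abs_self (q' x)]
  refine (key Finset.univ).trans (Real.exp_le_exp.2 ?_)
  rw [Finset.card_univ, Fintype.card_fin, Finset.sum_add_distrib, ← Finset.mul_sum]
  have h6 : ε * (n1 n + n1 u) = (m + 1) * (ε / (m + 1) * (n1 n + n1 u)) := by field_simp
  have h7 := mul_nonneg hε'.le (n1_nonneg u)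
  rw [h6]
  change _ + (_ + ε / (m + 1) * n1 n) ≤ _
  linarith

/-- one slowly varying function for all the blocks and projections -/
theorem exists_slow [IsFiniteMeasure μ] {ι : Type} [Fintype ι] {D : ι → X → Submodule k V}
    (hD : ∀ i, c.Sub (D i)) {m : ℕ} {a : Fin m → Γ} {l : ι → Fin m → ℝ}
    (h : ∀ i j, c.Exact (D i) (a j) (l i j)) {P : ι → X → V →L[k] V}
    (hP : ∀ i, StronglyMeasurable (P i)) (hP' : ∀ i, S.Lip c.B fun x => Real.log (max 1 ‖P i x‖))
    {ε : ℝ} (hε : 0 < ε) : ∃ (Z : Set X) (q : X → ℝ), MeasurableSet Z ∧ (∀ᵐ x ∂μ, x ∈ Z) ∧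
      (∀ s, ∀ x ∈ Z, S.act s x ∈ Z) ∧ Measurable q ∧ (∀ x, 0 ≤ q x) ∧ S.Lip c.B q ∧
      ∀ x ∈ Z, (∀ n, q (S.act (pt a n) x) ≤ q x + ε * n1 n) ∧ ∀ i, ‖P i x‖ ≤ Real.exp (q x) ∧
        ∀ n, ∀ v ∈ D i x,
          ‖c.A (pt a n) x v‖ ≤ Real.exp (q x + ∑ j, l i j * n j + ε * n1 n) * ‖v‖ := by
  let f : ι × Option (Fin m → ℤ) → X → ℝ := fun o x => Real.log (max 1 (o.2.elim ‖P o.1 x‖
    fun n => (c.restrict (D o.1) (hD o.1)).nq (O k V X) (pt a n) x *
      Real.exp (-(∑ j, l o.1 j * n j + ε * n1 n))))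
  have hle : ∀ {y t : ℝ}, Real.log (max 1 y) ≤ t → y ≤ Real.exp t := fun h =>
    (le_max_right _ _).trans ((Real.log_le_iff_le_exp (lt_max_of_lt_left one_pos)).1 h)
  obtain ⟨Z, q, z1, z2, z3, z4, z5, z6, z7⟩ := S.slow a c.B_nonneg (f := f) (ε := ε) (by
      rintro ⟨i, _ | n⟩
      · exact (measurable_const.max (hP i).norm.measurable).log
      · exact (measurable_const.max (((c.restrict _ (hD i)).sub_O.nq_meas _).mul_const _)).log)
    (by
      rintro ⟨i, _ | n⟩
      · exact hP' i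
      · refine fun s x => log_max_le (c.B_nonneg s) ?_
        simp only [Option.elim]
        rw [← mul_assoc]
        exact mul_le_mul_of_nonneg_right ((c.restrict _ (hD i)).sub_O.nq_act _ s x)
          (Real.exp_pos _).le) hε.le (by
      choose p _ _ hp using fun i => S.temper c.B_nonneg a hε Finset.univ
        (measurable_const.max (hP i).norm.measurable).log (hP' i)
      filter_upwards [ae_all_iff.2 hp, ae_all_iff.2 fun i =>
        lattice_bound (c := c.restrict _ (hD i)) (h i) hε] with x x1 x2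
      choose M hM using x2
      refine ⟨∑ i, (|p i x| + |M i|), ?_⟩
      rintro ⟨i, o⟩ u
      have h1 := Finset.single_le_sum (f := fun i => |p i x| + |M i|)
        (fun i _ => by positivity) (Finset.mem_univ i)
      have h2 := mul_nonneg hε.le (n1_nonneg u)
      cases o with
      | none =>
        refine (x1 i u).trans ?_
        change _ + ε * n1 u ≤ _
        linarith [le_abs_self (p i x), abs_nonneg (M i)]
      | some n =>
        rw [Real.log_le_iff_le_exp (lt_max_of_lt_left one_pos)]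
        refine max_le (Real.one_le_exp (by linarith [abs_nonneg (p i x), abs_nonneg (M i)])) ?_
        refine (mul_le_mul_of_nonneg_right (hM i n u) (Real.exp_pos _).le).trans ?_
        rw [← Real.exp_add, Real.exp_le_exp]
        linarith [le_abs_self (M i), abs_nonneg (p i x)])
  refine ⟨Z, q, z1, z2, z3, z4, z5, z6, fun x hx => ⟨(z7 x hx).2, fun i =>
    ⟨hle ((z7 x hx).1 (i, none)), fun n v hv => ((hD i).norm_le _ hv).trans
      (mul_le_mul_of_nonneg_right ?_ (norm_nonneg v))⟩⟩⟩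
  have := hle ((z7 x hx).1 (i, some n))
  simp only [Option.elim] at this
  rwa [Real.exp_neg, mul_inv_le_iff₀ (Real.exp_pos _), ← Real.exp_add, ← add_assoc] at this

end Coc

end Pool.Agent.P.MP_d483fb_an.Os

end

end

section

open MeasureTheory Filter Topology Set

set_option linter.unusedSectionVars false
set_option linter.unusedVariables false
set_option linter.deprecated false

noncomputable section

namespace Pool.Agent.P.MP_d483fb_an.Os

variable {k Γ X V : Type} [NontriviallyNormedField k] [CompleteSpace k] [SeminormedAddCommGroup Γ]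
  [MeasurableSpace X] {μ : Measure X} [NormedAddCommGroup V] [NormedSpace k V]
  [FiniteDimensional k V] [ProperSpace V]

theorem Gen.R_nonneg (g : Gen Γ) : 0 ≤ g.R := (norm_nonneg _).trans (g.rem_le 0)

theorem Gen.split (g : Gen Γ) (s : Γ) : ∃ (r : Γ) (n : Fin g.m → ℤ), s = r + pt g.a n ∧
    ‖r‖ ≤ g.R ∧ n1 n ≤ g.m * (g.R * ‖s‖ + 1) ∧ ∀ j, |(n j : ℝ) - g.l s j| ≤ 1 := by
  have h : ∀ j, |((⌊g.l s j⌋ : ℤ) : ℝ) - g.l s j| ≤ 1 := fun j => by
    rw [abs_le]
    constructor <;> linarith [Int.floor_le (g.l s j), Int.lt_floor_add_one (g.l s j)]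
  refine ⟨s - pt g.a fun j => ⌊g.l s j⌋, fun j => ⌊g.l s j⌋, (sub_add_cancel _ _).symm,
    g.rem_le s, ?_, h⟩
  refine (Finset.sum_le_card_nsmul _ _ (g.R * ‖s‖ + 1) fun j _ => ?_).trans_eq ?_
  · have := abs_sub_abs_le_abs_sub ((⌊g.l s j⌋ : ℤ) : ℝ) (g.l s j)
    linarith [h j, g.l_le s j]
  · rw [Finset.card_univ, Fintype.card_fin, nsmul_eq_mul]

/-- linear form with given values on the generators -/
def Gen.form (g : Gen Γ) (l : Fin g.m → ℝ) : Γ →+ ℝ where
  toFun s := ∑ j, l j * g.l s j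
  map_zero' := by simp
  map_add' s t := by simp only [map_add, Pi.add_apply, mul_add, Finset.sum_add_distrib]

theorem Gen.form_a (g : Gen Γ) (l : Fin g.m → ℝ) (j : Fin g.m) : g.form l (g.a j) = l j := by
  change ∑ i, l i * g.l (g.a j) i = _
  simp [g.l_a, Pi.single_apply]

theorem Gen.form_le (g : Gen Γ) (l : Fin g.m → ℝ) (s : Γ) :
    |g.form l s| ≤ (∑ j, |l j|) * g.R * ‖s‖ := by
  refine (Finset.abs_sum_le_sum_abs (fun j => l j * g.l s j) Finset.univ).trans ?_
  rw [mul_assoc, Finset.sum_mul]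
  refine Finset.sum_le_sum fun j _ => ?_
  rw [abs_mul]
  exact mul_le_mul_of_nonneg_left (g.l_le s j) (abs_nonneg _)

theorem Gen.form_near (g : Gen Γ) (l : Fin g.m → ℝ) {s : Γ} {n : Fin g.m → ℤ}
    (h : ∀ j, |(n j : ℝ) - g.l s j| ≤ 1) : ∑ j, l j * n j ≤ g.form l s + ∑ j, |l j| := by
  change _ ≤ ∑ j, l j * g.l s j + _
  rw [← Finset.sum_add_distrib]
  refine Finset.sum_le_sum fun j _ => ?_
  have := (le_abs_self _).trans ((abs_mul (l j) _).trans_le
    (mul_le_of_le_one_right (abs_nonneg _) (h j)))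
  linarith

/-- Multiplicative ergodic theorem for bounded cocycles over `ℤ`, `ℤ^m`, `ℝ^m`. -/
theorem oseledets [IsProbabilityMeasure μ] {S : Sys Γ X μ} (g : Gen Γ) (c : Coc S k V)
    (hE : ∀ x, c.E x = ⊤) {L : ℝ} (hL : ∀ s, c.K s ≤ L * (‖s‖ + 1)) :
    ∃ (ι : Type) (_ : Fintype ι), Nonempty (Ose c ι) := by
  classical
  obtain ⟨ι, _, D, l, hb, hinj, hex⟩ := c.multi_split g.m g.a
  obtain ⟨Z, P, d, z1, z2, z3, hP, hd, hP', hZ⟩ := hb.proj hE
  have hpos : ∀ j : ℕ, (0 : ℝ) < 1 / (j + 1) := fun j => by positivity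
  choose W q w1 w2 w3 q1 q2 q3 hq using fun j : ℕ => Coc.exists_slow hb.sub hex hP hP' (hpos j)
  have hR := g.R_nonneg
  have hL0 : 0 ≤ L := by simpa using (c.K_nonneg 0).trans (hL 0)
  have hK : ∀ r, ‖r‖ ≤ g.R → c.K r ≤ L * (g.R + 1) := fun r hr =>
    (hL r).trans (mul_le_mul_of_nonneg_left (add_le_add hr le_rfl) hL0)
  have hK0 : 0 ≤ L * (g.R + 1) := by positivity
  set Λ := ∑ i, ∑ j, |l i j| with hΛ
  have hΛi : ∀ i, ∑ j, |l i j| ≤ Λ := fun i => Finset.single_le_sum
    (f := fun i => ∑ j, |l i j|) (fun i _ => by positivity) (Finset.mem_univ i)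
  have hΛ0 : 0 ≤ Λ := by positivity
  have hm : (0 : ℝ) ≤ g.m := g.m.cast_nonneg
  have mem : ∀ x v, v ∈ c.E x := fun x v => by rw [hE]; exact Submodule.mem_top
  refine ⟨ι, inferInstance, ⟨⟨D, P, fun i => g.form (l i), Z ∩ ⋂ j, W j,
    g.m + 2 * (L * (g.R + 1)) + Λ * g.R, d, fun i i' e => hinj (funext fun j => ?_),
    fun i s => (g.form_le _ s).trans (mul_le_mul_of_nonneg_right ?_ (norm_nonneg s)),
    by positivity, hb.sub, hP, z1.inter (MeasurableSet.iInter w1), ?_,
    fun s x hx => ⟨z3 s x hx.1, mem_iInter.2 fun j => w3 j s x (mem_iInter.1 hx.2 j)⟩,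
    fun x hx => (hZ x hx.1).1, hd, fun x hx => (hZ x hx.1).2.1, fun x hx => (hZ x hx.1).2.2.1,
    fun x hx => (hZ x hx.1).2.2.2.1, fun x hx i v hv => ?_, fun x hx i j hij v hv => ?_,
    fun x hx => (hZ x hx.1).2.2.2.2, fun ε hε => ?_⟩⟩⟩
  · rw [← g.form_a (l i), ← g.form_a (l i')]
    exact DFunLike.congr_fun e _
  · linarith [mul_le_mul_of_nonneg_right (hΛi i) hR]
  · filter_upwards [z2, ae_all_iff.2 w2] with x x1 x2 using ⟨x1, mem_iInter.2 x2⟩
  · rw [(hZ x hx.1).1.proj_eq (hZ x hx.1).2.2.1 (hZ x hx.1).2.2.2.1 hv, Pi.single_eq_same]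
  · rw [(hZ x hx.1).1.proj_eq (hZ x hx.1).2.2.1 (hZ x hx.1).2.2.2.1 hv, Pi.single_eq_of_ne hij]
  obtain ⟨j, hj⟩ := exists_nat_one_div_lt (K := ℝ) (ε := ε / (2 * (g.m * g.R + 1)))
    (by positivity)
  have h1 : (1 : ℝ) / (j + 1) ≤ 1 := by
    rw [div_le_one (by positivity)]
    linarith [j.cast_nonneg (α := ℝ)]
  have h2 : ∀ (s : Γ) (n : Fin g.m → ℤ), n1 n ≤ g.m * (g.R * ‖s‖ + 1) →
      1 / (j + 1) * n1 n ≤ ε / 2 * ‖s‖ + g.m := fun s n hn => by
    rw [lt_div_iff₀ (by positivity)] at hj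
    have h3 : 1 / (j + 1 : ℝ) * (g.m * g.R) ≤ ε / 2 := by linarith [hpos j]
    have h4 := mul_le_mul_of_nonneg_right h3 (norm_nonneg s)
    have h5 := mul_le_mul_of_nonneg_right h1 hm
    linarith [mul_le_mul_of_nonneg_left hn (hpos j).le]
  have slow : ∀ s, ∀ x ∈ W j, q j (S.act s x) ≤
      q j x + ε / 2 * ‖s‖ + (g.m + 2 * (L * (g.R + 1))) := fun s x hx => by
    obtain ⟨r, n, e, hr, hn, -⟩ := g.split s
    have h3 := q3 j r (S.act (pt g.a n) x)
    rw [← S.add, ← e, Coc.B] at h3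
    linarith [(hq j x hx).1 n, h2 s n hn, hK r hr, hK (-r) (by rwa [norm_neg])]
  have up : ∀ x ∈ W j, ∀ i s, ∀ v ∈ D i x, ‖c.A s x v‖ ≤ Real.exp (q j x + g.form (l i) s +
      ε / 2 * ‖s‖ + (L * (g.R + 1) + Λ + g.m)) * ‖v‖ := fun x hx i s v hv => by
    obtain ⟨r, n, e, hr, hn, hn'⟩ := g.split s
    have h3 := c.add r (pt g.a n) x v (mem _ _)
    rw [← e] at h3
    rw [h3]
    refine (c.bound _ _ _ (mem _ _)).trans ((mul_le_mul_of_nonneg_left
      (((hq j x hx).2 i).2 n v hv) (Real.exp_pos _).le).trans ?_)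
    rw [← mul_assoc, ← Real.exp_add]
    refine mul_le_mul_of_nonneg_right (Real.exp_le_exp.2 ?_) (norm_nonneg v)
    linarith [hK r hr, h2 s n hn, g.form_near (l i) hn', hΛi i]
  refine ⟨fun x => q j x + (g.m + 2 * (L * (g.R + 1))) + (L * (g.R + 1) + Λ + g.m),
    ((q1 j).add_const _).add_const _, fun x => by linarith [q2 j x], fun s x hx => ?_,
    fun x hx i => ⟨?_, fun s v hv => ⟨?_, ?_⟩⟩⟩
  · linarith [slow s x (mem_iInter.1 hx.2 j), mul_nonneg hΛ0 hR, mul_nonneg hε.le (norm_nonneg s)]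
  · exact ((hq j x (mem_iInter.1 hx.2 j)).2 i).1.trans (Real.exp_le_exp.2 (by linarith))
  · refine (up x (mem_iInter.1 hx.2 j) i s v hv).trans
      (mul_le_mul_of_nonneg_right (Real.exp_le_exp.2 ?_) (norm_nonneg v))
    linarith [mul_nonneg hε.le (norm_nonneg s)]
  · have h3 := up _ (w3 j s x (mem_iInter.1 hx.2 j)) i (-s) _ ((hb.sub i).inv s x v hv)
    rw [c.neg_apply s (mem _ _), map_neg, norm_neg] at h3
    refine h3.trans (mul_le_mul_of_nonneg_right (Real.exp_le_exp.2 ?_) (norm_nonneg _))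
    linarith [slow s x (mem_iInter.1 hx.2 j)]

end Pool.Agent.P.MP_d483fb_an.Os

end

end

section

open MeasureTheory Filter Topology Set

set_option linter.unusedSectionVars false
set_option linter.unusedVariables false
set_option linter.deprecated false

noncomputable section

namespace Pool.Agent.P.MP_d483fb_an.Os

variable {k X V : Type} [NontriviallyNormedField k] [CompleteSpace k]
  [MeasurableSpace X] [NormedAddCommGroup V] [NormedSpace k V]
  [FiniteDimensional k V] [ProperSpace V]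

/-- every norm is uniformly equivalent to the given one after a linear change of coordinates -/
theorem exists_straight (k V : Type) [NontriviallyNormedField k] [CompleteSpace k]
    [NormedAddCommGroup V] [NormedSpace k V] [FiniteDimensional k V] [ProperSpace V] :
    ∃ C : ℝ, 1 ≤ C ∧ ∀ N : Seminorm k V, Continuous N → (∃ c : ℝ, ∀ v, ‖v‖ ≤ c * N v) →
      ∃ R : V →L[k] V, ∀ v, N v ≤ C * ‖R v‖ ∧ ‖R v‖ ≤ C * N v := by
  classical
  let b := Module.finBasis k V
  obtain ⟨t, ht⟩ := NormedField.exists_one_lt_norm k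
  let φ := fun i => LinearMap.toContinuousLinearMap (b.coord i)
  refine ⟨1 + ∑ i, ‖φ i‖ + (∑ i, ‖b i‖) * ‖t‖, by
    linarith [show 0 ≤ ∑ i, ‖φ i‖ by positivity, show 0 ≤ (∑ i, ‖b i‖) * ‖t‖ by positivity],
    fun N hN ⟨c, hc⟩ => ?_⟩
  have hK : IsCompact {v | N v ≤ 1} :=
    (isCompact_closedBall (0 : V) |c|).of_isClosed_subset (isClosed_le hN continuous_const)
      fun v hv => by
        rw [mem_closedBall_zero_iff]
        exact (hc v).trans ((mul_le_mul_of_nonneg_right (le_abs_self c) (apply_nonneg N v)).trans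
          (mul_le_of_le_one_right (abs_nonneg c) hv))
  have hdet : Continuous fun v : Fin (Module.finrank k V) → V => ‖b.det v‖ := by
    simp only [Module.Basis.det_apply]
    refine (Continuous.matrix_det (continuous_matrix fun i j => ?_)).norm
    exact (φ i).continuous.comp (continuous_apply j)
  obtain ⟨v, hv, hmax⟩ := (isCompact_univ_pi fun _ : Fin (Module.finrank k V) => hK).exists_isMaxOn
    ⟨0, fun i _ => by simp⟩ hdet.continuousOn
  have shell : ∀ w, w ≠ 0 → ∃ d : k, d ≠ 0 ∧ N (d • w) ≤ 1 ∧ ‖d‖⁻¹ ≤ ‖t‖ * N w := fun w hw => by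
    obtain ⟨d, d0, d1, -, d2⟩ := N.rescale_to_shell ht one_pos (x := w) fun e => by
      have := hc w
      rw [e, mul_zero] at this
      exact hw (norm_le_zero_iff.1 this)
    exact ⟨d, d0, d1.le, by simpa using d2⟩
  have hv0 : b.det v ≠ 0 := by
    choose d d0 d1 _ using fun i => shell (b i) (b.ne_zero i)
    have h1 : ‖b.det fun i => d i • b i‖ ≤ ‖b.det v‖ := hmax (a := fun i => d i • b i) fun i _ => d1 i
    rw [AlternatingMap.map_smul_univ, b.det_self, smul_eq_mul, mul_one] at h1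
    exact norm_pos_iff.1 ((norm_pos_iff.2 (Finset.prod_ne_zero_iff.2 fun i _ => d0 i)).trans_le h1)
  obtain ⟨hli, hsp⟩ := b.is_basis_iff_det.2 hv0.isUnit
  let e := Module.Basis.mk hli hsp.ge
  have hco : ∀ i w, ‖e.coord i w‖ ≤ ‖t‖ * N w := fun i w => by
    rcases eq_or_ne w 0 with rfl | hw
    · simp
    obtain ⟨d, d0, d1, d2⟩ := shell w hw
    have h1 : ‖b.det (Function.update v i (d • w))‖ ≤ ‖b.det v‖ :=
      hmax (a := Function.update v i (d • w)) fun j _ => by
        rcases eq_or_ne j i with rfl | hj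
        · rwa [Function.update_self]
        · rw [Function.update_of_ne hj]
          exact hv j trivial
    have h2 : b.det v * e.coord i (d • w) = b.det (Function.update v i (d • w)) :=
      DFunLike.congr_fun (b.det_smul_mk_coord_eq_det_update hli hsp.ge i) (d • w)
    rw [← h2, norm_mul, mul_le_iff_le_one_right (norm_pos_iff.2 hv0), map_smul, smul_eq_mul,
      norm_mul, mul_comm, ← le_mul_inv_iff₀ (norm_pos_iff.2 d0), one_mul] at h1
    exact h1.trans d2
  let R := LinearMap.toContinuousLinearMap (e.equiv b (Equiv.refl _)).toLinearMap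
  have hR : ∀ w, R w = ∑ i, e.coord i w • b i := fun w => by
    conv_lhs => rw [← e.sum_repr w]
    rw [map_sum]
    refine Finset.sum_congr rfl fun i _ => ?_
    rw [map_smul]
    exact congrArg _ (e.equiv_apply i b (Equiv.refl _))
  refine ⟨R, fun w => ⟨?_, ?_⟩⟩
  · have h1 : N w ≤ ∑ i, ‖φ i‖ * ‖R w‖ := by
      conv_lhs => rw [← e.sum_repr w]
      refine (Finset.le_sum_of_subadditive N (map_zero N).le (map_add_le_add N) _ _).trans
        (Finset.sum_le_sum fun i _ => ?_)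
      have h2 : φ i (R w) = e.repr w i := by
        rw [hR]
        change b.repr _ i = _
        rw [b.repr_sum_self]
        rfl
      rw [map_smul_eq_mul, ← h2]
      refine (mul_le_of_le_one_right (norm_nonneg _) ?_).trans ((φ i).le_opNorm _)
      rw [Module.Basis.mk_apply]
      exact hv i trivial
    rw [← Finset.sum_mul] at h1
    refine h1.trans (mul_le_mul_of_nonneg_right ?_ (norm_nonneg _))
    linarith [show 0 ≤ (∑ i, ‖b i‖) * ‖t‖ by positivity]
  · have h1 : ‖R w‖ ≤ ∑ i, ‖b i‖ * (‖t‖ * N w) := by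
      rw [hR]
      refine (norm_sum_le _ _).trans (Finset.sum_le_sum fun i _ => ?_)
      rw [norm_smul, mul_comm]
      exact mul_le_mul_of_nonneg_left (hco i w) (norm_nonneg _)
    rw [← Finset.sum_mul, ← mul_assoc] at h1
    refine h1.trans (mul_le_mul_of_nonneg_right ?_ (apply_nonneg N w))
    linarith [show 0 ≤ ∑ i, ‖φ i‖ by positivity]

/-- measurable change of coordinates straightening a measurable family of norms -/
theorem straighten {N : X → Seminorm k V} (hm : ∀ v, Measurable fun x => N x v)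
    (hc : ∀ x, Continuous (N x)) (hl : ∀ x, ∃ c : ℝ, ∀ v, ‖v‖ ≤ c * N x v) :
    ∃ (C : ℝ) (R Q : X → V →L[k] V), 0 ≤ C ∧ StronglyMeasurable R ∧ StronglyMeasurable Q ∧
      (∀ x v, Q x (R x v) = v) ∧ (∀ x v, R x (Q x v) = v) ∧
      ∀ x v, N x v ≤ Real.exp C * ‖R x v‖ ∧ ‖R x v‖ ≤ Real.exp C * N x v := by
  classical
  obtain ⟨C, hC, h⟩ := exists_straight k V
  let u := TopologicalSpace.denseSeq (V →L[k] V)
  have hu : DenseRange u := TopologicalSpace.denseRange_denseSeq _
  have hex : ∀ x, ∃ j, (∀ v, N x v ≤ 2 * C * ‖u j v‖) ∧ ∀ v, ‖u j v‖ ≤ 2 * C * N x v := by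
    intro x
    obtain ⟨R, hR⟩ := h (N x) (hc x) (hl x)
    obtain ⟨c, h1⟩ := hl x
    have h0 : 0 < 2 * C * (|c| + 1) := by positivity
    obtain ⟨j, hj⟩ := hu.exists_dist_lt R (ε := (2 * C * (|c| + 1))⁻¹) (inv_pos.2 h0)
    have h2 : ∀ v, 2 * C * ‖R v - u j v‖ ≤ N x v := fun v => by
      have h3 := (R - u j).le_opNorm v
      rw [ContinuousLinearMap.sub_apply, ← dist_eq_norm R] at h3
      have h4 : ‖v‖ ≤ (|c| + 1) * N x v := (h1 v).trans (mul_le_mul_of_nonneg_right
        (by linarith [le_abs_self c]) (apply_nonneg _ _))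
      have h5 := mul_le_mul hj.le h4 (norm_nonneg v) (inv_pos.2 h0).le
      refine (mul_le_mul_of_nonneg_left (h3.trans h5) (by positivity)).trans_eq ?_
      field_simp
    refine ⟨j, fun v => ?_, fun v => ?_⟩
    · have := mul_le_mul_of_nonneg_left (norm_sub_norm_le (R v) (u j v)) (show 0 ≤ 2 * C by positivity)
      linarith [h2 v, (hR v).1]
    · have h3 := norm_sub_norm_le (u j v) (R v)
      rw [norm_sub_rev] at h3
      have h4 := mul_le_mul_of_nonneg_right hC (norm_nonneg (R v - u j v))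
      have h5 := mul_le_mul_of_nonneg_right hC (apply_nonneg (N x) v)
      linarith [h2 v, (hR v).2, norm_nonneg (R v - u j v)]
  have hj : Measurable fun x => Nat.find (hex x) := measurable_find hex fun j =>
    (meas_forall (g := fun _ v => 2 * C * ‖u j v‖) hm (fun _ => measurable_const) hc
      fun _ => by fun_prop).inter (meas_forall (f := fun _ v => ‖u j v‖)
        (g := fun x v => 2 * C * N x v) (fun _ => measurable_const) (fun v => (hm v).const_mul _)
        (fun _ => by fun_prop) fun x => continuous_const.mul (hc x))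
  have hun : ∀ x, IsUnit (u (Nat.find (hex x))) := fun x => by
    have h1 : Function.Injective (u (Nat.find (hex x))) := by
      refine (injective_iff_map_eq_zero _).2 fun v hv => ?_
      obtain ⟨c, h1⟩ := hl x
      have h2 := (Nat.find_spec (hex x)).1 v
      rw [hv, norm_zero, mul_zero] at h2
      have h3 := h1 v
      rw [le_antisymm h2 (apply_nonneg _ _), mul_zero] at h3
      exact norm_le_zero_iff.1 h3
    exact ContinuousLinearMap.isUnit_iff_bijective.2
      ⟨h1, LinearMap.surjective_of_injective (f := (u (Nat.find (hex x))).toLinearMap) h1⟩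
  have hE : Real.exp (Real.log (2 * C)) = 2 * C := Real.exp_log (by positivity)
  refine ⟨Real.log (2 * C), fun x => u (Nat.find (hex x)),
    fun x => Ring.inverse (u (Nat.find (hex x))), Real.log_nonneg (by linarith),
    (StronglyMeasurable.of_discrete (f := u)).comp_measurable hj,
    (StronglyMeasurable.of_discrete (f := fun j => Ring.inverse (u j))).comp_measurable hj,
    fun x v => DFunLike.congr_fun (Ring.inverse_mul_cancel _ (hun x)) v,
    fun x v => DFunLike.congr_fun (Ring.mul_inverse_cancel _ (hun x)) v, fun x v => ?_⟩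
  rw [hE]
  exact ⟨(Nat.find_spec (hex x)).1 v, (Nat.find_spec (hex x)).2 v⟩

end Pool.Agent.P.MP_d483fb_an.Os

end

end

section

open MeasureTheory Filter Topology Set

set_option linter.unusedSectionVars false
set_option linter.unusedVariables false
set_option linter.deprecated false

noncomputable section

namespace Pool.Agent.P.MP_d483fb_an.Os

variable {k Γ X V : Type} [NontriviallyNormedField k] [CompleteSpace k] [SeminormedAddCommGroup Γ]
  [MeasurableSpace X] {μ : Measure X} [NormedAddCommGroup V] [NormedSpace k V]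
  [FiniteDimensional k V] [ProperSpace V]

/-- a function with bounded increments has slowly varying majorants -/
theorem Gen.slow [IsFiniteMeasure μ] (g : Gen Γ) (S : Sys Γ X μ) {h : X → ℝ} {L : ℝ} (hL : 0 ≤ L)
    (hm : Measurable h) (hl : ∀ s x, h (S.act s x) ≤ h x + L * (‖s‖ + 1)) :
    ∃ (Z : Set X) (B : ℝ), MeasurableSet Z ∧ (∀ᵐ x ∂μ, x ∈ Z) ∧ (∀ s, ∀ x ∈ Z, S.act s x ∈ Z) ∧
      0 ≤ B ∧ ∀ ε : ℝ, 0 < ε → ∃ q : X → ℝ, Measurable q ∧ (∀ x, 0 ≤ q x) ∧
        ∀ x ∈ Z, h x ≤ q x ∧ ∀ s, q (S.act s x) ≤ q x + ε * ‖s‖ + B := by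
  have hpos : ∀ j : ℕ, (0 : ℝ) < 1 / (j + 1) := fun j => by positivity
  have hB : ∀ s : Γ, 0 ≤ L * (‖s‖ + 1) := fun s => by positivity
  have hR := g.R_nonneg
  choose W q w1 w2 w3 q1 q2 q3 hq using fun j : ℕ => S.slow g.a hB (f := fun _ : Unit => h)
    (fun _ => hm) (fun _ => hl) (hpos j).le (by
      obtain ⟨p, -, -, hp⟩ := S.temper hB g.a (hpos j) Finset.univ hm hl
      exact hp.mono fun x hx => ⟨p x, fun _ n => hx n⟩)
  refine ⟨⋂ j, W j, g.m + L * (g.R + 1), MeasurableSet.iInter w1,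
    (ae_all_iff.2 w2).mono fun x hx => mem_iInter.2 hx,
    fun s x hx => mem_iInter.2 fun j => w3 j s x (mem_iInter.1 hx j), by positivity,
    fun ε hε => ?_⟩
  obtain ⟨j, hj⟩ := exists_nat_one_div_lt (K := ℝ) (ε := ε / (g.m * g.R + 1)) (by positivity)
  refine ⟨q j, q1 j, q2 j, fun x hx => ⟨(hq j x (mem_iInter.1 hx j)).1 (), fun s => ?_⟩⟩
  obtain ⟨r, n, e, hr, hn, -⟩ := g.split s
  have h1 : (1 : ℝ) / (j + 1) ≤ 1 := by
    rw [div_le_one (by positivity)]
    linarith [j.cast_nonneg (α := ℝ)]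
  rw [lt_div_iff₀ (by positivity)] at hj
  have h3 : 1 / (j + 1 : ℝ) * (g.m * g.R) ≤ ε := by linarith [hpos j]
  have h4 := mul_le_mul_of_nonneg_right h3 (norm_nonneg s)
  have h5 := mul_le_mul_of_nonneg_right h1 (g.m.cast_nonneg (α := ℝ))
  have h6 := q3 j r (S.act (pt g.a n) x)
  rw [← S.add, ← e] at h6
  linarith [mul_le_mul_of_nonneg_left hn (hpos j).le, (hq j x (mem_iInter.1 hx j)).2 n,
    mul_le_mul_of_nonneg_left (add_le_add hr (le_refl (1 : ℝ))) hL]

variable {S : Sys Γ X μ} {A : Γ → X → V →L[k] V} {h : X → ℝ} {L : ℝ}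

theorem TCoc.lower (c : TCoc S A h L) (s : Γ) (x : X) (v : V) :
    ‖v‖ ≤ Real.exp (2 * (L * (‖s‖ + 1)) + h x) * ‖A s x v‖ := by
  have h1 := c.bound (-s) (S.act s x) (A s x v)
  rw [← c.add, neg_add_cancel, c.zero, norm_neg] at h1
  refine h1.trans (mul_le_mul_of_nonneg_right (Real.exp_le_exp.2 ?_) (norm_nonneg _))
  linarith [c.h_lip s x]

/-- adapted norms -/
theorem TCoc.adapted (c : TCoc S A h L) [MeasurableSpace Γ] [MeasurableAdd Γ] (ν : Measure Γ)
    [SFinite ν] [NeZero ν] [ν.IsAddRightInvariant] (hn : Measurable fun s : Γ => ‖s‖) {r : ℝ}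
    (hr : 0 ≤ r) (hν : Integrable (fun s => Real.exp (-(r * ‖s‖))) ν)
    (hA : StronglyMeasurable fun p : Γ × X => A p.1 p.2) :
    ∃ (N : X → Seminorm k V) (C : ℝ), 0 ≤ C ∧ (∀ v, Measurable fun x => N x v) ∧
      (∀ x v, N x v ≤ Real.exp (C + h x) * ‖v‖) ∧ (∀ x v, ‖v‖ ≤ Real.exp (C + h x) * N x v) ∧
      ∀ t x v, N (S.act t x) (A t x v) ≤ Real.exp ((L + r) * ‖t‖) * N x v := by
  have hL := c.L_nonneg
  let F : X → V → Γ → ℝ := fun x v s => Real.exp (-((L + r) * ‖s‖)) * ‖A s x v‖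
  have Fm : ∀ v, StronglyMeasurable fun p : Γ × X => F p.2 v p.1 := fun v =>
    (((hn.comp measurable_fst).const_mul _).neg.exp.stronglyMeasurable).mul (sm_apply hA v).norm
  have F0 : ∀ x v s, 0 ≤ F x v s := fun x v s => by positivity
  have Fle : ∀ x v s, F x v s ≤ Real.exp (-(r * ‖s‖)) * (Real.exp (L + h x) * ‖v‖) := by
    intro x v s
    refine (mul_le_mul_of_nonneg_left (c.bound s x v) (Real.exp_pos _).le).trans_eq ?_
    rw [← mul_assoc, ← mul_assoc, ← Real.exp_add, ← Real.exp_add]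
    ring_nf
  have Fi : ∀ x v, Integrable (F x v) ν := fun x v =>
    (hν.mul_const _).mono' ((Fm v).comp_measurable measurable_prodMk_right).aestronglyMeasurable
      (ae_of_all _ fun s => by rw [Real.norm_of_nonneg (F0 x v s)]; exact Fle x v s)
  have hν' : Integrable (fun s : Γ => Real.exp (-((3 * L + r) * ‖s‖))) ν :=
    hν.mono' (hn.const_mul _).neg.exp.aestronglyMeasurable (ae_of_all _ fun s => by
      rw [Real.norm_of_nonneg (Real.exp_pos _).le, Real.exp_le_exp]
      linarith [mul_nonneg hL (norm_nonneg s)])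
  set I := ∫ s, Real.exp (-(r * ‖s‖)) ∂ν
  set J := ∫ s, Real.exp (-((3 * L + r) * ‖s‖)) ∂ν
  have hI : 0 < I := integral_exp_pos hν
  have hJ : 0 < J := integral_exp_pos hν'
  refine ⟨fun x => Seminorm.of (fun v => ∫ s, F x v s ∂ν) (fun v w => ?_) fun a v => ?_,
    2 * L + |Real.log I| + |Real.log J|, by positivity,
    fun v => (Fm v).integral_prod_left'.measurable, fun x v => ?_, fun x v => ?_, fun t x v => ?_⟩
  · rw [← integral_add (Fi x v) (Fi x w)]
    refine integral_mono (Fi x _) ((Fi x v).add (Fi x w)) fun s => ?_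
    simp only [F, map_add, ← mul_add]
    exact mul_le_mul_of_nonneg_left (norm_add_le _ _) (Real.exp_pos _).le
  · rw [← integral_const_mul]
    simp only [F, map_smul, norm_smul, mul_left_comm]
  · refine (integral_mono (Fi x v) (hν.mul_const _) (Fle x v)).trans ?_
    rw [integral_mul_const, ← mul_assoc]
    refine mul_le_mul_of_nonneg_right ?_ (norm_nonneg v)
    change I * _ ≤ _
    rw [← Real.exp_log hI, ← Real.exp_add, Real.exp_le_exp, Real.log_exp]
    linarith [le_abs_self (Real.log I), abs_nonneg (Real.log J)]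
  · have h1 : J * ‖v‖ ≤ Real.exp (2 * L + h x) * ∫ s, F x v s ∂ν := by
      rw [← integral_mul_const, ← integral_const_mul]
      refine integral_mono (hν'.mul_const _) ((Fi x v).const_mul _) fun s => ?_
      refine (mul_le_mul_of_nonneg_left (c.lower s x v) (Real.exp_pos _).le).trans_eq ?_
      simp only [F]
      rw [← mul_assoc, ← mul_assoc (Real.exp _), ← Real.exp_add, ← Real.exp_add]
      ring_nf
    rw [← le_inv_mul_iff₀ hJ, ← mul_assoc] at h1
    refine h1.trans (mul_le_mul_of_nonneg_right ?_ (integral_nonneg (F0 x v)))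
    rw [← Real.exp_log hJ, ← Real.exp_neg, ← Real.exp_add, Real.exp_le_exp, Real.log_exp]
    linarith [neg_abs_le (Real.log J), abs_nonneg (Real.log I)]
  · change ∫ s, F _ _ s ∂ν ≤ _ * ∫ s, F x v s ∂ν
    rw [← integral_add_right_eq_self (F x v) t, ← integral_const_mul]
    refine integral_mono (Fi _ _) (((Fi x v).comp_add_right t).const_mul _) fun s => ?_
    simp only [F, c.add]
    rw [← mul_assoc, ← Real.exp_add]
    refine mul_le_mul_of_nonneg_right (Real.exp_le_exp.2 ?_) (norm_nonneg _)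
    linarith [mul_le_mul_of_nonneg_left (norm_add_le s t) (add_nonneg hL hr)]

/-- the tempered case follows from the bounded case by a change of coordinates -/
theorem TCoc.transfer [IsProbabilityMeasure μ] (c : TCoc S A h L) (g : Gen Γ)
    (hA : ∀ s, StronglyMeasurable (A s)) {N : X → Seminorm k V} {C L' : ℝ} (hC : 0 ≤ C)
    (hL' : 0 ≤ L') (hm : ∀ v, Measurable fun x => N x v)
    (h1 : ∀ x v, N x v ≤ Real.exp (C + h x) * ‖v‖) (h2 : ∀ x v, ‖v‖ ≤ Real.exp (C + h x) * N x v)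
    (h3 : ∀ t x v, N (S.act t x) (A t x v) ≤ Real.exp (L' * ‖t‖) * N x v) :
    ∃ (ι : Type) (_ : Fintype ι), Nonempty (OseA S A ι) := by
  obtain ⟨C', R, Q, hC', mR, mQ, QR, RQ, hb⟩ := straighten hm (fun x =>
    (LipschitzWith.of_dist_le' (K := Real.exp (C + h x)) fun v w => by
      rw [dist_eq_norm v w]
      exact (abs_sub_map_le_sub (N x) v w).trans (h1 x _)).continuous) fun x => ⟨_, h2 x⟩
  have bR : ∀ x v, ‖R x v‖ ≤ Real.exp (C' + C + h x) * ‖v‖ := fun x v =>
    (hb x v).2.trans ((mul_le_mul_of_nonneg_left (h1 x v) (Real.exp_pos _).le).trans_eq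
      (by rw [← mul_assoc, ← Real.exp_add, add_assoc]))
  have bQ : ∀ x v, ‖v‖ ≤ Real.exp (C' + C + h x) * ‖R x v‖ := fun x v =>
    (h2 x v).trans ((mul_le_mul_of_nonneg_left (hb x v).1 (Real.exp_pos _).le).trans_eq
      (by rw [← mul_assoc, ← Real.exp_add]; ring_nf))
  let c' : Coc S k V :=
    { A := fun s x => R (S.act s x) * A s x * Q x
      E := fun _ => ⊤
      K := fun s => L' * ‖s‖ + 2 * C'
      measA := fun s => ((mR.comp_measurable (S.meas s)).mul (hA s)).mul mQ
      measE := msub_const _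
      map := fun _ _ _ _ => Submodule.mem_top
      zero := fun x v _ => by simp only [ContinuousLinearMap.mul_apply, S.zero, c.zero, RQ]
      add := fun s t x v _ => by simp only [ContinuousLinearMap.mul_apply, S.add, c.add, QR]
      bound := fun s x v _ => by
        have h4 := (hb x (Q x v)).1
        rw [RQ] at h4
        refine (hb _ _).2.trans ((mul_le_mul_of_nonneg_left ((h3 s x _).trans
          (mul_le_mul_of_nonneg_left h4 (Real.exp_pos _).le)) (Real.exp_pos _).le).trans_eq ?_)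
        rw [← mul_assoc, ← mul_assoc, ← Real.exp_add, ← Real.exp_add]
        ring_nf
      K_nonneg := fun s => by positivity }
  have hA' : ∀ s x v, c'.A s x (R x v) = R (S.act s x) (A s x v) := fun s x v => by
    simp only [c', ContinuousLinearMap.mul_apply, QR]
  obtain ⟨ι, _, ⟨o⟩⟩ := oseledets g c' (fun _ => rfl) (L := L' + 2 * C') fun s => by
    change L' * ‖s‖ + 2 * C' ≤ _
    linarith [mul_nonneg hC' (norm_nonneg s)]
  obtain ⟨Z, B, z1, z2, z3, hB, hZ⟩ := g.slow S c.L_nonneg c.measH c.h_lip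
  have hB' := o.B_nonneg
  refine ⟨ι, inferInstance, ⟨⟨fun i x => (o.D i x).comap (R x).toLinearMap,
    fun i x => Q x * o.P i x * R x, o.lam, o.X0 ∩ Z, o.B + 2 * B, o.d, o.lam_inj,
    fun i s => (o.lam_le i s).trans (mul_le_mul_of_nonneg_right (by linarith) (norm_nonneg s)),
    by positivity, fun i => ?_, fun i s x v hv => ?_, fun i => (mQ.mul (o.measP i)).mul mR,
    o.meas0.inter z1, o.ae0.and z2, fun s x hx => ⟨o.inv0 s x hx.1, z3 s x hx.2⟩,
    fun x hx => ⟨fun _ => le_top, fun w _ => ?_, fun v hv e i => ?_⟩, o.d_pos, fun x hx i => ?_,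
    fun x hx i v => ?_, fun x hx v => ?_, fun x hx i v hv => ?_, fun x hx i j hij v hv => ?_,
    fun x hx i s v => ?_, fun ε hε => ?_⟩⟩⟩
  · refine msub_of_bdd (φ := fun n x v => (n : ℝ) * qn (o.D i x) (R x v))
      (fun n v => ((o.sub i).meas.qn_comp (sm_apply mR v)).const_mul _)
      (fun n x => continuous_const.mul ((qn_cont _).comp (R x).continuous))
      fun x v => ⟨fun hv => ⟨0, fun n => ?_⟩, fun ⟨M, hM⟩ => mem_of_mul_le (D := o.D i x) hM⟩
    rw [qn_eq_zero.2 (show R x v ∈ o.D i x from hv), mul_zero]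
  · change R _ _ ∈ o.D i _
    rw [← hA']
    exact (o.sub i).inv s x _ hv
  · obtain ⟨v, hv, e⟩ := (o.dec x hx.1).span (R x w) Submodule.mem_top
    refine ⟨fun i => Q x (v i), fun i => ?_, by rw [← map_sum, e, QR]⟩
    change R x _ ∈ o.D i x
    rw [RQ]
    exact hv i
  · rw [← QR x (v i), (o.dec x hx.1).ind (fun i => R x (v i)) hv
      (by rw [← map_sum, e, map_zero]) i, map_zero]
  · let e : V ≃ₗ[k] V := LinearEquiv.ofLinear (R x).toLinearMap (Q x).toLinearMap
      (LinearMap.ext (RQ x)) (LinearMap.ext (QR x))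
    rw [← o.rank x hx.1 i, ← e.symm.finrank_map_eq (o.D i x), ← Submodule.comap_equiv_eq_map_symm]
    rfl
  · change R x (Q x _) ∈ o.D i x
    rw [RQ]
    exact o.P_mem x hx.1 i _
  · simp only [ContinuousLinearMap.mul_apply]
    rw [← map_sum, o.P_sum x hx.1, QR]
  · simp only [ContinuousLinearMap.mul_apply]
    rw [o.P_self x hx.1 i (R x v) hv, QR]
  · simp only [ContinuousLinearMap.mul_apply]
    rw [o.P_other x hx.1 i j hij (R x v) hv, map_zero]
  · simp only [ContinuousLinearMap.mul_apply]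
    rw [← hA', o.P_inv x hx.1, ← RQ x (o.P i x _), hA', QR, QR]
  obtain ⟨q, q1, q2, q3, q4⟩ := o.est (ε / 3) (by positivity)
  obtain ⟨H, H1, H2, H3⟩ := hZ (ε / 3) (by positivity)
  refine ⟨fun x => q x + 2 * H x + 2 * (C' + C) + B, ((q1.add (H1.const_mul _)).add_const _).add_const _,
    fun x => by linarith [q2 x, H2 x], fun s x hx => by linarith [q3 s x hx.1, (H3 x hx.2).2 s],
    fun x hx i => ⟨ContinuousLinearMap.opNorm_le_bound _ (Real.exp_pos _).le fun v => ?_,
      fun s v hv => ?_⟩⟩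
  · refine (bQ x _).trans ?_
    simp only [ContinuousLinearMap.mul_apply]
    rw [RQ]
    refine (mul_le_mul_of_nonneg_left (((o.P i x).le_opNorm _).trans (mul_le_mul (q4 x hx.1 i).1
      (bR x v) (norm_nonneg _) (Real.exp_pos _).le)) (Real.exp_pos _).le).trans ?_
    rw [← mul_assoc, ← mul_assoc, ← Real.exp_add, ← Real.exp_add]
    refine mul_le_mul_of_nonneg_right (Real.exp_le_exp.2 ?_) (norm_nonneg _)
    linarith [(H3 x hx.2).1]
  obtain ⟨h4, h5⟩ := (q4 x hx.1 i).2 s (R x v) hv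
  have h6 := (H3 _ (z3 s x hx.2)).1.trans ((H3 x hx.2).2 s)
  have h7 := mul_nonneg hε.le (norm_nonneg s)
  rw [hA'] at h4 h5
  constructor
  · refine (bQ (S.act s x) _).trans ((mul_le_mul_of_nonneg_left (h4.trans
      (mul_le_mul_of_nonneg_left (bR x v) (Real.exp_pos _).le)) (Real.exp_pos _).le).trans ?_)
    rw [← mul_assoc, ← mul_assoc, ← Real.exp_add, ← Real.exp_add]
    refine mul_le_mul_of_nonneg_right (Real.exp_le_exp.2 ?_) (norm_nonneg _)
    linarith [(H3 x hx.2).1]
  · refine (bQ x _).trans ((mul_le_mul_of_nonneg_left (h5.trans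
      (mul_le_mul_of_nonneg_left (bR _ _) (Real.exp_pos _).le)) (Real.exp_pos _).le).trans ?_)
    rw [← mul_assoc, ← mul_assoc, ← Real.exp_add, ← Real.exp_add]
    refine mul_le_mul_of_nonneg_right (Real.exp_le_exp.2 ?_) (norm_nonneg _)
    linarith [(H3 x hx.2).1]

/-- Multiplicative ergodic theorem over a finite dimensional real vector space, tempered case. -/
theorem oseledets_temp [IsProbabilityMeasure μ] {W : Type} [NormedAddCommGroup W] [NormedSpace ℝ W]
    [FiniteDimensional ℝ W] [MeasurableSpace W] [BorelSpace W] {S : Sys W X μ}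
    {A : W → X → V →L[k] V} {h : X → ℝ} {L : ℝ} (c : TCoc S A h L)
    (hA : StronglyMeasurable fun p : W × X => A p.1 p.2) :
    ∃ (ι : Type) (_ : Fintype ι), Nonempty (OseA S A ι) := by
  obtain ⟨g⟩ := exists_gen W
  have hr : (0 : ℝ) ≤ Module.finrank ℝ W + 1 := by positivity
  obtain ⟨N, C, hC, hm, h1, h2, h3⟩ := c.adapted (Measure.addHaar (G := W)) measurable_norm hr
    ((integrable_one_add_norm (lt_add_one _)).mono' (by fun_prop) (ae_of_all _ fun s => by
      rw [Real.norm_of_nonneg (Real.exp_pos _).le, Real.rpow_def_of_pos (by positivity),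
        Real.exp_le_exp]
      have := Real.log_le_sub_one_of_pos (show 0 < 1 + ‖s‖ by positivity)
      nlinarith)) hA
  exact c.transfer g (fun s => hA.comp_measurable measurable_prodMk_left) hC
    (add_nonneg c.L_nonneg hr) hm h1 h2 h3

/-- Multiplicative ergodic theorem over the integers, tempered case. -/
theorem oseledets_temp_int [IsProbabilityMeasure μ] {S : Sys ℤ X μ}
    {A : ℤ → X → V →L[k] V} {h : X → ℝ} {L : ℝ} (c : TCoc S A h L)
    (hA : ∀ s, StronglyMeasurable (A s)) :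
    ∃ (ι : Type) (_ : Fintype ι), Nonempty (OseA S A ι) := by
  obtain ⟨N, C, hC, hm, h1, h2, h3⟩ := c.adapted Measure.count Measurable.of_discrete zero_le_one
    (integrable_count_iff.2 (Summable.of_nat_of_neg
      (by simpa [Int.norm_eq_abs] using Real.summable_exp_neg_nat)
      (by simpa [Int.norm_eq_abs] using Real.summable_exp_neg_nat)))
    (stronglyMeasurable_uncurry_of_continuous_of_stronglyMeasurable
      (fun _ => continuous_of_discreteTopology) hA)
  exact c.transfer genInt hA hC (add_nonneg c.L_nonneg zero_le_one) hm h1 h2 h3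

end Pool.Agent.P.MP_d483fb_an.Os

end

end
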