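import Pool.Agent.P.MP_d483fb_an.M.A12
import Pool.Agent.P.MP_d483fb_an.M.A15
import Pool.Agent.P.MP_d483fb_an.M.A21
import Pool.Agent.P.MP_d483fb_an.M.A22

section

/-!
Matrix lemmas for the polar decomposition: continuity of the logarithm and a perturbation bound
for the orthogonal factor that does not depend on the positive factor.
-/

open scoped Matrix Topology
open NormedSpace Filter Set

namespace Pool.Agent.P.MP_d483fb_an.Z.Cen

variable {n : ℕ}

section
open scoped Matrix.Norms.L2Operator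

/-- The logarithm of a positive matrix. -/
noncomputable def slog (X : Mat n) : Mat n := CFC.log X

theorem log_exp {P : Mat n} (hP : P.IsSymm) : slog (exp P) = P :=
  CFC.log_exp P (by
    rw [IsSelfAdjoint, Matrix.star_eq_conjTranspose, Matrix.conjTranspose_eq_transpose_of_trivial]
    exact hP)

theorem continuousOn_log : ContinuousOn slog {a : Mat n | a.IsSymm ∧ IsUnit a} := by
  refine (CFC.continuousOn_log (A := Mat n)).mono fun a ha => ⟨?_, ha.2⟩
  rw [IsSelfAdjoint, Matrix.star_eq_conjTranspose, Matrix.conjTranspose_eq_transpose_of_trivial]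
  exact ha.1

end

/-- The square of the Frobenius norm. -/
def fr (X : Mat n) : ℝ := (X * Xᵀ).trace

theorem fr_eq (X : Mat n) : fr X = ∑ i, ∑ j, X i j ^ 2 := by
  simp [fr, Matrix.trace, Matrix.mul_apply, sq]

theorem fr_nonneg (X : Mat n) : 0 ≤ fr X := by
  rw [fr_eq]
  positivity

theorem sq_le_fr (X : Mat n) (i j : Fin n) : X i j ^ 2 ≤ fr X := by
  rw [fr_eq]
  refine le_trans ?_ (Finset.single_le_sum (f := fun i => ∑ j, X i j ^ 2)
    (fun _ _ => by positivity) (Finset.mem_univ i))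
  exact Finset.single_le_sum (f := fun j => X i j ^ 2) (fun _ _ => by positivity)
    (Finset.mem_univ j)

theorem continuous_fr : Continuous (fr : Mat n → ℝ) := by
  unfold fr
  fun_prop

theorem fr_sub (X Y : Mat n) : fr (X - Y) = fr X + fr Y - 2 * (X * Yᵀ).trace := by
  have h : (Y * Xᵀ).trace = (X * Yᵀ).trace := by
    rw [← Matrix.trace_transpose, Matrix.transpose_mul, Matrix.transpose_transpose]
  simp only [fr, Matrix.transpose_sub, mul_sub, sub_mul, Matrix.trace_sub, h]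
  ring

theorem fr_sub_le (X Y : Mat n) : fr (X - Y) ≤ 2 * fr X + 2 * fr Y := by
  simp only [fr_eq, Finset.mul_sum, ← Finset.sum_add_distrib, Matrix.sub_apply]
  refine Finset.sum_le_sum fun i _ => Finset.sum_le_sum fun j _ => ?_
  nlinarith [sq_nonneg (X i j + Y i j)]

theorem fr_conj {k k' : Mat n} (hk : kᵀ * k = 1) (hk' : k' * k'ᵀ = 1) (X : Mat n) :
    fr (k * X * k') = fr X := by
  simp only [fr, Matrix.transpose_mul]
  rw [show k * X * k' * (k'ᵀ * (Xᵀ * kᵀ)) = k * (X * (k' * k'ᵀ) * Xᵀ * kᵀ) by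
    simp only [mul_assoc], Matrix.trace_mul_comm, hk', mul_one, mul_assoc, hk, mul_one]

theorem two_le_trace {s t s' t' : Mat n} (hs : s.IsSymm) (ht : t.IsSymm) (hs' : s'.IsSymm)
    (ht' : t'.IsSymm) (h : t * s = 1) (h' : s' * t' = 1) :
    2 * (n : ℝ) ≤ (s' * s' * (t * t)).trace + (s * s * (t' * t')).trace := by
  have e1 : fr (s' * t) = (s' * s' * (t * t)).trace := by
    rw [fr, Matrix.transpose_mul, ht.eq, hs'.eq,
      show s' * t * (t * s') = s' * (t * t) * s' by simp only [mul_assoc],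
      Matrix.trace_mul_comm, mul_assoc]
  have e2 : fr (t' * s) = (s * s * (t' * t')).trace := by
    rw [fr, Matrix.transpose_mul, ht'.eq, hs.eq,
      show t' * s * (s * t') = t' * (s * s * t') by simp only [mul_assoc],
      Matrix.trace_mul_comm, mul_assoc]
  have e3 : (s' * t * (t' * s)ᵀ).trace = n := by
    rw [Matrix.transpose_mul, ht'.eq, hs.eq,
      show s' * t * (s * t') = s' * (t * s) * t' by simp only [mul_assoc], h, mul_one, h']
    simp
  have := fr_nonneg (s' * t - t' * s)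
  rw [fr_sub, e1, e2, e3] at this
  linarith

theorem exp_symm {P : Mat n} (hP : P.IsSymm) (c : ℝ) : (exp (c • P)).IsSymm :=
  (hP.smul c).exp

theorem exp_mul (P : Mat n) (c d : ℝ) : exp (c • P) * exp (d • P) = exp ((c + d) • P) := by
  rw [add_smul, Matrix.exp_add_of_commute]
  exact ((Commute.refl P).smul_left c).smul_right d

/-- The orthogonal factor of the polar decomposition moves little under left multiplication. -/
theorem fr_polar {u v k k' P P' : Mat n} (huv : u * v = 1) (hk : k * kᵀ = 1) (hk' : k' * k'ᵀ = 1)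
    (hP : P.IsSymm) (hP' : P'.IsSymm) (h : u * (k * exp P) = k' * exp P') :
    fr (k' * kᵀ - 1) ≤ 2 * fr (u - 1) + 2 * (fr u + fr v - 2 * n) := by
  have hk2 : kᵀ * k = 1 := mul_eq_one_comm.mp hk
  have hk2' : k'ᵀ * k' = 1 := mul_eq_one_comm.mp hk'
  have hvu : v * u = 1 := mul_eq_one_comm.mp huv
  have e0 : ∀ (Q : Mat n) (c : ℝ), exp (c • Q) * exp ((-c) • Q) = 1 := fun Q c => by
    rw [exp_mul]
    simp
  have e1 : ∀ Q : Mat n, exp ((1 / 2 : ℝ) • Q) * exp ((1 / 2 : ℝ) • Q) = exp ((1 : ℝ) • Q) :=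
    fun Q => by rw [exp_mul, add_halves]
  have e2 : ∀ Q : Mat n,
      exp ((-(1 / 2) : ℝ) • Q) * exp ((-(1 / 2) : ℝ) • Q) = exp ((-1 : ℝ) • Q) := fun Q => by
    rw [exp_mul]
    norm_num
  have key := two_le_trace (exp_symm hP (1 / 2)) (exp_symm hP (-(1 / 2))) (exp_symm hP' (1 / 2))
    (exp_symm hP' (-(1 / 2))) (mul_eq_one_comm.mp (e0 P _)) (e0 P' _)
  rw [e1, e1, e2, e2] at key
  rw [← one_smul ℝ P, ← one_smul ℝ P'] at h
  have w1 : exp ((1 : ℝ) • P') * exp ((-1 : ℝ) • P) = k'ᵀ * u * k := by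
    rw [← one_mul (exp ((1 : ℝ) • P')), ← hk2', mul_assoc k'ᵀ, ← h]
    simp only [mul_assoc, e0, mul_one]
  have w2 : exp ((1 : ℝ) • P) * exp ((-1 : ℝ) • P') = kᵀ * v * k' := by
    rw [← mul_one (kᵀ * v * k'), ← e0 P' 1, ← mul_assoc, mul_assoc _ k', ← h]
    simp only [← mul_assoc]
    rw [mul_assoc kᵀ v u, hvu, mul_one, hk2, one_mul]
  rw [w1, w2] at key
  have f1 := fr_sub (k'ᵀ * u * k) 1
  have f2 := fr_sub (kᵀ * v * k') 1
  have f3 : fr (1 : Mat n) = n := by simp [fr]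
  rw [fr_conj (by rwa [Matrix.transpose_transpose]) hk, f3, Matrix.transpose_one, mul_one] at f1
  rw [fr_conj (by rwa [Matrix.transpose_transpose]) hk', f3, Matrix.transpose_one, mul_one] at f2
  have f4 : k' * kᵀ - 1 = (u - 1) - k' * (k'ᵀ * u * k - 1) * kᵀ := by
    rw [mul_sub, sub_mul, ← mul_assoc, ← mul_assoc, hk', one_mul, mul_assoc u, hk]
    simp
  have f5 := fr_sub_le (u - 1) (k' * (k'ᵀ * u * k - 1) * kᵀ)
  rw [fr_conj hk2' (by rwa [Matrix.transpose_transpose]), ← f4] at f5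
  linarith [fr_nonneg (kᵀ * v * k' - 1)]

theorem fr_nhds {N : Set (Mat n)} (hN : N ∈ 𝓝 (1 : Mat n)) :
    ∃ δ : ℝ, 0 < δ ∧ ∀ X : Mat n, fr (X - 1) < δ → X ∈ N := by
  obtain ⟨ε, hε, h⟩ := (Metric.mem_nhds_iff (α := Fin n → Fin n → ℝ)).mp hN
  refine ⟨ε ^ 2, by positivity, fun X hX => h ?_⟩
  rw [Metric.mem_ball, dist_pi_lt_iff hε]
  intro i
  rw [dist_pi_lt_iff hε]
  intro j
  rw [Real.dist_eq]
  exact abs_lt_of_sq_lt_sq ((sq_le_fr (X - 1) i j).trans_lt hX) hε.le

end Pool.Agent.P.MP_d483fb_an.Z.Cen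


end

section

/-!
The kernel of the covering homomorphism is discrete and central, and the preimage of the orthogonal
group is compact modulo the kernel.
-/

open scoped Matrix Topology Pointwise
open NormedSpace Filter Set

namespace Pool.Agent.P.MP_d483fb_an.Z

variable {G : Type} [Group G] [TopologicalSpace G] [IsTopologicalGroup G] {n k : ℕ}

namespace ExpData

variable (D : ExpData G n)

omit [IsTopologicalGroup G] in
theorem cen_rho_mul_inv (x : G) : D.ρ x * D.ρ x⁻¹ = 1 := by rw [← map_mul, mul_inv_cancel, map_one]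

omit [IsTopologicalGroup G] in
theorem cen_rho_inv_mul (x : G) : D.ρ x⁻¹ * D.ρ x = 1 := by rw [← map_mul, inv_mul_cancel, map_one]

/-- `ρ` is injective on a neighbourhood of the identity. -/
theorem cen_exists_inj : ∃ O : Set G, IsOpen O ∧ (1 : G) ∈ O ∧
    ∀ x ∈ O, ∀ y ∈ O, D.ρ x = D.ρ y → x = y := by
  obtain ⟨V, hV, hVU⟩ := exists_nhds_split_inv D.disc
  refine ⟨interior V, isOpen_interior, mem_interior_iff_mem_nhds.mpr hV, fun x hx y hy h => ?_⟩
  have h1 := hVU x (interior_subset hx) y (interior_subset hy)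
  rw [mem_ofPred_eq, div_eq_mul_inv, map_mul, h, D.cen_rho_mul_inv] at h1
  exact mul_inv_eq_one.mp (h1 rfl)

theorem cen_ker_central [PreconnectedSpace G] {z : G} (hz : D.ρ z = 1) (g : G) : z * g = g * z := by
  have hc : Continuous fun g : G => g * z * g⁻¹ * z⁻¹ := by fun_prop
  have hk : ∀ g : G, D.ρ (g * z * g⁻¹ * z⁻¹) = 1 := fun g => by
    have h1 : D.ρ z⁻¹ = 1 := by rw [← D.cen_rho_inv_mul z, hz, mul_one]
    rw [map_mul, map_mul, map_mul, hz, h1, mul_one, mul_one, D.cen_rho_mul_inv]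
  have hl : IsLocallyConstant fun g : G => g * z * g⁻¹ * z⁻¹ := by
    rw [IsLocallyConstant.iff_eventually_eq]
    intro x
    have h1 : Tendsto (fun g : G => (g * z * g⁻¹ * z⁻¹) * (x * z * x⁻¹ * z⁻¹)⁻¹) (𝓝 x) (𝓝 1) := by
      have := (hc.tendsto x).mul_const (x * z * x⁻¹ * z⁻¹)⁻¹
      rwa [mul_inv_cancel] at this
    filter_upwards [h1.eventually D.disc] with g hg
    refine mul_inv_eq_one.mp (hg ?_)
    have h2 := D.cen_rho_inv_mul (x * z * x⁻¹ * z⁻¹)
    rw [hk, mul_one] at h2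
    rw [map_mul, hk, h2, mul_one]
  have h := hl.apply_eq_of_preconnectedSpace g 1
  simp only [one_mul, inv_one, mul_one, mul_inv_cancel] at h
  rw [mul_inv_eq_one, mul_inv_eq_iff_eq_mul] at h
  exact h.symm

theorem cen_ker_finite {C : Set G} (hC : IsCompact C) : {z | z ∈ C ∧ D.ρ z = 1}.Finite := by
  obtain ⟨O, hO, h1, hinj⟩ := D.cen_exists_inj
  obtain ⟨t, ht⟩ := hC.elim_finite_subcover (fun x : G => (fun y => x⁻¹ * y) ⁻¹' O)
    (fun x => hO.preimage (by fun_prop)) (fun x _ => mem_iUnion.mpr ⟨x, by simpa using h1⟩)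
  refine (t.finite_toSet.biUnion (t := fun x => {z | x⁻¹ * z ∈ O ∧ D.ρ z = 1})
    fun x _ => Set.Subsingleton.finite ?_).subset fun z hz => ?_
  · intro y hy y' hy'
    have := hinj _ hy.1 _ hy'.1 (by rw [map_mul, map_mul, hy.2, hy'.2])
    exact mul_left_cancel this
  · obtain ⟨x, hx, hzx⟩ := mem_iUnion₂.mp (ht hz.1)
    exact mem_iUnion₂.mpr ⟨x, hx, hzx, hz.2⟩

end ExpData

namespace Std

variable (D : Std G n k)

omit [IsTopologicalGroup G] in
theorem cen_isClosed_K : IsClosed (D.K : Set G) :=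
  isClosed_eq (f := fun x => D.ρ x * (D.ρ x)ᵀ) (D.cont.mul D.cont.matrix_transpose)
    continuous_const

omit [IsTopologicalGroup G] in
theorem cen_ker_le_K {z : G} (hz : D.ρ z = 1) : z ∈ D.K := by
  rw [mem_K, hz]
  simp

theorem cen_image_mem_nhds {x : G} {N : Set G} (hN : N ∈ 𝓝 x) :
    D.ρ '' N ∈ 𝓝[range D.ρ] (D.ρ x) := by
  have h1 : (fun y => x * y) ⁻¹' N ∈ 𝓝 (1 : G) :=
    (continuous_const.mul continuous_id).continuousAt.preimage_mem_nhds (by simpa using hN)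
  have h2 : D.ρ '' ((fun y => x * y) ⁻¹' N) ∈ 𝓝[range D.ρ] 1 := D.opn ▸ image_mem_map h1
  have h3 : Tendsto (fun Y : Mat n => D.ρ x⁻¹ * Y) (𝓝[range D.ρ] (D.ρ x)) (𝓝[range D.ρ] 1) := by
    refine tendsto_nhdsWithin_iff.mpr ⟨?_, ?_⟩
    · rw [← D.cen_rho_inv_mul x]
      exact ((continuous_const.mul continuous_id).tendsto _).mono_left nhdsWithin_le_nhds
    · filter_upwards [self_mem_nhdsWithin]
      rintro _ ⟨y, rfl⟩
      exact ⟨x⁻¹ * y, map_mul _ _ _⟩
  filter_upwards [h3.eventually h2]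
  rintro Y ⟨y, hy, hY⟩
  refine ⟨x * y, hy, ?_⟩
  rw [map_mul, hY, ← mul_assoc, D.cen_rho_mul_inv, one_mul]

omit [IsTopologicalGroup G] in
theorem cen_isCompact_image_K : IsCompact (D.ρ '' D.K) := by
  have h1 : IsCompact (Set.pi univ fun _ : Fin n => Set.pi univ fun _ : Fin n => Icc (-1 : ℝ) 1) :=
    isCompact_univ_pi fun _ => isCompact_univ_pi fun _ => isCompact_Icc
  have h2 : D.ρ '' D.K = range D.ρ ∩ {X | X * Xᵀ = 1} := by
    ext X
    constructor
    · rintro ⟨x, hx, rfl⟩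
      exact ⟨⟨x, rfl⟩, hx⟩
    · rintro ⟨⟨x, rfl⟩, hx⟩
      exact ⟨x, hx, rfl⟩
  refine IsCompact.of_isClosed_subset (X := Mat n) h1 ?_ ?_
  · rw [h2]
    exact D.closed.inter (isClosed_eq (continuous_id.mul continuous_id.matrix_transpose)
      continuous_const)
  · rintro _ ⟨x, hx, rfl⟩ i - j -
    have h3 := congrFun (congrFun (D.mem_K.mp hx) i) i
    simp only [Matrix.mul_apply, Matrix.transpose_apply, Matrix.one_apply_eq] at h3
    have h4 := Finset.single_le_sum (f := fun j => D.ρ x i j * D.ρ x i j)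
      (fun _ _ => mul_self_nonneg _) (Finset.mem_univ j)
    rw [h3] at h4
    exact abs_le.mp (abs_le_one_iff_mul_self_le_one.mpr h4)

/-- `K` is compact modulo the kernel. -/
theorem cen_exists_K1 [LocallyCompactSpace G] : ∃ K1 : Set G, IsCompact K1 ∧ (1 : G) ∈ K1 ∧
    K1 ⊆ D.K ∧ ∀ x ∈ D.K, ∃ z, D.ρ z = 1 ∧ ∃ y ∈ K1, x = z * y := by
  have key : ∃ C : Set G, IsCompact C ∧ D.ρ '' D.K ⊆ D.ρ '' C := by
    refine D.cen_isCompact_image_K.induction_on (p := fun s => ∃ C : Set G, IsCompact C ∧ s ⊆ D.ρ '' C)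
      ⟨∅, isCompact_empty, empty_subset _⟩ (fun s t hst ⟨C, hC, h⟩ => ⟨C, hC, hst.trans h⟩)
      (fun s t ⟨C, hC, h⟩ ⟨C', hC', h'⟩ => ⟨C ∪ C', hC.union hC', ?_⟩) ?_
    · rw [image_union]
      exact union_subset_union h h'
    · rintro _ ⟨x, -, rfl⟩
      obtain ⟨N, hN, hx⟩ := exists_compact_mem_nhds x
      exact ⟨_, nhdsWithin_mono _ (image_subset_range _ _) (D.cen_image_mem_nhds hx), N, hN,
        subset_rfl⟩
  obtain ⟨C, hC, h⟩ := key
  refine ⟨insert 1 (C ∩ D.K), (hC.inter_right D.cen_isClosed_K).insert 1, mem_insert _ _, ?_,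
    fun x hx => ?_⟩
  · rintro x (rfl | hx)
    · exact D.K.one_mem
    · exact hx.2
  · obtain ⟨y, hy, hxy⟩ := h ⟨x, hx, rfl⟩
    refine ⟨x * y⁻¹, by rw [map_mul, ← hxy, D.cen_rho_mul_inv], y, mem_insert_of_mem _ ⟨hy, ?_⟩,
      by simp⟩
    rw [SetLike.mem_coe, mem_K, hxy]
    exact hx

end Std

end Pool.Agent.P.MP_d483fb_an.Z


end

section

/-!
The kernel of the covering homomorphism is finitely generated and undistorted.
-/

open scoped Matrix Topology Pointwise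
open NormedSpace Filter Set

noncomputable section

namespace Pool.Agent.P.MP_d483fb_an.Z

variable {G : Type} [Group G] [TopologicalSpace G] [IsTopologicalGroup G] {n k : ℕ}

namespace Std

variable (D : Std G n k)

/-- Existence of polar decompositions. -/
def CenPolar : Prop := ∀ g, ∃ κ ∈ D.K, ∃ P ∈ D.g, P.IsSymm ∧ g = κ * D.ex P

/-- The symmetric part of the polar decomposition. -/
def cenP (g : G) : Mat n := (1 / 2 : ℝ) • Cen.slog ((D.ρ g)ᵀ * D.ρ g)

/-- The orthogonal part of the polar decomposition. -/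
def cenK (g : G) : G := g * (D.ex (D.cenP g))⁻¹

variable {D}

omit [IsTopologicalGroup G] in
theorem cenP_eq {κ : G} (hκ : κ ∈ D.K) {P : Mat n} (hP : P ∈ D.g) (hs : P.IsSymm) :
    D.cenP (κ * D.ex P) = P := by
  have h1 : (D.ρ κ)ᵀ * D.ρ κ = 1 := mul_eq_one_comm.mp hκ
  have h2 := Cen.exp_mul P 1 1
  rw [one_smul] at h2
  rw [cenP, map_mul, D.ρ_ex P hP, Matrix.transpose_mul, hs.exp.eq, mul_assoc, ← mul_assoc _ (D.ρ κ),
    h1, one_mul, h2, Cen.log_exp (hs.smul _), smul_smul]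
  norm_num

omit [IsTopologicalGroup G] in
theorem cenK_eq {κ : G} (hκ : κ ∈ D.K) : D.cenK κ = κ := by
  have h := cenP_eq hκ D.g.zero_mem Matrix.isSymm_zero
  rw [D.ex_zero, mul_one] at h
  rw [cenK, h, D.ex_zero, inv_one, mul_one]

omit [IsTopologicalGroup G] in
theorem CenPolar.spec (h : D.CenPolar) (g : G) :
    D.cenK g ∈ D.K ∧ D.cenP g ∈ D.g ∧ (D.cenP g).IsSymm ∧
      D.ρ g = D.ρ (D.cenK g) * exp (D.cenP g) := by
  obtain ⟨κ, hκ, P, hP, hs, rfl⟩ := h g
  rw [cenK, cenP_eq hκ hP hs, mul_inv_cancel_right]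
  exact ⟨hκ, hP, hs, by rw [map_mul, D.ρ_ex P hP]⟩

theorem CenPolar.continuous (h : D.CenPolar) : Continuous D.cenK := by
  have h1 : Continuous D.cenP := by
    refine Continuous.const_smul (Cen.continuousOn_log.comp_continuous
      (D.cont.matrix_transpose.mul D.cont) fun g => ⟨Matrix.isSymm_transpose_mul_self _, ?_⟩)
      (1 / 2 : ℝ)
    have h2 : IsUnit (D.ρ g) := (Group.isUnit g).map D.ρ
    exact ((Matrix.isUnit_transpose _).mpr h2).mul h2
  exact continuous_id.mul (D.ex_cont.comp_continuous h1 fun g => (h.spec g).2.1).inv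

/-- The orthogonal part moves by a bounded amount under small left multiplications. -/
theorem CenPolar.local [PreconnectedSpace G] [LocallyCompactSpace G] (h : D.CenPolar) :
    ∃ Q : Set G, IsCompact Q ∧ ∀ᶠ u in 𝓝 (1 : G), ∀ g, D.cenK (u * g) * (D.cenK g)⁻¹ ∈ Q := by
  obtain ⟨O, hO, hO1, hinj⟩ := D.cen_exists_inj
  have : T2Space G := IsTopologicalGroup.t2Space_of_one_sep fun x hx => by
    by_cases hxO : x ∈ O
    · refine ⟨{y | D.ρ y ≠ D.ρ x}, (isOpen_ne_fun D.cont continuous_const).mem_nhds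
        (fun e => hx (hinj _ hO1 _ hxO e).symm), by simp⟩
    · exact ⟨O, hO.mem_nhds hO1, hxO⟩
  obtain ⟨Q, hQ1, hQO, hQ⟩ := local_compact_nhds (hO.mem_nhds hO1)
  have h1 := D.cen_image_mem_nhds hQ1
  rw [map_one] at h1
  obtain ⟨N, hN, hNQ⟩ := mem_nhdsWithin_iff_exists_mem_nhds_inter.mp h1
  obtain ⟨δ, hδ, hδN⟩ := Cen.fr_nhds hN
  have h2 : Continuous fun u : G =>
      2 * Cen.fr (D.ρ u - 1) + 2 * (Cen.fr (D.ρ u) + Cen.fr (D.ρ u⁻¹) - 2 * n) :=
    (continuous_const.mul (Cen.continuous_fr.comp (D.cont.sub continuous_const))).add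
      (continuous_const.mul (((Cen.continuous_fr.comp D.cont).add
        (Cen.continuous_fr.comp (D.cont.comp continuous_inv))).sub continuous_const))
  have h3 : ∀ᶠ u in 𝓝 (1 : G),
      2 * Cen.fr (D.ρ u - 1) + 2 * (Cen.fr (D.ρ u) + Cen.fr (D.ρ u⁻¹) - 2 * n) < δ :=
    (h2.tendsto 1).eventually_lt_const (by simpa [Cen.fr, two_mul] using hδ)
  have h4 : ∀ᶠ u in 𝓝 (1 : G), D.cenK u ∈ Q :=
    h.continuous.continuousAt.preimage_mem_nhds (by rwa [cenK_eq D.K.one_mem])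
  refine ⟨Q, hQ, ?_⟩
  filter_upwards [h3, h4] with u hu hu'
  have hc : Continuous fun g => D.cenK (u * g) * (D.cenK g)⁻¹ :=
    (h.continuous.comp (continuous_const.mul continuous_id)).mul h.continuous.inv
  have h5 : ∀ g, D.cenK (u * g) * (D.cenK g)⁻¹ ∈ O → D.cenK (u * g) * (D.cenK g)⁻¹ ∈ Q := by
    intro g hg
    obtain ⟨a1, -, a3, a4⟩ := h.spec g
    obtain ⟨b1, -, b3, b4⟩ := h.spec (u * g)
    have e1 : D.ρ (D.cenK g)⁻¹ = (D.ρ (D.cenK g))ᵀ := by
      rw [← mul_one (D.ρ (D.cenK g)⁻¹), ← D.mem_K.mp a1, ← mul_assoc, D.cen_rho_inv_mul, one_mul]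
    have e2 := Cen.fr_polar (D.cen_rho_mul_inv u) a1 b1 a3 b3 (by rw [← a4, ← b4, map_mul])
    rw [← e1, ← map_mul] at e2
    obtain ⟨q, hq, e3⟩ := hNQ ⟨hδN _ (e2.trans_lt hu), mem_range_self _⟩
    rwa [← hinj _ (hQO hq) _ hg e3]
  have h6 : IsClopen {g | D.cenK (u * g) * (D.cenK g)⁻¹ ∈ Q} := by
    refine ⟨hQ.isClosed.preimage hc, ?_⟩
    have : {g | D.cenK (u * g) * (D.cenK g)⁻¹ ∈ Q} = {g | D.cenK (u * g) * (D.cenK g)⁻¹ ∈ O} :=
      Set.ext fun g => ⟨fun hg => hQO hg, h5 g⟩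
    rw [this]
    exact hO.preimage hc
  have h7 := h6.eq_univ ⟨1, by simpa [cenK_eq D.K.one_mem] using hu'⟩
  exact fun g => (h7.ge (mem_univ g) :)

theorem CenPolar.bounded [PreconnectedSpace G] [LocallyCompactSpace G] (h : D.CenPolar) {C : Set G}
    (hC : IsCompact C) :
    ∃ Q : Set G, IsCompact Q ∧ ∀ u ∈ C, ∀ g, D.cenK (u * g) * (D.cenK g)⁻¹ ∈ Q := by
  obtain ⟨Q, hQ, hV⟩ := h.local
  have hmul : ∀ u u' g, D.cenK (u * u' * g) * (D.cenK g)⁻¹ =
      D.cenK (u * (u' * g)) * (D.cenK (u' * g))⁻¹ * (D.cenK (u' * g) * (D.cenK g)⁻¹) :=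
    fun u u' g => by simp [mul_assoc]
  let H : Subgroup G :=
    { carrier := {u | ∃ R : Set G, IsCompact R ∧ ∀ g, D.cenK (u * g) * (D.cenK g)⁻¹ ∈ R}
      one_mem' := ⟨{1}, isCompact_singleton, by simp⟩
      mul_mem' := by
        rintro u u' ⟨R, hR, h1⟩ ⟨R', hR', h2⟩
        exact ⟨R * R', hR.mul hR', fun g => hmul u u' g ▸ mul_mem_mul (h1 _) (h2 _)⟩
      inv_mem' := by
        rintro u ⟨R, hR, h1⟩
        refine ⟨R⁻¹, hR.inv, fun g => ?_⟩
        simpa using h1 (u⁻¹ * g) }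
  have hHo : IsOpen (H : Set G) :=
    H.isOpen_of_mem_nhds (g := 1) (mem_of_superset hV fun u hu => ⟨Q, hQ, hu⟩)
  have hH : (H : Set G) = univ := IsClopen.eq_univ ⟨H.isClosed_of_isOpen hHo, hHo⟩ ⟨1, H.one_mem⟩
  refine hC.induction_on (p := fun s => ∃ Q : Set G, IsCompact Q ∧
    ∀ u ∈ s, ∀ g, D.cenK (u * g) * (D.cenK g)⁻¹ ∈ Q) ⟨∅, isCompact_empty, by simp⟩
    (fun s t hst ⟨R, hR, h1⟩ => ⟨R, hR, fun u hu => h1 u (hst hu)⟩)
    (fun s t ⟨R, hR, h1⟩ ⟨R', hR', h2⟩ => ⟨R ∪ R', hR.union hR', fun u hu g =>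
      hu.elim (fun hu => Or.inl (h1 u hu g)) fun hu => Or.inr (h2 u hu g)⟩) fun x _ => ?_
  obtain ⟨R, hR, h1⟩ : x ∈ (H : Set G) := hH ▸ mem_univ x
  have h2 : Tendsto (fun u : G => u * x⁻¹) (𝓝 x) (𝓝 1) := by
    have := (tendsto_id (x := 𝓝 x)).mul_const x⁻¹
    rwa [mul_inv_cancel] at this
  refine ⟨_, mem_nhdsWithin_of_mem_nhds (h2.eventually hV), Q * R, hQ.mul hR, fun u hu g => ?_⟩
  have h3 := hmul (u * x⁻¹) x g
  rw [inv_mul_cancel_right] at h3
  rw [h3]
  exact mul_mem_mul (hu _) (h1 _)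

end Std

omit [TopologicalSpace G] [IsTopologicalGroup G] in
theorem Cen.prod_update [DecidableEq G] {L : List G} (hL : L.Nodup)
    (hc : ∀ t ∈ L, ∀ g, t * g = g * t) {t : G} (ht : t ∈ L) (m : G → ℕ) :
    (L.map fun s => s ^ Function.update m t (m t + 1) s).prod = t * (L.map fun s => s ^ m s).prod := by
  induction L with
  | nil => simp at ht
  | cons a L ih =>
    rw [List.nodup_cons] at hL
    simp only [List.map_cons, List.prod_cons]
    rcases List.mem_cons.mp ht with rfl | ht'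
    · rw [Function.update_self, pow_succ', mul_assoc, List.map_congr_left]
      intro s hs
      rw [Function.update_of_ne (ne_of_mem_of_not_mem hs hL.1)]
    · rw [ih hL.2 (fun s hs => hc s (List.mem_cons_of_mem _ hs)) ht',
        Function.update_of_ne (ne_of_mem_of_not_mem ht' hL.1).symm, ← mul_assoc, ← mul_assoc, hc t ht]

/-- Every element of the kernel is a product of powers of finitely many fixed elements of the
kernel, with exponents at most linear in the length. -/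
theorem Std.CenPolar.undist [PreconnectedSpace G] [LocallyCompactSpace G] {D : Std G n k}
    (h : D.CenPolar) (l : Len G) : ∃ L : List G, (∀ t ∈ L, D.ρ t = 1) ∧ ∀ z, D.ρ z = 1 →
      ∃ m : G → ℕ, (∀ t, m t ≤ l.len z + 2) ∧ z = (L.map fun t => t ^ m t).prod := by
  classical
  obtain ⟨K1, hK1, h1, hK, hdec⟩ := D.cen_exists_K1
  obtain ⟨Q, hQ, hQb⟩ := h.bounded (l.cpt 1)
  have hF := D.cen_ker_finite (((hQ.insert 1).mul hK1).mul hK1.inv)
  have hL : ∀ t, t ∈ hF.toFinset.toList ↔ t ∈ insert 1 Q * K1 * K1⁻¹ ∧ D.ρ t = 1 := by simp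
  set L := hF.toFinset.toList
  have hk : ∀ m : G → ℕ, D.ρ (L.map fun t => t ^ m t).prod = 1 := fun m => by
    rw [map_list_prod]
    refine List.prod_eq_one fun x hx => ?_
    simp only [List.map_map, List.mem_map, Function.comp] at hx
    obtain ⟨t, ht, rfl⟩ := hx
    rw [map_pow, ((hL t).mp ht).2, one_pow]
  have hup : ∀ (N : ℕ) (m : G → ℕ), (∀ t, m t ≤ N) → ∀ t ∈ L, ∃ m' : G → ℕ, (∀ s, m' s ≤ N + 1) ∧
      (L.map fun s => s ^ m' s).prod = t * (L.map fun s => s ^ m s).prod := fun N m hm t ht => by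
    refine ⟨_, fun s => ?_, Cen.prod_update (Finset.nodup_toList _)
      (fun s hs => D.cen_ker_central ((hL s).mp hs).2) ht m⟩
    by_cases e : s = t
    · rw [e, Function.update_self]
      exact Nat.succ_le_succ (hm t)
    · rw [Function.update_of_ne e]
      exact (hm s).trans (Nat.le_succ _)
  have hstep : ∀ (N : ℕ) (u g : G), l.len u ≤ 1 →
      (∃ m : G → ℕ, (∀ t, m t ≤ N) ∧ ∃ y ∈ K1, D.cenK g = (L.map fun t => t ^ m t).prod * y) →
      ∃ m : G → ℕ, (∀ t, m t ≤ N + 1) ∧ ∃ y ∈ K1,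
        D.cenK (u * g) = (L.map fun t => t ^ m t).prod * y := by
    rintro N u g hu ⟨m, hm, y, hy, e⟩
    have hw := hQb u hu g
    have hwK : D.cenK (u * g) * (D.cenK g)⁻¹ * y ∈ D.K :=
      D.K.mul_mem (D.K.mul_mem (h.spec _).1 (D.K.inv_mem (h.spec _).1)) (hK hy)
    obtain ⟨z, hz, y', hy', e'⟩ := hdec _ hwK
    have hzL : z ∈ L := (hL z).mpr ⟨by
      rw [eq_mul_inv_of_mul_eq e'.symm]
      exact mul_mem_mul (mul_mem_mul (mem_insert_of_mem _ hw) hy) (inv_mem_inv.mpr hy'), hz⟩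
    obtain ⟨m', hm', e2⟩ := hup N m hm z hzL
    refine ⟨m', hm', y', hy', ?_⟩
    rw [e2, D.cen_ker_central hz, mul_assoc, ← e', D.cen_ker_central (hk m), mul_assoc,
      ← D.cen_ker_central (hk m), ← e, inv_mul_cancel_right]
  have hone : ∃ m : G → ℕ, (∀ t, m t ≤ 0) ∧ ∃ y ∈ K1,
      D.cenK 1 = (L.map fun t => t ^ m t).prod * y :=
    ⟨fun _ => 0, fun _ => le_rfl, 1, h1, by simp [Std.cenK_eq D.K.one_mem]⟩
  have hall : ∀ (N : ℕ) (g : G), l.len g ≤ N → ∃ m : G → ℕ, (∀ t, m t ≤ N + 1) ∧ ∃ y ∈ K1,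
      D.cenK g = (L.map fun t => t ^ m t).prod * y := by
    intro N
    induction N with
    | zero => exact fun g hg => by simpa using hstep 0 g 1 (hg.trans zero_le_one) hone
    | succ N ih =>
      intro g hg
      obtain ⟨u, g', hu, hg', rfl⟩ := l.step g N hg
      exact hstep _ u g' hu (ih g' hg')
  refine ⟨L, fun t ht => ((hL t).mp ht).2, fun z hz => ?_⟩
  obtain ⟨m, hm, y, hy, e⟩ := hall _ z le_rfl
  rw [Std.cenK_eq (D.cen_ker_le_K hz)] at e
  have hyk : D.ρ y = 1 := by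
    have := congrArg D.ρ e
    rwa [map_mul, hk, hz, one_mul, eq_comm] at this
  obtain ⟨m', hm', e2⟩ := hup _ m hm y ((hL y).mpr ⟨by
    simpa using mul_mem_mul (mul_mem_mul (mem_insert 1 Q) hy) (inv_mem_inv.mpr h1), hyk⟩)
  exact ⟨m', hm', by rw [e2, D.cen_ker_central hyk, ← e]⟩

end Pool.Agent.P.MP_d483fb_an.Z

end

end

section

/-!
The kernel is undistorted: word form.
-/

open Set

namespace Pool.Agent.P.MP_d483fb_an.Z

variable {G : Type} [Group G] [TopologicalSpace G] [IsTopologicalGroup G] {n k : ℕ}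

omit [TopologicalSpace G] [IsTopologicalGroup G] in
theorem Cen.exists_word (L : List G) (m : G → ℕ) {N : ℕ} (hm : ∀ t, m t ≤ N) :
    ∃ W : List G, (∀ t ∈ W, t ∈ L) ∧ W.length ≤ L.length * N ∧
      (L.map fun t => t ^ m t).prod = W.prod := by
  induction L with
  | nil => exact ⟨[], by simp, by simp, by simp⟩
  | cons a L ih =>
    obtain ⟨W, h1, h2, h3⟩ := ih
    refine ⟨List.replicate (m a) a ++ W, fun t ht => ?_, ?_, by simp [h3]⟩
    · rcases List.mem_append.mp ht with ht | ht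
      · simp [List.eq_of_mem_replicate ht]
      · exact List.mem_cons_of_mem _ (h1 t ht)
    · have := hm a
      simp only [List.length_append, List.length_replicate, List.length_cons, add_mul]
      omega

theorem Std.CenPolar.cen1 [ConnectedSpace G] [LocallyCompactSpace G] {D : Std G n k}
    (h : D.CenPolar) (l : Len G) :
    (∃ K1 : Set G, IsCompact K1 ∧ ∀ x ∈ D.K, ∃ z y, D.ρ z = 1 ∧ y ∈ K1 ∧ x = z * y) ∧
      ∃ (T : Finset G) (C : ℕ), (∀ t ∈ T, D.ρ t = 1) ∧ ∀ z, D.ρ z = 1 → ∃ L : List G,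
        (∀ t ∈ L, t ∈ T) ∧ L.length ≤ C * (l.len z + 1) ∧ z = L.prod := by
  classical
  obtain ⟨K1, h1, -, -, h2⟩ := D.cen_exists_K1
  obtain ⟨L, h3, h4⟩ := h.undist l
  refine ⟨⟨K1, h1, fun x hx => ?_⟩, L.toFinset, L.length * 2, by simpa using h3, fun z hz => ?_⟩
  · obtain ⟨z, hz, y, hy, e⟩ := h2 x hx
    exact ⟨z, y, hz, hy, e⟩
  · obtain ⟨m, hm, e⟩ := h4 z hz
    obtain ⟨W, w1, w2, w3⟩ := Cen.exists_word L m hm
    refine ⟨W, by simpa using w1, w2.trans ?_, e.trans w3⟩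
    rw [mul_assoc]
    exact Nat.mul_le_mul_left _ (by omega)

omit [IsTopologicalGroup G] in
/-- The polar decomposition from the Cartan decomposition. -/
theorem Std.cenPolar_of_kak (D : Std G n k)
    (hkak : ∀ g, ∃ k₁ ∈ D.K, ∃ k₂ ∈ D.K, ∃ s, g = k₁ * D.a s * k₂)
    (hconj : ∀ x : G, ∀ X ∈ D.g, x * D.ex X * x⁻¹ = D.ex (D.Ad x X)) : D.CenPolar := by
  intro g
  obtain ⟨k₁, h1, k₂, h2, s, rfl⟩ := hkak g
  refine ⟨k₁ * k₂, D.K.mul_mem h1 h2, D.Ad k₂⁻¹ (D.dg s), D.Ad_mem _ (D.dg_mem s), ?_, ?_⟩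
  · have e : D.ρ k₂⁻¹ = (D.ρ k₂).transpose := by
      rw [← mul_one (D.ρ k₂⁻¹), ← D.mem_K.mp h2, ← mul_assoc, D.cen_rho_inv_mul, one_mul]
    rw [ExpData.Ad_apply, inv_inv, e, Matrix.IsSymm, Matrix.transpose_mul, Matrix.transpose_mul,
      Matrix.transpose_transpose, D.dg_apply, Matrix.diagonal_transpose, mul_assoc]
  · rw [← hconj _ _ (D.dg_mem s), Std.a]
    group

end Pool.Agent.P.MP_d483fb_an.Z


end

section

/-!
Length functions of the simple factors and linear divergence for groups in standard form.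
-/

open scoped Matrix InnerProductSpace RealInnerProductSpace Topology
open NormedSpace Set

set_option linter.unusedSectionVars false
set_option linter.unusedVariables false

noncomputable section

namespace Pool.Agent.P.MP_d483fb_an.Z

theorem Cen.fr_mul_le {n : ℕ} (X Y : Mat n) : Cen.fr (X * Y) ≤ Cen.fr X * Cen.fr Y := by
  rw [Cen.fr_eq, Cen.fr_eq, Cen.fr_eq, Finset.sum_comm (f := fun i j => Y i j ^ 2),
    Finset.sum_mul_sum]
  refine Finset.sum_le_sum fun i _ => Finset.sum_le_sum fun j _ => ?_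
  rw [Matrix.mul_apply]
  exact Finset.sum_mul_sq_le_sq_mul_sq _ _ _

theorem Cen.fr_pos {n : ℕ} {X : Mat n} (h : X ≠ 0) : 0 < Cen.fr X := by
  refine (Cen.fr_nonneg X).lt_of_ne fun h0 => h ?_
  ext i j
  have := Cen.sq_le_fr X i j
  rw [← h0] at this
  exact pow_eq_zero_iff two_ne_zero |>.1 (le_antisymm this (sq_nonneg _))

namespace Std

variable {G : Type} [Group G] [TopologicalSpace G] [IsTopologicalGroup G] {n k : ℕ}
  (D : Std G n k)

theorem geo_a_add (s t : Euc k) : D.a (s + t) = D.a s * D.a t := by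
  unfold a
  rw [map_add]
  refine D.ex_add_of_commute (D.dg_mem s) (D.dg_mem t) ?_
  rw [Ring.lie_def, dg_apply, dg_apply, Matrix.diagonal_mul_diagonal, Matrix.diagonal_mul_diagonal,
    sub_eq_zero]
  simp only [mul_comm]

theorem geo_a_zero : D.a 0 = 1 := by
  unfold a
  rw [map_zero, D.ex_zero]

theorem geo_a_neg (s : Euc k) : D.a (-s) = (D.a s)⁻¹ :=
  eq_inv_of_mul_eq_one_left (by rw [← geo_a_add, neg_add_cancel, geo_a_zero])

theorem geo_a_cont : Continuous D.a :=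
  D.ex_cont.comp_continuous D.dg.continuous_of_finiteDimensional D.dg_mem

theorem geo_ρ_a (s : Euc k) : D.ρ (D.a s) = Matrix.diagonal fun i => Real.exp ⟪D.lam i, s⟫ := by
  unfold a
  rw [D.ρ_ex _ (D.dg_mem s), dg_apply, Matrix.exp_diagonal, Pi.exp_def]
  simp only [Real.exp_eq_exp_ℝ]

theorem geo_Ad_a (s : Euc k) (Y : Mat n) (i j : Fin n) :
    D.Ad (D.a s) Y i j = Real.exp ⟪D.lam i - D.lam j, s⟫ * Y i j := by
  rw [ExpData.Ad_apply, ← geo_a_neg, geo_ρ_a, geo_ρ_a, Matrix.mul_diagonal, Matrix.diagonal_mul,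
    inner_sub_left, inner_neg_right, sub_eq_add_neg, Real.exp_add]
  ring

theorem geo_fr_K {x y : G} (hx : x ∈ D.K) (hy : y ∈ D.K) (X : Mat n) :
    Cen.fr (D.ρ x * X * D.ρ y) = Cen.fr X :=
  Cen.fr_conj (mul_eq_one_comm.1 hx) hy X

theorem geo_fr_Ad_K {x : G} (hx : x ∈ D.K) (X : Mat n) : Cen.fr (D.Ad x X) = Cen.fr X := by
  rw [ExpData.Ad_apply]
  exact D.geo_fr_K hx (D.K.inv_mem hx) X

theorem geo_len_a (l : Len G) : ∃ B : ℕ, ∀ s, (l.len (D.a s) : ℝ) ≤ B * (‖s‖ + 2) := by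
  obtain ⟨B, hB⟩ := l.bdd ((isCompact_closedBall (0 : Euc k) 1).image D.geo_a_cont)
  refine ⟨B, fun s => ?_⟩
  have a_pow : ∀ (s : Euc k) (j : ℕ), D.a s ^ j = D.a ((j : ℝ) • s) := by
    intro s j
    induction j with
    | zero => simp [geo_a_zero]
    | succ j ih => rw [pow_succ, ih, ← geo_a_add, Nat.cast_succ, add_smul, one_smul]
  set N : ℕ := ⌈‖s‖⌉₊ + 1 with hN
  have hN0 : (0 : ℝ) < N := by positivity
  have h1 : ‖s‖ ≤ N := by push_cast [hN]; linarith [Nat.le_ceil ‖s‖]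
  have h2 : (N : ℝ) ≤ ‖s‖ + 2 := by
    push_cast [hN]; linarith [Nat.ceil_lt_add_one (norm_nonneg s)]
  have h3 : D.a s = D.a ((N : ℝ)⁻¹ • s) ^ N := by
    rw [a_pow, smul_smul, mul_inv_cancel₀ hN0.ne', one_smul]
  have h4 : l.len (D.a ((N : ℝ)⁻¹ • s)) ≤ B := by
    refine hB _ ⟨_, ?_, rfl⟩
    rwa [mem_closedBall_zero_iff, norm_smul, norm_inv, Real.norm_natCast, inv_mul_le_iff₀ hN0,
      mul_one]
  have h5 : l.len (D.a s) ≤ N * B := by
    rw [h3]
    exact (l.len_pow _ N).trans (Nat.mul_le_mul_left N h4)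
  calc (l.len (D.a s) : ℝ) ≤ N * B := by exact_mod_cast h5
    _ ≤ (‖s‖ + 2) * B := by gcongr
    _ = _ := mul_comm _ _

/-- the Cartan projection is at most linear in the word length -/
theorem geo_norm_le (l : Len G) : ∃ C : ℝ, 0 ≤ C ∧ ∀ k₁ ∈ D.K, ∀ k₂ ∈ D.K, ∀ s,
    ‖s‖ ≤ C * (l.len (k₁ * D.a s * k₂) + 1) := by
  let f : G → ℝ := fun g => Real.log (1 + Cen.fr (D.ρ g))
  have hpos : ∀ g, 0 < 1 + Cen.fr (D.ρ g) := fun g => by linarith [Cen.fr_nonneg (D.ρ g)]
  have hf : ∀ g h, f (g * h) ≤ f g + f h := fun g h => by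
    simp only [f]
    rw [← Real.log_mul (hpos g).ne' (hpos h).ne']
    refine Real.log_le_log (hpos _) ?_
    rw [map_mul]
    nlinarith [Cen.fr_mul_le (D.ρ g) (D.ρ h), Cen.fr_nonneg (D.ρ g), Cen.fr_nonneg (D.ρ h)]
  have hc : Continuous f :=
    (continuous_const.add (Cen.continuous_fr.comp D.cont)).log fun g => (hpos g).ne'
  obtain ⟨C, hC⟩ := ((l.cpt 1).image hc).bddAbove
  have h1 : ∀ u, l.len u ≤ 1 → f u ≤ max C 0 := fun u hu =>
    (hC ⟨u, hu, rfl⟩).trans (le_max_left _ _)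
  have h2 := l.le_linear f hf h1 (le_max_right _ _)
  have h3 : ∀ k₁ ∈ D.K, ∀ k₂ ∈ D.K, ∀ s i,
      ⟪D.lam i, s⟫ ≤ max C 0 * (l.len (k₁ * D.a s * k₂) + 1) := by
    intro k₁ hk₁ k₂ hk₂ s i
    have h4 := h2 (k₁ * D.a s * k₂)
    simp only [f] at h4
    rw [map_mul, map_mul, D.geo_fr_K hk₁ hk₂] at h4
    have h5 := Cen.sq_le_fr (D.ρ (D.a s)) i i
    rw [geo_ρ_a, Matrix.diagonal_apply_eq, ← geo_ρ_a] at h5
    refine le_trans ?_ h4
    rw [Real.le_log_iff_exp_le (hpos _)]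
    nlinarith [sq_nonneg (Real.exp ⟪D.lam i, s⟫ - 1), Real.exp_pos ⟪D.lam i, s⟫]
  refine ⟨n * max C 0, by positivity, fun k₁ hk₁ k₂ hk₂ s => ?_⟩
  set B : ℝ := max C 0 * (l.len (k₁ * D.a s * k₂) + 1) with hB
  have hB0 : 0 ≤ B := by positivity
  have h4 : ∀ i, ⟪D.lam i, s⟫ * ⟪D.lam i, s⟫ ≤ B ^ 2 := fun i => by
    have h5 := h3 k₁ hk₁ k₂ hk₂ s i
    have h6 := h3 _ (D.K.inv_mem hk₂) _ (D.K.inv_mem hk₁) (-s) i
    rw [geo_a_neg, ← mul_inv_rev, ← mul_inv_rev, l.len_inv, ← mul_assoc, inner_neg_right] at h6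
    rw [← sq]
    exact sq_le_sq' (by linarith) h5
  have h5 : ‖s‖ ^ 2 ≤ (n * B) ^ 2 := by
    rw [← real_inner_self_eq_norm_sq, ← D.frame s s]
    calc ∑ i, ⟪D.lam i, s⟫ * ⟪D.lam i, s⟫ ≤ ∑ _i : Fin n, B ^ 2 := Finset.sum_le_sum fun i _ => h4 i
      _ = n * B ^ 2 := by simp
      _ ≤ n ^ 2 * B ^ 2 := by
          gcongr
          exact_mod_cast Nat.le_self_pow two_ne_zero n
      _ = _ := by ring
  rw [mul_assoc]
  exact (pow_le_pow_iff_left₀ (norm_nonneg _) (by positivity) two_ne_zero).1 h5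

open Classical in
/-- the roots of the simple factor of `γ` -/
def cl (γ : Euc k) : Finset (Euc k) := D.roots.filter fun β => D.Conn γ β

theorem mem_cl {γ β : Euc k} : β ∈ D.cl γ ↔ β ∈ D.roots ∧ D.Conn γ β := by
  classical
  unfold cl
  exact Finset.mem_filter

theorem geo_ne_zero {β : Euc k} (h : β ∈ D.roots) : β ≠ 0 ∧ D.gr β ≠ ⊥ := by
  classical
  unfold roots at h
  exact (Finset.mem_filter.1 h).2

theorem geo_conn_symm {β γ : Euc k} (h : D.Conn β γ) : D.Conn γ β := by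
  induction h with
  | refl => exact .refl
  | tail _ h ih => exact .head ⟨h.2.1, h.1, by rw [real_inner_comm]; exact h.2.2⟩ ih

theorem cl_eq {β γ : Euc k} (h : D.Conn β γ) : D.cl β = D.cl γ := by
  ext x
  simp only [mem_cl]
  exact and_congr_right fun _ => ⟨fun h1 => (D.geo_conn_symm h).trans h1, fun h1 => h.trans h1⟩

section ideal

variable [ConnectedSpace G] {D} {c : Finset (Euc k)} {J : Submodule ℝ (Mat n)}

theorem geo_bd (hJ : IsIdl D.g J) (hw : J ≤ D.wtS {β | β = 0 ∨ β ∈ c}) {k₁ k₂ : G}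
    (h₁ : k₁ ∈ D.K) (h₂ : k₂ ∈ D.K) (s : Euc k) {Y : Mat n} (hY : Y ∈ J) :
    Cen.fr (D.Ad (k₁ * D.a s * k₂) Y) ≤ Real.exp (pc c s) ^ 2 * Cen.fr Y := by
  rw [D.Ad_mul, D.Ad_mul, D.geo_fr_Ad_K h₁, ← D.geo_fr_Ad_K h₂ Y]
  have h := hw (D.Ad_mem_of_br hJ.2 k₂ hY)
  generalize D.Ad k₂ Y = Z at h
  rw [Cen.fr_eq, Cen.fr_eq, Finset.mul_sum]
  refine Finset.sum_le_sum fun i _ => ?_
  rw [Finset.mul_sum]
  refine Finset.sum_le_sum fun j _ => ?_
  rw [geo_Ad_a, mul_pow]
  by_cases h0 : Z i j = 0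
  · simp [h0]
  gcongr
  rcases h i j h0 with h1 | h1
  · rw [h1, inner_zero_left]
    exact apply_nonneg _ _
  · exact (le_abs_self _).trans (le_pc h1 s)

theorem geo_le (hJ : IsIdl D.g J) (hc : c.Nonempty) (hneg : ∀ β ∈ c, -β ∈ c)
    (hr : ∀ β ∈ c, β ∈ D.roots ∧ D.gr β ≤ J) {k₁ k₂ : G} (h₁ : k₁ ∈ D.K) (h₂ : k₂ ∈ D.K)
    {s : Euc k} {t : ℝ}
    (h : ∀ Y ∈ J, Cen.fr (D.Ad (k₁ * D.a s * k₂) Y) ≤ Real.exp t ^ 2 * Cen.fr Y) : pc c s ≤ t := by
  obtain ⟨β, hβ, e⟩ := exists_pc_pos hc hneg s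
  obtain ⟨X, hX, hX0⟩ := (Submodule.ne_bot_iff _).1 (D.geo_ne_zero (hr β hβ).1).2
  have h1 := h _ (D.Ad_mem_of_br hJ.2 k₂⁻¹ ((hr β hβ).2 hX))
  rw [D.Ad_mul, D.Ad_mul, D.Ad_Ad_inv, D.geo_fr_Ad_K h₁, D.geo_fr_Ad_K (D.K.inv_mem h₂)] at h1
  have h2 : Cen.fr (D.Ad (D.a s) X) = Real.exp ⟪β, s⟫ ^ 2 * Cen.fr X := by
    rw [Cen.fr_eq, Cen.fr_eq, Finset.mul_sum]
    refine Finset.sum_congr rfl fun i _ => ?_
    rw [Finset.mul_sum]
    refine Finset.sum_congr rfl fun j _ => ?_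
    rw [geo_Ad_a, mul_pow]
    by_cases h0 : X i j = 0
    · simp [h0]
    · rw [show D.lam i - D.lam j = β from hX.2 i j h0]
  rw [h2, mul_le_mul_iff_left₀ (Cen.fr_pos hX0),
    pow_le_pow_iff_left₀ (Real.exp_pos _).le (Real.exp_pos _).le two_ne_zero,
    Real.exp_le_exp] at h1
  rwa [e]

end ideal

/-- linear divergence from the structure theory -/
theorem geo_of [ConnectedSpace G] [LocallyCompactSpace G] (l : Len G)
    (kak : ∀ g, ∃ k₁ ∈ D.K, ∃ k₂ ∈ D.K, ∃ s, g = k₁ * D.a s * k₂)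
    (neg : ∀ β ∈ D.roots, -β ∈ D.roots)
    (two : ∀ γ ∈ D.roots, ∃ β ∈ D.roots, D.Conn γ β ∧ ∀ c : ℝ, β ≠ c • γ)
    (idl : ∀ γ ∈ D.roots, ∃ J : Submodule ℝ (Mat n), IsIdl D.g J ∧
      (∀ β ∈ D.roots, D.Conn γ β → D.gr β ≤ J) ∧
      J ≤ D.wtS {β | β = 0 ∨ (β ∈ D.roots ∧ D.Conn γ β)}) :
    ∃ S : Set G, IsCompact S ∧ (∀ s ∈ S, s ∈ range D.a ∨ D.ρ s = 1) ∧
      Nonempty (Geo l D.Far S) := by
  classical
  obtain ⟨K, hK, -, hKK, hK1⟩ := D.cen_exists_K1
  obtain ⟨-, T, CT, hT, hT1⟩ := (D.cenPolar_of_kak kak fun x X hX => D.conj_ex x hX).cen1 l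
  choose k₁ hk₁ k₂ hk₂ σ hσ using kak
  let 𝒞 : Finset (Finset (Euc k)) := D.roots.image D.cl
  have h𝒞 : ∀ c ∈ 𝒞, ∃ γ ∈ D.roots, D.cl γ = c := fun c hc => Finset.mem_image.1 hc
  have hself : ∀ γ ∈ D.roots, γ ∈ D.cl γ := fun γ h => D.mem_cl.2 ⟨h, .refl⟩
  have hne : ∀ c ∈ 𝒞, c.Nonempty := fun c hc => by
    obtain ⟨γ, hγ, rfl⟩ := h𝒞 c hc
    exact ⟨γ, hself γ hγ⟩
  have hneg : ∀ c ∈ 𝒞, ∀ β ∈ c, -β ∈ c := fun c hc β hβ => by
    obtain ⟨γ, hγ, rfl⟩ := h𝒞 c hc
    obtain ⟨h1, h2⟩ := D.mem_cl.1 hβ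
    refine D.mem_cl.2 ⟨neg β h1, h2.tail ⟨h1, neg β h1, ?_⟩⟩
    rw [inner_neg_right, neg_ne_zero]
    exact inner_self_ne_zero.2 (D.geo_ne_zero h1).1
  have hsub : ∀ c ∈ 𝒞, ∀ g h, ∀ x ∈ D.K, ∀ y ∈ D.K, ∀ s, g * h = x * D.a s * y →
      ∀ x₁ ∈ D.K, ∀ y₁ ∈ D.K, ∀ s₁, g = x₁ * D.a s₁ * y₁ →
      ∀ x₂ ∈ D.K, ∀ y₂ ∈ D.K, ∀ s₂, h = x₂ * D.a s₂ * y₂ → pc c s ≤ pc c s₁ + pc c s₂ := by
    intro c hc g h x hx y hy s e x₁ hx₁ y₁ hy₁ s₁ e₁ x₂ hx₂ y₂ hy₂ s₂ e₂
    obtain ⟨γ, hγ, rfl⟩ := h𝒞 c hc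
    obtain ⟨J, hJ, hJ1, hJ2⟩ := idl γ hγ
    have hw : J ≤ D.wtS {β | β = 0 ∨ β ∈ D.cl γ} := by simpa only [D.mem_cl] using hJ2
    refine geo_le hJ (hne _ hc) (hneg _ hc)
      (fun β hβ => ⟨(D.mem_cl.1 hβ).1, hJ1 β (D.mem_cl.1 hβ).1 (D.mem_cl.1 hβ).2⟩) hx hy
      fun Y hY => ?_
    rw [← e, D.Ad_mul, Real.exp_add, mul_pow, mul_assoc]
    have h1 := geo_bd hJ hw hx₁ hy₁ s₁ (D.Ad_mem_of_br hJ.2 h hY)
    have h2 := geo_bd hJ hw hx₂ hy₂ s₂ hY
    rw [← e₁] at h1
    rw [← e₂] at h2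
    exact h1.trans (mul_le_mul_of_nonneg_left h2 (sq_nonneg _))
  have heq : ∀ c ∈ 𝒞, ∀ x ∈ D.K, ∀ y ∈ D.K, ∀ s, pc c (σ (x * D.a s * y)) = pc c s := by
    intro c hc x hx y hy s
    have h0 : (1 : G) = 1 * D.a 0 * 1 := by simp [geo_a_zero]
    have h1 := hsub c hc (x * D.a s * y) 1 _ (hk₁ _) _ (hk₂ _) _ (by rw [mul_one]; exact hσ _)
      x hx y hy s rfl 1 D.K.one_mem 1 D.K.one_mem 0 h0
    have h2 := hsub c hc (x * D.a s * y) 1 x hx y hy s (mul_one _) _ (hk₁ _) _ (hk₂ _) _ (hσ _)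
      1 D.K.one_mem 1 D.K.one_mem 0 h0
    rw [map_zero, add_zero] at h1 h2
    exact le_antisymm h1 h2
  have hK0 : ∀ c ∈ 𝒞, ∀ y ∈ D.K, pc c (σ y) ≤ 0 := fun c hc y hy => by
    have h := heq c hc y hy 1 D.K.one_mem 0
    rw [geo_a_zero, mul_one, mul_one, map_zero] at h
    exact h.le
  obtain ⟨Cn, hCn0, hCn⟩ := D.geo_norm_le l
  have hσn : ∀ g, ‖σ g‖ ≤ Cn * (l.len g + 1) := fun g => by
    have h := hCn _ (hk₁ g) _ (hk₂ g) (σ g)
    rwa [← hσ] at h
  obtain ⟨Ba, hBa⟩ := D.geo_len_a l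
  obtain ⟨BK, hBK⟩ := l.bdd hK
  obtain ⟨s₀, -, hs₀, hs₁⟩ := exists_generic ⊤ D.roots
    (fun β hβ => ⟨β, trivial, inner_self_ne_zero.2 (D.geo_ne_zero hβ).1⟩) (s₀ := 0) trivial
    (Metric.closedBall_mem_nhds 0 one_pos)
  obtain ⟨C1, hC1⟩ := exists_nat_ge (1 + 2 * BK + Ba * (Cn + 2) + Cn)
  refine ⟨_, ((isCompact_closedBall 0 1).image D.geo_a_cont).union T.finite_toSet.isCompact, ?_,
    geo_abs l D.Far D.a D.geo_a_add D.geo_a_cont 𝒞 hneg ?_ ?_ (fun c g => pc c (σ g))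
      (fun c hc g h => hsub c hc g h _ (hk₁ _) _ (hk₂ _) _ (hσ _) _ (hk₁ _) _ (hk₂ _) _ (hσ _)
        _ (hk₁ _) _ (hk₂ _) _ (hσ _)) ?_ ?_ (Cl := (∑ β ∈ D.roots, ‖β‖) * Cn) ?_ ?_
      (s₀ := s₀) (by simpa using hs₀) ?_ hK T (fun t ht => D.cen_ker_central (hT t ht))
      (fun c hc y hy => hK0 c hc y (hKK hy))
      (fun c hc y hy => hK0 c hc y (D.cen_ker_le_K (hT y hy))) (Cd := (CT + 1) * C1) ?_⟩
  · rintro s (⟨t, -, rfl⟩ | hs)
    · exact Or.inl ⟨t, rfl⟩
    · exact Or.inr (hT s hs)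
  · intro c hc
    obtain ⟨γ, hγ, rfl⟩ := h𝒞 c hc
    obtain ⟨β, hβ, h1, h2⟩ := two γ hγ
    exact ⟨γ, hself γ hγ, β, D.mem_cl.2 ⟨hβ, h1⟩, (D.geo_ne_zero hγ).1, h2⟩
  · intro c hc c' hc' hne β hβ β' hβ'
    obtain ⟨γ, hγ, rfl⟩ := h𝒞 c hc
    obtain ⟨γ', hγ', rfl⟩ := h𝒞 c' hc'
    by_contra h
    rw [D.mem_cl] at hβ hβ'
    exact hne (D.cl_eq ((hβ.2.tail ⟨hβ.1, hβ'.1, h⟩).trans (D.geo_conn_symm hβ'.2)))
  · intro c hc g
    have h := heq c hc _ (D.K.inv_mem (hk₂ g)) _ (D.K.inv_mem (hk₁ g)) (-σ g)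
    rwa [geo_a_neg, ← mul_inv_rev, ← mul_inv_rev, ← mul_assoc, ← hσ, map_neg_eq_map] at h
  · intro c hc s
    simpa using heq c hc 1 D.K.one_mem 1 D.K.one_mem s
  · intro c hc g
    obtain ⟨γ, hγ, rfl⟩ := h𝒞 c hc
    rw [mul_assoc]
    refine (pc_le_norm _ _).trans (mul_le_mul ?_ (hσn g) (norm_nonneg _) (by positivity))
    exact Finset.sum_le_sum_of_subset_of_nonneg (fun β hβ => (D.mem_cl.1 hβ).1)
      fun _ _ _ => norm_nonneg _
  · intro g t h
    refine ⟨_, hk₁ g, _, hk₂ g, σ g, hσ g, fun γ hγ => ?_⟩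
    have hc : D.cl γ ∈ 𝒞 := Finset.mem_image_of_mem _ hγ
    obtain ⟨β, hβ, e⟩ := exists_pc (hne _ hc) (σ g)
    exact ⟨β, (D.mem_cl.1 hβ).1, (D.mem_cl.1 hβ).2, e ▸ h _ hc⟩
  · intro c hc
    obtain ⟨γ, hγ, rfl⟩ := h𝒞 c hc
    exact (abs_pos.2 (hs₁ γ hγ)).trans_le (le_pc (hself γ hγ) s₀)
  · intro g
    obtain ⟨z₁, hz₁, y₁, hy₁, e₁⟩ := hK1 _ (hk₁ g)
    obtain ⟨z₂, hz₂, y₂, hy₂, e₂⟩ := hK1 _ (hk₂ g)
    obtain ⟨L, hL, hL1, hL2⟩ := hT1 (z₁ * z₂) (by rw [map_mul, hz₁, hz₂, mul_one])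
    have e : g = z₁ * z₂ * (y₁ * D.a (σ g) * y₂) := by
      conv_lhs => rw [hσ g, e₁, e₂]
      rw [← mul_assoc _ z₂, ← D.cen_ker_central hz₂, ← mul_assoc z₂, ← mul_assoc z₂,
        D.cen_ker_central hz₂ z₁]
      simp only [mul_assoc]
    have h0 : (0 : ℝ) ≤ l.len g := Nat.cast_nonneg _
    have h1 : l.len (z₁ * z₂) + 1 ≤ C1 * (l.len g + 1) := by
      have h2 := l.len_mul g (y₁ * D.a (σ g) * y₂)⁻¹
      rw [l.len_inv, ← eq_mul_inv_of_mul_eq e.symm] at h2
      have h3 := l.len_mul3 y₁ (D.a (σ g)) y₂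
      have h4 : (l.len (z₁ * z₂) : ℝ) ≤ l.len g + 2 * BK + l.len (D.a (σ g)) := by
        have := hBK _ hy₁
        have := hBK _ hy₂
        exact_mod_cast (by omega : l.len (z₁ * z₂) ≤ l.len g + 2 * BK + l.len (D.a (σ g)))
      have h5 : (l.len (D.a (σ g)) : ℝ) ≤ Ba * (Cn + 2) * (l.len g + 1) := by
        refine (hBa _).trans ?_
        rw [mul_assoc]
        gcongr
        nlinarith [hσn g]
      have h6 : (l.len (z₁ * z₂) : ℝ) + 1 ≤ C1 * (l.len g + 1) := by
        have : (0 : ℝ) ≤ BK := Nat.cast_nonneg _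
        calc (l.len (z₁ * z₂) : ℝ) + 1
            ≤ (1 + 2 * BK + Ba * (Cn + 2) + Cn) * (l.len g + 1) := by nlinarith
          _ ≤ _ := by gcongr
      exact_mod_cast h6
    refine ⟨y₁, hy₁, y₂, hy₂, σ g, L, hL, hL1.trans ?_, (hσn g).trans ?_, hL2 ▸ e⟩
    · rw [mul_assoc]
      exact Nat.mul_le_mul (by omega) h1
    · have : (0 : ℝ) ≤ BK := Nat.cast_nonneg _
      have : (0 : ℝ) ≤ Ba * (Cn + 2) := by positivity
      have : (0 : ℝ) ≤ CT * C1 := by positivity
      push_cast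
      gcongr
      linarith

end Std

end Pool.Agent.P.MP_d483fb_an.Z

end

end

section

/-!
A cocycle that grows subexponentially in probability along the Cartan subgroup has an invariant
probability measure on the skew product: abstract form.
-/

open scoped Topology ENNReal RealInnerProductSpace Pointwise
open MeasureTheory Filter Set

set_option linter.unusedSectionVars false

noncomputable section

namespace Pool.Agent.P.MP_d483fb_an.Z.TZ

/-- The normalised square of a nonzero square integrable function. -/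
theorem exists_prob_of_L2 {Ω : Type} [MeasurableSpace Ω] (lam : Measure Ω) (ξ : Lp ℝ 2 lam)
    (hξ : ξ ≠ 0) : ∃ η : Measure Ω, IsProbabilityMeasure η ∧ η ≪ lam ∧ ∀ T : Ω → Ω,
      MeasurePreserving T lam lam → (ξ =ᵐ[lam] fun ω => ξ (T ω)) → MeasurePreserving T η η := by
  set ρ : Ω → ℝ≥0∞ := fun ω => ENNReal.ofReal (ξ ω ^ 2) with hρ
  have hm : Measurable ρ := ((Lp.stronglyMeasurable ξ).measurable.pow_const 2).ennreal_ofReal
  have hi : Integrable (fun ω => ξ ω ^ 2) lam := (Lp.memLp ξ).integrable_sq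
  have h1 : ∫⁻ ω, ρ ω ∂lam ≠ ∞ := hi.lintegral_lt_top.ne
  have h0 : ∫⁻ ω, ρ ω ∂lam ≠ 0 := by
    intro h
    refine hξ (Lp.eq_zero_iff_ae_eq_zero.2 ?_)
    filter_upwards [(lintegral_eq_zero_iff hm).1 h] with ω hω
    have h2 : ξ ω ^ 2 ≤ 0 := ENNReal.ofReal_eq_zero.1 hω
    exact pow_eq_zero_iff (two_ne_zero) |>.1 (le_antisymm h2 (sq_nonneg _))
  refine ⟨(∫⁻ ω, ρ ω ∂lam)⁻¹ • lam.withDensity ρ, ⟨?_⟩,
    (withDensity_absolutelyContinuous lam ρ).smul_left _, fun T hT h => ?_⟩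
  · rw [Measure.smul_apply, withDensity_apply _ MeasurableSet.univ, Measure.restrict_univ,
      smul_eq_mul, ENNReal.inv_mul_cancel h0 h1]
  · refine MeasurePreserving.smul_measure ⟨hT.measurable, ?_⟩ _
    ext s hs
    rw [Measure.map_apply hT.measurable hs, withDensity_apply _ hs,
      withDensity_apply _ (hT.measurable hs), ← hT.setLIntegral_comp_preimage hs hm]
    refine lintegral_congr_ae (ae_restrict_of_ae (h.mono fun ω hω => ?_))
    exact congrArg (fun t : ℝ => ENNReal.ofReal (t ^ 2)) hω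

variable {G : Type} [Group G] [TopologicalSpace G] [IsTopologicalGroup G] [LocallyCompactSpace G]
  [T2Space G] [SecondCountableTopology G] [MeasurableSpace G] [BorelSpace G]
  {Y : Type} [MeasurableSpace Y] {L : Type} [Group L] [MeasurableSpace L]

/-- A measurable cocycle over a measure preserving action and a weight on the target group. -/
structure FrCo (ν : Measure Y) (T : G → Y → Y) (c : G → Y → L) (f : L → ℝ) : Prop where
  mT : Measurable fun p : G × Y => T p.1 p.2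
  one : ∀ y, T 1 y = y
  mul : ∀ g h y, T (g * h) y = T g (T h y)
  mp : ∀ g, MeasurePreserving (T g) ν ν
  mc : Measurable fun p : G × Y => c p.1 p.2
  cm : ∀ g h y, c (g * h) y = c g (T h y) * c h y
  mf : Measurable f
  pos : ∀ h, 0 < f h
  fmul : ∀ g h, f g * f h ≤ f (g * h)
  finv : ∀ h, f h⁻¹ = f h

/-- The weight of the cocycle is small only with small probability. -/
def Tight (ν : Measure Y) (c : G → Y → L) (f : L → ℝ) (g : G) (Q : ℝ) (δ : ℝ≥0∞) : Prop :=
  ν {y | f (c g y) < Real.exp (-Q)} ≤ δ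

variable {ν : Measure Y} {T : G → Y → Y} {c : G → Y → L} {f : L → ℝ}

theorem Tight.mono {g : G} {Q Q' : ℝ} {δ δ' : ℝ≥0∞} (h : Tight ν c f g Q δ) (hQ : Q ≤ Q')
    (hδ : δ ≤ δ') : Tight ν c f g Q' δ' :=
  (measure_mono fun _ hy => lt_of_lt_of_le hy (Real.exp_le_exp.2 (neg_le_neg hQ))).trans
    (h.trans hδ)

namespace FrCo

variable (H : FrCo ν T c f)
include H

theorem c_one (y : Y) : c 1 y = 1 := by
  have h := H.cm 1 1 y
  rw [mul_one, H.one] at h
  exact mul_eq_left.1 h.symm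

theorem c_inv (g : G) (y : Y) : c g⁻¹ y = (c g (T g⁻¹ y))⁻¹ := by
  have h := H.cm g g⁻¹ y
  rw [mul_inv_cancel, H.c_one] at h
  exact eq_inv_of_mul_eq_one_right h.symm

theorem measSet (Q : ℝ) : MeasurableSet {p : G × Y | f (c p.1 p.2) < Real.exp (-Q)} :=
  measurableSet_lt (H.mf.comp H.mc) measurable_const

theorem measSet' (g : G) (Q : ℝ) : MeasurableSet {y | f (c g y) < Real.exp (-Q)} :=
  measurable_prodMk_left (H.measSet Q)

theorem tight_inv {g : G} {Q : ℝ} {δ : ℝ≥0∞} (h : Tight ν c f g Q δ) : Tight ν c f g⁻¹ Q δ := by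
  refine le_trans (le_of_eq ?_) h
  rw [← (H.mp g⁻¹).measure_preimage (H.measSet' g Q).nullMeasurableSet]
  congr 1
  ext y
  simp only [mem_preimage, mem_ofPred_eq, H.c_inv, H.finv]

theorem tight_mul {g g' : G} {Q Q' : ℝ} {δ δ' : ℝ≥0∞} (h : Tight ν c f g Q δ)
    (h' : Tight ν c f g' Q' δ') : Tight ν c f (g * g') (Q + Q') (δ + δ') := by
  refine le_trans ?_ (add_le_add h h')
  rw [← (H.mp g').measure_preimage (H.measSet' g Q).nullMeasurableSet]
  refine le_trans (measure_mono fun y hy => ?_) (measure_union_le _ _)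
  by_contra hn
  simp only [mem_union, mem_preimage, mem_ofPred_eq, not_or, not_lt] at hn hy
  have h1 := mul_le_mul hn.1 hn.2 (Real.exp_pos _).le (H.pos _).le
  rw [← Real.exp_add, ← neg_add] at h1
  rw [H.cm] at hy
  exact absurd (h1.trans (H.fmul _ _)) (not_le.2 hy)

variable [IsProbabilityMeasure ν]

theorem exists_tight (g : G) {δ : ℝ≥0∞} (hδ : δ ≠ 0) : ∃ j : ℕ, Tight ν c f g j δ := by
  have h1 := tendsto_measure_iInter_atTop (μ := ν)
    (s := fun j : ℕ => {y | f (c g y) < Real.exp (-(j : ℝ))})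
    (fun j => (H.measSet' g j).nullMeasurableSet)
    (fun i j hij y hy => lt_of_lt_of_le hy
      (Real.exp_le_exp.2 (neg_le_neg (Nat.cast_le.2 hij)))) ⟨0, measure_ne_top _ _⟩
  have h2 : ⋂ j : ℕ, {y | f (c g y) < Real.exp (-(j : ℝ))} = ∅ := by
    refine eq_empty_of_forall_notMem fun y hy => ?_
    have h3 : Tendsto (fun j : ℕ => Real.exp (-(j : ℝ))) atTop (𝓝 0) :=
      Real.tendsto_exp_neg_atTop_nhds_zero.comp tendsto_natCast_atTop_atTop
    exact absurd (ge_of_tendsto' h3 fun j => le_of_lt (mem_iInter.1 hy j)) (not_le.2 (H.pos _))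
  rw [h2, measure_empty] at h1
  exact (h1.eventually (ge_mem_nhds (pos_iff_ne_zero.2 hδ))).exists

theorem tight_compact {K : Set G} (hK : IsCompact K) {δ : ℝ≥0∞} (hδ : δ ≠ 0) :
    ∃ Q : ℝ, ∀ g ∈ K, Tight ν c f g Q (δ + (δ + δ)) := by
  obtain ⟨j, hj⟩ := SR.steinhaus_cover (fun j : ℕ => {g : G | Tight ν c f g j δ})
    (fun j => measurableSet_le (measurable_measure_prodMk_left (H.measSet j)) measurable_const)
    (eq_univ_of_forall fun g => mem_iUnion.2 (H.exists_tight g hδ))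
  refine hK.induction_on (p := fun s => ∃ Q : ℝ, ∀ g ∈ s, Tight ν c f g Q (δ + (δ + δ)))
    ⟨0, fun _ h => h.elim⟩ (fun s t hst ⟨Q, h⟩ => ⟨Q, fun g hg => h g (hst hg)⟩)
    (fun s t ⟨Q, h⟩ ⟨Q', h'⟩ => ⟨max Q Q', fun g hg => hg.elim
      (fun k => (h g k).mono (le_max_left _ _) le_rfl)
      fun k => (h' g k).mono (le_max_right _ _) le_rfl⟩) fun x _ => ?_
  obtain ⟨i, hi⟩ := H.exists_tight x hδ
  have h1 : Tendsto (fun g => x⁻¹ * g) (𝓝 x) (𝓝 1) := by
    have := (continuous_const_mul x⁻¹).tendsto x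
    rwa [inv_mul_cancel] at this
  refine ⟨_, mem_nhdsWithin_of_mem_nhds (h1 hj), i + (j + j), fun g ⟨s, hs, t, ht, e⟩ => ?_⟩
  have e2 : g = x * (s⁻¹ * t) := by rw [← e, mul_inv_cancel_left]
  rw [e2]
  exact H.tight_mul hi (H.tight_mul (H.tight_inv hs) ht)

theorem tight_word {Q : ℝ} {δ : ℝ≥0∞} (h1 : Real.exp (-Q) ≤ f 1) (l : List G)
    (hl : ∀ g ∈ l, Tight ν c f g Q δ) : Tight ν c f l.prod ((l.length + 1) * Q) (l.length * δ) := by
  induction l with
  | nil =>
    refine le_trans (le_of_eq (measure_mono_null (fun y hy => ?_) measure_empty)) zero_le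
    simp only [List.prod_nil, List.length_nil, Nat.cast_zero, zero_add, one_mul, mem_ofPred_eq,
      H.c_one] at hy
    exact absurd h1 (not_le.2 hy)
  | cons g l ih =>
    refine (H.tight_mul (hl g List.mem_cons_self)
      (ih fun g hg => hl g (List.mem_cons_of_mem _ hg))).mono (le_of_eq ?_) (le_of_eq ?_)
    · simp only [List.length_cons, Nat.cast_add, Nat.cast_one]
      ring
    · simp only [List.length_cons, Nat.cast_add, Nat.cast_one]
      ring

variable [MeasurableMul₂ L] (m : Measure L) [SigmaFinite m] [m.IsMulLeftInvariant]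

theorem skew_mp (g : G) :
    MeasurePreserving (fun p : Y × L => (T g p.1, c g p.1 * p.2)) (ν.prod m) (ν.prod m) :=
  (H.mp g).skew_product (g := fun y h => c g y * h)
    ((H.mc.comp (measurable_const.prodMk measurable_fst)).mul measurable_snd)
    (Eventually.of_forall fun y => map_mul_left_eq_self m (c g y))

theorem lower (hf : MemLp f 2 m) {g : G} {Q : ℝ} (h : Tight ν c f g Q 2⁻¹)
    (hi : Integrable (fun p : Y × L => f (c g p.1 * p.2) * f p.2) (ν.prod m)) :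
    2⁻¹ * (Real.exp (-Q) * ∫ h, f h ^ 2 ∂m) ≤ ∫ p, f (c g p.1 * p.2) * f p.2 ∂(ν.prod m) := by
  have hB := (H.measSet' g Q).compl
  have h1 : 2⁻¹ ≤ ν.real {y | f (c g y) < Real.exp (-Q)}ᶜ := by
    rw [probReal_compl_eq_one_sub (H.measSet' g Q)]
    have := ENNReal.toReal_mono (by simp) h
    rw [ENNReal.toReal_inv, ENNReal.toReal_ofNat] at this
    rw [measureReal_def]
    linarith
  have hI : 0 ≤ ∫ h, f h ^ 2 ∂m := integral_nonneg fun h => sq_nonneg _
  refine (mul_le_mul_of_nonneg_right h1 (by positivity)).trans ?_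
  rw [← mul_assoc, ← smul_eq_mul (ν.real _), ← integral_indicator_const _ hB, ← integral_prod_mul]
  refine integral_mono (((integrable_const _).indicator hB).mul_prod hf.integrable_sq) hi
    fun p => ?_
  by_cases hp : p.1 ∈ {y | f (c g y) < Real.exp (-Q)}ᶜ
  · simp only [indicator_of_mem hp]
    rw [sq, ← mul_assoc]
    have hp' : Real.exp (-Q) ≤ f (c g p.1) := le_of_not_gt hp
    exact mul_le_mul_of_nonneg_right ((mul_le_mul_of_nonneg_right hp'
      (H.pos _).le).trans (H.fmul _ _)) (H.pos _).le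
  · simp only [indicator_of_notMem hp, zero_mul]
    exact (mul_pos (H.pos _) (H.pos _)).le

theorem exists_inv [MeasurableSpace.CountablyGenerated Y] [MeasurableSpace.CountablyGenerated L]
    [NeZero m] (hf : MemLp f 2 m) {A : Type} [NormedAddCommGroup A] {a : A → G} (hD : SR.Dec a ∅)
    (hsub : ∀ ε : ℝ, 0 < ε → ∀ δ : ℝ≥0∞, δ ≠ 0 →
      ∃ Q : ℝ, ∀ t, Tight ν c f (a t) (Q + ε * ‖t‖) δ) :
    ∃ η : Measure (Y × L), IsProbabilityMeasure η ∧ η.fst ≪ ν ∧
      ∀ g, MeasurePreserving (fun p : Y × L => (T g p.1, c g p.1 * p.2)) η η := by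
  obtain ⟨U, hU1, hU2, hU3⟩ := SR.koopman (ν.prod m)
    (fun (g : G) (p : Y × L) => (T g p.1, c g p.1 * p.2))
    ((H.mT.comp (measurable_fst.prodMk measurable_snd.fst)).prodMk
      ((H.mc.comp (measurable_fst.prodMk measurable_snd.fst)).mul measurable_snd.snd))
    (fun p => by rw [H.one, H.c_one, one_mul]) (fun g h p => by rw [H.mul, H.cm, mul_assoc])
    (H.skew_mp m)
  by_cases hinv : ∀ ξ, (∀ g, U g ξ = ξ) → ξ = 0
  swap
  · push Not at hinv
    obtain ⟨ξ, h1, h0⟩ := hinv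
    obtain ⟨η, k1, k2, k3⟩ := exists_prob_of_L2 _ ξ h0
    refine ⟨η, k1, Measure.AbsolutelyContinuous.mk fun s hs h => ?_, fun g =>
      k3 _ (H.skew_mp m g) ?_⟩
    · rw [Measure.fst_apply hs]
      refine k2 ?_
      rw [← prod_univ, Measure.prod_prod, h, zero_mul]
    · have h := hU3 g⁻¹ ξ
      rwa [h1, inv_inv] at h
  exfalso
  have hf2 : MemLp (fun p : Y × L => f p.2) 2 (ν.prod m) := hf.comp_snd ν
  obtain ⟨q, K, κ, C, hK, hκ, hev⟩ := hD _ U hU1 hU2 hinv hf2.toLp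
  obtain ⟨δ, hδ, hδq⟩ : ∃ δ : ℝ≥0∞, δ ≠ 0 ∧ q * (δ + (δ + δ)) ≤ 2⁻¹ := by
    refine ⟨(3 * q + 1 : ℝ≥0∞)⁻¹ * 2⁻¹, by simp [ENNReal.mul_eq_top], ?_⟩
    calc _ = (3 * q * (3 * q + 1 : ℝ≥0∞)⁻¹) * 2⁻¹ := by ring
      _ ≤ 1 * 2⁻¹ := mul_le_mul_left
          ((mul_le_mul_left le_self_add _).trans (ENNReal.mul_inv_le_one _)) _
      _ = _ := one_mul _
  obtain ⟨Q1, hQ1⟩ := H.tight_compact hK hδ
  obtain ⟨Q2, hQ2⟩ := hsub (κ / 2 / (q + 1)) (by positivity) δ hδ
  set ε := κ / 2 / (q + 1) with hε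
  have hε0 : 0 < ε := by positivity
  have hε1 : (q + 1) * ε = κ / 2 := mul_div_cancel₀ _ (by positivity)
  obtain ⟨Q, hQ0, hQ3, hQQ1, hQQ2⟩ : ∃ Q : ℝ, 0 ≤ Q ∧ -Real.log (f 1) ≤ Q ∧ Q1 ≤ Q ∧ Q2 ≤ Q :=
    ⟨max (max 0 (-Real.log (f 1))) (max Q1 Q2), (le_max_left _ _).trans (le_max_left _ _),
      (le_max_right _ _).trans (le_max_left _ _), (le_max_left _ _).trans (le_max_right _ _),
      (le_max_right _ _).trans (le_max_right _ _)⟩
  have hI : 0 < ∫ h, f h ^ 2 ∂m := by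
    rw [integral_pos_iff_support_of_nonneg (fun h => sq_nonneg _) hf.integrable_sq]
    have : (Function.support fun h => f h ^ 2) = univ :=
      eq_univ_of_forall fun h => (pow_pos (H.pos h) 2).ne'
    rw [this]
    exact Measure.measure_univ_pos.2 (NeZero.ne m)
  have key : ∀ᶠ r : ℝ in atTop, 2⁻¹ * (Real.exp (-((q + 1) * Q)) * ∫ h, f h ^ 2 ∂m) ≤
      C * Real.exp (-(κ / 2 * r)) := by
    filter_upwards [hev, eventually_ge_atTop 0] with r ⟨l, hl, hlet, hle⟩ hr0
    have hεr : 0 ≤ ε * r := mul_nonneg hε0.le hr0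
    have hw := H.tight_word (Q := Q + ε * r) (δ := δ + (δ + δ)) (by
      rw [← Real.exp_log (H.pos 1)]
      exact Real.exp_le_exp.2 (by linarith)) l (fun g hg => by
        rcases hlet g hg with h | h | ⟨t, ht, rfl⟩
        · exact (hQ1 g h).mono (by linarith) le_rfl
        · exact h.elim
        · exact (hQ2 t).mono (add_le_add hQQ2 (mul_le_mul_of_nonneg_left ht hε0.le)) le_self_add)
    have hw2 : Tight ν c f l.prod⁻¹ ((q + 1) * Q + κ / 2 * r) 2⁻¹ := by
      refine H.tight_inv (hw.mono ?_ ((mul_le_mul_left (Nat.cast_le.2 hl) _).trans hδq))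
      rw [← hε1, mul_assoc, ← mul_add]
      have : (l.length : ℝ) ≤ q := Nat.cast_le.2 hl
      exact mul_le_mul_of_nonneg_right (by linarith) (by linarith)
    have hae : (fun p => ⟪(U l.prod hf2.toLp : Y × L → ℝ) p, (hf2.toLp : Y × L → ℝ) p⟫)
        =ᵐ[ν.prod m] fun p : Y × L => f (c l.prod⁻¹ p.1 * p.2) * f p.2 := by
      filter_upwards [hU3 l.prod hf2.toLp, hf2.coeFn_toLp,
        (H.skew_mp m l.prod⁻¹).quasiMeasurePreserving.ae hf2.coeFn_toLp] with p k1 k2 k3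
      rw [k1, k2, k3, real_inner_comm]
      rfl
    have h1 := H.lower m hf hw2 ((L2.integrable_inner _ _).congr hae)
    rw [← integral_congr_ae hae, ← L2.inner_def] at h1
    have h2 := h1.trans hle
    have e1 : Real.exp (-(κ * r)) = Real.exp (-(κ / 2 * r)) * Real.exp (-(κ / 2 * r)) := by
      rw [← Real.exp_add]
      congr 1
      ring
    rw [neg_add, Real.exp_add, e1] at h2
    refine le_of_mul_le_mul_right (le_trans (le_of_eq ?_) (h2.trans (le_of_eq ?_)))
      (Real.exp_pos (-(κ / 2 * r))) <;> ring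
  have h1 : Tendsto (fun r : ℝ => C * Real.exp (-(κ / 2 * r))) atTop (𝓝 (C * 0)) :=
    (Real.tendsto_exp_neg_atTop_nhds_zero.comp
      (tendsto_id.const_mul_atTop (half_pos hκ))).const_mul C
  have h2 := ge_of_tendsto h1 key
  rw [mul_zero] at h2
  exact absurd h2 (not_le.2 (by positivity))

end FrCo

end Pool.Agent.P.MP_d483fb_an.Z.TZ

end

end

section

/-!
The group of units of a finite dimensional real normed algebra: Borel structure and a square
integrable positive weight that is supermultiplicative.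
-/

open scoped Topology ENNReal
open MeasureTheory Filter Set

noncomputable section

namespace Pool.Agent.P.MP_d483fb_an.Z.TZ

variable {R : Type} [NormedRing R] [NormedAlgebra ℝ R] [FiniteDimensional ℝ R]

instance unitsPolish : PolishSpace Rˣ := by
  have := FiniteDimensional.proper_real R
  have : PolishSpace Rᵐᵒᵖ := MulOpposite.opHomeomorph.symm.isClosedEmbedding.polishSpace
  exact Units.isClosedEmbedding_embedProduct.polishSpace

instance unitsBorel [MeasurableSpace R] [BorelSpace R] : BorelSpace Rˣ := ⟨by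
  have := FiniteDimensional.complete ℝ R
  have h := borel_comap (f := (Units.val : Rˣ → R)) (t := inferInstance)
  rw [← (Units.isOpenEmbedding_val (R := R)).isInducing.eq_induced,
    ← BorelSpace.measurable_eq (α := R)] at h
  exact h.symm⟩

/-- The size of a unit. -/
def uN (h : Rˣ) : ℝ := max 1 (max ‖(h : R)‖ ‖((h⁻¹ : Rˣ) : R)‖)

omit [NormedAlgebra ℝ R] [FiniteDimensional ℝ R] in
theorem one_le_uN (h : Rˣ) : 1 ≤ uN h := le_max_left _ _

omit [NormedAlgebra ℝ R] [FiniteDimensional ℝ R] in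
theorem norm_le_uN (h : Rˣ) : ‖(h : R)‖ ≤ uN h := (le_max_left _ _).trans (le_max_right _ _)

omit [NormedAlgebra ℝ R] [FiniteDimensional ℝ R] in
theorem uN_inv (h : Rˣ) : uN h⁻¹ = uN h := by
  simp only [uN, inv_inv, max_comm]

omit [NormedAlgebra ℝ R] [FiniteDimensional ℝ R] in
theorem uN_mul (g h : Rˣ) : uN (g * h) ≤ uN g * uN h := by
  have key : ∀ g h : Rˣ, ‖((g * h : Rˣ) : R)‖ ≤ uN g * uN h := fun g h =>
    (norm_mul_le _ _).trans (mul_le_mul (norm_le_uN g) (norm_le_uN h) (norm_nonneg _)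
      (zero_le_one.trans (one_le_uN g)))
  refine max_le (one_le_mul_of_one_le_of_one_le (one_le_uN g) (one_le_uN h))
    (max_le (key g h) ?_)
  rw [mul_inv_rev, mul_comm (uN g), ← uN_inv g, ← uN_inv h]
  exact key _ _

omit [NormedAlgebra ℝ R] [FiniteDimensional ℝ R] in
theorem continuous_uN : Continuous (uN : Rˣ → ℝ) :=
  continuous_const.max (Units.continuous_val.norm.max Units.continuous_coe_inv.norm)

variable [MeasurableSpace R] [BorelSpace R]

theorem haar_uN_le (m : Measure Rˣ) [m.IsHaarMeasure] : ∃ C : ℝ≥0∞, C ≠ ∞ ∧ ∀ ρ : ℝ, 1 ≤ ρ →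
    m {h | uN h ≤ ρ} ≤ C * ENNReal.ofReal ((8 * ρ ^ 2) ^ Module.finrank ℝ R) := by
  have := FiniteDimensional.complete ℝ R
  have := FiniteDimensional.proper_real R
  set U : Set Rˣ := Units.val ⁻¹' Metric.closedBall (1 : R) 2⁻¹ with hU
  have hUc : IsCompact U := by
    refine (Units.isOpenEmbedding_val.isInducing.isCompact_preimage_iff fun x hx => ?_).2
      (isCompact_closedBall _ _)
    have h1 : ‖1 - x‖ < 1 := by
      rw [norm_sub_rev]
      exact (mem_closedBall_iff_norm.1 hx).trans_lt (by norm_num)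
    exact ⟨Units.oneSub (1 - x) h1, by simp⟩
  refine ⟨m U, hUc.measure_lt_top.ne, fun ρ hρ => ?_⟩
  set r : ℝ := (4 * ρ)⁻¹ with hr
  have hr0 : 0 < r := by positivity
  set vol : Measure R := Measure.addHaar with hvol
  set S : Set Rˣ := {h | uN h ≤ ρ} with hS
  have hSm : MeasurableSet S := (isClosed_le continuous_uN continuous_const).measurableSet
  set W : Set (Rˣ × R) := {p | p.1 ∈ S ∧ ‖p.2 - p.1‖ ≤ r} with hW
  have hWm : MeasurableSet W := (measurable_fst hSm).inter (isClosed_le (continuous_snd.sub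
    (Units.continuous_val.comp continuous_fst)).norm continuous_const).measurableSet
  have h1 : (m.prod vol) W = vol (Metric.closedBall 0 r) * m S := by
    rw [Measure.prod_apply hWm, ← lintegral_indicator_const hSm]
    refine lintegral_congr fun h => ?_
    by_cases hh : h ∈ S
    · rw [indicator_of_mem hh, ← Measure.addHaar_closedBall_center vol (h : R)]
      congr 1
      ext x
      simp only [hW, mem_preimage, mem_ofPred_eq, hh, true_and, mem_closedBall_iff_norm]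
    · rw [indicator_of_notMem hh]
      have : Prod.mk h ⁻¹' W = ∅ := eq_empty_of_forall_notMem fun x hx => hh hx.1
      rw [this, measure_empty]
  have h2 : (m.prod vol) W ≤ m U * vol (Metric.closedBall 0 (8 * ρ ^ 2 * r)) := by
    rw [Measure.prod_apply_symm hWm,
      ← lintegral_indicator_const Metric.isClosed_closedBall.measurableSet]
    refine lintegral_mono fun x => ?_
    rcases eq_empty_or_nonempty ((fun h : Rˣ => (h, x)) ⁻¹' W) with he | ⟨h0, hh0, hx0⟩
    · simp only [he, measure_empty, zero_le]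
    have e1 : 4 * ρ * r = 1 := mul_inv_cancel₀ (by positivity)
    have hx : x ∈ Metric.closedBall (0 : R) (8 * ρ ^ 2 * r) := by
      have a1 := norm_add_le (x - h0) (h0 : R)
      have a2 : ‖(h0 : R)‖ ≤ ρ := (norm_le_uN h0).trans hh0
      have a3 : ‖x - h0‖ ≤ r := hx0
      rw [sub_add_cancel] at a1
      rw [mem_closedBall_zero_iff]
      nlinarith
    rw [indicator_of_mem hx, ← measure_preimage_mul m h0⁻¹ U]
    refine measure_mono fun h hh => ?_
    have a1 : ‖((h0⁻¹ : Rˣ) : R)‖ ≤ ρ := (norm_le_uN h0⁻¹).trans ((uN_inv h0).trans_le hh0)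
    have a2 : ‖(h : R) - h0‖ ≤ 2 * r := by
      have a3 : ‖x - h0‖ ≤ r := hx0
      have a4 : ‖x - h‖ ≤ r := hh.2
      have a5 := norm_sub_le (x - h0) (x - h)
      rw [sub_sub_sub_cancel_left] at a5
      linarith
    have e2 : ((h0⁻¹ * h : Rˣ) : R) - 1 = (h0⁻¹ : Rˣ) * ((h : R) - h0) := by
      rw [mul_sub, Units.inv_mul, Units.val_mul]
    show ((h0⁻¹ * h : Rˣ) : R) ∈ Metric.closedBall (1 : R) 2⁻¹
    rw [mem_closedBall_iff_norm, e2]
    refine (norm_mul_le _ _).trans ((mul_le_mul a1 a2 (norm_nonneg _) (by positivity)).trans ?_)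
    nlinarith
  rw [h1, Measure.addHaar_closedBall_mul_of_pos vol 0 (by positivity : 0 < 8 * ρ ^ 2) r,
    ← mul_assoc, mul_comm] at h2
  exact (ENNReal.mul_le_mul_iff_left (Metric.measure_closedBall_pos vol 0 hr0).ne'
    measure_closedBall_lt_top.ne).1 h2

/-- A positive, symmetric, supermultiplicative and square integrable weight. -/
theorem exists_weight (m : Measure Rˣ) [m.IsHaarMeasure] : ∃ s : ℕ,
    MemLp (fun h : Rˣ => (uN h)⁻¹ ^ s) 2 m := by
  obtain ⟨C, hC, h⟩ := haar_uN_le m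
  set d := Module.finrank ℝ R
  refine ⟨d + 1, ?_⟩
  have hc : Continuous fun h : Rˣ => (uN h)⁻¹ ^ (d + 1) :=
    (continuous_uN.inv₀ fun h => (zero_lt_one.trans_le (one_le_uN h)).ne').pow _
  rw [memLp_two_iff_integrable_sq hc.aestronglyMeasurable]
  refine ⟨(hc.pow 2).aestronglyMeasurable, ?_⟩
  rw [hasFiniteIntegral_iff_ofReal (Eventually.of_forall fun h => sq_nonneg _)]
  have hm : ∀ j : ℕ, MeasurableSet {h : Rˣ | uN h ≤ 2 ^ (j + 1)} := fun j =>
    (isClosed_le continuous_uN continuous_const).measurableSet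
  calc ∫⁻ h, ENNReal.ofReal (((uN h)⁻¹ ^ (d + 1)) ^ 2) ∂m
      ≤ ∫⁻ h, ∑' j : ℕ, {h : Rˣ | uN h ≤ 2 ^ (j + 1)}.indicator
          (fun _ => ENNReal.ofReal ((((2 : ℝ) ^ j)⁻¹ ^ (d + 1)) ^ 2)) h ∂m := by
        refine lintegral_mono fun h => ?_
        obtain ⟨j, h1, h2⟩ := exists_nat_pow_near (one_le_uN h) (one_lt_two (α := ℝ))
        refine le_trans ?_ (ENNReal.le_tsum j)
        rw [indicator_of_mem (show h ∈ {h : Rˣ | uN h ≤ 2 ^ (j + 1)} from h2.le)]
        have := one_le_uN h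
        refine ENNReal.ofReal_le_ofReal ?_
        gcongr
    _ = ∑' j : ℕ, ENNReal.ofReal ((((2 : ℝ) ^ j)⁻¹ ^ (d + 1)) ^ 2) *
          m {h : Rˣ | uN h ≤ 2 ^ (j + 1)} := by
        rw [lintegral_tsum fun j => (measurable_const.indicator (hm j)).aemeasurable]
        exact tsum_congr fun j => lintegral_indicator_const (hm j) _
    _ ≤ ∑' j : ℕ, C * ENNReal.ofReal (32 ^ d * (4 : ℝ)⁻¹ ^ j) := by
        refine ENNReal.tsum_le_tsum fun j => ?_
        refine (mul_le_mul_right (h _ (one_le_pow₀ one_le_two)) _).trans (le_of_eq ?_)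
        rw [mul_left_comm, ← ENNReal.ofReal_mul (by positivity)]
        congr 2
        have e1 : (8 * ((2 : ℝ) ^ (j + 1)) ^ 2) = 32 * (2 ^ j) ^ 2 := by ring
        have e2 : (4 : ℝ)⁻¹ ^ j = ((2 ^ j)⁻¹) ^ 2 := by
          rw [← inv_pow, ← pow_mul, mul_comm, pow_mul]
          norm_num
        have e3 : ((2 : ℝ) ^ j) ≠ 0 := by positivity
        rw [e1, e2]
        generalize (2 : ℝ) ^ j = x at e3
        simp only [inv_pow, mul_pow]
        field_simp
        ring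
    _ < ∞ := by
        rw [ENNReal.tsum_mul_left]
        exact ENNReal.mul_lt_top hC.lt_top (Summable.tsum_ofReal_lt_top
          ((summable_geometric_of_lt_one (by norm_num) (by norm_num)).mul_left _))

end Pool.Agent.P.MP_d483fb_an.Z.TZ

end

end

section

/-!
Zero exponents give an invariant probability measure on the frames.
-/

open scoped Topology ENNReal
open MeasureTheory Filter Set

noncomputable section

namespace Pool.Agent.P.MP_d483fb_an.Z.TZ

variable {G : Type} [Group G] [TopologicalSpace G] [IsTopologicalGroup G] [LocallyCompactSpace G]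
  [T2Space G] [SecondCountableTopology G] [MeasurableSpace G] [BorelSpace G]
  {Y : Type} [MeasurableSpace Y] [MeasurableSpace.CountablyGenerated Y]
  {R : Type} [NormedRing R] [NormedAlgebra ℝ R] [FiniteDimensional ℝ R] [MeasurableSpace R]
  [BorelSpace R] {A : Type} [NormedAddCommGroup A]

/-- Zero exponents give an invariant probability on the frames. -/
theorem frame (ν : Measure Y) [IsProbabilityMeasure ν] (T : G → Y → Y)
    (hT : Measurable fun p : G × Y => T p.1 p.2) (h1 : ∀ y, T 1 y = y)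
    (hmul : ∀ g h y, T (g * h) y = T g (T h y)) (hp : ∀ g, MeasurePreserving (T g) ν ν)
    (c : G → Y → Rˣ) (hc : Measurable fun p : G × Y => (c p.1 p.2 : R))
    (hcm : ∀ g h y, c (g * h) y = c g (T h y) * c h y)
    {a : A → G} (ha : ∀ t, a (-t) = (a t)⁻¹) (hD : SR.Dec a ∅)
    (hsub : ∀ ε : ℝ, 0 < ε → ∀ δ : ℝ≥0∞, δ ≠ 0 →
      ∃ Q : ℝ, ∀ t, ν {y | Real.exp (Q + ε * ‖t‖) < ‖(c (a t) y : R)‖} ≤ δ) :
    ∃ η : Measure (Y × Rˣ), IsProbabilityMeasure η ∧ η.fst ≪ ν ∧
      ∀ g, MeasurePreserving (fun p : Y × Rˣ => (T g p.1, c g p.1 * p.2)) η η := by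
  have := FiniteDimensional.proper_real R
  obtain ⟨s, hs⟩ := exists_weight (Measure.haar : Measure Rˣ)
  have h0 : ∀ h : Rˣ, 0 < uN h := fun h => zero_lt_one.trans_le (one_le_uN h)
  have H : FrCo ν T c fun h : Rˣ => (uN h)⁻¹ ^ s :=
    { mT := hT, one := h1, mul := hmul, mp := hp, cm := hcm
      mc := measurable_comap_iff.2 hc
      mf := (continuous_uN.measurable.inv).pow_const s
      pos := fun h => pow_pos (inv_pos.2 (h0 h)) s
      fmul := fun g h => by
        rw [← mul_pow, ← mul_inv]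
        exact pow_le_pow_left₀ (inv_pos.2 (mul_pos (h0 g) (h0 h))).le
          (inv_anti₀ (h0 _) (uN_mul g h)) s
      finv := fun h => by rw [uN_inv] }
  refine H.exists_inv Measure.haar hs hD fun ε hε δ hδ => ?_
  obtain ⟨Q, hQ⟩ := hsub (ε / (s + 1)) (by positivity) (δ / 2) (by simp [hδ])
  refine ⟨(s + 1) * max Q 0, fun t => ?_⟩
  set u := max Q 0 + ε / (s + 1) * ‖t‖ with hu
  have hu0 : 0 ≤ u := add_nonneg (le_max_right _ _) (by positivity)
  have hu1 : Q + ε / (s + 1) * ‖t‖ ≤ u := add_le_add_left (le_max_left _ _) _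
  have hm : MeasurableSet {y | Real.exp (Q + ε / (s + 1) * ‖-t‖) < ‖(c (a (-t)) y : R)‖} :=
    measurableSet_lt measurable_const (hc.comp measurable_prodMk_left).norm
  have h2 := hQ (-t)
  rw [← (hp (a t)).measure_preimage hm.nullMeasurableSet] at h2
  rw [← ENNReal.add_halves δ]
  refine le_trans (measure_mono fun y hy => ?_) ((measure_union_le _ _).trans (add_le_add (hQ t) h2))
  by_contra hn
  simp only [mem_union, mem_preimage, mem_ofPred_eq, not_or, not_lt, norm_neg] at hn hy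
  have e : c (a (-t)) (T (a t) y) = (c (a t) y)⁻¹ := by
    have h3 := H.c_inv (a (-t)) y
    rw [ha, inv_inv] at h3
    rw [ha, h3, inv_inv]
  have h3 : uN (c (a t) y) ≤ Real.exp u := max_le (Real.one_le_exp hu0)
    (max_le (hn.1.trans (Real.exp_le_exp.2 hu1)) (e ▸ hn.2.trans (Real.exp_le_exp.2 hu1)))
  have h4 := pow_le_pow_left₀ (inv_pos.2 (Real.exp_pos u)).le (inv_anti₀ (h0 _) h3) s
  rw [← Real.exp_neg, ← Real.exp_nat_mul] at h4
  refine absurd (h4.trans_lt hy) (not_lt.2 (Real.exp_le_exp.2 ?_))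
  have e2 : (s + 1) * max Q 0 + ε * ‖t‖ = (s + 1) * u := by
    rw [hu]
    field_simp
  rw [e2]
  linarith

/-- The units given by a cocycle with values in a monoid. -/
def cocU {G Y R : Type} [Group G] [Monoid R] (T : G → Y → Y) (c : G → Y → R)
    (h1 : ∀ y, T 1 y = y) (hmul : ∀ g h y, T (g * h) y = T g (T h y)) (hc1 : ∀ y, c 1 y = 1)
    (hcm : ∀ g h y, c (g * h) y = c g (T h y) * c h y) (g : G) (y : Y) : Rˣ where
  val := c g y
  inv := c g⁻¹ (T g y)
  val_inv := by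
    have h := hcm g g⁻¹ (T g y)
    rw [← hmul, mul_inv_cancel, inv_mul_cancel, h1, hc1] at h
    exact h.symm
  inv_val := by rw [← hcm, inv_mul_cancel, hc1]

end Pool.Agent.P.MP_d483fb_an.Z.TZ

end

end

section

/-!
An invariant probability measure of a suspension gives an invariant probability measure on the
fibre.
-/

open scoped Topology ENNReal
open MeasureTheory ProbabilityTheory Filter Set

set_option linter.unusedSectionVars false

namespace Pool.Agent.P.MP_d483fb_an.Z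

theorem measurableSet_kernel_eq {α β : Type} [MeasurableSpace α] [MeasurableSpace β]
    [MeasurableSpace.CountablyGenerated β] (κ η : Kernel α β) [IsFiniteKernel κ]
    [IsFiniteKernel η] : MeasurableSet {a | κ a = η a} := by
  have : {a | κ a = η a} = {a | κ a ≪ η a} ∩
      {a | η a (Prod.mk a ⁻¹' {p : α × β | κ.rnDeriv η p.1 p.2 = 1}ᶜ) = 0} := by
    ext a
    constructor
    · intro h
      have h1 : κ a ≪ η a := Measure.absolutelyContinuous_of_eq h
      exact ⟨h1, (Kernel.rnDeriv_eq_one_iff_eq h1).2 h⟩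
    · rintro ⟨h1, h2⟩
      exact (Kernel.rnDeriv_eq_one_iff_eq h1).1 h2
  rw [this]
  refine (Kernel.measurableSet_absolutelyContinuous κ η).inter ?_
  exact Kernel.measurable_kernel_prodMk_left (κ := η)
    (measurableSet_eq_fun (κ.measurable_rnDeriv η) measurable_const).compl
    (measurableSet_singleton 0)

namespace Lat

variable {G : Type} [Group G] [TopologicalSpace G] [IsTopologicalGroup G] [T2Space G]
  [SecondCountableTopology G] [MeasurableSpace G] [BorelSpace G] (L : Lat G)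

theorem measurable_act {Y Z : Type} [MeasurableSpace Y] [MeasurableSpace Z] {act : L.Γ → Y → Y}
    (hm : ∀ γ, Measurable (act γ)) {f : Z → L.Γ} (hf : Measurable f) {y : Z → Y}
    (hy : Measurable y) : Measurable fun z => act (f z) (y z) :=
  (measurable_from_prod_countable_left (f := fun p : Y × L.Γ => act p.2 p.1) hm).comp
    (hy.prodMk hf)

/-- Restriction of an invariant probability measure to a fibre. -/
theorem fibre_measure {Y : Type} [MeasurableSpace Y] [StandardBorelSpace Y] [Nonempty Y]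
    (act : L.Γ → Y → Y) (hone : ∀ y, act 1 y = y)
    (hmul : ∀ γ γ' y, act (γ * γ') y = act γ (act γ' y)) (hm : ∀ γ, Measurable (act γ))
    (η : Measure (L.B × Y)) [IsProbabilityMeasure η]
    (hη : ∀ g : G, MeasurePreserving (fun p : L.B × Y => (g • p.1, act (L.c g p.1) p.2)) η η) :
    ∃ lam : Measure Y, IsProbabilityMeasure lam ∧ ∀ γ, MeasurePreserving (act γ) lam lam := by
  have := L.locallyCompact
  set m := η.fst with hm'
  set κ := η.condKernel with hκ
  have hd : m ⊗ₘ κ = η := η.disintegrate κ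
  have hsm : Measurable fun p : G × L.B => p.1 • p.2 := Continuous.measurable (by fun_prop)
  have hmg : ∀ g : G, MeasurePreserving (fun b : L.B => g • b) m m := by
    intro g
    have h1 : Measurable fun b : L.B => g • b := Continuous.measurable (by fun_prop)
    refine ⟨h1, ?_⟩
    rw [hm', Measure.fst, Measure.map_map h1 measurable_fst]
    conv_rhs => rw [← (hη g).map_eq, Measure.map_map measurable_fst (hη g).measurable]
    rfl
  have hpre : ∀ {E : Set Y}, MeasurableSet E →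
      Measurable fun p : G × L.B => κ p.2 (act (L.c p.1 p.2) ⁻¹' E) := fun {E} hE =>
    (measurable_from_prod_countable_left (f := fun p : L.B × L.Γ => κ p.1 (act p.2 ⁻¹' E))
      fun γ => κ.measurable_coe (hm γ hE)).comp (measurable_snd.prodMk L.measurable_c)
  let κ₁ : Kernel (G × L.B) Y := κ.comap _ hsm
  let κ₂ : Kernel (G × L.B) Y :=
    ⟨fun p => (κ p.2).map (act (L.c p.1 p.2)), Measure.measurable_of_measurable_coe _ fun E hE => by
      simp only [Measure.map_apply (hm _) hE]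
      exact hpre hE⟩
  have : IsMarkovKernel κ₂ := ⟨fun p => Measure.isProbabilityMeasure_map (hm _).aemeasurable⟩
  have h1 : ∀ g : G, ∀ᵐ b ∂m, κ₁ (g, b) = κ₂ (g, b) := by
    intro g
    have hg : Measurable fun b : L.B => (g, b) := measurable_prodMk_left
    refine Kernel.ae_eq_of_compProd_eq (κ := κ₁.comap _ hg) (η := κ₂.comap _ hg) ?_
    refine Measure.ext_prod fun {A E} hA hE => ?_
    have hA' : MeasurableSet ((fun b : L.B => g⁻¹ • b) ⁻¹' A) := (hmg g⁻¹).measurable hA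
    rw [Measure.compProd_apply_prod hA hE, Measure.compProd_apply_prod hA hE]
    have e1 : ∫⁻ b in A, (κ₁.comap _ hg) b E ∂m = η (((fun b : L.B => g⁻¹ • b) ⁻¹' A) ×ˢ E) := by
      rw [← hd, Measure.compProd_apply_prod hA' hE,
        ← (hmg g).setLIntegral_comp_preimage hA' (κ.measurable_coe hE)]
      have : (fun b : L.B => g • b) ⁻¹' ((fun b : L.B => g⁻¹ • b) ⁻¹' A) = A := by
        ext b
        simp
      rw [this]
      rfl
    rw [e1, ← (hη g).measure_preimage (hA'.prod hE).nullMeasurableSet, ← hd,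
      Measure.compProd_apply ((hη g).measurable (hA'.prod hE)), ← lintegral_indicator hA]
    refine lintegral_congr fun b => ?_
    by_cases hb : b ∈ A
    · rw [indicator_of_mem hb]
      show _ = ((κ b).map (act (L.c g b))) E
      rw [Measure.map_apply (hm _) hE]
      congr 1
      ext y
      simp [hb]
    · rw [indicator_of_notMem hb]
      convert measure_empty (μ := κ b)
      ext y
      simp [hb]
  set lam : Measure G := (Measure.haar : Measure G).inv with hlam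
  have h2 : ∀ᵐ b ∂m, ∀ᵐ g ∂lam, κ₁ (g, b) = κ₂ (g, b) :=
    (Measure.ae_ae_comm (p := fun g b => κ₁ (g, b) = κ₂ (g, b))
      (measurableSet_kernel_eq κ₁ κ₂)).1 (Eventually.of_forall h1)
  obtain ⟨b, hb⟩ := h2.exists
  refine ⟨κ b, inferInstance, fun γ => ⟨hm γ, ?_⟩⟩
  set w : G := L.sec b * γ * (L.sec b)⁻¹ with hw
  have hwb : w • b = b := by
    conv_lhs => rw [← L.pj_sec b]
    rw [smul_pj, hw, inv_mul_cancel_right, pj_mul, pj_sec]
  have hc : L.c w b = γ := by
    refine Subtype.ext ?_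
    rw [coe_c, hwb, hw]
    group
  have hb' : ∀ᵐ g ∂lam, κ₁ (g * w, b) = κ₂ (g * w, b) :=
    (measurePreserving_mul_right lam w).quasiMeasurePreserving.ae hb
  have : NeBot (ae lam) := ae_neBot.2 (NeZero.ne lam)
  obtain ⟨g, q1, q2⟩ := (hb.and hb').exists
  have q3 : (κ b).map (act (L.c g b)) = (κ b).map (act (L.c g b * γ)) := by
    have e1 : κ₁ (g * w, b) = κ₁ (g, b) := by
      show κ ((g * w) • b) = κ (g • b)
      rw [mul_smul, hwb]
    have e2 : κ₂ (g * w, b) = (κ b).map (act (L.c g b * γ)) := by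
      show (κ b).map (act (L.c (g * w) b)) = _
      rw [c_mul, hwb, hc]
    rw [← e2, ← q2, e1, q1]
    rfl
  have q4 := congrArg (Measure.map (act (L.c g b)⁻¹)) q3
  rw [Measure.map_map (hm _) (hm _), Measure.map_map (hm _) (hm _)] at q4
  have e3 : act (L.c g b)⁻¹ ∘ act (L.c g b) = id := by
    ext y
    simp [← hmul, hone]
  have e4 : act (L.c g b)⁻¹ ∘ act (L.c g b * γ) = act γ := by
    ext y
    simp [← hmul]
  rw [e3, e4, Measure.map_id] at q4
  exact q4.symm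

end Lat

end Pool.Agent.P.MP_d483fb_an.Z


end

section

/-!
The linear cocycle over a suspension defined by a cocycle of the lattice.
-/

open scoped Topology ENNReal
open MeasureTheory Filter Set

set_option linter.unusedSectionVars false

noncomputable section

namespace Pool.Agent.P.MP_d483fb_an.Z

/-- If all exponents vanish the cocycle is subexponential in probability. -/
theorem subexp_of_lam {k W X V : Type} [NontriviallyNormedField k] [SeminormedAddCommGroup W]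
    [MeasurableSpace X] {μ : Measure X} [IsFiniteMeasure μ] [NormedAddCommGroup V]
    [NormedSpace k V] {S : Os.Sys W X μ} {A : W → X → V →L[k] V} {ι : Type} [Fintype ι]
    (o : Os.OseA S A ι) (h : ∀ i, o.lam i = 0) {ε : ℝ} (hε : 0 < ε) {δ : ℝ≥0∞} (hδ : δ ≠ 0) :
    ∃ Q : ℝ, ∀ t, μ {x | Real.exp (Q + ε * ‖t‖) < ‖A t x‖} ≤ δ := by
  obtain ⟨q, hqm, -, -, hq⟩ := o.est ε hε
  have hlim := tendsto_measure_iInter_atTop (μ := μ) (s := fun n : ℕ => {x | (n : ℝ) < q x})
    (fun n => (measurableSet_lt measurable_const hqm).nullMeasurableSet)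
    (fun m n hmn x hx => lt_of_le_of_lt (Nat.cast_le.2 hmn : (m : ℝ) ≤ n) hx)
    ⟨0, measure_ne_top _ _⟩
  have he : ⋂ n : ℕ, {x | (n : ℝ) < q x} = ∅ := eq_empty_of_forall_notMem fun x hx => by
    obtain ⟨m, hm⟩ := exists_nat_ge (q x)
    exact absurd (mem_iInter.1 hx m) (not_lt.2 hm)
  rw [he, measure_empty] at hlim
  obtain ⟨n, hn⟩ := (hlim.eventually (ge_mem_nhds (pos_iff_ne_zero.2 hδ))).exists
  refine ⟨Fintype.card ι + 2 * n, fun t => le_trans (measure_mono_ae ?_) hn⟩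
  filter_upwards [o.ae0] with x hx0 hx
  by_contra hno
  have h2 : q x ≤ n := not_lt.1 hno
  have h3 : Real.exp (Fintype.card ι + 2 * n + ε * ‖t‖) < ‖A t x‖ := hx
  refine absurd h3 (not_lt.2 (ContinuousLinearMap.opNorm_le_bound _ (Real.exp_pos _).le
    fun v => ?_))
  have hi : ∀ i, ‖A t x (o.P i x v)‖ ≤ Real.exp (2 * n + ε * ‖t‖) * ‖v‖ := by
    intro i
    obtain ⟨hP, hA⟩ := hq x hx0 i
    have h1 := (hA t _ (o.P_mem x hx0 i v)).1
    rw [h i, AddMonoidHom.zero_apply, add_zero] at h1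
    have h4 : ‖o.P i x v‖ ≤ Real.exp (q x) * ‖v‖ :=
      ((o.P i x).le_opNorm v).trans (mul_le_mul_of_nonneg_right hP (norm_nonneg _))
    refine h1.trans ((mul_le_mul_of_nonneg_left h4 (Real.exp_pos _).le).trans ?_)
    rw [← mul_assoc, ← Real.exp_add]
    exact mul_le_mul_of_nonneg_right (Real.exp_le_exp.2 (by linarith)) (norm_nonneg _)
  calc ‖A t x v‖ = ‖∑ i, A t x (o.P i x v)‖ := by rw [← map_sum, o.P_sum x hx0]
    _ ≤ ∑ _i : ι, Real.exp (2 * n + ε * ‖t‖) * ‖v‖ :=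
        (norm_sum_le _ _).trans (Finset.sum_le_sum fun i _ => hi i)
    _ = Fintype.card ι * (Real.exp (2 * n + ε * ‖t‖) * ‖v‖) := by
        rw [Finset.sum_const, Finset.card_univ, nsmul_eq_mul]
    _ ≤ Real.exp (Fintype.card ι) * (Real.exp (2 * n + ε * ‖t‖) * ‖v‖) :=
        mul_le_mul_of_nonneg_right (by linarith [Real.add_one_le_exp (Fintype.card ι : ℝ)])
          (by positivity)
    _ = _ := by rw [← mul_assoc, ← Real.exp_add, add_assoc]

namespace Skw

variable {G : Type} [Group G] [TopologicalSpace G] [IsTopologicalGroup G] [T2Space G]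
  [SecondCountableTopology G] [MeasurableSpace G] [BorelSpace G] {L : Lat G} {M : Type}
  [MeasurableSpace M] {α : L.Γ →* Equiv.Perm M} {X : Type} [MeasurableSpace X] [MulAction G X]
  (E : Skw L α X)

theorem measurable_π : Measurable E.π := E.e.measurable.fst

theorem π_smul (g : G) (x : X) : E.π (g • x) = g • E.π x := congrArg Prod.fst (E.smul g x)

theorem snd_smul (g : G) (x : X) : (E.e (g • x)).2 = α (L.c g (E.π x)) (E.e x).2 :=
  congrArg Prod.snd (E.smul g x)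

/-- The cocycle over the suspension. -/
def lift {H : Type} (A : L.Γ → M → H) (g : G) (x : X) : H := A (L.c g (E.π x)) (E.e x).2

theorem lift_mul {H : Type} [Mul H] {A : L.Γ → M → H}
    (hA : ∀ γ δ p, A (γ * δ) p = A γ (α δ p) * A δ p) (g h : G) (x : X) :
    E.lift A (g * h) x = E.lift A g (h • x) * E.lift A h x := by
  rw [lift, lift, lift, L.c_mul, hA, π_smul, snd_smul]

theorem measurable_lift {H : Type} [MeasurableSpace H] {A : L.Γ → M → H}
    (hm : ∀ γ, Measurable (A γ)) : Measurable fun p : G × X => E.lift A p.1 p.2 :=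
  (measurable_from_prod_countable_left (f := fun p : M × L.Γ => A p.2 p.1) hm).comp
    ((E.e.measurable.snd.comp measurable_snd).prodMk
      (L.measurable_c.comp (measurable_fst.prodMk (E.measurable_π.comp measurable_snd))))

/-- An invariant probability for the lifted cocycle gives one for the cocycle of the lattice. -/
theorem fibre {H : Type} [Group H] [MeasurableSpace H] [MeasurableMul₂ H] [StandardBorelSpace H]
    [StandardBorelSpace M] [Nonempty M] (hα : ∀ γ, Measurable (α γ)) {A : L.Γ → M → H}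
    (hm : ∀ γ, Measurable (A γ)) (hA : ∀ γ δ p, A (γ * δ) p = A γ (α δ p) * A δ p)
    (η : Measure (X × H)) [IsProbabilityMeasure η]
    (hη : ∀ g : G, MeasurePreserving (fun p : X × H => (g • p.1, E.lift A g p.1 * p.2)) η η) :
    ∃ ν : Measure (M × H), IsProbabilityMeasure ν ∧
      ∀ γ, MeasurePreserving (fun w : M × H => (α γ w.1, A γ w.1 * w.2)) ν ν := by
  have h1 : ∀ p, A 1 p = 1 := fun p => by
    have := hA 1 1 p
    rw [mul_one, map_one, Equiv.Perm.one_apply] at this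
    exact left_eq_mul.1 this
  let act : L.Γ → M × H → M × H := fun γ w => (α γ w.1, A γ w.1 * w.2)
  have hact : ∀ γ, Measurable (act γ) := fun γ =>
    ((hα γ).comp measurable_fst).prodMk (((hm γ).comp measurable_fst).mul measurable_snd)
  let Φ : X × H → L.B × (M × H) := fun p => ((E.e p.1).1, (E.e p.1).2, p.2)
  have hΦ : Measurable Φ := (E.e.measurable.fst.comp measurable_fst).prodMk
    ((E.e.measurable.snd.comp measurable_fst).prodMk measurable_snd)
  have : IsProbabilityMeasure (η.map Φ) := Measure.isProbabilityMeasure_map hΦ.aemeasurable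
  refine L.fibre_measure act (fun y => ?_) (fun γ δ y => ?_) hact (η.map Φ) fun g => ?_
  · simp [act, h1]
  · simp [act, hA, mul_assoc]
  · have hT : Measurable fun p : L.B × (M × H) => (g • p.1, act (L.c g p.1) p.2) :=
      (((continuous_const_smul g).measurable).comp measurable_fst).prodMk
        (L.measurable_act hact (L.measurable_c.comp (measurable_const.prodMk measurable_fst))
          measurable_snd)
    refine ⟨hT, ?_⟩
    rw [Measure.map_map hT hΦ]
    have he : (fun p : L.B × (M × H) => (g • p.1, act (L.c g p.1) p.2)) ∘ Φ =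
        Φ ∘ fun p : X × H => (g • p.1, E.lift A g p.1 * p.2) := by
      funext p
      simp only [Function.comp, Φ, act, E.smul, lift, π]
    rw [he, ← Measure.map_map hΦ (hη g).measurable, (hη g).map_eq]

variable {V : Type} [NormedAddCommGroup V] [NormedSpace ℝ V] [FiniteDimensional ℝ V]

/-- The lifted cocycle as a measurable linear cocycle. -/
def co {ν : Measure X} (hG : ∀ g : G, MeasurePreserving (fun x : X => g • x) ν ν)
    {A : L.Γ → M → (V →L[ℝ] V)ˣ} (hm : ∀ γ, Measurable fun p => (A γ p : V →L[ℝ] V))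
    (hA : ∀ γ δ p, A (γ * δ) p = A γ (α δ p) * A δ p) : MS.Co G ν ℝ V where
  c g x := (E.lift A g x : (V →L[ℝ] V)ˣ)
  mp := hG
  meas := (E.measurable_lift (A := fun γ p => (A γ p : V →L[ℝ] V)) hm).stronglyMeasurable
  one x := by
    have := E.lift_mul hA 1 1 x
    rw [mul_one, one_smul] at this
    rw [left_eq_mul.1 this, Units.val_one]
  mul g h x := by rw [E.lift_mul hA, Units.val_mul]

end Skw

namespace Std

variable {G : Type} [Group G] [TopologicalSpace G] [IsTopologicalGroup G] {n k : ℕ}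
  (D : Std G n k) {X : Type} [MeasurableSpace X] [MulAction G X] {ν : Measure X}

/-- The Cartan action as an ergodic system. -/
def sysA [IsFiniteMeasure ν] (hI : D.InvA ν) (hE : D.ErgA ν) : Os.Sys (Euc k) X ν where
  act t x := D.a t • x
  zero x := by rw [D.geo_a_zero, one_smul]
  add s t x := by rw [D.geo_a_add, mul_smul]
  mp := hI
  erg U hU h := hE U hU fun s =>
    (ae_eq_of_subset_of_measure_ge (fun x hx => h s x hx)
      ((hI s).measure_preimage hU.nullMeasurableSet).le hU.nullMeasurableSet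
      (measure_ne_top _ _)).symm

theorem gErg (hG : ∀ g : G, MeasurePreserving (fun x : X => g • x) ν ν) (hE : D.ErgA ν) :
    MS.GErg G ν where
  mp := hG
  erg U hU h := by
    rw [eventuallyConst_set']
    rcases hE U hU fun s => h _ with h1 | h1
    · exact Or.inl (ae_eq_empty.2 h1)
    · exact Or.inr (ae_eq_univ.2 h1)

end Std

/-- The lifted cocycle is controlled by the height. -/
theorem Skw.tcoc {G : Type} [Group G] [TopologicalSpace G] [IsTopologicalGroup G] [T2Space G]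
    [SecondCountableTopology G] [MeasurableSpace G] [BorelSpace G] {L : Lat G} {M : Type}
    [MeasurableSpace M] {α : L.Γ →* Equiv.Perm M} {X : Type} [MeasurableSpace X] [MulAction G X]
    (E : Skw L α X) {V : Type} [NormedAddCommGroup V] [NormedSpace ℝ V] {n k : ℕ} (D : Std G n k)
    {ν : Measure X} (S : Os.Sys (Euc k) X ν) (hS : ∀ t x, S.act t x = D.a t • x)
    {A : L.Γ → M → V →L[ℝ] V} (h1 : ∀ p, A 1 p = 1)
    (hA : ∀ γ δ p, A (γ * δ) p = A γ (α δ p) * A δ p) {C : ℝ}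
    (hC : ∀ γ p, ‖A γ p‖ ≤ Real.exp (C * (1 + L.len γ))) :
    ∃ (h : X → ℝ) (K : ℝ), Os.TCoc S (fun t x => E.lift A (D.a t) x) h K := by
  obtain ⟨B, hB⟩ := D.geo_len_a L.toLen
  have hB' : ∀ s, L.len (D.a s) ≤ 2 * B * (‖s‖ + 1) := fun s => by
    have h2 := (L.le_toLen (D.a s)).trans (hB s)
    have h3 : (0 : ℝ) ≤ B := Nat.cast_nonneg B
    nlinarith [norm_nonneg s]
  have h0 : 0 ≤ |C| := abs_nonneg C
  have hB0 : (0 : ℝ) ≤ B := Nat.cast_nonneg B
  refine ⟨fun x => 2 * |C| * L.ht (E.π x), |C| * (1 + 4 * B),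
    fun x v => ?_, fun s t x v => ?_, fun s x v => ?_, by positivity,
    measurable_const.mul (L.measurable_ht.comp E.measurable_π),
    fun x => mul_nonneg (by positivity) (L.ht_nonneg _), fun s x => ?_⟩
  · rw [D.geo_a_zero, Skw.lift, L.c_one, h1]
    rfl
  · rw [D.geo_a_add, E.lift_mul hA, hS]
    rfl
  · refine ((E.lift A (D.a s) x).le_opNorm v).trans
      (mul_le_mul_of_nonneg_right ((hC _ _).trans (Real.exp_le_exp.2 ?_)) (norm_nonneg _))
    have h2 := L.len_c' (D.a s) (E.π x)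
    have h3 := L.nonneg (L.c (D.a s) (E.π x))
    have h4 : C * (1 + L.len (L.c (D.a s) (E.π x))) ≤ |C| * (1 + L.len (L.c (D.a s) (E.π x))) :=
      mul_le_mul_of_nonneg_right (le_abs_self C) (by linarith)
    have h5 : 1 + L.len (L.c (D.a s) (E.π x)) ≤ (1 + 4 * B) * (‖s‖ + 1) + 2 * L.ht (E.π x) := by
      nlinarith [hB' s, norm_nonneg s]
    nlinarith [mul_le_mul_of_nonneg_left h5 h0]
  · rw [hS, E.π_smul]
    have h2 := L.ht_smul (D.a s) (E.π x)
    have h3 : L.ht (D.a s • E.π x) ≤ L.ht (E.π x) + 2 * B * (‖s‖ + 1) := by linarith [hB' s]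
    have h4 := mul_le_mul_of_nonneg_left h3 h0
    nlinarith [norm_nonneg s, mul_nonneg h0 (norm_nonneg s)]

end Pool.Agent.P.MP_d483fb_an.Z

end

end

section

/-!
Vanishing exponents over the suspension give an invariant probability on the frames of the fibre.
-/

open scoped Topology ENNReal
open MeasureTheory Filter Set

noncomputable section

namespace Pool.Agent.P.MP_d483fb_an.Z.TZ

variable {G : Type} [Group G] [TopologicalSpace G] [IsTopologicalGroup G] [T2Space G]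
  [LocallyCompactSpace G] [SecondCountableTopology G] [MeasurableSpace G] [BorelSpace G]
  {n k : ℕ} {L : Lat G} {M : Type} [MeasurableSpace M] [StandardBorelSpace M] [Nonempty M]
  {α : L.Γ →* Equiv.Perm M} {X : Type} [MeasurableSpace X] [MeasurableSpace.CountablyGenerated X]
  [MulAction G X] {V : Type} [NormedAddCommGroup V] [NormedSpace ℝ V] [FiniteDimensional ℝ V]

theorem frames_of_exps (D : Std G n k) (E : Skw L α X) (hα : ∀ γ, Measurable (α γ))
    (ν : Measure X) [IsProbabilityMeasure ν]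
    (hG : ∀ g : G, MeasurePreserving (fun x : X => g • x) ν ν) (hE : D.ErgA ν)
    (A : L.Γ → M → (V →L[ℝ] V)ˣ) (hm : ∀ γ, Measurable fun p => (A γ p : V →L[ℝ] V))
    (hA : ∀ γ δ p, A (γ * δ) p = A γ (α δ p) * A δ p) {C : ℝ}
    (hC : ∀ γ p, ‖(A γ p : V →L[ℝ] V)‖ ≤ Real.exp (C * (1 + L.len γ)))
    (hexp : ∀ (Q : MS.Co G ν ℝ V) (S : Os.Sys (Euc k) X ν), (∀ t x, S.act t x = D.a t • x) →
      ∀ (ι : Type) [Fintype ι] (o : Os.OseA S (fun t x => Q.c (D.a t) x) ι) (i : ι), o.lam i = 0)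
    (hD : SR.Dec D.a ∅) :
    ∃ η : Measure (M × (V →L[ℝ] V)ˣ), IsProbabilityMeasure η ∧
      ∀ γ, MeasurePreserving (fun w : M × (V →L[ℝ] V)ˣ => (α γ w.1, A γ w.1 * w.2)) η η := by
  have := FiniteDimensional.proper_real V
  have h1 : ∀ p, A 1 p = 1 := fun p => by
    have := hA 1 1 p
    rw [mul_one, map_one, Equiv.Perm.one_apply] at this
    exact left_eq_mul.1 this
  have hT : Measurable fun p : G × X => p.1 • p.2 := by
    have h2 : Measurable fun p : G × X => E.e (p.1 • p.2) := by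
      simp only [E.smul]
      have hsm : Measurable fun p : G × L.B => p.1 • p.2 := Continuous.measurable (by fun_prop)
      exact (hsm.comp (measurable_fst.prodMk (E.measurable_π.comp measurable_snd))).prodMk
        (E.measurable_lift (A := fun γ p => α γ p) hα)
    exact E.e.measurableEmbedding.measurable_comp_iff.1 h2
  let S := D.sysA (fun s => hG (D.a s)) hE
  let Q := E.co hG hm hA
  obtain ⟨h, K, hc⟩ := E.tcoc D S (fun _ _ => rfl) (A := fun γ p => (A γ p : V →L[ℝ] V))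
    (fun p => by rw [h1, Units.val_one]) (fun γ δ p => by rw [hA, Units.val_mul]) hC
  obtain ⟨ι, _, ⟨o⟩⟩ := Os.oseledets_temp hc
    (Q.meas.comp_measurable (g := fun p : Euc k × X => (D.a p.1, p.2))
      ((D.geo_a_cont.measurable.comp measurable_fst).prodMk measurable_snd))
  obtain ⟨η, _, -, hη⟩ := frame ν (fun (g : G) (x : X) => g • x) hT (one_smul G) mul_smul hG
    (E.lift A) (E.measurable_lift (A := fun γ p => (A γ p : V →L[ℝ] V)) hm) (E.lift_mul hA)
    D.geo_a_neg hD fun ε hε δ hδ => subexp_of_lam o (hexp Q S (fun _ _ => rfl) ι o) hε hδ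
  exact E.fibre hα (fun γ => measurable_comap_iff.2 (hm γ)) hA η hη

end Pool.Agent.P.MP_d483fb_an.Z.TZ

end

end
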