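import Pool.Agent.P.MP_d483fb_an.M.A01

section

/-!
Integral operators with square integrable kernels are compact.
-/

open MeasureTheory Set Filter Topology
open scoped RealInnerProductSpace

set_option linter.unusedSectionVars false

noncomputable section

namespace Pool.Agent.P.MP_d483fb_an.Z.TZ.Spec

variable {Ω : Type} [MeasurableSpace Ω] {P : Measure Ω} [IsProbabilityMeasure P]

theorem ae_fst {p : Ω → Prop} (h : ∀ᵐ x ∂P, p x) : ∀ᵐ x ∂P.prod P, p x.1 :=
  (Measure.quasiMeasurePreserving_fst (μ := P) (ν := P)).ae h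

theorem ae_snd {p : Ω → Prop} (h : ∀ᵐ x ∂P, p x) : ∀ᵐ x ∂P.prod P, p x.2 :=
  (Measure.quasiMeasurePreserving_snd (μ := P) (ν := P)).ae h

theorem inner_L2 {α : Type} [MeasurableSpace α] {Q : Measure α} (u v : Lp ℝ 2 Q) :
    ⟪u, v⟫ = ∫ p, u p * v p ∂Q := by
  rw [L2.inner_def]
  refine integral_congr_ae (ae_of_all _ fun p => ?_)
  simp [mul_comm]

theorem memT (u v : Lp ℝ 2 P) : MemLp (fun x : Ω × Ω => u x.1 * v x.2) 2 (P.prod P) := by
  have hm : Measurable fun x : Ω × Ω => u x.1 * v x.2 :=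
    ((Lp.stronglyMeasurable u).measurable.comp measurable_fst).mul
      ((Lp.stronglyMeasurable v).measurable.comp measurable_snd)
  rw [memLp_two_iff_integrable_sq hm.aestronglyMeasurable]
  simp only [mul_pow]
  exact ((memLp_two_iff_integrable_sq (Lp.aestronglyMeasurable u)).1 (Lp.memLp u)).mul_prod
    ((memLp_two_iff_integrable_sq (Lp.aestronglyMeasurable v)).1 (Lp.memLp v))

/-- The product kernel of two functions. -/
def tens (u v : Lp ℝ 2 P) : Lp ℝ 2 (P.prod P) := (memT u v).toLp _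

theorem tens_ae (u v : Lp ℝ 2 P) : tens u v =ᵐ[P.prod P] fun x => u x.1 * v x.2 :=
  (memT u v).coeFn_toLp

theorem inner_tens (u v u' v' : Lp ℝ 2 P) : ⟪tens u v, tens u' v'⟫ = ⟪u, u'⟫ * ⟪v, v'⟫ := by
  rw [inner_L2, inner_L2, inner_L2, ← integral_prod_mul]
  refine integral_congr_ae ?_
  filter_upwards [tens_ae u v, tens_ae u' v'] with x h1 h2
  rw [h1, h2]
  ring

theorem norm_tens (u v : Lp ℝ 2 P) : ‖tens u v‖ = ‖u‖ * ‖v‖ := by
  have h := inner_tens u v u v
  rw [real_inner_self_eq_norm_sq, real_inner_self_eq_norm_sq, real_inner_self_eq_norm_sq,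
    ← mul_pow] at h
  exact (pow_left_inj₀ (norm_nonneg _) (by positivity) two_ne_zero).1 h

theorem inner_tens' (k : Lp ℝ 2 (P.prod P)) (u v : Lp ℝ 2 P) :
    ⟪k, tens u v⟫ = ∫ x, k x * (u x.1 * v x.2) ∂P.prod P := by
  rw [inner_L2]
  refine integral_congr_ae ?_
  filter_upwards [tens_ae u v] with x hx
  rw [hx]

theorem tens_add_left (u u' v : Lp ℝ 2 P) : tens (u + u') v = tens u v + tens u' v := by
  refine Lp.ext ?_
  filter_upwards [tens_ae (u + u') v, tens_ae u v, tens_ae u' v,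
    Lp.coeFn_add (tens u v) (tens u' v), ae_fst (Lp.coeFn_add u u')] with x h1 h2 h3 h4 h5
  rw [h1, h4, Pi.add_apply, h2, h3, h5, Pi.add_apply]
  ring

theorem tens_add_right (u v v' : Lp ℝ 2 P) : tens u (v + v') = tens u v + tens u v' := by
  refine Lp.ext ?_
  filter_upwards [tens_ae u (v + v'), tens_ae u v, tens_ae u v',
    Lp.coeFn_add (tens u v) (tens u v'), ae_snd (Lp.coeFn_add v v')] with x h1 h2 h3 h4 h5
  rw [h1, h4, Pi.add_apply, h2, h3, h5, Pi.add_apply]
  ring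

theorem tens_smul_left (a : ℝ) (u v : Lp ℝ 2 P) : tens (a • u) v = a • tens u v := by
  refine Lp.ext ?_
  filter_upwards [tens_ae (a • u) v, tens_ae u v,
    Lp.coeFn_smul a (tens u v), ae_fst (Lp.coeFn_smul a u)] with x h1 h2 h4 h5
  rw [h1, h4, Pi.smul_apply, h2, h5, Pi.smul_apply, smul_eq_mul, smul_eq_mul]
  ring

theorem tens_smul_right (a : ℝ) (u v : Lp ℝ 2 P) : tens u (a • v) = a • tens u v := by
  refine Lp.ext ?_
  filter_upwards [tens_ae u (a • v), tens_ae u v,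
    Lp.coeFn_smul a (tens u v), ae_snd (Lp.coeFn_smul a v)] with x h1 h2 h4 h5
  rw [h1, h4, Pi.smul_apply, h2, h5, Pi.smul_apply, smul_eq_mul, smul_eq_mul]
  ring

theorem bound_tens (k : Lp ℝ 2 (P.prod P)) (u v : Lp ℝ 2 P) :
    ‖⟪k, tens u v⟫‖ ≤ ‖k‖ * ‖v‖ * ‖u‖ := by
  have h := norm_inner_le_norm (𝕜 := ℝ) k (tens u v)
  rw [norm_tens] at h
  calc ‖⟪k, tens u v⟫‖ ≤ ‖k‖ * (‖u‖ * ‖v‖) := h
    _ = ‖k‖ * ‖v‖ * ‖u‖ := by ring

theorem exists_op (k : Lp ℝ 2 (P.prod P)) :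
    ∃ T : Lp ℝ 2 P →L[ℝ] Lp ℝ 2 P, ∀ u v : Lp ℝ 2 P, ⟪u, T v⟫ = ⟪k, tens u v⟫ := by
  let B₀ : Lp ℝ 2 P →ₗ[ℝ] Lp ℝ 2 P →ₗ[ℝ] ℝ :=
    LinearMap.mk₂ ℝ (fun v u => ⟪k, tens u v⟫)
      (fun v v' u => by rw [tens_add_right, inner_add_right])
      (fun a v u => by rw [tens_smul_right, real_inner_smul_right, smul_eq_mul])
      (fun v u u' => by rw [tens_add_left, inner_add_right])
      (fun a v u => by rw [tens_smul_left, real_inner_smul_right, smul_eq_mul])
  let B : Lp ℝ 2 P →L[ℝ] Lp ℝ 2 P →L[ℝ] ℝ :=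
    LinearMap.mkContinuous₂ B₀ ‖k‖ fun v u => bound_tens k u v
  refine ⟨InnerProductSpace.continuousLinearMapOfBilin B, fun u v => ?_⟩
  rw [real_inner_comm, InnerProductSpace.continuousLinearMapOfBilin_apply]
  rfl

/-- The integral operator of a kernel. -/
def opK (k : Lp ℝ 2 (P.prod P)) : Lp ℝ 2 P →L[ℝ] Lp ℝ 2 P := (exists_op k).choose

theorem opK_spec (k : Lp ℝ 2 (P.prod P)) (u v : Lp ℝ 2 P) : ⟪u, opK k v⟫ = ⟪k, tens u v⟫ :=
  (exists_op k).choose_spec u v

theorem opK_ext {k : Lp ℝ 2 (P.prod P)} {T : Lp ℝ 2 P →L[ℝ] Lp ℝ 2 P}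
    (h : ∀ u v, ⟪u, T v⟫ = ⟪k, tens u v⟫) : opK k = T := by
  refine ContinuousLinearMap.ext fun v => ext_inner_left ℝ fun u => ?_
  rw [opK_spec, h]

theorem norm_opK_le (k : Lp ℝ 2 (P.prod P)) : ‖opK k‖ ≤ ‖k‖ := by
  refine ContinuousLinearMap.opNorm_le_bound _ (norm_nonneg _) fun v => ?_
  have h1 := bound_tens k (opK k v) v
  rw [← opK_spec, real_inner_self_eq_norm_mul_norm, Real.norm_eq_abs,
    abs_of_nonneg (by positivity)] at h1
  rcases (norm_nonneg (opK k v)).eq_or_lt with h0 | h0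
  · rw [← h0]; positivity
  · exact le_of_mul_le_mul_right h1 h0

theorem opK_add (k l : Lp ℝ 2 (P.prod P)) : opK (k + l) = opK k + opK l :=
  opK_ext fun u v => by
    rw [add_apply, inner_add_right, opK_spec, opK_spec, inner_add_left]

theorem opK_sub (k l : Lp ℝ 2 (P.prod P)) : opK (k - l) = opK k - opK l :=
  opK_ext fun u v => by
    rw [sub_apply, inner_sub_right, opK_spec, opK_spec, inner_sub_left]

theorem opK_smul (a : ℝ) (k : Lp ℝ 2 (P.prod P)) : opK (a • k) = a • opK k :=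
  opK_ext fun u v => by
    rw [smul_apply, real_inner_smul_right, opK_spec, real_inner_smul_left]

theorem opK_tens (u v : Lp ℝ 2 P) : opK (tens u v) = InnerProductSpace.rankOne ℝ u v :=
  opK_ext fun u' v' => by
    rw [InnerProductSpace.rankOne_apply, real_inner_smul_right, inner_tens, real_inner_comm u' u,
      mul_comm]

theorem opK_zero : opK (0 : Lp ℝ 2 (P.prod P)) = 0 :=
  opK_ext fun u v => by simp

theorem continuous_opK : Continuous fun k : Lp ℝ 2 (P.prod P) => opK k := by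
  refine (LipschitzWith.of_dist_le_mul (K := 1) fun k l => ?_).continuous
  rw [dist_eq_norm, dist_eq_norm, ← opK_sub, NNReal.coe_one, one_mul]
  exact norm_opK_le _

theorem integrable_L2 {α : Type} [MeasurableSpace α] {μ : Measure α} [IsProbabilityMeasure μ]
    (k : Lp ℝ 2 μ) : Integrable k μ :=
  (Lp.memLp k).integrable (by norm_num)

theorem dense_tens : Dense (Submodule.span ℝ {k : Lp ℝ 2 (P.prod P) | ∃ u v, k = tens u v} :
    Set (Lp ℝ 2 (P.prod P))) := by
  rw [Submodule.dense_iff_topologicalClosure_eq_top, Submodule.topologicalClosure_eq_top_iff,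
    Submodule.eq_bot_iff]
  intro k hk
  have hk' : ∀ u v : Lp ℝ 2 P, ⟪k, tens u v⟫ = 0 := fun u v => by
    rw [real_inner_comm]
    exact (Submodule.mem_orthogonal _ _).1 hk _ (Submodule.subset_span ⟨u, v, rfl⟩)
  have hint := integrable_L2 k
  have hrect : ∀ s t : Set Ω, MeasurableSet s → MeasurableSet t →
      ∫ x in s ×ˢ t, k x ∂P.prod P = 0 := by
    intro s t hs ht
    have h1 := hk' (indicatorConstLp 2 hs (measure_ne_top _ _) (1 : ℝ))
      (indicatorConstLp 2 ht (measure_ne_top _ _) (1 : ℝ))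
    rw [inner_tens'] at h1
    rw [← h1, ← integral_indicator (hs.prod ht)]
    refine integral_congr_ae ?_
    filter_upwards [ae_fst (indicatorConstLp_coeFn (p := 2) (hs := hs)
      (hμs := measure_ne_top P s) (c := (1 : ℝ))), ae_snd (indicatorConstLp_coeFn (p := 2)
      (hs := ht) (hμs := measure_ne_top P t) (c := (1 : ℝ)))] with x h2 h3
    rw [h2, h3]
    by_cases hx1 : x.1 ∈ s <;> by_cases hx2 : x.2 ∈ t <;> simp [indicator, hx1, hx2]
  have huniv : ∫ x, k x ∂P.prod P = 0 := by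
    have := hrect univ univ MeasurableSet.univ MeasurableSet.univ
    rwa [univ_prod_univ, Measure.restrict_univ] at this
  have hall : ∀ s : Set (Ω × Ω), MeasurableSet s → ∫ x in s, k x ∂P.prod P = 0 := by
    intro s hs
    induction s, hs using MeasurableSpace.induction_on_inter generateFrom_prod.symm
      isPiSystem_prod with
    | empty => simp
    | basic t ht =>
      obtain ⟨a, ha, b, hb, rfl⟩ := ht
      exact hrect a b ha hb
    | compl t htm iht =>
      rw [setIntegral_compl htm hint, huniv, iht, sub_zero]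
    | iUnion f hfd hfm ihf =>
      rw [integral_iUnion hfm hfd hint.integrableOn]
      simp [ihf]
  have h0 := hint.ae_eq_zero_of_forall_setIntegral_eq_zero fun s hs _ => hall s hs
  exact Lp.ext (h0.trans (Lp.coeFn_zero ℝ 2 (P.prod P)).symm)

theorem isCompact_opK (k : Lp ℝ 2 (P.prod P)) : IsCompactOperator (opK k) := by
  have hc : IsClosed {k : Lp ℝ 2 (P.prod P) | IsCompactOperator (opK k)} :=
    isClosed_setOfPred_isCompactOperator.preimage continuous_opK
  have h1 : ((Submodule.span ℝ {k : Lp ℝ 2 (P.prod P) | ∃ u v, k = tens u v} :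
      Submodule ℝ (Lp ℝ 2 (P.prod P))) : Set (Lp ℝ 2 (P.prod P))) ⊆
      {k | IsCompactOperator (opK k)} := by
    intro l hl
    induction hl using Submodule.span_induction with
    | mem x hx =>
      obtain ⟨u, v, rfl⟩ := hx
      show IsCompactOperator (opK (tens u v))
      rw [opK_tens, InnerProductSpace.rankOne_def']
      exact (isCompactOperator_of_locallyCompactSpace_dom (innerSL ℝ v)).clm_comp
        (ContinuousLinearMap.toSpanSingleton ℝ u)
    | zero =>
      show IsCompactOperator (opK (0 : Lp ℝ 2 (P.prod P)))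
      rw [opK_zero]
      exact isCompactOperator_zero
    | add x y _ _ hx hy =>
      show IsCompactOperator (opK (x + y))
      rw [opK_add]
      exact IsCompactOperator.add hx hy
    | smul a x _ hx =>
      show IsCompactOperator (opK (a • x))
      rw [opK_smul]
      exact IsCompactOperator.smul hx a
  exact hc.closure_subset_iff.2 h1 (dense_tens k)

theorem int_mul (k : Lp ℝ 2 (P.prod P)) (v : Lp ℝ 2 P) :
    Integrable (fun x : Ω × Ω => k x * v x.2) (P.prod P) := by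
  have h1 : MemLp (fun x : Ω × Ω => v x.2) 2 (P.prod P) :=
    (Lp.memLp v).comp_measurePreserving (measurePreserving_snd (μ := P) (ν := P))
  exact (Lp.memLp k).integrable_mul h1

theorem opK_ae (k : Lp ℝ 2 (P.prod P)) (v : Lp ℝ 2 P) :
    opK k v =ᵐ[P] fun p => ∫ q, k (p, q) * v q ∂P := by
  have hi := int_mul k v
  refine Integrable.ae_eq_of_forall_setIntegral_eq _ _ (integrable_L2 _) hi.integral_prod_left
    fun s hs hs' => ?_
  rw [← L2.inner_indicatorConstLp_one hs hs'.ne, opK_spec, inner_tens']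
  have h1 : ∫ x, k x * (indicatorConstLp 2 hs hs'.ne (1 : ℝ) x.1 * v x.2) ∂P.prod P =
      ∫ x in s ×ˢ univ, k x * v x.2 ∂P.prod P := by
    rw [← integral_indicator (hs.prod MeasurableSet.univ)]
    refine integral_congr_ae ?_
    filter_upwards [ae_fst (indicatorConstLp_coeFn (p := 2) (hs := hs)
      (hμs := hs'.ne) (c := (1 : ℝ)))] with x h2
    rw [h2]
    by_cases hx1 : x.1 ∈ s <;> simp [indicator, hx1]
  rw [h1, setIntegral_prod _ hi.integrableOn, Measure.restrict_univ]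

/-- The operator of an invariant kernel commutes with composition. -/
theorem opK_comp {τ : Ω → Ω} (hτ : MeasurePreserving τ P P) (he : MeasurableEmbedding τ)
    {k : Lp ℝ 2 (P.prod P)} (hk : ∀ᵐ p ∂P.prod P, k (τ p.1, τ p.2) = k p) (v : Lp ℝ 2 P) :
    opK k (Lp.compMeasurePreserving τ hτ v) = Lp.compMeasurePreserving τ hτ (opK k v) := by
  refine Lp.ext ?_
  filter_upwards [opK_ae k (Lp.compMeasurePreserving τ hτ v),
    Lp.coeFn_compMeasurePreserving (opK k v) hτ, hτ.quasiMeasurePreserving.ae (opK_ae k v),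
    Measure.ae_ae_of_ae_prod hk] with w h1 h2 h3 h4
  rw [h1, h2, Function.comp_apply, h3, ← hτ.integral_comp he fun q => k (τ w, q) * v q]
  refine integral_congr_ae ?_
  filter_upwards [h4, Lp.coeFn_compMeasurePreserving v hτ] with q h5 h6
  rw [h6, Function.comp_apply, h5]

end Pool.Agent.P.MP_d483fb_an.Z.TZ.Spec

end

end

section

/-!
The range of a compact operator commuting with a unitary action is approximated by finite
dimensional invariant subspaces; invariant kernels near the diagonal give such approximations of a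
bounded function.
-/

open MeasureTheory Set Filter Topology
open scoped RealInnerProductSpace

set_option linter.unusedSectionVars false

noncomputable section

namespace Pool.Agent.P.MP_d483fb_an.Z.TZ.Spec

theorem approx_fd {Γ H : Type} [Group Γ] [NormedAddCommGroup H] [InnerProductSpace ℝ H]
    [CompleteSpace H] (U : Γ → H →L[ℝ] H) (hU : ∀ γ a b, ⟪U γ a, b⟫ = ⟪a, U γ⁻¹ b⟫)
    {T : H →L[ℝ] H} (hT : IsCompactOperator T) (hc : ∀ γ v, T (U γ v) = U γ (T v)) (v : H)
    {ε : ℝ} (hε : 0 < ε) : ∃ V : Submodule ℝ H, FiniteDimensional ℝ V ∧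
      (∀ γ, ∀ x ∈ V, U γ x ∈ V) ∧ ∃ u ∈ V, ‖T v - u‖ < ε := by
  let A := ContinuousLinearMap.adjoint T
  let S : H →L[ℝ] H := T ∘L A
  have hA : ∀ γ a, A (U γ a) = U γ (A a) := fun γ a => by
    refine ext_inner_right ℝ fun b => ?_
    rw [ContinuousLinearMap.adjoint_inner_left, hU, ← hc, hU,
      ContinuousLinearMap.adjoint_inner_left]
  have hS : ∀ γ a, S (U γ a) = U γ (S a) := fun γ a => by
    show T (A (U γ a)) = U γ (T (A a))
    rw [hA, hc]
  have hSc : IsCompactOperator S := hT.comp_clm A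
  have hSi : ∀ a b, ⟪S a, b⟫ = ⟪A a, A b⟫ := fun a b => by
    show ⟪T (A a), b⟫ = _
    rw [ContinuousLinearMap.adjoint_inner_right]
  have hSs : (S : H →ₗ[ℝ] H).IsSymmetric := fun a b => by
    show ⟪S a, b⟫ = ⟪a, S b⟫
    rw [hSi, real_inner_comm (S b), hSi, real_inner_comm]
  let W : Submodule ℝ H := ⨆ μ : {μ : ℝ // μ ≠ 0}, Module.End.eigenspace (S : H →ₗ[ℝ] H) μ.1
  have h1 : T v ∈ Wᗮᗮ := by
    rw [Submodule.mem_orthogonal]
    intro x hx
    have h2 : S x ∈ (⨆ μ : ℝ, Module.End.eigenspace (S : H →ₗ[ℝ] H) μ)ᗮ := by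
      rw [← Submodule.iInf_orthogonal, Submodule.mem_iInf]
      intro μ
      rw [Submodule.mem_orthogonal]
      intro y hy
      have h3 : S y = μ • y := Module.End.mem_eigenspace_iff.1 hy
      have h4 : ⟪y, S x⟫ = μ * ⟪y, x⟫ := by
        have := hSs y x
        simp only [ContinuousLinearMap.coe_coe] at this
        rw [← this, h3, real_inner_smul_left]
      rw [h4]
      by_cases hμ : μ = 0
      · rw [hμ, zero_mul]
      · rw [(Submodule.mem_orthogonal _ _).1 hx y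
          (Submodule.mem_iSup_of_mem (⟨μ, hμ⟩ : {μ : ℝ // μ ≠ 0}) hy), mul_zero]
    rw [ContinuousLinearMap.orthogonalComplement_iSup_eigenspaces_eq_bot hSc hSs,
      Submodule.mem_bot] at h2
    have h5 : A x = 0 := by
      have := hSi x x
      rw [h2, inner_zero_left] at this
      exact inner_self_eq_zero.1 this.symm
    rw [← ContinuousLinearMap.adjoint_inner_left]
    show ⟪A x, v⟫ = 0
    rw [h5, inner_zero_left]
  rw [Submodule.orthogonal_orthogonal_eq_closure] at h1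
  obtain ⟨u, hu, hd⟩ := Metric.mem_closure_iff.1 h1 ε hε
  have h6 : ∃ V : Submodule ℝ H, FiniteDimensional ℝ V ∧ (∀ γ, ∀ x ∈ V, U γ x ∈ V) ∧ u ∈ V := by
    refine Submodule.iSup_induction (motive := fun u => ∃ V : Submodule ℝ H,
      FiniteDimensional ℝ V ∧ (∀ γ, ∀ x ∈ V, U γ x ∈ V) ∧ u ∈ V) _ hu ?_ ?_ ?_
    · intro μ x hx
      refine ⟨_, ContinuousLinearMap.finite_dimensional_eigenspace hSc μ.1 μ.2, fun γ y hy => ?_, hx⟩
      rw [Module.End.mem_eigenspace_iff] at hy ⊢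
      have h7 : S y = μ.1 • y := hy
      show S (U γ y) = _
      rw [hS, h7, map_smul]
    · exact ⟨⊥, inferInstance, fun γ x hx => by rw [(Submodule.mem_bot ℝ).1 hx]; simp,
        Submodule.zero_mem _⟩
    · rintro x y ⟨V, hV, hVi, hx⟩ ⟨V', hV', hVi', hy⟩
      refine ⟨V ⊔ V', inferInstance, fun γ z hz => ?_,
        Submodule.add_mem _ (Submodule.mem_sup_left hx) (Submodule.mem_sup_right hy)⟩
      obtain ⟨a, ha, b, hb, rfl⟩ := Submodule.mem_sup.1 hz
      rw [map_add]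
      exact Submodule.add_mem _ (Submodule.mem_sup_left (hVi γ a ha))
        (Submodule.mem_sup_right (hVi' γ b hb))
  obtain ⟨V, hV, hVi, huV⟩ := h6
  exact ⟨V, hV, hVi, u, huV, by rwa [dist_eq_norm] at hd⟩

variable {Γ Ω : Type} [Group Γ] [MeasurableSpace Ω] [MulAction Γ Ω] {ν : Measure Ω}
  [IsProbabilityMeasure ν]

/-- The Koopman operator. -/
def koop (hν : ∀ γ : Γ, MeasurePreserving (fun w : Ω => γ • w) ν ν) (γ : Γ) :
    Lp ℝ 2 ν →L[ℝ] Lp ℝ 2 ν :=
  (Lp.compMeasurePreservingₗᵢ ℝ (fun w : Ω => γ⁻¹ • w) (hν γ⁻¹)).toContinuousLinearMap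

variable (hν : ∀ γ : Γ, MeasurePreserving (fun w : Ω => γ • w) ν ν)

theorem koop_eq (γ : Γ) (v : Lp ℝ 2 ν) :
    koop hν γ v = Lp.compMeasurePreserving (fun w : Ω => γ⁻¹ • w) (hν γ⁻¹) v := rfl

theorem koop_ae (γ : Γ) (v : Lp ℝ 2 ν) : koop hν γ v =ᵐ[ν] fun w => v (γ⁻¹ • w) :=
  Lp.coeFn_compMeasurePreserving v (hν γ⁻¹)

include hν in
theorem emb (γ : Γ) : MeasurableEmbedding fun w : Ω => γ • w :=
  (MeasurableEquiv.mk (MulAction.toPerm γ) (hν γ).measurable (hν γ⁻¹).measurable).measurableEmbedding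

theorem koop_mul (γ δ : Γ) (v : Lp ℝ 2 ν) : koop hν (γ * δ) v = koop hν γ (koop hν δ v) := by
  refine Lp.ext ?_
  filter_upwards [koop_ae hν (γ * δ) v, koop_ae hν γ (koop hν δ v),
    (hν γ⁻¹).quasiMeasurePreserving.ae (koop_ae hν δ v)] with w h1 h2 h3
  rw [h1, h2, h3, mul_inv_rev, mul_smul]

theorem koop_one (v : Lp ℝ 2 ν) : koop hν 1 v = v := by
  refine Lp.ext ?_
  filter_upwards [koop_ae hν 1 v] with w h1
  rw [h1, inv_one, one_smul]

theorem koop_inner (γ : Γ) (a b : Lp ℝ 2 ν) : ⟪koop hν γ a, b⟫ = ⟪a, koop hν γ⁻¹ b⟫ := by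
  have h : b = koop hν γ (koop hν γ⁻¹ b) := by rw [← koop_mul, mul_inv_cancel, koop_one]
  conv_lhs => rw [h]
  let L : Lp ℝ 2 ν →ₗᵢ[ℝ] Lp ℝ 2 ν := Lp.compMeasurePreservingₗᵢ ℝ (fun w : Ω => γ⁻¹ • w) (hν γ⁻¹)
  exact L.inner_map_map a (koop hν γ⁻¹ b)

theorem integral_abs_le_norm {α : Type} [MeasurableSpace α] {Q : Measure α} [IsProbabilityMeasure Q]
    (u : Lp ℝ 2 Q) : ∫ p, |u p| ∂Q ≤ ‖u‖ := by
  have h1 : ∫ p, |u p| ∂Q = (eLpNorm u 1 Q).toReal := by
    rw [eLpNorm_one_eq_lintegral_enorm, ← integral_norm_eq_lintegral_enorm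
      (Lp.aestronglyMeasurable u)]
    rfl
  rw [h1, Lp.norm_def]
  exact ENNReal.toReal_mono (Lp.eLpNorm_ne_top u)
    (eLpNorm_le_eLpNorm_of_exponent_le (by norm_num) (Lp.aestronglyMeasurable u))

theorem int_le_add {α : Type} [MeasurableSpace α] {Q : Measure α} {φ a b : α → ℝ}
    (hφ : Integrable φ Q) (ha : Integrable a Q) (hb : Integrable b Q) (h : ∀ x, φ x ≤ a x + b x) :
    ∫ x, φ x ∂Q ≤ ∫ x, a x ∂Q + ∫ x, b x ∂Q := by
  rw [← integral_add ha hb]
  exact integral_mono hφ (ha.add hb) h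

/-- An invariant bounded kernel close to a row-normalised kernel concentrated near the diagonal. -/
theorem approx_of_kernel {g : Ω → ℝ} (hg : Measurable g) {M : ℝ} (hM : ∀ w, |g w| ≤ M)
    {k : Lp ℝ 2 (ν.prod ν)} {f : Ω × Ω → ℝ} (hf : Measurable f)
    (hk : ∀ γ : Γ, ∀ᵐ p ∂ν.prod ν, k (γ • p.1, γ • p.2) = k p)
    (hrow : ∀ w, ∫⁻ w', ENNReal.ofReal (f (w, w') ^ 2) ∂ν = 1) {η : ℝ} (hη : 0 < η)
    (h1 : ∫⁻ p, ENNReal.ofReal ((k p - f p) ^ 2) ∂ν.prod ν ≤ ENNReal.ofReal (η ^ 2))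
    (h2 : ∫⁻ p, ENNReal.ofReal (f p ^ 2 * |g p.1 - g p.2|) ∂ν.prod ν ≤ ENNReal.ofReal (η ^ 2)) :
    ∃ V : Submodule ℝ (Lp ℝ 2 ν), FiniteDimensional ℝ V ∧ (∀ γ, ∀ x ∈ V, koop hν γ x ∈ V) ∧
      ∃ u ∈ V, ∫ w, |u w - g w| ∂ν ≤ η + (M * (η ^ 2 + 3 * η) + η ^ 2) := by
  have hM0 : 0 ≤ M := by
    obtain ⟨w⟩ := nonempty_of_isProbabilityMeasure ν
    exact (abs_nonneg _).trans (hM w)
  have hkm : Measurable k := (Lp.stronglyMeasurable k).measurable
  have hf2m : Measurable fun p => f p ^ 2 := hf.pow_const 2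
  -- integrability
  have hint : ∀ {φ : Ω × Ω → ℝ} {a : ℝ}, Measurable φ → (∀ p, 0 ≤ φ p) → 0 ≤ a →
      ∫⁻ p, ENNReal.ofReal (φ p) ∂ν.prod ν ≤ ENNReal.ofReal a →
      Integrable φ (ν.prod ν) ∧ ∫ p, φ p ∂ν.prod ν ≤ a := by
    intro φ a hφ h0 ha hle
    have hi : Integrable φ (ν.prod ν) :=
      (lintegral_ofReal_ne_top_iff_integrable hφ.aestronglyMeasurable (ae_of_all _ h0)).1
        (ne_top_of_le_ne_top ENNReal.ofReal_ne_top hle)
    refine ⟨hi, ?_⟩
    rw [← ofReal_integral_eq_lintegral_ofReal hi (ae_of_all _ h0)] at hle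
    exact (ENNReal.ofReal_le_ofReal_iff ha).1 hle
  obtain ⟨iF, bF⟩ := hint (a := 1) hf2m (fun p => sq_nonneg _) zero_le_one (by
    rw [lintegral_prod _ hf2m.ennreal_ofReal.aemeasurable]
    simp [hrow])
  obtain ⟨iD, bD⟩ := hint (φ := fun p => (k p - f p) ^ 2) ((hkm.sub hf).pow_const 2) (fun p => sq_nonneg _) (sq_nonneg η) h1
  obtain ⟨iG, bG⟩ := hint (φ := fun p => f p ^ 2 * |g p.1 - g p.2|)
    (hf2m.mul ((hg.comp measurable_fst).sub (hg.comp measurable_snd)).abs)
    (fun p => mul_nonneg (sq_nonneg _) (abs_nonneg _)) (sq_nonneg η) h2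
  have iK : Integrable (fun p => k p ^ 2) (ν.prod ν) :=
    (memLp_two_iff_integrable_sq (Lp.aestronglyMeasurable k)).1 (Lp.memLp k)
  have hrow' : ∀ w, ∫ w', f (w, w') ^ 2 ∂ν = 1 := fun w => by
    rw [integral_eq_lintegral_of_nonneg_ae (ae_of_all _ fun _ => sq_nonneg _)
      (hf2m.comp measurable_prodMk_left).aestronglyMeasurable, hrow]
    rfl
  -- squares are close
  have b1 : ∫ p, |k p ^ 2 - f p ^ 2| ∂ν.prod ν ≤ η ^ 2 + 2 * η := by
    have hp : ∀ p, |k p ^ 2 - f p ^ 2| ≤ (1 + η⁻¹) * (k p - f p) ^ 2 + η * f p ^ 2 := fun p => by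
      have e : η * η⁻¹ = 1 := mul_inv_cancel₀ hη.ne'
      have hi : 0 < η⁻¹ := inv_pos.2 hη
      have a1 := mul_nonneg hi.le (sq_nonneg ((k p - f p) - η * f p))
      have a2 := mul_nonneg hi.le (sq_nonneg ((k p - f p) + η * f p))
      have e1 : η⁻¹ * ((k p - f p) - η * f p) ^ 2 =
          η⁻¹ * (k p - f p) ^ 2 - 2 * (k p - f p) * f p + η * f p ^ 2 := by
        field_simp
        ring
      have e2 : η⁻¹ * ((k p - f p) + η * f p) ^ 2 =
          η⁻¹ * (k p - f p) ^ 2 + 2 * (k p - f p) * f p + η * f p ^ 2 := by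
        field_simp
        ring
      rw [abs_le]
      constructor <;> nlinarith [sq_nonneg (k p - f p)]
    refine (int_le_add (iK.sub iF).abs (iD.const_mul _) (iF.const_mul _) hp).trans ?_
    rw [integral_const_mul, integral_const_mul]
    have e : (1 + η⁻¹) * η ^ 2 = η ^ 2 + η := by field_simp
    have := mul_le_mul_of_nonneg_left bD (by positivity : 0 ≤ 1 + η⁻¹)
    nlinarith
  -- truncation
  obtain ⟨n, hn⟩ : ∃ n : ℕ, ∫ p, |min (k p ^ 2) n - k p ^ 2| ∂ν.prod ν ≤ η := by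
    have ht : Tendsto (fun n : ℕ => ∫ p, |min (k p ^ 2) n - k p ^ 2| ∂ν.prod ν) atTop
        (𝓝 (∫ _p, (0 : ℝ) ∂ν.prod ν)) := by
      refine tendsto_integral_of_dominated_convergence (fun p => k p ^ 2) (fun n => ?_) iK
        (fun n => ae_of_all _ fun p => ?_) (ae_of_all _ fun p => ?_)
      · exact ((((hkm.pow_const 2).min measurable_const).sub
          (hkm.pow_const 2)).abs).aestronglyMeasurable
      · rw [Real.norm_eq_abs, abs_abs, abs_sub_comm, abs_of_nonneg (sub_nonneg.2 (min_le_left _ _))]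
        have : 0 ≤ min (k p ^ 2) (n : ℝ) := le_min (sq_nonneg _) (Nat.cast_nonneg _)
        linarith
      · refine tendsto_const_nhds.congr' ?_
        filter_upwards [tendsto_natCast_atTop_atTop.eventually_ge_atTop (k p ^ 2)] with n hn
        rw [min_eq_left hn, sub_self, abs_zero]
    rw [integral_zero] at ht
    exact (ht.eventually (ge_mem_nhds hη)).exists
  have hqm : Measurable fun p => min (k p ^ 2) (n : ℝ) := (hkm.pow_const 2).min measurable_const
  have hq : MemLp (fun p => min (k p ^ 2) (n : ℝ)) 2 (ν.prod ν) :=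
    MemLp.of_bound hqm.aestronglyMeasurable n (ae_of_all _ fun p => by
      rw [Real.norm_eq_abs, abs_of_nonneg (le_min (sq_nonneg _) (Nat.cast_nonneg _))]
      exact min_le_right _ _)
  have iQ : Integrable (fun p => min (k p ^ 2) (n : ℝ)) (ν.prod ν) := hq.integrable (by norm_num)
  have b2 : ∫ p, |min (k p ^ 2) n - f p ^ 2| ∂ν.prod ν ≤ η ^ 2 + 3 * η := by
    have := int_le_add (φ := fun p => |min (k p ^ 2) n - f p ^ 2|)
      (a := fun p => |min (k p ^ 2) n - k p ^ 2|) (b := fun p => |k p ^ 2 - f p ^ 2|)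
      (iQ.sub iF).abs (iQ.sub iK).abs (iK.sub iF).abs fun p => abs_sub_le _ (k p ^ 2) _
    linarith
  have hgL : MemLp g 2 ν := MemLp.of_bound hg.aestronglyMeasurable M (ae_of_all _ hM)
  have hQi : ∀ γ : Γ, ∀ᵐ p ∂ν.prod ν, hq.toLp _ (γ • p.1, γ • p.2) = hq.toLp _ p := fun γ => by
    filter_upwards [hq.coeFn_toLp, ((hν γ).prod (hν γ)).quasiMeasurePreserving.ae hq.coeFn_toLp,
      hk γ] with p a1 a2 a3
    rw [a1, ← a3]
    exact a2
  obtain ⟨V, hV, hVi, u, hu, hd⟩ := approx_fd (koop hν) (koop_inner hν) (isCompact_opK (hq.toLp _))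
    (fun γ v => opK_comp (hν γ⁻¹) (emb hν γ⁻¹) (hQi γ⁻¹) v) (hgL.toLp g) hη
  refine ⟨V, hV, hVi, u, hu, ?_⟩
  let φ : Ω × Ω → ℝ := fun p => min (k p ^ 2) n * g p.2 - f p ^ 2 * g p.1
  have iφ : Integrable φ (ν.prod ν) :=
    (iQ.mul_bdd (hg.comp measurable_snd).aestronglyMeasurable (ae_of_all _ fun p => hM p.2)).sub
      (iF.mul_bdd (hg.comp measurable_fst).aestronglyMeasurable (ae_of_all _ fun p => hM p.1))
  have e1 : ∀ᵐ w ∂ν, opK (hq.toLp _) (hgL.toLp g) w - g w = ∫ w', φ (w, w') ∂ν := by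
    filter_upwards [opK_ae (hq.toLp _) (hgL.toLp g), Measure.ae_ae_of_ae_prod hq.coeFn_toLp,
      iQ.prod_right_ae, iF.prod_right_ae] with w a1 a2 a3 a4
    have a5 : ∫ w', hq.toLp _ (w, w') * hgL.toLp g w' ∂ν =
        ∫ w', min (k (w, w') ^ 2) n * g w' ∂ν := by
      refine integral_congr_ae ?_
      filter_upwards [a2, hgL.coeFn_toLp] with w' c1 c2
      rw [c1, c2]
    simp only [φ]
    rw [a1, a5, integral_sub (a3.mul_bdd hg.aestronglyMeasurable (ae_of_all _ hM))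
      (a4.mul_const _), integral_mul_const, hrow', one_mul]
  have b3 : ∫ w, |opK (hq.toLp _) (hgL.toLp g) w - g w| ∂ν ≤ M * (η ^ 2 + 3 * η) + η ^ 2 := by
    have c1 : ∫ w, |opK (hq.toLp _) (hgL.toLp g) w - g w| ∂ν = ∫ w, ‖∫ w', φ (w, w') ∂ν‖ ∂ν := by
      refine integral_congr_ae ?_
      filter_upwards [e1] with w hw
      rw [hw, Real.norm_eq_abs]
    have c2 : ∫ w, ‖∫ w', φ (w, w') ∂ν‖ ∂ν ≤ ∫ p, ‖φ p‖ ∂ν.prod ν := by
      rw [integral_prod _ iφ.norm]
      exact integral_mono iφ.integral_prod_left.norm iφ.integral_norm_prod_left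
        fun w => norm_integral_le_integral_norm _
    have c3 : ∀ p, ‖φ p‖ ≤ M * |min (k p ^ 2) n - f p ^ 2| + f p ^ 2 * |g p.1 - g p.2| := fun p => by
      have e : φ p = g p.2 * (min (k p ^ 2) n - f p ^ 2) - f p ^ 2 * (g p.1 - g p.2) := by
        simp only [φ]; ring
      rw [e, Real.norm_eq_abs]
      refine (abs_sub _ _).trans ?_
      rw [abs_mul, abs_mul, abs_of_nonneg (sq_nonneg (f p))]
      gcongr
      exact hM _
    rw [c1]
    refine c2.trans ((int_le_add (a := fun p => M * |min (k p ^ 2) n - f p ^ 2|) iφ.norm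
      ((iQ.sub iF).abs.const_mul M) iG c3).trans ?_)
    rw [integral_const_mul]
    have := mul_le_mul_of_nonneg_left b2 hM0
    linarith
  have b4 : ∫ w, |u w - opK (hq.toLp _) (hgL.toLp g) w| ∂ν ≤ η := by
    refine le_trans (le_of_eq ?_) ((integral_abs_le_norm (opK (hq.toLp _) (hgL.toLp g) - u)).trans
      hd.le)
    refine integral_congr_ae ?_
    filter_upwards [Lp.coeFn_sub (opK (hq.toLp _) (hgL.toLp g)) u] with w hw
    rw [hw, Pi.sub_apply, abs_sub_comm]
  have iu := integrable_L2 u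
  have iT := integrable_L2 (opK (hq.toLp _) (hgL.toLp g))
  have ig : Integrable g ν := hgL.integrable (by norm_num)
  have := int_le_add (φ := fun w => |u w - g w|)
    (a := fun w => |u w - opK (hq.toLp _) (hgL.toLp g) w|)
    (b := fun w => |opK (hq.toLp _) (hgL.toLp g) w - g w|) (iu.sub ig).abs (iu.sub iT).abs
    (iT.sub ig).abs fun w => abs_sub_le _ (opK (hq.toLp _) (hgL.toLp g) w) _
  linarith

end Pool.Agent.P.MP_d483fb_an.Z.TZ.Spec

end

end
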