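import Pool.Agent.P.MP_d483fb_an.M.A10
import Pool.Agent.P.MP_d483fb_an.M.A16

section

/-! Generation of the Lie algebra by root spaces, and the two cases of the final dichotomy at the
level of Lie algebras. -/

open scoped Matrix InnerProductSpace RealInnerProductSpace
open Set Module

noncomputable section

namespace Pool.Agent.P.MP_d483fb_an.Z.Avg

variable {G : Type} [Group G] [TopologicalSpace G] {n k : ℕ} (D : Std G n k)

/-- Elements with weights in the subgroup `L` commuting with all weight vectors off `L`. -/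
def zed (L : AddSubgroup (Euc k)) : Submodule ℝ (Mat n) where
  carrier := {X | X ∈ D.grS L ∧ ∀ E ∈ D.grS (L : Set (Euc k))ᶜ, ⁅E, X⁆ = 0}
  zero_mem' := ⟨zero_mem _, fun E _ => by simp [Ring.lie_def]⟩
  add_mem' := by
    intro X Y hX hY
    refine ⟨add_mem hX.1 hY.1, fun E hE => ?_⟩
    rw [← adL_apply, map_add, adL_apply, adL_apply, hX.2 E hE, hY.2 E hE, add_zero]
  smul_mem' := by
    intro c X hX
    refine ⟨Submodule.smul_mem _ _ hX.1, fun E hE => ?_⟩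
    rw [← adL_apply, map_smul, adL_apply, hX.2 E hE, smul_zero]

theorem add_notMem {L : AddSubgroup (Euc k)} {β γ : Euc k} (hβ : β ∈ (L : Set (Euc k))ᶜ)
    (hγ : γ ∈ (L : Set (Euc k))) : β + γ ∈ (L : Set (Euc k))ᶜ :=
  fun h => hβ (by simpa using L.sub_mem h hγ)

variable (hg : IsSub D.g)
include hg

theorem prS_grS (S : Set (Euc k)) {X : Mat n} (hX : X ∈ D.g) : D.prS S X ∈ D.grS S :=
  ⟨prS_mem D (fun s _ hY => hg _ (D.dg_mem s) _ hY) _ hX, prS_wt D _ _⟩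

theorem zed_isIdl (L : AddSubgroup (Euc k)) : IsIdl D.g (zed D L) := by
  refine ⟨fun X hX => hX.1.1, fun Y hY X hX => ?_⟩
  have h1 := prS_grS D hg L hY
  rw [← prS_add_compl D L Y, br_add_left, hX.2 _ (prS_grS D hg _ hY), add_zero]
  refine ⟨⟨hg _ h1.1 _ hX.1.1, br_wt D h1.2 hX.1.2 fun β hβ γ hγ => L.add_mem hβ hγ⟩,
    fun E hE => ?_⟩
  have h2 : ⁅E, D.prS L Y⁆ ∈ D.grS (L : Set (Euc k))ᶜ :=
    ⟨hg _ hE.1 _ h1.1, br_wt D hE.2 h1.2 fun β hβ γ hγ => add_notMem hβ hγ⟩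
  have h3 := jac E (D.prS L Y) X
  rw [hX.2 _ h2, hX.2 _ hE, ← adL_apply _ 0, map_zero, sub_zero] at h3
  exact h3.symm

theorem eq_zero_of_roots {s : Euc k} (h : ∀ β ∈ D.roots, ⟪β, s⟫ = 0) : s = 0 := by
  have : D.dg s = 0 := by
    refine D.cent _ (D.dg_mem s) fun Y hY => ?_
    rw [br_dg]
    refine Finset.sum_eq_zero fun γ _ => ?_
    by_cases hγ : γ ∈ D.roots
    · rw [h γ hγ, zero_smul]
    · rw [mem_roots, not_and_or, not_not, not_not] at hγ
      rcases hγ with rfl | hγ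
      · simp
      · have : D.pr γ Y ∈ D.gr γ := prS_grS D hg _ hY
        rw [hγ, Submodule.mem_bot] at this
        rw [this, smul_zero]
  rw [← inner_self_eq_zero (𝕜 := ℝ), ← ip_dg D, this, ip_zero_left]

omit hg in
theorem inner_eq_zero_of_br {β s : Euc k} (hβ : β ∈ D.roots)
    (h : ∀ E ∈ D.gr β, ⁅E, D.dg s⁆ = 0) : ⟪β, s⟫ = 0 := by
  obtain ⟨E, hE, h0⟩ := (Submodule.ne_bot_iff _).1 ((mem_roots D).1 hβ).2
  have := h E hE
  rw [br_neg, br_dg_of_mem D hE.2, neg_eq_zero] at this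
  exact (smul_eq_zero.1 this).resolve_right h0

theorem zed_bot : zed D ⊥ = ⊥ := by
  by_contra h
  obtain ⟨X, hX, Y, -, hs, -, -, hl⟩ := D.rank _ (zed_isIdl D hg ⊥) h
  obtain ⟨s, rfl⟩ := D.max' X hX.1.1 hs fun i j hij => sub_eq_zero.1 (hX.1.2 i j hij)
  have : s = 0 := eq_zero_of_roots D hg fun β hβ => inner_eq_zero_of_br D hβ fun E hE =>
    hX.2 E (gr_le_grS D (show β ∈ ((⊥ : AddSubgroup (Euc k)) : Set (Euc k))ᶜ from
      ((mem_roots D).1 hβ).1) hE)
  have h0 := hl.ne_zero 0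
  rw [← D.dg_apply, this, map_zero] at h0
  exact h0 rfl

variable (hT : ∀ X ∈ D.g, Xᵀ ∈ D.g)
include hT

/-- If every root in `L` pairs nontrivially with a root off `L`, nothing commutes with the weight
vectors off `L`. -/
theorem zed_eq_bot {L : AddSubgroup (Euc k)}
    (hL : ∀ β ∈ D.roots, β ∈ L → ∃ α ∈ D.roots, α ∉ L ∧ ⟪α, β⟫ ≠ 0) : zed D L = ⊥ := by
  have hI := zed_isIdl D hg L
  have h1 : ∀ β, β ≠ 0 → ∀ E ∈ D.gr β, E ∈ zed D L → E = 0 := by
    intro β hβ E hE hz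
    by_contra h0
    have hr : β ∈ D.roots := (mem_roots D).2 ⟨hβ, (Submodule.ne_bot_iff _).2 ⟨E, hE, h0⟩⟩
    obtain ⟨i, j, hij⟩ : ∃ i j, E i j ≠ 0 := by
      by_contra hc
      push Not at hc
      exact h0 (Matrix.ext hc)
    obtain ⟨α, hα, hαL, hne⟩ := hL β hr
      ((show D.lam i - D.lam j = β from hE.2 i j hij) ▸ hz.1.2 i j hij)
    have h2 : ⁅E, Eᵀ⁆ ∈ zed D L := by
      rw [br_neg]
      exact neg_mem (hI.2 _ (hT _ hE.1) _ hz)
    rw [br_tr D hg hT hE, ← map_smul] at h2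
    have := inner_eq_zero_of_br D hα fun F hF => h2.2 F (gr_le_grS D hαL hF)
    rw [real_inner_smul_right] at this
    exact mul_ne_zero (ip_self_pos h0).ne' hne this
  rw [eq_bot_iff, ← zed_bot D hg]
  intro X hX
  have hp : ∀ S, D.prS S X ∈ zed D L :=
    fun S => prS_mem D (fun s _ hY => hI.2 _ (D.dg_mem s) _ hY) S hX
  have h0 : X ∈ D.wtS {0} := by
    intro i j hij
    by_contra hne
    have := h1 _ hne _ (prS_grS D hg _ hX.1.1) (hp _)
    have h3 := congrFun (congrFun this i) j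
    rw [D.prS_apply, if_pos (mem_singleton _)] at h3
    exact hij h3
  refine ⟨⟨hX.1.1, h0⟩, fun E hE => ?_⟩
  rw [br_neg, neg_eq_zero, ← adL_apply]
  refine grS_le D hg (q := LinearMap.ker (adL X)) (fun γ hγ F hF => ?_) hE
  rw [LinearMap.mem_ker, adL_apply, br_neg, neg_eq_zero]
  refine h1 γ hγ _ ⟨hg _ hF.1 _ hX.1.1, br_wt D hF.2 h0 fun β hβ δ hδ => ?_⟩ (hI.2 _ hF.1 _ hX)
  rw [show δ = 0 from hδ, add_zero]
  exact hβ

/-- The weight vectors off `L` generate the Lie algebra. -/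
theorem le_of_zed {L : AddSubgroup (Euc k)} (hL : zed D L = ⊥) {q : Submodule ℝ (Mat n)}
    (hqg : q ≤ D.g) (hq : IsSub q) (h : D.grS (L : Set (Euc k))ᶜ ≤ q) : D.g ≤ q := by
  refine le_of_orth hqg fun X hX ho => ?_
  have h1 : D.prS (L : Set (Euc k))ᶜ X = 0 := by
    rw [← ip_self_eq_zero, ← ip_prS]
    exact ho _ (h (prS_grS D hg _ hX))
  have h2 : X ∈ D.wtS L := by
    rw [← prS_add_compl D L X, h1, add_zero]
    exact prS_wt D _ _
  rw [← Submodule.mem_bot ℝ, ← hL]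
  refine ⟨⟨hX, h2⟩, fun E hE => ?_⟩
  rw [← ip_self_eq_zero, ip_br]
  refine ho _ (hq _ (h ⟨hT _ hE.1, tr_wt D hE.2 fun β hβ hb => hβ ?_⟩) _
    (h ⟨hg _ hE.1 _ hX, br_wt D hE.2 h2 fun β hβ γ hγ => add_notMem hβ hγ⟩))
  simpa using L.neg_mem hb

omit hT in
theorem grS_le_of_np {S : Set (Euc k)} (hS : (0 : Euc k) ∉ S) {H : Euc k}
    (hH : ∀ β ∈ D.roots, β ∈ S → ⟪β, H⟫ ≠ 0) {q : Submodule ℝ (Mat n)} (h1 : D.np H ≤ q)
    (h2 : D.np (-H) ≤ q) : D.grS S ≤ q := by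
  refine grS_le D hg fun γ hγ => ?_
  by_cases hb : D.gr γ = ⊥
  · rw [hb]
    exact bot_le
  have hr : γ ∈ D.roots := (mem_roots D).2 ⟨fun h => hS (h ▸ hγ), hb⟩
  rcases (hH γ hr hγ).lt_or_gt with h | h
  · refine (gr_le_grS D (S := {γ | 0 < ⟪γ, -H⟫}) ?_).trans h2
    rw [mem_ofPred_eq, inner_neg_right]
    linarith
  · exact (gr_le_grS D (S := {γ | 0 < ⟪γ, H⟫}) h).trans h1

variable {q : Submodule ℝ (Mat n)} (hqg : q ≤ D.g) (hq : IsSub q) (ha : ∀ s, D.dg s ∈ q)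
include hqg hq ha

theorem wsum_nonneg_of_smul {β : Euc k}
    (h : ∃ c : ℝ, 0 < c ∧ ∃ X, X ≠ 0 ∧ X ∈ D.gr (c • β) ∧ X ∈ q) : 0 ≤ ⟪β, wsum D q⟫ := by
  obtain ⟨c, hc, X, h0, h1, h2⟩ := h
  have := wsum_nonneg D hg hT hqg hq ha ((Submodule.ne_bot_iff _).2 ⟨X, ⟨h1, h2⟩, h0⟩)
  rw [real_inner_smul_left] at this
  exact nonneg_of_mul_nonneg_right this hc

/-- A subalgebra containing the Cartan subspace and a maximal horospherical algebra is everything,
or misses all the classes of roots in an open half space. -/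
theorem trace_trick {H : Euc k} (hH : ∀ β ∈ D.roots, ⟪β, H⟫ ≠ 0) (hn : D.np H ≤ q) :
    D.g ≤ q ∨ ∃ r, (∃ β ∈ D.roots, ⟪β, r⟫ < 0) ∧
      ∀ β, ⟪β, r⟫ < 0 → ¬∃ c : ℝ, 0 < c ∧ ∃ X, X ≠ 0 ∧ X ∈ D.gr (c • β) ∧ X ∈ q := by
  by_cases h : ∃ β ∈ D.roots, ⟪β, wsum D q⟫ < 0
  · exact Or.inr ⟨_, h, fun β hβ hc => (wsum_nonneg_of_smul D hg hT hqg hq ha hc).not_gt hβ⟩
  push Not at h
  have h0 := np_neg_le D hg hT hn (by rw [wsum_eq_zero D hT h, inner_zero_left])
  exact Or.inl (le_of_zed D hg hT (zed_bot D hg) hqg hq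
    (grS_le_of_np D hg (notMem_compl_iff.2 (zero_mem _)) (fun β hβ _ => hH β hβ) hn h0))

/-- The blocked case: all classes off `L` meet `q`. -/
theorem blocked_alg {L : AddSubgroup (Euc k)}
    (hL : ∀ β ∈ D.roots, β ∈ L → ∃ α ∈ D.roots, α ∉ L ∧ ⟪α, β⟫ ≠ 0) {H : Euc k}
    (hH : ∀ β ∈ D.roots, β ∉ L → ⟪β, H⟫ ≠ 0) (hn : D.np H ≤ q)
    (hD : ∀ β ∈ D.roots, β ∉ L → ∃ c : ℝ, 0 < c ∧ ∃ X, X ≠ 0 ∧ X ∈ D.gr (c • β) ∧ X ∈ q) :
    D.g ≤ q := by
  have hz := zed_eq_bot D hg hT hL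
  have h1 : ∀ β ∈ D.roots, β ∉ L → ⟪β, wsum D q⟫ = 0 := fun β hβ hb => by
    have h2 := wsum_nonneg_of_smul D hg hT hqg hq ha (hD β hβ hb)
    have h3 := wsum_nonneg_of_smul D hg hT hqg hq ha
      (hD _ (neg_mem_roots D hT hβ) fun h => hb (by simpa using L.neg_mem h))
    rw [inner_neg_left] at h3
    linarith
  have h2 : D.dg (wsum D q) ∈ zed D L := by
    refine ⟨⟨D.dg_mem _, fun i j hij => ?_⟩, fun E hE => ?_⟩
    · obtain rfl : i = j := by
        by_contra hne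
        exact hij (by rw [D.dg_apply, Matrix.diagonal_apply_ne _ hne])
      rw [sub_self]
      exact L.zero_mem
    · rw [br_neg, neg_eq_zero, ← adL_apply]
      refine grS_le D hg (q := LinearMap.ker (adL _)) (fun γ hγ F hF => ?_) hE
      rw [LinearMap.mem_ker, adL_apply, br_dg_of_mem D hF.2]
      by_cases h0 : F = 0
      · rw [h0, smul_zero]
      · rw [h1 γ ((mem_roots D).2 ⟨fun h => hγ (h ▸ L.zero_mem),
          (Submodule.ne_bot_iff _).2 ⟨F, hF, h0⟩⟩) hγ, zero_smul]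
  rw [hz, Submodule.mem_bot] at h2
  have h3 : wsum D q = 0 := by
    rw [← inner_self_eq_zero (𝕜 := ℝ), ← ip_dg D, h2, ip_zero_left]
  have h0 := np_neg_le D hg hT hn (by rw [h3, inner_zero_left])
  exact le_of_zed D hg hT hz hqg hq
    (grS_le_of_np D hg (notMem_compl_iff.2 L.zero_mem) hH hn h0)

end Pool.Agent.P.MP_d483fb_an.Z.Avg

end

end

section

/-! The final dichotomy: a closed subgroup containing the Cartan subgroup and a horospherical
group, and meeting every class of roots that has too few exponents, is the whole group. -/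

open scoped Matrix InnerProductSpace RealInnerProductSpace
open Set Module

noncomputable section

namespace Pool.Agent.P.MP_d483fb_an.Z.Avg

open Z.Std

theorem finrank_sup_le_sum {α V : Type} [AddCommGroup V] [Module ℝ V] [FiniteDimensional ℝ V]
    (T : Finset α) (f : α → Submodule ℝ V) :
    finrank ℝ ↥(T.sup f) ≤ ∑ a ∈ T, finrank ℝ (f a) := by
  classical
  induction T using Finset.induction_on with
  | empty => simp
  | insert a T ha ih =>
    rw [Finset.sup_insert, Finset.sum_insert ha]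
    exact (Submodule.finrank_add_le_finrank_add_finrank _ _).trans (Nat.add_le_add_left ih _)

theorem cls_eq_of_mem {k : ℕ} {β γ δ : Euc k} (h1 : δ ∈ cls β) (h2 : δ ∈ cls γ) :
    cls β = cls γ := by
  have key : ∀ {β δ : Euc k}, δ ∈ cls β → cls δ = cls β := by
    rintro β _ ⟨c, hc, rfl⟩
    ext x
    constructor
    · rintro ⟨d, hd, rfl⟩
      exact ⟨d * c, mul_pos hd hc, smul_smul d c β⟩
    · rintro ⟨d, hd, rfl⟩
      exact ⟨d / c, div_pos hd hc, by rw [smul_smul, div_mul_cancel₀ _ hc.ne']⟩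
  rw [← key h1, key h2]

variable {G : Type} [Group G] [TopologicalSpace G] [IsTopologicalGroup G] {n k : ℕ}
  (D : Std G n k)

/-- The codimension of a proper parabolic subgroup. -/
theorem lt_finrank_neg {m : ℕ} (hv : D.ltV m) {r : Euc k} (hr : ∃ β ∈ D.roots, ⟪β, r⟫ < 0) :
    m < finrank ℝ (D.grS {γ | ⟪γ, r⟫ < 0}) := by
  obtain ⟨β, hβ, hr⟩ := hr
  obtain ⟨E, hE, h0⟩ := D.exists_ne_zero hβ
  obtain ⟨P, hP, -, hl⟩ := D.exists_normaliser (D.grS {γ | ⟪γ, r⟫ < 0}ᶜ)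
  have hne : P ≠ ⊤ := by
    rintro rfl
    have h1 := ((hl E).1 (by rw [D.lie_top]; exact hE.1)).2 (D.dg r)
      (D.gr_le_grS (by simp) (D.dg_mem_gr r))
    rw [br_neg, D.br_dg hE, neg_mem_iff, Submodule.smul_mem_iff _ hr.ne] at h1
    exact h0 (ip_self_eq_zero.1 (D.ip_wtS hE.2 h1.2 (by simpa using hr)))
  have hle : D.grS {γ | ⟪γ, r⟫ < 0}ᶜ ≤ D.lie P := fun X hX => (hl X).2
    ⟨hX.1, fun Y hY => D.br_grS hX hY fun a ha b hb => by
      simp only [mem_compl_iff, mem_ofPred_eq, not_lt, inner_add_left] at ha hb ⊢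
      exact add_nonneg ha hb⟩
  have h1 := hv P hP hne
  have h2 := D.finrank_grS_union (disjoint_compl_right (a := {γ | ⟪γ, r⟫ < 0}))
  rw [union_compl_self, D.grS_univ] at h2
  have h3 := Submodule.finrank_mono hle
  omega

open Classical in
theorem finrank_le_sum {ι : Type} [Fintype ι] (w : ι → Euc k) (d : ι → ℕ) {S : Set (Euc k)}
    (h0 : 0 ∉ S) (h : ∀ β ∈ D.roots, β ∈ S →
      finrank ℝ (D.u β) ≤ ∑ i with w i ∈ cls β, d i) : finrank ℝ (D.grS S) ≤ ∑ i, d i := by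
  set T : Finset (Set (Euc k)) := (D.roots.filter (· ∈ S)).image cls
  have h1 : D.grS S ≤ T.sup D.grS := D.grS_le_of fun β hβ hr => by
    have hr' : β ∈ D.roots := hr.resolve_left fun h => h0 (h ▸ hβ)
    exact (D.gr_le_grS (S := cls β) ⟨1, one_pos, (one_smul _ _).symm⟩).trans
      (Finset.le_sup (Finset.mem_image_of_mem _ (Finset.mem_filter.2 ⟨hr', hβ⟩)))
  refine (Submodule.finrank_mono h1).trans ((finrank_sup_le_sum T _).trans ?_)
  have h2 : ∀ C ∈ T, finrank ℝ (D.grS C) ≤ ∑ i with w i ∈ C, d i := fun C hC => by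
    obtain ⟨β, hβ, rfl⟩ := Finset.mem_image.1 hC
    exact h β (Finset.mem_filter.1 hβ).1 (Finset.mem_filter.1 hβ).2
  refine (Finset.sum_le_sum h2).trans ?_
  rw [← Finset.sum_biUnion]
  · exact Finset.sum_le_sum_of_subset (Finset.subset_univ _)
  · intro C hC C' hC' hne
    obtain ⟨β, -, rfl⟩ := Finset.mem_image.1 hC
    obtain ⟨γ, -, rfl⟩ := Finset.mem_image.1 hC'
    exact Finset.disjoint_left.2 fun i h1 h2 =>
      hne (cls_eq_of_mem (Finset.mem_filter.1 h1).2 (Finset.mem_filter.1 h2).2)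

open Classical in
/-- The dichotomy for subalgebras, exponents `w i` with multiplicities `d i`. -/
theorem dich_alg {m : ℕ} (hv : D.ltV m) {ι : Type} [Fintype ι] (w : ι → Euc k) (d : ι → ℕ)
    (hm : ∑ i, d i ≤ m) {q : Submodule ℝ (Mat n)} (hqg : q ≤ D.g) (hq : IsSub q)
    (ha : ∀ s, D.dg s ∈ q) {H : Euc k} (hH : D.Reg H) (hn : D.np H ≤ q)
    (hD : ∀ β ∈ D.roots, ∑ i with w i ∈ cls β, d i < finrank ℝ (D.u β) →
      ∃ c : ℝ, 0 < c ∧ ∃ X, X ≠ 0 ∧ X ∈ D.gr (c • β) ∧ X ∈ q) : D.g ≤ q := by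
  rcases trace_trick D D.g_isSub (fun _ => D.tr_mem) hqg hq ha hH hn with h | ⟨r, hr, h⟩
  · exact h
  have h1 := lt_finrank_neg D hv hr
  have h2 := finrank_le_sum D w d (S := {γ | ⟪γ, r⟫ < 0}) (by simp)
    fun β hβ hb => not_lt.1 fun hlt => h β hb (hD β hβ hlt)
  omega

variable [PreconnectedSpace G]

open Classical in
/-- The dichotomy for subgroups, exponents with multiplicities. -/
theorem dich_mult {m : ℕ} (hv : D.ltV m) {ι : Type} [Fintype ι] (w : ι → Euc k) (d : ι → ℕ)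
    (hm : ∑ i, d i ≤ m) {Q : Subgroup G} (ha : ∀ s, D.dg s ∈ D.lie Q) {H : Euc k}
    (hH : D.Reg H) (hn : D.np H ≤ D.lie Q)
    (hD : ∀ β ∈ D.roots, ∑ i with w i ∈ cls β, d i < finrank ℝ (D.u β) →
      ∃ c : ℝ, 0 < c ∧ ∃ X, X ≠ 0 ∧ X ∈ D.gr (c • β) ∧ X ∈ D.lie Q) : Q = ⊤ :=
  D.eq_top_of_le_lie (dich_alg D hv w d hm (D.lie_le Q) (D.lie_isSub Q) ha hH hn hD)

/-- The dichotomy for subgroups, exponents listed with repetition. -/
theorem dich {ι : Type} [Fintype ι] (hv : D.ltV (Fintype.card ι)) (w : ι → Euc k)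
    {Q : Subgroup G} (ha : ∀ s, D.dg s ∈ D.lie Q) {H : Euc k} (hH : D.Reg H)
    (hn : D.np H ≤ D.lie Q)
    (hD : ∀ β ∈ D.roots, Nat.card {i // w i ∈ cls β} < finrank ℝ (D.u β) →
      ∃ c : ℝ, 0 < c ∧ ∃ X, X ≠ 0 ∧ X ∈ D.gr (c • β) ∧ X ∈ D.lie Q) : Q = ⊤ := by
  classical
  refine dich_mult D hv w (fun _ => 1) (by simp) ha hH hn fun β hβ h => hD β hβ ?_
  rw [Nat.card_eq_fintype_card, Fintype.card_subtype]
  simpa using h

/-- The blocked case: every class of roots off the line of `θ` meets the Lie algebra of `Q`. -/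
theorem blocked (hR : ∀ β ∈ D.roots, ∃ α ∈ D.roots, 0 < ⟪α, β⟫ ∧ ∀ c : ℝ, α ≠ c • β)
    {θ : Euc k} {Q : Subgroup G} (ha : ∀ s, D.dg s ∈ D.lie Q) {H : Euc k}
    (hH : ∀ β ∈ D.roots, (∀ c : ℝ, β ≠ c • θ) → ⟪β, H⟫ ≠ 0) (hn : D.np H ≤ D.lie Q)
    (hD : ∀ β ∈ D.roots, (∀ c : ℝ, β ≠ c • θ) →
      ∃ c : ℝ, 0 < c ∧ ∃ X, X ≠ 0 ∧ X ∈ D.gr (c • β) ∧ X ∈ D.lie Q) : Q = ⊤ := by
  have hm : ∀ β, β ∉ (Submodule.span ℝ {θ}).toAddSubgroup → ∀ c : ℝ, β ≠ c • θ :=
    fun β h c hc => h (Submodule.mem_span_singleton.2 ⟨c, hc.symm⟩)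
  refine D.eq_top_of_le_lie (blocked_alg D D.g_isSub (fun _ => D.tr_mem) (D.lie_le Q)
    (D.lie_isSub Q) ha (L := (Submodule.span ℝ {θ}).toAddSubgroup) (fun β hβ hb => ?_)
    (fun β hβ hb => hH β hβ (hm β hb)) hn fun β hβ hb => hD β hβ (hm β hb))
  obtain ⟨α, hα, h1, h2⟩ := hR β hβ
  refine ⟨α, hα, fun h => ?_, h1.ne'⟩
  obtain ⟨c, rfl⟩ := Submodule.mem_span_singleton.1 hb
  obtain ⟨e, rfl⟩ := Submodule.mem_span_singleton.1 h
  have hc : c ≠ 0 := fun h0 => D.root_ne_zero hβ (by rw [h0, zero_smul])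
  exact h2 (e / c) (by rw [smul_smul, div_mul_cancel₀ _ hc])

end Pool.Agent.P.MP_d483fb_an.Z.Avg

end

end

section

/-! Generation by root spaces. -/

open scoped Matrix Matrix.Norms.Operator InnerProductSpace RealInnerProductSpace Topology
open NormedSpace Filter Set

noncomputable section

namespace Pool.Agent.P.MP_d483fb_an.Z

namespace Std

variable {G : Type} [Group G] [TopologicalSpace G] [IsTopologicalGroup G] [PreconnectedSpace G]
  {n k : ℕ} (D : Std G n k)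

omit [PreconnectedSpace G] in
theorem gen_all {q : Submodule ℝ (Mat n)} (hq : IsSub q) (h : ∀ β ∈ D.roots, D.gr β ≤ q) :
    D.g ≤ q := by
  refine (Avg.le_of_zed D D.g_isSub (fun _ => D.tr_mem) (Avg.zed_bot D D.g_isSub)
    (q := q ⊓ D.g) inf_le_right
    (fun X hX Y hY => ⟨hq _ hX.1 _ hY.1, D.g_isSub _ hX.2 _ hY.2⟩) ?_).trans inf_le_left
  exact le_inf (D.grS_le_of fun β hβ hr => h β (hr.resolve_left hβ)) (D.grS_le _)

omit [PreconnectedSpace G] in
theorem exists_pos_root {α γ s : Euc k} (hα : α ∈ D.roots) (h1 : ⟪α, s⟫ ≠ 0) (h2 : ⟪α, γ⟫ ≠ 0) :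
    ∃ α ∈ D.roots, ⟪α, s⟫ ≠ 0 ∧ 0 < ⟪α, γ⟫ := by
  rcases h2.lt_or_gt with h | h
  · refine ⟨-α, D.neg_mem_roots hα, ?_, ?_⟩ <;> rw [inner_neg_left]
    · exact neg_ne_zero.2 h1
    · exact neg_pos.2 h
  · exact ⟨α, hα, h1, h⟩

omit [PreconnectedSpace G] in
theorem gen_conn {q : Submodule ℝ (Mat n)} (hq : IsSub q) {s : Euc k}
    (h : ∀ γ ∈ D.roots, ⟪γ, s⟫ ≠ 0 → D.gr γ ≤ q) {β γ : Euc k} (hβ : β ∈ D.roots)
    (hs : ⟪β, s⟫ ≠ 0) (hc : D.Conn β γ) : D.gr γ ≤ q := by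
  have good : γ ∈ D.roots ∧ ∃ α ∈ D.roots, ⟪α, s⟫ ≠ 0 ∧ ⟪α, γ⟫ ≠ 0 := by
    induction hc with
    | refl => exact ⟨hβ, β, hβ, hs, inner_self_ne_zero.2 (D.root_ne_zero hβ)⟩
    | @tail γ δ _ hγδ ih =>
      obtain ⟨hγ, hδ, hne⟩ := hγδ
      refine ⟨hδ, ?_⟩
      by_cases h1 : ⟪γ, s⟫ = 0
      swap
      · exact ⟨γ, hγ, h1, hne⟩
      obtain ⟨-, α, hα, h2, h3⟩ := ih
      obtain ⟨α, hα, h2, h3⟩ := D.exists_pos_root hα h2 h3
      by_cases h4 : ⟪α, δ⟫ = 0
      swap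
      · exact ⟨α, hα, h2, h4⟩
      refine ⟨α - γ, D.sub_mem_roots hγ hα (by rwa [real_inner_comm]) ?_, ?_, ?_⟩
      · rintro rfl
        exact h2 h1
      · rwa [inner_sub_left, h1, sub_zero]
      · rwa [inner_sub_left, h4, zero_sub, neg_ne_zero]
  obtain ⟨hγ, α, hα, h2, h3⟩ := good
  by_cases h1 : ⟪γ, s⟫ = 0
  swap
  · exact h γ hγ h1
  obtain ⟨α, hα, h2, h3⟩ := D.exists_pos_root hα h2 h3
  obtain ⟨E, hE, h0⟩ := D.exists_ne_zero hα
  intro Z hZ
  obtain ⟨W, hW, rfl⟩ := D.br_onto hE h0 h3 hZ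
  refine hq _ (h α hα h2 hE) _ (h _ (D.sub_mem_roots hα hγ h3 ?_) ?_ hW)
  · rintro rfl
    exact h2 h1
  · rwa [inner_sub_left, h1, zero_sub, neg_ne_zero]

omit [PreconnectedSpace G] in
theorem gen_full {q : Submodule ℝ (Mat n)} (hq : IsSub q) {s : Euc k} (hs : D.Full s)
    (h : ∀ γ ∈ D.roots, ⟪γ, s⟫ ≠ 0 → D.gr γ ≤ q) : D.g ≤ q := by
  refine D.gen_all hq fun γ hγ => ?_
  obtain ⟨β, hβ, hc, h0⟩ := hs γ hγ
  exact D.gen_conn hq h hβ h0 (D.conn_symm hc)

theorem full_of_wall {θ s : Euc k} (h : ∀ γ ∈ D.roots, (∀ c : ℝ, γ ≠ c • θ) → ⟪γ, s⟫ ≠ 0) :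
    D.Full s := by
  intro γ hγ
  by_cases h1 : ∀ c : ℝ, γ ≠ c • θ
  · exact ⟨γ, hγ, Relation.ReflTransGen.refl, h γ hγ h1⟩
  push Not at h1
  obtain ⟨c, rfl⟩ := h1
  obtain ⟨α, hα, h2, h3⟩ := D.rank2 hγ
  have hc : c ≠ 0 := fun h0 => D.root_ne_zero hγ (by rw [h0, zero_smul])
  refine ⟨α, hα, Relation.ReflTransGen.single ⟨hγ, hα, ?_⟩, h α hα fun e he => h3 (e / c) ?_⟩
  · rw [real_inner_comm]
    exact h2.ne'
  · rw [smul_smul, div_mul_cancel₀ _ hc, he]

theorem gen_off_line {q : Submodule ℝ (Mat n)} (hq : IsSub q) (θ : Euc k)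
    (h : ∀ γ ∈ D.roots, (∀ c : ℝ, γ ≠ c • θ) → D.gr γ ≤ q) : D.g ≤ q := by
  obtain ⟨s, h0, hs⟩ := exists_generic_wall θ D.roots
  refine D.gen_full hq (D.full_of_wall hs) fun γ hγ h1 => h γ hγ fun c hc => h1 ?_
  rw [hc, real_inner_smul_left, h0, mul_zero]

omit [IsTopologicalGroup G] [PreconnectedSpace G] in
theorem full_of_reg' {s : Euc k} (h : D.Reg s) : D.Full s :=
  fun γ hγ => ⟨γ, hγ, Relation.ReflTransGen.refl, h γ hγ⟩

set_option linter.unusedSectionVars false in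
omit [PreconnectedSpace G] in
theorem full_of_reg {s : Euc k} (h : D.Reg s) : D.Full s := D.full_of_reg' h

theorem eq_top_of_roots {H : Subgroup G} (h : ∀ β ∈ D.roots, ∀ X ∈ D.gr β, D.ex X ∈ H) :
    H = ⊤ :=
  D.eq_top_of_le_lie (D.gen_all (D.lie_isSub H) fun β hβ => D.le_lie (D.gr_le β) (h β hβ))

theorem eq_top_of_full {H : Subgroup G} {s : Euc k} (hs : D.Full s)
    (h : ∀ β ∈ D.roots, ⟪β, s⟫ ≠ 0 → ∀ X ∈ D.gr β, D.ex X ∈ H) : H = ⊤ :=
  D.eq_top_of_le_lie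
    (D.gen_full (D.lie_isSub H) hs fun β hβ h0 => D.le_lie (D.gr_le β) (h β hβ h0))

theorem eq_top_off_line {H : Subgroup G} (θ : Euc k)
    (h : ∀ β ∈ D.roots, (∀ c : ℝ, β ≠ c • θ) → ∀ X ∈ D.gr β, D.ex X ∈ H) : H = ⊤ :=
  D.eq_top_of_le_lie
    (D.gen_off_line (D.lie_isSub H) θ fun β hβ h0 => D.le_lie (D.gr_le β) (h β hβ h0))

include D in
theorem perfect {A : Type*} [CommMonoid A] (χ : G →* A) (x : G) : χ x = 1 := by
  have : χ.ker = ⊤ := D.eq_top_of_roots fun β hβ X hX => by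
    have hb : ⟪β, β⟫ ≠ 0 := inner_self_ne_zero.2 (D.root_ne_zero hβ)
    have h1 := D.a_conj_ex ((Real.log 2 / ⟪β, β⟫) • β) hX
    rw [real_inner_smul_right, div_mul_cancel₀ _ hb, Real.exp_log two_pos] at h1
    have h2 := D.ex_nsmul hX.1 2
    rw [Nat.cast_ofNat, ← h1] at h2
    have h3 := congrArg χ h2
    rw [map_mul, map_mul, mul_right_comm, ← map_mul, mul_inv_cancel, map_one, one_mul, map_pow,
      sq] at h3
    rw [MonoidHom.mem_ker]
    calc χ (D.ex X) = χ (D.ex X) * χ (D.ex X) * χ (D.ex X)⁻¹ := by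
          rw [mul_assoc, ← map_mul, mul_inv_cancel, map_one, mul_one]
      _ = 1 := by rw [← h3, ← map_mul, mul_inv_cancel, map_one]
  exact MonoidHom.mem_ker.1 (this ▸ Subgroup.mem_top x)

theorem det_ρ (x : G) : (D.ρ x).det = 1 := D.perfect (Matrix.detMonoidHom.comp D.ρ) x

omit [PreconnectedSpace G] in
theorem exists_neg_root {s : Euc k} (hs : s ≠ 0) : ∃ β ∈ D.roots, ⟪β, s⟫ < 0 := by
  by_contra h
  push Not at h
  refine hs (D.roots_span fun β hβ => le_antisymm ?_ (h β hβ))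
  have := h _ (D.neg_mem_roots hβ)
  rwa [inner_neg_left, neg_nonneg] at this

set_option linter.unusedSectionVars false in
theorem Par_ne_top {s : Euc k} (hs : s ≠ 0) : D.Par s ≠ ⊤ := by
  intro h
  obtain ⟨β, hβ, h1⟩ := D.exists_neg_root hs
  obtain ⟨E, hE, h0⟩ := D.exists_ne_zero hβ
  have h2 := D.lie_stab (half s)
  rw [show D.stab (half s) = ⊤ from h, D.lie_top] at h2
  have h3 : E ∈ D.grS (half s) := h2 ▸ hE.1
  exact h0 (ip_self_eq_zero.1 (D.ip_wtS hE.2 h3.2 (Set.disjoint_singleton_left.2 h1.not_ge)))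

set_option linter.unusedSectionVars false in
theorem lt_finrank_np {m : ℕ} (hv : D.ltV m) {s : Euc k} (hs : s ≠ 0) :
    m < Module.finrank ℝ (D.np s) := by
  have h := Avg.lt_finrank_neg D hv (D.exists_neg_root (neg_ne_zero.2 hs))
  have h1 : {γ : Euc k | ⟪γ, -s⟫ < 0} = {γ | 0 < ⟪γ, s⟫} := by
    ext γ
    simp only [mem_ofPred_eq, inner_neg_right, neg_lt_zero]
  rwa [h1] at h

set_option linter.unusedSectionVars false in
/-- The Lie algebra is spanned by the centralisers of generic elements of the walls. -/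
theorem span_walls (σ : Euc k → Euc k) (hσ : ∀ β ∈ D.roots, ⟪β, σ β⟫ = 0) (s : Euc k) :
    D.g ≤ D.grS (wall s) ⊔ ⨆ β ∈ D.roots, D.grS (wall (σ β)) := by
  rw [← D.grS_univ]
  refine D.grS_le_of fun β _ hβ => ?_
  rcases hβ with rfl | hβ
  · exact (D.gr_le_grS (wall s).zero_mem).trans le_sup_left
  · refine (D.gr_le_grS (S := wall (σ β)) (hσ β hβ)).trans (le_sup_of_le_right ?_)
    exact le_iSup₂ (f := fun β (_ : β ∈ D.roots) => D.grS (wall (σ β))) β hβ

end Std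

end Pool.Agent.P.MP_d483fb_an.Z

end

end

section

/-! The parabolic count. -/

open scoped Matrix Matrix.Norms.Operator InnerProductSpace RealInnerProductSpace Topology
open NormedSpace Filter Set

noncomputable section

namespace Pool.Agent.P.MP_d483fb_an.Z

namespace Std

variable {G : Type} [Group G] [TopologicalSpace G] [IsTopologicalGroup G] [PreconnectedSpace G]
  {n k : ℕ} (D : Std G n k)

omit [PreconnectedSpace G] in
theorem u_le_of_mem {q : Submodule ℝ (Mat n)} (hq : IsSub q) {H : Euc k} (hn : D.np H ≤ q)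
    {β γ : Euc k} (hβ : ⟪β, H⟫ < 0) (hγ : γ ∈ cls β) {E : Mat n} (hE : E ∈ D.gr γ) (hEq : E ∈ q)
    (hE0 : E ≠ 0) : D.u β ≤ q := by
  have h0 : -β ≠ 0 := by
    rintro h
    rw [neg_eq_zero.1 h, inner_zero_left] at hβ
    exact lt_irrefl _ hβ
  have h1 : D.u (-β) ≤ q := by
    refine le_trans (D.grS_mono ?_) hn
    rintro _ ⟨c, hc, rfl⟩
    change 0 < ⟪c • -β, H⟫
    rw [real_inner_smul_left, inner_neg_left]
    exact mul_pos hc (neg_pos.2 hβ)
  have := D.rank_one hq h0 h1 (by rwa [neg_neg]) hE hEq hE0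
  rwa [neg_neg] at this

omit [PreconnectedSpace G] in
theorem par_count' {m : ℕ} (hv : D.ltV m) {q : Submodule ℝ (Mat n)} (hq : IsSub q)
    (hne : ¬D.g ≤ q) {H : Euc k} (hH : D.Reg H) (hn : D.np H ≤ q) :
    m < Module.finrank ℝ (D.grS {γ | ⟪γ, H⟫ < 0 ∧ ¬D.u γ ≤ q}) := by
  set T : Set (Euc k) := {γ | ⟪γ, H⟫ < 0 ∧ ¬D.u γ ≤ q} with hT
  have hgood : ∀ β ∈ D.roots, β ∉ T → D.gr β ≤ q := by
    intro β hβ hβT
    rcases lt_or_gt_of_ne (hH β hβ) with h | h
    · exact (D.gr_le_grS (self_mem_cls β)).trans (not_not.1 fun h' => hβT ⟨h, h'⟩)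
    · exact (D.gr_le_grS (S := {γ | 0 < ⟪γ, H⟫}) h).trans hn
  have hbr : ∀ β ∉ T, β = 0 ∨ β ∈ D.roots → ∀ γ ∉ T, γ = 0 ∨ γ ∈ D.roots →
      ∀ X ∈ D.gr β, ∀ Y ∈ D.gr γ, ⁅X, Y⁆ ∈ D.grS Tᶜ := by
    intro β hβ hβ' γ hγ hγ' X hX Y hY
    by_cases h0 : ⁅X, Y⁆ = 0
    · rw [h0]
      exact zero_mem _
    refine D.gr_le_grS (S := Tᶜ) ?_ (D.br_gr hX hY)
    rcases hβ' with rfl | hβ'
    · rwa [zero_add]
    rcases hγ' with rfl | hγ'
    · rwa [add_zero]
    exact fun h => h.2 (D.u_le_of_mem hq hn h.1 (self_mem_cls _) (D.br_gr hX hY)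
      (hq X (hgood β hβ' hβ hX) Y (hgood γ hγ' hγ hY)) h0)
  have hsub : ∀ X ∈ D.grS Tᶜ, ∀ Y ∈ D.grS Tᶜ, ⁅X, Y⁆ ∈ D.grS Tᶜ := by
    intro X hX Y hY
    refine D.grS_le_of (v := (D.grS Tᶜ).comap (LinearMap.mulRight ℝ Y - LinearMap.mulLeft ℝ Y))
      (fun β hβ hβ' X hX => ?_) hX
    exact D.grS_le_of (v := (D.grS Tᶜ).comap (LinearMap.mulLeft ℝ X - LinearMap.mulRight ℝ X))
      (fun γ hγ hγ' Y hY => hbr β hβ hβ' γ hγ hγ' X hX Y hY) hY
  obtain ⟨P, hP, -, hl⟩ := D.exists_normaliser (D.grS Tᶜ)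
  have hle : D.grS Tᶜ ≤ D.lie P := fun X hX => (hl X).2 ⟨hX.1, hsub X hX⟩
  have htop : P ≠ ⊤ := by
    rintro rfl
    refine hne (D.gen_all hq fun β hβ => hgood β hβ fun hβT => ?_)
    obtain ⟨E, hE, hE0⟩ := D.exists_ne_zero hβ
    have h0 : (0 : Euc k) ∈ Tᶜ := fun h => by
      have := h.1
      rw [inner_zero_left] at this
      exact lt_irrefl _ this
    have h1 := ((hl E).1 (by rw [D.lie_top]; exact hE.1)).2 _ (D.gr_le_grS h0 (D.dg_mem_gr H))
    have h2 : ⁅E, D.dg H⁆ = (-⟪β, H⟫) • E := by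
      rw [neg_smul, ← D.br_dg hE H, Ring.lie_def, Ring.lie_def, neg_sub]
    rw [h2, Submodule.smul_mem_iff _ (neg_ne_zero.2 (hH β hβ))] at h1
    refine hE0 (Matrix.ext fun i j => by_contra fun hij => ?_)
    have h3 : D.lam i - D.lam j = β := hE.2 i j hij
    exact h1.2 i j hij (h3 ▸ hβT)
  have h1 := hv P hP htop
  have h2 := Submodule.finrank_mono hle
  have h3 := D.finrank_grS_union (S := T) (T := Tᶜ) disjoint_compl_right
  rw [union_compl_self, D.grS_univ] at h3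
  omega

theorem par_count {m : ℕ} (hv : D.ltV m) {q : Submodule ℝ (Mat n)} (hq : IsSub q)
    (hne : ¬D.g ≤ q) {H : Euc k} (hH : D.Reg H) (hn : D.np H ≤ q) :
    m < Module.finrank ℝ (D.grS {γ | ⟪γ, H⟫ < 0 ∧ ¬D.u γ ≤ q}) :=
  D.par_count' hv hq hne hH hn

omit [PreconnectedSpace G] in
theorem finrank_le_card' {ι : Type} [Fintype ι] (w : ι → Euc k) {S : Set (Euc k)} (h0 : 0 ∉ S)
    (h : ∀ β ∈ D.roots, β ∈ S → Module.finrank ℝ (D.u β) ≤ Nat.card {i // w i ∈ cls β}) :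
    Module.finrank ℝ (D.grS S) ≤ Fintype.card ι := by
  classical
  let C : Finset (Set (Euc k)) := (D.roots.filter (· ∈ S)).image cls
  have h1 : D.grS S ≤ C.sup D.grS := by
    refine D.grS_le_of fun β hβ hβ' => ?_
    rcases hβ' with rfl | hβ'
    · exact absurd hβ h0
    · exact (D.gr_le_grS (self_mem_cls β)).trans
        (Finset.le_sup (Finset.mem_image_of_mem _ (Finset.mem_filter.2 ⟨hβ', hβ⟩)))
  have h2 : ∀ A : Finset (Set (Euc k)), Module.finrank ℝ (A.sup D.grS : Submodule ℝ (Mat n)) ≤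
      ∑ c ∈ A, Module.finrank ℝ (D.grS c) := by
    intro A
    induction A using Finset.induction_on with
    | empty => simp
    | insert c A hc ih =>
      rw [Finset.sup_insert, Finset.sum_insert hc]
      exact (Submodule.finrank_add_le_finrank_add_finrank _ _).trans (by omega)
  have h3 : ∑ c ∈ C, Module.finrank ℝ (D.grS c) ≤
      ∑ c ∈ C, (Finset.univ.filter fun i => w i ∈ c).card := by
    refine Finset.sum_le_sum fun c hc => ?_
    obtain ⟨β, hβ, rfl⟩ := Finset.mem_image.1 hc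
    have := h β (Finset.mem_filter.1 hβ).1 (Finset.mem_filter.1 hβ).2
    rwa [Nat.card_eq_fintype_card, Fintype.card_subtype] at this
  rw [← Finset.card_biUnion] at h3
  · exact (Submodule.finrank_mono h1).trans ((h2 C).trans (h3.trans (Finset.card_le_univ _)))
  · intro c hc c' hc' hne
    obtain ⟨β, -, rfl⟩ := Finset.mem_image.1 hc
    obtain ⟨β', -, rfl⟩ := Finset.mem_image.1 hc'
    refine Finset.disjoint_left.2 fun i hi hi' => hne ?_
    rw [← cls_eq (Finset.mem_filter.1 hi).2, cls_eq (Finset.mem_filter.1 hi').2]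

theorem finrank_le_card {ι : Type} [Fintype ι] (w : ι → Euc k) {S : Set (Euc k)} (h0 : 0 ∉ S)
    (h : ∀ β ∈ D.roots, β ∈ S → Module.finrank ℝ (D.u β) ≤ Nat.card {i // w i ∈ cls β}) :
    Module.finrank ℝ (D.grS S) ≤ Fintype.card ι :=
  D.finrank_le_card' w h0 h

theorem le_of_count {ι : Type} [Fintype ι] (w : ι → Euc k) (hv : D.ltV (Fintype.card ι))
    {q : Submodule ℝ (Mat n)} (hq : IsSub q) {H : Euc k} (hH : D.Reg H) (hn : D.np H ≤ q)
    (h : ∀ β ∈ D.roots, ⟪β, H⟫ < 0 → (∃ γ ∈ cls β, ∃ E ∈ D.gr γ, E ∈ q ∧ E ≠ 0) ∨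
      Module.finrank ℝ (D.u β) ≤ Nat.card {i // w i ∈ cls β}) : D.g ≤ q := by
  by_contra hne
  refine absurd (D.par_count hv hq hne hH hn) (not_lt.2 (D.finrank_le_card w (fun h0 => ?_)
    fun β hβ hβT => ?_))
  · have := h0.1
    rw [inner_zero_left] at this
    exact lt_irrefl _ this
  · rcases h β hβ hβT.1 with ⟨γ, hγ, E, hE, hEq, hE0⟩ | h1
    · exact absurd (D.u_le_of_mem hq hn hβT.1 hγ hE hEq hE0) hβT.2
    · exact h1

end Std

end Pool.Agent.P.MP_d483fb_an.Z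

end

end

section

/-!
Exponential decay of matrix coefficients of an isometric representation, deduced from the rate of
convergence of unipotent averages.
-/

open scoped RealInnerProductSpace
open Filter Topology Set

namespace Pool.Agent.P.MP_d483fb_an.Z.EM

open _root_.Pool.Agent.P.MP_d483fb_an.Z.ST

variable {G : Type*} [Group G] {H : Type*} [NormedAddCommGroup H] [InnerProductSpace ℝ H]

variable {sz dd : G → ℝ} {π : G →* (H →L[ℝ] H)}

lemma GLip.nonneg {M : ℝ} {v : H} (h : GLip dd π M v) : 0 ≤ M := (norm_nonneg v).trans h.1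

lemma GLip.smul {M : ℝ} {v : H} (h : GLip dd π M v) {c : ℝ} (hc : 0 ≤ c) :
    GLip dd π (c * M) (c • v) := by
  refine ⟨?_, fun g => ?_⟩
  · rw [norm_smul, Real.norm_of_nonneg hc]
    exact mul_le_mul_of_nonneg_left h.1 hc
  · rw [map_smul, ← smul_sub, norm_smul, Real.norm_of_nonneg hc, mul_assoc]
    exact mul_le_mul_of_nonneg_left (h.2 g) hc

lemma gLip_of_local (hπ : ∀ g v, ‖π g v‖ = ‖v‖) (h0 : ∀ g, 0 ≤ dd g) {L : ℝ} (hL : 0 ≤ L) {v : H}
    (h : ∀ g, dd g ≤ 1 → ‖π g v - v‖ ≤ L * dd g) : GLip dd π (2 * ‖v‖ + L) v := by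
  have hv := norm_nonneg v
  refine ⟨by linarith, fun g => ?_⟩
  have hg := h0 g
  rcases le_total (dd g) 1 with h1 | h1
  · have := h g h1
    nlinarith
  · have h2 := norm_sub_le (π g v) v
    rw [hπ] at h2
    nlinarith

lemma GLip.conj (hπ : ∀ g v, ‖π g v‖ = ‖v‖) {M c : ℝ} {v : H} (h : GLip dd π M v) (hc : 1 ≤ c)
    {k : G} (hk : ∀ g, dd (k⁻¹ * g * k) ≤ c * dd g) : GLip dd π (c * M) (π k v) := by
  have hM := h.nonneg
  refine ⟨?_, fun g => ?_⟩
  · rw [hπ]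
    nlinarith [h.1]
  · have e : π g (π k v) - π k v = π k (π (k⁻¹ * g * k) v - v) := by
      rw [map_sub, ← pi_mul, ← pi_mul]
      congr 3
      group
    rw [e, hπ]
    calc _ ≤ M * dd (k⁻¹ * g * k) := h.2 _
      _ ≤ M * (c * dd g) := mul_le_mul_of_nonneg_left (hk g) hM
      _ = _ := by ring

lemma hol_gLip : Hol dd π {v | GLip dd π 1 v} := by
  refine ⟨⟨1, fun v hv => hv.1⟩, fun q => q ^ (-1 : ℝ), ⟨1, one_pos, 1, by simp⟩, ?_⟩
  refine Eventually.of_forall fun q v hv g hg => ?_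
  have := hv.2 g
  simp only [Real.rpow_neg_one]
  linarith

variable [CompleteSpace H]

lemma GLip.prj (hπ : ∀ g v, ‖π g v‖ = ‖v‖) {N : Subgroup G} (hN : N.Normal) {M : ℝ} {v : H}
    (h : GLip dd π M v) : GLip dd π M (prj π N v) :=
  ⟨(norm_prj_le π N v).trans h.1, fun g => (norm_pi_prj_sub hπ hN g v).trans (h.2 g)⟩

variable [TopologicalSpace G]

lemma smul_e (t : ℝ) : t • (![1, 0, 0] : V3) = ![t, 0, 0] := by
  ext i
  fin_cases i <;> simp

lemma e1_inv (D : Data sz dd) (t : ℝ) : (D.e1 ![t, 0, 0])⁻¹ = D.e1 ![-t, 0, 0] := by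
  have h0 : D.e1 0 = 1 := by
    have h := D.u1.add 0 0
    rwa [add_zero, left_eq_mul] at h
  have h := D.u1.add ![t, 0, 0] ![-t, 0, 0]
  have e : (![t, 0, 0] : V3) + ![-t, 0, 0] = 0 := by
    ext i
    fin_cases i <;> simp
  rw [e, h0] at h
  exact inv_eq_of_mul_eq_one_right h.symm

/-- The limit of the averages is the projection. -/
lemma prj_avz (hπ : ∀ g v, ‖π g v‖ = ‖v‖) (hg : Grow sz π) (D : Data sz dd) {N : Subgroup G}
    (hz : ∀ t : ℝ, D.e1 ![t, 0, 0] ∈ N) {p : ℝ} (hp : 0 < p) (v : H) :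
    prj π N (D.avz hg p v) = prj π N v := by
  have hK : Convex ℝ {y : H | prj π N y = prj π N v} :=
    (convex_singleton (prj π N v)).is_linear_preimage (prj π N).toLinearMap.isLinear
  refine (hg.rep D.u1).av_mem hp hK (isClosed_eq (prj π N).continuous continuous_const) ?_
  intro t _
  change prj π N (π (D.e1 (t • ![1, 0, 0])) v) = _
  rw [smul_e]
  exact prj_pi_of_mem hπ (hz t) v

lemma rate_prj (hπ : ∀ g v, ‖π g v‖ = ‖v‖) (hg : Grow sz π) (D : Data sz dd) {N : Subgroup G}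
    (hz : ∀ t : ℝ, D.e1 ![t, 0, 0] ∈ N) {S : Set H} {P : H → H} {F : ℝ → ℝ} (hF : Sm F)
    (hP : ∀ᶠ p in atTop, ∀ v ∈ S, ‖D.avz hg p v - P v‖ ≤ F p) (hf : ∀ v ∈ S, P v ∈ fixS π N) :
    ∃ F, Sm F ∧ ∀ᶠ p in atTop, ∀ v ∈ S, ‖D.avz hg p v - prj π N v‖ ≤ F p := by
  obtain ⟨κ, hκ, C, hC⟩ := hF
  refine ⟨fun p => 2 * F p, ⟨κ, hκ, 2 * C, ?_⟩, ?_⟩
  · filter_upwards [hC] with q hq
    linarith
  · filter_upwards [hP, eventually_gt_atTop 0] with p hp hp0 v hv
    have h1 := hp v hv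
    have h2 : ‖prj π N v - P v‖ ≤ F p := by
      rw [← prj_avz hπ hg D hz hp0 v, ← prj_of_mem (hf v hv), ← map_sub]
      exact (norm_prj_le π N _).trans h1
    have e : D.avz hg p v - prj π N v = (D.avz hg p v - P v) - (prj π N v - P v) := by abel
    rw [e]
    exact (norm_sub_le _ _).trans (by linarith)

lemma inner_avz (hπ : ∀ g v, ‖π g v‖ = ‖v‖) (hg : Grow sz π) (D : Data sz dd) {Cz : ℝ}
    (hCz : 0 ≤ Cz) (lz : ∀ t, |t| ≤ 1 → dd (D.e1 ![t, 0, 0]) ≤ Cz * |t|) {a : G} {T : ℝ}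
    (hT : 0 ≤ T) (ha : ∀ t : ℝ, a⁻¹ * D.e1 ![t, 0, 0] * a = D.e1 ![Real.exp (-T) * t, 0, 0])
    {M : ℝ} {x : H} (hx : GLip dd π M x) {v : H} (hv : ‖v‖ ≤ 1) :
    |⟪π a x, v - D.avz hg (Real.exp (T / 2)) v⟫| ≤ M * (Cz * Real.exp (-(T / 2))) := by
  have hM := hx.nonneg
  set c := M * (Cz * Real.exp (-(T / 2))) with hc
  have hK : Convex ℝ {y : H | |⟪π a x, v - y⟫| ≤ c} := by
    have e : {y : H | |⟪π a x, v - y⟫| ≤ c} =
        (innerSL ℝ (π a x)) ⁻¹' Icc (⟪π a x, v⟫ - c) (⟪π a x, v⟫ + c) := by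
      ext y
      simp only [mem_ofPred_eq, inner_sub_right, abs_le, mem_preimage, innerSL_apply_apply,
        mem_Icc]
      constructor <;> rintro ⟨h1, h2⟩ <;> constructor <;> linarith
    rw [e]
    exact (convex_Icc _ _).is_linear_preimage (innerSL ℝ (π a x)).toLinearMap.isLinear
  have hcl : IsClosed {y : H | |⟪π a x, v - y⟫| ≤ c} :=
    isClosed_le (by fun_prop) continuous_const
  refine (hg.rep D.u1).av_mem (Real.exp_pos _) hK hcl ?_
  intro t ht
  change |⟪π a x, v - π (D.e1 (t • ![1, 0, 0])) v⟫| ≤ c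
  rw [smul_e]
  set u := D.e1 ![Real.exp (-T) * -t, 0, 0] with hu
  have e1 : ⟪π a x, π (D.e1 ![t, 0, 0]) v⟫ = ⟪π a (π u x), v⟫ := by
    rw [real_inner_comm, inner_pi_left hπ, real_inner_comm, e1_inv, ← pi_mul, ← pi_mul, hu, ← ha]
    congr 3
    group
  have hs : |Real.exp (-T) * -t| ≤ Real.exp (-(T / 2)) := by
    rw [abs_mul, abs_neg, abs_of_nonneg ht.1, abs_of_pos (Real.exp_pos _)]
    calc _ ≤ Real.exp (-T) * Real.exp (T / 2) :=
          mul_le_mul_of_nonneg_left ht.2 (Real.exp_pos _).le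
      _ = _ := by rw [← Real.exp_add]; congr 1; ring
  have hs1 : Real.exp (-(T / 2)) ≤ 1 := Real.exp_le_one_iff.2 (by linarith)
  have h1 : dd u ≤ Cz * Real.exp (-(T / 2)) :=
    (lz _ (hs.trans hs1)).trans (mul_le_mul_of_nonneg_left hs hCz)
  have h2 : ‖x - π u x‖ ≤ c := by
    rw [norm_sub_rev]
    exact (hx.2 u).trans (mul_le_mul_of_nonneg_left h1 hM)
  rw [inner_sub_right, e1, ← inner_sub_left, ← map_sub]
  calc _ ≤ ‖π a (x - π u x)‖ * ‖v‖ := abs_real_inner_le_norm _ _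
    _ ≤ c * 1 := by
        rw [hπ]
        exact mul_le_mul h2 hv (norm_nonneg _) ((norm_nonneg _).trans h2)
    _ = c := mul_one c

/-- Decay for one factor. -/
lemma em_one (hπ : ∀ g v, ‖π g v‖ = ‖v‖) (hg : Grow sz π) (D : Data sz dd) (N : Subgroup G)
    (lz : LipAt dd fun t => D.e1 ![t, 0, 0])
    (hP : ∃ F, Sm F ∧ ∀ᶠ p in atTop, ∀ v ∈ {v | GLip dd π 1 v},
      ‖D.avz hg p v - prj π N v‖ ≤ F p) :
    ∃ κ : ℝ, 0 < κ ∧ ∃ C : ℝ, 0 ≤ C ∧ ∀ (a : G) (T : ℝ),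
      (∀ t : ℝ, a⁻¹ * D.e1 ![t, 0, 0] * a = D.e1 ![Real.exp (-T) * t, 0, 0]) →
      ∀ (M M' : ℝ) (x v : H), GLip dd π M x → GLip dd π M' v →
        |⟪π a x, v - prj π N v⟫| ≤ C * M * M' * Real.exp (-(κ * T)) := by
  obtain ⟨F, ⟨κ, hκ, C, hC⟩, hP⟩ := hP
  obtain ⟨Cz, hCz⟩ := lz
  obtain ⟨p0, hp0⟩ := eventually_atTop.1 (hC.and hP)
  set κ' := min κ 1 / 2 with hκ'
  have hm : 0 < min κ 1 := lt_min hκ one_pos
  have hκ'0 : 0 < κ' := by positivity
  set T0 := 2 * |p0| with hT0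
  have key : ∀ (a : G) (T : ℝ),
      (∀ t : ℝ, a⁻¹ * D.e1 ![t, 0, 0] * a = D.e1 ![Real.exp (-T) * t, 0, 0]) →
      ∀ (M : ℝ) (x v : H), GLip dd π M x → GLip dd π 1 v →
        |⟪π a x, v - prj π N v⟫| ≤
          (|Cz| + |C| + 2 * Real.exp (κ' * T0)) * M * Real.exp (-(κ' * T)) := by
    intro a T ha M x v hx hv
    have hM := hx.nonneg
    have hE := Real.exp_pos (-(κ' * T))
    have hE0 := Real.exp_pos (κ' * T0)
    rcases le_total T T0 with h | h
    · have h1 : ‖v - prj π N v‖ ≤ 2 := by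
        have := norm_sub_le v (prj π N v)
        linarith [norm_prj_le π N v, hv.1]
      have h2 : 1 ≤ Real.exp (κ' * T0) * Real.exp (-(κ' * T)) := by
        rw [← Real.exp_add]
        exact Real.one_le_exp (by nlinarith)
      calc _ ≤ ‖π a x‖ * ‖v - prj π N v‖ := abs_real_inner_le_norm _ _
        _ ≤ M * 2 := by
            rw [hπ]
            exact mul_le_mul hx.1 h1 (norm_nonneg _) hM
        _ ≤ M * (2 * (Real.exp (κ' * T0) * Real.exp (-(κ' * T)))) := by gcongr; linarith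
        _ = 2 * Real.exp (κ' * T0) * M * Real.exp (-(κ' * T)) := by ring
        _ ≤ _ := by gcongr; linarith [abs_nonneg Cz, abs_nonneg C]
    · have hT : 0 ≤ T := le_trans (by positivity) h
      have hp : p0 ≤ Real.exp (T / 2) := by
        have := Real.add_one_le_exp (T / 2)
        linarith [le_abs_self p0]
      obtain ⟨h1, h2⟩ := hp0 _ hp
      have h3 := inner_avz hπ hg D (abs_nonneg Cz) (fun t ht => (hCz t ht).trans
        (mul_le_mul_of_nonneg_right (le_abs_self Cz) (abs_nonneg t))) hT ha hx hv.1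
      have h4 : Real.exp (-(T / 2)) ≤ Real.exp (-(κ' * T)) := by
        apply Real.exp_le_exp.2
        have : κ' ≤ 1 / 2 := by rw [hκ']; linarith [min_le_right κ 1]
        nlinarith
      have h5 : Real.exp (T / 2) ^ (-κ) ≤ Real.exp (-(κ' * T)) := by
        rw [← Real.exp_mul]
        apply Real.exp_le_exp.2
        have : κ' ≤ κ / 2 := by rw [hκ']; linarith [min_le_left κ 1]
        nlinarith
      have h6 : ‖D.avz hg (Real.exp (T / 2)) v - prj π N v‖ ≤ |C| * Real.exp (-(κ' * T)) :=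
        ((h2 v hv).trans h1).trans (mul_le_mul (le_abs_self C) h5 (by positivity) (abs_nonneg C))
      have h7 : |⟪π a x, D.avz hg (Real.exp (T / 2)) v - prj π N v⟫| ≤
          M * (|C| * Real.exp (-(κ' * T))) := by
        refine (abs_real_inner_le_norm _ _).trans ?_
        rw [hπ]
        exact mul_le_mul hx.1 h6 (norm_nonneg _) hM
      have e : ⟪π a x, v - prj π N v⟫ = ⟪π a x, v - D.avz hg (Real.exp (T / 2)) v⟫ +
          ⟪π a x, D.avz hg (Real.exp (T / 2)) v - prj π N v⟫ := by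
        simp only [inner_sub_right]; ring
      rw [e]
      calc _ ≤ M * (|Cz| * Real.exp (-(T / 2))) + M * (|C| * Real.exp (-(κ' * T))) :=
            (abs_add_le _ _).trans (add_le_add h3 h7)
        _ ≤ M * (|Cz| * Real.exp (-(κ' * T))) + M * (|C| * Real.exp (-(κ' * T))) := by gcongr
        _ = (|Cz| + |C|) * M * Real.exp (-(κ' * T)) := by ring
        _ ≤ _ := mul_le_mul_of_nonneg_right (mul_le_mul_of_nonneg_right (by linarith) hM) hE.le
  refine ⟨κ', hκ'0, |Cz| + |C| + 2 * Real.exp (κ' * T0), by positivity, ?_⟩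
  intro a T ha M M' x v hx hv
  rcases hv.nonneg.eq_or_lt with h0 | h0
  · have : v = 0 := norm_le_zero_iff.1 (h0 ▸ hv.1)
    subst this
    simp [← h0]
  · have h1 := hv.smul (inv_nonneg.2 h0.le)
    rw [inv_mul_cancel₀ h0.ne'] at h1
    have h2 := key a T ha M x _ hx h1
    rw [map_smul, ← smul_sub, inner_smul_right, abs_mul, abs_of_pos (inv_pos.2 h0),
      inv_mul_le_iff₀ h0] at h2
    linarith

end Pool.Agent.P.MP_d483fb_an.Z.EM


end

section

/-!
Exponential decay of matrix coefficients for finitely many factors.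
-/

open scoped RealInnerProductSpace
open Filter Topology Set

namespace Pool.Agent.P.MP_d483fb_an.Z.EM

open _root_.Pool.Agent.P.MP_d483fb_an.Z.ST

variable {G : Type*} [Group G] [TopologicalSpace G] [IsTopologicalGroup G] {H : Type*}
  [NormedAddCommGroup H] [InnerProductSpace ℝ H] [CompleteSpace H] {sz dd : G → ℝ}
  {π : G →* (H →L[ℝ] H)}

omit [IsTopologicalGroup G] [CompleteSpace H] in
lemma grow_of_iso (hs : Size sz dd) (hπ : ∀ g v, ‖π g v‖ = ‖v‖)
    (hc : ∀ v, Continuous fun g => π g v) : Grow sz π := by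
  refine ⟨hc, fun ε hε => ⟨1, fun g => ?_⟩⟩
  have h1 : ‖π g‖ ≤ 1 := ContinuousLinearMap.opNorm_le_bound _ zero_le_one fun v => by
    rw [hπ, one_mul]
  rw [one_mul]
  exact h1.trans (Real.one_le_rpow (hs.one_le g) hε.le)

omit [IsTopologicalGroup G] in
theorem mixH_of_data (hs : Size sz dd) (hπ : ∀ g v, ‖π g v‖ = ‖v‖)
    (hc : ∀ v, Continuous fun g => π g v) {ι : Type*} [Finite ι] (D : ι → Data sz dd)
    (N : ι → Subgroup G) (hn : ∀ i, (N i).Normal)
    (hN : ∀ i (S : Subgroup G), IsClosed (S : Set G) →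
      (∀ g, Contr dd (D i).a g ∨ Contr dd (D i).a⁻¹ g → g ∈ S) → N i ≤ S)
    (hz : ∀ i (t : ℝ), (D i).e1 ![t, 0, 0] ∈ N i)
    (lz : ∀ i, LipAt dd fun t => (D i).e1 ![t, 0, 0]) {Far : G → ℝ → Prop} {c e : ℝ} (hc1 : 1 ≤ c)
    (he : 0 < e)
    (hfar : ∀ g t, Far g t → ∃ k a k' : G, g = k * a * k' ∧
      (∀ x, dd (k * x * k⁻¹) ≤ c * dd x) ∧ (∀ x, dd (k'⁻¹ * x * k') ≤ c * dd x) ∧
      ∃ J : Set ι, (∀ S : Subgroup G, IsClosed (S : Set G) → (∀ i ∈ J, N i ≤ S) → S = ⊤) ∧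
        ∀ i ∈ J, ∃ T, e * t ≤ T ∧ ∀ u : ℝ,
          a⁻¹ * (D i).e1 ![u, 0, 0] * a = (D i).e1 ![Real.exp (-T) * u, 0, 0]) :
    MixH dd Far π := by
  classical
  have := Fintype.ofFinite ι
  have hg := grow_of_iso hs hπ hc
  have h1 : ∀ i, _ := fun i => em_one hπ hg (D i) (N i) (lz i) (by
    obtain ⟨P, ⟨F, hF, hP⟩, -, hf⟩ := one_factor hs hg (D i) (hol_gLip (dd := dd) (π := π))
    exact rate_prj hπ hg (D i) (hz i) hF hP fun v hv g hgN =>
      hN i (stabV π (P v)) (isClosed_stabV hc _) (fun g h => hf v hv g h) hgN)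
  choose κ hκ C hC h using h1
  obtain ⟨κ0, hκ0, hκ1⟩ : ∃ κ0 : ℝ, 0 < κ0 ∧ ∀ i, κ0 ≤ κ i := by
    rcases isEmpty_or_nonempty ι with hι | hι
    · exact ⟨1, one_pos, fun i => hι.elim i⟩
    · obtain ⟨i, hi⟩ := Finite.exists_min κ
      exact ⟨κ i, hκ i, hi⟩
  set C0 := 2 + ∑ i, C i with hC0
  have hs0 : 0 ≤ ∑ i, C i := Finset.sum_nonneg fun i _ => hC i
  have hCi : ∀ i, C i ≤ C0 := fun i => by
    have := Finset.single_le_sum (fun i _ => hC i) (Finset.mem_univ i)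
    linarith
  have hC2 : 2 ≤ C0 := by linarith
  refine ⟨κ0 * e, by positivity, Fintype.card ι * (C0 * c * c), by positivity, ?_⟩
  intro g t hF M M' x v hx hv
  obtain ⟨k, a, k', rfl, hk, hk', J, hJ, hT⟩ := hfar g t hF
  have hM := hx.nonneg
  have hM' := hv.nonneg
  have hx' := hx.conj hπ hc1 hk'
  have hv' : GLip dd π (c * M') (π k⁻¹ v) := hv.conj hπ hc1 (by simpa using hk)
  have hE := Real.exp_pos (-(κ0 * e * t))
  have key := telescope_top hπ hc N hn (Finset.univ.filter (· ∈ J))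
    (fun S hS h => hJ S hS fun i hi => h i (by simpa using hi)) (GLip dd π (c * M'))
    (fun i v hv => hv.prj hπ (hn i)) (π a (π k' x))
    (C0 * (c * M) * (c * M') * Real.exp (-(κ0 * e * t))) (by
      intro i hi w hw
      obtain ⟨T, hT1, hT2⟩ := hT i (by simpa using hi)
      rcases le_total 0 t with ht | ht
      · refine (h i a T hT2 _ _ _ _ hx' hw).trans ?_
        have : Real.exp (-(κ i * T)) ≤ Real.exp (-(κ0 * e * t)) := by
          apply Real.exp_le_exp.2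
          have h3 : 0 ≤ e * t := by positivity
          have := mul_le_mul (hκ1 i) hT1 h3 (hκ i).le
          linarith
        have := hCi i
        gcongr
      · have h2 : ‖w - prj π (N i) w‖ ≤ 2 * (c * M') := by
          have := norm_sub_le w (prj π (N i) w)
          linarith [norm_prj_le π (N i) w, hw.1]
        have h3 : 1 ≤ Real.exp (-(κ0 * e * t)) := by
          apply Real.one_le_exp
          have : 0 ≤ κ0 * e := by positivity
          nlinarith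
        calc _ ≤ ‖π a (π k' x)‖ * ‖w - prj π (N i) w‖ := abs_real_inner_le_norm _ _
          _ ≤ (c * M) * (2 * (c * M')) := by
              rw [hπ]
              exact mul_le_mul hx'.1 h2 (norm_nonneg _) (by positivity)
          _ = 2 * (c * M) * (c * M') * 1 := by ring
          _ ≤ _ := by gcongr) (π k⁻¹ v) hv'
  have e1 : ⟪π (k * a * k') x, v⟫ - ⟪prj π ⊤ x, prj π ⊤ v⟫ =
      ⟪π a (π k' x), π k⁻¹ v - prj π ⊤ (π k⁻¹ v)⟫ := by
    rw [inner_sub_right, prj_pi_of_mem hπ (Subgroup.mem_top _), ← pi_mul π a k',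
      inner_pi_prj_top hπ, mul_assoc, pi_mul π k, inner_pi_left hπ k]
  rw [e1]
  refine key.trans ?_
  have hcard : ((Finset.univ.filter (· ∈ J)).card : ℝ) ≤ Fintype.card ι := by
    exact_mod_cast Finset.card_le_univ _
  calc _ ≤ Fintype.card ι * (C0 * (c * M) * (c * M') * Real.exp (-(κ0 * e * t))) := by gcongr
    _ = _ := by ring

end Pool.Agent.P.MP_d483fb_an.Z.EM


end

section

/-!
Existence of a gauge: the infimum of the lengths of products of exponentials.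
-/

open scoped Matrix Matrix.Norms.Operator Topology
open Filter Set

noncomputable section

namespace Pool.Agent.P.MP_d483fb_an.Z.EM

variable {G : Type} [Group G] [TopologicalSpace G] {n : ℕ}

/-- `g` is a product of exponentials of total length `r`. -/
inductive Pth (D : ExpData G n) : G → ℝ → Prop
  | nil : Pth D 1 0
  | cons {X : Mat n} {g : G} {r : ℝ} : X ∈ D.g → Pth D g r → Pth D (D.ex X * g) (‖X‖ + r)

variable {D : ExpData G n}

theorem Pth.nonneg {g : G} {r : ℝ} (h : Pth D g r) : 0 ≤ r := by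
  induction h with
  | nil => exact le_rfl
  | cons _ _ ih => positivity

theorem Pth.single {X : Mat n} (hX : X ∈ D.g) : Pth D (D.ex X) ‖X‖ := by
  simpa using Pth.cons hX Pth.nil

theorem Pth.mul {g h : G} {r s : ℝ} (hg : Pth D g r) (hh : Pth D h s) : Pth D (g * h) (r + s) := by
  induction hg with
  | nil => simpa using hh
  | cons hX _ ih => simpa only [mul_assoc, add_assoc] using Pth.cons hX ih

theorem norm_one_le_one : ‖(1 : Mat n)‖ ≤ 1 := by
  rw [← Matrix.diagonal_one, Matrix.linfty_opNorm_diagonal]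
  exact (pi_norm_le_iff_of_nonneg zero_le_one).2 fun _ => by simp

variable [IsTopologicalGroup G]

theorem Pth.inv {g : G} {r : ℝ} (h : Pth D g r) : Pth D g⁻¹ r := by
  induction h with
  | nil => simpa using Pth.nil
  | @cons X g r hX _ ih =>
    have := ih.mul (Pth.single (D.g.neg_mem hX))
    rwa [D.ex_neg hX, ← mul_inv_rev, norm_neg, add_comm] at this

theorem Pth.conj {g : G} {r : ℝ} (h : Pth D g r) (x : G) :
    ∃ r', r' ≤ ‖D.ρ x‖ * ‖D.ρ x⁻¹‖ * r ∧ Pth D (x * g * x⁻¹) r' := by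
  induction h with
  | nil => exact ⟨0, by simp, by simpa using Pth.nil⟩
  | @cons X g r hX _ ih =>
    obtain ⟨r', h1, h2⟩ := ih
    refine ⟨‖D.Ad x X‖ + r', ?_, ?_⟩
    · have := D.norm_Ad_le x X
      linarith
    · have := Pth.cons (D.Ad_mem x hX) h2
      rw [← D.conj_ex x hX] at this
      convert this using 1
      group

theorem exists_pth [PreconnectedSpace G] (g : G) : ∃ r, Pth D g r :=
  D.ex_induction (p := fun g => ∃ r, Pth D g r) one_pos ⟨0, .nil⟩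
    (fun _ hX _ _ ⟨_, h⟩ => ⟨_, .cons hX h⟩) g

omit [IsTopologicalGroup G] in
theorem exists_ex_mem {W : Set G} (hW : W ∈ 𝓝 (1 : G)) :
    ∃ δ > 0, ∀ X ∈ D.g, ‖X‖ ≤ δ → D.ex X ∈ W := by
  rw [← D.ex_nhds, mem_map] at hW
  obtain ⟨ε, hε, h⟩ := (Metric.mem_nhdsWithin_iff (α := Mat n)).1 hW
  refine ⟨ε / 2, by positivity, fun X hX h1 => h ⟨?_, hX⟩⟩
  rw [mem_ball_zero_iff]
  linarith

theorem pth_small : ∃ δ > 0, ∀ g s, Pth D g s → s ≤ δ →
    ‖D.ρ g - 1‖ ≤ 4 * s ∧ ∃ Y ∈ D.g, ‖Y‖ ≤ 8 * s ∧ D.ex Y = g := by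
  have h1 := D.norm_lg_le.and D.ex_lg
  obtain ⟨V, hV, hVV⟩ := exists_nhds_one_split h1
  obtain ⟨δ1, hδ1, h2⟩ := exists_ex_mem (D := D) (inter_mem hV h1)
  obtain ⟨δ2, hδ2, h3⟩ := (Metric.mem_nhdsWithin_iff (α := Mat n)).1 D.lg_ex
  refine ⟨min (min (δ1 / 8) (δ2 / 2)) (1 / 4), by positivity, fun g s h => ?_⟩
  induction h with
  | nil => exact fun _ => ⟨by simp, 0, D.g.zero_mem, by simp, D.ex_zero⟩
  | @cons X g r hX hg ih =>
    intro hs
    have hr := hg.nonneg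
    have hXn := norm_nonneg X
    have b1 : ‖X‖ + r ≤ δ1 / 8 := hs.trans ((min_le_left _ _).trans (min_le_left _ _))
    have b2 : ‖X‖ + r ≤ δ2 / 2 := hs.trans ((min_le_left _ _).trans (min_le_right _ _))
    have b3 : ‖X‖ + r ≤ 1 / 4 := hs.trans (min_le_right _ _)
    obtain ⟨i1, Y, hY, i2, rfl⟩ := ih (le_trans (by linarith) hs)
    have c1 := h2 X hX (by linarith)
    have c2 := h2 Y hY (by linarith)
    have c3 : D.lg (D.ex X) = X := h3 ⟨by rw [mem_ball_zero_iff]; linarith, hX⟩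
    have c4 : ‖D.ρ (D.ex X) - 1‖ ≤ 2 * ‖X‖ := by
      have := c1.2.1.2
      rwa [c3] at this
    have c5 : ‖D.ρ (D.ex Y)‖ ≤ 2 := by
      have := norm_add_le (D.ρ (D.ex Y) - 1) 1
      rw [sub_add_cancel] at this
      linarith [norm_one_le_one (n := n)]
    have c6 : ‖D.ρ (D.ex X * D.ex Y) - 1‖ ≤ 4 * (‖X‖ + r) := by
      have e : D.ρ (D.ex X * D.ex Y) - 1 =
          (D.ρ (D.ex X) - 1) * D.ρ (D.ex Y) + (D.ρ (D.ex Y) - 1) := by
        rw [map_mul]; noncomm_ring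
      rw [e]
      refine (norm_add_le _ _).trans ?_
      have := (norm_mul_le (D.ρ (D.ex X) - 1) (D.ρ (D.ex Y))).trans
        (mul_le_mul c4 c5 (norm_nonneg _) (by positivity))
      linarith
    have c7 := hVV _ c1.1 _ c2.1
    exact ⟨c6, _, c7.2.1, by linarith [c7.1.1], c7.2.2⟩

/-- The infimum of the lengths. -/
def len0 (D : ExpData G n) (g : G) : ℝ := sInf {r | Pth D g r}

omit [IsTopologicalGroup G] in
theorem len0_le {g : G} {r : ℝ} (h : Pth D g r) : len0 D g ≤ r :=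
  csInf_le ⟨0, fun _ h => h.nonneg⟩ h

omit [IsTopologicalGroup G] in
theorem len0_nonneg (g : G) : 0 ≤ len0 D g := Real.sInf_nonneg fun _ h => h.nonneg

variable [PreconnectedSpace G]

theorem le_len0 {g : G} {c : ℝ} (h : ∀ r, Pth D g r → c ≤ r) : c ≤ len0 D g :=
  le_csInf (exists_pth g) h

theorem exists_pth_lt {g : G} {c : ℝ} (h : len0 D g < c) : ∃ r, Pth D g r ∧ r < c :=
  exists_lt_of_csInf_lt (exists_pth g) h

theorem len0_mul (g h : G) : len0 D (g * h) ≤ len0 D g + len0 D h := by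
  have h1 : ∀ s, Pth D h s → len0 D (g * h) - len0 D g ≤ s := fun s hs => by
    have : len0 D (g * h) - s ≤ len0 D g := le_len0 fun r hr => by
      linarith [len0_le (hr.mul hs)]
    linarith
  linarith [le_len0 h1]

theorem len0_inv (g : G) : len0 D g⁻¹ = len0 D g :=
  le_antisymm (le_len0 fun _ h => len0_le h.inv)
    (le_len0 fun _ h => len0_le (by simpa using h.inv))

theorem len0_conj (g x : G) : len0 D (x * g * x⁻¹) ≤ ‖D.ρ x‖ * ‖D.ρ x⁻¹‖ * len0 D g := by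
  set c := ‖D.ρ x‖ * ‖D.ρ x⁻¹‖
  have hc : 0 ≤ c := by positivity
  have h : ∀ r, Pth D g r → len0 D (x * g * x⁻¹) ≤ c * r := fun r hr => by
    obtain ⟨r', h1, h2⟩ := hr.conj x
    exact (len0_le h2).trans h1
  rcases hc.eq_or_lt with h0 | h0
  · obtain ⟨r, hr⟩ := exists_pth (D := D) g
    have := h r hr
    rw [← h0] at this ⊢
    simpa using this
  · rw [← div_le_iff₀' h0]
    exact le_len0 fun r hr => by rw [div_le_iff₀' h0]; exact h r hr

omit [IsTopologicalGroup G] [PreconnectedSpace G] in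
theorem len0_le_rho : ∀ᶠ g in 𝓝 (1 : G), len0 D g ≤ 2 * ‖D.ρ g - 1‖ := by
  filter_upwards [D.norm_lg_le, D.ex_lg] with g h1 h2
  have := len0_le (Pth.single h2.1)
  rw [h2.2] at this
  exact this.trans h1.1

theorem len0_cont : Continuous (len0 D) := by
  have h0 : Tendsto (len0 D) (𝓝 1) (𝓝 0) := by
    refine squeeze_zero' (Eventually.of_forall len0_nonneg) len0_le_rho ?_
    have : Continuous fun g => 2 * ‖D.ρ g - 1‖ := by
      have := D.cont
      fun_prop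
    simpa using this.tendsto 1
  refine continuous_iff_continuousAt.2 fun h => ?_
  have h1 : Tendsto (fun g => len0 D (h⁻¹ * g)) (𝓝 h) (𝓝 0) := by
    refine h0.comp ?_
    have : Continuous fun g => h⁻¹ * g := by fun_prop
    simpa using this.tendsto h
  rw [ContinuousAt, tendsto_iff_norm_sub_tendsto_zero]
  refine squeeze_zero (fun _ => norm_nonneg _) (fun g => ?_) h1
  have a1 := len0_mul (D := D) h (h⁻¹ * g)
  have a2 := len0_mul (D := D) g (h⁻¹ * g)⁻¹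
  rw [mul_inv_cancel_left] at a1
  rw [len0_inv, mul_inv_rev, inv_inv, mul_inv_cancel_left] at a2
  rw [Real.norm_eq_abs, abs_le]
  constructor <;> linarith

theorem exists_gauge (D : ExpData G n) : Nonempty (Gauge D) := by
  obtain ⟨δ, hδ, hs⟩ := pth_small (D := D)
  have hc : 0 < 4 / δ := by positivity
  refine ⟨⟨fun g => 4 / δ * len0 D g, 8 / δ, by positivity, fun g => ?_, ?_, fun g h => ?_,
    fun g => ?_, fun X hX => ?_, fun g h => ?_, continuous_const.mul len0_cont, ?_,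
    fun W hW => ?_, ?_⟩⟩
  · exact mul_nonneg hc.le (len0_nonneg g)
  · rw [le_antisymm (len0_le Pth.nil) (len0_nonneg 1), mul_zero]
  · rw [← mul_add]
    exact mul_le_mul_of_nonneg_left (len0_mul g h) hc.le
  · rw [len0_inv]
  · refine mul_le_mul ?_ (len0_le (Pth.single hX)) (len0_nonneg _) (by positivity)
    gcongr; norm_num
  · have := len0_conj (D := D) g h⁻¹
    rw [inv_inv] at this
    calc _ ≤ 4 / δ * (‖D.ρ h⁻¹‖ * ‖D.ρ h‖ * len0 D g) := mul_le_mul_of_nonneg_left this hc.le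
      _ = _ := by ring
  · refine (D.ex_ball_compact (8 * δ)).of_isClosed_subset
      (isClosed_le (continuous_const.mul len0_cont) continuous_const) fun g hg => ?_
    have h1 : len0 D g < δ := by
      have : 4 / δ * len0 D g ≤ 2 := hg
      rw [div_mul_eq_mul_div, div_le_iff₀ hδ] at this
      linarith
    obtain ⟨r, hr, h2⟩ := exists_pth_lt h1
    obtain ⟨-, Y, hY, h3, h4⟩ := hs g r hr h2.le
    exact ⟨Y, ⟨hY, by linarith⟩, h4⟩
  · obtain ⟨ε, hε, hW⟩ := exists_ex_mem (D := D) hW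
    have hm : 0 < min δ (ε / 8) := by positivity
    refine ⟨4 / δ * (min δ (ε / 8) / 2), by positivity, fun g hg => ?_⟩
    have h1 : len0 D g < min δ (ε / 8) := by
      have : len0 D g ≤ min δ (ε / 8) / 2 := le_of_mul_le_mul_left hg hc
      linarith
    obtain ⟨r, hr, h2⟩ := exists_pth_lt h1
    obtain ⟨-, Y, hY, h3, rfl⟩ := hs g r hr (h2.le.trans (min_le_left _ _))
    exact hW Y hY (by linarith [min_le_right δ (ε / 8)])
  · filter_upwards [len0_le_rho (D := D)] with g hg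
    calc _ ≤ 4 / δ * (2 * ‖D.ρ g - 1‖) := mul_le_mul_of_nonneg_left hg hc.le
      _ = _ := by ring

end Pool.Agent.P.MP_d483fb_an.Z.EM

end

end

section

/-!
Longest roots, their bracket data, and generation of the simple factors.
-/

open scoped Matrix Matrix.Norms.Operator InnerProductSpace RealInnerProductSpace Topology
open Filter Set NormedSpace

attribute [local instance 100] LieRing.ofAssociativeRing

noncomputable section

namespace Pool.Agent.P.MP_d483fb_an.Z.EM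

open _root_.Pool.Agent.P.MP_d483fb_an.Z.ST _root_.Pool.Agent.P.MP_d483fb_an.Z.Std

variable {G : Type} [Group G] [TopologicalSpace G] {n k : ℕ} {D : Std G n k} {sz : G → ℝ}

/-- A root of maximal length in its simple factor. -/
def Long (D : Std G n k) (b : Euc k) : Prop :=
  b ∈ D.roots ∧ ∀ δ ∈ D.roots, D.Conn b δ → ‖δ‖ ≤ ‖b‖

theorem conn_step {β γ : Euc k} (hβ : β ∈ D.roots) (hγ : γ ∈ D.roots) (h : ⟪β, γ⟫ ≠ 0) :
    D.Conn β γ := Relation.ReflTransGen.single ⟨hβ, hγ, h⟩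

theorem Long.of_conn {b b' : Euc k} (hb : Long D b) (h : D.Conn b b') (hb' : b' ∈ D.roots)
    (hn : ‖b'‖ = ‖b‖) : Long D b' :=
  ⟨hb', fun δ hδ hc => hn ▸ hb.2 δ hδ (h.trans hc)⟩

theorem exists_long {γ : Euc k} (hγ : γ ∈ D.roots) : ∃ b, Long D b ∧ D.Conn γ b := by
  classical
  obtain ⟨b, hb, hm⟩ := (D.roots.filter fun δ => D.Conn γ δ).exists_max_image (fun δ => ‖δ‖)
    ⟨γ, Finset.mem_filter.2 ⟨hγ, Relation.ReflTransGen.refl⟩⟩
  obtain ⟨h1, h2⟩ := Finset.mem_filter.1 hb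
  exact ⟨b, ⟨h1, fun δ hδ hc => hm δ (Finset.mem_filter.2 ⟨hδ, h2.trans hc⟩)⟩, h2⟩

theorem inner_refl_left (β b s : Euc k) :
    ⟪refl β b, s⟫ = ⟪b, s⟫ - 2 * ⟪β, b⟫ / ⟪β, β⟫ * ⟪β, s⟫ := by
  unfold Std.refl
  rw [inner_sub_left, real_inner_smul_left]

variable [IsTopologicalGroup G]

theorem Long.refl {b β : Euc k} (hb : Long D b) (hβ : β ∈ D.roots) (h : ⟪β, b⟫ ≠ 0) :
    Long D (refl β b) ∧ D.Conn b (refl β b) := by
  have h0 : ⟪β, β⟫ ≠ 0 := inner_self_ne_zero.2 (D.root_ne_zero hβ)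
  have h1 := D.refl_mem_roots hβ hb.1
  have h2 : D.Conn b (Std.refl β b) := by
    refine (conn_step hb.1 hβ (by rwa [real_inner_comm])).trans (conn_step hβ h1 ?_)
    rw [real_inner_comm, inner_refl_left, div_mul_cancel₀ _ h0, real_inner_comm β b]
    intro h3
    exact h (by linarith)
  exact ⟨hb.of_conn h2 h1 (norm_refl β b), h2⟩

theorem exists_long_inner {b β : Euc k} (hb : Long D b) (h : D.Conn b β) :
    ∃ b', Long D b' ∧ D.Conn b b' ∧ ⟪β, b'⟫ ≠ 0 := by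
  induction h with
  | refl => exact ⟨b, hb, .refl, inner_self_ne_zero.2 (D.root_ne_zero hb.1)⟩
  | @tail x y _ hxy ih =>
    obtain ⟨b', h1, h2, h3⟩ := ih
    by_cases h4 : ⟪y, b'⟫ = 0
    · obtain ⟨h5, h6⟩ := h1.refl hxy.1 h3
      refine ⟨_, h5, h2.trans h6, ?_⟩
      rw [real_inner_comm, inner_refl_left, real_inner_comm y b', h4, zero_sub, neg_ne_zero]
      exact mul_ne_zero (div_ne_zero (mul_ne_zero two_ne_zero h3)
        (inner_self_ne_zero.2 (D.root_ne_zero hxy.1))) hxy.2.2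
    · exact ⟨b', h1, h2, h4⟩

theorem exists_long_ge {β : Euc k} (hβ : β ∈ D.roots) (s : Euc k) :
    ∃ b, Long D b ∧ D.Conn β b ∧ |⟪β, s⟫| ≤ 2 * ⟪b, s⟫ := by
  have key : ∀ b, Long D b → D.Conn β b → |⟪β, s⟫| ≤ 2 * |⟪b, s⟫| →
      ∃ b, Long D b ∧ D.Conn β b ∧ |⟪β, s⟫| ≤ 2 * ⟪b, s⟫ := by
    intro b hb hc h
    rcases le_total 0 ⟪b, s⟫ with h0 | h0
    · exact ⟨b, hb, hc, by rwa [abs_of_nonneg h0] at h⟩
    · refine ⟨-b, hb.of_conn (D.conn_neg hb.1) (D.neg_mem_roots hb.1) (norm_neg b),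
        hc.trans (D.conn_neg hb.1), ?_⟩
      rwa [abs_of_nonpos h0, ← inner_neg_left] at h
  obtain ⟨b0, hb0, hc0⟩ := exists_long hβ
  obtain ⟨b, hb, hc, hi⟩ := exists_long_inner hb0 (D.conn_symm hc0)
  obtain ⟨hb', hc'⟩ := hb.refl hβ hi
  have h0 : ⟪β, β⟫ ≠ 0 := inner_self_ne_zero.2 (D.root_ne_zero hβ)
  obtain ⟨m, hm⟩ := D.integral hβ hb.1
  have hm0 : m ≠ 0 := by
    rintro rfl
    exact hi (by simpa using hm)
  have h1 : (1 : ℝ) ≤ |(m : ℝ)| := by exact_mod_cast Int.one_le_abs hm0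
  have h2 := inner_refl_left β b s
  rw [hm, mul_div_cancel_right₀ _ h0] at h2
  have h3 : |⟪β, s⟫| ≤ |⟪b, s⟫| + |⟪Std.refl β b, s⟫| := by
    have e : (m : ℝ) * ⟪β, s⟫ = ⟪b, s⟫ - ⟪Std.refl β b, s⟫ := by linarith
    calc _ ≤ |(m : ℝ)| * |⟪β, s⟫| := le_mul_of_one_le_left (abs_nonneg _) h1
      _ = |⟪b, s⟫ - ⟪Std.refl β b, s⟫| := by rw [← abs_mul, e]
      _ ≤ _ := abs_sub _ _
  rcases le_total |⟪b, s⟫| |⟪Std.refl β b, s⟫| with h | h
  · exact key _ hb' ((hc0.trans hc).trans hc') (by linarith)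
  · exact key _ hb (hc0.trans hc) (by linarith)

theorem eig_gr {β : Euc k} (hβ : β ≠ 0) {X : Mat n} (hX : X ∈ D.gr β) : Eig D.toExpData X :=
  ⟨D.gr_le β hX, D.dg β, D.dg_mem β, _, inner_self_ne_zero.2 hβ, D.br_dg hX β⟩

theorem Long.lieData [PreconnectedSpace G] {b : Euc k} (hb : Long D b) :
    ∃ L : LieData D.toExpData, L.z ∈ D.gr b ∧ L.h = D.dg ((2 / ⟪b, b⟫) • b) := by
  obtain ⟨a, c, x, y, z, w, w', f, -, ha, hc, hac, hca, hx, hy, hz, hw, hw', hf, e1, e2, e3, e4, e5,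
    e6, e7, e8, e9, e10, e11, e12⟩ := D.exists_stLie hb.1 fun δ hδ h =>
      hb.2 δ hδ (conn_step hb.1 hδ (by rwa [real_inner_comm]))
  have h0 : ⟪b, b⟫ ≠ 0 := inner_self_ne_zero.2 (D.root_ne_zero hb.1)
  have ha0 : a ≠ 0 := by rintro rfl; simp at ha
  have hc0 : c ≠ 0 := by rintro rfl; simp at hc
  have h1 : -c + a ≠ 0 := by
    intro h
    rw [neg_add_eq_sub] at h
    simp [h] at hac
  have h2 : -a + c ≠ 0 := by
    intro h
    rw [neg_add_eq_sub] at h
    simp [h] at hca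
  refine ⟨⟨z, x, y, ⁅w, x⁆, ⁅w', y⁆, w, w', f, _, D.gr_le _ hz, eig_gr ha0 hx, eig_gr hc0 hy,
    eig_gr h1 (D.br_gr hw hx), eig_gr h2 (D.br_gr hw' hy), D.gr_le _ hw, D.gr_le _ hw',
    D.gr_le _ hf, D.dg_mem _, e4, rfl, e5, e2, e6, e7, e8, rfl, e9, e3, e10, e11, e1, ?_, ?_, e12⟩,
    hz, rfl⟩
  · rw [D.br_dg hz, real_inner_smul_right, div_mul_cancel₀ _ h0]
  · rw [D.br_dg hf, inner_neg_left, real_inner_smul_right, div_mul_cancel₀ _ h0, neg_smul]

theorem contr_ex (Γ : Gauge D.toExpData) {s β : Euc k} {X : Mat n} (hX : X ∈ D.gr β)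
    (h : ⟪β, s⟫ < 0) : Contr Γ.dd (D.a s) (D.ex X) := by
  refine ⟨Γ.c * ‖X‖, Real.exp ⟪β, s⟫, (Real.exp_pos _).le, Real.exp_lt_one_iff.2 h, fun m => ?_⟩
  rw [← D.a_nsmul, D.a_conj_ex _ hX, real_inner_smul_right, Real.exp_nat_mul]
  refine (Γ.ex_le _ (D.g.smul_mem _ (D.gr_le β hX))).trans_eq ?_
  rw [norm_smul, Real.norm_of_nonneg (by positivity)]
  ring

theorem fac_le_of_contr (Γ : Gauge D.toExpData) {b s : Euc k} (hb : b ∈ D.roots)
    (hs : ⟪b, s⟫ ≠ 0) (S : Subgroup G) (hS : IsClosed (S : Set G))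
    (h : ∀ g, Contr Γ.dd (D.a s) g ∨ Contr Γ.dd (D.a s)⁻¹ g → g ∈ S) : D.grp (D.fac b) ≤ S := by
  refine D.grp_le hS (D.fac_le (D.lie_isSub S) fun γ hγ =>
    D.gen_conn (D.lie_isSub S) (s := s) (fun δ _ hδ => ?_) hb hs hγ.2)
  refine D.le_lie (D.gr_le δ) fun X hX => h _ ?_
  rcases hδ.lt_or_gt with h1 | h1
  · exact .inl (contr_ex Γ hX h1)
  · rw [← D.a_neg]
    exact .inr (contr_ex Γ hX (by rw [inner_neg_right]; linarith))

theorem ex_mem_fac {b β : Euc k} (hβ : β ∈ D.roots) (h : D.Conn b β) {X : Mat n}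
    (hX : X ∈ D.gr β) : D.ex X ∈ D.grp (D.fac b) :=
  Subgroup.subset_closure ⟨X, Submodule.mem_sup_left (D.gr_le_grS (S := D.facR b) ⟨hβ, h⟩ hX), rfl⟩

end Pool.Agent.P.MP_d483fb_an.Z.EM

end

end

section

/-!
The Koopman representation of a transitive action with an invariant probability measure.
-/

open scoped Matrix Matrix.Norms.Operator RealInnerProductSpace Topology Pointwise ENNReal
open MeasureTheory Filter Set

noncomputable section

namespace Pool.Agent.P.MP_d483fb_an.Z.EM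

variable {G : Type} [Group G] [TopologicalSpace G] [IsTopologicalGroup G] [T2Space G]
  [LocallyCompactSpace G] [SecondCountableTopology G] [MeasurableSpace G] [BorelSpace G]
  {X : Type} [TopologicalSpace X] [T2Space X] [SecondCountableTopology X] [MeasurableSpace X]
  [BorelSpace X] [MulAction G X] [ContinuousSMul G X]
  {μ : Measure X} [IsProbabilityMeasure μ] [SMulInvariantMeasure G X μ]

omit [T2Space G] in
theorem koop_cont {l : Len G} (B : Base l X) (f : Lp ℝ 2 μ) :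
    Continuous fun g => koop G μ g f := by
  have hq : IsOpenQuotientMap fun g : G => g • B.o :=
    ⟨fun x => B.trans x, continuous_id.smul continuous_const, B.opn⟩
  have : LocallyCompactSpace X := hq.locallyCompactSpace
  have : TopologicalSpace.MetrizableSpace X := inferInstance
  have : μ.InnerRegularCompactLTTop := inferInstance
  let Φ : C(G × X, X) := ⟨fun p => p.1⁻¹ • p.2, continuous_fst.inv.smul continuous_snd⟩
  exact Continuous.compMeasurePreservingLp (f := fun _ : G => f) (g := fun g => Φ.curry g)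
    continuous_const Φ.curry.continuous (fun g => measurePreserving_smul g⁻¹ μ)
    ENNReal.ofNat_ne_top

theorem ae_const_of_fix (htr : ∀ x y : X, ∃ g : G, g • x = y) {f : Lp ℝ 2 μ}
    (hf : ∀ g, koop G μ g f = f) : ∃ c : ℝ, f =ᵐ[μ] fun _ => c := by
  have hm : Measurable (f : X → ℝ) := (Lp.stronglyMeasurable f).measurable
  have h1 : ∀ g : G, ∀ᵐ x ∂μ, f (g⁻¹ • x) = f x := by
    intro g
    have h := koop_ae μ g f
    rw [hf g] at h
    exact h.mono fun x hx => hx.symm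
  have hc : Measurable fun p : G × X => p.1⁻¹ • p.2 :=
    (continuous_fst.inv.smul continuous_snd).measurable
  have h2 : ∀ᵐ x ∂μ, ∀ᵐ g ∂(Measure.haar : Measure G), f (g⁻¹ • x) = f x := by
    rw [← Measure.ae_ae_comm (p := fun (g : G) (x : X) => f (g⁻¹ • x) = f x)]
    · exact ae_of_all _ h1
    · exact measurableSet_eq_fun (hm.comp hc) (hm.comp measurable_snd)
  obtain ⟨a, ha⟩ := h2.exists
  refine ⟨f a, h2.mono fun y hy => ?_⟩
  obtain ⟨h, rfl⟩ := htr a y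
  have h3 := (measurePreserving_mul_left (Measure.haar : Measure G) h⁻¹).quasiMeasurePreserving.ae
    ha
  obtain ⟨g, hg1, hg2⟩ := (hy.and h3).exists
  rw [← hg1, ← hg2]
  simp [mul_smul]

omit [TopologicalSpace X] [T2Space X] [SecondCountableTopology X] [BorelSpace X] in
lemma flip_memLp {G : Type} [Group G] [MulAction G X] {dd : G → ℝ} {M : ℝ} {f : X → ℝ}
    (hf : FLip dd M f) : MemLp f 2 μ :=
  MemLp.of_bound hf.1.aestronglyMeasurable M (ae_of_all _ fun x => hf.2.1 x)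

omit [TopologicalSpace X] [T2Space X] [SecondCountableTopology X] [BorelSpace X] in
lemma norm_le_of_ae {F : Lp ℝ 2 μ} {M : ℝ} (h : ∀ᵐ x ∂μ, |F x| ≤ M) : ‖F‖ ≤ M := by
  obtain ⟨x, hx⟩ := h.exists
  have h0 : 0 ≤ M := (abs_nonneg _).trans hx
  have h1 := Lp.norm_le_of_ae_bound (f := F) h0 h
  simpa [measureUnivNNReal] using h1

lemma koop_toLp_ae {f : X → ℝ} (hf : MemLp f 2 μ) (g : G) :
    koop G μ g (hf.toLp f) =ᵐ[μ] fun x => f (g⁻¹ • x) :=
  (koop_ae μ g _).trans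
    ((measurePreserving_smul g⁻¹ μ).quasiMeasurePreserving.ae_eq_comp hf.coeFn_toLp)

lemma flip_glip {dd : G → ℝ} {M : ℝ} {f : X → ℝ} (hf : FLip dd M f) :
    GLip dd (koop G μ) M ((flip_memLp hf).toLp f) := by
  refine ⟨norm_le_of_ae ?_, fun g => norm_le_of_ae ?_⟩
  · filter_upwards [(flip_memLp (μ := μ) hf).coeFn_toLp] with x hx
    rw [hx]
    exact hf.2.1 x
  · filter_upwards [(flip_memLp (μ := μ) hf).coeFn_toLp,
      koop_toLp_ae (flip_memLp (μ := μ) hf) g,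
      Lp.coeFn_sub (koop G μ g ((flip_memLp hf).toLp f)) ((flip_memLp hf).toLp f)]
      with x h1 h2 h3
    rw [h3, Pi.sub_apply, h1, h2]
    exact hf.2.2 g x

omit [TopologicalSpace X] [T2Space X] [SecondCountableTopology X] [BorelSpace X]
  [IsProbabilityMeasure μ] in
lemma inner_of_ae {F F' : Lp ℝ 2 μ} {f f' : X → ℝ} (h : F =ᵐ[μ] f) (h' : F' =ᵐ[μ] f') :
    ⟪F, F'⟫ = ∫ x, f x * f' x ∂μ := by
  rw [L2.inner_def]
  refine integral_congr_ae ?_
  filter_upwards [h, h'] with x hx hx'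
  rw [hx, hx']
  simp [mul_comm]

lemma prj_top_ae (htr : ∀ x y : X, ∃ g : G, g • x = y) (F : Lp ℝ 2 μ) :
    prj (koop G μ) ⊤ F =ᵐ[μ] fun _ => ∫ x, F x ∂μ := by
  have hc : ∀ c : ℝ, (Lp.const 2 μ c : Lp ℝ 2 μ) =ᵐ[μ] fun _ => c := fun c =>
    Lp.coeFn_const 2 μ c
  have hi : Integrable F μ := (Lp.memLp F).integrable one_le_two
  have h : prj (koop G μ) ⊤ F = Lp.const 2 μ (∫ x, F x ∂μ) := by
    refine prj_eq_of (fun g _ => ?_) fun w hw => ?_
    · refine Lp.ext ((koop_ae μ g _).trans ?_)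
      refine EventuallyEq.trans ?_ (hc _).symm
      exact (measurePreserving_smul g⁻¹ μ).quasiMeasurePreserving.ae_eq_comp (hc _)
    · obtain ⟨c, hw'⟩ := ae_const_of_fix htr fun g => hw g (Subgroup.mem_top g)
      rw [inner_sub_left, inner_of_ae EventuallyEq.rfl hw', inner_of_ae (hc _) hw',
        integral_mul_const]
      simp
  rw [h]
  exact hc _

theorem mix_of_mixH (htr : ∀ x y : X, ∃ g : G, g • x = y) {dd : G → ℝ} {Far : G → ℝ → Prop}
    (h : MixH dd Far (koop G μ)) : Mix dd Far μ := by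
  obtain ⟨κ, hκ, C, hC, h⟩ := h
  refine ⟨κ, hκ, C, hC, fun g t hg M M' f f' hf hf' => ?_⟩
  have h1 := h g t hg M M' _ _ (flip_glip hf) (flip_glip hf')
  rw [inner_of_ae (koop_toLp_ae (flip_memLp hf) g) (flip_memLp hf').coeFn_toLp,
    inner_of_ae (prj_top_ae htr _) (prj_top_ae htr _),
    integral_congr_ae (flip_memLp hf).coeFn_toLp,
    integral_congr_ae (flip_memLp hf').coeFn_toLp] at h1
  simpa using h1

theorem ergodic_of_fix (htr : ∀ x y : X, ∃ g : G, g • x = y) {a : G}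
    (h : ∀ f : Lp ℝ 2 μ, koop G μ a f = f → ∀ g, koop G μ g f = f) :
    Ergodic (fun x : X => a • x) μ := by
  refine ⟨measurePreserving_smul a μ, ⟨fun s hs hinv => ?_⟩⟩
  have hmem : ∀ x, a⁻¹ • x ∈ s ↔ x ∈ s := by
    intro x
    have h1 : a⁻¹ • x ∈ (fun x : X => a • x) ⁻¹' s ↔ a⁻¹ • x ∈ s := by rw [hinv]
    rw [← h1]
    simp
  have hL : MemLp (s.indicator fun _ => (1 : ℝ)) 2 μ := (memLp_const 1).indicator hs
  have hfix : koop G μ a (hL.toLp _) = hL.toLp _ := by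
    refine Lp.ext ((koop_toLp_ae hL a).trans ?_)
    refine EventuallyEq.trans (ae_of_all _ fun x => ?_) hL.coeFn_toLp.symm
    by_cases hx : x ∈ s
    · simp [hx, (hmem x).2 hx]
    · simp [hx, mt (hmem x).1 hx]
  obtain ⟨c, hc⟩ := ae_const_of_fix htr (h _ hfix)
  have h2 := hL.coeFn_toLp.symm.trans hc
  rw [eventuallyConst_set]
  by_cases hc1 : c = 1
  · refine Or.inl (h2.mono fun x hx => ?_)
    by_contra hxs
    simp [hxs, hc1] at hx
  · refine Or.inr (h2.mono fun x hx hxs => hc1 ?_)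
    simpa [hxs] using hx.symm

end Pool.Agent.P.MP_d483fb_an.Z.EM

end

end

section

/-!
Exponential mixing, effective equidistribution and ergodicity for groups in standard form.
-/

open scoped Matrix Matrix.Norms.Operator InnerProductSpace RealInnerProductSpace Topology
open MeasureTheory Filter Set

noncomputable section

namespace Pool.Agent.P.MP_d483fb_an.Z

open _root_.Pool.Agent.P.MP_d483fb_an.Z.ST EM

variable {G : Type} [Group G] [TopologicalSpace G] [IsTopologicalGroup G] [PreconnectedSpace G]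
  {n k : ℕ}

/-- The averaging data at all longest roots. -/
theorem Std.exists_longData (D : Std G n k) (Γ : Gauge D.toExpData) {sz : G → ℝ}
    (hs : SzOK D.toExpData sz) : ∃ T : {b // Long D b} → Data sz Γ.dd,
      (∀ b (S : Subgroup G), IsClosed (S : Set G) →
        (∀ g, Contr Γ.dd (T b).a g ∨ Contr Γ.dd (T b).a⁻¹ g → g ∈ S) → D.grp (D.fac b) ≤ S) ∧
      ∀ b, ∃ z ∈ D.gr b.1, ∀ t : ℝ, (T b).e1 ![t, 0, 0] = D.ex (t • z) := by
  choose L hz hh using fun b : {b // Long D b} => b.2.lieData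
  refine ⟨fun b => (L b).data Γ hs, fun b S hS h => ?_, fun b => ⟨_, hz b, (L b).data_e1 Γ hs⟩⟩
  have h0 : ⟪b.1, b.1⟫ ≠ 0 := inner_self_ne_zero.2 (D.root_ne_zero b.2.1)
  have e : ((L b).data Γ hs).a = D.a (Real.log 2 • (2 / ⟪b.1, b.1⟫) • b.1) := by
    rw [LieData.data_a, hh, Std.a, map_smul D.dg (Real.log 2)]
  rw [e] at h
  refine fac_le_of_contr Γ b.2.1 ?_ S hS h
  rw [real_inner_smul_right, real_inner_smul_right, div_mul_cancel₀ _ h0]
  exact mul_ne_zero (Real.log_pos one_lt_two).ne' two_ne_zero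

omit [IsTopologicalGroup G] [PreconnectedSpace G] in
theorem Std.finite_long (D : Std G n k) : Finite {b // Long D b} :=
  (D.roots.finite_toSet.subset fun _ hb => hb.1).to_subtype

theorem Std.eq_top_of_fac (D : Std G n k) {J : Set (Euc k)}
    (hJ : ∀ γ ∈ D.roots, ∃ b ∈ J, D.Conn γ b) {S : Subgroup G}
    (h : ∀ b ∈ J, D.grp (D.fac b) ≤ S) : S = ⊤ :=
  D.eq_top_of_roots fun β hβ _ hX => by
    obtain ⟨b, hb, hc⟩ := hJ β hβ
    exact h b hb (ex_mem_fac hβ (D.conn_symm hc) hX)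

omit [PreconnectedSpace G] in
theorem Std.dd_conj_K (D : Std G n k) (Γ : Gauge D.toExpData) {x : G} (hx : x ∈ D.K) (g : G) :
    Γ.dd (x⁻¹ * g * x) ≤ ((n : ℝ) ^ 2 + 1) * Γ.dd g := by
  refine (Γ.conj g x).trans (mul_le_mul_of_nonneg_right ?_ (Γ.nonneg g))
  have := mul_le_mul (D.norm_ρ_K (D.K.inv_mem hx)) (D.norm_ρ_K hx) (norm_nonneg _) (Nat.cast_nonneg n)
  nlinarith

variable {H : Type*} [NormedAddCommGroup H] [InnerProductSpace ℝ H] [CompleteSpace H]

/-- Exponential decay of matrix coefficients of Lipschitz vectors. -/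
theorem Std.mixH (D : Std G n k) (Γ : Gauge D.toExpData) {π : G →* (H →L[ℝ] H)}
    (hπ : ∀ g v, ‖π g v‖ = ‖v‖) (hc : ∀ v, Continuous fun g => π g v) : MixH Γ.dd D.Far π := by
  have hs := szOK_rho D.toExpData
  obtain ⟨T, hN, hz⟩ := D.exists_longData Γ hs
  choose z hz hT using hz
  have := D.finite_long
  refine mixH_of_data (size_of Γ hs) hπ hc T (fun b => D.grp (D.fac b))
    (fun b => D.grp_fac_normal b) hN (fun b t => ?_) (fun b => ?_) (c := (n : ℝ) ^ 2 + 1)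
    (e := 1 / 2) (le_add_of_nonneg_left (sq_nonneg _)) one_half_pos ?_
  · rw [hT]
    exact ex_mem_fac b.2.1 .refl (Submodule.smul_mem _ t (hz b))
  · simp only [hT]
    exact lipAt_ex Γ (D.gr_le _ (hz b))
  · rintro g t ⟨k₁, h₁, k₂, h₂, s, rfl, hF⟩
    refine ⟨k₁, D.a s, k₂, rfl, fun x => ?_, D.dd_conj_K Γ h₂, {b | 1 / 2 * t ≤ ⟪b.1, s⟫},
      fun S _ h => ?_, fun b hb => ⟨_, hb, fun u => ?_⟩⟩
    · simpa using D.dd_conj_K Γ (D.K.inv_mem h₁) x
    · refine D.eq_top_of_fac (J := {b | Long D b ∧ 1 / 2 * t ≤ ⟪b, s⟫}) (fun γ hγ => ?_)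
        fun b hb => h ⟨b, hb.1⟩ hb.2
      obtain ⟨β, hβ, hc, ht⟩ := hF γ hγ
      obtain ⟨b, hb, hc', hi⟩ := exists_long_ge hβ s
      exact ⟨b, ⟨hb, by linarith⟩, hc.trans hc'⟩
    · have := D.a_conj_ex (-s) (Submodule.smul_mem _ u (hz b))
      rwa [D.a_neg, inv_inv, inner_neg_right, smul_smul, ← hT, ← hT] at this

/-- Invariant vectors for representations of subexponential growth. -/
theorem Std.strongT [LocallyCompactSpace G] (D : Std G n k) {sz : G → ℝ}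
    (hs : SzOK D.toExpData sz) {π : G →* (H →L[ℝ] H)} (hπ : Grow sz π) (ξ : H) :
    ∃ ζ, (∀ g, π g ζ = ζ) ∧ App sz π ξ ζ := by
  obtain ⟨Γ⟩ := exists_gauge D.toExpData
  obtain ⟨T, hN, -⟩ := D.exists_longData Γ hs
  have := D.finite_long
  have hcl : IsClosed {g | Γ.dd g ≤ 2} := isClosed_le Γ.cont continuous_const
  have hsub : tsupport (fun g => max 0 (1 - Γ.dd g)) ⊆ {g | Γ.dd g ≤ 2} := by
    refine closure_minimal (fun g hg => ?_) hcl
    by_contra h
    have : (2 : ℝ) < Γ.dd g := not_le.1 h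
    exact hg (max_eq_left (by linarith))
  refine ST.strongT (size_of Γ hs) hπ T (fun b => D.grp (D.fac b)) (fun b => D.grp_fac_normal b) hN
    (fun S _ h => D.eq_top_of_fac (J := {b | Long D b}) (fun γ hγ => exists_long hγ)
      fun b hb => h ⟨b, hb⟩) (fun g => max 0 (1 - Γ.dd g))
    (continuous_const.max (continuous_const.sub Γ.cont))
    (Γ.cpt.of_isClosed_subset (isClosed_tsupport _) hsub) (fun g => le_max_left _ _)
    (by simp [Γ.one]) ⟨1, fun g h _ => ?_⟩ ?_ ξ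
  · rw [one_mul, max_comm 0, max_comm 0]
    refine (abs_max_sub_max_le_abs _ _ _).trans (abs_le.2 ⟨?_, ?_⟩)
    · have := Γ.mul g⁻¹ h
      rw [Γ.inv] at this
      linarith
    · have := Γ.mul g (g⁻¹ * h)
      rw [mul_inv_cancel_left] at this
      linarith
  · obtain ⟨C, hC⟩ := hs.bdd _ Γ.cpt
    exact ⟨C, fun g hg => hC g (hsub hg)⟩

omit [CompleteSpace H] in
/-- A vector fixed by a Cartan element with nontrivial components is fixed by the group. -/
theorem Std.fix_of_full (D : Std G n k) {π : G →* (H →L[ℝ] H)} (hπ : ∀ g v, ‖π g v‖ = ‖v‖)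
    (hc : ∀ v, Continuous fun g => π g v) {s : Euc k} (hs : D.Full s) {v : H}
    (hv : π (D.a s) v = v) (g : G) : π g v = v := by
  have key : ∀ s : Euc k, D.a s ∈ stabV π v → ∀ β, 0 < ⟪β, s⟫ → ∀ X ∈ D.gr β,
      D.ex X ∈ stabV π v := by
    intro s ha β hβ X hX
    have h1 := ((hc v).tendsto 1).comp ((D.tendsto_conj_ex (s := s)
      (D.gr_le_grS (S := {γ | 0 < ⟪γ, s⟫}) hβ hX)).comp tendsto_natCast_atTop_atTop)
    have h2 := (h1.sub_const v).norm
    simp only [map_one, one_apply_eq_self, sub_self, norm_zero] at h2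
    have h3 : ∀ m : ℕ, ‖π (D.a (-((m : ℝ) • s)) * D.ex X * D.a ((m : ℝ) • s)) v - v‖ =
        ‖π (D.ex X) v - v‖ := by
      intro m
      have hm : π (D.a s ^ m) v = v := (stabV π v).pow_mem ha m
      rw [D.a_neg, D.a_nsmul, pi_mul, pi_mul, hm, ← hπ (D.a s ^ m), map_sub, pi_apply_inv, hm]
    have h4 : Tendsto (fun _ : ℕ => ‖π (D.ex X) v - v‖) atTop (𝓝 0) := h2.congr h3
    exact sub_eq_zero.1 (norm_eq_zero.1 (tendsto_nhds_unique tendsto_const_nhds h4))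
  have htop : stabV π v = ⊤ := D.eq_top_of_full hs fun β _ h X hX => by
    rcases h.lt_or_gt with h | h
    · refine key (-s) ?_ β (by rw [inner_neg_right]; linarith) X hX
      rw [D.a_neg]
      exact (stabV π v).inv_mem hv
    · exact key s hv β h X hX
  exact mem_stabV.1 (htop ▸ Subgroup.mem_top g)

end Pool.Agent.P.MP_d483fb_an.Z

namespace Pool.Agent.P.MP_d483fb_an.Z

open EM

variable {G : Type} [Group G] [TopologicalSpace G] [IsTopologicalGroup G] [T2Space G]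
  [LocallyCompactSpace G] [SecondCountableTopology G] [MeasurableSpace G] [BorelSpace G]
  {X : Type} [TopologicalSpace X] [T2Space X] [SecondCountableTopology X] [MeasurableSpace X]
  [BorelSpace X] [MulAction G X] [ContinuousSMul G X]
  {μ : Measure X} [IsProbabilityMeasure μ] [SMulInvariantMeasure G X μ]

omit [IsTopologicalGroup G] [T2Space G] [LocallyCompactSpace G] [SecondCountableTopology G]
  [MeasurableSpace G] [BorelSpace G] [T2Space X] [SecondCountableTopology X] [MeasurableSpace X]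
  [BorelSpace X] [ContinuousSMul G X] in
theorem Base.trans' {l : Len G} (B : Base l X) (x y : X) : ∃ g : G, g • x = y := by
  obtain ⟨g, rfl⟩ := B.trans x
  obtain ⟨h, rfl⟩ := B.trans y
  exact ⟨h * g⁻¹, by rw [← mul_smul, inv_mul_cancel_right]⟩

theorem Std.mix [ConnectedSpace G] {n k : ℕ} (D : Std G n k) (Γ : Gauge D.toExpData) {l : Len G}
    (B : Base l X) : Mix Γ.dd D.Far μ :=
  mix_of_mixH B.trans' (D.mixH Γ (koop_norm μ) (koop_cont B))

theorem Std.equi [ConnectedSpace G] {n k : ℕ} (D : Std G n k) (l : Len G) (B : Base l X) :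
    Nonempty (Equi l D.Far B.o μ) := by
  obtain ⟨Γ⟩ := exists_gauge D.toExpData
  exact equi_of_mix Γ B (D.mix Γ B)

theorem Std.ergodic_full [ConnectedSpace G] {n k : ℕ} (D : Std G n k) (l : Len G) (B : Base l X)
    {s : Euc k} (hs : D.Full s) : Ergodic (fun x : X => D.a s • x) μ :=
  ergodic_of_fix B.trans' fun _ hf g => D.fix_of_full (koop_norm μ) (koop_cont B) hs hf g

end Pool.Agent.P.MP_d483fb_an.Z

end

end

section

/-! Logarithms of positive matrices and symmetric normalisers. -/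

open scoped Matrix Matrix.Norms.Operator InnerProductSpace RealInnerProductSpace Topology
open NormedSpace Filter Set

noncomputable section

namespace Pool.Agent.P.MP_d483fb_an.Z

variable {n : ℕ}

theorem Mx4_diag {W : Mat n} (hW : W.IsSymm) :
    ∃ (U : Mat n) (d : Fin n → ℝ), U * Uᵀ = 1 ∧ Uᵀ * U = 1 ∧ U * W * Uᵀ = Matrix.diagonal d := by
  obtain ⟨U, hU, hd⟩ := simul_diag (Submodule.span ℝ {W})
    (fun X hX => by
      obtain ⟨c, rfl⟩ := Submodule.mem_span_singleton.1 hX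
      exact hW.smul c)
    (fun X hX Y hY => by
      obtain ⟨c, rfl⟩ := Submodule.mem_span_singleton.1 hX
      obtain ⟨c', rfl⟩ := Submodule.mem_span_singleton.1 hY
      rw [Ring.lie_def, Matrix.smul_mul, Matrix.smul_mul, Matrix.mul_smul, Matrix.mul_smul,
        smul_comm, sub_self])
  exact ⟨U, _, hU, mul_eq_one_comm.1 hU,
    (hd W (Submodule.mem_span_singleton_self W)).diagonal_diag.symm⟩

theorem Mx4_exp_conj {U V : Mat n} (h : U * V = 1) (h' : V * U = 1) (X : Mat n) :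
    U * exp X * V = exp (U * X * V) := exp_conj h h' X

theorem Mx4_exp_diag (d : Fin n → ℝ) :
    exp (Matrix.diagonal d : Mat n) = Matrix.diagonal fun i => Real.exp (d i) := by
  rw [Matrix.exp_diagonal]
  congr 1
  funext i
  rw [Pi.coe_exp, Real.exp_eq_exp_ℝ]

theorem Mx4_back {U V W : Mat n} (h' : V * U = 1) : V * (U * W * V) * U = W := by
  calc V * (U * W * V) * U = (V * U) * W * (V * U) := by simp only [Matrix.mul_assoc]
    _ = W := by rw [h', Matrix.one_mul, Matrix.mul_one]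

theorem exists_symm_log {y : Mat n} (hy : IsUnit y) :
    ∃ W : Mat n, W.IsSymm ∧ exp W = yᵀ * y := by
  obtain ⟨U, d, h1, h2, hd⟩ := Mx4_diag (W := yᵀ * y) (Matrix.isSymm_transpose_mul_self y)
  have hB : (y * Uᵀ)ᵀ * (y * Uᵀ) = Matrix.diagonal d := by
    rw [← hd, Matrix.transpose_mul, Matrix.transpose_transpose]
    simp only [Matrix.mul_assoc]
  have hdet : (y * Uᵀ).det ≠ 0 := by
    rw [Matrix.det_mul]
    refine mul_ne_zero ((Matrix.isUnit_iff_isUnit_det y).1 hy).ne_zero fun h0 => ?_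
    have := congrArg Matrix.det h1
    rw [Matrix.det_mul, h0, mul_zero, Matrix.det_one] at this
    exact zero_ne_one this
  have hpos : ∀ i, 0 < d i := by
    intro i
    have e : d i = ∑ k, (y * Uᵀ) k i * (y * Uᵀ) k i := by
      have := congrFun (congrFun hB i) i
      rw [Matrix.diagonal_apply_eq, Matrix.mul_apply] at this
      exact this.symm
    by_contra hn
    have h0 : ∑ k, (y * Uᵀ) k i * (y * Uᵀ) k i = 0 :=
      le_antisymm (e ▸ not_lt.1 hn) (Finset.sum_nonneg fun k _ => mul_self_nonneg _)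
    rw [Finset.sum_eq_zero_iff_of_nonneg fun k _ => mul_self_nonneg _] at h0
    exact hdet (Matrix.det_eq_zero_of_column_eq_zero i fun k =>
      mul_self_eq_zero.1 (h0 k (Finset.mem_univ k)))
  refine ⟨Uᵀ * Matrix.diagonal (fun i => Real.log (d i)) * U, ?_, ?_⟩
  · show (Uᵀ * Matrix.diagonal (fun i => Real.log (d i)) * U)ᵀ = _
    rw [Matrix.transpose_mul, Matrix.transpose_mul, Matrix.transpose_transpose,
      Matrix.diagonal_transpose, Matrix.mul_assoc]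
  · rw [← Mx4_exp_conj h2 h1, Mx4_exp_diag]
    have e : (fun i => Real.exp (Real.log (d i))) = d := funext fun i => Real.exp_log (hpos i)
    rw [e, ← hd, Mx4_back h2]

theorem br_mem_of_conj_symm (v : Submodule ℝ (Mat n)) {W : Mat n} (hW : W.IsSymm)
    (h : ∀ X ∈ v, exp W * X * exp (-W) ∈ v) {X : Mat n} (hX : X ∈ v) : ⁅W, X⁆ ∈ v := by
  classical
  obtain ⟨U, d, h1, h2, hd⟩ := Mx4_diag hW
  let v' : Submodule ℝ (Mat n) := v.comap (LinearMap.mulLeftRight ℝ (Uᵀ, U))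
  have hv' : ∀ Y, Y ∈ v' ↔ Uᵀ * Y * U ∈ v := fun Y => Iff.rfl
  have e1 : U * exp W * Uᵀ = Matrix.diagonal fun i => Real.exp (d i) := by
    rw [Mx4_exp_conj h1 h2, hd, Mx4_exp_diag]
  have e2 : U * exp (-W) * Uᵀ = Matrix.diagonal fun i => Real.exp (-d i) := by
    rw [Mx4_exp_conj h1 h2, Matrix.mul_neg, Matrix.neg_mul, hd, Matrix.diagonal_neg, Mx4_exp_diag]
  have hc : ∀ (_ : Unit), ∀ Y ∈ v',
      (Matrix.of fun i j => Real.exp (d i - d j) * Y i j) ∈ v' := by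
    intro _ Y hY
    have e : (Matrix.of fun i j => Real.exp (d i - d j) * Y i j) =
        U * (exp W * (Uᵀ * Y * U) * exp (-W)) * Uᵀ := by
      have : U * (exp W * (Uᵀ * Y * U) * exp (-W)) * Uᵀ =
          (U * exp W * Uᵀ) * Y * (U * exp (-W) * Uᵀ) := by simp only [Matrix.mul_assoc]
      rw [this, e1, e2]
      ext i j
      rw [Matrix.of_apply, Matrix.mul_diagonal, Matrix.diagonal_mul, sub_eq_add_neg, Real.exp_add]
      ring
    rw [hv', e, Mx4_back h2]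
    exact h _ ((hv' Y).1 hY)
  have hY : U * X * Uᵀ ∈ v' := by rw [hv', Mx4_back h2]; exact hX
  have hm : ∀ r : ℝ, (Matrix.of fun i j =>
      if (i, j) ∈ {p : Fin n × Fin n | d p.1 - d p.2 = r} then (U * X * Uᵀ) i j else 0) ∈ v' := by
    intro r
    have := mask_mem v' (fun (_ : Unit) i j => Real.exp (d i - d j)) hc
      {p : Fin n × Fin n | d p.1 - d p.2 = r}
      (fun p hp q hq => (Real.exp_injective (hq ())).symm.trans hp) hY
    refine (congrArg (fun M => M ∈ v') ?_).mp this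
    ext i j
    simp only [Matrix.of_apply]
  have key : U * ⁅W, X⁆ * Uᵀ =
      ∑ r ∈ Finset.univ.image (fun p : Fin n × Fin n => d p.1 - d p.2), r • (Matrix.of fun i j =>
      if (i, j) ∈ {p : Fin n × Fin n | d p.1 - d p.2 = r} then (U * X * Uᵀ) i j else 0) := by
    have : U * ⁅W, X⁆ * Uᵀ = (U * W * Uᵀ) * (U * X * Uᵀ) - (U * X * Uᵀ) * (U * W * Uᵀ) := by
      rw [Ring.lie_def, Matrix.mul_sub, Matrix.sub_mul]
      simp only [Matrix.mul_assoc]
      rw [← Matrix.mul_assoc Uᵀ U, ← Matrix.mul_assoc Uᵀ U, h2, Matrix.one_mul, Matrix.one_mul]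
    rw [this, hd]
    ext i j
    rw [Matrix.sum_apply, Finset.sum_eq_single (d i - d j), Matrix.sub_apply, Matrix.mul_diagonal,
      Matrix.diagonal_mul, Matrix.smul_apply, Matrix.of_apply, if_pos (by rfl), smul_eq_mul]
    · ring
    · intro r _ hr
      have hn : (i, j) ∉ {p : Fin n × Fin n | d p.1 - d p.2 = r} := fun hh => hr (Eq.symm hh)
      rw [Matrix.smul_apply, Matrix.of_apply, if_neg hn, smul_zero]
    · intro hh
      exact absurd (Finset.mem_image.2 ⟨(i, j), Finset.mem_univ _, rfl⟩) hh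
  have hfin : U * ⁅W, X⁆ * Uᵀ ∈ v' := by
    rw [key]
    exact Submodule.sum_mem _ fun r _ => v'.smul_mem r (hm r)
  rwa [hv', Mx4_back h2] at hfin

theorem eq_zero_of_det {G : Type} [Group G] (ρ : G →* Mat n) {Z : Mat n} (hZ : Z.IsSymm)
    (hc : ∀ x, ρ x * Z = Z * ρ x) (hp : ∀ (χ : G →* ℝ) (x : G), χ x = 1) {x : G}
    (hx : ρ x = exp Z) : Z = 0 := by
  classical
  obtain ⟨U, d, h1, h2, hd⟩ := Mx4_diag hZ
  have hmul : ∀ A B : Mat n, U * (A * B) * Uᵀ = (U * A * Uᵀ) * (U * B * Uᵀ) := by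
    intro A B
    simp only [Matrix.mul_assoc]
    rw [← Matrix.mul_assoc Uᵀ U, h2, Matrix.one_mul]
  have hd0 : ∀ i₀, d i₀ = 0 := by
    intro i₀
    let E : Mat n := Matrix.diagonal fun i => if d i = d i₀ then 1 else 0
    have hE : E * E = E := by
      simp only [E, Matrix.diagonal_mul_diagonal]
      congr 1
      funext i
      split_ifs <;> simp
    have hcE : ∀ g, E * (U * ρ g * Uᵀ) = (U * ρ g * Uᵀ) * E := by
      intro g
      have hcd : (U * ρ g * Uᵀ) * Matrix.diagonal d = Matrix.diagonal d * (U * ρ g * Uᵀ) := by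
        rw [← hd, ← hmul, ← hmul, hc]
      ext i j
      have hij := congrFun (congrFun hcd i) j
      rw [Matrix.mul_diagonal, Matrix.diagonal_mul] at hij
      simp only [E]
      rw [Matrix.mul_diagonal, Matrix.diagonal_mul]
      by_cases h0 : (U * ρ g * Uᵀ) i j = 0
      · rw [h0, mul_zero, zero_mul]
      · have : d j = d i := mul_left_cancel₀ h0 (hij.trans (mul_comm _ _))
        rw [this, mul_comm]
    let χ : G →* ℝ :=
      { toFun := fun g => ((U * ρ g * Uᵀ) * E + (1 - E)).det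
        map_one' := by
          rw [map_one, Matrix.mul_one, h1, Matrix.one_mul, add_sub_cancel, Matrix.det_one]
        map_mul' := fun g g' => by
          rw [← Matrix.det_mul, map_mul, hmul]
          congr 1
          have k1 := hcE g'
          generalize U * ρ g * Uᵀ = A at *
          generalize U * ρ g' * Uᵀ = B at *
          have k2 : A * E * (B * E) = A * B * E := by
            rw [Matrix.mul_assoc, ← Matrix.mul_assoc E, k1, Matrix.mul_assoc B, hE,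
              Matrix.mul_assoc]
          have k3 : A * E * (1 - E) = 0 := by
            rw [Matrix.mul_assoc, Matrix.mul_sub, Matrix.mul_one, hE, sub_self, Matrix.mul_zero]
          have k4 : (1 - E) * (B * E) = 0 := by
            rw [← k1, ← Matrix.mul_assoc, Matrix.sub_mul, Matrix.one_mul, hE, sub_self,
              Matrix.zero_mul]
          have k5 : (1 - E) * (1 - E) = 1 - E := by
            rw [Matrix.mul_sub, Matrix.mul_one, Matrix.sub_mul, Matrix.one_mul, hE, sub_self,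
              sub_zero]
          rw [Matrix.add_mul, Matrix.mul_add, Matrix.mul_add, k2, k3, k4, k5, add_zero,
            zero_add] }
    have hχ : ((U * ρ x * Uᵀ) * E + (1 - E)).det = 1 := hp χ x
    have e : (U * ρ x * Uᵀ) * E + (1 - E) =
        Matrix.diagonal fun i => Real.exp (d i₀ * if d i = d i₀ then 1 else 0) := by
      rw [hx, Mx4_exp_conj h1 h2, hd, Mx4_exp_diag]
      simp only [E]
      rw [Matrix.diagonal_mul_diagonal, ← Matrix.diagonal_one, Matrix.diagonal_sub,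
        Matrix.diagonal_add]
      congr 1
      funext i
      by_cases hi : d i = d i₀
      · simp [hi]
      · simp [hi]
    rw [e, Matrix.det_diagonal, ← Real.exp_sum, Real.exp_eq_one_iff, ← Finset.mul_sum] at hχ
    refine (mul_eq_zero.1 hχ).resolve_right (ne_of_gt ?_)
    refine Finset.sum_pos' (fun i _ => by split_ifs <;> norm_num) ⟨i₀, Finset.mem_univ _, ?_⟩
    rw [if_pos rfl]
    exact one_pos
  have : Matrix.diagonal d = 0 := by
    rw [show d = fun _ => 0 from funext hd0]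
    exact Matrix.diagonal_zero
  rw [← Mx4_back (W := Z) h2, hd, this, Matrix.mul_zero, Matrix.zero_mul]

end Pool.Agent.P.MP_d483fb_an.Z

end

end

section

/-! Polar and Cartan decompositions. -/

open scoped Matrix Matrix.Norms.Operator InnerProductSpace RealInnerProductSpace Topology
open NormedSpace Filter Set

noncomputable section

namespace Pool.Agent.P.MP_d483fb_an.Z

namespace Std

variable {G : Type} [Group G] [TopologicalSpace G] [IsTopologicalGroup G] [PreconnectedSpace G]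
  {n k : ℕ} (D : Std G n k)

/-- A symmetric matrix whose exponential lies in the group belongs to the Lie algebra. -/
theorem Polar_mem_g {W : Mat n} (hW : W.IsSymm) {x : G} (hx : D.ρ x = exp W) : W ∈ D.g := by
  have hi : D.ρ x⁻¹ = exp (-W) := by
    have h1 : exp W * exp (-W) = 1 := exp_mul_neg W
    rw [← mul_one (D.ρ x⁻¹), ← h1, ← hx, ← mul_assoc, D.ρ_inv_mul, one_mul]
  have hb : ∀ X ∈ D.g, ⁅W, X⁆ ∈ D.g := by
    intro X hX
    refine br_mem_of_conj_symm D.g hW (fun X hX => ?_) hX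
    rw [← hx, ← hi]
    exact D.Ad_mem' x X hX
  obtain ⟨Y, hY, hc, hs⟩ := D.normaliser hb
  have hc' : ∀ X ∈ D.g, ⁅X, W - Y⁆ = 0 := by
    intro X hX
    have := hc X hX
    rw [Ring.lie_def, sub_eq_zero] at this ⊢
    exact this.symm
  have hcm : Commute (-Y) W := by
    have := hc Y hY
    rw [Ring.lie_def, sub_mul, mul_sub, sub_sub_sub_cancel_right, sub_eq_zero] at this
    exact Commute.neg_left this.symm
  have hz : D.ρ ((D.ex Y)⁻¹ * x) = exp (W - Y) := by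
    rw [map_mul, D.ρ_ex_inv hY, hx, sub_eq_neg_add, Matrix.exp_add_of_commute _ _ hcm]
  have h0 : W - Y = 0 :=
    eq_zero_of_det D.ρ (hW.sub (hs hW)) (D.comm_of_br hc') (fun χ x => D.perfect χ x) hz
  rw [sub_eq_zero] at h0
  rwa [h0]

theorem polar (x : G) : ∃ y ∈ D.K, ∃ Y ∈ D.g, Y.IsSymm ∧ x = y * D.ex Y := by
  obtain ⟨W, hW, he⟩ := exists_symm_log (y := D.ρ x) ((Group.isUnit x).map D.ρ)
  obtain ⟨x', hx'⟩ := D.tr x
  have hg : W ∈ D.g := D.Polar_mem_g hW (x := x' * x) (by rw [map_mul, hx', he])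
  have hY : (1 / 2 : ℝ) • W ∈ D.g := D.g.smul_mem _ hg
  have hs : ((1 / 2 : ℝ) • W).IsSymm := hW.smul _
  refine ⟨x * (D.ex ((1 / 2 : ℝ) • W))⁻¹, ?_, _, hY, hs, by simp⟩
  rw [mem_K, mul_eq_one_comm, map_mul, D.ρ_ex_inv hY, Matrix.transpose_mul, ← Matrix.exp_transpose,
    hs.neg.eq, mul_assoc, ← mul_assoc (D.ρ x)ᵀ, ← he]
  have h1 : exp W = exp ((1 / 2 : ℝ) • W) * exp ((1 / 2 : ℝ) • W) := by
    have := exp_add_smul W (1 / 2) (1 / 2)
    rwa [add_halves, one_smul] at this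
  have h2 : exp ((1 / 2 : ℝ) • W) * exp (-((1 / 2 : ℝ) • W)) = 1 := exp_mul_neg _
  have h3 : exp (-((1 / 2 : ℝ) • W)) * exp ((1 / 2 : ℝ) • W) = 1 := exp_neg_mul _
  rw [h1, mul_assoc, h2, mul_one, h3]

theorem kak_chamber {H : Euc k} (hH : D.Reg H) (x : G) : ∃ y ∈ D.K, ∃ z ∈ D.K, ∃ s,
    x = y * D.a s * z ∧ ∀ β ∈ D.roots, 0 < ⟪β, H⟫ → 0 ≤ ⟪β, s⟫ := by
  obtain ⟨y, hy, Y, hY, hs, rfl⟩ := D.polar x
  obtain ⟨w, hw, t, ht, hc⟩ := D.conj_chamber hH hY hs
  refine ⟨y * w⁻¹, D.K.mul_mem hy (D.K.inv_mem hw), w, hw, t, ?_, hc⟩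
  rw [a, ← ht, ← D.conj_ex w hY]
  group

theorem kak (x : G) : ∃ y ∈ D.K, ∃ z ∈ D.K, ∃ s, x = y * D.a s * z := by
  obtain ⟨H, hH⟩ := D.exists_reg
  obtain ⟨y, hy, z, hz, s, h, -⟩ := D.kak_chamber hH x
  exact ⟨y, hy, z, hz, s, h⟩

omit [PreconnectedSpace G] in
theorem Polar_norm {y z x : G} (hy : y ∈ D.K) (hz : z ∈ D.K) {R : ℝ}
    (h : ‖D.ρ (y * x * z)‖ ≤ Real.exp R) : ‖D.ρ x‖ ≤ Real.exp (R + 2 * n) := by
  have e : x = y⁻¹ * (y * x * z) * z⁻¹ := by group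
  have hn : (n : ℝ) ≤ Real.exp n := (le_add_of_nonneg_right zero_le_one).trans
    (Real.add_one_le_exp _)
  have h1 := (D.norm_ρ_K (D.K.inv_mem hy)).trans hn
  have h2 := (D.norm_ρ_K (D.K.inv_mem hz)).trans hn
  calc ‖D.ρ x‖ = ‖D.ρ y⁻¹ * D.ρ (y * x * z) * D.ρ z⁻¹‖ := by rw [← map_mul, ← map_mul, ← e]
    _ ≤ ‖D.ρ y⁻¹‖ * ‖D.ρ (y * x * z)‖ * ‖D.ρ z⁻¹‖ := norm_mul₃_le
    _ ≤ Real.exp n * Real.exp R * Real.exp n := by gcongr
    _ = Real.exp (R + 2 * n) := by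
      rw [← Real.exp_add, ← Real.exp_add]
      congr 1
      ring

theorem kak_norm : ∃ C : ℝ, ∀ y ∈ D.K, ∀ z ∈ D.K, ∀ s, ∀ R : ℝ, 0 ≤ R →
    ‖D.ρ (y * D.a s * z)‖ ≤ Real.exp R → ‖D.ρ (y * D.a s * z)⁻¹‖ ≤ Real.exp R →
      ‖s‖ ≤ C * (R + 1) := by
  refine ⟨n * (2 * n + 1), fun y hy z hz s R hR h h' => ?_⟩
  have e : (y * D.a s * z)⁻¹ = z⁻¹ * (D.a s)⁻¹ * y⁻¹ := by group
  rw [e] at h'
  have := D.norm_le_of_ρ_a (D.Polar_norm hy hz h)
    (D.Polar_norm (D.K.inv_mem hz) (D.K.inv_mem hy) h')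
  refine this.trans ?_
  have hn : (0 : ℝ) ≤ n := Nat.cast_nonneg n
  rw [mul_assoc]
  refine mul_le_mul_of_nonneg_left ?_ hn
  nlinarith [mul_nonneg hn hR]

omit [PreconnectedSpace G] in
theorem Polar_Ad {x : G} (h : ∀ y, x * y = y * x) {X : Mat n} (hX : X ∈ D.g) : D.Ad x X = X := by
  refine eq_of_exp_smul_eq (A := Mat n) (Eventually.of_forall fun t => ?_)
  have ht := D.g.smul_mem t hX
  have := congrArg D.ρ (D.conj_ex x ht)
  rw [h, mul_inv_cancel_right, D.ρ_ex _ ht, D.ρ_ex _ (D.Ad_mem x ht), map_smul] at this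
  exact this.symm

/-- An element that acts trivially in the adjoint representation is central and lies in `K`. -/
theorem mem_K_of_central {x : G} (h : ∀ y, x * y = y * x) : x ∈ D.K := by
  obtain ⟨y, hy, z, hz, s, e⟩ := D.kak x
  have hk : (z * y)⁻¹ ∈ D.K := D.K.inv_mem (D.K.mul_mem hz hy)
  have ea : D.a s = (z * y)⁻¹ * x := by
    have : z * x = x * z := (h z).symm
    calc D.a s = (z * y)⁻¹ * (z * (y * D.a s * z)) * z⁻¹ := by group
      _ = (z * y)⁻¹ * x := by rw [← e, this]; group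
  have hs : s = 0 := by
    refine D.roots_span fun β hβ => ?_
    obtain ⟨E, hE, h0⟩ := D.exists_ne_zero hβ
    have h1 := D.ip_Ad_K hk E E
    have h2 : D.Ad (z * y)⁻¹ E = Real.exp ⟪β, s⟫ • E := by
      rw [← D.Ad_a_gr s hE, ea, D.Ad_mul, D.Polar_Ad h (D.gr_le β hE)]
    rw [h2, ip_smul_left, ip_smul_right, ← mul_assoc, ← Real.exp_add,
      mul_eq_right₀ (ip_self_pos h0).ne', Real.exp_eq_one_iff] at h1
    linarith
  rw [e, hs, D.a_zero, mul_one]
  exact D.K.mul_mem hy hz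

end Std

end Pool.Agent.P.MP_d483fb_an.Z

end

end

section

/-! The group data for the averaging theorem. -/

set_option linter.unusedSectionVars false

open scoped Matrix Matrix.Norms.Operator InnerProductSpace RealInnerProductSpace Topology
open NormedSpace Filter Set

noncomputable section

namespace Pool.Agent.P.MP_d483fb_an.Z

theorem STData_br_add {n : ℕ} (X Y Z : Mat n) : ⁅X, Y + Z⁆ = ⁅X, Y⁆ + ⁅X, Z⁆ := by
  simp only [Ring.lie_def, mul_add, add_mul]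
  abel

theorem STData_add_br {n : ℕ} (X Y Z : Mat n) : ⁅X + Y, Z⁆ = ⁅X, Z⁆ + ⁅Y, Z⁆ := by
  simp only [Ring.lie_def, mul_add, add_mul]
  abel

theorem STData_br_smul {n : ℕ} (c : ℝ) (X Y : Mat n) : ⁅X, c • Y⁆ = c • ⁅X, Y⁆ := by
  simp only [Ring.lie_def, mul_smul_comm, smul_mul_assoc, smul_sub]

theorem STData_smul_br {n : ℕ} (c : ℝ) (X Y : Mat n) : ⁅c • X, Y⁆ = c • ⁅X, Y⁆ := by
  simp only [Ring.lie_def, mul_smul_comm, smul_mul_assoc, smul_sub]

theorem STData_br_self {n : ℕ} (X : Mat n) : ⁅X, X⁆ = 0 := sub_self _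

theorem STData_br_zero {n : ℕ} (X : Mat n) : ⁅X, (0 : Mat n)⁆ = 0 := by
  rw [Ring.lie_def, mul_zero, zero_mul, sub_zero]

theorem STData_br_comm {n : ℕ} {X Y : Mat n} (h : ⁅X, Y⁆ = 0) : ⁅Y, X⁆ = 0 := by
  rw [Ring.lie_def, sub_eq_zero] at h ⊢
  exact h.symm

theorem STData_sz_pow {G : Type} [Group G] {sz dd : G → ℝ} (hs : ST.Size sz dd) (g : G) (m : ℕ) :
    sz (g ^ m) ≤ sz 1 * sz g ^ m := by
  induction m with
  | zero => simp
  | succ m ih =>
    rw [pow_succ, pow_succ, ← mul_assoc]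
    exact (hs.mul _ _).trans (mul_le_mul_of_nonneg_right ih (zero_le_one.trans (hs.one_le _)))

namespace Std

variable {G : Type} [Group G] [TopologicalSpace G] [IsTopologicalGroup G] [PreconnectedSpace G]
  {n k : ℕ} (D : Std G n k)

theorem STData_ball {sz dd : G → ℝ} (hs : ST.Size sz dd)
    (hd : ∃ C : ℝ, ∀ X ∈ D.g, ‖X‖ ≤ 1 → dd (D.ex X) ≤ C * ‖X‖) :
    ∃ B : ℝ, ∀ X ∈ D.g, ‖X‖ ≤ 1 → sz (D.ex X) ≤ B := by
  obtain ⟨C, hC⟩ := hd
  obtain ⟨L, hL⟩ := hs.loc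
  obtain ⟨N, hN⟩ := exists_nat_ge (max 1 |C|)
  have h1 : (1 : ℝ) ≤ N := (le_max_left _ _).trans hN
  have h2 : |C| ≤ N := (le_max_right _ _).trans hN
  have h0 : (0 : ℝ) < N := one_pos.trans_le h1
  refine ⟨sz 1 * L ^ N, fun X hX h => ?_⟩
  have hY : (N : ℝ)⁻¹ • X ∈ D.g := D.g.smul_mem _ hX
  have hn : ‖(N : ℝ)⁻¹ • X‖ ≤ (N : ℝ)⁻¹ := by
    rw [norm_smul, Real.norm_of_nonneg (inv_nonneg.2 h0.le)]
    exact mul_le_of_le_one_right (inv_nonneg.2 h0.le) h
  have e : D.ex X = D.ex ((N : ℝ)⁻¹ • X) ^ N := by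
    rw [← D.ex_nsmul hY, smul_smul, mul_inv_cancel₀ h0.ne', one_smul]
  have h3 : dd (D.ex ((N : ℝ)⁻¹ • X)) ≤ 1 := by
    refine (hC _ hY (hn.trans (inv_le_one_of_one_le₀ h1))).trans ?_
    refine (mul_le_mul (le_abs_self C) hn (norm_nonneg _) (abs_nonneg C)).trans ?_
    rw [← div_eq_mul_inv, div_le_one h0]
    exact h2
  rw [e]
  exact (STData_sz_pow hs _ _).trans (mul_le_mul_of_nonneg_left
    (pow_le_pow_left₀ (zero_le_one.trans (hs.one_le _)) (hL _ h3) _)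
    (zero_le_one.trans (hs.one_le _)))

theorem STData_poly {sz dd : G → ℝ} (hs : ST.Size sz dd)
    (hd : ∃ C : ℝ, ∀ X ∈ D.g, ‖X‖ ≤ 1 → dd (D.ex X) ≤ C * ‖X‖) (H : Euc k) :
    ∃ (C : ℝ) (E : ℕ), 0 ≤ C ∧ ∀ Y ∈ D.np H, sz (D.ex Y) ≤ C * (1 + ‖Y‖) ^ E := by
  obtain ⟨B, hB⟩ := D.STData_ball hs hd
  obtain ⟨C, hC⟩ := D.ex_eq_conj H
  have hp : ∀ g, 0 ≤ sz g := fun g => zero_le_one.trans (hs.one_le g)
  have hB0 : 0 ≤ B := (hp _).trans (hB 0 D.g.zero_mem (by simp))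
  set A := sz (D.a H) with hA
  have hA1 : 1 ≤ A := hs.one_le _
  have hl : 0 ≤ Real.log A := Real.log_nonneg hA1
  obtain ⟨E, hE⟩ := exists_nat_ge (|C| * Real.log A)
  refine ⟨(sz 1 * Real.exp E) ^ 2 * B, 2 * E, mul_nonneg (sq_nonneg _) hB0, fun Y hY => ?_⟩
  obtain ⟨m, Z, hZ, hZ1, hm, e⟩ := hC Y hY
  have hy : 1 ≤ 1 + ‖Y‖ := le_add_of_nonneg_right (norm_nonneg _)
  have hly : 0 ≤ Real.log (1 + ‖Y‖) := Real.log_nonneg hy
  have h1 : A ^ m ≤ Real.exp E * (1 + ‖Y‖) ^ E := by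
    have e1 : A ^ m = Real.exp (m * Real.log A) := by
      rw [Real.exp_nat_mul, Real.exp_log (one_pos.trans_le hA1)]
    have e2 : (1 + ‖Y‖) ^ E = Real.exp (E * Real.log (1 + ‖Y‖)) := by
      rw [Real.exp_nat_mul, Real.exp_log (one_pos.trans_le hy)]
    rw [e1, e2, ← Real.exp_add, Real.exp_le_exp]
    have h2 : (m : ℝ) ≤ |C| * (1 + Real.log (1 + ‖Y‖)) :=
      hm.trans (mul_le_mul_of_nonneg_right (le_abs_self C) (by linarith))
    calc (m : ℝ) * Real.log A ≤ |C| * (1 + Real.log (1 + ‖Y‖)) * Real.log A :=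
          mul_le_mul_of_nonneg_right h2 hl
      _ = |C| * Real.log A * (1 + Real.log (1 + ‖Y‖)) := by ring
      _ ≤ E * (1 + Real.log (1 + ‖Y‖)) := mul_le_mul_of_nonneg_right hE (by linarith)
      _ = _ := by ring
  have h2 : sz (D.a H ^ m) ≤ sz 1 * Real.exp E * (1 + ‖Y‖) ^ E := by
    rw [mul_assoc]
    exact (STData_sz_pow hs _ _).trans (mul_le_mul_of_nonneg_left h1 (hp _))
  have h3 : sz (D.ex Z) ≤ B := hB Z (D.grS_le _ hZ) hZ1
  calc sz (D.ex Y) ≤ sz (D.a H ^ m) * sz (D.ex Z) * sz (D.a H ^ m) := by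
        rw [e]
        refine (hs.mul _ _).trans ?_
        rw [hs.inv]
        exact mul_le_mul_of_nonneg_right (hs.mul _ _) (hp _)
    _ = sz (D.a H ^ m) ^ 2 * sz (D.ex Z) := by ring
    _ ≤ (sz 1 * Real.exp E * (1 + ‖Y‖) ^ E) ^ 2 * B :=
        mul_le_mul (pow_le_pow_left₀ (hp _) h2 2) h3 (hp _) (sq_nonneg _)
    _ = _ := by ring

/-- The exponential of a combination of three matrices. -/
def STData_e (z x u : Mat n) (v : ST.V3) : G := D.ex (v 0 • z + v 1 • x + v 2 • u)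

theorem STData_unip {sz dd : G → ℝ} (hs : ST.Size sz dd)
    (hd : ∃ C : ℝ, ∀ X ∈ D.g, ‖X‖ ≤ 1 → dd (D.ex X) ≤ C * ‖X‖) {H : Euc k} {z x u : Mat n}
    (hz : z ∈ D.np H) (hx : x ∈ D.np H) (hu : u ∈ D.np H) (h1 : ⁅z, x⁆ = 0) (h2 : ⁅z, u⁆ = 0)
    (h3 : ⁅x, u⁆ = 0) : ST.Unip sz (D.STData_e z x u) := by
  have hm : ∀ v : ST.V3, v 0 • z + v 1 • x + v 2 • u ∈ D.np H := fun v =>
    add_mem (add_mem (Submodule.smul_mem _ _ hz) (Submodule.smul_mem _ _ hx))
      (Submodule.smul_mem _ _ hu)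
  have hg : ∀ v : ST.V3, v 0 • z + v 1 • x + v 2 • u ∈ D.g := fun v => D.grS_le _ (hm v)
  refine ⟨fun v w => ?_, ?_, ?_⟩
  · rw [STData_e, STData_e, STData_e, ← D.ex_add_of_commute (hg v) (hg w)]
    · congr 1
      simp only [Pi.add_apply, add_smul]
      abel
    · simp only [STData_br_add, STData_add_br, STData_br_smul, STData_smul_br, STData_br_self,
        h1, h2, h3, STData_br_comm h1, STData_br_comm h2, STData_br_comm h3, smul_zero, add_zero]
  · exact D.ex_cont.comp_continuous (by fun_prop) hg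
  · obtain ⟨C, E, hC, h⟩ := D.STData_poly hs hd H
    refine ⟨C * (1 + (‖z‖ + ‖x‖ + ‖u‖)) ^ E, E, fun v => (h _ (hm v)).trans ?_⟩
    rw [mul_assoc, ← mul_pow]
    refine mul_le_mul_of_nonneg_left (pow_le_pow_left₀ (by positivity) ?_ _) hC
    have hv : ∀ i (Y : Mat n), ‖v i • Y‖ ≤ ‖v‖ * ‖Y‖ := fun i Y => by
      rw [norm_smul]
      exact mul_le_mul_of_nonneg_right (norm_le_pi_norm v i) (norm_nonneg _)
    have h4 := (norm_add₃_le (a := v 0 • z) (b := v 1 • x) (c := v 2 • u)).trans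
      (add_le_add (add_le_add (hv 0 z) (hv 1 x)) (hv 2 u))
    nlinarith [norm_nonneg z, norm_nonneg x, norm_nonneg u, norm_nonneg v]

theorem STData_lip {sz dd : G → ℝ} (hs : ST.Size sz dd)
    (hd : ∃ C : ℝ, ∀ X ∈ D.g, ‖X‖ ≤ 1 → dd (D.ex X) ≤ C * ‖X‖) {β : Euc k} (hβ : β ≠ 0)
    {w : Mat n} (hw : w ∈ D.gr β) : ST.LipAt dd fun s => D.ex (s • w) := by
  obtain ⟨C, hC⟩ := hd
  have hb : ⟪β, β⟫ ≠ 0 := fun h => hβ (inner_self_eq_zero.1 h)
  have hp : 0 < ‖w‖ + 1 := by positivity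
  set g := D.a ((Real.log (‖w‖ + 1) / ⟪β, β⟫) • β) with hg
  refine ⟨sz g⁻¹ ^ 2 * (C * (‖w‖ / (‖w‖ + 1))), fun s h => ?_⟩
  have hm : (s / (‖w‖ + 1)) • w ∈ D.gr β := Submodule.smul_mem _ _ hw
  have e : D.ex (s • w) = g⁻¹⁻¹ * D.ex ((s / (‖w‖ + 1)) • w) * g⁻¹ := by
    rw [inv_inv, hg, D.a_conj_ex _ hm, inner_smul_right, div_mul_cancel₀ _ hb, Real.exp_log hp,
      smul_smul, mul_div_cancel₀ _ hp.ne']
  have e2 : ‖(s / (‖w‖ + 1)) • w‖ = ‖w‖ / (‖w‖ + 1) * |s| := by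
    rw [norm_smul, Real.norm_eq_abs, abs_div, abs_of_pos hp]
    ring
  have h1 : ‖(s / (‖w‖ + 1)) • w‖ ≤ 1 := by
    rw [e2]
    exact mul_le_one₀ ((div_le_one hp).2 (by linarith)) (abs_nonneg _) h
  have h2 := hC _ (D.gr_le β hm) h1
  rw [e2] at h2
  change dd (D.ex (s • w)) ≤ _
  rw [e, mul_assoc (sz g⁻¹ ^ 2), mul_assoc C]
  exact (hs.conj _ _).trans (mul_le_mul_of_nonneg_left h2 (sq_nonneg _))

theorem STData_contr {sz dd : G → ℝ} (hs : ST.Size sz dd)
    (hd : ∃ C : ℝ, ∀ X ∈ D.g, ‖X‖ ≤ 1 → dd (D.ex X) ≤ C * ‖X‖) {β H : Euc k} (h : ⟪β, H⟫ < 0)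
    {w : Mat n} (hw : w ∈ D.gr β) : ST.Contr dd (D.a H) (D.ex w) := by
  obtain ⟨C, hC⟩ := D.STData_lip hs hd (β := β) (by rintro rfl; simp at h) hw
  have h0 := (Real.exp_pos ⟪β, H⟫).le
  have h1 : Real.exp ⟪β, H⟫ < 1 := Real.exp_lt_one_iff.2 h
  refine ⟨C, Real.exp ⟪β, H⟫, h0, h1, fun m => ?_⟩
  have h2 := hC (Real.exp ⟪β, H⟫ ^ m) (by
    rw [abs_of_nonneg (pow_nonneg h0 m)]
    exact pow_le_one₀ h0 h1.le)
  rw [abs_of_nonneg (pow_nonneg h0 m)] at h2
  rwa [← D.a_nsmul, D.a_conj_ex _ hw, inner_smul_right, Real.exp_nat_mul]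

theorem STData_conj {w V : Mat n} (hw : w ∈ D.g) (hV : V ∈ D.g) (h : ⁅w, ⁅w, ⁅w, V⁆⁆⁆ = 0) :
    D.ex w * D.ex V = D.ex (V + ⁅w, V⁆ + (1 / 2 : ℝ) • ⁅w, ⁅w, V⁆⁆) * D.ex w := by
  have e : exp w * V * exp (-w) = V + ⁅w, V⁆ + (1 / 2 : ℝ) • ⁅w, ⁅w, V⁆⁆ := conj_nil3 h
  rw [← e, ← D.Ad_ex hw, ← D.conj_ex _ hV, inv_mul_cancel_right]

theorem STData_sh {z x w : Mat n} (hz : z ∈ D.g) (hx : x ∈ D.g) (hw : w ∈ D.g) (h1 : ⁅w, z⁆ = x)
    (h2 : ⁅w, ⁅w, x⁆⁆ = 0) (s : ℝ) (v : ST.V3) : D.ex (s • w) * D.STData_e z x ⁅w, x⁆ v =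
      D.STData_e z x ⁅w, x⁆ (ST.sh s v) * D.ex (s • w) := by
  obtain ⟨u, hu⟩ : ∃ u, u = ⁅w, x⁆ := ⟨_, rfl⟩
  have hug : u ∈ D.g := hu ▸ D.br_mem hw hx
  rw [← hu] at h2 ⊢
  rw [STData_e, STData_e, D.STData_conj (D.g.smul_mem _ hw) (add_mem (add_mem (D.g.smul_mem _ hz)
    (D.g.smul_mem _ hx)) (D.g.smul_mem _ hug))]
  · congr 2
    simp only [STData_br_add, STData_br_smul, STData_smul_br, h1, ← hu, h2, ST.sh,
      STData_br_zero, Matrix.cons_val_zero, Matrix.cons_val_one, Matrix.cons_val]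
    module
  · simp only [STData_br_add, STData_br_smul, STData_smul_br, h1, ← hu, h2, smul_zero,
      add_zero]

theorem STData_data {sz dd : G → ℝ} (hs : ST.Size sz dd)
    (hd : ∃ C : ℝ, ∀ X ∈ D.g, ‖X‖ ≤ 1 → dd (D.ex X) ≤ C * ‖X‖) {b : Euc k} (hb : b ∈ D.roots)
    (hl : ∀ δ ∈ D.roots, ⟪δ, b⟫ ≠ 0 → ‖δ‖ ≤ ‖b‖) :
    ∃ T : ST.Data sz dd, T.a = D.a (Real.log 2 • (2 / ⟪b, b⟫) • b) := by
  obtain ⟨a, c, x, y, z, w, w', f, -, ha, hc, hac, hca, hx, hy, hz, hw, hw', hf, xy, zx, zy, wz,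
    wx, zu, xu, wz', wy, zv, yv, zf⟩ := D.exists_stLie hb hl
  have a0 : a ≠ 0 := by rintro rfl; simp at ha
  have c0 : c ≠ 0 := by rintro rfl; simp at hc
  have b0 := D.root_ne_zero hb
  have bb : ⟪b, b⟫ ≠ 0 := fun h => b0 (inner_self_eq_zero.1 h)
  have np : ∀ {β H : Euc k} {X : Mat n}, X ∈ D.gr β → 0 < ⟪β, H⟫ → X ∈ D.np H := fun h h' =>
    D.gr_le_grS (S := {γ | 0 < ⟪γ, _⟫}) h' h
  have gx := D.gr_le _ hx
  have gy := D.gr_le _ hy
  have gz := D.gr_le _ hz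
  have gf := D.gr_le _ hf
  refine ⟨⟨D.STData_e z x ⁅w, x⁆, D.STData_e z y ⁅w', y⁆, fun s => D.ex (s • w),
    fun s => D.ex (s • w'), fun s => D.ex (s • f), D.a (Real.log 2 • (2 / ⟪b, b⟫) • b),
    D.STData_unip hs hd (H := a) (np hz (by rwa [real_inner_comm]))
      (np hx (real_inner_self_pos.2 a0)) (np (D.br_gr hw hx) (by rwa [neg_add_eq_sub])) zx zu xu,
    D.STData_unip hs hd (H := c) (np hz (by rwa [real_inner_comm]))
      (np hy (real_inner_self_pos.2 c0)) (np (D.br_gr hw' hy) (by rwa [neg_add_eq_sub])) zy zv yv,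
    D.STData_lip hs hd (neg_ne_zero.2 c0) hw, D.STData_lip hs hd (neg_ne_zero.2 a0) hw',
    D.STData_lip hs hd (neg_ne_zero.2 b0) hf, fun t => by simp [STData_e],
    D.STData_sh gz gx (D.gr_le _ hw) wz wx, D.STData_sh gz gy (D.gr_le _ hw') wz' wy,
    fun s t r => ?_, fun d hd0 => ?_⟩, rfl⟩
  · simp only [STData_e, Matrix.cons_val_zero, Matrix.cons_val_one, Matrix.cons_val, zero_smul,
      add_zero, zero_add]
    rw [D.STData_conj (D.g.smul_mem _ gx) (add_mem (D.g.smul_mem _ gz) (D.g.smul_mem _ gy))]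
    · congr 2
      simp only [STData_br_add, STData_br_smul, STData_smul_br, xy, STData_br_comm zx,
        STData_br_zero]
      module
    · simp only [STData_br_add, STData_br_smul, STData_smul_br, xy, STData_br_comm zx,
        STData_br_zero, smul_zero, zero_add]
  · have h2 : 1 + d⁻¹ * d = 2 := by rw [inv_mul_cancel₀ hd0.ne']; norm_num
    have h := D.ex_sl2 gz gf (h := D.dg ((2 / ⟪b, b⟫) • b))
      (by rw [D.br_dg hz, inner_smul_right, div_mul_cancel₀ _ bb])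
      (by rw [D.br_dg hf, inner_neg_left, inner_smul_right, div_mul_cancel₀ _ bb, neg_smul]) zf
      (s := d⁻¹) (t := d) (by rw [h2]; norm_num)
    have h3 := D.a_conj_ex (Real.log 2 • (2 / ⟪b, b⟫) • b) (Submodule.smul_mem _ (2 * d) hf)
    have e : Real.exp ⟪-b, Real.log 2 • (2 / ⟪b, b⟫) • b⟫ • (2 * d) • f = (d / 2) • f := by
      rw [inner_neg_left, inner_smul_right, inner_smul_right, div_mul_cancel₀ _ bb, smul_smul,
        Real.exp_neg, mul_two, Real.exp_add, Real.exp_log two_pos]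
      congr 1
      ring
    rw [e, mul_inv_eq_iff_eq_mul] at h3
    simp only [STData_e, Matrix.cons_val_zero, Matrix.cons_val_one, Matrix.cons_val, zero_smul,
      add_zero]
    rw [h, h2, h3, mul_assoc, ← D.ex_add_smul gz, ← map_smul,
      show d⁻¹ / 2 + -(2 * d)⁻¹ = 0 by ring, zero_smul, D.ex_zero, mul_one]
    rfl

theorem exists_stData {sz dd : G → ℝ} (hs : ST.Size sz dd)
    (hd : ∃ C : ℝ, ∀ X ∈ D.g, ‖X‖ ≤ 1 → dd (D.ex X) ≤ C * ‖X‖) :
    ∃ (ι : Type) (_ : Finite ι) (T : ι → ST.Data sz dd) (N : ι → Subgroup G),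
      (∀ i, (N i).Normal) ∧
      (∀ i (S : Subgroup G), IsClosed (S : Set G) →
        (∀ g, ST.Contr dd (T i).a g ∨ ST.Contr dd (T i).a⁻¹ g → g ∈ S) → N i ≤ S) ∧
      ∀ S : Subgroup G, IsClosed (S : Set G) → (∀ i, N i ≤ S) → S = ⊤ := by
  choose b hb hc hl using fun i : D.roots => D.exists_longest i.2
  choose T hT using fun i : D.roots => D.STData_data hs hd (hb i) (hl i)
  refine ⟨D.roots, inferInstance, T, fun i => D.grp (D.fac (b i)), fun i => D.grp_fac_normal _,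
    fun i S hS h => ?_, fun S _ h => ?_⟩
  · have bb : 0 < ⟪b i, b i⟫ := real_inner_self_pos.2 (D.root_ne_zero (hb i))
    have hq := D.lie_isSub S
    refine D.grp_le hS (D.fac_le hq fun γ hγ => D.gen_conn hq (s := b i) (fun δ _ hδ => ?_) (hb i)
      bb.ne' hγ.2)
    refine D.le_lie (D.gr_le δ) fun X hX => h _ ?_
    have hp : 0 < Real.log 2 * (2 / ⟪b i, b i⟫) := mul_pos (Real.log_pos one_lt_two) (by positivity)
    rw [hT, ← D.a_neg]
    rcases lt_or_gt_of_ne hδ with h1 | h1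
    · refine Or.inl (D.STData_contr hs hd ?_ hX)
      rw [smul_smul, inner_smul_right]
      exact mul_neg_of_pos_of_neg hp h1
    · refine Or.inr (D.STData_contr hs hd ?_ hX)
      rw [smul_smul, inner_neg_right, inner_smul_right]
      exact neg_neg_of_pos (mul_pos hp h1)
  · refine D.eq_top_of_roots fun β hβ X hX => h ⟨β, hβ⟩ (Subgroup.subset_closure ⟨X, ?_, rfl⟩)
    exact Submodule.mem_sup_left (D.gr_le_grS (S := D.facR (b ⟨β, hβ⟩))
      ⟨hβ, D.conn_symm (hc ⟨β, hβ⟩)⟩ hX)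

end Std

end Pool.Agent.P.MP_d483fb_an.Z

end

end

section

/-!
Property (T) for a normed group with the data of the averaging theorem.
-/

open scoped Topology
open Filter Set

noncomputable section

namespace Pool.Agent.P.MP_d483fb_an.Z

variable {G : Type} [Group G] [TopologicalSpace G]

theorem Nm.size (N : Nm G) : ST.Size (fun g => Real.exp (N.len g)) N.len where
  one_le g := Real.one_le_exp (N.nonneg g)
  mul g h := by
    rw [← Real.exp_add]
    exact Real.exp_le_exp.mpr (N.mul g h)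
  inv g := by rw [N.inv]
  dd_nonneg := N.nonneg
  conj g h := by
    have := N.conj h⁻¹ g
    rwa [inv_inv, N.inv, show 2 * N.len h = (2 : ℕ) * N.len h by norm_num,
      Real.exp_nat_mul] at this
  loc := ⟨Real.exp 1, fun _ h => Real.exp_le_exp.mpr h⟩

theorem Nm.appT [IsTopologicalGroup G] [LocallyCompactSpace G] [T2Space G] (N : Nm G) {ι : Type}
    [Finite ι] (T : ι → ST.Data (fun g => Real.exp (N.len g)) N.len) (L : ι → Subgroup G)
    (hn : ∀ i, (L i).Normal)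
    (hN : ∀ i (S : Subgroup G), IsClosed (S : Set G) →
      (∀ g, ST.Contr N.len (T i).a g ∨ ST.Contr N.len (T i).a⁻¹ g → g ∈ S) → L i ≤ S)
    (htop : ∀ S : Subgroup G, IsClosed (S : Set G) → (∀ i, L i ≤ S) → S = ⊤) :
    TZ.AppT fun g => Real.exp (N.len g) := by
  intro H _ _ _ π hπ ξ
  have hs : tsupport (fun g => max 0 (1 - N.len g)) ⊆ {g | N.len g ≤ 1} := by
    refine closure_minimal (fun g hg => ?_) (N.cpt 1).isClosed
    by_contra hc
    exact hg (max_eq_left (by simpa using (not_le.mp hc).le))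
  refine ST.strongT N.size hπ T L hn hN htop (fun g => max 0 (1 - N.len g))
    (continuous_const.max (continuous_const.sub N.cont))
    ((N.cpt 1).of_isClosed_subset (isClosed_tsupport _) hs) (fun _ => le_max_left _ _)
    (by simp [N.one]) ⟨1, fun g h _ => ?_⟩ ⟨Real.exp 1, fun g hg => Real.exp_le_exp.mpr (hs hg)⟩ ξ
  rw [max_comm, max_comm 0, one_mul]
  refine (abs_max_sub_max_le_abs _ _ _).trans (abs_le.mpr ⟨?_, ?_⟩)
  · have := N.mul g⁻¹ h
    rw [N.inv] at this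
    linarith
  · have := N.mul g (g⁻¹ * h)
    rw [mul_inv_cancel_left] at this
    linarith

theorem Nm.kazG (N : Nm G) (hA : TZ.AppT fun g => Real.exp (N.len g)) : TZ.KazG G :=
  TZ.kazG_of_appT N.size.one_le (fun R => ⟨_, N.cpt (Real.log R), fun _ hg =>
    (Real.le_log_iff_exp_le ((Real.exp_pos _).trans_le hg)).mpr hg⟩) hA

end Pool.Agent.P.MP_d483fb_an.Z

end

end

section

/-!
Property (T) for a group in standard form and for its lattices.
-/

namespace Pool.Agent.P.MP_d483fb_an.Z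

variable {G : Type} [Group G] [TopologicalSpace G] [IsTopologicalGroup G] [ConnectedSpace G]
  [T2Space G] [LocallyCompactSpace G] {n k : ℕ}

theorem Std.appT (D : Std G n k) : TZ.AppT fun g => Real.exp (D.len g) := by
  obtain ⟨ι, _, T, N, h1, h2, h3⟩ := D.exists_stData D.nm.size
    ⟨1, fun X hX _ => (D.len_ex_le hX).trans_eq (one_mul _).symm⟩
  exact D.nm.appT T N h1 h2 h3

theorem Std.kazG (D : Std G n k) : TZ.KazG G := D.nm.kazG D.appT

theorem Std.hasT [SecondCountableTopology G] (D : Std G n k) {Γ : Subgroup G}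
    (hΓ : IsLattice Γ) : TZ.HasT Γ := TZ.hasT_of_lattice Γ D.kazG hΓ

end Pool.Agent.P.MP_d483fb_an.Z


end
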