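import Pool.Agent.P.MP_d483fb_an.M.A08
import Pool.Agent.P.MP_d483fb_an.M.A22

section

/-!
Normal forms: the inverse of a jet with invertible linear part.
-/

open MvPolynomial Filter Topology Real

noncomputable section

namespace Pool.Agent.P.MP_d483fb_an.Z.NF

variable {D r : ℕ}

section alg

variable {φ : MvPolynomial (Fin D) ℝ →ₐ[ℝ] MvPolynomial (Fin D) ℝ}

theorem PInv_mul {k l : ℕ} {a b : MvPolynomial (Fin D) ℝ}
    (ha : a ∈ idealOfVars (Fin D) ℝ ^ k) (ha' : φ a - a ∈ idealOfVars (Fin D) ℝ ^ (k + 1))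
    (hb : b ∈ idealOfVars (Fin D) ℝ ^ l) (hb' : φ b - b ∈ idealOfVars (Fin D) ℝ ^ (l + 1)) :
    φ (a * b) - a * b ∈ idealOfVars (Fin D) ℝ ^ (k + l + 1) := by
  have h1 : φ b ∈ idealOfVars (Fin D) ℝ ^ l := by
    have := add_mem (Ideal.pow_le_pow_right (Nat.le_succ l) hb') hb
    rwa [sub_add_cancel] at this
  have e : φ (a * b) - a * b = (φ a - a) * φ b + a * (φ b - b) := by
    rw [map_mul]
    ring
  rw [e]
  refine add_mem ?_ ?_
  · rw [show k + l + 1 = (k + 1) + l by ring, pow_add]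
    exact Ideal.mul_mem_mul ha' h1
  · rw [add_assoc, pow_add]
    exact Ideal.mul_mem_mul ha hb'

theorem PInv_alg (h : ∀ j, φ (X j) - X j ∈ idealOfVars (Fin D) ℝ ^ 2) (k : ℕ) :
    ∀ p ∈ idealOfVars (Fin D) ℝ ^ k, φ p - p ∈ idealOfVars (Fin D) ℝ ^ (k + 1) := by
  have hX : ∀ j, (X j : MvPolynomial (Fin D) ℝ) ∈ idealOfVars (Fin D) ℝ ^ 1 := fun j => by
    rw [pow_one]
    exact Ideal.subset_span ⟨j, rfl⟩
  have hadd : ∀ a b : MvPolynomial (Fin D) ℝ, φ (a + b) - (a + b) = (φ a - a) + (φ b - b) :=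
    fun a b => by
      rw [map_add]
      ring
  have h00 : ∀ p : MvPolynomial (Fin D) ℝ, p ∈ idealOfVars (Fin D) ℝ ^ 0 := fun p => by simp
  have h0 : ∀ p : MvPolynomial (Fin D) ℝ, φ p - p ∈ idealOfVars (Fin D) ℝ ^ (0 + 1) := by
    intro p
    induction p using MvPolynomial.induction_on with
    | C a => simp
    | add p q hp hq =>
      rw [hadd]
      exact add_mem hp hq
    | mul_X p j hp => exact Ideal.pow_le_pow_right (by norm_num) (PInv_mul (h00 p) hp (hX j) (h j))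
  have h1 : ∀ p ∈ idealOfVars (Fin D) ℝ, φ p - p ∈ idealOfVars (Fin D) ℝ ^ (1 + 1) := by
    intro p hp
    induction hp using Submodule.span_induction with
    | mem x hx =>
      obtain ⟨j, rfl⟩ := hx
      exact h j
    | zero => simp
    | add x y _ _ hx hy =>
      rw [hadd]
      exact add_mem hx hy
    | smul a x hx hx' =>
      have h2 : x ∈ idealOfVars (Fin D) ℝ ^ 1 := by
        rw [pow_one]
        exact hx
      have h3 := PInv_mul (h00 a) (h0 a) h2 hx'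
      rw [smul_eq_mul]
      exact h3
  induction k with
  | zero => exact fun p _ => h0 p
  | succ k ih =>
    intro p hp
    rw [pow_succ] at hp
    refine Submodule.mul_induction_on hp (fun a ha b hb => ?_) (fun a b ha hb => ?_)
    · have h2 : b ∈ idealOfVars (Fin D) ℝ ^ 1 := by
        rw [pow_one]
        exact hb
      exact PInv_mul ha (ih a ha) h2 (h1 b hb)
    · rw [hadd]
      exact add_mem ha hb

end alg

theorem PInv_lin_single (t : V D r) (l : Fin D) :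
    lin t (Pi.single l 1) = coeff (Finsupp.single l 1) (toPoly t) := by
  simp [lin, Pi.single_apply]

theorem PInv_two {T : Jt D r} (hT : ∀ w, linv T w = w) (j : Fin D) :
    toPoly (T j) - X j ∈ idealOfVars (Fin D) ℝ ^ 2 := by
  refine (mem_pow_idealOfVars_iff' 2 _).2 fun x hx => ?_
  rw [coeff_sub]
  rcases Nat.eq_zero_or_pos x.degree with h0 | h0
  · rw [coeff_toPoly_of_not _ (by omega), (Finsupp.degree_eq_zero_iff x).1 h0, coeff_zero_X,
      sub_zero]
  · have h1 : x ∈ {d : Fin D →₀ ℕ | d.degree = 1} := show x.degree = 1 by omega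
    rw [← Finsupp.range_single_one] at h1
    obtain ⟨l, rfl⟩ := h1
    rw [← PInv_lin_single, ← linv_apply, hT, coeff_X, Pi.single_apply]
    simp [Finsupp.single_left_inj]

theorem PInv_nil {T : Jt D r} (hT : ∀ w, linv T w = w) : (1 - compL T) ^ r = 0 := by
  have key : ∀ (k : ℕ) (t : V D r) (α : Idx D r), α.1.degree < k →
      ((1 - compL T) ^ k) t α = 0 := by
    intro k
    induction k with
    | zero => exact fun t α h => absurd h (Nat.not_lt_zero _)
    | succ k ih =>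
      intro t α hα
      rw [pow_succ', mul_apply_eq_comp]
      have hu := ih t
      generalize ((1 - compL T) ^ k) t = u at hu
      have hp : toPoly u ∈ idealOfVars (Fin D) ℝ ^ k := by
        refine (mem_pow_idealOfVars_iff' k _).2 fun x hx => ?_
        by_cases hc : 0 < x.degree ∧ x.degree < r
        · exact (coeff_toPoly u ⟨x, hc⟩).trans (hu ⟨x, hc⟩ hx)
        · exact coeff_toPoly_of_not u hc
      have h1 := PInv_alg (φ := bind₁ fun j => toPoly (T j))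
        (fun j => by rw [bind₁_X_right]; exact PInv_two hT j) k _ hp
      have h2 := (mem_pow_idealOfVars_iff' _ _).1 h1 α.1 hα
      rw [coeff_sub, coeff_toPoly] at h2
      show u α - coeff α.1 (bind₁ (fun j => toPoly (T j)) (toPoly u)) = 0
      linarith
  ext t α
  exact key r t α α.2.2

theorem PInv_comm {a b : V D r →L[ℝ] V D r} (h : a * b = 1) : b * a = 1 := by
  have h1 : (a : V D r →ₗ[ℝ] V D r) * (b : V D r →ₗ[ℝ] V D r) = 1 :=
    LinearMap.ext fun t => ContinuousLinearMap.ext_iff.1 h t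
  have h2 := mul_eq_one_comm.1 h1
  exact ContinuousLinearMap.ext fun t => LinearMap.congr_fun h2 t

theorem PInv_compL (S T : Jt D r) : compL (compv S T) = compL T * compL S :=
  ContinuousLinearMap.ext fun t => (comp_assoc t S T).symm

theorem PInv_meas : Measurable fun (Ψ : Jt D r) (i : Fin D) =>
    Ring.inverse (compL Ψ) (idv D r i) := by
  classical
  have hs : IsOpen {Ψ : Jt D r | IsUnit (compL Ψ)} := Units.isOpen.preimage continuous_compL
  have hc : ContinuousOn (fun (Ψ : Jt D r) (i : Fin D) => Ring.inverse (compL Ψ) (idv D r i))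
      {Ψ : Jt D r | IsUnit (compL Ψ)} := by
    rintro Ψ ⟨u, hu⟩
    refine ContinuousAt.continuousWithinAt (continuousAt_pi.2 fun i => ?_)
    have h1 : ContinuousAt (fun Φ : Jt D r => Ring.inverse (compL Φ)) Ψ :=
      ContinuousAt.comp (f := compL) (hu ▸ NormedRing.inverse_continuousAt u)
        continuous_compL.continuousAt
    exact h1.clm_apply continuousAt_const
  have h := hc.measurable_piecewise (g := fun _ => 0) continuousOn_const hs.measurableSet
  have e : (fun (Ψ : Jt D r) (i : Fin D) => Ring.inverse (compL Ψ) (idv D r i)) =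
      Set.piecewise {Ψ : Jt D r | IsUnit (compL Ψ)}
        (fun (Ψ : Jt D r) (i : Fin D) => Ring.inverse (compL Ψ) (idv D r i)) fun _ => 0 := by
    funext Ψ
    by_cases hΨ : Ψ ∈ {Ψ : Jt D r | IsUnit (compL Ψ)}
    · rw [Set.piecewise_eq_of_mem _ _ _ hΨ]
    · rw [Set.piecewise_eq_of_notMem _ _ _ hΨ, Ring.inverse_non_unit _ hΨ]
      rfl
  rw [e]
  exact h

theorem PInv_geom {N : V D r →L[ℝ] V D r} {B : ℝ} (hB : 0 ≤ B)
    (hN : ∀ t, ‖N t‖ ≤ exp B * ‖t‖) (t : V D r) :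
    ‖(∑ k ∈ Finset.range r, N ^ k) t‖ ≤ exp (r + r * B) * ‖t‖ := by
  have h1 : ∀ k : ℕ, ‖(N ^ k) t‖ ≤ exp (k * B) * ‖t‖ := by
    intro k
    induction k with
    | zero => simp
    | succ k ih =>
      rw [pow_succ', mul_apply_eq_comp, Nat.cast_succ, add_mul, one_mul, add_comm,
        exp_add, mul_assoc]
      exact (hN _).trans (mul_le_mul_of_nonneg_left ih (exp_pos _).le)
  rw [_root_.sum_apply]
  refine (norm_sum_le _ _).trans ?_
  refine (Finset.sum_le_card_nsmul _ _ (exp (r * B) * ‖t‖) fun k hk => (h1 k).trans ?_).trans ?_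
  · have hk' : (k : ℝ) ≤ r := by exact_mod_cast (Finset.mem_range.1 hk).le
    gcongr
  · rw [Finset.card_range, nsmul_eq_mul, exp_add, mul_assoc]
    exact mul_le_mul_of_nonneg_right (by linarith [add_one_le_exp (r : ℝ)]) (by positivity)

theorem exists_inv (hr : 2 ≤ r) : ∃ (C : ℝ) (iv : Jt D r → Jt D r), 0 ≤ C ∧ Measurable iv ∧
    ∀ (Ψ : Jt D r) (F : E D →L[ℝ] E D) (R : ℝ), 0 ≤ R → ‖Ψ‖ ≤ exp R → ‖F‖ ≤ exp R →
      (∀ w, linv Ψ (F w) = w) →
      compv Ψ (iv Ψ) = idv D r ∧ compv (iv Ψ) Ψ = idv D r ∧ ‖iv Ψ‖ ≤ exp (C * (1 + R)) := by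
  obtain ⟨A, hA⟩ := exists_pc D r
  have A0 := hA.nonneg
  have r0 : (0 : ℝ) ≤ r := Nat.cast_nonneg r
  refine ⟨r + r * (1 + A + r * A) + r * r * (r + 1) + 1,
    fun Ψ i => Ring.inverse (compL Ψ) (idv D r i), by positivity, PInv_meas, ?_⟩
  intro Ψ F R hR hΨ hF hl
  obtain ⟨G, hG⟩ : ∃ G : Jt D r, G = fun i => ofLin r fun j => F (Pi.single j 1) i := ⟨_, rfl⟩
  have G1 : ‖G‖ ≤ exp R := by
    rw [hG]
    refine (pi_norm_le_iff_of_nonneg (exp_pos R).le).2 fun i => (norm_ofLin_le _).trans ?_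
    refine (pi_norm_le_iff_of_nonneg (exp_pos R).le).2 fun j => (norm_le_pi_norm _ i).trans ?_
    refine (F.le_opNorm _).trans ?_
    rw [Pi.norm_single, norm_one, mul_one]
    exact hF
  have G2 : ∀ w, linv G w = F w := by
    intro w
    funext i
    rw [linv_apply, hG, lin_ofLin hr]
    conv_rhs => rw [pi_eq_sum_univ' w, map_sum, Finset.sum_apply]
    refine Finset.sum_congr rfl fun j _ => ?_
    rw [map_smul, Pi.smul_apply, smul_eq_mul, mul_comm]
  have P1 : ∀ w, linv (compv Ψ G) w = w := fun w => by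
    rw [linv_compv, ContinuousLinearMap.comp_apply, G2, hl]
  have P2 : ‖compv Ψ G‖ ≤ exp (A + (r + 1) * R) := by
    refine (hA.compv_le Ψ G hR G1).trans ?_
    rw [add_mul, one_mul, ← add_assoc, exp_add (A + r * R)]
    exact mul_le_mul_of_nonneg_left hΨ (exp_pos _).le
  have hR' : 0 ≤ A + (r + 1) * R := by positivity
  have N1 : ∀ t, ‖(1 - compL (compv Ψ G)) t‖ ≤ exp (1 + (A + r * (A + (r + 1) * R))) * ‖t‖ := by
    intro t
    have h1 := hA.comp_le t _ _ hR' P2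
    have h2 : 1 ≤ exp (A + r * (A + (r + 1) * R)) := one_le_exp (by positivity)
    have h3 : 2 ≤ exp 1 := by linarith [add_one_le_exp (1 : ℝ)]
    have h4 := norm_nonneg t
    have h5 : ‖(1 - compL (compv Ψ G)) t‖ ≤ ‖t‖ + ‖comp t (compv Ψ G)‖ := norm_sub_le _ _
    rw [exp_add]
    nlinarith [mul_le_mul_of_nonneg_right h2 h4,
      mul_le_mul_of_nonneg_right h3 (mul_nonneg (zero_le_one.trans h2) h4)]
  obtain ⟨S, hS⟩ : ∃ S, S = ∑ k ∈ Finset.range r, (1 - compL (compv Ψ G)) ^ k := ⟨_, rfl⟩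
  have S1 : compL G * (compL Ψ * S) = 1 := by
    have h1 := mul_neg_geom_sum (1 - compL (compv Ψ G)) r
    rwa [PInv_nil P1, sub_zero, sub_sub_cancel, ← hS, PInv_compL, mul_assoc] at h1
  have S2 : compL Ψ * (S * compL G) = 1 := by rw [← mul_assoc]; exact PInv_comm S1
  have S3 : Ring.inverse (compL Ψ) = S * compL G :=
    Ring.inverse_unit ⟨compL Ψ, S * compL G, S2, PInv_comm S2⟩
  have hid : ∀ (T : Jt D r) (i : Fin D), compL T (idv D r i) = T i := fun T i =>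
    congrFun (idv_compv hr T) i
  have Q1 : compv (fun i => Ring.inverse (compL Ψ) (idv D r i)) Ψ = idv D r := by
    funext i
    rw [S3]
    exact ContinuousLinearMap.ext_iff.1 S2 (idv D r i)
  refine ⟨?_, Q1, ?_⟩
  · have h1 := congrArg compL Q1
    have h2 : compL (idv D r) = 1 := ContinuousLinearMap.ext fun t => comp_idv hr t
    rw [PInv_compL, h2] at h1
    have h3 := PInv_comm h1
    rw [← PInv_compL] at h3
    funext i
    refine (hid _ i).symm.trans ?_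
    rw [h3]
    rfl
  · refine (pi_norm_le_iff_of_nonneg (exp_pos _).le).2 fun i => ?_
    show ‖Ring.inverse (compL Ψ) (idv D r i)‖ ≤ _
    rw [S3, mul_apply_eq_comp, hid, hS]
    refine (PInv_geom (by positivity) N1 _).trans ?_
    refine (mul_le_mul_of_nonneg_left ((norm_le_pi_norm G i).trans G1) (exp_pos _).le).trans ?_
    rw [← exp_add]
    refine exp_le_exp.2 ?_
    have h1 : 0 ≤ (r + r * (1 + A + r * A)) * R := by positivity
    have h2 : (0 : ℝ) ≤ r * r * (r + 1) := by positivity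
    nlinarith

end Pool.Agent.P.MP_d483fb_an.Z.NF

end

end

section

/-!
Normal forms: a height function with bounded increments is tempered on an invariant conull set.
-/

open MeasureTheory Filter Topology Set Real

set_option linter.unusedSectionVars false

noncomputable section

namespace Pool.Agent.P.MP_d483fb_an.Z.NF

open Os

variable {W X Γ M : Type} [NormedAddCommGroup W] [NormedSpace ℝ W] [MeasurableSpace W]
  [MeasurableSpace X] {μ : Measure X} [Group Γ] [MeasurableSpace Γ] [MetricSpace M]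
  [MeasurableSpace M] {α : Γ →* Equiv.Perm M} {len : Γ → ℝ} {D : ℕ}
  {S : Sys W X μ} {J : Jets α len D} {K : Skew S J} {lam : Fin D → W →L[ℝ] ℝ} {r : ℕ}
  {a : W} {s1 s2 : ℝ}

theorem exists_slow [FiniteDimensional ℝ W] [IsFiniteMeasure μ] (S : Sys W X μ) {h : X → ℝ} {L : ℝ}
    (hm : Measurable h) (hL : 0 ≤ L) (hl : ∀ s x, h (S.act s x) ≤ h x + L * (‖s‖ + 1)) :
    ∃ (X1 : Set X) (B : ℝ), 0 ≤ B ∧ MeasurableSet X1 ∧ (∀ᵐ x ∂μ, x ∈ X1) ∧
      (∀ s, ∀ x ∈ X1, S.act s x ∈ X1) ∧ ∀ ε, 0 < ε → ∃ q : X → ℝ, Measurable q ∧ (∀ x, 0 ≤ q x) ∧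
        (∀ x ∈ X1, h x ≤ q x) ∧ ∀ s, ∀ x ∈ X1, q (S.act s x) ≤ q x + ε * ‖s‖ + B := by
  obtain ⟨g⟩ := exists_gen W
  obtain ⟨Z, B, h1, h2, h3, h4, h5⟩ := g.slow S hL hm hl
  refine ⟨Z, B, h4, h1, h2, h3, fun ε hε => ?_⟩
  obtain ⟨q, q1, q2, q3⟩ := h5 ε hε
  exact ⟨q, q1, q2, fun x hx => (q3 x hx).1, fun s x hx => (q3 x hx).2 s⟩

/-- A slowly varying function is dominated by one that varies slowly along the powers of `a`. -/
theorem exists_slow_pow (S : Sys W X μ) {X0 : Set X} (hi : ∀ s, ∀ x ∈ X0, S.act s x ∈ X0) (a : W)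
    {q : X → ℝ} {ε ε' B : ℝ} (hm : Measurable q) (h0 : ∀ x, 0 ≤ q x) (hε : ε * ‖a‖ ≤ ε')
    (hε' : 0 ≤ ε')
    (hq : ∀ s, ∀ x ∈ X0, q (S.act s x) ≤ q x + ε * ‖s‖ + B) :
    ∃ q' : X → ℝ, Measurable q' ∧ (∀ x, 0 ≤ q' x) ∧ (∀ x ∈ X0, q x ≤ q' x) ∧
      (∀ s, ∀ x ∈ X0, q' (S.act s x) ≤ q' x + ε * ‖s‖ + B) ∧
      ∀ n : ℤ, ∀ x ∈ X0, q' (S.act (n • a) x) ≤ q' x + ε' * |(n : ℝ)| := by
  have hb : ∀ x ∈ X0, BddAbove (range fun n : ℤ => q (S.act (n • a) x) - ε' * |(n : ℝ)|) := by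
    intro x hx
    refine ⟨q x + B, ?_⟩
    rintro _ ⟨n, rfl⟩
    have h1 := hq (n • a) x hx
    have h2 : ‖n • a‖ = |(n : ℝ)| * ‖a‖ := by
      rw [← Int.cast_smul_eq_zsmul ℝ, norm_smul, Real.norm_eq_abs]
    have h3 := mul_le_mul_of_nonneg_right hε (abs_nonneg (n : ℝ))
    rw [h2] at h1
    simp only
    nlinarith
  have hle : ∀ x ∈ X0, ∀ n : ℤ, q (S.act (n • a) x) - ε' * |(n : ℝ)| ≤
      ⨆ n : ℤ, (q (S.act (n • a) x) - ε' * |(n : ℝ)|) := fun x hx n => le_ciSup (hb x hx) n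
  have h00 : ∀ x ∈ X0, q x ≤ ⨆ n : ℤ, (q (S.act (n • a) x) - ε' * |(n : ℝ)|) := fun x hx => by
    simpa [S.zero] using hle x hx 0
  refine ⟨fun x => max (⨆ n : ℤ, (q (S.act (n • a) x) - ε' * |(n : ℝ)|)) 0,
    (Measurable.iSup fun n => (hm.comp (S.meas _)).sub_const _).max measurable_const,
    fun x => le_max_right _ _, fun x hx => (h00 x hx).trans (le_max_left _ _), fun s x hx => ?_,
    fun m x hx => ?_⟩
  · simp only [max_eq_left ((h0 _).trans (h00 _ hx)), max_eq_left ((h0 _).trans (h00 _ (hi s x hx)))]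
    refine ciSup_le fun n => ?_
    have := hq s _ (hi (n • a) x hx)
    rw [S.comm] at this
    linarith [hle x hx n]
  · simp only [max_eq_left ((h0 _).trans (h00 _ hx)),
      max_eq_left ((h0 _).trans (h00 _ (hi (m • a) x hx)))]
    refine ciSup_le fun n => ?_
    have h1 := hle x hx (n + m)
    have h2 : |((n + m : ℤ) : ℝ)| ≤ |(n : ℝ)| + |(m : ℝ)| := by
      push_cast
      exact abs_add_le _ _
    rw [add_smul, S.add] at h1
    nlinarith [mul_le_mul_of_nonneg_left h2 hε']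

end Pool.Agent.P.MP_d483fb_an.Z.NF

end

end

section

/-!
Normal forms: the Oseledets splitting indexed by all linear forms.
-/

open MeasureTheory Filter Topology Set Real

set_option linter.unusedSectionVars false
set_option linter.unusedVariables false

noncomputable section

namespace Pool.Agent.P.MP_d483fb_an.Z.NF

open Os

variable {W X V ι : Type} [NormedAddCommGroup W] [NormedSpace ℝ W] [MeasurableSpace X]
  {μ : Measure X} [NormedAddCommGroup V] [NormedSpace ℝ V] [FiniteDimensional ℝ V]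
  {S : Sys W X μ} {A : W → X → V →L[ℝ] V} [Fintype ι] (o : OseA S A ι)

open Classical in
/-- The projection on the vectors of exponent `ν`. -/
def Pw (ν : W →L[ℝ] ℝ) (x : X) : V →L[ℝ] V := ∑ k, if o.lamL k = ν then o.P k x else 0

/-- The vectors of exponent `ν`. -/
def Dw (ν : W →L[ℝ] ℝ) (x : X) : Submodule ℝ V where
  carrier := {v | ∀ k, o.lamL k ≠ ν → o.P k x v = 0}
  zero_mem' := fun _ _ => map_zero _
  add_mem' := fun hv hw k hk => by rw [map_add, hv k hk, hw k hk, add_zero]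
  smul_mem' := fun c _ hv k hk => by rw [map_smul, hv k hk, smul_zero]

variable {o} {ν : W →L[ℝ] ℝ} {x : X}

theorem Pw_sm (o : OseA S A ι) (ν : W →L[ℝ] ℝ) : StronglyMeasurable (Pw o ν) := by
  classical
  refine Finset.stronglyMeasurable_fun_sum _ fun k _ => ?_
  split_ifs
  · exact o.measP k
  · exact stronglyMeasurable_const

theorem Pw_mem (hx : x ∈ o.X0) (ν : W →L[ℝ] ℝ) (v : V) : Pw o ν x v ∈ Dw o ν x := by
  classical
  intro k hk
  rw [Pw, sum_apply, map_sum]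
  refine Finset.sum_eq_zero fun j _ => ?_
  split_ifs with hj
  · exact o.P_other x hx k j (fun e => hk (e ▸ hj)) _ (o.P_mem x hx j v)
  · exact map_zero _

theorem Pw_self (hx : x ∈ o.X0) {v : V} (hv : v ∈ Dw o ν x) : Pw o ν x v = v := by
  classical
  refine Eq.trans ?_ (o.P_sum x hx v)
  rw [Pw, sum_apply]
  refine Finset.sum_congr rfl fun k _ => ?_
  split_ifs with hk
  · rfl
  · exact (hv k hk).symm

theorem Pw_other (hx : x ∈ o.X0) {ν' : W →L[ℝ] ℝ} (h : ν' ≠ ν) {v : V} (hv : v ∈ Dw o ν x) :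
    Pw o ν' x v = 0 := by
  classical
  rw [Pw, sum_apply]
  refine Finset.sum_eq_zero fun k _ => ?_
  split_ifs with hk
  · exact hv k (hk ▸ h)
  · rfl

/-- The sum of the projections over any finite set of forms containing the exponents. -/
theorem Pw_sum (hx : x ∈ o.X0) {T : Finset (W →L[ℝ] ℝ)} (hT : ∀ k, o.lamL k ∈ T) (v : V) :
    ∑ ν ∈ T, Pw o ν x v = v := by
  classical
  rw [← sum_apply]
  simp only [Pw]
  rw [Finset.sum_comm, sum_apply]
  refine Eq.trans (Finset.sum_congr rfl fun k _ => ?_) (o.P_sum x hx v)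
  congr 1
  convert (Finset.sum_ite_eq T (o.lamL k) fun _ => o.P k x).trans (if_pos (hT k))

theorem Dw_act (hx : x ∈ o.X0) (s : W) {v : V} (hv : v ∈ Dw o ν x) :
    A s x v ∈ Dw o ν (S.act s x) := by
  intro k hk
  rw [o.P_inv x hx, hv k hk, map_zero]

theorem Dw_est (o : OseA S A ι) {ε : ℝ} (hε : 0 < ε) : ∃ q : X → ℝ, Measurable q ∧ (∀ x, 0 ≤ q x) ∧
    (∀ s, ∀ x ∈ o.X0, q (S.act s x) ≤ q x + ε * ‖s‖ + o.B) ∧
    ∀ x ∈ o.X0, ∀ ν, ‖Pw o ν x‖ ≤ exp (q x) ∧ ∀ s, ∀ v ∈ Dw o ν x,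
      ‖A s x v‖ ≤ exp (q x + ν s + ε * ‖s‖) * ‖v‖ := by
  classical
  obtain ⟨q, q1, q2, q3, q4⟩ := o.est ε hε
  have hc : (Fintype.card ι : ℝ) ≤ exp (Fintype.card ι) := by
    linarith [add_one_le_exp (Fintype.card ι : ℝ)]
  refine ⟨fun x => q x + Fintype.card ι, q1.add_const _, fun x => add_nonneg (q2 x) (Nat.cast_nonneg _),
    fun s x hx => by linarith [q3 s x hx], fun x hx ν => ⟨?_, fun s v hv => ?_⟩⟩
  · refine (norm_sum_le _ _).trans ((Finset.sum_le_card_nsmul _ _ (exp (q x)) fun k _ => ?_).trans ?_)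
    · split_ifs
      · exact (q4 x hx k).1
      · rw [norm_zero]
        exact (exp_pos _).le
    · rw [nsmul_eq_mul, exp_add, mul_comm]
      exact mul_le_mul_of_nonneg_left hc (exp_pos _).le
  by_cases h : ∃ k, o.lamL k = ν
  · obtain ⟨k, rfl⟩ := h
    have e : o.P k x v = v := by
      rw [← o.P_sum x hx v, Finset.sum_eq_single k (fun j _ hj => hv j fun e => hj
        (o.lam_inj (AddMonoidHom.ext fun s => DFunLike.congr_fun e s))) (by simp)]
      exact o.P_self x hx k _ (o.P_mem x hx k v)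
    refine ((q4 x hx k).2 s v (e ▸ o.P_mem x hx k v)).1.trans
      (mul_le_mul_of_nonneg_right (exp_le_exp.2 ?_) (norm_nonneg v))
    rw [o.lamL_apply]
    linarith [(Fintype.card ι).cast_nonneg (α := ℝ)]
  · rw [← o.P_sum x hx v, Finset.sum_eq_zero fun k _ => hv k fun e => h ⟨k, e⟩, map_zero, norm_zero,
      mul_zero]

theorem eq_zero_of_growth' {ν ν' : W →L[ℝ] ℝ} (h : ν ≠ ν') {c : ℝ}
    (hc : ∀ ε : ℝ, 0 < ε → ∃ C : ℝ, ∀ s, |c| ≤ C * exp (ν s - ν' s + ε * ‖s‖)) : c = 0 := by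
  obtain ⟨s, hs⟩ : ∃ s, ν s < ν' s := by
    obtain ⟨s, hs⟩ := DFunLike.ne_iff.1 h
    rcases lt_or_gt_of_ne hs with h1 | h1
    · exact ⟨s, h1⟩
    · exact ⟨-s, by rw [map_neg, map_neg]; exact neg_lt_neg h1⟩
  have hd := sub_pos.2 hs
  obtain ⟨C, hC⟩ := hc ((ν' s - ν s) / 2 / (‖s‖ + 1)) (by positivity)
  have h1 : (ν' s - ν s) / 2 / (‖s‖ + 1) * ‖s‖ ≤ (ν' s - ν s) / 2 := by
    rw [div_mul_eq_mul_div, div_le_iff₀ (by positivity)]
    linarith
  by_contra h0
  have h2 := abs_pos.2 h0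
  obtain ⟨n, hn⟩ := exists_nat_gt (C / (|c| * ((ν' s - ν s) / 2)))
  rw [div_lt_iff₀ (by positivity)] at hn
  have h3 := hC ((n : ℝ) • s)
  have hC0 : 0 ≤ C := by simpa using h2.le.trans (hC 0)
  rw [map_smul, map_smul, norm_smul, Real.norm_natCast, smul_eq_mul, smul_eq_mul] at h3
  have h4 : |c| ≤ C * exp (-((ν' s - ν s) / 2 * n)) := h3.trans (mul_le_mul_of_nonneg_left
    (exp_le_exp.2 (by linarith [mul_le_mul_of_nonneg_left h1 n.cast_nonneg])) hC0)
  rw [exp_neg, le_mul_inv_iff₀ (exp_pos _)] at h4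
  linarith [mul_le_mul_of_nonneg_left (add_one_le_exp ((ν' s - ν s) / 2 * n)) h2.le]

theorem Dw_of_growth (hx : x ∈ o.X0) {v : V}
    (h : ∀ ε : ℝ, 0 < ε → ∃ C : ℝ, ∀ s, ‖A s x v‖ ≤ C * exp (ν s + ε * ‖s‖)) : v ∈ Dw o ν x := by
  intro k hk
  refine norm_eq_zero.1 (eq_zero_of_growth' hk.symm fun ε hε => ?_)
  obtain ⟨q, -, -, q3, q4⟩ := o.est (ε / 3) (by positivity)
  obtain ⟨C, hC⟩ := h (ε / 3) (by positivity)
  refine ⟨exp (2 * q x + o.B) * C, fun s => ?_⟩
  have h1 := ((q4 x hx k).2 s _ (o.P_mem x hx k v)).2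
  rw [← o.P_inv x hx] at h1
  rw [abs_norm]
  refine h1.trans ((mul_le_mul_of_nonneg_left (((o.P k _).le_opNorm _).trans (mul_le_mul
    ((q4 _ (o.inv0 s x hx) k).1.trans (exp_le_exp.2 (q3 s x hx))) (hC s) (norm_nonneg _)
      (exp_pos _).le)) (exp_pos _).le).trans_eq ?_)
  rw [mul_left_comm _ C, mul_left_comm _ C, mul_comm _ C, mul_assoc C, ← exp_add, ← exp_add, ← exp_add,
    o.lamL_apply]
  ring_nf

/-- Two different linear forms are separated by some direction. -/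
theorem eq_zero_of_growth {ν ν' : W →L[ℝ] ℝ} (h : ν ≠ ν') {c : ℝ}
    (hc : ∀ ε : ℝ, 0 < ε → ∃ C : ℝ, ∀ s, |c| ≤ C * exp (ν s - ν' s + ε * ‖s‖)) : c = 0 := by
  exact eq_zero_of_growth' h hc

end Pool.Agent.P.MP_d483fb_an.Z.NF

end

end

section

/-!
Normal forms: existence of formal normal forms.
-/

open MeasureTheory Filter Topology Set Real

set_option linter.unusedSectionVars false

noncomputable section

namespace Pool.Agent.P.MP_d483fb_an.Z.NF

open Os

variable {W X Γ M : Type} [NormedAddCommGroup W] [NormedSpace ℝ W] [MeasurableSpace W]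
  [MeasurableSpace X] {μ : Measure X} [Group Γ] [MeasurableSpace Γ] [MetricSpace M]
  [MeasurableSpace M] {α : Γ →* Equiv.Perm M} {len : Γ → ℝ} {D : ℕ}
  {S : Sys W X μ} {J : Jets α len D} {K : Skew S J} {lam : Fin D → W →L[ℝ] ℝ} {r : ℕ}
  {a : W} {s1 s2 : ℝ}

theorem lin_push (K : Skew S J) (hr : 2 ≤ r) (s : W) (x : X) (u : V D r) (v : E D) :
    lin u v = lin (K.push r s x u) (K.Dl s x v) := by
  rw [K.push_apply, lin_comp, K.linv_T hr, ContinuousLinearMap.comp_apply, ← K.Dl_add,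
    neg_add_cancel, K.Dl_zero]

/-- The lifts of the dual frame to jets of the same exponents. -/
theorem lin_Pw (hr : 2 ≤ r) (Fr : Frame S K.Dl lam) {ι : Type} [Fintype ι]
    (o : OseA S (K.push r) ι) {x : X} (hx : x ∈ o.X0) (hx' : x ∈ Fr.X0) (i j : Fin D) :
    lin (Pw o (-lam i) x (ofLin r (Fr.g x i))) (Fr.f x j) = if i = j then 1 else 0 := by
  classical
  obtain ⟨A, hA⟩ := exists_pc D r
  have h0 : ∀ ν, ν ≠ -lam j → lin (Pw o ν x (ofLin r (Fr.g x i))) (Fr.f x j) = 0 := by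
    refine fun ν hν => eq_zero_of_growth hν fun ε hε => ?_
    obtain ⟨q, -, -, -, hq⟩ := Dw_est o (half_pos hε)
    obtain ⟨q', -, -, -, hq'⟩ := Fr.est _ (half_pos hε)
    refine ⟨exp (A + q x + q' x) * ‖Pw o ν x (ofLin r (Fr.g x i))‖, fun s => ?_⟩
    rw [lin_push K hr s x]
    refine ((lin _).le_opNorm _).trans ((mul_le_mul ((hA.lin_le _).trans (mul_le_mul_of_nonneg_left
      ((hq x hx ν).2 s _ (Pw_mem hx ν _)) (exp_pos _).le)) ((hq' x hx').2.2 s j) (norm_nonneg _)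
        (by positivity)).trans_eq ?_)
    rw [← mul_assoc, mul_right_comm, ← exp_add, ← exp_add, mul_right_comm, ← exp_add, neg_apply]
    ring_nf
  have h1 : lin (Pw o (-lam j) x (ofLin r (Fr.g x i))) (Fr.f x j) = if i = j then 1 else 0 := by
    rw [← Fr.dual x hx', ← lin_ofLin hr]
    conv_rhs => rw [← Pw_sum hx (T := insert (-lam j) (Finset.univ.image o.lamL))
      (fun k => Finset.mem_insert_of_mem (Finset.mem_image_of_mem _ (Finset.mem_univ k)))
      (ofLin r (Fr.g x i)), lin_sum, sum_apply]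
    exact (Finset.sum_eq_single_of_mem _ (Finset.mem_insert_self _ _) fun ν _ hν => h0 ν hν).symm
  by_cases h : lam i = lam j
  · rw [h, h1]
  · rw [h0 _ fun e => h (neg_injective e), if_neg fun e => h (congrArg lam e)]

/-- The coefficients of a jet of exponent `-l` in coordinates of exponents `-lam` are resonant. -/
theorem res1_of_Dw (hr : 2 ≤ r) {ι : Type} [Fintype ι] (o : OseA S (K.push r) ι) {x : X}
    (hx : x ∈ o.X0) {Ψ Q : Jt D r} (hΨ : ∀ i, Ψ i ∈ Dw o (-lam i) x) (hQ : compv Ψ Q = idv D r)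
    {l : W →L[ℝ] ℝ} {t : V D r} (ht : comp t Ψ ∈ Dw o (-l) x) : Res1 lam l t := by
  classical
  obtain ⟨A, hA⟩ := exists_pc D r
  have hr0 : (0 : ℝ) < r := by positivity
  have h1 : ∀ β : Idx D r, comp (Pi.single β 1 : V D r) Ψ ∈ Dw o (-wt lam β.1) x := by
    refine fun β => Dw_of_growth hx fun ε hε => ?_
    obtain ⟨q, -, q0, -, hq⟩ := Dw_est o (div_pos hε hr0)
    refine ⟨exp (A + r * (q x + ‖Ψ‖)) * ‖(Pi.single β 1 : V D r)‖, fun s => ?_⟩
    rw [K.push_apply, comp_assoc]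
    refine (hA.comp_le_res (res1_single (fun j => lam j (-s)) β)
      (R := q x + ‖Ψ‖ + ε / r * ‖s‖) (by have := q0 x; positivity) fun j => ?_).trans_eq ?_
    · refine ((hq x hx _).2 s _ (hΨ j)).trans ((mul_le_mul_of_nonneg_left
        ((norm_le_pi_norm Ψ j).trans (norm_le_exp_norm Ψ)) (exp_pos _).le).trans_eq ?_)
      rw [← exp_add, neg_apply, map_neg]
      ring_nf
    · rw [← wt_apply, map_neg, neg_apply, mul_right_comm, ← exp_add, mul_add _ _ (ε / r * ‖s‖),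
        ← mul_assoc, mul_div_cancel₀ _ hr0.ne']
      ring_nf
  intro β hβ
  by_contra hne
  let t' : V D r := fun γ => if wt lam γ.1 = wt lam β.1 then t γ else 0
  have h2 : comp t' Ψ = 0 := by
    rw [← Pw_other hx (ν' := -wt lam β.1) (fun e => hne (neg_injective e)) ht, comp_eq_sum,
      comp_eq_sum t, map_sum]
    refine Finset.sum_congr rfl fun γ _ => ?_
    rw [map_smul]
    by_cases h : wt lam γ.1 = wt lam β.1
    · rw [← h, Pw_self hx (h1 γ), show t' γ = t γ from if_pos h]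
    · rw [Pw_other hx (fun e => h (neg_injective e).symm) (h1 γ), show t' γ = 0 from if_neg h,
        zero_smul, smul_zero]
  have h3 : t' = 0 := by rw [← comp_idv hr t', ← hQ, ← comp_assoc, h2, ← compL_apply, map_zero]
  exact hβ ((if_pos rfl).symm.trans (congrFun h3 β))

theorem exists_formal [FiniteDimensional ℝ W] [BorelSpace W] [IsProbabilityMeasure μ] [Countable Γ]
    [DiscreteMeasurableSpace Γ] (K : Skew S J) (hr : 2 ≤ r) (Fr : Frame S K.Dl lam) :
    Nonempty (Formal K lam r) := by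
  obtain ⟨c, L, -, hc⟩ := K.tcoc_push hr
  obtain ⟨ι, _, ⟨o⟩⟩ := oseledets_temp hc (K.sm_push r)
  obtain ⟨A, hA⟩ := exists_pc D r
  obtain ⟨C, iv, hC, miv, hiv⟩ := exists_inv (D := D) hr
  obtain ⟨X1, B, hB, z1, z2, z3, hZ⟩ := exists_slow S K.measH K.L_nonneg K.h_lip
  let Ψ : X → Jt D r := fun x i => Pw o (-lam i) x (ofLin r (Fr.g x i))
  let F : X → E D →L[ℝ] E D := fun x => ∑ j, (ContinuousLinearMap.proj j).smulRight (Fr.f x j)
  have hF : ∀ x w, F x w = ∑ j, w j • Fr.f x j := fun x w => by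
    simp only [F, sum_apply, ContinuousLinearMap.smulRight_apply, ContinuousLinearMap.proj_apply]
  have nF : ∀ x, ‖F x‖ ≤ exp D * ‖Fr.f x‖ := fun x =>
    ContinuousLinearMap.opNorm_le_bound _ (by positivity) fun w => by
      rw [hF]
      refine (norm_sum_le _ _).trans ((Finset.sum_le_card_nsmul _ _ (‖Fr.f x‖ * ‖w‖)
        fun j _ => ?_).trans ?_)
      · rw [norm_smul, mul_comm]
        exact mul_le_mul (norm_le_pi_norm _ j) (norm_le_pi_norm _ j) (norm_nonneg _) (norm_nonneg _)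
      · rw [Finset.card_univ, Fintype.card_fin, nsmul_eq_mul, mul_assoc]
        exact mul_le_mul_of_nonneg_right (by linarith [add_one_le_exp (D : ℝ)]) (by positivity)
  have lF : ∀ x ∈ o.X0, x ∈ Fr.X0 → ∀ w, linv (Ψ x) (F x w) = w := fun x hx hx' w => by
    funext i
    rw [linv_apply, hF, map_sum]
    simp only [Ψ, map_smul, lin_Pw hr Fr o hx hx', smul_eq_mul, mul_ite, mul_one, mul_zero,
      Finset.sum_ite_eq, Finset.mem_univ, if_true]
  have hi : ∀ x ∈ o.X0, x ∈ Fr.X0 →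
      compv (Ψ x) (iv (Ψ x)) = idv D r ∧ compv (iv (Ψ x)) (Ψ x) = idv D r := fun x hx hx' => by
    have := hiv (Ψ x) (F x) (‖Ψ x‖ + ‖F x‖) (by positivity)
      ((norm_le_exp_norm _).trans (exp_le_exp.2 (le_add_of_nonneg_right (norm_nonneg _))))
      ((norm_le_exp_norm _).trans (exp_le_exp.2 (le_add_of_nonneg_left (norm_nonneg _))))
      (lF x hx hx')
    exact ⟨this.1, this.2.1⟩
  have mΨ : Measurable Ψ := measurable_pi_iff.2 fun i =>
    (isBoundedBilinearMap_apply.continuous.comp_stronglyMeasurable ((Pw_sm o _).prodMk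
      (continuous_ofLin.measurable.comp ((measurable_pi_apply i).comp Fr.measG)).stronglyMeasurable)
      ).measurable
  have cj : ∀ s, ∀ x ∈ o.X0, x ∈ Fr.X0 → compv (Ψ (S.act s x)) (K.T r s x) =
      compv (compv (compv (Ψ (S.act s x)) (K.T r s x)) (iv (Ψ x))) (Ψ x) := fun s x hx hx' => by
    rw [compv_assoc, (hi x hx hx').2, compv_idv hr]
  have ps : ∀ s x i, compv (Ψ (S.act s x)) (K.T r s x) i =
      K.push r (-s) (S.act s x) (Ψ (S.act s x) i) := fun s x i => by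
    rw [K.push_apply, neg_neg, S.neg_act, compv]
  have hB1 := o.B_nonneg
  have hB2 := Fr.B_nonneg
  have hA0 := hA.nonneg
  have hrC : 0 ≤ r * C := by positivity
  have hD : (0 : ℝ) ≤ D := D.cast_nonneg
  refine ⟨⟨o.X0 ∩ Fr.X0 ∩ X1, (r * C + C + 2) * (o.B + Fr.B + B), A, Ψ, fun x => iv (Ψ x),
    fun s x => compv (compv (Ψ (S.act s x)) (K.T r s x)) (iv (Ψ x)), hA, by positivity,
    (o.meas0.inter Fr.meas0).inter z1, (o.ae0.and Fr.ae0).and z2, fun s x hx =>
      ⟨⟨o.inv0 s x hx.1.1, Fr.inv0 s x hx.1.2⟩, z3 s x hx.2⟩, mΨ, fun s => measurable_compv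
      (measurable_compv (mΨ.comp (S.meas s)) ((K.measurable_T r).comp measurable_prodMk_left))
      (miv.comp mΨ), fun x hx => (hi x hx.1.1 hx.1.2).1, fun x hx => (hi x hx.1.1 hx.1.2).2,
    fun s x hx => cj s x hx.1.1 hx.1.2, fun s x hx i => ?_, fun ε hε => ?_⟩⟩
  · refine res1_of_Dw hr o hx.1.1 (fun i => Pw_mem hx.1.1 _ _) (hi x hx.1.1 hx.1.2).1 ?_
    have := Dw_act (o.inv0 s x hx.1.1) (-s) (Pw_mem (o.inv0 s x hx.1.1) (-lam i)
      (ofLin r (Fr.g (S.act s x) i)))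
    rw [S.neg_act] at this
    exact mem_of_eq_of_mem ((congrFun (cj s x hx.1.1 hx.1.2) i).symm.trans (ps s x i)) this
  have hc' : 0 < r * C + C + 2 := by positivity
  obtain ⟨e, he, he'⟩ : ∃ e, 0 < e ∧ (r * C + C + 2) * e = ε / 4 :=
    ⟨ε / 4 / (r * C + C + 2), by positivity, mul_div_cancel₀ _ hc'.ne'⟩
  obtain ⟨q1, m1, p1, s1, b1⟩ := Dw_est o he
  obtain ⟨q2, m2, p2, s2, b2⟩ := Fr.est e he
  obtain ⟨q3, m3, p3, b3, s3⟩ := hZ e he
  have nΨ : ∀ x ∈ o.X0, x ∈ Fr.X0 → ‖Ψ x‖ ≤ exp (q1 x + q2 x) := fun x hx hx' =>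
    (pi_norm_le_iff_of_nonneg (exp_pos _).le).2 fun i => ((Pw o _ x).le_opNorm _).trans (by
      rw [exp_add]
      exact mul_le_mul (b1 x hx _).1 ((norm_ofLin_le _).trans ((norm_le_pi_norm _ i).trans
        (b2 x hx').2.1)) (norm_nonneg _) (exp_pos _).le)
  have nQ : ∀ x ∈ o.X0, x ∈ Fr.X0 → ‖iv (Ψ x)‖ ≤ exp (C * (1 + (q1 x + q2 x + D))) :=
    fun x hx hx' => (hiv (Ψ x) (F x) _ (by linarith [p1 x, p2 x])
      ((nΨ x hx hx').trans (exp_le_exp.2 (by linarith)))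
      ((nF x).trans ((mul_le_mul_of_nonneg_left (b2 x hx').1 (exp_pos _).le).trans (by
        rw [← exp_add, exp_le_exp]
        linarith [p1 x]))) (lF x hx hx')).2.2
  have hk : 0 ≤ A + (r * C + C) * (1 + D) + 2 * o.B + Fr.B := by positivity
  refine ⟨fun x => (r * C + C + 2) * (q1 x + q2 x + q3 x) +
      (A + (r * C + C) * (1 + D) + 2 * o.B + Fr.B),
    (((m1.add m2).add m3).const_mul _).add_const _, fun x => ?_, fun x hx => ?_, fun s x hx => ?_,
    fun x hx => ?_⟩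
  · have := p1 x
    have := p2 x
    have := p3 x
    positivity
  · have h1 := mul_nonneg (add_nonneg hrC hC) (add_nonneg (add_nonneg (p1 x) (p2 x)) (p3 x))
    linarith [b3 x hx.2, p1 x, p2 x, p3 x]
  · have h1 := mul_le_mul_of_nonneg_left (add_le_add (add_le_add (s1 s x hx.1.1) (s2 s x hx.1.2))
      (s3 s x hx.2)) hc'.le
    have h2 := congrArg (· * ‖s‖) he'
    linarith [mul_nonneg hε.le (norm_nonneg s)]
  have h1 := mul_nonneg hrC (add_nonneg (p1 x) (p2 x))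
  have h2 := mul_nonneg hC (add_nonneg (p1 x) (p2 x))
  have h3 := mul_nonneg hc'.le (p3 x)
  have h4 := mul_nonneg hrC (add_nonneg zero_le_one hD)
  have h5 := mul_nonneg hC (add_nonneg zero_le_one hD)
  refine ⟨(nΨ x hx.1.1 hx.1.2).trans (exp_le_exp.2 (by linarith [p1 x, p2 x])),
    (nQ x hx.1.1 hx.1.2).trans (exp_le_exp.2 (by linarith [p1 x, p2 x])), fun s i => ?_⟩
  have h6 := (b1 _ (o.inv0 s x hx.1.1) _).2 (-s) _ (Pw_mem (o.inv0 s x hx.1.1) (-lam i)
    (ofLin r (Fr.g (S.act s x) i)))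
  refine (hA.comp_le _ _ _ (mul_nonneg hC (by linarith [p1 x, p2 x])) (nQ x hx.1.1 hx.1.2)).trans ?_
  rw [ps]
  refine (mul_le_mul_of_nonneg_left (h6.trans (mul_le_mul_of_nonneg_left ((norm_le_pi_norm
    (Ψ (S.act s x)) i).trans (nΨ _ (o.inv0 s x hx.1.1) (Fr.inv0 s x hx.1.2))) (exp_pos _).le))
      (exp_pos _).le).trans ?_
  rw [← exp_add, ← exp_add, exp_le_exp, neg_apply, map_neg, neg_neg, norm_neg]
  have h7 := congrArg (· * ‖s‖) he'
  have h8 := mul_nonneg (mul_nonneg (add_nonneg hrC hC) he.le) (norm_nonneg s)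
  linarith [s1 s x hx.1.1, s2 s x hx.1.2, p1 x, p2 x, mul_nonneg hε.le (norm_nonneg s)]

end Pool.Agent.P.MP_d483fb_an.Z.NF

end

end

section

/-!
Normal forms: the algebra of the resonant cocycle and tempered bounds.
-/

open MeasureTheory Filter Topology Set Real

set_option linter.unusedSectionVars false

noncomputable section

namespace Pool.Agent.P.MP_d483fb_an.Z.NF

open Os

variable {W X Γ M : Type} [NormedAddCommGroup W] [NormedSpace ℝ W] [MeasurableSpace W]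
  [MeasurableSpace X] {μ : Measure X} [Group Γ] [MeasurableSpace Γ] [MetricSpace M]
  [MeasurableSpace M] {α : Γ →* Equiv.Perm M} {len : Γ → ℝ} {D : ℕ}
  {S : Sys W X μ} {J : Jets α len D} {K : Skew S J} {lam : Fin D → W →L[ℝ] ℝ} {r : ℕ}
  {a : W} {s1 s2 : ℝ}

namespace Formal

variable (F : Formal K lam r) {x : X}

theorem N_eq (hr : 2 ≤ r) (s : W) (hx : x ∈ F.X0) :
    F.N s x = compv (compv (F.Ψ (S.act s x)) (K.T r s x)) (F.Q x) := by
  rw [F.conj s x hx, compv_assoc, F.ΨQ x hx, compv_idv hr]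

theorem N_zero (hr : 2 ≤ r) (hx : x ∈ F.X0) : F.N 0 x = idv D r := by
  rw [F.N_eq hr 0 hx, K.T_zero hr, compv_idv hr, S.zero, F.ΨQ x hx]

theorem N_add (hr : 2 ≤ r) (s t : W) (hx : x ∈ F.X0) :
    F.N (s + t) x = compv (F.N s (S.act t x)) (F.N t x) := by
  rw [F.N_eq hr (s + t) hx, K.T_add, S.add, ← compv_assoc, F.conj s _ (F.inv0 t x hx),
    compv_assoc (F.N s _), compv_assoc (F.N s _), ← F.N_eq hr t hx]

theorem TQ (hr : 2 ≤ r) (s : W) (hx : x ∈ F.X0) :
    compv (K.T r s x) (F.Q x) = compv (F.Q (S.act s x)) (F.N s x) := by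
  rw [F.N_eq hr s hx, ← compv_assoc, ← compv_assoc, F.QΨ _ (F.inv0 s x hx), idv_compv hr]

theorem Jn_eq (a : W) (n : ℕ) (hx : x ∈ F.X0) :
    F.Jn a n x = compv (F.N (n • a) (S.act (-(n • a)) x)) (F.Ψ (S.act (-(n • a)) x)) := by
  rw [← F.conj _ _ (F.inv0 _ x hx), S.act_neg, Jn]

theorem Jn_Q (hr : 2 ≤ r) (a : W) (n : ℕ) (hx : x ∈ F.X0) :
    compv (F.Jn a n x) (F.Q (S.act (-(n • a)) x)) = F.N (n • a) (S.act (-(n • a)) x) := by
  rw [F.N_eq hr _ (F.inv0 _ x hx), S.act_neg, Jn]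

theorem Jn_zero (hr : 2 ≤ r) (a : W) (x : X) : F.Jn a 0 x = F.Ψ x := by
  rw [Jn, zero_nsmul, K.T_zero hr, compv_idv hr]

theorem act_succ (a : W) (n : ℕ) (x : X) :
    S.act a (S.act (-((n + 1) • a)) x) = S.act (-(n • a)) x := by
  rw [← S.add, succ_nsmul]
  congr 1
  abel

theorem mv_succ (a : W) (n : ℕ) (x : X) (z : M) :
    K.mv a (S.act (-((n + 1) • a)) x) (K.mv (-((n + 1) • a)) x z) = K.mv (-(n • a)) x z := by
  rw [K.mv_mv, succ_nsmul]
  congr 1
  abel

theorem Jn_succ (a : W) (n : ℕ) (x : X) :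
    F.Jn a (n + 1) x = compv (F.Jn a n x) (K.T r a (S.act (-((n + 1) • a)) x)) := by
  rw [Jn, Jn, compv_assoc, ← act_succ (S := S) a n x, ← K.T_add, ← succ_nsmul]

theorem Jn_act (a s : W) (n : ℕ) (hx : x ∈ F.X0) :
    compv (F.Jn a n (S.act s x)) (K.T r s (S.act (-(n • a)) x)) =
      compv (F.N s x) (F.Jn a n x) := by
  have e : K.T r (n • a + s) (S.act (-(n • a)) x) = K.T r (s + n • a) (S.act (-(n • a)) x) := by
    rw [add_comm]
  rw [K.T_add, K.T_add, S.act_neg] at e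
  rw [Jn, Jn, compv_assoc, S.comm, e, ← compv_assoc, F.conj s x hx, compv_assoc]

theorem Hn_zero (hr : 2 ≤ r) (a : W) (x : X) (z : M) :
    F.Hn a 0 x z = evv (F.Ψ x) (J.c (K.pt x) z) := by
  rw [Hn, F.Jn_zero hr, zero_nsmul, neg_zero, S.zero, K.mv_zero]

theorem H_pt (a : W) (x : X) : F.H a x (K.pt x) = 0 := by
  have : (fun n => F.Hn a n x (K.pt x)) = fun _ => 0 := by
    funext n
    rw [Hn, K.mv_pt, J.c_self, evv_zero]
  rw [H, this]
  exact tendsto_const_nhds.limUnder_eq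

theorem N_mem (a s : W) (hx : x ∈ F.X0) {v : E D} (hv : v ∈ U fun i => lam i a) :
    evv (F.N s x) v ∈ U fun i => lam i a :=
  ((F.res s x hx).apply a).evv_mem hv

theorem N_U_add (P : Par K lam r a s1 s2) (s t : W) (hx : x ∈ F.X0) {v : E D}
    (hv : v ∈ U fun i => lam i a) :
    evv (F.N (s + t) x) v = evv (F.N s (S.act t x)) (evv (F.N t x) v) := by
  funext i
  have h := (F.res (s + t) x hx).apply a i
  rw [F.N_add P.two_le s t hx] at h ⊢
  exact ev_comp_U P.s1_pos (fun j hj => (P.lt.trans (P.gap j hj)).le) (P.res i)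
    ((F.res s _ (F.inv0 t x hx)).apply a i) ((F.res t x hx).apply a) h hv

theorem N_U_neg (P : Par K lam r a s1 s2) (s : W) (hx : x ∈ F.X0) {v : E D}
    (hv : v ∈ U fun i => lam i a) : evv (F.N s (S.act (-s) x)) (evv (F.N (-s) x) v) = v := by
  rw [← F.N_U_add P s (-s) hx hv, add_neg_cancel, F.N_zero P.two_le hx, evv_idv P.two_le]

theorem Temp.h_back {ε : ℝ} {q : X → ℝ} {F : Formal K lam r} (T : F.Temp a ε q) (n : ℕ)
    (hx : x ∈ F.X0) : K.h (S.act (-(n • a)) x) ≤ q x + ε * n :=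
  (T.h_le _ (F.inv0 _ x hx)).trans (T.slow_b n x hx)

theorem exists_temp (a : W) {ε : ℝ} (hε : 0 < ε) : ∃ q, F.Temp a ε q := by
  have hr : (0 : ℝ) < r + 2 := by positivity
  set e2 := ε / (r + 2) with he2
  set e1 := e2 / (‖a‖ + 1) with he1
  have h2 : 0 < e2 := by positivity
  have h1 : 0 < e1 := by positivity
  have h3 : e1 * (‖a‖ + 1) = e2 := by rw [he1]; field_simp
  have h4 : e2 * (r + 2) = ε := by rw [he2]; field_simp
  have hr0 : (0 : ℝ) ≤ r := r.cast_nonneg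
  have h12 : e1 ≤ e2 := by nlinarith [norm_nonneg a]
  have h5 : e1 * ‖a‖ ≤ e2 := by nlinarith
  have h6 : (r + 1) * e2 ≤ ε := by nlinarith
  have h7 : e2 ≤ ε := by nlinarith
  obtain ⟨q0, m0, p0, hh, s0, b0⟩ := F.est e1 h1
  obtain ⟨q1, m1, p1, le1, s1, z1⟩ := exists_slow_pow S F.inv0 a m0 p0 h5 h2.le s0
  have hA := F.pc.nonneg
  have hl := abs_nonneg (log ε)
  have hq : ∀ x, q1 x ≤ (r + 1) * q1 x + (F.A + 1 + |log ε|) := fun x => by nlinarith [p1 x]
  have hq0 : ∀ x ∈ F.X0, q0 x ≤ (r + 1) * q1 x + (F.A + 1 + |log ε|) := fun x hx =>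
    (le1 x hx).trans (hq x)
  have zf : ∀ n : ℕ, ∀ x ∈ F.X0, q1 (S.act (n • a) x) ≤ q1 x + e2 * n := fun n x hx => by
    simpa using z1 n x hx
  have zb : ∀ n : ℕ, ∀ x ∈ F.X0, q1 (S.act (-(n • a)) x) ≤ q1 x + e2 * n := fun n x hx => by
    simpa using z1 (-n) x hx
  have hn : ∀ n : ℕ, e1 * ‖n • a‖ ≤ e2 * n := fun n => by
    rw [← Nat.cast_smul_eq_nsmul ℝ, norm_smul, Real.norm_natCast]
    nlinarith [n.cast_nonneg (α := ℝ)]
  have hm : ∀ (n : ℕ) i, lam i (n • a) = lam i a * n := fun n i => by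
    rw [map_nsmul, nsmul_eq_mul, mul_comm]
  refine ⟨fun x => (r + 1) * q1 x + (F.A + 1 + |log ε|), ⟨hε, (m1.const_mul _).add_const _,
    fun x => by nlinarith [p1 x], fun x => ?_, fun x hx => (hh x hx).trans (hq0 x hx),
    fun s x hx => ?_, fun n x hx => ?_, fun n x hx => ?_⟩,
    fun x hx => (b0 x hx).1.trans (exp_le_exp.2 (hq0 x hx)),
    fun x hx => (b0 x hx).2.1.trans (exp_le_exp.2 (hq0 x hx)),
    fun s x hx i => ((b0 x hx).2.2 s i).trans (exp_le_exp.2 ?_),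
    fun n x hx i => ((b0 x hx).2.2 _ i).trans (exp_le_exp.2 ?_),
    fun n x hx i => ((b0 x hx).2.2 _ i).trans (exp_le_exp.2 ?_), fun n x hx i => ?_⟩
  · rw [← exp_log hε, exp_le_exp, log_exp]
    nlinarith [p1 x, neg_abs_le (log ε)]
  · have := mul_le_mul_of_nonneg_left (s1 s x hx) (by positivity : (0 : ℝ) ≤ r + 1)
    have h8 : (r + 1) * e1 ≤ ε := by nlinarith
    nlinarith [mul_le_mul_of_nonneg_right h8 (norm_nonneg s)]
  · have := mul_le_mul_of_nonneg_left (zf n x hx) (by positivity : (0 : ℝ) ≤ r + 1)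
    nlinarith [mul_le_mul_of_nonneg_right h6 (n.cast_nonneg (α := ℝ))]
  · have := mul_le_mul_of_nonneg_left (zb n x hx) (by positivity : (0 : ℝ) ≤ r + 1)
    nlinarith [mul_le_mul_of_nonneg_right h6 (n.cast_nonneg (α := ℝ))]
  · nlinarith [hq0 x hx, mul_le_mul_of_nonneg_right (h12.trans h7) (norm_nonneg s)]
  · rw [hm]
    nlinarith [hq0 x hx, hn n, mul_le_mul_of_nonneg_right h7 (n.cast_nonneg (α := ℝ))]
  · rw [map_neg, hm, norm_neg]
    nlinarith [hq0 x hx, hn n, mul_le_mul_of_nonneg_right h7 (n.cast_nonneg (α := ℝ))]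
  · have hx' := F.inv0 (-(n • a)) x hx
    rw [F.Jn_eq a n hx]
    refine (F.pc.comp_le _ _ _ (p0 _) (b0 _ hx').1).trans ?_
    refine (mul_le_mul_of_nonneg_left ((b0 _ hx').2.2 _ i) (exp_pos _).le).trans ?_
    rw [← exp_add, exp_le_exp, hm]
    have := mul_le_mul_of_nonneg_left ((le1 _ hx').trans (zb n x hx))
      (by positivity : (0 : ℝ) ≤ r + 1)
    have h9 : e2 * (r + 2) * n = ε * n := by rw [h4]
    nlinarith [hn n]

end Formal

theorem Skew.Sh.fwd {s C : ℝ} {x : X} {z : M} (hs : 0 ≤ s) (m : ℕ)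
    (h : K.Sh a s C (S.act (-(m • a)) x) z) :
    K.Sh a s (C * exp (J.L0 * (1 + K.L * (1 + m * ‖a‖ + K.h (S.act (-(m • a)) x))) + s * m)) x
      (K.mv (m • a) (S.act (-(m • a)) x) z) := by
  intro n
  have hC := h.nonneg
  have hL0 := J.L0_nonneg
  have hL := K.L_nonneg
  have hh := K.h_nonneg (S.act (-(m • a)) x)
  have hm : (0 : ℝ) ≤ m := m.cast_nonneg
  have e0 : K.mv (-(n • a)) x (K.mv (m • a) (S.act (-(m • a)) x) z) =
      K.mv (-(n • a) + m • a) (S.act (-(m • a)) x) z := by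
    rw [K.mv_add, S.act_neg]
  have e1 : S.act (-(n • a)) x = S.act (-(n • a) + m • a) (S.act (-(m • a)) x) := by
    rw [S.add, S.act_neg]
  rw [e0, e1, mul_assoc, ← exp_add]
  rcases le_total m n with hmn | hmn
  · obtain ⟨k, rfl⟩ := Nat.exists_eq_add_of_le hmn
    have e2 : -((m + k) • a) + m • a = -(k • a) := by rw [add_nsmul]; abel
    rw [e2]
    refine (h k).trans (mul_le_mul_of_nonneg_left (exp_le_exp.2 ?_) hC)
    push_cast
    have : 0 ≤ J.L0 * (1 + K.L * (1 + m * ‖a‖ + K.h (S.act (-(m • a)) x))) := by positivity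
    nlinarith
  · obtain ⟨k, rfl⟩ := Nat.exists_eq_add_of_le hmn
    have e2 : -(n • a) + (n + k) • a = k • a := by rw [add_nsmul]; abel
    rw [e2, ← K.mv_pt]
    refine (K.mv_lip _ _ _ _).trans ?_
    rw [mul_comm C]
    refine mul_le_mul (exp_le_exp.2 ?_) h.zero dist_nonneg (exp_pos _).le
    have h3 : ‖k • a‖ ≤ ((n + k : ℕ) : ℝ) * ‖a‖ := by
      rw [← Nat.cast_smul_eq_nsmul ℝ, norm_smul, Real.norm_natCast]
      gcongr
      omega
    have h4 : s * n ≤ s * ((n + k : ℕ) : ℝ) := by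
      gcongr
    have h5 : J.L0 * (1 + K.L * (1 + ‖k • a‖ + K.h (S.act (-((n + k) • a)) x))) ≤
        J.L0 * (1 + K.L * (1 + ((n + k : ℕ) : ℝ) * ‖a‖ + K.h (S.act (-((n + k) • a)) x))) := by
      gcongr
    linarith

theorem Par.exists_gap (P : Par K lam r a s1 s2) : ∃ g : ℝ, 0 < g ∧ g ≤ 1 ∧ g ≤ s1 ∧ s1 + g ≤ s2 ∧
    (∀ i, 0 < lam i a → s2 + g ≤ lam i a) ∧ (∀ i, lam i a + g ≤ r * s1) ∧
    J.L0 * K.L * ‖a‖ + g ≤ r * s1 := by
  have key : ∀ {u v : ℝ}, u < v → ∀ᶠ g in 𝓝[>] (0 : ℝ), u + g ≤ v := fun {u v} h =>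
    nhdsWithin_le_nhds ((eventually_le_nhds (sub_pos.2 h)).mono fun g hg => by linarith)
  have h1 : ∀ᶠ g in 𝓝[>] (0 : ℝ), ∀ i, 0 < lam i a → s2 + g ≤ lam i a := by
    refine eventually_all.2 fun i => ?_
    by_cases hi : 0 < lam i a
    · exact (key (P.gap i hi)).mono fun g hg _ => hg
    · exact Eventually.of_forall fun g hg => absurd hg hi
  have h2 : ∀ᶠ g in 𝓝[>] (0 : ℝ), ∀ i, lam i a + g ≤ r * s1 :=
    eventually_all.2 fun i => key (P.res i)
  obtain ⟨g, g1, g2, g3, g4, g5, g6, g7⟩ := ((eventually_mem_nhdsWithin (s := Ioi (0 : ℝ))).and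
    ((key one_pos).and ((key P.s1_pos).and ((key P.lt).and (h1.and (h2.and (key P.lip))))))).exists
  exact ⟨g, g1, by linarith, by linarith, g4, g5, g6, g7⟩

end Pool.Agent.P.MP_d483fb_an.Z.NF

end

end

section

/-!
Normal forms: convergence of the approximations on the unstable leaves.
-/

open MeasureTheory Filter Topology Set Real

set_option linter.unusedSectionVars false

noncomputable section

namespace Pool.Agent.P.MP_d483fb_an.Z.NF

open Os

variable {W X Γ M : Type} [NormedAddCommGroup W] [NormedSpace ℝ W] [MeasurableSpace W]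
  [MeasurableSpace X] {μ : Measure X} [Group Γ] [MeasurableSpace Γ] [MetricSpace M]
  [MeasurableSpace M] {α : Γ →* Equiv.Perm M} {len : Γ → ℝ} {D : ℕ}
  {S : Sys W X μ} {J : Jets α len D} {K : Skew S J} {lam : Fin D → W →L[ℝ] ℝ} {r : ℕ}
  {a : W} {s1 s2 : ℝ}

namespace Formal

variable (F : Formal K lam r)

theorem step (P : Par K lam r a s1 s2) : F.Unif a fun C ε q => ∀ x ∈ F.X0, ∀ (n : ℕ) z i,
    dist (K.mv (-((n + 1) • a)) x z) (K.pt (S.act (-((n + 1) • a)) x)) ≤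
      exp (-(C * (q x + ε * n))) →
    |F.Hn a (n + 1) x z i - F.Hn a n x z i| ≤ exp (C * (q x + ε * n) + lam i a * n) *
      dist (K.mv (-((n + 1) • a)) x z) (K.pt (S.act (-((n + 1) • a)) x)) ^ r := by
  have hL0 := J.L0_nonneg
  have hLr := J.Lr_nonneg r
  have hL := K.L_nonneg
  have hA := F.pc.nonneg
  have hr0 : (0 : ℝ) ≤ r := r.cast_nonneg
  have hr1 : r ≠ 0 := by have := P.two_le; omega
  obtain ⟨B0, hB0⟩ : ∃ B0 : ℝ, B0 = J.Lr r * (1 + K.L * (3 + ‖a‖)) := ⟨_, rfl⟩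
  have hB : 0 ≤ B0 := by rw [hB0]; positivity
  obtain ⟨C, hC⟩ := exists_nat_ge (F.A + r * (B0 + J.L0 + 1) + B0 + J.L0 + 2)
  have hrB : 0 ≤ r * (B0 + J.L0 + 1) := by positivity
  refine ⟨C, 1, by exact_mod_cast (show (1 : ℝ) ≤ C by linarith), one_pos, ?_⟩
  intro ε q hε T x hx n z i hd
  have hq := T.one_le x
  have hεn : 0 ≤ ε * n := mul_nonneg T.pos.le n.cast_nonneg
  have hh := T.h_back (n + 1) hx
  have ht := T.J_le n x hx i
  have e1 := act_succ (S := S) a n x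
  have e2 := mv_succ (K := K) a n x z
  have e3 := F.Jn_succ a n x
  simp only [Hn, e3]
  rw [← e2, ← e1]
  generalize S.act (-((n + 1) • a)) x = y at *
  generalize K.mv (-((n + 1) • a)) x z = z' at *
  obtain ⟨Q, hQ⟩ : ∃ Q : ℝ, Q = q x + ε * n := ⟨_, rfl⟩
  have hQ1 : 1 ≤ Q := by linarith
  have hh2 : K.h y ≤ 2 * Q := by push_cast at hh; linarith
  rw [← hQ] at hd ⊢
  have hBQ : J.Lr r * (1 + K.L * (1 + ‖a‖ + K.h y)) ≤ B0 * Q := by
    rw [hB0, mul_assoc]
    refine mul_le_mul_of_nonneg_left ?_ hLr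
    have h1 : 1 + ‖a‖ + K.h y ≤ (3 + ‖a‖) * Q := by nlinarith [norm_nonneg a]
    have h2 := mul_le_mul_of_nonneg_left h1 hL
    nlinarith
  have hBQ0 : 0 ≤ B0 * Q := by positivity
  have hCQ : F.A + J.L0 + B0 * Q ≤ C * Q := by nlinarith
  have hd0 : 0 ≤ dist z' (K.pt y) := dist_nonneg
  have hd1 : dist z' (K.pt y) ≤ exp (-J.L0) := hd.trans (exp_le_exp.2 (by linarith))
  have hd2 : dist z' (K.pt y) ≤ 1 := hd1.trans (exp_le_one_iff.2 (by linarith))
  have hw := J.c_le hd1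
  have key : ∀ b : ℝ, b ≤ C * Q → exp b * dist z' (K.pt y) ≤ 1 := fun b hb => by
    calc exp b * dist z' (K.pt y) ≤ exp b * exp (-(C * Q)) := by gcongr
      _ ≤ 1 := by rw [← exp_add]; exact exp_le_one_iff.2 (by linarith)
  have hw1 : ‖J.c (K.pt y) z'‖ ≤ 1 := hw.trans (key _ (by linarith))
  have hT : ‖K.T r a y‖ ≤ exp (B0 * Q) := (K.T_le r a y).trans (exp_le_exp.2 hBQ)
  have hj : ‖J.c (K.pt (S.act a y)) (K.mv a y z') - evv (K.T r a y) (J.c (K.pt y) z')‖ ≤
      exp (B0 * Q) * dist z' (K.pt y) ^ r :=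
    (K.jet r a y z' (hd.trans (exp_le_exp.2 (by linarith)))).trans (by gcongr)
  have hj1 : exp (B0 * Q) * dist z' (K.pt y) ^ r ≤ 1 := by
    refine le_trans ?_ (key (B0 * Q) (by linarith))
    gcongr
    exact pow_le_of_le_one hd0 hd2 hr1
  have hu : ‖evv (K.T r a y) (J.c (K.pt y) z')‖ ≤ 1 := by
    refine (F.pc.evv_le _ _ le_rfl (by rwa [exp_zero])).trans ?_
    refine le_trans ?_ (key (F.A + J.L0 + B0 * Q) hCQ)
    calc exp (F.A + r * 0) * ‖K.T r a y‖ * ‖J.c (K.pt y) z'‖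
        ≤ exp (F.A + r * 0) * exp (B0 * Q) * (exp J.L0 * dist z' (K.pt y)) := by gcongr
      _ = _ := by simp only [exp_add, mul_zero, exp_zero]; ring
  have h2e : (2 : ℝ) ≤ exp 1 := by linarith [add_one_le_exp (1 : ℝ)]
  have hv : ‖J.c (K.pt (S.act a y)) (K.mv a y z')‖ ≤ exp 1 := by
    have := norm_sub_norm_le (J.c (K.pt (S.act a y)) (K.mv a y z'))
      (evv (K.T r a y) (J.c (K.pt y) z'))
    linarith
  have a1 := F.pc.comp_err (F.Jn a n x i) (K.T r a y) _ _ hBQ0 hT hw1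
  have a2 := F.pc.ev_lip (F.Jn a n x i) _ _ 1 zero_le_one (hu.trans (by linarith)) hv
  rw [norm_sub_rev] at hj
  have ht' : ‖F.Jn a n x i‖ ≤ exp (Q + lam i a * n) := ht.trans (le_of_eq (by rw [hQ]; ring_nf))
  have hdr : 0 ≤ dist z' (K.pt y) ^ r := pow_nonneg hd0 r
  have hrQ : r * (B0 * Q) + r * J.L0 + r ≤ r * (B0 + J.L0 + 1) * Q := by
    have : B0 * Q + J.L0 + 1 ≤ (B0 + J.L0 + 1) * Q := by nlinarith
    nlinarith [mul_le_mul_of_nonneg_left this hr0]
  have hfin : F.A + r * (B0 * Q) + r * J.L0 + r + B0 * Q + Q + 1 ≤ C * Q := by nlinarith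
  have p1 : 0 ≤ r * (B0 * Q) := by positivity
  have p2 : 0 ≤ r * J.L0 := by positivity
  have b1 : exp (F.A + r * (B0 * Q)) * ‖F.Jn a n x i‖ * ‖J.c (K.pt y) z'‖ ^ r ≤
      exp (C * Q + lam i a * n - 1) * dist z' (K.pt y) ^ r := by
    calc _ ≤ exp (F.A + r * (B0 * Q)) * exp (Q + lam i a * n) *
          (exp J.L0 * dist z' (K.pt y)) ^ r := by gcongr
      _ = exp (F.A + r * (B0 * Q) + (Q + lam i a * n) + r * J.L0) * dist z' (K.pt y) ^ r := by
          rw [mul_pow, ← exp_nat_mul]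
          simp only [exp_add]
          ring
      _ ≤ _ := by gcongr; linarith
  have b2 : exp (F.A + r * 1) * ‖F.Jn a n x i‖ *
      ‖evv (K.T r a y) (J.c (K.pt y) z') - J.c (K.pt (S.act a y)) (K.mv a y z')‖ ≤
      exp (C * Q + lam i a * n - 1) * dist z' (K.pt y) ^ r := by
    calc _ ≤ exp (F.A + r * 1) * exp (Q + lam i a * n) *
          (exp (B0 * Q) * dist z' (K.pt y) ^ r) := by gcongr
      _ = exp (F.A + r * 1 + (Q + lam i a * n) + B0 * Q) * dist z' (K.pt y) ^ r := by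
          simp only [exp_add]
          ring
      _ ≤ _ := by gcongr; linarith
  have b3 : 2 * exp (C * Q + lam i a * n - 1) ≤ exp (C * Q + lam i a * n) := by
    have : exp (C * Q + lam i a * n) = exp 1 * exp (C * Q + lam i a * n - 1) := by
      rw [← exp_add]; ring_nf
    rw [this]
    gcongr
  have b4 := abs_sub_le (ev (comp (F.Jn a n x i) (K.T r a y)) (J.c (K.pt y) z'))
    (ev (F.Jn a n x i) (evv (K.T r a y) (J.c (K.pt y) z')))
    (ev (F.Jn a n x i) (J.c (K.pt (S.act a y)) (K.mv a y z')))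
  have b5 := mul_le_mul_of_nonneg_right b3 hdr
  change |ev (comp (F.Jn a n x i) (K.T r a y)) (J.c (K.pt y) z') -
    ev (F.Jn a n x i) (J.c (K.pt (S.act a y)) (K.mv a y z'))| ≤ _
  linarith

theorem Conv_inc (P : Par K lam r a s1 s2) : ∃ g : ℝ, 0 < g ∧ F.Unif a fun C ε q =>
    C * ε ≤ s1 / 2 ∧ ∀ x ∈ F.X0, ∀ (n : ℕ) z η, K.Sh a s1 η x z →
      η * exp (-(s1 * n)) ≤ exp (-(C * (q x + ε * n))) →
      dist (F.Hn a n x z) (F.Hn a (n + 1) x z) ≤ exp (C * q x) * η ^ r * exp (-g) ^ n := by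
  obtain ⟨g, hg, -, hg1, -, -, hg2, -⟩ := P.exists_gap
  obtain ⟨C, ε0, hC, hε0, h⟩ := F.step P
  have hC0 : (0 : ℝ) < C := by exact_mod_cast hC
  refine ⟨g / 2, by positivity, C, min ε0 (g / (2 * C)), hC, by positivity, ?_⟩
  intro ε q hε T
  have hCε : C * ε ≤ g / 2 := by
    have := hε.trans (min_le_right _ _)
    rw [le_div_iff₀ (by positivity)] at this
    linarith
  refine ⟨by linarith, fun x hx n z η hs hη => ?_⟩
  have hη0 := hs.nonneg
  have hd : dist (K.mv (-((n + 1) • a)) x z) (K.pt (S.act (-((n + 1) • a)) x)) ≤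
      η * exp (-(s1 * n)) := (hs (n + 1)).trans (by
    gcongr
    · exact P.s1_pos.le
    · exact n.le_succ)
  rw [dist_comm, dist_pi_le_iff (by positivity)]
  intro i
  rw [Real.dist_eq]
  refine (h ε q (hε.trans (min_le_left _ _)) T x hx n z i (hd.trans hη)).trans ?_
  calc _ ≤ exp (C * (q x + ε * n) + lam i a * n) * (η * exp (-(s1 * n))) ^ r := by gcongr
    _ = exp (C * q x) * η ^ r * exp ((C * ε + lam i a - r * s1) * n) := by
        rw [mul_pow, ← exp_nat_mul, mul_comm (exp (C * q x)), mul_assoc, ← exp_add,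
          mul_left_comm, ← exp_add]
        ring_nf
    _ ≤ _ := by
        rw [← exp_nat_mul, mul_comm (n : ℝ)]
        gcongr
        linarith [hg2 i]

theorem Conv_ev {s : ℝ} (hs : 0 < s) (R : ℝ) : ∀ᶠ n : ℕ in atTop, R ≤ s * n :=
  (tendsto_natCast_atTop_atTop.const_mul_atTop hs).eventually_ge_atTop R

theorem tendsto_H (P : Par K lam r a s1 s2) {x : X} (hx : x ∈ F.X0) {z : M}
    (hz : z ∈ K.Wu a s1 x) : Tendsto (fun n => F.Hn a n x z) atTop (𝓝 (F.H a x z)) := by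
  obtain ⟨g, hg, C, ε0, -, hε0, h⟩ := F.Conv_inc P
  obtain ⟨q, T⟩ := F.exists_temp a hε0
  obtain ⟨hCε, h⟩ := h ε0 q le_rfl T
  obtain ⟨R, -, hR⟩ := Skew.Wu_exp hz
  obtain ⟨N, hN⟩ := eventually_atTop.1 (Conv_ev (half_pos P.s1_pos) (R + C * q x))
  have hc : CauchySeq fun n => F.Hn a (n + N) x z := by
    refine cauchySeq_of_le_geometric (exp (-g)) (exp (C * q x) * exp R ^ r * exp (-g) ^ N)
      (exp_lt_one_iff.2 (by linarith)) fun n => ?_
    have h1 := h x hx (n + N) z _ hR (by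
      rw [← exp_add]
      refine exp_le_exp.2 ?_
      have h2 := hN (n + N) (Nat.le_add_left _ _)
      have h3 := mul_le_mul_of_nonneg_right hCε (n + N).cast_nonneg
      nlinarith)
    rw [show n + 1 + N = n + N + 1 by ring]
    refine h1.trans (le_of_eq ?_)
    ring
  exact ((cauchySeq_shift N).1 hc).tendsto_limUnder

theorem H_mem (P : Par K lam r a s1 s2) {x : X} (hx : x ∈ F.X0) {z : M}
    (hz : z ∈ K.Wu a s1 x) : F.H a x z ∈ U fun i => lam i a := by
  intro i hi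
  obtain ⟨q, T⟩ := F.exists_temp a (half_pos P.s1_pos)
  obtain ⟨R, -, hR⟩ := Skew.Wu_exp hz
  have hL0 := J.L0_nonneg
  have h1 := tendsto_pi_nhds.1 (F.tendsto_H P hx hz) i
  have h2 : Tendsto (fun n : ℕ => exp (F.A + q x + J.L0 + R) * exp (-(s1 / 2 * n))) atTop
      (𝓝 0) := by
    simpa using (tendsto_exp_neg_atTop_nhds_zero.comp
      (tendsto_natCast_atTop_atTop.const_mul_atTop (half_pos P.s1_pos))).const_mul
      (exp (F.A + q x + J.L0 + R))
  refine tendsto_nhds_unique h1 (squeeze_zero_norm' ?_ h2)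
  filter_upwards [Conv_ev P.s1_pos (R + J.L0)] with n hn
  have hd := hR n
  rw [← exp_add] at hd
  have hw := (J.c_le (hd.trans (exp_le_exp.2 (by linarith)))).trans
    (mul_le_mul_of_nonneg_left hd (exp_pos _).le)
  rw [← exp_add] at hw
  have hJ := T.J_le n x hx i
  have h3 := F.pc.ev_le (F.Jn a n x i) _ 0 le_rfl (hw.trans (exp_le_exp.2 (by linarith)))
  refine h3.trans ?_
  calc _ ≤ exp (F.A + r * 0) * exp (q x + lam i a * n + s1 / 2 * n) *
        exp (J.L0 + (R + -(s1 * n))) := by gcongr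
    _ ≤ _ := by
        rw [← exp_add, ← exp_add, ← exp_add]
        refine exp_le_exp.2 ?_
        have : lam i a * n ≤ 0 := mul_nonpos_of_nonpos_of_nonneg hi n.cast_nonneg
        linarith

theorem H_est (P : Par K lam r a s1 s2) : F.Unif a fun C _ q => ∀ x ∈ F.X0, ∀ z η,
    η ≤ exp (-(C * q x)) → K.Sh a s1 η x z →
    ‖F.H a x z - evv (F.Ψ x) (J.c (K.pt x) z)‖ ≤ exp (C * q x) * η ^ r := by
  obtain ⟨g, hg, C, ε0, hC, hε0, h⟩ := F.Conv_inc P
  have hg1 : exp (-g) < 1 := exp_lt_one_iff.2 (by linarith)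
  obtain ⟨C2, hC2⟩ := exists_nat_ge (1 - exp (-g))⁻¹
  refine ⟨C + C2, ε0, by omega, hε0, fun ε q hε T x hx z η hη hs => ?_⟩
  obtain ⟨hCε, h⟩ := h ε q hε T
  have hq := T.one_le x
  have hη0 := hs.nonneg
  have hC0 : (0 : ℝ) ≤ C2 := C2.cast_nonneg
  have hC3 : (C2 : ℝ) ≤ C2 * q x := by nlinarith
  have h1 := dist_le_of_le_geometric_of_tendsto₀ (exp (-g)) (exp (C * q x) * η ^ r) hg1
    (fun n => h x hx n z η hs (by
      refine (mul_le_mul_of_nonneg_right hη (exp_pos _).le).trans ?_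
      rw [← exp_add]
      refine exp_le_exp.2 ?_
      have h3 := mul_le_mul_of_nonneg_right hCε n.cast_nonneg
      have h4 := mul_nonneg P.s1_pos.le n.cast_nonneg
      push_cast
      nlinarith)) (F.tendsto_H P hx ⟨η, hs⟩)
  rw [F.Hn_zero P.two_le, dist_comm, dist_eq_norm] at h1
  refine h1.trans ?_
  have h5 : (1 - exp (-g))⁻¹ ≤ exp (C2 * q x) := by linarith [add_one_le_exp (C2 * q x)]
  calc _ ≤ exp (C * q x) * η ^ r * exp (C2 * q x) := by
        rw [div_eq_mul_inv]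
        gcongr
    _ = _ := by
        push_cast
        rw [add_mul, exp_add]
        ring

end Formal

end Pool.Agent.P.MP_d483fb_an.Z.NF

end

end
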