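import Pool.Agent.P.MP_d483fb_an.M.A10
import Pool.Agent.P.MP_d483fb_an.M.A26

section

/-!
Normal forms: a two sided discrete Gronwall inequality.
-/

open Filter Topology Real

noncomputable section

namespace Pool.Agent.P.MP_d483fb_an.Z.NF

theorem gron_geo {r : ℝ} (hr : 0 < r) (n : ℕ) :
    ∑ k ∈ Finset.range n, exp (-(r * (k + 1))) ≤ 1 / r := by
  have h : ∀ n : ℕ, r * ∑ k ∈ Finset.range n, exp (-(r * (k + 1))) ≤ 1 - exp (-(r * n)) := by
    intro n
    induction n with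
    | zero => simp
    | succ n ih =>
      rw [Finset.sum_range_succ, mul_add]
      have e : exp (-(r * n)) = exp (-(r * (n + 1))) * exp r := by
        rw [← exp_add]; congr 1; ring
      have h1 := add_one_le_exp r
      have h2 := exp_pos (-(r * (n + 1)))
      push_cast
      nlinarith
  rw [le_div_iff₀ hr, mul_comm]
  have := exp_pos (-(r * n))
  linarith [h n]

theorem gron_geo1 {r : ℝ} (hr : 0 < r) (i t : ℕ) :
    ∑ j ∈ Finset.Ico i t, exp (-(r * (j + 1 - i))) ≤ 1 / r := by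
  rw [Finset.sum_Ico_eq_sum_range]
  refine le_of_eq_of_le (Finset.sum_congr rfl fun k _ => ?_) (gron_geo hr (t - i))
  congr 2
  push_cast
  ring

theorem gron_geo2 {r : ℝ} (hr : 0 < r) (i : ℕ) :
    ∑ j ∈ Finset.range i, exp (-(r * (i - j))) ≤ 1 / r := by
  rw [← Finset.sum_range_reflect]
  refine le_of_eq_of_le (Finset.sum_congr rfl fun k hk => ?_) (gron_geo hr i)
  have hk' := Finset.mem_range.1 hk
  congr 2
  rw [Nat.sub_sub, Nat.cast_sub (by omega)]
  push_cast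
  ring

theorem gron_pos {s2 s3 : ℝ} (h2 : 0 < s2) (h3 : s2 < s3)
    (d : ℕ → ℝ) (t : ℕ) (u v θ ε : ℝ) (hd : ∀ i, 0 ≤ d i) (hu : 0 ≤ u) (hv : 0 < v) (hε : 0 < ε)
    (hs : 2 * ε ≤ s2) (hθ : 0 ≤ θ) (hc : θ * (1 / (s3 - s2) + 1 / ε) ≤ 1 / 2)
    (h : ∀ i ≤ t, d i ≤ u * exp (-(s3 * (t - i))) + v * exp (ε * i) +
        θ * (∑ j ∈ Finset.Ico i t, exp (-(s3 * (j + 1 - i))) * d j +
          ∑ j ∈ Finset.range i, exp (ε * (i - (j + 1))) * d j)) :
    ∀ i ≤ t, d i ≤ 2 * (u * exp (-(s2 * (t - i))) + v * exp (2 * ε * i)) := by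
  obtain ⟨φ, hφ⟩ : ∃ φ : ℕ → ℝ, ∀ i, φ i = u * exp (-(s2 * (t - i))) + v * exp (2 * ε * i) :=
    ⟨_, fun _ => rfl⟩
  have hp : ∀ i, 0 < φ i := fun i => by rw [hφ]; positivity
  have hcmp : ∀ (i j : ℕ) (a : ℝ), s2 * (j - i) ≤ a → 2 * ε * (j - i) ≤ a →
      φ j ≤ exp a * φ i := by
    intro i j a a1 a2
    rw [hφ, hφ, mul_add, mul_left_comm, mul_left_comm (exp a), ← exp_add, ← exp_add]
    exact add_le_add (mul_le_mul_of_nonneg_left (exp_le_exp.2 (by linarith)) hu)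
      (mul_le_mul_of_nonneg_left (exp_le_exp.2 (by linarith)) hv.le)
  obtain ⟨i, hi, hmax⟩ := Finset.exists_max_image (Finset.range (t + 1)) (fun i => d i / φ i)
    ⟨0, by simp⟩
  have hit : i ≤ t := Nat.lt_succ_iff.1 (Finset.mem_range.1 hi)
  set M := d i / φ i with hM
  have hM0 : 0 ≤ M := div_nonneg (hd i) (hp i).le
  have hb : ∀ j ≤ t, d j ≤ M * φ j := fun j hj =>
    (div_le_iff₀ (hp j)).1 (hmax j (Finset.mem_range.2 (Nat.lt_succ_iff.2 hj)))
  have hMφ : 0 ≤ M * φ i := mul_nonneg hM0 (hp i).le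
  have s1 : ∑ j ∈ Finset.Ico i t, exp (-(s3 * (j + 1 - i))) * d j ≤ M * φ i * (1 / (s3 - s2)) := by
    refine le_trans ?_ (mul_le_mul_of_nonneg_left (gron_geo1 (sub_pos.2 h3) i t) hMφ)
    rw [Finset.mul_sum]
    refine Finset.sum_le_sum fun j hj => ?_
    obtain ⟨j1, j2⟩ := Finset.mem_Ico.1 hj
    have j3 : (i : ℝ) ≤ j := by exact_mod_cast j1
    have c1 := hcmp i j (s2 * (j + 1 - i)) (by nlinarith) (by nlinarith)
    calc exp (-(s3 * (j + 1 - i))) * d j
        ≤ exp (-(s3 * (j + 1 - i))) * (M * (exp (s2 * (j + 1 - i)) * φ i)) :=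
          mul_le_mul_of_nonneg_left ((hb j j2.le).trans (mul_le_mul_of_nonneg_left c1 hM0))
            (exp_pos _).le
      _ = M * φ i * (exp (-(s3 * (j + 1 - i))) * exp (s2 * (j + 1 - i))) := by ring
      _ = _ := by rw [← exp_add]; congr 2; ring
  have s2' : ∑ j ∈ Finset.range i, exp (ε * (i - (j + 1))) * d j ≤ M * φ i * (1 / ε) := by
    refine le_trans ?_ (mul_le_mul_of_nonneg_left (gron_geo2 hε i) hMφ)
    rw [Finset.mul_sum]
    refine Finset.sum_le_sum fun j hj => ?_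
    have j1 := Finset.mem_range.1 hj
    have j3 : (j : ℝ) ≤ i := by exact_mod_cast j1.le
    have c1 := hcmp i j (2 * ε * (j - i)) (by nlinarith) le_rfl
    calc exp (ε * (i - (j + 1))) * d j
        ≤ exp (ε * (i - j)) * (M * (exp (2 * ε * (j - i)) * φ i)) :=
          mul_le_mul (exp_le_exp.2 (by nlinarith))
            ((hb j (by omega)).trans (mul_le_mul_of_nonneg_left c1 hM0)) (hd j) (exp_pos _).le
      _ = M * φ i * (exp (ε * (i - j)) * exp (2 * ε * (j - i))) := by ring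
      _ = _ := by rw [← exp_add]; congr 2; ring
  have s0 : u * exp (-(s3 * (t - i))) + v * exp (ε * i) ≤ φ i := by
    rw [hφ]
    have i1 : (i : ℝ) ≤ t := by exact_mod_cast hit
    have i0 : (0 : ℝ) ≤ i := Nat.cast_nonneg i
    exact add_le_add (mul_le_mul_of_nonneg_left (exp_le_exp.2 (by nlinarith)) hu)
      (mul_le_mul_of_nonneg_left (exp_le_exp.2 (by nlinarith)) hv.le)
  have e : d i = M * φ i := by rw [hM, div_mul_cancel₀ _ (hp i).ne']
  have s3' := mul_le_mul_of_nonneg_left (add_le_add s1 s2') hθ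
  have s4 : θ * (M * φ i * (1 / (s3 - s2)) + M * φ i * (1 / ε)) ≤ M * φ i * (1 / 2) := by
    rw [← mul_add, mul_left_comm]
    exact mul_le_mul_of_nonneg_left hc hMφ
  have hM2 : M ≤ 2 := by
    have h5 : M * φ i ≤ 2 * φ i := by linarith [h i hit]
    exact le_of_mul_le_mul_right h5 (hp i)
  intro j hj
  rw [← hφ]
  exact (hb j hj).trans (mul_le_mul_of_nonneg_right hM2 (hp j).le)

theorem gronwall2 {s2 s3 : ℝ} (h2 : 0 < s2) (h3 : s2 < s3) : ∃ c : ℝ, 0 < c ∧ c ≤ 1 ∧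
    ∀ (d : ℕ → ℝ) (t : ℕ) (u v θ ε : ℝ), (∀ i, 0 ≤ d i) → 0 ≤ u → 0 ≤ v → 0 < ε → 2 * ε ≤ s2 →
      0 ≤ θ → θ ≤ c * ε →
      (∀ i ≤ t, d i ≤ u * exp (-(s3 * (t - i))) + v * exp (ε * i) +
        θ * (∑ j ∈ Finset.Ico i t, exp (-(s3 * (j + 1 - i))) * d j +
          ∑ j ∈ Finset.range i, exp (ε * (i - (j + 1))) * d j)) →
      ∀ i ≤ t, d i ≤ 2 * (u * exp (-(s2 * (t - i))) + v * exp (2 * ε * i)) := by
  have h4 : 0 < s2 * (1 / (s3 - s2)) := mul_pos h2 (one_div_pos.2 (sub_pos.2 h3))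
  have h5 : 0 < s2 * (1 / (s3 - s2)) + 2 := by linarith
  refine ⟨1 / (s2 * (1 / (s3 - s2)) + 2), one_div_pos.2 h5, (div_le_one h5).2 (by linarith), ?_⟩
  intro d t u v θ ε hd hu hv hε hs hθ hc h i hi
  have hq : 0 < 1 / (s3 - s2) := one_div_pos.2 (sub_pos.2 h3)
  have hc' : θ * (1 / (s3 - s2) + 1 / ε) ≤ 1 / 2 := by
    refine (mul_le_mul_of_nonneg_right hc (by positivity)).trans ?_
    rw [mul_assoc, mul_add, mul_one_div_cancel hε.ne', one_div_mul_eq_div, div_le_iff₀ h5]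
    nlinarith
  refine le_of_forall_pos_le_add fun η hη => ?_
  have hE := exp_pos (2 * ε * i)
  have h6 := gron_pos h2 h3 d t u (v + η / (2 * exp (2 * ε * i))) θ ε hd hu (by positivity) hε hs
    hθ hc' (fun j hj => (h j hj).trans (by
      have : 0 ≤ η / (2 * exp (2 * ε * i)) * exp (ε * j) := by positivity
      linarith)) i hi
  have e : η / (2 * exp (2 * ε * i)) * exp (2 * ε * i) = η / 2 := by field_simp
  linarith

/-- Variation of constants from the final time and from the initial time. -/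
theorem varconst {V : Type} [AddCommGroup V] [Module ℝ V] (Λ : ℕ → ℕ → V →ₗ[ℝ] V)
    (h1 : ∀ i v, Λ i i v = v) (h2 : ∀ i j k v, Λ i j (Λ j k v) = Λ i k v) (u : ℕ → V) {i t : ℕ}
    (h : i ≤ t) :
    u i = Λ i t (u t) - ∑ j ∈ Finset.Ico i t, Λ i (j + 1) (u (j + 1) - Λ (j + 1) j (u j)) ∧
    u i = Λ i 0 (u 0) + ∑ j ∈ Finset.range i, Λ i (j + 1) (u (j + 1) - Λ (j + 1) j (u j)) := by
  have e : ∀ j, Λ i (j + 1) (u (j + 1) - Λ (j + 1) j (u j)) =
      Λ i (j + 1) (u (j + 1)) - Λ i j (u j) := fun j => by rw [map_sub, h2]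
  simp only [e]
  constructor
  · rw [Finset.sum_Ico_sub (fun j => Λ i j (u j)) h, h1]
    abel
  · rw [Finset.sum_range_sub (fun j => Λ i j (u j)), h1]
    abel

end Pool.Agent.P.MP_d483fb_an.Z.NF

end

end

section

/-!
Normal forms: one step of the dynamics in the formal normal form coordinates.
-/

open MeasureTheory Filter Topology Set Real

set_option linter.unusedSectionVars false

noncomputable section

namespace Pool.Agent.P.MP_d483fb_an.Z.NF

open Os

variable {W X Γ M : Type} [NormedAddCommGroup W] [NormedSpace ℝ W] [MeasurableSpace W]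
  [MeasurableSpace X] {μ : Measure X} [Group Γ] [MeasurableSpace Γ] [MetricSpace M]
  [MeasurableSpace M] {α : Γ →* Equiv.Perm M} {len : Γ → ℝ} {D : ℕ}
  {S : Sys W X μ} {J : Jets α len D} {K : Skew S J} {lam : Fin D → W →L[ℝ] ℝ} {r : ℕ}
  {a : W} {s1 s2 : ℝ}

namespace Formal

variable (F : Formal K lam r)

/-- One step of the dynamics in the coordinates `Ψ` is linear up to a quadratic error. -/
theorem lin_step (P : Par K lam r a s1 s2) : F.Unif a fun C _ q => ∀ x ∈ F.X0, ∀ z,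
    dist z (K.pt x) ≤ exp (-(C * q x)) →
    ‖evv (F.Ψ x) (J.c (K.pt x) z)‖ ≤ exp (C * q x) * dist z (K.pt x) ∧
    dist z (K.pt x) ≤ exp (C * q x) * ‖evv (F.Ψ x) (J.c (K.pt x) z)‖ ∧
    ‖evv (F.Ψ (S.act a x)) (J.c (K.pt (S.act a x)) (K.mv a x z)) -
      linv (F.N a x) (evv (F.Ψ x) (J.c (K.pt x) z))‖ ≤ exp (C * q x) * dist z (K.pt x) ^ 2 := by
  obtain ⟨k, hk⟩ : ∃ k : ℝ, k = F.A + J.L0 + J.Lr r * (1 + K.L * (2 + ‖a‖)) +
    (∑ i, |lam i a|) + ‖a‖ + 2 := ⟨_, rfl⟩
  have hA := F.pc.nonneg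
  have hL0 := J.L0_nonneg
  have hLr := J.Lr_nonneg r
  have hL := K.L_nonneg
  have ha := norm_nonneg a
  have hS : 0 ≤ ∑ i, |lam i a| := Finset.sum_nonneg fun _ _ => abs_nonneg _
  have hc : 0 ≤ J.Lr r * (1 + K.L * (2 + ‖a‖)) := by positivity
  obtain ⟨C, hC⟩ := exists_nat_ge (k * (r + 10 : ℕ))
  have hk2 : 2 ≤ k := by linarith
  have hr10 : (1 : ℝ) ≤ (r + 10 : ℕ) := by exact_mod_cast Nat.le_add_left 1 (r + 9)
  refine ⟨C, 1, by
    exact_mod_cast (show (1 : ℝ) ≤ C from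
      le_trans (one_le_mul_of_one_le_of_one_le (by linarith) hr10) hC), one_pos,
    fun ε q hε T x hx z hz => ?_⟩
  have hq := T.one_le x
  have hx' := F.inv0 a x hx
  have hq' : q (S.act a x) ≤ q x + 1 := by
    have := T.slow_f 1 x hx
    rw [one_nsmul] at this
    push_cast at this
    linarith
  obtain ⟨B, hB⟩ : ∃ B, B = exp (k * q x) := ⟨_, rfl⟩
  have hle : ∀ c : ℝ, c ≤ k * q x → exp c ≤ B := fun c h => hB ▸ exp_le_exp.2 h
  have hk0 : 0 ≤ k := by linarith
  have hkq : ∀ c : ℝ, c ≤ k → c ≤ k * q x := fun c h => h.trans (le_mul_of_one_le_right hk0 hq)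
  have hkq1 : ∀ c : ℝ, c + 1 ≤ k → q x + c ≤ k * q x := fun c h => by
    have h1 : k - 1 ≤ (k - 1) * q x := le_mul_of_one_le_right (by linarith) hq
    linarith
  have hB2 : 2 ≤ B := le_trans (by linarith [add_one_le_exp (2 : ℝ)]) (hle 2 (hkq _ hk2))
  have hB1 : 1 ≤ B := by linarith
  have hB0 : 0 < B := by linarith
  have bC : B ^ (r + 10) ≤ exp (C * q x) := by
    rw [hB, ← exp_nat_mul]
    refine exp_le_exp.2 ?_
    rw [← mul_assoc, mul_comm _ k]
    gcongr
  set d := dist z (K.pt x) with hd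
  have d0 : 0 ≤ d := dist_nonneg
  have hη : B ^ (r + 10) * d ≤ 1 := by
    calc B ^ (r + 10) * d ≤ exp (C * q x) * exp (-(C * q x)) := by gcongr
      _ = 1 := by rw [← exp_add, add_neg_cancel, exp_zero]
  have hp : ∀ m, m ≤ r + 9 → 2 * (B ^ m * d) ≤ 1 := fun m hm =>
    calc 2 * (B ^ m * d) ≤ B * (B ^ (r + 9) * d) := by gcongr
      _ = B ^ (r + 10) * d := by ring
      _ ≤ 1 := hη
  have hsm : ∀ c : ℝ, exp c ≤ B → d ≤ exp (-c) := fun c h => by
    have h1 := hp 1 (by omega)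
    rw [exp_neg, ← one_div, le_div_iff₀ (exp_pos c)]
    rw [pow_one] at h1
    have h2 : d * exp c ≤ d * B := by gcongr
    have h3 : 0 ≤ d * B := by positivity
    linarith
  have bA : exp F.A ≤ B := hle _ (hkq _ (by linarith))
  have bA0 : exp (F.A + r * 0) ≤ B := by simpa using bA
  have bL0 : exp J.L0 ≤ B := hle _ (hkq _ (by linarith))
  have bR : exp (F.A + r * (k * q x)) ≤ B ^ (r + 1) := by
    rw [exp_add, exp_nat_mul, ← hB, pow_succ']
    gcongr
  have q1 := hkq1 1 (by linarith)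
  have bΨ : ‖F.Ψ x‖ ≤ B := (T.Ψ_le x hx).trans (hle _ (by linarith))
  have bQ : ‖F.Q x‖ ≤ B := (T.Q_le x hx).trans (hle _ (by linarith))
  have bΨ' : ‖F.Ψ (S.act a x)‖ ≤ B := (T.Ψ_le _ hx').trans (hle _ (by linarith))
  have bΛ : exp (J.Lr r * (1 + K.L * (1 + ‖a‖ + K.h x))) ≤ B := by
    refine hle _ ?_
    have h1 : 1 + ‖a‖ + K.h x ≤ (2 + ‖a‖) * q x := by
      have h3 : ‖a‖ ≤ ‖a‖ * q x := le_mul_of_one_le_right ha hq
      linarith [T.h_le x hx]
    have h2 : 1 + K.L * (1 + ‖a‖ + K.h x) ≤ (1 + K.L * (2 + ‖a‖)) * q x := by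
      linarith [mul_le_mul_of_nonneg_left h1 hL]
    calc _ ≤ J.Lr r * ((1 + K.L * (2 + ‖a‖)) * q x) := by gcongr
      _ = J.Lr r * (1 + K.L * (2 + ‖a‖)) * q x := by ring
      _ ≤ k * q x := by gcongr; linarith
  have bT : ‖K.T r a x‖ ≤ B := (K.T_le r a x).trans bΛ
  have bN : ‖F.N a x‖ ≤ B := (pi_norm_le_iff_of_nonneg hB0.le).2 fun i =>
    (T.N_le a x hx i).trans (hle _ (by
      have h1 : |lam i a| ≤ ∑ i, |lam i a| :=
        Finset.single_le_sum (f := fun i => |lam i a|) (fun _ _ => abs_nonneg _) (Finset.mem_univ i)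
      have h2 := le_abs_self (lam i a)
      have h3 : ε * ‖a‖ ≤ ‖a‖ := mul_le_of_le_one_left ha hε
      have h4 := hkq1 ((∑ i, |lam i a|) + ‖a‖) (by linarith)
      linarith))
  have R0 : 0 ≤ k * q x := by positivity
  set w := J.c (K.pt x) z with hw
  have hwd : ‖w‖ ≤ B * d := (J.c_le (hsm _ bL0)).trans (by gcongr)
  have hdw : d ≤ B * ‖w‖ := (J.c_ge (hsm _ bL0)).trans (by gcongr)
  have w1 : ‖w‖ ≤ 1 := by
    have := hp 1 (by omega)
    rw [pow_one] at this
    linarith [mul_nonneg hB0.le d0]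
  have d1 : d ≤ 1 := by have := hp 0 (by omega); rw [pow_zero] at this; linarith
  have wr : ‖w‖ ^ r ≤ ‖w‖ ^ 2 := pow_le_pow_of_le_one (norm_nonneg _) w1 P.two_le
  have w2 : ‖w‖ ^ r ≤ (B * d) ^ 2 := wr.trans (by gcongr)
  have hev : ∀ (G : Jt D r) (v : E D), ‖G‖ ≤ B → ‖v‖ ≤ 1 → ‖evv G v‖ ≤ B ^ 2 * ‖v‖ :=
    fun G v h1 h2 => (F.pc.evv_le G v le_rfl (by simpa using h2)).trans (by rw [sq]; gcongr)
  have herr : ∀ G G' : Jt D r, ‖G‖ ≤ B → ‖G'‖ ≤ B →
      ‖evv (compv G G') w - evv G (evv G' w)‖ ≤ B ^ (r + 2) * ‖w‖ ^ r := fun G G' h1 h2 =>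
    (F.pc.compv_err G G' w R0 (hB ▸ h2) w1).trans (by rw [pow_succ B (r + 1)]; gcongr)
  set u := evv (F.Ψ x) w with hu
  have hud : ‖u‖ ≤ B ^ 3 * d := (hev _ _ bΨ w1).trans (by
    calc B ^ 2 * ‖w‖ ≤ B ^ 2 * (B * d) := by gcongr
      _ = _ := by ring)
  have h3 := hp 3 (by omega)
  have h30 : 0 ≤ B ^ 3 * d := by positivity
  have u1 : ‖u‖ ≤ 1 := by linarith
  have hpow : ∀ m, m ≤ r + 10 → B ^ m ≤ exp (C * q x) := fun m hm =>
    (pow_le_pow_right₀ hB1 hm).trans bC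
  refine ⟨hud.trans (by gcongr; exact hpow 3 (by omega)), ?_, ?_⟩
  · have h1 := herr _ _ bQ bΨ
    rw [F.QΨ x hx, evv_idv P.two_le] at h1
    have h2 := hev _ u bQ u1
    have h4 : B ^ (r + 2) * ‖w‖ ^ r ≤ B ^ (r + 3) * d * ‖w‖ :=
      calc B ^ (r + 2) * ‖w‖ ^ r ≤ B ^ (r + 2) * (‖w‖ * ‖w‖) := by rw [← sq]; gcongr
        _ ≤ B ^ (r + 2) * (B * d * ‖w‖) := by gcongr
        _ = _ := by ring
    have h5 := mul_le_mul_of_nonneg_right (hp (r + 3) (by omega)) (norm_nonneg w)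
    have h6 := norm_le_norm_add_norm_sub' w (evv (F.Q x) u)
    have h7 : ‖w‖ ≤ 2 * (B ^ 2 * ‖u‖) := by linarith
    calc d ≤ B * (B * (B ^ 2 * ‖u‖)) := hdw.trans (by gcongr; exact h7.trans (by gcongr))
      _ = B ^ 4 * ‖u‖ := by ring
      _ ≤ _ := by gcongr; exact hpow 4 (by omega)
  · set w' := J.c (K.pt (S.act a x)) (K.mv a x z) with hw'
    have j1 : ‖w' - evv (K.T r a x) w‖ ≤ B * d ^ 2 :=
      (K.jet r a x z (hsm _ bΛ)).trans (mul_le_mul bΛ (pow_le_pow_of_le_one d0 d1 P.two_le)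
        (by positivity) hB0.le)
    have j2 : ‖evv (K.T r a x) w‖ ≤ B ^ 3 * d := (hev _ _ bT w1).trans (by
      calc B ^ 2 * ‖w‖ ≤ B ^ 2 * (B * d) := by gcongr
        _ = _ := by ring)
    have j3 : B * d ^ 2 ≤ B ^ 3 * d := by
      rw [sq d, ← mul_assoc]
      gcongr
      calc B * d ≤ B * 1 := by gcongr
        _ = B ^ 1 := by ring
        _ ≤ B ^ 3 := pow_le_pow_right₀ hB1 (by omega)
    have j4 : ‖w'‖ ≤ 1 := by
      have := norm_le_norm_add_norm_sub' w' (evv (K.T r a x) w)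
      linarith
    have e1 : ‖evv (F.Ψ (S.act a x)) w' - evv (F.Ψ (S.act a x)) (evv (K.T r a x) w)‖ ≤
        B * B * (B * d ^ 2) :=
      (F.pc.evv_lip _ _ _ le_rfl (by simpa using j4) (by rw [exp_zero]; linarith)).trans
        (by gcongr)
    have e2 := herr _ _ bΨ' bT
    rw [F.conj a x hx] at e2
    have e3 := herr _ _ bN bΨ
    have e4 : ‖evv (F.N a x) u - linv (F.N a x) u‖ ≤ B * B * (B ^ 3 * d) ^ 2 :=
      (F.pc.evv_lin _ u u1).trans (by gcongr)
    have f1 : B * B * (B * d ^ 2) ≤ B ^ (r + 8) * d ^ 2 :=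
      calc B * B * (B * d ^ 2) = B ^ 3 * d ^ 2 := by ring
        _ ≤ _ := by gcongr; omega
    have f2 : B ^ (r + 2) * ‖w‖ ^ r ≤ B ^ (r + 8) * d ^ 2 :=
      calc B ^ (r + 2) * ‖w‖ ^ r ≤ B ^ (r + 2) * (B * d) ^ 2 := by gcongr
        _ = B ^ (r + 4) * d ^ 2 := by ring
        _ ≤ _ := by gcongr; omega
    have f3 : B * B * (B ^ 3 * d) ^ 2 ≤ B ^ (r + 8) * d ^ 2 :=
      calc B * B * (B ^ 3 * d) ^ 2 = B ^ 8 * d ^ 2 := by ring
        _ ≤ _ := by gcongr; omega
    have f4 : 4 * (B ^ (r + 8) * d ^ 2) ≤ exp (C * q x) * d ^ 2 :=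
      calc 4 * (B ^ (r + 8) * d ^ 2) = 2 * 2 * (B ^ (r + 8) * d ^ 2) := by ring
        _ ≤ B * B * (B ^ (r + 8) * d ^ 2) := by gcongr
        _ = B ^ (r + 10) * d ^ 2 := by ring
        _ ≤ _ := by gcongr
    have t1 := norm_sub_le_norm_sub_add_norm_sub (evv (F.Ψ (S.act a x)) w')
      (evv (F.Ψ (S.act a x)) (evv (K.T r a x) w)) (linv (F.N a x) u)
    have t2 := norm_sub_le_norm_sub_add_norm_sub (evv (F.Ψ (S.act a x)) (evv (K.T r a x) w))
      (evv (compv (F.N a x) (F.Ψ x)) w) (linv (F.N a x) u)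
    have t3 := norm_sub_le_norm_sub_add_norm_sub (evv (compv (F.N a x) (F.Ψ x)) w)
      (evv (F.N a x) u) (linv (F.N a x) u)
    rw [norm_sub_rev] at e2
    linarith

end Formal

end Pool.Agent.P.MP_d483fb_an.Z.NF

end

end

section

/-!
Normal forms: orbits that stay close during a time interval.
-/

open MeasureTheory Filter Topology Set Real

set_option linter.unusedSectionVars false

noncomputable section

namespace Pool.Agent.P.MP_d483fb_an.Z.NF

open Os

variable {W X Γ M : Type} [NormedAddCommGroup W] [NormedSpace ℝ W] [MeasurableSpace W]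
  [MeasurableSpace X] {μ : Measure X} [Group Γ] [MeasurableSpace Γ] [MetricSpace M]
  [MeasurableSpace M] {α : Γ →* Equiv.Perm M} {len : Γ → ℝ} {D : ℕ}
  {S : Sys W X μ} {J : Jets α len D} {K : Skew S J} {lam : Fin D → W →L[ℝ] ℝ} {r : ℕ}
  {a : W} {s1 s2 : ℝ}

namespace Formal

variable (F : Formal K lam r)

theorem track (P : Par K lam r a s1 s2) : F.Unif a fun C ε q => ∀ x ∈ F.X0, ∀ (t : ℕ) z,
    (∀ i ≤ t, dist (K.mv (i • a) x z) (K.pt (S.act (i • a) x)) ≤
      exp (-(C * q (S.act (i • a) x)))) →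
    ∀ i ≤ t, dist (K.mv (i • a) x z) (K.pt (S.act (i • a) x)) ≤
      exp (C * q (S.act (t • a) x) - s2 * (t - i)) + exp (C * (q x + ε * t)) * dist z (K.pt x) := by
  obtain ⟨C1, ε1, hC1, hε1, hstep⟩ := F.lin_step P
  obtain ⟨g, g0, g1, gs1, gs2, ggap, -, -⟩ := P.exists_gap
  have hs2 : 0 < s2 := P.s1_pos.trans P.lt
  obtain ⟨c, c0, c1, hgr⟩ := gronwall2 (s2 := s2 + g / 3) (s3 := s2 + 2 * g / 3) (by linarith)
    (by linarith)
  have hA := F.pc.nonneg
  have hc : 0 ≤ -log c := neg_nonneg.2 (log_nonpos c0.le c1)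
  have hC1' : (1 : ℝ) ≤ C1 := by exact_mod_cast hC1
  obtain ⟨C, hC⟩ := exists_nat_ge (F.A + 2 * C1 + 3 + -log c)
  refine ⟨C, min ε1 (g / (3 * C1)), by exact_mod_cast (show (1 : ℝ) ≤ C by linarith),
    lt_min hε1 (by positivity), fun ε q hε T x hx t z hz => ?_⟩
  have e0 := T.pos
  have eC : C1 * ε ≤ g / 3 := by
    have := hε.trans (min_le_right _ _)
    rw [le_div_iff₀ (by positivity)] at this
    linarith
  have eg : ε ≤ g / 3 := (le_mul_of_one_le_left e0.le hC1').trans eC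
  replace hstep := hstep ε q (hε.trans (min_le_left _ _)) T
  obtain ⟨y, hy⟩ : ∃ y : ℕ → X, ∀ i, y i = S.act (i • a) x := ⟨_, fun _ => rfl⟩
  obtain ⟨d, hd⟩ : ∃ d : ℕ → ℝ, ∀ i, d i = dist (K.mv (i • a) x z) (K.pt (y i)) := ⟨_, fun _ => rfl⟩
  obtain ⟨u, hu⟩ : ∃ u : ℕ → E D, ∀ i,
      u i = evv (F.Ψ (y i)) (J.c (K.pt (y i)) (K.mv (i • a) x z)) := ⟨_, fun _ => rfl⟩
  simp only [← hy, ← hd] at hz ⊢
  have hy0 : ∀ i, y i ∈ F.X0 := fun i => hy i ▸ F.inv0 _ x hx
  have hq : ∀ i, 1 ≤ q (y i) := fun i => T.one_le _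
  have d0 : ∀ i, 0 ≤ d i := fun i => hd i ▸ dist_nonneg
  have hyy : ∀ i j : ℕ, S.act (((i : ℤ) - j) • a) (y j) = y i := fun i j => by
    rw [hy, hy, ← S.add, sub_zsmul, natCast_zsmul, natCast_zsmul, neg_add_cancel_right]
  have hpos : ∀ {i j : ℕ}, j ≤ i → ((i : ℤ) - j) • a = (i - j) • a := fun h => by
    rw [← Nat.cast_sub h, natCast_zsmul]
  have hneg : ∀ {i j : ℕ}, i ≤ j → ((i : ℤ) - j) • a = -((j - i) • a) := fun h => by
    rw [← hpos h, ← neg_zsmul, neg_sub]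
  have qf : ∀ {i j : ℕ}, j ≤ i → q (y i) ≤ q (y j) + ε * (i - j) := fun {i j} h => by
    have := T.slow_f (i - j) _ (hy0 j)
    rwa [← hpos h, hyy, Nat.cast_sub h] at this
  have qb : ∀ {i j : ℕ}, i ≤ j → q (y i) ≤ q (y j) + ε * (j - i) := fun {i j} h => by
    have := T.slow_b (j - i) _ (hy0 j)
    rwa [← hneg h, hyy, Nat.cast_sub h] at this
  have hone : ∀ j : ℕ, (((j + 1 : ℕ) : ℤ) - j) • a = a := fun j => by simp
  let Λ : ℕ → ℕ → E D →ₗ[ℝ] E D := fun i j => linv (F.N (((i : ℤ) - j) • a) (y j))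
  have Λ1 : ∀ i v, Λ i i v = v := fun i v => by
    simp only [Λ, sub_self, zero_zsmul, F.N_zero P.two_le (hy0 i), linv_idv P.two_le]
    rfl
  have Λ2 : ∀ i j k v, Λ i j (Λ j k v) = Λ i k v := fun i j k v => by
    have e : ((i : ℤ) - k) • a = ((i : ℤ) - j) • a + ((j : ℤ) - k) • a := by
      rw [← add_zsmul, sub_add_sub_cancel]
    simp only [Λ]
    rw [e, F.N_add P.two_le _ _ (hy0 k), linv_compv, hyy]
    rfl
  have row : ∀ (i j : ℕ) l v (b : ℝ), ‖F.N (((i : ℤ) - j) • a) (y j) l‖ ≤ exp (q (y j) + b) →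
      |Λ i j v l| ≤ exp b * (exp (F.A + q (y j)) * ‖v‖) := fun i j l v b h =>
    calc |Λ i j v l| ≤ ‖lin (F.N (((i : ℤ) - j) • a) (y j) l)‖ * ‖v‖ := (lin _).le_opNorm v
      _ ≤ exp F.A * exp (q (y j) + b) * ‖v‖ := by
        gcongr
        exact (F.pc.lin_le _).trans (by gcongr)
      _ = _ := by simp only [exp_add]; ring
  have rowb : ∀ {i j : ℕ} l v, i ≤ j → 0 < lam l a → |Λ i j v l| ≤
      exp (-((s2 + 2 * g / 3) * (j - i))) * (exp (F.A + q (y j)) * ‖v‖) := fun {i j} l v h hl => by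
    refine row i j l v _ ?_
    rw [hneg h]
    refine (T.N_b _ _ (hy0 j) l).trans (exp_le_exp.2 ?_)
    have h1 : (0 : ℝ) ≤ j - i := sub_nonneg.2 (Nat.cast_le.2 h)
    have h2 := mul_le_mul_of_nonneg_right
      (show s2 + 2 * g / 3 + ε ≤ lam l a by linarith [ggap l hl]) h1
    rw [Nat.cast_sub h]
    linarith
  have rowf : ∀ {i j : ℕ} l v, j ≤ i → lam l a ≤ 0 → |Λ i j v l| ≤
      exp (ε * (i - j)) * (exp (F.A + q (y j)) * ‖v‖) := fun {i j} l v h hl => by
    refine row i j l v _ ?_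
    rw [hpos h]
    refine (T.N_f _ _ (hy0 j) l).trans (exp_le_exp.2 ?_)
    have h1 : (0 : ℝ) ≤ i - j := sub_nonneg.2 (Nat.cast_le.2 h)
    have h2 := mul_nonpos_of_nonpos_of_nonneg hl h1
    rw [Nat.cast_sub h]
    linarith
  have hCq : ∀ i (b : ℝ), b ≤ C → b * q (y i) ≤ C * q (y i) := fun i b h =>
    mul_le_mul_of_nonneg_right h (by linarith [hq i])
  have st : ∀ i ≤ t, ‖u i‖ ≤ exp (C1 * q (y i)) * d i ∧ d i ≤ exp (C1 * q (y i)) * ‖u i‖ ∧
      ‖u (i + 1) - Λ (i + 1) i (u i)‖ ≤ exp (C1 * q (y i)) * d i ^ 2 := fun i hi => by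
    have h := hstep (y i) (hy0 i) (K.mv (i • a) x z) (by
      rw [← hd]
      exact (hz i hi).trans (exp_le_exp.2 (neg_le_neg (hCq i _ (by linarith)))))
    have e1 : S.act a (y i) = y (i + 1) := by rw [← hyy (i + 1) i, hone]
    have e2 : K.mv a (y i) (K.mv (i • a) x z) = K.mv ((i + 1) • a) x z := by
      rw [hy, K.mv_mv, succ_nsmul']
    rw [← hd, ← hu, e1, e2, ← hu] at h
    simpa only [Λ, hone, ContinuousLinearMap.coe_coe] using h
  have err : ∀ j ≤ t, exp (F.A + q (y (j + 1))) * ‖u (j + 1) - Λ (j + 1) j (u j)‖ ≤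
      c * ε * ‖u j‖ := fun j hj => by
    obtain ⟨-, h2, h3⟩ := st j hj
    have h4 := qf (Nat.le_add_right j 1)
    push_cast at h4
    have h5 := hCq j _ hC
    have h6 : F.A ≤ F.A * q (y j) := le_mul_of_one_le_right hA (hq j)
    have h7 : -log c ≤ -log c * q (y j) := le_mul_of_one_le_right hc (hq j)
    calc _ ≤ exp (F.A + q (y (j + 1))) * (exp (C1 * q (y j)) * (exp (-(C * q (y j))) *
          (exp (C1 * q (y j)) * ‖u j‖))) := by
          gcongr
          refine h3.trans ?_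
          rw [sq]
          gcongr
          exacts [d0 j, hz j hj]
      _ = exp (F.A + q (y (j + 1)) + C1 * q (y j) + -(C * q (y j)) + C1 * q (y j)) * ‖u j‖ := by
          simp only [exp_add]; ring
      _ ≤ exp (log c + -q (y j)) * ‖u j‖ := by
          refine mul_le_mul_of_nonneg_right (exp_le_exp.2 ?_) (norm_nonneg _)
          linarith [hq j]
      _ ≤ c * ε * ‖u j‖ := by
          rw [exp_add, exp_log c0]
          gcongr
          exact T.big _
  have key := hgr (fun i => ‖u i‖) t (exp (F.A + q (y t)) * ‖u t‖) (exp (F.A + q (y 0)) * ‖u 0‖)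
    (c * ε) ε (fun _ => norm_nonneg _) (by positivity) (by positivity) e0 (by linarith [P.lt])
    (by positivity) le_rfl (fun i hi => by
      have n1 : 0 ≤ ∑ j ∈ Finset.Ico i t, exp (-((s2 + 2 * g / 3) * (j + 1 - i))) * ‖u j‖ :=
        Finset.sum_nonneg fun _ _ => by positivity
      have n2 : 0 ≤ ∑ j ∈ Finset.range i, exp (ε * (i - (j + 1))) * ‖u j‖ :=
        Finset.sum_nonneg fun _ _ => by positivity
      have n3 : 0 ≤ exp (F.A + q (y t)) * ‖u t‖ * exp (-((s2 + 2 * g / 3) * (t - i))) := by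
        positivity
      have n4 : 0 ≤ exp (F.A + q (y 0)) * ‖u 0‖ * exp (ε * i) := by positivity
      have n5 : 0 ≤ c * ε := by positivity
      refine (pi_norm_le_iff_of_nonneg (by positivity)).2 fun l => ?_
      obtain ⟨v1, v2⟩ := varconst Λ Λ1 Λ2 u hi
      rw [Real.norm_eq_abs, mul_add]
      rcases lt_or_ge 0 (lam l a) with hl | hl
      · have h1 := rowb l (u t) hi hl
        have h2 : |(∑ j ∈ Finset.Ico i t, Λ i (j + 1) (u (j + 1) - Λ (j + 1) j (u j))) l| ≤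
            c * ε * ∑ j ∈ Finset.Ico i t, exp (-((s2 + 2 * g / 3) * (j + 1 - i))) * ‖u j‖ := by
          rw [Finset.sum_apply, Finset.mul_sum]
          refine (Finset.abs_sum_le_sum_abs _ _).trans (Finset.sum_le_sum fun j hj => ?_)
          obtain ⟨h3, h4⟩ := Finset.mem_Ico.1 hj
          refine (rowb l _ (h3.trans (Nat.le_succ j)) hl).trans ?_
          push_cast
          rw [mul_left_comm (c * ε)]
          exact mul_le_mul_of_nonneg_left (err j h4.le) (exp_pos _).le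
        have h3 : |u i l| ≤ _ := (congrArg (fun v : E D => |v l|) v1).le.trans (abs_sub _ _)
        linarith [mul_nonneg n5 n2]
      · have h1 := rowf l (u 0) (Nat.zero_le i) hl
        have h2 : |(∑ j ∈ Finset.range i, Λ i (j + 1) (u (j + 1) - Λ (j + 1) j (u j))) l| ≤
            c * ε * ∑ j ∈ Finset.range i, exp (ε * (i - (j + 1))) * ‖u j‖ := by
          rw [Finset.sum_apply, Finset.mul_sum]
          refine (Finset.abs_sum_le_sum_abs _ _).trans (Finset.sum_le_sum fun j hj => ?_)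
          have h3 := Finset.mem_range.1 hj
          refine (rowf l _ (Nat.succ_le_of_lt h3) hl).trans ?_
          push_cast
          rw [mul_left_comm (c * ε)]
          exact mul_le_mul_of_nonneg_left (err j (h3.le.trans hi)) (exp_pos _).le
        have h3 : |u i l| ≤ _ := (congrArg (fun v : E D => |v l|) v2).le.trans (abs_add_le _ _)
        rw [Nat.cast_zero, sub_zero] at h1
        linarith [mul_nonneg n5 n1])
  intro i hi
  have hti : (0 : ℝ) ≤ t - i := sub_nonneg.2 (Nat.cast_le.2 hi)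
  have hit : (i : ℝ) ≤ t := Nat.cast_le.2 hi
  have i0 : (0 : ℝ) ≤ i := i.cast_nonneg
  have y0 : y 0 = x := by rw [hy, zero_nsmul, S.zero]
  have dd : d 0 = dist z (K.pt x) := by rw [hd, y0, zero_nsmul, K.mv_zero]
  have two : (2 : ℝ) ≤ exp 1 := by linarith [add_one_le_exp (1 : ℝ)]
  have ut : ‖u t‖ ≤ exp (C1 * q (y t)) := (st t le_rfl).1.trans
    (mul_le_of_le_one_right (exp_pos _).le ((hz t le_rfl).trans (exp_le_one_iff.2
      (neg_nonpos.2 (mul_nonneg C.cast_nonneg (by linarith [hq t]))))))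
  have u0 := (st 0 (Nat.zero_le t)).1
  have b1 : exp (C1 * q (y i)) * (2 * (exp (F.A + q (y t)) * ‖u t‖ *
      exp (-((s2 + g / 3) * (t - i))))) ≤ exp (C * q (y t) - s2 * (t - i)) := by
    calc _ ≤ exp (C1 * q (y i)) * (exp 1 * (exp (F.A + q (y t)) * exp (C1 * q (y t)) *
          exp (-((s2 + g / 3) * (t - i))))) := by gcongr
      _ ≤ _ := by
        simp only [← exp_add]
        refine exp_le_exp.2 ?_
        have h1 := mul_le_mul_of_nonneg_left (qb hi) (C1.cast_nonneg (α := ℝ))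
        have h2 := mul_le_mul_of_nonneg_right eC hti
        have h3 := hCq t (F.A + 2 * C1 + 3) (by linarith)
        have h6 : F.A ≤ F.A * q (y t) := le_mul_of_one_le_right hA (hq t)
        linarith [hq t]
  have b2 : exp (C1 * q (y i)) * (2 * (exp (F.A + q (y 0)) * ‖u 0‖ * exp (2 * ε * i))) ≤
      exp (C * (q x + ε * t)) * dist z (K.pt x) := by
    calc _ ≤ exp (C1 * q (y i)) * (exp 1 * (exp (F.A + q (y 0)) * (exp (C1 * q (y 0)) * d 0) *
          exp (2 * ε * i))) := by gcongr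
      _ = exp (C1 * q (y i) + 1 + (F.A + q (y 0)) + C1 * q (y 0) + 2 * ε * i) * d 0 := by
        simp only [exp_add]; ring
      _ ≤ _ := by
        rw [dd, ← y0]
        gcongr
        have h1 := mul_le_mul_of_nonneg_left (qf (Nat.zero_le i)) (C1.cast_nonneg (α := ℝ))
        rw [Nat.cast_zero, sub_zero] at h1
        have h3 := hCq 0 (F.A + 2 * C1 + 3) (by linarith)
        have h6 : F.A ≤ F.A * q (y 0) := le_mul_of_one_le_right hA (hq 0)
        have h7 : (C1 + 2) * (ε * i) ≤ C * (ε * t) := by gcongr; linarith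
        linarith [hq 0]
  have h1 := (st i hi).2.1.trans (mul_le_mul_of_nonneg_left (key i hi) (exp_pos _).le)
  linarith

end Formal

end Pool.Agent.P.MP_d483fb_an.Z.NF

end

end

section

/-!
Measure theory on a compact group: translation in measure, spectral gap in probability form and
the right stabiliser of a measurable function.
-/

open MeasureTheory Filter Set Topology
open scoped ENNReal

noncomputable section

set_option linter.unusedSectionVars false

namespace Pool.Agent.P.MP_d483fb_an.Z.TZ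

variable {K : Type} [Group K] [TopologicalSpace K] [IsTopologicalGroup K] [CompactSpace K]
  [T2Space K] [SecondCountableTopology K] [MeasurableSpace K] [BorelSpace K]
  (μ : Measure K) [μ.IsHaarMeasure] [IsProbabilityMeasure μ]

theorem haar_right : μ.IsMulRightInvariant := by
  refine ⟨fun g => ?_⟩
  have : IsProbabilityMeasure (μ.map (· * g)) :=
    Measure.isProbabilityMeasure_map (measurable_mul_const g).aemeasurable
  have h := Measure.isMulInvariant_eq_smul_of_compactSpace (μ.map (· * g)) μ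
  have h1 := congrArg (fun ν : Measure K => ν univ) h
  simp only [measure_univ, Measure.smul_apply, ENNReal.smul_def, smul_eq_mul, mul_one,
    ENNReal.one_eq_coe] at h1
  rw [h, ← h1, one_smul]

theorem mp_right (g : K) : MeasurePreserving (fun k => k * g) μ μ := by
  have := haar_right μ
  exact measurePreserving_mul_right μ g

section Sub

variable {Z : Type} [NormedAddCommGroup Z] [NormedSpace ℝ Z] [SecondCountableTopology Z]
  [MeasurableSpace Z] [BorelSpace Z]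

theorem exists_subseq_bdd (z : K → Z) (hz : Measurable z) (hb : ∀ k, ‖z k‖ ≤ 1) (a : ℕ → K)
    (ha : Tendsto a atTop (𝓝 1)) : ∃ ms : ℕ → ℕ, StrictMono ms ∧
      ∀ᵐ k ∂μ, Tendsto (fun n => z (k * a (ms n))) atTop (𝓝 (z k)) := by
  have hm : MemLp z 1 μ := MemLp.of_bound hz.aestronglyMeasurable 1 (Eventually.of_forall hb)
  let R : C(K, C(K, K)) := (ContinuousMap.mk (fun p : K × K => p.2 * p.1) (by fun_prop)).curry
  have hR : ∀ g, MeasurePreserving (R g) μ μ := fun g => mp_right μ g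
  have h1 : Tendsto (fun n => Lp.compMeasurePreserving (R (a n)) (hR _) (hm.toLp z)) atTop
      (𝓝 (Lp.compMeasurePreserving (R 1) (hR _) (hm.toLp z))) :=
    tendsto_const_nhds.compMeasurePreservingLp ((R.continuous.tendsto 1).comp ha) (fun n => hR _)
      (hR _) (by simp)
  have key : ∀ g, (Lp.compMeasurePreserving (R g) (hR g) (hm.toLp z) : K → Z) =ᵐ[μ]
      fun k => z (k * g) := fun g =>
    (Lp.coeFn_compMeasurePreserving _ (hR g)).trans
      ((hR g).quasiMeasurePreserving.ae_eq_comp hm.coeFn_toLp)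
  obtain ⟨ms, hms, h2⟩ := (tendstoInMeasure_of_tendsto_Lp h1).exists_seq_tendsto_ae
  refine ⟨ms, hms, ?_⟩
  filter_upwards [h2, ae_all_iff.2 fun n => key (a (ms n)), key 1] with k hk h3 h4
  simp only [h3, h4, mul_one] at hk
  exact hk

theorem exists_subseq (z : K → Z) (hz : Measurable z) (a : ℕ → K)
    (ha : Tendsto a atTop (𝓝 1)) : ∃ ms : ℕ → ℕ, StrictMono ms ∧
      ∀ᵐ k ∂μ, Tendsto (fun n => z (k * a (ms n))) atTop (𝓝 (z k)) := by
  let e : Z → Z := fun v => (Homeomorph.unitBall v : Z)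
  have he : IsInducing e := IsInducing.subtypeVal.comp Homeomorph.unitBall.isInducing
  obtain ⟨ms, hms, h⟩ := exists_subseq_bdd μ (fun k => e (z k))
    (he.continuous.measurable.comp hz)
    (fun k => (mem_ball_zero_iff.1 (Homeomorph.unitBall (z k)).2).le) a ha
  refine ⟨ms, hms, h.mono fun k hk => ?_⟩
  exact he.tendsto_nhds_iff.2 hk

theorem small_near {ι : Type} (l : Filter ι) [l.IsCountablyGenerated] (a b : ι → K)
    (ha : Tendsto a l (𝓝 1)) (hb : Tendsto b l (𝓝 1)) (z : K → Z) (hz : Measurable z)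
    (B : ι → Set K) (hB : ∀ i, MeasurableSet (B i))
    (H : ∀ s : ℕ → ι, ∀ᵐ k ∂μ, Tendsto (fun n => z (k * a (s n))) atTop (𝓝 (z k)) →
      Tendsto (fun n => z (k * b (s n))) atTop (𝓝 (z k)) → ∀ᶠ n in atTop, k ∉ B (s n)) :
    Tendsto (fun i => μ (B i)) l (𝓝 0) := by
  refine tendsto_of_subseq_tendsto fun ns hns => ?_
  obtain ⟨m1, hm1, h1⟩ := exists_subseq μ z hz (fun n => a (ns n)) (ha.comp hns)
  obtain ⟨m2, hm2, h2⟩ := exists_subseq μ z hz (fun n => b (ns (m1 n)))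
    ((hb.comp hns).comp hm1.tendsto_atTop)
  refine ⟨fun n => m1 (m2 n), ?_⟩
  have := tendsto_measure_of_ae_tendsto_indicator_of_isFiniteMeasure (μ := μ) (A := ∅)
    (As := fun n => B (ns (m1 (m2 n)))) atTop MeasurableSet.empty (fun n => hB _) ?_
  · simpa using this
  filter_upwards [h1, h2, H fun n => ns (m1 (m2 n))] with k hk1 hk2 hk
  filter_upwards [hk (hk1.comp hm2.tendsto_atTop) hk2] with n hn
  simpa using hn

/-- The right stabiliser of the class of a function. -/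
def stabR {Y : Type} (x : K → Y) : Subgroup K where
  carrier := {h | (fun k => x (k * h)) =ᵐ[μ] x}
  one_mem' := by simp
  mul_mem' := by
    intro a b ha hb
    have h1 := (mp_right μ a).quasiMeasurePreserving.ae_eq_comp hb
    show (fun k => x (k * (a * b))) =ᵐ[μ] x
    filter_upwards [h1, show (fun k => x (k * a)) =ᵐ[μ] x from ha] with k h2 h3
    rw [← mul_assoc, ← h3]
    exact h2
  inv_mem' := by
    intro a ha
    have h1 := (mp_right μ a⁻¹).quasiMeasurePreserving.ae_eq_comp ha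
    show (fun k => x (k * a⁻¹)) =ᵐ[μ] x
    filter_upwards [h1] with k h2
    simpa using h2.symm

theorem mem_stabR {Y : Type} (x : K → Y) (h : K) :
    h ∈ stabR μ x ↔ (fun k => x (k * h)) =ᵐ[μ] x := Iff.rfl

theorem isClosed_stabR (x : K → Z) (hx : Measurable x) : IsClosed (stabR μ x : Set K) := by
  refine IsSeqClosed.isClosed fun a h ha hah => ?_
  have h0 : Tendsto (fun n => h⁻¹ * a n) atTop (𝓝 1) := by
    simpa using hah.const_mul h⁻¹
  obtain ⟨ms, -, h1⟩ := exists_subseq μ x hx _ h0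
  have h2 := (mp_right μ h).quasiMeasurePreserving.ae h1
  have h3 : ∀ᵐ k ∂μ, ∀ n, x (k * a (ms n)) = x k := ae_all_iff.2 fun n => ha (ms n)
  show (fun k => x (k * h)) =ᵐ[μ] x
  filter_upwards [h2, h3] with k hk hk'
  simp only [mul_assoc, mul_inv_cancel_left, hk'] at hk
  exact (tendsto_nhds_unique tendsto_const_nhds hk).symm

end Sub

theorem ae_const_of_dense {Γ : Type} [Group Γ] (j : Γ →* K) (hj : DenseRange j) {Y : Type}
    [MeasurableSpace Y] [MeasurableSpace.CountablySeparated Y] [Nonempty Y] (f : K → Y)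
    (hf : NullMeasurable f μ) (h : ∀ g, (fun k => f (j g * k)) =ᵐ[μ] f) :
    ∃ c, f =ᵐ[μ] fun _ => c := by
  refine exists_eventuallyEq_const_of_forall_separating MeasurableSet fun U hU => ?_
  have := aeconst_of_dense_setOfPred_preimage_smul_ae (M := K) (μ := μ) (s := f ⁻¹' U) (hf hU)
    (hj.mono ?_)
  · exact eventuallyConst_set.1 this
  rintro _ ⟨g, rfl⟩
  refine mem_ofPred.2 ?_
  filter_upwards [h g] with k hk
  show (f (j g * k) ∈ U) = (f k ∈ U)
  rw [hk]

/-- The left regular representation on vector valued square integrable functions. -/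
def regRep {Γ : Type} [Group Γ] (j : Γ →* K) (E : Type) [NormedAddCommGroup E]
    [InnerProductSpace ℝ E] : Γ →* (Lp E 2 μ →L[ℝ] Lp E 2 μ) where
  toFun g := (Lp.compMeasurePreservingₗᵢ ℝ (fun k => (j g)⁻¹ * k)
    (measurePreserving_mul_left μ (j g)⁻¹)).toContinuousLinearMap
  map_one' := by
    refine ContinuousLinearMap.ext fun f => Lp.ext ?_
    refine (Lp.coeFn_compMeasurePreserving f (measurePreserving_mul_left μ (j 1)⁻¹)).trans ?_
    refine Eventually.of_forall fun x => ?_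
    simp
  map_mul' g h := by
    refine ContinuousLinearMap.ext fun f => Lp.ext ?_
    refine (Lp.coeFn_compMeasurePreserving f
      (measurePreserving_mul_left μ (j (g * h))⁻¹)).trans ?_
    have h1 := Lp.coeFn_compMeasurePreserving
      (Lp.compMeasurePreserving (fun k => (j h)⁻¹ * k) (measurePreserving_mul_left μ (j h)⁻¹) f)
      (measurePreserving_mul_left μ (j g)⁻¹)
    have h2 := (measurePreserving_mul_left μ (j g)⁻¹).quasiMeasurePreserving.ae_eq_comp
      (Lp.coeFn_compMeasurePreserving f (measurePreserving_mul_left μ (j h)⁻¹))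
    refine EventuallyEq.symm ((h1.trans h2).trans (Eventually.of_forall fun x => ?_))
    simp [mul_assoc]

theorem regRep_ae {Γ : Type} [Group Γ] (j : Γ →* K) (E : Type) [NormedAddCommGroup E]
    [InnerProductSpace ℝ E] (g : Γ) (f : Lp E 2 μ) :
    (regRep μ j E g f : K → E) =ᵐ[μ] fun k => f ((j g)⁻¹ * k) :=
  Lp.coeFn_compMeasurePreserving f (measurePreserving_mul_left μ (j g)⁻¹)

theorem regRep_norm {Γ : Type} [Group Γ] (j : Γ →* K) (E : Type) [NormedAddCommGroup E]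
    [InnerProductSpace ℝ E] (g : Γ) (f : Lp E 2 μ) : ‖regRep μ j E g f‖ = ‖f‖ :=
  Lp.norm_compMeasurePreserving f (measurePreserving_mul_left μ (j g)⁻¹)

theorem almost_const {Γ : Type} [Group Γ]
    (hT : HasT Γ)
    (j : Γ →* K) (hj : DenseRange j) {E : Type} [NormedAddCommGroup E] [InnerProductSpace ℝ E]
    [FiniteDimensional ℝ E] [MeasurableSpace E] [BorelSpace E]
    (f : ℕ → K → E) (hf : ∀ n, Measurable (f n)) (hb : ∀ n k, ‖f n k‖ ≤ 1)
    (h : ∀ g, ∀ᵐ k ∂μ, Tendsto (fun n => f n (j g * k) - f n k) atTop (𝓝 0)) :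
    ∃ m : ℕ → E, ∀ ε : ℝ, 0 < ε →
      Tendsto (fun n => μ {k | ε ≤ ‖f n k - m n‖}) atTop (𝓝 0) := by
  obtain ⟨S, C, -, hT⟩ := hT
  have hm : ∀ n, MemLp (f n) 2 μ := fun n =>
    MemLp.of_bound (hf n).aestronglyMeasurable 1 (Eventually.of_forall (hb n))
  choose w hw hw' using fun n => hT (Lp E 2 μ) (regRep μ j E) (regRep_norm μ j E)
    ((hm n).toLp (f n))
  have hc : ∀ n, ∃ c, (w n : K → E) =ᵐ[μ] fun _ => c := fun n => by
    refine ae_const_of_dense μ j hj (w n : K → E)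
      (Lp.aestronglyMeasurable (w n)).aemeasurable.nullMeasurable fun g => ?_
    have := regRep_ae μ j E g⁻¹ (w n)
    rw [hw n, map_inv, inv_inv] at this
    exact this.symm
  choose m hm' using hc
  have hs : ∀ s : Γ, Tendsto (fun n => ‖regRep μ j E s ((hm n).toLp (f n)) - (hm n).toLp (f n)‖)
      atTop (𝓝 0) := fun s => by
    have e1 : ∀ n, (regRep μ j E s ((hm n).toLp (f n)) - (hm n).toLp (f n) : Lp E 2 μ) =ᵐ[μ]
        fun k => f n (j s⁻¹ * k) - f n k := fun n => by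
      have h1 := (measurePreserving_mul_left μ (j s)⁻¹).quasiMeasurePreserving.ae_eq_comp
        (hm n).coeFn_toLp
      filter_upwards [Lp.coeFn_sub (regRep μ j E s ((hm n).toLp (f n))) ((hm n).toLp (f n)),
        regRep_ae μ j E s ((hm n).toLp (f n)), h1, (hm n).coeFn_toLp] with k h2 h3 h4 h5
      rw [h2, Pi.sub_apply, h3, h5, map_inv]
      exact congrArg (· - f n k) h4
    have e2 : ∀ n, ‖regRep μ j E s ((hm n).toLp (f n)) - (hm n).toLp (f n)‖ =
        √(∫ k, ‖f n (j s⁻¹ * k) - f n k‖ ^ 2 ∂μ) := fun n => by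
      rw [norm_eq_sqrt_real_inner, L2.inner_def]
      refine congrArg Real.sqrt (integral_congr_ae ?_)
      filter_upwards [e1 n] with k hk
      rw [hk, real_inner_self_eq_norm_sq]
    simp only [e2]
    have e3 : Tendsto (fun n => ∫ k, ‖f n (j s⁻¹ * k) - f n k‖ ^ 2 ∂μ) atTop
        (𝓝 (∫ _k : K, (0 : ℝ) ∂μ)) := by
      refine tendsto_integral_of_dominated_convergence (fun _ => (2 : ℝ) ^ 2) (fun n => ?_)
        (integrable_const _) (fun n => Eventually.of_forall fun k => ?_) ?_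
      · exact ((((hf n).comp (measurable_const_mul _)).sub (hf n)).norm.pow_const
          2).aestronglyMeasurable
      · rw [Real.norm_of_nonneg (by positivity)]
        refine pow_le_pow_left₀ (norm_nonneg _) ((norm_sub_le _ _).trans ?_) 2
        linarith [hb n (j s⁻¹ * k), hb n k]
      · filter_upwards [h s⁻¹] with k hk
        simpa using hk.norm.pow 2
    simpa using e3.sqrt
  have h0 : Tendsto (fun n => (hm n).toLp (f n) - w n) atTop (𝓝 0) := by
    rw [tendsto_zero_iff_norm_tendsto_zero]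
    have h6 := (tendsto_finsetSum S fun s _ => hs s).const_mul C
    rw [Finset.sum_const_zero, mul_zero] at h6
    exact squeeze_zero (fun _ => norm_nonneg _) hw' h6
  refine ⟨m, fun ε hε => ?_⟩
  have h4 := tendstoInMeasure_of_tendsto_Lp h0
  rw [tendstoInMeasure_iff_norm] at h4
  have h5 := h4 ε hε
  have h7 : ∀ n, μ {k | ε ≤ ‖((hm n).toLp (f n) - w n : Lp E 2 μ) k - (0 : Lp E 2 μ) k‖} =
      μ {k | ε ≤ ‖f n k - m n‖} := fun n => by
    apply measure_congr
    filter_upwards [Lp.coeFn_sub ((hm n).toLp (f n)) (w n), (hm n).coeFn_toLp, hm' n,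
      Lp.coeFn_zero E 2 μ] with k h1 h2 h3 h4
    show (ε ≤ ‖((hm n).toLp (f n) - w n : Lp E 2 μ) k - (0 : Lp E 2 μ) k‖) = (ε ≤ ‖f n k - m n‖)
    rw [h1, h4, Pi.sub_apply, h2, h3, Pi.zero_apply, sub_zero]
  simpa only [h7] using h5

end Pool.Agent.P.MP_d483fb_an.Z.TZ

end

end

section

/-!
An equivariant measurable map from a compact group to a framed manifold gives almost homomorphisms
near the identity whose zero set is the right stabiliser of the map.
-/

open MeasureTheory Filter Set Topology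
open scoped ENNReal

noncomputable section

set_option linter.unusedSectionVars false

namespace Pool.Agent.P.MP_d483fb_an.Z.TZ

section Rt

variable {E : Type} [NormedAddCommGroup E] [NormedSpace ℝ E]

/-- The radial retraction on the unit ball. -/
def rt (v : E) : E := (max 1 ‖v‖)⁻¹ • v

theorem continuous_rt : Continuous (rt : E → E) :=
  ((continuous_const.max continuous_norm).inv₀ fun _ =>
    (lt_max_of_lt_left one_pos).ne').smul continuous_id

theorem rt_of_le {v : E} (h : ‖v‖ ≤ 1) : rt v = v := by simp [rt, max_eq_left h]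

theorem norm_rt_of_ge {v : E} (h : 1 ≤ ‖v‖) : ‖rt v‖ = 1 := by
  rw [rt, max_eq_right h, norm_smul, norm_inv, norm_norm]
  exact inv_mul_cancel₀ (by linarith)

theorem norm_rt_le (v : E) : ‖rt v‖ ≤ 1 := by
  rcases le_total ‖v‖ 1 with h | h
  · rwa [rt_of_le h]
  · exact (norm_rt_of_ge h).le

theorem rt_sub {v v' : E} {θ : ℝ} (hθ : 0 ≤ θ) (h : ‖v' - v‖ ≤ θ * ‖v‖) :
    ‖rt v' - rt v‖ ≤ 2 * θ := by
  have ha : 0 < max 1 ‖v‖ := lt_max_of_lt_left one_pos
  have hb : 0 < max 1 ‖v'‖ := lt_max_of_lt_left one_pos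
  have e : rt v' - rt v = (max 1 ‖v‖)⁻¹ • ((v' - v) + (max 1 ‖v‖ - max 1 ‖v'‖) • rt v') := by
    have h1 : v' = max 1 ‖v'‖ • rt v' := by rw [rt, smul_smul, mul_inv_cancel₀ hb.ne', one_smul]
    have h2 : (v' - v) + (max 1 ‖v‖ - max 1 ‖v'‖) • rt v' = max 1 ‖v‖ • rt v' - v := by
      rw [sub_smul, ← h1]
      abel
    rw [h2, smul_sub, smul_smul, inv_mul_cancel₀ ha.ne', one_smul]
    rfl
  have h3 : |max 1 ‖v‖ - max 1 ‖v'‖| ≤ ‖v' - v‖ := by
    rw [max_comm 1, max_comm 1, norm_sub_rev]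
    exact (abs_max_sub_max_le_abs _ _ _).trans (abs_norm_sub_norm_le _ _)
  have h4 : ‖(v' - v) + (max 1 ‖v‖ - max 1 ‖v'‖) • rt v'‖ ≤ 2 * θ * max 1 ‖v‖ := by
    refine (norm_add_le _ _).trans ?_
    rw [norm_smul, Real.norm_eq_abs]
    have h5 := mul_le_mul h3 (norm_rt_le v') (norm_nonneg _) (norm_nonneg _)
    have h6 := mul_le_mul_of_nonneg_left (le_max_right 1 ‖v‖) hθ
    linarith
  rw [e, norm_smul, norm_inv, Real.norm_of_nonneg ha.le, inv_mul_le_iff₀ ha]
  linarith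

end Rt

theorem exists_median {K : Type} [MeasurableSpace K] (μ : Measure K) [IsProbabilityMeasure μ]
    (g : K → ℝ) (hg : Measurable g) (h0 : μ {k | g k ≤ 0} < 1 / 2) :
    ∃ r : ℝ, 0 < r ∧ μ {k | g k ≤ r} < 1 / 2 ∧ 1 / 2 ≤ μ {k | g k ≤ 2 * r} := by
  have h1 : Tendsto (fun n : ℕ => μ {k | g k ≤ 1 / ((n : ℝ) + 1)}) atTop
      (𝓝 (μ {k | g k ≤ 0})) := by
    refine tendsto_measure_of_ae_tendsto_indicator_of_isFiniteMeasure atTop
      (measurableSet_le hg measurable_const) (fun n => measurableSet_le hg measurable_const)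
      (Eventually.of_forall fun k => ?_)
    rcases le_or_gt (g k) 0 with h | h
    · exact Eventually.of_forall fun n => iff_of_true (h.trans Nat.one_div_pos_of_nat.le) h
    · filter_upwards [tendsto_one_div_add_atTop_nhds_zero_nat.eventually_lt_const h] with n hn
      exact iff_of_false (not_le.2 hn) (not_le.2 h)
  obtain ⟨n0, hn0⟩ := (h1.eventually_lt_const h0).exists
  set t : ℝ := 1 / ((n0 : ℝ) + 1)
  have ht : 0 < t := Nat.one_div_pos_of_nat
  have h2 : Tendsto (fun n : ℕ => μ {k | g k ≤ 2 ^ n * t}) atTop (𝓝 (μ univ)) := by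
    refine tendsto_measure_of_ae_tendsto_indicator_of_isFiniteMeasure atTop
      MeasurableSet.univ (fun n => measurableSet_le hg measurable_const)
      (Eventually.of_forall fun k => ?_)
    filter_upwards [((tendsto_pow_atTop_atTop_of_one_lt one_lt_two).atTop_mul_const
      ht).eventually_ge_atTop (g k)] with n hn
    exact iff_of_true hn trivial
  have h3 : ∃ n : ℕ, 1 / 2 ≤ μ {k | g k ≤ 2 ^ n * t} := by
    refine (h2.eventually_const_le ?_).exists
    rw [measure_univ, one_div]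
    exact ENNReal.one_half_lt_one
  classical
  have h4 := Nat.find_spec h3
  rcases hN : Nat.find h3 with _ | N
  · rw [hN, pow_zero, one_mul] at h4
    exact absurd hn0 (not_lt.2 h4)
  · refine ⟨2 ^ N * t, by positivity, not_le.1 (Nat.find_min h3 (by omega)), ?_⟩
    rwa [hN, pow_succ', mul_assoc] at h4

theorem exists_notMem4 {K : Type} [MeasurableSpace K] (μ : Measure K) [IsProbabilityMeasure μ]
    {A B C D : Set K} (hA : μ A < 1 / 2) (hB : μ B < 1 / 8) (hC : μ C < 1 / 8)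
    (hD : μ D < 1 / 8) : ∃ k, k ∉ A ∧ k ∉ B ∧ k ∉ C ∧ k ∉ D := by
  by_contra hc
  have h1 : (univ : Set K) ⊆ A ∪ B ∪ C ∪ D := fun k _ => by
    by_contra hk
    simp only [mem_union, not_or] at hk
    exact hc ⟨k, hk.1.1.1, hk.1.1.2, hk.1.2, hk.2⟩
  have h2 : μ.real univ ≤ μ.real A + μ.real B + μ.real C + μ.real D :=
    (measureReal_mono h1).trans ((measureReal_union_le _ _).trans (add_le_add_left
      ((measureReal_union_le _ _).trans (add_le_add_left (measureReal_union_le _ _) _)) _))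
  have h8 : ∀ {S : Set K}, μ S < 1 / 8 → μ.real S < 1 / 8 := fun {S} hS => by
    simpa [measureReal_def] using (ENNReal.toReal_lt_toReal (measure_ne_top μ S) (by simp)).2 hS
  have h3 : μ.real A < 1 / 2 := by
    simpa [measureReal_def] using (ENNReal.toReal_lt_toReal (measure_ne_top μ A) (by simp)).2 hA
  have := h8 hB
  have := h8 hC
  have := h8 hD
  rw [probReal_univ] at h2
  linarith

variable {Γ K E F : Type} [Group Γ] [Group K] [TopologicalSpace K] [IsTopologicalGroup K]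
  [CompactSpace K] [T2Space K] [SecondCountableTopology K] [MeasurableSpace K] [BorelSpace K]
  [NormedAddCommGroup E] [InnerProductSpace ℝ E] [FiniteDimensional ℝ E] [MeasurableSpace E]
  [BorelSpace E] [NormedAddCommGroup F] [NormedSpace ℝ F] [FiniteDimensional ℝ F]
  [MeasurableSpace F] [BorelSpace F]
  (μ : Measure K) [μ.IsHaarMeasure] [IsProbabilityMeasure μ]

/-- The displacement read in the frame. -/
def disp (x : K → F) (A : K → F →L[ℝ] E) (h k : K) : E := A k (x (k * h) - x k)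

theorem measurable_app {B : K → F →L[ℝ] E} {y : K → F} (hB : Measurable B) (hy : Measurable y) :
    Measurable fun k => B k (y k) :=
  ContinuousLinearMap.measurable_apply₂.comp (hB.prodMk hy)

theorem measurable_disp {x : K → F} {A : K → F →L[ℝ] E} (hx : Measurable x) (hA : Measurable A)
    (h : K) : Measurable (disp x A h) :=
  measurable_app hA ((hx.comp (measurable_mul_const h)).sub hx)

theorem ae_ne_of_notMem (j : Γ →* K) (hj : DenseRange j) (act : Γ → F → F) {x : K → F}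
    (hx : Measurable x) (heq : ∀ g, ∀ᵐ k ∂μ, x (j g * k) = act g (x k)) {h : K}
    (hh : h ∉ stabR μ x) : ∀ᵐ k ∂μ, x (k * h) ≠ x k := by
  have hs : MeasurableSet {k | x (k * h) = x k} :=
    measurableSet_eq_fun (hx.comp (measurable_mul_const h)) hx
  have := aeconst_of_dense_setOfPred_preimage_smul_ae (M := K) (μ := μ) hs.nullMeasurableSet
    (hj.mono ?_)
  · exact (eventuallyConst_set.1 this).resolve_left hh
  rintro _ ⟨g, rfl⟩
  refine mem_ofPred.2 (ae_eq_of_ae_subset_of_measure_ge ?_ (measure_preimage_mul μ (j g) _).le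
    hs.nullMeasurableSet (measure_ne_top _ _)).symm
  filter_upwards [heq g, (mp_right μ h).quasiMeasurePreserving.ae (heq g)] with k h1 h2 hk
  show x (j g * k * h) = x (j g * k)
  rw [mul_assoc, h1, h2, show x (k * h) = x k from hk]

section Main

variable {M : Set F} {x : K → F} {A : K → F →L[ℝ] E}

theorem ae_inj (hM : ∀ᵐ k ∂μ, x k ∈ M)
    (hinj : ∀ᵐ k ∂μ, ∃ r : ℝ, 0 < r ∧ ∃ c : ℝ, ∀ y ∈ M, ‖y - x k‖ ≤ r →
      ‖y - x k‖ ≤ c * ‖A k (y - x k)‖) (a : ℕ → K) :
    ∀ᵐ k ∂μ, ∃ c : ℝ, 0 < c ∧ (Tendsto (fun n => x (k * a n)) atTop (𝓝 (x k)) →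
      ∀ᶠ n in atTop, ‖x (k * a n) - x k‖ ≤ c * ‖disp x A (a n) k‖) := by
  filter_upwards [hinj, ae_all_iff.2 fun n => (mp_right μ (a n)).quasiMeasurePreserving.ae hM]
    with k ⟨r, hr, c, hc⟩ hk
  refine ⟨|c| + 1, by positivity, fun ht => ?_⟩
  filter_upwards [(tendsto_iff_norm_sub_tendsto_zero.1 ht).eventually_le_const hr] with n hn
  refine (hc _ (hk n) hn).trans (mul_le_mul_of_nonneg_right ?_ (norm_nonneg _))
  linarith [le_abs_self c]

theorem zero_near (hx : Measurable x) (hA : Measurable A) (hM : ∀ᵐ k ∂μ, x k ∈ M)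
    (hinj : ∀ᵐ k ∂μ, ∃ r : ℝ, 0 < r ∧ ∃ c : ℝ, ∀ y ∈ M, ‖y - x k‖ ≤ r →
      ‖y - x k‖ ≤ c * ‖A k (y - x k)‖) :
    Tendsto (fun h => μ {k | ‖disp x A h k‖ ≤ 0 ∧ x (k * h) ≠ x k}) (𝓝 1) (𝓝 0) := by
  refine small_near μ (𝓝 1) id id tendsto_id tendsto_id x hx _ (fun h => ?_) fun s => ?_
  · exact (measurableSet_le (measurable_disp hx hA h).norm measurable_const).inter
      (measurableSet_eq_fun (hx.comp (measurable_mul_const h)) hx).compl
  filter_upwards [ae_inj μ hM hinj s] with k ⟨c, hc, hk⟩ ht _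
  filter_upwards [hk ht] with n hn h0
  refine h0.2 (sub_eq_zero.1 (norm_le_zero_iff.1 (hn.trans ?_)))
  exact mul_nonpos_of_nonneg_of_nonpos hc.le h0.1

theorem bdd_near (hx : Measurable x) (hA : Measurable A) :
    Tendsto (fun h => μ {k | 1 / 2 < ‖disp x A h k‖}) (𝓝 1) (𝓝 0) := by
  refine small_near μ (𝓝 1) id id tendsto_id tendsto_id x hx _ (fun h => ?_) fun s => ?_
  · exact measurableSet_lt measurable_const (measurable_disp hx hA h).norm
  refine Eventually.of_forall fun k ht _ => ?_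
  have h1 : Tendsto (fun n => ‖disp x A (s n) k‖) atTop (𝓝 ‖A k (x k - x k)‖) :=
    (((A k).continuous.tendsto _).comp (ht.sub_const (x k))).norm
  rw [sub_self, map_zero, norm_zero] at h1
  filter_upwards [h1.eventually_le_const one_half_pos] with n hn
  exact not_lt.2 hn

theorem err_near (hx : Measurable x) (hA : Measurable A) (hM : ∀ᵐ k ∂μ, x k ∈ M)
    (hinj : ∀ᵐ k ∂μ, ∃ r : ℝ, 0 < r ∧ ∃ c : ℝ, ∀ y ∈ M, ‖y - x k‖ ≤ r →
      ‖y - x k‖ ≤ c * ‖A k (y - x k)‖) {η : ℝ} (hη : 0 < η) :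
    Tendsto (fun p : K × K => μ {k | η * ‖disp x A p.2 k‖ <
      ‖(A (k * p.1⁻¹) - A k) (x (k * p.2) - x k)‖}) (𝓝 (1, 1)) (𝓝 0) := by
  refine small_near μ (𝓝 ((1, 1) : K × K)) (fun p => p.1⁻¹) (fun p => p.2) ?_
    (continuous_snd.tendsto _) (fun k => (x k, A k)) (hx.prodMk hA) _ (fun p => ?_) fun s => ?_
  · exact continuous_fst.inv.tendsto' ((1, 1) : K × K) 1 inv_one
  · exact measurableSet_lt ((measurable_disp hx hA _).norm.const_mul η)
      (measurable_app ((hA.comp (measurable_mul_const _)).sub hA)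
        ((hx.comp (measurable_mul_const _)).sub hx)).norm
  filter_upwards [ae_inj μ hM hinj fun n => (s n).2] with k ⟨c, hc, hk⟩ h1 h2
  have h3 := tendsto_iff_norm_sub_tendsto_zero.1 ((continuous_snd.tendsto _).comp h1)
  filter_upwards [hk ((continuous_fst.tendsto _).comp h2),
    h3.eventually_le_const (div_pos hη hc)] with n hn hn'
  refine not_lt.2 ((ContinuousLinearMap.le_opNorm _ _).trans ?_)
  refine (mul_le_mul hn' hn (norm_nonneg _) (div_pos hη hc).le).trans_eq ?_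
  rw [← mul_assoc, div_mul_cancel₀ _ hc.ne']

theorem good_near (hT : HasT Γ) (j : Γ →* K) (hj : DenseRange j) (act : Γ → F → F)
    (hx : Measurable x) (hA : Measurable A) (hM : ∀ᵐ k ∂μ, x k ∈ M)
    (heq : ∀ g, ∀ᵐ k ∂μ, x (j g * k) = act g (x k))
    (hlin : ∀ g, ∀ᵐ k ∂μ, ∀ θ : ℝ, 0 < θ → ∃ r : ℝ, 0 < r ∧ ∀ y ∈ M, ‖y - x k‖ ≤ r →
      ‖A (j g * k) (act g y - act g (x k)) - A k (y - x k)‖ ≤ θ * ‖y - x k‖)
    (hinj : ∀ᵐ k ∂μ, ∃ r : ℝ, 0 < r ∧ ∃ c : ℝ, ∀ y ∈ M, ‖y - x k‖ ≤ r →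
      ‖y - x k‖ ≤ c * ‖A k (y - x k)‖) {η : ℝ} (hη : 0 < η) (hη1 : η ≤ 1) :
    ∀ᶠ h in 𝓝 (1 : K), h ∉ stabR μ x →
      ∃ v : E, v ≠ 0 ∧ μ {k | η * ‖v‖ < ‖disp x A h k - v‖} < 1 / 8 := by
  by_contra hc
  have h0 := (zero_near μ hx hA hM hinj).eventually_lt_const (show (0 : ℝ≥0∞) < 1 / 2 by simp)
  obtain ⟨a0, ha0, ha0'⟩ := frequently_iff_seq_forall.1
    ((not_eventually.1 hc).and_eventually h0)
  obtain ⟨ms, -, hms⟩ := exists_subseq μ x hx a0 ha0
  set a : ℕ → K := fun n => a0 (ms n)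
  have ha : ∀ n, a n ∉ stabR μ x := fun n => (Classical.not_imp.1 (ha0' (ms n)).1).1
  have ha' : ∀ n (v : E), v ≠ 0 → ¬ μ {k | η * ‖v‖ < ‖disp x A (a n) k - v‖} < 1 / 8 :=
    fun n v hv h => (Classical.not_imp.1 (ha0' (ms n)).1).2 ⟨v, hv, h⟩
  have hr : ∀ n, ∃ r : ℝ, 0 < r ∧ μ {k | ‖disp x A (a n) k‖ ≤ r} < 1 / 2 ∧
      1 / 2 ≤ μ {k | ‖disp x A (a n) k‖ ≤ 2 * r} := fun n => by
    refine exists_median μ _ (measurable_disp hx hA _).norm
      (lt_of_le_of_lt (measure_mono_ae ?_) (ha0' (ms n)).2)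
    filter_upwards [ae_ne_of_notMem μ j hj act hx heq (ha n)] with k hk hk'
    exact ⟨hk', hk⟩
  choose r hr hr1 hr2 using hr
  obtain ⟨m, hm⟩ := almost_const μ hT j hj (fun n k => rt ((4 * r n)⁻¹ • disp x A (a n) k))
    (fun n => continuous_rt.measurable.comp ((measurable_disp hx hA _).const_smul _))
    (fun n k => norm_rt_le _) fun g => by
      filter_upwards [hms, ae_inj μ hM hinj a, hlin g, heq g,
        ae_all_iff.2 fun n => (mp_right μ (a n)).quasiMeasurePreserving.ae (heq g),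
        ae_all_iff.2 fun n => (mp_right μ (a n)).quasiMeasurePreserving.ae hM]
        with k h1 ⟨c, hc, h2⟩ h3 h4 h5 h6
      refine NormedAddGroup.tendsto_nhds_zero.2 fun ε hε => ?_
      obtain ⟨ρ, hρ, h7⟩ := h3 (ε / 4 / c) (by positivity)
      filter_upwards [h2 h1, (tendsto_iff_norm_sub_tendsto_zero.1 h1).eventually_le_const hρ]
        with n hn hn'
      refine (rt_sub (θ := ε / 4) (by positivity) ?_).trans_lt (by linarith)
      have h8 : ‖disp x A (a n) (j g * k) - disp x A (a n) k‖ ≤ ε / 4 * ‖disp x A (a n) k‖ := by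
        have h9 := h7 _ (h6 n) hn'
        rw [← h4, ← h5 n, ← mul_assoc] at h9
        refine h9.trans ((mul_le_mul_of_nonneg_left hn (by positivity)).trans_eq ?_)
        rw [← mul_assoc, div_mul_cancel₀ _ hc.ne']
      rw [← smul_sub, norm_smul, norm_smul, mul_left_comm]
      exact mul_le_mul_of_nonneg_left h8 (norm_nonneg _)
  obtain ⟨n, hn⟩ := ((hm (η / 8) (by positivity)).eventually_lt_const
    (show (0 : ℝ≥0∞) < 1 / 8 by simp)).exists
  have h4 : 0 < 4 * r n := by linarith [hr n]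
  have hs : ∀ k, ‖(4 * r n)⁻¹ • disp x A (a n) k‖ = ‖disp x A (a n) k‖ / (4 * r n) := fun k => by
    rw [norm_smul, norm_inv, Real.norm_of_nonneg h4.le, div_eq_inv_mul]
  have hlow : 1 / 8 ≤ ‖m n‖ := by
    obtain ⟨k, h1, h2, -⟩ := exists_notMem4 μ (hr1 n) hn hn hn
    rw [mem_ofPred_eq] at h1 h2
    have h3 : 1 / 4 ≤ ‖rt ((4 * r n)⁻¹ • disp x A (a n) k)‖ := by
      rcases le_total ‖(4 * r n)⁻¹ • disp x A (a n) k‖ 1 with h | h
      · rw [rt_of_le h, hs, le_div_iff₀ h4]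
        linarith [not_le.1 h1]
      · rw [norm_rt_of_ge h]
        norm_num
    linarith [not_le.1 h2, norm_sub_norm_le (rt ((4 * r n)⁻¹ • disp x A (a n) k)) (m n)]
  have hup : ‖m n‖ ≤ 5 / 8 := by
    obtain ⟨k, h1, h2⟩ : ∃ k, ‖disp x A (a n) k‖ ≤ 2 * r n ∧
        ¬ η / 8 ≤ ‖rt ((4 * r n)⁻¹ • disp x A (a n) k) - m n‖ := by
      by_contra h
      refine absurd ((hr2 n).trans (measure_mono fun k hk => ?_)) (not_le.2 (hn.trans_le ?_))
      · by_contra h'
        exact h ⟨k, hk, h'⟩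
      · exact ENNReal.div_le_div_left (by norm_num) _
    have h3 : ‖(4 * r n)⁻¹ • disp x A (a n) k‖ ≤ 1 / 2 := by
      rw [hs, div_le_iff₀ h4]
      linarith
    rw [rt_of_le (h3.trans (by norm_num)), norm_sub_rev] at h2
    linarith [not_le.1 h2, norm_sub_norm_le (m n) ((4 * r n)⁻¹ • disp x A (a n) k)]
  refine ha' n ((4 * r n) • m n) (smul_ne_zero h4.ne' (norm_pos_iff.1 (by linarith)))
    (lt_of_le_of_lt (measure_mono fun k hk => ?_) hn)
  by_contra h'
  have h1 : ‖rt ((4 * r n)⁻¹ • disp x A (a n) k) - m n‖ < η / 8 := not_le.1 h'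
  have h2 : ‖(4 * r n)⁻¹ • disp x A (a n) k‖ ≤ 1 := by
    by_contra h
    linarith [norm_rt_of_ge (not_le.1 h).le,
      norm_sub_norm_le (rt ((4 * r n)⁻¹ • disp x A (a n) k)) (m n)]
  have h3 : disp x A (a n) k - (4 * r n) • m n =
      (4 * r n) • ((4 * r n)⁻¹ • disp x A (a n) k - m n) := by
    rw [smul_sub, smul_smul, mul_inv_cancel₀ h4.ne', one_smul]
  have h5 : η * ‖(4 * r n) • m n‖ < ‖disp x A (a n) k - (4 * r n) • m n‖ := hk
  rw [h3, norm_smul, norm_smul, mul_left_comm, Real.norm_of_nonneg h4.le] at h5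
  rw [rt_of_le h2] at h1
  nlinarith [lt_of_mul_lt_mul_left h5 h4.le]

theorem almHom (hT : HasT Γ) (j : Γ →* K) (hj : DenseRange j) (act : Γ → F → F)
    (hx : Measurable x) (hA : Measurable A) (hM : ∀ᵐ k ∂μ, x k ∈ M)
    (heq : ∀ g, ∀ᵐ k ∂μ, x (j g * k) = act g (x k))
    (hlin : ∀ g, ∀ᵐ k ∂μ, ∀ θ : ℝ, 0 < θ → ∃ r : ℝ, 0 < r ∧ ∀ y ∈ M, ‖y - x k‖ ≤ r →
      ‖A (j g * k) (act g y - act g (x k)) - A k (y - x k)‖ ≤ θ * ‖y - x k‖)
    (hinj : ∀ᵐ k ∂μ, ∃ r : ℝ, 0 < r ∧ ∃ c : ℝ, ∀ y ∈ M, ‖y - x k‖ ≤ r →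
      ‖y - x k‖ ≤ c * ‖A k (y - x k)‖) : AlmHom E (stabR μ x) := by
  intro η0 hη0
  set η : ℝ := min (η0 / 8) (1 / 2)
  have hη : 0 < η := lt_min (by positivity) one_half_pos
  have hη1 : η ≤ 1 / 2 := min_le_right _ _
  have hη2 : η ≤ η0 / 8 := min_le_left _ _
  have h8 : (0 : ℝ≥0∞) < 1 / 8 := by simp
  have h82 : (1 / 8 : ℝ≥0∞) ≤ 1 / 2 := ENNReal.div_le_div_left (by norm_num) _
  obtain ⟨U2, hU2, U3, hU3, hU⟩ := mem_nhds_prod_iff.1
    ((err_near μ hx hA hM hinj hη).eventually_lt_const h8)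
  have h1 := (good_near μ hT j hj act hx hA hM heq hlin hinj hη (by linarith)).and
    ((bdd_near μ hx hA).eventually_lt_const h8)
  set U1 := {h : K | (h ∉ stabR μ x →
      ∃ v : E, v ≠ 0 ∧ μ {k | η * ‖v‖ < ‖disp x A h k - v‖} < 1 / 8) ∧
      μ {k | 1 / 2 < ‖disp x A h k‖} < 1 / 8}
  have h2 : ∀ h, ∃ v : E, h ∈ U1 → (v = 0 ↔ h ∈ stabR μ x) ∧
      μ {k | η * ‖v‖ < ‖disp x A h k - v‖} < 1 / 8 := fun h => by
    by_cases hh : h ∈ stabR μ x
    · refine ⟨0, fun _ => ⟨iff_of_true rfl hh, lt_of_eq_of_lt (measure_eq_zero_iff_ae_notMem.2 ?_) h8⟩⟩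
      filter_upwards [(mem_stabR μ x h).1 hh] with k hk
      simp [disp, hk]
    · by_cases h1 : h ∈ U1
      · obtain ⟨v, hv, hv'⟩ := h1.1 hh
        exact ⟨v, fun _ => ⟨iff_of_false hv hh, hv'⟩⟩
      · exact ⟨0, fun h => absurd h h1⟩
  choose u hu using h2
  refine ⟨U1 ∩ (U2 ∩ U3), inter_mem h1 (inter_mem hU2 hU3), u, fun h hh => ?_,
    fun h hh => (hu h hh.1).1, fun h hh h' hh' hm => ?_⟩
  · obtain ⟨k, h3, h4, -⟩ := exists_notMem4 μ ((hu h hh.1).2.trans_le h82) hh.1.2 hh.1.2 hh.1.2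
    have h5 : ‖disp x A h k - u h‖ ≤ η * ‖u h‖ := not_lt.1 h3
    have h6 : ‖disp x A h k‖ ≤ 1 / 2 := not_lt.1 h4
    rw [norm_sub_rev] at h5
    nlinarith [norm_sub_norm_le (u h) (disp x A h k), norm_nonneg (u h)]
  · have := haar_right μ
    obtain ⟨k, h3, h4, h5, h6⟩ := exists_notMem4 μ ((hu _ hm.1).2.trans_le h82) (hu h hh.1).2
      ((measure_preimage_mul_right μ h _).trans_lt (hu h' hh'.1).2)
      ((measure_preimage_mul_right μ h _).trans_lt (hU (mk_mem_prod hh.2.1 hh'.2.2)))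
    have h3' : ‖disp x A (h * h') k - u (h * h')‖ ≤ η * ‖u (h * h')‖ := not_lt.1 h3
    have h4' : ‖disp x A h k - u h‖ ≤ η * ‖u h‖ := not_lt.1 h4
    have h5' : ‖disp x A h' (k * h) - u h'‖ ≤ η * ‖u h'‖ := not_lt.1 h5
    have h6' : ‖(A (k * h * h⁻¹) - A (k * h)) (x (k * h * h') - x (k * h))‖ ≤
      η * ‖disp x A h' (k * h)‖ := not_lt.1 h6
    rw [mul_inv_cancel_right] at h6'
    have e : u (h * h') - u h - u h' = (disp x A h k - u h) + (disp x A h' (k * h) - u h') +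
        (A k - A (k * h)) (x (k * h * h') - x (k * h)) - (disp x A (h * h') k - u (h * h')) := by
      simp only [disp, sub_apply, map_sub, mul_assoc]
      abel
    have h7 : ‖u (h * h') - u h - u h'‖ ≤ η * ‖u h‖ + η * ‖u h'‖ + η * ‖disp x A h' (k * h)‖ +
        η * ‖u (h * h')‖ := by
      rw [e]
      exact (norm_sub_le _ _).trans (add_le_add ((norm_add_le _ _).trans
        (add_le_add ((norm_add_le _ _).trans (add_le_add h4' h5')) h6')) h3')
    have h9 : ‖u (h * h')‖ ≤ ‖u (h * h') - u h - u h'‖ + ‖u h‖ + ‖u h'‖ := by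
      have := norm_add₃_le (a := u (h * h') - u h - u h') (b := u h') (c := u h)
      rw [sub_add_cancel, sub_add_cancel] at this
      linarith
    have h10 : ‖disp x A h' (k * h)‖ ≤ 2 * ‖u h'‖ := by
      nlinarith [norm_sub_norm_le (disp x A h' (k * h)) (u h'), norm_nonneg (u h')]
    have h11 := mul_le_mul_of_nonneg_left h9 hη.le
    have h12 := mul_le_mul_of_nonneg_left h10 hη.le
    have h13 := mul_le_mul_of_nonneg_right hη1 (norm_nonneg (u (h * h') - u h - u h'))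
    have h14 := mul_le_mul_of_nonneg_right hη2 (norm_nonneg (u h))
    have h15 := mul_le_mul_of_nonneg_right hη2 (norm_nonneg (u h'))
    have h16 := mul_nonneg hη.le (norm_nonneg (u h))
    nlinarith

end Main

end Pool.Agent.P.MP_d483fb_an.Z.TZ

end

end
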