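import Pool.Agent.P.MP_d483fb_an.M.A06

section

/-!
The derivative of a continuous homomorphism into a Banach algebra.
-/

open scoped Matrix Matrix.Norms.Operator Topology
open NormedSpace Filter Set

set_option linter.unusedSectionVars false

noncomputable section

namespace Pool.Agent.P.MP_d483fb_an.Z.MS

section Banach

variable {B : Type} [NormedRing B] [NormedAlgebra ℝ B] [CompleteSpace B]

theorem mlog_exp : ∀ᶠ x in 𝓝 (0 : B), mlog (exp x) = x :=
  (hasStrictFDerivAt_exp_zero (𝕂 := ℝ) (𝔸 := B)).eventually_left_inverse (f := exp)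
    (f' := ContinuousLinearEquiv.refl ℝ B) (a := 0)

theorem mlog_hasFDerivAt : HasFDerivAt (mlog : B → B) (ContinuousLinearMap.id ℝ B) 1 := by
  have h := ((hasStrictFDerivAt_exp_zero (𝕂 := ℝ) (𝔸 := B)).to_localInverse (f := exp)
    (f' := ContinuousLinearEquiv.refl ℝ B) (a := 0)).hasFDerivAt
  rw [exp_zero] at h
  exact h

theorem mlog_one : mlog (1 : B) = 0 := by
  have := (mlog_exp (B := B)).self_of_nhds
  rwa [exp_zero] at this

theorem hasDerivAt_exp_zero' (x : B) : HasDerivAt (fun t : ℝ => exp (t • x)) x 0 := by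
  simpa using hasDerivAt_exp_smul_const x (0 : ℝ)

/-- First order Campbell-Hausdorff formula. -/
theorem tendsto_mlog_mul (x y : B) :
    Tendsto (fun t : ℝ => t⁻¹ • mlog (exp (t • x) * exp (t • y))) (𝓝[≠] 0) (𝓝 (x + y)) := by
  have h1 : HasDerivAt (fun t : ℝ => exp (t • x) * exp (t • y)) (x + y) 0 := by
    simpa using (hasDerivAt_exp_zero' x).fun_mul (hasDerivAt_exp_zero' y)
  have h2 : HasFDerivAt (mlog : B → B) (ContinuousLinearMap.id ℝ B)
      (exp ((0 : ℝ) • x) * exp ((0 : ℝ) • y)) := by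
    simpa using mlog_hasFDerivAt (B := B)
  have h3 := hasDerivAt_iff_tendsto_slope_zero.1 (h2.comp_hasDerivAt (0 : ℝ) h1)
  simpa [mlog_one] using h3

theorem isUnit_integral {γ : ℝ → B} (hc : Continuous γ)
    (hu : ∀ t ∈ Icc (0 : ℝ) 1, ‖γ t - 1‖ ≤ 1 / 2) : IsUnit (∫ s in (0 : ℝ)..1, γ s) := by
  have h1 : (1 : B) - ∫ s in (0 : ℝ)..1, γ s = ∫ s in (0 : ℝ)..1, (1 - γ s) := by
    rw [intervalIntegral.integral_sub (by simp) (hc.intervalIntegrable _ _)]
    simp
  have h2 : ‖(1 : B) - ∫ s in (0 : ℝ)..1, γ s‖ ≤ 1 / 2 * |(1 : ℝ) - 0| := by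
    rw [h1]
    refine intervalIntegral.norm_integral_le_of_norm_le_const fun s hs => ?_
    rw [norm_sub_rev]
    rw [uIoc_of_le zero_le_one] at hs
    exact hu s ⟨hs.1.le, hs.2⟩
  have h3 := (Units.oneSub ((1 : B) - ∫ s in (0 : ℝ)..1, γ s) (by
    refine h2.trans_lt ?_
    norm_num)).isUnit
  simpa using h3

/-- A continuous one parameter group that stays close to `1` up to time one. -/
theorem oneParam_small {γ : ℝ → B} (hc : Continuous γ) (h0 : γ 0 = 1)
    (hadd : ∀ s t, γ (s + t) = γ s * γ t) (hu : ∀ t ∈ Icc (0 : ℝ) 1, ‖γ t - 1‖ ≤ 1 / 2) (t : ℝ) :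
    γ t = exp (t • ((γ 1 - 1) * Ring.inverse (∫ s in (0 : ℝ)..1, γ s))) := by
  have hU := isUnit_integral hc hu
  set u := ∫ s in (0 : ℝ)..1, γ s with hu'
  set Z := (γ 1 - 1) * Ring.inverse u with hZ
  have hF : ∀ x : ℝ, HasDerivAt (fun x : ℝ => ∫ s in (0 : ℝ)..x, γ s) (γ x) x := fun x =>
    (hc.integral_hasStrictDerivAt 0 x).hasDerivAt
  have h1 : ∀ x : ℝ, γ x = ((∫ s in (0 : ℝ)..(x + 1), γ s) - ∫ s in (0 : ℝ)..x, γ s) *
      Ring.inverse u := by
    intro x
    rw [intervalIntegral.integral_interval_sub_left (hc.intervalIntegrable _ _)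
      (hc.intervalIntegrable _ _)]
    have h2 : ∫ s in x..(x + 1), γ s = ∫ s in (0 : ℝ)..1, γ (x + s) := by
      rw [intervalIntegral.integral_comp_add_left γ x, add_zero]
    have h3 : ∫ s in (0 : ℝ)..1, γ (x + s) = γ x * u := by
      simp only [hadd]
      exact (ContinuousLinearMap.mul ℝ B (γ x)).intervalIntegral_comp_comm
        (hc.intervalIntegrable _ _)
    rw [h2, h3, mul_assoc, Ring.mul_inverse_cancel _ hU, mul_one]
  have h4 : ∀ x : ℝ, HasDerivAt γ (γ x * Z) x := by
    intro x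
    have h5 := (((hF (x + 1)).comp_add_const x 1).sub (hF x)).mul_const (Ring.inverse u)
    have h6 : (γ (x + 1) - γ x) * Ring.inverse u = γ x * Z := by
      rw [hZ, hadd, ← mul_assoc, mul_sub, mul_one]
    rw [h6] at h5
    exact h5.congr_of_eventuallyEq (Eventually.of_forall h1)
  have h7 : ∀ x : ℝ, HasDerivAt (fun x : ℝ => γ x * exp (x • (-Z))) 0 x := by
    intro x
    have h8 := (h4 x).mul (hasDerivAt_exp_smul_const' (-Z) x)
    have h9 : γ x * Z * exp (x • (-Z)) + γ x * (-Z * exp (x • (-Z))) = 0 := by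
      rw [neg_mul, mul_neg, mul_assoc, add_neg_cancel]
    rw [h9] at h8
    exact h8
  have h10 : γ t * exp (t • (-Z)) = γ 0 * exp ((0 : ℝ) • (-Z)) :=
    is_const_of_deriv_eq_zero (fun x => (h7 x).differentiableAt) (fun x => (h7 x).deriv) t 0
  have h11 : exp (t • (-Z)) * exp (t • Z) = 1 := by
    let _ : NormedAlgebra ℚ B := NormedAlgebra.restrictScalars ℚ ℝ B
    rw [← exp_add_of_commute (((Commute.refl Z).neg_left.smul_left t).smul_right t)]
    simp
  calc γ t = γ t * exp (t • (-Z)) * exp (t • Z) := by rw [mul_assoc, h11, mul_one]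
    _ = exp (t • Z) := by rw [h10, h0]; simp

end Banach

variable {G : Type} [Group G] [TopologicalSpace G] [IsTopologicalGroup G] {n : ℕ}
  (D : ExpData G n)

theorem rho_inv_mul {x y : G} (h : D.ρ x = D.ρ y) : D.ρ (x⁻¹ * y) = 1 := by
  rw [map_mul, ← h, ← map_mul, inv_mul_cancel, map_one]

/-- Uniqueness of lifts of curves. -/
theorem lift_unique {f g : ℝ → G} (hf : Continuous f) (hg : Continuous g)
    (h : ∀ t, D.ρ (f t) = D.ρ (g t)) (h0 : f 0 = g 0) (t : ℝ) : f t = g t := by
  have hc : Continuous fun s => (f s)⁻¹ * g s := hf.inv.mul hg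
  have hl : IsLocallyConstant fun s => (f s)⁻¹ * g s := by
    rw [IsLocallyConstant.iff_eventually_eq]
    intro s
    have h1 : Tendsto (fun r => ((f s)⁻¹ * g s)⁻¹ * ((f r)⁻¹ * g r)) (𝓝 s) (𝓝 1) := by
      have := (hc.tendsto s).const_mul ((f s)⁻¹ * g s)⁻¹
      rwa [inv_mul_cancel] at this
    filter_upwards [h1.eventually D.disc] with r hr
    have h2 := hr (rho_inv_mul D (by rw [rho_inv_mul D (h s), rho_inv_mul D (h r)]))
    exact (inv_mul_eq_one.1 h2).symm
  have h3 := hl.apply_eq_of_preconnectedSpace t 0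
  rw [h0, inv_mul_cancel] at h3
  exact inv_mul_eq_one.1 h3

theorem continuous_ex_smul {X : Mat n} (hX : X ∈ D.g) : Continuous fun t : ℝ => D.ex (t • X) :=
  D.ex_cont.comp_continuous (continuous_id.smul continuous_const) fun t => D.g.smul_mem t hX

theorem ex_add_smul {X : Mat n} (hX : X ∈ D.g) (s t : ℝ) :
    D.ex ((s + t) • X) = D.ex (s • X) * D.ex (t • X) := by
  refine lift_unique D (f := fun t => D.ex ((s + t) • X)) (g := fun t => D.ex (s • X) * D.ex (t • X))
    ((continuous_ex_smul D hX).comp (continuous_const.add continuous_id))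
    (continuous_const.mul (continuous_ex_smul D hX)) (fun r => ?_) (by simp [D.ex_zero]) t
  rw [map_mul, D.ρ_ex _ (D.g.smul_mem _ hX), D.ρ_ex _ (D.g.smul_mem _ hX),
    D.ρ_ex _ (D.g.smul_mem _ hX), add_smul,
    Matrix.exp_add_of_commute _ _ (((Commute.refl X).smul_left s).smul_right r)]

/-- Products of two one parameter groups in the exponential chart. -/
theorem ex_mul_ex {X Y : Mat n} (hX : X ∈ D.g) (hY : Y ∈ D.g) :
    ∀ᶠ t : ℝ in 𝓝 0, mlog (exp (t • X) * exp (t • Y)) ∈ D.g ∧
      D.ex (mlog (exp (t • X) * exp (t • Y))) = D.ex (t • X) * D.ex (t • Y) := by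
  have h1 : D.ex '' ({Z | mlog (exp Z) = Z} ∩ D.g) ∈ 𝓝 (1 : G) := by
    rw [← D.ex_nhds]
    exact image_mem_map (inter_mem (mem_nhdsWithin_of_mem_nhds mlog_exp) self_mem_nhdsWithin)
  have h2 : Tendsto (fun t : ℝ => D.ex (t • X) * D.ex (t • Y)) (𝓝 0) (𝓝 1) := by
    have := ((continuous_ex_smul D hX).tendsto 0).mul ((continuous_ex_smul D hY).tendsto 0)
    simpa [D.ex_zero] using this
  filter_upwards [h2.eventually h1] with t ht
  obtain ⟨Z, ⟨hZ, hZg⟩, hZe⟩ := ht
  have h3 : exp (t • X) * exp (t • Y) = exp Z := by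
    rw [← D.ρ_ex _ hZg, hZe, map_mul, D.ρ_ex _ (D.g.smul_mem _ hX), D.ρ_ex _ (D.g.smul_mem _ hY)]
  rw [h3, hZ]
  exact ⟨hZg, hZe⟩

/-- A continuous homomorphism into a Banach algebra has a linear derivative. -/
theorem exists_dhom {B : Type} [NormedRing B] [NormedAlgebra ℝ B] [CompleteSpace B]
    (φ : G →* B) (hφ : Continuous φ) :
    ∃ d : D.g →ₗ[ℝ] B, ∀ X : D.g, φ (D.ex X) = exp (d X) := by
  set F : D.g → B := fun X => φ (D.ex X) with hF
  have hFc : Continuous F := hφ.comp D.ex_cont.domRestrict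
  have hF0 : F 0 = 1 := by simp [hF, D.ex_zero]
  have hFa : ∀ (X : D.g) (s t : ℝ), F ((s + t) • X) = F (s • X) * F (t • X) := by
    intro X s t
    simp only [hF, Submodule.coe_smul]
    rw [ex_add_smul D X.2, map_mul]
  obtain ⟨r, hr, hball⟩ : ∃ r > 0, ∀ X : D.g, ‖X‖ < r → ‖F X - 1‖ ≤ 1 / 2 := by
    obtain ⟨r, hr, h⟩ := Metric.continuousAt_iff.1 (hFc.continuousAt (x := 0)) (1 / 2) (by norm_num)
    refine ⟨r, hr, fun X hX => ?_⟩
    have := h (x := X) (by simpa using hX)
    rw [hF0, dist_eq_norm] at this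
    exact this.le
  have hcs : ∀ X : D.g, Continuous fun t : ℝ => F (t • X) := fun X =>
    hFc.comp (continuous_id.smul continuous_const)
  have hsm : ∀ X : D.g, ‖X‖ < r → ∀ t ∈ Icc (0 : ℝ) 1, ‖F (t • X) - 1‖ ≤ 1 / 2 := by
    intro X hX t ht
    refine hball _ ?_
    rw [norm_smul, Real.norm_of_nonneg ht.1]
    exact (mul_le_of_le_one_left (norm_nonneg _) ht.2).trans_lt hX
  set P : D.g → B := fun X => (F X - 1) * Ring.inverse (∫ s in (0 : ℝ)..1, F (s • X)) with hP
  have hPe : ∀ X : D.g, ‖X‖ < r → ∀ t : ℝ, F (t • X) = exp (t • P X) := by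
    intro X hX t
    have := oneParam_small (hcs X) (by simpa using hF0) (hFa X) (hsm X hX) t
    rwa [one_smul] at this
  set d : D.g → B := fun X => deriv (fun t : ℝ => F (t • X)) 0 with hd
  have huniq : ∀ (X : D.g) (Z : B), (∀ t : ℝ, F (t • X) = exp (t • Z)) → d X = Z := by
    intro X Z h
    simp only [hd, h]
    exact (hasDerivAt_exp_zero' Z).deriv
  have hsmall : ∀ X : D.g, ∃ c : ℝ, 0 < c ∧ ‖c • X‖ < r := by
    intro X
    have h1 : Tendsto (fun c : ℝ => ‖c • X‖) (𝓝[>] 0) (𝓝 0) := by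
      have : Continuous fun c : ℝ => ‖c • X‖ := (continuous_id.smul continuous_const).norm
      simpa using (this.tendsto 0).mono_left nhdsWithin_le_nhds
    obtain ⟨c, hc1, hc2⟩ := ((h1.eventually (gt_mem_nhds hr)).and self_mem_nhdsWithin).exists
    exact ⟨c, hc2, hc1⟩
  have hde : ∀ (X : D.g) (t : ℝ), F (t • X) = exp (t • d X) := by
    intro X
    obtain ⟨c, hc, hcX⟩ := hsmall X
    have h1 : ∀ t : ℝ, F (t • X) = exp (t • (c⁻¹ • P (c • X))) := by
      intro t
      have := hPe _ hcX (t * c⁻¹)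
      rwa [smul_smul, mul_assoc, inv_mul_cancel₀ hc.ne', mul_one, ← smul_smul] at this
    rw [huniq X _ h1]
    exact h1
  have hds : ∀ (c : ℝ) (X : D.g), d (c • X) = c • d X := by
    intro c X
    refine huniq _ _ fun t => ?_
    rw [smul_smul, smul_smul, hde]
  have hdc : ∀ X : D.g, ‖X‖ < r → ContinuousAt d X := by
    intro X hX
    have h1 : Continuous fun X : D.g => ∫ s in (0 : ℝ)..1, F (s • X) :=
      intervalIntegral.continuous_parametric_intervalIntegral_of_continuous'
        (f := fun (X : D.g) (s : ℝ) => F (s • X))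
        (hFc.comp (continuous_snd.smul continuous_fst)) 0 1
    obtain ⟨u, hu⟩ := isUnit_integral (hcs X) (hsm X hX)
    have h2 : ContinuousAt (fun X : D.g => Ring.inverse (∫ s in (0 : ℝ)..1, F (s • X))) X :=
      ContinuousAt.comp_of_eq (f := fun X : D.g => ∫ s in (0 : ℝ)..1, F (s • X))
        (NormedRing.inverse_continuousAt u) h1.continuousAt hu.symm
    have h3 : ContinuousAt P X := (hFc.continuousAt.sub continuousAt_const).mul h2
    refine h3.congr ?_
    filter_upwards [(isOpen_lt continuous_norm continuous_const).mem_nhds hX] with Y hY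
    exact (huniq Y _ (hPe Y hY)).symm
  have hda' : ∀ X Y : D.g, ‖X + Y‖ < r → d (X + Y) = d X + d Y := by
    intro X Y hXY
    classical
    set W : ℝ → D.g := fun t =>
      if h : mlog (exp (t • X.1) * exp (t • Y.1)) ∈ D.g then t⁻¹ • ⟨_, h⟩ else 0 with hW
    have hev := ex_mul_ex D X.2 Y.2
    have h1 : Tendsto W (𝓝[≠] 0) (𝓝 (X + Y)) := by
      rw [tendsto_subtype_rng]
      refine (tendsto_mlog_mul X.1 Y.1).congr' ?_
      filter_upwards [mem_nhdsWithin_of_mem_nhds hev] with t ht
      simp only [hW, dif_pos ht.1]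
      rfl
    have h2 : Tendsto (fun t => d (W t)) (𝓝[≠] 0) (𝓝 (d (X + Y))) := (hdc _ hXY).tendsto.comp h1
    have h3 : Tendsto (fun t : ℝ => t • d (W t)) (𝓝[≠] 0) (𝓝 0) := by
      have := (tendsto_id.mono_left (nhdsWithin_le_nhds (a := (0 : ℝ)) (s := {0}ᶜ))).smul h2
      simpa using this
    refine tendsto_nhds_unique h2 ((tendsto_mlog_mul (d X) (d Y)).congr' ?_)
    filter_upwards [mem_nhdsWithin_of_mem_nhds hev, h3.eventually mlog_exp, self_mem_nhdsWithin]
      with t ht h4 ht0
    have ht0' : t ≠ 0 := ht0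
    have h5 : exp (t • d X) * exp (t • d Y) = exp (t • d (W t)) := by
      rw [← hde, ← hde, ← hde]
      simp only [hF, hW, dif_pos ht.1, Submodule.coe_smul, smul_smul, mul_inv_cancel₀ ht0',
        one_smul]
      rw [ht.2, map_mul]
    rw [h5, h4, smul_smul, inv_mul_cancel₀ ht0', one_smul]
  have hda : ∀ X Y : D.g, d (X + Y) = d X + d Y := by
    intro X Y
    obtain ⟨c, hc, hcX⟩ := hsmall (X + Y)
    rw [smul_add] at hcX
    have h1 := hda' _ _ hcX
    rw [← smul_add, hds, hds, hds, ← smul_add] at h1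
    exact smul_right_injective B hc.ne' h1
  refine ⟨⟨⟨d, hda⟩, hds⟩, fun X => ?_⟩
  have := hde X 1
  rwa [one_smul, one_smul] at this

end Pool.Agent.P.MP_d483fb_an.Z.MS

end

end

section

/-!
A group with `m ≤ v(G)` that acts by automorphisms on an algebra of `m × m` matrices fixes all
annihilators of vectors in simple subquotients; hence it cannot move an idempotent to an orthogonal
one.
-/

open scoped Matrix Matrix.Norms.Operator Topology
open NormedSpace Filter Set

set_option linter.unusedSectionVars false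

noncomputable section

namespace Pool.Agent.P.MP_d483fb_an.Z.MS

/-- In an Artinian ring a left ideal has a right unit modulo the radical. -/
theorem exists_unit_mod_jac {A : Type*} [Ring A] [IsArtinianRing A] (L : Ideal A) :
    ∃ e ∈ L, ∀ l ∈ L, l - l * e ∈ Ring.jacobson A := by
  have hs : IsSemisimpleModule A (A ⧸ Module.jacobson A A) :=
    (IsArtinian.isSemisimpleModule_iff_jacobson A _).2 (Module.jacobson_quotient_jacobson A A)
  set J : Submodule A A := Module.jacobson A A with hJ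
  obtain ⟨C, hC⟩ := exists_isCompl (Submodule.map J.mkQ L)
  have h1 : J.mkQ 1 ∈ Submodule.map J.mkQ L ⊔ C := by
    rw [hC.sup_eq_top]
    trivial
  obtain ⟨x, hx, c, hc, hxc⟩ := Submodule.mem_sup.1 h1
  obtain ⟨e, he, rfl⟩ := Submodule.mem_map.1 hx
  refine ⟨e, he, fun l hl => ?_⟩
  have h2 : J.mkQ (l - l * e) = l • c := by
    have : c = J.mkQ 1 - J.mkQ e := by rw [← hxc]; abel
    rw [this, ← map_sub, ← map_smul, smul_eq_mul, mul_sub, mul_one]
  have h3 : J.mkQ (l - l * e) ∈ Submodule.map J.mkQ L ⊓ C :=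
    ⟨Submodule.mem_map_of_mem (L.sub_mem hl (L.mul_mem_left l he)), h2 ▸ C.smul_mem l hc⟩
  rw [hC.inf_eq_bot, Submodule.mem_bot, Submodule.mkQ_apply, Submodule.Quotient.mk_eq_zero] at h3
  exact h3

/-- The derivative of a curve in a closed subspace. -/
theorem deriv_mem_of_closed {E : Type*} [NormedAddCommGroup E] [NormedSpace ℝ E]
    (L : Submodule ℝ E) (hL : IsClosed (L : Set E)) {f : ℝ → E} {f' : E} {t : ℝ}
    (hf : HasDerivAt f f' t) (h : ∀ s, f s ∈ L) : f' ∈ L := by
  refine hL.mem_of_tendsto (hasDerivAt_iff_tendsto_slope.1 hf) (Eventually.of_forall fun s => ?_)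
  rw [slope_def_module]
  exact L.smul_mem _ (L.sub_mem (h s) (h t))

/-- A closed subspace that is invariant under an operator is invariant under its exponential. -/
theorem exp_apply_mem {E : Type*} [NormedAddCommGroup E] [NormedSpace ℝ E] [CompleteSpace E]
    (L : Submodule ℝ E) (hL : IsClosed (L : Set E)) {T : E →L[ℝ] E} (hT : ∀ x ∈ L, T x ∈ L)
    {x : E} (hx : x ∈ L) : exp T x ∈ L := by
  have h1 : HasSum (fun n : ℕ => ((n.factorial : ℝ)⁻¹) • T ^ n) (exp T) :=
    exp_series_hasSum_exp' (𝕂 := ℝ) T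
  have h2 := (ContinuousLinearMap.apply ℝ E x).hasSum h1
  have h3 : ∀ n : ℕ, (T ^ n) x ∈ L := by
    intro n
    induction n with
    | zero => simpa using hx
    | succ n ih =>
      rw [pow_succ']
      exact hT _ ih
  refine hL.mem_of_tendsto h2 (Eventually.of_forall fun s => L.sum_mem fun n _ => ?_)
  simp only [map_smul, ContinuousLinearMap.apply_apply]
  exact L.smul_mem _ (h3 n)

variable {G : Type} [Group G] [TopologicalSpace G] [IsTopologicalGroup G] {n : ℕ}
  (D : ExpData G n)

section Normed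

variable {A : Type} [NormedRing A] [NormedAlgebra ℝ A] [FiniteDimensional ℝ A]

/-- The derivative of an action by automorphisms. -/
theorem exists_deriv_action (sg : G →* (A ≃ₐ[ℝ] A)) (hc : ∀ a, Continuous fun g => sg g a) :
    ∃ d : D.g →ₗ[ℝ] (A →L[ℝ] A), ∀ (X : D.g) (a : A), sg (D.ex X) a = exp (d X) a := by
  have := FiniteDimensional.complete ℝ A
  let φ : G →* (A →L[ℝ] A) :=
    { toFun := fun g => LinearMap.toContinuousLinearMap (sg g).toLinearMap
      map_one' := by ext a; simp
      map_mul' := by intro g h; ext a; simp }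
  obtain ⟨d, hd⟩ := exists_dhom D φ (continuous_clm_apply.2 hc)
  exact ⟨d, fun X a => by rw [← hd]; rfl⟩

/-- The group fixes the annihilators of the vectors of a small simple module. -/
theorem fix_ann {m : ℕ} (hv : D.ltV m) (sg : G →* (A ≃ₐ[ℝ] A))
    (hc : ∀ a, Continuous fun g => sg g a) {S : Type} [AddCommGroup S] [Module ℝ S] [Module A S]
    [IsScalarTower ℝ A S] [FiniteDimensional ℝ S] [IsSimpleModule A S]
    (hS : Module.finrank ℝ S ≤ m + 1) (v : S) (g : G) (l : A) (hl : l • v = 0) :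
    sg g l • v = 0 := by
  have := FiniteDimensional.complete ℝ A
  have : IsArtinianRing A := IsArtinianRing.of_finite ℝ A
  rcases eq_or_ne v 0 with rfl | hv0
  · simp
  obtain ⟨d, hd⟩ := exists_deriv_action D sg hc
  let ev : A →ₗ[ℝ] S := (LinearMap.toSpanSingleton A S v).restrictScalars ℝ
  have hev : ∀ a, ev a = a • v := fun a => rfl
  let L : Submodule ℝ A := LinearMap.ker ev
  have hL : ∀ a, a ∈ L ↔ a • v = 0 := fun a => Iff.rfl
  have hLc : IsClosed (L : Set A) := L.closed_of_finiteDimensional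
  let H : Subgroup G :=
    { carrier := {g | ∀ l ∈ L, sg g l ∈ L ∧ sg g⁻¹ l ∈ L}
      one_mem' := by intro l hl; simpa using hl
      mul_mem' := by
        intro x y hx hy l hl
        rw [mul_inv_rev, map_mul, map_mul]
        exact ⟨(hx _ (hy l hl).1).1, (hy _ (hx l hl).2).2⟩
      inv_mem' := by
        intro x hx l hl
        rw [inv_inv]
        exact (hx l hl).symm }
  have hHc : IsClosed (H : Set G) := by
    have : (H : Set G) = ⋂ l ∈ L, ((fun g => sg g l) ⁻¹' L ∩ (fun g => sg g⁻¹ l) ⁻¹' L) := by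
      ext x
      simp only [mem_iInter]
      rfl
    rw [this]
    exact isClosed_biInter fun l _ =>
      (hLc.preimage (hc l)).inter (hLc.preimage ((hc l).comp continuous_inv))
  by_cases hH : H = ⊤
  · have hg : g ∈ H := hH ▸ Subgroup.mem_top g
    exact (hg l hl).1
  exfalso
  have hlt := hv H hHc hH
  have hder : ∀ (X : D.g) (a : A), HasDerivAt (fun t : ℝ => sg (D.ex (t • X.1)) a) (d X a) 0 := by
    intro X a
    have h1 := (hasDerivAt_exp_zero' (d X)).clm_apply (hasDerivAt_const (0 : ℝ) a)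
    simp only [map_zero, add_zero] at h1
    refine h1.congr_of_eventuallyEq (Eventually.of_forall fun t => ?_)
    have := hd (t • X) a
    rwa [map_smul] at this
  have hmul : ∀ (X : D.g) (a b : A), d X (a * b) = d X a * b + a * d X b := by
    intro X a b
    have h1 := (hder X a).fun_mul (hder X b)
    simp only [zero_smul, D.ex_zero, map_one, AlgEquiv.one_apply] at h1
    refine (hder X (a * b)).unique (h1.congr_of_eventuallyEq (Eventually.of_forall fun t => ?_))
    exact map_mul _ a b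
  have hJ : ∀ j ∈ Ring.jacobson A, j ∈ L := fun j hj =>
    Module.mem_annihilator.1 (IsSemisimpleModule.jacobson_le_annihilator A S hj) v
  have hdJ : ∀ (X : D.g), ∀ j ∈ Ring.jacobson A, d X j ∈ L := by
    intro X j hj
    refine deriv_mem_of_closed L hLc (hder X j) fun s => hJ _ ?_
    have : RingHomSurjective (sg (D.ex (s • X.1))).toRingEquiv.toRingHom :=
      ⟨(sg (D.ex (s • X.1))).surjective⟩
    exact Ring.le_comap_jacobson (sg (D.ex (s • X.1))).toRingEquiv.toRingHom hj
  obtain ⟨e, he, hel⟩ := exists_unit_mod_jac (LinearMap.ker (LinearMap.toSpanSingleton A S v))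
  have he0 : e • v = 0 := he
  let Θ : D.g →ₗ[ℝ] (S ⧸ Submodule.span ℝ {v}) :=
    (Submodule.span ℝ {v}).mkQ ∘ₗ ev ∘ₗ (ContinuousLinearMap.apply ℝ A e).toLinearMap ∘ₗ d
  have hker : ∀ X : D.g, Θ X = 0 → ∀ l ∈ L, d X l ∈ L := by
    intro X hX l hl
    have h1 : d X e • v ∈ Submodule.span ℝ {v} := (Submodule.Quotient.mk_eq_zero _).1 hX
    obtain ⟨c, hc⟩ := Submodule.mem_span_singleton.1 h1
    have h2 := (hL _).1 (hdJ X _ (hel l hl))
    rw [map_sub, hmul, sub_smul, add_smul, mul_smul, mul_smul, he0, smul_zero, zero_add, ← hc,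
      smul_comm l c v, (hL l).1 hl, smul_zero, sub_zero] at h2
    exact h2
  have hle : Submodule.map D.g.subtype (LinearMap.ker Θ) ≤ D.lie H := by
    rintro _ ⟨X, hX, rfl⟩
    refine Submodule.subset_span ⟨X.2, fun t l hl => ?_⟩
    have h1 : ∀ s : ℝ, sg (D.ex (s • X.1)) l ∈ L := by
      intro s
      have := hd (s • X) l
      rw [Submodule.coe_smul] at this
      rw [this]
      exact exp_apply_mem L hLc (hker _ (by rw [map_smul, show Θ X = 0 from hX, smul_zero])) hl
    have h2 : (D.ex (t • X.1))⁻¹ = D.ex ((-t) • X.1) := by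
      rw [inv_eq_iff_mul_eq_one, ← ex_add_smul D X.2, add_neg_cancel, zero_smul, D.ex_zero]
    refine ⟨h1 t, ?_⟩
    rw [Submodule.subtype_apply, h2]
    exact h1 _
  have h1 := Submodule.finrank_mono hle
  rw [Submodule.finrank_map_subtype_eq] at h1
  have h2 := LinearMap.finrank_range_add_finrank_ker Θ
  have h3 := Submodule.finrank_le (LinearMap.range Θ)
  have h4 := Submodule.finrank_quotient_add_finrank (Submodule.span ℝ {v})
  rw [finrank_span_singleton hv0] at h4
  omega

/-- An idempotent that is moved to an orthogonal idempotent acts as zero on small modules. -/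
theorem idem_smul_eq_zero {m : ℕ} (hv : D.ltV m) (sg : G →* (A ≃ₐ[ℝ] A))
    (hc : ∀ a, Continuous fun g => sg g a) (g : G) (p : A) (hp : p * p = p)
    (h0 : sg g p * p = 0) (r : ℕ) :
    ∀ (V : Type) [AddCommGroup V] [Module ℝ V] [Module A V] [IsScalarTower ℝ A V]
      [FiniteDimensional ℝ V], Module.finrank ℝ V ≤ r → r ≤ m + 1 → ∀ v : V, p • v = 0 := by
  induction r with
  | zero =>
    intro V _ _ _ _ _ hV _ v
    have : Subsingleton V := Module.finrank_zero_iff.1 (Nat.le_zero.1 hV)
    exact Subsingleton.elim _ _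
  | succ r ih =>
    intro V _ _ _ _ _ hV hr v
    rcases subsingleton_or_nontrivial V with _ | _
    · exact Subsingleton.elim _ _
    have : IsArtinian A V := isArtinian_of_tower ℝ inferInstance
    obtain ⟨S, hS⟩ := IsAtomic.exists_atom (Submodule A V)
    have : IsSimpleModule A S := isSimpleModule_iff_isAtom.2 hS
    have : Nontrivial S := IsSimpleModule.nontrivial A S
    have hfS : FiniteDimensional ℝ S := inferInstanceAs (FiniteDimensional ℝ (S.restrictScalars ℝ))
    have hsum : Module.finrank ℝ (V ⧸ S) + Module.finrank ℝ S = Module.finrank ℝ V := by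
      rw [← (Submodule.Quotient.restrictScalarsEquiv ℝ S).finrank_eq]
      exact Submodule.finrank_quotient_add_finrank (S.restrictScalars ℝ)
    have hpos : 0 < Module.finrank ℝ S := Module.finrank_pos
    have : FiniteDimensional ℝ (V ⧸ S) :=
      Module.Finite.equiv (Submodule.Quotient.restrictScalarsEquiv ℝ S)
    have h1 : p • v ∈ S := by
      have := ih (V ⧸ S) (by omega) (by omega) (S.mkQ v)
      rwa [← map_smul, Submodule.mkQ_apply, Submodule.Quotient.mk_eq_zero] at this
    have h2 : ∀ w : S, p • w = 0 := by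
      intro w
      have h3 : sg g p • p • w = 0 := by rw [← mul_smul, h0, zero_smul]
      have h4 := fix_ann D hv sg hc (S := S) (by omega) (p • w) g⁻¹ _ h3
      rwa [← AlgEquiv.mul_apply, ← map_mul, inv_mul_cancel, map_one, AlgEquiv.one_apply,
        ← mul_smul, hp] at h4
    have h5 := congrArg Subtype.val (h2 ⟨_, h1⟩)
    rwa [Submodule.coe_smul, ← mul_smul, hp] at h5

end Normed

/-- A group with `m ≤ v(G)` acting continuously by automorphisms on an algebra of `m × m` matrices
does not move a nonzero idempotent to an orthogonal one. -/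
theorem ms_alg {m : ℕ} (hv : D.ltV (m - 1)) {A : Type} [Ring A] [Algebra ℝ A]
    (ev : A →ₐ[ℝ] Mat m) (hev : Function.Injective ev) (sg : G →* (A ≃ₐ[ℝ] A))
    (hc : ∀ a, Continuous fun g => ev (sg g a)) (g : G) (p : A) (hp : p * p = p)
    (h0 : sg g p * p = 0) : p = 0 := by
  let _ : NormedRing A := NormedRing.induced A (Mat m) ev hev
  let _ : NormedAlgebra ℝ A := NormedAlgebra.induced ℝ A (Mat m) ev
  have : FiniteDimensional ℝ A := Module.Finite.of_injective ev.toLinearMap hev
  let _ : Module A (Fin m → ℝ) := Module.compHom _ ev.toRingHom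
  have hsm : ∀ (a : A) (v : Fin m → ℝ), a • v = ev a *ᵥ v := fun a v => rfl
  have : IsScalarTower ℝ A (Fin m → ℝ) :=
    ⟨fun c a v => by rw [hsm, hsm, map_smul, Matrix.smul_mulVec]⟩
  have h1 := idem_smul_eq_zero D hv sg (fun a => continuous_induced_rng.2 (hc a)) g p hp h0 m
    (Fin m → ℝ) (by simp) (by omega)
  refine hev ?_
  rw [map_zero]
  refine Matrix.toLin'.injective (LinearMap.ext fun v => ?_)
  rw [map_zero, Matrix.toLin'_apply, ← hsm, h1, LinearMap.zero_apply]

end Pool.Agent.P.MP_d483fb_an.Z.MS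

end

end

section

/-!
Borel density by recurrence: an equivariant measurable field of kernels is invariant under
unipotent elements; independent sections are pointwise independent.
-/

open scoped Matrix Topology
open MeasureTheory Filter Set

set_option linter.unusedSectionVars false

noncomputable section

namespace Pool.Agent.P.MP_d483fb_an.Z.MS

/-- An element that is contracted by conjugation is unipotent in every representation. -/
theorem unip_of_contr {G : Type} [Group G] [TopologicalSpace G] {n : ℕ}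
    (τ : G →* Matrix (Fin n) (Fin n) ℝ) (hτ : Continuous τ) {h u : G} (hc : SR.Contr h u) :
    IsNilpotent (τ u - 1) := by
  have h1 : ∀ t : ℝ, (Matrix.scalar (Fin n) t - τ u).det = (Matrix.scalar (Fin n) t - 1).det := by
    intro t
    have h2 : ∀ g : G, (Matrix.scalar (Fin n) t - τ (g * u * g⁻¹)).det =
        (Matrix.scalar (Fin n) t - τ u).det := by
      intro g
      have h3 : τ g * τ g⁻¹ = 1 := by rw [← map_mul, mul_inv_cancel, map_one]
      have h4 : Matrix.scalar (Fin n) t - τ (g * u * g⁻¹) =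
          τ g * (Matrix.scalar (Fin n) t - τ u) * τ g⁻¹ := by
        rw [mul_sub, sub_mul, ← (Matrix.scalar_commute t (fun _ => Commute.all _ _) (τ g)).eq,
          mul_assoc (Matrix.scalar (Fin n) t), h3, mul_one, map_mul, map_mul]
      rw [h4, Matrix.det_mul, Matrix.det_mul, mul_right_comm, ← Matrix.det_mul, h3, Matrix.det_one,
        one_mul]
    have h5 : Continuous fun g : G => (Matrix.scalar (Fin n) t - τ g).det :=
      (continuous_const.sub hτ).matrix_det
    have h6 := (h5.tendsto 1).comp hc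
    simp only [Function.comp_def, h2, map_one] at h6
    exact tendsto_nhds_unique tendsto_const_nhds h6
  have h7 : (τ u).charpoly = (Polynomial.X - 1) ^ n := by
    refine Polynomial.funext fun t => ?_
    have : Matrix.scalar (Fin n) t - 1 = Matrix.diagonal fun _ => t - 1 := by
      rw [Matrix.scalar_apply, ← Matrix.diagonal_one, Matrix.diagonal_sub]
    rw [Matrix.eval_charpoly, h1, this]
    simp
  have h8 := Matrix.aeval_self_charpoly (τ u)
  rw [h7] at h8
  exact ⟨n, by simpa using h8⟩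

theorem tendsto_choose_div {i j : ℕ} (h : i < j) :
    Tendsto (fun m : ℕ => (m.choose i : ℝ) / m.choose j) atTop (𝓝 0) := by
  have h1 : (fun m : ℕ => (m : ℝ) ^ i) =o[atTop] fun m : ℕ => (m : ℝ) ^ j :=
    (Asymptotics.isLittleO_pow_pow_atTop_of_lt (𝕜 := ℝ) h).comp_tendsto tendsto_natCast_atTop_atTop
  exact (((isTheta_choose i).trans_isLittleO h1).trans_isTheta
    (isTheta_choose j).symm).tendsto_div_nhds_zero

section Rec

variable {W E : Type} [NormedAddCommGroup W] [NormedSpace ℝ W] [NormedAddCommGroup E]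
  [NormedSpace ℝ E]

/-- A kernel that is recurrent under a unipotent map is invariant. -/
theorem rec_ker (N : Module.End ℝ W) (hN : IsNilpotent N) (T : ℕ → W →L[ℝ] E) (T0 : W →L[ℝ] E)
    (hT : ∀ m v, T0 v = 0 → T m (((1 + N) ^ m) v) = 0) (hcl : MapClusterPt T0 atTop T)
    (w : W) (hw : T0 w = 0) : T0 (N w) = 0 := by
  let K : Submodule ℝ W :=
    { carrier := {v | ∀ i : ℕ, T0 ((N ^ i) v) = 0}
      zero_mem' := by intro i; simp
      add_mem' := by
        intro a b ha hb i
        rw [map_add, map_add, ha i, hb i, add_zero]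
      smul_mem' := by
        intro c a ha i
        rw [map_smul, map_smul, ha i, smul_zero] }
  have hK : ∀ v, v ∈ K ↔ ∀ i : ℕ, T0 ((N ^ i) v) = 0 := fun v => Iff.rfl
  have hKN : MapsTo N K K := by
    intro v hv i
    have := hv (i + 1)
    rwa [pow_succ, Module.End.mul_apply] at this
  have hKp : ∀ (i : ℕ), ∀ v ∈ K, (N ^ i) v ∈ K := by
    intro i v hv j
    have := hv (j + i)
    rwa [pow_add, Module.End.mul_apply] at this
  have hsurj : ∀ (m : ℕ), ∀ z ∈ K, ∃ z' ∈ K, ((1 + N) ^ m) z' = z := by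
    have hu := (Module.End.isNilpotent.restrict hKN hN).isUnit_one_add
    have h1 := ((Module.End.isUnit_iff _).1 hu).2
    intro m
    induction m with
    | zero => exact fun z hz => ⟨z, hz, by simp⟩
    | succ m ih =>
      intro z hz
      obtain ⟨y, hy, rfl⟩ := ih z hz
      obtain ⟨x, hx⟩ := h1 ⟨y, hy⟩
      refine ⟨x, x.2, ?_⟩
      rw [pow_succ, Module.End.mul_apply]
      exact congrArg _ (congrArg Subtype.val hx)
  have hTK : ∀ m, ∀ z ∈ K, T m z = 0 := by
    intro m z hz
    obtain ⟨y, hy, rfl⟩ := hsurj m z hz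
    exact hT m y (by simpa using hy 0)
  have key : ∀ j : ℕ, (N ^ (j + 1)) w ∈ K → (N ^ j) w ∈ K := by
    intro j hj
    have h1 : ∀ m, j + 1 ≤ m → T m (∑ i ∈ Finset.range (j + 1),
        ((m.choose i : ℝ) / m.choose j) • (N ^ i) w) = 0 := by
      intro m hm
      have h2 := hT m w hw
      rw [add_comm, (Commute.one_right N).add_pow,
        ← Finset.sum_range_add_sum_Ico _ (by omega : j + 1 ≤ m + 1), LinearMap.add_apply, map_add,
        hTK m ((∑ i ∈ Finset.Ico (j + 1) (m + 1), N ^ i * 1 ^ (m - i) * (m.choose i : Module.End ℝ W)) w),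
        add_zero] at h2
      · have h3 : ∑ i ∈ Finset.range (j + 1), ((m.choose i : ℝ) / m.choose j) • (N ^ i) w =
            (m.choose j : ℝ)⁻¹ • (∑ i ∈ Finset.range (j + 1),
              N ^ i * 1 ^ (m - i) * (m.choose i : Module.End ℝ W)) w := by
          rw [LinearMap.sum_apply, Finset.smul_sum]
          refine Finset.sum_congr rfl fun i _ => ?_
          rw [one_pow, mul_one, Module.End.mul_apply, Module.End.natCast_apply,
            ← Nat.cast_smul_eq_nsmul ℝ, map_smul, smul_smul, div_eq_inv_mul]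
        rw [h3, map_smul, h2, smul_zero]
      · rw [LinearMap.sum_apply]
        refine K.sum_mem fun i hi => ?_
        obtain ⟨l, rfl⟩ := Nat.exists_eq_add_of_le' (Finset.mem_Ico.1 hi).1
        rw [one_pow, mul_one, Module.End.mul_apply, Module.End.natCast_apply, map_nsmul, pow_add,
          Module.End.mul_apply]
        exact nsmul_mem (hKp l _ hj) _
    have h4 : Tendsto (fun m : ℕ => ∑ i ∈ Finset.range (j + 1),
        ((m.choose i : ℝ) / m.choose j) • (N ^ i) w) atTop (𝓝 ((N ^ j) w)) := by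
      simp only [Finset.sum_range_succ]
      have h5 : Tendsto (fun m : ℕ => ∑ i ∈ Finset.range j,
          ((m.choose i : ℝ) / m.choose j) • (N ^ i) w) atTop (𝓝 (∑ i ∈ Finset.range j,
            (0 : ℝ) • (N ^ i) w)) :=
        tendsto_finsetSum _ fun i hi => (tendsto_choose_div (Finset.mem_range.1 hi)).smul_const _
      have h6 : Tendsto (fun m : ℕ => ((m.choose j : ℝ) / m.choose j) • (N ^ j) w) atTop
          (𝓝 ((N ^ j) w)) := by
        refine tendsto_const_nhds.congr' ?_
        filter_upwards [eventually_ge_atTop j] with m hm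
        rw [div_self (by exact_mod_cast (Nat.choose_pos hm).ne'), one_smul]
      simpa using h5.add h6
    obtain ⟨φ, hφ, hlim⟩ := hcl.tendsto_subseq
    have h7 := (isBoundedBilinearMap_apply.continuous.tendsto (T0, (N ^ j) w)).comp
      (hlim.prodMk_nhds (h4.comp hφ.tendsto_atTop))
    have h8 : T0 ((N ^ j) w) = 0 := by
      refine tendsto_nhds_unique h7 (tendsto_const_nhds.congr' ?_)
      filter_upwards [hφ.tendsto_atTop.eventually (eventually_ge_atTop (j + 1))] with m hm
      exact (h1 _ hm).symm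
    intro i
    rcases i with _ | i
    · simpa using h8
    · have := hj i
      rwa [← Module.End.mul_apply, ← pow_add, ← add_assoc, add_right_comm, pow_add,
        Module.End.mul_apply] at this
  obtain ⟨r, hr⟩ := hN
  have h9 : ∀ j, j ≤ r → (N ^ (r - j)) w ∈ K := by
    intro j
    induction j with
    | zero => intro _; simp [hr]
    | succ j ih =>
      intro hj
      refine key _ ?_
      rw [show r - (j + 1) + 1 = r - j by omega]
      exact ih (by omega)
  have h10 := h9 r le_rfl 1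
  simpa using h10

variable {X : Type} [MeasurableSpace X] {μ : Measure X} [IsFiniteMeasure μ]

/-- Poincare recurrence for the values of a measurable function. -/
theorem ae_cluster {Y : Type} [TopologicalSpace Y] [SecondCountableTopology Y]
    [TopologicalSpace.PseudoMetrizableSpace Y] {f : X → X} (hf : MeasurePreserving f μ μ)
    {T : X → Y} (hT : StronglyMeasurable T) :
    ∀ᵐ x ∂μ, MapClusterPt (T x) atTop fun m => T (f^[m] x) := by
  borelize Y
  have h : ∀ s ∈ TopologicalSpace.countableBasis Y, ∀ᵐ x ∂μ, x ∈ T ⁻¹' s →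
      ∃ᶠ n in atTop, f^[n] x ∈ T ⁻¹' s := fun s hs =>
    hf.conservative.ae_mem_imp_frequently_image_mem
      (hT.measurable (TopologicalSpace.isOpen_of_mem_countableBasis hs).measurableSet).nullMeasurableSet
  refine ((ae_ball_iff <| TopologicalSpace.countable_countableBasis Y).2 h).mono fun x hx => ?_
  rw [mapClusterPt_iff_frequently]
  intro s hs
  obtain ⟨o, hoS, hxo, hos⟩ := (TopologicalSpace.isBasis_countableBasis Y).mem_nhds_iff.1 hs
  exact (hx o hoS hxo).mono fun n hn => hos hn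

/-- An equivariant field of kernels is invariant under a unipotent map. -/
theorem bd_ker [FiniteDimensional ℝ W] [FiniteDimensional ℝ E] {f : X → X}
    (hf : MeasurePreserving f μ μ) {T : X → W →L[ℝ] E} (hT : StronglyMeasurable T)
    (u : Module.End ℝ W) (hu : IsNilpotent (u - 1))
    (h : ∀ᵐ x ∂μ, ∀ v, T x v = 0 → T (f x) (u v) = 0) :
    ∀ᵐ x ∂μ, ∀ v, T x v = 0 → T x (u v) = 0 := by
  have h1 : ∀ᵐ x ∂μ, ∀ m : ℕ, ∀ v, T (f^[m] x) v = 0 → T (f (f^[m] x)) (u v) = 0 :=
    ae_all_iff.2 fun m => (hf.iterate m).quasiMeasurePreserving.ae h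
  filter_upwards [h1, ae_cluster hf hT] with x hx hcl v hv
  have h2 : ∀ m v, T x v = 0 → T (f^[m] x) (((1 + (u - 1)) ^ m) v) = 0 := by
    intro m v hv
    rw [add_sub_cancel]
    induction m with
    | zero => simpa using hv
    | succ m ih =>
      rw [Function.iterate_succ_apply', pow_succ', Module.End.mul_apply]
      exact hx m _ ih
  have h3 := rec_ker (u - 1) hu _ _ h2 hcl v hv
  rwa [LinearMap.sub_apply, map_sub, Module.End.one_apply, hv, sub_zero] at h3

/-- A field of kernels that is invariant under an ergodic map is constant. -/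
theorem ker_const [FiniteDimensional ℝ W] {f : X → X} (hf : Ergodic f μ) {T : X → W →L[ℝ] E}
    (hT : StronglyMeasurable T) (h : ∀ᵐ x ∂μ, ∀ v, T (f x) v = 0 ↔ T x v = 0) :
    ∀ᵐ x ∂μ, ∀ v, T x v = 0 → ∀ᵐ y ∂μ, T y v = 0 := by
  have := FiniteDimensional.proper_real W
  let K : X → Submodule ℝ W := fun x => LinearMap.ker (T x : W →ₗ[ℝ] E)
  have hK : ∀ x v, v ∈ K x ↔ T x v = 0 := fun x v => Iff.rfl
  have hm : Os.MSub K := by
    refine Os.msub_of_bdd (φ := fun n x v => (n : ℝ) * ‖T x v‖)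
      (fun n v => measurable_const.mul ((ContinuousLinearMap.apply ℝ E v).continuous.comp_stronglyMeasurable
        hT).norm.measurable) (fun n x => continuous_const.mul (T x).continuous.norm) fun x v => ?_
    rw [hK]
    refine ⟨fun h => ⟨0, fun n => by simp [h]⟩, fun ⟨M, hM⟩ => ?_⟩
    by_contra hne
    have hpos := norm_pos_iff.2 hne
    obtain ⟨n, hn⟩ := exists_nat_gt (M / ‖T x v‖)
    rw [div_lt_iff₀ hpos] at hn
    exact absurd (hM n) (not_le.2 hn)
  have h1 : ∀ v, ∃ c, (fun x => Os.qn (K x) v) =ᵐ[μ] Function.const X c := by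
    intro v
    refine hf.ae_eq_const_of_ae_eq_comp_ae (hm v).aestronglyMeasurable ?_
    filter_upwards [h] with x hx
    have : K (f x) = K x := Submodule.ext hx
    simp only [Function.comp_apply, this]
  choose c hc using h1
  have h2 : ∀ᵐ x ∂μ, ∀ j, Os.qn (K x) (TopologicalSpace.denseSeq W j) =
      c (TopologicalSpace.denseSeq W j) := ae_all_iff.2 fun j => hc _
  filter_upwards [h2] with x hx v hv
  filter_upwards [h2] with y hy
  have h3 : Os.qn (K y) = Os.qn (K x) :=
    (TopologicalSpace.denseRange_denseSeq W).equalizer (Os.qn_cont _) (Os.qn_cont _)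
      (funext fun j => (hy j).trans (hx j).symm)
  rw [← hK, ← Os.qn_eq_zero, h3, Os.qn_eq_zero]
  exact hv

end Rec

variable {G X V : Type} [Group G] [TopologicalSpace G] [IsTopologicalGroup G]
  [FirstCountableTopology G] [MeasurableSpace X] [MulAction G X] {μ : Measure X}
  [IsFiniteMeasure μ] [NormedAddCommGroup V] [NormedSpace ℝ V] [FiniteDimensional ℝ V]

/-- Borel density for a field of kernels. -/
theorem ker_invariant (hgen : SR.Gen G) (hmp : ∀ g : G, MeasurePreserving (fun x : X => g • x) μ μ)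
    {n : ℕ} (τ : G →* Matrix (Fin n) (Fin n) ℝ) (hτ : Continuous τ)
    {T : X → (Fin n → ℝ) →L[ℝ] V} (hT : StronglyMeasurable T)
    (h : ∀ g : G, ∀ᵐ x ∂μ, ∀ v, T x v = 0 → T (g • x) (τ g *ᵥ v) = 0) (g : G) :
    ∀ᵐ x ∂μ, ∀ v, T x v = 0 → T x (τ g *ᵥ v) = 0 := by
  let S : Subgroup G :=
    { carrier := {g | ∀ᵐ x ∂μ, ∀ v, T x v = 0 → T x (τ g *ᵥ v) = 0 ∧ T x (τ g⁻¹ *ᵥ v) = 0}
      one_mem' := by
        rw [mem_ofPred_eq]
        exact Eventually.of_forall fun x v hv => by simpa using hv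
      mul_mem' := by
        intro a b ha hb
        rw [mem_ofPred_eq] at ha hb ⊢
        filter_upwards [ha, hb] with x hx hy v hv
        rw [mul_inv_rev, map_mul, map_mul, ← Matrix.mulVec_mulVec, ← Matrix.mulVec_mulVec]
        exact ⟨(hx _ (hy v hv).1).1, (hy _ (hx v hv).2).2⟩
      inv_mem' := by
        intro a ha
        rw [mem_ofPred_eq] at ha ⊢
        filter_upwards [ha] with x hx v hv
        rw [inv_inv]
        exact (hx v hv).symm }
  have hmem : ∀ g, g ∈ S ↔
      ∀ᵐ x ∂μ, ∀ v, T x v = 0 → T x (τ g *ᵥ v) = 0 ∧ T x (τ g⁻¹ *ᵥ v) = 0 := fun g => Iff.rfl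
  have hS : S = ⊤ := by
    refine hgen S (IsSeqClosed.isClosed fun a b ha hab => (hmem b).2 ?_) fun a u hu => (hmem u).2 ?_
    · filter_upwards [ae_all_iff.2 fun j => (hmem _).1 (ha j)] with x hx v hv
      have h1 : Continuous fun g : G => T x (τ g *ᵥ v) :=
        (T x).continuous.comp (hτ.matrix_mulVec continuous_const)
      exact ⟨tendsto_nhds_unique ((h1.tendsto b).comp hab)
          (tendsto_const_nhds.congr fun j => (hx j v hv).1.symm),
        tendsto_nhds_unique ((h1.tendsto b⁻¹).comp hab.inv)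
          (tendsto_const_nhds.congr fun j => (hx j v hv).2.symm)⟩
    · have h1 : ∀ u : G, SR.Contr a u → ∀ᵐ x ∂μ, ∀ v, T x v = 0 → T x (τ u *ᵥ v) = 0 := by
        intro u hu
        have h2 := (unip_of_contr τ hτ hu).map Matrix.toLinAlgEquiv'
        rw [map_sub, map_one] at h2
        exact bd_ker (hmp u) hT (Matrix.toLinAlgEquiv' (τ u)) h2 (h u)
      have h3 : SR.Contr a u⁻¹ := by
        have := Tendsto.inv hu
        simpa [SR.Contr, mul_assoc] using this
      filter_upwards [h1 u hu, h1 u⁻¹ h3] with x hx hy v hv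
      exact ⟨hx v hv, hy v hv⟩
  have hg : g ∈ S := hS ▸ Subgroup.mem_top g
  filter_upwards [(hmem g).1 hg] with x hx v hv
  exact (hx v hv).1

/-- The evaluation map of a family of sections. -/
def evT {n : ℕ} (w : Fin n → X → V) (x : X) : (Fin n → ℝ) →L[ℝ] V :=
  ∑ j, (ContinuousLinearMap.proj j : (Fin n → ℝ) →L[ℝ] ℝ).smulRight (w j x)

theorem evT_apply {n : ℕ} (w : Fin n → X → V) (x : X) (v : Fin n → ℝ) :
    evT w x v = ∑ j, v j • w j x := by
  simp [evT]

theorem sm_evT {n : ℕ} {w : Fin n → X → V} (hw : ∀ j, StronglyMeasurable (w j)) :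
    StronglyMeasurable (evT w) := by
  refine Finset.stronglyMeasurable_fun_sum _ fun j _ => ?_
  exact (ContinuousLinearMap.smulRightL ℝ (Fin n → ℝ) V
    (ContinuousLinearMap.proj j)).continuous.comp_stronglyMeasurable (hw j)

/-- Independent sections that span an invariant space are pointwise independent. -/
theorem inj_ae (hgen : SR.Gen G) (hmp : ∀ g : G, MeasurePreserving (fun x : X => g • x) μ μ)
    {h : G} (he : Ergodic (fun x : X => h • x) μ) (C : G → X → V →ₗ[ℝ] V) {n : ℕ}
    (w : Fin n → X → V) (τ : G →* Matrix (Fin n) (Fin n) ℝ) (hτ : Continuous τ)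
    (hw : ∀ j, StronglyMeasurable (w j))
    (heq : ∀ g j, ∀ᵐ x ∂μ, C g x (w j x) = ∑ i, τ g i j • w i (g • x))
    (hind : ∀ v : Fin n → ℝ, (∀ᵐ x ∂μ, ∑ j, v j • w j x = 0) → v = 0) :
    ∀ᵐ x ∂μ, ∀ v : Fin n → ℝ, ∑ j, v j • w j x = 0 → v = 0 := by
  have h1 : ∀ g : G, ∀ᵐ x ∂μ, ∀ v, evT w x v = 0 → evT w (g • x) (τ g *ᵥ v) = 0 := by
    intro g
    filter_upwards [ae_all_iff.2 (heq g)] with x hx v hv
    have h2 := congrArg (C g x) hv
    rw [evT_apply, map_zero, map_sum] at h2
    rw [evT_apply, ← h2]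
    simp only [map_smul, hx, Finset.smul_sum, Matrix.mulVec, dotProduct, Finset.sum_smul, smul_smul]
    rw [Finset.sum_comm]
    exact Finset.sum_congr rfl fun i _ => Finset.sum_congr rfl fun j _ => by rw [mul_comm]
  have h3 := ker_invariant hgen hmp τ hτ (sm_evT hw) h1
  have h4 : ∀ g : G, ∀ᵐ x ∂μ, ∀ v, evT w x v = 0 → evT w (g • x) v = 0 := by
    intro g
    filter_upwards [h1 g, h3 g⁻¹] with x hx hy v hv
    have := hx _ (hy v hv)
    rwa [Matrix.mulVec_mulVec, ← map_mul, mul_inv_cancel, map_one, Matrix.one_mulVec] at this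
  have h5 := ker_const he (sm_evT hw) (by
    filter_upwards [h4 h, (hmp h).quasiMeasurePreserving.ae (h4 h⁻¹)] with x hx hy v
    exact ⟨fun hv => by simpa using hy v hv, hx v⟩)
  filter_upwards [h5] with x hx v hv
  refine hind v ?_
  filter_upwards [hx v (by rwa [evT_apply])] with y hy
  rwa [evT_apply] at hy

end Pool.Agent.P.MP_d483fb_an.Z.MS

end

end

section

/-!
The algebra of finite continuous sections of the endomorphism bundle of a measurable cocycle.
-/

open scoped Matrix Topology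
open MeasureTheory Filter Set

set_option linter.unusedSectionVars false

noncomputable section

namespace Pool.Agent.P.MP_d483fb_an.Z.MS

/-- Classes of functions modulo null sets. -/
def Gm {X : Type} [MeasurableSpace X] (μ : Measure X) (V : Type) : Type := Germ (ae μ) V

section Gm

variable {X V : Type} [MeasurableSpace X] {μ : Measure X} [Ring V] [Algebra ℝ V]

instance : Ring (Gm μ V) := inferInstanceAs (Ring (Germ (ae μ) V))

instance : Module ℝ (Gm μ V) := inferInstanceAs (Module ℝ (Germ (ae μ) V))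

/-- The class of a function. -/
def cl0 (μ : Measure X) (f : X → V) : Gm μ V := (f : Germ (ae μ) V)

theorem cl0_surj (s : Gm μ V) : ∃ f, cl0 μ f = s := Quotient.exists_rep s

instance : Algebra ℝ (Gm μ V) :=
  Algebra.ofModule
    (fun r s t => by
      obtain ⟨f, rfl⟩ := cl0_surj s
      obtain ⟨g, rfl⟩ := cl0_surj t
      exact congrArg (cl0 μ) (smul_mul_assoc r f g))
    (fun r s t => by
      obtain ⟨f, rfl⟩ := cl0_surj s
      obtain ⟨g, rfl⟩ := cl0_surj t
      exact congrArg (cl0 μ) (mul_smul_comm r f g))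

/-- The class of a function, as a homomorphism. -/
def cl (μ : Measure X) : (X → V) →ₐ[ℝ] Gm μ V :=
  AlgHom.ofLinearMap ⟨⟨cl0 μ, fun _ _ => rfl⟩, fun _ _ => rfl⟩ rfl fun _ _ => rfl

theorem cl_surj (s : Gm μ V) : ∃ f, cl μ f = s := cl0_surj s

theorem cl_eq {f g : X → V} : cl μ f = cl μ g ↔ f =ᵐ[μ] g := Germ.coe_eq

end Gm

/-- A measurable linear cocycle over a measure preserving action. -/
structure Cc (G : Type) {X : Type} (E : Type) [Group G] [MeasurableSpace X] [MulAction G X]
    (μ : Measure X) [NormedAddCommGroup E] [NormedSpace ℝ E] where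
  c : G → X → E →L[ℝ] E
  one : ∀ x, c 1 x = 1
  mul : ∀ g h x, c (g * h) x = c g (h • x) * c h x
  sm : ∀ g, StronglyMeasurable (c g)
  mp : ∀ g : G, MeasurePreserving (fun x : X => g • x) μ μ

namespace Cc

variable {G X E : Type} [Group G] [MeasurableSpace X] [MulAction G X] {μ : Measure X}
  [NormedAddCommGroup E] [NormedSpace ℝ E] (C : Cc G E μ)

theorem inv_mul (g : G) (x : X) : C.c g⁻¹ (g • x) * C.c g x = 1 := by
  rw [← C.mul, inv_mul_cancel, C.one]

theorem mul_inv (g : G) (x : X) : C.c g x * C.c g⁻¹ (g • x) = 1 := by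
  have := C.inv_mul g⁻¹ (g • x)
  rwa [inv_inv, inv_smul_smul] at this

/-- The action on sections of the endomorphism bundle. -/
def act (g : G) : (X → E →L[ℝ] E) →ₐ[ℝ] (X → E →L[ℝ] E) :=
  AlgHom.ofLinearMap
    { toFun := fun f x => C.c g (g⁻¹ • x) * f (g⁻¹ • x) * C.c g⁻¹ x
      map_add' := fun f f' => funext fun x => by simp [mul_add, add_mul]
      map_smul' := fun r f => funext fun x => by simp }
    (funext fun x => by
      have := C.mul_inv g (g⁻¹ • x)
      rw [smul_inv_smul] at this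
      simpa using this)
    fun f f' => funext fun x => by
      have := C.inv_mul g (g⁻¹ • x)
      rw [smul_inv_smul] at this
      simp only [LinearMap.coe_mk, AddHom.coe_mk, Pi.mul_apply, mul_assoc]
      rw [← mul_assoc (C.c g⁻¹ x), this, one_mul]

theorem act_apply (g : G) (f : X → E →L[ℝ] E) (x : X) :
    C.act g f x = C.c g (g⁻¹ • x) * f (g⁻¹ • x) * C.c g⁻¹ x := rfl

theorem act_one (f : X → E →L[ℝ] E) : C.act 1 f = f := funext fun x => by
  simp [act_apply, C.one]

theorem act_mul (g h : G) (f : X → E →L[ℝ] E) : C.act (g * h) f = C.act g (C.act h f) :=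
  funext fun x => by
    simp only [act_apply, mul_inv_rev, C.mul, mul_smul, smul_inv_smul, mul_assoc]

theorem act_smul (g : G) (f : X → E →L[ℝ] E) (x : X) :
    C.act g f (g • x) = C.c g x * f x * C.c g⁻¹ (g • x) := by
  rw [act_apply, inv_smul_smul]

theorem act_congr (g : G) {f f' : X → E →L[ℝ] E} (h : f =ᵐ[μ] f') :
    C.act g f =ᵐ[μ] C.act g f' := by
  filter_upwards [(C.mp g⁻¹).quasiMeasurePreserving.ae h] with x hx
  rw [act_apply, act_apply, hx]

theorem sm_act (g : G) {f : X → E →L[ℝ] E} (h : StronglyMeasurable f) :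
    StronglyMeasurable (C.act g f) :=
  (((C.sm g).comp_measurable (C.mp g⁻¹).measurable).mul
    (h.comp_measurable (C.mp g⁻¹).measurable)).mul (C.sm g⁻¹)

/-- The action on classes of sections. -/
def pi (g : G) : Gm μ (E →L[ℝ] E) →ₐ[ℝ] Gm μ (E →L[ℝ] E) :=
  AlgHom.ofLinearMap
    { toFun := Germ.map' (C.act g) fun _ _ h => C.act_congr g h
      map_add' := fun s t => by
        obtain ⟨f, rfl⟩ := cl_surj s
        obtain ⟨f', rfl⟩ := cl_surj t
        exact congrArg (cl μ) (map_add (C.act g) f f')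
      map_smul' := fun r s => by
        obtain ⟨f, rfl⟩ := cl_surj s
        exact congrArg (cl μ) (map_smul (C.act g) r f) }
    (congrArg (cl μ) (map_one (C.act g)))
    fun s t => by
      obtain ⟨f, rfl⟩ := cl_surj s
      obtain ⟨f', rfl⟩ := cl_surj t
      exact congrArg (cl μ) (map_mul (C.act g) f f')

theorem pi_cl (g : G) (f : X → E →L[ℝ] E) : C.pi g (cl μ f) = cl μ (C.act g f) := rfl

theorem pi_one (s : Gm μ (E →L[ℝ] E)) : C.pi 1 s = s := by
  obtain ⟨f, rfl⟩ := cl_surj s
  rw [pi_cl, act_one]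

theorem pi_mul (g h : G) (s : Gm μ (E →L[ℝ] E)) : C.pi (g * h) s = C.pi g (C.pi h s) := by
  obtain ⟨f, rfl⟩ := cl_surj s
  rw [pi_cl, pi_cl, pi_cl, act_mul]

variable [TopologicalSpace G] [IsTopologicalGroup G]

/-- The orbit of `s` is a finite combination with continuous coefficients. -/
def Fc (s : Gm μ (E →L[ℝ] E)) : Prop :=
  ∃ (ι : Type) (_ : Fintype ι) (w : ι → Gm μ (E →L[ℝ] E)) (α : ι → G → ℝ),
    (∀ i, Continuous (α i)) ∧ ∀ g, C.pi g s = ∑ i, α i g • w i

/-- The algebra of measurable finite continuous sections. -/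
def alg : Subalgebra ℝ (Gm μ (E →L[ℝ] E)) where
  carrier := {s | (∃ f, StronglyMeasurable f ∧ cl μ f = s) ∧ C.Fc s}
  mul_mem' := by
    rintro _ _ ⟨⟨f, hf, rfl⟩, ι, _, w, α, hα, hw⟩ ⟨⟨f', hf', rfl⟩, ι', _, w', α', hα', hw'⟩
    refine ⟨⟨f * f', hf.mul hf', map_mul _ _ _⟩, ι × ι', inferInstance, fun p => w p.1 * w' p.2,
      fun p g => α p.1 g * α' p.2 g, fun p => (hα _).mul (hα' _), fun g => ?_⟩
    rw [map_mul, hw, hw', Finset.sum_mul_sum, Fintype.sum_prod_type]
    simp only [smul_mul_smul_comm]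
  add_mem' := by
    rintro _ _ ⟨⟨f, hf, rfl⟩, ι, _, w, α, hα, hw⟩ ⟨⟨f', hf', rfl⟩, ι', _, w', α', hα', hw'⟩
    refine ⟨⟨f + f', hf.add hf', map_add _ _ _⟩, ι ⊕ ι', inferInstance, Sum.elim w w',
      Sum.elim α α', fun p => p.rec hα hα', fun g => ?_⟩
    rw [map_add, hw, hw', Fintype.sum_sum_type]
    rfl
  algebraMap_mem' r := by
    refine ⟨⟨fun _ => algebraMap ℝ _ r, stronglyMeasurable_const, (cl μ).commutes r⟩, Unit,
      inferInstance, fun _ => algebraMap ℝ _ r, fun _ _ => 1, fun _ => continuous_const,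
      fun g => ?_⟩
    simp

theorem mem_alg {s : Gm μ (E →L[ℝ] E)} :
    s ∈ C.alg ↔ (∃ f, StronglyMeasurable f ∧ cl μ f = s) ∧ C.Fc s := Iff.rfl

theorem pi_mem (h : G) {s : Gm μ (E →L[ℝ] E)} (hs : s ∈ C.alg) : C.pi h s ∈ C.alg := by
  obtain ⟨⟨f, hf, rfl⟩, ι, _, w, α, hα, hw⟩ := hs
  refine ⟨⟨_, C.sm_act h hf, rfl⟩, ι, inferInstance, w, fun i g => α i (g * h),
    fun i => (hα i).comp (continuous_id.mul continuous_const), fun g => ?_⟩
  rw [← pi_mul, hw]

theorem Fc.continuous {s : Gm μ (E →L[ℝ] E)} (hs : C.Fc s) {Y : Type} [NormedAddCommGroup Y]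
    [NormedSpace ℝ Y] (φ : Gm μ (E →L[ℝ] E) →ₗ[ℝ] Y) : Continuous fun g => φ (C.pi g s) := by
  obtain ⟨ι, _, w, α, hα, hw⟩ := hs
  simp only [hw, map_sum, map_smul]
  exact continuous_finsetSum _ fun i _ => (hα i).smul continuous_const

/-- The action on the algebra. -/
def sg : G →* (C.alg ≃ₐ[ℝ] C.alg) where
  toFun g := AlgEquiv.ofAlgHom
    (((C.pi g).comp C.alg.val).codRestrict C.alg fun s => C.pi_mem g s.2)
    (((C.pi g⁻¹).comp C.alg.val).codRestrict C.alg fun s => C.pi_mem g⁻¹ s.2)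
    (AlgHom.ext fun s => Subtype.ext (by
      change C.pi g (C.pi g⁻¹ s) = s
      rw [← pi_mul, mul_inv_cancel, pi_one]))
    (AlgHom.ext fun s => Subtype.ext (by
      change C.pi g⁻¹ (C.pi g s) = s
      rw [← pi_mul, inv_mul_cancel, pi_one]))
  map_one' := AlgEquiv.ext fun s => Subtype.ext (C.pi_one s)
  map_mul' g h := AlgEquiv.ext fun s => Subtype.ext (C.pi_mul g h s)

theorem coe_sg (g : G) (s : C.alg) : (C.sg g s : Gm μ (E →L[ℝ] E)) = C.pi g s := rfl

variable [FirstCountableTopology G] [IsProbabilityMeasure μ] [FiniteDimensional ℝ E]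

/-- A basis of an invariant space of finite continuous sections is pointwise independent. -/
theorem basis_inj (hgen : SR.Gen G) {h : G} (he : Ergodic (fun x : X => h • x) μ)
    (W : Submodule ℝ (Gm μ (E →L[ℝ] E))) (hW : ∀ s ∈ W, s ∈ C.alg)
    (hinv : ∀ g, ∀ s ∈ W, C.pi g s ∈ W) {n : ℕ} (b : Module.Basis (Fin n) ℝ W)
    (f : Fin n → X → E →L[ℝ] E) (hf : ∀ j, StronglyMeasurable (f j))
    (hb : ∀ j, cl μ (f j) = b j) :
    ∀ᵐ x ∂μ, ∀ v : Fin n → ℝ, ∑ j, v j • f j x = 0 → v = 0 := by
  let ρ : G →* Module.End ℝ W :=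
    { toFun := fun g => (C.pi g).toLinearMap.restrict (hinv g)
      map_one' := LinearMap.ext fun s => Subtype.ext (C.pi_one s)
      map_mul' := fun g h => LinearMap.ext fun s => Subtype.ext (C.pi_mul g h s) }
  have hρ : ∀ g (s : W), (ρ g s : Gm μ (E →L[ℝ] E)) = C.pi g s := fun g s => rfl
  let τ : G →* Matrix (Fin n) (Fin n) ℝ := (LinearMap.toMatrixAlgEquiv b).toMonoidHom.comp ρ
  have hτ : ∀ g i j, τ g i j = b.repr (ρ g (b j)) i := fun g i j =>
    LinearMap.toMatrixAlgEquiv_apply b (ρ g) i j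
  have hsum : ∀ v : Fin n → ℝ, cl μ (∑ j, v j • f j) = (∑ j, v j • b j : W) := by
    intro v
    simp [hb]
  refine inj_ae hgen C.mp he (fun g x => LinearMap.mulLeftRight ℝ (C.c g x, C.c g⁻¹ (g • x))) f τ
    (continuous_matrix fun i j => ?_) hf (fun g j => ?_) fun v hv => ?_
  · obtain ⟨φ, hφ⟩ := LinearMap.exists_extend (b.coord i)
    refine (Fc.continuous C (hW _ (b j).2).2 φ).congr fun g => ?_
    rw [hτ, ← hρ]
    exact LinearMap.congr_fun hφ (ρ g (b j))
  · have h1 : cl μ (C.act g (f j)) = cl μ (∑ i, τ g i j • f i) := by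
      rw [← pi_cl, hb, ← hρ, hsum]
      simp only [hτ, b.sum_repr]
    filter_upwards [(C.mp g).quasiMeasurePreserving.ae (cl_eq.1 h1)] with x hx
    rw [act_smul] at hx
    rw [LinearMap.mulLeftRight_apply, hx]
    simp
  · have h1 : cl μ (∑ j, v j • f j) = cl μ 0 := cl_eq.2 (hv.mono fun x hx => by simpa using hx)
    rw [hsum, map_zero, Submodule.coe_eq_zero] at h1
    exact funext (Fintype.linearIndependent_iff.1 b.linearIndependent v h1)

theorem finrank_le (hgen : SR.Gen G) {h : G} (he : Ergodic (fun x : X => h • x) μ)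
    (W : Submodule ℝ (Gm μ (E →L[ℝ] E))) [FiniteDimensional ℝ W] (hW : ∀ s ∈ W, s ∈ C.alg)
    (hinv : ∀ g, ∀ s ∈ W, C.pi g s ∈ W) :
    Module.finrank ℝ W ≤ Module.finrank ℝ (E →L[ℝ] E) := by
  let b := Module.finBasis ℝ W
  choose f hf hb using fun j => (hW _ (b j).2).1
  obtain ⟨x, hx⟩ := (C.basis_inj hgen he W hW hinv b f hf hb).exists
  have : LinearIndependent ℝ fun j => f j x :=
    Fintype.linearIndependent_iff.2 fun v hv => congrFun (hx v hv)
  simpa using this.fintype_card_le_finrank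

theorem finiteDimensional_alg (hgen : SR.Gen G) {h : G} (he : Ergodic (fun x : X => h • x) μ) :
    FiniteDimensional ℝ C.alg := by
  have key : Module.rank ℝ C.alg ≤ Module.finrank ℝ (E →L[ℝ] E) := by
    refine rank_le fun s hs => ?_
    let O : s → Submodule ℝ (Gm μ (E →L[ℝ] E)) := fun a =>
      Submodule.span ℝ (range fun g => C.pi g a.1.1)
    have hfd : ∀ a, FiniteDimensional ℝ (O a) := by
      intro a
      obtain ⟨ι, _, w, α, -, hw⟩ := a.1.2.2
      have := FiniteDimensional.span_of_finite ℝ (finite_range w)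
      refine Submodule.finiteDimensional_of_le (S₂ := Submodule.span ℝ (range w))
        (Submodule.span_le.2 ?_)
      rintro _ ⟨g, rfl⟩
      simp only [hw]
      exact Submodule.sum_mem _ fun i _ => Submodule.smul_mem _ _ (Submodule.subset_span ⟨i, rfl⟩)
    have h1 : (⨆ a, O a) ≤ C.alg.toSubmodule := iSup_le fun a => Submodule.span_le.2 (by
      rintro _ ⟨g, rfl⟩
      exact C.pi_mem g a.1.2)
    have h2 : ∀ g, (⨆ a, O a) ≤ (⨆ a, O a).comap (C.pi g).toLinearMap := fun g =>
      iSup_le fun a => Submodule.span_le.2 (by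
        rintro _ ⟨g', rfl⟩
        exact Submodule.mem_iSup_of_mem a (Submodule.subset_span ⟨g * g', C.pi_mul g g' _⟩))
    have h3 := C.finrank_le hgen he (⨆ a, O a) h1 h2
    have h4 : ∀ a : s, a.1.1 ∈ ⨆ a, O a := fun a =>
      Submodule.mem_iSup_of_mem a (Submodule.subset_span ⟨1, C.pi_one _⟩)
    have h5 : LinearIndependent ℝ fun a : s => (⟨a.1.1, h4 a⟩ : (⨆ a, O a :)) :=
      LinearIndependent.of_comp (⨆ a, O a).subtype
        (hs.map' C.alg.toSubmodule.subtype (Submodule.ker_subtype _))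
    simpa using h5.fintype_card_le_finrank.trans h3
  exact Module.rank_lt_aleph0_iff.1 (key.trans_lt Cardinal.natCast_lt_aleph0)

/-- Evaluation at a generic point embeds the algebra. -/
theorem exists_ev (hgen : SR.Gen G) {h : G} (he : Ergodic (fun x : X => h • x) μ) :
    ∃ ev : C.alg →ₐ[ℝ] (E →L[ℝ] E), Function.Injective ev := by
  have := C.finiteDimensional_alg hgen he
  let b := Module.finBasis ℝ C.alg
  choose f hf hb using fun j => (b j).2.1
  have h1 := C.basis_inj hgen he C.alg.toSubmodule (fun s hs => hs) (fun g s hs => C.pi_mem g hs)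
    b f hf hb
  let ev : X → C.alg →ₗ[ℝ] (E →L[ℝ] E) := fun x => b.constr ℝ fun j => f j x
  have hev : ∀ x s, ev x s = ∑ j, b.repr s j • f j x := fun x s => by
    simp [ev, Module.Basis.constr_apply_fintype]
  have h2 : ∀ (s : C.alg) (p : X → E →L[ℝ] E), cl μ p = s → ∀ᵐ x ∂μ, ev x s = p x := by
    intro s p hp
    have h3 : cl μ (∑ j, b.repr s j • f j) = cl μ p := by
      have h5 := congrArg C.alg.val (b.sum_repr s)
      rw [map_sum] at h5
      rw [hp, map_sum]
      simp only [map_smul, hb] at h5 ⊢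
      exact h5
    filter_upwards [cl_eq.1 h3] with x hx
    rw [hev, ← hx]
    simp
  have h4 : ∀ᵐ x ∂μ, ∀ i j, ev x (b i * b j) = f i x * f j x := ae_all_iff.2 fun i =>
    ae_all_iff.2 fun j => h2 _ (f i * f j) (by rw [map_mul, hb, hb]; rfl)
  obtain ⟨x, hx1, hx2, hx3⟩ := (h1.and (h4.and (h2 1 1 (map_one _)))).exists
  refine ⟨AlgHom.ofLinearMap (ev x) hx3 ?_, ?_⟩
  · rw [LinearMap.map_mul_iff]
    refine b.ext fun i => b.ext fun j => ?_
    simpa [ev] using hx2 i j
  · refine (injective_iff_map_eq_zero _).2 fun s hs => ?_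
    have := hx1 (fun j => b.repr s j) (by rw [← hev]; exact hs)
    exact b.ext_elem fun j => by simpa using congrFun this j

/-- A finite continuous idempotent section is not moved to an orthogonal one. -/
theorem idem_ae_zero {n m : ℕ} (D : ExpData G n) (hv : D.ltV m)
    (hE : Module.finrank ℝ E ≤ m + 1) (hgen : SR.Gen G) {h : G}
    (he : Ergodic (fun x : X => h • x) μ) {p : X → E →L[ℝ] E} (hp : StronglyMeasurable p)
    (hfc : C.Fc (cl μ p)) (hpp : ∀ᵐ x ∂μ, p x * p x = p x) (g : G)
    (h0 : ∀ᵐ x ∂μ, C.act g p x * p x = 0) : ∀ᵐ x ∂μ, p x = 0 := by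
  have := C.finiteDimensional_alg hgen he
  obtain ⟨ev, hev⟩ := C.exists_ev hgen he
  let _ : NormedRing C.alg := NormedRing.induced C.alg (E →L[ℝ] E) ev hev
  let _ : NormedAlgebra ℝ C.alg := NormedAlgebra.induced ℝ C.alg (E →L[ℝ] E) ev
  let _ : Module C.alg E := Module.compHom _ ev.toRingHom
  have hsm : ∀ (a : C.alg) (v : E), a • v = ev a v := fun a v => rfl
  have : IsScalarTower ℝ C.alg E := ⟨fun c a v => by rw [hsm, hsm, map_smul]; rfl⟩
  obtain ⟨φ, hφ⟩ := LinearMap.exists_extend (p := C.alg.toSubmodule) ev.toLinearMap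
  have hc : ∀ a : C.alg, Continuous fun g => C.sg g a := fun a =>
    continuous_induced_rng.2 ((Fc.continuous C a.2.2 φ).congr fun g =>
      LinearMap.congr_fun hφ (C.sg g a))
  let P : C.alg := ⟨cl μ p, ⟨p, hp, rfl⟩, hfc⟩
  have h1 : P * P = P := Subtype.ext (((map_mul (cl μ) p p).symm).trans (cl_eq.2 hpp))
  have h2 : C.sg g P * P = 0 :=
    Subtype.ext (((map_mul (cl μ) (C.act g p) p).symm).trans ((cl_eq.2 h0).trans (map_zero _)))
  have h3 := idem_smul_eq_zero D hv C.sg hc g P h1 h2 (m + 1) E hE le_rfl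
  have h4 : P = 0 := hev (by
    rw [map_zero]
    exact ContinuousLinearMap.ext h3)
  exact cl_eq.1 ((congrArg Subtype.val h4).trans (map_zero (cl μ)).symm)

end Cc

end Pool.Agent.P.MP_d483fb_an.Z.MS

end

end
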