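import Pool.Agent.P.MP_d483fb_an.M.A09
import Pool.Agent.P.MP_d483fb_an.M.A18
import Pool.Agent.P.MP_d483fb_an.M.A23
import Pool.Agent.P.MP_d483fb_an.M.A24
import Pool.Agent.P.MP_d483fb_an.M.A25
import Pool.Agent.P.MP_d483fb_an.M.A27
import Pool.Agent.P.MP_d483fb_an.M.A28

section

/-!
Vanishing of the exponents on an element that is conjugate to its inverse.
-/

open scoped Matrix Topology
open MeasureTheory Filter Set

set_option linter.unusedSectionVars false

noncomputable section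

namespace Pool.Agent.P.MP_d483fb_an.Z.MS

variable {G X E W : Type} [Group G] [MeasurableSpace G] [MeasurableSpace X] [MulAction G X]
  {μ : Measure X} [IsProbabilityMeasure μ] [NormedAddCommGroup E] [NormedSpace ℝ E]
  [FiniteDimensional ℝ E] [SeminormedAddCommGroup W]

/-- Forget the joint measurability. -/
def Co.toCc (C : Co G μ ℝ E) : Cc G E μ := ⟨C.c, C.one, C.mul, C.meas_c, C.mp⟩

/-- The image of an Oseledets projection under a Weyl element is orthogonal to it. -/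
theorem orth_weyl (C : Co G μ ℝ E) (a : W → G) (S : Os.Sys W X μ)
    (hS : ∀ t x, S.act t x = a t • x) {ι : Type} [Fintype ι]
    (o : Os.OseA S (fun t x => C.c (a t) x) ι) (i : ι) (s₀ : W) (w : G)
    (hw : ∀ j : ℕ, w * a (j • s₀) * w⁻¹ = a (j • -s₀)) (hpos : 0 < o.lam i s₀) :
    ∀ᵐ x ∂μ, C.toCc.act w (o.P i) x * o.P i x = 0 := by
  set L := o.lam i s₀ with hL
  have hε : 0 < L / (3 * ‖s₀‖ + 1) := by positivity
  set ε := L / (3 * ‖s₀‖ + 1) with hεd
  have hεL : 3 * (ε * ‖s₀‖) ≤ L := by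
    have h1 : ε * (3 * ‖s₀‖ + 1) = L := div_mul_cancel₀ _ (by positivity)
    nlinarith
  obtain ⟨q, -, -, hq, hest⟩ := o.est ε hε
  filter_upwards [o.ae0, C.ae_smul w⁻¹ o.ae0,
    ae_cluster (S.mp (-s₀)) (C.meas_c w⁻¹).norm] with x hx hy hcl
  refine ContinuousLinearMap.ext fun v => ?_
  set y := w⁻¹ • x with hyd
  set v' := o.P i x v with hv'
  set u := o.P i y (C.c w⁻¹ x v') with hu
  have key : u = 0 := by
    set M := ‖C.c w⁻¹ x‖ + 1 with hM
    have h1 : ∃ᶠ j : ℕ in atTop, ‖C.c w⁻¹ ((S.act (-s₀))^[j] x)‖ < M :=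
      mapClusterPt_iff_frequently.1 hcl _ (Iio_mem_nhds (lt_add_one _))
    have h2 : ∀ j : ℕ, ‖C.c w⁻¹ ((S.act (-s₀))^[j] x)‖ < M →
        ‖u‖ ≤ Real.exp (q y + (q y + o.B) + q x) * M * ‖v'‖ * Real.exp (-(L * j)) := by
      intro j hj
      rw [S.iter, hS] at hj
      have n1 : ‖j • s₀‖ ≤ j * ‖s₀‖ := norm_nsmul_le
      have n2 : ‖j • -s₀‖ ≤ j * ‖s₀‖ := norm_neg s₀ ▸ norm_nsmul_le
      have l1 : o.lam i (j • s₀) = j * L := by rw [map_nsmul, nsmul_eq_mul]
      have l2 : o.lam i (j • -s₀) = -(j * L) := by rw [map_nsmul, map_neg, nsmul_eq_mul, mul_neg]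
      have e1 : a (j • s₀) * w⁻¹ = w⁻¹ * a (j • -s₀) := by rw [← hw]; group
      have e2 : C.c (a (j • s₀)) y (C.c w⁻¹ x v') =
          C.c w⁻¹ (a (j • -s₀) • x) (C.c (a (j • -s₀)) x v') := by
        have := congrArg (fun T : E →L[ℝ] E => T v') ((C.mul _ _ x).symm.trans
          ((congrArg (fun g => C.c g x) e1).trans (C.mul _ _ x)))
        exact this
      have b1 := ((hest y hy i).2 (j • s₀) u (o.P_mem y hy i _)).2
      have b2 := (hest _ (o.inv0 (j • s₀) y hy) i).1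
      have b3 := hq (j • s₀) y hy
      have b4 := ((hest x hx i).2 (j • -s₀) v' (o.P_mem x hx i _)).1
      have b5 : ‖C.c (a (j • s₀)) y u‖ ≤ Real.exp (q y + ε * ‖j • s₀‖ + o.B) *
          (M * (Real.exp (q x + o.lam i (j • -s₀) + ε * ‖j • -s₀‖) * ‖v'‖)) := by
        rw [hu, ← o.P_inv y hy i (j • s₀), e2]
        refine (ContinuousLinearMap.le_opNorm _ _).trans (mul_le_mul
          (b2.trans (Real.exp_le_exp.2 b3)) ?_ (norm_nonneg _) (Real.exp_nonneg _))
        exact (ContinuousLinearMap.le_opNorm _ _).trans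
          (mul_le_mul hj.le b4 (norm_nonneg _) (by positivity))
      refine b1.trans ((mul_le_mul_of_nonneg_left b5 (Real.exp_nonneg _)).trans ?_)
      have e3 : ∀ A B C' : ℝ, Real.exp A * (Real.exp B * (M * (Real.exp C' * ‖v'‖))) =
          Real.exp (A + B + C') * (M * ‖v'‖) := fun A B C' => by
        rw [Real.exp_add, Real.exp_add]
        ring
      have e4 : Real.exp (q y + (q y + o.B) + q x) * M * ‖v'‖ * Real.exp (-(L * j)) =
          Real.exp (q y + (q y + o.B) + q x + -(L * j)) * (M * ‖v'‖) := by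
        rw [Real.exp_add _ (-(L * j))]
        ring
      rw [e3, e4, l1, l2]
      refine mul_le_mul_of_nonneg_right (Real.exp_le_exp.2 ?_) (by positivity)
      have c1 := mul_le_mul_of_nonneg_left n1 hε.le
      have c2 := mul_le_mul_of_nonneg_left n2 hε.le
      have c3 := mul_le_mul_of_nonneg_left hεL (Nat.cast_nonneg (α := ℝ) j)
      nlinarith
    have h3 : Tendsto (fun j : ℕ => Real.exp (q y + (q y + o.B) + q x) * M * ‖v'‖ *
        Real.exp (-(L * j))) atTop (𝓝 0) := by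
      have := (Real.tendsto_exp_neg_atTop_nhds_zero.comp
        (tendsto_natCast_atTop_atTop.const_mul_atTop hpos)).const_mul
        (Real.exp (q y + (q y + o.B) + q x) * M * ‖v'‖)
      simpa using this
    exact norm_le_zero_iff.1 (ge_of_tendsto_of_frequently h3 (h1.mono h2))
  change C.c w y u = 0
  rw [key, map_zero]

variable [TopologicalSpace G] [IsTopologicalGroup G] [FirstCountableTopology G] [MeasurableInv G]
  [MeasurableSMul₂ G X]

/-- An invariant section of the endomorphism bundle is finite and continuous. -/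
theorem fc_of_ms (C : Co G μ ℝ E) (a : W → G) (hMS : SR.MS μ a) {p : X → E →L[ℝ] E}
    (hp : StronglyMeasurable p)
    (hinv : ∀ t, ∀ᵐ x ∂μ, C.c (a t) x * p x = p (a t • x) * C.c (a t) x) :
    C.toCc.Fc (cl μ p) := by
  have hm1 : StronglyMeasurable fun z : G × X => C.c z.1⁻¹ (z.1 • z.2) :=
    C.meas.comp_measurable (g := fun z : G × X => (z.1⁻¹, z.1 • z.2))
      (measurable_fst.inv.prodMk (measurable_fst.smul measurable_snd))
  have hm2 : Continuous fun z : (E →L[ℝ] E) × (E →L[ℝ] E) =>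
      ContinuousLinearMap.mulLeftRight ℝ (E →L[ℝ] E) z.1 z.2 := by fun_prop
  have hm := hm2.comp_stronglyMeasurable (C.meas.prodMk hm1)
  obtain ⟨n, w, τ, b, hτ, -, heq, -, hb⟩ := hMS ℝ (E →L[ℝ] E)
    (fun g x => ContinuousLinearMap.mulLeftRight ℝ (E →L[ℝ] E) (C.c g x) (C.c g⁻¹ (g • x))) hm
    (fun x => ContinuousLinearMap.ext fun T => by simp [C.one])
    (fun g h x => ContinuousLinearMap.ext fun T => by
      simp only [ContinuousLinearMap.mulLeftRight_apply, mul_apply_eq_comp, mul_inv_rev, C.mul,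
        mul_smul, inv_smul_smul, mul_assoc]) p hp
    (fun t => (hinv t).mono fun x hx => by
      rw [ContinuousLinearMap.mulLeftRight_apply, hx, mul_assoc]
      exact (congrArg _ (C.toCc.mul_inv (a t) x)).trans (mul_one _))
  have h1 : ∀ g j, C.toCc.pi g (cl μ (w j)) = ∑ i, τ g i j • cl μ (w i) := by
    intro g j
    have h2 : cl μ (C.toCc.act g (w j)) = cl μ (∑ i, τ g i j • w i) := by
      refine cl_eq.2 ((C.ae_smul_iff g).1 ((heq g j).mono fun x hx => ?_))
      rw [Cc.act_smul]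
      simpa [Co.toCc] using hx
    rw [Cc.pi_cl, h2]
    simp
  have h3 : cl μ p = ∑ j, b j • cl μ (w j) := by
    have h4 : cl μ p = cl μ (∑ j, b j • w j) := cl_eq.2 (hb.mono fun x hx => by simpa using hx)
    rw [h4]
    simp
  refine ⟨Fin n × Fin n, inferInstance, fun z => cl μ (w z.2), fun z g => b z.1 * τ g z.2 z.1,
    fun z => continuous_const.mul (hτ.matrix_elem _ _), fun g => ?_⟩
  rw [h3, map_sum, Fintype.sum_prod_type]
  simp only [map_smul, h1, Finset.smul_sum, smul_smul]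

/-- The exponents vanish on an element whose multiples are conjugate to their inverses. -/
theorem lam_eq_zero {n m : ℕ} (D : ExpData G n) (hv : D.ltV m) (hE : Module.finrank ℝ E ≤ m + 1)
    (hgen : SR.Gen G) {h : G} (he : Ergodic (fun x : X => h • x) μ) (C : Co G μ ℝ E) (a : W → G)
    (hMS : SR.MS μ a) (S : Os.Sys W X μ) (hS : ∀ t x, S.act t x = a t • x) {ι : Type} [Fintype ι]
    (o : Os.OseA S (fun t x => C.c (a t) x) ι) (i : ι) (β : W) (w : G)
    (hw : ∀ j : ℤ, w * a (j • β) * w⁻¹ = a (-(j • β))) : o.lam i β = 0 := by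
  have hfc : C.toCc.Fc (cl μ (o.P i)) := fc_of_ms C a hMS (o.measP i) fun t =>
    o.ae0.mono fun x hx => ContinuousLinearMap.ext fun v => by
      rw [← hS]
      exact (o.P_inv x hx i t v).symm
  have hpp : ∀ᵐ x ∂μ, o.P i x * o.P i x = o.P i x := o.ae0.mono fun x hx =>
    ContinuousLinearMap.ext fun v => o.P_self x hx i _ (o.P_mem x hx i v)
  have key : ∀ s₀ : W, (∀ j : ℕ, w * a (j • s₀) * w⁻¹ = a (j • -s₀)) → o.lam i s₀ ≤ 0 := by
    intro s₀ hs
    by_contra hpos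
    have h1 := C.toCc.idem_ae_zero D hv hE hgen he (o.measP i) hfc hpp w
      (orth_weyl C a S hS o i s₀ w hs (not_le.1 hpos))
    obtain ⟨x, hx, hx0⟩ := (o.ae0.and h1).exists
    have h2 : o.D i x = ⊥ := (Submodule.eq_bot_iff _).2 fun v hv => by
      rw [← o.P_self x hx i v hv, hx0]
      rfl
    have h3 := o.rank x hx i
    rw [h2, finrank_bot] at h3
    exact (o.d_pos i).ne h3
  have h1 := key β fun j => by simpa using hw j
  have h2 := key (-β) fun j => by simpa using hw (-j)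
  rw [map_neg] at h2
  linarith

end Pool.Agent.P.MP_d483fb_an.Z.MS

end

end

section

/-!
Vanishing of all exponents of a cocycle of small dimension over an ergodic action.
-/

open MeasureTheory Filter Set Topology
open scoped Matrix Matrix.Norms.Operator InnerProductSpace RealInnerProductSpace

set_option linter.unusedSectionVars false

noncomputable section

namespace Pool.Agent.P.MP_d483fb_an.Z.MS

variable {G X : Type} [Group G] [TopologicalSpace G] [IsTopologicalGroup G] [PreconnectedSpace G]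
  [LocallyCompactSpace G] [SecondCountableTopology G] [MeasurableSpace G] [BorelSpace G]
  [TopologicalSpace X] [TopologicalSpace.PseudoMetrizableSpace X] [MeasurableSpace X]
  [BorelSpace X] [MulAction G X] [ContinuousSMul G X] {μ : Measure X} [IsProbabilityMeasure μ]
  {n r : ℕ} (D : Std G n r)

theorem exps_zero {E : Type} [NormedAddCommGroup E] [NormedSpace ℝ E] [FiniteDimensional ℝ E]
    (C : Co G μ ℝ E) (h : GErg G μ) (S : Os.Sys (Euc r) X μ) (hS : ∀ t x, S.act t x = D.a t • x)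
    {ι : Type} [Fintype ι] (o : Os.OseA S (fun t x => C.c (D.a t) x) ι)
    (hv : D.ltV (Module.finrank ℝ E - 1)) (i : ι) : o.lam i = 0 := by
  obtain ⟨t, -, he⟩ := ergodic_wall D h 0
  have h1 : ∀ β ∈ D.roots, o.lam i β = 0 := fun β hβ => by
    obtain ⟨w, -, -, hw⟩ := D.exists_weyl hβ
    refine lam_eq_zero D.toExpData hv (by omega) (gen_of_std D) he C D.a (section_lemma D h) S hS
      o i β w fun j => ?_
    rw [hw, ← Int.cast_smul_eq_zsmul ℝ, Std.refl_smul_self]
  have h2 : (o.lamL i : Euc r →ₗ[ℝ] ℝ) = 0 :=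
    LinearMap.ext_on D.span_roots fun β hβ => h1 β hβ
  exact AddMonoidHom.ext fun s => congrArg (fun L : Euc r →ₗ[ℝ] ℝ => L s) h2

end Pool.Agent.P.MP_d483fb_an.Z.MS

end

end

section

/-!
Decay of coefficients along bounded words for groups in standard form.
-/

open scoped Topology ENNReal RealInnerProductSpace
open MeasureTheory Filter Set

noncomputable section

namespace Pool.Agent.P.MP_d483fb_an.Z.TZ

variable {G : Type} [Group G] [TopologicalSpace G] [IsTopologicalGroup G] {n k : ℕ}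

theorem Std.exists_far_ray (D : Std G n k) : ∃ c : ℝ, 0 < c ∧ ∀ r : ℝ, 0 ≤ r →
    ∃ t : Euc k, ‖t‖ ≤ r ∧ D.Far (D.a t) (c * r) := by
  obtain ⟨s, hs⟩ := D.exists_reg
  obtain ⟨e, he, h⟩ : ∃ e : ℝ, 0 < e ∧ ∀ β ∈ D.roots, e ≤ |⟪β, s⟫| := by
    rcases D.roots.eq_empty_or_nonempty with h | h
    · exact ⟨1, one_pos, by simp [h]⟩
    · obtain ⟨β, hβ, h⟩ := D.roots.exists_min_image (fun β => |⟪β, s⟫|) h
      exact ⟨_, abs_pos.2 (hs β hβ), h⟩
  have h0 : 0 < ‖s‖ + 1 := by positivity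
  refine ⟨e / (‖s‖ + 1), by positivity, fun r hr => ⟨(r / (‖s‖ + 1)) • s, ?_, 1, D.K.one_mem, 1,
    D.K.one_mem, _, by rw [one_mul, mul_one], fun γ hγ => ⟨γ, hγ, Relation.ReflTransGen.refl, ?_⟩⟩⟩
  · rw [norm_smul, Real.norm_of_nonneg (by positivity), div_mul_eq_mul_div, div_le_iff₀ h0]
    nlinarith
  · rw [real_inner_smul_right, abs_mul, abs_of_nonneg (by positivity : 0 ≤ r / (‖s‖ + 1))]
    calc e / (‖s‖ + 1) * r = r / (‖s‖ + 1) * e := by ring
      _ ≤ _ := mul_le_mul_of_nonneg_left (h γ hγ) (by positivity)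

variable [LocallyCompactSpace G] [SecondCountableTopology G] [MeasurableSpace G] [BorelSpace G]

theorem Std.dec (D : Std G n k) (Γ : EM.Gauge D.toExpData)
    (hM : ∀ (H : Type) [NormedAddCommGroup H] [InnerProductSpace ℝ H] [CompleteSpace H]
      (π : G →* (H →L[ℝ] H)), (∀ g v, ‖π g v‖ = ‖v‖) → (∀ v, Continuous fun g => π g v) →
      EM.MixH Γ.dd D.Far π) (Z : Set G) : SR.Dec D.a Z := by
  obtain ⟨c, hc, h⟩ := Std.exists_far_ray D
  exact SR.dec_of_mix Γ hc h hM Z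

/-- Decay of coefficients along bounded words. -/
theorem Std.dec0 [PreconnectedSpace G] (D : Std G n k) (Z : Set G) : SR.Dec D.a Z := by
  obtain ⟨Γ⟩ := EM.exists_gauge D.toExpData
  exact Std.dec D Γ (fun _ _ _ _ _ hπ hc => D.mixH Γ hπ hc) Z

end Pool.Agent.P.MP_d483fb_an.Z.TZ

end

end

section

/-!
Property (T) turns the almost invariant kernels into invariant ones.
-/

open MeasureTheory Filter Topology Set
open scoped ENNReal

noncomputable section

namespace Pool.Agent.P.MP_d483fb_an.Z.TZ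

theorem ofReal_norm_sq {X : Type} [MeasurableSpace X] {μ : Measure X} (u : Lp ℝ 2 μ) {g : X → ℝ}
    (h : u =ᵐ[μ] g) : ENNReal.ofReal (‖u‖ ^ 2) = ∫⁻ x, ENNReal.ofReal (g x ^ 2) ∂μ := by
  rw [← real_inner_self_eq_norm_sq, L2.inner_def]
  simp only [real_inner_self_eq_norm_sq, Real.norm_eq_abs, sq_abs]
  rw [ofReal_integral_eq_lintegral_ofReal (Lp.memLp u).integrable_sq
    (Eventually.of_forall fun _ => sq_nonneg _)]
  refine lintegral_congr_ae ?_
  filter_upwards [h] with x hx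
  rw [hx]

/-- Property (T) for the Koopman representation, in terms of functions. -/
theorem HasT.exists_inv {Γ : Type} [Group Γ] (hT : HasT Γ) {ε : ℝ} (hε : 0 < ε) :
    ∃ (S : Finset Γ) (η : ℝ), 0 < η ∧ ∀ (X : Type) [MeasurableSpace X] [MulAction Γ X]
      (μ : Measure X), (∀ g : Γ, MeasurePreserving (fun x : X => g • x) μ μ) →
      ∀ f : X → ℝ, Measurable f → ∫⁻ x, ENNReal.ofReal (f x ^ 2) ∂μ ≠ ∞ →
      (∀ s ∈ S, ∫⁻ x, ENNReal.ofReal ((f (s • x) - f x) ^ 2) ∂μ ≤ ENNReal.ofReal η) →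
      ∃ k : Lp ℝ 2 μ, (∀ g : Γ, ∀ᵐ x ∂μ, k (g • x) = k x) ∧
        ∫⁻ x, ENNReal.ofReal ((k x - f x) ^ 2) ∂μ ≤ ENNReal.ofReal ε := by
  classical
  obtain ⟨S, C, hC, H⟩ := hT
  obtain ⟨t, ht⟩ : ∃ t : ℝ, t = √ε / (C * S.card + 1) := ⟨_, rfl⟩
  have t0 : 0 < t := by rw [ht]; positivity
  refine ⟨S.image fun s => s⁻¹, t ^ 2, by positivity, fun X _ _ μ hμ f hf h2 hs => ?_⟩
  have : MeasurableConstSMul Γ X := ⟨fun g => (hμ g).measurable⟩
  have : SMulInvariantMeasure Γ X μ :=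
    ⟨fun g s hs => (hμ g).measure_preimage hs.nullMeasurableSet⟩
  have hm : MemLp f 2 μ := by
    rw [memLp_two_iff_integrable_sq hf.aestronglyMeasurable]
    refine ⟨(hf.pow_const 2).aestronglyMeasurable, ?_⟩
    rw [hasFiniteIntegral_iff_ofReal (Eventually.of_forall fun _ => sq_nonneg _)]
    exact lt_top_iff_ne_top.mpr h2
  obtain ⟨k, hk, hd⟩ := H _ (EM.koop Γ μ) (EM.koop_norm μ) (hm.toLp f)
  refine ⟨k, fun g => ?_, ?_⟩
  · have := EM.koop_ae μ g⁻¹ k
    rw [hk, inv_inv] at this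
    exact this.symm
  · have e1 : ∀ s ∈ S, ‖EM.koop Γ μ s (hm.toLp f) - hm.toLp f‖ ≤ t := by
      intro s h
      have a1 : (EM.koop Γ μ s (hm.toLp f) - hm.toLp f : Lp ℝ 2 μ) =ᵐ[μ]
          fun x => f (s⁻¹ • x) - f x := by
        filter_upwards [Lp.coeFn_sub (EM.koop Γ μ s (hm.toLp f)) (hm.toLp f),
          EM.koop_ae μ s (hm.toLp f), hm.coeFn_toLp,
          (hμ s⁻¹).quasiMeasurePreserving.ae hm.coeFn_toLp] with x b1 b2 b3 b4
        rw [b1, Pi.sub_apply, b2, b3, b4]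
      have a2 := hs _ (Finset.mem_image_of_mem _ h)
      rw [← ofReal_norm_sq _ a1, ENNReal.ofReal_le_ofReal_iff (by positivity)] at a2
      exact (pow_le_pow_iff_left₀ (norm_nonneg _) t0.le two_ne_zero).mp a2
    have e2 : ‖k - hm.toLp f‖ ≤ √ε := by
      rw [norm_sub_rev]
      refine hd.trans ((mul_le_mul_of_nonneg_left (Finset.sum_le_card_nsmul _ _ t e1) hC).trans ?_)
      rw [nsmul_eq_mul, ← mul_assoc, ht, ← mul_div_assoc, div_le_iff₀ (by positivity)]
      nlinarith [Real.sqrt_nonneg ε]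
    have a1 : (k - hm.toLp f : Lp ℝ 2 μ) =ᵐ[μ] fun x => k x - f x := by
      filter_upwards [Lp.coeFn_sub k (hm.toLp f), hm.coeFn_toLp] with x b1 b2
      rw [b1, Pi.sub_apply, b2]
    rw [← ofReal_norm_sq _ a1]
    refine ENNReal.ofReal_le_ofReal ?_
    rw [← Real.sq_sqrt hε.le]
    exact pow_le_pow_left₀ (norm_nonneg _) e2 2

/-- A bounded Lipschitz measurable embedding into Euclidean space. -/
theorem exists_bdd_emb (V : Type) [NormedAddCommGroup V] [NormedSpace ℝ V] [FiniteDimensional ℝ V]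
    [MeasurableSpace V] [BorelSpace V] : ∃ (N : ℕ) (β : V → EuclideanSpace ℝ (Fin N)) (M : ℝ),
      MeasurableEmbedding β ∧ (∀ v, ‖β v‖ ≤ M) ∧ ∀ u v, ‖β u - β v‖ ≤ M * ‖u - v‖ := by
  let e : V ≃L[ℝ] EuclideanSpace ℝ (Fin (Module.finrank ℝ V)) := toEuclidean
  have lip : LipschitzWith 1 Real.arctan := by
    refine lipschitzWith_of_nnnorm_deriv_le Real.differentiable_arctan fun x => ?_
    rw [Real.deriv_arctan, ← NNReal.coe_le_coe, coe_nnnorm, NNReal.coe_one,
      Real.norm_of_nonneg (by positivity), div_le_one (by positivity)]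
    nlinarith
  have : CompleteSpace V := FiniteDimensional.complete ℝ V
  refine ⟨_, fun v => WithLp.toLp 2 fun i => Real.arctan (e v i),
    √(Module.finrank ℝ V * 2 ^ 2) + ‖e.toContinuousLinearMap‖, ?_, fun v => ?_, fun u v => ?_⟩
  · refine Continuous.measurableEmbedding ?_ fun u v h => e.injective ?_
    · exact (PiLp.continuous_toLp 2 _).comp
        (continuous_pi fun i => Real.continuous_arctan.comp (by fun_prop))
    · ext i
      exact Real.arctan_injective (congrFun (congrArg WithLp.ofLp h) i)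
  · refine le_trans ?_ (le_add_of_nonneg_right (norm_nonneg _))
    rw [EuclideanSpace.norm_eq]
    refine Real.sqrt_le_sqrt ((Finset.sum_le_card_nsmul _ _ ((2 : ℝ) ^ 2) fun i _ => ?_).trans
      (by simp))
    refine pow_le_pow_left₀ (norm_nonneg _) (abs_le.mpr ⟨?_, ?_⟩) 2
    · linarith [Real.neg_pi_div_two_lt_arctan (e v i), Real.pi_le_four]
    · linarith [Real.arctan_lt_pi_div_two (e v i), Real.pi_le_four]
  · have h1 := e.toContinuousLinearMap.le_opNorm (u - v)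
    rw [ContinuousLinearEquiv.coe_coe, map_sub] at h1
    refine le_trans ?_ (h1.trans (mul_le_mul_of_nonneg_right
      (le_add_of_nonneg_left (Real.sqrt_nonneg _)) (norm_nonneg _)))
    rw [EuclideanSpace.norm_eq, EuclideanSpace.norm_eq]
    refine Real.sqrt_le_sqrt (Finset.sum_le_sum fun i _ => pow_le_pow_left₀ (norm_nonneg _) ?_ 2)
    simpa [dist_eq_norm] using lip.dist_le_mul (e u i) (e v i)

variable {Γ Ω E F : Type} [Group Γ] [MulAction Γ Ω] [MeasurableSpace Ω]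
  [NormedAddCommGroup E] [NormedSpace ℝ E] [NormedAddCommGroup F] [NormedSpace ℝ F]
  [MeasurableSpace F] [FiniteDimensional ℝ E] [FiniteDimensional ℝ F] [BorelSpace F]

/-- Invariant kernels near the diagonal: the hypothesis of `outA`. -/
theorem Frm.hker (P : Frm Γ Ω E F) (hT : HasT Γ) {ν : Measure Ω} [IsProbabilityMeasure ν]
    (hν : ∀ g : Γ, MeasurePreserving (fun w : Ω => g • w) ν ν)
    (hemb : MeasurableEmbedding fun w => (P.x w, P.φ w)) :
    ∃ (N : ℕ) (c : Ω → EuclideanSpace ℝ (Fin N)) (M : ℝ), MeasurableEmbedding c ∧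
      (∀ w, ‖c w‖ ≤ M) ∧ ∀ ε : ℝ, 0 < ε → ∃ (k : Lp ℝ 2 (ν.prod ν)) (f : Ω × Ω → ℝ),
        Measurable f ∧ (∀ γ : Γ, ∀ᵐ p ∂ν.prod ν, k (γ • p.1, γ • p.2) = k p) ∧
        (∀ w, ∫⁻ w', ENNReal.ofReal (f (w, w') ^ 2) ∂ν = 1) ∧
        (∫⁻ p, ENNReal.ofReal ((k p - f p) ^ 2) ∂ν.prod ν ≤ ENNReal.ofReal ε) ∧
        ∫⁻ p, ENNReal.ofReal (f p ^ 2 * ‖c p.1 - c p.2‖) ∂ν.prod ν ≤ ENNReal.ofReal ε := by
  obtain ⟨N, β, M, b1, b2, b3⟩ := exists_bdd_emb (F × (E →L[ℝ] F))
  have M0 : 0 ≤ M := (norm_nonneg _).trans (b2 0)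
  refine ⟨N, fun w => β (P.x w, P.φ w), M, b1.comp hemb, fun w => b2 _, fun ε hε => ?_⟩
  obtain ⟨S, η, hη, H⟩ := hT.exists_inv hε
  obtain ⟨t, t0, t1, t2⟩ : ∃ t : ℝ, 0 < t ∧ t ≤ η ∧ t * (3 * M + 1) ≤ ε :=
    ⟨min η (ε / (3 * M + 1)), by positivity, min_le_left _ _,
      (le_div_iff₀ (by positivity)).mp (min_le_right _ _)⟩
  obtain ⟨f, hf, f1, f2, f3⟩ := P.exists_ker hν S t0
  have mf : Measurable fun p => ENNReal.ofReal (f p ^ 2) := (hf.pow_const 2).ennreal_ofReal
  have f0 : ∫⁻ p, ENNReal.ofReal (f p ^ 2) ∂ν.prod ν = 1 := by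
    rw [lintegral_prod _ mf.aemeasurable]
    simp [f1]
  obtain ⟨k, k1, k2⟩ := H (Ω × Ω) (ν.prod ν) (fun g => (hν g).prod (hν g)) f hf
    (by rw [f0]; exact ENNReal.one_ne_top)
    fun s hs => (f2 s hs).trans (ENNReal.ofReal_le_ofReal t1)
  refine ⟨k, f, hf, k1, f1, k2, ?_⟩
  have mS : MeasurableSet {p : Ω × Ω | t < ‖P.x p.2 - P.x p.1‖ + ‖P.φ p.2 - P.φ p.1‖} :=
    measurableSet_lt measurable_const
      (((P.mx.comp measurable_snd).sub (P.mx.comp measurable_fst)).norm.add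
        ((P.mφ.comp measurable_snd).sub (P.mφ.comp measurable_fst)).norm)
  have pt : ∀ p : Ω × Ω,
      ENNReal.ofReal (f p ^ 2 * ‖β (P.x p.1, P.φ p.1) - β (P.x p.2, P.φ p.2)‖) ≤
      ENNReal.ofReal (M * t) * ENNReal.ofReal (f p ^ 2) + ENNReal.ofReal (2 * M) *
        {p : Ω × Ω | t < ‖P.x p.2 - P.x p.1‖ + ‖P.φ p.2 - P.φ p.1‖}.indicator
          (fun p => ENNReal.ofReal (f p ^ 2)) p := by
    intro p
    by_cases hp : p ∈ {p : Ω × Ω | t < ‖P.x p.2 - P.x p.1‖ + ‖P.φ p.2 - P.φ p.1‖}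
    · rw [indicator_of_mem hp, ← ENNReal.ofReal_mul (show 0 ≤ 2 * M by positivity), mul_comm (2 * M)]
      refine le_trans (ENNReal.ofReal_le_ofReal (mul_le_mul_of_nonneg_left ?_ (sq_nonneg _)))
        le_add_self
      linarith [norm_sub_le (β (P.x p.1, P.φ p.1)) (β (P.x p.2, P.φ p.2)), b2 (P.x p.1, P.φ p.1),
        b2 (P.x p.2, P.φ p.2)]
    · rw [← ENNReal.ofReal_mul (show 0 ≤ M * t by positivity), mul_comm (M * t)]
      refine le_trans (ENNReal.ofReal_le_ofReal (mul_le_mul_of_nonneg_left ?_ (sq_nonneg _)))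
        le_self_add
      rw [norm_sub_rev]
      refine (b3 _ _).trans (mul_le_mul_of_nonneg_left ?_ M0)
      rw [mem_ofPred_eq, not_lt] at hp
      rw [Prod.mk_sub_mk, norm_prod_le_iff]
      exact ⟨(le_add_of_nonneg_right (norm_nonneg _)).trans hp,
        (le_add_of_nonneg_left (norm_nonneg _)).trans hp⟩
  refine (lintegral_mono pt).trans ?_
  rw [lintegral_add_left (mf.const_mul _), lintegral_const_mul _ mf,
    lintegral_const_mul _ (mf.indicator mS), lintegral_indicator mS, f0, mul_one]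
  refine (add_le_add_right (mul_le_mul_right f3 _) _).trans ?_
  rw [← ENNReal.ofReal_mul (by positivity), ← ENNReal.ofReal_add (by positivity) (by positivity)]
  exact ENNReal.ofReal_le_ofReal (by nlinarith)

end Pool.Agent.P.MP_d483fb_an.Z.TZ

end

end

section

/-!
Products of orthogonal groups: compactness, small kernels, matrices of finite dimensional invariant
subspaces.
-/

open MeasureTheory Set Filter Topology
open scoped RealInnerProductSpace Matrix

set_option linter.unusedSectionVars false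

noncomputable section

namespace Pool.Agent.P.MP_d483fb_an.Z.TZ.Spec

/-- The orthogonal group. -/
abbrev Orth (n : ℕ) : Type := unitary (Mat n)

instance (n : ℕ) : CompactSpace (Orth n) := by
  refine isCompact_iff_compactSpace.1 (?_ : IsCompact (unitary (Mat n) : Set (Mat n)))
  have h : IsCompact (Set.pi univ fun _ : Fin n => Set.pi univ fun _ : Fin n => Icc (-1 : ℝ) 1) :=
    isCompact_univ_pi fun _ => isCompact_univ_pi fun _ => isCompact_Icc
  refine IsCompact.of_isClosed_subset (X := Mat n) h (isClosed_unitary (R := Mat n))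
    fun U hU i _ j _ => ?_
  have := entry_norm_bound_of_unitary (𝕜 := ℝ) hU i j
  rwa [Real.norm_eq_abs, abs_le] at this

theorem Orth.mul_tr {n : ℕ} (k : Orth n) : (k : Mat n) * (k : Mat n)ᵀ = 1 := by
  have := k.2.2
  rwa [Matrix.star_eq_conjTranspose, Matrix.conjTranspose_eq_transpose_of_trivial] at this

theorem small_ker {ι : Type} {d : ι → ℕ} (K : Subgroup (∀ t, Orth (d t))) {U : Set K}
    (hU : U ∈ 𝓝 (1 : K)) : ∃ (n : ℕ) (ρ : K →* Mat n), Continuous ρ ∧ (∀ k, ρ k * (ρ k)ᵀ = 1) ∧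
      ∀ k, ρ k = 1 → k ∈ U := by
  classical
  obtain ⟨W, hW, hWU⟩ := (mem_nhds_subtype _ _ _).1 hU
  rw [nhds_pi, Filter.mem_pi] at hW
  obtain ⟨I, hI, t, ht, hIW⟩ := hW
  have := hI.fintype
  let e := Fintype.equivFin (Σ i : I, Fin (d i))
  let B : K → ∀ i : I, Mat (d i) := fun k i => (k.1 i : Mat (d i))
  have hB : Continuous B := continuous_pi fun i =>
    continuous_subtype_val.comp ((continuous_apply i.1).comp continuous_subtype_val)
  let ρ : K →* Mat (Fintype.card (Σ i : I, Fin (d i))) :=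
    { toFun := fun k => (Matrix.blockDiagonal' (B k)).submatrix e.symm e.symm
      map_one' := by
        have : B 1 = 1 := rfl
        rw [this, Matrix.blockDiagonal'_one, Matrix.submatrix_one_equiv]
      map_mul' := fun a b => by
        rw [Matrix.submatrix_mul_equiv, ← Matrix.blockDiagonal'_mul]
        rfl }
  have hρ : ∀ k, ρ k = (Matrix.blockDiagonal' (B k)).submatrix e.symm e.symm := fun _ => rfl
  refine ⟨_, ρ, hB.matrix_blockDiagonal'.matrix_submatrix _ _, fun k => ?_, fun k hk => ?_⟩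
  · rw [hρ, Matrix.transpose_submatrix, Matrix.submatrix_mul_equiv,
      Matrix.blockDiagonal'_transpose, ← Matrix.blockDiagonal'_mul]
    have : (fun i : I => B k i * (B k i)ᵀ) = 1 := funext fun i => Orth.mul_tr _
    rw [this, Matrix.blockDiagonal'_one, Matrix.submatrix_one_equiv]
  · refine hWU (hIW fun i hi => ?_)
    have h1 : k.1 i = 1 := by
      refine Subtype.ext (Matrix.ext fun a b => ?_)
      have h2 := congrFun (congrFun hk (e ⟨⟨i, hi⟩, a⟩)) (e ⟨⟨i, hi⟩, b⟩)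
      rw [hρ, Matrix.submatrix_apply, e.symm_apply_apply, e.symm_apply_apply,
        Matrix.blockDiagonal'_apply_eq] at h2
      refine h2.trans ?_
      simp [Matrix.one_apply]
    show k.1 i ∈ t i
    rw [h1]
    exact mem_of_mem_nhds (ht i)

/-- A finite dimensional invariant subspace gives a homomorphism to an orthogonal group, and the
orbit map of a vector is given by a polynomial formula. -/
theorem exists_rep {Γ H : Type} [Group Γ] [NormedAddCommGroup H] [InnerProductSpace ℝ H]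
    (U : Γ → H →L[ℝ] H) (hU : ∀ γ a b, ⟪U γ a, b⟫ = ⟪a, U γ⁻¹ b⟫)
    (hm : ∀ γ δ v, U (γ * δ) v = U γ (U δ v)) (h1 : ∀ v, U 1 v = v) (V : Submodule ℝ H)
    [FiniteDimensional ℝ V] (hV : ∀ γ, ∀ x ∈ V, U γ x ∈ V) {u : H} (hu : u ∈ V) :
    ∃ (n : ℕ) (R : Γ →* Orth n) (e : Fin n → H) (a : Fin n → Orth n → ℝ), (∀ i, Continuous (a i)) ∧
      ∀ γ, ∑ i, a i (R γ) • e i = U γ⁻¹ u := by
  let b := stdOrthonormalBasis ℝ V
  let e : Fin (Module.finrank ℝ V) → H := fun i => (b i : H)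
  have hexp : ∀ x ∈ V, ∑ i, ⟪e i, x⟫ • e i = x := fun x hx => by
    have := congrArg Subtype.val (b.sum_repr' ⟨x, hx⟩)
    rw [Submodule.coe_sum] at this
    exact this
  let R₀ : Γ → Mat (Module.finrank ℝ V) := fun γ => Matrix.of fun i j => ⟪e i, U γ (e j)⟫
  have hmul : ∀ γ δ, R₀ (γ * δ) = R₀ γ * R₀ δ := fun γ δ => by
    ext i j
    rw [Matrix.mul_apply]
    show ⟪e i, U (γ * δ) (e j)⟫ = ∑ l, ⟪e i, U γ (e l)⟫ * ⟪e l, U δ (e j)⟫
    rw [hm]
    conv_lhs => rw [← hexp _ (hV δ _ (b j).2)]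
    rw [map_sum, inner_sum]
    refine Finset.sum_congr rfl fun l _ => ?_
    rw [map_smul, real_inner_smul_right, mul_comm]
  have hone : R₀ 1 = 1 := by
    ext i j
    show ⟪e i, U 1 (e j)⟫ = _
    rw [h1, Matrix.one_apply]
    exact orthonormal_iff_ite.1 b.orthonormal i j
  have htr : ∀ γ, star (R₀ γ) = R₀ γ⁻¹ := fun γ => by
    ext i j
    rw [Matrix.star_apply, star_trivial]
    show ⟪e j, U γ (e i)⟫ = ⟪e i, U γ⁻¹ (e j)⟫
    rw [real_inner_comm, hU]
  have hmem : ∀ γ, R₀ γ ∈ unitary (Mat (Module.finrank ℝ V)) := fun γ =>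
    ⟨by rw [htr, ← hmul, inv_mul_cancel, hone], by rw [htr, ← hmul, mul_inv_cancel, hone]⟩
  let R : Γ →* Orth (Module.finrank ℝ V) :=
    { toFun := fun γ => ⟨R₀ γ, hmem γ⟩
      map_one' := Subtype.ext hone
      map_mul' := fun γ δ => Subtype.ext (hmul γ δ) }
  refine ⟨_, R, e, fun i k => ∑ j, (k : Mat _) j i * ⟪e j, u⟫, fun i => ?_, fun γ => ?_⟩
  · exact continuous_finsetSum _ fun j _ =>
      (continuous_subtype_val.matrix_elem j i).mul continuous_const
  · rw [← hexp _ (hV γ⁻¹ u hu)]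
    refine Finset.sum_congr rfl fun i _ => ?_
    congr 1
    show ∑ j, ⟪e j, U γ (e i)⟫ * ⟪e j, u⟫ = _
    rw [← hU]
    conv_rhs => rw [← hexp u hu]
    rw [inner_sum]
    refine Finset.sum_congr rfl fun j _ => ?_
    rw [real_inner_smul_right, mul_comm, real_inner_comm (e j)]

end Pool.Agent.P.MP_d483fb_an.Z.TZ.Spec

end

end

section

/-!
Invariant kernels near the diagonal give a compact group with dense image of `Γ` and an
equivariant measurable map to the space.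
-/

open MeasureTheory Set Filter Topology
open scoped RealInnerProductSpace Matrix

set_option linter.unusedSectionVars false

noncomputable section

namespace Pool.Agent.P.MP_d483fb_an.Z.TZ

namespace Spec

theorem ae_summable {α : Type} [MeasurableSpace α] {Q : Measure α} {f : ℕ → α → ℝ}
    (hf : ∀ n, Integrable (f n) Q) {C : ℝ} (h : ∀ n, ∫ x, |f n x| ∂Q ≤ C * (1 / 2) ^ n) :
    ∀ᵐ x ∂Q, Summable fun n => |f n x| := by
  have h1 : ∫⁻ x, ∑' n, ‖f n x‖ₑ ∂Q ≠ ⊤ := by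
    rw [lintegral_tsum fun n => (hf n).aestronglyMeasurable.enorm]
    have h2 : ∀ n, ∫⁻ x, ‖f n x‖ₑ ∂Q ≤ ENNReal.ofReal (C * (1 / 2) ^ n) := fun n => by
      rw [← ofReal_integral_norm_eq_lintegral_enorm (hf n)]
      exact ENNReal.ofReal_le_ofReal (h n)
    have h0 : ∀ n, 0 ≤ C * (1 / 2 : ℝ) ^ n := fun n =>
      (integral_nonneg fun x => abs_nonneg _).trans (h n)
    refine ne_top_of_le_ne_top ?_ (ENNReal.tsum_le_tsum h2)
    rw [← ENNReal.ofReal_tsum_of_nonneg h0 (summable_geometric_two.mul_left C)]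
    exact ENNReal.ofReal_ne_top
  have h3 : AEMeasurable (fun x => ∑' n, ‖f n x‖ₑ) Q :=
    AEMeasurable.tsum fun n => (hf n).aestronglyMeasurable.enorm
  filter_upwards [ae_lt_top' h3 h1] with x hx
  exact ENNReal.tsum_coe_ne_top_iff_summable_coe.1 hx.ne

variable {Ω : Type} [MeasurableSpace Ω] {ν : Measure Ω} [IsProbabilityMeasure ν]

theorem sum_ae {ι : Type} (s : Finset ι) (a : ι → ℝ) (e : ι → Lp ℝ 2 ν) :
    (∑ i ∈ s, a i • e i : Lp ℝ 2 ν) =ᵐ[ν] fun w => ∑ i ∈ s, a i * e i w := by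
  classical
  induction s using Finset.induction_on with
  | empty => exact Lp.coeFn_zero ℝ 2 ν
  | insert i s hi ih =>
    rw [Finset.sum_insert hi]
    filter_upwards [Lp.coeFn_add (a i • e i) (∑ i ∈ s, a i • e i), Lp.coeFn_smul (a i) (e i), ih]
      with w h1 h2 h3
    rw [h1, Pi.add_apply, h2, h3, Finset.sum_insert hi, Pi.smul_apply, smul_eq_mul]

theorem int_sub_le (x y : Lp ℝ 2 ν) : ∫ w, |x w - y w| ∂ν ≤ ‖x - y‖ := by
  refine le_trans (le_of_eq (integral_congr_ae ?_)) (integral_abs_le_norm (x - y))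
  filter_upwards [Lp.coeFn_sub x y] with w hw
  rw [hw, Pi.sub_apply]

theorem int_tri {x y z : Ω → ℝ} (hx : Integrable x ν) (hy : Integrable y ν) (hz : Integrable z ν) :
    ∫ w, |x w - z w| ∂ν ≤ ∫ w, |x w - y w| ∂ν + ∫ w, |y w - z w| ∂ν :=
  int_le_add (φ := fun w => |x w - z w|) (a := fun w => |x w - y w|) (b := fun w => |y w - z w|)
    (hx.sub hz).abs (hx.sub hy).abs (hy.sub hz).abs fun w => abs_sub_le _ (y w) _

theorem continuous_int_sub {K : Type} [TopologicalSpace K] {x y : K → Lp ℝ 2 ν} (hx : Continuous x)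
    (hy : Continuous y) : Continuous fun k => ∫ w, |x k w - y k w| ∂ν := by
  have h1 : Continuous fun z : Lp ℝ 2 ν => ∫ w, |z w| ∂ν := by
    refine (LipschitzWith.of_le_add fun a b => ?_).continuous
    rw [dist_eq_norm]
    have h2 := int_tri (integrable_L2 a) (integrable_L2 b) (integrable_zero _ _ _)
    have h3 := int_sub_le a b
    simp only [Pi.zero_apply, sub_zero] at h2
    linarith
  refine (h1.comp (hx.sub hy)).congr fun k => integral_congr_ae ?_
  filter_upwards [Lp.coeFn_sub (x k) (y k)] with w hw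
  rw [Pi.sub_apply, hw, Pi.sub_apply]

variable {Γ : Type} [Group Γ] [MulAction Γ Ω]

/-- From continuous orbit maps to an equivariant measurable map. -/
theorem exists_equivariant [Countable Γ]
    (hν : ∀ γ : Γ, MeasurePreserving (fun w : Ω => γ • w) ν ν)
    {N : ℕ} {c : Ω → EuclideanSpace ℝ (Fin N)} (hc : MeasurableEmbedding c) {M : ℝ}
    (hM : ∀ w, ‖c w‖ ≤ M) {K : Type} [Group K] [TopologicalSpace K] [IsTopologicalGroup K]
    [MeasurableSpace K] [BorelSpace K] (μ : Measure K) [SFinite μ] (j : Γ →* K) (hj : DenseRange j)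
    (Φ : ℕ → Fin N → K → Lp ℝ 2 ν) (hΦ : ∀ n i, Continuous (Φ n i))
    (f : ℕ → Fin N → K × Ω → ℝ) (hf : ∀ n i, Measurable (f n i))
    (hfΦ : ∀ n i k, Φ n i k =ᵐ[ν] fun w => f n i (k, w))
    (h1 : ∀ n i δ, ∫ w, |Φ n i (j δ) w - c (δ • w) i| ∂ν ≤ (1 / 2) ^ n) :
    ∃ π : K → Ω, Measurable π ∧ ∀ γ : Γ, ∀ᵐ k ∂μ, π (j γ * k) = γ • π k := by
  have := nonempty_of_isProbabilityMeasure ν
  have hci : ∀ (δ : Γ) i, Integrable (fun w => c (δ • w) i) ν := fun δ i =>
    Integrable.of_bound ((((PiLp.continuous_apply 2 _ i).measurable.comp hc.measurable).comp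
      (hν δ).measurable).aestronglyMeasurable) M
      (ae_of_all _ fun w => (PiLp.norm_apply_le _ i).trans (hM _))
  have h2 : ∀ n i k, ∫ w, |Φ n i k w - Φ (n + 1) i k w| ∂ν ≤ 2 * (1 / 2) ^ n := fun n i k => by
    refine hj.induction_on k (isClosed_le (continuous_int_sub (hΦ n i) (hΦ (n + 1) i))
      continuous_const) fun δ => ?_
    have a1 := int_tri (integrable_L2 (Φ n i (j δ))) (hci δ i) (integrable_L2 (Φ (n + 1) i (j δ)))
    have a2 := h1 n i δ
    have a3 := h1 (n + 1) i δ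
    simp only [abs_sub_comm (Φ (n + 1) i (j δ) _)] at a3
    have a4 : (1 / 2 : ℝ) ^ (n + 1) ≤ (1 / 2) ^ n :=
      pow_le_pow_of_le_one (by norm_num) (by norm_num) n.le_succ
    linarith
  let G : K × Ω → EuclideanSpace ℝ (Fin N) := fun p =>
    WithLp.toLp 2 fun i => limUnder atTop fun n => f n i p
  have hG : Measurable G := (PiLp.continuous_toLp 2 _).measurable.comp (measurable_pi_lambda _
    fun i => (StronglyMeasurable.limUnder fun n => (hf n i).stronglyMeasurable).measurable)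
  have h3 : ∀ k i, ∀ᵐ w ∂ν, Tendsto (fun n => Φ n i k w) atTop (𝓝 (G (k, w) i)) := fun k i => by
    filter_upwards [ae_summable (f := fun n w => Φ n i k w - Φ (n + 1) i k w)
      (fun n => (integrable_L2 _).sub (integrable_L2 _)) (h2 · i k),
      ae_all_iff.2 fun n => hfΦ n i k] with w a1 a2
    have a3 : CauchySeq fun n => Φ n i k w :=
      cauchySeq_of_summable_dist (by simpa only [Real.dist_eq] using a1)
    simp only [a2] at a3 ⊢
    exact a3.tendsto_limUnder
  have h4 : ∀ k (δ : ℕ → Γ), (∀ n i, ‖Φ n i k - Φ n i (j (δ n))‖ ≤ (1 / 2) ^ n) →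
      ∀ᵐ w ∂ν, Tendsto (fun n => c (δ n • w)) atTop (𝓝 (G (k, w))) := fun k δ hδ => by
    have a1 : ∀ i, ∀ᵐ w ∂ν, Tendsto (fun n => c (δ n • w) i) atTop (𝓝 (G (k, w) i)) := fun i => by
      filter_upwards [h3 k i, ae_summable (f := fun n w => Φ n i k w - c (δ n • w) i) (C := 2)
        (fun n => (integrable_L2 _).sub (hci _ i)) fun n => by
          have b1 := int_tri (integrable_L2 (Φ n i k)) (integrable_L2 (Φ n i (j (δ n)))) (hci (δ n) i)
          have b2 := int_sub_le (Φ n i k) (Φ n i (j (δ n)))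
          have b3 := h1 n i (δ n)
          have b4 := hδ n i
          linarith] with w b1 b2
      have b3 := b1.sub b2.of_abs.tendsto_atTop_zero
      simpa using b3
    filter_upwards [ae_all_iff.2 a1] with w hw
    exact ((PiLp.continuous_toLp 2 _).tendsto _).comp (tendsto_pi_nhds.2 hw)
  have hS : ∀ γ : Γ, Measurable fun y => c (γ • hc.invFun y) := fun γ =>
    (hc.measurable.comp (hν γ).measurable).comp hc.measurable_invFun
  have h5 : ∀ (γ : Γ) k, ∀ᵐ w ∂ν, G (j γ * k, w) = c (γ • hc.invFun (G (k, w))) := fun γ k => by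
    have a1 : ∀ n : ℕ, ∃ δ : Γ, ∀ i, ‖Φ n i k - Φ n i (j δ)‖ ≤ (1 / 2) ^ n ∧
        ‖Φ n i (j γ * k) - Φ n i (j (γ * δ))‖ ≤ (1 / 2) ^ n := fun n => by
      have b1 : ∀ᶠ k' in 𝓝 k, ∀ i, ‖Φ n i k - Φ n i k'‖ ≤ (1 / 2) ^ n ∧
          ‖Φ n i (j γ * k) - Φ n i (j γ * k')‖ ≤ (1 / 2) ^ n := by
        refine eventually_all.2 fun i => Eventually.and ?_ ?_
        · refine ((continuous_const.sub (hΦ n i)).norm.tendsto k).eventually (ge_mem_nhds ?_)
          simp
        · refine ((continuous_const.sub ((hΦ n i).comp (continuous_const.mul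
            continuous_id))).norm.tendsto k).eventually (ge_mem_nhds ?_)
          simp
      obtain ⟨δ, hδ⟩ := hj.mem_nhds b1
      exact ⟨δ, fun i => by rw [map_mul]; exact hδ i⟩
    choose δ hδ using a1
    have m1 : Measurable fun w => (G (k, w), G (j γ * k, w)) :=
      (hG.comp measurable_prodMk_left).prodMk (hG.comp measurable_prodMk_left)
    have m2 : Measurable fun w => (c w, c (γ • w)) :=
      hc.measurable.prodMk (hc.measurable.comp (hν γ).measurable)
    have a2 : ν.map (fun w => (G (k, w), G (j γ * k, w))) = ν.map fun w => (c w, c (γ • w)) := by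
      refine ext_of_forall_integral_eq_of_IsFiniteMeasure fun ψ => ?_
      rw [integral_map m1.aemeasurable ψ.continuous.aestronglyMeasurable,
        integral_map m2.aemeasurable ψ.continuous.aestronglyMeasurable]
      have b1 : Tendsto (fun n => ∫ w, ψ (c (δ n • w), c (γ • δ n • w)) ∂ν) atTop
          (𝓝 (∫ w, ψ (G (k, w), G (j γ * k, w)) ∂ν)) := by
        refine tendsto_integral_of_dominated_convergence (fun _ => ‖ψ‖) (fun n => ?_)
          (integrable_const _) (fun n => ae_of_all _ fun w => ψ.norm_coe_le_norm _) ?_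
        · exact (ψ.continuous.measurable.comp (m2.comp (hν (δ n)).measurable)).aestronglyMeasurable
        · filter_upwards [h4 k δ fun n i => (hδ n i).1,
            h4 (j γ * k) (fun n => γ * δ n) fun n i => (hδ n i).2] with w c1 c2
          simp only [mul_smul] at c2
          exact (ψ.continuous.tendsto _).comp (c1.prodMk_nhds c2)
      have b2 : ∀ n, ∫ w, ψ (c (δ n • w), c (γ • δ n • w)) ∂ν = ∫ w, ψ (c w, c (γ • w)) ∂ν :=
        fun n => (hν (δ n)).integral_comp (emb hν (δ n)) fun w => ψ (c w, c (γ • w))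
      simp only [b2] at b1
      exact tendsto_nhds_unique b1 tendsto_const_nhds
    have a3 : ∀ᵐ p ∂ν.map fun w => (c w, c (γ • w)), p.2 = c (γ • hc.invFun p.1) :=
      (ae_map_iff m2.aemeasurable (measurableSet_eq_fun measurable_snd
        ((hS γ).comp measurable_fst))).2 (ae_of_all _ fun w => by
          show c (γ • w) = c (γ • hc.invFun (c w))
          rw [hc.leftInverse_invFun w])
    rw [← a2] at a3
    exact ae_of_ae_map m1.aemeasurable a3
  have h6 : ∀ γ : Γ, ∀ᵐ w ∂ν, ∀ᵐ k ∂μ, G (j γ * k, w) = c (γ • hc.invFun (G (k, w))) := fun γ =>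
    (Measure.ae_ae_comm (p := fun k w => G (j γ * k, w) = c (γ • hc.invFun (G (k, w))))
      (measurableSet_eq_fun (hG.comp (((measurable_const_mul (j γ)).comp
      measurable_fst).prodMk measurable_snd)) ((hS γ).comp hG))).1 (ae_of_all _ (h5 γ))
  obtain ⟨w, hw⟩ := (ae_all_iff.2 h6).exists
  refine ⟨fun k => hc.invFun (G (k, w)), hc.measurable_invFun.comp (hG.comp measurable_prodMk_right),
    fun γ => ?_⟩
  filter_upwards [hw γ] with k hk
  rw [hk, hc.leftInverse_invFun]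

end Spec

open Spec in
/-- Invariant kernels near the diagonal give a compact group with dense image of `Γ` and an
equivariant measurable map to `Ω`. -/
theorem outA {Γ Ω : Type} [Group Γ] [Countable Γ] [MeasurableSpace Ω] [MulAction Γ Ω]
    {ν : Measure Ω} [IsProbabilityMeasure ν]
    (hν : ∀ γ : Γ, MeasurePreserving (fun w : Ω => γ • w) ν ν)
    {N : ℕ} {c : Ω → EuclideanSpace ℝ (Fin N)} (hc : MeasurableEmbedding c) {M : ℝ}
    (hM : ∀ w, ‖c w‖ ≤ M)
    (hker : ∀ ε : ℝ, 0 < ε → ∃ (k : Lp ℝ 2 (ν.prod ν)) (f : Ω × Ω → ℝ), Measurable f ∧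
      (∀ γ : Γ, ∀ᵐ p ∂ν.prod ν, k (γ • p.1, γ • p.2) = k p) ∧
      (∀ w, ∫⁻ w', ENNReal.ofReal (f (w, w') ^ 2) ∂ν = 1) ∧
      (∫⁻ p, ENNReal.ofReal ((k p - f p) ^ 2) ∂ν.prod ν ≤ ENNReal.ofReal ε) ∧
      ∫⁻ p, ENNReal.ofReal (f p ^ 2 * ‖c p.1 - c p.2‖) ∂ν.prod ν ≤ ENNReal.ofReal ε) :
    ∃ (K : Type) (_ : Group K) (_ : TopologicalSpace K) (_ : IsTopologicalGroup K)
      (_ : CompactSpace K) (_ : T2Space K) (_ : SecondCountableTopology K) (_ : MeasurableSpace K)
      (_ : BorelSpace K) (μ : Measure K) (_ : μ.IsHaarMeasure) (_ : IsProbabilityMeasure μ)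
      (j : Γ →* K) (π : K → Ω), DenseRange j ∧ Measurable π ∧
      (∀ γ : Γ, ∀ᵐ k ∂μ, π (j γ * k) = γ • π k) ∧
      ∀ U ∈ 𝓝 (1 : K), ∃ (n : ℕ) (ρ : K →* Mat n), Continuous ρ ∧ (∀ k, ρ k * (ρ k)ᵀ = 1) ∧
        ∀ k, ρ k = 1 → k ∈ U := by
  obtain ⟨w₀⟩ := nonempty_of_isProbabilityMeasure ν
  have hM0 : 0 ≤ M := (norm_nonneg _).trans (hM w₀)
  have hcm : ∀ i, Measurable fun w => c w i := fun i =>
    (PiLp.continuous_apply 2 _ i).measurable.comp hc.measurable
  have h1 : ∀ t : ℕ × Fin N, ∃ (n : ℕ) (R : Γ →* Orth n) (e : Fin n → Lp ℝ 2 ν)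
      (a : Fin n → Orth n → ℝ), (∀ i, Continuous (a i)) ∧ ∀ δ : Γ,
        ∫ w, |(∑ i, a i (R δ) • e i : Lp ℝ 2 ν) w - c (δ • w) t.2| ∂ν ≤ (1 / 2) ^ t.1 := by
    intro t
    have hp : (0 : ℝ) < (1 / 2) ^ t.1 := by positivity
    have hp1 : (1 / 2 : ℝ) ^ t.1 ≤ 1 := pow_le_one₀ (by norm_num) (by norm_num)
    obtain ⟨η, hη, hη1, hη2⟩ : ∃ η : ℝ, 0 < η ∧ η ≤ 1 ∧ η * (4 * M + 2) = (1 / 2) ^ t.1 :=
      ⟨(1 / 2) ^ t.1 / (4 * M + 2), by positivity, by
        rw [div_le_one (by positivity)]; linarith, by field_simp⟩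
    obtain ⟨k, f, hf, hk, hrow, b1, b2⟩ := hker (η ^ 2) (by positivity)
    obtain ⟨V, hV, hVi, u, hu, hd⟩ := approx_of_kernel hν (hcm t.2) (M := M)
      (fun w => (PiLp.norm_apply_le (c w) t.2).trans (hM w)) hf hk hrow hη b1
      (le_trans (lintegral_mono fun p => ENNReal.ofReal_le_ofReal (mul_le_mul_of_nonneg_left
        (PiLp.norm_apply_le (c p.1 - c p.2) t.2) (sq_nonneg _))) b2)
    obtain ⟨n, R, e, a, ha, hR⟩ := exists_rep (koop hν) (koop_inner hν) (koop_mul hν) (koop_one hν)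
      V hVi hu
    refine ⟨n, R, e, a, ha, fun δ => ?_⟩
    have e1 : ∫ w, |(∑ i, a i (R δ) • e i : Lp ℝ 2 ν) w - c (δ • w) t.2| ∂ν =
        ∫ w, |u w - c w t.2| ∂ν := by
      rw [hR, ← (hν δ).integral_comp (emb hν δ) fun w => |u w - c w t.2|]
      refine integral_congr_ae ?_
      filter_upwards [koop_ae hν δ⁻¹ u] with w hw
      rw [hw, inv_inv]
    rw [e1, ← hη2]
    have : η ^ 2 ≤ η := by nlinarith
    nlinarith [mul_le_mul_of_nonneg_left this hM0]
  choose d R e a ha hR using h1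
  let j₀ : Γ →* ∀ t, Orth (d t) := MonoidHom.pi R
  let K : Subgroup (∀ t, Orth (d t)) := j₀.range.topologicalClosure
  have hK : CompactSpace K :=
    isCompact_iff_compactSpace.1 j₀.range.isClosed_topologicalClosure.isCompact
  have : ∀ n, SecondCountableTopology (Mat n) := fun n =>
    inferInstanceAs (SecondCountableTopology (Fin n → Fin n → ℝ))
  have : ∀ n, SecondCountableTopology (Orth n) := fun n =>
    TopologicalSpace.Subtype.secondCountableTopology (unitary (Mat n) : Set (Mat n))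
  have hsc : SecondCountableTopology K :=
    TopologicalSpace.Subtype.secondCountableTopology (K : Set (∀ t, Orth (d t)))
  borelize ↥K
  let μ : Measure K := Measure.haarMeasure ⊤
  have hμ : IsProbabilityMeasure μ := ⟨by
    have := Measure.haarMeasure_self (G := K) (K₀ := ⊤)
    simpa using this⟩
  let j : Γ →* K := j₀.codRestrict K fun γ => j₀.range.le_topologicalClosure ⟨γ, rfl⟩
  have hj : DenseRange j := by
    refine Subtype.dense_iff.2 ?_
    refine closure_mono ?_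
    rintro _ ⟨γ, rfl⟩
    exact ⟨j γ, ⟨γ, rfl⟩, rfl⟩
  have hev : ∀ t l, Continuous fun k : K => a t l (k.1 t) := fun t l =>
    (ha t l).comp ((continuous_apply t).comp continuous_subtype_val)
  obtain ⟨π, hπ, heq⟩ := exists_equivariant hν hc hM μ j hj
    (fun n i k => ∑ l, a (n, i) l (k.1 (n, i)) • e (n, i) l)
    (fun n i => continuous_finsetSum _ fun l _ => (hev (n, i) l).smul continuous_const)
    (fun n i p => ∑ l, a (n, i) l (p.1.1 (n, i)) * e (n, i) l p.2)
    (fun n i => Finset.measurable_sum _ fun l _ => ((hev (n, i) l).measurable.comp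
      measurable_fst).mul ((Lp.stronglyMeasurable _).measurable.comp measurable_snd))
    (fun n i k => sum_ae _ _ _) fun n i δ => hR (n, i) δ
  exact ⟨K, inferInstance, inferInstance, inferInstance, hK, inferInstance, hsc, inferInstance,
    inferInstance, μ, inferInstance, hμ, j, π, hj, hπ, heq, fun U hU => small_ker K hU⟩

end Pool.Agent.P.MP_d483fb_an.Z.TZ

end

end

section

/-!
Discrete spectrum for an invariant probability on a frame bundle.
-/

open MeasureTheory Filter Topology Set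
open scoped Matrix

namespace Pool.Agent.P.MP_d483fb_an.Z.TZ

theorem Frm.outA {Γ Ω E F : Type} [Group Γ] [Countable Γ] [MulAction Γ Ω] [MeasurableSpace Ω]
    [NormedAddCommGroup E] [NormedSpace ℝ E] [NormedAddCommGroup F] [NormedSpace ℝ F]
    [MeasurableSpace F] [FiniteDimensional ℝ E] [FiniteDimensional ℝ F] [BorelSpace F]
    (P : Frm Γ Ω E F) (hT : HasT Γ) {ν : Measure Ω} [IsProbabilityMeasure ν]
    (hν : ∀ g : Γ, MeasurePreserving (fun w : Ω => g • w) ν ν)
    (hemb : MeasurableEmbedding fun w => (P.x w, P.φ w)) :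
    ∃ (K : Type) (_ : Group K) (_ : TopologicalSpace K) (_ : IsTopologicalGroup K)
      (_ : CompactSpace K) (_ : T2Space K) (_ : SecondCountableTopology K) (_ : MeasurableSpace K)
      (_ : BorelSpace K) (μ : Measure K) (_ : μ.IsHaarMeasure) (_ : IsProbabilityMeasure μ)
      (j : Γ →* K) (π : K → Ω), DenseRange j ∧ Measurable π ∧
      (∀ γ : Γ, ∀ᵐ k ∂μ, π (j γ * k) = γ • π k) ∧
      ∀ U ∈ 𝓝 (1 : K), ∃ (n : ℕ) (ρ : K →* Mat n), Continuous ρ ∧ (∀ k, ρ k * (ρ k)ᵀ = 1) ∧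
        ∀ k, ρ k = 1 → k ∈ U := by
  obtain ⟨N, c, M, h1, h2, h3⟩ := P.hker hT hν hemb
  exact TZ.outA hν h1 h2 h3

end Pool.Agent.P.MP_d483fb_an.Z.TZ


end

section

/-!
An equivariant map from a compact group that is invariant under an open subgroup gives a fixed
point of a finite index subgroup, with a uniform pointwise Lipschitz constant.
-/

open scoped Topology ENNReal
open Filter Set MeasureTheory

namespace Pool.Agent.P.MP_d483fb_an.Z.TZ

variable {Γ K E F : Type*} [Group Γ] [Group K] [TopologicalSpace K] [IsTopologicalGroup K]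
  [CompactSpace K] [SecondCountableTopology K] [MeasurableSpace K] [BorelSpace K]
  [NormedAddCommGroup E] [NormedSpace ℝ E] [NormedAddCommGroup F] [NormedSpace ℝ F]
  [SecondCountableTopology F] [MeasurableSpace F] [BorelSpace F]

omit [CompactSpace K] [NormedSpace ℝ F] in
theorem exists_const_coset (μ : Measure K) [μ.IsHaarMeasure] [IsProbabilityMeasure μ] {x : K → F}
    (hx : Measurable x) {M : Set F} (hM : ∀ᵐ k ∂μ, x k ∈ M) (K0 : Subgroup K)
    (hK0 : IsOpen (K0 : Set K)) (hinv : ∀ h ∈ K0, (fun k => x (k * h)) =ᵐ[μ] x) :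
    ∃ k0 : K, ∃ p ∈ M, ∀ᵐ k ∂μ, k0⁻¹ * k ∈ K0 → x k = p := by
  have h1 : ∀ᵐ k ∂μ, ∀ᵐ h ∂μ, h ∈ K0 → x (k * h) = x k := by
    rw [Measure.ae_ae_comm]
    · refine Eventually.of_forall fun h => ?_
      by_cases hh : h ∈ K0
      · filter_upwards [hinv h hh] with k hk _ using hk
      · exact Eventually.of_forall fun k hk => absurd hk hh
    · exact (measurable_snd hK0.measurableSet).imp
        (measurableSet_eq_fun (hx.comp (measurable_fst.mul measurable_snd))
          (hx.comp measurable_fst))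
  obtain ⟨k0, h2, h3⟩ := (h1.and hM).exists
  refine ⟨k0, x k0, h3, ?_⟩
  filter_upwards [(measurePreserving_mul_left μ k0⁻¹).quasiMeasurePreserving.ae h2] with k hk hk'
  simpa using hk hk'

theorem tail (μ : Measure K) [μ.IsHaarMeasure] [IsProbabilityMeasure μ] (j : Γ →* K) {M : Set F}
    (act : Γ → F → F) {x : K → F} {A : K → F →L[ℝ] E} (hx : Measurable x) (hA : Measurable A)
    (hM : ∀ᵐ k ∂μ, x k ∈ M) (heq : ∀ g, ∀ᵐ k ∂μ, x (j g * k) = act g (x k))
    (hlin : ∀ g, ∀ᵐ k ∂μ, ∀ θ : ℝ, 0 < θ → ∃ r : ℝ, 0 < r ∧ ∀ y ∈ M, ‖y - x k‖ ≤ r →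
      ‖A (j g * k) (act g y - act g (x k)) - A k (y - x k)‖ ≤ θ * ‖y - x k‖)
    (hinj : ∀ᵐ k ∂μ, ∃ r : ℝ, 0 < r ∧ ∃ c : ℝ, ∀ y ∈ M, ‖y - x k‖ ≤ r →
      ‖y - x k‖ ≤ c * ‖A k (y - x k)‖)
    (hmap : ∀ g, MapsTo (act g) M M) (hcont : ∀ g, ContinuousOn (act g) M)
    (K0 : Subgroup K) (hK0 : IsOpen (K0 : Set K))
    (hinv : ∀ h ∈ K0, (fun k => x (k * h)) =ᵐ[μ] x) :
    ∃ Γ₁ : Subgroup Γ, Γ₁.FiniteIndex ∧ ∃ p ∈ M, (∀ g ∈ Γ₁, act g p = p) ∧
      ∃ C : ℝ, ∀ g ∈ Γ₁, ∀ᶠ y in 𝓝[M] p, ‖act g y - p‖ ≤ C * ‖y - p‖ := by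
  obtain ⟨k0, p, hp, hc⟩ := exists_const_coset μ hx hM K0 hK0 hinv
  have : Finite (K ⧸ K0) := K0.quotient_finite_of_isOpen hK0
  have : K0.FiniteIndex := Subgroup.finiteIndex_of_finite_quotient
  set V : Set K := {k | k0⁻¹ * k ∈ K0} with hV
  have hVo : IsOpen V := hK0.preimage (continuous_const.mul continuous_id)
  have hV0 : μ V ≠ 0 := hVo.measure_ne_zero μ ⟨k0, by simp [hV, K0.one_mem]⟩
  let P : ℕ → Set (F →L[ℝ] E) := fun R => {T | ‖T‖ ≤ R} ∩
    ⋃ n : ℕ, ⋂ y ∈ {y ∈ M | ‖y - p‖ ≤ 1 / (n + 1 : ℝ)}, {T | ‖y - p‖ ≤ R * ‖T (y - p)‖}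
  have hPm : ∀ R, MeasurableSet (P R) := fun R =>
    (isClosed_le continuous_norm continuous_const).measurableSet.inter
      (MeasurableSet.iUnion fun n => (isClosed_biInter fun y _ =>
        isClosed_le continuous_const (by fun_prop)).measurableSet)
  have hPmono : Monotone P := by
    intro R R' hR T hT
    have hR' : (R : ℝ) ≤ R' := by exact_mod_cast hR
    obtain ⟨h1, h2⟩ := hT
    obtain ⟨n, hn⟩ := mem_iUnion.1 h2
    refine ⟨le_trans h1 hR', mem_iUnion.2 ⟨n, mem_iInter₂.2 fun y hy => ?_⟩⟩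
    exact le_trans (mem_iInter₂.1 hn y hy) (mul_le_mul_of_nonneg_right hR' (norm_nonneg _))
  let B : ℕ → Set K := fun R => V \ A ⁻¹' P R
  have hBm : ∀ R, MeasurableSet (B R) := fun R => hVo.measurableSet.diff (hA (hPm R))
  have hB0 : μ (⋂ R, B R) = 0 := by
    rw [measure_eq_zero_iff_ae_notMem]
    filter_upwards [hc, hinj] with k h1 ⟨r, hr, c, h2⟩ hk
    rw [mem_iInter] at hk
    rw [h1 (hk 0).1] at h2
    obtain ⟨R, hR⟩ := exists_nat_ge (max ‖A k‖ c)
    obtain ⟨n, hn⟩ := exists_nat_one_div_lt hr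
    refine (hk R).2 ⟨(le_max_left _ _).trans hR, mem_iUnion.2 ⟨n, mem_iInter₂.2 fun y hy => ?_⟩⟩
    exact (h2 y hy.1 (hy.2.trans hn.le)).trans
      (mul_le_mul_of_nonneg_right ((le_max_right _ _).trans hR) (norm_nonneg _))
  have hlim := tendsto_measure_iInter_atTop (μ := μ) (fun R => (hBm R).nullMeasurableSet)
    (fun R R' hR => sdiff_subset_sdiff_right (preimage_mono (hPmono hR))) ⟨0, measure_ne_top _ _⟩
  rw [hB0] at hlim
  obtain ⟨R, hR⟩ := (hlim.eventually (gt_mem_nhds (ENNReal.half_pos hV0))).exists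
  let Γ₁ : Subgroup Γ := K0.comap ((MulAut.conj k0⁻¹).toMonoidHom.comp j)
  have hΓ : ∀ g ∈ Γ₁, ∀ k ∈ V, j g * k ∈ V := by
    intro g hg k hk
    have h1 : k0⁻¹ * j g * k0⁻¹⁻¹ ∈ K0 := hg
    simpa [hV, mul_assoc] using K0.mul_mem h1 hk
  have key : ∀ g ∈ Γ₁, ∀ Q : K → Prop, (∀ᵐ k ∂μ, Q k) →
      ∃ k ∈ V, A k ∈ P R ∧ A (j g * k) ∈ P R ∧ Q k := by
    intro g hg Q hQ
    by_contra hne
    push Not at hne
    have h1 : V ≤ᵐ[μ] (B R ∪ (fun k => j g * k) ⁻¹' B R : Set K) := by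
      filter_upwards [hQ] with k hk hkV
      by_cases h2 : A k ∈ P R
      · exact Or.inr ⟨hΓ g hg k hkV, fun h3 => hne k hkV h2 h3 hk⟩
      · exact Or.inl ⟨hkV, h2⟩
    have h2 := (measure_mono_ae h1).trans (measure_union_le _ _)
    rw [measure_preimage_mul] at h2
    have h3 := ENNReal.add_lt_add hR hR
    rw [ENNReal.add_halves] at h3
    exact absurd h2 (not_le.2 h3)
  have hc' : ∀ g, ∀ᵐ k ∂μ, j g * k ∈ V → x (j g * k) = p := fun g =>
    (measurePreserving_mul_left μ (j g)).quasiMeasurePreserving.ae hc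
  have hfix : ∀ g ∈ Γ₁, act g p = p := by
    intro g hg
    obtain ⟨k, hk, -, -, h1, h2, h3⟩ := key g hg _ (hc.and ((hc' g).and (heq g)))
    rw [← h1 hk, ← h3, h2 (hΓ g hg k hk), h1 hk]
  refine ⟨Γ₁, ⟨?_⟩, p, hp, hfix, R * (R + 1), fun g hg => ?_⟩
  · rw [Subgroup.index_comap]
    exact Subgroup.FiniteIndex.index_ne_zero
  · obtain ⟨k, hk, ⟨a1, -⟩, ⟨-, a2⟩, h1, h2⟩ := key g hg _ (hc.and (hlin g))
    obtain ⟨r, hr, h3⟩ := h2 1 one_pos
    rw [h1 hk, hfix g hg] at h3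
    obtain ⟨n, hn⟩ := mem_iUnion.1 a2
    have h4 : ∀ s : ℝ, 0 < s → ∀ᶠ y in 𝓝 p, ‖y - p‖ ≤ s := fun s hs => by
      filter_upwards [Metric.closedBall_mem_nhds p hs] with y hy
      rwa [mem_closedBall_iff_norm] at hy
    have h5 : Tendsto (act g) (𝓝[M] p) (𝓝 p) := by
      have := hcont g p hp
      rwa [ContinuousWithinAt, hfix g hg] at this
    filter_upwards [self_mem_nhdsWithin, nhdsWithin_le_nhds (h4 r hr),
      h5.eventually (h4 (1 / (n + 1 : ℝ)) (by positivity))] with y b1 b2 b3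
    have b4 : ‖act g y - p‖ ≤ R * ‖A (j g * k) (act g y - p)‖ :=
      mem_iInter₂.1 hn (act g y) ⟨hmap g b1, b3⟩
    have b5 := h3 y b1 b2
    have b6 : ‖A k (y - p)‖ ≤ R * ‖y - p‖ := (A k).le_of_opNorm_le a1 _
    have b7 := norm_sub_norm_le (A (j g * k) (act g y - p)) (A k (y - p))
    refine b4.trans ?_
    rw [mul_assoc]
    exact mul_le_mul_of_nonneg_left (by linarith) (Nat.cast_nonneg _)

end Pool.Agent.P.MP_d483fb_an.Z.TZ


end

section

/-!
An invariant probability measure on the frame bundle forces the action to be finite.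
-/

open MeasureTheory Filter Topology Set
open scoped Manifold ContDiff

noncomputable section

namespace Pool.Agent.P.MP_d483fb_an.Z.TZ

open NF

/-- A fixed point of a subgroup of finite index with bounded derivatives. -/
theorem Frm.fixed {Γ Ω E F M : Type} [Group Γ] [MulAction Γ Ω] [MeasurableSpace Ω]
    [NormedAddCommGroup E] [InnerProductSpace ℝ E] [NormedAddCommGroup F] [InnerProductSpace ℝ F]
    [MeasurableSpace F] [FiniteDimensional ℝ E] [FiniteDimensional ℝ F] [BorelSpace F]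
    (P : Frm Γ Ω E F) (hT : HasT Γ) {m : ℕ} (hS : SR.SRd (⊤ : Subgroup Γ) m)
    (hm : Module.finrank ℝ E ≤ m) {ν : Measure Ω} [IsProbabilityMeasure ν]
    (hν : ∀ g : Γ, MeasurePreserving (fun w : Ω => g • w) ν ν)
    (hemb : MeasurableEmbedding fun w => (P.x w, P.φ w)) [TopologicalSpace M]
    (α : Γ →* Equiv.Perm M) (hα : ∀ g, Continuous (α g)) {ι : M → F} (hι : IsEmbedding ι)
    {pt : Ω → M} (hpt : Function.Surjective pt) (hx : ∀ w, P.x w = ι (pt w))
    (hs : ∀ (g : Γ) w, pt (g • w) = α g (pt w)) :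
    ∃ Γ₁ : Subgroup Γ, Γ₁.FiniteIndex ∧ ∃ p : M, (∀ g ∈ Γ₁, α g p = p) ∧
      ∃ C : ℝ, ∀ g ∈ Γ₁, ∀ᶠ y in 𝓝 p, ‖ι (α g y) - ι p‖ ≤ C * ‖ι y - ι p‖ := by
  have := hT.countable
  obtain ⟨K, _, _, _, _, _, _, _, _, μ, _, _, j, π, hj, hπ, he, hA⟩ := P.outA hT hν hemb
  let act : Γ → F → F := fun g => Function.extend ι (fun y => ι (α g y)) id
  have ha : ∀ g y, act g (ι y) = ι (α g y) := fun g y => hι.injective.extend_apply _ _ y
  have ha' : ∀ (g : Γ) w, act g (P.x w) = P.x (g • w) := fun g w => by rw [hx, hx, ha, hs]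
  have hr : ∀ y ∈ range ι, ∃ w, P.x w = y := by
    rintro _ ⟨p, rfl⟩
    obtain ⟨w, rfl⟩ := hpt p
    exact ⟨w, hx w⟩
  have h1 : Measurable fun k => P.x (π k) := P.mx.comp hπ
  have h2 : Measurable fun k => P.ψ (π k) := P.mψ.comp hπ
  have h3 : ∀ᵐ k ∂μ, P.x (π k) ∈ range ι := Eventually.of_forall fun k => ⟨_, (hx _).symm⟩
  have h4 : ∀ g, ∀ᵐ k ∂μ, P.x (π (j g * k)) = act g (P.x (π k)) := fun g => by
    filter_upwards [he g] with k hk
    rw [hk, ha']
  have h5 : ∀ g, ∀ᵐ k ∂μ, ∀ θ : ℝ, 0 < θ → ∃ r : ℝ, 0 < r ∧ ∀ y ∈ range ι, ‖y - P.x (π k)‖ ≤ r →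
      ‖P.ψ (π (j g * k)) (act g y - act g (P.x (π k))) - P.ψ (π k) (y - P.x (π k))‖ ≤
        θ * ‖y - P.x (π k)‖ := fun g => by
    filter_upwards [he g] with k hk θ hθ
    obtain ⟨r, hr0, h⟩ := P.lin g (θ / (‖P.ψ (g • π k)‖ + 1)) (by positivity)
    refine ⟨r, hr0, fun y hy hy' => ?_⟩
    obtain ⟨w, rfl⟩ := hr y hy
    rw [hk, ha', ha']
    refine (h _ _ hy').1.trans (mul_le_mul_of_nonneg_right ?_ (norm_nonneg _))
    rw [div_mul_eq_mul_div, div_le_iff₀ (by positivity)]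
    nlinarith
  have h6 : ∀ᵐ k ∂μ, ∃ r : ℝ, 0 < r ∧ ∃ c : ℝ, ∀ y ∈ range ι, ‖y - P.x (π k)‖ ≤ r →
      ‖y - P.x (π k)‖ ≤ c * ‖P.ψ (π k) (y - P.x (π k))‖ := Eventually.of_forall fun k => by
    obtain ⟨r, hr0, h⟩ := P.tan (1 / 2) (by norm_num)
    refine ⟨r, hr0, 2 * ‖P.φ (π k)‖, fun y hy hy' => ?_⟩
    obtain ⟨w, rfl⟩ := hr y hy
    have a1 := (h _ _ hy').1
    have a2 := (P.φ (π k)).le_opNorm (P.ψ (π k) (P.x w - P.x (π k)))
    have a3 := norm_sub_norm_le (P.x w - P.x (π k)) (P.φ (π k) (P.ψ (π k) (P.x w - P.x (π k))))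
    linarith
  borelize E
  have hH := almHom μ hT j hj act h1 h2 h3 h4 h5 h6
  have hj' : DenseRange (j.comp (⊤ : Subgroup Γ).subtype) :=
    hj.mono (by rintro _ ⟨g, rfl⟩; exact ⟨⟨g, trivial⟩, rfl⟩)
  have hop := hH.isOpen _ hj' hS hm hA
  have hc : ∀ g, ContinuousOn (act g) (range ι) := fun g => by
    rw [continuousOn_iff_continuous_domRestrict]
    have : (range ι).domRestrict (act g) = fun y => ι (α g (hι.toHomeomorph.symm y)) := by
      funext y
      obtain ⟨p, rfl⟩ := hι.toHomeomorph.surjective y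
      rw [Homeomorph.symm_apply_apply]
      exact ha g p
    rw [this]
    exact hι.continuous.comp ((hα g).comp hι.toHomeomorph.symm.continuous)
  obtain ⟨Γ₁, hΓ, _, ⟨p, rfl⟩, hp, C, hC⟩ := TZ.tail μ j act h1 h2 h3 h4 h5 h6
    (fun g => by rintro _ ⟨p, rfl⟩; exact ⟨_, (ha g p).symm⟩) hc _ hop fun _ h => h
  refine ⟨Γ₁, hΓ, p, fun g hg => hι.injective ((ha g p).symm.trans (hp g hg)), C, fun g hg => ?_⟩
  have h7 : Tendsto ι (𝓝 p) (𝓝[range ι] ι p) :=
    tendsto_nhdsWithin_iff.2 ⟨hι.continuous.continuousAt, Eventually.of_forall fun y => ⟨y, rfl⟩⟩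
  filter_upwards [h7.eventually (hC g hg)] with y hy
  rwa [ha] at hy

theorem finite_of_frames {Γ : Type} [Group Γ] {m : ℕ} {M : Type} [MetricSpace M] [CompactSpace M]
    [ConnectedSpace M] [MeasurableSpace M] [BorelSpace M]
    [ChartedSpace (EuclideanSpace ℝ (Fin m)) M] [IsManifold (𝓡 m) ∞ M]
    (hT : ∀ L : Subgroup Γ, L.FiniteIndex → HasT L)
    (hR : ∀ L : Subgroup Γ, L.FiniteIndex → SR.SRd L m)
    (α : Γ →* Equiv.Perm M) (hα : ∀ γ, ContMDiff (𝓡 m) (𝓡 m) ∞ (α γ)) {len : Γ → ℝ}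
    (J : Jets α len m) {N : ℕ} {ι : M → EuclideanSpace ℝ (Fin N)}
    (hι : ContMDiff (𝓡 m) (𝓡 N) ∞ ι) (himm : ∀ p, Function.Injective (mfderiv (𝓡 m) (𝓡 N) ι p))
    (B : JEmb J ι) (ν : Measure (M × GLu m)) [hp : IsProbabilityMeasure ν]
    (hν : ∀ γ, MeasurePreserving (fun w : M × GLu m => (α γ w.1, Dlu J γ w.1 * w.2)) ν ν) :
    (range α).Finite := by
  have hT0 : HasT Γ := (hT ⊤ inferInstance).of_mulEquiv Subgroup.topEquiv
  obtain ⟨P, hx, hemb⟩ := exists_frm B
  have hiso : Isometry ι := Isometry.of_dist_eq fun p q => by rw [B.isom, dist_eq_norm]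
  obtain ⟨Γ₁, hΓ, p, h1, C, h2⟩ := @Frm.fixed Γ (Fr J) _ _ M _ _ _ _ _ _ _ _ _ _ _ P hT0 m
    (hR ⊤ inferInstance) (by simp) ν hp hν hemb _ α (fun g => (hα g).continuous) ι hiso.isEmbedding
    (fun w => w.1) (fun p => ⟨(p, 1), rfl⟩) hx fun _ _ => rfl
  have : IsManifold (𝓡 m) 1 M := IsManifold.of_le (n := ∞) (by simp)
  exact end_finite α (fun g => (hα g).of_le (by simp)) hT0.fg_and_hom
    (fun L hL ρ hρ => (hR L hL).finite_of_le le_rfl ρ hρ)
    ((hι p).mdifferentiableAt (by simp)) (himm p) Γ₁ h1 h2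

end Pool.Agent.P.MP_d483fb_an.Z.TZ

end

end

section

/-!
An invariant probability on the suspension gives an invariant probability on the frames.
-/

open scoped Topology ENNReal
open MeasureTheory Filter Set

noncomputable section

namespace Pool.Agent.P.MP_d483fb_an.Z.TZ

variable {G : Type} [Group G] [TopologicalSpace G] [IsTopologicalGroup G] [T2Space G]
  [ConnectedSpace G] [LocallyCompactSpace G] [SecondCountableTopology G] [MeasurableSpace G]
  [BorelSpace G] {n k : ℕ} {L : Lat G} {X : Type} [TopologicalSpace X]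
  [TopologicalSpace.PseudoMetrizableSpace X] [MeasurableSpace X] [BorelSpace X]
  [MeasurableSpace.CountablyGenerated X] [MulAction G X] [ContinuousSMul G X]

theorem frames_of_inv {M : Type} [MeasurableSpace M] [StandardBorelSpace M] [Nonempty M]
    {α : L.Γ →* Equiv.Perm M} {V : Type} [NormedAddCommGroup V] [NormedSpace ℝ V]
    [FiniteDimensional ℝ V] (D : Std G n k) (E : Skw L α X) (hα : ∀ γ, Measurable (α γ))
    (ν : Measure X) [IsProbabilityMeasure ν]
    (hG : ∀ g : G, MeasurePreserving (fun x : X => g • x) ν ν) (hE : D.ErgA ν)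
    (A : L.Γ → M → (V →L[ℝ] V)ˣ) (hm : ∀ γ, Measurable fun p => (A γ p : V →L[ℝ] V))
    (hA : ∀ γ δ p, A (γ * δ) p = A γ (α δ p) * A δ p) {C : ℝ}
    (hC : ∀ γ p, ‖(A γ p : V →L[ℝ] V)‖ ≤ Real.exp (C * (1 + L.len γ)))
    (hv : D.ltV (Module.finrank ℝ V - 1)) (hD : SR.Dec D.a ∅) :
    ∃ η : Measure (M × (V →L[ℝ] V)ˣ), IsProbabilityMeasure η ∧
      ∀ γ, MeasurePreserving (fun w : M × (V →L[ℝ] V)ˣ => (α γ w.1, A γ w.1 * w.2)) η η :=
  frames_of_exps D E hα ν hG hE A hm hA hC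
    (fun Q S hS _ _ o i => MS.exps_zero D Q (D.gErg hG hE) S hS o hv i) hD

/-- The case of the derivative cocycle. -/
theorem frames_jets {M : Type} [MetricSpace M] [CompactSpace M] [MeasurableSpace M] [BorelSpace M]
    [Nonempty M] {α : L.Γ →* Equiv.Perm M} {m : ℕ} (D : Std G n k) (E : Skw L α X)
    (J : NF.Jets α (fun γ => L.len γ) m) (ν : Measure X) [IsProbabilityMeasure ν]
    (hG : ∀ g : G, MeasurePreserving (fun x : X => g • x) ν ν) (hE : D.ErgA ν)
    (hv : D.ltV m) (hD : SR.Dec D.a ∅) :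
    ∃ η : Measure (M × GLu m), IsProbabilityMeasure η ∧
      ∀ γ, MeasurePreserving (fun w : M × GLu m => (α γ w.1, Dlu J γ w.1 * w.2)) η η := by
  have hα : ∀ γ, Measurable (α γ) := fun γ =>
    (LipschitzWith.of_dist_le_mul (K := ⟨_, (Real.exp_pos _).le⟩) (J.lip γ)).continuous.measurable
  refine frames_of_inv D E hα ν hG hE (Dlu J) (measurable_Dl J) (Dlu_mul J)
    (C := ‖linvL m‖ + J.Lr 2) (fun γ p => (norm_Dl_le J γ p).trans ?_) (fun H h1 h2 => ?_) hD
  · have h0 : 0 ≤ ‖linvL m‖ := (linvL m).opNorm_nonneg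
    have h1 := L.nonneg γ
    rw [add_mul, Real.exp_add]
    refine mul_le_mul_of_nonneg_right ?_ (Real.exp_pos _).le
    nlinarith [Real.add_one_le_exp (‖linvL m‖ * (1 + L.len γ)), mul_nonneg h0 h1]
  · refine lt_of_le_of_lt ?_ (hv H h1 h2)
    simp

end Pool.Agent.P.MP_d483fb_an.Z.TZ

end

end

section

/-!
An invariant probability on the suspension forces the action to be finite.
-/

open scoped Manifold ContDiff Topology
open MeasureTheory Filter Set

noncomputable section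

namespace Pool.Agent.P.MP_d483fb_an.Z

variable {G : Type} [Group G] [TopologicalSpace G] [IsTopologicalGroup G] [ConnectedSpace G]
  [T2Space G] [LocallyCompactSpace G] [SecondCountableTopology G] [MeasurableSpace G]
  [BorelSpace G] {n k : ℕ}
  {m : ℕ} {M : Type} [MetricSpace M] [CompactSpace M] [MeasurableSpace M] [BorelSpace M]
  [ChartedSpace (EuclideanSpace ℝ (Fin m)) M] [IsManifold (𝓡 m) ∞ M]

omit [CompactSpace M] in
theorem Emb.jemb {Γ : Type} [Group Γ] (e : Emb m M) {α : Γ →* Equiv.Perm M} {len : Γ → ℝ}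
    (A : Jet.Atl (Jet.stdc (D := m) (M := M))) (J : NF.Jets α len m) (hJ : J.c = A.c) :
    Nonempty (TZ.JEmb J e.ι) := by
  refine NF.jemb_of_atl A J hJ e.dist_eq fun x => ?_
  have h := ((contMDiff_iff.1 e.smooth).2 x 0).comp
    (EuclideanSpace.equiv (Fin m) ℝ).symm.contDiff.contDiffOn (s := (Jet.stdc (D := m) x).target)
    fun u hu => by
      have : (EuclideanSpace.equiv (Fin m) ℝ).symm u ∈
        (chartAt (EuclideanSpace ℝ (Fin m)) x).target := hu
      simpa using this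
  exact h.congr fun _ _ => rfl

theorem Std.finite_of_inv (D : Std G n k) (Γ : Subgroup G) [DiscreteTopology Γ]
    [ConnectedSpace M] (e : Emb m M) (α : (D.lat Γ).Γ →* Equiv.Perm M)
    (hα : ∀ γ, ContMDiff (𝓡 m) (𝓡 m) ∞ (α γ))
    (A : Jet.Atl (Jet.stdc (D := m) (M := M))) (J : NF.Jets α (fun γ => D.len γ) m)
    (hJ : J.c = A.c)
    {X : Type} [MetricSpace X] [ProperSpace X] [MeasurableSpace X] [BorelSpace X] [MulAction G X]
    [ContinuousSMul G X] (E : Skw (D.lat Γ) α X) (ν : Measure X) [IsProbabilityMeasure ν]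
    (hG : ∀ g : G, MeasurePreserving (fun x : X => g • x) ν ν) (hA : D.ErgA ν) (hv : D.ltV m)
    (hT : ∀ Λ : Subgroup (D.lat Γ).Γ, Λ.FiniteIndex → TZ.HasT Λ)
    (hS : ∀ Λ : Subgroup (D.lat Γ).Γ, Λ.FiniteIndex → SR.SRd Λ m) :
    (range α).Finite := by
  obtain ⟨B⟩ := e.jemb A J hJ
  obtain ⟨η, _, hη⟩ := TZ.frames_jets D E J ν hG hA hv (TZ.Std.dec0 D ∅)
  exact TZ.finite_of_frames hT hS α hα J e.smooth e.imm B η hη

end Pool.Agent.P.MP_d483fb_an.Z

end

end
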