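import Pool.Agent.P.MP_d483fb_an.M.A19
import Pool.Agent.P.MP_d483fb_an.M.A20

section

/-!
The two coordinates on the atoms of a rectangle partition of a leaf structure.
-/

open scoped Matrix Matrix.Norms.Operator Topology
open MeasureTheory Filter Set ProbabilityTheory

noncomputable section

namespace Pool.Agent.P.MP_d483fb_an.Z.PS

variable {X : Type} [MeasurableSpace X] {μ : Measure X} {ι : Type} [Fintype ι] [DecidableEq ι]

theorem measurable_norm' : Measurable fun A : Matrix ι ι ℝ => ‖A‖ :=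
  have : Continuous fun A : ι → ι → ℝ => @norm (Matrix ι ι ℝ) _ A :=
    continuous_norm (E := Matrix ι ι ℝ)
  this.measurable

theorem dist_le_of_norm {A B : Matrix ι ι ℝ} {δ : ℝ} (h : ‖B - A‖ ≤ δ) :
    @dist (ι → ι → ℝ) _ A B ≤ δ := by
  have h0 := (norm_nonneg _).trans h
  refine (dist_pi_le_iff h0).2 fun i => (dist_pi_le_iff h0).2 fun j => ?_
  rw [dist_comm, Real.dist_eq]
  exact (abs_entry_le (B - A) i j).trans h

theorem exists_small (w : Wt ι) {δ : ℝ} (hδ : 0 < δ) : ∃ r > 0, ∀ h : Matrix ι ι ℝ,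
    w.Nil univ h → w.N h ≤ r → ‖h - 1‖ ≤ δ := by
  have h0 : 0 < δ / (Fintype.card ι + 1) := by positivity
  refine ⟨min 1 ((δ / (Fintype.card ι + 1)) ^ w.gi), by positivity, fun h hh hr => ?_⟩
  refine (hh.norm_sub_one_le le_rfl (hr.trans (min_le_left _ _))).trans ?_
  have h1 : w.N h ^ w.gi⁻¹ ≤ δ / (Fintype.card ι + 1) :=
    (Real.rpow_inv_le_iff_of_pos (w.N_nonneg _) h0.le w.gi_pos).2 (hr.trans (min_le_right _ _))
  rw [Real.one_rpow, one_mul]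
  refine (mul_le_mul_of_nonneg_left h1 (Nat.cast_nonneg _)).trans ?_
  rw [← mul_div_assoc, div_le_iff₀ (by positivity)]
  nlinarith

/-- The action of the flow in the charts, up to a small exponential rate. -/
theorem exists_scale (S : LS X μ ι) {ε κ : ℝ} (hε : 0 < ε) (hκ : 0 < κ) : ∃ q : X → ℝ,
    Measurable q ∧ (∀ x, 1 ≤ q x) ∧ ∀ x ∈ S.X0, ∀ (J : Set ℝ) (m : Matrix ι ι ℝ), S.w.Nil J m →
      ∀ (s : ℝ × ℝ) (c u : ℝ), (∀ σ ∈ J, s.1 + s.2 * σ ≤ c) → ‖s‖ ≤ κ * u →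
        S.w.N (S.L s x * m * (S.L s x)⁻¹) ≤ q x * Real.exp (c + ε * u) * S.w.N m := by
  have hC := S.w.C_pos
  obtain ⟨q, hq, -⟩ := S.temp (ε / (S.w.C * κ)) (by positivity)
  refine ⟨fun x => S.w.C * q x ^ S.w.C, (hq.meas.pow_const _).const_mul _, fun x =>
    one_le_mul_of_one_le_of_one_le S.w.one_le_C (Real.one_le_rpow (hq.one_le x) hC.le),
    fun x hx J m hm s c u hc hs => (hq.N_conj_le (by positivity) hx hm s hc).trans ?_⟩
  rw [Real.mul_rpow (hq.pos x).le (Real.exp_pos _).le, ← Real.exp_mul, Real.exp_add]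
  have h1 : ε / (S.w.C * κ) * ‖s‖ * S.w.C ≤ ε * u := by
    have : ε / (S.w.C * κ) * ‖s‖ * S.w.C = ε * (‖s‖ / κ) := by field_simp
    rw [this]
    exact mul_le_mul_of_nonneg_left ((div_le_iff₀' hκ).2 hs) hε.le
  have h2 := Real.exp_le_exp.2 h1
  have h3 := S.w.N_nonneg m
  have h4 : 0 ≤ q x ^ S.w.C := Real.rpow_nonneg (hq.pos x).le _
  calc _ = S.w.C * q x ^ S.w.C * (Real.exp c * Real.exp (ε / (S.w.C * κ) * ‖s‖ * S.w.C)) *
        S.w.N m := by ring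
    _ ≤ _ := by gcongr

variable (S : Pre X μ ι) (J : Set ℝ) (χ : ℝ) (K : Set X) (ζ : X → BoxLab X)

/-- A rectangle partition for the slopes in `J` and the extreme slope `χ`. -/
abbrev BoxJ (d : X → ℕ) (del : X → ℝ) (Y : Set X) : Prop :=
  Box μ S.aE S.X0 (S.RJ J) S.N (fun w y => S.w.pr χ (S.n w y)) (fun w y => S.w.al χ (S.n w y))
    K ζ d del Y

/-- The first coordinate. -/
def sC (x : X) : Matrix ι ι ℝ := S.w.pr χ (S.n (ζ x).1 x)

/-- The second coordinate. -/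
def aC (x : X) : Matrix ι ι ℝ := S.w.al χ (S.n (ζ x).1 x)

/-- The distortion of the gauge between the chart at a point and at its reference point. -/
def dis (x : X) : ℝ := S.w.C * (max 1 (max ‖S.l (ζ x).1 x‖ ‖S.l x (ζ x).1‖)) ^ S.w.C

theorem one_le_dis (x : X) : 1 ≤ dis S ζ x :=
  one_le_mul_of_one_le_of_one_le S.w.one_le_C (Real.one_le_rpow (le_max_left _ _) S.w.C_pos.le)

variable {S J χ K ζ} {d : X → ℕ} {del : X → ℝ} {Y : Set X} {x y : X}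

theorem measurable_sC (hζ : Measurable ζ) : Measurable (sC S χ ζ) :=
  Wt.measurable_pr.comp (Pre.measurable_n_comp hζ.fst measurable_id)

theorem measurable_aC (hζ : Measurable ζ) : Measurable (aC S χ ζ) :=
  Wt.measurable_al.comp (Pre.measurable_n_comp hζ.fst measurable_id)

theorem measurable_dis (hζ : Measurable ζ) : Measurable (dis S ζ) :=
  ((measurable_const.max ((measurable_norm'.comp (Pre.measurable_l_comp hζ.fst measurable_id)).max
    (measurable_norm'.comp (Pre.measurable_l_comp measurable_id hζ.fst)))).pow_const _).const_mul _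

theorem N_conj_dis {J' : Set ℝ} {h : Matrix ι ι ℝ} (hh : S.w.Nil J' h) (x : X) :
    S.w.N (S.l (ζ x).1 x * h * S.l x (ζ x).1) ≤ dis S ζ x * S.w.N h ∧
      S.w.N (S.l x (ζ x).1 * h * S.l (ζ x).1 x) ≤ dis S ζ x * S.w.N h :=
  ⟨hh.N_conj_le (S.l_lev _ _) (S.l_lev _ _) (le_max_left _ _)
      ((le_max_left _ _).trans (le_max_right _ _)) ((le_max_right _ _).trans (le_max_right _ _)),
    hh.N_conj_le (S.l_lev _ _) (S.l_lev _ _) (le_max_left _ _)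
      ((le_max_right _ _).trans (le_max_right _ _)) ((le_max_left _ _).trans (le_max_right _ _))⟩

namespace BoxJ

variable (hB : BoxJ S J χ K ζ d del Y) (hJ : J.OrdConnected) (hχ : Wt.Extreme J χ)
include hB

theorem refx (hx : x ∈ K) : S.RJ J (ζ x).1 x := (hB.ref x hx).2.1

theorem refy (hy : y ∈ K) (e : ζ x = ζ y) : S.RJ J (ζ x).1 y := e ▸ hB.refx hy

theorem N_sC (hx : x ∈ K) : S.w.N (sC S χ ζ x) ≤ 1 := (Wt.N_pr_le _).trans (hB.ref x hx).2.2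

theorem nil_sC (hx : x ∈ K) : S.w.Nil {χ} (sC S χ ζ x) := (hB.refx hx).2.pr

include hJ

theorem rel (hx : x ∈ K) (hy : y ∈ K) (e : ζ x = ζ y) : S.RJ J x y :=
  ((hB.refx hx).symm hJ).trans hJ (hB.refy hy e)

theorem N_le (hx : x ∈ K) (hy : y ∈ K) (e : ζ x = ζ y) : S.N x y ≤ S.w.C ^ 2 * dis S ζ x := by
  have h1 := (hB.refx hx).2
  have h2 := (hB.refy hy e).2
  have h3 : S.w.N ((S.n (ζ x).1 x)⁻¹ * S.n (ζ x).1 y) ≤ S.w.C * S.w.C :=
    (h1.inv hJ).N_mul_le h2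
      (h1.N_inv_le.trans (mul_le_of_le_one_right S.w.C_pos.le (hB.ref x hx).2.2))
      ((e ▸ (hB.ref y hy).2.2 : S.N (ζ x).1 y ≤ 1).trans S.w.one_le_C)
  rw [Pre.N, Pre.n_eq_conj (hB.refx hx).1 (hB.rel hJ hx hy e).1]
  refine (N_conj_dis ((h1.inv hJ).mul hJ h2) x).2.trans ?_
  rw [mul_comm, sq]
  exact mul_le_mul_of_nonneg_right h3 (zero_le_one.trans (one_le_dis S ζ x))

include hχ

theorem sC_eq (hx : x ∈ K) (hy : y ∈ K) (e : ζ x = ζ y) : sC S χ ζ y =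
    sC S χ ζ x * (S.l (ζ x).1 x * S.w.pr χ (S.n x y) * S.l x (ζ x).1) := by
  have h := hB.rel hJ hx hy e
  have h1 := hB.refx hx
  rw [sC, sC, ← e, Pre.n_trans h1.1 h.1, Wt.pr_chart hχ h1.2 (S.l_lev _ _) (Pre.isUnit_l h1.1) h.2,
    Pre.l_inv h1.1]

theorem aC_eq (hx : x ∈ K) (hy : y ∈ K) (e : ζ x = ζ y) : aC S χ ζ y =
    S.n (ζ x).1 x * (S.l (ζ x).1 x * S.w.al χ (S.n x y) * S.l x (ζ x).1) * (sC S χ ζ x)⁻¹ := by
  have h := hB.rel hJ hx hy e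
  have h1 := hB.refx hx
  rw [aC, sC, ← e, Pre.n_trans h1.1 h.1, Wt.al_chart hχ h1.2 (S.l_lev _ _) (Pre.isUnit_l h1.1) h.2,
    Pre.l_inv h1.1]

theorem sC_iff (hx : x ∈ K) (hy : y ∈ K) (e : ζ x = ζ y) :
    sC S χ ζ x = sC S χ ζ y ↔ S.RJ (J \ {χ}) x y := by
  rw [Pre.RJ_iff_chart (hB.refx hx).1 (hB.refy hy e).1, sC, sC, ← e,
    Wt.pr_eq_iff hχ hJ (hB.refx hx).2 (hB.refy hy e).2]

omit hJ in
theorem aC_iff (hx : x ∈ K) (hy : y ∈ K) (e : ζ x = ζ y) :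
    aC S χ ζ x = aC S χ ζ y ↔ S.RJ {χ} x y := by
  rw [Pre.RJ_iff_chart (hB.refx hx).1 (hB.refy hy e).1, aC, aC, ← e,
    Wt.al_eq_iff hχ (hB.refx hx).2 (hB.refy hy e).2]

theorem inv_sC_mul (hx : x ∈ K) (hy : y ∈ K) (e : ζ x = ζ y) : (sC S χ ζ x)⁻¹ * sC S χ ζ y =
    S.l (ζ x).1 x * S.w.pr χ (S.n x y) * S.l x (ζ x).1 := by
  rw [hB.sC_eq hJ hχ hx hy e, ← mul_assoc, (hB.nil_sC hx).inv_mul, one_mul]

theorem N_cell (hx : x ∈ K) (hy : y ∈ K) (e : ζ x = ζ y) :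
    S.w.N ((sC S χ ζ x)⁻¹ * sC S χ ζ y) ≤ dis S ζ x * S.w.N (S.w.pr χ (S.n x y)) ∧
      S.w.N (S.w.pr χ (S.n x y)) ≤ dis S ζ x * S.w.N ((sC S χ ζ x)⁻¹ * sC S χ ζ y) := by
  have h1 := (hB.refx hx).1
  refine ⟨hB.inv_sC_mul hJ hχ hx hy e ▸ (N_conj_dis (hB.rel hJ hx hy e).2.pr x).1, ?_⟩
  have h2 := (N_conj_dis (ζ := ζ) (((hB.nil_sC hx).inv ordConnected_singleton).mul
    ordConnected_singleton (hB.nil_sC hy)) x).2
  rwa [hB.inv_sC_mul hJ hχ hx hy e, ← mul_assoc, ← mul_assoc, Pre.l_mul_symm (S.R_symm _ _ h1),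
    one_mul, mul_assoc, Pre.l_mul_symm (S.R_symm _ _ h1), mul_one,
    ← hB.inv_sC_mul hJ hχ hx hy e] at h2

theorem mod_sC {δ : ℝ} (hδ : 0 < δ) (B : ℝ) : ∃ r > 0, ∀ x ∈ K, ∀ y ∈ K, ζ x = ζ y →
    dis S ζ x ≤ B → S.w.N (S.w.pr χ (S.n x y)) ≤ r → ‖sC S χ ζ y - sC S χ ζ x‖ ≤ δ := by
  have hA : 0 < S.w.C * (1 + 1) ^ S.w.C := mul_pos S.w.C_pos (by positivity)
  obtain ⟨r, hr, h⟩ := exists_small S.w (div_pos hδ hA)
  refine ⟨r / (|B| + 1), by positivity, fun x hx y hy e h1 h2 => ?_⟩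
  have h3 := (hB.rel hJ hx hy e).2.pr (χ := χ)
  have h4 : S.w.N (S.l (ζ x).1 x * S.w.pr χ (S.n x y) * S.l x (ζ x).1) ≤ r := by
    refine (N_conj_dis h3 x).1.trans ((mul_le_mul (h1.trans ((le_abs_self B).trans
      (le_add_of_nonneg_right zero_le_one))) h2 (S.w.N_nonneg _) (by positivity)).trans ?_)
    rw [mul_div_cancel₀ _ (by positivity)]
  have h5 := h _ (h3.univ.conj (S.l_lev _ _) (S.l_lev _ _) (Pre.l_mul_symm (hB.refx hx).1)) h4
  rw [hB.sC_eq hJ hχ hx hy e, ← mul_sub_one]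
  refine (norm_mul_le _ _).trans ((mul_le_mul ((hB.nil_sC hx).norm_le (hB.N_sC hx)) h5
    (norm_nonneg _) hA.le).trans ?_)
  rw [mul_div_cancel₀ _ hA.ne']

theorem mod_aC {δ : ℝ} (hδ : 0 < δ) (B : ℝ) : ∃ r > 0, ∀ x ∈ K, ∀ y ∈ K, ζ x = ζ y →
    dis S ζ x ≤ B → S.w.N (S.w.al χ (S.n x y)) ≤ r → ‖aC S χ ζ y - aC S χ ζ x‖ ≤ δ := by
  have hC := S.w.C_pos
  have hA : 0 < S.w.C * (1 + 1) ^ S.w.C := by positivity
  have hA' : 0 < S.w.C * (1 + S.w.C) ^ S.w.C := by positivity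
  obtain ⟨r, hr, h⟩ := exists_small S.w (div_pos hδ (mul_pos hA hA'))
  refine ⟨r / (|B| + 1), by positivity, fun x hx y hy e h1 h2 => ?_⟩
  have h3 := (hB.rel hJ hx hy e).2.al_univ (χ := χ)
  have h4 : S.w.N (S.l (ζ x).1 x * S.w.al χ (S.n x y) * S.l x (ζ x).1) ≤ r := by
    refine (N_conj_dis h3 x).1.trans ((mul_le_mul (h1.trans ((le_abs_self B).trans
      (le_add_of_nonneg_right zero_le_one))) h2 (S.w.N_nonneg _) (by positivity)).trans ?_)
    rw [mul_div_cancel₀ _ (by positivity)]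
  have h5 := h _ (h3.conj (S.l_lev _ _) (S.l_lev _ _) (Pre.l_mul_symm (hB.refx hx).1)) h4
  have h6 : ‖(sC S χ ζ x)⁻¹‖ ≤ S.w.C * (1 + S.w.C) ^ S.w.C :=
    ((hB.nil_sC hx).inv ordConnected_singleton).norm_le
      ((hB.nil_sC hx).N_inv_le.trans (mul_le_of_le_one_right hC.le (hB.N_sC hx)))
  have h7 : aC S χ ζ x = S.n (ζ x).1 x * (sC S χ ζ x)⁻¹ := rfl
  rw [hB.aC_eq hJ hχ hx hy e, h7, ← sub_mul, ← mul_sub_one]
  refine (norm_mul_le _ _).trans ((mul_le_mul ((norm_mul_le _ _).trans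
    (mul_le_mul ((hB.refx hx).2.norm_le (hB.ref x hx).2.2) h5 (norm_nonneg _) hA.le)) h6
    (norm_nonneg _) (by positivity)).trans (le_of_eq ?_))
  field_simp

end BoxJ

end Pool.Agent.P.MP_d483fb_an.Z.PS

end

end

section

/-!
Elementary measure theoretic lemmas used for the product structure.
-/

namespace Pool.Agent.P.MP_d483fb_an.Z.PS

open MeasureTheory Filter Set Topology
open scoped ENNReal

variable {X : Type*} [MeasurableSpace X]

/-- Bonferroni lower bound for sets of equal measure with small pairwise intersections. -/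
theorem bonferroni (μ : Measure X) [IsFiniteMeasure μ] (A : ℕ → Set X)
    (hA : ∀ i, MeasurableSet (A i)) {p c : ℝ} (hc : 0 ≤ c) (hp : ∀ i, μ.real (A i) = p) (J : ℕ)
    (h : ∀ i j, i < j → j < J → μ.real (A i ∩ A j) ≤ c) :
    ∀ n ≤ J, n * p - n * n * c ≤ μ.real (⋃ i ∈ Finset.range n, A i) := by
  intro n
  induction n with
  | zero => simp
  | succ n ih =>
    intro hn
    have h1 := ih (by omega)
    have hU : MeasurableSet (⋃ i ∈ Finset.range n, A i) :=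
      Finset.measurableSet_biUnion _ fun i _ => hA i
    have h2 : μ.real ((⋃ i ∈ Finset.range n, A i) ∩ A n) ≤ n * c := by
      rw [iUnion₂_inter]
      refine (measureReal_biUnion_finset_le _ _).trans ?_
      refine (Finset.sum_le_card_nsmul _ _ c fun i hi => h i n (Finset.mem_range.1 hi)
        (by omega)).trans ?_
      simp
    have h3 := measureReal_union_add_inter (μ := μ) (s := ⋃ i ∈ Finset.range n, A i) (hA n)
      (measure_ne_top _ _) (measure_ne_top _ _)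
    rw [Finset.range_add_one, Finset.set_biUnion_insert, union_comm]
    rw [hp n] at h3
    push_cast
    have : (0 : ℝ) ≤ n := Nat.cast_nonneg n
    nlinarith

/-- Returns with a definite measure at syndetic multiples of any step. -/
theorem exists_shift_inter (μ : Measure X) [IsProbabilityMeasure μ] {K : Set X}
    (hK : MeasurableSet K) (h0 : μ K ≠ 0) : ∃ J : ℕ, ∃ c : ℝ, 0 < c ∧
      ∀ β : X → X, MeasurePreserving β μ μ → ∀ Q : ℕ,
        ∃ M, Q ≤ M ∧ M ≤ J * Q ∧ c ≤ μ.real (K ∩ β^[M] ⁻¹' K) := by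
  have hp : 0 < μ.real K := ENNReal.toReal_pos h0 (measure_ne_top _ _)
  obtain ⟨J, hJ⟩ := exists_nat_gt (2 / μ.real K)
  have hJ0 : (0 : ℝ) < J := (div_pos two_pos hp).trans hJ
  refine ⟨J, 1 / (J * J), by positivity, fun β hβ Q => ?_⟩
  by_contra hcon
  push Not at hcon
  have hb := bonferroni μ (fun i => β^[i * Q] ⁻¹' K) (fun i => (hβ.iterate _).measurable hK)
    (p := μ.real K) (c := 1 / (J * J)) (by positivity)
    (fun i => (hβ.iterate _).measureReal_preimage hK.nullMeasurableSet) J (fun i j hij hj => by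
      obtain ⟨r, rfl⟩ := Nat.exists_eq_add_of_lt hij
      have e : β^[i * Q] ⁻¹' K ∩ β^[(i + r + 1) * Q] ⁻¹' K =
          β^[i * Q] ⁻¹' (K ∩ β^[(r + 1) * Q] ⁻¹' K) := by
        ext x
        simp only [mem_inter_iff, mem_preimage]
        rw [show (i + r + 1) * Q = (r + 1) * Q + i * Q by ring, Function.iterate_add_apply]
      rw [e, (hβ.iterate _).measureReal_preimage
        (hK.inter ((hβ.iterate _).measurable hK)).nullMeasurableSet]
      exact (hcon _ (Nat.le_mul_of_pos_left _ (Nat.succ_pos r))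
        (Nat.mul_le_mul_right _ (by omega))).le) J le_rfl
  have h1 := hb.trans (measureReal_le_one (μ := μ))
  rw [div_lt_iff₀ hp] at hJ
  have : (J : ℝ) * J * (1 / (J * J)) = 1 := by field_simp
  linarith

/-- A measurable real function is bounded off a small set. -/
theorem exists_bound (ν : Measure X) [IsFiniteMeasure ν] {f : X → ℝ} (hf : Measurable f)
    {η : ℝ} (hη : 0 < η) : ∃ B : ℝ, 1 ≤ B ∧ ν.real {x | B < f x} ≤ η := by
  have h1 : Tendsto (fun n : ℕ => ν {x | (n : ℝ) + 1 < f x}) atTop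
      (𝓝 (ν (⋂ n : ℕ, {x | (n : ℝ) + 1 < f x}))) :=
    tendsto_measure_iInter_atTop
      (fun n => (measurableSet_lt measurable_const hf).nullMeasurableSet)
      (fun i j hij x hx => by
        have : (i : ℝ) ≤ j := Nat.cast_le.2 hij
        simp only [mem_ofPred_eq] at hx ⊢
        linarith) ⟨0, measure_ne_top _ _⟩
  have h2 : (⋂ n : ℕ, {x | (n : ℝ) + 1 < f x}) = ∅ := by
    refine eq_empty_of_forall_notMem fun x hx => ?_
    obtain ⟨n, hn⟩ := exists_nat_gt (f x)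
    have := mem_iInter.1 hx n
    simp only [mem_ofPred_eq] at this
    linarith
  rw [h2, measure_empty] at h1
  obtain ⟨n, hn⟩ := (h1.eventually (gt_mem_nhds (ENNReal.ofReal_pos.2 hη))).exists
  refine ⟨n + 1, by linarith [Nat.cast_nonneg (α := ℝ) n], ?_⟩
  exact ENNReal.toReal_le_of_le_ofReal hη.le hn.le

/-- A measurable function that is positive almost everywhere is bounded below off a small set. -/
theorem exists_lower (ν : Measure X) [IsFiniteMeasure ν] {f : X → ℝ} (hf : Measurable f)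
    (h0 : ∀ᵐ x ∂ν, 0 < f x) {η : ℝ} (hη : 0 < η) :
    ∃ δ : ℝ, 0 < δ ∧ ν.real {x | f x < δ} ≤ η := by
  obtain ⟨B, hB, h⟩ := exists_bound ν hf.inv hη
  refine ⟨B⁻¹, by positivity, le_trans ?_ h⟩
  refine ENNReal.toReal_mono (measure_ne_top _ _) (measure_mono_ae ?_)
  filter_upwards [h0] with x hx h1
  exact (lt_inv_comm₀ (by positivity) hx).2 h1

/-- Almost sure convergence of a sequence to a limit bounds it with high probability. -/
theorem eventually_near (ν : Measure X) [IsFiniteMeasure ν] {f : ℕ → X → ℝ}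
    (hf : ∀ n, Measurable (f n)) {θ ε η : ℝ} (hε : 0 < ε) (hη : 0 < η)
    (h : ∀ᵐ x ∂ν, Tendsto (fun n => f n x) atTop (𝓝 θ)) :
    ∀ᶠ n in atTop, ν.real {x | ε ≤ |f n x - θ|} ≤ η := by
  have h1 := tendstoInMeasure_of_tendsto_ae (μ := ν) (f := f) (g := fun _ => θ)
    (fun n => (hf n).aestronglyMeasurable) h
  have h2 := (tendstoInMeasure_iff_dist.1 h1) ε hε
  filter_upwards [h2.eventually (gt_mem_nhds (ENNReal.ofReal_pos.2 hη))] with n hn
  exact ENNReal.toReal_le_of_le_ofReal hη.le hn.le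

/-- A conull set contains a conull set on which two almost inverse maps are inverse. -/
theorem exists_invariant {ν : Measure X} {T S : X → X} (hT : MeasurePreserving T ν ν)
    (hS : MeasurePreserving S ν ν) (h1 : ∀ᵐ x ∂ν, T (S x) = x) (h2 : ∀ᵐ x ∂ν, S (T x) = x)
    {Y : Set X} (hY : ∀ᵐ x ∂ν, x ∈ Y) : ∃ Y' ⊆ Y, MeasurableSet Y' ∧ (∀ᵐ x ∂ν, x ∈ Y') ∧
      ∀ x ∈ Y', T x ∈ Y' ∧ S x ∈ Y' ∧ T (S x) = x ∧ S (T x) = x := by
  have h3 : ∀ᵐ x ∂ν, x ∈ Y ∧ T (S x) = x ∧ S (T x) = x := hY.and (h1.and h2)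
  obtain ⟨N, hN, hm, h0⟩ := exists_measurable_superset_of_null (ae_iff.1 h3)
  have hc : ∀ x, x ∉ N → x ∈ Y ∧ T (S x) = x ∧ S (T x) = x := fun x hx => by
    by_contra h
    exact hx (hN h)
  have hae : ∀ᵐ x ∂ν, x ∉ N := measure_eq_zero_iff_ae_notMem.1 h0
  refine ⟨{x | ∀ n, T^[n] x ∉ N ∧ S^[n] x ∉ N}, fun x hx => (hc x (hx 0).1).1, ?_, ?_, ?_⟩
  · have : {x | ∀ n, T^[n] x ∉ N ∧ S^[n] x ∉ N} = ⋂ n, (T^[n] ⁻¹' N)ᶜ ∩ (S^[n] ⁻¹' N)ᶜ := by
      ext x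
      simp
    rw [this]
    exact .iInter fun n => ((hT.iterate n).measurable hm).compl.inter
      ((hS.iterate n).measurable hm).compl
  · exact ae_all_iff.2 fun n => ((hT.iterate n).quasiMeasurePreserving.ae hae).and
      ((hS.iterate n).quasiMeasurePreserving.ae hae)
  · intro x hx
    obtain ⟨-, e1, e2⟩ := hc x (hx 0).1
    refine ⟨fun n => ⟨(hx (n + 1)).1, ?_⟩, fun n => ⟨?_, (hx (n + 1)).2⟩, e1, e2⟩
    · rcases n with _ | n
      · exact (hx 1).1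
      · rw [Function.iterate_succ_apply, e2]
        exact (hx n).2
    · rcases n with _ | n
      · exact (hx 1).2
      · rw [Function.iterate_succ_apply, e1]
        exact (hx n).1

/-- Two measures that are proportional on each member of an increasing sequence of sets carrying
both are proportional. -/
theorem eq_smul_of_restrict {m m' : Measure X} {U : ℕ → Set X} (hU : ∀ j, MeasurableSet (U j))
    (hmono : Monotone U) (hm : ∀ᵐ x ∂m, ∃ j, x ∈ U j) (hm' : ∀ᵐ x ∂m', ∃ j, x ∈ U j)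
    (h0 : m (U 0) ≠ 0) (h1 : m (U 0) ≠ ∞)
    (h : ∀ j, ∃ c : ℝ≥0∞, m.restrict (U j) = c • m'.restrict (U j)) :
    ∃ c : ℝ≥0∞, c ≠ 0 ∧ c ≠ ∞ ∧ m = c • m' := by
  choose c hc using h
  have hv : ∀ j, m (U 0) = c j * m' (U 0) := fun j => by
    have := congrArg (fun ν : Measure X => ν (U 0)) (hc j)
    simpa [Measure.restrict_apply (hU 0), inter_eq_self_of_subset_left (hmono (Nat.zero_le j))]
      using this
  have a0 : m' (U 0) ≠ 0 := fun h => h0 (by rw [hv 0, h, mul_zero])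
  have c0 : c 0 ≠ 0 := fun h => h0 (by rw [hv 0, h, zero_mul])
  have a1 : m' (U 0) ≠ ∞ := fun h => h1 (by rw [hv 0, h, ENNReal.mul_top c0])
  have c1 : c 0 ≠ ∞ := fun h => h1 (by rw [hv 0, h, ENNReal.top_mul a0])
  have hcj : ∀ j, c j = c 0 := fun j =>
    (ENNReal.mul_left_inj a0 a1).1 ((hv j).symm.trans (hv 0))
  refine ⟨c 0, c0, c1, ?_⟩
  have hr : ∀ ν : Measure X, (∀ᵐ x ∂ν, ∃ j, x ∈ U j) → ∀ s, MeasurableSet s →
      ν s = ⨆ j, ν.restrict (U j) s := fun ν hν s hs => by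
    rw [← Measure.restrict_iUnion_apply_eq_iSup hmono.directed_le hs,
      Measure.restrict_eq_self_of_ae_mem (hν.mono fun x hx => mem_iUnion.2 hx)]
  refine Measure.ext fun s hs => ?_
  rw [hr m hm s hs, Measure.smul_apply, hr m' hm' s hs, smul_eq_mul, ENNReal.mul_iSup]
  refine iSup_congr fun j => ?_
  rw [hc j, hcj j, Measure.smul_apply, smul_eq_mul]

end Pool.Agent.P.MP_d483fb_an.Z.PS


end

section

/-!
Abstract data for the rate inequality between the three conditional entropies, and the geometric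
estimates on pairs of points with the same labels.
-/

namespace Pool.Agent.P.MP_d483fb_an.Z.PS

open MeasureTheory Filter Set Topology ProbabilityTheory
open scoped ENNReal

/-- A return map `T` to `K` with an increasing label `ζ` and digit `d`, a relation with three
gauges, a second measure preserving map `β`, and cells at every scale. -/
structure Rate {X Z D : Type} [MeasurableSpace X] (μ : Measure X) (K : Set X) (T Ti : X → X)
    (ζ : X → Z) (d : X → D) where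
  Y : Set X
  R : X → X → Prop
  N : X → X → ℝ
  Nc : X → X → ℝ
  Ns : X → X → ℝ
  t : ℕ → X → ℝ
  θ : ℝ
  β : X → X
  Xb : Set X
  c : ℝ
  sig : ℝ → X → ℕ
  C0 : ℕ
  mK : MeasurableSet K
  K0 : μ K ≠ 0
  mY : MeasurableSet Y
  aeY : ∀ᵐ x ∂μ[|K], x ∈ Y
  inv : ∀ x ∈ Y, T x ∈ Y ∧ Ti x ∈ Y ∧ T (Ti x) = x ∧ Ti (T x) = x
  pT : MeasurePreserving T μ[|K] μ[|K]
  pTi : MeasurePreserving Ti μ[|K] μ[|K]
  pβ : MeasurePreserving β μ μ
  mXb : MeasurableSet Xb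
  aeXb : ∀ᵐ x ∂μ, x ∈ Xb
  incr : ∀ x ∈ Y, ∀ y ∈ Y, ζ (T x) = ζ (T y) ↔ ζ x = ζ y ∧ d x = d y
  N0 : ∀ x y, 0 ≤ N x y
  Nc0 : ∀ x y, 0 ≤ Nc x y
  Ns0 : ∀ x y, 0 ≤ Ns x y
  mt : ∀ k, Measurable (t k)
  tge : ∀ x ∈ Y, ∀ k : ℕ, (k : ℝ) ≤ t k x
  tmono : ∀ x ∈ Y, Monotone fun k => t k x
  lln : ∀ᵐ x ∂μ[|K], Tendsto (fun n : ℕ => t n x / n) atTop (𝓝 θ)
  θ0 : 0 < θ
  c0 : 0 < c
  msig : ∀ r, Measurable (sig r)

variable {X Z D W V : Type} [MeasurableSpace X] {μ : Measure X} {K : Set X} {T Ti : X → X}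
  {ζ : X → Z} {d : X → D}

namespace Rate

/-- The function `F` controls all the distortions, up to the exponential rate `ε`. -/
structure Ctl [PseudoMetricSpace W] [PseudoMetricSpace V] (ρ : Rate μ K T Ti ζ d) (s : X → W)
    (al : X → V) (ε : ℝ) (F : X → ℝ) : Prop where
  meas : Measurable F
  one : ∀ x, 1 ≤ F x
  sa : ∀ x ∈ ρ.Y, ∀ y ∈ ρ.Y, ∀ k, (∀ i < k, d (T^[i] x) = d (T^[i] y)) →
    (ρ.R (T^[k] x) (T^[k] y) → ρ.R x y) ∧ (ρ.R x y →
      ρ.Nc (T^[k] x) (T^[k] y) ≤ F x * Real.exp ((1 + ε) * ρ.t k x) * ρ.Nc x y ∧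
      ρ.Ns (T^[k] x) (T^[k] y) ≤ F x * Real.exp ((1 + ε) * ρ.t k x) * ρ.Ns x y ∧
      ρ.N x y ≤ F (T^[k] x) * Real.exp (-(1 - ε) * ρ.t k x) * ρ.N (T^[k] x) (T^[k] y))
  sb : ∀ x ∈ ρ.Xb, ∀ y ∈ ρ.Xb, ∀ m : ℕ, ρ.R (ρ.β^[m] x) (ρ.β^[m] y) → ρ.R x y ∧
    ρ.N x y ≤ F (ρ.β^[m] x) * Real.exp (ε * m) * ρ.N (ρ.β^[m] x) (ρ.β^[m] y) ∧
    ρ.Ns x y ≤ F (ρ.β^[m] x) * Real.exp ((ε - ρ.c) * m) * ρ.N (ρ.β^[m] x) (ρ.β^[m] y) ∧
    ρ.Nc (ρ.β^[m] x) (ρ.β^[m] y) ≤ F x * Real.exp (ε * m) * ρ.N x y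
  atom : ∀ x ∈ ρ.Y, ∀ y ∈ ρ.Y, ζ x = ζ y → ρ.R x y ∧ ρ.N x y ≤ F x
  inner : ∀ x ∈ ρ.Y, ∀ y ∈ ρ.Y, ρ.R x y → F x * ρ.N x y < 1 → ζ x = ζ y
  cellA : ∀ r > 0, ∀ x ∈ ρ.Y, ∀ y ∈ ρ.Y, ζ x = ζ y → ρ.sig r x = ρ.sig r y → ρ.Nc x y ≤ F x * r
  cellB : ∀ r > 0, ∀ x ∈ ρ.Y,
    (ρ.sig r '' {y | y ∈ ρ.Y ∧ ζ x = ζ y ∧ F x * ρ.Nc x y ≤ r}).encard ≤ ρ.C0
  modS : ∀ δ > 0, ∀ B : ℝ, ∃ r > 0, ∀ x ∈ ρ.Y, ∀ y ∈ ρ.Y, ζ x = ζ y → F x ≤ B → ρ.Nc x y ≤ r →
    dist (s x) (s y) ≤ δ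
  modA : ∀ δ > 0, ∀ B : ℝ, ∃ r > 0, ∀ x ∈ ρ.Y, ∀ y ∈ ρ.Y, ζ x = ζ y → F x ≤ B → ρ.Ns x y ≤ r →
    dist (al x) (al y) ≤ δ

variable (ρ : Rate μ K T Ti ζ d)

theorem T_mem {x : X} (hx : x ∈ ρ.Y) (k : ℕ) : T^[k] x ∈ ρ.Y := by
  induction k with
  | zero => exact hx
  | succ k ih => rw [Function.iterate_succ_apply']; exact (ρ.inv _ ih).1

theorem Ti_mem {x : X} (hx : x ∈ ρ.Y) (k : ℕ) : Ti^[k] x ∈ ρ.Y := by
  induction k with
  | zero => exact hx
  | succ k ih => rw [Function.iterate_succ_apply']; exact (ρ.inv _ ih).2.1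

theorem T_Ti {x : X} (hx : x ∈ ρ.Y) (k : ℕ) : T^[k] (Ti^[k] x) = x := by
  induction k with
  | zero => rfl
  | succ k ih =>
    rw [Function.iterate_succ_apply, Function.iterate_succ_apply',
      (ρ.inv _ (ρ.Ti_mem hx k)).2.2.1, ih]

theorem zeta_iter {x y : X} (hx : x ∈ ρ.Y) (hy : y ∈ ρ.Y) (k : ℕ) :
    ζ (T^[k] x) = ζ (T^[k] y) ↔ ζ x = ζ y ∧ ∀ i < k, d (T^[i] x) = d (T^[i] y) := by
  induction k with
  | zero => simp
  | succ k ih =>
    rw [Function.iterate_succ_apply', Function.iterate_succ_apply',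
      ρ.incr _ (ρ.T_mem hx k) _ (ρ.T_mem hy k), ih]
    refine ⟨fun h => ⟨h.1.1, fun i hi => ?_⟩, fun h => ⟨⟨h.1, fun i hi => h.2 i (by omega)⟩,
      h.2 k (by omega)⟩⟩
    rcases Nat.lt_succ_iff_lt_or_eq.1 hi with h1 | rfl
    exacts [h.1.2 i h1, h.2]

variable {ρ} [PseudoMetricSpace W] [PseudoMetricSpace V] {s : X → W} {al : X → V} {ε : ℝ}
  {F : X → ℝ}

theorem mul3_le {a b c a' b' c' : ℝ} (ha : a ≤ a') (hb : b ≤ b') (hc : c ≤ c') (h0 : 0 ≤ a')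
    (h2 : 0 ≤ c) : a * Real.exp b * c ≤ a' * Real.exp b' * c' := by
  have h1 := Real.exp_le_exp.2 hb
  have h3 := Real.exp_pos b
  exact mul_le_mul (mul_le_mul ha h1 h3.le h0) hc h2 (by positivity)

/-- Same cell and same names: the first gauge is small at time `k`. -/
theorem Ctl.estA (h : ρ.Ctl s al ε F) (hε : 0 ≤ ε) {x y : X} (hx : x ∈ ρ.Y) (hy : y ∈ ρ.Y)
    {k : ℕ} {B u r : ℝ} (hr : 0 < r) (hz : ζ x = ζ y) (hs : ρ.sig r x = ρ.sig r y)
    (hd : ∀ i < k, d (T^[i] x) = d (T^[i] y)) (hF : F x ≤ B) (ht : ρ.t k x ≤ u) :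
    ρ.Nc (T^[k] x) (T^[k] y) ≤ B * Real.exp ((1 + ε) * u) * (B * r) :=
  ((h.sa x hx y hy k hd).2 (h.atom x hx y hy hz).1).1.trans
    (mul3_le hF (by nlinarith) ((h.cellA r hr x hx y hy hz hs).trans (by nlinarith))
      (by linarith [h.one x]) (ρ.Nc0 _ _))

/-- Same label after `β^[M]` and same past digits: same label, and the second gauge is small. -/
theorem Ctl.estB (h : ρ.Ctl s al ε F) (hε : ε ≤ 1 / 2) {x y : X} (hx : x ∈ ρ.Y) (hy : y ∈ ρ.Y)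
    (hxb : x ∈ ρ.Xb) (hyb : y ∈ ρ.Xb) {M m : ℕ} {B : ℝ} (hx' : ρ.β^[M] x ∈ ρ.Y)
    (hy' : ρ.β^[M] y ∈ ρ.Y) (hz : ζ (ρ.β^[M] x) = ζ (ρ.β^[M] y))
    (hd : ∀ i < m, d (T^[i] (Ti^[m] x)) = d (T^[i] (Ti^[m] y))) (h1 : F x ≤ B)
    (h2 : F (ρ.β^[M] x) ≤ B) (h3 : F (Ti^[m] x) ≤ B)
    (hsmall : B * (B * Real.exp (-(m / 2)) * (B * Real.exp (ε * M) * B)) < 1) :
    ζ x = ζ y ∧ ρ.Ns x y ≤ B * Real.exp ((ε - ρ.c) * M) * B := by
  have hB : 0 ≤ B := by linarith [h.one x]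
  obtain ⟨hR, hN⟩ := h.atom _ hx' _ hy' hz
  obtain ⟨hR1, b1, b2, -⟩ := h.sb x hxb y hyb M hR
  refine ⟨?_, b2.trans (mul3_le h2 le_rfl (hN.trans h2) hB (ρ.N0 _ _))⟩
  have b3 : ρ.N x y ≤ B * Real.exp (ε * M) * B :=
    b1.trans (mul3_le h2 le_rfl (hN.trans h2) hB (ρ.N0 _ _))
  have hx0 := ρ.Ti_mem hx m
  have hy0 := ρ.Ti_mem hy m
  obtain ⟨a1, a2⟩ := h.sa _ hx0 _ hy0 m hd
  rw [ρ.T_Ti hx, ρ.T_Ti hy] at a1 a2
  have a3 := (a2 (a1 hR1)).2.2
  have a4 := ρ.tge _ hx0 m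
  have a5 : (0 : ℝ) ≤ m := Nat.cast_nonneg m
  have a6 := a3.trans (mul3_le (b' := -(m / 2)) h1 (by nlinarith) b3 hB (ρ.N0 _ _))
  have a7 := h.inner _ hx0 _ hy0 (a1 hR1)
    ((mul_le_mul h3 a6 (ρ.N0 _ _) hB).trans_lt hsmall)
  have a8 := (ρ.zeta_iter hx0 hy0 m).2 ⟨a7, hd⟩
  rwa [ρ.T_Ti hx, ρ.T_Ti hy] at a8

/-- Same label and same names: the second gauge at time `k`. -/
theorem Ctl.estB' (h : ρ.Ctl s al ε F) (hε : 0 ≤ ε) {x y : X} (hx : x ∈ ρ.Y) (hy : y ∈ ρ.Y)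
    {k : ℕ} {B u v : ℝ} (hz : ζ x = ζ y) (hd : ∀ i < k, d (T^[i] x) = d (T^[i] y))
    (hF : F x ≤ B) (ht : ρ.t k x ≤ u) (hv : ρ.Ns x y ≤ v) :
    ρ.Ns (T^[k] x) (T^[k] y) ≤ B * Real.exp ((1 + ε) * u) * v :=
  ((h.sa x hx y hy k hd).2 (h.atom x hx y hy hz).1).2.1.trans
    (mul3_le hF (by nlinarith) hv (by linarith [h.one x]) (ρ.Ns0 _ _))

/-- Same label and same names up to `n`: the first gauge is small after `β^[M]`. -/
theorem Ctl.estC (h : ρ.Ctl s al ε F) (hε : ε ≤ 1) {x y : X} (hx : x ∈ ρ.Y) (hy : y ∈ ρ.Y)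
    (hxb : x ∈ ρ.Xb) (hyb : y ∈ ρ.Xb) {M n : ℕ} {B u : ℝ} (hx' : ρ.β^[M] x ∈ ρ.Y)
    (hy' : ρ.β^[M] y ∈ ρ.Y) (hz' : ζ (ρ.β^[M] x) = ζ (ρ.β^[M] y)) (hz : ζ x = ζ y)
    (hd : ∀ i < n, d (T^[i] x) = d (T^[i] y)) (h1 : F x ≤ B) (h2 : F (ρ.β^[M] x) ≤ B)
    (h3 : F (T^[n] x) ≤ B) (ht : u ≤ ρ.t n x) :
    F (ρ.β^[M] x) * ρ.Nc (ρ.β^[M] x) (ρ.β^[M] y) ≤
      B * (B * Real.exp (ε * M) * (B * Real.exp (-(1 - ε) * u) * B)) := by
  have hB : 0 ≤ B := by linarith [h.one x]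
  have b1 := (h.sb x hxb y hyb M (h.atom _ hx' _ hy' hz').1).2.2.2
  have a1 := ((h.sa x hx y hy n hd).2 (h.atom x hx y hy hz).1).2.2
  have a2 := (h.atom _ (ρ.T_mem hx n) _ (ρ.T_mem hy n) ((ρ.zeta_iter hx hy n).2 ⟨hz, hd⟩)).2
  have a3 := a1.trans (mul3_le (b' := -(1 - ε) * u) h3 (by nlinarith) (a2.trans h3) hB
    (ρ.N0 _ _))
  exact mul_le_mul h2 (b1.trans (mul3_le h1 le_rfl a3 hB (ρ.N0 _ _))) (ρ.Nc0 _ _) hB

end Rate

end Pool.Agent.P.MP_d483fb_an.Z.PS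


end

section

/-!
Good sets of large measure on which equal labels force small gauges.
-/

namespace Pool.Agent.P.MP_d483fb_an.Z.PS

open MeasureTheory Filter Set Topology ProbabilityTheory
open scoped ENNReal

variable {X Z D W V : Type} [MeasurableSpace X] {μ : Measure X} {K : Set X} {T Ti : X → X}
  {ζ : X → Z} {d : X → D}

theorem eventually_mul_exp_lt (A : ℝ) {r : ℝ} (hr : 0 < r) {u : ℕ → ℝ}
    (hu : Tendsto u atTop atTop) : ∀ᶠ n in atTop, A * Real.exp (-u n) < r := by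
  have h := (Real.tendsto_exp_neg_atTop_nhds_zero.comp hu).const_mul A
  rw [mul_zero] at h
  exact h.eventually (gt_mem_nhds hr)

namespace Rate

variable (ρ : Rate μ K T Ti ζ d)

/-- The points of `K` which are sent to `K` by `β^[M]`. -/
def KM (M : ℕ) : Set X := K ∩ ρ.β^[M] ⁻¹' K

theorem mKM (M : ℕ) : MeasurableSet (ρ.KM M) := ρ.mK.inter ((ρ.pβ.iterate M).measurable ρ.mK)

theorem cond_pull (M : ℕ) {S : Set X} (hS : MeasurableSet S) :
    μ[|K] (ρ.KM M ∩ ρ.β^[M] ⁻¹' S) ≤ μ[|K] S := by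
  rw [cond_apply ρ.mK, cond_apply ρ.mK,
    ← (ρ.pβ.iterate M).measure_preimage (ρ.mK.inter hS).nullMeasurableSet]
  refine mul_le_mul_right (measure_mono ?_) _
  exact fun x hx => ⟨hx.2.1.2, hx.2.2⟩

/-- The points with controlled distortion at the time `k` and typical return times. -/
def GoodA (F : X → ℝ) (B γ : ℝ) (n k : ℕ) : Set X :=
  {x | x ∈ ρ.Y ∧ F x ≤ B ∧ F (T^[k] x) ≤ B ∧ |ρ.t n x / n - ρ.θ| < γ * ρ.θ}

/-- The points of `GoodA` with controlled distortion after `β^[M]` and in the past. -/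
def GoodB (F : X → ℝ) (B γ : ℝ) (n k M m : ℕ) : Set X :=
  {x | x ∈ ρ.GoodA F B γ n k ∧ x ∈ ρ.Xb ∧ ρ.β^[M] x ∈ ρ.Y ∧ F (ρ.β^[M] x) ≤ B ∧ F (Ti^[m] x) ≤ B}

variable {F : X → ℝ}

theorem mGoodA (hF : Measurable F) (B γ : ℝ) (n k : ℕ) : MeasurableSet (ρ.GoodA F B γ n k) :=
  ρ.mY.inter <| (measurableSet_le hF measurable_const).inter <|
    (measurableSet_le (hF.comp (ρ.pT.iterate k).measurable) measurable_const).inter <|
      measurableSet_lt (((ρ.mt n).div_const _).sub_const _).abs measurable_const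

theorem mGoodB (hF : Measurable F) (B γ : ℝ) (n k M m : ℕ) :
    MeasurableSet (ρ.GoodB F B γ n k M m) :=
  (ρ.mGoodA hF B γ n k).inter <| ρ.mXb.inter <| ((ρ.pβ.iterate M).measurable ρ.mY).inter <|
    (measurableSet_le (hF.comp (ρ.pβ.iterate M).measurable) measurable_const).inter <|
      measurableSet_le (hF.comp (ρ.pTi.iterate m).measurable) measurable_const

variable [IsProbabilityMeasure μ]

omit [IsProbabilityMeasure μ] in
theorem goodA_bound (hF : Measurable F) (B γ : ℝ) (n k : ℕ) :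
    (μ[|K]).real (ρ.GoodA F B γ n k)ᶜ ≤ 2 * (μ[|K]).real {x | B < F x} +
      (μ[|K]).real {x | γ * ρ.θ ≤ |ρ.t n x / n - ρ.θ|} := by
  have hm : MeasurableSet {x | B < F x} := measurableSet_lt measurable_const hF
  have h1 : (μ[|K]).real (ρ.GoodA F B γ n k)ᶜ ≤ (μ[|K]).real (({x | B < F x} ∪
      T^[k] ⁻¹' {x | B < F x}) ∪ {x | γ * ρ.θ ≤ |ρ.t n x / n - ρ.θ|}) := by
    refine ENNReal.toReal_mono (measure_ne_top _ _) (measure_mono_ae ?_)
    filter_upwards [ρ.aeY] with x hx h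
    by_contra hc
    have c1 := not_or.1 hc
    have c2 := not_or.1 c1.1
    exact h ⟨hx, not_lt.1 c2.1, not_lt.1 c2.2, not_le.1 c1.2⟩
  have h2 := (ρ.pT.iterate k).measureReal_preimage hm.nullMeasurableSet
  have h3 := measureReal_union_le (μ := μ[|K]) {x | B < F x} (T^[k] ⁻¹' {x | B < F x})
  linarith [measureReal_union_le (μ := μ[|K]) ({x | B < F x} ∪ T^[k] ⁻¹' {x | B < F x})
    {x | γ * ρ.θ ≤ |ρ.t n x / n - ρ.θ|}]

theorem goodB_bound (hF : Measurable F) (B γ : ℝ) (n k M m : ℕ) :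
    (μ[|K]).real (ρ.KM M \ ρ.GoodB F B γ n k M m) ≤ 4 * (μ[|K]).real {x | B < F x} +
      (μ[|K]).real {x | γ * ρ.θ ≤ |ρ.t n x / n - ρ.θ|} := by
  have hm : MeasurableSet {x | B < F x} := measurableSet_lt measurable_const hF
  have h0 : ∀ᵐ x ∂μ[|K], x ∉ ρ.KM M ∩ ρ.β^[M] ⁻¹' ρ.Yᶜ :=
    measure_eq_zero_iff_ae_notMem.1
      (le_zero_iff.1 ((ρ.cond_pull M ρ.mY.compl).trans_eq (ae_iff.1 ρ.aeY)))
  have h1 : (μ[|K]).real (ρ.KM M \ ρ.GoodB F B γ n k M m) ≤ (μ[|K]).real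
      (((ρ.GoodA F B γ n k)ᶜ ∪ ρ.KM M ∩ ρ.β^[M] ⁻¹' {x | B < F x}) ∪
        Ti^[m] ⁻¹' {x | B < F x}) := by
    refine ENNReal.toReal_mono (measure_ne_top _ _) (measure_mono_ae ?_)
    filter_upwards [h0, (cond_absolutelyContinuous (μ := μ) (s := K)).ae_le ρ.aeXb]
      with x hx hb h
    by_contra hc
    have c1 := not_or.1 hc
    have c2 := not_or.1 c1.1
    refine h.2 ⟨not_not.1 c2.1, hb, ?_, not_lt.1 fun h' => c2.2 ⟨h.1, h'⟩, not_lt.1 c1.2⟩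
    by_contra h'
    exact hx ⟨h.1, h'⟩
  have h2 := (ρ.pTi.iterate m).measureReal_preimage hm.nullMeasurableSet
  have h3 := measureReal_union_le (μ := μ[|K]) (ρ.GoodA F B γ n k)ᶜ
    (ρ.KM M ∩ ρ.β^[M] ⁻¹' {x | B < F x})
  have h4 : (μ[|K]).real (ρ.KM M ∩ ρ.β^[M] ⁻¹' {x | B < F x}) ≤ (μ[|K]).real {x | B < F x} :=
    ENNReal.toReal_mono (measure_ne_top _ _) (ρ.cond_pull M hm)
  linarith [measureReal_union_le (μ := μ[|K])
    ((ρ.GoodA F B γ n k)ᶜ ∪ ρ.KM M ∩ ρ.β^[M] ⁻¹' {x | B < F x}) (Ti^[m] ⁻¹' {x | B < F x}),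
    ρ.goodA_bound hF B γ n k]

theorem exists_good (hF : Measurable F) {γ η : ℝ} (hγ : 0 < γ) (hη : 0 < η) : ∃ B : ℝ, 1 ≤ B ∧
    ∀ᶠ n in atTop, ∀ k, (μ[|K]).real (ρ.GoodA F B γ n k)ᶜ ≤ η ∧
      ∀ M m, (μ[|K]).real (ρ.KM M \ ρ.GoodB F B γ n k M m) ≤ η := by
  obtain ⟨B, hB, h⟩ := exists_bound μ[|K] hF (η := η / 5) (by positivity)
  refine ⟨B, hB, ?_⟩
  filter_upwards [eventually_near μ[|K] (f := fun n x => ρ.t n x / n)
    (fun n => (ρ.mt n).div_const _) (mul_pos hγ ρ.θ0) (η := η / 5) (by positivity) ρ.lln]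
    with n hn k
  exact ⟨by linarith [ρ.goodA_bound hF B γ n k],
    fun M m => by linarith [ρ.goodB_bound hF B γ n k M m]⟩

omit [IsProbabilityMeasure μ] in
theorem GoodA.t_le {B γ : ℝ} {n k : ℕ} {x : X} (hx : x ∈ ρ.GoodA F B γ n k) (hn : 0 < n) :
    (1 - γ) * ρ.θ * n ≤ ρ.t n x ∧ ∀ i ≤ n, ρ.t i x ≤ (1 + γ) * ρ.θ * n := by
  have h0 : (0 : ℝ) < n := Nat.cast_pos.2 hn
  obtain ⟨h1, h2⟩ := abs_lt.1 hx.2.2.2
  refine ⟨?_, fun i hi => (ρ.tmono x hx.1 hi).trans ?_⟩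
  · rw [← le_div_iff₀ h0]
    linarith
  · rw [← div_le_iff₀ h0]
    linarith

variable {ρ} [PseudoMetricSpace W] [PseudoMetricSpace V] {s : X → W} {al : X → V} {ε : ℝ}

/-- Points with the same cell at the scale `exp (-(1 + 3 γ) θ n)` have close `s` along names. -/
theorem Ctl.nearA (h : ρ.Ctl s al ε F) (hε : 0 ≤ ε) {γ : ℝ} (hγ : 0 < γ) (h1 : ε ≤ γ)
    (h2 : γ ≤ 1 / 2) {δ η : ℝ} (hδ : 0 < δ) (hη : 0 < η) : ∀ᶠ n : ℕ in atTop, ∀ k < n,
      ∃ G, MeasurableSet G ∧ (μ[|K]).real Gᶜ ≤ η ∧ ∀ x ∈ G, ∀ y ∈ G, ζ x = ζ y →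
        ρ.sig (Real.exp (-((1 + 3 * γ) * ρ.θ * n))) x =
          ρ.sig (Real.exp (-((1 + 3 * γ) * ρ.θ * n))) y →
        (∀ i < k, d (T^[i] x) = d (T^[i] y)) →
        ζ (T^[k] x) = ζ (T^[k] y) ∧ dist (s (T^[k] x)) (s (T^[k] y)) ≤ δ := by
  obtain ⟨B, hB, hg⟩ := ρ.exists_good h.meas hγ hη
  obtain ⟨r, hr, hs⟩ := h.modS δ hδ B
  have hθ := ρ.θ0
  have hu : Tendsto (fun n : ℕ => γ / 2 * ρ.θ * n) atTop atTop :=
    tendsto_natCast_atTop_atTop.const_mul_atTop (by positivity)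
  filter_upwards [hg, eventually_mul_exp_lt (B * B) hr hu] with n g1 g2 k hk
  refine ⟨_, ρ.mGoodA h.meas B γ n k, (g1 k).1, fun x hx y hy hz hc hd => ?_⟩
  have hz' := (ρ.zeta_iter hx.1 hy.1 k).2 ⟨hz, hd⟩
  refine ⟨hz', hs _ (ρ.T_mem hx.1 k) _ (ρ.T_mem hy.1 k) hz' hx.2.2.1 ?_⟩
  refine (h.estA hε hx.1 hy.1 (Real.exp_pos _) hz hc hd hx.2.1
    ((GoodA.t_le ρ hx (by omega)).2 k hk.le)).trans (le_trans ?_ g2.le)
  have e : ∀ a b : ℝ, B * Real.exp a * (B * Real.exp b) = B * B * Real.exp (a + b) := fun a b => by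
    rw [Real.exp_add]; ring
  rw [e]
  refine mul_le_mul_of_nonneg_left (Real.exp_le_exp.2 ?_) (by positivity)
  have a1 : 0 ≤ ρ.θ * n := by positivity
  have a2 : (1 + ε) * (1 + γ) ≤ 1 + 5 / 2 * γ := by nlinarith
  nlinarith

omit [IsProbabilityMeasure μ] in
theorem small_past {M m : ℕ → ℕ} (hm : Tendsto m atTop atTop)
    (hM : ∀ n, ε * M n ≤ m n / 4) (B : ℝ) (hB : 1 ≤ B) : ∀ᶠ n in atTop,
      B * (B * Real.exp (-(m n / 2)) * (B * Real.exp (ε * M n) * B)) < 1 := by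
  have hu : Tendsto (fun n : ℕ => (m n : ℝ) / 4) atTop atTop :=
    (tendsto_natCast_atTop_atTop.comp hm).atTop_div_const (by norm_num)
  filter_upwards [eventually_mul_exp_lt (B ^ 4) one_pos hu] with n hn
  refine lt_of_le_of_lt ?_ hn
  have e : ∀ a b : ℝ, B * (B * Real.exp a * (B * Real.exp b * B)) = B ^ 4 * Real.exp (a + b) :=
    fun a b => by rw [Real.exp_add]; ring
  rw [e]
  exact mul_le_mul_of_nonneg_left (Real.exp_le_exp.2 (by linarith [hM n])) (by positivity)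

/-- Points with the same label after `β^[M]` and the same past have close `al` along names. -/
theorem Ctl.nearB (h : ρ.Ctl s al ε F) (hε : 0 ≤ ε) (h1 : ε ≤ 1 / 2) {M m : ℕ → ℕ}
    (hm : Tendsto m atTop atTop) (hM : ∀ n, ε * M n ≤ m n / 4)
    (hM' : ∀ᶠ n : ℕ in atTop, (4 * ρ.θ + 1) * n ≤ (ρ.c - ε) * M n) {δ η : ℝ} (hδ : 0 < δ)
    (hη : 0 < η) : ∀ᶠ n : ℕ in atTop, ∀ k < n,
      ∃ G, MeasurableSet G ∧ (μ[|K]).real (ρ.KM (M n) \ G) ≤ η ∧ ∀ x ∈ G, ∀ y ∈ G,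
        ζ (ρ.β^[M n] x) = ζ (ρ.β^[M n] y) →
        (∀ i < m n, d (T^[i] (Ti^[m n] x)) = d (T^[i] (Ti^[m n] y))) →
        (∀ i < k, d (T^[i] x) = d (T^[i] y)) →
        ζ (T^[k] x) = ζ (T^[k] y) ∧ dist (al (T^[k] x)) (al (T^[k] y)) ≤ δ := by
  obtain ⟨B, hB, hg⟩ := ρ.exists_good h.meas one_pos hη
  obtain ⟨r, hr, hs⟩ := h.modA δ hδ B
  have hθ := ρ.θ0
  filter_upwards [hg, eventually_mul_exp_lt (B ^ 3) hr tendsto_natCast_atTop_atTop,
    small_past hm hM B hB, hM'] with n g1 g2 g3 g4 k hk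
  refine ⟨_, ρ.mGoodB h.meas B 1 n k (M n) (m n), (g1 k).2 _ _, fun x hx y hy hz hp hd => ?_⟩
  obtain ⟨a1, a2⟩ := h.estB h1 hx.1.1 hy.1.1 hx.2.1 hy.2.1 hx.2.2.1 hy.2.2.1 hz hp hx.1.2.1
    hx.2.2.2.1 hx.2.2.2.2 g3
  have hz' := (ρ.zeta_iter hx.1.1 hy.1.1 k).2 ⟨a1, hd⟩
  refine ⟨hz', hs _ (ρ.T_mem hx.1.1 k) _ (ρ.T_mem hy.1.1 k) hz' hx.1.2.2.1 ?_⟩
  refine (h.estB' hε hx.1.1 hy.1.1 a1 hd hx.1.2.1
    ((GoodA.t_le ρ hx.1 (by omega)).2 k hk.le) a2).trans (le_trans ?_ g2.le)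
  have e : ∀ a b : ℝ, B * Real.exp a * (B * Real.exp b * B) = B ^ 3 * Real.exp (a + b) :=
    fun a b => by rw [Real.exp_add]; ring
  rw [e]
  refine mul_le_mul_of_nonneg_left (Real.exp_le_exp.2 ?_) (by positivity)
  have a3 : 0 ≤ ρ.θ * n := by positivity
  nlinarith

/-- Points with the same label after `β^[M]`, the same past and the same names have boundedly
many cells after `β^[M]`. -/
theorem Ctl.countC (h : ρ.Ctl s al ε F) (h1 : ε ≤ 1 / 2) {γ : ℝ} (hγ : 0 < γ) {n M m : ℕ → ℕ}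
    {u : ℕ → ℝ} (hn : Tendsto n atTop atTop) (hm : Tendsto m atTop atTop)
    (hM : ∀ j, ε * M j ≤ m j / 4)
    (hu : Tendsto (fun j => (1 - ε) * ((1 - γ) * ρ.θ * n j) - ε * M j - u j) atTop atTop)
    {η : ℝ} (hη : 0 < η) : ∀ᶠ j : ℕ in atTop,
      ∃ G, MeasurableSet G ∧ (μ[|K]).real (ρ.KM (M j) \ G) ≤ η ∧ ∀ x ∈ G,
        ((fun y => ρ.sig (Real.exp (-u j)) (ρ.β^[M j] y)) '' {y | y ∈ G ∧
          ζ (ρ.β^[M j] x) = ζ (ρ.β^[M j] y) ∧
          (∀ i < m j, d (T^[i] (Ti^[m j] x)) = d (T^[i] (Ti^[m j] y))) ∧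
          ∀ i < n j, d (T^[i] x) = d (T^[i] y)}).encard ≤ ρ.C0 := by
  obtain ⟨B, hB, hg⟩ := ρ.exists_good h.meas hγ hη
  filter_upwards [hn.eventually hg, eventually_mul_exp_lt (B ^ 4) one_pos hu,
    small_past hm hM B hB, hn.eventually (eventually_gt_atTop 0)] with j g1 g2 g3 g4
  refine ⟨_, ρ.mGoodB h.meas B γ (n j) (n j) (M j) (m j), (g1 _).2 _ _, fun x hx => ?_⟩
  refine le_trans (encard_le_encard ?_) (h.cellB _ (Real.exp_pos (-u j)) _ hx.2.2.1)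
  rintro _ ⟨y, ⟨hy, hz, hp, hd⟩, rfl⟩
  refine ⟨_, ⟨hy.2.2.1, hz, ?_⟩, rfl⟩
  have a1 := (h.estB h1 hx.1.1 hy.1.1 hx.2.1 hy.2.1 hx.2.2.1 hy.2.2.1 hz hp hx.1.2.1
    hx.2.2.2.1 hx.2.2.2.2 g3).1
  refine (h.estC (by linarith) hx.1.1 hy.1.1 hx.2.1 hy.2.1 hx.2.2.1 hy.2.2.1 hz a1 hd hx.1.2.1
    hx.2.2.2.1 hx.1.2.2.1 (GoodA.t_le ρ hx.1 g4).1).trans ?_
  have e : ∀ a b c : ℝ, B * (B * Real.exp a * (B * Real.exp b * B)) =
      B ^ 4 * Real.exp (a + b + c) * Real.exp (-c) := fun a b c => by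
    rw [mul_assoc (B ^ 4), ← Real.exp_add, add_neg_cancel_right, Real.exp_add]; ring
  rw [e _ _ (u j)]
  refine mul_le_of_le_one_left (Real.exp_pos _).le (le_trans (le_of_eq ?_) g2.le)
  congr 2
  ring

end Rate

end Pool.Agent.P.MP_d483fb_an.Z.PS


end

section

/-!
The lower bound for the information of names given the label after `β^[M]` and the past digits.
-/

namespace Pool.Agent.P.MP_d483fb_an.Z.PS

open MeasureTheory Filter Set Topology ProbabilityTheory Ent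
open scoped ENNReal

theorem lusin_pair {Z W : Type*} [TopologicalSpace Z] [T2Space Z] [MetricSpace W] :
    LusinRel fun (δ : ℝ) (p q : Z × W) => p.1 = q.1 ∧ dist p.2 q.2 ≤ δ := by
  refine ⟨fun δ δ' _ h p q hp => ⟨hp.1, hp.2.trans h⟩, fun Q Q' hQ hQ' hd => ?_⟩
  have hc : IsCompact (Q ×ˢ Q' ∩ {p : (Z × W) × Z × W | p.1.1 = p.2.1}) :=
    (hQ.prod hQ').inter_right (isClosed_eq (by fun_prop) (by fun_prop))
  obtain ⟨a, ha, h⟩ := hc.exists_forall_le' (f := fun p => dist p.1.2 p.2.2) (a := 0)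
    (by fun_prop) fun p hp => dist_pos.2 fun e =>
      disjoint_left.1 hd hp.1.1 ((Prod.ext hp.2 e : p.1 = p.2) ▸ hp.1.2)
  exact ⟨a / 2, by positivity, fun z hz z' hz' hr => by
    linarith [h (z, z') ⟨⟨hz, hz'⟩, hr.1⟩, hr.2]⟩

theorem ae_fibre_pos {X E : Type*} [MeasurableSpace X] [Countable E] (ν : Measure X)
    [IsFiniteMeasure ν] (e : X → E) : ∀ᵐ x ∂ν, 0 < ν.real {y | e y = e x} := by
  have h : ∀ i : E, ∀ᵐ x ∂ν, e x = i → 0 < ν.real {y | e y = i} := fun i => by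
    by_cases h0 : ν {y | e y = i} = 0
    · filter_upwards [measure_eq_zero_iff_ae_notMem.1 h0] with x hx h using absurd h hx
    · exact Eventually.of_forall fun _ _ => ENNReal.toReal_pos h0 (measure_ne_top _ _)
  filter_upwards [ae_all_iff.2 h] with x hx using hx _ rfl

variable {X Z D : Type} [MeasurableSpace X] [StandardBorelSpace X] [Nonempty X]
  [MeasurableSpace Z] [StandardBorelSpace Z]
  [MeasurableSpace D] [Countable D] [MeasurableSingletonClass D]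
  {μ : Measure X} [IsProbabilityMeasure μ] {K : Set X} {T Ti : X → X} {ζ : X → Z} {d : X → D}

omit [StandardBorelSpace Z] in
theorem Ic_measure {E : Type*} {ν ν' : Measure X} [IsFiniteMeasure ν] [IsFiniteMeasure ν']
    (h : ν = ν') (f : X → E) (g : X → Z) : Ic ν f g = Ic ν' f g := by
  subst h
  rfl

/-- Three applications of the chain rule. -/
theorem Ic_three {E E' : Type*} [MeasurableSpace E] [Countable E] [MeasurableSingletonClass E]
    [MeasurableSpace E'] [Countable E'] [MeasurableSingletonClass E'] (ν : Measure X)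
    [IsFiniteMeasure ν] {g : X → Z} {f : X → D} {e : X → E} {σ : X → E'} (hg : Measurable g)
    (hf : Measurable f) (he : Measurable e) (hσ : Measurable σ) : ∀ᵐ x ∂ν,
      Ic ν σ g x ≤ Ic ν f g x + Ic ν e (pr2 g f) x + Ic ν σ (pr2 (pr2 g f) e) x := by
  filter_upwards [Ic_pair (μ := ν) hf hσ hg, Ic_pair (μ := ν) he hσ (hg.prodMk hf),
    Ic_mono (μ := ν) (e := σ) (hf.prodMk hσ) hg
      (Det.of_forall fun x y h => congrArg (fun p => p.2.2) h),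
    Ic_mono (μ := ν) (e := σ) (he.prodMk hσ) (hg.prodMk hf)
      (Det.of_forall fun x y h => congrArg (fun p => p.2.2) h)] with x h1 h2 h3 h4
  have e1 : Ic ν σ g x ≤ Ic ν (pr2 f σ) g x := h3
  have e2 : Ic ν σ (pr2 g f) x ≤ Ic ν (pr2 e σ) (pr2 g f) x := h4
  have e3 : Ic ν (pr2 e σ) (pr2 g f) x = Ic ν e (pr2 g f) x + Ic ν σ (pr2 (pr2 g f) e) x := h2
  linarith

namespace Rate

variable (ρ : Rate μ K T Ti ζ d)

/-- Membership in `KM` and the past digits. -/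
def past (M m : ℕ) (x : X) : Prop × (Fin m → D) := (x ∈ ρ.KM M, names T d m (Ti^[m] x))

/-- The label after `β^[M]` together with the past digits. -/
def lab (M m : ℕ) : X → Z × Prop × (Fin m → D) := pr2 (ζ ∘ ρ.β^[M]) (ρ.past M m)

omit [StandardBorelSpace X] [Nonempty X] [MeasurableSpace Z] [StandardBorelSpace Z] [Countable D]
  [MeasurableSingletonClass D] [IsProbabilityMeasure μ] in
theorem mpast (hd : Measurable d) (M m : ℕ) : Measurable (ρ.past M m) :=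
  (ρ.mKM M).mem.prodMk
    ((measurable_names ρ.pT.measurable hd m).comp (ρ.pTi.iterate m).measurable)

omit [StandardBorelSpace X] [Nonempty X] [StandardBorelSpace Z] [Countable D]
  [MeasurableSingletonClass D] [IsProbabilityMeasure μ] in
theorem mlab (hζ : Measurable ζ) (hd : Measurable d) (M m : ℕ) : Measurable (ρ.lab M m) :=
  (hζ.comp (ρ.pβ.iterate M).measurable).prodMk (ρ.mpast hd M m)

omit [StandardBorelSpace X] [Nonempty X] [MeasurableSpace Z] [StandardBorelSpace Z] [Countable D]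
  [MeasurableSpace D] [MeasurableSingletonClass D] [IsProbabilityMeasure μ] in
theorem sat_lab (ν : Measure X) (M m : ℕ) : Sat ν (ρ.lab M m) (ρ.KM M) :=
  Det.of_forall fun _ _ h => congrArg (fun p => p.2.1) h

omit [StandardBorelSpace X] [Nonempty X] [MeasurableSpace Z] [StandardBorelSpace Z] [Countable D]
  [MeasurableSpace D] [MeasurableSingletonClass D] [IsProbabilityMeasure μ] in
theorem lab_eq {M m : ℕ} {x y : X} (h : ρ.lab M m x = ρ.lab M m y) :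
    ζ (ρ.β^[M] x) = ζ (ρ.β^[M] y) ∧ ∀ i < m, d (T^[i] (Ti^[m] x)) = d (T^[i] (Ti^[m] y)) :=
  ⟨congrArg (fun p => p.1) h, names_eq_iff.1 (congrArg (fun p => p.2.2) h)⟩

omit [StandardBorelSpace X] [Nonempty X] [MeasurableSpace Z] [StandardBorelSpace Z] [Countable D]
  [MeasurableSpace D] [MeasurableSingletonClass D] [IsProbabilityMeasure μ] in
theorem pres_cond (M : ℕ) : MeasurePreserving ρ.β^[M] μ[|ρ.β^[M] ⁻¹' K] μ[|K] := by
  have h := ρ.pβ.iterate M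
  refine ⟨h.measurable, ?_⟩
  rw [ProbabilityTheory.cond, ProbabilityTheory.cond, Measure.map_smul,
    (h.restrict_preimage ρ.mK).map_eq, h.measure_preimage ρ.mK.nullMeasurableSet]

omit [StandardBorelSpace X] [Nonempty X] [MeasurableSpace Z] [StandardBorelSpace Z] [Countable D]
  [MeasurableSpace D] [MeasurableSingletonClass D] [IsProbabilityMeasure μ] in
theorem restrict_KM (M : ℕ) :
    (μ[|K]).restrict (ρ.KM M) = (μ[|ρ.β^[M] ⁻¹' K]).restrict (ρ.KM M) := by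
  rw [ProbabilityTheory.cond, ProbabilityTheory.cond, Measure.restrict_smul, Measure.restrict_smul,
    Measure.restrict_restrict (ρ.mKM M), Measure.restrict_restrict (ρ.mKM M),
    (ρ.pβ.iterate M).measure_preimage ρ.mK.nullMeasurableSet,
    inter_eq_self_of_subset_left (show ρ.KM M ⊆ K from inter_subset_left),
    inter_eq_self_of_subset_left (show ρ.KM M ⊆ _ from inter_subset_right)]

/-- The lower bound off five small sets. -/
theorem lower (hζ : Measurable ζ) (hd : Measurable d) (hH : FinEnt μ[|K] d) (n M m : ℕ) (r : ℝ)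
    {G : Set X} (hG : MeasurableSet G)
    (hc : ∀ x ∈ G, ((fun y => ρ.sig r (ρ.β^[M] y)) '' {y | y ∈ G ∧ ζ (ρ.β^[M] x) = ζ (ρ.β^[M] y) ∧
      (∀ i < m, d (T^[i] (Ti^[m] x)) = d (T^[i] (Ti^[m] y))) ∧
      ∀ i < n, d (T^[i] x) = d (T^[i] y)}).encard ≤ ρ.C0)
    {η : ℝ} (hη : 0 < η) (t L : ℝ) (hm : 0 < m) :
    ((μ[|K]).restrict (ρ.KM M)).real {x | Ic μ[|K] (names T d n) (ρ.lab M m) x <
      L - m * (H0 μ[|K] d + 1) / η - 2 * t - Real.log (ρ.C0 + 1)} ≤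
      (μ[|K]).real (ρ.KM M \ G) + (μ[|K]).real {x | Ic μ[|K] (ρ.sig r) ζ x < L} +
        2 * Real.exp (-t) + η := by
  classical
  have := cond_isProbabilityMeasure (μ := μ) ρ.K0
  have hβ := ρ.pres_cond M
  have : IsProbabilityMeasure μ[|ρ.β^[M] ⁻¹' K] := cond_isProbabilityMeasure (by
    rw [(ρ.pβ.iterate M).measure_preimage ρ.mK.nullMeasurableSet]; exact ρ.K0)
  set ν := μ[|K] with hν
  set ν' := μ[|ρ.β^[M] ⁻¹' K] with hν'
  have hr : ν.restrict (ρ.KM M) = ν'.restrict (ρ.KM M) := ρ.restrict_KM M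
  have hl := ρ.mlab hζ hd M m
  have hp := ρ.mpast hd M m
  have hn := measurable_names ρ.pT.measurable hd
  have hσ : Measurable (ρ.sig r ∘ ρ.β^[M]) := (ρ.msig r).comp hβ.measurable
  have hB : Measurable (ζ ∘ ρ.β^[M]) := hζ.comp hβ.measurable
  -- the weights
  let q : X → Prop × (Fin m → D) → ℝ := fun _ i =>
    if i.1 then ν.real {y | names T d m y = i.2} else 0
  have hq : Wts ν' (ζ ∘ ρ.β^[M]) q := by
    refine ⟨fun _ => measurable_const, fun x i => ?_, Det.of_forall fun _ _ _ => rfl,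
      Eventually.of_forall fun x s => ?_⟩
    · simp only [q]
      split_ifs
      exacts [measureReal_nonneg, le_rfl]
    · simp only [q]
      rw [← Finset.sum_filter, ← measureReal_biUnion_finset]
      · exact measureReal_le_one
      · intro i hi j hj hij
        refine disjoint_left.2 fun y h1 h2 => hij (Prod.ext ?_ (h1.symm.trans h2))
        exact propext (iff_of_true (Finset.mem_filter.1 hi).2 (Finset.mem_filter.1 hj).2)
      · exact fun i _ => hn m (measurableSet_singleton _)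
  have b4 := meas_Ic_gt hp hB hq t
  have b3 := meas_count (μ := ν') (g := pr2 (ρ.lab M m) (names T d n)) hσ (hl.prodMk (hn n)) hG
    (Q := ρ.C0 + 1) (by positivity) (fun z => by
      by_cases h : ∃ x ∈ G, pr2 (ρ.lab M m) (names T d n) x = z
      · obtain ⟨x, hx, rfl⟩ := h
        have hf := finite_of_encard_le_coe (hc x hx)
        refine ⟨hf.toFinset, ?_, fun y hy e => hf.mem_toFinset.2 ⟨y, ⟨hy, ?_⟩, rfl⟩⟩
        · have h1 := hc x hx
          rw [hf.encard_eq_coe_toFinset_card, Nat.cast_le] at h1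
          exact_mod_cast h1.trans (Nat.le_succ _)
        · have e1 := ρ.lab_eq (congrArg Prod.fst e).symm
          exact ⟨e1.1, e1.2, names_eq_iff.1 (congrArg Prod.snd e).symm⟩
      · exact ⟨∅, by simp; positivity, fun y hy e => absurd ⟨y, hy, e⟩ h⟩) t
  rw [probReal_univ, mul_one] at b3 b4
  -- Markov for the past digits
  obtain ⟨f1, f2⟩ := hH.names ρ.pT hd m
  have hI0 : ∀ (x : X), 0 ≤ I0 ν (names T d m) x := fun x =>
    neg_nonneg.2 (Real.log_nonpos measureReal_nonneg measureReal_le_one)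
  have hH0 : 0 ≤ H0 ν d := integral_nonneg fun x =>
    neg_nonneg.2 (Real.log_nonpos measureReal_nonneg measureReal_le_one)
  have hm0 : (0 : ℝ) < m := Nat.cast_pos.2 hm
  have b5 : ν.real (Ti^[m] ⁻¹' {x | m * (H0 ν d + 1) / η ≤ I0 ν (names T d m) x}) ≤ η := by
    rw [(ρ.pTi.iterate m).measureReal_preimage
      (nullMeasurableSet_le aemeasurable_const f1.aemeasurable)]
    have h1 := mul_meas_ge_le_integral_of_nonneg (Eventually.of_forall hI0) f1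
      (m * (H0 ν d + 1) / η)
    have h2 : (0 : ℝ) < m * (H0 ν d + 1) := by positivity
    rw [div_mul_eq_mul_div, div_le_iff₀ hη] at h1
    have h3 : ∫ x, I0 ν (names T d m) x ∂ν ≤ m * (H0 ν d + 1) := f2.trans (by nlinarith)
    exact le_of_mul_le_mul_left (h1.trans (mul_le_mul_of_nonneg_right h3 hη.le)) h2
  have hm2 : MeasurableSet {x | Ic ν (ρ.sig r) ζ x < L} :=
    measurableSet_lt (measurable_Ic (ρ.msig r) hζ) measurable_const
  have b2 : (ν.restrict (ρ.KM M)).real (ρ.β^[M] ⁻¹' {x | Ic ν (ρ.sig r) ζ x < L}) ≤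
      ν.real {x | Ic ν (ρ.sig r) ζ x < L} := by
    rw [measureReal_restrict_apply' (ρ.mKM M), inter_comm]
    exact ENNReal.toReal_mono (measure_ne_top _ _) (ρ.cond_pull M hm2)
  have b1 : (ν.restrict (ρ.KM M)).real Gᶜ = ν.real (ρ.KM M \ G) := by
    rw [measureReal_restrict_apply' (ρ.mKM M), inter_comm, sdiff_eq]
  have r1 : ∀ A, (ν.restrict (ρ.KM M)).real A ≤ ν.real A := fun A =>
    ENNReal.toReal_mono (measure_ne_top _ _) (Measure.restrict_le_self A)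
  have r2 : ∀ A, (ν.restrict (ρ.KM M)).real A ≤ ν'.real A := fun A => by
    rw [hr]
    exact ENNReal.toReal_mono (measure_ne_top _ _) (Measure.restrict_le_self A)
  have a1 : ∀ᵐ x ∂ν.restrict (ρ.KM M), Ic ν (names T d n) (ρ.lab M m) x =
      Ic ν' (names T d n) (ρ.lab M m) x := by
    have c1 := Ic_restrict hl (ρ.mKM M) (ρ.sat_lab ν M m) (names T d n)
    have c2 := Ic_restrict hl (ρ.mKM M) (ρ.sat_lab ν' M m) (names T d n)
    rw [← Ic_measure hr, ← hr] at c2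
    filter_upwards [c1, c2] with x h1 h2 using h1.symm.trans h2
  have a2 := ae_restrict_of_ae (s := ρ.KM M)
    ((Ic_three ν' hB hp (hn n) hσ).and (Ic_comp hβ (ρ.msig r) hζ))
  rw [← hr] at a2
  have a3 := ae_restrict_of_ae (s := ρ.KM M)
    ((ρ.pTi.iterate m).quasiMeasurePreserving.ae (ae_fibre_pos ν (names T d m)))
  set A1 := Gᶜ
  set A2 := ρ.β^[M] ⁻¹' {x | Ic ν (ρ.sig r) ζ x < L}
  set A3 := G ∩ {x | Real.log (ρ.C0 + 1) + t <
    Ic ν' (ρ.sig r ∘ ρ.β^[M]) (pr2 (ρ.lab M m) (names T d n)) x}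
  set A4 := {x | 0 < q x (ρ.past M m x) ∧ -Real.log (q x (ρ.past M m x)) + t <
    Ic ν' (ρ.past M m) (ζ ∘ ρ.β^[M]) x}
  set A5 := Ti^[m] ⁻¹' {x | m * (H0 ν d + 1) / η ≤ I0 ν (names T d m) x}
  refine le_trans (b := (ν.restrict (ρ.KM M)).real (A1 ∪ A2 ∪ A3 ∪ A4 ∪ A5))
    (ENNReal.toReal_mono (measure_ne_top _ _) (measure_mono_ae ?_)) ?_
  · filter_upwards [a1, a2, a3, ae_restrict_mem (ρ.mKM M)] with x h1 h2 h3 h4 h5
    by_contra hcon
    have k1 : x ∉ A1 := fun h => hcon (Or.inl (Or.inl (Or.inl (Or.inl h))))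
    have k2 : x ∉ A2 := fun h => hcon (Or.inl (Or.inl (Or.inl (Or.inr h))))
    have k3 : x ∉ A3 := fun h => hcon (Or.inl (Or.inl (Or.inr h)))
    have k4 : x ∉ A4 := fun h => hcon (Or.inl (Or.inr h))
    have k5 : x ∉ A5 := fun h => hcon (Or.inr h)
    have eq : q x (ρ.past M m x) = ν.real {y | names T d m y = names T d m (Ti^[m] x)} :=
      if_pos h4
    have j2 : L ≤ Ic ν (ρ.sig r) ζ (ρ.β^[M] x) := not_lt.1 k2
    have j3 : Ic ν' (ρ.sig r ∘ ρ.β^[M]) (pr2 (ρ.lab M m) (names T d n)) x ≤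
      Real.log (ρ.C0 + 1) + t := not_lt.1 fun h => k3 ⟨not_not.1 k1, h⟩
    have j4 : Ic ν' (ρ.past M m) (ζ ∘ ρ.β^[M]) x ≤ -Real.log (q x (ρ.past M m x)) + t :=
      not_lt.1 fun h => k4 ⟨eq ▸ h3, h⟩
    have j5 : I0 ν (names T d m) (Ti^[m] x) < m * (H0 ν d + 1) / η := not_le.1 k5
    have j6 : Ic ν (names T d n) (ρ.lab M m) x <
      L - m * (H0 ν d + 1) / η - 2 * t - Real.log (ρ.C0 + 1) := h5
    have j7 : Ic ν' (ρ.sig r ∘ ρ.β^[M]) (ζ ∘ ρ.β^[M]) x ≤ Ic ν' (ρ.past M m) (ζ ∘ ρ.β^[M]) x +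
      Ic ν' (names T d n) (ρ.lab M m) x +
      Ic ν' (ρ.sig r ∘ ρ.β^[M]) (pr2 (ρ.lab M m) (names T d n)) x := h2.1
    rw [eq] at j4
    unfold I0 at j5
    linarith [h2.2]
  · linarith [measureReal_union_le (μ := ν.restrict (ρ.KM M)) (A1 ∪ A2 ∪ A3 ∪ A4) A5,
      measureReal_union_le (μ := ν.restrict (ρ.KM M)) (A1 ∪ A2 ∪ A3) A4,
      measureReal_union_le (μ := ν.restrict (ρ.KM M)) (A1 ∪ A2) A3,
      measureReal_union_le (μ := ν.restrict (ρ.KM M)) A1 A2, r1 A5, r2 A3, r2 A4]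

end Rate

end Pool.Agent.P.MP_d483fb_an.Z.PS


end

section

/-!
The rate inequality between the three conditional entropies.
-/

namespace Pool.Agent.P.MP_d483fb_an.Z.PS

open MeasureTheory Filter Set Topology ProbabilityTheory Ent
open scoped ENNReal

theorem final_contra {u c1 e η hA g n I v : ℝ} (hc1 : 0 < c1) (hc : c1 ≤ 1) (hu : c1 ≤ u)
    (hg : 0 < g) (hA0 : 0 ≤ hA) (he : e = c1 * g / 8) (hη : 5 * η * (hA + g) = e) (hn : 0 < n)
    (h1 : n * (hA + g - 2 * e) * v ≤ I) (h2 : u - 5 * η ≤ v) (h3 : I ≤ n * (u * hA + e)) :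
    False := by
  have e0 : 0 < e := by rw [he]; positivity
  have e1 : e ≤ g / 8 := by rw [he]; nlinarith
  have η0 : 0 ≤ η := by
    by_contra h
    nlinarith
  have h4 : (hA + g - 2 * e) * v ≤ u * hA + e := by
    rw [mul_assoc] at h1
    exact le_of_mul_le_mul_left (h1.trans h3) hn
  have h5 : (hA + g - 2 * e) * (u - 5 * η) ≤ u * hA + e :=
    (mul_le_mul_of_nonneg_left h2 (by linarith)).trans h4
  have h6 : c1 * (3 / 4 * g) ≤ u * (g - 2 * e) := mul_le_mul hu (by linarith) (by positivity)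
    (by linarith)
  nlinarith [mul_nonneg η0 e0.le]

theorem final_aux {p m a e h t l : ℝ} (hm : 0 < m) (ha : 0 ≤ e) (h1 : a + h + 1 < p * e)
    (h2 : 2 * t + l ≤ m) : (p + 1) * m * (a - 2 * e) ≤ p * m * (a - e) - m * h - 2 * t - l := by
  nlinarith [mul_lt_mul_of_pos_left h1 hm, mul_nonneg hm.le ha]

variable {X Z D W V : Type} [MeasurableSpace X] [StandardBorelSpace X] [Nonempty X]
  [MeasurableSpace Z] [StandardBorelSpace Z]
  [MeasurableSpace D] [Countable D] [MeasurableSingletonClass D]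
  [MetricSpace W] [PolishSpace W] [MeasurableSpace W] [BorelSpace W]
  [MetricSpace V] [PolishSpace V] [MeasurableSpace V] [BorelSpace V]
  {μ : Measure X} [IsProbabilityMeasure μ] {K : Set X} {T Ti : X → X} {ζ : X → Z} {d : X → D}
  {s : X → W} {al : X → V}

namespace Rate

variable (ρ : Rate μ K T Ti ζ d)

omit [StandardBorelSpace X] [Nonempty X] [MeasurableSpace Z] [StandardBorelSpace Z] [Countable D]
  [MeasurableSpace D] [MeasurableSingletonClass D] [IsProbabilityMeasure μ] in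
include ρ in
theorem isIncr : Incr μ[|K] T ζ d :=
  ⟨⟨ρ.Y, ρ.aeY, fun x hx y hy h => Prod.ext ((ρ.incr x hx y hy).1 h).1 ((ρ.incr x hx y hy).1 h).2⟩,
    ⟨ρ.Y, ρ.aeY, fun x hx y hy h =>
      (ρ.incr x hx y hy).2 ⟨congrArg Prod.fst h, congrArg Prod.snd h⟩⟩⟩

variable {ρ}

omit [PolishSpace V] [MeasurableSpace V] [BorelSpace V] in
theorem Ctl.stepA {ε γ : ℝ} {F : X → ℝ} (h : ρ.Ctl s al ε F) (hT : Ergodic T μ[|K])
    (hζ : Measurable ζ) (hd : Measurable d) (hs : Measurable s) (hH : FinEnt μ[|K] d)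
    (iS : Incr μ[|K] T (pr2 ζ s) d)
    (hsig : ∀ r, ∀ x ∈ ρ.Y, ∀ y ∈ ρ.Y, ζ x = ζ y → s x = s y → ρ.sig r x = ρ.sig r y)
    (hε : 0 ≤ ε) (hγ : 0 < γ) (h1 : ε ≤ γ) (h2 : γ ≤ 1 / 2) {e : ℝ} (he : 0 < e) :
    Tendsto (fun n : ℕ => (μ[|K]).real {x | Ic μ[|K]
      (ρ.sig (Real.exp (-((1 + 3 * γ) * ρ.θ * n)))) ζ x <
        n * (Hc μ[|K] d ζ - Hc μ[|K] d (pr2 ζ s) - e)}) atTop (𝓝 0) := by
  have := cond_isProbabilityMeasure (μ := μ) ρ.K0
  let _ := upgradeStandardBorel Z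
  refine digit_lower (E := fun _ => ℕ) hT hd hH hζ (hζ.prodMk hs) ρ.isIncr iS (Det.fst _ _)
    lusin_pair (fun n => ρ.msig _) (fun n => ⟨ρ.Y, ρ.aeY, fun x hx y hy e =>
      hsig _ x hx y hy (congrArg Prod.fst e) (congrArg Prod.snd e)⟩) (fun δ hδ η hη => ⟨0, ?_⟩) he
  filter_upwards [h.nearA hε hγ h1 h2 hδ hη] with n hn k _ hk
  obtain ⟨G, g1, g2, g3⟩ := hn k hk
  exact ⟨G, g1, by rwa [← compl_eq_univ_sdiff], fun y hy y' hy' e hd =>
    g3 y hy.1 y' hy'.1 (congrArg Prod.fst e) (congrArg Prod.snd e) hd⟩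

omit [PolishSpace W] [MeasurableSpace W] [BorelSpace W] in
theorem Ctl.stepB {ε : ℝ} {F : X → ℝ} (h : ρ.Ctl s al ε F) (hT : Ergodic T μ[|K])
    (hζ : Measurable ζ) (hd : Measurable d) (hal : Measurable al) (hH : FinEnt μ[|K] d)
    (hε : 0 ≤ ε) (h1 : ε ≤ 1 / 2) {M m : ℕ → ℕ} (hm : Tendsto m atTop atTop)
    (hM : ∀ n, ε * M n ≤ m n / 4)
    (hM' : ∀ᶠ n : ℕ in atTop, (4 * ρ.θ + 1) * n ≤ (ρ.c - ε) * M n) {e : ℝ} (he : 0 < e) :
    ∀ᶠ n : ℕ in atTop, ∫ x in ρ.KM (M n), Ic μ[|K] (names T d n) (ρ.lab (M n) (m n)) x ∂μ[|K] ≤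
      n * ((μ[|K]).real (ρ.KM (M n)) * Hc μ[|K] d (pr2 ζ al) + e) := by
  have := cond_isProbabilityMeasure (μ := μ) ρ.K0
  let _ := upgradeStandardBorel Z
  refine names_upper hT hd hH (hζ.prodMk hal) lusin_pair (fun n => ρ.mlab hζ hd (M n) (m n))
    (fun n => ρ.mKM _) (fun n => ρ.sat_lab _ _ _) (fun δ hδ η hη => ⟨0, ?_⟩) he
  filter_upwards [h.nearB hε h1 hm hM hM' hδ hη] with n hn k _ hk
  obtain ⟨G, g1, g2, g3⟩ := hn k hk
  exact ⟨G, g1, g2, fun y hy y' hy' e hd =>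
    g3 y hy.1 y' hy'.1 (ρ.lab_eq e).1 (ρ.lab_eq e).2 hd⟩

variable (ρ)

/-- The rate inequality. -/
theorem ineq (hC : ∀ ε > 0, ∃ F, ρ.Ctl s al ε F) (hT : Ergodic T μ[|K])
    (hζ : Measurable ζ) (hd : Measurable d) (hs : Measurable s) (hal : Measurable al)
    (hH : FinEnt μ[|K] d) (iS : Incr μ[|K] T (pr2 ζ s) d)
    (hsig : ∀ r, ∀ x ∈ ρ.Y, ∀ y ∈ ρ.Y, ζ x = ζ y → s x = s y → ρ.sig r x = ρ.sig r y) :
    Hc μ[|K] d ζ ≤ Hc μ[|K] d (pr2 ζ s) + Hc μ[|K] d (pr2 ζ al) := by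
  have := cond_isProbabilityMeasure (μ := μ) ρ.K0
  by_contra hcon
  set hA := Hc μ[|K] d (pr2 ζ al) with hAe
  obtain ⟨g, hg⟩ : ∃ g, g = Hc μ[|K] d ζ - Hc μ[|K] d (pr2 ζ s) - hA := ⟨_, rfl⟩
  have g0 : 0 < g := by linarith [not_le.1 hcon]
  have hA0 : 0 ≤ hA := Hc_nonneg
  obtain ⟨J, c1, hc1, hJ⟩ := exists_shift_inter μ ρ.mK ρ.K0
  have hJ' := hJ ρ.β ρ.pβ
  have c11 : c1 ≤ 1 := by
    obtain ⟨M, -, -, h⟩ := hJ' 0
    exact h.trans measureReal_le_one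
  obtain ⟨e, he⟩ : ∃ e, e = c1 * g / 8 := ⟨_, rfl⟩
  have e0 : 0 < e := by rw [he]; positivity
  obtain ⟨η, hη⟩ : ∃ η, η = e / (5 * (hA + g)) := ⟨_, rfl⟩
  have η0 : 0 < η := by rw [hη]; positivity
  obtain ⟨p, hp⟩ := exists_nat_gt (max 1 ((hA + g + (H0 μ[|K] d + 1) / η + 1) / e))
  have p1 : (1 : ℝ) < p := (le_max_left _ _).trans_lt hp
  have p2 : hA + g + (H0 μ[|K] d + 1) / η + 1 < p * e :=
    (div_lt_iff₀ e0).1 ((le_max_right _ _).trans_lt hp)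
  obtain ⟨γ, hγ⟩ : ∃ γ : ℝ, γ = 1 / (10 * (p + 1)) := ⟨_, rfl⟩
  have γ0 : 0 < γ := by rw [hγ]; positivity
  have γ1 : γ * (p + 1) = 1 / 10 := by rw [hγ]; field_simp
  have γ2 : γ ≤ 1 / 2 := by nlinarith
  have θ0 := ρ.θ0
  have c0 := ρ.c0
  obtain ⟨Q, hQ⟩ := exists_nat_gt ((4 * ρ.θ + 1) * (2 * (p + 1)) / (ρ.c / 2))
  rw [div_lt_iff₀ (by positivity)] at hQ
  obtain ⟨ε, ε0, ε1, ε2, ε3⟩ : ∃ ε : ℝ, 0 < ε ∧ ε ≤ γ ∧ ε ≤ ρ.c / 2 ∧
      ε * (J * Q) ≤ min (1 / 4) (γ * ρ.θ) := by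
    have h0 : 0 < min (1 / 4) (γ * ρ.θ) := by positivity
    refine ⟨min (min γ (ρ.c / 2)) (min (1 / 4) (γ * ρ.θ) / (J * Q + 1)), by positivity,
      (min_le_left _ _).trans (min_le_left _ _), (min_le_left _ _).trans (min_le_right _ _),
      (mul_le_mul_of_nonneg_right (min_le_right _ _) (by positivity)).trans ?_⟩
    rw [div_mul_eq_mul_div, div_le_iff₀ (by positivity)]
    nlinarith
  obtain ⟨F, hF⟩ := hC ε ε0
  choose Mf M1 M2 M3 using hJ'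
  let m : ℕ → ℕ := fun n => n / (p + 1)
  let M : ℕ → ℕ := fun n => Mf (Q * m n)
  have hm : Tendsto m atTop atTop := Nat.tendsto_div_const_atTop (Nat.succ_ne_zero p)
  have hm' : Tendsto (fun n => (m n : ℝ)) atTop atTop := tendsto_natCast_atTop_atTop.comp hm
  have a1 : ∀ n, ε * M n ≤ min (1 / 4) (γ * ρ.θ) * m n := fun n => by
    have : (M n : ℝ) ≤ J * (Q * m n) := by exact_mod_cast M2 (Q * m n)
    calc ε * M n ≤ ε * (J * (Q * m n)) := mul_le_mul_of_nonneg_left this ε0.le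
      _ = ε * (J * Q) * m n := by ring
      _ ≤ _ := mul_le_mul_of_nonneg_right ε3 (Nat.cast_nonneg _)
  have hM : ∀ n, ε * M n ≤ m n / 4 := fun n => (a1 n).trans (by
    nlinarith [min_le_left (1 / 4) (γ * ρ.θ), Nat.cast_nonneg (α := ℝ) (m n)])
  have a2 : ∀ n, ((p : ℝ) + 1) * m n ≤ n := fun n => by exact_mod_cast Nat.mul_div_le n (p + 1)
  have hM' : ∀ᶠ n : ℕ in atTop, (4 * ρ.θ + 1) * n ≤ (ρ.c - ε) * M n := by
    filter_upwards [hm'.eventually_ge_atTop 1] with n hn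
    have b1 : (n : ℝ) ≤ (p + 1) * (m n + 1) := by
      exact_mod_cast (Nat.lt_mul_div_succ n (Nat.succ_pos p)).le
    have b2 : (Q : ℝ) * m n ≤ M n := by exact_mod_cast M1 (Q * m n)
    have b3 : (n : ℝ) ≤ 2 * (p + 1) * m n := by nlinarith
    calc (4 * ρ.θ + 1) * n ≤ (4 * ρ.θ + 1) * (2 * (p + 1) * m n) := by gcongr
      _ = (4 * ρ.θ + 1) * (2 * (p + 1)) * m n := by ring
      _ ≤ Q * (ρ.c / 2) * m n := by gcongr
      _ = ρ.c / 2 * (Q * m n) := by ring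
      _ ≤ (ρ.c - ε) * M n := mul_le_mul (by linarith) b2 (by positivity) (by linarith)
  have hu : Tendsto (fun n : ℕ => (1 - ε) * ((1 - γ) * ρ.θ * n) - ε * M n -
      (1 + 3 * γ) * ρ.θ * (p * m n : ℕ)) atTop atTop := by
    refine tendsto_atTop_mono (fun n => ?_) (hm'.const_mul_atTop (r := ρ.θ / 2) (by positivity))
    have b1 := (a1 n).trans
      (mul_le_mul_of_nonneg_right (min_le_right _ _) (Nat.cast_nonneg (m n)))
    have b2 : 0 ≤ ρ.θ * m n := by positivity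
    have b3 : (1 - 2 * γ) * (ρ.θ * ((p + 1) * m n)) ≤ (1 - ε) * (1 - γ) * (ρ.θ * n) :=
      mul_le_mul (by nlinarith) (mul_le_mul_of_nonneg_left (a2 n) θ0.le) (by positivity)
        (mul_nonneg (by linarith) (by linarith))
    have b4 : γ * (p + 1) * (ρ.θ * m n) = 1 / 10 * (ρ.θ * m n) := by rw [γ1]
    have b5 : 0 ≤ γ * (ρ.θ * m n) := by positivity
    push_cast
    nlinarith
  have hpm : Tendsto (fun n => p * m n) atTop atTop :=
    tendsto_atTop_mono (fun n => Nat.le_mul_of_pos_left _ (by exact_mod_cast one_pos.trans p1)) hm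
  have sA := ((hF.stepA hT hζ hd hs hH iS hsig ε0.le γ0 ε1 γ2 e0).comp hpm).eventually
    (ge_mem_nhds η0)
  have sB := hF.stepB hT hζ hd hal hH ε0.le (ε1.trans γ2) hm hM hM' e0
  have sC := hF.countC (ε1.trans γ2) γ0 (n := fun n => n) tendsto_id hm hM hu η0
  have hdiv : ∃ᶠ n in atTop, (p + 1) * m n = n := by
    refine frequently_atTop.2 fun a => ⟨(p + 1) * a, Nat.le_mul_of_pos_left _ (Nat.succ_pos p), ?_⟩
    simp only [m]
    rw [Nat.mul_div_cancel_left _ (Nat.succ_pos p)]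
  obtain ⟨n, n1, ⟨⟨n2, n3⟩, G, g1, g2, g3⟩, n4, n5⟩ := (hdiv.and_eventually ((((sA.and sB).and sC).and
    ((hm'.eventually_ge_atTop (2 * -Real.log η + Real.log (ρ.C0 + 1))).and
      (hm.eventually_gt_atTop 0))))).exists
  have n6 : ((p : ℝ) + 1) * m n = n := by exact_mod_cast n1
  have n7 : (0 : ℝ) < m n := Nat.cast_pos.2 n5
  have lo := ρ.lower hζ hd hH n (M n) (m n) _ g1 g3 η0 (-Real.log η)
    ((p * m n : ℕ) * (Hc μ[|K] d ζ - Hc μ[|K] d (pr2 ζ s) - e)) n5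
  rw [neg_neg, Real.exp_log η0] at lo
  have hi := ((hH.names ρ.pT hd n).1.integrable (measurable_names ρ.pT.measurable hd n)
    (ρ.mlab hζ hd (M n) (m n))).restrict (s := ρ.KM (M n))
  have mk := mul_meas_ge_le_integral_of_nonneg (Eventually.of_forall Ic_nonneg) hi
    (n * (hA + g - 2 * e))
  refine final_contra hc1 c11 (u := (μ[|K]).real (ρ.KM (M n))) ?_ g0 hA0 he (η := η)
    (by rw [hη]; field_simp) (by rw [← n6]; positivity) mk ?_ n3
  · refine (M3 (Q * m n)).trans (ENNReal.toReal_mono (measure_ne_top _ _) ?_)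
    change μ (ρ.KM (M n)) ≤ _
    rw [cond_apply ρ.mK, inter_eq_self_of_subset_right (show ρ.KM (M n) ⊆ K from inter_subset_left)]
    exact le_mul_of_one_le_left' (ENNReal.one_le_inv.2 prob_le_one)
  · have k1 := measureReal_union_le (μ := (μ[|K]).restrict (ρ.KM (M n)))
      {x | n * (hA + g - 2 * e) ≤ Ic μ[|K] (names T d n) (ρ.lab (M n) (m n)) x}
      {x | Ic μ[|K] (names T d n) (ρ.lab (M n) (m n)) x <
        (p * m n : ℕ) * (Hc μ[|K] d ζ - Hc μ[|K] d (pr2 ζ s) - e) -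
          m n * (H0 μ[|K] d + 1) / η - 2 * -Real.log η - Real.log (ρ.C0 + 1)}
    rw [eq_univ_of_forall (s := _ ∪ _), measureReal_restrict_apply_univ] at k1
    · have n2' : (μ[|K]).real {x | Ic μ[|K] (ρ.sig (Real.exp (-((1 + 3 * γ) * ρ.θ *
          (p * m n : ℕ))))) ζ x < (p * m n : ℕ) * (Hc μ[|K] d ζ - Hc μ[|K] d (pr2 ζ s) - e)} ≤ η :=
        n2
      linarith
    · intro x
      rcases le_or_gt (n * (hA + g - 2 * e)) (Ic μ[|K] (names T d n) (ρ.lab (M n) (m n)) x)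
        with h | h
      · exact Or.inl h
      refine Or.inr (mem_ofPred_eq ▸ lt_of_lt_of_le h ?_)
      have k2 : Hc μ[|K] d ζ - Hc μ[|K] d (pr2 ζ s) = hA + g := by rw [hg]; ring
      rw [k2, ← n6, mul_div_assoc, Nat.cast_mul]
      exact final_aux n7 e0.le p2 n4

end Rate

end Pool.Agent.P.MP_d483fb_an.Z.PS


end

section

/-!
The data of the rate inequality for a rectangle partition of a leaf structure, and the product
structure of the conditional measures on its atoms.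
-/

open scoped Matrix Matrix.Norms.Operator Topology
open MeasureTheory Filter Set ProbabilityTheory

noncomputable section

namespace Pool.Agent.P.MP_d483fb_an.Z.PS

open Ent

section shrink

variable {X Z D W V : Type} [MeasurableSpace X] {μ : Measure X} [IsProbabilityMeasure μ]
  {K : Set X} {T Ti : X → X} {ζ : X → Z} {d : X → D} {ρ : Rate μ K T Ti ζ d}
  [PseudoMetricSpace W] [PseudoMetricSpace V] {s : X → W} {al : X → V} {F : X → ℝ}

theorem Rate.Ctl.shrink (h : ρ.Ctl s al (1 / 2) F) : Shrink μ[|K] ζ (names T d) al := by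
  intro δ hδ η hη
  obtain ⟨B, hB, hg⟩ := ρ.exists_good h.meas one_pos hη
  obtain ⟨r, hr, hs⟩ := h.modA δ hδ B
  have hu : Tendsto (fun n : ℕ => (n : ℝ) / 2) atTop atTop :=
    tendsto_natCast_atTop_atTop.atTop_div_const (by norm_num)
  filter_upwards [hg, eventually_mul_exp_lt (B ^ 3) hr hu] with n g1 g2
  refine ⟨ρ.GoodA F B 1 n n ∩ ρ.Xb, (ρ.mGoodA h.meas B 1 n n).inter ρ.mXb,
    le_trans (le_of_eq (measureReal_congr ?_)) (g1 n).1, fun x hx y hy hz hd => ?_⟩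
  · filter_upwards [(cond_absolutelyContinuous (μ := μ) (s := K)).ae_le ρ.aeXb] with x hx
    exact propext ⟨fun h1 h2 => h1 ⟨h2, hx⟩, fun h1 h2 => h1 h2.1⟩
  have hd' := names_eq_iff.1 hd
  have hR := (h.atom x hx.1.1 y hy.1.1 hz).1
  have a1 := ((h.sa x hx.1.1 y hy.1.1 n hd').2 hR).2.2
  have a2 := (h.atom _ (ρ.T_mem hx.1.1 n) _ (ρ.T_mem hy.1.1 n)
    ((ρ.zeta_iter hx.1.1 hy.1.1 n).2 ⟨hz, hd'⟩)).2
  have a3 := a1.trans (Rate.mul3_le (b' := -(n / 2)) hx.1.2.2.1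
    (by linarith [ρ.tge x hx.1.1 n]) (a2.trans hx.1.2.2.1) (by linarith) (ρ.N0 _ _))
  have a4 := (h.sb x hx.2 y hy.2 0 hR).2.2.1.trans
    (Rate.mul3_le (b' := 0) hx.1.2.1 (by simp) a3 (by linarith) (ρ.N0 _ _))
  refine hs x hx.1.1 y hy.1.1 hz hx.1.2.1 (a4.trans (le_trans (le_of_eq ?_) g2.le))
  rw [Real.exp_zero]
  ring

end shrink

variable {X : Type} [MeasurableSpace X] {μ : Measure X} {ι : Type} [Fintype ι] [DecidableEq ι]

theorem f_iterate (S : Pre X μ ι) (s : ℝ × ℝ) (m : ℕ) (x : X) :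
    (S.f s)^[m] x = S.f ((m : ℝ) • s) x := by
  induction m with
  | zero => simp [S.f_zero]
  | succ m ih => rw [Function.iterate_succ_apply', ih, ← S.f_add, Nat.cast_succ, add_smul, one_smul,
      add_comm]

/-- The sum of the first `k` return times. -/
def tim (S : Pre X μ ι) (K : Set X) (k : ℕ) (x : X) : ℝ :=
  ((birkhoffSum (firstRet S.aE K) (retTime S.aE K) k x : ℕ) : ℝ)

theorem ret_iterate (S : Pre X μ ι) (K : Set X) (k : ℕ) (x : X) :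
    (firstRet S.aE K)^[k] x = S.f (tim S K k x, 0) x := by
  rw [iterate_firstRet, Pre.aE_iterate, Pre.a, Int.cast_natCast, tim]

variable {J : Set ℝ} {χ : ℝ} {K Y : Set X} {ζ : X → BoxLab X} {d : X → ℕ} {del : X → ℝ}

namespace BoxJ

section pre

variable {S : Pre X μ ι} (hB : BoxJ S J χ K ζ d del Y)
include hB

theorem tim_eq {x y : X} {k : ℕ}
    (h : ∀ i < k, d ((firstRet S.aE K)^[i] x) = d ((firstRet S.aE K)^[i] y)) :
    tim S K k y = tim S K k x := by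
  rw [tim, tim, Nat.cast_inj]
  exact Finset.sum_congr rfl fun i hi => (hB.tau _ _ (h i (Finset.mem_range.1 hi))).symm

theorem aeY' : ∀ᵐ x ∂μ[|K], x ∈ Y := by
  filter_upwards [(cond_absolutelyContinuous (μ := μ) (s := K)).ae_le hB.aeY, ae_cond_mem hB.measK]
    with x h1 h2 using h1 h2

/-- A coordinate whose fibres in the atoms are pieces of a subrelation is increasing. -/
theorem incr {W : Type} {c : X → W} {J' : Set ℝ}
    (hc : ∀ x ∈ K, ∀ y ∈ K, ζ x = ζ y → (c x = c y ↔ S.RJ J' x y)) :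
    Incr μ[|K] (firstRet S.aE K) (pr2 ζ c) d := by
  have key : ∀ x ∈ Y, ∀ y ∈ Y, d x = d y →
      (S.RJ J' (firstRet S.aE K x) (firstRet S.aE K y) ↔ S.RJ J' x y) := fun x _ y _ e => by
    have h1 := ret_iterate S K 1 x
    have h2 := ret_iterate S K 1 y
    rw [hB.tim_eq (x := x) (y := y) (fun i hi => by rwa [Nat.lt_one_iff.1 hi])] at h2
    rw [Function.iterate_one] at h1 h2
    rw [h1, h2, Pre.RJ_f_iff]
  have hT : ∀ x ∈ Y, firstRet S.aE K x ∈ K := fun x hx => hB.subK (hB.fwd x hx).2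
  refine ⟨⟨Y, hB.aeY', fun x hx y hy h => ?_⟩, ⟨Y, hB.aeY', fun x hx y hy h => ?_⟩⟩
  · have e1 : ζ (firstRet S.aE K x) = ζ (firstRet S.aE K y) := congrArg Prod.fst h
    obtain ⟨e2, e3⟩ := (hB.inc x hx y hy).1 e1
    exact Prod.ext (Prod.ext e2 ((hc x (hB.subK hx) y (hB.subK hy) e2).2 ((key x hx y hy e3).1
      ((hc _ (hT x hx) _ (hT y hy) e1).1 (congrArg Prod.snd h))))) e3
  · have e2 : ζ x = ζ y := congrArg (fun p => p.1.1) h
    have e3 : d x = d y := congrArg Prod.snd h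
    have e1 := (hB.inc x hx y hy).2 ⟨e2, e3⟩
    exact Prod.ext e1 ((hc _ (hT x hx) _ (hT y hy) e1).2 ((key x hx y hy e3).2
      ((hc x (hB.subK hx) y (hB.subK hy) e2).1 (congrArg (fun p => p.1.2) h))))

/-- The data of the rate inequality. -/
def rate [IsProbabilityMeasure μ] (s0 : ℝ × ℝ) (c : ℝ) (hc : 0 < c)
    (cell : ℝ → Matrix ι ι ℝ → ℕ) (hcell : ∀ r, Measurable (cell r)) :
    Rate μ K (firstRet S.aE K) (firstRet S.aE.symm K) ζ d where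
  Y := Y
  R := S.RJ J
  N := S.N
  Nc x y := S.w.N (S.w.pr χ (S.n x y))
  Ns x y := S.w.N (S.w.al χ (S.n x y))
  t := tim S K
  θ := (μ.real K)⁻¹
  β := S.f (-s0)
  Xb := S.X0
  c := c
  sig r x := cell r (sC S χ ζ x)
  C0 := ⌈S.w.nC * 2 ^ S.w.pD⌉₊
  mK := hB.measK
  K0 := hB.posK
  mY := hB.measY
  aeY := hB.aeY'
  inv x hx := ⟨(hB.fwd x hx).2, (hB.bwd x hx).2,
    firstRet_inv S.aE.apply_symm_apply (hB.subK hx) (hB.bwd x hx).1,
    firstRet_inv S.aE.symm_apply_apply (hB.subK hx) (hB.fwd x hx).1⟩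
  pT := measurePreserving_firstRet_cond S.ergodic_aE.toMeasurePreserving hB.measK
  pTi := measurePreserving_firstRet_cond S.ergodic_aE.symm.toMeasurePreserving hB.measK
  pβ := S.mp _
  mXb := S.meas0
  aeXb := S.ae0
  incr := hB.inc
  N0 := S.N_nonneg
  Nc0 _ _ := S.w.N_nonneg _
  Ns0 _ _ := S.w.N_nonneg _
  mt k := measurable_from_top.comp (Finset.measurable_sum _ fun i _ =>
    (measurable_retTime S.aE.measurable hB.measK).comp
      ((measurable_firstRet S.aE.measurable hB.measK).iterate i))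
  tge x hx k := by
    have h : ∀ i, (firstRet S.aE K)^[i] x ∈ Y := fun i => by
      induction i with
      | zero => exact hx
      | succ i ih => rw [Function.iterate_succ_apply']; exact (hB.fwd _ ih).2
    have := Finset.card_nsmul_le_sum (Finset.range k)
      (fun i => retTime S.aE K ((firstRet S.aE K)^[i] x)) 1 fun i _ => (hB.fwd _ (h i)).1
    rw [Finset.card_range, smul_eq_mul, mul_one] at this
    exact Nat.cast_le.2 this
  tmono x _ i j hij := Nat.cast_le.2 (Finset.sum_le_sum_of_subset (Finset.range_mono hij))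
  lln := tendsto_retTime_sum S.ergodic_aE hB.measK hB.posK
  θ0 := inv_pos.2 (ENNReal.toReal_pos hB.posK (measure_ne_top _ _))
  c0 := hc
  msig r := (hcell r).comp (measurable_sC hB.measZeta)

end pre

variable {S : LS X μ ι} (hB : BoxJ S.toPre J χ K ζ d del Y) (hJ : J.OrdConnected)
  (hχ : Wt.Extreme J χ)
include hJ hχ

theorem exists_ctl [IsProbabilityMeasure μ] {s0 : ℝ × ℝ} {c : ℝ} (hc : 0 < c)
    (h0 : s0.1 + s0.2 * χ = 0) (h1 : ∀ σ ∈ J, s0.1 + s0.2 * σ ≤ 0)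
    (h2 : ∀ m, S.w.Nil (J \ {χ}) m → S.w.Nil {σ | s0.1 + s0.2 * σ ≤ -c} m)
    {cell : ℝ → Matrix ι ι ℝ → ℕ} (hcell : ∀ r, Measurable (cell r))
    (c1 : ∀ r > 0, ∀ h h', S.w.Nil {χ} h → S.w.Nil {χ} h' → cell r h = cell r h' →
      S.w.N (h⁻¹ * h') ≤ r)
    (c2 : ∀ r > 0, ∀ h, S.w.Nil {χ} h → ∃ s : Finset ℕ, (s.card : ℝ) ≤ S.w.nC * 2 ^ S.w.pD ∧
      ∀ h', S.w.Nil {χ} h' → S.w.N (h⁻¹ * h') ≤ r → cell r h' ∈ s) {ε : ℝ} (hε : 0 < ε) :
    ∃ F, (hB.rate s0 c hc cell hcell).Ctl (W := ι → ι → ℝ) (V := ι → ι → ℝ)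
      (sC S.toPre χ ζ) (aC S.toPre χ ζ) ε F := by
  obtain ⟨q, qm, q1, hq⟩ := exists_scale S hε (κ := ‖s0‖ + 1) (by positivity)
  have hC := S.w.one_le_C
  have hC2 : 1 ≤ S.w.C ^ 2 := one_le_pow₀ hC
  let F : X → ℝ := fun x => S.w.C ^ 2 * q x + S.w.C ^ 2 * dis S.toPre ζ x + |(del x)⁻¹|
  have F1 : ∀ x, S.w.C ^ 2 * q x ≤ F x := fun x => by
    simp only [F]
    nlinarith [one_le_dis S.toPre ζ x, abs_nonneg (del x)⁻¹]
  have F2 : ∀ x, S.w.C ^ 2 * dis S.toPre ζ x ≤ F x := fun x => by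
    simp only [F]
    nlinarith [q1 x, abs_nonneg (del x)⁻¹]
  have F3 : ∀ x, (del x)⁻¹ ≤ F x := fun x => by
    simp only [F]
    nlinarith [q1 x, one_le_dis S.toPre ζ x, le_abs_self (del x)⁻¹]
  have F4 : ∀ x, q x ≤ F x := fun x => le_trans (by nlinarith [q1 x]) (F1 x)
  have F5 : ∀ x, dis S.toPre ζ x ≤ F x := fun x =>
    le_trans (by nlinarith [one_le_dis S.toPre ζ x]) (F2 x)
  have hq' : ∀ x ∈ S.X0, ∀ (J : Set ℝ) (m : Matrix ι ι ℝ), S.w.Nil J m →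
      ∀ (s : ℝ × ℝ) (c u e v : ℝ), (∀ σ ∈ J, s.1 + s.2 * σ ≤ c) → ‖s‖ ≤ (‖s0‖ + 1) * u →
        c + ε * u = e → q x * S.w.N m ≤ F x * v →
        S.w.N (S.L s x * m * (S.L s x)⁻¹) ≤ F x * Real.exp e * v :=
    fun x hx J m hm s c u e v a1 a2 a3 a4 => (hq x hx J m hm s c u a1 a2).trans (by
      rw [a3, mul_right_comm, mul_right_comm (F x)]
      exact mul_le_mul_of_nonneg_right a4 (Real.exp_pos _).le)
  have F6 : ∀ x m, q x * S.w.N m ≤ F x * S.w.N m := fun x m =>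
    mul_le_mul_of_nonneg_right (F4 x) (S.w.N_nonneg _)
  refine ⟨F, ((qm.const_mul _).add ((measurable_dis hB.measZeta).const_mul _)).add
    hB.measDel.inv.abs, fun x => (q1 x).trans (F4 x), fun x hx y hy k hd => ?_,
    fun x hx y hy m => ?_, fun x hx y hy e => ⟨hB.rel hJ (hB.subK hx) (hB.subK hy) e,
      (hB.N_le hJ (hB.subK hx) (hB.subK hy) e).trans (F2 x)⟩, fun x hx y hy hR h => ?_,
    fun r hr x hx y hy e h => ?_, fun r hr x hx => ?_, fun δ hδ B => ?_, fun δ hδ B => ?_⟩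
  · dsimp only [rate]
    rw [ret_iterate, ret_iterate, hB.tim_eq hd]
    have t0 : 0 ≤ tim S.toPre K k x := Nat.cast_nonneg _
    generalize tim S.toPre K k x = t at t0
    have n1 : ‖((t, 0) : ℝ × ℝ)‖ ≤ (‖s0‖ + 1) * t := by
      rw [Prod.norm_mk, norm_zero, Real.norm_of_nonneg t0, max_eq_left t0]
      nlinarith [norm_nonneg s0]
    refine ⟨(Pre.RJ_f_iff _).1, fun hR => ⟨?_, ?_, ?_⟩⟩
    · have hx0 := Pre.R_mem_left hR.1
      rw [Pre.n_f hR.1, Wt.pr_conj (S.L_lev _ x hx0) (S.L_lev _ x hx0).inv]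
      exact hq' x hx0 _ _ hR.2.pr _ t t _ _ (fun σ _ => by simp) n1 (by ring) (F6 _ _)
    · have hx0 := Pre.R_mem_left hR.1
      rw [Pre.n_f hR.1, Wt.al_conj (S.L_lev _ x hx0) (Pre.isUnit_L hx0 _)]
      exact hq' x hx0 _ _ hR.2.al_univ _ t t _ _ (fun σ _ => by simp) n1 (by ring) (F6 _ _)
    · have hR' := hR.f (t, 0)
      have e := Pre.n_f hR'.1 (-(t, 0))
      rw [Pre.f_neg_f, Pre.f_neg_f] at e
      rw [Pre.N, e]
      exact hq' _ (Pre.R_mem_left hR'.1) _ _ hR'.2 _ (-t) t _ _ (fun σ _ => by simp)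
        (by rwa [norm_neg]) (by ring) (F6 _ _)
  · dsimp only [rate]
    rw [f_iterate, f_iterate, smul_neg]
    intro hR'
    have hR := (Pre.RJ_f_iff _).1 hR'
    have m0 : (0 : ℝ) ≤ m := Nat.cast_nonneg m
    have n1 : ‖(m : ℝ) • s0‖ ≤ (‖s0‖ + 1) * m := by
      rw [norm_smul, Real.norm_of_nonneg m0]
      nlinarith
    have e := Pre.n_f hR'.1 ((m : ℝ) • s0)
    rw [Pre.f_f_neg, Pre.f_f_neg] at e
    have hx' := Pre.R_mem_left hR'.1
    refine ⟨hR, ?_, ?_, ?_⟩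
    · rw [Pre.N, e]
      refine hq' _ hx' _ _ hR'.2 _ 0 m _ _ (fun σ hσ => ?_) n1 (by ring) (F6 _ _)
      simp only [Prod.smul_fst, Prod.smul_snd, smul_eq_mul]
      nlinarith [h1 σ hσ]
    · rw [e, Wt.al_conj (S.L_lev _ _ hx') (Pre.isUnit_L hx' _)]
      refine hq' _ hx' _ _ (h2 _ (hR'.2.al hχ hJ)) _ (-c * m) m _ _ (fun σ hσ => ?_) n1 (by ring) ?_
      · simp only [Prod.smul_fst, Prod.smul_snd, smul_eq_mul]
        nlinarith [show s0.1 + s0.2 * σ ≤ -c from hσ]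
      · refine (mul_le_mul_of_nonneg_left hR'.2.N_al_le (zero_le_one.trans (q1 _))).trans ?_
        rw [← mul_assoc, mul_comm (q _)]
        exact mul_le_mul_of_nonneg_right (F1 _) (S.w.N_nonneg _)
    · rw [Pre.n_f hR.1, Wt.pr_conj (S.L_lev _ x hx) (S.L_lev _ x hx).inv]
      refine hq' x hx _ _ hR.2.pr _ 0 m _ _ (fun σ hσ => ?_) (by rwa [norm_neg]) (by ring)
        (mul_le_mul (F4 x) (Wt.N_pr_le _) (S.w.N_nonneg _) (by linarith [q1 x, F4 x]))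
      rw [mem_singleton_iff.1 hσ]
      simp only [Prod.fst_neg, Prod.snd_neg, Prod.smul_fst, Prod.smul_snd, smul_eq_mul]
      exact le_of_eq (by linear_combination (-(m : ℝ)) * h0)
  · obtain ⟨d0, d1⟩ := hB.inner x hx
    refine (d1 y hR ?_).2.symm
    have h3 : (del x)⁻¹ * S.toPre.N x y < 1 :=
      (mul_le_mul_of_nonneg_right (F3 x) (S.toPre.N_nonneg x y)).trans_lt h
    rwa [inv_mul_lt_iff₀ d0, mul_one] at h3
  · exact (hB.N_cell hJ hχ (hB.subK hx) (hB.subK hy) e).2.trans (mul_le_mul (F5 x)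
      (c1 r hr _ _ (hB.nil_sC (hB.subK hx)) (hB.nil_sC (hB.subK hy)) h) (S.w.N_nonneg _)
      (by linarith [q1 x, F4 x]))
  · obtain ⟨s, s1, s2⟩ := c2 r hr _ (hB.nil_sC (hB.subK hx))
    refine le_trans (encard_le_encard (t := (s : Set ℕ)) ?_) ?_
    · rintro _ ⟨y, ⟨hy, e, h⟩, rfl⟩
      exact s2 _ (hB.nil_sC (hB.subK hy)) ((hB.N_cell hJ hχ (hB.subK hx) (hB.subK hy) e).1.trans
        ((mul_le_mul_of_nonneg_right (F5 x) (S.w.N_nonneg _)).trans h))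
    · rw [encard_coe_eq_coe_finsetCard, Nat.cast_le]
      exact (Nat.cast_le (α := ℝ)).1 (s1.trans (Nat.le_ceil _))
  · obtain ⟨r, hr, h⟩ := hB.mod_sC hJ hχ hδ B
    exact ⟨r, hr, fun x hx y hy e a1 a2 =>
      dist_le_of_norm (h x (hB.subK hx) y (hB.subK hy) e ((F5 x).trans a1) a2)⟩
  · obtain ⟨r, hr, h⟩ := hB.mod_aC hJ hχ hδ B
    exact ⟨r, hr, fun x hx y hy e a1 a2 =>
      dist_le_of_norm (h x (hB.subK hx) y (hB.subK hy) e ((F5 x).trans a1) a2)⟩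

include hB in
/-- The conditional measures on the atoms are products. -/
theorem cp_prod [StandardBorelSpace X] [Nonempty X] [IsProbabilityMeasure μ] :
    ∀ᵐ x ∂μ[|K], (cp μ[|K] ζ x).map (pr2 (sC S.toPre χ ζ) (aC S.toPre χ ζ)) =
      ((cp μ[|K] (pr2 ζ (aC S.toPre χ ζ)) x).map (sC S.toPre χ ζ)).prod
        ((cp μ[|K] (pr2 ζ (sC S.toPre χ ζ)) x).map (aC S.toPre χ ζ)) := by
  have := cond_isProbabilityMeasure (μ := μ) hB.posK
  obtain ⟨e, he, he'⟩ := hχ.exists_sign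
  obtain ⟨c, hc, hc'⟩ := S.w.exists_slope_gap χ
  have hcell : ∀ r : ℝ, ∃ cell : Matrix ι ι ℝ → ℕ, Measurable cell ∧ (0 < r →
      (∀ h h', S.w.Nil {χ} h → S.w.Nil {χ} h' → cell h = cell h' → S.w.N (h⁻¹ * h') ≤ r) ∧
      ∀ h, S.w.Nil {χ} h → ∃ s : Finset ℕ, (s.card : ℝ) ≤ S.w.nC * 2 ^ S.w.pD ∧
        ∀ h', S.w.Nil {χ} h' → S.w.N (h⁻¹ * h') ≤ r → cell h' ∈ s) := fun r => by
    by_cases hr : 0 < r
    · obtain ⟨cell, a1, a2, a3⟩ := Wt.exists_cell (w := S.w) (H := {h | S.w.Nil {χ} h})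
        (fun h hh => Wt.Nil.univ hh) hr
      refine ⟨cell, a1, fun _ => ⟨fun h h' b1 b2 => a2 h b1 h' b2, fun h hh => ?_⟩⟩
      have := a3 h r hh.univ hr.le
      rwa [div_self hr.ne', one_add_one_eq_two] at this
    · exact ⟨fun _ => 0, measurable_const, fun h => absurd h hr⟩
  choose cell m1 m2 using hcell
  have hC := fun ε (hε : 0 < ε) => hB.exists_ctl hJ hχ (s0 := (e * χ, -e)) hc (by ring)
    (fun σ hσ => by nlinarith [he' σ hσ]) (fun m hm i j hij => ⟨(hm i j hij).1, by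
      have a1 := he' _ (hm i j hij).2.1
      have a2 := hc' i j (hm i j hij).2.2
      change e * χ + -e * S.w.slope i j ≤ -c
      rcases he with rfl | rfl
      · rw [abs_of_nonneg (by linarith)] at a2
        linarith
      · rw [abs_of_nonpos (by linarith)] at a2
        linarith⟩) m1 (fun r hr => (m2 r hr).1) (fun r hr => (m2 r hr).2) hε
  have iS := hB.incr fun x hx y hy e => hB.sC_iff hJ hχ hx hy e
  have iA := hB.incr fun x hx y hy e => hB.aC_iff hχ hx hy e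
  obtain ⟨F, hF⟩ := hC (1 / 2) (by norm_num)
  let ρ := hB.rate (e * χ, -e) c hc cell m1
  exact krv (S := ι → ι → ℝ) (A := ι → ι → ℝ) ρ.pT hB.measD hB.ent
    hB.measZeta (measurable_sC hB.measZeta) (measurable_aC hB.measZeta)
    ρ.isIncr iS iA (fun n => ⟨Y, hB.aeY', hB.rect n⟩) hF.shrink
    (ρ.ineq hC (ergodic_firstRet_cond S.toPre.ergodic_aE hB.measK)
      hB.measZeta hB.measD (measurable_sC hB.measZeta) (measurable_aC hB.measZeta) hB.ent iS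
      fun r x _ y _ _ h => congrArg (cell r) h)

end BoxJ

end Pool.Agent.P.MP_d483fb_an.Z.PS

end

end
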