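import Pool.Agent.P.MP_d483fb_an.M.A26

section

/-!
Normal forms: equivariance of the normal form coordinates.
-/

open MeasureTheory Filter Topology Set Real

set_option linter.unusedSectionVars false

noncomputable section

namespace Pool.Agent.P.MP_d483fb_an.Z.NF

open Os

variable {W X Γ M : Type} [NormedAddCommGroup W] [NormedSpace ℝ W] [MeasurableSpace W]
  [MeasurableSpace X] {μ : Measure X} [Group Γ] [MeasurableSpace Γ] [MetricSpace M]
  [MeasurableSpace M] {α : Γ →* Equiv.Perm M} {len : Γ → ℝ} {D : ℕ}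
  {S : Sys W X μ} {J : Jets α len D} {K : Skew S J} {lam : Fin D → W →L[ℝ] ℝ} {r : ℕ}
  {a : W} {s1 s2 : ℝ}

theorem Equi_tend (c k : ℝ) (hk : k < 0) :
    Tendsto (fun n : ℕ => exp (c + k * n)) atTop (𝓝 0) :=
  tendsto_exp_atBot.comp (tendsto_atBot_add_const_left _ _
    (tendsto_natCast_atTop_atTop.const_mul_atTop_of_neg hk))

theorem Equi_est {A : ℝ} (pc : PC D r A) (hr : 1 ≤ r) {t u : V D r} {T T' : Jt D r} {w w' : E D}
    {G d L R c0 m : ℝ} {c : Fin D → ℝ} (hG : 0 ≤ G) (hL : 0 ≤ L) (hR : 0 ≤ R)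
    (hd : d ≤ -(G + A + L)) (hT : ‖T‖ ≤ exp G) (hw : ‖w‖ ≤ exp (L + d))
    (hw' : ‖w' - evv T w‖ ≤ exp (G + r * d)) (ht : ‖t‖ ≤ exp m) (he : comp t T = comp u T')
    (hu : Res1 c c0 u) (hT' : ∀ j, ‖T' j‖ ≤ exp (R + c j)) :
    |ev t w' - ev u (evv T' w)| ≤ exp (A + r + m + G + r * d) + exp (A + r * G + m + r * (L + d)) +
      ‖u‖ * exp (A + r * R + c0 + r * (L + d)) := by
  have hA := pc.nonneg
  have hr' : (1 : ℝ) ≤ r := by exact_mod_cast hr
  have hd0 : d ≤ 0 := by linarith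
  have hw1 : ‖w‖ ≤ 1 := hw.trans (exp_le_one_iff.2 (by linarith))
  have hwr : ‖w‖ ^ r ≤ exp (r * (L + d)) := by
    rw [exp_nat_mul]
    gcongr
  have h1 : ‖evv T w‖ ≤ 1 := by
    refine (pc.evv_le T w le_rfl (by simpa using hw1)).trans ?_
    calc exp (A + r * 0) * ‖T‖ * ‖w‖ ≤ exp (A + r * 0) * exp G * exp (L + d) := by gcongr
      _ ≤ 1 := by
        rw [← exp_add, ← exp_add]
        exact exp_le_one_iff.2 (by linarith)
  have h2 : ‖w' - evv T w‖ ≤ 1 := hw'.trans (exp_le_one_iff.2 (by nlinarith))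
  have e2 : (2 : ℝ) ≤ exp 1 := by linarith [add_one_le_exp (1 : ℝ)]
  have h3 : ‖w'‖ ≤ exp 1 := by
    have := norm_add_le (w' - evv T w) (evv T w)
    rw [sub_add_cancel] at this
    linarith
  have a1 : |ev t w' - ev t (evv T w)| ≤ exp (A + r + m + G + r * d) := by
    refine (pc.ev_lip t _ _ 1 zero_le_one h3 (by linarith)).trans ?_
    calc exp (A + r * 1) * ‖t‖ * ‖w' - evv T w‖ ≤ exp (A + r * 1) * exp m * exp (G + r * d) := by
          gcongr
      _ = _ := by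
        rw [← exp_add, ← exp_add]
        congr 1
        ring
  have a2 : |ev (comp t T) w - ev t (evv T w)| ≤ exp (A + r * G + m + r * (L + d)) := by
    refine (pc.comp_err t T w G hG hT hw1).trans ?_
    calc exp (A + r * G) * ‖t‖ * ‖w‖ ^ r ≤ exp (A + r * G) * exp m * exp (r * (L + d)) := by
          gcongr
      _ = _ := by rw [← exp_add, ← exp_add]
  have a3 : |ev (comp u T') w - ev u (evv T' w)| ≤
      ‖u‖ * exp (A + r * R + c0 + r * (L + d)) := by
    refine (pc.comp_err_res hu hR hT' hw1).trans ?_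
    calc exp (A + r * R + c0) * ‖u‖ * ‖w‖ ^ r ≤ exp (A + r * R + c0) * ‖u‖ * exp (r * (L + d)) := by
          gcongr
      _ = _ := by
        rw [exp_add (A + r * R + c0)]
        ring
  rw [he] at a2
  rw [abs_le] at a1 a2 a3 ⊢
  constructor <;> linarith [a1.1, a1.2, a2.1, a2.2, a3.1, a3.2]

theorem Formal.H_mv (F : Formal K lam r) (P : Par K lam r a s1 s2) (s : W) {x : X} (hx : x ∈ F.X0)
    {z : M} (hz : z ∈ K.Wu a s1 x) :
    F.H a (S.act s x) (K.mv s x z) = evv (F.N s x) (F.H a x z) := by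
  refine Tendsto.limUnder_eq (tendsto_pi_nhds.2 fun i => ?_)
  obtain ⟨g, hg, -, hg1, -, -, hg2, -⟩ := P.exists_gap
  obtain ⟨R, hR, hz'⟩ := Skew.Wu_exp hz
  have hr1 : 1 ≤ r := le_trans one_le_two P.two_le
  have hr' : (1 : ℝ) ≤ r := by exact_mod_cast hr1
  obtain ⟨κ, hκ⟩ : ∃ κ, κ = J.Lr r * K.L := ⟨_, rfl⟩
  have hκ0 : 0 ≤ κ := hκ ▸ mul_nonneg (J.Lr_nonneg r) K.L_nonneg
  obtain ⟨ε, hε, hεg⟩ : ∃ ε : ℝ, 0 < ε ∧ ε * (1 + r + κ + r * κ) < g := by
    have h : 0 < 1 + r + κ + r * κ := by positivity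
    refine ⟨g / 2 / (1 + r + κ + r * κ), by positivity, ?_⟩
    rw [div_mul_cancel₀ _ h.ne']
    linarith
  obtain ⟨q, T⟩ := F.exists_temp a hε
  obtain ⟨G, hG⟩ : ∃ G, G = J.Lr r * (1 + K.L * (1 + ‖s‖ + q x)) := ⟨_, rfl⟩
  have hq := T.one_le x
  have hG0 : 0 ≤ G := by
    have := J.Lr_nonneg r
    have := K.L_nonneg
    rw [hG]
    positivity
  have k1 : 0 ≤ ε * r := by positivity
  have k2 : 0 ≤ ε * κ := by positivity
  have k3 : 0 ≤ ε * (r * κ) := by positivity
  have hl := hg2 i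
  have hlim : Tendsto (fun n => ev (F.N s x i) (F.Hn a n x z)) atTop
      (𝓝 (ev (F.N s x i) (F.H a x z))) := by
    have : Continuous (ev (F.N s x i)) := by
      unfold ev mono
      fun_prop
    exact (this.tendsto _).comp (F.tendsto_H P hx hz)
  refine hlim.congr_dist (squeeze_zero' (Eventually.of_forall fun _ => dist_nonneg)
    (g := fun n : ℕ => exp ((F.A + r + q (S.act s x) + G + r * R) +
      (lam i a + ε + ε * κ - r * s1) * n) +
      exp ((F.A + r * G + q (S.act s x) + r * (J.L0 + R)) +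
        (lam i a + ε + ε * (r * κ) - r * s1) * n) +
      ‖F.N s x i‖ * exp ((F.A + r * q x + r * (J.L0 + R)) + (lam i a + ε * r - r * s1) * n)) ?_ ?_)
  · have hev : ∀ᶠ n : ℕ in atTop, exp ((R + G + F.A + J.L0) + (ε * κ - s1) * n) < 1 :=
      (Equi_tend _ _ (by linarith)).eventually (gt_mem_nhds one_pos)
    filter_upwards [hev] with n hn
    rw [exp_lt_one_iff] at hn
    have hn0 : (0 : ℝ) ≤ n := n.cast_nonneg
    have hA := F.pc.nonneg
    have hL0 := J.L0_nonneg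
    have k4 : 0 ≤ ε * κ * n := by positivity
    have hd : dist (K.mv (-(n • a)) x z) (K.pt (S.act (-(n • a)) x)) ≤ exp (R - s1 * n) := by
      rw [sub_eq_add_neg, exp_add]
      exact hz' n
    have hGn : J.Lr r * (1 + K.L * (1 + ‖s‖ + K.h (S.act (-(n • a)) x))) ≤ G + ε * κ * n := by
      have h1 := T.h_back n hx
      have := J.Lr_nonneg r
      have := K.L_nonneg
      calc _ ≤ J.Lr r * (1 + K.L * (1 + ‖s‖ + (q x + ε * n))) := by gcongr
        _ = _ := by rw [hG, hκ]; ring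
    have e1 : S.act (-(n • a)) (S.act s x) = S.act s (S.act (-(n • a)) x) := S.comm _ _ _
    have e2 : K.mv (-(n • a)) (S.act s x) (K.mv s x z) =
        K.mv s (S.act (-(n • a)) x) (K.mv (-(n • a)) x z) := by
      rw [K.mv_mv, K.mv_mv, add_comm]
    have key := Equi_est F.pc hr1 (t := F.Jn a n (S.act s x) i) (u := F.N s x i)
      (T := K.T r s (S.act (-(n • a)) x)) (T' := F.Jn a n x)
      (w := J.c (K.pt (S.act (-(n • a)) x)) (K.mv (-(n • a)) x z))
      (w' := J.c (K.pt (S.act s (S.act (-(n • a)) x)))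
        (K.mv s (S.act (-(n • a)) x) (K.mv (-(n • a)) x z)))
      (G := G + ε * κ * n) (d := R - s1 * n) (L := J.L0) (R := q x + ε * n) (c0 := lam i a * n)
      (m := q (S.act s x) + lam i a * n + ε * n) (c := fun j => lam j a * n)
      (by positivity) hL0 (by positivity) (by linarith)
      ((K.T_le r s _).trans (exp_le_exp.2 hGn))
      (by
        refine (J.c_le (hd.trans (exp_le_exp.2 (by linarith)))).trans ?_
        rw [exp_add]
        gcongr)
      (by
        refine (K.jet r s _ _ (hd.trans (exp_le_exp.2 (by linarith)))).trans ?_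
        rw [exp_add (G + ε * κ * n), exp_nat_mul]
        gcongr)
      (T.J_le n _ (F.inv0 s x hx) i) (congrFun (F.Jn_act a s n hx) i)
      (((F.res s x hx).apply a i).mul n)
      (fun j => (T.J_le n x hx j).trans (le_of_eq (by congr 1; ring)))
    rw [dist_comm, Real.dist_eq]
    simp only [Formal.Hn, e1, e2]
    refine key.trans (le_of_eq ?_)
    congr 1
    · congr 1 <;> congr 1 <;> ring
    · congr 2
      ring
  · have := ((Equi_tend (F.A + r + q (S.act s x) + G + r * R) (lam i a + ε + ε * κ - r * s1)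
      (by linarith)).add (Equi_tend (F.A + r * G + q (S.act s x) + r * (J.L0 + R))
      (lam i a + ε + ε * (r * κ) - r * s1) (by linarith))).add
      ((Equi_tend (F.A + r * q x + r * (J.L0 + R)) (lam i a + ε * r - r * s1)
        (by linarith)).const_mul ‖F.N s x i‖)
    simpa using this

end Pool.Agent.P.MP_d483fb_an.Z.NF

end

end

section

/-!
Normal forms: the normal form coordinates are injective and bounded on the leaves.
-/

open MeasureTheory Filter Topology Set Real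

set_option linter.unusedSectionVars false

noncomputable section

namespace Pool.Agent.P.MP_d483fb_an.Z.NF

open Os

variable {W X Γ M : Type} [NormedAddCommGroup W] [NormedSpace ℝ W] [MeasurableSpace W]
  [MeasurableSpace X] {μ : Measure X} [Group Γ] [MeasurableSpace Γ] [MetricSpace M]
  [MeasurableSpace M] {α : Γ →* Equiv.Perm M} {len : Γ → ℝ} {D : ℕ}
  {S : Sys W X μ} {J : Jets α len D} {K : Skew S J} {lam : Fin D → W →L[ℝ] ℝ} {r : ℕ}
  {a : W} {s1 s2 : ℝ}

theorem inj_two_exp_le {u v w q : ℝ} (hq : 1 ≤ q) (hu : u + q ≤ w) (hv : v + q ≤ w) :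
    exp u + exp v ≤ exp w := by
  have h1 : exp u ≤ exp (w - q) := exp_le_exp.2 (by linarith)
  have h2 : exp v ≤ exp (w - q) := exp_le_exp.2 (by linarith)
  have h3 : (2 : ℝ) ≤ exp q := by linarith [add_one_le_exp q]
  have h4 : exp w = exp (w - q) * exp q := by rw [← exp_add]; congr 1; ring
  linarith [mul_le_mul_of_nonneg_left h3 (exp_pos (w - q)).le]

namespace Formal

variable (F : Formal K lam r)

theorem chart_of_H (P : Par K lam r a s1 s2) : F.Unif a fun C _ q => ∀ x ∈ F.X0, ∀ z η,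
    η ≤ exp (-(C * q x)) → K.Sh a s1 η x z → ‖F.H a x z‖ ≤ exp (C * q x) * η ∧
      ‖J.c (K.pt x) z - evv (F.Q x) (F.H a x z)‖ ≤ exp (C * q x) * η ^ r := by
  obtain ⟨C1, ε1, hC1, hε1, h1⟩ := F.H_est P
  obtain ⟨C, hC⟩ := exists_nat_ge (F.A + J.L0 + C1 + r + r * J.L0 + 2)
  have hA := F.pc.nonneg
  have hL := J.L0_nonneg
  have hr0 : (0 : ℝ) ≤ r := r.cast_nonneg
  have hC10 : (0 : ℝ) ≤ C1 := C1.cast_nonneg
  have hrL : 0 ≤ (r : ℝ) * J.L0 := by positivity
  have hC' : (1 : ℝ) ≤ C := by linarith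
  refine ⟨C, ε1, by exact_mod_cast hC', hε1, fun ε q hε T x hx z η hη hs => ?_⟩
  have hq := T.one_le x
  have hq0 : 0 ≤ q x := by linarith
  have hη0 := hs.nonneg
  have hd := hs.zero
  have eA : F.A ≤ F.A * q x := le_mul_of_one_le_right hA hq
  have eL : J.L0 ≤ J.L0 * q x := le_mul_of_one_le_right hL hq
  have erL : r * J.L0 ≤ r * J.L0 * q x := le_mul_of_one_le_right hrL hq
  have eC : (F.A + J.L0 + C1 + r + r * J.L0 + 2) * q x ≤ C * q x := by gcongr
  have e1 : 0 ≤ C1 * q x := by positivity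
  have e2 : 0 ≤ r * q x := by positivity
  have small : ∀ u, u ≤ C * q x → exp u * η ≤ 1 := fun u hu =>
    calc exp u * η ≤ exp (C * q x) * exp (-(C * q x)) := by gcongr
      _ = 1 := by rw [← exp_add, add_neg_cancel, exp_zero]
  have hη1 : η ≤ 1 := by simpa using small 0 (by positivity)
  have hE := h1 ε q hε T x hx z η (hη.trans (exp_le_exp.2 (by linarith))) hs
  set w := J.c (K.pt x) z with hw
  have hwle : ‖w‖ ≤ exp J.L0 * η :=
    (J.c_le (hd.trans (hη.trans (exp_le_exp.2 (by linarith))))).trans (by gcongr)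
  have hw1 : ‖w‖ ≤ 1 := hwle.trans (small _ (by linarith))
  have hΨ : ‖evv (F.Ψ x) w‖ ≤ exp (F.A + q x + J.L0) * η := by
    have := F.pc.evv_le (F.Ψ x) w le_rfl (by simpa using hw1)
    rw [mul_zero, add_zero] at this
    refine this.trans ?_
    rw [exp_add, exp_add, mul_assoc (exp F.A * exp (q x))]
    gcongr
    exact T.Ψ_le x hx
  have hηr : η ^ r ≤ η := pow_le_of_le_one hη0 hη1 (by have := P.two_le; omega)
  have hH : ‖F.H a x z‖ ≤ exp (C * q x) * η := by
    have h2 : ‖F.H a x z‖ ≤ ‖F.H a x z - evv (F.Ψ x) w‖ + ‖evv (F.Ψ x) w‖ := by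
      simpa using norm_add_le (F.H a x z - evv (F.Ψ x) w) (evv (F.Ψ x) w)
    have h3 : exp (C1 * q x) * η ^ r ≤ exp (C1 * q x) * η := by gcongr
    have h4 : exp (C1 * q x) + exp (F.A + q x + J.L0) ≤ exp (C * q x) :=
      inj_two_exp_le hq (by linarith) (by linarith)
    linarith [mul_le_mul_of_nonneg_right h4 hη0]
  refine ⟨hH, ?_⟩
  have hH1 : ‖F.H a x z‖ ≤ exp 0 := by simpa using hH.trans (small _ le_rfl)
  have hΨ1 : ‖evv (F.Ψ x) w‖ ≤ exp 0 := by simpa using hΨ.trans (small _ (by linarith))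
  have h5 : ‖w - evv (F.Q x) (evv (F.Ψ x) w)‖ ≤
      exp (F.A + r * q x + q x + r * J.L0) * η ^ r := by
    have := F.pc.compv_err (F.Q x) (F.Ψ x) w hq0 (T.Ψ_le x hx) hw1
    rw [F.QΨ x hx, evv_idv P.two_le] at this
    refine this.trans ?_
    rw [exp_add _ (r * J.L0), exp_add _ (q x), mul_assoc (exp _ * exp (q x)), exp_nat_mul,
      ← mul_pow]
    gcongr
    exact T.Q_le x hx
  have h6 : ‖evv (F.Q x) (evv (F.Ψ x) w) - evv (F.Q x) (F.H a x z)‖ ≤
      exp (F.A + q x + C1 * q x) * η ^ r := by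
    have := F.pc.evv_lip (F.Q x) _ _ le_rfl hΨ1 hH1
    rw [mul_zero, add_zero, norm_sub_rev (evv (F.Ψ x) w)] at this
    refine this.trans ?_
    rw [exp_add, exp_add, mul_assoc (exp F.A * exp (q x))]
    gcongr
    exact T.Q_le x hx
  have h7 : exp (F.A + r * q x + q x + r * J.L0) + exp (F.A + q x + C1 * q x) ≤ exp (C * q x) :=
    inj_two_exp_le hq (by linarith) (by linarith)
  have h8 := norm_sub_le_norm_sub_add_norm_sub w (evv (F.Q x) (evv (F.Ψ x) w))
    (evv (F.Q x) (F.H a x z))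
  linarith [mul_le_mul_of_nonneg_right h7 (pow_nonneg hη0 r)]

theorem H_inj (P : Par K lam r a s1 s2) {x : X} (hx : x ∈ F.X0) :
    InjOn (F.H a x) (K.Wu a s1 x) := by
  intro z hz z' hz' he
  obtain ⟨C, ε0, hC, hε0, h1⟩ := F.chart_of_H P
  obtain ⟨g, hg, -, hgs, -, -, -, hgl⟩ := P.exists_gap
  have hL := J.L0_nonneg
  have hK := K.L_nonneg
  have hC0 : (0 : ℝ) ≤ C := C.cast_nonneg
  have hden : 0 < 2 * (J.L0 * K.L + C + 1) := by positivity
  set ε := min ε0 (g / (2 * (J.L0 * K.L + C + 1))) with hεd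
  have hε : 0 < ε := lt_min hε0 (by positivity)
  have hεg : ε * (2 * (J.L0 * K.L + C + 1)) ≤ g := (le_div_iff₀ hden).1 (min_le_right _ _)
  obtain ⟨q, T⟩ := F.exists_temp a hε
  have h2 := h1 ε q (min_le_left _ _) T
  obtain ⟨R1, hR1, hs1⟩ := Skew.Wu_exp hz
  obtain ⟨R2, hR2, hs2⟩ := Skew.Wu_exp hz'
  set R := max R1 R2 with hR
  have hs : K.Sh a s1 (exp R) x z := hs1.mono le_rfl (exp_le_exp.2 (le_max_left _ _))
  have hs' : K.Sh a s1 (exp R) x z' := hs2.mono le_rfl (exp_le_exp.2 (le_max_right _ _))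
  have hq := T.one_le x
  have hLK : 0 ≤ J.L0 * K.L := by positivity
  have eL : J.L0 * K.L * ε + C * ε ≤ g / 2 := by linarith
  have eC : C * ε ≤ g / 2 := by linarith [mul_nonneg hLK hε.le]
  set c0 := J.L0 * (1 + K.L * (1 + q x)) + J.L0 + C * q x + r * R with hc0
  have key : ∀ n : ℕ, 2 * (R + C * q x + J.L0) / g ≤ n →
      dist z z' ≤ 2 * exp c0 * exp (-(g / 2 * n)) := by
    intro n hn
    have hn0 : (0 : ℝ) ≤ n := n.cast_nonneg
    have hn' : 2 * (R + C * q x + J.L0) ≤ n * g := (div_le_iff₀ hg).1 hn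
    have hxn := F.inv0 (-(n • a)) x hx
    have hqn := T.slow_b n x hx
    have hqn1 := T.one_le (S.act (-(n • a)) x)
    have hb := hs.back n
    have hb' := hs'.back n
    have e1 : C * q (S.act (-(n • a)) x) ≤ C * q x + C * ε * n := by
      linarith [mul_le_mul_of_nonneg_left hqn hC0]
    have e2 : C * ε * n ≤ g / 2 * n := by gcongr
    have e3 : g * n ≤ s1 * n := by gcongr
    have hη : exp R * exp (-(s1 * n)) ≤ exp (-(C * q (S.act (-(n • a)) x))) := by
      rw [← exp_add]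
      exact exp_le_exp.2 (by linarith)
    have hηL : exp R * exp (-(s1 * n)) ≤ exp (-J.L0) := by
      rw [← exp_add]
      have : 0 ≤ C * q x := by positivity
      have : 0 ≤ g * n := by positivity
      exact exp_le_exp.2 (by linarith)
    have k1 := (h2 _ hxn _ _ hη hb).2
    have k2 := (h2 _ hxn _ _ hη hb').2
    rw [F.H_mv P _ hx hz, he] at k1
    rw [F.H_mv P _ hx hz'] at k2
    have k3 := J.c_lip' _ _ _ (hb.zero.trans hηL) (hb'.zero.trans hηL)
    have k4 := norm_sub_le_norm_sub_add_norm_sub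
      (J.c (K.pt (S.act (-(n • a)) x)) (K.mv (-(n • a)) x z))
      (evv (F.Q (S.act (-(n • a)) x)) (evv (F.N (-(n • a)) x) (F.H a x z')))
      (J.c (K.pt (S.act (-(n • a)) x)) (K.mv (-(n • a)) x z'))
    rw [norm_sub_rev (evv _ _)] at k4
    have k5 := K.mv_lip (n • a) (S.act (-(n • a)) x) (K.mv (-(n • a)) x z) (K.mv (-(n • a)) x z')
    rw [K.mv_neg, K.mv_neg] at k5
    have k6 : ‖n • a‖ ≤ n * ‖a‖ := norm_nsmul_le
    have k7 := T.h_back n hx
    have k8 : J.L0 * (1 + K.L * (1 + ‖n • a‖ + K.h (S.act (-(n • a)) x))) ≤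
        J.L0 * (1 + K.L * (1 + n * ‖a‖ + (q x + ε * n))) := by gcongr
    have k9 : (exp R * exp (-(s1 * n))) ^ r = exp (r * R - r * s1 * n) := by
      rw [← exp_add, ← exp_nat_mul]
      congr 1
      ring
    rw [k9] at k1 k2
    have e4 : (J.L0 * K.L * ‖a‖ + g) * n ≤ r * s1 * n := by gcongr
    have e5 : (J.L0 * K.L * ε + C * ε) * n ≤ g / 2 * n := by gcongr
    calc dist z z' ≤ exp (J.L0 * (1 + K.L * (1 + n * ‖a‖ + (q x + ε * n)))) * (exp J.L0 *
          (2 * (exp (C * q x + C * ε * n) * exp (r * R - r * s1 * n)))) := by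
          refine k5.trans (mul_le_mul (exp_le_exp.2 k8) (k3.trans ?_) dist_nonneg (exp_pos _).le)
          have : exp (C * q (S.act (-(n • a)) x)) * exp (r * R - r * s1 * n) ≤
              exp (C * q x + C * ε * n) * exp (r * R - r * s1 * n) := by gcongr
          gcongr
          linarith
      _ = 2 * exp (J.L0 * (1 + K.L * (1 + n * ‖a‖ + (q x + ε * n))) + J.L0 +
          (C * q x + C * ε * n) + (r * R - r * s1 * n)) := by
          rw [exp_add _ (r * R - r * s1 * n), exp_add _ (C * q x + C * ε * n), exp_add _ J.L0]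
          ring
      _ ≤ 2 * exp c0 * exp (-(g / 2 * n)) := by
          rw [mul_assoc 2, ← exp_add]
          refine mul_le_mul_of_nonneg_left (exp_le_exp.2 ?_) zero_le_two
          rw [hc0]
          linarith
  have lim : Tendsto (fun n : ℕ => 2 * exp c0 * exp (-(g / 2 * n))) atTop (𝓝 (2 * exp c0 * 0)) :=
    (tendsto_exp_neg_atTop_nhds_zero.comp
      (tendsto_natCast_atTop_atTop.const_mul_atTop (half_pos hg))).const_mul _
  rw [mul_zero] at lim
  refine dist_le_zero.1 (ge_of_tendsto lim ?_)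
  filter_upwards [tendsto_natCast_atTop_atTop.eventually_ge_atTop
    (2 * (R + C * q x + J.L0) / g)] with n hn using key n hn

theorem H_le (P : Par K lam r a s1 s2) : F.Unif a fun C _ q => ∀ x ∈ F.X0, ∀ z R, 0 ≤ R →
    K.Sh a s1 (exp R) x z → ‖F.H a x z‖ ≤ exp (C * (q x + R)) := by
  obtain ⟨C1, ε1, hC1, hε1, h1⟩ := F.chart_of_H P
  have hs := P.s1_pos
  have hA := F.pc.nonneg
  have hC1' : (1 : ℝ) ≤ C1 := by exact_mod_cast hC1
  have hr0 : (0 : ℝ) ≤ r := r.cast_nonneg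
  set c := 2 * C1 / s1 with hc
  have hc0 : 0 ≤ c := by positivity
  have hcs : c * s1 = 2 * C1 := div_mul_cancel₀ _ hs.ne'
  obtain ⟨C, hC⟩ := exists_nat_ge (F.A + 1 + (r * s1 + 2) * (c + 1))
  have hp : 0 ≤ (r * s1 + 2) * (c + 1) := by positivity
  have hC' : (1 : ℝ) ≤ C := by linarith
  refine ⟨C, min ε1 (min 1 (s1 / (2 * C1))), by exact_mod_cast hC',
    lt_min hε1 (lt_min one_pos (by positivity)), fun ε q hε T x hx z R hR hz => ?_⟩
  have hε0 := T.pos
  have hεa : ε ≤ 1 := hε.trans ((min_le_right _ _).trans (min_le_left _ _))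
  have hεb : ε * (2 * C1) ≤ s1 :=
    (le_div_iff₀ (by positivity)).1 (hε.trans ((min_le_right _ _).trans (min_le_right _ _)))
  have hq := T.one_le x
  set m := ⌈c * (q x + R)⌉₊ with hm
  have hm0 : (0 : ℝ) ≤ m := m.cast_nonneg
  have hm1 : c * (q x + R) ≤ m := Nat.le_ceil _
  have hm2 : (m : ℝ) ≤ (c + 1) * (q x + R) := by
    have := (Nat.ceil_lt_add_one (show 0 ≤ c * (q x + R) by positivity)).le
    linarith
  have hxm := F.inv0 (-(m • a)) x hx
  have hqm := T.slow_b m x hx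
  have hb := hz.back m
  have e1 : C1 * q (S.act (-(m • a)) x) ≤ C1 * (q x + ε * m) := by gcongr
  have e2 : ε * (2 * C1) * m ≤ s1 * m := by gcongr
  have e3 : c * (q x + R) * s1 ≤ m * s1 := by gcongr
  have e4 : c * (q x + R) * s1 = 2 * C1 * (q x + R) := by rw [← hcs]; ring
  have e5 : R ≤ C1 * R := le_mul_of_one_le_left hR hC1'
  have hη : exp R * exp (-(s1 * m)) ≤ exp (-(C1 * q (S.act (-(m • a)) x))) := by
    rw [← exp_add]
    exact exp_le_exp.2 (by linarith)
  have k1 := (h1 ε q (hε.trans (min_le_left _ _)) T _ hxm _ _ hη hb).1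
  have k2 : ‖F.H a (S.act (-(m • a)) x) (K.mv (-(m • a)) x z)‖ ≤ 1 :=
    calc _ ≤ _ := k1
      _ ≤ exp (C1 * q (S.act (-(m • a)) x)) * exp (-(C1 * q (S.act (-(m • a)) x))) := by gcongr
      _ = 1 := by rw [← exp_add, add_neg_cancel, exp_zero]
  have k3 := F.H_mv P (m • a) hxm ⟨_, hb⟩
  rw [S.act_neg, K.mv_neg] at k3
  have k4 : ‖F.N (m • a) (S.act (-(m • a)) x)‖ ≤ exp (q x + (r * s1 + 2) * m) :=
    (pi_norm_le_iff_of_nonneg (exp_pos _).le).2 fun i => (T.N_f m _ hxm i).trans (exp_le_exp.2 (by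
      have h3 : lam i a * m ≤ r * s1 * m := by gcongr; exact (P.res i).le
      have h4 : ε * m ≤ 1 * m := by gcongr
      linarith))
  have k5 := F.pc.evv_le (F.N (m • a) (S.act (-(m • a)) x)) _ le_rfl (by simpa using k2)
  rw [mul_zero, add_zero] at k5
  rw [k3]
  have e6 : (r * s1 + 2) * m ≤ (r * s1 + 2) * ((c + 1) * (q x + R)) := by gcongr
  have e7 : (F.A + 1 + (r * s1 + 2) * (c + 1)) * (q x + R) ≤ C * (q x + R) := by gcongr
  have e8 : F.A ≤ F.A * (q x + R) := le_mul_of_one_le_right hA (by linarith)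
  calc _ ≤ _ := k5
    _ ≤ exp F.A * exp (q x + (r * s1 + 2) * m) * 1 := by gcongr
    _ ≤ exp (C * (q x + R)) := by
      rw [mul_one, ← exp_add]
      exact exp_le_exp.2 (by linarith)

end Formal

end Pool.Agent.P.MP_d483fb_an.Z.NF

end

end

section

/-!
Normal forms: pseudo orbits with prescribed normal form coordinates and their shadowing.
-/

open MeasureTheory Filter Topology Set Real

set_option linter.unusedSectionVars false

noncomputable section

namespace Pool.Agent.P.MP_d483fb_an.Z.NF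

open Os

variable {W X Γ M : Type} [NormedAddCommGroup W] [NormedSpace ℝ W] [MeasurableSpace W]
  [MeasurableSpace X] {μ : Measure X} [Group Γ] [MeasurableSpace Γ] [MetricSpace M]
  [MeasurableSpace M] {α : Γ →* Equiv.Perm M} {len : Γ → ℝ} {D : ℕ}
  {S : Sys W X μ} {J : Jets α len D} {K : Skew S J} {lam : Fin D → W →L[ℝ] ℝ} {r : ℕ}
  {a : W} {s1 s2 : ℝ}

theorem ps_small {t e e' c : ℝ} (ht : t ≤ exp (-c)) (h : e - c ≤ e') : exp e * t ≤ exp e' :=
  calc exp e * t ≤ exp e * exp (-c) := by gcongr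
    _ = exp (e - c) := by rw [← exp_add, sub_eq_add_neg]
    _ ≤ exp e' := exp_le_exp.2 h

theorem ps_pow {t d e : ℝ} {r : ℕ} (hr : 1 ≤ r) (hd0 : 0 ≤ d) (ht0 : 0 ≤ t) (ht : t ≤ 1)
    (hd : d ≤ exp e * t) : d ^ r ≤ exp (r * e) * t :=
  calc d ^ r ≤ (exp e * t) ^ r := pow_le_pow_left₀ hd0 hd r
    _ = exp (r * e) * t ^ r := by rw [mul_pow, ← exp_nat_mul]
    _ ≤ exp (r * e) * t := by
        gcongr
        exact pow_le_of_le_one ht0 ht (by omega)

theorem ps_mul {t d e1 e2 e3 e : ℝ} {b : ℝ} (ht0 : 0 ≤ t) (hd0 : 0 ≤ d) (hb : b ≤ exp e2)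
    (hd : d ≤ exp e3 * t) (h : e1 + e2 + e3 ≤ e) : exp e1 * b * d ≤ exp e * t :=
  calc exp e1 * b * d ≤ exp e1 * exp e2 * (exp e3 * t) := by gcongr
    _ = exp (e1 + e2 + e3) * t := by rw [exp_add, exp_add]; ring
    _ ≤ exp e * t := by gcongr

namespace Formal

variable (F : Formal K lam r)

/-- Backward contraction of the normal form on the unstable space. -/
theorem ps_back {ε g : ℝ} {q : X → ℝ} (T : F.Temp a ε q)
    (hg : ∀ i, 0 < lam i a → s2 + g ≤ lam i a) {x : X} (hx : x ∈ F.X0) {v : E D}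
    (hv : v ∈ U fun i => lam i a) (hv1 : ‖v‖ ≤ 1) (n : ℕ) :
    ‖evv (F.N (-(n • a)) x) v‖ ≤ exp (F.A + q x - (s2 + g) * n + ε * n) * ‖v‖ := by
  refine (pi_norm_le_iff_of_nonneg (by positivity)).2 fun i => ?_
  by_cases hi : 0 < lam i a
  · have h1 := F.pc.ev_le (F.N (-(n • a)) x i) v 0 le_rfl (by simpa using hv1)
    have h2 := mul_le_mul_of_nonneg_right (hg i hi) (Nat.cast_nonneg (α := ℝ) n)
    refine h1.trans (ps_mul (e3 := 0) (norm_nonneg _) (norm_nonneg _) (T.N_b n x hx i)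
      (by simp) ?_)
    linarith
  · rw [F.N_mem a _ hx hv i (not_lt.1 hi), norm_zero]
    positivity

/-- The points with chart coordinates `Q (N (-n a) v)` form a pseudo orbit. -/
theorem exists_pseudo (P : Par K lam r a s1 s2) : F.Unif a fun C ε q => ∀ x ∈ F.X0,
    ∀ v ∈ U fun i => lam i a, ‖v‖ ≤ exp (-(C * q x)) → ∃ w : ℕ → M, ∀ n : ℕ,
      ‖evv (F.N (-(n • a)) x) v‖ ≤ exp (C * q x - s2 * n) * ‖v‖ ∧
      J.c (K.pt (S.act (-(n • a)) x)) (w n) =
        evv (F.Q (S.act (-(n • a)) x)) (evv (F.N (-(n • a)) x) v) ∧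
      dist (w n) (K.pt (S.act (-(n • a)) x)) ≤ exp (C * q x - s2 * n) * ‖v‖ ∧
      dist (K.mv a (S.act (-((n + 1) • a)) x) (w (n + 1))) (w n) ≤
        exp (C * (q x + ε * n) - r * s2 * n) * ‖v‖ := by
  obtain ⟨g, hg0, hg1, -, -, hgap, -, -⟩ := P.exists_gap
  have hA := F.pc.nonneg
  have hL0 := J.L0_nonneg
  have hLr := J.Lr_nonneg r
  have hL := K.L_nonneg
  have hs1 := P.s1_pos
  have hs2 : 0 < s2 := P.s1_pos.trans P.lt
  have hr1 : 1 ≤ r := one_le_two.trans P.two_le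
  have hr0 : (0 : ℝ) ≤ r := Nat.cast_nonneg r
  set k : ℝ := 1 + K.L * (3 + ‖a‖) with hk
  have hk0 : 0 ≤ k := by positivity
  set c0 : ℝ := J.L0 * k with hc0
  set c1 : ℝ := J.Lr r * k with hc1
  set c2 : ℝ := J.L0 + 2 * F.A + 2 with hc2
  set c3 : ℝ := F.A + c1 + r * (3 + r * s1) + 1 + r * c2 with hc3
  have hc00 : 0 ≤ c0 := by positivity
  have hc10 : 0 ≤ c1 := by positivity
  have hc20 : 0 ≤ c2 := by positivity
  have hc30 : 0 ≤ c3 := by positivity
  obtain ⟨C, hC⟩ := exists_nat_ge (c0 + c1 + c2 + c3 + 2 * J.L0 + 2)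
  have hC0 : (0 : ℝ) ≤ C := Nat.cast_nonneg C
  refine ⟨C, g / (C + 2), ?_, by positivity, ?_⟩
  · have : (1 : ℝ) ≤ C := by linarith
    exact_mod_cast this
  intro ε q hε T x hx v hv hvC
  have hε0 := T.pos
  have hεg : ε * (C + 2) ≤ g := (le_div_iff₀ (by positivity)).1 hε
  have hε1 : ε ≤ 1 := by linarith [mul_nonneg hε0.le hC0]
  have hq1 := T.one_le x
  have hCq : ∀ c : ℝ, c ≤ C → c * q x ≤ C * q x := fun c hc => by gcongr
  have hcq : ∀ c : ℝ, 0 ≤ c → c ≤ c * q x := fun c hc => le_mul_of_one_le_right hc hq1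
  have hv1 : ‖v‖ ≤ 1 := hvC.trans (exp_le_one_iff.2 (by linarith [hcq C hC0]))
  have hv0 := norm_nonneg v
  have hxn : ∀ n : ℕ, S.act (-(n • a)) x ∈ F.X0 := fun n => F.inv0 _ x hx
  have hgn : ∀ n : ℕ, ε * (C + 2) * n ≤ g * n := fun n => by gcongr
  have hεn : ∀ n : ℕ, 0 ≤ ε * n := fun n => by positivity
  have hsn : ∀ n : ℕ, 0 ≤ s2 * n := fun n => by positivity
  have hCn : ∀ n : ℕ, 0 ≤ C * (ε * n) := fun n => by positivity
  have hAq := hcq F.A hA
  have hLq := hcq J.L0 hL0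
  -- the points `v n` and `u n`
  have hvn := F.ps_back T hgap hx hv hv1
  have hvn' : ∀ n : ℕ, ‖evv (F.N (-(n • a)) x) v‖ ≤
      exp (c2 * q x - s2 * n - C * (ε * n)) * ‖v‖ := fun n =>
    (hvn n).trans (by
      refine mul_le_mul_of_nonneg_right (exp_le_exp.2 ?_) hv0
      have := hgn n
      have := hεn n
      rw [hc2]
      linarith)
  have hvn1 : ∀ n : ℕ, ‖evv (F.N (-(n • a)) x) v‖ ≤ 1 := fun n =>
    (hvn' n).trans ((ps_small hvC (e' := 0) (by
      have := hCq c2 (by linarith)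
      have := hsn n
      have := hCn n
      linarith)).trans_eq exp_zero)
  have hun : ∀ n : ℕ, ‖evv (F.Q (S.act (-(n • a)) x)) (evv (F.N (-(n • a)) x) v)‖ ≤
      exp ((2 * F.A + 2) * q x - s2 * n - C * (ε * n)) * ‖v‖ := fun n => by
    have h1 := F.pc.evv_le (F.Q (S.act (-(n • a)) x)) _ le_rfl (by simpa using hvn1 n)
    refine h1.trans (ps_mul hv0 (norm_nonneg _)
      ((T.Q_le _ (hxn n)).trans (exp_le_exp.2 (T.slow_b n x hx))) (hvn n) ?_)
    have := hgn n
    linarith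
  have hw : ∀ n : ℕ, ∃ z, dist z (K.pt (S.act (-(n • a)) x)) ≤
      exp (c2 * q x - s2 * n - C * (ε * n)) * ‖v‖ ∧ J.c (K.pt (S.act (-(n • a)) x)) z =
      evv (F.Q (S.act (-(n • a)) x)) (evv (F.N (-(n • a)) x) v) := fun n => by
    obtain ⟨z, hz1, hz2⟩ := J.c_onto (K.pt (S.act (-(n • a)) x)) _ ((hun n).trans
      (ps_small hvC (e' := -(2 * J.L0)) (by
        have := hCq (2 * F.A + 2 + 2 * J.L0) (by linarith)
        have := hsn n
        have := hCn n
        linarith)))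
    refine ⟨z, hz1.trans ?_, hz2⟩
    have := ps_mul (e1 := J.L0) (e2 := 0) (b := 1) (e := c2 * q x - s2 * n - C * (ε * n)) hv0
      (norm_nonneg _) (by simp) (hun n) (by rw [hc2]; linarith)
    simpa using this
  choose w hw1 hw2 using hw
  have hup : ∀ n : ℕ, exp (c2 * q x - s2 * n - C * (ε * n)) * ‖v‖ ≤
      exp (C * q x - s2 * n) * ‖v‖ := fun n => by
    refine mul_le_mul_of_nonneg_right (exp_le_exp.2 ?_) hv0
    have := hCq c2 (by linarith)
    have := hCn n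
    linarith
  refine ⟨w, fun n => ⟨(hvn' n).trans (hup n), hw2 n, (hw1 n).trans (hup n), ?_⟩⟩
  -- the error of the pseudo orbit
  set y : ℝ := q x + ε * n with hy
  have hy1 : 1 ≤ y := by linarith [hεn n]
  have hqy : q x ≤ y := by linarith [hεn n]
  have hcy : ∀ c : ℝ, 0 ≤ c → c ≤ c * y := fun c hc => le_mul_of_one_le_right hc hy1
  have hq0 : q (S.act (-(n • a)) x) ≤ y := T.slow_b n x hx
  have hq1' : q (S.act (-((n + 1) • a)) x) ≤ 2 * y := by
    have := T.slow_b (n + 1) x hx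
    push_cast at this
    linarith
  have hh : 1 + K.L * (1 + ‖a‖ + K.h (S.act (-((n + 1) • a)) x)) ≤ k * y := by
    have h1 := (T.h_le _ (hxn (n + 1))).trans hq1'
    have h2 := hcy _ (norm_nonneg a)
    have h3 : K.L * (1 + ‖a‖ + K.h (S.act (-((n + 1) • a)) x)) ≤ K.L * ((3 + ‖a‖) * y) := by
      gcongr
      linarith
    rw [hk]
    linarith
  have hE0 : J.L0 * (1 + K.L * (1 + ‖a‖ + K.h (S.act (-((n + 1) • a)) x))) ≤ c0 * y := by
    rw [hc0, mul_assoc]
    gcongr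
  have hE1 : J.Lr r * (1 + K.L * (1 + ‖a‖ + K.h (S.act (-((n + 1) • a)) x))) ≤ c1 * y := by
    rw [hc1, mul_assoc]
    gcongr
  have hnext : exp (c2 * q x - s2 * ((n + 1 : ℕ) : ℝ) - C * (ε * ((n + 1 : ℕ) : ℝ))) * ‖v‖ ≤
      exp (c2 * q x - s2 * n - C * (ε * n)) * ‖v‖ := by
    have : 0 ≤ C * ε := by positivity
    gcongr <;> omega
  have hd1 := (hw1 (n + 1)).trans hnext
  have hv' := (hvn' (n + 1)).trans hnext
  have hcn : ∀ c : ℝ, c ≤ C → c * (ε * n) ≤ C * (ε * n) := fun c hc =>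
    mul_le_mul_of_nonneg_right hc (hεn n)
  have hpw : ∀ {d : ℝ}, 0 ≤ d → d ≤ exp (c2 * q x - s2 * n - C * (ε * n)) * ‖v‖ →
      d ^ r ≤ exp (r * c2 * y - r * s2 * n) * ‖v‖ := fun hd0 hd =>
    (ps_pow hr1 hd0 hv0 hv1 hd).trans (by
      have h1 : c2 * q x - s2 * n - C * (ε * n) ≤ c2 * y - s2 * n := by
        have := mul_le_mul_of_nonneg_left hqy hc20
        linarith [hCn n]
      have h2 := mul_le_mul_of_nonneg_left h1 hr0
      gcongr
      linarith)
  have hact := act_succ (S := S) a n x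
  have hz : dist (K.mv a (S.act (-((n + 1) • a)) x) (w (n + 1))) (K.pt (S.act (-(n • a)) x)) ≤
      exp (-J.L0) := by
    have h1 := K.mv_lip a (S.act (-((n + 1) • a)) x) (w (n + 1))
      (K.pt (S.act (-((n + 1) • a)) x))
    rw [K.mv_pt, hact] at h1
    have h2 := ps_mul (e1 := 0) (e := c0 * y + (c2 * q x - s2 * n - C * (ε * n))) hv0 dist_nonneg
      (exp_le_exp.2 hE0) hd1 (by linarith)
    rw [exp_zero, one_mul] at h2
    refine h1.trans (h2.trans (ps_small hvC ?_))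
    have := hCq (c0 + c2 + J.L0) (by linarith)
    have := hcn c0 (by linarith)
    have := hsn n
    rw [hy]
    linarith
  have hwn : dist (w n) (K.pt (S.act (-(n • a)) x)) ≤ exp (-J.L0) :=
    (hw1 n).trans (ps_small hvC (by
      have := hCq (c2 + J.L0) (by linarith)
      have := hsn n
      have := hCn n
      linarith))
  have hry : 0 ≤ r * (3 + r * s1) * y := by positivity
  have hc1y : 0 ≤ c1 * y := by positivity
  have hAy := hcy F.A hA
  have t1 : ‖J.c (K.pt (S.act (-(n • a)) x)) (K.mv a (S.act (-((n + 1) • a)) x) (w (n + 1))) -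
      evv (K.T r a (S.act (-((n + 1) • a)) x)) (evv (F.Q (S.act (-((n + 1) • a)) x))
        (evv (F.N (-((n + 1) • a)) x) v))‖ ≤ exp (c3 * y - r * s2 * n) * ‖v‖ := by
    have h1 := K.jet r a (S.act (-((n + 1) • a)) x) (w (n + 1))
      (hd1.trans ((ps_small hvC (e' := -(c1 * y)) (by
        have := hCq (c1 + c2) (by linarith)
        have := hcn c1 (by linarith)
        have := hsn n
        rw [hy]
        linarith)).trans (exp_le_exp.2 (neg_le_neg hE1))))
    rw [hact, hw2 (n + 1)] at h1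
    have h2 := ps_mul (e1 := 0) (e := c3 * y - r * s2 * n) hv0 (pow_nonneg dist_nonneg r)
      (exp_le_exp.2 hE1) (hpw dist_nonneg hd1) (by rw [hc3]; linarith)
    rw [exp_zero, one_mul] at h2
    exact h1.trans h2
  have t2 : ‖evv (compv (K.T r a (S.act (-((n + 1) • a)) x)) (F.Q (S.act (-((n + 1) • a)) x)))
      (evv (F.N (-((n + 1) • a)) x) v) - evv (K.T r a (S.act (-((n + 1) • a)) x))
        (evv (F.Q (S.act (-((n + 1) • a)) x)) (evv (F.N (-((n + 1) • a)) x) v))‖ ≤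
      exp (c3 * y - r * s2 * n) * ‖v‖ := by
    refine (F.pc.compv_err _ _ _ (R := 2 * y) (by linarith)
      ((T.Q_le _ (hxn (n + 1))).trans (exp_le_exp.2 hq1')) (hvn1 (n + 1))).trans ?_
    refine ps_mul hv0 (pow_nonneg (norm_nonneg _) r)
      ((K.T_le r a _).trans (exp_le_exp.2 hE1)) (hpw (norm_nonneg _) hv') ?_
    have : 0 ≤ r * (r * s1) * y := by positivity
    have : 0 ≤ r * y := by positivity
    rw [hc3]
    linarith
  have t3 : ‖evv (compv (F.Q (S.act (-(n • a)) x)) (F.N a (S.act (-((n + 1) • a)) x)))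
      (evv (F.N (-((n + 1) • a)) x) v) - evv (F.Q (S.act (-(n • a)) x))
        (evv (F.N a (S.act (-((n + 1) • a)) x)) (evv (F.N (-((n + 1) • a)) x) v))‖ ≤
      exp (c3 * y - r * s2 * n) * ‖v‖ := by
    have hN : ‖F.N a (S.act (-((n + 1) • a)) x)‖ ≤ exp ((3 + r * s1) * y) := by
      refine (pi_norm_le_iff_of_nonneg (exp_pos _).le).2 fun i => ?_
      have h1 := T.N_f 1 _ (hxn (n + 1)) i
      rw [one_nsmul] at h1
      refine h1.trans (exp_le_exp.2 ?_)
      have h2 := (P.res i).le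
      have h3 := hcy (r * s1) (by positivity)
      push_cast
      linarith
    refine (F.pc.compv_err _ _ _ (by positivity) hN (hvn1 (n + 1))).trans ?_
    refine ps_mul hv0 (pow_nonneg (norm_nonneg _) r)
      ((T.Q_le _ (hxn n)).trans (exp_le_exp.2 hq0)) (hpw (norm_nonneg _) hv') ?_
    rw [hc3]
    linarith
  have hvv : evv (F.N a (S.act (-((n + 1) • a)) x)) (evv (F.N (-((n + 1) • a)) x) v) =
      evv (F.N (-(n • a)) x) v := by
    rw [← F.N_U_add P a _ hx hv]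
    congr 2
    rw [succ_nsmul]
    abel
  rw [hvv, ← hw2 n, ← hact, ← F.TQ P.two_le a (hxn (n + 1)), hact] at t3
  have hsum : ‖J.c (K.pt (S.act (-(n • a)) x)) (K.mv a (S.act (-((n + 1) • a)) x) (w (n + 1))) -
      J.c (K.pt (S.act (-(n • a)) x)) (w n)‖ ≤ 3 * (exp (c3 * y - r * s2 * n) * ‖v‖) := by
    rw [← dist_eq_norm] at t1 t2 t3 ⊢
    rw [dist_comm] at t2
    linarith [dist_triangle4 (J.c (K.pt (S.act (-(n • a)) x))
      (K.mv a (S.act (-((n + 1) • a)) x) (w (n + 1)))) _ _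
      (J.c (K.pt (S.act (-(n • a)) x)) (w n)) |>.trans (add_le_add (add_le_add t1 t2) t3)]
  refine (J.c_lip' _ _ _ hz hwn).trans ?_
  have h3 : (3 : ℝ) ≤ exp 2 := by linarith [add_one_le_exp (2 : ℝ)]
  refine (mul_le_mul_of_nonneg_left hsum (exp_pos _).le).trans ?_
  rw [← mul_assoc]
  refine ps_mul hv0 (by positivity) h3 le_rfl ?_
  have h4 := hcy (J.L0 + 2) (by positivity)
  have h5 : (J.L0 + 2 + c3) * y ≤ C * y := by
    gcongr
    linarith
  linarith

/-- A pseudo orbit with rapidly decaying errors is shadowed by a backward orbit. -/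
theorem exists_shadow [CompleteSpace M] {F : Formal K lam r} {ε : ℝ} {q : X → ℝ} (T : F.Temp a ε q)
    {x : X} (hx : x ∈ F.X0) {w : ℕ → M} {η ρ δ : ℝ} (hδ : 0 < δ) (hη : 0 ≤ η)
    (hρ : J.L0 * K.L * (‖a‖ + ε) + δ ≤ ρ)
    (hw : ∀ n : ℕ, dist (K.mv a (S.act (-((n + 1) • a)) x) (w (n + 1))) (w n) ≤ η * exp (-(ρ * n))) :
    ∃ z, ∀ m : ℕ, dist (K.mv (-(m • a)) x z) (w m) ≤
      η * exp (J.L0 * (1 + K.L * (1 + q x + ε * m)) - ρ * m) / (1 - exp (-δ)) := by
  have hL0 := J.L0_nonneg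
  have hL := K.L_nonneg
  have hδ1 : exp (-δ) < 1 := exp_lt_one_iff.2 (neg_neg_of_pos hδ)
  set y : ℕ → ℕ → M := fun m k => K.mv (k • a) (S.act (-((m + k) • a)) x) (w (m + k)) with hy
  have hstep : ∀ m k : ℕ, dist (y m k) (y m (k + 1)) ≤
      η * exp (J.L0 * (1 + K.L * (1 + q x + ε * m)) - ρ * m) * exp (-δ) ^ k := by
    intro m k
    have h1 : y m (k + 1) = K.mv (k • a) (S.act (-((m + k) • a)) x)
        (K.mv a (S.act (-((m + k + 1) • a)) x) (w (m + k + 1))) := by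
      rw [← act_succ (S := S) a (m + k) x, K.mv_mv, ← succ_nsmul]
      rfl
    rw [h1, dist_comm]
    refine (K.mv_lip _ _ _ _).trans ?_
    have h2 : ‖k • a‖ ≤ k * ‖a‖ := norm_nsmul_le
    have h3 := T.h_back (m + k) hx
    have h4 : J.L0 * (1 + K.L * (1 + ‖k • a‖ + K.h (S.act (-((m + k) • a)) x))) ≤
        J.L0 * (1 + K.L * (1 + k * ‖a‖ + (q x + ε * ((m + k : ℕ) : ℝ)))) := by gcongr
    have h5 := mul_le_mul_of_nonneg_right hρ (Nat.cast_nonneg (α := ℝ) k)
    calc _ ≤ exp (J.L0 * (1 + K.L * (1 + k * ‖a‖ + (q x + ε * ((m + k : ℕ) : ℝ))))) *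
          (η * exp (-(ρ * ((m + k : ℕ) : ℝ)))) :=
          mul_le_mul (exp_le_exp.2 h4) (hw (m + k)) dist_nonneg (exp_pos _).le
      _ = η * exp (J.L0 * (1 + K.L * (1 + k * ‖a‖ + (q x + ε * ((m + k : ℕ) : ℝ)))) +
          -(ρ * ((m + k : ℕ) : ℝ))) := by rw [exp_add]; ring
      _ ≤ η * exp (J.L0 * (1 + K.L * (1 + q x + ε * m)) - ρ * m + k * -δ) := by
          refine mul_le_mul_of_nonneg_left (exp_le_exp.2 ?_) hη
          push_cast
          linarith
      _ = _ := by rw [exp_add, exp_nat_mul, mul_assoc]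
  obtain ⟨z, hz⟩ := cauchySeq_tendsto_of_complete
    (cauchySeq_of_le_geometric _ _ hδ1 (hstep 0))
  refine ⟨z, fun m => ?_⟩
  have hc : Continuous (K.mv (-(m • a)) x) :=
    (LipschitzWith.of_dist_le' fun z z' => K.mv_lip (-(m • a)) x z z').continuous
  have h1 := (hc.tendsto z).comp (hz.comp (tendsto_add_atTop_nat m))
  have h2 : ∀ k, (K.mv (-(m • a)) x ∘ y 0 ∘ fun k => k + m) k = y m k := by
    intro k
    have h3 : K.mv (-(m • a)) x = K.mv (-(m • a))
        (S.act ((k + m) • a) (S.act (-((k + m) • a)) x)) := by rw [S.act_neg]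
    simp only [Function.comp_apply, hy, zero_add]
    rw [h3, K.mv_mv, add_comm m k]
    congr 1
    rw [add_nsmul]
    abel
  have h3 := dist_le_of_le_geometric_of_tendsto₀ _ _ hδ1 (hstep m) (h1.congr h2)
  have h4 : y m 0 = w m := by simp [hy, K.mv_zero]
  rwa [h4, dist_comm] at h3

end Formal

end Pool.Agent.P.MP_d483fb_an.Z.NF

end

end

section

/-!
Normal forms: the normal form coordinates are onto.
-/

open MeasureTheory Filter Topology Set Real

set_option linter.unusedSectionVars false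

noncomputable section

namespace Pool.Agent.P.MP_d483fb_an.Z.NF

open Os

variable {W X Γ M : Type} [NormedAddCommGroup W] [NormedSpace ℝ W] [MeasurableSpace W]
  [MeasurableSpace X] {μ : Measure X} [Group Γ] [MeasurableSpace Γ] [MetricSpace M]
  [MeasurableSpace M] {α : Γ →* Equiv.Perm M} {len : Γ → ℝ} {D : ℕ}
  {S : Sys W X μ} {J : Jets α len D} {K : Skew S J} {lam : Fin D → W →L[ℝ] ℝ} {r : ℕ}
  {a : W} {s1 s2 : ℝ}

namespace Formal

variable [CompleteSpace M] (F : Formal K lam r)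

omit [CompleteSpace M] in
theorem surj_lim (P : Par K lam r a s1 s2) {ε g C : ℝ} {q : X → ℝ} (T : F.Temp a ε q) (hg : 0 < g)
    (g1 : g ≤ s1) (g2 : s1 + g ≤ s2) (g3 : ∀ i, lam i a + g ≤ r * s1) (hε : (r + 1) * ε ≤ g)
    {x : X} (hx : x ∈ F.X0) {v : E D} (hv : v ∈ U fun i => lam i a) {w : ℕ → M} {z : M}
    (h1 : ∀ n : ℕ, ‖evv (F.N (-(n • a)) x) v‖ ≤ exp (-(s2 * n)))
    (h2 : ∀ n : ℕ, J.c (K.pt (S.act (-(n • a)) x)) (w n) =
      evv (F.Q (S.act (-(n • a)) x)) (evv (F.N (-(n • a)) x) v))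
    (h3 : ∀ n : ℕ, dist (w n) (K.pt (S.act (-(n • a)) x)) ≤ exp (-(s2 * n)))
    (h4 : ∀ n : ℕ, dist (K.mv (-(n • a)) x z) (w n) ≤ exp (C - (r * s2 - g) * n)) :
    Tendsto (fun n => F.Hn a n x z) atTop (𝓝 v) := by
  have r2 : (2 : ℝ) ≤ r := by exact_mod_cast P.two_le
  have e0 := T.pos
  have t : ∀ c : ℝ, Tendsto (fun n : ℕ => exp (c - g * n)) atTop (𝓝 0) := fun c =>
    tendsto_exp_atBot.comp (tendsto_atBot_add_const_left _ c
      (tendsto_neg_atTop_atBot.comp (tendsto_natCast_atTop_atTop.const_mul_atTop hg)))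
  refine tendsto_pi_nhds.mpr fun i => tendsto_sub_nhds_zero_iff.mp ?_
  have t2 := (t (F.A + q x + J.L0 + C)).add (t (F.A + r * q x + q x))
  have t3 := (t C).add (t 0)
  rw [add_zero] at t2 t3
  refine squeeze_zero_norm' ?_ t2
  filter_upwards [t3.eventually (ge_mem_nhds (exp_pos (-J.L0)))] with n hn
  have n0 : (0 : ℝ) ≤ n := n.cast_nonneg
  have rs : r * s1 + 2 * g ≤ r * s2 := by nlinarith
  have a1 : dist (w n) (K.pt (S.act (-(n • a)) x)) ≤ exp (0 - g * n) :=
    (h3 n).trans (exp_le_exp.mpr (by nlinarith))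
  have a2 : dist (K.mv (-(n • a)) x z) (w n) ≤ exp (C - g * n) :=
    (h4 n).trans (exp_le_exp.mpr (by
      have : g ≤ r * s2 - g := by nlinarith
      nlinarith))
  have b1 : dist (w n) (K.pt (S.act (-(n • a)) x)) ≤ exp (-J.L0) := by
    linarith [exp_pos (C - g * n)]
  have b2 : dist (K.mv (-(n • a)) x z) (K.pt (S.act (-(n • a)) x)) ≤ exp (-J.L0) := by
    linarith [dist_triangle (K.mv (-(n • a)) x z) (w n) (K.pt (S.act (-(n • a)) x))]
  have c1 : ∀ y, dist y (K.pt (S.act (-(n • a)) x)) ≤ exp (-J.L0) →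
      ‖J.c (K.pt (S.act (-(n • a)) x)) y‖ ≤ exp 0 := fun y hy =>
    (J.c_le hy).trans ((mul_le_mul_of_nonneg_left hy (exp_pos _).le).trans_eq (by
      rw [← exp_add, add_neg_cancel]))
  have d1 := F.pc.ev_lip (F.Jn a n x i) _ _ 0 le_rfl (c1 _ b2) (c1 _ b1)
  have xn := F.inv0 (-(n • a)) x hx
  have d2 := F.pc.comp_err (F.Jn a n x i) (F.Q (S.act (-(n • a)) x)) _ (q x + ε * n)
    (by linarith [T.one_le x, mul_nonneg e0.le n0])
    ((T.Q_le _ xn).trans (exp_le_exp.mpr (T.slow_b n x hx)))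
    ((h1 n).trans (exp_le_one_iff.mpr (by nlinarith)))
  have e1 : ev (comp (F.Jn a n x i) (F.Q (S.act (-(n • a)) x))) (evv (F.N (-(n • a)) x) v) =
      v i := by
    rw [← congrFun (F.N_U_neg P (n • a) hx hv) i, ← F.Jn_Q P.two_le a n hx]
    rfl
  rw [e1, ← h2, abs_sub_comm] at d2
  have j := T.J_le n x hx i
  have l := mul_le_mul_of_nonneg_right (g3 i) n0
  have rn := mul_le_mul_of_nonneg_right rs n0
  have en := mul_le_mul_of_nonneg_right hε n0
  have en0 := mul_nonneg e0.le n0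
  refine (abs_sub_le _ _ _).trans (add_le_add (d1.trans ?_) (d2.trans ?_))
  · calc _ ≤ exp (F.A + r * 0) * exp (q x + lam i a * n + ε * n) *
          (exp J.L0 * exp (C - (r * s2 - g) * n)) := by
          gcongr
          exact (J.c_lip _ _ _ b2 b1).trans (mul_le_mul_of_nonneg_left (h4 n) (exp_pos _).le)
      _ ≤ _ := by
          simp only [← exp_add]
          exact exp_le_exp.mpr (by nlinarith)
  · calc _ ≤ exp (F.A + r * (q x + ε * n)) * exp (q x + lam i a * n + ε * n) *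
          exp (-(s2 * n)) ^ r := by
          gcongr
          exact h1 n
      _ ≤ _ := by
          simp only [← exp_nat_mul, ← exp_add]
          exact exp_le_exp.mpr (by nlinarith [mul_nonneg hg.le n0])

theorem surj_small (P : Par K lam r a s1 s2) : F.Unif a fun C _ q => ∀ x ∈ F.X0,
    ∀ v ∈ U fun i => lam i a, ‖v‖ ≤ exp (-(C * q x)) →
      ∃ z, K.Sh a s2 (exp (C * q x) * ‖v‖) x z ∧ F.H a x z = v := by
  obtain ⟨g, hg, -, g1, g2, -, g3, g4⟩ := P.exists_gap
  obtain ⟨C1, ε1, c1, hε1, hps⟩ := F.exists_pseudo P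
  have r2 : (2 : ℝ) ≤ r := by exact_mod_cast P.two_le
  have l0 := J.L0_nonneg
  have ll := mul_nonneg l0 K.L_nonneg
  have eg : 0 < 1 - exp (-g) := sub_pos.mpr (exp_lt_one_iff.mpr (by linarith))
  have cg : 0 ≤ -log (1 - exp (-g)) :=
    neg_nonneg.mpr (log_nonpos eg.le (by linarith [exp_pos (-g)]))
  obtain ⟨B, hB⟩ : ∃ B, B = J.L0 + 2 * (J.L0 * K.L) - log (1 - exp (-g)) := ⟨_, rfl⟩
  have B0 : 0 ≤ B := by linarith
  obtain ⟨C, hC⟩ := exists_nat_ge (C1 + B + 1)
  have c0 : (0 : ℝ) ≤ C1 := C1.cast_nonneg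
  refine ⟨C, min ε1 (g / (C1 + J.L0 * K.L + r + 1)), by exact_mod_cast (by linarith : (1 : ℝ) ≤ C),
    lt_min hε1 (by positivity), fun ε q hε T x hx v hv hn => ?_⟩
  have e0 := T.pos
  have q1 := T.one_le x
  have he : ε * (C1 + J.L0 * K.L + r + 1) ≤ g :=
    (le_div_iff₀ (by positivity)).mp (hε.trans (min_le_right _ _))
  have hn1 : ‖v‖ ≤ exp (-(C1 * q x)) := hn.trans (exp_le_exp.mpr (by nlinarith))
  obtain ⟨w, hw⟩ := hps ε q (hε.trans (min_le_left _ _)) T x hx v hv hn1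
  have rs : r * s1 + 2 * g ≤ r * s2 := by nlinarith
  obtain ⟨z, hz⟩ := exists_shadow T hx (w := w) (η := exp (C1 * q x) * ‖v‖)
    (ρ := r * s2 - C1 * ε) hg (by positivity) (by nlinarith) fun n => (hw n).2.2.2.trans_eq (by
      rw [mul_right_comm (exp _), ← exp_add]
      congr 2
      ring)
  have hz' : ∀ n : ℕ, dist (K.mv (-(n • a)) x z) (w n) ≤
      exp ((C1 + B) * q x - (r * s2 - g) * n) * ‖v‖ := fun n => (hz n).trans (by
    have n0 : (0 : ℝ) ≤ n := n.cast_nonneg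
    rw [← exp_log eg, mul_right_comm (exp _), mul_div_right_comm, ← exp_add, ← exp_sub]
    refine mul_le_mul_of_nonneg_right (exp_le_exp.mpr ?_) (norm_nonneg _)
    have : ε * (C1 + J.L0 * K.L) * n ≤ g * n := mul_le_mul_of_nonneg_right (by nlinarith) n0
    rw [hB]
    nlinarith)
  have small : ∀ n : ℕ, exp (C1 * q x - s2 * n) * ‖v‖ ≤ exp (-(s2 * n)) := fun n =>
    (mul_le_mul_of_nonneg_left hn1 (exp_pos _).le).trans_eq (by
      rw [← exp_add]
      congr 1
      ring)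
  have sh : K.Sh a s2 (exp (C * q x) * ‖v‖) x z := fun n => by
    have n0 : (0 : ℝ) ≤ n := n.cast_nonneg
    refine (dist_triangle _ (w n) _).trans ((add_le_add (hz' n) (hw n).2.2.1).trans ?_)
    rw [← add_mul, mul_right_comm (exp _), ← exp_add]
    refine mul_le_mul_of_nonneg_right ?_ (norm_nonneg _)
    have a1 : exp ((C1 + B) * q x - (r * s2 - g) * n) ≤ exp ((C1 + B) * q x - s2 * n) :=
      exp_le_exp.mpr (by
        have : s2 ≤ r * s2 - g := by nlinarith
        nlinarith)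
    have a2 : exp (C1 * q x - s2 * n) ≤ exp ((C1 + B) * q x - s2 * n) :=
      exp_le_exp.mpr (by nlinarith)
    have a3 : exp (1 + ((C1 + B) * q x - s2 * n)) ≤ exp (C * q x + -(s2 * n)) :=
      exp_le_exp.mpr (by nlinarith)
    rw [exp_add] at a3
    nlinarith [add_one_le_exp (1 : ℝ), exp_pos ((C1 + B) * q x - s2 * n)]
  refine ⟨z, sh, tendsto_nhds_unique (F.tendsto_H P hx ⟨_, sh.mono P.lt.le le_rfl⟩)
    (F.surj_lim P T hg g1 g2 g3 (by nlinarith) hx hv (C := (C1 + B) * q x)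
      (fun n => (hw n).1.trans (small n)) (fun n => (hw n).2.1)
      (fun n => (hw n).2.2.1.trans (small n)) fun n => (hz' n).trans ?_)⟩
  exact mul_le_of_le_one_right (exp_pos _).le (hn1.trans (exp_le_one_iff.mpr (by nlinarith)))

theorem surj (P : Par K lam r a s1 s2) : F.Unif a fun C _ q => ∀ x ∈ F.X0,
    ∀ v ∈ U fun i => lam i a, ∀ R, 0 ≤ R → ‖v‖ ≤ exp R →
      ∃ z, K.Sh a s2 (exp (C * (q x + R)) * ‖v‖) x z ∧ F.H a x z = v := by
  obtain ⟨g, hg, g0, g1, g2, g3, -, -⟩ := P.exists_gap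
  obtain ⟨C2, ε2, c2, hε2, hsm⟩ := F.surj_small P
  have l0 := J.L0_nonneg
  have ll := mul_nonneg l0 K.L_nonneg
  have A0 := F.pc.nonneg
  have c0 : (0 : ℝ) ≤ C2 := C2.cast_nonneg
  have r0 : (0 : ℝ) ≤ r := r.cast_nonneg
  obtain ⟨C', hC'⟩ : ∃ C', C' = (F.A + r + C2 + 2) / g := ⟨_, rfl⟩
  have C'0 : 0 ≤ C' := hC' ▸ by positivity
  obtain ⟨B, hB⟩ : ∃ B, B = J.L0 * K.L * (‖a‖ + 1) := ⟨_, rfl⟩
  have B0 : 0 ≤ B := hB ▸ by positivity
  obtain ⟨C, hC⟩ := exists_nat_ge (C2 + F.A + r + 1 + J.L0 + 2 * (J.L0 * K.L) + (C' + 1) * B)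
  refine ⟨C, min ε2 (g / (C2 + 1)), by
    exact_mod_cast (by linarith [mul_nonneg (by linarith : 0 ≤ C' + 1) B0] : (1 : ℝ) ≤ C),
    lt_min hε2 (by positivity), fun ε q hε T x hx v hv R hR hn => ?_⟩
  have e0 := T.pos
  have q1 := T.one_le x
  have he : ε * (C2 + 1) ≤ g := (le_div_iff₀ (by positivity)).mp (hε.trans (min_le_right _ _))
  obtain ⟨m, m1, m2⟩ : ∃ m : ℕ, C' * (q x + R) ≤ m ∧ (m : ℝ) ≤ (C' + 1) * (q x + R) :=
    ⟨⌈C' * (q x + R)⌉₊, Nat.le_ceil _, (Nat.ceil_lt_add_one (by positivity)).le.trans (by linarith)⟩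
  have m0 : (0 : ℝ) ≤ m := m.cast_nonneg
  have m3 : (F.A + r + C2 + 2) * (q x + R) ≤ g * m := by
    rw [hC', div_mul_eq_mul_div, div_le_iff₀ hg] at m1
    linarith
  have xm := F.inv0 (-(m • a)) x hx
  have vm := F.N_mem a (-(m • a)) hx hv
  have qm := T.slow_b m x hx
  have em := mul_le_mul_of_nonneg_right he m0
  have hb : ‖evv (F.N (-(m • a)) x) v‖ ≤ exp (F.A + r * R + q x - (s2 + g - ε) * m) * ‖v‖ := by
    refine (pi_norm_le_iff_of_nonneg (by positivity)).mpr fun i => ?_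
    rcases le_or_gt (lam i a) 0 with h | h
    · rw [vm i h, norm_zero]
      positivity
    · refine (F.pc.ev_le _ v R hR hn).trans (mul_le_mul_of_nonneg_right ?_ (norm_nonneg _))
      refine (mul_le_mul_of_nonneg_left (T.N_b m x hx i) (exp_pos _).le).trans ?_
      rw [← exp_add]
      exact exp_le_exp.mpr (by nlinarith [mul_le_mul_of_nonneg_right (g3 i h) m0])
  obtain ⟨z, h1, h2⟩ := hsm ε q (hε.trans (min_le_left _ _)) T _ xm _ vm (hb.trans (by
    refine (mul_le_mul_of_nonneg_left hn (exp_pos _).le).trans ?_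
    rw [← exp_add]
    refine exp_le_exp.mpr ?_
    have : g * m ≤ s2 * m := mul_le_mul_of_nonneg_right (by linarith [P.s1_pos]) m0
    nlinarith [mul_le_mul_of_nonneg_left qm c0]))
  refine ⟨_, (h1.fwd (by linarith) m).mono le_rfl ?_, ?_⟩
  · refine (mul_le_mul_of_nonneg_right (mul_le_mul_of_nonneg_left hb (exp_pos _).le)
      (exp_pos _).le).trans ?_
    rw [← mul_assoc, mul_right_comm _ ‖v‖, ← exp_add, ← exp_add]
    refine mul_le_mul_of_nonneg_right (exp_le_exp.mpr ?_) (norm_nonneg _)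
    have a1 := mul_le_mul_of_nonneg_left (T.h_back m hx) ll
    have a2 := mul_le_mul_of_nonneg_left qm c0
    have a3 := mul_le_mul_of_nonneg_left m2 B0
    have a4 := mul_le_mul_of_nonneg_right hC (by linarith : 0 ≤ q x + R)
    have a5 : J.L0 * K.L * (ε * m) ≤ J.L0 * K.L * m :=
      mul_le_mul_of_nonneg_left (mul_le_of_le_one_left m0 (by nlinarith)) ll
    have a6 : B * m = J.L0 * K.L * (m * ‖a‖) + J.L0 * K.L * m := by
      rw [hB]
      ring
    have a7 := mul_nonneg (add_nonneg (add_nonneg A0 l0) ll) (by linarith : 0 ≤ q x + R - 1)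
    have a8 := mul_nonneg (add_nonneg c0 ll) hR
    have a9 := mul_nonneg r0 (by linarith : 0 ≤ q x)
    nlinarith
  · have := F.H_mv P (m • a) xm ⟨_, h1.mono P.lt.le le_rfl⟩
    rwa [S.act_neg, h2, F.N_U_neg P _ hx hv] at this

/-- Points of the leaf approach the base point with the better rate. -/
theorem upgrade (P : Par K lam r a s1 s2) : F.Unif a fun C _ q => ∀ x ∈ F.X0,
    ∀ z ∈ K.Wu a s1 x, ∀ R, 0 ≤ R → ‖F.H a x z‖ ≤ exp R →
      K.Sh a s2 (exp (C * (q x + R)) * ‖F.H a x z‖) x z := by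
  obtain ⟨C, ε0, h1, h2, h⟩ := F.surj P
  refine ⟨C, ε0, h1, h2, fun ε q hε T x hx z hz R hR hv => ?_⟩
  obtain ⟨z', h3, h4⟩ := h ε q hε T x hx _ (F.H_mem P hx hz) R hR hv
  obtain rfl := F.H_inj P hx hz ⟨_, h3.mono P.lt.le le_rfl⟩ h4.symm
  exact h3

theorem Wu_eq (P : Par K lam r a s1 s2) {x : X} (hx : x ∈ F.X0) {z : M} (hz : z ∈ K.Wu a s1 x) :
    z ∈ K.Wu a s2 x := by
  obtain ⟨C, ε0, -, h2, h⟩ := F.upgrade P
  obtain ⟨q, T⟩ := F.exists_temp a h2
  exact ⟨_, h ε0 q le_rfl T x hx z hz ‖F.H a x z‖ (norm_nonneg _)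
    (by linarith [add_one_le_exp ‖F.H a x z‖])⟩

end Formal

end Pool.Agent.P.MP_d483fb_an.Z.NF

end

end
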