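import Pool.Agent.P.MP_d483fb_an.M.A16
import Pool.Agent.P.MP_d483fb_an.M.A27
import Pool.Agent.P.MP_d483fb_an.M.A31

section

/-!
Normal forms: the leaves are invariant under the action and under holonomies.
-/

open MeasureTheory Filter Topology Set Real

set_option linter.unusedSectionVars false

noncomputable section

namespace Pool.Agent.P.MP_d483fb_an.Z.NF

open Os

variable {W X Γ M : Type} [NormedAddCommGroup W] [NormedSpace ℝ W] [MeasurableSpace W]
  [MeasurableSpace X] {μ : Measure X} [Group Γ] [MeasurableSpace Γ] [MetricSpace M]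
  [MeasurableSpace M] {α : Γ →* Equiv.Perm M} {len : Γ → ℝ} {D : ℕ}
  {S : Sys W X μ} {J : Jets α len D} {K : Skew S J} {lam : Fin D → W →L[ℝ] ℝ} {r : ℕ}
  {a : W} {s1 s2 : ℝ}

namespace Formal

variable (F : Formal K lam r)

theorem hol_lip (P : Par K lam r a s1 s2) : F.Unif a fun C _ q => ∀ x ∈ F.X0, ∀ x' ∈ F.X0,
    ∀ γ C0, 0 ≤ C0 → K.Hol a C0 x x' γ → ∀ (n : ℕ) z z',
    dist (α (K.hol a n x x' γ) z) (α (K.hol a n x x' γ) z') ≤
      exp (C * (q x + q x' + C0) + (s2 - s1) * n) * dist z z' := by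
  obtain ⟨C, hC⟩ := exists_nat_ge (J.L0 * (1 + K.L) + 1)
  have h0 := J.L0_nonneg
  have hL := K.L_nonneg
  have hLL := mul_nonneg h0 hL
  have hg := sub_pos.2 P.lt
  have hC1 : (1 : ℝ) ≤ C := by nlinarith
  refine ⟨C, (s2 - s1) / (2 * (J.L0 * K.L) + 1), by exact_mod_cast hC1, by positivity,
    fun ε q hε T x hx x' hx' γ C0 hC0 h n z z' => ?_⟩
  refine (J.lip _ z z').trans (mul_le_mul_of_nonneg_right (exp_le_exp.2 ?_) dist_nonneg)
  have h1 := T.h_back n hx
  have h2 := T.h_back n hx'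
  have h3 : len (K.hol a n x x' γ) ≤ C0 + K.L * (q x + q x' + 2 * (ε * n)) :=
    (h n).trans (by nlinarith)
  have h4 := mul_le_mul_of_nonneg_left h3 h0
  have h5 : ε * (2 * (J.L0 * K.L) + 1) ≤ s2 - s1 := (le_div_iff₀ (by positivity)).1 hε
  have h6 : 2 * (J.L0 * K.L) * ε ≤ s2 - s1 := by nlinarith [T.pos]
  have h7 := mul_le_mul_of_nonneg_right h6 (Nat.cast_nonneg (α := ℝ) n)
  have q1 := T.one_le x
  have q2 := T.one_le x'
  have h8 : J.L0 * (1 + K.L) * (q x + q x' + C0) ≤ C * (q x + q x' + C0) :=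
    mul_le_mul_of_nonneg_right (by linarith) (by linarith)
  nlinarith [mul_nonneg hLL hC0, mul_nonneg h0 (by linarith : 0 ≤ q x + q x' - 1)]

theorem _root_.Pool.Agent.P.MP_d483fb_an.Z.NF.Skew.Hol.back {x x' : X} {γ : Γ} {C0 : ℝ}
    (h : K.Hol a C0 x x' γ) (m : ℕ) :
    K.Hol a C0 (S.act (-(m • a)) x) (S.act (-(m • a)) x') (K.hol a m x x' γ) := by
  intro n
  have e : -((n + m) • a) = -(n • a) + -(m • a) := by rw [add_nsmul, neg_add]
  have := h (n + m)
  rw [Skew.hol, e, K.β_add, K.β_add, S.add, S.add] at this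
  refine le_of_eq_of_le ?_ this
  simp only [Skew.hol, mul_inv_rev, mul_assoc]

theorem _root_.Pool.Agent.P.MP_d483fb_an.Z.NF.Skew.Hol.abs {x x' : X} {γ : Γ} {C0 : ℝ}
    (h : K.Hol a C0 x x' γ) : K.Hol a |C0| x x' γ := fun n =>
  (h n).trans (by linarith [le_abs_self C0])

/-- Transport of the shadowing property by a holonomy with a given Lipschitz bound. -/
theorem _root_.Pool.Agent.P.MP_d483fb_an.Z.NF.Skew.Sh.hol {x x' : X} {γ : Γ} {z : M} {L C C' : ℝ}
    (hl : ∀ (n : ℕ) z z', dist (α (K.hol a n x x' γ) z) (α (K.hol a n x x' γ) z') ≤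
      exp (L + (s2 - s1) * n) * dist z z')
    (hp : K.Sh a s1 C x (α γ (K.pt x'))) (hz : K.Sh a s2 C' x' z) :
    K.Sh a s1 (C + exp L * C') x (α γ z) := by
  intro n
  have h1 := hl n (K.mv (-(n • a)) x' z) (K.mv (-(n • a)) x' (K.pt x'))
  rw [K.hol_mv, K.hol_mv, K.mv_pt] at h1
  have h2 := h1.trans (mul_le_mul_of_nonneg_left (hz n) (exp_pos _).le)
  have e : exp (L + (s2 - s1) * n) * (C' * exp (-(s2 * n))) = exp L * C' * exp (-(s1 * n)) := by
    rw [mul_left_comm, ← exp_add, mul_comm (exp L), mul_assoc, ← exp_add]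
    congr 2
    ring
  have h3 := dist_triangle (K.mv (-(n • a)) x (α γ z)) (K.mv (-(n • a)) x (α γ (K.pt x')))
    (K.pt (S.act (-(n • a)) x))
  have h4 := hp n
  rw [add_mul]
  linarith

/-- The inverse holonomy maps the base point into the leaf. -/
theorem _root_.Pool.Agent.P.MP_d483fb_an.Z.NF.Skew.Sh.hol_inv {x x' : X} {γ : Γ} {L C : ℝ}
    (hl : ∀ (n : ℕ) z z', dist (α (K.hol a n x' x γ⁻¹) z) (α (K.hol a n x' x γ⁻¹) z') ≤
      exp (L + (s2 - s1) * n) * dist z z')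
    (hp : K.Sh a s2 C x (α γ (K.pt x'))) : K.Sh a s1 (exp L * C) x' (α γ⁻¹ (K.pt x)) := by
  intro n
  have h1 := hl n (K.mv (-(n • a)) x (K.pt x)) (K.mv (-(n • a)) x (α γ (K.pt x')))
  have e0 : α γ⁻¹ (α γ (K.pt x')) = K.pt x' := by simp
  rw [K.hol_mv, K.hol_mv, e0, K.mv_pt, K.mv_pt, dist_comm (K.pt (S.act (-(n • a)) x))] at h1
  refine (h1.trans (mul_le_mul_of_nonneg_left (hp n) (exp_pos _).le)).trans (le_of_eq ?_)
  rw [mul_left_comm, ← exp_add, mul_comm (exp L), mul_assoc, ← exp_add]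
  congr 2
  ring

variable [CompleteSpace M]

theorem mv_mem (P : Par K lam r a s1 s2) (s : W) {x : X} (hx : x ∈ F.X0) {z : M}
    (hz : z ∈ K.Wu a s1 x) : K.mv s x z ∈ K.Wu a s1 (S.act s x) := by
  obtain ⟨C, hC⟩ := F.Wu_eq P hx hz
  have h0 := J.L0_nonneg
  have hL := K.L_nonneg
  have hLL := mul_nonneg h0 hL
  have hg := sub_pos.2 P.lt
  obtain ⟨q, T⟩ := F.exists_temp a (ε := (s2 - s1) / (J.L0 * K.L + 1)) (by positivity)
  set ε := (s2 - s1) / (J.L0 * K.L + 1) with hε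
  have h5 : ε * (J.L0 * K.L + 1) = s2 - s1 := div_mul_cancel₀ _ (by positivity)
  refine ⟨exp (J.L0 * (1 + K.L * (1 + ‖s‖ + q x))) * C, fun n => ?_⟩
  rw [K.mv_mv, ← S.add, add_comm (-(n • a)), K.mv_add, S.add, ← K.mv_pt]
  refine (K.mv_lip _ _ _ _).trans ((mul_le_mul_of_nonneg_left (hC n) (exp_pos _).le).trans ?_)
  rw [mul_left_comm, ← exp_add, mul_comm (exp _) C, mul_assoc, ← exp_add]
  refine mul_le_mul_of_nonneg_left (exp_le_exp.2 ?_) hC.nonneg
  have h1 := mul_le_mul_of_nonneg_left (T.h_back n hx) hLL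
  have h6 : J.L0 * K.L * ε ≤ s2 - s1 := by nlinarith [T.pos]
  have h7 := mul_le_mul_of_nonneg_right h6 (Nat.cast_nonneg (α := ℝ) n)
  nlinarith

theorem hol_mem (P : Par K lam r a s1 s2) {x x' : X} (hx : x ∈ F.X0) (hx' : x' ∈ F.X0) {γ : Γ}
    {C0 : ℝ} (h : K.Hol a C0 x x' γ) (hp : α γ (K.pt x') ∈ K.Wu a s1 x) {z : M}
    (hz : z ∈ K.Wu a s1 x') : α γ z ∈ K.Wu a s1 x := by
  obtain ⟨C, ε0, -, h2, hl⟩ := F.hol_lip P
  obtain ⟨q, T⟩ := F.exists_temp a h2
  obtain ⟨C1, h1⟩ := hp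
  obtain ⟨C2, h3⟩ := F.Wu_eq P hx' hz
  exact ⟨_, Skew.Sh.hol (hl ε0 q le_rfl T x hx x' hx' γ _ (abs_nonneg _) h.abs) h1 h3⟩

theorem hol_symm (P : Par K lam r a s1 s2) {x x' : X} (hx : x ∈ F.X0) (hx' : x' ∈ F.X0) {γ : Γ}
    {C0 : ℝ} (h : K.Hol a C0 x' x γ⁻¹) (hp : α γ (K.pt x') ∈ K.Wu a s1 x) :
    α γ⁻¹ (K.pt x) ∈ K.Wu a s1 x' := by
  obtain ⟨C, ε0, -, h2, hl⟩ := F.hol_lip P
  obtain ⟨q, T⟩ := F.exists_temp a h2
  obtain ⟨C1, h1⟩ := F.Wu_eq P hx hp
  exact ⟨_, Skew.Sh.hol_inv (hl ε0 q le_rfl T x' hx' x hx γ⁻¹ _ (abs_nonneg _) h.abs) h1⟩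

end Formal

end Pool.Agent.P.MP_d483fb_an.Z.NF

end

end

section

/-!
Normal forms: limits of polynomials of bounded degree and subresonance.
-/

open MvPolynomial Filter Topology Real

noncomputable section

namespace Pool.Agent.P.MP_d483fb_an.Z.NF

variable {D r : ℕ}

theorem IsPoly.const (m : ℕ) (c : ℝ) : IsPoly m fun _ : E D => c := by
  exact ⟨C c, by simp, fun v => by simp⟩

theorem IsPoly.coord (j : Fin D) : IsPoly 1 fun v : E D => v j := by
  exact ⟨X j, by simp, fun v => by simp⟩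

theorem IsPoly.add {m : ℕ} {f g : E D → ℝ} (hf : IsPoly m f) (hg : IsPoly m g) :
    IsPoly m fun v => f v + g v := by
  obtain ⟨P, hP, eP⟩ := hf
  obtain ⟨Q, hQ, eQ⟩ := hg
  exact ⟨P + Q, (totalDegree_add P Q).trans (max_le hP hQ), fun v => by rw [map_add, ← eP, ← eQ]⟩

theorem IsPoly.ev {m : ℕ} {f : E D → E D} (hf : ∀ j, IsPoly m fun v => f v j) (t : V D r) :
    IsPoly (r * m) fun v => ev t (f v) := by
  choose P hP eP using hf
  refine ⟨∑ α : Idx D r, C (t α) * ∏ j, P j ^ α.1 j, totalDegree_finsetSum_le fun α _ => ?_,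
    fun v => ?_⟩
  · refine (totalDegree_mul _ _).trans ?_
    rw [totalDegree_C, zero_add]
    refine (totalDegree_finsetProd _ _).trans ((Finset.sum_le_sum fun j _ =>
      (totalDegree_pow _ _).trans (Nat.mul_le_mul_left _ (hP j))).trans ?_)
    rw [← Finset.sum_mul, ← Finsupp.degree_eq_sum]
    exact Nat.mul_le_mul_right _ α.2.2.le
  · simp only [NF.ev, mono, map_sum, map_mul, eval_C, map_prod, map_pow, eP]

/-- The coefficients of a combination of independent functions are bounded by its values. -/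
theorem coef_bound {ι Z : Type} [Fintype ι] (f : ι → Z → ℝ) (B : Set Z)
    (h : ∀ c : ι → ℝ, (∀ z ∈ B, ∑ i, c i * f i z = 0) → c = 0) :
    ∃ (n : ℕ) (z : Fin n → Z) (t : ι → Fin n → ℝ), (∀ k, z k ∈ B) ∧
      ∀ (c : ι → ℝ) (i : ι), c i = ∑ k, t i k * ∑ j, c j * f j (z k) := by
  classical
  have hs : Submodule.span ℝ ((fun z i => f i z) '' B) = ⊤ := by
    by_contra hne
    obtain ⟨l, hl, hk⟩ := Submodule.exists_le_ker_of_lt_top _ (lt_top_iff_ne_top.2 hne)
    have h0 := h (fun i => l fun j => if i = j then 1 else 0) fun z hz => by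
      have h1 : l (fun i => f i z) = 0 := hk (Submodule.subset_span ⟨z, hz, rfl⟩)
      rw [LinearMap.pi_apply_eq_sum_univ] at h1
      simpa only [smul_eq_mul, mul_comm] using h1
    refine hl (LinearMap.ext fun x => ?_)
    rw [LinearMap.pi_apply_eq_sum_univ]
    exact Finset.sum_eq_zero fun i _ => by rw [show l _ = 0 from congrFun h0 i, smul_zero]
  choose T hT hT' using fun i : ι => Submodule.mem_span_finite_of_mem_span
    (hs.ge (Submodule.mem_top (x := (Pi.single i 1 : ι → ℝ))))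
  let T0 := Finset.univ.biUnion T
  have hz : ∀ k, ∃ z ∈ B, (fun i => f i z) = (T0.equivFin.symm k).1 := fun k => by
    obtain ⟨i, -, hi⟩ := Finset.mem_biUnion.1 (T0.equivFin.symm k).2
    exact hT i hi
  choose z hz ez using hz
  have ht : ∀ i, ∃ t : Fin T0.card → ℝ, ∑ k, t k • (fun i => f i (z k)) = Pi.single i 1 := by
    refine fun i => (Submodule.mem_span_range_iff_exists_fun ℝ).1
      (Submodule.span_mono (fun x hx => ?_) (hT' i))
    exact ⟨T0.equivFin ⟨x, Finset.mem_biUnion.2 ⟨i, Finset.mem_univ _, hx⟩⟩,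
      (ez _).trans (by rw [Equiv.symm_apply_apply])⟩
  choose t ht using ht
  refine ⟨_, z, t, hz, fun c i => ?_⟩
  have e : ∀ j, ∑ k, t i k * f j (z k) = (Pi.single i 1 : ι → ℝ) j := fun j => by
    rw [← ht i, Finset.sum_apply]
    rfl
  simp only [Finset.mul_sum, mul_left_comm _ (c _)]
  rw [Finset.sum_comm]
  simp only [← Finset.mul_sum, e]
  simp [Pi.single_apply]

theorem subRes1_of_lim {c : Fin D → ℝ} {c0 : ℝ} {m : ℕ} {p : ℕ → E D → ℝ} {g : E D → ℝ}
    (hp : ∀ n, IsPoly m (p n)) (hl : ∀ v ∈ U c, Tendsto (fun n => p n v) atTop (𝓝 (g v)))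
    (hg : ∀ δ : ℝ, 0 < δ → ∃ C : ℝ, ∀ n : ℕ, ∀ u ∈ U c, ‖u‖ ≤ 1 →
      |g (dil (fun j => c j * n) u)| ≤ C * exp ((c0 + δ) * n)) : SubRes1 c c0 g := by
  classical
  let S : Finset (Fin D →₀ ℕ) := (Finsupp.finite_of_degree_lt (σ := Fin D) (m + 1)).toFinset.filter
    fun α => ∀ j, α j ≠ 0 → 0 < c j
  have hS : ∀ α : S, ∀ j, α.1 j ≠ 0 → 0 < c j := fun α => (Finset.mem_filter.1 α.2).2
  let pr : E D → E D := fun v j => if 0 < c j then v j else 0
  have pr1 : ∀ v, pr v ∈ U c := fun v j hj => if_neg hj.not_gt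
  have pr2 : ∀ v ∈ U c, pr v = v := fun v hv => funext fun j => by
    by_cases hj : 0 < c j
    · exact if_pos hj
    · exact (if_neg hj).trans (hv j (not_lt.1 hj)).symm
  have pr3 : ∀ (α : Fin D →₀ ℕ) v, (∀ j, α j ≠ 0 → 0 < c j) → mono α (pr v) = mono α v :=
    fun α v h => Finset.prod_congr rfl fun j _ => by
      by_cases hj : α j = 0
      · rw [hj, pow_zero, pow_zero]
      · simp only [pr, if_pos (h j hj)]
  let W := Submodule.span ℝ (Set.range fun α : S => mono α.1)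
  have : FiniteDimensional ℝ W := FiniteDimensional.span_of_finite ℝ (Set.finite_range _)
  have hW : ∀ n, (fun v => p n (pr v)) ∈ W := fun n => by
    obtain ⟨P, hP, eP⟩ := hp n
    have e : (fun v => p n (pr v)) = ∑ α ∈ P.support, coeff α P • fun v => mono α (pr v) := by
      funext v
      rw [eP, eval_eq', Finset.sum_apply]
      rfl
    rw [e]
    refine Submodule.sum_mem _ fun α hα => Submodule.smul_mem _ _ ?_
    by_cases h : ∀ j, α j ≠ 0 → 0 < c j
    · refine Submodule.subset_span ⟨⟨α, Finset.mem_filter.2 ⟨?_, h⟩⟩, funext fun v => (pr3 α v h).symm⟩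
      exact (Set.Finite.mem_toFinset _).2 (Nat.lt_succ_of_le ((le_totalDegree hα).trans hP))
    · push Not at h
      obtain ⟨j, h1, h2⟩ := h
      have : (fun v => mono α (pr v)) = 0 := funext fun v =>
        Finset.prod_eq_zero (Finset.mem_univ j) (by rw [pr1 v j h2, zero_pow h1])
      rw [this]
      exact zero_mem _
  obtain ⟨a, ha⟩ := (Submodule.mem_span_range_iff_exists_fun ℝ).1
    (W.closed_of_finiteDimensional.mem_of_tendsto (f := fun n v => p n (pr v))
      (tendsto_pi_nhds.2 fun v => hl _ (pr1 v)) (Eventually.of_forall hW))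
  have ha' : ∀ v, g (pr v) = ∑ α : S, a α * mono α.1 v := fun v => by
    rw [← congrFun ha v, Finset.sum_apply]
    rfl
  have hev : ∀ (b : S → ℝ) v, eval v (∑ α : S, monomial α.1 (b α)) = ∑ α : S, b α * mono α.1 v :=
    fun b v => by simp only [map_sum, eval_monomial, Finsupp.prod_pow, mono]
  have hco : ∀ (b : S → ℝ) (α : S), coeff α.1 (∑ α : S, monomial α.1 (b α)) = b α := fun b α => by
    simp only [coeff_sum, coeff_monomial, Subtype.coe_inj, Finset.sum_ite_eq', Finset.mem_univ,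
      if_true]
  obtain ⟨n, z, t, hz, ht⟩ := coef_bound (fun α : S => mono α.1) {u | ‖u‖ ≤ 1} fun b hb => by
    have e : (∑ α : S, monomial α.1 (b α) : MvPolynomial (Fin D) ℝ) = 0 :=
      funext_set (fun _ => Set.Icc (-1) 1) (fun _ => Set.Icc_infinite (by norm_num)) fun v hv => by
        rw [hev, map_zero]
        exact hb v ((pi_norm_le_iff_of_nonneg zero_le_one).2 fun j => abs_le.2 (hv j trivial))
    funext α
    rw [← hco b α, e, coeff_zero]
    rfl
  refine ⟨∑ α : S, monomial α.1 (a α), fun β hβ => ?_, fun v hv => by rw [hev, ← ha', pr2 v hv]⟩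
  obtain ⟨α, -, hα⟩ := Finset.mem_biUnion.1 (support_sum hβ)
  obtain rfl : β = α.1 := Finset.mem_singleton.1 (support_monomial_subset hα)
  refine ⟨hS α, not_lt.1 fun hlt => ?_⟩
  have h0 : 0 < |a α| := abs_pos.2 (by simpa only [mem_support_iff, hco] using hβ)
  obtain ⟨K, hK⟩ := hg ((wt c α.1 - c0) / 2) (by linarith)
  have key : ∀ k : ℕ, |a α| * exp ((wt c α.1 - c0) / 2 * k) ≤ (∑ i, |t α i|) * K := fun k => by
    have e1 : ∀ (β : Fin D →₀ ℕ) u, mono β (dil (fun j => c j * k) u) =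
        exp (wt c β * k) * mono β u := fun β u => by
      simp only [mono, dil, wt, mul_pow, Finset.prod_mul_distrib, ← exp_nat_mul, ← exp_sum,
        Finset.sum_mul, nsmul_eq_mul, mul_assoc]
    have e2 : ∀ i, |∑ β : S, a β * exp (wt c β.1 * k) * mono β.1 (z i)| ≤
        K * exp ((c0 + (wt c α.1 - c0) / 2) * k) := fun i => by
      have h1 := hK k (pr (z i)) (pr1 _) ((pi_norm_le_iff_of_nonneg zero_le_one).2 fun j => by
        simp only [pr]
        split_ifs
        · exact (norm_le_pi_norm (z i) j).trans (hz i)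
        · simp)
      have h2 : dil (fun j => c j * k) (pr (z i)) = pr (dil (fun j => c j * k) (z i)) := by
        funext j
        simp only [pr, dil, mul_ite, mul_zero]
      simpa only [h2, ha', e1, mul_assoc] using h1
    have e3 := ht (fun β => a β * exp (wt c β.1 * k)) α
    have e4 : |a α| * exp (wt c α.1 * k) ≤
        (∑ i, |t α i|) * (K * exp ((c0 + (wt c α.1 - c0) / 2) * k)) := by
      rw [← abs_of_pos (exp_pos (wt c α.1 * k)), ← abs_mul, e3, Finset.sum_mul]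
      refine (Finset.abs_sum_le_sum_abs _ _).trans (Finset.sum_le_sum fun i _ => ?_)
      rw [abs_mul]
      exact mul_le_mul_of_nonneg_left (e2 i) (abs_nonneg _)
    refine le_of_mul_le_mul_right ?_ (exp_pos ((c0 + (wt c α.1 - c0) / 2) * k))
    rwa [mul_assoc, mul_assoc, ← exp_add,
      show (wt c α.1 - c0) / 2 * k + (c0 + (wt c α.1 - c0) / 2) * k = wt c α.1 * k by ring]
  have hd : 0 < (wt c α.1 - c0) / 2 := by linarith
  obtain ⟨k, hk⟩ := exists_nat_gt ((∑ i, |t α i|) * K / (|a α| * ((wt c α.1 - c0) / 2)))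
  rw [div_lt_iff₀ (mul_pos h0 hd)] at hk
  have := mul_le_mul_of_nonneg_left (add_one_le_exp ((wt c α.1 - c0) / 2 * k)) h0.le
  linarith [key k]

end Pool.Agent.P.MP_d483fb_an.Z.NF

end

end

section

/-!
Normal forms: holonomies are limits of polynomials of bounded degree.
-/

open MeasureTheory Filter Topology Set Real

set_option linter.unusedSectionVars false

noncomputable section

namespace Pool.Agent.P.MP_d483fb_an.Z.NF

open Os

variable {W X Γ M : Type} [NormedAddCommGroup W] [NormedSpace ℝ W] [MeasurableSpace W]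
  [MeasurableSpace X] {μ : Measure X} [Group Γ] [MeasurableSpace Γ] [MetricSpace M]
  [MeasurableSpace M] {α : Γ →* Equiv.Perm M} {len : Γ → ℝ} {D : ℕ}
  {S : Sys W X μ} {J : Jets α len D} {K : Skew S J} {lam : Fin D → W →L[ℝ] ℝ} {r : ℕ}
  {a : W} {s1 s2 : ℝ}

/-- The error of the chain of Taylor approximations of a holonomy. -/
theorem Jets.chain_err (J : Jets α len D) {A Θ η : ℝ} (pc : PC D r A) (hr : 1 ≤ r) {g : Γ}
    {p p' z' : M} {w1 : E D} (t : V D r) {Tr : Jt D r} (h2 : 2 ≤ Θ) (hA : exp A ≤ Θ)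
    (hL0 : exp (J.L0 * (1 + len g)) ≤ Θ) (hLr : exp (J.Lr r * (1 + len g)) ≤ Θ) (hη0 : 0 ≤ η)
    (hη : Θ ^ (r + 8) * η ≤ 1) (hz : dist z' p' ≤ η) (hp : dist (α g p') p ≤ η)
    (hw : ‖J.c p' z' - w1‖ ≤ Θ * η ^ r)
    (hTr : dist (α g p') p ≤ exp (-J.Lr r) → ‖Tr‖ ≤ exp (J.Lr r) ∧
      ∀ z, dist z (α g p') ≤ exp (-J.Lr r) →
        ‖J.c p z - J.c p (α g p') - evv Tr (J.c (α g p') z)‖
          ≤ exp (J.Lr r) * dist z (α g p') ^ r) :
    |ev t (J.c p (α g p') + evv Tr (evv (J.T r g p') w1)) - ev t (J.c p (α g z'))|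
      ≤ Θ ^ (r + 8) * ‖t‖ * η ^ r := by
  have h1 : 1 ≤ Θ := by linarith
  have h0 : 0 < Θ := by linarith
  have hlen := J.len_nonneg g
  have hL0' : exp J.L0 ≤ Θ :=
    (exp_le_exp.2 (by nlinarith [J.L0_nonneg])).trans hL0
  have hLr' : exp (J.Lr r) ≤ Θ :=
    (exp_le_exp.2 (by nlinarith [J.Lr_nonneg r])).trans hLr
  have hA' : exp (A + r * 0) ≤ Θ := by simpa using hA
  have small : ∀ j, j ≤ r + 8 → Θ ^ j * η ≤ 1 := fun j hj =>
    le_trans (by gcongr) hη
  have small' : ∀ j (c : ℝ), j ≤ 7 → exp c ≤ Θ → Θ ^ j * η ≤ exp (-c) := by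
    intro j c hj hc
    rw [exp_neg, ← one_div, le_div_iff₀ (exp_pos c)]
    calc Θ ^ j * η * exp c ≤ Θ ^ j * η * Θ := by gcongr
      _ = Θ ^ (j + 1) * η := by ring
      _ ≤ 1 := small _ (by omega)
  have hη1 : η ≤ 1 := by simpa using small 0 (by omega)
  have hηr : η ^ r ≤ η := pow_le_of_le_one hη0 hη1 (by omega)
  have hηr0 : 0 ≤ η ^ r := by positivity
  have dbl : ∀ (i j k : ℕ) (y : ℝ), 0 ≤ y → i ≤ k → j ≤ k →
      Θ ^ i * y + Θ ^ j * y ≤ Θ ^ (k + 1) * y := by
    intro i j k y hy hi hj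
    calc Θ ^ i * y + Θ ^ j * y ≤ Θ ^ k * y + Θ ^ k * y := by gcongr
      _ = 2 * (Θ ^ k * y) := by ring
      _ ≤ Θ * (Θ ^ k * y) := by gcongr
      _ = _ := by ring
  have hz0 : dist z' p' ≤ Θ ^ 0 * η := by simpa using hz
  have hp0 : dist (α g p') p ≤ Θ ^ 0 * η := by simpa using hp
  have nu1 : ‖J.c p' z'‖ ≤ Θ ^ 1 * η :=
    (J.c_le (hz0.trans (small' 0 _ (by omega) hL0'))).trans (by rw [pow_one]; gcongr)
  have nw1 : ‖w1‖ ≤ Θ ^ 2 * η := by
    refine (norm_le_norm_add_norm_sub' w1 (J.c p' z')).trans ?_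
    rw [norm_sub_rev]
    refine le_trans (add_le_add nu1 (hw.trans ?_)) (dbl 1 1 1 η hη0 le_rfl le_rfl)
    rw [pow_one]
    gcongr
  have e1 : ‖evv (J.T r g p') w1 - evv (J.T r g p') (J.c p' z')‖ ≤ Θ ^ 3 * η ^ r := by
    refine (pc.evv_lip _ _ _ le_rfl (by simpa using nw1.trans (small 2 (by omega)))
      (by simpa using nu1.trans (small 1 (by omega)))).trans ?_
    rw [norm_sub_rev]
    calc _ ≤ Θ * Θ * (Θ * η ^ r) := by gcongr; exact (J.T_le r g p').trans hLr
      _ = _ := by ring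
  have e2 : ‖J.c (α g p') (α g z') - evv (J.T r g p') (J.c p' z')‖ ≤ Θ ^ 1 * η ^ r :=
    (J.jet r g p' z' (hz0.trans (small' 0 _ (by omega) hLr))).trans (by rw [pow_one]; gcongr)
  have e3 : ‖evv (J.T r g p') w1 - J.c (α g p') (α g z')‖ ≤ Θ ^ 4 * η ^ r := by
    refine (norm_sub_le_norm_sub_add_norm_sub _ (evv (J.T r g p') (J.c p' z')) _).trans ?_
    rw [norm_sub_rev (evv (J.T r g p') (J.c p' z'))]
    exact (add_le_add e1 e2).trans (dbl 3 1 3 _ hηr0 le_rfl (by omega))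
  have d2 : dist (α g z') (α g p') ≤ Θ ^ 1 * η :=
    (J.lip g z' p').trans (by rw [pow_one]; gcongr)
  have nu2 : ‖J.c (α g p') (α g z')‖ ≤ Θ ^ 2 * η :=
    (J.c_le (d2.trans (small' 1 _ (by omega) hL0'))).trans (by
      calc _ ≤ Θ * (Θ ^ 1 * η) := by gcongr
        _ = _ := by ring)
  have nw2 : ‖evv (J.T r g p') w1‖ ≤ Θ ^ 5 * η := by
    refine (norm_le_norm_add_norm_sub' _ (J.c (α g p') (α g z'))).trans ?_
    exact le_trans (add_le_add nu2 (e3.trans (by gcongr))) (dbl 2 4 4 η hη0 (by omega) le_rfl)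
  obtain ⟨hT1, hT2⟩ := hTr (hp0.trans (small' 0 _ (by omega) hLr'))
  have e4 : ‖evv Tr (evv (J.T r g p') w1) - evv Tr (J.c (α g p') (α g z'))‖ ≤ Θ ^ 6 * η ^ r := by
    refine (pc.evv_lip _ _ _ le_rfl (by simpa using nw2.trans (small 5 (by omega)))
      (by simpa using nu2.trans (small 2 (by omega)))).trans ?_
    calc _ ≤ Θ * Θ * (Θ ^ 4 * η ^ r) := by gcongr; exact hT1.trans hLr'
      _ = _ := by ring
  have e5 : ‖J.c p (α g z') - J.c p (α g p') - evv Tr (J.c (α g p') (α g z'))‖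
      ≤ Θ ^ (r + 1) * η ^ r := by
    refine (hT2 _ (d2.trans (small' 1 _ (by omega) hLr'))).trans ?_
    calc _ ≤ Θ * (Θ ^ 1 * η) ^ r := by gcongr
      _ = _ := by ring
  have e6 : ‖J.c p (α g p') + evv Tr (evv (J.T r g p') w1) - J.c p (α g z')‖
      ≤ Θ ^ (r + 7) * η ^ r := by
    have : J.c p (α g p') + evv Tr (evv (J.T r g p') w1) - J.c p (α g z')
        = (evv Tr (evv (J.T r g p') w1) - evv Tr (J.c (α g p') (α g z')))
          - (J.c p (α g z') - J.c p (α g p') - evv Tr (J.c (α g p') (α g z'))) := by abel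
    rw [this]
    exact (norm_sub_le _ _).trans ((add_le_add e4 e5).trans
      (dbl 6 (r + 1) (r + 6) _ hηr0 (by omega) (by omega)))
  have d3 : dist (α g z') p ≤ Θ ^ 2 * η :=
    (dist_triangle _ (α g p') _).trans ((add_le_add d2 hp0).trans
      (dbl 1 0 1 η hη0 le_rfl (by omega)))
  have nu3 : ‖J.c p (α g z')‖ ≤ Θ ^ 3 * η :=
    (J.c_le (d3.trans (small' 2 _ (by omega) hL0'))).trans (by
      calc _ ≤ Θ * (Θ ^ 2 * η) := by gcongr
        _ = _ := by ring)
  have nw3 : ‖J.c p (α g p') + evv Tr (evv (J.T r g p') w1)‖ ≤ Θ ^ (r + 8) * η := by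
    refine (norm_le_norm_add_norm_sub' _ (J.c p (α g z'))).trans ?_
    exact le_trans (add_le_add nu3 (e6.trans (by gcongr)))
      (dbl 3 (r + 7) (r + 7) η hη0 (by omega) le_rfl)
  refine (pc.ev_lip t _ _ 0 le_rfl (by simpa using nw3.trans hη)
    (by simpa using nu3.trans (small 3 (by omega)))).trans ?_
  calc _ ≤ Θ * ‖t‖ * (Θ ^ (r + 7) * η ^ r) := by gcongr
    _ = _ := by ring

theorem Formal.hol_lim [CompleteSpace M] (F : Formal K lam r) (P : Par K lam r a s1 s2) {x x' : X}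
    (hx : x ∈ F.X0) (hx' : x' ∈ F.X0) {γ : Γ} {C0 : ℝ} (h : K.Hol a C0 x x' γ)
    (hp : α γ (K.pt x') ∈ K.Wu a s1 x) (i : Fin D) :
    ∃ (m : ℕ) (p : ℕ → E D → ℝ), (∀ n, IsPoly m (p n)) ∧ ∀ z ∈ K.Wu a s1 x',
      Tendsto (fun n => p n (F.H a x' z)) atTop (𝓝 (F.H a x (α γ z) i)) := by
  have htr : ∀ p p' : M, ∃ T : Jt D r, dist p' p ≤ exp (-J.Lr r) → ‖T‖ ≤ exp (J.Lr r) ∧
      ∀ z, dist z p' ≤ exp (-J.Lr r) →
        ‖J.c p z - J.c p p' - evv T (J.c p' z)‖ ≤ exp (J.Lr r) * dist z p' ^ r := by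
    intro p p'
    by_cases hd : dist p' p ≤ exp (-J.Lr r)
    · exact (J.tr r p p' hd).imp fun _ h _ => h
    · exact ⟨0, fun h => absurd h hd⟩
  choose Tr hTr using htr
  refine ⟨r * (r * (r * (r * (r * 1)))), fun n v => ev (F.Jn a n x i)
    (J.c (K.pt (S.act (-(n • a)) x)) (α (K.hol a n x x' γ) (K.pt (S.act (-(n • a)) x'))) +
      evv (Tr (K.pt (S.act (-(n • a)) x)) (α (K.hol a n x x' γ) (K.pt (S.act (-(n • a)) x'))))
        (evv (J.T r (K.hol a n x x' γ) (K.pt (S.act (-(n • a)) x')))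
          (evv (F.Q (S.act (-(n • a)) x')) (evv (F.N (-(n • a)) x') v)))), fun n => ?_,
    fun z hz => ?_⟩
  · exact IsPoly.ev (fun j => (IsPoly.const _ _).add (IsPoly.ev (fun j => IsPoly.ev
      (fun j => IsPoly.ev (fun j => IsPoly.ev IsPoly.coord _) _) _) _)) _
  obtain ⟨g, hg, -, hgs, -, -, hgr, -⟩ := P.exists_gap
  obtain ⟨C, ε0, hC, hε0, hch⟩ := F.chart_of_H P
  have hL := K.L_nonneg
  have hL0 := J.L0_nonneg
  have hLr := J.Lr_nonneg r
  have hA := F.pc.nonneg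
  have hC0 : (0 : ℝ) ≤ C := Nat.cast_nonneg _
  set c : ℝ := 1 + F.A + (J.L0 + J.Lr r) * (2 + 2 * K.L) + C with hc
  have hc0 : 0 < c := by positivity
  set c' : ℝ := ((r + 8 : ℕ) : ℝ) * c with hc'
  have hc'0 : 0 < c' := by positivity
  set ε : ℝ := min ε0 (g / (2 * (c' + 1))) with hε
  have hεp : 0 < ε := lt_min hε0 (by positivity)
  have hεg : (c' + 1) * ε ≤ g / 2 := by
    calc (c' + 1) * ε ≤ (c' + 1) * (g / (2 * (c' + 1))) := by gcongr; exact min_le_right _ _
      _ = g / 2 := by field_simp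
  obtain ⟨q, T⟩ := F.exists_temp a hεp
  obtain ⟨R1, hR1, hs1⟩ := Skew.Wu_exp hz
  obtain ⟨R2, hR2, hs2⟩ := Skew.Wu_exp hp
  have hs1' : K.Sh a s1 (exp (R1 + R2)) x' z := hs1.mono le_rfl (exp_le_exp.2 (by linarith))
  have hs2' : K.Sh a s1 (exp (R1 + R2)) x (α γ (K.pt x')) :=
    hs2.mono le_rfl (exp_le_exp.2 (by linarith))
  have hq := T.one_le x
  have hq' := T.one_le x'
  have habs := abs_nonneg C0
  set b : ℝ := q x + q x' + |C0| with hb
  have hlim := tendsto_pi_nhds.1 (F.tendsto_H P hx (F.hol_mem P hx hx' h hp hz)) i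
  have hdec : ∀ B : ℝ, Tendsto (fun n : ℕ => exp (B - g / 2 * n)) atTop (𝓝 0) := fun B =>
    tendsto_exp_atBot.comp (tendsto_atBot_add_const_left _ B
      (tendsto_neg_atTop_atBot.comp (tendsto_natCast_atTop_atTop.const_mul_atTop (by positivity))))
  refine hlim.congr_dist (squeeze_zero' (Eventually.of_forall fun _ => dist_nonneg) ?_
    (hdec (c' * b + q x + r * (R1 + R2))))
  filter_upwards [(hdec (c' * b + (R1 + R2))).eventually (ge_mem_nhds one_pos)] with n hn
  have hn0 : (0 : ℝ) ≤ n := Nat.cast_nonneg _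
  have hεn : 0 ≤ ε * n := by positivity
  have hτ : 1 ≤ b + ε * n := by linarith
  have hlen : 1 + len (K.hol a n x x' γ) ≤ (2 + 2 * K.L) * (b + ε * n) := by
    have h1 := h.abs n
    have h2 := T.h_back n hx
    have h3 := T.h_back n hx'
    have h4 : K.L * (K.h (S.act (-(n • a)) x) + K.h (S.act (-(n • a)) x'))
        ≤ K.L * (2 * (b + ε * n)) := by
      gcongr
      linarith
    linarith
  have hpos : 0 ≤ (2 + 2 * K.L) * (b + ε * n) := by positivity
  have hexp : c * (b + ε * n) = (b + ε * n) + F.A * (b + ε * n)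
      + J.L0 * ((2 + 2 * K.L) * (b + ε * n)) + J.Lr r * ((2 + 2 * K.L) * (b + ε * n))
      + C * (b + ε * n) := by
    rw [hc]
    ring
  have f1 : F.A ≤ F.A * (b + ε * n) := le_mul_of_one_le_right hA hτ
  have f2 : 0 ≤ C * (b + ε * n) := by positivity
  have f3 := mul_le_mul_of_nonneg_left hlen hL0
  have f4 := mul_le_mul_of_nonneg_left hlen hLr
  have f5 := mul_nonneg hL0 hpos
  have f6 := mul_nonneg hLr hpos
  have f7 := mul_le_mul_of_nonneg_right hεg hn0
  have f8 := mul_le_mul_of_nonneg_right hgs hn0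
  have f9 := mul_le_mul_of_nonneg_right (hgr i) hn0
  have f10 := mul_nonneg hg.le hn0
  have hΘ : ∀ y : ℝ, y ≤ c * (b + ε * n) → exp y ≤ exp (c * (b + ε * n)) := fun y => exp_le_exp.2
  have hpow : exp (c * (b + ε * n)) ^ (r + 8) = exp (c' * (b + ε * n)) := by
    rw [← exp_nat_mul, hc', mul_assoc]
  have hη : exp (c * (b + ε * n)) ^ (r + 8) * (exp (R1 + R2) * exp (-(s1 * n))) ≤ 1 := by
    rw [hpow, ← exp_add, ← exp_add]
    refine le_trans (exp_le_exp.2 ?_) hn
    linarith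
  have hCq : (C : ℝ) * q (S.act (-(n • a)) x') ≤ c * (b + ε * n) := by
    have h1 := T.slow_b n x' hx'
    have h2 : (C : ℝ) * q (S.act (-(n • a)) x') ≤ C * (b + ε * n) := by
      gcongr
      linarith
    linarith
  have hsm : exp (R1 + R2) * exp (-(s1 * n)) ≤ exp (-(C * q (S.act (-(n • a)) x'))) := by
    rw [exp_neg (C * _), ← one_div, le_div_iff₀ (exp_pos _), mul_comm]
    refine le_trans ?_ hη
    gcongr
    exact (hΘ _ hCq).trans (le_self_pow₀ (one_le_exp (by positivity)) (by omega))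
  have hw := (hch ε q (min_le_left _ _) T _ (F.inv0 (-(n • a)) x' hx') _ _ hsm (hs1'.back n)).2
  rw [F.H_mv P _ hx' hz] at hw
  have hpp : α (K.hol a n x x' γ) (K.pt (S.act (-(n • a)) x'))
      = K.mv (-(n • a)) x (α γ (K.pt x')) := by rw [← K.mv_pt, K.hol_mv]
  have key := J.chain_err F.pc (by linarith [P.two_le]) (F.Jn a n x i)
    (Θ := exp (c * (b + ε * n))) (g := K.hol a n x x' γ) (p := K.pt (S.act (-(n • a)) x))
    ((by linarith [add_one_le_exp (1 : ℝ)] : (2 : ℝ) ≤ exp 1).trans (hΘ _ (by linarith)))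
    (hΘ _ (by linarith)) (hΘ _ (by linarith)) (hΘ _ (by linarith))
    (by positivity) hη (hs1' n) (by rw [hpp]; exact hs2' n)
    (hw.trans (by gcongr)) (hTr _ _)
  rw [dist_comm, Real.dist_eq]
  rw [K.hol_mv] at key
  refine key.trans ?_
  rw [hpow, ← exp_add, ← exp_nat_mul]
  calc _ ≤ exp (c' * (b + ε * n)) * exp (q x + lam i a * n + ε * n)
        * exp (r * (R1 + R2 + -(s1 * n))) := by gcongr; exact T.J_le n x hx i
    _ ≤ _ := by
      rw [← exp_add, ← exp_add]
      refine exp_le_exp.2 ?_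
      linarith

end Pool.Agent.P.MP_d483fb_an.Z.NF

end

end

section

/-!
Normal forms: holonomies are subresonant polynomial maps.
-/

open MeasureTheory Filter Topology Set Real

set_option linter.unusedSectionVars false

noncomputable section

namespace Pool.Agent.P.MP_d483fb_an.Z.NF

open Os

variable {W X Γ M : Type} [NormedAddCommGroup W] [NormedSpace ℝ W] [MeasurableSpace W]
  [MeasurableSpace X] {μ : Measure X} [Group Γ] [MeasurableSpace Γ] [MetricSpace M]
  [MeasurableSpace M] {α : Γ →* Equiv.Perm M} {len : Γ → ℝ} {D : ℕ}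
  {S : Sys W X μ} {J : Jets α len D} {K : Skew S J} {lam : Fin D → W →L[ℝ] ℝ} {r : ℕ}
  {a : W} {s1 s2 : ℝ}

namespace Formal

variable [CompleteSpace M] (F : Formal K lam r)

theorem hol_growth (P : Par K lam r a s1 s2) {x x' : X} (hx : x ∈ F.X0) (hx' : x' ∈ F.X0) {γ : Γ}
    {C0 : ℝ} (h : K.Hol a C0 x x' γ) (hp : α γ (K.pt x') ∈ K.Wu a s1 x) (i : Fin D) {δ : ℝ}
    (hδ : 0 < δ) : ∃ C : ℝ, ∀ n : ℕ, ∀ u : E D, ‖u‖ ≤ 1 → ∀ z ∈ K.Wu a s1 x',
      F.H a x' z = dil (fun j => lam j a * n) u →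
      |F.H a x (α γ z) i| ≤ C * exp ((lam i a + δ) * n) := by
  obtain ⟨C1, e1, -, he1, h1⟩ := F.upgrade P
  obtain ⟨C2, e2, -, he2, h2⟩ := F.hol_lip P
  obtain ⟨C3, e3, -, he3, h3⟩ := F.H_le P
  set Kc : ℝ := (r + 1) * (C3 * (2 + 2 * C2 + 2 * C1)) + 2 with hKc
  have hK0 : 0 < Kc := by positivity
  set ε : ℝ := min (min e1 e2) (min e3 (δ / Kc)) with hε
  have hε0 : 0 < ε := lt_min (lt_min he1 he2) (lt_min he3 (by positivity))
  have hεδ : Kc * ε ≤ δ := by
    have : ε ≤ δ / Kc := (min_le_right _ _).trans (min_le_right _ _)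
    rwa [le_div_iff₀' hK0] at this
  obtain ⟨q, T⟩ := F.exists_temp a hε0
  replace h1 := h1 ε q ((min_le_left _ _).trans (min_le_left _ _)) T
  replace h2 := h2 ε q ((min_le_left _ _).trans (min_le_right _ _)) T
  replace h3 := h3 ε q ((min_le_right _ _).trans (min_le_left _ _)) T
  obtain ⟨Rp, hRp, hsp⟩ := Skew.Wu_exp hp
  have hA := F.pc.nonneg
  have hq : 0 ≤ q x := zero_le_one.trans (T.one_le x)
  have hq' : 0 ≤ q x' := zero_le_one.trans (T.one_le x')
  let R1 : ℝ → ℝ := fun t => F.A + q x' + t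
  let R2 : ℝ → ℝ := fun t => C1 * (q x' + t + R1 t) + R1 t
  let L : ℝ → ℝ := fun t => C2 * (q x + t + (q x' + t) + |C0|)
  let R3 : ℝ → ℝ := fun t => Rp + (L t + R2 t) + 1
  let R4 : ℝ → ℝ := fun t => C3 * (q x + t + R3 t)
  let R5 : ℝ → ℝ := fun t => F.A + r * R4 t + (q x + t + t) + R4 t
  have hR5 : ∀ t, R5 t = R5 0 + Kc * t := fun t => by
    simp only [R5, R4, R3, R2, R1, L, hKc]
    ring
  refine ⟨exp (R5 0), fun n u hu z hz hH => ?_⟩
  set t : ℝ := ε * n with ht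
  have ht0 : 0 ≤ t := by positivity
  have hR1 : 0 ≤ R1 t := add_nonneg (add_nonneg hA hq') ht0
  have hR2 : 0 ≤ R2 t :=
    add_nonneg (mul_nonneg C1.cast_nonneg (add_nonneg (add_nonneg hq' ht0) hR1)) hR1
  have hL : 0 ≤ L t := mul_nonneg C2.cast_nonneg
    (add_nonneg (add_nonneg (add_nonneg hq ht0) (add_nonneg hq' ht0)) (abs_nonneg _))
  have hR3 : 0 ≤ R3 t := add_nonneg (add_nonneg hRp (add_nonneg hL hR2)) zero_le_one
  have hR4 : 0 ≤ R4 t := mul_nonneg C3.cast_nonneg (add_nonneg (add_nonneg hq ht0) hR3)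
  have hxn := F.inv0 (-(n • a)) x hx
  have hxn' := F.inv0 (-(n • a)) x' hx'
  have hqn := T.slow_b n x hx
  have hqn' := T.slow_b n x' hx'
  have hv : ‖F.H a (S.act (-(n • a)) x') (K.mv (-(n • a)) x' z)‖ ≤ exp (R1 t) := by
    rw [F.H_mv P _ hx' hz, hH]
    refine (pi_norm_le_iff_of_nonneg (exp_pos _).le).2 fun j => ?_
    have e := (((F.res (-(n • a)) x' hx').apply a j).mul n).ev_dil u
    have b1 := F.pc.ev_le (F.N (-(n • a)) x' j) u 0 le_rfl (by simpa using hu)
    have b2 := T.N_b n x' hx' j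
    show |ev (F.N (-(n • a)) x' j) _| ≤ _
    rw [e, abs_mul, abs_of_pos (exp_pos _)]
    calc exp (lam j a * n) * |ev (F.N (-(n • a)) x' j) u|
        ≤ exp (lam j a * n) * (exp (F.A + r * 0) * exp (q x' - lam j a * n + ε * n) * 1) :=
          mul_le_mul_of_nonneg_left (b1.trans (by gcongr)) (exp_pos _).le
      _ = exp (R1 t) := by
          rw [mul_one, ← exp_add, ← exp_add]
          congr 1
          simp only [R1, ht]
          ring
  have hz2 : K.Sh a s2 (exp (R2 t)) (S.act (-(n • a)) x') (K.mv (-(n • a)) x' z) := by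
    refine (h1 _ hxn' _ (F.mv_mem P _ hx' hz) _ hR1 hv).mono le_rfl ?_
    simp only [R2]
    rw [exp_add]
    gcongr
  have hpn := hsp.back n
  rw [← K.hol_mv a n x x' γ, K.mv_pt] at hpn
  have hy := Skew.Sh.hol (h2 _ hxn _ hxn' _ _ (abs_nonneg C0) (h.abs.back n)) hpn hz2
  rw [K.hol_mv] at hy
  have hy3 : K.Sh a s1 (exp (R3 t)) (S.act (-(n • a)) x) (K.mv (-(n • a)) x (α γ z)) := by
    refine hy.mono le_rfl ?_
    have b1 : exp Rp * exp (-(s1 * n)) ≤ exp (Rp + (L t + R2 t)) := by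
      rw [← exp_add]
      refine exp_le_exp.2 ?_
      have := mul_nonneg P.s1_pos.le (n.cast_nonneg (α := ℝ))
      linarith
    have b2 : exp (C2 * (q (S.act (-(n • a)) x) + q (S.act (-(n • a)) x') + |C0|)) * exp (R2 t) ≤
        exp (Rp + (L t + R2 t)) := by
      rw [← exp_add]
      refine exp_le_exp.2 ?_
      have : C2 * (q (S.act (-(n • a)) x) + q (S.act (-(n • a)) x') + |C0|) ≤ L t := by
        simp only [L]
        gcongr
      linarith
    have b3 : exp (R3 t) = exp (Rp + (L t + R2 t)) * exp 1 := exp_add _ _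
    have b4 := mul_le_mul_of_nonneg_left (add_one_le_exp (1 : ℝ)) (exp_pos (Rp + (L t + R2 t))).le
    linarith
  have hw : ‖F.H a (S.act (-(n • a)) x) (K.mv (-(n • a)) x (α γ z))‖ ≤ exp (R4 t) := by
    refine (h3 _ hxn _ _ hR3 hy3).trans (exp_le_exp.2 ?_)
    simp only [R4]
    gcongr
  have e := F.H_mv P (n • a) hxn ⟨_, hy3⟩
  rw [S.act_neg, K.mv_neg] at e
  have b1 := F.pc.ev_le (F.N (n • a) (S.act (-(n • a)) x) i) _ _ hR4 hw
  have b2 := T.N_f n _ hxn i
  rw [e]
  refine b1.trans ?_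
  calc _ ≤ exp (F.A + r * R4 t) * exp (q x + t + lam i a * n + t) * exp (R4 t) := by
        gcongr
        exact b2.trans (exp_le_exp.2 (by linarith))
    _ = exp (R5 t + lam i a * n) := by
        rw [← exp_add, ← exp_add]
        congr 1
        simp only [R5]
        ring
    _ ≤ _ := by
        rw [← exp_add, hR5 t]
        refine exp_le_exp.2 ?_
        have := mul_le_mul_of_nonneg_right hεδ (n.cast_nonneg (α := ℝ))
        rw [mul_assoc, ← ht] at this
        linarith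

theorem hol_poly (P : Par K lam r a s1 s2) {x x' : X} (hx : x ∈ F.X0) (hx' : x' ∈ F.X0) {γ : Γ}
    {C0 : ℝ} (h : K.Hol a C0 x x' γ) (hp : α γ (K.pt x') ∈ K.Wu a s1 x) {G : E D → M}
    (hG : ∀ v ∈ U fun i => lam i a, G v ∈ K.Wu a s1 x' ∧ F.H a x' (G v) = v) :
    SubRes (fun i => lam i a) fun v => F.H a x (α γ (G v)) := by
  intro i
  obtain ⟨m, p, h1, h2⟩ := F.hol_lim P hx hx' h hp i
  refine subRes1_of_lim h1 (fun v hv => ?_) fun δ hδ => ?_
  · have := h2 _ (hG v hv).1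
    rwa [(hG v hv).2] at this
  · obtain ⟨C, hC⟩ := F.hol_growth P hx hx' h hp i hδ
    exact ⟨C, fun n u hu hu1 => hC n u hu1 _ (hG _ (dil_mem_U hu _)).1 (hG _ (dil_mem_U hu _)).2⟩

end Formal

end Pool.Agent.P.MP_d483fb_an.Z.NF

end

end

section

/-!
Normal forms on the unstable leaves of the fibres.
-/

open MeasureTheory Filter Topology Set Real

set_option linter.unusedSectionVars false

noncomputable section

namespace Pool.Agent.P.MP_d483fb_an.Z.NF

open Os

variable {W X Γ M : Type} [NormedAddCommGroup W] [NormedSpace ℝ W] [MeasurableSpace W]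
  [MeasurableSpace X] {μ : Measure X} [Group Γ] [MeasurableSpace Γ] [MetricSpace M]
  [MeasurableSpace M] {α : Γ →* Equiv.Perm M} {len : Γ → ℝ} {D : ℕ}
  {S : Sys W X μ} {J : Jets α len D} {K : Skew S J} {lam : Fin D → W →L[ℝ] ℝ} {r : ℕ}
  {a : W} {s1 s2 : ℝ}

variable [FiniteDimensional ℝ W] [BorelSpace W] [StandardBorelSpace X] [IsProbabilityMeasure μ]
  [Countable Γ] [DiscreteMeasurableSpace Γ] [CompactSpace M] [BorelSpace M]

theorem Slow.mono {X0 : Set X} {B ε ε' : ℝ} {q : X → ℝ} (h : Slow K X0 B a ε q) (hε : ε ≤ ε') :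
    Slow K X0 B a ε' q where
  pos := h.pos.trans_le hε
  meas := h.meas
  one_le := h.one_le
  big x := (h.big x).trans hε
  h_le := h.h_le
  slowA s x hx := (h.slowA s x hx).trans (by gcongr)
  slow_f n x hx := (h.slow_f n x hx).trans (by gcongr)
  slow_b n x hx := (h.slow_b n x hx).trans (by gcongr)

theorem Formal.exists_H_eq (F : Formal K lam r) (P : Par K lam r a s1 s2) {x : X} (hx : x ∈ F.X0)
    {v : E D} (hv : v ∈ U fun i => lam i a) : ∃ z ∈ K.Wu a s1 x, F.H a x z = v := by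
  obtain ⟨C, ε0, -, h2, h⟩ := F.surj P
  obtain ⟨q, T⟩ := F.exists_temp a h2
  obtain ⟨z, h3, h4⟩ := h ε0 q le_rfl T x hx v hv ‖v‖ (norm_nonneg _)
    (by linarith [add_one_le_exp ‖v‖])
  exact ⟨z, ⟨_, h3.mono P.lt.le le_rfl⟩, h4⟩

theorem Formal.exists_leaf (F : Formal K lam r) (P : Par K lam r a s1 s2) :
    ∃ Lf : Leaf K lam a s1 s2, Lf.X0 = F.X0 := by
  obtain ⟨C1, e1, -, p1, h1⟩ := F.H_le P
  obtain ⟨C2, e2, -, p2, h2⟩ := F.upgrade P
  obtain ⟨C3, e3, -, p3, h3⟩ := F.hol_lip P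
  obtain ⟨C4, e4, o4, p4, h4⟩ := F.track P
  obtain ⟨I, mI, hI⟩ := exists_meas_inv (G := {p : X × M | p.1 ∈ F.X0 ∧ p.2 ∈ K.Wu a s1 p.1})
    ((measurable_fst F.meas0).inter (K.measurableSet_Wu a s1)) (F.measurable_H a)
    (fun x z z' hz hz' e => F.H_inj P hz.1 hz.2 hz'.2 e) K.measPt
  have hG : ∀ x ∈ F.X0, ∀ v ∈ U fun i => lam i a, I x v ∈ K.Wu a s1 x ∧ F.H a x (I x v) = v := by
    intro x hx v hv
    obtain ⟨z, hz, rfl⟩ := F.exists_H_eq P hx hv
    rw [hI x z ⟨hx, hz⟩]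
    exact ⟨hz, rfl⟩
  have c1 : (C1 : ℝ) ≤ (C1 + C2 + C3 + C4 : ℕ) := by exact_mod_cast (by omega)
  have c2 : (C2 : ℝ) ≤ (C1 + C2 + C3 + C4 : ℕ) := by exact_mod_cast (by omega)
  have c3 : (C3 : ℝ) ≤ (C1 + C2 + C3 + C4 : ℕ) := by exact_mod_cast (by omega)
  have c4 : (C4 : ℝ) ≤ (C1 + C2 + C3 + C4 : ℕ) := by exact_mod_cast (by omega)
  have o4' : (1 : ℝ) ≤ C4 := by exact_mod_cast o4
  refine ⟨⟨⟨r, C1 + C2 + C3 + C4, (r + 1) * F.B, F.X0, F.H a, I, F.N, F.meas0, F.ae0, F.inv0,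
    F.measurable_H a, mI, F.measN, fun x hx z hz => F.H_mem P hx hz, fun x _ => F.H_pt a x,
    fun x hx => F.H_inj P hx, fun x hx v hv => (hG x hx v hv).1, fun x hx v hv => (hG x hx v hv).2,
    fun s x hx z hz => F.mv_mem P s hx hz, fun s x hx z hz => F.H_mv P s hx hz, F.res,
    fun x hx x' hx' γ C0 h hp z hz => F.hol_mem P hx hx' h hp hz,
    fun x hx x' hx' γ C0 h hp => F.hol_symm P hx hx' h hp,
    fun x hx x' hx' γ C0 h hp => F.hol_poly P hx hx' h hp (hG x' hx')⟩, fun ε hε => ?_⟩, rfl⟩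
  set e := min (min (min e1 e2) (min e3 e4)) (ε / C4) with he
  have he0 : 0 < e := lt_min (lt_min (lt_min p1 p2) (lt_min p3 p4)) (by positivity)
  have l1 : e ≤ e1 := (min_le_left _ _).trans ((min_le_left _ _).trans (min_le_left _ _))
  have l2 : e ≤ e2 := (min_le_left _ _).trans ((min_le_left _ _).trans (min_le_right _ _))
  have l3 : e ≤ e3 := (min_le_left _ _).trans ((min_le_right _ _).trans (min_le_left _ _))
  have l4 : e ≤ e4 := (min_le_left _ _).trans ((min_le_right _ _).trans (min_le_right _ _))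
  have l5 : e * C4 ≤ ε := (le_div_iff₀ (by positivity)).1 (min_le_right _ _)
  have l6 : e ≤ ε := by nlinarith
  obtain ⟨q, T⟩ := F.exists_temp a he0
  have hq : ∀ x, 0 ≤ q x := fun x => zero_le_one.trans (T.one_le x)
  refine ⟨q, T.toSlow.mono l6, fun s x hx i => (T.N_le s x hx i).trans (by gcongr),
    fun n x hx i => (T.N_f n x hx i).trans (by gcongr),
    fun n x hx i => (T.N_b n x hx i).trans (by gcongr),
    fun x hx z R hR hz => (h1 e q l1 T x hx z R hR hz).trans ?_, fun x hx v hv R hR hvR => ?_,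
    fun x hx x' hx' γ C0 h0 h n z z' => (h3 e q l3 T x hx x' hx' γ C0 h0 h n z z').trans ?_,
    fun x hx t z hz i hi => (h4 e q l4 T x hx t z (fun j hj => (hz j hj).trans ?_) i hi).trans ?_⟩
  · have := hq x
    gcongr
  · have h := h2 e q l2 T x hx _ (hG x hx v hv).1 R hR (by rwa [(hG x hx v hv).2])
    rw [(hG x hx v hv).2] at h
    refine h.mono le_rfl ?_
    have := hq x
    gcongr
  · have := hq x
    have := hq x'
    gcongr
  · exact exp_le_exp.2 (neg_le_neg (mul_le_mul_of_nonneg_right c4 (hq _)))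
  · have := hq (S.act (t • a) x)
    refine add_le_add (by gcongr) (mul_le_mul_of_nonneg_right (exp_le_exp.2 ?_) dist_nonneg)
    nlinarith [mul_le_mul_of_nonneg_right c4 (hq x),
      mul_le_mul_of_nonneg_right l5 (t.cast_nonneg (α := ℝ))]

/-- Normal forms on the unstable leaves of every `a`, for given Oseledets data of the fibre
derivative cocycle; `σ` lists the exponents with their multiplicities. -/
theorem exists_leaf (K : Skew S J) {ι : Type} [Fintype ι] [DecidableEq ι] (o : OseA S K.Dl ι) :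
    ∃ σ : Fin D → ι, (∀ j, (Finset.univ.filter fun i => σ i = j).card = o.d j) ∧
      ∀ (a : W) (s1 s2 : ℝ), 0 < s1 → s1 < s2 → (∀ i, 0 < o.lamL (σ i) a → s2 < o.lamL (σ i) a) →
        Nonempty (Leaf K (fun i => o.lamL (σ i)) a s1 s2) := by
  obtain ⟨σ, h1, ⟨Fr⟩⟩ := exists_frame o o.ae0.exists
  refine ⟨σ, h1, fun a s1 s2 p1 p2 p3 => ?_⟩
  obtain ⟨b, hb⟩ := (finite_range fun i => o.lamL (σ i) a).bddAbove
  obtain ⟨r, hr⟩ := exists_nat_gt (max 2 (max b (J.L0 * K.L * ‖a‖) / s1))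
  have h2 : (2 : ℝ) < r := (le_max_left _ _).trans_lt hr
  have h3 := (div_lt_iff₀ p1).1 ((le_max_right _ _).trans_lt hr)
  have P : Par K (fun i => o.lamL (σ i)) r a s1 s2 :=
    ⟨by exact_mod_cast h2.le, p1, p2, p3,
      fun i => ((hb ⟨i, rfl⟩).trans (le_max_left _ _)).trans_lt h3, (le_max_right _ _).trans_lt h3⟩
  obtain ⟨F⟩ := exists_formal K P.two_le Fr
  obtain ⟨Lf, -⟩ := F.exists_leaf P
  exact ⟨Lf⟩

end Pool.Agent.P.MP_d483fb_an.Z.NF

end

end

section

/-!
Normal forms: subresonant polynomial maps as matrices acting on monomials.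
-/

open MvPolynomial Filter Topology Real
open scoped Matrix Matrix.Norms.Operator

noncomputable section

namespace Pool.Agent.P.MP_d483fb_an.Z.NF

variable {D : ℕ}

/-- Monomials in the variables of positive weight, of bounded weight. -/
def Mon (c : Fin D → ℝ) : Type :=
  {m : Fin D →₀ ℕ // (∀ j, m j ≠ 0 → 0 < c j) ∧ wt c m ≤ ∑ j, |c j|}

theorem nsmul_le_wt {c : Fin D → ℝ} {m : Fin D →₀ ℕ} (h : ∀ j, m j ≠ 0 → 0 < c j) (j : Fin D) :
    m j * c j ≤ wt c m := by
  rw [← nsmul_eq_mul]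
  refine Finset.single_le_sum (f := fun j => m j • c j) (fun i _ => ?_) (Finset.mem_univ j)
  by_cases hi : m i = 0
  · simp [hi]
  · exact nsmul_nonneg (h i hi).le _

theorem exists_deg (c : Fin D → ℝ) : ∃ N : ℕ, ∀ m : Mon c, m.1.degree ≤ N := by
  choose N hN using fun j => exists_nat_ge ((∑ j, |c j|) / c j)
  refine ⟨∑ j, N j, fun m => ?_⟩
  rw [Finsupp.degree_eq_sum]
  refine Finset.sum_le_sum fun j _ => ?_
  by_cases hj : m.1 j = 0
  · simp [hj]
  · have h1 := m.2.1 j hj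
    have h2 := (le_div_iff₀ h1).2 ((nsmul_le_wt m.2.1 j).trans m.2.2)
    exact_mod_cast h2.trans (hN j)

instance (c : Fin D → ℝ) : Finite (Mon c) := by
  obtain ⟨N, hN⟩ := exists_deg c
  exact ((Finsupp.finite_of_degree_le (σ := Fin D) N).subset
    (t := {m | (∀ j, m j ≠ 0 → 0 < c j) ∧ wt c m ≤ ∑ j, |c j|}) fun m h => hN ⟨m, h⟩).to_subtype

instance (c : Fin D → ℝ) : Fintype (Mon c) := Fintype.ofFinite _

instance (c : Fin D → ℝ) : DecidableEq (Mon c) := Classical.decEq _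

variable {c : Fin D → ℝ}

/-- The values of the monomials. -/
def ver (c : Fin D → ℝ) (v : E D) : Mon c → ℝ := fun m => mono m.1 v

theorem wt_zero {Λ : Type} [AddCommMonoid Λ] (lam : Fin D → Λ) : wt lam 0 = 0 := by simp [wt]

theorem wt_add {Λ : Type} [AddCommMonoid Λ] (lam : Fin D → Λ) (m m' : Fin D →₀ ℕ) :
    wt lam (m + m') = wt lam m + wt lam m' := by
  simp [wt, add_smul, Finset.sum_add_distrib]

theorem wt_single {Λ : Type} [AddCommMonoid Λ] (lam : Fin D → Λ) (j : Fin D) :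
    wt lam (Finsupp.single j 1) = lam j := by
  simp [wt, Finsupp.single_apply]

theorem mono_single (j : Fin D) (v : E D) : mono (Finsupp.single j 1) v = v j := by
  simp [mono, Finsupp.single_apply, pow_ite]

/-- The constant monomial. -/
def e0 (c : Fin D → ℝ) : Mon c :=
  ⟨0, fun _ h => absurd rfl h, by rw [wt_zero]; exact Finset.sum_nonneg fun _ _ => abs_nonneg _⟩

/-- The monomial of a variable. -/
def eu (j : Fin D) (h : 0 < c j) : Mon c :=
  ⟨Finsupp.single j 1, fun i hi => by rwa [← (Finsupp.single_apply_ne_zero.1 hi).1] at h, by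
    rw [wt_single]
    exact (le_abs_self _).trans
      (Finset.single_le_sum (f := fun j => |c j|) (fun _ _ => abs_nonneg _) (Finset.mem_univ j))⟩

theorem ver_e0 (v : E D) : ver c v (e0 c) = 1 := by simp [ver, e0, mono]

theorem ver_eu (v : E D) (j : Fin D) (h : 0 < c j) : ver c v (eu j h) = v j := mono_single j v

theorem ver_zero : ver c 0 = Pi.single (e0 c) 1 := by
  funext m
  by_cases h : m = e0 c
  · rw [h, ver_e0, Pi.single_eq_same]
  · rw [Pi.single_eq_of_ne h]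
    have h1 : m.1.degree ≠ 0 := fun h0 => h (Subtype.ext ((Finsupp.degree_eq_zero_iff _).1 h0))
    have := PEv_mono_le m.1 (0 : E D)
    rwa [norm_zero, zero_pow h1, abs_nonpos_iff] at this

/-- The point with given values of the linear monomials. -/
def unver (c : Fin D → ℝ) (y : Mon c → ℝ) : E D := fun j => if h : 0 < c j then y (eu j h) else 0

theorem unver_mem (y : Mon c → ℝ) : unver c y ∈ U c := fun _ hj => dif_neg hj.not_gt

theorem unver_ver {v : E D} (hv : v ∈ U c) : unver c (ver c v) = v := funext fun j => by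
  by_cases h : 0 < c j
  · exact (dif_pos h).trans (ver_eu v j h)
  · exact (dif_neg h).trans (hv j (not_lt.1 h)).symm

theorem norm_unver_le {y : Mon c → ℝ} {R : ℝ} (hR : 0 ≤ R) (h : ∀ m, |y m| ≤ R) :
    ‖unver c y‖ ≤ R := (pi_norm_le_iff_of_nonneg hR).2 fun j => by
  unfold unver
  split_ifs
  · exact h _
  · simpa using hR

theorem continuous_ver : Continuous (ver c) :=
  continuous_pi fun m => by
    unfold ver mono
    fun_prop

theorem continuous_unver : Continuous (unver c) := continuous_pi fun j => by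
  unfold unver
  split_ifs
  · exact continuous_apply _
  · exact continuous_const

theorem ver_ind {b : Mon c → ℝ} (h : ∀ v ∈ U c, ‖v‖ ≤ 1 → ∑ m, b m * ver c v m = 0) : b = 0 := by
  have hco : ∀ m : Mon c, coeff m.1 (∑ m : Mon c, monomial m.1 (b m)) = b m := fun m => by
    have : ∀ m' : Mon c, m'.1 = m.1 ↔ m' = m := fun m' => Subtype.coe_inj
    simp only [coeff_sum, coeff_monomial, this, Finset.sum_ite_eq', Finset.mem_univ, if_true]
  have e : (∑ m : Mon c, monomial m.1 (b m) : MvPolynomial (Fin D) ℝ) = 0 :=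
    funext_set (fun _ => Set.Icc (-1) 1) (fun _ => Set.Icc_infinite (by norm_num)) fun v hv => by
      have h1 : ∀ j, |v j| ≤ 1 := fun j => abs_le.2 (hv j trivial)
      rw [map_sum, map_zero]
      refine Eq.trans (Finset.sum_congr rfl fun m _ => ?_)
        (h (fun j => if 0 < c j then v j else 0) (fun j hj => if_neg hj.not_gt)
        ((pi_norm_le_iff_of_nonneg zero_le_one).2 fun j => by
          split_ifs
          · exact h1 j
          · simp))
      rw [eval_monomial_eq]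
      congr 1
      refine Finset.prod_congr rfl fun j _ => ?_
      by_cases hj : m.1 j = 0
      · rw [hj, pow_zero, pow_zero]
      · simp only [if_pos (m.2.1 j hj)]
  funext m
  rw [← hco m, e, coeff_zero]
  rfl

theorem mat_ext {T T' : Matrix (Mon c) (Mon c) ℝ}
    (h : ∀ v ∈ U c, T *ᵥ ver c v = T' *ᵥ ver c v) : T = T' := by
  ext m m'
  have := ver_ind (b := fun k => T m k - T' m k) fun v hv _ => by
    simp only [sub_mul, Finset.sum_sub_distrib]
    exact sub_eq_zero.2 (congrFun (h v hv) m)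
  exact sub_eq_zero.1 (congrFun this m')

/-- The matrix `T` represents the map `S` of `U c` to itself. -/
def Rp (c : Fin D → ℝ) (S : E D → E D) (T : Matrix (Mon c) (Mon c) ℝ) : Prop :=
  ∀ v ∈ U c, S v ∈ U c ∧ ver c (S v) = T *ᵥ ver c v

variable {S S' : E D → E D} {T T' : Matrix (Mon c) (Mon c) ℝ}

theorem Rp.unique (h : Rp c S T) (h' : Rp c S' T') (e : ∀ v ∈ U c, S v = S' v) : T = T' :=
  mat_ext fun v hv => by rw [← (h v hv).2, ← (h' v hv).2, e v hv]

theorem Rp.comp (h : Rp c S T) (h' : Rp c S' T') : Rp c (fun v => S (S' v)) (T * T') :=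
  fun v hv => ⟨(h _ (h' v hv).1).1, by rw [(h _ (h' v hv).1).2, (h' v hv).2, Matrix.mulVec_mulVec]⟩

theorem rp_id : Rp c (fun v => v) 1 := fun _ hv => ⟨hv, (Matrix.one_mulVec _).symm⟩

theorem Rp.mul_eq_one (h : Rp c S T) (h' : Rp c S' T') (e : ∀ v ∈ U c, S (S' v) = v) :
    T * T' = 1 := (h.comp h').unique rp_id e

theorem rp_dil (c' : Fin D → ℝ) : Rp c (dil c') (Matrix.diagonal fun m => exp (wt c' m.1)) :=
  fun v hv => ⟨dil_mem_U hv c', funext fun m => by rw [Matrix.mulVec_diagonal]; exact mono_dil _ _ _⟩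

theorem Rp.col (h : Rp c S T) (m : Mon c) : T m (e0 c) = ver c (S 0) m := by
  rw [(h 0 (zero_mem_U c)).2, ver_zero, Matrix.mulVec_single_one]
  rfl

/-- Polynomials in the variables of positive weight with monomials of weight at most `u`. -/
def Low (c : Fin D → ℝ) (u : ℝ) (P : MvPolynomial (Fin D) ℝ) : Prop :=
  ∀ α ∈ P.support, (∀ j, α j ≠ 0 → 0 < c j) ∧ wt c α ≤ u

theorem low_one : Low c 0 1 := fun α h => by
  obtain rfl : α = 0 := Finset.mem_singleton.1 (support_monomial_subset h)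
  exact ⟨fun _ h => absurd rfl h, (wt_zero c).le⟩

theorem Low.mul {u u' : ℝ} {P Q : MvPolynomial (Fin D) ℝ} (h : Low c u P) (h' : Low c u' Q) :
    Low c (u + u') (P * Q) := fun α hα => by
  obtain ⟨β, hβ, γ, hγ, rfl⟩ := Finset.mem_add.1 (support_mul P Q hα)
  refine ⟨fun j hj => ?_, (wt_add c β γ).trans_le (add_le_add (h β hβ).2 (h' γ hγ).2)⟩
  by_cases h1 : β j = 0
  · exact (h' γ hγ).1 j fun h2 => hj (by simp [h1, h2])
  · exact (h β hβ).1 j h1

theorem Low.pow {u : ℝ} {P : MvPolynomial (Fin D) ℝ} (h : Low c u P) (n : ℕ) :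
    Low c (n • u) (P ^ n) := by
  induction n with
  | zero => simpa using low_one
  | succ n ih => rw [succ_nsmul, pow_succ]; exact ih.mul h

theorem low_prod {P : Fin D → MvPolynomial (Fin D) ℝ} {u : Fin D → ℝ} (h : ∀ j, Low c (u j) (P j))
    (s : Finset (Fin D)) : Low c (∑ j ∈ s, u j) (∏ j ∈ s, P j) := by
  induction s using Finset.induction_on with
  | empty => simpa using low_one
  | insert j s hj ih => rw [Finset.sum_insert hj, Finset.prod_insert hj]; exact (h j).mul ih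

theorem SubRes.exists_rp (h : SubRes c S) (hU : ∀ v ∈ U c, S v ∈ U c) :
    ∃ T, Rp c S T ∧ ∀ m m', T m m' ≠ 0 → wt c m'.1 ≤ wt c m.1 := by
  choose P hP eP using h
  have hl : ∀ m : Mon c, Low c (wt c m.1) (∏ j, P j ^ m.1 j) := fun m =>
    low_prod (fun j => Low.pow (hP j) _) _
  refine ⟨Matrix.of fun m m' => coeff m'.1 (∏ j, P j ^ m.1 j), fun v hv => ⟨hU v hv, ?_⟩,
    fun m m' h0 => (hl m _ (mem_support_iff.2 h0)).2⟩
  funext m
  have e1 : ver c (S v) m = eval v (∏ j, P j ^ m.1 j) := by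
    simp only [ver, mono, map_prod, map_pow, ← eP _ v hv]
  rw [e1, eval_eq']
  symm
  refine Finset.sum_bij_ne_zero (fun m' _ _ => m'.1) (fun m' _ h0 => ?_)
    (fun _ _ _ _ _ _ e => Subtype.ext e) (fun β hβ h0 => ?_) fun _ _ _ => rfl
  · exact mem_support_iff.2 (left_ne_zero_of_mul h0)
  · exact ⟨⟨β, (hl m β hβ).1, (hl m β hβ).2.trans m.2.2⟩, Finset.mem_univ _, h0, rfl⟩

theorem exists_matOf (c : Fin D → ℝ) :
    ∃ (mt : (E D → E D) → Matrix (Mon c) (Mon c) ℝ) (A : ℝ), 0 ≤ A ∧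
      (∀ S T, Rp c S T → mt S = T) ∧
      (∀ (Y : Type) [MeasurableSpace Y] (S : Y → E D → E D), (∀ v, Measurable fun y => S y v) →
        Measurable fun y => mt (S y)) ∧
      ∀ S R, 0 ≤ R → (∀ v ∈ U c, ‖v‖ ≤ 1 → ‖S v‖ ≤ exp R) → ‖mt S‖ ≤ exp (A * (1 + R)) := by
  obtain ⟨n, z, t, hz, ht⟩ := coef_bound (fun (m : Mon c) v => ver c v m) {v | v ∈ U c ∧ ‖v‖ ≤ 1}
    fun b hb => ver_ind fun v hv hv1 => hb v ⟨hv, hv1⟩
  obtain ⟨N, hN⟩ := exists_deg c
  set b : ℝ := Fintype.card (Mon c) * (n * ‖t‖) with hb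
  have hb0 : 0 ≤ b := by positivity
  refine ⟨fun S => Matrix.of fun m m' => ∑ k, t m' k * ver c (S (z k)) m, b + N, by positivity,
    fun S T h => ?_, fun Y _ S hS => ?_, fun S R hR h => ?_⟩
  · ext m m'
    change ∑ k, t m' k * ver c (S (z k)) m = T m m'
    refine Eq.trans (Finset.sum_congr rfl fun k _ => ?_) (ht (T m) m').symm
    rw [(h _ (hz k).1).2]
    rfl
  · refine measurable_pi_lambda _ fun m => measurable_pi_lambda _ fun m' => ?_
    change Measurable fun y => ∑ k, t m' k * ver c (S y (z k)) m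
    exact Finset.measurable_sum _ fun k _ => (((measurable_pi_apply m).comp
      (continuous_ver.measurable.comp (hS _))).const_mul _)
  · have h1 : ∀ k m, |ver c (S (z k)) m| ≤ exp (N * R) := fun k m => by
      refine (PEv_mono_le _ _).trans ((pow_le_pow_left₀ (norm_nonneg _)
        (h _ (hz k).1 (hz k).2) _).trans ?_)
      rw [exp_nat_mul]
      exact pow_le_pow_right₀ (one_le_exp hR) (hN m)
    refine (norm_le_of_entry (c := n * ‖t‖ * exp (N * R)) (by positivity) fun m m' => ?_).trans ?_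
    · change |∑ k, t m' k * ver c (S (z k)) m| ≤ _
      refine (Finset.abs_sum_le_sum_abs _ _).trans ((Finset.sum_le_card_nsmul _ _
        (‖t‖ * exp (N * R)) fun k _ => ?_).trans_eq ?_)
      swap
      · simp [mul_assoc]
      rw [abs_mul]
      exact mul_le_mul ((norm_le_pi_norm (t m') k).trans (norm_le_pi_norm t m')) (h1 k m)
        (abs_nonneg _) (norm_nonneg _)
    · rw [← mul_assoc, ← hb]
      refine (mul_le_mul_of_nonneg_right (by linarith [add_one_le_exp b] : b ≤ exp b)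
        (exp_pos _).le).trans ?_
      rw [← exp_add, exp_le_exp]
      nlinarith [N.cast_nonneg (α := ℝ), mul_nonneg hb0 hR]

end Pool.Agent.P.MP_d483fb_an.Z.NF

end

end

section

/-!
Normal forms: the group of the matrices that preserve the variety of the values of the monomials.
-/

open Filter Topology Real Asymptotics
open scoped Matrix Matrix.Norms.Operator

noncomputable section

namespace Pool.Agent.P.MP_d483fb_an.Z.NF

variable {D : ℕ} {c : Fin D → ℝ} {S S' : E D → E D} {T T' : Matrix (Mon c) (Mon c) ℝ}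

/-- `T` maps the values of the monomials on `U c` to such values. -/
def Pres (c : Fin D → ℝ) (T : Matrix (Mon c) (Mon c) ℝ) : Prop :=
  ∀ v ∈ U c, T *ᵥ ver c v = ver c (unver c (T *ᵥ ver c v))

theorem Rp.pres (h : Rp c S T) : Pres c T := fun v hv => by
  rw [← (h v hv).2, unver_ver (h v hv).1]

theorem Pres.rp (h : Pres c T) : Rp c (fun v => unver c (T *ᵥ ver c v)) T :=
  fun v hv => ⟨unver_mem _, (h v hv).symm⟩

theorem isClosed_pres (c : Fin D → ℝ) : IsClosed {T | Pres c T} := by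
  have : {T | Pres c T} = ⋂ v ∈ U c, {T | T *ᵥ ver c v = ver c (unver c (T *ᵥ ver c v))} := by
    ext T
    simp [Pres]
  rw [this]
  refine isClosed_biInter fun v _ => ?_
  have h : Continuous fun T : Matrix (Mon c) (Mon c) ℝ => T *ᵥ ver c v :=
    continuous_id.matrix_mulVec continuous_const
  exact isClosed_eq h (continuous_ver.comp (continuous_unver.comp h))

/-- The invertible matrices that preserve the values of the monomials, with their inverses. -/
def GenF (c : Fin D → ℝ) : Submonoid (Matrix (Mon c) (Mon c) ℝ) where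
  carrier := {T | IsUnit T.det ∧ Pres c T ∧ Pres c T⁻¹}
  one_mem' := ⟨by simp, rp_id.pres, by rw [inv_one]; exact rp_id.pres⟩
  mul_mem' := fun {T T'} h h' => ⟨by rw [Matrix.det_mul]; exact h.1.mul h'.1,
    (h.2.1.rp.comp h'.2.1.rp).pres, by
      rw [Matrix.mul_inv_rev]
      exact (h'.2.2.rp.comp h.2.2.rp).pres⟩

theorem Rp.inv_eq (h : Rp c S T) (h' : Rp c S' T') (e : ∀ v ∈ U c, S (S' v) = v) : T⁻¹ = T' :=
  Matrix.inv_eq_right_inv (h.mul_eq_one h' e)

theorem Rp.mem_gen (h : Rp c S T) (h' : Rp c S' T') (e : ∀ v ∈ U c, S (S' v) = v) : T ∈ GenF c :=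
  ⟨Matrix.isUnit_det_of_right_inverse (h.mul_eq_one h' e), h.pres, by
    rw [h.inv_eq h' e]
    exact h'.pres⟩

theorem genF_inv (h : T ∈ GenF c) : T⁻¹ ∈ GenF c :=
  ⟨Matrix.isUnit_nonsing_inv_det T h.1, h.2.2, by
    rw [Matrix.nonsing_inv_nonsing_inv T h.1]
    exact h.2.1⟩

theorem genF_cl (hu : IsUnit T.det) (h : T ∈ closure (GenF c : Set (Matrix (Mon c) (Mon c) ℝ))) :
    T ∈ GenF c := by
  refine ⟨hu, (isClosed_pres c).closure_subset (closure_mono (fun _ h => h.2.1) h), ?_⟩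
  have hc : ContinuousAt Inv.inv T := continuousAt_matrix_inv T (by
    rw [Ring.inverse_eq_inv']
    exact continuousAt_inv₀ hu.ne_zero)
  exact (isClosed_pres c).closure_subset (hc.continuousWithinAt.mem_closure h fun _ h => h.2.2)

theorem Rp.row (h : Rp c S T) : T (e0 c) (e0 c) = 1 := by rw [h.col, ver_e0]

theorem dil_dil (c' : Fin D → ℝ) (v : E D) : dil c' (dil (fun j => -c' j) v) = v := by
  funext j
  simp only [dil]
  rw [← mul_assoc, ← exp_add, add_neg_cancel, exp_zero, one_mul]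

theorem dil_mem_gen (c' : Fin D → ℝ) : (Matrix.diagonal fun m => exp (wt c' m.1)) ∈ GenF c :=
  (rp_dil c').mem_gen (rp_dil fun j => -c' j) fun v _ => dil_dil c' v

theorem genF_lie {V : Matrix (Mon c) (Mon c) ℝ} (h : ∀ t : ℝ, NormedSpace.exp (t • V) ∈ GenF c)
    {m : Mon c} (hm : m.1.degree ≠ 1) : V m (e0 c) = 0 := by
  have hd : ∀ k, HasDerivAt (fun t : ℝ => NormedSpace.exp (t • V) k (e0 c)) (V k (e0 c)) 0 := by
    intro k
    have h1 := hasDerivAt_exp_smul_const V (0 : ℝ)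
    rw [zero_smul, NormedSpace.exp_zero, one_mul] at h1
    exact (LinearMap.toContinuousLinearMap
      (Matrix.entryLinearMap ℝ ℝ k (e0 c))).hasFDerivAt.comp_hasDerivAt 0 h1
  set p : ℝ → E D := fun t => unver c (NormedSpace.exp (t • V) *ᵥ ver c 0) with hp
  have e : ∀ t k, NormedSpace.exp (t • V) k (e0 c) = mono k.1 (p t) := fun t k =>
    (h t).2.1.rp.col k
  have p0 : p 0 = 0 := by
    simp only [hp, zero_smul, NormedSpace.exp_zero, Matrix.one_mulVec, unver_ver (zero_mem_U c)]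
  have pd : DifferentiableAt ℝ p 0 := differentiableAt_pi.2 fun j => by
    simp only [hp, unver, ver_zero, Matrix.mulVec_single_one]
    split_ifs with hj
    · exact (hd _).differentiableAt
    · exact differentiableAt_const _
  refine (hd m).unique ?_
  simp only [e]
  by_cases h0 : m.1.degree = 0
  · simp only [(Finsupp.degree_eq_zero_iff _).1 h0, mono, Finsupp.coe_zero, Pi.zero_apply, pow_zero,
      Finset.prod_const_one]
    exact hasDerivAt_const _ _
  · obtain ⟨d, hd2⟩ : ∃ d, m.1.degree = d + 1 + 1 := ⟨m.1.degree - 2, by omega⟩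
    have z0 : mono m.1 (p 0) = 0 := by
      have := PEv_mono_le m.1 (p 0)
      rwa [hd2, p0, norm_zero, zero_pow (by omega), abs_nonpos_iff, ← p0] at this
    rw [hasDerivAt_iff_isLittleO, z0]
    simp only [sub_zero, smul_zero]
    have b1 : p =O[𝓝 0] fun t : ℝ => t := by simpa [p0] using pd.isBigO_sub
    have b2 : (fun t => ‖p t‖ ^ (d + 1)) =o[𝓝 0] fun _ => (1 : ℝ) := by
      rw [isLittleO_one_iff]
      have := pd.continuousAt.norm.tendsto.pow (d + 1)
      rwa [p0, norm_zero, zero_pow (by omega)] at this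
    have b3 := b2.mul_isBigO b1.norm_left
    simp only [one_mul] at b3
    refine IsBigO.trans_isLittleO (IsBigO.of_bound' (Eventually.of_forall fun t => ?_)) b3
    rw [← pow_succ, ← hd2]
    exact (PEv_mono_le _ _).trans (le_abs_self _)

theorem card_deg_one {Λ : Type} [AddCommMonoid Λ] (lam : Fin D → Λ) (β : Λ) :
    Nat.card {m : Mon c // m ∈ Finset.univ.filter (fun m : Mon c => m.1.degree = 1) ∧
      wt lam m.1 = β} ≤ Nat.card {i // lam i = β} := by
  have h : ∀ m : {m : Mon c // m ∈ Finset.univ.filter (fun m : Mon c => m.1.degree = 1) ∧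
      wt lam m.1 = β}, ∃ j : {i // lam i = β}, Finsupp.single j.1 1 = m.1.1 := fun m => by
    obtain ⟨j, hj⟩ : m.1.1 ∈ Set.range fun a : Fin D => Finsupp.single a 1 := by
      rw [Finsupp.range_single_one]
      exact (Finset.mem_filter.1 m.2.1).2
    exact ⟨⟨j, by rw [← wt_single lam j, ← m.2.2, ← hj]⟩, hj⟩
  choose f hf using h
  exact Nat.card_le_card_of_injective f fun m m' e =>
    Subtype.ext (Subtype.ext (by rw [← hf m, ← hf m', e]))

theorem wt_mon_pos {m : Mon c} (h : m ≠ e0 c) : 0 < wt c m.1 := by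
  obtain ⟨j, hj⟩ : ∃ j, m.1 j ≠ 0 := by
    by_contra hn
    push Not at hn
    exact h (Subtype.ext (Finsupp.ext hn))
  exact (mul_pos (Nat.cast_pos.2 (Nat.pos_of_ne_zero hj)) (m.2.1 j hj)).trans_le
    (nsmul_le_wt m.2.1 j)

theorem Res.evv_dil {r : ℕ} {c' : Fin D → ℝ} {N : Jt D r} (h : Res c' N) (v : E D) :
    evv N (dil c' v) = dil c' (evv N v) := funext fun j => (h j).ev_dil v

/-- A matrix that represents a resonant jet has entries only between equal weights. -/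
theorem Rp.res {W : Type} [NormedAddCommGroup W] [NormedSpace ℝ W] {lam : Fin D → W →L[ℝ] ℝ}
    {r : ℕ} {N : Jt D r} (hN : Res lam N) (h : Rp c (evv N) T) {m m' : Mon c} (h0 : T m m' ≠ 0) :
    wt lam m.1 = wt lam m'.1 := by
  ext s
  have e := (h.comp (rp_dil fun j => lam j s)).unique ((rp_dil fun j => lam j s).comp h)
    fun v _ => (hN.apply s).evv_dil v
  have e1 := congrFun (congrFun e m) m'
  rw [Matrix.mul_diagonal, Matrix.diagonal_mul, mul_comm] at e1
  rw [wt_apply, wt_apply]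
  exact (exp_injective (mul_right_cancel₀ h0 e1)).symm

end Pool.Agent.P.MP_d483fb_an.Z.NF

end

end

section

/-!
Normal forms as matrices acting on monomials.
-/

open MeasureTheory Filter Topology Set Real
open scoped Matrix Matrix.Norms.Operator

set_option linter.unusedSectionVars false

noncomputable section

namespace Pool.Agent.P.MP_d483fb_an.Z.NF

open Os Geo

variable {W X Γ M : Type} [NormedAddCommGroup W] [NormedSpace ℝ W] [MeasurableSpace W]
  [MeasurableSpace X] {μ : Measure X} [Group Γ] [MeasurableSpace Γ] [MetricSpace M]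
  [MeasurableSpace M] {α : Γ →* Equiv.Perm M} {len : Γ → ℝ} {D : ℕ}
  {S : Sys W X μ} {J : Jets α len D} {K : Skew S J} {lam : Fin D → W →L[ℝ] ℝ}
  {a : W} {s1 s2 : ℝ}

theorem Rp.congr {c : Fin D → ℝ} {f g : E D → E D} {T : Matrix (Mon c) (Mon c) ℝ} (h : Rp c f T)
    (e : ∀ v ∈ U c, g v = f v) : Rp c g T := fun v hv => by
  rw [e v hv]
  exact h v hv

theorem exp_add_exp_le {u v : ℝ} (hu : 0 ≤ u) (hv : 0 ≤ v) : exp u + exp v ≤ exp (1 + u + v) := by
  have h1 : exp u ≤ exp (u + v) := exp_le_exp.2 (by linarith)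
  have h2 : exp v ≤ exp (u + v) := exp_le_exp.2 (by linarith)
  rw [add_assoc, exp_add]
  nlinarith [add_one_le_exp (1 : ℝ), exp_pos (u + v)]

namespace Leaf0

variable (F : Leaf0 K lam a s1) {x y : X} {γ : Γ}

theorem Hinv_H (hx : x ∈ F.X0) {z : M} (hz : z ∈ K.Wu a s1 x) : F.Hinv x (F.H x z) = z :=
  F.H_inj x hx (F.Hinv_mem x hx _ (F.H_mem x hx z hz)) hz (F.H_Hinv x hx _ (F.H_mem x hx z hz))

theorem Hinv_zero (hx : x ∈ F.X0) : F.Hinv x 0 = K.pt x := by
  rw [← F.H_pt x hx, F.Hinv_H hx (Skew.pt_mem a s1 x)]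

theorem N_add (s t : W) (hx : x ∈ F.X0) {v : E D} (hv : v ∈ U fun i => lam i a) :
    evv (F.N (s + t) x) v = evv (F.N s (S.act t x)) (evv (F.N t x) v) := by
  have hz := F.Hinv_mem x hx v hv
  rw [← F.H_Hinv x hx v hv, ← F.H_mv _ x hx _ hz, ← F.H_mv _ x hx _ hz,
    ← F.H_mv _ _ (F.inv0 t x hx) _ (F.mv_mem t x hx _ hz), K.mv_add, S.add]

theorem N_zero (hx : x ∈ F.X0) {v : E D} (hv : v ∈ U fun i => lam i a) :
    evv (F.N 0 x) v = v := by
  conv_lhs => rw [← F.H_Hinv x hx v hv, ← F.H_mv _ x hx _ (F.Hinv_mem x hx v hv), K.mv_zero, S.zero]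
  exact F.H_Hinv x hx v hv

theorem N_neg (s : W) (hx : x ∈ F.X0) {v : E D} (hv : v ∈ U fun i => lam i a) :
    evv (F.N s x) (evv (F.N (-s) (S.act s x)) v) = v := by
  have := F.N_add s (-s) (F.inv0 s x hx) hv
  rw [S.neg_act, add_neg_cancel, F.N_zero (F.inv0 s x hx) hv] at this
  exact this.symm

/-- The holonomy in the normal form coordinates. -/
def hm (x y : X) (γ : Γ) (v : E D) : E D := F.H x (α γ (F.Hinv y v))

theorem ok_symm (h : Ok K F.X0 a s1 x y γ) : Ok K F.X0 a s1 y x γ⁻¹ := by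
  obtain ⟨C0, h1, h2⟩ := h.hol
  exact ⟨h.right, h.left, ⟨C0, h2, by rwa [inv_inv]⟩, F.hol_symm x h.left y h.right γ C0 h2 h.mem⟩

theorem ok_mem (h : Ok K F.X0 a s1 x y γ) {z : M} (hz : z ∈ K.Wu a s1 y) :
    α γ z ∈ K.Wu a s1 x := by
  obtain ⟨C0, h1, -⟩ := h.hol
  exact F.hol_mem x h.left y h.right γ C0 h1 h.mem z hz

theorem hm_hm {z : X} {γ' : Γ} (h : Ok K F.X0 a s1 y z γ') {v : E D}
    (hv : v ∈ U fun i => lam i a) : F.hm x y γ (F.hm y z γ' v) = F.hm x z (γ * γ') v := by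
  rw [hm, hm, hm, F.Hinv_H h.left (F.ok_mem h (F.Hinv_mem z h.right v hv)), map_mul]
  rfl

theorem hm_one (hx : x ∈ F.X0) {v : E D} (hv : v ∈ U fun i => lam i a) : F.hm x x 1 v = v := by
  rw [hm, map_one]
  exact F.H_Hinv x hx v hv

theorem hm_N (s : W) (h : Ok K F.X0 a s1 x y γ) {v : E D} (hv : v ∈ U fun i => lam i a) :
    F.hm (S.act s x) (S.act s y) (K.β s x * γ * (K.β s y)⁻¹) (evv (F.N s y) v) =
      evv (F.N s x) (F.hm x y γ v) := by
  have hz := F.Hinv_mem y h.right v hv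
  rw [hm, hm, ← F.H_mv s x h.left _ (F.ok_mem h hz)]
  conv_lhs => rw [← F.H_Hinv y h.right v hv, ← F.H_mv s y h.right _ hz,
    F.Hinv_H (F.inv0 s y h.right) (F.mv_mem s y h.right _ hz)]
  simp [Skew.mv]

theorem exists_rp_N (s : W) (hx : x ∈ F.X0) : ∃ T, Rp (fun i => lam i a) (evv (F.N s x)) T := by
  have h := (F.N_res s x hx).apply a
  exact (h.subRes.exists_rp fun v hv => h.evv_mem hv).imp fun _ h => h.1

theorem exists_rp_hm (h : Ok K F.X0 a s1 x y γ) : ∃ T, Rp (fun i => lam i a) (F.hm x y γ) T ∧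
    ∀ m m', T m m' ≠ 0 → wt (fun i => lam i a) m'.1 ≤ wt (fun i => lam i a) m.1 := by
  obtain ⟨C0, h1, -⟩ := h.hol
  exact (F.hol_poly x h.left y h.right γ C0 h1 h.mem).exists_rp fun v hv =>
    F.H_mem x h.left _ (F.ok_mem h (F.Hinv_mem y h.right v hv))

variable {F} {ε : ℝ} {q : X → ℝ}

theorem Est.sh_of (T : F.Est s2 ε q) (hx : x ∈ F.X0) {z : M} (hz : z ∈ K.Wu a s1 x) {R : ℝ}
    (hR : 0 ≤ R) (h : ‖F.H x z‖ ≤ exp R) : K.Sh a s2 (exp (F.C * (q x + R) + R)) x z := by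
  have := T.Hinv_sh x hx _ (F.H_mem x hx z hz) R hR h
  rw [F.Hinv_H hx hz] at this
  exact this.mono le_rfl (by rw [exp_add]; gcongr)

theorem Est.hm_le (T : F.Est s2 ε q) (hx : x ∈ F.X0) (hy : y ∈ F.X0) {C0 R : ℝ} (h0 : 0 ≤ C0)
    (hR : 0 ≤ R) (h : K.Hol a C0 x y γ) (hp : K.Sh a s1 (exp R) x (α γ (K.pt y))) {v : E D}
    (hv : v ∈ U fun i => lam i a) (hv1 : ‖v‖ ≤ 1) :
    ‖F.hm x y γ v‖ ≤ exp (F.C * (2 + 2 * F.C) * (q x + q y + C0 + R)) := by
  have hC : (0 : ℝ) ≤ F.C := F.C.cast_nonneg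
  have q1 := T.one_le x
  have q2 := T.one_le y
  have h1 : K.Sh a s2 (exp (F.C * q y)) y (F.Hinv y v) :=
    (T.Hinv_sh y hy v hv 0 le_rfl (by simpa using hv1)).mono le_rfl (by
      rw [add_zero]
      exact mul_le_of_le_one_right (exp_pos _).le hv1)
  have h2 := Skew.Sh.hol (T.hol_lip x hx y hy γ C0 h0 h) hp h1
  rw [← exp_add] at h2
  have h3 : 0 ≤ F.C * (q x + q y + C0) + F.C * q y := by positivity
  refine (T.H_le x hx _ _ (by positivity) (h2.mono le_rfl (exp_add_exp_le hR h3))).trans ?_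
  rw [exp_le_exp, mul_assoc]
  refine mul_le_mul_of_nonneg_left ?_ hC
  nlinarith [mul_nonneg hC hR, mul_nonneg hC h0, mul_nonneg hC (zero_le_one.trans q1)]

theorem Est.sh_symm (T : F.Est s2 ε q) (hx : x ∈ F.X0) (hy : y ∈ F.X0) {C0 R : ℝ} (h0 : 0 ≤ C0)
    (hR : 0 ≤ R) (h : K.Hol a C0 y x γ⁻¹) (hp : K.Sh a s1 (exp R) x (α γ (K.pt y))) :
    K.Sh a s1 (exp (F.C * (3 + F.C) * (q x + q y + C0 + R))) y (α γ⁻¹ (K.pt x)) := by
  have hC : (0 : ℝ) ≤ F.C := F.C.cast_nonneg
  have q1 := T.one_le x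
  have q2 := T.one_le y
  have h1 := T.sh_of hx ⟨_, hp⟩ (by positivity) (T.H_le x hx _ R hR hp)
  refine (Skew.Sh.hol_inv (T.hol_lip y hy x hx γ⁻¹ C0 h0 h) h1).mono le_rfl ?_
  rw [← exp_add, exp_le_exp]
  have : q y + q x + C0 + (q x + F.C * (q x + R) + (q x + R)) ≤
      (3 + F.C) * (q x + q y + C0 + R) := by
    nlinarith [mul_nonneg hC h0, mul_nonneg hC (zero_le_one.trans q2)]
  nlinarith [mul_le_mul_of_nonneg_left this hC]

end Leaf0

theorem dil_evv_le {r : ℕ} {A u : ℝ} (h : PC D r A) {N : Jt D r} {c : Fin D → ℝ}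
    (hN : ∀ j, ‖N j‖ ≤ exp (u - c j)) {v : E D} (hv : ‖v‖ ≤ 1) :
    ‖dil c (evv N v)‖ ≤ exp (A + u) := by
  refine (pi_norm_le_iff_of_nonneg (exp_pos _).le).2 fun j => ?_
  have h1 := h.ev_le (N j) v 0 le_rfl (by simpa using hv)
  rw [mul_zero, add_zero] at h1
  have h2 : exp A * ‖N j‖ * ‖v‖ ≤ exp A * exp (u - c j) * 1 := by gcongr; exact hN j
  rw [dil, norm_mul, Real.norm_of_nonneg (exp_pos _).le]
  refine (mul_le_mul_of_nonneg_left (h1.trans h2) (exp_pos _).le).trans_eq ?_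
  rw [mul_one, ← exp_add, ← exp_add]
  congr 1
  ring

variable [Countable Γ] [DiscreteMeasurableSpace Γ] [BorelSpace M] [SecondCountableTopology M]

theorem Leaf.exists_fib (F : Leaf K lam a s1 s2) :
    ∃ (κ : Type) (_ : Fintype κ) (_ : DecidableEq κ), Nonempty (Geo.Fib K lam a s1 s2 κ) := by
  obtain ⟨mt, A, hA, m1, m2, m3⟩ := exists_matOf fun i => lam i a
  obtain ⟨Ap, pc⟩ := exists_pc D F.r
  have hAp := pc.nonneg
  have hC : (0 : ℝ) ≤ F.C := F.C.cast_nonneg
  have rN : ∀ s, ∀ x ∈ F.X0, Rp (fun i => lam i a) (evv (F.N s x)) (mt (evv (F.N s x))) := by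
    intro s x hx
    obtain ⟨T, hT⟩ := F.exists_rp_N s hx
    rwa [m1 _ _ hT]
  have rT : ∀ {x y γ}, Ok K F.X0 a s1 x y γ →
      Rp (fun i => lam i a) (F.hm x y γ) (mt (F.hm x y γ)) := fun h => by
    obtain ⟨T, hT, -⟩ := F.exists_rp_hm h
    rwa [m1 _ _ hT]
  have iN : ∀ s, ∀ x ∈ F.X0, (mt (evv (F.N s x)))⁻¹ = mt (evv (F.N (-s) (S.act s x))) :=
    fun s x hx => (rN s x hx).inv_eq (rN _ _ (F.inv0 s x hx)) fun v hv => F.N_neg s hx hv
  have gN : ∀ s, ∀ x ∈ F.X0, mt (evv (F.N s x)) ∈ GenF fun i => lam i a :=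
    fun s x hx => (rN s x hx).mem_gen (rN _ _ (F.inv0 s x hx)) fun v hv => F.N_neg s hx hv
  have c0 : ∀ {x y γ}, Ok K F.X0 a s1 x y γ → ∀ m, mt (F.hm x y γ) m (e0 _) =
      ver _ (F.H x (α γ (K.pt y))) m := fun h m => by
    rw [(rT h).col, Leaf0.hm, F.Hinv_zero h.right]
  set C1 : ℝ := A * (1 + F.C * (2 + 2 * F.C)) with hC1
  set C2 : ℝ := C1 * (1 + F.C * (3 + F.C)) with hC2
  set C3 : ℝ := A * (3 + Ap + |F.B|) with hC3
  have p1 : 0 ≤ C1 := by positivity
  have p2 : C1 ≤ C2 := le_mul_of_one_le_right p1 (le_add_of_nonneg_right (by positivity))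
  have p3 : 0 ≤ C3 := by positivity
  refine ⟨Mon fun i => lam i a, inferInstance, inferInstance, ⟨⟨⟨1 + F.C + C2 + C3, F.B, F.X0,
    fun m => wt lam m.1, e0 _, Finset.univ.filter fun m => m.1.degree = 1, GenF _,
    fun s x => mt (evv (F.N s x)), fun x y γ => mt (F.hm x y γ), by linarith, F.meas0, F.ae0,
    F.inv0, fun m => sum_mem fun j _ => nsmul_mem (AddSubgroup.subset_closure (mem_range_self j)) _,
    wt_zero lam, fun m hm => by rw [wt_apply]; exact wt_mon_pos hm, card_deg_one lam,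
    fun T h => h.1, fun T h => genF_inv h, fun T => genF_cl, fun T h => h.2.1.rp.row,
    fun V h m hm => genF_lie h fun e => hm (Finset.mem_filter.2 ⟨Finset.mem_univ _, e⟩),
    fun s => by simp only [wt_apply]; exact dil_mem_gen _,
    fun s => m2 X _ fun v => measurable_evv (F.measN s) measurable_const,
    fun x hx => (rN 0 x hx).unique rp_id fun v hv => F.N_zero hx hv,
    fun s t x hx => (rN _ x hx).unique ((rN s _ (F.inv0 t x hx)).comp (rN t x hx))
      fun v hv => F.N_add s t hx hv,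
    fun s x hx m m' h => (rN s x hx).res (F.N_res s x hx) h, gN,
    m2 (X × X × Γ) (fun p => F.hm p.1 p.2.1 p.2.2) fun v => ?_, F.mv_mem,
    fun x y γ h => F.ok_symm h, fun x y γ h z hz => F.ok_mem h hz,
    fun x hx => m1 _ _ (rp_id.congr fun v hv => F.hm_one hx hv),
    fun x y z γ γ' h h' h'' => ((rT h).comp (rT h')).unique (rT h'') fun v hv => F.hm_hm h' hv,
    fun x y γ h m m' h0 => ?_,
    fun x y γ h => (rT h).mem_gen (rT (F.ok_symm h)) fun v hv => by
      rw [F.hm_hm (F.ok_symm h) hv, mul_inv_cancel, F.hm_one h.left hv],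
    fun s x y γ h h' => ?_, fun x y y' γ γ' h h' e => ?_⟩, fun ε hε => ?_⟩⟩⟩
  · exact F.measH.comp (measurable_fst.prodMk (K.measurable_α.comp (measurable_snd.snd.prodMk
      (F.measHinv.comp (measurable_snd.fst.prodMk measurable_const)))))
  · obtain ⟨T, hT, ht⟩ := F.exists_rp_hm h
    rw [wt_apply, wt_apply]
    exact ht m m' (by rwa [← m1 _ _ hT])
  · rw [← ((rT h').comp (rN s y h.right)).unique ((rN s x h.left).comp (rT h))
      fun v hv => F.hm_N s h hv, Matrix.mul_nonsing_inv_cancel_right _ _ (gN s y h.right).1]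
  · refine F.H_inj x h.left h.mem h'.mem ?_
    rw [← unver_ver (F.H_mem x h.left _ h.mem), ← unver_ver (F.H_mem x h.left _ h'.mem)]
    congr 1
    funext m
    rw [← c0 h, ← c0 h']
    exact e m
  obtain ⟨q, T⟩ := F.est ε hε
  have t1 : ∀ x ∈ F.X0, ∀ y ∈ F.X0, ∀ γ C0 R, 0 ≤ C0 → 0 ≤ R → K.Hol a C0 x y γ →
      K.Sh a s1 (exp R) x (α γ (K.pt y)) → ‖mt (F.hm x y γ)‖ ≤ exp (C1 * (q x + q y + C0 + R)) := by
    intro x hx y hy γ C0 R h0 hR h hp
    have q1 := T.one_le x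
    have q2 := T.one_le y
    refine (m3 _ _ (by positivity) fun v hv hv1 => T.hm_le hx hy h0 hR h hp hv hv1).trans ?_
    rw [exp_le_exp, hC1, mul_assoc A]
    exact mul_le_mul_of_nonneg_left (by nlinarith) hA
  refine ⟨q, T.toSlow, fun s x hx => ?_, fun x hx y hy γ C0 R h0 hR h h' hp => ⟨?_, ?_⟩,
    fun x y γ R h hR hm => ?_, fun x hx t z hz i hi => ?_⟩
  · have q1 := T.one_le x
    have e1 : 0 ≤ ε * ‖s‖ := by positivity
    have hb := abs_nonneg F.B
    have key : ∀ R, R ≤ Ap + |F.B| + q x + 2 * (ε * ‖s‖) →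
        exp (A * (1 + R)) ≤ exp ((1 + F.C + C2 + C3) * (q x + ε * ‖s‖)) := fun R hR => by
      have : A * (1 + R) ≤ C3 * (q x + ε * ‖s‖) := by
        rw [hC3, mul_assoc]
        exact mul_le_mul_of_nonneg_left (by nlinarith) hA
      exact exp_le_exp.2 (this.trans (mul_le_mul_of_nonneg_right (by linarith) (by linarith)))
    constructor
    · have e : ∀ m : Mon fun i => lam i a, -wt lam m.1 s = wt (fun j => lam j (-s)) m.1 := fun m => by
        rw [← wt_apply, map_neg]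
      simp only [e]
      rw [← m1 _ _ ((rN s x hx).comp (rp_dil _))]
      refine (m3 _ (Ap + (q x + ε * ‖s‖)) (by linarith) fun v _ hv => ?_).trans (key _ (by linarith))
      rw [((F.N_res s x hx).apply (-s)).evv_dil]
      refine dil_evv_le pc (fun j => (T.N_le s x hx j).trans_eq ?_) hv
      rw [map_neg]
      congr 1
      ring
    · have hs := T.slowA s x hx
      have q2 := T.one_le (S.act s x)
      simp only [wt_apply]
      rw [iN s x hx, ← m1 _ _ ((rp_dil _).comp (rN _ _ (F.inv0 s x hx)))]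
      refine (m3 _ (Ap + (q (S.act s x) + ε * ‖s‖)) (by linarith) fun v _ hv => ?_).trans
        (key _ (by linarith [le_abs_self F.B]))
      refine dil_evv_le pc (fun j => (T.N_le (-s) _ (F.inv0 s x hx) j).trans_eq ?_) hv
      rw [map_neg, norm_neg]
      congr 1
      ring
  · have q1 := T.one_le x
    have q2 := T.one_le y
    exact (t1 x hx y hy γ C0 R h0 hR h hp).trans
      (exp_le_exp.2 (mul_le_mul_of_nonneg_right (by linarith) (by linarith)))
  · have q1 := T.one_le x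
    have q2 := T.one_le y
    refine (t1 y hy x hx γ⁻¹ C0 _ h0 (by positivity) h' (T.sh_symm hx hy h0 hR h' hp)).trans
      (exp_le_exp.2 (le_trans ?_ (mul_le_mul_of_nonneg_right (a := q x + q y + C0 + R)
        (by linarith : C2 ≤ 1 + F.C + C2 + C3) (by linarith))))
    rw [hC2, mul_assoc C1]
    exact mul_le_mul_of_nonneg_left (by nlinarith) p1
  · have q1 := T.one_le x
    refine (T.sh_of h.left h.mem hR ?_).mono le_rfl (exp_le_exp.2 ?_)
    · rw [← unver_ver (F.H_mem x h.left _ h.mem)]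
      exact norm_unver_le (exp_pos _).le fun m => by rw [← c0 h]; exact hm m
    · change _ ≤ (1 + F.C + C2 + C3) * _
      nlinarith [mul_nonneg (add_nonneg (p1.trans p2) p3) (by linarith : 0 ≤ q x + R)]
  · have hq : ∀ x, F.C * q x ≤ (1 + F.C + C2 + C3) * q x := fun x =>
      mul_le_mul_of_nonneg_right (by linarith) (by linarith [T.one_le x])
    refine (T.track x hx t z (fun j hj => (hz j hj).trans (exp_le_exp.2 (neg_le_neg (hq _)))) i
      hi).trans (add_le_add (exp_le_exp.2 (sub_le_sub_right (hq _) _)) ?_)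
    exact mul_le_mul_of_nonneg_right (exp_le_exp.2 (add_le_add (hq _) le_rfl)) dist_nonneg

end Pool.Agent.P.MP_d483fb_an.Z.NF

end

end
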