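import Pool.Agent.P.MP_d483fb_an.M.A16

section

/-!
The orbits of a closed subgroup on the base: free points, the orbit relation, the group element
and the holonomy between two points of an orbit. The case of a horospherical subgroup.
-/

open scoped Matrix Matrix.Norms.Operator InnerProductSpace RealInnerProductSpace Topology
open NormedSpace MeasureTheory Filter Set

set_option linter.unusedSectionVars false

noncomputable section

namespace Pool.Agent.P.MP_d483fb_an.Z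

namespace Lat

variable {G : Type} [Group G] [TopologicalSpace G] [IsTopologicalGroup G] [T2Space G]
  (L : Lat G) (N : Subgroup G)

/-- Points with trivial stabiliser in `N`. -/
def Free : Set L.B := {b | ∀ u ∈ N, u • b = b → u = 1}

/-- The orbit relation of `N` on the free points. -/
def Rb (b b1 : L.B) : Prop := b ∈ L.Free N ∧ ∃ u ∈ N, b1 = u • b

open Classical in
/-- The element of `N` which moves `b` to `b1`. -/
def uu (b b1 : L.B) : G := if h : L.Rb N b b1 then h.2.choose else 1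

variable {L N} {b b1 b2 : L.B} {g u : G}

theorem free_conj (hg : ∀ u ∈ N, g⁻¹ * u * g ∈ N) (hb : b ∈ L.Free N) : g • b ∈ L.Free N := by
  intro u hu e
  have h := hb _ (hg u hu) (by rw [mul_smul, mul_smul, e, inv_smul_smul])
  calc u = g * (g⁻¹ * u * g) * g⁻¹ := by group
    _ = 1 := by rw [h]; group

theorem free_smul (hu : u ∈ N) (hb : b ∈ L.Free N) : u • b ∈ L.Free N :=
  free_conj (fun _ hv => N.mul_mem (N.mul_mem (N.inv_mem hu) hv) hu) hb

theorem Rb.mem (h : L.Rb N b b1) : b ∈ L.Free N := h.1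

theorem Rb.mem' (h : L.Rb N b b1) : b1 ∈ L.Free N := by
  obtain ⟨hb, u, hu, rfl⟩ := h
  exact free_smul hu hb

theorem Rb_smul (hb : b ∈ L.Free N) (hu : u ∈ N) : L.Rb N b (u • b) := ⟨hb, u, hu, rfl⟩

theorem Rb_refl (hb : b ∈ L.Free N) : L.Rb N b b := ⟨hb, 1, N.one_mem, (one_smul _ _).symm⟩

theorem Rb.symm (h : L.Rb N b b1) : L.Rb N b1 b := by
  obtain ⟨hb, u, hu, rfl⟩ := h
  exact ⟨free_smul hu hb, u⁻¹, N.inv_mem hu, (inv_smul_smul _ _).symm⟩

theorem Rb.trans (h : L.Rb N b b1) (h' : L.Rb N b1 b2) : L.Rb N b b2 := by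
  obtain ⟨hb, u, hu, rfl⟩ := h
  obtain ⟨-, v, hv, rfl⟩ := h'
  exact ⟨hb, v * u, N.mul_mem hv hu, (mul_smul _ _ _).symm⟩

theorem Rb.conj (h : L.Rb N b b1) (hg : ∀ u ∈ N, g * u * g⁻¹ ∈ N)
    (hg' : ∀ u ∈ N, g⁻¹ * u * g ∈ N) : L.Rb N (g • b) (g • b1) := by
  obtain ⟨hb, u, hu, rfl⟩ := h
  exact ⟨free_conj hg' hb, _, hg u hu, by rw [mul_smul, mul_smul, inv_smul_smul]⟩

theorem uu_mem (b b1 : L.B) : L.uu N b b1 ∈ N := by
  unfold uu
  split_ifs with h
  · exact h.2.choose_spec.1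
  · exact N.one_mem

theorem Rb.uu_smul (h : L.Rb N b b1) : L.uu N b b1 • b = b1 := by
  rw [uu, dif_pos h]
  exact h.2.choose_spec.2.symm

theorem uu_of_not (h : ¬ L.Rb N b b1) : L.uu N b b1 = 1 := dif_neg h

theorem uu_eq (hb : b ∈ L.Free N) (hu : u ∈ N) : L.uu N b (u • b) = u := by
  have h := hb _ (N.mul_mem (N.inv_mem hu) (uu_mem b (u • b)))
    (by rw [mul_smul, (Rb_smul hb hu).uu_smul, inv_smul_smul])
  exact (inv_mul_eq_one.1 h).symm

theorem uu_self (b : L.B) : L.uu N b b = 1 := by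
  by_cases h : L.Rb N b b
  · exact h.1 _ (uu_mem b b) h.uu_smul
  · exact uu_of_not h

theorem Rb.uu_mul (h : L.Rb N b b1) (h' : L.Rb N b1 b2) :
    L.uu N b1 b2 * L.uu N b b1 = L.uu N b b2 := by
  rw [← uu_eq h.1 (N.mul_mem (uu_mem b1 b2) (uu_mem b b1)), mul_smul, h.uu_smul, h'.uu_smul]

theorem Rb.uu_symm (h : L.Rb N b b1) : L.uu N b1 b = (L.uu N b b1)⁻¹ := by
  rw [eq_inv_iff_mul_eq_one, h.uu_mul h.symm, uu_self]

theorem Rb.uu_conj (h : L.Rb N b b1) (hg : ∀ u ∈ N, g * u * g⁻¹ ∈ N)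
    (hg' : ∀ u ∈ N, g⁻¹ * u * g ∈ N) : L.uu N (g • b) (g • b1) = g * L.uu N b b1 * g⁻¹ := by
  rw [← uu_eq (free_conj hg' h.1) (hg _ (uu_mem b b1)), mul_smul, mul_smul, inv_smul_smul,
    h.uu_smul]

/-- Almost every point is free if `N` is contracted by a measure preserving element. -/
theorem ae_free {m : Measure L.B} [IsFiniteMeasure m] {a : G}
    (ha : MeasurePreserving (fun b : L.B => a • b) m m)
    (hN : ∀ u ∈ N, Tendsto (fun i : ℕ => a ^ i * u * (a ^ i)⁻¹) atTop (𝓝 1)) :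
    ∀ᵐ b ∂m, b ∈ L.Free N := by
  obtain ⟨r, hr, hinj⟩ := L.inj
  have h1 : ∀ R : ℕ, ∀ᵐ b ∂m, b ∈ {b | L.ht b ≤ R} →
      ∃ᶠ i in atTop, (fun b : L.B => a • b)^[i] b ∈ {b | L.ht b ≤ R} := fun R =>
    ha.conservative.ae_mem_imp_frequently_image_mem
      (measurableSet_le L.measurable_ht measurable_const).nullMeasurableSet
  filter_upwards [ae_all_iff.2 h1] with b hb u hu e
  obtain ⟨R, hR⟩ := exists_nat_ge (L.ht b)
  have h2 : Tendsto (fun i : ℕ => L.len (a ^ i * u * (a ^ i)⁻¹)) atTop (𝓝 0) := by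
    rw [← L.one]
    exact (L.cont.tendsto 1).comp (hN u hu)
  have h3 := h2.eventually (gt_mem_nhds (show 0 < r * Real.exp (-2 * R) by positivity))
  obtain ⟨i, h4, h5⟩ := ((hb R hR).and_eventually h3).exists
  rw [smul_iterate_apply] at h4
  have h6 := hinj _ (a ^ i • b) (by rw [mul_smul, mul_smul, inv_smul_smul, e])
    (h5.trans_le (mul_le_mul_of_nonneg_left (Real.exp_le_exp.2 (by
      have : L.ht (a ^ i • b) ≤ R := h4
      linarith)) hr.le))
  calc u = (a ^ i)⁻¹ * (a ^ i * u * (a ^ i)⁻¹) * a ^ i := by group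
    _ = 1 := by rw [h6]; group

/-- Small elements act freely on compact sets. -/
theorem inj_cpt (L : Lat G) (K : Set L.B) (hK : IsCompact K) :
    ∃ W ∈ 𝓝 (1 : G), ∀ b ∈ K, ∀ g ∈ W, g • b = b → g = 1 := by
  obtain ⟨r, hr, hinj⟩ := L.inj
  obtain ⟨R, hR⟩ := hK.bddAbove_image L.continuous_ht.continuousOn
  refine ⟨{g | L.len g < r * Real.exp (-2 * R)},
    (isOpen_lt L.cont continuous_const).mem_nhds ?_, fun b hb g hg e => hinj g b e ?_⟩
  · show L.len 1 < _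
    rw [L.one]
    positivity
  · have := hR (mem_image_of_mem _ hb)
    exact lt_of_lt_of_le hg (mul_le_mul_of_nonneg_left (Real.exp_le_exp.2 (by linarith)) hr.le)

variable [MeasurableSpace G] [BorelSpace G]

theorem smul_eq_iff : u • b = b1 ↔ ∃ γ : L.Γ, u = L.sec b1 * γ * (L.sec b)⁻¹ := by
  constructor
  · rintro rfl
    exact ⟨L.c u b, by rw [L.sec_mul_c, mul_inv_cancel_right]⟩
  · rintro ⟨γ, rfl⟩
    conv_lhs => rw [← L.pj_sec b]
    rw [smul_pj, pj_sec, inv_mul_cancel_right, pj_mul, pj_sec]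

theorem measurable_lift (γ : L.Γ) :
    Measurable fun p : L.B × L.B => L.sec p.2 * γ * (L.sec p.1)⁻¹ := by
  have := L.polish
  exact ((L.measurable_sec.comp measurable_snd).mul measurable_const).mul
    (L.measurable_sec.comp measurable_fst).inv

theorem measurableSet_free (hN : IsClosed (N : Set G)) : MeasurableSet (L.Free N) := by
  have := L.polish
  have e : L.Free N = ⋂ γ : L.Γ, (fun b => L.sec b * γ * (L.sec b)⁻¹) ⁻¹' ((N : Set G)ᶜ ∪ {1}) := by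
    ext b
    simp only [mem_iInter, mem_preimage, mem_union, mem_compl_iff, mem_singleton_iff,
      SetLike.mem_coe, ← imp_iff_not_or]
    refine ⟨fun h γ hγ => h _ hγ (smul_eq_iff.2 ⟨γ, rfl⟩), fun h u hu e => ?_⟩
    obtain ⟨γ, rfl⟩ := smul_eq_iff.1 e
    exact h γ hu
  rw [e]
  exact MeasurableSet.iInter fun γ =>
    ((measurable_lift γ).comp (measurable_id.prodMk measurable_id))
      (hN.measurableSet.compl.union (measurableSet_singleton 1))

theorem measurableSet_uu (hN : IsClosed (N : Set G)) {A : Set G} (hA : MeasurableSet A) :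
    MeasurableSet {p : L.B × L.B | L.Rb N p.1 p.2 ∧ L.uu N p.1 p.2 ∈ A} := by
  have e : {p : L.B × L.B | L.Rb N p.1 p.2 ∧ L.uu N p.1 p.2 ∈ A} = Prod.fst ⁻¹' L.Free N ∩
      ⋃ γ : L.Γ, (fun p => L.sec p.2 * γ * (L.sec p.1)⁻¹) ⁻¹' ((N : Set G) ∩ A) := by
    ext ⟨b, b1⟩
    simp only [mem_iUnion, mem_preimage, mem_inter_iff, SetLike.mem_coe, mem_ofPred_eq]
    constructor
    · rintro ⟨h, hA⟩
      obtain ⟨γ, e⟩ := smul_eq_iff.1 h.uu_smul
      exact ⟨h.1, γ, e ▸ uu_mem b b1, e ▸ hA⟩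
    · rintro ⟨h, γ, h1, h2⟩
      have e := (smul_eq_iff (b := b) (b1 := b1)).2 ⟨γ, rfl⟩
      have h3 := uu_eq h h1
      rw [e] at h3
      exact ⟨⟨h, _, h1, e.symm⟩, h3 ▸ h2⟩
  rw [e]
  exact (measurable_fst (measurableSet_free hN)).inter
    (MeasurableSet.iUnion fun γ => measurable_lift γ (hN.measurableSet.inter hA))

theorem measurableSet_Rb (hN : IsClosed (N : Set G)) :
    MeasurableSet {p : L.B × L.B | L.Rb N p.1 p.2} := by
  simpa using measurableSet_uu (L := L) hN MeasurableSet.univ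

theorem measurable_uu (hN : IsClosed (N : Set G)) :
    Measurable fun p : L.B × L.B => L.uu N p.1 p.2 := by
  intro A hA
  have e : (fun p : L.B × L.B => L.uu N p.1 p.2) ⁻¹' A =
      {p : L.B × L.B | L.Rb N p.1 p.2 ∧ L.uu N p.1 p.2 ∈ A} ∪
        ({p : L.B × L.B | L.Rb N p.1 p.2}ᶜ ∩ {_p | (1 : G) ∈ A}) := by
    ext p
    by_cases h : L.Rb N p.1 p.2
    · simp [h]
    · simp [h, uu_of_not h]
  rw [e]
  exact (measurableSet_uu hN hA).union ((measurableSet_Rb hN).compl.inter (MeasurableSet.const _))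

variable (L N) in
/-- The holonomy from the fibre over `b1` to the fibre over `b`. -/
def gam (b b1 : L.B) : L.Γ := L.c (L.uu N b b1)⁻¹ b1

theorem measurable_gam (hN : IsClosed (N : Set G)) :
    Measurable fun p : L.B × L.B => L.gam N p.1 p.2 := by
  have := L.polish
  exact L.measurable_c.comp ((measurable_uu hN).inv.prodMk measurable_snd)

theorem gam_self (b : L.B) : L.gam N b b = 1 := by rw [gam, uu_self, inv_one, c_one]

theorem Rb.gam_eq (h : L.Rb N b b1) : L.gam N b1 b = L.c (L.uu N b b1) b := by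
  rw [gam, h.uu_symm, inv_inv]

theorem gam_smul (hb : b ∈ L.Free N) (hu : u ∈ N) : L.gam N (u • b) b = L.c u b := by
  rw [(Rb_smul hb hu).gam_eq, uu_eq hb hu]

theorem Rb.gam_mul (h : L.Rb N b b1) (h' : L.Rb N b1 b2) :
    L.gam N b b1 * L.gam N b1 b2 = L.gam N b b2 := by
  rw [h.symm.gam_eq, h'.symm.gam_eq, (h.trans h').symm.gam_eq, ← h'.symm.uu_mul h.symm, c_mul,
    h'.symm.uu_smul]

theorem Rb.gam_symm (h : L.Rb N b b1) : L.gam N b1 b = (L.gam N b b1)⁻¹ := by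
  rw [eq_inv_iff_mul_eq_one, h.symm.gam_mul h, gam_self]

theorem Rb.c_conj (h : L.Rb N b b1) (g : G) :
    L.c g b * L.gam N b b1 * (L.c g b1)⁻¹ = L.c (g * L.uu N b1 b * g⁻¹) (g • b1) := by
  rw [h.symm.gam_eq, c_mul, c_mul, c_inv, inv_smul_smul, h.symm.uu_smul]

theorem Rb.gam_conj (h : L.Rb N b b1) (hg : ∀ u ∈ N, g * u * g⁻¹ ∈ N)
    (hg' : ∀ u ∈ N, g⁻¹ * u * g ∈ N) :
    L.gam N (g • b) (g • b1) = L.c g b * L.gam N b b1 * (L.c g b1)⁻¹ := by
  rw [h.c_conj, (h.symm.conj hg hg').gam_eq, h.symm.uu_conj hg hg']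

theorem Rb.len_gam (h : L.Rb N b b1) :
    L.len (L.gam N b b1) ≤ L.len (L.uu N b b1) + (L.ht b + L.ht b1) := by
  have := L.len_c (L.uu N b1 b) b1
  rw [h.symm.uu_smul, ← h.symm.gam_eq, h.uu_symm, L.inv] at this
  linarith

end Lat

namespace Std

variable {G : Type} [Group G] [TopologicalSpace G] [IsTopologicalGroup G] [T2Space G] {n k : ℕ}
  (D : Std G n k) {H : Euc k}

theorem mem_N {u : G} : u ∈ D.N H ↔ ∃ Y ∈ D.np H, u = D.ex Y := D.mem_grp_grS (pos_half H)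

theorem ex_mem_N {Y : Mat n} (hY : Y ∈ D.np H) : D.ex Y ∈ D.N H := D.mem_N.2 ⟨Y, hY, rfl⟩

theorem N_closed (H : Euc k) : IsClosed (D.N H : Set G) := D.grp_grS_closed (pos_half H)

theorem a_conj_N (s : Euc k) : ∀ u ∈ D.N H, D.a s * u * (D.a s)⁻¹ ∈ D.N H := by
  intro u hu
  obtain ⟨Y, hY, rfl⟩ := D.mem_N.1 hu
  rw [D.conj_ex _ hY.1]
  exact D.ex_mem_N (D.Ad_a_grS s hY)

theorem a_conj_N' (s : Euc k) : ∀ u ∈ D.N H, (D.a s)⁻¹ * u * D.a s ∈ D.N H := by
  intro u hu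
  have := D.a_conj_N (-s) u hu
  rwa [D.a_neg, inv_inv] at this

theorem ex_inj_np {Y Z : Mat n} (hY : Y ∈ D.np H) (hZ : Z ∈ D.np H) (h : D.ex Y = D.ex Z) :
    Y = Z := by
  rw [← D.nlog_ρ_ex (pos_half H) hY, h, D.nlog_ρ_ex (pos_half H) hZ]

theorem exp_inj_np {Y Z : Mat n} (hY : Y ∈ D.np H) (hZ : Z ∈ D.np H) (h : exp Y = exp Z) :
    Y = Z := by
  rw [← D.nlog_ρ_ex (pos_half H) hY, D.ρ_ex _ hY.1, h, ← D.ρ_ex _ hZ.1,
    D.nlog_ρ_ex (pos_half H) hZ]

/-- `ρ` is injective on the horospherical group. -/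
theorem ρ_inj_N {u v : G} (hu : u ∈ D.N H) (hv : v ∈ D.N H) (h : D.ρ u = D.ρ v) : u = v := by
  obtain ⟨Y, hY, rfl⟩ := D.mem_N.1 hu
  obtain ⟨Z, hZ, rfl⟩ := D.mem_N.1 hv
  rw [D.ρ_ex _ hY.1, D.ρ_ex _ hZ.1] at h
  rw [D.exp_inj_np hY hZ h]

theorem ρ_inv_eq (g : G) : D.ρ g⁻¹ = (D.ρ g)⁻¹ := (Matrix.inv_eq_left_inv (D.ρ_inv_mul g)).symm

/-- Contraction of the horospherical algebra. -/
theorem norm_Ad_neg {c : ℝ} (hc : ∀ β ∈ D.wts, 0 < ⟪β, H⟫ → c ≤ ⟪β, H⟫) {Y : Mat n}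
    (hY : Y ∈ D.np H) {t : ℝ} (ht : 0 ≤ t) :
    ‖D.Ad (D.a (-(t • H))) Y‖ ≤ Real.exp (-(c * t)) * ‖Y‖ := by
  refine D.norm_Ad_a_le _ hY.2 fun β hβ hw => ?_
  rw [inner_neg_right, real_inner_smul_right, mul_comm c]
  exact neg_le_neg (mul_le_mul_of_nonneg_left (hc β hw hβ) ht)

theorem norm_Ad_neg' {Y : Mat n} (hY : Y ∈ D.np H) {t : ℝ} (ht : 0 ≤ t) :
    ‖D.Ad (D.a (-(t • H))) Y‖ ≤ ‖Y‖ := by
  simpa using D.norm_Ad_neg (c := 0) (fun _ _ h => h.le) hY ht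

variable {L : Lat G} {b b1 b2 : L.B}

theorem free_iff : b ∈ L.Free (D.N H) ↔ ∀ Y ∈ D.np H, D.ex Y • b = b → Y = 0 := by
  refine ⟨fun h Y hY e => D.ex_inj_np hY (zero_mem _) ?_, fun h u hu e => ?_⟩
  · rw [h _ (D.ex_mem_N hY) e, D.ex_zero]
  · obtain ⟨Y, hY, rfl⟩ := D.mem_N.1 hu
    rw [h Y hY e, D.ex_zero]

theorem free_a (s : Euc k) (hb : b ∈ L.Free (D.N H)) : D.a s • b ∈ L.Free (D.N H) :=
  Lat.free_conj (D.a_conj_N' s) hb

theorem Rb_a (s : Euc k) (h : L.Rb (D.N H) b b1) : L.Rb (D.N H) (D.a s • b) (D.a s • b1) :=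
  h.conj (D.a_conj_N s) (D.a_conj_N' s)

theorem Rb_iff : L.Rb (D.N H) b b1 ↔ b ∈ L.Free (D.N H) ∧ ∃ Y ∈ D.np H, b1 = D.ex Y • b := by
  refine and_congr_right fun _ => ⟨?_, ?_⟩
  · rintro ⟨u, hu, rfl⟩
    obtain ⟨Y, hY, rfl⟩ := D.mem_N.1 hu
    exact ⟨Y, hY, rfl⟩
  · rintro ⟨Y, hY, rfl⟩
    exact ⟨_, D.ex_mem_N hY, rfl⟩

theorem ae_free_N {m : Measure L.B} [IsFiniteMeasure m]
    (hm : MeasurePreserving (fun b : L.B => D.a (-H) • b) m m) :
    ∀ᵐ b ∂m, b ∈ L.Free (D.N H) := by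
  refine Lat.ae_free hm fun u hu => ?_
  obtain ⟨Y, hY, rfl⟩ := D.mem_N.1 hu
  refine ((D.tendsto_conj_ex hY).comp tendsto_natCast_atTop_atTop).congr fun i => ?_
  rw [Function.comp_apply, ← D.a_nsmul, ← D.a_neg, smul_neg, neg_neg]

variable (L H) in
/-- The logarithm of the element which moves `b` to `b1`. -/
def Yf (b b1 : L.B) : Mat n := NE.nlog (D.ρ (L.uu (D.N H) b b1))

theorem Yf_spec (b b1 : L.B) : D.Yf H L b b1 ∈ D.np H ∧ D.ex (D.Yf H L b b1) = L.uu (D.N H) b b1 := by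
  obtain ⟨Y, hY, e⟩ := D.mem_N.1 (Lat.uu_mem (L := L) (N := D.N H) b b1)
  rw [Yf, e, D.nlog_ρ_ex (pos_half H) hY]
  exact ⟨hY, rfl⟩

theorem Yf_mem (b b1 : L.B) : D.Yf H L b b1 ∈ D.np H := (D.Yf_spec b b1).1

theorem ex_Yf (b b1 : L.B) : D.ex (D.Yf H L b b1) = L.uu (D.N H) b b1 := (D.Yf_spec b b1).2

theorem exp_Yf (b b1 : L.B) : exp (D.Yf H L b b1) = D.ρ (L.uu (D.N H) b b1) := by
  rw [← D.ex_Yf, D.ρ_ex _ (D.Yf_mem b b1).1]

theorem exp_neg_Yf (b b1 : L.B) : exp (-D.Yf H L b b1) = D.ρ (L.uu (D.N H) b b1)⁻¹ := by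
  rw [← D.ex_Yf, ← D.ex_neg (D.Yf_mem b b1).1, D.ρ_ex _ (neg_mem (D.Yf_mem b b1).1)]

theorem Yf_smul (h : L.Rb (D.N H) b b1) : D.ex (D.Yf H L b b1) • b = b1 := by
  rw [D.ex_Yf, h.uu_smul]

theorem Yf_eq (hb : b ∈ L.Free (D.N H)) {Y : Mat n} (hY : Y ∈ D.np H) :
    D.Yf H L b (D.ex Y • b) = Y :=
  D.ex_inj_np (D.Yf_mem _ _) hY (by rw [D.ex_Yf, Lat.uu_eq hb (D.ex_mem_N hY)])

theorem Yf_self (b : L.B) : D.Yf H L b b = 0 :=
  D.ex_inj_np (D.Yf_mem _ _) (zero_mem _) (by rw [D.ex_Yf, Lat.uu_self, D.ex_zero])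

theorem eq_of_Yf (h : L.Rb (D.N H) b b1) (h0 : D.Yf H L b b1 = 0) : b = b1 := by
  rw [← D.Yf_smul h, h0, D.ex_zero, one_smul]

theorem Yf_symm (h : L.Rb (D.N H) b b1) : D.Yf H L b1 b = -D.Yf H L b b1 :=
  D.ex_inj_np (D.Yf_mem _ _) (neg_mem (D.Yf_mem _ _))
    (by rw [D.ex_neg (D.Yf_mem _ _).1, D.ex_Yf, D.ex_Yf, h.uu_symm])

theorem exp_Yf_mul (h : L.Rb (D.N H) b b1) (h' : L.Rb (D.N H) b1 b2) :
    exp (-D.Yf H L b b1) * exp (-D.Yf H L b1 b2) = exp (-D.Yf H L b b2) := by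
  rw [D.exp_neg_Yf, D.exp_neg_Yf, D.exp_neg_Yf, ← map_mul, ← mul_inv_rev, h.uu_mul h']

theorem Yf_a (s : Euc k) (h : L.Rb (D.N H) b b1) :
    D.Yf H L (D.a s • b) (D.a s • b1) = D.Ad (D.a s) (D.Yf H L b b1) :=
  D.ex_inj_np (D.Yf_mem _ _) (D.Ad_a_grS s (D.Yf_mem _ _)) (by
    rw [← D.conj_ex _ (D.Yf_mem _ _).1, D.ex_Yf, D.ex_Yf,
      h.uu_conj (D.a_conj_N s) (D.a_conj_N' s)])

theorem exp_Yf_a (s : Euc k) (h : L.Rb (D.N H) b b1) :
    exp (-D.Yf H L (D.a s • b) (D.a s • b1)) =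
      D.ρ (D.a s) * exp (-D.Yf H L b b1) * (D.ρ (D.a s))⁻¹ := by
  rw [D.exp_neg_Yf, D.exp_neg_Yf, h.uu_conj (D.a_conj_N s) (D.a_conj_N' s), ← D.ρ_inv_eq,
    ← map_mul, ← map_mul]
  congr 1
  group

/-- Two points of the orbit of `b` whose positions differ by `exp Y`. -/
theorem eq_smul_of_exp (h : L.Rb (D.N H) b b1) (h' : L.Rb (D.N H) b b2) {Y : Mat n}
    (hY : Y ∈ D.np H) (e : exp (-D.Yf H L b b2) = exp (-D.Yf H L b b1) * exp Y) :
    b2 = D.ex (-Y) • b1 := by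
  rw [D.exp_neg_Yf, D.exp_neg_Yf, ← D.ρ_ex _ hY.1, ← map_mul] at e
  have e1 := D.ρ_inj_N ((D.N H).inv_mem (Lat.uu_mem _ _))
    ((D.N H).mul_mem ((D.N H).inv_mem (Lat.uu_mem _ _)) (D.ex_mem_N hY)) e
  rw [inv_eq_iff_eq_inv, mul_inv_rev, inv_inv] at e1
  rw [← h'.uu_smul, e1, mul_smul, h.uu_smul, D.ex_neg hY.1]

variable [MeasurableSpace G] [BorelSpace G]

theorem measurable_Yf : Measurable fun p : L.B × L.B => D.Yf H L p.1 p.2 :=
  (Unip_nlog_cont.comp D.cont).measurable.comp (Lat.measurable_uu (D.N_closed H))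

theorem measurable_exp_Yf : Measurable fun p : L.B × L.B => exp (-D.Yf H L p.1 p.2) := by
  have := L.polish
  simp only [D.exp_neg_Yf]
  exact D.cont.measurable.comp (Lat.measurable_uu (D.N_closed H)).inv

theorem gam_eq (b b1 : L.B) : L.gam (D.N H) b b1 = L.c (D.ex (-D.Yf H L b b1)) b1 := by
  rw [D.ex_neg (D.Yf_mem _ _).1, D.ex_Yf, Lat.gam]

theorem gam_a (s : Euc k) (h : L.Rb (D.N H) b b1) :
    L.gam (D.N H) (D.a s • b) (D.a s • b1) =
      L.c (D.a s) b * L.gam (D.N H) b b1 * (L.c (D.a s) b1)⁻¹ :=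
  h.gam_conj (D.a_conj_N s) (D.a_conj_N' s)

variable [ConnectedSpace G]

theorem len_uu (b b1 : L.B) : D.len (L.uu (D.N H) b b1) ≤ ‖D.Yf H L b b1‖ := by
  rw [← D.ex_Yf]
  exact D.len_ex_le (D.Yf_mem _ _).1

theorem dist_Rb (hL : ∀ g, L.len g = D.len g) (h : L.Rb (D.N H) b b1) :
    dist b b1 ≤ ‖D.Yf H L b b1‖ := by
  have := L.dist_smul_self (L.uu (D.N H) b b1) b
  rw [h.uu_smul, dist_comm, hL] at this
  exact this.trans (D.len_uu b b1)

/-- The holonomy along the orbit of the Cartan subgroup. -/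
theorem len_hol (hL : ∀ g, L.len g = D.len g) (h : L.Rb (D.N H) b b1) (s : Euc k) :
    L.len (L.c (D.a s) b * L.gam (D.N H) b b1 * (L.c (D.a s) b1)⁻¹ : L.Γ) ≤
      ‖D.Ad (D.a s) (D.Yf H L b b1)‖ + (L.ht (D.a s • b) + L.ht (D.a s • b1)) := by
  rw [← D.gam_a s h, ← D.Yf_a s h]
  refine (D.Rb_a s h).len_gam.trans (add_le_add ?_ le_rfl)
  rw [hL]
  exact D.len_uu _ _

/-- The holonomy along the backward orbit. -/
theorem len_hol_neg (hL : ∀ g, L.len g = D.len g) (h : L.Rb (D.N H) b b1) (i : ℕ) :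
    L.len (L.c (D.a (-(i • H))) b * L.gam (D.N H) b b1 * (L.c (D.a (-(i • H))) b1)⁻¹ : L.Γ) ≤
      ‖D.Yf H L b b1‖ + (L.ht (D.a (-(i • H)) • b) + L.ht (D.a (-(i • H)) • b1)) := by
  refine (D.len_hol hL h _).trans (add_le_add ?_ le_rfl)
  rw [← Nat.cast_smul_eq_nsmul ℝ]
  exact D.norm_Ad_neg' (D.Yf_mem _ _) i.cast_nonneg

end Std

end Pool.Agent.P.MP_d483fb_an.Z

end

end

section

/-!
Block diagonal matrices with two blocks.
-/

open scoped Matrix Matrix.Norms.Operator Topology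
open NormedSpace Filter Set

set_option linter.unusedSectionVars false

noncomputable section

namespace Pool.Agent.P.MP_d483fb_an.Z.Geo

variable {ι κ : Type} [Fintype ι] [DecidableEq ι] [Fintype κ] [DecidableEq κ]

/-- The block diagonal matrix with blocks `A` and `B`. -/
def blk (A : Matrix ι ι ℝ) (B : Matrix κ κ ℝ) : Matrix (ι ⊕ κ) (ι ⊕ κ) ℝ :=
  Matrix.fromBlocks A 0 0 B

variable (A A' : Matrix ι ι ℝ) (B B' : Matrix κ κ ℝ)

@[simp] theorem blk_ll (i j : ι) : blk A B (.inl i) (.inl j) = A i j := rfl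

@[simp] theorem blk_lr (i : ι) (j : κ) : blk A B (.inl i) (.inr j) = 0 := rfl

@[simp] theorem blk_rl (i : κ) (j : ι) : blk A B (.inr i) (.inl j) = 0 := rfl

@[simp] theorem blk_rr (i j : κ) : blk A B (.inr i) (.inr j) = B i j := rfl

@[simp] theorem blk_11 : (blk A B).toBlocks₁₁ = A := rfl

@[simp] theorem blk_12 : (blk A B).toBlocks₁₂ = 0 := rfl

@[simp] theorem blk_21 : (blk A B).toBlocks₂₁ = 0 := rfl

@[simp] theorem blk_22 : (blk A B).toBlocks₂₂ = B := rfl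

theorem blk_mul : blk A B * blk A' B' = blk (A * A') (B * B') := by
  simp [blk, Matrix.fromBlocks_multiply]

theorem blk_one : blk (1 : Matrix ι ι ℝ) (1 : Matrix κ κ ℝ) = 1 := by
  exact Matrix.fromBlocks_one

theorem blk_eta {T : Matrix (ι ⊕ κ) (ι ⊕ κ) ℝ} (h1 : T.toBlocks₁₂ = 0) (h2 : T.toBlocks₂₁ = 0) :
    blk T.toBlocks₁₁ T.toBlocks₂₂ = T := by
  rw [blk, ← h1, ← h2, Matrix.fromBlocks_toBlocks]

theorem blk_det : (blk A B).det = A.det * B.det := by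
  exact Matrix.det_fromBlocks_zero₂₁ A 0 B

theorem blk_inv (hA : IsUnit A.det) (hB : IsUnit B.det) : (blk A B)⁻¹ = blk A⁻¹ B⁻¹ := by
  apply Matrix.inv_eq_right_inv
  rw [blk_mul, Matrix.mul_nonsing_inv _ hA, Matrix.mul_nonsing_inv _ hB, blk_one]

theorem blk_diagonal (u : ι ⊕ κ → ℝ) :
    blk (Matrix.diagonal fun i => u (.inl i)) (Matrix.diagonal fun i => u (.inr i)) =
      Matrix.diagonal u := by
  rw [blk, Matrix.fromBlocks_diagonal]
  congr 1
  funext i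
  cases i <;> rfl

theorem norm_blk_le {r : ℝ} (hA : ‖A‖ ≤ r) (hB : ‖B‖ ≤ r) : ‖blk A B‖ ≤ r := by
  have hr : 0 ≤ r := (norm_nonneg _).trans hA
  lift r to NNReal using hr
  have hA' : ‖A‖₊ ≤ r := by exact_mod_cast hA
  have hB' : ‖B‖₊ ≤ r := by exact_mod_cast hB
  have : ‖blk A B‖₊ ≤ r := by
    rw [Matrix.linfty_opNNNorm_def] at hA' hB' ⊢
    refine Finset.sup_le fun i _ => ?_
    rw [Fintype.sum_sum_type]
    cases i with
    | inl i =>
      have := (Finset.le_sup (f := fun i => ∑ j, ‖A i j‖₊) (Finset.mem_univ i)).trans hA'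
      simpa using this
    | inr i =>
      have := (Finset.le_sup (f := fun i => ∑ j, ‖B i j‖₊) (Finset.mem_univ i)).trans hB'
      simpa using this
  exact_mod_cast this

theorem norm_11_le (T : Matrix (ι ⊕ κ) (ι ⊕ κ) ℝ) : ‖T.toBlocks₁₁‖ ≤ ‖T‖ := by
  have : ‖T.toBlocks₁₁‖₊ ≤ ‖T‖₊ := by
    rw [Matrix.linfty_opNNNorm_def, Matrix.linfty_opNNNorm_def]
    refine Finset.sup_le fun i _ => ?_
    refine le_trans ?_ (Finset.le_sup (f := fun i => ∑ j, ‖T i j‖₊) (Finset.mem_univ (.inl i)))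
    simp only [Fintype.sum_sum_type]
    exact le_self_add
  exact_mod_cast this

theorem abs_entry_le (i j : ι) : |A i j| ≤ ‖A‖ := by
  exact Z.abs_entry_le A i j

theorem norm_one_le' : ‖(1 : Matrix ι ι ℝ)‖ ≤ 1 := by
  rw [← Matrix.diagonal_one, Matrix.linfty_opNorm_diagonal]
  exact (pi_norm_le_iff_of_nonneg zero_le_one).2 fun _ => by simp

theorem measurable_blk {Y : Type} [MeasurableSpace Y] {f : Y → Matrix ι ι ℝ} {g : Y → Matrix κ κ ℝ}
    (hf : Measurable f) (hg : Measurable g) : Measurable fun y => blk (f y) (g y) := by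
  refine measurable_pi_lambda _ fun i => measurable_pi_lambda _ fun j => ?_
  rcases i with i | i <;> rcases j with j | j
  · exact (measurable_pi_apply j).comp ((measurable_pi_apply i).comp hf)
  · exact measurable_const
  · exact measurable_const
  · exact (measurable_pi_apply j).comp ((measurable_pi_apply i).comp hg)

theorem measurable_exp_neg : Measurable fun Y : Matrix ι ι ℝ => exp (-Y) := by
  have h : Continuous fun Y : Matrix ι ι ℝ => exp (-Y) :=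
    (exp_continuous (𝔸 := Matrix ι ι ℝ)).comp continuous_neg
  exact h.measurable

/-- `blk` as a ring homomorphism. -/
def blkHom : Matrix ι ι ℝ × Matrix κ κ ℝ →+* Matrix (ι ⊕ κ) (ι ⊕ κ) ℝ where
  toFun p := blk p.1 p.2
  map_one' := blk_one
  map_mul' p q := (blk_mul _ _ _ _).symm
  map_zero' := Matrix.fromBlocks_zero
  map_add' p q := by simp [blk, Matrix.fromBlocks_add]

theorem continuous_blk :
    Continuous fun p : Matrix ι ι ℝ × Matrix κ κ ℝ => blk p.1 p.2 :=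
  continuous_fst.matrix_fromBlocks continuous_const continuous_const continuous_snd

theorem exp_blk : exp (blk A B) = blk (exp A) (exp B) := by
  have h : blkHom (exp (A, B)) = exp (blkHom (A, B)) :=
    map_exp (blkHom (ι := ι) (κ := κ)) continuous_blk (A, B)
  have h1 : (exp (A, B)).1 = exp A := Prod.fst_exp (A, B)
  have h2 : (exp (A, B)).2 = exp B := Prod.snd_exp (A, B)
  rw [← h1, ← h2]
  exact h.symm

theorem exp_22 {V : Matrix (ι ⊕ κ) (ι ⊕ κ) ℝ}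
    (h : ∀ t : ℝ, (exp (t • V)).toBlocks₁₂ = 0 ∧ (exp (t • V)).toBlocks₂₁ = 0) (t : ℝ) :
    exp (t • V.toBlocks₂₂) = (exp (t • V)).toBlocks₂₂ := by
  have hd := hasDerivAt_exp_smul_const (𝕂 := ℝ) V 0
  rw [zero_smul, exp_zero, one_mul] at hd
  have key : ∀ i j, (∀ t : ℝ, exp (t • V) i j = 0) → V i j = 0 := by
    intro i j h0
    have h1 : HasDerivAt (fun t : ℝ => exp (t • V) i j) (V i j) 0 :=
      (LinearMap.toContinuousLinearMap (Matrix.entryLinearMap ℝ ℝ i j)).hasFDerivAt.comp_hasDerivAt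
        0 hd
    have h2 : HasDerivAt (fun t : ℝ => exp (t • V) i j) 0 0 := by
      simp only [h0]
      exact hasDerivAt_const _ _
    exact h1.unique h2
  have h12 : V.toBlocks₁₂ = 0 := by
    ext i j
    exact key _ _ fun t => congrFun (congrFun (h t).1 i) j
  have h21 : V.toBlocks₂₁ = 0 := by
    ext i j
    exact key _ _ fun t => congrFun (congrFun (h t).2 i) j
  have e : t • V = blk (t • V.toBlocks₁₁) (t • V.toBlocks₂₂) := by
    conv_lhs => rw [← blk_eta h12 h21]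
    simp [blk, Matrix.fromBlocks_smul]
  rw [e, exp_blk, blk_22]

/-- Block diagonal matrices with blocks in `U` and `V`. -/
def blkM (U : Submonoid (Matrix ι ι ℝ)) (V : Submonoid (Matrix κ κ ℝ)) :
    Submonoid (Matrix (ι ⊕ κ) (ι ⊕ κ) ℝ) where
  carrier := {T | ∃ A ∈ U, ∃ B ∈ V, T = blk A B}
  one_mem' := ⟨1, U.one_mem, 1, V.one_mem, blk_one.symm⟩
  mul_mem' := by
    rintro _ _ ⟨A, hA, B, hB, rfl⟩ ⟨A', hA', B', hB', rfl⟩
    exact ⟨_, U.mul_mem hA hA', _, V.mul_mem hB hB', blk_mul _ _ _ _⟩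

theorem mem_blkM {U : Submonoid (Matrix ι ι ℝ)} {V : Submonoid (Matrix κ κ ℝ)}
    {T : Matrix (ι ⊕ κ) (ι ⊕ κ) ℝ} : T ∈ blkM U V ↔ ∃ A ∈ U, ∃ B ∈ V, T = blk A B := Iff.rfl

theorem blkM_cl {U : Submonoid (Matrix ι ι ℝ)} {V : Submonoid (Matrix κ κ ℝ)}
    (hU : IsClosed (U : Set (Matrix ι ι ℝ)))
    (hV : ∀ T, IsUnit T.det → T ∈ closure (V : Set (Matrix κ κ ℝ)) → T ∈ V)
    {T : Matrix (ι ⊕ κ) (ι ⊕ κ) ℝ} (h : IsUnit T.det)
    (hT : T ∈ closure (blkM U V : Set (Matrix (ι ⊕ κ) (ι ⊕ κ) ℝ))) : T ∈ blkM U V := by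
  have hc : ∀ i j : ι ⊕ κ, Continuous fun T : Matrix (ι ⊕ κ) (ι ⊕ κ) ℝ => T i j :=
    fun i j => (continuous_apply j).comp (continuous_apply i)
  have hz : ∀ i j : ι ⊕ κ, (∀ S ∈ blkM U V, S i j = 0) → T i j = 0 := fun i j h0 =>
    (isClosed_eq (hc i j) continuous_const).closure_subset_iff.2 h0 hT
  have h12 : T.toBlocks₁₂ = 0 := by
    ext i j
    refine hz _ _ ?_
    rintro _ ⟨A, -, B, -, rfl⟩
    rfl
  have h21 : T.toBlocks₂₁ = 0 := by
    ext i j
    refine hz _ _ ?_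
    rintro _ ⟨A, -, B, -, rfl⟩
    rfl
  have c1 : Continuous fun T : Matrix (ι ⊕ κ) (ι ⊕ κ) ℝ => T.toBlocks₁₁ :=
    continuous_pi fun i => continuous_pi fun j => hc _ _
  have c2 : Continuous fun T : Matrix (ι ⊕ κ) (ι ⊕ κ) ℝ => T.toBlocks₂₂ :=
    continuous_pi fun i => continuous_pi fun j => hc _ _
  have m1 : T.toBlocks₁₁ ∈ closure (U : Set (Matrix ι ι ℝ)) := by
    refine map_mem_closure c1 hT ?_
    rintro _ ⟨A, hA, B, -, rfl⟩
    exact hA
  have m2 : T.toBlocks₂₂ ∈ closure (V : Set (Matrix κ κ ℝ)) := by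
    refine map_mem_closure c2 hT ?_
    rintro _ ⟨A, -, B, hB, rfl⟩
    exact hB
  have e := blk_eta h12 h21
  have hd : IsUnit (T.toBlocks₂₂).det := by
    rw [← e, blk_det] at h
    exact isUnit_of_mul_isUnit_right h
  exact ⟨_, hU.closure_subset m1, _, hV _ hd m2, e.symm⟩

theorem nil_11 (w : Wt (ι ⊕ κ)) (hT : w.Tri (blk A B)) (hu : IsUnit (blk A B).det)
    (hA : ∀ i j, (A - 1) i j ≠ 0 → w.wa (.inl j) < w.wa (.inl i)) :
    (w.nil (blk A B)).toBlocks₁₁ = A := by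
  ext i j
  have e := congrFun (congrFun (hT.nil_mul_lev hu) (.inl i)) (.inl j)
  rw [Matrix.mul_apply, Finset.sum_eq_single (.inl j)] at e
  · have h1 : A j j = 1 := by
      by_contra h1
      exact lt_irrefl _ (hA j j (by simpa [sub_eq_zero] using h1))
    rw [Wt.lev_apply, if_pos rfl, blk_ll, h1, mul_one] at e
    exact e
  · rintro (k | k) - hk
    · rw [Wt.lev_apply]
      split_ifs with hw
      · have hk' : k ≠ j := fun h => hk (by rw [h])
        have : A k j = 0 := by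
          by_contra h1
          exact (hA k j (by simpa [Matrix.one_apply_ne hk'] using h1)).ne' hw
        rw [blk_ll, this, mul_zero]
      · rw [mul_zero]
    · rw [Wt.lev_apply, blk_rl, ite_self, mul_zero]
  · simp

theorem nil_col (w : Wt (ι ⊕ κ)) (hT : w.Tri (blk A B)) (hu : IsUnit (blk A B).det) {e : κ}
    (he : B e e = 1) (hw : ∀ m, m ≠ e → w.wa (.inr e) < w.wa (.inr m)) (m : κ) :
    w.nil (blk A B) (.inr m) (.inr e) = B m e := by
  have e0 := congrFun (congrFun (hT.nil_mul_lev hu) (.inr m)) (.inr e)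
  rw [Matrix.mul_apply, Finset.sum_eq_single (.inr e)] at e0
  · rw [Wt.lev_apply, if_pos rfl, blk_rr, he, mul_one] at e0
    exact e0
  · rintro (k | k) - hk
    · rw [Wt.lev_apply, blk_lr, ite_self, mul_zero]
    · have hk' : k ≠ e := fun h => hk (by rw [h])
      rw [Wt.lev_apply, if_neg (hw k hk').ne', mul_zero]
  · simp

end Pool.Agent.P.MP_d483fb_an.Z.Geo

end

end

section

/-!
The unstable leaf structure of the suspension: the leaf relation and the algebraic data.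
-/

open scoped Matrix Matrix.Norms.Operator InnerProductSpace RealInnerProductSpace Topology
open MeasureTheory Filter Set NormedSpace

set_option linter.unusedSectionVars false

noncomputable section

namespace Pool.Agent.P.MP_d483fb_an.Z.Geo.Asm

open Os NF

variable {G : Type} [Group G] [TopologicalSpace G] [IsTopologicalGroup G] [ConnectedSpace G]
  [T2Space G] [MeasurableSpace G] [BorelSpace G] {n k : ℕ} {D : Std G n k} {B : Type}
  [MetricSpace B] [ProperSpace B] [MeasurableSpace B] [BorelSpace B] [MulAction G B]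
  [ContinuousSMul G B] {X Γ M : Type} [MetricSpace X] [ProperSpace X] [MeasurableSpace X]
  [BorelSpace X] [MulAction G X] {μ : Measure X} [Group Γ] [MeasurableSpace Γ] [Countable Γ]
  [DiscreteMeasurableSpace Γ] [MetricSpace M] [MeasurableSpace M] [BorelSpace M]
  [SecondCountableTopology M] {α : Γ →* Equiv.Perm M} {len : Γ → ℝ} {d : ℕ}
  {S : Sys (Euc k) X μ} {J : Jets α len d} {K : Skew S J} {lam : Fin d → Euc k →L[ℝ] ℝ}
  {κ : Type} [Fintype κ] [DecidableEq κ]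

/-- All the inputs of the construction. -/
structure Dat (D : Std G n k) (B : Type) [TopologicalSpace B] [MeasurableSpace B] [MulAction G B]
    (K : Skew S J) (lam : Fin d → Euc k →L[ℝ] ℝ) (κ : Type) [Fintype κ] [DecidableEq κ] where
  I : Inp D B K
  a : Euc k
  Ph : Euc k
  s1 : ℝ
  s2 : ℝ
  F : Fib K lam a s1 s2 κ
  gnr : Gnr D lam a Ph
  erg : Ergodic (S.act a) μ
  pos : 0 < s1
  lt : s1 < s2
  gap : ∀ β ∈ D.wts, 0 < ⟪β, a⟫ → s2 ≤ ⟪β, a⟫

theorem pt_mem (K : Skew S J) (a : Euc k) (s : ℝ) (x : X) : K.pt x ∈ K.Wu a s x :=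
  ⟨0, fun i => by rw [Skew.mv, ← K.pt_act, dist_self, zero_mul]⟩

namespace Dat

variable (A : Dat D B K lam κ) {x y z : X}

theorem free (hx : x ∈ A.F.X0) {Y : Mat n} (hY : Y ∈ D.np A.a)
    (h : D.ex Y • A.I.π x = A.I.π x) : Y = 0 := by
  have h2 := A.pos.trans A.lt
  obtain ⟨q, E⟩ := A.F.est (A.s2 / 4) (by positivity)
  exact A.I.free A.gap (by linarith) (q0 := q x) (ε := A.s2 / 4)
    (fun i => (E.h_le _ (A.F.inv0 _ _ hx)).trans (E.slow_b i x hx)) hY h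

theorem inj (hx : x ∈ A.F.X0) {Y Z : Mat n} (hY : Y ∈ D.np A.a) (hZ : Z ∈ D.np A.a)
    (h : D.ex Y • A.I.π x = D.ex Z • A.I.π x) : Y = Z := by
  obtain ⟨W, hW, e⟩ := D.mem_N.1 ((D.N A.a).mul_mem ((D.N A.a).inv_mem (D.ex_mem_N hZ))
    (D.ex_mem_N hY))
  have h0 := A.free hx hW (by rw [← e, mul_smul, h, inv_smul_smul])
  rw [h0, D.ex_zero, inv_mul_eq_one] at e
  exact (D.ex_inj_np hZ hY e).symm

theorem exists_Y : ∃ Y : X → X → Mat n, (Measurable fun p : X × X => Y p.1 p.2) ∧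
    (∀ x y, Y x y ∈ D.np A.a) ∧ ∀ x ∈ A.F.X0, ∀ y, ∀ Z ∈ D.np A.a,
      A.I.π y = D.ex Z • A.I.π x → Y x y = Z := by
  have h1 : MeasurableSet (D.np A.a : Set (Mat n)) :=
    (D.np A.a).closed_of_finiteDimensional.measurableSet
  have : StandardBorelSpace (D.np A.a) := h1.standardBorel
  have hc : Continuous fun p : X × D.np A.a => D.ex p.2 • A.I.π p.1 :=
    (D.ex_cont.comp_continuous (continuous_subtype_val.comp continuous_snd)
      fun p => p.2.2.1).smul (A.I.π_cont.comp continuous_fst)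
  obtain ⟨g, hg, h⟩ := exists_sel (Φ := fun x (Y : D.np A.a) => D.ex Y • A.I.π x) hc.measurable
    A.F.meas0 fun x hx Y Z e => Subtype.ext (A.inj hx Y.2 Z.2 e)
  refine ⟨fun x y => g x (A.I.π y), measurable_subtype_coe.comp
    (hg.comp (measurable_fst.prodMk (A.I.π_cont.measurable.comp measurable_snd))),
    fun x y => (g x _).2, fun x hx y Z hZ e => ?_⟩
  show (g x (A.I.π y) : Mat n) = Z
  rw [e, h x hx ⟨Z, hZ⟩]

/-- The position of the base point of `y` with respect to the base point of `x`. -/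
def Y : X → X → Mat n := A.exists_Y.choose

theorem measY : Measurable fun p : X × X => A.Y p.1 p.2 := A.exists_Y.choose_spec.1

theorem Y_mem (x y : X) : A.Y x y ∈ D.np A.a := A.exists_Y.choose_spec.2.1 x y

theorem Y_eq (hx : x ∈ A.F.X0) {Z : Mat n} (hZ : Z ∈ D.np A.a)
    (h : A.I.π y = D.ex Z • A.I.π x) : A.Y x y = Z := A.exists_Y.choose_spec.2.2 x hx y Z hZ h

/-- The group element between the base points. -/
def u (x y : X) : G := D.ex (A.Y x y)

/-- The holonomy. -/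
def γ (x y : X) : Γ := A.I.c (A.u x y)⁻¹ (A.I.π y)

/-- The leaf relation. -/
structure R (x y : X) : Prop where
  left : x ∈ A.F.X0
  right : y ∈ A.F.X0
  base : A.I.π y = A.u x y • A.I.π x
  mem : α (A.γ x y) (K.pt y) ∈ K.Wu A.a A.s1 x

theorem u_mem (x y : X) : A.u x y ∈ D.N A.a := D.ex_mem_N (A.Y_mem x y)

theorem u_eq (hx : x ∈ A.F.X0) {g : G} (hg : g ∈ D.N A.a) (h : A.I.π y = g • A.I.π x) :
    A.u x y = g := by
  obtain ⟨Z, hZ, rfl⟩ := D.mem_N.1 hg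
  rw [u, A.Y_eq hx hZ h]

theorem exp_neg (x y : X) : exp (-A.Y x y) = D.ρ (A.u x y)⁻¹ := by
  rw [u, ← D.ex_neg (A.Y_mem x y).1, D.ρ_ex _ (neg_mem (A.Y_mem x y).1)]

theorem measu : Measurable fun p : X × X => A.u p.1 p.2 := by
  have hc : Continuous fun Y : D.np A.a => D.ex Y :=
    D.ex_cont.comp_continuous continuous_subtype_val fun p => p.2.1
  exact hc.measurable.comp (A.measY.subtype_mk (h := fun p => A.Y_mem p.1 p.2))

theorem measγ : Measurable fun p : X × X => A.γ p.1 p.2 :=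
  A.I.meas_c.comp (A.measu.inv.prodMk (A.I.π_cont.measurable.comp measurable_snd))

theorem measR : MeasurableSet {p : X × X | A.R p.1 p.2} := by
  have := D.nm.polish
  have h1 : Measurable fun p : X × X => A.u p.1 p.2 • A.I.π p.1 :=
    (continuous_smul (M := G) (X := B)).measurable.comp
      (A.measu.prodMk (A.I.π_cont.measurable.comp measurable_fst))
  have h2 : Measurable fun p : X × X => (p.1, α (A.γ p.1 p.2) (K.pt p.2)) :=
    measurable_fst.prodMk (K.measurable_α.comp (A.measγ.prodMk (K.measPt.comp measurable_snd)))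
  have h := (measurable_fst A.F.meas0).inter ((measurable_snd A.F.meas0).inter
    ((measurableSet_eq_fun (A.I.π_cont.measurable.comp measurable_snd) h1).inter
      (h2 (K.measurableSet_Wu A.a A.s1))))
  convert h using 1
  ext p
  exact ⟨fun h => ⟨h.1, h.2, h.3, h.4⟩, fun h => ⟨h.1, h.2.1, h.2.2.1, h.2.2.2⟩⟩

variable {A}

theorem R.hol (h : A.R x y) : K.Hol A.a (K.L * (1 + ‖A.Y x y‖)) x y (A.γ x y) ∧
    K.Hol A.a (K.L * (1 + ‖A.Y x y‖)) y x (A.γ x y)⁻¹ := A.I.hol_np (A.Y_mem x y) h.base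

theorem R.ok (h : A.R x y) : Ok K A.F.X0 A.a A.s1 x y (A.γ x y) := ⟨h.1, h.2, ⟨_, h.hol⟩, h.mem⟩

theorem R.eq (h : A.R x y) : y = A.u x y • A.I.j (A.I.π x) (α (A.γ x y) (K.pt y)) := by
  rw [A.I.smul_j, ← Equiv.Perm.mul_apply, ← map_mul, γ, h.base, A.I.c_inv, mul_inv_cancel,
    map_one, Equiv.Perm.one_apply, ← h.base, A.I.j_pt]

theorem pos_of (hx : x ∈ A.F.X0) {Z : Mat n} (hZ : Z ∈ D.np A.a) {p : M}
    (h : y = D.ex Z • A.I.j (A.I.π x) p) :
    A.Y x y = Z ∧ A.I.π y = A.u x y • A.I.π x ∧ α (A.γ x y) (K.pt y) = p := by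
  have h1 : A.I.π y = D.ex Z • A.I.π x := by rw [h, A.I.π_smul, A.I.π_j]
  have h2 := A.Y_eq hx hZ h1
  refine ⟨h2, by rwa [u, h2], ?_⟩
  rw [γ, u, h2, ← A.I.pt_smul, h, inv_smul_smul, A.I.pt_j]

theorem u_self (hx : x ∈ A.F.X0) : A.u x x = 1 := A.u_eq hx (one_mem _) (one_smul _ _).symm

theorem γ_self (hx : x ∈ A.F.X0) : A.γ x x = 1 := by rw [γ, u_self hx, inv_one, A.I.c_one]

theorem R_refl (hx : x ∈ A.F.X0) : A.R x x :=
  ⟨hx, hx, by rw [u_self hx, one_smul], by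
    rw [γ_self hx, map_one]
    exact pt_mem K _ _ _⟩

theorem R.u_symm (h : A.R x y) : A.u y x = (A.u x y)⁻¹ :=
  A.u_eq h.2 (inv_mem (A.u_mem x y)) (by rw [h.base, inv_smul_smul])

theorem R.Y_symm (h : A.R x y) : A.Y y x = -A.Y x y :=
  A.Y_eq h.2 (neg_mem (A.Y_mem x y)) (by
    rw [D.ex_neg (A.Y_mem x y).1, h.base, u, inv_smul_smul])

theorem R.γ_symm (h : A.R x y) : A.γ y x = (A.γ x y)⁻¹ := by
  rw [γ, γ, h.u_symm, h.base, A.I.c_inv, inv_inv, inv_inv]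

theorem R.symm (h : A.R x y) : A.R y x :=
  ⟨h.2, h.1, by rw [h.u_symm, h.base, inv_smul_smul], by
    rw [h.γ_symm]
    exact (A.F.ok_symm _ _ _ h.ok).mem⟩

theorem R.u_mul (h : A.R x y) (h' : A.R y z) : A.u x z = A.u y z * A.u x y :=
  A.u_eq h.1 (mul_mem (A.u_mem y z) (A.u_mem x y)) (by rw [mul_smul, ← h.base, ← h'.base])

theorem R.γ_mul (h : A.R x y) (h' : A.R y z) : A.γ x z = A.γ x y * A.γ y z := by
  rw [γ, γ, γ, h.u_mul h', mul_inv_rev, A.I.c_mul, h'.base, inv_smul_smul]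

theorem R.trans (h : A.R x y) (h' : A.R y z) : A.R x z :=
  ⟨h.1, h'.2, by rw [h.u_mul h', mul_smul, ← h.base, ← h'.base], by
    rw [h.γ_mul h', map_mul]
    exact A.F.ok_mem _ _ _ h.ok _ h'.mem⟩

theorem R.u_act (h : A.R x y) (s : Euc k) :
    A.u (S.act s x) (S.act s y) = D.a s * A.u x y * (D.a s)⁻¹ :=
  A.u_eq (A.F.inv0 s x h.1) (D.a_conj_N s _ (A.u_mem x y)) (by
    rw [A.I.act_eq, A.I.act_eq, A.I.π_smul, A.I.π_smul, mul_smul, mul_smul, inv_smul_smul,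
      ← h.base])

theorem R.γ_act (h : A.R x y) (s : Euc k) :
    A.γ (S.act s x) (S.act s y) = K.β s x * A.γ x y * (K.β s y)⁻¹ := by
  have e : (A.u x y)⁻¹ • A.I.π y = A.I.π x := by rw [h.base, inv_smul_smul]
  rw [γ, γ, h.u_act, mul_inv_rev, mul_inv_rev, inv_inv, A.I.act_eq, A.I.π_smul, ← mul_assoc,
    A.I.c_mul, inv_smul_smul, A.I.c_inv, A.I.c_mul, e, A.I.β_eq, A.I.β_eq]

theorem R.act (h : A.R x y) (s : Euc k) : A.R (S.act s x) (S.act s y) :=
  ⟨A.F.inv0 s x h.1, A.F.inv0 s y h.2, by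
    rw [h.u_act, A.I.act_eq, A.I.act_eq, A.I.π_smul, A.I.π_smul, mul_smul, mul_smul,
      inv_smul_smul, ← h.base], by
    rw [h.γ_act, K.pt_act, ← Equiv.Perm.mul_apply, ← map_mul, inv_mul_cancel_right, map_mul]
    exact A.F.mv_mem s x h.1 _ h.mem⟩

variable (A)

/-- The weights. -/
def om : Fin n ⊕ κ → Euc k := Sum.elim D.lam fun m => vec (A.F.om m)

theorem om_mem (i : Fin n ⊕ κ) : A.om i ∈ Lam D lam := by
  cases i with
  | inl i => exact lam_mem D lam i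
  | inr m => exact vec_mem D (A.F.om_mem m)

theorem om_eq {i j : Fin n ⊕ κ} (h : ⟪A.om i, A.a⟫ = ⟪A.om j, A.a⟫) : A.om i = A.om j :=
  sub_eq_zero.1 (A.gnr.g1 _ (sub_mem (A.om_mem i) (A.om_mem j))
    (by rw [inner_sub_left, h, sub_self]))

/-- The grading. -/
def w : Wt (Fin n ⊕ κ) where
  wa i := ⟪A.om i, A.a⟫
  wb i := ⟪A.om i, A.Ph⟫
  hab i j h := by rw [A.om_eq h]

theorem wa_inl (i : Fin n) : A.w.wa (.inl i) = ⟪D.lam i, A.a⟫ := rfl

theorem wa_inr (m : κ) : A.w.wa (.inr m) = A.F.om m A.a := inner_vec _ _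

/-- The element of the Cartan subspace with coordinates `s`. -/
def v (s : ℝ × ℝ) : Euc k := s.1 • A.a + s.2 • A.Ph

/-- The change of charts. -/
def T (x y : X) : Matrix (Fin n ⊕ κ) (Fin n ⊕ κ) ℝ :=
  blk (exp (-A.Y x y)) (A.F.Tm x y (A.γ x y))

/-- The flow in the charts. -/
def L (s : ℝ × ℝ) (x : X) : Matrix (Fin n ⊕ κ) (Fin n ⊕ κ) ℝ :=
  blk (D.ρ (D.a (A.v s))) (A.F.Lm (A.v s) x)

theorem v_zero : A.v 0 = 0 := by simp [v]

theorem v_add (s t : ℝ × ℝ) : A.v (s + t) = A.v s + A.v t := by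
  simp only [v, Prod.fst_add, Prod.snd_add, add_smul]
  abel

theorem v_fst (t : ℝ) : A.v (t, 0) = t • A.a := by simp [v]

theorem dil_eq (s t : ℝ) : A.w.dil s t =
    blk (D.ρ (D.a (A.v (s, t)))) (Matrix.diagonal fun m => Real.exp (A.F.om m (A.v (s, t)))) := by
  rw [Wt.dil, ← blk_diagonal, D.ρ_a]
  congr 2
  · funext i
    simp [w, v, om, inner_add_right, inner_smul_right]
  · funext m
    simp [w, v, om, inner_vec]

theorem exp_str (x y : X) (i j : Fin n) (h : (exp (-A.Y x y) - 1) i j ≠ 0) :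
    A.w.wa (.inl j) < A.w.wa (.inl i) := by
  have h1 := neg_mem (D.one_sub_exp_mem (Std.pos_half A.a) (neg_mem (A.Y_mem x y).2))
  rw [neg_sub] at h1
  have h2 : 0 < ⟪D.lam i - D.lam j, A.a⟫ := h1 i j h
  rwa [inner_sub_left, sub_pos] at h2

theorem ρ_unit (g : G) : IsUnit (D.ρ g).det := Matrix.isUnit_det_of_left_inverse (D.ρ_inv_mul g)

variable {A}

theorem R.T_tri (h : A.R x y) : A.w.Tri (A.T x y) := by
  rintro (i | i) (j | j) hij
  · by_cases e : i = j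
    · rw [e]
    · refine (A.exp_str x y i j ?_).le
      rwa [Matrix.sub_apply, Matrix.one_apply_ne e, sub_zero]
  · exact absurd rfl hij
  · exact absurd rfl hij
  · rw [wa_inr, wa_inr]
    exact A.F.T_tri _ _ _ h.ok i j hij

theorem R.T_inj (h : A.R x y) (hl : A.w.Lev (A.T x y)) : x = y := by
  have h1 : exp (-A.Y x y) = 1 := by
    ext i j
    by_contra hne
    have h2 := A.exp_str x y i j (by rwa [Matrix.sub_apply, sub_ne_zero])
    have e : i ≠ j := fun e => h2.ne (by rw [e])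
    rw [Matrix.one_apply_ne e] at hne
    exact h2.ne' (hl (.inl i) (.inl j) hne)
  have h2 : A.u x y = 1 := by
    rw [A.exp_neg, ← map_one D.ρ] at h1
    exact inv_eq_one.1 (D.ρ_inj_N (inv_mem (A.u_mem x y)) (one_mem _) h1)
  have h3 := A.F.T_inj x y x _ _ h.ok (R_refl h.1).ok fun m => by
    rw [γ_self h.1, A.F.T_self x h.1]
    by_cases e : m = A.F.e0
    · rw [e, A.F.Gen_e0 _ (A.F.T_mem _ _ _ h.ok), Matrix.one_apply_eq]
    · rw [Matrix.one_apply_ne e]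
      by_contra hne
      have h4 := hl (.inr m) (.inr A.F.e0) hne
      rw [wa_inr, wa_inr, A.F.om_e0] at h4
      exact (A.F.om_pos m e).ne' h4
  have h4 := h.eq
  rw [h3, h2, γ_self h.1, map_one, one_smul, Equiv.Perm.one_apply, A.I.j_pt] at h4
  exact h4.symm

theorem R.P1 {y' : X} (h : A.R x y) (h' : A.R x y')
    (e : ∀ m, A.T x y (.inr m) (.inr A.F.e0) = A.T x y' (.inr m) (.inr A.F.e0)) {Z : Mat n}
    (hZ : Z ∈ D.np A.a) (e' : exp (-A.Y x y') = exp (-A.Y x y) * exp Z) : y' = D.ex (-Z) • y := by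
  rw [A.exp_neg, A.exp_neg, ← D.ρ_ex _ hZ.1, ← map_mul] at e'
  have e1 := D.ρ_inj_N (inv_mem (A.u_mem _ _)) (mul_mem (inv_mem (A.u_mem _ _)) (D.ex_mem_N hZ)) e'
  rw [inv_eq_iff_eq_inv, mul_inv_rev, inv_inv] at e1
  rw [h'.eq, ← A.F.T_inj x y y' _ _ h.ok h'.ok e, e1, mul_smul, ← h.eq, D.ex_neg hZ.1]

variable (A)

/-- The algebraic part of the leaf structure. -/
def pre : Pre X μ (Fin n ⊕ κ) where
  w := A.w
  f s := S.act (A.v s)
  f_zero x := by rw [v_zero, S.zero]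
  f_add s t x := by rw [v_add, S.add]
  mp s := S.mp _
  erg := by
    rw [v_fst, one_smul]
    exact A.erg
  X0 := A.F.X0
  meas0 := A.F.meas0
  ae0 := A.F.ae0
  inv0 s := A.F.inv0 _
  R := A.R
  measR := A.measR
  R_mem _ _ h := h.1
  R_refl _ := R_refl
  R_symm _ _ := R.symm
  R_trans _ _ _ := R.trans
  R_f _ _ _ h := h.act _
  T := A.T
  measT := measurable_blk (measurable_exp_neg.comp A.measY)
    (A.F.measT.comp (measurable_fst.prodMk (measurable_snd.prodMk A.measγ)))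
  T_self x hx := by
    rw [T, A.exp_neg, u_self hx, γ_self hx, inv_one, map_one, A.F.T_self x hx, blk_one]
  T_mul x y z h h' := by
    have h2 := (h.trans h').ok
    rw [h.γ_mul h'] at h2
    rw [T, T, T, blk_mul, A.exp_neg, A.exp_neg, A.exp_neg, ← map_mul, ← mul_inv_rev,
      ← h.u_mul h', A.F.T_mul x y z _ _ h.ok h'.ok h2, h.γ_mul h']
  T_tri _ _ := R.T_tri
  T_inj _ _ := R.T_inj
  L := A.L
  measL s := measurable_blk measurable_const (A.F.measL _)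
  L_zero x hx := by rw [L, v_zero, D.a_zero, map_one, A.F.L_zero x hx, blk_one]
  L_add s t x hx := by rw [L, L, L, blk_mul, v_add, D.a_add, map_mul, A.F.L_add _ _ x hx]
  L_lev s x hx := by
    rintro (i | i) (j | j) hij
    · rw [L, blk_ll, D.ρ_a] at hij
      obtain rfl : i = j := by
        by_contra hne
        exact hij (Matrix.diagonal_apply_ne _ hne)
      rfl
    · exact absurd rfl hij
    · exact absurd rfl hij
    · rw [wa_inr, wa_inr, A.F.L_res _ x hx i j hij]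
  T_f s x y h := by
    have h2 := (h.act (A.v s)).ok
    rw [h.γ_act] at h2
    rw [T, T, L, L, blk_inv _ _ (ρ_unit _) (A.F.Gen_unit _ (A.F.L_mem _ y h.2)), blk_mul, blk_mul,
      h.γ_act, A.F.T_act _ x y _ h.ok h2, A.exp_neg, A.exp_neg, h.u_act, ← D.ρ_inv_eq, ← map_mul,
      ← map_mul]
    congr 2
    group

end Dat

end Pool.Agent.P.MP_d483fb_an.Z.Geo.Asm

end

end

section

/-!
The unstable leaf structure of the suspension: metric estimates along orbits.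
-/

open scoped Matrix Matrix.Norms.Operator InnerProductSpace RealInnerProductSpace Topology
open MeasureTheory Filter Set NormedSpace

set_option linter.unusedSectionVars false

noncomputable section

namespace Pool.Agent.P.MP_d483fb_an.Z.Geo.Asm

open Os NF

variable {G : Type} [Group G] [TopologicalSpace G] [IsTopologicalGroup G] [ConnectedSpace G]
  [T2Space G] [MeasurableSpace G] [BorelSpace G] {n k : ℕ} {D : Std G n k} {B : Type}
  [MetricSpace B] [ProperSpace B] [MeasurableSpace B] [BorelSpace B] [MulAction G B]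
  [ContinuousSMul G B] {X Γ M : Type} [MetricSpace X] [ProperSpace X] [MeasurableSpace X]
  [BorelSpace X] [MulAction G X] {μ : Measure X} [Group Γ] [MeasurableSpace Γ] [Countable Γ]
  [DiscreteMeasurableSpace Γ] [MetricSpace M] [MeasurableSpace M] [BorelSpace M]
  [SecondCountableTopology M] {α : Γ →* Equiv.Perm M} {len : Γ → ℝ} {d : ℕ}
  {S : Sys (Euc k) X μ} {J : Jets α len d} {K : Skew S J} {lam : Fin d → Euc k →L[ℝ] ℝ}
  {κ : Type} [Fintype κ] [DecidableEq κ]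

theorem Ad_zero (D : Std G n k) (Y : Mat n) : D.Ad (D.a 0) Y = Y := by rw [D.a_zero, D.Ad_one]

theorem norm_exp_le (Y : Mat n) : ‖exp Y‖ ≤ Real.exp ‖Y‖ := by
  have h1 := ExpData.Len_norm_exp_sub_one Y
  have h2 := norm_add_le (exp Y - 1) 1
  rw [sub_add_cancel] at h2
  linarith [norm_one_le' (ι := Fin n)]

namespace Dat

variable (A : Dat D B K lam κ) {x y z : X} {ε : ℝ} {q : X → ℝ}

/-- The gap between the rates. -/
def η : ℝ := (A.s2 - A.s1) / 3

theorem η_pos : 0 < A.η := div_pos (sub_pos.2 A.lt) three_pos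

theorem s2_eq (t : ℝ) : A.s2 * t = A.s1 * t + 3 * (A.η * t) := by
  unfold η
  ring

theorem a_int (i : ℤ) (x : X) : A.pre.a i x = S.act ((i : ℝ) • A.a) x := by
  show S.act (A.v ((i : ℝ), 0)) x = _
  rw [v_fst]

theorem a_nat (i : ℕ) (x : X) : A.pre.a i x = S.act (i • A.a) x := by
  rw [a_int, Int.cast_natCast, Nat.cast_smul_eq_nsmul]

theorem a_neg (i : ℕ) (x : X) : A.pre.a (-i) x = S.act (-(i • A.a)) x := by
  rw [a_int, Int.cast_neg, Int.cast_natCast, neg_smul, Nat.cast_smul_eq_nsmul]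

variable {A}

theorem h_back (E : A.F.Est A.s2 ε q) (hx : x ∈ A.F.X0) (i : ℕ) :
    K.h (S.act (-(i • A.a)) x) ≤ q x + ε * i :=
  (E.h_le _ (A.F.inv0 _ _ hx)).trans (E.slow_b i x hx)

variable (A)

/-- Points whose backward orbits approach exponentially. -/
theorem back : ∃ δ C : ℝ, 0 < δ ∧ 0 ≤ C ∧ ∀ (ε : ℝ) (q : X → ℝ), A.F.Est A.s2 ε q →
    2 * ε ≤ A.η → K.L * ε ≤ A.η → ∀ x ∈ A.F.X0, ∀ (y : X) (c : ℝ),
    c ≤ δ * Real.exp (-2 * q x) → (∀ i : ℕ, dist (S.act (-(i • A.a)) x) (S.act (-(i • A.a)) y) ≤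
      c * Real.exp (-(A.s1 + A.η) * i)) →
    ∃ Y ∈ D.np A.a, ∃ p, y = D.ex Y • A.I.j (A.I.π x) p ∧ ‖Y‖ ≤ C * c ∧
      K.Sh A.a A.s1 (Real.exp (K.L * (1 + q x)) * c) x p := by
  obtain ⟨δ, C, hδ, hC, h⟩ := A.I.orbit (-A.a)
  refine ⟨δ, C, hδ, hC, fun ε q E h1 h2 x hx y c hc hd => ?_⟩
  have h0 : dist x y ≤ c := by simpa [S.zero] using hd 0
  have c0 : 0 ≤ c := dist_nonneg.trans h0
  have p1 := A.pos
  have p2 := A.η_pos
  have hcl : ∀ i : ℕ, dist (S.act (i • -A.a) x) (S.act (i • -A.a) y) ≤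
      δ * Real.exp (-2 * K.h (S.act (i • -A.a) x)) := fun i => by
    rw [smul_neg]
    refine (hd i).trans ((mul_le_mul_of_nonneg_right hc (Real.exp_pos _).le).trans ?_)
    rw [mul_assoc, ← Real.exp_add]
    refine mul_le_mul_of_nonneg_left (Real.exp_le_exp.2 ?_) hδ.le
    have i0 : (0 : ℝ) ≤ i := i.cast_nonneg
    nlinarith [h_back E hx i, mul_le_mul_of_nonneg_right h1 i0, mul_nonneg p1.le i0]
  obtain ⟨Y, hY, p, e, hb⟩ := h x y (h0.trans (hc.trans (mul_le_of_le_one_right hδ.le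
    (Real.exp_le_one_iff.2 (by linarith [E.one_le x])))))
  have hb' := fun i => hb i (fun j _ => hcl j) i le_rfl
  simp only [smul_neg] at hb'
  refine ⟨Y, mem_np D hY ?_, p, e, ?_, fun i => ?_⟩
  · have h3 : Tendsto (fun i : ℕ => C * (c * Real.exp (-(A.s1 + A.η) * i))) atTop
        (𝓝 (C * (c * 0))) :=
      ((Real.tendsto_exp_atBot.comp (tendsto_natCast_atTop_atTop.const_mul_atTop_of_neg
        (by linarith))).const_mul c).const_mul C
    rw [mul_zero, mul_zero] at h3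
    exact squeeze_zero (fun _ => norm_nonneg _)
      (fun i => (hb' i).1.trans (mul_le_mul_of_nonneg_left (hd i) hC)) h3
  · have h3 := (hb' 0).1
    rw [zero_smul, neg_zero, Ad_zero, S.zero, S.zero] at h3
    exact h3.trans (mul_le_mul_of_nonneg_left h0 hC)
  · refine (hb' i).2.trans ((mul_le_mul_of_nonneg_left (hd i) (Real.exp_pos _).le).trans ?_)
    rw [mul_left_comm, ← Real.exp_add, mul_comm _ c, mul_assoc, ← Real.exp_add]
    refine mul_le_mul_of_nonneg_left (Real.exp_le_exp.2 ?_) c0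
    have i0 : (0 : ℝ) ≤ i := i.cast_nonneg
    nlinarith [mul_le_mul_of_nonneg_left (h_back E hx i) K.L_nonneg,
      mul_le_mul_of_nonneg_right h2 i0]

theorem R_of (hx : x ∈ A.F.X0) (hy : y ∈ A.F.X0) {Z : Mat n} (hZ : Z ∈ D.np A.a) {p : M}
    (h : y = D.ex Z • A.I.j (A.I.π x) p) {c : ℝ} (hp : K.Sh A.a A.s1 c x p) : A.R x y := by
  obtain ⟨-, h2, h3⟩ := pos_of hx hZ h
  exact ⟨hx, hy, h2, c, h3 ▸ hp⟩

theorem G2a (hx : x ∈ A.F.X0) (hy : y ∈ A.F.X0) {c : ℝ}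
    (hd : ∀ i : ℕ, dist (S.act (-(i • A.a)) x) (S.act (-(i • A.a)) y) ≤
      c * Real.exp (-(A.s1 + A.η) * i)) : A.R x y := by
  obtain ⟨δ, C, hδ, -, h⟩ := A.back
  have p1 := A.pos
  have p2 := A.η_pos
  have l1 := A.I.one_le
  have l2 : 0 < 2 * K.L := by linarith
  have e0 : 0 < A.η / (2 * K.L) := div_pos p2 l2
  have e1 : A.η / (2 * K.L) * (2 * K.L) = A.η := div_mul_cancel₀ _ l2.ne'
  obtain ⟨q, E⟩ := A.F.est _ e0
  set ε := A.η / (2 * K.L)
  have h1 : 2 * ε ≤ A.η := by nlinarith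
  have h3 : Tendsto (fun i : ℕ => c * Real.exp (-A.s1 * i)) atTop (𝓝 (c * 0)) :=
    (Real.tendsto_exp_atBot.comp (tendsto_natCast_atTop_atTop.const_mul_atTop_of_neg
      (by linarith))).const_mul c
  rw [mul_zero] at h3
  obtain ⟨m, hm⟩ := (h3.eventually (ge_mem_nhds
    (show 0 < δ * Real.exp (-2 * q x) by positivity))).exists
  obtain ⟨Y, hY, p, e, -, hp⟩ := h ε q E h1 (by nlinarith) _ (A.F.inv0 (-(m • A.a)) x hx)
    (S.act (-(m • A.a)) y) (c * Real.exp (-(A.s1 + A.η) * m)) (by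
      have e2 : c * Real.exp (-(A.s1 + A.η) * m) =
          c * Real.exp (-A.s1 * m) * Real.exp (-A.η * m) := by
        rw [mul_assoc, ← Real.exp_add]
        congr 2
        ring
      rw [e2]
      refine (mul_le_mul_of_nonneg_right hm (Real.exp_pos _).le).trans ?_
      rw [mul_assoc, ← Real.exp_add]
      refine mul_le_mul_of_nonneg_left (Real.exp_le_exp.2 ?_) hδ.le
      nlinarith [E.slow_b m x hx, mul_le_mul_of_nonneg_right h1 (m.cast_nonneg (α := ℝ))])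
    fun i => by
      have h4 := hd (i + m)
      rw [add_smul, neg_add, S.add, S.add] at h4
      refine h4.trans_eq ?_
      rw [mul_assoc, ← Real.exp_add]
      congr 2
      push_cast
      ring
  have h5 := (A.R_of (A.F.inv0 _ x hx) (A.F.inv0 _ y hy) hY e hp).act (m • A.a)
  rwa [← S.add, ← S.add, add_neg_cancel, S.zero, S.zero] at h5

/-- The leaf structure without the tempered estimates. -/
def geoPre : GeoPre D B X μ κ where
  toPre := A.pre
  Ha := A.a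
  Ph := A.Ph
  om := A.om
  om_inl _ := rfl
  wa_eq _ := rfl
  wb_eq _ := rfl
  g1 _ _ := A.om_eq
  g2 i j i' j' h h' e := by
    refine A.gnr.g2 _ (sub_mem (A.om_mem i) (A.om_mem j)) _ (sub_mem (A.om_mem i') (A.om_mem j'))
      ?_ ?_ ?_
    · rw [inner_sub_left]
      exact sub_pos.2 h
    · rw [inner_sub_left]
      exact sub_pos.2 h'
    · simp only [inner_sub_left]
      exact e
  g3 i j i' j' e := sub_eq_zero.1 (A.gnr.g1 _ (sub_mem (sub_mem (A.om_mem i) (A.om_mem j))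
    (sub_mem (A.om_mem i') (A.om_mem j'))) (by
      simp only [inner_sub_left]
      exact sub_eq_zero.2 e))
  e0 := A.F.e0
  k1 := A.F.k1
  om_e0 := by
    show vec (A.F.om A.F.e0) = 0
    rw [A.F.om_e0, vec_zero]
  wa_pos m hm := (A.F.om_pos m hm).trans_eq (A.wa_inr m).symm
  π := A.I.π
  π_cont := A.I.π_cont
  π_smul := A.I.π_smul
  base := A.I.base
  f_eq s x := A.I.act_eq _ x
  Gen := blkM (MonoidHom.mrange D.ρ) A.F.Gen
  Gen_unit := by
    rintro _ ⟨_, ⟨g, rfl⟩, T, hT, rfl⟩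
    rw [blk_det]
    exact (ρ_unit g).mul (A.F.Gen_unit T hT)
  Gen_inv := by
    rintro _ ⟨_, ⟨g, rfl⟩, T, hT, rfl⟩
    exact ⟨_, ⟨g⁻¹, D.ρ_inv_eq g⟩, _, A.F.Gen_inv T hT,
      blk_inv _ _ (ρ_unit g) (A.F.Gen_unit T hT)⟩
  Gen_cl T h hT := blkM_cl (U := MonoidHom.mrange D.ρ) D.closed A.F.Gen_cl h hT
  Gen_blk := by
    rintro _ ⟨_, ⟨g, rfl⟩, T, hT, rfl⟩
    exact ⟨rfl, rfl, g, rfl⟩
  Gen_e0 := by
    rintro _ ⟨_, -, T, hT, rfl⟩
    exact A.F.Gen_e0 T hT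
  Gen_lie V h m hm := by
    refine A.F.Gen_lie V.toBlocks₂₂ (fun t => ?_) m hm
    rw [exp_22 fun t => ?_]
    · obtain ⟨_, -, T, hT, e⟩ := (h t).1
      rwa [e]
    · obtain ⟨_, -, T, hT, e⟩ := (h t).1
      rw [e]
      exact ⟨rfl, rfl⟩
  dil_mem s t := ⟨_, ⟨_, rfl⟩, _, A.F.dil_mem _, A.dil_eq s t⟩
  T_mem x y h := ⟨_, ⟨_, (A.exp_neg x y).symm⟩, _, A.F.T_mem _ _ _ (R.ok h), rfl⟩
  L_mem s x hx := ⟨_, ⟨_, rfl⟩, _, A.F.L_mem _ x hx, rfl⟩
  L_blk _ _ _ := rfl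
  P0 x y h := ⟨_, A.Y_mem x y, rfl, R.base h⟩
  P1 _ _ _ h h' e _ hZ e' := R.P1 h h' e hZ e'
  free _ hx _ hY := A.free hx hY
  inj := A.I.inj_cpt
  kap := A.s1 + A.η
  kap' := A.s1 + 2 * A.η
  Lp := (A.I.exists_lip A.a).choose
  kap_pos := add_pos A.pos A.η_pos
  kap_lt := by linarith [A.η_pos]
  G2a x hx y hy c h := A.G2a hx hy fun i => by simpa only [a_neg] using h i
  lip i x y := by
    rw [a_int, a_int]
    exact (A.I.exists_lip A.a).choose_spec i x y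
  cover := A.I.cover

theorem size (r : ℝ) : ∃ R0 : ℝ, 0 ≤ R0 ∧ ∀ x y, A.R x y → A.pre.N x y ≤ r →
    ‖A.Y x y‖ ≤ R0 ∧ ∀ m, |A.F.Tm x y (A.γ x y) m A.F.e0| ≤ Real.exp R0 := by
  obtain ⟨C, hC⟩ := D.norm_exp_le A.a
  set c := |A.w.C * (1 + r) ^ A.w.C|
  have c0 : 0 ≤ c := abs_nonneg _
  refine ⟨c + |C| * (1 + c) ^ n, by positivity, fun x y h hN => ?_⟩
  have h1 : ‖A.w.nil (A.T x y)‖ ≤ c := ((n_nil A.pre h).norm_le hN).trans (le_abs_self _)
  have hu := T_unit A.pre h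
  have h2 : 0 ≤ |C| * (1 + c) ^ n := by positivity
  constructor
  · have h3 := (norm_11_le _).trans h1
    rw [T, nil_11 _ _ A.w h.T_tri hu (A.exp_str x y)] at h3
    have h4 := (hC _ (neg_mem (A.Y_mem x y).2)).2
    rw [norm_neg] at h4
    refine h4.trans (le_add_of_nonneg_of_le c0 ?_)
    exact mul_le_mul (le_abs_self C) (by gcongr) (by positivity) (abs_nonneg C)
  · intro m
    rw [← nil_col _ _ A.w h.T_tri hu (A.F.Gen_e0 _ (A.F.T_mem _ _ _ h.ok)) (fun m hm => by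
      rw [wa_inr, wa_inr, A.F.om_e0]
      exact A.F.om_pos m hm) m]
    refine ((Z.abs_entry_le _ _ _).trans h1).trans ?_
    linarith [Real.add_one_le_exp (c + |C| * (1 + c) ^ n)]

theorem G1 (E : A.F.Est A.s2 ε q) (h2 : K.L * ε ≤ A.η) (h : A.R x y) {R0 : ℝ} (h0 : 0 ≤ R0)
    (hY : ‖A.Y x y‖ ≤ R0) (hT : ∀ m, |A.F.Tm x y (A.γ x y) m A.F.e0| ≤ Real.exp R0) (i : ℕ) :
    dist (S.act (-(i • A.a)) x) (S.act (-(i • A.a)) y) ≤
      (K.L * R0 + Real.exp (A.F.C * R0)) * Real.exp (K.L * (1 + q x) + A.F.C * q x) *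
        Real.exp (-(A.s1 + 2 * A.η) * i) := by
  have i0 : (0 : ℝ) ≤ i := i.cast_nonneg
  have p2 := A.η_pos
  have l0 := K.L_nonneg
  have q0 := E.one_le x
  have c0 := A.F.one_le
  have h3 := A.I.dist_le (-(i • A.a)) x (A.Y_mem x y).1 (α (A.γ x y) (K.pt y))
  rw [← u, ← h.eq] at h3
  have h4 := D.norm_Ad_neg A.gap (A.Y_mem x y) i0
  rw [Nat.cast_smul_eq_nsmul] at h4
  have h5 := E.sh_of x y _ R0 h.ok h0 hT i
  refine h3.trans ?_
  rw [add_mul, add_mul]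
  refine add_le_add ?_ ?_
  · rw [mul_assoc, mul_assoc, ← Real.exp_add]
    refine mul_le_mul_of_nonneg_left (h4.trans ?_) l0
    rw [mul_comm]
    refine mul_le_mul hY (Real.exp_le_exp.2 ?_) (Real.exp_pos _).le h0
    nlinarith [mul_nonneg p2.le i0, A.s2_eq i]
  · refine (mul_le_mul_of_nonneg_left h5 (Real.exp_pos _).le).trans ?_
    simp only [← Real.exp_add]
    refine Real.exp_le_exp.2 ?_
    nlinarith [mul_le_mul_of_nonneg_left (h_back E h.1 i) l0, mul_le_mul_of_nonneg_right h2 i0,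
      A.s2_eq i]

theorem T_le (E : A.F.Est A.s2 ε q) (h : A.R x y) (hY : ‖A.Y x y‖ ≤ 1)
    (hp : K.Sh A.a A.s1 1 x (α (A.γ x y) (K.pt y))) :
    ‖A.T x y‖ ≤ Real.exp (A.F.C * (q x + q y + 2 * K.L)) ∧
      ‖A.T y x‖ ≤ Real.exp (A.F.C * (q x + q y + 2 * K.L)) := by
  have l0 := K.L_nonneg
  have c0 := A.F.one_le
  have n0 := norm_nonneg (A.Y x y)
  have h1 := E.T_le x h.1 y h.2 _ _ 0 (by positivity) le_rfl h.hol.1 h.hol.2
    (by rwa [Real.exp_zero])
  have h2 : Real.exp (A.F.C * (q x + q y + K.L * (1 + ‖A.Y x y‖) + 0)) ≤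
      Real.exp (A.F.C * (q x + q y + 2 * K.L)) :=
    Real.exp_le_exp.2 (mul_le_mul_of_nonneg_left (by nlinarith) (by linarith))
  have h3 : Real.exp ‖A.Y x y‖ ≤ Real.exp (A.F.C * (q x + q y + 2 * K.L)) :=
    Real.exp_le_exp.2 (by nlinarith [E.one_le x, E.one_le y])
  refine ⟨norm_blk_le _ _ ((norm_exp_le _).trans ?_) (h1.1.trans h2),
    norm_blk_le _ _ ((norm_exp_le _).trans ?_) ?_⟩
  · rwa [norm_neg]
  · rwa [h.Y_symm, neg_neg]
  · rw [h.γ_symm]
    exact h1.2.trans h2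

theorem Ad_split {Y : Mat n} (hY : Y ∈ D.g) {i t : ℕ} (hi : i ≤ t) :
    ‖D.Ad (D.a (i • A.a)) Y‖ ≤
      Real.exp (-(A.s2 * (t - i))) * ‖D.Ad (D.a (t • A.a)) Y‖ + ‖Y‖ := by
  set P : Set (Euc k) := {γ | 0 < ⟪γ, A.a⟫}
  have h1 : ‖D.Ad (D.a (i • A.a)) (D.prS Pᶜ Y)‖ ≤ ‖Y‖ := by
    refine (D.norm_Ad_a_le _ (D.prS_mem_wtS Pᶜ Y) (c := 0) fun β hβ _ => ?_).trans ?_
    · rw [← Nat.cast_smul_eq_nsmul ℝ, real_inner_smul_right]
      exact mul_nonpos_of_nonneg_of_nonpos i.cast_nonneg (not_lt.1 hβ)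
    · rw [Real.exp_zero, one_mul]
      exact D.norm_prS_le _ _
  have h2 : D.prS P (D.Ad (D.a (t • A.a)) Y) = D.Ad (D.a (t • A.a)) (D.prS P Y) := by
    ext u v
    rw [D.prS_apply, D.Ad_a_apply, D.Ad_a_apply, D.prS_apply]
    split_ifs <;> simp
  have h3 := D.norm_Ad_neg A.gap (D.prS_mem P (D.Ad_mem (D.a (t • A.a)) hY))
    (t := (t : ℝ) - i) (sub_nonneg.2 (Nat.cast_le.2 hi))
  have e : -(((t : ℝ) - i) • A.a) + t • A.a = i • A.a := by
    rw [sub_smul, Nat.cast_smul_eq_nsmul, Nat.cast_smul_eq_nsmul]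
    abel
  have h4 := h3.trans (mul_le_mul_of_nonneg_left (D.norm_prS_le _ _) (Real.exp_pos _).le)
  rw [h2, ← D.Ad_mul, ← D.a_add, e] at h4
  conv_lhs => rw [← D.prS_add_compl P Y, map_add]
  exact (norm_add_le _ _).trans (add_le_add h4 h1)

/-- Orbits that stay close during a time interval. -/
theorem fwd : ∃ δ C : ℝ, 0 < δ ∧ 0 ≤ C ∧ ∀ (ε : ℝ) (q : X → ℝ), A.F.Est A.s2 ε q →
    K.L * ε ≤ A.η → ∀ x ∈ A.F.X0, ∀ (y : X) (t : ℕ),
    (∀ i ≤ t, dist (S.act (i • A.a) x) (S.act (i • A.a) y) ≤ min δ 1 *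
      Real.exp (-(K.L + (2 + K.L + A.F.C) * q (S.act (i • A.a) x)))) →
    (∃ Y ∈ D.g, A.I.π y = D.ex Y • A.I.π x ∧ ∀ i ≤ t,
      ‖D.Ad (D.a (i • A.a)) Y‖ ≤ C * dist (S.act (i • A.a) x) (S.act (i • A.a) y)) ∧
    ∀ i ≤ t, dist (S.act (i • A.a) x) (S.act (i • A.a) y) ≤
      (K.L * C + 1) * Real.exp (K.L + (K.L + A.F.C) * q (S.act (t • A.a) x)) *
        Real.exp (-(A.s1 + 2 * A.η) * (t - i)) +
      (K.L * C + 1) * Real.exp (2 * K.L + (2 * K.L + A.F.C) * q x) *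
        Real.exp ((K.L + 1) * ε * t) * dist x y := by
  obtain ⟨δ, C, hδ, hC, h⟩ := A.I.orbit A.a
  refine ⟨δ, C, hδ, hC, fun ε q E h2 x hx y t hd => ?_⟩
  have l0 := K.L_nonneg
  have c0 := A.F.one_le
  have p1 := A.pos
  have p2 := A.η_pos
  have e0 := E.pos
  have hq := E.one_le
  have hh : ∀ s, K.h (S.act s x) ≤ q (S.act s x) := fun s => E.h_le _ (A.F.inv0 s x hx)
  have hcl : ∀ i ≤ t, dist (S.act (i • A.a) x) (S.act (i • A.a) y) ≤
      δ * Real.exp (-2 * K.h (S.act (i • A.a) x)) := fun i hi =>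
    (hd i hi).trans (mul_le_mul (min_le_left _ _) (Real.exp_le_exp.2 (by
      nlinarith [hh (i • A.a), hq (S.act (i • A.a) x)])) (Real.exp_pos _).le hδ.le)
  have hd1 : ∀ i ≤ t, dist (S.act (i • A.a) x) (S.act (i • A.a) y) ≤
      Real.exp (-(K.L + (2 + K.L + A.F.C) * q (S.act (i • A.a) x))) := fun i hi =>
    (hd i hi).trans (mul_le_of_le_one_left (Real.exp_pos _).le (min_le_right _ _))
  obtain ⟨Y, hY, p, e, hb⟩ := h x y (by
    have h3 := hcl 0 t.zero_le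
    rw [zero_smul, S.zero, S.zero] at h3
    exact h3.trans (mul_le_of_le_one_right hδ.le
      (Real.exp_le_one_iff.2 (by linarith [K.h_nonneg x]))))
  have hb' := hb t hcl
  refine ⟨⟨Y, hY, by rw [e, A.I.π_smul, A.I.π_j], fun i hi => (hb' i hi).1⟩, fun i hi => ?_⟩
  have h4 := E.track x hx t p (fun j hj => by
    refine (hb' j hj).2.trans ((mul_le_mul_of_nonneg_left (hd1 j hj) (Real.exp_pos _).le).trans ?_)
    rw [← Real.exp_add]
    refine Real.exp_le_exp.2 ?_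
    nlinarith [mul_le_mul_of_nonneg_left (hh (j • A.a)) l0, hq (S.act (j • A.a) x)]) i hi
  have h5 := hb' 0 t.zero_le
  rw [zero_smul, Ad_zero, S.zero, S.zero, Skew.mv, K.β_zero, map_one,
    Equiv.Perm.one_apply] at h5
  have h6 : ‖D.Ad (D.a (t • A.a)) Y‖ ≤ C := (hb' t le_rfl).1.trans
    (mul_le_of_le_one_right hC ((hd1 t le_rfl).trans (Real.exp_le_one_iff.2 (by
      nlinarith [hq (S.act (t • A.a) x)]))))
  have h7 := A.I.dist_le (i • A.a) x hY p
  rw [← e] at h7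
  have i0 : (0 : ℝ) ≤ i := i.cast_nonneg
  have it : (i : ℝ) ≤ t := Nat.cast_le.2 hi
  have h8 : q (S.act (i • A.a) x) ≤ q (S.act (t • A.a) x) + ε * (t - i) := by
    have h9 := E.slow_b (t - i) _ (A.F.inv0 (t • A.a) x hx)
    rw [← S.add, Nat.cast_sub hi] at h9
    convert h9 using 4
    rw [eq_neg_add_iff_add_eq, ← add_smul, Nat.sub_add_cancel hi]
  have h9 := E.slow_f i x hx
  have d0 : 0 ≤ dist x y := dist_nonneg
  set u1 := Real.exp (K.L + (K.L + A.F.C) * q (S.act (t • A.a) x)) *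
    Real.exp (-(A.s1 + 2 * A.η) * (t - i)) with hu1
  set u2 := Real.exp (2 * K.L + (2 * K.L + A.F.C) * q x) * Real.exp ((K.L + 1) * ε * t) with hu2
  have a1 : Real.exp (-(A.s2 * (t - i))) ≤ u1 := by
    rw [hu1, ← Real.exp_add]
    refine Real.exp_le_exp.2 ?_
    nlinarith [hq (S.act (t • A.a) x), mul_nonneg p2.le (sub_nonneg.2 it), A.s2_eq (t - i)]
  have a2 : 1 ≤ u2 := by
    rw [hu2, ← Real.exp_add]
    refine Real.one_le_exp ?_
    have := hq x
    positivity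
  have a3 : Real.exp (K.L * (1 + K.h (S.act (i • A.a) x))) *
      Real.exp (A.F.C * q (S.act (t • A.a) x) - A.s2 * (t - i)) ≤ u1 := by
    rw [hu1, ← Real.exp_add, ← Real.exp_add]
    refine Real.exp_le_exp.2 ?_
    nlinarith [mul_le_mul_of_nonneg_left ((hh _).trans h8) l0,
      mul_le_mul_of_nonneg_right h2 (sub_nonneg.2 it), A.s2_eq (t - i)]
  have a4 : Real.exp (K.L * (1 + K.h (S.act (i • A.a) x))) * Real.exp (A.F.C * q x + ε * t) *
      Real.exp (K.L * (1 + K.h x)) ≤ u2 := by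
    rw [hu2, ← Real.exp_add, ← Real.exp_add, ← Real.exp_add]
    refine Real.exp_le_exp.2 ?_
    nlinarith [mul_le_mul_of_nonneg_left ((hh _).trans h9) l0,
      mul_le_mul_of_nonneg_left (E.h_le x hx) l0,
      mul_le_mul_of_nonneg_left it (mul_nonneg l0 e0.le)]
  have b1 : ‖D.Ad (D.a (i • A.a)) Y‖ ≤ C * u1 + C * (u2 * dist x y) := by
    refine (A.Ad_split hY hi).trans (add_le_add ?_ (h5.1.trans ?_))
    · rw [mul_comm]
      exact mul_le_mul h6 a1 (Real.exp_pos _).le hC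
    · exact mul_le_mul_of_nonneg_left (le_mul_of_one_le_left d0 a2) hC
  have b2 : Real.exp (K.L * (1 + K.h (S.act (i • A.a) x))) *
      dist (K.mv (i • A.a) x p) (K.pt (S.act (i • A.a) x)) ≤ u1 + u2 * dist x y := by
    refine (mul_le_mul_of_nonneg_left (h4.trans (add_le_add le_rfl
      (mul_le_mul_of_nonneg_left h5.2 (Real.exp_pos _).le))) (Real.exp_pos _).le).trans ?_
    rw [mul_add, ← mul_assoc, ← mul_assoc]
    exact add_le_add a3 (mul_le_mul_of_nonneg_right a4 d0)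
  refine h7.trans ((add_le_add (mul_le_mul_of_nonneg_left b1 l0) b2).trans_eq ?_)
  rw [hu1, hu2]
  ring

end Dat

end Pool.Agent.P.MP_d483fb_an.Z.Geo.Asm

end

end
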