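import Pool.Agent.P.MP_d483fb_an.M.A19
import Pool.Agent.P.MP_d483fb_an.M.A20
import Pool.Agent.P.MP_d483fb_an.M.A33

section

/-!
The unstable leaf structure of the suspension: the tempered function.
-/

open scoped Matrix Matrix.Norms.Operator InnerProductSpace RealInnerProductSpace Topology
open MeasureTheory Filter Set NormedSpace

set_option linter.unusedSectionVars false

noncomputable section

namespace Pool.Agent.P.MP_d483fb_an.Z.Geo.Asm

open Os NF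

variable {G : Type} [Group G] [TopologicalSpace G] [IsTopologicalGroup G] [ConnectedSpace G]
  [T2Space G] [MeasurableSpace G] [BorelSpace G] {n k : ℕ} {D : Std G n k} {B : Type}
  [MetricSpace B] [ProperSpace B] [MeasurableSpace B] [BorelSpace B] [MulAction G B]
  [ContinuousSMul G B] {X Γ M : Type} [MetricSpace X] [ProperSpace X] [MeasurableSpace X]
  [BorelSpace X] [MulAction G X] {μ : Measure X} [Group Γ] [MeasurableSpace Γ] [Countable Γ]
  [DiscreteMeasurableSpace Γ] [MetricSpace M] [MeasurableSpace M] [BorelSpace M]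
  [SecondCountableTopology M] {α : Γ →* Equiv.Perm M} {len : Γ → ℝ} {d : ℕ}
  {S : Sys (Euc k) X μ} {J : Jets α len d} {K : Skew S J} {lam : Fin d → Euc k →L[ℝ] ℝ}
  {κ : Type} [Fintype κ] [DecidableEq κ]

namespace Dat

variable (A : Dat D B K lam κ) {ε ε' N P : ℝ} {q : X → ℝ}

theorem norm_v (s : ℝ × ℝ) : ‖A.v s‖ ≤ (‖A.a‖ + ‖A.Ph‖) * ‖s‖ := by
  refine (norm_add_le _ _).trans ?_
  rw [norm_smul, norm_smul, add_mul, mul_comm, mul_comm ‖s.2‖]
  exact add_le_add (mul_le_mul_of_nonneg_left (norm_fst_le s) (norm_nonneg _))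
    (mul_le_mul_of_nonneg_left (norm_snd_le s) (norm_nonneg _))

theorem temp (E : A.F.Est A.s2 ε' q) (hN : 1 ≤ N) (hP : A.F.C ≤ P) (h1 : P * ε' ≤ ε)
    (h2 : P * ε' * (‖A.a‖ + ‖A.Ph‖) ≤ ε) : A.pre.Temp ε fun x => N * Real.exp (P * q x) := by
  have c0 := A.F.one_le
  have e0 := E.pos
  have p0 : 0 ≤ P := by linarith
  have n0 : 0 ≤ N := by linarith
  have ε0 : 0 ≤ ε := (mul_nonneg p0 e0.le).trans h1
  have hq := E.one_le
  have key : ∀ s, P * (ε' * ‖A.v s‖) ≤ ε * ‖s‖ := fun s => by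
    have := mul_le_mul_of_nonneg_left (A.norm_v s) (mul_nonneg p0 e0.le)
    nlinarith [mul_le_mul_of_nonneg_right h2 (norm_nonneg s)]
  have one : ∀ x, 1 ≤ N * Real.exp (P * q x) := fun x =>
    one_le_mul_of_one_le_of_one_le hN (Real.one_le_exp (mul_nonneg p0 (by linarith [hq x])))
  refine ⟨(E.meas.const_mul P).exp.const_mul N, one, fun x hx i => ?_,
    ⟨Real.exp (P * A.F.B), fun x hx s => ?_⟩, fun x hx s => ?_⟩
  · have h3 : q (A.pre.a i x) ≤ q x + ε' * |(i : ℝ)| := by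
      obtain ⟨m, rfl | rfl⟩ := i.eq_nat_or_neg
      · simpa only [a_nat, Int.cast_natCast, Nat.abs_cast] using E.slow_f m x hx
      · simpa only [a_neg, Int.cast_neg, Int.cast_natCast, abs_neg, Nat.abs_cast] using
          E.slow_b m x hx
    rw [mul_assoc, ← Real.exp_add]
    refine mul_le_mul_of_nonneg_left (Real.exp_le_exp.2 ?_) n0
    nlinarith [mul_le_mul_of_nonneg_left h3 p0,
      mul_le_mul_of_nonneg_right h1 (abs_nonneg (i : ℝ))]
  · rw [mul_left_comm, mul_assoc, ← Real.exp_add, ← Real.exp_add]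
    refine mul_le_mul_of_nonneg_left (Real.exp_le_exp.2 ?_) n0
    have h3 : q (A.pre.f s x) ≤ _ := E.slowA (A.v s) x hx
    nlinarith [mul_le_mul_of_nonneg_left h3 p0, key s]
  · have h3 : Real.exp (A.F.C * (q x + ε' * ‖A.v s‖)) ≤
        N * Real.exp (P * q x) * Real.exp (ε * ‖s‖) := by
      rw [mul_assoc, ← Real.exp_add]
      refine le_trans (Real.exp_le_exp.2 ?_) (le_mul_of_one_le_left (Real.exp_pos _).le hN)
      have h4 : 0 ≤ q x + ε' * ‖A.v s‖ := by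
        have := hq x
        positivity
      nlinarith [mul_le_mul_of_nonneg_right hP h4, key s]
    have h4 : ‖(1 : Mat n)‖ ≤ N * Real.exp (P * q x) * Real.exp (ε * ‖s‖) :=
      norm_one_le'.trans (one_le_mul_of_one_le_of_one_le (one x)
        (Real.one_le_exp (by positivity)))
    have e : A.v (-s.1, -s.2) = -A.v s := by simp [v, add_comm]
    obtain ⟨g1, g2⟩ := E.grow (A.v s) x hx
    constructor
    · show ‖A.L s x * A.w.dil (-s.1) (-s.2)‖ ≤ _
      rw [dil_eq, L, blk_mul, e, ← map_mul, D.a_neg, mul_inv_cancel, map_one]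
      simp only [map_neg]
      exact norm_blk_le _ _ h4 (g1.trans h3)
    · show ‖A.w.dil s.1 s.2 * (A.L s x)⁻¹‖ ≤ _
      rw [dil_eq, L, blk_inv _ _ (ρ_unit _) (A.F.Gen_unit _ (A.F.L_mem _ x hx)), blk_mul,
        Matrix.mul_nonsing_inv _ (ρ_unit _)]
      exact norm_blk_le _ _ h4 (g2.trans h3)

theorem geo (ε : ℝ) (hε : 0 < ε) : ∃ q, A.pre.Temp ε q ∧ A.geoPre.Est ε q := by
  obtain ⟨δb, Cb, db, cb, hb⟩ := A.back
  obtain ⟨δf, Cf, df, cf, hf⟩ := A.fwd
  have l1 := A.I.one_le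
  have c1 := A.F.one_le
  have p2 := A.η_pos
  have lc : 0 ≤ A.F.C * K.L := by positivity
  obtain ⟨P, P1⟩ : ∃ P, P = 2 + 4 * K.L + A.F.C + A.F.C * K.L := ⟨_, rfl⟩
  have m0 : 0 < min δf 1 := lt_min df one_pos
  obtain ⟨N, N1, N2, N3, N4, N5⟩ : ∃ N : ℝ, 1 ≤ N ∧ δb⁻¹ ≤ N ∧ Cb ≤ N ∧ (min δf 1)⁻¹ ≤ N ∧
      K.L * Cf + 1 ≤ N := by
    have := inv_pos.2 db
    have := inv_pos.2 m0
    have : 0 ≤ K.L * Cf := by positivity
    exact ⟨1 + δb⁻¹ + Cb + (min δf 1)⁻¹ + K.L * Cf, by linarith, by linarith, by linarith,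
      by linarith, by linarith⟩
  have P0 : 0 < P := by linarith
  have V0 : 0 ≤ ‖A.a‖ + ‖A.Ph‖ := by positivity
  obtain ⟨e, e0, e1, e2⟩ : ∃ e : ℝ, 0 < e ∧ P * e * (1 + (‖A.a‖ + ‖A.Ph‖)) ≤ ε ∧ P * e ≤ A.η := by
    have h1 : 0 < P * (1 + (‖A.a‖ + ‖A.Ph‖)) := by positivity
    refine ⟨min (ε / (P * (1 + (‖A.a‖ + ‖A.Ph‖)))) (A.η / P), by positivity, ?_, ?_⟩
    · rw [mul_right_comm, mul_comm]
      exact (le_div_iff₀ h1).1 (min_le_left _ _)
    · rw [mul_comm]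
      exact (le_div_iff₀ P0).1 (min_le_right _ _)
  have pe : 0 < P * e := by positivity
  have e3 : P * e ≤ ε := by nlinarith
  have e4 : K.L * e ≤ A.η := by nlinarith
  obtain ⟨q, E⟩ := A.F.est e e0
  have hq := E.one_le
  have N0 : 0 < N := by linarith
  have up : ∀ {c u : ℝ} (x : X), c ≤ N → u ≤ P * q x → c * Real.exp u ≤ N * Real.exp (P * q x) :=
    fun x h h' => mul_le_mul h (Real.exp_le_exp.2 h') (Real.exp_pos _).le N0.le
  have dn : ∀ {c u : ℝ} (x : X), 0 < c → c⁻¹ ≤ N → u ≤ P * q x →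
      1 / (N * Real.exp (P * q x)) ≤ c * Real.exp (-u) := fun {c u} x h0 h h' => by
    rw [Real.exp_neg, one_div, ← inv_inv c, ← mul_inv]
    exact inv_anti₀ (by positivity) (up x h h')
  refine ⟨fun x => N * Real.exp (P * q x), A.temp E N1 (by linarith) e3 (by nlinarith),
    fun r => ?_, fun x hx y hy h => ?_, fun x hx y t h i hi => ?_, Cf, fun x hx y t h => ?_⟩
  · obtain ⟨R0, r0, h⟩ := A.size r
    refine ⟨K.L * R0 + Real.exp (A.F.C * R0), fun x y hR hN i => ?_⟩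
    show dist (A.pre.a (-i) x) (A.pre.a (-i) y) ≤ _
    rw [a_neg, a_neg]
    refine (A.G1 E e4 hR r0 (h x y hR hN).1 (h x y hR hN).2 i).trans
      (mul_le_mul_of_nonneg_right (mul_le_mul_of_nonneg_left ?_ (by positivity))
        (Real.exp_pos _).le)
    simpa only [one_mul] using up x N1 (by nlinarith [hq x])
  · obtain ⟨Y, hY, p, e5, h1, h2⟩ := hb e q E (by nlinarith) e4 x hx y
      (1 / (N * Real.exp (P * q x)))
      (by simpa only [neg_mul] using dn (u := 2 * q x) x db N2 (by nlinarith [hq x])) fun i => by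
        rw [← a_neg, ← a_neg, mul_comm, mul_one_div]
        exact h i
    obtain ⟨f1, -, f3⟩ := pos_of hx hY e5
    have Q0 : 0 < N * Real.exp (P * q x) := by positivity
    have h3 := A.T_le E (A.R_of hx hy hY e5 h2) (by
      rw [f1]
      refine h1.trans ?_
      rw [mul_one_div, div_le_one Q0]
      simpa using up (u := 0) x N3 (by nlinarith [hq x])) (by
      rw [f3]
      refine h2.mono le_rfl ?_
      rw [mul_one_div, div_le_one Q0]
      simpa only [one_mul] using up x N1 (by nlinarith [hq x]))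
    have h4 : Real.exp (A.F.C * (q x + q y + 2 * K.L)) ≤
        N * Real.exp (P * q x) * (N * Real.exp (P * q y)) := by
      have h5 : ∀ z, Real.exp (A.F.C * (q z + K.L)) ≤ N * Real.exp (P * q z) := fun z => by
        simpa only [one_mul] using up z N1 (by nlinarith [hq z])
      refine le_trans (le_of_eq ?_) (mul_le_mul (h5 x) (h5 y) (Real.exp_pos _).le Q0.le)
      rw [← Real.exp_add]
      congr 1
      ring
    exact ⟨h3.1.trans h4, h3.2.trans h4⟩
  · have h1 := (hf e q E e4 x hx y t fun j hj => by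
      have h2 := h j hj
      simp only [geoPre, a_nat] at h2
      exact h2.trans (dn _ m0 N4 (by nlinarith [hq (S.act (j • A.a) x)]))).2 i hi
    simp only [geoPre, a_nat]
    refine h1.trans (add_le_add (mul_le_mul_of_nonneg_right (up _ N5 ?_) (Real.exp_pos _).le)
      (mul_le_mul_of_nonneg_right (mul_le_mul (up _ N5 ?_) (Real.exp_le_exp.2 ?_)
        (Real.exp_pos _).le (by positivity)) dist_nonneg))
    · nlinarith [hq (S.act (t • A.a) x)]
    · nlinarith [hq x]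
    · exact mul_le_mul_of_nonneg_right (by nlinarith) t.cast_nonneg
  · have h1 := (hf e q E e4 x hx y t fun j hj => by
      have h2 := h j hj
      simp only [geoPre, a_nat] at h2
      exact h2.trans (dn _ m0 N4 (by nlinarith [hq (S.act (j • A.a) x)]))).1
    simpa only [geoPre, a_nat, a_nsmul'] using h1

/-- The unstable leaf structure. -/
def geoLS : GeoLS D B X μ κ := ⟨A.geoPre, A.geo⟩

end Dat

theorem exists_geoLS (I : Inp D B K) {a Ph : Euc k} {s1 s2 : ℝ} (F : Fib K lam a s1 s2 κ)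
    (hg : Gnr D lam a Ph) (he : Ergodic (S.act a) μ) (h1 : 0 < s1) (h2 : s1 < s2)
    (h3 : ∀ β ∈ D.wts, 0 < ⟪β, a⟫ → s2 ≤ ⟪β, a⟫) :
    ∃ T : GeoLS D B X μ κ, T.Ha = a ∧ T.k1 = F.k1 ∧ ∀ j, T.om (.inr j) = vec (F.om j) :=
  ⟨(Dat.mk I a Ph s1 s2 F hg he h1 h2 h3).geoLS, rfl, rfl, fun _ => rfl⟩

end Pool.Agent.P.MP_d483fb_an.Z.Geo.Asm

end

end

section

/-!
Estimates for the construction of the rectangle partition of a leaf structure: codes of cosets,
reference points, perturbation of the sizes, and the change of charts along the past.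
-/

open scoped Matrix Matrix.Norms.Operator Topology
open MeasureTheory Filter Set

noncomputable section

namespace Pool.Agent.P.MP_d483fb_an.Z

namespace Wt

variable {ι : Type} [Fintype ι] [DecidableEq ι] {w : Wt ι} {J : Set ℝ} {χ : ℝ}
  {n g g' h l : Matrix ι ι ℝ}

variable (w) in
/-- A measurable code for the left cosets of `Nil J`. -/
theorem exists_code (hJ : J.OrdConnected) : ∃ code : Matrix ι ι ℝ → Matrix ι ι ℝ × Matrix ι ι ℝ,
    Measurable code ∧ ∀ n n', w.Nil univ n → w.Nil univ n' →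
      (code n = code n' ↔ w.Nil J (n⁻¹ * n')) := by
  set U : Set ℝ := {σ | ∀ τ ∈ J, τ < σ} with hUd
  set V : Set ℝ := {σ | ∀ τ ∈ J, σ < τ} with hVd
  have hU : Cut U := Or.inl fun a b hab ha τ hτ => (ha τ hτ).trans_le hab
  have hV : Cut V := Or.inr fun a b hab ha τ hτ => lt_of_le_of_lt hab (ha τ hτ)
  have hJU : J ⊆ Uᶜ := fun σ hσ h => lt_irrefl _ (h σ hσ)
  have hJV : J ⊆ Vᶜ := fun σ hσ h => lt_irrefl _ (h σ hσ)
  have hUV : Uᶜ \ V ⊆ J := by
    intro σ hσ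
    obtain ⟨h1, h2⟩ := hσ
    simp only [hUd, hVd, mem_compl_iff, mem_ofPred_eq, not_forall, not_lt] at h1 h2
    obtain ⟨τ, hτ, h1⟩ := h1
    obtain ⟨τ', hτ', h2⟩ := h2
    exact hJ.out hτ' hτ ⟨h2, h1⟩
  refine ⟨fun n => (w.facL U n, w.facL V (w.facR U n)),
    (measurable_facL hU).prodMk ((measurable_facL hV).comp (measurable_facR hU)),
    fun n n' hn hn' => ⟨fun e => ?_, fun e => ?_⟩⟩
  · obtain ⟨e1, e2⟩ := Prod.ext_iff.1 e
    simp only at e1 e2
    have d : ∀ m, w.Nil univ m → m = w.facL U m * w.facL V (w.facR U m) * w.facR V (w.facR U m) :=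
      fun m hm => by rw [mul_assoc, (hm.facR hU).facL_mul_facR hV, hm.facL_mul_facR hU]
    have k : ∀ m, w.Nil univ m → w.Nil J (w.facR V (w.facR U m)) := fun m hm =>
      ((hm.facR hU).facR_diff hV hU.compl.ordConnected).mono hUV
    have p : w.Nil univ (w.facL U n * w.facL V (w.facR U n)) :=
      (hn.facL hU).univ.mul ordConnected_univ ((hn.facR hU).facL hV).univ
    have e3 : n⁻¹ * n' = (w.facR V (w.facR U n))⁻¹ * w.facR V (w.facR U n') := by
      conv_lhs => rw [d n hn, d n' hn', ← e1, ← e2]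
      rw [Matrix.mul_inv_rev, mul_assoc, ← mul_assoc _ (_ * _), p.inv_mul, one_mul]
    rw [e3]
    exact ((k n hn).inv hJ).mul hJ (k n' hn')
  · have e3 : n' = n * (n⁻¹ * n') := by rw [← mul_assoc, hn.mul_inv, one_mul]
    rw [e3]
    simp only
    rw [facL_mul_right hU hn (e.mono hJU), facR_mul_right hU hn (e.mono hJU),
      facL_mul_right hV (hn.facR hU) (e.mono hJV)]

theorem N_le_of_far (hJ : J.OrdConnected) (hχ : Extreme J χ) (hn : w.Nil J n) (hg : w.Nil J g)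
    (hg' : w.Nil J g') {t : ℝ} (h1 : w.N (w.pr χ (n * g)) ≤ t) (h2 : w.N g ≤ t)
    (h3 : w.N (w.al χ (n * g')) ≤ t) (h4 : w.N g' ≤ t) : w.N n ≤ w.C ^ 4 * t := by
  have hC := w.one_le_C
  have ht : 0 ≤ t := (w.N_nonneg _).trans h2
  have c1 : t ≤ w.C * t := le_mul_of_one_le_left ht hC
  have e1 : w.pr χ n = w.pr χ (n * g) * (w.pr χ g)⁻¹ := by
    rw [pr_mul hχ hn hg, mul_assoc, hg.pr_same.mul_inv, mul_one]
  have b1 : w.N (w.pr χ n) ≤ w.C * (w.C * t) := by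
    rw [e1]
    exact (hn.mul hJ hg).pr_same.N_mul_le (hg.pr_same.inv hJ) (h1.trans c1)
      (hg.pr_same.N_inv_le.trans (mul_le_mul_of_nonneg_left ((N_pr_le g).trans h2) w.C_pos.le))
  have e2 : n = w.al χ (n * g') * w.pr χ n * (w.al χ g')⁻¹ := by
    rw [al_mul hχ hn hg', mul_assoc _ _ (w.pr χ n), hn.pr_same.inv_mul, mul_one, mul_assoc,
      (hg'.al_same hJ).mul_inv, mul_one]
  have b2 : w.N (w.al χ (n * g') * w.pr χ n) ≤ w.C * (w.C * (w.C * t)) :=
    ((hn.mul hJ hg').al_same hJ).N_mul_le hn.pr_same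
      (h3.trans (c1.trans (le_mul_of_one_le_left (ht.trans c1) hC))) b1
  have b3 : w.N (w.al χ g')⁻¹ ≤ w.C * (w.C * (w.C * t)) := by
    refine (hg'.al_same hJ).N_inv_le.trans (mul_le_mul_of_nonneg_left ?_ w.C_pos.le)
    refine hg'.N_al_le.trans ?_
    rw [← mul_assoc, ← sq]
    exact mul_le_mul_of_nonneg_left h4 (sq_nonneg _)
  rw [e2]
  refine ((((hn.mul hJ hg').al_same hJ).mul hJ hn.pr_same).N_mul_le ((hg'.al_same hJ).inv hJ)
    b2 b3).trans (le_of_eq (by ring))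

variable (w) in
theorem exists_pert (hχ : Extreme J χ) : ∃ K, 1 ≤ K ∧
    ∀ n g : Matrix ι ι ℝ, w.Nil J n → w.Nil J g → w.N n ≤ 1 → w.N g ≤ 1 →
      |w.N (n * g) - w.N n| ≤ K * w.N g ^ (w.th * w.th) ∧
      |w.N (w.pr χ (n * g)) - w.N (w.pr χ n)| ≤ K * w.N g ^ (w.th * w.th) ∧
      |w.N (w.al χ (n * g)) - w.N (w.al χ n)| ≤ K * w.N g ^ (w.th * w.th) := by
  have hC : 1 ≤ w.C ^ 2 := one_le_pow₀ w.one_le_C
  have t0 := w.th_pos
  obtain ⟨K', hK', hc⟩ := w.exists_N_conj (w.C ^ 2)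
  obtain ⟨D, hD⟩ : ∃ D, D = K' * (w.C ^ 2) ^ w.th := ⟨_, rfl⟩
  have D0 : 0 ≤ D := hD ▸ mul_nonneg hK' (Real.rpow_nonneg (sq_nonneg _) _)
  obtain ⟨K5, hK5, h5⟩ := w.exists_N_holder (w.C ^ 2 + D)
  have P0 : 0 ≤ K5 * D ^ w.th := mul_nonneg hK5 (Real.rpow_nonneg D0 _)
  refine ⟨1 + K5 + K5 * D ^ w.th, by linarith, fun n g hn hg h1 h2 => ?_⟩
  have g0 := w.N_nonneg g
  have p0 : 0 ≤ w.N g ^ (w.th * w.th) := Real.rpow_nonneg g0 _
  have p1 : w.N g ^ w.th ≤ w.N g ^ (w.th * w.th) :=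
    Real.rpow_le_rpow_of_exponent_ge' g0 h2 (by positivity)
      (mul_le_of_le_one_right t0.le w.th_le_one)
  have p2 : K5 * w.N g ^ w.th ≤ (1 + K5 + K5 * D ^ w.th) * w.N g ^ (w.th * w.th) :=
    mul_le_mul (by linarith) p1 (Real.rpow_nonneg g0 _) (by linarith)
  refine ⟨(h5 n g hn.univ hg.univ (by linarith) (by linarith)).1.trans p2, ?_, ?_⟩
  · rw [pr_mul hχ hn hg]
    have q1 := N_pr_le (w := w) (χ := χ) n
    have q2 := N_pr_le (w := w) (χ := χ) g
    refine (h5 _ _ hn.pr_same.univ hg.pr_same.univ (by linarith) (by linarith)).1.trans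
      (le_trans (mul_le_mul_of_nonneg_left ?_ hK5) p2)
    exact Real.rpow_le_rpow (w.N_nonneg _) q2 t0.le
  · have e : w.al χ (n * g) = w.al χ n * (w.pr χ n * w.al χ g * (w.pr χ n)⁻¹) := by
      rw [al_mul hχ hn hg, ← mul_assoc, ← mul_assoc, hn.al_mul_pr]
    have q1 : w.N (w.al χ n) ≤ w.C ^ 2 := hn.N_al_le.trans (mul_le_of_le_one_right (sq_nonneg _) h1)
    have q2 : w.N (w.al χ g) ≤ w.C ^ 2 := hg.N_al_le.trans (mul_le_of_le_one_right (sq_nonneg _) h2)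
    have q3 : w.N (w.pr χ n * w.al χ g * (w.pr χ n)⁻¹) ≤ D * w.N g ^ w.th := by
      refine (hc _ _ hn.pr_same.univ hg.al_univ (((N_pr_le n).trans h1).trans hC) q2).trans ?_
      rw [hD, mul_assoc, ← Real.mul_rpow (sq_nonneg _) g0]
      exact mul_le_mul_of_nonneg_left (Real.rpow_le_rpow (w.N_nonneg _) hg.N_al_le t0.le) hK'
    have q4 : D * w.N g ^ w.th ≤ D := mul_le_of_le_one_right D0 (Real.rpow_le_one g0 h2 t0.le)
    have hn2 : w.Nil univ (w.pr χ n * w.al χ g * (w.pr χ n)⁻¹) :=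
      (hn.pr_same.univ.mul ordConnected_univ hg.al_univ).mul ordConnected_univ
        (hn.pr_same.univ.inv ordConnected_univ)
    rw [e]
    refine (h5 _ _ hn.al_univ hn2 (by linarith) (by linarith)).1.trans ?_
    refine (mul_le_mul_of_nonneg_left (Real.rpow_le_rpow (w.N_nonneg _) q3 t0.le) hK5).trans ?_
    rw [Real.mul_rpow D0 (Real.rpow_nonneg g0 _), ← Real.rpow_mul g0, ← mul_assoc]
    exact mul_le_mul_of_nonneg_right (by linarith) p0

/-- Two sided estimate for the conjugation by a block diagonal matrix close to a dilation. -/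
theorem N_conj_two (hl : w.Lev l) (hu : IsUnit l.det) {s B : ℝ} (hB : 1 ≤ B)
    (h1 : ‖l * w.dil (-s) 0‖ ≤ B) (h2 : ‖w.dil s 0 * l⁻¹‖ ≤ B) (hh : w.Nil J h) :
    w.N (l * h * l⁻¹) ≤ w.C * B ^ w.C * (Real.exp s * w.N h) ∧
      Real.exp s * w.N h ≤ w.C * B ^ w.C * w.N (l * h * l⁻¹) := by
  have e0 : w.dil (-s) 0 * w.dil s 0 = 1 := by simpa using w.dil_neg_mul s 0
  have e0' : w.dil s 0 * w.dil (-s) 0 = 1 := by simpa using w.dil_mul_neg s 0
  have l1 := hl.mul (w.dil_lev (-s) 0)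
  have l2 := (w.dil_lev s 0).mul hl.inv
  have hd : w.Nil J (w.dil s 0 * h * w.dil (-s) 0) := hh.conj (w.dil_lev _ _) (w.dil_lev _ _) e0'
  rw [← N_dil]
  constructor
  · have e : l * h * l⁻¹ = l * w.dil (-s) 0 * (w.dil s 0 * h * w.dil (-s) 0) * (w.dil s 0 * l⁻¹) := by
      simp only [mul_assoc]
      rw [← mul_assoc (w.dil (-s) 0) (w.dil s 0) l⁻¹, e0, one_mul, ← mul_assoc (w.dil (-s) 0), e0,
        one_mul]
    rw [e]
    exact hd.N_conj_le l1 l2 hB h1 h2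
  · have e : w.dil s 0 * h * w.dil (-s) 0 = w.dil s 0 * l⁻¹ * (l * h * l⁻¹) * (l * w.dil (-s) 0) := by
      simp only [mul_assoc]
      rw [← mul_assoc l⁻¹ l (w.dil _ _), Matrix.nonsing_inv_mul _ hu, one_mul, ← mul_assoc l⁻¹,
        Matrix.nonsing_inv_mul _ hu, one_mul]
    rw [e]
    exact (hh.conj_inv hl hu).N_conj_le l2 l1 hB h2 h1

end Wt

namespace Pre

variable {X : Type} [MeasurableSpace X] {μ : Measure X} {ι : Type} [Fintype ι] [DecidableEq ι]
  {S : Pre X μ ι} {x y z z' : X} {J : Set ℝ}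

variable (S) in
/-- Reference points: one point in almost every plaque of the subrelation. -/
theorem exists_ref [StandardBorelSpace X] [IsProbabilityMeasure μ] (hJ : J.OrdConnected)
    {K0 : Set X} {lab : X → ℕ → ℝ} (hK : MeasurableSet K0) (hl : Measurable lab)
    (hR : ∀ y ∈ K0, ∀ y' ∈ K0, lab y = lab y' → S.R y y') :
    ∃ Z0 : Set X, MeasurableSet Z0 ∧ Z0 ⊆ K0 ∧
      (∀ z ∈ Z0, ∀ z' ∈ Z0, lab z = lab z' → S.RJ J z z' → z = z') ∧
      ∀ᵐ y ∂μ, y ∈ K0 → ∃ z ∈ Z0, lab z = lab y ∧ S.RJ J z y := by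
  have : Nonempty X := nonempty_of_isProbabilityMeasure μ
  obtain ⟨code, hcm, hcode⟩ := S.w.exists_code hJ
  obtain ⟨w0, hw0, h0⟩ := exists_sel μ hl hK (X' := univ) (by simp)
  set K1 : Set X := {y | y ∈ K0 ∧ lab (w0 (lab y)) = lab y ∧ w0 (lab y) ∈ K0} with hK1
  have mK1 : MeasurableSet K1 :=
    hK.inter ((measurableSet_eq_fun (hl.comp (hw0.comp hl)) hl).inter ((hw0.comp hl) hK))
  set lb : X → (ℕ → ℝ) × Matrix ι ι ℝ × Matrix ι ι ℝ :=
    fun y => (lab y, code (S.n (w0 (lab y)) y)) with hlb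
  have mlb : Measurable lb :=
    hl.prodMk (hcm.comp (measurable_n_comp (hw0.comp hl) measurable_id))
  have key : ∀ y ∈ K1, ∀ y' ∈ K1, lb y = lb y' ↔ lab y = lab y' ∧ S.RJ J y y' := by
    intro y hy y' hy'
    simp only [hlb, Prod.ext_iff (x := (lab y, _))]
    refine and_congr_right fun e => ?_
    have r1 := hR _ hy.2.2 _ hy.1 hy.2.1
    have r2 := hR _ hy'.2.2 _ hy'.1 hy'.2.1
    rw [← e] at r2 ⊢
    rw [hcode _ _ (n_nil r1) (n_nil r2), RJ_iff_chart r1 r2]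
  obtain ⟨w1, hw1, h1⟩ := exists_sel μ mlb mK1 (X' := univ) (by simp)
  refine ⟨{z | z ∈ K1 ∧ w1 (lb z) = z},
    mK1.inter (measurableSet_eq_fun (hw1.comp mlb) measurable_id), fun z hz => hz.1.1,
    fun z hz z' hz' e r => ?_, ?_⟩
  · rw [← hz.2, ← hz'.2, (key z hz.1 z' hz'.1).2 ⟨e, r⟩]
  · filter_upwards [h0, h1] with y a0 a1 hy
    have hy1 : y ∈ K1 := ⟨hy, (a0 hy).1, (a0 hy).2.1⟩
    obtain ⟨b1, b2, -⟩ := a1 hy1
    exact ⟨w1 (lb y), ⟨b2, by rw [b1]⟩, (key _ b2 _ hy1).1 b1⟩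

variable (S) in
/-- The block diagonal part of the change from the chart at `z'` to the chart at `z`, after `j`
steps in the past. -/
def Lq (z z' : X) (j : ℕ) : Matrix ι ι ℝ := S.l z (S.a (-j) z') * S.La (-j) z'

theorem Lq_lev {j : ℕ} (h : S.R z (S.a (-j) z')) : S.w.Lev (S.Lq z z' j) :=
  (S.l_lev _ _).mul (La_lev ((S.f_mem_iff _ _).1 (R_mem_right h)) _)

theorem isUnit_Lq {j : ℕ} (h : S.R z (S.a (-j) z')) : IsUnit (S.Lq z z' j).det := by
  rw [Lq, Matrix.det_mul]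
  exact (isUnit_l h).mul (isUnit_La ((S.f_mem_iff _ _).1 (R_mem_right h)) _)

theorem n_back {j : ℕ} (h : S.R z (S.a (-j) z')) (h' : S.R z' y) :
    S.n z (S.a (-j) y) = S.n z (S.a (-j) z') * (S.Lq z z' j * S.n z' y * (S.Lq z z' j)⁻¹) := by
  rw [n_trans h (R_a h' _), n_a h', Lq, Matrix.mul_inv_rev]
  simp only [mul_assoc]

/-- The main estimate. -/
theorem Temp.exists_CE {ε : ℝ} {q : X → ℝ} (hq : S.Temp ε q) (hb : S.Bd q)
    (hε : ε = (12 * S.w.C)⁻¹) (q0 : ℝ) : ∃ A, 1 ≤ A ∧ ∀ (z z' : X) (j : ℕ), q z ≤ q0 →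
      S.R z (S.a (-j) z') → ∀ h, S.w.Nil univ h →
      S.w.N (S.Lq z z' j * h * (S.Lq z z' j)⁻¹) ≤
          A * q z' ^ (3 * S.w.C) * (1 + S.N z (S.a (-j) z')) * (Real.exp (-(j / 2)) * S.w.N h) ∧
        S.w.N h ≤ A * q z' ^ (3 * S.w.C) * (1 + S.N z (S.a (-j) z')) *
          (Real.exp (2 * j) * S.w.N (S.Lq z z' j * h * (S.Lq z z' j)⁻¹)) := by
  have hC := S.w.one_le_C
  have C0 := S.w.C_pos
  have ε0 : 0 < ε := by rw [hε]; positivity
  have εC : ε * S.w.C = 1 / 12 := by rw [hε]; field_simp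
  obtain ⟨Q, hQ1, hQ⟩ : ∃ Q, 1 ≤ Q ∧ q0 ≤ Q := ⟨max 1 q0, le_max_left _ _, le_max_right _ _⟩
  obtain ⟨K1, hK1⟩ : ∃ K1, K1 = Q ^ 2 * (Real.exp (6 * ε) * (S.w.C * Q ^ S.w.C) ^ (12 * ε)) :=
    ⟨_, rfl⟩
  have hQC : 1 ≤ S.w.C * Q ^ S.w.C :=
    one_le_mul_of_one_le_of_one_le hC (Real.one_le_rpow hQ1 C0.le)
  have K11 : 1 ≤ K1 := hK1 ▸ one_le_mul_of_one_le_of_one_le (one_le_pow₀ hQ1)
    (one_le_mul_of_one_le_of_one_le (Real.one_le_exp (by positivity))
      (Real.one_le_rpow hQC (by positivity)))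
  refine ⟨S.w.C * K1 ^ S.w.C, one_le_mul_of_one_le_of_one_le hC (Real.one_le_rpow K11 C0.le),
    fun z z' j hz hR h hh => ?_⟩
  have hz' : z' ∈ S.X0 := (S.f_mem_iff _ _).1 (R_mem_right hR)
  set u := S.a (-j) z' with hu
  have hN := S.N_nonneg z u
  have j0 : (0 : ℝ) ≤ j := Nat.cast_nonneg j
  have hj : |(((-j : ℤ)) : ℝ)| = j := by simp
  set E := Real.exp (ε * j) with hE
  have E1 : 1 ≤ E := Real.one_le_exp (by positivity)
  have pz := hq.pos z
  have pz' := hq.one_le z'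
  have pu := hq.pos u
  have qu : q u ≤ q z' * E := by
    have := hq.slow z' hz' (-j)
    rwa [hj] at this
  obtain ⟨g1, g2⟩ := hq.grow z' hz' (((-j : ℤ) : ℝ), 0)
  rw [norm_int_prod, hj] at g1 g2
  simp only [neg_zero] at g1 g2
  obtain ⟨b1, b2⟩ := hq.norm_l_le hb ε0.le (by linarith [mul_comm ε S.w.C]) hR
  obtain ⟨P, hP⟩ : ∃ P, P = (1 + S.N z u) ^ (12 * ε) := ⟨_, rfl⟩
  have P1 : 1 ≤ P := hP ▸ Real.one_le_rpow (by linarith) (by positivity)
  have b0 : (q z * q u) ^ 2 * (Real.exp (6 * ε) *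
      (S.w.C * q z ^ S.w.C * (1 + S.N z u)) ^ (12 * ε)) ≤ K1 * P * (q z' * E) ^ 2 := by
    have hzQ := hz.trans hQ
    calc _ ≤ (Q * (q z' * E)) ^ 2 * (Real.exp (6 * ε) *
          (S.w.C * Q ^ S.w.C * (1 + S.N z u)) ^ (12 * ε)) := by gcongr
      _ = _ := by
        rw [Real.mul_rpow (by linarith) (by linarith), hK1, hP]
        ring
  have qE : 1 ≤ q z' * E := one_le_mul_of_one_le_of_one_le pz' E1
  have KP : 1 ≤ K1 * P := one_le_mul_of_one_le_of_one_le K11 P1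
  have hB : 1 ≤ K1 * P * (q z' * E) ^ 3 := one_le_mul_of_one_le_of_one_le KP (one_le_pow₀ qE)
  have n1 : ‖S.Lq z z' j * S.w.dil (-((-j : ℤ) : ℝ)) 0‖ ≤ K1 * P * (q z' * E) ^ 3 := by
    rw [Lq, mul_assoc]
    refine (norm_mul_le _ _).trans ((mul_le_mul (b1.trans b0) g1 (norm_nonneg _)
      (by positivity)).trans (le_of_eq (by ring)))
  have n2 : ‖S.w.dil ((-j : ℤ) : ℝ) 0 * (S.Lq z z' j)⁻¹‖ ≤ K1 * P * (q z' * E) ^ 3 := by
    rw [Lq, Matrix.mul_inv_rev, ← mul_assoc, l_inv hR]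
    refine (norm_mul_le _ _).trans ((mul_le_mul g2 (b2.trans b0) (norm_nonneg _)
      (by positivity)).trans (le_of_eq (by ring)))
  obtain ⟨c1, c2⟩ := Wt.N_conj_two (Lq_lev hR) (isUnit_Lq hR) hB n1 n2 hh
  have eB : (K1 * P * (q z' * E) ^ 3) ^ S.w.C =
      K1 ^ S.w.C * q z' ^ (3 * S.w.C) * (1 + S.N z u) * Real.exp (j / 4) := by
    have e1 : P ^ S.w.C = 1 + S.N z u := by
      rw [hP, ← Real.rpow_mul (by linarith), mul_assoc, εC]
      norm_num
    have e2 : (E ^ 3) ^ S.w.C = Real.exp (j / 4) := by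
      rw [hE, ← Real.exp_nat_mul, ← Real.exp_mul]
      congr 1
      have : ((3 : ℕ) : ℝ) * (ε * j) * S.w.C = 3 * j * (ε * S.w.C) := by push_cast; ring
      rw [this, εC]
      ring
    have e3 : (q z' ^ 3) ^ S.w.C = q z' ^ (3 * S.w.C) := by
      rw [Real.rpow_mul (by linarith)]
      norm_cast
    rw [mul_pow, Real.mul_rpow (by positivity) (by positivity), Real.mul_rpow (by positivity)
      (by positivity), Real.mul_rpow (by positivity) (by positivity), e1, e2, e3]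
    ring
  rw [eB, Int.cast_neg, Int.cast_natCast] at c1 c2
  obtain ⟨W, hW⟩ : ∃ W, W = S.w.C * K1 ^ S.w.C * q z' ^ (3 * S.w.C) * (1 + S.N z u) := ⟨_, rfl⟩
  have W0 : 0 ≤ W := by rw [hW]; positivity
  have h0 := S.w.N_nonneg h
  have h0' := S.w.N_nonneg (S.Lq z z' j * h * (S.Lq z z' j)⁻¹)
  rw [← hW]
  constructor
  · refine c1.trans ?_
    have : Real.exp (j / 4) * Real.exp (-j) ≤ Real.exp (-(j / 2)) := by
      rw [← Real.exp_add]
      exact Real.exp_le_exp.2 (by linarith)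
    calc _ = W * (Real.exp (j / 4) * Real.exp (-j) * S.w.N h) := by rw [hW]; ring
      _ ≤ _ := by gcongr
  · have c3 := mul_le_mul_of_nonneg_left c2 (Real.exp_pos j).le
    rw [← mul_assoc, ← Real.exp_add, add_neg_cancel, Real.exp_zero, one_mul] at c3
    refine c3.trans ?_
    have : Real.exp j * Real.exp (j / 4) ≤ Real.exp (2 * j) := by
      rw [← Real.exp_add]
      exact Real.exp_le_exp.2 (by linarith)
    calc _ = W * (Real.exp j * Real.exp (j / 4) * S.w.N (S.Lq z z' j * h * (S.Lq z z' j)⁻¹)) := by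
          rw [hW]; ring
      _ ≤ _ := by gcongr

end Pre

end Pool.Agent.P.MP_d483fb_an.Z

end

end

section

/-!
A leaf structure provides the input of the construction of the rectangle partition.
-/

open scoped Matrix Matrix.Norms.Operator Topology
open MeasureTheory Filter Set

noncomputable section

namespace Pool.Agent.P.MP_d483fb_an.Z

namespace Pre

variable {X : Type} [MeasurableSpace X] {μ : Measure X} {ι : Type} [Fintype ι] [DecidableEq ι]
  {S : Pre X μ ι} {J : Set ℝ} {χ : ℝ}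

theorem Temp.exists_level [IsProbabilityMeasure μ] {ε : ℝ} {q : X → ℝ} (_hq : S.Temp ε q) :
    ∃ q0 : ℝ, 1 ≤ q0 ∧ μ {x | q x ≤ q0} ≠ 0 := by
  by_contra hc
  push Not at hc
  have h0 : μ (⋃ k : ℕ, {x | q x ≤ (k : ℝ) + 1}) = 0 :=
    measure_iUnion_null fun k => hc _ (le_add_of_nonneg_left (Nat.cast_nonneg k))
  have hu : (⋃ k : ℕ, {x | q x ≤ (k : ℝ) + 1}) = univ := by
    refine eq_univ_of_forall fun x => mem_iUnion.2 ⟨⌈q x⌉₊, ?_⟩
    exact (Nat.le_ceil (q x)).trans (le_add_of_nonneg_right zero_le_one)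
  rw [hu, measure_univ] at h0
  exact one_ne_zero h0

theorem rpow_back {x y t : ℝ} (hx : 0 ≤ x) (hy : 0 ≤ y) (ht : 0 ≤ t) (k : ℕ)
    (h : x ≤ y * Real.exp (-(k / 2))) : x ^ t ≤ y ^ t * Real.exp (-(t / 2)) ^ k := by
  refine (Real.rpow_le_rpow hx h ht).trans (le_of_eq ?_)
  rw [Real.mul_rpow hy (Real.exp_pos _).le, ← Real.exp_mul, ← Real.exp_nat_mul]
  congr 2
  ring

theorem exp_back_le_one (k : ℕ) : Real.exp (-((k : ℝ) / 2)) ≤ 1 :=
  Real.exp_le_one_iff.2 (by have : (0 : ℝ) ≤ k := Nat.cast_nonneg k; linarith)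

theorem exists_card_bound (a b : ℝ) (ha : 1 ≤ a) (hb : 0 ≤ b) (D : ℕ) :
    ∃ C : ℝ, ∀ t : ℕ, a * (1 + b * Real.exp (2 * t)) ^ D ≤ Real.exp (C * (t + 1)) := by
  have h1 : 1 ≤ a * (1 + b) ^ D := one_le_mul_of_one_le_of_one_le ha (one_le_pow₀ (by linarith))
  refine ⟨Real.log (a * (1 + b) ^ D) + 2 * D, fun t => ?_⟩
  have t0 : (0 : ℝ) ≤ t := Nat.cast_nonneg t
  have D0 : (0 : ℝ) ≤ D := Nat.cast_nonneg D
  have e1 : 1 ≤ Real.exp (2 * t) := Real.one_le_exp (by linarith)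
  have hl := Real.log_nonneg h1
  calc a * (1 + b * Real.exp (2 * t)) ^ D ≤ a * ((1 + b) * Real.exp (2 * t)) ^ D := by
        gcongr
        nlinarith
    _ = Real.exp (Real.log (a * (1 + b) ^ D) + D * (2 * t)) := by
        rw [Real.exp_add, Real.exp_log (by linarith), Real.exp_nat_mul, mul_pow, mul_assoc]
    _ ≤ _ := Real.exp_le_exp.2 (by nlinarith)

end Pre

open Pre Wt

variable {X : Type} [MeasurableSpace X] [StandardBorelSpace X] {μ : Measure X}
  [IsProbabilityMeasure μ] {ι : Type} [Fintype ι] [DecidableEq ι]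

theorem LS.exists_boxPre (S : LS X μ ι) {J : Set ℝ} {χ : ℝ} (hJ : J.OrdConnected)
    (hχ : Wt.Extreme J χ) : ∃ (Z0 : Set X) (ρ c r0 η σ : ℝ),
      BoxPre μ S.toPre.aE S.X0 (S.toPre.RJ J) S.toPre.N
        (fun x y => S.w.N (S.w.pr χ (S.toPre.n x y))) (fun x y => S.w.N (S.w.al χ (S.toPre.n x y)))
        (fun x y => S.w.pr χ (S.toPre.n x y)) (fun x y => S.w.al χ (S.toPre.n x y))
        (S.toPre.RJ (J \ {χ})) (S.toPre.RJ (J ∩ {χ})) Z0 ρ c r0 η σ := by
  obtain ⟨P, htemp⟩ := S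
  simp only
  have hC := P.w.one_le_C
  have C0 := P.w.C_pos
  obtain ⟨q, hq, hb, hbox⟩ := htemp (12 * P.w.C)⁻¹ (by positivity)
  obtain ⟨q0, q1, hq0⟩ := hq.exists_level
  obtain ⟨A0, A01, hCE⟩ := hq.exists_CE hb rfl q0
  obtain ⟨A, hA⟩ : ∃ A, A = A0 * q0 ^ (3 * P.w.C) := ⟨_, rfl⟩
  have A1 : 1 ≤ A := hA ▸ one_le_mul_of_one_le_of_one_le A01 (Real.one_le_rpow q1 (by positivity))
  have hAq : ∀ z, q z ≤ q0 → A0 * q z ^ (3 * P.w.C) ≤ A := fun z hz => by
    have := hq.pos z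
    rw [hA]
    gcongr
  obtain ⟨K, K1, hK⟩ := P.w.exists_pert hχ
  obtain ⟨t, ht⟩ : ∃ t, t = P.w.th * P.w.th := ⟨_, rfl⟩
  rw [← ht] at hK
  have t0 : 0 < t := ht ▸ mul_pos P.w.th_pos P.w.th_pos
  obtain ⟨σ, hσ⟩ : ∃ σ, σ = Real.exp (-(t / 2)) := ⟨_, rfl⟩
  have σ0 : 0 < σ := hσ ▸ Real.exp_pos _
  have σ1 : σ < 1 := hσ ▸ Real.exp_lt_one_iff.2 (by linarith)
  have C2 : 1 ≤ P.w.C ^ 2 := one_le_pow₀ hC
  have C5 : 1 ≤ P.w.C ^ 5 := one_le_pow₀ hC
  obtain ⟨ρ, hρ⟩ : ∃ ρ, ρ = (2 * (P.w.C ^ 2 * A))⁻¹ := ⟨_, rfl⟩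
  have CA : 1 ≤ P.w.C ^ 2 * A := one_le_mul_of_one_le_of_one_le C2 A1
  have ρ0 : 0 < ρ := by rw [hρ]; positivity
  have ρ1 : ρ ≤ 1 := hρ ▸ inv_le_one_of_one_le₀ (by linarith)
  have ρe : P.w.C ^ 2 * A * ρ = 1 / 2 := by rw [hρ]; field_simp
  obtain ⟨η, hη⟩ : ∃ η, η = ρ / 4 * (1 - σ) := ⟨_, rfl⟩
  have η0 : 0 < η := hη ▸ mul_pos (by linarith) (by linarith)
  have η1 : η ≤ 1 := by rw [hη]; nlinarith
  obtain ⟨m, hm⟩ : ∃ m, m = (η / K) ^ t⁻¹ := ⟨_, rfl⟩
  have m0 : 0 < m := by rw [hm]; positivity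
  have m1 : m ≤ 1 := hm ▸ Real.rpow_le_one (by positivity)
    ((div_le_one (by linarith)).2 (by linarith)) (by positivity)
  have me : K * m ^ t = η := by
    rw [hm, Real.rpow_inv_rpow (by positivity) t0.ne']
    field_simp
  obtain ⟨c, c0, c1, c2⟩ : ∃ c, 0 < c ∧ c ≤ ρ / 4 ∧ 2 * A * c ≤ m := by
    refine ⟨min (ρ / 4) (m / (2 * A)), by positivity, min_le_left _ _, ?_⟩
    rw [← le_div_iff₀' (by positivity)]
    exact min_le_right _ _
  obtain ⟨r0, hr0⟩ : ∃ r0, r0 = c / (8 * (A * P.w.C ^ 5)) := ⟨_, rfl⟩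
  have r00 : 0 < r0 := by rw [hr0]; positivity
  have r0e : A * P.w.C ^ 5 * r0 = c / 8 := by rw [hr0]; field_simp
  have r0C : P.w.C * (2 * r0) ≤ c / 4 := by
    have : P.w.C ≤ A * P.w.C ^ 5 := (le_self_pow₀ hC (by norm_num)).trans
      (le_mul_of_one_le_left (by positivity) A1)
    nlinarith
  obtain ⟨K0, lab, mK0, pK0, mlab, hK0, hlab⟩ := hbox q0 hq0 (r0 / (2 * P.w.C ^ 2)) (by positivity) 1
  obtain ⟨Z0, mZ0, sZ0, sep0, aeZ⟩ := P.exists_ref hJ mK0 mlab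
    fun y hy y' hy' e => ((hlab y hy y' hy').1 e).1
  have qZ : ∀ z ∈ Z0, q z ≤ q0 := fun z hz => (hK0 z (sZ0 hz)).2
  have sep : ∀ z ∈ Z0, ∀ z' ∈ Z0, P.RJ J z z' → P.N z z' ≤ 1 → z = z' := fun z hz z' hz' r h =>
    sep0 z hz z' hz' ((hlab z (sZ0 hz) z' (sZ0 hz')).2 r.1 h) r
  have ball : ∀ z y, P.RJ J z y → P.w.N (P.w.pr χ (P.n z y)) < 2 * r0 →
      P.w.N (P.w.al χ (P.n z y)) < 2 * r0 → P.N z y ≤ P.w.C * (2 * r0) :=
    fun z y r h1 h2 => r.2.N_le_of_pr_al h2.le h1.le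
  have gJ : ∀ {z z' y : X} {j : ℕ}, P.R z (P.a (-j) z') → P.RJ J z' y →
      P.w.Nil J (P.Lq z z' j * P.n z' y * (P.Lq z z' j)⁻¹) :=
    fun r r' => r'.2.conj_inv (Lq_lev r) (isUnit_Lq r)
  have CE1 : ∀ z ∈ Z0, ∀ z' ∈ Z0, ∀ (j : ℕ) (y : X), P.R z (P.a (-j) z') → P.R z' y →
      P.w.N (P.Lq z z' j * P.n z' y * (P.Lq z z' j)⁻¹) ≤
        A * (1 + P.N z (P.a (-j) z')) * (Real.exp (-(j / 2)) * P.N z' y) := by
    intro z hz z' hz' j y r r'
    have := P.N_nonneg z (P.a (-j) z')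
    have := P.N_nonneg z' y
    have := hAq z' (qZ z' hz')
    refine (hCE z z' j (qZ z hz) r _ (n_nil r')).1.trans ?_
    change _ * (_ * P.N z' y) ≤ _
    gcongr
  refine ⟨Z0, ρ, c, r0, η, σ,
    { erg := P.ergodic_aE
      measR := P.measurableSet_RJ J
      measN := P.measurable_N
      measF1 := P.w.measurable_N.comp (measurable_pr.comp P.measurable_n)
      measF2 := P.w.measurable_N.comp (measurable_al.comp P.measurable_n)
      measZ := mZ0
      mem0 := fun x y r => ⟨R_mem_left r.1, R_mem_right r.1⟩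
      refl := fun x hx => RJ.refl hx
      symm := fun x y r => r.symm hJ
      trans := fun x y z r r' => r.trans hJ r'
      relA := fun x y r => r.f (1, 0)
      relB := fun x y r => r.f (-1, 0)
      hr0 := r00
      hc0 := c0
      hc := c1
      hρ := ρ1
      hσ0 := σ0
      hσ1 := σ1
      hη0 := η0.le
      hη := hη.le
      self := fun x hx => N_self hx
      uniq := ?_
      ball := fun z y r h1 h2 => (ball z y r h1 h2).trans_lt (by linarith)
      far := ?_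
      pert := ?_
      inn := ?_
      e1s := ?_
      e2s := ?_
      e1A := fun x y r => r.f (1, 0)
      e2A := fun x y r => r.f (1, 0)
      e1B := fun x y r => r.f (-1, 0)
      e2B := fun x y r => r.f (-1, 0)
      e1F := ?_
      e2F := ?_
      cel := ?_
      pos := ?_ }⟩
  · intro z hz z' hz' y r r' h h'
    have rz : P.RJ J z z' := r.trans hJ (r'.symm hJ)
    have e0 : P.a (-((0 : ℕ) : ℤ)) z' = z' := by simp [a_zero]
    have r0' : P.R z (P.a (-((0 : ℕ) : ℤ)) z') := by rw [e0]; exact rz.1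
    have e1 := n_back r0' r'.1
    have b1 := CE1 z hz z' hz' 0 y r0' r'.1
    have hg := gJ r0' r'
    have e2 : P.a (-((0 : ℕ) : ℤ)) y = y := by simp [a_zero]
    rw [e0, e2] at e1
    rw [e0, Nat.cast_zero, zero_div, neg_zero, Real.exp_zero, one_mul] at b1
    generalize P.Lq z z' 0 * P.n z' y * (P.Lq z z' 0)⁻¹ = g at e1 b1 hg
    have e3 : P.n z z' = P.n z y * g⁻¹ := by rw [e1, mul_assoc, hg.mul_inv, mul_one]
    have hN := P.N_nonneg z z'
    have b2 : P.w.N g ≤ A * (1 + P.N z z') * ρ := b1.trans (by gcongr)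
    have b3 : ρ ≤ A * (1 + P.N z z') * ρ :=
      le_mul_of_one_le_left ρ0.le (one_le_mul_of_one_le_of_one_le A1 (by linarith))
    have b4 : P.N z z' ≤ P.w.C * (P.w.C * (A * (1 + P.N z z') * ρ)) := by
      conv_lhs => rw [Pre.N, e3]
      exact r.2.N_mul_le (hg.inv hJ)
        (h.le.trans (b3.trans (le_mul_of_one_le_left (ρ0.le.trans b3) hC)))
        (hg.N_inv_le.trans (mul_le_mul_of_nonneg_left b2 C0.le))
    refine sep z hz z' hz' rz ?_
    have : P.w.C * (P.w.C * (A * (1 + P.N z z') * ρ)) = P.w.C ^ 2 * A * ρ * (1 + P.N z z') := by ring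
    rw [this, ρe] at b4
    linarith
  · intro z hz z' hz' j y₁ y₂ r r1 r2 f1 f2 f3 f4 f5 f6
    simp only [aE_symm_iterate] at r f5 f6 ⊢
    rw [n_back r.1 r1.1] at f5
    rw [n_back r.1 r2.1] at f6
    have hN := P.N_nonneg z (P.a (-j) z')
    have ex := exp_back_le_one j
    have bd : ∀ y, P.RJ J z' y → P.N z' y ≤ P.w.C * (2 * r0) →
        P.w.N (P.Lq z z' j * P.n z' y * (P.Lq z z' j)⁻¹) ≤
          A * (1 + P.N z (P.a (-j) z')) * (P.w.C * (2 * r0)) := fun y ry hy => by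
      refine (CE1 z hz z' hz' j y r.1 ry.1).trans (mul_le_mul_of_nonneg_left ?_ (by positivity))
      exact (mul_le_of_le_one_left (P.N_nonneg _ _) ex).trans hy
    have b0 : 2 * r0 ≤ A * (1 + P.N z (P.a (-j) z')) * (P.w.C * (2 * r0)) :=
      (le_mul_of_one_le_left (by linarith) hC).trans (le_mul_of_one_le_left (by positivity)
        (one_le_mul_of_one_le_of_one_le A1 (by linarith)))
    have b1 : P.N z (P.a (-j) z') ≤ _ := N_le_of_far hJ hχ r.2 (gJ r.1 r1) (gJ r.1 r2)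
      (f5.le.trans b0) (bd y₁ r1 (ball _ _ r1 f1 f2)) (f6.le.trans b0) (bd y₂ r2 (ball _ _ r2 f3 f4))
    have : P.w.C ^ 4 * (A * (1 + P.N z (P.a (-j) z')) * (P.w.C * (2 * r0))) =
        2 * (A * P.w.C ^ 5 * r0) * (1 + P.N z (P.a (-j) z')) := by ring
    rw [this, r0e] at b1
    nlinarith
  · intro z' hz' z hz k y r h ry hy
    simp only [aE_symm_iterate] at r h ⊢
    have hN := P.N_nonneg z' (P.a (-k) z)
    have b1 : P.w.N (P.Lq z' z k * P.n z y * (P.Lq z' z k)⁻¹) ≤ m * Real.exp (-(k / 2)) := by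
      refine (CE1 z' hz' z hz k y r.1 ry.1).trans ?_
      have := P.N_nonneg z y
      calc _ ≤ A * 2 * (Real.exp (-(k / 2)) * c) := by gcongr; linarith
        _ = 2 * A * c * Real.exp (-(k / 2)) := by ring
        _ ≤ _ := by gcongr
    have b2 := rpow_back (P.w.N_nonneg _) m0.le t0.le k b1
    have b3 : K * P.w.N (P.Lq z' z k * P.n z y * (P.Lq z' z k)⁻¹) ^ t ≤ η * σ ^ k := by
      rw [← me, hσ, mul_assoc K]
      exact mul_le_mul_of_nonneg_left b2 (by linarith)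
    obtain ⟨p1, p2, p3⟩ := hK _ _ r.2 (gJ r.1 ry) (h.le.trans ρ1)
      (b1.trans (mul_le_one₀ m1 (Real.exp_pos _).le (exp_back_le_one k)))
    rw [← n_back r.1 ry.1] at p1 p2 p3
    exact ⟨p1.trans b3, p2.trans b3, p3.trans b3⟩
  · refine ⟨fun j x => (K * (j + 1))⁻¹ ^ t⁻¹ / (2 * (A0 * q x ^ (3 * P.w.C))), fun j => ?_,
      fun j x _ => ?_, ?_⟩
    · exact measurable_const.div (measurable_const.mul (measurable_const.mul
        (hq.meas.pow_const _)))
    · have := hq.pos x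
      positivity
    intro z' hz' z hz j k x y r1 _ r0' h _ ry hy
    simp only [aE_symm_iterate] at r1 h hy ⊢
    have r : P.RJ J z' (P.a (-k) x) := r1.trans hJ (r0'.a _)
    have hN := P.N_nonneg z' (P.a (-k) x)
    have px := hq.pos x
    obtain ⟨d, hd⟩ : ∃ d : ℝ, d = (K * (j + 1))⁻¹ ^ t⁻¹ := ⟨_, rfl⟩
    have j1 : (1 : ℝ) ≤ j + 1 := le_add_of_nonneg_left (Nat.cast_nonneg j)
    have d0 : 0 < d := by rw [hd]; positivity
    have d1 : d ≤ 1 := hd ▸ Real.rpow_le_one (by positivity)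
      (inv_le_one_of_one_le₀ (one_le_mul_of_one_le_of_one_le K1 j1)) (by positivity)
    have de : K * d ^ t = ((j : ℝ) + 1)⁻¹ := by
      rw [hd, Real.rpow_inv_rpow (by positivity) t0.ne']
      field_simp
    rw [← hd, lt_div_iff₀ (by positivity)] at hy
    have b1 : P.w.N (P.Lq z' x k * P.n x y * (P.Lq z' x k)⁻¹) ≤ d * Real.exp (-(k / 2)) := by
      refine (hCE z' x k (qZ z' hz') r.1 _ (n_nil ry.1)).1.trans ?_
      have := P.N_nonneg x y
      calc _ ≤ A0 * q x ^ (3 * P.w.C) * 2 * (Real.exp (-(k / 2)) * P.N x y) := by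
            change _ * (_ * P.N x y) ≤ _
            gcongr
            linarith
        _ = P.N x y * (2 * (A0 * q x ^ (3 * P.w.C))) * Real.exp (-(k / 2)) := by ring
        _ ≤ _ := by gcongr
    have b2 := rpow_back (P.w.N_nonneg _) d0.le t0.le k b1
    have b3 : K * P.w.N (P.Lq z' x k * P.n x y * (P.Lq z' x k)⁻¹) ^ t ≤ σ ^ k / (j + 1) := by
      rw [div_eq_inv_mul, ← de, hσ, mul_assoc K]
      exact mul_le_mul_of_nonneg_left b2 (by linarith)
    obtain ⟨-, p2, p3⟩ := hK _ _ r.2 (gJ r.1 ry) (h.le.trans ρ1)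
      (b1.trans (mul_le_one₀ d1 (Real.exp_pos _).le (exp_back_le_one k)))
    rw [← n_back r.1 ry.1] at p2 p3
    exact ⟨p2.trans b3, p3.trans b3⟩
  · intro z y y' r r' e
    exact (RJ_iff_chart r.1 r'.1).2 ((pr_eq_iff hχ hJ r.2 r'.2).1 e)
  · intro z y y' r r' e
    exact (RJ_iff_chart r.1 r'.1).2
      (((r.2.inv hJ).mul hJ r'.2).inter ((al_eq_iff hχ r.2 r'.2).1 e))
  · intro y y' r
    refine ⟨r.mono diff_subset, fun x rx => ?_⟩
    have r' := rx.trans hJ (r.mono diff_subset)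
    exact congrArg P.w.N ((pr_eq_iff hχ hJ rx.2 r'.2).2 ((RJ_iff_chart rx.1 r'.1).1 r))
  · intro y y' r
    refine ⟨r.mono inter_subset_left, fun x rx => ?_⟩
    have r' := rx.trans hJ (r.mono inter_subset_left)
    exact congrArg P.w.N ((al_eq_iff hχ rx.2 r'.2).2
      (((RJ_iff_chart rx.1 r'.1).1 r).mono inter_subset_right))
  · have hc := fun t : ℕ => exists_cell (w := P.w) (H := {h | P.w.Nil univ h}) (fun _ h => h)
      (δ := (2 * A * Real.exp (2 * t))⁻¹) (by positivity)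
    choose cell mc hsame hcount using hc
    choose Sf hcard hmem using fun t => hcount t 1 1 Nil.one zero_le_one
    obtain ⟨C', hC'⟩ := exists_card_bound P.w.nC (2 * A) P.w.one_le_nC (by linarith) P.w.pD
    refine ⟨fun t z z' => cell t (P.n z (P.a (-t) z')), Sf, C', fun t => (mc t).comp
      (measurable_n_comp measurable_fst ((P.measurable_a _).comp measurable_snd)), fun t => ?_,
      fun t z z' r h => ?_, fun t z hz z' hz' z'' hz'' r h r' h' e => ?_⟩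
    · have := hcard t
      rw [one_div, inv_inv] at this
      exact this.trans (hC' t)
    · simp only [aE_symm_iterate] at r h
      refine hmem t _ (n_nil r.1) ?_
      rw [inv_one, one_mul]
      exact h.le.trans ρ1
    · simp only [aE_symm_iterate] at r h r' h'
      have rz : P.RJ J z' z'' := (RJ_f_iff _).1 ((r.symm hJ).trans hJ r')
      have b1 := hsame t _ (n_nil r.1) _ (n_nil r'.1) e
      rw [n_back r.1 rz.1, ← mul_assoc, (n_nil r.1).inv_mul, one_mul] at b1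
      refine sep z' hz' z'' hz'' rz ((hCE z z' t (qZ z hz) r.1 _ (n_nil rz.1)).2.trans ?_)
      have := P.N_nonneg z (P.a (-t) z')
      have := hAq z' (qZ z' hz')
      have := P.w.N_nonneg (P.Lq z z' t * P.n z' z'' * (P.Lq z z' t)⁻¹)
      calc _ ≤ A * 2 * (Real.exp (2 * t) * (2 * A * Real.exp (2 * t))⁻¹) := by gcongr; linarith
        _ = 1 := by field_simp
  · refine fun h0 => pK0 (measure_mono_null_ae ?_ h0)
    filter_upwards [aeZ] with y hy hK
    obtain ⟨z, hz, e, r⟩ := hy hK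
    have b1 : P.w.N (P.n z y) ≤ r0 / (2 * P.w.C ^ 2) := ((hlab z (sZ0 hz) y hK).1 e).2
    have b2 : P.w.C ^ 2 * (r0 / (2 * P.w.C ^ 2)) = r0 / 2 := by field_simp
    have b3 : P.w.C ^ 2 * P.w.N (P.n z y) ≤ r0 / 2 := b2 ▸ mul_le_mul_of_nonneg_left b1 (sq_nonneg _)
    have b4 := le_mul_of_one_le_left (P.w.N_nonneg (P.n z y)) C2
    exact ⟨z, hz, r, (N_pr_le _).trans_lt (by linarith), r.2.N_al_le.trans_lt (by linarith)⟩

end Pool.Agent.P.MP_d483fb_an.Z

end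

end
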