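import Pool.Agent.P.MP_d483fb_an.M.A06

section

open scoped Topology ENNReal
open MeasureTheory Filter Set

set_option linter.unusedSectionVars false

noncomputable section

namespace Pool.Agent.P.MP_d483fb_an.Z.SR

variable {G : Type} [Group G] [TopologicalSpace G] [IsTopologicalGroup G] [LocallyCompactSpace G]
  [T2Space G] [SecondCountableTopology G] [MeasurableSpace G] [BorelSpace G]
  {Γ : Subgroup G} [Countable Γ] {X : Type} [MeasurableSpace X] [MulAction G X]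
  [MeasurableSMul₂ G X]
  {k V : Type} [NontriviallyNormedField k] [ProperSpace k] [NormedAddCommGroup V] [NormedSpace k V]
  [FiniteDimensional k V]
  [ProperSpace V] [MeasurableSpace V] [BorelSpace V] (ν : Measure V) [ν.IsAddHaarMeasure]

theorem NoInv_fibre {Λ : Type} (T : Λ → V →L[k] V) (hmp : ∀ γ, MeasurePreserving (T γ) ν ν)
    {F : V → ℝ} (hF : Measurable F) (hi : Integrable F ν) (h0 : ¬ ∀ᵐ v ∂ν, F v ≤ 0)
    (hinv : ∀ γ, ∀ᵐ v ∂ν, F (T γ v) = F v) : ∃ C : ℝ, ∀ γ, ‖T γ‖ ≤ C := by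
  obtain ⟨t, ht, hE⟩ : ∃ t : ℝ, 0 < t ∧ ν {v | t < F v} ≠ 0 := by
    by_contra hc
    push Not at hc
    refine h0 ?_
    have : ∀ᵐ v ∂ν, ∀ n : ℕ, F v ≤ 1 / ((n : ℝ) + 1) := ae_all_iff.2 fun n => by
      rw [ae_iff]
      simpa only [not_le] using hc _ Nat.one_div_pos_of_nat
    filter_upwards [this] with v hv
    exact ge_of_tendsto' tendsto_one_div_add_atTop_nhds_zero_nat hv
  set E := {v | t < F v} with hEd
  have hEm : MeasurableSet E := measurableSet_lt measurable_const hF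
  have hfin : ν E ≠ ⊤ := (hi.measure_gt_lt_top ht).ne
  have hlim : Tendsto (fun n : ℕ => ν (E ∩ Metric.closedBall 0 n)) atTop (𝓝 (ν E)) := by
    have := tendsto_measure_iUnion_atTop (μ := ν) (s := fun n : ℕ => E ∩ Metric.closedBall (0 : V) n)
      fun a b hab => inter_subset_inter_right _
        (Metric.closedBall_subset_closedBall (Nat.cast_le.2 hab))
    rwa [← inter_iUnion, Metric.iUnion_closedBall_nat, inter_univ] at this
  obtain ⟨n, hn⟩ := (hlim.eventually (lt_mem_nhds (ENNReal.half_lt_self hE hfin))).exists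
  set A := E ∩ Metric.closedBall (0 : V) n with hA
  have hAm : MeasurableSet A := hEm.inter measurableSet_closedBall
  have hδ : ν A + ν A - ν E ≠ 0 := by
    refine (tsub_pos_of_lt ?_).ne'
    calc ν E = ν E / 2 + ν E / 2 := (ENNReal.add_halves _).symm
      _ < ν A + ν A := ENNReal.add_lt_add hn hn
  obtain ⟨C, hC⟩ := vol_thin (k := k) ν (n : ℝ) hδ
  refine ⟨C, fun γ => le_of_not_ge fun h => (hC _ h).not_ge ?_⟩
  have h1 : ν (T γ ⁻¹' A) = ν A := (hmp γ).measure_preimage hAm.nullMeasurableSet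
  have h2 : ν (T γ ⁻¹' A ∪ A) ≤ ν E := by
    refine measure_mono_ae ?_
    filter_upwards [hinv γ] with v hv hm
    rcases hm with hm | hm
    · have : t < F (T γ v) := hm.1
      rwa [hv] at this
    · exact hm.1
  have h3 := measure_union_add_inter (μ := ν) (T γ ⁻¹' A) hAm
  rw [tsub_le_iff_left]
  calc ν A + ν A = ν (T γ ⁻¹' A ∪ A) + ν (T γ ⁻¹' A ∩ A) := by rw [h3, h1]
    _ ≤ _ := add_le_add h2 (measure_mono fun v hv => mem_inter hv.2.2 hv.1.2)

theorem NoInv_meas (S : Sec Γ X) (π : Γ →* (V →L[k] V)) :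
    Measurable fun q : (G × X) × V => π (S.β q.1.1 q.1.2) q.2 := by
  have h1 : StronglyMeasurable fun q : (G × X) × V => (π (S.β q.1.1 q.1.2), q.2) :=
    ((S.stronglyMeasurable_comp_β π).comp_measurable measurable_fst).prodMk
      measurable_snd.stronglyMeasurable
  have h2 : Continuous fun z : (V →L[k] V) × V => z.1 z.2 := by fun_prop
  exact (h2.comp_stronglyMeasurable h1).measurable

theorem Sec.bdd_of_inv (S : Sec Γ X) (π : Γ →* (V →L[k] V))
    (hmp : ∀ γ, MeasurePreserving (π γ) ν ν) (ξ : X × V → ℝ) (hξ : MemLp ξ 2 (S.μ.prod ν))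
    (hinv : ∀ g : G, ∀ᵐ p ∂(S.μ.prod ν), ξ (g • p.1, π (S.β g p.1) p.2) = ξ p)
    (h0 : ¬ ξ =ᵐ[S.μ.prod ν] 0) : ∃ C : ℝ, ∀ γ, ‖π γ‖ ≤ C := by
  obtain ⟨η, hη, he⟩ : ∃ η : X × V → ℝ, Measurable η ∧ ξ =ᵐ[S.μ.prod ν] η :=
    ⟨_, hξ.1.stronglyMeasurable_mk.measurable, hξ.1.ae_eq_mk⟩
  have hm := NoInv_meas S π
  have hT : ∀ g : G, MeasurePreserving (fun p : X × V => (g • p.1, π (S.β g p.1) p.2))
      (S.μ.prod ν) (S.μ.prod ν) := fun g =>
    (S.inv g).skew_product (g := fun x v => π (S.β g x) v)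
      (hm.comp ((measurable_const.prodMk measurable_fst).prodMk measurable_snd))
      (ae_of_all _ fun x => (hmp _).map_eq)
  have hQ : MeasurableSet {q : (G × X) × V |
      η (q.1.1 • q.1.2, π (S.β q.1.1 q.1.2) q.2) = η (q.1.2, q.2)} :=
    measurableSet_eq_fun (hη.comp ((measurable_fst.fst.smul measurable_fst.snd).prodMk hm))
      (hη.comp (measurable_fst.snd.prodMk measurable_snd))
  have hN : MeasurableSet {a : G × X |
      ∀ᵐ v ∂ν, η (a.1 • a.2, π (S.β a.1 a.2) v) = η (a.2, v)} :=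
    measurable_measure_prodMk_left (ν := ν) hQ.compl (measurableSet_singleton 0)
  have h1 : ∀ᵐ x ∂S.μ, ∀ᵐ g ∂(Measure.haar : Measure G), ∀ᵐ v ∂ν,
      η (g • x, π (S.β g x) v) = η (x, v) := by
    refine (Measure.ae_ae_comm (p := fun (g : G) x => ∀ᵐ v ∂ν,
      η (g • x, π (S.β g x) v) = η (x, v)) hN).1 (ae_of_all _ fun g => ?_)
    refine Measure.ae_ae_of_ae_prod
      (p := fun p : X × V => η (g • p.1, π (S.β g p.1) p.2) = η (p.1, p.2)) ?_
    filter_upwards [hinv g, he, (hT g).quasiMeasurePreserving.ae he] with p a b c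
    rw [← c, a, b]
  have h2 : ∀ᵐ x ∂S.μ, Integrable (fun v => η (x, v) ^ 2) ν :=
    ((hξ.ae_eq he).integrable_sq).prod_right_ae
  have h3 : ∃ᶠ x in ae S.μ, ¬ ∀ᵐ v ∂ν, η (x, v) ^ 2 ≤ 0 := by
    rw [← not_eventually]
    intro h
    refine h0 (he.trans ?_)
    have := (Measure.ae_prod_iff_ae_ae (p := fun p : X × V => η p ^ 2 ≤ 0)
      (measurableSet_le (hη.pow_const 2) measurable_const)).2 h
    filter_upwards [this] with p hp
    exact pow_eq_zero_iff two_ne_zero |>.1 (le_antisymm hp (sq_nonneg _))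
  obtain ⟨x, hx3, hx1, hx2⟩ := (h3.and_eventually (h1.and h2)).exists
  refine NoInv_fibre ν (fun γ => π γ) hmp ((hη.comp measurable_prodMk_left).pow_const 2) hx2 hx3
    fun γ => ?_
  obtain ⟨g, ha, hb⟩ := (hx1.and ((quasiMeasurePreserving_mul_right Measure.haar
    (S.s x * γ * (S.s x)⁻¹)).ae hx1)).exists
  rw [mul_smul, S.β_mul, S.conj_smul, S.β_conj, map_mul] at hb
  filter_upwards [(hmp γ).quasiMeasurePreserving.ae ha, hb] with v a b
  exact congrArg (· ^ 2) (a.symm.trans b)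

end Pool.Agent.P.MP_d483fb_an.Z.SR

end

end

section

open scoped Topology ENNReal
open MeasureTheory Filter Set

set_option linter.unusedSectionVars false

noncomputable section

namespace Pool.Agent.P.MP_d483fb_an.Z.SR

variable {G : Type} [Group G] [TopologicalSpace G] [IsTopologicalGroup G] [LocallyCompactSpace G]
  [T2Space G] [SecondCountableTopology G] [MeasurableSpace G] [BorelSpace G]
  {Γ : Subgroup G} [Countable Γ] {X : Type} [MeasurableSpace X] [MulAction G X]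
  [MeasurableSMul₂ G X]
  [MeasurableSpace.CountablyGenerated X]
  {k V : Type} [NontriviallyNormedField k] [ProperSpace k] [NormedAddCommGroup V] [NormedSpace k V]
  [FiniteDimensional k V]
  [ProperSpace V] [MeasurableSpace V] [BorelSpace V] (ν : Measure V) [ν.IsAddHaarMeasure]
  {S : Sec Γ X} {A : Type} [NormedAddCommGroup A] {a : A → G}

theorem Pos_final {c κ C : ℝ} (hc : 0 < c) (hκ : 0 < κ)
    (h : ∀ᶠ r : ℝ in atTop, c * Real.exp (-(κ / 2 * r)) ≤ C * Real.exp (-(κ * r))) : False := by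
  have h1 : Tendsto (fun r : ℝ => C * Real.exp (-(κ / 2 * r))) atTop (𝓝 (C * 0)) :=
    (Real.tendsto_exp_neg_atTop_nhds_zero.comp
      (tendsto_id.const_mul_atTop (half_pos hκ))).const_mul C
  have h2 : c ≤ C * 0 := by
    refine ge_of_tendsto h1 (h.mono fun r hr => ?_)
    have e : Real.exp (-(κ * r)) = Real.exp (-(κ / 2 * r)) * Real.exp (-(κ / 2 * r)) := by
      rw [← Real.exp_add]
      congr 1
      ring
    rw [e, ← mul_assoc] at hr
    exact le_of_mul_le_mul_right hr (Real.exp_pos _)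
  rw [mul_zero] at h2
  exact absurd hc (not_lt.2 h2)

/-- The skew product action. -/
def Pos_T (S : Sec Γ X) (π : Γ →* (V →L[k] V)) (g : G) (p : X × V) : X × V :=
  (g • p.1, π (S.β g p.1) p.2)

theorem Pos_meas (S : Sec Γ X) (π : Γ →* (V →L[k] V)) :
    Measurable fun q : G × (X × V) => π (S.β q.1 q.2.1) q.2.2 := by
  have h1 : Measurable fun q : Γ × V => π q.1 q.2 :=
    measurable_from_prod_countable_right fun γ => (π γ).continuous.measurable
  have h2 : Measurable fun p : G × X => S.β p.1 p.2 := S.measurable_coe_β.subtype_mk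
  exact h1.comp ((h2.comp (measurable_fst.prodMk measurable_snd.fst)).prodMk measurable_snd.snd)

theorem Pos_mp (S : Sec Γ X) (π : Γ →* (V →L[k] V)) (hmp : ∀ γ, MeasurePreserving (π γ) ν ν)
    (g : G) : MeasurePreserving (Pos_T S π g) (S.μ.prod ν) (S.μ.prod ν) :=
  (S.inv g).skew_product (g := fun x v => π (S.β g x) v)
    ((Pos_meas S π).comp (measurable_const.prodMk measurable_id))
    (Eventually.of_forall fun x => (hmp (S.β g x)).map_eq)

theorem Pos_mul (S : Sec Γ X) (π : Γ →* (V →L[k] V)) (g h : G) (p : X × V) :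
    Pos_T S π (g * h) p = Pos_T S π g (Pos_T S π h p) := by
  unfold Pos_T
  rw [S.β_mul, map_mul, mul_smul]
  rfl

theorem Pos_one (S : Sec Γ X) (π : Γ →* (V →L[k] V)) (p : X × V) : Pos_T S π 1 p = p := by
  unfold Pos_T
  rw [S.β_one, map_one, one_smul]
  rfl

theorem Pos_lower (S : Sec Γ X) (π : Γ →* (V →L[k] V)) (hmp : ∀ γ, MeasurePreserving (π γ) ν ν)
    (g : G) {t : ℝ} (ht : 0 ≤ t) (hb : S.μ {x | Real.exp t < ‖π (S.β g x)‖} ≤ 2⁻¹) :
    2⁻¹ * ν (Metric.closedBall 0 (Real.exp (-t))) ≤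
      S.μ.prod ν ((univ ×ˢ Metric.closedBall 0 1) ∩
        Pos_T S π g⁻¹ ⁻¹' (univ ×ˢ Metric.closedBall 0 1)) := by
  have hB : MeasurableSet ((univ : Set X) ×ˢ Metric.closedBall (0 : V) 1) :=
    MeasurableSet.univ.prod Metric.isClosed_closedBall.measurableSet
  have h1 : (2⁻¹ : ℝ≥0∞) ≤ S.μ {x | Real.exp t < ‖π (S.β g x)‖}ᶜ := by
    have h2 := measure_union_le (μ := S.μ) {x | Real.exp t < ‖π (S.β g x)‖}ᶜ
      {x | Real.exp t < ‖π (S.β g x)‖}
    rw [compl_union_self, measure_univ] at h2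
    have h3 := h2.trans (add_le_add_right hb _)
    rw [← ENNReal.inv_two_add_inv_two] at h3
    exact (ENNReal.add_le_add_iff_right (by simp)).1 h3
  rw [← (Pos_mp ν S π hmp g).measure_preimage
    (hB.inter ((Pos_mp ν S π hmp g⁻¹).measurable hB)).nullMeasurableSet]
  refine (mul_le_mul_left h1 _).trans ?_
  rw [← Measure.prod_prod]
  refine measure_mono ?_
  rintro ⟨x, v⟩ ⟨hx, hv⟩
  have hx' : ‖π (S.β g x)‖ ≤ Real.exp t := not_lt.1 hx
  have hv' : ‖v‖ ≤ Real.exp (-t) := mem_closedBall_zero_iff.1 hv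
  refine ⟨⟨mem_univ _, mem_closedBall_zero_iff.2 ?_⟩, ?_⟩
  · show ‖π (S.β g x) v‖ ≤ 1
    refine ((π (S.β g x)).le_opNorm v).trans
      ((mul_le_mul hx' hv' (norm_nonneg _) (Real.exp_pos _).le).trans ?_)
    rw [← Real.exp_add, add_neg_cancel, Real.exp_zero]
  · rw [mem_preimage, ← Pos_mul, inv_mul_cancel, Pos_one]
    exact ⟨mem_univ _, mem_closedBall_zero_iff.2
      (hv'.trans (Real.exp_le_one_iff.2 (neg_nonpos.2 ht)))⟩

theorem Pos_inner {Ω : Type} [MeasurableSpace Ω] {m : Measure Ω} {B : Set Ω} (hB : MeasurableSet B)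
    (hf : m B ≠ ∞) {T : Ω → Ω} (hT : MeasurePreserving T m m) (η : Lp ℝ 2 m)
    (h : η =ᵐ[m] fun ω => (indicatorConstLp 2 hB hf (1 : ℝ) : Lp ℝ 2 m) (T ω)) :
    inner ℝ η (indicatorConstLp 2 hB hf (1 : ℝ)) = (m (B ∩ T ⁻¹' B)).toReal := by
  have h1 : η =ᵐ[m] (T ⁻¹' B).indicator fun _ => (1 : ℝ) := by
    filter_upwards [h, hT.quasiMeasurePreserving.ae
      (indicatorConstLp_coeFn (p := 2) (hs := hB) (hμs := hf) (c := (1 : ℝ)))] with ω k1 k2
    rw [k1, k2]
    rfl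
  rw [real_inner_comm, L2.inner_indicatorConstLp_one, integral_congr_ae (ae_restrict_of_ae h1),
    integral_indicator (hT.measurable hB), Measure.restrict_restrict (hT.measurable hB),
    setIntegral_const, smul_eq_mul, mul_one, inter_comm, measureReal_def]

theorem Good.bdd_of_subexp (hG : Good S a) (π : Γ →* (V →L[k] V))
    (hmp : ∀ γ, MeasurePreserving (π γ) ν ν)
    (hz : ∀ γ : Γ, (γ : G) ∈ Subgroup.center G → π γ = 1)
    (hsub : ∀ ε : ℝ, 0 < ε → ∀ δ : ℝ≥0∞, δ ≠ 0 →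
      ∃ Q : ℝ, ∀ t, S.μ {x | Real.exp (Q + ε * ‖t‖) < ‖π (S.β (a t) x)‖} ≤ δ) :
    ∃ C : ℝ, ∀ γ, ‖π γ‖ ≤ C := by
  by_contra hu
  obtain ⟨U, hU1, hU2, hU3⟩ := koopman (S.μ.prod ν) (Pos_T S π)
    ((measurable_fst.smul measurable_snd.fst).prodMk (Pos_meas S π)) (Pos_one S π) (Pos_mul S π)
    (Pos_mp ν S π hmp)
  have hinv : ∀ ξ, (∀ g, U g ξ = ξ) → ξ = 0 := by
    intro ξ hξ
    by_contra h0
    refine hu (Sec.bdd_of_inv ν S π hmp ξ (Lp.memLp ξ) (fun g => ?_)
      fun h => h0 (Lp.eq_zero_iff_ae_eq_zero.2 h))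
    have h := hU3 g⁻¹ ξ
    rw [hξ, inv_inv] at h
    filter_upwards [h] with p hp
    exact hp.symm
  have hB : MeasurableSet ((univ : Set X) ×ˢ Metric.closedBall (0 : V) 1) :=
    MeasurableSet.univ.prod Metric.isClosed_closedBall.measurableSet
  have hf : S.μ.prod ν ((univ : Set X) ×ˢ Metric.closedBall (0 : V) 1) ≠ ∞ := by
    rw [Measure.prod_prod, measure_univ, one_mul]
    exact (isCompact_closedBall (0 : V) 1).measure_lt_top.ne
  obtain ⟨q, K, κ, C, hK, hκ, hev⟩ := hG.dec _ U hU1 hU2 hinv (indicatorConstLp 2 hB hf (1 : ℝ))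
  obtain ⟨c, D, hc, hD, hball⟩ := vol_ball (k := k) ν
  have hqD : 0 < (q : ℝ) * D + 1 := by positivity
  obtain ⟨ε, hε, hεq⟩ : ∃ ε : ℝ, 0 < ε ∧ D * (q * ε) ≤ κ / 2 := by
    refine ⟨κ / 2 / (q * D + 1), by positivity, ?_⟩
    rw [← mul_assoc, ← mul_div_assoc, div_le_iff₀ hqD]
    nlinarith
  obtain ⟨δ, hδ, hδq⟩ : ∃ δ : ℝ≥0∞, δ ≠ 0 ∧ q * δ ≤ 2⁻¹ := by
    refine ⟨(q + 1 : ℝ≥0∞)⁻¹ * 2⁻¹, by simp, ?_⟩
    rw [← mul_assoc]
    refine mul_le_of_le_one_left' ?_
    exact (mul_le_mul_left le_self_add _).trans (ENNReal.mul_inv_le_one _)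
  obtain ⟨Q1, hQ1⟩ := hG.cpt_bound π hK hδ
  obtain ⟨Q2, hQ2⟩ := hsub ε hε δ hδ
  obtain ⟨Q, hQ0, hQQ1, hQQ2⟩ : ∃ Q : ℝ, 0 ≤ Q ∧ Q1 ≤ Q ∧ Q2 ≤ Q :=
    ⟨max 0 (max Q1 Q2), le_max_left _ _, (le_max_left _ _).trans (le_max_right _ _),
      (le_max_right _ _).trans (le_max_right _ _)⟩
  refine Pos_final (c := 2⁻¹ * (c * Real.exp (-(D * (q * Q))))) (C := C) (by positivity) hκ ?_
  filter_upwards [hev, eventually_ge_atTop 0] with r hr hr0
  obtain ⟨l, hl, hlet, hle⟩ := hr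
  have hεr : 0 ≤ ε * r := mul_nonneg hε.le hr0
  have hQr : 0 ≤ Q + ε * r := add_nonneg hQ0 hεr
  have hbad : ∀ g ∈ l, S.μ {x | Real.exp (Q + ε * r) < ‖π (S.β g x)‖} ≤ δ := by
    intro g hg
    rcases hlet g hg with h | h | ⟨t, ht, rfl⟩
    · refine le_trans (measure_mono fun x hx => ?_) (hQ1 g h)
      exact lt_of_le_of_lt (Real.exp_le_exp.2 (by linarith)) hx
    · have he : {x | Real.exp (Q + ε * r) < ‖π (S.β g x)‖} = ∅ := by
        refine eq_empty_of_forall_notMem fun x hx => ?_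
        have e : S.β g x = ⟨g, h.1⟩ := S.β_central ⟨g, h.1⟩ h.2 x
        have hx' : Real.exp (Q + ε * r) < ‖π (S.β g x)‖ := hx
        rw [e, hz ⟨g, h.1⟩ h.2] at hx'
        exact absurd (hx'.trans_le ContinuousLinearMap.norm_id_le)
          (not_lt.2 (Real.one_le_exp hQr))
      rw [he, measure_empty]
      exact zero_le
    · refine le_trans (measure_mono fun x hx => ?_) (hQ2 t)
      have := mul_le_mul_of_nonneg_left ht hε.le
      exact lt_of_le_of_lt (Real.exp_le_exp.2 (by linarith)) hx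
  have ht : 0 ≤ (l.length : ℝ) * (Q + ε * r) := mul_nonneg (Nat.cast_nonneg _) hQr
  have hw := (S.word_bound π hQr l hbad).trans
    ((mul_le_mul_left (Nat.cast_le.2 hl) _).trans hδq)
  have h1 := (mul_le_mul_right (hball _ ht) _).trans (Pos_lower ν S π hmp l.prod ht hw)
  have h2 := ENNReal.toReal_mono (measure_ne_top_of_subset inter_subset_left hf) h1
  rw [← Pos_inner hB hf (Pos_mp ν S π hmp l.prod⁻¹) _ (hU3 l.prod _), ENNReal.toReal_mul,
    ENNReal.toReal_ofReal (by positivity), ENNReal.toReal_inv, ENNReal.toReal_ofNat] at h2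
  refine le_trans ?_ (h2.trans hle)
  rw [mul_assoc, mul_assoc, ← Real.exp_add]
  refine mul_le_mul_of_nonneg_left (mul_le_mul_of_nonneg_left (Real.exp_le_exp.2 ?_) hc.le)
    (by norm_num)
  have h3 : D * ((l.length : ℝ) * (Q + ε * r)) ≤ D * (q * (Q + ε * r)) :=
    mul_le_mul_of_nonneg_left (mul_le_mul_of_nonneg_right (Nat.cast_le.2 hl) hQr) hD
  have h4 := mul_le_mul_of_nonneg_right hεq hr0
  nlinarith

end Pool.Agent.P.MP_d483fb_an.Z.SR

end

end

section

open scoped Cardinal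
open Set

set_option linter.unusedSectionVars false

noncomputable section

namespace Pool.Agent.P.MP_d483fb_an.Z.SR

theorem exists_ringEquiv_ext {R K L : Type} [CommRing R] [IsDomain R] [Countable R] [Field K]
    [IsAlgClosed K] [Field L] [IsAlgClosed L] (hK : ℵ₀ < #K) (hKL : #K = #L) (i : R →+* K)
    (j : R →+* L) (hi : Function.Injective i) (hj : Function.Injective j) :
    ∃ σ : K ≃+* L, ∀ r, σ (i r) = j r := by
  let := i.toAlgebra
  let := j.toAlgebra
  have : FaithfulSMul R K := (faithfulSMul_iff_algebraMap_injective R K).mpr hi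
  have : FaithfulSMul R L := (faithfulSMul_iff_algebraMap_injective R L).mpr hj
  obtain ⟨s, hs⟩ := exists_isTranscendenceBasis R K
  obtain ⟨t, ht⟩ := exists_isTranscendenceBasis R L
  have hR : #R ≤ ℵ₀ := Cardinal.mk_le_aleph0
  have e1 := IsAlgClosed.cardinal_eq_cardinal_transcendence_basis_of_aleph0_lt' _ hs hR hK
  have e2 := IsAlgClosed.cardinal_eq_cardinal_transcendence_basis_of_aleph0_lt' _ ht hR
    (hKL ▸ hK)
  obtain ⟨e⟩ : Nonempty (s ≃ t) := Cardinal.eq.mp (e1.symm.trans (hKL.trans e2))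
  let := IsAlgClosed.isAlgClosure_of_transcendence_basis _ hs
  let := IsAlgClosed.isAlgClosure_of_transcendence_basis _ ht
  let f : Algebra.adjoin R (range ((↑) : s → K)) ≃ₐ[R] Algebra.adjoin R (range ((↑) : t → L)) :=
    hs.1.aevalEquiv.symm.trans ((MvPolynomial.renameEquiv R e).trans ht.1.aevalEquiv)
  refine ⟨IsAlgClosure.equivOfEquiv K L f.toRingEquiv, fun r => ?_⟩
  have h1 := IsAlgClosure.equivOfEquiv_algebraMap K L f.toRingEquiv (algebraMap R _ r)
  have h2 : f.toRingEquiv (algebraMap R _ r) = algebraMap R _ r := f.commutes r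
  rw [h2, ← IsScalarTower.algebraMap_apply, ← IsScalarTower.algebraMap_apply] at h1
  exact h1

theorem ext_mk_padic (p : ℕ) [Fact p.Prime] : #ℚ_[p] = Cardinal.continuum := by
  refine le_antisymm ?_ (continuum_le_cardinal_of_nontriviallyNormedField ℚ_[p])
  have h1 : #ℚ_[p] ≤ #(PadicSeq p) :=
    Cardinal.mk_le_of_surjective (f := CauSeq.Completion.mk) Quot.mk_surjective
  have h2 : #(PadicSeq p) ≤ #(ℕ → ℚ) := Cardinal.mk_subtype_le _
  refine h1.trans (h2.trans ?_)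
  simp

theorem mk_padicAlgCl (p : ℕ) [Fact p.Prime] : #(PadicAlgCl p) = #ℂ := by
  rw [Cardinal.mk_complex]
  refine le_antisymm ?_ ?_
  · refine (Algebra.IsAlgebraic.cardinalMk_le_max ℚ_[p] (PadicAlgCl p)).trans ?_
    rw [ext_mk_padic]
    exact max_le le_rfl Cardinal.aleph0_le_continuum
  · rw [← ext_mk_padic p]
    exact Cardinal.mk_le_of_injective (algebraMap ℚ_[p] (PadicAlgCl p)).injective

end Pool.Agent.P.MP_d483fb_an.Z.SR

end

end

section

open scoped Cardinal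
open Set

set_option linter.unusedSectionVars false

noncomputable section

namespace Pool.Agent.P.MP_d483fb_an.Z.SR

open Polynomial

theorem Kron_card : ℵ₀ < #ℂ := by
  rw [Cardinal.mk_complex]
  exact Cardinal.aleph0_lt_continuum

theorem Kron_countable : Countable ℚ[X] :=
  (Polynomial.toFinsuppIsoLinear ℚ).toEquiv.countable_iff.2 <|
    (AddMonoidAlgebra.coeffEquiv (R := ℚ) (M := ℕ)).countable_iff.2 inferInstance

theorem Kron_alg (z : ℂ) (h1 : ∀ σ : ℂ ≃+* ℂ, ‖σ z‖ = 1) : IsAlgebraic ℚ z := by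
  by_contra hz
  have hz' : Transcendental ℚ z := hz
  have h2 : Transcendental ℚ (2 * z) := by
    intro h
    apply hz
    have h3 : IsAlgebraic ℚ ((2 : ℂ)⁻¹) := by
      have := isAlgebraic_algebraMap (R := ℚ) (A := ℂ) (2⁻¹ : ℚ)
      simpa using this
    have h4 := h3.mul h
    rwa [← mul_assoc, inv_mul_cancel₀ two_ne_zero, one_mul] at h4
  have := Kron_countable
  obtain ⟨σ, hσ⟩ := exists_ringEquiv_ext Kron_card rfl
    ((aeval z : ℚ[X] →ₐ[ℚ] ℂ) : ℚ[X] →+* ℂ) ((aeval (2 * z) : ℚ[X] →ₐ[ℚ] ℂ) : ℚ[X] →+* ℂ)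
    (transcendental_iff_injective.1 hz') (transcendental_iff_injective.1 h2)
  have e1 : σ z = 2 * z := by simpa using hσ X
  have e2 := h1 σ
  have e3 : ‖z‖ = 1 := h1 (RingEquiv.refl ℂ)
  rw [e1, norm_mul, e3] at e2
  norm_num at e2

theorem Kron_coeff {L : Type*} [NormedField L] [IsUltrametricDist L] (s : Multiset L)
    (hs : ∀ r ∈ s, ‖r‖ ≤ 1) (n : ℕ) : ‖((s.map fun a => X - C a).prod).coeff n‖ ≤ 1 := by
  induction s using Multiset.induction_on generalizing n with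
  | empty =>
    simp only [Multiset.map_zero, Multiset.prod_zero, coeff_one]
    split_ifs <;> simp
  | cons a s ih =>
    have ih' := ih fun r hr => hs r (Multiset.mem_cons_of_mem hr)
    have ha := hs a (Multiset.mem_cons_self a s)
    have hm : ∀ m, ‖-(a * ((s.map fun a => X - C a).prod).coeff m)‖ ≤ 1 := fun m => by
      rw [norm_neg, norm_mul]
      exact mul_le_one₀ ha (norm_nonneg _) (ih' m)
    rw [Multiset.map_cons, Multiset.prod_cons, sub_mul, coeff_sub, coeff_C_mul, sub_eq_add_neg]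
    refine (IsUltrametricDist.norm_add_le_max _ _).trans (max_le ?_ (hm n))
    cases n with
    | zero => simp
    | succ n => rw [coeff_X_mul]; exact ih' n

theorem Kron_int (q : ℚ) (h : ∀ (p : ℕ) [Fact p.Prime], ‖(q : ℚ_[p])‖ ≤ 1) :
    ∃ m : ℤ, (m : ℚ) = q := by
  by_cases hd : q.den = 1
  · exact ⟨q.num, Rat.coe_int_num_of_den_eq_one hd⟩
  exfalso
  obtain ⟨p, hp, hpd⟩ := Nat.exists_prime_and_dvd hd
  have : Fact p.Prime := ⟨hp⟩
  have h1 := h p
  have h2 : ‖((q.den : ℤ) : ℚ_[p])‖ < 1 :=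
    (Padic.norm_intCast_lt_one_iff).2 (Int.natCast_dvd_natCast.2 hpd)
  have h3 : ((q.num : ℤ) : ℚ_[p]) = (q : ℚ_[p]) * ((q.den : ℤ) : ℚ_[p]) := by
    have := Rat.mul_den_eq_num q
    exact_mod_cast (congrArg (fun t : ℚ => (t : ℚ_[p])) this).symm
  have h4 : ‖((q.num : ℤ) : ℚ_[p])‖ < 1 := by
    rw [h3, norm_mul]
    exact mul_lt_one_of_nonneg_of_lt_one_right h1 (norm_nonneg _) h2
  have h5 : (p : ℤ) ∣ q.num := (Padic.norm_intCast_lt_one_iff).1 h4
  have h6 : p ∣ q.num.natAbs := Int.natCast_dvd.1 h5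
  have h7 := Nat.dvd_gcd h6 hpd
  rw [q.reduced] at h7
  exact hp.one_lt.ne' (Nat.dvd_one.1 h7)

theorem isOfFinOrder_of_norm (z : ℂ) (h1 : ∀ σ : ℂ ≃+* ℂ, ‖σ z‖ = 1)
    (h2 : ∀ (p : ℕ) [Fact p.Prime] (σ : ℂ ≃+* PadicAlgCl p), ‖σ z‖ ≤ 1) : IsOfFinOrder z := by
  have hz : IsIntegral ℚ z := (Kron_alg z h1).isIntegral
  let F := IntermediateField.adjoin ℚ {z}
  have : FiniteDimensional ℚ F := IntermediateField.adjoin.finiteDimensional hz
  have : NumberField F := ⟨⟩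
  have : Countable F := Finsupp.Countable.of_moduleFinite (R := ℚ)
  let x : F := ⟨z, IntermediateField.mem_adjoin_simple_self ℚ z⟩
  have hi : Function.Injective (algebraMap F ℂ) := (algebraMap F ℂ).injective
  have hC : ∀ φ : F →+* ℂ, ‖φ x‖ = 1 := fun φ => by
    obtain ⟨σ, hσ⟩ := exists_ringEquiv_ext Kron_card rfl (algebraMap F ℂ) φ hi φ.injective
    rw [← hσ x]
    exact h1 σ
  have hP : ∀ (p : ℕ) [Fact p.Prime] (φ : F →+* PadicAlgCl p), ‖φ x‖ ≤ 1 := fun p _ φ => by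
    obtain ⟨σ, hσ⟩ := exists_ringEquiv_ext Kron_card (mk_padicAlgCl p).symm (algebraMap F ℂ) φ hi
      φ.injective
    rw [← hσ x]
    exact h2 p σ
  have hxq : IsIntegral ℚ x := Algebra.IsIntegral.isIntegral x
  have hmon := minpoly.monic hxq
  have hco : ∀ n, ∃ m : ℤ, (m : ℚ) = (minpoly ℚ x).coeff n := fun n => by
    refine Kron_int _ fun p _ => ?_
    have hs := (IsAlgClosed.splits ((minpoly ℚ x).map (algebraMap ℚ (PadicAlgCl p)))
      ).eq_prod_roots_of_monic (hmon.map _)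
    have hr := Kron_coeff ((minpoly ℚ x).map (algebraMap ℚ (PadicAlgCl p))).roots (fun r hr => by
      have h3 : r ∈ (minpoly ℚ x).rootSet (PadicAlgCl p) := by
        rw [mem_rootSet_of_ne hmon.ne_zero, aeval_def, eval₂_eq_eval_map]
        exact (mem_roots (hmon.map _).ne_zero).1 hr
      rw [← NumberField.Embeddings.range_eval_eq_rootSet_minpoly] at h3
      obtain ⟨φ, rfl⟩ := h3
      exact hP p φ) n
    rw [← hs, coeff_map] at hr
    rw [← PadicAlgCl.norm_extends]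
    have e : algebraMap ℚ_[p] (PadicAlgCl p) (((minpoly ℚ x).coeff n : ℚ) : ℚ_[p]) =
        algebraMap ℚ (PadicAlgCl p) ((minpoly ℚ x).coeff n) := by
      rw [map_ratCast, eq_ratCast]
    rw [← e] at hr
    exact hr
  have hl : minpoly ℚ x ∈ lifts (algebraMap ℤ ℚ) := by
    rw [lifts_iff_coeff_lifts]
    exact fun n => hco n
  obtain ⟨q, hq, -, hqm⟩ := lifts_and_degree_eq_and_monic hl hmon
  have hxi : IsIntegral ℤ x := by
    refine ⟨q, hqm, ?_⟩
    have := minpoly.aeval ℚ x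
    rw [← hq, aeval_map_algebraMap] at this
    exact this
  obtain ⟨n, hn, h⟩ := NumberField.Embeddings.pow_eq_one_of_norm_eq_one F ℂ hxi hC
  refine isOfFinOrder_iff_pow_eq_one.2 ⟨n, hn, ?_⟩
  have := congrArg (algebraMap F ℂ) h
  rw [map_pow, map_one] at this
  exact this

end Pool.Agent.P.MP_d483fb_an.Z.SR

end

end

section

open scoped Matrix
open Set

set_option linter.unusedSectionVars false

noncomputable section

namespace Pool.Agent.P.MP_d483fb_an.Z.SR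

section
variable {k : Type} [NontriviallyNormedField k] [IsUltrametricDist k] {d : ℕ}

/-- All entries have norm at most `a`. -/
def TitsA_Sm (a : ℝ) (M : Matrix (Fin d) (Fin d) k) : Prop := ∀ i j, ‖M i j‖ ≤ a

theorem TitsA_mul {a b : ℝ} (ha : 0 ≤ a) (hb : 0 ≤ b) {M N : Matrix (Fin d) (Fin d) k}
    (hM : TitsA_Sm a M) (hN : TitsA_Sm b N) : TitsA_Sm (a * b) (M * N) := by
  intro i j
  rw [Matrix.mul_apply]
  refine IsUltrametricDist.norm_sum_le_of_forall_le_of_nonneg (mul_nonneg ha hb) fun l _ => ?_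
  rw [norm_mul]
  exact mul_le_mul (hM i l) (hN l j) (norm_nonneg _) ha

theorem TitsA_add {a : ℝ} {M N : Matrix (Fin d) (Fin d) k}
    (hM : TitsA_Sm a M) (hN : TitsA_Sm a N) : TitsA_Sm a (M + N) := fun i j =>
  (IsUltrametricDist.norm_add_le_max _ _).trans (max_le (hM i j) (hN i j))

theorem TitsA_mono {a b : ℝ} (h : a ≤ b) {M : Matrix (Fin d) (Fin d) k}
    (hM : TitsA_Sm a M) : TitsA_Sm b M := fun i j => (hM i j).trans h

theorem TitsA_smul {a : ℝ} (m : ℕ) {M : Matrix (Fin d) (Fin d) k}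
    (hM : TitsA_Sm a M) : TitsA_Sm a ((m : k) • M) := by
  intro i j
  rw [Matrix.smul_apply, smul_eq_mul, norm_mul]
  exact (mul_le_of_le_one_left (norm_nonneg _)
    (IsUltrametricDist.norm_natCast_le_one k m)).trans (hM i j)

theorem TitsA_one : TitsA_Sm 1 (1 : Matrix (Fin d) (Fin d) k) := by
  intro i j
  rw [Matrix.one_apply]
  split_ifs <;> simp

theorem TitsA_pow {y : Matrix (Fin d) (Fin d) k} (hy : TitsA_Sm 1 y) (m : ℕ) :
    ∃ z, TitsA_Sm 1 z ∧ (1 + y) ^ m = 1 + ((m : k) • y + y * y * z) := by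
  induction m with
  | zero => exact ⟨0, fun i j => by simp, by simp⟩
  | succ m ih =>
    obtain ⟨z, hz, e⟩ := ih
    refine ⟨(m : k) • 1 + z + z * y, TitsA_add (TitsA_add (TitsA_smul m TitsA_one) hz) ?_, ?_⟩
    · simpa using TitsA_mul zero_le_one zero_le_one hz hy
    · rw [pow_succ, e]
      simp only [Nat.cast_succ, add_smul, one_smul, mul_add, add_mul, mul_one, one_mul,
        smul_mul_assoc, mul_smul_comm, mul_assoc]
      abel

theorem TitsA_prime {l : ℕ} {ρ : ℝ} (h1 : ρ ≤ 1) (hl : ρ < ‖(l : k)‖)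
    {y : Matrix (Fin d) (Fin d) k} (hy : TitsA_Sm ρ y) (h : (1 + y) ^ l = 1) : y = 0 := by
  by_contra h0
  obtain ⟨i0, j0, hij⟩ : ∃ i j, y i j ≠ 0 := by
    by_contra hc
    push Not at hc
    exact h0 (Matrix.ext hc)
  obtain ⟨p, -, hp⟩ := Finset.exists_max_image (Finset.univ : Finset (Fin d × Fin d))
    (fun p => ‖y p.1 p.2‖) ⟨(i0, j0), Finset.mem_univ _⟩
  have hN : TitsA_Sm ‖y p.1 p.2‖ y := fun i j => hp (i, j) (Finset.mem_univ _)
  have hpos : 0 < ‖y p.1 p.2‖ := (norm_pos_iff.2 hij).trans_le (hN i0 j0)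
  obtain ⟨z, hz, e⟩ := TitsA_pow (TitsA_mono h1 hy) l
  rw [h] at e
  have e2 : (l : k) • y = -(y * y * z) := eq_neg_of_add_eq_zero_left (left_eq_add.1 e)
  have h2 := TitsA_mul (mul_nonneg hpos.le hpos.le) zero_le_one
    (TitsA_mul hpos.le hpos.le hN hN) hz p.1 p.2
  rw [← norm_neg, ← Matrix.neg_apply, ← e2, Matrix.smul_apply, smul_eq_mul, norm_mul,
    mul_one] at h2
  have h3 := le_of_mul_le_mul_right h2 hpos
  exact absurd (hl.trans_le (h3.trans (hy p.1 p.2))) (lt_irrefl _)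

theorem TitsA_radius [CharZero k] :
    ∃ r : ℝ, 0 < r ∧ r ≤ 1 ∧ ∀ l : ℕ, l.Prime → r ≤ ‖(l : k)‖ := by
  by_cases h : ∃ p : ℕ, p.Prime ∧ ‖(p : k)‖ < 1
  · obtain ⟨p, hp, h1⟩ := h
    refine ⟨‖(p : k)‖, norm_pos_iff.2 (Nat.cast_ne_zero.2 hp.ne_zero), h1.le, fun l hl => ?_⟩
    by_cases e : p = l
    · rw [e]
    refine h1.le.trans (not_lt.1 fun h2 => ?_)
    obtain ⟨a, b, hab⟩ := Nat.isCoprime_iff_coprime.2 ((Nat.coprime_primes hp hl).2 e)
    have h3 : (a : k) * p + (b : k) * l = 1 := by exact_mod_cast congrArg (Int.cast (R := k)) hab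
    have h4 := IsUltrametricDist.norm_add_le_max ((a : k) * p) ((b : k) * l)
    rw [h3, norm_one, norm_mul, norm_mul] at h4
    refine absurd h4 (not_le.2 (max_lt ?_ ?_))
    · exact (mul_le_of_le_one_left (norm_nonneg _)
        (IsUltrametricDist.norm_intCast_le_one k a)).trans_lt h1
    · exact (mul_le_of_le_one_left (norm_nonneg _)
        (IsUltrametricDist.norm_intCast_le_one k b)).trans_lt h2
  · push Not at h
    exact ⟨1, one_pos, le_rfl, h⟩

theorem TitsA_torsion {ρ : ℝ} (h0 : 0 ≤ ρ) (h1 : ρ ≤ 1)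
    (hl : ∀ l : ℕ, l.Prime → ρ < ‖(l : k)‖) {M : Matrix (Fin d) (Fin d) k}
    (hM : TitsA_Sm ρ (M - 1)) (ht : IsOfFinOrder M) : M = 1 := by
  by_contra hne
  have hn0 : 0 < orderOf M := ht.orderOf_pos
  have hn1 : orderOf M ≠ 1 := fun e => hne (orderOf_eq_one_iff.1 e)
  have hp := Nat.minFac_prime hn1
  obtain ⟨m, hm⟩ := Nat.minFac_dvd (orderOf M)
  have hm0 : m ≠ 0 := by
    rintro rfl
    rw [mul_zero] at hm
    exact hn0.ne' hm
  have hlt : m < orderOf M := by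
    calc m = 1 * m := (one_mul m).symm
      _ < (orderOf M).minFac * m := Nat.mul_lt_mul_of_pos_right hp.one_lt (Nat.pos_of_ne_zero hm0)
      _ = orderOf M := hm.symm
  obtain ⟨z, hz, e⟩ := TitsA_pow (TitsA_mono h1 hM) m
  rw [add_sub_cancel] at e
  have hy : TitsA_Sm ρ ((m : k) • (M - 1) + (M - 1) * (M - 1) * z) := by
    refine TitsA_add (TitsA_smul m hM) (TitsA_mono ?_
      (TitsA_mul (mul_nonneg h0 h0) zero_le_one (TitsA_mul h0 h0 hM hM) hz))
    rw [mul_one]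
    exact mul_le_of_le_one_left h0 h1
  have h2 := TitsA_prime h1 (hl _ hp) hy (by
    rw [← e, ← pow_mul, mul_comm, ← hm, pow_orderOf_eq_one])
  rw [h2, add_zero] at e
  exact pow_ne_one_of_lt_orderOf hm0 hlt e

end

theorem finite_of_bdd_torsion {k : Type} [NontriviallyNormedField k] [ProperSpace k]
    [IsUltrametricDist k] [CharZero k] {Λ : Type} [Group Λ] {d : ℕ}
    (R : Λ →* Matrix (Fin d) (Fin d) k) (hb : ∃ C : ℝ, ∀ γ i j, ‖R γ i j‖ ≤ C)
    (ht : ∀ γ, IsOfFinOrder (R γ)) : (range R).Finite := by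
  obtain ⟨C0, hC0⟩ := hb
  obtain ⟨r, hr0, hr1, hr⟩ := TitsA_radius (k := k)
  set C : ℝ := max C0 1 with hC
  have hCpos : 0 < C := lt_max_of_lt_right one_pos
  have hb : ∀ γ, TitsA_Sm C (R γ) := fun γ i j => (hC0 γ i j).trans (le_max_left _ _)
  set ε : ℝ := r / 2 / C with hε
  have hεpos : 0 < ε := by positivity
  have hsep : ∀ γ δ, TitsA_Sm ε (R δ - R γ) → R δ = R γ := by
    intro γ δ h
    have h1 := TitsA_mul hCpos.le hεpos.le (hb γ⁻¹) h
    have e1 : C * ε = r / 2 := by rw [hε]; field_simp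
    rw [e1, mul_sub, ← map_mul, ← map_mul, inv_mul_cancel, map_one] at h1
    have h2 := TitsA_torsion (by positivity) (by linarith)
      (fun l hl => (half_lt_self hr0).trans_le (hr l hl)) h1 (ht _)
    rw [← mul_inv_cancel_left γ δ, map_mul, h2, mul_one]
  let S : Set (Fin d → Fin d → k) := range fun γ i j => R γ i j
  have hS : S ⊆ Metric.closedBall 0 C := by
    rintro _ ⟨γ, rfl⟩
    rw [mem_closedBall_zero_iff, pi_norm_le_iff_of_nonneg hCpos.le]
    intro i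
    rw [pi_norm_le_iff_of_nonneg hCpos.le]
    exact hb γ i
  have htb : TotallyBounded S := (isCompact_closedBall 0 C).totallyBounded.subset hS
  obtain ⟨t, htf, hcov⟩ := Metric.totallyBounded_iff.1 htb (ε / 2) (half_pos hεpos)
  have hfin : S.Finite := by
    refine (htf.biUnion (t := fun y => S ∩ Metric.ball y (ε / 2)) fun y _ =>
      Set.Subsingleton.finite ?_).subset fun x hx => ?_
    · rintro _ ⟨⟨δ, rfl⟩, h1⟩ _ ⟨⟨γ, rfl⟩, h2⟩
      have h3 := dist_triangle_right (fun i j => R δ i j) (fun i j => R γ i j) y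
      have h4 : dist (fun i j => R δ i j) (fun i j => R γ i j) ≤ ε := by
        rw [Metric.mem_ball] at h1 h2
        linarith
      have h5 : R δ = R γ := hsep γ δ fun i j => by
        rw [Matrix.sub_apply, ← dist_eq_norm]
        exact ((dist_le_pi_dist (R δ i) (R γ i) j).trans
          (dist_le_pi_dist (fun i j => R δ i j) (fun i j => R γ i j) i)).trans h4
      simp only [h5]
    · obtain ⟨y, hy, h1⟩ := mem_iUnion₂.1 (hcov hx)
      exact mem_iUnion₂.2 ⟨y, hy, hx, h1⟩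
  exact hfin

end Pool.Agent.P.MP_d483fb_an.Z.SR

end

end

section

open scoped Matrix
open Set

set_option linter.unusedSectionVars false

noncomputable section

namespace Pool.Agent.P.MP_d483fb_an.Z.SR

theorem norm_eig_le_one {Ω : Type} [NormedField Ω] (σ : ℂ →+* Ω) {Λ : Type} [Group Λ] {d : ℕ}
    (R : Λ →* Matrix (Fin d) (Fin d) ℂ) (hb : ∃ C : ℝ, ∀ γ i j, ‖σ (R γ i j)‖ ≤ C) (γ : Λ)
    {z : ℂ} {v : Fin d → ℂ} (hv : v ≠ 0) (h : R γ *ᵥ v = z • v) : ‖σ z‖ ≤ 1 := by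
  obtain ⟨C, hC⟩ := hb
  obtain ⟨i, hi⟩ := Function.ne_iff.1 hv
  have hi' : 0 < ‖σ (v i)‖ := norm_pos_iff.2 ((map_ne_zero σ).2 hi)
  have hn : ∀ n : ℕ, R (γ ^ n) *ᵥ v = z ^ n • v := by
    intro n
    induction n with
    | zero => rw [pow_zero, pow_zero, map_one, Matrix.one_mulVec, one_smul]
    | succ n ih =>
      rw [pow_succ, map_mul, ← Matrix.mulVec_mulVec, h, Matrix.mulVec_smul, ih, smul_smul,
        pow_succ']
  have hb : ∀ n : ℕ, ‖σ z‖ ^ n * ‖σ (v i)‖ ≤ ∑ j, C * ‖σ (v j)‖ := by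
    intro n
    have := congrArg σ (congrFun (hn n) i)
    rw [Pi.smul_apply, smul_eq_mul, map_mul, map_pow σ, Matrix.mulVec, dotProduct, map_sum] at this
    rw [← norm_pow, ← norm_mul, ← this]
    refine (norm_sum_le _ _).trans (Finset.sum_le_sum fun j _ => ?_)
    rw [map_mul, norm_mul]
    exact mul_le_mul_of_nonneg_right (hC _ _ _) (norm_nonneg _)
  by_contra hc
  obtain ⟨n, hn⟩ := pow_unbounded_of_one_lt ((∑ j, C * ‖σ (v j)‖) / ‖σ (v i)‖) (not_le.1 hc)
  rw [div_lt_iff₀ hi'] at hn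
  exact absurd (hb n) (not_le.2 hn)

theorem norm_eig_eq_one {Ω : Type} [NormedField Ω] (σ : ℂ →+* Ω) {Λ : Type} [Group Λ] {d : ℕ}
    (R : Λ →* Matrix (Fin d) (Fin d) ℂ) (hb : ∃ C : ℝ, ∀ γ i j, ‖σ (R γ i j)‖ ≤ C) (γ : Λ)
    {z : ℂ} {v : Fin d → ℂ} (hv : v ≠ 0) (h : R γ *ᵥ v = z • v) : ‖σ z‖ = 1 := by
  have h1 : z • R γ⁻¹ *ᵥ v = v := by
    rw [← Matrix.mulVec_smul, ← h, Matrix.mulVec_mulVec, ← map_mul, inv_mul_cancel, map_one,
      Matrix.one_mulVec]
  have hz : z ≠ 0 := by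
    rintro rfl
    rw [zero_smul] at h1
    exact hv h1.symm
  have h2 : R γ⁻¹ *ᵥ v = z⁻¹ • v := by rw [eq_inv_smul_iff₀ hz, h1]
  have h3 := norm_eig_le_one σ R hb γ⁻¹ hv h2
  rw [map_inv₀, norm_inv] at h3
  exact le_antisymm (norm_eig_le_one σ R hb γ hv h)
    ((inv_le_one₀ (norm_pos_iff.2 ((map_ne_zero σ).2 hz))).1 h3)

open Polynomial ComplexOrder in
theorem pow_eq_one_of_normal {d : ℕ} {M : Matrix (Fin d) (Fin d) ℂ} {N : ℕ}
    (hT : (M ^ N - 1)ᴴ * (M ^ N - 1) = (M ^ N - 1) * (M ^ N - 1)ᴴ) (s : Multiset ℂ)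
    (hs : ∀ z ∈ s, z ^ N = 1) (W : Matrix (Fin d) (Fin d) ℂ)
    (hW : aeval M (s.map fun z => X - C z).prod * W = 0) : (M ^ N - 1) * W = 0 := by
  induction s using Multiset.induction_on generalizing W with
  | empty =>
    rw [Multiset.map_zero, Multiset.prod_zero, map_one, one_mul] at hW
    rw [hW, mul_zero]
  | cons z s ih =>
    rw [Multiset.map_cons, Multiset.prod_cons, map_mul, map_sub, aeval_X, aeval_C, mul_assoc,
      Algebra.algebraMap_eq_smul_one, sub_mul, smul_mul_assoc, one_mul, sub_eq_zero] at hW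
    set P := aeval M (s.map fun z => X - C z).prod with hP
    have h1 : ∀ n : ℕ, M ^ n * (P * W) = z ^ n • (P * W) := by
      intro n
      induction n with
      | zero => rw [pow_zero, pow_zero, one_mul, one_smul]
      | succ n ih' => rw [pow_succ, mul_assoc, hW, mul_smul_comm, ih', smul_smul, pow_succ']
    have h2 : (M ^ N - 1) * (P * W) = 0 := by
      rw [sub_mul, h1, hs z (Multiset.mem_cons_self _ _), one_smul, one_mul, sub_self]
    have hc : Commute (M ^ N - 1) P := by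
      have : Commute (M ^ N - 1) M :=
        ((Commute.refl M).pow_left N).sub_left (Commute.one_left M)
      rw [hP, aeval_eq_sum_range]
      exact Commute.sum_right _ _ _ fun i _ => (this.pow_right i).smul_right _
    have h3 := ih (fun z hz => hs z (Multiset.mem_cons_of_mem hz)) ((M ^ N - 1) * W)
      (by rw [← mul_assoc, ← hc.eq, mul_assoc, h2])
    have h4 : (M ^ N - 1)ᴴ * ((M ^ N - 1) * W) = 0 := by
      rw [← Matrix.conjTranspose_mul_self_eq_zero, Matrix.conjTranspose_mul,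
        Matrix.conjTranspose_conjTranspose, mul_assoc, ← mul_assoc (M ^ N - 1), ← hT, mul_assoc,
        h3, mul_zero, mul_zero]
    rw [← Matrix.conjTranspose_mul_self_eq_zero, Matrix.conjTranspose_mul, mul_assoc, h4, mul_zero]

theorem isOfFinOrder_of_eig {d : ℕ} {M : Matrix (Fin d) (Fin d) ℂ}
    (hM : M ∈ Matrix.unitaryGroup (Fin d) ℂ)
    (h : ∀ (z : ℂ) (v : Fin d → ℂ), v ≠ 0 → M *ᵥ v = z • v → IsOfFinOrder z) : IsOfFinOrder M := by
  have h1 : ∀ z ∈ M.charpoly.roots, IsOfFinOrder z := by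
    intro z hz
    have h0 := Polynomial.isRoot_of_mem_roots hz
    rw [Polynomial.IsRoot, Matrix.eval_charpoly, ← Matrix.exists_mulVec_eq_zero_iff] at h0
    obtain ⟨v, hv, h0⟩ := h0
    refine h z v hv ?_
    rw [Matrix.sub_mulVec, sub_eq_zero, Matrix.scalar_apply, ← Matrix.smul_one_eq_diagonal,
      Matrix.smul_mulVec, Matrix.one_mulVec] at h0
    exact h0.symm
  set N := (M.charpoly.roots.map orderOf).prod with hN
  have hN0 : 0 < N := Multiset.prod_pos fun k hk => by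
    obtain ⟨z, hz, rfl⟩ := Multiset.mem_map.1 hk
    exact (h1 z hz).orderOf_pos
  have h2 : ∀ z ∈ M.charpoly.roots, z ^ N = 1 := fun z hz =>
    orderOf_dvd_iff_pow_eq_one.1 (Multiset.dvd_prod (Multiset.mem_map_of_mem _ hz))
  have hU := pow_mem hM N
  have hT : (M ^ N - 1)ᴴ * (M ^ N - 1) = (M ^ N - 1) * (M ^ N - 1)ᴴ := by
    have e1 : (M ^ N)ᴴ * M ^ N = 1 := (Unitary.mem_iff.1 hU).1
    have e2 : M ^ N * (M ^ N)ᴴ = 1 := (Unitary.mem_iff.1 hU).2
    rw [Matrix.conjTranspose_sub, Matrix.conjTranspose_one]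
    simp only [sub_mul, mul_sub, e1, e2, one_mul, mul_one]
    abel
  have h3 := pow_eq_one_of_normal hT _ h2 1 (by
    rw [← (IsAlgClosed.splits M.charpoly).eq_prod_roots_of_monic M.charpoly_monic,
      Matrix.aeval_self_charpoly, zero_mul])
  rw [mul_one, sub_eq_zero] at h3
  exact isOfFinOrder_iff_pow_eq_one.2 ⟨N, hN0, h3⟩

theorem exists_local_field (p : ℕ) [Fact p.Prime] {Λ : Type} [Group Λ] [Group.FG Λ] {d : ℕ}
    (R : Λ →* Matrix (Fin d) (Fin d) (PadicAlgCl p)) :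
    ∃ (k : Type) (_ : NontriviallyNormedField k) (_ : ProperSpace k) (_ : IsUltrametricDist k)
      (_ : CharZero k) (ι : k →+* PadicAlgCl p) (R' : Λ →* Matrix (Fin d) (Fin d) k),
      (∀ x, ‖ι x‖ = ‖x‖) ∧ ∀ γ i j, ι (R' γ i j) = R γ i j := by
  obtain ⟨S, hS, hfin⟩ := Monoid.fg_iff.1 (Group.fg_iff_monoid_fg.1 ‹Group.FG Λ›)
  let T : Set (PadicAlgCl p) :=
    (fun q : Λ × Fin d × Fin d => R q.1 q.2.1 q.2.2) '' (S ×ˢ univ)
  have hT : T.Finite := (hfin.prod finite_univ).image _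
  haveI := hT.to_subtype
  let k := IntermediateField.adjoin ℚ_[p] T
  haveI : FiniteDimensional ℚ_[p] k :=
    IntermediateField.finiteDimensional_adjoin fun x _ => Algebra.IsIntegral.isIntegral x
  have hmem : ∀ γ i j, R γ i j ∈ k := by
    intro γ
    have hγ : γ ∈ Submonoid.closure S := by rw [hS]; trivial
    induction hγ using Submonoid.closure_induction with
    | mem x hx =>
      exact fun i j => IntermediateField.subset_adjoin _ _ ⟨(x, i, j), ⟨hx, trivial⟩, rfl⟩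
    | one =>
      intro i j
      rw [map_one, Matrix.one_apply]
      split_ifs
      · exact one_mem _
      · exact zero_mem _
    | mul x y _ _ hx hy =>
      intro i j
      rw [map_mul, Matrix.mul_apply]
      exact sum_mem fun l _ => mul_mem (hx i l) (hy l j)
  let ι : k →+* PadicAlgCl p := k.val.toRingHom
  have hι : Function.Injective (ι.mapMatrix (m := Fin d)) := Matrix.map_injective ι.injective
  refine ⟨k, inferInstance, FiniteDimensional.proper ℚ_[p] k, IsUltrametricDist.subtype _,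
    inferInstance, ι,
    { toFun := fun γ => Matrix.of fun i j => ⟨R γ i j, hmem γ i j⟩
      map_one' := hι ?_
      map_mul' := fun x y => hι ?_ }, fun _ => rfl, fun _ _ _ => rfl⟩
  · rw [map_one ι.mapMatrix]
    exact map_one R
  · rw [map_mul ι.mapMatrix]
    exact map_mul R x y

end Pool.Agent.P.MP_d483fb_an.Z.SR

end

end

section

open scoped Matrix
open Set

set_option linter.unusedSectionVars false

noncomputable section

namespace Pool.Agent.P.MP_d483fb_an.Z.SR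

/-- A representation twisted entrywise by a ring homomorphism. -/
def twistRep {Λ : Type} [Group Λ] {d : ℕ} {K L : Type} [CommRing K] [CommRing L] (σ : K →+* L)
    (R : Λ →* Matrix (Fin d) (Fin d) K) : Λ →* Matrix (Fin d) (Fin d) L :=
  (σ.mapMatrix : Matrix (Fin d) (Fin d) K →+* Matrix (Fin d) (Fin d) L).toMonoidHom.comp R

theorem twistRep_apply {Λ : Type} [Group Λ] {d : ℕ} {K L : Type} [CommRing K] [CommRing L]
    (σ : K →+* L) (R : Λ →* Matrix (Fin d) (Fin d) K) (γ : Λ) (i j : Fin d) :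
    twistRep σ R γ i j = σ (R γ i j) := rfl

theorem exists_equiv_padic (p : ℕ) [Fact p.Prime] : Nonempty (ℂ ≃+* PadicAlgCl p) := by
  have hK : Cardinal.aleph0 < Cardinal.mk ℂ := by
    rw [Cardinal.mk_complex]; exact Cardinal.aleph0_lt_continuum
  obtain ⟨σ, -⟩ := exists_ringEquiv_ext (R := ℤ) hK (mk_padicAlgCl p).symm (Int.castRingHom ℂ)
    (Int.castRingHom (PadicAlgCl p)) (RingHom.injective_int _) (RingHom.injective_int _)
  exact ⟨σ⟩

theorem tits {Λ : Type} [Group Λ] [Group.FG Λ] {d : ℕ} (R : Λ →* Matrix (Fin d) (Fin d) ℂ)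
    (hu : ∀ γ, R γ ∈ Matrix.unitaryGroup (Fin d) ℂ) (hinf : (range R).Infinite) :
    (∃ σ : ℂ ≃+* ℂ, ¬ ∃ C : ℝ, ∀ γ i j, ‖σ (R γ i j)‖ ≤ C) ∨
    ∃ (k : Type) (_ : NontriviallyNormedField k) (_ : ProperSpace k) (_ : IsUltrametricDist k)
      (Ω : Type) (_ : Field Ω) (ι : k →+* Ω) (σ : ℂ ≃+* Ω) (R' : Λ →* Matrix (Fin d) (Fin d) k),
      (∀ γ i j, ι (R' γ i j) = σ (R γ i j)) ∧ ¬ ∃ C : ℝ, ∀ γ i j, ‖R' γ i j‖ ≤ C := by
  by_contra hcon
  rw [not_or] at hcon
  obtain ⟨h1, h2⟩ := hcon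
  have hA : ∀ σ : ℂ ≃+* ℂ, ∃ C : ℝ, ∀ γ i j, ‖σ (R γ i j)‖ ≤ C := by
    intro σ
    by_contra h
    exact h1 ⟨σ, h⟩
  -- the local fields
  have hloc : ∀ (p : ℕ) [Fact p.Prime] (σ : ℂ ≃+* PadicAlgCl p),
      ∃ (k : Type) (_ : NontriviallyNormedField k) (_ : ProperSpace k) (_ : IsUltrametricDist k)
        (_ : CharZero k) (ι : k →+* PadicAlgCl p) (R' : Λ →* Matrix (Fin d) (Fin d) k),
        (∀ x, ‖ι x‖ = ‖x‖) ∧ (∀ γ i j, ι (R' γ i j) = σ (R γ i j)) ∧
          ∃ C : ℝ, ∀ γ i j, ‖R' γ i j‖ ≤ C := by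
    intro p _ σ
    obtain ⟨k, i1, i2, i3, i4, ι, R', hn, hR⟩ :=
      exists_local_field p (twistRep (σ : ℂ →+* PadicAlgCl p) R)
    refine ⟨k, i1, i2, i3, i4, ι, R', hn, fun γ i j => hR γ i j, ?_⟩
    by_contra h
    exact h2 ⟨k, i1, i2, i3, PadicAlgCl p, inferInstance, ι, σ, R', fun γ i j => hR γ i j, h⟩
  have hP : ∀ (p : ℕ) [Fact p.Prime] (σ : ℂ ≃+* PadicAlgCl p),
      ∃ C : ℝ, ∀ γ i j, ‖σ (R γ i j)‖ ≤ C := by
    intro p _ σ
    obtain ⟨k, i1, i2, i3, i4, ι, R', hn, hR, C, hC⟩ := hloc p σ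
    exact ⟨C, fun γ i j => by rw [← hR, hn]; exact hC γ i j⟩
  have hfin : ∀ γ, IsOfFinOrder (R γ) := by
    intro γ
    refine isOfFinOrder_of_eig (hu γ) fun z v hv h => ?_
    refine isOfFinOrder_of_norm z (fun σ => ?_) (fun p _ σ => ?_)
    · exact norm_eig_eq_one (σ : ℂ →+* ℂ) R (hA σ) γ hv h
    · exact (norm_eig_eq_one (σ : ℂ →+* PadicAlgCl p) R (hP p σ) γ hv h).le
  obtain ⟨σ⟩ := exists_equiv_padic 2
  obtain ⟨k, i1, i2, i3, i4, ι, R', hn, hR, hC⟩ := hloc 2 σ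
  have hinj : ∀ γ δ, R' γ = R' δ ↔ R γ = R δ := by
    intro γ δ
    constructor
    · intro h
      ext i j
      apply σ.injective
      rw [← hR, ← hR, h]
    · intro h
      ext i j
      apply ι.injective
      rw [hR, hR, h]
  have ht : ∀ γ, IsOfFinOrder (R' γ) := by
    intro γ
    obtain ⟨n, hn0, hn1⟩ := isOfFinOrder_iff_pow_eq_one.1 (hfin γ)
    refine isOfFinOrder_iff_pow_eq_one.2 ⟨n, hn0, ?_⟩
    rw [← map_pow, ← map_one R', hinj, map_pow, hn1, map_one]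
  have hf := finite_of_bdd_torsion R' hC ht
  apply hinf
  classical
  let f : Matrix (Fin d) (Fin d) k → Matrix (Fin d) (Fin d) ℂ := fun M =>
    Matrix.of fun i j => σ.symm (ι (M i j))
  refine (hf.image f).subset ?_
  rintro _ ⟨γ, rfl⟩
  refine ⟨R' γ, ⟨γ, rfl⟩, ?_⟩
  ext i j
  simp [f, hR]

end Pool.Agent.P.MP_d483fb_an.Z.SR

end

end
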