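import Pool.Agent.P.MP_d483fb_an.M.A05

section

/-!
Bounded densities and exponential tails of the height.
-/

open scoped Topology Pointwise ENNReal
open MeasureTheory Filter Set

set_option linter.unusedSectionVars false

namespace Pool.Agent.P.MP_d483fb_an.Z

variable {G : Type} [Group G] [TopologicalSpace G] [IsTopologicalGroup G] [T2Space G]
  [LocallyCompactSpace G] [SecondCountableTopology G] [MeasurableSpace G] [BorelSpace G]
  {X : Type} [TopologicalSpace X] [T2Space X] [SecondCountableTopology X] [MeasurableSpace X]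
  [BorelSpace X] [MulAction G X] [ContinuousSMul G X]
  {μ : Measure X} [IsProbabilityMeasure μ] [SMulInvariantMeasure G X μ]
  {l : Len G} {Far : G → ℝ → Prop} {S : Set G}

namespace Base

variable (B : Base l X)

theorem pos_ball (μ : Measure X) [IsProbabilityMeasure μ] [SMulInvariantMeasure G X μ] :
    μ {x | B.ht x ≤ 1} ≠ 0 := by
  intro h0
  set U : Set X := (fun g : G => g • B.o) '' interior {g | l.len g ≤ 1} with hU
  have hUo : IsOpen U := B.opn _ isOpen_interior
  have hU0 : μ U = 0 := by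
    refine measure_mono_null ?_ h0
    rintro _ ⟨g, hg, rfl⟩
    exact (B.ht_smul_o g).trans (interior_subset (s := {g | l.len g ≤ 1}) hg)
  have hcov : ∀ x : X, ∃ g : G, x ∈ (fun y => g • y) ⁻¹' U := by
    intro x
    obtain ⟨g, rfl⟩ := B.trans x
    refine ⟨g⁻¹, 1, mem_interior_iff_mem_nhds.2 l.nhds, ?_⟩
    simp
  obtain ⟨T, hT, hTU⟩ := TopologicalSpace.isOpen_iUnion_countable
    (fun g : G => (fun y : X => g • y) ⁻¹' U) (fun g => hUo.preimage (by fun_prop))
  have : μ (⋃ g ∈ T, (fun y : X => g • y) ⁻¹' U) = 0 := by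
    rw [measure_biUnion_null_iff hT]
    intro g _
    rw [SMulInvariantMeasure.measure_preimage_smul g hUo.measurableSet, hU0]
  rw [hTU, iUnion_eq_univ_iff.2 hcov, measure_univ] at this
  exact one_ne_zero this

/-- A random element of the unit ball gives a bounded density. -/
theorem exists_bd (μ : Measure X) [IsProbabilityMeasure μ] [SMulInvariantMeasure G X μ] :
    ∃ (τ : Measure G) (C : ℝ≥0∞), IsProbabilityMeasure τ ∧ C ≠ ∞ ∧ 1 ≤ C ∧
      (∀ᵐ v ∂τ, l.len v ≤ 1) ∧
      ∀ g w : G, l.len w ≤ 1 → ∀ U : Set X, MeasurableSet U →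
        τ {v | (g * v * w) • B.o ∈ U} ≤ C * μ U := by
  set lam : Measure G := (Measure.haar : Measure G).inv with hlam
  set Q : Set G := {g | l.len g ≤ 1} with hQ
  have hQm : MeasurableSet Q := (l.isClosed_le 1).measurableSet
  have hQ0 : lam Q ≠ 0 := (Measure.measure_pos_of_mem_nhds lam l.nhds).ne'
  have hfin : ∀ n, lam {g | l.len g ≤ n} ≠ ∞ := fun n => (l.cpt n).measure_lt_top.ne
  have hp := B.pos_ball μ
  set C : ℝ≥0∞ := (lam Q)⁻¹ * (lam {g | l.len g ≤ 3} / μ {x | B.ht x ≤ 1}) with hC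
  refine ⟨ProbabilityTheory.cond lam Q, max C 1,
    ProbabilityTheory.cond_isProbabilityMeasure_of_finite hQ0 (hfin 1), ?_, le_max_right _ _,
    ProbabilityTheory.ae_cond_mem hQm, ?_⟩
  · refine (max_lt ?_ ENNReal.one_lt_top).ne
    exact ENNReal.mul_lt_top (ENNReal.inv_lt_top.2 (pos_iff_ne_zero.2 hQ0))
      (ENNReal.div_lt_top (hfin 3) hp)
  intro g w hw U hU
  set U' : Set X := (fun y => g • y) ⁻¹' U with hU'
  have hU'm : MeasurableSet U' := hU.preimage (by fun_prop)
  have hμ : μ U' = μ U := SMulInvariantMeasure.measure_preimage_smul g hU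
  set t := lam (Q ∩ {v | (g * v * w) • B.o ∈ U}) with ht
  set E : Set (X × G) := {p | l.len p.2 ≤ 3 ∧ p.2 • p.1 ∈ U'} with hE
  have hEm : MeasurableSet E := by
    refine MeasurableSet.inter ?_ ?_
    · exact (l.isClosed_le 3).measurableSet.preimage measurable_snd
    · exact hU'm.preimage (Continuous.measurable (by fun_prop))
  have h1 : ∀ x, B.ht x ≤ 1 → t ≤ lam (Prod.mk x ⁻¹' E) := by
    intro x hx
    obtain ⟨w', hw', rfl⟩ := B.ht_le_iff.1 hx
    rw [← measure_preimage_mul_right lam (w * w'⁻¹) (Prod.mk (w' • B.o) ⁻¹' E)]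
    refine measure_mono ?_
    rintro v ⟨hv, hvU⟩
    refine ⟨?_, ?_⟩
    · have := l.len_mul v (w * w'⁻¹)
      have := l.len_mul w w'⁻¹
      rw [l.len_inv] at this
      have : l.len v ≤ 1 := hv
      show l.len (v * (w * w'⁻¹)) ≤ 3
      omega
    · show g • (v * (w * w'⁻¹)) • w' • B.o ∈ U
      have : (g * v * w) • B.o ∈ U := hvU
      convert this using 1
      simp only [← mul_smul]
      congr 1
      group
  have h2 : (μ.prod lam) E = lam {g | l.len g ≤ 3} * μ U := by
    rw [Measure.prod_apply_symm hEm]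
    have : ∀ u : G, μ ((fun x => (x, u)) ⁻¹' E) = {g | l.len g ≤ 3}.indicator (fun _ => μ U) u := by
      intro u
      by_cases hu : l.len u ≤ 3
      · rw [indicator_of_mem (show u ∈ {g | l.len g ≤ 3} from hu), ← hμ,
          ← SMulInvariantMeasure.measure_preimage_smul u hU'm]
        congr 1
        ext x
        simp [hE, hu]
      · rw [indicator_of_notMem (show u ∉ {g | l.len g ≤ 3} from hu)]
        have : (fun x => (x, u)) ⁻¹' E = ∅ := by
          ext x
          simp [hE, hu]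
        rw [this, measure_empty]
    simp_rw [this]
    rw [lintegral_indicator (l.isClosed_le 3).measurableSet, setLIntegral_const, mul_comm]
  have h3 : t * μ {x | B.ht x ≤ 1} ≤ (μ.prod lam) E := by
    rw [Measure.prod_apply hEm, ← setLIntegral_const]
    refine le_trans ?_ (setLIntegral_le_lintegral {x | B.ht x ≤ 1} _)
    exact setLIntegral_mono' (B.isCompact_le 1).isClosed.measurableSet h1
  have h4 : t ≤ lam {g | l.len g ≤ 3} / μ {x | B.ht x ≤ 1} * μ U := by
    rw [h2] at h3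
    rw [ENNReal.div_eq_inv_mul, mul_assoc]
    rw [← ENNReal.le_div_iff_mul_le (Or.inl hp) (Or.inl (measure_ne_top _ _)),
      ENNReal.div_eq_inv_mul] at h3
    exact h3
  rw [ProbabilityTheory.cond_apply hQm]
  calc (lam Q)⁻¹ * t ≤ (lam Q)⁻¹ * (lam {g | l.len g ≤ 3} / μ {x | B.ht x ≤ 1} * μ U) := by gcongr
    _ = C * μ U := by rw [hC, mul_assoc]
    _ ≤ max C 1 * μ U := by gcongr; exact le_max_left _ _

theorem smul_le_subset (t : ℕ) :
    interior {g : G | l.len g ≤ 1} • {x | B.ht x ≤ t} ⊆ {x | B.ht x ≤ t + 1} := by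
  rintro _ ⟨g, hg, x, hx, rfl⟩
  have h1 : l.len g ≤ 1 := interior_subset (s := {g | l.len g ≤ 1}) hg
  have h2 : B.ht x ≤ t := hx
  have := B.ht_smul g x
  show B.ht (g • x) ≤ t + 1
  omega

theorem smul_lt_subset (t : ℕ) :
    interior {g : G | l.len g ≤ 1} • {x | t + 1 < B.ht x} ⊆ {x | t < B.ht x} := by
  rintro _ ⟨g, hg, x, hx, rfl⟩
  have h1 : l.len g ≤ 1 := interior_subset (s := {g | l.len g ≤ 1}) hg
  have h2 : t + 1 < B.ht x := hx
  have := B.ht_le_smul g x
  show t < B.ht (g • x)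
  omega

/-- Exponential tails of the height. -/
theorem tail (P : Geo l Far S) (E : Equi l Far B.o μ) :
    ∃ C c : ℝ, 0 < c ∧
      ∀ t : ℕ, μ {x | t < B.ht x} ≤ ENNReal.ofReal (C * Real.exp (-c * t)) := by
  obtain ⟨E0, hE0⟩ := E.eq (interior {g : G | l.len g ≤ 1}) isOpen_interior
    (mem_interior_iff_mem_nhds.2 l.nhds)
  have := E.prob 0
  set L : ℕ := l.len P.b + 1 with hL
  have hL0 : (0 : ℝ) < L := by positivity
  have hC0 : (0 : ℝ) < P.C := by exact_mod_cast P.C_pos
  have key : ∀ T : ℕ, P.C ≤ T → μ {x | T * L + 2 < B.ht x} ≤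
      ENNReal.ofReal (E0 * Real.exp (-E.κ * (T / P.C))) := by
    intro T hT
    have h := hE0 0 (P.b ^ T) _ (P.far T hT) {x | B.ht x ≤ T * L + 1}
      (B.isCompact_le _).isClosed.measurableSet
    have h1 : E.σ 0 {δ | (P.b ^ T * δ) • B.o ∈ {x | B.ht x ≤ T * L + 1}} = 1 := by
      refine le_antisymm prob_le_one ?_
      rw [← measure_univ (μ := E.σ 0)]
      refine measure_mono_ae ?_
      filter_upwards [E.small 0] with δ hδ _
      have h2 := hδ 1 (by rw [l.len_one])
      rw [one_mul, inv_one, mul_one] at h2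
      have := B.ht_smul_o (P.b ^ T * δ)
      have := l.len_mul (P.b ^ T) δ
      have := l.len_pow P.b T
      show B.ht ((P.b ^ T * δ) • B.o) ≤ T * L + 1
      have : T * l.len P.b ≤ T * L := Nat.mul_le_mul_left _ (by omega)
      omega
    rw [h1] at h
    have h2 : μ (interior {g : G | l.len g ≤ 1} • {x | B.ht x ≤ T * L + 1}) ≤
        μ {x | B.ht x ≤ T * L + 2} := measure_mono (B.smul_le_subset _)
    have h3 : {x | T * L + 2 < B.ht x} = {x | B.ht x ≤ T * L + 2}ᶜ := by
      ext x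
      simp
    rw [h3, prob_compl_eq_one_sub (B.isCompact_le _).isClosed.measurableSet, tsub_le_iff_left]
    refine h.trans (add_le_add h2 (le_of_eq ?_))
    congr 3
    simp
  set c : ℝ := E.κ / (L * P.C) with hc
  have hc0 : 0 < c := div_pos E.κ_pos (by positivity)
  set t0 : ℕ := P.C * L + 2 with ht0
  refine ⟨max (|E0| * Real.exp (c * (L + 2))) (Real.exp (c * t0)), c, hc0, fun t => ?_⟩
  rcases le_or_gt t0 t with ht | ht
  · set T : ℕ := (t - 2) / L with hT
    have hL' : 0 < L := by omega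
    have hT1 : P.C ≤ T := (Nat.le_div_iff_mul_le hL').2 (by omega)
    have hT2 : T * L + 2 ≤ t := by
      have : T * L ≤ t - 2 := Nat.div_mul_le_self (t - 2) L
      omega
    have hT3 : t < T * L + L + 2 := by
      have : t - 2 < T * L + L := Nat.lt_div_mul_add (a := t - 2) hL'
      omega
    refine (measure_mono ?_).trans ((key T hT1).trans (ENNReal.ofReal_le_ofReal ?_))
    · intro x hx
      have : t < B.ht x := hx
      show T * L + 2 < B.ht x
      omega
    · refine le_trans ?_ (mul_le_mul_of_nonneg_right (le_max_left _ _) (Real.exp_pos _).le)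
      rw [mul_assoc, ← Real.exp_add]
      refine mul_le_mul (le_abs_self _) (Real.exp_le_exp.2 ?_) (Real.exp_pos _).le (abs_nonneg _)
      have h1 : (t : ℝ) ≤ T * L + L + 2 := by exact_mod_cast hT3.le
      have h2 : E.κ * (T / P.C) = c * (T * L) := by rw [hc]; field_simp
      nlinarith
  · refine prob_le_one.trans ?_
    rw [← ENNReal.ofReal_one]
    refine ENNReal.ofReal_le_ofReal ?_
    refine le_trans ?_ (mul_le_mul_of_nonneg_right (le_max_right _ _) (Real.exp_pos _).le)
    rw [← Real.exp_add]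
    refine Real.one_le_exp ?_
    have : (t : ℝ) ≤ t0 := by exact_mod_cast ht.le
    nlinarith

end Base

end Pool.Agent.P.MP_d483fb_an.Z


end

section

/-!
The random path from the identity to an element of the lattice, cut into pieces.
-/

open scoped Topology Pointwise ENNReal
open MeasureTheory Filter Set

set_option linter.unusedSectionVars false

namespace Pool.Agent.P.MP_d483fb_an.Z

variable {G : Type} [Group G] [TopologicalSpace G] [IsTopologicalGroup G] [T2Space G]
  [LocallyCompactSpace G] [SecondCountableTopology G] [MeasurableSpace G] [BorelSpace G]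
  {X : Type} [TopologicalSpace X] [T2Space X] [SecondCountableTopology X] [MeasurableSpace X]
  [BorelSpace X] [MulAction G X] [ContinuousSMul G X]
  {μ : Measure X} [IsProbabilityMeasure μ] [SMulInvariantMeasure G X μ]
  {l : Len G} {Far : G → ℝ → Prop} {S : Set G}

theorem Len.integrable_comp {Ω : Type} [MeasurableSpace Ω] {σ : Measure Ω} [IsFiniteMeasure σ]
    {c : G → ℝ} (hc : Measurable c) (hb : ∀ R, ∃ M, ∀ g, l.len g ≤ R → |c g| ≤ M)
    {φ : Ω → G} (hφ : Measurable φ) {R : ℕ} (hR : ∀ᵐ w ∂σ, l.len (φ w) ≤ R) :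
    Integrable (fun w => c (φ w)) σ := by
  obtain ⟨M, hM⟩ := hb R
  refine Integrable.of_bound (hc.comp hφ).aestronglyMeasurable M ?_
  filter_upwards [hR] with w hw
  exact hM _ hw

theorem Chain.int {P : G → ℕ → G → Prop} {σ : Measure G} [IsProbabilityMeasure σ]
    (hσ : ∀ᵐ δ ∂σ, l.len δ ≤ 1) {Ψ : G → ℝ} {cost : G → ℕ → G → ℝ} {K R : ℕ} {Bd : ℝ}
    (hBd : 0 ≤ Bd) (hm : ∀ s N, Measurable (cost s N))
    (hb : ∀ s N R, ∃ M, ∀ g, l.len g ≤ R → |cost s N g| ≤ M)
    (hK : ∀ s N y, P s N y → l.len (s ^ N) ≤ K)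
    (hΨ : ∀ s N y g, P s N y → Ψ (s ^ N * g) ≤ Ψ g + cost s N g)
    (hI : ∀ s N y, P s N y → l.len y ≤ R → ∫ δ, cost s N (y * δ) ∂σ ≤ Bd)
    {m : ℕ} {y y' : G} (h : Chain P m y y') (hy : l.len y + m * K ≤ R) :
    ∃ c : G → ℝ, Integrable c σ ∧ ∫ δ, c δ ∂σ ≤ m * Bd ∧ ∀ δ, Ψ (y' * δ) ≤ Ψ (y * δ) + c δ := by
  induction h with
  | nil m y => exact ⟨fun _ => 0, integrable_zero _ _ _, by simp; positivity, fun δ => by simp⟩
  | @cons m N s y y' hP _ ih =>
    have h1 := l.len_mul (s ^ N) y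
    have h2 := hK s N y hP
    obtain ⟨c, hc, hci, hcΨ⟩ := ih (by nlinarith)
    have hi : Integrable (fun δ => cost s N (y * δ)) σ := by
      refine l.integrable_comp (hm s N) (hb s N) (by fun_prop) (R := l.len y + 1) ?_
      filter_upwards [hσ] with δ hδ
      have := l.len_mul y δ
      omega
    refine ⟨fun δ => cost s N (y * δ) + c δ, hi.add hc, ?_, fun δ => ?_⟩
    · rw [integral_add hi hc]
      have := hI s N y hP (by omega)
      push_cast
      linarith
    · have := hcΨ δ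
      have := hΨ s N y (y * δ) hP
      rw [← mul_assoc] at this
      linarith

namespace Base

variable (B : Base l X)

/-- A random piece of an orbit all of whose points are well distributed. -/
structure Nice (μ : Measure X) (S : Set G) (C : ℕ) (C₀ : ℝ≥0∞) (E : Set G → ℝ) (n : ℕ)
    (τ : Measure G) (s : G) (N : ℕ) : Prop where
  prob : IsProbabilityMeasure τ
  len_s : l.len s ≤ C
  mem : s ∈ S ∨ N ≤ 1
  le : N ≤ C * (n + 1)
  supp : ∀ᵐ g ∂τ, l.len g ≤ C * (n + 1)
  good : ∀ j ≤ N, ∀ W : Set G, IsOpen W → 1 ∈ W → ∀ U : Set X, MeasurableSet U →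
    τ {g | (s ^ j * g) • B.o ∈ U} ≤ C₀ * μ (W • U) + ENNReal.ofReal (E W * Real.exp (-n))

theorem leg {τ σ : Measure G} [IsProbabilityMeasure τ] [IsProbabilityMeasure σ] {C₀ : ℝ≥0∞}
    (hτ : ∀ᵐ v ∂τ, l.len v ≤ 1)
    (hbd : ∀ g w : G, l.len w ≤ 1 → ∀ U : Set X, MeasurableSet U →
      τ {v | (g * v * w) • B.o ∈ U} ≤ C₀ * μ U)
    (h γ : G) (hγ : γ • B.o = B.o) (hσ : ∀ᵐ δ ∂σ, l.len δ ≤ 1)
    (hσ' : ∀ᵐ δ ∂σ, l.len (γ * δ * γ⁻¹) ≤ 1) {C n N : ℕ} {E : Set G → ℝ} {s : G}
    (hs : l.len s ≤ C) (hS : s ∈ S) (hN : N ≤ C * (n + 1))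
    (hl : l.len h + l.len γ + 2 ≤ C * (n + 1)) {c : G → ℝ} (hc : Measurable c)
    (hb : ∀ R, ∃ M, ∀ g, l.len g ≤ R → |c g| ≤ M) {Bd : ℝ}
    (hI : ∀ τ', B.Nice μ S C C₀ E n τ' s N → ∫ g, c g ∂τ' ≤ Bd) :
    ∃ v, l.len v ≤ 1 ∧ Integrable (fun δ => c (h * v * γ * δ)) σ ∧
      ∫ δ, c (h * v * γ * δ) ∂σ ≤ Bd := by
  set φ : G × G → G := fun p => h * p.1 * γ * p.2 with hφ
  have hφm : Measurable φ := Continuous.measurable (by fun_prop)
  have hsupp : ∀ᵐ p ∂τ.prod σ, l.len (φ p) ≤ C * (n + 1) := by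
    have h1 : ∀ᵐ p ∂τ.prod σ, l.len p.1 ≤ 1 := Measure.quasiMeasurePreserving_fst.ae hτ
    have h2 : ∀ᵐ p ∂τ.prod σ, l.len p.2 ≤ 1 := Measure.quasiMeasurePreserving_snd.ae hσ
    filter_upwards [h1, h2] with p h1 h2
    have := l.len_mul (h * p.1 * γ) p.2
    have := l.len_mul3 h p.1 γ
    show l.len (h * p.1 * γ * p.2) ≤ _
    omega
  have hn : B.Nice μ S C C₀ E n ((τ.prod σ).map φ) s N := by
    refine ⟨Measure.isProbabilityMeasure_map hφm.aemeasurable, hs, Or.inl hS, hN, ?_, ?_⟩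
    · exact (ae_map_iff hφm.aemeasurable (l.isClosed_le _).measurableSet).2 hsupp
    · intro j _ W _ hW U hU
      have hm : MeasurableSet {g : G | (s ^ j * g) • B.o ∈ U} :=
        hU.preimage (Continuous.measurable (by fun_prop))
      rw [Measure.map_apply hφm hm, Measure.prod_apply_symm (hφm hm)]
      refine le_trans ?_ le_self_add
      calc ∫⁻ δ, τ ((fun v => (v, δ)) ⁻¹' (φ ⁻¹' {g : G | (s ^ j * g) • B.o ∈ U})) ∂σ
          ≤ ∫⁻ _, C₀ * μ U ∂σ := by
            refine lintegral_mono_ae ?_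
            filter_upwards [hσ'] with δ hδ
            refine le_trans (le_of_eq ?_) (hbd (s ^ j * h) _ hδ U hU)
            congr 1
            ext v
            have : (s ^ j * h * v * (γ * δ * γ⁻¹)) • B.o = (s ^ j * (h * v * γ * δ)) • B.o := by
              conv_lhs => rw [← hγ, ← mul_smul]
              congr 1
              group
            simp only [hφ, mem_preimage, mem_ofPred_eq, this]
        _ = C₀ * μ U := by simp
        _ ≤ C₀ * μ (W • U) := by
            gcongr
            intro x hx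
            exact ⟨1, hW, x, hx, one_smul _ _⟩
  have hi : Integrable (fun p => c (φ p)) (τ.prod σ) := l.integrable_comp hc hb hφm hsupp
  have h1 := hI _ hn
  rw [integral_map hφm.aemeasurable hc.aestronglyMeasurable, integral_prod _ hi] at h1
  obtain ⟨v, hv, hv'⟩ := exists_notMem_null_le_integral hi.integral_prod_left (ae_iff.1 hτ)
  have hv1 : l.len v ≤ 1 := by simpa using hv
  refine ⟨v, hv1, ?_, hv'.trans h1⟩
  refine l.integrable_comp hc hb (by fun_prop) (R := C * (n + 1)) ?_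
  filter_upwards [hσ] with δ hδ
  have := l.len_mul (h * v * γ) δ
  have := l.len_mul3 h v γ
  omega

/-- A potential whose increments have a small mean on every nice piece grows slowly along the
lattice. -/
theorem pieces (P : Geo l Far S) (E : Equi l Far B.o μ) :
    ∃ (C m : ℕ) (C₀ : ℝ≥0∞) (Er : Set G → ℝ), 0 < C ∧ C₀ ≠ ∞ ∧ (∀ W, 0 ≤ Er W) ∧
      ∀ (n : ℕ) (γ : G), γ • B.o = B.o → l.len γ ≤ n →
      ∀ (Ψ : G → ℝ) (cost : G → ℕ → G → ℝ) (J Bd : ℝ), 0 ≤ Bd →
        (∀ s N, Measurable (cost s N)) →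
        (∀ s N R, ∃ M, ∀ g, l.len g ≤ R → |cost s N g| ≤ M) →
        (∀ s N g, l.len s ≤ C → Ψ (s ^ N * g) ≤ Ψ g + cost s N g) →
        (∀ u, l.len u ≤ 2 → Ψ u ≤ Ψ 1 + J) → (∀ u, l.len u ≤ 2 → Ψ γ ≤ Ψ (u * γ) + J) →
        (∀ τ s N, B.Nice μ S C C₀ Er n τ s N → ∫ g, cost s N g ∂τ ≤ Bd) →
        Ψ γ ≤ Ψ 1 + 2 * J + m * Bd := by
  classical
  obtain ⟨τ, C₀, hτp, hC₀, hC₁, hτ, hbd⟩ := B.exists_bd μ
  choose! Er hEr using E.eq
  have hPC : (0 : ℝ) < P.C := by exact_mod_cast P.C_pos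
  obtain ⟨CT, hCT1, hCT2⟩ : ∃ CT : ℕ, 2 * P.C ≤ CT ∧ |E.C| + 1 ≤ E.κ * (CT / P.C) := by
    obtain ⟨k, hk⟩ := exists_nat_ge ((|E.C| + 1) / E.κ)
    refine ⟨(k + 2) * P.C, by nlinarith, ?_⟩
    rw [div_le_iff₀ E.κ_pos] at hk
    have : (((k + 2) * P.C : ℕ) : ℝ) / P.C = k + 2 := by push_cast; field_simp
    rw [this]
    nlinarith [E.κ_pos]
  set Lb := l.len P.b with hLb
  set C : ℕ := P.C + Lb + P.C * CT + CT * (Lb + P.m * (P.C * P.C)) + CT + 3 with hC
  refine ⟨C, P.m + 2, C₀, fun W => |Er W|, by omega, hC₀, fun W => abs_nonneg _, ?_⟩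
  intro n γ hγ hn Ψ cost J Bd hBd hm hb hΨ hJ1 hJ2 hI
  set σ := E.σ n with hσdef
  have hσp : IsProbabilityMeasure σ := E.prob n
  have hσ : ∀ᵐ δ ∂σ, l.len δ ≤ 1 := by
    filter_upwards [E.small n] with δ hδ
    simpa using hδ 1 (by rw [l.len_one]; omega)
  have hσ' : ∀ᵐ δ ∂σ, l.len (γ * δ * γ⁻¹) ≤ 1 := by
    filter_upwards [E.small n] with δ hδ using hδ γ hn
  set T : ℕ := CT * (n + 1) with hT
  have hbT : l.len (P.b ^ T) ≤ CT * Lb * (n + 1) := by
    have := l.len_pow P.b T
    rw [hT] at this ⊢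
    nlinarith
  have hCn : C * (n + 1) = (P.C + Lb + P.C * CT) * (n + 1) + CT * Lb * (n + 1) +
      P.m * (P.C * (P.C * T)) + T + 3 * n + 3 := by rw [hC, hT]; ring
  obtain ⟨v, hv, hi1, hI1⟩ := B.leg hτ hbd 1 1 (one_smul _ _) hσ (by simpa using hσ)
    (C := C) (n := n) (N := T) (E := fun W => |Er W|) (s := P.b) (by omega) P.b_mem (by omega)
    (by rw [l.len_one]; omega) (hm P.b T) (hb P.b T) (fun τ' h => hI τ' _ _ h)
  obtain ⟨v', hv', hi3, hI3⟩ := B.leg hτ hbd (P.b ^ T) γ hγ hσ hσ'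
    (C := C) (n := n) (N := T) (E := fun W => |Er W|) (s := P.b⁻¹) (by rw [l.len_inv]; omega)
    P.b_inv_mem (by omega) (by omega) (hm P.b⁻¹ T) (hb P.b⁻¹ T) (fun τ' h => hI τ' _ _ h)
  have hch := P.chain (n + 1) T v (v' * γ) (by rw [hT]; nlinarith) (by omega)
    (by have := l.len_mul v' γ; omega)
  obtain ⟨c, hi2, hI2, hc⟩ := Chain.int (l := l) hσ (Ψ := Ψ) (cost := cost) (K := P.C * (P.C * T))
    (R := CT * Lb * (n + 1) + 1 + P.m * (P.C * (P.C * T))) hBd hm hb
    (fun s N y h => by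
      have := l.len_pow s N
      have := Nat.mul_le_mul h.2.2.1 h.1
      nlinarith)
    (fun s N y g h => hΨ s N g (h.1.trans (by omega)))
    (fun s N y h hy => by
      have hφ : Measurable fun δ : G => y * δ := by fun_prop
      rw [← integral_map hφ.aemeasurable (hm s N).aestronglyMeasurable]
      refine hI _ s N ⟨Measure.isProbabilityMeasure_map hφ.aemeasurable, h.1.trans (by omega),
        h.2.1, h.2.2.1.trans ?_, ?_, ?_⟩
      · rw [hCn, hT]
        nlinarith
      · refine (ae_map_iff hφ.aemeasurable (l.isClosed_le _).measurableSet).2 ?_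
        filter_upwards [hσ] with δ hδ
        have := l.len_mul y δ
        omega
      · intro j hj W hW h1 U hU
        have hms : MeasurableSet {g : G | (s ^ j * g) • B.o ∈ U} :=
          hU.preimage (Continuous.measurable (by fun_prop))
        rw [Measure.map_apply hφ hms]
        have h2 := hEr W hW h1 n _ _ (h.2.2.2 j hj) U hU
        refine le_trans (le_of_eq ?_) (h2.trans (add_le_add ?_ (ENNReal.ofReal_le_ofReal ?_)))
        · congr 1
          ext δ
          simp [mul_assoc]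
        · exact le_mul_of_one_le_left' hC₁
        · refine mul_le_mul (le_abs_self _) (Real.exp_le_exp.2 ?_) (Real.exp_pos _).le
            (abs_nonneg _)
          have h3 : E.κ * ((T : ℝ) / P.C) = E.κ * (CT / P.C) * (n + 1) := by
            rw [hT]; push_cast; ring
          have h4 : (0 : ℝ) ≤ n := by positivity
          have := le_abs_self E.C
          have := abs_nonneg E.C
          rw [h3]
          nlinarith)
    hch (by have := l.len_mul (P.b ^ T) v; omega)
  have key : ∀ᵐ δ ∂σ, Ψ γ - (Ψ 1 + 2 * J) ≤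
      cost P.b T (1 * v * 1 * δ) + c δ + cost P.b⁻¹ T (P.b ^ T * v' * γ * δ) := by
    filter_upwards [hσ, hσ'] with δ h1 h2
    have e1 := hJ1 (v * δ) (by have := l.len_mul v δ; omega)
    have e2 := hΨ P.b T (v * δ) (by omega)
    have e3 := hc δ
    have e4 := hΨ P.b⁻¹ T (P.b ^ T * v' * γ * δ) (by rw [l.len_inv]; omega)
    have e5 := hJ2 (v' * (γ * δ * γ⁻¹)) (by have := l.len_mul v' (γ * δ * γ⁻¹); omega)
    have q1 : P.b⁻¹ ^ T * (P.b ^ T * v' * γ * δ) = v' * (γ * δ * γ⁻¹) * γ := by group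
    have q2 : P.b ^ T * (v' * γ) * δ = P.b ^ T * v' * γ * δ := by group
    have q3 : P.b ^ T * v * δ = P.b ^ T * (v * δ) := by group
    have q4 : 1 * v * 1 * δ = v * δ := by group
    rw [q1] at e4
    rw [q2, q3] at e3
    rw [q4]
    linarith
  have hi12 : Integrable (fun δ => cost P.b T (1 * v * 1 * δ) + c δ) σ := hi1.add hi2
  have := integral_mono_ae (integrable_const _) (hi12.add hi3) key
  simp only [integral_const, probReal_univ, smul_eq_mul, Pi.add_apply] at this
  rw [integral_add hi12 hi3, integral_add hi1 hi2] at this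
  push_cast
  linarith

end Base

end Pool.Agent.P.MP_d483fb_an.Z


end

section

/-!
The lattice is finitely generated and undistorted.
-/

open scoped Topology Pointwise ENNReal
open MeasureTheory Filter Set

set_option linter.unusedSectionVars false

namespace Pool.Agent.P.MP_d483fb_an.Z

variable {G : Type} [Group G] [TopologicalSpace G] [IsTopologicalGroup G] [T2Space G]
  [LocallyCompactSpace G] [SecondCountableTopology G] [MeasurableSpace G] [BorelSpace G]
  {X : Type} [TopologicalSpace X] [T2Space X] [SecondCountableTopology X] [MeasurableSpace X]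
  [BorelSpace X] [MulAction G X] [ContinuousSMul G X]
  {μ : Measure X} [IsProbabilityMeasure μ] [SMulInvariantMeasure G X μ]
  {l : Len G} {Far : G → ℝ → Prop} {S : Set G}

namespace Base

variable (B : Base l X)

theorem measurable_ht_mul (h : G) : Measurable fun g : G => B.ht ((h * g) • B.o) :=
  B.measurable_ht.comp (Continuous.measurable (by fun_prop))

theorem Nice.ht_le {C n N : ℕ} {C₀ : ℝ≥0∞} {Er : Set G → ℝ} {τ : Measure G} {s : G}
    (h : B.Nice μ S C C₀ Er n τ s N) {j : ℕ} (hj : j ≤ N) :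
    ∀ᵐ g ∂τ, B.ht ((s ^ j * g) • B.o) ≤ (C * C + C) * (n + 1) := by
  filter_upwards [h.supp] with g hg
  have := B.ht_smul_o (s ^ j * g)
  have := l.len_mul (s ^ j) g
  have := l.len_pow s j
  have := Nat.mul_le_mul (hj.trans h.le) h.len_s
  nlinarith

/-- Uniform exponential tails along nice pieces. -/
theorem nice_tail (P : Geo l Far S) (E : Equi l Far B.o μ) {C : ℕ} (hC : 0 < C) {C₀ : ℝ≥0∞}
    (hC₀ : C₀ ≠ ∞) {Er : Set G → ℝ} (hEr : ∀ W, 0 ≤ Er W) :
    ∃ A c : ℝ, 0 ≤ A ∧ 0 < c ∧ ∀ n τ s N, B.Nice μ S C C₀ Er n τ s N → ∀ j ≤ N, ∀ t : ℕ,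
      τ.real {g | t < B.ht ((s ^ j * g) • B.o)} ≤ A * Real.exp (-c * t) := by
  obtain ⟨Ct, c, hc, ht⟩ := B.tail P E
  set W := interior {g : G | l.len g ≤ 1} with hW
  set K : ℝ := C * C + C with hK
  have hK0 : 0 < K := by positivity
  set c' := min c K⁻¹ with hc'
  have hc'0 : 0 < c' := lt_min hc (inv_pos.2 hK0)
  have hE := hEr W
  refine ⟨1 + C₀.toReal * |Ct| * Real.exp c + Er W * Real.exp 1, c', by positivity, hc'0, ?_⟩
  intro n τ s N h j hj t
  have := h.prob
  rcases t with _ | t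
  · refine measureReal_le_one.trans ?_
    simp only [Nat.cast_zero, mul_zero, Real.exp_zero, mul_one]
    have : 0 ≤ C₀.toReal * |Ct| * Real.exp c + Er W * Real.exp 1 := by positivity
    linarith
  rcases le_or_gt ((C * C + C) * (n + 1)) (t + 1) with h1 | h1
  · have : τ {g | t + 1 < B.ht ((s ^ j * g) • B.o)} = 0 := by
      refine measure_mono_null ?_ (ae_iff.1 (h.ht_le B hj))
      intro g hg
      have : t + 1 < B.ht ((s ^ j * g) • B.o) := hg
      show ¬ _
      omega
    rw [measureReal_def, this, ENNReal.toReal_zero]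
    positivity
  have hm : MeasurableSet {x | t + 1 < B.ht x} := B.measurable_ht measurableSet_Ioi
  have h2 := h.good j hj W isOpen_interior (mem_interior_iff_mem_nhds.2 l.nhds) _ hm
  have h3 : μ (W • {x | t + 1 < B.ht x}) ≤ ENNReal.ofReal (|Ct| * Real.exp (-c * t)) :=
    (measure_mono (B.smul_lt_subset t)).trans ((ht t).trans (ENNReal.ofReal_le_ofReal
      (mul_le_mul_of_nonneg_right (le_abs_self _) (Real.exp_pos _).le)))
  have h4 : τ {g | t + 1 < B.ht ((s ^ j * g) • B.o)} ≤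
      ENNReal.ofReal (C₀.toReal * (|Ct| * Real.exp (-c * t)) + Er W * Real.exp (-n)) := by
    rw [ENNReal.ofReal_add (by positivity) (by positivity),
      ENNReal.ofReal_mul ENNReal.toReal_nonneg, ENNReal.ofReal_toReal hC₀]
    exact h2.trans (by gcongr)
  refine (ENNReal.toReal_le_of_le_ofReal (by positivity) h4).trans ?_
  have t0 : (0 : ℝ) ≤ t := by positivity
  have e1 : Real.exp (-c * t) ≤ Real.exp c * Real.exp (-c' * (t + 1 : ℕ)) := by
    rw [← Real.exp_add]
    refine Real.exp_le_exp.2 ?_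
    have : c' ≤ c := min_le_left _ _
    push_cast
    nlinarith
  have e2 : Real.exp (-n) ≤ Real.exp 1 * Real.exp (-c' * (t + 1 : ℕ)) := by
    rw [← Real.exp_add]
    refine Real.exp_le_exp.2 ?_
    have h5 : c' ≤ K⁻¹ := min_le_right _ _
    have h6 : ((t + 1 : ℕ) : ℝ) ≤ K * (n + 1) := by rw [hK]; exact_mod_cast h1.le
    have h7 : c' * (t + 1 : ℕ) ≤ K⁻¹ * (K * (n + 1)) :=
      mul_le_mul h5 h6 (by positivity) (by positivity)
    rw [inv_mul_cancel_left₀ hK0.ne'] at h7
    linarith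
  have e3 := Real.exp_pos (-c' * (t + 1 : ℕ))
  have e4 : C₀.toReal * (|Ct| * Real.exp (-c * t)) ≤
      C₀.toReal * (|Ct| * (Real.exp c * Real.exp (-c' * (t + 1 : ℕ)))) := by gcongr
  have e5 : Er W * Real.exp (-n) ≤ Er W * (Real.exp 1 * Real.exp (-c' * (t + 1 : ℕ))) := by gcongr
  nlinarith

end Base

theorem integral_le_of_tail {Ω : Type} [MeasurableSpace Ω] {τ : Measure Ω}
    [IsProbabilityMeasure τ] {h : Ω → ℕ} (hm : Measurable h) {R : ℕ} (hR : ∀ᵐ w ∂τ, h w ≤ R)
    {f p : ℕ → ℝ} (hf : ∀ t, 0 ≤ f t) (hp : ∀ t, τ.real {w | t < h w} ≤ p t)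
    (hs : Summable fun t => f (t + 1) * p t) :
    Integrable (fun w => f (h w)) τ ∧ ∫ w, f (h w) ∂τ ≤ f 0 + ∑' t, f (t + 1) * p t := by
  have hms : ∀ t, MeasurableSet {w | t < h w} := fun t => hm measurableSet_Ioi
  have hi : ∀ t ∈ Finset.range R,
      Integrable (fun w => {w | t < h w}.indicator (fun _ => f (t + 1)) w) τ :=
    fun t _ => (integrable_const _).indicator (hms t)
  have hle : ∀ᵐ w ∂τ, f (h w) ≤
      f 0 + ∑ t ∈ Finset.range R, {w | t < h w}.indicator (fun _ => f (t + 1)) w := by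
    filter_upwards [hR] with w hw
    have hnn : ∀ t ∈ Finset.range R, 0 ≤ {w | t < h w}.indicator (fun _ => f (t + 1)) w :=
      fun t _ => indicator_nonneg (fun _ _ => hf _) _
    rcases hk : h w with _ | k
    · exact le_add_of_nonneg_right (Finset.sum_nonneg hnn)
    · have := Finset.single_le_sum hnn (Finset.mem_range.2 (show k < R by omega))
      rw [indicator_of_mem (show w ∈ {w | k < h w} by show k < h w; omega)] at this
      linarith [hf 0]
  have hi2 := (integrable_const (μ := τ) (f 0)).add (integrable_finsetSum _ hi)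
  have hi1 : Integrable (fun w => f (h w)) τ := by
    refine hi2.mono' ((measurable_from_top (f := f)).comp hm).aestronglyMeasurable ?_
    filter_upwards [hle] with w hw
    rwa [Real.norm_of_nonneg (hf _)]
  refine ⟨hi1, (integral_mono_ae hi1 hi2 hle).trans ?_⟩
  simp only [Pi.add_apply]
  rw [integral_add (integrable_const _) (integrable_finsetSum _ hi), integral_finsetSum _ hi]
  simp only [integral_const, probReal_univ, smul_eq_mul, one_mul]
  gcongr
  refine le_trans (Finset.sum_le_sum fun t _ => ?_) (hs.sum_le_tsum (Finset.range R) fun t _ =>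
    mul_nonneg (hf _) (measureReal_nonneg.trans (hp t)))
  rw [integral_indicator_const _ (hms t), smul_eq_mul, mul_comm]
  exact mul_le_mul_of_nonneg_left (hp t) (hf _)

namespace Base

variable (B : Base l X)

/-- The bootstrap inequality. -/
theorem boot (P : Geo l Far S) (E : Equi l Far B.o μ) :
    ∃ K c : ℝ, 0 ≤ K ∧ 0 < c ∧ ∀ (L : G → ℝ), (∀ γ, 0 ≤ L γ) →
      (∀ γ γ', γ • B.o = B.o → γ' • B.o = B.o → L (γ * γ') ≤ L γ + L γ') →
      ∀ (Λ M : ℝ) (r : ℕ), 0 ≤ Λ → 0 ≤ M → 4 ≤ r →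
      (∀ γ, γ • B.o = B.o → l.len γ ≤ r → L γ ≤ Λ * (l.len γ + 1) ^ 2) →
      ∀ γ, γ • B.o = B.o →
        min (L γ) M ≤ K * (l.len γ + 1) * (Λ + M * Real.exp (-c * r)) := by
  classical
  obtain ⟨C, m, C₀, Er, hC, hC₀, hEr, hP⟩ := B.pieces P E
  obtain ⟨A, c, hA, hc, hT⟩ := B.nice_tail P E hC hC₀ hEr
  set f : ℕ → ℝ := fun t => (2 * t + 2 * C + 1) ^ 2 with hf
  have hf0 : ∀ t, 0 ≤ f t := fun t => by positivity
  have hsum : Summable fun t : ℕ => f (t + 1) * (A * Real.exp (-c * t)) := by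
    have h0 := (Real.summable_pow_mul_exp_neg_nat_mul 0 hc).mul_left (A * (2 * C + 3) ^ 2)
    have h1 := (Real.summable_pow_mul_exp_neg_nat_mul 1 hc).mul_left (A * 4 * (2 * C + 3))
    have h2 := (Real.summable_pow_mul_exp_neg_nat_mul 2 hc).mul_left (A * 4)
    refine ((h0.add h1).add h2).congr fun t => ?_
    simp only [hf]
    push_cast
    ring
  set K2 : ℝ := f 0 + ∑' t : ℕ, f (t + 1) * (A * Real.exp (-c * t)) with hK2
  have hK20 : 0 ≤ K2 := add_nonneg (hf0 0) (tsum_nonneg fun t => by positivity)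
  set A2 : ℝ := (A + 1) * Real.exp (c * (C + 1)) with hA2
  have hA20 : 0 ≤ A2 := by positivity
  refine ⟨52 + m * C * (K2 + A2), c / 2, by positivity, by positivity, ?_⟩
  intro L hL0 hL Λ M r hΛ hM hr hind γ hγ
  choose ρ hρ hρl using B.exists_near
  have hinv : ∀ g, (ρ g)⁻¹ • B.o = B.o := fun g => by rw [inv_smul_eq_iff, hρ]
  have hq : ∀ γ k, γ • B.o = B.o → l.len γ ≤ k → k ≤ r → L γ ≤ Λ * (k + 1) ^ 2 := by
    intro γ k h1 h2 h3
    refine (hind γ h1 (h2.trans h3)).trans ?_
    have : (l.len γ : ℝ) ≤ k := by exact_mod_cast h2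
    gcongr
  have hdiff : ∀ u g k, B.ht ((u * g) • B.o) + l.len u + B.ht (g • B.o) ≤ k → k ≤ r →
      L (ρ (u * g)) ≤ L (ρ g) + Λ * (k + 1) ^ 2 := by
    intro u g k h1 h2
    have e : ρ (u * g) = (u * g * (ρ (u * g))⁻¹)⁻¹ * u * (g * (ρ g)⁻¹) * ρ g := by group
    have e' : (u * g * (ρ (u * g))⁻¹)⁻¹ * u * (g * (ρ g)⁻¹) = ρ (u * g) * (ρ g)⁻¹ := by group
    have h3 := l.len_mul3 (u * g * (ρ (u * g))⁻¹)⁻¹ u (g * (ρ g)⁻¹)
    rw [l.len_inv, e'] at h3
    have h4 : (ρ (u * g) * (ρ g)⁻¹) • B.o = B.o := by rw [mul_smul, hinv, hρ]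
    have h5 := hq _ k h4 (by have := hρl (u * g); have := hρl g; omega) h2
    have h6 := hL _ _ h4 (hρ g)
    rw [inv_mul_cancel_right] at h6
    linarith
  set ψ : ℕ → ℝ := fun h => Λ * f h + if r < 2 * h + 2 * C then M else 0 with hψ
  have hψ0 : ∀ h, 0 ≤ ψ h := fun h => add_nonneg (mul_nonneg hΛ (hf0 h)) (by split_ifs <;> linarith)
  set Ψ : G → ℝ := fun g => min (L (ρ g)) M with hΨ
  have hΨ0 : ∀ g, 0 ≤ Ψ g := fun g => le_min (hL0 _) hM
  have hmin : ∀ a b J : ℝ, 0 ≤ J → a ≤ b + J → min a M ≤ min b M + J := by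
    intro a b J h1 h2
    rcases le_total b M with h | h
    · rw [min_eq_left h]
      exact (min_le_left _ _).trans h2
    · rw [min_eq_right h]
      linarith [min_le_right a M]
  have hstep : ∀ s g, l.len s ≤ C → Ψ (s * g) ≤ Ψ g + ψ (B.ht (g • B.o)) := by
    intro s g hs
    by_cases h : r < 2 * B.ht (g • B.o) + 2 * C
    · have := hΨ0 g
      have : Ψ (s * g) ≤ M := min_le_right _ _
      have := mul_nonneg hΛ (hf0 (B.ht (g • B.o)))
      simp only [hψ, if_pos h]
      linarith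
    · refine hmin _ _ _ (hψ0 _) ?_
      have h1 := B.ht_smul s (g • B.o)
      rw [← mul_smul] at h1
      have := hdiff s g (2 * B.ht (g • B.o) + 2 * C) (by omega) (by omega)
      simp only [hψ, if_neg h, hf]
      push_cast at this
      linarith
  set n := l.len γ with hn
  have hn0 : (0 : ℝ) ≤ n := by positivity
  set e := Real.exp (-(c / 2) * r) with he
  have he0 : 0 < e := Real.exp_pos _
  have key := hP n γ hγ le_rfl Ψ
    (fun s N g => ∑ j ∈ Finset.range N, ψ (B.ht ((s ^ j * g) • B.o))) (25 * Λ)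
    (C * (n + 1) * (Λ * K2 + M * (A2 * e))) (by positivity)
    (fun s N => Finset.measurable_sum _ fun j _ =>
      (measurable_from_top (f := ψ)).comp (B.measurable_ht_mul _))
    (fun s N R => by
      refine ⟨∑ j ∈ Finset.range N, ∑ h ∈ Finset.range (l.len (s ^ j) + R + 1), ψ h,
        fun g hg => ?_⟩
      rw [abs_of_nonneg (Finset.sum_nonneg fun j _ => hψ0 _)]
      refine Finset.sum_le_sum fun j _ => Finset.single_le_sum (fun h _ => hψ0 h) ?_
      have := B.ht_smul_o (s ^ j * g)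
      have := l.len_mul (s ^ j) g
      exact Finset.mem_range.2 (by omega))
    (fun s N g hs => by
      induction N with
      | zero => simp
      | succ N ih =>
        rw [Finset.sum_range_succ, pow_succ', mul_assoc]
        have := hstep s (s ^ N * g) hs
        linarith)
    (fun u hu => by
      refine hmin _ _ _ (by positivity) ?_
      have h1 := B.ht_smul_o (u * 1)
      have := hdiff u 1 4 (by rw [one_smul, B.ht_o]; rw [mul_one] at h1 ⊢; omega) hr
      rw [mul_one] at this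
      norm_num at this
      linarith)
    (fun u hu => by
      refine hmin _ _ _ (by positivity) ?_
      have h1 := B.ht_smul u (γ • B.o)
      rw [← mul_smul, hγ, B.ht_o] at h1
      have := hdiff u⁻¹ (u * γ) 4
        (by rw [inv_mul_cancel_left, hγ, B.ht_o, l.len_inv]; omega) hr
      rw [inv_mul_cancel_left] at this
      norm_num at this
      linarith)
    (fun τ s N h => by
      have := h.prob
      have h1 : ∀ j ∈ Finset.range N, Integrable (fun g => ψ (B.ht ((s ^ j * g) • B.o))) τ ∧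
          ∫ g, ψ (B.ht ((s ^ j * g) • B.o)) ∂τ ≤ Λ * K2 + M * (A2 * e) := by
        intro j hj
        have hj' := (Finset.mem_range.1 hj).le
        obtain ⟨i1, i2⟩ := integral_le_of_tail (B.measurable_ht_mul (s ^ j)) (h.ht_le B hj') hf0
          (hT n τ s N h j hj') hsum
        have hms : MeasurableSet {g | r < 2 * B.ht ((s ^ j * g) • B.o) + 2 * C} :=
          (B.measurable_ht_mul (s ^ j)) (MeasurableSet.of_discrete (s := {h | r < 2 * h + 2 * C}))
        have e1 : (fun g => ψ (B.ht ((s ^ j * g) • B.o))) = fun g => Λ * f (B.ht ((s ^ j * g) • B.o)) +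
            {g | r < 2 * B.ht ((s ^ j * g) • B.o) + 2 * C}.indicator (fun _ => M) g := by
          ext g
          simp only [hψ, indicator, mem_ofPred_eq]
        have i3 : Integrable ({g | r < 2 * B.ht ((s ^ j * g) • B.o) + 2 * C}.indicator
            fun _ => M) τ := (integrable_const M).indicator hms
        rw [e1]
        refine ⟨(i1.const_mul Λ).add i3, ?_⟩
        rw [integral_add (i1.const_mul Λ) i3, integral_const_mul, integral_indicator_const _ hms,
          smul_eq_mul, mul_comm _ M]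
        gcongr
        rcases le_or_gt (2 * C) r with h2 | h2
        · set t := (r - 2 * C) / 2 with ht
          refine le_trans (measureReal_mono ?_) ((hT n τ s N h j hj' t).trans ?_)
          · intro g hg
            have : r < 2 * B.ht ((s ^ j * g) • B.o) + 2 * C := hg
            show t < _
            omega
          · rw [hA2, he, mul_assoc, ← Real.exp_add]
            refine mul_le_mul (by linarith) (Real.exp_le_exp.2 ?_) (Real.exp_pos _).le
              (by linarith)
            have : (r : ℝ) ≤ 2 * t + 2 * C + 1 := by exact_mod_cast (by omega)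
            nlinarith
        · refine measureReal_le_one.trans ?_
          rw [hA2, he, mul_assoc, ← Real.exp_add]
          have : (r : ℝ) ≤ 2 * C := by exact_mod_cast h2.le
          have : 1 ≤ Real.exp (c * (C + 1) + -(c / 2) * r) := Real.one_le_exp (by nlinarith)
          nlinarith
      rw [integral_finsetSum _ fun j hj => (h1 j hj).1]
      refine (Finset.sum_le_sum fun j hj => (h1 j hj).2).trans ?_
      rw [Finset.sum_const, Finset.card_range, nsmul_eq_mul]
      have : (N : ℝ) ≤ C * (n + 1) := by exact_mod_cast h.le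
      gcongr)
  have h1 : Ψ 1 ≤ Λ := by
    have h2 := hρl 1
    rw [one_smul, B.ht_o, one_mul, l.len_inv] at h2
    have := hq _ 0 (hρ 1) h2 (by omega)
    norm_num at this
    exact (min_le_left _ _).trans this
  have h2 : min (L γ) M ≤ Ψ γ + Λ := by
    refine hmin _ _ _ hΛ ?_
    have h3 := hρl γ
    rw [hγ, B.ht_o] at h3
    have h4 : (γ * (ρ γ)⁻¹) • B.o = B.o := by rw [mul_smul, hinv, hγ]
    have h5 := hq _ 0 h4 h3 (by omega)
    have h6 := hL _ _ h4 (hρ γ)
    rw [inv_mul_cancel_right] at h6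
    norm_num at h5
    linarith
  have hMe : 0 ≤ M * e := by positivity
  have h3 : Λ * K2 + M * (A2 * e) ≤ (K2 + A2) * (Λ + M * e) := by
    have := mul_nonneg hK20 hMe
    have := mul_nonneg hA20 hΛ
    nlinarith
  have h4 : (m : ℝ) * (C * (n + 1) * (Λ * K2 + M * (A2 * e))) ≤
      m * (C * (n + 1) * ((K2 + A2) * (Λ + M * e))) := by gcongr
  have h5 : 52 * Λ ≤ 52 * (n + 1) * (Λ + M * e) := by nlinarith [mul_nonneg hn0 hΛ, mul_nonneg hn0 hMe]
  calc min (L γ) M ≤ 52 * Λ + m * (C * (n + 1) * (Λ * K2 + M * (A2 * e))) := by linarith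
    _ ≤ 52 * (n + 1) * (Λ + M * e) + m * (C * (n + 1) * ((K2 + A2) * (Λ + M * e))) := by linarith
    _ = _ := by ring

theorem exists_threshold {K c : ℝ} (hc : 0 < c) : ∃ n₀ : ℕ, 4 ≤ n₀ ∧ ∀ n : ℕ, n₀ ≤ n →
    K ≤ (n + 2) / 4 ∧ K * (n + 2) * Real.exp (-c * n) ≤ 1 / 4 := by
  have h0 := (Real.summable_pow_mul_exp_neg_nat_mul 0 hc).tendsto_atTop_zero.const_mul (2 * K)
  have h1 := (Real.summable_pow_mul_exp_neg_nat_mul 1 hc).tendsto_atTop_zero.const_mul K
  have h2 := (h0.add h1).eventually (ge_mem_nhds (show (2 * K * 0 + K * 0 : ℝ) < 1 / 4 by norm_num))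
  obtain ⟨a, ha⟩ := eventually_atTop.1 h2
  obtain ⟨b, hb⟩ := exists_nat_ge (4 * K)
  refine ⟨max 4 (max a b), le_max_left _ _, fun n hn => ⟨?_, ?_⟩⟩
  · have : (b : ℝ) ≤ n := by exact_mod_cast (by omega)
    linarith
  · have := ha n (by omega)
    linarith

/-- Every subadditive function on the lattice is at most linear. -/
theorem lmr (P : Geo l Far S) (E : Equi l Far B.o μ) (L : G → ℝ)
    (hL : ∀ γ γ', γ • B.o = B.o → γ' • B.o = B.o → L (γ * γ') ≤ L γ + L γ') :
    ∃ C : ℝ, ∀ γ, γ • B.o = B.o → L γ ≤ C * (l.len γ + 1) := by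
  obtain ⟨K, c, hK, hc, h⟩ := B.boot P E
  set L' : G → ℝ := fun γ => max (L γ) 0 with hL'
  have h0 : ∀ γ, 0 ≤ L' γ := fun γ => le_max_right _ _
  have h1 : ∀ γ γ', γ • B.o = B.o → γ' • B.o = B.o → L' (γ * γ') ≤ L' γ + L' γ' := by
    intro γ γ' a b
    refine max_le ((hL _ _ a b).trans (add_le_add (le_max_left _ _) (le_max_left _ _))) ?_
    exact add_nonneg (h0 _) (h0 _)
  obtain ⟨n₀, hn₀, hn⟩ := exists_threshold (K := K) hc
  obtain ⟨Λ₀, hΛ₀⟩ := ((B.fin n₀).image L').bddAbove
  set Λ := max Λ₀ 1 with hΛ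
  have hΛ1 : 1 ≤ Λ := le_max_right _ _
  have hquad : ∀ n, ∀ γ, γ • B.o = B.o → l.len γ ≤ n → L' γ ≤ Λ * (l.len γ + 1) ^ 2 := by
    intro n
    induction n with
    | zero =>
      intro γ a b
      have : L' γ ≤ Λ := (hΛ₀ ⟨γ, ⟨a, by omega⟩, rfl⟩).trans (le_max_left _ _)
      have : (0 : ℝ) ≤ l.len γ := by positivity
      nlinarith [mul_nonneg (zero_le_one.trans hΛ1) (mul_nonneg this this),
        mul_nonneg (zero_le_one.trans hΛ1) this]
    | succ n ih =>
      intro γ a b
      rcases le_or_gt (l.len γ) n₀ with h2 | h2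
      · have : L' γ ≤ Λ := (hΛ₀ ⟨γ, ⟨a, h2⟩, rfl⟩).trans (le_max_left _ _)
        have : (0 : ℝ) ≤ l.len γ := by positivity
        nlinarith [mul_nonneg (zero_le_one.trans hΛ1) (mul_nonneg this this),
          mul_nonneg (zero_le_one.trans hΛ1) this]
      rcases le_or_gt (l.len γ) n with h3 | h3
      · exact ih γ a h3
      have e : l.len γ = n + 1 := by omega
      obtain ⟨q1, q2⟩ := hn n (by omega)
      have n0 : (0 : ℝ) ≤ n := by positivity
      have := h L' h0 h1 Λ (Λ * (n + 2) ^ 2) n (by linarith) (by positivity) (by omega) ih γ a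
      rw [e] at this ⊢
      push_cast at this ⊢
      have hM : 0 < Λ * ((n : ℝ) + 2) ^ 2 := by positivity
      have b1 : K * (n + 1 + 1) * Λ ≤ Λ * (n + 2) ^ 2 / 4 := by
        have : K * ((n + 2) * Λ) ≤ (n + 2) / 4 * ((n + 2) * Λ) := by gcongr
        nlinarith
      have b2 : K * (n + 1 + 1) * (Λ * (n + 2) ^ 2 * Real.exp (-c * n)) ≤ Λ * (n + 2) ^ 2 / 4 := by
        have := mul_le_mul_of_nonneg_left q2 hM.le
        nlinarith
      have b3 : min (L' γ) (Λ * (n + 2) ^ 2) < Λ * (n + 2) ^ 2 := by nlinarith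
      have := (min_lt_iff.1 b3).resolve_right (lt_irrefl _)
      nlinarith
  refine ⟨K * Λ, fun γ a => (le_max_left (L γ) 0).trans ?_⟩
  have h2 : Tendsto (fun r : ℕ => K * (l.len γ + 1) * (Λ + L' γ * Real.exp (-c * r))) atTop
      (𝓝 (K * (l.len γ + 1) * (Λ + L' γ * 0))) := by
    have := (Real.summable_pow_mul_exp_neg_nat_mul 0 hc).tendsto_atTop_zero
    simp only [pow_zero, one_mul] at this
    exact ((this.const_mul _).const_add _).const_mul _
  have h3 := ge_of_tendsto h2 (eventually_atTop.2 ⟨4, fun r hr => by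
    simpa using h L' h0 h1 Λ (L' γ) r (by linarith) (h0 γ) hr (hquad r) γ a⟩ :
      ∀ᶠ r : ℕ in atTop, L' γ ≤ _)
  calc L' γ ≤ _ := h3
    _ = _ := by ring

/-- The lattice is generated by a finite ball. -/
theorem fg (P : Geo l Far S) (E : Equi l Far B.o μ) :
    ∃ R : ℕ, MulAction.stabilizer G B.o ≤
      Subgroup.closure {γ | γ • B.o = B.o ∧ l.len γ ≤ R} := by
  classical
  obtain ⟨K, c, hK, hc, h⟩ := B.boot P E
  obtain ⟨n₀, hn₀, hn⟩ := exists_threshold (K := K) hc
  refine ⟨n₀, ?_⟩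
  set H := Subgroup.closure {γ | γ • B.o = B.o ∧ l.len γ ≤ n₀} with hH
  set L : G → ℝ := fun γ => if γ ∈ H then 0 else 1 with hL
  have h0 : ∀ γ, 0 ≤ L γ := fun γ => by simp only [hL]; split_ifs <;> norm_num
  have h1 : ∀ γ γ', γ • B.o = B.o → γ' • B.o = B.o → L (γ * γ') ≤ L γ + L γ' := by
    intro γ γ' _ _
    by_cases a : γ ∈ H <;> by_cases b : γ' ∈ H
    · simp [hL, a, b, H.mul_mem a b]
    all_goals
      simp only [hL, a, b, if_true, if_false]
      split_ifs <;> norm_num
  have : ∀ n, ∀ γ, γ • B.o = B.o → l.len γ ≤ n → γ ∈ H := by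
    intro n
    induction n with
    | zero => exact fun γ a b => Subgroup.subset_closure ⟨a, by omega⟩
    | succ n ih =>
      intro γ a b
      rcases le_or_gt (l.len γ) n₀ with h2 | h2
      · exact Subgroup.subset_closure ⟨a, h2⟩
      rcases le_or_gt (l.len γ) n with h3 | h3
      · exact ih γ a h3
      have e : l.len γ = n + 1 := by omega
      obtain ⟨q1, q2⟩ := hn n (by omega)
      have n0 : (0 : ℝ) ≤ n := by positivity
      have := h L h0 h1 (((n : ℝ) + 2) ^ 2)⁻¹ 1 n (by positivity) zero_le_one (by omega)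
        (fun γ' a' b' => by simp only [hL, if_pos (ih γ' a' b')]; positivity) γ a
      by_contra hγ
      rw [e] at this
      simp only [hL, if_neg hγ, min_self] at this
      push_cast at this
      have b1 : K * (n + 1 + 1) * (((n : ℝ) + 2) ^ 2)⁻¹ ≤ 1 / 4 := by
        rw [← div_eq_mul_inv, div_le_iff₀ (by positivity)]
        nlinarith
      nlinarith
  exact fun γ hγ => this _ γ hγ le_rfl

end Base

end Pool.Agent.P.MP_d483fb_an.Z


end
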