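import Pool.Agent.P.MP_d483fb_an.M.A18
import Pool.Agent.P.MP_d483fb_an.M.A23
import Pool.Agent.P.MP_d483fb_an.M.A25
import Pool.Agent.P.MP_d483fb_an.M.A35
import Pool.Agent.P.MP_d483fb_an.M.A36

section

/-!
Linear divergence for groups in standard form.
-/

open scoped InnerProductSpace RealInnerProductSpace
open Set

set_option linter.unusedSectionVars false

namespace Pool.Agent.P.MP_d483fb_an.Z

variable {G : Type} [Group G] [TopologicalSpace G] [IsTopologicalGroup G] [LocallyCompactSpace G]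

theorem Std.geo [ConnectedSpace G] {n k : ℕ} (D : Std G n k) (l : Len G) :
    ∃ S : Set G, IsCompact S ∧ (∀ s ∈ S, s ∈ range D.a ∨ D.ρ s = 1) ∧
      Nonempty (Geo l D.Far S) := by
  refine D.geo_of l D.kak (fun β => D.neg_mem_roots) (fun γ hγ => ?_) fun γ hγ =>
    ⟨D.fac γ, D.fac_isIdl γ, fun β hβ h => D.gr_le_fac ⟨hβ, h⟩,
      (D.fac_le_grS γ).trans inf_le_right⟩
  obtain ⟨α, hα, h1, h2⟩ := D.rank2 hγ
  exact ⟨α, hα, .single ⟨hγ, hα, by rw [real_inner_comm]; exact h1.ne'⟩, h2⟩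

end Pool.Agent.P.MP_d483fb_an.Z


end

section

open scoped Topology ENNReal
open MeasureTheory Filter Set

set_option linter.unusedSectionVars false

noncomputable section

namespace Pool.Agent.P.MP_d483fb_an.Z.SR

variable {G : Type} [Group G] [TopologicalSpace G] [IsTopologicalGroup G] [LocallyCompactSpace G]
  [T2Space G] [SecondCountableTopology G] [MeasurableSpace G] [BorelSpace G]
  {Γ : Subgroup G} [Countable Γ] {X : Type} [MeasurableSpace X] [MulAction G X]
  [MeasurableSMul₂ G X]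
  [MeasurableSpace.CountablyGenerated X]
  {S : Sec Γ X} {A : Type} [NormedAddCommGroup A] {a : A → G}

theorem Lam_norm_le {k V : Type} [NontriviallyNormedField k] [NormedAddCommGroup V]
    [NormedSpace k V] {μ : Measure X} {T : Os.Sys A X μ} {c : A → X → V →L[k] V}
    {ι : Type} [Fintype ι] (o : Os.OseA T c ι) {l : A → ℝ} (hl : ∀ i t, o.lam i t = l t) {ε : ℝ}
    (hε : 0 < ε) {x : X} (hx : x ∈ o.X0) :
    ∃ M : ℝ, 0 ≤ M ∧ ∀ t, ‖c t x‖ ≤ M * Real.exp (l t + ε * ‖t‖) := by
  obtain ⟨q, -, -, -, hq⟩ := o.est ε hε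
  refine ⟨Fintype.card ι * Real.exp (2 * q x), by positivity, fun t => ?_⟩
  refine ContinuousLinearMap.opNorm_le_bound _ (by positivity) fun v => ?_
  have h1 : c t x v = ∑ i, c t x (o.P i x v) := by rw [← map_sum, o.P_sum x hx]
  have h2 : ∀ i, ‖c t x (o.P i x v)‖ ≤ Real.exp (2 * q x) * Real.exp (l t + ε * ‖t‖) * ‖v‖ := by
    intro i
    obtain ⟨h3, h4⟩ := hq x hx i
    refine (h4 t _ (o.P_mem x hx i v)).1.trans ?_
    have h5 : ‖o.P i x v‖ ≤ Real.exp (q x) * ‖v‖ :=
      ((o.P i x).le_opNorm v).trans (mul_le_mul_of_nonneg_right h3 (norm_nonneg _))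
    refine (mul_le_mul_of_nonneg_left h5 (Real.exp_pos _).le).trans (le_of_eq ?_)
    rw [← mul_assoc, ← Real.exp_add, ← Real.exp_add, hl]
    congr 2
    ring
  rw [h1]
  refine (norm_sum_le _ _).trans ((Finset.sum_le_sum fun i _ => h2 i).trans (le_of_eq ?_))
  rw [Finset.sum_const, Finset.card_univ, nsmul_eq_mul]
  ring

theorem Good.exists_lam_ne (hG : Good S a) {k V : Type}
    [NontriviallyNormedField k] [ProperSpace k] [NormedAddCommGroup V] [NormedSpace k V]
    [FiniteDimensional k V] (π : Γ →* (V →L[k] V))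
    (hz : ∀ γ : Γ, (γ : G) ∈ Subgroup.center G → π γ = 1) (hu : ¬ ∃ C : ℝ, ∀ γ, ‖π γ‖ ≤ C)
    {ι : Type} [Fintype ι] (o : Os.OseA hG.sys (fun t x => π (S.β (a t) x)) ι) :
    ∃ i j t, o.lam i t ≠ o.lam j t := by
  by_contra hne
  push Not at hne
  have : ProperSpace V := FiniteDimensional.proper k V
  borelize V
  let ν : Measure V := Measure.addHaar
  have hmp : ∀ γ, MeasurePreserving (π γ) ν ν := mp_of_noChar ν hG.nc π
  by_cases h0 : ∀ i t, o.lam i t = 0
  · exact hu (hG.bdd_of_subexp ν π hmp hz fun ε hε δ hδ => hG.subexp_of_lam π o h0 hε hδ)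
  push Not at h0
  obtain ⟨i, t₀, ht₀⟩ := h0
  have hV : Nontrivial V := by
    by_contra hV
    rw [not_nontrivial_iff_subsingleton] at hV
    exact hu ⟨0, fun γ => by rw [Subsingleton.elim (π γ) 0, norm_zero]⟩
  obtain ⟨t, ht⟩ : ∃ t, o.lam i t < 0 := by
    rcases lt_or_gt_of_ne ht₀ with h | h
    · exact ⟨t₀, h⟩
    · exact ⟨-t₀, by rw [map_neg]; linarith⟩
  obtain ⟨r, hr, hr'⟩ := norm_ge_of_mp (k := k) ν
  obtain ⟨x, hx⟩ := o.ae0.exists
  have hn : 0 < ‖t‖ + 1 := by positivity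
  have hε : 0 < -o.lam i t / (2 * (‖t‖ + 1)) := div_pos (by linarith) (by positivity)
  obtain ⟨M, hM, hb⟩ := Lam_norm_le o (l := o.lam i) (fun j s => hne j i s) hε hx
  have he : -o.lam i t / (2 * (‖t‖ + 1)) * ‖t‖ ≤ -o.lam i t / 2 := by
    rw [div_mul_eq_mul_div, div_le_div_iff₀ (by positivity) two_pos]
    nlinarith [norm_nonneg t]
  have h1 : ∀ n : ℕ, r ≤ M * Real.exp (o.lam i t / 2) ^ n := by
    intro n
    refine (hr' _ (hmp _)).trans ((hb (n • t)).trans (mul_le_mul_of_nonneg_left ?_ hM))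
    rw [← Real.exp_nat_mul, map_nsmul, nsmul_eq_mul]
    refine Real.exp_le_exp.2 ?_
    have h2 : ‖n • t‖ ≤ n * ‖t‖ := norm_nsmul_le
    have h3 := mul_le_mul_of_nonneg_left h2 hε.le
    have h4 := mul_le_mul_of_nonneg_left he (Nat.cast_nonneg (α := ℝ) n)
    nlinarith
  have h2 : Tendsto (fun n : ℕ => M * Real.exp (o.lam i t / 2) ^ n) atTop (𝓝 (M * 0)) :=
    (tendsto_pow_atTop_nhds_zero_of_lt_one (Real.exp_pos _).le
      (Real.exp_lt_one_iff.2 (by linarith))).const_mul M
  have h3 := ge_of_tendsto' h2 h1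
  linarith

end Pool.Agent.P.MP_d483fb_an.Z.SR

end

end

section

open scoped Topology ENNReal
open MeasureTheory Filter Set

set_option linter.unusedSectionVars false
set_option linter.deprecated false

noncomputable section

namespace Pool.Agent.P.MP_d483fb_an.Z.SR

variable {G : Type} [Group G] [TopologicalSpace G] [IsTopologicalGroup G] [LocallyCompactSpace G]
  [T2Space G] [SecondCountableTopology G] [MeasurableSpace G] [BorelSpace G]
  {Γ : Subgroup G} [Countable Γ] {X : Type} [MeasurableSpace X] [MulAction G X]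
  [MeasurableSMul₂ G X]
  [MeasurableSpace.CountablyGenerated X]
  {S : Sec Γ X} {A : Type} [NormedAddCommGroup A] {a : A → G}
  {V : Type} [NormedAddCommGroup V] [NormedSpace ℂ V] [FiniteDimensional ℂ V]

theorem Good.arch (hG : Good S a) (B : V →L[ℂ] V →L[ℂ] V)
    (π : Γ →* (V →L[ℂ] V)) (hz : ∀ γ : Γ, (γ : G) ∈ Subgroup.center G → π γ = 1)
    (aut : ∀ γ x y, π γ (B x y) = B (π γ x) (π γ y))
    (inner : ∀ D : V →L[ℂ] V, (∀ x y, D (B x y) = B (D x) y + B x (D y)) → ∃ h, D = B h)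
    (inj : Function.Injective B)
    (irr : ∀ W : Submodule ℂ V, (∀ γ, ∀ v ∈ W, π γ v ∈ W) → W = ⊥ ∨ W = ⊤)
    (hu : ¬ ∃ C : ℝ, ∀ γ, ‖π γ‖ ≤ C) :
    ∃ τ : G →* (V →L[ℂ] V), Continuous τ ∧ (∀ γ : Γ, τ γ = π γ) ∧
      ∀ g x y, τ g (B x y) = B (τ g x) (τ g y) := by
  obtain ⟨ι, _, ⟨o⟩⟩ := hG.met ℂ V π
  obtain ⟨i₀, j₀, t, hij⟩ := hG.exists_lam_ne π hz hu o
  obtain ⟨i, hi⟩ : ∃ i, o.lam i t ≠ 0 := by
    by_contra h
    push Not at h
    exact hij (by rw [h, h])
  obtain ⟨Λ₀, hΛ₀⟩ := (B : V →ₗ[ℂ] (V →L[ℂ] V)).exists_leftInverse_of_injective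
    (LinearMap.ker_eq_bot.2 inj)
  have hΛ : ∀ h, Λ₀ (B h) = h := fun h => LinearMap.congr_fun hΛ₀ h
  set D : X → V →L[ℂ] V := fun x => ∑ l, (o.lam l t : ℂ) • o.P l x with hD
  have hDm : StronglyMeasurable D :=
    Finset.stronglyMeasurable_fun_sum _ fun l _ => (o.measP l).const_smul (o.lam l t : ℂ)
  have hfm : StronglyMeasurable fun x => Λ₀ (D x) :=
    Λ₀.continuous_of_finiteDimensional.comp_stronglyMeasurable hDm
  have hBf : ∀ x ∈ o.X0, B (Λ₀ (D x)) = D x := by
    intro x hx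
    obtain ⟨h, hh⟩ := inner (D x) (grade_deriv o B (fun s y u v => aut _ u v) hx t)
    rw [hh, hΛ]
  have hDinv : ∀ x ∈ o.X0, ∀ s v, D (a s • x) (π (S.β (a s) x) v) = π (S.β (a s) x) (D x v) := by
    intro x hx s v
    simp only [hD, ContinuousLinearMap.sum_apply, ContinuousLinearMap.smul_apply, map_sum,
      map_smul]
    refine Finset.sum_congr rfl fun l _ => ?_
    rw [← hG.act, o.P_inv x hx l s v]
  have hinv : ∀ s, ∀ᵐ x ∂S.μ, π (S.β (a s) x) (Λ₀ (D x)) = Λ₀ (D (a s • x)) := by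
    intro s
    filter_upwards [o.ae0] with x hx
    have hx' : a s • x ∈ o.X0 := hG.act s x ▸ o.inv0 s x hx
    refine inj ?_
    rw [hBf _ hx']
    ext v
    have hv : π (S.β (a s) x) (π (S.β (a s) x)⁻¹ v) = v := by
      rw [← ContinuousLinearMap.mul_apply, ← map_mul, mul_inv_cancel, map_one,
        ContinuousLinearMap.one_apply]
    rw [← hv, ← aut, hBf x hx, hDinv x hx]
  have hne : ∀ᵐ x ∂S.μ, Λ₀ (D x) ∈ ({0}ᶜ : Set V) := by
    filter_upwards [o.ae0] with x hx h0
    have hD0 : D x = 0 := by rw [← hBf x hx, mem_singleton_iff.1 h0, map_zero]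
    have hpos : 0 < Module.finrank ℂ (o.D i x) := by
      rw [o.rank x hx i]
      exact o.d_pos i
    obtain ⟨⟨v, hv⟩, hv0⟩ := Module.finrank_pos_iff_exists_ne_zero.1 hpos
    have hDv : D x v = (o.lam i t : ℂ) • v := by
      simp only [hD, ContinuousLinearMap.sum_apply, ContinuousLinearMap.smul_apply]
      rw [Finset.sum_eq_single i, o.P_self x hx i v hv]
      · intro l _ hl
        rw [o.P_other x hx l i hl v hv, smul_zero]
      · intro h
        exact absurd (Finset.mem_univ i) h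
    rw [hD0, ContinuousLinearMap.zero_apply, eq_comm, smul_eq_zero] at hDv
    rcases hDv with h | h
    · exact hi (by exact_mod_cast h)
    · exact hv0 (Subtype.ext h)
  obtain ⟨n, τ, Φ, hτ, hΦ, v, hv⟩ := hG.extend π _ hfm hinv _ hne
  have hs : Function.Surjective Φ := by
    rw [← LinearMap.range_eq_top]
    refine (irr (LinearMap.range Φ) ?_).resolve_left fun h => hv ?_
    · rintro γ _ ⟨w, rfl⟩
      exact ⟨_, hΦ γ w⟩
    · have : Φ v ∈ LinearMap.range Φ := ⟨v, rfl⟩
      rw [h] at this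
      exact this
  obtain ⟨τ', hτ', hπ⟩ := S.descend hG.gen τ hτ π Φ hΦ hs
  refine ⟨τ', hτ', hπ, fun g x y => S.aut_of_lattice hG.gen τ' hτ' B (fun γ x y => ?_) g x y⟩
  rw [hπ, aut]

end Pool.Agent.P.MP_d483fb_an.Z.SR

end

end

section

open scoped Topology ENNReal
open MeasureTheory Filter Set

set_option linter.unusedSectionVars false

noncomputable section

namespace Pool.Agent.P.MP_d483fb_an.Z.SR

variable {G : Type} [Group G] [TopologicalSpace G] [IsTopologicalGroup G] [LocallyCompactSpace G]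
  [T2Space G] [SecondCountableTopology G] [MeasurableSpace G] [BorelSpace G]
  {Γ : Subgroup G} [Countable Γ] {X : Type} [MeasurableSpace X] [MulAction G X]
  [MeasurableSMul₂ G X]
  [MeasurableSpace.CountablyGenerated X]
  {k V : Type} [NontriviallyNormedField k] [ProperSpace k] [NormedAddCommGroup V] [NormedSpace k V]
  [FiniteDimensional k V]
  {S : Sec Γ X} {A : Type} [NormedAddCommGroup A] {a : A → G}

/-- The action by conjugation on endomorphisms. -/
def conjRep (π : Γ →* (V →L[k] V)) : Γ →* ((V →L[k] V) →L[k] (V →L[k] V)) where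
  toFun γ := ContinuousLinearMap.mulLeftRight k (V →L[k] V) (π γ) (π γ⁻¹)
  map_one' := by
    ext1 T
    simp
  map_mul' γ δ := by
    ext1 T
    simp [mul_assoc]

theorem conjRep_apply (π : Γ →* (V →L[k] V)) (γ : Γ) (T : V →L[k] V) :
    conjRep π γ T = π γ * T * π γ⁻¹ := by
  simp [conjRep]

theorem Good.padic [ConnectedSpace G] [IsUltrametricDist k] (hG : Good S a)
    (π : Γ →* (V →L[k] V)) (hz : ∀ γ : Γ, (γ : G) ∈ Subgroup.center G → π γ = 1)
    (hc : ∀ T : V →L[k] V, (∀ γ, T * π γ = π γ * T) → ∃ c : k, T = c • (1 : V →L[k] V)) :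
    ∃ C : ℝ, ∀ γ, ‖π γ‖ ≤ C := by
  by_contra hu
  obtain ⟨ι, _, ⟨o⟩⟩ := hG.met k V π
  obtain ⟨i, j, t, hij⟩ := hG.exists_lam_ne π hz hu o
  have hne : i ≠ j := by
    rintro rfl
    exact hij rfl
  have hinv : ∀ t, ∀ᵐ x ∂S.μ, conjRep π (S.β (a t) x) (o.P i x) = o.P i (a t • x) := by
    intro t
    filter_upwards [o.ae0] with x hx
    rw [conjRep_apply, ← hG.act]
    have h1 : o.P i (hG.sys.act t x) * π (S.β (a t) x) = π (S.β (a t) x) * o.P i x := by
      ext v
      exact o.P_inv x hx i t v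
    rw [← h1, mul_assoc, ← map_mul, mul_inv_cancel, map_one, mul_one]
  have hT : ∀ᵐ x ∂S.μ, o.P i x ∈ {T : V →L[k] V | ∀ c : k, T ≠ c • (1 : V →L[k] V)} := by
    filter_upwards [o.ae0] with x hx c hcx
    have hex : ∀ l, ∃ v ∈ o.D l x, v ≠ 0 := by
      intro l
      rw [← Submodule.ne_bot_iff]
      intro h0
      have h1 := o.rank x hx l
      rw [h0, finrank_bot] at h1
      exact absurd (o.d_pos l) (by omega)
    obtain ⟨u, hu1, hu2⟩ := hex i
    obtain ⟨v, hv1, hv2⟩ := hex j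
    have h1 := o.P_self x hx i u hu1
    have h2 := o.P_other x hx i j hne v hv1
    rw [hcx] at h1 h2
    simp only [smul_apply, one_apply_eq_self] at h1 h2
    have h3 : c = 0 := (smul_eq_zero.1 h2).resolve_right hv2
    rw [h3, zero_smul] at h1
    exact hu2 h1.symm
  obtain ⟨n, τ, Φ, hτ, hΦ, v, hv⟩ := hG.extend (conjRep π) (o.P i) (o.measP i) hinv _ hT
  have h1 : ∀ g, τ g = 1 := by
    intro g
    ext p q
    have h2 : Continuous fun g => τ g p q := hτ.matrix_elem p q
    rw [TotallyDisconnectedSpace.eq_of_continuous _ h2 g 1, map_one]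
  obtain ⟨c, hc'⟩ := hc (Φ v) fun γ => by
    have h2 := hΦ γ v
    rw [h1, Matrix.one_mulVec, conjRep_apply] at h2
    conv_lhs => rw [h2]
    rw [mul_assoc, ← map_mul, inv_mul_cancel, map_one, mul_one]
  exact hv c hc'

end Pool.Agent.P.MP_d483fb_an.Z.SR

end

end

section

open Set

set_option linter.unusedSectionVars false

noncomputable section

namespace Pool.Agent.P.MP_d483fb_an.Z.SR

open LieAlgebra LieAlgebra.IsKilling LieModule Module

section General

variable {K L : Type*} [Field K] [CharZero K] [LieRing L] [LieAlgebra K L]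
  [FiniteDimensional K L] [IsKilling K L]
  {H : LieSubalgebra K L} [H.IsCartanSubalgebra] [IsTriangularizable K H L]

/-- A nonzero root space is the line spanned by any of its nonzero vectors. -/
theorem Basis_line {β : Weight K H L} (hβ : β.IsNonZero) {y g : L}
    (hy : y ∈ rootSpace H β) (hg : g ∈ rootSpace H β) (hg0 : g ≠ 0) :
    ∃ c : K, y = c • g := by
  obtain ⟨c, hc⟩ := (finrank_eq_one_iff_of_nonzero' (⟨g, hg⟩ : rootSpace H β)
    (by rwa [ne_eq, LieSubmodule.mk_eq_zero])).mp (finrank_rootSpace_eq_one β hβ) ⟨y, hy⟩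
  exact ⟨c, by simpa using hc.symm⟩

/-- If the sum of two roots is a weight then the raising operator does not kill the root space. -/
theorem Basis_lie_ne_zero {α β : Weight K H L} (hα : α.IsNonZero) (hβ : β.IsNonZero)
    (hs : rootSpace H ((α : H → K) + β) ≠ ⊥) {h e f : L} (t : IsSl2Triple h e f)
    (he : e ∈ rootSpace H α) (hf : f ∈ rootSpace H (-α)) {x : L}
    (hx : x ∈ rootSpace H β) (hx0 : x ≠ 0) : ⁅e, x⁆ ≠ 0 := by
  obtain ⟨v, hv, hv0⟩ := (chainTop (α : H → K) β).exists_ne_zero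
  obtain rfl := t.h_eq_coroot hα he hf
  have prim : t.HasPrimitiveVectorWith v (chainLength α β : K) :=
    have := lie_mem_genWeightSpace_of_mem_genWeightSpace he hv
    ⟨hv0, (chainLength_smul _ _ hv).symm, by rwa [genWeightSpace_add_chainTop _ _ hα] at this⟩
  have h1 : (1 : ℤ) ≤ chainTopCoeff (α : H → K) β :=
    ((rootSpace_zsmul_add_ne_bot_iff α β hα 1).mp (by rwa [one_smul])).1
  have h2 := chainTopCoeff_le_chainLength α β
  obtain ⟨r, hr⟩ : ∃ r : ℕ, chainTopCoeff (α : H → K) β = r + 1 :=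
    ⟨chainTopCoeff (α : H → K) β - 1, by omega⟩
  have hm : (toEnd K L L f ^ (r + 1)) v ∈ rootSpace H β := by
    have := toEnd_pow_apply_mem hf hv (r + 1)
    rwa [coe_chainTop', hr, smul_neg, neg_add_cancel_left] at this
  have hn1 : (toEnd K L L f ^ (r + 1)) v ≠ 0 :=
    prim.pow_toEnd_f_ne_zero_of_eq_nat rfl (by omega)
  have hn0 : (toEnd K L L f ^ r) v ≠ 0 :=
    prim.pow_toEnd_f_ne_zero_of_eq_nat rfl (by omega)
  obtain ⟨c, rfl⟩ := Basis_line hβ hx hm hn1
  have hc : c ≠ 0 := by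
    rintro rfl
    exact hx0 (zero_smul _ _)
  rw [lie_smul, prim.lie_e_pow_succ_toEnd_f r]
  refine smul_ne_zero hc (smul_ne_zero (mul_ne_zero (Nat.cast_add_one_ne_zero r) ?_) hn0)
  rw [sub_ne_zero]
  intro hh
  have : chainLength α β = r := by exact_mod_cast hh
  omega

/-- One step of the induction on the height. -/
theorem Basis_step (S : LieSubalgebra K L) {α β γ : Weight K H L} (hα : α.IsNonZero)
    (hβ : β.IsNonZero) (hγ : γ.IsNonZero) (hs : (γ : H → K) = α + β) {h e f : L}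
    (t : IsSl2Triple h e f) (he : e ∈ rootSpace H α) (hf : f ∈ rootSpace H (-α)) (heS : e ∈ S)
    (hS : ∀ x ∈ rootSpace H β, x ∈ S) : ∀ y ∈ rootSpace H γ, y ∈ S := by
  intro y hy
  obtain ⟨x, hx, hx0⟩ := β.exists_ne_zero
  have hne := Basis_lie_ne_zero hα hβ (hs ▸ γ.genWeightSpace_ne_bot) t he hf hx hx0
  have hm : ⁅e, x⁆ ∈ rootSpace H γ := by
    rw [hs]
    exact lie_mem_genWeightSpace_of_mem_genWeightSpace he hx
  obtain ⟨c, rfl⟩ := Basis_line hγ hy hm hne
  exact S.smul_mem c (S.lie_mem heS (hS x hx))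

theorem Basis_root_add {i j k : H.root}
    (hk : (rootSystem H).root k = (rootSystem H).root i + (rootSystem H).root j) :
    ((k : Weight K H L) : H → K) = (j : Weight K H L) + (i : Weight K H L) := by
  funext x
  have := LinearMap.congr_fun hk x
  simp only [rootSystem_root_apply, LinearMap.add_apply, Weight.toLinear_apply] at this
  rw [Pi.add_apply, add_comm]
  exact this

/-- Root vectors for the simple roots and their negatives reach every root space. -/
theorem Basis_roots (b : (rootSystem H).Base) (S : LieSubalgebra K L)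
    (hS : ∀ i ∈ b.support, ∃ h e f : L, IsSl2Triple h e f ∧ e ∈ rootSpace H (i : Weight K H L) ∧
      f ∈ rootSpace H (-(i : Weight K H L)) ∧ e ∈ S ∧ f ∈ S) (k : H.root) :
    (∀ x ∈ rootSpace H (k : Weight K H L), x ∈ S) ∧
      ∀ x ∈ rootSpace H (-(k : Weight K H L)), x ∈ S := by
  refine b.induction_add k (p := fun k => (∀ x ∈ rootSpace H (k : Weight K H L), x ∈ S) ∧
      ∀ x ∈ rootSpace H (-(k : Weight K H L)), x ∈ S) ?_ ?_ ?_
  · intro i hi
    have h1 : ((((rootSystem H).reflectionPerm i i : H.root) : Weight K H L) : H → K) =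
        -(i : Weight K H L) := by
      funext x
      have h2 := (rootSystem H).root_reflectionPerm i i
      rw [RootPairing.reflection_apply_self] at h2
      exact LinearMap.congr_fun h2 x
    rw [h1, neg_neg]
    exact ⟨hi.2, hi.1⟩
  · intro i hi
    obtain ⟨h, e, f, t, he, hf, heS, hfS⟩ := hS i hi
    have hi0 := H.isNonZero_coe_root i
    refine ⟨fun x hx => ?_, fun x hx => ?_⟩
    · obtain ⟨c, rfl⟩ := Basis_line hi0 hx he t.e_ne_zero
      exact S.smul_mem c heS
    · rw [← Weight.coe_neg] at hx hf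
      obtain ⟨c, rfl⟩ := Basis_line hi0.neg hx hf t.f_ne_zero
      exact S.smul_mem c hfS
  · intro i j k hk hi hj
    obtain ⟨h, e, f, t, he, hf, heS, hfS⟩ := hS j hj
    have hi0 := H.isNonZero_coe_root i
    have hj0 := H.isNonZero_coe_root j
    have hk0 := H.isNonZero_coe_root k
    have hs := Basis_root_add hk
    refine ⟨Basis_step S hj0 hi0 hk0 hs t he hf heS hi.1, ?_⟩
    have hi2 := hi.2
    rw [← Weight.coe_neg] at hf hi2 ⊢
    refine Basis_step S hj0.neg hi0.neg hk0.neg ?_ t.symm hf ?_ hfS hi2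
    · rw [Weight.coe_neg, Weight.coe_neg, Weight.coe_neg, hs, neg_add]
    · rwa [Weight.coe_neg, neg_neg]

theorem Basis_top (S : LieSubalgebra K L) (hH : ∀ x ∈ H, x ∈ S)
    (hS : ∀ k : H.root, ∀ x ∈ rootSpace H (k : Weight K H L), x ∈ S) : S = ⊤ := by
  rw [eq_top_iff]
  rintro x -
  have hx : x ∈ ⨆ χ : Weight K H L, genWeightSpace L (χ : H → K) := by
    rw [iSup_genWeightSpace_eq_top' K H L]
    trivial
  refine LieSubmodule.iSup_induction _ (motive := fun x => x ∈ S) hx ?_ S.zero_mem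
    fun y z hy hz => S.add_mem hy hz
  intro χ y hy
  by_cases hχ : χ.IsNonZero
  · exact hS ⟨χ, by simpa [LieSubalgebra.root] using hχ⟩ y hy
  · have h0 : (χ : H → K) = 0 := not_not.mp hχ
    rw [h0] at hy
    have hy' : y ∈ rootSpace H (0 : H → K) := hy
    rw [rootSpace_zero_eq K L H] at hy'
    exact hH y hy'

theorem Basis_cartan (b : (rootSystem H).Base) (S : LieSubalgebra K L)
    (hS : ∀ i ∈ b.support, ((coroot (i : Weight K H L) : H) : L) ∈ S) : ∀ x ∈ H, x ∈ S := by
  intro x hx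
  have h1 : (⟨x, hx⟩ : H) ∈ Submodule.span K (range b.toCoweightBasis) := by
    rw [b.toCoweightBasis.span_eq]
    trivial
  have h2 : Submodule.span K (range b.toCoweightBasis) ≤
      S.toSubmodule.comap H.toSubmodule.subtype := by
    rw [Submodule.span_le]
    rintro - ⟨i, rfl⟩
    rw [b.toCoweightBasis_apply]
    exact hS i i.2
  exact h2 h1

theorem Basis_exists (b : (rootSystem H).Base) : Nonempty (LieAlgebra.Basis b.support H) := by
  have hex : ∀ i : b.support, ∃ h e f : L, IsSl2Triple h e f ∧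
      e ∈ rootSpace H ((i : H.root) : Weight K H L) ∧
      f ∈ rootSpace H (-((i : H.root) : Weight K H L)) := fun i =>
    exists_isSl2Triple_of_weight_isNonZero (H.isNonZero_coe_root i)
  choose h e f t he hf using hex
  have hh : ∀ i : b.support, h i = (coroot ((i : H.root) : Weight K H L) : H) := fun i =>
    (t i).h_eq_coroot (H.isNonZero_coe_root i) (he i) (hf i)
  have hA : ∀ i j : b.support, ((b.cartanMatrix i j : ℤ) : K) =
      ((i : H.root) : Weight K H L) (coroot ((j : H.root) : Weight K H L)) := fun i j => by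
    have := b.algebraMap_cartanMatrixIn_apply ℤ i j
    rw [rootSystem_pairing_apply] at this
    simpa using this
  refine ⟨{
    A := b.cartanMatrix
    h := h
    e := e
    f := f
    cartan_eq_lieSpan := ?_
    span_ef := ?_
    linInd := ?_
    nondegen := b.cartanMatrix_nondegenerate
    sl2 := t
    lie_h_h := ?_
    lie_h_e := ?_
    lie_h_f := ?_
    lie_e_f_ne := ?_ }⟩
  · refine le_antisymm (fun x hx => Basis_cartan b _ (fun i hi => ?_) x hx) ?_
    · exact LieSubalgebra.subset_lieSpan ⟨⟨i, hi⟩, hh ⟨i, hi⟩⟩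
    · rw [LieSubalgebra.lieSpan_le]
      rintro - ⟨i, rfl⟩
      rw [hh i]
      exact (coroot ((i : H.root) : Weight K H L)).2
  · have heS : ∀ i, e i ∈ LieSubalgebra.lieSpan K L (range e ∪ range f) := fun i =>
      LieSubalgebra.subset_lieSpan (Or.inl ⟨i, rfl⟩)
    have hfS : ∀ i, f i ∈ LieSubalgebra.lieSpan K L (range e ∪ range f) := fun i =>
      LieSubalgebra.subset_lieSpan (Or.inr ⟨i, rfl⟩)
    refine Basis_top (H := H) _ (Basis_cartan b _ fun i hi => ?_) fun k => ?_
    · rw [← hh ⟨i, hi⟩, ← (t ⟨i, hi⟩).lie_e_f]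
      exact LieSubalgebra.lie_mem _ (heS _) (hfS _)
    · refine (Basis_roots b _ (fun i hi => ?_) k).1
      exact ⟨h ⟨i, hi⟩, e ⟨i, hi⟩, f ⟨i, hi⟩, t ⟨i, hi⟩, he ⟨i, hi⟩, hf ⟨i, hi⟩, heS _, hfS _⟩
  · have h1 : h = H.toSubmodule.subtype ∘ b.toCoweightBasis := by
      funext i
      rw [Function.comp_apply, b.toCoweightBasis_apply, hh i]
      rfl
    rw [h1]
    exact b.toCoweightBasis.linearIndependent.map' _ (Submodule.ker_subtype _)
  · intro i j
    rw [hh i, hh j]
    have h0 : ((coroot ((j : H.root) : Weight K H L) : H) : L) ∈ rootSpace H (0 : H → K) := by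
      rw [rootSpace_zero_eq K L H]
      exact (coroot ((j : H.root) : Weight K H L)).2
    have := lie_eq_smul_of_mem_rootSpace h0 (coroot ((i : H.root) : Weight K H L))
    rw [Pi.zero_apply, zero_smul] at this
    exact this
  · intro i j
    have := lie_eq_smul_of_mem_rootSpace (he i) (coroot ((j : H.root) : Weight K H L))
    rw [hh j, ← Int.cast_smul_eq_zsmul K, hA]
    exact this
  · intro i j
    have := lie_eq_smul_of_mem_rootSpace (hf i) (coroot ((j : H.root) : Weight K H L))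
    rw [hh j, ← Int.cast_smul_eq_zsmul K, Int.cast_neg, hA]
    exact this
  · intro i j hij
    have hm := lie_mem_genWeightSpace_of_mem_genWeightSpace (he i) (hf j)
    by_contra hne
    have hbot : genWeightSpace L ((((i : H.root) : Weight K H L) : H → K) +
        -(((j : H.root) : Weight K H L) : H → K)) ≠ ⊥ := by
      intro hb
      rw [hb] at hm
      exact hne (by simpa using hm)
    let γ : Weight K H L := ⟨_, hbot⟩
    have hγ : γ.IsNonZero := by
      intro h0
      apply hij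
      ext x
      have := congr_fun h0 x
      exact sub_eq_zero.mp (by rw [sub_eq_add_neg]; exact this)
    refine b.sub_notMem_range_root i.2 j.2 ⟨⟨γ, by simpa [LieSubalgebra.root] using hγ⟩, ?_⟩
    ext x
    rw [sub_eq_add_neg]
    rfl

end General

theorem exists_lieBasis (L : Type) [LieRing L] [LieAlgebra ℂ L] [FiniteDimensional ℂ L]
    [LieAlgebra.IsSimple ℂ L] :
    ∃ (ι : Type) (_ : Finite ι) (H : LieSubalgebra ℂ L), Nonempty (LieAlgebra.Basis ι H) := by
  obtain ⟨x, hx⟩ := LieAlgebra.exists_isCartanSubalgebra_engel ℂ L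
  obtain ⟨b⟩ := (rootSystem (LieSubalgebra.engel ℂ x)).nonempty_base
  exact ⟨b.support, inferInstance, _, Basis_exists b⟩

end Pool.Agent.P.MP_d483fb_an.Z.SR

end

end

section

open Set

set_option linter.unusedSectionVars false

noncomputable section

namespace Pool.Agent.P.MP_d483fb_an.Z.SR

/-- The same Lie ring with the scalar action twisted by `σ`. -/
def Tw (_σ : ℂ ≃+* ℂ) (L : Type) : Type := L

namespace Tw

variable (σ : ℂ ≃+* ℂ) (L : Type) [LieRing L] [LieAlgebra ℂ L]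

instance : LieRing (Tw σ L) := inferInstanceAs (LieRing L)

instance : Module ℂ (Tw σ L) := Module.compHom L (σ.symm : ℂ ≃+* ℂ).toRingHom

/-- The identity map as an additive equivalence. -/
def mk : L ≃+ Tw σ L := AddEquiv.refl L

variable {σ L}

theorem smul_mk (c : ℂ) (x : L) : c • mk σ L x = mk σ L (σ.symm c • x) := rfl

theorem mk_smul (c : ℂ) (x : L) : mk σ L (c • x) = σ c • mk σ L x := by
  rw [smul_mk, RingEquiv.symm_apply_apply]

theorem mk_lie (x y : L) : mk σ L ⁅x, y⁆ = ⁅mk σ L x, mk σ L y⁆ := rfl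

instance : LieAlgebra ℂ (Tw σ L) where
  lie_smul c x y := by
    obtain ⟨x, rfl⟩ := (mk σ L).surjective x
    obtain ⟨y, rfl⟩ := (mk σ L).surjective y
    rw [smul_mk, ← mk_lie, ← mk_lie, smul_mk, lie_smul]

theorem mem_span {s : Set L} {x : L} (hx : x ∈ Submodule.span ℂ s) :
    mk σ L x ∈ Submodule.span ℂ (mk σ L '' s) := by
  induction hx using Submodule.span_induction with
  | mem v hv => exact Submodule.subset_span (mem_image_of_mem _ hv)
  | zero => rw [map_zero]; exact zero_mem _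
  | add v w _ _ hv hw => rw [map_add]; exact add_mem hv hw
  | smul t v _ hv => rw [mk_smul]; exact Submodule.smul_mem _ _ hv

theorem mem_lieSpan {s : Set L} {x : L} (hx : x ∈ LieSubalgebra.lieSpan ℂ L s) :
    mk σ L x ∈ LieSubalgebra.lieSpan ℂ (Tw σ L) (mk σ L '' s) := by
  induction hx using LieSubalgebra.lieSpan_induction with
  | mem v hv => exact LieSubalgebra.subset_lieSpan (mem_image_of_mem _ hv)
  | zero => rw [map_zero]; exact zero_mem _
  | add v w _ _ hv hw => rw [map_add]; exact add_mem hv hw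
  | smul t v _ hv => rw [mk_smul]; exact LieSubalgebra.smul_mem _ _ hv
  | lie v w _ _ hv hw => rw [mk_lie]; exact LieSubalgebra.lie_mem _ hv hw

instance [FiniteDimensional ℂ L] : FiniteDimensional ℂ (Tw σ L) := by
  obtain ⟨s, hs⟩ := Module.Finite.fg_top (R := ℂ) (M := L)
  refine ⟨Submodule.fg_def.2 ⟨mk σ L '' s, s.finite_toSet.image _, ?_⟩⟩
  rw [eq_top_iff]
  intro x _
  obtain ⟨x, rfl⟩ := (mk σ L).surjective x
  exact mem_span (hs ▸ Submodule.mem_top)

/-- The ideal of `L` with the same carrier as an ideal of the twist. -/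
def unIdeal (I : LieIdeal ℂ (Tw σ L)) : LieIdeal ℂ L where
  carrier := {x | mk σ L x ∈ I}
  add_mem' := fun {a b} ha hb => by
    simp only [mem_ofPred_eq, map_add] at ha hb ⊢
    exact add_mem ha hb
  zero_mem' := by
    simp only [mem_ofPred_eq, map_zero]
    exact zero_mem I
  smul_mem' := fun c x hx => by
    simp only [mem_ofPred_eq, mk_smul] at hx ⊢
    exact I.smul_mem _ hx
  lie_mem := fun {x m} hm => by
    simp only [mem_ofPred_eq, mk_lie] at hm ⊢
    exact I.lie_mem hm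

theorem mem_unIdeal {I : LieIdeal ℂ (Tw σ L)} {x : L} : x ∈ unIdeal I ↔ mk σ L x ∈ I := Iff.rfl

instance [LieAlgebra.IsSimple ℂ L] : LieAlgebra.IsSimple ℂ (Tw σ L) where
  eq_bot_or_eq_top I := by
    rcases LieAlgebra.IsSimple.eq_bot_or_eq_top (unIdeal I) with h | h
    · left
      rw [eq_bot_iff]
      intro x hx
      obtain ⟨x, rfl⟩ := (mk σ L).surjective x
      have h1 : x ∈ unIdeal I := mem_unIdeal.2 hx
      rw [h, LieSubmodule.mem_bot] at h1
      rw [h1, map_zero]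
      exact zero_mem _
    · right
      rw [eq_top_iff]
      intro x _
      obtain ⟨x, rfl⟩ := (mk σ L).surjective x
      exact mem_unIdeal.1 (h ▸ LieSubmodule.mem_top x)
  non_abelian h := by
    apply LieAlgebra.IsSimple.non_abelian ℂ (L := L)
    refine ⟨fun x y => (mk σ L).injective ?_⟩
    rw [mk_lie, map_zero]
    exact trivial_lie_zero _ _ _ _

theorem linInd {ι : Type} {v : ι → L} (hv : LinearIndependent ℂ v) :
    LinearIndependent ℂ (fun i => mk σ L (v i)) := by
  rw [linearIndependent_iff'] at hv ⊢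
  intro s g hg i hi
  have h1 : ∑ j ∈ s, σ.symm (g j) • v j = 0 := by
    apply (mk σ L).injective
    rw [map_sum, map_zero, ← hg]
    exact Finset.sum_congr rfl fun j _ => (smul_mk _ _).symm
  have h2 := hv s (fun j => σ.symm (g j)) h1 i hi
  exact (map_eq_zero_iff _ σ.symm.injective).1 h2

/-- A basis of `L` is a basis of the twist, with the same matrix. -/
def basis {ι : Type} [Finite ι] {H : LieSubalgebra ℂ L} (b : LieAlgebra.Basis ι H) :
    LieAlgebra.Basis ι
      (LieSubalgebra.lieSpan ℂ (Tw σ L) (range fun i => mk σ L (b.h i))) where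
  A := b.A
  h := fun i => mk σ L (b.h i)
  e := fun i => mk σ L (b.e i)
  f := fun i => mk σ L (b.f i)
  cartan_eq_lieSpan := rfl
  span_ef := by
    rw [eq_top_iff]
    intro x _
    obtain ⟨x, rfl⟩ := (mk σ L).surjective x
    have h1 : x ∈ LieSubalgebra.lieSpan ℂ L (range b.e ∪ range b.f) := by
      rw [b.span_ef]; exact LieSubalgebra.mem_top x
    have h2 := mem_lieSpan (σ := σ) h1
    rwa [image_union, ← range_comp, ← range_comp] at h2
  linInd := linInd b.linInd
  nondegen := b.nondegen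
  sl2 i :=
    { h_ne_zero := fun h => (b.sl2 i).h_ne_zero ((mk σ L).map_eq_zero_iff.1 h)
      lie_e_f := by rw [← mk_lie, (b.sl2 i).lie_e_f]
      lie_h_e_nsmul := by rw [← mk_lie, (b.sl2 i).lie_h_e_nsmul, map_nsmul]
      lie_h_f_nsmul := by rw [← mk_lie, (b.sl2 i).lie_h_f_nsmul, map_neg, map_nsmul] }
  lie_h_h i j := by rw [← mk_lie, b.lie_h_h, map_zero]
  lie_h_e i j := by rw [← mk_lie, b.lie_h_e, map_zsmul]
  lie_h_f i j := by rw [← mk_lie, b.lie_h_f, map_zsmul]
  lie_e_f_ne i j hij := by rw [← mk_lie, b.lie_e_f_ne i j hij, map_zero]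

end Tw

theorem exists_twist (L : Type) [LieRing L] [LieAlgebra ℂ L] [FiniteDimensional ℂ L]
    [LieAlgebra.IsSimple ℂ L] (σ : ℂ ≃+* ℂ) :
    ∃ F : L ≃+ L, (∀ (c : ℂ) (x : L), F (c • x) = σ c • F x) ∧ ∀ x y, F ⁅x, y⁆ = ⁅F x, F y⁆ := by
  obtain ⟨ι, _, H, ⟨b⟩⟩ := exists_lieBasis L
  let e : Tw σ L ≃ₗ⁅ℂ⁆ L :=
    LieAlgebra.Basis.equivOfReindex (Equiv.refl ι) (Tw.basis (σ := σ) b) b (by simp [Tw.basis])
  refine ⟨(Tw.mk σ L).trans e.toLinearEquiv.toAddEquiv, fun c x => ?_, fun x y => ?_⟩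
  · change e (Tw.mk σ L (c • x)) = σ c • e (Tw.mk σ L x)
    rw [Tw.mk_smul, map_smul]
  · change e (Tw.mk σ L ⁅x, y⁆) = ⁅e (Tw.mk σ L x), e (Tw.mk σ L y)⁆
    rw [Tw.mk_lie, LieEquiv.map_lie]

end Pool.Agent.P.MP_d483fb_an.Z.SR

end

end

section

open scoped Topology ENNReal Matrix TensorProduct
open MeasureTheory Filter Set

set_option linter.unusedSectionVars false

noncomputable section

namespace Pool.Agent.P.MP_d483fb_an.Z.SR

section Aux

variable {Λ L : Type} [Group Λ] [LieRing L] [LieAlgebra ℂ L] [LieAlgebra.IsSimple ℂ L]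
  [FiniteDimensional ℂ L]

theorem schur (π : Λ →* Module.End ℂ L)
    (irr : ∀ W : Submodule ℂ L, (∀ γ, ∀ v ∈ W, π γ v ∈ W) → W = ⊥ ∨ W = ⊤)
    (T : Module.End ℂ L) (hT : ∀ γ, T * π γ = π γ * T) : ∃ c : ℂ, T = c • 1 := by
  have : Nontrivial L := LieAlgebra.IsSimple.nontrivial ℂ L
  obtain ⟨c, hc⟩ := Module.End.exists_eigenvalue T
  refine ⟨c, LinearMap.ext fun v => ?_⟩
  have h := (irr (T.eigenspace c) fun γ v hv => ?_).resolve_left hc
  · have hv : v ∈ T.eigenspace c := h ▸ Submodule.mem_top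
    exact Module.End.mem_eigenspace_iff.1 hv
  · rw [Module.End.mem_eigenspace_iff] at hv ⊢
    rw [← Module.End.mul_apply, hT, Module.End.mul_apply, hv, map_smul]

theorem central_eq_one (π : Λ →* Module.End ℂ L) (aut : ∀ γ x y, π γ ⁅x, y⁆ = ⁅π γ x, π γ y⁆)
    (irr : ∀ W : Submodule ℂ L, (∀ γ, ∀ v ∈ W, π γ v ∈ W) → W = ⊥ ∨ W = ⊤) {γ : Λ}
    (hγ : ∀ δ, γ * δ = δ * γ) : π γ = 1 := by
  obtain ⟨c, hc⟩ := schur π irr (π γ) fun δ => by rw [← map_mul, ← map_mul, hγ]
  have h1 : ∃ x y : L, ⁅x, y⁆ ≠ 0 := by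
    by_contra h
    push Not at h
    exact LieAlgebra.IsSimple.non_abelian ℂ (L := L) ⟨h⟩
  obtain ⟨x, y, hxy⟩ := h1
  have h2 := aut γ x y
  rw [hc] at h2
  simp only [LinearMap.smul_apply, Module.End.one_apply, smul_lie, lie_smul, smul_smul] at h2
  have h3 : c = c * c := smul_left_injective ℂ hxy h2
  have h4 : c ≠ 0 := by
    rintro rfl
    have h5 : π γ⁻¹ (π γ ⁅x, y⁆) = ⁅x, y⁆ := by
      rw [← Module.End.mul_apply, ← map_mul, inv_mul_cancel, map_one, Module.End.one_apply]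
    rw [hc] at h5
    exact hxy (by simpa using h5.symm)
  rw [hc, (mul_eq_left₀ h4).1 h3.symm, one_smul]

end Aux

/-- Matrices as continuous linear maps. -/
def clm (k : Type) [NontriviallyNormedField k] [CompleteSpace k] (d : ℕ) :
    Matrix (Fin d) (Fin d) k ≃ₐ[k] ((Fin d → k) →L[k] (Fin d → k)) :=
  Matrix.toLinAlgEquiv'.trans (Module.End.toContinuousLinearMap (Fin d → k))

theorem clm_apply {k : Type} [NontriviallyNormedField k] [CompleteSpace k] {d : ℕ}
    (M : Matrix (Fin d) (Fin d) k) (v : Fin d → k) : clm k d M v = M *ᵥ v := rfl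

theorem entry_le_clm {k : Type} [NontriviallyNormedField k] [CompleteSpace k] {d : ℕ}
    (M : Matrix (Fin d) (Fin d) k) (i j : Fin d) : ‖M i j‖ ≤ ‖clm k d M‖ := by
  have h1 : clm k d M (Pi.single j 1) i = M i j := by simp [clm_apply]
  rw [← h1]
  refine (norm_le_pi_norm _ i).trans (((clm k d M).le_opNorm _).trans ?_)
  rw [Pi.norm_single, norm_one, mul_one]

variable {G : Type} [Group G] [TopologicalSpace G] [IsTopologicalGroup G] [LocallyCompactSpace G]
  [T2Space G] [SecondCountableTopology G] [MeasurableSpace G] [BorelSpace G]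
  {Γ : Subgroup G} [Countable Γ] {X : Type} [MeasurableSpace X] [MulAction G X]
  [MeasurableSMul₂ G X]
  [MeasurableSpace.CountablyGenerated X]
  {S : Sec Γ X} {A : Type} [NormedAddCommGroup A] {a : A → G}

theorem Good.rigid_padic [ConnectedSpace G] (hG : Good S a) {d : ℕ}
    (R : Γ →* Matrix (Fin d) (Fin d) ℂ) (hz : ∀ γ : Γ, (γ : G) ∈ Subgroup.center G → R γ = 1)
    (hc : ∀ M : Matrix (Fin d) (Fin d) ℂ, (∀ γ, M * R γ = R γ * M) → ∃ c : ℂ, M = c • 1)
    {k : Type} [NontriviallyNormedField k] [ProperSpace k] [IsUltrametricDist k] {Ω : Type}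
    [Field Ω] (ι : k →+* Ω) (σ : ℂ ≃+* Ω) (R' : Γ →* Matrix (Fin d) (Fin d) k)
    (h : ∀ γ i j, ι (R' γ i j) = σ (R γ i j)) : ∃ C : ℝ, ∀ γ i j, ‖R' γ i j‖ ≤ C := by
  let ψ : k →+* ℂ := σ.symm.toRingHom.comp ι
  have hψ : ∀ γ, (R' γ).map ψ = R γ := fun γ => by
    ext i j
    simp [ψ, h]
  have hinj : Function.Injective fun M : Matrix (Fin d) (Fin d) k => M.map ψ :=
    Matrix.map_injective ψ.injective
  refine (hG.padic ((clm k d).toMonoidHom.comp R') (fun γ hγ => ?_) fun T hT => ?_).imp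
    fun C hC γ i j => (entry_le_clm _ i j).trans (hC γ)
  · have : R' γ = 1 := hinj (by
      simp only [hψ, hz γ hγ]
      exact (Matrix.map_one _ (map_zero ψ) (map_one ψ)).symm)
    change clm k d (R' γ) = 1
    rw [this, map_one]
  · obtain ⟨M, rfl⟩ := (clm k d).surjective T
    obtain ⟨c, hM⟩ := hc (M.map ψ) fun γ => by
      have h1 : M * R' γ = R' γ * M := (clm k d).injective (by rw [map_mul, map_mul]; exact hT γ)
      rw [← hψ, ← Matrix.map_mul, ← Matrix.map_mul, h1]
    rcases Nat.eq_zero_or_pos d with rfl | hd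
    · exact ⟨0, Subsingleton.elim _ _⟩
    · let i₀ : Fin d := ⟨0, hd⟩
      have h2 : ψ (M i₀ i₀) = c := by simpa using congrFun (congrFun hM i₀) i₀
      refine ⟨M i₀ i₀, ?_⟩
      have h3 : M = M i₀ i₀ • (1 : Matrix (Fin d) (Fin d) k) := hinj (by
        simp only [hM]
        ext i j
        by_cases hij : i = j
        · simp [hij, h2]
        · simp [hij])
      conv_lhs => rw [h3, map_smul, map_one]

theorem Good.rigid_arch (hG : Good S a) {𝔤 : Type} [LieRing 𝔤] [LieAlgebra ℝ 𝔤] (hd : Der G 𝔤)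
    {L : Type} [LieRing L] [LieAlgebra ℂ L] [LieAlgebra.IsSimple ℂ L] {d : ℕ}
    (θ : (Fin d → ℂ) ≃ₗ[ℂ] L) (π : Γ →* ((Fin d → ℂ) →L[ℂ] (Fin d → ℂ)))
    (hz : ∀ γ : Γ, (γ : G) ∈ Subgroup.center G → π γ = 1)
    (aut : ∀ γ u v, θ (π γ (θ.symm ⁅θ u, θ v⁆)) = ⁅θ (π γ u), θ (π γ v)⁆)
    (irr : ∀ W : Submodule ℂ (Fin d → ℂ), (∀ γ, ∀ v ∈ W, π γ v ∈ W) → W = ⊥ ∨ W = ⊤)
    (hu : ¬ ∃ C : ℝ, ∀ γ, ‖π γ‖ ≤ C) : ∃ φ : ℂ ⊗[ℝ] 𝔤 →ₗ⁅ℂ⁆ L, Function.Surjective φ := by
  have : FiniteDimensional ℂ L := θ.finiteDimensional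
  let B₀ : (Fin d → ℂ) →ₗ[ℂ] (Fin d → ℂ) →ₗ[ℂ] (Fin d → ℂ) :=
    LinearMap.mk₂ ℂ (fun u v => θ.symm ⁅θ u, θ v⁆) (fun _ _ _ => by simp) (fun _ _ _ => by simp)
      (fun _ _ _ => by simp) (fun _ _ _ => by simp)
  let B : (Fin d → ℂ) →L[ℂ] (Fin d → ℂ) →L[ℂ] (Fin d → ℂ) :=
    LinearMap.toContinuousLinearMap (LinearMap.toContinuousLinearMap.toLinearMap ∘ₗ B₀)
  have hB : ∀ u v, B u v = θ.symm ⁅θ u, θ v⁆ := fun _ _ => rfl
  have inner : ∀ D : (Fin d → ℂ) →L[ℂ] (Fin d → ℂ),
      (∀ x y, D (B x y) = B (D x) y + B x (D y)) → ∃ h, D = B h := by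
    intro D hD
    let D' : LieDerivation ℂ L L :=
      { toLinearMap := θ.toLinearMap ∘ₗ D.toLinearMap ∘ₗ θ.symm.toLinearMap
        leibniz' := fun x y => by
          have h := congrArg θ (hD (θ.symm x) (θ.symm y))
          simp only [hB, LinearEquiv.apply_symm_apply, map_add] at h
          simp only [LinearMap.comp_apply, LinearEquiv.coe_coe, ContinuousLinearMap.coe_coe, h]
          rw [← lie_skew (θ (D (θ.symm x))) y]
          abel }
    obtain ⟨x, hx⟩ := LieDerivation.IsKilling.exists_eq_ad D'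
    refine ⟨θ.symm x, ContinuousLinearMap.ext fun v => θ.injective ?_⟩
    have h := congrArg (fun E : LieDerivation ℂ L L => E (θ v)) hx
    simp only [LieDerivation.ad_apply_apply] at h
    rw [hB, θ.apply_symm_apply, θ.apply_symm_apply, h]
    change θ (D v) = θ (D (θ.symm (θ v)))
    rw [θ.symm_apply_apply]
  have inj : Function.Injective B := by
    refine (injective_iff_map_eq_zero B).2 fun u hu => ?_
    refine θ.map_eq_zero_iff.1 (LieModule.ext_of_isFaithful (R := ℂ) (L := L) L fun y => ?_)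
    have h := congrArg (fun T : (Fin d → ℂ) →L[ℂ] (Fin d → ℂ) => θ (T (θ.symm y))) hu
    simpa [hB] using h
  obtain ⟨τ, hτ, hπ, haut⟩ := hG.arch B π hz
    (fun γ x y => θ.injective (by rw [hB, hB, aut, θ.apply_symm_apply])) inner inj irr hu
  obtain ⟨ψ, h1, h2⟩ := lie_surj hd B (fun u v => ContinuousLinearMap.ext fun w => by
      simp [hB]) inner inj τ hτ haut
    (fun W hW => irr W fun γ v hv => hπ γ ▸ hW γ v hv) (by
      by_contra h
      push Not at h
      exact hu ⟨1, fun γ => by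
        rw [← hπ, h]
        exact ContinuousLinearMap.norm_id_le⟩)
  refine exists_lieHom (θ.toLinearMap.toAddMonoidHom.comp ψ.toAddMonoidHom) (fun t Y => ?_)
    (fun Y Y' => ?_) ?_
  · change θ (ψ (t • Y)) = (t : ℂ) • θ (ψ Y)
    rw [ψ.map_smul, ← θ.map_smul, Complex.coe_smul]
  · change θ (ψ ⁅Y, Y'⁆) = ⁅θ (ψ Y), θ (ψ Y')⁆
    rw [h1, hB, θ.apply_symm_apply]
  · have h3 : range (θ.toLinearMap.toAddMonoidHom.comp ψ.toAddMonoidHom) =
        θ.toLinearMap '' range ψ := range_comp θ ψ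
    rw [h3, ← Submodule.map_span, h2, Submodule.map_top, LinearEquiv.range]

theorem Good.rigid [ConnectedSpace G] [Group.FG Γ] (hG : Good S a) {𝔤 : Type} [LieRing 𝔤]
    [LieAlgebra ℝ 𝔤] (hd : Der G 𝔤) : Rigid Γ 𝔤 := by
  intro L _ _ _ d b π aut uni irr inf
  have : FiniteDimensional ℂ L := Module.Finite.of_basis b
  let R : Γ →* Matrix (Fin d) (Fin d) ℂ := (LinearMap.toMatrixAlgEquiv b).toMonoidHom.comp π
  have hR : ∀ γ, R γ = LinearMap.toMatrixAlgEquiv b (π γ) := fun _ => rfl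
  have hinf : (range R).Infinite := by
    have h : range R = LinearMap.toMatrixAlgEquiv b '' range π :=
      range_comp (LinearMap.toMatrixAlgEquiv b) π
    rw [h]
    exact inf.image (LinearMap.toMatrixAlgEquiv b).injective.injOn
  have hz : ∀ γ : Γ, (γ : G) ∈ Subgroup.center G → R γ = 1 := fun γ hγ => by
    rw [hR, central_eq_one π aut irr fun δ =>
      Subtype.ext (Subgroup.mem_center_iff.1 hγ δ).symm, map_one]
  rcases tits R uni hinf with ⟨σ, hσ⟩ | ⟨k, _, _, _, Ω, _, ι, σ, R', h1, h2⟩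
  · obtain ⟨F, hF1, hF2⟩ := exists_twist L σ
    let e : L ≃+ (Fin d → ℂ) :=
      b.equivFun.toAddEquiv.trans (AddEquiv.piCongrRight fun _ => σ.toAddEquiv)
    have he : ∀ x i, e x i = σ (b.repr x i) := fun _ _ => rfl
    have hes : ∀ (c : ℂ) (x : L), e (c • x) = σ c • e x := fun c x => funext fun i => by
      simp [he]
    let θ : (Fin d → ℂ) ≃ₗ[ℂ] L :=
      { e.symm.trans F with
        map_smul' := fun c v => by
          obtain ⟨x, rfl⟩ := e.surjective v
          obtain ⟨c, rfl⟩ := σ.surjective c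
          change F (e.symm (σ c • e x)) = σ c • F (e.symm (e x))
          rw [← hes, e.symm_apply_apply, e.symm_apply_apply, hF1] }
    have hθ : ∀ x, θ (e x) = F x := fun x => congrArg F (e.symm_apply_apply x)
    let π' : Γ →* ((Fin d → ℂ) →L[ℂ] (Fin d → ℂ)) :=
      (clm ℂ d).toMonoidHom.comp
        (((σ : ℂ →+* ℂ).mapMatrix (m := Fin d)).toMonoidHom.comp R)
    have hπ' : ∀ γ, π' γ = clm ℂ d ((R γ).map σ) := fun _ => rfl
    have hπe : ∀ γ x, π' γ (e x) = e (π γ x) := fun γ x => funext fun i => by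
      have h := congrFun (LinearMap.toMatrix_mulVec_repr b b (π γ) x) i
      rw [he, ← h, hπ', clm_apply]
      simp only [Matrix.mulVec, dotProduct, map_sum, map_mul, Matrix.map_apply, he]
      rfl
    refine hG.rigid_arch hd θ π' (fun γ hγ => ?_) (fun γ u v => ?_) (fun W hW => ?_) fun h => ?_
    · rw [hπ', hz γ hγ, Matrix.map_one _ (map_zero σ) (map_one σ), map_one]
    · obtain ⟨x, rfl⟩ := e.surjective u
      obtain ⟨y, rfl⟩ := e.surjective v
      rw [hθ, hθ, ← hF2, ← hθ, θ.symm_apply_apply, hπe, hπe, hπe, hθ, hθ, hθ, aut, hF2]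
    · let W' : Submodule ℂ L :=
        { carrier := {x | e x ∈ W}
          zero_mem' := by simp
          add_mem' := fun {x y} hx hy => by
            change e (x + y) ∈ W
            rw [map_add]
            exact W.add_mem hx hy
          smul_mem' := fun c x hx => by
            change e (c • x) ∈ W
            rw [hes]
            exact W.smul_mem _ hx }
      have hW' : ∀ x, x ∈ W' ↔ e x ∈ W := fun _ => Iff.rfl
      refine (irr W' fun γ x hx => ?_).imp (fun h => ?_) fun h => ?_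
      · rw [hW', ← hπe]
        exact hW γ _ hx
      · refine eq_bot_iff.2 fun v hv => ?_
        obtain ⟨x, rfl⟩ := e.surjective v
        have hx : x ∈ W' := hv
        rw [h, Submodule.mem_bot] at hx
        rw [hx, map_zero]
        exact Submodule.zero_mem _
      · refine eq_top_iff.2 fun v _ => ?_
        obtain ⟨x, rfl⟩ := e.surjective v
        exact (hW' x).1 (h ▸ Submodule.mem_top)
    · obtain ⟨C, hC⟩ := h
      exact hσ ⟨C, fun γ i j => (entry_le_clm ((R γ).map σ) i j).trans (hC γ)⟩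
  · refine absurd (hG.rigid_padic R hz (fun M hM => ?_) ι σ R' h1) h2
    obtain ⟨T, rfl⟩ := (LinearMap.toMatrixAlgEquiv b).surjective M
    obtain ⟨c, hc⟩ := schur π irr T fun γ => (LinearMap.toMatrixAlgEquiv b).injective (by
      rw [map_mul, map_mul]
      exact hM γ)
    exact ⟨c, by rw [hc, map_smul, map_one]⟩

end Pool.Agent.P.MP_d483fb_an.Z.SR

end

end

section

/-!
Continuous homomorphisms of a higher rank group have a derivative.
-/

open scoped Matrix Matrix.Norms.Operator Topology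
open NormedSpace Filter Set

attribute [local instance 100] LieRing.ofAssociativeRing

noncomputable section

namespace Pool.Agent.P.MP_d483fb_an.Z

theorem HigherRank.der {G : Type} [Group G] [TopologicalSpace G] [IsTopologicalGroup G]
    [PreconnectedSpace G] {n : ℕ} (R : HigherRank G n) : SR.Der G (lieAlg (Set.range R.ρ)) := by
  intro A _ _ _ τ hτ
  have := FiniteDimensional.complete ℝ A
  obtain ⟨D, -, hg⟩ := R.exists_expData
  have hm : ∀ X : Mat n, X ∈ lieAlg (Set.range R.ρ) ↔ X ∈ D.g := fun X => by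
    rw [hg, R.matGrp.mem_lieAlg, R.matGrp.mem_lieOf_mat]
  obtain ⟨d, h1, h2, h3⟩ := D.exists_deriv τ hτ
  refine ⟨d ∘ₗ (lieAlg (Set.range R.ρ)).toSubmodule.subtype, fun X Y => ?_, fun X t => ?_,
    fun g X => ?_, fun h0 g => ?_⟩
  · exact h3 X ((hm _).1 X.2) Y ((hm _).1 Y.2)
  · refine ⟨D.ex (t • X.1), ?_⟩
    rw [h1 _ (D.g.smul_mem t ((hm _).1 X.2)), map_smul]
    rfl
  · refine ⟨⟨D.Ad g X, (hm _).2 (D.Ad_mem g ((hm _).1 X.2))⟩, ?_⟩
    change τ g * d X = d (D.Ad g X) * τ g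
    rw [h2 g X ((hm _).1 X.2), mul_assoc, ← map_mul, inv_mul_cancel, map_one, mul_one]
  · refine D.ex_induction (p := fun x => τ x = 1) one_pos (map_one τ) (fun X hX _ x hx => ?_) g
    have h4 : d X = 0 := h0 ⟨X, (hm _).2 hX⟩
    rw [map_mul, hx, h1 X hX, h4, exp_zero, mul_one]

end Pool.Agent.P.MP_d483fb_an.Z

end

end

section

/-! The data of superrigidity for the quotient of a normed group by a lattice. -/

open scoped Topology
open MeasureTheory Filter Set

set_option linter.unusedSectionVars false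

noncomputable section

namespace Pool.Agent.P.MP_d483fb_an.Z.SR

variable {G : Type} [Group G] [TopologicalSpace G] [IsTopologicalGroup G] [T2Space G]
  [LocallyCompactSpace G] [SecondCountableTopology G] [MeasurableSpace G] [BorelSpace G]
  (L : Lat G) (μ : Measure L.B) [IsProbabilityMeasure μ] [SMulInvariantMeasure G L.B μ]

/-- The section by elements of least norm. -/
def latSec : Sec L.Γ L.B where
  o := L.o
  μ := μ
  s := L.sec
  stab _ := L.smul_o_eq
  prob := inferInstance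
  inv g := measurePreserving_smul g μ
  meas := L.measurable_sec
  s_o := L.sec_smul_o

theorem latSec_β (g : G) (x : L.B) : (latSec L μ).β g x = L.c g x :=
  Subtype.ext (L.coe_c g x).symm

theorem lat_lmr {Far : G → ℝ → Prop} {T : Set G} (P : Geo L.toLen Far T)
    (E : Equi L.toLen Far L.base.o μ) (f : L.Γ → ℝ) (hf : ∀ γ δ, f (γ * δ) ≤ f γ + f δ) :
    ∃ C : ℝ, 0 ≤ C ∧ ∀ γ, f γ ≤ C * (L.len γ + 2) := by
  classical
  obtain ⟨C, hC⟩ := L.base.lmr P E (fun g => if h : g ∈ L.Γ then f ⟨g, h⟩ else 0) fun g g' h h' => by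
    have h1 := L.smul_o_eq.1 h
    have h2 := L.smul_o_eq.1 h'
    rw [dif_pos h1, dif_pos h2, dif_pos (mul_mem h1 h2)]
    exact hf ⟨g, h1⟩ ⟨g', h2⟩
  refine ⟨|C|, abs_nonneg C, fun γ => ?_⟩
  have h := hC γ (L.smul_o_eq.2 γ.2)
  rw [dif_pos γ.2] at h
  have h1 := L.toLen_le γ
  exact h.trans (mul_le_mul (le_abs_self C) (by linarith) (by positivity) (abs_nonneg C))

theorem lat_good {A : Type} [NormedAddCommGroup A] [NormedSpace ℝ A] [FiniteDimensional ℝ A]
    {a : A → G} (add : ∀ t t', a (t + t') = a t * a t') (cont : Continuous a) {c : ℝ}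
    (hc : 0 ≤ c) (hlen : ∀ t, L.len (a t) ≤ c * ‖t‖)
    (erg : ∃ t, Ergodic (fun x : L.B => a t • x) μ) (gen : Gen G)
    (dec : Dec a (L.Γ ∩ Subgroup.center G)) (ms : MS μ a)
    (lmr : ∀ f : L.Γ → ℝ, (∀ γ δ, f (γ * δ) ≤ f γ + f δ) →
      ∃ C : ℝ, 0 ≤ C ∧ ∀ γ, f γ ≤ C * (L.len γ + 2)) (nc : NoChar L.Γ) :
    Nonempty (Good (latSec L μ) a) := by
  have h0 : a 0 = 1 := by simpa using add 0 0
  let sys : Os.Sys A L.B μ :=
    { act := fun t x => a t • x
      zero := fun x => by rw [h0, one_smul]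
      add := fun s t x => by rw [add, mul_smul]
      mp := fun s => measurePreserving_smul _ μ
      erg := fun U hU h => by
        obtain ⟨t, ht⟩ := erg
        refine (ht.ae_empty_or_univ hU (Set.ext fun x => ⟨fun hx => ?_, h t x⟩)).imp
          ae_eq_empty.1 ae_eq_univ.1
        have := h (-t) _ hx
        rwa [smul_smul, ← add, neg_add_cancel, h0, one_smul] at this }
  refine ⟨⟨sys, fun _ _ => rfl, add, fun C hC => ?_, gen, dec, ms, fun k V _ _ _ _ _ π => ?_, nc⟩⟩
  · exact (show IsCompact {γ : L.Γ | (γ : G) ∈ C} from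
      L.closed.isClosedEmbedding_subtypeVal.isCompact_preimage hC).finite_of_discrete
  · borelize A
    have := FiniteDimensional.proper k V
    have h1 : ∀ γ, (0 : ℝ) < max 1 ‖π γ‖ := fun γ => one_pos.trans_le (le_max_left _ _)
    obtain ⟨C, hC, h⟩ := lmr (fun γ => Real.log (max 1 ‖π γ‖)) fun γ δ => by
      rw [← Real.log_mul (h1 γ).ne' (h1 δ).ne']
      refine Real.log_le_log (h1 _) (max_le
        (one_le_mul_of_one_le_of_one_le (le_max_left _ _) (le_max_left _ _)) ?_)
      rw [map_mul]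
      exact (norm_mul_le _ _).trans
        (mul_le_mul (le_max_right _ _) (le_max_right _ _) (norm_nonneg _) (h1 γ).le)
    have hcc := mul_nonneg hC hc
    refine Os.oseledets_temp (h := fun x => 2 * C * L.ht x) (L := 2 * (C * c) + 2 * C)
      ⟨fun x v => ?_, fun s t x v => ?_, fun s x v => ?_, by positivity,
        L.measurable_ht.const_mul _, fun x => mul_nonneg (by positivity) (L.ht_nonneg x),
        fun s x => ?_⟩
      (((latSec L μ).stronglyMeasurable_comp_β fun γ => π γ).comp_measurable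
        ((cont.measurable.comp measurable_fst).prodMk measurable_snd))
    · rw [h0, Sec.β_one, map_one, one_apply_eq_self]
    · rw [add, Sec.β_mul, map_mul]
      rfl
    · refine ((π _).le_opNorm v).trans (mul_le_mul_of_nonneg_right ?_ (norm_nonneg v))
      refine (le_max_right 1 _).trans ((Real.log_le_iff_le_exp (h1 _)).1 ((h _).trans ?_))
      rw [latSec_β]
      have h2 := mul_le_mul_of_nonneg_left (L.len_c' (a s) x) hC
      have h3 := mul_le_mul_of_nonneg_left (hlen s) hC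
      nlinarith [mul_nonneg hC (norm_nonneg s)]
    · have h2 := mul_le_mul_of_nonneg_left (L.ht_smul (a s) x) hC
      have h3 := mul_le_mul_of_nonneg_left (hlen s) hC
      change 2 * C * L.ht (a s • x) ≤ _
      nlinarith [mul_nonneg hC (norm_nonneg s)]

end Pool.Agent.P.MP_d483fb_an.Z.SR

end

end

section

/-! Subgroups of finite index of a lattice are lattices; transport along isomorphisms. -/

open scoped Topology ENNReal TensorProduct
open MeasureTheory Filter Set

set_option linter.unusedSectionVars false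

noncomputable section

namespace Pool.Agent.P.MP_d483fb_an.Z

theorem IsLattice.of_finiteIndex {G : Type} [Group G] [TopologicalSpace G] [IsTopologicalGroup G]
    [SecondCountableTopology G] {Γ : Subgroup G} (h : IsLattice Γ) (Λ : Subgroup Γ)
    [Λ.FiniteIndex] : IsLattice (Λ.map Γ.subtype) := by
  classical
  obtain ⟨hd, μ, hμ, hinv⟩ := h
  refine ⟨DiscreteTopology.of_subset (s := (Γ : Set G)) hd (Subgroup.map_subtype_le Λ), ?_⟩
  borelize G
  let _ : MeasurableSpace (G ⧸ Γ) := borel _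
  have : BorelSpace (G ⧸ Γ) := ⟨rfl⟩
  let _ : MeasurableSpace (G ⧸ Λ.map Γ.subtype) := borel _
  have : BorelSpace (G ⧸ Λ.map Γ.subtype) := ⟨rfl⟩
  have := Fintype.ofFinite (Γ ⧸ Λ)
  obtain ⟨σ, hσ, h2, -⟩ := TZ.exists_section Γ μ
  have hmk : ∀ (g : G) b, ((g * σ b : G) : G ⧸ Γ) = g • b := by
    intro g b
    conv_rhs => rw [← h2 b]
    rfl
  let F : Γ ⧸ Λ → G ⧸ Γ → G ⧸ Λ.map Γ.subtype := fun q x => ((σ x * (q.out : Γ) : G) : G ⧸ _)
  have hF : ∀ q, Measurable (F q) := fun q =>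
    QuotientGroup.continuous_mk.measurable.comp (hσ.mul_const _)
  let β : G → G ⧸ Γ → Γ := fun g b =>
    ⟨(σ (g • b))⁻¹ * (g * σ b), QuotientGroup.eq.mp ((h2 _).trans (hmk g b).symm)⟩
  have hβ : ∀ g q x, g • F q x = F (β g x • q) (g • x) := by
    intro g q x
    have h1 : ((β g x * q.out : Γ) : Γ ⧸ Λ) = ((β g x • q).out : Γ) := by
      rw [QuotientGroup.out_eq']
      conv_rhs => rw [← QuotientGroup.out_eq' q]
      rfl
    refine QuotientGroup.eq.2 ⟨_, QuotientGroup.eq.1 h1, ?_⟩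
    simp [β, mul_assoc]
  have hI : ∀ {A : Set (G ⧸ Λ.map Γ.subtype)}, MeasurableSet A → ∀ q,
      Measurable fun x => (A.indicator 1 (F q x) : ℝ≥0∞) := fun hA q =>
    (measurable_one.indicator hA).comp (hF q)
  have hν : ∀ A : Set (G ⧸ Λ.map Γ.subtype), MeasurableSet A →
      (∑ q, μ.map (F q)) A = ∫⁻ x, ∑ q, A.indicator 1 (F q x) ∂μ := by
    intro A hA
    rw [Measure.finsetSum_apply, lintegral_finsetSum _ fun q _ => hI hA q]
    refine Finset.sum_congr rfl fun q _ => ?_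
    rw [← lintegral_indicator_one hA, lintegral_map (measurable_one.indicator hA) (hF q)]
  refine ⟨(Fintype.card (Γ ⧸ Λ) : ℝ≥0∞)⁻¹ • ∑ q, μ.map (F q), ⟨?_⟩, ⟨fun g A hA => ?_⟩⟩
  · rw [Measure.smul_apply, hν _ MeasurableSet.univ]
    simp only [indicator_univ, Pi.one_apply, Finset.sum_const, Finset.card_univ, nsmul_eq_mul,
      mul_one, lintegral_const, measure_univ, smul_eq_mul]
    exact ENNReal.inv_mul_cancel (by simp) (by simp)
  · rw [Measure.smul_apply, Measure.smul_apply, hν _ hA, hν _ (measurable_const_smul g hA),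
      ← (measurePreserving_smul g μ).lintegral_comp (Finset.measurable_sum _ fun q _ => hI hA q)]
    congr 1
    refine lintegral_congr fun x => ?_
    rw [← Equiv.sum_comp (MulAction.toPerm (β g x)) fun q => A.indicator 1 (F q (g • x))]
    refine Finset.sum_congr rfl fun q _ => ?_
    rw [MulAction.toPerm_apply, ← hβ]
    rfl

namespace SR

theorem NoChar.of_mulEquiv {Λ Λ' : Type} [Group Λ] [Group Λ'] (e : Λ ≃* Λ') (h : NoChar Λ') :
    NoChar Λ := fun χ hχ γ => by
  simpa using h (fun x => χ (e.symm x)) (fun x y => by rw [map_mul, hχ]) (e γ)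

theorem Rigid.of_mulEquiv {Λ Λ' : Type} [Group Λ] [Group Λ'] (e : Λ ≃* Λ') {𝔤 : Type} [LieRing 𝔤]
    [LieAlgebra ℝ 𝔤] (h : Rigid Λ' 𝔤) : Rigid Λ 𝔤 := by
  intro L _ _ _ d b π h1 h2 h3 h4
  refine h L d b (π.comp e.symm.toMonoidHom) (fun γ => h1 _) (fun γ => h2 _)
    (fun W hW => h3 W fun γ v hv => ?_) (h4.mono ?_)
  · simpa using hW (e γ) v hv
  · rintro _ ⟨γ, rfl⟩
    exact ⟨e γ, by simp⟩

end SR

end Pool.Agent.P.MP_d483fb_an.Z

end

end

section

/-! Superrigidity for compact targets. -/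

open scoped Topology Matrix.Norms.Operator InnerProductSpace RealInnerProductSpace
open MeasureTheory Filter Set

set_option linter.unusedSectionVars false

noncomputable section

namespace Pool.Agent.P.MP_d483fb_an.Z.SR

variable {G : Type} [Group G] [TopologicalSpace G] [IsTopologicalGroup G] [ConnectedSpace G]
  [T2Space G] [LocallyCompactSpace G] [SecondCountableTopology G] {n k : ℕ}

theorem far_ray (D : Std G n k) : ∃ c : ℝ, 0 < c ∧ ∀ r : ℝ, 0 ≤ r →
    ∃ t, ‖t‖ ≤ r ∧ D.Far (D.a t) (c * r) := by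
  obtain ⟨s, hs⟩ := D.exists_reg
  obtain ⟨c, hc, h⟩ : ∃ c : ℝ, 0 < c ∧ ∀ β ∈ D.roots, c ≤ |⟪β, s⟫| := by
    rcases D.roots.eq_empty_or_nonempty with he | he
    · exact ⟨1, one_pos, by simp [he]⟩
    · obtain ⟨β, hβ, h⟩ := D.roots.exists_min_image (fun β => |⟪β, s⟫|) he
      exact ⟨_, abs_pos.2 (hs β hβ), h⟩
  have h1 : 0 < ‖s‖ + 1 := by positivity
  refine ⟨c / (‖s‖ + 1), by positivity, fun r hr => ⟨(r / (‖s‖ + 1)) • s, ?_, 1, one_mem _, 1,
    one_mem _, _, by rw [one_mul, mul_one], fun γ hγ => ⟨γ, hγ, .refl, ?_⟩⟩⟩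
  · rw [norm_smul, Real.norm_of_nonneg (by positivity), div_mul_eq_mul_div, div_le_iff₀ h1]
    nlinarith
  · rw [inner_smul_right, abs_mul, abs_of_nonneg (by positivity), div_mul_comm]
    exact mul_le_mul_of_nonneg_left (h γ hγ) (by positivity)

theorem dec_of_std (D : Std G n k) (Z : Set G) : Dec D.a Z := by
  borelize G
  obtain ⟨Γ⟩ := EM.exists_gauge D.toExpData
  obtain ⟨c, hc, h⟩ := far_ray D
  exact dec_of_mix Γ hc h (fun _ _ _ _ _ h1 h2 => D.mixH Γ h1 h2) Z

theorem rigid_of_lattice (D : Std G n k) {𝔤 : Type} [LieRing 𝔤] [LieAlgebra ℝ 𝔤] (hd : Der G 𝔤)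
    {Γ : Subgroup G} (h : IsLattice Γ) : Rigid Γ 𝔤 := by
  have hT := D.hasT h
  obtain ⟨_, μ, hμ, hinv⟩ := h
  borelize G
  let L := D.lat Γ
  let μ' : Measure L.B := μ
  have : IsProbabilityMeasure μ' := hμ
  have : SMulInvariantMeasure G L.B μ' := hinv
  have hE : MS.GErg G μ' := ⟨fun g => measurePreserving_smul g μ', fun U hU h =>
    aeconst_of_trans (Measure.haar (G := G)).inv L.base.trans' hU h⟩
  obtain ⟨T, -, -, ⟨P⟩⟩ := D.geo L.toLen
  obtain ⟨E⟩ := D.equi (μ := μ') L.toLen L.base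
  obtain ⟨hG⟩ := lat_good L μ' D.a_add D.a_cont
    (LinearMap.toContinuousLinearMap D.dg).opNorm_nonneg
    (fun t => (D.len_ex_le (D.dg_mem t)).trans
      ((LinearMap.toContinuousLinearMap D.dg).le_opNorm t))
    ((MS.ergodic_wall D hE 0).imp fun _ h => h.2) (MS.gen_of_std D) (dec_of_std D _)
    (MS.section_lemma D hE) (lat_lmr L μ' P E) hT.hom_eq_zero
  have : Group.FG L.Γ := hT.fg
  exact hG.rigid hd

/-- Superrigidity: orthogonal representations of a lattice. -/
theorem srd_of_lattice (R : HigherRank G n) {m : ℕ} (hd : R.ltD m) {Γ : Subgroup G}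
    (h : IsLattice Γ) : SRd Γ m := by
  obtain ⟨k, D, -⟩ := R.exists_std
  have := (D.hasT h).fg
  refine srd R hd fun Λ hΛ => ⟨((D.hasT h).of_finiteIndex Λ).hom_eq_zero, ?_⟩
  exact (rigid_of_lattice D R.der (h.of_finiteIndex Λ)).of_mulEquiv
    (Λ.equivMapOfInjective Γ.subtype Γ.subtype_injective)

theorem SRd.of_mulEquiv {Λ Λ' : Type} [Group Λ] [Group Λ'] (e : Λ ≃* Λ') {m : ℕ} (h : SRd Λ' m) :
    SRd Λ m := by
  intro N ρ ho
  have he : range (ρ.comp e.symm.toMonoidHom) = range ρ := e.symm.surjective.range_comp ρ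
  rw [← he]
  exact h N _ fun γ => ho _

/-- Superrigidity for the subgroups of finite index of a lattice. -/
theorem srd_lattice (R : HigherRank G n) {m : ℕ} (hd : R.ltD m) (Γ : Subgroup G)
    (h : IsLattice Γ) (Λ : Subgroup Γ) (hΛ : Λ.FiniteIndex) : SRd Λ m :=
  (srd_of_lattice R hd (h.of_finiteIndex Λ)).of_mulEquiv
    (Λ.equivMapOfInjective Γ.subtype Γ.subtype_injective)

end Pool.Agent.P.MP_d483fb_an.Z.SR

end

end

section

/-! Subadditive functions on a lattice are at most linear in the norm. -/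

open MeasureTheory

set_option linter.unusedSectionVars false

namespace Pool.Agent.P.MP_d483fb_an.Z

variable {G : Type} [Group G] [TopologicalSpace G] [IsTopologicalGroup G] [ConnectedSpace G]
  [T2Space G] [LocallyCompactSpace G] [SecondCountableTopology G] [MeasurableSpace G]
  [BorelSpace G] {n k : ℕ}

theorem Std.lmr_lat (D : Std G n k) (Γ : Subgroup G) [DiscreteTopology Γ]
    (m0 : Measure (D.lat Γ).B) [IsProbabilityMeasure m0] [SMulInvariantMeasure G (D.lat Γ).B m0]
    (F : Γ → ℝ) (hF : ∀ γ γ', F (γ * γ') ≤ F γ + F γ') :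
    ∃ C : ℝ, 0 ≤ C ∧ ∀ γ : Γ, F γ ≤ C * (D.len γ + 2) := by
  obtain ⟨S, -, -, ⟨P⟩⟩ := D.geo (D.lat Γ).toLen
  obtain ⟨E⟩ := D.equi (μ := m0) (D.lat Γ).toLen (D.lat Γ).base
  exact SR.lat_lmr (D.lat Γ) m0 P E F hF

theorem Std.lmr (D : Std G n k) (Γ : Subgroup G) (hΓ : IsLattice Γ) (F : Γ → ℝ)
    (hF : ∀ γ γ', F (γ * γ') ≤ F γ + F γ') : ∃ C, ∀ γ : Γ, F γ ≤ C * (1 + D.len γ) := by
  obtain ⟨hdisc, m0, hm0, hinv⟩ := hΓ
  obtain ⟨C, hC, h⟩ := @Std.lmr_lat G _ _ _ _ _ _ _ _ _ n k D Γ hdisc m0 hm0 hinv F hF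
  refine ⟨2 * C, fun γ => (h γ).trans ?_⟩
  have := mul_nonneg hC (D.len_nonneg γ)
  nlinarith

end Pool.Agent.P.MP_d483fb_an.Z


end
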