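import Pool.Agent.P.MP_d483fb_an.M.A14
import Pool.Agent.P.MP_d483fb_an.M.A19

section

/-!
The three inputs of the loop argument: existence of leafwise measures, the product structure for
an extreme slope, and the vanishing of leafwise measures on algebraic subsets.
-/

open scoped Matrix Matrix.Norms.Operator InnerProductSpace RealInnerProductSpace Topology ENNReal
open MeasureTheory ProbabilityTheory NormedSpace Filter Set

noncomputable section

namespace Pool.Agent.P.MP_d483fb_an.Z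

namespace Pre

variable {X : Type} [MeasurableSpace X] {μ : Measure X} {ι : Type} [Fintype ι] [DecidableEq ι]
  (S : Pre X μ ι)

/-- Leafwise measures exist for every interval of slopes. -/
def HasLW : Prop := ∀ J : Set ℝ, J.OrdConnected → Nonempty (S.Leafwise J)

/-- The product structure for an extreme slope. -/
def HasPS : Prop :=
  ∀ (J : Set ℝ) (χ : ℝ), J.OrdConnected → χ ∈ J → Wt.Extreme J χ →
    ∀ (o : S.Leafwise J) (o1 : S.Leafwise (J \ {χ})) (o2 : S.Leafwise {χ}),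
      ∀ᵐ x ∂μ, ∃ c : ℝ≥0∞, c ≠ 0 ∧ c ≠ ∞ ∧ o.nu x = c • (o1.nu x ∗ₘ o2.nu x)

end Pre

variable {G : Type} [Group G] [TopologicalSpace G] {n k : ℕ} {D : Std G n k} {B : Type}
  [TopologicalSpace B] [MeasurableSpace B] [MulAction G B] {X : Type} [MetricSpace X]
  [MeasurableSpace X] [MulAction G X] {μ : Measure X} {κ : Type} [Fintype κ] [DecidableEq κ]

/-- The full leafwise measures vanish on the proper algebraic subsets of the horospherical group. -/
def GeoPre.HasHP (S : GeoPre D B X μ κ) : Prop :=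
  ∀ o : S.toPre.Leafwise univ, ∀ᵐ x ∂μ, ∀ F : MvPolynomial (Fin n × Fin n) ℝ,
    (∃ Y ∈ D.np S.Ha, MvPolynomial.eval (fun p => exp Y p.1 p.2) F ≠ 0) →
      o.om x {y | MvPolynomial.eval (fun p => (S.T x y).toBlocks₁₁ p.1 p.2) F = 0} = 0

end Pool.Agent.P.MP_d483fb_an.Z

end

end

section

/-!
The two triple factorisations of a unipotent matrix around a slope, and their compatibility with
the upper left block.
-/

open scoped Matrix Matrix.Norms.Operator Topology
open Set Filter NormedSpace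

noncomputable section

namespace Pool.Agent.P.MP_d483fb_an.Z

namespace Wt

section Dec

variable {ι : Type} [Fintype ι] [DecidableEq ι] (w : Wt ι) (β : ℝ)

/-- The lower factor of `n = s q r`. -/
def dq (n : Matrix ι ι ℝ) : Matrix ι ι ℝ := w.facR (Ici β) (w.facL (Iic β) n)

/-- The upper factor of `n = s q r`. -/
def dr (n : Matrix ι ι ℝ) : Matrix ι ι ℝ := w.facR (Iic β) n

/-- The middle factor of `n = s r q`. -/
def ds (n : Matrix ι ι ℝ) : Matrix ι ι ℝ := w.facL (Iic β) (w.facL (Ici β) n)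

/-- The defect between the two middle factors. -/
def dD (n : Matrix ι ι ℝ) : Matrix ι ι ℝ := w.ds β (w.dq β n * w.dr β n)

theorem polyM_dq : PolyM (w.dq β) := (polyM_facR (cut_Ici β)).comp (polyM_facL (cut_Iic β))

theorem polyM_dr : PolyM (w.dr β) := polyM_facR (cut_Iic β)

theorem polyM_ds : PolyM (w.ds β) := (polyM_facL (cut_Iic β)).comp (polyM_facL (cut_Ici β))

theorem polyM_dD : PolyM (w.dD β) := (w.polyM_ds β).comp ((w.polyM_dq β).mul (w.polyM_dr β))

variable {w β} {s q r n : Matrix ι ι ℝ}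

theorem Nil.ds (hn : w.Nil Set.univ n) : w.Nil {β} (w.ds β n) := by
  refine ((hn.facL (cut_Ici β)).facL_inter (cut_Iic β) ordConnected_Ici).mono ?_
  rw [Ici_inter_Iic, Icc_self]

theorem Nil.dq (hn : w.Nil Set.univ n) : w.Nil (Iio β) (w.dq β n) := by
  simpa [Wt.dq] using (hn.facL (cut_Iic β)).facR (cut_Ici β)

theorem Nil.dr (hn : w.Nil Set.univ n) : w.Nil (Ioi β) (w.dr β n) := by
  simpa [Wt.dr] using hn.facR (cut_Iic β)

theorem Nil.dD (hn : w.Nil Set.univ n) : w.Nil {β} (w.dD β n) :=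
  (Nil.mul ordConnected_univ hn.dq.univ hn.dr.univ).ds

theorem dec_sqr (hs : w.Nil {β} s) (hq : w.Nil (Iio β) q) (hr : w.Nil (Ioi β) r) :
    w.dq β (s * q * r) = q ∧ w.dr β (s * q * r) = r ∧
      w.ds β (s * q * r) = s * w.ds β (q * r) := by
  have h1 : w.Nil (Iic β) s := hs.mono (by simp)
  have h2 : w.Nil (Ici β) s := hs.mono (by simp)
  have h3 : w.Nil (Iic β) (s * q) := Nil.mul ordConnected_Iic h1 (hq.mono Iio_subset_Iic_self)
  have h4 : w.Nil (Iic β)ᶜ r := by simpa using hr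
  have h5 : w.Nil (Ici β)ᶜ q := by simpa using hq
  have h6 := Nil.mul ordConnected_univ hq.univ hr.univ
  refine ⟨?_, facR_mul (cut_Iic β) h3 h4, ?_⟩
  · rw [dq, facL_mul (cut_Iic β) h3 h4, facR_mul (cut_Ici β) h2 h5]
  · rw [ds, ds, mul_assoc, facL_left_mul (cut_Ici β) h2 h6,
      facL_left_mul (cut_Iic β) h1 (h6.facL (cut_Ici β))]

theorem dec_srq (hs : w.Nil {β} s) (hq : w.Nil (Iio β) q) (hr : w.Nil (Ioi β) r) :
    w.dq β (s * r * q) = w.dq β (r * q) ∧ w.dr β (s * r * q) = w.dr β (r * q) ∧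
      w.ds β (s * r * q) = s := by
  have h1 : w.Nil (Iic β) s := hs.mono (by simp)
  have h2 : w.Nil (Ici β) s := hs.mono (by simp)
  have h3 : w.Nil (Ici β) (s * r) := Nil.mul ordConnected_Ici h2 (hr.mono Ioi_subset_Ici_self)
  have h4 : w.Nil (Iic β)ᶜ r := by simpa using hr
  have h5 : w.Nil (Ici β)ᶜ q := by simpa using hq
  have h6 := Nil.mul ordConnected_univ hr.univ hq.univ
  refine ⟨?_, ?_, ?_⟩
  · rw [dq, dq, mul_assoc, facL_left_mul (cut_Iic β) h1 h6,
      facR_left_mul (cut_Ici β) h2 (h6.facL (cut_Iic β))]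
  · rw [dr, dr, mul_assoc, facR_left_mul (cut_Iic β) h1 h6]
  · rw [ds, facL_mul (cut_Ici β) h3 h5, facL_mul (cut_Iic β) h1 h4]

theorem dD_mul (hq : w.Nil (Iio β) q) (hr : w.Nil (Ioi β) r) :
    w.dD β (q * r) = w.ds β (q * r) := by
  have := dec_sqr Nil.one hq hr
  rw [one_mul] at this
  rw [dD, this.1, this.2.1]

theorem dD_one : w.dD β 1 = 1 := by
  have h1 := dD_mul (w := w) (β := β) Nil.one Nil.one
  have h2 := (dec_srq (w := w) (β := β) Nil.one Nil.one Nil.one).2.2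
  simp only [mul_one] at h1 h2
  rw [h1, h2]

theorem Nil.exists_srq (hn : w.Nil Set.univ n) {S : Set (Matrix ι ι ℝ)} (hS : w.DilClosed S)
    (hnS : n ∈ S) : ∃ r q, w.Nil (Ioi β) r ∧ w.Nil (Iio β) q ∧ r ∈ S ∧ q ∈ S ∧ w.ds β n ∈ S ∧
      w.ds β n * r * q = n := by
  have h1 := hn.facL (cut_Ici β)
  have h2 := hS.facL_mem (cut_Ici β) hn hnS
  refine ⟨w.facR (Iic β) (w.facL (Ici β) n), w.facR (Ici β) n, by simpa using h1.facR (cut_Iic β),
    by simpa using hn.facR (cut_Ici β), hS.facR_mem (cut_Iic β) h1 h2,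
    hS.facR_mem (cut_Ici β) hn hnS, hS.facL_mem (cut_Iic β) h1 h2, ?_⟩
  rw [Wt.ds, h1.facL_mul_facR (cut_Iic β), hn.facL_mul_facR (cut_Ici β)]

theorem DilClosed.dD_mem {S : Set (Matrix ι ι ℝ)} (hS : w.DilClosed S) (hn : w.Nil Set.univ n)
    (hnS : n ∈ S) : w.dD β n ∈ S := by
  have h1 := Nil.mul ordConnected_univ (hn.dq (β := β)).univ (hn.dr (β := β)).univ
  have h2 : w.dq β n * w.dr β n ∈ S := hS.mul _ (hS.facR_mem (cut_Ici β) (hn.facL (cut_Iic β))
    (hS.facL_mem (cut_Iic β) hn hnS)) _ (hS.facR_mem (cut_Iic β) hn hnS)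
  exact hS.facL_mem (cut_Iic β) (h1.facL (cut_Ici β)) (hS.facL_mem (cut_Ici β) h1 h2)

variable (w) in
theorem exists_N_small {U : Set (Matrix ι ι ℝ)} (hU : U ∈ 𝓝 (1 : Matrix ι ι ℝ)) :
    ∃ r : ℝ, 0 < r ∧ ∀ n, w.Nil Set.univ n → w.N n < r → n ∈ U := by
  obtain ⟨ε, hε, hb⟩ := Metric.mem_nhds_iff.1 hU
  have h1 : Tendsto (fun r : ℝ => (Fintype.card ι : ℝ) * (1 ^ w.tp * r ^ w.gi⁻¹)) (𝓝 0) (𝓝 0) := by
    have h2 := (Real.continuousAt_rpow_const 0 _ (Or.inr (inv_pos.2 w.gi_pos).le)).tendsto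
    rw [Real.zero_rpow (inv_pos.2 w.gi_pos).ne'] at h2
    have h3 := (h2.const_mul ((1 : ℝ) ^ w.tp)).const_mul (Fintype.card ι : ℝ)
    rwa [mul_zero, mul_zero] at h3
  obtain ⟨δ, hδ, h3⟩ := Metric.eventually_nhds_iff.1 (h1.eventually (gt_mem_nhds hε))
  refine ⟨min δ 1, by positivity, fun n hn hr => hb ?_⟩
  rw [mem_ball_iff_norm]
  refine (hn.norm_sub_one_le le_rfl (hr.le.trans (min_le_right _ _))).trans_lt (h3 ?_)
  rw [Real.dist_eq, sub_zero, abs_of_nonneg (w.N_nonneg n)]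
  exact hr.trans_le (min_le_left _ _)

end Dec

section Blk

variable {ι κ : Type} [Fintype ι] [DecidableEq ι] [Fintype κ] [DecidableEq κ]

/-- The weights of the upper left block. -/
def inl (w : Wt (ι ⊕ κ)) : Wt ι where
  wa i := w.wa (.inl i)
  wb i := w.wb (.inl i)
  hab _ _ h := w.hab _ _ h

variable {w : Wt (ι ⊕ κ)} {J U : Set ℝ} {β : ℝ} {n a b : Matrix (ι ⊕ κ) (ι ⊕ κ) ℝ}

omit [Fintype ι] [Fintype κ] in
theorem Nil.blk (hn : w.Nil J n) : w.inl.Nil J n.toBlocks₁₁ := by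
  intro i j hij
  refine hn (.inl i) (.inl j) ?_
  simpa [Matrix.toBlocks₁₁, Matrix.one_apply] using hij

omit [DecidableEq ι] [DecidableEq κ] in
theorem blk_mul (hb : b.toBlocks₂₁ = 0) : (a * b).toBlocks₁₁ = a.toBlocks₁₁ * b.toBlocks₁₁ := by
  ext i j
  have : ∀ m, b (.inr m) (.inl j) = 0 := fun m => congrFun (congrFun hb m) j
  simp [Matrix.toBlocks₁₁, Matrix.mul_apply, this]

variable {S : Set (Matrix (ι ⊕ κ) (ι ⊕ κ) ℝ)}

theorem blk_fac (hS : w.DilClosed S) (hb : ∀ T ∈ S, T.toBlocks₂₁ = 0) (hU : Cut U)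
    (hn : w.Nil J n) (hnS : n ∈ S) : (w.facL U n).toBlocks₁₁ = w.inl.facL U n.toBlocks₁₁ ∧
      (w.facR U n).toBlocks₁₁ = w.inl.facR U n.toBlocks₁₁ := by
  have h := blk_mul (a := w.facL U n) (hb _ (hS.facR_mem hU hn hnS))
  rw [hn.facL_mul_facR hU] at h
  rw [h]
  exact ⟨(facL_mul hU (hn.facL hU).blk (hn.facR hU).blk).symm,
    (facR_mul hU (hn.facL hU).blk (hn.facR hU).blk).symm⟩

theorem blk_dD (hS : w.DilClosed S) (hb : ∀ T ∈ S, T.toBlocks₂₁ = 0) (hn : w.Nil Set.univ n)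
    (hnS : n ∈ S) : (w.dD β n).toBlocks₁₁ = w.inl.dD β n.toBlocks₁₁ := by
  have h1 := Nil.mul ordConnected_univ (hn.dq (β := β)).univ (hn.dr (β := β)).univ
  have h3 := hS.facR_mem (cut_Iic β) hn hnS
  have h4 := hS.facL_mem (cut_Iic β) hn hnS
  have h2 : w.dq β n * w.dr β n ∈ S :=
    hS.mul _ (hS.facR_mem (cut_Ici β) (hn.facL (cut_Iic β)) h4) _ h3
  rw [dD, ds, (blk_fac hS hb (cut_Iic β) (h1.facL (cut_Ici β))
    (hS.facL_mem (cut_Ici β) h1 h2)).1, (blk_fac hS hb (cut_Ici β) h1 h2).1, dr, blk_mul (hb _ h3), dq,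
    (blk_fac hS hb (cut_Ici β) (hn.facL (cut_Iic β)) h4).2, (blk_fac hS hb (cut_Iic β) hn hnS).1,
    (blk_fac hS hb (cut_Iic β) hn hnS).2]
  rfl

theorem blk_exp (hb : b.toBlocks₂₁ = 0) : (exp b).toBlocks₁₁ = exp b.toBlocks₁₁ := by
  let L : Matrix (ι ⊕ κ) (ι ⊕ κ) ℝ →ₗ[ℝ] Matrix ι ι ℝ :=
    { toFun := fun a => a.toBlocks₁₁, map_add' := fun _ _ => rfl, map_smul' := fun _ _ => rfl }
  have h1 := (exp_series_hasSum_exp' (𝕂 := ℝ) b).mapL (LinearMap.toContinuousLinearMap L)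
  have h2 : ∀ m : ℕ, (b ^ m).toBlocks₁₁ = b.toBlocks₁₁ ^ m := fun m => by
    induction m with
    | zero =>
      ext i j
      simp [Matrix.toBlocks₁₁, Matrix.one_apply]
    | succ m ih => rw [pow_succ, blk_mul hb, ih, pow_succ]
  have h3 := exp_series_hasSum_exp' (𝕂 := ℝ) b.toBlocks₁₁
  simp only [← h2] at h3
  exact h1.unique h3

end Blk

end Wt

theorem entry_eq_zero {ι : Type} [Fintype ι] [DecidableEq ι] {V : Matrix ι ι ℝ} {i j : ι}
    (h : ∀ t : ℝ, exp (t • V) i j = (1 : Matrix ι ι ℝ) i j) : V i j = 0 := by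
  let L : Matrix ι ι ℝ →ₗ[ℝ] ℝ :=
    { toFun := fun a => a i j, map_add' := fun _ _ => rfl, map_smul' := fun _ _ => rfl }
  have h1 := (LinearMap.toContinuousLinearMap L).hasFDerivAt.comp_hasDerivAt (0 : ℝ)
    (hasDerivAt_exp_smul_const (𝕂 := ℝ) V 0)
  have h3 := h1.unique ((hasDerivAt_const (0 : ℝ) ((1 : Matrix ι ι ℝ) i j)).congr_of_eventuallyEq
    (Eventually.of_forall h))
  rw [zero_smul, exp_zero, one_mul] at h3
  exact h3

theorem exp_mul_eq_self {A : Type} [NormedRing A] [NormedAlgebra ℝ A] [CompleteSpace A] {V E : A}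
    (h : V * E = 0) : exp V * E = E := by
  refine ((exp_series_hasSum_exp' (𝕂 := ℝ) V).mul_right E).unique ?_
  convert hasSum_single 0 fun m hm => ?_ using 1
  · simp
  · obtain ⟨m, rfl⟩ := Nat.exists_eq_succ_of_ne_zero hm
    rw [smul_mul_assoc, pow_succ, mul_assoc, h, mul_zero, smul_zero]

end Pool.Agent.P.MP_d483fb_an.Z

end

end

section

/-!
The defect of a product of two root exponentials is given by the bracket, to leading order.
-/

open scoped Matrix Matrix.Norms.Operator InnerProductSpace RealInnerProductSpace Topology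
open Set Filter NormedSpace

noncomputable section

namespace Pool.Agent.P.MP_d483fb_an.Z.Loop

variable {G : Type} [Group G] [TopologicalSpace G] [IsTopologicalGroup G] {n k : ℕ}
  (D : Std G n k)

omit [IsTopologicalGroup G] in
theorem exp_rem {S T : Set (Euc k)} {Y : Mat n} (hY : Y ∈ D.wtS S)
    (h1 : ∀ σ ∈ S, ∀ τ ∈ S, σ + τ ∈ T) (h2 : ∀ σ ∈ S, ∀ τ ∈ T, σ + τ ∈ T) :
    exp Y - 1 - Y ∈ D.wtS T := by
  have hp : ∀ m : ℕ, Y ^ (m + 2) ∈ D.wtS T := fun m => by
    induction m with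
    | zero => rw [zero_add, pow_two]; exact D.wtS_mul hY hY h1
    | succ m ih => rw [add_right_comm, pow_succ']; exact D.wtS_mul hY ih h2
  have hs := (hasSum_nat_add_iff' 2).2 (exp_series_hasSum_exp' (𝕂 := ℝ) Y)
  simp only [Finset.sum_range_succ, Finset.range_zero, Finset.sum_empty, Nat.factorial_zero,
    Nat.cast_one, inv_one, pow_zero, one_smul, zero_add, Nat.factorial_one, pow_one] at hs
  rw [sub_sub]
  exact (D.wtS T).closed_of_finiteDimensional.mem_of_tendsto hs.tendsto_sum_nat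
    (Eventually.of_forall fun N => Submodule.sum_mem _ fun m _ => Submodule.smul_mem _ _ (hp m))

theorem pr_zero {T : Set (Euc k)} {γ : Euc k} {X : Mat n} (hX : X ∈ D.wtS T) (h : γ ∉ T) :
    D.pr γ X = 0 := D.prS_eq_zero hX (disjoint_singleton_left.2 h)

theorem pr_self {γ : Euc k} {X : Mat n} (hX : X ∈ D.wtS {γ}) : D.pr γ X = X := D.prS_eq_self.2 hX

theorem pr_one {γ : Euc k} (h : γ ≠ 0) : D.pr γ 1 = 0 :=
  pr_zero D (D.one_mem_wtS (S := {0}) rfl) h

omit [IsTopologicalGroup G] in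
theorem sub_pr_mem {T : Set (Euc k)} (γ : Euc k) {X : Mat n} (hX : X ∈ D.wtS T) :
    X - D.pr γ X ∈ D.wtS (T \ {γ}) := by
  intro i j hij
  rw [Matrix.sub_apply, Std.pr, D.prS_apply] at hij
  split_ifs at hij with h
  · simp at hij
  · exact ⟨hX i j (by simpa using hij), h⟩

theorem pr_exp_base {b : Euc k} (hb : b ≠ 0) {Y : Mat n}
    (hY : Y ∈ D.wtS {γ | ∃ c : ℝ, 1 ≤ c ∧ γ = c • b}) : D.pr b (exp Y) = D.pr b Y := by
  have h := exp_rem D (T := {γ | ∃ c : ℝ, 2 ≤ c ∧ γ = c • b}) hY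
    (by rintro _ ⟨c, hc, rfl⟩ _ ⟨d, hd, rfl⟩; exact ⟨c + d, by linarith, (add_smul _ _ _).symm⟩)
    (by rintro _ ⟨c, hc, rfl⟩ _ ⟨d, hd, rfl⟩; exact ⟨c + d, by linarith, (add_smul _ _ _).symm⟩)
  have h0 := pr_zero D h (γ := b) (by
    rintro ⟨c, hc, h1⟩
    have h2 : (c - 1) • b = 0 := by rw [sub_smul, one_smul, ← h1, sub_self]
    rcases smul_eq_zero.1 h2 with h3 | h3
    · linarith
    · exact hb h3)
  rwa [map_sub, map_sub, pr_one D hb, sub_zero, sub_eq_zero] at h0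

/-- Two weights with different slopes. -/
structure Two (w : Wt (Fin n)) (al ga : Euc k) (β : ℝ) where
  Ha : Euc k
  Ph : Euc k
  wa : ∀ i, w.wa i = ⟪D.lam i, Ha⟫
  wb : ∀ i, w.wb i = ⟪D.lam i, Ph⟫
  h1 : 0 < ⟪al, Ha⟫
  h2 : 0 < ⟪ga, Ha⟫
  hβ : β * ⟪al + ga, Ha⟫ = ⟪al + ga, Ph⟫
  lt : ⟪al, Ph⟫ * ⟪ga, Ha⟫ < ⟪ga, Ph⟫ * ⟪al, Ha⟫

/-- Subsets of the monoid generated by two weights. -/
def lat (al ga : Euc k) (P : ℕ → ℕ → Prop) : Set (Euc k) :=
  {γ | ∃ i j : ℕ, P i j ∧ γ = (i : ℝ) • al + (j : ℝ) • ga}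

variable {D} {w : Wt (Fin n)} {al ga : Euc k} {β : ℝ}

theorem lat_add {P Q R : ℕ → ℕ → Prop} (h : ∀ i j i' j', P i j → Q i' j' → R (i + i') (j + j')) :
    ∀ σ ∈ lat al ga P, ∀ τ ∈ lat al ga Q, σ + τ ∈ lat al ga R := by
  rintro _ ⟨i, j, hp, rfl⟩ _ ⟨i', j', hq, rfl⟩
  refine ⟨i + i', j + j', h _ _ _ _ hp hq, ?_⟩
  push_cast
  module

omit [IsTopologicalGroup G] in
theorem lat_mul {P Q : ℕ → ℕ → Prop} (R : ℕ → ℕ → Prop) {X Y : Mat n}
    (hX : X ∈ D.wtS (lat al ga P)) (hY : Y ∈ D.wtS (lat al ga Q))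
    (h : ∀ i j i' j', P i j → Q i' j' → R (i + i') (j + j')) : X * Y ∈ D.wtS (lat al ga R) :=
  D.wtS_mul hX hY (lat_add h)

theorem lat_mono {P : ℕ → ℕ → Prop} (Q : ℕ → ℕ → Prop) {X : Mat n} (hX : X ∈ D.wtS (lat al ga P))
    (h : ∀ i j, P i j → Q i j) : X ∈ D.wtS (lat al ga Q) :=
  D.wtS_mono (by rintro _ ⟨i, j, hp, rfl⟩; exact ⟨i, j, h i j hp, rfl⟩) hX

theorem lat_single (i j : ℕ) :
    lat al ga (fun a b => a = i ∧ b = j) = {(i : ℝ) • al + (j : ℝ) • ga} := by
  ext γ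
  exact ⟨by rintro ⟨_, _, ⟨rfl, rfl⟩, h⟩; exact h, fun h => ⟨i, j, ⟨rfl, rfl⟩, h⟩⟩

omit [IsTopologicalGroup G] in
theorem dilClosed_lat : w.DilClosed (D.wtS (lat al ga fun _ _ => True) : Set (Mat n)) where
  closed := (D.wtS _).closed_of_finiteDimensional
  mul _ ha _ hb := lat_mul _ ha hb fun _ _ _ _ _ _ => trivial
  inv a ha hn := by
    have h1 : (1 : Mat n) ∈ D.wtS (lat al ga fun _ _ => True) :=
      D.one_mem_wtS ⟨0, 0, trivial, by simp⟩
    rw [hn.inv_eq]
    refine Submodule.sum_mem _ fun m _ => ?_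
    induction m with
    | zero => simpa using h1
    | succ m ih =>
      rw [pow_succ]
      exact lat_mul _ (ih (by simp_all; omega)) (sub_mem h1 ha) fun _ _ _ _ _ _ => trivial
  conj σ τ a ha i j hij := by
    rw [Wt.dil_conj_apply] at hij
    exact ha i j (right_ne_zero_of_mul hij)

namespace Two

variable (t : Two D w al ga β)
include t

omit [IsTopologicalGroup G] in
theorem inj {i j i' j' : ℕ} (h : (i : ℝ) • al + (j : ℝ) • ga = (i' : ℝ) • al + (j' : ℝ) • ga) :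
    i = i' ∧ j = j' := by
  have e1 := congrArg (fun v => ⟪v, t.Ha⟫) h
  have e2 := congrArg (fun v => ⟪v, t.Ph⟫) h
  simp only [inner_add_left, real_inner_smul_left] at e1 e2
  have hd := sub_pos.2 t.lt
  have f1 : ((i : ℝ) - i') * (⟪ga, t.Ph⟫ * ⟪al, t.Ha⟫ - ⟪al, t.Ph⟫ * ⟪ga, t.Ha⟫) = 0 := by
    linear_combination ⟪ga, t.Ph⟫ * e1 - ⟪ga, t.Ha⟫ * e2
  have f2 : ((j : ℝ) - j') * (⟪ga, t.Ph⟫ * ⟪al, t.Ha⟫ - ⟪al, t.Ph⟫ * ⟪ga, t.Ha⟫) = 0 := by
    linear_combination ⟪al, t.Ha⟫ * e2 - ⟪al, t.Ph⟫ * e1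
  exact ⟨by exact_mod_cast sub_eq_zero.1 ((mul_eq_zero.1 f1).resolve_right hd.ne'),
    by exact_mod_cast sub_eq_zero.1 ((mul_eq_zero.1 f2).resolve_right hd.ne')⟩

theorem pr_lat {P : ℕ → ℕ → Prop} {X : Mat n} (hX : X ∈ D.wtS (lat al ga P)) (i j : ℕ)
    (h : ¬ P i j) : D.pr ((i : ℝ) • al + (j : ℝ) • ga) X = 0 :=
  pr_zero D hX (by
    rintro ⟨i', j', hp, he⟩
    obtain ⟨rfl, rfl⟩ := t.inj he
    exact h hp)

omit [IsTopologicalGroup G] in
theorem gap {p q : Fin n} {i j : ℕ} (h : D.lam p - D.lam q = (i : ℝ) • al + (j : ℝ) • ga) :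
    w.wa p - w.wa q = i * ⟪al, t.Ha⟫ + j * ⟪ga, t.Ha⟫ := by
  rw [t.wa, t.wa, ← inner_sub_left, h, inner_add_left, real_inner_smul_left, real_inner_smul_left]

omit [IsTopologicalGroup G] in
theorem sign {p q : Fin n} {i j : ℕ} (h : D.lam p - D.lam q = (i : ℝ) • al + (j : ℝ) • ga)
    (hlt : w.wa q < w.wa p) : ∃ c d : ℝ, 0 < c ∧ 0 < d ∧ (w.slope p q - β) * c = (j - i) * d := by
  have e1 := Wt.slope_mul hlt
  have e2 : w.wb p - w.wb q = i * ⟪al, t.Ph⟫ + j * ⟪ga, t.Ph⟫ := by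
    rw [t.wb, t.wb, ← inner_sub_left, h, inner_add_left, real_inner_smul_left, real_inner_smul_left]
  have e3 := t.hβ
  rw [inner_add_left, inner_add_left] at e3
  refine ⟨(w.wa p - w.wa q) * (⟪al, t.Ha⟫ + ⟪ga, t.Ha⟫), _,
    mul_pos (sub_pos.2 hlt) (add_pos t.h1 t.h2), sub_pos.2 t.lt, ?_⟩
  have e4 := t.gap h
  rw [e2] at e1
  rw [e4] at e1 ⊢
  linear_combination (⟪al, t.Ha⟫ + ⟪ga, t.Ha⟫) * e1 - (i * ⟪al, t.Ha⟫ + j * ⟪ga, t.Ha⟫) * e3

omit [IsTopologicalGroup G] in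
theorem sub_one_mem {J : Set ℝ} {P : ℕ → ℕ → Prop} {m : Mat n} (hm : w.Nil J m)
    (hl : m ∈ D.wtS (lat al ga fun _ _ => True))
    (h : ∀ (i j : ℕ) (σ c d : ℝ), σ ∈ J → 0 < c → 0 < d → (σ - β) * c = (j - i) * d → 0 < i + j →
      P i j) : m - 1 ∈ D.wtS (lat al ga P) := by
  intro p q hpq
  obtain ⟨h1, h2⟩ := hm p q hpq
  rw [Matrix.sub_apply, Wt.one_apply_of_lt h1, sub_zero] at hpq
  obtain ⟨i, j, -, he⟩ := hl p q hpq
  obtain ⟨c, d, hc, hd, hs⟩ := t.sign he h1
  refine ⟨i, j, h i j _ c d h2 hc hd hs ?_, he⟩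
  by_contra h0
  obtain ⟨rfl, rfl⟩ : i = 0 ∧ j = 0 := by omega
  have := t.gap he
  simp only [Nat.cast_zero, zero_mul, add_zero] at this
  linarith

omit [IsTopologicalGroup G] in
theorem nil_of_lat {J : Set ℝ} {P : ℕ → ℕ → Prop} {m : Mat n} (hm : m - 1 ∈ D.wtS (lat al ga P))
    (h : ∀ (i j : ℕ), P i j → 0 < i + j ∧
      ∀ σ c d : ℝ, 0 < c → 0 < d → (σ - β) * c = (j - i) * d → σ ∈ J) : w.Nil J m := by
  intro p q hpq
  obtain ⟨i, j, hp, he⟩ := hm p q hpq
  have h1 : w.wa q < w.wa p := by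
    rw [← sub_pos, t.gap he]
    have a1 := t.h1
    have a2 := t.h2
    rcases Nat.eq_zero_or_pos i with rfl | hi
    · have : 0 < j := by simpa using (h _ _ hp).1
      positivity
    · positivity
  obtain ⟨c, d, hc, hd, hs⟩ := t.sign he h1
  exact ⟨h1, (h i j hp).2 _ c d hc hd hs⟩

theorem pr_dD {X Z : Mat n} (hX : X ∈ D.wtS {al}) (hZ : Z ∈ D.wtS {ga}) :
    D.pr (al + ga) (w.dD β (exp X * exp Z)) = X * Z - Z * X := by
  have a10 : ((1 : ℕ) : ℝ) • al + ((0 : ℕ) : ℝ) • ga = al := by simp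
  have a01 : ((0 : ℕ) : ℝ) • al + ((1 : ℕ) : ℝ) • ga = ga := by simp
  have a11 : ((1 : ℕ) : ℝ) • al + ((1 : ℕ) : ℝ) • ga = al + ga := by simp
  have hX1 : X ∈ D.wtS (lat al ga fun a b => a = 1 ∧ b = 0) := by rwa [lat_single, a10]
  have hZ1 : Z ∈ D.wtS (lat al ga fun a b => a = 0 ∧ b = 1) := by rwa [lat_single, a01]
  have h00 : (1 : Mat n) ∈ D.wtS (lat al ga fun a b => a = 0 ∧ b = 0) :=
    D.one_mem_wtS ⟨0, 0, ⟨rfl, rfl⟩, by simp⟩
  obtain ⟨x, hx, ex⟩ : ∃ x ∈ D.wtS (lat al ga fun a b => 2 ≤ a ∧ b = 0), exp X = 1 + X + x :=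
    ⟨_, exp_rem D hX1 (lat_add (by omega)) (lat_add (by omega)), by abel⟩
  obtain ⟨z, hz, ez⟩ : ∃ z ∈ D.wtS (lat al ga fun a b => a = 0 ∧ 2 ≤ b), exp Z = 1 + Z + z :=
    ⟨_, exp_rem D hZ1 (lat_add (by omega)) (lat_add (by omega)), by abel⟩
  have hx1 : exp X - 1 ∈ D.wtS (lat al ga fun a b => 1 ≤ a ∧ b = 0) := by
    rw [ex, add_assoc, add_sub_cancel_left]
    exact add_mem (lat_mono _ hX1 (by omega)) (lat_mono _ hx (by omega))
  have hz1 : exp Z - 1 ∈ D.wtS (lat al ga fun a b => a = 0 ∧ 1 ≤ b) := by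
    rw [ez, add_assoc, add_sub_cancel_left]
    exact add_mem (lat_mono _ hZ1 (by omega)) (lat_mono _ hz (by omega))
  have nX : w.Nil (Iio β) (exp X) := t.nil_of_lat hx1 fun i j ⟨h1, h2⟩ =>
    ⟨by omega, fun σ c d hc hd he => by
      have : (1 : ℝ) ≤ i := by exact_mod_cast h1
      rw [h2] at he
      change σ < β
      by_contra h3
      push_cast at he
      nlinarith [not_lt.1 h3]⟩
  have nZ : w.Nil (Ioi β) (exp Z) := t.nil_of_lat hz1 fun i j ⟨h1, h2⟩ =>
    ⟨by omega, fun σ c d hc hd he => by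
      have : (1 : ℝ) ≤ j := by exact_mod_cast h2
      rw [h1] at he
      change β < σ
      by_contra h3
      push_cast at he
      nlinarith [not_lt.1 h3]⟩
  have hall : ∀ {Y : Mat n} {P}, Y - 1 ∈ D.wtS (lat al ga P) →
      Y ∈ D.wtS (lat al ga fun _ _ => True) := fun {Y} _ h => by
    rw [← sub_add_cancel Y 1]
    exact add_mem (lat_mono _ h fun _ _ _ => trivial) (lat_mono _ h00 fun _ _ _ => trivial)
  have ng := Wt.Nil.mul ordConnected_univ nX.univ nZ.univ
  obtain ⟨r, q, nr, nq, lr, lq, ls, he⟩ := ng.exists_srq (β := β) (dilClosed_lat (D := D))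
    (lat_mul _ (hall hx1) (hall hz1) fun _ _ _ _ _ _ => trivial)
  rw [Wt.dD_mul nX nZ]
  have hs := t.sub_one_mem (P := fun a b => a = b ∧ 1 ≤ a) ng.ds ls fun i j σ c d h1 _ hd h4 h5 => by
    rw [show σ = β from h1, sub_self, zero_mul] at h4
    have : (j : ℝ) = i := sub_eq_zero.1 ((mul_eq_zero.1 h4.symm).resolve_right hd.ne')
    have : j = i := by exact_mod_cast this
    omega
  have hr := t.sub_one_mem (P := fun a b => a < b) nr lr fun i j σ c d h1 hc hd h4 _ => by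
    have h6 := mul_pos (sub_pos.2 (show β < σ from h1)) hc
    rw [h4] at h6
    have h7 : (i : ℝ) < j := sub_pos.1 (pos_of_mul_pos_left h6 hd.le)
    exact_mod_cast h7
  have hq := t.sub_one_mem (P := fun a b => b < a) nq lq fun i j σ c d h1 hc hd h4 _ => by
    have h6 := mul_neg_of_neg_of_pos (sub_neg.2 (show σ < β from h1)) hc
    rw [h4] at h6
    have h7 : (j : ℝ) < i := sub_neg.1 (neg_of_mul_neg_left h6 hd.le)
    exact_mod_cast h7
  generalize w.ds β (exp X * exp Z) = s at he hs ⊢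
  obtain ⟨σ, rfl⟩ : ∃ σ, s = 1 + σ := ⟨s - 1, by abel⟩
  obtain ⟨ρ, rfl⟩ : ∃ ρ, r = 1 + ρ := ⟨r - 1, by abel⟩
  obtain ⟨κ, rfl⟩ : ∃ κ, q = 1 + κ := ⟨q - 1, by abel⟩
  rw [add_sub_cancel_left] at hs hr hq
  have hρ1 : D.pr ga ρ ∈ D.wtS (lat al ga fun a b => a = 0 ∧ b = 1) := by
    rw [lat_single, a01]
    exact D.prS_mem_wtS _ _
  have hκ1 : D.pr al κ ∈ D.wtS (lat al ga fun a b => a = 1 ∧ b = 0) := by
    rw [lat_single, a10]
    exact D.prS_mem_wtS _ _
  have hρ2 : ρ - D.pr ga ρ ∈ D.wtS (lat al ga fun a b => 2 ≤ a + b) := by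
    refine D.wtS_mono ?_ (sub_pr_mem D ga hr)
    rintro _ ⟨⟨i, j, hij, rfl⟩, hne⟩
    refine ⟨i, j, ?_, rfl⟩
    by_contra h0
    obtain ⟨rfl, rfl⟩ : i = 0 ∧ j = 1 := by omega
    exact hne a01
  have hκ2 : κ - D.pr al κ ∈ D.wtS (lat al ga fun a b => 2 ≤ a + b) := by
    refine D.wtS_mono ?_ (sub_pr_mem D al hq)
    rintro _ ⟨⟨i, j, hij, rfl⟩, hne⟩
    refine ⟨i, j, ?_, rfl⟩
    by_contra h0
    obtain ⟨rfl, rfl⟩ : i = 1 ∧ j = 0 := by omega
    exact hne a10
  have hE : σ * ρ + σ * κ + σ * ρ * κ + (ρ - D.pr ga ρ) * κ + D.pr ga ρ * (κ - D.pr al κ) -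
      (X * z + x * Z + x * z) ∈ D.wtS (lat al ga fun a b => 3 ≤ a + b) := by
    refine sub_mem (add_mem (add_mem (add_mem (add_mem (lat_mul _ hs hr (by omega))
      (lat_mul _ hs hq (by omega))) (lat_mul _ (lat_mul (fun a b => 3 ≤ a + b) hs hr (by omega))
      hq (by omega))) (lat_mul _ hρ2 hq (by omega))) (lat_mul _ hρ1 hκ2 (by omega)))
      (add_mem (add_mem (lat_mul _ hX1 hz (by omega)) (lat_mul _ hx hZ1 (by omega)))
      (lat_mul _ hx hz (by omega)))
  have key : X + Z + X * Z + x + z = σ + ρ + κ + D.pr ga ρ * D.pr al κ +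
      (σ * ρ + σ * κ + σ * ρ * κ + (ρ - D.pr ga ρ) * κ + D.pr ga ρ * (κ - D.pr al κ) -
      (X * z + x * Z + x * z)) := by
    rw [ex, ez] at he
    have : (1 + σ) * (1 + ρ) * (1 + κ) - (1 + X + x) * (1 + Z + z) = 0 := sub_eq_zero.2 he
    rw [← sub_eq_zero, ← neg_eq_zero, ← this]
    noncomm_ring
  have hXZ := lat_mul (fun a b => a = 1 ∧ b = 1) hX1 hZ1 (by omega)
  have hρκ := lat_mul (fun a b => a = 1 ∧ b = 1) hρ1 hκ1 (by omega)
  have k1 := congrArg (D.pr (((1 : ℕ) : ℝ) • al + ((0 : ℕ) : ℝ) • ga)) key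
  have k2 := congrArg (D.pr (((0 : ℕ) : ℝ) • al + ((1 : ℕ) : ℝ) • ga)) key
  have k3 := congrArg (D.pr (((1 : ℕ) : ℝ) • al + ((1 : ℕ) : ℝ) • ga)) key
  simp only [map_add (D.pr _) _ _] at k1 k2 k3
  rw [t.pr_lat hZ1 1 0 (by omega), t.pr_lat hXZ 1 0 (by omega), t.pr_lat hx 1 0 (by omega),
    t.pr_lat hz 1 0 (by omega), t.pr_lat hs 1 0 (by omega), t.pr_lat hr 1 0 (by omega),
    t.pr_lat hρκ 1 0 (by omega), t.pr_lat hE 1 0 (by omega), a10, pr_self D hX] at k1
  rw [t.pr_lat hX1 0 1 (by omega), t.pr_lat hXZ 0 1 (by omega), t.pr_lat hx 0 1 (by omega),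
    t.pr_lat hz 0 1 (by omega), t.pr_lat hs 0 1 (by omega), t.pr_lat hq 0 1 (by omega),
    t.pr_lat hρκ 0 1 (by omega), t.pr_lat hE 0 1 (by omega), a01, pr_self D hZ] at k2
  rw [lat_single] at hXZ hρκ
  rw [t.pr_lat hX1 1 1 (by omega), t.pr_lat hZ1 1 1 (by omega), t.pr_lat hx 1 1 (by omega),
    t.pr_lat hz 1 1 (by omega), t.pr_lat hr 1 1 (by omega), t.pr_lat hq 1 1 (by omega),
    t.pr_lat hE 1 1 (by omega), pr_self D hXZ, pr_self D hρκ] at k3
  simp only [add_zero, zero_add] at k1 k2 k3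
  rw [← a11, map_add, t.pr_lat h00 1 1 (by omega), zero_add, k3, ← k1, ← k2, add_sub_cancel_right]

end Two

end Pool.Agent.P.MP_d483fb_an.Z.Loop

end

end

section

/-!
Closed groups of units in a finite dimensional algebra: the Lie algebra, and the countability of
the image of a character that vanishes on the one parameter subgroups.
-/

open scoped Topology
open NormedSpace Filter Set Metric

noncomputable section

namespace Pool.Agent.P.MP_d483fb_an.Z.Loop

variable {A : Type} [NormedRing A] [NormedAlgebra ℝ A] [CompleteSpace A]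

/-- A closed set of units which is a group. -/
structure IsGrp (H : Set A) : Prop where
  closed : IsClosed H
  one : (1 : A) ∈ H
  mul : ∀ a ∈ H, ∀ b ∈ H, a * b ∈ H
  inv : ∀ a ∈ H, ∃ b ∈ H, a * b = 1 ∧ b * a = 1

namespace IsGrp

variable {H : Set A} (hH : IsGrp H)
include hH

omit [NormedAlgebra ℝ A] [CompleteSpace A] in
theorem pow {a : A} (ha : a ∈ H) (m : ℕ) : a ^ m ∈ H := by
  induction m with
  | zero => simpa using hH.one
  | succ m ih => rw [pow_succ]; exact hH.mul _ ih _ ha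

omit [NormedAlgebra ℝ A] [CompleteSpace A] in
theorem inv_mem {a b : A} (ha : a ∈ H) (h : a * b = 1) : b ∈ H := by
  obtain ⟨c, hc, -, h2⟩ := hH.inv a ha
  rwa [← one_mul b, ← h2, mul_assoc, h, mul_one]

/-- The Lie algebra. -/
def lie : Submodule ℝ A where
  carrier := {V | ∀ t : ℝ, exp (t • V) ∈ H}
  zero_mem' := fun t => by simpa using hH.one
  smul_mem' := fun c V hV t => by rw [smul_smul]; exact hV _
  add_mem' := fun {V W} hV hW t => by
    rw [smul_add]
    refine hH.closed.mem_of_tendsto (trotter (t • V) (t • W)) (Eventually.of_forall fun m => ?_)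
    rw [smul_smul, smul_smul]
    exact hH.pow (hH.mul _ (hV _) _ (hW _)) m

theorem mem_lie {V : A} : V ∈ hH.lie ↔ ∀ t : ℝ, exp (t • V) ∈ H := Iff.rfl

theorem exp_mem {V : A} (hV : V ∈ hH.lie) : exp V ∈ H := by simpa using hV 1

theorem mem_lie_of_nonneg {V : A} (h : ∀ t : ℝ, 0 ≤ t → exp (t • V) ∈ H) : V ∈ hH.lie := by
  intro t
  rcases le_total 0 t with ht | ht
  · exact h t ht
  · refine hH.inv_mem (h (-t) (neg_nonneg.2 ht)) ?_
    rw [neg_smul, exp_neg_mul]

variable [FiniteDimensional ℝ A]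

theorem br_mem {V W : A} (hV : V ∈ hH.lie) (hW : W ∈ hH.lie) : V * W - W * V ∈ hH.lie := by
  refine br_mem_of_conj (X := V) (Y := W) hH.lie.closed_of_finiteDimensional
    (Eventually.of_forall fun t s => ?_)
  rw [← smul_mul_assoc, ← mul_smul_comm, ← exp_conj (exp_mul_neg _) (exp_neg_mul _), ← neg_smul]
  exact hH.mul _ (hH.mul _ (hV t) _ (hW s)) _ (hV _)

omit [FiniteDimensional ℝ A] in
theorem mem_lie_of_seq {Z : ℕ → A} {V : A} (hZ : ∀ m, exp (Z m) ∈ H) (h0 : ∀ m, Z m ≠ 0)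
    (hl : Tendsto Z atTop (𝓝 0)) (hV : Tendsto (fun m => ‖Z m‖⁻¹ • Z m) atTop (𝓝 V)) :
    V ∈ hH.lie := by
  refine hH.mem_lie_of_nonneg fun t ht => ?_
  have h1 : Tendsto (fun m => ‖Z m‖⁻¹) atTop atTop := tendsto_inv_nhdsGT_zero.comp
    (tendsto_nhdsWithin_iff.2 ⟨by simpa using hl.norm,
      Eventually.of_forall fun m => norm_pos_iff.2 (h0 m)⟩)
  have h2 := ((tendsto_nat_floor_mul_div_atTop ht).comp h1).smul hV
  refine hH.closed.mem_of_tendsto ((exp_cont.tendsto _).comp h2) (Eventually.of_forall fun m => ?_)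
  simp only [Function.comp_apply]
  rw [smul_smul, div_mul_cancel₀ _ (inv_ne_zero (norm_ne_zero_iff.2 (h0 m))), exp_nat_smul]
  exact hH.pow (hZ m) _

/-- The closed subgroup theorem. -/
theorem eventually_exp : ∀ᶠ h in 𝓝[H] (1 : A), ∃ V ∈ hH.lie, h = exp V := by
  obtain ⟨W, hW⟩ := hH.lie.exists_isCompl
  set p : A →L[ℝ] A := LinearMap.toContinuousLinearMap (hH.lie.projection W hW) with hp
  set q : A →L[ℝ] A := ContinuousLinearMap.id ℝ A - p with hq
  have hpm : ∀ Z, p Z ∈ hH.lie := fun Z => Submodule.projection_apply_mem hW Z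
  have hqm : ∀ Z, q Z ∈ W := fun Z => by
    rw [← Submodule.projection_apply_eq_zero_iff hW]
    change p (Z - p Z) = 0
    rw [map_sub, sub_eq_zero]
    exact (Submodule.projection_apply_of_mem_left hW (hpm Z)).symm
  have hd : HasStrictFDerivAt (fun Z => exp (p Z) * exp (q Z)) (ContinuousLinearMap.id ℝ A) 0 := by
    have e : ∀ r : A →L[ℝ] A, HasStrictFDerivAt (fun Z => exp (r Z)) r 0 := fun r => by
      have h1 : HasStrictFDerivAt (exp : A → A) (1 : A →L[ℝ] A) (r 0) := by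
        rw [map_zero]
        exact hasStrictFDerivAt_exp_zero
      exact h1.comp 0 r.hasStrictFDerivAt
    refine ((e p).fun_mul' (e q)).congr_fderiv ?_
    ext Z
    simp [hq]
  have hmap := hd.map_nhds_eq_of_surj (by simp)
  simp only [map_zero, exp_zero, mul_one] at hmap
  by_contra hno
  have h1 : ∀ m : ℕ, ∃ Z : A, ‖Z‖ < 1 / ((m : ℝ) + 1) ∧ exp (p Z) * exp (q Z) ∈ H ∧
      ¬ ∃ V ∈ hH.lie, exp (p Z) * exp (q Z) = exp V := fun m => by
    have h2 : (fun Z => exp (p Z) * exp (q Z)) '' ball 0 (1 / ((m : ℝ) + 1)) ∈ 𝓝 (1 : A) := by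
      rw [← hmap]
      exact image_mem_map (ball_mem_nhds _ (by positivity))
    obtain ⟨h, h3, ⟨Z, hZ, rfl⟩, h4⟩ := ((not_eventually.1 hno).and_eventually
      (Eventually.and (mem_nhdsWithin_of_mem_nhds h2) self_mem_nhdsWithin)).exists
    exact ⟨Z, mem_ball_zero_iff.1 hZ, h4, h3⟩
  choose Z hZ hZH hZn using h1
  have hZ0 : Tendsto Z atTop (𝓝 0) := tendsto_zero_iff_norm_tendsto_zero.2
    (squeeze_zero (fun _ => norm_nonneg _) (fun m => (hZ m).le)
      tendsto_one_div_add_atTop_nhds_zero_nat)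
  have h0 : ∀ m, q (Z m) ≠ 0 := fun m h => hZn m ⟨_, hpm (Z m), by rw [h, exp_zero, mul_one]⟩
  have hqH : ∀ m, exp (q (Z m)) ∈ H := fun m => by
    have := hH.mul _ (hH.exp_mem (neg_mem (hpm (Z m)))) _ (hZH m)
    rwa [← mul_assoc, exp_neg_mul, one_mul] at this
  have := FiniteDimensional.proper_real A
  obtain ⟨V, hV, φ, hφ, hl⟩ := (isCompact_sphere (0 : A) 1).tendsto_subseq
    (x := fun m => ‖q (Z m)‖⁻¹ • q (Z m)) fun m => by
      rw [mem_sphere_zero_iff_norm, norm_smul, norm_inv, norm_norm,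
        inv_mul_cancel₀ (norm_ne_zero_iff.2 (h0 m))]
  have hVl : V ∈ hH.lie := hH.mem_lie_of_seq (Z := fun m => q (Z (φ m))) (fun m => hqH _)
    (fun m => h0 _)
    (by simpa [Function.comp_def] using (q.continuous.tendsto 0).comp (hZ0.comp hφ.tendsto_atTop))
    hl
  have hVW : V ∈ W := W.closed_of_finiteDimensional.mem_of_tendsto hl
    (Eventually.of_forall fun m => W.smul_mem _ (hqm _))
  have : V = 0 := (Submodule.disjoint_def.1 hW.disjoint) V hVl hVW
  simp [this] at hV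

/-- A character that vanishes on the one parameter subgroups has countable image. -/
theorem countable_image {φ : A → ℝ} (hφ : ∀ a ∈ H, ∀ b ∈ H, φ (a * b) = φ a + φ b)
    (h0 : ∀ V ∈ hH.lie, φ (exp V) = 0) : (φ '' H).Countable := by
  have := FiniteDimensional.proper_real A
  have hop : ∀ c : ℝ, IsOpen {h : H | φ h = c} := fun c => by
    refine isOpen_iff_eventually.2 fun a ha => ?_
    obtain ⟨b, hb, hab, hba⟩ := hH.inv a a.2
    have ht : Tendsto (fun h : H => b * (h : A)) (𝓝 a) (𝓝[H] 1) := by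
      refine tendsto_nhdsWithin_iff.2 ⟨?_, Eventually.of_forall fun h => hH.mul _ hb _ h.2⟩
      rw [← hba]
      exact (continuous_const.mul continuous_subtype_val).tendsto a
    filter_upwards [ht.eventually hH.eventually_exp] with h ⟨V, hV, he⟩
    have h1 := hφ a a.2 _ (hH.exp_mem hV)
    rw [h0 V hV, ← he, ← mul_assoc, hab, one_mul, add_zero] at h1
    exact h1.trans ha
  refine PairwiseDisjoint.countable_of_isOpen (s := fun c => {h : H | φ h = c})
    (fun c _ d _ hcd => Set.disjoint_left.2 fun h h1 h2 => hcd (h1.symm.trans h2))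
    (fun c _ => hop c) ?_
  rintro _ ⟨a, ha, rfl⟩
  exact ⟨⟨a, ha⟩, rfl⟩

end IsGrp

end Pool.Agent.P.MP_d483fb_an.Z.Loop

end

end

section

/-!
A measurable equivariant family of closed cones over an ergodic map contains a fixed eigenvector.
Also: measurability of the set where a family of continuous equations has a solution in a
compact set.
-/

open MeasureTheory Set Filter Topology Metric

namespace Pool.Agent.P.MP_d483fb_an.Z.Loop

/-- The set of points where countably many equations have a common solution in a compact set. -/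
theorem measurableSet_exists_compact {X P I : Type*} [MeasurableSpace X] [MetricSpace P]
    [Countable I] {Q : Set P} (hQ : IsCompact Q) {S : Set X} (hS : MeasurableSet S)
    (g : I → X → P → ℝ) (hm : ∀ i, ∀ v ∈ Q, Measurable fun x => g i x v)
    (hc : ∀ i, ∀ x ∈ S, ContinuousOn (g i x) Q) :
    MeasurableSet {x | x ∈ S ∧ ∃ v ∈ Q, ∀ i, g i x v = 0} := by
  classical
  obtain ⟨D, hDQ, hDc, hD⟩ := hQ.isSeparable.exists_countable_dense_subset
  have : {x | x ∈ S ∧ ∃ v ∈ Q, ∀ i, g i x v = 0} = S ∩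
      ⋂ p : Finset I × ℕ, ⋃ v ∈ D, ⋂ i ∈ p.1, {x | |g i x v| < 1 / ((p.2 : ℝ) + 1)} := by
    ext x
    simp only [mem_ofPred_eq, mem_inter_iff, mem_iInter, mem_iUnion, exists_prop]
    refine and_congr_right fun hx => ⟨?_, fun h => ?_⟩
    · rintro ⟨v, hv, h0⟩ ⟨s, m⟩
      have he : ∀ᶠ w in 𝓝[Q] v, ∀ i ∈ s, |g i x w| < 1 / ((m : ℝ) + 1) := by
        rw [Filter.eventually_all_finset]
        intro i _
        have h1 : Tendsto (fun w => |g i x w|) (𝓝[Q] v) (𝓝 |g i x v|) := (hc i x hx v hv).abs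
        refine h1.eventually (gt_mem_nhds ?_)
        rw [h0 i, abs_zero]
        positivity
      have hne : (𝓝[D] v).NeBot := mem_closure_iff_nhdsWithin_neBot.1 (hD hv)
      obtain ⟨w, hw, hwD⟩ :=
        ((he.filter_mono (nhdsWithin_mono v hDQ)).and self_mem_nhdsWithin).exists
      exact ⟨w, hwD, hw⟩
    · by_contra hno
      push Not at hno
      have hcl : ∀ p : I × ℕ, IsClosed (Q ∩ {v | |g p.1 x v| ≤ 1 / ((p.2 : ℝ) + 1)}) := fun p =>
        (hc p.1 x hx).abs.preimage_isClosed_of_isClosed hQ.isClosed isClosed_Iic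
      have hem : Q ∩ ⋂ p : I × ℕ, (Q ∩ {v | |g p.1 x v| ≤ 1 / ((p.2 : ℝ) + 1)}) = ∅ := by
        rw [eq_empty_iff_forall_notMem]
        rintro v ⟨hv, h2⟩
        obtain ⟨i, hi⟩ := hno v hv
        obtain ⟨m, hm'⟩ := exists_nat_one_div_lt (abs_pos.2 hi)
        have := (mem_iInter.1 h2 (i, m)).2
        exact absurd this (not_le.2 hm')
      obtain ⟨t, ht⟩ := hQ.elim_finite_subfamily_closed _ hcl hem
      obtain ⟨v, hvD, hv⟩ := h (t.image Prod.fst, t.sup Prod.snd)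
      refine (eq_empty_iff_forall_notMem.1 ht) v ⟨hDQ hvD, ?_⟩
      simp only [mem_iInter]
      intro p hp
      refine ⟨hDQ hvD, (hv p.1 (Finset.mem_image_of_mem _ hp)).le.trans ?_⟩
      have : (p.2 : ℝ) ≤ (t.sup Prod.snd : ℕ) := by exact_mod_cast Finset.le_sup hp
      exact one_div_le_one_div_of_le (by positivity) (by linarith)
  rw [this]
  refine hS.inter (MeasurableSet.iInter fun p => MeasurableSet.biUnion hDc fun v hv =>
    Finset.measurableSet_biInter _ fun i _ => ?_)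
  exact measurableSet_lt (hm i v (hDQ hv)).abs measurable_const

variable {X κ : Type*} [MeasurableSpace X] [Fintype κ]

/-- Points near which the family accumulates with positive probability. -/
def supp (μ : Measure X) (K : X → Set (κ → ℝ)) : Set (κ → ℝ) :=
  {Y | ∀ r, 0 < r → μ {x | ∃ Z ∈ K x, dist Z Y ≤ r} ≠ 0}

theorem isClosed_supp (μ : Measure X) (K : X → Set (κ → ℝ)) : IsClosed (supp μ K) := by
  refine isClosed_of_closure_subset fun Y hY r hr => ?_
  obtain ⟨Y', hY', hd⟩ := Metric.mem_closure_iff.1 hY (r / 2) (by positivity)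
  intro h0
  refine hY' (r / 2) (by positivity) (measure_mono_null ?_ h0)
  rintro x ⟨Z, hZ, hZ'⟩
  refine ⟨Z, hZ, ?_⟩
  have := dist_triangle Z Y' Y
  rw [dist_comm Y' Y] at this
  linarith

theorem ae_subset_supp (μ : Measure X) (K : X → Set (κ → ℝ)) : ∀ᵐ x ∂μ, K x ⊆ supp μ K := by
  have h1 : ∀ Y : ((supp μ K)ᶜ : Set (κ → ℝ)), ∃ r, 0 < r ∧
      μ {x | ∃ Z ∈ K x, dist Z Y ≤ r} = 0 := fun Y => by
    have := Y.2
    simp only [supp, mem_compl_iff, mem_ofPred_eq, not_forall, not_not] at this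
    obtain ⟨r, hr, h⟩ := this
    exact ⟨r, hr, h⟩
  choose r hr h0 using h1
  obtain ⟨T, hT, hU⟩ := TopologicalSpace.isOpen_iUnion_countable
    (fun Y : ((supp μ K)ᶜ : Set (κ → ℝ)) => ball (Y : κ → ℝ) (r Y)) fun _ => isOpen_ball
  have h2 : ∀ᵐ x ∂μ, ∀ Y ∈ T, ¬ ∃ Z ∈ K x, dist Z Y ≤ r Y :=
    (ae_ball_iff hT).2 fun Y _ => measure_eq_zero_iff_ae_notMem.1 (h0 Y)
  filter_upwards [h2] with x hx Z hZ
  by_contra hn
  have : Z ∈ ⋃ Y ∈ T, ball (Y : κ → ℝ) (r Y) := by
    rw [hU]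
    exact mem_iUnion.2 ⟨⟨Z, hn⟩, mem_ball_self (hr _)⟩
  simp only [mem_iUnion] at this
  obtain ⟨Y, hY, hZY⟩ := this
  exact hx Y hY ⟨Z, hZ, (mem_ball.1 hZY).le⟩

theorem supp_map {μ : Measure X} {K : X → Set (κ → ℝ)} {a : X → X} (ha : MeasurePreserving a μ μ)
    (e : κ → ℝ) (heq : ∀ᵐ x ∂μ, ∀ Y ∈ K x, (fun i => e i * Y i) ∈ K (a x)) {Y : κ → ℝ}
    (hY : Y ∈ supp μ K) : (fun i => e i * Y i) ∈ supp μ K := by
  intro r hr h0
  have hC : 0 < ‖e‖ + 1 := by positivity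
  refine hY (r / (‖e‖ + 1)) (by positivity) ?_
  have h1 := ha.quasiMeasurePreserving.preimage_null h0
  refine measure_mono_null_ae ?_ h1
  filter_upwards [heq] with x hx
  rintro ⟨Z, hZ, hd⟩
  refine ⟨_, hx Z hZ, (dist_pi_le_iff hr.le).2 fun i => ?_⟩
  rw [Real.dist_eq, ← mul_sub, abs_mul]
  have h2 : |Z i - Y i| ≤ r / (‖e‖ + 1) := (dist_le_pi_dist Z Y i).trans hd
  have h3 : |e i| ≤ ‖e‖ + 1 := (norm_le_pi_norm e i).trans (by linarith)
  calc |e i| * |Z i - Y i| ≤ (‖e‖ + 1) * (r / (‖e‖ + 1)) := by gcongr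
    _ = r := by field_simp

/-- A measurable equivariant family of closed cones contains a fixed eigenvector. -/
theorem exists_const_vec {μ : Measure X} [IsProbabilityMeasure μ] {a : X → X} (ha : Ergodic a μ)
    (δ : κ → ℝ) (K : X → Set (κ → ℝ)) (hcl : ∀ᵐ x ∂μ, IsClosed (K x))
    (hcone : ∀ᵐ x ∂μ, ∀ c : ℝ, 0 < c → ∀ Y ∈ K x, c • Y ∈ K x)
    (hne : ∀ᵐ x ∂μ, ∃ Y ∈ K x, Y ≠ 0)
    (heq : ∀ᵐ x ∂μ, ∀ Y ∈ K x, (fun i => Real.exp (δ i) * Y i) ∈ K (a x))
    (hm : ∀ Q, IsCompact Q → NullMeasurableSet {x | ∃ Y ∈ K x, Y ∈ Q} μ) :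
    ∃ Y, Y ≠ 0 ∧ (∃ d, ∀ i, Y i ≠ 0 → δ i = d) ∧ ∀ᵐ x ∂μ, Y ∈ K x := by
  classical
  have hsub := ae_subset_supp μ K
  obtain ⟨x0, ⟨Y0, hY0, hY0'⟩, hx0⟩ := (hne.and hsub).exists
  obtain ⟨i0, hi0⟩ := Function.ne_iff.1 hY0'
  obtain ⟨j, hj, hmax⟩ := Finset.exists_max_image
    (Finset.univ.filter fun i => ∃ Y ∈ supp μ K, Y i ≠ 0) δ
    ⟨i0, Finset.mem_filter.2 ⟨Finset.mem_univ _, Y0, hx0 hY0, hi0⟩⟩
  obtain ⟨Y, hY, hYj⟩ := (Finset.mem_filter.1 hj).2
  have hle : ∀ Z ∈ supp μ K, ∀ i, Z i ≠ 0 → δ i ≤ δ j := fun Z hZ i hi =>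
    hmax i (Finset.mem_filter.2 ⟨Finset.mem_univ _, Z, hZ, hi⟩)
  have heq' : ∀ᵐ x ∂μ, ∀ Y ∈ K x, (fun i => Real.exp (δ i - δ j) * Y i) ∈ K (a x) := by
    filter_upwards [heq, ha.toMeasurePreserving.quasiMeasurePreserving.ae hcone] with x h1 h2 Z hZ
    have := h2 (Real.exp (-δ j)) (Real.exp_pos _) _ (h1 Z hZ)
    convert this using 1
    ext i
    simp only [Pi.smul_apply, smul_eq_mul, sub_eq_add_neg, Real.exp_add]
    ring
  have hit : ∀ n : ℕ, (fun i => Real.exp (δ i - δ j) ^ n * Y i) ∈ supp μ K := by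
    intro n
    induction n with
    | zero => simpa using hY
    | succ n ih =>
      have := supp_map ha.toMeasurePreserving _ heq' ih
      convert this using 2
      ring
  set Y1 : κ → ℝ := fun i => if δ i = δ j then Y i else 0 with hY1
  have hY1s : Y1 ∈ supp μ K := by
    refine (isClosed_supp μ K).mem_of_tendsto (b := atTop) ?_ (Eventually.of_forall hit)
    refine tendsto_pi_nhds.2 fun i => ?_
    by_cases h : δ i = δ j
    · simp [hY1, h]
    by_cases h0 : Y i = 0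
    · simp [hY1, h0]
    have hlt : Real.exp (δ i - δ j) < 1 :=
      Real.exp_lt_one_iff.2 (sub_neg.2 (lt_of_le_of_ne (hle Y hY i h0) h))
    have := (tendsto_pow_atTop_nhds_zero_of_lt_one (Real.exp_pos _).le hlt).mul_const (Y i)
    simpa [hY1, h] using this
  refine ⟨Y1, Function.ne_iff.2 ⟨j, by simpa [hY1] using hYj⟩, ⟨δ j, fun i hi => ?_⟩, ?_⟩
  · by_contra h
    exact hi (by simp [hY1, h])
  have hall : ∀ r, 0 < r → ∀ᵐ x ∂μ, ∃ Z ∈ K x, Z ∈ closedBall Y1 r := by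
    intro r hr
    rcases ha.ae_empty_or_univ_of_ae_le_preimage (hm _ (isCompact_closedBall Y1 r)) (by
      filter_upwards [heq', hsub] with x h1 h2
      rintro ⟨Z, hZ, hd⟩
      refine ⟨_, h1 Z hZ, (dist_pi_le_iff hr.le).2 fun i => ?_⟩
      have h3 : |Z i - Y1 i| ≤ r := (dist_le_pi_dist Z Y1 i).trans hd
      by_cases h : δ i = δ j
      · simpa [h, Real.dist_eq] using h3
      by_cases h0 : Z i = 0
      · simp [hY1, h, h0, hr.le]
      have hle1 : Real.exp (δ i - δ j) ≤ 1 :=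
        Real.exp_le_one_iff.2 (sub_nonpos.2 (hle Z (h2 hZ) i h0))
      simp only [hY1, h, if_false, sub_zero, Real.dist_eq] at h3 ⊢
      rw [abs_mul, abs_of_pos (Real.exp_pos _)]
      calc Real.exp (δ i - δ j) * |Z i| ≤ 1 * r := by gcongr
        _ = r := one_mul r) with h | h
    · exact absurd (ae_eq_empty.1 h) (hY1s r hr)
    · exact eventuallyEq_univ.1 h
  have h2 : ∀ᵐ x ∂μ, ∀ n : ℕ, ∃ Z ∈ K x, Z ∈ closedBall Y1 (1 / ((n : ℝ) + 1)) :=
    ae_all_iff.2 fun n => hall _ (by positivity)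
  filter_upwards [h2, hcl] with x hx hc
  rw [← hc.closure_eq, Metric.mem_closure_iff]
  intro ε hε
  obtain ⟨n, hn⟩ := exists_nat_one_div_lt hε
  obtain ⟨Z, hZ, hd⟩ := hx n
  exact ⟨Z, hZ, by rw [dist_comm]; exact (mem_closedBall.1 hd).trans_lt hn⟩

end Pool.Agent.P.MP_d483fb_an.Z.Loop


end

section

/-!
A countable determining family of bounded open sets and of continuous test functions; the right
projective stabiliser of a locally finite measure on a normed ring.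
-/

open MeasureTheory Set Filter Topology Metric TopologicalSpace
open scoped ENNReal

noncomputable section

namespace Pool.Agent.P.MP_d483fb_an.Z.Loop

variable (A : Type*) [NormedRing A] [ProperSpace A]

/-- The index set of the family. -/
abbrev Idx : Type _ := Finset (countableBasis A) × ℕ

instance : Countable (Idx A) := by
  have := (countable_countableBasis A).to_subtype
  infer_instance

variable {A}

/-- The bounded open sets of the family. -/
def bx (i : Idx A) : Set A := ball 0 (i.2 : ℝ) ∩ ⋂ U ∈ i.1, (U : Set A)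

theorem isOpen_bx (i : Idx A) : IsOpen (bx i) :=
  isOpen_ball.inter (isOpen_biInter_finset fun U _ => isOpen_of_mem_countableBasis U.2)

theorem bx_subset (i : Idx A) : bx i ⊆ closedBall 0 (i.2 : ℝ) :=
  inter_subset_left.trans ball_subset_closedBall

theorem isPiSystem_bx : IsPiSystem (range (bx (A := A))) := by
  classical
  rintro _ ⟨i, rfl⟩ _ ⟨j, rfl⟩ -
  refine ⟨(i.1 ∪ j.1, min i.2 j.2), ?_⟩
  ext v
  simp only [bx, mem_inter_iff, mem_ball, Nat.cast_min, lt_min_iff, mem_iInter, Finset.mem_union]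
  exact ⟨fun h => ⟨⟨h.1.1, fun U hU => h.2 U (Or.inl hU)⟩, h.1.2, fun U hU => h.2 U (Or.inr hU)⟩,
    fun h => ⟨⟨h.1.1, h.2.1⟩, fun U hU => hU.elim (h.1.2 U) (h.2.2 U)⟩⟩

theorem iUnion_bx (s : Finset (countableBasis A)) : ⋃ n : ℕ, bx (s, n) = ⋂ U ∈ s, (U : Set A) := by
  simp only [bx]
  rw [← iUnion_inter, iUnion_ball_nat, univ_inter]

/-- The test functions. -/
def tst (p : Idx A × ℕ) (v : A) : ℝ≥0∞ := min 1 (p.2 * infEDist v (bx p.1)ᶜ)

theorem continuous_tst (p : Idx A × ℕ) : Continuous (tst p) :=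
  continuous_const.min ((ENNReal.continuous_const_mul (ENNReal.natCast_ne_top _)).comp
    continuous_infEDist)

theorem tst_le (p : Idx A × ℕ) (v : A) : tst p v ≤ (bx p.1).indicator 1 v := by
  by_cases h : v ∈ bx p.1
  · rw [indicator_of_mem h]
    exact min_le_left _ _
  · rw [tst, infEDist_zero_of_mem (show v ∈ (bx p.1)ᶜ from h)]
    simp

theorem tst_mono (i : Idx A) : Monotone fun k : ℕ => tst (i, k) := fun k l h v => by
  simp only [tst]
  gcongr

theorem iSup_tst (i : Idx A) (v : A) : ⨆ k : ℕ, tst (i, k) v = (bx i).indicator 1 v := by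
  refine le_antisymm (iSup_le fun k => tst_le (i, k) v) ?_
  by_cases h : v ∈ bx i
  · rw [indicator_of_mem h]
    have h0 : infEDist v (bx i)ᶜ ≠ 0 := fun h0 =>
      ((isOpen_bx i).isClosed_compl.closure_eq ▸ mem_closure_iff_infEDist_zero.2 h0 :
        v ∈ (bx i)ᶜ) h
    obtain ⟨k, hk⟩ := ENNReal.exists_nat_mul_gt h0 ENNReal.one_ne_top
    exact le_iSup_of_le k (le_min le_rfl hk.le)
  · rw [indicator_of_notMem h]
    exact zero_le

variable [MeasurableSpace A] [BorelSpace A]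

theorem generateFrom_bx :
    ‹MeasurableSpace A› = MeasurableSpace.generateFrom (range (bx (A := A))) := by
  refine le_antisymm ?_ (MeasurableSpace.generateFrom_le ?_)
  · rw [BorelSpace.measurable_eq (α := A), (isBasis_countableBasis A).borel_eq_generateFrom]
    refine MeasurableSpace.generateFrom_le fun U hU => ?_
    have := iUnion_bx {(⟨U, hU⟩ : countableBasis A)}
    simp only [Finset.mem_singleton, iInter_iInter_eq_left] at this
    rw [← this]
    exact MeasurableSet.iUnion fun n => MeasurableSpace.measurableSet_generateFrom ⟨_, rfl⟩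
  · rintro _ ⟨i, rfl⟩
    exact (isOpen_bx i).measurableSet

omit [BorelSpace A] in
theorem measure_bx_ne_top (m : Measure A) [IsFiniteMeasureOnCompacts m] (i : Idx A) :
    m (bx i) ≠ ∞ :=
  ((measure_mono (bx_subset i)).trans_lt (isCompact_closedBall _ _).measure_lt_top).ne

theorem ext_bx {m m' : Measure A} [IsFiniteMeasureOnCompacts m]
    (h : ∀ i, m (bx i) = m' (bx i)) : m = m' := by
  refine Measure.ext_of_generateFrom_of_iUnion _ (fun n => bx (∅, n)) generateFrom_bx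
    isPiSystem_bx ?_ (fun n => ⟨_, rfl⟩) (fun n => measure_bx_ne_top m _) ?_
  · rw [iUnion_bx]
    simp
  · rintro _ ⟨i, rfl⟩
    exact h i

omit [BorelSpace A] in
theorem exists_bx_ne_zero {m : Measure A} (hm : m ≠ 0) : ∃ i, m (bx i) ≠ 0 := by
  by_contra h
  push Not at h
  refine hm (Measure.measure_univ_eq_zero.1 ?_)
  have := iUnion_bx (∅ : Finset (countableBasis A))
  simp only [Finset.notMem_empty, iInter_of_empty, iInter_univ] at this
  rw [← this]
  exact measure_iUnion_null fun n => h _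

theorem exists_smul_of_bx {m m' : Measure A} [IsFiniteMeasureOnCompacts m]
    [IsFiniteMeasureOnCompacts m'] (hm : m ≠ 0) (hm' : m' ≠ 0)
    (h : ∀ i j, m' (bx i) * m (bx j) = m' (bx j) * m (bx i)) :
    ∃ c : ℝ≥0∞, c ≠ 0 ∧ c ≠ ∞ ∧ m' = c • m := by
  obtain ⟨j, hj⟩ := exists_bx_ne_zero hm
  have he : m' = (m' (bx j) / m (bx j)) • m := ext_bx fun i => by
    rw [Measure.smul_apply, smul_eq_mul, div_eq_mul_inv, mul_right_comm, ← h i j, mul_assoc,
      ENNReal.mul_inv_cancel hj (measure_bx_ne_top m j), mul_one]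
  refine ⟨_, fun h0 => hm' ?_, ENNReal.div_ne_top (measure_bx_ne_top m' j) hj, he⟩
  rw [he, h0, zero_smul]

/-- `h` preserves `m` up to a scalar under right multiplication. -/
def Prj (m : Measure A) (h : A) : Prop :=
  ∃ c : ℝ≥0∞, c ≠ 0 ∧ c ≠ ∞ ∧ m.map (· * h) = c • m

omit [ProperSpace A] [BorelSpace A] in
theorem Prj.one (m : Measure A) : Prj m 1 :=
  ⟨1, one_ne_zero, ENNReal.one_ne_top, by simp⟩

omit [ProperSpace A] in
theorem Prj.mul {m : Measure A} {h h' : A} (h1 : Prj m h) (h2 : Prj m h') : Prj m (h * h') := by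
  obtain ⟨c, c0, ct, hc⟩ := h1
  obtain ⟨d, d0, dt, hd⟩ := h2
  refine ⟨c * d, mul_ne_zero c0 d0, ENNReal.mul_ne_top ct dt, ?_⟩
  have : (fun s => s * (h * h')) = (fun s => s * h') ∘ fun s => s * h := by
    ext s
    simp [mul_assoc]
  rw [this, ← Measure.map_map (by fun_prop) (by fun_prop), hc, Measure.map_smul, hd, smul_smul]

omit [ProperSpace A] in
theorem Prj.inv {m : Measure A} {h h' : A} (h1 : Prj m h) (hh : h * h' = 1) : Prj m h' := by
  obtain ⟨c, c0, ct, hc⟩ := h1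
  refine ⟨c⁻¹, ENNReal.inv_ne_zero.2 ct, ENNReal.inv_ne_top.2 c0, ?_⟩
  have := congrArg (Measure.map (· * h')) hc
  rw [Measure.map_map (by fun_prop) (by fun_prop), Measure.map_smul] at this
  have h2 : ((fun s => s * h') ∘ fun s => s * h) = id := by
    ext s
    simp [mul_assoc, hh]
  rw [h2, Measure.map_id] at this
  conv_rhs => rw [this]
  rw [smul_smul, ENNReal.inv_mul_cancel c0 ct, one_smul]

omit [ProperSpace A] in
theorem finite_map_mul (m : Measure A) [IsFiniteMeasureOnCompacts m] {h h' : A} (hh : h * h' = 1) :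
    IsFiniteMeasureOnCompacts (m.map (· * h)) := by
  refine ⟨fun K hK => ?_⟩
  rw [Measure.map_apply (by fun_prop) hK.measurableSet]
  refine (measure_mono ?_).trans_lt (hK.image (f := (· * h')) (by fun_prop)).measure_lt_top
  intro s hs
  exact ⟨s * h, hs, by simp [mul_assoc, hh]⟩

/-- The integral of a translated test function. -/
def tint (m : Measure A) (p : Idx A × ℕ) (h : A) : ℝ≥0∞ := ∫⁻ s, tst p (s * h) ∂m

theorem iSup_tint (m : Measure A) (i : Idx A) (h : A) :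
    ⨆ k : ℕ, tint m (i, k) h = m.map (· * h) (bx i) := by
  simp only [tint]
  rw [← lintegral_iSup (f := fun (k : ℕ) s => tst (i, k) (s * h))
    (fun k => (continuous_tst _).measurable.comp (by fun_prop))
    fun k l hkl s => tst_mono i hkl (s * h), ← lintegral_indicator_one (isOpen_bx i).measurableSet,
    lintegral_map (measurable_one.indicator (isOpen_bx i).measurableSet) (by fun_prop)]
  simp only [iSup_tst]

theorem tint_ne_top (m : Measure A) [IsFiniteMeasureOnCompacts m] (p : Idx A × ℕ) {h h' : A}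
    (hh : h * h' = 1) : tint m p h ≠ ∞ := by
  have := finite_map_mul m hh
  refine ne_top_of_le_ne_top (measure_bx_ne_top (m.map (· * h)) p.1) ?_
  rw [← iSup_tint]
  exact le_iSup (fun k : ℕ => tint m (p.1, k) h) p.2

theorem prj_iff {m : Measure A} [IsFiniteMeasureOnCompacts m] (hm : m ≠ 0) {h h' : A}
    (hh : h * h' = 1) : Prj m h ↔ ∀ p q, (tint m p h).toReal * (tint m q 1).toReal -
      (tint m q h).toReal * (tint m p 1).toReal = 0 := by
  constructor
  · rintro ⟨c, -, -, hc⟩ p q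
    have h1 : ∀ p, tint m p h = c * tint m p 1 := fun p => by
      rw [tint, ← lintegral_map (continuous_tst p).measurable (by fun_prop), hc,
        lintegral_smul_measure, tint]
      simp
    rw [h1 p, h1 q, ENNReal.toReal_mul, ENNReal.toReal_mul]
    ring
  · intro H
    have := finite_map_mul m hh
    refine exists_smul_of_bx hm (fun h0 => hm ?_) fun i j => ?_
    · exact (Measure.map_eq_zero_iff (by fun_prop)).1 h0
    have H' : ∀ p q, tint m p h * tint m q 1 = tint m q h * tint m p 1 := fun p q => by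
      rw [← ENNReal.toReal_eq_toReal_iff'
        (ENNReal.mul_ne_top (tint_ne_top m p hh) (tint_ne_top m q (one_mul 1)))
        (ENNReal.mul_ne_top (tint_ne_top m q hh) (tint_ne_top m p (one_mul 1))),
        ENNReal.toReal_mul, ENNReal.toReal_mul]
      linarith [H p q]
    have e : ∀ i, m (bx i) = ⨆ k : ℕ, tint m (i, k) 1 := fun i => by
      rw [iSup_tint]
      simp
    rw [e i, e j, ← iSup_tint, ← iSup_tint]
    simp only [ENNReal.iSup_mul, ENNReal.mul_iSup]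
    rw [iSup_comm]
    exact iSup_congr fun k => iSup_congr fun l => H' _ _

theorem continuousOn_tint (m : Measure A) [IsFiniteMeasureOnCompacts m] (p : Idx A × ℕ)
    {P : Type*} [TopologicalSpace P] [FirstCountableTopology P] {Q : Set P} {h h' : P → A}
    (hc : ContinuousOn h Q) (hc' : ContinuousOn h' Q) (hh : ∀ v ∈ Q, h v * h' v = 1) :
    ContinuousOn (fun v => (tint m p (h v)).toReal) Q := by
  intro v hv
  refine (ENNReal.tendsto_toReal (tint_ne_top m p (hh v hv))).comp ?_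
  refine tendsto_lintegral_filter_of_dominated_convergence
    ((closedBall (0 : A) (p.1.2 * (‖h' v‖ + 1))).indicator 1)
    (Eventually.of_forall fun w => (continuous_tst _).measurable.comp (by fun_prop)) ?_ ?_ ?_
  · have h1 : ∀ᶠ w in 𝓝[Q] v, ‖h' w‖ < ‖h' v‖ + 1 :=
      (hc' v hv).norm.eventually (gt_mem_nhds (lt_add_one _))
    filter_upwards [h1, self_mem_nhdsWithin] with w hw hwQ
    refine Eventually.of_forall fun s => (tst_le p _).trans ?_
    by_cases hs : s * h w ∈ bx p.1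
    · rw [indicator_of_mem hs, indicator_of_mem]
      · exact le_rfl
      have h2 := mem_closedBall_zero_iff.1 (bx_subset _ hs)
      rw [mem_closedBall_zero_iff]
      calc ‖s‖ = ‖s * h w * h' w‖ := by rw [mul_assoc, hh w hwQ, mul_one]
        _ ≤ ‖s * h w‖ * ‖h' w‖ := norm_mul_le _ _
        _ ≤ _ := by gcongr
    · rw [indicator_of_notMem hs]
      exact zero_le
  · rw [lintegral_indicator_one measurableSet_closedBall]
    exact (isCompact_closedBall _ _).measure_lt_top.ne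
  · exact Eventually.of_forall fun s =>
      ((continuous_tst p).tendsto _).comp (tendsto_const_nhds.mul (hc v hv))

theorem isClosed_prj {m : Measure A} [IsFiniteMeasureOnCompacts m] (hm : m ≠ 0)
    {P : Type*} [TopologicalSpace P] [FirstCountableTopology P] {Q : Set P} (hQ : IsClosed Q)
    {h h' : P → A} (hc : ContinuousOn h Q) (hc' : ContinuousOn h' Q)
    (hh : ∀ v ∈ Q, h v * h' v = 1) : IsClosed {v | v ∈ Q ∧ Prj m (h v)} := by
  have : {v | v ∈ Q ∧ Prj m (h v)} = Q ∩ ⋂ p, ⋂ q, (Q ∩ (fun v =>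
      (tint m p (h v)).toReal * (tint m q 1).toReal -
      (tint m q (h v)).toReal * (tint m p 1).toReal) ⁻¹' {0}) := by
    ext v
    simp only [mem_ofPred_eq, mem_inter_iff, mem_iInter, mem_preimage, mem_singleton_iff]
    refine and_congr_right fun hv => ?_
    rw [prj_iff hm (hh v hv)]
    exact ⟨fun H p q => ⟨hv, H p q⟩, fun H p q => (H p q).2⟩
  rw [this]
  refine hQ.inter (isClosed_iInter fun p => isClosed_iInter fun q =>
    ContinuousOn.preimage_isClosed_of_isClosed ?_ hQ isClosed_singleton)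
  exact ((continuousOn_tint m p hc hc' hh).mul continuousOn_const).sub
    ((continuousOn_tint m q hc hc' hh).mul continuousOn_const)

end Pool.Agent.P.MP_d483fb_an.Z.Loop

end

end

section

/-!
A measure which is a product in two systems of coordinates with the same first factor: the change
of coordinates preserves the first factor up to a scalar.
-/

open MeasureTheory Set Filter Topology Metric TopologicalSpace Function
open scoped ENNReal

noncomputable section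

namespace Pool.Agent.P.MP_d483fb_an.Z.Loop

variable {A : Type*} [NormedRing A] [ProperSpace A] [MeasurableSpace A] [BorelSpace A]

theorem measurable_tint (m : Measure A) [SFinite m] (p : Idx A × ℕ) : Measurable (tint m p) :=
  Measurable.lintegral_prod_left (f := fun s h => tst p (s * h))
    ((continuous_tst p).measurable.comp measurable_mul)

theorem measurableSet_prj {m : Measure A} [IsFiniteMeasureOnCompacts m] (hm : m ≠ 0) :
    MeasurableSet {h | IsUnit h ∧ Prj m h} := by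
  have : {h | IsUnit h ∧ Prj m h} = {h | IsUnit h} ∩ ⋂ p, ⋂ q, {h |
      (tint m p h).toReal * (tint m q 1).toReal - (tint m q h).toReal * (tint m p 1).toReal = 0} := by
    ext h
    simp only [mem_ofPred_eq, mem_inter_iff, mem_iInter]
    refine and_congr_right fun ⟨u, hu⟩ => ?_
    exact prj_iff hm (h' := (u⁻¹ : Aˣ)) (by rw [← hu]; simp)
  rw [this]
  refine Units.isOpen.measurableSet.inter (MeasurableSet.iInter fun p => MeasurableSet.iInter
    fun q => measurableSet_eq_fun ?_ measurable_const)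
  exact ((measurable_tint m p).ennreal_toReal.mul_const _).sub
    ((measurable_tint m q).ennreal_toReal.mul_const _)

theorem ae_prj_of_skew {Y Y' : Type*} [MeasurableSpace Y] [MeasurableSpace Y'] {m : Measure A}
    [IsFiniteMeasureOnCompacts m] (hm : m ≠ 0) {η : Measure Y} [SigmaFinite η] {η' : Measure Y'}
    [SFinite η'] {c c' : ℝ≥0∞} (c0 : c ≠ 0) (ct : c ≠ ∞) {β : Y → A} (hβ : Measurable β)
    (hu : ∀ᵐ y ∂η, IsUnit (β y)) {ψ : Y' → Y} (hψ : Measurable ψ)
    (H : ∀ F : A × Y → ℝ≥0∞, Measurable F → c * ∫⁻ s, ∫⁻ y, F (s * β y, y) ∂η ∂m =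
      c' * ∫⁻ s, ∫⁻ y, F (s, ψ y) ∂η' ∂m) : ∀ᵐ y ∂η, Prj m (β y) := by
  have hb : ∀ i : Idx A, MeasurableSet (bx i) := fun i => (isOpen_bx i).measurableSet
  have hg : ∀ i : Idx A, Measurable fun y => m.map (· * β y) (bx i) := fun i => by
    have : (fun y => m.map (· * β y) (bx i)) = fun y => m ((fun s => (s, y)) ⁻¹'
        {p : A × Y | p.1 * β p.2 ∈ bx i}) := by
      ext y
      rw [Measure.map_apply (by fun_prop) (hb i)]
      rfl
    rw [this]
    exact measurable_measure_prodMk_right ((measurable_fst.mul (hβ.comp measurable_snd)) (hb i))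
  have key : ∀ i B, MeasurableSet B → c * ∫⁻ y in B, m.map (· * β y) (bx i) ∂η =
      c' * (m (bx i) * η' (ψ ⁻¹' B)) := fun i B hB => by
    have hF : Measurable ((bx i ×ˢ B).indicator (1 : A × Y → ℝ≥0∞)) :=
      measurable_one.indicator ((hb i).prod hB)
    have h1 := H _ hF
    have h2 : ∫⁻ s, ∫⁻ y, (bx i ×ˢ B).indicator (1 : A × Y → ℝ≥0∞) (s * β y, y) ∂η ∂m =
        ∫⁻ y in B, m.map (· * β y) (bx i) ∂η := by
      rw [lintegral_lintegral_swap (f := fun s y => (bx i ×ˢ B).indicator (1 : A × Y → ℝ≥0∞)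
        (s * β y, y)) (hF.comp ((measurable_fst.mul (hβ.comp measurable_snd)).prodMk
          measurable_snd)).aemeasurable, ← lintegral_indicator hB]
      refine lintegral_congr fun y => ?_
      by_cases hy : y ∈ B
      · rw [indicator_of_mem hy, ← lintegral_indicator_one (hb i),
          lintegral_map (measurable_one.indicator (hb i)) (by fun_prop)]
        refine lintegral_congr fun s => ?_
        by_cases hs : s * β y ∈ bx i <;> simp [indicator, hy, hs]
      · simp [indicator, hy]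
    have h3 : ∫⁻ s, ∫⁻ y, (bx i ×ˢ B).indicator (1 : A × Y → ℝ≥0∞) (s, ψ y) ∂η' ∂m =
        m (bx i) * η' (ψ ⁻¹' B) := by
      rw [← lintegral_indicator_one (hb i), ← lintegral_indicator_one (hψ hB),
        ← lintegral_lintegral_mul (measurable_one.indicator (hb i)).aemeasurable
          (measurable_one.indicator (hψ hB)).aemeasurable]
      refine lintegral_congr fun s => lintegral_congr fun y => ?_
      by_cases hs : s ∈ bx i <;> by_cases hy : ψ y ∈ B <;> simp [indicator, hs, hy]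
    rwa [h2, h3] at h1
  have hij : ∀ p : Idx A × Idx A, ∀ᵐ y ∂η, m.map (· * β y) (bx p.1) * m (bx p.2) =
      m.map (· * β y) (bx p.2) * m (bx p.1) := fun p => by
    refine ae_eq_of_forall_setLIntegral_eq_of_sigmaFinite ((hg _).mul_const _) ((hg _).mul_const _)
      fun B hB _ => ?_
    rw [lintegral_mul_const _ (hg _), lintegral_mul_const _ (hg _),
      ← ENNReal.mul_right_inj c0 ct, ← mul_assoc, ← mul_assoc, key _ B hB, key _ B hB]
    ring
  filter_upwards [ae_all_iff.2 hij, hu] with y hy ⟨u, hu⟩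
  have := finite_map_mul m (h := β y) (h' := (u⁻¹ : Aˣ)) (by rw [← hu]; simp)
  exact exists_smul_of_bx hm (fun h0 => hm ((Measure.map_eq_zero_iff (by fun_prop)).1 h0))
    fun i j => hy (i, j)

theorem lintegral_mconv3 {m0 m1 m2 : Measure A} [SFinite m1] [SFinite m2] {F : A → ℝ≥0∞}
    (hF : Measurable F) : ∫⁻ n, F n ∂((m0 ∗ₘ m1) ∗ₘ m2) =
      ∫⁻ s, ∫⁻ y, F (s * y.1 * y.2) ∂(m1.prod m2) ∂m0 := by
  rw [Measure.mconv_assoc, Measure.lintegral_mconv hF]
  refine lintegral_congr fun s => ?_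
  rw [Measure.lintegral_mconv_eq_lintegral_prod (by fun_prop)]
  simp only [mul_assoc]

theorem ae_prj_of_mconv {M m0 m1 m2 : Measure A} [IsFiniteMeasureOnCompacts m0]
    [IsFiniteMeasureOnCompacts m1] [IsFiniteMeasureOnCompacts m2] (hm : m0 ≠ 0) {c c' : ℝ≥0∞}
    (c0 : c ≠ 0) (ct : c ≠ ∞) (hM : M = c • ((m0 ∗ₘ m1) ∗ₘ m2)) (hM' : M = c' • ((m0 ∗ₘ m2) ∗ₘ m1))
    {S Q R : A → Prop} (hS : ∀ᵐ s ∂m0, S s) (hQ : ∀ᵐ s ∂m1, Q s) (hR : ∀ᵐ s ∂m2, R s)
    (mQ : MeasurableSet {s | Q s}) (mR : MeasurableSet {s | R s})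
    {dq dr ds : A → A} (mq : Measurable dq) (mr : Measurable dr) (ms : Measurable ds)
    (h1 : ∀ s q r, S s → Q q → R r → dq (s * q * r) = q ∧ dr (s * q * r) = r ∧
      ds (s * q * r) = s * ds (q * r))
    (hu : ∀ q r, Q q → R r → IsUnit (ds (q * r)))
    (h2 : ∀ s q r, S s → Q q → R r → dq (s * r * q) = dq (r * q) ∧ dr (s * r * q) = dr (r * q) ∧
      ds (s * r * q) = s) :
    ∀ᵐ n ∂M, Prj m0 (ds (dq n * dr n)) := by
  have hQR : ∀ᵐ y ∂m1.prod m2, Q y.1 ∧ R y.2 :=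
    (Measure.ae_prod_iff_ae_ae ((measurable_fst mQ).inter (measurable_snd mR))).2
      (hQ.mono fun q hq => hR.mono fun r hr => ⟨hq, hr⟩)
  have hRQ : ∀ᵐ y ∂m2.prod m1, R y.1 ∧ Q y.2 :=
    (Measure.ae_prod_iff_ae_ae ((measurable_fst mR).inter (measurable_snd mQ))).2
      (hR.mono fun q hq => hQ.mono fun r hr => ⟨hq, hr⟩)
  have hβ : Measurable fun y : A × A => ds (y.1 * y.2) := ms.comp measurable_mul
  have h3 : ∀ᵐ y ∂m1.prod m2, Prj m0 (ds (y.1 * y.2)) := by
    refine ae_prj_of_skew hm (η' := m2.prod m1) (c' := c') c0 ct hβ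
      (hQR.mono fun y hy => hu _ _ hy.1 hy.2)
      (ψ := fun y => (dq (y.1 * y.2), dr (y.1 * y.2))) (by fun_prop) fun F hF => ?_
    have hG : Measurable fun n => F (ds n, dq n, dr n) := hF.comp (ms.prodMk (mq.prodMk mr))
    have e1 := congrArg (fun m => ∫⁻ n, F (ds n, dq n, dr n) ∂m) (hM.symm.trans hM')
    simp only [lintegral_smul_measure, smul_eq_mul, lintegral_mconv3 hG] at e1
    convert e1 using 2
    · refine lintegral_congr_ae (hS.mono fun s hs => lintegral_congr_ae (hQR.mono fun y hy => ?_))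
      obtain ⟨a1, a2, a3⟩ := h1 s _ _ hs hy.1 hy.2
      simp only [a1, a2, a3]
    · refine lintegral_congr_ae (hS.mono fun s hs => lintegral_congr_ae (hRQ.mono fun y hy => ?_))
      obtain ⟨a1, a2, a3⟩ := h2 s _ _ hs hy.2 hy.1
      simp only [a1, a2, a3]
  have hB : MeasurableSet {n | IsUnit (ds (dq n * dr n)) ∧ Prj m0 (ds (dq n * dr n))} :=
    (ms.comp (mq.mul mr)) (measurableSet_prj hm)
  refine Eventually.mono (p := fun n => IsUnit (ds (dq n * dr n)) ∧ Prj m0 (ds (dq n * dr n))) ?_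
    fun n hn => hn.2
  rw [hM]
  refine Measure.ae_smul_measure ?_ c
  rw [ae_iff]
  have e2 := lintegral_mconv3 (m0 := m0) (m1 := m1) (m2 := m2) (measurable_one.indicator hB.compl)
  rw [lintegral_indicator_one hB.compl] at e2
  refine e2.trans (lintegral_eq_zero_of_ae_eq_zero (hS.mono fun s hs =>
    lintegral_eq_zero_of_ae_eq_zero ?_))
  filter_upwards [hQR, h3] with y hy hy3
  obtain ⟨a1, a2, -⟩ := h1 s _ _ hs hy.1 hy.2
  refine indicator_of_notMem (notMem_compl_iff.2 ?_) _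
  simp only [mem_ofPred_eq, a1, a2]
  exact ⟨hu _ _ hy.1 hy.2, hy3⟩

end Pool.Agent.P.MP_d483fb_an.Z.Loop

end

end

section

/-!
The product structure along an arbitrary cut of the slopes, and the invariance of the middle
measure under the defects.
-/

open scoped Matrix Matrix.Norms.Operator Topology ENNReal
open MeasureTheory ProbabilityTheory Filter Set

noncomputable section

namespace Pool.Agent.P.MP_d483fb_an.Z

instance instMeasMulMatrix {ι : Type} [Fintype ι] [DecidableEq ι] :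
    MeasurableMul₂ (Matrix ι ι ℝ) :=
  ⟨Measurable.mmul measurable_fst measurable_snd⟩

/-- The topology of the matrices, seen through the norm. -/
abbrev nTop (ι : Type) [Fintype ι] [DecidableEq ι] : TopologicalSpace (Matrix ι ι ℝ) :=
  (Matrix.linftyOpNormedRing (n := ι) (α := ℝ)).toMetricSpace.toUniformSpace.toTopologicalSpace

instance instBorelMatrixNorm {ι : Type} [Fintype ι] [DecidableEq ι] :
    @BorelSpace (Matrix ι ι ℝ) (nTop ι) instMeasMatrix :=
  instBorelMatrix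

instance instProperMatrix {ι : Type} [Fintype ι] [DecidableEq ι] : ProperSpace (Matrix ι ι ℝ) :=
  FiniteDimensional.proper_real (Matrix ι ι ℝ)

namespace Pre

variable {X : Type} [MeasurableSpace X] {μ : Measure X} {ι : Type} [Fintype ι] [DecidableEq ι]
  {S : Pre X μ ι} {J : Set ℝ} {x : X}

namespace Leafwise

variable (o : S.Leafwise J)

theorem sfinite_nu (x : X) : SFinite (o.nu x) := by
  have := o.lw.sfin
  unfold nu
  infer_instance

theorem finite_nu (hx : x ∈ o.X1) : @IsFiniteMeasureOnCompacts _ _ (nTop ι) (o.nu x) := by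
  change IsFiniteMeasureOnCompacts (o.nu x)
  refine ⟨fun K hK => ?_⟩
  obtain ⟨B, hB⟩ := hK.bddAbove_image S.w.continuous_N.continuousOn
  rw [nu, Measure.map_apply (S.measurable_n_right x) hK.measurableSet]
  refine (measure_mono fun y hy => ?_).trans_lt (o.lw.fin x hx (B + 1)).lt_top
  exact (hB ⟨_, hy, rfl⟩).trans_lt (lt_add_one B)

theorem nu_ne_zero (hx : x ∈ o.X1) : o.nu x ≠ 0 := fun h => by
  have h1 := (Measure.map_eq_zero_iff (S.measurable_n_right x).aemeasurable).1 h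
  have h2 := o.lw.norm x hx
  rw [h1] at h2
  simp at h2

theorem ae_nil (hx : x ∈ o.X1) : ∀ᵐ s ∂o.nu x, S.w.Nil J s :=
  (ae_map_iff (S.measurable_n_right x).aemeasurable (S.w.measurableSet_Nil J)).2
    ((o.lw.carried x hx).mono fun _ hy => hy.2.2)

theorem nu_eq_dirac (hx : x ∈ o.X1) (h : ∀ i j, S.w.wa j < S.w.wa i → S.w.slope i j ∉ J) :
    o.nu x = Measure.dirac 1 := by
  have h1 : ∀ᵐ y ∂o.om x, S.n x y = 1 := (o.lw.carried x hx).mono fun y hy =>
    Wt.Nil.eq_one_of_empty (w := S.w) fun i j hij =>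
      (h i j (hy.2.2 i j hij).1 (hy.2.2 i j hij).2).elim
  have h2 : o.om x univ = 1 := by
    rw [← o.lw.norm x hx]
    refine measure_congr (eventuallyEq_univ.2 (h1.mono fun y hy => ?_)).symm
    change S.w.N (S.n x y) < 1
    rw [hy, Wt.N_one]
    exact one_pos
  rw [nu, Measure.map_congr h1, Measure.map_const, h2, one_smul]

end Leafwise

variable (S) in
/-- A choice of leafwise measures that depends only on the relation. -/
def omOf (R : X → X → Prop) : Kernel X X × Set X :=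
  Classical.epsilon fun p => IsLeafwise μ S.aE R S.N p.1 p.2 ∧ p.2 ⊆ S.X0

/-- The chosen leafwise measures. -/
def HasLW.lw (h : S.HasLW) (hJ : J.OrdConnected) : S.Leafwise J :=
  have := Classical.epsilon_spec
    (p := fun p : Kernel X X × Set X => IsLeafwise μ S.aE (S.RJ J) S.N p.1 p.2 ∧ p.2 ⊆ S.X0)
    ((h J hJ).elim fun o => ⟨(o.om, o.X1), o.lw, o.sub1⟩)
  ⟨(S.omOf (S.RJ J)).1, (S.omOf (S.RJ J)).2, this.1, this.2⟩

theorem HasLW.nu_congr (h : S.HasLW) {J' : Set ℝ} (hJ : J.OrdConnected) (hJ' : J'.OrdConnected)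
    (e : ∀ i j, S.w.wa j < S.w.wa i → (S.w.slope i j ∈ J ↔ S.w.slope i j ∈ J')) :
    (h.lw hJ).nu = (h.lw hJ').nu := by
  have : S.RJ J = S.RJ J' := by
    ext x y
    exact and_congr_right fun _ => ⟨fun H i j hij => ⟨(H i j hij).1, (e i j (H i j hij).1).1
      (H i j hij).2⟩, fun H i j hij => ⟨(H i j hij).1, (e i j (H i j hij).1).2 (H i j hij).2⟩⟩
  ext1 x
  change ((S.omOf (S.RJ J)).1 x).map _ = ((S.omOf (S.RJ J')).1 x).map _
  rw [this]

open Classical in
theorem HasLW.prod (h : S.HasLW) (hP : S.HasPS) {ε : ℝ} (hε : ε = 1 ∨ ε = -1) (m : ℕ) :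
    ∀ {J J1 J2 : Set ℝ} (hJ : J.OrdConnected) (h1 : J1.OrdConnected) (h2 : J2.OrdConnected),
      J = J1 ∪ J2 → (∀ s ∈ J1, ∀ t ∈ J2, ε * s < ε * t) →
      (Finset.univ.filter fun p : ι × ι =>
        S.w.wa p.2 < S.w.wa p.1 ∧ S.w.slope p.1 p.2 ∈ J2).card = m →
      ∀ᵐ x ∂μ, ∃ c : ℝ≥0∞, c ≠ 0 ∧ c ≠ ∞ ∧
        (h.lw hJ).nu x = c • ((h.lw h1).nu x ∗ₘ (h.lw h2).nu x) := by
  induction m using Nat.strong_induction_on with
  | _ m ih =>
  intro J J1 J2 hJ h1 h2 hU hlt hm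
  rcases (Finset.univ.filter fun p : ι × ι =>
    S.w.wa p.2 < S.w.wa p.1 ∧ S.w.slope p.1 p.2 ∈ J2).eq_empty_or_nonempty with h0 | h0
  · have hno : ∀ i j, S.w.wa j < S.w.wa i → S.w.slope i j ∉ J2 := fun i j hij hs =>
      Finset.filter_eq_empty_iff.1 h0 (Finset.mem_univ (i, j)) ⟨hij, hs⟩
    rw [h.nu_congr hJ h1 fun i j hij => by simp [hU, hno i j hij]]
    filter_upwards [(h.lw h2).lw.conull] with x hx
    have := (h.lw h1).sfinite_nu x
    exact ⟨1, one_ne_zero, ENNReal.one_ne_top, by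
      rw [(h.lw h2).nu_eq_dirac hx hno, Measure.mconv_dirac_one, one_smul]⟩
  obtain ⟨p, hp, hmax⟩ := Finset.exists_max_image _ (fun p : ι × ι => ε * S.w.slope p.1 p.2) h0
  obtain ⟨χ, hχ⟩ : ∃ χ, χ = S.w.slope p.1 p.2 := ⟨_, rfl⟩
  simp only [Finset.mem_filter, Finset.mem_univ, true_and, ← hχ] at hp hmax
  have hV : OrdConnected {t : ℝ | ε * t ≤ ε * χ} := ⟨fun a ha b hb c hc => by
    simp only [mem_ofPred_eq] at ha hb ⊢
    rcases hε with rfl | rfl <;> linarith [hc.1, hc.2]⟩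
  have hE : ∀ K : Set ℝ, Wt.Extreme (K ∩ {t : ℝ | ε * t ≤ ε * χ}) χ := fun K => by
    rcases hε with rfl | rfl
    · exact Or.inr fun σ hσ => by simpa using hσ.2
    · exact Or.inl fun σ hσ => by simpa using hσ.2
  have g1 := hJ.inter hV
  have g2 := h2.inter hV
  have g1' := (hE J).ordConnected_diff g1
  have g2' := (hE J2).ordConnected_diff g2
  have e1 := hP _ χ g1 ⟨by rw [hU]; exact Or.inr hp.2, le_refl (ε * χ)⟩ (hE J) (h.lw g1) (h.lw g1')
    (h.lw ordConnected_singleton)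
  have e2 := hP _ χ g2 ⟨hp.2, le_refl (ε * χ)⟩ (hE J2) (h.lw g2) (h.lw g2')
    (h.lw ordConnected_singleton)
  have e3 := ih _ (by
    rw [← hm]
    refine Finset.card_lt_card ((Finset.ssubset_iff_of_subset fun q hq => ?_).2 ⟨p, ?_, ?_⟩)
    · simp only [Finset.mem_filter, Finset.mem_univ, true_and] at hq ⊢
      exact ⟨hq.1, hq.2.1.1⟩
    · simpa [← hχ] using hp
    · simp [← hχ]) g1' h1 g2' (by
      rw [hU]
      ext t
      simp only [Set.mem_sdiff, mem_inter_iff, mem_union, mem_ofPred_eq, mem_singleton_iff]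
      refine ⟨fun ⟨⟨a, b⟩, c⟩ => a.imp_right fun a => ⟨⟨a, b⟩, c⟩, ?_⟩
      rintro (a | ⟨⟨a, b⟩, c⟩)
      · exact ⟨⟨Or.inl a, (hlt t a χ hp.2).le⟩, fun e => (hlt t a χ hp.2).ne (by rw [e])⟩
      · exact ⟨⟨Or.inr a, b⟩, c⟩) (fun s hs t ht => hlt s hs t ht.1.1) rfl
  rw [h.nu_congr hJ g1 fun i j hij => ⟨fun a => ⟨a, by
      rw [hU] at a
      exact a.elim (fun a => (hlt _ a χ hp.2).le) fun a => hmax (i, j) ⟨hij, a⟩⟩, fun a => a.1⟩,
    h.nu_congr h2 g2 fun i j hij => ⟨fun a => ⟨a, hmax (i, j) ⟨hij, a⟩⟩, fun a => a.1⟩]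
  filter_upwards [e1, e2, e3] with x ⟨c1, a1, b1, f1⟩ ⟨c2, a2, b2, f2⟩ ⟨c3, a3, b3, f3⟩
  have := (h.lw g2').sfinite_nu x
  have := (h.lw h1).sfinite_nu x
  have := (h.lw (ordConnected_singleton (a := χ))).sfinite_nu x
  refine ⟨c1 * c3 * c2⁻¹, mul_ne_zero (mul_ne_zero a1 a3) (ENNReal.inv_ne_zero.2 b2),
    ENNReal.mul_ne_top (ENNReal.mul_ne_top b1 b3) (ENNReal.inv_ne_top.2 a2), ?_⟩
  rw [f1, f2, f3, Measure.mconv_smul_left, Measure.mconv_smul_right, Measure.mconv_assoc, smul_smul,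
    smul_smul, mul_assoc _ c2⁻¹, ENNReal.inv_mul_cancel a2 b2, mul_one]

/-- The defects preserve the middle measure up to a scalar. -/
theorem HasLW.ae_prj (h : S.HasLW) (hP : S.HasPS) (β : ℝ) :
    ∃ (o : S.Leafwise univ) (o' : S.Leafwise {β}), ∀ᵐ x ∂μ, ∀ᵐ y ∂o.om x,
      Loop.Prj (o'.nu x) (S.w.dD β (S.n x y)) := by
  refine ⟨h.lw ordConnected_univ, h.lw ordConnected_singleton, ?_⟩
  have e1 := h.prod hP (Or.inl rfl) _ ordConnected_univ (ordConnected_Iic (a := β))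
    (ordConnected_Ioi (a := β)) (by simp) (fun s hs t ht => by simpa using hs.trans_lt ht) rfl
  have e2 := h.prod hP (Or.inr rfl) _ (ordConnected_Iic (a := β)) (ordConnected_singleton (a := β))
    (ordConnected_Iio (a := β)) (by rw [union_comm, Iio_union_right])
    (fun s hs t ht => by rw [show s = β from hs]; simpa using ht) rfl
  have e3 := h.prod hP (Or.inr rfl) _ ordConnected_univ (ordConnected_Ici (a := β))
    (ordConnected_Iio (a := β)) (by simp) (fun s hs t ht => by simpa using ht.trans_le hs) rfl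
  have e4 := h.prod hP (Or.inl rfl) _ (ordConnected_Ici (a := β)) (ordConnected_singleton (a := β))
    (ordConnected_Ioi (a := β)) (by rw [union_comm, Ioi_union_left])
    (fun s hs t ht => by rw [show s = β from hs]; simpa using ht) rfl
  filter_upwards [e1, e2, e3, e4, (h.lw (ordConnected_singleton (a := β))).lw.conull,
    (h.lw (ordConnected_Iio (a := β))).lw.conull, (h.lw (ordConnected_Ioi (a := β))).lw.conull]
    with x ⟨c1, a1, b1, f1⟩ ⟨c2, a2, b2, f2⟩ ⟨c3, _, _, f3⟩ ⟨c4, _, _, f4⟩ x0 x1 x2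
  have := (h.lw _).finite_nu x0
  have := (h.lw _).finite_nu x1
  have := (h.lw _).finite_nu x2
  have := (h.lw (ordConnected_Iio (a := β))).sfinite_nu x
  have := (h.lw (ordConnected_Ioi (a := β))).sfinite_nu x
  rw [f2, Measure.mconv_smul_left, smul_smul] at f1
  rw [f4, Measure.mconv_smul_left, smul_smul] at f3
  exact ae_of_ae_map (S.measurable_n_right x).aemeasurable (Loop.ae_prj_of_mconv
    ((h.lw _).nu_ne_zero x0) (mul_ne_zero a1 a2) (ENNReal.mul_ne_top b1 b2) f1 f3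
    ((h.lw _).ae_nil x0) ((h.lw _).ae_nil x1) ((h.lw _).ae_nil x2) (S.w.measurableSet_Nil _)
    (S.w.measurableSet_Nil _) (S.w.polyM_dq β).measurable (S.w.polyM_dr β).measurable
    (S.w.polyM_ds β).measurable (fun s q r => Wt.dec_sqr)
    (fun q r hq hr => (Matrix.isUnit_iff_isUnit_det _).2
      (Wt.Nil.mul ordConnected_univ hq.univ hr.univ).ds.isUnit_det) fun s q r => Wt.dec_srq)

end Pre

end Pool.Agent.P.MP_d483fb_an.Z

end

end

section

/-!
The stabiliser of the middle leafwise measure: group structure, equivariance, and the action on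
the leaves of its elements that fix the origin of the fibre.
-/

open scoped Matrix Matrix.Norms.Operator InnerProductSpace RealInnerProductSpace Topology ENNReal
open MeasureTheory ProbabilityTheory NormedSpace Filter Set

noncomputable section

namespace Pool.Agent.P.MP_d483fb_an.Z

theorem Wt.Tri.tendsto_lev {ι : Type} [Fintype ι] [DecidableEq ι] {w : Wt ι} {T : Matrix ι ι ℝ}
    (h : w.Tri T) : Tendsto (fun s : ℝ => w.dil (-s) 0 * T * w.dil (- -s) (-0)) atTop
      (𝓝 (w.lev T)) := by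
  refine tendsto_pi_nhds.2 fun i => tendsto_pi_nhds.2 fun j => ?_
  simp only [Wt.dil_conj_apply, Wt.lev_apply, zero_mul, add_zero]
  split_ifs with h1
  · simp [h1]
  by_cases h0 : T i j = 0
  · simp [h0]
  have h2 : 0 < w.wa i - w.wa j := sub_pos.2 (lt_of_le_of_ne (h i j h0) (Ne.symm h1))
  have h3 := (Real.tendsto_exp_atBot.comp
    (tendsto_neg_atTop_atBot.atBot_mul_const h2)).mul_const (T i j)
  rwa [zero_mul] at h3

theorem Loop.Prj.conj {A : Type*} [NormedRing A] [MeasurableSpace A] [BorelSpace A]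
    {m : Measure A} {h l l' : A} (hp : Loop.Prj m h) (e : l' * l = 1) (c : ℝ≥0∞) :
    Loop.Prj (c • m.map fun s => l * s * l') (l * h * l') := by
  obtain ⟨d, d0, dt, hd⟩ := hp
  refine ⟨d, d0, dt, ?_⟩
  have : ((fun s => s * (l * h * l')) ∘ fun s => l * s * l') =
      (fun s => l * s * l') ∘ fun s => s * h := by
    ext s
    simp only [Function.comp_apply, mul_assoc]
    rw [← mul_assoc l' l, e, one_mul]
  rw [Measure.map_smul, Measure.map_map (by fun_prop) (by fun_prop), this,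
    ← Measure.map_map (by fun_prop) (by fun_prop), hd, Measure.map_smul, smul_comm]

namespace GeoPre

variable {G : Type} [Group G] [TopologicalSpace G] [IsTopologicalGroup G] {n k : ℕ}
  {D : Std G n k} {B : Type} [TopologicalSpace B] [MeasurableSpace B] [MulAction G B] {X : Type}
  [MetricSpace X] [MeasurableSpace X] [MulAction G X] {μ : Measure X} {κ : Type} [Fintype κ]
  [DecidableEq κ] {S : GeoPre D B X μ κ} {x y : X} {β : ℝ}
  {a b h V : Matrix (Fin n ⊕ κ) (Fin n ⊕ κ) ℝ}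

section Basic

omit [IsTopologicalGroup G]

theorem l_mem (h : S.R x y) : S.toPre.l x y ∈ S.Gen :=
  S.Gen_cl _ (Pre.isUnit_l h) (mem_closure_of_tendsto (S.T_tri x y h).tendsto_lev
    (Eventually.of_forall fun _ =>
      S.Gen.mul_mem (S.Gen.mul_mem (S.dil_mem _ _) (S.T_mem x y h)) (S.dil_mem _ _)))

theorem n_mem (h : S.R x y) : S.toPre.n x y ∈ S.Gen :=
  S.Gen.mul_mem (S.T_mem x y h) (S.Gen_inv _ (l_mem h))

variable (S) in
/-- The column of the origin of the fibre is trivial. -/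
def Col (a : Matrix (Fin n ⊕ κ) (Fin n ⊕ κ) ℝ) : Prop :=
  ∀ i, a i (.inr S.e0) = (1 : Matrix (Fin n ⊕ κ) (Fin n ⊕ κ) ℝ) i (.inr S.e0)

theorem Col.mul_apply (hb : S.Col b) (a : Matrix (Fin n ⊕ κ) (Fin n ⊕ κ) ℝ) (i : Fin n ⊕ κ) :
    (a * b) i (.inr S.e0) = a i (.inr S.e0) := by
  conv_rhs => rw [← mul_one a]
  simp only [Matrix.mul_apply, hb _]

theorem wa_e0 : S.w.wa (.inr S.e0) = 0 := by rw [S.wa_eq, S.om_e0, inner_zero_left]

theorem col_of_lev (ha : a ∈ S.Gen) (hl : S.w.Lev a) : S.Col a := by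
  rintro (i | m)
  · rw [Matrix.one_apply_ne (by simp)]
    exact congrFun (congrFun (S.Gen_blk a ha).1 i) S.e0
  by_cases hm : m = S.e0
  · rw [hm, S.Gen_e0 a ha, Matrix.one_apply_eq]
  · rw [Matrix.one_apply_ne (by simpa using hm)]
    by_contra h0
    exact (S.wa_pos m hm).ne' ((hl _ _ h0).trans wa_e0)

theorem col_exp (hV : ∀ i, V i (.inr S.e0) = 0) : S.Col (exp V) := by
  set e : Matrix (Fin n ⊕ κ) (Fin n ⊕ κ) ℝ := Matrix.single (Sum.inr S.e0) (Sum.inr S.e0) 1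
    with he
  have h0 : ∀ (M : Matrix (Fin n ⊕ κ) (Fin n ⊕ κ) ℝ) i j,
      (M * e) i j = if j = Sum.inr S.e0 then M i (Sum.inr S.e0) else 0 := by
    intro M i j
    rw [he, Matrix.mul_apply, Finset.sum_eq_single (Sum.inr S.e0)]
    · simp [Matrix.single, eq_comm]
    · intro c _ hc
      simp [Matrix.single, Ne.symm hc]
    · simp
  have h1 : V * e = 0 := by
    ext i j
    simp [h0, hV]
  intro i
  have h3 : exp V * e = e := exp_mul_eq_self (A := Matrix (Fin n ⊕ κ) (Fin n ⊕ κ) ℝ) h1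
  have h2 := h0 (exp V) i (Sum.inr S.e0)
  rw [h3, if_pos rfl] at h2
  rw [← h2, he]
  simp [Matrix.single, Matrix.one_apply, eq_comm]

theorem wa_inl (i j : Fin n) :
    S.w.wa (.inl i) - S.w.wa (.inl j) = ⟪D.lam i - D.lam j, S.Ha⟫ := by
  rw [S.wa_eq, S.wa_eq, S.om_inl, S.om_inl, inner_sub_left]

variable (S β) in
/-- The unipotent elements of the structure group with slope `β`. -/
def Gam : Set (Matrix (Fin n ⊕ κ) (Fin n ⊕ κ) ℝ) := {T | T ∈ S.Gen ∧ S.w.Nil {β} T}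

variable (S) in
theorem dilClosed : S.w.DilClosed {T | T ∈ S.Gen ∧ S.w.Nil univ T} :=
  Wt.DilClosed.of_submonoid S.Gen S.Gen_inv S.Gen_cl S.dil_mem

theorem isClosed_Gam : IsClosed (S.Gam β) := by
  have : S.Gam β = {T | T ∈ S.Gen ∧ S.w.Nil univ T} ∩ {T | S.w.Nil {β} T} :=
    Set.ext fun T => ⟨fun h => ⟨⟨h.1, h.2.univ⟩, h.2⟩, fun h => ⟨h.1.1, h.2⟩⟩
  rw [this]
  exact S.dilClosed.closed.inter (S.w.isClosed_Nil _)

/-- The right projective stabiliser of the leafwise measure. -/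
def HH (o : S.toPre.Leafwise {β}) (x : X) : Set (Matrix (Fin n ⊕ κ) (Fin n ⊕ κ) ℝ) :=
  {h | h ∈ S.Gam β ∧ Loop.Prj (o.nu x) h}

variable {o : S.toPre.Leafwise {β}}

theorem isGrp_HH (hx : x ∈ o.X1) : Loop.IsGrp (HH o x) where
  closed := by
    have := o.finite_nu hx
    exact Loop.isClosed_prj (o.nu_ne_zero hx) isClosed_Gam (h := fun v => v) (h' := fun v => v⁻¹)
      continuousOn_id (S.w.continuousOn_inv_Nil.mono fun _ h => h.2.univ) fun v hv => hv.2.mul_inv
  one := ⟨⟨S.Gen.one_mem, Wt.Nil.one⟩, Loop.Prj.one _⟩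
  mul a ha b hb := ⟨⟨S.Gen.mul_mem ha.1.1 hb.1.1, ha.1.2.mul ordConnected_singleton hb.1.2⟩,
    ha.2.mul hb.2⟩
  inv a ha := ⟨a⁻¹, ⟨⟨S.Gen_inv a ha.1.1, ha.1.2.inv ordConnected_singleton⟩,
    ha.2.inv ha.1.2.mul_inv⟩, ha.1.2.mul_inv, ha.1.2.inv_mul⟩

theorem HH_equiv (hx : x ∈ o.X1) (hh : h ∈ HH o x) :
    S.L (1, 0) x * h * (S.L (1, 0) x)⁻¹ ∈ HH o (S.f (1, 0) x) := by
  have h0 := o.sub1 hx
  have hu := Pre.isUnit_L h0 (1, 0)
  refine ⟨⟨S.Gen.mul_mem (S.Gen.mul_mem (S.L_mem _ x h0) hh.1.1) (S.Gen_inv _ (S.L_mem _ x h0)),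
    hh.1.2.conj_inv (S.L_lev _ x h0) hu⟩, ?_⟩
  obtain ⟨c, -, -, hc⟩ := o.lw.equiv x hx
  have : o.nu (S.f (1, 0) x) = c • (o.nu x).map fun s => S.L (1, 0) x * s * (S.L (1, 0) x)⁻¹ := by
    change (o.om (S.toPre.aE x)).map _ = _
    rw [hc, Measure.map_smul, Pre.Leafwise.nu, Measure.map_map (S.toPre.measurable_n_right _)
      S.toPre.aE.measurable, Measure.map_map (by fun_prop) (S.toPre.measurable_n_right _)]
    exact congrArg _ (Measure.map_congr ((o.lw.carried x hx).mono fun y hy =>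
      Pre.n_f hy.2.1 (1, 0)))
  rw [this]
  exact hh.2.conj (Matrix.nonsing_inv_mul _ hu) c

theorem lie_entry (hV : ∀ t : ℝ, exp (t • V) ∈ S.Gam β) {i j : Fin n ⊕ κ} (h : V i j ≠ 0) :
    S.w.wa j < S.w.wa i ∧ S.w.slope i j = β := by
  by_contra hn
  refine h (entry_eq_zero fun t => ?_)
  by_contra h1
  exact hn ((hV t).2 i j (by rwa [Matrix.sub_apply, sub_ne_zero]))

theorem lie_blk21 (hV : ∀ t : ℝ, exp (t • V) ∈ S.Gam β) : V.toBlocks₂₁ = 0 := by
  ext m i
  refine entry_eq_zero (i := Sum.inr m) (j := Sum.inl i) fun t => ?_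
  rw [Matrix.one_apply_ne (by simp)]
  exact congrFun (congrFun (S.Gen_blk _ (hV t).1).2.1 m) i

theorem lie_blk12 (hV : ∀ t : ℝ, exp (t • V) ∈ S.Gam β) (i : Fin n) (m : κ) :
    V (.inl i) (.inr m) = 0 := by
  refine entry_eq_zero fun t => ?_
  rw [Matrix.one_apply_ne (by simp)]
  exact congrFun (congrFun (S.Gen_blk _ (hV t).1).1 i) m

theorem blk_exp_smul (hV : ∀ t : ℝ, exp (t • V) ∈ S.Gam β) (t : ℝ) :
    (exp (t • V)).toBlocks₁₁ = exp (t • V.toBlocks₁₁) :=
  Wt.blk_exp (b := t • V) (by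
    change t • V.toBlocks₂₁ = 0
    rw [lie_blk21 hV, smul_zero])

end Basic

theorem blk_mem_g (hV : ∀ t : ℝ, exp (t • V) ∈ S.Gam β) : V.toBlocks₁₁ ∈ D.g :=
  D.mem_g_iff.2 fun t => by
    rw [← blk_exp_smul hV]
    exact (S.Gen_blk _ (hV t).1).2.2

theorem blk_mem_np (hV : ∀ t : ℝ, exp (t • V) ∈ S.Gam β) : V.toBlocks₁₁ ∈ D.np S.Ha :=
  ⟨blk_mem_g hV, fun i j hij => by
    rw [mem_ofPred_eq, ← wa_inl (S := S), sub_pos]
    exact (lie_entry hV (i := Sum.inl i) (j := Sum.inl j) hij).1⟩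

theorem blk_n (h : S.R x y) : (S.toPre.n x y).toBlocks₁₁ = (S.T x y).toBlocks₁₁ := by
  obtain ⟨Y, hY, he, -⟩ := S.P0 x y h
  have h1 := D.one_sub_exp_mem (Std.pos_half S.Ha) (neg_mem hY.2)
  have h2 : (S.toPre.l x y).toBlocks₁₁ = 1 := by
    ext i j
    change S.w.lev (S.T x y) (.inl i) (.inl j) = _
    rw [Wt.lev_apply]
    split_ifs with h3
    · by_contra h4
      have h5 := h1 i j (by
        rw [← he, Matrix.sub_apply, sub_ne_zero]
        exact Ne.symm h4)
      rw [mem_ofPred_eq, ← wa_inl (S := S), h3, sub_self] at h5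
      exact lt_irrefl _ h5
    · exact (Matrix.one_apply_ne fun e => h3 (by rw [e])).symm
  rw [← Pre.n_mul_l h, Wt.blk_mul (S.Gen_blk _ (l_mem h)).2.1, h2, mul_one]

theorem map_eq_of_mem [StandardBorelSpace X] [MeasurableConstSMul G X]
    {o : S.toPre.Leafwise {β}} (hx : x ∈ o.X1) (hh : h ∈ HH o x) (hc : S.Col h) {Y : Mat n}
    (hY : Y ∈ D.np S.Ha) (hb : h.toBlocks₁₁ = exp Y) :
    ∃ c : ℝ≥0∞, c ≠ 0 ∧ c ≠ ∞ ∧ (o.om x).map (fun y => D.ex (-Y) • y) = c • o.om x := by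
  obtain ⟨c, c0, ct, he⟩ := hh.2
  refine ⟨c, c0, ct, ?_⟩
  have mn := S.toPre.measurable_n_right x
  set C : Set X := {y | y ∈ o.X1 ∧ S.toPre.RJ {β} x y} with hC
  have mC : MeasurableSet C :=
    o.lw.meas.inter (Pre.measurableSet_RJ_comp _ measurable_const measurable_id)
  have inj : InjOn (S.toPre.n x) C := fun y hy z hz e => Pre.eq_of_n_eq hy.2.1 hz.2.1 e
  have mI : ∀ E, MeasurableSet E → MeasurableSet (S.toPre.n x '' (E ∩ C)) := fun E hE =>
    (hE.inter mC).image_of_measurable_injOn mn (inj.mono inter_subset_right)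
  have hI : ∀ E y, y ∈ C → (S.toPre.n x y ∈ S.toPre.n x '' (E ∩ C) ↔ y ∈ E) := fun E y hy =>
    ⟨fun ⟨z, hz, e⟩ => inj hz.2 hy e ▸ hz.1, fun h => ⟨y, ⟨h, hy⟩, rfl⟩⟩
  have h1 : ∀ᵐ s ∂o.nu x, s ∈ S.toPre.n x '' (univ ∩ C) :=
    (ae_map_iff mn.aemeasurable (mI _ MeasurableSet.univ)).2
      ((o.lw.carried x hx).mono fun y hy => (hI _ y hy).2 trivial)
  have h2 : ∀ᵐ s ∂(o.nu x).map (· * h), s ∈ S.toPre.n x '' (univ ∩ C) := by
    rw [he]
    exact Measure.ae_smul_measure h1 c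
  have h3 : ∀ᵐ y ∂o.om x, D.ex (-Y) • y ∈ C ∧
      S.toPre.n x (D.ex (-Y) • y) = S.toPre.n x y * h := by
    filter_upwards [o.lw.carried x hx, ae_of_ae_map mn.aemeasurable
      (ae_of_ae_map (by fun_prop) h2)] with y hy ⟨z, hz, e⟩
    have : z = D.ex (-Y) • y := S.P1 x y z hy.2.1 hz.2.2.1 (fun m => by
      rw [← Pre.n_mul_l hy.2.1, ← Pre.n_mul_l hz.2.2.1,
        (col_of_lev (l_mem hy.2.1) (S.toPre.l_lev _ _)).mul_apply,
        (col_of_lev (l_mem hz.2.2.1) (S.toPre.l_lev _ _)).mul_apply, e, hc.mul_apply]) Y hY (by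
      rw [← blk_n hy.2.1, ← blk_n hz.2.2.1, e, Wt.blk_mul (S.Gen_blk _ hh.1.1).2.1, hb])
    rw [← this]
    exact ⟨hz.2, e⟩
  ext E hE
  have h4 := congrArg (fun m : Measure _ => m (S.toPre.n x '' (E ∩ C))) he
  simp only [Measure.smul_apply, smul_eq_mul] at h4 ⊢
  rw [Measure.map_apply (by fun_prop) (mI E hE), Pre.Leafwise.nu,
    Measure.map_apply mn ((measurable_mul_const h) (mI E hE)), Measure.map_apply mn (mI E hE)] at h4
  rw [Measure.map_apply (measurable_const_smul _) hE]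
  convert h4 using 1
  · refine measure_congr (eventuallyEq_set.2 (h3.mono fun y hy => ?_))
    simp only [mem_preimage]
    rw [← hy.2, hI E _ hy.1]
  · congr 1
    exact measure_congr (eventuallyEq_set.2 ((o.lw.carried x hx).mono fun y hy =>
      (hI E y hy).symm))

end GeoPre

end Pool.Agent.P.MP_d483fb_an.Z

end

end

section

/-!
A measurable bijection which preserves almost every leafwise measure up to a scalar preserves the
ambient measure (mass transport).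
-/

open MeasureTheory ProbabilityTheory Set Filter Function
open scoped ENNReal

namespace Pool.Agent.P.MP_d483fb_an.Z.Loop

variable {X : Type*} [MeasurableSpace X] {μ : Measure X} {a : X ≃ᵐ X} {R : X → X → Prop}
  {N : X → X → ℝ} {om : Kernel X X} {X1 : Set X}

/-- The mass that `om x` gives to the unit ball around `y`. -/
noncomputable def cc (om : Kernel X X) (N : X → X → ℝ) (x y : X) : ℝ≥0∞ := om x {w | N y w < 1}

/-- The normalised indicator of the unit ball. -/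
noncomputable def ph (om : Kernel X X) (N : X → X → ℝ) (x y : X) : ℝ≥0∞ :=
  {w | N y w < 1}.indicator (fun _ => 1) x * (cc om N x y)⁻¹

theorem measurable_cc [IsSFiniteKernel om] (hN : Measurable (uncurry N)) :
    Measurable (uncurry (cc om N)) := by
  have h : MeasurableSet {p : (X × X) × X | N p.1.2 p.2 < 1} :=
    measurableSet_lt (hN.comp (measurable_fst.snd.prodMk measurable_snd)) measurable_const
  exact Kernel.measurable_kernel_prodMk_left (κ := om.prodMkRight X) h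

theorem measurable_ph [IsSFiniteKernel om] (hN : Measurable (uncurry N)) :
    Measurable (uncurry (ph om N)) := by
  refine Measurable.mul ?_ (measurable_cc hN).inv
  have h : MeasurableSet {p : X × X | N p.2 p.1 < 1} :=
    measurableSet_lt (hN.comp measurable_swap) measurable_const
  exact measurable_const.indicator h

theorem measurableSet_ball (hN : Measurable (uncurry N)) (y : X) (r : ℝ) :
    MeasurableSet {w | N y w < r} :=
  measurableSet_lt (hN.comp (measurable_const.prodMk measurable_id)) measurable_const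

theorem cc_mul (h : IsLeafwise μ a R N om X1) {x y : X} (hx : x ∈ X1) (hy : y ∈ X1) (hR : R y x) :
    cc om N y x * cc om N x y = 1 := by
  have h1 := (h.prop y hy x hx hR).2.2
  have h2 := h.norm y hy
  rw [h1, Measure.smul_apply, smul_eq_mul] at h2
  exact h2

theorem lintegral_eq_ph (h : IsLeafwise μ a R N om X1) (hN : Measurable (uncurry N))
    {G : X → ℝ≥0∞} (hG : Measurable G) :
    ∫⁻ y, G y ∂μ = ∫⁻ x, ∫⁻ y, G y * ph om N x y ∂om x ∂μ := by
  have := h.sfin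
  rw [h.mtp (fun x y => G y * ph om N x y) ((hG.comp measurable_snd).mul (measurable_ph hN))]
  refine lintegral_congr_ae ?_
  filter_upwards [h.conull] with y hy
  have : ∀ᵐ x ∂om y, G y * ph om N x y * om x {w | N y w < 1} =
      G y * {w | N y w < 1}.indicator (fun _ => 1) x := by
    filter_upwards [h.carried y hy] with x hx
    have h1 := cc_mul h hx.1 hy hx.2
    have h0 : cc om N x y ≠ 0 := fun h0 => by simp [h0] at h1
    have ht : cc om N x y ≠ ∞ := fun h0 => by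
      rw [h0, cc, ENNReal.mul_top (h.prop y hy x hx.1 hx.2).1] at h1
      exact ENNReal.top_ne_one h1
    rw [ph, mul_assoc, mul_assoc]
    change G y * (_ * ((cc om N x y)⁻¹ * cc om N x y)) = _
    rw [ENNReal.inv_mul_cancel h0 ht, mul_one]
  rw [lintegral_congr_ae this, lintegral_const_mul _
    (measurable_const.indicator (measurableSet_ball hN y 1)),
    lintegral_indicator (measurableSet_ball hN y 1), setLIntegral_one, h.norm y hy, mul_one]

theorem ae_of_ae_leaf (h : IsLeafwise μ a R N om X1) (hN : Measurable (uncurry N))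
    {B : Set X} (hB : MeasurableSet B) (h0 : ∀ᵐ x ∂μ, ∀ᵐ y ∂om x, y ∈ B) : ∀ᵐ y ∂μ, y ∈ B := by
  have h1 := lintegral_eq_ph h hN (G := Bᶜ.indicator fun _ => 1)
    (measurable_const.indicator hB.compl)
  rw [lintegral_indicator hB.compl, setLIntegral_one] at h1
  have h2 : ∀ᵐ x ∂μ, ∫⁻ y, Bᶜ.indicator (fun _ => (1 : ℝ≥0∞)) y * ph om N x y ∂om x = 0 := by
    filter_upwards [h0] with x hx
    refine lintegral_eq_zero_of_ae_eq_zero ?_
    filter_upwards [hx] with y hy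
    simp [hy]
  rw [lintegral_congr_ae h2, lintegral_zero] at h1
  exact h1

theorem lintegral_comp_eq (h : IsLeafwise μ a R N om X1) (hN : Measurable (uncurry N))
    (u : X ≃ᵐ X) {k : X → ℝ≥0∞} (hk : Measurable k)
    (hu : ∀ᵐ x ∂μ, k x ≠ 0 ∧ (om x).map u = k x • om x) (hk' : ∀ x, k x = om x {y | N x (u y) < 1})
    {G : X → ℝ≥0∞} (hG : Measurable G) : ∫⁻ y, G (u y) ∂μ = ∫⁻ y, G y * k y ∂μ := by
  have := h.sfin
  have hΨ : Measurable (uncurry fun x y => k x * (G y * ph om N x (u.symm y))) :=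
    (hk.comp measurable_fst).mul ((hG.comp measurable_snd).mul
      ((measurable_ph hN).comp (measurable_fst.prodMk (u.symm.measurable.comp measurable_snd))))
  have hgood : ∀ᵐ y ∂μ, y ∈ {y | cc om N y (u.symm y) ≠ 0 ∧ cc om N y (u.symm y) ≠ ∞} := by
    have hm : Measurable fun y => cc om N y (u.symm y) :=
      (measurable_cc hN).comp (measurable_id.prodMk u.symm.measurable)
    refine ae_of_ae_leaf h hN ((hm (measurableSet_singleton 0).compl).inter
      (hm (measurableSet_singleton ∞).compl)) ?_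
    filter_upwards [h.conull, hu] with x hx hux
    have h1 : ∀ᵐ y ∂(om x).map u, u.symm y ∈ X1 ∧ R x (u.symm y) := by
      rw [u.measurableEmbedding.ae_map_iff]
      simpa using h.carried x hx
    rw [hux.2] at h1
    filter_upwards [h.carried x hx, (Measure.ae_ennreal_smul_measure_iff hux.1).1 h1] with y hy hy'
    obtain ⟨h0, ht, he⟩ := h.prop x hx y hy.1 hy.2
    obtain ⟨h0', ht', -⟩ := h.prop x hx _ hy'.1 hy'.2
    rw [he, Measure.smul_apply, smul_eq_mul] at h0' ht'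
    exact ⟨right_ne_zero_of_mul h0', fun h2 => ht' (by
      rw [show om y {w | N (u.symm y) w < 1} = ∞ from h2]; exact ENNReal.mul_top h0)⟩
  calc ∫⁻ y, G (u y) ∂μ = ∫⁻ x, ∫⁻ y, G (u y) * ph om N x y ∂om x ∂μ :=
        lintegral_eq_ph h hN (hG.comp u.measurable)
    _ = ∫⁻ x, ∫⁻ y, k x * (G y * ph om N x (u.symm y)) ∂om x ∂μ := by
        refine lintegral_congr_ae ?_
        filter_upwards [hu] with x hx
        have h1 := lintegral_map_equiv (μ := om x) (fun y => G y * ph om N x (u.symm y)) u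
        simp only [MeasurableEquiv.symm_apply_apply] at h1
        rw [← h1, hx.2, lintegral_smul_measure, smul_eq_mul, lintegral_const_mul]
        exact hG.mul ((measurable_ph hN).comp (measurable_const.prodMk u.symm.measurable))
    _ = ∫⁻ y, ∫⁻ x, k x * (G y * ph om N x (u.symm y)) * om x {w | N y w < 1} ∂om y ∂μ :=
        h.mtp _ hΨ
    _ = ∫⁻ y, G y * k y ∂μ := by
        refine lintegral_congr_ae ?_
        filter_upwards [h.conull, hu, hgood] with y hy huy hg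
        have : ∀ᵐ x ∂om y, k x * (G y * ph om N x (u.symm y)) * om x {w | N y w < 1} =
            G y * k y * (cc om N y (u.symm y))⁻¹ *
              {w | N (u.symm y) w < 1}.indicator (fun _ => 1) x := by
          filter_upwards [h.carried y hy] with x hx
          obtain ⟨h0, ht, he⟩ := h.prop y hy x hx.1 hx.2
          have h1 := cc_mul h hx.1 hy hx.2
          change cc om N y x ≠ 0 at h0
          change cc om N y x ≠ ∞ at ht
          change om y = cc om N y x • om x at he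
          have hkx : k x = k y := by
            have h2 := congrArg (fun m : Measure X => m {w | N x w < 1}) huy.2
            simp only [Measure.smul_apply, smul_eq_mul] at h2
            rw [Measure.map_apply u.measurable (measurableSet_ball hN x 1)] at h2
            conv_lhs at h2 => rw [he, Measure.smul_apply, smul_eq_mul]
            rw [hk' x]
            change _ = k y * cc om N y x at h2
            rw [mul_comm (k y)] at h2
            exact (ENNReal.mul_right_inj h0 ht).1 h2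
          have h3 : cc om N y (u.symm y) = cc om N y x * cc om N x (u.symm y) := by
            conv_lhs => rw [cc, he, Measure.smul_apply, smul_eq_mul]
            rfl
          have h4 : om x {w | N y w < 1} = (cc om N y x)⁻¹ :=
            ENNReal.eq_inv_of_mul_eq_one_left (by rw [mul_comm]; exact h1)
          rw [hkx, h3, h4, ph, ENNReal.mul_inv (Or.inl h0) (Or.inl ht)]
          ring
        rw [lintegral_congr_ae this, lintegral_const_mul _
          (measurable_const.indicator (measurableSet_ball hN _ 1)),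
          lintegral_indicator (measurableSet_ball hN _ 1), setLIntegral_one, mul_assoc]
        change _ * ((cc om N y (u.symm y))⁻¹ * cc om N y (u.symm y)) = _
        rw [ENNReal.inv_mul_cancel hg.1 hg.2, mul_one]

theorem two_le_add_inv {k : ℝ≥0∞} (h0 : k ≠ 0) (ht : k ≠ ∞) :
    2 ≤ k + k⁻¹ ∧ (2 = k + k⁻¹ → k = 1) := by
  lift k to NNReal using ht
  have hk : (0 : ℝ) < k := by
    have : k ≠ 0 := by simpa using h0
    positivity
  have h0' : k ≠ 0 := by simpa using h0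
  rw [← ENNReal.coe_inv h0', ← ENNReal.coe_add, ← ENNReal.coe_two, ENNReal.coe_le_coe,
    ENNReal.coe_inj, ← ENNReal.coe_one, ENNReal.coe_inj, ← NNReal.coe_le_coe, ← NNReal.coe_inj,
    ← NNReal.coe_inj]
  push_cast
  have h1 : (k : ℝ) + (k : ℝ)⁻¹ - 2 = ((k : ℝ) - 1) ^ 2 / k := by field_simp; ring
  refine ⟨by have : 0 ≤ ((k : ℝ) - 1) ^ 2 / k := by positivity
             linarith, fun h2 => ?_⟩
  have h3 : ((k : ℝ) - 1) ^ 2 / k = 0 := by linarith
  rcases div_eq_zero_iff.1 h3 with h4 | h4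
  · linarith [pow_eq_zero_iff (two_ne_zero) |>.1 h4]
  · exact absurd h4 hk.ne'

theorem map_eq_self [IsProbabilityMeasure μ] (h : IsLeafwise μ a R N om X1)
    (hN : Measurable (uncurry N)) (u : X ≃ᵐ X)
    (hu : ∀ᵐ x ∂μ, ∃ c : ℝ≥0∞, c ≠ 0 ∧ c ≠ ∞ ∧ (om x).map u = c • om x) : μ.map u = μ := by
  have := h.sfin
  have hm : ∀ v : X ≃ᵐ X, Measurable fun x => om x {y | N x (v y) < 1} := fun v => by
    have h : MeasurableSet {p : X × X | N p.1 (v p.2) < 1} := measurableSet_lt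
      (hN.comp (measurable_fst.prodMk (v.measurable.comp measurable_snd))) measurable_const
    exact Kernel.measurable_kernel_prodMk_left h
  have hval : ∀ (v : X ≃ᵐ X) x c, x ∈ X1 → (om x).map v = c • om x →
      om x {y | N x (v y) < 1} = c := fun v x c hx he => by
    have h2 := congrArg (fun m : Measure X => m {w | N x w < 1}) he
    simp only [Measure.smul_apply, smul_eq_mul] at h2
    rw [Measure.map_apply v.measurable (measurableSet_ball hN x 1), h.norm x hx, mul_one] at h2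
    exact h2
  set k : X → ℝ≥0∞ := fun x => om x {y | N x (u y) < 1} with hk
  set k' : X → ℝ≥0∞ := fun x => om x {y | N x (u.symm y) < 1} with hk'
  have h1 : ∀ᵐ x ∂μ, (k x ≠ 0 ∧ (om x).map u = k x • om x) ∧ k x ≠ ∞ ∧
      (k' x ≠ 0 ∧ (om x).map u.symm = k' x • om x) ∧ k' x = (k x)⁻¹ := by
    filter_upwards [h.conull, hu] with x hx ⟨c, h0, ht, he⟩
    have e1 : k x = c := hval u x c hx he
    have he' : (om x).map u.symm = c⁻¹ • om x := by
      have := congrArg (Measure.map u.symm) he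
      rw [MeasurableEquiv.map_symm_map, Measure.map_smul] at this
      conv_rhs => rw [this]
      rw [smul_smul, ENNReal.inv_mul_cancel h0 ht, one_smul]
    have e2 : k' x = c⁻¹ := hval u.symm x _ hx he'
    rw [e1, e2]
    exact ⟨⟨h0, he⟩, ht, ⟨ENNReal.inv_ne_zero.2 ht, he'⟩, rfl⟩
  have i1 := fun G hG => lintegral_comp_eq h hN u (hm u) (h1.mono fun x hx => hx.1) (fun _ => rfl)
    (G := G) hG
  have i2 := lintegral_comp_eq h hN u.symm (hm u.symm) (h1.mono fun x hx => hx.2.2.1)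
    (fun _ => rfl) (G := fun _ => 1) measurable_const
  have i3 := i1 (fun _ => 1) measurable_const
  simp only [lintegral_const, measure_univ, one_mul, mul_one] at i2 i3
  have h2 : (fun _ => (2 : ℝ≥0∞)) =ᵐ[μ] fun x => k x + k' x := by
    refine ae_eq_of_ae_le_of_lintegral_le ?_ (by simp) ((hm u).add (hm u.symm)).aemeasurable ?_
    · filter_upwards [h1] with x hx
      rw [hx.2.2.2]
      exact (two_le_add_inv hx.1.1 hx.2.1).1
    · rw [lintegral_add_left (hm u), ← i2, ← i3]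
      simp [one_add_one_eq_two]
  have h3 : ∀ᵐ x ∂μ, k x = 1 := by
    filter_upwards [h1, h2] with x hx hx2
    rw [hx.2.2.2] at hx2
    exact (two_le_add_inv hx.1.1 hx.2.1).2 hx2
  refine Measure.ext_of_lintegral _ fun G hG => ?_
  rw [lintegral_map hG u.measurable, i1 G hG]
  refine lintegral_congr_ae ?_
  filter_upwards [h3] with x hx
  change G x * k x = G x
  rw [hx, mul_one]

end Pool.Agent.P.MP_d483fb_an.Z.Loop


end

section

/-!
The stabiliser of the middle leafwise measure projects onto the coarse root group.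
-/

open scoped Matrix Matrix.Norms.Operator InnerProductSpace RealInnerProductSpace Topology ENNReal
open MeasureTheory ProbabilityTheory NormedSpace Filter Set

noncomputable section

namespace Pool.Agent.P.MP_d483fb_an.Z

theorem PolyF.linear {ι : Type} [Fintype ι] [DecidableEq ι] (ξ : Matrix ι ι ℝ →ₗ[ℝ] ℝ) :
    PolyF ξ := by
  have : (ξ : Matrix ι ι ℝ → ℝ) = fun g => ∑ i, ∑ j, g i j * ξ (Matrix.single i j 1) := by
    ext g
    conv_lhs => rw [Matrix.matrix_eq_sum_single g]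
    simp only [map_sum]
    refine Finset.sum_congr rfl fun i _ => Finset.sum_congr rfl fun j _ => ?_
    rw [← smul_eq_mul, ← map_smul, Matrix.smul_single, smul_eq_mul, mul_one]
  rw [this]
  exact PolyF.sum fun i _ => PolyF.sum fun j _ => (PolyF.coord i j).mul (PolyF.const _)

/-- The upper left block as a linear map. -/
def blkL (ι κ : Type) : Matrix (ι ⊕ κ) (ι ⊕ κ) ℝ →ₗ[ℝ] Matrix ι ι ℝ where
  toFun a := a.toBlocks₁₁
  map_add' _ _ := rfl
  map_smul' _ _ := rfl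

theorem exists_ker {E F F' : Type} [AddCommGroup E] [Module ℝ E] [FiniteDimensional ℝ E]
    [AddCommGroup F] [Module ℝ F] [AddCommGroup F'] [Module ℝ F'] [FiniteDimensional ℝ F']
    (L : Submodule ℝ E) (f : E →ₗ[ℝ] F) (g : E →ₗ[ℝ] F')
    (h : Module.finrank ℝ F' < Module.finrank ℝ (L.map f)) : ∃ V ∈ L, g V = 0 ∧ f V ≠ 0 := by
  by_contra hn
  push Not at hn
  have h1 := (f.domRestrict L).finrank_range_add_finrank_ker
  have h2 := (g.domRestrict L).finrank_range_add_finrank_ker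
  have h3 : LinearMap.ker (g.domRestrict L) ≤ LinearMap.ker (f.domRestrict L) :=
    fun V hV => hn V V.2 hV
  have h4 := Submodule.finrank_mono h3
  have h5 := Submodule.finrank_le (LinearMap.range (g.domRestrict L))
  rw [LinearMap.range_domRestrict] at h1
  omega

namespace GeoPre

variable {G : Type} [Group G] [TopologicalSpace G] [IsTopologicalGroup G] {n k : ℕ}
  {D : Std G n k} {B : Type} [TopologicalSpace B] [MeasurableSpace B] [MulAction G B] {X : Type}
  [MetricSpace X] [MeasurableSpace X] [MulAction G X] {μ : Measure X} {κ : Type} [Fintype κ]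
  [DecidableEq κ] {S : GeoPre D B X μ κ} {x y : X} {β : ℝ} {b al ga : Euc k}
  {V : Matrix (Fin n ⊕ κ) (Fin n ⊕ κ) ℝ}

variable (S) in
/-- `β` is the slope of the weight `b`. -/
structure Sl (b : Euc k) (β : ℝ) : Prop where
  cls : ∀ i j, S.w.wa j < S.w.wa i → S.w.slope i j = β → S.om i - S.om j ∈ Std.cls b
  eq : β * ⟪b, S.Ha⟫ = ⟪b, S.Ph⟫

omit [IsTopologicalGroup G] in
theorem exists_entry (hb : b ∈ D.roots) (h0 : 0 < ⟪b, S.Ha⟫) : ∃ i j, S.w.wa j < S.w.wa i ∧
    S.om i - S.om j = b ∧ S.w.slope i j * ⟪b, S.Ha⟫ = ⟪b, S.Ph⟫ := by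
  classical
  obtain ⟨p, -, hp⟩ := Finset.mem_image.1 (Finset.mem_filter.1 hb).1
  have h1 : S.w.wa (.inl p.2) < S.w.wa (.inl p.1) := by rwa [← sub_pos, wa_inl, hp]
  refine ⟨.inl p.1, .inl p.2, h1, by rw [S.om_inl, S.om_inl, hp], ?_⟩
  have h2 := Wt.slope_mul h1
  rwa [wa_inl, S.wb_eq, S.wb_eq, S.om_inl, S.om_inl, ← inner_sub_left, hp] at h2

omit [IsTopologicalGroup G] in
theorem exists_sl (hb : b ∈ D.roots) (h0 : 0 < ⟪b, S.Ha⟫) : ∃ β, S.Sl b β := by
  obtain ⟨i, j, h1, h2, h3⟩ := exists_entry hb h0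
  exact ⟨_, fun i' j' h4 h5 => h2 ▸ S.g2 i' j' i j h4 h1 h5, h3⟩

theorem blk_mem_u (hβ : S.Sl b β) (hV : ∀ t : ℝ, exp (t • V) ∈ S.Gam β) :
    V.toBlocks₁₁ ∈ D.u b :=
  ⟨blk_mem_g hV, fun i j hij => by
    have h := lie_entry hV (i := Sum.inl i) (j := Sum.inl j) hij
    have := hβ.cls _ _ h.1 h.2
    rwa [S.om_inl, S.om_inl] at this⟩

theorem vanish {o : S.toPre.Leafwise univ} {o' : S.toPre.Leafwise {β}} (hx : x ∈ o.X1)
    (hx' : x ∈ o'.X1)
    (hp : ∀ᵐ y ∂o.om x, Loop.Prj (o'.nu x) (S.w.dD β (S.toPre.n x y)))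
    (hh : ∀ F : MvPolynomial (Fin n × Fin n) ℝ,
      (∃ Y ∈ D.np S.Ha, MvPolynomial.eval (fun p => exp Y p.1 p.2) F ≠ 0) →
        o.om x {y | MvPolynomial.eval (fun p => (S.T x y).toBlocks₁₁ p.1 p.2) F = 0} = 0)
    {φ : Mat n → ℝ} (hφ : PolyF φ)
    (h0 : ∀ V ∈ (isGrp_HH hx').lie, φ (exp V.toBlocks₁₁) = 0) {Y : Mat n}
    (hY : Y ∈ D.np S.Ha) : φ (S.w.inl.dD β (exp Y)) = 0 := by
  by_contra hn
  obtain ⟨F, hF⟩ := hφ.comp (S.w.inl.polyM_dD β)
  have h1 := measure_eq_zero_iff_ae_notMem.1 (hh F ⟨Y, hY, fun h => hn ((hF _).trans h)⟩)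
  have h2 : ∀ᶠ h in 𝓝 (1 : Matrix (Fin n ⊕ κ) (Fin n ⊕ κ) ℝ), h ∈ HH o' x →
      ∃ V ∈ (isGrp_HH hx').lie, h = exp V :=
    eventually_nhdsWithin_iff.1 (isGrp_HH hx').eventually_exp
  have h3 := (S.w.polyM_dD β).continuous.tendsto 1
  rw [Wt.dD_one] at h3
  obtain ⟨r, hr, h4⟩ := S.w.exists_N_small (h3.eventually h2)
  refine o.lw.pos x hx r hr (measure_eq_zero_iff_ae_notMem.2 ?_)
  filter_upwards [h1, hp, o.lw.carried x hx] with y h5 h6 h7 h8
  have hR := h7.2.1
  have hm : S.toPre.n x y ∈ {T | T ∈ S.Gen ∧ S.w.Nil univ T} := ⟨n_mem hR, Pre.n_nil hR⟩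
  obtain ⟨V, hV, he⟩ := h4 _ hm.2 h8 ⟨⟨(S.dilClosed.dD_mem hm.2 hm).1, hm.2.dD⟩, h6⟩
  have h9 := blk_exp_smul (fun t => (hV t).1) 1
  rw [one_smul, one_smul, ← he,
    Wt.blk_dD S.dilClosed (fun T hT => (S.Gen_blk T hT.1).2.1) hm.2 hm, blk_n hR] at h9
  exact h5 ((hF _).symm.trans ((congrArg φ h9).trans (h0 V hV)))

theorem onto {o' : S.toPre.Leafwise {β}} (hx' : x ∈ o'.X1) (hβ : S.Sl b β) (hb : b ∈ D.roots)
    (hu : ∀ γ ∈ D.roots, γ ∈ Std.cls b → γ = b ∨ γ = (2 : ℝ) • b)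
    (hal : al ∈ D.roots) (hsum : al + ga = b) (hnp : ∀ c : ℝ, al ≠ c • b)
    (hbr : ∀ E ∈ D.gr al, E ≠ 0 → ∀ Z ∈ D.gr b, ∃ W ∈ D.gr ga, ⁅E, W⁆ = Z)
    (h1 : 0 < ⟪al, S.Ha⟫) (h2 : 0 < ⟪ga, S.Ha⟫)
    (hv : ∀ φ : Mat n → ℝ, PolyF φ → (∀ V ∈ (isGrp_HH hx').lie, φ (exp V.toBlocks₁₁) = 0) →
      ∀ Y ∈ D.np S.Ha, φ (S.w.inl.dD β (exp Y)) = 0) :
    (isGrp_HH hx').lie.map (blkL (Fin n) κ) = D.u b := by
  have hb0 := D.root_ne_zero hb
  have hle : (isGrp_HH hx').lie.map (blkL (Fin n) κ) ≤ D.u b := by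
    rintro _ ⟨V, hV, rfl⟩
    exact blk_mem_u hβ fun t => (hV t).1
  refine D.eq_u_of_onto hb hu ?_ hle fun Z hZ => ?_
  · rintro _ ⟨V, hV, rfl⟩ _ ⟨W, hW, rfl⟩
    refine ⟨_, (isGrp_HH hx').br_mem hV hW, ?_⟩
    rw [map_sub, Ring.lie_def]
    exact congrArg₂ _ (Wt.blk_mul (lie_blk21 fun t => (hW t).1))
      (Wt.blk_mul (lie_blk21 fun t => (hV t).1))
  by_contra hn
  obtain ⟨ξ, hξ, hq⟩ := Submodule.exists_dual_map_eq_bot_of_notMem
    (p := ((isGrp_HH hx').lie.map (blkL (Fin n) κ)).map (D.pr b)) (x := Z) hn inferInstance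
  have hw : D.u b ≤ D.wtS {γ | ∃ c : ℝ, 1 ≤ c ∧ γ = c • b} := by
    rw [D.u_eq_sup hb0 hu]
    exact sup_le
      (fun Y hY => D.wtS_mono (by rintro _ rfl; exact ⟨1, le_rfl, (one_smul _ _).symm⟩) hY.2)
      fun Y hY => D.wtS_mono (by rintro _ rfl; exact ⟨2, one_le_two, rfl⟩) hY.2
  have hv' := hv _ (PolyF.linear (ξ ∘ₗ D.pr b)) fun V hV => by
    rw [LinearMap.comp_apply,
      Loop.pr_exp_base D hb0 (Y := V.toBlocks₁₁) (hw (hle ⟨V, hV, rfl⟩)),
      ← Submodule.mem_bot ℝ, ← hq]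
    exact ⟨_, ⟨_, ⟨V, hV, rfl⟩, rfl⟩, rfl⟩
  have key : ∀ {a c : Euc k} (t : Loop.Two D S.w.inl a c β), t.Ha = S.Ha → a + c = b →
      ∀ E ∈ D.gr a, ∀ W ∈ D.gr c, ξ (E * W - W * E) = 0 := by
    intro a c t ht hs E hE W hW
    have hE' : E ∈ D.np S.Ha := D.gr_le_grS (ht ▸ t.h1) hE
    have hW' : W ∈ D.np S.Ha := D.gr_le_grS (ht ▸ t.h2) hW
    obtain ⟨h3, h4⟩ := D.ex_mul_ex (Std.pos_half S.Ha) hE' hW'
    have h5 := congrArg D.ρ h4
    rw [map_mul, D.ρ_ex _ hE.1, D.ρ_ex _ hW.1, D.ρ_ex _ h3.1] at h5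
    have h6 := hv' _ h3
    rwa [← h5, LinearMap.comp_apply, ← hs, t.pr_dD hE.2 hW.2] at h6
  obtain ⟨E, hE, hE0⟩ := D.exists_ne_zero hal
  obtain ⟨W, hW, rfl⟩ := hbr E hE hE0 Z hZ
  have ha : ∀ i, S.w.inl.wa i = ⟪D.lam i, S.Ha⟫ := fun i => by rw [← S.om_inl]; exact S.wa_eq _
  have hb' : ∀ i, S.w.inl.wb i = ⟪D.lam i, S.Ph⟫ := fun i => by rw [← S.om_inl]; exact S.wb_eq _
  rw [Ring.lie_def] at hξ
  rcases lt_trichotomy (⟪al, S.Ph⟫ * ⟪ga, S.Ha⟫) (⟪ga, S.Ph⟫ * ⟪al, S.Ha⟫) with h | h | h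
  · exact hξ (key ⟨S.Ha, S.Ph, ha, hb', h1, h2, hsum ▸ hβ.eq, h⟩ rfl hsum E hE W hW)
  · obtain ⟨i, j, h3, h4, h5⟩ := exists_entry hal h1
    have h6 := hβ.eq
    rw [← hsum, inner_add_left, inner_add_left] at h6
    have h7 : (S.w.slope i j - β) * (⟪al, S.Ha⟫ * (⟪al, S.Ha⟫ + ⟪ga, S.Ha⟫)) = 0 := by
      linear_combination (⟪al, S.Ha⟫ + ⟪ga, S.Ha⟫) * h5 - ⟪al, S.Ha⟫ * h6 + h
    obtain ⟨c, -, hc⟩ := hβ.cls i j h3
      (sub_eq_zero.1 ((mul_eq_zero.1 h7).resolve_right (by positivity)))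
    exact hnp c (h4 ▸ hc)
  · have h3 := key ⟨S.Ha, S.Ph, ha, hb', h2, h1, by rw [add_comm, hsum]; exact hβ.eq, h⟩ rfl
      ((add_comm _ _).trans hsum) W hW E hE
    rw [← neg_sub, map_neg, neg_eq_zero] at h3
    exact hξ h3

omit [IsTopologicalGroup G] in
open Classical in
theorem exists_col {o' : S.toPre.Leafwise {β}} (hx' : x ∈ o'.X1) (hβ : S.Sl b β)
    (h : (isGrp_HH hx').lie.map (blkL (Fin n) κ) = D.u b)
    (hcnt : (S.k1.filter fun m => S.om (.inr m) ∈ Std.cls b).card < Module.finrank ℝ (D.u b)) :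
    ∃ V ∈ (isGrp_HH hx').lie, (∀ i, V i (.inr S.e0) = 0) ∧ V.toBlocks₁₁ ≠ 0 := by
  let g : Matrix (Fin n ⊕ κ) (Fin n ⊕ κ) ℝ →ₗ[ℝ]
      ((S.k1.filter fun m => S.om (.inr m) ∈ Std.cls b) → ℝ) :=
    { toFun := fun V m => V (.inr m.1) (.inr S.e0)
      map_add' := fun _ _ => rfl
      map_smul' := fun _ _ => rfl }
  obtain ⟨V, hV, h1, h2⟩ := exists_ker (isGrp_HH hx').lie (blkL (Fin n) κ) g (by
    rwa [h, Module.finrank_fintype_fun_eq_card, Fintype.card_coe])
  refine ⟨V, hV, ?_, h2⟩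
  rintro (i | m)
  · exact lie_blk12 (fun t => (hV t).1) i _
  by_contra hn
  have h3 := lie_entry (fun t => (hV t).1) hn
  have h4 := hβ.cls _ _ h3.1 h3.2
  rw [S.om_e0, sub_zero] at h4
  by_cases hm : m ∈ S.k1
  · exact hn (congrFun h1 ⟨m, Finset.mem_filter.2 ⟨hm, h4⟩⟩)
  · exact hn (S.Gen_lie V (fun t => ⟨(hV t).1.1, (hV t).1.2.univ⟩) m hm)

end GeoPre

end Pool.Agent.P.MP_d483fb_an.Z

end

end

section

/-!
The loop argument: invariance under a one parameter subgroup of a coarse root group.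
-/

open scoped Matrix Matrix.Norms.Operator InnerProductSpace RealInnerProductSpace Topology ENNReal
open MeasureTheory ProbabilityTheory NormedSpace Filter Set

noncomputable section

namespace Pool.Agent.P.MP_d483fb_an.Z

namespace GeoPre

variable {G : Type} [Group G] [TopologicalSpace G] [IsTopologicalGroup G] {n k : ℕ}
  {D : Std G n k} {B : Type} [TopologicalSpace B] [MeasurableSpace B] [MulAction G B] {X : Type}
  [MetricSpace X] [MeasurableSpace X] [MulAction G X] {μ : Measure X} {κ : Type} [Fintype κ]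
  [DecidableEq κ] {S : GeoPre D B X μ κ} {x : X} {β : ℝ} {o : S.toPre.Leafwise {β}}

/-- The upper left blocks of the generators of the stabiliser which fix the origin of the fibre. -/
def KK (o : S.toPre.Leafwise {β}) (x : X) : Set (Fin n × Fin n → ℝ) :=
  {Y | ∃ V : Matrix (Fin n ⊕ κ) (Fin n ⊕ κ) ℝ, (∀ t : ℝ, exp (t • V) ∈ HH o x) ∧
    (∀ i, V i (.inr S.e0) = 0) ∧ (fun p => V (.inl p.1) (.inl p.2)) = Y}

omit [IsTopologicalGroup G] in
theorem exists_KK (hx : x ∈ o.X1) :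
    ∃ K : Submodule ℝ (Fin n × Fin n → ℝ), KK o x = K := by
  let g : Matrix (Fin n ⊕ κ) (Fin n ⊕ κ) ℝ →ₗ[ℝ] (Fin n ⊕ κ → ℝ) :=
    { toFun := fun V i => V i (.inr S.e0)
      map_add' := fun _ _ => rfl
      map_smul' := fun _ _ => rfl }
  let f : Matrix (Fin n ⊕ κ) (Fin n ⊕ κ) ℝ →ₗ[ℝ] (Fin n × Fin n → ℝ) :=
    { toFun := fun V p => V (.inl p.1) (.inl p.2)
      map_add' := fun _ _ => rfl
      map_smul' := fun _ _ => rfl }
  refine ⟨((isGrp_HH hx).lie ⊓ LinearMap.ker g).map f, Set.ext fun Y => ⟨?_, ?_⟩⟩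
  · rintro ⟨V, h1, h2, h3⟩
    exact ⟨V, ⟨h1, funext h2⟩, h3⟩
  · rintro ⟨V, ⟨h1, h2⟩, h3⟩
    exact ⟨V, h1, congrFun h2, h3⟩

theorem KK_equiv (hx : x ∈ o.X1) {Y : Fin n × Fin n → ℝ} (hY : Y ∈ KK o x) :
    (fun p => Real.exp (S.w.wa (.inl p.1) - S.w.wa (.inl p.2)) * Y p) ∈
      KK o (S.f (1, 0) x) := by
  obtain ⟨V, h1, h2, rfl⟩ := hY
  have h0 := o.sub1 hx
  have h0' := S.inv0 (1, 0) x h0
  have hu := Pre.isUnit_L h0 (1, 0)
  refine ⟨S.L (1, 0) x * V * (S.L (1, 0) x)⁻¹, fun t => ?_, fun i => ?_, funext fun p => ?_⟩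
  · rw [← smul_mul_assoc, ← mul_smul_comm,
      Matrix.exp_conj _ _ ((Matrix.isUnit_iff_isUnit_det _).2 hu)]
    exact HH_equiv hx (h1 t)
  · rw [Pre.L_inv h0, (col_of_lev (S.L_mem _ _ h0') (S.L_lev _ _ h0')).mul_apply]
    simp [Matrix.mul_apply, h2]
  · change (S.L (1, 0) x * V * (S.L (1, 0) x)⁻¹).toBlocks₁₁ p.1 p.2 = _ * V.toBlocks₁₁ p.1 p.2
    rw [Pre.L_inv h0, Wt.blk_mul (S.Gen_blk _ (S.L_mem _ _ h0')).2.1,
      Wt.blk_mul (lie_blk21 fun t => (h1 t).1), S.L_blk _ _ h0, S.L_blk _ _ h0', D.ρ_a, D.ρ_a,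
      Matrix.mul_diagonal, Matrix.diagonal_mul, wa_inl, inner_sub_left, sub_eq_add_neg,
      Real.exp_add]
    simp only [Prod.fst_neg, Prod.snd_neg, one_smul, zero_smul, add_zero, neg_zero, neg_smul,
      inner_neg_right]
    ring

omit [IsTopologicalGroup G] in
theorem measurable_tint_nu (p : Loop.Idx (Matrix (Fin n ⊕ κ) (Fin n ⊕ κ) ℝ) × ℕ)
    (h : Matrix (Fin n ⊕ κ) (Fin n ⊕ κ) ℝ) : Measurable fun x => Loop.tint (o.nu x) p h := by
  have := o.lw.sfin
  have h1 : Measurable fun s => Loop.tst p (s * h) :=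
    (Loop.continuous_tst p).measurable.comp (measurable_mul_const h)
  have h2 : (fun x => Loop.tint (o.nu x) p h) =
      fun x => ∫⁻ y, Loop.tst p (S.toPre.n x y * h) ∂o.om x :=
    funext fun x => lintegral_map h1 (S.toPre.measurable_n_right x)
  rw [h2]
  exact Measurable.lintegral_kernel_prod_right
    (f := fun x y => Loop.tst p (S.toPre.n x y * h)) (h1.comp S.toPre.measurable_n)

omit [IsTopologicalGroup G] in
theorem measurableSet_KK {Q : Set (Fin n × Fin n → ℝ)} (hQ : IsClosed Q) :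
    MeasurableSet {x | x ∈ o.X1 ∧ ∃ Y ∈ KK o x, Y ∈ Q} := by
  have hc : ∀ t : ℝ, Continuous fun V : Matrix (Fin n ⊕ κ) (Fin n ⊕ κ) ℝ => exp (t • V) :=
    fun t => exp_cont.comp (continuous_const_smul t)
  have hi : ∀ (t : ℝ) (V : Matrix (Fin n ⊕ κ) (Fin n ⊕ κ) ℝ), exp (t • V) * exp (-t • V) = 1 :=
    fun t V => by rw [neg_smul]; exact exp_mul_neg _
  let W : Set (Matrix (Fin n ⊕ κ) (Fin n ⊕ κ) ℝ) := {V | (∀ t : ℝ, exp (t • V) ∈ S.Gam β) ∧
    (∀ i, V i (.inr S.e0) = 0) ∧ (fun p => V (.inl p.1) (.inl p.2)) ∈ Q}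
  have hW : IsClosed W := by
    have e : W = (⋂ t : ℝ, (fun V => exp (t • V)) ⁻¹' S.Gam β) ∩
        ((⋂ i, {V | V i (.inr S.e0) = 0}) ∩
          (fun V (p : Fin n × Fin n) => V (.inl p.1) (.inl p.2)) ⁻¹' Q) := by
      ext V
      simp only [W, mem_ofPred_eq, mem_inter_iff, mem_iInter, mem_preimage]
    rw [e]
    exact (isClosed_iInter fun t => isClosed_Gam.preimage (hc t)).inter
      ((isClosed_iInter fun i => isClosed_eq (continuous_id.matrix_elem _ _) continuous_const).inter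
        (hQ.preimage (continuous_pi fun p => continuous_id.matrix_elem _ _)))
  have key : ∀ R : ℕ, MeasurableSet {x | x ∈ o.X1 ∧ ∃ V ∈ Metric.closedBall 0 (R : ℝ) ∩ W,
      ∀ i : ℚ × _ × _,
        (Loop.tint (o.nu x) i.2.1 (exp ((i.1 : ℝ) • V))).toReal *
          (Loop.tint (o.nu x) i.2.2 1).toReal -
        (Loop.tint (o.nu x) i.2.2 (exp ((i.1 : ℝ) • V))).toReal *
          (Loop.tint (o.nu x) i.2.1 1).toReal = 0} := fun R => by
    refine Loop.measurableSet_exists_compact ((isCompact_closedBall _ _).inter_right hW) o.lw.meas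
      _ (fun i V _ => ?_) fun i x hx => ?_
    · exact ((measurable_tint_nu _ _).ennreal_toReal.mul
        (measurable_tint_nu _ _).ennreal_toReal).sub
        ((measurable_tint_nu _ _).ennreal_toReal.mul (measurable_tint_nu _ _).ennreal_toReal)
    · have := o.finite_nu hx
      have h1 := fun p => Loop.continuousOn_tint (o.nu x) p
        (Q := Metric.closedBall 0 (R : ℝ) ∩ W) (hc i.1).continuousOn (hc (-i.1)).continuousOn
        fun V _ => hi _ V
      exact ((h1 _).mul continuousOn_const).sub ((h1 _).mul continuousOn_const)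
  convert MeasurableSet.iUnion key using 1
  ext x
  simp only [mem_ofPred_eq, mem_iUnion]
  constructor
  · rintro ⟨hx, _, ⟨V, h1, h2, rfl⟩, h3⟩
    have := o.finite_nu hx
    obtain ⟨R, hR⟩ := exists_nat_ge ‖V‖
    exact ⟨R, hx, V, ⟨mem_closedBall_zero_iff.2 hR, fun t => (h1 t).1, h2, h3⟩, fun i =>
      (Loop.prj_iff (o.nu_ne_zero hx) (hi _ V)).1 (h1 _).2 _ _⟩
  · rintro ⟨R, hx, V, ⟨-, h1, h2, h3⟩, h4⟩
    have := o.finite_nu hx
    refine ⟨hx, _, ⟨V, fun t => ?_, h2, rfl⟩, h3⟩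
    have h5 : Continuous fun t : ℝ => exp (t • V) :=
      exp_cont.comp (continuous_id.smul continuous_const)
    exact Rat.denseRange_cast.induction_on t ((isGrp_HH hx).closed.preimage h5) fun q =>
      ⟨h1 q, (Loop.prj_iff (o.nu_ne_zero hx) (hi _ V)).2 fun p p' => h4 (q, p, p')⟩

open Classical in
theorem loop [StandardBorelSpace X] [MeasurableConstSMul G X] [IsProbabilityMeasure μ]
    (S : GeoPre D B X μ κ) (hLW : S.toPre.HasLW) (hPS : S.toPre.HasPS)
    (hHP : S.HasHP) {b al ga : Euc k} (hb : b ∈ D.roots)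
    (hu : ∀ γ ∈ D.roots, γ ∈ Std.cls b → γ = b ∨ γ = (2 : ℝ) • b)
    (hal : al ∈ D.roots) (hsum : al + ga = b) (hnp : ∀ c : ℝ, al ≠ c • b)
    (hbr : ∀ E ∈ D.gr al, E ≠ 0 → ∀ Z ∈ D.gr b, ∃ W ∈ D.gr ga, ⁅E, W⁆ = Z)
    (h1 : 0 < ⟪al, S.Ha⟫) (h2 : 0 < ⟪ga, S.Ha⟫)
    (hcnt : (S.k1.filter fun m => S.om (.inr m) ∈ Std.cls b).card < Module.finrank ℝ (D.u b)) :
    ∃ c : ℝ, 0 < c ∧ ∃ Y ∈ D.gr (c • b), Y ≠ 0 ∧
      ∀ t : ℝ, MeasurePreserving (fun x : X => D.ex (t • Y) • x) μ μ := by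
  obtain ⟨β, hβ⟩ := exists_sl (S := S) hb (by rw [← hsum, inner_add_left]; positivity)
  obtain ⟨o, o', hp⟩ := hLW.ae_prj hPS β
  have hx1 := o'.lw.conull
  obtain ⟨Y, hY0, ⟨d, hd⟩, hY⟩ := Loop.exists_const_vec S.erg
    (fun p : Fin n × Fin n => S.w.wa (.inl p.1) - S.w.wa (.inl p.2)) (KK o')
    (hx1.mono fun x hx => by
      obtain ⟨K, hK⟩ := exists_KK hx
      rw [hK]
      exact K.closed_of_finiteDimensional)
    (hx1.mono fun x hx c _ Y hY => by
      obtain ⟨K, hK⟩ := exists_KK hx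
      rw [hK] at hY ⊢
      exact K.smul_mem c hY)
    (by
      filter_upwards [hx1, o.lw.conull, hp, hHP o] with x hx hx' h3 h4
      obtain ⟨V, h5, h6, h7⟩ := exists_col hx hβ (onto hx hβ hb hu hal hsum hnp hbr h1 h2
        fun φ hφ h0 Y hY => vanish hx' hx h3 h4 hφ h0 hY) hcnt
      exact ⟨_, ⟨V, h5, h6, rfl⟩, fun h => h7 (Matrix.ext fun i j => congrFun h (i, j))⟩)
    (hx1.mono fun x hx Y hY => KK_equiv hx hY)
    fun Q hQ => (measurableSet_KK hQ.isClosed).nullMeasurableSet.congr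
      (eventuallyEq_set.2 (hx1.mono fun x hx => and_iff_right hx))
  obtain ⟨x0, V0, h3, -, h4⟩ := hY.exists
  have h5 := blk_mem_u hβ fun t => (h3 t).1
  obtain ⟨p0, hp0⟩ := Function.ne_iff.1 hY0
  obtain ⟨c, hc, h6⟩ := h5.2 p0.1 p0.2 (by rwa [← h4] at hp0)
  refine ⟨c, hc, V0.toBlocks₁₁, ⟨h5.1, fun i j hij => ?_⟩,
    fun h => hp0 (h4 ▸ congrFun (congrFun h p0.1) p0.2), fun t => ?_⟩
  · have h7 := S.g3 _ _ _ _ ((hd (i, j) (h4 ▸ hij)).trans (hd p0 hp0).symm)
    simp only [S.om_inl] at h7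
    exact h7.trans h6
  refine ⟨measurable_const_smul _, Loop.map_eq_self o'.lw S.toPre.measurable_N
    (MeasurableEquiv.smul (D.ex (t • V0.toBlocks₁₁))) ?_⟩
  filter_upwards [hx1, hY] with x hx ⟨V, h7, h8, h9⟩
  have h10 : V.toBlocks₁₁ = V0.toBlocks₁₁ :=
    Matrix.ext fun i j => congrFun (h9.trans h4.symm) (i, j)
  have h11 := map_eq_of_mem hx (h7 (-t)) (col_exp fun i => by simp [h8])
    ((D.np S.Ha).smul_mem (-t) (blk_mem_np fun t => (h7 t).1))
    (blk_exp_smul (fun t => (h7 t).1) (-t))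
  rwa [neg_smul, neg_neg, h10] at h11

end GeoPre

end Pool.Agent.P.MP_d483fb_an.Z

end

end

section

/-!
From leaf structures to invariance under one parameter subgroups of the coarse root groups.
-/

open scoped Matrix Matrix.Norms.Operator InnerProductSpace RealInnerProductSpace Topology ENNReal
open MeasureTheory ProbabilityTheory NormedSpace Filter Set

noncomputable section

namespace Pool.Agent.P.MP_d483fb_an.Z

open Classical in
theorem Loop.card_le_of_fiber {κ ι E : Type} [Fintype κ] [Fintype ι] (s : Finset κ) (f : κ → E)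
    (w : ι → E) (C : Set E)
    (h : ∀ γ, Nat.card {j // j ∈ s ∧ f j = γ} ≤ Nat.card {i // w i = γ}) :
    (s.filter fun j => f j ∈ C).card ≤ Nat.card {i // w i ∈ C} := by
  simp only [Nat.card_eq_fintype_card, Fintype.card_subtype] at h ⊢
  rw [Finset.card_eq_sum_card_image f]
  refine (Finset.sum_le_sum fun γ _ => (Finset.card_le_card fun j hj => ?_).trans (h γ)).trans ?_
  · simp only [Finset.mem_filter, Finset.mem_univ, true_and] at hj ⊢
    exact ⟨hj.1.1, hj.2⟩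
  · refine (Finset.sum_card_fiberwise_eq_card_filter _ _ w).trans_le
      (Finset.card_le_card fun i hi => ?_)
    simp only [Finset.mem_filter, Finset.mem_univ, true_and, Finset.mem_image] at hi ⊢
    obtain ⟨j, hj, e⟩ := hi
    exact e ▸ hj.2

theorem Loop.exists_pos {k : ℕ} {al ga b : Euc k} (hb : b ≠ 0) (hs : al + ga = b)
    (h1 : ∀ c : ℝ, al ≠ c • b) (h2 : ∀ c : ℝ, ga ≠ c • b) :
    ∃ s : Euc k, 0 < ⟪al, s⟫ ∧ 0 < ⟪ga, s⟫ := by
  have ha : 0 < ‖al‖ := norm_pos_iff.2 (by simpa using h1 0)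
  have hg : 0 < ‖ga‖ := norm_pos_iff.2 (by simpa using h2 0)
  have h3 : ⟪al, -ga⟫ < ‖al‖ * ‖-ga‖ := inner_lt_norm_mul_iff_real.2 fun h => by
    rw [norm_neg] at h
    have h4 : (‖al‖ - ‖ga‖) • al = ‖al‖ • b := by
      rw [sub_smul, h, ← hs, smul_add, smul_neg, sub_neg_eq_add]
    by_cases h5 : ‖al‖ - ‖ga‖ = 0
    · rw [h5, zero_smul] at h4
      exact smul_ne_zero ha.ne' hb h4.symm
    · exact h1 ((‖al‖ - ‖ga‖)⁻¹ * ‖al‖) (by rw [mul_smul, ← h4, inv_smul_smul₀ h5])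
  rw [inner_neg_right, norm_neg] at h3
  refine ⟨‖ga‖ • al + ‖al‖ • ga, ?_, ?_⟩
  · rw [inner_add_right, real_inner_smul_right, real_inner_smul_right,
      real_inner_self_eq_norm_mul_norm]
    nlinarith
  · rw [inner_add_right, real_inner_smul_right, real_inner_smul_right,
      real_inner_self_eq_norm_mul_norm, real_inner_comm]
    nlinarith

variable {G : Type} [Group G] [TopologicalSpace G] [IsTopologicalGroup G] [ConnectedSpace G]
  [T2Space G] [LocallyCompactSpace G] [SecondCountableTopology G] [MeasurableSpace G]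
  [BorelSpace G] {n k : ℕ}

variable {B : Type} [MetricSpace B] [ProperSpace B] [MeasurableSpace B] [BorelSpace B]
  [MulAction G B] [ContinuousSMul G B] {X : Type} [MetricSpace X] [ProperSpace X]
  [MeasurableSpace X] [BorelSpace X] [MulAction G X] [ContinuousSMul G X]

set_option linter.unusedSectionVars false in
theorem Std.thmD_of_hasGeo (D : Std G n k) {m : ℕ} {π : X → B} {m0 : Measure B}
    (hG : D.HasGeo m π m0)
    (hin : ∀ (ν : Measure X) [IsProbabilityMeasure ν] (κ : Type) [Fintype κ] [DecidableEq κ]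
      (S : GeoLS D B X ν κ), S.toPre.HasLW ∧ S.toPre.HasPS ∧ S.toGeoPre.HasHP) :
    D.ThmD m π m0 := by
  intro ν hν h1 h2 h3
  obtain ⟨w, hw⟩ := hG ν hν h1 h2 h3
  refine ⟨w, fun β hβ hc => ?_⟩
  obtain ⟨b, hb, hbβ, hu, -⟩ := D.exists_base hβ
  obtain ⟨al, hal, ga, -, hs, h4, h5, hbr⟩ := D.exists_sum hb
  have ho : ∀ v : Euc k, IsOpen {s : Euc k | 0 < ⟪v, s⟫} := fun v =>
    isOpen_lt continuous_const (by fun_prop)
  obtain ⟨κ, _, _, S, hS, hcnt⟩ := hw _ ((ho al).inter (ho ga))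
    (Loop.exists_pos (D.root_ne_zero hb) hs h4 h5)
  obtain ⟨h6, h7, h8⟩ := hin ν κ S
  have he := Std.cls_eq hbβ
  obtain ⟨c, hc0, Y, hY, hY0, hm⟩ := S.toGeoPre.loop h6 h7 h8 hb (he ▸ hu) hal hs h4 hbr hS.1 hS.2
    (by
      rw [Std.u, he]
      exact (Loop.card_le_of_fiber _ _ w _ hcnt).trans_lt hc)
  obtain ⟨d, hd, rfl⟩ := hbβ
  exact ⟨c * d, mul_pos hc0 hd, Y, by rwa [mul_smul], hY0, hm⟩

end Pool.Agent.P.MP_d483fb_an.Z

end

end
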