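import Pool.Agent.P.MP_d483fb_an.M.A20
import Pool.Agent.P.MP_d483fb_an.M.A38

section

/-!
Lebesgue measure in exponential coordinates is a two sided Haar measure of a unipotent group that
is stable under a contracting dilation.
-/

open scoped Matrix Matrix.Norms.Operator Topology ENNReal
open NormedSpace Filter Set MeasureTheory

set_option linter.unusedSectionVars false

noncomputable section

namespace Pool.Agent.P.MP_d483fb_an.Z.NE

section Abs

variable {V : Type} [NormedAddCommGroup V] [NormedSpace ℝ V] [FiniteDimensional ℝ V]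

theorem abs_det_fderiv (st : V → V → V) (hst : ContDiff ℝ 1 fun p : V × V => st p.1 p.2)
    (δ : ℝ → V →ₗ[ℝ] V) (hδ0 : ∀ t, LinearMap.det (δ t) ≠ 0)
    (hδ : ∀ t X Y, δ t (st X Y) = st (δ t X) (δ t Y))
    (hlim : ∀ X, Tendsto (fun t => δ t X) atBot (𝓝 0)) (h0 : ∀ X, st 0 X = X) (Y X : V) :
    (fderiv ℝ (st Y) X).det = 1 := by
  have hd : ∀ Y, Differentiable ℝ (st Y) := fun Y =>
    (hst.comp (contDiff_const.prodMk contDiff_id)).differentiable one_ne_zero
  set J : V × V → ℝ := fun p => (fderiv ℝ (st p.1) p.2).det with hJ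
  have hc : Continuous J := by
    refine ContinuousLinearMap.continuous_det.comp ?_
    refine (ContDiff.fderiv (n := 0) (m := 1) (f := fun p : V × V => st p.1) ?_ contDiff_snd
      (by norm_num)).continuous
    exact hst.comp (contDiff_fst.fst.prodMk contDiff_snd)
  have hinv : ∀ t, J (δ t Y, δ t X) = J (Y, X) := by
    intro t
    set L := LinearMap.toContinuousLinearMap (δ t) with hL
    have h1 : st (δ t Y) ∘ L = L ∘ st Y := funext fun Z => (hδ t Y Z).symm
    have h2 := (hd (δ t Y) (L X)).hasFDerivAt.comp X L.hasFDerivAt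
    have h3 := L.hasFDerivAt.comp X (hd Y X).hasFDerivAt
    rw [h1] at h2
    have h4 := congrArg ContinuousLinearMap.det (h2.unique h3)
    have hcomp : ∀ A B : V →L[ℝ] V, (A.comp B).det = A.det * B.det := fun A B =>
      LinearMap.det_comp (A : V →ₗ[ℝ] V) (B : V →ₗ[ℝ] V)
    rw [hcomp, hcomp, mul_comm] at h4
    exact mul_left_cancel₀ (hδ0 t) h4
  have h00 : J (0, 0) = 1 := by
    have : st 0 = id := funext h0
    simp only [hJ, this, fderiv_id, ContinuousLinearMap.det, ContinuousLinearMap.coe_id,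
      LinearMap.det_id]
  have h5 := (hc.tendsto (0, 0)).comp ((hlim Y).prodMk_nhds (hlim X))
  have h6 : (J ∘ fun t => (δ t Y, δ t X)) = fun _ => J (Y, X) := funext hinv
  rw [h6, h00] at h5
  exact tendsto_nhds_unique tendsto_const_nhds h5

variable [MeasurableSpace V] [BorelSpace V] (μ : Measure V) [μ.IsAddHaarMeasure]

theorem abs_measure_image (st : V → V → V) (hst : ContDiff ℝ 1 fun p : V × V => st p.1 p.2)
    (δ : ℝ → V →ₗ[ℝ] V) (hδ0 : ∀ t, LinearMap.det (δ t) ≠ 0)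
    (hδ : ∀ t X Y, δ t (st X Y) = st (δ t X) (δ t Y))
    (hlim : ∀ X, Tendsto (fun t => δ t X) atBot (𝓝 0)) (h0 : ∀ X, st 0 X = X)
    (hinj : ∀ Y, Function.Injective (st Y)) (Y : V) (s : Set V) (hs : MeasurableSet s) :
    μ (st Y '' s) = μ s := by
  have hd : Differentiable ℝ (st Y) :=
    (hst.comp (contDiff_const.prodMk contDiff_id)).differentiable one_ne_zero
  rw [← lintegral_abs_det_fderiv_eq_addHaar_image μ hs
    (fun X _ => (hd X).hasFDerivAt.hasFDerivWithinAt) (hinj Y).injOn]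
  simp [abs_det_fderiv st hst δ hδ0 hδ hlim h0]

theorem abs_neg : μ.IsNegInvariant := inferInstance

end Abs

variable {ι : Type} [Fintype ι] [DecidableEq ι] {w : ι → ℝ}

/-- `exp u` is a group of unipotent matrices that is stable under the dilations. -/
structure NilSub (w : ι → ℝ) (u : Submodule ℝ (Matrix ι ι ℝ)) : Prop where
  le : u ≤ Fil w 1
  dl_mem : ∀ t, ∀ X ∈ u, dl w t X ∈ u
  mul_mem : ∀ X ∈ u, ∀ Y ∈ u, nlog (exp X * exp Y) ∈ u

theorem exp_injOn : ∃ U ∈ 𝓝 (0 : Matrix ι ι ℝ), InjOn exp U := by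
  have h := hasStrictFDerivAt_exp_zero (𝕂 := ℝ) (𝔸 := Matrix ι ι ℝ)
  have h' : HasStrictFDerivAt (exp : Matrix ι ι ℝ → Matrix ι ι ℝ)
      (ContinuousLinearEquiv.refl ℝ (Matrix ι ι ℝ) : Matrix ι ι ℝ →L[ℝ] Matrix ι ι ℝ) 0 := h
  exact ⟨_, h'.eventually_left_inverse, fun X hX Y hY he => by
    have h1 : h'.localInverse _ _ _ (exp X) = X := hX
    have h2 : h'.localInverse _ _ _ (exp Y) = Y := hY
    rw [← h1, ← h2, he]⟩

/-- The logarithm of a unipotent element of a dilation stable set `S` lies in its tangent space. -/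
theorem nlog_mem_of_nhds {S : Set (Matrix ι ι ℝ)} {h : Submodule ℝ (Matrix ι ι ℝ)}
    (hS : ∀ t, ∀ g ∈ S, dl w t g ∈ S) (hh : ∀ t, ∀ X ∈ h, dl w t X ∈ h)
    (hn : 𝓝[S] 1 ≤ Filter.map exp (𝓝[h] 0)) {g : Matrix ι ι ℝ} (hg : g ∈ S)
    (hg1 : 1 - g ∈ Fil w 1) : nlog g ∈ h := by
  obtain ⟨U, hU, hinj⟩ := exp_injOn (ι := ι)
  have h1 : Tendsto (fun t => dl w t (nlog g)) atBot (𝓝 0) := tendsto_dl (nlog_mem hg1)
  have h2 : Tendsto (fun t => dl w t g) atBot (𝓝[S] 1) := by
    refine tendsto_nhdsWithin_iff.2 ⟨?_, Eventually.of_forall fun t => hS t g hg⟩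
    have h3 := (tendsto_dl hg1).const_sub 1
    simpa only [map_sub, map_one, sub_sub_cancel, sub_zero] using h3
  have h4 : exp '' (U ∩ h) ∈ Filter.map exp (𝓝[h] (0 : Matrix ι ι ℝ)) :=
    image_mem_map (inter_mem (mem_nhdsWithin_of_mem_nhds hU) self_mem_nhdsWithin)
  obtain ⟨t, ⟨Z, hZ, hZe⟩, ht⟩ := ((h2.eventually (hn h4)).and (h1.eventually hU)).exists
  have h5 : Z = dl w t (nlog g) := hinj hZ.1 ht (by rw [hZe, ← dl_exp, exp_nlog hg1])
  have h6 := hh (-t) Z hZ.2
  rwa [h5, ← dl_add, neg_add_cancel, dl_zero] at h6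

theorem nilSub_of_nhds {S : Submonoid (Matrix ι ι ℝ)} {h u : Submodule ℝ (Matrix ι ι ℝ)}
    (hS : ∀ t, ∀ g ∈ S, dl w t g ∈ S) (hh : ∀ t, ∀ X ∈ h, dl w t X ∈ h)
    (hn : 𝓝[S] (1 : Matrix ι ι ℝ) ≤ Filter.map exp (𝓝[h] 0)) (he : ∀ X ∈ h, exp X ∈ S) (hu : u = h ⊓ Fil w 1) :
    NilSub w u := by
  subst hu
  refine ⟨inf_le_right, fun t X hX => ⟨hh t X hX.1, dl_mem_Fil t hX.2⟩, fun X hX Y hY => ?_⟩
  have h1 := one_sub_mul_mem (one_sub_exp_mem hX.2) (one_sub_exp_mem hY.2)
  exact ⟨nlog_mem_of_nhds hS hh hn (S.mul_mem (he X hX.1) (he Y hY.1)) h1, nlog_mem h1⟩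

theorem nilSub_Fil : NilSub w (Fil w 1) :=
  ⟨le_rfl, fun t _ hX => dl_mem_Fil t hX, fun _ hX _ hY =>
    nlog_mem (one_sub_mul_mem (one_sub_exp_mem hX) (one_sub_exp_mem hY))⟩

namespace NilSub

variable {u : Submodule ℝ (Matrix ι ι ℝ)} (h : NilSub w u)

/-- The group law in exponential coordinates. -/
def star (X Y : u) : u := ⟨nlog (exp X.1 * exp Y.1), h.mul_mem _ X.2 _ Y.2⟩

theorem exp_star (X Y : u) : exp (h.star X Y).1 = exp X.1 * exp Y.1 :=
  exp_nlog (one_sub_mul_mem (one_sub_exp_mem (h.le X.2)) (one_sub_exp_mem (h.le Y.2)))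

include h in
theorem exp_inj {X Y : u} (he : exp X.1 = exp Y.1) : X = Y :=
  Subtype.ext (by rw [← nlog_exp (h.le X.2), he, nlog_exp (h.le Y.2)])

theorem exp_neg_mul (X : Matrix ι ι ℝ) : exp (-X) * exp X = 1 := by
  rw [← Matrix.exp_add_of_commute _ _ (Commute.refl X).neg_left, neg_add_cancel, exp_zero]

theorem exp_mul_neg (X : Matrix ι ι ℝ) : exp X * exp (-X) = 1 := by
  simpa using exp_neg_mul (-X)

theorem star_assoc (X Y Z : u) : h.star (h.star X Y) Z = h.star X (h.star Y Z) :=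
  h.exp_inj (by simp only [exp_star, mul_assoc])

theorem zero_star (X : u) : h.star 0 X = X := h.exp_inj (by simp [exp_star])

theorem star_zero (X : u) : h.star X 0 = X := h.exp_inj (by simp [exp_star])

theorem neg_star_self (X : u) : h.star (-X) X = 0 :=
  h.exp_inj (by simp [exp_star, exp_neg_mul])

theorem star_neg_self (X : u) : h.star X (-X) = 0 :=
  h.exp_inj (by simp [exp_star, exp_mul_neg])

theorem neg_star_star (Y X : u) : h.star (-Y) (h.star Y X) = X := by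
  rw [← star_assoc, neg_star_self, zero_star]

theorem star_neg_star (Y X : u) : h.star Y (h.star (-Y) X) = X := by
  rw [← star_assoc, star_neg_self, zero_star]

theorem neg_star (X Y : u) : -h.star X Y = h.star (-Y) (-X) := by
  have h1 : h.star (h.star (-Y) (-X)) (h.star X Y) = 0 := by
    rw [star_assoc, neg_star_star, neg_star_self]
  calc -h.star X Y = h.star (h.star (h.star (-Y) (-X)) (h.star X Y)) (-h.star X Y) := by
        rw [h1, zero_star]
    _ = _ := by rw [star_assoc, star_neg_self, star_zero]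

theorem contDiff_star {n : WithTop ℕ∞} : ContDiff ℝ n fun p : u × u => h.star p.1 p.2 := by
  obtain ⟨P, hP⟩ := u.subtype.exists_leftInverse_of_injective u.ker_subtype
  have h1 : (fun p : u × u => h.star p.1 p.2) =
      fun p : u × u => LinearMap.toContinuousLinearMap P (nlog (exp p.1.1 * exp p.2.1)) := by
    funext p
    exact (LinearMap.congr_fun hP (h.star p.1 p.2)).symm
  rw [h1]
  refine (LinearMap.toContinuousLinearMap P).contDiff.comp (contDiff_nlog.comp ?_)
  exact (contDiff_exp.comp (u.subtypeL.contDiff.comp contDiff_fst)).mul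
    (contDiff_exp.comp (u.subtypeL.contDiff.comp contDiff_snd))

theorem continuous_star : Continuous fun p : u × u => h.star p.1 p.2 :=
  (h.contDiff_star (n := 0)).continuous

/-- The dilation of `u`. -/
def dlu (t : ℝ) : u →L[ℝ] u :=
  LinearMap.toContinuousLinearMap ((dl w t).toLinearMap.restrict (h.dl_mem t))

theorem dlu_val (t : ℝ) (X : u) : (h.dlu t X).1 = dl w t X.1 := rfl

theorem dlu_zero (X : u) : h.dlu 0 X = X := Subtype.ext (dl_zero _)

theorem dlu_add (s t : ℝ) (X : u) : h.dlu (s + t) X = h.dlu s (h.dlu t X) :=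
  Subtype.ext (dl_add _ _ _)

theorem dlu_star (t : ℝ) (X Y : u) : h.dlu t (h.star X Y) = h.star (h.dlu t X) (h.dlu t Y) :=
  h.exp_inj (by simp only [exp_star, dlu_val, ← dl_exp, map_mul])

theorem continuous_dlu : Continuous h.dlu :=
  continuous_clm_apply.2 fun X => continuous_induced_rng.2
    (continuous_dl.comp (Continuous.prodMk_left X.1))

theorem tendsto_dlu (X : u) : Tendsto (fun t => h.dlu t X) atBot (𝓝 0) :=
  tendsto_subtype_rng.2 (tendsto_dl (h.le X.2))

theorem det_dlu_add (s t : ℝ) : (h.dlu (s + t)).det = (h.dlu s).det * (h.dlu t).det := by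
  have : (h.dlu (s + t) : u →ₗ[ℝ] u) = (h.dlu s : u →ₗ[ℝ] u) ∘ₗ (h.dlu t : u →ₗ[ℝ] u) :=
    LinearMap.ext (h.dlu_add s t)
  rw [ContinuousLinearMap.det, this, LinearMap.det_comp]

theorem det_dlu_zero : (h.dlu 0).det = 1 := by
  have : (h.dlu 0 : u →ₗ[ℝ] u) = LinearMap.id := LinearMap.ext h.dlu_zero
  rw [ContinuousLinearMap.det, this, LinearMap.det_id]

theorem det_dlu_pos (t : ℝ) : 0 < (h.dlu t).det := by
  have h1 := h.det_dlu_add (t / 2) (t / 2)
  have h2 := h.det_dlu_add (t / 2) (-(t / 2))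
  rw [add_halves] at h1
  rw [add_neg_cancel, det_dlu_zero] at h2
  rw [h1]
  exact mul_self_pos.2 (left_ne_zero_of_mul (h2 ▸ one_ne_zero))

/-- The volume growth rate of the dilation. -/
def ent : ℝ := Real.log (h.dlu 1).det

theorem det_dlu (t : ℝ) : (h.dlu t).det = Real.exp (t * h.ent) := by
  let φ : ℝ →+ ℝ := AddMonoidHom.mk' (fun t => Real.log (h.dlu t).det) fun s t => by
    rw [det_dlu_add, Real.log_mul (h.det_dlu_pos s).ne' (h.det_dlu_pos t).ne']
  have hc : Continuous φ :=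
    (ContinuousLinearMap.continuous_det.comp h.continuous_dlu).log fun t => (h.det_dlu_pos t).ne'
  have h1 : φ (t • (1 : ℝ)) = t • φ 1 := map_real_smul φ hc t 1
  rw [smul_eq_mul, mul_one, smul_eq_mul] at h1
  rw [← Real.exp_log (h.det_dlu_pos t)]
  exact congrArg Real.exp h1

theorem continuous_star_left (Y : u) : Continuous (h.star Y) :=
  Continuous.comp (g := fun p : u × u => h.star p.1 p.2) (f := fun X => (Y, X))
    h.continuous_star (Continuous.prodMk_right Y)

theorem continuous_star_right (Y : u) : Continuous fun X => h.star X Y :=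
  Continuous.comp (g := fun p : u × u => h.star p.1 p.2) (f := fun X => (X, Y))
    h.continuous_star (Continuous.prodMk_left Y)

/-- Left translation as a homeomorphism. -/
def starL (Y : u) : u ≃ₜ u where
  toFun := h.star Y
  invFun := h.star (-Y)
  left_inv := h.neg_star_star Y
  right_inv := h.star_neg_star Y
  continuous_toFun := h.continuous_star_left Y
  continuous_invFun := h.continuous_star_left (-Y)

variable [MeasurableSpace u] [BorelSpace u] (μ : Measure u) [μ.IsAddHaarMeasure]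

theorem measurable_star (Y : u) : Measurable (h.star Y) :=
  (h.continuous_star_left Y).measurable

theorem map_star (Y : u) : μ.map (h.star Y) = μ := by
  ext s hs
  rw [Measure.map_apply (h.measurable_star Y) hs]
  have h1 : h.star Y ⁻¹' s = h.star (-Y) '' s := ((h.starL Y).image_symm_eq_preimage s).symm
  rw [h1]
  exact @abs_measure_image u _ _ _ _ ‹_› μ ‹_› h.star h.contDiff_star (fun t => h.dlu t)
    (fun t => (h.det_dlu_pos t).ne') h.dlu_star h.tendsto_dlu h.zero_star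
    (fun Y => (h.starL Y).injective) _ s hs

theorem measurePreserving_star (Y : u) : MeasurePreserving (h.star Y) μ μ :=
  ⟨h.measurable_star Y, h.map_star μ Y⟩

theorem measurePreserving_star_right (Y : u) : MeasurePreserving (fun X => h.star X Y) μ μ := by
  have h1 : (fun X => h.star X Y) = Neg.neg ∘ h.star (-Y) ∘ Neg.neg := by
    funext X
    simp only [Function.comp, neg_star, neg_neg]
  rw [h1]
  have : μ.IsNegInvariant := @abs_neg u _ _ _ _ ‹_› μ ‹_›
  exact (Measure.measurePreserving_neg μ).comp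
    ((h.measurePreserving_star μ (-Y)).comp (Measure.measurePreserving_neg μ))

theorem measure_preimage_star (Y : u) (s : Set u) : μ (h.star Y ⁻¹' s) = μ s :=
  (h.measurePreserving_star μ Y).measure_preimage_emb (h.starL Y).measurableEmbedding s

theorem measure_image_star (Y : u) (s : Set u) : μ (h.star Y '' s) = μ s := by
  have h1 : h.star Y '' s = h.star (-Y) ⁻¹' s := (h.starL Y).image_eq_preimage_symm s
  rw [h1, measure_preimage_star]

theorem measure_image_dlu (t : ℝ) (s : Set u) :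
    μ (h.dlu t '' s) = ENNReal.ofReal (Real.exp (t * h.ent)) * μ s := by
  have h1 := @Measure.addHaar_image_linearMap u _ _ _ ‹_› _ μ ‹_› (h.dlu t : u →ₗ[ℝ] u) s
  have h2 : LinearMap.det (h.dlu t : u →ₗ[ℝ] u) = Real.exp (t * h.ent) := h.det_dlu t
  rw [h2, abs_of_pos (Real.exp_pos _)] at h1
  exact h1

theorem measure_preimage_dlu (t : ℝ) (s : Set u) :
    μ (h.dlu t ⁻¹' s) = ENNReal.ofReal (Real.exp (-(t * h.ent))) * μ s := by
  have h1 : h.dlu t ⁻¹' s = h.dlu (-t) '' s := by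
    ext X
    constructor
    · intro hX
      exact ⟨_, hX, by rw [← dlu_add, neg_add_cancel, dlu_zero]⟩
    · rintro ⟨Z, hZ, rfl⟩
      rwa [mem_preimage, ← dlu_add, add_neg_cancel, dlu_zero]
  rw [h1, measure_image_dlu, neg_mul]

end NilSub

end Pool.Agent.P.MP_d483fb_an.Z.NE

end

end

section

/-!
Haar measure of Bowen balls.
-/

open scoped Matrix Matrix.Norms.Operator InnerProductSpace RealInnerProductSpace Topology ENNReal
open NormedSpace Filter Set MeasureTheory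

set_option linter.unusedSectionVars false

noncomputable section

namespace Pool.Agent.P.MP_d483fb_an.Z

namespace NE

variable {ι : Type} [Fintype ι] [DecidableEq ι] {w : ι → ℝ}

theorem locallyCompact_sub (u : Submodule ℝ (Matrix ι ι ℝ)) : LocallyCompactSpace u :=
  haveI : LocallyCompactSpace (Matrix ι ι ℝ) := inferInstanceAs (LocallyCompactSpace (ι → ι → ℝ))
  u.closed_of_finiteDimensional.locallyCompactSpace

theorem secondCountable_sub (u : Submodule ℝ (Matrix ι ι ℝ)) : SecondCountableTopology u :=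
  haveI : SecondCountableTopology (Matrix ι ι ℝ) :=
    inferInstanceAs (SecondCountableTopology (ι → ι → ℝ))
  TopologicalSpace.Subtype.secondCountableTopology (u : Set (Matrix ι ι ℝ))

theorem sigmaCompact_sub (u : Submodule ℝ (Matrix ι ι ℝ)) : SigmaCompactSpace u :=
  haveI := locallyCompact_sub u
  haveI := secondCountable_sub u
  inferInstance

theorem isCompact_norm_le (R : ℝ) : IsCompact {X : Matrix ι ι ℝ | ‖X‖ ≤ R} := by
  have := isCompact_closedBall (0 : Matrix ι ι ℝ) R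
  rwa [Metric.closedBall, show {y : Matrix ι ι ℝ | dist y 0 ≤ R} = {X | ‖X‖ ≤ R} by simp] at this

theorem isCompact_preimage_val (u : Submodule ℝ (Matrix ι ι ℝ)) {Q : Set (Matrix ι ι ℝ)}
    (hQ : IsCompact Q) : IsCompact (Subtype.val ⁻¹' Q : Set u) :=
  u.closed_of_finiteDimensional.isClosedEmbedding_subtypeVal.isCompact_preimage hQ

/-- The elements of `u` whose exponential has norm at most `R` form a compact set. -/
theorem NilSub.isCompact_exp_le {u : Submodule ℝ (Matrix ι ι ℝ)} (h : NilSub w u) (R : ℝ) :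
    IsCompact {Z : u | ‖exp Z.1‖ ≤ R} := by
  have h1 := isCompact_preimage_val u
    ((isCompact_norm_le (ι := ι) R).image (contDiff_nlog (n := 0)).continuous)
  refine h1.of_isClosed_subset ?_ fun Z hZ => ⟨exp Z.1, hZ, nlog_exp (h.le Z.2)⟩
  exact isClosed_le (((contDiff_exp (n := 0)).continuous.comp continuous_subtype_val).norm)
    continuous_const

end NE

open Pool.Agent.P.MP_d483fb_an.Z.NE

section Fib

variable {G : Type} [Group G] [TopologicalSpace G] {n : ℕ}

theorem ExpData.ρ_ex_inv' (D : ExpData G n) {Y : Mat n} (hY : Y ∈ D.g) :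
    D.ρ (D.ex Y)⁻¹ = exp (-Y) := by
  have h2 : D.ρ (D.ex Y)⁻¹ * exp Y = 1 := by
    rw [← D.ρ_ex _ hY, ← map_mul, inv_mul_cancel, map_one]
  rw [← mul_one (D.ρ _), ← NilSub.exp_mul_neg Y, ← mul_assoc, h2, one_mul]

theorem ExpData.fib_le (D : ExpData G n) {w : Fin n → ℝ} {u : Submodule ℝ (Mat n)}
    (h : NilSub w u) (hu : u ≤ D.g) [MeasurableSpace u] [BorelSpace u] (ν : Measure u)
    [ν.IsAddHaarMeasure] (R t : ℝ) (g : G) :
    ν {X : u | ‖dl w t (D.ρ ((D.ex X.1)⁻¹ * g))‖ ≤ R ∧ ‖dl w t (D.ρ ((D.ex X.1)⁻¹ * g)⁻¹)‖ ≤ R} ≤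
      ENNReal.ofReal (Real.exp (-(t * h.ent))) * ν {Z : u | ‖exp Z.1‖ ≤ R * R} := by
  rcases eq_empty_or_nonempty {X : u | ‖dl w t (D.ρ ((D.ex X.1)⁻¹ * g))‖ ≤ R ∧
    ‖dl w t (D.ρ ((D.ex X.1)⁻¹ * g)⁻¹)‖ ≤ R} with he | ⟨X0, hX0⟩
  · rw [he, measure_empty]
    exact zero_le
  rw [← h.measure_preimage_dlu ν, ← h.measure_preimage_star ν (-X0) (h.dlu t ⁻¹' _)]
  refine measure_mono fun X hX => ?_
  simp only [mem_preimage, mem_ofPred_eq, NilSub.dlu_val, ← dl_exp, NilSub.exp_star]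
  have h3 : exp (-X0).1 * exp X.1 =
      D.ρ ((D.ex X0.1)⁻¹ * g) * D.ρ ((D.ex X.1)⁻¹ * g)⁻¹ := by
    rw [← map_mul, mul_inv_rev, inv_inv, mul_assoc, mul_inv_cancel_left, map_mul,
      D.ρ_ex_inv' (hu X0.2), D.ρ_ex _ (hu X.2)]
    rfl
  rw [h3, map_mul]
  exact (norm_mul_le _ _).trans (mul_le_mul hX0.1 hX.2 (norm_nonneg _)
    ((norm_nonneg _).trans hX0.1))

end Fib

theorem div_bound {a b c e : ℝ≥0∞} {x : ℝ} (hb : b ≠ 0) (hb' : b ≠ ∞) (hc : c ≠ ∞)
    (he : e ≠ ∞) (h : a * b ≤ ENNReal.ofReal x * c * e) :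
    a ≤ ENNReal.ofReal (((e * c / b).toReal + 1) * x) := by
  have hfin : e * c / b ≠ ∞ := ENNReal.div_ne_top (ENNReal.mul_ne_top he hc) hb
  have h4 : a ≤ (e * c / b) * ENNReal.ofReal x := by
    refine ((ENNReal.le_div_iff_mul_le (Or.inl hb) (Or.inl hb')).2 h).trans_eq ?_
    simp only [div_eq_mul_inv]
    ring
  refine h4.trans ?_
  rw [ENNReal.ofReal_mul (by positivity)]
  refine mul_le_mul_left ?_ _
  exact (ENNReal.ofReal_toReal hfin).symm.le.trans
    (ENNReal.ofReal_le_ofReal (le_add_of_nonneg_right zero_le_one))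

variable {G : Type} [Group G] [TopologicalSpace G] [IsTopologicalGroup G] [T2Space G]
  [SecondCountableTopology G] [MeasurableSpace G] [BorelSpace G] {n k : ℕ}

/-- Haar measure of the elements of a compact set that stay bounded under the dilation `dl w t`. -/
theorem ExpData.bow_le (D : ExpData G n) {w : Fin n → ℝ} {u : Submodule ℝ (Mat n)}
    (h : NilSub w u) (hu : u ≤ D.g) (μ : Measure G) [μ.IsMulLeftInvariant]
    [IsFiniteMeasureOnCompacts μ] [SFinite μ] {Q : Set G} (hQ : IsCompact Q) (R : ℝ) :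
    ∃ C : ℝ, 0 < C ∧ ∀ t : ℝ, μ {g ∈ Q | ‖dl w t (D.ρ g)‖ ≤ R ∧ ‖dl w t (D.ρ g⁻¹)‖ ≤ R} ≤
      ENNReal.ofReal (C * Real.exp (-(t * h.ent))) := by
  let _ : MeasurableSpace u := borel u
  have : BorelSpace u := ⟨rfl⟩
  have := locallyCompact_sub u
  have := sigmaCompact_sub u
  set ν : Measure u := Measure.addHaar with hν
  obtain ⟨U, hU, hU0⟩ := exists_compact_mem_nhds (0 : u)
  have hex : Continuous fun X : u => D.ex X.1 :=
    D.ex_cont.comp_continuous continuous_subtype_val fun X => hu X.2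
  set Q' : Set G := (fun p : u × G => D.ex p.1.1 * p.2) '' (U ×ˢ Q) with hQ'
  have hQ'c : IsCompact Q' := (hU.prod hQ).image ((hex.comp continuous_fst).mul continuous_snd)
  set S0 : Set u := {Z : u | ‖exp Z.1‖ ≤ R * R} with hS0
  have hS0c : IsCompact S0 := h.isCompact_exp_le _
  have hUpos : ν U ≠ 0 := (Measure.measure_pos_of_mem_nhds ν hU0).ne'
  refine ⟨(μ Q' * ν S0 / ν U).toReal + 1, by positivity, fun t => ?_⟩
  set B : Set G := {g ∈ Q | ‖dl w t (D.ρ g)‖ ≤ R ∧ ‖dl w t (D.ρ g⁻¹)‖ ≤ R} with hB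
  have hdl : Continuous fun X : Mat n => dl w t X := continuous_dl.comp (Continuous.prodMk_right t)
  have hBc : IsClosed B := by
    refine hQ.isClosed.inter (IsClosed.inter ?_ ?_)
    · exact isClosed_le (hdl.comp D.cont).norm continuous_const
    · exact isClosed_le (hdl.comp (D.cont.comp continuous_inv)).norm continuous_const
  set S : Set (u × G) := {p | p.1 ∈ U ∧ (D.ex p.1.1)⁻¹ * p.2 ∈ B} with hS
  have hSm : MeasurableSet S := by
    refine IsClosed.measurableSet (IsClosed.inter (hU.isClosed.preimage continuous_fst) ?_)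
    exact hBc.preimage ((hex.comp continuous_fst).inv.mul continuous_snd)
  have h1 : (ν.prod μ) S = μ B * ν U := by
    rw [Measure.prod_apply hSm, ← lintegral_indicator_const hU.measurableSet]
    refine lintegral_congr fun X => ?_
    by_cases hX : X ∈ U
    · rw [indicator_of_mem hX, ← measure_preimage_mul μ (D.ex X.1)⁻¹ B]
      congr 1
      ext g
      simp [hS, hX]
    · rw [indicator_of_notMem hX]
      have : Prod.mk X ⁻¹' S = ∅ := by
        ext g
        simp [hS, hX]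
      rw [this, measure_empty]
  have h2 : (ν.prod μ) S ≤ ENNReal.ofReal (Real.exp (-(t * h.ent))) * ν S0 * μ Q' := by
    rw [Measure.prod_apply_symm hSm, ← lintegral_indicator_const hQ'c.measurableSet]
    refine lintegral_mono fun g => ?_
    rcases eq_empty_or_nonempty ((fun X => (X, g)) ⁻¹' S) with he | ⟨X0, hX0⟩
    · rw [he, measure_empty]
      exact zero_le
    have hg : g ∈ Q' := ⟨(X0, (D.ex X0.1)⁻¹ * g), ⟨hX0.1, hX0.2.1⟩, by simp⟩
    rw [indicator_of_mem hg]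
    exact le_trans (measure_mono fun X hX => hX.2.2) (D.fib_le h hu ν R t g)
  rw [h1] at h2
  exact div_bound hUpos hU.measure_lt_top.ne hS0c.measure_lt_top.ne hQ'c.measure_lt_top.ne h2

/-- Haar measure of a Bowen ball in exponential coordinates. -/
theorem ExpData.bow_ex_le (D : ExpData G n) {w : Fin n → ℝ} {u : Submodule ℝ (Mat n)}
    (h : NilSub w u) (hu : u ≤ D.g) (μ : Measure G) [μ.IsMulLeftInvariant]
    [IsFiniteMeasureOnCompacts μ] [SFinite μ] (r : ℝ) :
    ∃ C : ℝ, 0 < C ∧ ∀ t : ℝ, μ (D.ex '' {Y | Y ∈ D.g ∧ ‖Y‖ ≤ r ∧ ‖dl w t Y‖ ≤ r}) ≤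
      ENNReal.ofReal (C * Real.exp (-(t * h.ent))) := by
  have hc : IsCompact {Y | Y ∈ D.g ∧ ‖Y‖ ≤ r} :=
    (isCompact_norm_le r).inter_left D.g.closed_of_finiteDimensional
  have hQ : IsCompact (D.ex '' {Y | Y ∈ D.g ∧ ‖Y‖ ≤ r}) :=
    hc.image_of_continuousOn (D.ex_cont.mono fun Y hY => hY.1)
  obtain ⟨R, hR⟩ := ((isCompact_norm_le (ι := Fin n) r).image
    (contDiff_exp (n := 0)).continuous).isBounded.exists_norm_le
  obtain ⟨C, hC, hb⟩ := D.bow_le h hu μ hQ R
  refine ⟨C, hC, fun t => le_trans (measure_mono ?_) (hb t)⟩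
  rintro _ ⟨Y, ⟨hY, h1, h2⟩, rfl⟩
  refine ⟨⟨Y, ⟨hY, h1⟩, rfl⟩, ?_, ?_⟩
  · rw [D.ρ_ex _ hY, dl_exp]
    exact hR _ ⟨_, h2, rfl⟩
  · rw [D.ρ_ex_inv' hY, dl_exp]
    exact hR _ ⟨_, by simpa using h2, rfl⟩

namespace Std

omit [IsTopologicalGroup G] [T2Space G] [SecondCountableTopology G] [MeasurableSpace G]
  [BorelSpace G]

variable (D : Std G n k)

/-- The weight of the direction `s`. -/
def wOf (s : Euc k) : Fin n → ℝ := fun i => ⟪D.lam i, s⟫

theorem ρ_a_diag (s : Euc k) : D.ρ (D.a s) = Matrix.diagonal fun i => Real.exp ⟪D.lam i, s⟫ := by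
  rw [a, D.ρ_ex _ (D.dg_mem s), dg_apply, Matrix.exp_diagonal]
  congr 1
  funext i
  rw [Pi.coe_exp, Real.exp_eq_exp_ℝ]

theorem ρ_a_inv_diag (s : Euc k) :
    D.ρ (D.a s)⁻¹ = Matrix.diagonal fun i => Real.exp (-⟪D.lam i, s⟫) := by
  have h1 : D.ρ (D.a s)⁻¹ * D.ρ (D.a s) = 1 := by rw [← map_mul, inv_mul_cancel, map_one]
  have h2 : D.ρ (D.a s) * Matrix.diagonal (fun i => Real.exp (-⟪D.lam i, s⟫)) = 1 := by
    rw [ρ_a_diag, Matrix.diagonal_mul_diagonal, ← Matrix.diagonal_one]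
    congr 1
    funext i
    rw [← Real.exp_add, add_neg_cancel, Real.exp_zero]
  rw [← mul_one (D.ρ _), ← h2, ← mul_assoc, h1, one_mul]

theorem Ad_a_eq_dl (s : Euc k) (t : ℝ) (X : Mat n) :
    D.Ad (D.a (t • s)) X = dl (D.wOf s) t X := by
  rw [ExpData.Ad_apply, ρ_a_diag, ρ_a_inv_diag, dl_eq]
  simp only [inner_smul_right, wOf]

theorem ρ_conj_a (s : Euc k) (t : ℝ) (x : G) :
    D.ρ (D.a (t • s) * x * (D.a (t • s))⁻¹) = dl (D.wOf s) t (D.ρ x) := by
  rw [← Ad_a_eq_dl, ExpData.Ad_apply, map_mul, map_mul]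

theorem np_eq (s : Euc k) : D.np s = D.g ⊓ Fil (D.wOf s) 1 := by
  ext X
  simp only [np, grS, Submodule.mem_inf, mem_wtS, mem_Fil_one, mem_ofPred_eq, inner_sub_left,
    sub_pos, wOf]

theorem nhds_range_le : 𝓝[Set.range D.ρ] (1 : Mat n) ≤ Filter.map exp (𝓝[D.g] 0) := by
  rw [← D.opn, ← D.ex_nhds, Filter.map_map]
  refine (Filter.map_congr ?_).le
  filter_upwards [self_mem_nhdsWithin] with X hX using D.ρ_ex X hX

/-- A unipotent element of the image of the group has its logarithm in the Lie algebra. -/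
theorem nlog_mem_np (s : Euc k) {x : G} (hx : 1 - D.ρ x ∈ Fil (D.wOf s) 1) :
    nlog (D.ρ x) ∈ D.np s := by
  rw [np_eq]
  refine ⟨nlog_mem_of_nhds (S := Set.range D.ρ) ?_ ?_ D.nhds_range_le ⟨x, rfl⟩ hx, nlog_mem hx⟩
  · rintro t _ ⟨y, rfl⟩
    exact ⟨_, D.ρ_conj_a s t y⟩
  · intro t X hX
    rw [← Ad_a_eq_dl]
    exact D.Ad_mem _ hX

theorem nilSub_np (s : Euc k) : NilSub (D.wOf s) (D.np s) := by
  refine nilSub_of_nhds (S := MonoidHom.mrange D.ρ) (h := D.g) ?_ ?_ D.nhds_range_le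
    (fun X hX => ⟨_, D.ρ_ex X hX⟩) (D.np_eq s)
  · rintro t _ ⟨y, rfl⟩
    exact ⟨_, D.ρ_conj_a s t y⟩
  · intro t X hX
    rw [← Ad_a_eq_dl]
    exact D.Ad_mem _ hX

/-- The entropy of `a s`. -/
def hU (s : Euc k) : ℝ := (D.nilSub_np s).ent

end Std

theorem Std.bow_le (D : Std G n k) (s : Euc k) (μ : Measure G) [μ.IsMulLeftInvariant]
    [IsFiniteMeasureOnCompacts μ] [SFinite μ] {Q : Set G} (hQ : IsCompact Q) (R : ℝ) :
    ∃ C : ℝ, 0 < C ∧ ∀ t : ℝ, μ {g ∈ Q | ‖D.ρ (D.a (t • s) * g * (D.a (t • s))⁻¹)‖ ≤ R ∧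
      ‖D.ρ (D.a (t • s) * g⁻¹ * (D.a (t • s))⁻¹)‖ ≤ R} ≤
      ENNReal.ofReal (C * Real.exp (-(t * D.hU s))) := by
  simp only [Std.ρ_conj_a]
  exact D.toExpData.bow_le (D.nilSub_np s) inf_le_left μ hQ R

theorem Std.bow_ex_le (D : Std G n k) (s : Euc k) (μ : Measure G) [μ.IsMulLeftInvariant]
    [IsFiniteMeasureOnCompacts μ] [SFinite μ] (r : ℝ) :
    ∃ C : ℝ, 0 < C ∧ ∀ t : ℝ,
      μ (D.ex '' {Y | Y ∈ D.g ∧ ‖Y‖ ≤ r ∧ ‖D.Ad (D.a (t • s)) Y‖ ≤ r}) ≤
      ENNReal.ofReal (C * Real.exp (-(t * D.hU s))) := by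
  simp only [Std.Ad_a_eq_dl]
  exact D.toExpData.bow_ex_le (D.nilSub_np s) inf_le_left μ r

end Pool.Agent.P.MP_d483fb_an.Z

end

end

section

/-!
Measure of Bowen balls in a space with a locally free action and a finite invariant measure.
-/

open scoped Matrix Matrix.Norms.Operator InnerProductSpace RealInnerProductSpace Topology ENNReal
open NormedSpace Filter Set MeasureTheory

set_option linter.unusedSectionVars false

noncomputable section

namespace Pool.Agent.P.MP_d483fb_an.Z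

open Pool.Agent.P.MP_d483fb_an.Z.NE

variable {G : Type} [Group G] [TopologicalSpace G] [IsTopologicalGroup G] {n k : ℕ}
  {B : Type} [MulAction G B]

theorem card_move {Q' : Set G} (hQ' : IsCompact Q') {Q : Set B} {W : Set G} (hW : W ∈ 𝓝 (1 : G))
    (hfree : ∀ b ∈ Q, ∀ g ∈ W, g • b = b → g = 1) : ∃ M : ℕ, ∀ b ∈ Q, ∀ b2 : B,
      ∃ F : Finset G, F.card ≤ M ∧ ∀ x ∈ Q', x • b = b2 → x ∈ F := by
  classical
  obtain ⟨W1, hW1, hW1W⟩ := exists_nhds_split_inv hW
  obtain ⟨T, hT⟩ := compact_covered_by_mul_left_translates hQ' (V := W1⁻¹)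
    ⟨1, mem_interior_iff_mem_nhds.2 (inv_mem_nhds_one G hW1)⟩
  refine ⟨T.card, fun b hb b2 => ?_⟩
  have hch : ∀ y : G, ∃ x0 : G, ∀ x, y * x ∈ W1⁻¹ → x • b = b2 → x = x0 := by
    intro y
    by_cases h : ∃ x0, y * x0 ∈ W1⁻¹ ∧ x0 • b = b2
    · obtain ⟨x0, h1, h2⟩ := h
      refine ⟨x0, fun x h3 h4 => ?_⟩
      have h5 := hfree b hb _ (hW1W _ h1 _ h3) (by
        rw [div_eq_mul_inv, inv_inv, mul_inv_rev, mul_assoc, inv_mul_cancel_left, mul_smul, h4,
          ← h2, inv_smul_smul])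
      rw [div_eq_mul_inv, inv_inv, mul_inv_rev, mul_assoc, inv_mul_cancel_left,
        inv_mul_eq_one] at h5
      exact h5.symm
    · exact ⟨1, fun x h1 h2 => absurd ⟨x, h1, h2⟩ h⟩
  choose x0 hx0 using hch
  refine ⟨T.image x0, Finset.card_image_le, fun x hx hx' => ?_⟩
  obtain ⟨y, hy, h1⟩ := mem_iUnion₂.1 (hT hx)
  exact Finset.mem_image.2 ⟨y, hy, (hx0 y x h1 hx').symm⟩

variable [TopologicalSpace B] [T2Space B] [MeasurableSpace B] [BorelSpace B] [ContinuousSMul G B]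

/-- Bowen balls, for a closed condition that bounds the dilated matrices. -/
theorem ExpData.bowA_le (D : ExpData G n) {w : Fin n → ℝ} {u : Submodule ℝ (Mat n)}
    (h : NilSub w u) (hu : u ≤ D.g) (m : Measure B) [IsFiniteMeasure m]
    (hm : ∀ g : G, MeasurePreserving (fun b => g • b) m m) {Q : Set B} {W : Set G}
    (hW : W ∈ 𝓝 (1 : G)) (hfree : ∀ b ∈ Q, ∀ g ∈ W, g • b = b → g = 1) {U : Set G}
    (hU : IsCompact U) (R : ℝ) :
    ∃ C : ℝ, 0 < C ∧ ∀ t : ℝ, ∀ b ∈ Q, m {b2 | ∃ g ∈ U, b2 = g • b ∧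
      ‖dl w t (D.ρ g)‖ ≤ R ∧ ‖dl w t (D.ρ g⁻¹)‖ ≤ R} ≤
      ENNReal.ofReal (C * Real.exp (-(t * h.ent))) := by
  let _ : MeasurableSpace u := borel u
  have : BorelSpace u := ⟨rfl⟩
  have := locallyCompact_sub u
  have := sigmaCompact_sub u
  have := secondCountable_sub u
  set ν : Measure u := Measure.addHaar with hν
  obtain ⟨U0, hU0, hU00⟩ := exists_compact_mem_nhds (0 : u)
  have hex : Continuous fun X : u => D.ex X.1 :=
    D.ex_cont.comp_continuous continuous_subtype_val fun X => hu X.2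
  set Q' : Set G := (fun p : u × G => D.ex p.1.1 * p.2) '' (U0 ×ˢ U) with hQ'
  have hQ'c : IsCompact Q' := (hU0.prod hU).image ((hex.comp continuous_fst).mul continuous_snd)
  obtain ⟨M, hM⟩ := card_move hQ'c hW hfree
  set S0 : Set u := {Z : u | ‖exp Z.1‖ ≤ R * R} with hS0
  have hS0c : IsCompact S0 := h.isCompact_exp_le _
  have hUpos : ν U0 ≠ 0 := (Measure.measure_pos_of_mem_nhds ν hU00).ne'
  refine ⟨((M * m univ) * ν S0 / ν U0).toReal + 1, by positivity, fun t b hb => ?_⟩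
  set E : Set G := {g ∈ U | ‖dl w t (D.ρ g)‖ ≤ R ∧ ‖dl w t (D.ρ g⁻¹)‖ ≤ R} with hE
  have hdl : Continuous fun X : Mat n => dl w t X := continuous_dl.comp (Continuous.prodMk_right t)
  have hEc : IsCompact E := by
    refine hU.inter_right (IsClosed.inter ?_ ?_)
    · exact isClosed_le (hdl.comp D.cont).norm continuous_const
    · exact isClosed_le (hdl.comp (D.cont.comp continuous_inv)).norm continuous_const
  set A : Set B := (fun g : G => g • b) '' E with hA
  have hAc : IsClosed A := (hEc.image (continuous_id.smul continuous_const)).isClosed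
  have hAe : {b2 | ∃ g ∈ U, b2 = g • b ∧ ‖dl w t (D.ρ g)‖ ≤ R ∧ ‖dl w t (D.ρ g⁻¹)‖ ≤ R} = A := by
    ext b2
    constructor
    · rintro ⟨g, h1, h2, h3⟩
      exact ⟨g, ⟨h1, h3⟩, h2.symm⟩
    · rintro ⟨g, ⟨h1, h3⟩, h2⟩
      exact ⟨g, h1, h2.symm, h3⟩
  rw [hAe]
  set S : Set (u × B) := {p | p.1 ∈ U0 ∧ (D.ex p.1.1)⁻¹ • p.2 ∈ A} with hS
  have hSm : MeasurableSet S := by
    refine IsClosed.measurableSet (IsClosed.inter (hU0.isClosed.preimage continuous_fst) ?_)
    exact hAc.preimage ((hex.comp continuous_fst).inv.smul continuous_snd)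
  have h1 : (ν.prod m) S = m A * ν U0 := by
    rw [Measure.prod_apply hSm, ← lintegral_indicator_const hU0.measurableSet]
    refine lintegral_congr fun X => ?_
    by_cases hX : X ∈ U0
    · rw [indicator_of_mem hX,
        ← (hm (D.ex X.1)⁻¹).measure_preimage hAc.measurableSet.nullMeasurableSet]
      congr 1
      ext g
      simp [hS, hX]
    · rw [indicator_of_notMem hX]
      have : Prod.mk X ⁻¹' S = ∅ := by
        ext g
        simp [hS, hX]
      rw [this, measure_empty]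
  have h2 : (ν.prod m) S ≤ ENNReal.ofReal (Real.exp (-(t * h.ent))) * ν S0 * (M * m univ) := by
    rw [Measure.prod_apply_symm hSm, ← mul_assoc, ← lintegral_const]
    refine lintegral_mono fun b2 => ?_
    obtain ⟨F, hF, hF'⟩ := hM b hb b2
    have h3 : (fun X => (X, b2)) ⁻¹' S ⊆ ⋃ x ∈ F, {X : u |
        ‖dl w t (D.ρ ((D.ex X.1)⁻¹ * x))‖ ≤ R ∧ ‖dl w t (D.ρ ((D.ex X.1)⁻¹ * x)⁻¹)‖ ≤ R} := by
      rintro X ⟨hX, g, hg, hg'⟩
      refine mem_biUnion (hF' (D.ex X.1 * g) ⟨(X, g), ⟨hX, hg.1⟩, rfl⟩ ?_) ?_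
      · rw [mul_smul]
        exact (inv_smul_eq_iff.1 hg'.symm).symm
      · simp only [mem_ofPred_eq, inv_mul_cancel_left]
        exact hg.2
    refine (measure_mono h3).trans ((measure_biUnion_finset_le _ _).trans ?_)
    refine (Finset.sum_le_sum fun x _ => D.fib_le h hu ν R t x).trans ?_
    rw [Finset.sum_const, nsmul_eq_mul, mul_comm]
    exact mul_le_mul_right (by exact_mod_cast hF) _
  rw [h1] at h2
  exact div_bound hUpos hU0.measure_lt_top.ne hS0c.measure_lt_top.ne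
    (ENNReal.mul_ne_top (ENNReal.natCast_ne_top M) (measure_ne_top _ _)) h2

theorem ExpData.bowA_ex_le (D : ExpData G n) {w : Fin n → ℝ} {u : Submodule ℝ (Mat n)}
    (h : NilSub w u) (hu : u ≤ D.g) (m : Measure B) [IsFiniteMeasure m]
    (hm : ∀ g : G, MeasurePreserving (fun b => g • b) m m) {Q : Set B} {W : Set G}
    (hW : W ∈ 𝓝 (1 : G)) (hfree : ∀ b ∈ Q, ∀ g ∈ W, g • b = b → g = 1) (r : ℝ) :
    ∃ C : ℝ, 0 < C ∧ ∀ t : ℝ, ∀ b ∈ Q, m {b2 | ∃ Y ∈ D.g, b2 = D.ex Y • b ∧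
      ‖Y‖ ≤ r ∧ ‖dl w t Y‖ ≤ r} ≤ ENNReal.ofReal (C * Real.exp (-(t * h.ent))) := by
  have hc : IsCompact {Y | Y ∈ D.g ∧ ‖Y‖ ≤ r} :=
    (isCompact_norm_le r).inter_left D.g.closed_of_finiteDimensional
  have hQ : IsCompact (D.ex '' {Y | Y ∈ D.g ∧ ‖Y‖ ≤ r}) :=
    hc.image_of_continuousOn (D.ex_cont.mono fun Y hY => hY.1)
  obtain ⟨R, hR⟩ := ((isCompact_norm_le (ι := Fin n) r).image
    (contDiff_exp (n := 0)).continuous).isBounded.exists_norm_le
  obtain ⟨C, hC, hb⟩ := D.bowA_le h hu m hm hW hfree hQ R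
  refine ⟨C, hC, fun t b hb' => le_trans (measure_mono ?_) (hb t b hb')⟩
  rintro _ ⟨Y, hY, rfl, h1, h2⟩
  refine ⟨_, ⟨Y, ⟨hY, h1⟩, rfl⟩, rfl, ?_, ?_⟩
  · rw [D.ρ_ex _ hY, dl_exp]
    exact hR _ ⟨_, h2, rfl⟩
  · rw [D.ρ_ex_inv' hY, dl_exp]
    exact hR _ ⟨_, by simpa using h2, rfl⟩

omit [IsTopologicalGroup G] in
theorem Std.Ad_a_pow (D : Std G n k) (s : Euc k) (N : ℕ) (X : Mat n) :
    D.Ad (D.a s ^ N) X = dl (D.wOf s) N X := by
  induction N with
  | zero => simp [ExpData.Ad_apply, dl_zero]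
  | succ N ih =>
    have h1 := D.Ad_a_eq_dl s 1 (D.Ad (D.a s ^ N) X)
    rw [one_smul, ExpData.Ad_apply, ExpData.Ad_apply] at h1
    rw [Nat.cast_succ, add_comm (N : ℝ), dl_add, ← ih, pow_succ', ExpData.Ad_apply,
      ExpData.Ad_apply, ← h1, mul_inv_rev, map_mul, map_mul]
    simp only [mul_assoc]

/-- Bowen balls of any radius. -/
theorem Std.bow_base_all (D : Std G n k) (s : Euc k) (m : Measure B) [IsFiniteMeasure m]
    (hm : ∀ g : G, MeasurePreserving (fun b => g • b) m m) {Q : Set B} {W : Set G}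
    (hW : W ∈ 𝓝 (1 : G)) (hfree : ∀ b ∈ Q, ∀ g ∈ W, g • b = b → g = 1) (r : ℝ) :
    ∃ C : ℝ, 0 < C ∧ ∀ N : ℕ, ∀ b ∈ Q, m {b2 | ∃ Y ∈ D.g, b2 = D.ex Y • b ∧
      ‖Y‖ ≤ r ∧ ‖D.Ad (D.a s ^ N) Y‖ ≤ r} ≤
      ENNReal.ofReal (C * Real.exp (-(N * (D.nilSub_np s).ent))) := by
  obtain ⟨C, hC, h⟩ := D.toExpData.bowA_ex_le (D.nilSub_np s) inf_le_left m hm hW hfree r
  refine ⟨C, hC, fun N b hb => ?_⟩
  simp only [Std.Ad_a_pow]
  exact h N b hb

theorem Std.bow_base (D : Std G n k) (s : Euc k) (m : Measure B) [IsFiniteMeasure m]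
    (hm : ∀ g : G, MeasurePreserving (fun b => g • b) m m) {Q : Set B} {W : Set G}
    (hW : W ∈ 𝓝 (1 : G)) (hfree : ∀ b ∈ Q, ∀ g ∈ W, g • b = b → g = 1) :
    ∃ r : ℝ, 0 < r ∧ ∃ C : ℝ, 0 < C ∧ ∀ N : ℕ, ∀ b ∈ Q, m {b2 | ∃ Y ∈ D.g, b2 = D.ex Y • b ∧
      ‖Y‖ ≤ r ∧ ‖D.Ad (D.a s ^ N) Y‖ ≤ r} ≤
      ENNReal.ofReal (C * Real.exp (-(N * (D.nilSub_np s).ent))) :=
  ⟨1, one_pos, D.bow_base_all s m hm hW hfree 1⟩

end Pool.Agent.P.MP_d483fb_an.Z

end

end

section

/-!
Measurable partitions of a locally compact group into small cells of bounded multiplicity.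
-/

open scoped Matrix Matrix.Norms.Operator Topology ENNReal Pointwise
open NormedSpace Filter Set MeasureTheory

set_option linter.unusedSectionVars false

noncomputable section

namespace Pool.Agent.P.MP_d483fb_an.Z

/-- Counting by measure: sets of measure at least `v` inside `S` with multiplicity at most `M`. -/
theorem count_le {X κ : Type} [MeasurableSpace X] (ν : Measure X) (I : Set κ) (A : κ → Set X)
    (hA : ∀ c ∈ I, MeasurableSet (A c)) {v : ℝ≥0∞} (hv : ∀ c ∈ I, v ≤ ν (A c)) {S : Set X}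
    (hS : MeasurableSet S) (hAS : ∀ c ∈ I, A c ⊆ S) {M : ℕ}
    (hM : ∀ x, {c ∈ I | x ∈ A c}.encard ≤ M) (T : Finset κ) (hT : (T : Set κ) ⊆ I) :
    T.card * v ≤ M * ν S := by
  classical
  calc (T.card : ℝ≥0∞) * v = ∑ _c ∈ T, v := by rw [Finset.sum_const, nsmul_eq_mul]
    _ ≤ ∑ c ∈ T, ∫⁻ x, (A c).indicator 1 x ∂ν := Finset.sum_le_sum fun c hc => by
        rw [lintegral_indicator_one (hA c (hT hc))]
        exact hv c (hT hc)
    _ = ∫⁻ x, ∑ c ∈ T, (A c).indicator 1 x ∂ν :=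
        (lintegral_finsetSum _ fun c hc => measurable_one.indicator (hA c (hT hc))).symm
    _ ≤ ∫⁻ x, S.indicator (fun _ => (M : ℝ≥0∞)) x ∂ν := by
        refine lintegral_mono fun x => ?_
        simp only [indicator_apply, Pi.one_apply, Finset.sum_boole]
        split_ifs with hx
        · have h1 : ((T.filter fun c => x ∈ A c : Finset κ) : Set κ) ⊆ {c ∈ I | x ∈ A c} := by
            intro c hc
            simp only [Finset.coe_filter, mem_ofPred_eq] at hc
            exact ⟨hT hc.1, hc.2⟩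
          have h2 := (encard_le_encard h1).trans (hM x)
          rw [encard_coe_eq_coe_finsetCard] at h2
          exact_mod_cast h2
        · have : T.filter (fun c => x ∈ A c) = ∅ :=
            Finset.filter_eq_empty_iff.2 fun c hc hxc => hx (hAS c (hT hc) hxc)
          simp [this]
    _ = M * ν S := lintegral_indicator_const hS _

theorem encard_le_of_finset {κ : Type} {I : Set κ} {C : ℕ}
    (h : ∀ T : Finset κ, (T : Set κ) ⊆ I → T.card ≤ C) : I.encard ≤ C := by
  by_contra hcon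
  obtain ⟨T, hT, hc⟩ := exists_subset_encard_eq (Order.add_one_le_of_lt (not_le.1 hcon))
  have hfin : T.Finite := finite_of_encard_eq_coe (k := C + 1) (by simpa using hc)
  have := h hfin.toFinset (by simpa using hT)
  rw [hfin.encard_eq_coe_toFinset_card] at hc
  have h2 : hfin.toFinset.card = C + 1 := by exact_mod_cast hc
  omega

theorem exists_cell_group {H : Type} [Group H] [TopologicalSpace H] [IsTopologicalGroup H]
    [T2Space H] [LocallyCompactSpace H] [SecondCountableTopology H] [MeasurableSpace H]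
    [BorelSpace H] {U : Set H} (hU : U ∈ 𝓝 (1 : H)) :
    ∃ cell : H → ℕ, Measurable cell ∧ (∀ x y, cell x = cell y → x⁻¹ * y ∈ U) ∧
      ∀ S : Set H, IsCompact S → ∃ C : ℕ, ∀ x, (cell '' ((x * ·) '' S)).encard ≤ C := by
  classical
  obtain ⟨W1, hW1, hW1U⟩ := exists_nhds_split_inv hU
  obtain ⟨W2, hW2, hW2s, hW2c⟩ := local_compact_nhds (inter_mem (inv_mem_nhds_one H hW1)
    (inv_mem_nhds_one H hW1))
  set W : Set H := W2 ∩ W2⁻¹ with hW
  have hWc : IsCompact W := hW2c.inter_right hW2c.inv.isClosed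
  have hWn : W ∈ 𝓝 (1 : H) := inter_mem hW2 (inv_mem_nhds_one H hW2)
  have hWs : ∀ x ∈ W, x⁻¹ ∈ W := fun x hx => ⟨hx.2, by simpa using hx.1⟩
  have hWU : ∀ x ∈ W, ∀ y ∈ W, x⁻¹ * y ∈ U := fun x hx y hy => by
    have := hW1U x⁻¹ (hW2s hx.1).1 y⁻¹ (hW2s hy.1).1
    simpa using this
  obtain ⟨V1, hV1, hV1W⟩ := exists_nhds_split_inv hWn
  obtain ⟨V, hVs, hVo, hV⟩ := mem_nhds_iff.1 (inter_mem hV1 hWn)
  obtain ⟨P, hP⟩ := zorn_subset {P : Set H | P.Pairwise fun p q => p⁻¹ * q ∉ W}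
    fun c hc hch => ⟨⋃₀ c, fun p ⟨s, hs, hp⟩ q ⟨s', hs', hq⟩ hne => by
      rcases hch.total hs hs' with h | h
      · exact hc hs' (h hp) hq hne
      · exact hc hs hp (h hq) hne, fun s hs => subset_sUnion_of_mem hs⟩
  have hcov : ∀ x, ∃ p ∈ P, p⁻¹ * x ∈ W := by
    intro x
    by_contra hcon
    push Not at hcon
    have h1 : (insert x P).Pairwise fun p q => p⁻¹ * q ∉ W := by
      refine hP.prop.insert fun p hp _ => ⟨fun h => hcon p hp ?_, hcon p hp⟩
      simpa using hWs _ h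
    have h2 : x ∈ P := hP.le_of_ge h1 (subset_insert x P) (mem_insert x P)
    exact hcon x h2 (by simpa using mem_of_mem_nhds hWn)
  have hdis : ∀ p ∈ P, ∀ q ∈ P, ∀ z, p⁻¹ * z ∈ V → q⁻¹ * z ∈ V → p = q := by
    intro p hp q hq z h1 h2
    by_contra hne
    refine hP.prop hp hq hne ?_
    have := hV1W _ (hVs h1).1 _ (hVs h2).1
    simpa [div_eq_mul_inv, mul_assoc] using this
  have hopen : ∀ p : H, IsOpen {z | p⁻¹ * z ∈ V} := fun p =>
    hVo.preimage (continuous_const.mul continuous_id)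
  have hcount : P.Countable := by
    refine Set.PairwiseDisjoint.countable_of_isOpen (s := fun p => {z | p⁻¹ * z ∈ V}) ?_
      (fun p _ => hopen p) fun p _ => ⟨p, by simpa using hV⟩
    intro p hp q hq hne
    exact Set.disjoint_left.2 fun z h1 h2 => hne (hdis p hp q hq z h1 h2)
  obtain ⟨q, hq⟩ := hcount.exists_eq_range (by obtain ⟨p, hp, -⟩ := hcov 1; exact ⟨p, hp⟩)
  have hex : ∀ x, ∃ j, (q j)⁻¹ * x ∈ W := by
    intro x
    obtain ⟨p, hp, h⟩ := hcov x
    rw [hq] at hp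
    obtain ⟨j, rfl⟩ := hp
    exact ⟨j, h⟩
  have hqP : ∀ j, q j ∈ P := fun j => hq ▸ mem_range_self j
  refine ⟨fun x => Nat.find (hex x), measurable_find hex fun j =>
    (hWc.isClosed.preimage (continuous_const.mul continuous_id)).measurableSet, ?_, ?_⟩
  · intro x y hxy
    have h1 := Nat.find_spec (hex x)
    have h2 := Nat.find_spec (hex y)
    have hxy' : Nat.find (hex x) = Nat.find (hex y) := hxy
    rw [← hxy'] at h2
    simpa [mul_assoc] using hWU _ h1 _ h2
  · intro S hS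
    set μ : Measure H := Measure.haar with hμ
    have hS' : IsCompact (S * W * W) := (hS.mul hWc).mul hWc
    have hV0 : μ V ≠ 0 := (hVo.measure_pos μ ⟨1, hV⟩).ne'
    have hVt : μ V ≠ ∞ := ((measure_mono fun z hz => (hVs hz).2).trans_lt
      (hWc.measure_lt_top (μ := μ))).ne
    obtain ⟨C, hC⟩ := ENNReal.exists_nat_gt (ENNReal.div_ne_top (hS'.measure_lt_top (μ := μ)).ne hV0)
    refine ⟨C, fun x => encard_le_of_finset fun T hT => ?_⟩
    have h1 := count_le μ ((fun y => Nat.find (hex y)) '' ((x * ·) '' S))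
      (fun j => {z | (q j)⁻¹ * z ∈ V}) (fun j _ => (hopen _).measurableSet) (v := μ V)
      (fun j _ => (measure_preimage_mul μ _ V).ge) (S := {z | x⁻¹ * z ∈ S * W * W})
      (hS'.isClosed.preimage (continuous_const.mul continuous_id)).measurableSet ?_ (M := 1) ?_ T hT
    · have h2 : μ {z | x⁻¹ * z ∈ S * W * W} = μ (S * W * W) := measure_preimage_mul μ _ _
      rw [h2, Nat.cast_one, one_mul, ← ENNReal.le_div_iff_mul_le (Or.inl hV0) (Or.inl hVt)] at h1
      exact_mod_cast (h1.trans hC.le)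
    · rintro _ ⟨_, ⟨y, hy, rfl⟩, rfl⟩ z hz
      have h3 := mul_mem_mul (mul_mem_mul hy (hWs _ (Nat.find_spec (hex (x * y))))) (hVs hz).2
      simpa [mul_assoc] using h3
    · intro z
      refine encard_le_one_iff.2 ?_
      rintro _ _ ⟨⟨y, -, rfl⟩, h1⟩ ⟨⟨y', -, rfl⟩, h2⟩
      have h3 := hdis _ (hqP _) _ (hqP _) z h1 h2
      refine le_antisymm (Nat.find_min' _ ?_) (Nat.find_min' _ ?_)
      · rw [← h3]
        exact Nat.find_spec (hex y)
      · rw [h3]
        exact Nat.find_spec (hex y')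

namespace NE.NilSub

variable {ι : Type} [Fintype ι] [DecidableEq ι] {w : ι → ℝ} {u : Submodule ℝ (Matrix ι ι ℝ)}
  (h : NilSub w u)

/-- The group `u` with the law `star`. -/
def Gp (_h : NilSub w u) : Type := u

instance : Group h.Gp where
  mul := h.star
  one := (0 : u)
  inv := fun X : u => -X
  mul_assoc := h.star_assoc
  one_mul := h.zero_star
  mul_one := h.star_zero
  inv_mul_cancel := h.neg_star_self

instance : TopologicalSpace h.Gp := inferInstanceAs (TopologicalSpace u)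

instance : IsTopologicalGroup h.Gp where
  continuous_mul := h.continuous_star
  continuous_inv := continuous_neg (G := u)

theorem bounded_subset_compact {S : Set u} (hS : Bornology.IsBounded S) :
    ∃ S' : Set u, IsCompact S' ∧ S ⊆ S' :=
  ⟨_, hS.isCompact_closure, subset_closure⟩

/-- Small cells of bounded multiplicity. -/
theorem exists_cell [MeasurableSpace u] [BorelSpace u] {δ : ℝ} (hδ : 0 < δ) :
    ∃ cell : u → ℕ, Measurable cell ∧ (∀ X Y, cell X = cell Y → ‖h.star (-X) Y‖ ≤ δ) ∧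
      ∀ S : Set u, Bornology.IsBounded S → ∃ C : ℕ, ∀ X, (cell '' (h.star X '' S)).encard ≤ C := by
  let _ : MeasurableSpace h.Gp := inferInstanceAs (MeasurableSpace u)
  have : BorelSpace h.Gp := inferInstanceAs (BorelSpace u)
  have : T2Space h.Gp := inferInstanceAs (T2Space u)
  have : LocallyCompactSpace h.Gp := locallyCompact_sub u
  have : SecondCountableTopology h.Gp := secondCountable_sub u
  have hU : {X : u | ‖X‖ ≤ δ} ∈ 𝓝 (0 : u) := by
    have := Metric.closedBall_mem_nhds (0 : u) hδ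
    rwa [Metric.closedBall, show {y : u | dist y 0 ≤ δ} = {X | ‖X‖ ≤ δ} by simp] at this
  have hU' : {X : h.Gp | ‖(show u from X)‖ ≤ δ} ∈ 𝓝 (1 : h.Gp) := hU
  obtain ⟨cell, h1, h2, h3⟩ := exists_cell_group hU'
  refine ⟨cell, h1, h2, fun S hS => ?_⟩
  obtain ⟨S', hS', hSS'⟩ := bounded_subset_compact hS
  obtain ⟨C, hC⟩ := h3 S' hS'
  exact ⟨C, fun X => (encard_le_encard (image_mono (image_mono hSS'))).trans (hC X)⟩

end NE.NilSub

end Pool.Agent.P.MP_d483fb_an.Z

end

end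

section

/-!
Sublevel estimates for functions that are polynomial of bounded degree along lines.
-/

open MeasureTheory Set Metric Polynomial
open scoped ENNReal Pointwise

noncomputable section

namespace Pool.Agent.P.MP_d483fb_an.Z

theorem sub_prod_lower (s δ : ℝ) (hs : s ∈ Icc (1 : ℝ) 2) (hδ : 0 < δ) (hδ1 : δ ≤ 1)
    (m : Multiset ℂ) (hm : ∀ z ∈ m, δ ≤ |s - z.re|) :
    (δ / 4) ^ m.card * ‖(m.map fun z => (0 : ℂ) - z).prod‖ ≤
      ‖(m.map fun z => (s : ℂ) - z).prod‖ := by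
  induction m using Multiset.induction_on with
  | empty => simp
  | cons z m ih =>
    have ih' := ih fun w hw => hm w (Multiset.mem_cons_of_mem hw)
    have hz := hm z (Multiset.mem_cons_self z m)
    simp only [Multiset.map_cons, Multiset.prod_cons, Multiset.card_cons, norm_mul, pow_succ]
    have h1 : δ / 4 * ‖(0 : ℂ) - z‖ ≤ ‖(s : ℂ) - z‖ := by
      have h2 : δ ≤ ‖(s : ℂ) - z‖ := by
        refine hz.trans ?_
        have := Complex.abs_re_le_norm ((s : ℂ) - z)
        simpa using this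
      have h3 : ‖(0 : ℂ) - z‖ ≤ ‖(s : ℂ) - z‖ + 2 := by
        have h4 : (0 : ℂ) - z = ((s : ℂ) - z) - s := by ring
        have h5 : ‖(s : ℂ)‖ ≤ 2 := by
          rw [Complex.norm_real, Real.norm_eq_abs, abs_le]
          constructor <;> linarith [hs.1, hs.2]
        rw [h4]
        exact (norm_sub_le _ _).trans (by linarith)
      nlinarith [norm_nonneg ((0 : ℂ) - z), norm_nonneg ((s : ℂ) - z)]
    calc (δ / 4) ^ m.card * (δ / 4) * (‖(0 : ℂ) - z‖ * ‖(m.map fun z => (0 : ℂ) - z).prod‖)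
        = (δ / 4 * ‖(0 : ℂ) - z‖) * ((δ / 4) ^ m.card * ‖(m.map fun z => (0 : ℂ) - z).prod‖) := by
          ring
      _ ≤ _ := mul_le_mul h1 ih' (by positivity) (norm_nonneg _)

/-- One variable: the set where a polynomial is small compared to its value at zero. -/
theorem sub_one_dim (d : ℕ) (p : ℝ[X]) (hp : p.natDegree ≤ d) (δ : ℝ) (hδ : 0 < δ) (hδ1 : δ ≤ 1) :
    volume {s ∈ Icc (1 : ℝ) 2 | |p.eval s| < |p.eval 0| * (δ / 4) ^ d} ≤
      ENNReal.ofReal (2 * d * δ) := by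
  classical
  set q : ℂ[X] := p.map (algebraMap ℝ ℂ) with hq
  have hsp : q.Splits := IsAlgClosed.splits q
  have hev : ∀ s : ℝ, ‖q.eval (s : ℂ)‖ = |p.eval s| := by
    intro s
    have : q.eval (s : ℂ) = ((p.eval s : ℝ) : ℂ) := by
      rw [hq, Polynomial.eval_map_algebraMap]
      exact (Polynomial.aeval_algebraMap_apply ℂ s p).trans (by simp)
    rw [this, Complex.norm_real, Real.norm_eq_abs]
  have hcard : q.roots.card ≤ d := by
    refine (card_roots' q).trans ?_
    exact natDegree_map_le.trans hp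
  have hsub : {s ∈ Icc (1 : ℝ) 2 | |p.eval s| < |p.eval 0| * (δ / 4) ^ d} ⊆
      ⋃ z ∈ q.roots.toFinset, ball z.re δ := by
    rintro s ⟨hs, hlt⟩
    by_contra hcon
    simp only [mem_iUnion, Multiset.mem_toFinset, mem_ball, not_exists, not_lt] at hcon
    have h1 := sub_prod_lower s δ hs hδ hδ1 q.roots fun z hz => by
      simpa [Real.dist_eq] using hcon z hz
    have h2 : ∀ w : ℂ, ‖q.eval w‖ = ‖q.leadingCoeff‖ * ‖(q.roots.map fun z => w - z).prod‖ := by
      intro w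
      rw [hsp.eval_eq_prod_roots, norm_mul]
    have h3 := hev s
    have h4 := hev 0
    rw [h2] at h3 h4
    have h5 : (δ / 4) ^ d ≤ (δ / 4) ^ q.roots.card :=
      pow_le_pow_of_le_one (by positivity) (by linarith) hcard
    rw [← h3, ← h4] at hlt
    simp only [Complex.ofReal_zero] at hlt
    have h6 := mul_le_mul_of_nonneg_left h1 (norm_nonneg q.leadingCoeff)
    have h7 : 0 ≤ ‖q.leadingCoeff‖ * ‖(q.roots.map fun z => (0 : ℂ) - z).prod‖ := by positivity
    nlinarith [mul_le_mul_of_nonneg_left h5 h7]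
  refine (measure_mono hsub).trans ((measure_biUnion_finset_le _ _).trans ?_)
  simp only [Real.volume_ball, Finset.sum_const, nsmul_eq_mul]
  rw [← ENNReal.ofReal_natCast, ← ENNReal.ofReal_mul (by positivity)]
  refine ENNReal.ofReal_le_ofReal ?_
  have : (q.roots.toFinset.card : ℝ) ≤ d := by
    exact_mod_cast (Multiset.toFinset_card_le _).trans hcard
  nlinarith

variable {V : Type} [NormedAddCommGroup V] [NormedSpace ℝ V] [FiniteDimensional ℝ V]
  [MeasurableSpace V] [BorelSpace V]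

/-- Sublevel estimate around a point `x0`, uniform in the function. -/
theorem sublevel_ball (μ : Measure V) [μ.IsAddHaarMeasure] (d : ℕ) (f : V → ℝ) (hf : Measurable f)
    (x0 : V) (hpoly : ∀ v, ∃ p : ℝ[X], p.natDegree ≤ d ∧ ∀ s : ℝ, f (x0 + s • v) = p.eval s)
    (R δ : ℝ) (hδ : 0 < δ) (hδ1 : δ ≤ 1) :
    μ {x ∈ ball x0 R | |f x| < |f x0| * (δ / 4) ^ d} ≤
      2 ^ Module.finrank ℝ V * μ (ball x0 R) * ENNReal.ofReal (2 * d * δ) := by
  set t := |f x0| * (δ / 4) ^ d with ht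
  set E : Set V := {x | |f x| < t} with hE
  have hEm : MeasurableSet E := measurableSet_lt (by fun_prop) measurable_const
  set S : Set (ℝ × V) := {z | z.1 ∈ Icc (1 : ℝ) 2 ∧ z.2 ∈ ball (0 : V) R ∧ x0 + z.1 • z.2 ∈ E}
    with hS
  have hSm : MeasurableSet S := by
    refine (measurable_fst measurableSet_Icc).inter ((measurable_snd measurableSet_ball).inter ?_)
    exact (by fun_prop : Measurable fun z : ℝ × V => x0 + z.1 • z.2) hEm
  have hball : μ (ball (0 : V) R) = μ (ball x0 R) := (μ.addHaar_ball_center x0 R).symm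
  have h1 : (volume.prod μ) S ≤ μ (ball x0 R) * ENNReal.ofReal (2 * d * δ) := by
    rw [Measure.prod_apply_symm hSm, ← hball, mul_comm, ← lintegral_indicator_const
      measurableSet_ball]
    refine lintegral_mono fun v => ?_
    by_cases hv : v ∈ ball (0 : V) R
    · rw [indicator_of_mem hv]
      obtain ⟨p, hp, hev⟩ := hpoly v
      refine le_trans (measure_mono ?_) (sub_one_dim d p hp δ hδ hδ1)
      rintro s ⟨hs, -, h⟩
      refine ⟨hs, ?_⟩
      have h0 := hev 0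
      simp only [zero_smul, add_zero] at h0
      rw [← hev, ← h0]
      exact h
    · rw [indicator_of_notMem hv]
      have : (fun s : ℝ => (s, v)) ⁻¹' S = ∅ := by
        ext s
        simp only [mem_preimage, mem_empty_iff_false, iff_false]
        exact fun h => hv h.2.1
      rw [this, measure_empty]
  have h2 : μ {x ∈ ball x0 R | |f x| < t} ≤ 2 ^ Module.finrank ℝ V * (volume.prod μ) S := by
    rw [Measure.prod_apply hSm, ← lintegral_const_mul _ (measurable_measure_prodMk_left hSm)]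
    have h3 : μ {x ∈ ball x0 R | |f x| < t} =
        ∫⁻ s, (Icc (1 : ℝ) 2).indicator (fun _ => μ {x ∈ ball x0 R | |f x| < t}) s := by
      rw [lintegral_indicator_const measurableSet_Icc]
      norm_num
    rw [h3]
    refine lintegral_mono fun s => ?_
    by_cases hs : s ∈ Icc (1 : ℝ) 2
    · rw [indicator_of_mem hs]
      have hs0 : 0 < s := by linarith [hs.1]
      have h4 : {x ∈ ball x0 R | |f x| < t} ⊆ x0 +ᵥ (s • (Prod.mk s ⁻¹' S)) := by
        rintro x ⟨hx, hx'⟩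
        refine ⟨x - x0, ⟨s⁻¹ • (x - x0), ⟨hs, ?_, ?_⟩, ?_⟩, by simp⟩
        · rw [mem_ball_iff_norm] at hx
          rw [mem_ball_zero_iff, norm_smul, norm_inv, Real.norm_eq_abs, abs_of_pos hs0]
          have : s⁻¹ ≤ 1 := inv_le_one_of_one_le₀ hs.1
          nlinarith [norm_nonneg (x - x0), inv_pos.2 hs0]
        · simp only [smul_inv_smul₀ hs0.ne', add_sub_cancel]
          exact hx'
        · simp only [smul_inv_smul₀ hs0.ne']
      refine (measure_mono h4).trans ?_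
      rw [measure_vadd, Measure.addHaar_smul]
      refine mul_le_mul_left ?_ _
      rw [abs_of_pos (pow_pos hs0 _)]
      have : (2 : ℝ≥0∞) ^ Module.finrank ℝ V = ENNReal.ofReal (2 ^ Module.finrank ℝ V) := by
        rw [ENNReal.ofReal_pow (by norm_num)]
        norm_num
      rw [this]
      exact ENNReal.ofReal_le_ofReal (pow_le_pow_left₀ hs0.le hs.2 _)
    · rw [indicator_of_notMem hs]
      exact zero_le
  rw [mul_assoc]
  exact h2.trans (mul_le_mul_right h1 _)

/-- Sublevel estimate: a function that is a polynomial of degree at most `d` on the lines through a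
point where it does not vanish. -/
theorem sublevel (μ : Measure V) [μ.IsAddHaarMeasure] (d : ℕ) (f : V → ℝ) (hf : Measurable f)
    (x0 : V) (h0 : f x0 ≠ 0)
    (hpoly : ∀ v, ∃ p : ℝ[X], p.natDegree ≤ d ∧ ∀ s : ℝ, f (x0 + s • v) = p.eval s)
    {B : Set V} (hB : Bornology.IsBounded B) :
    ∃ C : ℝ, 0 < C ∧ ∀ t : ℝ, 0 < t →
      μ {x ∈ B | |f x| ≤ t} ≤ ENNReal.ofReal (C * t ^ (1 / ((d : ℝ) + 1))) := by
  obtain ⟨R, hR⟩ := hB.subset_ball x0
  have hc : 0 < |f x0| := abs_pos.2 h0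
  have hfin : μ (ball x0 R) ≠ ∞ := measure_ball_lt_top.ne
  set m := (μ (ball x0 R)).toReal with hm
  have hm0 : 0 ≤ m := ENNReal.toReal_nonneg
  set e : ℝ := 1 / ((d : ℝ) + 1) with he
  have hepos : 0 < e := by positivity
  set A : ℝ := 8 * (|f x0|⁻¹) ^ e with hA
  have hApos : 0 < A := by positivity
  refine ⟨(2 ^ Module.finrank ℝ V * (2 * d) + 1) * (m + 1) * A, by positivity, fun t ht => ?_⟩
  have hte : 0 < t ^ e := by positivity
  by_cases hδ1 : A * t ^ e ≤ 1
  · have h1' := sublevel_ball μ d f hf x0 hpoly R _ (mul_pos hApos hte) hδ1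
    have h2 : t < |f x0| * (A * t ^ e / 4) ^ d := by
      have h3 : (A * t ^ e / 8) ^ (d + 1) = |f x0|⁻¹ * t := by
        have : A * t ^ e / 8 = (|f x0|⁻¹ * t) ^ e := by
          rw [Real.mul_rpow (by positivity) ht.le, hA]
          ring
        rw [this, ← Real.rpow_natCast, ← Real.rpow_mul (by positivity), he]
        push_cast
        rw [one_div_mul_cancel (by positivity), Real.rpow_one]
      have h4 : (A * t ^ e / 8) ^ (d + 1) < (A * t ^ e / 4) ^ d := by
        rw [pow_succ]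
        have h5 : (A * t ^ e / 8) ^ d ≤ (A * t ^ e / 4) ^ d :=
          pow_le_pow_left₀ (by positivity) (by nlinarith [mul_pos hApos hte]) _
        have h6 : 0 < (A * t ^ e / 8) ^ d := by positivity
        nlinarith
      rw [h3] at h4
      have := mul_lt_mul_of_pos_left h4 hc
      rwa [← mul_assoc, mul_inv_cancel₀ hc.ne', one_mul] at this
    refine le_trans (measure_mono ?_) (h1'.trans ?_)
    · rintro x ⟨hx, hx'⟩
      exact ⟨hR hx, hx'.trans_lt h2⟩
    · have : (2 : ℝ≥0∞) ^ Module.finrank ℝ V = ENNReal.ofReal (2 ^ Module.finrank ℝ V) := by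
        rw [ENNReal.ofReal_pow (by norm_num)]
        norm_num
      rw [this, ← ENNReal.ofReal_toReal hfin, ← hm, ← ENNReal.ofReal_mul (by positivity),
        ← ENNReal.ofReal_mul (by positivity)]
      refine ENNReal.ofReal_le_ofReal ?_
      have h7 : 0 ≤ (2 : ℝ) ^ Module.finrank ℝ V * (2 * d) := by positivity
      nlinarith [mul_pos hApos hte, mul_nonneg h7 (mul_pos hApos hte).le,
        mul_nonneg hm0 (mul_pos hApos hte).le]
  · refine le_trans (measure_mono fun x hx => hR hx.1) ?_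
    rw [← ENNReal.ofReal_toReal hfin, ← hm]
    refine ENNReal.ofReal_le_ofReal ?_
    have h7 : 0 ≤ (2 : ℝ) ^ Module.finrank ℝ V * (2 * d) := by positivity
    have h8 : 1 ≤ A * t ^ e := (not_le.1 hδ1).le
    nlinarith [mul_nonneg h7 (mul_pos hApos hte).le, mul_nonneg (mul_nonneg h7 hm0)
      (mul_pos hApos hte).le, mul_nonneg hm0 (sub_nonneg.2 h8)]

end Pool.Agent.P.MP_d483fb_an.Z

end

end

section

/-!
Counting the cells that meet an algebraic hypersurface.
-/

open scoped Matrix Matrix.Norms.Operator Topology ENNReal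
open NormedSpace Filter Set MeasureTheory

set_option linter.unusedSectionVars false

noncomputable section

namespace Pool.Agent.P.MP_d483fb_an.Z.NE

variable {ι : Type} [Fintype ι] [DecidableEq ι] {w : ι → ℝ}

theorem totalDegree_aeval_le {σ τ : Type} (F : MvPolynomial σ ℝ) (f : σ → MvPolynomial τ ℝ)
    {n : ℕ} (hf : ∀ i, (f i).totalDegree ≤ n) :
    (MvPolynomial.aeval f F).totalDegree ≤ F.totalDegree * n := by
  rw [MvPolynomial.aeval_def, MvPolynomial.eval₂]
  refine (MvPolynomial.totalDegree_finsetSum _ _).trans (Finset.sup_le fun d hd => ?_)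
  refine (MvPolynomial.totalDegree_mul _ _).trans ?_
  rw [MvPolynomial.algebraMap_eq, MvPolynomial.totalDegree_C, zero_add]
  refine (MvPolynomial.totalDegree_finsetProd _ _).trans ?_
  have : ∑ i ∈ d.support, (d i) * n ≤ F.totalDegree * n := by
    rw [← Finset.sum_mul]
    exact mul_le_mul' (MvPolynomial.le_totalDegree hd) le_rfl
  refine (Finset.sum_le_sum fun i _ => ?_).trans this
  exact (MvPolynomial.totalDegree_pow _ _).trans (mul_le_mul' le_rfl (hf i))

/-- Translates of a polynomial in the matrix entries. -/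
theorem exists_translate (F : MvPolynomial (ι × ι) ℝ) (A B : Matrix ι ι ℝ) :
    ∃ F2 : MvPolynomial (ι × ι) ℝ, F2.totalDegree ≤ F.totalDegree ∧ ∀ M : Matrix ι ι ℝ,
      MvPolynomial.eval (fun p => M p.1 p.2) F2 =
        MvPolynomial.eval (fun p => (A * M * B) p.1 p.2) F := by
  refine ⟨MvPolynomial.aeval (fun p : ι × ι => ∑ l, ∑ k,
    (A p.1 k * B l p.2) • (MvPolynomial.X (k, l) : MvPolynomial (ι × ι) ℝ)) F, ?_, fun M => ?_⟩
  · refine (totalDegree_aeval_le F _ (n := 1) fun p => ?_).trans_eq (mul_one _)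
    refine (MvPolynomial.totalDegree_finsetSum _ _).trans (Finset.sup_le fun l _ => ?_)
    refine (MvPolynomial.totalDegree_finsetSum _ _).trans (Finset.sup_le fun k _ => ?_)
    exact (MvPolynomial.totalDegree_smul_le _ _).trans (MvPolynomial.totalDegree_X _).le
  · rw [MvPolynomial.map_aeval]
    have h1 : (MvPolynomial.eval fun p : ι × ι => M p.1 p.2).comp
        (algebraMap ℝ (MvPolynomial (ι × ι) ℝ)) = RingHom.id ℝ := by
      ext
      simp
    have h2 : (fun p : ι × ι => MvPolynomial.eval (fun p : ι × ι => M p.1 p.2) (∑ l, ∑ k,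
        (A p.1 k * B l p.2) • (MvPolynomial.X (k, l) : MvPolynomial (ι × ι) ℝ))) =
        fun p => (A * M * B) p.1 p.2 := by
      funext p
      simp only [map_sum, MvPolynomial.smul_eval, MvPolynomial.eval_X, Matrix.mul_apply,
        Finset.sum_mul]
      exact Finset.sum_congr rfl fun l _ => Finset.sum_congr rfl fun k _ => by ring
    rw [h1, h2]
    rfl

theorem norm_mono {X Y : Matrix ι ι ℝ} (h : ∀ i j, |Y i j| ≤ |X i j|) : ‖Y‖ ≤ ‖X‖ := by
  have : ‖Y‖₊ ≤ ‖X‖₊ := by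
    rw [Matrix.linfty_opNNNorm_def, Matrix.linfty_opNNNorm_def]
    exact Finset.sup_mono_fun fun i _ => Finset.sum_le_sum fun j _ => h i j
  exact this

theorem exists_gap (w : ι → ℝ) : ∃ κ : ℝ, 0 < κ ∧ ∀ i j, w j < w i → κ ≤ w i - w j := by
  have h : ∀ᶠ κ in 𝓝[>] (0 : ℝ), ∀ p : ι × ι, w p.2 < w p.1 → κ ≤ w p.1 - w p.2 := by
    refine eventually_all.2 fun p => ?_
    by_cases hp : w p.2 < w p.1
    · filter_upwards [mem_nhdsWithin_of_mem_nhds (Iic_mem_nhds (sub_pos.2 hp))] with κ hκ _ using hκ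
    · exact Eventually.of_forall fun κ h => absurd h hp
  obtain ⟨κ, h1, h2⟩ := (h.and self_mem_nhdsWithin).exists
  exact ⟨κ, h2, fun i j => h1 (i, j)⟩

theorem norm_dl_le (w : ι → ℝ) : ∃ κ : ℝ, 0 < κ ∧ ∀ t, 0 ≤ t → ∀ X ∈ Fil w 1,
    ‖dl w (-t) X‖ ≤ Real.exp (-κ * t) * ‖X‖ := by
  obtain ⟨κ, hκ, h⟩ := exists_gap w
  refine ⟨κ, hκ, fun t ht X hX => ?_⟩
  rw [← abs_of_pos (Real.exp_pos (-κ * t)), ← Real.norm_eq_abs, ← norm_smul]
  refine norm_mono fun i j => ?_
  by_cases h0 : X i j = 0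
  · simp [dl_apply, h0]
  · rw [dl_apply, Matrix.smul_apply, smul_eq_mul, abs_mul, abs_mul, abs_of_pos (Real.exp_pos _),
      abs_of_pos (Real.exp_pos _)]
    refine mul_le_mul_of_nonneg_right (Real.exp_le_exp.2 ?_) (abs_nonneg _)
    nlinarith [h i j (mem_Fil_one.1 hX i j h0)]

theorem contDiff_eval {n : WithTop ℕ∞} (F : MvPolynomial (ι × ι) ℝ) :
    ContDiff ℝ n fun M : Matrix ι ι ℝ => MvPolynomial.eval (fun p => M p.1 p.2) F := by
  induction F using MvPolynomial.induction_on with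
  | C a => simpa using contDiff_const
  | add p q hp hq => simpa using hp.add hq
  | mul_X p i hp =>
    simp only [map_mul, MvPolynomial.eval_X]
    exact hp.mul (LinearMap.toContinuousLinearMap (Matrix.entryLinearMap ℝ ℝ i.1 i.2)).contDiff

theorem exists_poly_pow (X V : Matrix ι ι ℝ) (k : ℕ) : ∀ i j, ∃ p : Polynomial ℝ,
    p.natDegree ≤ k ∧ ∀ s : ℝ, ((X + s • V) ^ k) i j = p.eval s := by
  induction k with
  | zero => exact fun i j => ⟨Polynomial.C ((1 : Matrix ι ι ℝ) i j), by simp, by simp⟩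
  | succ k ih =>
    choose P hP hP' using ih
    intro i j
    refine ⟨∑ l, P i l * (Polynomial.C (X l j) + Polynomial.C (V l j) * Polynomial.X),
      Polynomial.natDegree_sum_le_of_forall_le _ _ fun l _ => ?_, fun s => ?_⟩
    · refine Polynomial.natDegree_mul_le.trans (add_le_add (hP i l) ?_)
      rw [add_comm]
      exact Polynomial.natDegree_linear_le
    · simp [pow_succ, Matrix.mul_apply, hP', Polynomial.eval_finsetSum, mul_comm s]

theorem exists_poly_exp {X V : Matrix ι ι ℝ} (hX : X ∈ Fil w 1) (hV : V ∈ Fil w 1) (i j : ι) :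
    ∃ p : Polynomial ℝ, p.natDegree ≤ Fintype.card ι ∧
      ∀ s : ℝ, exp (X + s • V) i j = p.eval s := by
  choose P hP hP' using fun k => exists_poly_pow X V k i j
  refine ⟨∑ k ∈ Finset.range (Fintype.card ι + 1), ((k.factorial : ℝ)⁻¹) • P k,
    Polynomial.natDegree_sum_le_of_forall_le _ _ fun k hk => ?_, fun s => ?_⟩
  · exact (Polynomial.natDegree_smul_le _ _).trans ((hP k).trans
      (Nat.lt_succ_iff.1 (Finset.mem_range.1 hk)))
  · rw [exp_eq_sum (Submodule.add_mem _ hX (Submodule.smul_mem _ s hV))]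
    simp [Matrix.sum_apply, hP', Polynomial.eval_finsetSum]

theorem exists_poly_eval {X V : Matrix ι ι ℝ} (hX : X ∈ Fil w 1) (hV : V ∈ Fil w 1)
    (F : MvPolynomial (ι × ι) ℝ) {d : ℕ} (hF : F.totalDegree ≤ d) :
    ∃ p : Polynomial ℝ, p.natDegree ≤ d * Fintype.card ι ∧
      ∀ s : ℝ, MvPolynomial.eval (fun p => exp (X + s • V) p.1 p.2) F = p.eval s := by
  choose P hP hP' using fun p : ι × ι => exists_poly_exp hX hV p.1 p.2
  refine ⟨MvPolynomial.aeval P F, MvPolynomial.aeval_natDegree_le F hF P hP, fun s => ?_⟩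
  rw [MvPolynomial.aeval_def, MvPolynomial.polynomial_eval_eval₂, MvPolynomial.eval,
    MvPolynomial.coe_eval₂Hom]
  congr 1
  · ext
    simp
  · funext p
    exact hP' p s

namespace NilSub

variable {u : Submodule ℝ (Matrix ι ι ℝ)} (h : NilSub w u)

theorem norm_dlu_le : ∃ κ : ℝ, 0 < κ ∧ ∀ t, 0 ≤ t → ∀ X : u,
    ‖h.dlu (-t) X‖ ≤ Real.exp (-κ * t) * ‖X‖ := by
  obtain ⟨κ, hκ, h1⟩ := norm_dl_le w
  exact ⟨κ, hκ, fun t ht X => h1 t ht X.1 (h.le X.2)⟩

include h in
/-- Sublevel sets of a polynomial in exponential coordinates. -/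
theorem sublevel_exp [MeasurableSpace u] [BorelSpace u] (ν : Measure u) [ν.IsAddHaarMeasure]
    (F : MvPolynomial (ι × ι) ℝ) {d : ℕ} (hF : F.totalDegree ≤ d)
    (h0 : ∃ X0 : u, MvPolynomial.eval (fun p => exp X0.1 p.1 p.2) F ≠ 0) {B : Set u}
    (hB : Bornology.IsBounded B) : ∃ C : ℝ, 0 < C ∧ ∀ t : ℝ, 0 < t →
      ν {X ∈ B | |MvPolynomial.eval (fun p => exp X.1 p.1 p.2) F| ≤ t} ≤
        ENNReal.ofReal (C * t ^ (1 / (((d * Fintype.card ι : ℕ) : ℝ) + 1))) := by
  obtain ⟨X0, hX0⟩ := h0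
  have hc : Continuous fun X : u => MvPolynomial.eval (fun p => exp X.1 p.1 p.2) F :=
    (contDiff_eval (n := 0) F).continuous.comp
      ((contDiff_exp (n := 0)).continuous.comp continuous_subtype_val)
  exact @sublevel u _ _ _ _ ‹_› ν ‹_› (d * Fintype.card ι) _ hc.measurable X0 hX0
    (fun V => exists_poly_eval (h.le X0.2) (h.le V.2) F hF) B hB

/-- The number of cells that meet the dilated zero set of a polynomial. -/
theorem cell_count {κ : Type} (cell : u → κ)
    (hc : ∃ M : ℕ, ∀ X, (cell '' (h.star X '' {Y | ‖Y‖ ≤ 1})).encard ≤ M) (d : ℕ) :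
    ∃ kap : ℝ, 0 < kap ∧ ∀ F : MvPolynomial (ι × ι) ℝ, F.totalDegree ≤ d →
      (∃ X0 : u, MvPolynomial.eval (fun p => exp X0.1 p.1 p.2) F ≠ 0) →
      ∀ W : Set u, Bornology.IsBounded W → ∃ C : ℝ, 0 < C ∧ ∀ t : ℝ, 0 ≤ t → ∃ T : Finset κ,
        (T.card : ℝ) ≤ C * Real.exp (t * (h.ent - kap)) ∧ ∀ X ∈ W,
          MvPolynomial.eval (fun p => exp X.1 p.1 p.2) F = 0 → cell (h.dlu t X) ∈ T := by
  let _ : MeasurableSpace u := borel u
  have : BorelSpace u := ⟨rfl⟩
  have := locallyCompact_sub u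
  set ν : Measure u := Measure.addHaar with hν
  obtain ⟨M, hM⟩ := hc
  obtain ⟨κ0, hκ0, hdl⟩ := h.norm_dlu_le
  set e : ℝ := 1 / (((d * Fintype.card ι : ℕ) : ℝ) + 1) with he
  have hepos : 0 < e := by positivity
  refine ⟨κ0 * e, by positivity, fun F hF h0 W hW => ?_⟩
  obtain ⟨R, hR⟩ := hW.exists_norm_le
  set ev : Matrix ι ι ℝ → ℝ := fun M => MvPolynomial.eval (fun p => M p.1 p.2) F with hev
  have hf : ContDiff ℝ 1 fun p : Matrix ι ι ℝ × Matrix ι ι ℝ => ev (exp p.1 * exp p.2) :=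
    (contDiff_eval F).comp ((contDiff_exp.comp contDiff_fst).mul (contDiff_exp.comp contDiff_snd))
  obtain ⟨L, hL⟩ := hf.contDiffOn.exists_lipschitzOnWith one_ne_zero
    ((convex_closedBall (0 : Matrix ι ι ℝ) R).prod (convex_closedBall (0 : Matrix ι ι ℝ) 1))
    ((isCompact_closedBall _ _).prod (isCompact_closedBall _ _))
  set B1 : Set u := {Y | ‖Y‖ ≤ 1} with hB1
  have hB1c : IsCompact B1 := isCompact_preimage_val u (isCompact_norm_le 1)
  have hB1n : B1 ∈ 𝓝 (0 : u) := by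
    have := Metric.closedBall_mem_nhds (0 : u) one_pos
    rwa [Metric.closedBall, show {y : u | dist y 0 ≤ 1} = {X | ‖X‖ ≤ 1} by simp] at this
  have hB0 : ν B1 ≠ 0 := (Measure.measure_pos_of_mem_nhds ν hB1n).ne'
  have hBt : ν B1 ≠ ∞ := hB1c.measure_lt_top.ne
  set W' : Set u := (fun p : u × u => h.star p.1 p.2) '' ({X | ‖X‖ ≤ R} ×ˢ B1) with hW'
  have hW'c : IsCompact W' :=
    ((isCompact_preimage_val u (isCompact_norm_le R)).prod hB1c).image h.continuous_star
  obtain ⟨C4, hC4, hsub⟩ := h.sublevel_exp ν F hF h0 hW'c.isBounded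
  have hb : 0 < (ν B1).toReal := ENNReal.toReal_pos hB0 hBt
  refine ⟨(M + 1) * (C4 * (L + 1) ^ e) / (ν B1).toReal, by positivity, fun t ht => ?_⟩
  set τ : ℝ := (L + 1) * Real.exp (-κ0 * t) with hτ
  have hτ0 : 0 < τ := by positivity
  set I : Set κ := (fun X => cell (h.dlu t X)) '' {X ∈ W | ev (exp X.1) = 0} with hI
  have hch : ∀ c : κ, ∃ X : u, c ∈ I → (X ∈ W ∧ ev (exp X.1) = 0) ∧ cell (h.dlu t X) = c := by
    intro c
    by_cases hcI : c ∈ I
    · obtain ⟨X, hX⟩ := hcI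
      exact ⟨X, fun _ => hX⟩
    · exact ⟨0, fun h' => absurd h' hcI⟩
  choose Xc hXc using hch
  have hcomp : ∀ X : u, IsCompact (h.star X '' (h.dlu (-t) '' B1)) := fun X =>
    (hB1c.image (h.dlu (-t)).continuous).image (h.continuous_star_left X)
  have hcont : Continuous fun X : u => ev (exp X.1) :=
    (contDiff_eval (n := 0) F).continuous.comp
      ((contDiff_exp (n := 0)).continuous.comp continuous_subtype_val)
  have key : ∀ T : Finset κ, (T : Set κ) ⊆ I → (T.card : ℝ) ≤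
      (M + 1) * (C4 * (L + 1) ^ e) / (ν B1).toReal * Real.exp (t * (h.ent - κ0 * e)) := by
    intro T hT
    have h1 := count_le ν I (fun c => h.star (Xc c) '' (h.dlu (-t) '' B1))
      (fun c _ => (hcomp _).measurableSet) (v := ENNReal.ofReal (Real.exp (-t * h.ent)) * ν B1)
      (fun c _ => by rw [measure_image_star, measure_image_dlu])
      (S := {X ∈ W' | |ev (exp X.1)| ≤ τ})
      (hW'c.measurableSet.inter (isClosed_le hcont.abs continuous_const).measurableSet)
      ?_ (M := M) ?_ T hT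
    · have h2 := h1.trans (mul_le_mul_right (hsub τ hτ0) _)
      rw [← ENNReal.ofReal_toReal hBt, ← ENNReal.ofReal_natCast, ← ENNReal.ofReal_natCast,
        ← ENNReal.ofReal_mul (by positivity), ← ENNReal.ofReal_mul (by positivity),
        ← ENNReal.ofReal_mul (by positivity), ENNReal.ofReal_le_ofReal_iff (by positivity),
        ← he] at h2
      have h3 : τ ^ e = (L + 1) ^ e * Real.exp (-κ0 * t * e) := by
        rw [hτ, Real.mul_rpow (by positivity) (by positivity), ← Real.exp_mul]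
      have h4 : Real.exp (t * (h.ent - κ0 * e)) * Real.exp (-t * h.ent) =
          Real.exp (-κ0 * t * e) := by
        rw [← Real.exp_add]
        congr 1
        ring
      rw [h3, ← h4] at h2
      rw [div_mul_eq_mul_div, le_div_iff₀ hb]
      refine le_of_mul_le_mul_right ?_ (Real.exp_pos (-t * h.ent))
      have h5 : 0 < C4 * ((L + 1) ^ e *
          (Real.exp (t * (h.ent - κ0 * e)) * Real.exp (-t * h.ent))) := by positivity
      nlinarith
    · rintro c hc' _ ⟨_, ⟨Y, hY, rfl⟩, rfl⟩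
      have h6 : ‖h.dlu (-t) Y‖ ≤ Real.exp (-κ0 * t) :=
        (hdl t ht Y).trans (mul_le_of_le_one_right (Real.exp_pos _).le hY)
      have h7 : ‖h.dlu (-t) Y‖ ≤ 1 := h6.trans (Real.exp_le_one_iff.2 (by nlinarith))
      have h8 := hR _ (hXc c hc').1.1
      refine ⟨⟨(Xc c, h.dlu (-t) Y), ⟨h8, h7⟩, rfl⟩, ?_⟩
      have h9 := hL.dist_le_mul ((Xc c).1, (h.dlu (-t) Y).1)
        ⟨mem_closedBall_zero_iff.2 h8, mem_closedBall_zero_iff.2 h7⟩ ((Xc c).1, 0)
        ⟨mem_closedBall_zero_iff.2 h8, Metric.mem_closedBall_self zero_le_one⟩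
      rw [dist_prod_same_left, dist_zero_right, exp_zero, mul_one, (hXc c hc').1.2,
        Real.dist_eq, sub_zero] at h9
      rw [exp_star]
      refine h9.trans ?_
      have h10 : ‖(h.dlu (-t) Y).1‖ ≤ Real.exp (-κ0 * t) := h6
      nlinarith [Real.exp_pos (-κ0 * t), L.2, norm_nonneg (h.dlu (-t) Y).1]
    · intro X
      refine le_trans (encard_le_encard ?_) (hM (h.dlu t X))
      rintro c ⟨hc', _, ⟨Y, hY, rfl⟩, rfl⟩
      refine ⟨h.dlu t (Xc c), ⟨-Y, by simpa [hB1] using hY, ?_⟩, (hXc c hc').2⟩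
      rw [dlu_star, ← dlu_add, add_neg_cancel, dlu_zero, star_assoc, star_neg_self, star_zero]
  have hfin : I.Finite := by
    obtain ⟨N, hN⟩ := exists_nat_ge ((M + 1) * (C4 * (L + 1) ^ e) / (ν B1).toReal *
      Real.exp (t * (h.ent - κ0 * e)))
    refine finite_of_encard_le_coe (k := N) (encard_le_of_finset fun T hT => ?_)
    exact_mod_cast (key T hT).trans hN
  refine ⟨hfin.toFinset, key _ (by simp), fun X hX h0' => ?_⟩
  rw [Finite.mem_toFinset]
  exact ⟨X, ⟨hX, h0'⟩, rfl⟩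

end NilSub

end Pool.Agent.P.MP_d483fb_an.Z.NE

end

end

section

/-!
Leafwise measures from an increasing partition of a set of positive measure.
-/

namespace Pool.Agent.P.MP_d483fb_an.Z

open MeasureTheory ProbabilityTheory Set Filter
open scoped ENNReal

variable {X M : Type*} [MeasurableSpace X] {μ : Measure X} [IsFiniteMeasure μ]

theorem ae_frequently_of_ergodic {T : X → X} (hT : Ergodic T μ) {A : Set X}
    (hA : MeasurableSet A) (h0 : μ A ≠ 0) : ∀ᵐ x ∂μ, ∃ᶠ n in atTop, T^[n] x ∈ A := by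
  filter_upwards [ae_visit_of_ergodic hT hA h0,
    hT.toMeasurePreserving.conservative.ae_forall_image_mem_imp_frequently_image_mem
      hA.nullMeasurableSet] with x ⟨n, hn⟩ h
  exact h n hn

omit [IsFiniteMeasure μ] in
theorem exists_piece_ne_zero {Y : Set X} (h0 : μ Y ≠ 0) {P : ℕ → X → Prop}
    (h : ∀ x ∈ Y, ∃ j, P j x) : ∃ j, μ (Y ∩ {x | P j x}) ≠ 0 := by
  by_contra hc
  refine h0 (measure_mono_null (t := ⋃ j, Y ∩ {x | P j x}) (fun x hx => ?_)
    (measure_iUnion_null fun j => not_not.1 fun h1 => hc ⟨j, h1⟩))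
  obtain ⟨j, hj⟩ := h x hx
  exact mem_iUnion.2 ⟨j, hx, hj⟩

/-- The time since the last visit to `K`. -/
noncomputable def lastVis (a : X ≃ᵐ X) (K : Set X) (x : X) : ℕ := sInf {j | a.symm^[j] x ∈ K}

variable {a : X ≃ᵐ X} {K : Set X}

theorem lastVis_of_mem {x : X} (hx : x ∈ K) : lastVis a K x = 0 :=
  Nat.sInf_eq_zero.2 (Or.inl hx)

theorem lastVis_mem {x : X} (hx : ∃ j, a.symm^[j] x ∈ K) : a.symm^[lastVis a K x] x ∈ K :=
  Nat.sInf_mem (s := {j | a.symm^[j] x ∈ K}) hx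

theorem lastVis_succ {x : X} (hx : ∃ j, a.symm^[j] x ∈ K) (h : a x ∉ K) :
    lastVis a K (a x) = lastVis a K x + 1 := by
  have h1 : ∀ j, a.symm^[j + 1] (a x) = a.symm^[j] x := fun j => by
    rw [Function.iterate_succ_apply, a.symm_apply_apply]
  refine le_antisymm (Nat.sInf_le (show _ ∈ K from h1 _ ▸ lastVis_mem hx)) ?_
  have h2 := lastVis_mem (a := a) (x := a x) ⟨_, h1 _ ▸ lastVis_mem hx⟩
  generalize lastVis a K (a x) = m at h2
  cases m with
  | zero => exact absurd h2 h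
  | succ m => exact Nat.succ_le_succ (Nat.sInf_le (show _ ∈ K from h1 m ▸ h2))

theorem firstRet_lastVis {x : X} (h : a x ∈ K) :
    firstRet a K (a.symm^[lastVis a K x] x) = a x := by
  have h1 : ∀ i j, a^[i] (a.symm^[j + i] x) = a.symm^[j] x := fun i j => by
    rw [add_comm, Function.iterate_add_apply, iterate_apply_symm]
  have h2 : a^[lastVis a K x + 1] (a.symm^[lastVis a K x] x) = a x := by
    rw [Function.iterate_succ_apply', iterate_apply_symm]
  have h3 : retTime a K (a.symm^[lastVis a K x] x) = lastVis a K x + 1 := by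
    refine retTime_eq_succ.2 ⟨fun i h0 hi hm => ?_, h2 ▸ h⟩
    obtain ⟨j, hj⟩ := Nat.exists_eq_add_of_le' hi
    rw [hj, h1] at hm
    have : lastVis a K x ≤ j := Nat.sInf_le hm
    omega
  rw [firstRet, h3, h2]

theorem measurable_lastVis (hK : MeasurableSet K) : Measurable (lastVis a K) := by
  have hm : ∀ j, MeasurableSet {x | a.symm^[j] x ∈ K} := fun j => a.symm.measurable.iterate j hK
  refine measurable_to_countable' fun n => ?_
  have : lastVis a K ⁻¹' {n} = ({x | a.symm^[n] x ∈ K} ∩ ⋂ j, ⋂ _ : j < n, {x | a.symm^[j] x ∈ K}ᶜ) ∪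
      ((⋂ j, {x | a.symm^[j] x ∈ K}ᶜ) ∩ {_x | n = 0}) := by
    ext x
    simp only [mem_preimage, mem_singleton_iff, mem_union, mem_inter_iff, mem_iInter,
      mem_compl_iff, mem_ofPred_eq]
    by_cases hx : ∃ j, a.symm^[j] x ∈ K
    · refine ⟨fun h => Or.inl ⟨h ▸ lastVis_mem hx, fun j hj h1 => ?_⟩, ?_⟩
      · have : lastVis a K x ≤ j := Nat.sInf_le h1
        omega
      · rintro (⟨h1, h2⟩ | ⟨h1, -⟩)
        · exact le_antisymm (Nat.sInf_le h1) (not_lt.1 fun h => h2 _ h (lastVis_mem hx))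
        · exact absurd hx.choose_spec (h1 _)
    · have h0 : lastVis a K x = 0 :=
        Nat.sInf_eq_zero.2 (Or.inr (eq_empty_of_forall_notMem fun j hj => hx ⟨j, hj⟩))
      exact ⟨fun h => Or.inr ⟨fun j hj => hx ⟨j, hj⟩, h ▸ h0⟩,
        fun h => h.elim (fun h => absurd ⟨n, h.1⟩ hx) fun h => h.2 ▸ h0⟩
  rw [this]
  exact ((hm n).inter (.iInter fun j => .iInter fun _ => (hm j).compl)).union
    ((MeasurableSet.iInter fun j => (hm j).compl).inter (.const _))

open Classical in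
/-- The label on the whole space attached to an increasing partition of `K`. -/
theorem Box.exists_nest {X0 : Set X} {R : X → X → Prop} {N : X → X → ℝ} {s al : X → X → M}
    {zeta : X → BoxLab X} {d : X → ℕ} {del : X → ℝ} {Y : Set X}
    (hb : Box μ a X0 R N s al K zeta d del Y) (herg : Ergodic a μ)
    (hN : Measurable (Function.uncurry N)) (symm : ∀ x y, R x y → R y x)
    (trans : ∀ x y z, R x y → R y z → R x z) (relA : ∀ x y, R x y → R (a x) (a y))
    (relB : ∀ x y, R x y → R (a.symm x) (a.symm y)) {Bd : X → ℝ} (hBd : Measurable Bd)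
    (bd : ∀ x ∈ K, ∀ y ∈ K, zeta x = zeta y → N x y ≤ Bd x)
    (con : ∀ x r δ, 0 < δ → ∀ᶠ k in atTop, ∀ y, R x y → N x y < r →
      N (a.symm^[k] x) (a.symm^[k] y) < δ)
    (con' : ∀ x r δ, 0 < δ → ∀ᶠ k in atTop, ∀ y, R x y → N (a^[k] x) (a^[k] y) ≤ r → N x y < δ) :
    ∃ Y', Nest μ a R N (fun x => (lastVis a K x, zeta (a.symm^[lastVis a K x] x)))
      (fun x => if a x ∈ K then d (a.symm^[lastVis a K x] x) + 1 else 0) Y' := by
  have hp := herg.toMeasurePreserving
  have hY0 : μ Y ≠ 0 := fun h0 => hb.posK (measure_eq_zero_iff_ae_notMem.2 (by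
    filter_upwards [hb.aeY, measure_eq_zero_iff_ae_notMem.1 h0] with x h1 h2 h3
    exact h2 (h1 h3)))
  obtain ⟨j, hj⟩ := exists_piece_ne_zero hY0 (P := fun j x => 1 / ((j : ℝ) + 1) < del x)
    fun x hx => exists_nat_one_div_lt (hb.inner x hx).1
  obtain ⟨j', hj'⟩ := exists_piece_ne_zero hY0 (P := fun j x => Bd x ≤ (j : ℝ))
    fun x _ => exists_nat_ge _
  obtain ⟨Y', h1, h2, h3, h4⟩ := exists_inv_conull hp (G := {x | (x ∈ K → x ∈ Y) ∧
      (∃ᶠ n in atTop, a.symm^[n] x ∈ Y ∩ {x | 1 / ((j : ℝ) + 1) < del x}) ∧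
      ∃ᶠ n in atTop, a^[n] x ∈ Y ∩ {x | Bd x ≤ (j' : ℝ)}})
    (hb.aeY.and ((ae_frequently_of_ergodic herg.symm
      (hb.measY.inter (measurableSet_lt measurable_const hb.measDel)) hj).and
      (ae_frequently_of_ergodic herg
        (hb.measY.inter (measurableSet_le hBd measurable_const)) hj')))
  have hv : ∀ x ∈ Y', ∃ j, a.symm^[j] x ∈ K := fun x hx =>
    (h2 hx).2.1.exists.imp fun n hn => hb.subK hn.1
  have hl := measurable_lastVis (a := a) hb.measK
  have hm : Measurable fun x => a.symm^[lastVis a K x] x :=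
    (measurable_from_prod_countable_left (f := fun p : X × ℕ => a.symm^[p.2] p.1)
      a.symm.measurable.iterate).comp (measurable_id.prodMk hl)
  have relA' : ∀ k x y, R x y → R (a^[k] x) (a^[k] y) := fun k => by
    induction k with
    | zero => exact fun _ _ h => h
    | succ k ih => exact fun x y h => ih _ _ (relA x y h)
  have relB' : ∀ k x y, R x y → R (a.symm^[k] x) (a.symm^[k] y) := fun k => by
    induction k with
    | zero => exact fun _ _ h => h
    | succ k ih => exact fun x y h => ih _ _ (relB x y h)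
  have hz : ∀ x ∈ K, ∀ y ∈ K, zeta x = zeta y → R x y := fun x hx y hy e =>
    trans _ _ _ (symm _ _ (hb.ref x hx).2.1) (e ▸ (hb.ref y hy).2.1)
  have hs : ∀ j x, a.symm^[j + 1] (a x) = a.symm^[j] x := fun j x => by
    rw [Function.iterate_succ_apply, a.symm_apply_apply]
  have hK0 : ∀ y ∈ Y', lastVis a K y = 0 → y ∈ K := fun y hy h0 => by
    simpa [h0] using lastVis_mem (hv y hy)
  refine ⟨Y', hp, hN, hl.prodMk (hb.measZeta.comp hm), Measurable.ite (a.measurable hb.measK)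
    ((hb.measD.comp hm).add_const 1) measurable_const, h1, h3, h4, fun x _ y _ => relA x y,
    fun x hx y hy e => ?_, fun x hx y hy e => ?_, fun x hx y hy e e' => ?_, fun x hx r => ?_,
    fun x hx r hr => ?_⟩
  · obtain ⟨e1, e2⟩ := Prod.mk.inj e
    have := relA' (lastVis a K x) _ _ (hz _ (lastVis_mem (hv x hx)) _ (lastVis_mem (hv y hy)) e2)
    rwa [iterate_apply_symm, e1, iterate_apply_symm] at this
  · obtain ⟨e1, e2⟩ := Prod.mk.inj e
    by_cases hK : a x ∈ K
    · have hK' : a y ∈ K := hK0 _ ((h4 y).2 hy) (e1 ▸ lastVis_of_mem hK)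
      rw [lastVis_of_mem hK, lastVis_of_mem hK'] at e2
      have b1 := fun j => hb.back _ hK _ hK' e2 (j + 1)
      have b2 := fun j => hb.back _ hK' _ hK e2.symm (j + 1)
      simp only [hs] at b1 b2
      have e3 : lastVis a K x = lastVis a K y :=
        congrArg sInf (Set.ext fun j => ⟨fun h => (b1 j h).1, fun h => (b2 j h).1⟩)
      exact Prod.ext e3 (by simpa only [← e3] using (b1 _ (lastVis_mem (hv x hx))).2)
    · have hK' : a y ∉ K := fun h => hK (hK0 _ ((h4 x).2 hx) (e1.trans (lastVis_of_mem h)))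
      rw [lastVis_succ (hv x hx) hK, lastVis_succ (hv y hy) hK'] at e1 e2
      rw [hs, hs] at e2
      exact Prod.ext (Nat.succ_injective e1) e2
  · obtain ⟨e1, e2⟩ := Prod.mk.inj e
    by_cases hK : a x ∈ K <;> by_cases hK' : a y ∈ K <;> simp only [hK, hK', if_true, if_false] at e'
    · have hx' := (h2 ((inv_iterate_symm h4 _ x).2 hx)).1 (lastVis_mem (hv x hx))
      have hy' := (h2 ((inv_iterate_symm h4 _ y).2 hy)).1 (lastVis_mem (hv y hy))
      have := (hb.inc _ hx' _ hy').2 ⟨e2, Nat.succ_injective e'⟩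
      rw [firstRet_lastVis hK, firstRet_lastVis hK'] at this
      rw [lastVis_of_mem hK, lastVis_of_mem hK']
      exact Prod.ext rfl this
    · omega
    · omega
    · rw [lastVis_succ (hv x hx) hK, lastVis_succ (hv y hy) hK', hs, hs, e2, e1]
  · obtain ⟨k, ⟨b1, b2⟩, b3⟩ := ((h2 hx).2.1.and_eventually
      (con x r (1 / ((j : ℝ) + 1)) Nat.one_div_pos_of_nat)).exists
    refine ⟨k, fun y _ r1 r2 => ?_⟩
    obtain ⟨c1, c2⟩ := (hb.inner _ b1).2 _ (relB' k x y r1) ((b3 y r1 r2).trans b2)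
    rw [lastVis_of_mem c1, lastVis_of_mem (hb.subK b1)]
    exact Prod.ext rfl c2
  · obtain ⟨k, ⟨b1, b2⟩, b3⟩ := ((h2 hx).2.2.and_eventually (con' x j' r hr)).exists
    refine ⟨k, fun y hy e => ?_⟩
    obtain ⟨e1, e2⟩ := Prod.mk.inj e
    have hK := hb.subK b1
    have hK' : a^[k] y ∈ K := hK0 _ ((inv_iterate h4 k y).2 hy) (e1.trans (lastVis_of_mem hK))
    rw [lastVis_of_mem hK, lastVis_of_mem hK'] at e2
    have := relB' k _ _ (hz _ hK _ hK' e2.symm)
    rw [iterate_symm_apply, iterate_symm_apply] at this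
    exact b3 y this ((bd _ hK _ hK' e2.symm).trans b2)

end Pool.Agent.P.MP_d483fb_an.Z


end

section

/-!
Leafwise measures of a leaf structure.
-/

open scoped Matrix Matrix.Norms.Operator Topology ENNReal
open MeasureTheory ProbabilityTheory Filter Set

noncomputable section

namespace Pool.Agent.P.MP_d483fb_an.Z

namespace Pre

variable {X : Type} [MeasurableSpace X] {μ : Measure X} {ι : Type} [Fintype ι] [DecidableEq ι]
  {S : Pre X μ ι} {J : Set ℝ}

/-- The good set of a family of leafwise measures can be chosen inside any conull set. -/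
theorem Leafwise.shrink (o : S.Leafwise J) {G : Set X} (hG : ∀ᵐ x ∂μ, x ∈ G) :
    ∃ o' : S.Leafwise J, o'.om = o.om ∧ o'.X1 ⊆ o.X1 ∧ o'.X1 ⊆ G := by
  obtain ⟨X2, h1, h2, h3⟩ := o.lw.shrink S.ergodic_aE.toMeasurePreserving hG
  exact ⟨⟨o.om, X2, h3, h1.trans o.sub1⟩, rfl, h1, h2⟩

theorem Leafwise.a_mem (o : S.Leafwise J) (i : ℤ) {x : X} (hx : x ∈ o.X1) : S.a i x ∈ o.X1 := by
  obtain ⟨k, rfl | rfl⟩ := i.eq_nat_or_neg
  · exact S.aE_iterate k x ▸ (o.lw.iterate_mem k x).2 hx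
  · exact S.aE_symm_iterate k x ▸ (o.lw.symm.iterate_mem k x).2 hx

/-- Equivariance under all the powers of the expanding transformation. -/
theorem Leafwise.equiv_a (o : S.Leafwise J) (i : ℤ) {x : X} (hx : x ∈ o.X1) :
    ∃ c : ℝ≥0∞, c ≠ 0 ∧ c ≠ ∞ ∧ o.om (S.a i x) = c • (o.om x).map (S.a i) := by
  obtain ⟨k, rfl | rfl⟩ := i.eq_nat_or_neg
  · have := o.lw.equiv_iterate k hx
    rwa [funext (S.aE_iterate k)] at this
  · have := o.lw.symm.equiv_iterate k hx
    rwa [funext (S.aE_symm_iterate k)] at this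

theorem eventually_mul_exp_lt (A c : ℝ) (hc : 0 < c) {δ : ℝ} (hδ : 0 < δ) :
    ∀ᶠ k : ℕ in atTop, A * Real.exp (-(k * c)) < δ := by
  have h := (Real.tendsto_exp_neg_atTop_nhds_zero.comp
    (tendsto_natCast_atTop_atTop.atTop_mul_const hc)).const_mul A
  rw [mul_zero] at h
  exact h.eventually (gt_mem_nhds hδ)

variable {ε : ℝ} {q : X → ℝ}

/-- Bounded pieces of leaves shrink in the past. -/
theorem Temp.eventually_back (hq : S.Temp ε q) (hε : 0 ≤ ε) (hε' : S.w.C * ε ≤ 1 / 2) (x : X)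
    (r : ℝ) {δ : ℝ} (hδ : 0 < δ) : ∀ᶠ k : ℕ in atTop, ∀ y, S.R x y → S.N x y ≤ r →
      S.N (S.a (-k) x) (S.a (-k) y) < δ := by
  filter_upwards [eventually_mul_exp_lt (S.w.C * q x ^ S.w.C * r) (1 / 2) one_half_pos hδ]
    with k hk y h1 h2
  refine (hq.N_back_le hε hε' h1 k).trans_lt (lt_of_le_of_lt ?_ hk)
  have hC := S.w.C_pos
  have hx := hq.pos x
  rw [mul_right_comm, mul_one_div]
  gcongr

/-- Points that are at bounded distance in the far future are close. -/
theorem Temp.eventually_fwd (hq : S.Temp ε q) (hε : 0 ≤ ε) (hε' : S.w.C * ε ≤ 1 / 4) (x : X)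
    (r : ℝ) {δ : ℝ} (hδ : 0 < δ) : ∀ᶠ k : ℕ in atTop, ∀ y, S.R x y →
      S.N (S.a k x) (S.a k y) ≤ r → S.N x y < δ := by
  filter_upwards [eventually_mul_exp_lt (S.w.C * q x ^ S.w.C * r) (1 / 4) (by norm_num) hδ]
    with k hk y h1 h2
  have h3 := hq.N_back_le hε (by linarith) (R_a h1 k) k
  rw [a_neg_a, a_neg_a] at h3
  refine h3.trans_lt (lt_of_le_of_lt ?_ hk)
  have hC := S.w.C_pos
  have hx := hq.pos x
  have hx' := hq.pos (S.a k x)
  have h4 := hq.slow x (R_mem_left h1) k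
  have hN := S.N_nonneg (S.a k x) (S.a k y)
  have hk0 : (0 : ℝ) ≤ k := Nat.cast_nonneg k
  have h5 : q (S.a k x) ^ S.w.C ≤ q x ^ S.w.C * Real.exp (k * (1 / 4)) := by
    refine (Real.rpow_le_rpow hx'.le h4 hC.le).trans ?_
    rw [Real.mul_rpow hx.le (Real.exp_pos _).le, ← Real.exp_mul, Int.cast_natCast, Nat.abs_cast]
    exact mul_le_mul_of_nonneg_left (Real.exp_le_exp.2 (by nlinarith))
      (Real.rpow_nonneg hx.le _)
  calc _ ≤ S.w.C * (q x ^ S.w.C * Real.exp (k * (1 / 4))) * Real.exp (-(k / 2)) * r := by gcongr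
    _ = S.w.C * q x ^ S.w.C * r * (Real.exp (k * (1 / 4)) * Real.exp (-(k / 2))) := by ring
    _ = _ := by
      rw [← Real.exp_add]
      congr 2
      ring

/-- Two points in the unit ball of the same chart are at bounded distance. -/
theorem N_le_of_ref {z x y : X} (hx : S.R z x) (hy : S.R z y) (h1 : S.N z x ≤ 1)
    (h2 : S.N z y ≤ 1) :
    S.N x y ≤ S.w.C * (1 + ‖S.l x z‖ + ‖S.l z x‖) ^ S.w.C * (S.w.C * S.w.C) := by
  have hC := S.w.one_le_C
  have n1 := norm_nonneg (S.l x z)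
  have n2 := norm_nonneg (S.l z x)
  have hi := (n_nil hx).inv ordConnected_univ
  rw [N, n_eq_conj hx (S.R_trans _ _ _ (S.R_symm _ _ hx) hy)]
  refine ((hi.mul ordConnected_univ (n_nil hy)).N_conj_le (S.l_lev _ _) (S.l_lev _ _)
    (B := 1 + ‖S.l x z‖ + ‖S.l z x‖) (by linarith) (by linarith) (by linarith)).trans ?_
  refine mul_le_mul_of_nonneg_left (hi.N_mul_le (n_nil hy) ((n_nil hx).N_inv_le.trans ?_)
    (h2.trans hC)) (by positivity)
  exact mul_le_of_le_one_right (by linarith) h1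

end Pre

variable {X : Type} [MeasurableSpace X] [StandardBorelSpace X] {μ : Measure X}
  [IsProbabilityMeasure μ] {ι : Type} [Fintype ι] [DecidableEq ι]

/-- Leafwise measures from an increasing partition. -/
theorem LS.leafwise_of_box (S : LS X μ ι) {J : Set ℝ} (hJ : J.OrdConnected) {M : Type*}
    {s al : X → X → M} {K : Set X} {zeta : X → BoxLab X} {d : X → ℕ} {del : X → ℝ} {Y : Set X}
    (hb : Box μ S.aE S.X0 (S.RJ J) S.N s al K zeta d del Y) : Nonempty (S.Leafwise J) := by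
  have : Nonempty X := nonempty_of_isProbabilityMeasure μ
  have hC := S.w.C_pos
  obtain ⟨q, hq, -⟩ := S.temp (1 / 4 / S.w.C) (by positivity)
  have h0 : 0 ≤ 1 / 4 / S.w.C := by positivity
  have h1 : S.w.C * (1 / 4 / S.w.C) ≤ 1 / 4 := le_of_eq (by field_simp)
  have hz : Measurable fun x => (zeta x).1 := measurable_fst.comp hb.measZeta
  have hn : Measurable fun A : Matrix ι ι ℝ => ‖A‖ :=
    (show Continuous fun A : Matrix ι ι ℝ => ‖A‖ from continuous_norm).measurable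
  obtain ⟨Y', hY'⟩ := hb.exists_nest S.ergodic_aE S.measurable_N (fun x y => Pre.RJ.symm hJ)
    (fun x y z => Pre.RJ.trans hJ) (fun x y h => h.f _) (fun x y h => h.f _)
    (Bd := fun x => S.w.C * (1 + ‖S.l x (zeta x).1‖ + ‖S.l (zeta x).1 x‖) ^ S.w.C *
      (S.w.C * S.w.C))
    ((((((hn.comp (Pre.measurable_l_comp measurable_id hz)).const_add 1).add
      (hn.comp (Pre.measurable_l_comp hz measurable_id))).pow_const _).const_mul _).mul_const _)
    (fun x hx y hy e => Pre.N_le_of_ref (hb.ref x hx).2.1.1 (e ▸ (hb.ref y hy).2.1.1)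
      (hb.ref x hx).2.2 (e ▸ (hb.ref y hy).2.2))
    (fun x r δ hδ => (hq.eventually_back h0 (by linarith) x r hδ).mono fun k hk y r1 r2 => by
      rw [Pre.aE_symm_iterate, Pre.aE_symm_iterate]
      exact hk y r1.1 r2.le)
    (fun x r δ hδ => (hq.eventually_fwd h0 h1 x r hδ).mono fun k hk y r1 r2 => by
      rw [Pre.aE_iterate, Pre.aE_iterate] at r2
      exact hk y r1.1 r2)
  obtain ⟨om, X1, -, h⟩ := hY'.exists_leafwise
  obtain ⟨X2, -, h2, h3⟩ := h.shrink S.ergodic_aE.toMeasurePreserving S.ae0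
  exact ⟨⟨om, X2, h3, h2⟩⟩

/-- Leafwise measures for all intervals of slopes, from the existence of rectangle partitions. -/
theorem LS.hasLW_of_box (S : LS X μ ι) (hbox : ∀ (J : Set ℝ) (χ : ℝ), J.OrdConnected →
    Wt.Extreme J χ → ∃ K zeta d del Y, Box μ S.aE S.X0 (S.RJ J) S.N
      (fun w y => S.w.pr χ (S.n w y)) (fun w y => S.w.al χ (S.n w y)) K zeta d del Y) :
    S.HasLW := by
  intro J hJ
  obtain ⟨χ, hχ⟩ := (Finite.bddBelow_range fun p : ι × ι => S.w.slope p.1 p.2)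
  have e : S.RJ (J ∩ Ici χ) = S.RJ J := by
    funext x y
    refine propext ⟨fun h => h.mono inter_subset_left, fun h => ⟨h.1, fun i j hij => ?_⟩⟩
    exact ⟨(h.2 i j hij).1, (h.2 i j hij).2, hχ ⟨(i, j), rfl⟩⟩
  obtain ⟨K, zeta, d, del, Y, hb⟩ := hbox (J ∩ Ici χ) χ (hJ.inter ordConnected_Ici)
    (Or.inl fun σ hσ => hσ.2)
  rw [e] at hb
  exact S.leafwise_of_box hJ hb

end Pool.Agent.P.MP_d483fb_an.Z

end

end

section

/-!
From plaques to whole leaves.
-/

open scoped Matrix Matrix.Norms.Operator InnerProductSpace RealInnerProductSpace Topology ENNReal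
open MeasureTheory ProbabilityTheory NormedSpace Filter Set

set_option linter.unusedSectionVars false

noncomputable section

namespace Pool.Agent.P.MP_d483fb_an.Z

open Pool.Agent.P.MP_d483fb_an.Z.NE

namespace Pre

variable {X : Type} [MeasurableSpace X] {μ : Measure X} {ι : Type} [Fintype ι] [DecidableEq ι]
  {S : Pre X μ ι} {Z : Type} {K : Set X} {lab : X → Z} {r : ℝ}

/-- A leaf contains countably many plaques. -/
theorem plaque_cover (hr : 0 < r)
    (hK : ∀ y ∈ K, ∀ y' ∈ K, S.R y y' → S.N y y' ≤ r → lab y = lab y') (x : X) {A : Set X}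
    (hA : A ⊆ K) : ∃ C : Set X, C.Countable ∧ (∀ z ∈ C, z ∈ A ∧ S.R x z) ∧
      ∀ y ∈ A, S.R x y → ∃ z ∈ C, lab y = lab z := by
  obtain ⟨C, hC, hc, he⟩ := TopologicalSpace.isOpen_biUnion_countable {z | z ∈ A ∧ S.R x z}
    (fun z => {M : Matrix ι ι ℝ | S.w.N (S.l z x * ((S.n x z)⁻¹ * M) * S.l x z) < r})
    fun z _ => isOpen_lt (S.w.continuous_N.comp (by fun_prop)) continuous_const
  refine ⟨C, hc, hC, fun y hy hxy => ?_⟩
  have h1 : S.n x y ∈ ⋃ z ∈ {z | z ∈ A ∧ S.R x z},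
      {M : Matrix ι ι ℝ | S.w.N (S.l z x * ((S.n x z)⁻¹ * M) * S.l x z) < r} := by
    refine mem_biUnion (x := y) ⟨hy, hxy⟩ ?_
    have h2 := S.R_refl y (R_mem_right hxy)
    rw [mem_ofPred_eq, ← n_eq_conj hxy h2]
    exact (N_self (R_mem_right hxy)).trans_lt hr
  rw [← he] at h1
  obtain ⟨z, hz, h3⟩ := mem_iUnion₂.1 h1
  have h4 := S.R_trans z x y (S.R_symm x z (hC hz).2) hxy
  rw [mem_ofPred_eq, ← n_eq_conj (hC hz).2 h4] at h3
  exact ⟨z, hz, (hK z (hA (hC hz).1) y (hA hy) h4 h3.le).symm⟩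

theorem Leafwise.null_of_plaques (o : S.Leafwise univ) (hr : 0 < r)
    (hK : ∀ y ∈ K, ∀ y' ∈ K, S.R y y' → S.N y y' ≤ r → lab y = lab y') {x : X} (hx : x ∈ o.X1)
    {A E : Set X} (hA : A ⊆ K) (hA1 : A ⊆ o.X1)
    (h : ∀ z ∈ A, S.R x z → o.om z {y | y ∈ K ∧ lab y = lab z ∧ y ∈ E} = 0) :
    o.om x (A ∩ E) = 0 := by
  obtain ⟨C, hc, h1, h2⟩ := plaque_cover hr hK x hA
  have h3 : o.om x (⋃ z ∈ C, {y | y ∈ K ∧ lab y = lab z ∧ y ∈ E}) = 0 := by
    refine (measure_biUnion_null_iff hc).2 fun z hz => ?_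
    rw [(o.lw.prop x hx z (hA1 (h1 z hz).1) (RJ_univ.2 (h1 z hz).2)).2.2, Measure.smul_apply,
      h z (h1 z hz).1 (h1 z hz).2, smul_zero]
  refine le_antisymm ((measure_mono_ae ?_).trans h3.le) zero_le
  filter_upwards [o.lw.carried x hx] with y hy hy'
  obtain ⟨z, hz, he⟩ := h2 y hy'.1 hy.2.1
  exact mem_biUnion hz ⟨hA hy'.1, he, hy'.2⟩

variable [MeasurableSpace Z] [StandardBorelSpace Z]

/-- Almost every plaque has positive leafwise measure. -/
theorem Leafwise.ae_plaque_pos (o : S.Leafwise univ) (hr : 0 < r) (hKm : MeasurableSet K)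
    (hl : Measurable lab)
    (hK : ∀ y ∈ K, ∀ y' ∈ K, S.R y y' → S.N y y' ≤ r → lab y = lab y') :
    ∀ᵐ x ∂μ, x ∈ K → o.om x {y | y ∈ K ∧ lab y = lab x} ≠ 0 := by
  have := o.lw.sfin
  have hm : Measurable fun x => o.om x {y | y ∈ K ∧ lab y = lab x} :=
    Kernel.measurable_kernel_prodMk_left (κ := o.om)
      (t := {p : X × X | p.2 ∈ K ∧ lab p.2 = lab p.1}) ((measurable_snd hKm).inter
        (measurableSet_eq_fun (hl.comp measurable_snd) (hl.comp measurable_fst)))
  set Z0 : Set X := K ∩ o.X1 ∩ {x | o.om x {y | y ∈ K ∧ lab y = lab x} = 0} with hZ0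
  have hZ0m : MeasurableSet Z0 := (hKm.inter o.lw.meas).inter (hm (measurableSet_singleton 0))
  have h1 : ∀ᵐ y ∂μ, y ∉ Z0 := by
    refine o.lw.ae_of_ae_ae S.measurable_N hZ0m.compl ?_
    filter_upwards [o.lw.conull] with x hx
    have h2 := o.null_of_plaques hr hK hx (A := Z0) (E := univ) (fun _ h => h.1.1)
      (fun _ h => h.1.2) fun z hz _ => by simpa using hz.2
    rw [inter_univ] at h2
    exact compl_mem_ae_iff.2 h2
  filter_upwards [h1, o.lw.conull] with x hx hx1 hxK h0 using hx ⟨⟨hxK, hx1⟩, h0⟩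

variable [StandardBorelSpace X] [Nonempty X] [IsProbabilityMeasure μ]

/-- The conditional measures of a flow box are the restrictions of the leafwise measures. -/
theorem Leafwise.condDistrib_plaque (o : S.Leafwise univ) (hr : 0 < r) (hKm : MeasurableSet K)
    (hl : Measurable lab) {r1 : ℝ}
    (hK1 : ∀ y ∈ K, ∀ y' ∈ K, lab y = lab y' → S.R y y' ∧ S.N y y' ≤ r1)
    (hK : ∀ y ∈ K, ∀ y' ∈ K, S.R y y' → S.N y y' ≤ r → lab y = lab y') :
    ∀ᵐ x ∂μ[|K], o.om x {y | y ∈ K ∧ lab y = lab x} ≠ ∞ ∧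
      condDistrib id lab μ[|K] (lab x) = (o.om x)[|{y | y ∈ K ∧ lab y = lab x}] := by
  have h0 : ∀ x ∈ o.X1, x ∈ K → o.om x {y | y ∈ K ∧ lab y = lab x} ≠ ∞ := fun x hx hxK =>
    ne_top_of_le_ne_top (o.lw.fin x hx (r1 + 1)) (measure_mono fun y hy =>
      (hK1 x hxK y hy.1 hy.2.symm).2.trans_lt (lt_add_one r1))
  have h1 := o.lw.condDistrib_eq hKm hl
    (S := o.X1 ∩ {x | x ∈ K → o.om x {y | y ∈ K ∧ lab y = lab x} ≠ 0})
    (o.lw.conull.and (o.ae_plaque_pos hr hKm hl hK)) (fun x hx hxK => ⟨hx.2 hxK, h0 x hx.1 hxK⟩)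
    (fun x _ y _ hx hy he => RJ_univ.2 (hK1 x hx y hy he).1) μ[|K] (c := (μ K)⁻¹) rfl
  filter_upwards [h1, ae_cond_mem hKm, cond_absolutelyContinuous o.lw.conull] with x h2 h3 h4
    using ⟨h0 x h4 h3, h2⟩

end Pre

variable {G : Type} [Group G] [TopologicalSpace G] {n k : ℕ} {D : Std G n k} {B : Type}
  [TopologicalSpace B] [MeasurableSpace B] [MulAction G B] {X : Type} [MetricSpace X]
  [MeasurableSpace X] [MulAction G X] {μ : Measure X} {κ : Type} [Fintype κ] [DecidableEq κ]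

theorem blk_mul' {a b : Matrix (Fin n ⊕ κ) (Fin n ⊕ κ) ℝ} (hb : b.toBlocks₂₁ = 0) :
    (a * b).toBlocks₁₁ = a.toBlocks₁₁ * b.toBlocks₁₁ := by
  ext i j
  have h : ∀ m, b (.inr m) (.inl j) = 0 := fun m => congrFun (congrFun hb m) j
  simp [Matrix.toBlocks₁₁, Matrix.mul_apply, h]

theorem Std.undo_dl (D : Std G n k) (s : Euc k) (t : ℝ) (M : Mat n) :
    D.ρ (D.a ((-t) • s)) * dl (D.wOf s) t M * D.ρ (D.a (t • s)) = M := by
  ext i j
  rw [D.ρ_a_diag, D.ρ_a_diag, Matrix.mul_diagonal, Matrix.diagonal_mul, dl_apply, ← mul_assoc,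
    mul_right_comm, ← Real.exp_add, ← Real.exp_add]
  simp only [inner_smul_right, Std.wOf]
  ring_nf
  simp

theorem GeoPre.blk_back (S : GeoPre D B X μ κ) {x y : X} (h : S.R x y) (i : ℤ) :
    (S.T x y).toBlocks₁₁ = D.ρ (D.a ((-(i : ℝ)) • S.Ha)) *
      (S.T (S.toPre.a i x) (S.toPre.a i y)).toBlocks₁₁ * D.ρ (D.a ((i : ℝ) • S.Ha)) := by
  have h1 := Pre.R_a h i
  have h2 := S.T_f (-((i : ℝ), 0)) _ _ h1
  have hy := Pre.R_mem_right h
  have hx := Pre.R_mem_left h1
  rw [Pre.L_inv (Pre.R_mem_right h1), neg_neg] at h2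
  simp only [Pre.a, Pre.f_neg_f] at h2 h1 hx ⊢
  rw [h2, blk_mul' (S.Gen_blk _ (S.L_mem _ y hy)).2.1,
    blk_mul' (S.Gen_blk _ (S.T_mem _ _ h1)).2.1, S.L_blk _ y hy, S.L_blk _ _ hx]
  simp

/-- The vanishing on plaques implies the vanishing on leaves. -/
theorem GeoPre.hasHP_of_plaque [StandardBorelSpace X] [Nonempty X] [IsProbabilityMeasure μ]
    (S : GeoPre D B X μ κ)
    (h : ∀ d : ℕ, ∃ (K : Set X) (lab : X → ℕ → ℝ), MeasurableSet K ∧ μ K ≠ 0 ∧ Measurable lab ∧
      (∀ y ∈ K, ∀ y' ∈ K, lab y = lab y' → S.R y y' ∧ S.toPre.N y y' ≤ 1) ∧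
      (∀ y ∈ K, ∀ y' ∈ K, S.R y y' → S.toPre.N y y' ≤ 1 → lab y = lab y') ∧
      ∀ᵐ x ∂μ[|K], ∀ F : MvPolynomial (Fin n × Fin n) ℝ, F.totalDegree ≤ d →
        (∃ Y ∈ D.np S.Ha, MvPolynomial.eval (fun p => exp Y p.1 p.2) F ≠ 0) →
        condDistrib id lab μ[|K] (lab x) {y | y ∈ K ∧ lab y = lab x ∧
          MvPolynomial.eval (fun p => (S.T x y).toBlocks₁₁ p.1 p.2) F = 0} = 0) : S.HasHP := by
  intro o
  have hs := D.nilSub_np S.Ha
  suffices H : ∀ d : ℕ, ∀ᵐ x ∂μ, ∀ F : MvPolynomial (Fin n × Fin n) ℝ, F.totalDegree ≤ d →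
      (∃ Y ∈ D.np S.Ha, MvPolynomial.eval (fun p => exp Y p.1 p.2) F ≠ 0) →
      o.om x {y | MvPolynomial.eval (fun p => (S.T x y).toBlocks₁₁ p.1 p.2) F = 0} = 0 by
    filter_upwards [ae_all_iff.2 H] with x hx F using hx _ F le_rfl
  intro d
  obtain ⟨K, lab, hKm, hK0, hl, hK1, hK, hae⟩ := h d
  have h1 : ∀ᵐ x ∂μ, x ∈ K → ∀ F : MvPolynomial (Fin n × Fin n) ℝ, F.totalDegree ≤ d →
      (∃ Y ∈ D.np S.Ha, MvPolynomial.eval (fun p => exp Y p.1 p.2) F ≠ 0) →
      o.om x {y | y ∈ K ∧ lab y = lab x ∧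
        MvPolynomial.eval (fun p => (S.T x y).toBlocks₁₁ p.1 p.2) F = 0} = 0 := by
    rw [← ae_restrict_iff' hKm, ← Measure.ae_ennreal_smul_measure_iff (c := (μ K)⁻¹)
      (ENNReal.inv_ne_zero.2 (measure_ne_top _ _))]
    filter_upwards [hae, o.condDistrib_plaque one_pos hKm hl hK1 hK] with x h2 h3 F hF hF0
    have h4 := h2 F hF hF0
    have hcm : MeasurableSet {y | y ∈ K ∧ lab y = lab x} :=
      hKm.inter (hl (measurableSet_singleton _))
    rw [h3.2, cond_apply hcm, mul_eq_zero] at h4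
    refine measure_mono_null (fun y hy => ?_) (h4.resolve_left (ENNReal.inv_ne_zero.2 h3.1))
    exact ⟨⟨hy.1, hy.2.1⟩, hy⟩
  obtain ⟨N, hN, hNm, hN0⟩ := exists_measurable_superset_of_null (ae_iff.1 h1)
  set K' : Set X := (K ∩ o.X1) \ N with hK'
  have hK'm : MeasurableSet K' := (hKm.inter o.lw.meas).diff hNm
  have hK'0 : μ K' ≠ 0 := by
    refine fun h0 => hK0 (le_antisymm ((measure_mono_ae ?_).trans h0.le) zero_le)
    filter_upwards [o.lw.conull, compl_mem_ae_iff.2 hN0] with x h2 h3 h4 using ⟨⟨h4, h2⟩, h3⟩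
  have h5 : ∀ x ∈ o.X1, ∀ F : MvPolynomial (Fin n × Fin n) ℝ, F.totalDegree ≤ d →
      (∃ Y ∈ D.np S.Ha, MvPolynomial.eval (fun p => exp Y p.1 p.2) F ≠ 0) →
      o.om x (K' ∩ {y | MvPolynomial.eval (fun p => (S.T x y).toBlocks₁₁ p.1 p.2) F = 0}) = 0 := by
    rintro x hx F hF ⟨Y, hY, hY0⟩
    refine o.null_of_plaques one_pos hK hx (fun _ h => h.1.1) (fun _ h => h.1.2) fun z hz hxz => ?_
    obtain ⟨Y0, hY0m, hY0e, -⟩ := S.P0 x z hxz
    obtain ⟨F2, hF2, hF2e⟩ := exists_translate F (exp (-Y0)) 1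
    have h6 := (not_not.1 fun h' => hz.2 (hN h')) hz.1.1 F2 (hF2.trans hF)
      ⟨_, (hs.star ⟨Y0, hY0m⟩ ⟨Y, hY⟩).2, by
        rwa [hF2e, hs.exp_star, mul_one, ← mul_assoc, NilSub.exp_neg_mul, one_mul]⟩
    refine measure_mono_null (fun y hy => ?_) h6
    refine ⟨hy.1, hy.2.1, ?_⟩
    have h7 := (hK1 z hz.1.1 y hy.1 hy.2.1.symm).1
    rw [hF2e, mul_one, ← hY0e, ← blk_mul' (S.Gen_blk _ (S.T_mem _ _ h7)).2.1,
      S.T_mul x z y hxz h7]
    exact hy.2.2
  filter_upwards [o.lw.conull, o.lw.ae_ae (ae_frequently_of_ergodic S.toPre.ergodic_aE hK'm hK'0)]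
    with x hx hv F hF ⟨Y, hY, hY0⟩
  have h8 : ∀ i : ℕ, o.om x {y | S.R x y ∧ S.toPre.a i y ∈ K' ∧
      MvPolynomial.eval (fun p => (S.T x y).toBlocks₁₁ p.1 p.2) F = 0} = 0 := by
    intro i
    obtain ⟨F3, hF3, hF3e⟩ := exists_translate F (D.ρ (D.a ((-((i : ℤ) : ℝ)) • S.Ha)))
      (D.ρ (D.a (((i : ℤ) : ℝ) • S.Ha)))
    have h9 := h5 _ (o.a_mem i hx) F3 (hF3.trans hF)
      ⟨_, hs.dl_mem ((i : ℤ) : ℝ) Y hY, by rwa [hF3e, ← dl_exp, D.undo_dl]⟩
    obtain ⟨c, hc0, -, hc⟩ := o.equiv_a i hx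
    rw [hc, Measure.smul_apply, smul_eq_mul, mul_eq_zero] at h9
    have h10 := (Measure.le_map_apply (S.toPre.measurable_a i).aemeasurable _).trans
      (h9.resolve_left hc0).le
    refine measure_mono_null (fun y hy => ?_) (le_antisymm h10 zero_le)
    refine ⟨hy.2.1, ?_⟩
    rw [mem_ofPred_eq, hF3e, ← S.blk_back hy.1]
    exact hy.2.2
  refine le_antisymm ((measure_mono_ae ?_).trans (measure_iUnion_null h8).le) zero_le
  filter_upwards [hv, o.lw.carried x hx] with y hy hy' hy0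
  obtain ⟨i, hi⟩ := hy.exists
  rw [Pre.aE_iterate] at hi
  exact mem_iUnion.2 ⟨i, hy'.2.1, hi, hy0⟩

end Pool.Agent.P.MP_d483fb_an.Z

end

end

section

/-!
The horospherical coordinate of a point of a leaf, and three general lemmas.
-/

open scoped Matrix Matrix.Norms.Operator Topology ENNReal
open MeasureTheory ProbabilityTheory NormedSpace Filter Set

set_option linter.unusedSectionVars false

noncomputable section

namespace Pool.Agent.P.MP_d483fb_an.Z

open Pool.Agent.P.MP_d483fb_an.Z.NE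

namespace HP

/-- A measurable map is continuous on a compact set of positive measure. -/
theorem exists_compact_continuousOn {X Y : Type} [TopologicalSpace X] [PolishSpace X]
    [MeasurableSpace X] [BorelSpace X] [TopologicalSpace Y] [PolishSpace Y] [MeasurableSpace Y]
    [BorelSpace Y] (μ : Measure X) [IsFiniteMeasure μ] {f : X → Y} (hf : Measurable f)
    {A : Set X} (hA : MeasurableSet A) (h0 : μ A ≠ 0) :
    ∃ K ⊆ A, IsCompact K ∧ μ K ≠ 0 ∧ ContinuousOn f K := by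
  have hg : Measurable fun x => (x, f x) := measurable_id.prodMk hf
  have hm : MeasurableSet {p : X × Y | p.1 ∈ A ∧ f p.1 = p.2} :=
    (measurable_fst hA).inter (measurableSet_eq_fun (hf.comp measurable_fst) measurable_snd)
  have h1 : 0 < μ.map (fun x => (x, f x)) {p : X × Y | p.1 ∈ A ∧ f p.1 = p.2} := by
    rw [Measure.map_apply hg hm]
    refine lt_of_lt_of_le (pos_iff_ne_zero.2 h0) (measure_mono fun x hx => ⟨hx, rfl⟩)
  obtain ⟨Q, hQ, hc, h2⟩ := hm.exists_lt_isCompact_of_ne_top (measure_ne_top _ _) h1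
  refine ⟨Prod.fst '' Q, ?_, hc.image continuous_fst, ?_, ?_⟩
  · rintro _ ⟨p, hp, rfl⟩
    exact (hQ hp).1
  · rw [Measure.map_apply hg hc.isClosed.measurableSet] at h2
    refine (h2.trans_le (measure_mono fun x hx => ?_)).ne'
    exact ⟨_, hx, rfl⟩
  · refine continuousOn_iff_isClosed.2 fun C hC => ⟨Prod.fst '' (Q ∩ Prod.snd ⁻¹' C),
      ((hc.inter_right (hC.preimage continuous_snd)).image continuous_fst).isClosed, ?_⟩
    ext x
    constructor
    · rintro ⟨h3, p, hp, rfl⟩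
      exact ⟨⟨p, ⟨hp, by rwa [mem_preimage, ← (hQ hp).2]⟩, rfl⟩, p, hp, rfl⟩
    · rintro ⟨⟨p, hp, rfl⟩, h3⟩
      exact ⟨by rw [mem_preimage, (hQ hp.1).2]; exact hp.2, h3⟩

/-- Measurable cells from finite covers. -/
theorem exists_cells {X : Type} [MetricSpace X] [MeasurableSpace X] [BorelSpace X] {K : Set X}
    {C : ℝ} (h : ∀ r : ℝ, 0 < r → r ≤ 1 →
      ∃ F : Finset X, (F.card : ℝ) ≤ C * r⁻¹ ^ C ∧ K ⊆ ⋃ z ∈ F, Metric.ball z r)
    (s : ℝ) (hs : 0 ≤ s) : ∃ c : X → ℕ, Measurable c ∧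
      (∀ x, (c x : ℝ) + 1 ≤ Real.exp (Real.log (|C| * 2 ^ |C| + 1) + |C| * s)) ∧
      ∀ y ∈ K, ∀ y' ∈ K, c y = c y' → dist y y' ≤ Real.exp (-s) := by
  classical
  have h1 : Real.exp (-s) ≤ 1 := Real.exp_le_one_iff.2 (neg_nonpos.2 hs)
  obtain ⟨F, hF, hK⟩ := h (Real.exp (-s) / 2) (by positivity) (by linarith)
  set p : X → ℕ → Prop := fun x i => i = F.card ∨
    ∃ hi : i < F.card, x ∈ Metric.ball (F.equivFin.symm ⟨i, hi⟩).1 (Real.exp (-s) / 2) with hp
  have hex : ∀ x, ∃ i, p x i := fun x => ⟨F.card, Or.inl rfl⟩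
  have hlt : ∀ y ∈ K, Nat.find (hex y) < F.card := fun y hy => by
    obtain ⟨z, hz, h2⟩ := mem_iUnion₂.1 (hK hy)
    exact lt_of_le_of_lt (Nat.find_le (Or.inr ⟨(F.equivFin ⟨z, hz⟩).2, by simpa using h2⟩))
      (F.equivFin ⟨z, hz⟩).2
  refine ⟨fun x => Nat.find (hex x), measurable_find hex fun i => ?_, fun x => ?_,
    fun y hy y' hy' e => ?_⟩
  · simp only [hp, ofPred_or, ofPred_exists]
    exact (MeasurableSet.const _).union (MeasurableSet.iUnion fun _ => measurableSet_ball)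
  · have h2 : (Nat.find (hex x) : ℝ) ≤ F.card := by exact_mod_cast Nat.find_le (Or.inl rfl)
    have h3 : (1 : ℝ) ≤ (Real.exp (-s) / 2)⁻¹ := (one_le_inv₀ (by positivity)).2 (by linarith)
    have h4 : (Real.exp (-s) / 2)⁻¹ ^ C ≤ 2 ^ |C| * Real.exp (|C| * s) := by
      refine (Real.rpow_le_rpow_of_exponent_le h3 (le_abs_self C)).trans_eq ?_
      rw [inv_div, Real.exp_neg, div_inv_eq_mul, Real.mul_rpow (by norm_num) (Real.exp_pos _).le,
        ← Real.exp_mul, mul_comm s]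
    have h5 : 1 ≤ Real.exp (|C| * s) := Real.one_le_exp (by positivity)
    have h6 := mul_le_mul (le_abs_self C) h4 (by positivity) (abs_nonneg C)
    rw [Real.exp_add, Real.exp_log (by positivity)]
    nlinarith
  · have e : Nat.find (hex y) = Nat.find (hex y') := e
    obtain ⟨h2, h3⟩ := (Nat.find_spec (hex y)).resolve_left (hlt y hy).ne
    obtain ⟨h4, h5⟩ := (Nat.find_spec (hex y')).resolve_left (hlt y' hy').ne
    simp only [e] at h3
    have := dist_triangle_right y y' (F.equivFin.symm ⟨_, h4⟩).1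
    rw [Metric.mem_ball] at h3 h5
    linarith

end HP

variable {G : Type} [Group G] [TopologicalSpace G] [IsTopologicalGroup G] {n k : ℕ}
  {D : Std G n k}

/-- Small elements move the points of a compact set by a small amount. -/
theorem Std.exists_small (D : Std G n k) {B : Type} [MetricSpace B] [MulAction G B]
    [ContinuousSMul G B] {Q : Set B} (hQ : IsCompact Q) {δ : ℝ} (hδ : 0 < δ) :
    ∃ r : ℝ, 0 < r ∧ ∀ Y ∈ D.g, ‖Y‖ ≤ r → ∀ b ∈ Q, dist b (D.ex Y • b) ≤ δ := by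
  have h1 : ∀ᶠ g in 𝓝 (1 : G), ∀ b ∈ Q, dist b (g • b) ≤ δ := by
    refine hQ.eventually_forall_of_forall_eventually fun b _ => ?_
    have h2 : Continuous fun z : G × B => dist z.2 (z.1 • z.2) := by fun_prop
    exact h2.continuousAt.eventually (ge_mem_nhds (by simpa using hδ))
  rw [← D.ex_nhds, eventually_map, eventually_nhdsWithin_iff] at h1
  obtain ⟨r, hr, h2⟩ := Metric.eventually_nhds_iff.1 h1
  exact ⟨r / 2, half_pos hr, fun Y hY h3 => h2 (by rw [dist_zero_right]; linarith) hY⟩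

/-- A linear projection on the horospherical algebra. -/
def Std.prN (D : Std G n k) (s : Euc k) : Mat n →ₗ[ℝ] D.np s :=
  ((D.np s).subtype.exists_leftInverse_of_injective (D.np s).ker_subtype).choose

theorem Std.prN_val (D : Std G n k) (s : Euc k) (X : D.np s) : D.prN s X.1 = X :=
  LinearMap.congr_fun
    ((D.np s).subtype.exists_leftInverse_of_injective (D.np s).ker_subtype).choose_spec X

namespace GeoPre

variable {B : Type} [TopologicalSpace B] [MeasurableSpace B] [MulAction G B] {X : Type}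
  [MetricSpace X] [MeasurableSpace X] [MulAction G X] {μ : Measure X} {κ : Type} [Fintype κ]
  [DecidableEq κ] (S : GeoPre D B X μ κ) {x y z : X}

/-- The logarithm of the group block. -/
def lb (M : Matrix (Fin n ⊕ κ) (Fin n ⊕ κ) ℝ) : D.np S.Ha := D.prN S.Ha (nlog M.toBlocks₁₁)

theorem continuous_lb : Continuous S.lb := by
  refine (D.prN S.Ha).continuous_of_finiteDimensional.comp
    ((contDiff_nlog (n := 0)).continuous.comp ?_)
  exact continuous_matrix fun i j => continuous_apply_apply _ _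

/-- The horospherical coordinate of `y` in the chart at `x`. -/
def U (x y : X) : D.np S.Ha := S.lb (S.T x y)

variable {S}

theorem U_spec (h : S.R x y) :
    exp (S.U x y).1 = (S.T x y).toBlocks₁₁ ∧ S.π y = D.ex (-(S.U x y).1) • S.π x := by
  obtain ⟨Y, hY, h1, h2⟩ := S.P0 x y h
  have h3 : S.U x y = -⟨Y, hY⟩ := by
    rw [U, lb, h1, nlog_exp (w := D.wOf S.Ha) ((D.nilSub_np S.Ha).le (neg_mem hY))]
    exact D.prN_val S.Ha (-⟨Y, hY⟩)
  rw [h3]
  exact ⟨h1.symm, by simpa using h2⟩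

theorem blk_trans (h : S.R x y) (h' : S.R y z) :
    (S.T x z).toBlocks₁₁ = (S.T x y).toBlocks₁₁ * (S.T y z).toBlocks₁₁ := by
  rw [← S.T_mul x y z h h']
  conv_lhs => rw [← Matrix.fromBlocks_toBlocks (S.T x y), ← Matrix.fromBlocks_toBlocks (S.T y z),
    Matrix.fromBlocks_multiply, Matrix.toBlocks_fromBlocks₁₁]
  rw [(S.Gen_blk _ (S.T_mem x y h)).1, Matrix.zero_mul, add_zero]

theorem U_trans (h : S.R x y) (h' : S.R y z) :
    S.U x z = (D.nilSub_np S.Ha).star (S.U x y) (S.U y z) := by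
  refine (D.nilSub_np S.Ha).exp_inj ?_
  rw [NilSub.exp_star, (U_spec h).1, (U_spec h').1, (U_spec (S.R_trans x y z h h')).1,
    blk_trans h h']

theorem U_eq_zero (h : S.R x y) (e : S.π x = S.π y) : S.U x y = 0 := by
  have h1 := S.free x (S.R_mem x y h) _ (neg_mem (S.U x y).2) ((U_spec h).2.symm.trans e.symm)
  exact Subtype.ext (neg_eq_zero.1 h1)

variable (S) in
theorem π_a (t : ℕ) (x : X) : S.π (S.toPre.a t x) = D.a S.Ha ^ t • S.π x := by
  rw [Pre.a, S.f_eq, S.π_smul]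
  simp only [Int.cast_natCast, zero_smul, add_zero]
  rw [Std.a, map_smul, D.ex_nsmul (D.dg_mem _)]
  rfl

theorem π_a_eq (h : S.R x y) (t : ℕ) : S.π (S.toPre.a t y) =
    D.ex (-((D.nilSub_np S.Ha).dlu t (S.U x y)).1) • S.π (S.toPre.a t x) := by
  have h1 : D.Ad (D.a S.Ha ^ t) (-(S.U x y).1) = -((D.nilSub_np S.Ha).dlu t (S.U x y)).1 := by
    rw [map_neg, NilSub.dlu_val, ← D.Ad_a_eq_dl, Std.a, Std.a, map_smul, D.ex_nsmul (D.dg_mem _)]
  rw [π_a, π_a, (U_spec h).2, ← h1, ← D.conj_ex _ (neg_mem (S.U x y).2.1), mul_smul, mul_smul,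
    inv_smul_smul]

end GeoPre

end Pool.Agent.P.MP_d483fb_an.Z

end

end

section

/-!
The leafwise measures of a measure that projects on an invariant measure of the base vanish on
the proper algebraic subsets of the horospherical group.
-/

open scoped Matrix Matrix.Norms.Operator Topology ENNReal
open MeasureTheory ProbabilityTheory NormedSpace Filter Set

set_option linter.unusedSectionVars false

noncomputable section

namespace Pool.Agent.P.MP_d483fb_an.Z

open Pool.Agent.P.MP_d483fb_an.Z.NE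

variable {G : Type} [Group G] [TopologicalSpace G] [IsTopologicalGroup G] {n k : ℕ}
  {B : Type} [MetricSpace B] [ProperSpace B] [MeasurableSpace B] [BorelSpace B]
  [MulAction G B] [ContinuousSMul G B] {X : Type} [MetricSpace X] [ProperSpace X]
  [MeasurableSpace X] [BorelSpace X] [MulAction G X]
  {D : Std G n k} {μ : Measure X} [IsProbabilityMeasure μ] {κ : Type} [Fintype κ] [DecidableEq κ]

/-- Closeness at the scale of the last visit implies closeness at the tempered scale. -/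
theorem GeoPre.close_of_cl (S : GeoPre D B X μ κ) {ε q0 : ℝ} {q : X → ℝ}
    (hq : S.toPre.Temp ε q) {K : Set X} (hK : ∀ y ∈ K, y ∈ S.X0 ∧ q y ≤ q0) {t : ℕ} {y y' : X}
    (h : HP.Cl S.toPre.aE K q0⁻¹ ε t y y') :
    ∀ i ≤ t, dist (S.toPre.a i y) (S.toPre.a i y') ≤ 1 / q (S.toPre.a i y) := by
  intro i hi
  obtain ⟨s, hs, h1, h2⟩ := h i hi
  obtain ⟨m, rfl⟩ := Nat.exists_eq_add_of_le' hs
  simp only [Pre.aE_iterate] at h1 h2
  refine h2.trans ?_
  have h3 := (Geo.slow_nat hq (hK _ h1).1 m).1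
  rw [← Pre.a_add, ← Nat.cast_add] at h3
  have h4 : 0 < q (S.toPre.a (m + s : ℕ) y) := one_pos.trans_le (hq.one_le _)
  have h5 := h3.trans (mul_le_mul_of_nonneg_right (hK _ h1).2 (Real.exp_pos _).le)
  rw [Nat.cast_add, add_sub_cancel_right, neg_mul, Real.exp_neg, ← mul_inv, one_div]
  exact inv_anti₀ h4 h5

theorem GeoLS.plaque [Nonempty X] (S : GeoLS D B X μ κ) (d : ℕ) :
    ∃ (K : Set X) (lab : X → ℕ → ℝ), MeasurableSet K ∧ μ K ≠ 0 ∧ Measurable lab ∧
      (∀ y ∈ K, ∀ y' ∈ K, lab y = lab y' → S.R y y' ∧ S.toPre.N y y' ≤ 1) ∧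
      (∀ y ∈ K, ∀ y' ∈ K, S.R y y' → S.toPre.N y y' ≤ 1 → lab y = lab y') ∧
      ∀ᵐ x ∂μ[|K], ∀ F : MvPolynomial (Fin n × Fin n) ℝ, F.totalDegree ≤ d →
        (∃ Y ∈ D.np S.Ha, MvPolynomial.eval (fun p => exp Y p.1 p.2) F ≠ 0) →
        condDistrib id lab μ[|K] (lab x) {y | y ∈ K ∧ lab y = lab x ∧
          MvPolynomial.eval (fun p => (S.T x y).toBlocks₁₁ p.1 p.2) F = 0} = 0 := by
  have hs := D.nilSub_np S.Ha
  let _ : MeasurableSpace (D.np S.Ha) := borel _
  have : BorelSpace (D.np S.Ha) := ⟨rfl⟩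
  obtain ⟨cell, hcm, hc1, hc2⟩ := hs.exists_cell one_pos
  obtain ⟨kd, hkd, hcount⟩ := hs.cell_count cell (hc2 _ (by
    simpa [Metric.closedBall] using Metric.isBounded_closedBall (x := (0 : D.np S.Ha)) (r := 1))) d
  obtain ⟨K1, -, hK1, hK1'⟩ := MeasurableSet.univ.exists_lt_isCompact_of_ne_top (μ := μ)
    (measure_ne_top _ _) (r := 0) (by simp)
  obtain ⟨Cc, hCc⟩ := S.cover K1 hK1
  obtain ⟨ε, hε, hε'⟩ : ∃ ε : ℝ, 0 < ε ∧ (1 + ε) * (hs.ent - kd) < hs.ent - 3 * ε * |Cc| := by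
    have h1 : Continuous fun ε : ℝ => (1 + ε) * (hs.ent - kd) + 3 * ε * |Cc| := by fun_prop
    have h2 : ∀ᶠ ε in 𝓝 (0 : ℝ), (1 + ε) * (hs.ent - kd) + 3 * ε * |Cc| < hs.ent :=
      h1.continuousAt.eventually (gt_mem_nhds (by simpa using hkd))
    obtain ⟨ε, h3, h4⟩ := ((h2.filter_mono nhdsWithin_le_nhds).and
      (self_mem_nhdsWithin (s := Ioi 0))).exists
    exact ⟨ε, h4, by linarith⟩
  obtain ⟨q, hq, hE, hBd, -, hbox⟩ := S.good hε
  obtain ⟨q0, hq0⟩ : ∃ q0 : ℕ, μ (K1 ∩ {x | q x ≤ q0}) ≠ 0 := by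
    by_contra h
    push Not at h
    refine hK1'.ne' (measure_mono_null (fun x hx => ?_) (measure_iUnion_null h))
    obtain ⟨m, hm⟩ := exists_nat_ge (q x)
    exact mem_iUnion.2 ⟨m, hx, hm⟩
  obtain ⟨A, K0, lab, hA, hK0, hK0s, hK0p, hl, hK0q, hK0b⟩ := hbox q0 _
    (hK1.isClosed.measurableSet.inter (measurableSet_le hq.meas measurable_const))
    inter_subset_right hq0 1 one_pos 1 (q0 + 1) 1 one_pos
  obtain ⟨K, hKs, hK, hKp, hKc⟩ :=
    HP.exists_compact_continuousOn μ hl hK0.isClosed.measurableSet hK0p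
  have hKm := hK.isClosed.measurableSet
  have hKq : ∀ y ∈ K, y ∈ S.X0 ∧ q y ≤ q0 := fun y hy => hK0q y (hKs hy)
  have hR : ∀ y ∈ K, ∀ y' ∈ K, lab y = lab y' → S.R y y' ∧ S.toPre.N y y' ≤ 1 :=
    fun y hy y' hy' e => ((hK0b y (hKs hy) y' (hKs hy')).2.2.1 e).imp_right And.left
  refine ⟨K, lab, hKm, hKp, hl, hR, fun y hy y' hy' => (hK0b y (hKs hy) y' (hKs hy')).2.2.2, ?_⟩
  have hq1 : (1 : ℝ) ≤ q0 := by
    obtain ⟨y, hy⟩ := nonempty_of_measure_ne_zero hKp
    exact (hq.one_le y).trans (hKq y hy).2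
  have := cond_isProbabilityMeasure (μ := μ) hKp
  obtain ⟨z, hz, hz'⟩ := exists_sel μ[|K] hl hKm (X' := univ) (Eventually.of_forall fun _ => trivial)
  have hπQ : IsCompact (S.π '' K) := hK.image S.π_cont
  obtain ⟨Wg, hWg, hfree⟩ := S.inj _ hπQ
  obtain ⟨C7, hC7⟩ := hE.G7
  have hπm : Measurable S.π := S.π_cont.measurable
  obtain ⟨Cb, hCb, hbow⟩ := D.bow_base_all S.Ha (μ.map S.π) S.base hWg hfree |C7|
  obtain ⟨kc, hkc, hcon⟩ := hs.norm_dlu_le
  have hUm : Measurable fun y => S.toGeoPre.U (z (lab y)) y :=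
    S.toGeoPre.continuous_lb.measurable.comp (S.measT.comp ((hz.comp hl).prodMk measurable_id))
  have hzR : ∀ x, lab (z (lab x)) = lab x ∧ z (lab x) ∈ K → ∀ y ∈ K, lab y = lab x →
      S.R (z (lab x)) y ∧ S.toPre.N (z (lab x)) y ≤ 1 :=
    fun x hx y hy e => hR _ hx.2 y hy (hx.1.trans e.symm)
  let P : HP.Plq X B μ :=
    { a := S.toPre.aE
      b := S.toPre.aE.symm
      K := K
      lab := lab
      π := S.π
      sig := fun N y => cell (hs.dlu N (S.toGeoPre.U (z (lab y)) y))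
      W := {y | y ∈ K ∧ lab (z (lab y)) = lab y ∧ z (lab y) ∈ K}
      kap := S.kap
      kap' := S.kap'
      Lp := |S.Lp|
      eps := ε
      A := A
      eta := (q0 : ℝ)⁻¹
      hU := hs.ent
      C := max (Real.log Cb) (Real.log (|Cc| * 2 ^ |Cc| + 1))
      dm := |Cc|
      erg := S.toPre.ergodic_aE
      meas_b := S.toPre.aE.symm.measurable
      linv := S.toPre.aE.symm_apply_apply
      cpt := hK
      pos := hKp
      meas_lab := hl
      cont_lab := hKc
      meas_π := hπm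
      meas_sig := fun N => hcm.comp ((hs.dlu N).continuous.measurable.comp hUm)
      kap_pos := S.kap_pos
      kap_lt := S.kap_lt
      Lp_nonneg := abs_nonneg _
      eps_pos := hε
      eta_pos := by positivity
      eta_le := inv_le_one_of_one_le₀ hq1
      one_le_A := by linarith
      dm_nonneg := abs_nonneg _
      lip_a := fun x y => by
        simpa [Pre.aE_apply] using Geo.lip' S.toGeoPre 1 (m := 1) (by simp) x y
      lip_b := fun x y => by
        simpa [Pre.aE_symm_apply] using Geo.lip' S.toGeoPre (-1) (m := 1) (by simp) x y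
      sh1 := fun y hy y' hy' e i => by
        simp only [Pre.aE_symm_iterate]
        exact (((hK0b y (hKs hy) y' (hKs hy')).2.2.1 e).2.2 i).trans
          (mul_le_mul_of_nonneg_right (by linarith) (Real.exp_pos _).le)
      sh2 := fun y hy y' hy' h => by
        simp only [Pre.aE_symm_iterate] at h
        exact (hK0b y (hKs hy) y' (hKs hy')).2.1.2 h
      g3 := fun y hy y' t ht h i hi => by
        have h1 := hE.G3 y (hKq y hy).1 y' t (S.toGeoPre.close_of_cl hq hKq h) i hi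
        simp only [Pre.aE_iterate] at ht ⊢
        refine h1.trans (add_le_add
          (mul_le_mul_of_nonneg_right (by linarith [(hKq _ ht).2]) (Real.exp_pos _).le)
          (mul_le_mul_of_nonneg_right (mul_le_mul_of_nonneg_right (by linarith [(hKq _ hy).2])
            (Real.exp_pos _).le) dist_nonneg))
      bow := fun y hy t => by
        refine le_trans (measure_mono ?_) ((hbow t _ ⟨y, hy, rfl⟩).trans ?_)
        · rintro _ ⟨y', h, rfl⟩
          have h1 := S.toGeoPre.close_of_cl hq hKq h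
          obtain ⟨Y, h2, h3, h4⟩ := hC7 y (hKq y hy).1 y' t h1
          have h5 : ∀ i ≤ t, ‖D.Ad (D.a S.Ha ^ i) Y‖ ≤ |C7| := fun i hi => by
            refine (h4 i hi).trans ((mul_le_mul_of_nonneg_right (le_abs_self _) dist_nonneg).trans
              (mul_le_of_le_one_right (abs_nonneg _) ((h1 i hi).trans ?_)))
            rw [one_div]
            exact inv_le_one_of_one_le₀ (hq.one_le _)
          exact ⟨Y, h2, h3, by simpa [D.Ad_one] using h5 0 (Nat.zero_le _), h5 t le_rfl⟩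
        · refine ENNReal.ofReal_le_ofReal ?_
          rw [sub_eq_add_neg, Real.exp_add]
          refine mul_le_mul_of_nonneg_right ?_ (Real.exp_pos _).le
          rw [← Real.log_le_iff_le_exp hCb]
          exact le_max_left _ _
      cov := fun s hs0 => by
        obtain ⟨c, h1, h2, h3⟩ := HP.exists_cells hCc s hs0
        exact ⟨c, h1, fun x => (h2 x).trans
          (Real.exp_le_exp.2 (add_le_add (le_max_right _ _) le_rfl)),
          fun y hy y' hy' => h3 y (hK0s (hKs hy)).1 y' (hK0s (hKs hy')).1⟩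
      π_a := fun y y' => by
        have h1 := S.toGeoPre.π_a 1
        simp only [Nat.cast_one] at h1
        rw [Pre.aE_apply, Pre.aE_apply, h1, h1, smul_left_cancel_iff]
      aeW := by
        filter_upwards [hz', ae_cond_mem hKm] with x h1 h2
        exact ⟨h2, (h1 h2).1, (h1 h2).2.1⟩
      c0 := fun y hy y' hy' e e' N => by
        have h1 := (hR y hy.1 y' hy'.1 e).1
        rw [← e, GeoPre.U_trans (hzR y hy.2 y hy.1 rfl).1 h1, GeoPre.U_eq_zero h1 e', hs.star_zero]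
      c1 := fun δ hδ => by
        obtain ⟨r, hr, h1⟩ := D.exists_small hπQ hδ
        obtain ⟨j, hj⟩ := Geo.exists_nat_exp hkc 1 hr
        refine ⟨j, fun N t hN y hy y' hy' e e' ht => ?_⟩
        have h2 := (hR y hy.1 y' hy'.1 e).1
        have h3 := hc1 _ _ e'
        rw [← e, GeoPre.U_trans (hzR y hy.2 y hy.1 rfl).1 h2, hs.dlu_star, hs.neg_star_star] at h3
        simp only [Pre.aE_iterate] at ht ⊢
        rw [GeoPre.π_a_eq h2]
        refine h1 _ (neg_mem (hs.dlu t _).2.1) ?_ _ ⟨_, ht, rfl⟩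
        have h4 := hcon ((N - t : ℕ) : ℝ) (Nat.cast_nonneg _) (hs.dlu N (S.toGeoPre.U y y'))
        rw [← hs.dlu_add, Nat.cast_sub (by omega), neg_sub, sub_add_cancel] at h4
        have h5 := hj (N - t) (by omega)
        rw [Nat.cast_sub (by omega), one_mul] at h5
        rw [norm_neg]
        exact h4.trans ((mul_le_of_le_one_right (Real.exp_pos _).le h3).trans h5) }
  have hW : IsCompact (S.toGeoPre.lb '' {M | ‖M‖ ≤ q0 * q0}) :=
    (isCompact_norm_le _).image S.toGeoPre.continuous_lb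
  filter_upwards [P.plaque hε', P.aeW] with x hx hw F hF ⟨Y, hY, hY'⟩
  have hzx := (hzR x hw.2 x hw.1 rfl).1
  have hxz := S.R_symm _ _ hzx
  obtain ⟨F2, hd2, hF2⟩ := exists_translate F (S.T x (z (lab x))).toBlocks₁₁ 1
  obtain ⟨C, -, hC⟩ := hcount F2 (hd2.trans hF)
    ⟨hs.star (-S.toGeoPre.U x (z (lab x))) ⟨Y, hY⟩, by
      rwa [hF2, mul_one, ← (GeoPre.U_spec hxz).1, ← hs.exp_star, hs.star_neg_star]⟩ _ hW.isBounded
  refine hx _ (hKm.inter (MeasurableSet.inter (hl (measurableSet_singleton _)) ?_)) ⟨C, fun N => ?_⟩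
  · have h1 : Continuous fun M : Matrix (Fin n ⊕ κ) (Fin n ⊕ κ) ℝ =>
        MvPolynomial.eval (fun p => M.toBlocks₁₁ p.1 p.2) F :=
      (contDiff_eval (n := 0) F).continuous.comp (f := Matrix.toBlocks₁₁)
        (continuous_matrix fun i j => continuous_apply_apply _ _)
    exact measurableSet_eq_fun
      (h1.measurable.comp (S.measT.comp (measurable_const.prodMk measurable_id))) measurable_const
  · obtain ⟨T, h1, h2⟩ := hC N (Nat.cast_nonneg _)
    refine ⟨T, h1, fun y hy e => ?_⟩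
    obtain ⟨h3, h4⟩ := hzR x hw.2 y hy.1 e
    have e : lab y = lab x := e
    change cell (hs.dlu N (S.toGeoPre.U (z (lab y)) y)) ∈ T
    rw [e]
    refine h2 _ ⟨_, (hBd _ _ h3 h4).1.trans (mul_le_mul (hKq _ hw.2.2).2 (hKq _ hy.1).2
      (zero_le_one.trans (hq.one_le _)) (by positivity)), rfl⟩ ?_
    rw [hF2, mul_one, (GeoPre.U_spec h3).1, ← GeoPre.blk_trans hxz h3]
    exact hy.2.2

theorem GeoLS.hasHP {X : Type} [MetricSpace X] [ProperSpace X] [MeasurableSpace X] [BorelSpace X]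
    [MulAction G X] [ContinuousSMul G X] {D : Std G n k} {μ : Measure X} [IsProbabilityMeasure μ]
    {κ : Type} [Fintype κ] [DecidableEq κ] (S : GeoLS D B X μ κ) : S.toGeoPre.HasHP := by
  have : Nonempty X := nonempty_of_isProbabilityMeasure μ
  exact S.toGeoPre.hasHP_of_plaque S.plaque

end Pool.Agent.P.MP_d483fb_an.Z

end

end
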