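import Pool.Agent.P.MP_d483fb_an.M.A29
import Pool.Agent.P.MP_d483fb_an.M.A30
import Pool.Agent.P.MP_d483fb_an.M.A32
import Pool.Agent.P.MP_d483fb_an.M.A34
import Pool.Agent.P.MP_d483fb_an.M.A37
import Pool.Agent.P.MP_d483fb_an.M.A39

section

/-!
Probability measures on a proper extension that project to a given invariant measure:
compactness, common fixed points of commuting elements and extreme points.
-/

open scoped Topology NNReal ENNReal BoundedContinuousFunction
open MeasureTheory Filter Set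

noncomputable section

namespace Pool.Agent.P.MP_d483fb_an.Z

section Cvx

variable {Z : Type} [TopologicalSpace Z] [MeasurableSpace Z] [BorelSpace Z]

/-- A set of probability measures that is closed under convex combinations. -/
def Cvx (Q : Set (ProbabilityMeasure Z)) : Prop :=
  ∀ ν ∈ Q, ∀ ν' ∈ Q, ∀ s t : ℝ≥0, s + t = 1 → ∀ ρ : ProbabilityMeasure Z,
    (ρ : Measure Z) = s • (ν : Measure Z) + t • (ν' : Measure Z) → ρ ∈ Q

omit [TopologicalSpace Z] [BorelSpace Z] in
theorem Cvx.inter {Q Q' : Set (ProbabilityMeasure Z)} (h : Cvx Q) (h' : Cvx Q') : Cvx (Q ∩ Q') :=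
  fun ν hν ν' hν' s t hst ρ hρ =>
    ⟨h ν hν.1 ν' hν'.1 s t hst ρ hρ, h' ν hν.2 ν' hν'.2 s t hst ρ hρ⟩

/-- A probability measure as a functional on bounded continuous functions. -/
def emb (ν : ProbabilityMeasure Z) : (Z →ᵇ ℝ) → ℝ := fun f => ∫ z, f z ∂(ν : Measure Z)

theorem continuous_emb : Continuous (emb (Z := Z)) :=
  continuous_pi fun f => ProbabilityMeasure.continuous_integral_boundedContinuousFunction f

theorem emb_injective [HasOuterApproxClosed Z] : Function.Injective (emb (Z := Z)) := by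
  intro ν ν' h
  exact ProbabilityMeasure.toMeasure_injective
    (ext_of_forall_integral_eq_of_IsFiniteMeasure fun f => congrFun h f)

theorem emb_mix {ν ν' ρ : ProbabilityMeasure Z} {s t : ℝ≥0}
    (hρ : (ρ : Measure Z) = s • (ν : Measure Z) + t • (ν' : Measure Z)) :
    emb ρ = (s : ℝ) • emb ν + (t : ℝ) • emb ν' := by
  funext f
  simp only [emb, Pi.add_apply, Pi.smul_apply, smul_eq_mul]
  rw [hρ, integral_add_measure ((f.integrable _).smul_measure_nnreal)
    ((f.integrable _).smul_measure_nnreal), integral_smul_nnreal_measure,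
    integral_smul_nnreal_measure]
  rfl

/-- A convex combination of two probability measures. -/
def mix (ν ν' : ProbabilityMeasure Z) (s t : ℝ≥0) (h : s + t = 1) : ProbabilityMeasure Z :=
  ⟨s • (ν : Measure Z) + t • (ν' : Measure Z), ⟨by
    simp only [Measure.add_apply, Measure.smul_apply, measure_univ]
    rw [ENNReal.smul_def, ENNReal.smul_def, smul_eq_mul, smul_eq_mul, mul_one, mul_one,
      ← ENNReal.coe_add, h, ENNReal.coe_one]⟩⟩

theorem Cvx.convex {Q : Set (ProbabilityMeasure Z)} (h : Cvx Q) : Convex ℝ (emb '' Q) := by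
  rintro _ ⟨ν, hν, rfl⟩ _ ⟨ν', hν', rfl⟩ s t hs ht hst
  lift s to ℝ≥0 using hs
  lift t to ℝ≥0 using ht
  have hst' : s + t = 1 := by exact_mod_cast hst
  exact ⟨mix ν ν' s t hst', h ν hν ν' hν' s t hst' _ rfl, emb_mix rfl⟩

/-- A continuous map that preserves a compact convex set of measures fixes one of them. -/
theorem exists_fixed [HasOuterApproxClosed Z] {Q : Set (ProbabilityMeasure Z)} (hc : IsCompact Q)
    (hv : Cvx Q) (hne : Q.Nonempty) {T : Z → Z} (hT : Continuous T)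
    (hQ : ∀ ν ∈ Q, ν.map hT.measurable.aemeasurable ∈ Q) :
    ∃ ν ∈ Q, MeasurePreserving T (ν : Measure Z) ν := by
  obtain ⟨ν₀, hν₀⟩ := hne
  let S : ProbabilityMeasure Z → ProbabilityMeasure Z := fun ν => ν.map hT.measurable.aemeasurable
  have hS : ∀ i, S^[i] ν₀ ∈ Q := by
    intro i
    induction i with
    | zero => exact hν₀
    | succ i ih => rw [Function.iterate_succ_apply']; exact hQ _ ih
  let x : ℕ → (Z →ᵇ ℝ) → ℝ := fun N =>
    ∑ i ∈ Finset.range (N + 1), ((N + 1 : ℝ)⁻¹) • emb (S^[i] ν₀)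
  have hx : ∀ N, x N ∈ emb '' Q := by
    intro N
    refine hv.convex.sum_mem (fun i _ => by positivity) ?_ fun i _ => mem_image_of_mem _ (hS i)
    rw [Finset.sum_const, Finset.card_range, nsmul_eq_mul]
    push_cast
    exact mul_inv_cancel₀ (by positivity)
  obtain ⟨_, ⟨ν, hν, rfl⟩, hcl⟩ := (hc.image continuous_emb).exists_mapClusterPt
    (f := atTop) (u := x) (le_principal_iff.2 (mem_map.2 (Eventually.of_forall hx)))
  refine ⟨ν, hν, hT.measurable, ?_⟩
  refine ext_of_forall_integral_eq_of_IsFiniteMeasure fun f => ?_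
  let g : Z →ᵇ ℝ := f.compContinuous ⟨T, hT⟩
  have hg : ∀ ρ : ProbabilityMeasure Z, emb (S ρ) f = emb ρ g := by
    intro ρ
    simp only [emb, S, ProbabilityMeasure.toMeasure_map]
    rw [integral_map hT.measurable.aemeasurable f.continuous.aestronglyMeasurable]
    rfl
  have hb : ∀ ρ : ProbabilityMeasure Z, |emb ρ f| ≤ ‖f‖ := by
    intro ρ
    have := norm_integral_le_of_norm_le_const (μ := (ρ : Measure Z)) (f := fun z => f z)
      (Eventually.of_forall fun z => f.norm_coe_le_norm z)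
    simpa [emb] using this
  let φ : ((Z →ᵇ ℝ) → ℝ) → ℝ := fun y => y g - y f
  have hφ : Continuous φ := (continuous_apply g).sub (continuous_apply f)
  have hval : ∀ N, φ (x N) = (N + 1 : ℝ)⁻¹ * (emb (S^[N + 1] ν₀) f - emb (S^[0] ν₀) f) := by
    intro N
    rw [← Finset.sum_range_sub (fun i => emb (S^[i] ν₀) f) (N + 1), Finset.mul_sum]
    simp only [φ, x, Finset.sum_apply, Pi.smul_apply, smul_eq_mul, ← Finset.sum_sub_distrib]
    refine Finset.sum_congr rfl fun i _ => ?_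
    rw [Function.iterate_succ_apply', hg, mul_sub]
  have hlim : Tendsto (φ ∘ x) atTop (𝓝 0) := by
    have h1 : Tendsto (fun N : ℕ => (N + 1 : ℝ)⁻¹ * (2 * ‖f‖)) atTop (𝓝 0) := by
      have := (tendsto_one_div_add_atTop_nhds_zero_nat (𝕜 := ℝ)).mul_const (2 * ‖f‖)
      simpa using this
    refine squeeze_zero_norm (fun N => ?_) h1
    rw [Function.comp_apply, hval, Real.norm_eq_abs, abs_mul, abs_of_nonneg (by positivity)]
    refine mul_le_mul_of_nonneg_left ?_ (by positivity)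
    refine (abs_sub _ _).trans ?_
    linarith [hb (S^[N + 1] ν₀), hb (S^[0] ν₀)]
  have h0 : φ (emb ν) = 0 := by
    have h1 : MapClusterPt (φ (emb ν)) atTop (φ ∘ x) := hcl.continuousAt_comp hφ.continuousAt
    exact eq_of_nhds_neBot (h1.clusterPt.mono hlim)
  have h2 : emb (S ν) f = emb ν f := by rw [hg]; exact sub_eq_zero.1 h0
  simpa [emb, S] using h2

theorem isClosed_fixed [HasOuterApproxClosed Z] {T : Z → Z} (hT : Continuous T) :
    IsClosed {ν : ProbabilityMeasure Z | MeasurePreserving T (ν : Measure Z) ν} := by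
  have : {ν : ProbabilityMeasure Z | MeasurePreserving T (ν : Measure Z) ν} =
      {ν | ν.map hT.measurable.aemeasurable = ν} := by
    ext ν
    refine ⟨fun h => Subtype.ext h.map_eq, fun h => ⟨hT.measurable, ?_⟩⟩
    exact congrArg (fun ρ : ProbabilityMeasure Z => (ρ : Measure Z)) h
  rw [this]
  exact isClosed_eq (ProbabilityMeasure.continuous_map hT) continuous_id

omit [TopologicalSpace Z] [BorelSpace Z] in
theorem cvx_fixed {T : Z → Z} :
    Cvx {ν : ProbabilityMeasure Z | MeasurePreserving T (ν : Measure Z) ν} := by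
  intro ν hν ν' hν' s t _ ρ hρ
  refine ⟨hν.measurable, ?_⟩
  rw [hρ, Measure.map_add _ _ hν.measurable, Measure.map_smul, Measure.map_smul, hν.map_eq,
    hν'.map_eq]

/-- The theorem of Markov and Kakutani for commuting continuous maps. -/
theorem exists_fixed_all [HasOuterApproxClosed Z] {Q : Set (ProbabilityMeasure Z)}
    (hc : IsCompact Q) (hv : Cvx Q) (hne : Q.Nonempty) {I : Type} {T : I → Z → Z}
    (hT : ∀ i, Continuous (T i)) (hcom : ∀ i j z, T i (T j z) = T j (T i z))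
    (hQ : ∀ i, ∀ ν ∈ Q, ν.map (hT i).measurable.aemeasurable ∈ Q) :
    ∃ ν ∈ Q, ∀ i, MeasurePreserving (T i) (ν : Measure Z) ν := by
  classical
  let W : I → Set (ProbabilityMeasure Z) := fun i => {ν | MeasurePreserving (T i) (ν : Measure Z) ν}
  have hfin : ∀ s : Finset I, (Q ∩ ⋂ i ∈ s, W i).Nonempty := by
    intro s
    induction s using Finset.induction_on with
    | empty => simpa using hne
    | insert j s _ ih =>
      have hcl : IsClosed (⋂ i ∈ s, W i) := isClosed_biInter fun i _ => isClosed_fixed (hT i)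
      have hcv : Cvx (⋂ i ∈ s, W i) := by
        intro ν hν ν' hν' a b hab ρ hρ
        simp only [mem_iInter] at hν hν' ⊢
        exact fun i hi => cvx_fixed ν (hν i hi) ν' (hν' i hi) a b hab ρ hρ
      obtain ⟨ν, hν, hj⟩ := exists_fixed (hc.inter_right hcl) (hv.inter hcv) ih (hT j) (by
        rintro ν ⟨h1, h2⟩
        refine ⟨hQ j ν h1, ?_⟩
        simp only [mem_iInter] at h2 ⊢
        intro i hi
        refine ⟨(hT i).measurable, ?_⟩
        simp only [ProbabilityMeasure.toMeasure_map]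
        rw [Measure.map_map (hT i).measurable (hT j).measurable]
        have : T i ∘ T j = T j ∘ T i := funext (hcom i j)
        rw [this, ← Measure.map_map (hT j).measurable (hT i).measurable, (h2 i hi).map_eq])
      refine ⟨ν, hν.1, ?_⟩
      rw [Finset.set_biInter_insert]
      exact ⟨hj, hν.2⟩
  obtain ⟨ν, hν, h⟩ := hc.inter_iInter_nonempty W (fun i => isClosed_fixed (hT i)) hfin
  exact ⟨ν, hν, fun i => mem_iInter.1 h i⟩

/-- A nonempty compact set of probability measures has an extreme point. -/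
theorem exists_extreme [HasOuterApproxClosed Z] {Q : Set (ProbabilityMeasure Z)}
    (hc : IsCompact Q) (hne : Q.Nonempty) :
    ∃ ρ ∈ Q, ∀ ν ∈ Q, ∀ ν' ∈ Q, ∀ s t : ℝ≥0, 0 < s → 0 < t → s + t = 1 →
      (ρ : Measure Z) = s • (ν : Measure Z) + t • (ν' : Measure Z) → ν = ρ := by
  obtain ⟨_, ⟨ρ, hρ, rfl⟩, h⟩ := (hc.image continuous_emb).extremePoints_nonempty (hne.image _)
  refine ⟨ρ, hρ, fun ν hν ν' hν' s t hs ht hst he => emb_injective ?_⟩
  refine h (mem_image_of_mem _ hν) (mem_image_of_mem _ hν') ⟨s, t, hs, ht, ?_, (emb_mix he).symm⟩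
  exact_mod_cast hst

end Cvx

section Defs

variable {G Z X : Type} [Group G] [MeasurableSpace Z] [MulAction G Z]

/-- The stabiliser of a measure. -/
def Stab (G : Type) [Group G] [MulAction G Z] [MeasurableConstSMul G Z] (ν : Measure Z) :
    Subgroup G where
  carrier := {g | MeasurePreserving (fun z : Z => g • z) ν ν}
  one_mem' := by
    simp only [mem_ofPred_eq, one_smul]
    exact MeasurePreserving.id ν
  mul_mem' := by
    intro g h hg hh
    have := hg.comp hh
    simpa [Function.comp_def, mul_smul] using this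
  inv_mem' := by
    intro g hg
    refine ⟨measurable_const_smul g⁻¹, ?_⟩
    conv_lhs => rw [← hg.map_eq]
    rw [Measure.map_map (measurable_const_smul g⁻¹) (measurable_const_smul g)]
    simp [Function.comp_def]

theorem mem_stab_iff [MeasurableConstSMul G Z] {ν : Measure Z} {g : G} :
    g ∈ Stab G ν ↔ MeasurePreserving (fun z : Z => g • z) ν ν := Iff.rfl

/-- The cocycle `F` grows at least at rate `e` along the powers of `g`. -/
def Pos (F : G → Z → ℝ) (e : ℝ) (g : G) (ν : Measure Z) : Prop :=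
  ∀ j : ℕ, e * j ≤ ∫ z, F (g ^ j) z ∂ν

/-- Every almost `H`-invariant set is null or conull. -/
def ErgFor (H : Subgroup G) (ν : Measure Z) : Prop :=
  ∀ U : Set Z, MeasurableSet U → (∀ h ∈ H, (fun z => h • z) ⁻¹' U =ᵐ[ν] U) → ν U = 0 ∨ ν Uᶜ = 0

/-- A continuous subadditive cocycle that is bounded for every group element. -/
structure SubCoc [TopologicalSpace Z] (F : G → Z → ℝ) : Prop where
  cont : ∀ g, Continuous (F g)
  sub : ∀ g h z, F (g * h) z ≤ F g (h • z) + F h z
  bd : ∀ g, ∃ C, ∀ z, |F g z| ≤ C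

/-- A proper equivariant map onto a space with a tight measure. -/
structure IsExt (G : Type) [Group G] [MulAction G Z] [TopologicalSpace Z] [TopologicalSpace X]
    [MeasurableSpace X] [MulAction G X] (π : Z → X) (μ : Measure X) : Prop where
  cont : Continuous π
  eqv : ∀ (g : G) z, π (g • z) = g • π z
  prop : ∀ K : Set X, IsCompact K → IsCompact (π ⁻¹' K)
  tight : IsTightMeasureSet {μ}

end Defs

end Pool.Agent.P.MP_d483fb_an.Z

end

end

section

/-!
Measures on a proper extension that project to a given invariant measure: averaging along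
commuting elements and ergodic maximisers.
-/

open scoped Topology NNReal ENNReal BoundedContinuousFunction ProbabilityTheory
open MeasureTheory Filter Set

noncomputable section

namespace Pool.Agent.P.MP_d483fb_an.Z

section Coc

variable {G Z : Type} [Group G] [TopologicalSpace Z] [MeasurableSpace Z] [BorelSpace Z]
  [MulAction G Z] {F : G → Z → ℝ}

/-- The cocycle at a fixed group element as a bounded continuous function. -/
def SubCoc.bcf (hF : SubCoc F) (g : G) : Z →ᵇ ℝ :=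
  BoundedContinuousFunction.ofNormedAddCommGroup (F g) (hF.cont g) (hF.bd g).choose
    (hF.bd g).choose_spec

theorem SubCoc.integrable (hF : SubCoc F) (g : G) (ν : Measure Z) [IsFiniteMeasure ν] :
    Integrable (F g) ν := (hF.bcf g).integrable ν

theorem SubCoc.continuous_integral (hF : SubCoc F) (g : G) :
    Continuous fun ν : ProbabilityMeasure Z => ∫ z, F g z ∂(ν : Measure Z) :=
  ProbabilityMeasure.continuous_integral_boundedContinuousFunction (hF.bcf g)

omit [MeasurableSpace Z] [BorelSpace Z] in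
theorem SubCoc.one_nonneg (hF : SubCoc F) (z : Z) : 0 ≤ F 1 z := by
  have := hF.sub 1 1 z
  rw [one_mul, one_smul] at this
  linarith

omit [MeasurableSpace Z] [BorelSpace Z] in
theorem SubCoc.pow_le (hF : SubCoc F) {a : G} {C : ℝ} (hC : ∀ z, F a z ≤ C) (j : ℕ) (z : Z) :
    F (a ^ (j + 1)) z ≤ (j + 1) * C := by
  induction j generalizing z with
  | zero => simpa using hC z
  | succ j ih =>
    have h1 := hF.sub (a ^ (j + 1)) a z
    rw [← pow_succ] at h1
    have h2 := ih (a • z)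
    have h3 := hC z
    push_cast
    linarith

omit [MeasurableSpace Z] [BorelSpace Z] in
theorem SubCoc.exists_abs_pow_le (hF : SubCoc F) (a : G) :
    ∃ C, 0 ≤ C ∧ ∀ (j : ℕ) (z : Z), |F (a ^ j) z / j| ≤ C := by
  obtain ⟨C₁, h₁⟩ := hF.bd a
  obtain ⟨C₂, h₂⟩ := hF.bd a⁻¹
  refine ⟨|C₁| + |C₂|, by positivity, fun j z => ?_⟩
  rcases j with _ | j
  · simp only [Nat.cast_zero, div_zero, abs_zero]
    positivity
  have hj : (0 : ℝ) < (j + 1 : ℕ) := by positivity
  rw [abs_div, abs_of_pos hj, div_le_iff₀ hj, abs_le]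
  have h3 := hF.pow_le (fun z => ((le_abs_self _).trans (h₁ z)).trans (le_abs_self C₁)) j z
  have h4 := hF.pow_le (fun z => ((le_abs_self _).trans (h₂ z)).trans (le_abs_self C₂)) j
    (a ^ (j + 1) • z)
  have h5 := hF.sub (a⁻¹ ^ (j + 1)) (a ^ (j + 1)) z
  rw [inv_pow, inv_mul_cancel, ← inv_pow] at h5
  have h6 := hF.one_nonneg z
  have h7 : (0 : ℝ) ≤ (j + 1) * |C₁| := by positivity
  have h8 : (0 : ℝ) ≤ (j + 1) * |C₂| := by positivity
  push_cast
  constructor <;> nlinarith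

/-- The growth rate of the cocycle along the powers of `a`. -/
def lam (F : G → Z → ℝ) (a : G) (ν : Measure Z) : ℝ :=
  sInf ((fun n : ℕ => (∫ z, F (a ^ n) z ∂ν) / n) '' Ici 1)

omit [BorelSpace Z] in
theorem SubCoc.bddBelow (hF : SubCoc F) (a : G) (ν : Measure Z) [IsProbabilityMeasure ν] :
    BddBelow (range fun n : ℕ => (∫ z, F (a ^ n) z ∂ν) / n) := by
  obtain ⟨C, -, hC⟩ := hF.exists_abs_pow_le a
  refine ⟨-C, ?_⟩
  rintro _ ⟨n, rfl⟩
  have := norm_integral_le_of_norm_le_const (μ := ν) (f := fun z => F (a ^ n) z / n)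
    (Eventually.of_forall fun z => hC n z)
  rw [integral_div, probReal_univ, mul_one, Real.norm_eq_abs] at this
  exact (abs_le.1 this).1

omit [BorelSpace Z] in
theorem SubCoc.pos_iff_le_lam (hF : SubCoc F) (a : G) (ν : Measure Z) [IsProbabilityMeasure ν]
    (e : ℝ) : Pos F e a ν ↔ e ≤ lam F a ν := by
  have hb : BddBelow ((fun n : ℕ => (∫ z, F (a ^ n) z ∂ν) / n) '' Ici 1) :=
    (hF.bddBelow a ν).mono (image_subset_range _ _)
  constructor
  · intro h
    refine le_csInf (nonempty_Ici.image _) ?_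
    rintro _ ⟨n, hn, rfl⟩
    have hn' : (0 : ℝ) < n := by exact_mod_cast hn
    exact (le_div_iff₀ hn').2 (h n)
  · intro h j
    rcases Nat.eq_zero_or_pos j with rfl | hj
    · simp only [Nat.cast_zero, mul_zero, pow_zero]
      exact integral_nonneg hF.one_nonneg
    have hj' : (0 : ℝ) < j := by exact_mod_cast hj
    exact (le_div_iff₀ hj').1 (h.trans (csInf_le hb ⟨j, hj, rfl⟩))

variable [ContinuousConstSMul G Z]

theorem SubCoc.integral_smul (hF : SubCoc F) {ν : Measure Z} {a : G} (ha : a ∈ Stab G ν) (g : G) :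
    ∫ z, F g (a • z) ∂ν = ∫ z, F g z ∂ν := by
  conv_rhs => rw [← (mem_stab_iff.1 ha).map_eq]
  rw [integral_map (measurable_const_smul a).aemeasurable (hF.cont g).aestronglyMeasurable]

theorem SubCoc.integrable_smul (hF : SubCoc F) (g a : G) (ν : Measure Z) [IsFiniteMeasure ν] :
    Integrable (fun z => F g (a • z)) ν :=
  ((hF.bcf g).compContinuous ⟨fun z => a • z, continuous_const_smul a⟩).integrable ν

theorem SubCoc.integral_mul_le (hF : SubCoc F) {ν : Measure Z} [IsFiniteMeasure ν] (g : G) {a : G}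
    (ha : a ∈ Stab G ν) : ∫ z, F (g * a) z ∂ν ≤ ∫ z, F g z ∂ν + ∫ z, F a z ∂ν := by
  rw [← hF.integral_smul ha g, ← integral_add (hF.integrable_smul g a ν) (hF.integrable a ν)]
  exact integral_mono (hF.integrable _ ν) ((hF.integrable_smul g a ν).add (hF.integrable a ν))
    fun z => hF.sub g a z

theorem SubCoc.subadditive (hF : SubCoc F) {ν : Measure Z} [IsFiniteMeasure ν] {a : G}
    (ha : a ∈ Stab G ν) : Subadditive fun n : ℕ => ∫ z, F (a ^ n) z ∂ν := by
  intro m n
  simp only [pow_add]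
  exact hF.integral_mul_le _ ((Stab G ν).pow_mem ha n)

theorem SubCoc.tendsto_lam (hF : SubCoc F) {ν : Measure Z} [IsProbabilityMeasure ν] {a : G}
    (ha : a ∈ Stab G ν) :
    Tendsto (fun n : ℕ => (∫ z, F (a ^ n) z ∂ν) / n) atTop (𝓝 (lam F a ν)) := by
  have := (hF.subadditive ha).tendsto_lim (hF.bddBelow a ν)
  rwa [Subadditive.lim] at this

theorem SubCoc.pos_of_approx (hF : SubCoc F) {ν : Measure Z} [IsProbabilityMeasure ν] {a : G}
    (ha : a ∈ Stab G ν) {e C : ℝ} (h : ∀ j : ℕ, e * j - C ≤ ∫ z, F (a ^ j) z ∂ν) :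
    Pos F e a ν := by
  rw [hF.pos_iff_le_lam]
  have h1 : Tendsto (fun n : ℕ => e - C / n) atTop (𝓝 (e - 0)) :=
    tendsto_const_nhds.sub (tendsto_const_div_atTop_nhds_zero_nat C)
  rw [sub_zero] at h1
  refine le_of_tendsto_of_tendsto h1 (hF.tendsto_lam ha) ?_
  filter_upwards [eventually_ge_atTop 1] with n hn
  have hn' : (0 : ℝ) < n := by exact_mod_cast hn
  rw [le_div_iff₀ hn', sub_mul, div_mul_cancel₀ _ hn'.ne']
  exact h n

theorem SubCoc.lam_eq (hF : SubCoc F) {ν : Measure Z} [IsProbabilityMeasure ν] {a : G}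
    (ha : a ∈ Stab G ν) {l : ℝ}
    (hl : ∀ᵐ z ∂ν, Tendsto (fun j : ℕ => F (a ^ j) z / j) atTop (𝓝 l)) : lam F a ν = l := by
  obtain ⟨C, -, hC⟩ := hF.exists_abs_pow_le a
  have h := tendsto_integral_of_dominated_convergence (μ := ν)
    (F := fun (j : ℕ) z => F (a ^ j) z / j) (f := fun _ => l) (fun _ => C)
    (fun j => ((hF.cont _).div_const _).aestronglyMeasurable) (integrable_const C)
    (fun j => Eventually.of_forall fun z => hC j z) hl
  simp only [integral_div, integral_const, probReal_univ, one_smul] at h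
  exact tendsto_nhds_unique (hF.tendsto_lam ha) h

/-- (A8) -/
theorem SubCoc.pos_iff (hF : SubCoc F) {ν : Measure Z} [IsProbabilityMeasure ν] {a : G}
    (ha : a ∈ Stab G ν) {lam : ℝ}
    (hlam : ∀ᵐ z ∂ν, Tendsto (fun j : ℕ => F (a ^ j) z / j) atTop (𝓝 lam)) (e : ℝ) :
    Pos F e a ν ↔ e ≤ lam := by
  rw [hF.pos_iff_le_lam, hF.lam_eq ha hlam]

omit [ContinuousConstSMul G Z] in
theorem SubCoc.integral_mix (hF : SubCoc F) {ν ν' ρ : ProbabilityMeasure Z} {s t : ℝ≥0}
    (hρ : (ρ : Measure Z) = s • (ν : Measure Z) + t • (ν' : Measure Z)) (g : G) :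
    ∫ z, F g z ∂(ρ : Measure Z) =
      s * ∫ z, F g z ∂(ν : Measure Z) + t * ∫ z, F g z ∂(ν' : Measure Z) :=
  congrFun (emb_mix hρ) (hF.bcf g)

theorem SubCoc.lam_mix (hF : SubCoc F) {ν ν' ρ : ProbabilityMeasure Z} {s t : ℝ≥0}
    (hρ : (ρ : Measure Z) = s • (ν : Measure Z) + t • (ν' : Measure Z)) {a : G}
    (h0 : a ∈ Stab G (ρ : Measure Z)) (h1 : a ∈ Stab G (ν : Measure Z))
    (h2 : a ∈ Stab G (ν' : Measure Z)) :
    lam F a (ρ : Measure Z) = s * lam F a (ν : Measure Z) + t * lam F a (ν' : Measure Z) := by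
  refine tendsto_nhds_unique (hF.tendsto_lam h0) ?_
  refine (((hF.tendsto_lam h1).const_mul (s : ℝ)).add
    ((hF.tendsto_lam h2).const_mul (t : ℝ))).congr fun n => ?_
  rw [hF.integral_mix hρ]
  ring

omit [ContinuousConstSMul G Z] in
theorem SubCoc.isClosed_pos (hF : SubCoc F) (e : ℝ) (a : G) :
    IsClosed {ν : ProbabilityMeasure Z | Pos F e a (ν : Measure Z)} := by
  simp only [Pos, ofPred_forall]
  exact isClosed_iInter fun j => isClosed_le continuous_const (hF.continuous_integral _)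

omit [ContinuousConstSMul G Z] in
theorem SubCoc.cvx_pos (hF : SubCoc F) (e : ℝ) (a : G) :
    Cvx {ν : ProbabilityMeasure Z | Pos F e a (ν : Measure Z)} := by
  intro ν hν ν' hν' s t hst ρ hρ j
  rw [hF.integral_mix hρ]
  have h1 : (s : ℝ) + t = 1 := by exact_mod_cast hst
  have h2 := mul_le_mul_of_nonneg_left (hν j) s.2
  have h3 := mul_le_mul_of_nonneg_left (hν' j) t.2
  simp only [NNReal.val_eq_coe] at h2 h3
  calc e * j = s * (e * j) + t * (e * j) := by rw [← add_mul, h1, one_mul]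
    _ ≤ _ := add_le_add h2 h3

/-- Translating an invariant measure by a commuting element keeps the growth rate. -/
theorem SubCoc.pos_map (hF : SubCoc F) {ν : Measure Z} [IsProbabilityMeasure ν] {a c : G}
    (hac : Commute a c) (ha : a ∈ Stab G (ν.map fun z => c • z)) {e : ℝ} (hp : Pos F e a ν) :
    Pos F e a (ν.map fun z => c • z) := by
  have := Measure.isProbabilityMeasure_map (μ := ν) (measurable_const_smul c).aemeasurable
  obtain ⟨C₁, h₁⟩ := hF.bd c⁻¹
  obtain ⟨C₂, h₂⟩ := hF.bd c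
  refine hF.pos_of_approx ha (C := C₁ + C₂) fun j => ?_
  rw [integral_map (measurable_const_smul c).aemeasurable (hF.cont _).aestronglyMeasurable]
  have h3 : ∫ z, F (a ^ j) z ∂ν ≤ ∫ z, (F (a ^ j) (c • z) + (C₁ + C₂)) ∂ν := by
    refine integral_mono (hF.integrable _ ν)
      ((hF.integrable_smul _ c ν).add (integrable_const _)) fun z => ?_
    have e1 : a ^ j = c⁻¹ * (a ^ j * c) := by
      rw [(hac.pow_left j).eq, inv_mul_cancel_left]
    have h4 := hF.sub c⁻¹ (a ^ j * c) z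
    rw [← e1] at h4
    have h5 := hF.sub (a ^ j) c z
    have h6 := (le_abs_self _).trans (h₁ ((a ^ j * c) • z))
    have h7 := (le_abs_self _).trans (h₂ z)
    change F (a ^ j) z ≤ F (a ^ j) (c • z) + (C₁ + C₂)
    linarith
  rw [integral_add (hF.integrable_smul _ c ν) (integrable_const _), integral_const, probReal_univ,
    one_smul] at h3
  linarith [hp j]

end Coc

section Main

variable {G Z X : Type} [Group G]
  [TopologicalSpace Z] [T2Space Z] [HasOuterApproxClosed Z] [MeasurableSpace Z] [BorelSpace Z]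
  [MulAction G Z] [ContinuousConstSMul G Z]
  [TopologicalSpace X] [T2Space X] [HasOuterApproxClosed X] [MeasurableSpace X] [BorelSpace X]
  [MulAction G X] [ContinuousConstSMul G X]
  {μ : Measure X} [IsProbabilityMeasure μ] [SMulInvariantMeasure G X μ]
  {π : Z → X} {F : G → Z → ℝ}

omit [T2Space Z] in
theorem isClosed_stab {G : Type} [Group G] [TopologicalSpace G] [FirstCountableTopology G]
    [MulAction G Z] [ContinuousSMul G Z] (ν : Measure Z) [IsFiniteMeasure ν] :
    IsClosed (Stab G ν : Set G) := by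
  have : (Stab G ν : Set G) = ⋂ f : Z →ᵇ ℝ, {g | ∫ z, f (g • z) ∂ν = ∫ z, f z ∂ν} := by
    ext g
    simp only [SetLike.mem_coe, mem_stab_iff, mem_iInter, mem_ofPred_eq]
    constructor
    · intro h f
      conv_rhs => rw [← h.map_eq]
      rw [integral_map (measurable_const_smul g).aemeasurable f.continuous.aestronglyMeasurable]
    · intro h
      refine ⟨measurable_const_smul g, ext_of_forall_integral_eq_of_IsFiniteMeasure fun f => ?_⟩
      rw [integral_map (measurable_const_smul g).aemeasurable f.continuous.aestronglyMeasurable]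
      exact h f
  rw [this]
  refine isClosed_iInter fun f => isClosed_eq ?_ continuous_const
  refine continuous_of_dominated (bound := fun _ => ‖f‖)
    (fun g => (f.continuous.comp (continuous_const_smul g)).aestronglyMeasurable)
    (fun g => Eventually.of_forall fun z => f.norm_coe_le_norm _) (integrable_const _)
    (Eventually.of_forall fun z => f.continuous.comp (continuous_id.smul continuous_const))

/-- The `H`-invariant probability measures over `μ`. -/
def Ovr (π : Z → X) (μ : Measure X) (H : Subgroup G) : Set (ProbabilityMeasure Z) :=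
  {ν | (ν : Measure Z).map π = μ ∧ H ≤ Stab G (ν : Measure Z)}

omit [ContinuousConstSMul G X] [SMulInvariantMeasure G X μ] in
theorem IsExt.isCompact (hπ : IsExt G π μ) (H : Subgroup G) : IsCompact (Ovr π μ H) := by
  have hm : Measurable π := hπ.cont.measurable
  have hcl : IsClosed (Ovr π μ H) := by
    have e : Ovr π μ H = {ν : ProbabilityMeasure Z | ν.map hm.aemeasurable = ⟨μ, inferInstance⟩} ∩
        ⋂ h ∈ H, {ν : ProbabilityMeasure Z |
          MeasurePreserving (fun z : Z => h • z) (ν : Measure Z) ν} := by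
      ext ν
      simp only [Ovr, mem_ofPred_eq, mem_inter_iff, mem_iInter]
      refine and_congr ⟨fun h => Subtype.ext h, fun h => ?_⟩ Iff.rfl
      exact congrArg (fun ρ : ProbabilityMeasure X => (ρ : Measure X)) h
    rw [e]
    exact (isClosed_eq (ProbabilityMeasure.continuous_map hπ.cont) continuous_const).inter
      (isClosed_biInter fun h _ => isClosed_fixed (continuous_const_smul h))
  rw [← hcl.closure_eq]
  refine isCompact_closure_of_isTightMeasureSet ?_
  rw [isTightMeasureSet_iff_exists_isCompact_measure_compl_le]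
  intro ε hε
  obtain ⟨K, hK, h⟩ := isTightMeasureSet_iff_exists_isCompact_measure_compl_le.1 hπ.tight ε hε
  refine ⟨π ⁻¹' K, hπ.prop K hK, ?_⟩
  rintro _ ⟨ν, hν, rfl⟩
  rw [← preimage_compl, ← Measure.map_apply hm hK.measurableSet.compl, hν.1]
  exact h μ rfl

omit [T2Space Z] [HasOuterApproxClosed Z] [T2Space X] [HasOuterApproxClosed X]
  [ContinuousConstSMul G X] [IsProbabilityMeasure μ] [SMulInvariantMeasure G X μ] in
theorem IsExt.cvx (hπ : IsExt G π μ) (H : Subgroup G) : Cvx (Ovr π μ H) := by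
  intro ν hν ν' hν' s t hst ρ hρ
  refine ⟨?_, fun h hh => cvx_fixed ν (hν.2 hh) ν' (hν'.2 hh) s t hst ρ hρ⟩
  rw [hρ, Measure.map_add _ _ hπ.cont.measurable, Measure.map_smul, Measure.map_smul, hν.1, hν'.1,
    ← add_smul, hst, one_smul]

omit [T2Space Z] [HasOuterApproxClosed Z] [T2Space X] [HasOuterApproxClosed X]
  [IsProbabilityMeasure μ] [SMulInvariantMeasure G X μ] in
theorem IsExt.map_smul_map (hπ : IsExt G π μ) (ν : Measure Z) (c : G) :
    (ν.map fun z => c • z).map π = (ν.map π).map fun x => c • x := by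
  rw [Measure.map_map hπ.cont.measurable (measurable_const_smul c),
    Measure.map_map (measurable_const_smul c) hπ.cont.measurable]
  exact congrArg (fun f => ν.map f) (funext fun z => hπ.eqv c z)

omit [T2Space Z] [HasOuterApproxClosed Z] in
theorem mem_stab_map {ν : Measure Z} {c h : G} (hh : c⁻¹ * h * c ∈ Stab G ν) :
    h ∈ Stab G (ν.map fun z => c • z) := by
  refine ⟨measurable_const_smul h, ?_⟩
  conv_rhs => rw [← (mem_stab_iff.1 hh).map_eq]
  rw [Measure.map_map (measurable_const_smul h) (measurable_const_smul c),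
    Measure.map_map (measurable_const_smul c) (measurable_const_smul _)]
  refine congrArg (fun f => ν.map f) (funext fun z => ?_)
  simp [mul_smul]

/-- (A2) -/
theorem IsExt.average (hπ : IsExt G π μ) (hF : SubCoc F) (H : Subgroup G) (C : Set G)
    (hC : ∀ c ∈ C, ∀ c' ∈ C, Commute c c') (hCH : ∀ c ∈ C, ∀ h ∈ H, c⁻¹ * h * c ∈ H)
    {a : G} (ha : a ∈ H) (haC : ∀ c ∈ C, Commute a c) {e : ℝ}
    {ν : Measure Z} [IsProbabilityMeasure ν] (hν : ν.map π = μ) (hH : H ≤ Stab G ν)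
    (hp : Pos F e a ν) :
    ∃ ν' : Measure Z, IsProbabilityMeasure ν' ∧ ν'.map π = μ ∧ H ≤ Stab G ν' ∧
      C ⊆ Stab G ν' ∧ Pos F e a ν' := by
  obtain ⟨ρ, hρ, h⟩ := exists_fixed_all
    ((hπ.isCompact H).inter_right (hF.isClosed_pos e a)) ((hπ.cvx H).inter (hF.cvx_pos e a))
    ⟨⟨ν, inferInstance⟩, ⟨hν, hH⟩, hp⟩ (I := C) (T := fun c z => c.1 • z)
    (fun c => continuous_const_smul c.1)
    (fun c c' z => by simp only [← mul_smul, (hC c c.2 c' c'.2).eq]) (by
      rintro c ρ ⟨⟨h1, h2⟩, h3⟩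
      have h4 : H ≤ Stab G ((ρ : Measure Z).map fun z => c.1 • z) :=
        fun h hh => mem_stab_map (h2 (hCH c c.2 h hh))
      refine ⟨⟨?_, h4⟩, hF.pos_map (haC c c.2) (h4 ha) h3⟩
      change ((ρ : Measure Z).map fun z => c.1 • z).map π = μ
      rw [hπ.map_smul_map, h1]
      exact (measurePreserving_smul c.1 μ).map_eq)
  exact ⟨ρ, inferInstance, hρ.1.1, hρ.1.2, fun c hc => h ⟨c, hc⟩, hρ.2⟩

omit [T2Space Z] [HasOuterApproxClosed Z] [T2Space X] [HasOuterApproxClosed X] in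
theorem IsExt.cond_mem (hπ : IsExt G π μ) {H : Subgroup G}
    (herg : ∃ h ∈ H, Ergodic (fun x : X => h • x) μ) {ρ : ProbabilityMeasure Z}
    (hρ : ρ ∈ Ovr π μ H) {U : Set Z} (hU : MeasurableSet U)
    (hinv : ∀ h ∈ H, (fun z => h • z) ⁻¹' U =ᵐ[(ρ : Measure Z)] U) (h0 : (ρ : Measure Z) U ≠ 0) :
    (⟨(ρ : Measure Z)[|U], ProbabilityTheory.cond_isProbabilityMeasure h0⟩ :
      ProbabilityMeasure Z) ∈ Ovr π μ H := by
  have := ProbabilityTheory.cond_isProbabilityMeasure h0
  have hH : H ≤ Stab G ((ρ : Measure Z)[|U]) := by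
    intro h hh
    have h1 := (mem_stab_iff.1 (hρ.2 hh)).restrict_preimage hU
    rw [Measure.restrict_congr_set (hinv h hh)] at h1
    exact h1.smul_measure _
  refine ⟨?_, hH⟩
  obtain ⟨h, hh, he⟩ := herg
  have hm : Measurable π := hπ.cont.measurable
  change ((ρ : Measure Z)[|U]).map π = μ
  have := Measure.isProbabilityMeasure_map (μ := (ρ : Measure Z)[|U]) hm.aemeasurable
  refine he.eq_of_absolutelyContinuous ⟨measurable_const_smul h, ?_⟩ ?_
  · rw [← hπ.map_smul_map, (mem_stab_iff.1 (hH hh)).map_eq]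
  · rw [← hρ.1]
    exact ProbabilityTheory.cond_absolutelyContinuous.map hm

/-- An upper semicontinuous convex functional has an ergodic maximiser. -/
theorem IsExt.exists_erg_max (hπ : IsExt G π μ) {H : Subgroup G}
    (herg : ∃ h ∈ H, Ergodic (fun x : X => h • x) μ) {L : ProbabilityMeasure Z → ℝ}
    (husc : ∀ e, IsClosed {ν | e ≤ L ν})
    (hcv : ∀ ν ∈ Ovr π μ H, ∀ ν' ∈ Ovr π μ H, ∀ ρ ∈ Ovr π μ H, ∀ s t : ℝ≥0,
      (ρ : Measure Z) = s • (ν : Measure Z) + t • (ν' : Measure Z) → L ρ ≤ s * L ν + t * L ν')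
    (hne : (Ovr π μ H).Nonempty) :
    ∃ ρ ∈ Ovr π μ H, ErgFor H (ρ : Measure Z) ∧ ∀ ν ∈ Ovr π μ H, L ν ≤ L ρ := by
  have hu : UpperSemicontinuous L := upperSemicontinuous_iff_isClosed_preimage.2 husc
  obtain ⟨ν₀, hν₀, hmax⟩ :=
    (hu.upperSemicontinuousOn _).exists_isMaxOn hne (hπ.isCompact H)
  obtain ⟨ρ, ⟨hρ, hρm⟩, hext⟩ := exists_extreme ((hπ.isCompact H).inter_right (husc (L ν₀)))
    ⟨ν₀, hν₀, le_refl (L ν₀)⟩
  have hρm' : L ν₀ ≤ L ρ := hρm
  refine ⟨ρ, hρ, fun U hU hinv => ?_, fun ν hν => (hmax hν).trans hρm'⟩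
  by_contra hcon
  rw [not_or] at hcon
  have hinv' : ∀ h ∈ H, (fun z => h • z) ⁻¹' Uᶜ =ᵐ[(ρ : Measure Z)] Uᶜ := fun h hh => by
    rw [preimage_compl]
    exact (hinv h hh).compl
  have m1 := hπ.cond_mem herg hρ hU hinv hcon.1
  have m2 := hπ.cond_mem herg hρ hU.compl hinv' hcon.2
  set ν₁ : ProbabilityMeasure Z :=
    ⟨(ρ : Measure Z)[|U], ProbabilityTheory.cond_isProbabilityMeasure hcon.1⟩ with hν₁
  set ν₂ : ProbabilityMeasure Z :=
    ⟨(ρ : Measure Z)[|Uᶜ], ProbabilityTheory.cond_isProbabilityMeasure hcon.2⟩ with hν₂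
  set s : ℝ≥0 := ((ρ : Measure Z) U).toNNReal with hs
  set t : ℝ≥0 := ((ρ : Measure Z) Uᶜ).toNNReal with ht
  have hs' : (s : ℝ≥0∞) = (ρ : Measure Z) U := ENNReal.coe_toNNReal (measure_ne_top _ _)
  have ht' : (t : ℝ≥0∞) = (ρ : Measure Z) Uᶜ := ENNReal.coe_toNNReal (measure_ne_top _ _)
  have hs0 : 0 < s := ENNReal.toNNReal_pos hcon.1 (measure_ne_top _ _)
  have ht0 : 0 < t := ENNReal.toNNReal_pos hcon.2 (measure_ne_top _ _)
  have hst : s + t = 1 := by
    apply ENNReal.coe_injective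
    rw [ENNReal.coe_add, hs', ht', measure_add_measure_compl hU, measure_univ, ENNReal.coe_one]
  have hmix : (ρ : Measure Z) = s • (ν₁ : Measure Z) + t • (ν₂ : Measure Z) := by
    change (ρ : Measure Z) = s • (ρ : Measure Z)[|U] + t • (ρ : Measure Z)[|Uᶜ]
    rw [ENNReal.smul_def, ENNReal.smul_def, hs', ht', ProbabilityTheory.cond,
      ProbabilityTheory.cond, smul_smul, smul_smul,
      ENNReal.mul_inv_cancel hcon.1 (measure_ne_top _ _),
      ENNReal.mul_inv_cancel hcon.2 (measure_ne_top _ _), one_smul, one_smul,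
      Measure.restrict_add_restrict_compl hU]
  have h1 := hcv ν₁ m1 ν₂ m2 ρ hρ s t hmix
  have h2 : L ν₁ ≤ L ν₀ := hmax m1
  have h3 : L ν₂ ≤ L ν₀ := hmax m2
  have hst' : (s : ℝ) + t = 1 := by exact_mod_cast hst
  have hs1 : (0 : ℝ) < s := hs0
  have ht1 : (0 : ℝ) < t := ht0
  have h4 : L ν₀ = s * L ν₀ + t * L ν₀ := by rw [← add_mul, hst', one_mul]
  have h5 : L ν₀ ≤ L ν₁ := by
    refine le_of_mul_le_mul_left ?_ hs1
    nlinarith [mul_le_mul_of_nonneg_left h3 ht1.le]
  have h6 : L ν₀ ≤ L ν₂ := by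
    refine le_of_mul_le_mul_left ?_ ht1
    nlinarith [mul_le_mul_of_nonneg_left h2 hs1.le]
  have h7 := hext ν₁ ⟨m1, h5⟩ ν₂ ⟨m2, h6⟩ s t hs0 ht0 hst hmix
  apply hcon.2
  rw [← h7]
  change (ρ : Measure Z)[|U] Uᶜ = 0
  rw [ProbabilityTheory.cond_apply hU, inter_compl_self, measure_empty, mul_zero]

/-- (A6) -/
theorem IsExt.exists_erg (hπ : IsExt G π μ) (hF : SubCoc F) (H : Subgroup G)
    (herg : ∃ h ∈ H, Ergodic (fun x : X => h • x) μ) {a : G} (ha : a ∈ H) {e : ℝ}
    {ν : Measure Z} [IsProbabilityMeasure ν] (hν : ν.map π = μ) (hH : H ≤ Stab G ν)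
    (hp : Pos F e a ν) :
    ∃ ν' : Measure Z, IsProbabilityMeasure ν' ∧ ν'.map π = μ ∧ H ≤ Stab G ν' ∧
      ErgFor H ν' ∧ Pos F e a ν' := by
  obtain ⟨ρ, hρ, he, hmax⟩ := hπ.exists_erg_max herg
    (L := fun ρ : ProbabilityMeasure Z => lam F a (ρ : Measure Z))
    (fun e => by
      have := hF.isClosed_pos e a
      simpa only [hF.pos_iff_le_lam] using this)
    (fun ν₁ h₁ ν₂ h₂ ρ h₀ s t hρ => (hF.lam_mix hρ (h₀.2 ha) (h₁.2 ha) (h₂.2 ha)).le)
    ⟨⟨ν, inferInstance⟩, hν, hH⟩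
  refine ⟨ρ, inferInstance, hρ.1, hρ.2, he, (hF.pos_iff_le_lam a _ e).2 ?_⟩
  exact ((hF.pos_iff_le_lam a ν e).1 hp).trans (hmax ⟨ν, inferInstance⟩ ⟨hν, hH⟩)

/-- (A7) -/
theorem IsExt.mem_stab_of_erg (hπ : IsExt G π μ) (H : Subgroup G)
    (herg : ∃ h ∈ H, Ergodic (fun x : X => h • x) μ) {g : G}
    (hg : ∀ ν : Measure Z, IsProbabilityMeasure ν → ν.map π = μ → H ≤ Stab G ν → ErgFor H ν →
      g ∈ Stab G ν)
    {ν : Measure Z} [IsProbabilityMeasure ν] (hν : ν.map π = μ) (hH : H ≤ Stab G ν) :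
    g ∈ Stab G ν := by
  have key : ∀ f : Z →ᵇ ℝ, ∫ z, f (g • z) ∂ν ≤ ∫ z, f z ∂ν := by
    intro f
    let f' : Z →ᵇ ℝ := f.compContinuous ⟨fun z => g • z, continuous_const_smul g⟩
    obtain ⟨ρ, hρ, he, hmax⟩ := hπ.exists_erg_max herg
      (L := fun ρ : ProbabilityMeasure Z => emb ρ f' - emb ρ f)
      (fun e => isClosed_le continuous_const
        (((continuous_apply f').comp continuous_emb).sub
          ((continuous_apply f).comp continuous_emb)))
      (fun ν₁ _ ν₂ _ ρ _ s t hρ => by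
        rw [emb_mix hρ]
        simp only [Pi.add_apply, Pi.smul_apply, smul_eq_mul]
        linarith)
      ⟨⟨ν, inferInstance⟩, hν, hH⟩
    have h1 := mem_stab_iff.1 (hg ρ inferInstance hρ.1 hρ.2 he)
    have h2 : emb ρ f = emb ρ f' := by
      simp only [emb]
      conv_lhs => rw [← h1.map_eq]
      rw [integral_map (measurable_const_smul g).aemeasurable f.continuous.aestronglyMeasurable]
      rfl
    have h3 := hmax ⟨ν, inferInstance⟩ ⟨hν, hH⟩
    rw [h2, sub_self, sub_nonpos] at h3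
    exact h3
  refine ⟨measurable_const_smul g, ext_of_forall_integral_eq_of_IsFiniteMeasure fun f => ?_⟩
  rw [integral_map (measurable_const_smul g).aemeasurable f.continuous.aestronglyMeasurable]
  refine le_antisymm (key f) ?_
  have := key (-f)
  simp only [BoundedContinuousFunction.coe_neg, Pi.neg_apply, integral_neg, neg_le_neg_iff] at this
  exact this

end Main

end Pool.Agent.P.MP_d483fb_an.Z

end

end

section

/-!
The solvable group `A N`: a family of closed subgroups that is stable under adding commuting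
normalising elements has a member containing `A N`.
-/

open scoped Matrix Matrix.Norms.Operator InnerProductSpace RealInnerProductSpace Topology
open NormedSpace Filter Set

set_option linter.unusedSectionVars false

noncomputable section

namespace Pool.Agent.P.MP_d483fb_an.Z

/-- A family of closed subgroups to which commuting normalising elements can be added. -/
structure Fam {G : Type} [Group G] [TopologicalSpace G] (F : Set (Subgroup G)) : Prop where
  closed : ∀ Q ∈ F, IsClosed (Q : Set G)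
  add : ∀ Q ∈ F, ∀ H : Subgroup G, H ≤ Q → ∀ C : Set G, (∀ c ∈ C, ∀ c' ∈ C, c * c' = c' * c) →
    (∀ c ∈ C, ∀ h ∈ H, c⁻¹ * h * c ∈ H) → ∃ Q' ∈ F, H ≤ Q' ∧ C ⊆ Q'

variable {G : Type} [Group G] [TopologicalSpace G] [IsTopologicalGroup G] {n k : ℕ}
  {F : Set (Subgroup G)}

theorem an_br_smul_left (t : ℝ) (Y Z : Mat n) : ⁅t • Y, Z⁆ = t • ⁅Y, Z⁆ := by
  simp only [Ring.lie_def, smul_mul_assoc, mul_smul_comm, smul_sub]

theorem ExpData.an_ex_mem_grp (D : ExpData G n) {v : Submodule ℝ (Mat n)} {X : Mat n} (hX : X ∈ v) :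
    D.ex X ∈ D.grp v := Subgroup.subset_closure ⟨X, hX, rfl⟩

theorem ExpData.an_grp_conj (D : ExpData G n) {v : Submodule ℝ (Mat n)} (hv : v ≤ D.g) {Y : Mat n}
    (hY : Y ∈ D.g) (h : ∀ Z ∈ v, ⁅Y, Z⁆ ∈ v) {y : G} (hy : y ∈ D.grp v) :
    (D.ex Y)⁻¹ * y * D.ex Y ∈ D.grp v := by
  have := D.grp_normal hv (x := D.ex (-Y)) (fun X hX => D.Ad_ex_mem (D.g.neg_mem hY)
    (fun Z hZ => by rw [← neg_one_smul ℝ Y, an_br_smul_left]; exact v.smul_mem _ (h Z hZ)) hX) hy
  rwa [D.ex_neg hY, inv_inv] at this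

theorem Fam.add_one (hF : Fam F) (D : ExpData G n) {v : Submodule ℝ (Mat n)} {Y : Mat n}
    (hY : Y ∈ D.g) (h : ∀ Z ∈ v, ⁅Y, Z⁆ ∈ v) (hQ : ∃ Q ∈ F, v ≤ D.lie Q) :
    ∃ Q ∈ F, v ≤ D.lie Q ∧ Y ∈ D.lie Q := by
  obtain ⟨Q, hQ, hv⟩ := hQ
  have hg : v ≤ D.g := hv.trans (D.lie_le Q)
  obtain ⟨Q', hQ', h1, h2⟩ := hF.add Q hQ (D.grp v) (D.grp_le (hF.closed Q hQ) hv)
    (range fun t : ℝ => D.ex (t • Y))
    (by
      rintro _ ⟨s, rfl⟩ _ ⟨t, rfl⟩
      rw [← D.ex_add_smul hY, ← D.ex_add_smul hY, add_comm])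
    (by
      rintro _ ⟨t, rfl⟩ y hy
      exact D.an_grp_conj hg (D.g.smul_mem t hY)
        (fun Z hZ => by rw [an_br_smul_left]; exact v.smul_mem t (h Z hZ)) hy)
  exact ⟨Q', hQ', D.le_lie hg fun X hX => h1 (D.an_ex_mem_grp hX),
    D.mem_lie_of hY fun t => h2 ⟨t, rfl⟩⟩

theorem Fam.add_sub (hF : Fam F) (D : ExpData G n) {v w : Submodule ℝ (Mat n)} (hvw : v ≤ w)
    (hw : w ≤ D.g) (h : ∀ Y ∈ w, ∀ Z ∈ w, ⁅Y, Z⁆ ∈ v) (hQ : ∃ Q ∈ F, v ≤ D.lie Q) :
    ∃ Q ∈ F, w ≤ D.lie Q := by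
  classical
  obtain ⟨T, hT⟩ : w.FG := IsNoetherian.noetherian w
  have key : ∀ T' : Finset (Mat n), (T' : Set (Mat n)) ⊆ w →
      ∃ Q ∈ F, v ⊔ Submodule.span ℝ (T' : Set (Mat n)) ≤ D.lie Q := by
    intro T'
    induction T' using Finset.induction_on with
    | empty => intro _; simpa using hQ
    | insert Y T' _ ih =>
      intro hs
      rw [Finset.coe_insert, insert_subset_iff] at hs
      have hle : v ⊔ Submodule.span ℝ (T' : Set (Mat n)) ≤ w :=
        sup_le hvw (Submodule.span_le.mpr hs.2)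
      obtain ⟨Q, hQ, h1, h2⟩ := hF.add_one D (hw hs.1)
        (fun Z hZ => Submodule.mem_sup_left (h Y hs.1 Z (hle hZ))) (ih hs.2)
      refine ⟨Q, hQ, sup_le (le_sup_left.trans h1) (Submodule.span_le.mpr ?_)⟩
      rw [Finset.coe_insert, insert_subset_iff]
      exact ⟨h2, fun Z hZ => h1 (Submodule.mem_sup_right (Submodule.subset_span hZ))⟩
  obtain ⟨Q, hQ, h1⟩ := key T (hT ▸ Submodule.subset_span)
  exact ⟨Q, hQ, hT ▸ le_sup_right.trans h1⟩

namespace Std

variable (D : Std G n k)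

theorem an_br_grS {S T R : Set (Euc k)} {X Y : Mat n} (hX : X ∈ D.grS S) (hY : Y ∈ D.grS T)
    (h : ∀ β ∈ S, ∀ γ ∈ T, β + γ ∈ R) : ⁅X, Y⁆ ∈ D.grS R := by
  refine ⟨D.br_mem hX.1 hY.1, ?_⟩
  rw [Ring.lie_def]
  exact (D.wtS R).sub_mem (D.wtS_mul hX.2 hY.2 h)
    (D.wtS_mul hY.2 hX.2 fun β hβ γ hγ => add_comm β γ ▸ h γ hγ β hβ)

theorem an_dg_grS (s : Euc k) : D.dg s ∈ D.grS {0} := by
  refine ⟨D.dg_mem s, fun i j hij => ?_⟩
  obtain rfl : i = j := by
    by_contra hne
    exact hij (Matrix.diagonal_apply_ne _ hne)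
  simp

theorem an_a_comm (s t : Euc k) : D.a s * D.a t = D.a t * D.a s := by
  have h : ∀ s t : Euc k, D.a s * D.a t = D.ex (D.dg s + D.dg t) := fun s t =>
    (D.ex_add_of_commute (D.dg_mem s) (D.dg_mem t) (by
      rw [Ring.lie_def, dg_apply, dg_apply, Matrix.diagonal_mul_diagonal,
        Matrix.diagonal_mul_diagonal, sub_eq_zero]
      congr 1
      funext i
      exact mul_comm _ _)).symm
  rw [h, h, add_comm]

/-- A member of the family contains the horospherical group. -/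
theorem fam_np (hF : Fam F) (hne : F.Nonempty) (P : Euc k) : ∃ Q ∈ F, D.np P ≤ D.lie Q := by
  classical
  obtain ⟨c, hc, hc'⟩ : ∃ c : ℝ, 0 < c ∧ ∀ i j, 0 < ⟪D.lam i - D.lam j, P⟫ →
      c ≤ ⟪D.lam i - D.lam j, P⟫ := by
    have : ∀ᶠ c in 𝓝[>] (0 : ℝ), ∀ p : Fin n × Fin n, 0 < ⟪D.lam p.1 - D.lam p.2, P⟫ →
        c ≤ ⟪D.lam p.1 - D.lam p.2, P⟫ := by
      refine eventually_all.mpr fun p => ?_
      by_cases hp : 0 < ⟪D.lam p.1 - D.lam p.2, P⟫
      · exact ((eventually_le_nhds hp).filter_mono nhdsWithin_le_nhds).mono fun c hc _ => hc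
      · exact Eventually.of_forall fun c h => absurd h hp
    obtain ⟨c, h1, h2⟩ := (this.and self_mem_nhdsWithin).exists
    exact ⟨c, h2, fun i j => h1 (i, j)⟩
  obtain ⟨m, hm⟩ : ∃ m : ℕ, ∀ p : Fin n × Fin n, ⟪D.lam p.1 - D.lam p.2, P⟫ < c * 2 ^ m := by
    have : ∀ᶠ m : ℕ in atTop, ∀ p : Fin n × Fin n, ⟪D.lam p.1 - D.lam p.2, P⟫ < c * 2 ^ m :=
      eventually_all.mpr fun p => ((tendsto_pow_atTop_atTop_of_one_lt one_lt_two).const_mul_atTop
        hc).eventually (eventually_gt_atTop _)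
    exact this.exists
  have key : ∀ j : ℕ, (∃ Q ∈ F, D.grS {γ | c * 2 ^ j ≤ ⟪γ, P⟫} ≤ D.lie Q) →
      ∃ Q ∈ F, D.grS {γ | c ≤ ⟪γ, P⟫} ≤ D.lie Q := by
    intro j
    induction j with
    | zero => simp
    | succ j ih =>
      intro h
      have hp : 0 < c * 2 ^ j := by positivity
      refine ih (hF.add_sub D.toExpData (v := D.grS {γ | c * 2 ^ (j + 1) ≤ ⟪γ, P⟫})
        (fun X hX => ⟨hX.1, fun a b hab => ?_⟩) inf_le_left
        (fun Y hY Z hZ => D.an_br_grS hY hZ fun β hβ γ hγ => ?_) h)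
      · have := hX.2 a b hab
        simp only [mem_ofPred_eq, pow_succ] at this ⊢
        linarith
      · simp only [mem_ofPred_eq, pow_succ, inner_add_left] at hβ hγ ⊢
        linarith
  obtain ⟨Q₀, hQ₀⟩ := hne
  obtain ⟨Q, hQ, h⟩ := key m ⟨Q₀, hQ₀, fun X hX => by
    obtain rfl : X = 0 := by
      ext a b
      by_contra hab
      exact absurd (hX.2 a b hab) (not_le.mpr (hm (a, b)))
    exact zero_mem _⟩
  exact ⟨Q, hQ, fun X hX => h ⟨hX.1, fun a b hab => hc' a b (hX.2 a b hab)⟩⟩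

/-- A member of the family contains `A N`. -/
theorem fam_AN (hF : Fam F) (hne : F.Nonempty) (P : Euc k) :
    ∃ Q ∈ F, D.N P ≤ Q ∧ ∀ s, D.a s ∈ Q := by
  obtain ⟨Q, hQ, h⟩ := D.fam_np hF hne P
  obtain ⟨Q', hQ', h1, h2⟩ := hF.add Q hQ (D.N P) (D.grp_le (hF.closed Q hQ) h) (range D.a)
    (by
      rintro _ ⟨s, rfl⟩ _ ⟨t, rfl⟩
      exact D.an_a_comm s t)
    (by
      rintro _ ⟨s, rfl⟩ y hy
      exact D.an_grp_conj inf_le_left (D.dg_mem s)
        (fun Z hZ => D.an_br_grS (D.an_dg_grS s) hZ fun β hβ γ hγ => by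
          rw [mem_singleton_iff.mp hβ, zero_add]; exact hγ) hy)
  exact ⟨Q', hQ', h1, fun s => h2 ⟨s, rfl⟩⟩

theorem an_Ad_a_apply (s : Euc k) (X : Mat n) (i j : Fin n) :
    D.Ad (D.a s) X i j = Real.exp ⟪D.lam i - D.lam j, s⟫ * X i j := by
  rw [a, D.Ad_ex (D.dg_mem s), dg_apply, Matrix.diagonal_neg, Matrix.exp_diagonal,
    Matrix.exp_diagonal, Matrix.mul_diagonal, Matrix.diagonal_mul, Pi.exp_def, Pi.exp_def,
    inner_sub_left, ← Real.exp_eq_exp_ℝ, Real.exp_sub]
  simp only [Real.exp_neg]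
  field_simp

/-- The horospherical group is contracted by the inverse of `a P`. -/
theorem an_tendsto_conj (P : Euc k) {X : Mat n} (hX : X ∈ D.np P) :
    Tendsto (fun m : ℕ => D.a (-P) ^ m * D.ex X * (D.a (-P) ^ m)⁻¹) atTop (𝓝 1) := by
  have e : ∀ m : ℕ, D.a (-P) ^ m = D.a ((m : ℝ) • -P) := fun m => by
    rw [a, a, map_smul, D.ex_nsmul (D.dg_mem _)]
  simp only [e, D.conj_ex _ hX.1]
  rw [← D.ex_zero]
  refine (D.ex_cont 0 D.g.zero_mem).tendsto.comp (tendsto_nhdsWithin_iff.mpr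
    ⟨?_, Eventually.of_forall fun m => D.Ad_mem _ hX.1⟩)
  refine tendsto_pi_nhds.mpr fun i => tendsto_pi_nhds.mpr fun j => ?_
  simp only [an_Ad_a_apply, Matrix.zero_apply]
  by_cases hij : X i j = 0
  · simp [hij]
  · have hp : 0 < ⟪D.lam i - D.lam j, P⟫ := hX.2 i j hij
    rw [← zero_mul (X i j)]
    refine (Real.tendsto_exp_atBot.comp ?_).mul_const _
    simp only [inner_smul_right, inner_neg_right]
    exact tendsto_natCast_atTop_atTop.atTop_mul_const_of_neg (neg_lt_zero.mpr hp)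

end Std

end Pool.Agent.P.MP_d483fb_an.Z

end

end

section

/-!
An `A N`-invariant, `A`-ergodic probability measure over the invariant measure of the base.
-/

open scoped Topology InnerProductSpace RealInnerProductSpace
open MeasureTheory Filter Set TopologicalSpace

noncomputable section

namespace Pool.Agent.P.MP_d483fb_an.Z

variable {G Z X : Type} [Group G] [TopologicalSpace G] [IsTopologicalGroup G]
  [FirstCountableTopology G] {n k : ℕ}
  [TopologicalSpace Z] [T2Space Z] [PseudoMetrizableSpace Z] [MeasurableSpace Z] [BorelSpace Z]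
  [MulAction G Z] [ContinuousSMul G Z]
  [TopologicalSpace X] [T2Space X] [HasOuterApproxClosed X] [MeasurableSpace X] [BorelSpace X]
  [MulAction G X] [ContinuousConstSMul G X]
  {μ : Measure X} [IsProbabilityMeasure μ] [SMulInvariantMeasure G X μ] {π : Z → X}

/-- Every set that is almost invariant under the Cartan subgroup is null or conull. -/
def Std.AErg {G Z : Type} [Group G] [TopologicalSpace G] {n k : ℕ} (D : Std G n k)
    [MeasurableSpace Z] [MulAction G Z] (ν : Measure Z) : Prop :=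
  ∀ U : Set Z, MeasurableSet U → (∀ s, (fun z => D.a s • z) ⁻¹' U =ᵐ[ν] U) → ν U = 0 ∨ ν Uᶜ = 0

theorem subCoc_zero {G Z : Type} [Group G] [TopologicalSpace Z] [MulAction G Z] :
    SubCoc (fun (_ : G) (_ : Z) => (0 : ℝ)) :=
  ⟨fun _ => continuous_const, fun _ _ _ => by simp, fun _ => ⟨0, fun _ => by simp⟩⟩

theorem pos_zero {G Z : Type} [Group G] [MeasurableSpace Z] (a : G) (ν : Measure Z) :
    Pos (fun (_ : G) (_ : Z) => (0 : ℝ)) 0 a ν := fun j => by simp

omit [IsTopologicalGroup G] in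
theorem IsExt.fam (hπ : IsExt G π μ) :
    Fam {Q | ∃ ν : Measure Z, IsProbabilityMeasure ν ∧ ν.map π = μ ∧ Q = Stab G ν} where
  closed := by
    rintro _ ⟨ν, hν, -, rfl⟩
    exact isClosed_stab ν
  add := by
    rintro _ ⟨ν, hν, h, rfl⟩ H hH C hC hCH
    obtain ⟨ν', h1, h2, h3, h4, -⟩ := hπ.average subCoc_zero H C hC hCH H.one_mem
      (fun c _ => Commute.one_left c) h hH (pos_zero 1 ν)
    exact ⟨_, ⟨ν', h1, h2, rfl⟩, h3, h4⟩

/-- There is an `A N`-invariant and `A`-ergodic probability measure over `μ`. -/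
theorem Std.exists_AN (D : Std G n k) (hπ : IsExt G π μ)
    (h0 : ∃ ν : Measure Z, IsProbabilityMeasure ν ∧ ν.map π = μ)
    (herg : ∃ s, Ergodic (fun x : X => D.a s • x) μ) (P : Euc k) :
    ∃ ν : Measure Z, IsProbabilityMeasure ν ∧ ν.map π = μ ∧ (∀ s, D.a s ∈ Stab G ν) ∧
      D.N P ≤ Stab G ν ∧ D.AErg ν := by
  obtain ⟨ν₀, h₀, h₀'⟩ := h0
  obtain ⟨_, ⟨ν₁, h₁, h₁', rfl⟩, hN, hA⟩ := D.fam_AN hπ.fam ⟨_, ν₀, h₀, h₀', rfl⟩ P
  obtain ⟨s₀, hs₀⟩ := herg
  let H : Subgroup G := D.N P ⊔ Subgroup.closure (range D.a)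
  have hAH : ∀ s, D.a s ∈ H := fun s => Subgroup.mem_sup_right (Subgroup.subset_closure ⟨s, rfl⟩)
  obtain ⟨ν, h1, h2, h3, h4, -⟩ := hπ.exists_erg subCoc_zero H ⟨_, hAH s₀, hs₀⟩ H.one_mem h₁'
    (sup_le hN ((Subgroup.closure_le _).mpr (range_subset_iff.mpr hA))) (pos_zero 1 ν₁)
  refine ⟨ν, h1, h2, fun s => h3 (hAH s), le_sup_left.trans h3, fun U hU hinv => ?_⟩
  have hA' : ∀ s, D.a s ∈ stabSet G ν U := fun s => mem_stabSet.mpr ⟨h3 (hAH s), hinv s⟩
  have hH : H ≤ stabSet G ν U := by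
    refine sup_le ((Subgroup.closure_le _).mpr ?_)
      ((Subgroup.closure_le _).mpr (range_subset_iff.mpr hA'))
    rintro _ ⟨Y, hY, rfl⟩
    exact mautner hU (hA' (-P)) (h3 (Subgroup.mem_sup_left (D.an_ex_mem_grp hY)))
      (D.an_tendsto_conj P hY)
  exact h4 U hU fun h hh => (mem_stabSet.mp (hH hh)).2

end Pool.Agent.P.MP_d483fb_an.Z

end

end

section

/-!
A homogeneous space with a discrete stabiliser is locally compact and every finite measure on it
is tight.
-/

open scoped Topology ENNReal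
open MeasureTheory Filter Set

namespace Pool.Agent.P.MP_d483fb_an.Z

variable {G : Type} [Group G] [TopologicalSpace G] {l : Len G}
  {X : Type} [TopologicalSpace X] [MulAction G X] [ContinuousSMul G X]

theorem Base.locallyCompact [LocallyCompactSpace G] (B : Base l X) : LocallyCompactSpace X :=
  IsOpenQuotientMap.locallyCompactSpace (f := fun g : G => g • B.o)
    ⟨B.trans, continuous_id.smul continuous_const, B.opn⟩

theorem Base.hasOuter [LocallyCompactSpace G] [T2Space X] [SecondCountableTopology X]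
    (B : Base l X) : HasOuterApproxClosed X := by
  have := B.locallyCompact
  infer_instance

theorem Base.tight [T2Space X] [MeasurableSpace X] [BorelSpace X] (B : Base l X) (μ : Measure X)
    [IsFiniteMeasure μ] : IsTightMeasureSet {μ} := by
  rw [isTightMeasureSet_iff_exists_isCompact_measure_compl_le]
  intro ε hε
  let K : ℕ → Set X := fun n => (fun g : G => g • B.o) '' {g | l.len g ≤ n}
  have hK : ∀ n, IsCompact (K n) := fun n => (l.cpt n).image (continuous_id.smul continuous_const)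
  have hanti : Antitone fun n => (K n)ᶜ := fun m n h =>
    compl_subset_compl.2 (image_mono fun g hg => le_trans hg h)
  have h := tendsto_measure_iInter_atTop (μ := μ)
    (fun n => (hK n).measurableSet.compl.nullMeasurableSet) hanti ⟨0, measure_ne_top _ _⟩
  have he : ⋂ n, (K n)ᶜ = ∅ := by
    rw [← compl_iUnion, compl_empty_iff, eq_univ_iff_forall]
    intro x
    obtain ⟨g, hg⟩ := B.trans x
    exact mem_iUnion.2 ⟨l.len g, g, le_refl (l.len g), hg⟩
  rw [he, measure_empty] at h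
  obtain ⟨n, hn⟩ := (h.eventually (ge_mem_nhds hε)).exists
  exact ⟨K n, hK n, fun ν hν => by rw [mem_singleton_iff.1 hν]; exact hn⟩

theorem Base.isExt [T2Space X] [MeasurableSpace X] [BorelSpace X] (B : Base l X) (μ : Measure X)
    [IsFiniteMeasure μ] {Z : Type} [TopologicalSpace Z] [MeasurableSpace Z] [MulAction G Z]
    {π : Z → X} (hπ : Continuous π) (heq : ∀ (g : G) z, π (g • z) = g • π z)
    (hpr : ∀ K : Set X, IsCompact K → IsCompact (π ⁻¹' K)) : IsExt G π μ :=
  ⟨hπ, heq, hpr, B.tight μ⟩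

omit [ContinuousSMul G X] in
theorem SubCoc.of_len {Z : Type} [TopologicalSpace Z] [MeasurableSpace Z] [MulAction G Z]
    {F : G → Z → ℝ} (hF : Continuous fun p : G × Z => F p.1 p.2)
    (hsub : ∀ g h z, F (g * h) z ≤ F g (h • z) + F h z)
    {CF : ℝ} (hbd : ∀ g z, |F g z| ≤ CF * (l.len g + 1)) : SubCoc F :=
  ⟨fun g => hF.comp (Continuous.prodMk_right g), hsub, fun g => ⟨_, hbd g⟩⟩

end Pool.Agent.P.MP_d483fb_an.Z


end

section

/-!
From the invariance principle along coarse roots to an invariant measure.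
-/

open scoped Topology InnerProductSpace RealInnerProductSpace
open MeasureTheory Filter Set TopologicalSpace

noncomputable section

namespace Pool.Agent.P.MP_d483fb_an.Z

/-- The invariance principle for `ν`, with at most `m` exponents `w i`: a root class that contains
fewer exponents than its dimension contains a one parameter group that preserves `ν`. -/
def Std.InvP {G Z : Type} [Group G] [TopologicalSpace G] {n k : ℕ} (D : Std G n k)
    [MeasurableSpace Z] [MulAction G Z] (m : ℕ) (ν : Measure Z) : Prop :=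
  ∃ (ι : Type) (_ : Fintype ι) (w : ι → Euc k), Fintype.card ι ≤ m ∧
    ∀ b ∈ D.roots, Nat.card {i // w i ∈ Std.cls b} < Module.finrank ℝ (D.u b) →
      ∃ c : ℝ, 0 < c ∧ ∃ Y ∈ D.gr (c • b), Y ≠ 0 ∧
        ∀ t : ℝ, MeasurePreserving (fun z : Z => D.ex (t • Y) • z) ν ν

variable {G Z X : Type} [Group G] [TopologicalSpace G] [IsTopologicalGroup G]
  [FirstCountableTopology G] [PreconnectedSpace G] {n k : ℕ}
  [TopologicalSpace Z] [T2Space Z] [PseudoMetrizableSpace Z] [MeasurableSpace Z] [BorelSpace Z]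
  [MulAction G Z] [ContinuousSMul G Z]
  [TopologicalSpace X] [T2Space X] [HasOuterApproxClosed X] [MeasurableSpace X] [BorelSpace X]
  [MulAction G X] [ContinuousConstSMul G X]
  {μ : Measure X} [IsProbabilityMeasure μ] [SMulInvariantMeasure G X μ] {π : Z → X}

/-- There is an invariant, `A`-ergodic probability measure over `μ`. -/
theorem Std.exists_invariant (D : Std G n k) (hπ : IsExt G π μ)
    (h0 : ∃ ν : Measure Z, IsProbabilityMeasure ν ∧ ν.map π = μ)
    (herg : ∃ s, Ergodic (fun x : X => D.a s • x) μ) {m : ℕ} (hv : D.ltV m)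
    (hD : ∀ ν : Measure Z, IsProbabilityMeasure ν → ν.map π = μ →
      (∀ s, MeasurePreserving (fun z : Z => D.a s • z) ν ν) → D.AErg ν → D.InvP m ν) :
    ∃ ν : Measure Z, IsProbabilityMeasure ν ∧ ν.map π = μ ∧
      (∀ g : G, MeasurePreserving (fun z : Z => g • z) ν ν) ∧ D.AErg ν := by
  obtain ⟨P, hP⟩ := D.exists_reg
  obtain ⟨ν, h1, h2, hA, hN, hE⟩ := D.exists_AN hπ h0 herg P
  obtain ⟨ι, _, w, hc, hw⟩ := hD ν h1 h2 hA hE
  have htop : Stab G ν = ⊤ := by
    refine D.eq_top_of_le_lie (D.le_of_count w (fun H hH hne => hc.trans_lt (hv H hH hne))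
      (D.lie_isSub _) hP (D.le_lie inf_le_left fun Y hY => hN (D.an_ex_mem_grp hY))
      fun β hβ _ => ?_)
    refine (lt_or_ge _ _).imp (fun h => ?_) id
    obtain ⟨c, hc, Y, hY, hY0, hinv⟩ := hw β hβ h
    exact ⟨_, ⟨c, hc, rfl⟩, Y, hY, D.mem_lie_of hY.1 hinv, hY0⟩
  exact ⟨ν, h1, h2, fun g => mem_stab_iff.mp (htop ▸ Subgroup.mem_top g), hE⟩

end Pool.Agent.P.MP_d483fb_an.Z

end

end

section

/-!
The suspension of a smooth action has unstable leaf structures in a dense set of directions.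
-/

open scoped Manifold ContDiff InnerProductSpace RealInnerProductSpace Topology
open MeasureTheory Filter Set

set_option linter.unusedSectionVars false

noncomputable section

namespace Pool.Agent.P.MP_d483fb_an.Z

variable {G : Type} [Group G] [TopologicalSpace G] [IsTopologicalGroup G] [ConnectedSpace G]
  [T2Space G] [LocallyCompactSpace G] [SecondCountableTopology G] [MeasurableSpace G]
  [BorelSpace G] {n k : ℕ}

variable {m : ℕ} {M : Type} [MetricSpace M] [CompactSpace M] [MeasurableSpace M] [BorelSpace M]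
  [ChartedSpace (EuclideanSpace ℝ (Fin m)) M] [IsManifold (𝓡 m) ∞ M]

theorem Std.exists_susp (D : Std G n k) (Γ : Subgroup G) [DiscreteTopology Γ] [Nonempty M]
    (m0 : Measure (D.lat Γ).B) [IsProbabilityMeasure m0] [SMulInvariantMeasure G (D.lat Γ).B m0]
    (e : Emb m M) (α : (D.lat Γ).Γ →* Equiv.Perm M)
    (J : NF.Jets α (fun γ => D.len γ) m) :
    ∃ (X : Type) (_ : MetricSpace X) (_ : ProperSpace X) (_ : MeasurableSpace X)
      (_ : BorelSpace X) (_ : MulAction G X) (_ : ContinuousSMul G X) (E : Skw (D.lat Γ) α X),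
      Continuous E.π ∧ (∀ K, IsCompact K → IsCompact (E.π ⁻¹' K)) ∧ D.HasGeo m E.π m0 := by
  classical
  obtain ⟨X, i1, i2, i3, i4, i5, i6, E, h1, h2, h3⟩ := D.susp_of_inp Γ m0 e α J
  refine ⟨X, i1, i2, i3, i4, i5, i6, E, h1, h2, fun ν hν h0 hI hE => ?_⟩
  obtain ⟨S, K, I, -⟩ := h3 ν h0 hI hE
  obtain ⟨c, L, -, hc⟩ := K.tcoc_Dl
  obtain ⟨ι, _, ⟨o⟩⟩ := Os.oseledets_temp hc K.sm_Dl
  obtain ⟨σ, -, hσ⟩ := NF.exists_leaf K o
  refine ⟨fun i => Geo.vec (o.lamL (σ i)), fun O hO hne => ?_⟩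
  obtain ⟨a, ha, Ph, hg, he⟩ := Geo.exists_gnr D (fun i => o.lamL (σ i)) S K.measAct
    (fun U hU h => hE U hU fun s => by simpa only [← I.act_eq] using h s) hO hne
  obtain ⟨s2, p1, p2, p3⟩ := Geo.exists_rates D (fun i => o.lamL (σ i)) a
  obtain ⟨Lf⟩ := hσ a (s2 / 2) s2 (half_pos p1) (half_lt_self p1) p2
  obtain ⟨κ, j1, j2, ⟨F⟩⟩ := Lf.exists_fib
  obtain ⟨T, t1, t2, t3⟩ := Geo.Asm.exists_geoLS I F hg he (half_pos p1) (half_lt_self p1) p3
  refine ⟨κ, j1, j2, T, t1 ▸ ha, fun β => ?_⟩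
  obtain ⟨l, rfl⟩ : ∃ l, Geo.vec l = β :=
    (InnerProductSpace.toDual ℝ (Euc k)).symm.surjective β
  simpa only [t2, t3, Geo.vec_inj.eq_iff] using F.card_le l

end Pool.Agent.P.MP_d483fb_an.Z

end

end

section

/-!
Three generic facts: a measurable choice for a relation with unique values, generic radii, and
finite entropy of a digit with exponentially many values at an integrable level.
-/

namespace Pool.Agent.P.MP_d483fb_an.Z

open MeasureTheory ProbabilityTheory Set Filter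
open scoped ENNReal

variable {X : Type*} [MeasurableSpace X]

theorem exists_meas_unique [StandardBorelSpace X] [Nonempty X] {G : Set (X × X)}
    (hG : MeasurableSet G) (h : ∀ w z z', (w, z) ∈ G → (w, z') ∈ G → z = z') :
    ∃ zp : X → X, Measurable zp ∧ ∀ w z, (w, z) ∈ G → zp w = z := by
  obtain ⟨φ, hφ, h1⟩ := exists_factor (f := Prod.fst) (g := Prod.snd) measurable_fst
    measurable_snd hG (fun x hx y hy hxy => h x.1 x.2 y.2 hx (by rw [hxy]; exact hy))
  exact ⟨φ, hφ, fun w z hw => (h1 (w, z) hw).symm⟩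

theorem lintegral_strip (μ : Measure X) [IsFiniteMeasure μ] {f : X → ℝ} (hf : Measurable f)
    (t : ℝ) : ∫⁻ r : ℝ, μ {x | |f x - r| ≤ t} = ENNReal.ofReal (2 * t) * μ univ := by
  have hm : MeasurableSet {p : ℝ × X | |f p.2 - p.1| ≤ t} :=
    measurableSet_le (by fun_prop) measurable_const
  have h1 := Measure.prod_apply (μ := (volume : Measure ℝ)) (ν := μ) hm
  have h2 := Measure.prod_apply_symm (μ := (volume : Measure ℝ)) (ν := μ) hm
  have h3 : ∀ x, (volume : Measure ℝ) ((fun r => (r, x)) ⁻¹' {p : ℝ × X | |f p.2 - p.1| ≤ t}) =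
      ENNReal.ofReal (2 * t) := fun x => by
    have : (fun r => (r, x)) ⁻¹' {p : ℝ × X | |f p.2 - p.1| ≤ t} = Icc (f x - t) (f x + t) := by
      ext r
      simp only [mem_preimage, mem_ofPred_eq, mem_Icc, abs_le]
      constructor <;> rintro ⟨h1, h2⟩ <;> constructor <;> linarith
    rw [this, Real.volume_Icc]
    congr 1
    ring
  simp only [h3, lintegral_const] at h2
  rw [← h2, h1]
  rfl

theorem exists_radius (μ : Measure X) [IsFiniteMeasure μ] {f₁ f₂ : X → ℝ} (h₁ : Measurable f₁)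
    (h₂ : Measurable f₂) {D σ r0 : ℝ} (hD : 0 ≤ D) (hσ0 : 0 ≤ σ) (hσ1 : σ < 1) (hr : 0 < r0) :
    ∃ r, r0 < r ∧ r < 2 * r0 ∧ ∑' k : ℕ, ((k : ℝ≥0∞) + 1) *
      μ {x | |f₁ x - r| ≤ D * σ ^ k ∨ |f₂ x - r| ≤ D * σ ^ k} ≠ ∞ := by
  have hm : ∀ {f : X → ℝ}, Measurable f → ∀ t : ℝ,
      Measurable fun r : ℝ => μ {x | |f x - r| ≤ t} := fun {f} hf t =>
    measurable_measure_prodMk_left (ν := μ) (s := {p : ℝ × X | |f p.2 - p.1| ≤ t})
      (measurableSet_le (by fun_prop) measurable_const)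
  set G : ℝ → ℝ≥0∞ := fun r => ∑' k : ℕ, ((k : ℝ≥0∞) + 1) *
    (μ {x | |f₁ x - r| ≤ D * σ ^ k} + μ {x | |f₂ x - r| ≤ D * σ ^ k}) with hG
  have hmk : ∀ k : ℕ, Measurable fun r : ℝ => ((k : ℝ≥0∞) + 1) *
      (μ {x | |f₁ x - r| ≤ D * σ ^ k} + μ {x | |f₂ x - r| ≤ D * σ ^ k}) := fun k =>
    ((hm h₁ _).add (hm h₂ _)).const_mul _
  have hs : Summable fun k : ℕ => ((k : ℝ) + 1) * (2 * (D * σ ^ k)) := by
    have a1 := summable_pow_mul_geometric_of_norm_lt_one (R := ℝ) 1
      (r := σ) (by rwa [Real.norm_eq_abs, abs_of_nonneg hσ0])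
    have a2 := summable_geometric_of_lt_one hσ0 hσ1
    refine ((a1.add a2).mul_left (2 * D)).congr fun k => ?_
    ring
  have hI : ∫⁻ r, G r ≠ ∞ := by
    rw [hG, lintegral_tsum fun k => (hmk k).aemeasurable]
    have e : ∀ k : ℕ, ∫⁻ r : ℝ, ((k : ℝ≥0∞) + 1) *
        (μ {x | |f₁ x - r| ≤ D * σ ^ k} + μ {x | |f₂ x - r| ≤ D * σ ^ k}) =
        ENNReal.ofReal (((k : ℝ) + 1) * (2 * (D * σ ^ k))) * (2 * μ univ) := fun k => by
      rw [lintegral_const_mul (f := fun r : ℝ => μ {x | |f₁ x - r| ≤ D * σ ^ k} +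
        μ {x | |f₂ x - r| ≤ D * σ ^ k}) _ ((hm h₁ _).add (hm h₂ _)), lintegral_add_left (hm h₁ _),
        lintegral_strip μ h₁, lintegral_strip μ h₂,
        ENNReal.ofReal_mul (p := (k : ℝ) + 1) (by positivity),
        ENNReal.ofReal_add (by positivity) zero_le_one, ENNReal.ofReal_natCast, ENNReal.ofReal_one]
      ring
    simp only [e]
    rw [ENNReal.tsum_mul_right, ← ENNReal.ofReal_tsum_of_nonneg (fun k => by positivity) hs]
    exact ENNReal.mul_ne_top ENNReal.ofReal_ne_top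
      (ENNReal.mul_ne_top ENNReal.ofNat_ne_top (measure_ne_top _ _))
  have hae := ae_lt_top (Measurable.tsum hmk) hI
  have h0 : (volume : Measure ℝ) (Ioo r0 (2 * r0)) ≠ 0 := by
    rw [Real.volume_Ioo]
    exact (ENNReal.ofReal_pos.2 (by linarith)).ne'
  obtain ⟨r, hr1, hr2⟩ := Measure.exists_mem_of_measure_ne_zero_of_ae h0 (ae_restrict_of_ae hae)
  refine ⟨r, hr1.1, hr1.2, ne_top_of_le_ne_top hr2.ne (ENNReal.tsum_le_tsum fun k => ?_)⟩
  gcongr
  exact measure_union_le (μ := μ) {x | |f₁ x - r| ≤ D * σ ^ k} {x | |f₂ x - r| ≤ D * σ ^ k}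

theorem lintegral_inv_atom (ν : Measure X) [IsFiniteMeasure ν] {d : X → ℕ} (hd : Measurable d)
    (W : Finset ℕ) :
    ∫⁻ x, {x | d x ∈ W}.indicator (fun x => (ν {y | d y = d x})⁻¹) x ∂ν ≤ W.card := by
  have e : ∀ x, {x | d x ∈ W}.indicator (fun x => (ν {y | d y = d x})⁻¹) x =
      ∑ i ∈ W, (d ⁻¹' {i}).indicator (fun _ => (ν (d ⁻¹' {i}))⁻¹) x := fun x => by
    by_cases hx : d x ∈ W
    · rw [indicator_of_mem (show x ∈ {x | d x ∈ W} from hx), Finset.sum_eq_single (d x)
        (fun i _ hi => indicator_of_notMem (s := d ⁻¹' {i}) (fun h => hi (Eq.symm h)) _)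
        (fun h => absurd hx h),
        indicator_of_mem (show x ∈ d ⁻¹' {d x} from rfl)]
      rfl
    · rw [indicator_of_notMem (show x ∉ {x | d x ∈ W} from hx), Finset.sum_eq_zero]
      exact fun i hi => indicator_of_notMem (fun h => hx (by rw [show d x = i from h]; exact hi)) _
  simp only [e]
  rw [lintegral_finsetSum _ fun i _ =>
    measurable_const.indicator (hd (measurableSet_singleton i)), Finset.card_eq_sum_ones]
  push_cast
  refine Finset.sum_le_sum fun i _ => ?_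
  rw [lintegral_indicator_const (hd (measurableSet_singleton i))]
  exact ENNReal.inv_mul_le_one _

/-- A digit with at most `exp (C (n + 1))` values at level `n` has finite entropy when the level
is integrable. -/
theorem finEnt_of_level (ν : Measure X) [IsProbabilityMeasure ν] {d lv : X → ℕ} (hd : Measurable d)
    (hlv : Measurable lv) (hI : ∫⁻ x, (lv x : ℝ≥0∞) ∂ν ≠ ∞) {W : ℕ → Finset ℕ} {C : ℝ}
    (hW : ∀ᵐ x ∂ν, d x ∈ W (lv x)) (hC : ∀ n, ((W n).card : ℝ) ≤ Real.exp (C * (n + 1))) :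
    Ent.FinEnt ν d := by
  have hm : Measurable (Ent.I0 ν d) :=
    (measurable_from_top (f := fun i : ℕ => -Real.log (ν.real {y | d y = i}))).comp hd
  have h0 : ∀ x, 0 ≤ Ent.I0 ν d x := fun x =>
    neg_nonneg.2 (Real.log_nonpos measureReal_nonneg measureReal_le_one)
  refine ⟨hm.aestronglyMeasurable, ?_⟩
  rw [hasFiniteIntegral_iff_ofReal (ae_of_all _ h0)]
  set g : ℕ → X → ℝ≥0∞ := fun n x => ENNReal.ofReal (Real.exp (-((|C| + 1) * (n + 1)))) *
    {x | d x ∈ W n}.indicator (fun x => (ν {y | d y = d x})⁻¹) x with hg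
  have hmi : ∀ n, Measurable fun x =>
      {x | d x ∈ W n}.indicator (fun x => (ν {y | d y = d x})⁻¹) x := fun n =>
    ((measurable_from_top (f := fun i : ℕ => (ν {y | d y = i})⁻¹)).comp hd).indicator
      (hd (MeasurableSet.of_discrete (s := {i | i ∈ W n})))
  have h1 : ∀ᵐ x ∂ν, ENNReal.ofReal (Ent.I0 ν d x) ≤
      ENNReal.ofReal (|C| + 1) * ((lv x : ℝ≥0∞) + 1) + ∑' n, g n x := by
    filter_upwards [hW] with x hx
    refine le_trans ?_ (add_le_add_right (ENNReal.le_tsum (lv x)) _)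
    by_cases hp : ν {y | d y = d x} = 0
    · simp [Ent.I0, Measure.real, hp]
    have hp' : 0 < ν.real {y | d y = d x} := ENNReal.toReal_pos hp (measure_ne_top _ _)
    have e1 : g (lv x) x = ENNReal.ofReal (Real.exp (-((|C| + 1) * (lv x + 1))) *
        (ν.real {y | d y = d x})⁻¹) := by
      rw [hg]
      dsimp only
      rw [indicator_of_mem (show x ∈ {y | d y ∈ W (lv x)} from hx),
        ENNReal.ofReal_mul (Real.exp_pos _).le, ENNReal.ofReal_inv_of_pos hp', ofReal_measureReal]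
    have e2 : ENNReal.ofReal (|C| + 1) * ((lv x : ℝ≥0∞) + 1) =
        ENNReal.ofReal ((|C| + 1) * (lv x + 1)) := by
      rw [ENNReal.ofReal_mul (by positivity), ENNReal.ofReal_add (p := (lv x : ℝ)) (by positivity)
        zero_le_one, ENNReal.ofReal_natCast, ENNReal.ofReal_one]
    rw [e1, e2, ← ENNReal.ofReal_add (by positivity) (by positivity)]
    refine ENNReal.ofReal_le_ofReal ?_
    have h2 := Real.log_le_sub_one_of_pos (mul_pos (Real.exp_pos (-((|C| + 1) * (lv x + 1))))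
      (inv_pos.2 hp'))
    rw [Real.log_mul (Real.exp_pos _).ne' (inv_pos.2 hp').ne', Real.log_exp, Real.log_inv] at h2
    unfold Ent.I0
    linarith
  refine (lintegral_mono_ae h1).trans_lt ?_
  have hml : Measurable fun x => (lv x : ℝ≥0∞) :=
    (measurable_from_top (f := fun i : ℕ => (i : ℝ≥0∞))).comp hlv
  rw [lintegral_add_left ((hml.add_const _).const_mul _), lintegral_const_mul _ (hml.add_const _),
    lintegral_add_left hml, lintegral_tsum fun n => ((hmi n).const_mul _).aemeasurable]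
  refine ENNReal.add_lt_top.2 ⟨ENNReal.mul_lt_top ENNReal.ofReal_lt_top
    (ENNReal.add_lt_top.2 ⟨hI.lt_top, by simp⟩), ?_⟩
  have hs : Summable fun n : ℕ => Real.exp (-1) ^ n :=
    summable_geometric_of_lt_one (Real.exp_pos _).le (Real.exp_lt_one_iff.2 (by norm_num))
  refine lt_of_le_of_lt (ENNReal.tsum_le_tsum (g := fun n => ENNReal.ofReal (Real.exp (-1) ^ n))
    fun n => ?_) ?_
  · rw [lintegral_const_mul _ (hmi n)]
    refine (mul_le_mul_right (lintegral_inv_atom ν hd (W n)) _).trans ?_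
    rw [← ENNReal.ofReal_natCast, ← ENNReal.ofReal_mul (Real.exp_pos _).le]
    refine ENNReal.ofReal_le_ofReal ((mul_le_mul_of_nonneg_left (hC n) (Real.exp_pos _).le).trans ?_)
    rw [← Real.exp_add, ← Real.exp_nat_mul]
    refine Real.exp_le_exp.2 ?_
    have : C * (n + 1) ≤ |C| * (n + 1) := by gcongr; exact le_abs_self C
    nlinarith
  · rw [← ENNReal.ofReal_tsum_of_nonneg (fun n => by positivity) hs]
    exact ENNReal.ofReal_lt_top

end Pool.Agent.P.MP_d483fb_an.Z


end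

section

/-!
The rectangle partition: measurability, the digit, and the construction.
-/

namespace Pool.Agent.P.MP_d483fb_an.Z

open MeasureTheory ProbabilityTheory Set Filter
open scoped ENNReal

/-- The first `m` pairs of bits as a number. -/
def bitCode : ℕ → (ℕ → Bool × Bool) → ℕ
  | 0, _ => 0
  | m + 1, β => 4 * bitCode m β + (2 * (β m).1.toNat + (β m).2.toNat)

theorem bitCode_lt (m : ℕ) (β : ℕ → Bool × Bool) : bitCode m β < 4 ^ m := by
  induction m with
  | zero => simp [bitCode]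
  | succ m ih =>
    have := Bool.toNat_le (β m).1
    have := Bool.toNat_le (β m).2
    rw [bitCode, pow_succ]
    omega

theorem bitCode_inj {m : ℕ} {β β' : ℕ → Bool × Bool} (h : bitCode m β = bitCode m β') :
    ∀ k < m, β k = β' k := by
  induction m with
  | zero => exact fun k hk => absurd hk (Nat.not_lt_zero k)
  | succ m ih =>
    have a1 := Bool.toNat_le (β m).1
    have a2 := Bool.toNat_le (β m).2
    have a3 := Bool.toNat_le (β' m).1
    have a4 := Bool.toNat_le (β' m).2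
    rw [bitCode, bitCode] at h
    have hb : ∀ u v : Bool, u.toNat = v.toNat → u = v := by decide
    intro k hk
    rcases (Nat.lt_succ_iff.1 hk).lt_or_eq with h1 | rfl
    · exact ih (by omega) k h1
    · exact Prod.ext (hb _ _ (by omega)) (hb _ _ (by omega))

theorem measurable_bitCode (m : ℕ) : Measurable (bitCode m) := by
  induction m with
  | zero => exact measurable_const
  | succ m ih =>
    exact (ih.const_mul 4).add ((Measurable.of_discrete
      (f := fun p : Bool × Bool => 2 * p.1.toNat + p.2.toNat)).comp (measurable_pi_apply m))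

theorem card_level {S : ℕ → Finset ℕ} {C : ℝ}
    (hS : ∀ t, ((S t).card : ℝ) ≤ Real.exp (C * (t + 1))) (n : ℕ) :
    (((Finset.range (n + 1) ×ˢ ((Finset.range (n + 1)).biUnion S ×ˢ Finset.range (4 ^ n))).image
      fun p => Nat.pair p.1 (Nat.pair p.2.1 p.2.2)).card : ℝ) ≤ Real.exp ((|C| + 4) * (n + 1)) := by
  have h1 : (((Finset.range (n + 1)).biUnion S).card : ℝ) ≤ (n + 1) * Real.exp (|C| * (n + 1)) := by
    refine (Nat.cast_le.2 Finset.card_biUnion_le).trans ?_
    push_cast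
    refine (Finset.sum_le_card_nsmul _ _ (Real.exp (|C| * (n + 1))) fun t ht => ?_).trans ?_
    · refine (hS t).trans (Real.exp_le_exp.2 ?_)
      have : (t : ℝ) ≤ n := Nat.cast_le.2 (Nat.lt_succ_iff.1 (Finset.mem_range.1 ht))
      exact mul_le_mul (le_abs_self C) (by linarith) (by positivity) (abs_nonneg C)
    · simp
  have h2 : (n : ℝ) + 1 ≤ Real.exp (n + 1) := by linarith [Real.add_one_le_exp ((n : ℝ) + 1)]
  have h3 : (4 : ℝ) ^ n ≤ Real.exp (2 * (n + 1)) := by
    have a1 : (2 : ℝ) ≤ Real.exp 1 := by linarith [Real.add_one_le_exp (1 : ℝ)]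
    calc (4 : ℝ) ^ n = 2 ^ (2 * n) := by rw [pow_mul]; norm_num
      _ ≤ Real.exp 1 ^ (2 * n) := by gcongr
      _ = Real.exp (2 * n) := by rw [← Real.exp_nat_mul]; simp
      _ ≤ _ := Real.exp_le_exp.2 (by linarith)
  refine (Nat.cast_le.2 Finset.card_image_le).trans ?_
  rw [Finset.card_product, Finset.card_product, Finset.card_range, Finset.card_range]
  push_cast
  calc ((n : ℝ) + 1) * (((Finset.range (n + 1)).biUnion S).card * 4 ^ n)
      ≤ Real.exp (n + 1) * (Real.exp (n + 1) * Real.exp (|C| * (n + 1)) * Real.exp (2 * (n + 1))) := by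
        gcongr
        exact h1.trans (by gcongr)
    _ = _ := by
        simp only [← Real.exp_add]
        congr 1
        ring

variable {X M : Type*} [MeasurableSpace X]

theorem exists_box_conull {μ : Measure X} {a : X ≃ᵐ X} (ha : MeasurePreserving a μ μ) {G : Set X}
    (hG : MeasurableSet G) (h : ∀ᵐ x ∂μ, x ∈ G) : ∃ V : Set X, MeasurableSet V ∧
      (∀ᵐ x ∂μ, x ∈ V) ∧ V ⊆ G ∧ ∀ x ∈ V, ∀ n, a^[n] x ∈ V ∧ a.symm^[n] x ∈ V := by
  have hb : MeasurePreserving a.symm μ μ := ha.symm a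
  have key : ∀ x, (∀ n, a^[n] x ∈ G ∧ a.symm^[n] x ∈ G) →
      (∀ n, a^[n] (a x) ∈ G ∧ a.symm^[n] (a x) ∈ G) ∧
      ∀ n, a^[n] (a.symm x) ∈ G ∧ a.symm^[n] (a.symm x) ∈ G := fun x hx => by
    refine ⟨fun n => ⟨(hx (n + 1)).1, ?_⟩, fun n => ⟨?_, (hx (n + 1)).2⟩⟩
    · cases n with
      | zero => exact (hx 1).1
      | succ n => simpa using (hx n).2
    · cases n with
      | zero => exact (hx 1).2
      | succ n => simpa using (hx n).1
  refine ⟨{x | ∀ n, a^[n] x ∈ G ∧ a.symm^[n] x ∈ G}, ?_, ?_, fun x hx => (hx 0).1, fun x hx n => ?_⟩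
  · rw [ofPred_forall]
    exact .iInter fun n => (a.measurable.iterate n hG).inter (a.symm.measurable.iterate n hG)
  · exact ae_all_iff.2 fun n => ((ha.iterate n).quasiMeasurePreserving.ae h).and
      ((hb.iterate n).quasiMeasurePreserving.ae h)
  · induction n with
    | zero => exact ⟨hx, hx⟩
    | succ n ih =>
      rw [Function.iterate_succ_apply', Function.iterate_succ_apply']
      exact ⟨(key _ ih.1).1, (key _ ih.2).2⟩

namespace BD

variable (D : BD X)

/-- A majorant of the last time at which the rectangle of `z` may be cut. -/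
noncomputable def Mz (z : X) : ℝ≥0∞ :=
  ∑' k : ℕ, {z | D.cut k z}.indicator (fun _ => (k : ℝ≥0∞) + 1) z

/-- The number of bits in the digit. -/
noncomputable def mm (z : X) : ℕ := ⌈(D.Mz z).toReal⌉₊

theorem mm_le (z : X) : (D.mm z : ℝ≥0∞) ≤ D.Mz z + 1 := by
  rw [← ENNReal.ofReal_natCast]
  refine (ENNReal.ofReal_le_ofReal (Nat.ceil_lt_add_one ENNReal.toReal_nonneg).le).trans ?_
  rw [ENNReal.ofReal_add ENNReal.toReal_nonneg zero_le_one, ENNReal.ofReal_one]
  exact add_le_add_left ENNReal.ofReal_toReal_le _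

theorem lt_mm {z : X} {k : ℕ} (h0 : D.Mz z ≠ ∞) (hk : D.cut k z) : k < D.mm z := by
  have h1 : (k : ℝ≥0∞) + 1 ≤ D.Mz z := by
    refine le_trans ?_ (ENNReal.le_tsum k)
    rw [indicator_of_mem (show z ∈ {z | D.cut k z} from hk)]
  have h2 := ENNReal.toReal_mono h0 h1
  rw [ENNReal.toReal_add (ENNReal.natCast_ne_top k) ENNReal.one_ne_top, ENNReal.toReal_natCast,
    ENNReal.toReal_one] at h2
  exact Nat.lt_ceil.2 (by linarith)

/-- The digit. -/
noncomputable def dig (cel : ℕ → X → X → ℕ) (x : X) : ℕ :=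
  Nat.pair (retTime D.a D.K x) (Nat.pair
    (cel (retTime D.a D.K x) (D.zp x) (D.zp (firstRet D.a D.K x)))
    (bitCode (D.mm (D.zp (firstRet D.a D.K x))) (D.zeta (firstRet D.a D.K x)).2))

/-- The past orbit of `x` keeps away from the boundaries. -/
def Away (j : ℕ) : Set X := {x | ∀ k, D.a.symm^[k] x ∉ D.Bad (D.σ ^ k / (j + 1))}

namespace Good

variable {D} {μ : Measure X} {X0 : Set X} {s al : X → X → M} {E1 E2 : X → X → Prop} {c r0 : ℝ}
  (h : D.Good μ X0 s al E1 E2 c r0)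
include h

theorem measK : MeasurableSet D.K := by
  have m : Measurable fun w => (D.zp w, w) := h.measZp.prodMk measurable_id
  exact (h.measZp h.measZ).inter ((m h.measR).inter
    ((measurableSet_lt (h.measF1.comp m) measurable_const).inter
      (measurableSet_lt (h.measF2.comp m) measurable_const)))

theorem measNear (k : ℕ) : Measurable (D.near k) := h.measZp.comp (D.a.symm.measurable.iterate k)

theorem measAct (k : ℕ) : MeasurableSet {z | D.act k z} := by
  have m : Measurable fun z => (D.near k z, D.a.symm^[k] z) :=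
    (h.measNear k).prodMk (D.a.symm.measurable.iterate k)
  exact (h.measNear k h.measZ).inter ((m h.measR).inter
    (measurableSet_lt (h.measN.comp m) measurable_const))

theorem measZeta : Measurable D.zeta := by
  refine h.measZp.prodMk (measurable_pi_lambda _ fun k => ?_)
  have m : Measurable fun y => (D.near k (D.zp y), D.a.symm^[k] y) :=
    ((h.measNear k).comp h.measZp).prodMk (D.a.symm.measurable.iterate k)
  unfold bit
  refine Measurable.ite (h.measZp (h.measAct k)) (Measurable.prodMk ?_ ?_) measurable_const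
  · refine measurable_to_bool ?_
    simpa [preimage] using measurableSet_lt (h.measF1.comp m) (measurable_const (a := D.r))
  · refine measurable_to_bool ?_
    simpa [preimage] using measurableSet_lt (h.measF2.comp m) (measurable_const (a := D.r))

theorem measCut (k : ℕ) : MeasurableSet {z | D.cut k z} := by
  have m : Measurable fun z => (D.near k z, D.a.symm^[k] z) :=
    (h.measNear k).prodMk (D.a.symm.measurable.iterate k)
  exact (h.measAct k).inter
    ((measurableSet_le ((h.measF1.comp m).sub_const _).abs measurable_const).union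
      (measurableSet_le ((h.measF2.comp m).sub_const _).abs measurable_const))

theorem measBad (t : ℝ) : MeasurableSet (D.Bad t) := by
  have m : Measurable fun w => (D.zp w, w) := h.measZp.prodMk measurable_id
  exact (measurableSet_le ((h.measF1.comp m).sub_const _).abs measurable_const).union
    (measurableSet_le ((h.measF2.comp m).sub_const _).abs measurable_const)

theorem measMz : Measurable D.Mz :=
  Measurable.tsum fun k => measurable_const.indicator (h.measCut k)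

theorem measMm : Measurable D.mm := h.measMz.ennreal_toReal.nat_ceil

theorem measAway (j : ℕ) : MeasurableSet (D.Away j) := by
  rw [Away, ofPred_forall]
  exact .iInter fun k => (D.a.symm.measurable.iterate k (h.measBad _)).compl

theorem measDig {cel : ℕ → X → X → ℕ} (hc : ∀ t, Measurable fun p : X × X => cel t p.1 p.2) :
    Measurable (D.dig cel) := by
  have hT := measurable_firstRet D.a.measurable h.measK
  have hp : Measurable fun p : ℕ × ℕ => Nat.pair p.1 p.2 := Measurable.of_discrete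
  have h1 : Measurable fun x => cel (retTime D.a D.K x) (D.zp x) (D.zp (firstRet D.a D.K x)) :=
    measurable_comp_retTime (g := fun t x => cel t (D.zp x) (D.zp (firstRet D.a D.K x)))
      D.a.measurable h.measK fun t => (hc t).comp (h.measZp.prodMk (h.measZp.comp hT))
  have h2 : Measurable fun x =>
      bitCode (D.mm (D.zp (firstRet D.a D.K x))) (D.zeta (firstRet D.a D.K x)).2 :=
    (measurable_from_prod_countable_left (f := fun p : (ℕ → Bool × Bool) × ℕ => bitCode p.2 p.1)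
      measurable_bitCode).comp
      ((h.measZeta.comp hT).snd.prodMk ((h.measMm.comp h.measZp).comp hT))
  exact hp.comp ((measurable_retTime D.a.measurable h.measK).prodMk (hp.comp (h1.prodMk h2)))

theorem lintegral_Mz : ∫⁻ x in D.K, D.Mz (D.zp x) ∂μ ≤
    ∑' k : ℕ, ((k : ℝ≥0∞) + 1) * μ (D.Bad ((2 * D.η + 1) * D.σ ^ k)) := by
  have hb : MeasurePreserving D.a.symm μ μ := h.erg.toMeasurePreserving.symm D.a
  unfold Mz
  rw [lintegral_tsum (f := fun (k : ℕ) x =>
    {z | D.cut k z}.indicator (fun _ => (k : ℝ≥0∞) + 1) (D.zp x)) fun k =>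
    ((measurable_const.indicator (h.measCut k)).comp h.measZp).aemeasurable]
  refine ENNReal.tsum_le_tsum fun k => ?_
  rw [← (hb.iterate k).measure_preimage (h.measBad _).nullMeasurableSet,
    ← lintegral_indicator_const (D.a.symm.measurable.iterate k (h.measBad _)),
    ← lintegral_indicator h.measK]
  refine lintegral_mono fun x => ?_
  by_cases hx : x ∈ D.K
  · by_cases hc : D.cut k (D.zp x)
    · rw [indicator_of_mem hx, indicator_of_mem
        (s := D.a.symm^[k] ⁻¹' D.Bad ((2 * D.η + 1) * D.σ ^ k)) (h.cut_bad hx hc)]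
      exact indicator_le_self _ _ (D.zp x)
    · rw [indicator_of_mem hx, indicator_of_notMem (show D.zp x ∉ {z | D.cut k z} from hc)]
      exact zero_le
  · rw [indicator_of_notMem hx]
    exact zero_le

theorem ae_away (hs : ∑' k : ℕ, ((k : ℝ≥0∞) + 1) * μ (D.Bad ((2 * D.η + 1) * D.σ ^ k)) ≠ ∞) :
    ∀ᵐ x ∂μ, ∃ j, x ∈ D.Away j := by
  have hb : MeasurePreserving D.a.symm μ μ := h.erg.toMeasurePreserving.symm D.a
  have mono : ∀ {t t' : ℝ}, t ≤ t' → D.Bad t ⊆ D.Bad t' := fun ht w hw =>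
    hw.imp (fun h1 => le_trans h1 ht) fun h1 => le_trans h1 ht
  have hs' : ∑' k : ℕ, μ (D.Bad (D.σ ^ k)) ≠ ∞ := by
    refine ne_top_of_le_ne_top hs (ENNReal.tsum_le_tsum fun k => ?_)
    refine le_trans (measure_mono (mono ?_)) (le_mul_of_one_le_left' le_add_self)
    nlinarith [pow_pos h.hσ0 k, h.hη0]
  have h1 : ∀ᵐ x ∂μ, ∀ᶠ k in atTop, x ∉ D.a.symm^[k] ⁻¹' D.Bad (D.σ ^ k) :=
    ae_eventually_notMem (by
      simpa only [(hb.iterate _).measure_preimage (h.measBad _).nullMeasurableSet] using hs')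
  have h2 : ∀ᵐ x ∂μ, x ∉ D.Bad 0 := by
    filter_upwards [ae_eventually_notMem hs'] with x hx h0
    obtain ⟨k, hk⟩ := hx.exists
    exact hk (mono (pow_pos h.hσ0 k).le h0)
  filter_upwards [h1, ae_all_iff.2 fun k => (hb.iterate k).quasiMeasurePreserving.ae h2]
    with x hx hx2
  obtain ⟨k0, hk0⟩ := eventually_atTop.1 hx
  have h3 : ∀ k, ∀ᶠ j : ℕ in atTop, D.a.symm^[k] x ∉ D.Bad (D.σ ^ k / (j + 1)) := fun k => by
    have a1 := hx2 k
    rw [Bad, mem_ofPred_eq, not_or, not_le, not_le] at a1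
    have a2 : Tendsto (fun j : ℕ => D.σ ^ k / (j + 1)) atTop (nhds 0) :=
      tendsto_const_nhds.div_atTop (tendsto_natCast_atTop_atTop.atTop_add tendsto_const_nhds)
    filter_upwards [a2.eventually (gt_mem_nhds a1.1), a2.eventually (gt_mem_nhds a1.2)]
      with j b1 b2 b3
    exact b3.elim (not_le.2 b1) (not_le.2 b2)
  obtain ⟨j, hj⟩ := ((Finset.range k0).eventually_all.2 fun k _ => h3 k).exists
  refine ⟨j, fun k => ?_⟩
  rcases lt_or_ge k k0 with h4 | h4
  · exact hj k (Finset.mem_range.2 h4)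
  · exact fun h5 => hk0 k h4 (mono (div_le_self (pow_pos h.hσ0 k).le (by simp)) h5)

theorem ref_near {x : X} (hx : x ∈ D.K) (tx : 0 < retTime D.a D.K x) :
    D.R (D.zp x) (D.a.symm^[retTime D.a D.K x] (D.zp (firstRet D.a D.K x))) ∧
    D.N (D.zp x) (D.a.symm^[retTime D.a D.K x] (D.zp (firstRet D.a D.K x))) < D.ρ := by
  have e : D.a.symm^[retTime D.a D.K x] (firstRet D.a D.K x) = x := D.symm_iter' _ _
  obtain ⟨a1, a2, a3⟩ := h.vis (j := retTime D.a D.K x) (firstRet_mem tx) (firstRet_mem tx) rfl hx.1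
    (by rw [e]; exact hx.2.1) (by rw [e]; exact hx.2.2.1) (by rw [e]; exact hx.2.2.2)
  exact ⟨a2 ▸ a1.2.1, by linarith [h.hc, h.ρ_pos]⟩

theorem inc {cel : ℕ → X → X → ℕ}
    (hc : ∀ t, ∀ z ∈ D.Z0, ∀ z' ∈ D.Z0, ∀ z'' ∈ D.Z0, D.R z (D.a.symm^[t] z') →
      D.N z (D.a.symm^[t] z') < D.ρ → D.R z (D.a.symm^[t] z'') → D.N z (D.a.symm^[t] z'') < D.ρ →
      cel t z z' = cel t z z'' → z' = z'')
    {x y : X} (hx : x ∈ D.K) (hy : y ∈ D.K) (tx : 0 < retTime D.a D.K x)
    (ty : 0 < retTime D.a D.K y) (hM : D.Mz (D.zp (firstRet D.a D.K x)) ≠ ∞) :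
    D.zeta (firstRet D.a D.K x) = D.zeta (firstRet D.a D.K y) ↔
      D.zeta x = D.zeta y ∧ D.dig cel x = D.dig cel y := by
  constructor
  · intro e
    obtain ⟨e1, e2⟩ := h.tau_eq hx hy tx ty e
    refine ⟨e2, ?_⟩
    rw [dig, dig, e1, (D.zeta_eq_iff.1 e2).1, (D.zeta_eq_iff.1 e).1, e]
  · rintro ⟨e, e'⟩
    simp only [dig, Nat.pair_eq_pair] at e'
    obtain ⟨e1, e2, e3⟩ := e'
    have a1 := h.ref_near hx tx
    have a2 := h.ref_near hy ty
    rw [← e1, ← (D.zeta_eq_iff.1 e).1] at a2 e2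
    have e4 := hc _ _ hx.1 _ (firstRet_mem tx).1 _ (firstRet_mem ty).1 a1.1 a1.2 a2.1 a2.2 e2
    rw [← e4] at e3
    refine D.zeta_eq_iff.2 ⟨e4, fun k hk => ?_⟩
    by_cases hcut : D.cut k (D.zp (firstRet D.a D.K x))
    · have e5 : D.bit k _ _ = D.bit k _ _ := bitCode_inj e3 k (D.lt_mm hM hcut)
      rw [← e4] at e5
      exact D.bit_eq_iff.1 e5 hk
    · exact h.same_of_not_cut (firstRet_mem tx) (firstRet_mem ty) e4 hcut hk

end Good

end BD

end Pool.Agent.P.MP_d483fb_an.Z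


end

section

/-!
Existence of the increasing rectangle partition.
-/

namespace Pool.Agent.P.MP_d483fb_an.Z

open MeasureTheory ProbabilityTheory Set Filter
open scoped ENNReal

variable {X M : Type*} [MeasurableSpace X]

namespace BD.Good

variable {D : BD X} {μ : Measure X} {X0 : Set X} {s al : X → X → M} {E1 E2 : X → X → Prop}
  {c r0 : ℝ} (h : D.Good μ X0 s al E1 E2 c r0)
include h

theorem rect_names {d : X → ℕ} {Y : Set X} (hY : Y ⊆ D.K)
    (hf : ∀ x ∈ Y, 0 < retTime D.a D.K x ∧ firstRet D.a D.K x ∈ Y)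
    (hi : ∀ x ∈ Y, ∀ y ∈ Y, D.zeta (firstRet D.a D.K x) = D.zeta (firstRet D.a D.K y) ↔
      D.zeta x = D.zeta y ∧ d x = d y) (n : ℕ) :
    ∀ y₁ ∈ Y, ∀ y₂ ∈ Y, ∀ u₁ ∈ Y, ∀ u₂ ∈ Y, D.zeta y₁ = D.zeta y₂ → D.zeta u₁ = D.zeta u₂ →
      (∀ i < n, d ((firstRet D.a D.K)^[i] y₁) = d ((firstRet D.a D.K)^[i] y₂)) →
      (∀ i < n, d ((firstRet D.a D.K)^[i] u₁) = d ((firstRet D.a D.K)^[i] u₂)) →
      E1 y₁ u₁ → E2 y₂ u₂ →
      ∀ i < n, d ((firstRet D.a D.K)^[i] y₁) = d ((firstRet D.a D.K)^[i] u₁) := by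
  induction n with
  | zero => exact fun _ _ _ _ _ _ _ _ _ _ _ _ _ _ i hi => absurd hi (Nat.not_lt_zero i)
  | succ n ih =>
    intro y₁ h₁ y₂ h₂ u₁ k₁ u₂ k₂ e e' a a' g₁ g₂ i hi'
    have b := (hi _ h₁ _ h₂).2 ⟨e, a 0 n.succ_pos⟩
    have b' := (hi _ k₁ _ k₂).2 ⟨e', a' 0 n.succ_pos⟩
    obtain ⟨c1, c2, c3⟩ := h.rect_one (hY h₁) (hY h₂) (hY k₁) (hY k₂) (hf _ h₁).1 (hf _ h₂).1
      (hf _ k₁).1 (hf _ k₂).1 b b' g₁ g₂
    cases i with
    | zero => exact ((hi _ h₁ _ k₁).1 c1).2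
    | succ i =>
      exact ih _ (hf _ h₁).2 _ (hf _ h₂).2 _ (hf _ k₁).2 _ (hf _ k₂).2 b b'
        (fun j hj => a (j + 1) (by omega)) (fun j hj => a' (j + 1) (by omega)) c2 c3 i (by omega)

theorem box [IsProbabilityMeasure μ]
    (hs : ∑' k : ℕ, ((k : ℝ≥0∞) + 1) * μ (D.Bad ((2 * D.η + 1) * D.σ ^ k)) ≠ ∞) :
    ∃ d del Y, Box μ D.a X0 D.R D.N s al D.K D.zeta d del Y := by
  obtain ⟨δ, hδ1, hδ2, hδ3⟩ := h.inn
  obtain ⟨cel, S, C, hc1, hc2, hc3, hc4⟩ := h.cel
  have ha := h.erg.toMeasurePreserving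
  have hb : MeasurePreserving D.a.symm μ μ := ha.symm D.a
  have hK := h.measK
  have hK0 : μ D.K ≠ 0 := fun h0 => h.pos (measure_mono_null
    (fun y ⟨z, h1, h2, h3, h4⟩ => (h.memK h1 h2 (h3.trans h.hr1) (h4.trans h.hr1)).1) h0)
  have hM : ∫⁻ x in D.K, D.Mz (D.zp x) ∂μ ≠ ∞ := ne_top_of_le_ne_top hs h.lintegral_Mz
  have mM : Measurable fun x => D.Mz (D.zp x) := h.measMz.comp h.measZp
  have mG : MeasurableSet {x | (∃ j, x ∈ D.Away j) ∧ (x ∈ D.K → D.Mz (D.zp x) ≠ ∞ ∧
      0 < retTime D.a D.K x ∧ 0 < retTime D.a.symm D.K x)} := by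
    refine measurableSet_setOfPred.2 (Measurable.and
      (Measurable.exists fun j => measurableSet_setOfPred.1 (h.measAway j))
      (Measurable.imp (measurableSet_setOfPred.1 hK) (Measurable.and ?_ (Measurable.and ?_ ?_))))
    · exact measurableSet_setOfPred.1 (mM (measurableSet_singleton ∞).compl)
    · exact measurableSet_setOfPred.1
        (measurableSet_lt measurable_const (measurable_retTime ha.measurable hK))
    · exact measurableSet_setOfPred.1
        (measurableSet_lt measurable_const (measurable_retTime hb.measurable hK))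
  obtain ⟨V, hV1, hV2, hV3, hV4⟩ := exists_box_conull ha mG (by
    filter_upwards [h.ae_away hs, (ae_restrict_iff' hK).1 (ae_lt_top mM hM),
      (ae_restrict_iff' hK).1 (ae_retTime_pos ha hK),
      (ae_restrict_iff' hK).1 (ae_retTime_pos hb hK)] with x h1 h2 h3 h4
    exact ⟨h1, fun hx => ⟨(h2 hx).ne, h3 hx, h4 hx⟩⟩)
  have hf : ∀ x ∈ D.K ∩ V, 0 < retTime D.a D.K x ∧ firstRet D.a D.K x ∈ D.K ∩ V := fun x hx =>
    have h1 := ((hV3 hx.2).2 hx.1).2.1
    ⟨h1, firstRet_mem h1, (hV4 x hx.2 _).1⟩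
  have hi : ∀ x ∈ D.K ∩ V, ∀ y ∈ D.K ∩ V,
      D.zeta (firstRet D.a D.K x) = D.zeta (firstRet D.a D.K y) ↔
        D.zeta x = D.zeta y ∧ D.dig cel x = D.dig cel y := fun x hx y hy =>
    h.inc hc4 hx.1 hy.1 (hf x hx).1 (hf y hy).1 ((hV3 (hf x hx).2.2).2 (hf x hx).2.1).1
  have haeY : ∀ᵐ x ∂μ, x ∈ D.K → x ∈ D.K ∩ V := by
    filter_upwards [hV2] with x h1 h2 using ⟨h2, h1⟩
  have hbd : ∀ x, BddAbove (range fun j => (D.Away j).indicator (fun x => min (δ j x) 1) x) :=
    fun x => ⟨1, forall_mem_range.2 fun j =>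
      indicator_apply_le' (fun _ => min_le_right _ _) fun _ => zero_le_one⟩
  refine ⟨D.dig cel, fun x => ⨆ j, (D.Away j).indicator (fun x => min (δ j x) 1) x, D.K ∩ V,
    hK, hK0, h.measZeta, h.measDig hc1,
    Measurable.iSup fun j => ((hδ1 j).min measurable_const).indicator (h.measAway j),
    hK.inter hV1, inter_subset_left, fun x hx => (h.mem0 _ _ hx.2.1).2, haeY, hf,
    fun x hx => ?_, ?_, fun x y e => (Nat.pair_eq_pair.1 e).1, hi, fun x hx y hy e j hj =>
      h.back hx hy e j hj, fun x hx => ⟨(h.mem0 _ _ hx.2.1).1, hx.2.1, ?_⟩,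
    fun n y₁ h₁ y₂ h₂ u₁ k₁ u₂ k₂ e₁ e₂ e₃ a a' g₁ g₂ => ?_, fun x hx => ⟨?_, fun y hR hN => ?_⟩⟩
  · have h1 := ((hV3 hx.2).2 hx.1).2.2
    exact ⟨h1, firstRet_mem h1, (hV4 x hx.2 _).2⟩
  · have := cond_isProbabilityMeasure (μ := μ) hK0
    have hT := measurePreserving_firstRet ha hK
    have mm : Measurable fun x => D.mm (D.zp x) := h.measMm.comp h.measZp
    have mc : Measurable fun i : ℕ => (i : ℝ≥0∞) := Measurable.of_discrete
    have mt := measurable_retTime ha.measurable hK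
    refine finEnt_of_level _ (h.measDig hc1)
      (lv := fun x => retTime D.a D.K x + D.mm (D.zp (firstRet D.a D.K x)))
      (mt.add (mm.comp hT.measurable)) ?_ ?_ (card_level hc2)
    · rw [ProbabilityTheory.cond, lintegral_smul_measure]
      refine ENNReal.mul_ne_top (ENNReal.inv_ne_top.2 hK0) ?_
      push_cast
      rw [lintegral_add_left (f := fun x => (retTime D.a D.K x : ℝ≥0∞)) (mc.comp mt),
        lintegral_retTime ha hK (ae_visit_of_ergodic h.erg hK hK0),
        hT.lintegral_comp (f := fun x => (D.mm (D.zp x) : ℝ≥0∞)) (mc.comp mm)]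
      refine ENNReal.add_ne_top.2 ⟨measure_ne_top _ _, ne_top_of_le_ne_top ?_
        (lintegral_mono fun x => D.mm_le (D.zp x))⟩
      rw [lintegral_add_left mM]
      exact ENNReal.add_ne_top.2 ⟨hM, by simp⟩
    · refine Measure.ae_smul_measure ?_ _
      filter_upwards [ae_restrict_of_ae haeY, ae_restrict_mem hK] with x h1 h2
      have h3 := h.ref_near h2 (hf x (h1 h2)).1
      refine Finset.mem_image.2 ⟨(retTime D.a D.K x, _, _), ?_, rfl⟩
      simp only [Finset.mem_product, Finset.mem_range, Finset.mem_biUnion]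
      exact ⟨by omega, ⟨_, by omega, hc3 _ _ _ h3.1 h3.2⟩, (bitCode_lt _ _).trans_le
        (Nat.pow_le_pow_right (by norm_num) (by omega))⟩
  · exact (h.N_lt hx).le.trans (by linarith [h.hc, h.hρ, h.ρ_pos])
  · have z₁ : D.zp u₁ = D.zp y₁ := (D.zeta_eq_iff.1 e₂).1.symm
    have z₂ : D.zp u₂ = D.zp y₂ := (D.zeta_eq_iff.1 (e₃.symm.trans e₁)).1
    change s (D.zp y₁) y₁ = s (D.zp u₁) u₁ at g₁
    change al (D.zp y₂) y₂ = al (D.zp u₂) u₂ at g₂
    rw [z₁] at g₁
    rw [z₂] at g₂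
    funext i
    exact h.rect_names inter_subset_left hf hi n y₁ h₁ y₂ h₂ u₁ k₁ u₂ k₂ e₁ (e₂.symm.trans e₃)
      (fun i hi => congrFun a ⟨i, hi⟩) (fun i hi => congrFun a' ⟨i, hi⟩)
      (h.e1s _ _ _ h₁.1.2.1 (z₁ ▸ k₁.1.2.1) g₁) (h.e2s _ _ _ h₂.1.2.1 (z₂ ▸ k₂.1.2.1) g₂) i i.2
  · obtain ⟨j, hj⟩ := (hV3 hx.2).1
    refine lt_of_lt_of_le ?_ (le_ciSup (hbd x) j)
    rw [indicator_of_mem hj]
    exact lt_min (hδ2 j x (h.mem0 _ _ hx.1.2.1).2) one_pos
  · obtain ⟨j, hj1, hj2⟩ : ∃ j, x ∈ D.Away j ∧ D.N x y < δ j x := by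
      obtain ⟨j, hj⟩ := exists_lt_of_lt_ciSup hN
      by_cases h1 : x ∈ D.Away j
      · rw [indicator_of_mem h1] at hj
        exact ⟨j, h1, hj.trans_le (min_le_left _ _)⟩
      · rw [indicator_of_notMem h1] at hj
        obtain ⟨j', hj'⟩ := (hV3 hx.2).1
        exact ⟨j', hj', hj.trans (hδ2 j' x (h.mem0 _ _ hx.1.2.1).2)⟩
    exact h.inner_of hx.1 hR hj1 fun z' hz k a1 a2 a3 => hδ3 z' hz _ hx.1.1 j k x y a1 a2 hx.1.2.1
      a3 (by linarith [h.N_lt hx.1, h.hc, h.ρ_pos]) hR hj2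

end BD.Good

/-- The increasing rectangle partition exists. -/
theorem BoxPre.exists_box [StandardBorelSpace X] {μ : Measure X} [IsProbabilityMeasure μ]
    {a : X ≃ᵐ X} {X0 : Set X} {R : X → X → Prop} {N F1 F2 : X → X → ℝ} {s al : X → X → M}
    {E1 E2 : X → X → Prop} {Z0 : Set X} {ρ c r0 η σ : ℝ}
    (h : BoxPre μ a X0 R N F1 F2 s al E1 E2 Z0 ρ c r0 η σ) :
    ∃ K zeta d del Y, Box μ a X0 R N s al K zeta d del Y := by
  have : Nonempty X := nonempty_of_isProbabilityMeasure μ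
  have m : Measurable fun p : X × X => (p.2, p.1) := measurable_swap
  obtain ⟨zp, h1, h2⟩ := exists_meas_unique
    (G := {p : X × X | p.2 ∈ Z0 ∧ R p.2 p.1 ∧ N p.2 p.1 < ρ})
    ((measurable_snd h.measZ).inter ((m h.measR).inter
      (measurableSet_lt (h.measN.comp m) measurable_const)))
    fun w z z' a1 a2 => h.uniq z a1.1 z' a2.1 w a1.2.1 a2.2.1 a1.2.2 a2.2.2
  have m' : Measurable fun w => (zp w, w) := h1.prodMk measurable_id
  obtain ⟨r, h3, h4, h5⟩ := exists_radius μ (h.measF1.comp m') (h.measF2.comp m')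
    (D := 2 * η + 1) (by linarith [h.hη0]) h.hσ0.le h.hσ1 h.hr0
  have hG : BD.Good ⟨a, R, N, F1, F2, Z0, ρ, η, σ, r, zp⟩ μ X0 s al E1 E2 c r0 :=
    ⟨h, h1, fun w z a1 a2 a3 => h2 w z ⟨a1, a2, a3⟩, h3, h4⟩
  exact ⟨_, _, hG.box h5⟩

end Pool.Agent.P.MP_d483fb_an.Z


end

section

/-!
Every leaf structure has increasing rectangle partitions and leafwise measures.
-/

open MeasureTheory Set

namespace Pool.Agent.P.MP_d483fb_an.Z

variable {X : Type} [MeasurableSpace X] [StandardBorelSpace X] {μ : Measure X}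
  [IsProbabilityMeasure μ] {ι : Type} [Fintype ι] [DecidableEq ι]

/-- The increasing rectangle partition of a leaf structure. -/
theorem LS.exists_box (S : LS X μ ι) {J : Set ℝ} {χ : ℝ} (hJ : J.OrdConnected)
    (hχ : Wt.Extreme J χ) : ∃ K zeta d del Y, Box μ S.toPre.aE S.X0 (S.toPre.RJ J) S.toPre.N
      (fun w y => S.w.pr χ (S.toPre.n w y)) (fun w y => S.w.al χ (S.toPre.n w y))
      K zeta d del Y := by
  obtain ⟨Z0, ρ, c, r0, η, σ, h⟩ := S.exists_boxPre hJ hχ
  exact h.exists_box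

/-- Leafwise measures exist. -/
theorem LS.hasLW (S : LS X μ ι) : S.toPre.HasLW := S.hasLW_of_box fun _ _ => S.exists_box

end Pool.Agent.P.MP_d483fb_an.Z


end

section

/-!
From a product formula on one cell to a local formula for the leafwise measures, and from the
local formula to the global one by recurrence.
-/

namespace Pool.Agent.P.MP_d483fb_an.Z.PS

open MeasureTheory Filter Set Topology ProbabilityTheory
open scoped ENNReal

variable {X M : Type*} [MeasurableSpace X] [MeasurableSpace M]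

theorem restrict_eq_of_ae {κ : Measure M} {U V : Set M} (hV : MeasurableSet V)
    (h : ∀ᵐ x ∂κ, x ∈ V → x ∈ U) : (κ.restrict U).restrict V = κ.restrict V := by
  rw [Measure.restrict_restrict hV]
  refine Measure.restrict_congr_set ?_
  filter_upwards [h] with x hx
  exact propext ⟨fun h1 => h1.1, fun h1 => ⟨h1, hx h1⟩⟩

theorem restrict_map_eq {κ κ' : Measure X} {φ : X → M} (hφ : Measurable φ) {U : Set X}
    {V : Set M} (hV : MeasurableSet V) (h : ∀ᵐ x ∂κ, φ x ∈ V → x ∈ U)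
    (h' : ∀ᵐ x ∂κ', φ x ∈ V → x ∈ U) {c : ℝ≥0∞} (e : κ.restrict U = c • κ'.restrict U) :
    (κ.map φ).restrict V = c • (κ'.map φ).restrict V := by
  rw [Measure.restrict_map hφ hV, Measure.restrict_map hφ hV, ← restrict_eq_of_ae (hφ hV) h,
    ← restrict_eq_of_ae (hφ hV) h', e, Measure.restrict_smul, Measure.map_smul]

/-- Almost every orbit of an ergodic map visits a set of positive measure infinitely often. -/
theorem ae_frequently {μ : Measure X} [IsProbabilityMeasure μ] {S : X → X} (hS : Ergodic S μ)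
    {E : Set X} (hE : MeasurableSet E) (h0 : μ E ≠ 0) : ∀ᵐ x ∂μ, ∃ᶠ k in atTop, S^[k] x ∈ E := by
  filter_upwards [ae_visit_of_ergodic hS hE h0,
    hS.toMeasurePreserving.conservative.ae_forall_image_mem_imp_frequently_image_mem
      hE.nullMeasurableSet] with x h1 h2
  obtain ⟨k, hk⟩ := h1
  exact h2 k hk

/-- Two equivariant families of measures which are proportional on a small ball for the points
of a set of positive measure are proportional almost everywhere. -/
theorem spread {μ : Measure X} [IsProbabilityMeasure μ] {S : X → X} (hS : Ergodic S μ)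
    {κ κ' : X → Measure M} {g : M → ℝ} (hg : Measurable g) {E : Set X} (hE : MeasurableSet E)
    (h0 : μ E ≠ 0) {r : ℝ}
    (loc : ∀ᵐ x ∂μ, x ∈ E → ∃ c : ℝ≥0∞,
      (κ x).restrict {h | g h < r} = c • (κ' x).restrict {h | g h < r})
    (eqv : ∀ᵐ x ∂μ, ∀ R : ℝ, ∀ᶠ k in atTop, ∃ φ : M → M, Measurable φ ∧ ∃ c c' : ℝ≥0∞,
      c' ≠ 0 ∧ c' ≠ ∞ ∧ κ x = c • (κ (S^[k] x)).map φ ∧ κ' x = c' • (κ' (S^[k] x)).map φ ∧
      (∀ᵐ h ∂κ (S^[k] x), g (φ h) < R → g h < r) ∧ ∀ᵐ h ∂κ' (S^[k] x), g (φ h) < R → g h < r)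
    (fin : ∀ᵐ x ∂μ, κ x {h | g h < 1} ≠ 0 ∧ κ x {h | g h < 1} ≠ ∞) :
    ∀ᵐ x ∂μ, ∃ c : ℝ≥0∞, c ≠ 0 ∧ c ≠ ∞ ∧ κ x = c • κ' x := by
  have hU : ∀ R : ℝ, MeasurableSet {h | g h < R} := fun R => measurableSet_lt hg measurable_const
  filter_upwards [ae_frequently hS hE h0, eqv, fin, ae_all_iff.2 fun k =>
    (hS.toMeasurePreserving.iterate k).quasiMeasurePreserving.ae loc] with x h1 h2 h3 h4
  have hc : ∀ h, ∃ j : ℕ, h ∈ {h | g h < (j : ℝ) + 1} := fun h => by
    obtain ⟨j, hj⟩ := exists_nat_gt (g h)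
    exact ⟨j, hj.trans (lt_add_one _)⟩
  refine eq_smul_of_restrict (U := fun j : ℕ => {h | g h < (j : ℝ) + 1}) (fun j => hU _)
    (fun i j hij h hh => ?_) (Eventually.of_forall hc) (Eventually.of_forall hc)
    (by simpa using h3.1) (by simpa using h3.2) fun j => ?_
  · have : (i : ℝ) ≤ j := Nat.cast_le.2 hij
    exact lt_of_lt_of_le (show g h < (i : ℝ) + 1 from hh) (by linarith)
  obtain ⟨k, hk, φ, hφ, c, c', c0, c1, e1, e2, a1, a2⟩ := (h1.and_eventually (h2 (j + 1))).exists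
  obtain ⟨c2, e3⟩ := h4 k hk
  refine ⟨c * c2 * c'⁻¹, ?_⟩
  rw [e1, e2, Measure.restrict_smul, Measure.restrict_smul,
    restrict_map_eq hφ (hU _) a1 a2 e3, smul_smul, smul_smul, mul_assoc _ c'⁻¹,
    ENNReal.inv_mul_cancel c0 c1, mul_one]

variable [Monoid M] [MeasurableMul₂ M]

theorem mconv_map (o o' : Measure X) [SFinite o] [SFinite o'] {n n' : X → M} (hn : Measurable n)
    (hn' : Measurable n') :
    o.map n ∗ₘ o'.map n' = (o.prod o').map fun p => n p.1 * n' p.2 := by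
  rw [Measure.mconv, Measure.map_prod_map _ _ hn hn', Measure.map_map measurable_mul (hn.prodMap hn')]
  rfl

/-- The product formula on a cell, moved to the chart of the base point. -/
theorem cell_product {oJ oS oC : Measure X} [SFinite oS] [SFinite oC] {cJ cS cC : Set X}
    (mJ : MeasurableSet cJ) (mS : MeasurableSet cS) (mC : MeasurableSet cC)
    (fJ : oJ cJ ≠ ∞)
    {s al n : X → M} (hs : Measurable s) (hal : Measurable al)
    {φ ψ : M → M} (hφ : Measurable φ) (hψ : Measurable ψ)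
    (eJ : ∀ y ∈ cJ, n y = ψ (al y) * φ (s y)) (eS : ∀ y ∈ cS, n y = ψ (al y))
    (eC : ∀ y ∈ cC, n y = φ (s y))
    (h : (oJ[|cJ]).map (fun y => (s y, al y)) = ((oC[|cC]).map s).prod ((oS[|cS]).map al)) :
    ∃ c : ℝ≥0∞, (oJ.restrict cJ).map n =
      c • ((oS.prod oC).restrict (cS ×ˢ cC)).map fun p => n p.1 * n p.2 := by
  have hΘ : Measurable fun p : M × M => ψ p.2 * φ p.1 :=
    (hψ.comp measurable_snd).mul (hφ.comp measurable_fst)
  have h1 : (oJ[|cJ]).map n = ((oS[|cS]).prod (oC[|cC])).map fun p => n p.1 * n p.2 := by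
    have a1 : (oJ[|cJ]).map n =
        ((oJ[|cJ]).map fun y => (s y, al y)).map fun p : M × M => ψ p.2 * φ p.1 := by
      rw [Measure.map_map hΘ (hs.prodMk hal)]
      exact Measure.map_congr ((ae_cond_mem mJ).mono eJ)
    rw [a1, h, Measure.map_prod_map _ _ hs hal, Measure.map_map hΘ (hs.prodMap hal),
      ← Measure.prod_swap, Measure.map_map (hΘ.comp (hs.prodMap hal)) measurable_swap]
    refine Measure.map_congr ?_
    filter_upwards [Measure.quasiMeasurePreserving_fst.ae (ae_cond_mem (μ := oS) mS),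
      Measure.quasiMeasurePreserving_snd.ae (ae_cond_mem (μ := oC) mC)] with p p1 p2
    simp [eS _ p1, eC _ p2]
  refine ⟨oJ cJ * ((oS cS)⁻¹ * (oC cC)⁻¹), ?_⟩
  have a2 : oJ.restrict cJ = oJ cJ • oJ[|cJ] := by
    by_cases h0 : oJ cJ = 0
    · rw [Measure.restrict_eq_zero.2 h0, h0, zero_smul]
    · rw [ProbabilityTheory.cond, smul_smul, ENNReal.mul_inv_cancel h0 fJ, one_smul]
  rw [a2, Measure.map_smul, h1, ProbabilityTheory.cond, ProbabilityTheory.cond,
    Measure.prod_smul_left, Measure.prod_smul_right, Measure.prod_restrict, smul_smul,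
    Measure.map_smul, smul_smul]

/-- The local product formula on a small ball. -/
theorem local_product {oJ oS oC : Measure X} [SFinite oS] [SFinite oC] {cJ cS cC : Set X}
    {n : X → M} (hn : Measurable n) {U : Set M} (hU : MeasurableSet U) {c : ℝ≥0∞}
    (h : (oJ.restrict cJ).map n =
      c • ((oS.prod oC).restrict (cS ×ˢ cC)).map fun p => n p.1 * n p.2)
    (h1 : ∀ᵐ y ∂oJ, n y ∈ U → y ∈ cJ)
    (h2 : ∀ᵐ p ∂oS.prod oC, n p.1 * n p.2 ∈ U → p ∈ cS ×ˢ cC) :
    (oJ.map n).restrict U = c • (oS.map n ∗ₘ oC.map n).restrict U := by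
  have hm : Measurable fun p : X × X => n p.1 * n p.2 :=
    (hn.comp measurable_fst).mul (hn.comp measurable_snd)
  rw [mconv_map _ _ hn hn, Measure.restrict_map hn hU, Measure.restrict_map hm hU,
    ← restrict_eq_of_ae (hn hU) h1, ← restrict_eq_of_ae (hm hU) h2, ← Measure.restrict_map hn hU,
    ← Measure.restrict_map hm hU, h, Measure.restrict_smul]

end Pool.Agent.P.MP_d483fb_an.Z.PS


end

section

/-!
The product structure of leafwise measures for an extreme slope, given a rectangle partition.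
-/

open scoped Matrix Matrix.Norms.Operator Topology ENNReal
open MeasureTheory Filter Set ProbabilityTheory

noncomputable section

namespace Pool.Agent.P.MP_d483fb_an.Z.PS

open Ent

variable {X : Type} [MeasurableSpace X] {μ : Measure X} {ι : Type} [Fintype ι] [DecidableEq ι]
  {J J' : Set ℝ} {χ : ℝ} {K Y : Set X} {ζ : X → BoxLab X} {d : X → ℕ} {del : X → ℝ}

section equiv

variable {S : Pre X μ ι}

/-- Conjugation by an invertible matrix. -/
def conjH (L : Matrix ι ι ℝ) (h : IsUnit L.det) : Matrix ι ι ℝ →* Matrix ι ι ℝ where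
  toFun m := L * m * L⁻¹
  map_one' := by rw [mul_one, Matrix.mul_nonsing_inv _ h]
  map_mul' a b := by
    simp only [mul_assoc]
    rw [← mul_assoc L⁻¹ L, Matrix.nonsing_inv_mul _ h, one_mul]

theorem measurable_conjH (L : Matrix ι ι ℝ) (h : IsUnit L.det) : Measurable (conjH L h) :=
  (measurable_id.const_mul L).mul_const L⁻¹

instance (o : S.Leafwise J) (x : X) : SFinite (o.om x) :=
  have := o.lw.sfin
  inferInstance

instance (o : S.Leafwise J) (x : X) : SFinite (o.nu x) :=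
  inferInstanceAs (SFinite ((o.om x).map (S.n x)))

theorem nu_nil (o : S.Leafwise J) {x : X} (hx : x ∈ o.X1) : ∀ᵐ h ∂o.nu x, S.w.Nil J h :=
  (ae_map_iff (S.measurable_n_right x).aemeasurable (S.w.measurableSet_Nil J)).2
    ((o.lw.carried x hx).mono fun _ h => h.2.2)

theorem nu_equiv (o : S.Leafwise J) {x : X} (hx : x ∈ o.X1) (k : ℕ) : ∃ c : ℝ≥0∞, c ≠ 0 ∧ c ≠ ∞ ∧
    o.nu (S.aE^[k] x) = c • (o.nu x).map (conjH (S.La k x) (Pre.isUnit_La (o.sub1 hx) k)) := by
  obtain ⟨c, c0, c1, e⟩ := o.lw.equiv_iterate k hx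
  refine ⟨c, c0, c1, ?_⟩
  rw [Pre.Leafwise.nu, Pre.Leafwise.nu, e, Measure.map_smul,
    Measure.map_map (S.measurable_n_right _) (S.aE.measurable.iterate k),
    Measure.map_map (measurable_conjH _ _) (S.measurable_n_right _)]
  congr 1
  refine Measure.map_congr ((o.lw.carried x hx).mono fun y hy => ?_)
  simp only [Function.comp_apply, Pre.aE_iterate]
  exact Pre.n_a hy.2.1 k

end equiv

namespace BoxJ

variable [StandardBorelSpace X] [Nonempty X] [IsProbabilityMeasure μ]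

section pre

variable {S : Pre X μ ι} (hB : BoxJ S J χ K ζ d del Y) (hJ : J.OrdConnected)
include hB hJ

omit [IsProbabilityMeasure μ] in
/-- The conditional measures on the fibres of a coordinate are leafwise measures. -/
theorem cp_eq {W : Type} [MeasurableSpace W] [StandardBorelSpace W] {lab : X → W}
    (hl : Measurable lab) (hJ' : J' ⊆ J)
    (hc : ∀ x ∈ K, ∀ y ∈ K, lab y = lab x ↔ ζ x = ζ y ∧ S.RJ J' x y) (o : S.Leafwise J') :
    ∀ᵐ x ∂μ[|K], cp μ[|K] lab x = (o.om x)[|{y | y ∈ K ∧ lab y = lab x}] ∧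
      o.om x {y | y ∈ K ∧ lab y = lab x} ≠ ∞ := by
  have h1 : ∀ x ∈ {x | x ∈ K → x ∈ Y}, x ∈ K → ∃ r, ∀ y ∈ {x | x ∈ K → x ∈ Y}, y ∈ K →
      lab y = lab x → S.N x y < r := fun x _ hx => ⟨_, fun y _ hy e =>
    (hB.N_le hJ hx hy ((hc x hx y hy).1 e).1).trans_lt (lt_add_one _)⟩
  have h2 : ∀ x ∈ {x | x ∈ K → x ∈ Y}, x ∈ K → ∃ r, 0 < r ∧ ∀ y ∈ {x | x ∈ K → x ∈ Y},
      S.RJ J' x y → S.N x y < r → y ∈ K ∧ lab y = lab x := fun x hx hx' =>
    ⟨del x, (hB.inner x (hx hx')).1, fun y _ hR hN =>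
      have h := (hB.inner x (hx hx')).2 y (hR.mono hJ') hN
      ⟨h.1, (hc x hx' y h.1).2 ⟨h.2.symm, hR⟩⟩⟩
  filter_upwards [o.lw.condDistrib_eq' hB.measK hl hB.aeY
    (fun x _ y _ hx hy e => ((hc x hx y hy).1 e.symm).2) h1 h2 μ[|K] rfl,
    (cond_absolutelyContinuous (μ := μ) (s := K)).ae_le (o.lw.ae_class_pos hB.aeY h1 h2),
    ae_cond_mem hB.measK] with x a1 a2 a3
  exact ⟨a1, (a2 a3).2⟩

end pre

variable {S : LS X μ ι} (hB : BoxJ S.toPre J χ K ζ d del Y) (hJ : J.OrdConnected) (hm : χ ∈ J)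
  (hχ : Wt.Extreme J χ) (o : S.toPre.Leafwise J) (o1 : S.toPre.Leafwise (J \ {χ}))
  (o2 : S.toPre.Leafwise {χ})
include hB hJ hm hχ

/-- The local product structure. -/
theorem local_ps : ∀ᵐ x ∂μ[|K], ∀ r, S.w.C ^ 2 * r ≤ del x → ∃ c : ℝ≥0∞,
    (o.nu x).restrict {h | S.w.N h < r} = c • (o1.nu x ∗ₘ o2.nu x).restrict {h | S.w.N h < r} := by
  have ms := measurable_sC (S := S.toPre) (χ := χ) hB.measZeta
  have ma := measurable_aC (S := S.toPre) (χ := χ) hB.measZeta
  have hS : ∀ x ∈ K, ∀ y ∈ K, pr2 ζ (sC S.toPre χ ζ) y = pr2 ζ (sC S.toPre χ ζ) x ↔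
      ζ x = ζ y ∧ S.toPre.RJ (J \ {χ}) x y := fun x hx y hy =>
    ⟨fun e => ⟨(congrArg Prod.fst e).symm, (hB.sC_iff hJ hχ hx hy (congrArg Prod.fst e).symm).1
      (congrArg Prod.snd e).symm⟩, fun e => Prod.ext e.1.symm ((hB.sC_iff hJ hχ hx hy e.1).2 e.2).symm⟩
  have hA : ∀ x ∈ K, ∀ y ∈ K, pr2 ζ (aC S.toPre χ ζ) y = pr2 ζ (aC S.toPre χ ζ) x ↔
      ζ x = ζ y ∧ S.toPre.RJ {χ} x y := fun x hx y hy =>
    ⟨fun e => ⟨(congrArg Prod.fst e).symm, (hB.aC_iff hχ hx hy (congrArg Prod.fst e).symm).1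
      (congrArg Prod.snd e).symm⟩, fun e => Prod.ext e.1.symm ((hB.aC_iff hχ hx hy e.1).2 e.2).symm⟩
  have ac := (cond_absolutelyContinuous (μ := μ) (s := K)).ae_le
  filter_upwards [hB.cp_prod hJ hχ, hB.aeY',
    hB.cp_eq hJ hB.measZeta Subset.rfl (fun x hx y hy =>
      ⟨fun e => ⟨e.symm, hB.rel hJ hx hy e.symm⟩, fun e => e.1.symm⟩) o,
    hB.cp_eq hJ (hB.measZeta.prodMk ms) sdiff_subset hS o1,
    hB.cp_eq hJ (hB.measZeta.prodMk ma) (singleton_subset_iff.2 hm) hA o2,
    ac o.lw.conull, ac o1.lw.conull, ac o2.lw.conull] with x h0 hx a a1 a2 x0 x1 x2 r hr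
  have hK := hB.subK hx
  have mcl : ∀ {W : Type} [MeasurableSpace W] [StandardBorelSpace W] {lab : X → W},
      Measurable lab → MeasurableSet {y | y ∈ K ∧ lab y = lab x} := fun hl =>
    hB.measK.inter (hl (measurableSet_singleton _))
  have hz := hB.refx hK
  have hn := S.toPre.measurable_n_right x
  have e0 : ∀ y ∈ K, ζ x = ζ y → S.toPre.n x y = S.toPre.l x (ζ x).1 *
      ((S.toPre.n (ζ x).1 x)⁻¹ * (aC S.toPre χ ζ y * sC S.toPre χ ζ y)) * S.toPre.l (ζ x).1 x :=
    fun y hy e => by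
      rw [aC, sC, (hB.refx hy).2.al_mul_pr, ← e]
      exact Pre.n_eq_conj hz.1 (hB.rel hJ hK hy e).1
  have h0' : ((o.om x)[|{y | y ∈ K ∧ ζ y = ζ x}]).map
      (fun y => (sC S.toPre χ ζ y, aC S.toPre χ ζ y)) = (((o2.om x)[|{y | y ∈ K ∧
        pr2 ζ (aC S.toPre χ ζ) y = pr2 ζ (aC S.toPre χ ζ) x}]).map (sC S.toPre χ ζ)).prod
      (((o1.om x)[|{y | y ∈ K ∧ pr2 ζ (sC S.toPre χ ζ) y = pr2 ζ (sC S.toPre χ ζ) x}]).map
        (aC S.toPre χ ζ)) := by
    rw [← a.1]
    exact h0.trans (congrArg₂ (fun m m' : Measure X =>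
      (m.map (sC S.toPre χ ζ)).prod (m'.map (aC S.toPre χ ζ))) a2.1 a1.1)
  obtain ⟨c, hc⟩ := cell_product (n := S.toPre.n x) (mcl hB.measZeta) (mcl (hB.measZeta.prodMk ms))
    (mcl (hB.measZeta.prodMk ma)) a.2 ms ma
    (φ := fun m => S.toPre.l x (ζ x).1 * ((sC S.toPre χ ζ x)⁻¹ * m) * S.toPre.l (ζ x).1 x)
    (ψ := fun m => S.toPre.l x (ζ x).1 * ((S.toPre.n (ζ x).1 x)⁻¹ * (m * sC S.toPre χ ζ x)) *
      S.toPre.l (ζ x).1 x)
    (((measurable_id.const_mul _).const_mul _).mul_const _)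
    ((((measurable_id.mul_const _).const_mul _).const_mul _).mul_const _)
    (fun y hy => by
      rw [e0 y hy.1 hy.2.symm]
      simp only [mul_assoc]
      rw [← mul_assoc (S.toPre.l (ζ x).1 x) (S.toPre.l x (ζ x).1), Pre.l_mul_symm hz.1, one_mul,
        ← mul_assoc (sC S.toPre χ ζ x) _⁻¹, (hB.nil_sC hK).mul_inv, one_mul])
    (fun y hy => by
      rw [e0 y hy.1 (congrArg Prod.fst hy.2).symm,
        show sC S.toPre χ ζ y = sC S.toPre χ ζ x from congrArg Prod.snd hy.2])
    (fun y hy => by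
      rw [e0 y hy.1 (congrArg Prod.fst hy.2).symm,
        show aC S.toPre χ ζ y = aC S.toPre χ ζ x from congrArg Prod.snd hy.2,
        show aC S.toPre χ ζ x = S.toPre.n (ζ x).1 x * (sC S.toPre χ ζ x)⁻¹ from rfl, mul_assoc
          (S.toPre.n (ζ x).1 x), ← mul_assoc _⁻¹ (S.toPre.n (ζ x).1 x), hz.2.inv_mul, one_mul]) h0'
  have hC2 : 1 ≤ S.w.C ^ 2 := one_le_pow₀ S.w.one_le_C
  have hin : ∀ y, S.toPre.RJ J x y → ∀ u, 0 ≤ u → u < r → S.toPre.N x y ≤ S.w.C ^ 2 * u →
      y ∈ K ∧ ζ y = ζ x := fun y hR u _ hu h => (hB.inner x hx).2 y hR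
    (h.trans_lt ((mul_lt_mul_of_pos_left hu (by linarith)).trans_le hr))
  have hle : ∀ u : ℝ, 0 ≤ u → u ≤ S.w.C ^ 2 * u := fun u hu => le_mul_of_one_le_left hu hC2
  refine ⟨c, local_product hn (measurableSet_lt S.w.measurable_N measurable_const) hc ?_ ?_⟩
  · filter_upwards [o.lw.carried x x0] with y hy h
    exact hin y hy.2 _ (S.toPre.N_nonneg x y) h (hle _ (S.toPre.N_nonneg x y))
  · filter_upwards [Measure.quasiMeasurePreserving_fst.ae (o1.lw.carried x x1),
      Measure.quasiMeasurePreserving_snd.ae (o2.lw.carried x x2)] with p p1 p2 h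
    have n1 := p1.2.2
    have n2 := p2.2.2
    have n3 := (n1.mono sdiff_subset).mul hJ (n2.mono (singleton_subset_iff.2 hm))
    have k1 := n3.N_al_le (χ := χ)
    have k2 : S.w.N (S.w.pr χ (S.toPre.n x p.1 * S.toPre.n x p.2)) ≤ _ := Wt.N_pr_le _
    rw [Wt.al_mul_eq hχ n1 n2] at k1
    rw [Wt.pr_mul_eq hχ n1 n2] at k2
    have b1 := hin p.1 (p1.2.mono sdiff_subset) _ (S.w.N_nonneg _) h k1
    have b2 := hin p.2 (p2.2.mono (singleton_subset_iff.2 hm)) _ (S.w.N_nonneg _) h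
      (k2.trans (hle _ (S.w.N_nonneg _)))
    exact ⟨⟨b1.1, (hS x hK _ b1.1).2 ⟨b1.2.symm, p1.2⟩⟩, b2.1, (hA x hK _ b2.1).2 ⟨b2.2.symm, p2.2⟩⟩

/-- The global product structure. -/
theorem ps : ∀ᵐ x ∂μ, ∃ c : ℝ≥0∞, c ≠ 0 ∧ c ≠ ∞ ∧ o.nu x = c • (o1.nu x ∗ₘ o2.nu x) := by
  have := cond_isProbabilityMeasure (μ := μ) hB.posK
  obtain ⟨δ, hδ, h1⟩ := exists_lower μ[|K] hB.measDel
    (hB.aeY'.mono fun x hx => (hB.inner x hx).1) (η := 1 / 2) (by norm_num)
  have hE : MeasurableSet {x | δ ≤ del x} := measurableSet_le measurable_const hB.measDel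
  have h2 : μ (K ∩ {x | δ ≤ del x}) ≠ 0 := fun h => by
    have h3 : μ[|K] {x | δ ≤ del x} = 0 := by rw [cond_apply hB.measK, h, mul_zero]
    have h4 := probReal_compl_eq_one_sub (μ := μ[|K]) hE
    rw [measureReal_def _ {x | δ ≤ del x}, h3, compl_ofPred] at h4
    simp only [not_le] at h4
    norm_num [h4] at h1
  have hC2 : 0 < S.w.C ^ 2 := pow_pos S.w.C_pos 2
  obtain ⟨q, -, -, hq⟩ := exists_scale S (ε := 1 / 2) (κ := 1) (by norm_num) one_pos
  refine spread S.toPre.ergodic_aE.symm S.w.measurable_N (hB.measK.inter hE) h2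
    (r := δ / S.w.C ^ 2) ?_ ?_ ?_
  · have h3 := hB.local_ps hJ hm hχ o o1 o2
    rw [ProbabilityTheory.cond, Measure.ae_ennreal_smul_measure_iff
      (ENNReal.inv_ne_zero.2 (measure_ne_top _ _)), ae_restrict_iff' hB.measK] at h3
    filter_upwards [h3] with x hx h
    exact hx h.1 _ (by rw [mul_div_cancel₀ _ hC2.ne']; exact h.2)
  · filter_upwards [o.lw.conull, o1.lw.conull, o2.lw.conull] with x x0 x1 x2 R
    have hu : Tendsto (fun n : ℕ => (n : ℝ) / 2) atTop atTop :=
      tendsto_natCast_atTop_atTop.atTop_div_const (by norm_num)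
    filter_upwards [eventually_mul_exp_lt (|q x| * |R|) (div_pos hδ hC2) hu] with k hk
    have y0 := (o.lw.symm.iterate_mem k x).2 x0
    have y1 := (o1.lw.symm.iterate_mem k x).2 x1
    have y2 := (o2.lw.symm.iterate_mem k x).2 x2
    have ey : S.toPre.aE^[k] (S.toPre.aE.symm^[k] x) = x :=
      (Function.LeftInverse.iterate S.toPre.aE.apply_symm_apply k) x
    generalize S.toPre.aE.symm^[k] x = y at y0 y1 y2 ey
    obtain ⟨c, -, -, e⟩ := nu_equiv o y0 k
    obtain ⟨c1, a1, b1, e1⟩ := nu_equiv o1 y1 k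
    obtain ⟨c2, a2, b2, e2⟩ := nu_equiv o2 y2 k
    rw [ey] at e e1 e2
    have hy := o.sub1 y0
    have key : ∀ h, S.w.Nil J h → S.w.N (conjH _ (Pre.isUnit_La hy k) h) < R →
        S.w.N h < δ / S.w.C ^ 2 := fun h hh hR => by
      have ex : S.f (((k : ℤ) : ℝ), 0) y = x := by rw [← ey, Pre.aE_iterate]; rfl
      have u := Pre.isUnit_La hy k
      have h3 := hq x (o.sub1 x0) J _ (hh.conj_inv (Pre.La_lev hy k) u) (-(((k : ℤ) : ℝ), 0)) (-k) k
        (fun σ _ => by simp) (by simp)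
      rw [← ex, ← Pre.L_inv hy, Matrix.nonsing_inv_nonsing_inv _ (Pre.isUnit_L hy _), ex] at h3
      have h4 : (S.L (((k : ℤ) : ℝ), 0) y)⁻¹ * (S.toPre.La k y * h * (S.toPre.La k y)⁻¹) *
          S.L (((k : ℤ) : ℝ), 0) y = h := by
        change (S.toPre.La k y)⁻¹ * _ * S.toPre.La k y = h
        rw [← mul_assoc, ← mul_assoc, Matrix.nonsing_inv_mul _ u, one_mul, mul_assoc,
          Matrix.nonsing_inv_mul _ u, mul_one]
      rw [h4] at h3
      refine h3.trans_lt (lt_of_le_of_lt ?_ hk)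
      rw [mul_right_comm, show -(k : ℝ) + 1 / 2 * k = -(k / 2) by ring]
      exact mul_le_mul_of_nonneg_right (mul_le_mul (le_abs_self _) (hR.le.trans (le_abs_self _))
        (S.w.N_nonneg _) (abs_nonneg _)) (Real.exp_pos _).le
    refine ⟨_, measurable_conjH _ (Pre.isUnit_La hy k), c, c1 * c2, mul_ne_zero a1 a2,
      ENNReal.mul_ne_top b1 b2, e, ?_, (nu_nil o y0).mono key, ?_⟩
    · rw [e1, e2, Measure.mconv_smul_left, Measure.mconv_smul_right, smul_smul,
        Measure.map_mconv_monoidHom _ (measurable_conjH _ _)]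
    · refine Eventually.mono ((ae_map_iff measurable_mul.aemeasurable
        (S.w.measurableSet_Nil J)).2 ?_) key
      filter_upwards [Measure.quasiMeasurePreserving_fst.ae (nu_nil o1 y1),
        Measure.quasiMeasurePreserving_snd.ae (nu_nil o2 y2)] with p p1 p2
      exact (p1.mono sdiff_subset).mul hJ (p2.mono (singleton_subset_iff.2 hm))
  · filter_upwards [o.lw.conull] with x x0
    rw [Pre.Leafwise.nu, Measure.map_apply (S.toPre.measurable_n_right x)
      (measurableSet_lt S.w.measurable_N measurable_const)]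
    have := o.lw.norm x x0
    exact ⟨fun h => one_ne_zero (this.symm.trans h), fun h => ENNReal.one_ne_top (this.symm.trans h)⟩

end BoxJ

/-- The product structure follows from the existence of rectangle partitions. -/
theorem hasPS_of_box [StandardBorelSpace X] [IsProbabilityMeasure μ] (S : LS X μ ι)
    (h : ∀ (J : Set ℝ) (χ : ℝ), J.OrdConnected → Wt.Extreme J χ →
      ∃ K ζ d del Y, BoxJ S.toPre J χ K ζ d del Y) : S.toPre.HasPS := by
  intro J χ hJ hm hχ o o1 o2
  have : Nonempty X := nonempty_of_isProbabilityMeasure μ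
  obtain ⟨K, ζ, d, del, Y, hB⟩ := h J χ hJ hχ
  exact hB.ps hJ hm hχ o o1 o2

end Pool.Agent.P.MP_d483fb_an.Z.PS

end

end

section

/-!
The product structure of leafwise measures on a leaf structure.
-/

open MeasureTheory

namespace Pool.Agent.P.MP_d483fb_an.Z

variable {X : Type} [MeasurableSpace X] [StandardBorelSpace X] {μ : Measure X}
  [IsProbabilityMeasure μ] {ι : Type} [Fintype ι] [DecidableEq ι]

theorem LS.hasPS (S : LS X μ ι) : S.toPre.HasPS :=
  PS.hasPS_of_box S fun _ _ hJ hc => by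
    obtain ⟨Z0, ρ, c, r0, η, σ, h⟩ := S.exists_boxPre hJ hc
    exact h.exists_box

end Pool.Agent.P.MP_d483fb_an.Z


end

section

/-! The assembly of all parts. -/

open scoped Manifold ContDiff InnerProductSpace RealInnerProductSpace Topology
open MeasureTheory Filter Set

set_option linter.unusedSectionVars false

noncomputable section

namespace Pool.Agent.P.MP_d483fb_an.Z

variable {G : Type} [Group G] [TopologicalSpace G] [IsTopologicalGroup G] [ConnectedSpace G]
  [T2Space G] [LocallyCompactSpace G] [SecondCountableTopology G] [MeasurableSpace G]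
  [BorelSpace G] {n k : ℕ}

section Geo

variable {B : Type} [MetricSpace B] [ProperSpace B] [MeasurableSpace B] [BorelSpace B]
  [MulAction G B] [ContinuousSMul G B] {X : Type} [MetricSpace X] [ProperSpace X]
  [MeasurableSpace X] [BorelSpace X] [MulAction G X] [ContinuousSMul G X]

theorem Std.thmD (D : Std G n k) {m : ℕ} {π : X → B} {m0 : Measure B} (hG : D.HasGeo m π m0) :
    D.ThmD m π m0 :=
  D.thmD_of_hasGeo hG fun _ _ _ _ _ S => ⟨S.toLS.hasLW, S.toLS.hasPS, S.hasHP⟩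

end Geo

section Act

variable {m : ℕ} {M : Type} [MetricSpace M] [CompactSpace M] [MeasurableSpace M] [BorelSpace M]
  [ChartedSpace (EuclideanSpace ℝ (Fin m)) M] [IsManifold (𝓡 m) ∞ M]

/-- The invariant measure on the suspension. -/
theorem Std.exists_inv (D : Std G n k) (Γ : Subgroup G) [DiscreteTopology Γ] [Nonempty M]
    (m0 : Measure (D.lat Γ).B) [IsProbabilityMeasure m0] [SMulInvariantMeasure G (D.lat Γ).B m0]
    (e : Emb m M) (α : (D.lat Γ).Γ →* Equiv.Perm M) (J : NF.Jets α (fun γ => D.len γ) m)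
    (hv : D.ltV m) :
    ∃ (X : Type) (_ : MetricSpace X) (_ : ProperSpace X) (_ : MeasurableSpace X)
      (_ : BorelSpace X) (_ : MulAction G X) (_ : ContinuousSMul G X) (_ : Skw (D.lat Γ) α X)
      (ν : Measure X), IsProbabilityMeasure ν ∧
      (∀ g : G, MeasurePreserving (fun x : X => g • x) ν ν) ∧ D.ErgA ν := by
  obtain ⟨X, i1, i2, i3, i4, i5, i6, E, hc, hp, hG⟩ := D.exists_susp Γ m0 e α J
  have heq : ∀ (g : G) x, E.π (g • x) = g • E.π x := fun g x => congrArg Prod.fst (E.smul g x)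
  have hext : IsExt G E.π m0 := (D.lat Γ).base.isExt m0 hc heq hp
  obtain ⟨p⟩ := ‹Nonempty M›
  have hm : Measurable fun b : (D.lat Γ).B => E.e.symm (b, p) :=
    E.e.symm.measurable.comp measurable_prodMk_right
  have h0 : ∃ ν : Measure X, IsProbabilityMeasure ν ∧ ν.map E.π = m0 := by
    refine ⟨m0.map fun b => E.e.symm (b, p), Measure.isProbabilityMeasure_map hm.aemeasurable, ?_⟩
    rw [Measure.map_map hc.measurable hm]
    have : (E.π ∘ fun b => E.e.symm (b, p)) = id := by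
      funext b
      simp [Skw.π]
    rw [this, Measure.map_id]
  obtain ⟨s, hs⟩ := D.exists_reg
  obtain ⟨ν, h1, -, h3, h4⟩ := D.exists_invariant hext h0
    ⟨s, D.ergodic_of_full _ (D.lat Γ).base (D.full_of_reg hs)⟩ hv fun ν a1 a2 a3 a4 => by
      obtain ⟨w, hw⟩ := D.thmD hG ν a1 a2 a3 a4
      exact ⟨Fin m, inferInstance, w, (Fintype.card_fin m).le, hw⟩
  exact ⟨X, i1, i2, i3, i4, i5, i6, E, ν, h1, h3, h4⟩

theorem finite_of_emb [ConnectedSpace M] (R : HigherRank G n) (hv : R.ltV m) (hd : R.ltD m)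
    (Γ : Subgroup G) (hΓ : IsLattice Γ) (e : Emb m M) (α : Γ →* Equiv.Perm M)
    (hα : ∀ γ, ContMDiff (𝓡 m) (𝓡 m) ∞ (α γ)) : (range α).Finite := by
  obtain ⟨k, D, -, -, -, h1, -⟩ := R.exists_std
  have hT := D.hasT hΓ
  have hl := D.lmr Γ hΓ
  have hS := SR.srd_lattice R hd Γ hΓ
  obtain ⟨hdisc, m0, hm0, hinv⟩ := hΓ
  obtain ⟨A, J, hJ⟩ := NF.exists_jets e.smooth e.dist_eq e.imm α hα
    (len := fun γ => D.len γ) (fun γ => D.len_nonneg γ) hl
  obtain ⟨X, _, _, _, _, _, _, E, ν, _, hG, hA⟩ :=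
    @Std.exists_inv G _ _ _ _ _ _ _ _ _ n k m M _ _ _ _ _ _ D Γ hdisc _ m0 hm0 hinv e α J (h1 m hv)
  exact D.finite_of_inv Γ e α hα A J hJ E ν hG hA (h1 m hv)
    (fun Λ h => @TZ.HasT.of_finiteIndex Γ _ hT Λ h) hS

end Act

omit [MeasurableSpace G] [BorelSpace G] in
/-- Zimmer's conjecture for groups that cover a closed self-adjoint matrix group. -/
theorem main_higherRank (D : HigherRank G n) (Γ : Subgroup G) (hΓ : IsLattice Γ)
    (m : ℕ) (M : Type) [TopologicalSpace M] [T2Space M] [CompactSpace M]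
    [ChartedSpace (EuclideanSpace ℝ (Fin m)) M] [IsManifold (𝓡 m) ∞ M]
    (hv : D.ltV m) (hd : D.ltD m)
    (α : Γ →* Equiv.Perm M) (hα : ∀ γ, ContMDiff (𝓡 m) (𝓡 m) ∞ (α γ)) :
    (Set.range α).Finite := by
  borelize G
  refine TZ.finite_of_connected (fun Γ hΓ M _ _ _ _ _ _ α hα => ?_) Γ hΓ M α hα
  obtain ⟨N, ι, h1, h2, h3⟩ := exists_embedding_euclidean_of_compact (I := 𝓡 m) (M := M)
  let _ : MetricSpace M := h2.isEmbedding.comapMetricSpace ι
  borelize M
  exact finite_of_emb D hv hd Γ hΓ ⟨N, ι, h1, fun p q => dist_eq_norm (ι p) (ι q), h3⟩ α hα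

end Pool.Agent.P.MP_d483fb_an.Z

end

end
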