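import Pool.Agent.P.MP_d483fb_an.M.A01

section

/-!
The adjoint representation of a Lie group and its derivative at the identity.
-/

open Filter Topology Set
open scoped Manifold

noncomputable section

namespace Pool.Agent.P.MP_d483fb_an.Z.Br

section Calc

variable {E : Type} [NormedAddCommGroup E] [NormedSpace ℝ E]

/-- The two mixed second derivatives of a map of two variables agree. -/
theorem mixed_symm {μ : E × E → E} {e : E} (h : ContDiffAt ℝ 2 μ (e, e)) :
    ∃ B : E →L[ℝ] E →L[ℝ] E,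
      HasStrictFDerivAt (fun x => fderiv ℝ (fun y => μ (x, y)) e) B e ∧
      HasStrictFDerivAt (fun x => fderiv ℝ (fun y => μ (y, x)) e) B.flip e := by
  have h1 : ContDiffAt ℝ 1 (fderiv ℝ μ) (e, e) := h.fderiv_right (by norm_num)
  have h2 := h1.hasStrictFDerivAt one_ne_zero
  set D2 := fderiv ℝ (fderiv ℝ μ) (e, e) with hD2
  have hs : ∀ a b, D2 a b = D2 b a := h.isSymmSndFDerivAt (by simp)
  have hev : ∀ᶠ p in 𝓝 (e, e), DifferentiableAt ℝ μ p :=
    (h.eventually (by simp)).mono fun p hp => hp.differentiableAt (by norm_num)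
  let R : (E × E →L[ℝ] E) →L[ℝ] E →L[ℝ] E :=
    (ContinuousLinearMap.compL ℝ E (E × E) E).flip (ContinuousLinearMap.inr ℝ E E)
  let L : (E × E →L[ℝ] E) →L[ℝ] E →L[ℝ] E :=
    (ContinuousLinearMap.compL ℝ E (E × E) E).flip (ContinuousLinearMap.inl ℝ E E)
  have hl : HasStrictFDerivAt (fun x : E => (x, e)) (ContinuousLinearMap.inl ℝ E E) e :=
    (hasStrictFDerivAt_id e).prodMk (hasStrictFDerivAt_const e e)
  have hr : HasStrictFDerivAt (fun x : E => (e, x)) (ContinuousLinearMap.inr ℝ E E) e :=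
    (hasStrictFDerivAt_const e e).prodMk (hasStrictFDerivAt_id e)
  refine ⟨R.comp (D2.comp (ContinuousLinearMap.inl ℝ E E)), ?_, ?_⟩
  · have h3 := R.hasStrictFDerivAt.comp e (HasStrictFDerivAt.comp e (f := fun x : E => (x, e)) h2 hl)
    refine h3.congr_of_eventuallyEq ?_
    filter_upwards [hl.continuousAt.eventually hev] with x hx
    have h4 : HasFDerivAt (fun y : E => (x, y)) (ContinuousLinearMap.inr ℝ E E) e :=
      (hasFDerivAt_const x e).prodMk (hasFDerivAt_id e)
    exact (HasFDerivAt.comp e (f := fun y : E => (x, y)) hx.hasFDerivAt h4).fderiv.symm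
  · have h3 := L.hasStrictFDerivAt.comp e (HasStrictFDerivAt.comp e (f := fun x : E => (e, x)) h2 hr)
    have h5 : (R.comp (D2.comp (ContinuousLinearMap.inl ℝ E E))).flip =
        L.comp (D2.comp (ContinuousLinearMap.inr ℝ E E)) := by
      ext v w
      simp [R, L, hs (w, 0)]
    rw [h5]
    refine h3.congr_of_eventuallyEq ?_
    filter_upwards [hr.continuousAt.eventually hev] with x hx
    have h4 : HasFDerivAt (fun y : E => (y, x)) (ContinuousLinearMap.inl ℝ E E) e :=
      (hasFDerivAt_id e).prodMk (hasFDerivAt_const x e)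
    exact (HasFDerivAt.comp e (f := fun y : E => (y, x)) hx.hasFDerivAt h4).fderiv.symm

/-- The derivative of a quotient in a Banach algebra. -/
theorem quot_deriv {A : Type} [NormedRing A] [NormedAlgebra ℝ A] [CompleteSpace A]
    {P Q R : E → A} {e : E} {P' Q' : E →L[ℝ] A} (hP : HasStrictFDerivAt P P' e)
    (hQ : HasStrictFDerivAt Q Q' e) (hP1 : P e = 1) (hQ1 : Q e = 1)
    (h : ∀ᶠ x in 𝓝 e, P x = Q x * R x) : HasStrictFDerivAt R (P' - Q') e := by
  have hun : ∀ᶠ x in 𝓝 e, IsUnit (Q x) := by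
    refine hQ.continuousAt.eventually (Units.isOpen.mem_nhds ?_)
    rw [hQ1]
    exact isUnit_one
  have hi : HasStrictFDerivAt (Ring.inverse : A → A)
      (-ContinuousLinearMap.mulLeftRight ℝ A 1 1) (Q e) := by
    rw [hQ1]
    simpa using hasStrictFDerivAt_ringInverse (𝕜 := ℝ) (1 : Aˣ)
  have h1 := (hi.comp e hQ).mul' hP
  have h2 : Ring.inverse (Q e) • P' + MulOpposite.op (P e) •
      (-ContinuousLinearMap.mulLeftRight ℝ A 1 1).comp Q' = P' - Q' := by
    ext v
    simp [hP1, hQ1, sub_eq_add_neg]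
  rw [← h2]
  refine h1.congr_of_eventuallyEq ?_
  filter_upwards [h, hun] with x h2 h3
  simp only [Pi.mul_apply]
  rw [h2, ← mul_assoc, Ring.inverse_mul_cancel _ h3, one_mul]

end Calc

variable (E : Type) [NormedAddCommGroup E] [NormedSpace ℝ E]
  {G : Type} [Group G] [TopologicalSpace G] [ChartedSpace E G]

/-- The derivative of a self-map, as an endomorphism of the model space. -/
def mdf (f : G → G) (x : G) : E →L[ℝ] E := mfderiv 𝓘(ℝ, E) 𝓘(ℝ, E) f x

variable (G) in
/-- The chart at the identity. -/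
abbrev ch : PartialEquiv G E := extChartAt 𝓘(ℝ, E) (1 : G)

/-- The derivative of the chart at the identity. -/
def mdc (x : G) : E →L[ℝ] E := mfderiv 𝓘(ℝ, E) 𝓘(ℝ, E) (ch E G) x

variable (G) in
/-- The product read in the chart at the identity. -/
def mu (p : E × E) : E := ch E G ((ch E G).symm p.1 * (ch E G).symm p.2)

variable (G) in
/-- The Lie algebra is the model space. -/
def toE : GroupLieAlgebra 𝓘(ℝ, E) G ≃ₗ[ℝ] E := LinearEquiv.refl ℝ E

variable {E}

theorem mu_left_base : fderiv ℝ (fun y => mu E G (ch E G 1, y)) (ch E G 1) = 1 := by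
  have : (fun y => mu E G (ch E G 1, y)) =ᶠ[𝓝 (ch E G 1)] id := by
    filter_upwards [extChartAt_target_mem_nhds (I := 𝓘(ℝ, E)) (1 : G)] with y hy
    simp only [mu, extChartAt_to_inv, one_mul]
    exact (ch E G).right_inv hy
  rw [this.fderiv_eq, fderiv_id]
  rfl

theorem mu_right_base : fderiv ℝ (fun y => mu E G (y, ch E G 1)) (ch E G 1) = 1 := by
  have : (fun y => mu E G (y, ch E G 1)) =ᶠ[𝓝 (ch E G 1)] id := by
    filter_upwards [extChartAt_target_mem_nhds (I := 𝓘(ℝ, E)) (1 : G)] with y hy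
    simp only [mu, extChartAt_to_inv, mul_one]
    exact (ch E G).right_inv hy
  rw [this.fderiv_eq, fderiv_id]
  rfl

variable [LieGroup 𝓘(ℝ, E) (minSmoothness ℝ 3) G]

theorem three_ne : minSmoothness ℝ 3 ≠ 0 := lt_of_lt_of_le (by simp) le_minSmoothness |>.ne'

theorem one_le_three : (1 : WithTop ℕ∞) ≤ minSmoothness ℝ 3 :=
  le_trans (by norm_num) le_minSmoothness

theorem two_le_three : (2 : WithTop ℕ∞) ≤ minSmoothness ℝ 3 :=
  le_trans (by norm_num) le_minSmoothness

theorem md_left (g h : G) : MDifferentiableAt 𝓘(ℝ, E) 𝓘(ℝ, E) (fun x : G => g * x) h :=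
  contMDiff_mul_left.contMDiffAt.mdifferentiableAt three_ne

theorem md_right (g h : G) : MDifferentiableAt 𝓘(ℝ, E) 𝓘(ℝ, E) (fun x : G => x * g) h :=
  contMDiff_mul_right.contMDiffAt.mdifferentiableAt three_ne

theorem md_conj (g h : G) : MDifferentiableAt 𝓘(ℝ, E) 𝓘(ℝ, E) (fun x : G => g * x * g⁻¹) h :=
  (md_right g⁻¹ (g * h)).comp h (md_left g h)

set_option backward.isDefEq.respectTransparency false in
omit [Group G] [LieGroup 𝓘(ℝ, E) (minSmoothness ℝ 3) G] in
theorem mdf_comp {f k : G → G} {x : G} (hf : MDifferentiableAt 𝓘(ℝ, E) 𝓘(ℝ, E) f (k x))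
    (hk : MDifferentiableAt 𝓘(ℝ, E) 𝓘(ℝ, E) k x) :
    mdf E (f ∘ k) x = mdf E f (k x) * mdf E k x := mfderiv_comp x hf hk

set_option backward.isDefEq.respectTransparency false in
omit [Group G] [LieGroup 𝓘(ℝ, E) (minSmoothness ℝ 3) G] in
theorem mdf_id (x : G) : mdf E id x = 1 := mfderiv_id

variable (E G) in
/-- The adjoint representation. -/
def adj : G →* (E →L[ℝ] E) where
  toFun g := mdf E (fun h : G => g * h * g⁻¹) 1
  map_one' := by
    have : (fun h : G => (1 : G) * h * (1 : G)⁻¹) = id := by ext h; simp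
    rw [this, mdf_id]
  map_mul' g h := by
    have : (fun x : G => g * h * x * (g * h)⁻¹) =
        (fun x : G => g * x * g⁻¹) ∘ fun x : G => h * x * h⁻¹ := by
      ext x
      simp [mul_assoc]
    rw [this, mdf_comp (md_conj g _) (md_conj h 1)]
    simp

theorem adj_apply (g : G) : adj E G g = mdf E (fun h : G => g * h * g⁻¹) 1 := rfl

theorem ch_symm_smooth :
    ContMDiffAt 𝓘(ℝ, E) 𝓘(ℝ, E) (minSmoothness ℝ 3) (ch E G).symm (ch E G 1) := by
  have := contMDiffWithinAt_extChartAt_symm_range (I := 𝓘(ℝ, E)) (n := minSmoothness ℝ 3) (1 : G)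
    (mem_extChartAt_target (1 : G))
  simpa [contMDiffWithinAt_univ] using this

theorem mu_smooth : ContDiffAt ℝ 2 (mu E G) (ch E G 1, ch E G 1) := by
  have h1 : ContMDiffAt 𝓘(ℝ, E × E) 𝓘(ℝ, E) (minSmoothness ℝ 3)
      (fun p : E × E => (ch E G).symm p.1) (ch E G 1, ch E G 1) :=
    ContMDiffAt.comp (ch E G 1, ch E G 1) (f := Prod.fst) ch_symm_smooth
      contDiff_fst.contMDiff.contMDiffAt
  have h2 : ContMDiffAt 𝓘(ℝ, E × E) 𝓘(ℝ, E) (minSmoothness ℝ 3)
      (fun p : E × E => (ch E G).symm p.2) (ch E G 1, ch E G 1) :=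
    ContMDiffAt.comp (ch E G 1, ch E G 1) (f := Prod.snd) ch_symm_smooth
      contDiff_snd.contMDiff.contMDiffAt
  have h3 : ContMDiffAt 𝓘(ℝ, E) 𝓘(ℝ, E) (minSmoothness ℝ 3) (ch E G)
      ((ch E G).symm (ch E G 1) * (ch E G).symm (ch E G 1)) := by
    rw [extChartAt_to_inv, one_mul]
    exact contMDiffAt_extChartAt
  have h4 := ContMDiffAt.comp (ch E G 1, ch E G 1) h3 (h1.mul h2)
  exact (contMDiffAt_iff_contDiffAt.1 h4).of_le two_le_three

set_option backward.isDefEq.respectTransparency false in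
/-- The derivative at the base point of a map read in the chart. -/
theorem fderiv_chart {f : G → G} (hf : MDifferentiableAt 𝓘(ℝ, E) 𝓘(ℝ, E) f 1)
    (hs : f 1 ∈ (ch E G).source) :
    HasFDerivAt (fun y => ch E G (f ((ch E G).symm y))) (mdc E (f 1) * mdf E f 1) (ch E G 1) := by
  have : IsManifold 𝓘(ℝ, E) 1 G := IsManifold.of_le one_le_three
  have h0 : (ch E G).symm (ch E G 1) = 1 := extChartAt_to_inv _
  have h1 : HasMFDerivAt 𝓘(ℝ, E) 𝓘(ℝ, E) (ch E G).symm (ch E G 1)
      (ContinuousLinearMap.id ℝ E) := by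
    have h := (ch_symm_smooth (E := E) (G := G)).mdifferentiableAt three_ne
    have h' := mfderivWithin_range_extChartAt_symm (I := 𝓘(ℝ, E)) (x := (1 : G))
    rw [modelWithCornersSelf_coe, range_id, mfderivWithin_univ] at h'
    exact h.hasMFDerivAt.congr_mfderiv h'
  have h2 : HasMFDerivAt 𝓘(ℝ, E) 𝓘(ℝ, E) f ((ch E G).symm (ch E G 1)) (mdf E f 1) := by
    rw [h0]
    exact hf.hasMFDerivAt
  have h3 : HasMFDerivAt 𝓘(ℝ, E) 𝓘(ℝ, E) (ch E G) (f ((ch E G).symm (ch E G 1)))
      (mdc E (f 1)) := by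
    rw [h0]
    exact (mdifferentiableAt_extChartAt (by simpa using hs)).hasMFDerivAt
  have h4 := h3.comp (ch E G 1) (h2.comp (ch E G 1) h1)
  exact hasMFDerivAt_iff_hasFDerivAt.1 h4

theorem mdc_one : mdc E (1 : G) = 1 := by
  have : IsManifold 𝓘(ℝ, E) 1 G := IsManifold.of_le one_le_three
  exact mfderiv_extChartAt_self

theorem fderiv_mu_left {x : E} (hx : x ∈ (ch E G).target) :
    fderiv ℝ (fun y => mu E G (x, y)) (ch E G 1) =
      mdc E ((ch E G).symm x) * mdf E (fun h : G => (ch E G).symm x * h) 1 := by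
  have h := (fderiv_chart (f := fun h : G => (ch E G).symm x * h) (md_left _ _)
    (by simpa only [mul_one] using (ch E G).map_target hx)).fderiv
  simp only [mul_one] at h
  exact h

theorem fderiv_mu_right {x : E} (hx : x ∈ (ch E G).target) :
    fderiv ℝ (fun y => mu E G (y, x)) (ch E G 1) =
      mdc E ((ch E G).symm x) * mdf E (fun h : G => h * (ch E G).symm x) 1 := by
  have h := (fderiv_chart (f := fun h : G => h * (ch E G).symm x) (md_right _ _)
    (by simpa only [one_mul] using (ch E G).map_target hx)).fderiv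
  simp only [one_mul] at h
  exact h

theorem left_eq_right_adj (g : G) :
    mdf E (fun h : G => g * h) 1 = mdf E (fun h : G => h * g) 1 * adj E G g := by
  have : (fun h : G => g * h) = (fun h : G => h * g) ∘ fun h : G => g * h * g⁻¹ := by
    ext h
    simp
  rw [this, mdf_comp (md_right g _) (md_conj g 1), adj_apply]
  simp

variable (E) in
/-- An invariant vector field read in the chart at the identity. -/
def fld (w : GroupLieAlgebra 𝓘(ℝ, E) G) : E → E :=
  VectorField.mpullbackWithin 𝓘(ℝ, E) 𝓘(ℝ, E) (ch E G).symm (mulInvariantVectorField w)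
    (range 𝓘(ℝ, E))

set_option backward.isDefEq.respectTransparency false in
theorem field_chart (w : GroupLieAlgebra 𝓘(ℝ, E) G) :
    fld E w =ᶠ[𝓝 (ch E G 1)] fun x => fderiv ℝ (fun y => mu E G (x, y)) (ch E G 1) (toE E G w) := by
  have : IsManifold 𝓘(ℝ, E) 1 G := IsManifold.of_le one_le_three
  filter_upwards [extChartAt_target_mem_nhds (I := 𝓘(ℝ, E)) (1 : G)] with x hx
  rw [fderiv_mu_left hx, fld, VectorField.mpullbackWithin_apply,
    ContinuousLinearMap.inverse_eq (mfderivWithin_extChartAt_symm_comp_mfderiv_extChartAt hx)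
      (mfderiv_extChartAt_comp_mfderivWithin_extChartAt_symm hx)]
  rfl

set_option backward.isDefEq.respectTransparency false in
theorem bracket_fld (v w : GroupLieAlgebra 𝓘(ℝ, E) G) :
    toE E G ⁅v, w⁆ = VectorField.lieBracket ℝ (fld E v) (fld E w) (ch E G 1) := by
  have : IsManifold 𝓘(ℝ, E) 1 G := IsManifold.of_le one_le_three
  rw [GroupLieAlgebra.bracket_def, VectorField.mlieBracket, VectorField.mlieBracketWithin_apply,
    mfderiv_extChartAt_self, ContinuousLinearMap.inverse_id]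
  have hu : (extChartAt 𝓘(ℝ, E) (1 : G)).symm ⁻¹' univ ∩ range 𝓘(ℝ, E) = univ := by simp
  rw [hu, VectorField.lieBracketWithin_univ]
  rfl

theorem bracket_eq {B : E →L[ℝ] E →L[ℝ] E}
    (hB : HasFDerivAt (fun x => fderiv ℝ (fun y => mu E G (x, y)) (ch E G 1)) B (ch E G 1))
    (v w : GroupLieAlgebra 𝓘(ℝ, E) G) :
    toE E G ⁅v, w⁆ = B (toE E G v) (toE E G w) - B (toE E G w) (toE E G v) := by
  have key : ∀ a b : GroupLieAlgebra 𝓘(ℝ, E) G,
      fderiv ℝ (fld E b) (ch E G 1) (fld E a (ch E G 1)) = B (toE E G a) (toE E G b) := by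
    intro a b
    rw [(field_chart b).fderiv_eq, (field_chart a).self_of_nhds]
    have h := (ContinuousLinearMap.apply ℝ E (toE E G b)).hasFDerivAt.comp (ch E G 1) hB
    have h' : fderiv ℝ (fun x => fderiv ℝ (fun y => mu E G (x, y)) (ch E G 1) (toE E G b))
      (ch E G 1) = _ := h.fderiv
    rw [h']
    beta_reduce
    rw [mu_left_base, one_apply_eq_self, ContinuousLinearMap.comp_apply,
      ContinuousLinearMap.apply_apply]
  rw [bracket_fld, VectorField.lieBracket, key, key]

/-- The derivative of the adjoint representation at the identity is the bracket. -/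
theorem adj_deriv [CompleteSpace E] : ∃ D : E →L[ℝ] E →L[ℝ] E,
    HasStrictFDerivAt (fun x => adj E G ((ch E G).symm x)) D (ch E G 1) ∧
      ∀ v w : GroupLieAlgebra 𝓘(ℝ, E) G, D (toE E G v) (toE E G w) = toE E G ⁅v, w⁆ := by
  obtain ⟨B, hP, hQ⟩ := mixed_symm (mu_smooth (E := E) (G := G))
  refine ⟨B - B.flip, quot_deriv hP hQ mu_left_base mu_right_base ?_, fun v w => ?_⟩
  · filter_upwards [extChartAt_target_mem_nhds (I := 𝓘(ℝ, E)) (1 : G)] with x hx
    rw [fderiv_mu_left hx, fderiv_mu_right hx, left_eq_right_adj, mul_assoc]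
  · rw [bracket_eq hP.hasFDerivAt]
    rfl

end Pool.Agent.P.MP_d483fb_an.Z.Br

end

end

section

/-!
The automorphism group of a Lie algebra with nondegenerate Killing form, as a closed group of
matrices whose Lie algebra is the algebra of inner derivations.
-/

open scoped Matrix Matrix.Norms.Operator Topology
open NormedSpace Filter Set Module

attribute [local instance 100] LieRing.ofAssociativeRing

noncomputable section

namespace Pool.Agent.P.MP_d483fb_an.Z

variable {L : Type*} [LieRing L] [LieAlgebra ℝ L] {n : ℕ}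

/-- The matrix of `ad X` in the basis `b`. -/
def adM (b : Basis (Fin n) ℝ L) : L →ₗ[ℝ] Mat n :=
  (LinearMap.toMatrix b b).toLinearMap ∘ₗ (LieAlgebra.ad ℝ L).toLinearMap

theorem adM_apply (b : Basis (Fin n) ℝ L) (X : L) :
    adM b X = LinearMap.toMatrix b b (LieAlgebra.ad ℝ L X) := rfl

/-- The matrices of the automorphisms of `L` in the basis `b`. -/
def Aut (b : Basis (Fin n) ℝ L) : Set (Mat n) :=
  {A | ∃ φ : L ≃ₗ⁅ℝ⁆ L, A = LinearMap.toMatrix b b φ.toLinearEquiv.toLinearMap}

variable (b : Basis (Fin n) ℝ L)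

theorem toLin_adM (X Y : L) : Matrix.toLin b b (adM b X) Y = ⁅X, Y⁆ := by
  rw [adM_apply, Matrix.toLin_toMatrix, LieAlgebra.ad_apply]

theorem toLin_mul_app (A B : Mat n) (X : L) :
    Matrix.toLin b b (A * B) X = Matrix.toLin b b A (Matrix.toLin b b B X) :=
  Matrix.toLin_mul_apply b b b A B X

theorem mat_ext {A B : Mat n} (h : ∀ X, Matrix.toLin b b A X = Matrix.toLin b b B X) : A = B :=
  (Matrix.toLin b b).injective (LinearMap.ext h)

theorem adM_lie (X Y : L) : adM b ⁅X, Y⁆ = adM b X * adM b Y - adM b Y * adM b X := by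
  refine mat_ext b fun Z => ?_
  rw [map_sub, LinearMap.sub_apply, toLin_mul_app, toLin_mul_app]
  simp only [toLin_adM, lie_lie]

theorem killingForm_eq_trace (X Y : L) : killingForm ℝ L X Y = (adM b X * adM b Y).trace := by
  rw [LieModule.traceForm_apply_apply, LinearMap.trace_eq_matrix_trace ℝ b,
    LinearMap.toMatrix_comp b b b]
  rfl

theorem adM_injective [LieAlgebra.IsKilling ℝ L] : Function.Injective (adM b) := by
  rw [injective_iff_map_eq_zero]
  intro X hX
  rw [← Submodule.mem_bot (R := ℝ), ← LieAlgebra.IsKilling.ker_killingForm_eq_bot,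
    LinearMap.mem_ker]
  ext Y
  rw [killingForm_eq_trace b, hX, zero_mul, Matrix.trace_zero, LinearMap.zero_apply]

theorem mem_Aut_iff {A : Mat n} : A ∈ Aut b ↔
    IsUnit A ∧ ∀ X, A * adM b X = adM b (Matrix.toLin b b A X) * A := by
  constructor
  · rintro ⟨φ, rfl⟩
    refine ⟨?_, fun X => mat_ext b fun Y => ?_⟩
    · refine IsUnit.of_mul_eq_one (LinearMap.toMatrix b b φ.symm.toLinearEquiv.toLinearMap) ?_
      refine mat_ext b fun Y => ?_
      rw [toLin_mul_app, Matrix.toLin_toMatrix, Matrix.toLin_toMatrix, Matrix.toLin_one]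
      exact φ.apply_symm_apply Y
    · rw [toLin_mul_app, toLin_mul_app, toLin_adM, toLin_adM, Matrix.toLin_toMatrix]
      exact φ.map_lie X Y
  · rintro ⟨⟨u, rfl⟩, h⟩
    refine ⟨{ toFun := Matrix.toLin b b u.val
              map_add' := map_add _
              map_smul' := map_smul _
              map_lie' := ?_
              invFun := Matrix.toLin b b u.inv
              left_inv := ?_
              right_inv := ?_ }, ?_⟩
    · intro X Y
      have := congrArg (fun B => Matrix.toLin b b B Y) (h X)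
      simpa only [toLin_mul_app, toLin_adM] using this
    · intro X
      rw [← toLin_mul_app, u.inv_val, Matrix.toLin_one, LinearMap.id_apply]
    · intro X
      rw [← toLin_mul_app, u.val_inv, Matrix.toLin_one, LinearMap.id_apply]
    · refine mat_ext b fun Y => ?_
      rw [Matrix.toLin_toMatrix]
      rfl

theorem one_mem_Aut : (1 : Mat n) ∈ Aut b :=
  (mem_Aut_iff b).2 ⟨isUnit_one, fun X => by
    rw [Matrix.toLin_one, LinearMap.id_apply, one_mul, mul_one]⟩

theorem mul_mem_Aut {A B : Mat n} (hA : A ∈ Aut b) (hB : B ∈ Aut b) : A * B ∈ Aut b := by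
  rw [mem_Aut_iff] at hA hB ⊢
  refine ⟨hA.1.mul hB.1, fun X => ?_⟩
  rw [mul_assoc, hB.2, ← mul_assoc, hA.2, toLin_mul_app, mul_assoc]

theorem continuous_adM_toLin (X : L) : Continuous fun A : Mat n => adM b (Matrix.toLin b b A X) :=
  (adM b ∘ₗ LinearMap.applyₗ X ∘ₗ (Matrix.toLin b b).toLinearMap).continuous_of_finiteDimensional

theorem mem_Aut_iff' [LieAlgebra.IsKilling ℝ L] {A : Mat n} : A ∈ Aut b ↔
    (∀ X, A * adM b X = adM b (Matrix.toLin b b A X) * A) ∧
      ∀ X Y, (adM b (Matrix.toLin b b A X) * adM b (Matrix.toLin b b A Y)).trace =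
        (adM b X * adM b Y).trace := by
  rw [mem_Aut_iff]
  constructor
  · rintro ⟨⟨u, rfl⟩, h⟩
    refine ⟨h, fun X Y => ?_⟩
    have h1 : adM b (Matrix.toLin b b u.val X) * adM b (Matrix.toLin b b u.val Y) =
        u.val * (adM b X * adM b Y) * u.inv := by
      rw [← mul_assoc, h X, mul_assoc _ u.val, h Y, mul_assoc, mul_assoc, u.val_inv, mul_one]
    rw [h1, Matrix.trace_mul_cycle, u.inv_val, one_mul]
  · rintro ⟨h, hK⟩
    refine ⟨?_, h⟩
    haveI := Module.Finite.of_basis b
    have hinj : LinearMap.ker (Matrix.toLin b b A) = ⊥ := by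
      rw [LinearMap.ker_eq_bot']
      intro X hX
      rw [← Submodule.mem_bot (R := ℝ), ← LieAlgebra.IsKilling.ker_killingForm_eq_bot,
        LinearMap.mem_ker]
      ext Y
      rw [killingForm_eq_trace b, ← hK, hX, map_zero, zero_mul, Matrix.trace_zero,
        LinearMap.zero_apply]
    have hu := (LinearMap.isUnit_iff_ker_eq_bot _).2 hinj
    have := hu.map (LinearMap.toMatrixAlgEquiv b)
    rwa [show LinearMap.toMatrixAlgEquiv b (Matrix.toLin b b A) = A from
      LinearMap.toMatrix_toLin b b A] at this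

/-- (AUT1) The automorphism group is closed in the space of all matrices. -/
theorem isClosed_Aut [LieAlgebra.IsKilling ℝ L] : IsClosed (Aut b) := by
  have : Aut b = (⋂ X, {A | A * adM b X = adM b (Matrix.toLin b b A X) * A}) ∩
      ⋂ X, ⋂ Y, {A | (adM b (Matrix.toLin b b A X) * adM b (Matrix.toLin b b A Y)).trace =
        (adM b X * adM b Y).trace} := by
    ext A
    simp only [mem_Aut_iff', mem_inter_iff, mem_iInter, mem_ofPred_eq]
  rw [this]
  refine (isClosed_iInter fun X => isClosed_eq ?_ ?_).inter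
    (isClosed_iInter fun X => isClosed_iInter fun Y => isClosed_eq ?_ continuous_const)
  · exact continuous_id.mul continuous_const
  · exact (continuous_adM_toLin b X).mul continuous_id
  · exact ((continuous_adM_toLin b X).mul (continuous_adM_toLin b Y)).matrix_trace

theorem exp_smul_mul_exp_neg (Z : Mat n) (t : ℝ) : exp (t • Z) * exp (t • (-Z)) = 1 := by
  rw [← Matrix.exp_add_of_commute _ _ (((Commute.refl Z).neg_right.smul_left t).smul_right t),
    ← smul_add, add_neg_cancel, smul_zero, exp_zero]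

theorem exp_neg_mul_exp_smul (Z : Mat n) (t : ℝ) : exp (t • (-Z)) * exp (t • Z) = 1 := by
  have := exp_smul_mul_exp_neg (-Z) t
  rwa [neg_neg] at this

/-- The bracket transported by `exp (t Z)`. -/
def uC (Z : Mat n) (X : L) (t : ℝ) : Mat n :=
  exp (t • (-Z)) * adM b (Matrix.toLin b b (exp (t • Z)) X) * exp (t • Z)

theorem uC_zero (Z : Mat n) (X : L) : uC b Z X 0 = adM b X := by
  simp only [uC, zero_smul, exp_zero, Matrix.toLin_one, LinearMap.id_apply, one_mul, mul_one]

theorem uC_eq_iff (Z : Mat n) (t : ℝ) : (∀ X, uC b Z X t = adM b X) ↔ exp (t • Z) ∈ Aut b := by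
  rw [mem_Aut_iff]
  constructor
  · intro h
    refine ⟨Matrix.isUnit_exp _, fun X => ?_⟩
    rw [← h X, uC, ← mul_assoc, ← mul_assoc, exp_smul_mul_exp_neg, one_mul]
  · rintro ⟨-, h⟩ X
    rw [uC, mul_assoc, ← h X, ← mul_assoc, exp_neg_mul_exp_smul, one_mul]

theorem hasDerivAt_uC (Z : Mat n) (X : L) (t : ℝ) : HasDerivAt (uC b Z X)
    (uC b Z (Matrix.toLin b b Z X) t + uC b Z X t * Z - Z * uC b Z X t) t := by
  let T : Mat n →L[ℝ] Mat n :=
    (adM b ∘ₗ LinearMap.applyₗ X ∘ₗ (Matrix.toLin b b).toLinearMap).toContinuousLinearMap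
  have h1 := hasDerivAt_exp_smul_const' (𝕂 := ℝ) (-Z) t
  have h2 := hasDerivAt_exp_smul_const (𝕂 := ℝ) Z t
  have h3 := T.hasFDerivAt.comp_hasDerivAt t h2
  have h4 := (h1.mul h3).mul h2
  refine HasDerivAt.congr_deriv (f := uC b Z X) h4 ?_
  change (-Z * exp (t • -Z) * adM b (Matrix.toLin b b (exp (t • Z)) X) +
    exp (t • -Z) * adM b (Matrix.toLin b b (exp (t • Z) * Z) X)) * exp (t • Z) +
    exp (t • -Z) * adM b (Matrix.toLin b b (exp (t • Z)) X) * (exp (t • Z) * Z) = _
  simp only [uC, toLin_mul_app]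
  noncomm_ring

/-- `Z` is the matrix of a derivation. -/
def IsDer (Z : Mat n) : Prop :=
  ∀ X, adM b (Matrix.toLin b b Z X) + adM b X * Z - Z * adM b X = 0

theorem isDer_adM (Y : L) : IsDer b (adM b Y) := by
  intro X
  rw [toLin_adM, adM_lie]
  abel

theorem IsDer.exists_eq [LieAlgebra.IsKilling ℝ L] {Z : Mat n} (h : IsDer b Z) :
    ∃ Y, adM b Y = Z := by
  haveI := Module.Finite.of_basis b
  let D : LieDerivation ℝ L L :=
    { toLinearMap := Matrix.toLin b b Z
      leibniz' := fun X Y => by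
        have := congrArg (fun B => Matrix.toLin b b B Y) (h X)
        simp only [map_sub, map_add, LinearMap.sub_apply, LinearMap.add_apply, toLin_mul_app,
          toLin_adM, map_zero, LinearMap.zero_apply] at this
        rw [← lie_skew (Matrix.toLin b b Z X) Y] at this
        rw [← sub_eq_zero, ← neg_eq_zero, ← this]
        abel }
  obtain ⟨Y, hY⟩ := LieDerivation.IsKilling.exists_eq_ad D
  refine ⟨Y, mat_ext b fun X => ?_⟩
  rw [toLin_adM, ← LieDerivation.ad_apply_apply (R := ℝ), hY]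
  rfl

theorem IsDer.exp_smul_mem {Z : Mat n} (h : IsDer b Z) (t : ℝ) : exp (t • Z) ∈ Aut b := by
  rw [← uC_eq_iff]
  intro X
  have h0 : ∀ s, HasDerivAt (uC b Z X) 0 s := fun s => by
    convert hasDerivAt_uC b Z X s using 1
    have c1 : Commute Z (exp (s • Z)) := ((Commute.refl Z).smul_right s).exp_right
    have c2 : Commute Z (exp (s • (-Z))) := ((Commute.refl Z).neg_right.smul_right s).exp_right
    have := congrArg (fun B => exp (s • (-Z)) * B * exp (s • Z))
      (h (Matrix.toLin b b (exp (s • Z)) X))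
    simp only [mul_zero, zero_mul] at this
    rw [← this, uC, uC, ← toLin_mul_app, ← toLin_mul_app, c1.eq, mul_assoc _ (exp (s • Z)) Z,
      ← c1.eq, ← mul_assoc Z, ← mul_assoc Z, c2.eq]
    noncomm_ring
  rw [← uC_zero b Z X]
  exact is_const_of_deriv_eq_zero (fun s => (h0 s).differentiableAt) (fun s => (h0 s).deriv) t 0

theorem exp_smul_adM_mem (X : L) (t : ℝ) : exp (t • adM b X) ∈ Aut b :=
  (isDer_adM b X).exp_smul_mem b t

/-- (AUT2) The exponential of an inner derivation is an automorphism. -/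
theorem exp_adM_mem (X : L) : exp (adM b X) ∈ Aut b := by
  have := exp_smul_adM_mem b X 1
  rwa [one_smul] at this

theorem isDer_of_mem_lieSet {Z : Mat n} (h : Z ∈ lieSet (Aut b)) : IsDer b Z := by
  intro X
  have h1 := hasDerivAt_uC b Z X 0
  simp only [uC_zero] at h1
  have h2 : uC b Z X = fun _ => adM b X := funext fun t => (uC_eq_iff b Z t).2 (h t) X
  rw [h2] at h1
  exact h1.unique (hasDerivAt_const _ _)

/-- (AUT4) The Lie algebra of a group between the inner and all automorphisms. -/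
theorem lieSet_eq_range [LieAlgebra.IsKilling ℝ L] {S : Set (Mat n)} (hS : S ⊆ Aut b)
    (h : ∀ X, exp (adM b X) ∈ S) : lieSet S = range (adM b) := by
  ext Z
  constructor
  · intro hZ
    exact (isDer_of_mem_lieSet b fun t => hS (hZ t)).exists_eq b
  · rintro ⟨X, rfl⟩ t
    rw [← map_smul]
    exact h _

theorem lieSet_Aut [LieAlgebra.IsKilling ℝ L] : lieSet (Aut b) = range (adM b) :=
  lieSet_eq_range b Subset.rfl (exp_adM_mem b)

/-- A periodic solution of a slow linear equation is stationary. -/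
theorem stationary_of_periodic {F : Type*} [NormedAddCommGroup F] [NormedSpace ℝ F]
    (Φ : F →L[ℝ] F) (hΦ : ‖Φ‖ < 1) (u : ℝ → F) (hu : ∀ t, HasDerivAt u (Φ (u t)) t)
    (h : u 1 = u 0) : Φ (u 0) = 0 := by
  have hw : ∀ t, HasDerivAt (fun t => Φ (u t)) (Φ (Φ (u t))) t := fun t =>
    Φ.hasFDerivAt.comp_hasDerivAt t (hu t)
  have hc : Continuous fun t => ‖Φ (u t)‖ :=
    (continuous_iff_continuousAt.2 fun t => (hw t).continuousAt).norm
  obtain ⟨s, hs, hmax⟩ := isCompact_Icc.exists_isMaxOn (nonempty_Icc.2 zero_le_one)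
    hc.continuousOn
  have h1 : ∀ t ∈ Icc (0 : ℝ) 1, ‖Φ (u t) - Φ (u s)‖ ≤ ‖Φ‖ * ‖Φ (u s)‖ := by
    intro t ht
    have := (convex_Icc (0 : ℝ) 1).norm_image_sub_le_of_norm_hasDerivWithin_le
      (C := ‖Φ‖ * ‖Φ (u s)‖) (fun x _ => (hw x).hasDerivWithinAt)
      (fun x hx => (Φ.le_opNorm _).trans (mul_le_mul_of_nonneg_left (hmax hx) (norm_nonneg _)))
      hs ht
    refine this.trans (mul_le_of_le_one_right (by positivity) ?_)
    rw [Real.norm_eq_abs, abs_le]
    constructor <;> linarith [hs.1, hs.2, ht.1, ht.2]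
  have h2 := (convex_Icc (0 : ℝ) 1).norm_image_sub_le_of_norm_hasDerivWithin_le
    (f := fun t => u t - t • Φ (u s)) (f' := fun t => Φ (u t) - Φ (u s))
    (C := ‖Φ‖ * ‖Φ (u s)‖)
    (fun x _ => by
      have := (hu x).sub ((hasDerivAt_id x).smul_const (Φ (u s)))
      rw [one_smul] at this
      exact this.hasDerivWithinAt)
    h1 (left_mem_Icc.2 zero_le_one) (right_mem_Icc.2 zero_le_one)
  simp only [h, one_smul, zero_smul, sub_zero, sub_sub_cancel_left, norm_neg, norm_one,
    mul_one] at h2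
  have h3 : ‖Φ (u s)‖ ≤ 0 := by nlinarith [norm_nonneg (Φ (u s))]
  exact norm_le_zero_iff.1 ((hmax (left_mem_Icc.2 zero_le_one)).trans h3)

theorem eventually_stationary {A F : Type*} [NormedAddCommGroup A] [NormedSpace ℝ A]
    [FiniteDimensional ℝ A] [NormedAddCommGroup F] [NormedSpace ℝ F] [FiniteDimensional ℝ F]
    (Φ : A →ₗ[ℝ] F →ₗ[ℝ] F) : ∀ᶠ Z in 𝓝 (0 : A), ∀ u : ℝ → F,
      (∀ t, HasDerivAt u (Φ Z (u t)) t) → u 1 = u 0 → Φ Z (u 0) = 0 := by
  let Ψ : A →ₗ[ℝ] F →L[ℝ] F := (LinearMap.toContinuousLinearMap).toLinearMap ∘ₗ Φ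
  have hc : Continuous fun Z => ‖Ψ Z‖ := Ψ.continuous_of_finiteDimensional.norm
  have h0 : ‖Ψ 0‖ < 1 := by rw [map_zero, norm_zero]; exact one_pos
  filter_upwards [hc.continuousAt.eventually_lt continuousAt_const h0] with Z hZ u hu h
  exact stationary_of_periodic (Ψ Z) hZ u hu h

/-- The infinitesimal action of `Z` on brackets. -/
def dAct : Mat n →ₗ[ℝ] (Fin n → Mat n) →ₗ[ℝ] (Fin n → Mat n) :=
  LinearMap.mk₂ ℝ (fun Z u i => ∑ j, Z j i • u j + u i * Z - Z * u i)
    (fun Z Z' u => by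
      funext i
      simp only [Matrix.add_apply, add_smul, Finset.sum_add_distrib, mul_add, add_mul, Pi.add_apply]
      abel)
    (fun c Z u => by
      funext i
      simp only [Matrix.smul_apply, smul_eq_mul, mul_smul, ← Finset.smul_sum, Pi.smul_apply,
        smul_sub, smul_add, Matrix.mul_smul, Matrix.smul_mul])
    (fun Z u u' => by
      funext i
      simp only [smul_add, Finset.sum_add_distrib, mul_add, add_mul, Pi.add_apply]
      abel)
    (fun c Z u => by
      funext i
      simp only [smul_comm _ c, ← Finset.smul_sum, Pi.smul_apply, smul_sub, smul_add,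
        Matrix.mul_smul, Matrix.smul_mul])

theorem uC_toLin (Z W : Mat n) (i : Fin n) (t : ℝ) :
    uC b Z (Matrix.toLin b b W (b i)) t = ∑ j, W j i • uC b Z (b j) t := by
  simp only [uC, Matrix.toLin_self, map_sum, map_smul, Finset.mul_sum, Finset.sum_mul,
    Matrix.mul_smul, Matrix.smul_mul]

/-- A small logarithm of an automorphism is a derivation. -/
theorem eventually_isDer : ∀ᶠ Z in 𝓝 (0 : Mat n), exp Z ∈ Aut b → IsDer b Z := by
  filter_upwards [eventually_stationary (dAct (n := n))] with Z hZ hA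
  have hu : ∀ t, HasDerivAt (fun t i => uC b Z (b i) t) (dAct Z fun i => uC b Z (b i) t) t := by
    intro t
    refine (hasDerivAt_pi (E' := fun _ : Fin n => Mat n)).2 fun i => ?_
    have := hasDerivAt_uC b Z (b i) t
    rwa [uC_toLin] at this
  have h1 := hZ _ hu (by
    funext i
    rw [uC_zero]
    exact (uC_eq_iff b Z 1).2 (by rwa [one_smul]) _)
  have h2 : ∀ i, adM b (Matrix.toLin b b Z (b i)) + adM b (b i) * Z - Z * adM b (b i) = 0 := by
    intro i
    rw [← uC_zero b Z, ← uC_zero b Z, uC_toLin]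
    exact congrFun h1 i
  intro X
  let T : L →ₗ[ℝ] Mat n := adM b ∘ₗ Matrix.toLin b b Z + LinearMap.mulRight ℝ Z ∘ₗ adM b -
    LinearMap.mulLeft ℝ Z ∘ₗ adM b
  have : T = 0 := b.ext h2
  exact LinearMap.congr_fun this X

/-- (AUT3), without a topology on `L`. -/
theorem nhdsWithin_Aut_le [LieAlgebra.IsKilling ℝ L] :
    𝓝[Aut b] 1 ≤ Filter.map exp (𝓝[range (adM b)] (0 : Mat n)) := by
  have h0 : Filter.map exp (𝓝 (0 : Mat n)) = 𝓝 1 := by
    have := (hasStrictFDerivAt_exp_zero (𝕂 := ℝ) (𝔸 := Mat n)).map_nhds_eq_of_equiv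
      (f' := ContinuousLinearEquiv.refl ℝ (Mat n))
    rwa [exp_zero] at this
  intro W hW
  rw [Filter.mem_map, mem_nhdsWithin_iff_eventually] at hW
  rw [mem_nhdsWithin_iff_eventually, ← h0, eventually_map]
  filter_upwards [hW, eventually_isDer b] with Z h1 h2 h3
  exact h1 ((h2 h3).exists_eq b)

/-- (AUT3) The exponentials of small inner derivations form a neighbourhood of `1`. -/
theorem exp_adM_mem_nhdsWithin [LieAlgebra.IsKilling ℝ L] [TopologicalSpace L]
    [IsTopologicalAddGroup L] [ContinuousSMul ℝ L] [T2Space L] {V : Set L} (hV : V ∈ 𝓝 (0 : L)) :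
    (fun X => exp (adM b X)) '' V ∈ 𝓝[Aut b] 1 := by
  haveI := Module.Finite.of_basis b
  refine nhdsWithin_Aut_le b ?_
  have he := (LinearMap.isClosedEmbedding_of_injective
    (LinearMap.ker_eq_bot.2 (adM_injective b))).isEmbedding.map_nhds_eq 0
  rw [map_zero] at he
  rw [← he, Filter.map_map]
  exact image_mem_map hV

theorem map_exp_adM_nhds [LieAlgebra.IsKilling ℝ L] [TopologicalSpace L]
    [IsTopologicalAddGroup L] [ContinuousSMul ℝ L] [T2Space L] :
    Filter.map (fun X => exp (adM b X)) (𝓝 (0 : L)) = 𝓝[Aut b] 1 := by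
  haveI := Module.Finite.of_basis b
  refine le_antisymm ?_ fun W hW => mem_of_superset (exp_adM_mem_nhdsWithin b hW)
    (image_preimage_subset _ _)
  refine tendsto_nhdsWithin_iff.2 ⟨?_, Eventually.of_forall (exp_adM_mem b)⟩
  have : Continuous fun X => exp (adM b X) :=
    exp_continuous.comp (adM b).continuous_of_finiteDimensional
  have h := this.tendsto 0
  rwa [map_zero, exp_zero] at h

end Pool.Agent.P.MP_d483fb_an.Z

end

end

section

/-!
One parameter subgroups of a Lie group, and the adjoint representation in matrix form.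
-/

open Filter Topology Set Bundle Module NormedSpace
open scoped Manifold Matrix Matrix.Norms.Operator

noncomputable section

namespace Pool.Agent.P.MP_d483fb_an.Z.Br

section Inst

variable (E G : Type) [NormedAddCommGroup E] [NormedSpace ℝ E] [Group G] [TopologicalSpace G]
  [ChartedSpace E G] [LieGroup 𝓘(ℝ, E) (minSmoothness ℝ 3) G]

include E

theorem lie_topGroup : IsTopologicalGroup G :=
  topologicalGroup_of_lieGroup 𝓘(ℝ, E) (minSmoothness ℝ 3)

theorem lie_t2 : T2Space G := by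
  have := lie_topGroup E G
  have := ChartedSpace.t1Space E G
  infer_instance

omit [Group G] [LieGroup 𝓘(ℝ, E) (minSmoothness ℝ 3) G] in
theorem lie_locallyCompact [FiniteDimensional ℝ E] : LocallyCompactSpace G := by
  have := FiniteDimensional.proper_real E
  exact ChartedSpace.locallyCompactSpace E G

open scoped Pointwise in
theorem lie_secondCountable [FiniteDimensional ℝ E] [ConnectedSpace G] :
    SecondCountableTopology G := by
  have := lie_topGroup E G
  have := lie_t2 E G
  have := FiniteDimensional.proper_real E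
  have := lie_locallyCompact E G
  obtain ⟨K, hK, hK1⟩ := exists_compact_mem_nhds (1 : G)
  have hS : IsCompact (K ∪ K⁻¹) := hK.union hK.inv
  have hc : ∀ m : ℕ, IsCompact ((K ∪ K⁻¹) ^ m) := by
    intro m
    induction m with
    | zero => simp
    | succ m ih => rw [pow_succ]; exact ih.mul hS
  have htop : Subgroup.closure K = ⊤ := by
    have ho : IsOpen (Subgroup.closure K : Set G) :=
      Subgroup.isOpen_of_mem_nhds _ (mem_of_superset hK1 Subgroup.subset_closure)
    have hcl := IsClopen.eq_univ ⟨Subgroup.isClosed_of_isOpen _ ho, ho⟩ ⟨1, one_mem _⟩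
    exact Subgroup.coe_eq_univ.1 hcl
  have : SigmaCompactSpace G := by
    refine SigmaCompactSpace.of_countable (range fun m : ℕ => (K ∪ K⁻¹) ^ m) (countable_range _)
      (by rintro _ ⟨m, rfl⟩; exact hc m) ?_
    rw [sUnion_range, eq_univ_iff_forall]
    intro g
    have hg : g ∈ Subgroup.closure K := htop ▸ Subgroup.mem_top g
    induction hg using Subgroup.closure_induction_left with
    | one => exact mem_iUnion.2 ⟨0, by simp⟩
    | mul_left x hx y _ ih =>
      obtain ⟨m, hm⟩ := mem_iUnion.1 ih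
      exact mem_iUnion.2 ⟨m + 1, by rw [pow_succ']; exact mul_mem_mul (Or.inl hx) hm⟩
    | inv_mul_cancel x hx y _ ih =>
      obtain ⟨m, hm⟩ := mem_iUnion.1 ih
      exact mem_iUnion.2 ⟨m + 1, by
        rw [pow_succ']; exact mul_mem_mul (Or.inr (inv_mem_inv.2 hx)) hm⟩
  exact ChartedSpace.secondCountable_of_sigmaCompact E G

end Inst

variable {E : Type} [NormedAddCommGroup E] [NormedSpace ℝ E]
  {G : Type} [Group G] [TopologicalSpace G] [ChartedSpace E G]

set_option backward.isDefEq.respectTransparency false in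
theorem field_one (v : GroupLieAlgebra 𝓘(ℝ, E) G) : mulInvariantVectorField v (1 : G) = v := by
  have D : (fun x : G => (1 : G) * x) = id := by ext x; simp
  simp only [mulInvariantVectorField]
  rw [D, mfderiv_id]
  rfl


variable [LieGroup 𝓘(ℝ, E) (minSmoothness ℝ 3) G]

set_option backward.isDefEq.respectTransparency false in
theorem field_mul (v : GroupLieAlgebra 𝓘(ℝ, E) G) (g h : G) :
    mfderiv 𝓘(ℝ, E) 𝓘(ℝ, E) (fun x => g * x) h (mulInvariantVectorField v h) =
      mulInvariantVectorField v (g * h) := by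
  have D : (fun x => g * h * x) = (fun b => g * b) ∘ (fun x => h * x) := by
    ext x; simp only [Function.comp_apply, mul_assoc]
  have := mdf_comp (E := E) (f := fun b => g * b) (k := fun x => h * x) (x := 1) (md_left _ _)
    (md_left _ _)
  rw [← D] at this
  simp only [mul_one] at this
  exact (DFunLike.congr_fun this (toE E G v)).symm

set_option backward.isDefEq.respectTransparency false in
theorem curve_translate (v : GroupLieAlgebra 𝓘(ℝ, E) G) (g : G) (γ : ℝ → G) (t : ℝ)
    (h : HasMFDerivAt 𝓘(ℝ, ℝ) 𝓘(ℝ, E) γ t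
      ((1 : ℝ →L[ℝ] ℝ).smulRight (mulInvariantVectorField v (γ t)))) :
    HasMFDerivAt 𝓘(ℝ, ℝ) 𝓘(ℝ, E) (fun s => g * γ s) t
      ((1 : ℝ →L[ℝ] ℝ).smulRight (mulInvariantVectorField v (g * γ t))) := by
  have h2 := HasMFDerivAt.comp t (md_left g (γ t)).hasMFDerivAt h
  refine h2.congr_mfderiv ?_
  rw [ContinuousLinearMap.ext_iff]
  intro a
  rw [ContinuousLinearMap.comp_apply, ContinuousLinearMap.smulRight_apply, map_smul, field_mul]
  rfl

theorem field_smooth (v : GroupLieAlgebra 𝓘(ℝ, E) G) :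
    letI : IsManifold 𝓘(ℝ, E) 1 G := IsManifold.of_le one_le_three
    ContMDiff 𝓘(ℝ, E) 𝓘(ℝ, E).tangent 1
      (fun x : G => (⟨x, mulInvariantVectorField v x⟩ : TangentBundle 𝓘(ℝ, E) G)) :=
  (contMDiff_mulInvariantVectorField v).of_le (le_trans (by norm_num) le_minSmoothness)

theorem curve_unique {v : GroupLieAlgebra 𝓘(ℝ, E) G} {γ γ' : ℝ → G}
    (h : IsMIntegralCurve γ (mulInvariantVectorField v))
    (h' : IsMIntegralCurve γ' (mulInvariantVectorField v)) (h0 : γ 0 = γ' 0) : γ = γ' := by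
  have : IsManifold 𝓘(ℝ, E) 1 G := IsManifold.of_le one_le_three
  have := lie_t2 E G
  exact isMIntegralCurve_Ioo_eq_of_contMDiff_boundaryless (t₀ := 0) (field_smooth v) h h' h0

theorem exists_curve [CompleteSpace E] (v : GroupLieAlgebra 𝓘(ℝ, E) G) :
    ∃ φ : ℝ → G, φ 0 = 1 ∧ IsMIntegralCurve φ (mulInvariantVectorField v) := by
  have : IsManifold 𝓘(ℝ, E) 1 G := IsManifold.of_le one_le_three
  have := lie_t2 E G
  have hv := field_smooth v
  obtain ⟨γ, hγ0, hγ⟩ := exists_isMIntegralCurveAt_of_contMDiffAt_boundaryless (0 : ℝ)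
    (hv.contMDiffAt (x := 1))
  obtain ⟨ε, hε, hγε⟩ := isMIntegralCurveAt_iff'.1 hγ
  rw [Real.ball_eq_Ioo, zero_sub, zero_add] at hγε
  have hall : ∀ x : G, ∃ γ' : ℝ → G, γ' 0 = x ∧
      IsMIntegralCurveOn γ' (mulInvariantVectorField v) (Ioo (-ε) ε) := by
    intro x
    refine ⟨fun s => x * γ s, by simp [hγ0], fun t ht => ?_⟩
    exact (curve_translate v x γ t
      ((hγε t ht).hasMFDerivAt (Ioo_mem_nhds ht.1 ht.2))).hasMFDerivWithinAt
  exact exists_isMIntegralCurve_of_isMIntegralCurveOn hv hε hall 1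

section OneParam

variable [CompleteSpace E] (v : GroupLieAlgebra 𝓘(ℝ, E) G)

/-- The one parameter subgroup generated by `v`. -/
def ex : ℝ → G := (exists_curve v).choose

theorem ex_zero : ex v 0 = 1 := (exists_curve v).choose_spec.1

theorem ex_curve : IsMIntegralCurve (ex v) (mulInvariantVectorField v) :=
  (exists_curve v).choose_spec.2

theorem ex_cont : Continuous (ex v) := (ex_curve v).continuous

theorem ex_add (s t : ℝ) : ex v (s + t) = ex v s * ex v t := by
  have h1 : IsMIntegralCurve (ex v ∘ (· + s)) (mulInvariantVectorField v) := (ex_curve v).comp_add s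
  have h2 : IsMIntegralCurve (fun r => ex v s * ex v r) (mulInvariantVectorField v) := fun r =>
    curve_translate v _ _ r (ex_curve v r)
  have := congrFun (curve_unique h1 h2 (by simp [ex_zero])) t
  simpa [add_comm] using this

set_option backward.isDefEq.respectTransparency false in
theorem ex_deriv : HasDerivAt (ch E G ∘ ex v) (toE E G v) 0 := by
  have : IsManifold 𝓘(ℝ, E) 1 G := IsManifold.of_le one_le_three
  have h := ((ex_curve v).isMIntegralCurveAt 0).eventually_hasDerivAt.self_of_nhds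
  rw [tangentCoordChange_self (mem_extChartAt_source _), ex_zero, field_one] at h
  exact h

end OneParam

/-- A one parameter group of matrices is the exponential of its derivative. -/
theorem eq_exp_of_add {n : ℕ} {A : ℝ → Mat n} {Z : Mat n} (h0 : A 0 = 1)
    (hA : ∀ s t, A (s + t) = A s * A t) (hZ : HasDerivAt A Z 0) (t : ℝ) : A t = exp (t • Z) := by
  have h1 : ∀ s, HasDerivAt A (A s * Z) s := by
    intro s
    have h2 : HasDerivAt (fun r => A (r - s)) Z s := by
      have h3 : HasDerivAt A Z (s - s) := by rwa [sub_self]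
      exact h3.comp_sub_const s s
    have h4 := h2.const_mul (A s)
    refine h4.congr_of_eventuallyEq (Eventually.of_forall fun r => ?_)
    beta_reduce
    rw [← hA, add_sub_cancel]
  have h5 : ∀ s, HasDerivAt (fun r => A r * exp (r • (-Z))) 0 s := by
    intro s
    have h6 := (h1 s).mul (hasDerivAt_exp_smul_const' (𝕂 := ℝ) (-Z) s)
    rw [neg_mul, mul_neg, mul_assoc, add_neg_cancel] at h6
    exact h6
  have h7 := is_const_of_deriv_eq_zero (fun s => (h5 s).differentiableAt) (fun s => (h5 s).deriv) t 0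
  simp only [zero_smul, exp_zero, h0, mul_one] at h7
  rw [← mul_one (A t), ← exp_neg_mul_exp_smul Z t, ← mul_assoc, h7, one_mul]

variable [FiniteDimensional ℝ E] {n : ℕ}
  (b : Basis (Fin n) ℝ (GroupLieAlgebra 𝓘(ℝ, E) G))

/-- The matrix of an endomorphism of the model space. -/
def mat : (E →L[ℝ] E) ≃ₐ[ℝ] Mat n :=
  (Module.End.toContinuousLinearMap E).symm.trans (LinearMap.toMatrixAlgEquiv (b.map (toE E G)))

set_option backward.isDefEq.respectTransparency false in
omit [LieGroup 𝓘(ℝ, E) (minSmoothness ℝ 3) G] in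
theorem toE_toLin_mat (φ : E →L[ℝ] E) (X : GroupLieAlgebra 𝓘(ℝ, E) G) :
    toE E G (Matrix.toLin b b (mat b φ) X) = φ (toE E G X) := by
  have h : mat b φ = LinearMap.toMatrix b b
      ((toE E G).symm.toLinearMap ∘ₗ φ.toLinearMap ∘ₗ (toE E G).toLinearMap) := by
    ext i j
    simp [mat, LinearMap.toMatrixAlgEquiv_apply, LinearMap.toMatrix_apply]
    rfl
  rw [h, Matrix.toLin_toMatrix]
  rfl

/-- The adjoint representation in matrix form. -/
def rho : G →* Mat n := (mat b : (E →L[ℝ] E) →* Mat n).comp (adj E G)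

theorem rho_apply (g : G) : rho b g = mat b (adj E G g) := rfl

theorem rho_chart : ∀ᶠ g in 𝓝 (1 : G), rho b ((ch E G).symm (ch E G g)) = rho b g := by
  filter_upwards [extChartAt_source_mem_nhds (I := 𝓘(ℝ, E)) (1 : G)] with g hg
  rw [(ch E G).left_inv hg]

variable [CompleteSpace E]

theorem rho_deriv : ∃ D : E →L[ℝ] Mat n,
    HasStrictFDerivAt (fun x => rho b ((ch E G).symm x)) D (ch E G 1) ∧
      ∀ v, D (toE E G v) = adM b v := by
  obtain ⟨D, hD, hD'⟩ := adj_deriv (E := E) (G := G)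
  let T : (E →L[ℝ] E) →L[ℝ] Mat n := (mat b).toLinearMap.toContinuousLinearMap
  refine ⟨T.comp D, T.hasStrictFDerivAt.comp _ hD, fun v => mat_ext b fun w => ?_⟩
  refine (toE E G).injective ?_
  rw [toLin_adM, ← hD']
  exact toE_toLin_mat b _ w

theorem rho_cont : Continuous (rho b) := by
  have := lie_topGroup E G
  obtain ⟨D, hD, -⟩ := rho_deriv b
  refine continuous_of_continuousAt_one _ ?_
  exact (ContinuousAt.comp (f := ch E G) hD.continuousAt (continuousAt_extChartAt 1)).congr
    (rho_chart b)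

theorem rho_ex (v : GroupLieAlgebra 𝓘(ℝ, E) G) (t : ℝ) : rho b (ex v t) = exp (t • adM b v) := by
  obtain ⟨D, hD, hD'⟩ := rho_deriv b
  refine eq_exp_of_add (A := fun t => rho b (ex v t)) (by rw [ex_zero, map_one])
    (fun s t => by rw [ex_add, map_mul]) ?_ t
  have h1 := HasFDerivAt.comp_hasDerivAt_of_eq (0 : ℝ) hD.hasFDerivAt (ex_deriv v)
    (by rw [Function.comp_apply, ex_zero])
  rw [← hD']
  refine h1.congr_of_eventuallyEq ?_
  have h2 : Tendsto (ex v) (𝓝 0) (𝓝 1) := by
    simpa only [ContinuousAt, ex_zero] using (ex_cont v).continuousAt (x := 0)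
  exact (h2.eventually (rho_chart b)).mono fun t ht => ht.symm

theorem rho_mem_Aut (g : G) : rho b g ∈ Aut b := by
  have := lie_topGroup E G
  obtain ⟨D, hD, hD'⟩ := rho_deriv b
  refine (mem_Aut_iff b).2 ⟨(Group.isUnit g).map (rho b), fun X => ?_⟩
  have hc : g * 1 * g⁻¹ = 1 := by simp
  have h1 := fderiv_chart (f := fun h : G => g * h * g⁻¹) (md_conj (E := E) g 1)
    (by rw [hc]; exact mem_extChartAt_source _)
  rw [hc, mdc_one, one_mul, ← adj_apply] at h1
  have h0 : HasFDerivAt (fun x => rho b ((ch E G).symm x)) D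
      (ch E G (g * (ch E G).symm (ch E G 1) * g⁻¹)) := by
    rw [extChartAt_to_inv, hc]
    exact hD.hasFDerivAt
  have h2 := HasFDerivAt.comp (ch E G 1) h0 h1
  have h3 := (hD.hasFDerivAt.const_mul (rho b g)).mul_const' (rho b g⁻¹)
  have h4 : (fun x => rho b ((ch E G).symm x)) ∘
      (fun y => ch E G (g * (ch E G).symm y * g⁻¹)) =ᶠ[𝓝 (ch E G 1)]
      fun x => rho b g * rho b ((ch E G).symm x) * rho b g⁻¹ := by
    have h5 : Tendsto (fun y => g * (ch E G).symm y * g⁻¹) (𝓝 (ch E G 1)) (𝓝 1) := by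
      have h6 := ((continuousAt_extChartAt_symm (I := 𝓘(ℝ, E)) (1 : G)).const_mul g).mul_const g⁻¹
      simpa only [ContinuousAt, extChartAt_to_inv, hc] using h6
    filter_upwards [h5.eventually (rho_chart b)] with y hy
    rw [Function.comp_apply, hy, map_mul, map_mul]
  have h7 := DFunLike.congr_fun ((h2.congr_of_eventuallyEq h4.symm).unique h3) (toE E G X)
  have h8 : D (adj E G g (toE E G X)) = rho b g * D (toE E G X) * rho b g⁻¹ := h7
  rw [← toE_toLin_mat b, hD', hD', ← rho_apply] at h8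
  rw [h8, mul_assoc, ← map_mul, inv_mul_cancel, map_one, mul_one]

end Pool.Agent.P.MP_d483fb_an.Z.Br

end

end

section

/-!
Transfer of ideals, complexifications and split subalgebras along isomorphisms of Lie algebras.
-/

open scoped Matrix TensorProduct Topology
open Set Module

attribute [local instance 100] LieRing.ofAssociativeRing

noncomputable section

namespace Pool.Agent.P.MP_d483fb_an.Z

section Ideals

variable {K A B : Type*} [CommRing K] [LieRing A] [LieAlgebra K A] [LieRing B] [LieAlgebra K B]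

/-- An isomorphism of Lie algebras identifies the lattices of ideals. -/
def idealIso (e : A ≃ₗ⁅K⁆ B) : LieIdeal K B ≃o LieIdeal K A where
  toFun I := LieIdeal.comap (e : A →ₗ⁅K⁆ B) I
  invFun J := LieIdeal.comap (e.symm : B →ₗ⁅K⁆ A) J
  left_inv I := by
    ext x
    simp
  right_inv J := by
    ext x
    simp
  map_rel_iff' {I J} := by
    refine ⟨fun h x hx => ?_, fun h => LieIdeal.comap_mono h⟩
    have h1 : e.symm x ∈ LieIdeal.comap (e : A →ₗ⁅K⁆ B) I := by simpa using hx
    simpa using h h1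

theorem mem_idealIso (e : A ≃ₗ⁅K⁆ B) (I : LieIdeal K B) (x : A) :
    x ∈ idealIso e I ↔ e x ∈ I := Iff.rfl

/-- The restriction of an isomorphism to an ideal. -/
def idealEquiv (e : A ≃ₗ⁅K⁆ B) (I : LieIdeal K B) : idealIso e I ≃ₗ⁅K⁆ I where
  toFun x := ⟨e x.1, x.2⟩
  invFun y := ⟨e.symm y.1, by
    rw [mem_idealIso, LieEquiv.apply_symm_apply]
    exact y.2⟩
  map_add' x y := Subtype.ext (map_add e x.1 y.1)
  map_smul' c x := Subtype.ext (map_smul e c x.1)
  map_lie' {x y} := Subtype.ext (e.map_lie x.1 y.1)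
  left_inv x := Subtype.ext (e.symm_apply_apply x.1)
  right_inv y := Subtype.ext (e.apply_symm_apply y.1)

end Ideals

section Complex

variable {A B : Type*} [LieRing A] [LieAlgebra ℝ A] [LieRing B] [LieAlgebra ℝ B]

/-- The complexification of an isomorphism of real Lie algebras. -/
def cxEquiv (e : A ≃ₗ⁅ℝ⁆ B) : (ℂ ⊗[ℝ] A) ≃ₗ⁅ℂ⁆ (ℂ ⊗[ℝ] B) :=
  { LinearEquiv.baseChange ℝ ℂ A B e.toLinearEquiv with
    map_lie' := fun {x y} => by
      have h : ∀ z, LinearEquiv.baseChange ℝ ℂ A B e.toLinearEquiv z =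
          LieAlgebra.ExtendScalars.map (AlgHom.id ℝ ℂ) (e : A →ₗ⁅ℝ⁆ B) z := by
        intro z
        induction z using TensorProduct.induction_on with
        | zero => rw [map_zero, map_zero]
        | add z₁ z₂ h₁ h₂ => rw [map_add, map_add, h₁, h₂]
        | tmul a z => rfl
      change LinearEquiv.baseChange ℝ ℂ A B e.toLinearEquiv ⁅x, y⁆ =
        ⁅LinearEquiv.baseChange ℝ ℂ A B e.toLinearEquiv x,
          LinearEquiv.baseChange ℝ ℂ A B e.toLinearEquiv y⁆
      rw [h, h, h]
      exact LieHom.map_lie _ x y }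

end Complex

section Split

variable {L : Type} [LieRing L] [LieAlgebra ℝ L]

theorem diag_of_ideal [LieAlgebra.IsSemisimple ℝ L] (I : LieIdeal ℝ L) (X : I)
    (h : ⨆ c : ℝ, (LieAlgebra.ad ℝ I X).eigenspace c = ⊤) :
    ⨆ c : ℝ, (LieAlgebra.ad ℝ L X.1).eigenspace c = ⊤ := by
  rw [eq_top_iff]
  intro Y _
  have hc : IsCompl I Iᶜ := isCompl_compl
  have hY : Y ∈ I ⊔ Iᶜ := by
    rw [hc.sup_eq_top]
    exact LieSubmodule.mem_top Y
  obtain ⟨y, hy, z, hz, rfl⟩ := (LieSubmodule.mem_sup _ _ _).1 hY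
  refine Submodule.add_mem _ ?_ ?_
  · have h1 : (⟨y, hy⟩ : I) ∈ ⨆ c : ℝ, (LieAlgebra.ad ℝ I X).eigenspace c := by
      rw [h]
      exact Submodule.mem_top
    have h2 : (⨆ c : ℝ, (LieAlgebra.ad ℝ I X).eigenspace c) ≤
        (⨆ c : ℝ, (LieAlgebra.ad ℝ L X.1).eigenspace c).comap I.incl.toLinearMap := by
      refine iSup_le fun c w hw => ?_
      refine Submodule.mem_iSup_of_mem c ?_
      rw [End.mem_eigenspace_iff] at hw ⊢
      exact congrArg Subtype.val hw
    exact h2 h1
  · refine Submodule.mem_iSup_of_mem 0 ?_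
    rw [End.mem_eigenspace_iff, zero_smul, LieAlgebra.ad_apply]
    have h1 : ⁅X.1, z⁆ ∈ I ⊓ Iᶜ :=
      (LieSubmodule.mem_inf _ _ _).2 ⟨lie_mem_left ℝ L I _ _ X.2, LieSubmodule.lie_mem _ hz⟩
    rw [hc.inf_eq_bot] at h1
    exact (LieSubmodule.mem_bot _).1 h1

theorem exists_pair_of_realRank [Module.Finite ℝ L] (h : 2 ≤ realRank L) :
    ∃ X Y : L, LinearIndependent ℝ ![X, Y] ∧ ⁅X, Y⁆ = 0 ∧
      ⨆ c : ℝ, (LieAlgebra.ad ℝ L X).eigenspace c = ⊤ ∧
      ⨆ c : ℝ, (LieAlgebra.ad ℝ L Y).eigenspace c = ⊤ := by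
  let S : Set ℕ := {k | ∃ a : LieSubalgebra ℝ L, IsLieAbelian a ∧
    (∀ X ∈ a, ⨆ c : ℝ, (LieAlgebra.ad ℝ L X).eigenspace c = ⊤) ∧ Module.finrank ℝ a = k}
  have hb : BddAbove S := by
    refine ⟨finrank ℝ L, ?_⟩
    rintro k ⟨a, -, -, rfl⟩
    exact a.toSubmodule.finrank_le
  have hne : S.Nonempty := by
    by_contra hS
    rw [not_nonempty_iff_eq_empty] at hS
    have h0 : realRank L = 0 := by
      change sSup S = 0
      rw [hS]
      exact csSup_empty
    omega
  obtain ⟨a, ha, hd, hk⟩ := Nat.sSup_mem hne hb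
  have h2 : 2 ≤ finrank ℝ a := hk ▸ h
  obtain ⟨f, hf⟩ := exists_linearIndependent_of_le_finrank h2
  refine ⟨(f 0).1, (f 1).1, ?_, congrArg Subtype.val (ha.trivial (f 0) (f 1)), hd _ (f 0).2,
    hd _ (f 1).2⟩
  have h3 := hf.map' a.toSubmodule.subtype (Submodule.ker_subtype _)
  have h4 : ![(f 0).1, (f 1).1] = a.toSubmodule.subtype ∘ f := by
    funext i
    fin_cases i <;> rfl
  rw [h4]
  exact h3

theorem exists_pair_of_ideal [Module.Finite ℝ L] [LieAlgebra.IsSemisimple ℝ L]
    (I : LieIdeal ℝ L) (h : 2 ≤ realRank I) :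
    ∃ X ∈ I, ∃ Y ∈ I, LinearIndependent ℝ ![X, Y] ∧ ⁅X, Y⁆ = 0 ∧
      ⨆ c : ℝ, (LieAlgebra.ad ℝ L X).eigenspace c = ⊤ ∧
      ⨆ c : ℝ, (LieAlgebra.ad ℝ L Y).eigenspace c = ⊤ := by
  obtain ⟨X, Y, h1, h2, h3, h4⟩ := exists_pair_of_realRank h
  refine ⟨X.1, X.2, Y.1, Y.2, ?_, congrArg Subtype.val h2, diag_of_ideal I X h3,
    diag_of_ideal I Y h4⟩
  have h5 := h1.map' I.toSubmodule.subtype (Submodule.ker_subtype _)
  have h6 : ![X.1, Y.1] = I.toSubmodule.subtype ∘ ![X, Y] := by
    funext i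
    fin_cases i <;> rfl
  rw [h6]
  exact h5

end Split

section Ad

variable {L : Type*} [LieRing L] [LieAlgebra ℝ L] {n : ℕ} (b : Basis (Fin n) ℝ L)

/-- The adjoint representation by matrices. -/
def adHom : L →ₗ⁅ℝ⁆ Mat n :=
  { adM b with map_lie' := fun {X Y} => adM_lie b X Y }

theorem adHom_apply (X : L) : adHom b X = adM b X := rfl

theorem lieAlg_eq_map {S : Set (Mat n)} {T : Set L} (h : lieSet S = adM b '' T) :
    lieAlg S = (LieSubalgebra.lieSpan ℝ L T).map (adHom b) := by
  rw [LieSubalgebra.map_lieSpan, lieAlg, h]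
  rfl

theorem finrank_lieAlg [LieAlgebra.IsKilling ℝ L] {S : Set (Mat n)} {T : Set L}
    (h : lieSet S = adM b '' T) :
    finrank ℝ (lieAlg S) = finrank ℝ (LieSubalgebra.lieSpan ℝ L T) := by
  rw [lieAlg_eq_map b h]
  exact (LieSubalgebra.equivMapOfInjective (adHom b) _
    (adM_injective b)).toLinearEquiv.finrank_eq.symm

theorem exists_adEquiv [LieAlgebra.IsKilling ℝ L] {S : Set (Mat n)}
    (h : lieSet S = range (adM b)) : ∃ e : L ≃ₗ⁅ℝ⁆ lieAlg S, ∀ X, (e X).1 = adM b X := by
  have h1 : ((adHom b).range : Set (Mat n)) = lieAlg S := by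
    rw [lieAlg, h]
    have h2 : range (adM b) = ((adHom b).range : Set (Mat n)) := rfl
    rw [h2, LieSubalgebra.lieSpan_eq]
  exact ⟨(LieEquiv.ofInjective (adHom b) (adM_injective b)).trans (LieEquiv.ofEq _ _ h1),
    fun X => rfl⟩

end Ad

end Pool.Agent.P.MP_d483fb_an.Z

end

end

section

/-!
Two independent commuting split elements of an ideal can be replaced by symmetric ones.
-/

open scoped Matrix Matrix.Norms.Operator Topology
open NormedSpace Filter Set Module Polynomial

attribute [local instance 100] LieRing.ofAssociativeRing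

noncomputable section

namespace Pool.Agent.P.MP_d483fb_an.Z

variable {n : ℕ}

theorem trace_mul_transpose_eq (M : Mat n) : (M * Mᵀ).trace = ∑ i, ∑ j, M i j ^ 2 := by
  simp only [Matrix.trace, Matrix.diag_apply, Matrix.mul_apply, Matrix.transpose_apply, sq]

theorem trace_mul_transpose_nonneg (M : Mat n) : 0 ≤ (M * Mᵀ).trace := by
  rw [trace_mul_transpose_eq]
  positivity

theorem sq_le_trace_mul_transpose (M : Mat n) (i j : Fin n) : M i j ^ 2 ≤ (M * Mᵀ).trace := by
  rw [trace_mul_transpose_eq]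
  refine le_trans ?_ (Finset.single_le_sum (f := fun i => ∑ j, M i j ^ 2)
    (fun i _ => by positivity) (Finset.mem_univ i))
  exact Finset.single_le_sum (f := fun j => M i j ^ 2) (fun j _ => by positivity)
    (Finset.mem_univ j)

theorem eq_zero_of_trace_mul_transpose {M : Mat n} (h : (M * Mᵀ).trace ≤ 0) : M = 0 := by
  ext i j
  exact pow_eq_zero_iff (two_ne_zero) |>.1
    (le_antisymm ((sq_le_trace_mul_transpose M i j).trans h) (sq_nonneg _))

theorem eq_zero_of_transpose_mul {M : Mat n} (h : Mᵀ * M = 0) : M = 0 :=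
  eq_zero_of_trace_mul_transpose (by rw [Matrix.trace_mul_comm, h, Matrix.trace_zero])

/-- A normal matrix killed by a real split polynomial is symmetric. -/
theorem isSymm_of_normal {A : Mat n} (hA : A * Aᵀ = Aᵀ * A) (s : Finset ℝ)
    (h : aeval A (∏ μ ∈ s, (X - C μ)) = 0) : A.IsSymm := by
  have key : ∀ W : Mat n, aeval A (∏ μ ∈ s, (X - C μ)) * W = 0 → (A - Aᵀ) * W = 0 := by
    clear h
    induction s using Finset.induction_on with
    | empty =>
      intro W hW
      rw [Finset.prod_empty, map_one, one_mul] at hW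
      rw [hW, mul_zero]
    | insert μ s hμ ih =>
      intro W hW
      rw [Finset.prod_insert hμ, map_mul, map_sub, aeval_X, aeval_C, mul_assoc,
        Algebra.algebraMap_eq_smul_one] at hW
      set P := aeval A (∏ μ ∈ s, (X - C μ)) with hP
      have hN : (A - μ • 1) * (Aᵀ - μ • 1) = (Aᵀ - μ • 1) * (A - μ • 1) := by
        simp only [sub_mul, mul_sub, Matrix.mul_smul, Matrix.smul_mul, one_mul, mul_one, hA]
        abel
      have h1 : (Aᵀ - μ • 1) * (P * W) = 0 := by
        refine eq_zero_of_transpose_mul ?_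
        rw [Matrix.transpose_mul, Matrix.transpose_sub, Matrix.transpose_transpose,
          Matrix.transpose_smul, Matrix.transpose_one, mul_assoc, ← mul_assoc (A - _), hN,
          mul_assoc, hW, mul_zero, mul_zero]
      have h2 : (A - Aᵀ) * (P * W) = 0 := by
        rw [← sub_sub_sub_cancel_right A Aᵀ (μ • 1), sub_mul, hW, h1, sub_zero]
      have hc : Commute (A - Aᵀ) P := by
        have : Commute (A - Aᵀ) A := (Commute.refl A).sub_left hA.symm
        rw [hP, aeval_eq_sum_range]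
        exact Commute.sum_right _ _ _ fun i _ => (this.pow_right i).smul_right _
      have h3 := ih ((A - Aᵀ) * W) (by rw [← mul_assoc, ← hc.eq, mul_assoc, h2])
      refine eq_zero_of_transpose_mul ?_
      rw [Matrix.transpose_mul, Matrix.transpose_sub, Matrix.transpose_transpose, mul_assoc,
        ← neg_sub A, neg_mul, h3, neg_zero, mul_zero]
  have := key 1 (by rw [h, zero_mul])
  rw [mul_one, sub_eq_zero] at this
  exact this.symm

theorem normal_of_critical {A B : Mat n} (hAB : A * B = B * A)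
    (h : A * Aᵀ - Aᵀ * A + (B * Bᵀ - Bᵀ * B) = 0) : A * Aᵀ = Aᵀ * A := by
  have e1 : (Aᵀ * B * (Bᵀ * A)).trace = (A * Aᵀ * (B * Bᵀ)).trace := by
    rw [← mul_assoc, Matrix.trace_mul_comm]
    simp only [mul_assoc]
  have e2 : (Aᵀ * B * (A * Bᵀ)).trace = (Aᵀ * A * (B * Bᵀ)).trace := by
    rw [mul_assoc, ← mul_assoc B, ← hAB]
    simp only [mul_assoc]
  have e3 : (B * Aᵀ * (Bᵀ * A)).trace = (A * Aᵀ * (Bᵀ * B)).trace := by
    rw [mul_assoc, Matrix.trace_mul_comm, mul_assoc, mul_assoc, hAB, ← mul_assoc, ← mul_assoc,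
      Matrix.trace_mul_comm]
    simp only [mul_assoc]
  have e4 : (B * Aᵀ * (A * Bᵀ)).trace = (Aᵀ * A * (Bᵀ * B)).trace := by
    rw [mul_assoc, Matrix.trace_mul_comm]
    simp only [mul_assoc]
  have h1 : ((A * Aᵀ - Aᵀ * A) * (B * Bᵀ - Bᵀ * B)).trace =
      ((Aᵀ * B - B * Aᵀ) * (Aᵀ * B - B * Aᵀ)ᵀ).trace := by
    simp only [Matrix.transpose_sub, Matrix.transpose_mul, Matrix.transpose_transpose, sub_mul,
      mul_sub, Matrix.trace_sub, e1, e2, e3, e4]
    ring
  have h2 : (A * Aᵀ - Aᵀ * A)ᵀ = A * Aᵀ - Aᵀ * A := by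
    simp only [Matrix.transpose_sub, Matrix.transpose_mul, Matrix.transpose_transpose]
  have h3 := congrArg (fun N => ((A * Aᵀ - Aᵀ * A) * N).trace) h
  simp only [mul_add, Matrix.trace_add, mul_zero, Matrix.trace_zero, h1] at h3
  rw [← sub_eq_zero]
  refine eq_zero_of_trace_mul_transpose ?_
  rw [h2]
  linarith [trace_mul_transpose_nonneg (Aᵀ * B - B * Aᵀ)]

theorem hasDerivAt_lin {F : Type*} [NormedAddCommGroup F] [NormedSpace ℝ F] (T : Mat n →ₗ[ℝ] F)
    {c : ℝ → Mat n} {c' : Mat n} {t : ℝ} (h : HasDerivAt c c' t) :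
    HasDerivAt (fun t => T (c t)) (T c') t :=
  T.toContinuousLinearMap.hasFDerivAt.comp_hasDerivAt t h

theorem hasDerivAt_conj_sq (Z A : Mat n) :
    HasDerivAt (fun t : ℝ => (exp (t • Z) * A * exp (t • (-Z)) *
      (exp (t • Z) * A * exp (t • (-Z)))ᵀ).trace) (2 * (Z * (A * Aᵀ - Aᵀ * A)).trace) 0 := by
  have h1 := ((hasDerivAt_exp_smul_const (𝕂 := ℝ) Z 0).mul_const A).mul
    (hasDerivAt_exp_smul_const (𝕂 := ℝ) (-Z) 0)
  have h2 : HasDerivAt (fun t : ℝ => exp (t • Z) * A * exp (t • (-Z))) (Z * A - A * Z) 0 := by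
    refine HasDerivAt.congr_deriv h1 ?_
    simp only [zero_smul, exp_zero, one_mul, mul_one, mul_neg, sub_eq_add_neg]
  have h3 := hasDerivAt_lin (Matrix.traceLinearMap (Fin n) ℝ ℝ)
    (h2.mul (hasDerivAt_lin (Matrix.transposeLinearEquiv (Fin n) (Fin n) ℝ ℝ).toLinearMap h2))
  refine HasDerivAt.congr_deriv h3 ?_
  change ((Z * A - A * Z) * (exp ((0 : ℝ) • Z) * A * exp ((0 : ℝ) • (-Z)))ᵀ +
    exp ((0 : ℝ) • Z) * A * exp ((0 : ℝ) • (-Z)) * (Z * A - A * Z)ᵀ).trace = _
  simp only [zero_smul, exp_zero, one_mul, mul_one]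
  rw [Matrix.trace_add, ← Matrix.trace_transpose (A * _), Matrix.transpose_mul,
    Matrix.transpose_transpose, ← two_mul, sub_mul, mul_sub, Matrix.trace_sub, Matrix.trace_sub,
    Matrix.trace_mul_cycle A Z Aᵀ, Matrix.trace_mul_comm (Aᵀ * A) Z, mul_assoc]

/-- Conjugation as an algebra homomorphism. -/
def conjAlg {g g' : Mat n} (h : g * g' = 1) (h' : g' * g = 1) : Mat n →ₐ[ℝ] Mat n :=
  AlgHom.ofLinearMap (LinearMap.mulLeftRight ℝ (g, g'))
    (by rw [LinearMap.mulLeftRight_apply, mul_one, h])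
    (fun A B => by
      simp only [LinearMap.mulLeftRight_apply, mul_assoc]
      rw [← mul_assoc g' g, h', one_mul])

theorem conjAlg_apply {g g' : Mat n} (h : g * g' = 1) (h' : g' * g = 1) (A : Mat n) :
    conjAlg h h' A = g * A * g' := LinearMap.mulLeftRight_apply _ _ _

theorem det_conjAlg {g g' : Mat n} (h : g * g' = 1) (h' : g' * g = 1) (A : Mat n) :
    (conjAlg h h' A).det = A.det := by
  rw [conjAlg_apply, Matrix.det_mul, Matrix.det_mul, mul_right_comm, ← Matrix.det_mul, h,
    Matrix.det_one, one_mul]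

theorem isCompact_trace_le (R : ℝ) : IsCompact {M : Mat n | (M * Mᵀ).trace ≤ R} := by
  have hK : IsCompact (Set.pi univ fun _ : Fin n => Set.pi univ fun _ : Fin n =>
      Icc (-(R + 1)) (R + 1)) :=
    isCompact_univ_pi fun _ => isCompact_univ_pi fun _ => isCompact_Icc
  refine hK.of_isClosed_subset (isClosed_le ?_ continuous_const) fun M hM i _ j _ => ?_
  · exact (continuous_id.mul continuous_id.matrix_transpose).matrix_trace
  · have := (sq_le_trace_mul_transpose M i j).trans hM
    constructor <;> nlinarith [sq_nonneg (M i j - 1), sq_nonneg (M i j + 1)]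

theorem exists_finset_aeval {V : Type*} [AddCommGroup V] [Module ℝ V] [Module.Finite ℝ V]
    {f : End ℝ V} (h : ⨆ μ, f.eigenspace μ = ⊤) :
    ∃ s : Finset ℝ, aeval f (∏ μ ∈ s, (X - C μ)) = 0 := by
  refine ⟨(minpoly ℝ f).roots.toFinset, ?_⟩
  rw [← LinearMap.ker_eq_top, eq_top_iff, ← h]
  refine iSup_le fun μ v hv => ?_
  rcases eq_or_ne v 0 with rfl | hv0
  · exact zero_mem _
  have hv' : f.HasEigenvector μ v := ⟨hv, hv0⟩
  have hμ : μ ∈ (minpoly ℝ f).roots.toFinset := by
    rw [Multiset.mem_toFinset, mem_roots (minpoly.ne_zero (Algebra.IsIntegral.isIntegral f))]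
    exact End.hasEigenvalue_iff_isRoot.1 (End.hasEigenvalue_of_hasEigenvector hv')
  rw [LinearMap.mem_ker, End.aeval_apply_of_hasEigenvector hv', eval_prod,
    Finset.prod_eq_zero hμ (by simp), zero_smul]

variable {L : Type*} [LieRing L] [LieAlgebra ℝ L] (b : Basis (Fin n) ℝ L)

theorem toLin_exp_adM_mem (I : LieIdeal ℝ L) (Z : L) {X : L} (hX : X ∈ I) :
    Matrix.toLin b b (exp (adM b Z)) X ∈ I := by
  let S : Subalgebra ℝ (Mat n) :=
    { carrier := {M | ∀ X ∈ I, Matrix.toLin b b M X ∈ I}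
      mul_mem' := fun {M M'} hM hM' X hX => by
        rw [toLin_mul_app]
        exact hM _ (hM' X hX)
      add_mem' := fun {M M'} hM hM' X hX => by
        rw [map_add, LinearMap.add_apply]
        exact add_mem (hM X hX) (hM' X hX)
      algebraMap_mem' := fun r X hX => by
        rw [Algebra.algebraMap_eq_smul_one, map_smul, Matrix.toLin_one, LinearMap.smul_apply]
        exact I.smul_mem r hX }
  have hS : IsClosed (S : Set (Mat n)) := S.toSubmodule.closed_of_finiteDimensional
  refine exp_mem (R := ℝ) hS (x := adM b Z) (fun X hX => ?_) X hX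
  rw [toLin_adM]
  exact I.lie_mem hX

theorem conj_exp_adM_mem (I : LieIdeal ℝ L) (Z : L) (t : ℝ) {A : Mat n}
    (hA : A ∈ I.toSubmodule.map (adM b)) :
    exp (t • adM b Z) * A * exp (t • (-adM b Z)) ∈ I.toSubmodule.map (adM b) := by
  obtain ⟨X, hX, rfl⟩ := hA
  rw [((mem_Aut_iff b).1 (exp_smul_adM_mem b Z t)).2, mul_assoc, exp_smul_mul_exp_neg, mul_one,
    ← map_smul]
  exact Submodule.mem_map_of_mem (toLin_exp_adM_mem b I _ hX)

theorem aeval_adM (X : L) (P : ℝ[X]) :
    aeval (adM b X) P = LinearMap.toMatrixAlgEquiv b (aeval (LieAlgebra.ad ℝ L X) P) :=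
  aeval_algHom_apply (LinearMap.toMatrixAlgEquiv b) _ P

/-- (RANK) -/
theorem exists_symm_pair [LieAlgebra.IsKilling ℝ L] (htr : ∀ X, ∃ Y, (adM b X)ᵀ = adM b Y)
    (I : LieIdeal ℝ L) {X Y : L} (hX : X ∈ I) (hY : Y ∈ I) (hXY : ⁅X, Y⁆ = 0)
    (hli : LinearIndependent ℝ ![X, Y])
    (dX : ⨆ μ, End.eigenspace (LieAlgebra.ad ℝ L X) μ = ⊤)
    (dY : ⨆ μ, End.eigenspace (LieAlgebra.ad ℝ L Y) μ = ⊤) :
    ∃ X' ∈ I, ∃ Y' ∈ I, (adM b X').IsSymm ∧ (adM b Y').IsSymm ∧ ⁅X', Y'⁆ = 0 ∧
      LinearIndependent ℝ ![X', Y'] := by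
  haveI := Module.Finite.of_basis b
  obtain ⟨s, hs⟩ := exists_finset_aeval dX
  obtain ⟨s', hs'⟩ := exists_finset_aeval dY
  set P : ℝ[X] := ∏ μ ∈ s, (Polynomial.X - C μ) with hP
  set Q : ℝ[X] := ∏ μ ∈ s', (Polynomial.X - C μ) with hQ
  set J := I.toSubmodule.map (adM b) with hJ
  let S : Set (Mat n × Mat n) := {p | p.1 ∈ J ∧ p.2 ∈ J ∧ p.1 * p.2 = p.2 * p.1 ∧
    aeval p.1 P = 0 ∧ aeval p.2 Q = 0 ∧ ∀ a c r : ℝ,
      (algebraMap ℝ (Mat n) r - (a • p.1 + c • p.2)).det =
        (algebraMap ℝ (Mat n) r - (a • adM b X + c • adM b Y)).det}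
  let f : Mat n × Mat n → ℝ := fun p => (p.1 * p.1ᵀ).trace + (p.2 * p.2ᵀ).trace
  have hf : Continuous f :=
    (continuous_fst.mul continuous_fst.matrix_transpose).matrix_trace.add
      (continuous_snd.mul continuous_snd.matrix_transpose).matrix_trace
  have hJc : IsClosed (J : Set (Mat n)) := J.closed_of_finiteDimensional
  have hS : IsClosed S := by
    simp only [S, ofPred_and, ofPred_forall]
    refine (hJc.preimage continuous_fst).inter ((hJc.preimage continuous_snd).inter
      ((isClosed_eq (continuous_fst.mul continuous_snd) (continuous_snd.mul continuous_fst)).inter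
      ((isClosed_eq (P.continuous_aeval.comp continuous_fst) continuous_const).inter
      ((isClosed_eq (Q.continuous_aeval.comp continuous_snd) continuous_const).inter
      (isClosed_iInter fun a => isClosed_iInter fun c => isClosed_iInter fun r =>
        isClosed_eq ?_ continuous_const)))))
    exact (continuous_const.sub ((continuous_fst.const_smul a).add
      (continuous_snd.const_smul c))).matrix_det
  have h0 : (adM b X, adM b Y) ∈ S := by
    refine ⟨Submodule.mem_map_of_mem hX, Submodule.mem_map_of_mem hY, ?_, ?_, ?_,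
      fun _ _ _ => rfl⟩
    · rw [← sub_eq_zero, ← adM_lie, hXY, map_zero]
    · rw [aeval_adM, hs, map_zero]
    · rw [aeval_adM, hs', map_zero]
  set R := f (adM b X, adM b Y) with hR
  have hK : IsCompact (S ∩ {p | f p ≤ R}) := by
    refine ((isCompact_trace_le R).prod (isCompact_trace_le R)).of_isClosed_subset
      (hS.inter (isClosed_le hf continuous_const)) fun p hp => ?_
    have h1 : (p.1 * p.1ᵀ).trace + (p.2 * p.2ᵀ).trace ≤ R := hp.2
    have h2 := trace_mul_transpose_nonneg p.1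
    have h3 := trace_mul_transpose_nonneg p.2
    exact ⟨show _ ≤ R by linarith, show _ ≤ R by linarith⟩
  obtain ⟨⟨A, B⟩, ⟨hp, hpR⟩, hmin⟩ := hK.exists_isMinOn ⟨_, h0, le_refl R⟩ hf.continuousOn
  have hmin' : ∀ q ∈ S, f (A, B) ≤ f q := fun q hq => by
    rcases le_total (f q) R with h | h
    · exact hmin ⟨hq, h⟩
    · exact le_trans hpR h
  obtain ⟨hA, hB, hAB, hAP, hBQ, hdet⟩ := hp
  simp only at hA hB hAB hAP hBQ hdet
  have hcrit : ∀ Z : L, (adM b Z * (A * Aᵀ - Aᵀ * A + (B * Bᵀ - Bᵀ * B))).trace = 0 := by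
    intro Z
    have hd := (hasDerivAt_conj_sq (adM b Z) A).add (hasDerivAt_conj_sq (adM b Z) B)
    have hm := IsLocalMin.hasDerivAt_eq_zero (Eventually.of_forall fun t => ?_) hd
    · rw [mul_add, Matrix.trace_add]
      linarith
    · simp only [Pi.add_apply, zero_smul, exp_zero, one_mul, mul_one]
      have e := exp_smul_mul_exp_neg (adM b Z) t
      have e' := exp_neg_mul_exp_smul (adM b Z) t
      refine hmin' (_, _) ⟨conj_exp_adM_mem b I Z t hA, conj_exp_adM_mem b I Z t hB, ?_, ?_, ?_,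
        fun a c r => ?_⟩
      · simp only [← conjAlg_apply e e', ← map_mul, hAB]
      · simp only [← conjAlg_apply e e']
        rw [aeval_algHom_apply, hAP, map_zero]
      · simp only [← conjAlg_apply e e']
        rw [aeval_algHom_apply, hBQ, map_zero]
      · simp only [← conjAlg_apply e e']
        rw [← hdet, ← det_conjAlg e e' (_ - (a • A + c • B)), map_sub, map_add, map_smul,
          map_smul, AlgHom.commutes]
  obtain ⟨X', hX', rfl⟩ := hA
  obtain ⟨Y', hY', rfl⟩ := hB
  obtain ⟨X'', eX⟩ := htr X'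
  obtain ⟨Y'', eY⟩ := htr Y'
  have hN : adM b X' * (adM b X')ᵀ - (adM b X')ᵀ * adM b X' +
      (adM b Y' * (adM b Y')ᵀ - (adM b Y')ᵀ * adM b Y') = 0 := by
    refine eq_zero_of_trace_mul_transpose (le_of_eq ?_)
    have := hcrit (⁅X', X''⁆ + ⁅Y', Y''⁆)
    rw [map_add, adM_lie, adM_lie, ← eX, ← eY] at this
    simpa only [Matrix.transpose_add, Matrix.transpose_sub, Matrix.transpose_mul,
      Matrix.transpose_transpose] using this
  refine ⟨X', hX', Y', hY', isSymm_of_normal (normal_of_critical hAB hN) s hAP,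
    isSymm_of_normal (normal_of_critical hAB.symm (by rwa [add_comm])) s' hBQ,
    adM_injective b (by rw [adM_lie, hAB, sub_self, map_zero]), ?_⟩
  rw [LinearIndependent.pair_iff] at hli ⊢
  intro a c hac
  refine hli a c (adM_injective b ?_)
  have h1 : (a • adM b X + c • adM b Y).charpoly = (0 : Mat n).charpoly := by
    refine Polynomial.funext fun r => ?_
    have := hdet a c r
    rw [← map_smul, ← map_smul, ← map_add, hac, map_zero] at this
    rw [Matrix.eval_charpoly, Matrix.eval_charpoly]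
    exact this.symm
  have h2 : IsNilpotent (a • adM b X + c • adM b Y) := by
    have := Matrix.aeval_self_charpoly (a • adM b X + c • adM b Y)
    rw [h1, Matrix.charpoly_zero, map_pow, aeval_X] at this
    exact ⟨_, this⟩
  have sX : End.IsSemisimple (LieAlgebra.ad ℝ L X) := End.isSemisimple_of_squarefree_aeval_eq_zero
    (separable_prod_X_sub_C_iff'.2 fun _ _ _ _ h => h).squarefree hs
  have sY : End.IsSemisimple (LieAlgebra.ad ℝ L Y) := End.isSemisimple_of_squarefree_aeval_eq_zero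
    (separable_prod_X_sub_C_iff'.2 fun _ _ _ _ h => h).squarefree hs'
  have hc : Commute (LieAlgebra.ad ℝ L X) (LieAlgebra.ad ℝ L Y) := by
    rw [commute_iff_lie_eq, ← LieHom.map_lie, hXY, map_zero]
  have h3 := End.IsSemisimple.add_of_commute ((hc.smul_left a).smul_right c)
    (End.IsSemisimple_smul a sX) (End.IsSemisimple_smul c sY)
  have h4 : IsNilpotent (a • LieAlgebra.ad ℝ L X + c • LieAlgebra.ad ℝ L Y) := by
    rw [← IsNilpotent.map_iff (LinearMap.toMatrixAlgEquiv b).injective, map_add, map_smul,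
      map_smul]
    exact h2
  rw [adM_apply, map_add, map_smul, map_smul, End.eq_zero_of_isNilpotent_isSemisimple h4 h3,
    map_zero, map_zero]

end Pool.Agent.P.MP_d483fb_an.Z

end

end

section

/-!
A continuous homomorphism with discrete kernel onto an open group of automorphisms is a covering
map onto a closed set of matrices; one parameter groups in the image of a closed subgroup.
-/

open scoped Matrix Matrix.Norms.Operator Topology
open NormedSpace Set Module Filter

noncomputable section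

namespace Pool.Agent.P.MP_d483fb_an.Z

variable {G : Type} [Group G] [TopologicalSpace G] [IsTopologicalGroup G]
  {L : Type*} [LieRing L] [LieAlgebra ℝ L] {n : ℕ}

theorem exists_inv_mem_Aut (b : Basis (Fin n) ℝ L) {A : Mat n} (hA : A ∈ Aut b) :
    ∃ B ∈ Aut b, B * A = 1 := by
  obtain ⟨φ, rfl⟩ := hA
  refine ⟨_, ⟨φ.symm, rfl⟩, ?_⟩
  rw [← LinearMap.toMatrix_comp b b b, ← LinearMap.toMatrix_id b]
  congr 1
  ext x
  exact φ.symm_apply_apply x

omit [TopologicalSpace G] [IsTopologicalGroup G] in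
theorem isClosed_range_of_Aut [LieAlgebra.IsKilling ℝ L] (b : Basis (Fin n) ℝ L)
    (ρ : G →* Mat n) (hA : range ρ ⊆ Aut b) (hexp : ∀ X, exp (adM b X) ∈ range ρ) :
    IsClosed (range ρ) := by
  refine isClosed_of_closure_subset fun A hcl => ?_
  have hAA : A ∈ Aut b := (isClosed_Aut b).closure_subset (closure_mono hA hcl)
  obtain ⟨B, hB, hBA⟩ := exists_inv_mem_Aut b hAA
  have h1 : range ρ ∈ 𝓝[Aut b] (1 : Mat n) := by
    refine mem_of_superset (nhdsWithin_Aut_le b (image_mem_map self_mem_nhdsWithin)) ?_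
    rintro _ ⟨_, ⟨X, rfl⟩, rfl⟩
    exact hexp X
  have h2 : Tendsto (fun C => B * C) (𝓝[range ρ] A) (𝓝[Aut b] 1) := by
    refine tendsto_nhdsWithin_iff.2 ⟨?_, ?_⟩
    · rw [← hBA]
      exact ((continuous_const.mul continuous_id).tendsto A).mono_left nhdsWithin_le_nhds
    · filter_upwards [self_mem_nhdsWithin] with C hC
      exact mul_mem_Aut b hB (hA hC)
  have : (𝓝[range ρ] A).NeBot := mem_closure_iff_nhdsWithin_neBot.1 hcl
  obtain ⟨C, ⟨g, hg⟩, g', rfl⟩ := ((h2.eventually h1).and self_mem_nhdsWithin).exists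
  refine ⟨g' * g⁻¹, ?_⟩
  have h3 : B * ρ (g' * g⁻¹) = 1 := by
    rw [map_mul, ← mul_assoc, ← hg, ← map_mul, mul_inv_cancel, map_one]
  rw [← one_mul (ρ (g' * g⁻¹)), ← mul_eq_one_comm.1 hBA, mul_assoc, h3, mul_one]

theorem discreteTopology_ker (ρ : G →* Mat n) (hd : ∀ᶠ x in 𝓝 (1 : G), ρ x = 1 → x = 1) :
    DiscreteTopology ρ.ker := by
  refine discreteTopology_of_isOpen_singleton_one (isOpen_iff_mem_nhds.2 ?_)
  rintro _ rfl
  have h : Tendsto (Subtype.val : ρ.ker → G) (𝓝 1) (𝓝 1) := continuous_subtype_val.tendsto 1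
  filter_upwards [h.eventually hd] with x hx
  exact Subtype.ext (hx x.2)

theorem isCoveringMap_of_isClosed [SigmaCompactSpace G] (ρ : G →* Mat n) (hρ : Continuous ρ)
    (hc : IsClosed (range ρ)) (hd : ∀ᶠ x in 𝓝 (1 : G), ρ x = 1 → x = 1) :
    IsCoveringMap (rangeFactorization ρ) := by
  let _ : MulAction G (range ρ) :=
    { smul := fun g x => ⟨ρ g * x.1, by
        obtain ⟨g', hg'⟩ := x.2
        exact ⟨g * g', by rw [map_mul, hg']⟩⟩
      one_smul := fun x => Subtype.ext (by
        change ρ 1 * x.1 = x.1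
        rw [map_one, one_mul])
      mul_smul := fun g h x => Subtype.ext (by
        change ρ (g * h) * x.1 = ρ g * (ρ h * x.1)
        rw [map_mul, mul_assoc]) }
  have : ContinuousSMul G (range ρ) :=
    ⟨((hρ.comp continuous_fst).mul (continuous_subtype_val.comp continuous_snd)).subtype_mk _⟩
  have : MulAction.IsPretransitive G (range ρ) := ⟨by
    rintro ⟨_, g, rfl⟩ ⟨_, g', rfl⟩
    refine ⟨g' * g⁻¹, Subtype.ext ?_⟩
    change ρ (g' * g⁻¹) * ρ g = ρ g'
    rw [← map_mul, inv_mul_cancel_right]⟩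
  have : LocallyCompactSpace (Mat n) := inferInstanceAs (LocallyCompactSpace (Fin n → Fin n → ℝ))
  have : LocallyCompactSpace (range ρ) := hc.locallyCompactSpace
  have h1 := isOpenMap_smul_of_sigmaCompact (G := G) (⟨1, 1, map_one ρ⟩ : range ρ)
  have h2 : (fun g : G => g • (⟨1, 1, map_one ρ⟩ : range ρ)) = rangeFactorization ρ := by
    funext g
    exact Subtype.ext (mul_one (ρ g))
  rw [h2] at h1
  have h3 := h1.isQuotientMap hρ.rangeFactorization rangeFactorization_surjective
  have h4 := discreteTopology_ker ρ hd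
  refine (h3.isQuotientCoveringMap_of_subgroup ρ.ker ⟨h4⟩ fun {x y} => ?_).isCoveringMap
  rw [Subtype.ext_iff, MonoidHom.mem_ker]
  change ρ x = ρ y ↔ _
  refine ⟨fun h => by rw [map_mul, ← h, ← map_mul, mul_inv_cancel, map_one], fun h => ?_⟩
  rw [← one_mul (ρ x), ← h, ← map_mul, inv_mul_cancel_right]

theorem mem_of_mem_image [SecondCountableTopology G] (ρ : G →* Mat n)
    (hd : ∀ᶠ x in 𝓝 (1 : G), ρ x = 1 → x = 1) (H : Subgroup G) (hH : IsClosed (H : Set G))
    (γ : ℝ → G) (hγ : Continuous γ) (hadd : ∀ s t, γ (s + t) = γ s * γ t)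
    (h : ∀ t, ρ (γ t) ∈ ρ '' H) (t : ℝ) : γ t ∈ H := by
  have := discreteTopology_ker ρ hd
  have : Countable ρ.ker := TopologicalSpace.separableSpace_iff_countable.1 inferInstance
  have h0 : γ 0 = 1 := by
    have h1 := hadd 0 0
    rw [add_zero] at h1
    exact mul_eq_left.1 h1.symm
  let S : AddSubgroup ℝ :=
    { carrier := {t | γ t ∈ H}
      zero_mem' := by
        change γ 0 ∈ H
        rw [h0]
        exact H.one_mem
      add_mem' := fun {s t} hs ht => by
        change γ (s + t) ∈ H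
        rw [hadd]
        exact H.mul_mem hs ht
      neg_mem' := fun {s} hs => by
        change γ (-s) ∈ H
        have h1 : γ (-s) = (γ s)⁻¹ := by
          rw [eq_inv_iff_mul_eq_one, ← hadd, neg_add_cancel, h0]
        rw [h1]
        exact H.inv_mem hs }
  obtain ⟨z, s, hs⟩ := nonempty_interior_of_iUnion_of_closed
    (f := fun z : ρ.ker => {t | z.1 * γ t ∈ H})
    (fun z => hH.preimage (continuous_const.mul hγ)) (by
      rw [eq_univ_iff_forall]
      intro t
      obtain ⟨x, hx, hxt⟩ := h t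
      refine mem_iUnion.2 ⟨⟨x * (γ t)⁻¹, ?_⟩, ?_⟩
      · rw [MonoidHom.mem_ker, map_mul, hxt, ← map_mul, mul_inv_cancel, map_one]
      · change x * (γ t)⁻¹ * γ t ∈ H
        rwa [inv_mul_cancel_right])
  have h2 : (S : Set ℝ) ∈ 𝓝 (0 : ℝ) := by
    have h3 : Tendsto (fun u => s + u) (𝓝 0) (𝓝 s) := by
      simpa using (continuous_const.add continuous_id).tendsto (0 : ℝ) (f := fun u => s + u)
    filter_upwards [h3 (mem_interior_iff_mem_nhds.1 hs)] with u hu
    have h4 : z.1 * γ s ∈ H := interior_subset (s := {t | z.1 * γ t ∈ H}) hs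
    have h5 : z.1 * γ (s + u) ∈ H := hu
    rw [hadd, ← mul_assoc] at h5
    exact (H.mul_mem_cancel_left h4).1 h5
  have ho : IsOpen (S : Set ℝ) := AddSubgroup.isOpen_of_mem_nhds _ h2
  have hc : IsClopen (S : Set ℝ) := ⟨AddSubgroup.isClosed_of_isOpen _ ho, ho⟩
  have h6 : t ∈ (S : Set ℝ) := by
    rw [hc.eq_univ ⟨0, S.zero_mem⟩]
    exact mem_univ t
  exact h6

end Pool.Agent.P.MP_d483fb_an.Z

end

end
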