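import Pool.Agent.P.MP_d483fb_an.M.A41
import Pool.Agent.P.MP_d483fb_an.M.A42

section

/-!
Compact monoids of orthogonal matrices are groups; the condition `m < d(G)`; second countability
of connected Lie groups.
-/

open scoped Matrix TensorProduct Topology Pointwise
open Set Module

attribute [local instance 100] LieRing.ofAssociativeRing

noncomputable section

namespace Pool.Agent.P.MP_d483fb_an.Z

theorem transpose_mem_of_isCompact {N : ℕ} {K : Submonoid (Mat N)}
    (hK : IsCompact (K : Set (Mat N))) (ho : ∀ k ∈ K, k * kᵀ = 1) {x : Mat N} (hx : x ∈ K) :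
    xᵀ ∈ K := by
  obtain ⟨m, ⟨c, hc, rfl⟩, hm⟩ := exists_idempotent_in_compact_subsemigroup
    (M := Mat N) (fun r => continuous_id.mul continuous_const) ((fun c => x * c) '' (K : Set (Mat N)))
    ⟨x * 1, 1, K.one_mem, rfl⟩ (hK.image (continuous_const.mul continuous_id)) (by
      rintro _ ⟨c, hc, rfl⟩ _ ⟨c', hc', rfl⟩
      exact ⟨c * (x * c'), K.mul_mem hc (K.mul_mem hx hc'), (mul_assoc _ _ _).symm⟩)
  have h1 : x * c * (x * c)ᵀ = 1 := ho _ (K.mul_mem hx hc)
  have h2 : x * c = 1 := by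
    have h3 : x * c * (x * c) * (x * c)ᵀ = x * c * (x * c)ᵀ := congrArg (· * (x * c)ᵀ) hm
    rwa [mul_assoc (x * c), h1, mul_one] at h3
  have h4 : xᵀ * x = 1 := mul_eq_one_comm.1 (ho x hx)
  have h5 : xᵀ = c := by rw [← mul_one xᵀ, ← h2, ← mul_assoc, h4, one_mul]
  rwa [h5]

/-- A compact monoid of orthogonal matrices, as a subgroup of the orthogonal group. -/
def toO {N : ℕ} (K : Submonoid (Mat N)) (hK : IsCompact (K : Set (Mat N)))
    (ho : ∀ k ∈ K, k * kᵀ = 1) : Subgroup (Matrix.orthogonalGroup (Fin N) ℝ) where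
  carrier := {x | x.1 ∈ K}
  one_mem' := K.one_mem
  mul_mem' hx hy := K.mul_mem hx hy
  inv_mem' {x} hx := by
    have h : (x⁻¹).1 = x.1ᵀ := by
      rw [← Matrix.conjTranspose_eq_transpose_of_trivial]
      rfl
    change (x⁻¹).1 ∈ K
    rw [h]
    exact transpose_mem_of_isCompact hK ho hx

theorem image_toO {N : ℕ} (K : Submonoid (Mat N)) (hK : IsCompact (K : Set (Mat N)))
    (ho : ∀ k ∈ K, k * kᵀ = 1) :
    Subtype.val '' (toO K hK ho : Set (Matrix.orthogonalGroup (Fin N) ℝ)) = K := by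
  ext x
  constructor
  · rintro ⟨y, hy, rfl⟩
    exact hy
  · intro hx
    exact ⟨⟨x, (Matrix.mem_orthogonalGroup_iff _ _).2 (ho x hx)⟩, hx, rfl⟩

theorem lieO_toO {N : ℕ} (K : Submonoid (Mat N)) (hK : IsCompact (K : Set (Mat N)))
    (ho : ∀ k ∈ K, k * kᵀ = 1) : lieO (toO K hK ho) = lieAlg (K : Set (Mat N)) := by
  rw [← image_toO K hK ho]
  rfl

theorem ltD_of_lt_dNum {G : Type} [Group G] [TopologicalSpace G] {n : ℕ} (D : HigherRank G n)
    {L : Type} [LieRing L] [LieAlgebra ℝ L] (e : L ≃ₗ⁅ℝ⁆ lieAlg (range D.ρ)) {m : ℕ}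
    (hm : (m : ℕ∞) < dNum L) : D.ltD m := by
  rintro N K C hK hc ho hC hlt ⟨I, hI, ⟨f⟩⟩
  have hC' : IsCompact (C : Set (Mat N)) := hK.of_isClosed_subset hC hlt.le
  have ho' : ∀ k ∈ C, k * kᵀ = 1 := fun k hk => ho k (hlt.le hk)
  have hv : Topology.IsInducing
      (Subtype.val : Matrix.orthogonalGroup (Fin N) ℝ → Mat N) := Topology.IsInducing.subtypeVal
  have h1 : IsCompactForm L (toO K hK ho) := by
    refine ⟨hv.isCompact_iff.2 (by rwa [image_toO]), ⟨⟨1, Subgroup.one_mem _⟩,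
      hv.isPreconnected_image.1 (by rw [image_toO]; exact hc.2)⟩,
      idealIso (cxEquiv e) I, ((idealIso (cxEquiv e)).isAtom_iff I).2 hI, ?_⟩
    rw [lieO_toO]
    exact ⟨f.trans (idealEquiv (cxEquiv e) I).symm⟩
  have h2 : IsClosed (toO C hC' ho' : Set (Matrix.orthogonalGroup (Fin N) ℝ)) :=
    hC.preimage continuous_subtype_val
  have h3 : toO C hC' ho' < toO K hK ho := by
    refine lt_of_le_of_ne (fun x hx => hlt.le hx) fun h => hlt.ne ?_
    apply SetLike.coe_injective
    rw [← image_toO C hC' ho', h, image_toO]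
  have h4 : dNum L ≤ ((dimO (toO K hK ho) - dimO (toO C hC' ho') : ℕ) : ℕ∞) :=
    iInf_le_of_le N (iInf_le_of_le _ (iInf_le_of_le h1 (iInf_le_of_le _ (iInf_le_of_le h2
      (iInf_le_of_le h3 le_rfl)))))
  have h5 := ENat.natCast_lt_natCast.1 (hm.trans_le h4)
  rwa [dimO, dimO, lieO_toO, lieO_toO] at h5

theorem sigmaCompact_of_connected (G : Type*) [Group G] [TopologicalSpace G]
    [IsTopologicalGroup G] [ConnectedSpace G] [LocallyCompactSpace G] : SigmaCompactSpace G := by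
  obtain ⟨K, hK, h1⟩ := exists_compact_mem_nhds (1 : G)
  have hS : IsCompact (K ∪ K⁻¹) := hK.union hK.inv
  have hp : ∀ j : ℕ, IsCompact ((K ∪ K⁻¹) ^ j) := by
    intro j
    induction j with
    | zero =>
      rw [pow_zero]
      exact isCompact_singleton
    | succ j ih =>
      rw [pow_succ]
      exact ih.mul hS
  have htop : Subgroup.closure K = ⊤ := by
    have ho : IsOpen (Subgroup.closure K : Set G) :=
      Subgroup.isOpen_of_mem_nhds _ (Filter.mem_of_superset h1 Subgroup.subset_closure)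
    have hc : IsClopen (Subgroup.closure K : Set G) := ⟨Subgroup.isClosed_of_isOpen _ ho, ho⟩
    exact SetLike.coe_injective (hc.eq_univ ⟨1, Subgroup.one_mem _⟩)
  refine ⟨isSigmaCompact_univ_iff.2 (SigmaCompactSpace.of_countable
    (range fun j : ℕ => (K ∪ K⁻¹) ^ j) (countable_range _) ?_ ?_)⟩
  · rintro _ ⟨j, rfl⟩
    exact hp j
  · rw [eq_univ_iff_forall]
    intro g
    have hg : g ∈ (Subgroup.closure K).toSubmonoid := by
      rw [htop]
      exact Subgroup.mem_top g
    rw [Subgroup.closure_toSubmonoid] at hg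
    induction hg using Submonoid.closure_induction with
    | mem x hx => exact ⟨_, ⟨1, rfl⟩, by simpa only [pow_one] using hx⟩
    | one => exact ⟨_, ⟨0, rfl⟩, by simpa only [pow_zero] using Set.mem_one.2 rfl⟩
    | mul x y _ _ hx hy =>
      obtain ⟨_, ⟨i, rfl⟩, hi⟩ := hx
      obtain ⟨_, ⟨j, rfl⟩, hj⟩ := hy
      exact ⟨_, ⟨i + j, rfl⟩, by simpa only [pow_add] using Set.mul_mem_mul hi hj⟩

end Pool.Agent.P.MP_d483fb_an.Z

end

end

section

/-!
The structure `HigherRank` from an adjoint representation.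
-/

open scoped Matrix Matrix.Norms.Operator TensorProduct Topology
open NormedSpace Set Module Filter

attribute [local instance 100] LieRing.ofAssociativeRing

noncomputable section

namespace Pool.Agent.P.MP_d483fb_an.Z

variable {G : Type} [Group G] [TopologicalSpace G] [IsTopologicalGroup G] [ConnectedSpace G]
  {L : Type} [LieRing L] [LieAlgebra ℝ L] {n : ℕ} (b : Basis (Fin n) ℝ L)

theorem exists_transpose [LieAlgebra.IsKilling ℝ L] (htr : ∀ X, ∃ Y, (adM b X)ᵀ = adM b Y)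
    (ρ : G →* Mat n) (hρ : Continuous ρ) (hA : range ρ ⊆ Aut b)
    (hexp : ∀ X, exp (adM b X) ∈ range ρ) (g : G) : ∃ g', ρ g' = (ρ g)ᵀ := by
  let H : Subgroup G :=
    { carrier := {g | ∃ g', ρ g' = (ρ g)ᵀ}
      one_mem' := ⟨1, by rw [map_one, Matrix.transpose_one]⟩
      mul_mem' := by
        rintro x y ⟨x', hx⟩ ⟨y', hy⟩
        exact ⟨y' * x', by rw [map_mul, map_mul, Matrix.transpose_mul, hx, hy]⟩
      inv_mem' := by
        rintro x ⟨x', hx⟩
        refine ⟨x'⁻¹, ?_⟩
        have h1 : ρ x'⁻¹ * ρ x' = 1 := by rw [← map_mul, inv_mul_cancel, map_one]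
        have h2 : ρ x' * (ρ x⁻¹)ᵀ = 1 := by
          rw [hx, ← Matrix.transpose_mul, ← map_mul, inv_mul_cancel, map_one,
            Matrix.transpose_one]
        rw [← mul_one (ρ x'⁻¹), ← h2, ← mul_assoc, h1, one_mul] }
  have h1 : Tendsto ρ (𝓝 1) (𝓝[Aut b] 1) := by
    refine tendsto_nhdsWithin_iff.2 ⟨?_, Eventually.of_forall fun x => hA ⟨x, rfl⟩⟩
    have := hρ.tendsto 1
    rwa [map_one] at this
  have h2 : exp '' range (adM b) ∈ 𝓝[Aut b] (1 : Mat n) :=
    nhdsWithin_Aut_le b (image_mem_map self_mem_nhdsWithin)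
  have h3 : (H : Set G) ∈ 𝓝 1 := by
    filter_upwards [h1 h2] with x hx
    obtain ⟨_, ⟨X, rfl⟩, hX⟩ := hx
    obtain ⟨Y, hY⟩ := htr X
    obtain ⟨y, hy⟩ := hexp Y
    exact ⟨y, by rw [hy, ← hY, Matrix.exp_transpose, hX]⟩
  have ho : IsOpen (H : Set G) := Subgroup.isOpen_of_mem_nhds _ h3
  have hc : IsClopen (H : Set G) := ⟨Subgroup.isClosed_of_isOpen _ ho, ho⟩
  have h4 : g ∈ (H : Set G) := by
    rw [hc.eq_univ ⟨1, H.one_mem⟩]
    exact mem_univ g
  exact h4

theorem exists_higherRank_of [LieAlgebra.IsSemisimple ℝ L]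
    (hr : ∀ I : LieIdeal ℝ L, IsAtom I → 2 ≤ realRank I)
    (htr : ∀ X, ∃ Y, (adM b X)ᵀ = adM b Y) (ρ : G →* Mat n) (hc : IsClosed (range ρ))
    (hcov : IsCoveringMap (rangeFactorization ρ)) (hA : range ρ ⊆ Aut b)
    (hexp : ∀ X, exp (adM b X) ∈ range ρ) :
    ∃ D : HigherRank G n, D.ρ = ρ ∧ D.dim ⊤ = n ∧ ∀ m : ℕ, (m : ℕ∞) < dNum L → D.ltD m := by
  have := Module.Finite.of_basis b
  have : LieAlgebra.IsKilling ℝ L := inferInstance
  have hρ : Continuous ρ := continuous_subtype_val.comp hcov.continuous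
  obtain ⟨e, he⟩ := exists_adEquiv b (lieSet_eq_range b hA hexp)
  have : LieAlgebra.IsKilling ℝ (lieAlg (range ρ)) := LieAlgebra.isKilling_of_equiv e
  let D : HigherRank G n :=
    { ρ := ρ
      closed := hc
      cov := hcov
      tr := exists_transpose b htr ρ hρ hA hexp
      ss := inferInstance
      rank := by
        intro I hI
        obtain ⟨X, hX, Y, hY, h1, h2, h3, h4⟩ :=
          exists_pair_of_ideal (idealIso e I) (hr _ (((idealIso e).isAtom_iff I).2 hI))
        obtain ⟨X', hX', Y', hY', h5, h6, h7, h8⟩ := exists_symm_pair b htr _ hX hY h2 h1 h3 h4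
        refine ⟨e X', hX', e Y', hY', by rwa [he], by rwa [he],
          by rw [← e.map_lie, h7, map_zero], ?_⟩
        have h9 := h8.map' e.toLinearEquiv.toLinearMap e.toLinearEquiv.ker
        have h10 : ![e X', e Y'] = e.toLinearEquiv.toLinearMap ∘ ![X', Y'] := by
          funext i
          fin_cases i <;> rfl
        rw [h10]
        exact h9 }
  refine ⟨D, rfl, ?_, fun m hm => ltD_of_lt_dNum D e hm⟩
  rw [HigherRank.dim, Subgroup.coe_top, image_univ]
  change finrank ℝ (lieAlg (range ρ)) = n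
  rw [← e.toLinearEquiv.finrank_eq, finrank_eq_card_basis b, Fintype.card_fin]

end Pool.Agent.P.MP_d483fb_an.Z

end

end

section

/-!
A bracket of minimal norm in the orbit of a semisimple bracket has a transposition-stable adjoint
representation.
-/

set_option linter.unusedSectionVars false
set_option linter.unusedVariables false
set_option linter.deprecated false

open NormedSpace Filter Topology
open scoped RealInnerProductSpace

noncomputable section

namespace Pool.Agent.P.MP_d483fb_an.Z.Car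

section Det

variable {V : Type*} [NormedAddCommGroup V] [NormedSpace ℝ V] [FiniteDimensional ℝ V]

lemma hasDerivAt_det_matrix {ι : Type} [Fintype ι] [DecidableEq ι] {M : ℝ → ι → ι → ℝ}
    {A : ι → ι → ℝ} (hM : HasDerivAt M A 0) (h0 : Matrix.of (M 0) = 1) :
    HasDerivAt (fun t => (Matrix.of (M t)).det) (Matrix.of A).trace 0 := by
  have hd : Differentiable ℝ fun N : ι → ι → ℝ => (Matrix.of N).det := by
    simp only [Matrix.det_apply', Matrix.of_apply]
    fun_prop
  have h1 := (hd (M 0)).hasFDerivAt.comp_hasDerivAt 0 hM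
  have hl : HasDerivAt (fun t : ℝ => M 0 + t • A) A 0 := by
    simpa using ((hasDerivAt_id (0 : ℝ)).smul_const A).const_add (M 0)
  have h2 := (hd (M 0)).hasFDerivAt.comp_hasDerivAt_of_eq 0 hl (by simp)
  have h3 : HasDerivAt ((fun N : ι → ι → ℝ => (Matrix.of N).det) ∘ fun t : ℝ => M 0 + t • A)
      (Matrix.of A).trace 0 := by
    have e : ((fun N : ι → ι → ℝ => (Matrix.of N).det) ∘ fun t : ℝ => M 0 + t • A) =
        fun t : ℝ => 1 + (Matrix.of A).trace * t + (Matrix.det (1 + (Polynomial.X : Polynomial ℝ) •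
          (Matrix.of A).map Polynomial.C)).divX.divX.eval t * t ^ 2 := by
      ext t
      rw [← Matrix.det_one_add_smul, ← h0]
      rfl
    rw [e]
    have h4 := (Polynomial.differentiable (Matrix.det (1 + (Polynomial.X : Polynomial ℝ) •
          (Matrix.of A).map Polynomial.C)).divX.divX 0).hasDerivAt.mul (hasDerivAt_pow 2 (0 : ℝ))
    have h5 := (((hasDerivAt_id (0 : ℝ)).const_mul (Matrix.of A).trace).const_add 1).add h4
    exact h5.congr_deriv (by simp)
  rw [h2.unique h3] at h1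
  exact h1

lemma det_exp_eq_one {S : V →L[ℝ] V} (hS : tr S = 0) :
    LinearMap.det ((exp S : V →L[ℝ] V) : V →ₗ[ℝ] V) = 1 := by
  classical
  let b := Module.finBasis ℝ V
  let φ : ℝ → ℝ := fun t => LinearMap.det ((exp (t • S) : V →L[ℝ] V) : V →ₗ[ℝ] V)
  have hadd : ∀ s t, φ (s + t) = φ s * φ t := fun s t => by
    simp only [φ]
    rw [add_smul, exp_add_comm (((Commute.refl S).smul_left s).smul_right t), ← map_mul]
    rfl
  let T : (V →L[ℝ] V) →L[ℝ] (Fin (Module.finrank ℝ V) → Fin (Module.finrank ℝ V) → ℝ) :=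
    LinearMap.toContinuousLinearMap ((Matrix.ofLinearEquiv ℝ).symm.toLinearMap ∘ₗ
      (LinearMap.toMatrix b b).toLinearMap ∘ₗ ContinuousLinearMap.coeLM ℝ)
  have hT : ∀ u, Matrix.of (T u) = LinearMap.toMatrix b b (u : V →ₗ[ℝ] V) := fun u => rfl
  have h0 : HasDerivAt φ 0 0 := by
    have h1 : HasDerivAt (fun t : ℝ => exp (t • S)) S 0 := by
      simpa using hasDerivAt_exp_smul_const (𝕂 := ℝ) S 0
    have h2 := hasDerivAt_det_matrix (T.hasFDerivAt.comp_hasDerivAt 0 h1) (by
      simp only [Function.comp, zero_smul, exp_zero, hT]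
      exact LinearMap.toMatrix_id b)
    simp only [Function.comp, hT, LinearMap.det_toMatrix] at h2
    rw [← LinearMap.trace_eq_matrix_trace, ← tr_apply, hS] at h2
    exact h2
  have hd : ∀ t, HasDerivAt φ 0 t := fun t => by
    have h1 : HasDerivAt (fun s => φ (s - t)) 0 t := by
      have := HasDerivAt.comp_sub_const t t (f := φ) (f' := 0) (by simpa using h0)
      exact this
    have h2 := h1.const_mul (φ t)
    simp only [← hadd, add_sub_cancel, mul_zero] at h2
    exact h2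
  have := is_const_of_deriv_eq_zero (fun t => (hd t).differentiableAt) (fun t => (hd t).deriv) 1 0
  simp only [φ, one_smul, zero_smul, exp_zero] at this
  rw [this]
  exact LinearMap.det_id

end Det

variable {V : Type*} [NormedAddCommGroup V] [InnerProductSpace ℝ V] [FiniteDimensional ℝ V]
  [CompleteSpace V] {ι : Type} [Fintype ι] (b : OrthonormalBasis ι ℝ V)

open ContinuousLinearMap in
/-- The inner product on bilinear maps. -/
def ip (ν w : Bil V) : ℝ := ∑ i, ∑ j, ⟪ν (b i) (b j), w (b i) (b j)⟫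

lemma sum_adjoint (u : V →L[ℝ] V) (f g : V →L[ℝ] V) :
    ∑ i, ⟪f (u (b i)), g (b i)⟫ = ∑ i, ⟪f (b i), g (u.adjoint (b i))⟫ := by
  have h1 : ∀ i, ⟪f (u (b i)), g (b i)⟫ = ∑ k, ⟪b k, u (b i)⟫ * ⟪f (b k), g (b i)⟫ := fun i => by
    conv_lhs => rw [← b.sum_repr' (u (b i))]
    simp only [map_sum, map_smul, sum_inner, real_inner_smul_left]
  have h2 : ∀ k, ⟪f (b k), g (u.adjoint (b k))⟫ =
      ∑ i, ⟪b k, u (b i)⟫ * ⟪f (b k), g (b i)⟫ := fun k => by
    conv_lhs => rw [← b.sum_repr' (u.adjoint (b k))]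
    simp only [map_sum, map_smul, inner_sum, real_inner_smul_right,
      ContinuousLinearMap.adjoint_inner_right, real_inner_comm (b k)]
  simp only [h1, h2]
  exact Finset.sum_comm

lemma ip_inf (u : V →L[ℝ] V) (ν w : Bil V) : ip b (inf u ν) w = ip b ν (inf u.adjoint w) := by
  simp only [ip, inf_apply, inner_sub_left, inner_sub_right, Finset.sum_sub_distrib,
    ContinuousLinearMap.adjoint_inner_right]
  congr 1
  · congr 1
    rw [Finset.sum_comm, Finset.sum_comm (f := fun i j => ⟪ν (b i) (b j), w (u.adjoint (b i)) (b j)⟫)]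
    exact Finset.sum_congr rfl fun j _ => sum_adjoint b u (ν.flip (b j)) (w.flip (b j))
  · exact Finset.sum_congr rfl fun i _ => sum_adjoint b u (ν (b i)) (w (b i))

lemma ip_comm (ν w : Bil V) : ip b ν w = ip b w ν := by
  simp only [ip, real_inner_comm]

lemma eq_zero_of_basis {ν : Bil V} (h : ∀ i j, ν (b i) (b j) = 0) : ν = 0 := by
  ext x y
  rw [← b.sum_repr' x, ← b.sum_repr' y]
  simp only [map_sum, map_smul, ContinuousLinearMap.sum_apply, ContinuousLinearMap.smul_apply, h,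
    smul_zero, Finset.sum_const_zero, ContinuousLinearMap.zero_apply]

lemma norm_sq_le_ip (ν : Bil V) (i j : ι) : ‖ν (b i) (b j)‖ ^ 2 ≤ ip b ν ν := by
  simp only [ip, real_inner_self_eq_norm_sq]
  calc ‖ν (b i) (b j)‖ ^ 2 ≤ ∑ j, ‖ν (b i) (b j)‖ ^ 2 :=
        Finset.single_le_sum (f := fun j => ‖ν (b i) (b j)‖ ^ 2) (fun _ _ => by positivity)
          (Finset.mem_univ j)
    _ ≤ _ := Finset.single_le_sum (f := fun i => ∑ j, ‖ν (b i) (b j)‖ ^ 2)
          (fun _ _ => by positivity) (Finset.mem_univ i)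

lemma eq_zero_of_ip {ν : Bil V} (h : ip b ν ν = 0) : ν = 0 :=
  eq_zero_of_basis b fun i j => by
    have := norm_sq_le_ip b ν i j
    rw [h] at this
    exact norm_eq_zero.1 (by nlinarith [norm_nonneg (ν (b i) (b j))])

lemma continuous_ip : Continuous fun ν : Bil V => ip b ν ν := by
  simp only [ip]
  fun_prop

lemma isCompact_ip (c : ℝ) : IsCompact {ν : Bil V | ip b ν ν ≤ c} := by
  let T : Bil V →ₗ[ℝ] (ι × ι → V) :=
    { toFun := fun ν p => ν (b p.1) (b p.2)
      map_add' := fun _ _ => rfl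
      map_smul' := fun _ _ => rfl }
  have hT : LinearMap.ker T = ⊥ := LinearMap.ker_eq_bot'.2 fun ν hν =>
    eq_zero_of_basis b fun i j => congrFun hν (i, j)
  have hc := (LinearMap.isClosedEmbedding_of_injective hT).isCompact_preimage
    (isCompact_closedBall (0 : ι × ι → V) (|c| + 1))
  refine hc.of_isClosed_subset (isClosed_le (continuous_ip b) continuous_const) fun ν hν => ?_
  simp only [Set.mem_preimage, mem_closedBall_zero_iff]
  refine (pi_norm_le_iff_of_nonneg (by positivity)).2 fun p => ?_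
  have h1 := (norm_sq_le_ip b ν p.1 p.2).trans hν
  have h2 := le_abs_self c
  change ‖ν (b p.1) (b p.2)‖ ≤ _
  nlinarith [norm_nonneg (ν (b p.1) (b p.2)), abs_nonneg c]

lemma continuous_act (g h : V →L[ℝ] V) : Continuous fun ν : Bil V => act g h ν := by
  refine continuous_clm_apply.2 fun x => continuous_clm_apply.2 fun y => ?_
  simp only [act_apply]
  fun_prop

/-- In the orbit of a semisimple bracket there is one with transposition-stable `ad`. -/
theorem exists_min {μ : Bil V} (hμ : IsLie μ) (hn : (kil μ).Nondegenerate)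
    (𝒜 : Set (V →L[ℝ] V)) (hA : ∀ H ∈ 𝒜, inf H μ = 0)
    (hd : ∀ H ∈ 𝒜, ∀ i, ∃ c : ℝ, H (b i) = c • b i) :
    ∃ g h : V →L[ℝ] V, g * h = 1 ∧ h * g = 1 ∧ (∀ H ∈ 𝒜, H * g = g * H) ∧
      (∀ H ∈ 𝒜, H.adjoint = H) ∧ ∀ x, ∃ x', (act g h μ x).adjoint = act g h μ x' := by
  classical
  have hsa : ∀ H ∈ 𝒜, H.adjoint = H := fun H hH => by
    choose c hc using hd H hH
    symm
    rw [ContinuousLinearMap.eq_adjoint_iff]
    intro x y
    rw [← b.sum_repr' x, ← b.sum_repr' y]
    simp only [map_sum, map_smul, hc, sum_inner, inner_sum, real_inner_smul_left,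
      real_inner_smul_right, b.inner_eq_ite]
    refine Finset.sum_congr rfl fun i _ => Finset.sum_congr rfl fun j _ => ?_
    split_ifs with h
    · subst h; ring
    · ring
  let O : Set (Bil V) := {ν | ∃ g h : V →L[ℝ] V, g * h = 1 ∧ h * g = 1 ∧
    (∀ H ∈ 𝒜, H * g = g * H) ∧ (∀ H ∈ 𝒜, H * h = h * H) ∧
    LinearMap.det (h : V →ₗ[ℝ] V) = 1 ∧ ν = act g h μ}
  have hμO : μ ∈ O := ⟨1, 1, mul_one _, mul_one _, fun H _ => by simp, fun H _ => by simp,
    LinearMap.det_id, (act_one μ).symm⟩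
  let dk : Bil V → ℝ := fun ν => (LinearMap.BilinForm.toMatrix b.toBasis (kil ν)).det
  have cdk : Continuous dk := by
    refine Continuous.matrix_det (continuous_matrix fun i j => ?_)
    simp only [LinearMap.BilinForm.toMatrix_apply]
    exact continuous_kil _ _
  let P : Set (Bil V) := {ν | IsLie ν} ∩ ({ν | dk ν = dk μ} ∩ ⋂ H ∈ 𝒜, {ν | inf H ν = 0})
  have hPc : IsClosed P := by
    refine isClosed_isLie.inter ((isClosed_eq cdk continuous_const).inter ?_)
    refine isClosed_biInter fun H _ => isClosed_eq ?_ continuous_const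
    refine continuous_clm_apply.2 fun x => continuous_clm_apply.2 fun y => ?_
    simp only [inf_apply]
    fun_prop
  have hOP : O ⊆ P := by
    rintro _ ⟨g, h, h1, h2, h3, h4, h5, rfl⟩
    refine ⟨hμ.act h2, ?_, Set.mem_iInter₂.2 fun H hH => inf_act (h3 H hH) (h4 H hH) (hA H hH)⟩
    have e : kil (act g h μ) = (kil μ).comp (h : V →ₗ[ℝ] V) (h : V →ₗ[ℝ] V) := by
      ext x y
      exact kil_act h2 μ x y
    change dk (act g h μ) = dk μ
    simp only [dk]
    rw [e, LinearMap.BilinForm.toMatrix_comp b.toBasis b.toBasis, Matrix.det_mul, Matrix.det_mul,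
      Matrix.det_transpose, LinearMap.det_toMatrix, h5, one_mul, mul_one]
  obtain ⟨ν, ⟨hν1, hν2⟩, hmin⟩ := ((isCompact_ip b (ip b μ μ)).inter_right
    (isClosed_closure (s := O))).exists_isMinOn ⟨μ, le_refl (ip b μ μ), subset_closure hμO⟩
    (continuous_ip b).continuousOn
  have hmin' : ∀ w ∈ closure O, ip b ν ν ≤ ip b w w := fun w hw => by
    rcases le_total (ip b w w) (ip b μ μ) with h | h
    · exact hmin ⟨h, hw⟩
    · exact le_trans hν1 h
  obtain ⟨hνL, hνd, hνA⟩ := closure_minimal hOP hPc hν2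
  have hνA' : ∀ H ∈ 𝒜, inf H ν = 0 := fun H hH => Set.mem_iInter₂.1 hνA H hH
  have hνn : (kil ν).Nondegenerate := by
    rw [LinearMap.BilinForm.nondegenerate_iff_det_ne_zero b.toBasis] at hn ⊢
    exact fun h => hn (hνd.symm.trans h)
  have crit : ∀ S : V →L[ℝ] V, (∀ H ∈ 𝒜, H * S = S * H) → tr S = 0 → ip b (inf S ν) ν = 0 := by
    intro S hS htr
    have hmem : ∀ t : ℝ, act (exp (t • S)) (exp (-(t • S))) ν ∈ closure O := fun t => by
      refine map_mem_closure (continuous_act _ _) hν2 ?_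
      rintro _ ⟨g, h, h1, h2, h3, h4, h5, rfl⟩
      have c1 : ∀ H ∈ 𝒜, Commute H (t • S) := fun H hH => Commute.smul_right (hS H hH) t
      refine ⟨_, _, ?_, ?_, fun H hH => ?_, fun H hH => ?_, ?_, act_act _ _ _ _ _⟩
      · rw [mul_assoc, ← mul_assoc g, h1, one_mul, exp_mul_neg]
      · rw [mul_assoc, ← mul_assoc (exp _), exp_neg_mul, one_mul, h2]
      · exact Commute.mul_right (c1 H hH).exp_right (h3 H hH)
      · exact Commute.mul_right (h4 H hH) (c1 H hH).neg_right.exp_right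
      · have : ((h * exp (-(t • S)) : V →L[ℝ] V) : V →ₗ[ℝ] V) =
            (h : V →ₗ[ℝ] V) * ((exp (-(t • S)) : V →L[ℝ] V) : V →ₗ[ℝ] V) := rfl
        rw [this, map_mul, h5, det_exp_eq_one (by simp [htr]), one_mul]
    have hloc : IsLocalMin (fun t : ℝ => ip b (act (exp (t • S)) (exp (-(t • S))) ν)
        (act (exp (t • S)) (exp (-(t • S))) ν)) 0 := by
      refine Filter.Eventually.of_forall fun t => ?_
      simp only [zero_smul, neg_zero, exp_zero, act_one]
      exact hmin' _ (hmem t)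
    have hder : HasDerivAt (fun t : ℝ => ip b (act (exp (t • S)) (exp (-(t • S))) ν)
        (act (exp (t • S)) (exp (-(t • S))) ν)) (ip b ν (inf S ν) + ip b (inf S ν) ν) 0 := by
      simp only [ip, ← Finset.sum_add_distrib]
      refine HasDerivAt.fun_sum fun i _ => HasDerivAt.fun_sum fun j _ => ?_
      have h1 := hasDerivAt_act S ν 0 (b i) (b j)
      have z : ∀ t : ℝ, ν + t • (0 : Bil V) = ν := fun t => by ext x y; simp
      simp only [z, ContinuousLinearMap.zero_apply, add_zero] at h1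
      have h2 := h1.inner ℝ h1
      simpa only [zero_smul, neg_zero, exp_zero, act_one] using h2
    have := hloc.hasDerivAt_eq_zero hder
    rw [ip_comm b ν] at this
    linarith
  have hder : ∀ i, inf (ν (b i)).adjoint ν = 0 := fun i => by
    set u := ν (b i) with hu
    have h0 : inf u ν = 0 := hνL.inf_ad _
    have h1 := crit (u * u.adjoint - u.adjoint * u) (fun H hH => ?_)
      (by rw [map_sub, tr_mul_comm, sub_self])
    · rw [← inf_inf, h0, inf_zero, sub_zero, ip_inf] at h1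
      exact eq_zero_of_ip b h1
    obtain ⟨c, hc⟩ := hd H hH i
    have e1 : H * u = u * H + c • u := by
      ext y
      have h : inf H ν (b i) y = 0 := by rw [hνA' H hH]; rfl
      rw [inf_apply, hc, map_smul] at h
      simp only [ContinuousLinearMap.add_apply, ContinuousLinearMap.mul_apply,
        ContinuousLinearMap.smul_apply] at h ⊢
      linear_combination (norm := abel1) h
    have e2 : u.adjoint * H = H * u.adjoint + c • u.adjoint := by
      have := congrArg star e1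
      simpa only [star_mul, star_add, star_smul, ContinuousLinearMap.star_eq_adjoint, hsa H hH,
        star_trivial] using this
    have e3 : H * u.adjoint = u.adjoint * H - c • u.adjoint := by rw [e2]; abel
    generalize u.adjoint = v at e2 e3 ⊢
    have f1 : H * (u * v) = u * v * H := by
      rw [← mul_assoc, e1, add_mul, mul_assoc u H v, mul_assoc u v H, e2, mul_add,
        smul_mul_assoc, mul_smul_comm]
    have f2 : H * (v * u) = v * u * H := by
      rw [← mul_assoc, e3, sub_mul, mul_assoc v H u, e1, mul_add, smul_mul_assoc, mul_smul_comm,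
        mul_assoc v u H]
      abel
    rw [mul_sub, sub_mul, f1, f2]
  obtain ⟨D⟩ := exists_dual hνn
  have hadj : ∀ x, ∃ x', (ν x).adjoint = ν x' := fun x => by
    choose y hy using fun i => (⟨_, D.inner hνL (hder i)⟩ : ∃ y, (ν (b i)).adjoint = ν y)
    refine ⟨∑ i, ⟪b i, x⟫ • y i, ?_⟩
    conv_lhs => rw [← b.sum_repr' x]
    simp only [map_sum, map_smul, ← hy]
  obtain ⟨w, hw1, g, h, h1, h2, h3, h4, h5, rfl⟩ :=
    mem_closure_iff_nhds.1 hν2 _ (rigid hνL hνn 𝒜 hνA')
  obtain ⟨hL, -, hI⟩ := hOP ⟨g, h, h1, h2, h3, h4, h5, rfl⟩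
  obtain ⟨u, hu, e⟩ := hw1 hL fun H hH => Set.mem_iInter₂.1 hI H hH
  have e' : act (exp (-u) * g) (h * exp u) μ = ν := by
    rw [← act_act, e, act_act, exp_neg_mul, act_one]
  refine ⟨exp (-u) * g, h * exp u, ?_, ?_, fun H hH => ?_, hsa, ?_⟩
  · rw [mul_assoc, ← mul_assoc g, h1, one_mul, exp_neg_mul]
  · rw [mul_assoc, ← mul_assoc (exp _), exp_mul_neg, one_mul, h2]
  · exact Commute.mul_right (Commute.neg_right (hu H hH)).exp_right (h3 H hH)
  · rw [e']
    exact hadj

end Pool.Agent.P.MP_d483fb_an.Z.Car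

end

end

section

/-!
Existence of Cartan involutions: a real Lie algebra with nondegenerate Killing form has a basis in
which the matrices of the adjoint representation are stable under transposition.
-/

set_option linter.unusedSectionVars false
set_option linter.unusedVariables false
set_option linter.deprecated false

open scoped Matrix
open Module

attribute [local instance 100] LieRing.ofAssociativeRing

noncomputable section

namespace Pool.Agent.P.MP_d483fb_an.Z

variable {L : Type*} [LieRing L] [LieAlgebra ℝ L] {n : ℕ}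

/-- Version relative to a family of elements that are diagonal in a given basis. -/
theorem exists_cartan_basis_of_diag [LieAlgebra.IsKilling ℝ L] (b₀ : Basis (Fin n) ℝ L)
    (𝒜 : Set L) (hd : ∀ X ∈ 𝒜, ∀ i, ∃ c : ℝ, ⁅X, b₀ i⁆ = c • b₀ i) :
    ∃ b : Basis (Fin n) ℝ L, (∀ X, ∃ Y, (adM b X)ᵀ = adM b Y) ∧ ∀ X ∈ 𝒜, (adM b X).IsSymm := by
  classical
  have : FiniteDimensional ℝ L := b₀.finiteDimensional_of_finite
  let V := EuclideanSpace ℝ (Fin n)
  let e : OrthonormalBasis (Fin n) ℝ V := EuclideanSpace.basisFun (Fin n) ℝ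
  let φ : L ≃ₗ[ℝ] V := b₀.equiv e.toBasis (Equiv.refl _)
  have hφ : ∀ i, φ (b₀ i) = e i := fun i => by simp [φ]
  let μ : Car.Bil V := LinearMap.toContinuousLinearMap
    ((LinearMap.toContinuousLinearMap (𝕜 := ℝ) (E := V) (F' := V)).toLinearMap ∘ₗ
      (φ.conj.toLinearMap ∘ₗ (LieAlgebra.ad ℝ L).toLinearMap ∘ₗ φ.symm.toLinearMap))
  have hμ : ∀ x y, μ x y = φ ⁅φ.symm x, φ.symm y⁆ := fun x y => rfl
  have hL : Car.IsLie μ := by
    refine ⟨fun x y => ?_, fun x y z => ?_⟩
    · rw [hμ, hμ, ← map_neg, lie_skew]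
    · simp only [hμ, LinearEquiv.symm_apply_apply]
      rw [← map_add, ← map_add, ← lie_skew _ (φ.symm z), ← lie_skew _ (φ.symm x),
        ← lie_skew ⁅φ.symm z, φ.symm x⁆ (φ.symm y), ← neg_add, ← neg_add,
        add_comm ⁅φ.symm z, _⁆, add_assoc, add_comm ⁅φ.symm z, _⁆, ← add_assoc, lie_jacobi,
        neg_zero, map_zero]
  have hk : ∀ x y, Car.kil μ x y = killingForm ℝ L (φ.symm x) (φ.symm y) := fun x y => by
    rw [Car.kil_apply, Car.tr_apply, LieModule.traceForm_apply_apply,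
      ← LinearMap.trace_conj' _ φ]
    congr 1
    refine LinearMap.ext fun z => ?_
    change μ x (μ y z) = φ ⁅φ.symm x, ⁅φ.symm y, φ.symm z⁆⁆
    rw [hμ, hμ, LinearEquiv.symm_apply_apply]
  have hl : ∀ x, (∀ y, Car.kil μ x y = 0) → x = 0 := fun x hx => by
    have h1 : φ.symm x ∈ LinearMap.ker (killingForm ℝ L) := by
      rw [LinearMap.mem_ker]
      ext Y
      have := hx (φ Y)
      rwa [hk, LinearEquiv.symm_apply_apply] at this
    rw [LieAlgebra.IsKilling.ker_killingForm_eq_bot, Submodule.mem_bot] at h1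
    simpa using h1
  have hn : (Car.kil μ).Nondegenerate :=
    ⟨hl, fun y hy => hl y fun x => by rw [Car.kil_symm]; exact hy x⟩
  obtain ⟨g, h, h1, h2, h3, h4, h5⟩ := Car.exists_min e hL hn ((fun X => μ (φ X)) '' 𝒜)
    (by rintro _ ⟨X, _, rfl⟩; exact hL.inf_ad _)
    (by
      rintro _ ⟨X, hX, rfl⟩ i
      obtain ⟨c, hc⟩ := hd X hX i
      refine ⟨c, ?_⟩
      rw [hμ, ← hφ, LinearEquiv.symm_apply_apply, LinearEquiv.symm_apply_apply, hc, map_smul])
  have e1 : ∀ z, g (h z) = z := fun z => congrArg (fun T : V →L[ℝ] V => T z) h1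
  have e2 : ∀ z, h (g z) = z := fun z => congrArg (fun T : V →L[ℝ] V => T z) h2
  let G : V ≃ₗ[ℝ] V := LinearEquiv.ofLinear (g : V →ₗ[ℝ] V) (h : V →ₗ[ℝ] V)
    (LinearMap.ext e1) (LinearMap.ext e2)
  let ψ : L ≃ₗ[ℝ] V := φ.trans G
  have hM : ∀ X, adM (e.toBasis.map ψ.symm) X = LinearMap.toMatrix e.toBasis e.toBasis
      (Car.act g h μ (ψ X) : V →ₗ[ℝ] V) := fun X => by
    ext i j
    rw [adM_apply, LinearMap.toMatrix_apply, LinearMap.toMatrix_apply, Basis.map_repr,
      LinearEquiv.trans_apply, LinearEquiv.symm_symm, Basis.map_apply]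
    congr 2
    change g (φ ⁅X, φ.symm (h (e j))⁆) = g (μ (h (g (φ X))) (h (e j)))
    rw [hμ, e2, LinearEquiv.symm_apply_apply]
  have hT : ∀ T : V →L[ℝ] V, (LinearMap.toMatrix e.toBasis e.toBasis (T : V →ₗ[ℝ] V))ᵀ =
      LinearMap.toMatrix e.toBasis e.toBasis
        ((ContinuousLinearMap.adjoint T : V →L[ℝ] V) : V →ₗ[ℝ] V) := fun T => by
    ext i j
    simp only [Matrix.transpose_apply, LinearMap.toMatrix_apply, OrthonormalBasis.coe_toBasis,
      OrthonormalBasis.coe_toBasis_repr_apply, OrthonormalBasis.repr_apply_apply,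
      ContinuousLinearMap.coe_coe, ContinuousLinearMap.adjoint_inner_right]
    exact real_inner_comm _ _
  refine ⟨e.toBasis.map ψ.symm, fun X => ?_, fun X hX => ?_⟩
  · obtain ⟨y, hy⟩ := h5 (ψ X)
    refine ⟨ψ.symm y, ?_⟩
    rw [hM, hM, hT, hy, LinearEquiv.apply_symm_apply]
  · have h6 : Car.act g h μ (ψ X) = μ (φ X) := by
      ext1 z
      change g (μ (h (g (φ X))) (h z)) = _
      have := congrArg (fun T : V →L[ℝ] V => T (h z)) (h3 _ ⟨X, hX, rfl⟩)
      simp only [ContinuousLinearMap.mul_apply, e1] at this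
      rw [e2, ← this]
    rw [Matrix.IsSymm, hM, hT, h6, h4 _ ⟨X, hX, rfl⟩]

/-- A basis in which `ad L` is stable under transposition. -/
theorem exists_cartan_basis [LieAlgebra.IsKilling ℝ L] [FiniteDimensional ℝ L]
    (hn : finrank ℝ L = n) : ∃ b : Basis (Fin n) ℝ L, ∀ X, ∃ Y, (adM b X)ᵀ = adM b Y :=
  let ⟨b, hb, _⟩ := exists_cartan_basis_of_diag (Module.finBasisOfFinrankEq ℝ L hn) ∅
    (fun X hX => hX.elim)
  ⟨b, hb⟩

/-- A commuting family of elements with diagonalisable adjoint action is diagonal in a basis. -/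
theorem exists_basis_diag [FiniteDimensional ℝ L] (hn : finrank ℝ L = n) (𝒜 : Set L)
    (hc : ∀ X ∈ 𝒜, ∀ Y ∈ 𝒜, ⁅X, Y⁆ = 0)
    (hd : ∀ X ∈ 𝒜, ⨆ c : ℝ, (LieAlgebra.ad ℝ L X).eigenspace c = ⊤) :
    ∃ b : Basis (Fin n) ℝ L, ∀ X ∈ 𝒜, ∀ i, ∃ c : ℝ, ⁅X, b i⁆ = c • b i := by
  classical
  let T : 𝒜 → End ℝ L := fun X => LieAlgebra.ad ℝ L X
  have hT : Pairwise (Function.onFun Commute T) := fun X Y _ => by
    change T X * T Y = T Y * T X
    rw [← sub_eq_zero]
    have := (LieAlgebra.ad ℝ L).map_lie (X : L) (Y : L)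
    rw [hc _ X.2 _ Y.2, map_zero] at this
    exact this.symm
  have h1 := Module.End.iSup_iInf_maxGenEigenspace_eq_top_of_iSup_maxGenEigenspace_eq_top_of_commute
    T hT fun X => by
      rw [eq_top_iff, ← hd X X.2]
      exact iSup_mono fun c => ((T X).genEigenspace c).monotone le_top
  have h2 : ∀ (X : 𝒜) (c : ℝ), (T X).maxGenEigenspace c = (T X).eigenspace c := fun X c =>
    (congrFun (((T X).independent_maxGenEigenspace.le_iff_eq_of_iSup_eq_top (hd X X.2)).1
      fun c => ((T X).genEigenspace c).monotone le_top) c).symm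
  simp only [h2] at h1
  let s : Set L := ⋃ χ : 𝒜 → ℝ, ((⨅ X, (T X).eigenspace (χ X) : Submodule ℝ L) : Set L)
  have hs : ⊤ ≤ Submodule.span ℝ s := by
    rw [← h1]
    exact iSup_le fun χ x hx => Submodule.subset_span (Set.mem_iUnion.2 ⟨χ, hx⟩)
  let b := Basis.ofSpan hs
  have hb : ∀ i, b i ∈ s := fun i => Basis.ofSpan_subset hs ⟨i, rfl⟩
  have := FiniteDimensional.fintypeBasisIndex b
  let σ := Fintype.equivFinOfCardEq ((Module.finrank_eq_card_basis b).symm.trans hn)
  refine ⟨b.reindex σ, fun X hX i => ?_⟩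
  obtain ⟨χ, hχ⟩ := Set.mem_iUnion.1 (hb (σ.symm i))
  refine ⟨χ ⟨X, hX⟩, ?_⟩
  rw [Basis.reindex_apply]
  exact Module.End.mem_eigenspace_iff.1 ((Submodule.mem_iInf _).1 hχ ⟨X, hX⟩)

/-- A basis in which `ad L` is stable under transposition and a given commuting family of
elements with diagonalisable adjoint action acts by symmetric matrices. -/
theorem exists_cartan_basis_symm [LieAlgebra.IsKilling ℝ L] [FiniteDimensional ℝ L]
    (hn : finrank ℝ L = n) (𝒜 : Set L) (hc : ∀ X ∈ 𝒜, ∀ Y ∈ 𝒜, ⁅X, Y⁆ = 0)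
    (hd : ∀ X ∈ 𝒜, ⨆ c : ℝ, (LieAlgebra.ad ℝ L X).eigenspace c = ⊤) :
    ∃ b : Basis (Fin n) ℝ L, (∀ X, ∃ Y, (adM b X)ᵀ = adM b Y) ∧ ∀ X ∈ 𝒜, (adM b X).IsSymm :=
  let ⟨b₀, hb₀⟩ := exists_basis_diag hn 𝒜 hc hd
  exists_cartan_basis_of_diag b₀ 𝒜 hb₀

/-- The Cartan involution attached to such a basis. -/
theorem exists_theta [LieAlgebra.IsKilling ℝ L] (b : Basis (Fin n) ℝ L)
    (hb : ∀ X, ∃ Y, (adM b X)ᵀ = adM b Y) :
    ∃ θ : L ≃ₗ⁅ℝ⁆ L, (∀ X, adM b (θ X) = -(adM b X)ᵀ) ∧ (∀ X, θ (θ X) = X) ∧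
      ∀ X, X ≠ 0 → killingForm ℝ L X (θ X) < 0 := by
  choose f hf using hb
  have inj := adM_injective b
  have hθ : ∀ X, adM b (-f X) = -(adM b X)ᵀ := fun X => by rw [map_neg, hf]
  let θ₀ : L →ₗ⁅ℝ⁆ L :=
    { toFun := fun X => -f X
      map_add' := fun X Y => inj (by
        rw [map_add, hθ, hθ, hθ, map_add, Matrix.transpose_add, neg_add])
      map_smul' := fun c X => inj (by
        rw [map_smul, hθ, hθ, map_smul, Matrix.transpose_smul, RingHom.id_apply, smul_neg])
      map_lie' := fun {X Y} => inj (by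
        rw [adM_lie, hθ, hθ, hθ, adM_lie, Matrix.transpose_sub, Matrix.transpose_mul,
          Matrix.transpose_mul, neg_mul_neg, neg_mul_neg, neg_sub]) }
  have hθ₀ : ∀ X, adM b (θ₀ X) = -(adM b X)ᵀ := hθ
  have hi : ∀ X, θ₀ (θ₀ X) = X := fun X => inj (by
    rw [hθ₀, hθ₀, Matrix.transpose_neg, Matrix.transpose_transpose, neg_neg])
  refine ⟨LieEquiv.ofBijective θ₀ (Function.Involutive.bijective hi), hθ₀, hi, fun X hX => ?_⟩
  change killingForm ℝ L X (θ₀ X) < 0
  rw [killingForm_eq_trace b, hθ₀, mul_neg, Matrix.trace_neg, neg_lt_zero]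
  have h1 : 0 ≤ (adM b X * (adM b X)ᵀ).trace := by
    simpa using (Matrix.posSemidef_self_mul_conjTranspose (adM b X)).trace_nonneg
  refine lt_of_le_of_ne h1 fun h => hX (inj ?_)
  rw [map_zero, ← Matrix.trace_mul_conjTranspose_self_eq_zero_iff]
  simpa using h.symm

end Pool.Agent.P.MP_d483fb_an.Z

end

end

section

/-!
A connected semisimple Lie group of higher rank carries the structure `HigherRank`, given its
adjoint representation.
-/

open scoped Matrix Matrix.Norms.Operator Manifold ContDiff Topology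
open NormedSpace Set Module Filter

noncomputable section

namespace Pool.Agent.P.MP_d483fb_an.Z

variable (E : Type) [NormedAddCommGroup E] [NormedSpace ℝ E] [FiniteDimensional ℝ E]
  [CompleteSpace E] (G : Type) [Group G] [TopologicalSpace G] [ChartedSpace E G]
  [LieGroup 𝓘(ℝ, E) (minSmoothness ℝ 3) G]

omit [FiniteDimensional ℝ E] [CompleteSpace E] in
include E in
theorem lie_isTopologicalGroup : IsTopologicalGroup G :=
  topologicalGroup_of_lieGroup 𝓘(ℝ, E) (minSmoothness ℝ 3)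

omit [Group G] [LieGroup 𝓘(ℝ, E) (minSmoothness ℝ 3) G] [CompleteSpace E] in
include E in
theorem lie_locallyCompactSpace : LocallyCompactSpace G :=
  have := FiniteDimensional.proper_real E
  ChartedSpace.locallyCompactSpace E G

omit [CompleteSpace E] in
include E in
theorem lie_secondCountable [ConnectedSpace G] : SecondCountableTopology G :=
  have := FiniteDimensional.proper_real E
  have := lie_isTopologicalGroup E G
  have := lie_locallyCompactSpace E G
  have := sigmaCompact_of_connected G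
  ChartedSpace.secondCountable_of_sigmaCompact E G

omit [LieGroup 𝓘(ℝ, E) (minSmoothness ℝ 3) G] [CompleteSpace E] in
theorem lie_finite : Module.Finite ℝ (GroupLieAlgebra 𝓘(ℝ, E) G) :=
  inferInstanceAs (Module.Finite ℝ E)

/-- The adjoint representation in a basis, with the one parameter subgroups. -/
structure AdRep {n : ℕ} (b : Basis (Fin n) ℝ (GroupLieAlgebra 𝓘(ℝ, E) G)) where
  ρ : G →* Mat n
  cont : Continuous ρ
  aut : range ρ ⊆ Aut b
  curve : ∀ X : GroupLieAlgebra 𝓘(ℝ, E) G,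
    ∃ γ : ℝ → G, γ 0 = 1 ∧ IsMIntegralCurve γ (mulInvariantVectorField X)
  add : ∀ (X : GroupLieAlgebra 𝓘(ℝ, E) G) (γ : ℝ → G), γ 0 = 1 →
    IsMIntegralCurve γ (mulInvariantVectorField X) → ∀ s t, γ (s + t) = γ s * γ t
  eq_exp : ∀ (X : GroupLieAlgebra 𝓘(ℝ, E) G) (γ : ℝ → G), γ 0 = 1 →
    IsMIntegralCurve γ (mulInvariantVectorField X) → ∀ t, ρ (γ t) = exp (t • adM b X)
  disc : ∀ᶠ x in 𝓝 (1 : G), ρ x = 1 → x = 1

theorem exists_higherRank_of_adRep [T2Space G] [ConnectedSpace G]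
    (hs : LieAlgebra.IsSemisimple ℝ (GroupLieAlgebra 𝓘(ℝ, E) G))
    (hr : ∀ I : LieIdeal ℝ (GroupLieAlgebra 𝓘(ℝ, E) G), IsAtom I → 2 ≤ realRank I)
    (hA : ∀ b : Basis (Fin (finrank ℝ E)) ℝ (GroupLieAlgebra 𝓘(ℝ, E) G),
      Nonempty (AdRep E G b)) :
    ∃ D : HigherRank G (finrank ℝ E), ∀ m : ℕ, ((m : ℕ∞) < vNum E G → D.ltV m) ∧
      ((m : ℕ∞) < dNum (GroupLieAlgebra 𝓘(ℝ, E) G) → D.ltD m) := by
  have := lie_isTopologicalGroup E G
  have := lie_locallyCompactSpace E G
  have := lie_secondCountable E G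
  have := lie_finite E G
  have : LieAlgebra.IsKilling ℝ (GroupLieAlgebra 𝓘(ℝ, E) G) := inferInstance
  obtain ⟨b, hb⟩ := exists_cartan_basis (L := GroupLieAlgebra 𝓘(ℝ, E) G)
    (n := finrank ℝ E) rfl
  obtain ⟨A⟩ := hA b
  have hexp : ∀ X, exp (adM b X) ∈ range A.ρ := by
    intro X
    obtain ⟨γ, h0, hγ⟩ := A.curve X
    exact ⟨γ 1, by rw [A.eq_exp X γ h0 hγ, one_smul]⟩
  have hc := isClosed_range_of_Aut b A.ρ A.aut hexp
  obtain ⟨D, hD, hdim, hd⟩ := exists_higherRank_of b hr hb A.ρ hc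
    (isCoveringMap_of_isClosed A.ρ A.cont hc A.disc) A.aut hexp
  refine ⟨D, fun m => ⟨fun hm H hH hne => ?_, hd m⟩⟩
  have h1 : lieSet (A.ρ '' H) = adM b '' {X | ∃ γ : ℝ → G, γ 0 = 1 ∧
      IsMIntegralCurve γ (mulInvariantVectorField X) ∧ ∀ t, γ t ∈ H} := by
    ext Z
    constructor
    · intro hZ
      have h2 : Z ∈ lieSet (range A.ρ) := fun t => image_subset_range _ _ (hZ t)
      rw [lieSet_eq_range b A.aut hexp] at h2
      obtain ⟨X, rfl⟩ := h2
      obtain ⟨γ, h0, hγ⟩ := A.curve X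
      refine ⟨X, ⟨γ, h0, hγ, mem_of_mem_image A.ρ A.disc H hH γ hγ.continuous
        (A.add X γ h0 hγ) fun t => ?_⟩, rfl⟩
      rw [A.eq_exp X γ h0 hγ]
      exact hZ t
    · rintro ⟨X, ⟨γ, h0, hγ, hγH⟩, rfl⟩ t
      exact ⟨γ t, hγH t, A.eq_exp X γ h0 hγ t⟩
  have h3 : D.dim H = dimSub E H := by
    rw [HigherRank.dim, hD]
    exact finrank_lieAlg b h1
  have h4 : vNum E G ≤ ((finrank ℝ E - dimSub E H : ℕ) : ℕ∞) :=
    iInf_le_of_le H (iInf_le_of_le hH (iInf_le_of_le hne le_rfl))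
  rw [hdim, h3]
  exact ENat.natCast_lt_natCast.1 (hm.trans_le h4)

end Pool.Agent.P.MP_d483fb_an.Z

end

end

section

/-!
The adjoint representation of a Lie group with nondegenerate Killing form is locally injective;
the structure `HigherRank` of a connected semisimple Lie group of higher rank.
-/

open Filter Topology Set Module NormedSpace
open scoped Manifold Matrix Matrix.Norms.Operator

attribute [local instance 100] LieRing.ofAssociativeRing

noncomputable section

namespace Pool.Agent.P.MP_d483fb_an.Z.Br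

theorem exists_log (n : ℕ) : ∃ lg : Mat n → Mat n,
    HasStrictFDerivAt lg (ContinuousLinearMap.id ℝ (Mat n)) 1 ∧ ∀ᶠ Z in 𝓝 0, lg (exp Z) = Z := by
  have h : HasStrictFDerivAt (exp : Mat n → Mat n)
      (ContinuousLinearEquiv.refl ℝ (Mat n) : Mat n →L[ℝ] Mat n) 0 :=
    hasStrictFDerivAt_exp_zero (𝕂 := ℝ) (𝔸 := Mat n)
  refine ⟨h.localInverse _ _ _, ?_, h.eventually_left_inverse⟩
  have h1 := h.to_localInverse
  rwa [exp_zero] at h1

variable {E : Type} [NormedAddCommGroup E] [NormedSpace ℝ E] [FiniteDimensional ℝ E]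
  [CompleteSpace E] {G : Type} [Group G] [TopologicalSpace G] [ChartedSpace E G]
  [LieGroup 𝓘(ℝ, E) (minSmoothness ℝ 3) G] {n : ℕ}
  (b : Basis (Fin n) ℝ (GroupLieAlgebra 𝓘(ℝ, E) G))

theorem rho_tendsto : Tendsto (rho b) (𝓝 1) (𝓝[Aut b] 1) :=
  tendsto_nhdsWithin_iff.2 ⟨by simpa using (rho_cont b).tendsto 1,
    Eventually.of_forall (rho_mem_Aut b)⟩

theorem exp_adM_mem_range (X : GroupLieAlgebra 𝓘(ℝ, E) G) : exp (adM b X) ∈ range (rho b) :=
  ⟨ex X 1, by rw [rho_ex, one_smul]⟩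

variable [LieAlgebra.IsKilling ℝ (GroupLieAlgebra 𝓘(ℝ, E) G)]

theorem rho_local : (∀ᶠ g in 𝓝 (1 : G), rho b g = 1 → g = 1) ∧
    (∀ᶠ g in 𝓝 (1 : G), ∃ X, rho b g = exp (adM b X)) ∧ 𝓝[Aut b] 1 ≤ map (rho b) (𝓝 1) := by
  obtain ⟨D, hD, hD'⟩ := rho_deriv b
  obtain ⟨lg, hlg, hlg'⟩ := exists_log n
  have hinj : LinearMap.ker D.toLinearMap = ⊥ := by
    rw [LinearMap.ker_eq_bot]
    intro x y hxy
    obtain ⟨x, rfl⟩ := (toE E G).surjective x
    obtain ⟨y, rfl⟩ := (toE E G).surjective y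
    have h : D (toE E G x) = D (toE E G y) := hxy
    rw [hD', hD'] at h
    rw [adM_injective b h]
  obtain ⟨Λ₀, hΛ₀⟩ := LinearMap.exists_leftInverse_of_injective _ hinj
  let Λ : Mat n →L[ℝ] E := Λ₀.toContinuousLinearMap
  have hΛ : ∀ x, Λ (D x) = x := fun x => DFunLike.congr_fun hΛ₀ x
  have hlg1 : lg 1 = 0 := by simpa using hlg'.self_of_nhds
  have he : rho b ((ch E G).symm (ch E G 1)) = 1 := by rw [extChartAt_to_inv, map_one]
  have hF : HasStrictFDerivAt (fun x => Λ (lg (rho b ((ch E G).symm x))))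
      (ContinuousLinearEquiv.refl ℝ E : E →L[ℝ] E) (ch E G 1) := by
    have h1 : HasStrictFDerivAt lg (ContinuousLinearMap.id ℝ (Mat n))
      (rho b ((ch E G).symm (ch E G 1))) := by rwa [he]
    have h2 := Λ.hasStrictFDerivAt.comp (ch E G 1) (h1.comp (ch E G 1) hD)
    exact h2.congr_fderiv (ContinuousLinearMap.ext hΛ)
  have hch : Tendsto (ch E G) (𝓝 1) (𝓝 (ch E G 1)) := continuousAt_extChartAt 1
  have hW : ∀ᶠ g in 𝓝 (1 : G), exp (D (Λ (lg (rho b g)))) = rho b g := by
    refine ((rho_tendsto b).mono_right (nhdsWithin_Aut_le b)).eventually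
      (p := fun A => exp (D (Λ (lg A))) = A) ?_
    rw [eventually_map]
    filter_upwards [nhdsWithin_le_nhds hlg', self_mem_nhdsWithin] with Z hZ hZ'
    obtain ⟨X, rfl⟩ := hZ'
    rw [hZ, ← hD', hΛ]
  refine ⟨?_, ?_, ?_⟩
  · filter_upwards [hch.eventually hF.eventually_left_inverse, rho_chart b,
      extChartAt_source_mem_nhds (I := 𝓘(ℝ, E)) (1 : G)] with g h1 h2 h3 h4
    have h5 := hF.eventually_left_inverse.self_of_nhds
    rw [he] at h5
    rw [h2, h4, h5] at h1
    exact (ch E G).injOn h3 (mem_extChartAt_source _) h1.symm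
  · filter_upwards [hW] with g hg
    exact ⟨(toE E G).symm (Λ (lg (rho b g))), by rw [← hD', LinearEquiv.apply_symm_apply, hg]⟩
  · have h1 : map (fun g => Λ (lg (rho b g))) (𝓝 (1 : G)) = 𝓝 0 := by
      have h2 := hF.map_nhds_eq_of_equiv
      rw [he, hlg1, map_zero, ← map_extChartAt_nhds_of_boundaryless, map_map] at h2
      rw [← h2]
      refine map_congr ((rho_chart b).mono fun g hg => ?_)
      exact congrArg (fun A => Λ (lg A)) hg.symm
    have h3 : 𝓝[range (adM b)] (0 : Mat n) ≤ map D (𝓝 0) := by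
      intro U hU
      have h4 : Tendsto Λ (𝓝 0) (𝓝 0) := by simpa using Λ.continuous.tendsto 0
      filter_upwards [nhdsWithin_le_nhds (h4 hU), self_mem_nhdsWithin] with Z hZ hZ'
      obtain ⟨X, rfl⟩ := hZ'
      rw [← hD'] at hZ ⊢
      simpa only [mem_preimage, hΛ] using hZ
    refine (nhdsWithin_Aut_le b).trans ((map_mono h3).trans (le_of_eq ?_))
    rw [← h1, map_map, map_map]
    exact map_congr hW

theorem map_rho_nhds : map (rho b) (𝓝 1) = 𝓝[Aut b] 1 :=
  le_antisymm (rho_tendsto b) (rho_local b).2.2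

end Pool.Agent.P.MP_d483fb_an.Z.Br

namespace Pool.Agent.P.MP_d483fb_an.Z

variable (E : Type) [NormedAddCommGroup E] [NormedSpace ℝ E] [FiniteDimensional ℝ E]
  [CompleteSpace E] (G : Type) [Group G] [TopologicalSpace G] [ChartedSpace E G]
  [LieGroup 𝓘(ℝ, E) (minSmoothness ℝ 3) G]

/-- The adjoint representation exists. -/
theorem exists_adRep [LieAlgebra.IsKilling ℝ (GroupLieAlgebra 𝓘(ℝ, E) G)]
    {n : ℕ} (b : Basis (Fin n) ℝ (GroupLieAlgebra 𝓘(ℝ, E) G)) : Nonempty (AdRep E G b) := by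
  have h : ∀ (X : GroupLieAlgebra 𝓘(ℝ, E) G) (γ : ℝ → G), γ 0 = 1 →
      IsMIntegralCurve γ (mulInvariantVectorField X) → γ = Br.ex X := fun X γ h0 hγ =>
    Br.curve_unique hγ (Br.ex_curve X) (by rw [h0, Br.ex_zero])
  exact ⟨{ ρ := Br.rho b
           cont := Br.rho_cont b
           aut := range_subset_iff.2 (Br.rho_mem_Aut b)
           curve := Br.exists_curve
           add := fun X γ h0 hγ => h X γ h0 hγ ▸ Br.ex_add X
           eq_exp := fun X γ h0 hγ => h X γ h0 hγ ▸ Br.rho_ex b X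
           disc := (Br.rho_local b).1 }⟩

/-- A connected semisimple Lie group of higher rank carries the structure `HigherRank`. -/
theorem exists_higherRank [T2Space G] [ConnectedSpace G]
    (hs : LieAlgebra.IsSemisimple ℝ (GroupLieAlgebra 𝓘(ℝ, E) G))
    (hr : ∀ I : LieIdeal ℝ (GroupLieAlgebra 𝓘(ℝ, E) G), IsAtom I → 2 ≤ realRank I) :
    ∃ D : HigherRank G (finrank ℝ E), ∀ m : ℕ, ((m : ℕ∞) < vNum E G → D.ltV m) ∧
      ((m : ℕ∞) < dNum (GroupLieAlgebra 𝓘(ℝ, E) G) → D.ltD m) := by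
  have := lie_finite E G
  have : LieAlgebra.IsKilling ℝ (GroupLieAlgebra 𝓘(ℝ, E) G) := inferInstance
  exact exists_higherRank_of_adRep E G hs hr (exists_adRep E G)

end Pool.Agent.P.MP_d483fb_an.Z

end

end
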